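import Pool.Agent.EXO.CsId

/-!
# EXO / CsOrth: the reflection part contributes nothing; block triangular matrices

If `g = ρ (1 - 2p)` with `p` a projection and `θ = g⁻¹ dg = c + (1-2p) d(1-2p)` then `tr θ³ = 0`;
for block lower triangular `θ`, `tr θ³` is the sum over the diagonal blocks.
-/

set_option autoImplicit false
set_option maxSynthPendingDepth 3
set_option linter.unusedSectionVars false

namespace Pool.Agent.EXO

open Matrix

namespace GrC

variable {R : Type*} [Ring R] [Algebra ℂ R] {S : GrC R}
variable {n : Type*} [Fintype n] [DecidableEq n]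

theorem odd_sq_zero {c : R} (hc : S.σ c = -c) : c * c = 0 := by
  have h := S.od c c hc hc
  have h2 : (2 : ℂ) • (c * c) = 0 := by
    rw [two_smul]
    nth_rewrite 1 [h]
    exact neg_add_cancel _
  exact (smul_eq_zero_iff_right (two_ne_zero)).1 h2

/-- odd scalar matrices anticommute with odd matrices. -/
theorem scal_od {c : R} (hc : S.σ c = -c) {X : Matrix n n R} (hX : S.MOd X) :
    X * (Matrix.diagonal fun _ => c) = -((Matrix.diagonal fun _ => c) * X) := by
  ext i j
  rw [Matrix.mul_diagonal, Matrix.neg_apply, Matrix.diagonal_mul]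
  exact S.od _ _ (hX i j) hc

/-- `tr (c + K)³ = tr K³` for odd `c`, `K`. -/
theorem tr_scal_cube {c : R} (hc : S.σ c = -c) {K : Matrix n n R} (hK : S.MOd K) :
    trace (((Matrix.diagonal fun _ => c) + K) * ((Matrix.diagonal fun _ => c) + K) *
      ((Matrix.diagonal fun _ => c) + K)) = trace (K * K * K) := by
  set C : Matrix n n R := Matrix.diagonal fun _ => c with hC
  have hCC : C * C = 0 := by
    rw [hC, Matrix.diagonal_mul_diagonal]
    simp only [odd_sq_zero hc, Matrix.diagonal_zero]
  have hKC : K * C = -(C * K) := scal_od hc hK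
  have h1 : (C + K) * (C + K) = K * K := by
    rw [Matrix.add_mul, Matrix.mul_add, Matrix.mul_add, hCC, hKC]
    abel
  rw [h1, Matrix.mul_add, trace_add]
  have h2 : trace (K * K * C) = 0 := by
    have h3 : K * K * C = C * (K * K) := by
      rw [Matrix.mul_assoc, hKC, Matrix.mul_neg, ← Matrix.mul_assoc, hKC, Matrix.neg_mul, neg_neg,
        Matrix.mul_assoc]
    rw [h3]
    have h4 : trace (C * (K * K)) = c * trace (K * K) := by
      simp only [trace, diag_apply, hC, Matrix.diagonal_mul, Finset.mul_sum]
    rw [h4, tr_two_zero hK, mul_zero]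
  rw [h2, zero_add]

/-- `tr ((1-2p) d(1-2p))³ = 0` for a projection `p`, `q = dp`. -/
theorem tr_refl_cube {p q : Matrix n n R} (hp : S.MEv p) (hq : S.MOd q) (hpp : p * p = p)
    (hpq : p * q + q * p = q) {K : Matrix n n R} (hK : K = (2 : ℂ) • (p * q - q * p)) :
    trace (K * K * K) = 0 := by
  have a1 : p * q * p = 0 := by
    have h := congrArg (fun X => p * X) hpq
    simp only [Matrix.mul_add, ← Matrix.mul_assoc, hpp] at h
    have h' : p * q + p * q * p = p * q + 0 := by rw [h, add_zero]
    exact add_left_cancel h'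
  have a2 : p * (q * q) = q * q * p := by
    -- p q q = (q - q p) q = q q - q p q ; q q p = q (q - p q) = q q - q p q
    have h1 : p * q = q - q * p := eq_sub_of_add_eq hpq
    have h2 : q * p = q - p * q := eq_sub_of_add_eq' hpq
    calc p * (q * q) = (p * q) * q := by rw [Matrix.mul_assoc]
      _ = (q - q * p) * q := by rw [h1]
      _ = q * q - q * p * q := by rw [Matrix.sub_mul]
      _ = q * q - q * (p * q) := by rw [Matrix.mul_assoc q p q]
      _ = q * (q - p * q) := by rw [Matrix.mul_sub]
      _ = q * (q * p) := by rw [h2]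
      _ = q * q * p := by rw [Matrix.mul_assoc]
  set L := p * q - q * p with hL
  have oL : S.MOd L := (hp.mul_od hq).sub (hq.mul_ev hp)
  -- L² = - q²
  have hLL : L * L = -(q * q) := by
    have e1 : p * q * (p * q) = 0 := by rw [← Matrix.mul_assoc, a1, Matrix.zero_mul]
    have e2 : q * p * (q * p) = 0 := by
      rw [Matrix.mul_assoc, ← Matrix.mul_assoc p q p, a1, Matrix.mul_zero]
    have e3 : q * p * (p * q) = q * (p * q) := by
      rw [Matrix.mul_assoc, ← Matrix.mul_assoc p p q, hpp]
    have e4 : p * q * (q * p) = q * q * p := by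
      rw [Matrix.mul_assoc, ← Matrix.mul_assoc q q p, ← Matrix.mul_assoc, a2, Matrix.mul_assoc (q * q),
        hpp]
    rw [hL, Matrix.sub_mul, Matrix.mul_sub, Matrix.mul_sub, e1, e2, e3, e4]
    have e5 : q * (p * q) + q * q * p = q * q := by
      rw [Matrix.mul_assoc q q p, ← Matrix.mul_add, hpq]
    calc (0 : Matrix n n R) - q * q * p - (q * (p * q) - 0) = -(q * (p * q) + q * q * p) := by abel
      _ = -(q * q) := by rw [e5]
  -- tr L³ = - tr (q q (p q - q p)) = 0
  have h3 : trace (L * L * L) = 0 := by
    rw [hLL, Matrix.neg_mul, trace_neg, hL, Matrix.mul_sub, trace_sub]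
    have f1 : trace (q * q * (p * q)) = trace (p * q * (q * q)) := by
      rw [tr_ev (hq.mul hq)]
    have f2 : trace (q * q * (q * p)) = trace (p * (q * (q * q))) := by
      rw [tr_ev hp]
      simp only [Matrix.mul_assoc]
    rw [f1, f2, Matrix.mul_assoc p q (q * q), sub_self, neg_zero]
  rw [hK]
  simp only [Matrix.smul_mul, Matrix.mul_smul, trace_smul, h3, smul_zero]

/-- trace of the cube of a block lower triangular matrix. -/
theorem tr_block_cube {m : Type*} [Fintype m] [DecidableEq m] (X : Matrix m m R) (Y : Matrix n m R)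
    (Z : Matrix n n R) :
    trace (fromBlocks X 0 Y Z * fromBlocks X 0 Y Z * fromBlocks X 0 Y Z) =
      trace (X * X * X) + trace (Z * Z * Z) := by
  simp only [fromBlocks_multiply, Matrix.mul_zero, Matrix.zero_mul, add_zero, zero_add, trace,
    diag_apply, Fintype.sum_sum_type, fromBlocks_apply₁₁, fromBlocks_apply₂₂]

end GrC

end Pool.Agent.EXO
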