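import Mathlib

/-!
# EXO / FmAlg: exterior algebra in coordinates

`HF m κ` = `Λ ℂ^m ⊗ ℂ^κ` with orthonormal basis `e_S ⊗ k`, `S : Finset (Fin m)`.
`eps a` = exterior multiplication by `e_a`, `iota a` = its adjoint, canonical anticommutation
relations.
-/

set_option autoImplicit false
set_option maxSynthPendingDepth 3

namespace Pool.Agent.EXO

open Finset

variable {m : ℕ} {κ : Type*} [Fintype κ]

/-- `Λ ℂ^m ⊗ ℂ^κ`. -/
abbrev HF (m : ℕ) (κ : Type*) [Fintype κ] := EuclideanSpace ℂ (Finset (Fin m) × κ)

/-- The fermionic sign. -/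
def sg (a : Fin m) (S : Finset (Fin m)) : ℂ := (-1) ^ (S.filter (· < a)).card

theorem sg_mul_self (a : Fin m) (S : Finset (Fin m)) : sg a S * sg a S = 1 := by
  unfold sg
  rw [← mul_pow]
  norm_num

theorem sg_insert_self (a : Fin m) (S : Finset (Fin m)) : sg a (insert a S) = sg a S := by
  unfold sg
  rw [filter_insert, if_neg (lt_irrefl a)]

theorem sg_erase_self (a : Fin m) (S : Finset (Fin m)) : sg a (S.erase a) = sg a S := by
  unfold sg
  congr 2
  ext x
  simp only [mem_filter, mem_erase]
  constructor
  · rintro ⟨⟨_, h2⟩, h3⟩; exact ⟨h2, h3⟩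
  · rintro ⟨h2, h3⟩; exact ⟨⟨ne_of_lt h3, h2⟩, h3⟩

theorem sg_insert_lt {a b : Fin m} (h : b < a) {S : Finset (Fin m)} (hb : b ∉ S) :
    sg a (insert b S) = - sg a S := by
  unfold sg
  rw [filter_insert, if_pos h, card_insert_of_notMem (by simp [hb]), pow_succ]
  ring

theorem sg_insert_gt {a b : Fin m} (h : a < b) (S : Finset (Fin m)) :
    sg a (insert b S) = sg a S := by
  unfold sg
  rw [filter_insert, if_neg (not_lt.2 h.le)]

theorem sg_erase_lt {a b : Fin m} (h : b < a) {S : Finset (Fin m)} (hb : b ∈ S) :
    sg a (S.erase b) = - sg a S := by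
  have h1 := sg_insert_lt h (notMem_erase b S)
  rw [insert_erase hb] at h1
  rw [h1, neg_neg]

theorem sg_erase_gt {a b : Fin m} (h : a < b) (S : Finset (Fin m)) :
    sg a (S.erase b) = sg a S := by
  by_cases hb : b ∈ S
  · have h1 := sg_insert_gt h (S.erase b)
    rw [insert_erase hb] at h1
    rw [h1]
  · rw [erase_eq_of_notMem hb]

/-- Exterior multiplication by `e_a`. -/
noncomputable def eps (a : Fin m) : HF m κ →L[ℂ] HF m κ :=
  LinearMap.toContinuousLinearMap
    { toFun := fun u => WithLp.toLp 2 fun p => if a ∈ p.1 then sg a p.1 * u (p.1.erase a, p.2) else 0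
      map_add' := fun u v => by
        ext p
        by_cases h : a ∈ p.1 <;> simp [h, mul_add]
      map_smul' := fun r u => by
        ext p
        by_cases h : a ∈ p.1
        · simp [h]; ring
        · simp [h] }

/-- Contraction with `e_a`. -/
noncomputable def iota (a : Fin m) : HF m κ →L[ℂ] HF m κ :=
  LinearMap.toContinuousLinearMap
    { toFun := fun u => WithLp.toLp 2 fun p => if a ∈ p.1 then 0 else sg a p.1 * u (insert a p.1, p.2)
      map_add' := fun u v => by
        ext p
        by_cases h : a ∈ p.1 <;> simp [h, mul_add]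
      map_smul' := fun r u => by
        ext p
        by_cases h : a ∈ p.1
        · simp [h]
        · simp [h]; ring }

theorem eps_apply (a : Fin m) (u : HF m κ) (S : Finset (Fin m)) (k : κ) :
    eps a u (S, k) = if a ∈ S then sg a S * u (S.erase a, k) else 0 := rfl

theorem iota_apply (a : Fin m) (u : HF m κ) (S : Finset (Fin m)) (k : κ) :
    iota a u (S, k) = if a ∈ S then 0 else sg a S * u (insert a S, k) := rfl

theorem eps_eps (a b : Fin m) (u : HF m κ) : eps a (eps b u) = - eps b (eps a u) := by
  ext ⟨S, k⟩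
  simp only [PiLp.neg_apply, eps_apply, mem_erase]
  by_cases ha : a ∈ S
  · by_cases hb : b ∈ S
    · rcases lt_trichotomy a b with h | h | h
      · have h1 : b ≠ a := ne_of_gt h
        have h2 : a ≠ b := ne_of_lt h
        simp only [ha, hb, h1, h2, ne_eq, not_false_eq_true, and_true, if_true,
          sg_erase_lt h ha, sg_erase_gt h, erase_right_comm (a := a) (b := b)]
        ring
      · subst h; simp [ha]
      · have h1 : b ≠ a := ne_of_lt h
        have h2 : a ≠ b := ne_of_gt h
        simp only [ha, hb, h1, h2, ne_eq, not_false_eq_true, and_true, if_true,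
          sg_erase_lt h hb, sg_erase_gt h, erase_right_comm (a := a) (b := b)]
        ring
    · simp [ha, hb]
  · simp [ha]

theorem eps_self (a : Fin m) (u : HF m κ) : eps a (eps a u) = 0 := by
  ext ⟨S, k⟩
  simp [eps_apply]

theorem iota_iota (a b : Fin m) (u : HF m κ) : iota a (iota b u) = - iota b (iota a u) := by
  ext ⟨S, k⟩
  simp only [PiLp.neg_apply, iota_apply, mem_insert]
  by_cases ha : a ∈ S
  · simp [ha]
  · by_cases hb : b ∈ S
    · simp [ha, hb]
    · rcases lt_trichotomy a b with h | h | h
      · have h1 : b ≠ a := ne_of_gt h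
        have h2 : a ≠ b := ne_of_lt h
        simp only [ha, hb, h1, h2, or_self, if_false, sg_insert_lt h ha, sg_insert_gt h,
          Finset.insert_comm a b S]
        ring
      · subst h; simp
      · have h1 : b ≠ a := ne_of_lt h
        have h2 : a ≠ b := ne_of_gt h
        simp only [ha, hb, h1, h2, or_self, if_false, sg_insert_lt h hb, sg_insert_gt h,
          Finset.insert_comm a b S]
        ring

theorem iota_self (a : Fin m) (u : HF m κ) : iota a (iota a u) = 0 := by
  ext ⟨S, k⟩
  simp [iota_apply]

theorem eps_iota_self (a : Fin m) (u : HF m κ) : eps a (iota a u) + iota a (eps a u) = u := by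
  ext ⟨S, k⟩
  simp only [PiLp.add_apply, eps_apply, iota_apply]
  by_cases ha : a ∈ S
  · simp only [ha, if_true, notMem_erase, if_false, insert_erase, add_zero]
    rw [← mul_assoc, sg_erase_self, sg_mul_self, one_mul]
  · simp only [ha, if_false, mem_insert_self, if_true, erase_insert ha, zero_add]
    rw [← mul_assoc, sg_insert_self, sg_mul_self, one_mul]

theorem eps_iota_ne {a b : Fin m} (hab : a ≠ b) (u : HF m κ) :
    eps a (iota b u) = - iota b (eps a u) := by
  ext ⟨S, k⟩
  simp only [PiLp.neg_apply, eps_apply, iota_apply, mem_insert, mem_erase]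
  by_cases ha : a ∈ S
  · by_cases hb : b ∈ S
    · simp [ha, hb, Ne.symm hab]
    · have h3 : insert b (S.erase a) = (insert b S).erase a := (erase_insert_of_ne hab.symm).symm
      rcases lt_or_gt_of_ne hab with h | h
      · simp only [ha, hb, hab, hab.symm, ne_eq, not_false_eq_true, and_false, if_true, if_false,
          or_true, h3, sg_erase_lt h ha, sg_insert_gt h]
        ring
      · simp only [ha, hb, hab, hab.symm, ne_eq, not_false_eq_true, and_false, if_true, if_false,
          or_true, h3, sg_erase_gt h, sg_insert_lt h hb]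
        ring
  · simp [ha, hab]

theorem inner_eps (a : Fin m) (u v : HF m κ) : inner ℂ (eps a u) v = inner ℂ u (iota a v) := by
  simp only [PiLp.inner_apply, Fintype.sum_prod_type]
  rw [← Finset.sum_filter_add_sum_filter_not univ (fun S : Finset (Fin m) => a ∈ S)
    (fun S => ∑ k, inner ℂ (eps a u (S, k)) (v (S, k))),
    ← Finset.sum_filter_add_sum_filter_not univ (fun S : Finset (Fin m) => a ∈ S)
    (fun S => ∑ k, inner ℂ (u (S, k)) (iota a v (S, k)))]
  have h1 : ∑ S ∈ univ.filter (fun S : Finset (Fin m) => ¬ a ∈ S),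
      ∑ k, inner ℂ (eps a u (S, k)) (v (S, k)) = 0 :=
    sum_eq_zero fun S hS => sum_eq_zero fun k _ => by
      simp [eps_apply, (mem_filter.1 hS).2]
  have h2 : ∑ S ∈ univ.filter (fun S : Finset (Fin m) => a ∈ S),
      ∑ k, inner ℂ (u (S, k)) (iota a v (S, k)) = 0 :=
    sum_eq_zero fun S hS => sum_eq_zero fun k _ => by
      simp [iota_apply, (mem_filter.1 hS).2]
  rw [h1, h2, add_zero, zero_add]
  refine sum_bij' (fun S _ => S.erase a) (fun S _ => insert a S) ?_ ?_ ?_ ?_ ?_
  · intro S _; simp
  · intro S _; simp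
  · intro S hS; exact insert_erase (mem_filter.1 hS).2
  · intro S hS; exact erase_insert (mem_filter.1 hS).2
  · intro S hS
    refine sum_congr rfl fun k _ => ?_
    have hS' := (mem_filter.1 hS).2
    rw [eps_apply, iota_apply, if_pos hS', if_neg (notMem_erase a S), insert_erase hS',
      sg_erase_self]
    have h3 : star (sg a S) = sg a S := by unfold sg; simp
    simp only [RCLike.inner_apply, map_mul, starRingEnd_apply, h3]
    ring

end Pool.Agent.EXO
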