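import Mathlib
import Pool.Agent.EXO.FmAlg

/-!
# EXO / FmLam: the functor `Λ` in coordinates

`epsv v = ∑ v_a eps a`, `iotav v = ∑ v_a iota a` for real vectors `v`, the basis `bas S i`,
`Lam A : HF m κ → HF k κ` for `A : ℝ^m → ℝ^k`, the unique linear map with
`Lam A (epsv v u) = epsv (A v) (Lam A u)` and `Lam A (bas ∅ i) = bas ∅ i`.
-/

set_option autoImplicit false
set_option maxSynthPendingDepth 3

namespace Pool.Agent.EXO

open Finset

variable {m k l : ℕ} {κ : Type*} [Fintype κ]

/-- Real Euclidean space. -/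
abbrev RE (m : ℕ) := EuclideanSpace ℝ (Fin m)

/-- The standard basis of `ℝ^m`. -/
noncomputable abbrev ee (a : Fin m) : RE m := EuclideanSpace.single a 1

/-- Exterior multiplication by a real vector. -/
noncomputable def epsv (v : RE m) : HF m κ →L[ℂ] HF m κ := ∑ a, (v a : ℂ) • eps a

/-- Contraction with a real vector. -/
noncomputable def iotav (v : RE m) : HF m κ →L[ℂ] HF m κ := ∑ a, (v a : ℂ) • iota a

theorem epsv_apply (v : RE m) (u : HF m κ) : epsv v u = ∑ a, (v a : ℂ) • eps a u := by
  simp [epsv]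

theorem iotav_apply (v : RE m) (u : HF m κ) : iotav v u = ∑ a, (v a : ℂ) • iota a u := by
  simp [iotav]

theorem epsv_ee (a : Fin m) : (epsv (ee a) : HF m κ →L[ℂ] HF m κ) = eps a := by
  unfold epsv
  rw [Finset.sum_eq_single a]
  · simp
  · intro b _ hb
    simp [hb]
  · simp

theorem iotav_ee (a : Fin m) : (iotav (ee a) : HF m κ →L[ℂ] HF m κ) = iota a := by
  unfold iotav
  rw [Finset.sum_eq_single a]
  · simp
  · intro b _ hb
    simp [hb]
  · simp

theorem epsv_add (v w : RE m) : (epsv (v + w) : HF m κ →L[ℂ] HF m κ) = epsv v + epsv w := by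
  simp [epsv, add_smul, Finset.sum_add_distrib]

theorem epsv_smul (r : ℝ) (v : RE m) : (epsv (r • v) : HF m κ →L[ℂ] HF m κ) = (r : ℂ) • epsv v := by
  unfold epsv
  rw [Finset.smul_sum]
  refine sum_congr rfl fun a _ => ?_
  rw [smul_smul, PiLp.smul_apply, smul_eq_mul, Complex.ofReal_mul]

theorem iotav_add (v w : RE m) : (iotav (v + w) : HF m κ →L[ℂ] HF m κ) = iotav v + iotav w := by
  simp [iotav, add_smul, Finset.sum_add_distrib]

theorem iotav_smul (r : ℝ) (v : RE m) :
    (iotav (r • v) : HF m κ →L[ℂ] HF m κ) = (r : ℂ) • iotav v := by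
  unfold iotav
  rw [Finset.smul_sum]
  refine sum_congr rfl fun a _ => ?_
  rw [smul_smul, PiLp.smul_apply, smul_eq_mul, Complex.ofReal_mul]

theorem epsv_zero : (epsv (0 : RE m) : HF m κ →L[ℂ] HF m κ) = 0 := by simp [epsv]

theorem iotav_zero : (iotav (0 : RE m) : HF m κ →L[ℂ] HF m κ) = 0 := by simp [iotav]

theorem epsv_sum {α : Type*} (s : Finset α) (f : α → RE m) :
    (epsv (∑ i ∈ s, f i) : HF m κ →L[ℂ] HF m κ) = ∑ i ∈ s, epsv (f i) := by
  classical
  induction s using Finset.induction_on with
  | empty => simp [epsv_zero]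
  | insert a s ha ih => rw [sum_insert ha, epsv_add, ih, sum_insert ha]

theorem iotav_sum {α : Type*} (s : Finset α) (f : α → RE m) :
    (iotav (∑ i ∈ s, f i) : HF m κ →L[ℂ] HF m κ) = ∑ i ∈ s, iotav (f i) := by
  classical
  induction s using Finset.induction_on with
  | empty => simp [iotav_zero]
  | insert a s ha ih => rw [sum_insert ha, iotav_add, ih, sum_insert ha]

theorem epsv_epsv (v w : RE m) (u : HF m κ) : epsv v (epsv w u) = - epsv w (epsv v u) := by
  simp only [epsv_apply, map_sum, map_smul, Finset.smul_sum, smul_smul]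
  rw [Finset.sum_comm, ← Finset.sum_neg_distrib]
  refine sum_congr rfl fun b _ => ?_
  rw [← Finset.sum_neg_distrib]
  refine sum_congr rfl fun a _ => ?_
  rw [eps_eps, smul_neg, mul_comm]

theorem iotav_iotav (v w : RE m) (u : HF m κ) :
    iotav v (iotav w u) = - iotav w (iotav v u) := by
  simp only [iotav_apply, map_sum, map_smul, Finset.smul_sum, smul_smul]
  rw [Finset.sum_comm, ← Finset.sum_neg_distrib]
  refine sum_congr rfl fun b _ => ?_
  rw [← Finset.sum_neg_distrib]
  refine sum_congr rfl fun a _ => ?_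
  rw [iota_iota, smul_neg, mul_comm]

theorem epsv_self (v : RE m) (u : HF m κ) : epsv v (epsv v u) = 0 := by
  have h := epsv_epsv v v u
  have h2 : (2 : ℂ) • epsv v (epsv v u) = 0 := by
    rw [two_smul]
    nth_rewrite 1 [h]
    exact neg_add_cancel _
  exact (smul_eq_zero.1 h2).resolve_left two_ne_zero

theorem iotav_self (v : RE m) (u : HF m κ) : iotav v (iotav v u) = 0 := by
  have h := iotav_iotav v v u
  have h2 : (2 : ℂ) • iotav v (iotav v u) = 0 := by
    rw [two_smul]
    nth_rewrite 1 [h]
    exact neg_add_cancel _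
  exact (smul_eq_zero.1 h2).resolve_left two_ne_zero

theorem iota_eps (a b : Fin m) (u : HF m κ) :
    iota a (eps b u) = (if a = b then u else 0) - eps b (iota a u) := by
  by_cases h : a = b
  · subst h
    rw [if_pos rfl]
    exact eq_sub_of_add_eq' (eps_iota_self a u)
  · rw [if_neg h, eps_iota_ne (Ne.symm h), sub_neg_eq_add, zero_add]

theorem iotav_epsv (v w : RE m) (u : HF m κ) :
    iotav v (epsv w u) = ((inner ℝ v w : ℝ) : ℂ) • u - epsv w (iotav v u) := by
  have h1 : iotav v (epsv w u) = ∑ a, ∑ b, ((v a : ℂ) * (w b : ℂ)) • iota a (eps b u) := by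
    simp only [epsv_apply, iotav_apply, map_sum, map_smul, Finset.smul_sum, smul_smul]
    rw [Finset.sum_comm]
    exact sum_congr rfl fun a _ => sum_congr rfl fun b _ => by rw [mul_comm]
  have h2 : epsv w (iotav v u) = ∑ a, ∑ b, ((v a : ℂ) * (w b : ℂ)) • eps b (iota a u) := by
    simp only [epsv_apply, iotav_apply, map_sum, map_smul, Finset.smul_sum, smul_smul]
  have h3 : ((inner ℝ v w : ℝ) : ℂ) • u =
      ∑ a, ∑ b, ((v a : ℂ) * (w b : ℂ)) • (if a = b then u else 0) := by
    have h4 : (inner ℝ v w : ℝ) = ∑ a, v a * w a := by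
      simp [PiLp.inner_apply, mul_comm]
    rw [h4]
    push_cast
    rw [Finset.sum_smul]
    refine sum_congr rfl fun a _ => ?_
    rw [Finset.sum_eq_single a]
    · simp
    · intro b _ hb
      rw [if_neg (Ne.symm hb), smul_zero]
    · simp
  rw [h1, h2, h3, ← Finset.sum_sub_distrib]
  refine sum_congr rfl fun a _ => ?_
  rw [← Finset.sum_sub_distrib]
  exact sum_congr rfl fun b _ => by rw [iota_eps, smul_sub]

open Classical in
/-- The orthonormal basis. -/
noncomputable def bas (S : Finset (Fin m)) (i : κ) : HF m κ :=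
  WithLp.toLp 2 fun p => if p.1 = S ∧ p.2 = i then 1 else 0

open Classical in
theorem bas_apply (S T : Finset (Fin m)) (i j : κ) :
    (bas S i : HF m κ) (T, j) = if T = S ∧ j = i then 1 else 0 := rfl

theorem sum_bas (u : HF m κ) : u = ∑ S, ∑ i, u (S, i) • bas S i := by
  classical
  ext ⟨T, j⟩
  have h1 : (∑ S, ∑ i, u (S, i) • (bas S i : HF m κ)) (T, j) =
      ∑ S, ∑ i, u (S, i) * (bas S i : HF m κ) (T, j) := by
    simp
  rw [h1]
  simp only [bas_apply]
  rw [Finset.sum_eq_single T]
  · rw [Finset.sum_eq_single j]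
    · simp
    · intro i _ hi
      simp [Ne.symm hi]
    · simp
  · intro S _ hS
    refine sum_eq_zero fun i _ => ?_
    simp [Ne.symm hS]
  · simp

theorem eps_bas (a : Fin m) (S : Finset (Fin m)) (i : κ) :
    eps a (bas S i : HF m κ) = if a ∈ S then 0 else sg a S • bas (insert a S) i := by
  classical
  ext ⟨T, j⟩
  rw [eps_apply]
  by_cases haS : a ∈ S
  · rw [if_pos haS]
    by_cases haT : a ∈ T
    · rw [if_pos haT, bas_apply, if_neg, mul_zero]
      · simp
      · rintro ⟨h, _⟩
        rw [← h] at haS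
        exact notMem_erase a T haS
    · rw [if_neg haT]; simp
  · rw [if_neg haS, PiLp.smul_apply, bas_apply (insert a S) T, smul_eq_mul]
    by_cases haT : a ∈ T
    · rw [if_pos haT, bas_apply]
      by_cases h : T = insert a S ∧ j = i
      · obtain ⟨rfl, rfl⟩ := h
        simp [erase_insert haS, sg_insert_self]
      · rw [if_neg h, if_neg, mul_zero, mul_zero]
        rintro ⟨h1, h2⟩
        exact h ⟨by rw [← h1, insert_erase haT], h2⟩
    · have h3 : ¬ (T = insert a S ∧ j = i) := by
        rintro ⟨h1, _⟩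
        exact haT (by rw [h1]; exact mem_insert_self a S)
      rw [if_neg haT, if_neg h3, mul_zero]

theorem iota_bas (a : Fin m) (S : Finset (Fin m)) (i : κ) :
    iota a (bas S i : HF m κ) = if a ∈ S then sg a S • bas (S.erase a) i else 0 := by
  classical
  ext ⟨T, j⟩
  rw [iota_apply]
  by_cases haS : a ∈ S
  · rw [if_pos haS, PiLp.smul_apply, bas_apply (S.erase a) T, smul_eq_mul]
    by_cases haT : a ∈ T
    · have h3 : ¬ (T = S.erase a ∧ j = i) := by
        rintro ⟨h1, _⟩
        rw [h1] at haT
        exact notMem_erase a S haT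
      rw [if_pos haT, if_neg h3, mul_zero]
    · rw [if_neg haT, bas_apply]
      by_cases h : T = S.erase a ∧ j = i
      · obtain ⟨rfl, rfl⟩ := h
        simp [insert_erase haS, sg_erase_self]
      · rw [if_neg h, if_neg, mul_zero, mul_zero]
        rintro ⟨h1, h2⟩
        exact h ⟨by rw [← h1, erase_insert haT], h2⟩
  · rw [if_neg haS]
    by_cases haT : a ∈ T
    · rw [if_pos haT]; simp
    · rw [if_neg haT, bas_apply, if_neg, mul_zero]
      · simp
      · rintro ⟨h1, _⟩
        exact haS (by rw [← h1]; exact mem_insert_self a T)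

/-- Two maps which agree on the vacuum vectors and compatibly with all `eps a` are equal. -/
theorem hf_ext {X : Type*} [AddCommGroup X] [Module ℂ X] {T T' : HF m κ →ₗ[ℂ] X}
    (h0 : ∀ i, T (bas ∅ i) = T' (bas ∅ i))
    (h1 : ∀ a u, T u = T' u → T (eps a u) = T' (eps a u)) : T = T' := by
  classical
  have key : ∀ (S : Finset (Fin m)) (i : κ), T (bas S i) = T' (bas S i) := by
    intro S i
    induction S using Finset.induction_on with
    | empty => exact h0 i
    | insert a S ha ih =>
      have h2 := h1 a _ ih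
      rw [eps_bas, if_neg ha, map_smul, map_smul] at h2
      have h3 : sg a S ≠ 0 := by unfold sg; simp
      exact smul_right_injective X h3 h2
  ext u
  rw [sum_bas u]
  simp only [map_sum, map_smul, key]

/-- Ordered products. -/
noncomputable def word {R : Type*} [Monoid R] (f : Fin m → R) (S : Finset (Fin m)) : R :=
  ((S.sort (· ≤ ·)).map f).prod

theorem word_empty {R : Type*} [Monoid R] (f : Fin m → R) : word f ∅ = 1 := by
  simp [word]

theorem word_insert_min {R : Type*} [Monoid R] (f : Fin m → R) {a : Fin m}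
    {S : Finset (Fin m)} (h : ∀ x ∈ S, a < x) : word f (insert a S) = f a * word f S := by
  have ha : a ∉ S := fun h' => lt_irrefl a (h a h')
  unfold word
  rw [Finset.sort_insert (r := (· ≤ ·)) (fun b hb => (h b hb).le) ha, List.map_cons,
    List.prod_cons]

theorem mul_word {R : Type*} [Ring R] [Algebra ℂ R] (f : Fin m → R)
    (h1 : ∀ a b, f a * f b = - (f b * f a)) (h2 : ∀ a, f a * f a = 0) (a : Fin m)
    (S : Finset (Fin m)) :
    f a * word f S = if a ∈ S then 0 else sg a S • word f (insert a S) := by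
  classical
  induction S using Finset.induction_on_min with
  | empty =>
    have h3 := word_insert_min (S := (∅ : Finset (Fin m))) f (a := a) (by simp)
    rw [if_neg (notMem_empty a), h3, word_empty, mul_one]
    simp [sg]
  | insert b S hb ih =>
    have hbS : b ∉ S := fun h' => lt_irrefl b (hb b h')
    rw [word_insert_min f hb]
    rcases lt_trichotomy a b with h | h | h
    · have h3 : ∀ x ∈ insert b S, a < x := by
        intro x hx
        rcases mem_insert.1 hx with rfl | hx
        · exact h
        · exact h.trans (hb x hx)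
      have h4 : a ∉ insert b S := fun h' => lt_irrefl a (h3 a h')
      rw [if_neg h4, word_insert_min f h3, word_insert_min f hb]
      have h5 : sg a (insert b S) = 1 := by
        unfold sg
        rw [filter_false_of_mem, card_empty, pow_zero]
        intro x hx
        exact not_lt.2 (h3 x hx).le
      rw [h5, one_smul]
    · subst h
      rw [if_pos (mem_insert_self _ _), ← mul_assoc, h2, zero_mul]
    · rw [← mul_assoc, h1, neg_mul, mul_assoc, ih]
      have h6 : a ≠ b := ne_of_gt h
      by_cases haS : a ∈ S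
      · rw [if_pos haS, if_pos (mem_insert_of_mem haS), mul_zero, neg_zero]
      · rw [if_neg haS, if_neg (by simp [h6, haS]), sg_insert_lt h hbS, Finset.insert_comm a b S,
          word_insert_min f (S := insert a S), mul_smul_comm, neg_smul]
        intro x hx
        rcases mem_insert.1 hx with rfl | hx
        · exact h
        · exact hb x hx

/-- The degree zero part placed at `S`. -/
noncomputable def inj0 (k : ℕ) (S : Finset (Fin m)) : HF m κ →L[ℂ] HF k κ :=
  LinearMap.toContinuousLinearMap
    { toFun := fun u => WithLp.toLp 2 fun p => if p.1 = ∅ then u (S, p.2) else 0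
      map_add' := fun u v => by
        ext p
        by_cases h : p.1 = ∅ <;> simp [h]
      map_smul' := fun r u => by
        ext p
        by_cases h : p.1 = ∅ <;> simp [h] }

theorem inj0_bas (S T : Finset (Fin m)) (i : κ) :
    inj0 k S (bas T i : HF m κ) = if S = T then bas ∅ i else 0 := by
  classical
  ext ⟨T', j⟩
  have h1 : (inj0 k S (bas T i : HF m κ)) (T', j) =
      if T' = ∅ then (bas T i : HF m κ) (S, j) else 0 := rfl
  rw [h1]
  by_cases h : S = T
  · subst h
    rw [if_pos rfl]
    by_cases h2 : T' = ∅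
    · simp [h2, bas_apply]
    · simp [h2, bas_apply]
  · rw [if_neg h]
    by_cases h2 : T' = ∅
    · simp [h2, bas_apply, h]
    · simp [h2]

/-- The induced map on exterior algebras. -/
noncomputable def Lam (A : RE m →L[ℝ] RE k) : HF m κ →L[ℂ] HF k κ :=
  ∑ S : Finset (Fin m), (word (fun a => (epsv (A (ee a)) : HF k κ →L[ℂ] HF k κ)) S).comp (inj0 k S)

theorem Lam_bas (A : RE m →L[ℝ] RE k) (S : Finset (Fin m)) (i : κ) :
    Lam A (bas S i : HF m κ) =
      word (fun a => (epsv (A (ee a)) : HF k κ →L[ℂ] HF k κ)) S (bas ∅ i) := by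
  classical
  unfold Lam
  rw [_root_.sum_apply, Finset.sum_eq_single S]
  · rw [ContinuousLinearMap.comp_apply, inj0_bas, if_pos rfl]
  · intro T _ hT
    rw [ContinuousLinearMap.comp_apply, inj0_bas, if_neg hT, map_zero]
  · simp

theorem Lam_vac (A : RE m →L[ℝ] RE k) (i : κ) : Lam A (bas ∅ i : HF m κ) = bas ∅ i := by
  rw [Lam_bas, word_empty]; rfl

theorem Lam_eps (A : RE m →L[ℝ] RE k) (a : Fin m) (u : HF m κ) :
    Lam A (eps a u) = epsv (A (ee a)) (Lam A u) := by
  classical
  have key : ∀ (S : Finset (Fin m)) (i : κ),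
      Lam A (eps a (bas S i : HF m κ)) = epsv (A (ee a)) (Lam A (bas S i)) := by
    intro S i
    have h := mul_word (fun a => (epsv (A (ee a)) : HF k κ →L[ℂ] HF k κ))
      (fun a b => by ext1 u; exact epsv_epsv _ _ u) (fun a => by ext1 u; exact epsv_self _ u) a S
    have h' := congrArg (fun T : HF k κ →L[ℂ] HF k κ => T (bas ∅ i)) h
    rw [Lam_bas]
    have h3 : (epsv (A (ee a)) : HF k κ →L[ℂ] HF k κ)
        (word (fun a => (epsv (A (ee a)) : HF k κ →L[ℂ] HF k κ)) S (bas ∅ i)) =
        ((epsv (A (ee a)) : HF k κ →L[ℂ] HF k κ) *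
          word (fun a => (epsv (A (ee a)) : HF k κ →L[ℂ] HF k κ)) S) (bas ∅ i) := rfl
    rw [h3, h', eps_bas]
    by_cases haS : a ∈ S
    · simp [haS]
    · rw [if_neg haS, if_neg haS, map_smul, Lam_bas]; rfl
  rw [sum_bas u]
  simp only [map_sum, map_smul, key]

theorem Lam_epsv (A : RE m →L[ℝ] RE k) (v : RE m) (u : HF m κ) :
    Lam A (epsv v u) = epsv (A v) (Lam A u) := by
  have h1 : v = ∑ a, v a • ee a := by
    ext b
    simp [Pi.single_apply]
  have h2 : (epsv (A v) : HF k κ →L[ℂ] HF k κ) = ∑ a, (v a : ℂ) • epsv (A (ee a)) := by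
    conv_lhs => rw [h1]
    rw [map_sum, epsv_sum]
    exact sum_congr rfl fun a _ => by rw [map_smul, epsv_smul]
  rw [h2, epsv_apply, map_sum, _root_.sum_apply]
  exact sum_congr rfl fun a _ => by rw [map_smul, Lam_eps]; rfl

theorem Lam_unique (A : RE m →L[ℝ] RE k) (T : HF m κ →L[ℂ] HF k κ)
    (h0 : ∀ i, T (bas ∅ i) = bas ∅ i) (h1 : ∀ a u, T (eps a u) = epsv (A (ee a)) (T u)) :
    T = Lam A := by
  have h : (T : HF m κ →ₗ[ℂ] HF k κ) = (Lam A : HF m κ →L[ℂ] HF k κ) := by
    refine hf_ext (fun i => ?_) (fun a u hu => ?_)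
    · change T _ = Lam A _
      rw [h0, Lam_vac]
    · change T _ = Lam A _
      have hu' : T u = Lam A u := hu
      rw [h1, Lam_eps, hu']
  exact ContinuousLinearMap.coe_injective h

theorem Lam_comp (A : RE k →L[ℝ] RE l) (B : RE m →L[ℝ] RE k) :
    (Lam (A.comp B) : HF m κ →L[ℂ] HF l κ) = (Lam A).comp (Lam B) := by
  symm
  refine Lam_unique _ _ (fun i => ?_) (fun a u => ?_)
  · rw [ContinuousLinearMap.comp_apply, Lam_vac, Lam_vac]
  · rw [ContinuousLinearMap.comp_apply, Lam_eps, Lam_epsv]; rfl

theorem Lam_comp_apply (A : RE k →L[ℝ] RE l) (B : RE m →L[ℝ] RE k) (u : HF m κ) :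
    Lam (A.comp B) u = Lam A (Lam B u) := by
  rw [Lam_comp]; rfl

theorem Lam_id : (Lam (ContinuousLinearMap.id ℝ (RE m)) : HF m κ →L[ℂ] HF m κ) =
    ContinuousLinearMap.id ℂ _ := by
  symm
  refine Lam_unique _ _ (fun i => rfl) (fun a u => ?_)
  rw [ContinuousLinearMap.id_apply, ContinuousLinearMap.id_apply, ContinuousLinearMap.id_apply,
    epsv_ee]

theorem iota_vac (a : Fin m) (i : κ) : iota a (bas ∅ i : HF m κ) = 0 := by
  rw [iota_bas, if_neg (notMem_empty a)]

theorem iotav_vac (v : RE m) (i : κ) : iotav v (bas ∅ i : HF m κ) = 0 := by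
  rw [iotav_apply]
  exact sum_eq_zero fun a _ => by rw [iota_vac, smul_zero]

/-- The derivation property. -/
theorem iotav_Lam (A : RE m →L[ℝ] RE k) (v : RE k) (u : HF m κ) :
    iotav v (Lam A u) = Lam A (iotav (ContinuousLinearMap.adjoint A v) u) := by
  have h : ((iotav v : HF k κ →L[ℂ] HF k κ).comp (Lam A) : HF m κ →ₗ[ℂ] HF k κ) =
      ((Lam A : HF m κ →L[ℂ] HF k κ).comp (iotav (ContinuousLinearMap.adjoint A v))) := by
    refine hf_ext (fun i => ?_) (fun a u hu => ?_)
    · change iotav v (Lam A (bas ∅ i)) = Lam A (iotav _ (bas ∅ i))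
      rw [Lam_vac, iotav_vac, iotav_vac, map_zero]
    · change iotav v (Lam A (eps a u)) = Lam A (iotav _ (eps a u))
      have hu' : iotav v (Lam A u) = Lam A (iotav (ContinuousLinearMap.adjoint A v) u) := hu
      have h1 : iotav (ContinuousLinearMap.adjoint A v) (eps a u) =
          iotav (ContinuousLinearMap.adjoint A v) (epsv (ee a) u) := by rw [epsv_ee]
      rw [Lam_eps, iotav_epsv, h1, iotav_epsv, map_sub, map_smul, Lam_epsv, hu',
        ContinuousLinearMap.adjoint_inner_left]
  exact congrArg (fun T : HF m κ →ₗ[ℂ] HF k κ => T u) h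

theorem inner_epsv (v : RE m) (u w : HF m κ) :
    inner ℂ (epsv v u) w = inner ℂ u (iotav v w) := by
  rw [epsv_apply, iotav_apply, sum_inner, inner_sum]
  refine sum_congr rfl fun a _ => ?_
  rw [inner_smul_left, inner_smul_right, inner_eps]
  simp

theorem adjoint_epsv (v : RE m) :
    ContinuousLinearMap.adjoint (epsv v : HF m κ →L[ℂ] HF m κ) = iotav v := by
  symm
  rw [ContinuousLinearMap.eq_adjoint_iff]
  intro x y
  rw [← inner_conj_symm, ← inner_epsv, inner_conj_symm]

theorem adjoint_eps (a : Fin m) :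
    ContinuousLinearMap.adjoint (eps a : HF m κ →L[ℂ] HF m κ) = iota a := by
  rw [← epsv_ee, adjoint_epsv, iotav_ee]

/-- The projection to forms of degree `j`. -/
noncomputable def dg (j : ℕ) : HF m κ →L[ℂ] HF m κ :=
  LinearMap.toContinuousLinearMap
    { toFun := fun u => WithLp.toLp 2 fun p => if p.1.card = j then u p else 0
      map_add' := fun u v => by
        ext p
        by_cases h : p.1.card = j <;> simp [h]
      map_smul' := fun r u => by
        ext p
        by_cases h : p.1.card = j <;> simp [h] }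

theorem dg_apply (j : ℕ) (u : HF m κ) (S : Finset (Fin m)) (i : κ) :
    dg j u (S, i) = if S.card = j then u (S, i) else 0 := rfl

theorem dg_dg (i j : ℕ) (u : HF m κ) : dg i (dg j u) = if i = j then dg i u else 0 := by
  ext ⟨S, k⟩
  by_cases h : i = j
  · subst h
    by_cases h2 : S.card = i <;> simp [dg_apply, h2]
  · rw [if_neg h]
    by_cases h2 : S.card = i
    · simp [dg_apply, h2, h]
    · simp [dg_apply, h2]

theorem dg_eps (j : ℕ) (a : Fin m) (u : HF m κ) : dg (j + 1) (eps a u) = eps a (dg j u) := by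
  ext ⟨S, k⟩
  rw [dg_apply, eps_apply, eps_apply, dg_apply]
  by_cases ha : a ∈ S
  · have h1 : S.card = (S.erase a).card + 1 := (card_erase_add_one ha).symm
    by_cases h2 : (S.erase a).card = j
    · rw [if_pos (by omega), if_pos ha, if_pos ha, if_pos h2]
    · rw [if_neg (by omega), if_pos ha, if_neg h2, mul_zero]
  · simp [ha]

theorem dg_zero_eps (a : Fin m) (u : HF m κ) : dg 0 (eps a u) = 0 := by
  ext ⟨S, k⟩
  rw [dg_apply, eps_apply]
  by_cases ha : a ∈ S
  · have h1 : S.card ≠ 0 := card_ne_zero_of_mem ha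
    simp [h1]
  · simp [ha]

theorem dg_iota (j : ℕ) (a : Fin m) (u : HF m κ) : dg j (iota a u) = iota a (dg (j + 1) u) := by
  ext ⟨S, k⟩
  rw [dg_apply, iota_apply, iota_apply, dg_apply]
  by_cases ha : a ∈ S
  · simp [ha]
  · rw [if_neg ha, if_neg ha, card_insert_of_notMem ha]
    by_cases h2 : S.card = j
    · rw [if_pos h2, if_pos (by omega)]
    · rw [if_neg h2, if_neg (by omega), mul_zero]

theorem dg_epsv (j : ℕ) (v : RE m) (u : HF m κ) : dg (j + 1) (epsv v u) = epsv v (dg j u) := by
  rw [epsv_apply, epsv_apply, map_sum]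
  exact sum_congr rfl fun a _ => by rw [map_smul, dg_eps]

theorem dg_iotav (j : ℕ) (v : RE m) (u : HF m κ) : dg j (iotav v u) = iotav v (dg (j + 1) u) := by
  rw [iotav_apply, iotav_apply, map_sum]
  exact sum_congr rfl fun a _ => by rw [map_smul, dg_iota]

theorem dg_bas (j : ℕ) (S : Finset (Fin m)) (i : κ) :
    dg j (bas S i : HF m κ) = if S.card = j then bas S i else 0 := by
  classical
  ext ⟨T, l⟩
  rw [dg_apply, bas_apply]
  by_cases h : T = S ∧ l = i
  · obtain ⟨rfl, rfl⟩ := h
    by_cases h2 : T.card = j <;> simp [h2, bas_apply]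
  · rw [if_neg h]
    by_cases h2 : S.card = j
    · rw [if_pos h2, bas_apply, if_neg h]; simp
    · rw [if_neg h2]; simp

theorem sum_dg (u : HF m κ) : ∑ j ∈ range (m + 1), dg j u = u := by
  ext ⟨S, i⟩
  have h1 : (∑ j ∈ range (m + 1), dg j u) (S, i) = ∑ j ∈ range (m + 1), dg j u (S, i) := by
    simp
  rw [h1, Finset.sum_eq_single S.card]
  · simp [dg_apply]
  · intro j _ hj
    rw [dg_apply, if_neg (Ne.symm hj)]
  · intro h
    exact absurd (mem_range.2 (Nat.lt_succ_of_le ((card_le_univ S).trans (by simp)))) h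

theorem dg_eq_zero {j : ℕ} (h : m < j) (u : HF m κ) : dg j u = 0 := by
  ext ⟨S, i⟩
  have h1 : S.card ≤ m := (card_le_univ S).trans (by simp)
  rw [dg_apply, if_neg (by omega)]; simp

theorem Lam_dg (A : RE m →L[ℝ] RE k) (j : ℕ) (u : HF m κ) : Lam A (dg j u) = dg j (Lam A u) := by
  have h : ∀ (S : Finset (Fin m)) (i : κ) (j : ℕ),
      dg j (Lam A (bas S i : HF m κ)) = if S.card = j then Lam A (bas S i) else 0 := by
    intro S i
    induction S using Finset.induction_on with
    | empty =>
      intro j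
      rw [Lam_vac, dg_bas]
      by_cases h6 : (∅ : Finset (Fin k)).card = j
      · rw [if_pos h6, if_pos (by simpa using h6)]
      · rw [if_neg h6, if_neg (by simpa using h6)]
    | insert a S ha ih =>
      intro j
      have h3 : sg a S ≠ 0 := by unfold sg; simp
      have h4 : (bas (insert a S) i : HF m κ) = (sg a S)⁻¹ • eps a (bas S i) := by
        rw [eps_bas, if_neg ha, smul_smul, inv_mul_cancel₀ h3, one_smul]
      rw [h4, map_smul, Lam_eps, map_smul, card_insert_of_notMem ha]
      cases j with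
      | zero =>
        rw [if_neg (by omega)]
        have h5 : ∀ w : HF k κ, dg 0 (epsv (A (ee a)) w) = 0 := by
          intro w
          rw [epsv_apply, map_sum]
          exact sum_eq_zero fun b _ => by rw [map_smul, dg_zero_eps, smul_zero]
        rw [h5, smul_zero]
      | succ j =>
        rw [dg_epsv, ih]
        by_cases h6 : S.card = j
        · rw [if_pos h6, if_pos (by omega)]
        · rw [if_neg h6, if_neg (by omega), map_zero, smul_zero]
  rw [sum_bas u]
  simp only [map_sum, map_smul, dg_bas, h]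
  refine sum_congr rfl fun S _ => sum_congr rfl fun i _ => ?_
  by_cases h6 : S.card = j
  · rw [if_pos h6, if_pos h6]
  · rw [if_neg h6, if_neg h6, map_zero]

theorem inner_bas_vac (u : HF m κ) (i : κ) : inner ℂ (bas ∅ i : HF m κ) u = u (∅, i) := by
  classical
  rw [PiLp.inner_apply, Finset.sum_eq_single (∅, i)]
  · rw [RCLike.inner_apply, bas_apply]
    simp
  · rintro ⟨S, j⟩ _ h
    have h3 : ¬ (S = ∅ ∧ j = i) := by
      rintro ⟨rfl, rfl⟩
      exact h rfl
    rw [RCLike.inner_apply, bas_apply, if_neg h3]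
    simp
  · simp

/-- A vector is determined by its vacuum components and all contractions. -/
theorem hf_ext_iota {u w : HF m κ} (h0 : ∀ i, u (∅, i) = w (∅, i))
    (h1 : ∀ a, iota a u = iota a w) : u = w := by
  ext ⟨S, i⟩
  rcases S.eq_empty_or_nonempty with rfl | ⟨a, ha⟩
  · exact h0 i
  · have h2 := congrArg (fun z : HF m κ => z (S.erase a, i)) (h1 a)
    simp only [iota_apply, notMem_erase, if_false, insert_erase ha] at h2
    have h3 : sg a (S.erase a) ≠ 0 := by unfold sg; simp
    exact mul_left_cancel₀ h3 h2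

theorem adjoint_Lam (A : RE m →L[ℝ] RE k) :
    ContinuousLinearMap.adjoint (Lam A : HF m κ →L[ℂ] HF k κ) =
      Lam (ContinuousLinearMap.adjoint A) := by
  classical
  refine Lam_unique _ _ (fun i => ?_) (fun a u => ?_)
  · refine hf_ext_iota (fun j => ?_) (fun a => ?_)
    · rw [← inner_bas_vac, ContinuousLinearMap.adjoint_inner_right, Lam_vac, inner_bas_vac,
        bas_apply, bas_apply]
      by_cases h : j = i <;> simp [h]
    · rw [iota_vac]
      refine ext_inner_left ℂ fun w => ?_
      rw [← inner_eps, ContinuousLinearMap.adjoint_inner_right, Lam_eps, inner_epsv, iotav_vac,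
        inner_zero_right, inner_zero_right]
  · refine ext_inner_left ℂ fun w => ?_
    rw [ContinuousLinearMap.adjoint_inner_right, ← inner_conj_symm, inner_eps,
      ← iotav_ee, iotav_Lam, inner_conj_symm, ← ContinuousLinearMap.adjoint_inner_right,
      ← inner_conj_symm, ← inner_epsv, inner_conj_symm]

end Pool.Agent.EXO
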