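import Mathlib
import Pool.Agent.EXO.FmLam

/-!
# EXO: basic definitions

Closed submanifolds of Euclidean space, forms in coordinates, operators of Dirac type and flat
bundles.  This file is frozen.
-/

open Set MeasureTheory
open scoped ContDiff ENNReal ComplexConjugate

namespace Pool.Agent.EXO

/-- Euclidean space of dimension `m`. -/
abbrev En (m : ℕ) := EuclideanSpace ℝ (Fin m)

/-- The standard basis vectors. -/
noncomputable def bv {m : ℕ} (a : Fin m) : En m := EuclideanSpace.single a (1 : ℝ)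

/-! ## Closed submanifolds -/

/-- `ψ : U → V ∩ O` is a chart of `V` with the inverse `κ`, which is smooth on the open set `O`. -/
structure IsChart {n M : ℕ} (V : Set (En M)) (U : Set (En n)) (ψ : En n → En M)
    (O : Set (En M)) (κ : En M → En n) : Prop where
  openU : IsOpen U
  openO : IsOpen O
  smoothψ : ContDiffOn ℝ ∞ ψ U
  smoothκ : ContDiffOn ℝ ∞ κ O
  maps : ∀ u ∈ U, ψ u ∈ V ∩ O
  left : ∀ u ∈ U, κ (ψ u) = u
  mapsκ : ∀ y ∈ V ∩ O, κ y ∈ U
  right : ∀ y ∈ V ∩ O, ψ (κ y) = y

/-- Closed submanifolds of dimension `n` of `ℝ^M`. -/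
structure ClosedSub (n M : ℕ) where
  carrier : Set (En M)
  compact : IsCompact carrier
  chart : ∀ x ∈ carrier, ∃ (U : Set (En n)) (ψ : En n → En M) (O : Set (En M))
    (κ : En M → En n), IsChart carrier U ψ O κ ∧ x ∈ O

/-- The Gram matrix of the derivative of `ψ`. -/
noncomputable def gram {n M : ℕ} (ψ : En n → En M) (u : En n) : Matrix (Fin n) (Fin n) ℝ :=
  fun i j => inner ℝ (fderiv ℝ ψ u (bv i)) (fderiv ℝ ψ u (bv j))

/-- A closed submanifold with a smooth extension `P` of the orthogonal projections to the tangent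
spaces and with its Riemannian measure `μ`. -/
structure Geo (n M : ℕ) extends ClosedSub n M where
  P : En M → (En M →L[ℝ] En M)
  smoothP : ContDiff ℝ ∞ P
  P_sa : ∀ x ∈ carrier, ∀ v w : En M, inner ℝ (P x v) w = inner ℝ v (P x w)
  P_idem : ∀ x ∈ carrier, ∀ v : En M, P x (P x v) = P x v
  P_range : ∀ (U : Set (En n)) (ψ : En n → En M) (O : Set (En M)) (κ : En M → En n),
    IsChart carrier U ψ O κ → ∀ u ∈ U, ∀ v : En M,
      P (ψ u) v = v ↔ v ∈ range (fderiv ℝ ψ u)
  μ : Measure (En M)
  μ_fin : IsFiniteMeasure μ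
  μ_supp : μ carrierᶜ = 0
  μ_chart : ∀ (U : Set (En n)) (ψ : En n → En M) (O : Set (En M)) (κ : En M → En n),
    IsChart carrier U ψ O κ → ∀ f : En M → ℝ≥0∞, Measurable f →
      ∫⁻ x in O, f x ∂μ = ∫⁻ u in U, f (ψ u) * ENNReal.ofReal (Real.sqrt (gram ψ u).det)

/-! ## Forms in coordinates -/

/-- The number of pairs `(i, j)` in `I × J` with `j < i`. -/
def nInv {m : ℕ} (I J : Finset (Fin m)) : ℕ := ((I ×ˢ J).filter fun p => p.2 < p.1).card

/-- The sign of the product of `e_I` and `e_J`. -/
noncomputable def sgJ {m : ℕ} (I J : Finset (Fin m)) : ℂ := (-1) ^ nInv I J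

/-- The exterior algebra of `ℂ^m` in coordinates; the values of scalar forms on `ℝ^m`. -/
def FA (m : ℕ) : Type := EuclideanSpace ℂ (Finset (Fin m))

noncomputable instance (m : ℕ) : NormedAddCommGroup (FA m) :=
  inferInstanceAs (NormedAddCommGroup (EuclideanSpace ℂ (Finset (Fin m))))

noncomputable instance (m : ℕ) : InnerProductSpace ℂ (FA m) :=
  inferInstanceAs (InnerProductSpace ℂ (EuclideanSpace ℂ (Finset (Fin m))))

noncomputable instance (m : ℕ) : FiniteDimensional ℂ (FA m) :=
  inferInstanceAs (FiniteDimensional ℂ (EuclideanSpace ℂ (Finset (Fin m))))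

/-- The form with the given coordinates. -/
noncomputable def FA.mk {m : ℕ} (f : Finset (Fin m) → ℂ) : FA m := WithLp.toLp 2 f

/-- The coordinates of a form. -/
def FA.co {m : ℕ} (u : FA m) (I : Finset (Fin m)) : ℂ := WithLp.ofLp u I

@[ext] theorem FA.ext {m : ℕ} {u v : FA m} (h : ∀ I, u.co I = v.co I) : u = v :=
  (WithLp.ofLp_injective 2) (funext h)

@[simp] theorem FA.co_mk {m : ℕ} (f : Finset (Fin m) → ℂ) (I : Finset (Fin m)) :
    (FA.mk f).co I = f I := rfl

@[simp] theorem FA.co_add {m : ℕ} (u v : FA m) (I : Finset (Fin m)) :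
    (u + v).co I = u.co I + v.co I := rfl

@[simp] theorem FA.co_zero {m : ℕ} (I : Finset (Fin m)) : (0 : FA m).co I = 0 := rfl

@[simp] theorem FA.co_smul {m : ℕ} (c : ℂ) (u : FA m) (I : Finset (Fin m)) :
    (c • u).co I = c * u.co I := rfl

@[simp] theorem FA.co_neg {m : ℕ} (u : FA m) (I : Finset (Fin m)) :
    (-u).co I = -u.co I := rfl

@[simp] theorem FA.co_sub {m : ℕ} (u v : FA m) (I : Finset (Fin m)) :
    (u - v).co I = u.co I - v.co I := rfl

noncomputable instance (m : ℕ) : Mul (FA m) :=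
  ⟨fun u v => FA.mk fun K => ∑ I ∈ K.powerset, sgJ I (K \ I) * u.co I * v.co (K \ I)⟩

noncomputable instance (m : ℕ) : One (FA m) := ⟨FA.mk fun K => if K = ∅ then 1 else 0⟩

theorem FA.co_mul {m : ℕ} (u v : FA m) (K : Finset (Fin m)) :
    (u * v).co K = ∑ I ∈ K.powerset, sgJ I (K \ I) * u.co I * v.co (K \ I) := rfl

theorem FA.co_one {m : ℕ} (K : Finset (Fin m)) :
    (1 : FA m).co K = if K = ∅ then 1 else 0 := rfl

theorem nInv_empty_left {m : ℕ} (J : Finset (Fin m)) : nInv ∅ J = 0 := by
  simp [nInv]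

theorem nInv_empty_right {m : ℕ} (I : Finset (Fin m)) : nInv I ∅ = 0 := by
  simp [nInv]

theorem nInv_union_left {m : ℕ} {I J : Finset (Fin m)} (h : Disjoint I J)
    (K : Finset (Fin m)) : nInv (I ∪ J) K = nInv I K + nInv J K := by
  unfold nInv
  rw [Finset.union_product, Finset.filter_union, Finset.card_union_of_disjoint]
  rw [Finset.disjoint_left]
  intro p hp hq
  simp only [Finset.mem_filter, Finset.mem_product] at hp hq
  exact Finset.disjoint_left.1 h hp.1.1 hq.1.1

theorem nInv_union_right {m : ℕ} {J K : Finset (Fin m)} (h : Disjoint J K)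
    (I : Finset (Fin m)) : nInv I (J ∪ K) = nInv I J + nInv I K := by
  unfold nInv
  rw [Finset.product_union, Finset.filter_union, Finset.card_union_of_disjoint]
  rw [Finset.disjoint_left]
  intro p hp hq
  simp only [Finset.mem_filter, Finset.mem_product] at hp hq
  exact Finset.disjoint_left.1 h hp.1.2 hq.1.2

theorem FA.mul_assoc' {m : ℕ} (u v w : FA m) : u * v * w = u * (v * w) := by
  ext K
  simp only [FA.co_mul, Finset.mul_sum, Finset.sum_mul]
  rw [Finset.sum_sigma', Finset.sum_sigma']
  refine Finset.sum_nbij' (fun p => ⟨p.2, p.1 \ p.2⟩) (fun p => ⟨p.1 ∪ p.2, p.1⟩) ?_ ?_ ?_ ?_ ?_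
  · rintro ⟨J, I⟩ h
    simp only [Finset.mem_sigma, Finset.mem_powerset] at h ⊢
    exact ⟨h.2.trans h.1, Finset.sdiff_subset_sdiff h.1 le_rfl⟩
  · rintro ⟨I, L⟩ h
    simp only [Finset.mem_sigma, Finset.mem_powerset] at h ⊢
    exact ⟨Finset.union_subset h.1 (h.2.trans Finset.sdiff_subset), Finset.subset_union_left⟩
  · rintro ⟨J, I⟩ h
    simp only [Finset.mem_sigma, Finset.mem_powerset] at h
    have : I ∪ J \ I = J := Finset.union_sdiff_of_subset h.2
    simp [this]
  · rintro ⟨I, L⟩ h
    simp only [Finset.mem_sigma, Finset.mem_powerset] at h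
    have hd : Disjoint I L := Finset.disjoint_left.2 fun x hx hy =>
      (Finset.mem_sdiff.1 (h.2 hy)).2 hx
    have : (I ∪ L) \ I = L := by
      rw [Finset.union_sdiff_left, Finset.sdiff_eq_self_of_disjoint hd.symm]
    simp [this]
  · rintro ⟨J, I⟩ h
    simp only [Finset.mem_sigma, Finset.mem_powerset] at h
    obtain ⟨hJ, hI⟩ := h
    have e1 : (K \ I) \ (J \ I) = K \ J := by
      ext x
      simp only [Finset.mem_sdiff]
      constructor
      · rintro ⟨⟨h1, h2⟩, h3⟩
        exact ⟨h1, fun h4 => h3 ⟨h4, h2⟩⟩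
      · rintro ⟨h1, h2⟩
        exact ⟨⟨h1, fun h3 => h2 (hI h3)⟩, fun h3 => h2 h3.1⟩
    have e2 : K \ I = (J \ I) ∪ (K \ J) := by
      ext x
      simp only [Finset.mem_sdiff, Finset.mem_union]
      constructor
      · rintro ⟨h1, h2⟩
        by_cases h3 : x ∈ J
        · exact Or.inl ⟨h3, h2⟩
        · exact Or.inr ⟨h1, h3⟩
      · rintro (⟨h1, h2⟩ | ⟨h1, h2⟩)
        · exact ⟨hJ h1, h2⟩
        · exact ⟨h1, fun h3 => h2 (hI h3)⟩
    have d1 : Disjoint (J \ I) (K \ J) := Finset.disjoint_left.2 fun x hx hy =>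
      (Finset.mem_sdiff.1 hy).2 (Finset.mem_sdiff.1 hx).1
    have e3 : J = I ∪ (J \ I) := (Finset.union_sdiff_of_subset hI).symm
    have d2 : Disjoint I (J \ I) := Finset.disjoint_sdiff
    have n1 : nInv J (K \ J) = nInv I (K \ J) + nInv (J \ I) (K \ J) := by
      conv_lhs => rw [e3, ← e3]
      rw [← nInv_union_left d2, ← e3]
    have n2 : nInv I (K \ I) = nInv I (J \ I) + nInv I (K \ J) := by
      conv_lhs => rw [e2]
      rw [nInv_union_right d1]
    have key : sgJ J (K \ J) * sgJ I (J \ I) = sgJ I (K \ I) * sgJ (J \ I) (K \ J) := by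
      simp only [sgJ, ← pow_add, n1, n2]
      congr 1
      ring
    simp only [e1]
    linear_combination (u.co I * v.co (J \ I) * w.co (K \ J)) * key

noncomputable instance (m : ℕ) : Ring (FA m) :=
  { (inferInstance : AddCommGroup (FA m)) with
    mul := (· * ·)
    one := 1
    mul_assoc := FA.mul_assoc'
    left_distrib := by
      intro u v w
      ext K
      simp only [FA.co_mul, FA.co_add, mul_add, Finset.sum_add_distrib]
    right_distrib := by
      intro u v w
      ext K
      simp only [FA.co_mul, FA.co_add, mul_add, add_mul, Finset.sum_add_distrib]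
    zero_mul := by
      intro u
      ext K
      simp [FA.co_mul]
    mul_zero := by
      intro u
      ext K
      simp [FA.co_mul]
    one_mul := by
      intro u
      ext K
      rw [FA.co_mul, Finset.sum_eq_single ∅]
      · simp [FA.co_one, sgJ, nInv_empty_left]
      · intro I _ hI
        simp [FA.co_one, hI]
      · simp
    mul_one := by
      intro u
      ext K
      rw [FA.co_mul, Finset.sum_eq_single K]
      · simp [FA.co_one, sgJ, nInv_empty_right]
      · intro I hI hne
        have : K \ I ≠ ∅ := by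
          intro h
          exact hne (Finset.Subset.antisymm (Finset.mem_powerset.1 hI)
            (Finset.sdiff_eq_empty_iff_subset.1 h))
        simp [FA.co_one, this]
      · simp }

theorem FA.smul_mul' {m : ℕ} (c : ℂ) (u v : FA m) : c • u * v = c • (u * v) := by
  ext K
  simp only [FA.co_mul, FA.co_smul, Finset.mul_sum]
  refine Finset.sum_congr rfl fun I _ => ?_
  ring

theorem FA.mul_smul' {m : ℕ} (c : ℂ) (u v : FA m) : u * c • v = c • (u * v) := by
  ext K
  simp only [FA.co_mul, FA.co_smul, Finset.mul_sum]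
  refine Finset.sum_congr rfl fun I _ => ?_
  ring

noncomputable instance (m : ℕ) : Algebra ℂ (FA m) :=
  Algebra.ofModule FA.smul_mul' FA.mul_smul'

/-- The one-form `v ↦ ⟨w, v⟩` belonging to a vector `w`. -/
noncomputable def of1 {m : ℕ} (w : En m) : FA m :=
  ∑ a, (w a : ℂ) • FA.mk fun J => if J = {a} then 1 else 0

section

variable {m : ℕ} {ι : Type} [Fintype ι]

/-- The component `k` of a form with values in `ℂ^ι`. -/
noncomputable def cmp (u : HF m ι) (k : ι) : FA m := FA.mk fun J => u (J, k)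

/-- The form with values in `ℂ^ι` with the given components. -/
noncomputable def ofCmp (f : ι → FA m) : HF m ι := WithLp.toLp 2 fun p => (f p.2).co p.1

/-- Exterior multiplication by the scalar form `α`. -/
noncomputable def mulL (α : FA m) : HF m ι →L[ℂ] HF m ι :=
  LinearMap.toContinuousLinearMap
    { toFun := fun u => ofCmp fun k => α * cmp u k
      map_add' := by
        intro u v
        have : ∀ k, cmp (u + v) k = cmp u k + cmp v k := fun k => rfl
        ext p
        simp only [ofCmp, this, mul_add]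
        rfl
      map_smul' := by
        intro c u
        have : ∀ k, cmp (c • u) k = c • cmp u k := fun k => rfl
        ext p
        simp only [ofCmp, this, FA.mul_smul']
        rfl }

/-- The Clifford operators `ε_a - ι_a`. -/
noncomputable def cl (a : Fin m) : HF m ι →L[ℂ] HF m ι := eps a - iota a

/-- A matrix acting on the coefficients. -/
noncomputable def cf (T : Matrix ι ι ℂ) : HF m ι →L[ℂ] HF m ι :=
  LinearMap.toContinuousLinearMap
    { toFun := fun u => WithLp.toLp 2 fun p => ∑ l, T p.2 l * u (p.1, l)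
      map_add' := by
        intro u v
        ext p
        simp [mul_add, Finset.sum_add_distrib]
      map_smul' := by
        intro c u
        ext p
        simp only [PiLp.smul_apply, smul_eq_mul, RingHom.id_apply, Finset.mul_sum]
        refine Finset.sum_congr rfl fun l _ => ?_
        ring }

/-- The pullback of the form `e_I` under the linear map `L`. -/
noncomputable def pbI {a : ℕ} (L : En a →L[ℝ] En m) (I : Finset (Fin m)) : FA a :=
  ((I.sort (· ≤ ·)).map fun b => of1 (WithLp.toLp 2 fun j => L (bv j) b)).prod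

/-- The pullback of scalar forms under the linear map `L`. -/
noncomputable def FAMap {a : ℕ} (L : En a →L[ℝ] En m) (u : FA m) : FA a :=
  ∑ I, u.co I • pbI L I

/-- The pullback of forms with values in `ℂ^ι` under the linear map `L : ℝ^a → ℝ^m`. -/
noncomputable def LamMap {a : ℕ} (L : En a →L[ℝ] En m) : HF m ι →L[ℂ] HF a ι :=
  Lam (ContinuousLinearMap.adjoint L)

/-- The exterior derivative of forms on `ℝ^m` with values in `ℂ^ι`. -/
noncomputable def dL (u : En m → HF m ι) (x : En m) : HF m ι :=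
  ∑ a, eps a (fderiv ℝ u x (bv a))

/-- The exterior derivative of scalar forms on `ℝ^m`. -/
noncomputable def dF (u : En m → FA m) (x : En m) : FA m :=
  ∑ a, of1 (bv a) * fderiv ℝ u x (bv a)

/-- The pullback of a form under a map. -/
noncomputable def pbL {a : ℕ} (F : En a → En m) (u : En m → HF m ι) (x : En a) : HF a ι :=
  LamMap (fderiv ℝ F x) (u (F x))

/-- The pullback of a scalar form under a map. -/
noncomputable def pbF {a : ℕ} (F : En a → En m) (u : En m → FA m) (x : En a) : FA a :=
  FAMap (fderiv ℝ F x) (u (F x))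

/-- The value `u` of a scalar form has degree `k`. -/
def FA.IsDeg (k : ℕ) (u : FA m) : Prop := ∀ I : Finset (Fin m), I.card ≠ k → u.co I = 0

end

/-! ## Oriented submanifolds, integration of forms -/

/-- A closed submanifold with an orientation, given by its volume form `vol`. -/
structure OrGeo (n M : ℕ) extends Geo n M where
  vol : En M → FA M
  smooth_vol : ContDiff ℝ ∞ vol
  vol_spec : ∀ x ∈ carrier, ∃ v : Fin n → En M, Orthonormal ℝ v ∧ (∀ i, P x (v i) = v i) ∧
    vol x = (List.ofFn fun i => of1 (v i)).prod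

/-- The integral over `V` of a scalar form of degree `n` (the other degrees do not contribute). -/
noncomputable def OrGeo.int {n M : ℕ} (V : OrGeo n M) (α : En M → FA M) : ℂ :=
  ∫ x, inner ℂ (V.vol x) (α x) ∂V.μ

/-! ## Operators of Dirac type -/

/-- The data of an operator of Dirac type on sections of the bundle with the fibres `range (Q x)`,
`x ∈ V`, in the Hilbert space `H`: constant Clifford operators `c a`, the projections `Q x`, the
grading `Γ x` and the zero order term `B x`. -/
structure Dirac {n M : ℕ} (V : Geo n M) (H : Type) [NormedAddCommGroup H]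
    [InnerProductSpace ℂ H] [FiniteDimensional ℂ H] where
  c : Fin M → (H →L[ℂ] H)
  Q : En M → (H →L[ℂ] H)
  Γ : En M → (H →L[ℂ] H)
  B : En M → (H →L[ℂ] H)
  smoothQ : ContDiff ℝ ∞ Q
  smoothΓ : ContDiff ℝ ∞ Γ
  smoothB : ContDiff ℝ ∞ B
  c_anti : ∀ a b, c a * c b + c b * c a = if a = b then (-2 : ℂ) • 1 else 0
  c_skew : ∀ a, ContinuousLinearMap.adjoint (c a) = -c a
  Q_idem : ∀ x ∈ V.carrier, Q x * Q x = Q x
  Q_sa : ∀ x ∈ V.carrier, ContinuousLinearMap.adjoint (Q x) = Q x
  /-- tangential Clifford multiplication commutes with `Q` -/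
  Q_tan : ∀ x ∈ V.carrier, ∀ v : En M,
    (∑ a, ((V.P x v a : ℝ) : ℂ) • c a) * Q x = Q x * ∑ a, ((V.P x v a : ℝ) : ℂ) • c a
  /-- normal Clifford multiplication maps the fibre into its orthogonal complement -/
  Q_nor : ∀ x ∈ V.carrier, ∀ v : En M, V.P x v = 0 →
    Q x * (∑ a, ((v a : ℝ) : ℂ) • c a) * Q x = 0
  Γ_sa : ∀ x ∈ V.carrier, ContinuousLinearMap.adjoint (Γ x) = Γ x
  Γ_Q : ∀ x ∈ V.carrier, Γ x * Q x = Q x * Γ x
  Γ_sq : ∀ x ∈ V.carrier, Γ x * Γ x * Q x = Q x
  Γ_c : ∀ x ∈ V.carrier, ∀ v : En M,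
    Γ x * (∑ a, ((V.P x v a : ℝ) : ℂ) • c a) * Q x
      = -((∑ a, ((V.P x v a : ℝ) : ℂ) • c a) * Γ x * Q x)
  /-- the grading is parallel -/
  Γ_par : ∀ x ∈ V.carrier, ∀ v : En M, Q x * fderiv ℝ Γ x (V.P x v) * Q x = 0
  B_Q : ∀ x ∈ V.carrier, Q x * B x * Q x = B x
  B_sa : ∀ x ∈ V.carrier, ContinuousLinearMap.adjoint (B x) = B x
  B_odd : ∀ x ∈ V.carrier, Γ x * B x = -(B x * Γ x)

namespace Dirac

variable {n M : ℕ} {V : Geo n M} {H : Type} [NormedAddCommGroup H]
  [InnerProductSpace ℂ H] [FiniteDimensional ℂ H] (𝔇 : Dirac V H)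

/-- The operator `D u = ∑ c_a Q (∂_a u) + B u` with the tangential derivatives `∂_a`; it is used for
sections `u` (`Q u = u` on `V`), at the points of `V`. -/
noncomputable def op (u : En M → H) (x : En M) : H :=
  ∑ a, 𝔇.c a (𝔇.Q x (fderiv ℝ u x (V.P x (bv a)))) + 𝔇.B x (u x)

/-- Smooth sections. -/
def IsSec (u : En M → H) : Prop := ContDiff ℝ ∞ u ∧ ∀ x ∈ V.carrier, 𝔇.Q x (u x) = u x

/-- The kernel of `D` on the sections with `Γ u = s u`, as a space of functions on `V`. -/
def ker (s : ℂ) : Submodule ℂ (V.carrier → H) where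
  carrier := {f | ∃ u : En M → H, 𝔇.IsSec u ∧ (∀ x ∈ V.carrier, 𝔇.Γ x (u x) = s • u x) ∧
    (∀ x ∈ V.carrier, 𝔇.op u x = 0) ∧ ∀ x : V.carrier, f x = u x}
  add_mem' := by
    rintro f g ⟨u, hu, hu2, hu3, hu4⟩ ⟨w, hw, hw2, hw3, hw4⟩
    refine ⟨fun x => u x + w x, ⟨hu.1.add hw.1, fun x hx => ?_⟩, fun x hx => ?_, fun x hx => ?_,
      fun x => ?_⟩
    · rw [map_add, hu.2 x hx, hw.2 x hx]
    · rw [map_add, hu2 x hx, hw2 x hx, smul_add]
    · have h1 := hu3 x hx
      have h2 := hw3 x hx
      have d1 : DifferentiableAt ℝ u x := (hu.1.differentiable (by simp)) x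
      have d2 : DifferentiableAt ℝ w x := (hw.1.differentiable (by simp)) x
      have : fderiv ℝ (fun x => u x + w x) x = fderiv ℝ u x + fderiv ℝ w x := fderiv_fun_add d1 d2
      simp only [op, this, ContinuousLinearMap.add_apply, map_add, Finset.sum_add_distrib] at *
      rw [show ∀ a b c d : H, a + b + (c + d) = (a + c) + (b + d) by intros; abel, h1, h2,
        add_zero]
    · simp [hu4, hw4]
  zero_mem' := by
    refine ⟨fun _ => 0, ⟨contDiff_const, fun x hx => by simp⟩, fun x hx => by simp,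
      fun x hx => ?_, fun x => rfl⟩
    simp [op]
  smul_mem' := by
    rintro r f ⟨u, hu, hu2, hu3, hu4⟩
    refine ⟨fun x => r • u x, ⟨hu.1.const_smul r, fun x hx => ?_⟩, fun x hx => ?_,
      fun x hx => ?_, fun x => ?_⟩
    · rw [map_smul, hu.2 x hx]
    · rw [map_smul, hu2 x hx, smul_comm]
    · have h1 := hu3 x hx
      have d1 : DifferentiableAt ℝ u x := (hu.1.differentiable (by simp)) x
      have : fderiv ℝ (fun x => r • u x) x = r • fderiv ℝ u x := by
        have := fderiv_fun_const_smul d1 r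
        exact this
      simp only [op] at h1 ⊢
      rw [this]
      simp only [ContinuousLinearMap.smul_apply, map_smul]
      rw [← Finset.smul_sum, ← smul_add, h1, smul_zero]
    · simp [hu4]

/-- The index of `D`. -/
noncomputable def index : ℤ :=
  (Module.finrank ℂ (𝔇.ker 1) : ℤ) - (Module.finrank ℂ (𝔇.ker (-1)) : ℤ)

end Dirac

end Pool.Agent.EXO
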