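import Mathlib
import Pool.Agent.EXO.FmLam

/-!
# EXO / FmTens: operators acting on the coefficient space `ℂ^κ`, smoothness of `Lam`, `ten`

`ten T` acts on the second factor of `Λ ℂ^m ⊗ ℂ^κ`; it commutes with `eps`, `iota`, `Lam`, `dg`.
-/

set_option autoImplicit false
set_option maxSynthPendingDepth 3

namespace Pool.Agent.EXO

open Finset

variable {m k l : ℕ} {κ κ' κ'' : Type*} [Fintype κ] [Fintype κ'] [Fintype κ'']

/-- `ℂ^κ`. -/
abbrev KE (κ : Type*) [Fintype κ] := EuclideanSpace ℂ κ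

/-- The action of `T : ℂ^κ → ℂ^κ'` on forms. -/
noncomputable def ten (T : KE κ →L[ℂ] KE κ') : HF m κ →L[ℂ] HF m κ' :=
  LinearMap.toContinuousLinearMap
    { toFun := fun u => WithLp.toLp 2 fun p => T (WithLp.toLp 2 fun i => u (p.1, i)) p.2
      map_add' := fun u v => by
        ext p
        have h : (WithLp.toLp 2 fun i => (u + v) (p.1, i) : KE κ) =
            (WithLp.toLp 2 fun i => u (p.1, i)) + (WithLp.toLp 2 fun i => v (p.1, i)) := rfl
        change T (WithLp.toLp 2 fun i => (u + v) (p.1, i)) p.2 = _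
        rw [h, map_add]; rfl
      map_smul' := fun r u => by
        ext p
        have h : (WithLp.toLp 2 fun i => (r • u) (p.1, i) : KE κ) =
            r • (WithLp.toLp 2 fun i => u (p.1, i)) := rfl
        change T (WithLp.toLp 2 fun i => (r • u) (p.1, i)) p.2 = _
        rw [h, map_smul]; rfl }

/-- The component of a form at `S`. -/
noncomputable def cpt (S : Finset (Fin m)) (u : HF m κ) : KE κ := WithLp.toLp 2 fun i => u (S, i)

theorem ten_apply (T : KE κ →L[ℂ] KE κ') (u : HF m κ) (S : Finset (Fin m)) (i : κ') :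
    ten T u (S, i) = T (cpt S u) i := rfl

theorem cpt_ten (T : KE κ →L[ℂ] KE κ') (u : HF m κ) (S : Finset (Fin m)) :
    cpt S (ten T u) = T (cpt S u) := rfl

theorem hf_cpt_ext {u w : HF m κ} (h : ∀ S, cpt S u = cpt S w) : u = w := by
  ext ⟨S, i⟩
  exact congrArg (fun z : KE κ => z i) (h S)

theorem cpt_add (S : Finset (Fin m)) (u w : HF m κ) : cpt S (u + w) = cpt S u + cpt S w := rfl

theorem cpt_smul (S : Finset (Fin m)) (r : ℂ) (u : HF m κ) : cpt S (r • u) = r • cpt S u := rfl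

theorem cpt_zero (S : Finset (Fin m)) : cpt S (0 : HF m κ) = 0 := rfl

theorem cpt_eps (S : Finset (Fin m)) (a : Fin m) (u : HF m κ) :
    cpt S (eps a u) = if a ∈ S then sg a S • cpt (S.erase a) u else 0 := by
  ext i
  change eps a u (S, i) = _
  rw [eps_apply]
  by_cases h : a ∈ S
  · rw [if_pos h, if_pos h]; rfl
  · rw [if_neg h, if_neg h]; rfl

theorem cpt_iota (S : Finset (Fin m)) (a : Fin m) (u : HF m κ) :
    cpt S (iota a u) = if a ∈ S then 0 else sg a S • cpt (insert a S) u := by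
  ext i
  change iota a u (S, i) = _
  rw [iota_apply]
  by_cases h : a ∈ S
  · rw [if_pos h, if_pos h]; rfl
  · rw [if_neg h, if_neg h]; rfl

theorem cpt_dg (S : Finset (Fin m)) (j : ℕ) (u : HF m κ) :
    cpt S (dg j u) = if S.card = j then cpt S u else 0 := by
  ext i
  change dg j u (S, i) = _
  rw [dg_apply]
  by_cases h : S.card = j
  · rw [if_pos h, if_pos h]; rfl
  · rw [if_neg h, if_neg h]; rfl

theorem ten_eps (T : KE κ →L[ℂ] KE κ') (a : Fin m) (u : HF m κ) :
    ten T (eps a u) = eps a (ten T u) := by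
  refine hf_cpt_ext fun S => ?_
  rw [cpt_ten, cpt_eps, cpt_eps, cpt_ten]
  by_cases h : a ∈ S
  · rw [if_pos h, if_pos h, map_smul]
  · rw [if_neg h, if_neg h, map_zero]

theorem ten_iota (T : KE κ →L[ℂ] KE κ') (a : Fin m) (u : HF m κ) :
    ten T (iota a u) = iota a (ten T u) := by
  refine hf_cpt_ext fun S => ?_
  rw [cpt_ten, cpt_iota, cpt_iota, cpt_ten]
  by_cases h : a ∈ S
  · rw [if_pos h, if_pos h, map_zero]
  · rw [if_neg h, if_neg h, map_smul]

theorem ten_epsv (T : KE κ →L[ℂ] KE κ') (v : RE m) (u : HF m κ) :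
    ten T (epsv v u) = epsv v (ten T u) := by
  rw [epsv_apply, epsv_apply, map_sum]
  exact sum_congr rfl fun a _ => by rw [map_smul, ten_eps]

theorem ten_iotav (T : KE κ →L[ℂ] KE κ') (v : RE m) (u : HF m κ) :
    ten T (iotav v u) = iotav v (ten T u) := by
  rw [iotav_apply, iotav_apply, map_sum]
  exact sum_congr rfl fun a _ => by rw [map_smul, ten_iota]

theorem ten_dg (T : KE κ →L[ℂ] KE κ') (j : ℕ) (u : HF m κ) :
    ten T (dg j u) = dg j (ten T u) := by
  refine hf_cpt_ext fun S => ?_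
  rw [cpt_ten, cpt_dg, cpt_dg, cpt_ten]
  by_cases h : S.card = j
  · rw [if_pos h, if_pos h]
  · rw [if_neg h, if_neg h, map_zero]

theorem ten_comp (T : KE κ' →L[ℂ] KE κ'') (T' : KE κ →L[ℂ] KE κ') (u : HF m κ) :
    ten T (ten T' u) = ten (T.comp T') u := rfl

theorem ten_mul (T T' : KE κ →L[ℂ] KE κ) :
    (ten (T * T') : HF m κ →L[ℂ] HF m κ) = ten T * ten T' := rfl

theorem ten_one : (ten (1 : KE κ →L[ℂ] KE κ) : HF m κ →L[ℂ] HF m κ) = 1 := rfl

theorem ten_add (T T' : KE κ →L[ℂ] KE κ') :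
    (ten (T + T') : HF m κ →L[ℂ] HF m κ') = ten T + ten T' := rfl

theorem ten_smul (r : ℂ) (T : KE κ →L[ℂ] KE κ') :
    (ten (r • T) : HF m κ →L[ℂ] HF m κ') = r • ten T := rfl

theorem ten_zero : (ten (0 : KE κ →L[ℂ] KE κ') : HF m κ →L[ℂ] HF m κ') = 0 := rfl

/-- `ten` as a continuous linear map. -/
noncomputable def tenL (m : ℕ) (κ κ' : Type*) [Fintype κ] [Fintype κ'] :
    (KE κ →L[ℂ] KE κ') →L[ℂ] (HF m κ →L[ℂ] HF m κ') :=
  LinearMap.toContinuousLinearMap
    { toFun := fun T => ten T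
      map_add' := ten_add
      map_smul' := ten_smul }

theorem tenL_apply (T : KE κ →L[ℂ] KE κ') : tenL m κ κ' T = ten T := rfl

theorem ten_sub (T T' : KE κ →L[ℂ] KE κ') :
    (ten (T - T') : HF m κ →L[ℂ] HF m κ') = ten T - ten T' := by
  rw [← tenL_apply, map_sub]; rfl

theorem ten_neg (T : KE κ →L[ℂ] KE κ') :
    (ten (-T) : HF m κ →L[ℂ] HF m κ') = - ten T := by
  rw [← tenL_apply, map_neg]; rfl

theorem ten_bas (T : KE κ →L[ℂ] KE κ') (u : HF m κ) :
    cpt ∅ (ten T u) = T (cpt ∅ u) := rfl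

/-- The form of degree zero with value `x`. -/
noncomputable def vac (m : ℕ) (x : KE κ) : HF m κ := WithLp.toLp 2 fun p => if p.1 = ∅ then x p.2 else 0

theorem cpt_vac (x : KE κ) (S : Finset (Fin m)) : cpt S (vac m x) = if S = ∅ then x else 0 := by
  ext i
  change (if S = ∅ then x i else 0) = _
  by_cases h : S = ∅
  · rw [if_pos h, if_pos h]
  · rw [if_neg h, if_neg h]; rfl

theorem vac_eq_sum (x : KE κ) : vac m x = ∑ i, x i • bas ∅ i := by
  classical
  ext ⟨S, j⟩
  have h1 : (∑ i, x i • (bas ∅ i : HF m κ)) (S, j) = ∑ i, x i * (bas ∅ i : HF m κ) (S, j) := by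
    simp
  rw [h1]
  change (if S = ∅ then x j else 0) = _
  simp only [bas_apply]
  by_cases h : S = ∅
  · rw [if_pos h, Finset.sum_eq_single j]
    · simp [h]
    · intro i _ hi
      simp [Ne.symm hi]
    · simp
  · rw [if_neg h]
    symm
    exact sum_eq_zero fun i _ => by simp [h]

theorem Lam_vac' (A : RE m →L[ℝ] RE k) (x : KE κ) : Lam A (vac m x) = vac k x := by
  rw [vac_eq_sum, vac_eq_sum, map_sum]
  exact sum_congr rfl fun i _ => by rw [map_smul, Lam_vac]

theorem ten_vac (T : KE κ →L[ℂ] KE κ') (x : KE κ) : ten T (vac m x) = vac m (T x) := by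
  refine hf_cpt_ext fun S => ?_
  rw [cpt_ten, cpt_vac, cpt_vac]
  by_cases h : S = ∅
  · rw [if_pos h, if_pos h]
  · rw [if_neg h, if_neg h, map_zero]

theorem bas_eq_vac (i : κ) : ∃ x : KE κ, (∀ m : ℕ, (bas ∅ i : HF m κ) = vac m x) := by
  classical
  refine ⟨WithLp.toLp 2 fun j => if j = i then 1 else 0, fun m => ?_⟩
  ext ⟨S, j⟩
  change (bas ∅ i : HF m κ) (S, j) = if S = ∅ then (if j = i then 1 else 0) else 0
  rw [bas_apply]
  by_cases h : S = ∅ <;> by_cases h2 : j = i <;> simp [h, h2]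

theorem Lam_ten (A : RE m →L[ℝ] RE k) (T : KE κ →L[ℂ] KE κ') (u : HF m κ) :
    Lam A (ten T u) = ten T (Lam A u) := by
  have h : ((Lam A : HF m κ' →L[ℂ] HF k κ').comp (ten T) : HF m κ →ₗ[ℂ] HF k κ') =
      ((ten T : HF k κ →L[ℂ] HF k κ').comp (Lam A)) := by
    refine hf_ext (fun i => ?_) (fun a u hu => ?_)
    · obtain ⟨x, hx⟩ := bas_eq_vac i
      change Lam A (ten T (bas ∅ i)) = ten T (Lam A (bas ∅ i))
      rw [Lam_vac, hx, hx, ten_vac, ten_vac, Lam_vac']
    · have hu' : Lam A (ten T u) = ten T (Lam A u) := hu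
      change Lam A (ten T (eps a u)) = ten T (Lam A (eps a u))
      rw [ten_eps, Lam_eps, Lam_eps, ten_epsv, hu']
  exact congrArg (fun T : HF m κ →ₗ[ℂ] HF k κ' => T u) h

theorem inner_hf (u w : HF m κ) : inner ℂ u w = ∑ S, inner ℂ (cpt S u) (cpt S w) := by
  rw [PiLp.inner_apply, Fintype.sum_prod_type]
  exact sum_congr rfl fun S _ => by rw [PiLp.inner_apply]; rfl

theorem adjoint_ten (T : KE κ →L[ℂ] KE κ') :
    ContinuousLinearMap.adjoint (ten T : HF m κ →L[ℂ] HF m κ') =
      ten (ContinuousLinearMap.adjoint T) := by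
  symm
  rw [ContinuousLinearMap.eq_adjoint_iff]
  intro x y
  rw [inner_hf, inner_hf]
  exact sum_congr rfl fun S _ => by
    rw [cpt_ten, cpt_ten, ContinuousLinearMap.adjoint_inner_left]

/-! Smoothness. -/

/-- `epsv` as a real continuous linear map. -/
noncomputable def epsvL (m : ℕ) (κ : Type*) [Fintype κ] : RE m →L[ℝ] (HF m κ →L[ℂ] HF m κ) :=
  LinearMap.toContinuousLinearMap
    { toFun := fun v => epsv v
      map_add' := epsv_add
      map_smul' := fun r v => by rw [epsv_smul]; rfl }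

theorem epsvL_apply (v : RE m) : epsvL m κ v = epsv v := rfl

/-- `iotav` as a real continuous linear map. -/
noncomputable def iotavL (m : ℕ) (κ : Type*) [Fintype κ] : RE m →L[ℝ] (HF m κ →L[ℂ] HF m κ) :=
  LinearMap.toContinuousLinearMap
    { toFun := fun v => iotav v
      map_add' := iotav_add
      map_smul' := fun r v => by rw [iotav_smul]; rfl }

theorem iotavL_apply (v : RE m) : iotavL m κ v = iotav v := rfl

theorem contDiff_list_prod {E R : Type*} [NormedAddCommGroup E] [NormedSpace ℝ E] [NormedRing R]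
    [NormedAlgebra ℝ R] {n : WithTop ℕ∞} {α : Type*} (f : α → E → R) (L : List α)
    (hf : ∀ a, ContDiff ℝ n (f a)) : ContDiff ℝ n (fun x => (L.map (fun a => f a x)).prod) := by
  induction L with
  | nil => simpa using contDiff_const
  | cons a L ih =>
    simp only [List.map_cons, List.prod_cons]
    exact (hf a).mul ih

theorem contDiff_Lam {n : WithTop ℕ∞} :
    ContDiff ℝ n (fun A : RE m →L[ℝ] RE k => (Lam A : HF m κ →L[ℂ] HF k κ)) := by
  unfold Lam
  refine ContDiff.sum fun S _ => ?_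
  have h1 : ContDiff ℝ n (fun A : RE m →L[ℝ] RE k =>
      word (fun a => (epsv (A (ee a)) : HF k κ →L[ℂ] HF k κ)) S) := by
    unfold word
    refine contDiff_list_prod (fun a (A : RE m →L[ℝ] RE k) =>
      (epsv (A (ee a)) : HF k κ →L[ℂ] HF k κ)) _ fun a => ?_
    exact ((epsvL k κ).comp (ContinuousLinearMap.apply ℝ (RE k) (ee a))).contDiff
  let Φ : (HF k κ →L[ℂ] HF k κ) →L[ℂ] (HF m κ →L[ℂ] HF k κ) :=
    (ContinuousLinearMap.compL ℂ (HF m κ) (HF k κ) (HF k κ)).flip (inj0 k S)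
  exact (Φ.restrictScalars ℝ).contDiff.comp h1

end Pool.Agent.EXO
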