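import Mathlib
import Pool.Agent.EXO.FmTens

/-!
# EXO / FmD: exterior derivative, pullback, naturality

`dd u x = ∑ a, eps a (∂_a u x)`, `pull F u x = Lam (DF(x)^*) (u (F x))`,
`dd (dd u) = 0`, `dd (pull F u) = pull F (dd u)`.
-/

set_option autoImplicit false
set_option maxSynthPendingDepth 3

namespace Pool.Agent.EXO

open Finset

variable {m k l : ℕ} {κ κ' κ'' : Type*} [Fintype κ] [Fintype κ'] [Fintype κ'']

/-- The exterior derivative. -/
noncomputable def dd (u : RE m → HF m κ) (x : RE m) : HF m κ :=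
  ∑ a, eps a (fderiv ℝ u x (ee a))

/-- The pullback of forms. -/
noncomputable def pull (F : RE m → RE k) (u : RE k → HF k κ) (x : RE m) : HF m κ :=
  Lam (ContinuousLinearMap.adjoint (fderiv ℝ F x)) (u (F x))

theorem epsv_sum_ee (v : RE m) : v = ∑ a, v a • ee a := by
  ext b
  simp [Pi.single_apply]

/-- The derivative of `Lam`. -/
noncomputable def dLam (A B : RE m →L[ℝ] RE k) : HF m κ →L[ℂ] HF k κ :=
  fderiv ℝ (fun A : RE m →L[ℝ] RE k => (Lam A : HF m κ →L[ℂ] HF k κ)) A B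

theorem hasFDerivAt_Lam (A : RE m →L[ℝ] RE k) :
    HasFDerivAt (fun A : RE m →L[ℝ] RE k => (Lam A : HF m κ →L[ℂ] HF k κ))
      (fderiv ℝ (fun A : RE m →L[ℝ] RE k => (Lam A : HF m κ →L[ℂ] HF k κ)) A) A :=
  ((contDiff_Lam (κ := κ) (n := 1)).differentiable (by norm_num) A).hasFDerivAt

theorem hasFDerivAt_Lam_apply (A : RE m →L[ℝ] RE k) (u : HF m κ) :
    HasFDerivAt (fun A : RE m →L[ℝ] RE k => (Lam A u : HF k κ))
      (((ContinuousLinearMap.apply ℂ (HF k κ) u).restrictScalars ℝ).comp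
        (fderiv ℝ (fun A : RE m →L[ℝ] RE k => (Lam A : HF m κ →L[ℂ] HF k κ)) A)) A :=
  ((ContinuousLinearMap.apply ℂ (HF k κ) u).restrictScalars ℝ).hasFDerivAt.comp A
    (hasFDerivAt_Lam A)

/-- Evaluation as a real bilinear map. -/
noncomputable def evB (m k : ℕ) (κ : Type*) [Fintype κ] :
    (HF m κ →L[ℂ] HF k κ) →L[ℝ] HF m κ →L[ℝ] HF k κ :=
  ContinuousLinearMap.restrictScalarsL ℂ (HF m κ) (HF k κ) ℝ ℝ

theorem dLam_vac (A B : RE m →L[ℝ] RE k) (i : κ) : dLam A B (bas ∅ i : HF m κ) = 0 := by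
  have h1 := hasFDerivAt_Lam_apply (k := k) A (bas ∅ i : HF m κ)
  have h2 : HasFDerivAt (fun A : RE m →L[ℝ] RE k => (Lam A (bas ∅ i : HF m κ) : HF k κ))
      (0 : (RE m →L[ℝ] RE k) →L[ℝ] HF k κ) A := by
    simp only [Lam_vac]
    exact hasFDerivAt_const _ _
  have h3 := congrArg (fun T : (RE m →L[ℝ] RE k) →L[ℝ] HF k κ => T B) (h1.unique h2)
  exact h3

theorem dLam_eps (A B : RE m →L[ℝ] RE k) (j : Fin m) (u : HF m κ) :
    dLam A B (eps j u) = epsv (B (ee j)) (Lam A u) + epsv (A (ee j)) (dLam A B u) := by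
  have h1 := hasFDerivAt_Lam_apply A (eps j u : HF m κ)
  have h2 := hasFDerivAt_Lam_apply A u
  have h3 : HasFDerivAt (fun A : RE m →L[ℝ] RE k => (epsv (A (ee j)) : HF k κ →L[ℂ] HF k κ))
      ((epsvL k κ).comp (ContinuousLinearMap.apply ℝ (RE k) (ee j))) A :=
    ((epsvL k κ).comp (ContinuousLinearMap.apply ℝ (RE k) (ee j))).hasFDerivAt
  have h4 : IsBoundedBilinearMap ℝ
      (fun p : (HF k κ →L[ℂ] HF k κ) × HF k κ => p.1 p.2) :=
    (evB k k κ).isBoundedBilinearMap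
  have h5 := (h4.hasFDerivAt (epsv (A (ee j)), Lam A u)).comp A (h3.prodMk h2)
  have h6 : (fun A : RE m →L[ℝ] RE k => (Lam A (eps j u : HF m κ) : HF k κ)) =
      (fun p : (HF k κ →L[ℂ] HF k κ) × HF k κ => p.1 p.2) ∘ fun A : RE m →L[ℝ] RE k =>
        ((epsv (A (ee j)) : HF k κ →L[ℂ] HF k κ), (Lam A u : HF k κ)) := by
    funext A
    exact Lam_eps A j u
  rw [h6] at h1
  have h7 := congrArg (fun T : (RE m →L[ℝ] RE k) →L[ℝ] HF k κ => T B) (h1.unique h5)
  have h8 : dLam A B (eps j u) = epsv (A (ee j)) (dLam A B u) + epsv (B (ee j)) (Lam A u) := h7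
  rw [h8, add_comm]

theorem dLam_sum_eq_zero (A : RE k →L[ℝ] RE m) (B : Fin m → RE k →L[ℝ] RE m)
    (h : ∀ (j : Fin k) (u : HF m κ), ∑ a, eps a (epsv (B a (ee j)) u) = 0) (u : HF k κ) :
    ∑ a, eps a (dLam A (B a) u) = 0 := by
  let T : HF k κ →L[ℂ] HF m κ := ∑ a, (eps a).comp (dLam A (B a))
  have hT : ∀ u, T u = ∑ a, eps a (dLam A (B a) u) := fun u => by
    simp [T]
  have h1 : (T : HF k κ →ₗ[ℂ] HF m κ) = 0 := by
    refine hf_ext (fun i => ?_) (fun j u hu => ?_)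
    · change T _ = 0
      rw [hT]
      exact sum_eq_zero fun a _ => by rw [dLam_vac, map_zero]
    · have hu' : T u = 0 := hu
      change T _ = 0
      rw [hT] at hu' ⊢
      have h2 : ∀ a, eps a (dLam A (B a) (eps j u)) =
          eps a (epsv (B a (ee j)) (Lam A u)) - epsv (A (ee j)) (eps a (dLam A (B a) u)) := by
        intro a
        rw [dLam_eps, map_add, ← epsv_ee, epsv_epsv (ee a) (A (ee j)), sub_eq_add_neg]
      simp only [h2]
      rw [Finset.sum_sub_distrib, h, ← map_sum, hu', map_zero, sub_zero]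
  rw [← hT]
  exact congrArg (fun T : HF k κ →ₗ[ℂ] HF m κ => T u) h1

/-- `∑ s_ab eps a eps b = 0` for symmetric `s`. -/
theorem symm_eps_eps (s : Fin m → Fin m → HF m κ) (hs : ∀ a b, s a b = s b a) :
    ∑ a, eps a (∑ b, eps b (s a b)) = 0 := by
  have h1 : ∑ a, eps a (∑ b, eps b (s a b)) = ∑ a, ∑ b, eps a (eps b (s a b)) :=
    sum_congr rfl fun a _ => map_sum _ _ _
  have h2 : ∑ a, ∑ b, eps a (eps b (s a b)) = - ∑ a, ∑ b, eps a (eps b (s a b)) := by
    conv_lhs => rw [Finset.sum_comm]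
    rw [← Finset.sum_neg_distrib]
    refine sum_congr rfl fun b _ => ?_
    rw [← Finset.sum_neg_distrib]
    exact sum_congr rfl fun a _ => by rw [eps_eps, hs]
  rw [h1]
  have h3 : (2 : ℂ) • ∑ a, ∑ b, eps a (eps b (s a b)) = 0 := by
    rw [two_smul]
    nth_rewrite 1 [h2]
    exact neg_add_cancel _
  exact (smul_eq_zero.1 h3).resolve_left two_ne_zero

theorem hasFDerivAt_dd {u : RE m → HF m κ} {x : RE m} (hu : ContDiffAt ℝ 2 u x) :
    HasFDerivAt (dd u) (∑ a, ((eps a : HF m κ →L[ℂ] HF m κ).restrictScalars ℝ).comp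
      ((ContinuousLinearMap.apply ℝ (HF m κ) (ee a)).comp (fderiv ℝ (fderiv ℝ u) x))) x := by
  unfold dd
  refine HasFDerivAt.fun_sum fun a _ => ?_
  have h1 : HasFDerivAt (fderiv ℝ u) (fderiv ℝ (fderiv ℝ u) x) x :=
    ((hu.fderiv_right (m := 1) (by norm_num)).differentiableAt (by norm_num)).hasFDerivAt
  exact ((eps a : HF m κ →L[ℂ] HF m κ).restrictScalars ℝ).hasFDerivAt.comp x
    ((ContinuousLinearMap.apply ℝ (HF m κ) (ee a)).hasFDerivAt.comp x h1)

theorem dd_dd {u : RE m → HF m κ} {x : RE m} (hu : ContDiffAt ℝ 2 u x) : dd (dd u) x = 0 := by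
  have hsym : ∀ a b, fderiv ℝ (fderiv ℝ u) x (ee a) (ee b) =
      fderiv ℝ (fderiv ℝ u) x (ee b) (ee a) := by
    intro a b
    exact (hu.isSymmSndFDerivAt (by simp)).eq _ _
  have h1 : dd (dd u) x = ∑ a, eps a (∑ b, eps b (fderiv ℝ (fderiv ℝ u) x (ee a) (ee b))) := by
    conv_lhs => unfold dd
    refine sum_congr rfl fun a _ => ?_
    congr 1
    have h2 := (hasFDerivAt_dd hu).fderiv
    change fderiv ℝ (dd u) x (ee a) = _
    rw [h2]
    simp
  rw [h1]
  exact symm_eps_eps _ hsym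

theorem hasFDerivAt_pull {F : RE m → RE k} {u : RE k → HF k κ} {x : RE m}
    (hF : ContDiffAt ℝ 2 F x) (hu : DifferentiableAt ℝ u (F x)) (v : RE m) :
    fderiv ℝ (pull F u) x v =
      dLam (ContinuousLinearMap.adjoint (fderiv ℝ F x))
        (ContinuousLinearMap.adjoint (fderiv ℝ (fderiv ℝ F) x v)) (u (F x)) +
      Lam (ContinuousLinearMap.adjoint (fderiv ℝ F x)) (fderiv ℝ u (F x) (fderiv ℝ F x v)) ∧
    DifferentiableAt ℝ (pull F u) x := by
  have h1 : HasFDerivAt (fderiv ℝ F) (fderiv ℝ (fderiv ℝ F) x) x :=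
    ((hF.fderiv_right (m := 1) (by norm_num)).differentiableAt (by norm_num)).hasFDerivAt
  have hF1 : HasFDerivAt F (fderiv ℝ F x) x := (hF.differentiableAt (by norm_num)).hasFDerivAt
  let adj : (RE m →L[ℝ] RE k) →L[ℝ] (RE k →L[ℝ] RE m) :=
    ((ContinuousLinearMap.adjoint (𝕜 := ℝ) (E := RE m) (F := RE k)).toContinuousLinearEquiv :
      (RE m →L[ℝ] RE k) ≃L[ℝ] (RE k →L[ℝ] RE m)).toContinuousLinearMap
  have h2 : HasFDerivAt (fun y => ContinuousLinearMap.adjoint (fderiv ℝ F y))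
      (adj.comp (fderiv ℝ (fderiv ℝ F) x)) x := adj.hasFDerivAt.comp x h1
  have h3 := (hasFDerivAt_Lam (κ := κ) (ContinuousLinearMap.adjoint (fderiv ℝ F x))).comp x h2
  have h4 : IsBoundedBilinearMap ℝ
      (fun p : (HF k κ →L[ℂ] HF m κ) × HF k κ => p.1 p.2) :=
    (evB k m κ).isBoundedBilinearMap
  have h5 : HasFDerivAt (fun y => u (F y)) ((fderiv ℝ u (F x)).comp (fderiv ℝ F x)) x :=
    hu.hasFDerivAt.comp x hF1
  have h6 := (h4.hasFDerivAt ((Lam (ContinuousLinearMap.adjoint (fderiv ℝ F x)) :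
    HF k κ →L[ℂ] HF m κ), u (F x))).comp x (h3.prodMk h5)
  have h7 : HasFDerivAt (pull F u) _ x := h6
  refine ⟨?_, h7.differentiableAt⟩
  rw [h7.fderiv, add_comm]
  rfl

theorem dd_pull {F : RE m → RE k} {u : RE k → HF k κ} {x : RE m}
    (hF : ContDiffAt ℝ 2 F x) (hu : DifferentiableAt ℝ u (F x)) :
    dd (pull F u) x = pull F (dd u) x := by
  have h1 : dd (pull F u) x =
      ∑ a, eps a (dLam (ContinuousLinearMap.adjoint (fderiv ℝ F x))
        (ContinuousLinearMap.adjoint (fderiv ℝ (fderiv ℝ F) x (ee a))) (u (F x))) +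
      ∑ a, eps a (Lam (ContinuousLinearMap.adjoint (fderiv ℝ F x))
        (fderiv ℝ u (F x) (fderiv ℝ F x (ee a)))) := by
    rw [← Finset.sum_add_distrib]
    refine sum_congr rfl fun a _ => ?_
    rw [(hasFDerivAt_pull hF hu (ee a)).1, map_add]
  have h2 : ∑ a, eps a (dLam (ContinuousLinearMap.adjoint (fderiv ℝ F x))
        (ContinuousLinearMap.adjoint (fderiv ℝ (fderiv ℝ F) x (ee a))) (u (F x))) = 0 := by
    refine dLam_sum_eq_zero _ _ (fun j w => ?_) _
    have h3 : ∀ a, (epsv (ContinuousLinearMap.adjoint (fderiv ℝ (fderiv ℝ F) x (ee a)) (ee j))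
        w : HF m κ) = ∑ b, eps b (((fderiv ℝ (fderiv ℝ F) x (ee a) (ee b)) j : ℂ) • w) := by
      intro a
      rw [epsv_apply]
      refine sum_congr rfl fun b _ => ?_
      rw [map_smul]
      congr 2
      have h4 : (ContinuousLinearMap.adjoint (fderiv ℝ (fderiv ℝ F) x (ee a)) (ee j)) b =
          inner ℝ (ee b) (ContinuousLinearMap.adjoint (fderiv ℝ (fderiv ℝ F) x (ee a)) (ee j)) := by
        simp [EuclideanSpace.inner_single_left]
      rw [h4, ContinuousLinearMap.adjoint_inner_right]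
      simp [EuclideanSpace.inner_single_right]
    simp only [h3]
    refine symm_eps_eps _ fun a b => ?_
    have h4 := (hF.isSymmSndFDerivAt (by simp)).eq (ee a) (ee b)
    rw [h4]
  have h5 : ∀ a, fderiv ℝ u (F x) (fderiv ℝ F x (ee a)) =
      ∑ j, ((fderiv ℝ F x (ee a)) j : ℂ) • fderiv ℝ u (F x) (ee j) := by
    intro a
    conv_lhs => rw [epsv_sum_ee (fderiv ℝ F x (ee a)), map_sum]
    refine sum_congr rfl fun j _ => ?_
    rw [map_smul]
    exact (Complex.coe_smul _ _).symm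
  rw [h1, h2, zero_add]
  unfold pull
  have h6 : dd u (F x) = ∑ j, eps j (fderiv ℝ u (F x) (ee j)) := rfl
  rw [h6, map_sum]
  simp only [h5, map_sum, map_smul, Lam_eps, epsv_apply]
  rw [Finset.sum_comm]
  refine sum_congr rfl fun j _ => sum_congr rfl fun a _ => ?_
  congr 2
  have h4 : (ContinuousLinearMap.adjoint (fderiv ℝ F x) (ee j)) a =
      inner ℝ (ee a) (ContinuousLinearMap.adjoint (fderiv ℝ F x) (ee j)) := by
    simp [EuclideanSpace.inner_single_left]
  rw [h4, ContinuousLinearMap.adjoint_inner_right]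
  simp [EuclideanSpace.inner_single_right]

theorem pull_comp {F : RE m → RE k} {G : RE l → RE m} {u : RE k → HF k κ} {x : RE l}
    (hF : DifferentiableAt ℝ F (G x)) (hG : DifferentiableAt ℝ G x) :
    pull (F ∘ G) u x = pull G (pull F u) x := by
  unfold pull
  rw [fderiv_comp x hF hG, ContinuousLinearMap.adjoint_comp, Lam_comp]
  rfl

end Pool.Agent.EXO
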