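import Mathlib
import Pool.Agent.EXO.FmD
import Pool.Agent.EXO.Defs

/-!
# EXO / FmFA: the ring `FA m` of scalar forms (exterior algebra of `ℂ^m`)

Generators `dx a = of1 (bv a)`, basis `mon S`, induction principle `FA_induction`, universal property
`liftFA`, action `mulL` on `HF m κ`, parity `par`, degrees, functoriality `FAMap`.
-/

set_option autoImplicit false
set_option maxSynthPendingDepth 3

namespace Pool.Agent.EXO

open Finset

variable {m k l : ℕ} {κ : Type} [Fintype κ]

/-- The basis monomials. -/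
noncomputable def mon (S : Finset (Fin m)) : FA m := FA.mk fun T => if T = S then 1 else 0

theorem mon_co (S T : Finset (Fin m)) : (mon S).co T = if T = S then 1 else 0 := rfl

theorem co_sum {α : Type*} (s : Finset α) (f : α → FA m) (T : Finset (Fin m)) :
    (∑ i ∈ s, f i).co T = ∑ i ∈ s, (f i).co T := by
  classical
  induction s using Finset.induction_on with
  | empty => simp
  | insert a s ha ih => rw [sum_insert ha, sum_insert ha, FA.co_add, ih]

theorem sum_mon (x : FA m) : x = ∑ S, x.co S • mon S := by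
  refine FA.ext fun T => ?_
  rw [co_sum, Finset.sum_eq_single T]
  · simp [mon_co]
  · intro S _ hS
    simp [mon_co, Ne.symm hS]
  · simp

theorem one_eq_mon : (1 : FA m) = mon ∅ := rfl

/-- The linear isomorphism with `HF m Unit`. -/
noncomputable def toH : FA m ≃ₗ[ℂ] HF m Unit where
  toFun x := WithLp.toLp 2 fun p => x.co p.1
  invFun u := FA.mk fun S => u (S, ())
  map_add' _ _ := rfl
  map_smul' _ _ := rfl
  left_inv _ := rfl
  right_inv _ := rfl

theorem toH_apply (x : FA m) (S : Finset (Fin m)) (i : Unit) : toH x (S, i) = x.co S := rfl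

theorem toH_symm_co (u : HF m Unit) (S : Finset (Fin m)) : (toH.symm u).co S = u (S, ()) := rfl

theorem toH_mon (S : Finset (Fin m)) : toH (mon S) = bas S () := by
  classical
  ext ⟨T, i⟩
  rw [toH_apply, mon_co, bas_apply]
  by_cases h : T = S <;> simp [h]

/-- The generators. -/
noncomputable def dx (a : Fin m) : FA m := mon {a}

theorem of1_add (v w : En m) : of1 (v + w) = of1 v + of1 w := by
  simp [of1, add_smul, Finset.sum_add_distrib]

theorem of1_smul (r : ℝ) (v : En m) : of1 (r • v) = (r : ℂ) • of1 v := by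
  unfold of1
  rw [Finset.smul_sum]
  refine sum_congr rfl fun a _ => ?_
  rw [smul_smul, PiLp.smul_apply, smul_eq_mul, Complex.ofReal_mul]

theorem of1_eq_sum (v : En m) : of1 v = ∑ a, (v a : ℂ) • dx a := rfl

theorem of1_bv (a : Fin m) : of1 (bv a) = dx a := by
  rw [of1_eq_sum, Finset.sum_eq_single a]
  · simp [bv]
  · intro b _ hb
    simp [bv, hb]
  · simp

theorem of1_ee (a : Fin m) : of1 (ee a) = dx a := of1_bv a

theorem nInv_singleton (a : Fin m) (J : Finset (Fin m)) :
    nInv {a} J = (J.filter (· < a)).card := by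
  unfold nInv
  refine card_bij (fun p _ => p.2) ?_ ?_ ?_
  · intro p hp
    simp only [mem_filter, mem_product, mem_singleton] at hp ⊢
    exact ⟨hp.1.2, hp.1.1 ▸ hp.2⟩
  · intro p hp q hq h
    simp only [mem_filter, mem_product, mem_singleton] at hp hq
    exact Prod.ext (hp.1.1.trans hq.1.1.symm) h
  · intro j hj
    simp only [mem_filter] at hj
    exact ⟨(a, j), by simp [hj.1, hj.2], rfl⟩

theorem sgJ_singleton (a : Fin m) (J : Finset (Fin m)) : sgJ {a} J = sg a J := by
  unfold sgJ sg
  rw [nInv_singleton]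

theorem dx_mul_co (a : Fin m) (x : FA m) (K : Finset (Fin m)) :
    (dx a * x).co K = if a ∈ K then sg a K * x.co (K.erase a) else 0 := by
  rw [FA.co_mul]
  by_cases ha : a ∈ K
  · rw [if_pos ha, Finset.sum_eq_single {a}]
    · rw [sdiff_singleton_eq_erase, sgJ_singleton, sg_erase_self]
      simp [dx, mon_co]
    · intro I _ hI
      simp [dx, mon_co, hI]
    · intro h
      exact absurd (mem_powerset.2 (singleton_subset_iff.2 ha)) h
  · rw [if_neg ha]
    refine sum_eq_zero fun I hI => ?_
    have h : I ≠ {a} := by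
      rintro rfl
      exact ha (singleton_subset_iff.1 (mem_powerset.1 hI))
    simp [dx, mon_co, h]

theorem toH_dx_mul (a : Fin m) (x : FA m) : toH (dx a * x) = eps a (toH x) := by
  ext ⟨S, i⟩
  rw [toH_apply, eps_apply, dx_mul_co]
  rfl

theorem toH_one : toH (1 : FA m) = bas ∅ () := toH_mon ∅

theorem toH_dx (a : Fin m) : toH (dx a) = eps a (bas ∅ ()) := by
  rw [← toH_one, ← toH_dx_mul, mul_one]

theorem dx_mul_dx (a b : Fin m) : dx a * dx b = - (dx b * dx a) := by
  apply toH.injective
  rw [map_neg, toH_dx_mul, toH_dx_mul, toH_dx, toH_dx, eps_eps]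

theorem dx_mul_self (a : Fin m) : dx a * dx a = 0 := by
  apply toH.injective
  rw [toH_dx_mul, toH_dx, eps_self, map_zero]

theorem word_singleton {R : Type*} [Monoid R] (f : Fin m → R) (a : Fin m) :
    word f {a} = f a := by
  simp [word]

theorem word_dx (S : Finset (Fin m)) : word dx S = mon S := by
  induction S using Finset.induction_on_min with
  | empty => rw [word_empty]; rfl
  | insert a S ha ih =>
    have haS : a ∉ S := fun h => lt_irrefl a (ha a h)
    rw [word_insert_min _ ha, ih]
    apply toH.injective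
    rw [toH_dx_mul, toH_mon, toH_mon, eps_bas, if_neg haS]
    have h : sg a S = 1 := by
      unfold sg
      rw [filter_false_of_mem, card_empty, pow_zero]
      exact fun x hx => not_lt.2 (ha x hx).le
    rw [h, one_smul]

/-- Induction principle. -/
theorem FA_induction {p : FA m → Prop} (h0 : p 1) (hadd : ∀ x y, p x → p y → p (x + y))
    (hsmul : ∀ (r : ℂ) x, p x → p (r • x)) (hdx : ∀ a x, p x → p (dx a * x)) (x : FA m) : p x := by
  have key : ∀ S : Finset (Fin m), p (mon S) := by
    intro S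
    rw [← word_dx]
    induction S using Finset.induction_on_min with
    | empty => rw [word_empty]; exact h0
    | insert a S ha ih => rw [word_insert_min _ ha]; exact hdx a _ ih
  have hz : p 0 := by
    have h := hsmul 0 1 h0
    rwa [zero_smul] at h
  rw [sum_mon x]
  have h3 : ∀ s : Finset (Finset (Fin m)), p (∑ S ∈ s, x.co S • mon S) := by
    intro s
    induction s using Finset.induction_on with
    | empty => rw [sum_empty]; exact hz
    | insert a s ha ih => rw [sum_insert ha]; exact hadd _ _ (hsmul _ _ (key a)) ih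
  exact h3 _

/-- The universal construction. -/
noncomputable def liftL {A : Type*} [Ring A] [Algebra ℂ A] (E : Fin m → A) : FA m →ₗ[ℂ] A where
  toFun x := ∑ S, x.co S • word E S
  map_add' x y := by
    rw [← Finset.sum_add_distrib]
    exact sum_congr rfl fun S _ => by rw [FA.co_add, add_smul]
  map_smul' r x := by
    rw [RingHom.id_apply, Finset.smul_sum]
    exact sum_congr rfl fun S _ => by rw [FA.co_smul, mul_smul]

theorem liftL_apply {A : Type*} [Ring A] [Algebra ℂ A] (E : Fin m → A) (x : FA m) :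
    liftL E x = ∑ S, x.co S • word E S := rfl

theorem liftL_mon {A : Type*} [Ring A] [Algebra ℂ A] (E : Fin m → A) (S : Finset (Fin m)) :
    liftL E (mon S) = word E S := by
  rw [liftL_apply, Finset.sum_eq_single S]
  · simp [mon_co]
  · intro T _ hT
    simp [mon_co, hT]
  · simp

theorem dx_mul_mon (a : Fin m) (S : Finset (Fin m)) :
    dx a * mon S = if a ∈ S then 0 else sg a S • mon (insert a S) := by
  apply toH.injective
  rw [toH_dx_mul, toH_mon, eps_bas]
  by_cases h : a ∈ S
  · rw [if_pos h, if_pos h, map_zero]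
  · rw [if_neg h, if_neg h, map_smul, toH_mon]

theorem liftL_dx_mul {A : Type*} [Ring A] [Algebra ℂ A] (E : Fin m → A)
    (h1 : ∀ a b, E a * E b = - (E b * E a)) (h2 : ∀ a, E a * E a = 0) (a : Fin m) (y : FA m) :
    liftL E (dx a * y) = E a * liftL E y := by
  have key : ∀ T, liftL E (dx a * mon T) = E a * liftL E (mon T) := by
    intro T
    rw [dx_mul_mon, liftL_mon, mul_word E h1 h2]
    by_cases h : a ∈ T
    · rw [if_pos h, if_pos h, map_zero]
    · rw [if_neg h, if_neg h, map_smul, liftL_mon]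
  rw [sum_mon y]
  simp only [map_sum, map_smul, Finset.mul_sum, key, mul_smul_comm]

theorem liftL_mul {A : Type*} [Ring A] [Algebra ℂ A] (E : Fin m → A)
    (h1 : ∀ a b, E a * E b = - (E b * E a)) (h2 : ∀ a, E a * E a = 0) (x y : FA m) :
    liftL E (x * y) = liftL E x * liftL E y := by
  induction x using FA_induction with
  | h0 => rw [one_mul, one_eq_mon, liftL_mon, word_empty, one_mul]
  | hadd x z hx hz => rw [add_mul, map_add, map_add, add_mul, hx, hz]
  | hsmul r x hx => rw [smul_mul_assoc, map_smul, map_smul, smul_mul_assoc, hx]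
  | hdx a x hx => rw [mul_assoc, liftL_dx_mul E h1 h2, hx, liftL_dx_mul E h1 h2, mul_assoc]

/-- The algebra homomorphism determined by anticommuting elements of square zero. -/
noncomputable def liftFA {A : Type*} [Ring A] [Algebra ℂ A] (E : Fin m → A)
    (h1 : ∀ a b, E a * E b = - (E b * E a)) (h2 : ∀ a, E a * E a = 0) : FA m →ₐ[ℂ] A :=
  AlgHom.ofLinearMap (liftL E) (by rw [one_eq_mon, liftL_mon, word_empty]) (liftL_mul E h1 h2)

theorem liftFA_apply {A : Type*} [Ring A] [Algebra ℂ A] (E : Fin m → A)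
    (h1 : ∀ a b, E a * E b = - (E b * E a)) (h2 : ∀ a, E a * E a = 0) (x : FA m) :
    liftFA E h1 h2 x = ∑ S, x.co S • word E S := rfl

theorem liftFA_dx {A : Type*} [Ring A] [Algebra ℂ A] (E : Fin m → A)
    (h1 : ∀ a b, E a * E b = - (E b * E a)) (h2 : ∀ a, E a * E a = 0) (a : Fin m) :
    liftFA E h1 h2 (dx a) = E a := by
  change liftL E (dx a) = E a
  unfold dx
  rw [liftL_mon, word_singleton]

theorem FA_hom_ext {A : Type*} [Ring A] [Algebra ℂ A] {f g : FA m →ₐ[ℂ] A}
    (h : ∀ a, f (dx a) = g (dx a)) : f = g := by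
  refine AlgHom.ext fun x => ?_
  induction x using FA_induction with
  | h0 => rw [map_one, map_one]
  | hadd x y hx hy => rw [map_add, map_add, hx, hy]
  | hsmul r x hx => rw [map_smul, map_smul, hx]
  | hdx a x hx => rw [map_mul, map_mul, h, hx]

/-! ## The action on `HF m κ` -/

theorem eps_mul_eps (a b : Fin m) : (eps a : HF m κ →L[ℂ] HF m κ) * eps b = - (eps b * eps a) := by
  ext1 u
  exact eps_eps a b u

theorem eps_mul_self (a : Fin m) : (eps a : HF m κ →L[ℂ] HF m κ) * eps a = 0 := by
  ext1 u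
  exact eps_self a u

theorem cmp_eps (a : Fin m) (u : HF m κ) (i : κ) : cmp (eps a u) i = dx a * cmp u i := by
  refine FA.ext fun S => ?_
  rw [dx_mul_co]
  rfl

theorem cmp_ofCmp (f : κ → FA m) (i : κ) : cmp (ofCmp f) i = f i := rfl

theorem hf_cmp_ext {u w : HF m κ} (h : ∀ i, cmp u i = cmp w i) : u = w := by
  ext ⟨S, i⟩
  exact congrArg (fun z : FA m => z.co S) (h i)

theorem cmp_mulL (x : FA m) (u : HF m κ) (i : κ) : cmp (mulL x u) i = x * cmp u i := rfl

theorem cmp_add (u w : HF m κ) (i : κ) : cmp (u + w) i = cmp u i + cmp w i := rfl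

theorem cmp_smul (r : ℂ) (u : HF m κ) (i : κ) : cmp (r • u) i = r • cmp u i := rfl

theorem mulL_add (x y : FA m) : (mulL (x + y) : HF m κ →L[ℂ] HF m κ) = mulL x + mulL y := by
  ext1 u
  refine hf_cmp_ext fun i => ?_
  rw [_root_.add_apply, cmp_add, cmp_mulL, cmp_mulL, cmp_mulL, add_mul]

theorem mulL_smul (r : ℂ) (x : FA m) : (mulL (r • x) : HF m κ →L[ℂ] HF m κ) = r • mulL x := by
  ext1 u
  refine hf_cmp_ext fun i => ?_
  rw [_root_.smul_apply, cmp_smul, cmp_mulL, cmp_mulL, smul_mul_assoc]

theorem mulL_mul (x y : FA m) : (mulL (x * y) : HF m κ →L[ℂ] HF m κ) = mulL x * mulL y := by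
  ext1 u
  refine hf_cmp_ext fun i => ?_
  rw [cmp_mulL, mul_assoc]
  rfl

theorem mulL_one : (mulL (1 : FA m) : HF m κ →L[ℂ] HF m κ) = 1 := by
  ext1 u
  refine hf_cmp_ext fun i => ?_
  rw [cmp_mulL, one_mul]
  rfl

theorem mulL_dx (a : Fin m) : (mulL (dx a) : HF m κ →L[ℂ] HF m κ) = eps a := by
  ext1 u
  refine hf_cmp_ext fun i => ?_
  rw [cmp_mulL, cmp_eps]

/-- `mulL` as an algebra homomorphism. -/
noncomputable def mulHom (m : ℕ) (κ : Type) [Fintype κ] : FA m →ₐ[ℂ] (HF m κ →L[ℂ] HF m κ) :=
  AlgHom.ofLinearMap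
    { toFun := mulL
      map_add' := mulL_add
      map_smul' := mulL_smul } mulL_one mulL_mul

theorem mulHom_apply (x : FA m) : mulHom m κ x = mulL x := rfl

theorem mulL_zero : (mulL (0 : FA m) : HF m κ →L[ℂ] HF m κ) = 0 := by
  have h := mulL_smul (κ := κ) (0 : ℂ) (0 : FA m)
  rwa [zero_smul, zero_smul] at h

theorem mulL_sum {α : Type*} (s : Finset α) (f : α → FA m) :
    (mulL (∑ i ∈ s, f i) : HF m κ →L[ℂ] HF m κ) = ∑ i ∈ s, mulL (f i) := by
  classical
  induction s using Finset.induction_on with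
  | empty => rw [sum_empty, sum_empty, mulL_zero]
  | insert a s ha ih => rw [sum_insert ha, mulL_add, ih, sum_insert ha]

theorem mulL_of1 (v : En m) : (mulL (of1 v) : HF m κ →L[ℂ] HF m κ) = epsv v := by
  rw [of1_eq_sum, mulL_sum]
  unfold epsv
  exact sum_congr rfl fun a _ => by rw [mulL_smul, mulL_dx]

theorem mulL_eq_sum (x : FA m) : (mulL x : HF m κ →L[ℂ] HF m κ) =
    ∑ S, x.co S • word (fun a => eps a) S := by
  have h : mulHom m κ = liftFA (fun a => (eps a : HF m κ →L[ℂ] HF m κ)) eps_mul_eps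
      eps_mul_self := by
    refine FA_hom_ext fun a => ?_
    rw [liftFA_dx]
    exact mulL_dx a
  rw [← mulHom_apply, h]
  rfl

theorem toH_mul (x y : FA m) : toH (x * y) = mulL x (toH y) := by
  ext ⟨S, i⟩
  rfl

/-- `toH` as a continuous linear equivalence. -/
noncomputable def toHL (m : ℕ) : FA m ≃L[ℂ] HF m Unit := toH.toContinuousLinearEquiv

theorem toHL_apply (x : FA m) : toHL m x = toH x := rfl

/-- `mulL` as a continuous linear map. -/
noncomputable def mulLL (m : ℕ) (κ : Type) [Fintype κ] : FA m →L[ℂ] (HF m κ →L[ℂ] HF m κ) :=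
  LinearMap.toContinuousLinearMap (mulHom m κ).toLinearMap

theorem mulLL_apply (x : FA m) : mulLL m κ x = mulL x := rfl

/-! ## Parity and degrees -/

/-- Parity: `(-1)^p` on forms of degree `p`. -/
noncomputable def par : FA m →ₐ[ℂ] FA m :=
  liftFA (fun a => - dx a) (fun a b => by rw [neg_mul_neg, neg_mul_neg, dx_mul_dx])
    (fun a => by rw [neg_mul_neg, dx_mul_self])

theorem par_dx (a : Fin m) : par (dx a) = - dx a := liftFA_dx _ _ _ a

theorem par_par (x : FA m) : par (par x) = x := by
  have h : (par.comp par : FA m →ₐ[ℂ] FA m) = AlgHom.id ℂ _ := FA_hom_ext fun a => by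
    change par (par (dx a)) = dx a
    rw [par_dx, map_neg, par_dx, neg_neg]
  exact congrArg (fun f : FA m →ₐ[ℂ] FA m => f x) h

theorem dx_mul (a : Fin m) (x : FA m) : dx a * x = par x * dx a := by
  induction x using FA_induction with
  | h0 => rw [map_one, one_mul, mul_one]
  | hadd x y hx hy => rw [map_add, mul_add, add_mul, hx, hy]
  | hsmul r x hx => rw [map_smul, mul_smul_comm, smul_mul_assoc, hx]
  | hdx b x hx =>
    rw [map_mul, par_dx, ← mul_assoc, dx_mul_dx, neg_mul, mul_assoc, hx, neg_mul, neg_mul,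
      mul_assoc]

/-- Even forms are central. -/
theorem even_mul {x : FA m} (hx : par x = x) (y : FA m) : x * y = y * x := by
  induction y using FA_induction with
  | h0 => rw [one_mul, mul_one]
  | hadd y z hy hz => rw [add_mul, mul_add, hy, hz]
  | hsmul r y hy => rw [smul_mul_assoc, mul_smul_comm, hy]
  | hdx b y hy =>
    have h1 : x * dx b = dx b * x := by rw [dx_mul, hx]
    rw [← mul_assoc, h1, mul_assoc, hy, mul_assoc]

/-- Projection to degree `j`. -/
noncomputable def dgF (j : ℕ) : FA m →ₗ[ℂ] FA m where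
  toFun x := FA.mk fun S => if S.card = j then x.co S else 0
  map_add' x y := by
    refine FA.ext fun S => ?_
    change (if S.card = j then x.co S + y.co S else 0) =
      (if S.card = j then x.co S else 0) + (if S.card = j then y.co S else 0)
    by_cases h : S.card = j <;> simp [h]
  map_smul' r x := by
    refine FA.ext fun S => ?_
    change (if S.card = j then r * x.co S else 0) = r * (if S.card = j then x.co S else 0)
    by_cases h : S.card = j <;> simp [h]

theorem dgF_co (j : ℕ) (x : FA m) (S : Finset (Fin m)) :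
    (dgF j x).co S = if S.card = j then x.co S else 0 := rfl

theorem isDeg_iff {j : ℕ} {x : FA m} : x.IsDeg j ↔ dgF j x = x := by
  constructor
  · intro h
    refine FA.ext fun S => ?_
    rw [dgF_co]
    by_cases hS : S.card = j
    · rw [if_pos hS]
    · rw [if_neg hS, h S hS]
  · intro h S hS
    rw [← h, dgF_co, if_neg hS]

theorem toH_dgF (j : ℕ) (x : FA m) : toH (dgF j x) = dg j (toH x) := rfl

theorem dgF_dx_mul (j : ℕ) (a : Fin m) (x : FA m) : dgF (j + 1) (dx a * x) = dx a * dgF j x := by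
  apply toH.injective
  rw [toH_dgF, toH_dx_mul, toH_dx_mul, dg_eps, toH_dgF]

theorem dgF_zero_dx_mul (a : Fin m) (x : FA m) : dgF 0 (dx a * x) = 0 := by
  apply toH.injective
  rw [toH_dgF, toH_dx_mul, dg_zero_eps, map_zero]

theorem dgF_dgF (i j : ℕ) (x : FA m) : dgF i (dgF j x) = if i = j then dgF i x else 0 := by
  apply toH.injective
  rw [toH_dgF, toH_dgF, dg_dg]
  by_cases h : i = j
  · rw [if_pos h, if_pos h, toH_dgF]
  · rw [if_neg h, if_neg h, map_zero]

theorem sum_dgF (x : FA m) : ∑ j ∈ range (m + 1), dgF j x = x := by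
  apply toH.injective
  rw [map_sum]
  exact sum_dg (toH x)

theorem dgF_eq_zero {j : ℕ} (h : m < j) (x : FA m) : dgF j x = 0 := by
  apply toH.injective
  rw [toH_dgF, dg_eq_zero h, map_zero]

theorem dgF_one (j : ℕ) : dgF j (1 : FA m) = if j = 0 then 1 else 0 := by
  refine FA.ext fun S => ?_
  rw [dgF_co, FA.co_one]
  by_cases h : j = 0
  · subst h
    rw [if_pos rfl, FA.co_one]
    by_cases h2 : S = ∅
    · simp [h2]
    · simp [h2]
  · rw [if_neg h]
    by_cases h2 : S = ∅
    · subst h2
      rw [if_neg (by simpa using Ne.symm h)]; rfl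
    · simp [h2]

/-- Product of homogeneous forms. -/
theorem dgF_mul {p : ℕ} {x : FA m} (hx : dgF p x = x) (q : ℕ) (y : FA m) :
    dgF (p + q) (x * y) = x * dgF q y := by
  have key : ∀ (z : FA m) (p q : ℕ), dgF (p + q) (dgF p z * y) = dgF p z * dgF q y ∧
      (∀ r, r < p → dgF r (dgF p z * y) = 0) := by
    intro z
    induction z using FA_induction with
    | h0 =>
      intro p q
      rw [dgF_one]
      by_cases h : p = 0
      · subst h
        rw [if_pos rfl, one_mul, one_mul, zero_add]
        exact ⟨rfl, fun r hr => absurd hr (Nat.not_lt_zero r)⟩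
      · rw [if_neg h, zero_mul, zero_mul, map_zero]
        exact ⟨rfl, fun r _ => map_zero _⟩
    | hadd z w hz hw =>
      intro p q
      rw [map_add, add_mul, add_mul, map_add, (hz p q).1, (hw p q).1]
      exact ⟨rfl, fun r hr => by rw [map_add, (hz p q).2 r hr, (hw p q).2 r hr, add_zero]⟩
    | hsmul r z hz =>
      intro p q
      rw [map_smul, smul_mul_assoc, smul_mul_assoc, map_smul, (hz p q).1]
      exact ⟨rfl, fun r' hr => by rw [map_smul, (hz p q).2 r' hr, smul_zero]⟩
    | hdx a z hz =>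
      intro p q
      rcases p with _ | p
      · rw [dgF_zero_dx_mul, zero_mul, zero_mul, map_zero]
        exact ⟨rfl, fun r _ => map_zero _⟩
      · rw [dgF_dx_mul, mul_assoc, mul_assoc, Nat.succ_add_eq_add_succ]
        have h3 : p + (q + 1) = (p + q) + 1 := by omega
        rw [h3, dgF_dx_mul, (hz p q).1]
        refine ⟨rfl, fun r hr => ?_⟩
        rcases r with _ | r
        · exact dgF_zero_dx_mul _ _
        · rw [dgF_dx_mul, (hz p q).2 r (by omega), mul_zero]
  have h := (key x p q).1
  rwa [hx] at h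

theorem isDeg_mul {p q : ℕ} {x y : FA m} (hx : x.IsDeg p) (hy : y.IsDeg q) :
    (x * y).IsDeg (p + q) := by
  rw [isDeg_iff] at hx hy ⊢
  rw [dgF_mul hx, hy]

theorem isDeg_add {p : ℕ} {x y : FA m} (hx : x.IsDeg p) (hy : y.IsDeg p) : (x + y).IsDeg p := by
  rw [isDeg_iff] at hx hy ⊢
  rw [map_add, hx, hy]

theorem isDeg_smul {p : ℕ} {x : FA m} (hx : x.IsDeg p) (r : ℂ) : (r • x).IsDeg p := by
  rw [isDeg_iff] at hx ⊢
  rw [map_smul, hx]

theorem isDeg_zero (p : ℕ) : (0 : FA m).IsDeg p := fun _ _ => rfl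

theorem isDeg_sum {α : Type*} {p : ℕ} (s : Finset α) {f : α → FA m}
    (hf : ∀ i ∈ s, (f i).IsDeg p) : (∑ i ∈ s, f i).IsDeg p := by
  rw [isDeg_iff, map_sum]
  exact sum_congr rfl fun i hi => isDeg_iff.1 (hf i hi)

theorem isDeg_one : (1 : FA m).IsDeg 0 := by
  rw [isDeg_iff, dgF_one, if_pos rfl]

theorem isDeg_dx (a : Fin m) : (dx a).IsDeg 1 := by
  rw [isDeg_iff]
  have h := dgF_dx_mul 0 a 1
  rwa [dgF_one, if_pos rfl, mul_one] at h

theorem isDeg_of1 (v : En m) : (of1 v).IsDeg 1 := by
  rw [of1_eq_sum]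
  exact isDeg_sum _ fun a _ => isDeg_smul (isDeg_dx a) _

theorem par_dgF (j : ℕ) (x : FA m) : par (dgF j x) = ((-1 : ℂ) ^ j) • dgF j x := by
  induction x using FA_induction generalizing j with
  | h0 =>
    rw [dgF_one]
    by_cases h : j = 0
    · subst h
      rw [if_pos rfl, map_one, pow_zero, one_smul]
    · rw [if_neg h, map_zero, smul_zero]
  | hadd x y hx hy => rw [map_add, map_add, hx, hy, smul_add]
  | hsmul r x hx => rw [map_smul, map_smul, hx, smul_comm]
  | hdx a x hx =>
    rcases j with _ | j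
    · rw [dgF_zero_dx_mul, map_zero, smul_zero]
    · rw [dgF_dx_mul, map_mul, par_dx, hx, mul_smul_comm, pow_succ, mul_smul, neg_mul,
        smul_neg, neg_one_smul]
      rw [smul_neg]

theorem par_of_isDeg {j : ℕ} {x : FA m} (hx : x.IsDeg j) : par x = ((-1 : ℂ) ^ j) • x := by
  have h := par_dgF j x
  rwa [isDeg_iff.1 hx] at h

/-- Forms of even degree are central. -/
theorem IsDeg_even_comm {j : ℕ} {x : FA m} (hx : x.IsDeg (2 * j)) (y : FA m) : x * y = y * x := by
  refine even_mul ?_ y
  rw [par_of_isDeg hx, pow_mul, neg_one_sq, one_pow, one_smul]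

/-- Graded commutativity. -/
theorem mul_isDeg_comm {p q : ℕ} {x y : FA m} (hx : x.IsDeg p) (hy : y.IsDeg q) :
    x * y = ((-1 : ℂ) ^ (p * q)) • (y * x) := by
  rw [isDeg_iff] at hx hy
  have key : ∀ (z : FA m) (p : ℕ), dgF p z * y = ((-1 : ℂ) ^ (p * q)) • (y * dgF p z) := by
    intro z
    induction z using FA_induction with
    | h0 =>
      intro p
      rw [dgF_one]
      by_cases h : p = 0
      · subst h
        rw [if_pos rfl, one_mul, mul_one, zero_mul, pow_zero, one_smul]
      · rw [if_neg h, zero_mul, mul_zero, smul_zero]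
    | hadd z w hz hw => intro p; rw [map_add, add_mul, mul_add, hz, hw, smul_add]
    | hsmul r z hz => intro p; rw [map_smul, smul_mul_assoc, mul_smul_comm, hz, smul_comm]
    | hdx a z hz =>
      intro p
      rcases p with _ | p
      · rw [dgF_zero_dx_mul, zero_mul, mul_zero, smul_zero]
      · have h1 : dx a * y = ((-1 : ℂ) ^ q) • (y * dx a) := by
          rw [dx_mul, ← hy, par_dgF, hy, smul_mul_assoc]
        rw [dgF_dx_mul, mul_assoc, hz, mul_smul_comm, ← mul_assoc, h1, smul_mul_assoc, mul_assoc,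
          smul_smul, ← pow_add]
        congr 2
        ring
  have h := key x p
  rwa [hx] at h

theorem of1_mul_of1 (v w : En m) : of1 v * of1 w = - (of1 w * of1 v) := by
  have h := mul_isDeg_comm (isDeg_of1 v) (isDeg_of1 w)
  rw [h]
  simp

theorem of1_mul_self (v : En m) : of1 v * of1 v = 0 := by
  have h := of1_mul_of1 v v
  have h2 : (2 : ℂ) • (of1 v * of1 v) = 0 := by
    rw [two_smul]
    nth_rewrite 1 [h]
    exact neg_add_cancel _
  exact (smul_eq_zero.1 h2).resolve_left two_ne_zero

theorem of1_mul (v : En m) (x : FA m) : of1 v * x = par x * of1 v := by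
  rw [of1_eq_sum, Finset.sum_mul, Finset.mul_sum]
  exact sum_congr rfl fun a _ => by rw [smul_mul_assoc, mul_smul_comm, dx_mul]

/-- Forms without component of degree zero are nilpotent. -/
theorem pow_eq_zero_of_deg {x : FA m} (hx : x.co ∅ = 0) : x ^ (m + 1) = 0 := by
  have hx0 : dgF 0 x = 0 := by
    refine FA.ext fun S => ?_
    rw [dgF_co, FA.co_zero]
    by_cases h : S.card = 0
    · rw [if_pos h, card_eq_zero.1 h, hx]
    · rw [if_neg h]
  have key : ∀ n : ℕ, ∀ j, j < n → dgF j (x ^ n) = 0 := by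
    intro n
    induction n with
    | zero => intro j hj; exact absurd hj (Nat.not_lt_zero j)
    | succ n ih =>
      intro j hj
      rw [pow_succ']
      have h1 : x * x ^ n = ∑ i ∈ range (m + 1), dgF i x * x ^ n := by
        rw [← Finset.sum_mul, sum_dgF]
      rw [h1, map_sum]
      refine sum_eq_zero fun i _ => ?_
      rcases Nat.eq_zero_or_pos i with h | h
      · subst h
        rw [hx0, zero_mul, map_zero]
      · by_cases hij : i ≤ j
        · obtain ⟨q, rfl⟩ := Nat.exists_eq_add_of_le hij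
          rw [dgF_mul (p := i) (by rw [dgF_dgF, if_pos rfl]), ih q (by omega), mul_zero]
        · have h4 : ∀ y : FA m, dgF j (dgF i x * y) = 0 := by
            intro y
            have h6 : dgF i x * y = ∑ q ∈ range (m + 1), dgF i x * dgF q y := by
              rw [← Finset.mul_sum, sum_dgF]
            rw [h6, map_sum]
            refine sum_eq_zero fun q _ => ?_
            have h5 : dgF (i + q) (dgF i x * dgF q y) = dgF i x * dgF q y := by
              rw [dgF_mul (p := i) (by rw [dgF_dgF, if_pos rfl]), dgF_dgF, if_pos rfl]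
            rw [← h5, dgF_dgF, if_neg (by omega)]
          exact h4 _
  rw [← sum_dgF (x ^ (m + 1))]
  exact sum_eq_zero fun j hj => key _ j (mem_range.1 hj)

/-! ## Functoriality -/

theorem adj_co (L : En k →L[ℝ] En m) (b : Fin m) :
    (WithLp.toLp 2 fun j => L (bv j) b : En k) = ContinuousLinearMap.adjoint L (bv b) := by
  ext a
  have h4 : (ContinuousLinearMap.adjoint L (bv b)) a =
      inner ℝ (bv a) (ContinuousLinearMap.adjoint L (bv b)) := by
    simp [bv, EuclideanSpace.inner_single_left]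
  rw [h4, ContinuousLinearMap.adjoint_inner_right]
  simp [bv, EuclideanSpace.inner_single_right]

/-- `FAMap L` as an algebra homomorphism. -/
noncomputable def FAHom (L : En k →L[ℝ] En m) : FA m →ₐ[ℂ] FA k :=
  liftFA (fun b => of1 (WithLp.toLp 2 fun j => L (bv j) b)) (fun _ _ => of1_mul_of1 _ _)
    (fun _ => of1_mul_self _)

theorem FAHom_apply (L : En k →L[ℝ] En m) (x : FA m) : FAHom L x = FAMap L x := rfl

theorem FAMap_add (L : En k →L[ℝ] En m) (x y : FA m) : FAMap L (x + y) = FAMap L x + FAMap L y :=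
  map_add (FAHom L) x y

theorem FAMap_smul (L : En k →L[ℝ] En m) (r : ℂ) (x : FA m) :
    FAMap L (r • x) = r • FAMap L x := map_smul (FAHom L) r x

theorem FAMap_zero (L : En k →L[ℝ] En m) : FAMap L 0 = 0 := map_zero (FAHom L)

theorem FAMap_mul (L : En k →L[ℝ] En m) (x y : FA m) : FAMap L (x * y) = FAMap L x * FAMap L y :=
  map_mul (FAHom L) x y

theorem FAMap_one (L : En k →L[ℝ] En m) : FAMap L 1 = 1 := map_one (FAHom L)

theorem FAMap_sum {α : Type*} (L : En k →L[ℝ] En m) (s : Finset α) (f : α → FA m) :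
    FAMap L (∑ i ∈ s, f i) = ∑ i ∈ s, FAMap L (f i) := map_sum (FAHom L) _ _

theorem FAMap_dx (L : En k →L[ℝ] En m) (b : Fin m) :
    FAMap L (dx b) = of1 (ContinuousLinearMap.adjoint L (bv b)) := by
  rw [← FAHom_apply, FAHom, liftFA_dx, adj_co]

theorem of1_zero : of1 (0 : En m) = 0 := by
  have h := of1_smul (0 : ℝ) (0 : En m)
  rwa [smul_zero, Complex.ofReal_zero, zero_smul] at h

theorem of1_sum {α : Type*} (s : Finset α) (f : α → En m) :
    of1 (∑ i ∈ s, f i) = ∑ i ∈ s, of1 (f i) := by
  classical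
  induction s using Finset.induction_on with
  | empty => simp [of1_zero]
  | insert a s ha ih => rw [sum_insert ha, of1_add, ih, sum_insert ha]

theorem FAMap_of1 (L : En k →L[ℝ] En m) (w : En m) :
    FAMap L (of1 w) = of1 (ContinuousLinearMap.adjoint L w) := by
  rw [of1_eq_sum, FAMap_sum]
  have h1 : w = ∑ a, w a • bv a := epsv_sum_ee w
  conv_rhs => rw [h1, map_sum, of1_sum]
  exact sum_congr rfl fun a _ => by rw [FAMap_smul, FAMap_dx, map_smul, of1_smul]

theorem FAMap_comp (L : En k →L[ℝ] En m) (L' : En l →L[ℝ] En k) (x : FA m) :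
    FAMap (L.comp L') x = FAMap L' (FAMap L x) := by
  have h : FAHom (L.comp L') = (FAHom L').comp (FAHom L) := FA_hom_ext fun a => by
    change FAMap (L.comp L') (dx a) = FAMap L' (FAMap L (dx a))
    rw [FAMap_dx, FAMap_dx, FAMap_of1, ContinuousLinearMap.adjoint_comp]; rfl
  exact congrArg (fun f : FA m →ₐ[ℂ] FA l => f x) h

theorem FAMap_id (x : FA m) : FAMap (ContinuousLinearMap.id ℝ (En m)) x = x := by
  have h : FAHom (ContinuousLinearMap.id ℝ (En m)) = AlgHom.id ℂ _ := FA_hom_ext fun a => by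
    change FAMap _ (dx a) = dx a
    rw [FAMap_dx, ContinuousLinearMap.adjoint_id, ContinuousLinearMap.id_apply, of1_bv]
  exact congrArg (fun f : FA m →ₐ[ℂ] FA m => f x) h

/-- `LamMap` is compatible with the action of scalar forms. -/
theorem LamMap_mulL (L : En k →L[ℝ] En m) (x : FA m) (u : HF m κ) :
    LamMap L (mulL x u) = mulL (FAMap L x) (LamMap L u) := by
  induction x using FA_induction generalizing u with
  | h0 => rw [FAMap_one, mulL_one, mulL_one]; rfl
  | hadd x y hx hy =>
    rw [FAMap_add, mulL_add, mulL_add, _root_.add_apply, _root_.add_apply, map_add, hx, hy]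
  | hsmul r x hx =>
    rw [FAMap_smul, mulL_smul, mulL_smul, _root_.smul_apply, _root_.smul_apply, map_smul, hx]
  | hdx a x hx =>
    have h1 : (mulL (dx a * x) : HF m κ →L[ℂ] HF m κ) u = eps a (mulL x u) := by
      rw [mulL_mul, mulL_dx]; rfl
    have h2 : LamMap L (eps a (mulL x u)) = epsv (ContinuousLinearMap.adjoint L (bv a))
        (LamMap L (mulL x u)) := Lam_eps _ _ _
    rw [h1, h2, hx, FAMap_mul, mulL_mul, FAMap_dx, mulL_of1]; rfl

theorem toH_FAMap (L : En k →L[ℝ] En m) (x : FA m) : toH (FAMap L x) = LamMap L (toH x) := by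
  have h1 : toH x = mulL x (bas ∅ ()) := by rw [← toH_one, ← toH_mul, mul_one]
  have h2 : LamMap L (bas ∅ () : HF m Unit) = bas ∅ () := Lam_vac _ _
  rw [h1, LamMap_mulL, h2, ← toH_one, ← toH_mul, mul_one]

theorem cmp_LamMap (L : En k →L[ℝ] En m) (u : HF m κ) (i : κ) :
    cmp (LamMap L u) i = FAMap L (cmp u i) := by
  have h1 : ∀ (w : HF m κ) (i : κ), toH (cmp w i) = ten (LinearMap.toContinuousLinearMap
      ({ toFun := fun z => WithLp.toLp 2 fun _ => z i, map_add' := fun _ _ => rfl,
         map_smul' := fun _ _ => rfl } : KE κ →ₗ[ℂ] KE Unit)) w := fun _ _ => rfl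
  have h1' : ∀ (w : HF k κ) (i : κ), toH (cmp w i) = ten (LinearMap.toContinuousLinearMap
      ({ toFun := fun z => WithLp.toLp 2 fun _ => z i, map_add' := fun _ _ => rfl,
         map_smul' := fun _ _ => rfl } : KE κ →ₗ[ℂ] KE Unit)) w := fun _ _ => rfl
  apply toH.injective
  rw [toH_FAMap, h1, h1']
  exact (Lam_ten _ _ _).symm

theorem FAMap_dgF (L : En k →L[ℝ] En m) (j : ℕ) (x : FA m) :
    FAMap L (dgF j x) = dgF j (FAMap L x) := by
  apply toH.injective
  rw [toH_FAMap, toH_dgF, toH_dgF, toH_FAMap]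
  exact Lam_dg _ _ _

theorem isDeg_FAMap {j : ℕ} {x : FA m} (hx : x.IsDeg j) (L : En k →L[ℝ] En m) :
    (FAMap L x).IsDeg j := by
  rw [isDeg_iff] at hx ⊢
  rw [← FAMap_dgF, hx]

theorem par_FAMap (L : En k →L[ℝ] En m) (x : FA m) : par (FAMap L x) = FAMap L (par x) := by
  have h : (par.comp (FAHom L) : FA m →ₐ[ℂ] FA k) = (FAHom L).comp par := FA_hom_ext fun a => by
    change par (FAMap L (dx a)) = FAMap L (par (dx a))
    rw [FAMap_dx, par_of_isDeg (isDeg_of1 _), par_dx, ← FAHom_apply, map_neg, FAHom_apply,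
      FAMap_dx, pow_one, neg_one_smul]
  exact congrArg (fun f : FA m →ₐ[ℂ] FA k => f x) h

end Pool.Agent.EXO
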