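import Mathlib
import Pool.Agent.EXO.FmFA
import Pool.Agent.EXO.CsOrth

/-!
# EXO / ChFA: the graded commutative structure of `FA m`
-/

set_option autoImplicit false
set_option maxSynthPendingDepth 3

open Matrix

namespace Pool.Agent.EXO.CH

variable {m k : ℕ}

theorem odd_mul' {x : FA m} (hx : par x = -x) (y : FA m) : x * y = par y * x := by
  induction y using FA_induction with
  | h0 => rw [map_one, one_mul, mul_one]
  | hadd y z hy hz => rw [map_add, mul_add, add_mul, hy, hz]
  | hsmul r y hy => rw [map_smul, mul_smul_comm, smul_mul_assoc, hy]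
  | hdx a y hy =>
    have h1 : x * dx a = -(dx a * x) := by rw [dx_mul, hx, neg_mul, neg_neg]
    rw [map_mul, par_dx, ← mul_assoc, h1, neg_mul, mul_assoc, hy, neg_mul, neg_mul, mul_assoc]

/-- The graded commutative structure of `FA m`. -/
noncomputable def faG (m : ℕ) : GrC (FA m) where
  σ := (par : FA m →ₐ[ℂ] FA m).toRingHom
  ss := par_par
  ev := fun _ y h => even_mul h y
  od := fun x y hx hy => by
    have h := odd_mul' (x := x) hx y
    have h2 : par y = -y := hy
    rw [h, h2, neg_mul]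

theorem faG_σ (x : FA m) : (faG m).σ x = par x := rfl

/-! ## degrees -/

theorem deg_sub {j : ℕ} {u v : FA m} (hu : u.IsDeg j) (hv : v.IsDeg j) : (u - v).IsDeg j := by
  intro I hI
  rw [FA.co_sub, hu I hI, hv I hI, sub_zero]

theorem deg_neg {j : ℕ} {u : FA m} (hu : u.IsDeg j) : (-u).IsDeg j := by
  intro I hI
  rw [FA.co_neg, hu I hI, neg_zero]

/-- even degree: fixed by the parity automorphism. -/
theorem σ_of_deg_even {j : ℕ} (hj : Even j) {u : FA m} (hu : u.IsDeg j) : (faG m).σ u = u := by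
  rw [faG_σ, par_of_isDeg hu, hj.neg_one_pow, one_smul]

theorem σ_of_deg_odd {j : ℕ} (hj : Odd j) {u : FA m} (hu : u.IsDeg j) : (faG m).σ u = -u := by
  rw [faG_σ, par_of_isDeg hu, hj.neg_one_pow, neg_one_smul]

/-- even forms are central. -/
theorem comm_of_deg_even {j : ℕ} (hj : Even j) {u : FA m} (hu : u.IsDeg j) (v : FA m) :
    u * v = v * u := (faG m).ev u v (σ_of_deg_even hj hu)

theorem anti_of_deg_odd {i j : ℕ} (hi : Odd i) (hj : Odd j) {u v : FA m} (hu : u.IsDeg i)
    (hv : v.IsDeg j) : u * v = -(v * u) :=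
  (faG m).od u v (σ_of_deg_odd hi hu) (σ_of_deg_odd hj hv)

theorem deg_algebraMap (z : ℂ) : (algebraMap ℂ (FA m) z).IsDeg 0 := by
  rw [Algebra.algebraMap_eq_smul_one]
  exact isDeg_smul isDeg_one z

/-! ## Functions as forms of degree zero -/

/-- The form of degree zero of a real number. -/
noncomputable def rF {m : ℕ} (t : ℝ) : FA m := algebraMap ℂ (FA m) (t : ℂ)

theorem rF_eq (t : ℝ) : (rF t : FA m) = (t : ℂ) • (1 : FA m) := Algebra.algebraMap_eq_smul_one _

theorem deg_rF (t : ℝ) : (rF t : FA m).IsDeg 0 := deg_algebraMap _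

theorem rF_mul (s t : ℝ) : (rF (s * t) : FA m) = rF s * rF t := by
  unfold rF
  rw [Complex.ofReal_mul, map_mul]

theorem rF_add (s t : ℝ) : (rF (s + t) : FA m) = rF s + rF t := by
  unfold rF
  rw [Complex.ofReal_add, map_add]

theorem rF_sub (s t : ℝ) : (rF (s - t) : FA m) = rF s - rF t := by
  unfold rF
  rw [Complex.ofReal_sub, map_sub]

theorem rF_neg (s : ℝ) : (rF (-s) : FA m) = -rF s := by
  unfold rF
  rw [Complex.ofReal_neg, map_neg]

@[simp] theorem rF_zero : (rF 0 : FA m) = 0 := by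
  unfold rF
  rw [Complex.ofReal_zero, map_zero]

@[simp] theorem rF_one : (rF 1 : FA m) = 1 := by
  unfold rF
  rw [Complex.ofReal_one, map_one]

theorem rF_sum {ι : Type} (s : Finset ι) (f : ι → ℝ) :
    (rF (∑ i ∈ s, f i) : FA m) = ∑ i ∈ s, rF (f i) := by
  unfold rF
  rw [Complex.ofReal_sum, map_sum]

theorem rF_smul (t : ℝ) (u : FA m) : rF t * u = (t : ℂ) • u := by
  unfold rF
  rw [Algebra.smul_def]

theorem rF_comm (t : ℝ) (u : FA m) : rF t * u = u * rF t := Algebra.commutes _ _

theorem FAMap_rF (L : En k →L[ℝ] En m) (t : ℝ) : FAMap L (rF t) = rF t := by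
  rw [rF_eq, FAMap_smul, FAMap_one, rF_eq]

theorem FAMap_sub (L : En k →L[ℝ] En m) (x y : FA m) : FAMap L (x - y) = FAMap L x - FAMap L y :=
  map_sub (FAHom L) x y

theorem FAMap_neg (L : En k →L[ℝ] En m) (x : FA m) : FAMap L (-x) = -FAMap L x :=
  map_neg (FAHom L) x

/-! ## Matrices -/

/-- A real matrix as a matrix of forms of degree zero. -/
noncomputable def rM {m : ℕ} {a b : Type} (X : Matrix a b ℝ) : Matrix a b (FA m) := X.map rF

/-- The pull back of a matrix of values. -/
noncomputable def mapM {a b : Type} (L : En k →L[ℝ] En m) (X : Matrix a b (FA m)) :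
    Matrix a b (FA k) := X.map (FAMap L)

variable {a b c : Type}

theorem rM_apply (X : Matrix a b ℝ) (i : a) (j : b) : (rM X : Matrix a b (FA m)) i j = rF (X i j) :=
  rfl

theorem rM_mul [Fintype b] (X : Matrix a b ℝ) (Y : Matrix b c ℝ) :
    rM (m := m) (X * Y) = rM (m := m) X * rM (m := m) Y := by
  refine Matrix.ext fun i j => ?_
  change rF (∑ l, X i l * Y l j) = ∑ l, (rF (X i l) : FA m) * rF (Y l j)
  rw [rF_sum]
  exact Finset.sum_congr rfl fun k _ => rF_mul _ _

theorem rM_one [DecidableEq a] : (rM (1 : Matrix a a ℝ) : Matrix a a (FA m)) = 1 := by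
  refine Matrix.ext fun i j => ?_
  rw [rM_apply]
  by_cases h : i = j
  · subst h
    rw [Matrix.one_apply_eq, Matrix.one_apply_eq, rF_one]
  · rw [Matrix.one_apply_ne h, Matrix.one_apply_ne h, rF_zero]

theorem ev_rM (X : Matrix a b ℝ) : (faG m).MEv (rM X : Matrix a b (FA m)) :=
  fun _ _ => σ_of_deg_even Even.zero (deg_rF _)

theorem od_of_deg {j : ℕ} (hj : Odd j) {X : Matrix a b (FA m)} (h : ∀ i i', (X i i').IsDeg j) :
    (faG m).MOd X := fun i i' => σ_of_deg_odd hj (h i i')

theorem ev_of_deg {j : ℕ} (hj : Even j) {X : Matrix a b (FA m)} (h : ∀ i i', (X i i').IsDeg j) :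
    (faG m).MEv X := fun i i' => σ_of_deg_even hj (h i i')

theorem mapM_mul [Fintype b] (L : En k →L[ℝ] En m) (X : Matrix a b (FA m)) (Y : Matrix b c (FA m)) :
    mapM L (X * Y) = mapM L X * mapM L Y := by
  refine Matrix.ext fun i j => ?_
  change FAMap L (∑ l, X i l * Y l j) = ∑ l, FAMap L (X i l) * FAMap L (Y l j)
  rw [FAMap_sum]
  exact Finset.sum_congr rfl fun l _ => FAMap_mul L _ _

theorem mapM_rM (L : En k →L[ℝ] En m) (X : Matrix a b ℝ) : mapM L (rM X) = rM X := by
  refine Matrix.ext fun i j => ?_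
  exact FAMap_rF L _

theorem mapM_trace [Fintype a] (L : En k →L[ℝ] En m) (X : Matrix a a (FA m)) :
    FAMap L (trace X) = trace (mapM L X) := FAMap_sum L _ _

end Pool.Agent.EXO.CH
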