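import Pool.Agent.EXO.CsAlg

/-!
# EXO / CsId: the two Chern-Simons identities, jet level

`A` odd matrix (connection form), `B = dA`, `g`, `h = g⁻¹` even, `G = dg`.
-/

set_option autoImplicit false
set_option maxSynthPendingDepth 3
set_option linter.unusedSectionVars false

namespace Pool.Agent.EXO

open Matrix

namespace GrC

variable {R : Type*} [Ring R] [Algebra ℂ R] {S : GrC R}
variable {n : Type*} [Fintype n] [DecidableEq n]

/-- Chern-Simons form `tr(A B + 2/3 A³)`, `B = dA`. -/
noncomputable def cs (A B : Matrix n n R) : R :=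
  trace (A * B) + (2 / 3 : ℂ) • trace (A * A * A)

/-- The exterior derivative of the Chern-Simons form computed by the Leibniz rule
(using `dB = 0`). -/
noncomputable def dcs (A B : Matrix n n R) : R :=
  trace (B * B) + (2 / 3 : ℂ) • (trace (B * A * A) - trace (A * B * A) + trace (A * A * B))

theorem tr_four_zero {A : Matrix n n R} (hA : S.MOd A) : trace (A * A * (A * A)) = 0 := by
  have h := two_tr_four hA
  have h2 : (2 : ℂ) • trace (A * A * (A * A)) = 0 := by rw [two_smul]; exact h
  exact (smul_eq_zero_iff_right (two_ne_zero)).1 h2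

theorem tr_two_zero {A : Matrix n n R} (hA : S.MOd A) : trace (A * A) = 0 := by
  have h := two_tr_two hA
  have h2 : (2 : ℂ) • trace (A * A) = 0 := by rw [two_smul]; exact h
  exact (smul_eq_zero_iff_right (two_ne_zero)).1 h2

/-- `d CS = tr F²`, `F = dA + A²`. -/
theorem dcs_eq {A B : Matrix n n R} (hA : S.MOd A) (hB : S.MEv B) :
    dcs A B = trace ((B + A * A) * (B + A * A)) := by
  have h1 : trace ((B + A * A) * (B + A * A)) =
      trace (B * B) + trace (B * (A * A)) + trace (A * A * B) + trace (A * A * (A * A)) := by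
    simp only [Matrix.add_mul, Matrix.mul_add, trace_add]
    abel
  rw [h1, tr_four_zero hA, tr_AAB hB, dcs, tr_ABA hA hB, tr_AAB hB, ← Matrix.mul_assoc B A A]
  module

/-- Gauge transformation of the Chern-Simons form: with `θ = h G`, `Ã = h A g`,
`dÃ = - h G h A g + h B g - h A G`, `dθ = - h G h G`,
`CS(Ã + θ) - CS(A) = d tr(Ã θ) - 1/3 tr θ³`. -/
theorem cs_gauge {A B g h G : Matrix n n R} (hA : S.MOd A) (hB : S.MEv B) (hg : S.MEv g)
    (hh : S.MEv h) (hG : S.MOd G) (hgh : g * h = 1) :
    cs (h * A * g + h * G) ((-(h * G * h * A * g) + h * B * g - h * A * G) - h * G * h * G) =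
      cs A B + (trace ((-(h * G * h * A * g) + h * B * g - h * A * G) * (h * G)) -
        trace (h * A * g * -(h * G * h * G))) - (1 / 3 : ℂ) • trace (h * G * (h * G) * (h * G)) := by
  -- abbreviations
  set θ := h * G with hθ
  set a := h * A * g with ha
  set b := h * B * g with hb
  have oθ : S.MOd θ := hh.mul_od hG
  have oa : S.MOd a := (hh.mul_od hA).mul_ev hg
  have eb : S.MEv b := (hh.mul hB).mul hg
  have e1 : θ * h * A * g = θ * a := by simp only [ha, Matrix.mul_assoc]
  have e2 : h * A * G = a * θ := by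
    rw [ha, hθ, ← Matrix.mul_assoc (h * A * g) h G, Matrix.mul_assoc (h * A) g h, hgh,
      Matrix.mul_one]
  have e3 : θ * h * G = θ * θ := by rw [Matrix.mul_assoc, ← hθ]
  rw [e1, e2, e3]
  -- traces of the transformed quantities
  have t1 : trace (a * b) = trace (A * B) := by
    have : a * b = h * (A * B * g) := by
      rw [ha, hb]
      calc h * A * g * (h * B * g) = h * A * (g * h) * B * g := by simp only [Matrix.mul_assoc]
        _ = h * (A * B * g) := by rw [hgh, Matrix.mul_one]; simp only [Matrix.mul_assoc]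
    rw [this, tr_ev hh, Matrix.mul_assoc, hgh, Matrix.mul_one]
  have t2 : trace (a * a * a) = trace (A * A * A) := by
    have : a * a * a = h * (A * A * A * g) := by
      rw [ha]
      calc h * A * g * (h * A * g) * (h * A * g)
          = h * A * (g * h) * A * (g * h) * A * g := by simp only [Matrix.mul_assoc]
        _ = h * (A * A * A * g) := by rw [hgh, Matrix.mul_one, Matrix.mul_one]; simp only [Matrix.mul_assoc]
    rw [this, tr_ev hh, Matrix.mul_assoc, hgh, Matrix.mul_one]
  -- basic traces in a, θ, b
  have c1 : trace (θ * b) = trace (b * θ) := (tr_ev eb θ).symm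
  have c2 : trace (a * θ * a) = trace (a * a * θ) := tr_cyc oa oθ
  have c3 : trace (θ * a * a) = trace (a * a * θ) := by
    rw [← tr_cyc oa oa]
  have c4 : trace (θ * a * θ) = trace (a * θ * θ) := by
    rw [tr_cyc oθ oa, tr_cyc oθ oθ]
  have c5 : trace (θ * θ * a) = trace (a * θ * θ) := by
    rw [tr_cyc oθ oθ]
  simp only [cs, Matrix.mul_add, Matrix.add_mul, Matrix.mul_sub, Matrix.sub_mul, trace_add,
    trace_sub, Matrix.mul_neg, Matrix.neg_mul, trace_neg, ← Matrix.mul_assoc]
  rw [t1, t2, c1, c2, c3, c4, c5]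
  have c6 : trace (a * θ * θ) = trace (a * θ * θ) := rfl
  module

end GrC

end Pool.Agent.EXO
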