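import Mathlib
import Pool.Agent.EXO.Defs

/-!
# EXO: bundles, connections, flat bundles, characteristic forms

This file is frozen.
-/

open Set MeasureTheory Matrix
open scoped ContDiff ENNReal ComplexConjugate

namespace Pool.Agent.EXO

/-! ## Bundles over a closed submanifold -/

/-- The elementwise norm on matrices. -/
noncomputable instance matNACG {ι : Type} [Fintype ι] : NormedAddCommGroup (Matrix ι ι ℂ) :=
  Matrix.normedAddCommGroup

noncomputable instance matNS {ι : Type} [Fintype ι] : NormedSpace ℂ (Matrix ι ι ℂ) :=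
  Matrix.normedSpace

/-- A hermitian bundle with a grading and a metric connection over the closed submanifold `Y` of
`ℝ^m`: the fibre over `x` is the range of the projection `e x` of `ℂ^ι`, which commutes with the
constant diagonal matrix `s` with the entries `± 1`; the covariant derivative of a section `u`
in the direction of the tangent vector `v` is `e (∂_v u + ∑ v_a A_a u)`. -/
structure Bd {k m : ℕ} (Y : Geo k m) (ι : Type) [Fintype ι] [DecidableEq ι] where
  e : En m → Matrix ι ι ℂ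
  s : ι → ℂ
  A : Fin m → En m → Matrix ι ι ℂ
  smooth_e : ContDiff ℝ ∞ e
  smooth_A : ∀ a, ContDiff ℝ ∞ (A a)
  s_sq : ∀ i, s i = 1 ∨ s i = -1
  e_idem : ∀ x ∈ Y.carrier, e x * e x = e x
  e_herm : ∀ x ∈ Y.carrier, (e x)ᴴ = e x
  e_s : ∀ x ∈ Y.carrier, e x * diagonal s = diagonal s * e x
  e_A : ∀ a, ∀ x ∈ Y.carrier, e x * A a x * e x = A a x
  A_skew : ∀ a, ∀ x ∈ Y.carrier, (A a x)ᴴ = -A a x
  A_s : ∀ a, ∀ x ∈ Y.carrier, A a x * diagonal s = diagonal s * A a x
  /-- `A` vanishes on normal vectors -/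
  A_tan : ∀ a, ∀ x ∈ Y.carrier, ∑ c, ((Y.P x (bv a) c : ℝ) : ℂ) • A c x = A a x

/-- A flat bundle with a parallel indefinite hermitian form `⟨u, s v⟩`.  The covariant derivative
of a section `u` in the direction of the tangent vector `v` is `e (∂_v u + ∑ v_a b_a u)`. -/
structure FlatBd {k m : ℕ} (Y : Geo k m) (ι : Type) [Fintype ι] [DecidableEq ι] where
  e : En m → Matrix ι ι ℂ
  s : ι → ℂ
  b : Fin m → En m → Matrix ι ι ℂ
  smooth_e : ContDiff ℝ ∞ e
  smooth_b : ∀ a, ContDiff ℝ ∞ (b a)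
  s_sq : ∀ i, s i = 1 ∨ s i = -1
  e_idem : ∀ x ∈ Y.carrier, e x * e x = e x
  e_herm : ∀ x ∈ Y.carrier, (e x)ᴴ = e x
  e_s : ∀ x ∈ Y.carrier, e x * diagonal s = diagonal s * e x
  e_b : ∀ a, ∀ x ∈ Y.carrier, e x * b a x * e x = b a x
  b_tan : ∀ a, ∀ x ∈ Y.carrier, ∑ c, ((Y.P x (bv a) c : ℝ) : ℂ) • b c x = b a x
  /-- the hermitian form is parallel -/
  par : ∀ a, ∀ x ∈ Y.carrier, (b a x)ᴴ * diagonal s + diagonal s * b a x = 0
  /-- the curvature vanishes on tangent vectors -/
  flat : ∀ x ∈ Y.carrier, ∀ v w : En m, Y.P x v = v → Y.P x w = w →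
    e x * (fderiv ℝ e x v * fderiv ℝ e x w - fderiv ℝ e x w * fderiv ℝ e x v
      + ∑ a, (((w a : ℝ) : ℂ) • fderiv ℝ (b a) x v - ((v a : ℝ) : ℂ) • fderiv ℝ (b a) x w)
      + (∑ a, ((v a : ℝ) : ℂ) • b a x) * (∑ a, ((w a : ℝ) : ℂ) • b a x)
      - (∑ a, ((w a : ℝ) : ℂ) • b a x) * (∑ a, ((v a : ℝ) : ℂ) • b a x)) * e x = 0

namespace FlatBd

variable {k m : ℕ} {Y : Geo k m} {ι : Type} [Fintype ι] [DecidableEq ι]

/-- There are no parallel sections except zero. -/
def NoPar (E : FlatBd Y ι) : Prop :=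
  ∀ u : En m → (ι → ℂ), ContDiff ℝ ∞ u → (∀ x ∈ Y.carrier, (E.e x) *ᵥ (u x) = u x) →
    (∀ x ∈ Y.carrier, ∀ v : En m, Y.P x v = v →
      (E.e x) *ᵥ (fderiv ℝ u x v + (∑ a, ((v a : ℝ) : ℂ) • E.b a x) *ᵥ (u x)) = 0) →
    ∀ x ∈ Y.carrier, u x = 0

/-- `T x y`, a smooth family of parallel transports from the fibre over `y` to the fibre over `x`,
for the points `x`, `y` of `Y` at a distance less than `δ`. -/
structure IsPT (E : FlatBd Y ι) (δ : ℝ) (T : En m → En m → Matrix ι ι ℂ) : Prop where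
  pos : 0 < δ
  smooth : ContDiff ℝ ∞ fun p : En m × En m => T p.1 p.2
  left : ∀ x ∈ Y.carrier, ∀ y ∈ Y.carrier, dist x y < δ → E.e x * T x y = T x y
  right : ∀ x ∈ Y.carrier, ∀ y ∈ Y.carrier, dist x y < δ → T x y * E.e y = T x y
  diag : ∀ x ∈ Y.carrier, T x x = E.e x
  inv : ∀ x ∈ Y.carrier, ∀ y ∈ Y.carrier, dist x y < δ → T x y * T y x = E.e x
  par : ∀ x ∈ Y.carrier, ∀ y ∈ Y.carrier, dist x y < δ → ∀ v : En m, Y.P x v = v →
    E.e x * (fderiv ℝ (fun z => T z y) x v + (∑ a, ((v a : ℝ) : ℂ) • E.b a x) * T x y) = 0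
  par' : ∀ x ∈ Y.carrier, ∀ y ∈ Y.carrier, dist x y < δ → ∀ v : En m, Y.P y v = v →
    (fderiv ℝ (fun z => T x z) y v - T x y * (∑ a, ((v a : ℝ) : ℂ) • E.b a y)) * E.e y = 0

/-- The part of the connection which commutes with the grading. -/
noncomputable def evenPart (E : FlatBd Y ι) (a : Fin m) (x : En m) : Matrix ι ι ℂ :=
  (1 / 2 : ℂ) • (E.b a x + diagonal E.s * E.b a x * diagonal E.s)

/-- The part of the connection which anticommutes with the grading. -/
noncomputable def oddPart (E : FlatBd Y ι) (a : Fin m) (x : En m) : Matrix ι ι ℂ :=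
  (1 / 2 : ℂ) • (E.b a x - diagonal E.s * E.b a x * diagonal E.s)

theorem ss (E : FlatBd Y ι) : (diagonal E.s : Matrix ι ι ℂ) * diagonal E.s = 1 := by
  rw [diagonal_mul_diagonal, ← diagonal_one]
  congr 1
  funext i
  rcases E.s_sq i with h | h <;> simp [h]

theorem sH (E : FlatBd Y ι) : (diagonal E.s : Matrix ι ι ℂ)ᴴ = diagonal E.s := by
  rw [diagonal_conjTranspose]
  congr 1
  funext i
  rcases E.s_sq i with h | h <;> simp [h]

/-- The bundle with the metric connection underlying a flat bundle. -/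
noncomputable def toBd (E : FlatBd Y ι) : Bd Y ι where
  e := E.e
  s := E.s
  A := E.evenPart
  smooth_e := E.smooth_e
  smooth_A := by
    intro a
    have h := E.smooth_b a
    have h2 : ContDiff ℝ ∞ fun x => diagonal E.s * E.b a x * diagonal E.s := by
      have : IsBoundedLinearMap ℝ fun T : Matrix ι ι ℂ => diagonal E.s * T * diagonal E.s := by
        have L : (Matrix ι ι ℂ) →ₗ[ℝ] (Matrix ι ι ℂ) :=
          { toFun := fun T => diagonal E.s * T * diagonal E.s
            map_add' := by intro S T; rw [mul_add, add_mul]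
            map_smul' := by intro c T; simp }
        exact (LinearMap.toContinuousLinearMap
          { toFun := fun T : Matrix ι ι ℂ => diagonal E.s * T * diagonal E.s
            map_add' := by intro S T; rw [mul_add, add_mul]
            map_smul' := by intro c T; simp } : Matrix ι ι ℂ →L[ℝ] Matrix ι ι ℂ).isBoundedLinearMap
      exact this.contDiff.comp h
    exact (h.add h2).const_smul (1 / 2 : ℂ)
  s_sq := E.s_sq
  e_idem := E.e_idem
  e_herm := E.e_herm
  e_s := E.e_s
  e_A := by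
    intro a x hx
    have h1 := E.e_b a x hx
    have h2 := E.e_s x hx
    have h3 : E.e x * (diagonal E.s * E.b a x * diagonal E.s) * E.e x
        = diagonal E.s * E.b a x * diagonal E.s := by
      calc E.e x * (diagonal E.s * E.b a x * diagonal E.s) * E.e x
          = (E.e x * diagonal E.s) * E.b a x * (diagonal E.s * E.e x) := by
            simp only [Matrix.mul_assoc]
        _ = diagonal E.s * (E.e x * E.b a x * E.e x) * diagonal E.s := by
            rw [h2, ← h2]
            simp only [Matrix.mul_assoc, h2]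
        _ = _ := by rw [h1]
    simp only [evenPart, Matrix.mul_smul, Matrix.smul_mul, mul_add, add_mul, h1, h3]
  A_skew := by
    intro a x hx
    have h1 := E.par a x hx
    have h2 : (E.b a x)ᴴ = -(diagonal E.s * E.b a x * diagonal E.s) := by
      have h3 : ((E.b a x)ᴴ * diagonal E.s + diagonal E.s * E.b a x) * diagonal E.s = 0 := by
        rw [h1, Matrix.zero_mul]
      rw [add_mul, Matrix.mul_assoc, E.ss, Matrix.mul_one] at h3
      exact eq_neg_of_add_eq_zero_left h3
    simp only [evenPart, conjTranspose_smul, conjTranspose_add, conjTranspose_mul, E.sH, h2]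
    have h4 : diagonal E.s * (-(diagonal E.s * E.b a x * diagonal E.s) * diagonal E.s)
        = -E.b a x := by
      rw [Matrix.neg_mul, Matrix.mul_neg]
      congr 1
      calc diagonal E.s * (diagonal E.s * E.b a x * diagonal E.s * diagonal E.s)
          = (diagonal E.s * diagonal E.s) * E.b a x * (diagonal E.s * diagonal E.s) := by
            simp only [Matrix.mul_assoc]
        _ = _ := by rw [E.ss, Matrix.one_mul, Matrix.mul_one]
    rw [h4]
    simp only [one_div, star_inv₀, Complex.star_def, map_ofNat]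
    rw [← smul_neg]
    congr 1
    abel
  A_s := by
    intro a x _
    simp only [evenPart, Matrix.smul_mul, Matrix.mul_smul, add_mul, mul_add]
    congr 1
    have h5 : diagonal E.s * E.b a x * diagonal E.s * diagonal E.s = diagonal E.s * E.b a x := by
      rw [Matrix.mul_assoc, E.ss, Matrix.mul_one]
    have h6 : diagonal E.s * (diagonal E.s * E.b a x * diagonal E.s)
        = E.b a x * diagonal E.s := by
      rw [← Matrix.mul_assoc, ← Matrix.mul_assoc, E.ss, Matrix.one_mul]
    rw [h5, h6, add_comm]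
  A_tan := by
    intro a x hx
    have h := E.b_tan a x hx
    have h2 : ∑ c, ((Y.P x (bv a) c : ℝ) : ℂ) • (diagonal E.s * E.b c x * diagonal E.s)
        = diagonal E.s * E.b a x * diagonal E.s := by
      conv_rhs => rw [← h]
      simp only [Finset.mul_sum, Finset.sum_mul, Matrix.mul_smul, Matrix.smul_mul]
    simp only [evenPart]
    simp only [smul_add, Finset.sum_add_distrib]
    rw [← h2]
    conv_rhs => rw [← h]
    simp only [Finset.smul_sum, smul_smul, mul_comm]

end FlatBd

/-! ## Characteristic forms -/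

/-- The exterior derivative of a matrix valued function, as a matrix of one-forms. -/
noncomputable def dM {m : ℕ} {ι : Type} (e : En m → Matrix ι ι ℂ) (x : En m) :
    Matrix ι ι (FA m) :=
  fun i j => ∑ a, (fderiv ℝ (fun y => e y i j) x (bv a)) • of1 (bv a)

/-- A matrix of numbers as a matrix of forms of degree zero. -/
noncomputable def cM {m : ℕ} {ι : Type} (T : Matrix ι ι ℂ) : Matrix ι ι (FA m) :=
  fun i j => algebraMap ℂ (FA m) (T i j)

namespace Bd

variable {k m : ℕ} {Y : Geo k m} {ι : Type} [Fintype ι] [DecidableEq ι]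

/-- The connection form, a matrix of one-forms. -/
noncomputable def conn (E : Bd Y ι) (x : En m) : Matrix ι ι (FA m) :=
  fun i j => ∑ a, (E.A a x i j) • of1 (bv a)

/-- The curvature form, a matrix of two-forms. -/
noncomputable def curv (E : Bd Y ι) (x : En m) : Matrix ι ι (FA m) :=
  cM (E.e x) * dM E.e x * dM E.e x * cM (E.e x)
    + cM (E.e x) * (Matrix.of fun i j => dF (fun y => E.conn y i j) x) * cM (E.e x)
    + E.conn x * E.conn x

/-- The form `str F^k`. -/
noncomputable def strF (E : Bd Y ι) (k : ℕ) (x : En m) : FA m :=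
  (cM (diagonal E.s) * cM (E.e x) * E.curv x ^ k).trace

/-- The Chern character form, up to degree `14`. -/
noncomputable def ch (E : Bd Y ι) (x : En m) : FA m :=
  ∑ k ∈ Finset.range 8, ((Complex.I / (2 * Real.pi)) ^ k / (k.factorial : ℂ)) • E.strF k x

/-- The pullback of a bundle under a map `r : V → Y`. -/
noncomputable def pb (E : Bd Y ι) {n M : ℕ} (V : Geo n M) (r : En M → En m)
    (hr : ContDiff ℝ ∞ r) (hV : ∀ v ∈ V.carrier, r v ∈ Y.carrier) : Bd V ι where
  e := fun x => E.e (r x)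
  s := E.s
  A := fun a x => ∑ c, ((fderiv ℝ r x (V.P x (bv a)) c : ℝ) : ℂ) • E.A c (r x)
  smooth_e := E.smooth_e.comp hr
  smooth_A := by
    intro a
    refine ContDiff.sum fun c _ => ?_
    have h1 : ContDiff ℝ ∞ fun x => fderiv ℝ r x (V.P x (bv a)) :=
      (hr.fderiv_right (by simp)).clm_apply (V.smoothP.clm_apply contDiff_const)
    have h2 : ContDiff ℝ ∞ fun x => fderiv ℝ r x (V.P x (bv a)) c :=
      (contDiff_piLp_apply (𝕜 := ℝ) (p := 2)).comp h1
    have h3 : ContDiff ℝ ∞ fun x => (fderiv ℝ r x (V.P x (bv a)) c) • E.A c (r x) :=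
      h2.smul ((E.smooth_A c).comp hr)
    have h4 : (fun x => (fderiv ℝ r x (V.P x (bv a)) c) • E.A c (r x))
        = fun x => ((fderiv ℝ r x (V.P x (bv a)) c : ℝ) : ℂ) • E.A c (r x) := by
      funext x
      ext i j
      simp
    rwa [h4] at h3
  s_sq := E.s_sq
  e_idem := fun x hx => E.e_idem _ (hV x hx)
  e_herm := fun x hx => E.e_herm _ (hV x hx)
  e_s := fun x hx => E.e_s _ (hV x hx)
  e_A := by
    intro a x hx
    simp only [Finset.mul_sum, Finset.sum_mul, Matrix.mul_smul, Matrix.smul_mul]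
    exact Finset.sum_congr rfl fun c _ => by rw [E.e_A c _ (hV x hx)]
  A_skew := by
    intro a x hx
    rw [conjTranspose_sum, ← Finset.sum_neg_distrib]
    refine Finset.sum_congr rfl fun c _ => ?_
    rw [conjTranspose_smul, E.A_skew c _ (hV x hx)]
    simp
  A_s := by
    intro a x hx
    simp only [Finset.mul_sum, Finset.sum_mul, Matrix.mul_smul, Matrix.smul_mul]
    exact Finset.sum_congr rfl fun c _ => by rw [E.A_s c _ (hV x hx)]
  A_tan := by
    intro a x hx
    have key : ∀ w : En M, ∑ c, (w c) • (fderiv ℝ r x (V.P x (bv c)))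
        = fderiv ℝ r x (V.P x w) := by
      intro w
      have hw : w = ∑ c, (w c) • (bv c : En M) := by
        ext i
        simp [bv, Finset.sum_apply, Pi.single_apply]
      conv_rhs => rw [hw]
      simp only [map_sum, map_smul]
    have h1 := key (V.P x (bv a))
    rw [V.P_idem x hx] at h1
    simp only [Finset.smul_sum]
    rw [Finset.sum_comm]
    refine Finset.sum_congr rfl fun d _ => ?_
    rw [← h1]
    simp only [smul_smul, ← Finset.sum_smul, WithLp.ofLp_sum,
      Finset.sum_apply, smul_eq_mul, WithLp.ofLp_smul, Pi.smul_apply]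
    push_cast
    rfl

end Bd

/-- The matrix of a linear map, with complex entries. -/
noncomputable def matOf {m : ℕ} (L : En m →L[ℝ] En m) : Matrix (Fin m) (Fin m) ℂ :=
  fun i j => ((L (bv j) i : ℝ) : ℂ)

/-- The form `tr (P (dP)^{2k})` of the tangent bundle of `V`. -/
noncomputable def Geo.sF {n M : ℕ} (V : Geo n M) (k : ℕ) (x : En M) : FA M :=
  (cM (matOf (V.P x)) * dM (fun y => matOf (V.P y)) x ^ (2 * k)).trace

/-- The logarithm of the `L̂`-form, up to degree `12`. -/
noncomputable def lamF {n M : ℕ} (V : Geo n M) (x : En M) : FA M :=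
  (-(1 / (96 * Real.pi ^ 2) : ℂ)) • V.sF 2 x + (-(7 / (46080 * Real.pi ^ 4) : ℂ)) • V.sF 4 x
    + (-(31 / (11612160 * Real.pi ^ 6) : ℂ)) • V.sF 6 x

/-- The `L̂`-form, up to degree `14`. -/
noncomputable def LhF {n M : ℕ} (V : Geo n M) (x : En M) : FA M :=
  1 + lamF V x + (1 / 2 : ℂ) • lamF V x ^ 2 + (1 / 6 : ℂ) • lamF V x ^ 3

/-! ## Coordinates of `ℝ^15 = ℝ⁴ × ℝ⁴ × ℝ⁷`, an auxiliary function -/

/-- The first component of a point of `ℝ^15 = ℝ⁴ × ℝ⁴ × ℝ⁷`. -/
noncomputable def p1 (z : En 15) : En 4 := WithLp.toLp 2 fun i => z ⟨i, by omega⟩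

/-- The second component of a point of `ℝ^15 = ℝ⁴ × ℝ⁴ × ℝ⁷`. -/
noncomputable def p2 (z : En 15) : En 4 := WithLp.toLp 2 fun i => z ⟨4 + i, by omega⟩

/-- The third component of a point of `ℝ^15 = ℝ⁴ × ℝ⁴ × ℝ⁷`. -/
noncomputable def p3 (z : En 15) : En 7 := WithLp.toLp 2 fun i => z ⟨8 + i, by omega⟩

/-- The point of `ℝ^15` with the given components. -/
noncomputable def j15 (x y : En 4) (w : En 7) : En 15 :=
  WithLp.toLp 2 fun i => if h : i.1 < 4 then x ⟨i, h⟩ else
    if h' : i.1 < 8 then y ⟨i - 4, by omega⟩ else w ⟨i - 8, by omega⟩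

@[simp] theorem p1_j15 (x y : En 4) (w : En 7) : p1 (j15 x y w) = x := by
  ext i
  simp [p1, j15]

@[simp] theorem p2_j15 (x y : En 4) (w : En 7) : p2 (j15 x y w) = y := by
  ext i
  have h1 : ¬ (4 + i.1 < 4) := by omega
  have h2 : 4 + i.1 < 8 := by omega
  simp only [p2, j15, h1, h2, dite_true, dite_false]
  exact congrArg y (Fin.ext (by simp))

@[simp] theorem p3_j15 (x y : En 4) (w : En 7) : p3 (j15 x y w) = w := by
  ext i
  have h1 : ¬ (8 + i.1 < 4) := by omega
  have h2 : ¬ (8 + i.1 < 8) := by omega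
  simp only [p3, j15, h1, h2, dite_false]
  exact congrArg w (Fin.ext (by simp))

@[simp] theorem j15_p (z : En 15) : j15 (p1 z) (p2 z) (p3 z) = z := by
  ext i
  simp only [p1, p2, p3, j15]
  split_ifs with h h'
  · rfl
  · exact congrArg z (Fin.ext (by simp; omega))
  · exact congrArg z (Fin.ext (by simp; omega))

/-- The inversion in the unit sphere. -/
noncomputable def ivn {m : ℕ} (x : En m) : En m := (‖x‖ ^ 2)⁻¹ • x

/-- A smooth function which is `0` for `t ≤ 0` and `1` for `1 ≤ t`. -/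
noncomputable def stp (t : ℝ) : ℝ := Real.smoothTransition t

/-! ## The signature operator -/

/-- Clifford multiplication by a form: the form `e_I` acts as the ordered product of the Clifford
operators. -/
noncomputable def clI {m : ℕ} {ι : Type} [Fintype ι] [DecidableEq ι] (u : FA m) :
    HF m ι →L[ℂ] HF m ι :=
  ∑ I, u.co I • ((I.sort (· ≤ ·)).map fun a => (cl a : HF m ι →L[ℂ] HF m ι)).prod

/-- `𝔇` is the signature operator of `V` with coefficients in the graded bundle `E`, up to the term of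
order zero `∑ (ε_a + ι_a) θ_a` with odd hermitian `θ_a`.  The grading is
`i^(n/2) c(vol) ⊗ s`, where `n` (even) is the dimension of `V`. -/
structure IsSig {n M : ℕ} (V : OrGeo n M) {ι : Type} [Fintype ι] [DecidableEq ι]
    (E : Bd V.toGeo ι) (𝔇 : Dirac V.toGeo (HF M ι)) : Prop where
  c_eq : ∀ a, 𝔇.c a = cl a
  Q_eq : ∀ x ∈ V.carrier, 𝔇.Q x = Lam (V.P x) * cf (E.e x)
  Γ_eq : ∀ x ∈ V.carrier,
    𝔇.Γ x * 𝔇.Q x = (Complex.I ^ (n / 2)) • (clI (V.vol x) * cf (diagonal E.s) * 𝔇.Q x)
  B_eq : ∃ θ : Fin M → En M → Matrix ι ι ℂ, (∀ a, ContDiff ℝ ∞ (θ a)) ∧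
    (∀ a, ∀ x ∈ V.carrier, (θ a x)ᴴ = θ a x ∧ E.e x * θ a x * E.e x = θ a x ∧
      diagonal E.s * θ a x = -(θ a x * diagonal E.s) ∧
      ∑ c, ((V.P x (bv a) c : ℝ) : ℂ) • θ c x = θ a x) ∧
    ∀ x ∈ V.carrier, 𝔇.B x =
      (∑ a, cl a * cf (E.A a x) + ∑ a, (eps a + iota a) * cf (θ a x)) * 𝔇.Q x

end Pool.Agent.EXO
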