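import Mathlib
import Pool.Agent.EXO.DefB

/-!
# EXO: the twisting map, the data of the closed manifold

This file is frozen.
-/

open Set MeasureTheory Matrix
open scoped ContDiff ENNReal ComplexConjugate Quaternion

namespace Pool.Agent.EXO

/-! ## The twisting map -/

/-- The angle function: `π` for `r ≤ l/8`, `0` for `3l/8 ≤ r`. -/
noncomputable def psi (l r : ℝ) : ℝ := Real.pi * (1 - stp (4 * (r / l - 1 / 8)))

/-- The vector part of a quaternion. -/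
noncomputable def vim (q : ℍ[ℝ]) : En 3 := !₂[q.imI, q.imJ, q.imK]

/-- The quaternion with the given vector part. -/
noncomputable def imq (v : En 3) : ℍ[ℝ] := ⟨0, v 0, v 1, v 2⟩

/-- The map `θ : ℝ³ → S³`, equal to `-1` near `0` and to `1` for `3l/8 ≤ ‖x‖`. -/
noncomputable def tha (l : ℝ) (x : En 3) : ℍ[ℝ] :=
  ((Real.cos (psi l ‖x‖) : ℝ) : ℍ[ℝ]) + imq ((Real.sin (psi l ‖x‖) / ‖x‖) • x)

/-- Conjugation with the quaternion `q`, on `ℝ³`. -/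
noncomputable def Adq (q : ℍ[ℝ]) : En 3 →L[ℝ] En 3 :=
  LinearMap.toContinuousLinearMap
    { toFun := fun v => vim (q * imq v * star q)
      map_add' := by
        intro u v
        ext i
        fin_cases i <;> simp [vim, imq] <;> ring
      map_smul' := by
        intro c u
        ext i
        fin_cases i <;> simp [vim, imq] <;> ring }

/-- The last three coordinates of a point of `ℝ⁴`. -/
noncomputable def vec4 (x : En 4) : En 3 := !₂[x 1, x 2, x 3]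

/-- The point of `ℝ⁴` with the given coordinates. -/
noncomputable def mk4 (t : ℝ) (v : En 3) : En 4 := !₂[t, v 0, v 1, v 2]

/-- The map `θ` on `ℝ⁴`, homogeneous of degree zero. -/
noncomputable def tha4 (l : ℝ) (x : En 4) : ℍ[ℝ] :=
  if 0 < x 0 then tha l ((x 0)⁻¹ • vec4 x) else 1

/-- The rotation of `ℝ⁴ = ℝ ⊕ ℝ³` by `1 ⊕ Ad q`. -/
noncomputable def rot4 (q : ℍ[ℝ]) : En 4 →L[ℝ] En 4 :=
  LinearMap.toContinuousLinearMap
    { toFun := fun y => mk4 (y 0) (Adq q (vec4 y))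
      map_add' := by
        intro u v
        have : vec4 (u + v) = vec4 u + vec4 v := by
          ext i
          fin_cases i <;> simp [vec4]
        ext i
        rw [this, map_add]
        fin_cases i <;> simp [mk4]
      map_smul' := by
        intro c u
        have : vec4 (c • u) = c • vec4 u := by
          ext i
          fin_cases i <;> simp [vec4]
        ext i
        rw [this, map_smul]
        fin_cases i <;> simp [mk4] }

/-- The twisting map `A : ℝ⁴ ∖ 0 → SO(3) ⊂ SO(4)`, homogeneous of degree zero. -/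
noncomputable def tw (l : ℝ) (x : En 4) : En 4 →L[ℝ] En 4 := rot4 (tha4 l x)

/-! ## The hypersurface `N` with its collar -/

/-- A collar of the closed hypersurface `N` of `ℝ⁷`: a diffeomorphism `io` of `N × (-1, 1)` onto the
open set `O` with the inverse `(rho, sc)`. -/
structure Collar (N : Set (En 7)) where
  O : Set (En 7)
  rho : En 7 → En 7
  sc : En 7 → ℝ
  io : En 7 → ℝ → En 7
  openO : IsOpen O
  bddO : Bornology.IsBounded O
  smooth_rho : ContDiffOn ℝ ∞ rho O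
  smooth_sc : ContDiffOn ℝ ∞ sc O
  smooth_io : ContDiff ℝ ∞ fun p : En 7 × ℝ => io p.1 p.2
  io_mem : ∀ n ∈ N, ∀ t ∈ Ioo (-1 : ℝ) 1, io n t ∈ O ∧ rho (io n t) = n ∧ sc (io n t) = t
  io_rho : ∀ w ∈ O, rho w ∈ N ∧ sc w ∈ Ioo (-1 : ℝ) 1 ∧ io (rho w) (sc w) = w
  io_zero : ∀ n ∈ N, io n 0 = n

/-! ## The data of the closed manifold -/

/-- The function `rad ^ (-2)` on the piece `K` of `W`. -/
noncomputable def gK (z : En 15) : ℝ :=
  ‖p1 z‖ ^ 2 * ‖p2 z‖ ^ 2 / (‖p1 z‖ ^ 2 + ‖p2 z‖ ^ 2)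
/-- The function `rad ^ (-2)` on the piece `H₁` of `W`. -/
noncomputable def g1 (z : En 15) : ℝ := ‖p2 z‖ ^ 2 / (1 + ‖p1 z‖ ^ 2 * ‖p2 z‖ ^ 2)
/-- The function `rad ^ (-2)` on the piece `H₂` of `W`. -/
noncomputable def g2 (z : En 15) : ℝ := ‖p1 z‖ ^ 2 / (1 + ‖p1 z‖ ^ 2 * ‖p2 z‖ ^ 2)
/-- The function `‖q‖ ^ 2` on the source piece. -/
noncomputable def gS (z : En 15) : ℝ := ‖p1 z‖ ^ 2 + ‖p2 z‖ ^ 2

/-- The part `{g < c}` of the domain of a piece, over the set `N ⊆ ℝ⁷`. -/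
def dom (g : En 15 → ℝ) (N : Set (En 7)) (c : ℝ) : Set (En 15) := {z | g z < c ∧ p3 z ∈ N}

/-- A piece of the closed manifold `V`: `Ψ` is a smooth embedding of `{g < 20000} × N` onto the open
subset `V ∩ O` of `V`; it is extended to `{g < 20000} × C.O` by means of the projection `C.rho`.  `Φ` is the
inverse. -/
structure VPiece {N : Set (En 7)} (C : Collar N) {M : ℕ} (V : Set (En M)) (g : En 15 → ℝ) where
  Ψ : En 15 → En M
  Φ : En M → En 15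
  O : Set (En M)
  openO : IsOpen O
  smoothΨ : ContDiffOn ℝ ∞ Ψ (dom g C.O 20000)
  smoothΦ : ContDiffOn ℝ ∞ Φ O
  maps : ∀ z ∈ dom g C.O 20000, Ψ z ∈ V ∩ O
  mapsΦ : ∀ v ∈ V ∩ O, Φ v ∈ dom g N 20000
  right : ∀ v ∈ V ∩ O, Ψ (Φ v) = v
  left : ∀ z ∈ dom g C.O 20000, Φ (Ψ z) = j15 (p1 z) (p2 z) (C.rho (p3 z))

/-- A cut-off function of the square of the norm: `1` for `t ≤ 4`, `0` for `9 ≤ t`. -/
noncomputable def kap (t : ℝ) : ℝ := 1 - stp ((t - 4) / 5)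

/-- `kap (1 / t)`, and `0` for `t = 0`. -/
noncomputable def kapi (t : ℝ) : ℝ := if t = 0 then 0 else kap t⁻¹

/-- The closed manifold `V = (ℝ⁸ × N) ∪ (W × N)` with its projection `r` to `N`.  `δ` is the bound for
the distance of the two projections to `N` on the source piece. The source piece `S` has the
coordinates `(q, n)`, `q = (p1, p2) ∈ ℝ⁸`; the pieces `K`, `H₁`, `H₂` have the coordinates `(x, y, n)`,
`(x', y, n)`, `(x, y', n)`. -/
structure VData (N : OrGeo 6 7) (C : Collar N.carrier) (l δ : ℝ) where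
  M : ℕ
  V : OrGeo 14 M
  r : En M → En 7
  smooth_r : ContDiff ℝ ∞ r
  r_maps : ∀ v ∈ V.carrier, r v ∈ N.carrier
  S : VPiece C V.carrier gS
  K : VPiece C V.carrier gK
  H1 : VPiece C V.carrier g1
  H2 : VPiece C V.carrier g2
  /-- the transition maps of `W` -/
  trK1 : ∀ z ∈ dom gK N.carrier 20000, p1 z ≠ 0 →
    K.Ψ z = H1.Ψ (j15 (ivn (p1 z)) (tw l (p1 z) (p2 z)) (p3 z))
  trK2 : ∀ z ∈ dom gK N.carrier 20000, p2 z ≠ 0 →
    K.Ψ z = H2.Ψ (j15 (tw l (p2 z) (p1 z)) (ivn (p2 z)) (p3 z))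
  notK1 : ∀ z ∈ dom gK N.carrier 20000, p1 z = 0 → K.Ψ z ∉ H1.O
  notK2 : ∀ z ∈ dom gK N.carrier 20000, p2 z = 0 → K.Ψ z ∉ H2.O
  not1K : ∀ z ∈ dom g1 N.carrier 20000, p1 z = 0 → H1.Ψ z ∉ K.O
  not2K : ∀ z ∈ dom g2 N.carrier 20000, p2 z = 0 → H2.Ψ z ∉ K.O
  inter12 : ∀ v ∈ V.carrier, v ∈ H1.O → v ∈ H2.O → v ∈ K.O
  /-- the projection to `N` -/
  rK : ∀ z ∈ dom gK N.carrier 20000, r (K.Ψ z) = p3 z
  r1 : ∀ z ∈ dom g1 N.carrier 20000, r (H1.Ψ z) = p3 z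
  r2 : ∀ z ∈ dom g2 N.carrier 20000, r (H2.Ψ z) = p3 z
  rS : ∀ z ∈ dom gS N.carrier 20000, dist (r (S.Ψ z)) (p3 z) < δ
  /-- the cut-off function `kap (‖y‖ ^ 2)` on `W` -/
  k : En M → ℝ
  smooth_k : ContDiff ℝ ∞ k
  kK : ∀ z ∈ dom gK N.carrier 20000, gK z ≤ 1 → k (K.Ψ z) = kap (‖p2 z‖ ^ 2)
  k1 : ∀ z ∈ dom g1 N.carrier 20000, g1 z ≤ 1 → k (H1.Ψ z) = kap (‖p2 z‖ ^ 2)
  k2 : ∀ z ∈ dom g2 N.carrier 20000, g2 z ≤ 1 → k (H2.Ψ z) = kapi (‖p2 z‖ ^ 2)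
  /-- the pieces cover `V` -/
  cover : ∀ v ∈ V.carrier,
    (∃ z, gS z ≤ 10 ∧ p3 z ∈ N.carrier ∧ v = S.Ψ z) ∨
    (∃ z, gK z ≤ 1 / 3 ∧ p3 z ∈ N.carrier ∧ v = K.Ψ z) ∨
    (∃ z, g1 z ≤ 1 / 3 ∧ p3 z ∈ N.carrier ∧ v = H1.Ψ z) ∨
    (∃ z, g2 z ≤ 1 / 3 ∧ p3 z ∈ N.carrier ∧ v = H2.Ψ z)
  /-- the piece `K` preserves the orientation -/
  orient : ∀ z ∈ dom gK C.O 20000, ∃ c : ℝ, 0 < c ∧ pbF K.Ψ V.vol z = (c : ℂ) •
    ((List.ofFn fun i : Fin 8 => of1 (bv (⟨i, by omega⟩ : Fin 15))).prod *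
      pbF (fun z => C.rho (p3 z)) N.vol z)

end Pool.Agent.EXO
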