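import Mathlib
import Pool.Agent.EXO.DefC

/-!
# EXO: the data of the parts GEO and GLU

Internal interface (not used in the final statement).
-/

open Set MeasureTheory Matrix
open scoped ContDiff ENNReal ComplexConjugate Quaternion

namespace Pool.Agent.EXO

/-! ## Coordinates of `ℝ^14 = ℝ⁴ × ℝ⁴ × ℝ⁶` -/

/-- The first component of a point of `ℝ^14 = ℝ⁴ × ℝ⁴ × ℝ⁶`. -/
noncomputable def q1 (w : En 14) : En 4 := WithLp.toLp 2 fun i => w ⟨i, by omega⟩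

/-- The second component of a point of `ℝ^14 = ℝ⁴ × ℝ⁴ × ℝ⁶`. -/
noncomputable def q2 (w : En 14) : En 4 := WithLp.toLp 2 fun i => w ⟨4 + i, by omega⟩

/-- The third component of a point of `ℝ^14 = ℝ⁴ × ℝ⁴ × ℝ⁶`. -/
noncomputable def q3 (w : En 14) : En 6 := WithLp.toLp 2 fun i => w ⟨8 + i, by omega⟩

/-- The point of `ℝ^14` with the given components. -/
noncomputable def j14 (x y : En 4) (z : En 6) : En 14 :=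
  WithLp.toLp 2 fun i => if h : i.1 < 4 then x ⟨i, h⟩ else
    if h' : i.1 < 8 then y ⟨i - 4, by omega⟩ else z ⟨i - 8, by omega⟩

@[simp] theorem q1_j14 (x y : En 4) (z : En 6) : q1 (j14 x y z) = x := by
  ext i
  simp [q1, j14]

@[simp] theorem q2_j14 (x y : En 4) (z : En 6) : q2 (j14 x y z) = y := by
  ext i
  have h1 : ¬ (4 + i.1 < 4) := by omega
  have h2 : 4 + i.1 < 8 := by omega
  simp only [q2, j14, h1, h2, dite_true, dite_false]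
  exact congrArg y (Fin.ext (by simp))

@[simp] theorem q3_j14 (x y : En 4) (z : En 6) : q3 (j14 x y z) = z := by
  ext i
  have h1 : ¬ (8 + i.1 < 4) := by omega
  have h2 : ¬ (8 + i.1 < 8) := by omega
  simp only [q3, j14, h1, h2, dite_false]
  exact congrArg z (Fin.ext (by simp))

@[simp] theorem j14_q (w : En 14) : j14 (q1 w) (q2 w) (q3 w) = w := by
  ext i
  simp only [q1, q2, q3, j14]
  split_ifs with h h'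
  · rfl
  · exact congrArg w (Fin.ext (by simp; omega))
  · exact congrArg w (Fin.ext (by simp; omega))

/-- The square of the norm of the `ℝ⁸` part. -/
noncomputable def gq (w : En 14) : ℝ := ‖q1 w‖ ^ 2 + ‖q2 w‖ ^ 2

/-- The neighbourhood `{|log ‖q‖| < d, |z_i| < d}` of `S⁷ × 0` in `ℝ⁸ × ℝ⁶`. -/
def cyl (d : ℝ) : Set (En 14) :=
  {w | 0 < gq w ∧ |Real.log (gq w)| < 2 * d ∧ ∀ i, |q3 w i| < d}

/-! ## The maps `t₁`, `t₂` -/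

/-- The inverse of the twisting map. -/
noncomputable def twi (l : ℝ) (x : En 4) : En 4 →L[ℝ] En 4 := rot4 (star (tha4 l x))

/-- The transition map `t₂ t₁⁻¹` of the end of `W`. -/
noncomputable def tt (l : ℝ) (X Y : En 4) : En 4 × En 4 := (tw l (twi l X Y) X, twi l X Y)

/-- The transition map `t₂ t₁⁻¹` on `ℝ^14`. -/
noncomputable def tt14 (l : ℝ) (w : En 14) : En 14 :=
  j14 (tt l (q1 w) (q2 w)).1 (tt l (q1 w) (q2 w)).2 (q3 w)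

/-- The transition map `t₂ t₁⁻¹` on `ℝ^15`. -/
noncomputable def tt15 (l : ℝ) (z : En 15) : En 15 :=
  j15 (tt l (p1 z) (p2 z)).1 (tt l (p1 z) (p2 z)).2 (p3 z)

/-! ## The data of the part GEO -/

/-- The open domain of the chart `D₁` of the end of `W`, times a cube. -/
def D1 (d : ℝ) : Set (En 14) := {w | w ∈ cyl d ∧ q2 w ≠ 0}

/-- The domain of the chart `D₂` of the end of `W` (restricted to `‖Y‖ < ‖X‖ / 2`), times a cube. -/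
def D2 (d : ℝ) : Set (En 14) := {w | w ∈ cyl d ∧ ‖q2 w‖ < ‖q1 w‖ / 2}

/-- The homeomorphism `f0` of `Ω`, the chart `e` of `Ω` with the inverse `e'`, the smooth embedding `j` of the
end of `W` (times a cube), given by `j1`, `j2` with the inverses `k1`, `k2`, and the homeomorphism `h`
with `f0 ∘ e = j ∘ (h × id)`. -/
structure JData (l : ℝ) where
  Ω : Set (En 14)
  f0 : En 14 → En 14
  d : ℝ
  e : En 14 → En 14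
  e' : En 14 → En 14
  d_pos : 0 < d
  openΩ : IsOpen Ω
  bddΩ : Bornology.IsBounded Ω
  e_smooth : ContDiffOn ℝ ∞ e (cyl d)
  e'_smooth : ContDiffOn ℝ ∞ e' Ω
  e_maps : ∀ w ∈ cyl d, e w ∈ Ω ∧ e' (e w) = w
  e'_maps : ∀ y ∈ Ω, e' y ∈ cyl d ∧ e (e' y) = y
  f0_cont : ContinuousOn f0 Ω
  j1 : En 14 → En 14
  k1 : En 14 → En 14
  J1 : Set (En 14)
  openJ1 : IsOpen J1
  j1_smooth : ContDiffOn ℝ ∞ j1 (D1 d)
  k1_smooth : ContDiffOn ℝ ∞ k1 J1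
  j1_maps : ∀ w ∈ D1 d, j1 w ∈ J1 ∧ k1 (j1 w) = w
  k1_maps : ∀ y ∈ J1, k1 y ∈ D1 d ∧ j1 (k1 y) = y
  j2 : En 14 → En 14
  k2 : En 14 → En 14
  J2 : Set (En 14)
  openJ2 : IsOpen J2
  j2_smooth : ContDiffOn ℝ ∞ j2 (D2 d)
  k2_smooth : ContDiffOn ℝ ∞ k2 J2
  j2_maps : ∀ w ∈ D2 d, j2 w ∈ J2 ∧ k2 (j2 w) = w
  k2_maps : ∀ y ∈ J2, k2 y ∈ D2 d ∧ j2 (k2 y) = y
  /-- the two charts are compatible -/
  inter : ∀ y ∈ J1, (y ∈ J2 ↔ ‖q2 (k1 y)‖ < ‖q1 (k1 y)‖ / 2)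
  compat : ∀ y ∈ J1 ∩ J2, k2 y = tt14 l (k1 y)
  inter2 : ∀ y ∈ J2, q2 (k2 y) ≠ 0 → y ∈ J1
  h1 : En 14 → En 14
  h1_norm : ∀ w, q2 w ≠ 0 → ‖q1 (h1 w)‖ = ‖q1 w‖ ∧ ‖q2 (h1 w)‖ = ‖q2 w‖ ∧ q3 (h1 w) = q3 w
  h1_surj : ∀ w, q2 w ≠ 0 → ∃ w', h1 w' = w ∧ ‖q1 w'‖ = ‖q1 w‖ ∧ ‖q2 w'‖ = ‖q2 w‖ ∧ q3 w' = q3 w
  f0_e1 : ∀ w ∈ D1 d, f0 (e w) = j1 (h1 w)
  f0_e2 : ∀ w ∈ D2 d, f0 (e w) = j2 (j14 (q1 w) (twi l (q1 w) (q2 w)) (q3 w))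

/-! ## The data of the part GLU -/

/-- The extension to the collar: the retraction of `ℝ⁸ × O` to `ℝ⁸ × N`. -/
noncomputable def Collar.R {N : Set (En 7)} (C : Collar N) (z : En 15) : En 15 :=
  j15 (p1 z) (p2 z) (C.rho (p3 z))

/-- The gluing map `G` from the annulus `{10^(-6) < ‖q‖² < 10^6} × N` of the source to the end of `W`, times
`N`: `G1 : A1 → B1` in the chart `D₁` and `G2 : A2 → B2` in the chart `D₂`, with the inverses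
`H1`, `H2`.  All maps and sets are extended to `ℝ⁸ × C.O` by means of `C.R`. -/
structure GData {N : Set (En 7)} (C : Collar N) (l ε : ℝ) where
  A1 : Set (En 15)
  A2 : Set (En 15)
  B1 : Set (En 15)
  B2 : Set (En 15)
  G1 : En 15 → En 15
  G2 : En 15 → En 15
  H1 : En 15 → En 15
  H2 : En 15 → En 15
  openA1 : IsOpen A1
  openA2 : IsOpen A2
  openB1 : IsOpen B1
  openB2 : IsOpen B2
  subA : ∀ z ∈ A1 ∪ A2, 1 / 10 ^ 6 < gS z ∧ gS z < 10 ^ 6 ∧ p3 z ∈ C.O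
  coverA : ∀ z, 1 / 10 ^ 6 < gS z → gS z < 10 ^ 6 → p3 z ∈ C.O → z ∈ A1 ∪ A2
  subB1 : ∀ z ∈ B1, p2 z ≠ 0 ∧ p3 z ∈ C.O
  subB2 : ∀ z ∈ B2, ‖p2 z‖ < ‖p1 z‖ / 2 ∧ p3 z ∈ C.O
  satA1 : ∀ z, p3 z ∈ C.O → (z ∈ A1 ↔ C.R z ∈ A1)
  satA2 : ∀ z, p3 z ∈ C.O → (z ∈ A2 ↔ C.R z ∈ A2)
  satB1 : ∀ z, p3 z ∈ C.O → (z ∈ B1 ↔ C.R z ∈ B1)
  satB2 : ∀ z, p3 z ∈ C.O → (z ∈ B2 ↔ C.R z ∈ B2)
  smoothG1 : ContDiffOn ℝ ∞ G1 A1
  smoothG2 : ContDiffOn ℝ ∞ G2 A2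
  smoothH1 : ContDiffOn ℝ ∞ H1 B1
  smoothH2 : ContDiffOn ℝ ∞ H2 B2
  mapsG1 : ∀ z ∈ A1, G1 z ∈ B1 ∧ p3 (G1 z) ∈ N ∧ H1 (G1 z) = C.R z
  mapsG2 : ∀ z ∈ A2, G2 z ∈ B2 ∧ p3 (G2 z) ∈ N ∧ H2 (G2 z) = C.R z
  mapsH1 : ∀ z ∈ B1, H1 z ∈ A1 ∧ p3 (H1 z) ∈ N ∧ G1 (H1 z) = C.R z
  mapsH2 : ∀ z ∈ B2, H2 z ∈ A2 ∧ p3 (H2 z) ∈ N ∧ G2 (H2 z) = C.R z
  /-- compatibility of the two charts -/
  inter : ∀ z ∈ A1, (z ∈ A2 ↔ ‖p2 (G1 z)‖ < ‖p1 (G1 z)‖ / 2)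
  compat : ∀ z ∈ A1 ∩ A2, G2 z = tt15 l (G1 z)
  inter2 : ∀ z ∈ A2, p2 (G2 z) ≠ 0 → z ∈ A1
  /-- the image contains `{10^(-5) / 2 < rad² < 2 * 10^5} × N` -/
  surj1 : ∀ z, 1 / (2 * 10 ^ 5) < gS z → gS z < 2 * 10 ^ 5 → p3 z ∈ C.O → p2 z ≠ 0 → z ∈ B1
  surj2 : ∀ z, 1 / (2 * 10 ^ 5) < gS z → gS z < 2 * 10 ^ 5 → p3 z ∈ C.O →
    ‖p2 z‖ < ‖p1 z‖ / 2 → z ∈ B2
  close1 : ∀ z ∈ A1, (1 - ε) * gS z < gS (G1 z) ∧ gS (G1 z) < (1 + ε) * gS z ∧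
    dist (p3 (G1 z)) (C.rho (p3 z)) < ε
  close2 : ∀ z ∈ A2, (1 - ε) * gS z < gS (G2 z) ∧ gS (G2 z) < (1 + ε) * gS z ∧
    dist (p3 (G2 z)) (C.rho (p3 z)) < ε

end Pool.Agent.EXO
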