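import Mathlib
import Pool.Agent.EXO.ChFA
import Pool.Agent.EXO.DefG
import Pool.Agent.EXO.CsId

/-!
# EXO / ChDef: common definitions of CHN
-/

set_option autoImplicit false
set_option maxSynthPendingDepth 3
set_option linter.unusedSectionVars false

open Set MeasureTheory Matrix
open scoped ContDiff

namespace Pool.Agent.EXO.CH

variable {m k : ℕ}

/-! ## Matrices of forms -/

/-- The entrywise exterior derivative. -/
noncomputable def DM {a b : Type} (X : En m → Matrix a b (FA m)) (x : En m) :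
    Matrix a b (FA m) := Matrix.of fun i j => dF (fun y => X y i j) x

/-- The entrywise pull back. -/
noncomputable def pbM {a b : Type} (F : En k → En m) (X : En m → Matrix a b (FA m)) (x : En k) :
    Matrix a b (FA k) := mapM (fderiv ℝ F x) (X (F x))

/-- A matrix function has smooth entries on `U`. -/
def SmM {a b : Type} {E : Type} [NormedAddCommGroup E] [NormedSpace ℝ E] (U : Set (En m))
    (X : En m → Matrix a b E) : Prop := ∀ i j, ContDiffOn ℝ ∞ (fun x => X x i j) U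

/-- A smooth frame `J` of a subbundle over `U` with a left inverse `L`. -/
structure Frame {m : ℕ} (U : Set (En m)) (a b : Type) [Fintype a] [Fintype b]
    [DecidableEq b] where
  J : En m → Matrix a b ℝ
  L : En m → Matrix b a ℝ
  smoothJ : SmM U J
  smoothL : SmM U L
  LJ : ∀ x ∈ U, L x * J x = 1

namespace Frame

variable {U : Set (En m)} {a b : Type} [Fintype a] [Fintype b] [DecidableEq b]

/-- The connection form `L dJ`. -/
noncomputable def fA (F : Frame U a b) (x : En m) : Matrix b b (FA m) :=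
  rM (m := m) (F.L x) * DM (fun y => rM (m := m) (F.J y)) x

/-- `d (L dJ)`. -/
noncomputable def fB (F : Frame U a b) (x : En m) : Matrix b b (FA m) := DM F.fA x

/-- The Chern-Simons form. -/
noncomputable def csF (F : Frame U a b) (x : En m) : FA m := GrC.cs (F.fA x) (F.fB x)

end Frame

/-- The form `h dg` of a function `g` with values in the matrices, `h = g⁻¹`. -/
noncomputable def thM {b : Type} [Fintype b] (g h : En m → Matrix b b ℝ) (x : En m) :
    Matrix b b (FA m) := rM (h x) * DM (fun y => rM (g y)) x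

/-- The Jacobian matrix. -/
noncomputable def jac {m k : ℕ} (F : En m → En k) (x : En m) : Matrix (Fin k) (Fin m) ℝ :=
  fun i j => fderiv ℝ F x (bv j) i

/-! ## The transition maps, the three-form `τ₀` and the four-form `aF` -/

/-- The transition from `K` to `H₁`. -/
noncomputable def T1 (l : ℝ) (z : En 15) : En 15 :=
  j15 (ivn (p1 z)) (tw l (p1 z) (p2 z)) (p3 z)

/-- The transition from `K` to `H₂`. -/
noncomputable def T2 (l : ℝ) (z : En 15) : En 15 :=
  j15 (tw l (p2 z) (p1 z)) (ivn (p2 z)) (p3 z)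

/-- The inverse of `T1`. -/
noncomputable def T1i (l : ℝ) (z : En 15) : En 15 :=
  j15 (ivn (p1 z)) (rot4 (star (tha4 l (p1 z))) (p2 z)) (p3 z)

/-- The exchange of the first two components. -/
noncomputable def sw (z : En 15) : En 15 := j15 (p2 z) (p1 z) (p3 z)

/-- The matrix function `A(x)` of the twisting map. -/
noncomputable def twM (l : ℝ) (x : En 4) : Matrix (Fin 4) (Fin 4) ℝ :=
  fun i j => tw l x (bv j) i

/-- The ratio `x_v / x_0`. -/
noncomputable def uq (x : En 4) : En 3 := (x 0)⁻¹ • vec4 x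

/-- `α(t) = cos ψ(√t)`. -/
noncomputable def alT (l t : ℝ) : ℝ := Real.cos (psi l (Real.sqrt t))

/-- `β(t) = sin ψ(√t) / √t`. -/
noncomputable def beT (l t : ℝ) : ℝ := Real.sin (psi l (Real.sqrt t)) / Real.sqrt t

/-- The coefficient of `τ₀`: `16 (-2 β α')(‖u‖²)`. -/
noncomputable def coT (l : ℝ) (u : En 3) : ℝ :=
  16 * (-2 * beT l (‖u‖ ^ 2) * deriv (alT l) (‖u‖ ^ 2))

/-- The closed three-form `-1/3 tr (A⁻¹ dA)³ = 16 (-2 β α') du₀ du₁ du₂`, `u = x_v / x_0`. -/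
noncomputable def tau0 (l : ℝ) (x : En 4) : FA 4 :=
  if 0 < x 0 then
    pbF uq (fun u : En 3 => (coT l u : ℂ) • (of1 (bv 0) * of1 (bv 1) * of1 (bv 2))) x
  else 0

/-- Cut-off: `0` for `‖x‖ ≤ 1`, `1` for `2 ≤ ‖x‖`. -/
noncomputable def ph {m : ℕ} (x : En m) : ℝ := stp ((‖x‖ ^ 2 - 1) / 3)

/-- `ph` in the inverted coordinate: `1` for `‖x‖ ≤ 1/2`, `0` for `1 ≤ ‖x‖`. -/
noncomputable def phi {m : ℕ} (x : En m) : ℝ := if x = 0 then 1 else ph (ivn x)

/-- The closed four-form `dφ ∧ τ₀`. -/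
noncomputable def aF (l : ℝ) (x : En 4) : FA 4 := dF (fun y : En 4 => rF (ph y)) x * tau0 l x

/-- The convex open set of the `x` which matter. -/
def YY : Set (En 4) := {x | 4 / 5 < x 0 ∧ ‖vec4 x‖ < x 0 / 2 ∧ ‖x‖ < 3}

/-- The volume form of `ℝ⁴`. -/
noncomputable def vol4 : FA 4 := of1 (bv 0) * of1 (bv 1) * of1 (bv 2) * of1 (bv 3)

/-- A bump function on `ℝ⁴` with support in the unit ball and integral one. -/
theorem exists_thB : ∃ f : En 4 → ℝ, ContDiff ℝ ∞ f ∧ (∀ y, 1 < ‖y‖ → f y = 0) ∧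
    ∫ y, f y = 1 := by
  let f : ContDiffBump (0 : En 4) := ⟨1 / 2, 1, by norm_num, by norm_num⟩
  refine ⟨f.normed volume, f.contDiff_normed, ?_, f.integral_normed⟩
  intro y hy
  have h : y ∉ Function.support (f.normed volume) := by
    rw [f.support_normed_eq]
    simp only [Metric.mem_ball, dist_zero_right, not_lt]
    exact hy.le
  exact Function.notMem_support.1 h

/-- The bump function. -/
noncomputable def thB : En 4 → ℝ := exists_thB.choose

theorem contDiff_thB : ContDiff ℝ ∞ thB := exists_thB.choose_spec.1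

theorem thB_zero {y : En 4} (h : 1 < ‖y‖) : thB y = 0 := exists_thB.choose_spec.2.1 y h

theorem integral_thB : ∫ y, thB y = 1 := exists_thB.choose_spec.2.2

/-- The four-form `θ`. -/
noncomputable def thF (y : En 4) : FA 4 := (thB y : ℂ) • vol4

/-- The constant `∫ aF = -32 π²`. -/
noncomputable def cC : ℂ := -(32 * (Real.pi : ℂ) ^ 2)

/-! ## Pieces -/

/-- A good function of the first two components. -/
structure GoodG (g : En 15 → ℝ) : Prop where
  cont : Continuous g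
  inv : ∀ z z', p1 z = p1 z' → p2 z = p2 z' → g z = g z'

/-- The frame of the piece `X`: the derivative of `(Ψ, sc)`. -/
noncomputable def jacP {N : Set (En 7)} {C : Collar N} {M : ℕ} {V : Set (En M)} {g : En 15 → ℝ}
    (X : VPiece C V g) (z : En 15) : Matrix (Fin M ⊕ Unit) (Fin 15) ℝ :=
  Matrix.of fun i j => Sum.elim (fun i => fderiv ℝ X.Ψ z (bv j) i)
    (fun _ => fderiv ℝ (fun z => C.sc (p3 z)) z (bv j)) i

/-- The left inverse of the frame. -/
noncomputable def jacL {N : Set (En 7)} {C : Collar N} {M : ℕ} {V : Set (En M)} {g : En 15 → ℝ}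
    (X : VPiece C V g) (z : En 15) : Matrix (Fin 15) (Fin M ⊕ Unit) ℝ :=
  ((jacP X z)ᵀ * jacP X z)⁻¹ * (jacP X z)ᵀ

/-! ## The part of the data used in CHN, symmetric under the exchange of `x` and `y` -/

/-- The part of the data of the closed manifold used in CHN. -/
structure WD (N : OrGeo 6 7) (C : Collar N.carrier) (l : ℝ) where
  M : ℕ
  V : OrGeo 14 M
  r : En M → En 7
  smooth_r : ContDiff ℝ ∞ r
  r_maps : ∀ v ∈ V.carrier, r v ∈ N.carrier
  K : VPiece C V.carrier gK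
  H1 : VPiece C V.carrier g1
  H2 : VPiece C V.carrier g2
  trK1 : ∀ z ∈ dom gK N.carrier 20000, p1 z ≠ 0 →
    K.Ψ z = H1.Ψ (j15 (ivn (p1 z)) (tw l (p1 z) (p2 z)) (p3 z))
  trK2 : ∀ z ∈ dom gK N.carrier 20000, p2 z ≠ 0 →
    K.Ψ z = H2.Ψ (j15 (tw l (p2 z) (p1 z)) (ivn (p2 z)) (p3 z))
  notK1 : ∀ z ∈ dom gK N.carrier 20000, p1 z = 0 → K.Ψ z ∉ H1.O
  notK2 : ∀ z ∈ dom gK N.carrier 20000, p2 z = 0 → K.Ψ z ∉ H2.O
  not1K : ∀ z ∈ dom g1 N.carrier 20000, p1 z = 0 → H1.Ψ z ∉ K.O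
  not2K : ∀ z ∈ dom g2 N.carrier 20000, p2 z = 0 → H2.Ψ z ∉ K.O
  inter12 : ∀ v ∈ V.carrier, v ∈ H1.O → v ∈ H2.O → v ∈ K.O
  rK : ∀ z ∈ dom gK N.carrier 20000, r (K.Ψ z) = p3 z
  Core : Set (En M)
  cover : ∀ v ∈ V.carrier, v ∈ Core ∨
    (∃ z, gK z ≤ 1 / 3 ∧ p3 z ∈ N.carrier ∧ v = K.Ψ z) ∨
    (∃ z, g1 z ≤ 1 / 3 ∧ p3 z ∈ N.carrier ∧ v = H1.Ψ z) ∨
    (∃ z, g2 z ≤ 1 / 3 ∧ p3 z ∈ N.carrier ∧ v = H2.Ψ z)

/-- The `WD` of a `VData`. -/
def toWD {N : OrGeo 6 7} {C : Collar N.carrier} {l δ : ℝ} (𝒱 : VData N C l δ) :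
    WD N C l where
  M := 𝒱.M
  V := 𝒱.V
  r := 𝒱.r
  smooth_r := 𝒱.smooth_r
  r_maps := 𝒱.r_maps
  K := 𝒱.K
  H1 := 𝒱.H1
  H2 := 𝒱.H2
  trK1 := 𝒱.trK1
  trK2 := 𝒱.trK2
  notK1 := 𝒱.notK1
  notK2 := 𝒱.notK2
  not1K := 𝒱.not1K
  not2K := 𝒱.not2K
  inter12 := 𝒱.inter12
  rK := 𝒱.rK
  Core := {v | ∃ z, gS z ≤ 10 ∧ p3 z ∈ N.carrier ∧ v = 𝒱.S.Ψ z}
  cover := 𝒱.cover

/-- The forms: `α' = sF 2 - dF b` vanishes on the core, `w = r^* om`. -/
structure FD {N : OrGeo 6 7} {C : Collar N.carrier} {l : ℝ} (W : WD N C l) where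
  b : En W.M → FA W.M
  om : En 7 → FA 7
  smooth_b : ContDiff ℝ ∞ b
  deg_b : ∀ v, (b v).IsDeg 3
  smooth_om : ContDiff ℝ ∞ om
  deg_om : ∀ x, (om x).IsDeg 6
  core : ∀ v ∈ W.Core, v ∈ W.V.carrier →
    FAMap (W.V.P v) (W.V.sF 2 v - dF b v) = 0

namespace FD

variable {N : OrGeo 6 7} {C : Collar N.carrier} {l : ℝ} {W : WD N C l}

/-- The form `α' = sF 2 - dF b`. -/
noncomputable def al (D : FD W) (v : En W.M) : FA W.M := W.V.sF 2 v - dF D.b v

/-- The form `w = r^* om`. -/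
noncomputable def w (D : FD W) : En W.M → FA W.M := pbF W.r D.om

/-- The form `γ = α' w`. -/
noncomputable def ga (D : FD W) (v : En W.M) : FA W.M := D.al v * D.w v

end FD

end Pool.Agent.EXO.CH
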