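import Mathlib
import Pool.Agent.EXO.FmFA

/-!
# EXO / FmFAd: calculus of functions with values in the ring `FA m`

Smoothness of products and of `FAMap`, Leibniz rule, `dF (dF u) = 0`, naturality, adjoints and inner
products of decomposable forms, rank.
-/

set_option autoImplicit false
set_option maxSynthPendingDepth 3

namespace Pool.Agent.EXO

open Finset
open scoped ContDiff

variable {m k l : ℕ} {κ : Type} [Fintype κ]

/-- The product as a bilinear map. -/
noncomputable def mulB (m : ℕ) : FA m →L[ℂ] FA m →L[ℂ] FA m :=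
  LinearMap.toContinuousLinearMap
    { toFun := fun x => LinearMap.toContinuousLinearMap
        { toFun := fun y => x * y
          map_add' := fun y z => mul_add x y z
          map_smul' := fun r y => mul_smul_comm r x y }
      map_add' := fun x y => by
        ext1 z
        exact add_mul x y z
      map_smul' := fun r x => by
        ext1 z
        exact smul_mul_assoc r x z }

theorem mulB_apply (x y : FA m) : mulB m x y = x * y := rfl

/-- The product as a real bilinear map. -/
noncomputable def mulBR (m : ℕ) : FA m →L[ℝ] FA m →L[ℝ] FA m :=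
  (ContinuousLinearMap.restrictScalarsL ℂ (FA m) (FA m) ℝ ℝ).comp ((mulB m).restrictScalars ℝ)

theorem mulBR_apply (x y : FA m) : mulBR m x y = x * y := rfl

theorem contDiff_mulFA {n : WithTop ℕ∞} : ContDiff ℝ n fun p : FA m × FA m => p.1 * p.2 := by
  have h : ContDiff ℝ n fun p : FA m × FA m => mulBR m p.1 p.2 :=
    (mulBR m).isBoundedBilinearMap.contDiff
  simpa only [mulBR_apply] using h

section

variable {E : Type*} [NormedAddCommGroup E] [NormedSpace ℝ E] {n : WithTop ℕ∞}
  {u v : E → FA m} {x : E} {s : Set E}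

theorem contDiff_mulFA' (hu : ContDiff ℝ n u) (hv : ContDiff ℝ n v) :
    ContDiff ℝ n fun y => u y * v y := by
  have h : ContDiff ℝ n fun y => mulBR m (u y) (v y) := ((mulBR m).contDiff.comp hu).clm_apply hv
  simpa only [mulBR_apply] using h

theorem contDiffAt_mulFA (hu : ContDiffAt ℝ n u x) (hv : ContDiffAt ℝ n v x) :
    ContDiffAt ℝ n (fun y => u y * v y) x := by
  have h1 : ContDiffAt ℝ n (fun y => mulBR m (u y)) x := (mulBR m).contDiff.contDiffAt.comp x hu
  have h : ContDiffAt ℝ n (fun y => mulBR m (u y) (v y)) x := h1.clm_apply hv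
  simpa only [mulBR_apply] using h

theorem contDiffOn_mulFA (hu : ContDiffOn ℝ n u s) (hv : ContDiffOn ℝ n v s) :
    ContDiffOn ℝ n (fun y => u y * v y) s := by
  have h1 : ContDiffOn ℝ n (fun y => mulBR m (u y)) s := (mulBR m).contDiff.comp_contDiffOn hu
  have h : ContDiffOn ℝ n (fun y => mulBR m (u y) (v y)) s := h1.clm_apply hv
  simpa only [mulBR_apply] using h

theorem contDiff_powFA (hu : ContDiff ℝ n u) (j : ℕ) : ContDiff ℝ n fun y => u y ^ j := by
  induction j with
  | zero => simpa using contDiff_const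
  | succ j ih =>
    simp only [pow_succ]
    exact contDiff_mulFA' ih hu

theorem contDiff_list_prodFA {α : Type*} (f : α → E → FA m) (L : List α)
    (hf : ∀ a, ContDiff ℝ n (f a)) : ContDiff ℝ n (fun x => (L.map (fun a => f a x)).prod) := by
  induction L with
  | nil => simpa using contDiff_const
  | cons a L ih =>
    simp only [List.map_cons, List.prod_cons]
    exact contDiff_mulFA' (hf a) ih

theorem hasFDerivAt_mulFA (hu : DifferentiableAt ℝ u x) (hv : DifferentiableAt ℝ v x) (w : E) :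
    fderiv ℝ (fun y => u y * v y) x w = fderiv ℝ u x w * v x + u x * fderiv ℝ v x w ∧
      DifferentiableAt ℝ (fun y => u y * v y) x := by
  have h1 := ((mulBR m).isBoundedBilinearMap.hasFDerivAt (u x, v x)).comp x
    (hu.hasFDerivAt.prodMk hv.hasFDerivAt)
  have h2 : HasFDerivAt (fun y => u y * v y) _ x := h1
  refine ⟨?_, h2.differentiableAt⟩
  rw [h2.fderiv, add_comm]
  rfl

end

/-! ## The exterior derivative -/

theorem dF_eq (u : En m → FA m) (x : En m) : dF u x = ∑ a, dx a * fderiv ℝ u x (bv a) := by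
  unfold dF
  exact sum_congr rfl fun a _ => by rw [of1_bv]

theorem dL_eq_dd (u : En m → HF m κ) (x : En m) : dL u x = dd u x := rfl

theorem pbL_eq_pull (F : En k → En m) (u : En m → HF m κ) (x : En k) : pbL F u x = pull F u x := rfl

theorem toH_dF {u : En m → FA m} {x : En m} (hu : DifferentiableAt ℝ u x) :
    toH (dF u x) = dL (fun y => toH (u y)) x := by
  rw [dF_eq, map_sum]
  unfold dL
  refine sum_congr rfl fun a _ => ?_
  have h : fderiv ℝ (fun y => toH (u y)) x =
      (((toHL m : FA m →L[ℂ] HF m Unit)).restrictScalars ℝ).comp (fderiv ℝ u x) :=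
    ((((toHL m : FA m →L[ℂ] HF m Unit)).restrictScalars ℝ).hasFDerivAt.comp x
      hu.hasFDerivAt).fderiv
  rw [toH_dx_mul, h]
  rfl

theorem dF_add {u v : En m → FA m} {x : En m} (hu : DifferentiableAt ℝ u x)
    (hv : DifferentiableAt ℝ v x) : dF (fun y => u y + v y) x = dF u x + dF v x := by
  rw [dF_eq, dF_eq, dF_eq, ← Finset.sum_add_distrib, fderiv_fun_add hu hv]
  exact sum_congr rfl fun a _ => by rw [_root_.add_apply, mul_add]

theorem dF_smul (c : ℂ) {u : En m → FA m} {x : En m} (hu : DifferentiableAt ℝ u x) :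
    dF (fun y => c • u y) x = c • dF u x := by
  have h : fderiv ℝ (fun y => c • u y) x = c • fderiv ℝ u x := fderiv_fun_const_smul hu c
  rw [dF_eq, dF_eq, h, Finset.smul_sum]
  exact sum_congr rfl fun a _ => by rw [_root_.smul_apply, mul_smul_comm]

theorem dF_neg {u : En m → FA m} {x : En m} : dF (fun y => - u y) x = - dF u x := by
  have h : fderiv ℝ (fun y => - u y) x = - fderiv ℝ u x := fderiv_fun_neg
  rw [dF_eq, dF_eq, h, ← Finset.sum_neg_distrib]
  exact sum_congr rfl fun a _ => by rw [_root_.neg_apply, mul_neg]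

theorem dF_sub {u v : En m → FA m} {x : En m} (hu : DifferentiableAt ℝ u x)
    (hv : DifferentiableAt ℝ v x) : dF (fun y => u y - v y) x = dF u x - dF v x := by
  have h := dF_add hu (v := fun y => - v y) hv.neg
  rw [dF_neg] at h
  simpa only [sub_eq_add_neg] using h

theorem dF_const (c : FA m) (x : En m) : dF (fun _ => c) x = 0 := by
  rw [dF_eq]
  refine sum_eq_zero fun a _ => ?_
  simp

theorem dF_sum {α : Type*} (s : Finset α) {f : α → En m → FA m} {x : En m}
    (hf : ∀ i ∈ s, DifferentiableAt ℝ (f i) x) :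
    dF (fun y => ∑ i ∈ s, f i y) x = ∑ i ∈ s, dF (f i) x := by
  simp only [dF_eq]
  rw [Finset.sum_comm, fderiv_fun_sum hf]
  exact sum_congr rfl fun a _ => by rw [_root_.sum_apply, Finset.mul_sum]

theorem dF_congr {u v : En m → FA m} {x : En m} (h : u =ᶠ[nhds x] v) : dF u x = dF v x := by
  unfold dF
  rw [h.fderiv_eq]

/-- The Leibniz rule. -/
theorem dF_mul {u v : En m → FA m} {x : En m} (hu : DifferentiableAt ℝ u x)
    (hv : DifferentiableAt ℝ v x) :
    dF (fun y => u y * v y) x = dF u x * v x + par (u x) * dF v x := by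
  rw [dF_eq, dF_eq, dF_eq, Finset.sum_mul, Finset.mul_sum, ← Finset.sum_add_distrib]
  refine sum_congr rfl fun a _ => ?_
  rw [(hasFDerivAt_mulFA hu hv (bv a)).1, mul_add, ← mul_assoc, ← mul_assoc, dx_mul a (u x),
    mul_assoc (par (u x))]

theorem contDiffAt_toH {u : En m → FA m} {x : En m} {n : WithTop ℕ∞} (hu : ContDiffAt ℝ n u x) :
    ContDiffAt ℝ n (fun y => toH (u y)) x :=
  ((((toHL m : FA m →L[ℂ] HF m Unit)).restrictScalars ℝ).contDiff.contDiffAt).comp x hu

theorem differentiableAt_toH {u : En m → FA m} {x : En m} (hu : DifferentiableAt ℝ u x) :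
    DifferentiableAt ℝ (fun y => toH (u y)) x :=
  ((((toHL m : FA m →L[ℂ] HF m Unit)).restrictScalars ℝ).differentiableAt).comp x hu

theorem contDiffAt_dF {u : En m → FA m} {x : En m} {n p : WithTop ℕ∞} (hu : ContDiffAt ℝ n u x)
    (hp : p + 1 ≤ n) : ContDiffAt ℝ p (dF u) x := by
  have h1 : dF u = fun x => ∑ a, dx a * fderiv ℝ u x (bv a) := funext fun x => dF_eq u x
  rw [h1]
  refine ContDiffAt.sum fun a _ => ?_
  exact contDiffAt_mulFA contDiffAt_const
    ((hu.fderiv_right hp).clm_apply contDiffAt_const)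

theorem contDiff_dF {u : En m → FA m} (hu : ContDiff ℝ ∞ u) : ContDiff ℝ ∞ (dF u) :=
  contDiff_iff_contDiffAt.2 fun x => contDiffAt_dF hu.contDiffAt (by simp)

theorem contDiffOn_dF {u : En m → FA m} {D : Set (En m)} (hD : IsOpen D)
    (hu : ContDiffOn ℝ ∞ u D) : ContDiffOn ℝ ∞ (dF u) D := fun x hx =>
  (contDiffAt_dF (hu.contDiffAt (hD.mem_nhds hx)) (by simp)).contDiffWithinAt

theorem dF_dF {u : En m → FA m} {x : En m} (hu : ContDiffAt ℝ 2 u x) : dF (dF u) x = 0 := by
  have h1 : DifferentiableAt ℝ (dF u) x :=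
    (contDiffAt_dF (p := 1) hu (by norm_num)).differentiableAt (by norm_num)
  have h2 : (fun y => toH (dF u y)) =ᶠ[nhds x] dd fun y => toH (u y) := by
    have h3 : ∀ᶠ y in nhds x, ContDiffAt ℝ 2 u y := hu.eventually (by norm_num)
    filter_upwards [h3] with y hy
    exact toH_dF (hy.differentiableAt (by norm_num))
  apply toH.injective
  rw [toH_dF h1, dL_eq_dd, map_zero]
  unfold dd
  rw [h2.fderiv_eq]
  exact dd_dd (contDiffAt_toH hu)

theorem toH_pbF (F : En k → En m) (u : En m → FA m) (x : En k) :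
    toH (pbF F u x) = pbL F (fun y => toH (u y)) x := toH_FAMap _ _

theorem pbF_add (F : En k → En m) (u v : En m → FA m) (x : En k) :
    pbF F (fun y => u y + v y) x = pbF F u x + pbF F v x := FAMap_add _ _ _

theorem pbF_smul (F : En k → En m) (c : ℂ) (u : En m → FA m) (x : En k) :
    pbF F (fun y => c • u y) x = c • pbF F u x := FAMap_smul _ _ _

theorem pbF_mul (F : En k → En m) (u v : En m → FA m) (x : En k) :
    pbF F (fun y => u y * v y) x = pbF F u x * pbF F v x := FAMap_mul _ _ _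

theorem pbF_comp {F : En k → En m} {G : En l → En k} {u : En m → FA m} {x : En l}
    (hF : DifferentiableAt ℝ F (G x)) (hG : DifferentiableAt ℝ G x) :
    pbF G (pbF F u) x = pbF (F ∘ G) u x := by
  unfold pbF
  rw [fderiv_comp x hF hG, FAMap_comp]
  rfl

/-! ## Smoothness of the pullback -/

/-- The adjoint as a continuous real linear map. -/
noncomputable def adjL (k m : ℕ) : (En k →L[ℝ] En m) →L[ℝ] (En m →L[ℝ] En k) :=
  ((ContinuousLinearMap.adjoint (𝕜 := ℝ) (E := En k) (F := En m)).toContinuousLinearEquiv :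
    (En k →L[ℝ] En m) ≃L[ℝ] (En m →L[ℝ] En k)).toContinuousLinearMap

theorem adjL_apply (L : En k →L[ℝ] En m) : adjL k m L = ContinuousLinearMap.adjoint L := rfl

section

variable {E : Type*} [NormedAddCommGroup E] [NormedSpace ℝ E] {n : WithTop ℕ∞}
  {x : E} {κ' : Type*} [Fintype κ']

theorem contDiffAt_Lam {A : E → (RE m →L[ℝ] RE k)} {w : E → HF m κ'} (hA : ContDiffAt ℝ n A x)
    (hw : ContDiffAt ℝ n w x) : ContDiffAt ℝ n (fun y => (Lam (A y) (w y) : HF k κ')) x := by
  have h0 : ContDiffAt ℝ n (fun y => (Lam (A y) : HF m κ' →L[ℂ] HF k κ')) x :=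
    (contDiff_Lam (m := m) (k := k) (κ := κ') (n := n)).contDiffAt.comp x hA
  have h1 : ContDiffAt ℝ n (fun y => evB m k κ' (Lam (A y))) x :=
    (evB m k κ').contDiff.contDiffAt.comp x h0
  exact h1.clm_apply hw

theorem contDiffAt_LamAdj {A : E → (RE m →L[ℝ] RE k)} {w : E → HF k κ'}
    (hA : ContDiffAt ℝ n A x) (hw : ContDiffAt ℝ n w x) :
    ContDiffAt ℝ n (fun y => (Lam (ContinuousLinearMap.adjoint (A y)) (w y) : HF m κ')) x := by
  have h0 : ContDiffAt ℝ n (fun y => ContinuousLinearMap.adjoint (A y)) x :=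
    (adjL m k).contDiff.contDiffAt.comp x hA
  exact contDiffAt_Lam h0 hw

theorem contDiffAt_FAMap {A : E → (En k →L[ℝ] En m)} {w : E → FA m}
    (hA : ContDiffAt ℝ n A x) (hw : ContDiffAt ℝ n w x) :
    ContDiffAt ℝ n (fun y => FAMap (A y) (w y)) x := by
  have h1 : (fun y => FAMap (A y) (w y)) = fun y =>
      (((toHL k).symm : HF k Unit →L[ℂ] FA k).restrictScalars ℝ)
        (Lam (ContinuousLinearMap.adjoint (A y)) (toHL m (w y))) := by
    funext y
    apply toH.injective
    rw [toH_FAMap]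
    rfl
  rw [h1]
  have h2 : ContDiffAt ℝ n (fun y => toHL m (w y)) x :=
    ((((toHL m : FA m →L[ℂ] HF m Unit)).restrictScalars ℝ).contDiff.contDiffAt).comp x hw
  exact (((toHL k).symm : HF k Unit →L[ℂ] FA k).restrictScalars ℝ).contDiff.contDiffAt.comp x
    (contDiffAt_LamAdj hA h2)

end

theorem contDiff_FAMap {n : WithTop ℕ∞} :
    ContDiff ℝ n fun p : (En k →L[ℝ] En m) × FA m => FAMap p.1 p.2 :=
  contDiff_iff_contDiffAt.2 fun _ => contDiffAt_FAMap contDiffAt_fst contDiffAt_snd

theorem contDiffAt_pbF {F : En k → En m} {u : En m → FA m} {x : En k} {n p : WithTop ℕ∞}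
    (hF : ContDiffAt ℝ n F x) (hp : p + 1 ≤ n) (hu : ContDiffAt ℝ p u (F x)) :
    ContDiffAt ℝ p (pbF F u) x := by
  have h3 : ContDiffAt ℝ p (fun y => u (F y)) x :=
    hu.comp x (hF.of_le (le_self_add.trans hp))
  exact contDiffAt_FAMap (hF.fderiv_right hp) h3

theorem contDiffOn_pbF {F : En k → En m} {u : En m → FA m} {D : Set (En k)} {D' : Set (En m)}
    (hD : IsOpen D) (hD' : IsOpen D') (hF : ContDiffOn ℝ ∞ F D) (hu : ContDiffOn ℝ ∞ u D')
    (h : ∀ x ∈ D, F x ∈ D') : ContDiffOn ℝ ∞ (pbF F u) D := fun x hx =>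
  (contDiffAt_pbF (hF.contDiffAt (hD.mem_nhds hx)) (by simp)
    (hu.contDiffAt (hD'.mem_nhds (h x hx)))).contDiffWithinAt

theorem fm_contDiffAt_pull {κ' : Type*} [Fintype κ'] {F : RE k → RE m} {u : RE m → HF m κ'}
    {x : RE k} {n p : WithTop ℕ∞}
    (hF : ContDiffAt ℝ n F x) (hp : p + 1 ≤ n) (hu : ContDiffAt ℝ p u (F x)) :
    ContDiffAt ℝ p (pull F u) x := by
  have h3 : ContDiffAt ℝ p (fun y => u (F y)) x :=
    hu.comp x (hF.of_le (le_self_add.trans hp))
  exact contDiffAt_LamAdj (hF.fderiv_right hp) h3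

theorem fm_contDiffOn_pull {κ' : Type*} [Fintype κ'] {F : RE k → RE m} {u : RE m → HF m κ'}
    {D : Set (RE k)} {D' : Set (RE m)}
    (hD : IsOpen D) (hD' : IsOpen D') (hF : ContDiffOn ℝ ∞ F D) (hu : ContDiffOn ℝ ∞ u D')
    (h : ∀ x ∈ D, F x ∈ D') : ContDiffOn ℝ ∞ (pull F u) D := fun x hx =>
  (fm_contDiffAt_pull (hF.contDiffAt (hD.mem_nhds hx)) (by simp)
    (hu.contDiffAt (hD'.mem_nhds (h x hx)))).contDiffWithinAt

theorem differentiableAt_pbF {F : En k → En m} {u : En m → FA m} {x : En k}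
    (hF : ContDiffAt ℝ 2 F x) (hu : DifferentiableAt ℝ u (F x)) :
    DifferentiableAt ℝ (pbF F u) x := by
  have h1 : pbF F u = fun y => (((toHL k).symm : HF k Unit →L[ℂ] FA k).restrictScalars ℝ)
      (pull F (fun z => toH (u z)) y) := by
    funext y
    apply toH.injective
    rw [toH_pbF]
    rfl
  rw [h1]
  exact (((toHL k).symm : HF k Unit →L[ℂ] FA k).restrictScalars ℝ).differentiableAt.comp x
    (hasFDerivAt_pull hF (differentiableAt_toH hu) 0).2

theorem dF_pbF {F : En k → En m} {u : En m → FA m} {x : En k} (hF : ContDiffAt ℝ 2 F x)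
    (hu : DifferentiableAt ℝ u (F x)) : dF (pbF F u) x = pbF F (dF u) x := by
  have hu' := differentiableAt_pbF hF hu
  apply toH.injective
  have h2 : (fun y => toH (pbF F u y)) = pull F fun y => toH (u y) := funext fun y => toH_pbF F u y
  rw [toH_dF hu', toH_pbF, h2, dL_eq_dd, dd_pull hF (differentiableAt_toH hu)]
  change Lam _ (dd (fun y => toH (u y)) (F x)) = Lam _ (toH (dF u (F x)))
  rw [toH_dF hu, dL_eq_dd]

/-! ## Inner products -/

theorem inner_toH (x y : FA m) : inner ℂ (toH x) (toH y) = inner ℂ x y := by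
  have h1 : inner ℂ (toH x) (toH y) = ∑ p : Finset (Fin m) × Unit,
      inner ℂ (x.co p.1) (y.co p.1) := rfl
  have h2 : inner ℂ x y = ∑ S : Finset (Fin m), inner ℂ (x.co S) (y.co S) := rfl
  rw [h1, h2, Fintype.sum_prod_type]
  exact sum_congr rfl fun S _ => by simp

theorem inner_FAMap (L : En k →L[ℝ] En m) (x : FA m) (y : FA k) :
    inner ℂ (FAMap L x) y = inner ℂ x (FAMap (ContinuousLinearMap.adjoint L) y) := by
  rw [← inner_toH, ← inner_toH, toH_FAMap, toH_FAMap]
  unfold LamMap
  rw [ContinuousLinearMap.adjoint_adjoint, ← adjoint_Lam L,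
    ContinuousLinearMap.adjoint_inner_left]

/-- Pulling back by the adjoint of an isometry preserves inner products. -/
theorem inner_FAMap_adjoint (U : En k →L[ℝ] En m)
    (hU : (ContinuousLinearMap.adjoint U).comp U = ContinuousLinearMap.id ℝ (En k))
    (x y : FA k) : inner ℂ (FAMap (ContinuousLinearMap.adjoint U) x)
      (FAMap (ContinuousLinearMap.adjoint U) y) = inner ℂ x y := by
  rw [inner_FAMap, ContinuousLinearMap.adjoint_adjoint, ← FAMap_comp, hU, FAMap_id]

theorem inner_mon (S T : Finset (Fin m)) : inner ℂ (mon S) (mon T) = if S = T then 1 else 0 := by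
  have h2 : inner ℂ (mon S) (mon T) =
      ∑ R : Finset (Fin m), inner ℂ ((mon S).co R) ((mon T).co R) := rfl
  rw [h2, Finset.sum_eq_single S]
  · simp [mon_co]
  · intro R _ hR
    simp [mon_co, hR]
  · simp

theorem sort_univ_fin (n : ℕ) : (Finset.univ : Finset (Fin n)).sort (· ≤ ·) = List.finRange n :=
  Fin.sort_univ n

theorem mon_univ (n : ℕ) : (mon Finset.univ : FA n) = (List.ofFn fun i : Fin n => dx i).prod := by
  rw [← word_dx]
  unfold word
  rw [sort_univ_fin, List.ofFn_eq_map]

/-- The linear map with the given images of the basis vectors. -/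
noncomputable def ofVec (v : Fin k → En m) : En k →L[ℝ] En m :=
  LinearMap.toContinuousLinearMap
    { toFun := fun x => ∑ i, x i • v i
      map_add' := fun x y => by simp [add_smul, Finset.sum_add_distrib]
      map_smul' := fun r x => by simp [Finset.smul_sum, smul_smul] }

theorem ofVec_bv (v : Fin k → En m) (i : Fin k) : ofVec v (bv i) = v i := by
  change ∑ j, (bv i : En k) j • v j = v i
  rw [Finset.sum_eq_single i]
  · simp [bv]
  · intro j _ hj
    simp [bv, hj]
  · simp

theorem prod_of1_eq (v : Fin k → En m) : (List.ofFn fun i => of1 (v i)).prod =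
    FAMap (ContinuousLinearMap.adjoint (ofVec v)) (mon Finset.univ) := by
  rw [mon_univ, ← FAHom_apply, map_list_prod, List.map_ofFn]
  congr 2
  funext i
  change of1 (v i) = FAMap _ (dx i)
  rw [FAMap_dx, ContinuousLinearMap.adjoint_adjoint, ofVec_bv]

theorem adjoint_comp_ofVec {v : Fin k → En m} (hv : Orthonormal ℝ v) :
    (ContinuousLinearMap.adjoint (ofVec v)).comp (ofVec v) = ContinuousLinearMap.id ℝ (En k) := by
  have key : ∀ i j, inner ℝ (bv i : En k)
      (((ContinuousLinearMap.adjoint (ofVec v)).comp (ofVec v)) (bv j)) =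
      inner ℝ (bv i : En k) (bv j) := by
    intro i j
    rw [ContinuousLinearMap.comp_apply, ContinuousLinearMap.adjoint_inner_right, ofVec_bv,
      ofVec_bv, orthonormal_iff_ite.1 hv]
    simp [bv, EuclideanSpace.inner_single_left]
  ext1 x
  refine ext_inner_left ℝ fun w => ?_
  rw [epsv_sum_ee w, epsv_sum_ee x]
  simp only [sum_inner, inner_smul_left, map_sum, map_smul, inner_sum, inner_smul_right]
  refine sum_congr rfl fun i _ => ?_
  congr 1
  exact sum_congr rfl fun j _ => by rw [show (ee i : RE k) = bv i from rfl,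
    show (ee j : RE k) = bv j from rfl, key]; rfl

/-- Products of orthonormal one-forms have norm one. -/
theorem inner_prod_of1 {v : Fin k → En m} (hv : Orthonormal ℝ v) :
    inner ℂ (List.ofFn fun i => of1 (v i)).prod (List.ofFn fun i => of1 (v i)).prod = 1 := by
  rw [prod_of1_eq, inner_FAMap_adjoint _ (adjoint_comp_ofVec hv), inner_mon, if_pos rfl]

theorem isDeg_mon (S : Finset (Fin m)) : (mon S).IsDeg S.card := by
  intro I hI
  rw [mon_co, if_neg]
  rintro rfl
  exact hI rfl

theorem isDeg_prod_of1 (v : Fin k → En m) : ((List.ofFn fun i => of1 (v i)).prod).IsDeg k := by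
  have h := isDeg_mon (Finset.univ : Finset (Fin k))
  rw [card_univ, Fintype.card_fin] at h
  rw [prod_of1_eq]
  exact isDeg_FAMap h _

/-- A form of degree larger than the rank is killed. -/
theorem FAMap_rank {j r : ℕ} (L : En k →L[ℝ] En m) (A : En k →L[ℝ] En r) (B : En r →L[ℝ] En m)
    (h : L = B.comp A) (hj : r < j) {u : FA m} (hu : u.IsDeg j) : FAMap L u = 0 := by
  have h1 : FAMap B u = 0 := by
    rw [← isDeg_iff.1 (isDeg_FAMap hu B), dgF_eq_zero hj]
  rw [h, FAMap_comp, h1, FAMap_zero]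

theorem Lam_rank {κ' : Type*} [Fintype κ'] {j r : ℕ} (L : RE m →L[ℝ] RE k) (A : RE m →L[ℝ] RE r)
    (B : RE r →L[ℝ] RE k) (h : L = B.comp A) (hj : r < j) {u : HF m κ'} (hu : dg j u = u) :
    Lam L u = 0 := by
  have h1 : Lam A u = 0 := by
    rw [← hu, Lam_dg, dg_eq_zero hj]
  rw [h, Lam_comp_apply, h1, map_zero]

theorem exists_factor (L : RE m →L[ℝ] RE k) :
    ∃ (A : RE m →L[ℝ] RE (Module.finrank ℝ (LinearMap.range L.toLinearMap)))
      (B : RE (Module.finrank ℝ (LinearMap.range L.toLinearMap)) →L[ℝ] RE k), L = B.comp A := by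
  obtain ⟨f, hf⟩ : ∃ f : LinearMap.range L.toLinearMap →ₗ[ℝ]
      RE (Module.finrank ℝ (LinearMap.range L.toLinearMap)), Function.Injective f :=
    ⟨(LinearEquiv.ofFinrankEq _ _ (by simp)).toLinearMap, LinearEquiv.injective _⟩
  obtain ⟨g, hg⟩ := f.exists_leftInverse_of_injective (LinearMap.ker_eq_bot.2 hf)
  refine ⟨LinearMap.toContinuousLinearMap (f.comp L.toLinearMap.rangeRestrict),
    LinearMap.toContinuousLinearMap ((LinearMap.range L.toLinearMap).subtype.comp g), ?_⟩
  ext1 x
  have h2 := congrArg (fun T => T (L.toLinearMap.rangeRestrict x)) hg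
  have h3 : g (f (L.toLinearMap.rangeRestrict x)) = L.toLinearMap.rangeRestrict x := h2
  change L x = ((g (f (L.toLinearMap.rangeRestrict x)) : LinearMap.range L.toLinearMap) : RE k)
  rw [h3]
  rfl

theorem Lam_eq_zero_of_rank {κ' : Type*} [Fintype κ'] {j : ℕ} (L : RE m →L[ℝ] RE k)
    (hr : Module.finrank ℝ (LinearMap.range L.toLinearMap) < j) {u : HF m κ'} (hu : dg j u = u) :
    Lam L u = 0 := by
  obtain ⟨A, B, h⟩ := exists_factor L
  exact Lam_rank L A B h hr hu

end Pool.Agent.EXO
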