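import Mathlib
import Pool.Agent.EXO.ChFA
import Pool.Agent.EXO.DefG
import Pool.Agent.EXO.FmFAd

/-!
# EXO / ChNdA: calculus of scalar forms (bridge to FORMS, helper76)
-/

set_option autoImplicit false
set_option maxSynthPendingDepth 3

open Set MeasureTheory Matrix
open scoped ContDiff

namespace Pool.Agent.EXO.CH

variable {m k l : ℕ}

theorem contDiff_FAMap : ContDiff ℝ ∞ fun p : (En k →L[ℝ] En m) × FA m => FAMap p.1 p.2 :=
  Pool.Agent.EXO.contDiff_FAMap

theorem contDiff_mulFA : ContDiff ℝ ∞ fun p : FA m × FA m => p.1 * p.2 :=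
  Pool.Agent.EXO.contDiff_mulFA

/-- a form of degree larger than the rank is killed. -/
theorem FAMap_rank {j r : ℕ} (L : En k →L[ℝ] En m) (A : En k →L[ℝ] En r) (B : En r →L[ℝ] En m)
    (h : L = B.comp A) (hj : r < j) {u : FA m} (hu : u.IsDeg j) : FAMap L u = 0 :=
  Pool.Agent.EXO.FAMap_rank L A B h hj hu

/-! ## Exterior derivative and pull back -/

theorem dF_add {u v : En m → FA m} {x : En m} (hu : DifferentiableAt ℝ u x)
    (hv : DifferentiableAt ℝ v x) : dF (fun y => u y + v y) x = dF u x + dF v x :=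
  Pool.Agent.EXO.dF_add hu hv

theorem dF_smul (c : ℂ) {u : En m → FA m} {x : En m} (hu : DifferentiableAt ℝ u x) :
    dF (fun y => c • u y) x = c • dF u x := Pool.Agent.EXO.dF_smul c hu

theorem dF_mul {u v : En m → FA m} {x : En m} (hu : DifferentiableAt ℝ u x)
    (hv : DifferentiableAt ℝ v x) :
    dF (fun y => u y * v y) x = dF u x * v x + (faG m).σ (u x) * dF v x :=
  Pool.Agent.EXO.dF_mul hu hv

theorem dF_dF {u : En m → FA m} {x : En m} (hu : ContDiffAt ℝ 2 u x) : dF (dF u) x = 0 :=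
  Pool.Agent.EXO.dF_dF hu

theorem dF_pbF {F : En k → En m} {u : En m → FA m} {x : En k} (hF : ContDiffAt ℝ 2 F x)
    (hu : DifferentiableAt ℝ u (F x)) : dF (pbF F u) x = pbF F (dF u) x :=
  Pool.Agent.EXO.dF_pbF hF hu

theorem pbF_comp {F : En k → En m} {G : En l → En k} {u : En m → FA m} {x : En l}
    (hF : DifferentiableAt ℝ F (G x)) (hG : DifferentiableAt ℝ G x) :
    pbF G (pbF F u) x = pbF (F ∘ G) u x := Pool.Agent.EXO.pbF_comp hF hG

end Pool.Agent.EXO.CH
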