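import Mathlib
import Pool.Agent.EXO.ChNdA
import Pool.Agent.EXO.ChDef

/-!
# EXO / ChMatA: calculus of scalar forms (CHN)

Everything from `ChNdA` (`contDiff_FAMap`, `contDiff_mulFA`, `dF_add`, `dF_smul`, `dF_mul`, `dF_dF`, `dF_pbF`, `pbF_comp`),
`FmFA` (`FAMap_mul`, `isDeg_*`) and `ChFA` (`rF_*`, `FAMap_rF`, `deg_sub`, ...).

PROOFS.
* `deg_dF`: `dF u x = ∑ a, of1 (bv a) * fderiv ℝ u x (bv a)`; the derivative of a function with values in the (closed)
  linear subspace of the forms of degree `j` lies in it: for `I.card ≠ j` the function `y ↦ (u y).co I` vanishes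
  near `x`, `FA.co · I` is a continuous linear map (finite dimension: `LinearMap.toContinuousLinearMap`), so its
  derivative composed with `fderiv` is zero (if `u` is not differentiable at `x`, `fderiv = 0`); then
  `isDeg_sum`, `isDeg_mul (isDeg_of1 _)`, `1 + j = j + 1`.
* `deg_pbF`: `isDeg_FAMap`.
* `contDiff_rF`: `rF t = (t : ℂ) • 1` (`rF_eq`), `Complex.ofRealCLM.contDiff`.
* `dF_congr`: `Filter.EventuallyEq.fderiv_eq`.  `dF_zero_of`: `u` vanishes near `x`.
* `dF_rF_mul`: `dF_mul` and `σ (rF t) = rF t` (`σ_of_deg_even`, `deg_rF`).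
* `dF_mul_deg_even`, `dF_mul_deg_odd`: `dF_mul` with `σ_of_deg_even`, `σ_of_deg_odd`.
* `contDiffOn_dF`: `ContDiffOn.fderiv_of_isOpen`, `contDiff_mulFA`, sums.
* `contDiffOn_pbF`: `contDiff_FAMap` composed with `(fderiv ℝ F x, u (F x))`.
-/

set_option autoImplicit false
set_option maxSynthPendingDepth 3
set_option linter.unusedSectionVars false
set_option linter.unusedVariables false

open Set MeasureTheory Matrix
open scoped ContDiff

namespace Pool.Agent.EXO.CH

variable {m k l : ℕ}

/-- The coefficient as a real linear map. -/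
private noncomputable def coLr (I : Finset (Fin m)) : FA m →L[ℝ] ℂ :=
  ((EuclideanSpace.proj I : EuclideanSpace ℂ (Finset (Fin m)) →L[ℂ] ℂ).restrictScalars ℝ)

/-- If `u` has degree `j` near `x`, then `dF u x` has degree `j + 1`. -/
theorem deg_dF {j : ℕ} {u : En m → FA m} {x : En m} (h : ∀ᶠ y in nhds x, (u y).IsDeg j) :
    (dF u x).IsDeg (j + 1) := by
  have hD : ∀ v, (fderiv ℝ u x v).IsDeg j := by
    intro v I hI
    by_cases hd : DifferentiableAt ℝ u x
    · have h1 : HasFDerivAt (fun y => coLr I (u y)) ((coLr I).comp (fderiv ℝ u x)) x :=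
        (coLr I).hasFDerivAt.comp x hd.hasFDerivAt
      have h2 : (fun y => coLr I (u y)) =ᶠ[nhds x] fun _ => (0 : ℂ) :=
        h.mono fun y hy => hy I hI
      have h3 : HasFDerivAt (fun _ : En m => (0 : ℂ)) ((coLr I).comp (fderiv ℝ u x)) x :=
        h1.congr_of_eventuallyEq h2.symm
      have h4 := h3.unique (hasFDerivAt_const (0 : ℂ) x)
      exact congrArg (fun L : En m →L[ℝ] ℂ => L v) h4
    · rw [fderiv_zero_of_not_differentiableAt hd]
      rfl
  unfold dF
  apply isDeg_sum
  intro a _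
  rw [add_comm]
  exact isDeg_mul (isDeg_of1 _) (hD _)

theorem deg_pbF {j : ℕ} (F : En k → En m) (u : En m → FA m) (x : En k) (h : (u (F x)).IsDeg j) :
    (pbF F u x).IsDeg j := by
  exact isDeg_FAMap h _

theorem contDiff_rF : ContDiff ℝ ∞ fun t : ℝ => (rF t : FA m) := by
  have h : (fun t : ℝ => (rF t : FA m)) = fun t : ℝ => (t : ℂ) • (1 : FA m) :=
    funext fun t => rF_eq t
  rw [h]
  exact Complex.ofRealCLM.contDiff.smul contDiff_const

theorem pbF_rF (F : En k → En m) (f : En m → ℝ) (x : En k) :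
    pbF F (fun y => rF (f y)) x = rF (f (F x)) := by
  exact FAMap_rF _ _

theorem pbF_mul (F : En k → En m) (u v : En m → FA m) (x : En k) :
    pbF F (fun y => u y * v y) x = pbF F u x * pbF F v x := by
  exact FAMap_mul _ _ _

theorem pbF_add (F : En k → En m) (u v : En m → FA m) (x : En k) :
    pbF F (fun y => u y + v y) x = pbF F u x + pbF F v x := by
  exact FAMap_add _ _ _

theorem pbF_sub (F : En k → En m) (u v : En m → FA m) (x : En k) :
    pbF F (fun y => u y - v y) x = pbF F u x - pbF F v x := by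
  exact FAMap_sub _ _ _

theorem pbF_neg (F : En k → En m) (u : En m → FA m) (x : En k) :
    pbF F (fun y => -u y) x = -pbF F u x := by
  exact FAMap_neg _ _

theorem pbF_smul (F : En k → En m) (z : ℂ) (u : En m → FA m) (x : En k) :
    pbF F (fun y => z • u y) x = z • pbF F u x := by
  exact FAMap_smul _ _ _

/-- The pull back depends only on the map near the point and on the value of the form. -/
theorem pbF_congr {F G : En k → En m} {u v : En m → FA m} {x : En k} (h : F =ᶠ[nhds x] G)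
    (h' : u (F x) = v (F x)) : pbF F u x = pbF G v x := by
  unfold pbF
  rw [h.fderiv_eq, h', h.eq_of_nhds]

theorem dF_congr {u v : En m → FA m} {x : En m} (h : u =ᶠ[nhds x] v) : dF u x = dF v x := by
  unfold dF
  rw [h.fderiv_eq]

theorem dF_zero_of {u : En m → FA m} {x : En m} (h : ∀ᶠ y in nhds x, u y = 0) : dF u x = 0 := by
  have h1 : u =ᶠ[nhds x] fun _ => (0 : FA m) := h
  unfold dF
  rw [h1.fderiv_eq, fderiv_fun_const]
  simp

theorem dF_const (u : FA m) (x : En m) : dF (fun _ => u) x = 0 := by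
  unfold dF
  rw [fderiv_fun_const]
  simp

theorem dF_neg' {u : En m → FA m} {x : En m} (hu : DifferentiableAt ℝ u x) :
    dF (fun y => -u y) x = -dF u x := by
  unfold dF
  rw [fderiv_fun_neg, ← Finset.sum_neg_distrib]
  refine Finset.sum_congr rfl fun a _ => ?_
  rw [_root_.neg_apply]
  exact mul_neg _ _

theorem dF_sub' {u v : En m → FA m} {x : En m} (hu : DifferentiableAt ℝ u x)
    (hv : DifferentiableAt ℝ v x) : dF (fun y => u y - v y) x = dF u x - dF v x := by
  unfold dF
  rw [fderiv_fun_sub hu hv, ← Finset.sum_sub_distrib]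
  refine Finset.sum_congr rfl fun a _ => ?_
  rw [_root_.sub_apply]
  exact mul_sub _ _ _

theorem dF_sum {ι : Type} (s : Finset ι) (f : ι → En m → FA m) {x : En m}
    (h : ∀ i ∈ s, DifferentiableAt ℝ (f i) x) :
    dF (fun y => ∑ i ∈ s, f i y) x = ∑ i ∈ s, dF (f i) x := by
  classical
  induction s using Finset.induction_on with
  | empty =>
    simp only [Finset.sum_empty]
    exact dF_const 0 x
  | insert a s ha ih =>
    have h1 : (fun y => ∑ i ∈ insert a s, f i y) = fun y => f a y + ∑ i ∈ s, f i y := by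
      funext y
      rw [Finset.sum_insert ha]
    rw [h1, Finset.sum_insert ha, dF_add (h a (Finset.mem_insert_self a s))
      (DifferentiableAt.fun_sum fun i hi => h i (Finset.mem_insert_of_mem hi)),
      ih fun i hi => h i (Finset.mem_insert_of_mem hi)]

theorem dF_rF_mul {f : En m → ℝ} {u : En m → FA m} {x : En m} (hf : DifferentiableAt ℝ f x)
    (hu : DifferentiableAt ℝ u x) :
    dF (fun y => rF (f y) * u y) x = dF (fun y => (rF (f y) : FA m)) x * u x + rF (f x) * dF u x := by
  have h1 : DifferentiableAt ℝ (fun y => (rF (f y) : FA m)) x :=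
    ((contDiff_rF (m := m)).differentiable (by simp)).differentiableAt.comp x hf
  rw [dF_mul h1 hu, σ_of_deg_even Even.zero (deg_rF _)]

/-- Product rule, first factor of even degree. -/
theorem dF_mul_even {j : ℕ} (hj : Even j) {u v : En m → FA m} {x : En m}
    (hu : DifferentiableAt ℝ u x) (hv : DifferentiableAt ℝ v x) (hd : (u x).IsDeg j) :
    dF (fun y => u y * v y) x = dF u x * v x + u x * dF v x := by
  rw [dF_mul hu hv, σ_of_deg_even hj hd]

/-- Product rule, first factor of odd degree. -/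
theorem dF_mul_odd {j : ℕ} (hj : Odd j) {u v : En m → FA m} {x : En m}
    (hu : DifferentiableAt ℝ u x) (hv : DifferentiableAt ℝ v x) (hd : (u x).IsDeg j) :
    dF (fun y => u y * v y) x = dF u x * v x - u x * dF v x := by
  rw [dF_mul hu hv, σ_of_deg_odd hj hd, neg_mul, sub_eq_add_neg]

/-! ## Smoothness -/

private theorem mulAux {U : Set (En k)} {f g : En k → FA m}
    (h1 : ContDiffOn ℝ ∞ (fun x => (f x, g x)) U) : ContDiffOn ℝ ∞ (fun x => f x * g x) U := by
  have h2 := ContDiff.comp_contDiffOn (contDiff_mulFA (m := m)) h1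
  exact h2

theorem contDiffOn_dF {U : Set (En m)} (hU : IsOpen U) {u : En m → FA m}
    (hu : ContDiffOn ℝ ∞ u U) : ContDiffOn ℝ ∞ (dF u) U := by
  have h1 : ContDiffOn ℝ ∞ (fderiv ℝ u) U := hu.fderiv_of_isOpen hU (by simp)
  have h2 : ∀ a : Fin m, ContDiffOn ℝ ∞ (fun x => fderiv ℝ u x (bv a)) U :=
    fun a => h1.clm_apply contDiffOn_const
  have h3 : ∀ a : Fin m,
      ContDiffOn ℝ ∞ (fun x => (of1 (bv a) : FA m) * fderiv ℝ u x (bv a)) U := fun a =>
    mulAux (f := fun _ => of1 (bv a)) (g := fun x => fderiv ℝ u x (bv a))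
      (contDiffOn_const.prodMk (h2 a))
  have h4 : ContDiffOn ℝ ∞ (fun x => ∑ a, (of1 (bv a) : FA m) * fderiv ℝ u x (bv a)) U :=
    ContDiffOn.sum fun a _ => h3 a
  exact h4

theorem contDiff_dF {u : En m → FA m} (hu : ContDiff ℝ ∞ u) : ContDiff ℝ ∞ (dF u) := by
  rw [← contDiffOn_univ] at hu ⊢
  exact contDiffOn_dF isOpen_univ hu

theorem contDiffOn_pbF {U : Set (En m)} {W : Set (En k)} (hW : IsOpen W) {F : En k → En m}
    (hF : ContDiffOn ℝ ∞ F W) (hFW : ∀ x ∈ W, F x ∈ U) {u : En m → FA m}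
    (hu : ContDiffOn ℝ ∞ u U) : ContDiffOn ℝ ∞ (pbF F u) W := by
  have h1 : ContDiffOn ℝ ∞ (fderiv ℝ F) W := hF.fderiv_of_isOpen hW (by simp)
  exact (contDiff_FAMap (m := m) (k := k)).comp_contDiffOn (h1.prodMk (hu.comp hF hFW))

theorem contDiff_pbF {F : En k → En m} (hF : ContDiff ℝ ∞ F) {u : En m → FA m}
    (hu : ContDiff ℝ ∞ u) : ContDiff ℝ ∞ (pbF F u) := by
  rw [← contDiffOn_univ] at hu hF ⊢
  exact contDiffOn_pbF isOpen_univ hF (fun x _ => mem_univ _) hu

theorem contDiffOn_mulFA {U : Set (En k)} {u v : En k → FA m} (hu : ContDiffOn ℝ ∞ u U)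
    (hv : ContDiffOn ℝ ∞ v U) : ContDiffOn ℝ ∞ (fun x => u x * v x) U := by
  exact mulAux (f := u) (g := v) (hu.prodMk hv)

theorem contDiff_mulFA' {u v : En k → FA m} (hu : ContDiff ℝ ∞ u)
    (hv : ContDiff ℝ ∞ v) : ContDiff ℝ ∞ (fun x => u x * v x) := by
  rw [← contDiffOn_univ] at hu hv ⊢
  exact mulAux (f := u) (g := v) (hu.prodMk hv)

theorem contDiffOn_rF {U : Set (En k)} {f : En k → ℝ} (hf : ContDiffOn ℝ ∞ f U) :
    ContDiffOn ℝ ∞ (fun x => (rF (f x) : FA m)) U := by
  exact (contDiff_rF (m := m)).comp_contDiffOn hf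

end Pool.Agent.EXO.CH
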