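import Mathlib
import Pool.Agent.EXO.ChDef

/-!
# EXO / ChSw: the exchange of `x` and `y`
-/

set_option autoImplicit false
set_option maxSynthPendingDepth 3
set_option linter.unusedSectionVars false

open Set MeasureTheory Matrix
open scoped ContDiff

namespace Pool.Agent.EXO.CH

@[simp] theorem p1_sw (z : En 15) : p1 (sw z) = p2 z := by simp [sw]
@[simp] theorem p2_sw (z : En 15) : p2 (sw z) = p1 z := by simp [sw]
@[simp] theorem p3_sw (z : En 15) : p3 (sw z) = p3 z := by simp [sw]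
@[simp] theorem sw_sw (z : En 15) : sw (sw z) = z := by
  unfold sw
  simp

/-- `p1` as a continuous linear map. -/
noncomputable def p1L : En 15 →L[ℝ] En 4 :=
  LinearMap.toContinuousLinearMap
    { toFun := p1
      map_add' := fun _ _ => rfl
      map_smul' := fun _ _ => rfl }

/-- `p2` as a continuous linear map. -/
noncomputable def p2L : En 15 →L[ℝ] En 4 :=
  LinearMap.toContinuousLinearMap
    { toFun := p2
      map_add' := fun _ _ => rfl
      map_smul' := fun _ _ => rfl }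

/-- `p3` as a continuous linear map. -/
noncomputable def p3L : En 15 →L[ℝ] En 7 :=
  LinearMap.toContinuousLinearMap
    { toFun := p3
      map_add' := fun _ _ => rfl
      map_smul' := fun _ _ => rfl }

@[simp] theorem p1L_apply (z : En 15) : p1L z = p1 z := rfl
@[simp] theorem p2L_apply (z : En 15) : p2L z = p2 z := rfl
@[simp] theorem p3L_apply (z : En 15) : p3L z = p3 z := rfl

theorem contDiff_p1 : ContDiff ℝ ∞ p1 := p1L.contDiff
theorem contDiff_p2 : ContDiff ℝ ∞ p2 := p2L.contDiff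
theorem contDiff_p3 : ContDiff ℝ ∞ p3 := p3L.contDiff

theorem fderiv_p1 (z : En 15) : fderiv ℝ p1 z = p1L := p1L.fderiv
theorem fderiv_p2 (z : En 15) : fderiv ℝ p2 z = p2L := p2L.fderiv
theorem fderiv_p3 (z : En 15) : fderiv ℝ p3 z = p3L := p3L.fderiv

/-- `j15` as a continuous linear map. -/
noncomputable def j15L : (En 4 × En 4 × En 7) →L[ℝ] En 15 :=
  LinearMap.toContinuousLinearMap
    { toFun := fun q => j15 q.1 q.2.1 q.2.2
      map_add' := fun p q => by
        ext i
        simp only [j15, PiLp.add_apply]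
        split_ifs <;> simp
      map_smul' := fun c q => by
        ext i
        simp only [j15, PiLp.smul_apply, RingHom.id_apply]
        split_ifs <;> simp }

@[simp] theorem j15L_apply (q : En 4 × En 4 × En 7) : j15L q = j15 q.1 q.2.1 q.2.2 := rfl

theorem contDiff_j15 : ContDiff ℝ ∞ fun q : En 4 × En 4 × En 7 => j15 q.1 q.2.1 q.2.2 :=
  j15L.contDiff

theorem contDiffOn_j15 {k : ℕ} {U : Set (En k)} {f g : En k → En 4} {h : En k → En 7}
    (hf : ContDiffOn ℝ ∞ f U) (hg : ContDiffOn ℝ ∞ g U) (hh : ContDiffOn ℝ ∞ h U) :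
    ContDiffOn ℝ ∞ (fun z => j15 (f z) (g z) (h z)) U :=
  contDiff_j15.comp_contDiffOn (hf.prodMk (hg.prodMk hh))

/-- `sw` as a continuous linear map. -/
noncomputable def swL : En 15 →L[ℝ] En 15 := j15L.comp (p2L.prod (p1L.prod p3L))

@[simp] theorem swL_apply (z : En 15) : swL z = sw z := rfl

theorem contDiff_sw : ContDiff ℝ ∞ sw := swL.contDiff

theorem fderiv_sw (z : En 15) : fderiv ℝ sw z = swL := swL.fderiv

theorem gK_sw (z : En 15) : gK (sw z) = gK z := by
  simp only [gK, p1_sw, p2_sw]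
  rw [mul_comm, add_comm]

theorem g2_sw (z : En 15) : g2 (sw z) = g1 z := by
  simp only [g2, g1, p1_sw, p2_sw]
  rw [mul_comm (‖p2 z‖ ^ 2)]

theorem g1_sw (z : En 15) : g1 (sw z) = g2 z := by
  simp only [g2, g1, p1_sw, p2_sw]
  rw [mul_comm (‖p2 z‖ ^ 2)]

theorem sw_T1 (l : ℝ) (z : En 15) : sw (T1 l z) = T2 l (sw z) := by
  simp [sw, T1, T2]

theorem sw_T2 (l : ℝ) (z : En 15) : sw (T2 l z) = T1 l (sw z) := by
  simp [sw, T1, T2]

theorem R_sw {N : Set (En 7)} (C : Collar N) (z : En 15) : C.R (sw z) = sw (C.R z) := by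
  simp [Collar.R, sw]

/-- The piece in the exchanged coordinates. -/
noncomputable def VPiece.swap {N : Set (En 7)} {C : Collar N} {M : ℕ} {V : Set (En M)} {g g' : En 15 → ℝ}
    (X : VPiece C V g) (h : ∀ z, g (sw z) = g' z) : VPiece C V g' where
  Ψ := fun z => X.Ψ (sw z)
  Φ := fun v => sw (X.Φ v)
  O := X.O
  openO := X.openO
  smoothΨ := X.smoothΨ.comp contDiff_sw.contDiffOn fun z hz => ⟨by rw [h]; exact hz.1, by
    rw [p3_sw]; exact hz.2⟩
  smoothΦ := contDiff_sw.comp_contDiffOn X.smoothΦ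
  maps := fun z hz => X.maps (sw z) ⟨by rw [h]; exact hz.1, by rw [p3_sw]; exact hz.2⟩
  mapsΦ := fun v hv => by
    have h1 := X.mapsΦ v hv
    refine ⟨?_, ?_⟩
    · rw [← h, sw_sw]
      exact h1.1
    · rw [p3_sw]
      exact h1.2
  right := fun v hv => by rw [sw_sw]; exact X.right v hv
  left := fun z hz => by
    rw [X.left (sw z) ⟨by rw [h]; exact hz.1, by rw [p3_sw]; exact hz.2⟩]
    simp [sw]

/-- The data in the exchanged coordinates. -/
noncomputable def WD.swap {N : OrGeo 6 7} {C : Collar N.carrier} {l : ℝ} (W : WD N C l) : WD N C l where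
  M := W.M
  V := W.V
  r := W.r
  smooth_r := W.smooth_r
  r_maps := W.r_maps
  K := VPiece.swap W.K gK_sw
  H1 := VPiece.swap W.H2 g2_sw
  H2 := VPiece.swap W.H1 g1_sw
  trK1 := fun z hz h1 => by
    have h := W.trK2 (sw z) ⟨by rw [gK_sw]; exact hz.1, by rw [p3_sw]; exact hz.2⟩ (by
      rw [p2_sw]; exact h1)
    change W.K.Ψ (sw z) = W.H2.Ψ (sw _)
    rw [h]
    simp [sw]
  trK2 := fun z hz h1 => by
    have h := W.trK1 (sw z) ⟨by rw [gK_sw]; exact hz.1, by rw [p3_sw]; exact hz.2⟩ (by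
      rw [p1_sw]; exact h1)
    change W.K.Ψ (sw z) = W.H1.Ψ (sw _)
    rw [h]
    simp [sw]
  notK1 := fun z hz h1 => W.notK2 (sw z) ⟨by rw [gK_sw]; exact hz.1, by rw [p3_sw]; exact hz.2⟩ (by
      rw [p2_sw]; exact h1)
  notK2 := fun z hz h1 => W.notK1 (sw z) ⟨by rw [gK_sw]; exact hz.1, by rw [p3_sw]; exact hz.2⟩ (by
      rw [p1_sw]; exact h1)
  not1K := fun z hz h1 => W.not2K (sw z) ⟨by rw [g2_sw]; exact hz.1, by rw [p3_sw]; exact hz.2⟩ (by
      rw [p2_sw]; exact h1)
  not2K := fun z hz h1 => W.not1K (sw z) ⟨by rw [g1_sw]; exact hz.1, by rw [p3_sw]; exact hz.2⟩ (by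
      rw [p1_sw]; exact h1)
  inter12 := fun v hv h1 h2 => W.inter12 v hv h2 h1
  rK := fun z hz => by
    have h := W.rK (sw z) ⟨by rw [gK_sw]; exact hz.1, by rw [p3_sw]; exact hz.2⟩
    rw [p3_sw] at h
    exact h
  Core := W.Core
  cover := fun v hv => by
    rcases W.cover v hv with h | ⟨z, h1, h2, h3⟩ | ⟨z, h1, h2, h3⟩ | ⟨z, h1, h2, h3⟩
    · exact Or.inl h
    · refine Or.inr (Or.inl ⟨sw z, by rw [gK_sw]; exact h1, by rw [p3_sw]; exact h2, ?_⟩)
      change v = W.K.Ψ (sw (sw z))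
      rw [sw_sw]
      exact h3
    · refine Or.inr (Or.inr (Or.inr ⟨sw z, by rw [← g1_sw, sw_sw]; exact h1,
        by rw [p3_sw]; exact h2, ?_⟩))
      change v = W.H1.Ψ (sw (sw z))
      rw [sw_sw]
      exact h3
    · refine Or.inr (Or.inr (Or.inl ⟨sw z, by rw [← g2_sw, sw_sw]; exact h1,
        by rw [p3_sw]; exact h2, ?_⟩))
      change v = W.H2.Ψ (sw (sw z))
      rw [sw_sw]
      exact h3

/-- The forms in the exchanged coordinates. -/
noncomputable def FD.swap {N : OrGeo 6 7} {C : Collar N.carrier} {l : ℝ} {W : WD N C l} (D : FD W) : FD W.swap where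
  b := D.b
  om := D.om
  smooth_b := D.smooth_b
  deg_b := D.deg_b
  smooth_om := D.smooth_om
  deg_om := D.deg_om
  core := D.core

end Pool.Agent.EXO.CH
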