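import Pool.Agent.EXO.GbDefs

/-!
# EXO, GEO, module GbAd: conjugation with quaternions

PROOFS.  `vim (imq v) = v`; for `u` with `u.re = 0`, `imq (vim u) = u`; `(q * imq v * star q).re = 0` (direct computation,
`Quaternion.ext_iff`, `simp; ring`).  So `imq (Adq q v) = q * imq v * star q` (all `q`) and `Adq (p q) v = vim (p q u q̄ p̄) =
Adq p (Adq q v)`.  `Adq 1 = id`, `Adq (-1) = id`.  `‖Adq q v‖ = ‖imq (Adq q v)‖ = ‖q‖² ‖v‖` (`‖imq v‖ = ‖v‖`:
`Quaternion.norm_eq_sqrt_real_inner`/`normSq`; or directly with `EuclideanSpace.norm_eq` and `ring`).  For `‖q‖ = 1`: `star q * q = 1`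
(`Quaternion.star_mul_self`, `normSq = ‖·‖²`).  Smoothness: the map `q ↦ Adq q` is (the restriction to the diagonal of) a
bilinear map of finite-dimensional spaces; e.g. all the matrix entries are polynomials in the components of `q`
(`contDiff_clm_apply_iff`, `contDiff_piLp`/`contDiff_euclidean`), or `imq`, `vim` are continuous linear and
`fun (q : ℍ) v => vim (q * imq v * star q)`.
-/

set_option maxSynthPendingDepth 3

open scoped ContDiff Quaternion
open Pool.Agent.EXO

namespace EXO

theorem imq_Adq (q : ℍ[ℝ]) (v : En 3) : imq (Adq q v) = q * imq v * star q := by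
  have h : Adq q v = vim (q * imq v * star q) := rfl
  rw [h]
  have r0 : (imq v).re = 0 := rfl
  have r1 : (imq v).imI = v 0 := rfl
  have r2 : (imq v).imJ = v 1 := rfl
  have r3 : (imq v).imK = v 2 := rfl
  apply Quaternion.ext
  · have e : (imq (vim (q * imq v * star q))).re = 0 := rfl
    rw [e]
    simp only [Quaternion.re_mul, Quaternion.imI_mul, Quaternion.imJ_mul, Quaternion.imK_mul,
      Quaternion.re_star, Quaternion.imI_star, Quaternion.imJ_star, Quaternion.imK_star,
      r0, r1, r2, r3]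
    ring
  · rfl
  · rfl
  · rfl

theorem norm_imq (v : En 3) : ‖imq v‖ = ‖v‖ := by
  rw [← sq_eq_sq₀ (norm_nonneg _) (norm_nonneg _), pow_two, ← Quaternion.normSq_eq_norm_mul_self,
    Quaternion.normSq_def', EuclideanSpace.real_norm_sq_eq, Fin.sum_univ_three]
  simp [imq]

theorem imq_inj {u v : En 3} (h : imq u = imq v) : u = v := by
  have h1 : u 0 = v 0 := congrArg (fun q : ℍ[ℝ] => q.imI) h
  have h2 : u 1 = v 1 := congrArg (fun q : ℍ[ℝ] => q.imJ) h
  have h3 : u 2 = v 2 := congrArg (fun q : ℍ[ℝ] => q.imK) h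
  ext i
  fin_cases i
  · exact h1
  · exact h2
  · exact h3

theorem Adq_mul (p q : ℍ[ℝ]) : Adq (p * q) = (Adq p).comp (Adq q) := by
  ext1 v
  apply imq_inj
  rw [ContinuousLinearMap.comp_apply, imq_Adq, imq_Adq, imq_Adq, star_mul]
  simp only [mul_assoc]

theorem Adq_one : Adq (1 : ℍ[ℝ]) = ContinuousLinearMap.id ℝ (En 3) := by
  ext1 v
  apply imq_inj
  rw [imq_Adq]
  simp

theorem Adq_neg_one : Adq (-1 : ℍ[ℝ]) = ContinuousLinearMap.id ℝ (En 3) := by
  ext1 v
  apply imq_inj
  rw [imq_Adq]
  simp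

theorem star_mul_of_norm {q : ℍ[ℝ]} (h : ‖q‖ = 1) : star q * q = 1 ∧ q * star q = 1 := by
  have h1 : Quaternion.normSq q = 1 := by
    rw [Quaternion.normSq_eq_norm_mul_self, h, mul_one]
  rw [Quaternion.star_mul_self, Quaternion.self_mul_star, h1]
  exact ⟨Quaternion.coe_one, Quaternion.coe_one⟩

theorem norm_Adq {q : ℍ[ℝ]} (h : ‖q‖ = 1) (v : En 3) : ‖Adq q v‖ = ‖v‖ := by
  rw [← norm_imq, imq_Adq, norm_mul, norm_mul, norm_imq, Quaternion.norm_star, h, one_mul, mul_one]

private noncomputable def GbAd_imqL : En 3 →L[ℝ] ℍ[ℝ] :=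
  LinearMap.toContinuousLinearMap
    { toFun := imq
      map_add' := by
        intro u v
        apply Quaternion.ext
        · rw [Quaternion.re_add]
          show (0 : ℝ) = 0 + 0
          rw [add_zero]
        · rw [Quaternion.imI_add]; rfl
        · rw [Quaternion.imJ_add]; rfl
        · rw [Quaternion.imK_add]; rfl
      map_smul' := by
        intro c u
        rw [RingHom.id_apply]
        apply Quaternion.ext
        · rw [Quaternion.re_smul]
          show (0 : ℝ) = c • (0 : ℝ)
          rw [smul_zero]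
        · rw [Quaternion.imI_smul]; rfl
        · rw [Quaternion.imJ_smul]; rfl
        · rw [Quaternion.imK_smul]; rfl }

private noncomputable def GbAd_vimL : ℍ[ℝ] →L[ℝ] En 3 :=
  LinearMap.toContinuousLinearMap
    { toFun := vim
      map_add' := by
        intro u v
        ext i
        fin_cases i <;> simp [vim]
      map_smul' := by
        intro c u
        ext i
        fin_cases i <;> simp [vim] }

private noncomputable def GbAd_starL : ℍ[ℝ] →L[ℝ] ℍ[ℝ] :=
  LinearMap.toContinuousLinearMap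
    { toFun := fun q => star q
      map_add' := fun u v => star_add u v
      map_smul' := by
        intro c u
        apply Quaternion.ext <;> simp }

theorem contDiff_imq : ContDiff ℝ ∞ imq := by
  have h : (imq : En 3 → ℍ[ℝ]) = GbAd_imqL := rfl
  rw [h]
  exact GbAd_imqL.contDiff

theorem contDiff_Adq : ContDiff ℝ ∞ (fun q : ℍ[ℝ] => Adq q) := by
  rw [contDiff_clm_apply_iff]
  intro v
  have h : (fun q : ℍ[ℝ] => Adq q v) = fun q : ℍ[ℝ] => GbAd_vimL (q * imq v * GbAd_starL q) := rfl
  rw [h]
  exact GbAd_vimL.contDiff.comp ((contDiff_id.mul contDiff_const).mul GbAd_starL.contDiff)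

end EXO
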