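import Pool.Agent.EXO.GbAd

/-!
# EXO, GEO, module GbTha: the map `θ`

`tha l x = cos ψ + imq ((sin ψ/‖x‖) x)`, `ψ = psi l ‖x‖`, `psi l r = π (1 - stp (4 (r/l - 1/8)))`.

PROOFS.  * `norm_tha`: `‖·‖² = cos² ψ + ‖(sin ψ/‖x‖) x‖²`; for `x ≠ 0` this is `cos² + sin² = 1`; for `x = 0`: `ψ = π`
(`stp t = 0` for `t ≤ 0`), `sin ψ = 0`, `cos ψ = -1`.
* `tha_Adq`: `‖Adq q x‖ = ‖x‖`, so the same `ψ`; `imq (c • Adq q x) = c • (q * imq x * star q)` (`imq` linear), and
`q * (cos ψ : ℍ) * star q = cos ψ`.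
* `tha_out`: `4 (r/l - 1/8) ≥ 1`, `stp = 1` (`Real.smoothTransition.one_of_one_le`), `ψ = 0`, `tha = 1`.
* `tha_in`: `stp = 0`, `ψ = π`, `tha = -1`.
* smooth: on the open set `‖x‖ < l/8` it is the constant `-1`; on `x ≠ 0` it is a composition of smooth functions (`‖x‖` is
smooth away from `0`, `contDiffAt_norm`, `Real.smoothTransition.contDiff`).  `contDiff_iff_contDiffAt`.
* `tha_scale`: `‖l • x‖/l = ‖x‖`, and `(sin ψ/‖l x‖) (l x) = (sin ψ/‖x‖) x`.
-/

set_option maxSynthPendingDepth 3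

open scoped ContDiff Quaternion
open Pool.Agent.EXO

namespace EXO

private theorem GbTha_re (v : En 3) : (imq v).re = 0 := rfl
private theorem GbTha_imI (v : En 3) : (imq v).imI = v 0 := rfl
private theorem GbTha_imJ (v : En 3) : (imq v).imJ = v 1 := rfl
private theorem GbTha_imK (v : En 3) : (imq v).imK = v 2 := rfl

private theorem GbTha_imq_smul (c : ℝ) (v : En 3) : imq (c • v) = c • imq v := by
  ext <;> simp [GbTha_re, GbTha_imI, GbTha_imJ, GbTha_imK]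

private theorem GbTha_eq (l : ℝ) (x : En 3) : tha l x
    = Real.cos (psi l ‖x‖) • (1 : ℍ[ℝ]) + (Real.sin (psi l ‖x‖) / ‖x‖) • imq x := by
  rw [tha, GbTha_imq_smul]
  congr 1
  ext <;> simp

private theorem GbTha_psi_out {l r : ℝ} (hl : 0 < l) (h : 3 * l / 8 ≤ r) : psi l r = 0 := by
  have h1 : 1 ≤ 4 * (r / l - 1 / 8) := by
    have h2 : 3 / 8 ≤ r / l := by
      rw [le_div_iff₀ hl]
      linarith
    linarith
  rw [psi, stp, Real.smoothTransition.one_of_one_le h1, sub_self, mul_zero]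

private theorem GbTha_psi_in {l r : ℝ} (hl : 0 < l) (h : r ≤ l / 8) : psi l r = Real.pi := by
  have h1 : 4 * (r / l - 1 / 8) ≤ 0 := by
    have h2 : r / l ≤ 1 / 8 := by
      rw [div_le_iff₀ hl]
      linarith
    linarith
  rw [psi, stp, Real.smoothTransition.zero_of_nonpos h1, sub_zero, mul_one]

private theorem GbTha_normsq (x : En 3) : ‖x‖ ^ 2 = x 0 ^ 2 + x 1 ^ 2 + x 2 ^ 2 := by
  rw [EuclideanSpace.norm_sq_eq, Fin.sum_univ_three]
  simp [sq_abs]

theorem norm_tha {l : ℝ} (hl : 0 < l) (x : En 3) : ‖tha l x‖ = 1 := by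
  have h1 : ‖tha l x‖ * ‖tha l x‖ = 1 := by
    rw [← Quaternion.normSq_eq_norm_mul_self, Quaternion.normSq_def', GbTha_eq]
    have e : ∀ c s : ℝ, (c • (1 : ℍ[ℝ]) + s • imq x).re ^ 2 + (c • (1 : ℍ[ℝ]) + s • imq x).imI ^ 2
        + (c • (1 : ℍ[ℝ]) + s • imq x).imJ ^ 2 + (c • (1 : ℍ[ℝ]) + s • imq x).imK ^ 2
        = c ^ 2 + s ^ 2 * ‖x‖ ^ 2 := by
      intro c s
      rw [GbTha_normsq]
      simp [GbTha_re, GbTha_imI, GbTha_imJ, GbTha_imK]
      ring
    rw [e]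
    rcases eq_or_ne x 0 with h | h
    · have h2 : psi l ‖x‖ = Real.pi := GbTha_psi_in hl (by rw [h, norm_zero]; positivity)
      rw [h2, h]
      simp
    · have h2 : ‖x‖ ≠ 0 := norm_ne_zero_iff.2 h
      rw [div_pow, div_mul_cancel₀ _ (pow_ne_zero 2 h2), add_comm]
      exact Real.sin_sq_add_cos_sq _
  have h2 : 0 ≤ ‖tha l x‖ := norm_nonneg _
  nlinarith

theorem tha_Adq {l : ℝ} (hl : 0 < l) {q : ℍ[ℝ]} (hq : ‖q‖ = 1) (x : En 3) :
    tha l (Adq q x) = q * tha l x * star q := by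
  have _ := hl
  rw [GbTha_eq, GbTha_eq, norm_Adq hq, imq_Adq, mul_add, add_mul, mul_smul_comm, smul_mul_assoc,
    mul_one, (star_mul_of_norm hq).2, mul_smul_comm, smul_mul_assoc]

theorem tha_out {l : ℝ} (hl : 0 < l) {x : En 3} (h : 3 * l / 8 ≤ ‖x‖) : tha l x = 1 := by
  rw [GbTha_eq, GbTha_psi_out hl h]
  simp

theorem tha_in {l : ℝ} (hl : 0 < l) {x : En 3} (h : ‖x‖ ≤ l / 8) : tha l x = -1 := by
  rw [GbTha_eq, GbTha_psi_in hl h]
  simp

theorem contDiff_tha {l : ℝ} (hl : 0 < l) : ContDiff ℝ ∞ (tha l) := by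
  rw [contDiff_iff_contDiffAt]
  intro x
  rcases lt_or_ge ‖x‖ (l / 8) with h | h
  · have h1 : tha l =ᶠ[nhds x] fun _ => -1 := by
      filter_upwards [(isOpen_lt continuous_norm continuous_const).mem_nhds h] with z hz
      exact tha_in hl (le_of_lt hz)
    exact contDiffAt_const.congr_of_eventuallyEq h1
  · have hx : x ≠ 0 := by
      rintro rfl
      rw [norm_zero] at h
      linarith
    have h1 : tha l = fun x => Real.cos (psi l ‖x‖) • (1 : ℍ[ℝ])
        + (Real.sin (psi l ‖x‖) / ‖x‖) • imq x := funext (GbTha_eq l)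
    have h2 : ContDiffAt ℝ ∞ (fun x : En 3 => ‖x‖) x := contDiffAt_norm ℝ hx
    have h3 : ContDiffAt ℝ ∞ (fun x : En 3 => psi l ‖x‖) x := by
      unfold psi stp
      exact contDiffAt_const.mul (contDiffAt_const.sub
        ((Real.smoothTransition.contDiff.contDiffAt).comp x
          (contDiffAt_const.mul ((h2.div_const l).sub contDiffAt_const))))
    rw [h1]
    exact ((Real.contDiff_cos.contDiffAt.comp x h3).smul contDiffAt_const).add
      (((Real.contDiff_sin.contDiffAt.comp x h3).div h2 (norm_ne_zero_iff.2 hx)).smul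
        contDiff_imq.contDiffAt)

theorem tha_scale {l : ℝ} (hl : 0 < l) (x : En 3) : tha l (l • x) = tha 1 x := by
  have h1 : ‖l • x‖ = l * ‖x‖ := by rw [norm_smul, Real.norm_eq_abs, abs_of_pos hl]
  have h2 : psi l (l * ‖x‖) = psi 1 ‖x‖ := by
    rw [psi, psi, mul_div_cancel_left₀ _ hl.ne', div_one]
  rw [GbTha_eq, GbTha_eq, h1, h2, GbTha_imq_smul, smul_smul]
  congr 2
  rcases eq_or_ne ‖x‖ 0 with h | h
  · rw [h]; simp
  · field_simp

end EXO
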