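import Mathlib
import Pool.Agent.EXO.FmD

/-!
# EXO / FmTw: twisted exterior derivative

`t.d u x = ∑ a, eps a (e ∂_a u + b_a u)` for the bundle `range (e x)` with the connection form
`b`.  Naturality, `d (d u) = 0` for flat data.
-/

set_option autoImplicit false
set_option maxSynthPendingDepth 3

namespace Pool.Agent.EXO

open Finset
open scoped ContDiff

variable {m k l : ℕ} {κ : Type*} [Fintype κ]

/-- A bundle `range (e x) ⊆ ℂ^κ` with a connection `e ∂ + b` over `ℝ^m`. -/
structure Tw (m : ℕ) (κ : Type*) [Fintype κ] where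
  e : RE m → (KE κ →L[ℂ] KE κ)
  b : RE m → (RE m →L[ℝ] (KE κ →L[ℂ] KE κ))

namespace Tw

/-- The twisted exterior derivative. -/
noncomputable def d (t : Tw m κ) (u : RE m → HF m κ) (x : RE m) : HF m κ :=
  ∑ a, eps a (ten (t.e x) (fderiv ℝ u x (ee a)) + ten (t.b x (ee a)) (u x))

/-- The pullback of the bundle and the connection. -/
noncomputable def pull (t : Tw m κ) (F : RE k → RE m) : Tw k κ where
  e := fun x => t.e (F x)
  b := fun x => (t.b (F x)).comp (fderiv ℝ F x)

/-- The trivial bundle. -/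
noncomputable def triv (m : ℕ) (κ : Type*) [Fintype κ] : Tw m κ where
  e := fun _ => 1
  b := fun _ => 0

/-- The product with the connection form. -/
noncomputable def bw (t : Tw m κ) (x : RE m) (w : HF m κ) : HF m κ :=
  ∑ a, eps a (ten (t.b x (ee a)) w)

/-- Smooth data on the open set `D`. -/
structure Good (t : Tw m κ) (D : Set (RE m)) : Prop where
  isOpen : IsOpen D
  smooth_e : ContDiffOn ℝ ∞ t.e D
  smooth_b : ContDiffOn ℝ ∞ t.b D
  idem : ∀ x ∈ D, t.e x * t.e x = t.e x
  eb : ∀ x ∈ D, ∀ v, t.e x * t.b x v = t.b x v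
  be : ∀ x ∈ D, ∀ v, t.b x v * t.e x = t.b x v

/-- Flat data on the open set `D`. -/
structure Flat (t : Tw m κ) (D : Set (RE m)) : Prop extends Good t D where
  flat : ∀ x ∈ D, ∀ v w : RE m,
    (t.e x * (fderiv ℝ t.e x v * fderiv ℝ t.e x w) * t.e x + t.e x * fderiv ℝ t.b x v w * t.e x +
      t.b x v * t.b x w) -
    (t.e x * (fderiv ℝ t.e x w * fderiv ℝ t.e x v) * t.e x + t.e x * fderiv ℝ t.b x w v * t.e x +
      t.b x w * t.b x v) = 0

/-- Sections of the bundle of forms over `D`. -/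
def Sec (t : Tw m κ) (D : Set (RE m)) (u : RE m → HF m κ) : Prop :=
  ContDiffOn ℝ ∞ u D ∧ ∀ x ∈ D, ten (t.e x) (u x) = u x

/-- `e` and `b` do not depend on the coordinate `i`, and `b` has no component in this direction. -/
def Act (t : Tw m κ) (i : Fin m) : Prop :=
  ∀ (x : RE m) (r : ℝ), t.e (x + r • ee i) = t.e x ∧ t.b (x + r • ee i) = t.b x ∧
    t.b x (ee i) = 0

theorem d_eq (t : Tw m κ) (u : RE m → HF m κ) (x : RE m) :
    t.d u x = ten (t.e x) (dd u x) + t.bw x (u x) := by
  unfold d bw dd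
  rw [map_sum, ← Finset.sum_add_distrib]
  exact sum_congr rfl fun a _ => by rw [map_add, ten_eps]

theorem triv_d (u : RE m → HF m κ) (x : RE m) : (triv m κ).d u x = dd u x := by
  rw [d_eq]
  have h : (triv m κ).bw x (u x) = 0 := by
    unfold bw
    refine sum_eq_zero fun a _ => ?_
    change eps a (ten 0 (u x)) = 0
    rw [ten_zero]
    exact map_zero _
  rw [h, add_zero]
  rfl

theorem bw_pull (t : Tw m κ) {F : RE k → RE m} {x : RE k} (w : HF m κ) :
    (t.pull F).bw x (Lam (ContinuousLinearMap.adjoint (fderiv ℝ F x)) w) =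
      Lam (ContinuousLinearMap.adjoint (fderiv ℝ F x)) (t.bw (F x) w) := by
  unfold bw
  rw [map_sum]
  have h1 : ∀ a : Fin k, (t.pull F).b x (ee a) = ∑ j, ((fderiv ℝ F x (ee a)) j : ℂ) •
      t.b (F x) (ee j) := by
    intro a
    change t.b (F x) (fderiv ℝ F x (ee a)) = _
    conv_lhs => rw [epsv_sum_ee (fderiv ℝ F x (ee a)), map_sum]
    refine sum_congr rfl fun j _ => ?_
    rw [map_smul]
    exact (Complex.coe_smul _ _).symm
  have h2 : ∀ (a : Fin k) (z : HF k κ), ten ((t.pull F).b x (ee a)) z =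
      ∑ j, ((fderiv ℝ F x (ee a)) j : ℂ) • ten (t.b (F x) (ee j)) z := by
    intro a z
    rw [h1, ← tenL_apply, map_sum, _root_.sum_apply]
    exact sum_congr rfl fun j _ => by rw [map_smul]; rfl
  simp only [h2, map_sum, map_smul, Lam_eps, epsv_apply, Lam_ten]
  rw [Finset.sum_comm]
  refine sum_congr rfl fun j _ => sum_congr rfl fun a _ => ?_
  congr 2
  have h4 : (ContinuousLinearMap.adjoint (fderiv ℝ F x) (ee j)) a =
      inner ℝ (ee a) (ContinuousLinearMap.adjoint (fderiv ℝ F x) (ee j)) := by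
    simp [EuclideanSpace.inner_single_left]
  rw [h4, ContinuousLinearMap.adjoint_inner_right]
  simp [EuclideanSpace.inner_single_right]

/-- Naturality of the twisted exterior derivative. -/
theorem d_pull (t : Tw m κ) {F : RE k → RE m} {u : RE m → HF m κ} {x : RE k}
    (hF : ContDiffAt ℝ 2 F x) (hu : DifferentiableAt ℝ u (F x)) :
    (t.pull F).d (EXO.pull F u) x = EXO.pull F (t.d u) x := by
  rw [d_eq, dd_pull hF hu]
  unfold EXO.pull
  rw [bw_pull, d_eq, map_add, Lam_ten]
  rfl

theorem pull_pull (t : Tw m κ) {F : RE k → RE m} {G : RE l → RE k} {x : RE l}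
    (hF : DifferentiableAt ℝ F (G x)) (hG : DifferentiableAt ℝ G x) :
    ((t.pull F).pull G).b x = (t.pull (F ∘ G)).b x := by
  change ((t.b (F (G x))).comp (fderiv ℝ F (G x))).comp (fderiv ℝ G x) =
    (t.b (F (G x))).comp (fderiv ℝ (F ∘ G) x)
  rw [fderiv_comp x hF hG]
  rfl

theorem d_congr {t t' : Tw m κ} {u u' : RE m → HF m κ} {x : RE m} (he : t.e x = t'.e x)
    (hb : t.b x = t'.b x) (hu : u =ᶠ[nhds x] u') : t.d u x = t'.d u' x := by
  unfold d
  rw [he, hb, hu.fderiv_eq, hu.eq_of_nhds]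

theorem d_add (t : Tw m κ) {u w : RE m → HF m κ} {x : RE m} (hu : DifferentiableAt ℝ u x)
    (hw : DifferentiableAt ℝ w x) : t.d (fun y => u y + w y) x = t.d u x + t.d w x := by
  unfold d
  rw [fderiv_fun_add hu hw, ← Finset.sum_add_distrib]
  refine sum_congr rfl fun a _ => ?_
  rw [← map_add]
  congr 1
  rw [_root_.add_apply, map_add, map_add]
  abel

theorem d_smul (t : Tw m κ) (r : ℂ) {u : RE m → HF m κ} {x : RE m}
    (hu : DifferentiableAt ℝ u x) : t.d (fun y => r • u y) x = r • t.d u x := by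
  unfold d
  rw [Finset.smul_sum]
  refine sum_congr rfl fun a _ => ?_
  have h : fderiv ℝ (fun y => r • u y) x = r • fderiv ℝ u x := fderiv_fun_const_smul hu r
  rw [h, ← map_smul, smul_add, _root_.smul_apply, map_smul, map_smul]

theorem d_neg (t : Tw m κ) {u : RE m → HF m κ} {x : RE m} :
    t.d (fun y => - u y) x = - t.d u x := by
  unfold d
  rw [← Finset.sum_neg_distrib]
  refine sum_congr rfl fun a _ => ?_
  have h : fderiv ℝ (fun y => - u y) x = - fderiv ℝ u x := fderiv_fun_neg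
  rw [h, ← map_neg, neg_add, _root_.neg_apply, map_neg, map_neg]

theorem d_sub (t : Tw m κ) {u w : RE m → HF m κ} {x : RE m} (hu : DifferentiableAt ℝ u x)
    (hw : DifferentiableAt ℝ w x) : t.d (fun y => u y - w y) x = t.d u x - t.d w x := by
  have h := t.d_add hu (w := fun y => - w y) hw.neg
  rw [t.d_neg] at h
  simpa only [sub_eq_add_neg] using h

theorem d_zero (t : Tw m κ) (x : RE m) : t.d (fun _ => 0) x = 0 := by
  unfold d
  refine sum_eq_zero fun a _ => ?_
  simp

/-- Product with a real function. -/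
theorem d_fsmul (t : Tw m κ) {f : RE m → ℝ} {u : RE m → HF m κ} {x : RE m}
    (hf : DifferentiableAt ℝ f x) (hu : DifferentiableAt ℝ u x)
    (hs : ten (t.e x) (u x) = u x) :
    t.d (fun y => f y • u y) x =
      f x • t.d u x + ∑ a, (fderiv ℝ f x (ee a)) • eps a (u x) := by
  unfold d
  have h : fderiv ℝ (fun y => f y • u y) x =
      f x • fderiv ℝ u x + (fderiv ℝ f x).smulRight (u x) := fderiv_fun_smul hf hu
  rw [h, Finset.smul_sum, ← Finset.sum_add_distrib]
  refine sum_congr rfl fun a _ => ?_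
  have h2 : ∀ (T : HF m κ →L[ℂ] HF m κ) (r : ℝ) (z : HF m κ), T (r • z) = r • T z := by
    intro T r z
    exact map_smul (T.restrictScalars ℝ) r z
  rw [_root_.add_apply, _root_.smul_apply, ContinuousLinearMap.smulRight_apply]
  simp only [map_add, h2, hs, smul_add]
  abel

theorem dg_d (t : Tw m κ) {j : ℕ} {u : RE m → HF m κ} {x : RE m}
    (hu : DifferentiableAt ℝ u x) : dg (j + 1) (t.d u x) = t.d (fun y => dg j (u y)) x := by
  unfold d
  rw [map_sum]
  refine sum_congr rfl fun a _ => ?_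
  have h : fderiv ℝ (fun y => dg j (u y)) x =
      ((dg j : HF m κ →L[ℂ] HF m κ).restrictScalars ℝ).comp (fderiv ℝ u x) :=
    (((dg j : HF m κ →L[ℂ] HF m κ).restrictScalars ℝ).hasFDerivAt.comp x hu.hasFDerivAt).fderiv
  rw [h, dg_eps, map_add, ← ten_dg, ← ten_dg]
  rfl

end Tw

end Pool.Agent.EXO
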