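import Pool.Agent.EXO.Defs

/-!
# EXO / TopSu: elementary facts about closed submanifolds used in TOP
-/

set_option autoImplicit false
set_option maxSynthPendingDepth 3

open Set MeasureTheory Filter Topology
open scoped ContDiff ENNReal

namespace Pool.Agent.EXO

/-- Tangential derivatives only depend on the values along `V`. -/
theorem su_local {n M : ℕ} (V : Geo n M) {F : Type*} [NormedAddCommGroup F] [NormedSpace ℝ F]
    {f : En M → F} {x : En M} (hx : x ∈ V.carrier) (hf : DifferentiableAt ℝ f x)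
    (h0 : ∀ᶠ y in 𝓝 x, y ∈ V.carrier → f y = 0) (v : En M) : fderiv ℝ f x (V.P x v) = 0 := by
  obtain ⟨U, ψ, O, κ, hc, hxO⟩ := V.chart x hx
  have hu : κ x ∈ U := hc.mapsκ x ⟨hx, hxO⟩
  have hxu : ψ (κ x) = x := hc.right x ⟨hx, hxO⟩
  have hr := (V.P_range U ψ O κ hc (κ x) hu (V.P x v)).1 (by rw [hxu]; exact V.P_idem x hx v)
  obtain ⟨w, hw⟩ := hr
  have hψ : DifferentiableAt ℝ ψ (κ x) :=
    (hc.smoothψ.contDiffAt (hc.openU.mem_nhds hu)).differentiableAt (by simp)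
  have hf' : DifferentiableAt ℝ f (ψ (κ x)) := by rw [hxu]; exact hf
  have h1 : HasFDerivAt (f ∘ ψ) ((fderiv ℝ f (ψ (κ x))).comp (fderiv ℝ ψ (κ x))) (κ x) :=
    hf'.hasFDerivAt.comp _ hψ.hasFDerivAt
  have h2 : (f ∘ ψ) =ᶠ[𝓝 (κ x)] fun _ => (0 : F) := by
    have h3 : Tendsto ψ (𝓝 (κ x)) (𝓝 x) := by
      have := hψ.continuousAt.tendsto
      rwa [hxu] at this
    filter_upwards [h3.eventually h0, hc.openU.mem_nhds hu] with y hy hyU
    exact hy (hc.maps y hyU).1
  have h4 : fderiv ℝ (f ∘ ψ) (κ x) = 0 := by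
    rw [h2.fderiv_eq]
    exact fderiv_const_apply 0
  rw [h1.fderiv, hxu] at h4
  rw [← hw]
  exact congrArg (fun L : En n →L[ℝ] F => L w) h4

/-- The derivative of a map into `V` is tangential. -/
theorem su_tan {n M a : ℕ} (V : Geo n M) {F : En a → En M} {z : En a}
    (hF : DifferentiableAt ℝ F z) (h0 : ∀ᶠ y in 𝓝 z, F y ∈ V.carrier) (w : En a) :
    V.P (F z) (fderiv ℝ F z w) = fderiv ℝ F z w := by
  have hx : F z ∈ V.carrier := h0.self_of_nhds
  obtain ⟨U, ψ, O, κ, hc, hxO⟩ := V.chart (F z) hx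
  have hu : κ (F z) ∈ U := hc.mapsκ _ ⟨hx, hxO⟩
  have hxu : ψ (κ (F z)) = F z := hc.right _ ⟨hx, hxO⟩
  have hψ : DifferentiableAt ℝ ψ (κ (F z)) :=
    (hc.smoothψ.contDiffAt (hc.openU.mem_nhds hu)).differentiableAt (by simp)
  have hκ : DifferentiableAt ℝ κ (F z) :=
    (hc.smoothκ.contDiffAt (hc.openO.mem_nhds hxO)).differentiableAt (by simp)
  have h1 : HasFDerivAt (fun y => ψ (κ (F y)))
      ((fderiv ℝ ψ (κ (F z))).comp ((fderiv ℝ κ (F z)).comp (fderiv ℝ F z))) z :=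
    hψ.hasFDerivAt.comp z (hκ.hasFDerivAt.comp z hF.hasFDerivAt)
  have h2 : (fun y => ψ (κ (F y))) =ᶠ[𝓝 z] F := by
    filter_upwards [h0, hF.continuousAt.preimage_mem_nhds (hc.openO.mem_nhds hxO)] with y hy hyO
    exact hc.right _ ⟨hy, hyO⟩
  have h3 : fderiv ℝ F z =
      (fderiv ℝ ψ (κ (F z))).comp ((fderiv ℝ κ (F z)).comp (fderiv ℝ F z)) := by
    rw [← h1.fderiv]
    exact h2.symm.fderiv_eq
  have h4 := (V.P_range U ψ O κ hc _ hu (fderiv ℝ F z w)).2
    ⟨fderiv ℝ κ (F z) (fderiv ℝ F z w), by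
      conv_rhs => rw [h3]
      rfl⟩
  rwa [hxu] at h4

/-- Isometric parametrization of the tangent space. -/
theorem su_iso {n M : ℕ} (V : Geo n M) {x : En M} (hx : x ∈ V.carrier) :
    ∃ A : En n →L[ℝ] En M, A.comp (ContinuousLinearMap.adjoint A) = V.P x ∧
      (ContinuousLinearMap.adjoint A).comp A = ContinuousLinearMap.id ℝ _ := by
  obtain ⟨U, ψ, O, κ, hc, hxO⟩ := V.chart x hx
  have hu : κ x ∈ U := hc.mapsκ _ ⟨hx, hxO⟩
  have hxu : ψ (κ x) = x := hc.right _ ⟨hx, hxO⟩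
  have hψ : DifferentiableAt ℝ ψ (κ x) :=
    (hc.smoothψ.contDiffAt (hc.openU.mem_nhds hu)).differentiableAt (by simp)
  have hκ : DifferentiableAt ℝ κ (ψ (κ x)) := by
    rw [hxu]
    exact (hc.smoothκ.contDiffAt (hc.openO.mem_nhds hxO)).differentiableAt (by simp)
  have h1 : (fderiv ℝ κ (ψ (κ x))).comp (fderiv ℝ ψ (κ x)) = ContinuousLinearMap.id ℝ _ := by
    rw [← (hκ.hasFDerivAt.comp _ hψ.hasFDerivAt).fderiv]
    have h2 : (κ ∘ ψ) =ᶠ[𝓝 (κ x)] id := by
      filter_upwards [hc.openU.mem_nhds hu] with y hy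
      exact hc.left y hy
    rw [h2.fderiv_eq, fderiv_id]
  set D : En n →L[ℝ] En M := fderiv ℝ ψ (κ x) with hD
  have hinj : Function.Injective D := by
    intro v w hvw
    have h3 := congrArg (fderiv ℝ κ (ψ (κ x))) hvw
    have h4 : ∀ v, fderiv ℝ κ (ψ (κ x)) (D v) = v := fun v =>
      congrArg (fun L : En n →L[ℝ] En n => L v) h1
    rwa [h4, h4] at h3
  have hrange : ∀ v : En M, V.P x v = v ↔ v ∈ LinearMap.range (D : En n →ₗ[ℝ] En M) := by
    intro v
    have h5 := V.P_range U ψ O κ hc _ hu v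
    rw [hxu] at h5
    rw [h5]
    exact Iff.rfl
  set W : Submodule ℝ (En M) := LinearMap.range (D : En n →ₗ[ℝ] En M) with hW
  have hfin : Module.finrank ℝ W = n := by
    rw [hW, LinearMap.finrank_range_of_inj hinj, finrank_euclideanSpace_fin]
  let b : OrthonormalBasis (Fin n) ℝ W := (stdOrthonormalBasis ℝ W).reindex (finCongr hfin)
  let A : En n →L[ℝ] En M := W.subtypeL.comp
    (b.repr.symm.toContinuousLinearEquiv : En n →L[ℝ] W)
  have hAi : ∀ v w, inner ℝ (A v) (A w) = inner ℝ v w := by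
    intro v w
    change inner ℝ ((b.repr.symm v : W) : En M) ((b.repr.symm w : W) : En M) = _
    rw [← Submodule.coe_inner, LinearIsometryEquiv.inner_map_map]
  have hAA : (ContinuousLinearMap.adjoint A).comp A = ContinuousLinearMap.id ℝ _ := by
    ext1 v
    refine ext_inner_right ℝ fun w => ?_
    rw [ContinuousLinearMap.comp_apply, ContinuousLinearMap.adjoint_inner_left, hAi]
    rfl
  have hmem : ∀ v, A v ∈ W := fun v => (b.repr.symm v).2
  have hsurj : ∀ y ∈ W, ∃ v, A v = y := by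
    intro y hy
    refine ⟨b.repr ⟨y, hy⟩, ?_⟩
    change ((b.repr.symm (b.repr ⟨y, hy⟩) : W) : En M) = y
    rw [LinearIsometryEquiv.symm_apply_apply]
  refine ⟨A, ?_, hAA⟩
  ext1 v
  -- both sides lie in `W` and have the same inner products with `W`
  have h6 : V.P x v ∈ W := (hrange _).1 (V.P_idem x hx v)
  have h7 : A (ContinuousLinearMap.adjoint A v) ∈ W := hmem _
  have h8 : A (ContinuousLinearMap.adjoint A v) - V.P x v ∈ W := W.sub_mem h7 h6
  have h9 : ∀ y ∈ W, inner ℝ (A (ContinuousLinearMap.adjoint A v) - V.P x v) y = 0 := by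
    intro y hy
    obtain ⟨w, rfl⟩ := hsurj y hy
    rw [inner_sub_left, hAi, ContinuousLinearMap.adjoint_inner_left,
      V.P_sa x hx v (A w), (hrange _).2 hy, sub_self]
  have h10 := h9 _ h8
  rw [inner_self_eq_zero, sub_eq_zero] at h10
  exact h10

end Pool.Agent.EXO
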