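import Pool.Agent.EXO.FmLam

/-!
# EXO / TopTan: tangential forms, pointwise algebra

`P` = orthogonal projection onto the tangent space of `V` at a point, `A` = derivative of a map
into `V` (so `P A = A`), `B` = derivative of a local inverse (`A B P = P`).
-/

set_option autoImplicit false
set_option maxSynthPendingDepth 3

namespace Pool.Agent.EXO

open Finset

variable {m k n : ℕ} {κ : Type*} [Fintype κ]

/-- Expansion of a linear map in the standard basis. -/
theorem lin_expand {F : Type*} [NormedAddCommGroup F] [NormedSpace ℝ F] (L : RE m →L[ℝ] F)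
    (v : RE m) : L v = ∑ b, v b • L (ee b) := by
  have h1 : v = ∑ b, v b • ee b := by
    ext c
    simp [Pi.single_apply]
  conv_lhs => rw [h1]
  rw [map_sum]
  exact sum_congr rfl fun b _ => by rw [map_smul]

theorem symm_coord {P : RE m →L[ℝ] RE m} (hs : ContinuousLinearMap.adjoint P = P)
    (a b : Fin m) : (P (ee a)) b = (P (ee b)) a := by
  have e1 : inner ℝ (P (ee a)) (ee b) = inner ℝ (ee a) (P (ee b)) := by
    rw [← ContinuousLinearMap.adjoint_inner_right, hs]
  have e2 : inner ℝ (P (ee a)) (ee b) = (P (ee a)) b := by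
    simp [ee, EuclideanSpace.inner_single_right]
  have e3 : inner ℝ (ee a) (P (ee b)) = (P (ee b)) a := by
    simp [ee, EuclideanSpace.inner_single_left]
  rw [← e2, ← e3, e1]

/-- Pull back by a map into `V` only sees the tangential part. -/
theorem pull_tan {P : RE m →L[ℝ] RE m} (hs : ContinuousLinearMap.adjoint P = P)
    {A : RE k →L[ℝ] RE m} (hA : P.comp A = A) (u : HF m κ) :
    Lam (ContinuousLinearMap.adjoint A) (Lam P u) = Lam (ContinuousLinearMap.adjoint A) u := by
  rw [← Lam_comp_apply]
  congr 2
  rw [← hs, ← ContinuousLinearMap.adjoint_comp, hA]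

/-- The ambient and the tangential exterior derivative have the same pull back. -/
theorem pull_dtan {P : RE m →L[ℝ] RE m} (hs : ContinuousLinearMap.adjoint P = P)
    {A : RE k →L[ℝ] RE m} (hA : P.comp A = A) (L : RE m →L[ℝ] HF m κ) :
    Lam (ContinuousLinearMap.adjoint A) (∑ a, eps a (Lam P (L (P (ee a))))) =
      Lam (ContinuousLinearMap.adjoint A) (∑ a, eps a (L (ee a))) := by
  have hA' : ∀ v, ContinuousLinearMap.adjoint A (P v) = ContinuousLinearMap.adjoint A v := by
    intro v
    have h1 : (ContinuousLinearMap.adjoint A).comp P = ContinuousLinearMap.adjoint A := by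
      nth_rewrite 1 [← hs]
      rw [← ContinuousLinearMap.adjoint_comp, hA]
    exact congrArg (fun B : RE m →L[ℝ] RE k => B v) h1
  rw [map_sum, map_sum]
  have e1 : ∀ a, Lam (ContinuousLinearMap.adjoint A) (eps a (Lam P (L (P (ee a))))) =
      ∑ b, epsv (ContinuousLinearMap.adjoint A ((P (ee b)) a • ee a))
        (Lam (ContinuousLinearMap.adjoint A) (L (ee b))) := by
    intro a
    rw [Lam_eps, pull_tan hs hA, lin_expand L (P (ee a)), map_sum, map_sum]
    refine sum_congr rfl fun b _ => ?_
    rw [symm_coord hs a b]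
    have e2 : ContinuousLinearMap.adjoint A ((P (ee b)) a • ee a) =
        (P (ee b)) a • ContinuousLinearMap.adjoint A (ee a) := map_smul _ _ _
    rw [e2, epsv_smul, ← Complex.coe_smul, map_smul, map_smul]
    rfl
  rw [sum_congr rfl fun a _ => e1 a, sum_comm]
  refine sum_congr rfl fun b _ => ?_
  rw [Lam_eps, ← hA' (ee b)]
  have e3 : P (ee b) = ∑ a, (P (ee b)) a • ee a := by
    ext c
    simp [Pi.single_apply]
  conv_rhs => rw [e3]
  rw [map_sum, epsv_sum]
  simp

/-- Reconstruction of a tangential form from its pull back. -/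
theorem rebuild_form {P : RE m →L[ℝ] RE m} (hs : ContinuousLinearMap.adjoint P = P)
    {A : RE k →L[ℝ] RE m} {B : RE m →L[ℝ] RE k} (hAB : A.comp (B.comp P) = P) {u : HF m κ}
    (hu : Lam P u = u) :
    Lam P (Lam (ContinuousLinearMap.adjoint B) (Lam (ContinuousLinearMap.adjoint A) u)) = u := by
  rw [← Lam_comp_apply, ← Lam_comp_apply, ContinuousLinearMap.comp_assoc]
  have h1 : P.comp ((ContinuousLinearMap.adjoint B).comp (ContinuousLinearMap.adjoint A)) = P := by
    have h2 := congrArg ContinuousLinearMap.adjoint hAB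
    rw [ContinuousLinearMap.adjoint_comp, ContinuousLinearMap.adjoint_comp, hs] at h2
    rw [← ContinuousLinearMap.comp_assoc]
    exact h2
  rw [h1, hu]

end Pool.Agent.EXO
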