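import Pool.Agent.EXO.DefC
import Pool.Agent.EXO.FmTw
import Pool.Agent.EXO.TopSu
import Pool.Agent.EXO.TopTan

/-!
# EXO / TopPc: elementary facts about the pieces of `V`
-/

set_option autoImplicit false
set_option maxSynthPendingDepth 3

open Set MeasureTheory Matrix Filter Topology
open scoped ContDiff ENNReal ComplexConjugate

namespace Pool.Agent.EXO

/-! ## Coordinates -/

theorem contDiff_toLp {E : Type*} [NormedAddCommGroup E] [NormedSpace ℝ E] {m : ℕ}
    {f : E → Fin m → ℝ} (hf : ∀ i, ContDiff ℝ ∞ fun x => f x i) :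
    ContDiff ℝ ∞ fun x => (WithLp.toLp 2 (f x) : En m) := by
  rw [contDiff_euclidean]
  intro i
  exact hf i

theorem contDiffOn_toLp {E : Type*} [NormedAddCommGroup E] [NormedSpace ℝ E] {m : ℕ}
    {f : E → Fin m → ℝ} {s : Set E} (hf : ∀ i, ContDiffOn ℝ ∞ (fun x => f x i) s) :
    ContDiffOn ℝ ∞ (fun x => (WithLp.toLp 2 (f x) : En m)) s := by
  rw [contDiffOn_euclidean]
  intro i
  exact hf i

theorem contDiff_coord {m : ℕ} (i : Fin m) : ContDiff ℝ ∞ fun x : En m => x i :=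
  contDiff_piLp_apply (𝕜 := ℝ) (p := 2)

theorem contDiff_p1 : ContDiff ℝ ∞ p1 := contDiff_toLp fun _ => contDiff_coord _
theorem contDiff_p2 : ContDiff ℝ ∞ p2 := contDiff_toLp fun _ => contDiff_coord _
theorem contDiff_p3 : ContDiff ℝ ∞ p3 := contDiff_toLp fun _ => contDiff_coord _

theorem contDiffOn_j15 {E : Type*} [NormedAddCommGroup E] [NormedSpace ℝ E] {s : Set E}
    {x y : E → En 4} {w : E → En 7} (hx : ContDiffOn ℝ ∞ x s) (hy : ContDiffOn ℝ ∞ y s)
    (hw : ContDiffOn ℝ ∞ w s) : ContDiffOn ℝ ∞ (fun e => j15 (x e) (y e) (w e)) s := by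
  refine contDiffOn_toLp fun i => ?_
  by_cases h : i.1 < 4
  · simp only [h, dite_true]
    exact (contDiff_coord _).comp_contDiffOn hx
  · by_cases h' : i.1 < 8
    · simp only [h, h', dite_true, dite_false]
      exact (contDiff_coord _).comp_contDiffOn hy
    · simp only [h, h', dite_false]
      exact (contDiff_coord _).comp_contDiffOn hw

theorem j15_apply1 (x y : En 4) (w : En 7) (i : Fin 4) : j15 x y w ⟨i, by omega⟩ = x i := by
  simp [j15]

theorem ext15 {z z' : En 15} (h1 : p1 z = p1 z') (h2 : p2 z = p2 z') (h3 : p3 z = p3 z') :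
    z = z' := by
  rw [← j15_p z, ← j15_p z', h1, h2, h3]

/-- The retraction `(x, y, w) ↦ (x, y, ρ w)`. -/
noncomputable def R15 (ρ : En 7 → En 7) (z : En 15) : En 15 := j15 (p1 z) (p2 z) (ρ (p3 z))

@[simp] theorem p1_R15 (ρ : En 7 → En 7) (z : En 15) : p1 (R15 ρ z) = p1 z := by simp [R15]
@[simp] theorem p2_R15 (ρ : En 7 → En 7) (z : En 15) : p2 (R15 ρ z) = p2 z := by simp [R15]
@[simp] theorem p3_R15 (ρ : En 7 → En 7) (z : En 15) : p3 (R15 ρ z) = ρ (p3 z) := by simp [R15]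

theorem contDiffOn_R15 {ρ : En 7 → En 7} {s : Set (En 7)} (h : ContDiffOn ℝ ∞ ρ s) :
    ContDiffOn ℝ ∞ (R15 ρ) {z | p3 z ∈ s} :=
  contDiffOn_j15 contDiff_p1.contDiffOn contDiff_p2.contDiffOn
    (h.comp contDiff_p3.contDiffOn fun _ hz => hz)

/-! ## The functions `g` -/

/-- The properties of the functions `gS`, `gK`, `g1`, `g2` which are used. -/
structure GOk (g : En 15 → ℝ) : Prop where
  cont : Continuous g
  inv : ∀ z z', p1 z = p1 z' → p2 z = p2 z' → g z = g z'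

theorem continuous_p1 : Continuous p1 := contDiff_p1.continuous
theorem continuous_p2 : Continuous p2 := contDiff_p2.continuous
theorem continuous_p3 : Continuous p3 := contDiff_p3.continuous

theorem gOk_S : GOk gS where
  cont := by
    unfold gS
    exact (continuous_p1.norm.pow 2).add (continuous_p2.norm.pow 2)
  inv := by intro z z' h1 h2; unfold gS; rw [h1, h2]

theorem gOk_1 : GOk g1 where
  cont := by
    unfold g1
    refine (continuous_p2.norm.pow 2).div
      (continuous_const.add ((continuous_p1.norm.pow 2).mul (continuous_p2.norm.pow 2))) ?_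
    intro z
    positivity
  inv := by intro z z' h1 h2; unfold g1; rw [h1, h2]

theorem gOk_2 : GOk g2 where
  cont := by
    unfold g2
    refine (continuous_p1.norm.pow 2).div
      (continuous_const.add ((continuous_p1.norm.pow 2).mul (continuous_p2.norm.pow 2))) ?_
    intro z
    positivity
  inv := by intro z z' h1 h2; unfold g2; rw [h1, h2]

theorem gK_le1 (z : En 15) : gK z ≤ ‖p1 z‖ ^ 2 := by
  unfold gK
  by_cases h : ‖p1 z‖ ^ 2 + ‖p2 z‖ ^ 2 = 0
  · rw [h, div_zero]; positivity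
  · have h' : 0 < ‖p1 z‖ ^ 2 + ‖p2 z‖ ^ 2 := lt_of_le_of_ne (by positivity) (Ne.symm h)
    rw [div_le_iff₀ h']
    nlinarith [sq_nonneg ‖p1 z‖, sq_nonneg ‖p2 z‖, sq_nonneg (‖p1 z‖ ^ 2)]

theorem gK_le2 (z : En 15) : gK z ≤ ‖p2 z‖ ^ 2 := by
  unfold gK
  by_cases h : ‖p1 z‖ ^ 2 + ‖p2 z‖ ^ 2 = 0
  · rw [h, div_zero]; positivity
  · have h' : 0 < ‖p1 z‖ ^ 2 + ‖p2 z‖ ^ 2 := lt_of_le_of_ne (by positivity) (Ne.symm h)
    rw [div_le_iff₀ h']
    nlinarith [sq_nonneg ‖p1 z‖, sq_nonneg ‖p2 z‖, sq_nonneg (‖p2 z‖ ^ 2)]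

theorem gK_nonneg (z : En 15) : 0 ≤ gK z := by
  unfold gK; positivity

theorem gOk_K : GOk gK where
  cont := by
    rw [continuous_iff_continuousAt]
    intro z
    by_cases h : ‖p1 z‖ ^ 2 + ‖p2 z‖ ^ 2 = 0
    · have h1 : ‖p1 z‖ ^ 2 = 0 := by nlinarith [sq_nonneg ‖p1 z‖, sq_nonneg ‖p2 z‖]
      have h2 : gK z = 0 := le_antisymm ((gK_le1 z).trans h1.le) (gK_nonneg z)
      rw [ContinuousAt, h2]
      have h3 : Tendsto (fun z => ‖p1 z‖ ^ 2) (𝓝 z) (𝓝 0) := by
        have h4 : Tendsto (fun z => ‖p1 z‖ ^ 2) (𝓝 z) (𝓝 (‖p1 z‖ ^ 2)) :=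
          (continuous_p1.norm.pow 2).tendsto z
        rwa [h1] at h4
      exact squeeze_zero gK_nonneg gK_le1 h3
    · unfold gK
      exact (((continuous_p1.norm.pow 2).mul (continuous_p2.norm.pow 2)).continuousAt).div
        (((continuous_p1.norm.pow 2).add (continuous_p2.norm.pow 2)).continuousAt) h
  inv := by intro z z' h1 h2; unfold gK; rw [h1, h2]

/-! ## The collar -/

theorem Collar.sub {N : Set (En 7)} (C : Collar N) : N ⊆ C.O := by
  intro n hn
  have h := C.io_mem n hn 0 (by norm_num)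
  rw [C.io_zero n hn] at h
  exact h.1

theorem Collar.rho_fix {N : Set (En 7)} (C : Collar N) {n : En 7} (hn : n ∈ N) :
    C.rho n = n := by
  have h := (C.io_mem n hn 0 (by norm_num)).2.1
  rwa [C.io_zero n hn] at h

theorem Collar.rho_mem {N : Set (En 7)} (C : Collar N) {w : En 7} (hw : w ∈ C.O) :
    C.rho w ∈ N := (C.io_rho w hw).1

section

variable {N : Set (En 7)} {C : Collar N} {g : En 15 → ℝ}

theorem isOpen_dom (hg : GOk g) {U : Set (En 7)} (hU : IsOpen U) (c : ℝ) :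
    IsOpen (dom g U c) :=
  (isOpen_lt hg.cont continuous_const).inter (hU.preimage continuous_p3)

theorem dom_sub (C : Collar N) {c : ℝ} {z : En 15} (hz : z ∈ dom g N c) : z ∈ dom g C.O c :=
  ⟨hz.1, C.sub hz.2⟩

theorem R_mem (hg : GOk g) {c : ℝ} {z : En 15} (hz : z ∈ dom g C.O c) :
    R15 C.rho z ∈ dom g N c := by
  refine ⟨?_, ?_⟩
  · rw [hg.inv (R15 C.rho z) z (p1_R15 _ _) (p2_R15 _ _)]
    exact hz.1
  · rw [p3_R15]
    exact C.rho_mem hz.2

theorem R_fix {c : ℝ} {z : En 15} (hz : z ∈ dom g N c) : R15 C.rho z = z := by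
  refine ext15 (p1_R15 _ _) (p2_R15 _ _) ?_
  rw [p3_R15, C.rho_fix hz.2]

theorem contDiffAt_R (_hg : GOk g) {c : ℝ} {z : En 15} (hz : z ∈ dom g C.O c) :
    ContDiffAt ℝ ∞ (R15 C.rho) z :=
  (contDiffOn_R15 C.smooth_rho).contDiffAt
    ((C.openO.preimage continuous_p3).mem_nhds hz.2)

end

/-! ## Pieces -/

namespace VPiece

variable {N : Set (En 7)} {C : Collar N} {n M : ℕ} {V : Geo n M} {g : En 15 → ℝ}
  (p : VPiece C V.carrier g)

theorem Psi_R (_hg : GOk g) {z : En 15} (hz : z ∈ dom g C.O 20000) :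
    p.Ψ (R15 C.rho z) = p.Ψ z := by
  have h1 := p.left z hz
  have h2 := p.right _ (p.maps z hz)
  rw [h1] at h2
  exact h2

theorem Phi_Psi {z : En 15} (hz : z ∈ dom g C.O 20000) : p.Φ (p.Ψ z) = R15 C.rho z :=
  p.left z hz

theorem contDiffAt_Psi (hg : GOk g) {z : En 15} (hz : z ∈ dom g C.O 20000) :
    ContDiffAt ℝ ∞ p.Ψ z :=
  p.smoothΨ.contDiffAt ((isOpen_dom hg C.openO _).mem_nhds hz)

theorem contDiffAt_Phi {y : En M} (hy : y ∈ p.O) : ContDiffAt ℝ ∞ p.Φ y :=
  p.smoothΦ.contDiffAt (p.openO.mem_nhds hy)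

theorem diff_Psi (hg : GOk g) {z : En 15} (hz : z ∈ dom g C.O 20000) :
    DifferentiableAt ℝ p.Ψ z := (p.contDiffAt_Psi hg hz).differentiableAt (by simp)

theorem diff_Phi {y : En M} (hy : y ∈ p.O) : DifferentiableAt ℝ p.Φ y :=
  (p.contDiffAt_Phi hy).differentiableAt (by simp)

/-- `P A = A`. -/
theorem PA (hg : GOk g) {z : En 15} (hz : z ∈ dom g C.O 20000) :
    (V.P (p.Ψ z)).comp (fderiv ℝ p.Ψ z) = fderiv ℝ p.Ψ z := by
  ext1 w
  refine su_tan V (p.diff_Psi hg hz) ?_ w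
  filter_upwards [(isOpen_dom hg C.openO _).mem_nhds hz] with z' hz'
  exact (p.maps z' hz').1

/-- `A B P = P`. -/
theorem ABP (hg : GOk g) {y : En M} (hy : y ∈ V.carrier ∩ p.O) :
    (fderiv ℝ p.Ψ (p.Φ y)).comp ((fderiv ℝ p.Φ y).comp (V.P y)) = V.P y := by
  have hz : p.Φ y ∈ dom g C.O 20000 := dom_sub C (p.mapsΦ y hy)
  have h1 : HasFDerivAt (fun y => p.Ψ (p.Φ y) - y)
      ((fderiv ℝ p.Ψ (p.Φ y)).comp (fderiv ℝ p.Φ y) - ContinuousLinearMap.id ℝ _) y :=
    ((p.diff_Psi hg hz).hasFDerivAt.comp y (p.diff_Phi hy.2).hasFDerivAt).sub (hasFDerivAt_id y)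
  ext1 w
  have h2 := su_local V hy.1 h1.differentiableAt ?_ w
  · rw [h1.fderiv] at h2
    simp only [_root_.sub_apply, ContinuousLinearMap.comp_apply,
      ContinuousLinearMap.id_apply] at h2
    simp only [ContinuousLinearMap.comp_apply]
    exact sub_eq_zero.1 h2
  · filter_upwards [p.openO.mem_nhds hy.2] with y' hy' hV
    rw [p.right y' ⟨hV, hy'⟩, sub_self]

/-- `B A = DR`. -/
theorem BA (hg : GOk g) {z : En 15} (hz : z ∈ dom g C.O 20000) :
    (fderiv ℝ p.Φ (p.Ψ z)).comp (fderiv ℝ p.Ψ z) = fderiv ℝ (R15 C.rho) z := by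
  have h1 := (p.diff_Phi (p.maps z hz).2).hasFDerivAt.comp z (p.diff_Psi hg hz).hasFDerivAt
  rw [← h1.fderiv]
  refine Filter.EventuallyEq.fderiv_eq ?_
  filter_upwards [(isOpen_dom hg C.openO _).mem_nhds hz] with z' hz'
  exact p.Phi_Psi hz'

/-- `A(Rz) DR = A(z)`. -/
theorem AR (hg : GOk g) {z : En 15} (hz : z ∈ dom g C.O 20000) :
    (fderiv ℝ p.Ψ (R15 C.rho z)).comp (fderiv ℝ (R15 C.rho) z) = fderiv ℝ p.Ψ z := by
  have hz' : R15 C.rho z ∈ dom g C.O 20000 := dom_sub C (R_mem hg hz)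
  have h1 := (p.diff_Psi hg hz').hasFDerivAt.comp z
    ((contDiffAt_R hg hz).differentiableAt (by simp)).hasFDerivAt
  rw [← h1.fderiv]
  refine Filter.EventuallyEq.fderiv_eq ?_
  filter_upwards [(isOpen_dom hg C.openO _).mem_nhds hz] with z' hz'
  exact p.Psi_R hg hz'

end VPiece

namespace Geo

variable {n M : ℕ} (V : Geo n M)

theorem P_adj {x : En M} (hx : x ∈ V.carrier) : ContinuousLinearMap.adjoint (V.P x) = V.P x := by
  symm
  rw [ContinuousLinearMap.eq_adjoint_iff]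
  intro v w
  exact V.P_sa x hx v w

theorem P_comp {x : En M} (hx : x ∈ V.carrier) : (V.P x).comp (V.P x) = V.P x := by
  ext1 v
  exact V.P_idem x hx v

end Geo

/-- Pullback by a composition, pointwise. -/
theorem pull_pull {m k l : ℕ} {κ : Type*} [Fintype κ] {F : RE l → RE k} {G : RE k → RE m}
    {u : RE m → HF m κ} {x : RE l} (hF : DifferentiableAt ℝ F x)
    (hG : DifferentiableAt ℝ G (F x)) : pull F (pull G u) x = pull (G ∘ F) u x := by
  unfold pull
  rw [fderiv_comp x hG hF, ContinuousLinearMap.adjoint_comp, Lam_comp_apply]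
  rfl

theorem pull_congr_left {m k : ℕ} {κ : Type*} [Fintype κ] {F G : RE k → RE m}
    {u : RE m → HF m κ} {x : RE k} (h : F =ᶠ[𝓝 x] G) : pull F u x = pull G u x := by
  unfold pull
  rw [h.fderiv_eq, h.eq_of_nhds]

/-- Pullback only sees the tangential part. -/
theorem pull_Lam_P {n m k : ℕ} {κ : Type*} [Fintype κ] (V : Geo n m) {F : RE k → RE m}
    {x : RE k} (hx : F x ∈ V.carrier) (hF : (V.P (F x)).comp (fderiv ℝ F x) = fderiv ℝ F x)
    (u : RE m → HF m κ) : pull F (fun y => Lam (V.P y) (u y)) x = pull F u x := by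
  unfold pull
  exact pull_tan (V.P_adj hx) hF (u (F x))

theorem pull_rebuild {n m k : ℕ} {κ : Type*} [Fintype κ] (V : Geo n m) {F : RE k → RE m}
    {G : RE m → RE k} {y : RE m} (hy : y ∈ V.carrier) (hGF : F (G y) = y)
    (hAB : (fderiv ℝ F (G y)).comp ((fderiv ℝ G y).comp (V.P y)) = V.P y) {u : RE m → HF m κ}
    (hu : Lam (V.P y) (u y) = u y) : Lam (V.P y) (pull G (pull F u) y) = u y := by
  unfold pull
  rw [hGF]
  exact rebuild_form (V.P_adj hy) hAB hu

section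

variable {N : Set (En 7)} {C : Collar N} {n M : ℕ} {V : Geo n M} {g : En 15 → ℝ}
  (p : VPiece C V.carrier g) {κ : Type} [Fintype κ]

/-- Reconstruction of a tangential form from its pull back. -/
theorem VPiece.rebuild (hg : GOk g) {y : En M} (hy : y ∈ V.carrier ∩ p.O) {u : En M → HF M κ}
    (hu : Lam (V.P y) (u y) = u y) :
    Lam (V.P y) (pull p.Φ (pull p.Ψ u) y) = u y :=
  pull_rebuild V hy.1 (p.right y hy) (p.ABP hg hy) hu

/-- Two tangential forms with the same pull back at a point are equal there. -/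
theorem VPiece.eq_of_pull (hg : GOk g) {y : En M} (hy : y ∈ V.carrier ∩ p.O)
    {u w : En M → HF M κ} (hu : Lam (V.P y) (u y) = u y) (hw : Lam (V.P y) (w y) = w y)
    (h : pull p.Ψ u (p.Φ y) = pull p.Ψ w (p.Φ y)) : u y = w y := by
  have h1 := p.rebuild hg hy hu
  have h2 := p.rebuild hg hy hw
  have h3 : pull p.Φ (pull p.Ψ u) y = pull p.Φ (pull p.Ψ w) y := congrArg _ h
  rw [h3, h2] at h1
  exact h1.symm

/-- The pull back is invariant under `R`. -/
theorem VPiece.pull_R (hg : GOk g) (u : En M → HF M κ) {z : En 15}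
    (hz : z ∈ dom g C.O 20000) :
    pull (R15 C.rho) (pull p.Ψ u) z = pull p.Ψ u z := by
  have hz' : R15 C.rho z ∈ dom g C.O 20000 := dom_sub C (R_mem hg hz)
  rw [pull_pull ((contDiffAt_R hg hz).differentiableAt (by simp)) (p.diff_Psi hg hz')]
  refine pull_congr_left ?_
  filter_upwards [(isOpen_dom hg C.openO _).mem_nhds hz] with z' hz'
  exact p.Psi_R hg hz'

end

end Pool.Agent.EXO
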