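import Mathlib
import Pool.Agent.EXO.DefG
import Pool.Agent.EXO.GbAd
import Pool.Agent.EXO.GbTha

/-!
# EXO / TwA: algebra of the twisting map (part VCL)

NOTE: GbAd and GbTha (namespace `EXO`) already prove `EXO.imq_Adq`, `EXO.Adq_mul`, `EXO.Adq_one`, `EXO.norm_Adq`, `EXO.norm_imq`, `EXO.star_mul_of_norm`, `EXO.norm_tha`,
`EXO.tha_out`, `EXO.tha_in`: use them (`0 < l` is needed there; where `l` is arbitrary here argue directly).

PROOF.  `tha l x = cos ψ + imq((sin ψ / ‖x‖) x)`, `‖x‖ ≠ 0` or `x = 0` (then `ψ = π`, `sin ψ = 0`): the norm square of the quaternion is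
`cos² + sin²` (for `x ≠ 0`; for `x = 0` the vector is `(0/0)•0 = 0` and `psi l 0 = π (1 - stp(-1/2)) = π`, `cos π = -1`).  Use
`Quaternion.ext`, `Quaternion.self_mul_star`/`normSq`.
`rot4 q y = (y 0, vim (q (imq (vec4 y)) (star q)))`.  For a unit quaternion `q`: `‖vim (q v (star q))‖ = ‖v‖` (`normSq` is multiplicative and
`q (imq v) (star q)` is purely imaginary: its real part is `0` for every `q`; check with `simp` on coordinates and `ring`), so
`rot4 q` preserves the norm.  `rot4 (q r) = rot4 q ∘ rot4 r` for all quaternions `q r` (`star (q r) = star r * star q`; and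
`imq (vim a) = a` for purely imaginary `a`).  `rot4 1 = id`.
`tha4 l (r • x) = tha4 l x` for `r > 0`: `(r x)_0 > 0 ↔ x_0 > 0` and the ratio is the same.
`ivn x = (‖x‖²)⁻¹ • x`, `‖ivn x‖ = ‖x‖⁻¹`; `rot4 q` is linear and norm preserving so it commutes with `ivn`.
-/

set_option autoImplicit false
set_option maxSynthPendingDepth 3

open Set
open scoped ContDiff Quaternion

namespace Pool.Agent.EXO

private theorem TwA_re (v : En 3) : (imq v).re = 0 := rfl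
private theorem TwA_imI (v : En 3) : (imq v).imI = v 0 := rfl
private theorem TwA_imJ (v : En 3) : (imq v).imJ = v 1 := rfl
private theorem TwA_imK (v : En 3) : (imq v).imK = v 2 := rfl

private theorem TwA_imq_smul (c : ℝ) (v : En 3) : imq (c • v) = c • imq v := by
  ext <;> simp [TwA_re, TwA_imI, TwA_imJ, TwA_imK]

private theorem TwA_eq (l : ℝ) (x : En 3) : tha l x
    = Real.cos (psi l ‖x‖) • (1 : ℍ[ℝ]) + (Real.sin (psi l ‖x‖) / ‖x‖) • imq x := by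
  rw [tha, TwA_imq_smul]
  congr 1
  ext <;> simp

private theorem TwA_normsq (x : En 3) : ‖x‖ ^ 2 = x 0 ^ 2 + x 1 ^ 2 + x 2 ^ 2 := by
  rw [EuclideanSpace.norm_sq_eq, Fin.sum_univ_three]
  simp [sq_abs]

theorem psi_zero (l : ℝ) : psi l 0 = Real.pi := by
  have h1 : 4 * ((0 : ℝ) / l - 1 / 8) ≤ 0 := by
    rw [zero_div]
    norm_num
  rw [psi, stp, Real.smoothTransition.zero_of_nonpos h1, sub_zero, mul_one]

theorem tha_zero (l : ℝ) : tha l 0 = -1 := by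
  rw [TwA_eq, norm_zero, psi_zero]
  simp

theorem tha_mul_star (l : ℝ) (x : En 3) : tha l x * star (tha l x) = 1 := by
  have h1 : Quaternion.normSq (tha l x) = 1 := by
    rw [Quaternion.normSq_def', TwA_eq]
    have e : ∀ c s : ℝ, (c • (1 : ℍ[ℝ]) + s • imq x).re ^ 2 + (c • (1 : ℍ[ℝ]) + s • imq x).imI ^ 2
        + (c • (1 : ℍ[ℝ]) + s • imq x).imJ ^ 2 + (c • (1 : ℍ[ℝ]) + s • imq x).imK ^ 2
        = c ^ 2 + s ^ 2 * ‖x‖ ^ 2 := by
      intro c s
      rw [TwA_normsq]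
      simp [TwA_re, TwA_imI, TwA_imJ, TwA_imK]
      ring
    rw [e]
    rcases eq_or_ne x 0 with h | h
    · rw [h, norm_zero, psi_zero]
      simp
    · have h2 : ‖x‖ ≠ 0 := norm_ne_zero_iff.2 h
      rw [div_pow, div_mul_cancel₀ _ (pow_ne_zero 2 h2), add_comm]
      exact Real.sin_sq_add_cos_sq _
  rw [Quaternion.self_mul_star, h1]
  exact Quaternion.coe_one

theorem tha_eq_one {l : ℝ} (hl : 0 < l) {x : En 3} (hx : 3 * l / 8 ≤ ‖x‖) : tha l x = 1 :=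
  _root_.EXO.tha_out hl hx

theorem tha_eq_neg_one {l : ℝ} (hl : 0 < l) {x : En 3} (hx : ‖x‖ ≤ l / 8) : tha l x = -1 :=
  _root_.EXO.tha_in hl hx

theorem tha4_mul_star (l : ℝ) (x : En 4) : tha4 l x * star (tha4 l x) = 1 := by
  unfold tha4
  split_ifs with h
  · exact tha_mul_star l _
  · rw [star_one, mul_one]

private theorem TwA_star_mul {q : ℍ[ℝ]} (hq : q * star q = 1) : star q * q = 1 := by
  rw [Quaternion.self_mul_star] at hq
  rw [Quaternion.star_mul_self, hq]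

theorem star_mul_tha4 (l : ℝ) (x : En 4) : star (tha4 l x) * tha4 l x = 1 :=
  TwA_star_mul (tha4_mul_star l x)

theorem vim_imq (v : En 3) : vim (imq v) = v := by
  ext i
  fin_cases i <;> rfl

private theorem TwA_rot4 (q : ℍ[ℝ]) (y : En 4) : rot4 q y = mk4 (y 0) (Adq q (vec4 y)) := rfl

private theorem TwA_mk4_zero (t : ℝ) (v : En 3) : mk4 t v 0 = t := rfl

private theorem TwA_vec4_mk4 (t : ℝ) (v : En 3) : vec4 (mk4 t v) = v := by
  ext i
  fin_cases i <;> rfl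

private theorem TwA_mk4_vec4 (y : En 4) : mk4 (y 0) (vec4 y) = y := by
  ext i
  fin_cases i <;> rfl

theorem rot4_coord0 (q : ℍ[ℝ]) (y : En 4) : rot4 q y 0 = y 0 := by
  rw [TwA_rot4, TwA_mk4_zero]

theorem vec4_rot4 (q : ℍ[ℝ]) (y : En 4) : vec4 (rot4 q y) = Adq q (vec4 y) := by
  rw [TwA_rot4, TwA_vec4_mk4]

theorem Adq_mul (q r : ℍ[ℝ]) (v : En 3) : Adq (q * r) v = Adq q (Adq r v) := by
  rw [_root_.EXO.Adq_mul, ContinuousLinearMap.comp_apply]

theorem Adq_one (v : En 3) : Adq 1 v = v := by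
  rw [_root_.EXO.Adq_one, ContinuousLinearMap.id_apply]

theorem Adq_neg (q : ℍ[ℝ]) (v : En 3) : Adq (-q) v = Adq q v := by
  apply _root_.EXO.imq_inj
  rw [_root_.EXO.imq_Adq, _root_.EXO.imq_Adq, star_neg, neg_mul, neg_mul, mul_neg, neg_neg]

theorem norm_Adq {q : ℍ[ℝ]} (hq : q * star q = 1) (v : En 3) : ‖Adq q v‖ = ‖v‖ := by
  apply _root_.EXO.norm_Adq
  have h1 : ‖q‖ * ‖q‖ = 1 := by
    have h2 := congrArg (fun a : ℍ[ℝ] => ‖a‖) hq
    simpa [norm_mul, Quaternion.norm_star] using h2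
  have h3 : 0 ≤ ‖q‖ := norm_nonneg _
  nlinarith

theorem rot4_mul (q r : ℍ[ℝ]) (y : En 4) : rot4 (q * r) y = rot4 q (rot4 r y) := by
  rw [TwA_rot4, TwA_rot4 q, rot4_coord0, vec4_rot4, Adq_mul]

theorem rot4_one (y : En 4) : rot4 1 y = y := by
  rw [TwA_rot4, Adq_one, TwA_mk4_vec4]

theorem norm_sq_four (y : En 4) : ‖y‖ ^ 2 = y 0 ^ 2 + ‖vec4 y‖ ^ 2 := by
  rw [TwA_normsq, EuclideanSpace.real_norm_sq_eq, Fin.sum_univ_four]
  simp [vec4]
  ring

theorem norm_rot4 {q : ℍ[ℝ]} (hq : q * star q = 1) (y : En 4) : ‖rot4 q y‖ = ‖y‖ := by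
  rw [← sq_eq_sq₀ (norm_nonneg _) (norm_nonneg _), norm_sq_four, norm_sq_four y, rot4_coord0,
    vec4_rot4, norm_Adq hq]

theorem vc_tha4_smul (l : ℝ) {r : ℝ} (hr : 0 < r) (x : En 4) : tha4 l (r • x) = tha4 l x := by
  have h0 : (r • x) 0 = r * x 0 := rfl
  have h1 : vec4 (r • x) = r • vec4 x := by
    ext i
    fin_cases i <;> simp [vec4]
  have h2 : 0 < r * x 0 ↔ 0 < x 0 := mul_pos_iff_of_pos_left hr
  unfold tha4
  simp only [h0, h1, h2]
  split_ifs with h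
  · rw [smul_smul, mul_inv, mul_comm r⁻¹, mul_assoc, inv_mul_cancel₀ hr.ne', mul_one]
  · rfl

theorem vc_tw_twi (l : ℝ) (x y : En 4) : tw l x (twi l x y) = y := by
  rw [tw, twi, ← rot4_mul, tha4_mul_star, rot4_one]

theorem vc_twi_tw (l : ℝ) (x y : En 4) : twi l x (tw l x y) = y := by
  rw [tw, twi, ← rot4_mul, star_mul_tha4, rot4_one]

theorem vc_norm_tw (l : ℝ) (x y : En 4) : ‖tw l x y‖ = ‖y‖ :=
  norm_rot4 (tha4_mul_star l x) y

theorem vc_norm_twi (l : ℝ) (x y : En 4) : ‖twi l x y‖ = ‖y‖ := by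
  refine norm_rot4 ?_ y
  rw [star_star]
  exact star_mul_tha4 l x

theorem vc_tw_smul (l : ℝ) {r : ℝ} (hr : 0 < r) (x : En 4) : tw l (r • x) = tw l x := by
  rw [tw, tw, vc_tha4_smul l hr]

theorem vc_twi_smul (l : ℝ) {r : ℝ} (hr : 0 < r) (x : En 4) : twi l (r • x) = twi l x := by
  rw [twi, twi, vc_tha4_smul l hr]

theorem vc_norm_ivn {m : ℕ} (x : En m) : ‖ivn x‖ = ‖x‖⁻¹ := by
  rw [ivn, norm_smul, Real.norm_of_nonneg (by positivity)]
  rcases eq_or_ne x 0 with h | h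
  · rw [h, norm_zero, mul_zero, inv_zero]
  · have h2 : ‖x‖ ≠ 0 := norm_ne_zero_iff.2 h
    field_simp

private theorem TwA_pos {m : ℕ} {x : En m} (hx : x ≠ 0) : 0 < (‖x‖ ^ 2)⁻¹ := by
  have : 0 < ‖x‖ := norm_pos_iff.2 hx
  positivity

theorem vc_ivn_ivn {m : ℕ} {x : En m} (hx : x ≠ 0) : ivn (ivn x) = x := by
  have h2 : ‖x‖ ≠ 0 := norm_ne_zero_iff.2 hx
  rw [ivn, vc_norm_ivn, ivn, smul_smul]
  have : ((‖x‖⁻¹ ^ 2)⁻¹ * (‖x‖ ^ 2)⁻¹) = 1 := by
    field_simp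
  rw [this, one_smul]

theorem ivn_ne_zero {m : ℕ} {x : En m} (hx : x ≠ 0) : ivn x ≠ 0 :=
  smul_ne_zero (TwA_pos hx).ne' hx

theorem ivn_smul {m : ℕ} {r : ℝ} (hr : 0 < r) (x : En m) : ivn (r • x) = r⁻¹ • ivn x := by
  rw [ivn, ivn, norm_smul, Real.norm_of_nonneg hr.le, smul_smul, smul_smul]
  congr 1
  rw [mul_pow, mul_inv]
  field_simp

theorem vc_tw_ivn (l : ℝ) {x : En 4} (hx : x ≠ 0) : tw l (ivn x) = tw l x :=
  vc_tw_smul l (TwA_pos hx) x

theorem vc_twi_ivn (l : ℝ) {x : En 4} (hx : x ≠ 0) : twi l (ivn x) = twi l x :=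
  vc_twi_smul l (TwA_pos hx) x

theorem ivn_tw (l : ℝ) (x y : En 4) : ivn (tw l x y) = tw l x (ivn y) := by
  rw [ivn, ivn, vc_norm_tw, map_smul]

theorem ivn_twi (l : ℝ) (x y : En 4) : ivn (twi l x y) = twi l x (ivn y) := by
  rw [ivn, ivn, vc_norm_twi, map_smul]

end Pool.Agent.EXO
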