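import Mathlib
import Pool.Agent.EXO.DefG
import Pool.Agent.EXO.TopPc
import Pool.Agent.EXO.GbAd
import Pool.Agent.EXO.GbTha
import Pool.Agent.EXO.TwA

/-!
# EXO / TwB: smoothness of the twisting map (part VCL)

NOTE: `EXO.contDiff_Adq`, `EXO.contDiff_imq` (GbAd), `EXO.contDiff_tha` (GbTha), `contDiff_p1/p2/p3`, `contDiff_toLp`, `contDiffOn_j15` (TopPc) are already proved.

PROOF.  `stp = Real.smoothTransition` is smooth (`Real.smoothTransition.contDiff`).  `tha l` is smooth: near a point `x ≠ 0` the norm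
is smooth (`contDiffAt_norm`) and everything is a composition; on the ball `‖x‖ < l/8` one has `psi l ‖x‖ = π`
(`Real.smoothTransition.zero_of_nonpos`), so `tha l x = -1` is constant there (`sin π = 0`).
`tha4 l` on `{x ≠ 0}`: if `x_0 > 0`: composition with the smooth map `x ↦ x_0⁻¹ • vec4 x`, eventually `0 < x_0`.  If `x_0 < 0`:
locally constant `1`.  If `x_0 = 0`: `vec4 x ≠ 0`, and near `x` either `x_0 ≤ 0` or `‖x_0⁻¹ • vec4 x‖ ≥ 3l/8`, where `tha l = 1`
(`smoothTransition.one_of_one_le`; `4 (r/l - 1/8) ≥ 1`), so `tha4 l = 1` near `x`.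
`rot4 q` depends polynomially on `q`: `q ↦ rot4 q` is smooth, e.g. because `q ↦ rot4 q y` is smooth for each `y`
(`contDiff_clm_apply_iff`, finite dimension) or because it is a quadratic polynomial in the coordinates; `star` is linear.
Use `Quaternion` as a finite dimensional real normed algebra: `Quaternion.instNormedAddCommGroup...`; the coordinates `re`, `imI`, `imJ`, `imK`
are continuous linear (finite dimension: `LinearMap.toContinuousLinearMap`).
-/

set_option autoImplicit false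
set_option maxSynthPendingDepth 3

open Set
open scoped ContDiff Quaternion

namespace Pool.Agent.EXO

theorem contDiff_stp : ContDiff ℝ ∞ stp := Real.smoothTransition.contDiff

theorem contDiff_tha {l : ℝ} (hl : 0 < l) : ContDiff ℝ ∞ (tha l) :=
  _root_.EXO.contDiff_tha hl

private theorem TwB_vec4 : ContDiff ℝ ∞ vec4 := by
  have h : vec4 = fun x : En 4 => (WithLp.toLp 2 ![x 1, x 2, x 3] : En 3) := rfl
  rw [h]
  refine contDiff_toLp fun i => ?_
  fin_cases i
  · exact contDiff_coord 1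
  · exact contDiff_coord 2
  · exact contDiff_coord 3

theorem vc_contDiffOn_tha4 {l : ℝ} (hl : 0 < l) : ContDiffOn ℝ ∞ (tha4 l) {0}ᶜ := by
  intro x hx
  apply ContDiffAt.contDiffWithinAt
  have hc0 : Continuous fun y : En 4 => y 0 := (contDiff_coord 0).continuous
  rcases lt_trichotomy (x 0) 0 with h | h | h
  · have h1 : tha4 l =ᶠ[nhds x] fun _ => 1 := by
      filter_upwards [(isOpen_lt hc0 continuous_const).mem_nhds h] with y hy
      rw [tha4, if_neg (not_lt.2 (le_of_lt hy))]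
    exact contDiffAt_const.congr_of_eventuallyEq h1
  · have hv : 0 < ‖vec4 x‖ := by
      rw [norm_pos_iff]
      intro h2
      apply hx
      rw [mem_singleton_iff]
      have h3 := norm_sq_four x
      rw [h, h2, norm_zero] at h3
      have h4 : ‖x‖ ^ 2 = 0 := by rw [h3]; ring
      exact norm_eq_zero.1 (pow_eq_zero_iff (two_ne_zero) |>.1 h4)
    have h1 : tha4 l =ᶠ[nhds x] fun _ => 1 := by
      have ho : IsOpen {y : En 4 | 3 * l / 8 * y 0 < ‖vec4 y‖} :=
        isOpen_lt (continuous_const.mul hc0) TwB_vec4.continuous.norm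
      have hm : x ∈ {y : En 4 | 3 * l / 8 * y 0 < ‖vec4 y‖} := by
        show 3 * l / 8 * x 0 < ‖vec4 x‖
        rw [h, mul_zero]
        exact hv
      filter_upwards [ho.mem_nhds hm] with y hy
      rw [tha4]
      split_ifs with h5
      · apply tha_eq_one hl
        rw [norm_smul, Real.norm_of_nonneg (inv_nonneg.2 h5.le), ← div_eq_inv_mul, le_div_iff₀ h5]
        exact le_of_lt hy
      · rfl
    exact contDiffAt_const.congr_of_eventuallyEq h1
  · have h1 : tha4 l =ᶠ[nhds x] fun y => tha l ((y 0)⁻¹ • vec4 y) := by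
      filter_upwards [(isOpen_lt continuous_const hc0).mem_nhds h] with y hy
      rw [tha4, if_pos hy]
    refine ContDiffAt.congr_of_eventuallyEq ?_ h1
    exact (contDiff_tha hl).contDiffAt.comp x
      (((contDiff_coord 0).contDiffAt.inv h.ne').smul TwB_vec4.contDiffAt)

theorem contDiff_Adq : ContDiff ℝ ∞ fun q : ℍ[ℝ] => Adq q :=
  _root_.EXO.contDiff_Adq

theorem vc_contDiff_rot4 : ContDiff ℝ ∞ fun q : ℍ[ℝ] => rot4 q := by
  rw [contDiff_clm_apply_iff]
  intro y
  have h1 : ContDiff ℝ ∞ fun q : ℍ[ℝ] => Adq q (vec4 y) := contDiff_clm_apply_iff.1 contDiff_Adq _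
  have h : (fun q : ℍ[ℝ] => rot4 q y) = fun q : ℍ[ℝ] => (WithLp.toLp 2
      ![y 0, Adq q (vec4 y) 0, Adq q (vec4 y) 1, Adq q (vec4 y) 2] : En 4) := rfl
  rw [h]
  refine contDiff_toLp fun i => ?_
  fin_cases i
  · exact contDiff_const
  · exact (contDiff_coord 0).comp h1
  · exact (contDiff_coord 1).comp h1
  · exact (contDiff_coord 2).comp h1

private noncomputable def TwB_starL : ℍ[ℝ] →L[ℝ] ℍ[ℝ] :=
  LinearMap.toContinuousLinearMap
    { toFun := fun q => star q
      map_add' := fun u v => star_add u v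
      map_smul' := by
        intro c u
        apply Quaternion.ext <;> simp }

theorem vc_contDiffOn_tw {l : ℝ} (hl : 0 < l) : ContDiffOn ℝ ∞ (tw l) {0}ᶜ :=
  vc_contDiff_rot4.comp_contDiffOn (vc_contDiffOn_tha4 hl)

theorem vc_contDiffOn_twi {l : ℝ} (hl : 0 < l) : ContDiffOn ℝ ∞ (twi l) {0}ᶜ :=
  (vc_contDiff_rot4.comp TwB_starL.contDiff).comp_contDiffOn (vc_contDiffOn_tha4 hl)

theorem vc_contDiffOn_ivn {m : ℕ} : ContDiffOn ℝ ∞ (ivn : En m → En m) {0}ᶜ := by
  have h : (ivn : En m → En m) = fun x => (‖x‖ ^ 2)⁻¹ • x := rfl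
  rw [h]
  have h1 : ContDiffOn ℝ ∞ (fun x : En m => ‖x‖ ^ 2) {0}ᶜ := (contDiff_norm_sq ℝ).contDiffOn
  have h2 : ContDiffOn ℝ ∞ (fun x : En m => (‖x‖ ^ 2)⁻¹) {0}ᶜ :=
    h1.inv fun x hx => pow_ne_zero 2 (norm_ne_zero_iff.2 hx)
  exact h2.smul contDiffOn_id

theorem vc_contDiff_j15 : ContDiff ℝ ∞ fun p : En 4 × En 4 × En 7 => j15 p.1 p.2.1 p.2.2 := by
  rw [← contDiffOn_univ]
  have h1 : ContDiff ℝ ∞ fun p : En 4 × En 4 × En 7 => p.1 := contDiff_fst
  have h2 : ContDiff ℝ ∞ fun p : En 4 × En 4 × En 7 => p.2.1 := contDiff_fst.comp contDiff_snd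
  have h3 : ContDiff ℝ ∞ fun p : En 4 × En 4 × En 7 => p.2.2 := contDiff_snd.comp contDiff_snd
  exact contDiffOn_j15 h1.contDiffOn h2.contDiffOn h3.contDiffOn

theorem vc_contDiff_q1 : ContDiff ℝ ∞ q1 := contDiff_toLp fun _ => contDiff_coord _

theorem vc_contDiff_q2 : ContDiff ℝ ∞ q2 := contDiff_toLp fun _ => contDiff_coord _

theorem vc_contDiff_q3 : ContDiff ℝ ∞ q3 := contDiff_toLp fun _ => contDiff_coord _

theorem vc_contDiff_j14 : ContDiff ℝ ∞ fun p : En 4 × En 4 × En 6 => j14 p.1 p.2.1 p.2.2 := by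
  refine contDiff_toLp fun i => ?_
  by_cases h : i.1 < 4
  · simp only [h, dite_true]
    exact (contDiff_coord _).comp contDiff_fst
  · by_cases h' : i.1 < 8
    · simp only [h, h', dite_true, dite_false]
      exact (contDiff_coord _).comp (contDiff_fst.comp contDiff_snd)
    · simp only [h, h', dite_false]
      exact (contDiff_coord _).comp (contDiff_snd.comp contDiff_snd)

/-- `tt15` is smooth where `X ≠ 0` and `Y ≠ 0` -/
theorem contDiffOn_tt15 {l : ℝ} (hl : 0 < l) : ContDiffOn ℝ ∞ (tt15 l) {z | p1 z ≠ 0 ∧ p2 z ≠ 0} := by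
  have h1 : ContDiffOn ℝ ∞ (fun z : En 15 => twi l (p1 z) (p2 z)) {z | p1 z ≠ 0 ∧ p2 z ≠ 0} :=
    ((vc_contDiffOn_twi hl).comp contDiff_p1.contDiffOn fun z hz => hz.1).clm_apply
      contDiff_p2.contDiffOn
  have h2 : ContDiffOn ℝ ∞ (fun z : En 15 => tw l (twi l (p1 z) (p2 z)) (p1 z))
      {z | p1 z ≠ 0 ∧ p2 z ≠ 0} := by
    refine ((vc_contDiffOn_tw hl).comp h1 fun z hz => ?_).clm_apply contDiff_p1.contDiffOn
    have h3 : ‖twi l (p1 z) (p2 z)‖ ≠ 0 := by
      rw [vc_norm_twi]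
      exact norm_ne_zero_iff.2 hz.2
    exact norm_ne_zero_iff.1 h3
  exact contDiffOn_j15 h2 h1 contDiff_p3.contDiffOn

end Pool.Agent.EXO
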