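import Mathlib
import Pool.Agent.EXO.ChSw
import Pool.Agent.EXO.GbAd
import Pool.Agent.EXO.GbTha
import Pool.Agent.EXO.TwB

/-!
# EXO / ChTw: the twisting map and the inversion

PROOFS (`EXO.norm_tha`, `EXO.tha_out`, `EXO.contDiff_tha`, `EXO.norm_Adq`, `EXO.contDiff_Adq`, `EXO.Adq_mul`, `EXO.Adq_one`,
`EXO.star_mul_of_norm` are in `GbTha`, `GbAd`).
* `norm_tha4`: cases of the definition.
* `tha4_smul`: for `0 < t`: `x 0 > 0 ↔ t x 0 > 0` and the ratio does not change.  `tw_ivn`: `ivn x = (‖x‖^2)⁻¹ • x`.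
* `tha4_const`: if `x ≠ 0` and `x 0 ≤ 0` then `tha4 l = 1` near `x`: if `x 0 < 0` clear; if `x 0 = 0` then `vec4 x ≠ 0`
  and for `y` near `x` with `0 < y 0`: `‖(y 0)⁻¹ • vec4 y‖ = ‖vec4 y‖ / y 0 ≥ 3 l / 8` (`‖vec4 y‖ ≥ ‖vec4 x‖ / 2`,
  `y 0` small), so `tha_out`.
* `contDiffAt_tha4`: if `0 < x 0`: near `x`, `tha4 l y = tha l (uq y)` with `uq` smooth at `x`; else `tha4_const`.
* `rot4` is smooth in `q`: `rot4 q y = mk4 (y 0) (Adq q (vec4 y))`: `contDiff_clm_apply_iff`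
  (finite dimension) and `contDiff_euclidean`, `contDiff_Adq`.  `contDiffAt_tw`: composition.
* `norm_rot4`: `‖mk4 t v‖² = t² + ‖v‖²`, `‖y‖² = (y 0)² + ‖vec4 y‖²` (`EuclideanSpace.norm_sq_eq`, `Fin.sum_univ_four`),
  `norm_Adq`.
* `rot4_star`: `rot4 p (rot4 q y) = rot4 (p * q) y` (`Adq_mul`, `vec4 (mk4 t v) = v`), `star_mul_of_norm`, `rot4 1 = id`.
* `rot4_bv0`: `vec4 (bv 0) = 0`.
* `ivn`: direct computations; `ivn` is smooth at `x ≠ 0`.
-/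

set_option autoImplicit false
set_option maxSynthPendingDepth 3
set_option linter.unusedSectionVars false

open Set MeasureTheory Matrix
open scoped ContDiff Quaternion

namespace Pool.Agent.EXO.CH

theorem norm_tha4 {l : ℝ} (hl : 0 < l) (x : En 4) : ‖tha4 l x‖ = 1 := by
  unfold tha4
  split_ifs with h
  · exact _root_.EXO.norm_tha hl _
  · exact norm_one

theorem tha4_smul (l : ℝ) {t : ℝ} (ht : 0 < t) (x : En 4) : tha4 l (t • x) = tha4 l x :=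
  Pool.Agent.EXO.vc_tha4_smul l ht x

private theorem ChTw_vec4 : Continuous vec4 := by
  have h : vec4 = fun x : En 4 => (WithLp.toLp 2 ![x 1, x 2, x 3] : En 3) := rfl
  rw [h]
  refine (contDiff_toLp fun i => ?_).continuous
  fin_cases i
  · exact contDiff_coord 1
  · exact contDiff_coord 2
  · exact contDiff_coord 3

theorem tha4_const {l : ℝ} (hl : 0 < l) {x : En 4} (hx : x ≠ 0) (h : x 0 ≤ 0) :
    ∀ᶠ y in nhds x, tha4 l y = 1 := by
  have hc0 : Continuous fun y : En 4 => y 0 := (contDiff_coord 0).continuous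
  have ho : IsOpen {y : En 4 | 3 * l / 8 * y 0 < ‖vec4 y‖} :=
    isOpen_lt (continuous_const.mul hc0) ChTw_vec4.norm
  have hm : x ∈ {y : En 4 | 3 * l / 8 * y 0 < ‖vec4 y‖} := by
    show 3 * l / 8 * x 0 < ‖vec4 x‖
    rcases eq_or_ne (vec4 x) 0 with h2 | h2
    · have h3 := norm_sq_four x
      rw [h2, norm_zero] at h3
      have h4 : x 0 ≠ 0 := by
        intro h5
        apply hx
        rw [h5] at h3
        have h6 : ‖x‖ ^ 2 = 0 := by rw [h3]; ring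
        exact norm_eq_zero.1 ((pow_eq_zero_iff two_ne_zero).1 h6)
      have h7 : x 0 < 0 := lt_of_le_of_ne h h4
      rw [h2, norm_zero]
      exact mul_neg_of_pos_of_neg (by positivity) h7
    · have h3 : 0 < ‖vec4 x‖ := norm_pos_iff.2 h2
      have h4 : 3 * l / 8 * x 0 ≤ 0 := mul_nonpos_of_nonneg_of_nonpos (by positivity) h
      linarith
  filter_upwards [ho.mem_nhds hm] with y hy
  rw [tha4]
  split_ifs with h5
  · apply tha_eq_one hl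
    rw [norm_smul, Real.norm_of_nonneg (inv_nonneg.2 h5.le), ← div_eq_inv_mul, le_div_iff₀ h5]
    exact le_of_lt hy
  · rfl

private theorem ChTw_open {m : ℕ} {x : En m} (hx : x ≠ 0) : ({0}ᶜ : Set (En m)) ∈ nhds x :=
  isOpen_compl_singleton.mem_nhds hx

theorem contDiffAt_tha4 {l : ℝ} (hl : 0 < l) {x : En 4} (hx : x ≠ 0) :
    ContDiffAt ℝ ∞ (tha4 l) x :=
  (vc_contDiffOn_tha4 hl).contDiffAt (ChTw_open hx)

theorem contDiff_rot4 : ContDiff ℝ ∞ (fun q : ℍ[ℝ] => rot4 q) :=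
  Pool.Agent.EXO.vc_contDiff_rot4

theorem contDiffAt_tw {l : ℝ} (hl : 0 < l) {x : En 4} (hx : x ≠ 0) :
    ContDiffAt ℝ ∞ (tw l) x :=
  (vc_contDiffOn_tw hl).contDiffAt (ChTw_open hx)

theorem norm_rot4 {q : ℍ[ℝ]} (hq : ‖q‖ = 1) (y : En 4) : ‖rot4 q y‖ = ‖y‖ :=
  Pool.Agent.EXO.norm_rot4 (_root_.EXO.star_mul_of_norm hq).2 y

theorem rot4_star {q : ℍ[ℝ]} (hq : ‖q‖ = 1) (y : En 4) :
    rot4 (star q) (rot4 q y) = y ∧ rot4 q (rot4 (star q) y) = y := by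
  rw [← rot4_mul, ← rot4_mul, (_root_.EXO.star_mul_of_norm hq).1,
    (_root_.EXO.star_mul_of_norm hq).2, rot4_one]
  exact ⟨rfl, rfl⟩

theorem rot4_bv0 (q : ℍ[ℝ]) : rot4 q (bv 0) = bv 0 := by
  have h1 : vec4 (bv 0 : En 4) = 0 := by
    ext i
    fin_cases i <;> simp [vec4, bv]
  have h2 : rot4 q (bv 0) = mk4 ((bv 0 : En 4) 0) (Adq q (vec4 (bv 0))) := rfl
  rw [h2, h1, map_zero]
  ext i
  fin_cases i <;> simp [mk4, bv]

private theorem ChTw_pos {m : ℕ} {x : En m} (hx : x ≠ 0) : 0 < (‖x‖ ^ 2)⁻¹ := by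
  have : 0 < ‖x‖ := norm_pos_iff.2 hx
  positivity

theorem tw_ivn (l : ℝ) {x : En 4} (hx : x ≠ 0) : tha4 l (ivn x) = tha4 l x :=
  tha4_smul l (ChTw_pos hx) x

theorem norm_ivn {m : ℕ} (x : En m) : ‖ivn x‖ = ‖x‖⁻¹ :=
  Pool.Agent.EXO.vc_norm_ivn x

theorem ivn_ne {m : ℕ} {x : En m} (hx : x ≠ 0) : ivn x ≠ 0 :=
  ivn_ne_zero hx

theorem ivn_ivn {m : ℕ} {x : En m} (hx : x ≠ 0) : ivn (ivn x) = x :=
  Pool.Agent.EXO.vc_ivn_ivn hx

theorem ivn_bv0 : ivn (bv 0 : En 4) = bv 0 := by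
  have h : ‖(bv 0 : En 4)‖ = 1 := by simp [bv]
  rw [ivn, h, one_pow, inv_one, one_smul]

theorem contDiffAt_ivn {m : ℕ} {x : En m} (hx : x ≠ 0) : ContDiffAt ℝ ∞ ivn x :=
  vc_contDiffOn_ivn.contDiffAt (ChTw_open hx)

end Pool.Agent.EXO.CH
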