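import Mathlib
import Pool.Agent.EXO.ChDef
import Pool.Agent.EXO.ChTw

/-!
# EXO / ChPh: the cut-off functions `ph`, `phi`

PROOFS.  `stp t = 0` for `t ≤ 0`, `= 1` for `1 ≤ t`, smooth (`Real.smoothTransition`).
* `ph`: `contDiff_norm_sq`; `ph_zero`, `ph_one`: `(‖x‖² - 1)/3 ≤ 0` resp. `≥ 1`.
* `phi_ivn`: for `x ≠ 0`: `ivn x ≠ 0` (`ivn_ne`), `phi (ivn x) = ph (ivn (ivn x)) = ph x` (`ivn_ivn`).
* `contDiff_phi`: for `‖x‖ < 1/2` `phi = 1` (`norm_ivn`: `‖ivn x‖ = ‖x‖⁻¹ > 2`), for `x ≠ 0` a composition (`contDiffAt_ivn`).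
* `phi_one` (`‖x‖ ≤ 1/2`), `phi_zero` (`1 ≤ ‖x‖`).
-/

set_option autoImplicit false
set_option maxSynthPendingDepth 3
set_option linter.unusedSectionVars false

open Set MeasureTheory Matrix
open scoped ContDiff

namespace Pool.Agent.EXO.CH

private theorem chph_stp : ContDiff ℝ ∞ stp := Real.smoothTransition.contDiff

theorem contDiff_ph {m : ℕ} : ContDiff ℝ ∞ (ph : En m → ℝ) := by
  have h1 : ContDiff ℝ ∞ (fun x : En m => (‖x‖ ^ 2 - 1) / 3) :=
    ((contDiff_norm_sq ℝ).sub contDiff_const).div_const 3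
  exact chph_stp.comp h1

theorem ph_zero {m : ℕ} {x : En m} (h : ‖x‖ ≤ 1) : ph x = 0 := by
  refine Real.smoothTransition.zero_of_nonpos ?_
  have : ‖x‖ ^ 2 ≤ 1 := pow_le_one₀ (norm_nonneg _) h
  linarith

theorem ph_one {m : ℕ} {x : En m} (h : 2 ≤ ‖x‖) : ph x = 1 := by
  refine Real.smoothTransition.one_of_one_le ?_
  have : (4 : ℝ) ≤ ‖x‖ ^ 2 := by nlinarith
  linarith

theorem phi_ivn {m : ℕ} {x : En m} (h : x ≠ 0) : phi (ivn x) = ph x := by
  unfold phi
  rw [if_neg (ivn_ne h), ivn_ivn h]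

theorem phi_zero {m : ℕ} {x : En m} (h : 1 ≤ ‖x‖) : phi x = 0 := by
  have h0 : x ≠ 0 := by
    rintro rfl
    rw [norm_zero] at h
    linarith
  unfold phi
  rw [if_neg h0]
  refine ph_zero ?_
  rw [norm_ivn]
  exact inv_le_one_of_one_le₀ h

theorem phi_one {m : ℕ} {x : En m} (h : ‖x‖ ≤ 1 / 2) : phi x = 1 := by
  unfold phi
  split_ifs with h0
  · rfl
  · refine ph_one ?_
    rw [norm_ivn]
    have hp : 0 < ‖x‖ := norm_pos_iff.2 h0
    rw [le_inv_comm₀ (by norm_num) hp]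
    linarith

theorem contDiff_phi {m : ℕ} : ContDiff ℝ ∞ (phi : En m → ℝ) := by
  rw [contDiff_iff_contDiffAt]
  intro x
  by_cases h0 : x = 0
  · have hev : (phi : En m → ℝ) =ᶠ[nhds x] fun _ => 1 := by
      have ho : Metric.ball (0 : En m) (1 / 2) ∈ nhds x := by
        rw [h0]
        exact Metric.ball_mem_nhds _ (by norm_num)
      filter_upwards [ho] with y hy
      rw [Metric.mem_ball, dist_zero_right] at hy
      exact phi_one hy.le
    exact contDiffAt_const.congr_of_eventuallyEq hev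
  · have hev : (phi : En m → ℝ) =ᶠ[nhds x] fun y => ph (ivn y) := by
      filter_upwards [isOpen_compl_singleton.mem_nhds h0] with y hy
      unfold phi
      rw [if_neg (show y ≠ 0 from hy)]
    exact (contDiff_ph.contDiffAt.comp x (contDiffAt_ivn h0)).congr_of_eventuallyEq hev

end Pool.Agent.EXO.CH
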