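import Mathlib
import Pool.Agent.EXO.ChMatA

/-!
# EXO / ChMatB: calculus of matrices of forms

PROOFS.  Everything is entrywise from `ChMatA` (`dF_sum`, `dF_mul_*`, `dF_mul`, `pbF_*`, smoothness) and `ChFA`
(`rM_mul`, `ev_rM`, `mapM_mul`, ...).  `DM X x i j = dF (fun y => X y i j) x` and
`pbM F X x i j = pbF F (fun y => X y i j) x` hold by `rfl`.
* `deg_DM_rM`: `deg_dF` with `deg_rF`; `od_DM_rM` from it (`od_of_deg`).
* `DM_mul_ev`: entry `(i, j)`: `dF_sum`, `dF_mul`, `σ (X x i l) = X x i l`.  `DM_mul_od`: the same with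
  `σ (X x i l) = - X x i l`.
* `DM_DM`: `dF_dF` (entrywise, `DM X y i j = dF (fun y => X y i j) y`).
* `DM_pbM`: `dF_pbF`.  `pbM_comp`: `pbF_comp`.
* `dF_trace`: `dF_sum`.  `pbF_trace`: `FAMap_sum`.
-/

set_option autoImplicit false
set_option maxSynthPendingDepth 3
set_option linter.unusedSectionVars false

open Set MeasureTheory Matrix
open scoped ContDiff

namespace Pool.Agent.EXO.CH

variable {m k l : ℕ} {a b c : Type}

theorem DM_apply (X : En m → Matrix a b (FA m)) (x : En m) (i : a) (j : b) :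
    DM X x i j = dF (fun y => X y i j) x := rfl

theorem pbM_apply (F : En k → En m) (X : En m → Matrix a b (FA m)) (x : En k) (i : a) (j : b) :
    pbM F X x i j = pbF F (fun y => X y i j) x := rfl

theorem deg_DM {j : ℕ} {X : En m → Matrix a b (FA m)} {x : En m}
    (h : ∀ᶠ y in nhds x, ∀ i i', (X y i i').IsDeg j) (i : a) (i' : b) :
    (DM X x i i').IsDeg (j + 1) := by
  rw [DM_apply]
  exact deg_dF (h.mono fun y hy => hy i i')

theorem deg_DM_rM (X : En m → Matrix a b ℝ) (x : En m) (i : a) (j : b) :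
    (DM (fun y => (rM (X y) : Matrix a b (FA m))) x i j).IsDeg 1 := by
  rw [DM_apply]
  exact deg_dF (Filter.Eventually.of_forall fun y => deg_rF _)

/-- the differential of a matrix of functions is odd. -/
theorem od_DM_rM (X : En m → Matrix a b ℝ) (x : En m) :
    (faG m).MOd (DM (fun y => rM (X y)) x) := by
  exact od_of_deg (j := 1) odd_one fun i i' => deg_DM_rM X x i i'

theorem DM_add {X Y : En m → Matrix a b (FA m)} {x : En m}
    (hX : ∀ i j, DifferentiableAt ℝ (fun y => X y i j) x)
    (hY : ∀ i j, DifferentiableAt ℝ (fun y => Y y i j) x) :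
    DM (fun y => X y + Y y) x = DM X x + DM Y x := by
  refine Matrix.ext fun i j => ?_
  rw [Matrix.add_apply, DM_apply, DM_apply, DM_apply]
  exact dF_add (hX i j) (hY i j)

theorem DM_congr {X Y : En m → Matrix a b (FA m)} {x : En m}
    (h : ∀ᶠ y in nhds x, X y = Y y) : DM X x = DM Y x := by
  refine Matrix.ext fun i j => ?_
  rw [DM_apply, DM_apply]
  exact dF_congr (h.mono fun y hy => congrFun (congrFun hy i) j)

theorem DM_const (X : Matrix a b (FA m)) (x : En m) : DM (fun _ => X) x = 0 := by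
  refine Matrix.ext fun i j => ?_
  rw [DM_apply]
  exact dF_const _ _

variable [Fintype a] [Fintype b] [Fintype c] [DecidableEq a] [DecidableEq b] [DecidableEq c]

theorem deg_mulM {i j : ℕ} {X : Matrix a b (FA m)} {Y : Matrix b c (FA m)}
    (hX : ∀ p q, (X p q).IsDeg i) (hY : ∀ p q, (Y p q).IsDeg j) (p : a) (q : c) :
    ((X * Y) p q).IsDeg (i + j) := by
  rw [Matrix.mul_apply]
  exact isDeg_sum _ fun l _ => isDeg_mul (hX p l) (hY l q)

private theorem difMul {u v : En m → FA m} {x : En m} (hu : DifferentiableAt ℝ u x)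
    (hv : DifferentiableAt ℝ v x) : DifferentiableAt ℝ (fun y => u y * v y) x := by
  have h1 : DifferentiableAt ℝ (fun y => (u y, v y)) x := hu.prodMk hv
  have h2 : DifferentiableAt ℝ (fun p : FA m × FA m => p.1 * p.2) (u x, v x) :=
    ((contDiff_mulFA (m := m)).differentiable (by simp)).differentiableAt
  have h3 := DifferentiableAt.comp (g := fun p : FA m × FA m => p.1 * p.2) x h2 h1
  exact h3

theorem DM_mul_ev {X : En m → Matrix a b (FA m)} {Y : En m → Matrix b c (FA m)} {x : En m}
    (hX : ∀ i j, DifferentiableAt ℝ (fun y => X y i j) x)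
    (hY : ∀ i j, DifferentiableAt ℝ (fun y => Y y i j) x) (he : (faG m).MEv (X x)) :
    DM (fun y => X y * Y y) x = DM X x * Y x + X x * DM Y x := by
  refine Matrix.ext fun i j => ?_
  have e1 : DM (fun y => X y * Y y) x i j = dF (fun y => ∑ l, X y i l * Y y l j) x := rfl
  have hd : ∀ l ∈ (Finset.univ : Finset b), DifferentiableAt ℝ (fun y => X y i l * Y y l j) x :=
    fun l _ => difMul (hX i l) (hY l j)
  rw [e1, dF_sum _ (fun l y => X y i l * Y y l j) hd, Matrix.add_apply, Matrix.mul_apply,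
    Matrix.mul_apply, ← Finset.sum_add_distrib]
  refine Finset.sum_congr rfl fun l _ => ?_
  have e2 := dF_mul (hX i l) (hY l j)
  rw [he i l] at e2
  exact e2

theorem DM_mul_od {X : En m → Matrix a b (FA m)} {Y : En m → Matrix b c (FA m)} {x : En m}
    (hX : ∀ i j, DifferentiableAt ℝ (fun y => X y i j) x)
    (hY : ∀ i j, DifferentiableAt ℝ (fun y => Y y i j) x) (he : (faG m).MOd (X x)) :
    DM (fun y => X y * Y y) x = DM X x * Y x - X x * DM Y x := by
  refine Matrix.ext fun i j => ?_
  have e1 : DM (fun y => X y * Y y) x i j = dF (fun y => ∑ l, X y i l * Y y l j) x := rfl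
  have hd : ∀ l ∈ (Finset.univ : Finset b), DifferentiableAt ℝ (fun y => X y i l * Y y l j) x :=
    fun l _ => difMul (hX i l) (hY l j)
  rw [e1, dF_sum _ (fun l y => X y i l * Y y l j) hd, Matrix.sub_apply, Matrix.mul_apply,
    Matrix.mul_apply, ← Finset.sum_sub_distrib]
  refine Finset.sum_congr rfl fun l _ => ?_
  have e2 := dF_mul (hX i l) (hY l j)
  rw [he i l, neg_mul, ← sub_eq_add_neg] at e2
  exact e2

theorem DM_DM {X : En m → Matrix a b (FA m)} {x : En m}
    (hX : ∀ i j, ContDiffAt ℝ 2 (fun y => X y i j) x) : DM (DM X) x = 0 := by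
  refine Matrix.ext fun i j => ?_
  exact dF_dF (hX i j)

theorem dF_trace {X : En m → Matrix a a (FA m)} {x : En m}
    (hX : ∀ i j, DifferentiableAt ℝ (fun y => X y i j) x) :
    dF (fun y => trace (X y)) x = trace (DM X x) := by
  have e : (fun y => trace (X y)) = fun y => ∑ i, X y i i := rfl
  have h := dF_sum (Finset.univ : Finset a) (fun i y => X y i i) (x := x) fun i _ => hX i i
  rw [e, h]
  rfl

theorem pbM_mul (F : En k → En m) (X : En m → Matrix a b (FA m)) (Y : En m → Matrix b c (FA m))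
    (x : En k) : pbM F (fun y => X y * Y y) x = pbM F X x * pbM F Y x := by
  exact mapM_mul _ _ _

theorem pbM_rM (F : En k → En m) (X : En m → Matrix a b ℝ) (x : En k) :
    pbM F (fun y => rM (X y)) x = rM (X (F x)) := by
  exact mapM_rM _ _

theorem pbF_trace (F : En k → En m) (X : En m → Matrix a a (FA m)) (x : En k) :
    pbF F (fun y => trace (X y)) x = trace (pbM F X x) := by
  exact mapM_trace _ _

theorem DM_pbM {F : En k → En m} {X : En m → Matrix a b (FA m)} {x : En k}
    (hF : ContDiffAt ℝ 2 F x) (hX : ∀ i j, DifferentiableAt ℝ (fun y => X y i j) (F x)) :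
    DM (pbM F X) x = pbM F (DM X) x := by
  refine Matrix.ext fun i j => ?_
  have h := dF_pbF (u := fun y => X y i j) hF (hX i j)
  have e1 : DM (pbM F X) x i j = dF (pbF F (fun y => X y i j)) x := rfl
  have e2 : pbM F (DM X) x i j = pbF F (dF (fun y => X y i j)) x := rfl
  rw [e1, e2, h]

/-! ## Smoothness on open sets -/

theorem SmM.diff {E : Type} [NormedAddCommGroup E] [NormedSpace ℝ E] {U : Set (En m)}
    (hU : IsOpen U) {X : En m → Matrix a b E} (hX : SmM U X) {x : En m} (hx : x ∈ U) (i : a) (j : b) :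
    DifferentiableAt ℝ (fun y => X y i j) x := by
  exact ((hX i j).contDiffAt (hU.mem_nhds hx)).differentiableAt (by simp)

theorem SmM.mul {U : Set (En m)} {X : En m → Matrix a b (FA m)} {Y : En m → Matrix b c (FA m)}
    (hX : SmM U X) (hY : SmM U Y) : SmM U (fun x => X x * Y x) := by
  intro i j
  have h : ContDiffOn ℝ ∞ (fun x => ∑ l, X x i l * Y x l j) U :=
    ContDiffOn.sum fun l _ => contDiffOn_mulFA (hX i l) (hY l j)
  exact h

theorem SmM.add' {U : Set (En m)} {X Y : En m → Matrix a b (FA m)}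
    (hX : SmM U X) (hY : SmM U Y) : SmM U (fun x => X x + Y x) := by
  intro i j
  exact (hX i j).add (hY i j)

theorem SmM.rM {U : Set (En m)} {X : En m → Matrix a b ℝ} (hX : SmM U X) :
    SmM U (fun x => (rM (X x) : Matrix a b (FA m))) := by
  intro i j
  exact contDiffOn_rF (hX i j)

theorem SmM.mulR {U : Set (En m)} {X : En m → Matrix a b ℝ} {Y : En m → Matrix b c ℝ}
    (hX : SmM U X) (hY : SmM U Y) : SmM U (fun x => X x * Y x) := by
  intro i j
  have h : ContDiffOn ℝ ∞ (fun x => ∑ l, X x i l * Y x l j) U :=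
    ContDiffOn.sum fun l _ => (hX i l).mul (hY l j)
  exact h

theorem SmM.DM {U : Set (En m)} (hU : IsOpen U) {X : En m → Matrix a b (FA m)} (hX : SmM U X) :
    SmM U (DM X) := by
  intro i j
  exact contDiffOn_dF hU (hX i j)

theorem SmM.pbM {U : Set (En m)} {W : Set (En k)} (hW : IsOpen W) {F : En k → En m}
    (hF : ContDiffOn ℝ ∞ F W) (hFW : ∀ x ∈ W, F x ∈ U) {X : En m → Matrix a b (FA m)}
    (hX : SmM U X) : SmM W (pbM F X) := by
  intro i j
  exact contDiffOn_pbF hW hF hFW (hX i j)

theorem contDiffOn_trace {U : Set (En m)} {X : En m → Matrix a a (FA m)} (hX : SmM U X) :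
    ContDiffOn ℝ ∞ (fun x => trace (X x)) U := by
  have h : ContDiffOn ℝ ∞ (fun x => ∑ i, X x i i) U := ContDiffOn.sum fun i _ => hX i i
  exact h

end Pool.Agent.EXO.CH
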