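import Pool.Agent.EXO.CsOrth

/-!
# EXO / ChRot: rotations from quaternions, `A⁻¹ dA = 2 [ω]×`, `tr (A⁻¹dA)³ = -48 ω₁ω₂ω₃`
-/

set_option autoImplicit false
set_option maxSynthPendingDepth 3
set_option linter.unusedSectionVars false

namespace Pool.Agent.EXO

open Matrix

/-- cross product matrix, `cr u v = u × v`. -/
def cr (u : Fin 3 → ℝ) : Matrix (Fin 3) (Fin 3) ℝ :=
  !![0, -u 2, u 1; u 2, 0, -u 0; -u 1, u 0, 0]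

/-- The (homogeneous quadratic) rotation matrix of the quaternion `a + v`:
`x ↦ (a + v) x (a - v)`. -/
def rotQ (a : ℝ) (v : Fin 3 → ℝ) : Matrix (Fin 3) (Fin 3) ℝ :=
  !![a ^ 2 + v 0 ^ 2 - v 1 ^ 2 - v 2 ^ 2, 2 * (v 0 * v 1 - a * v 2), 2 * (v 0 * v 2 + a * v 1);
     2 * (v 0 * v 1 + a * v 2), a ^ 2 - v 0 ^ 2 + v 1 ^ 2 - v 2 ^ 2, 2 * (v 1 * v 2 - a * v 0);
     2 * (v 0 * v 2 - a * v 1), 2 * (v 1 * v 2 + a * v 0), a ^ 2 - v 0 ^ 2 - v 1 ^ 2 + v 2 ^ 2]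

/-- derivative of `rotQ` at `(a, v)` in the direction `(p, w)`. -/
def rotQ' (a : ℝ) (v : Fin 3 → ℝ) (p : ℝ) (w : Fin 3 → ℝ) : Matrix (Fin 3) (Fin 3) ℝ :=
  !![2 * a * p + 2 * v 0 * w 0 - 2 * v 1 * w 1 - 2 * v 2 * w 2,
      2 * (w 0 * v 1 + v 0 * w 1 - p * v 2 - a * w 2), 2 * (w 0 * v 2 + v 0 * w 2 + p * v 1 + a * w 1);
     2 * (w 0 * v 1 + v 0 * w 1 + p * v 2 + a * w 2),
      2 * a * p - 2 * v 0 * w 0 + 2 * v 1 * w 1 - 2 * v 2 * w 2,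
      2 * (w 1 * v 2 + v 1 * w 2 - p * v 0 - a * w 0);
     2 * (w 0 * v 2 + v 0 * w 2 - p * v 1 - a * w 1),
      2 * (w 1 * v 2 + v 1 * w 2 + p * v 0 + a * w 0),
      2 * a * p - 2 * v 0 * w 0 - 2 * v 1 * w 1 + 2 * v 2 * w 2]

/-- `ω = Im (q̄ p)`. -/
def omQ (a : ℝ) (v : Fin 3 → ℝ) (p : ℝ) (w : Fin 3 → ℝ) : Fin 3 → ℝ :=
  ![a * w 0 - p * v 0 - (v 1 * w 2 - v 2 * w 1), a * w 1 - p * v 1 - (v 2 * w 0 - v 0 * w 2),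
    a * w 2 - p * v 2 - (v 0 * w 1 - v 1 * w 0)]

theorem rotQ_tr_mul_self (a : ℝ) (v : Fin 3 → ℝ) :
    (rotQ a v)ᵀ * rotQ a v = ((a ^ 2 + v 0 ^ 2 + v 1 ^ 2 + v 2 ^ 2) ^ 2) • 1 := by
  ext i j
  fin_cases i <;> fin_cases j <;>
    simp [rotQ, Matrix.mul_apply, Fin.sum_univ_three] <;> ring

/-- `A(q)ᵀ dA(q; p) = |q|² (2 [ω]× + 2 (q·p))`. -/
theorem rotQ_tr_mul (a : ℝ) (v : Fin 3 → ℝ) (p : ℝ) (w : Fin 3 → ℝ) :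
    (rotQ a v)ᵀ * rotQ' a v p w = (a ^ 2 + v 0 ^ 2 + v 1 ^ 2 + v 2 ^ 2) •
      ((2 : ℝ) • cr (omQ a v p w) + (2 * (a * p + v 0 * w 0 + v 1 * w 1 + v 2 * w 2)) • 1) := by
  ext i j
  fin_cases i <;> fin_cases j <;>
    simp [rotQ, rotQ', cr, omQ, Matrix.mul_apply, Fin.sum_univ_three] <;> ring

/-- `tr ([x]×[y]×[z]×) = - det (x, y, z)`. -/
theorem tr_cr (x y z : Fin 3 → ℝ) : trace (cr x * cr y * cr z) = - det !![x 0, x 1, x 2; y 0, y 1, y 2; z 0, z 1, z 2] := by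
  simp [cr, trace, Fin.sum_univ_three, Matrix.mul_apply, det_fin_three]
  ring

/-- The Jacobian of `θ(u) = α(|u|²) + β(|u|²) u`, jet level: `det (ω_0, ω_1, ω_2) = -2 β α'`. -/
theorem det_om (a b a' b' : ℝ) (u : Fin 3 → ℝ) (h1 : a ^ 2 + (u 0 ^ 2 + u 1 ^ 2 + u 2 ^ 2) * b ^ 2 = 1)
    (h2 : 2 * a * a' + b ^ 2 + 2 * (u 0 ^ 2 + u 1 ^ 2 + u 2 ^ 2) * b * b' = 0) :
    det (Matrix.of fun k => omQ a (fun i => b * u i) (2 * u k * a')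
      (fun i => b * (if i = k then 1 else 0) + 2 * u k * b' * u i)) = -2 * b * a' := by
  have h3 : det (Matrix.of fun k => omQ a (fun i => b * u i) (2 * u k * a')
      (fun i => b * (if i = k then 1 else 0) + 2 * u k * b' * u i)) =
      b ^ 2 * (a * b + 2 * (u 0 ^ 2 + u 1 ^ 2 + u 2 ^ 2) * (a * b' - b * a')) *
        (a ^ 2 + (u 0 ^ 2 + u 1 ^ 2 + u 2 ^ 2) * b ^ 2) := by
    simp [det_fin_three, omQ]
    ring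
  rw [h3, h1]
  linear_combination (a * b) * h2 - 2 * b * a' * h1

end Pool.Agent.EXO
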