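import Pool.Agent.EXO.ChRot

/-!
# EXO / ChRotF: `tr (A⁻¹ dA)³ = -48 det(ω) c₀ c₁ c₂` in a graded commutative ring
-/

set_option autoImplicit false
set_option maxSynthPendingDepth 3
set_option linter.unusedSectionVars false

namespace Pool.Agent.EXO

open Matrix

namespace GrC

variable {R : Type*} [Ring R] [Algebra ℂ R] {S : GrC R}
variable {n : Type*} [Fintype n] [DecidableEq n]

/-- `∑ₖ Mₖ cₖ` as a matrix over `R`. -/
noncomputable def lin3 {m n : Type*} (c : Fin 3 → R) (M : Fin 3 → Matrix m n ℂ) : Matrix m n R :=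
  Matrix.of fun i j => ∑ k, M k i j • c k

theorem lin3_od {m n : Type*} {c : Fin 3 → R} (hc : ∀ k, S.σ (c k) = - c k)
    (hσ : ∀ (z : ℂ) (x : R), S.σ (z • x) = z • S.σ x) (M : Fin 3 → Matrix m n ℂ) :
    S.MOd (lin3 c M) := by
  intro i j
  simp only [lin3, of_apply, map_sum, hσ, hc, smul_neg, Finset.sum_neg_distrib]

theorem tr_lin3_cube (c : Fin 3 → R) (M : Fin 3 → Matrix n n ℂ) :
    trace (lin3 c M * lin3 c M * lin3 c M) =
      ∑ k, ∑ l, ∑ m, trace (M k * M l * M m) • (c k * c l * c m) := by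
  have h1 : ∀ i j, (lin3 c M * lin3 c M * lin3 c M) i j =
      ∑ k, ∑ l, ∑ m, (M k * M l * M m) i j • (c k * c l * c m) := by
    intro i j
    simp only [Matrix.mul_apply, lin3, of_apply, Finset.sum_mul, Finset.mul_sum, smul_mul_assoc,
      mul_smul_comm, Finset.sum_smul, Finset.smul_sum, smul_smul]
    -- LHS: ∑ x ∑ y ∑ m ∑ l ∑ k ; reorder
    calc _ = ∑ x, ∑ y, ∑ k, ∑ l, ∑ m, (M m i y * M l y x * M k x j) • (c m * c l * c k) := by
          refine Finset.sum_congr rfl fun x _ => ?_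
          rw [Finset.sum_comm]
          refine Finset.sum_congr rfl fun y _ => ?_
          refine Finset.sum_congr rfl fun k _ => ?_
          refine Finset.sum_congr rfl fun l _ => ?_
          refine Finset.sum_congr rfl fun m _ => ?_
          congr 1
          ring
      _ = ∑ x, ∑ k, ∑ l, ∑ m, ∑ y, (M m i y * M l y x * M k x j) • (c m * c l * c k) := by
          refine Finset.sum_congr rfl fun x _ => ?_
          rw [Finset.sum_comm]
          refine Finset.sum_congr rfl fun k _ => ?_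
          rw [Finset.sum_comm]
          refine Finset.sum_congr rfl fun l _ => ?_
          rw [Finset.sum_comm]
      _ = ∑ k, ∑ l, ∑ m, ∑ x, ∑ y, (M m i y * M l y x * M k x j) • (c m * c l * c k) := by
          rw [Finset.sum_comm]
          refine Finset.sum_congr rfl fun k _ => ?_
          rw [Finset.sum_comm]
          refine Finset.sum_congr rfl fun l _ => ?_
          rw [Finset.sum_comm]
      _ = ∑ m, ∑ l, ∑ k, ∑ x, ∑ y, (M m i y * M l y x * M k x j) • (c m * c l * c k) := by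
          rw [Finset.sum_comm]
          have : ∀ l : Fin 3, (∑ k, ∑ m, ∑ x, ∑ y, (M m i y * M l y x * M k x j) • (c m * c l * c k)) =
              ∑ m, ∑ k, ∑ x, ∑ y, (M m i y * M l y x * M k x j) • (c m * c l * c k) := fun l =>
            Finset.sum_comm
          rw [Finset.sum_congr rfl fun l _ => this l, Finset.sum_comm]
  simp only [trace, diag_apply, h1, Finset.sum_smul]
  rw [Finset.sum_comm]
  refine Finset.sum_congr rfl fun k _ => ?_
  rw [Finset.sum_comm]
  refine Finset.sum_congr rfl fun l _ => ?_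
  rw [Finset.sum_comm]

theorem alt3 {c : Fin 3 → R} (hc : ∀ k, S.σ (c k) = - c k) (κ : ℂ) (w : Fin 3 → Fin 3 → ℝ)
    (F : Fin 3 → Fin 3 → Fin 3 → ℂ)
    (hF : ∀ k l m, F k l m = κ * ((det !![w k 0, w k 1, w k 2; w l 0, w l 1, w l 2;
      w m 0, w m 1, w m 2] : ℝ) : ℂ)) :
    ∑ k, ∑ l, ∑ m, F k l m • (c k * c l * c m) =
      (6 * κ * ((det (Matrix.of w) : ℝ) : ℂ)) • (c 0 * c 1 * c 2) := by
  have sq : ∀ k, c k * c k = 0 := fun k => odd_sq_zero (hc k)
  have s10 : c 1 * c 0 = -(c 0 * c 1) := S.od _ _ (hc 1) (hc 0)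
  have s20 : c 2 * c 0 = -(c 0 * c 2) := S.od _ _ (hc 2) (hc 0)
  have s21 : c 2 * c 1 = -(c 1 * c 2) := S.od _ _ (hc 2) (hc 1)
  have e021 : c 0 * c 2 * c 1 = -(c 0 * c 1 * c 2) := by
    rw [mul_assoc, s21, mul_neg, mul_assoc]
  have e102 : c 1 * c 0 * c 2 = -(c 0 * c 1 * c 2) := by rw [s10, neg_mul]
  have e120 : c 1 * c 2 * c 0 = c 0 * c 1 * c 2 := by
    rw [mul_assoc, s20, mul_neg, ← mul_assoc, s10, neg_mul, neg_neg]
  have e201 : c 2 * c 0 * c 1 = c 0 * c 1 * c 2 := by
    rw [s20, neg_mul, e021, neg_neg]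
  have e210 : c 2 * c 1 * c 0 = -(c 0 * c 1 * c 2) := by
    rw [s21, neg_mul, e120]
  have z1 : ∀ i j, c i * c i * c j = 0 := fun i j => by rw [sq, zero_mul]
  have z2 : ∀ i j, c j * c i * c i = 0 := fun i j => by rw [mul_assoc, sq, mul_zero]
  have z3 : ∀ i j, c i * c j * c i = 0 := fun i j => by
    have : c i * c j = -(c j * c i) := S.od _ _ (hc i) (hc j)
    rw [this, neg_mul, z2, neg_zero]
  simp only [Fin.sum_univ_three, z1, z2, z3, smul_zero, add_zero, zero_add, e021, e102, e120, e201,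
    e210, hF, smul_neg]
  simp only [det_fin_three, Matrix.of_apply, cons_val', cons_val_zero, cons_val_one, cons_val,
    cons_val_fin_one]
  push_cast
  module

end GrC

end Pool.Agent.EXO
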