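import Mathlib
import Pool.Agent.EXO.ChMatB
import Pool.Agent.EXO.ChTw
import Pool.Agent.EXO.ChRotF
import Pool.Agent.EXO.ChRot

/-!
# EXO / ChRqA: the three-form `tr (A⁻¹ dA)³` of the map `u ↦ 1 ⊕ Ad (θ u)`, on `ℝ³`

PROOF.  Let `a = alT l (‖u‖²)`, `b = beT l (‖u‖²)`; `tha l u = a + imq (b • u)` (`√(‖u‖²) = ‖u‖`; both functions `alT l`, `beT l` are
smooth on `ℝ`: they are constant for `t ≤ (l/8)²` (there `psi = π`) and compositions of smooth functions for `t > 0`).
* `rqM_eq`: the entries of `rqM l u` for indices `0` are those of the unit matrix, and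
  `rqM l u (i.succ) (j.succ) = rotQ a (fun i => b * u i) i j` (direct computation from
  `Adq q v = vim (q * imq v * star q)`, `fin_cases`, `simp [rot4, mk4, vec4, vim, imq, Adq, tha, rotQ]`; `ring`).
* By the chain rule the partial derivative `∂_k` of `rqM l · (i.succ) (j.succ)` is
  `rotQ' a (b u) (2 u_k a') (b δ_{ik} + 2 u_k b' u_i) i j` (`a' = deriv (alT l) (‖u‖²)`, `b' = deriv (beT l) (‖u‖²)`; `∂_k ‖u‖² = 2 u_k`).
* `rotQ_tr_mul` with `|q|² = 1` and `⟨q, ∂_k q⟩ = 0` (derivative of `a² + t b² = 1`): `RQᵀ ∂_k RQ = 2 cr (ω_k)`,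
  `ω_k = omQ a (b u) (2 u_k a') (...)`, on the lower `3 × 3` block; the first row and column of `θ = thM ..` vanish.
* `θ` (lower block) `= GrC.lin3 c M`, `c k = of1 (bv k)`, `M k = (2 cr ω_k)` as a complex matrix (`DM (rM ..) = ∑ of1 (bv k) * rF (∂_k ..)`).
  `GrC.tr_lin3_cube`, `trace (M k * M l * M m) = 8 tr (cr cr cr) = -8 det` (`tr_cr`), `GrC.alt3` with `κ = -8`:
  `tr θ³ = -48 det (ω) • (c 0 c 1 c 2)`, and `det_om`: `det (ω) = -2 b a'`.  So `-1/3 tr θ³ = 16 (-2 b a') du`.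
-/

set_option autoImplicit false
set_option maxSynthPendingDepth 3
set_option linter.unusedSectionVars false

open Set MeasureTheory Matrix
open scoped ContDiff Quaternion

namespace Pool.Agent.EXO.CH

private theorem psi_in' {l r : ℝ} (hl : 0 < l) (h : r ≤ l / 8) : psi l r = Real.pi := by
  have h1 : 4 * (r / l - 1 / 8) ≤ 0 := by
    have h2 : r / l ≤ 1 / 8 := by
      rw [div_le_iff₀ hl]
      linarith
    linarith
  rw [psi, stp, Real.smoothTransition.zero_of_nonpos h1, sub_zero, mul_one]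

private theorem sqrt_small {l t : ℝ} (hl : 0 < l) (h : t < (l / 8) ^ 2) : Real.sqrt t ≤ l / 8 := by
  rw [Real.sqrt_le_left (by positivity)]
  exact h.le

private theorem alT_small {l t : ℝ} (hl : 0 < l) (h : t < (l / 8) ^ 2) : alT l t = -1 := by
  rw [alT, psi_in' hl (sqrt_small hl h), Real.cos_pi]

private theorem beT_small {l t : ℝ} (hl : 0 < l) (h : t < (l / 8) ^ 2) : beT l t = 0 := by
  rw [beT, psi_in' hl (sqrt_small hl h), Real.sin_pi, zero_div]

private theorem nhds_small {l t : ℝ} (h : t < (l / 8) ^ 2) : ∀ᶠ s in nhds t, s < (l / 8) ^ 2 :=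
  (isOpen_lt continuous_id continuous_const).mem_nhds h

private theorem contDiffAt_psi {l t : ℝ} (ht : t ≠ 0) :
    ContDiffAt ℝ ∞ (fun t => psi l (Real.sqrt t)) t := by
  unfold psi stp
  exact contDiffAt_const.mul (contDiffAt_const.sub
    ((Real.smoothTransition.contDiff.contDiffAt).comp t
      (contDiffAt_const.mul (((Real.contDiffAt_sqrt ht).div_const l).sub contDiffAt_const))))

theorem contDiff_alT {l : ℝ} (hl : 0 < l) : ContDiff ℝ ∞ (alT l) := by
  rw [contDiff_iff_contDiffAt]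
  intro t
  rcases lt_or_ge t ((l / 8) ^ 2) with h | h
  · have h1 : alT l =ᶠ[nhds t] fun _ => -1 := by
      filter_upwards [nhds_small h] with s hs
      exact alT_small hl hs
    exact contDiffAt_const.congr_of_eventuallyEq h1
  · have ht : t ≠ 0 := by
      have : 0 < (l / 8) ^ 2 := by positivity
      linarith
    exact Real.contDiff_cos.contDiffAt.comp t (contDiffAt_psi ht)

theorem contDiff_beT {l : ℝ} (hl : 0 < l) : ContDiff ℝ ∞ (beT l) := by
  rw [contDiff_iff_contDiffAt]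
  intro t
  rcases lt_or_ge t ((l / 8) ^ 2) with h | h
  · have h1 : beT l =ᶠ[nhds t] fun _ => 0 := by
      filter_upwards [nhds_small h] with s hs
      exact beT_small hl hs
    exact contDiffAt_const.congr_of_eventuallyEq h1
  · have ht : 0 < t := by
      have : 0 < (l / 8) ^ 2 := by positivity
      linarith
    exact (Real.contDiff_sin.contDiffAt.comp t (contDiffAt_psi ht.ne')).div
      (Real.contDiffAt_sqrt ht.ne') (Real.sqrt_pos.2 ht).ne'

theorem alT_beT {l : ℝ} (hl : 0 < l) {t : ℝ} (ht : 0 ≤ t) : alT l t ^ 2 + t * beT l t ^ 2 = 1 := by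
  rcases eq_or_lt_of_le ht with h | h
  · have h0 : (0 : ℝ) < (l / 8) ^ 2 := by positivity
    rw [← h, alT_small hl h0]
    ring
  · have h1 : Real.sqrt t ^ 2 = t := Real.sq_sqrt ht
    have h2 : Real.sqrt t ≠ 0 := (Real.sqrt_pos.2 h).ne'
    have h3 : t * (Real.sin (psi l (Real.sqrt t)) / Real.sqrt t) ^ 2 =
        Real.sin (psi l (Real.sqrt t)) ^ 2 := by
      rw [div_pow, h1]
      field_simp
    rw [alT, beT, h3, add_comm]
    exact Real.sin_sq_add_cos_sq _

/-- `2 α α' + β² + 2 t β β' = 0`. -/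
theorem alT_beT' {l : ℝ} (hl : 0 < l) {t : ℝ} (ht : 0 ≤ t) :
    2 * alT l t * deriv (alT l) t + beT l t ^ 2 + 2 * t * beT l t * deriv (beT l) t = 0 := by
  rcases eq_or_lt_of_le ht with h | h
  · have h0 : (0 : ℝ) < (l / 8) ^ 2 := by positivity
    have h1 : deriv (alT l) 0 = 0 := by
      have h2 : alT l =ᶠ[nhds 0] fun _ => -1 := by
        filter_upwards [nhds_small h0] with s hs
        exact alT_small hl hs
      rw [h2.deriv_eq, deriv_const]
    rw [← h, h1, beT_small hl h0]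
    ring
  · have hα : HasDerivAt (alT l) (deriv (alT l) t) t :=
      ((contDiff_alT hl).differentiable (by simp) t).hasDerivAt
    have hβ : HasDerivAt (beT l) (deriv (beT l) t) t :=
      ((contDiff_beT hl).differentiable (by simp) t).hasDerivAt
    have h1 := (hα.fun_pow 2).fun_add ((hasDerivAt_id' t).fun_mul (hβ.fun_pow 2))
    have h2 : (fun s => alT l s ^ 2 + s * beT l s ^ 2) =ᶠ[nhds t] fun _ => 1 := by
      filter_upwards [(isOpen_lt continuous_const continuous_id).mem_nhds h] with s hs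
      exact alT_beT hl (le_of_lt hs)
    have h3 := h1.unique ((hasDerivAt_const t (1 : ℝ)).congr_of_eventuallyEq h2)
    simp only [Nat.cast_ofNat, Nat.add_one_sub_one, pow_one, one_mul] at h3
    linear_combination h3

/-- The matrix of `rot4 (tha l u)`. -/
noncomputable def rqM (l : ℝ) (u : En 3) : Matrix (Fin 4) (Fin 4) ℝ :=
  fun i j => rot4 (tha l u) (bv j) i

private theorem tha_eq' (l : ℝ) (u : En 3) : (tha l u).re = alT l (‖u‖ ^ 2) ∧
    (tha l u).imI = beT l (‖u‖ ^ 2) * u 0 ∧ (tha l u).imJ = beT l (‖u‖ ^ 2) * u 1 ∧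
    (tha l u).imK = beT l (‖u‖ ^ 2) * u 2 := by
  have h1 : Real.sqrt (‖u‖ ^ 2) = ‖u‖ := Real.sqrt_sq (norm_nonneg u)
  rw [alT, beT, h1, tha]
  have r : ∀ v : En 3, (imq v).re = 0 := fun _ => rfl
  have rI : ∀ v : En 3, (imq v).imI = v 0 := fun _ => rfl
  have rJ : ∀ v : En 3, (imq v).imJ = v 1 := fun _ => rfl
  have rK : ∀ v : En 3, (imq v).imK = v 2 := fun _ => rfl
  refine ⟨?_, ?_, ?_, ?_⟩
  · rw [Quaternion.re_add, Quaternion.re_coe, r, add_zero]
  · rw [Quaternion.imI_add, Quaternion.imI_coe, rI, zero_add]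
    rfl
  · rw [Quaternion.imJ_add, Quaternion.imJ_coe, rJ, zero_add]
    rfl
  · rw [Quaternion.imK_add, Quaternion.imK_coe, rK, zero_add]
    rfl

private theorem Adq_bv (q : ℍ[ℝ]) (i j : Fin 3) :
    Adq q (bv j) i = rotQ q.re ![q.imI, q.imJ, q.imK] i j := by
  have h : Adq q (bv j) = vim (q * imq (bv j) * star q) := rfl
  have r : ∀ v : En 3, (imq v).re = 0 := fun _ => rfl
  have rI : ∀ v : En 3, (imq v).imI = v 0 := fun _ => rfl
  have rJ : ∀ v : En 3, (imq v).imJ = v 1 := fun _ => rfl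
  have rK : ∀ v : En 3, (imq v).imK = v 2 := fun _ => rfl
  have v0 : ∀ p : ℍ[ℝ], vim p 0 = p.imI := fun _ => rfl
  have v1 : ∀ p : ℍ[ℝ], vim p 1 = p.imJ := fun _ => rfl
  have v2 : ∀ p : ℍ[ℝ], vim p 2 = p.imK := fun _ => rfl
  rw [h]
  fin_cases i <;> fin_cases j <;>
    simp [v0, v1, v2, rotQ, Quaternion.imI_mul, Quaternion.imJ_mul, Quaternion.imK_mul,
      Quaternion.re_mul, r, rI, rJ, rK, bv] <;> ring

private theorem vec4_bv_succ (j : Fin 3) : vec4 (bv j.succ) = bv j := by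
  ext i
  fin_cases i <;> fin_cases j <;> simp [vec4, bv]

private theorem rqM_succ (l : ℝ) (u : En 3) (i j : Fin 3) : rqM l u i.succ j.succ =
    rotQ (alT l (‖u‖ ^ 2)) (fun i => beT l (‖u‖ ^ 2) * u i) i j := by
  have h1 : rqM l u i.succ j.succ = Adq (tha l u) (bv j) i := by
    show (mk4 ((bv j.succ : En 4) 0) (Adq (tha l u) (vec4 (bv j.succ)))) i.succ = _
    rw [vec4_bv_succ]
    fin_cases i <;> rfl
  obtain ⟨e0, e1, e2, e3⟩ := tha_eq' l u
  rw [h1, Adq_bv, e0, e1, e2, e3]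
  congr 1
  ext i
  fin_cases i <;> rfl

private theorem rqM_zero (l : ℝ) (u : En 3) (j : Fin 4) : rqM l u 0 j = if j = 0 then 1 else 0 := by
  show (bv j : En 4) 0 = _
  simp [bv, eq_comm]

private theorem rqM_zero' (l : ℝ) (u : En 3) (i : Fin 4) : rqM l u i 0 = if i = 0 then 1 else 0 := by
  show (mk4 ((bv 0 : En 4) 0) (Adq (tha l u) (vec4 (bv 0)))) i = _
  have h : vec4 (bv 0) = 0 := by
    ext i
    fin_cases i <;> simp [vec4, bv]
  rw [h, map_zero]
  fin_cases i <;> simp [mk4, bv]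

private theorem contDiff_alN {l : ℝ} (hl : 0 < l) : ContDiff ℝ ∞ (fun u : En 3 => alT l (‖u‖ ^ 2)) :=
  (contDiff_alT hl).comp (contDiff_norm_sq ℝ)

private theorem contDiff_beN {l : ℝ} (hl : 0 < l) : ContDiff ℝ ∞ (fun u : En 3 => beT l (‖u‖ ^ 2)) :=
  (contDiff_beT hl).comp (contDiff_norm_sq ℝ)

private theorem contDiff_co (i : Fin 3) : ContDiff ℝ ∞ (fun u : En 3 => u i) :=
  (EuclideanSpace.proj (𝕜 := ℝ) i : En 3 →L[ℝ] ℝ).contDiff

private theorem contDiff_rotQ {a : En 3 → ℝ} {v : En 3 → Fin 3 → ℝ} (ha : ContDiff ℝ ∞ a)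
    (hv : ∀ i, ContDiff ℝ ∞ (fun u => v u i)) (i j : Fin 3) :
    ContDiff ℝ ∞ (fun u => rotQ (a u) (v u) i j) := by
  have h0 := hv 0
  have h1 := hv 1
  have h2 := hv 2
  fin_cases i <;> fin_cases j <;> simp [rotQ] <;> fun_prop

theorem smM_rqM {l : ℝ} (hl : 0 < l) : SmM (univ : Set (En 3)) (rqM l) := by
  intro i j
  refine Fin.cases ?_ (fun i => ?_) i
  · simp only [rqM_zero]
    exact contDiffOn_const
  · refine Fin.cases ?_ (fun j => ?_) j
    · simp only [rqM_zero']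
      exact contDiffOn_const
    · simp only [rqM_succ]
      exact (contDiff_rotQ (contDiff_alN hl)
        (fun i => (contDiff_beN hl).mul (contDiff_co i)) i j).contDiffOn

private theorem hasDerivAt_rotQ {A : ℝ → ℝ} {V : ℝ → Fin 3 → ℝ} {t p : ℝ} {w : Fin 3 → ℝ}
    (hA : HasDerivAt A p t) (hV : ∀ i, HasDerivAt (fun s => V s i) (w i) t) (i j : Fin 3) :
    HasDerivAt (fun s => rotQ (A s) (V s) i j) (rotQ' (A t) (V t) p w i j) t := by
  have aa := hA.fun_pow 2
  have v0 := (hV 0).fun_pow 2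
  have v1 := (hV 1).fun_pow 2
  have v2 := (hV 2).fun_pow 2
  have a0 := hA.fun_mul (hV 0)
  have a1 := hA.fun_mul (hV 1)
  have a2 := hA.fun_mul (hV 2)
  have v01 := (hV 0).fun_mul (hV 1)
  have v02 := (hV 0).fun_mul (hV 2)
  have v12 := (hV 1).fun_mul (hV 2)
  fin_cases i <;> fin_cases j
  · refine (((aa.fun_add v0).fun_sub v1).fun_sub v2).congr_deriv ?_
    simp [rotQ']
  · refine ((v01.fun_sub a2).const_mul 2).congr_deriv ?_
    simp [rotQ']; ring
  · refine ((v02.fun_add a1).const_mul 2).congr_deriv ?_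
    simp [rotQ']; ring
  · refine ((v01.fun_add a2).const_mul 2).congr_deriv ?_
    simp [rotQ']; ring
  · refine (((aa.fun_sub v0).fun_add v1).fun_sub v2).congr_deriv ?_
    simp [rotQ']
  · refine ((v12.fun_sub a0).const_mul 2).congr_deriv ?_
    simp [rotQ']; ring
  · refine ((v02.fun_sub a1).const_mul 2).congr_deriv ?_
    simp [rotQ']; ring
  · refine ((v12.fun_add a0).const_mul 2).congr_deriv ?_
    simp [rotQ']; ring
  · refine (((aa.fun_sub v0).fun_sub v1).fun_add v2).congr_deriv ?_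
    simp [rotQ']

/-- The derivative of the lower block. -/
private theorem fderiv_rqM {l : ℝ} (hl : 0 < l) (u : En 3) (k i j : Fin 3) :
    fderiv ℝ (fun y => rqM l y i.succ j.succ) u (bv k) =
      rotQ' (alT l (‖u‖ ^ 2)) (fun i => beT l (‖u‖ ^ 2) * u i)
        (2 * u k * deriv (alT l) (‖u‖ ^ 2))
        (fun i => beT l (‖u‖ ^ 2) * (if i = k then 1 else 0) +
          2 * u k * deriv (beT l) (‖u‖ ^ 2) * u i) i j := by
  simp only [rqM_succ]
  have hd : DifferentiableAt ℝ (fun y : En 3 => rotQ (alT l (‖y‖ ^ 2))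
      (fun i => beT l (‖y‖ ^ 2) * y i) i j) u :=
    (contDiff_rotQ (contDiff_alN hl)
        (fun i => (contDiff_beN hl).mul (contDiff_co i)) i j).differentiable (by simp) u
  rw [← hd.lineDeriv_eq_fderiv, lineDeriv]
  have hline : HasDerivAt (fun t : ℝ => u + t • (bv k : En 3)) (bv k) 0 := by
    have := ((hasDerivAt_id' (0 : ℝ)).smul_const (bv k : En 3)).const_add u
    simpa using this
  have hn : HasDerivAt (fun t : ℝ => ‖u + t • (bv k : En 3)‖ ^ 2) (2 * u k) 0 := by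
    have h1 := hline.norm_sq
    refine h1.congr_deriv ?_
    simp [bv, EuclideanSpace.inner_single_right]
  have h0 : (‖u + (0 : ℝ) • (bv k : En 3)‖ ^ 2) = ‖u‖ ^ 2 := by simp
  have hα : HasDerivAt (alT l) (deriv (alT l) (‖u‖ ^ 2)) (‖u + (0 : ℝ) • (bv k : En 3)‖ ^ 2) := by
    rw [h0]
    exact ((contDiff_alT hl).differentiable (by simp) _).hasDerivAt
  have hβ : HasDerivAt (beT l) (deriv (beT l) (‖u‖ ^ 2)) (‖u + (0 : ℝ) • (bv k : En 3)‖ ^ 2) := by
    rw [h0]
    exact ((contDiff_beT hl).differentiable (by simp) _).hasDerivAt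
  have hA := HasDerivAt.comp (0 : ℝ) hα hn
  have hB := HasDerivAt.comp (0 : ℝ) hβ hn
  have hC : ∀ i : Fin 3, HasDerivAt (fun t : ℝ => (u + t • (bv k : En 3)) i)
      (if i = k then 1 else 0) 0 := by
    intro i
    have h1 : HasDerivAt (fun t : ℝ => u i + t * (if i = k then 1 else 0))
        (if i = k then 1 else 0) 0 := by
      have := ((hasDerivAt_id' (0 : ℝ)).mul_const (if i = k then (1 : ℝ) else 0)).const_add (u i)
      simpa using this
    refine h1.congr_of_eventuallyEq (Filter.Eventually.of_forall fun t => ?_)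
    simp [bv]
  have hV : ∀ i : Fin 3, HasDerivAt (fun t : ℝ => beT l (‖u + t • (bv k : En 3)‖ ^ 2) *
      (u + t • (bv k : En 3)) i) (beT l (‖u‖ ^ 2) * (if i = k then 1 else 0) +
          2 * u k * deriv (beT l) (‖u‖ ^ 2) * u i) 0 := by
    intro i
    refine (hB.fun_mul (hC i)).congr_deriv ?_
    simp only [Function.comp, zero_smul, add_zero]
    ring
  have hA' : HasDerivAt (fun t : ℝ => alT l (‖u + t • (bv k : En 3)‖ ^ 2))
      (2 * u k * deriv (alT l) (‖u‖ ^ 2)) 0 := by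
    refine hA.congr_deriv ?_
    ring
  have := (hasDerivAt_rotQ (V := fun t i => beT l (‖u + t • (bv k : En 3)‖ ^ 2) *
      (u + t • (bv k : En 3)) i) hA' hV i j).deriv
  rw [this]
  simp only [zero_smul, add_zero]

/-- `ωₖ`. -/
private noncomputable def omk (l : ℝ) (u : En 3) (k : Fin 3) : Fin 3 → ℝ :=
  omQ (alT l (‖u‖ ^ 2)) (fun i => beT l (‖u‖ ^ 2) * u i)
        (2 * u k * deriv (alT l) (‖u‖ ^ 2))
        (fun i => beT l (‖u‖ ^ 2) * (if i = k then 1 else 0) +
          2 * u k * deriv (beT l) (‖u‖ ^ 2) * u i)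

private theorem norm_sq3 (x : En 3) : ‖x‖ ^ 2 = x 0 ^ 2 + x 1 ^ 2 + x 2 ^ 2 := by
  rw [EuclideanSpace.norm_sq_eq, Fin.sum_univ_three]
  simp [sq_abs]

/-- the block form of `Aᵀ ∂ₖ A`. -/
private noncomputable def Mk (l : ℝ) (u : En 3) (k : Fin 3) : Matrix (Fin 4) (Fin 4) ℝ :=
  fun i j => Fin.cases 0 (fun i => Fin.cases 0 (fun j => 2 * cr (omk l u k) i j) j) i

private theorem sum_rqM {l : ℝ} (hl : 0 < l) (u : En 3) (k : Fin 3) (i j : Fin 4) :
    ∑ p, rqM l u p i * fderiv ℝ (fun y => rqM l y p j) u (bv k) = Mk l u k i j := by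
  have hc : ∀ c : ℝ, fderiv ℝ (fun _ : En 3 => c) u (bv k) = 0 := fun c => by
    rw [fderiv_fun_const]; rfl
  rw [Fin.sum_univ_succ]
  simp only [rqM_zero, hc, mul_zero, zero_add]
  refine Fin.cases ?_ (fun i => ?_) i
  · simp only [rqM_zero', Fin.succ_ne_zero, if_false, zero_mul, Finset.sum_const_zero]
    rfl
  · refine Fin.cases ?_ (fun j => ?_) j
    · simp only [rqM_zero', hc, mul_zero, Finset.sum_const_zero]
      rfl
    · simp only [fderiv_rqM hl]
      have h1 := congrFun (congrFun (rotQ_tr_mul (alT l (‖u‖ ^ 2)) (fun i => beT l (‖u‖ ^ 2) * u i)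
        (2 * u k * deriv (alT l) (‖u‖ ^ 2))
        (fun i => beT l (‖u‖ ^ 2) * (if i = k then 1 else 0) +
          2 * u k * deriv (beT l) (‖u‖ ^ 2) * u i)) i) j
      rw [Matrix.mul_apply] at h1
      simp only [rqM_succ]
      simp only [Matrix.transpose_apply] at h1
      rw [h1]
      have h2 : alT l (‖u‖ ^ 2) ^ 2 + (beT l (‖u‖ ^ 2) * u 0) ^ 2 + (beT l (‖u‖ ^ 2) * u 1) ^ 2 +
          (beT l (‖u‖ ^ 2) * u 2) ^ 2 = 1 := by
        have := alT_beT hl (sq_nonneg ‖u‖)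
        have h3 := norm_sq3 u
        calc _ = alT l (‖u‖ ^ 2) ^ 2 + (u 0 ^ 2 + u 1 ^ 2 + u 2 ^ 2) * beT l (‖u‖ ^ 2) ^ 2 := by ring
          _ = 1 := by rw [← h3]; exact this
      have h4 : 2 * (alT l (‖u‖ ^ 2) * (2 * u k * deriv (alT l) (‖u‖ ^ 2)) +
          beT l (‖u‖ ^ 2) * u 0 * (beT l (‖u‖ ^ 2) * (if (0 : Fin 3) = k then 1 else 0) +
            2 * u k * deriv (beT l) (‖u‖ ^ 2) * u 0) +
          beT l (‖u‖ ^ 2) * u 1 * (beT l (‖u‖ ^ 2) * (if (1 : Fin 3) = k then 1 else 0) +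
            2 * u k * deriv (beT l) (‖u‖ ^ 2) * u 1) +
          beT l (‖u‖ ^ 2) * u 2 * (beT l (‖u‖ ^ 2) * (if (2 : Fin 3) = k then 1 else 0) +
            2 * u k * deriv (beT l) (‖u‖ ^ 2) * u 2)) = 0 := by
        have h5 := alT_beT' hl (sq_nonneg ‖u‖)
        have h3 := norm_sq3 u
        have h6 : u 0 * (if (0 : Fin 3) = k then 1 else 0) + u 1 * (if (1 : Fin 3) = k then 1 else 0) +
            u 2 * (if (2 : Fin 3) = k then 1 else 0) = u k := by
          fin_cases k <;> simp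
        linear_combination 2 * u k * h5 + 2 * beT l (‖u‖ ^ 2) ^ 2 * h6 -
          4 * beT l (‖u‖ ^ 2) * u k * deriv (beT l) (‖u‖ ^ 2) * h3
      rw [h2, h4]
      simp only [zero_smul, add_zero, Matrix.smul_apply, smul_eq_mul, one_mul]
      rfl

private theorem thM_rqM {l : ℝ} (hl : 0 < l) (u : En 3) :
    thM (rqM l) (fun u => (rqM l u)ᵀ) u =
      GrC.lin3 (fun k => (of1 (bv k) : FA 3)) (fun k => (Mk l u k).map ((↑) : ℝ → ℂ)) := by
  refine Matrix.ext fun i j => ?_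
  have h1 : ∀ p, DM (fun y => (rM (rqM l y) : Matrix (Fin 4) (Fin 4) (FA 3))) u p j =
      ∑ k, of1 (bv k) * rF (fderiv ℝ (fun y => rqM l y p j) u (bv k)) := by
    intro p
    rw [DM_apply, dF]
    refine Finset.sum_congr rfl fun k _ => ?_
    congr 1
    have hd : HasFDerivAt (fun y => rqM l y p j) (fderiv ℝ (fun y => rqM l y p j) u) u :=
      (((smM_rqM hl p j).contDiffAt Filter.univ_mem).differentiableAt (by simp)).hasFDerivAt
    have h2 : HasFDerivAt (fun y => (rM (rqM l y) : Matrix (Fin 4) (Fin 4) (FA 3)) p j)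
        (((Complex.ofRealCLM).comp (fderiv ℝ (fun y => rqM l y p j) u)).smulRight (1 : FA 3)) u := by
      have h3 := (Complex.ofRealCLM.hasFDerivAt.comp u hd).smul_const (1 : FA 3)
      refine h3.congr_of_eventuallyEq (Filter.Eventually.of_forall fun y => ?_)
      show rF _ = _
      rw [rF_eq]
      rfl
    rw [h2.fderiv, rF_eq]
    rfl
  show ∑ p, (rM ((rqM l u)ᵀ) : Matrix (Fin 4) (Fin 4) (FA 3)) i p *
    DM (fun y => (rM (rqM l y) : Matrix (Fin 4) (Fin 4) (FA 3))) u p j = _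
  simp only [h1, rM_apply, Matrix.transpose_apply, GrC.lin3, Matrix.of_apply, Matrix.map_apply]
  simp only [Finset.mul_sum]
  rw [Finset.sum_comm]
  refine Finset.sum_congr rfl fun k _ => ?_
  have h4 : ∀ p, rF (rqM l u p i) * (of1 (bv k) * rF (fderiv ℝ (fun y => rqM l y p j) u (bv k))) =
      ((rqM l u p i * fderiv ℝ (fun y => rqM l y p j) u (bv k) : ℝ) : ℂ) • (of1 (bv k) : FA 3) := by
    intro p
    rw [← rF_comm, ← mul_assoc, ← rF_mul, rF_smul]
  simp only [h4]
  rw [← Finset.sum_smul, ← Complex.ofReal_sum, sum_rqM hl]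

private theorem tr_Mk (l : ℝ) (u : En 3) (a b c : Fin 3) :
    trace ((Mk l u a).map ((↑) : ℝ → ℂ) * (Mk l u b).map ((↑) : ℝ → ℂ) *
      (Mk l u c).map ((↑) : ℝ → ℂ)) =
      (-8 : ℂ) * ((det !![omk l u a 0, omk l u a 1, omk l u a 2; omk l u b 0, omk l u b 1, omk l u b 2;
        omk l u c 0, omk l u c 1, omk l u c 2] : ℝ) : ℂ) := by
  have h1 : trace ((Mk l u a).map ((↑) : ℝ → ℂ) * (Mk l u b).map ((↑) : ℝ → ℂ) *
      (Mk l u c).map ((↑) : ℝ → ℂ)) = ((trace (Mk l u a * Mk l u b * Mk l u c) : ℝ) : ℂ) := by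
    simp only [trace, diag_apply, Matrix.mul_apply, Matrix.map_apply]
    push_cast
    rfl
  have h2 : trace (Mk l u a * Mk l u b * Mk l u c) =
      8 * trace (cr (omk l u a) * cr (omk l u b) * cr (omk l u c)) := by
    have z1 : ∀ k j, Mk l u k 0 j = 0 := fun k j => rfl
    have z2 : ∀ k i, Mk l u k (Fin.succ i) 0 = 0 := fun k i => rfl
    have z3 : ∀ k i j, Mk l u k (Fin.succ i) (Fin.succ j) = 2 * cr (omk l u k) i j :=
      fun k i j => rfl
    simp only [trace, diag_apply, Matrix.mul_apply, Fin.sum_univ_succ (n := 3), z1, z2, z3,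
      zero_mul, mul_zero, Finset.sum_const_zero, zero_add]
    simp only [Finset.mul_sum, Finset.sum_mul]
    refine Finset.sum_congr rfl fun i _ => Finset.sum_congr rfl fun j _ =>
      Finset.sum_congr rfl fun k _ => ?_
    ring
  rw [h1, h2, tr_cr]
  push_cast
  ring

theorem tr_rqM {l : ℝ} (hl : 0 < l) (u : En 3) :
    -(1 / 3 : ℂ) • trace (thM (rqM l) (fun u => (rqM l u)ᵀ) u *
      thM (rqM l) (fun u => (rqM l u)ᵀ) u * thM (rqM l) (fun u => (rqM l u)ᵀ) u) =
      (coT l u : ℂ) • (of1 (bv 0) * of1 (bv 1) * of1 (bv 2)) := by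
  rw [thM_rqM hl, GrC.tr_lin3_cube, GrC.alt3 (S := faG 3)
    (fun k => σ_of_deg_odd odd_one (isDeg_of1 _)) (-8) (omk l u) _ (tr_Mk l u), smul_smul]
  have h1 : det (Matrix.of (omk l u)) = -2 * beT l (‖u‖ ^ 2) * deriv (alT l) (‖u‖ ^ 2) :=
    det_om _ _ _ _ (fun i => u i)
      (by rw [← norm_sq3]; exact alT_beT hl (sq_nonneg _))
      (by
        rw [← norm_sq3]
        exact alT_beT' hl (sq_nonneg _))
  rw [h1]
  congr 1
  rw [coT]
  push_cast
  ring

end Pool.Agent.EXO.CH
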