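import Mathlib
import Pool.Agent.EXO.ChMatA
import Pool.Agent.EXO.ChRqA
import Pool.Agent.EXO.ChPh

/-!
# EXO / ChConA: the forms `τ₀` and `aF`

PROOFS.
* `coT_zero`: for `3 l / 8 ≤ ‖u‖`: `alT l` is constant `= 1` for `t ≥ (3 l / 8)²`, so (its derivative is continuous, and zero
  for `t > (3 l / 8)²`) `deriv (alT l) (‖u‖²) = 0`.
* `tau0_ne`: if `tau0 l x ≠ 0` then `0 < x 0` and `coT l (uq x) ≠ 0`, so `‖vec4 x‖ / x 0 < 3 l / 8`.
* `contDiffAt_tau0` (`x ≠ 0`): for `0 < x 0` it is a pull back of a smooth form by a smooth map (`contDiffOn_pbF`;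
  `coT l` is smooth: `contDiff_alT`, `contDiff_beT`, `contDiff_norm_sq`); for `x 0 ≤ 0`, `x ≠ 0`: `tau0 l = 0` near `x`: clear
  if `x 0 < 0`; if `x 0 = 0`, `vec4 x ≠ 0` and `‖vec4 y‖ / y 0` is large for `y` near `x`, `0 < y 0`: `tau0_ne`.
* `deg_tau0`.  `dF_tau0`: near `x` with `0 < x 0`: `dF_pbF` and: the exterior derivative of a 3-form on `ℝ³` has degree 4
  (`deg_dF`) and is `0` (no subset of `Fin 3` has four elements).
* `aF_ne`: for `‖x‖ < 1` or `2 < ‖x‖` `ph` is locally constant (`ph_zero`, `ph_one`), so `1 ≤ ‖x‖ ≤ 2`; `tau0_ne`.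
* `contDiff_aF`: near `0` it vanishes, elsewhere a product (`contDiffOn_dF`, `contDiffAt_tau0`).
* `deg_aF`: degree `1 + 3` (`deg_dF`, `deg_rF`).  `dF_aF`: degree `5` on `ℝ⁴`.
* `YC`: closed and bounded.  `YC ⊆ YY` for `l < 1`: for `x ∈ YC l`:
  `1 ≤ ‖x‖² = (x 0)² + ‖vec4 x‖² ≤ (x 0)² (1 + 9/64)`, so `x 0 > 4/5`; `‖vec4 x‖ ≤ 3/8 x 0 < x 0 / 2`.
* `YY` is open and convex (the norm is convex, `vec4` and `x ↦ x 0` are linear).
-/

set_option autoImplicit false
set_option maxSynthPendingDepth 3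
set_option linter.unusedSectionVars false

open Set MeasureTheory Matrix
open scoped ContDiff

namespace Pool.Agent.EXO.CH

theorem ChConA_alT {l : ℝ} (hl : 0 < l) {r t : ℝ} (hr : 3 * l / 8 ≤ r) (ht : r ^ 2 ≤ t) :
    alT l t = 1 := by
  have hr0 : 0 ≤ r := by linarith
  have h1 : r ≤ Real.sqrt t := Real.le_sqrt_of_sq_le ht
  have h2 : 3 / 8 ≤ Real.sqrt t / l := by
    rw [le_div_iff₀ hl]; linarith
  have h3 : stp (4 * (Real.sqrt t / l - 1 / 8)) = 1 :=
    Real.smoothTransition.one_of_one_le (by linarith)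
  unfold alT psi
  rw [h3]
  simp

theorem coT_zero {l : ℝ} (hl : 0 < l) {u : En 3} (h : 3 * l / 8 ≤ ‖u‖) : coT l u = 0 := by
  have hd : deriv (alT l) (‖u‖ ^ 2) = 0 := by
    have h1 : HasDerivWithinAt (alT l) (deriv (alT l) (‖u‖ ^ 2)) (Ici (‖u‖ ^ 2)) (‖u‖ ^ 2) :=
      (((contDiff_alT hl).differentiable (by simp)) _).hasDerivAt.hasDerivWithinAt
    have h2 : HasDerivWithinAt (alT l) 0 (Ici (‖u‖ ^ 2)) (‖u‖ ^ 2) := by
      refine (hasDerivWithinAt_const (‖u‖ ^ 2) (Ici (‖u‖ ^ 2)) (1 : ℝ)).congr ?_ ?_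
      · intro t ht
        exact ChConA_alT hl h ht
      · exact ChConA_alT hl h le_rfl
    exact (uniqueDiffOn_Ici _ _ self_mem_Ici).eq_deriv _ h1 h2
  simp [coT, hd]

theorem ChConA_uq {x : En 4} (hx : 0 < x 0) : ‖uq x‖ = ‖vec4 x‖ / x 0 := by
  unfold uq
  rw [norm_smul, norm_inv, Real.norm_of_nonneg hx.le, div_eq_inv_mul]

/-- `vec4` as a continuous linear map. -/
noncomputable def ChConA_vL : En 4 →L[ℝ] En 3 :=
  LinearMap.toContinuousLinearMap
    { toFun := vec4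
      map_add' := fun u v => by
        ext i
        fin_cases i <;> simp [vec4]
      map_smul' := fun c u => by
        ext i
        fin_cases i <;> simp [vec4] }

theorem ChConA_vL_apply (x : En 4) : ChConA_vL x = vec4 x := rfl

theorem ChConA_contDiff_vec4 : ContDiff ℝ ∞ vec4 := ChConA_vL.contDiff

theorem ChConA_cont_vec4 : Continuous vec4 := ChConA_vL.continuous

theorem ChConA_norm (x : En 4) : ‖x‖ ^ 2 = (x 0) ^ 2 + ‖vec4 x‖ ^ 2 := by
  rw [EuclideanSpace.norm_sq_eq, EuclideanSpace.norm_sq_eq]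
  simp [vec4, Fin.sum_univ_succ]

theorem tau0_ne {l : ℝ} (hl : 0 < l) {x : En 4} (h : tau0 l x ≠ 0) :
    0 < x 0 ∧ ‖vec4 x‖ ≤ 3 * l / 8 * x 0 := by
  have h0 : 0 < x 0 := by
    by_contra h1
    exact h (by simp [tau0, h1])
  refine ⟨h0, ?_⟩
  by_contra h1
  push Not at h1
  apply h
  have h2 : coT l (uq x) = 0 := by
    apply coT_zero hl
    rw [ChConA_uq h0, le_div_iff₀ h0]
    exact h1.le
  have h3 : tau0 l x = FAMap (fderiv ℝ uq x)
      ((coT l (uq x) : ℂ) • (of1 (bv 0) * of1 (bv 1) * of1 (bv 2))) := by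
    unfold tau0
    rw [if_pos h0]
    rfl
  rw [h3, h2, Complex.ofReal_zero, zero_smul, FAMap_zero]

/-- The form `u ↦ coT l u du₀ du₁ du₂`. -/
noncomputable def ChConA_f (l : ℝ) (u : En 3) : FA 3 :=
  (coT l u : ℂ) • (of1 (bv 0) * of1 (bv 1) * of1 (bv 2))

theorem ChConA_contDiff_f {l : ℝ} (hl : 0 < l) : ContDiff ℝ ∞ (ChConA_f l) := by
  have hn : ContDiff ℝ ∞ fun u : En 3 => ‖u‖ ^ 2 := contDiff_norm_sq ℝ
  have hd : ContDiff ℝ ∞ (deriv (alT l)) := (contDiff_infty_iff_deriv.1 (contDiff_alT hl)).2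
  have h1 : ContDiff ℝ ∞ (coT l) := by
    unfold coT
    exact contDiff_const.mul ((contDiff_const.mul ((contDiff_beT hl).comp hn)).mul (hd.comp hn))
  have h2 : ContDiff ℝ ∞ fun u : En 3 => (coT l u : ℂ) := Complex.ofRealCLM.contDiff.comp h1
  exact h2.smul contDiff_const

theorem ChConA_deg_f (l : ℝ) (u : En 3) : (ChConA_f l u).IsDeg 3 :=
  isDeg_smul (isDeg_mul (isDeg_mul (isDeg_of1 _) (isDeg_of1 _)) (isDeg_of1 _)) _

theorem ChConA_smooth_uq : ContDiffOn ℝ ∞ uq {x : En 4 | 0 < x 0} := by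
  have h0 : ContDiff ℝ ∞ fun x : En 4 => x 0 := by fun_prop
  unfold uq
  refine ContDiffOn.smul (ContDiffOn.inv h0.contDiffOn fun x hx => ?_)
    ChConA_contDiff_vec4.contDiffOn
  exact ne_of_gt hx

theorem ChConA_open : IsOpen {x : En 4 | 0 < x 0} :=
  isOpen_lt continuous_const (by fun_prop)

theorem ChConA_eq {l : ℝ} {x : En 4} (hx : 0 < x 0) :
    tau0 l =ᶠ[nhds x] pbF uq (ChConA_f l) := by
  filter_upwards [ChConA_open.mem_nhds hx] with y hy
  unfold tau0
  rw [if_pos hy]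
  rfl

theorem ChConA_zero {l : ℝ} (hl : 0 < l) {x : En 4} (hx : x ≠ 0) (h : x 0 ≤ 0) :
    ∀ᶠ y in nhds x, tau0 l y = 0 := by
  have h1 : 3 * l / 8 * x 0 < ‖vec4 x‖ := by
    rcases h.lt_or_eq with h2 | h2
    · exact lt_of_lt_of_le (mul_neg_of_pos_of_neg (by positivity) h2) (norm_nonneg _)
    · rw [h2, mul_zero]
      have h3 := ChConA_norm x
      rw [h2] at h3
      have h4 : 0 < ‖x‖ := norm_pos_iff.2 hx
      by_contra h5
      push Not at h5
      have h6 : ‖vec4 x‖ = 0 := le_antisymm h5 (norm_nonneg _)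
      rw [h6] at h3
      nlinarith
  have h2 : ∀ᶠ y in nhds x, 3 * l / 8 * y 0 < ‖vec4 y‖ := by
    have hc1 : Continuous fun y : En 4 => 3 * l / 8 * y 0 := by fun_prop
    have hc2 : Continuous fun y : En 4 => ‖vec4 y‖ := ChConA_cont_vec4.norm
    exact (isOpen_lt hc1 hc2).mem_nhds h1
  filter_upwards [h2] with y hy
  by_contra h3
  exact absurd (tau0_ne hl h3).2 (not_le.2 hy)

theorem contDiffAt_tau0 {l : ℝ} (hl : 0 < l) {x : En 4} (hx : x ≠ 0) :
    ContDiffAt ℝ ∞ (tau0 l) x := by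
  by_cases h : 0 < x 0
  · have h1 : ContDiffOn ℝ ∞ (pbF uq (ChConA_f l)) {x : En 4 | 0 < x 0} :=
      contDiffOn_pbF ChConA_open ChConA_smooth_uq (fun x _ => mem_univ (uq x))
        (ChConA_contDiff_f hl).contDiffOn
    exact (h1.contDiffAt (ChConA_open.mem_nhds h)).congr_of_eventuallyEq (ChConA_eq h)
  · have h1 := ChConA_zero hl hx (not_lt.1 h)
    exact (contDiffAt_const (c := (0 : FA 4))).congr_of_eventuallyEq h1

theorem deg_tau0 (l : ℝ) (x : En 4) : (tau0 l x).IsDeg 3 := by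
  unfold tau0
  split_ifs with h
  · exact deg_pbF _ _ _ (ChConA_deg_f l _)
  · exact isDeg_zero 3

theorem ChConA_deg_top {m j : ℕ} (h : m < j) {u : FA m} (hu : u.IsDeg j) : u = 0 := by
  rw [isDeg_iff] at hu
  rw [← hu]
  exact dgF_eq_zero h u

theorem dF_tau0 {l : ℝ} (hl : 0 < l) {x : En 4} (hx : x ≠ 0) : dF (tau0 l) x = 0 := by
  by_cases h : 0 < x 0
  · have h1 : ContDiffAt ℝ ∞ uq x := ChConA_smooth_uq.contDiffAt (ChConA_open.mem_nhds h)
    rw [dF_congr (ChConA_eq h), dF_pbF (h1.of_le (by norm_cast))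
      ((ChConA_contDiff_f hl).differentiable (by simp) _)]
    have h2 : dF (ChConA_f l) (uq x) = 0 :=
      ChConA_deg_top (by norm_num) (deg_dF (Filter.Eventually.of_forall fun y => ChConA_deg_f l y))
    unfold pbF
    rw [h2, FAMap_zero]
  · exact dF_zero_of (ChConA_zero hl hx (not_lt.1 h))

/-- A compact set containing the support of `aF`. -/
def YC (l : ℝ) : Set (En 4) := {x | 0 ≤ x 0 ∧ ‖vec4 x‖ ≤ 3 * l / 8 * x 0 ∧ 1 ≤ ‖x‖ ∧ ‖x‖ ≤ 2}

theorem isCompact_YC (l : ℝ) : IsCompact (YC l) := by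
  have hc0 : Continuous fun y : En 4 => y 0 := by fun_prop
  have hc2 : Continuous fun y : En 4 => ‖vec4 y‖ := ChConA_cont_vec4.norm
  refine Metric.isCompact_of_isClosed_isBounded ?_ ?_
  · exact (isClosed_le continuous_const hc0).inter
      ((isClosed_le hc2 (continuous_const.mul hc0)).inter
        ((isClosed_le continuous_const continuous_norm).inter
          (isClosed_le continuous_norm continuous_const)))
  · refine Metric.isBounded_closedBall.subset (s := YC l) (t := Metric.closedBall 0 2) ?_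
    intro x hx
    rw [mem_closedBall_zero_iff]
    exact hx.2.2.2

theorem YC_sub {l : ℝ} (hl : 0 < l) (hl' : l < 1) : YC l ⊆ YY := by
  rintro x ⟨h1, h2, h3, h4⟩
  have h5 : ‖vec4 x‖ ≤ 3 / 8 * x 0 :=
    h2.trans (mul_le_mul_of_nonneg_right (by linarith) h1)
  have h6 := ChConA_norm x
  have h7 := norm_nonneg (vec4 x)
  have h8 : 1 ≤ (x 0) ^ 2 + ‖vec4 x‖ ^ 2 := by rw [← h6]; nlinarith
  have h9 : ‖vec4 x‖ ^ 2 ≤ (3 / 8 * x 0) ^ 2 := pow_le_pow_left₀ h7 h5 2
  have h10 : 4 / 5 < x 0 := by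
    by_contra h11
    push Not at h11
    nlinarith
  exact ⟨h10, by linarith, by linarith⟩

theorem isOpen_YY : IsOpen YY := by
  have hc0 : Continuous fun y : En 4 => y 0 := by fun_prop
  have hc2 : Continuous fun y : En 4 => ‖vec4 y‖ := ChConA_cont_vec4.norm
  exact (isOpen_lt continuous_const hc0).inter
    ((isOpen_lt hc2 (hc0.div_const 2)).inter (isOpen_lt continuous_norm continuous_const))

theorem convex_YY : Convex ℝ YY := by
  intro x hx y hy a b ha hb hab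
  obtain ⟨x1, x2, x3⟩ := hx
  obtain ⟨y1, y2, y3⟩ := hy
  have h0 : (a • x + b • y) 0 = a * x 0 + b * y 0 := by simp
  have h1 : ‖vec4 (a • x + b • y)‖ ≤ a * ‖vec4 x‖ + b * ‖vec4 y‖ := by
    rw [← ChConA_vL_apply, map_add, map_smul, map_smul, ChConA_vL_apply, ChConA_vL_apply]
    refine (norm_add_le _ _).trans ?_
    rw [norm_smul, norm_smul, Real.norm_of_nonneg ha, Real.norm_of_nonneg hb]
  have h2 : ‖a • x + b • y‖ ≤ a * ‖x‖ + b * ‖y‖ := by
    refine (norm_add_le _ _).trans ?_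
    rw [norm_smul, norm_smul, Real.norm_of_nonneg ha, Real.norm_of_nonneg hb]
  have key : ∀ p q : ℝ, 0 < p → 0 < q → 0 < a * p + b * q := by
    intro p q hp hq
    rcases ha.eq_or_lt with h | h
    · have : b = 1 := by linarith
      rw [← h, this]; linarith
    · have := mul_pos h hp
      have := mul_nonneg hb hq.le
      linarith
  refine ⟨?_, ?_, ?_⟩
  · rw [h0]
    have := key (x 0 - 4 / 5) (y 0 - 4 / 5) (by linarith) (by linarith)
    have : b = 1 - a := by linarith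
    subst this
    linarith
  · rw [h0]
    have := key (x 0 / 2 - ‖vec4 x‖) (y 0 / 2 - ‖vec4 y‖) (by linarith) (by linarith)
    linarith
  · have := key (3 - ‖x‖) (3 - ‖y‖) (by linarith) (by linarith)
    have : b = 1 - a := by linarith
    subst this
    linarith

theorem bv0_mem_YY : (bv 0 : En 4) ∈ YY := by
  have h1 : vec4 (bv 0) = 0 := by
    ext i
    fin_cases i <;> simp [vec4, bv]
  refine ⟨?_, ?_, ?_⟩
  · simp [bv]; norm_num
  · rw [h1]; simp [bv]
  · simp [bv]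

theorem ChConA_contDiff_rph : ContDiff ℝ ∞ fun y : En 4 => (rF (ph y) : FA 4) :=
  contDiff_rF.comp contDiff_ph

theorem ChConA_small {x : En 4} (hx : ‖x‖ < 1) :
    dF (fun y : En 4 => (rF (ph y) : FA 4)) x = 0 := by
  apply dF_zero_of
  have : ∀ᶠ y in nhds x, ‖y‖ < 1 :=
    (isOpen_lt continuous_norm continuous_const).mem_nhds hx
  filter_upwards [this] with y hy
  rw [ph_zero hy.le, rF_zero]

theorem ChConA_large {x : En 4} (hx : 2 < ‖x‖) :
    dF (fun y : En 4 => (rF (ph y) : FA 4)) x = 0 := by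
  have h : ∀ᶠ y in nhds x, 2 < ‖y‖ :=
    (isOpen_lt continuous_const continuous_norm).mem_nhds hx
  have h2 : (fun y : En 4 => (rF (ph y) : FA 4)) =ᶠ[nhds x] fun _ => 1 := by
    filter_upwards [h] with y hy
    rw [ph_one hy.le, rF_one]
  rw [dF_congr h2, dF_const]

theorem contDiff_aF {l : ℝ} (hl : 0 < l) : ContDiff ℝ ∞ (aF l) := by
  rw [contDiff_iff_contDiffAt]
  intro x
  by_cases hx : x = 0
  · subst hx
    have h : ∀ᶠ y in nhds (0 : En 4), aF l y = 0 := by
      have h1 : ∀ᶠ y in nhds (0 : En 4), ‖y‖ < 1 :=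
        (isOpen_lt continuous_norm continuous_const).mem_nhds (by simp)
      filter_upwards [h1] with y hy
      unfold aF
      rw [ChConA_small hy, zero_mul]
    exact (contDiffAt_const (c := (0 : FA 4))).congr_of_eventuallyEq h
  · have h1 : ContDiffAt ℝ ∞ (dF fun y : En 4 => (rF (ph y) : FA 4)) x :=
      (contDiff_dF ChConA_contDiff_rph).contDiffAt
    have h2 := h1.prodMk (contDiffAt_tau0 hl hx)
    have h3 : ContDiffAt ℝ ∞ (fun p : FA 4 × FA 4 => p.1 * p.2)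
        ((fun y => (dF (fun y : En 4 => (rF (ph y) : FA 4)) y, tau0 l y)) x) :=
      contDiff_mulFA.contDiffAt
    have h4 := ContDiffAt.comp (g := fun p : FA 4 × FA 4 => p.1 * p.2) x h3 h2
    have h5 : aF l = (fun p : FA 4 × FA 4 => p.1 * p.2) ∘
        (fun y => (dF (fun y : En 4 => (rF (ph y) : FA 4)) y, tau0 l y)) := rfl
    rw [h5]
    exact h4

theorem deg_aF (l : ℝ) (x : En 4) : (aF l x).IsDeg 4 := by
  have h : (dF (fun y : En 4 => (rF (ph y) : FA 4)) x).IsDeg 1 :=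
    deg_dF (Filter.Eventually.of_forall fun y => deg_rF _)
  exact isDeg_mul h (deg_tau0 l x)

theorem dF_aF (l : ℝ) (x : En 4) : dF (aF l) x = 0 :=
  ChConA_deg_top (by norm_num) (deg_dF (Filter.Eventually.of_forall fun y => deg_aF l y))

theorem aF_ne {l : ℝ} (hl : 0 < l) {x : En 4} (h : aF l x ≠ 0) : x ∈ YC l := by
  have h1 : tau0 l x ≠ 0 := by
    intro h1
    exact h (by unfold aF; rw [h1, mul_zero])
  obtain ⟨h2, h3⟩ := tau0_ne hl h1
  refine ⟨h2.le, h3, ?_, ?_⟩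
  · by_contra h4
    push Not at h4
    exact h (by unfold aF; rw [ChConA_small h4, zero_mul])
  · by_contra h4
    push Not at h4
    exact h (by unfold aF; rw [ChConA_large h4, zero_mul])

end Pool.Agent.EXO.CH
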