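import Mathlib
import Pool.Agent.EXO.ChConA

/-!
# EXO / ChAFc: the coefficient of `aF`

PROOF.  `x = t • mk4 1 u`, `x 0 = t > 0`, `uq x = u`.  `L = fderiv ℝ uq x`: `L w = t⁻¹ • (vec4 w - (w 0) • u)`.
`aF l x = dF (rF ∘ ph) x * (coT l u : ℂ) • (η₀ η₁ η₂)`, `η_k = FAMap L (of1 (bv k)) = of1 (adjoint L (bv k))` (`FAMap_of1`, `FAMap_mul`),
`adjoint L (bv k) = t⁻¹ • (bv (k+1) - (u k) • bv 0)` (check with `⟪L w, bv k⟫`).
`dF (rF ∘ ph) x = ∑ a, (fderiv ph x (bv a) : ℂ) • of1 (bv a)`.  Write `of1 (bv a) = dx a` (`of1_bv`); with `c_a = fderiv ph x (bv a)`: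
`(∑ c_a dx a) (dx 1 - u₀ dx 0) (dx 2 - u₁ dx 0) (dx 3 - u₂ dx 0) = (c_0 + u₀ c_1 + u₁ c_2 + u₂ c_3) dx 0 dx 1 dx 2 dx 3` (`dx_mul_dx`,
`dx_mul_self`), `dx 0 * dx 1 * dx 2 * dx 3 = mon univ`, and `c_0 + ∑ u_k c_{k+1} = fderiv ph x (mk4 1 u)`.  Another way: all forms of
degree 4 on `ℝ⁴` are multiples of `mon univ` and both sides can be computed with `FA.co_mul` and `decide`/`simp`.
-/

set_option autoImplicit false
set_option maxSynthPendingDepth 3
set_option linter.unusedSectionVars false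

open Set MeasureTheory Matrix
open scoped ContDiff

namespace Pool.Agent.EXO.CH

private theorem ChAFc_sort (i j : Fin 4) (z : FA 4) :
    dx i * (dx j * z) = -(dx j * (dx i * z)) := by
  rw [← mul_assoc, dx_mul_dx i j, neg_mul, mul_assoc]

private theorem ChAFc_kill (i : Fin 4) (z : FA 4) : dx i * (dx i * z) = 0 := by
  rw [← mul_assoc, dx_mul_self, zero_mul]

private theorem ChAFc_top : (dx 0 * (dx 1 * (dx 2 * dx 3)) : FA 4).co Finset.univ = 1 := by
  have h3 : (dx 3 : FA 4).co {3} = 1 := by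
    unfold dx
    rw [mon_co, if_pos rfl]
  have s0 : sg (0 : Fin 4) Finset.univ = 1 := by
    unfold sg
    rw [show ((Finset.univ : Finset (Fin 4)).filter (· < 0)) = ∅ by decide, Finset.card_empty, pow_zero]
  have s1 : sg (1 : Fin 4) ((Finset.univ : Finset (Fin 4)).erase 0) = 1 := by
    unfold sg
    rw [show (((Finset.univ : Finset (Fin 4)).erase 0).filter (· < 1)) = ∅ by decide,
      Finset.card_empty, pow_zero]
  have s2 : sg (2 : Fin 4) (((Finset.univ : Finset (Fin 4)).erase 0).erase 1) = 1 := by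
    unfold sg
    rw [show ((((Finset.univ : Finset (Fin 4)).erase 0).erase 1).filter (· < 2)) = ∅ by decide,
      Finset.card_empty, pow_zero]
  rw [dx_mul_co, if_pos (by decide), dx_mul_co, if_pos (by decide), dx_mul_co, if_pos (by decide),
    s0, s1, s2, show ((((Finset.univ : Finset (Fin 4)).erase 0).erase 1).erase 2) = {3} by decide, h3]
  norm_num

private theorem ChAFc_alg (c0 c1 c2 c3 s u0 u1 u2 : ℂ) :
    ((c0 • dx 0 + c1 • dx 1 + c2 • dx 2 + c3 • dx 3) * (((-(s * u0)) • dx 0 + s • dx 1) *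
      ((-(s * u1)) • dx 0 + s • dx 2) * ((-(s * u2)) • dx 0 + s • dx 3)) : FA 4).co Finset.univ =
      s ^ 3 * (c0 + u0 * c1 + u1 * c2 + u2 * c3) := by
  have h : ((c0 • dx 0 + c1 • dx 1 + c2 • dx 2 + c3 • dx 3) * (((-(s * u0)) • dx 0 + s • dx 1) *
      ((-(s * u1)) • dx 0 + s • dx 2) * ((-(s * u2)) • dx 0 + s • dx 3)) : FA 4) =
      (s ^ 3 * (c0 + u0 * c1 + u1 * c2 + u2 * c3)) • (dx 0 * (dx 1 * (dx 2 * dx 3))) := by
    simp only [mul_add, add_mul, smul_mul_assoc, mul_smul_comm, mul_assoc]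
    simp only [ChAFc_kill, dx_mul_self, ChAFc_sort 1 0, ChAFc_sort 2 0, ChAFc_sort 3 0,
      ChAFc_sort 2 1, ChAFc_sort 3 1, ChAFc_sort 3 2, dx_mul_dx 2 0, dx_mul_dx 3 2, mul_neg, neg_neg, mul_zero, smul_zero, zero_add,
      add_zero, neg_zero, smul_neg]
    module
  rw [h, FA.co_smul, ChAFc_top, mul_one]

/-- `vec4` as a continuous linear map. -/
private noncomputable def ChAFc_v4 : En 4 →L[ℝ] En 3 :=
  LinearMap.toContinuousLinearMap
    { toFun := vec4
      map_add' := by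
        intro u v
        ext i
        fin_cases i <;> simp [vec4]
      map_smul' := by
        intro c u
        ext i
        fin_cases i <;> simp [vec4] }

private theorem ChAFc_uq {t : ℝ} (ht : 0 < t) (u : En 3) (w : En 4) :
    fderiv ℝ uq (t • mk4 1 u) w = t⁻¹ • (vec4 w - w 0 • u) := by
  have hx0 : (t • mk4 1 u : En 4) 0 = t := by simp [mk4]
  have hxv : vec4 (t • mk4 1 u : En 4) = t • u := by
    ext i
    fin_cases i <;> simp [vec4, mk4]
  have hne : (t • mk4 1 u : En 4) 0 ≠ 0 := by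
    rw [hx0]
    exact ht.ne'
  have h1 : HasFDerivAt (fun y : En 4 => y 0)
      (EuclideanSpace.proj (0 : Fin 4) : En 4 →L[ℝ] ℝ) (t • mk4 1 u) :=
    (EuclideanSpace.proj (0 : Fin 4) : En 4 →L[ℝ] ℝ).hasFDerivAt
  have h2 := (hasDerivAt_inv hne).comp_hasFDerivAt (t • mk4 1 u) h1
  have h3 := h2.smul (ChAFc_v4.hasFDerivAt (x := t • mk4 1 u))
  have h4 : HasFDerivAt (uq : En 4 → En 3) _ (t • mk4 1 u) := h3
  rw [h4.fderiv]
  simp only [Function.comp, ContinuousLinearMap.add_apply, ContinuousLinearMap.smul_apply,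
    ContinuousLinearMap.smulRight_apply]
  have e1 : ChAFc_v4 (t • mk4 1 u) = t • u := hxv
  have e2 : ChAFc_v4 w = vec4 w := rfl
  have e3 : (EuclideanSpace.proj (0 : Fin 4) : En 4 →L[ℝ] ℝ) w = w 0 := rfl
  rw [e1, e2, e3, hx0]
  have ht' : t ≠ 0 := ht.ne'
  rw [smul_sub, smul_smul, smul_smul, smul_eq_mul, sub_eq_add_neg, ← neg_smul]
  congr 2
  field_simp

private theorem ChAFc_dF {m : ℕ} {f : En m → ℝ} {x : En m} (hf : DifferentiableAt ℝ f x) :
    dF (fun y => (rF (f y) : FA m)) x = ∑ a, ((fderiv ℝ f x (bv a) : ℝ) : ℂ) • dx a := by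
  unfold dF
  refine Finset.sum_congr rfl fun a _ => ?_
  have h1 : HasFDerivAt (fun y => (rF (f y) : FA m))
      ((ContinuousLinearMap.smulRight Complex.ofRealCLM (1 : FA m)).comp (fderiv ℝ f x)) x := by
    have h2 := (ContinuousLinearMap.smulRight Complex.ofRealCLM (1 : FA m)).hasFDerivAt.comp x
      hf.hasFDerivAt
    refine h2.congr_of_eventuallyEq (Filter.Eventually.of_forall fun y => ?_)
    simp only [Function.comp, ContinuousLinearMap.smulRight_apply, Complex.ofRealCLM_apply]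
    exact rF_eq _
  rw [h1.fderiv]
  simp only [ContinuousLinearMap.comp_apply, ContinuousLinearMap.smulRight_apply,
    Complex.ofRealCLM_apply]
  rw [of1_bv, mul_smul_comm, mul_one]

theorem aF_co {l : ℝ} (hl : 0 < l) {t : ℝ} (ht : 0 < t) (u : En 3) :
    (aF l (t • mk4 1 u)).co Finset.univ =
      (((t ^ 3)⁻¹ * (fderiv ℝ (ph : En 4 → ℝ) (t • mk4 1 u) (mk4 1 u)) * coT l u : ℝ) : ℂ) := by
  have hx0 : (t • mk4 1 u : En 4) 0 = t := by simp [mk4]
  have hxv : vec4 (t • mk4 1 u : En 4) = t • u := by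
    ext i
    fin_cases i <;> simp [vec4, mk4]
  have huq : uq (t • mk4 1 u) = u := by
    unfold uq
    rw [hx0, hxv, smul_smul, inv_mul_cancel₀ ht.ne', one_smul]
  set x : En 4 := t • mk4 1 u with hx
  have htau : tau0 l x = (coT l u : ℂ) •
      (of1 (ContinuousLinearMap.adjoint (fderiv ℝ uq x) (bv 0)) *
        of1 (ContinuousLinearMap.adjoint (fderiv ℝ uq x) (bv 1)) *
        of1 (ContinuousLinearMap.adjoint (fderiv ℝ uq x) (bv 2))) := by
    unfold tau0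
    rw [if_pos (by rw [hx0]; exact ht)]
    unfold pbF
    rw [huq, FAMap_smul, FAMap_mul, FAMap_mul, FAMap_of1, FAMap_of1, FAMap_of1]
  have hE : ∀ k : Fin 3, of1 (ContinuousLinearMap.adjoint (fderiv ℝ uq x) (bv k)) =
      ((fderiv ℝ uq x (bv 0) k : ℝ) : ℂ) • dx 0 + ((fderiv ℝ uq x (bv 1) k : ℝ) : ℂ) • dx 1 +
      ((fderiv ℝ uq x (bv 2) k : ℝ) : ℂ) • dx 2 + ((fderiv ℝ uq x (bv 3) k : ℝ) : ℂ) • dx 3 := by
    intro k
    rw [← adj_co, of1_eq_sum, Fin.sum_univ_four]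
  have hL : ∀ w, fderiv ℝ uq x w = t⁻¹ • (vec4 w - w 0 • u) := ChAFc_uq ht u
  have hE0 : of1 (ContinuousLinearMap.adjoint (fderiv ℝ uq x) (bv 0)) =
      (-((t : ℂ)⁻¹ * (u 0 : ℂ))) • dx 0 + (t : ℂ)⁻¹ • dx 1 := by
    rw [hE, hL, hL, hL, hL]
    simp [vec4, bv]
  have hE1 : of1 (ContinuousLinearMap.adjoint (fderiv ℝ uq x) (bv 1)) =
      (-((t : ℂ)⁻¹ * (u 1 : ℂ))) • dx 0 + (t : ℂ)⁻¹ • dx 2 := by
    rw [hE, hL, hL, hL, hL]
    simp [vec4, bv]
  have hE2 : of1 (ContinuousLinearMap.adjoint (fderiv ℝ uq x) (bv 2)) =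
      (-((t : ℂ)⁻¹ * (u 2 : ℂ))) • dx 0 + (t : ℂ)⁻¹ • dx 3 := by
    rw [hE, hL, hL, hL, hL]
    simp [vec4, bv]
  have hph : DifferentiableAt ℝ (ph : En 4 → ℝ) x := by
    have h1 : ContDiff ℝ ∞ (ph : En 4 → ℝ) := by
      unfold ph stp
      exact Real.smoothTransition.contDiff.comp
        (((contDiff_norm_sq ℝ).sub contDiff_const).div_const _)
    exact h1.differentiable (by simp) x
  have hmk : (mk4 1 u : En 4) = bv 0 + u 0 • bv 1 + u 1 • bv 2 + u 2 • bv 3 := by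
    ext i
    fin_cases i <;> simp [mk4, bv]
  unfold aF
  rw [ChAFc_dF hph, Fin.sum_univ_four, htau, hE0, hE1, hE2, mul_smul_comm, FA.co_smul, ChAFc_alg,
    hmk]
  simp only [map_add, map_smul, smul_eq_mul]
  push_cast
  ring

end Pool.Agent.EXO.CH
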