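import Mathlib
import Pool.Agent.EXO.ChMatB

/-!
# EXO / ChCsA: the Chern-Simons form of a frame, `d cs = tr F²`

`A = F.fA = L dJ` (odd, degree 1), `B = F.fB = dA` (even, degree 2), `csF = tr (A B) + (2/3) tr (A A A)`.

PROOFS.
* `deg_fA`: `rM L` has degree 0, `deg_DM_rM`, `deg_mulM`.  `deg_fB`: `deg_DM` and `deg_fA` (all points).
* `smM_fA`: `SmM.mul`, `SmM.rM`, `SmM.DM`; `smM_fB`: `SmM.DM`.  `contDiffOn_csF`: `contDiffOn_trace`,
  `SmM.mul` (`GrC.cs A B = trace (A * B) + (2/3) • trace (A * A * A)`).  `deg_csF`: traces of products of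
  degree `1 + 2`, `1 + 1 + 1`; `isDeg_sum`, `isDeg_add`, `isDeg_smul`.
* `dF_csF`: with `A`, `B` at points near `x` (all smooth on the open set `U`):
  `dF (tr (A B)) = tr (DM (A B)) = tr (B B - A * DM B)` (`dF_trace`, `DM_mul_od`), and `DM B = DM (DM A) = 0` (`DM_DM`,
  `F.fB = DM F.fA` by `rfl`).  `dF (tr (A A A)) = tr (DM (A * A) * A + A * A * B)` (`DM_mul_ev`, `A * A` is even) and
  `DM (A * A) = B * A - A * B`.  So `dF csF x = GrC.dcs A B` and `GrC.dcs_eq` applies (`CsId`).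
-/

set_option autoImplicit false
set_option maxSynthPendingDepth 3
set_option linter.unusedSectionVars false

open Set MeasureTheory Matrix
open scoped ContDiff

namespace Pool.Agent.EXO.CH

namespace Frame

variable {m : ℕ} {U : Set (En m)} {a b : Type} [Fintype a] [Fintype b] [DecidableEq a]
  [DecidableEq b]

theorem deg_fA (F : Frame U a b) (x : En m) (i j : b) : (F.fA x i j).IsDeg 1 := by
  have h := deg_mulM (m := m) (i := 0) (j := 1) (X := rM (F.L x))
    (Y := DM (fun y => rM (F.J y)) x) (fun p q => deg_rF _) (fun p q => deg_DM_rM F.J x p q) i j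
  rwa [zero_add] at h

theorem deg_fB (F : Frame U a b) (x : En m) (i j : b) : (F.fB x i j).IsDeg 2 :=
  deg_DM (j := 1) (X := F.fA) (Filter.Eventually.of_forall fun y p q => F.deg_fA y p q) i j

theorem smM_fA (hU : IsOpen U) (F : Frame U a b) : SmM U F.fA :=
  (SmM.rM F.smoothL).mul ((SmM.rM F.smoothJ).DM hU)

theorem smM_fB (hU : IsOpen U) (F : Frame U a b) : SmM U F.fB :=
  (smM_fA hU F).DM hU

theorem contDiffOn_csF (hU : IsOpen U) (F : Frame U a b) : ContDiffOn ℝ ∞ F.csF U := by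
  have hA := smM_fA hU F
  have hB := smM_fB hU F
  have h1 : ContDiffOn ℝ ∞ (fun x => trace (F.fA x * F.fB x)) U := contDiffOn_trace (hA.mul hB)
  have h2 : ContDiffOn ℝ ∞ (fun x => trace (F.fA x * F.fA x * F.fA x)) U :=
    contDiffOn_trace ((hA.mul hA).mul hA)
  exact h1.add (h2.const_smul (2 / 3 : ℂ))

private theorem deg_trace' {n : ℕ} {X : Matrix b b (FA m)} (h : ∀ i j, (X i j).IsDeg n) :
    (trace X).IsDeg n := isDeg_sum _ fun i _ => h i i

theorem deg_csF (F : Frame U a b) (x : En m) : (F.csF x).IsDeg 3 := by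
  refine isDeg_add (deg_trace' fun i j => ?_) (isDeg_smul (deg_trace' fun i j => ?_) _)
  · exact deg_mulM (i := 1) (j := 2) (F.deg_fA x) (F.deg_fB x) i j
  · exact deg_mulM (i := 2) (j := 1) (fun p q => deg_mulM (i := 1) (j := 1) (F.deg_fA x)
      (F.deg_fA x) p q) (F.deg_fA x) i j

theorem dF_csF (hU : IsOpen U) (F : Frame U a b) {x : En m} (hx : x ∈ U) :
    dF F.csF x = trace ((F.fB x + F.fA x * F.fA x) * (F.fB x + F.fA x * F.fA x)) := by
  have hA := smM_fA hU F
  have hB := smM_fB hU F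
  have oA : (faG m).MOd (F.fA x) := od_of_deg odd_one (F.deg_fA x)
  have eB : (faG m).MEv (F.fB x) := ev_of_deg even_two (F.deg_fB x)
  have hDA : DM F.fA x = F.fB x := rfl
  have hDB : DM F.fB x = 0 :=
    DM_DM fun i j => ((hA i j).contDiffAt (hU.mem_nhds hx)).of_le (WithTop.coe_le_coe.2 le_top)
  have e1 : DM (fun y => F.fA y * F.fB y) x = F.fB x * F.fB x := by
    rw [DM_mul_od (hA.diff hU hx) (hB.diff hU hx) oA, hDA, hDB, Matrix.mul_zero, sub_zero]
  have e2 : DM (fun y => F.fA y * F.fA y) x = F.fB x * F.fA x - F.fA x * F.fB x := by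
    rw [DM_mul_od (hA.diff hU hx) (hA.diff hU hx) oA, hDA]
  have e3 : DM (fun y => F.fA y * F.fA y * F.fA y) x =
      (F.fB x * F.fA x - F.fA x * F.fB x) * F.fA x + F.fA x * F.fA x * F.fB x := by
    rw [DM_mul_ev ((hA.mul hA).diff hU hx) (hA.diff hU hx) (oA.mul oA), e2, hDA]
  have d1 : DifferentiableAt ℝ (fun y => trace (F.fA y * F.fB y)) x :=
    ((contDiffOn_trace (hA.mul hB)).contDiffAt (hU.mem_nhds hx)).differentiableAt (by simp)
  have d2 : DifferentiableAt ℝ (fun y => trace (F.fA y * F.fA y * F.fA y)) x :=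
    ((contDiffOn_trace ((hA.mul hA).mul hA)).contDiffAt (hU.mem_nhds hx)).differentiableAt (by simp)
  have d3 : DifferentiableAt ℝ (fun y => (2 / 3 : ℂ) • trace (F.fA y * F.fA y * F.fA y)) x :=
    d2.const_smul (2 / 3 : ℂ)
  have hc : dF F.csF x = dF (fun y => trace (F.fA y * F.fB y) +
      (2 / 3 : ℂ) • trace (F.fA y * F.fA y * F.fA y)) x := rfl
  rw [hc, dF_add d1 d3, dF_smul _ d2, dF_trace ((hA.mul hB).diff hU hx),
    dF_trace (((hA.mul hA).mul hA).diff hU hx), e1, e3, ← GrC.dcs_eq oA eB, GrC.dcs,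
    Matrix.sub_mul, trace_add, trace_sub]

end Frame

end Pool.Agent.EXO.CH
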