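import Mathlib
import Pool.Agent.EXO.ChCsA

/-!
# EXO / ChCsB: `d cs = tr (Q (dQ)⁴)` for the projection `Q = J L`

PROOF.  Write `J = rM (F.J x)`, `L = rM (F.L x)`, `dJ = DM (fun y => rM (F.J y)) x`, `dL = DM (fun y => rM (F.L y)) x`,
`Q = J L`, `dQ = DM (fun y => rM (F.J y * F.L y)) x`.  All functions are smooth near `x`, the entries of `J`, `L`, `Q`
are even, those of `dJ`, `dL`, `dQ` odd (`ev_rM`, `od_DM_rM`).
(1) `L J = 1` near `x` (`rM_mul`, `rM_one`), so `dL J + L dJ = 0` (`DM_mul_ev`, `DM_congr`, `DM_const`).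
(2) `dQ = dJ L + J dL` (`DM_mul_ev`, `rM_mul`, `DM_congr`).
(3) `fB x = DM (rM L * DM (rM J)) = dL dJ` (`DM_mul_ev`, `DM_DM`), `A = L dJ`.  So
    `F := fB + A A = dL dJ + L dJ L dJ = dL dJ - dL J L dJ = dL (1 - Q) dJ`.
(4) `Q dQ = J L dJ L + J dL` (`L J = 1`), `Q dQ Q = J L dJ L + J dL J L = J (L dJ + dL J) L = 0`, so
    `Q dQ = Q dQ (1 - Q) = J dL (1 - Q)` (because `L (1 - Q) = L - L J L = 0`) and, in the same way,
    `dQ Q = (1 - Q) dQ Q = (1 - Q) dJ L`.  From `dQ = dQ Q + Q dQ` (which follows from `Q Q = Q`; or directly from (1),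
    (2)): `Q dQ dQ = Q dQ (1 - Q) dQ = Q dQ (1 - Q) dQ Q` (as `(1 - Q) dQ (1 - Q) = 0`)
    `= J dL (1 - Q) dJ L = J F L`, and `Q dQ dQ Q = J F L` too, so `Q` commutes with `dQ dQ`:
    `dQ dQ Q = Q dQ dQ` (both are `Q dQ dQ Q`; for the left side use `(1 - Q) dQ dQ Q = 0`).
(5) `Q dQ⁴ = Q dQ² dQ² = Q Q dQ² dQ² = Q dQ² Q dQ² = J F L J F L = J F F L`, and
    `tr (J (F F L)) = tr (F F L J) = tr (F F)` (`GrC.tr_ev` with `J` even).  With `dF_csF` this is the claim.
-/

set_option autoImplicit false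
set_option maxSynthPendingDepth 3
set_option linter.unusedSectionVars false

open Set MeasureTheory Matrix
open scoped ContDiff

namespace Pool.Agent.EXO.CH

private theorem rMm {m : ℕ} {a b c : Type} [Fintype b] (X : Matrix a b ℝ) (Y : Matrix b c ℝ) :
    rM (m := m) (X * Y) = rM (m := m) X * rM (m := m) Y := rM_mul X Y

/-- The algebraic part. -/
theorem proj_pow_four {m : ℕ} {a b : Type} [Fintype a] [Fintype b] [DecidableEq a] [DecidableEq b]
    {J : Matrix a b (FA m)} {L : Matrix b a (FA m)} {dJ : Matrix a b (FA m)}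
    {dL : Matrix b a (FA m)} (hJ : (faG m).MEv J) (hLJ : L * J = 1) (h : dL * J + L * dJ = 0) :
    trace (J * L * (dJ * L + J * dL) ^ 4) =
      trace ((dL * dJ + L * dJ * (L * dJ)) * (dL * dJ + L * dJ * (L * dJ))) := by
  have h' : dL * J = -(L * dJ) := eq_neg_of_add_eq_zero_left h
  have q1 : ∀ X : Matrix b a (FA m), L * (J * X) = X := fun X => by
    rw [← Matrix.mul_assoc, hLJ, Matrix.one_mul]
  have q2 : ∀ X : Matrix b a (FA m), dL * (J * X) = -(L * (dJ * X)) := fun X => by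
    rw [← Matrix.mul_assoc, h', Matrix.neg_mul, Matrix.mul_assoc]
  obtain ⟨D, hD⟩ : ∃ D, D = dJ * L + J * dL := ⟨_, rfl⟩
  obtain ⟨F, hF⟩ : ∃ F, F = dL * dJ + L * dJ * (L * dJ) := ⟨_, rfl⟩
  have k1 : J * L * (D * D) = J * (F * L) := by
    rw [hD, hF]
    simp only [Matrix.mul_add, Matrix.add_mul, Matrix.mul_assoc, q1, q2, Matrix.mul_neg]
    abel
  have k2 : J * (F * L) * (D * D) = J * (F * L) * (J * L * (D * D)) := by
    have e : J * (F * L) * (J * L * (D * D)) = J * (F * (L * (J * (L * (D * D))))) := by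
      simp only [Matrix.mul_assoc]
    rw [e, q1]
    simp only [Matrix.mul_assoc]
  have k3 : J * L * D ^ 4 = J * (F * F * L) := by
    have e : D ^ 4 = D * D * (D * D) := by
      rw [← pow_two D, ← pow_two, ← pow_mul]
    rw [e, ← Matrix.mul_assoc (J * L), k1, k2, k1]
    have e2 : J * (F * L) * (J * (F * L)) = J * (F * (L * (J * (F * L)))) := by
      simp only [Matrix.mul_assoc]
    rw [e2, q1]
    simp only [Matrix.mul_assoc]
  rw [← hD, ← hF, k3, GrC.tr_ev hJ, Matrix.mul_assoc, hLJ, Matrix.mul_one]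

theorem Frame.cs_exact {m : ℕ} {U : Set (En m)} {a b : Type} [Fintype a] [Fintype b]
    [DecidableEq a] [DecidableEq b] (hU : IsOpen U) (F : Frame U a b) {x : En m} (hx : x ∈ U) :
    dF F.csF x =
      trace (rM (F.J x * F.L x) * DM (fun y => rM (F.J y * F.L y)) x ^ 4) := by
  have hJs : SmM U fun y => (rM (F.J y) : Matrix a b (FA m)) := SmM.rM F.smoothJ
  have hLs : SmM U fun y => (rM (F.L y) : Matrix b a (FA m)) := SmM.rM F.smoothL
  have hev : ∀ᶠ y in nhds x, y ∈ U := hU.mem_nhds hx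
  have hDD : DM (DM fun y => (rM (F.J y) : Matrix a b (FA m))) x = 0 :=
    DM_DM fun i j => ((hJs i j).contDiffAt (hU.mem_nhds hx)).of_le (WithTop.coe_le_coe.2 le_top)
  have hB : F.fB x = DM (fun y => rM (m := m) (F.L y)) x * DM (fun y => rM (m := m) (F.J y)) x := by
    have e : F.fB x = DM (fun y => rM (m := m) (F.L y) *
      DM (fun z => rM (m := m) (F.J z)) y) x := rfl
    rw [e, DM_mul_ev (hLs.diff hU hx) ((hJs.DM hU).diff hU hx) (ev_rM _), hDD, Matrix.mul_zero,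
      add_zero]
  have hrel : DM (fun y => rM (m := m) (F.L y)) x * rM (m := m) (F.J x) +
      rM (m := m) (F.L x) * DM (fun y => rM (m := m) (F.J y)) x = 0 := by
    rw [← DM_mul_ev (hLs.diff hU hx) (hJs.diff hU hx) (ev_rM _)]
    have e : ∀ᶠ y in nhds x, rM (m := m) (F.L y) * rM (m := m) (F.J y) = 1 :=
      hev.mono fun y hy => by rw [← rMm, F.LJ y hy, rM_one]
    rw [DM_congr e, DM_const]
  have hQ : DM (fun y => (rM (F.J y * F.L y) : Matrix a a (FA m))) x =
      DM (fun y => rM (m := m) (F.J y)) x * rM (m := m) (F.L x) +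
        rM (m := m) (F.J x) * DM (fun y => rM (m := m) (F.L y)) x := by
    rw [← DM_mul_ev (hJs.diff hU hx) (hLs.diff hU hx) (ev_rM _)]
    exact DM_congr (Filter.Eventually.of_forall fun y => rMm _ _)
  rw [F.dF_csF hU hx, hQ, rMm, proj_pow_four (ev_rM _) (by rw [← rMm, F.LJ x hx, rM_one]) hrel,
    hB]
  rfl

end Pool.Agent.EXO.CH
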