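import Mathlib
import Pool.Agent.EXO.ChSw

/-!
# EXO / ChFrA: basic facts on pieces

PROOFS.
* `goodS` etc.: continuity of `p1`, `p2` (`contDiff_p1.continuous`); `g1`, `g2`: the denominator is `≥ 1`; `gK` at points with
  `‖p1 z‖² + ‖p2 z‖² ≠ 0`: quotient of continuous functions; at the other points both `p1 z = 0 = p2 z`, `gK z = 0` and
  `0 ≤ gK z' ≤ ‖p1 z'‖ ^ 2` everywhere (squeeze, `tendsto_order` / `squeeze_zero`).  `inv`: unfold.
* `isOpen_dom`: `{z | g z < c}` is open and `p3 ⁻¹' C.O` is open.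
* `subN`: `n ∈ N`: `C.io n 0 ∈ C.O` (`io_mem`) and `C.io n 0 = n` (`io_zero`).
* `rho_mem`: `io_rho`.  `rho_of_mem`: `io_mem n 0` and `io_zero` give `rho n = n`.
* `R_mem`, `R_R`, `R_of_mem`: from these (`C.R z = j15 (p1 z) (p2 z) (C.rho (p3 z))`).
* `contDiffOn_R`: `contDiffOn_j15`, `C.smooth_rho`.
* `Ψ_R`: `X.maps z hz : X.Ψ z ∈ V ∩ X.O`, `X.right (X.Ψ z)`, `X.left z hz`.
* `Φ_Ψ`: `X.left` and `R_of_mem`.
-/

set_option autoImplicit false
set_option maxSynthPendingDepth 3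
set_option linter.unusedSectionVars false

open Set MeasureTheory Matrix
open scoped ContDiff

namespace Pool.Agent.EXO.CH

theorem goodS : GoodG gS where
  cont := by
    have h1 := contDiff_p1.continuous
    have h2 := contDiff_p2.continuous
    unfold gS
    fun_prop
  inv := fun z z' h1 h2 => by simp only [gS, h1, h2]

theorem goodK : GoodG gK where
  cont := by
    have h1 := contDiff_p1.continuous
    have h2 := contDiff_p2.continuous
    rw [continuous_iff_continuousAt]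
    intro z
    by_cases hz : ‖p1 z‖ ^ 2 + ‖p2 z‖ ^ 2 = 0
    · have hz1 : ‖p1 z‖ ^ 2 = 0 := by nlinarith [sq_nonneg ‖p1 z‖, sq_nonneg ‖p2 z‖]
      have h0 : gK z = 0 := by simp [gK, hz1]
      have hb : ∀ w, ‖gK w‖ ≤ ‖p1 w‖ ^ 2 := by
        intro w
        have hnn : 0 ≤ gK w := by unfold gK; positivity
        rw [Real.norm_of_nonneg hnn]
        unfold gK
        by_cases hw : ‖p1 w‖ ^ 2 + ‖p2 w‖ ^ 2 = 0
        · rw [hw, div_zero]; positivity
        · have hpos : 0 < ‖p1 w‖ ^ 2 + ‖p2 w‖ ^ 2 :=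
            lt_of_le_of_ne (by positivity) (Ne.symm hw)
          rw [div_le_iff₀ hpos]
          nlinarith [sq_nonneg (‖p1 w‖ ^ 2)]
      have hlim : Filter.Tendsto (fun w => ‖p1 w‖ ^ 2) (nhds z) (nhds 0) := by
        have : Continuous fun w => ‖p1 w‖ ^ 2 := by fun_prop
        have h3 := this.tendsto z
        rwa [hz1] at h3
      have h4 := squeeze_zero_norm hb hlim
      rw [ContinuousAt, h0]
      exact h4
    · have h3 : Continuous fun w => ‖p1 w‖ ^ 2 * ‖p2 w‖ ^ 2 := by fun_prop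
      have h4 : Continuous fun w => ‖p1 w‖ ^ 2 + ‖p2 w‖ ^ 2 := by fun_prop
      exact h3.continuousAt.div h4.continuousAt hz
  inv := fun z z' h1 h2 => by simp only [gK, h1, h2]

theorem good1 : GoodG g1 where
  cont := by
    have h1 := contDiff_p1.continuous
    have h2 := contDiff_p2.continuous
    unfold g1
    refine Continuous.div (by fun_prop) (by fun_prop) fun z => ?_
    positivity
  inv := fun z z' h1 h2 => by simp only [g1, h1, h2]

theorem good2 : GoodG g2 where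
  cont := by
    have h1 := contDiff_p1.continuous
    have h2 := contDiff_p2.continuous
    unfold g2
    refine Continuous.div (by fun_prop) (by fun_prop) fun z => ?_
    positivity
  inv := fun z z' h1 h2 => by simp only [g2, h1, h2]

section

variable {N : Set (En 7)} (C : Collar N)

theorem Collar.subN {n : En 7} (hn : n ∈ N) : n ∈ C.O := by
  have := (C.io_mem n hn 0 (by norm_num)).1
  rwa [C.io_zero n hn] at this

theorem Collar.rho_mem {w : En 7} (hw : w ∈ C.O) : C.rho w ∈ N := (C.io_rho w hw).1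

theorem Collar.rho_of_mem {n : En 7} (hn : n ∈ N) : C.rho n = n := by
  have := (C.io_mem n hn 0 (by norm_num)).2.1
  rwa [C.io_zero n hn] at this

@[simp] theorem Collar.p1_R (z : En 15) : p1 (C.R z) = p1 z := by
  simp [Collar.R]

@[simp] theorem Collar.p2_R (z : En 15) : p2 (C.R z) = p2 z := by
  simp [Collar.R]

@[simp] theorem Collar.p3_R (z : En 15) : p3 (C.R z) = C.rho (p3 z) := by
  simp [Collar.R]

theorem Collar.R_R {z : En 15} (hz : p3 z ∈ C.O) : C.R (C.R z) = C.R z := by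
  have h : C.rho (C.rho (p3 z)) = C.rho (p3 z) := Collar.rho_of_mem C (Collar.rho_mem C hz)
  have h1 : C.R (C.R z) = j15 (p1 (C.R z)) (p2 (C.R z)) (C.rho (p3 (C.R z))) := rfl
  rw [h1, Collar.p1_R, Collar.p2_R, Collar.p3_R, h]
  rfl

theorem Collar.R_of_mem {z : En 15} (hz : p3 z ∈ N) : C.R z = z := by
  have h1 : C.R z = j15 (p1 z) (p2 z) (C.rho (p3 z)) := rfl
  rw [h1, Collar.rho_of_mem C hz, j15_p]

theorem isOpen_dom {g : En 15 → ℝ} (hg : GoodG g) (c : ℝ) : IsOpen (dom g C.O c) :=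
  (isOpen_lt hg.cont continuous_const).inter (C.openO.preimage contDiff_p3.continuous)

theorem dom_sub (g : En 15 → ℝ) (c : ℝ) : dom g N c ⊆ dom g C.O c :=
  fun _ hz => ⟨hz.1, Collar.subN C hz.2⟩

theorem GoodG.R {g : En 15 → ℝ} (hg : GoodG g) (z : En 15) : g (C.R z) = g z :=
  hg.inv _ _ (Collar.p1_R C z) (Collar.p2_R C z)

theorem R_mem {g : En 15 → ℝ} (hg : GoodG g) {c : ℝ} {z : En 15} (hz : z ∈ dom g C.O c) :
    C.R z ∈ dom g N c := by
  refine ⟨?_, ?_⟩
  · rw [GoodG.R C hg]; exact hz.1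
  · rw [Collar.p3_R]; exact Collar.rho_mem C hz.2

theorem contDiffOn_R (g : En 15 → ℝ) (c : ℝ) : ContDiffOn ℝ ∞ C.R (dom g C.O c) :=
  contDiffOn_j15 contDiff_p1.contDiffOn contDiff_p2.contDiffOn
    (C.smooth_rho.comp contDiff_p3.contDiffOn fun _ hz => hz.2)

end

namespace VPiece

variable {N : Set (En 7)} {C : Collar N} {M : ℕ} {V : Set (En M)} {g : En 15 → ℝ}

theorem Ψ_mem (X : VPiece C V g) {z : En 15} (hz : z ∈ dom g C.O 20000) : X.Ψ z ∈ V :=
  (X.maps z hz).1

theorem Ψ_R (X : VPiece C V g) {z : En 15} (hz : z ∈ dom g C.O 20000) :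
    X.Ψ (C.R z) = X.Ψ z := by
  have h1 := X.right (X.Ψ z) (X.maps z hz)
  rw [X.left z hz] at h1
  exact h1

theorem Φ_Ψ (X : VPiece C V g) {z : En 15} (hz : z ∈ dom g N 20000) : X.Φ (X.Ψ z) = z := by
  rw [X.left z (dom_sub C g _ hz)]
  exact Collar.R_of_mem C hz.2

/-- The smoothness at a point. -/
theorem diff_Ψ (X : VPiece C V g) (hg : GoodG g) {z : En 15} (hz : z ∈ dom g C.O 20000) :
    ContDiffAt ℝ ∞ X.Ψ z :=
  X.smoothΨ.contDiffAt ((isOpen_dom C hg _).mem_nhds hz)

end VPiece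

end Pool.Agent.EXO.CH
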