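import Mathlib
import Pool.Agent.EXO.ChDef

/-!
# EXO / ChInv: smoothness of the inverse of a matrix function; symmetric projections

PROOFS.
* `SmM.inv`: `G⁻¹ = (det G)⁻¹ • adjugate G` (`Matrix.inv_def`, `Ring.inverse_eq_inv'`); the entries of the adjugate are
  determinants of matrices with smooth entries (`Matrix.adjugate_apply`, `updateRow`), and a determinant is a
  polynomial in the entries (`Matrix.det_apply`, `contDiffOn_prod`, sums).
* `det_gram_ne`: let `B * J = 1`, `G = Jᵀ J`.  If `G.det = 0` there is `v ≠ 0` with `G *ᵥ v = 0`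
  (`Matrix.exists_mulVec_eq_zero_iff`); then `(J v) ⬝ (J v) = v ⬝ (G v) = 0`, `J v = 0`, `v = B J v = 0`.
* `proj_unique`: `E = Q' - Q` satisfies `Eᵀ = E`, `E * E = Q' - Q' Q - Q Q' + Q = Q' - Q = E` (from `Q' Q = Q` and its
  transpose `Q Q' = Q`), so `trace (Eᵀ * E) = trace E = 0`, hence `E = 0` (the trace of `Eᵀ E` is the sum of the squares
  of the entries; e.g. `Matrix.trace_conjTranspose_mul_self_eq_zero_iff` with `conjTranspose = transpose` over `ℝ`).
-/

set_option autoImplicit false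
set_option maxSynthPendingDepth 3
set_option linter.unusedSectionVars false

open Set MeasureTheory Matrix
open scoped ContDiff

namespace Pool.Agent.EXO.CH

private theorem chInv_det {m : ℕ} {b : Type} [Fintype b] [DecidableEq b] {U : Set (En m)}
    {G : En m → Matrix b b ℝ} (hG : ∀ i j, ContDiffOn ℝ ∞ (fun x => G x i j) U) :
    ContDiffOn ℝ ∞ (fun x => (G x).det) U := by
  simp only [Matrix.det_apply]
  refine ContDiffOn.sum fun σ _ => ?_
  refine ContDiffOn.const_smul _ ?_
  exact contDiffOn_prod fun i _ => hG _ _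

theorem SmM.inv {m : ℕ} {b : Type} [Fintype b] [DecidableEq b] {U : Set (En m)}
    {G : En m → Matrix b b ℝ} (hG : SmM U G) (hd : ∀ x ∈ U, (G x).det ≠ 0) :
    SmM U (fun x => (G x)⁻¹) := by
  intro i j
  have h1 : (fun x => (G x)⁻¹ i j) = fun x => ((G x).det)⁻¹ * (G x).adjugate i j := by
    funext x
    rw [Matrix.inv_def, Ring.inverse_eq_inv', Matrix.smul_apply, smul_eq_mul]
  rw [h1]
  refine ((chInv_det hG).inv hd).mul ?_
  simp only [Matrix.adjugate_apply]
  refine chInv_det fun k l => ?_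
  by_cases h : k = j
  · subst h
    simp only [Matrix.updateRow_self]
    exact contDiffOn_const
  · simp only [Matrix.updateRow_ne h]
    exact hG k l

theorem det_gram_ne {a b : Type} [Fintype a] [Fintype b] [DecidableEq b] {J : Matrix a b ℝ}
    {B : Matrix b a ℝ} (h : B * J = 1) : (Jᵀ * J).det ≠ 0 := by
  intro hdet
  obtain ⟨v, hv, hv2⟩ := Matrix.exists_mulVec_eq_zero_iff.2 hdet
  have h1 : (J *ᵥ v) ⬝ᵥ (J *ᵥ v) = 0 := by
    have h2 : v ⬝ᵥ ((Jᵀ * J) *ᵥ v) = 0 := by rw [hv2, dotProduct_zero]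
    rw [← Matrix.mulVec_mulVec, Matrix.dotProduct_mulVec, Matrix.vecMul_transpose] at h2
    exact h2
  have h3 : J *ᵥ v = 0 := dotProduct_self_eq_zero.1 h1
  have h4 : v = 0 := by
    have h5 : (B * J) *ᵥ v = 0 := by rw [← Matrix.mulVec_mulVec, h3, Matrix.mulVec_zero]
    rwa [h, Matrix.one_mulVec] at h5
  exact hv h4

theorem proj_unique {a : Type} [Fintype a] {Q Q' : Matrix a a ℝ} (h1 : Q * Q = Q)
    (h2 : Qᵀ = Q) (h3 : Q' * Q' = Q') (h4 : Q'ᵀ = Q') (h5 : Q' * Q = Q)
    (ht : trace Q' = trace Q) : Q' = Q := by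
  have h6 : Q * Q' = Q := by
    have := congrArg Matrix.transpose h5
    rwa [Matrix.transpose_mul, h2, h4] at this
  set E : Matrix a a ℝ := Q' - Q with hE
  have hET : Eᵀ = E := by rw [hE, Matrix.transpose_sub, h4, h2]
  have hEE : E * E = E := by
    rw [hE, Matrix.mul_sub, Matrix.sub_mul, Matrix.sub_mul, h3, h6, h5, h1]
    abel
  have htr : trace E = 0 := by rw [hE, Matrix.trace_sub, ht, sub_self]
  have h7 : trace (Eᴴ * E) = 0 := by
    rw [Matrix.conjTranspose_eq_transpose_of_trivial, hET, hEE, htr]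
  have h8 : E = 0 := Matrix.trace_conjTranspose_mul_self_eq_zero_iff.1 h7
  rw [hE] at h8
  exact sub_eq_zero.1 h8

end Pool.Agent.EXO.CH
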