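import Mathlib

/-!
# EXO / SuExt: local to global for smooth functions, Lipschitz bounds on compact sets
-/

set_option autoImplicit false

namespace Pool.Agent.EXO

open scoped ContDiff Topology Manifold
open Set Filter

variable {E F : Type*} [NormedAddCommGroup E] [NormedSpace ℝ E] [FiniteDimensional ℝ E]
  [NormedAddCommGroup F] [NormedSpace ℝ F]

theorem exists_smooth_of_local (t : E → Set F) (ht : ∀ x, Convex ℝ (t x))
    (Hloc : ∀ x : E, ∃ U ∈ 𝓝 x, ∃ g : E → F, ContDiffOn ℝ ∞ g U ∧ ∀ y ∈ U, g y ∈ t y) :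
    ∃ g : E → F, ContDiff ℝ ∞ g ∧ ∀ x, g x ∈ t x := by
  obtain ⟨g, hg⟩ := exists_contMDiffMap_forall_mem_convex_of_local (n := ⊤) 𝓘(ℝ, E) (t := t) ht
    (fun x => by
      obtain ⟨U, hU, g, h1, h2⟩ := Hloc x
      exact ⟨U, hU, g, h1.contMDiffOn, h2⟩)
  exact ⟨g, contMDiff_iff_contDiff.1 g.contMDiff, hg⟩

theorem exists_smooth_of_local_closed {C : Set E} (hC : IsClosed C) (t : E → Set F)
    (ht : ∀ x, Convex ℝ (t x))
    (Hloc : ∀ x ∈ C, ∃ U ∈ 𝓝 x, ∃ g : E → F, ContDiffOn ℝ ∞ g U ∧ ∀ y ∈ U ∩ C, g y ∈ t y) :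
    ∃ g : E → F, ContDiff ℝ ∞ g ∧ ∀ x ∈ C, g x ∈ t x := by
  obtain ⟨g, h1, h2⟩ := exists_smooth_of_local (fun x => {c | x ∈ C → c ∈ t x})
    (fun x => by
      by_cases hx : x ∈ C
      · simpa [hx] using ht x
      · simpa [hx] using convex_univ)
    (fun x => by
      by_cases hx : x ∈ C
      · obtain ⟨U, hU, g, h1, h2⟩ := Hloc x hx
        exact ⟨U, hU, g, h1, fun y hy hyC => h2 y ⟨hy, hyC⟩⟩
      · exact ⟨Cᶜ, hC.isOpen_compl.mem_nhds hx, fun _ => 0, contDiffOn_const,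
          fun y hy hyC => absurd hyC hy⟩)
  exact ⟨g, h1, h2⟩

/-- extension of a function on a closed set which is locally the restriction of smooth
functions. -/
theorem exists_smooth_extension {C : Set E} (hC : IsClosed C) (f : E → F)
    (Hloc : ∀ x ∈ C, ∃ U ∈ 𝓝 x, ∃ g : E → F, ContDiffOn ℝ ∞ g U ∧ ∀ y ∈ U ∩ C, g y = f y) :
    ∃ g : E → F, ContDiff ℝ ∞ g ∧ ∀ x ∈ C, g x = f x := by
  obtain ⟨g, h1, h2⟩ := exists_smooth_of_local_closed hC (fun x => {f x})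
    (fun x => convex_singleton _) Hloc
  exact ⟨g, h1, h2⟩

/-- a `C¹` function is Lipschitz on compact subsets of its (open) domain. -/
theorem exists_lipschitz_of_compact {E : Type*} [NormedAddCommGroup E] [NormedSpace ℝ E]
    {U K : Set E} {f : E → F} (hU : IsOpen U) (hf : ContDiffOn ℝ 1 f U)
    (hK : IsCompact K) (hKU : K ⊆ U) :
    ∃ L : ℝ, 0 < L ∧ ∀ x ∈ K, ∀ y ∈ K, ‖f x - f y‖ ≤ L * ‖x - y‖ := by
  have h1 : LocallyLipschitzOn K f := by
    intro x hx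
    obtain ⟨L, t, ht, hL⟩ := (hf.contDiffAt (hU.mem_nhds (hKU hx))).exists_lipschitzOnWith
    exact ⟨L, t, mem_nhdsWithin_of_mem_nhds ht, hL⟩
  obtain ⟨L, hL⟩ := h1.exists_lipschitzOnWith_of_compact hK
  refine ⟨L + 1, by positivity, fun x hx y hy => ?_⟩
  have h2 := hL.dist_le_mul x hx y hy
  rw [dist_eq_norm, dist_eq_norm] at h2
  nlinarith [norm_nonneg (x - y)]

end Pool.Agent.EXO
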