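import Mathlib

/-!
# EXO / SuLin: injective linear maps between Euclidean spaces

`prj A` is the orthogonal projection on the range of an injective linear map, `vol A` its volume
factor (square root of the Gram determinant).
-/

set_option autoImplicit false

namespace Pool.Agent.EXO

open scoped ContDiff InnerProductSpace
open ContinuousLinearMap

variable {n m k : ℕ}


/-- `A† A`. -/
noncomputable def gramL (A : EuclideanSpace ℝ (Fin n) →L[ℝ] EuclideanSpace ℝ (Fin m)) :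
    EuclideanSpace ℝ (Fin n) →L[ℝ] EuclideanSpace ℝ (Fin n) :=
  (adjoint A) ∘L A

/-- orthogonal projection on the range of `A` (for injective `A`). -/
noncomputable def prj (A : EuclideanSpace ℝ (Fin n) →L[ℝ] EuclideanSpace ℝ (Fin m)) :
    EuclideanSpace ℝ (Fin m) →L[ℝ] EuclideanSpace ℝ (Fin m) :=
  A ∘L (Ring.inverse (gramL A)) ∘L (adjoint A)

/-- the Gram matrix of `A`. -/
noncomputable def gramM (A : EuclideanSpace ℝ (Fin n) →L[ℝ] EuclideanSpace ℝ (Fin m)) :
    Matrix (Fin n) (Fin n) ℝ :=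
  Matrix.of fun i j => ⟪A (EuclideanSpace.single i 1), A (EuclideanSpace.single j 1)⟫_ℝ

/-- volume factor of `A`. -/
noncomputable def volF (A : EuclideanSpace ℝ (Fin n) →L[ℝ] EuclideanSpace ℝ (Fin m)) : ℝ :=
  Real.sqrt (gramM A).det

theorem gramL_apply_inner (A : EuclideanSpace ℝ (Fin n) →L[ℝ] EuclideanSpace ℝ (Fin m))
    (x y : EuclideanSpace ℝ (Fin n)) : ⟪gramL A x, y⟫_ℝ = ⟪A x, A y⟫_ℝ := by
  simp [gramL, adjoint_inner_left]

theorem gramL_injective {A : EuclideanSpace ℝ (Fin n) →L[ℝ] EuclideanSpace ℝ (Fin m)}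
    (hA : Function.Injective A) : Function.Injective (gramL A) := by
  refine (injective_iff_map_eq_zero _).2 fun x hx => ?_
  have h : ⟪A x, A x⟫_ℝ = 0 := by rw [← gramL_apply_inner, hx, inner_zero_left]
  exact (injective_iff_map_eq_zero _).1 hA x (inner_self_eq_zero.1 h)

theorem isUnit_gramL {A : EuclideanSpace ℝ (Fin n) →L[ℝ] EuclideanSpace ℝ (Fin m)}
    (hA : Function.Injective A) : IsUnit (gramL A) := by
  have h := gramL_injective hA
  have hs : Function.Surjective (gramL A) :=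
    (LinearMap.injective_iff_surjective (f := (gramL A).toLinearMap)).1 h
  let e := LinearEquiv.ofBijective (gramL A).toLinearMap ⟨h, hs⟩
  let e' := e.toContinuousLinearEquiv
  refine ⟨⟨gramL A, e'.symm, ?_, ?_⟩, rfl⟩
  · ext x : 1
    exact e.apply_symm_apply x
  · ext x : 1
    exact e.symm_apply_apply x

theorem prj_comp {A : EuclideanSpace ℝ (Fin n) →L[ℝ] EuclideanSpace ℝ (Fin m)}
    (hA : Function.Injective A) : (prj A) ∘L A = A := by
  have h : Ring.inverse (gramL A) ∘L (gramL A) = ContinuousLinearMap.id ℝ _ :=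
    Ring.inverse_mul_cancel _ (isUnit_gramL hA)
  calc (prj A) ∘L A = A ∘L (Ring.inverse (gramL A) ∘L (gramL A)) := rfl
    _ = A := by rw [h]; rfl

theorem prj_apply_apply {A : EuclideanSpace ℝ (Fin n) →L[ℝ] EuclideanSpace ℝ (Fin m)}
    (hA : Function.Injective A) (x : EuclideanSpace ℝ (Fin n)) : prj A (A x) = A x :=
  congrArg (fun B : EuclideanSpace ℝ (Fin n) →L[ℝ] EuclideanSpace ℝ (Fin m) => B x) (prj_comp hA)

theorem prj_mem_range (A : EuclideanSpace ℝ (Fin n) →L[ℝ] EuclideanSpace ℝ (Fin m))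
    (v : EuclideanSpace ℝ (Fin m)) : ∃ x, A x = prj A v := ⟨_, rfl⟩

theorem prj_prj {A : EuclideanSpace ℝ (Fin n) →L[ℝ] EuclideanSpace ℝ (Fin m)}
    (hA : Function.Injective A) (v : EuclideanSpace ℝ (Fin m)) : prj A (prj A v) = prj A v :=
  prj_apply_apply hA _

theorem adjoint_gramL (A : EuclideanSpace ℝ (Fin n) →L[ℝ] EuclideanSpace ℝ (Fin m)) :
    adjoint (gramL A) = gramL A := by
  simp [gramL, adjoint_comp]

theorem adjoint_prj {A : EuclideanSpace ℝ (Fin n) →L[ℝ] EuclideanSpace ℝ (Fin m)}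
    (hA : Function.Injective A) : adjoint (prj A) = prj A := by
  have hu := isUnit_gramL hA
  have h1 : Ring.inverse (gramL A) * gramL A = 1 := Ring.inverse_mul_cancel _ hu
  have h2 : gramL A * Ring.inverse (gramL A) = 1 := Ring.mul_inverse_cancel _ hu
  have h3 : adjoint (Ring.inverse (gramL A)) * gramL A = 1 := by
    have h4 := congrArg adjoint h2
    have h5 : adjoint (gramL A * Ring.inverse (gramL A)) =
        adjoint (Ring.inverse (gramL A)) * adjoint (gramL A) := adjoint_comp _ _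
    rw [h5, adjoint_gramL] at h4
    rw [h4]
    have : adjoint (ContinuousLinearMap.id ℝ (EuclideanSpace ℝ (Fin n))) =
      ContinuousLinearMap.id ℝ (EuclideanSpace ℝ (Fin n)) := by
        refine ContinuousLinearMap.ext fun x => ext_inner_right ℝ fun y => ?_
        rw [adjoint_inner_left]; rfl
    exact this
  have h6 : adjoint (Ring.inverse (gramL A)) = Ring.inverse (gramL A) := by
    calc adjoint (Ring.inverse (gramL A)) = adjoint (Ring.inverse (gramL A)) *
          (gramL A * Ring.inverse (gramL A)) := by rw [h2, mul_one]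
      _ = (adjoint (Ring.inverse (gramL A)) * gramL A) * Ring.inverse (gramL A) := by
          rw [mul_assoc]
      _ = Ring.inverse (gramL A) := by rw [h3, one_mul]
  simp only [prj, adjoint_comp, adjoint_adjoint, h6]
  rfl

theorem prj_inner {A : EuclideanSpace ℝ (Fin n) →L[ℝ] EuclideanSpace ℝ (Fin m)}
    (hA : Function.Injective A) (v w : EuclideanSpace ℝ (Fin m)) :
    ⟪prj A v, w⟫_ℝ = ⟪v, prj A w⟫_ℝ := by
  rw [← adjoint_inner_left, adjoint_prj hA]

/-- the projection depends only on the range. -/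
theorem prj_eq_of_range {A : EuclideanSpace ℝ (Fin n) →L[ℝ] EuclideanSpace ℝ (Fin m)}
    {B : EuclideanSpace ℝ (Fin k) →L[ℝ] EuclideanSpace ℝ (Fin m)}
    (hA : Function.Injective A) (hB : Function.Injective B)
    (h1 : ∀ x, ∃ y, B y = A x) (h2 : ∀ y, ∃ x, A x = B y) : prj A = prj B := by
  have e1 : ∀ v, prj B (prj A v) = prj A v := by
    intro v
    obtain ⟨x, hx⟩ := prj_mem_range A v
    obtain ⟨y, hy⟩ := h1 x
    rw [← hx, ← hy, prj_apply_apply hB]
  have e2 : ∀ v, prj A (prj B v) = prj B v := by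
    intro v
    obtain ⟨x, hx⟩ := prj_mem_range B v
    obtain ⟨y, hy⟩ := h2 x
    rw [← hx, ← hy, prj_apply_apply hA]
  refine ContinuousLinearMap.ext fun v => ext_inner_right ℝ fun w => ?_
  calc ⟪prj A v, w⟫_ℝ = ⟪prj B (prj A v), w⟫_ℝ := by rw [e1]
    _ = ⟪v, prj A (prj B w)⟫_ℝ := by rw [prj_inner hB, prj_inner hA]
    _ = ⟪prj B v, w⟫_ℝ := by rw [e2, prj_inner hB]

theorem trace_prj {A : EuclideanSpace ℝ (Fin n) →L[ℝ] EuclideanSpace ℝ (Fin m)}
    (hA : Function.Injective A) :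
    LinearMap.trace ℝ _ (prj A : EuclideanSpace ℝ (Fin m) →ₗ[ℝ] EuclideanSpace ℝ (Fin m)) = n := by
  have h : (prj A : EuclideanSpace ℝ (Fin m) →ₗ[ℝ] EuclideanSpace ℝ (Fin m)) =
      (A : EuclideanSpace ℝ (Fin n) →ₗ[ℝ] EuclideanSpace ℝ (Fin m)) ∘ₗ
      ((Ring.inverse (gramL A) ∘L (adjoint A) :
        EuclideanSpace ℝ (Fin m) →L[ℝ] EuclideanSpace ℝ (Fin n)) :
        EuclideanSpace ℝ (Fin m) →ₗ[ℝ] EuclideanSpace ℝ (Fin n)) := rfl
  have h2 : ((Ring.inverse (gramL A) ∘L (adjoint A) :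
        EuclideanSpace ℝ (Fin m) →L[ℝ] EuclideanSpace ℝ (Fin n)) :
        EuclideanSpace ℝ (Fin m) →ₗ[ℝ] EuclideanSpace ℝ (Fin n)) ∘ₗ
        (A : EuclideanSpace ℝ (Fin n) →ₗ[ℝ] EuclideanSpace ℝ (Fin m)) = LinearMap.id := by
    have h3 : Ring.inverse (gramL A) ∘L (gramL A) = ContinuousLinearMap.id ℝ _ :=
      Ring.inverse_mul_cancel _ (isUnit_gramL hA)
    refine LinearMap.ext fun x => ?_
    exact congrArg (fun B : EuclideanSpace ℝ (Fin n) →L[ℝ] EuclideanSpace ℝ (Fin n) => B x) h3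
  rw [h, LinearMap.trace_comp_comm', h2, LinearMap.trace_id]
  simp

theorem contDiffAt_prj {A : EuclideanSpace ℝ (Fin n) →L[ℝ] EuclideanSpace ℝ (Fin m)}
    (hA : Function.Injective A) :
    ContDiffAt ℝ ∞ (prj : (EuclideanSpace ℝ (Fin n) →L[ℝ] EuclideanSpace ℝ (Fin m)) → _) A := by
  have h1 : ContDiff ℝ ∞ (fun B : EuclideanSpace ℝ (Fin n) →L[ℝ] EuclideanSpace ℝ (Fin m) =>
      adjoint B) := by
    exact (adjoint (𝕜 := ℝ) (E := EuclideanSpace ℝ (Fin n))
      (F := EuclideanSpace ℝ (Fin m))).toContinuousLinearEquiv.contDiff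
  have h2 : ContDiff ℝ ∞ (fun B : EuclideanSpace ℝ (Fin n) →L[ℝ] EuclideanSpace ℝ (Fin m) =>
      gramL B) := h1.clm_comp contDiff_id
  obtain ⟨u, hu⟩ := isUnit_gramL hA
  have h3 : ContDiffAt ℝ ∞ (fun B : EuclideanSpace ℝ (Fin n) →L[ℝ] EuclideanSpace ℝ (Fin m) =>
      Ring.inverse (gramL B)) A := by
    have h4 : ContDiffAt ℝ ∞ Ring.inverse (gramL A) := by
      rw [← hu]; exact contDiffAt_ringInverse ℝ u
    exact h4.comp A h2.contDiffAt
  exact contDiffAt_id.clm_comp (h3.clm_comp h1.contDiffAt)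

theorem volF_eq_normDet (A : EuclideanSpace ℝ (Fin n) →L[ℝ] EuclideanSpace ℝ (Fin m)) :
    volF A = (A.toLinearMap).normDet := by
  have h := A.toLinearMap.normDet_sq_eq_det_gram (EuclideanSpace.basisFun (Fin n) ℝ)
  have h2 : (gramM A).det = (A.toLinearMap).normDet ^ 2 := by
    have h3 : gramM A = Matrix.gram ℝ fun x =>
        A.toLinearMap ((EuclideanSpace.basisFun (Fin n) ℝ) x) := by
      ext i j
      simp [gramM, Matrix.gram_apply]
    rw [h3, ← h]
    simp
  rw [volF, h2, Real.sqrt_sq (A.toLinearMap).normDet_nonneg]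

theorem volF_nonneg (A : EuclideanSpace ℝ (Fin n) →L[ℝ] EuclideanSpace ℝ (Fin m)) :
    0 ≤ volF A := Real.sqrt_nonneg _

theorem volF_pos {A : EuclideanSpace ℝ (Fin n) →L[ℝ] EuclideanSpace ℝ (Fin m)}
    (hA : Function.Injective A) : 0 < volF A := by
  refine lt_of_le_of_ne (volF_nonneg A) (Ne.symm ?_)
  rw [volF_eq_normDet]
  intro h
  exact (LinearMap.normDet_eq_zero_iff_ker_ne_bot.1 h) (LinearMap.ker_eq_bot.2 hA)

theorem det_gramM_pos {A : EuclideanSpace ℝ (Fin n) →L[ℝ] EuclideanSpace ℝ (Fin m)}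
    (hA : Function.Injective A) : 0 < (gramM A).det :=
  Real.sqrt_pos.1 (volF_pos hA)

theorem volF_comp (A : EuclideanSpace ℝ (Fin n) →L[ℝ] EuclideanSpace ℝ (Fin m))
    (L : EuclideanSpace ℝ (Fin n) →L[ℝ] EuclideanSpace ℝ (Fin n)) :
    volF (A ∘L L) = |L.det| * volF A := by
  rw [volF_eq_normDet, volF_eq_normDet]
  have h := LinearMap.normDet_comp_of_finrank_eq L.toLinearMap A.toLinearMap rfl
  rw [LinearMap.normDet_eq_abs_det] at h
  rw [mul_comm]
  exact h

theorem contDiff_gramM (i j : Fin n) :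
    ContDiff ℝ ∞ (fun A : EuclideanSpace ℝ (Fin n) →L[ℝ] EuclideanSpace ℝ (Fin m) =>
      gramM A i j) := by
  simp only [gramM, Matrix.of_apply]
  exact (contDiff_id.clm_apply contDiff_const).inner ℝ (contDiff_id.clm_apply contDiff_const)

theorem contDiff_det_gramM :
    ContDiff ℝ ∞ (fun A : EuclideanSpace ℝ (Fin n) →L[ℝ] EuclideanSpace ℝ (Fin m) =>
      (gramM A).det) := by
  simp only [Matrix.det_apply]
  refine ContDiff.sum fun σ _ => ?_
  refine ContDiff.const_smul _ (contDiff_prod fun i _ => contDiff_gramM _ _)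

theorem contDiffAt_volF {A : EuclideanSpace ℝ (Fin n) →L[ℝ] EuclideanSpace ℝ (Fin m)}
    (hA : Function.Injective A) :
    ContDiffAt ℝ ∞ (volF : (EuclideanSpace ℝ (Fin n) →L[ℝ] EuclideanSpace ℝ (Fin m)) → ℝ) A :=
  contDiff_det_gramM.contDiffAt.sqrt (det_gramM_pos hA).ne'

theorem continuous_volF : Continuous
    (volF : (EuclideanSpace ℝ (Fin n) →L[ℝ] EuclideanSpace ℝ (Fin m)) → ℝ) :=
  Real.continuous_sqrt.comp (contDiff_det_gramM (n := n) (m := m)).continuous

end Pool.Agent.EXO
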