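import Mathlib
import Pool.Agent.EXO.Defs
import Pool.Agent.EXO.SuLin
import Pool.Agent.EXO.SuExt

/-!
# EXO / SuCh: charts of closed submanifolds

Elementary facts on the charts of `IsChart`, transition maps, finite atlases with a partition of
unity.
-/

set_option autoImplicit false

open Set Filter Topology MeasureTheory
open scoped ContDiff ENNReal

namespace Pool.Agent.EXO

section chart

variable {n M : ℕ} {V : Set (En M)} {U : Set (En n)} {ψ : En n → En M} {O : Set (En M)}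
  {κ : En M → En n}

theorem IsChart.contDiffAt_ψ (h : IsChart V U ψ O κ) {u : En n} (hu : u ∈ U) :
    ContDiffAt ℝ ∞ ψ u := h.smoothψ.contDiffAt (h.openU.mem_nhds hu)

theorem IsChart.contDiffAt_κ (h : IsChart V U ψ O κ) {y : En M} (hy : y ∈ O) :
    ContDiffAt ℝ ∞ κ y := h.smoothκ.contDiffAt (h.openO.mem_nhds hy)

theorem IsChart.differentiableAt_ψ (h : IsChart V U ψ O κ) {u : En n} (hu : u ∈ U) :
    DifferentiableAt ℝ ψ u := (h.contDiffAt_ψ hu).differentiableAt (by simp)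

theorem IsChart.differentiableAt_κ (h : IsChart V U ψ O κ) {y : En M} (hy : y ∈ O) :
    DifferentiableAt ℝ κ y := (h.contDiffAt_κ hy).differentiableAt (by simp)

theorem IsChart.mem_V (h : IsChart V U ψ O κ) {u : En n} (hu : u ∈ U) : ψ u ∈ V := (h.maps u hu).1

theorem IsChart.mem_O (h : IsChart V U ψ O κ) {u : En n} (hu : u ∈ U) : ψ u ∈ O := (h.maps u hu).2

theorem IsChart.injOn (h : IsChart V U ψ O κ) : InjOn ψ U := by
  intro a ha b hb hab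
  rw [← h.left a ha, ← h.left b hb, hab]

theorem IsChart.fderiv_κ_ψ (h : IsChart V U ψ O κ) {u : En n} (hu : u ∈ U) (v : En n) :
    fderiv ℝ κ (ψ u) (fderiv ℝ ψ u v) = v := by
  have h1 : fderiv ℝ (κ ∘ ψ) u = (fderiv ℝ κ (ψ u)).comp (fderiv ℝ ψ u) :=
    fderiv_comp u (h.differentiableAt_κ (h.mem_O hu)) (h.differentiableAt_ψ hu)
  have h2 : (κ ∘ ψ) =ᶠ[𝓝 u] id := by
    filter_upwards [h.openU.mem_nhds hu] with x hx
    exact h.left x hx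
  rw [h2.fderiv_eq, fderiv_id] at h1
  exact (congrArg (fun L : En n →L[ℝ] En n => L v) h1).symm

theorem IsChart.injective (h : IsChart V U ψ O κ) {u : En n} (hu : u ∈ U) :
    Function.Injective (fderiv ℝ ψ u) :=
  Function.LeftInverse.injective (g := fderiv ℝ κ (ψ u)) (h.fderiv_κ_ψ hu)

theorem IsChart.contDiffAt_fderiv_ψ (h : IsChart V U ψ O κ) {u : En n} (hu : u ∈ U) :
    ContDiffAt ℝ ∞ (fderiv ℝ ψ) u := (h.contDiffAt_ψ hu).fderiv_right (by simp)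

/-- A chart can be restricted. -/
theorem IsChart.restrict (h : IsChart V U ψ O κ) {O' : Set (En M)} (hO' : IsOpen O') :
    IsChart V (U ∩ ψ ⁻¹' O') ψ (O ∩ O') κ where
  openU := h.smoothψ.continuousOn.isOpen_inter_preimage h.openU hO'
  openO := h.openO.inter hO'
  smoothψ := h.smoothψ.mono inter_subset_left
  smoothκ := h.smoothκ.mono inter_subset_left
  maps := fun u hu => ⟨h.mem_V hu.1, h.mem_O hu.1, hu.2⟩
  left := fun u hu => h.left u hu.1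
  mapsκ := fun y hy => ⟨h.mapsκ y ⟨hy.1, hy.2.1⟩, by
    change ψ (κ y) ∈ O'
    rw [h.right y ⟨hy.1, hy.2.1⟩]
    exact hy.2.2⟩
  right := fun y hy => h.right y ⟨hy.1, hy.2.1⟩

/-- The domain `O` can be made smaller, such that `κ` maps it to `U`. -/
theorem IsChart.shrink (h : IsChart V U ψ O κ) : IsChart V U ψ (O ∩ κ ⁻¹' U) κ where
  openU := h.openU
  openO := h.smoothκ.continuousOn.isOpen_inter_preimage h.openO h.openU
  smoothψ := h.smoothψ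
  smoothκ := h.smoothκ.mono inter_subset_left
  maps := fun u hu => ⟨h.mem_V hu, h.mem_O hu, by
    change κ (ψ u) ∈ U
    rw [h.left u hu]
    exact hu⟩
  left := h.left
  mapsκ := fun y hy => hy.2.2
  right := fun y hy => h.right y ⟨hy.1, hy.2.1⟩

/-- The image of an open subset of `U` is open in `V`. -/
theorem IsChart.nhdsWithin_image (h : IsChart V U ψ O κ) {x : En M} (hx : x ∈ V ∩ O)
    {p : En M → Prop} (hp : ∀ᶠ u in 𝓝 (κ x), p (ψ u)) : ∀ᶠ y in 𝓝[V] x, p y := by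
  have h1 : Tendsto κ (𝓝[V] x) (𝓝 (κ x)) :=
    (h.contDiffAt_κ hx.2).continuousAt.tendsto.mono_left nhdsWithin_le_nhds
  have h2 : ∀ᶠ y in 𝓝[V] x, y ∈ V ∩ O := by
    filter_upwards [self_mem_nhdsWithin, nhdsWithin_le_nhds (h.openO.mem_nhds hx.2)] with y h3 h4
    exact ⟨h3, h4⟩
  filter_upwards [h1.eventually hp, h2] with y h3 h4
  rwa [h.right y h4] at h3

end chart

section trans

variable {n M : ℕ} {V : Set (En M)} {U₁ : Set (En n)} {ψ₁ : En n → En M} {O₁ : Set (En M)}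
  {κ₁ : En M → En n} {U₂ : Set (En n)} {ψ₂ : En n → En M} {O₂ : Set (En M)}
  {κ₂ : En M → En n}

/-- The transition map `κ₂ ∘ ψ₁`. -/
theorem IsChart.trans_mem (h1 : IsChart V U₁ ψ₁ O₁ κ₁) (h2 : IsChart V U₂ ψ₂ O₂ κ₂) {u : En n}
    (hu : u ∈ U₁) (hu' : ψ₁ u ∈ O₂) :
    κ₂ (ψ₁ u) ∈ U₂ ∧ ψ₂ (κ₂ (ψ₁ u)) = ψ₁ u ∧ κ₁ (ψ₂ (κ₂ (ψ₁ u))) = u := by
  have h3 := h2.right _ ⟨h1.mem_V hu, hu'⟩
  refine ⟨h2.mapsκ _ ⟨h1.mem_V hu, hu'⟩, h3, ?_⟩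
  rw [h3, h1.left u hu]

theorem IsChart.trans_contDiffAt (h1 : IsChart V U₁ ψ₁ O₁ κ₁) (h2 : IsChart V U₂ ψ₂ O₂ κ₂)
    {u : En n} (hu : u ∈ U₁) (hu' : ψ₁ u ∈ O₂) :
    ContDiffAt ℝ ∞ (fun w => κ₂ (ψ₁ w)) u :=
  (h2.contDiffAt_κ hu').comp u (h1.contDiffAt_ψ hu)

theorem IsChart.trans_fderiv (h1 : IsChart V U₁ ψ₁ O₁ κ₁) (h2 : IsChart V U₂ ψ₂ O₂ κ₂)
    {u : En n} (hu : u ∈ U₁) (hu' : ψ₁ u ∈ O₂) :
    fderiv ℝ ψ₁ u = (fderiv ℝ ψ₂ (κ₂ (ψ₁ u))).comp (fderiv ℝ (fun w => κ₂ (ψ₁ w)) u) := by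
  obtain ⟨m1, m2, m3⟩ := h1.trans_mem h2 hu hu'
  have h3 : fderiv ℝ (ψ₂ ∘ fun w => κ₂ (ψ₁ w)) u
      = (fderiv ℝ ψ₂ (κ₂ (ψ₁ u))).comp (fderiv ℝ (fun w => κ₂ (ψ₁ w)) u) :=
    fderiv_comp u (h2.differentiableAt_ψ m1)
      ((h1.trans_contDiffAt h2 hu hu').differentiableAt (by simp))
  rw [← h3]
  refine (Filter.EventuallyEq.fderiv_eq ?_).symm
  filter_upwards [(h1.restrict h2.openO).openU.mem_nhds ⟨hu, hu'⟩] with w hw
  exact (h1.trans_mem h2 hw.1 hw.2).2.1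

/-- The ranges of the derivatives of two charts at the same point agree. -/
theorem IsChart.trans_range (h1 : IsChart V U₁ ψ₁ O₁ κ₁) (h2 : IsChart V U₂ ψ₂ O₂ κ₂)
    {u : En n} (hu : u ∈ U₁) (hu' : ψ₁ u ∈ O₂) (v : En n) :
    ∃ w, fderiv ℝ ψ₂ (κ₂ (ψ₁ u)) w = fderiv ℝ ψ₁ u v :=
  ⟨fderiv ℝ (fun w => κ₂ (ψ₁ w)) u v, by rw [h1.trans_fderiv h2 hu hu']; rfl⟩

theorem IsChart.trans_range' (h1 : IsChart V U₁ ψ₁ O₁ κ₁) (h2 : IsChart V U₂ ψ₂ O₂ κ₂)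
    {u₁ : En n} {u₂ : En n} (hu₁ : u₁ ∈ U₁) (hu₂ : u₂ ∈ U₂) (he : ψ₁ u₁ = ψ₂ u₂) (v : En n) :
    ∃ w, fderiv ℝ ψ₂ u₂ w = fderiv ℝ ψ₁ u₁ v := by
  have hu' : ψ₁ u₁ ∈ O₂ := by rw [he]; exact h2.mem_O hu₂
  have h3 : κ₂ (ψ₁ u₁) = u₂ := by rw [he, h2.left _ hu₂]
  have h4 := h1.trans_range h2 hu₁ hu' v
  rwa [h3] at h4

theorem IsChart.prj_eq (h1 : IsChart V U₁ ψ₁ O₁ κ₁) (h2 : IsChart V U₂ ψ₂ O₂ κ₂)
    {u₁ : En n} {u₂ : En n} (hu₁ : u₁ ∈ U₁) (hu₂ : u₂ ∈ U₂) (he : ψ₁ u₁ = ψ₂ u₂) :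
    prj (fderiv ℝ ψ₁ u₁) = prj (fderiv ℝ ψ₂ u₂) :=
  prj_eq_of_range (h1.injective hu₁) (h2.injective hu₂)
    (fun x => h1.trans_range' h2 hu₁ hu₂ he x) (fun y => h2.trans_range' h1 hu₂ hu₁ he.symm y)

theorem IsChart.trans_injective (h1 : IsChart V U₁ ψ₁ O₁ κ₁) (h2 : IsChart V U₂ ψ₂ O₂ κ₂)
    {u : En n} (hu : u ∈ U₁) (hu' : ψ₁ u ∈ O₂) :
    Function.Injective (fderiv ℝ (fun w => κ₂ (ψ₁ w)) u) := by
  intro a b hab
  refine h1.injective hu ?_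
  rw [h1.trans_fderiv h2 hu hu']
  exact congrArg (fderiv ℝ ψ₂ (κ₂ (ψ₁ u))) hab

end trans

/-- `gram` is the Gram matrix of the derivative. -/
theorem gram_eq {n M : ℕ} (ψ : En n → En M) (u : En n) : gram ψ u = gramM (fderiv ℝ ψ u) := rfl

theorem sqrt_gram_eq {n M : ℕ} (ψ : En n → En M) (u : En n) :
    Real.sqrt (gram ψ u).det = volF (fderiv ℝ ψ u) := rfl

/-! ## Atlases with partition of unity -/

/-- A finite atlas with a partition of unity. -/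
structure Atl (n : ℕ) {M : ℕ} (V : Set (En M)) where
  N : ℕ
  U : Fin N → Set (En n)
  ψ : Fin N → En n → En M
  O : Fin N → Set (En M)
  κ : Fin N → En M → En n
  χ : Fin N → En M → ℝ
  chart : ∀ i, IsChart V (U i) (ψ i) (O i) (κ i)
  mapsO : ∀ i, ∀ y ∈ O i, κ i y ∈ U i
  smoothχ : ∀ i, ContDiff ℝ ∞ (χ i)
  compχ : ∀ i, HasCompactSupport (χ i)
  suppχ : ∀ i, tsupport (χ i) ⊆ O i
  nonneg : ∀ i x, 0 ≤ χ i x
  sum_one : ∀ᶠ x in 𝓝ˢ V, ∑ i, χ i x = 1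

end Pool.Agent.EXO
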