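import Mathlib
import Pool.Agent.EXO.SuCh

/-!
# EXO / SuInt: integration over a closed submanifold

PROOFS.
* `ae_mem`: `μ_supp`.
* `aestronglyMeasurable`: `V` is compact, so measurable; `ContinuousOn.aestronglyMeasurable` for
  `μ.restrict V`, and `μ.restrict V = μ` (`Measure.restrict_eq_self_of_ae_mem`).
* `integrable`: bounded on the compact set `V`, `μ` finite.
* `integral_congr`: `integral_congr_ae`.
-/

set_option autoImplicit false

open Set Filter Topology MeasureTheory
open scoped ContDiff ENNReal

namespace Pool.Agent.EXO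

namespace Geo

variable {n M : ℕ} (G : Geo n M)

instance : IsFiniteMeasure G.μ := G.μ_fin

theorem ae_mem : ∀ᵐ x ∂G.μ, x ∈ G.carrier := by
  rw [ae_iff]
  exact G.μ_supp

variable {F : Type*} [NormedAddCommGroup F] [NormedSpace ℝ F]

private theorem SuInt_restrict : G.μ.restrict G.carrier = G.μ :=
  Measure.restrict_eq_self_of_ae_mem G.ae_mem

theorem aestronglyMeasurable {F : Type*} [NormedAddCommGroup F] {f : En M → F}
    (hf : ContinuousOn f G.carrier) : AEStronglyMeasurable f G.μ := by
  have h := hf.aestronglyMeasurable (μ := G.μ) G.compact.isClosed.measurableSet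
  rwa [SuInt_restrict] at h

theorem integrable {F : Type*} [NormedAddCommGroup F] {f : En M → F}
    (hf : ContinuousOn f G.carrier) : Integrable f G.μ := by
  have h := hf.integrableOn_compact (μ := G.μ) G.compact
  rwa [IntegrableOn, SuInt_restrict] at h

theorem integral_congr {f g : En M → F} (h : ∀ x ∈ G.carrier, f x = g x) :
    ∫ x, f x ∂G.μ = ∫ x, g x ∂G.μ := by
  refine MeasureTheory.integral_congr_ae ?_
  filter_upwards [G.ae_mem] with x hx
  exact h x hx

end Geo

end Pool.Agent.EXO
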