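import Mathlib
import Pool.Agent.EXO.SuCh

/-!
# EXO / SuMuC: the Riemannian measure in one chart

PROOF.  `ψ` is continuous on the open (measurable) set `U`, hence `AEMeasurable` for
`volume.restrict U` (`ContinuousOn.aemeasurable`) and for the measure with density (absolutely
continuous: `AEMeasurable.mono_ac (withDensity_absolutelyContinuous _ _)`); the density
`u ↦ ofReal (sqrt (gram ψ u).det)` is continuous on `U` (`continuous_volF` composed with
`h.smoothψ.continuousOn_fderiv_of_isOpen`), hence `AEMeasurable`.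
`lintegral_map'` and `lintegral_withDensity_eq_lintegral_mul₀` (or a variant) give the first
formula.  The second statement: `lintegral_chM` with `f = indicator Vᶜ 1` when `V` is measurable; every
`ψ u`, `u ∈ U` is in `V`, so the integrand vanishes on `U` (`setLIntegral_congr_fun` or
`Measure.map_apply_of_aemeasurable`).
Third: let `χ` be continuous and `0 ≤ χ` with compact support contained in `O`, `V` compact.  The
set `K = κ '' (tsupport χ ∩ V)` is compact and `K ⊆ U`; for `u ∈ U ∖ K` we have
`χ (ψ u) = 0` (otherwise `ψ u ∈ tsupport χ ∩ V` and `u = κ (ψ u) ∈ K`).  So the integral is at most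
`∫⁻ u in K, C = C * volume K < ∞`, `C = ofReal c`, where `c` bounds `χ (ψ u) * volF (fderiv ℝ ψ u)`, continuous
on the compact set `K` (`IsCompact.exists_bound_of_continuousOn`).
-/

set_option autoImplicit false

open Set Filter Topology MeasureTheory
open scoped ContDiff ENNReal

namespace Pool.Agent.EXO

/-- The measure of a chart. -/
noncomputable def chM {n M : ℕ} (U : Set (En n)) (ψ : En n → En M) : Measure (En M) :=
  Measure.map ψ ((volume.restrict U).withDensity fun u =>
    ENNReal.ofReal (Real.sqrt (gram ψ u).det))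

private theorem sumuc_continuousOn {n M : ℕ} {V : Set (En M)} {U : Set (En n)} {ψ : En n → En M}
    {O : Set (En M)} {κ : En M → En n} (h : IsChart V U ψ O κ) :
    ContinuousOn (fun u => Real.sqrt (gram ψ u).det) U :=
  (continuous_volF (n := n) (m := M)).comp_continuousOn
    (h.smoothψ.continuousOn_fderiv_of_isOpen h.openU (by simp))

theorem IsChart.lintegral_chM {n M : ℕ} {V : Set (En M)} {U : Set (En n)} {ψ : En n → En M}
    {O : Set (En M)} {κ : En M → En n} (h : IsChart V U ψ O κ) {f : En M → ℝ≥0∞}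
    (hf : Measurable f) :
    ∫⁻ x, f x ∂(chM U ψ) = ∫⁻ u in U, f (ψ u) * ENNReal.ofReal (Real.sqrt (gram ψ u).det) := by
  have hψ : AEMeasurable ψ (volume.restrict U) :=
    h.smoothψ.continuousOn.aemeasurable h.openU.measurableSet
  have hρ : AEMeasurable (fun u => ENNReal.ofReal (Real.sqrt (gram ψ u).det))
      (volume.restrict U) :=
    ((sumuc_continuousOn h).aemeasurable h.openU.measurableSet).ennreal_ofReal
  have hψ2 : AEMeasurable ψ ((volume.restrict U).withDensity fun u =>
      ENNReal.ofReal (Real.sqrt (gram ψ u).det)) :=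
    hψ.mono_ac (withDensity_absolutelyContinuous _ _)
  unfold chM
  rw [lintegral_map' hf.aemeasurable hψ2]
  refine (lintegral_withDensity_eq_lintegral_mul₀ hρ (g := fun u => f (ψ u))
    (hf.comp_aemeasurable hψ)).trans ?_
  refine lintegral_congr fun u => ?_
  simp only [Pi.mul_apply]
  exact mul_comm _ _

theorem IsChart.chM_compl {n M : ℕ} {V : Set (En M)} {U : Set (En n)} {ψ : En n → En M}
    {O : Set (En M)} {κ : En M → En n} (h : IsChart V U ψ O κ) (hV : MeasurableSet V) :
    chM U ψ Vᶜ = 0 := by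
  rw [← lintegral_indicator_one hV.compl, h.lintegral_chM (measurable_one.indicator hV.compl)]
  rw [setLIntegral_congr_fun (g := fun _ => 0) h.openU.measurableSet, lintegral_zero]
  intro u hu
  have h1 : ψ u ∉ Vᶜ := fun h2 => h2 (h.mem_V hu)
  simp only [Set.indicator_of_notMem h1, zero_mul]

theorem IsChart.lintegral_cutoff_lt_top {n M : ℕ} {V : Set (En M)} {U : Set (En n)}
    {ψ : En n → En M} {O : Set (En M)} {κ : En M → En n} (h : IsChart V U ψ O κ)
    (hV : IsCompact V) {χ : En M → ℝ} (hχ : Continuous χ) (hc : HasCompactSupport χ)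
    (hs : tsupport χ ⊆ O) :
    ∫⁻ u in U, ENNReal.ofReal (χ (ψ u)) * ENNReal.ofReal (Real.sqrt (gram ψ u).det) < ⊤ := by
  have hK : IsCompact (κ '' (tsupport χ ∩ V)) := by
    have h1 : IsCompact (tsupport χ ∩ V) := hc.isCompact.inter hV
    exact h1.image_of_continuousOn (h.smoothκ.continuousOn.mono (inter_subset_left.trans hs))
  have hKU : κ '' (tsupport χ ∩ V) ⊆ U := by
    rintro _ ⟨y, ⟨hy1, hy2⟩, rfl⟩
    exact h.mapsκ y ⟨hy2, hs hy1⟩
  have hg : ContinuousOn (fun u => χ (ψ u) * Real.sqrt (gram ψ u).det) (κ '' (tsupport χ ∩ V)) :=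
    ((hχ.comp_continuousOn h.smoothψ.continuousOn).mul (sumuc_continuousOn h)).mono hKU
  obtain ⟨c, hcb⟩ := hK.exists_bound_of_continuousOn hg
  have hle : ∀ u ∈ U, ENNReal.ofReal (χ (ψ u)) * ENNReal.ofReal (Real.sqrt (gram ψ u).det) ≤
      (κ '' (tsupport χ ∩ V)).indicator (fun _ => ENNReal.ofReal c) u := by
    intro u hu
    by_cases huK : u ∈ κ '' (tsupport χ ∩ V)
    · rw [Set.indicator_of_mem huK, ← ENNReal.ofReal_mul' (Real.sqrt_nonneg _)]
      refine ENNReal.ofReal_le_ofReal ?_
      exact (le_abs_self _).trans (hcb u huK)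
    · rw [Set.indicator_of_notMem huK]
      have h0 : χ (ψ u) = 0 := by
        by_contra hne
        exact huK ⟨ψ u, ⟨subset_tsupport _ hne, h.mem_V hu⟩, h.left u hu⟩
      rw [h0, ENNReal.ofReal_zero, zero_mul]
  calc ∫⁻ u in U, ENNReal.ofReal (χ (ψ u)) * ENNReal.ofReal (Real.sqrt (gram ψ u).det)
      ≤ ∫⁻ u in U, (κ '' (tsupport χ ∩ V)).indicator (fun _ => ENNReal.ofReal c) u :=
        setLIntegral_mono' h.openU.measurableSet hle
    _ ≤ ∫⁻ u, (κ '' (tsupport χ ∩ V)).indicator (fun _ => ENNReal.ofReal c) u :=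
        setLIntegral_le_lintegral _ _
    _ = ENNReal.ofReal c * volume (κ '' (tsupport χ ∩ V)) := by
        rw [lintegral_indicator_const hK.measurableSet]
    _ < ⊤ := ENNReal.mul_lt_top ENNReal.ofReal_lt_top hK.measure_lt_top

end Pool.Agent.EXO
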