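import Mathlib
import Pool.Agent.EXO.SuInt
import Pool.Agent.EXO.SuMuC

/-!
# EXO / SuIntB: integration in charts

PROOFS.
* `restrict_eq_map`: two measures which agree on measurable sets (`Measure.ext`): apply `μ_chart` with
  `f = indicator s 1`; for the right side: `ψ` is continuous on the open set `U`, so `AEMeasurable` for
  `volume.restrict U` and for the measure with density (`AEMeasurable.mono_ac`,
  `withDensity_absolutelyContinuous`); `Measure.map_apply_of_aemeasurable`, `withDensity_apply'` ..., or
  `lintegral_map'`, `lintegral_withDensity_eq_lintegral_mul₀`.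
* `setIntegral_chart`: `restrict_eq_map`, `integral_map` (needs `AEStronglyMeasurable f (μ.restrict O)`),
  `integral_withDensity_eq_integral_smul₀` / `integral_withDensity_eq_integral_toReal_smul₀` (density
  `ofReal (..)`, `AEMeasurable` on `U` because it is continuous on `U`: `continuous_volF`,
  `h.smoothψ.continuousOn_fderiv_of_isOpen`, see `sqrt_gram_eq`).
* `integral_chart`: `f = 0` almost everywhere outside `O`, so `∫ f = ∫ x in O, f`
  (`setIntegral_eq_integral_of_ae_compl_eq_zero`).
* `integrable_chart`: `Integrable f (μ.restrict O)`, transported by `restrict_eq_map`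
  (`integrable_map_measure`, `integrable_withDensity_iff_integrable_smul₀'`).
* `μ_pos`: let `x ∈ V ∩ O'`, `O'` open; chart at `x`; `μ_chart` with `f = indicator O' 1`:
  `μ (O' ∩ O) = ∫⁻ u in U, indicator (ψ ⁻¹' O') .. * ofReal (volF ..)`, which is positive: the integrand is
  positive on the nonempty open set `U ∩ ψ ⁻¹' O'` (`IsChart.restrict`), `volF_pos`, `IsChart.injective`.
-/

set_option autoImplicit false

open Set Filter Topology MeasureTheory
open scoped ContDiff ENNReal

namespace Pool.Agent.EXO

namespace Geo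

variable {n M : ℕ} (G : Geo n M)

variable {F : Type*} [NormedAddCommGroup F] [NormedSpace ℝ F]

private theorem suintb_dens {U : Set (En n)} {ψ : En n → En M} {V : Set (En M)} {O : Set (En M)}
    {κ : En M → En n} (h : IsChart V U ψ O κ) :
    AEMeasurable (fun u => ENNReal.ofReal (volF (fderiv ℝ ψ u))) (volume.restrict U) :=
  (((continuous_volF (n := n) (m := M)).comp_continuousOn
    (h.smoothψ.continuousOn_fderiv_of_isOpen h.openU (by simp))).aemeasurable
      h.openU.measurableSet).ennreal_ofReal

private theorem suintb_psi {U : Set (En n)} {ψ : En n → En M} {V : Set (En M)} {O : Set (En M)}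
    {κ : En M → En n} (h : IsChart V U ψ O κ) :
    AEMeasurable ψ ((volume.restrict U).withDensity fun u =>
      ENNReal.ofReal (volF (fderiv ℝ ψ u))) :=
  (h.smoothψ.continuousOn.aemeasurable h.openU.measurableSet).mono_ac
    (withDensity_absolutelyContinuous _ _)

theorem restrict_eq_map {U : Set (En n)} {ψ : En n → En M} {O : Set (En M)} {κ : En M → En n}
    (h : IsChart G.carrier U ψ O κ) :
    G.μ.restrict O = Measure.map ψ ((volume.restrict U).withDensity fun u =>
      ENNReal.ofReal (volF (fderiv ℝ ψ u))) := by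
  have key : ∀ f : En M → ℝ≥0∞, Measurable f →
      ∫⁻ x, f x ∂(G.μ.restrict O) = ∫⁻ x, f x ∂(chM U ψ) := fun f hf => by
    rw [G.μ_chart U ψ O κ h f hf, h.lintegral_chM hf]
  have h1 : G.μ.restrict O = chM U ψ := by
    refine Measure.ext fun s hs => ?_
    have h2 := key (s.indicator 1) (measurable_one.indicator hs)
    rwa [lintegral_indicator_one hs, lintegral_indicator_one hs] at h2
  exact h1

theorem setIntegral_chart {U : Set (En n)} {ψ : En n → En M} {O : Set (En M)} {κ : En M → En n}
    (h : IsChart G.carrier U ψ O κ) {f : En M → F}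
    (hf : AEStronglyMeasurable f (G.μ.restrict O)) :
    ∫ x in O, f x ∂G.μ = ∫ u in U, volF (fderiv ℝ ψ u) • f (ψ u) := by
  rw [G.restrict_eq_map h] at hf ⊢
  rw [integral_map (suintb_psi h) hf,
    integral_withDensity_eq_integral_toReal_smul₀ (suintb_dens h)
      (Eventually.of_forall fun _ => ENNReal.ofReal_lt_top)]
  refine integral_congr_ae (Eventually.of_forall fun u => ?_)
  simp only
  rw [ENNReal.toReal_ofReal (volF_nonneg _)]

/-- The integral of a function which vanishes outside the domain of a chart. -/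
theorem integral_chart {U : Set (En n)} {ψ : En n → En M} {O : Set (En M)} {κ : En M → En n}
    (h : IsChart G.carrier U ψ O κ) {f : En M → F} (hf : AEStronglyMeasurable f G.μ)
    (h0 : ∀ x ∈ G.carrier, x ∉ O → f x = 0) :
    ∫ x, f x ∂G.μ = ∫ u in U, volF (fderiv ℝ ψ u) • f (ψ u) := by
  rw [← G.setIntegral_chart h hf.restrict, setIntegral_eq_integral_of_ae_compl_eq_zero]
  filter_upwards [G.ae_mem] with x hx hxO
  exact h0 x hx hxO

theorem integrable_chart {U : Set (En n)} {ψ : En n → En M} {O : Set (En M)} {κ : En M → En n}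
    (h : IsChart G.carrier U ψ O κ) {f : En M → F} (hf : Integrable f G.μ) :
    IntegrableOn (fun u => volF (fderiv ℝ ψ u) • f (ψ u)) U := by
  have h1 : Integrable f (G.μ.restrict O) := hf.restrict
  rw [G.restrict_eq_map h] at h1
  have h2 := (integrable_map_measure h1.aestronglyMeasurable (suintb_psi h)).1 h1
  rw [integrable_withDensity_iff_integrable_smul₀' (suintb_dens h)
      (Eventually.of_forall fun _ => ENNReal.ofReal_lt_top)] at h2
  refine h2.congr (Eventually.of_forall fun u => ?_)
  simp only [Function.comp_apply]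
  rw [ENNReal.toReal_ofReal (volF_nonneg _)]

theorem μ_pos {O : Set (En M)} (hO : IsOpen O) {x : En M} (hx : x ∈ G.carrier) (hxO : x ∈ O) :
    0 < G.μ O := by
  obtain ⟨U, ψ, O', κ, h, hxO'⟩ := G.chart x hx
  have h1 := h.restrict hO
  have hU : κ x ∈ U := h.mapsκ x ⟨hx, hxO'⟩
  have hψ : ψ (κ x) = x := h.right x ⟨hx, hxO'⟩
  have hmem : κ x ∈ U ∩ ψ ⁻¹' O := ⟨hU, by
    change ψ (κ x) ∈ O
    rwa [hψ]⟩
  have h2 := G.μ_chart _ ψ _ κ h1 (fun _ => 1) measurable_const
  rw [setLIntegral_const, one_mul] at h2
  simp only [one_mul] at h2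
  have h3 : G.μ (O' ∩ O) ≤ G.μ O := measure_mono inter_subset_right
  refine lt_of_lt_of_le ?_ h3
  rw [h2, pos_iff_ne_zero]
  intro h0
  have h0' := (lintegral_eq_zero_iff' (suintb_dens h1)).1 h0
  have h4 : ∀ᵐ _u ∂(volume.restrict (U ∩ ψ ⁻¹' O)), False := by
    filter_upwards [h0', ae_restrict_mem h1.openU.measurableSet] with u hu huW
    have h5 : 0 < volF (fderiv ℝ ψ u) := volF_pos (h1.injective huW)
    have h6 : ENNReal.ofReal (volF (fderiv ℝ ψ u)) = 0 := hu
    rw [ENNReal.ofReal_eq_zero] at h6
    linarith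
  have h7 : volume (U ∩ ψ ⁻¹' O) = 0 := by
    have h8 := ae_iff.1 h4
    simpa using h8
  exact (h1.openU.measure_pos volume ⟨κ x, hmem⟩).ne' h7

end Geo

end Pool.Agent.EXO
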