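import Mathlib
import Pool.Agent.EXO.SuLin

/-!
# EXO / SuDet: the derivative of the volume factor

PROOF.  Let `G = gramL A` (invertible, `isUnit_gramL`), `L = G⁻¹ A† B`, `C = B - A L`.  Then
`A† C = A† B - G L = 0`.  `volF` is differentiable at `A` (`contDiffAt_volF`), so
`fderiv volF A B = fderiv volF A (A L) + fderiv volF A C`.
(1) `fderiv volF A (A L)` is the derivative at `s = 0` of `s ↦ volF (A + s • (A L)) = volF (A ∘ (1 + s L))`
`= |det (1 + s L)| * volF A` (`volF_comp`).  For `s` near `0` the determinant is positive (continuity), and its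
derivative at `0` is `trace L`: `Matrix.det_one_add_smul` gives
`det (1 + s • m) = 1 + trace m * s + q(s) * s ^ 2` with a polynomial `q` (for `L.det` use `LinearMap.det`,
`LinearMap.toMatrix` in the standard basis, `LinearMap.det_toMatrix`, `Matrix.trace` ↔ `LinearMap.trace`).
(2) `gramM (A + s • C) = gramM (A - s • C)`, since `⟪A x, C y⟫ = ⟪x, A† C y⟫ = 0` and `⟪C x, A y⟫ = 0`.  So
`volF (A + s • C)` is an even function of `s`, and its derivative at `0`, `fderiv volF A C`, is zero.
-/

set_option autoImplicit false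

open Set Filter Topology MeasureTheory ContinuousLinearMap
open scoped ContDiff ENNReal

namespace Pool.Agent.EXO

private theorem SuDet_det {n : ℕ}
    (L : EuclideanSpace ℝ (Fin n) →L[ℝ] EuclideanSpace ℝ (Fin n)) :
    HasDerivAt (fun s : ℝ => (ContinuousLinearMap.id ℝ _ + s • L).det)
      (LinearMap.trace ℝ _ (L : EuclideanSpace ℝ (Fin n) →ₗ[ℝ] EuclideanSpace ℝ (Fin n))) 0 := by
  set b := (EuclideanSpace.basisFun (Fin n) ℝ).toBasis with hb
  set m : Matrix (Fin n) (Fin n) ℝ := LinearMap.toMatrix b b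
    (L : EuclideanSpace ℝ (Fin n) →ₗ[ℝ] EuclideanSpace ℝ (Fin n)) with hm
  have h1 : ∀ s : ℝ, (ContinuousLinearMap.id ℝ (EuclideanSpace ℝ (Fin n)) + s • L).det =
      (1 + s • m).det := by
    intro s
    have h2 : (ContinuousLinearMap.id ℝ (EuclideanSpace ℝ (Fin n)) + s • L).det =
        LinearMap.det (LinearMap.id + s •
          (L : EuclideanSpace ℝ (Fin n) →ₗ[ℝ] EuclideanSpace ℝ (Fin n))) := rfl
    rw [h2, ← LinearMap.det_toMatrix b, map_add, map_smul, LinearMap.toMatrix_id]
  simp only [h1]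
  set p := (Matrix.det (1 + (Polynomial.X : Polynomial ℝ) • m.map Polynomial.C)).divX.divX with hp
  have h3 : ∀ s : ℝ, (1 + s • m).det = 1 + m.trace * s + p.eval s * s ^ 2 := fun s =>
    Matrix.det_one_add_smul s m
  simp only [h3]
  have h4 : HasDerivAt (fun s : ℝ => 1 + m.trace * s + p.eval s * s ^ 2)
      (0 + m.trace * 1 + ((Polynomial.derivative p).eval 0 * 0 ^ 2 + p.eval 0 * (2 * 0))) 0 := by
    have k1 : HasDerivAt (fun s : ℝ => p.eval s) ((Polynomial.derivative p).eval 0) 0 :=
      p.hasDerivAt 0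
    have k2 : HasDerivAt (fun s : ℝ => s ^ 2) (2 * 0) 0 := by
      have := hasDerivAt_pow 2 (0 : ℝ)
      simpa using this
    exact ((hasDerivAt_const (0 : ℝ) (1 : ℝ)).add ((hasDerivAt_id (0 : ℝ)).const_mul _)).add
      (k1.mul k2)
  have h5 : 0 + m.trace * 1 + ((Polynomial.derivative p).eval 0 * 0 ^ 2 + p.eval 0 * (2 * 0)) =
      LinearMap.trace ℝ _
        (L : EuclideanSpace ℝ (Fin n) →ₗ[ℝ] EuclideanSpace ℝ (Fin n)) := by
    rw [LinearMap.trace_eq_matrix_trace ℝ b]
    ring
  rw [h5] at h4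
  exact h4

private theorem SuDet_line {n m : ℕ}
    {A : EuclideanSpace ℝ (Fin n) →L[ℝ] EuclideanSpace ℝ (Fin m)} (hA : Function.Injective A)
    (B : EuclideanSpace ℝ (Fin n) →L[ℝ] EuclideanSpace ℝ (Fin m)) :
    HasDerivAt (fun s : ℝ => volF (A + s • B)) (fderiv ℝ volF A B) 0 := by
  have h1 : HasFDerivAt (volF : (EuclideanSpace ℝ (Fin n) →L[ℝ] EuclideanSpace ℝ (Fin m)) → ℝ)
      (fderiv ℝ volF A) (A + (0 : ℝ) • B) := by
    have h0 : A + (0 : ℝ) • B = A := ContinuousLinearMap.ext fun x => by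
      show A x + (0 : ℝ) • B x = A x
      rw [zero_smul, add_zero]
    rw [h0]
    exact ((contDiffAt_volF hA).differentiableAt (by simp)).hasFDerivAt
  have h2 : HasDerivAt (fun s : ℝ => A + s • B) B 0 := by
    have h3 := ((hasDerivAt_id (0 : ℝ)).smul_const B).const_add A
    rw [one_smul] at h3
    exact h3
  exact h1.comp_hasDerivAt (0 : ℝ) h2

theorem fderiv_volF {n m : ℕ}
    {A : EuclideanSpace ℝ (Fin n) →L[ℝ] EuclideanSpace ℝ (Fin m)} (hA : Function.Injective A)
    (B : EuclideanSpace ℝ (Fin n) →L[ℝ] EuclideanSpace ℝ (Fin m)) :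
    fderiv ℝ volF A B = volF A * LinearMap.trace ℝ (EuclideanSpace ℝ (Fin n))
      ((Ring.inverse (gramL A) ∘L (adjoint A) ∘L B :
        EuclideanSpace ℝ (Fin n) →L[ℝ] EuclideanSpace ℝ (Fin n)) :
        EuclideanSpace ℝ (Fin n) →ₗ[ℝ] EuclideanSpace ℝ (Fin n)) := by
  set L : EuclideanSpace ℝ (Fin n) →L[ℝ] EuclideanSpace ℝ (Fin n) :=
    Ring.inverse (gramL A) ∘L (adjoint A) ∘L B with hL
  set C : EuclideanSpace ℝ (Fin n) →L[ℝ] EuclideanSpace ℝ (Fin m) := B - A ∘L L with hC
  have hGi : gramL A * Ring.inverse (gramL A) = 1 := Ring.mul_inverse_cancel _ (isUnit_gramL hA)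
  have hAC : ∀ x, adjoint A (C x) = 0 := by
    intro x
    have h1 : adjoint A (C x) = adjoint A (B x) - gramL A (L x) := by
      rw [hC]
      show adjoint A (B x - A (L x)) = _
      rw [map_sub]
      rfl
    have h2 : gramL A (L x) = adjoint A (B x) := by
      have h3 := congrArg (fun T : EuclideanSpace ℝ (Fin n) →L[ℝ] EuclideanSpace ℝ (Fin n) =>
        T (adjoint A (B x))) hGi
      exact h3
    rw [h1, h2, sub_self]
  have hB : B = A ∘L L + C := by rw [hC]; abel
  -- the normal part
  have hnor : fderiv ℝ volF A C = 0 := by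
    have h1 := SuDet_line hA C
    have heven : ∀ s : ℝ, volF (A + (-s) • C) = volF (A + s • C) := by
      intro s
      have h2 : ∀ x y, inner ℝ (A x) (C y) = (0 : ℝ) := fun x y => by
        rw [← adjoint_inner_right, hAC, inner_zero_right]
      have h3 : ∀ x y, inner ℝ (C x) (A y) = (0 : ℝ) := fun x y => by
        rw [real_inner_comm, h2]
      have h4 : gramM (A + (-s) • C) = gramM (A + s • C) := by
        ext i j
        simp only [gramM, Matrix.of_apply, _root_.add_apply, _root_.smul_apply,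
          inner_add_left, inner_add_right, inner_smul_left, inner_smul_right, h2, h3]
        simp
      unfold volF
      rw [h4]
    have h2 : HasDerivAt (fun s : ℝ => volF (A + (-s) • C)) (-(fderiv ℝ volF A C)) 0 := by
      have h5 : HasDerivAt (fun s : ℝ => volF (A + s • C)) (fderiv ℝ volF A C) (-(0 : ℝ)) := by
        rw [neg_zero]
        exact h1
      have h6 := h5.scomp (0 : ℝ) (hasDerivAt_neg (0 : ℝ))
      rw [neg_smul, one_smul] at h6
      exact h6
    simp only [heven] at h2
    have h7 := h1.unique h2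
    linarith
  -- the tangential part
  have htan : fderiv ℝ volF A (A ∘L L) = volF A * LinearMap.trace ℝ _
      (L : EuclideanSpace ℝ (Fin n) →ₗ[ℝ] EuclideanSpace ℝ (Fin n)) := by
    have h1 := SuDet_line hA (A ∘L L)
    have hd := SuDet_det L
    have h0 : (ContinuousLinearMap.id ℝ (EuclideanSpace ℝ (Fin n)) + (0 : ℝ) • L).det = 1 := by
      have h3 : ContinuousLinearMap.id ℝ (EuclideanSpace ℝ (Fin n)) + (0 : ℝ) • L =
          ContinuousLinearMap.id ℝ (EuclideanSpace ℝ (Fin n)) :=
        ContinuousLinearMap.ext fun x => by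
          show x + (0 : ℝ) • L x = x
          rw [zero_smul, add_zero]
      rw [h3]
      exact LinearMap.det_id
    have hev : ∀ᶠ s : ℝ in 𝓝 0,
        0 < (ContinuousLinearMap.id ℝ (EuclideanSpace ℝ (Fin n)) + s • L).det := by
      refine hd.continuousAt.eventually_const_lt ?_
      show 0 < (ContinuousLinearMap.id ℝ (EuclideanSpace ℝ (Fin n)) + (0 : ℝ) • L).det
      rw [h0]
      exact zero_lt_one
    have h2 : (fun s : ℝ => volF (A + s • (A ∘L L))) =ᶠ[𝓝 0] fun s : ℝ =>
        volF A * (ContinuousLinearMap.id ℝ (EuclideanSpace ℝ (Fin n)) + s • L).det := by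
      filter_upwards [hev] with s hs
      have h3 : A + s • (A ∘L L) =
          A ∘L (ContinuousLinearMap.id ℝ (EuclideanSpace ℝ (Fin n)) + s • L) := by
        refine ContinuousLinearMap.ext fun x => ?_
        show A x + s • A (L x) = A (x + s • L x)
        rw [map_add, map_smul]
      rw [h3, volF_comp, abs_of_pos hs, mul_comm]
    exact h1.unique ((hd.const_mul (volF A)).congr_of_eventuallyEq h2)
  calc fderiv ℝ volF A B = fderiv ℝ volF A (A ∘L L) + fderiv ℝ volF A C := by
        conv_lhs => rw [hB]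
        rw [map_add]
    _ = _ := by rw [hnor, add_zero, htan]

end Pool.Agent.EXO
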