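import Mathlib
import Pool.Agent.EXO.SuCh

/-!
# EXO / SuHv: the mean curvature vector, iterated tangential derivatives
-/

set_option autoImplicit false

open Set Filter Topology MeasureTheory
open scoped ContDiff ENNReal

namespace Pool.Agent.EXO

namespace Geo

variable {n M : ℕ} (G : Geo n M)

/-- The mean curvature vector (the trace of the second fundamental form). -/
noncomputable def Hv (x : En M) : En M := ∑ b, fderiv ℝ G.P x (G.P x (bv b)) (bv b)

theorem smooth_Hv : ContDiff ℝ ∞ G.Hv := by
  unfold Hv
  refine ContDiff.sum fun b _ => ?_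
  exact ((G.smoothP.fderiv_right (by simp)).clm_apply
    (G.smoothP.clm_apply contDiff_const)).clm_apply contDiff_const

/-- The tangential derivative in the direction of the projection of the basis vector `bv a`. -/
noncomputable def dt {F : Type*} [NormedAddCommGroup F] [NormedSpace ℝ F] (a : Fin M)
    (f : En M → F) (x : En M) : F := fderiv ℝ f x (G.P x (bv a))

/-- Iterated tangential derivatives: `dts [a₁, …, a_k] f = dt a₁ (dt a₂ (… dt a_k f))`. -/
noncomputable def dts {F : Type*} [NormedAddCommGroup F] [NormedSpace ℝ F]
    (l : List (Fin M)) (f : En M → F) : En M → F := l.foldr (fun a g => G.dt a g) f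

variable {F : Type*} [NormedAddCommGroup F] [NormedSpace ℝ F]

@[simp] theorem dts_nil (f : En M → F) : G.dts [] f = f := rfl

@[simp] theorem dts_cons (a : Fin M) (l : List (Fin M)) (f : En M → F) :
    G.dts (a :: l) f = G.dt a (G.dts l f) := rfl

theorem smooth_dt (a : Fin M) {f : En M → F} (hf : ContDiff ℝ ∞ f) : ContDiff ℝ ∞ (G.dt a f) :=
  (hf.fderiv_right (by simp)).clm_apply (G.smoothP.clm_apply contDiff_const)

theorem smooth_dts (l : List (Fin M)) {f : En M → F} (hf : ContDiff ℝ ∞ f) :
    ContDiff ℝ ∞ (G.dts l f) := by
  induction l with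
  | nil => exact hf
  | cons a l ih => exact G.smooth_dt a ih

/-- A vector is the sum of its components. -/
theorem sum_bv {m : ℕ} (v : En m) : v = ∑ a, v a • (bv a : En m) := by
  ext i
  simp [bv, Pi.single_apply]

theorem inner_bv {m : ℕ} (a : Fin m) (v : En m) : inner ℝ (bv a) v = v a := by
  simp [bv, EuclideanSpace.inner_single_left]

end Geo

end Pool.Agent.EXO
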