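import Mathlib
import Pool.Agent.EXO.SuCh

/-!
# EXO / SuTan: tangential derivatives on a closed submanifold

PROOFS.
* `P_chart`: both sides are orthogonal projections with the same range.  Let `A = fderiv ℝ ψ u`
  (injective, `IsChart.injective`), `x = ψ u`.  For every `v`: `prj A v = A w` for some `w` (`prj_mem_range`), so
  `P x (prj A v) = prj A v` (`P_range`); `P x v` is a fixed point of `P x` (`P_idem`), so it lies in the range of
  `A` and `prj A (P x v) = P x v` (`prj_apply_apply`).  For all `w`: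
  `⟪P x v, w⟫ = ⟪prj A (P x v), w⟫ = ⟪P x v, prj A w⟫ = ⟪v, P x (prj A w)⟫ = ⟪v, prj A w⟫ = ⟪prj A v, w⟫`
  (`prj_inner`, `P_sa`); `ext_inner_right`.
* `exists_chart`: the field `chart` and `IsChart.shrink`.
* `P_eq_fderiv`: take `w` with `fderiv ψ u w = prj (..) v`.
* `fderiv_tan`: take a chart at `x`, `u = κ x`, `w` with `fderiv ℝ ψ u w = P x v`.  Then `f ∘ ψ = g ∘ ψ` near `u`
  (`ψ` is continuous at `u` and maps `U` to `V`: `tendsto_nhdsWithin_iff`), and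
  `fderiv ℝ f x (P x v) = fderiv ℝ (f ∘ ψ) u w`, the same for `g`.
* `fderiv_maps`: charts `(U, ψ, O, κ)` of `V` at `x`, `(U', ψ', O', κ')` of `V'` at `f x`.  Near `u = κ x` we have
  `f (ψ a) = ψ' (κ' (f (ψ a)))` (as `f (ψ a) ∈ V' ∩ O'`), so with `h a = κ' (f (ψ a))` the chain rule gives
  `fderiv ℝ f x (fderiv ℝ ψ u w) = fderiv ℝ ψ' (h u) (fderiv ℝ h u w)`, in the range of
  `fderiv ℝ ψ' (h u)`; `P_range` for `V'`.
-/

set_option autoImplicit false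

open Set Filter Topology MeasureTheory
open scoped ContDiff ENNReal

namespace Pool.Agent.EXO

namespace Geo

variable {n M : ℕ} (G : Geo n M)

theorem P_chart {U : Set (En n)} {ψ : En n → En M} {O : Set (En M)} {κ : En M → En n}
    (h : IsChart G.carrier U ψ O κ) {u : En n} (hu : u ∈ U) :
    G.P (ψ u) = prj (fderiv ℝ ψ u) := by
  have hA : Function.Injective (fderiv ℝ ψ u) := h.injective hu
  have hx : ψ u ∈ G.carrier := h.mem_V hu
  have h1 : ∀ v, G.P (ψ u) (prj (fderiv ℝ ψ u) v) = prj (fderiv ℝ ψ u) v := by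
    intro v
    obtain ⟨w, hw⟩ := prj_mem_range (fderiv ℝ ψ u) v
    exact (G.P_range U ψ O κ h u hu _).2 ⟨w, hw⟩
  have h2 : ∀ v, prj (fderiv ℝ ψ u) (G.P (ψ u) v) = G.P (ψ u) v := by
    intro v
    obtain ⟨w, hw⟩ := (G.P_range U ψ O κ h u hu _).1 (G.P_idem _ hx v)
    rw [← hw, prj_apply_apply hA]
  refine ContinuousLinearMap.ext fun v => ext_inner_right ℝ fun w => ?_
  rw [← h2 v, prj_inner hA, G.P_sa _ hx, h1 w, ← prj_inner hA]

theorem exists_chart {x : En M} (hx : x ∈ G.carrier) :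
    ∃ (U : Set (En n)) (ψ : En n → En M) (O : Set (En M)) (κ : En M → En n),
      IsChart G.carrier U ψ O κ ∧ x ∈ O ∧ ∀ y ∈ O, κ y ∈ U := by
  obtain ⟨U, ψ, O, κ, h, hO⟩ := G.chart x hx
  exact ⟨U, ψ, O ∩ κ ⁻¹' U, κ, h.shrink, ⟨hO, h.mapsκ x ⟨hx, hO⟩⟩, fun y hy => hy.2⟩

theorem P_eq_fderiv {U : Set (En n)} {ψ : En n → En M} {O : Set (En M)} {κ : En M → En n}
    (h : IsChart G.carrier U ψ O κ) {u : En n} (hu : u ∈ U) (v : En M) :
    ∃ w : En n, fderiv ℝ ψ u w = G.P (ψ u) v := by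
  rw [G.P_chart h hu]
  exact prj_mem_range _ v

theorem P_fderiv {U : Set (En n)} {ψ : En n → En M} {O : Set (En M)} {κ : En M → En n}
    (h : IsChart G.carrier U ψ O κ) {u : En n} (hu : u ∈ U) (w : En n) :
    G.P (ψ u) (fderiv ℝ ψ u w) = fderiv ℝ ψ u w := by
  exact (G.P_range U ψ O κ h u hu _).2 ⟨w, rfl⟩

/-- Tangential derivatives depend only on the values on `V`. -/
theorem fderiv_tan {F : Type*} [NormedAddCommGroup F] [NormedSpace ℝ F] {f g : En M → F}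
    {x : En M} (hx : x ∈ G.carrier) (hf : DifferentiableAt ℝ f x) (hg : DifferentiableAt ℝ g x)
    (hfg : ∀ᶠ y in 𝓝[G.carrier] x, f y = g y) (v : En M) :
    fderiv ℝ f x (G.P x v) = fderiv ℝ g x (G.P x v) := by
  obtain ⟨U, ψ, O, κ, h, hO, hκ⟩ := G.exists_chart hx
  have hu : κ x ∈ U := hκ x hO
  have hψ : ψ (κ x) = x := h.right x ⟨hx, hO⟩
  obtain ⟨w, hw⟩ := G.P_eq_fderiv h hu v
  rw [hψ] at hw
  have hd : DifferentiableAt ℝ ψ (κ x) := h.differentiableAt_ψ hu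
  have key : ∀ k : En M → F, DifferentiableAt ℝ k x →
      fderiv ℝ (fun a => k (ψ a)) (κ x) w = fderiv ℝ k x (G.P x v) := by
    intro k hk
    have hk' : DifferentiableAt ℝ k (ψ (κ x)) := by rw [hψ]; exact hk
    have h1 : fderiv ℝ (k ∘ ψ) (κ x) = (fderiv ℝ k (ψ (κ x))).comp (fderiv ℝ ψ (κ x)) :=
      fderiv_comp (κ x) hk' hd
    rw [← hw]
    have h2 : fderiv ℝ (fun a => k (ψ a)) (κ x) = (fderiv ℝ k (ψ (κ x))).comp (fderiv ℝ ψ (κ x)) :=
      h1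
    rw [h2, ContinuousLinearMap.comp_apply, hψ]
  have ht : Tendsto ψ (𝓝 (κ x)) (𝓝[G.carrier] x) := by
    rw [tendsto_nhdsWithin_iff]
    refine ⟨?_, ?_⟩
    · have := hd.continuousAt.tendsto
      rwa [hψ] at this
    · filter_upwards [h.openU.mem_nhds hu] with a ha
      exact h.mem_V ha
  have he : (fun a => f (ψ a)) =ᶠ[𝓝 (κ x)] fun a => g (ψ a) := ht.eventually hfg
  rw [← key f hf, ← key g hg, he.fderiv_eq]

/-- The derivative of a map to another submanifold is tangential. -/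
theorem fderiv_maps {n' M' : ℕ} (G' : Geo n' M') {f : En M → En M'}
    {x : En M} (hx : x ∈ G.carrier) (hf : DifferentiableAt ℝ f x)
    (hm : ∀ᶠ y in 𝓝[G.carrier] x, f y ∈ G'.carrier) (v : En M) :
    G'.P (f x) (fderiv ℝ f x (G.P x v)) = fderiv ℝ f x (G.P x v) := by
  obtain ⟨U, ψ, O, κ, h, hO, hκ⟩ := G.exists_chart hx
  have hfx : f x ∈ G'.carrier := hm.self_of_nhdsWithin hx
  obtain ⟨U', ψ', O', κ', h', hO', hκ'⟩ := G'.exists_chart hfx
  have hu : κ x ∈ U := hκ x hO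
  have hψ : ψ (κ x) = x := h.right x ⟨hx, hO⟩
  have hu' : κ' (f x) ∈ U' := hκ' _ hO'
  have hψ' : ψ' (κ' (f x)) = f x := h'.right _ ⟨hfx, hO'⟩
  obtain ⟨w, hw⟩ := G.P_eq_fderiv h hu v
  rw [hψ] at hw
  have hd : DifferentiableAt ℝ ψ (κ x) := h.differentiableAt_ψ hu
  have ht : Tendsto ψ (𝓝 (κ x)) (𝓝[G.carrier] x) := by
    rw [tendsto_nhdsWithin_iff]
    refine ⟨?_, ?_⟩
    · have := hd.continuousAt.tendsto
      rwa [hψ] at this
    · filter_upwards [h.openU.mem_nhds hu] with a ha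
      exact h.mem_V ha
  have hf' : DifferentiableAt ℝ f (ψ (κ x)) := by rw [hψ]; exact hf
  have hfψ : DifferentiableAt ℝ (fun a => f (ψ a)) (κ x) := hf'.comp (κ x) hd
  have h1 : fderiv ℝ (fun a => f (ψ a)) (κ x) w = fderiv ℝ f x (G.P x v) := by
    have h2 : fderiv ℝ (f ∘ ψ) (κ x) = (fderiv ℝ f (ψ (κ x))).comp (fderiv ℝ ψ (κ x)) :=
      fderiv_comp (κ x) hf' hd
    have h3 : fderiv ℝ (fun a => f (ψ a)) (κ x) = (fderiv ℝ f (ψ (κ x))).comp (fderiv ℝ ψ (κ x)) :=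
      h2
    rw [h3, ContinuousLinearMap.comp_apply, hψ, hw]
  have hκd : DifferentiableAt ℝ κ' (f (ψ (κ x))) := by
    rw [hψ]
    exact h'.differentiableAt_κ hO'
  have hh : DifferentiableAt ℝ (fun a => κ' (f (ψ a))) (κ x) := hκd.comp (κ x) hfψ
  have hO2 : ∀ᶠ a in 𝓝 (κ x), f (ψ a) ∈ O' := by
    have h4 : Tendsto (fun a => f (ψ a)) (𝓝 (κ x)) (𝓝 (f x)) := by
      have := hfψ.continuousAt.tendsto
      rwa [hψ] at this
    exact h4.eventually (h'.openO.mem_nhds hO')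
  have he : (fun a => f (ψ a)) =ᶠ[𝓝 (κ x)] fun a => ψ' (κ' (f (ψ a))) := by
    filter_upwards [ht.eventually hm, hO2] with a ha hb
    exact (h'.right _ ⟨ha, hb⟩).symm
  have hp : DifferentiableAt ℝ ψ' (κ' (f (ψ (κ x)))) := by
    rw [hψ]
    exact h'.differentiableAt_ψ hu'
  have h5 : fderiv ℝ (fun a => ψ' (κ' (f (ψ a)))) (κ x) =
      (fderiv ℝ ψ' (κ' (f (ψ (κ x))))).comp (fderiv ℝ (fun a => κ' (f (ψ a))) (κ x)) :=
    fderiv_comp (κ x) hp hh
  have h6 : fderiv ℝ f x (G.P x v) =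
      fderiv ℝ ψ' (κ' (f x)) (fderiv ℝ (fun a => κ' (f (ψ a))) (κ x) w) := by
    rw [← h1, he.fderiv_eq, h5, ContinuousLinearMap.comp_apply, hψ]
  have h7 := (G'.P_range U' ψ' O' κ' h' _ hu' (fderiv ℝ f x (G.P x v))).2 ⟨_, h6.symm⟩
  rwa [hψ'] at h7

end Geo

end Pool.Agent.EXO
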