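import Mathlib
import Pool.Agent.EXO.SuTan

/-!
# EXO / SuTanB: the projection and its tangential derivatives

PROOFS.
* `trace_P`: `trace_prj` and `LinearMap.trace_eq_matrix_trace` for the standard basis
  (or `LinearMap.trace_eq_sum_inner`), after `P_chart`.
* `fderiv_P_sa`: `fderiv_tan` applied to the functions `y ↦ ⟪G.P y v, w⟫` and `y ↦ ⟪v, G.P y w⟫`.
* `fderiv_P_mul`: `fderiv_tan` applied to `y ↦ G.P y (G.P y v)` and `y ↦ G.P y v`, product rule.
* `P_fderiv_P_P`: apply `P x` to `fderiv_P_mul` for `P x w`: `P D P + P P D P = P D P`, where `D = fderiv ℝ G.P x (P x v)`.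
* `fderiv_P_symm`: in a chart let `A a = fderiv ℝ ψ a`.  For `a` near `u`: `P (ψ a) (A a w) = A a w` (`P_range`).
  Differentiate at `u` in the direction `z`:
  `(fderiv ℝ G.P x (A u z)) (A u w) + P x (fderiv ℝ A u z w) = fderiv ℝ A u z w`.  The second derivative
  `fderiv ℝ (fderiv ℝ ψ) u` is symmetric (`ContDiffAt.isSymmSndFDerivAt`), so
  `(fderiv ℝ G.P x (A u z)) (A u w)` is symmetric in `z`, `w`; write `P x v = A u z`, `P x w' = A u w`.
-/

set_option autoImplicit false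

open Set Filter Topology MeasureTheory
open scoped ContDiff ENNReal

namespace Pool.Agent.EXO

namespace Geo

variable {n M : ℕ} (G : Geo n M)

theorem trace_P {x : En M} (hx : x ∈ G.carrier) : ∑ a, G.P x (bv a) a = n := by
  obtain ⟨U, ψ, O, κ, h, hO, hκ⟩ := G.exists_chart hx
  have hu : κ x ∈ U := hκ x hO
  have hψ : ψ (κ x) = x := h.right x ⟨hx, hO⟩
  have hA : Function.Injective (fderiv ℝ ψ (κ x)) := h.injective hu
  have h1 : G.P x = prj (fderiv ℝ ψ (κ x)) := by
    have := G.P_chart h hu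
    rwa [hψ] at this
  have h2 := trace_prj hA
  rw [← h1, LinearMap.trace_eq_sum_inner _ (EuclideanSpace.basisFun (Fin M) ℝ)] at h2
  rw [← h2]
  refine Finset.sum_congr rfl fun a _ => ?_
  simp [bv, EuclideanSpace.inner_single_left]

theorem SuTanB_dP (x : En M) : DifferentiableAt ℝ G.P x :=
  (G.smoothP.differentiable (by simp)) x

theorem SuTanB_app (x v w : En M) :
    fderiv ℝ (fun y => G.P y v) x w = fderiv ℝ G.P x w v := by
  have h1 := (ContinuousLinearMap.apply ℝ (En M) v).hasFDerivAt.comp x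
    (G.SuTanB_dP x).hasFDerivAt
  have h2 : HasFDerivAt (fun y => G.P y v) _ x := h1
  rw [h2.fderiv]
  rfl

theorem SuTanB_dapp (x v : En M) : DifferentiableAt ℝ (fun y => G.P y v) x :=
  (G.SuTanB_dP x).clm_apply (differentiableAt_const v)

theorem fderiv_P_sa {x : En M} (hx : x ∈ G.carrier) (u v w : En M) :
    inner ℝ (fderiv ℝ G.P x (G.P x u) v) w = inner ℝ v (fderiv ℝ G.P x (G.P x u) w) := by
  have h1 : ∀ z : En M, fderiv ℝ (fun y => inner ℝ (G.P y v) w) x z =
      inner ℝ (fderiv ℝ G.P x z v) w := by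
    intro z
    rw [fderiv_inner_apply ℝ (G.SuTanB_dapp x v) (differentiableAt_const w)]
    rw [G.SuTanB_app x v z]
    simp
  have h2 : ∀ z : En M, fderiv ℝ (fun y => inner ℝ v (G.P y w)) x z =
      inner ℝ v (fderiv ℝ G.P x z w) := by
    intro z
    rw [fderiv_inner_apply ℝ (differentiableAt_const v) (G.SuTanB_dapp x w)]
    rw [G.SuTanB_app x w z]
    simp
  have h3 := G.fderiv_tan hx (f := fun y => inner ℝ (G.P y v) w) (g := fun y => inner ℝ v (G.P y w))
    ((G.SuTanB_dapp x v).inner ℝ (differentiableAt_const w))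
    ((differentiableAt_const v).inner ℝ (G.SuTanB_dapp x w))
    (by
      filter_upwards [self_mem_nhdsWithin] with y hy
      exact G.P_sa y hy v w) u
  rw [h1, h2] at h3
  exact h3

theorem fderiv_P_mul {x : En M} (hx : x ∈ G.carrier) (v w : En M) :
    fderiv ℝ G.P x (G.P x v) (G.P x w) + G.P x (fderiv ℝ G.P x (G.P x v) w)
      = fderiv ℝ G.P x (G.P x v) w := by
  have h1 : ∀ z : En M, fderiv ℝ (fun y => G.P y (G.P y w)) x z =
      fderiv ℝ G.P x z (G.P x w) + G.P x (fderiv ℝ G.P x z w) := by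
    intro z
    have h2 := ((G.SuTanB_dP x).hasFDerivAt.clm_apply (G.SuTanB_dapp x w).hasFDerivAt)
    have h3 : HasFDerivAt (fun y => G.P y (G.P y w)) _ x := h2
    rw [h3.fderiv]
    simp only [ContinuousLinearMap.add_apply, ContinuousLinearMap.comp_apply,
      ContinuousLinearMap.flip_apply, G.SuTanB_app x w z]
    abel
  have h4 := G.fderiv_tan hx (f := fun y => G.P y (G.P y w)) (g := fun y => G.P y w)
    ((G.SuTanB_dP x).clm_apply (G.SuTanB_dapp x w)) (G.SuTanB_dapp x w)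
    (by
      filter_upwards [self_mem_nhdsWithin] with y hy
      exact G.P_idem y hy w) v
  rw [h1, G.SuTanB_app x w] at h4
  exact h4

theorem P_fderiv_P_P {x : En M} (hx : x ∈ G.carrier) (v w : En M) :
    G.P x (fderiv ℝ G.P x (G.P x v) (G.P x w)) = 0 := by
  have h1 := congrArg (G.P x) (G.fderiv_P_mul hx v (G.P x w))
  rw [map_add, G.P_idem x hx w, G.P_idem x hx (fderiv ℝ G.P x (G.P x v) (G.P x w))] at h1
  exact add_eq_left.1 h1

/-- Symmetry of the second fundamental form. -/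
theorem fderiv_P_symm {x : En M} (hx : x ∈ G.carrier) (v w : En M) :
    fderiv ℝ G.P x (G.P x v) (G.P x w) = fderiv ℝ G.P x (G.P x w) (G.P x v) := by
  obtain ⟨U, ψ, O, κ, h, hO, hκ⟩ := G.exists_chart hx
  have hu : κ x ∈ U := hκ x hO
  have hψ : ψ (κ x) = x := h.right x ⟨hx, hO⟩
  obtain ⟨z, hz⟩ := G.P_eq_fderiv h hu v
  obtain ⟨z', hz'⟩ := G.P_eq_fderiv h hu w
  rw [hψ] at hz hz'
  have hd : DifferentiableAt ℝ ψ (κ x) := h.differentiableAt_ψ hu
  have hdd : DifferentiableAt ℝ (fderiv ℝ ψ) (κ x) :=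
    (h.contDiffAt_fderiv_ψ hu).differentiableAt (by simp)
  have hsym : IsSymmSndFDerivAt ℝ ψ (κ x) :=
    (h.contDiffAt_ψ hu).isSymmSndFDerivAt (by
      rw [minSmoothness_of_isRCLikeNormedField]
      exact WithTop.coe_le_coe.2 le_top)
  have key : ∀ a b : En n, fderiv ℝ G.P x (fderiv ℝ ψ (κ x) a) (fderiv ℝ ψ (κ x) b) +
      G.P x (fderiv ℝ (fderiv ℝ ψ) (κ x) a b) = fderiv ℝ (fderiv ℝ ψ) (κ x) a b := by
    intro a b
    have hPd : DifferentiableAt ℝ G.P (ψ (κ x)) := G.SuTanB_dP _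
    have hP1 : HasFDerivAt (fun y => G.P (ψ y)) ((fderiv ℝ G.P (ψ (κ x))).comp
        (fderiv ℝ ψ (κ x))) (κ x) := hPd.hasFDerivAt.comp (κ x) hd.hasFDerivAt
    have hb : HasFDerivAt (fun y => fderiv ℝ ψ y b)
        ((ContinuousLinearMap.apply ℝ (En M) b).comp (fderiv ℝ (fderiv ℝ ψ) (κ x))) (κ x) :=
      (ContinuousLinearMap.apply ℝ (En M) b).hasFDerivAt.comp (κ x) hdd.hasFDerivAt
    have hb' := hb.fderiv
    have h3 : HasFDerivAt (fun y => G.P (ψ y) (fderiv ℝ ψ y b)) _ (κ x) := hP1.clm_apply hb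
    have he : (fun y => G.P (ψ y) (fderiv ℝ ψ y b)) =ᶠ[𝓝 (κ x)] fun y => fderiv ℝ ψ y b := by
      filter_upwards [h.openU.mem_nhds hu] with y hy
      exact G.P_fderiv h hy b
    have h4 : fderiv ℝ (fun y => G.P (ψ y) (fderiv ℝ ψ y b)) (κ x) =
        fderiv ℝ (fun y => fderiv ℝ ψ y b) (κ x) := he.fderiv_eq
    rw [h3.fderiv, hb'] at h4
    have h5 := congrArg (fun L : En n →L[ℝ] En M => L a) h4
    simp only [ContinuousLinearMap.add_apply, ContinuousLinearMap.comp_apply,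
      ContinuousLinearMap.flip_apply, ContinuousLinearMap.apply_apply, hψ] at h5
    rw [add_comm] at h5
    exact h5
  have k1 := key z z'
  have k2 := key z' z
  have hs : fderiv ℝ (fderiv ℝ ψ) (κ x) z z' = fderiv ℝ (fderiv ℝ ψ) (κ x) z' z := hsym z z'
  rw [hs] at k1
  rw [← hz, ← hz']
  exact add_right_cancel (k1.trans k2.symm)

end Geo

end Pool.Agent.EXO
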