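import Mathlib
import Pool.Agent.EXO.SuTanB
import Pool.Agent.EXO.SuDet
import Pool.Agent.EXO.SuHv

/-!
# EXO / SuDiv: the divergence of a tangential projection in a chart

Let `ξ u = G(u)⁻¹ A(u)† v`, where `A = fderiv ℝ ψ u`, `G = gramL A`; so `A(u) (ξ u) = prj A v = P (ψ u) v`.

PROOFS.
* `smooth_xi`: `Ring.inverse` is smooth at units (`contDiffAt_ringInverse`), `gramL A = A† ∘ A` is smooth in `A`
  (see `contDiffAt_prj` in SuLin), `A = fderiv ℝ ψ u` is smooth on `U`.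
* `fderiv_ψ_xi`: `prj A = A ∘ G⁻¹ ∘ A†` by definition, and `P_chart`.
* `div_xi`: write `A⁺ = G⁻¹ ∘ A†` (so `A⁺ ∘ A = id` and `A ∘ A⁺ = prj A = P`, `x = ψ u`), `S z = fderiv ℝ (fderiv ℝ ψ) u z`
  (a linear map `En n → En M`; `S z w = S w z` by `ContDiffAt.isSymmSndFDerivAt`), `ρ u = volF (fderiv ℝ ψ u)`.
  (1) Differentiate `A(u) (ξ u) = P (ψ u) v` in the direction `z` (chain rule):
      `(fderiv ℝ G.P x (A z)) v = S z ξ + A (Dξ z)`, where `Dξ = fderiv ℝ ξ u`.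
  (2) Apply `⟪e_i, A⁺ ·⟫` with `z = e_i` and add up:
      `∑ i, ⟪e_i, A⁺ ((fderiv ℝ G.P x (A e_i)) v)⟫ = ∑ i, ⟪e_i, A⁺ (S e_i ξ)⟫ + ∑ i, ⟪e_i, Dξ e_i⟫`.
  (3) The left side is the trace of the endomorphism `A⁺ ∘ T ∘ A` of `En n`, `T y = (fderiv ℝ G.P x y) v`, hence the
      trace of `T ∘ A ∘ A⁺ = T ∘ P` (`LinearMap.trace_comp_comm'`), which is
      `∑ b, ⟪e_b, (fderiv ℝ G.P x (P e_b)) v⟫ = ∑ b, ⟪(fderiv ℝ G.P x (P e_b)) e_b, v⟫ = ⟪Hv x, v⟫` (`fderiv_P_sa`).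
  (4) `fderiv ℝ ρ u z = ρ u * trace (A⁺ ∘ S z)` by `fderiv_volF` and the chain rule
      (`contDiffAt_volF`), so `∑ i, (fderiv ℝ ρ u e_i) * (ξ u) i = ρ u * trace (A⁺ ∘ S ξ)` by linearity
      `= ρ u * ∑ i, ⟪e_i, A⁺ (S ξ e_i)⟫ = ρ u * ∑ i, ⟪e_i, A⁺ (S e_i ξ)⟫` by the symmetry of `S`.
  (5) product rule: `∑ i, (fderiv ℝ (ρ • ξ) u e_i) i = ∑ i, (fderiv ℝ ρ u e_i) * ξ i + ρ u * ∑ i, (Dξ e_i) i`.
      Combine.
-/

set_option autoImplicit false

open Set Filter Topology MeasureTheory ContinuousLinearMap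
open scoped ContDiff ENNReal

namespace Pool.Agent.EXO

/-- The components of the projection of `v` in the coordinates of a chart. -/
noncomputable def xi {n M : ℕ} (ψ : En n → En M) (v : En M) (u : En n) : En n :=
  Ring.inverse (gramL (fderiv ℝ ψ u)) (adjoint (fderiv ℝ ψ u) v)

theorem IsChart.smooth_xi {n M : ℕ} {V : Set (En M)} {U : Set (En n)} {ψ : En n → En M}
    {O : Set (En M)} {κ : En M → En n} (h : IsChart V U ψ O κ) (v : En M) :
    ContDiffOn ℝ ∞ (xi ψ v) U := by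
  intro u hu
  have hA := h.injective hu
  have h1 : ContDiff ℝ ∞ (fun B : En n →L[ℝ] En M => adjoint B) :=
    (adjoint (𝕜 := ℝ) (E := En n) (F := En M)).toContinuousLinearEquiv.contDiff
  have h2 : ContDiff ℝ ∞ (fun B : En n →L[ℝ] En M => gramL B) := h1.clm_comp contDiff_id
  have h3 : ContDiffAt ℝ ∞ (fun B : En n →L[ℝ] En M => Ring.inverse (gramL B))
      (fderiv ℝ ψ u) := by
    obtain ⟨w, hw⟩ := isUnit_gramL hA
    have h4 : ContDiffAt ℝ ∞ Ring.inverse (gramL (fderiv ℝ ψ u)) := by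
      rw [← hw]
      exact contDiffAt_ringInverse ℝ w
    exact h4.comp (fderiv ℝ ψ u) h2.contDiffAt
  have h5 : ContDiffAt ℝ ∞ (fun B : En n →L[ℝ] En M =>
      Ring.inverse (gramL B) (adjoint B v)) (fderiv ℝ ψ u) :=
    h3.clm_apply (h1.contDiffAt.clm_apply contDiffAt_const)
  exact (h5.comp u (h.contDiffAt_fderiv_ψ hu)).contDiffWithinAt

theorem IsChart.smooth_volF {n M : ℕ} {V : Set (En M)} {U : Set (En n)} {ψ : En n → En M}
    {O : Set (En M)} {κ : En M → En n} (h : IsChart V U ψ O κ) :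
    ContDiffOn ℝ ∞ (fun u => volF (fderiv ℝ ψ u)) U := by
  intro u hu
  exact ((contDiffAt_volF (h.injective hu)).comp u (h.contDiffAt_fderiv_ψ hu)).contDiffWithinAt

theorem Geo.fderiv_ψ_xi {n M : ℕ} (G : Geo n M) {U : Set (En n)} {ψ : En n → En M}
    {O : Set (En M)} {κ : En M → En n} (h : IsChart G.carrier U ψ O κ) (v : En M) {u : En n}
    (hu : u ∈ U) : fderiv ℝ ψ u (xi ψ v u) = G.P (ψ u) v := by
  rw [G.P_chart h hu]
  rfl

private theorem sudiv_trace {m : ℕ} (T : En m →L[ℝ] En m) :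
    LinearMap.trace ℝ (En m) (T : En m →ₗ[ℝ] En m) = ∑ i, T (bv i) i := by
  rw [LinearMap.trace_eq_sum_inner _ (EuclideanSpace.basisFun (Fin m) ℝ)]
  refine Finset.sum_congr rfl fun i _ => ?_
  rw [EuclideanSpace.basisFun_apply]
  exact Geo.inner_bv i _

theorem Geo.div_xi {n M : ℕ} (G : Geo n M) {U : Set (En n)} {ψ : En n → En M}
    {O : Set (En M)} {κ : En M → En n} (h : IsChart G.carrier U ψ O κ) (v : En M) {u : En n}
    (hu : u ∈ U) :
    ∑ i, fderiv ℝ (fun w => volF (fderiv ℝ ψ w) • xi ψ v w) u (bv i) i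
      = volF (fderiv ℝ ψ u) * inner ℝ (G.Hv (ψ u)) v := by
  have hinj := h.injective hu
  obtain ⟨A, hA⟩ : ∃ A, A = fderiv ℝ ψ u := ⟨_, rfl⟩
  obtain ⟨Ap, hAp⟩ : ∃ Ap : En M →L[ℝ] En n, Ap = Ring.inverse (gramL A) ∘L adjoint A :=
    ⟨_, rfl⟩
  obtain ⟨S, hS⟩ : ∃ S, S = fderiv ℝ (fderiv ℝ ψ) u := ⟨_, rfl⟩
  obtain ⟨D, hD⟩ : ∃ D, D = fderiv ℝ (xi ψ v) u := ⟨_, rfl⟩
  obtain ⟨R, hR⟩ : ∃ R, R = fderiv ℝ (fun w => volF (fderiv ℝ ψ w)) u := ⟨_, rfl⟩
  have hUn := h.openU.mem_nhds hu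
  have hψ2 : HasFDerivAt (fderiv ℝ ψ) S u := by
    rw [hS]
    exact ((h.contDiffAt_fderiv_ψ hu).differentiableAt (by simp)).hasFDerivAt
  have hψ1 : HasFDerivAt ψ A u := by
    rw [hA]
    exact (h.differentiableAt_ψ hu).hasFDerivAt
  have hξ : HasFDerivAt (xi ψ v) D u := by
    rw [hD]
    exact (((h.smooth_xi v).contDiffAt hUn).differentiableAt (by simp)).hasFDerivAt
  have hρ : HasFDerivAt (fun w => volF (fderiv ℝ ψ w)) R u := by
    rw [hR]
    exact ((h.smooth_volF.contDiffAt hUn).differentiableAt (by simp)).hasFDerivAt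
  have hP : HasFDerivAt G.P (fderiv ℝ G.P (ψ u)) (ψ u) :=
    (G.smoothP.differentiable (by simp) _).hasFDerivAt
  rw [← hA] at hinj
  have hApA : ∀ z, Ap (A z) = z := by
    intro z
    have h1 : Ring.inverse (gramL A) * gramL A = 1 := Ring.inverse_mul_cancel _ (isUnit_gramL hinj)
    rw [hAp]
    exact congrArg (fun B : En n →L[ℝ] En n => B z) h1
  have hAAp : ∀ w, A (Ap w) = G.P (ψ u) w := by
    intro w
    rw [G.P_chart h hu, ← hA, hAp]
    rfl
  -- (1)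
  have e1 : ∀ z, fderiv ℝ G.P (ψ u) (A z) v = S z (xi ψ v u) + A (D z) := by
    intro z
    have h1 := hψ2.clm_apply hξ
    have h2 := (hP.comp u hψ1).clm_apply (hasFDerivAt_const v u)
    have h3 : (fun w => fderiv ℝ ψ w (xi ψ v w)) =ᶠ[𝓝 u] fun w => (G.P ∘ ψ) w v := by
      filter_upwards [hUn] with w hw
      exact G.fderiv_ψ_xi h v hw
    have h4 := (h2.congr_of_eventuallyEq h3).unique h1
    have h5 := congrArg (fun B : En n →L[ℝ] En M => B z) h4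
    simp only [_root_.add_apply, ContinuousLinearMap.comp_apply,
      ContinuousLinearMap.flip_apply, _root_.zero_apply, map_zero, zero_add] at h5
    rw [h5, add_comm, ← hA]
  -- symmetry of the second derivative
  have hsymm : ∀ z w, S z w = S w z := by
    intro z w
    have h1 : IsSymmSndFDerivAt ℝ ψ u := (h.contDiffAt_ψ hu).isSymmSndFDerivAt (by
      rw [minSmoothness_of_isRCLikeNormedField]
      exact WithTop.coe_le_coe.mpr (le_top : (2 : ℕ∞) ≤ ⊤))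
    rw [hS]
    exact h1 z w
  -- (4)
  have e4 : ∀ z, R z = volF A * ∑ i, Ap (S z (bv i)) i := by
    intro z
    have h1 : HasFDerivAt (fun w => volF (fderiv ℝ ψ w)) ((fderiv ℝ volF A).comp S) u := by
      have h2 : HasFDerivAt volF (fderiv ℝ volF A) (fderiv ℝ ψ u) := by
        rw [hA]
        rw [hA] at hinj
        exact ((contDiffAt_volF hinj).differentiableAt (by simp)).hasFDerivAt
      exact h2.comp u hψ2
    rw [hρ.unique h1]
    change fderiv ℝ volF A (S z) = _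
    rw [fderiv_volF hinj, sudiv_trace, hAp]
    rfl
  -- left side
  have e5 : fderiv ℝ (fun w => volF (fderiv ℝ ψ w) • xi ψ v w) u =
      volF A • D + R.smulRight (xi ψ v u) := by
    rw [hA]
    exact (hρ.smul hξ).fderiv
  have e6 : ∑ i, fderiv ℝ (fun w => volF (fderiv ℝ ψ w) • xi ψ v w) u (bv i) i =
      volF A * ∑ i, D (bv i) i + R (xi ψ v u) := by
    rw [e5]
    have h1 : R (xi ψ v u) = ∑ i, (xi ψ v u) i * R (bv i) := by
      conv_lhs => rw [Geo.sum_bv (xi ψ v u)]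
      rw [map_sum]
      refine Finset.sum_congr rfl fun i _ => ?_
      rw [map_smul, smul_eq_mul]
    rw [h1, Finset.mul_sum, ← Finset.sum_add_distrib]
    refine Finset.sum_congr rfl fun i _ => ?_
    simp only [_root_.add_apply, ContinuousLinearMap.smulRight_apply,
      PiLp.add_apply, PiLp.smul_apply, smul_eq_mul]
    rw [mul_comm (R (bv i))]
    rfl
  -- (2), (3)
  have e7 : ∑ i, Ap (fderiv ℝ G.P (ψ u) (A (bv i)) v) i = inner ℝ (G.Hv (ψ u)) v := by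
    obtain ⟨T, hT⟩ : ∃ T : En M →L[ℝ] En M, T = (fderiv ℝ G.P (ψ u)).flip v := ⟨_, rfl⟩
    have h1 : ∑ i, Ap (fderiv ℝ G.P (ψ u) (A (bv i)) v) i =
        LinearMap.trace ℝ (En n) ((Ap ∘L (T ∘L A) : En n →L[ℝ] En n) : En n →ₗ[ℝ] En n) := by
      rw [sudiv_trace, hT]
      rfl
    have h2 : LinearMap.trace ℝ (En n) ((Ap ∘L (T ∘L A) : En n →L[ℝ] En n) : En n →ₗ[ℝ] En n) =
        LinearMap.trace ℝ (En M) (((T ∘L A) ∘L Ap : En M →L[ℝ] En M) : En M →ₗ[ℝ] En M) :=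
      LinearMap.trace_comp_comm' ((T ∘L A : En n →L[ℝ] En M) : En n →ₗ[ℝ] En M)
        (Ap : En M →ₗ[ℝ] En n)
    rw [h1, h2, sudiv_trace]
    unfold Geo.Hv
    rw [sum_inner]
    refine Finset.sum_congr rfl fun b _ => ?_
    have hx : ψ u ∈ G.carrier := h.mem_V hu
    rw [G.fderiv_P_sa hx (bv b) (bv b) v, Geo.inner_bv]
    change T (A (Ap (bv b))) b = _
    rw [hAAp, hT]
    rfl
  have e8 : ∑ i, Ap (fderiv ℝ G.P (ψ u) (A (bv i)) v) i =
      ∑ i, Ap (S (xi ψ v u) (bv i)) i + ∑ i, D (bv i) i := by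
    rw [← Finset.sum_add_distrib]
    refine Finset.sum_congr rfl fun i _ => ?_
    rw [e1, map_add, hApA, hsymm, PiLp.add_apply]
  rw [e6, e4, ← hA, ← e7, e8]
  ring

end Pool.Agent.EXO
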