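import Mathlib
import Pool.Agent.EXO.FmFAd

/-!
# EXO / SuDt: the top coefficient and the determinant

PROOFS.
* `co_univ_eq_inner`: `(x).co univ = inner ℂ (mon univ) x` (only the coordinate `univ` contributes; see `inner_mon`).
* `isDeg_top`: a form of degree `n` in `FA n` has only the coordinate `univ` (`Finset.card_eq_iff_eq_univ`).
* `prod_of1_top`: `(v ↦ (List.ofFn fun i => of1 (v i)).prod)` is alternating: `of1 : En n →ₗ[ℝ] FA n` satisfies
  `of1 v * of1 v = 0` (`of1_mul_self`), so it extends to an algebra homomorphism `Φ` of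
  `ExteriorAlgebra ℝ (En n)` (`ExteriorAlgebra.lift`), and `Φ (ExteriorAlgebra.ιMulti ℝ n v)` is the product
  (`ExteriorAlgebra.ιMulti_apply`, `map_list_prod`).  Compose with the real linear maps `x ↦ (x.co univ).re`, `.im`: two
  alternating maps `En n [⋀^Fin n]→ₗ[ℝ] ℝ`; `AlternatingMap.eq_smul_basis_det` for the standard basis `bv`
  (`EuclideanSpace.basisFun .. .toBasis`): the values at the basis are `1` and `0` (`mon_univ`, `of1_bv`), so the
  product has the top coefficient `det` = `(EuclideanSpace.basisFun (Fin n) ℝ).toBasis.det v`, and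
  `Basis.det v = LinearMap.det` of `ofVec v` (`LinearMap.det_toMatrix`, `Basis.det_apply`, or `Basis.det_comp`/
  `LinearMap.det` formula `Basis.det_comp_basis`/`AlternatingMap.map_basis`).
* `FAMap_top`: `FAMap L x` has the top coefficient
  `inner ℂ (mon univ) (FAMap L x) = inner ℂ (FAMap (adjoint L) (mon univ)) x` (`inner_FAMap`), and
  `FAMap (adjoint L) (mon univ) = (List.ofFn fun i => of1 (L (bv i))).prod` (`prod_of1_eq`: `ofVec (fun i => L (bv i)) = L`)
  `= det L • mon univ` by `prod_of1_top` and `isDeg_top` (`isDeg_prod_of1`).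
-/

set_option autoImplicit false
set_option maxSynthPendingDepth 3

open Set Filter Topology MeasureTheory
open scoped ContDiff ENNReal

namespace Pool.Agent.EXO

theorem co_univ_eq_inner {n : ℕ} (x : FA n) :
    x.co Finset.univ = inner ℂ (mon Finset.univ) x := by
  conv_rhs => rw [sum_mon x]
  rw [inner_sum, Finset.sum_eq_single Finset.univ]
  · rw [inner_smul_right, inner_mon, if_pos rfl, mul_one]
  · intro S _ hS
    rw [inner_smul_right, inner_mon, if_neg (Ne.symm hS), mul_zero]
  · intro h
    exact absurd (Finset.mem_univ _) h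

theorem isDeg_top {n : ℕ} {x : FA n} (hx : x.IsDeg n) :
    x = x.co Finset.univ • mon Finset.univ := by
  refine FA.ext fun I => ?_
  rw [FA.co_smul, mon_co]
  by_cases hI : I = Finset.univ
  · rw [if_pos hI, mul_one, hI]
  · rw [if_neg hI, mul_zero]
    apply hx
    intro hc
    apply hI
    rw [← Finset.card_eq_iff_eq_univ, hc, Fintype.card_fin]

private noncomputable def SuDt_of1L (n : ℕ) : En n →ₗ[ℝ] FA n where
  toFun := of1
  map_add' := of1_add
  map_smul' r v := by
    rw [of1_smul]
    rfl

private theorem SuDt_sq {n : ℕ} (v : En n) : SuDt_of1L n v * SuDt_of1L n v = 0 := of1_mul_self v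

private noncomputable def SuDt_alt (n : ℕ) : En n [⋀^Fin n]→ₗ[ℝ] FA n :=
  (ExteriorAlgebra.lift ℝ ⟨SuDt_of1L n, SuDt_sq⟩).toLinearMap.compAlternatingMap
    (ExteriorAlgebra.ιMulti ℝ n)

private theorem SuDt_alt_apply {n : ℕ} (v : Fin n → En n) :
    SuDt_alt n v = (List.ofFn fun i => of1 (v i)).prod := by
  unfold SuDt_alt
  rw [LinearMap.compAlternatingMap_apply, ExteriorAlgebra.ιMulti_apply, AlgHom.toLinearMap_apply,
    map_list_prod, List.map_ofFn]
  congr 2
  funext i
  rw [Function.comp_apply, ExteriorAlgebra.lift_ι_apply]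
  rfl

private noncomputable def SuDt_co (n : ℕ) : FA n →ₗ[ℝ] ℂ where
  toFun x := x.co Finset.univ
  map_add' _ _ := rfl
  map_smul' _ _ := rfl

private theorem SuDt_basis {n : ℕ} (i : Fin n) :
    (EuclideanSpace.basisFun (Fin n) ℝ).toBasis i = bv i := by
  rw [OrthonormalBasis.coe_toBasis, EuclideanSpace.basisFun_apply]
  rfl

theorem prod_of1_top {n : ℕ} (v : Fin n → En n) :
    ((List.ofFn fun i => of1 (v i)).prod).co Finset.univ = ((ofVec v).det : ℂ) := by
  obtain ⟨e, he⟩ : ∃ e : Module.Basis (Fin n) ℝ (En n), ∀ i, e i = bv i :=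
    ⟨(EuclideanSpace.basisFun (Fin n) ℝ).toBasis, SuDt_basis⟩
  have hdet : e.det v = (ofVec v).det := by
    have h1 := e.det_comp (ofVec v).toLinearMap e
    rw [Module.Basis.det_self, mul_one] at h1
    have h2 : ((ofVec v).toLinearMap ∘ e) = v := by
      funext i
      rw [Function.comp_apply, he]
      exact ofVec_bv v i
    rw [h2] at h1
    exact h1
  have hval : ((SuDt_co n).compAlternatingMap (SuDt_alt n)) e = 1 := by
    rw [LinearMap.compAlternatingMap_apply, SuDt_alt_apply]
    have h1 : (List.ofFn fun i => of1 (e i)).prod = mon Finset.univ := by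
      rw [mon_univ]
      congr 2
      funext i
      rw [he, of1_bv]
    rw [h1]
    show (mon Finset.univ).co Finset.univ = 1
    rw [mon_co, if_pos rfl]
  have hre := (Complex.reLm.compAlternatingMap
    ((SuDt_co n).compAlternatingMap (SuDt_alt n))).eq_smul_basis_det e
  have him := (Complex.imLm.compAlternatingMap
    ((SuDt_co n).compAlternatingMap (SuDt_alt n))).eq_smul_basis_det e
  have hre' := congrArg (fun F => F v) hre
  have him' := congrArg (fun F => F v) him
  simp only [AlternatingMap.smul_apply] at hre' him'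
  have hc : ∀ (F : ℂ →ₗ[ℝ] ℝ), (F.compAlternatingMap ((SuDt_co n).compAlternatingMap (SuDt_alt n))) e =
      F 1 := by
    intro F
    rw [LinearMap.compAlternatingMap_apply, hval]
  rw [hc, hdet, LinearMap.compAlternatingMap_apply, LinearMap.compAlternatingMap_apply,
    SuDt_alt_apply] at hre' him'
  apply Complex.ext
  · rw [Complex.ofReal_re]
    have h3 : (((List.ofFn fun i => of1 (v i)).prod).co Finset.univ).re =
      Complex.reLm (SuDt_co n (List.ofFn fun i => of1 (v i)).prod) := rfl
    rw [h3, hre']
    show Complex.re 1 • (ofVec v).det = (ofVec v).det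
    simp
  · rw [Complex.ofReal_im]
    have h3 : (((List.ofFn fun i => of1 (v i)).prod).co Finset.univ).im =
      Complex.imLm (SuDt_co n (List.ofFn fun i => of1 (v i)).prod) := rfl
    rw [h3, him']
    show Complex.im 1 • (ofVec v).det = 0
    simp

/-- The top coefficient of the pullback under an endomorphism. -/
theorem FAMap_top {n : ℕ} (L : En n →L[ℝ] En n) (x : FA n) :
    (FAMap L x).co Finset.univ = (L.det : ℂ) * x.co Finset.univ := by
  have h1 : inner ℂ (mon Finset.univ) (FAMap L x) =
      inner ℂ (FAMap (ContinuousLinearMap.adjoint L) (mon Finset.univ)) x := by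
    rw [inner_FAMap, ContinuousLinearMap.adjoint_adjoint]
  have h2 : ofVec (fun i => L (bv i)) = L := by
    apply ContinuousLinearMap.coe_injective
    apply (EuclideanSpace.basisFun (Fin n) ℝ).toBasis.ext
    intro i
    rw [SuDt_basis]
    exact ofVec_bv _ i
  have h3 : FAMap (ContinuousLinearMap.adjoint L) (mon Finset.univ) =
      (L.det : ℂ) • mon Finset.univ := by
    have h4 := prod_of1_eq (fun i => L (bv i))
    rw [h2] at h4
    have h5 := isDeg_top (isDeg_prod_of1 (fun i => L (bv i)))
    rw [prod_of1_top, h2] at h5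
    rw [← h4, h5]
  rw [co_univ_eq_inner, h1, h3, inner_smul_left, ← co_univ_eq_inner, Complex.conj_ofReal]

end Pool.Agent.EXO
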