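import Pool.Agent.EXO.IbDef

/-!
Project EXO, chunk IDX-A, module IbGood: the facts about closed submanifolds which are used in
chunk IDX-A (they are proved in chunk SUB: `theorem geo_good`).
Author: helper26.
-/

set_option autoImplicit false
set_option maxSynthPendingDepth 3

open MeasureTheory Filter Topology
open scoped ContDiff

namespace Pool.Agent.EXO

variable {n M : ℕ}

/-- Locality of tangential derivatives. -/
def Geo.Loc (V : Geo n M) : Prop :=
  ∀ (F : Type) [NormedAddCommGroup F] [NormedSpace ℝ F] (f : En M → F), ContDiff ℝ 1 f →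
    (∀ x ∈ V.carrier, f x = 0) → ∀ x ∈ V.carrier, ∀ v, fderiv ℝ f x (V.P x v) = 0

/-- The components of the mean curvature vector. -/
noncomputable def Geo.Hm (V : Geo n M) (a : Fin M) (x : En M) : ℝ :=
  ∑ b, (fderiv ℝ V.P x (V.P x (bv b)) (bv a)) b

/-- Iterated tangential derivatives. -/
noncomputable def tdL (V : Geo n M) {F : Type} [NormedAddCommGroup F] [NormedSpace ℝ F] :
    List (Fin M) → (En M → F) → (En M → F)
  | [], f => f
  | a :: A, f => td V a (tdL V A f)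

/-- The facts about closed submanifolds used in chunk IDX-A. -/
structure Geo.Good (V : Geo n M) (l : ℕ) : Prop where
  dim : n = 2 * l
  loc : V.Loc
  /-- the trace of `P` -/
  trace : ∀ x ∈ V.carrier, ∑ a, (V.P x (bv a)) a = n
  /-- `(1 - P(x)) (x - y)` vanishes to the second order -/
  nor : ∃ c : Fin M → Fin M → (En M × En M → En M), (∀ a b, ContDiff ℝ ∞ (c a b)) ∧
    ∀ x ∈ V.carrier, ∀ y ∈ V.carrier,
      (x - y) - V.P x (x - y) = ∑ a, ∑ b, ((x a - y a) * (x b - y b)) • c a b (x, y)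
  pos : ∀ x ∈ V.carrier, ∀ r : ℝ, 0 < r → 0 < V.μ (Metric.ball x r)
  /-- integration by parts -/
  ibp : ∀ (F : Type) [NormedAddCommGroup F] [NormedSpace ℝ F] [CompleteSpace F] (f : En M → F),
    ContDiff ℝ ∞ f → ∀ a, ∫ x, td V a f x ∂V.μ = - ∫ x, V.Hm a x • f x ∂V.μ
  /-- the mean curvature vector is normal -/
  nrm : ∀ x ∈ V.carrier, V.P x (∑ a, V.Hm a x • bv a) = 0
  gauss : ∃ C : ℝ, ∀ x ∈ V.carrier, ∀ t ∈ Set.Ioc (0 : ℝ) 1,
    ∫ y, Real.exp (-(‖x - y‖ ^ 2) / (8 * t)) ∂V.μ ≤ C * t ^ l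
  lim : ∀ ε > (0 : ℝ), ∃ δ > (0 : ℝ), ∀ x ∈ V.carrier, ∀ t ∈ Set.Ioo (0 : ℝ) δ,
    |(4 * Real.pi * t)⁻¹ ^ l * (∫ y, Real.exp (-(‖x - y‖ ^ 2) / (4 * t)) ∂V.μ) - 1| ≤ ε
  /-- regularity from uniform bounds of all tangential derivatives -/
  reg : ∀ (F : Type) [NormedAddCommGroup F] [NormedSpace ℝ F] [FiniteDimensional ℝ F]
    (f : V.carrier → F),
    (∀ r : ℕ, ∃ g : ℕ → En M → F, (∀ i, ContDiff ℝ ∞ (g i)) ∧
      TendstoUniformly (fun i (x : V.carrier) => g i x) f atTop ∧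
      ∀ A : List (Fin M), A.length ≤ r →
        UniformCauchySeqOn (fun i => tdL V A (g i)) atTop V.carrier) →
    ∃ g : En M → F, ContDiff ℝ ∞ g ∧ ∀ x : V.carrier, f x = g x

end Pool.Agent.EXO
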