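import Mathlib
import Pool.Agent.EXO.SuTanB
import Pool.Agent.EXO.SuHv
import Pool.Agent.EXO.IbGood
import Pool.Agent.EXO.TopSu

/-!
# EXO / SuTanC: maps into `V`, frames, the mean curvature vector is normal

PROOFS.
* `P_fderiv_of_maps`: chart `(U, ψ, O, κ)` at `F z`; near `z` we have `F y = ψ (κ (F y))`, so
  `fderiv ℝ F z w = fderiv ℝ ψ (κ (F z)) (..)`, and `P_fderiv` (with `ψ (κ (F z)) = F z`).
* `exists_frame`: chart at `x`, `A = fderiv ℝ ψ (κ x)` is injective and `P x = prj A`.  Let `W = range A`, a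
  subspace of dimension `n`, `B : En n → En M` the inclusion composed with an isometry `En n ≃ₗᵢ W`
  (`stdOrthonormalBasis`, `finrank W = n`).  `B† B = 1` since `B` preserves inner products; `B B†` is
  symmetric, idempotent with range `W`: `B B† = P x` because `P x` is symmetric idempotent with the fixed points
  `range A = range B` (`P_range`; the argument of `P_chart`).  Alternatively `prj B = B (B†B)⁻¹ B† = B B†` and
  `prj_eq_of_range`.
* `Hm_eq`: `(fderiv ℝ P x (P x e_b) e_a) b = ⟪fderiv ℝ P x (P x e_b) e_a, e_b⟫ = ⟪e_a, fderiv ℝ P x (P x e_b) e_b⟫` by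
  `fderiv_P_sa`.
* `P_Hv`: for a bilinear map `β` we have `∑ b, β (P e_b) e_b = ∑ b, β (P e_b) (P e_b)` at the points of `V`
  (expand `P e_b = ∑ c, (P e_b) c • e_c`, use that `(P e_b) c = (P e_c) b` and `P (P e_c) = P e_c`); take
  `β v w = fderiv ℝ P x (P x v) w`, so that `Hv x = ∑ b, fderiv ℝ P x (P x e_b) (P x e_b)`, and use `P_fderiv_P_P`.
-/

set_option autoImplicit false

open Set Filter Topology MeasureTheory ContinuousLinearMap
open scoped ContDiff ENNReal

namespace Pool.Agent.EXO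

namespace Geo

variable {n M : ℕ} (G : Geo n M)

theorem P_fderiv_of_maps {a : ℕ} {F : En a → En M} {z : En a}
    (hF : DifferentiableAt ℝ F z) (h : ∀ᶠ y in 𝓝 z, F y ∈ G.carrier) (w : En a) :
    G.P (F z) (fderiv ℝ F z w) = fderiv ℝ F z w :=
  su_tan G hF h w

theorem exists_frame {x : En M} (hx : x ∈ G.carrier) :
    ∃ B : En n →L[ℝ] En M, (adjoint B).comp B = ContinuousLinearMap.id ℝ (En n) ∧
      B.comp (adjoint B) = G.P x := by
  obtain ⟨A, h1, h2⟩ := su_iso G hx
  exact ⟨A, h2, h1⟩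

theorem Hm_eq {x : En M} (hx : x ∈ G.carrier) (a : Fin M) : G.Hm a x = G.Hv x a := by
  have h1 : ∀ b : Fin M, (fderiv ℝ G.P x (G.P x (bv b)) (bv a)) b =
      (fderiv ℝ G.P x (G.P x (bv b)) (bv b)) a := by
    intro b
    have h2 := G.fderiv_P_sa hx (bv b) (bv a) (bv b)
    rw [inner_bv a] at h2
    rw [real_inner_comm, inner_bv b] at h2
    exact h2
  unfold Hm Hv
  rw [WithLp.ofLp_sum, Finset.sum_apply]
  exact Finset.sum_congr rfl fun b _ => h1 b

theorem P_Hv {x : En M} (hx : x ∈ G.carrier) : G.P x (G.Hv x) = 0 := by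
  have hsym : ∀ b c : Fin M, (G.P x (bv b)) c = (G.P x (bv c)) b := by
    intro b c
    have h2 := G.P_sa x hx (bv b) (bv c)
    rw [inner_bv b, real_inner_comm, inner_bv c] at h2
    exact h2
  have key : G.Hv x = ∑ b, fderiv ℝ G.P x (G.P x (bv b)) (G.P x (bv b)) := by
    have h1 : ∀ b : Fin M, fderiv ℝ G.P x (G.P x (bv b)) (G.P x (bv b)) =
        ∑ c, (G.P x (bv b)) c • fderiv ℝ G.P x (G.P x (bv b)) (bv c) := by
      intro b
      conv_lhs => arg 2; rw [sum_bv (G.P x (bv b))]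
      rw [map_sum]
      refine Finset.sum_congr rfl fun c _ => ?_
      rw [map_smul]
    simp_rw [h1]
    rw [Finset.sum_comm]
    unfold Hv
    refine Finset.sum_congr rfl fun c _ => ?_
    have h3 : ∀ b : Fin M, (G.P x (bv b)) c • fderiv ℝ G.P x (G.P x (bv b)) (bv c) =
        fderiv ℝ G.P x (G.P x ((G.P x (bv c)) b • bv b)) (bv c) := by
      intro b
      rw [map_smul, map_smul, hsym b c]
      rfl
    simp_rw [h3]
    have h4 : ∑ b, fderiv ℝ G.P x (G.P x ((G.P x (bv c)) b • bv b)) (bv c) =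
        fderiv ℝ G.P x (G.P x (∑ b, (G.P x (bv c)) b • bv b)) (bv c) := by
      rw [map_sum, map_sum]
      simp
    rw [h4, ← sum_bv, G.P_idem x hx]
  rw [key, map_sum]
  exact Finset.sum_eq_zero fun b _ => G.P_fderiv_P_P hx _ _

end Geo

end Pool.Agent.EXO
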