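import Mathlib
import Pool.Agent.EXO.SuDt
import Pool.Agent.EXO.SuTanC
import Pool.Agent.EXO.SuDiv

/-!
# EXO / SuOrF: oriented submanifolds: the volume form in a chart

PROOFS.
* `exists_frame'`: `vol_spec` gives an orthonormal family `v`, `P x (v i) = v i`, `vol x = (List.ofFn ..).prod`.
  `B = ofVec v`: `B† B = 1` (`adjoint_comp_ofVec`), `vol x = FAMap (adjoint B) (mon univ)` (`prod_of1_eq`).
  `B B† = P x`: both are symmetric idempotents; `range B ⊆ range (P x)` (as `P x (B w) = B w`), and by `Geo.exists_frame`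
  `P x = B' B'†` with `B'† B' = 1`; `B'† B` is an isometry of `En n`, hence orthogonal: `B = P x B = B' (B'† B)`, so
  `B B† = B' (B'†B) (B'†B)† B'† = B' B'† = P x`  (an isometry of a finite dimensional space satisfies
  `C C† = 1`: `C† C = 1` implies `C C† = 1`, `LinearMap.mul_eq_one_comm`).
* `top_chart`: `A = fderiv ℝ ψ u`, `P (ψ u) ∘ A = A` (`P_fderiv`), so `A = B L` with `L = B† A`.  For `η : FA M`:
  `(FAMap A η).co univ = inner (mon univ) (FAMap A η)` (`co_univ_eq_inner`)
  `= inner (FAMap (adjoint A) (mon univ)) η` (`inner_FAMap`), `adjoint A = (adjoint L).comp (adjoint B)`, so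
  `FAMap (adjoint A) (mon univ) = FAMap (adjoint B) (FAMap (adjoint L) (mon univ))` (`FAMap_comp`)
  `= det L • vol` (`isDeg_top`, `isDeg_FAMap`, `FAMap_top`, `det (adjoint L) = det L`).  `|det L| = volF A` by `volF_comp` and
  `volF B = 1` (`gramM B = 1`); `volF A > 0` (`volF_pos`, `IsChart.injective`).
* `tv_spec`: with `η = vol (ψ u)`: `(FAMap A vol).co univ = t * inner vol vol = t` (`inner_prod_of1`).
* `smooth_tv`: `FAMap (fderiv ℝ ψ u) (vol (ψ u))` is smooth on `U` (`contDiffAt_FAMap`), the coordinate `co univ` and `re` are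
  real linear.
* `sign_tv`: `tv` is continuous on the open set `U` and does not vanish.
-/

set_option autoImplicit false
set_option maxSynthPendingDepth 3

open Set Filter Topology MeasureTheory ContinuousLinearMap
open scoped ContDiff ENNReal

namespace Pool.Agent.EXO

namespace OrGeo

variable {n M : ℕ} (V : OrGeo n M)

private theorem SuOrF_inner_mon {k m : ℕ} (A : En k →L[ℝ] En m) (η : FA m) :
    (FAMap A η).co Finset.univ = inner ℂ (FAMap (adjoint A) (mon Finset.univ)) η := by
  rw [co_univ_eq_inner, inner_FAMap, ContinuousLinearMap.adjoint_adjoint]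

private theorem SuOrF_det {k : ℕ} (L : En k →L[ℝ] En k) : (adjoint L).det = L.det := by
  have h1 := SuOrF_inner_mon L (mon Finset.univ)
  have h2 := FAMap_top L (mon Finset.univ)
  have h3 := FAMap_top (adjoint L) (mon Finset.univ)
  rw [mon_co, if_pos rfl, mul_one] at h2 h3
  rw [co_univ_eq_inner] at h3
  rw [h2, ← inner_conj_symm, h3, Complex.conj_ofReal] at h1
  exact_mod_cast h1.symm

private theorem SuOrF_sq {k : ℕ} {C : En k →L[ℝ] En k}
    (h : (adjoint C).comp C = ContinuousLinearMap.id ℝ (En k)) :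
    C.comp (adjoint C) = ContinuousLinearMap.id ℝ (En k) := by
  have h1 : (adjoint C).toLinearMap * C.toLinearMap = 1 := by
    have := congrArg ContinuousLinearMap.toLinearMap h
    exact this
  have h2 := mul_eq_one_comm.1 h1
  apply ContinuousLinearMap.coe_injective
  exact h2

theorem exists_frame' {x : En M} (hx : x ∈ V.carrier) :
    ∃ B : En n →L[ℝ] En M, (adjoint B).comp B = ContinuousLinearMap.id ℝ (En n) ∧
      B.comp (adjoint B) = V.P x ∧ V.vol x = FAMap (adjoint B) (mon Finset.univ) := by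
  obtain ⟨v, hv, hPv, hvol⟩ := V.vol_spec x hx
  obtain ⟨B', hB1, hB2⟩ := V.toGeo.exists_frame hx
  refine ⟨ofVec v, adjoint_comp_ofVec hv, ?_, by rw [hvol, prod_of1_eq]⟩
  have hPB : (V.P x).comp (ofVec v) = ofVec v := by
    apply ContinuousLinearMap.coe_injective
    apply (EuclideanSpace.basisFun (Fin n) ℝ).toBasis.ext
    intro i
    have hb : (EuclideanSpace.basisFun (Fin n) ℝ).toBasis i = bv i := by
      rw [OrthonormalBasis.coe_toBasis, EuclideanSpace.basisFun_apply]
      rfl
    rw [hb]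
    show V.P x (ofVec v (bv i)) = ofVec v (bv i)
    rw [ofVec_bv, hPv]
  obtain ⟨C, hC⟩ : ∃ C : En n →L[ℝ] En n, C = (adjoint B').comp (ofVec v) := ⟨_, rfl⟩
  have hBC : B'.comp C = ofVec v := by
    rw [hC, ← ContinuousLinearMap.comp_assoc, hB2, hPB]
  have hC1 : (adjoint C).comp C = ContinuousLinearMap.id ℝ (En n) := by
    have h1 : adjoint C = (adjoint (ofVec v)).comp B' := by
      rw [hC, ContinuousLinearMap.adjoint_comp, ContinuousLinearMap.adjoint_adjoint]
    rw [h1, ContinuousLinearMap.comp_assoc, hBC, adjoint_comp_ofVec hv]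
  have hC2 := SuOrF_sq hC1
  have h2 : adjoint (ofVec v) = (adjoint C).comp (adjoint B') := by
    rw [← hBC, ContinuousLinearMap.adjoint_comp]
  rw [h2, ← hBC, ContinuousLinearMap.comp_assoc, ← ContinuousLinearMap.comp_assoc C, hC2,
    ContinuousLinearMap.id_comp, hB2]

private theorem SuOrF_volF {B : En n →L[ℝ] En M}
    (h : (adjoint B).comp B = ContinuousLinearMap.id ℝ (En n)) : volF B = 1 := by
  have h1 : gramM B = 1 := by
    ext i j
    show inner ℝ (B (EuclideanSpace.single i 1)) (B (EuclideanSpace.single j 1)) = _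
    rw [← ContinuousLinearMap.adjoint_inner_left]
    have h2 : adjoint B (B (EuclideanSpace.single i 1)) = EuclideanSpace.single i 1 := by
      have := congrArg (fun F => F (EuclideanSpace.single i (1 : ℝ))) h
      exact this
    rw [h2, EuclideanSpace.inner_single_left, Matrix.one_apply]
    simp
  unfold volF
  rw [h1, Matrix.det_one, Real.sqrt_one]

theorem top_chart {U : Set (En n)} {ψ : En n → En M} {O : Set (En M)} {κ : En M → En n}
    (h : IsChart V.carrier U ψ O κ) {u : En n} (hu : u ∈ U) :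
    ∃ t : ℝ, |t| = volF (fderiv ℝ ψ u) ∧ t ≠ 0 ∧ ∀ η : FA M,
      (FAMap (fderiv ℝ ψ u) η).co Finset.univ = (t : ℂ) * inner ℂ (V.vol (ψ u)) η := by
  obtain ⟨B, hB1, hB2, hB3⟩ := V.exists_frame' (h.mem_V hu)
  obtain ⟨L, hL⟩ : ∃ L : En n →L[ℝ] En n, L = (adjoint B).comp (fderiv ℝ ψ u) := ⟨_, rfl⟩
  have hA : fderiv ℝ ψ u = B.comp L := by
    rw [hL, ← ContinuousLinearMap.comp_assoc, hB2]
    ext1 w
    exact (V.toGeo.P_fderiv h hu w).symm
  have hvol : volF (fderiv ℝ ψ u) = |L.det| := by
    rw [hA, volF_comp, SuOrF_volF hB1, mul_one]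
  have hpos : 0 < volF (fderiv ℝ ψ u) := volF_pos (h.injective hu)
  refine ⟨L.det, hvol.symm, ?_, ?_⟩
  · intro h0
    rw [hvol, h0, abs_zero] at hpos
    exact lt_irrefl _ hpos
  · intro η
    have hmon : FAMap (adjoint L) (mon Finset.univ) = (L.det : ℂ) • mon Finset.univ := by
      have hd : (mon (Finset.univ : Finset (Fin n))).IsDeg n := by
        have := isDeg_mon (Finset.univ : Finset (Fin n))
        rwa [Finset.card_univ, Fintype.card_fin] at this
      have h5 := isDeg_top (isDeg_FAMap hd (adjoint L))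
      rwa [FAMap_top, mon_co, if_pos rfl, mul_one, SuOrF_det] at h5
    rw [SuOrF_inner_mon, hA, ContinuousLinearMap.adjoint_comp, FAMap_comp, hmon, FAMap_smul, ← hB3,
      inner_smul_left, Complex.conj_ofReal]

private theorem SuOrF_vol_one {x : En M} (hx : x ∈ V.carrier) :
    inner ℂ (V.vol x) (V.vol x) = (1 : ℂ) := by
  obtain ⟨v, hv, -, hvol⟩ := V.vol_spec x hx
  rw [hvol, inner_prod_of1 hv]

/-- The volume form in the coordinates `ψ`. -/
noncomputable def tv (ψ : En n → En M) (u : En n) : ℝ :=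
  ((FAMap (fderiv ℝ ψ u) (V.vol (ψ u))).co Finset.univ).re

theorem tv_spec {U : Set (En n)} {ψ : En n → En M} {O : Set (En M)} {κ : En M → En n}
    (h : IsChart V.carrier U ψ O κ) {u : En n} (hu : u ∈ U) :
    |V.tv ψ u| = volF (fderiv ℝ ψ u) ∧ V.tv ψ u ≠ 0 ∧ ∀ η : FA M,
      (FAMap (fderiv ℝ ψ u) η).co Finset.univ
        = (V.tv ψ u : ℂ) * inner ℂ (V.vol (ψ u)) η := by
  obtain ⟨t, ht1, ht2, ht3⟩ := V.top_chart h hu
  have ht : V.tv ψ u = t := by
    unfold tv
    rw [ht3, V.SuOrF_vol_one (h.mem_V hu), mul_one, Complex.ofReal_re]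
  rw [ht]
  exact ⟨ht1, ht2, ht3⟩

private noncomputable def SuOrF_re (n : ℕ) : FA n →ₗ[ℝ] ℝ where
  toFun x := (x.co Finset.univ).re
  map_add' x y := by
    rw [FA.co_add, Complex.add_re]
  map_smul' r x := by
    show ((r : ℂ) * x.co Finset.univ).re = r * (x.co Finset.univ).re
    rw [Complex.re_ofReal_mul]

theorem smooth_tv {U : Set (En n)} {ψ : En n → En M} {O : Set (En M)} {κ : En M → En n}
    (h : IsChart V.carrier U ψ O κ) : ContDiffOn ℝ ∞ (V.tv ψ) U := by
  intro u hu
  apply ContDiffAt.contDiffWithinAt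
  have h1 : ContDiffAt ℝ ∞ (fun w => FAMap (fderiv ℝ ψ w) (V.vol (ψ w))) u :=
    contDiffAt_FAMap (h.contDiffAt_fderiv_ψ hu)
      (V.smooth_vol.contDiffAt.comp u (h.contDiffAt_ψ hu))
  exact (LinearMap.toContinuousLinearMap (SuOrF_re n)).contDiff.contDiffAt.comp u h1

/-- The sign of the volume form is locally constant. -/
theorem sign_tv {U : Set (En n)} {ψ : En n → En M} {O : Set (En M)} {κ : En M → En n}
    (h : IsChart V.carrier U ψ O κ) {u : En n} (hu : u ∈ U) :
    ∀ᶠ w in 𝓝 u, V.tv ψ w / |V.tv ψ w| = V.tv ψ u / |V.tv ψ u| := by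
  have hc : ContinuousAt (V.tv ψ) u :=
    ((V.smooth_tv h).contDiffAt (h.openU.mem_nhds hu)).continuousAt
  have h0 := (V.tv_spec h hu).2.1
  rcases lt_or_gt_of_ne h0 with h1 | h1
  · filter_upwards [hc.eventually_lt_const h1] with w hw
    rw [abs_of_neg hw, abs_of_neg h1, div_neg, div_neg, div_self hw.ne, div_self h1.ne]
  · filter_upwards [hc.eventually_const_lt h1] with w hw
    rw [abs_of_pos hw, abs_of_pos h1, div_self hw.ne', div_self h1.ne']

end OrGeo

end Pool.Agent.EXO
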