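import Mathlib
import Pool.Agent.EXO.SuOrF
import Pool.Agent.EXO.SuIntB

/-!
# EXO / SuOrB: integration of forms, elementary rules

PROOFS.
* `FAMap_P_vol`: `vol x = FAMap B† (mon univ)`, `B B† = P x` (`exists_frame'`): `FAMap (P x) (FAMap B† (mon univ))
  = FAMap (B† ∘ P x) (mon univ)` (`FAMap_comp`), and `B† P x = B† B B† = B†`.
* `inner_vol_P`: `inner (vol x) (FAMap (P x) α) = inner (FAMap (adjoint (P x)) (vol x)) α` (`inner_FAMap`, with
  `adjoint (P x) = P x` on `V` by `P_sa`), and `FAMap_P_vol`.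
* `int_congr`: `Geo.integral_congr` and `inner_vol_P`.
* `int_add`, `int_smul`, `int_sum`: the integrands are continuous on `V`, hence integrable (`Geo.integrable`).
* `int_deg`: `vol x` has degree `n` (`isDeg_prod_of1`), so `inner (vol x) (α x) = ∑ I, conj .. * ..` vanishes.
* `dF_restr`: chart `(U, ψ, O, κ)` at `v`, `u = κ v`, `A = fderiv ℝ ψ u`.  Near `u` (`ψ` continuous, values in `V`):
  `pbF ψ α w = FAMap (fderiv ℝ ψ w) (α (ψ w)) = FAMap (fderiv ℝ ψ w) (FAMap (P (ψ w)) (α (ψ w)))`, because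
  `P (ψ w) ∘ fderiv ℝ ψ w = fderiv ℝ ψ w` (`FAMap_comp`); so `pbF ψ α = pbF ψ β` near `u` and
  `FAMap A (dF α v) = dF (pbF ψ α) u = dF (pbF ψ β) u = FAMap A (dF β v)` (`dF_pbF`, `dF_congr`).
  Finally `P v = A ∘ T` for some `T` (`P_chart`, `prj A = A ∘ (..)`), so `FAMap (P v) = FAMap T ∘ FAMap A`.
-/

set_option autoImplicit false
set_option maxSynthPendingDepth 3

open Set Filter Topology MeasureTheory ContinuousLinearMap
open scoped ContDiff ENNReal

namespace Pool.Agent.EXO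

variable {n M : ℕ}

theorem OrGeo.FAMap_P_vol (V : OrGeo n M) {x : En M} (hx : x ∈ V.carrier) :
    FAMap (V.P x) (V.vol x) = V.vol x := by
  obtain ⟨B, hB1, hB2, hB3⟩ := V.exists_frame' hx
  have h1 : (adjoint B).comp (V.P x) = adjoint B := by
    rw [← hB2, ← ContinuousLinearMap.comp_assoc, hB1, ContinuousLinearMap.id_comp]
  rw [hB3, ← FAMap_comp, h1]

private theorem SuOrB_adj (V : OrGeo n M) {x : En M} (hx : x ∈ V.carrier) :
    adjoint (V.P x) = V.P x := by
  obtain ⟨B, hB1, hB2, hB3⟩ := V.exists_frame' hx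
  rw [← hB2, ContinuousLinearMap.adjoint_comp, ContinuousLinearMap.adjoint_adjoint]

theorem OrGeo.inner_vol_P (V : OrGeo n M) {x : En M} (hx : x ∈ V.carrier) (α : FA M) :
    inner ℂ (V.vol x) (FAMap (V.P x) α) = inner ℂ (V.vol x) α := by
  have h1 : inner ℂ (V.vol x) (FAMap (V.P x) α) =
      inner ℂ (FAMap (adjoint (V.P x)) (V.vol x)) α := by
    rw [inner_FAMap, ContinuousLinearMap.adjoint_adjoint]
  rw [h1, SuOrB_adj V hx, V.FAMap_P_vol hx]

/-- The integral only depends on the restriction to `V`. -/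
theorem OrGeo.int_congr (V : OrGeo n M) {α β : En M → FA M}
    (h : ∀ v ∈ V.carrier, FAMap (V.P v) (α v) = FAMap (V.P v) (β v)) : V.int α = V.int β := by
  unfold OrGeo.int
  refine V.toGeo.integral_congr fun x hx => ?_
  rw [← V.inner_vol_P hx (α x), h x hx, V.inner_vol_P hx]

private theorem SuOrB_int (V : OrGeo n M) {α : En M → FA M} (hα : ContDiff ℝ ∞ α) :
    Integrable (fun x => (inner ℂ (V.vol x) (α x) : ℂ)) V.μ :=
  V.toGeo.integrable ((V.smooth_vol.continuous.inner hα.continuous).continuousOn)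

theorem OrGeo.int_add (V : OrGeo n M) {α β : En M → FA M} (hα : ContDiff ℝ ∞ α)
    (hβ : ContDiff ℝ ∞ β) : V.int (fun x => α x + β x) = V.int α + V.int β := by
  unfold OrGeo.int
  rw [← integral_add (SuOrB_int V hα) (SuOrB_int V hβ)]
  simp only [inner_add_right]

theorem OrGeo.int_smul (V : OrGeo n M) (c : ℂ) (α : En M → FA M) :
    V.int (fun x => c • α x) = c * V.int α := by
  unfold OrGeo.int
  rw [← integral_const_mul]
  simp only [inner_smul_right]

theorem OrGeo.int_sum (V : OrGeo n M) {ι : Type*} (s : Finset ι) {α : ι → En M → FA M}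
    (hα : ∀ i, ContDiff ℝ ∞ (α i)) : V.int (fun x => ∑ i ∈ s, α i x) = ∑ i ∈ s, V.int (α i) := by
  unfold OrGeo.int
  rw [← integral_finsetSum s fun i _ => SuOrB_int V (hα i)]
  simp only [inner_sum]

/-- A form of degree different from `n` has integral zero. -/
theorem OrGeo.int_deg (V : OrGeo n M) {α : En M → FA M} {j : ℕ} (hj : j ≠ n)
    (hα : ∀ v ∈ V.carrier, (α v).IsDeg j) : V.int α = 0 := by
  have h0 : V.int α = ∫ _ : En M, (0 : ℂ) ∂V.μ := by
    unfold OrGeo.int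
    refine V.toGeo.integral_congr fun x hx => ?_
    obtain ⟨B, hB1, hB2, hB3⟩ := V.exists_frame' hx
    rw [hB3, inner_FAMap, ContinuousLinearMap.adjoint_adjoint, ← co_univ_eq_inner]
    apply isDeg_FAMap (hα x hx) B
    rw [Finset.card_univ, Fintype.card_fin]
    exact hj.symm
  rw [h0, integral_zero]

/-- The restriction of `dF α` to `V` depends only on the restriction of `α` near the point. -/
theorem Geo.dF_restr (V : Geo n M) {α β : En M → FA M} {v : En M} (hv : v ∈ V.carrier)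
    (hα : ContDiffAt ℝ ∞ α v) (hβ : ContDiffAt ℝ ∞ β v)
    (h : ∀ᶠ y in nhds v, y ∈ V.carrier → FAMap (V.P y) (α y) = FAMap (V.P y) (β y)) :
    FAMap (V.P v) (dF α v) = FAMap (V.P v) (dF β v) := by
  obtain ⟨U, ψ, O, κ, hc, hvO, -⟩ := V.exists_chart hv
  obtain ⟨u, hu, rfl⟩ : ∃ u ∈ U, ψ u = v := ⟨κ v, hc.mapsκ v ⟨hv, hvO⟩, hc.right v ⟨hv, hvO⟩⟩
  have h1 : ∀ γ : En M → FA M, ∀ w ∈ U, pbF ψ γ w =
      FAMap (fderiv ℝ ψ w) (FAMap (V.P (ψ w)) (γ (ψ w))) := by
    intro γ w hw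
    have h2 : (V.P (ψ w)).comp (fderiv ℝ ψ w) = fderiv ℝ ψ w := by
      ext1 z
      exact V.P_fderiv hc hw z
    rw [← FAMap_comp, h2]
    rfl
  have h3 : pbF ψ α =ᶠ[nhds u] pbF ψ β := by
    have h4 := (hc.contDiffAt_ψ hu).continuousAt.eventually h
    filter_upwards [h4, hc.openU.mem_nhds hu] with w hw hwU
    rw [h1 α w hwU, h1 β w hwU, hw (hc.mem_V hwU)]
  have h5 := dF_congr h3
  have h6 : ContDiffAt ℝ 2 ψ u := (hc.contDiffAt_ψ hu).of_le ENat.LEInfty.out
  rw [dF_pbF h6 (hα.differentiableAt (by simp)), dF_pbF h6 (hβ.differentiableAt (by simp))] at h5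
  have h7 : V.P (ψ u) = (fderiv ℝ ψ u).comp
      ((Ring.inverse (gramL (fderiv ℝ ψ u))).comp (adjoint (fderiv ℝ ψ u))) := V.P_chart hc hu
  rw [h7, FAMap_comp, FAMap_comp (fderiv ℝ ψ u) _ (dF β (ψ u))]
  exact congrArg _ h5

end Pool.Agent.EXO
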