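import Mathlib
import Pool.Agent.EXO.SuCh

/-!
# EXO / SuAtl: finite atlases with a partition of unity

PROOF.  Let `V` be compact.  (0) If `V` is empty take `N = 0` (then `𝓝ˢ ∅ = ⊥`).  In general:
(1) For `x ∈ V` there is a chart `(U, ψ, O, κ)` with `x ∈ O`; by `IsChart.restrict` with
`O' = Metric.ball x 1` and then `IsChart.shrink` there is a chart such that moreover `O` is bounded and
`κ y ∈ U` for all `y ∈ O`; still `x ∈ O` (for `shrink`: `κ x ∈ U` by `mapsκ`).  Choose one for each point of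
`V` (`choose`).
(2) By compactness finitely many of the sets `O` cover `V` (`IsCompact.elim_finite_subcover` or
`IsCompact.elim_nhds_subcover'`); number them by `Fin N` (`Finset.equivFin`).
(3) `exists_compact_between`: there is a compact `K` with `V ⊆ interior K` and `K ⊆ ⋃ i, O i`.
(4) `SmoothPartitionOfUnity.exists_isSubordinate 𝓘(ℝ, En M) (s := K)` gives a smooth partition of
unity `f` indexed by `Fin N`, subordinate to `O`, with `∑ᶠ f i x = 1` for `x ∈ K`; the sum is a sum over
`Fin N` (`finsum_eq_sum_of_fintype`), `K ∈ 𝓝ˢ V`.  `contMDiff_iff_contDiff` gives smoothness, compact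
support holds because `tsupport (χ i)` is a closed subset of the bounded set `O i`.
-/

set_option autoImplicit false

open Set Filter Topology MeasureTheory
open scoped ContDiff ENNReal Manifold

namespace Pool.Agent.EXO

private theorem SuAtl_small {n M : ℕ} (V : ClosedSub n M) (x : V.carrier) :
    ∃ (U : Set (En n)) (ψ : En n → En M) (O : Set (En M)) (κ : En M → En n),
      IsChart V.carrier U ψ O κ ∧ (x : En M) ∈ O ∧ Bornology.IsBounded O ∧
        ∀ y ∈ O, κ y ∈ U := by
  obtain ⟨U, ψ, O, κ, h, hx⟩ := V.chart x x.2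
  have h1 := h.restrict (Metric.isOpen_ball (x := (x : En M)) (ε := 1))
  have hxb : (x : En M) ∈ O ∩ Metric.ball (x : En M) 1 := ⟨hx, Metric.mem_ball_self one_pos⟩
  refine ⟨_, _, _, _, h1.shrink, ⟨hxb, h1.mapsκ _ ⟨x.2, hxb⟩⟩, ?_, fun y hy => hy.2⟩
  exact Metric.isBounded_ball.subset fun y hy => hy.1.2

theorem ClosedSub.exists_atl {n M : ℕ} (V : ClosedSub n M) : Nonempty (Atl n V.carrier) := by
  choose U ψ O κ h hx hb hm using SuAtl_small V
  obtain ⟨t, ht⟩ := V.compact.elim_finite_subcover O (fun x => (h x).openO)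
    (fun x hxV => mem_iUnion.2 ⟨⟨x, hxV⟩, hx ⟨x, hxV⟩⟩)
  obtain ⟨N, e, hcov⟩ : ∃ (N : ℕ) (e : Fin N → V.carrier), V.carrier ⊆ ⋃ j, O (e j) := by
    refine ⟨t.card, fun j => (t.equivFin.symm j : V.carrier), fun x hxV => ?_⟩
    obtain ⟨i, hi⟩ := mem_iUnion.1 (ht hxV)
    obtain ⟨hit, hxi⟩ := mem_iUnion.1 hi
    refine mem_iUnion.2 ⟨t.equivFin ⟨i, hit⟩, ?_⟩
    simpa using hxi
  obtain ⟨K, hK, hVK, hKO⟩ := exists_compact_between V.compact
    (isOpen_iUnion fun j => (h (e j)).openO) hcov
  obtain ⟨f, hf⟩ := SmoothPartitionOfUnity.exists_isSubordinate (modelWithCornersSelf ℝ (En M))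
    hK.isClosed (fun j => O (e j)) (fun j => (h (e j)).openO) hKO
  refine ⟨{
    N := N
    U := fun j => U (e j)
    ψ := fun j => ψ (e j)
    O := fun j => O (e j)
    κ := fun j => κ (e j)
    χ := fun j x => f j x
    chart := fun j => h (e j)
    mapsO := fun j => hm (e j)
    smoothχ := fun j => contMDiff_iff_contDiff.1 (f j).contMDiff
    compχ := fun j => Metric.isCompact_of_isClosed_isBounded (isClosed_tsupport _)
      ((hb (e j)).subset (hf j))
    suppχ := fun j => hf j
    nonneg := fun j x => f.nonneg j x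
    sum_one := ?_ }⟩
  have hKn : K ∈ 𝓝ˢ V.carrier := subset_interior_iff_mem_nhdsSet.1 hVK
  filter_upwards [hKn] with x hxK
  have h1 := f.sum_eq_one hxK
  rwa [finsum_eq_sum_of_fintype] at h1

end Pool.Agent.EXO
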