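import Mathlib
import Pool.Agent.EXO.DefG

/-!
# EXO / SuPrM: the volume of `ℝ^14 = ℝ⁴ × ℝ⁴ × ℝ⁶`

PROOF.  `contDiff_q1` ...: the coordinates of a point depend linearly on it (`contDiff_euclidean`).
`measurePreserving_q`: `EuclideanSpace.volume_preserving_ofLp` (or `..measurableEquiv`) for `Fin 14`, `Fin 4`, `Fin 4`, `Fin 6`, the
equivalence of index sets `Fin 14 ≃ (Fin 4 ⊕ Fin 4) ⊕ Fin 6` (`finSumFinEquiv`; `volume_measurePreserving_piCongrLeft`) and
`volume_measurePreserving_sumPiEquivProdPi` (twice); products: `MeasurePreserving.prod`.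
The map is a homeomorphism (inverse: `p ↦ j14 p.1.1 p.1.2 p.2`), so a measurable embedding;
`MeasurePreserving.integral_comp`.
-/

set_option autoImplicit false

open Set Filter Topology MeasureTheory
open scoped ContDiff ENNReal

namespace Pool.Agent.EXO

private theorem SuPrM_co {m : ℕ} (i : Fin m) : ContDiff ℝ ∞ (fun w : En m => w i) :=
  (EuclideanSpace.proj (𝕜 := ℝ) i).contDiff

theorem contDiff_q1 : ContDiff ℝ ∞ q1 :=
  contDiff_euclidean.2 fun i => SuPrM_co (m := 14) ⟨i, by omega⟩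

theorem contDiff_q2 : ContDiff ℝ ∞ q2 :=
  contDiff_euclidean.2 fun i => SuPrM_co (m := 14) ⟨4 + i, by omega⟩

theorem contDiff_q3 : ContDiff ℝ ∞ q3 :=
  contDiff_euclidean.2 fun i => SuPrM_co (m := 14) ⟨8 + i, by omega⟩

theorem contDiff_j14 : ContDiff ℝ ∞ fun p : (En 4 × En 4) × En 6 => j14 p.1.1 p.1.2 p.2 := by
  refine contDiff_euclidean.2 fun i => ?_
  by_cases h1 : i.1 < 4
  · have e : (fun p : (En 4 × En 4) × En 6 => (j14 p.1.1 p.1.2 p.2) i) =
        fun p => p.1.1 ⟨i, h1⟩ := by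
      funext p
      simp only [j14, h1, dite_true]
    rw [e]
    exact (SuPrM_co _).comp (contDiff_fst.comp contDiff_fst)
  · by_cases h2 : i.1 < 8
    · have e : (fun p : (En 4 × En 4) × En 6 => (j14 p.1.1 p.1.2 p.2) i) =
          fun p => p.1.2 ⟨i - 4, by omega⟩ := by
        funext p
        simp only [j14, h1, h2, dite_true, dite_false]
      rw [e]
      exact (SuPrM_co _).comp (contDiff_snd.comp contDiff_fst)
    · have e : (fun p : (En 4 × En 4) × En 6 => (j14 p.1.1 p.1.2 p.2) i) =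
          fun p => p.2 ⟨i - 8, by omega⟩ := by
        funext p
        simp only [j14, h1, h2, dite_false]
      rw [e]
      exact (SuPrM_co _).comp contDiff_snd

private def SuPrM_e : (Fin 4 ⊕ Fin 4) ⊕ Fin 6 ≃ Fin 14 :=
  (Equiv.sumCongr finSumFinEquiv (Equiv.refl (Fin 6))).trans finSumFinEquiv

private theorem SuPrM_pi : MeasurePreserving
    (fun f : Fin 14 → ℝ => ((fun i : Fin 4 => f (SuPrM_e (Sum.inl (Sum.inl i))),
      fun i : Fin 4 => f (SuPrM_e (Sum.inl (Sum.inr i)))),
      fun i : Fin 6 => f (SuPrM_e (Sum.inr i)))) volume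
    (volume : Measure (((Fin 4 → ℝ) × (Fin 4 → ℝ)) × (Fin 6 → ℝ))) := by
  have h1 := (volume_measurePreserving_piCongrLeft (fun _ : Fin 14 => ℝ) SuPrM_e).symm
  have h2 := volume_measurePreserving_sumPiEquivProdPi
    (fun _ : (Fin 4 ⊕ Fin 4) ⊕ Fin 6 => ℝ)
  have h3 := volume_measurePreserving_sumPiEquivProdPi (fun _ : Fin 4 ⊕ Fin 4 => ℝ)
  have h4 := h3.prod (MeasurePreserving.id (volume : Measure (Fin 6 → ℝ)))
  exact (h4.comp h2).comp h1

theorem measurePreserving_q : MeasurePreserving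
    (fun q : En 14 => ((q1 q, q2 q), q3 q)) volume
    (volume : Measure ((En 4 × En 4) × En 6)) := by
  have h1 := PiLp.volume_preserving_ofLp (Fin 14)
  have h2 := (PiLp.volume_preserving_toLp (Fin 4)).prod (PiLp.volume_preserving_toLp (Fin 4))
  have h3 := h2.prod (PiLp.volume_preserving_toLp (Fin 6))
  have h4 := (h3.comp SuPrM_pi).comp h1
  exact h4

theorem integral_q {F : Type*} [NormedAddCommGroup F] [NormedSpace ℝ F]
    (f : En 4 → En 4 → En 6 → F) :
    ∫ q : En 14, f (q1 q) (q2 q) (q3 q) = ∫ p : (En 4 × En 4) × En 6, f p.1.1 p.1.2 p.2 := by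
  let E : En 14 ≃ᵐ (En 4 × En 4) × En 6 :=
    { toFun := fun q => ((q1 q, q2 q), q3 q)
      invFun := fun p => j14 p.1.1 p.1.2 p.2
      left_inv := fun q => j14_q q
      right_inv := fun p => by simp
      measurable_toFun := measurePreserving_q.measurable
      measurable_invFun := contDiff_j14.continuous.measurable }
  exact measurePreserving_q.integral_comp E.measurableEmbedding
    (fun p : (En 4 × En 4) × En 6 => f p.1.1 p.1.2 p.2)

end Pool.Agent.EXO
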