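import Mathlib
import Pool.Agent.EXO.SuCh
import Pool.Agent.EXO.SuPrM

/-!
# EXO / SuPrC: charts of the pieces of the closed manifold

PROOF.  Facts on the collar: for `n ∈ N`: `n ∈ C.O` and `C.rho n = n` (`io_mem n _ 0`, `io_zero`).
Let `J q = j15 (q1 q) (q2 q) (ψ' (q3 q))`; `p1 (J q) = q1 q`, .., so `g (J q) < 20000` by `hb` if `‖q1 q‖ ^ 2 < 10000`, and
`p3 (J q) = ψ' (q3 q) ∈ N ⊆ C.O`.
* openU: `q1`, `q3` are continuous, `U'` is open; openO: `K.Φ` is continuous on the open set `K.O`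
  (`ContinuousOn.isOpen_inter_preimage`, the set `{z | ‖p1 z‖ ^ 2 < 10000 ∧ p3 z ∈ O'}` is open).
* smoothψ: `K.smoothΨ.comp`: `J` is smooth on `U` and maps it to `dom g C.O 20000` (`contDiff_q1`, .., and `j15` is
  smooth in its three arguments: `contDiff_euclidean` and case distinction, see `contDiff_j15`).
* smoothκ: `K.smoothΦ`, `h.smoothκ`, `contDiff_j14`, `p1`, `p2`, `p3` are smooth.
* maps: `K.maps`, `K.left`: `K.Φ (K.Ψ (J q)) = j15 (q1 q) (q2 q) (C.rho (ψ' (q3 q))) = J q`.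
* left: `κ (ψ q) = j14 (q1 q) (q2 q) (κ' (ψ' (q3 q))) = j14 (q1 q) (q2 q) (q3 q) = q`.
* mapsκ: `K.mapsΦ` gives `p3 (K.Φ y) ∈ N`; `h.mapsκ`.
* right: `ψ' (κ' (p3 (K.Φ y))) = p3 (K.Φ y)`, `j15_p`, `K.right`.
-/

set_option autoImplicit false

open Set Filter Topology MeasureTheory
open scoped ContDiff ENNReal

namespace Pool.Agent.EXO

private theorem SuPrC_co {n : ℕ} (i : Fin n) : ContDiff ℝ ∞ fun w : En n => w i :=
  contDiff_piLp_apply (𝕜 := ℝ) (p := 2) (i := i)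

theorem su_contDiff_p1 : ContDiff ℝ ∞ p1 :=
  (contDiff_piLp 2).2 fun i => SuPrC_co (⟨i, by omega⟩ : Fin 15)

theorem su_contDiff_p2 : ContDiff ℝ ∞ p2 :=
  (contDiff_piLp 2).2 fun i => SuPrC_co (⟨4 + i, by omega⟩ : Fin 15)

theorem su_contDiff_p3 : ContDiff ℝ ∞ p3 :=
  (contDiff_piLp 2).2 fun i => SuPrC_co (⟨8 + i, by omega⟩ : Fin 15)

theorem contDiff_j15 : ContDiff ℝ ∞ fun p : (En 4 × En 4) × En 7 => j15 p.1.1 p.1.2 p.2 := by
  refine (contDiff_piLp 2).2 fun i => ?_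
  by_cases h : i.1 < 4
  · have e : (fun p : (En 4 × En 4) × En 7 => j15 p.1.1 p.1.2 p.2 i) =
        fun p => p.1.1 (⟨i, h⟩ : Fin 4) := by
      funext p
      simp only [j15, h, dite_true]
    rw [e]
    exact (SuPrC_co _).comp (contDiff_fst.comp contDiff_fst)
  · by_cases h' : i.1 < 8
    · have e : (fun p : (En 4 × En 4) × En 7 => j15 p.1.1 p.1.2 p.2 i) =
          fun p => p.1.2 (⟨i - 4, by omega⟩ : Fin 4) := by
        funext p
        simp only [j15, h, h', dite_true, dite_false]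
      rw [e]
      exact (SuPrC_co _).comp (contDiff_snd.comp contDiff_fst)
    · have e : (fun p : (En 4 × En 4) × En 7 => j15 p.1.1 p.1.2 p.2 i) =
          fun p => p.2 (⟨i - 8, by omega⟩ : Fin 7) := by
        funext p
        simp only [j15, h, h', dite_false]
      rw [e]
      exact (SuPrC_co _).comp contDiff_snd

theorem Collar.mem_O {N : Set (En 7)} (C : Collar N) {x : En 7} (hx : x ∈ N) : x ∈ C.O := by
  have h := (C.io_mem x hx 0 (by norm_num)).1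
  rwa [C.io_zero x hx] at h

theorem Collar.rho_eq {N : Set (En 7)} (C : Collar N) {x : En 7} (hx : x ∈ N) : C.rho x = x := by
  have h := (C.io_mem x hx 0 (by norm_num)).2.1
  rwa [C.io_zero x hx] at h

/-- The coordinates on a piece belonging to a chart of `N`. -/
noncomputable def jch (ψ' : En 6 → En 7) (q : En 14) : En 15 := j15 (q1 q) (q2 q) (ψ' (q3 q))

/-- The charts of `V` belonging to a piece and a chart of `N`. -/
theorem VPiece.isChart {N : Set (En 7)} {C : Collar N} {M : ℕ} {V : Set (En M)}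
    {g : En 15 → ℝ} (K : VPiece C V g)
    (hb : ∀ z : En 15, ‖p1 z‖ ^ 2 < 10000 → g z < 20000)
    {U' : Set (En 6)} {ψ' : En 6 → En 7} {O' : Set (En 7)} {κ' : En 7 → En 6}
    (h : IsChart N U' ψ' O' κ') :
    IsChart V {q : En 14 | ‖q1 q‖ ^ 2 < 10000 ∧ q3 q ∈ U'} (fun q => K.Ψ (jch ψ' q))
      (K.O ∩ {v | ‖p1 (K.Φ v)‖ ^ 2 < 10000 ∧ p3 (K.Φ v) ∈ O'})
      (fun v => j14 (p1 (K.Φ v)) (p2 (K.Φ v)) (κ' (p3 (K.Φ v)))) := by
  have hN : ∀ q : En 14, q3 q ∈ U' → ψ' (q3 q) ∈ N := fun q hq => (h.maps _ hq).1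
  have hdom : ∀ q ∈ {q : En 14 | ‖q1 q‖ ^ 2 < 10000 ∧ q3 q ∈ U'},
      jch ψ' q ∈ dom g C.O 20000 := by
    rintro q ⟨h1, h2⟩
    refine ⟨hb _ ?_, ?_⟩
    · simp only [jch, p1_j15]
      exact h1
    · simp only [jch, p3_j15]
      exact C.mem_O (hN q h2)
  have hleft : ∀ q ∈ {q : En 14 | ‖q1 q‖ ^ 2 < 10000 ∧ q3 q ∈ U'},
      K.Φ (K.Ψ (jch ψ' q)) = jch ψ' q := by
    intro q hq
    rw [K.left _ (hdom q hq)]
    simp only [jch, p1_j15, p2_j15, p3_j15]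
    rw [C.rho_eq (hN q hq.2)]
  exact {
    openU := (isOpen_lt ((contDiff_q1.continuous.norm).pow 2) continuous_const).inter
      (h.openU.preimage contDiff_q3.continuous)
    openO := by
      have h1 : IsOpen {z : En 15 | ‖p1 z‖ ^ 2 < 10000 ∧ p3 z ∈ O'} :=
        (isOpen_lt ((su_contDiff_p1.continuous.norm).pow 2) continuous_const).inter
          (h.openO.preimage su_contDiff_p3.continuous)
      exact K.smoothΦ.continuousOn.isOpen_inter_preimage K.openO h1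
    smoothψ := by
      refine K.smoothΨ.comp ?_ hdom
      have h1 : ContDiffOn ℝ ∞ (fun q : En 14 => ψ' (q3 q))
          {q : En 14 | ‖q1 q‖ ^ 2 < 10000 ∧ q3 q ∈ U'} :=
        h.smoothψ.comp contDiff_q3.contDiffOn fun q hq => hq.2
      exact contDiff_j15.comp_contDiffOn
        (((contDiff_q1.prodMk contDiff_q2).contDiffOn).prodMk h1)
    smoothκ := by
      have h0 : ContDiffOn ℝ ∞ K.Φ
          (K.O ∩ {v | ‖p1 (K.Φ v)‖ ^ 2 < 10000 ∧ p3 (K.Φ v) ∈ O'}) :=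
        K.smoothΦ.mono inter_subset_left
      have h1 : ContDiffOn ℝ ∞ (fun v => κ' (p3 (K.Φ v)))
          (K.O ∩ {v | ‖p1 (K.Φ v)‖ ^ 2 < 10000 ∧ p3 (K.Φ v) ∈ O'}) :=
        h.smoothκ.comp (su_contDiff_p3.comp_contDiffOn h0) fun v hv => hv.2.2
      exact contDiff_j14.comp_contDiffOn
        (((su_contDiff_p1.comp_contDiffOn h0).prodMk (su_contDiff_p2.comp_contDiffOn h0)).prodMk h1)
    maps := fun q hq => by
      obtain ⟨h1, h2⟩ := K.maps _ (hdom q hq)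
      refine ⟨h1, h2, ?_⟩
      change ‖p1 (K.Φ (K.Ψ (jch ψ' q)))‖ ^ 2 < 10000 ∧ p3 (K.Φ (K.Ψ (jch ψ' q))) ∈ O'
      rw [hleft q hq]
      simp only [jch, p1_j15, p3_j15]
      exact ⟨hq.1, (h.maps _ hq.2).2⟩
    left := fun q hq => by
      rw [hleft q hq]
      simp only [jch, p1_j15, p2_j15, p3_j15]
      rw [h.left _ hq.2]
      exact j14_q q
    mapsκ := fun y hy => by
      obtain ⟨h1, h2, h3, h4⟩ := hy
      have h5 := K.mapsΦ y ⟨h1, h2⟩
      change ‖q1 (j14 (p1 (K.Φ y)) (p2 (K.Φ y)) (κ' (p3 (K.Φ y))))‖ ^ 2 < 10000 ∧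
        q3 (j14 (p1 (K.Φ y)) (p2 (K.Φ y)) (κ' (p3 (K.Φ y)))) ∈ U'
      rw [q1_j14, q3_j14]
      exact ⟨h3, h.mapsκ _ ⟨h5.2, h4⟩⟩
    right := fun y hy => by
      obtain ⟨h1, h2, h3, h4⟩ := hy
      have h5 := K.mapsΦ y ⟨h1, h2⟩
      simp only [jch, q1_j14, q2_j14, q3_j14]
      rw [h.right _ ⟨h5.2, h4⟩, j15_p]
      exact K.right y ⟨h1, h2⟩ }

end Pool.Agent.EXO
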