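import Mathlib
import Pool.Agent.EXO.SuPrC
import Pool.Agent.EXO.SuTan
import Pool.Agent.EXO.FmFAd

/-!
# EXO / SuPrK: the pull back to the piece `K`

PROOF of `restr_eq_zero`.  Let `z = K.Φ v ∈ dom gK N 20000`, `v = K.Ψ z` (`K.right`, `K.mapsΦ`).  `dom gK C.O 20000` is open (`gK` is
continuous, `C.O` is open) and contains `z` (`N ⊆ C.O`), so `K.Ψ` is differentiable at `z`; `K.Φ` is differentiable at `v ∈ K.O`.
For `y ∈ V` near `v` we have `K.Ψ (K.Φ y) = y` (`K.right`), so by `Geo.fderiv_tan` (with `f = K.Ψ ∘ K.Φ`, `g = id`):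
`P v w = fderiv ℝ K.Ψ z (fderiv ℝ K.Φ v (P v w))`, i.e. `P v = (fderiv ℝ K.Ψ z).comp T`, `T = (fderiv ℝ K.Φ v).comp (P v)`.  Hence
`FAMap (P v) (A v) = FAMap T (FAMap (fderiv ℝ K.Ψ z) (A v)) = FAMap T (pbF K.Ψ A z) = 0` (`FAMap_comp`, `FAMap_zero`).
-/

set_option autoImplicit false
set_option maxSynthPendingDepth 3

open Set Filter Topology MeasureTheory
open scoped ContDiff ENNReal

namespace Pool.Agent.EXO

theorem continuous_gK : Continuous gK := by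
  have ha : Continuous fun z : En 15 => ‖p1 z‖ ^ 2 := (su_contDiff_p1.continuous.norm).pow 2
  have hb : Continuous fun z : En 15 => ‖p2 z‖ ^ 2 := (su_contDiff_p2.continuous.norm).pow 2
  have h0 : ∀ z, 0 ≤ gK z := fun z => by unfold gK; positivity
  have h1 : ∀ z, gK z ≤ ‖p1 z‖ ^ 2 := fun z => by
    unfold gK
    rcases (add_nonneg (sq_nonneg ‖p1 z‖) (sq_nonneg ‖p2 z‖)).eq_or_lt with h | h
    · rw [← h, div_zero]
      positivity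
    · rw [div_le_iff₀ h]
      nlinarith [sq_nonneg ‖p1 z‖, sq_nonneg ‖p2 z‖, mul_nonneg (sq_nonneg ‖p1 z‖)
        (sq_nonneg ‖p1 z‖)]
  rw [continuous_iff_continuousAt]
  intro z
  by_cases h : ‖p1 z‖ ^ 2 + ‖p2 z‖ ^ 2 = 0
  · have hz : ‖p1 z‖ ^ 2 = 0 := by nlinarith [sq_nonneg ‖p1 z‖, sq_nonneg ‖p2 z‖]
    have h2 : gK z = 0 := le_antisymm ((h1 z).trans hz.le) (h0 z)
    have h3 : Tendsto (fun z : En 15 => ‖p1 z‖ ^ 2) (𝓝 z) (𝓝 0) := by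
      have := ha.continuousAt (x := z)
      rwa [ContinuousAt, hz] at this
    rw [ContinuousAt, h2]
    exact squeeze_zero h0 h1 h3
  · exact (ha.mul hb).continuousAt.div (ha.add hb).continuousAt h

/-- Points of a piece where the pull back of `A` vanishes. -/
theorem VData.restr_eq_zero {N : OrGeo 6 7} {C : Collar N.carrier} {l δ : ℝ}
    (𝒱 : VData N C l δ) {A : En 𝒱.M → FA 𝒱.M} {v : En 𝒱.M} (hv : v ∈ 𝒱.V.carrier)
    (hvO : v ∈ 𝒱.K.O) (h : pbF 𝒱.K.Ψ A (𝒱.K.Φ v) = 0) : FAMap (𝒱.V.P v) (A v) = 0 := by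
  have hz := 𝒱.K.mapsΦ v ⟨hv, hvO⟩
  have hr := 𝒱.K.right v ⟨hv, hvO⟩
  have hopen : IsOpen (dom gK C.O 20000) := by
    have : dom gK C.O 20000 = gK ⁻¹' Iio 20000 ∩ p3 ⁻¹' C.O := rfl
    rw [this]
    exact (isOpen_Iio.preimage continuous_gK).inter
      (C.openO.preimage su_contDiff_p3.continuous)
  have hz' : 𝒱.K.Φ v ∈ dom gK C.O 20000 := ⟨hz.1, C.mem_O hz.2⟩
  have d1 : DifferentiableAt ℝ 𝒱.K.Ψ (𝒱.K.Φ v) :=
    (𝒱.K.smoothΨ.contDiffAt (hopen.mem_nhds hz')).differentiableAt (by simp)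
  have d2 : DifferentiableAt ℝ 𝒱.K.Φ v :=
    (𝒱.K.smoothΦ.contDiffAt (𝒱.K.openO.mem_nhds hvO)).differentiableAt (by simp)
  have hP : 𝒱.V.P v = (fderiv ℝ 𝒱.K.Ψ (𝒱.K.Φ v)).comp
      ((fderiv ℝ 𝒱.K.Φ v).comp (𝒱.V.P v)) := by
    ext1 w
    have h1 := 𝒱.V.toGeo.fderiv_tan (f := fun y => 𝒱.K.Ψ (𝒱.K.Φ y)) (g := fun y => y) hv
      (d1.comp v d2) differentiableAt_id ?_ w
    · rw [fderiv_fun_id] at h1
      have h2 : fderiv ℝ (fun y => 𝒱.K.Ψ (𝒱.K.Φ y)) v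
          = (fderiv ℝ 𝒱.K.Ψ (𝒱.K.Φ v)).comp (fderiv ℝ 𝒱.K.Φ v) := fderiv_comp v d1 d2
      rw [h2] at h1
      exact h1.symm
    · filter_upwards [self_mem_nhdsWithin,
        nhdsWithin_le_nhds (𝒱.K.openO.mem_nhds hvO)] with y hy hy'
      exact 𝒱.K.right y ⟨hy, hy'⟩
  have h3 : FAMap (fderiv ℝ 𝒱.K.Ψ (𝒱.K.Φ v)) (A v) = 0 := by
    have : pbF 𝒱.K.Ψ A (𝒱.K.Φ v)
        = FAMap (fderiv ℝ 𝒱.K.Ψ (𝒱.K.Φ v)) (A (𝒱.K.Ψ (𝒱.K.Φ v))) := rfl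
    rw [this, hr] at h
    exact h
  rw [hP, FAMap_comp, h3, FAMap_zero]

end Pool.Agent.EXO
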