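import Mathlib
import Pool.Agent.EXO.SuDt
import Pool.Agent.EXO.SuPrC
import Pool.Agent.EXO.SuHv

/-!
# EXO / SuPrT: top forms of the product type

PROOFS.
* `top_split`: let `w : FA 6`.  By linearity (`sum_mon`) it is enough to take `w = mon S`.  If `S ≠ univ` then
  `S.card < 6`, `FAMap L (mon S)` has degree `S.card` (`isDeg_mon`, `isDeg_FAMap`), the product has degree `8 + S.card < 14`
  (`isDeg_mul`, `isDeg_prod_of1`), so both sides vanish.  If `S = univ`: `mon univ = (List.ofFn fun i => dx i).prod` (`mon_univ`),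
  `FAMap L (dx i) = dx (8 + i)` (`FAMap_of1`, `of1_bv`, `adjoint L (bv i) = bv (8 + i)` for the projection `L = q3`), so the
  product is `(List.ofFn fun i : Fin 14 => dx i).prod = mon univ` (`List.ofFn` of a sum of lengths: `List.ofFn_fin_append`, or
  unfold both lists: `simp [List.ofFn_succ]`, associativity), with top coefficient `1`.
* `fderiv_jch`: the derivative of `jch ψ'`; it is used through the pull backs: with `J = jch ψ'`:
  `FAMap (fderiv ℝ J q) (of1 (bv i)) = of1 (bv i)` for `i < 8` (the `i`-th coordinate of `J` is the `i`-th coordinate), and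
  `(fun z => C.rho (p3 z)) ∘ J = fun q => C.rho (ψ' (q3 q)) = fun q => ψ' (q3 q)` near `q` (`ψ'` maps `U'` to `N`, `rho_eq`).
* `pbF_jch`: `FAMap (fderiv ℝ J q)` is multiplicative, so the left side is
  `(E8 in FA 14) * FAMap (fderiv ℝ J q) (pbF (rho ∘ p3) α (J q))`, and the second factor is
  `pbF (rho ∘ p3 ∘ J) α q = pbF (ψ' ∘ q3) α q = pbF q3 (pbF ψ' α) q` (`pbF_comp`, chain rule; the derivative of `q3` is `q3` itself).
  Now use `top_split`.
-/

set_option autoImplicit false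
set_option maxSynthPendingDepth 3

open Set Filter Topology MeasureTheory
open scoped ContDiff ENNReal

namespace Pool.Agent.EXO

/-- `dx_1 ... dx_8` on `ℝ^14`. -/
noncomputable def e8 : FA 14 :=
  (List.ofFn fun i : Fin 8 => of1 (bv (⟨i, by omega⟩ : Fin 14))).prod

/-- `dx_1 ... dx_8` on `ℝ^15`. -/
noncomputable def e8' : FA 15 :=
  (List.ofFn fun i : Fin 8 => of1 (bv (⟨i, by omega⟩ : Fin 15))).prod

private theorem adj_eq_bv {a b : ℕ} {L : En a →L[ℝ] En b} {i : Fin b} {j : Fin a}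
    (h : ∀ x, L x i = x j) : ContinuousLinearMap.adjoint L (bv i) = bv j := by
  refine ext_inner_right ℝ fun x => ?_
  rw [ContinuousLinearMap.adjoint_inner_left, Geo.inner_bv, Geo.inner_bv, h]

private theorem fderiv_coord {a b : ℕ} {F : En a → En b} {q : En a} (hF : DifferentiableAt ℝ F q)
    (i : Fin b) (x : En a) : (fderiv ℝ F q x) i = fderiv ℝ (fun y => F y i) q x := by
  have h : HasFDerivAt (fun y => (EuclideanSpace.proj i : En b →L[ℝ] ℝ) (F y))
      ((EuclideanSpace.proj i : En b →L[ℝ] ℝ).comp (fderiv ℝ F q)) q :=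
    (EuclideanSpace.proj i : En b →L[ℝ] ℝ).hasFDerivAt.comp q hF.hasFDerivAt
  have h2 : fderiv ℝ (fun y => F y i) q
      = (EuclideanSpace.proj i : En b →L[ℝ] ℝ).comp (fderiv ℝ F q) := h.fderiv
  rw [h2]
  rfl

private theorem fderiv_proj {a : ℕ} (j : Fin a) (q x : En a) :
    fderiv ℝ (fun y : En a => y j) q x = x j := by
  have h : HasFDerivAt (fun y => (EuclideanSpace.proj j : En a →L[ℝ] ℝ) y)
      (EuclideanSpace.proj j : En a →L[ℝ] ℝ) q :=
    (EuclideanSpace.proj j : En a →L[ℝ] ℝ).hasFDerivAt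
  have h2 : fderiv ℝ (fun y : En a => y j) q = (EuclideanSpace.proj j : En a →L[ℝ] ℝ) := h.fderiv
  rw [h2]
  rfl

private theorem fderiv_q3_apply (q x : En 14) (i : Fin 6) :
    (fderiv ℝ q3 q x) i = x ⟨8 + i, by omega⟩ := by
  rw [fderiv_coord (contDiff_q3.differentiable (by simp) q)]
  exact fderiv_proj _ q x

private theorem e8_mul_e6 : e8 * (List.ofFn fun i : Fin 6 => dx (⟨8 + i, by omega⟩ : Fin 14)).prod
    = mon Finset.univ := by
  rw [mon_univ]
  unfold e8
  simp only [of1_bv]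
  rw [← List.prod_append, ← List.ofFn_fin_append]
  congr 2
  funext i
  refine Fin.addCases (m := 8) (n := 6) (fun i => ?_) (fun i => ?_) i
  · rw [Fin.append_left]
    rfl
  · rw [Fin.append_right]
    rfl

theorem top_split (q : En 14) (w : FA 6) :
    (e8 * FAMap (fderiv ℝ q3 q) w).co Finset.univ = w.co Finset.univ := by
  have key : ∀ S : Finset (Fin 6), (e8 * FAMap (fderiv ℝ q3 q) (mon S)).co Finset.univ
      = (mon S).co Finset.univ := by
    intro S
    by_cases hS : S = Finset.univ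
    · subst hS
      rw [mon_univ, ← FAHom_apply, map_list_prod, List.map_ofFn]
      have h1 : (fun i : Fin 6 => FAHom (fderiv ℝ q3 q) (dx i))
          = fun i : Fin 6 => dx (⟨8 + i, by omega⟩ : Fin 14) := by
        funext i
        rw [FAHom_apply, FAMap_dx, adj_eq_bv (fun x => fderiv_q3_apply q x i), of1_bv]
      have h2 : (⇑(FAHom (fderiv ℝ q3 q)) ∘ fun i : Fin 6 => dx i)
          = fun i : Fin 6 => dx (⟨8 + i, by omega⟩ : Fin 14) := h1
      rw [h2, e8_mul_e6, ← mon_univ, mon_co, mon_co, if_pos rfl, if_pos rfl]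
    · have hd : (e8 * FAMap (fderiv ℝ q3 q) (mon S)).IsDeg (8 + S.card) :=
        isDeg_mul (isDeg_prod_of1 _) (isDeg_FAMap (isDeg_mon S) _)
      have hc : S.card ≠ 6 := by
        intro h
        exact hS ((Finset.card_eq_iff_eq_univ S).1 (by simpa using h))
      rw [hd Finset.univ (by simp; omega), mon_co, if_neg (fun h => hS h.symm)]
  conv_lhs => rw [sum_mon w]
  conv_rhs => rw [sum_mon w]
  rw [FAMap_sum, Finset.mul_sum, co_sum, co_sum]
  refine Finset.sum_congr rfl fun S _ => ?_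
  rw [FAMap_smul, mul_smul_comm, FA.co_smul, FA.co_smul, key]

private theorem contDiffAt_jch {N : Set (En 7)} {U' : Set (En 6)} {ψ' : En 6 → En 7}
    {O' : Set (En 7)} {κ' : En 7 → En 6} (h : IsChart N U' ψ' O' κ')
    {q : En 14} (hq : q3 q ∈ U') : ContDiffAt ℝ ∞ (jch ψ') q := by
  have h1 : ContDiffAt ℝ ∞ (fun q => ((q1 q, q2 q), ψ' (q3 q))) q :=
    (contDiff_q1.contDiffAt.prodMk contDiff_q2.contDiffAt).prodMk
      ((h.contDiffAt_ψ hq).comp q contDiff_q3.contDiffAt)
  exact contDiff_j15.contDiffAt.comp q h1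

private theorem fderiv_jch_apply {N : Set (En 7)} {U' : Set (En 6)} {ψ' : En 6 → En 7}
    {O' : Set (En 7)} {κ' : En 7 → En 6} (h : IsChart N U' ψ' O' κ')
    {q : En 14} (hq : q3 q ∈ U') (x : En 14) (i : Fin 8) :
    (fderiv ℝ (jch ψ') q x) ⟨i, by omega⟩ = x ⟨i, by omega⟩ := by
  rw [fderiv_coord ((contDiffAt_jch h hq).differentiableAt (by simp))]
  have h1 : (fun y : En 14 => jch ψ' y ⟨i, by omega⟩) = fun y : En 14 => y ⟨i, by omega⟩ := by
    funext y
    simp only [jch, j15, q1, q2]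
    split_ifs with h1 h2
    · rfl
    · exact congrArg y (Fin.ext (by simp; omega))
    · exact absurd i.2 h2
  rw [h1, fderiv_proj]

theorem pbF_jch {N : Set (En 7)} (C : Collar N) {U' : Set (En 6)} {ψ' : En 6 → En 7}
    {O' : Set (En 7)} {κ' : En 7 → En 6} (h : IsChart N U' ψ' O' κ') (α : En 7 → FA 7)
    {q : En 14} (hq : q3 q ∈ U') :
    (FAMap (fderiv ℝ (jch ψ') q) (e8' * pbF (fun z => C.rho (p3 z)) α (jch ψ' q))).co
      Finset.univ = (pbF ψ' α (q3 q)).co Finset.univ := by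
  have h8 : FAMap (fderiv ℝ (jch ψ') q) e8' = e8 := by
    unfold e8 e8'
    rw [← FAHom_apply, map_list_prod, List.map_ofFn]
    congr 2
    funext i
    rw [Function.comp_apply, FAHom_apply, FAMap_of1]
    exact congrArg of1 (adj_eq_bv (fun x => fderiv_jch_apply h hq x i))
  have dJ : DifferentiableAt ℝ (jch ψ') q := (contDiffAt_jch h hq).differentiableAt (by simp)
  have hp3 : p3 (jch ψ' q) = ψ' (q3 q) := p3_j15 _ _ _
  have hO : p3 (jch ψ' q) ∈ C.O := by
    rw [hp3]
    exact C.mem_O (h.mem_V hq)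
  have drho : DifferentiableAt ℝ C.rho (p3 (jch ψ' q)) :=
    (C.smooth_rho.contDiffAt (C.openO.mem_nhds hO)).differentiableAt (by simp)
  have dr : DifferentiableAt ℝ (fun z => C.rho (p3 z)) (jch ψ' q) :=
    drho.comp (jch ψ' q) (su_contDiff_p3.differentiable (by simp) _)
  have hev : ((fun z => C.rho (p3 z)) ∘ jch ψ') =ᶠ[𝓝 q] (ψ' ∘ q3) := by
    filter_upwards [(h.openU.preimage contDiff_q3.continuous).mem_nhds hq] with y hy
    change C.rho (p3 (jch ψ' y)) = ψ' (q3 y)
    rw [show p3 (jch ψ' y) = ψ' (q3 y) from p3_j15 _ _ _]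
    exact C.rho_eq (h.mem_V hy)
  have e1 : FAMap (fderiv ℝ (jch ψ') q) (pbF (fun z => C.rho (p3 z)) α (jch ψ' q))
      = FAMap (fderiv ℝ q3 q) (pbF ψ' α (q3 q)) := by
    have h1 := pbF_comp (u := α) dr dJ
    have h2 := pbF_comp (u := α) (h.differentiableAt_ψ hq)
      (contDiff_q3.differentiable (by simp) q)
    have h3 : pbF ((fun z => C.rho (p3 z)) ∘ jch ψ') α q = pbF (ψ' ∘ q3) α q := by
      unfold pbF
      rw [hev.fderiv_eq, hev.eq_of_nhds]
    exact h1.trans (h3.trans h2.symm)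
  rw [FAMap_mul, h8, e1, top_split]

/-- The top coefficient of the pull back under a chart of a piece. -/
theorem VPiece.pbF_top {N : Set (En 7)} {C : Collar N} {M : ℕ} {V : Set (En M)}
    {g : En 15 → ℝ} (K : VPiece C V g)
    (hb : ∀ z : En 15, ‖p1 z‖ ^ 2 < 10000 → g z < 20000)
    {U' : Set (En 6)} {ψ' : En 6 → En 7} {O' : Set (En 7)} {κ' : En 7 → En 6}
    (h : IsChart N U' ψ' O' κ') {β : En M → FA M} {α : En 7 → FA 7} {c : ℂ} {q : En 14}
    (hq : ‖q1 q‖ ^ 2 < 10000) (hq' : q3 q ∈ U')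
    (hβ : pbF K.Ψ β (jch ψ' q) = c • (e8' * pbF (fun z => C.rho (p3 z)) α (jch ψ' q))) :
    (pbF (fun q => K.Ψ (jch ψ' q)) β q).co Finset.univ
      = c * (pbF ψ' α (q3 q)).co Finset.univ := by
  have hp3 : p3 (jch ψ' q) = ψ' (q3 q) := p3_j15 _ _ _
  have hp1 : p1 (jch ψ' q) = q1 q := p1_j15 _ _ _
  have hopen : IsOpen {z : En 15 | ‖p1 z‖ ^ 2 < 10000 ∧ p3 z ∈ C.O} :=
    (isOpen_Iio.preimage ((su_contDiff_p1.continuous.norm).pow 2)).inter
      (C.openO.preimage su_contDiff_p3.continuous)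
  have hmem : jch ψ' q ∈ {z : En 15 | ‖p1 z‖ ^ 2 < 10000 ∧ p3 z ∈ C.O} := by
    refine ⟨?_, ?_⟩
    · rw [hp1]
      exact hq
    · rw [hp3]
      exact C.mem_O (h.mem_V hq')
  have dΨ : DifferentiableAt ℝ K.Ψ (jch ψ' q) :=
    ((K.smoothΨ.mono fun z hz => ⟨hb z hz.1, hz.2⟩).contDiffAt
      (hopen.mem_nhds hmem)).differentiableAt (by simp)
  have dJ : DifferentiableAt ℝ (jch ψ') q := (contDiffAt_jch h hq').differentiableAt (by simp)
  have h1 := pbF_comp (u := β) dΨ dJ
  have h2 : pbF (fun q => K.Ψ (jch ψ' q)) β q = FAMap (fderiv ℝ (jch ψ') q)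
      (pbF K.Ψ β (jch ψ' q)) := h1.symm
  rw [h2, hβ, FAMap_smul, FA.co_smul, pbF_jch C h α hq']

end Pool.Agent.EXO
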