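import Mathlib
import Pool.Agent.EXO.FmFAd

/-!
# EXO / SuStR: the theorem of Stokes on `ℝ^m` for compactly supported forms
-/

set_option autoImplicit false
set_option maxSynthPendingDepth 3

open Set Filter Topology MeasureTheory
open scoped ContDiff ENNReal

namespace Pool.Agent.EXO

theorem integral_fderiv_eq_zero {m : ℕ} {F : Type*} [NormedAddCommGroup F] [NormedSpace ℝ F]
    {f : En m → F} (hf : ContDiff ℝ 1 f) (hc : HasCompactSupport f) (v : En m) :
    ∫ x, fderiv ℝ f x v = 0 := by
  have h := integral_smul_fderiv_eq_neg_fderiv_smul_of_integrable (μ := (volume : Measure (En m)))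
    (f := fun _ : En m => (1 : ℝ)) (g := f) (v := v) ?_ ?_ ?_ ?_ ?_
  · simpa using h
  · simp
  · simp only [one_smul]
    exact ((hf.continuous_fderiv one_ne_zero).clm_apply continuous_const).integrable_of_hasCompactSupport
      (hc.fderiv_apply ℝ v)
  · simp only [one_smul]
    exact hf.continuous.integrable_of_hasCompactSupport hc
  · intro x _
    exact differentiableAt_const _
  · intro x _
    exact hf.differentiable one_ne_zero x

/-- Stokes on `ℝ^m` for compactly supported forms. -/
theorem stokes_En {m : ℕ} {u : En m → FA m} (hu : ContDiff ℝ ∞ u) (hc : HasCompactSupport u) :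
    ∫ x, (dF u x).co Finset.univ = 0 := by
  let coL : Finset (Fin m) → FA m →L[ℝ] ℂ := fun I =>
    LinearMap.toContinuousLinearMap
      { toFun := fun w => w.co I
        map_add' := fun _ _ => rfl
        map_smul' := fun r w => by
          have h : r • w = (r : ℂ) • w := (Complex.coe_smul r w).symm
          rw [h]
          rfl }
  have h1 : ∀ x, (dF u x).co Finset.univ = ∑ a, sg a Finset.univ *
      fderiv ℝ (fun y => (u y).co (Finset.univ.erase a)) x (bv a) := by
    intro x
    rw [dF_eq, co_sum]
    refine Finset.sum_congr rfl fun a _ => ?_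
    rw [dx_mul_co, if_pos (Finset.mem_univ a)]
    congr 1
    have h2 : (fun y => (u y).co (Finset.univ.erase a)) = fun y => coL (Finset.univ.erase a) (u y) :=
      rfl
    rw [h2]
    have h3 : HasFDerivAt (fun y => coL (Finset.univ.erase a) (u y))
        ((coL (Finset.univ.erase a)).comp (fderiv ℝ u x)) x :=
      (coL _).hasFDerivAt.comp x (hu.differentiable (by simp) x).hasFDerivAt
    rw [h3.fderiv]
    rfl
  have hs : ∀ a, ContDiff ℝ 1 fun y => (u y).co (Finset.univ.erase a) := fun a =>
    (coL (Finset.univ.erase a)).contDiff.comp (hu.of_le (by simp))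
  have hs2 : ∀ a : Fin m, HasCompactSupport fun y => (u y).co (Finset.univ.erase a) := fun a =>
    hc.comp_left (g := fun w : FA m => w.co (Finset.univ.erase a)) rfl
  simp only [h1]
  rw [integral_finsetSum]
  · refine Finset.sum_eq_zero fun a _ => ?_
    rw [integral_const_mul, integral_fderiv_eq_zero (hs a) (hs2 a), mul_zero]
  · intro a _
    refine Integrable.const_mul ?_ _
    exact (((hs a).continuous_fderiv one_ne_zero).clm_apply
      continuous_const).integrable_of_hasCompactSupport ((hs2 a).fderiv_apply ℝ _)

end Pool.Agent.EXO
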