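import Mathlib
import Pool.Agent.EXO.SuCh

/-!
# EXO / SuZe: extension by zero

PROOF.  `g = U.indicator h`.  At a point `x ∉ K` the function `g` vanishes on the open set `Kᶜ`
(`K` compact, so closed), a neighbourhood of `x`.  At a point `x ∈ K ⊆ U` the function `g` agrees with `h` on the
neighbourhood `U`.  So `g` is `C^k` at every point (`ContDiffOn.contDiffAt`,
`ContDiffAt.congr_of_eventuallyEq`); `tsupport g ⊆ K` because `K` is closed.
-/

set_option autoImplicit false

open Set Filter Topology MeasureTheory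
open scoped ContDiff ENNReal

namespace Pool.Agent.EXO

/-- Extension by zero. -/
theorem contDiff_zero_ext {E F : Type*} [NormedAddCommGroup E] [NormedSpace ℝ E]
    [NormedAddCommGroup F] [NormedSpace ℝ F] {k : WithTop ℕ∞} {U K : Set E} (hU : IsOpen U)
    (hK : IsCompact K) (hKU : K ⊆ U) {h : E → F} (hh : ContDiffOn ℝ k h U)
    (h0 : ∀ x ∈ U, x ∉ K → h x = 0) :
    ContDiff ℝ k (U.indicator h) ∧ HasCompactSupport (U.indicator h) ∧
      tsupport (U.indicator h) ⊆ K := by
  have hout : ∀ x, x ∉ K → U.indicator h x = 0 := by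
    intro x hx
    by_cases hxU : x ∈ U
    · rw [Set.indicator_of_mem hxU]
      exact h0 x hxU hx
    · exact Set.indicator_of_notMem hxU _
  have hts : tsupport (U.indicator h) ⊆ K := by
    refine closure_minimal ?_ hK.isClosed
    intro x hx
    by_contra hxK
    exact hx (hout x hxK)
  refine ⟨contDiff_iff_contDiffAt.mpr fun x => ?_,
    HasCompactSupport.of_support_subset_isCompact hK (subset_closure.trans hts), hts⟩
  by_cases hx : x ∈ K
  · refine (hh.contDiffAt (hU.mem_nhds (hKU hx))).congr_of_eventuallyEq ?_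
    filter_upwards [hU.mem_nhds (hKU hx)] with y hy
    exact Set.indicator_of_mem hy _
  · refine (contDiffAt_const (c := (0 : F))).congr_of_eventuallyEq ?_
    filter_upwards [hK.isClosed.isOpen_compl.mem_nhds hx] with y hy
    exact hout y hy

/-- A function which has its support in the domain of a chart, in the coordinates. -/
theorem IsChart.comp_zero_ext {n M : ℕ} {V : Set (En M)} {U : Set (En n)} {ψ : En n → En M}
    {O : Set (En M)} {κ : En M → En n} (h : IsChart V U ψ O κ) (hV : IsCompact V)
    {F : Type*} [NormedAddCommGroup F] [NormedSpace ℝ F] {k : ℕ∞} {f : En M → F}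
    (hf : ContDiff ℝ k f) (hc : HasCompactSupport f) (hs : tsupport f ⊆ O) :
    ContDiff ℝ k (U.indicator fun u => f (ψ u)) ∧
      HasCompactSupport (U.indicator fun u => f (ψ u)) ∧
      tsupport (U.indicator fun u => f (ψ u)) ⊆ U := by
  have hK : IsCompact (κ '' (tsupport f ∩ V)) := by
    have h1 : IsCompact (tsupport f ∩ V) := hc.isCompact.inter hV
    exact h1.image_of_continuousOn (h.smoothκ.continuousOn.mono (inter_subset_left.trans hs))
  have hKU : κ '' (tsupport f ∩ V) ⊆ U := by
    rintro _ ⟨y, ⟨hy1, hy2⟩, rfl⟩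
    exact h.mapsκ y ⟨hy2, hs hy1⟩
  have hψk : ContDiffOn ℝ k ψ U := h.smoothψ.of_le (by exact_mod_cast le_top)
  have hh : ContDiffOn ℝ k (fun u => f (ψ u)) U := hf.comp_contDiffOn hψk
  obtain ⟨h1, h2, h3⟩ := contDiff_zero_ext h.openU hK hKU hh (fun u hu huK => by
    by_contra hne
    exact huK ⟨ψ u, ⟨subset_tsupport _ hne, h.mem_V hu⟩, h.left u hu⟩)
  exact ⟨h1, h2, h3.trans hKU⟩

end Pool.Agent.EXO
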