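import Mathlib
import Pool.Agent.EXO.SuOrB
import Pool.Agent.EXO.SuStR
import Pool.Agent.EXO.SuZe
import Pool.Agent.EXO.SuAtl

/-!
# EXO / SuStk: integrals of forms in a chart, the theorem of Stokes

PROOFS.
* `int_chart`: `Geo.integral_chart` for `f x = inner ℂ (vol x) (α x)`; `volF (fderiv ℝ ψ u) = |tv u|` and
  `(pbF ψ α u).co univ = tv u * inner (vol (ψ u)) (α (ψ u))` (`tv_spec`), so `|tv| * inner = (tv / |tv|) * (pbF ψ α u).co univ`
  (`tv / |tv| * tv = |tv|`).
* `int_dF`: let `A` be an atlas.  `γ i = χ i • β` (smooth, compact support in `O i`).  Near `V`: `β = ∑ i, γ i`, so on `V`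
  `dF β = ∑ i, dF (γ i)` (`dF_congr`, `dF_sum`), and `V.int (dF β) = ∑ i, V.int (dF (γ i))`.  Fix `i`, drop it:
  by `int_chart` (`dF γ` vanishes outside `tsupport γ ⊆ O`) `V.int (dF γ) = ∫ u in U, σ u * (pbF ψ (dF γ) u).co univ`,
  `σ = tv / |tv|`, and `pbF ψ (dF γ) u = dF (pbF ψ γ) u` for `u ∈ U` (`dF_pbF`).  Let
  `η = U.indicator (fun u => (σ u : ℂ) • pbF ψ γ u)`.  It is smooth with compact support: `contDiff_zero_ext` with
  `K = κ '' (tsupport γ ∩ V)`; `σ` is locally constant (`sign_tv`), so smooth on `U`, and `pbF ψ γ` is smooth on `U`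
  (`contDiffOn_pbF`).  For `u ∈ U`: `dF η u = σ u • dF (pbF ψ γ) u` (near `u`: `η = σ u • pbF ψ γ`; `dF_congr`, `dF_smul`); for
  `u ∉ U`: `u ∉ tsupport η`, so `dF η u = 0`.  Hence the integral is `∫ u, (dF η u).co univ = 0` (`stokes_En`).
-/

set_option autoImplicit false
set_option maxSynthPendingDepth 3

open Set Filter Topology MeasureTheory ContinuousLinearMap
open scoped ContDiff ENNReal

namespace Pool.Agent.EXO

variable {n M : ℕ}

/-- The integral of a form in a chart. -/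
theorem OrGeo.int_chart (V : OrGeo n M) {U : Set (En n)} {ψ : En n → En M} {O : Set (En M)}
    {κ : En M → En n} (h : IsChart V.carrier U ψ O κ) {α : En M → FA M}
    (hα : ContinuousOn α V.carrier)
    (h0 : ∀ x ∈ V.carrier, x ∉ O → inner ℂ (V.vol x) (α x) = 0) :
    V.int α = ∫ u in U, ((V.tv ψ u / |V.tv ψ u| : ℝ) : ℂ) * (pbF ψ α u).co Finset.univ := by
  have hc : ContinuousOn (fun x => inner ℂ (V.vol x) (α x)) V.carrier :=
    ContinuousOn.inner (𝕜 := ℂ) V.smooth_vol.continuous.continuousOn hα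
  unfold OrGeo.int
  rw [V.toGeo.integral_chart h (V.toGeo.aestronglyMeasurable hc) h0]
  refine setIntegral_congr_fun h.openU.measurableSet fun u hu => ?_
  obtain ⟨h1, h2, h3⟩ := V.tv_spec h hu
  have h4 : (pbF ψ α u).co Finset.univ = (V.tv ψ u : ℂ) * inner ℂ (V.vol (ψ u)) (α (ψ u)) :=
    h3 (α (ψ u))
  rw [h4, ← h1, Complex.real_smul, ← mul_assoc, ← Complex.ofReal_mul]
  congr 2
  have h5 : |V.tv ψ u| ≠ 0 := abs_ne_zero.2 h2
  rw [div_mul_eq_mul_div, eq_div_iff h5, abs_mul_abs_self]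

private theorem SuStk_dF_zero {m : ℕ} {γ : En m → FA m} {x : En m} (hx : x ∉ tsupport γ) :
    dF γ x = 0 := by
  have h1 : γ =ᶠ[𝓝 x] fun _ => 0 := by
    filter_upwards [(isClosed_tsupport γ).isOpen_compl.mem_nhds hx] with y hy
    exact image_eq_zero_of_notMem_tsupport hy
  rw [dF_congr h1]
  exact dF_const 0 x

private theorem SuStk_chart (V : OrGeo n M) {U : Set (En n)} {ψ : En n → En M} {O : Set (En M)}
    {κ : En M → En n} (h : IsChart V.carrier U ψ O κ) {γ : En M → FA M}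
    (hγ : ContDiff ℝ ∞ γ) (hc : HasCompactSupport γ) (hs : tsupport γ ⊆ O) :
    V.int (dF γ) = 0 := by
  rw [V.int_chart h (contDiff_dF hγ).continuous.continuousOn (fun x _ hx => by
    rw [SuStk_dF_zero (fun h' => hx (hs h')), inner_zero_right])]
  obtain ⟨f, hf⟩ : ∃ f : En n → FA n, f = fun u =>
    ((V.tv ψ u / |V.tv ψ u| : ℝ) : ℂ) • pbF ψ γ u := ⟨_, rfl⟩
  have hpb : ContDiffOn ℝ ∞ (pbF ψ γ) U :=
    contDiffOn_pbF h.openU h.openO h.smoothψ hγ.contDiffOn fun u hu => h.mem_O hu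
  have hloc : ∀ u ∈ U, f =ᶠ[𝓝 u] fun w => ((V.tv ψ u / |V.tv ψ u| : ℝ) : ℂ) • pbF ψ γ w := by
    intro u hu
    filter_upwards [V.sign_tv h hu] with w hw
    rw [hf]
    simp only [hw]
  have hfs : ContDiffOn ℝ ∞ f U := by
    intro u hu
    refine ContDiffAt.contDiffWithinAt ?_
    have h1 : ContDiffAt ℝ ∞ (fun w => ((V.tv ψ u / |V.tv ψ u| : ℝ) : ℂ) • pbF ψ γ w) u :=
      (hpb.contDiffAt (h.openU.mem_nhds hu)).const_smul _
    exact h1.congr_of_eventuallyEq (hloc u hu)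
  have hK : IsCompact (κ '' (tsupport γ ∩ V.carrier)) := by
    have h1 : IsCompact (tsupport γ) := hc
    refine (h1.inter_right V.compact.isClosed).image_of_continuousOn ?_
    exact h.smoothκ.continuousOn.mono fun y hy => hs hy.1
  have hKU : κ '' (tsupport γ ∩ V.carrier) ⊆ U := by
    rintro _ ⟨y, hy, rfl⟩
    exact h.mapsκ y ⟨hy.2, hs hy.1⟩
  obtain ⟨e1, e2, e3⟩ := contDiff_zero_ext h.openU hK hKU hfs (fun u hu hu' => by
    have h1 : γ (ψ u) = 0 := by
      by_contra h2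
      exact hu' ⟨ψ u, ⟨subset_tsupport _ h2, h.mem_V hu⟩, h.left u hu⟩
    have h2 : pbF ψ γ u = 0 := by
      unfold pbF
      rw [h1, FAMap_zero]
    rw [hf]
    simp only [h2, smul_zero])
  have hst := stokes_En e1 e2
  rw [← hst, ← MeasureTheory.integral_indicator h.openU.measurableSet]
  refine integral_congr_ae (Eventually.of_forall fun u => ?_)
  by_cases hu : u ∈ U
  · simp only [indicator_of_mem hu]
    have h1 : U.indicator f =ᶠ[𝓝 u]
        fun w => ((V.tv ψ u / |V.tv ψ u| : ℝ) : ℂ) • pbF ψ γ w := by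
      filter_upwards [hloc u hu, h.openU.mem_nhds hu] with w hw hw'
      rw [indicator_of_mem hw', hw]
    have h2 : DifferentiableAt ℝ (pbF ψ γ) u :=
      (hpb.contDiffAt (h.openU.mem_nhds hu)).differentiableAt (by simp)
    rw [dF_congr h1, dF_smul _ h2,
      dF_pbF ((h.contDiffAt_ψ hu).of_le (WithTop.coe_le_coe.2 (le_top : (2 : ℕ∞) ≤ ⊤)))
        (hγ.differentiable (by simp) (ψ u))]
    rfl
  · simp only [indicator_of_notMem hu]
    rw [SuStk_dF_zero (fun h' => hu (hKU (e3 h')))]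
    rfl

/-- Stokes, without a condition on the degree. -/
theorem OrGeo.int_dF (V : OrGeo n M) (hn : 0 < n) {β : En M → FA M} (hβ : ContDiff ℝ ∞ β) :
    V.int (dF β) = 0 := by
  obtain ⟨A⟩ := V.toClosedSub.exists_atl
  have hγ : ∀ i, ContDiff ℝ ∞ fun x => A.χ i x • β x := fun i => (A.smoothχ i).smul hβ
  have h1 : V.int (dF β) = V.int fun x => ∑ i, dF (fun x => A.χ i x • β x) x := by
    refine V.int_congr fun v hv => ?_
    have h2 : β =ᶠ[𝓝 v] fun x => ∑ i, A.χ i x • β x := by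
      have h3 := (eventually_nhdsSet_iff_forall.1 A.sum_one) v hv
      filter_upwards [h3] with x hx
      rw [← Finset.sum_smul, hx, one_smul]
    rw [dF_congr h2, dF_sum Finset.univ (fun i _ => (hγ i).differentiable (by simp) v)]
  rw [h1, V.int_sum Finset.univ (fun i => contDiff_dF (hγ i))]
  refine Finset.sum_eq_zero fun i _ => ?_
  refine SuStk_chart V (A.chart i) (hγ i) ?_ ?_
  · exact (A.compχ i).smul_right
  · exact (tsupport_smul_subset_left _ _).trans (A.suppχ i)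

/-- The theorem of Stokes. -/
theorem IF_stokes (n M : ℕ) (V : OrGeo (n + 1) M) (β : En M → FA M) (hβ : ContDiff ℝ ∞ β)
    (hd : ∀ x, (β x).IsDeg n) : V.int (dF β) = 0 := V.int_dF (Nat.succ_pos n) hβ

end Pool.Agent.EXO
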