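import Mathlib
import Pool.Agent.EXO.SuPrT
import Pool.Agent.EXO.SuPrK
import Pool.Agent.EXO.SuStk

/-!
# EXO / SuPrd: the product formula on the piece `K`, in a chart of `N`

PROOF.  `gK z ≤ ‖p1 z‖ ^ 2` (if the denominator is zero the quotient is zero), so `hb` holds for `g = gK`.
Let `𝒱 = (V, r, K, ..)`.
(1) `int_chart` for the chart `VPiece.isChart` (domain `U = {‖q1 q‖ ^ 2 < 10000, q3 q ∈ U'}`): let
`β v = χ (r v) • A v`.  We need `inner (vol v) (β v) = 0` for `v ∈ V` outside `K.O ∩ {‖p1 (Φ v)‖ ^ 2 < 10000, p3 (Φ v) ∈ O'}`: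
if `v ∉ K.O`: `h0` and `inner_vol_P`.  If `v ∈ K.O`, `z = Φ v ∈ dom gK N 20000`, `v = Ψ z`, `r v = p3 z` (`rK`): if `p3 z ∉ O'` then
`χ (r v) = 0`.  If `‖p1 z‖ ^ 2 ≥ 10000` then `g (p1 z) (p2 z) = 0`, so `pbF K.Ψ A z = 0`; then `FAMap (P v) (A v) = 0` by `restr_eq_zero`, and `inner_vol_P`.
(2) For `q ∈ U`, `z = jch ψ' q`: by `pbF_top` with `hK` (`c = χ (ψ' (q3 q)) * g (q1 q) (q2 q)`, since `r (Ψ z) = p3 z = ψ' (q3 q)`):
`(pbF ψ β q).co univ = χ (ψ' (q3 q)) * g (q1 q) (q2 q) * (pbF ψ' om (q3 q)).co univ`.  By `pbF_top` with `orient`: `tv_V q = c * tv_N (q3 q)` with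
`c > 0`, so the signs agree.
(3) `V.int β = ∫ q in U, g (q1 q) (q2 q) * (σ (q3 q) * χ (ψ' (q3 q)) * (pbF ψ' om (q3 q)).co univ)`; the integrand, extended by zero, is
`g (q1 q) (q2 q) * h (q3 q)` with `h = indicator U' (σ χ∘ψ' (pbF ψ' om).co univ)` for all `q` (`g = 0` if `‖q1 q‖ ≥ 100`).  By `integral_q` and
`integral_prod_mul` it is `(∫ g) * ∫ h = (∫ g) * N.int (χ • om)` (`int_chart` for `N`).
-/

set_option autoImplicit false
set_option maxSynthPendingDepth 3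

open Set Filter Topology MeasureTheory
open scoped ContDiff ENNReal

namespace Pool.Agent.EXO

private theorem SuPrd_hb : ∀ z : En 15, ‖p1 z‖ ^ 2 < 10000 → gK z < 20000 := by
  intro z hz
  have h1 : gK z ≤ ‖p1 z‖ ^ 2 := by
    unfold gK
    rcases eq_or_lt_of_le (add_nonneg (sq_nonneg ‖p1 z‖) (sq_nonneg ‖p2 z‖)) with h | h
    · rw [← h, div_zero]
      positivity
    · rw [div_le_iff₀ h]
      have h2 := sq_nonneg (‖p1 z‖ ^ 2)
      nlinarith [sq_nonneg ‖p1 z‖, sq_nonneg ‖p2 z‖]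
  linarith

private theorem SuPrd_pbF {a b : ℕ} {F : En a → En b} {χ : En b → ℂ} {A : En b → FA b}
    (z : En a) : pbF F (fun v => χ v • A v) z = χ (F z) • pbF F A z := by
  unfold pbF
  exact FAMap_smul _ _ _

/-- The product formula in a chart of `N`. -/
theorem int_prod_chart (N : OrGeo 6 7) (C : Collar N.carrier) (l δ : ℝ) (𝒱 : VData N C l δ)
    (om : En 7 → FA 7) (hom : ContDiff ℝ ∞ om)
    (g : En 4 → En 4 → ℂ) (hg : ContDiff ℝ ∞ fun p : En 4 × En 4 => g p.1 p.2)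
    (hgc : HasCompactSupport fun p : En 4 × En 4 => g p.1 p.2)
    (hgs : ∀ x y, 100 ≤ ‖x‖ → g x y = 0)
    (A : En 𝒱.M → FA 𝒱.M) (hA : ContDiff ℝ ∞ A)
    (hK : ∀ z ∈ dom gK N.carrier 20000, pbF 𝒱.K.Ψ A z = g (p1 z) (p2 z) •
      ((List.ofFn fun i : Fin 8 => of1 (bv (⟨i, by omega⟩ : Fin 15))).prod *
        pbF (fun z => C.rho (p3 z)) om z))
    (h0 : ∀ v ∈ 𝒱.V.carrier, v ∉ 𝒱.K.O → FAMap (𝒱.V.P v) (A v) = 0)
    {U' : Set (En 6)} {ψ' : En 6 → En 7} {O' : Set (En 7)} {κ' : En 7 → En 6}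
    (h : IsChart N.carrier U' ψ' O' κ') {χ : En 7 → ℝ} (hχ : ContDiff ℝ ∞ χ)
    (hs : tsupport χ ⊆ O') :
    𝒱.V.int (fun v => (χ (𝒱.r v) : ℂ) • A v)
      = (∫ p : En 4 × En 4, g p.1 p.2) * N.int (fun x => (χ x : ℂ) • om x) := by
  have hχ0 : ∀ x, x ∉ O' → χ x = 0 := fun x hx =>
    image_eq_zero_of_notMem_tsupport fun h' => hx (hs h')
  have hgs' : ∀ x y : En 4, ¬ ‖x‖ ^ 2 < 10000 → g x y = 0 := by
    intro x y hx
    refine hgs x y ?_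
    by_contra h1
    push Not at h1
    exact hx (by nlinarith [norm_nonneg x])
  have hchart := 𝒱.K.isChart SuPrd_hb h
  have hcont : ContinuousOn (fun v => (χ (𝒱.r v) : ℂ) • A v) 𝒱.V.carrier := by
    refine Continuous.continuousOn ?_
    have h1 : Continuous fun v => (χ (𝒱.r v) : ℂ) :=
      Complex.continuous_ofReal.comp (hχ.continuous.comp 𝒱.smooth_r.continuous)
    exact h1.smul hA.continuous
  have hzero : ∀ x ∈ 𝒱.V.carrier, x ∉ 𝒱.K.O ∩ {v | ‖p1 (𝒱.K.Φ v)‖ ^ 2 < 10000 ∧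
      p3 (𝒱.K.Φ v) ∈ O'} → inner ℂ (𝒱.V.vol x) ((χ (𝒱.r x) : ℂ) • A x) = 0 := by
    intro x hx hxO
    rw [inner_smul_right]
    by_cases hxK : x ∈ 𝒱.K.O
    · have hz := 𝒱.K.mapsΦ x ⟨hx, hxK⟩
      have hxz := 𝒱.K.right x ⟨hx, hxK⟩
      by_cases h1 : p3 (𝒱.K.Φ x) ∈ O'
      · have h2 : ¬ ‖p1 (𝒱.K.Φ x)‖ ^ 2 < 10000 := fun h3 => hxO ⟨hxK, h3, h1⟩
        have h3 : pbF 𝒱.K.Ψ A (𝒱.K.Φ x) = 0 := by
          rw [hK _ hz, hgs' _ _ h2, zero_smul]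
        rw [← 𝒱.V.inner_vol_P hx, 𝒱.restr_eq_zero hx hxK h3, inner_zero_right, mul_zero]
      · have h2 : 𝒱.r x = p3 (𝒱.K.Φ x) := by
          rw [← 𝒱.rK _ hz, hxz]
        rw [h2, hχ0 _ h1]
        simp
    · rw [← 𝒱.V.inner_vol_P hx, h0 x hx hxK, inner_zero_right, mul_zero]
  rw [𝒱.V.int_chart hchart hcont hzero]
  have hcontN : ContinuousOn (fun x => (χ x : ℂ) • om x) N.carrier := by
    refine Continuous.continuousOn ?_
    exact (Complex.continuous_ofReal.comp hχ.continuous).smul hom.continuous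
  rw [N.int_chart h hcontN (fun x _ hx => by
    rw [hχ0 x hx, inner_smul_right]
    simp)]
  -- the signs and the top coefficients
  obtain ⟨H, hH⟩ : ∃ H : En 6 → ℂ, H = U'.indicator fun y =>
    ((N.tv ψ' y / |N.tv ψ' y| : ℝ) : ℂ) *
      ((χ (ψ' y) : ℂ) * (pbF ψ' om y).co Finset.univ) := ⟨_, rfl⟩
  have hN : ∫ u in U', ((N.tv ψ' u / |N.tv ψ' u| : ℝ) : ℂ) *
      (pbF ψ' (fun x => (χ x : ℂ) • om x) u).co Finset.univ = ∫ y, H y := by
    rw [← MeasureTheory.integral_indicator h.openU.measurableSet, hH]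
    refine integral_congr_ae (Eventually.of_forall fun u => ?_)
    by_cases hu : u ∈ U'
    · simp only [indicator_of_mem hu]
      rw [SuPrd_pbF (F := ψ') (χ := fun x => (χ x : ℂ)) (A := om) u]
      rfl
    · simp only [indicator_of_notMem hu]
  have hV : ∫ u in {q : En 14 | ‖q1 q‖ ^ 2 < 10000 ∧ q3 q ∈ U'},
      ((𝒱.V.tv (fun q => 𝒱.K.Ψ (jch ψ' q)) u /
        |𝒱.V.tv (fun q => 𝒱.K.Ψ (jch ψ' q)) u| : ℝ) : ℂ) *
        (pbF (fun q => 𝒱.K.Ψ (jch ψ' q)) (fun v => (χ (𝒱.r v) : ℂ) • A v) u).co Finset.univ =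
      ∫ q : En 14, g (q1 q) (q2 q) * H (q3 q) := by
    rw [← MeasureTheory.integral_indicator hchart.openU.measurableSet]
    refine integral_congr_ae (Eventually.of_forall fun q => ?_)
    by_cases hq : q ∈ {q : En 14 | ‖q1 q‖ ^ 2 < 10000 ∧ q3 q ∈ U'}
    · obtain ⟨hq1, hq3⟩ := hq
      have hp1 : p1 (jch ψ' q) = q1 q := p1_j15 _ _ _
      have hp2 : p2 (jch ψ' q) = q2 q := p2_j15 _ _ _
      have hp3 : p3 (jch ψ' q) = ψ' (q3 q) := p3_j15 _ _ _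
      have hzN : jch ψ' q ∈ dom gK N.carrier 20000 := by
        refine ⟨SuPrd_hb _ (by rw [hp1]; exact hq1), ?_⟩
        rw [hp3]
        exact (h.maps _ hq3).1
      have hzC : jch ψ' q ∈ dom gK C.O 20000 := ⟨hzN.1, C.mem_O hzN.2⟩
      have hβ : pbF 𝒱.K.Ψ (fun v => (χ (𝒱.r v) : ℂ) • A v) (jch ψ' q) =
          ((χ (ψ' (q3 q)) : ℂ) * g (q1 q) (q2 q)) •
            (e8' * pbF (fun z => C.rho (p3 z)) om (jch ψ' q)) := by
        rw [SuPrd_pbF (F := 𝒱.K.Ψ) (χ := fun v => (χ (𝒱.r v) : ℂ)) (A := A), hK _ hzN,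
          𝒱.rK _ hzN, hp1, hp2, hp3, smul_smul]
        rfl
      have htop := 𝒱.K.pbF_top SuPrd_hb h hq1 hq3 hβ
      obtain ⟨c, hc, hor⟩ := 𝒱.orient _ hzC
      have htop2 := 𝒱.K.pbF_top SuPrd_hb h hq1 hq3 hor
      have htv : 𝒱.V.tv (fun q => 𝒱.K.Ψ (jch ψ' q)) q = c * N.tv ψ' (q3 q) := by
        have h1 := congrArg Complex.re htop2
        rw [Complex.re_ofReal_mul] at h1
        exact h1
      have hsg : 𝒱.V.tv (fun q => 𝒱.K.Ψ (jch ψ' q)) q /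
          |𝒱.V.tv (fun q => 𝒱.K.Ψ (jch ψ' q)) q| = N.tv ψ' (q3 q) / |N.tv ψ' (q3 q)| := by
        rw [htv, abs_mul, abs_of_pos hc, mul_div_mul_left _ _ hc.ne']
      have hqm : q ∈ {q : En 14 | ‖q1 q‖ ^ 2 < 10000 ∧ q3 q ∈ U'} := ⟨hq1, hq3⟩
      simp only [indicator_of_mem hqm]
      rw [htop, hsg, hH, indicator_of_mem hq3]
      ring
    · simp only [indicator_of_notMem hq]
      by_cases hq3 : q3 q ∈ U'
      · have hq1 : ¬ ‖q1 q‖ ^ 2 < 10000 := fun h1 => hq ⟨h1, hq3⟩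
        rw [hgs' _ _ hq1, zero_mul]
      · rw [hH, indicator_of_notMem hq3, mul_zero]
  rw [hV, hN, integral_q (fun x y z => g x y * H z)]
  exact integral_prod_mul (fun p : En 4 × En 4 => g p.1 p.2) H

end Pool.Agent.EXO
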