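import Mathlib
import Pool.Agent.EXO.SuPrd
import Pool.Agent.EXO.SuAtl

/-!
# EXO / SuPrE: the product formula on the piece `K`

PROOF.  Let `A'` be an atlas of `N` (`exists_atl`).  On `V`: `A v = ∑ i, χ i (r v) • A v`, because `r v ∈ N` (`r_maps`) and
`∑ i, χ i = 1` on `N` (`sum_one`, `Filter.Eventually.self_of_nhdsSet`).  So `V.int A = ∑ i, V.int (χ i (r ·) • A)` (`int_congr` /
`Geo.integral_congr`, `int_sum`), each summand is `(∫ g) * N.int (χ i • om)` by `int_prod_chart`, and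
`N.int om = ∑ i, N.int (χ i • om)` in the same way.
-/

set_option autoImplicit false
set_option maxSynthPendingDepth 3

open Set Filter Topology MeasureTheory
open scoped ContDiff ENNReal

namespace Pool.Agent.EXO

/-- The product formula on the piece `K`. -/
theorem int_prod_K (N : OrGeo 6 7) (C : Collar N.carrier) (l δ : ℝ) (𝒱 : VData N C l δ)
    (om : En 7 → FA 7) (hom : ContDiff ℝ ∞ om)
    (g : En 4 → En 4 → ℂ) (hg : ContDiff ℝ ∞ fun p : En 4 × En 4 => g p.1 p.2)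
    (hgc : HasCompactSupport fun p : En 4 × En 4 => g p.1 p.2)
    (hgs : ∀ x y, 100 ≤ ‖x‖ → g x y = 0)
    (A : En 𝒱.M → FA 𝒱.M) (hA : ContDiff ℝ ∞ A)
    (hK : ∀ z ∈ dom gK N.carrier 20000, pbF 𝒱.K.Ψ A z = g (p1 z) (p2 z) •
      ((List.ofFn fun i : Fin 8 => of1 (bv (⟨i, by omega⟩ : Fin 15))).prod *
        pbF (fun z => C.rho (p3 z)) om z))
    (h0 : ∀ v ∈ 𝒱.V.carrier, v ∉ 𝒱.K.O → FAMap (𝒱.V.P v) (A v) = 0) :
    𝒱.V.int A = (∫ p : En 4 × En 4, g p.1 p.2) * N.int om := by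
  obtain ⟨At⟩ := N.toGeo.toClosedSub.exists_atl
  have hsum : ∀ x ∈ N.carrier, ∑ i, At.χ i x = 1 := fun x hx =>
    At.sum_one.self_of_nhdsSet x hx
  have hsm : ∀ i, ContDiff ℝ ∞ fun v => (At.χ i (𝒱.r v) : ℂ) • A v := by
    intro i
    have h1 : ContDiff ℝ ∞ fun v => At.χ i (𝒱.r v) • A v :=
      ((At.smoothχ i).comp 𝒱.smooth_r).smul hA
    have h2 : (fun v => At.χ i (𝒱.r v) • A v) = fun v => (At.χ i (𝒱.r v) : ℂ) • A v :=
      funext fun v => (Complex.coe_smul _ _).symm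
    rwa [h2] at h1
  have hsm' : ∀ i, ContDiff ℝ ∞ fun x => (At.χ i x : ℂ) • om x := by
    intro i
    have h1 : ContDiff ℝ ∞ fun x => At.χ i x • om x := (At.smoothχ i).smul hom
    have h2 : (fun x => At.χ i x • om x) = fun x => (At.χ i x : ℂ) • om x :=
      funext fun v => (Complex.coe_smul _ _).symm
    rwa [h2] at h1
  have e1 : 𝒱.V.int A = ∑ i, 𝒱.V.int fun v => (At.χ i (𝒱.r v) : ℂ) • A v := by
    rw [← 𝒱.V.int_sum Finset.univ hsm]
    refine 𝒱.V.int_congr fun v hv => ?_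
    congr 1
    rw [← Finset.sum_smul, ← Complex.ofReal_sum, hsum _ (𝒱.r_maps v hv), Complex.ofReal_one,
      one_smul]
  have e2 : N.int om = ∑ i, N.int fun x => (At.χ i x : ℂ) • om x := by
    rw [← N.int_sum Finset.univ hsm']
    refine N.int_congr fun v hv => ?_
    congr 1
    rw [← Finset.sum_smul, ← Complex.ofReal_sum, hsum _ hv, Complex.ofReal_one, one_smul]
  rw [e1, e2, Finset.mul_sum]
  exact Finset.sum_congr rfl fun i _ => int_prod_chart N C l δ 𝒱 om hom g hg hgc hgs A hA hK h0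
    (At.chart i) (At.smoothχ i) (At.suppχ i)

end Pool.Agent.EXO
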