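import Mathlib
import Pool.Agent.EXO.ChFA
import Pool.Agent.EXO.DefG
import Pool.Agent.EXO.SuOrB
import Pool.Agent.EXO.SuStk
import Pool.Agent.EXO.SuPrE
import Pool.Agent.EXO.SuTanB
import Pool.Agent.EXO.SuTanC

/-!
# EXO / ChNdC: bridge to SUB (helper18)
-/

set_option autoImplicit false
set_option maxSynthPendingDepth 3

open Set MeasureTheory Matrix
open scoped ContDiff

namespace Pool.Agent.EXO.CH

variable {n M : ℕ}

/-- The integral only depends on the restriction to `V`. -/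
theorem OrGeo.int_congr_tan (V : OrGeo n M) {α β : En M → FA M}
    (h : ∀ v ∈ V.carrier, FAMap (V.P v) (α v) = FAMap (V.P v) (β v)) : V.int α = V.int β :=
  V.int_congr h

theorem OrGeo.int_add' (V : OrGeo n M) {α β : En M → FA M} (hα : ContDiff ℝ ∞ α)
    (hβ : ContDiff ℝ ∞ β) : V.int (fun x => α x + β x) = V.int α + V.int β := V.int_add hα hβ

theorem OrGeo.int_smul' (V : OrGeo n M) (c : ℂ) (α : En M → FA M) :
    V.int (fun x => c • α x) = c * V.int α := V.int_smul c α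

/-- Stokes, without a condition on the degree. -/
theorem OrGeo.int_dF (V : OrGeo n M) (hn : 0 < n) {β : En M → FA M} (hβ : ContDiff ℝ ∞ β) :
    V.int (dF β) = 0 := Pool.Agent.EXO.OrGeo.int_dF V hn hβ

/-- A form of degree different from `n` has integral zero. -/
theorem OrGeo.int_deg (V : OrGeo n M) {α : En M → FA M} {j : ℕ} (hj : j ≠ n)
    (hα : ∀ v ∈ V.carrier, (α v).IsDeg j) : V.int α = 0 := Pool.Agent.EXO.OrGeo.int_deg V hj hα

/-- Functions which vanish on `V` near `v` have tangential derivative zero at `v`. -/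
theorem Geo.fderiv_tan0 (V : Geo n M) {E : Type} [NormedAddCommGroup E] [NormedSpace ℝ E]
    {f : En M → E} {v : En M} (hv : v ∈ V.carrier) (hf : DifferentiableAt ℝ f v)
    (h0 : ∀ᶠ y in nhds v, y ∈ V.carrier → f y = 0) (w : En M) :
    fderiv ℝ f v (V.P v w) = 0 := by
  have h := V.fderiv_tan hv hf (differentiableAt_const (0 : E)) (g := fun _ => (0 : E))
    (by
      rw [eventually_nhdsWithin_iff]
      exact h0) w
  rw [h]
  simp

/-- Derivatives of maps into `V` are tangential. -/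
theorem Geo.P_fderiv_map (V : Geo n M) {a : ℕ} {F : En a → En M} {z : En a}
    (hF : DifferentiableAt ℝ F z) (h : ∀ᶠ y in nhds z, F y ∈ V.carrier) (w : En a) :
    V.P (F z) (fderiv ℝ F z w) = fderiv ℝ F z w := V.P_fderiv_of_maps hF h w

/-- The derivative of a map to another submanifold is tangential. -/
theorem Geo.P_fderiv_maps (V : Geo n M) {n' M' : ℕ} (G' : Geo n' M') {f : En M → En M'}
    {x : En M} (hx : x ∈ V.carrier) (hf : DifferentiableAt ℝ f x)
    (hm : ∀ y ∈ V.carrier, f y ∈ G'.carrier) (v : En M) :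
    G'.P (f x) (fderiv ℝ f x (V.P x v)) = fderiv ℝ f x (V.P x v) := by
  refine V.fderiv_maps G' hx hf ?_ v
  rw [eventually_nhdsWithin_iff]
  exact Filter.Eventually.of_forall fun y hy => hm y hy

/-- The trace of the projection. -/
theorem Geo.tr_P (V : Geo n M) {x : En M} (hx : x ∈ V.carrier) :
    ∑ a, V.P x (bv a) a = n := V.trace_P hx

/-- The projection factors through `ℝ^n`. -/
theorem Geo.P_factor (V : Geo n M) {x : En M} (hx : x ∈ V.carrier) :
    ∃ (A : En M →L[ℝ] En n) (B : En n →L[ℝ] En M), V.P x = B.comp A := by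
  obtain ⟨B, _, hB⟩ := V.exists_frame hx
  exact ⟨_, B, hB.symm⟩

/-- The restriction of `dF α` to `V` depends only on the restriction of `α` near the point. -/
theorem Geo.dF_restr (V : Geo n M) {α β : En M → FA M} {v : En M} (hv : v ∈ V.carrier)
    (hα : ContDiffAt ℝ ∞ α v) (hβ : ContDiffAt ℝ ∞ β v)
    (h : ∀ᶠ y in nhds v, y ∈ V.carrier → FAMap (V.P y) (α y) = FAMap (V.P y) (β y)) :
    FAMap (V.P v) (dF α v) = FAMap (V.P v) (dF β v) :=
  Pool.Agent.EXO.Geo.dF_restr V hv hα hβ h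

/-- The product formula on the piece `K`. -/
theorem int_prod_K (N : OrGeo 6 7) (C : Collar N.carrier) (l δ : ℝ) (𝒱 : VData N C l δ)
    (om : En 7 → FA 7) (hom : ContDiff ℝ ∞ om) (_ : ∀ x, (om x).IsDeg 6)
    (g : En 4 → En 4 → ℂ) (hg : ContDiff ℝ ∞ fun p : En 4 × En 4 => g p.1 p.2)
    (hgc : HasCompactSupport fun p : En 4 × En 4 => g p.1 p.2)
    (hgs : ∀ x y, 100 ≤ ‖x‖ → g x y = 0)
    (A : En 𝒱.M → FA 𝒱.M) (hA : ContDiff ℝ ∞ A)
    (hK : ∀ z ∈ dom gK N.carrier 20000, pbF 𝒱.K.Ψ A z = g (p1 z) (p2 z) •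
      ((List.ofFn fun i : Fin 8 => of1 (bv (⟨i, by omega⟩ : Fin 15))).prod *
        pbF (fun z => C.rho (p3 z)) om z))
    (h0 : ∀ v ∈ 𝒱.V.carrier, v ∉ 𝒱.K.O → FAMap (𝒱.V.P v) (A v) = 0) :
    𝒱.V.int A = (∫ p : En 4 × En 4, g p.1 p.2) * N.int om :=
  Pool.Agent.EXO.int_prod_K N C l δ 𝒱 om hom g hg hgc hgs A hA hK h0

end Pool.Agent.EXO.CH
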