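import Mathlib
import Pool.Agent.EXO.ChFrA
import Pool.Agent.EXO.ChInv
import Pool.Agent.EXO.ChNdC

/-!
# EXO / ChFrB: the frame of a piece

PROOFS.  `z ∈ dom g C.O 20000` (open, `isOpen_dom`), `v = X.Ψ z ∈ V ∩ X.O`.
* `exists_left`: the map `F (v', t) = j15 (p1 (Φ v')) (p2 (Φ v')) (C.io (p3 (Φ v')) t)` is differentiable at
  `(v, C.sc (p3 z))` (`X.smoothΦ`, `X.openO`, `C.smooth_io`), and for `z'` near `z`:
  `F (Ψ z', C.sc (p3 z')) = j15 (p1 z') (p2 z') (C.io (C.rho (p3 z')) (C.sc (p3 z'))) = z'` (`X.left`, `C.io_rho`).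
  Chain rule: `D F ∘ (D Ψ z, D (sc ∘ p3) z) = id`.  `B` is the matrix of `D F` with respect to the basis
  `(bv i, 0)`, `(0, 1)` of `En M × ℝ`; write vectors as `∑ x i • bv i`.
* `LJ`: `det_gram_ne` and `Matrix.nonsing_inv_mul`.
* `smooth_jacP`: `fderiv` of a smooth map on an open set, applied to `bv j`, component `i`.  `smooth_jacL`: products
  (entrywise sums of products) and `SmM.inv`.
* `JL_eq`: `proj_unique` with `Q = jacP * jacL`, `Q' = fromBlocks (Pmat) 0 0 1`: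
  `Q * Q = Q` from `LJ`; `Qᵀ = Q` (`Matrix.transpose_nonsing_inv`, `transpose_mul`);
  `Q'` is a symmetric projection (`V.P_idem`, `V.P_sa`; `Pmat` is the matrix of `V.P v`); `Q' * jacP = jacP`:
  rows in `Fin M`: `V.P v (fderiv Ψ z (bv j)) = fderiv Ψ z (bv j)` (`Geo.P_fderiv_map`, `Ψ` maps a neighbourhood of `z`
  to `V`); so `Q' * Q = Q`.  Traces: `trace Q = trace (L J) = 15` (`Matrix.trace_mul_comm`),
  `trace Q' = 14 + 1` (`Geo.tr_P`).
-/

set_option autoImplicit false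
set_option maxSynthPendingDepth 3
set_option linter.unusedSectionVars false

open Set MeasureTheory Matrix
open scoped ContDiff

namespace Pool.Agent.EXO.CH

/-- The matrix of the projection. -/
noncomputable def Pmat {n M : ℕ} (V : Geo n M) (v : En M) : Matrix (Fin M) (Fin M) ℝ :=
  Matrix.of fun i j => V.P v (bv j) i

private theorem sum_ap {m : ℕ} {κ : Type} (s : Finset κ) (f : κ → En m) (i : Fin m) :
    (∑ a ∈ s, f a) i = ∑ a ∈ s, f a i := by
  rw [WithLp.ofLp_sum, Finset.sum_apply]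

private theorem sbv {m : ℕ} (v : En m) : ∑ a, v a • (bv a : En m) = v := by
  ext i
  rw [sum_ap]
  simp [bv]

private theorem clm_sbv {m : ℕ} {E : Type} [NormedAddCommGroup E] [NormedSpace ℝ E]
    (A : En m →L[ℝ] E) (v : En m) : A v = ∑ a, v a • A (bv a) := by
  conv_lhs => rw [← sbv v]
  rw [map_sum]
  refine Finset.sum_congr rfl fun a _ => ?_
  rw [map_smul]

private theorem bv_apply {m : ℕ} (i j : Fin m) : (bv j : En m) i = if i = j then 1 else 0 := by
  simp [bv]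

private theorem inner_bv {m : ℕ} (v : En m) (j : Fin m) : inner ℝ (bv j : En m) v = v j := by
  simp [bv, EuclideanSpace.inner_single_left]

namespace VPiece

variable {N : Set (En 7)} {C : Collar N} {M : ℕ}

section

variable {V : Set (En M)} {g : En 15 → ℝ}

theorem exists_left (X : VPiece C V g) (hg : GoodG g) {z : En 15}
    (hz : z ∈ dom g C.O 20000) : ∃ B : Matrix (Fin 15) (Fin M ⊕ Unit) ℝ, B * jacP X z = 1 := by
  have hU : IsOpen (dom g C.O 20000) := isOpen_dom C hg 20000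
  have hΨd : DifferentiableAt ℝ X.Ψ z := (diff_Ψ X hg hz).differentiableAt (by simp)
  have hsc : DifferentiableAt ℝ (fun z => C.sc (p3 z)) z := by
    have h1 : ContDiffAt ℝ ∞ C.sc (p3 z) :=
      (C.smooth_sc _ hz.2).contDiffAt (C.openO.mem_nhds hz.2)
    exact (h1.comp z contDiff_p3.contDiffAt).differentiableAt (by simp)
  obtain ⟨D1, hD1⟩ : ∃ D1, D1 = fderiv ℝ X.Ψ z := ⟨_, rfl⟩
  obtain ⟨D2, hD2⟩ : ∃ D2, D2 = fderiv ℝ (fun z => C.sc (p3 z)) z := ⟨_, rfl⟩
  obtain ⟨G, hG⟩ : ∃ G : En M × ℝ → En 15, G = fun q =>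
      j15 (p1 (X.Φ q.1)) (p2 (X.Φ q.1)) (C.io (p3 (X.Φ q.1)) q.2) := ⟨_, rfl⟩
  have hGd : DifferentiableAt ℝ G (X.Ψ z, C.sc (p3 z)) := by
    have hΦ : ContDiffAt ℝ ∞ (fun q : En M × ℝ => X.Φ q.1) (X.Ψ z, C.sc (p3 z)) := by
      have h1 : ContDiffAt ℝ ∞ X.Φ (X.Ψ z) :=
        (X.smoothΦ _ (X.maps z hz).2).contDiffAt (X.openO.mem_nhds (X.maps z hz).2)
      exact ContDiffAt.comp (g := X.Φ) (f := fun q : En M × ℝ => q.1) _ h1 contDiffAt_fst
    have h2 : ContDiffAt ℝ ∞ (fun q : En M × ℝ => C.io (p3 (X.Φ q.1)) q.2)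
        (X.Ψ z, C.sc (p3 z)) := by
      have h3 : ContDiffAt ℝ ∞ (fun q : En M × ℝ => (p3 (X.Φ q.1), q.2))
          (X.Ψ z, C.sc (p3 z)) :=
        (contDiff_p3.contDiffAt.comp _ hΦ).prodMk contDiffAt_snd
      exact ContDiffAt.comp (g := fun p : En 7 × ℝ => C.io p.1 p.2)
        (f := fun q : En M × ℝ => (p3 (X.Φ q.1), q.2)) _ C.smooth_io.contDiffAt h3
    rw [hG]
    have h4 : ContDiffAt ℝ ∞ (fun q : En M × ℝ => (p1 (X.Φ q.1), p2 (X.Φ q.1),
        C.io (p3 (X.Φ q.1)) q.2)) (X.Ψ z, C.sc (p3 z)) :=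
      (contDiff_p1.contDiffAt.comp _ hΦ).prodMk ((contDiff_p2.contDiffAt.comp _ hΦ).prodMk h2)
    exact (ContDiffAt.comp (g := fun q : En 4 × En 4 × En 7 => j15 q.1 q.2.1 q.2.2)
      (f := fun q : En M × ℝ => (p1 (X.Φ q.1), p2 (X.Φ q.1), C.io (p3 (X.Φ q.1)) q.2)) _
      contDiff_j15.contDiffAt h4).differentiableAt (by simp)
  have hH : HasFDerivAt (fun z' : En 15 => (X.Ψ z', C.sc (p3 z'))) (D1.prod D2) z := by
    rw [hD1, hD2]
    exact hΨd.hasFDerivAt.prodMk hsc.hasFDerivAt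
  obtain ⟨A, hA⟩ : ∃ A, A = fderiv ℝ G (X.Ψ z, C.sc (p3 z)) := ⟨_, rfl⟩
  have hGA : HasFDerivAt G A (X.Ψ z, C.sc (p3 z)) := by
    rw [hA]
    exact hGd.hasFDerivAt
  have hcomp : HasFDerivAt (fun z' : En 15 => G (X.Ψ z', C.sc (p3 z')))
      (A.comp (D1.prod D2)) z := HasFDerivAt.comp z hGA hH
  have hid : (fun z' : En 15 => G (X.Ψ z', C.sc (p3 z'))) =ᶠ[nhds z] id := by
    filter_upwards [hU.mem_nhds hz] with z' hz'
    rw [hG]
    simp only [id]
    rw [X.left z' hz', p1_j15, p2_j15, p3_j15, (C.io_rho _ hz'.2).2.2, j15_p]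
  have hAD : A.comp (D1.prod D2) = ContinuousLinearMap.id ℝ (En 15) :=
    hcomp.unique ((hasFDerivAt_id z).congr_of_eventuallyEq hid)
  refine ⟨Matrix.of fun i k => Sum.elim (fun a => (A (bv a, 0)) i) (fun _ => (A (0, 1)) i) k, ?_⟩
  ext i j
  have h5 : A (D1 (bv j), D2 (bv j)) = bv j := DFunLike.congr_fun hAD (bv j)
  have h6 : A (D1 (bv j), D2 (bv j)) = ∑ a, (D1 (bv j)) a • A (bv a, 0) +
      D2 (bv j) • A (0, 1) := by
    have h7 : (D1 (bv j), D2 (bv j)) = ContinuousLinearMap.inl ℝ (En M) ℝ (D1 (bv j)) +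
        D2 (bv j) • ((0, 1) : En M × ℝ) := by
      ext <;> simp
    rw [h7, map_add, map_smul]
    congr 1
    exact clm_sbv (A.comp (ContinuousLinearMap.inl ℝ (En M) ℝ)) (D1 (bv j))
  rw [Matrix.mul_apply, Fintype.sum_sum_type]
  have h8 : (bv j : En 15) i = (1 : Matrix (Fin 15) (Fin 15) ℝ) i j := by
    rw [bv_apply, Matrix.one_apply]
  rw [← h8, ← h5, h6]
  simp only [Matrix.of_apply, Sum.elim_inl, Sum.elim_inr, jacP, ← hD1, ← hD2, PiLp.add_apply,
    PiLp.smul_apply, smul_eq_mul, Finset.univ_unique, Finset.sum_singleton]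
  congr 1
  · have h9 : (∑ a, (D1 (bv j)) a • A (bv a, 0)) i = ∑ a, ((D1 (bv j)) a • A (bv a, 0)) i := by
      rw [sum_ap]
    rw [h9]
    refine Finset.sum_congr rfl fun a _ => ?_
    rw [PiLp.smul_apply, smul_eq_mul, mul_comm]
  · rw [mul_comm]

theorem LJ (X : VPiece C V g) (hg : GoodG g) {z : En 15}
    (hz : z ∈ dom g C.O 20000) : jacL X z * jacP X z = 1 := by
  obtain ⟨B, hB⟩ := exists_left X hg hz
  have hd := det_gram_ne hB
  unfold jacL
  rw [Matrix.mul_assoc]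
  exact Matrix.nonsing_inv_mul _ (isUnit_iff_ne_zero.mpr hd)

theorem smooth_jacP (X : VPiece C V g) (hg : GoodG g) : SmM (dom g C.O 20000) (jacP X) := by
  have hU : IsOpen (dom g C.O 20000) := isOpen_dom C hg 20000
  intro i j
  rcases i with a | u
  · have h1 : ContDiffOn ℝ ∞ (fderiv ℝ X.Ψ) (dom g C.O 20000) :=
      X.smoothΨ.fderiv_of_isOpen hU (by simp)
    have h2 : ContDiffOn ℝ ∞ (fun z => fderiv ℝ X.Ψ z (bv j)) (dom g C.O 20000) :=
      h1.clm_apply contDiffOn_const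
    exact (EuclideanSpace.proj a : En M →L[ℝ] ℝ).contDiff.comp_contDiffOn h2
  · have h0 : ContDiffOn ℝ ∞ (fun z => C.sc (p3 z)) (dom g C.O 20000) :=
      C.smooth_sc.comp contDiff_p3.contDiffOn fun z hz => hz.2
    have h1 := h0.fderiv_of_isOpen hU (m := ∞) (by simp)
    exact h1.clm_apply contDiffOn_const

theorem smooth_jacL (X : VPiece C V g) (hg : GoodG g) : SmM (dom g C.O 20000) (jacL X) := by
  have hJ := smooth_jacP X hg
  have hG : SmM (dom g C.O 20000) (fun z => (jacP X z)ᵀ * jacP X z) := by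
    intro i j
    have h1 : (fun z => ((jacP X z)ᵀ * jacP X z) i j) =
        fun z => ∑ k, jacP X z k i * jacP X z k j := by
      funext z
      rw [Matrix.mul_apply]
      rfl
    rw [h1]
    exact ContDiffOn.sum fun k _ => (hJ k i).mul (hJ k j)
  have hI := SmM.inv hG fun z hz => by
    obtain ⟨B, hB⟩ := exists_left X hg hz
    exact det_gram_ne hB
  intro i j
  have h1 : (fun z => jacL X z i j) =
      fun z => ∑ k, ((jacP X z)ᵀ * jacP X z)⁻¹ i k * jacP X z j k := by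
    funext z
    unfold jacL
    rw [Matrix.mul_apply]
    rfl
  rw [h1]
  exact ContDiffOn.sum fun k _ => (hI i k).mul (hJ j k)

/-- The frame of a piece. -/
noncomputable def frame (X : VPiece C V g) (hg : GoodG g) :
    Frame (dom g C.O 20000) (Fin M ⊕ Unit) (Fin 15) where
  J := jacP X
  L := jacL X
  smoothJ := smooth_jacP X hg
  smoothL := smooth_jacL X hg
  LJ := fun _ hz => LJ X hg hz

end

theorem JL_eq (V : Geo 14 M) {g : En 15 → ℝ} (X : VPiece C V.carrier g) (hg : GoodG g)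
    {z : En 15} (hz : z ∈ dom g C.O 20000) :
    jacP X z * jacL X z = fromBlocks (Pmat V (X.Ψ z)) 0 0 1 := by
  have hLJ := LJ X hg hz
  have hv : X.Ψ z ∈ V.carrier := Ψ_mem X hz
  have hU : IsOpen (dom g C.O 20000) := isOpen_dom C hg 20000
  have hΨd : DifferentiableAt ℝ X.Ψ z := (diff_Ψ X hg hz).differentiableAt (by simp)
  -- the matrix of the projection
  have hPs : (Pmat V (X.Ψ z))ᵀ = Pmat V (X.Ψ z) := by
    ext i j
    have h1 := V.P_sa _ hv (bv i) (bv j)
    simp only [Pmat, Matrix.transpose_apply, Matrix.of_apply]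
    rw [← inner_bv (V.P (X.Ψ z) (bv j)) i, ← inner_bv (V.P (X.Ψ z) (bv i)) j, ← h1,
      real_inner_comm]
  have hPP : Pmat V (X.Ψ z) * Pmat V (X.Ψ z) = Pmat V (X.Ψ z) := by
    ext i j
    rw [Matrix.mul_apply]
    simp only [Pmat, Matrix.of_apply]
    have h1 := V.P_idem _ hv (bv j)
    rw [clm_sbv (V.P (X.Ψ z)) (V.P (X.Ψ z) (bv j))] at h1
    have h2 := congrArg (fun w : En M => w i) h1
    rw [sum_ap] at h2
    simp only [PiLp.smul_apply, smul_eq_mul] at h2
    rw [← h2]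
    exact Finset.sum_congr rfl fun k _ => mul_comm _ _
  have hPJ : fromBlocks (Pmat V (X.Ψ z)) 0 0 (1 : Matrix Unit Unit ℝ) * jacP X z =
      jacP X z := by
    ext i j
    rw [Matrix.mul_apply, Fintype.sum_sum_type]
    rcases i with a | u
    · simp only [Matrix.fromBlocks_apply₁₁, Matrix.fromBlocks_apply₁₂, Matrix.zero_apply,
        zero_mul, Finset.sum_const_zero, add_zero]
      simp only [Pmat, jacP, Matrix.of_apply, Sum.elim_inl]
      have h1 := Geo.P_fderiv_map V hΨd (by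
        filter_upwards [hU.mem_nhds hz] with y hy
        exact Ψ_mem X hy) (bv j)
      rw [clm_sbv (V.P (X.Ψ z))] at h1
      have h2 := congrArg (fun w : En M => w a) h1
      rw [sum_ap] at h2
      simp only [PiLp.smul_apply, smul_eq_mul] at h2
      rw [← h2]
      exact Finset.sum_congr rfl fun k _ => mul_comm _ _
    · simp only [Matrix.fromBlocks_apply₂₁, Matrix.fromBlocks_apply₂₂, Matrix.zero_apply,
        zero_mul, Finset.sum_const_zero, zero_add]
      simp [Matrix.one_apply]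
  symm
  refine proj_unique ?_ ?_ ?_ ?_ ?_ ?_
  · rw [Matrix.mul_assoc, ← Matrix.mul_assoc (jacL X z), hLJ, Matrix.one_mul]
  · unfold jacL
    rw [Matrix.transpose_mul, Matrix.transpose_mul, Matrix.transpose_transpose,
      Matrix.transpose_nonsing_inv, Matrix.transpose_mul, Matrix.transpose_transpose,
      Matrix.mul_assoc]
  · rw [Matrix.fromBlocks_multiply]
    simp [hPP]
  · rw [Matrix.fromBlocks_transpose, hPs]
    simp
  · rw [← Matrix.mul_assoc, hPJ]
  · have h1 : ∑ a, Pmat V (X.Ψ z) a a = 14 := by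
      have h2 := Geo.tr_P V hv
      simp only [Pmat, Matrix.of_apply]
      rw [h2]
      norm_num
    rw [Matrix.trace_mul_comm (jacP X z), hLJ, Matrix.trace_one]
    unfold Matrix.trace
    rw [Fintype.sum_sum_type]
    simp only [Matrix.diag_apply, Matrix.fromBlocks_apply₁₁, Matrix.fromBlocks_apply₂₂]
    rw [h1]
    simp
    norm_num

end VPiece

end Pool.Agent.EXO.CH
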