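import Mathlib
import Pool.Agent.EXO.ChFrB
import Pool.Agent.EXO.ChCsB

/-!
# EXO / ChFrD: `Ψ^* (sF 2) = d csF` on a piece

PROOF.
* `cM_matOf`: entrywise: `cM (matOf L) i j = algebraMap ((L (bv j) i : ℝ) : ℂ) = rF (L (bv j) i)`, by `rfl`.
* `dM_matOf`: entry `(i, j)`: with the real function `f y = V.P y (bv j) i` (smooth), the left side is
  `∑ a, fderiv ℝ (fun y => (f y : ℂ)) x (bv a) • of1 (bv a)`, the right side
  `dF (fun y => rF (f y)) x = ∑ a, of1 (bv a) * fderiv ℝ (fun y => rF (f y)) x (bv a)`; both derivatives are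
  computed from `fderiv ℝ f x (bv a)`: `((f' : ℝ) : ℂ)` and `rF f' = (f' : ℂ) • 1` (`Complex.ofRealCLM`, `rF_eq`,
  `HasFDerivAt`), and `of1 v * ((c : ℂ) • 1) = (c : ℂ) • of1 v`.
* `sF_piece`: `V.sF 2 v = trace (cM (matOf (V.P v)) * dM (fun y => matOf (V.P y)) v ^ 4)`
  `= trace (rM (Pmat V v) * DM (fun y => rM (Pmat V y)) v ^ 4)`.  Pull back by `Ψ` (`mapM_trace`, `mapM_mul`,
  `mapM_rM`, `pbM`, `DM_pbM`, `pbM_rM`): `pbF Ψ (sF 2) z = trace (rM (Pmat V (Ψ z)) * D ^ 4)`,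
  `D = DM (fun z' => rM (Pmat V (Ψ z'))) z`.  The matrix `Q z' = jacP z' * jacL z' = fromBlocks (Pmat V (Ψ z')) 0 0 1`
  near `z` (`JL_eq`), so `rM (Q z) = fromBlocks (rM (Pmat ..)) 0 0 1`, `DM (rM Q) z = fromBlocks D 0 0 0` (`DM_congr`,
  entrywise, `dF_const`), its fourth power is `fromBlocks (D ^ 4) 0 0 0` (`fromBlocks_multiply`), and the
  traces agree (`Matrix.trace_fromBlocks`).  Now `Frame.cs_exact` for `VPiece.frame X hg`.
-/

set_option autoImplicit false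
set_option maxSynthPendingDepth 3
set_option linter.unusedSectionVars false

open Set MeasureTheory Matrix
open scoped ContDiff

namespace Pool.Agent.EXO.CH

theorem cM_matOf {m : ℕ} (V : Geo 14 m) (x : En m) :
    (cM (matOf (V.P x)) : Matrix (Fin m) (Fin m) (FA m)) = rM (Pmat V x) := rfl

private theorem ChFrD_dP {m : ℕ} (V : Geo 14 m) (x : En m) (i j : Fin m) :
    DifferentiableAt ℝ (fun y => V.P y (bv j) i) x := by
  have h1 : ContDiff ℝ ∞ fun y => V.P y (bv j) := V.smoothP.clm_apply contDiff_const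
  have h2 : ContDiff ℝ ∞ fun y => V.P y (bv j) i :=
    (contDiff_piLp_apply (𝕜 := ℝ) (p := 2)).comp h1
  exact (h2.differentiable (by simp)) x

private theorem ChFrD_drF {m k : ℕ} {f : En m → ℝ} {x : En m} (hf : DifferentiableAt ℝ f x) :
    HasFDerivAt (fun y => (rF (f y) : FA k))
      ((Complex.ofRealCLM.comp (fderiv ℝ f x)).smulRight (1 : FA k)) x := by
  have h1 : HasFDerivAt (fun y => ((f y : ℝ) : ℂ)) (Complex.ofRealCLM.comp (fderiv ℝ f x)) x :=
    Complex.ofRealCLM.hasFDerivAt.comp x hf.hasFDerivAt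
  have h2 := h1.smul_const (1 : FA k)
  have h3 : (fun y => (rF (f y) : FA k)) = fun y => ((f y : ℝ) : ℂ) • (1 : FA k) := by
    funext y
    exact rF_eq _
  rw [h3]
  exact h2

theorem dM_matOf {m : ℕ} (V : Geo 14 m) (x : En m) :
    dM (fun y => matOf (V.P y)) x = DM (fun y => rM (Pmat V y)) x := by
  refine Matrix.ext fun i j => ?_
  obtain ⟨f, hfd⟩ : ∃ f : En m → ℝ, f = fun y => V.P y (bv j) i := ⟨_, rfl⟩
  have hf : DifferentiableAt ℝ f x := by
    rw [hfd]
    exact ChFrD_dP V x i j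
  have e1 : dM (fun y => matOf (V.P y)) x i j =
      ∑ a, fderiv ℝ (fun y => ((f y : ℝ) : ℂ)) x (bv a) • of1 (bv a) := by
    rw [hfd]
    rfl
  have e2 : DM (fun y => (rM (Pmat V y) : Matrix (Fin m) (Fin m) (FA m))) x i j =
      ∑ a, of1 (bv a) * fderiv ℝ (fun y => (rF (f y) : FA m)) x (bv a) := by
    rw [hfd]
    rfl
  rw [e1, e2]
  have h1 : fderiv ℝ (fun y => ((f y : ℝ) : ℂ)) x = Complex.ofRealCLM.comp (fderiv ℝ f x) :=
    (Complex.ofRealCLM.hasFDerivAt.comp x hf.hasFDerivAt).fderiv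
  rw [h1, (ChFrD_drF hf).fderiv]
  refine Finset.sum_congr rfl fun a _ => ?_
  rw [ContinuousLinearMap.smulRight_apply, mul_smul_comm, mul_one]

theorem sF_eq {m : ℕ} (V : Geo 14 m) (x : En m) :
    V.sF 2 x = trace (rM (Pmat V x) * DM (fun y => rM (Pmat V y)) x ^ 4) := by
  change trace (cM (matOf (V.P x)) * dM (fun y => matOf (V.P y)) x ^ (2 * 2)) = _
  rw [cM_matOf, dM_matOf]

private theorem ChFrD_mapM_pow {m k : ℕ} {a : Type} [Fintype a] [DecidableEq a]
    (L : En k →L[ℝ] En m) (X : Matrix a a (FA m)) : mapM L (X ^ 4) = mapM L X ^ 4 := by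
  have h : ∀ {R : Type} [Ring R] (Y : Matrix a a R), Y ^ 4 = Y * Y * Y * Y := by
    intro R _ Y
    rw [pow_succ, pow_succ, pow_succ, pow_one]
  rw [h, h, mapM_mul, mapM_mul, mapM_mul]

theorem VPiece.sF_piece {N : Set (En 7)} {C : Collar N} {M : ℕ} (V : Geo 14 M) {g : En 15 → ℝ}
    (X : VPiece C V.carrier g) (hg : GoodG g) {z : En 15} (hz : z ∈ dom g C.O 20000) :
    pbF X.Ψ (V.sF 2) z = dF (VPiece.frame X hg).csF z := by
  have hU : IsOpen (dom g C.O 20000) := isOpen_dom C hg 20000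
  have hΨ : ContDiffAt ℝ ∞ X.Ψ z := VPiece.diff_Ψ X hg hz
  obtain ⟨D, hD⟩ : ∃ D : Matrix (Fin M) (Fin M) (FA 15),
      D = DM (fun z' => rM (Pmat V (X.Ψ z'))) z := ⟨_, rfl⟩
  have hleft : pbF X.Ψ (V.sF 2) z = trace (rM (Pmat V (X.Ψ z)) * D ^ 4) := by
    change FAMap (fderiv ℝ X.Ψ z) (V.sF 2 (X.Ψ z)) = _
    rw [sF_eq, mapM_trace, mapM_mul, mapM_rM, ChFrD_mapM_pow]
    have h1 : mapM (fderiv ℝ X.Ψ z) (DM (fun y => rM (Pmat V y)) (X.Ψ z)) = D := by
      have h2 : DM (pbM X.Ψ (fun y => rM (Pmat V y))) z =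
          pbM X.Ψ (DM (fun y => rM (Pmat V y))) z := by
        refine DM_pbM (hΨ.of_le (WithTop.coe_le_coe.mpr (le_top : (2 : ℕ∞) ≤ ⊤))) fun i j => ?_
        exact (ChFrD_drF (ChFrD_dP V (X.Ψ z) i j)).differentiableAt
      have h3 : pbM X.Ψ (fun y => (rM (Pmat V y) : Matrix (Fin M) (Fin M) (FA M))) =
          fun z' => rM (Pmat V (X.Ψ z')) := by
        funext z'
        exact pbM_rM _ _ _
      rw [h3] at h2
      rw [hD, h2]
      rfl
    rw [h1]
  have hQ : ∀ y ∈ dom g C.O 20000, (frame X hg).J y * (frame X hg).L y =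
      fromBlocks (Pmat V (X.Ψ y)) 0 0 1 := fun y hy => JL_eq V X hg hy
  have hb : ∀ A : Matrix (Fin M) (Fin M) ℝ,
      (rM (fromBlocks A 0 0 (1 : Matrix Unit Unit ℝ)) :
        Matrix (Fin M ⊕ Unit) (Fin M ⊕ Unit) (FA 15)) = fromBlocks (rM A) 0 0 1 := by
    intro A
    refine Matrix.ext fun i j => ?_
    rcases i with i | i <;> rcases j with j | j
    · rfl
    · exact rF_zero
    · exact rF_zero
    · change rF ((1 : Matrix Unit Unit ℝ) i j) = (1 : Matrix Unit Unit (FA 15)) i j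
      rw [Subsingleton.elim i j, Matrix.one_apply_eq, Matrix.one_apply_eq, rF_one]
  have hDM : DM (fun y => rM ((frame X hg).J y * (frame X hg).L y)) z =
      fromBlocks D 0 0 (0 : Matrix Unit Unit (FA 15)) := by
    have h1 : DM (fun y => rM ((frame X hg).J y * (frame X hg).L y)) z =
        DM (fun y => (fromBlocks (rM (Pmat V (X.Ψ y))) 0 0 1 :
          Matrix (Fin M ⊕ Unit) (Fin M ⊕ Unit) (FA 15))) z := by
      refine DM_congr ?_
      filter_upwards [hU.mem_nhds hz] with y hy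
      rw [hQ y hy, hb]
    rw [h1]
    refine Matrix.ext fun i j => ?_
    rcases i with i | i <;> rcases j with j | j
    · rw [hD]
      rfl
    · exact dF_const 0 z
    · exact dF_const 0 z
    · exact dF_const ((1 : Matrix Unit Unit (FA 15)) i j) z
  rw [hleft, Frame.cs_exact hU (frame X hg) hz, hQ z hz, hb, hDM]
  have hp : (fromBlocks D 0 0 (0 : Matrix Unit Unit (FA 15))) ^ 4 = fromBlocks (D ^ 4) 0 0 0 := by
    have h : ∀ {a : Type} [Fintype a] [DecidableEq a] (Y : Matrix a a (FA 15)),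
        Y ^ 4 = Y * Y * Y * Y := by
      intro a _ _ Y
      rw [pow_succ, pow_succ, pow_succ, pow_one]
    rw [h, h D]
    simp only [fromBlocks_multiply, Matrix.mul_zero, Matrix.zero_mul, add_zero]
  have ht : ∀ A : Matrix (Fin M) (Fin M) (FA 15),
      trace (fromBlocks A 0 0 (0 : Matrix Unit Unit (FA 15))) = trace A := by
    intro A
    simp [Matrix.trace]
  rw [hp, fromBlocks_multiply]
  simp only [Matrix.mul_zero, Matrix.zero_mul, add_zero]
  exact (ht _).symm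

end Pool.Agent.EXO.CH
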