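import Mathlib
import Pool.Agent.EXO.ChFrA
import Pool.Agent.EXO.ChMatA
import Pool.Agent.EXO.ChNdC

/-!
# EXO / ChTan: forms on a piece and forms on `V`

Let `X` be a piece of `V`, `D = dom g C.O 20000` (open).

PROOFS.
* `pb_of_tan`: `fderiv Ψ z = (V.P (Ψ z)).comp (fderiv Ψ z)` (`Geo.P_fderiv_map`, `Ψ` maps `D` to `V`), so
  `pbF Ψ E z = FAMap (fderiv Ψ z) (E (Ψ z)) = FAMap (fderiv Ψ z) (FAMap (V.P (Ψ z)) (E (Ψ z)))` (`FAMap_comp`).
* `tan_of_pb`: let `v ∈ V ∩ X.O`, `z = Φ v ∈ dom g N 20000`, `Ψ z = v`.  The function `f y = Ψ (Φ y) - y` is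
  differentiable at `v` and vanishes on `V` near `v` (`X.right`), so `Geo.fderiv_tan0` gives
  `(fderiv Ψ z) ((fderiv Φ v) (V.P v w)) = V.P v w`; hence `V.P v = (fderiv Ψ z).comp ((fderiv Φ v).comp (V.P v))` and
  `FAMap (V.P v) (E v) = FAMap (..) (pbF Ψ E z)` (`FAMap_comp`).
* `pbF_R`: `pbF_comp` and `Ψ ∘ R = Ψ` near `z` (`Ψ_R`), `pbF_congr`.
* `dF_pbΨ`: `dF_pbF` (`E` smooth, `Ψ` smooth at `z`).
* `dF_R`: for a form `u` smooth on `D`: `dF (pbF C.R u) z = pbF C.R (dF u) z` (`dF_pbF`; `C.R z ∈ D`).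
* `tan_dF_zero`: `E = 0` on tangent vectors at the points of `V` near `v` implies the same for `dF E` at `v`
  (`Geo.dF_restr` with `β = 0`).
-/

set_option autoImplicit false
set_option maxSynthPendingDepth 3
set_option linter.unusedSectionVars false

open Set MeasureTheory Matrix
open scoped ContDiff

namespace Pool.Agent.EXO.CH

variable {n M : ℕ}

theorem Geo.tan_dF_zero (V : Geo n M) {E : En M → FA M} (hE : ContDiff ℝ ∞ E) {v : En M}
    (hv : v ∈ V.carrier)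
    (h : ∀ᶠ y in nhds v, y ∈ V.carrier → FAMap (V.P y) (E y) = 0) :
    FAMap (V.P v) (dF E v) = 0 := by
  have h1 := Geo.dF_restr V hv hE.contDiffAt (contDiffAt_const (c := (0 : FA M)))
    (h.mono fun y hy hyV => by rw [hy hyV, FAMap_zero])
  rw [h1, dF_const, FAMap_zero]

namespace VPiece

variable {N : Set (En 7)} {C : Collar N} {g : En 15 → ℝ}

theorem pb_of_tan (V : Geo n M) (X : VPiece C V.carrier g) (hg : GoodG g) {E E' : En M → FA M}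
    {z : En 15} (hz : z ∈ dom g C.O 20000)
    (h : FAMap (V.P (X.Ψ z)) (E (X.Ψ z)) = FAMap (V.P (X.Ψ z)) (E' (X.Ψ z))) :
    pbF X.Ψ E z = pbF X.Ψ E' z := by
  have hP : (V.P (X.Ψ z)).comp (fderiv ℝ X.Ψ z) = fderiv ℝ X.Ψ z := by
    ext1 w
    refine Geo.P_fderiv_map V ((VPiece.diff_Ψ X hg hz).differentiableAt (by simp)) ?_ w
    filter_upwards [(isOpen_dom C hg 20000).mem_nhds hz] with y hy
    exact (X.maps y hy).1
  have h1 : ∀ F : En M → FA M, pbF X.Ψ F z =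
      FAMap (fderiv ℝ X.Ψ z) (FAMap (V.P (X.Ψ z)) (F (X.Ψ z))) := by
    intro F
    rw [← FAMap_comp, hP]
    rfl
  rw [h1, h1, h]

private theorem ChTan_factor (V : Geo n M) (X : VPiece C V.carrier g) (hg : GoodG g)
    {z : En 15} (hz : z ∈ dom g C.O 20000) :
    ∃ T : En M →L[ℝ] En 15, V.P (X.Ψ z) = (fderiv ℝ X.Ψ z).comp T := by
  obtain ⟨F, hF⟩ : ∃ F : En M → En 15, ∀ y, F y =
      j15 (p1 (X.Φ y)) (p2 (X.Φ y)) (C.io (p3 (X.Φ y)) (C.sc (p3 z))) := ⟨_, fun _ => rfl⟩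
  have hm := X.maps z hz
  have hFz : F (X.Ψ z) = z := by
    rw [hF, X.left z hz]
    simp only [p1_j15, p2_j15, p3_j15]
    rw [(C.io_rho (p3 z) hz.2).2.2, j15_p]
  have hFV : ∀ y ∈ V.carrier, y ∈ X.O → X.Ψ (F y) = y := by
    intro y hy hyO
    have h1 := X.mapsΦ y ⟨hy, hyO⟩
    have h2 := C.io_mem (p3 (X.Φ y)) h1.2 (C.sc (p3 z)) (C.io_rho (p3 z) hz.2).2.1
    have h3 : F y ∈ dom g C.O 20000 := by
      refine ⟨?_, ?_⟩
      · have : g (F y) = g (X.Φ y) := by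
          apply hg.inv
          · rw [hF, p1_j15]
          · rw [hF, p2_j15]
        rw [this]
        exact h1.1
      · rw [hF, p3_j15]
        exact h2.1
    rw [← VPiece.Ψ_R X h3]
    have h4 : C.R (F y) = X.Φ y := by
      unfold Collar.R
      rw [hF]
      simp only [p1_j15, p2_j15, p3_j15]
      rw [h2.2.1, j15_p]
    rw [h4, X.right y ⟨hy, hyO⟩]
  have hFd : DifferentiableAt ℝ F (X.Ψ z) := by
    have h1 : ContDiffAt ℝ ∞ X.Φ (X.Ψ z) := X.smoothΦ.contDiffAt (X.openO.mem_nhds hm.2)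
    have h2 : ContDiffAt ℝ ∞ (fun y => j15 (p1 (X.Φ y)) (p2 (X.Φ y))
        (C.io (p3 (X.Φ y)) (C.sc (p3 z)))) (X.Ψ z) := by
      have h3 : ContDiffAt ℝ ∞ (fun y => C.io (p3 (X.Φ y)) (C.sc (p3 z))) (X.Ψ z) :=
        C.smooth_io.contDiffAt.comp (X.Ψ z)
          ((contDiff_p3.contDiffAt.comp (X.Ψ z) h1).prodMk contDiffAt_const)
      exact contDiff_j15.contDiffAt.comp (X.Ψ z)
        ((contDiff_p1.contDiffAt.comp (X.Ψ z) h1).prodMk
          ((contDiff_p2.contDiffAt.comp (X.Ψ z) h1).prodMk h3))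
    have h4 : F = fun y => j15 (p1 (X.Φ y)) (p2 (X.Φ y))
        (C.io (p3 (X.Φ y)) (C.sc (p3 z))) := funext hF
    rw [h4]
    exact h2.differentiableAt (by simp)
  have hΨd : DifferentiableAt ℝ X.Ψ (F (X.Ψ z)) := by
    rw [hFz]
    exact (VPiece.diff_Ψ X hg hz).differentiableAt (by simp)
  have hcomp : DifferentiableAt ℝ (fun y => X.Ψ (F y)) (X.Ψ z) := hΨd.comp (X.Ψ z) hFd
  have hsub : DifferentiableAt ℝ (fun y => X.Ψ (F y) - y) (X.Ψ z) := hcomp.sub differentiableAt_id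
  refine ⟨(fderiv ℝ F (X.Ψ z)).comp (V.P (X.Ψ z)), ?_⟩
  ext1 w
  have h5 := Geo.fderiv_tan0 V hm.1 hsub (by
    filter_upwards [X.openO.mem_nhds hm.2] with y hy hyV
    rw [hFV y hyV hy, sub_self]) w
  have h6 : fderiv ℝ (fun y => X.Ψ (F y) - y) (X.Ψ z) =
      (fderiv ℝ X.Ψ z).comp (fderiv ℝ F (X.Ψ z)) - ContinuousLinearMap.id ℝ (En M) := by
    have h9 : fderiv ℝ (fun y => X.Ψ (F y) - y) (X.Ψ z) =
        fderiv ℝ (fun y => X.Ψ (F y)) (X.Ψ z) - fderiv ℝ (fun y : En M => y) (X.Ψ z) :=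
      fderiv_fun_sub hcomp differentiableAt_id
    rw [h9, fderiv_fun_id]
    have h7 : fderiv ℝ (fun y => X.Ψ (F y)) (X.Ψ z) =
        (fderiv ℝ X.Ψ (F (X.Ψ z))).comp (fderiv ℝ F (X.Ψ z)) := fderiv_comp (X.Ψ z) hΨd hFd
    rw [h7, hFz]
  rw [h6] at h5
  have h8 : fderiv ℝ X.Ψ z (fderiv ℝ F (X.Ψ z) (V.P (X.Ψ z) w)) - V.P (X.Ψ z) w = 0 := h5
  exact (sub_eq_zero.1 h8).symm

private theorem ChTan_tan (V : Geo n M) (X : VPiece C V.carrier g) (hg : GoodG g)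
    {E E' : En M → FA M} {z : En 15} (hz : z ∈ dom g C.O 20000)
    (h : pbF X.Ψ E z = pbF X.Ψ E' z) :
    FAMap (V.P (X.Ψ z)) (E (X.Ψ z)) = FAMap (V.P (X.Ψ z)) (E' (X.Ψ z)) := by
  obtain ⟨T, hT⟩ := ChTan_factor V X hg hz
  rw [hT, FAMap_comp, FAMap_comp]
  exact congrArg _ h

theorem tan_of_pb (V : Geo n M) (X : VPiece C V.carrier g) (hg : GoodG g) {E E' : En M → FA M}
    {v : En M} (hv : v ∈ V.carrier) (hO : v ∈ X.O)
    (h : pbF X.Ψ E (X.Φ v) = pbF X.Ψ E' (X.Φ v)) :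
    FAMap (V.P v) (E v) = FAMap (V.P v) (E' v) := by
  have hz : X.Φ v ∈ dom g C.O 20000 := dom_sub C g 20000 (X.mapsΦ v ⟨hv, hO⟩)
  have h1 := ChTan_tan V X hg hz h
  rwa [X.right v ⟨hv, hO⟩] at h1

private theorem ChTan_pb0 {V : Set (En M)} (X : VPiece C V g) (z : En 15) :
    pbF X.Ψ (fun _ => (0 : FA M)) z = 0 := FAMap_zero _

/-- The case `E' = 0`. -/
theorem tan_zero_iff (V : Geo n M) (X : VPiece C V.carrier g) (hg : GoodG g) {E : En M → FA M}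
    {z : En 15} (hz : z ∈ dom g C.O 20000) :
    FAMap (V.P (X.Ψ z)) (E (X.Ψ z)) = 0 ↔ pbF X.Ψ E z = 0 := by
  constructor
  · intro h
    rw [pb_of_tan V X hg hz (E' := fun _ => 0) (by rw [h, FAMap_zero]), ChTan_pb0]
  · intro h
    rw [ChTan_tan V X hg hz (E' := fun _ => 0) (by rw [h, ChTan_pb0]), FAMap_zero]

variable {V : Set (En M)}

theorem pbF_R (X : VPiece C V g) (hg : GoodG g) (E : En M → FA M) {z : En 15}
    (hz : z ∈ dom g C.O 20000) : pbF C.R (pbF X.Ψ E) z = pbF X.Ψ E z := by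
  have hR : ContDiffAt ℝ ∞ C.R z :=
    (contDiffOn_R C g 20000).contDiffAt ((isOpen_dom C hg 20000).mem_nhds hz)
  have hRz : C.R z ∈ dom g C.O 20000 := dom_sub C g 20000 (R_mem C hg hz)
  have hΨ : ContDiffAt ℝ ∞ X.Ψ (C.R z) := VPiece.diff_Ψ X hg hRz
  rw [pbF_comp (hΨ.differentiableAt (by simp)) (hR.differentiableAt (by simp))]
  refine pbF_congr ?_ rfl
  filter_upwards [(isOpen_dom C hg 20000).mem_nhds hz] with y hy
  exact VPiece.Ψ_R X hy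

theorem dF_pbΨ (X : VPiece C V g) (hg : GoodG g) {E : En M → FA M} (hE : ContDiff ℝ ∞ E)
    {z : En 15} (hz : z ∈ dom g C.O 20000) : dF (pbF X.Ψ E) z = pbF X.Ψ (dF E) z :=
  dF_pbF ((VPiece.diff_Ψ X hg hz).of_le ENat.LEInfty.out)
    (hE.contDiffAt.differentiableAt (by simp))

theorem contDiffOn_pbΨ (X : VPiece C V g) (hg : GoodG g) {E : En M → FA M}
    (hE : ContDiff ℝ ∞ E) : ContDiffOn ℝ ∞ (pbF X.Ψ E) (dom g C.O 20000) :=
  contDiffOn_pbF (U := Set.univ) (isOpen_dom C hg 20000) X.smoothΨ (fun _ _ => mem_univ _)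
    hE.contDiffOn

end VPiece

theorem dF_R {N : Set (En 7)} (C : Collar N) {g : En 15 → ℝ} (hg : GoodG g) {u : En 15 → FA 15}
    {c : ℝ} (hu : ContDiffOn ℝ ∞ u (dom g C.O c)) {z : En 15} (hz : z ∈ dom g C.O c) :
    dF (pbF C.R u) z = pbF C.R (dF u) z := by
  have hR : ContDiffAt ℝ ∞ C.R z :=
    (contDiffOn_R C g c).contDiffAt ((isOpen_dom C hg c).mem_nhds hz)
  have hRz : C.R z ∈ dom g C.O c := dom_sub C g c (R_mem C hg hz)
  have hu' : ContDiffAt ℝ ∞ u (C.R z) := hu.contDiffAt ((isOpen_dom C hg c).mem_nhds hRz)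
  exact dF_pbF (hR.of_le ENat.LEInfty.out) (hu'.differentiableAt (by simp))

end Pool.Agent.EXO.CH
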