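import Mathlib
import Pool.Agent.EXO.ChTan
import Pool.Agent.EXO.ChFrD

/-!
# EXO / ChCl: closedness of `sF 2`, `α'`, `w`, `γ`

PROOFS.
* `contDiff_sF`: the entries of `cM (matOf (V.P x))` and of `dM (fun y => matOf (V.P y)) x` are smooth functions of `x`
  (`V.smoothP`; `contDiff_mulFA`); finite products and sums.  `deg_sF`: `dM` has entries of degree `1`
  (`isDeg_sum`, `isDeg_smul`, `isDeg_of1`), `cM` degree `0` (`deg_algebraMap`), `deg_mulM`, `0 + 4`.
* `pb_dF_sF`: `pbF Ψ (dF (sF 2)) z = dF (pbF Ψ (sF 2)) z` (`dF_pbΨ`) `= dF (dF csF) z` (`sF_piece` on the open set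
  `dom g C.O 20000`, `dF_congr`) `= 0` (`dF_dF`, `contDiffOn_csF`).
* `w_closed`: see `Geo.P_fderiv_maps`, `Geo.P_factor`, `FAMap_rank`: `dF (pbF r om) v = pbF r (dF om) v`
  `= FAMap (fderiv r v) β`, `β = dF om (r v)` of degree `7` (`deg_dF`); `FAMap (V.P v) (FAMap (fderiv r v) β) =
  FAMap ((fderiv r v).comp (V.P v)) β`, and `(fderiv r v).comp (V.P v) = (N.P (r v)).comp ((fderiv r v).comp (V.P v))`, so it is
  `FAMap ((fderiv r v).comp (V.P v)) (FAMap (N.P (r v)) β)` and `FAMap (N.P (r v)) β = 0`.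
* `FD` versions: `al v = sF 2 v - dF b v`, `dF (dF b) = 0` (`dF_sub'`, `dF_dF`), `ga = al * w`, product rule
  (`dF_mul_even`, degree `4`), `pbF_mul`; `pbF Ψ` of a form which vanishes on tangent vectors of `V` at `Ψ z` is zero
  (`pb_of_tan`).
* `dF_pb_*`: `dF_pbΨ`.
* `al_cs`: `sF_piece`, `dF_pbΨ` for `b`, `dF_sub'`.
-/

set_option autoImplicit false
set_option maxSynthPendingDepth 3
set_option linter.unusedSectionVars false

open Set MeasureTheory Matrix
open scoped ContDiff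

namespace Pool.Agent.EXO.CH

private theorem ChCl_cM {n M : ℕ} (V : Geo n M) : SmM univ fun x =>
    (cM (matOf (V.P x)) : Matrix (Fin M) (Fin M) (FA M)) := by
  intro i j
  have h1 : ContDiff ℝ ∞ fun x => (V.P x (bv j)) i :=
    (contDiff_euclidean.1 (V.smoothP.clm_apply contDiff_const)) i
  exact (contDiff_rF.comp h1).contDiffOn

private theorem ChCl_dM {n M : ℕ} (V : Geo n M) : SmM univ fun x =>
    dM (fun y => matOf (V.P y)) x := by
  intro i j
  have h1 : ContDiff ℝ ∞ fun x => (V.P x (bv j)) i :=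
    (contDiff_euclidean.1 (V.smoothP.clm_apply contDiff_const)) i
  have h2 : ContDiff ℝ ∞ fun x => (((V.P x (bv j)) i : ℝ) : ℂ) := Complex.ofRealCLM.contDiff.comp h1
  change ContDiffOn ℝ ∞ (fun x => ∑ a, (fderiv ℝ (fun y => (((V.P y (bv j)) i : ℝ) : ℂ)) x (bv a))
    • of1 (bv a)) univ
  refine ContDiffOn.sum fun a _ => ?_
  have h3 : ContDiff ℝ ∞ fun x => fderiv ℝ (fun y => (((V.P y (bv j)) i : ℝ) : ℂ)) x (bv a) :=
    (h2.fderiv_right (m := ∞) (by simp)).clm_apply contDiff_const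
  exact (h3.smul contDiff_const).contDiffOn

private theorem ChCl_pow {m : ℕ} {a : Type} [Fintype a] [DecidableEq a]
    {X : En m → Matrix a a (FA m)} (hX : SmM univ X) (k : ℕ) : SmM univ fun x => X x ^ k := by
  induction k with
  | zero =>
    intro i j
    simp only [pow_zero]
    exact contDiffOn_const
  | succ k ih =>
    simp only [pow_succ]
    exact ih.mul hX

theorem contDiff_sF {n M : ℕ} (V : Geo n M) (k : ℕ) : ContDiff ℝ ∞ (V.sF k) := by
  rw [← contDiffOn_univ]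
  exact contDiffOn_trace ((ChCl_cM V).mul (ChCl_pow (ChCl_dM V) (2 * k)))

private theorem ChCl_dpow {m : ℕ} {a : Type} [Fintype a] [DecidableEq a]
    {X : Matrix a a (FA m)} (hX : ∀ p q, (X p q).IsDeg 1) (k : ℕ) (p q : a) :
    ((X ^ k) p q).IsDeg k := by
  induction k generalizing p q with
  | zero =>
    rw [pow_zero]
    by_cases h : p = q
    · subst h
      rw [Matrix.one_apply_eq]
      exact isDeg_one
    · rw [Matrix.one_apply_ne h]
      intro I _
      rfl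
  | succ k ih =>
    rw [pow_succ]
    exact deg_mulM ih hX p q

theorem deg_sF {n M : ℕ} (V : Geo n M) (k : ℕ) (v : En M) : (V.sF k v).IsDeg (2 * k) := by
  unfold Geo.sF
  rw [Matrix.trace]
  refine isDeg_sum _ fun i _ => ?_
  rw [Matrix.diag_apply]
  have h := deg_mulM (i := 0) (j := 2 * k)
    (X := (cM (matOf (V.P v)) : Matrix (Fin M) (Fin M) (FA M)))
    (Y := dM (fun y => matOf (V.P y)) v ^ (2 * k))
    (fun p q => deg_algebraMap _)
    (fun p q => ChCl_dpow (fun p q => isDeg_sum _ fun a _ => isDeg_smul (isDeg_of1 _) _) _ p q) i i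
  rwa [zero_add] at h

theorem VPiece.pb_dF_sF {N : Set (En 7)} {C : Collar N} {M : ℕ} (V : Geo 14 M) {g : En 15 → ℝ}
    (X : VPiece C V.carrier g) (hg : GoodG g) {z : En 15} (hz : z ∈ dom g C.O 20000) :
    pbF X.Ψ (dF (V.sF 2)) z = 0 := by
  have hU := isOpen_dom C hg 20000
  rw [← VPiece.dF_pbΨ X hg (contDiff_sF V 2) hz]
  have h1 : pbF X.Ψ (V.sF 2) =ᶠ[nhds z] dF (VPiece.frame X hg).csF := by
    filter_upwards [hU.mem_nhds hz] with y hy
    exact VPiece.sF_piece V X hg hy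
  rw [dF_congr h1]
  exact dF_dF (((Frame.contDiffOn_csF hU (VPiece.frame X hg)).contDiffAt
    (hU.mem_nhds hz)).of_le (by norm_cast))

theorem w_closed {n M : ℕ} (V : Geo n M) (N : Geo 6 7) {r : En M → En 7} (hr : ContDiff ℝ ∞ r)
    (hm : ∀ v ∈ V.carrier, r v ∈ N.carrier) {om : En 7 → FA 7} (hom : ContDiff ℝ ∞ om)
    (hd : ∀ x, (om x).IsDeg 6) {v : En M} (hv : v ∈ V.carrier) :
    FAMap (V.P v) (dF (pbF r om) v) = 0 := by
  have hr1 : DifferentiableAt ℝ r v := (hr.differentiable (by simp)) v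
  rw [dF_pbF (hr.contDiffAt.of_le (by norm_cast))
    ((hom.differentiable (by simp)) (r v))]
  unfold pbF
  rw [← FAMap_comp]
  have h1 : (fderiv ℝ r v).comp (V.P v) = (N.P (r v)).comp ((fderiv ℝ r v).comp (V.P v)) := by
    ext1 w
    exact (Geo.P_fderiv_maps V N hv hr1 hm w).symm
  rw [h1, FAMap_comp, FAMap_comp]
  obtain ⟨A, B, hAB⟩ := Geo.P_factor N (hm v hv)
  have h2 : FAMap (N.P (r v)) (dF om (r v)) = 0 :=
    FAMap_rank (j := 7) (r := 6) _ A B hAB (by norm_num)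
      (deg_dF (j := 6) (Filter.Eventually.of_forall hd))
  rw [h2, FAMap_zero, FAMap_zero]

namespace FD

variable {N : OrGeo 6 7} {C : Collar N.carrier} {l : ℝ} {W : WD N C l} (D : FD W)

theorem contDiff_al : ContDiff ℝ ∞ D.al :=
  (contDiff_sF W.V.toGeo 2).sub (contDiff_dF D.smooth_b)

theorem deg_al (v : En W.M) : (D.al v).IsDeg 4 :=
  deg_sub (deg_sF W.V.toGeo 2 v) (deg_dF (j := 3) (Filter.Eventually.of_forall D.deg_b))

theorem contDiff_w : ContDiff ℝ ∞ D.w := contDiff_pbF W.smooth_r D.smooth_om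

theorem deg_w (v : En W.M) : (D.w v).IsDeg 6 := deg_pbF _ _ _ (D.deg_om _)

theorem contDiff_ga : ContDiff ℝ ∞ D.ga := contDiff_mulFA' D.contDiff_al D.contDiff_w

theorem deg_ga (v : En W.M) : (D.ga v).IsDeg 10 := isDeg_mul (D.deg_al v) (D.deg_w v)

variable {g : En 15 → ℝ} (X : VPiece C W.V.carrier g) (hg : GoodG g) {z : En 15}
  (hz : z ∈ dom g C.O 20000)

include hg hz

theorem dF_pb_al : dF (pbF X.Ψ D.al) z = 0 := by
  rw [VPiece.dF_pbΨ X hg D.contDiff_al hz]
  have h1 : dF D.al (X.Ψ z) = dF (W.V.sF 2) (X.Ψ z) := by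
    unfold FD.al
    rw [dF_sub' ((contDiff_sF W.V.toGeo 2).differentiable (by simp) _)
      ((contDiff_dF D.smooth_b).differentiable (by simp) _),
      dF_dF (D.smooth_b.contDiffAt.of_le (by norm_cast)), sub_zero]
  have h2 := VPiece.pb_dF_sF W.V.toGeo X hg hz
  unfold pbF at h2 ⊢
  rw [h1, h2]

theorem dF_pb_w : dF (pbF X.Ψ D.w) z = 0 := by
  rw [VPiece.dF_pbΨ X hg D.contDiff_w hz]
  have hv : X.Ψ z ∈ W.V.carrier := (X.maps z hz).1
  exact (VPiece.tan_zero_iff W.V.toGeo X hg hz).1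
    (w_closed W.V.toGeo N.toGeo W.smooth_r W.r_maps D.smooth_om D.deg_om hv)

theorem dF_pb_ga : dF (pbF X.Ψ D.ga) z = 0 := by
  have hU := isOpen_dom C hg 20000
  have h1 : pbF X.Ψ D.ga = fun y => pbF X.Ψ D.al y * pbF X.Ψ D.w y := by
    funext y
    exact pbF_mul X.Ψ D.al D.w y
  have ha : DifferentiableAt ℝ (pbF X.Ψ D.al) z :=
    ((VPiece.contDiffOn_pbΨ X hg D.contDiff_al).contDiffAt (hU.mem_nhds hz)).differentiableAt
      (by simp)
  have hw : DifferentiableAt ℝ (pbF X.Ψ D.w) z :=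
    ((VPiece.contDiffOn_pbΨ X hg D.contDiff_w).contDiffAt (hU.mem_nhds hz)).differentiableAt
      (by simp)
  rw [h1, dF_mul_even (j := 4) (by decide) ha hw (deg_pbF _ _ _ (D.deg_al _)),
    D.dF_pb_al X hg hz, D.dF_pb_w X hg hz, zero_mul, mul_zero, add_zero]

theorem al_cs : pbF X.Ψ D.al z =
    dF (fun z => (VPiece.frame X hg).csF z - pbF X.Ψ D.b z) z := by
  have hU := isOpen_dom C hg 20000
  have h1 : pbF X.Ψ D.al z = pbF X.Ψ (W.V.sF 2) z - pbF X.Ψ (dF D.b) z :=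
    pbF_sub X.Ψ (W.V.sF 2) (dF D.b) z
  rw [h1, VPiece.sF_piece W.V.toGeo X hg hz, ← VPiece.dF_pbΨ X hg D.smooth_b hz]
  rw [dF_sub']
  · exact ((Frame.contDiffOn_csF hU (VPiece.frame X hg)).contDiffAt
      (hU.mem_nhds hz)).differentiableAt (by simp)
  · exact ((VPiece.contDiffOn_pbΨ X hg D.smooth_b).contDiffAt (hU.mem_nhds hz)).differentiableAt
      (by simp)

end FD

end Pool.Agent.EXO.CH
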