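import Mathlib
import Pool.Agent.EXO.ChCl

/-!
# EXO / ChArA: the component of degree 8

PROOFS.
* `dgF_of_deg`: `isDeg_iff`, `dgF_dgF`.
* `int_dgF`: `V.int (fun v => x v * w v)` with `w` of degree `6`: the difference `x v - dgF 8 (x v)` is a sum of homogeneous
  forms `dgF j (x v)`, `j ≠ 8` (`sum_dgF`), and `dgF j (x v) * w v` has degree `j + 6 ≠ 14`; so its component of degree `14`
  vanishes: `dgF 14 (w v * x v) = w v * dgF 8 (x v)` (`dgF_mul`), `w` commutes (`comm_of_deg_even`).  Then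
  `V.int α = V.int (dgF 14 ∘ α)`: `OrGeo.int_deg` for each of the finitely many other components (they are smooth;
  `dgF j` is linear, so continuous linear) and `int_add'`.
* `dgF8_Lh`: `LhF = 1 + lam + (1/2) lam² + (1/6) lam³`, `lam = c₂ sF 2 + c₄ sF 4 + c₆ sF 6` with `sF k` of degree `2 k`
  (`deg_sF`): expand; every term is homogeneous of a known degree (`isDeg_mul`, `isDeg_smul`), and only the terms of
  degree `8` survive: `c₄ sF 4 + (1/2) c₂² (sF 2)²`.
* `dgF8_LhT`: the product of `LhF` with `∑ j ∈ range 5, t j • sF j`: `LhF = 1 + c₂ sF 2 + (c₄ sF 4 + (c₂²/2) (sF 2)²) + (terms of degree ≥ 12)`;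
  the degree `8` part of the product is `(c₄ sF 4 + (c₂²/2) (sF 2)²) * t 0 sF 0 + c₂ t 2 (sF 2)² + t 4 sF 4` (`sF 1`, `sF 3` have degrees `2`, `6` and
  the degrees of the terms of `LhF` are multiples of `4`).
-/

set_option autoImplicit false
set_option maxSynthPendingDepth 3
set_option linter.unusedSectionVars false

open Set MeasureTheory Matrix
open scoped ContDiff

namespace Pool.Agent.EXO.CH

theorem dgF_of_deg {m i j : ℕ} {x : FA m} (h : x.IsDeg i) : dgF j x = if j = i then x else 0 := by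
  have h1 := isDeg_iff.1 h
  by_cases hji : j = i
  · rw [if_pos hji, hji]
    exact h1
  · rw [if_neg hji]
    rw [← h1, dgF_dgF, if_neg hji]

private theorem arA_isDeg {m : ℕ} (i : ℕ) (x : FA m) : (dgF i x).IsDeg i := by
  rw [isDeg_iff, dgF_dgF, if_pos rfl]

private theorem arA_low {m p q : ℕ} {x y : FA m} (hx : ∀ j < p, dgF j x = 0)
    (hy : ∀ j < q, dgF j y = 0) : ∀ j < p + q, dgF j (x * y) = 0 := by
  intro j hj
  have e : x * y = ∑ a ∈ Finset.range (m + 1), ∑ b ∈ Finset.range (m + 1),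
      dgF a x * dgF b y := by
    conv_lhs => rw [← sum_dgF x, ← sum_dgF y]
    rw [Finset.sum_mul_sum]
  rw [e, map_sum]
  refine Finset.sum_eq_zero fun a _ => ?_
  rw [map_sum]
  refine Finset.sum_eq_zero fun b _ => ?_
  by_cases ha : a < p
  · rw [hx a ha, zero_mul, map_zero]
  · by_cases hb : b < q
    · rw [hy b hb, mul_zero, map_zero]
    · rw [dgF_of_deg (isDeg_mul (arA_isDeg a x) (arA_isDeg b y)), if_neg (by omega)]

private theorem arA_contDiff_dgF {m k : ℕ} {x : En k → FA m} (hx : ContDiff ℝ ∞ x) (j : ℕ) :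
    ContDiff ℝ ∞ (fun v => dgF j (x v)) := by
  have h : ContDiff ℝ ∞ (fun y : FA m => dgF j y) := by
    have := ((LinearMap.toContinuousLinearMap (dgF j : FA m →ₗ[ℂ] FA m)).restrictScalars ℝ).contDiff
      (n := ∞)
    exact this
  exact h.comp hx

private theorem arA_int_sum {n M : ℕ} (V : OrGeo n M) {ι : Type} (s : Finset ι)
    {f : ι → En M → FA M} (hf : ∀ i, ContDiff ℝ ∞ (f i)) :
    V.int (fun v => ∑ i ∈ s, f i v) = ∑ i ∈ s, V.int (f i) := by
  classical
  induction s using Finset.induction_on with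
  | empty =>
    simp only [Finset.sum_empty]
    exact OrGeo.int_deg V (j := n + 1) (by omega) fun v _ => isDeg_zero _
  | insert i s hi ih =>
    rw [Finset.sum_insert hi, ← ih, ← OrGeo.int_add' V (hf i) (ContDiff.sum fun i _ => hf i)]
    congr 1
    funext v
    rw [Finset.sum_insert hi]

private theorem arA_int {n M : ℕ} (V : OrGeo n M) {x : En M → FA M} (hx : ContDiff ℝ ∞ x) :
    V.int x = V.int (fun v => dgF n (x v)) := by
  have e : x = fun v => ∑ j ∈ Finset.range (M + 1), dgF j (x v) := by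
    funext v
    rw [sum_dgF]
  conv_lhs => rw [e]
  rw [arA_int_sum V _ (fun j => arA_contDiff_dgF hx j)]
  have h0 : ∀ j, j ≠ n → V.int (fun v => dgF j (x v)) = 0 := fun j hj =>
    OrGeo.int_deg V hj fun v _ => arA_isDeg j (x v)
  by_cases hn : n < M + 1
  · rw [Finset.sum_eq_single n (fun j _ hj => h0 j hj)
      (fun h => absurd (Finset.mem_range.2 hn) h)]
  · rw [Finset.sum_eq_zero (fun j hj => h0 j (by
      rw [Finset.mem_range] at hj
      omega))]
    have : (fun v => dgF n (x v)) = fun v => (0 : FA M) := by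
      funext v
      exact dgF_eq_zero (by omega) _
    rw [this]
    exact (OrGeo.int_deg V (j := n + 1) (by omega) fun v _ => isDeg_zero _).symm

theorem int_dgF {M : ℕ} (V : OrGeo 14 M) {x w : En M → FA M} (hx : ContDiff ℝ ∞ x)
    (hw : ContDiff ℝ ∞ w) (hd : ∀ v, (w v).IsDeg 6) :
    V.int (fun v => x v * w v) = V.int (fun v => dgF 8 (x v) * w v) := by
  have s1 : ContDiff ℝ ∞ (fun v => x v * w v) := contDiff_mulFA' hx hw
  have s2 : ContDiff ℝ ∞ (fun v => dgF 8 (x v) * w v) :=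
    contDiff_mulFA' (arA_contDiff_dgF hx 8) hw
  rw [arA_int V s1, arA_int V s2]
  congr 1
  funext v
  have hc : ∀ y : FA M, y * w v = w v * y := fun y =>
    (IsDeg_even_comm (j := 3) (hd v) y).symm
  have h6 : dgF 6 (w v) = w v := isDeg_iff.1 (hd v)
  have key : ∀ y : FA M, dgF 14 (y * w v) = w v * dgF 8 y := by
    intro y
    rw [hc y]
    exact dgF_mul h6 8 y
  rw [key, key, dgF_dgF, if_pos rfl]

variable {n M : ℕ} (V : Geo n M)

private theorem arA_mul {k m : ℕ} {u w : En k → FA m} (hu : ContDiff ℝ ∞ u)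
    (hw : ContDiff ℝ ∞ w) : ContDiff ℝ ∞ (fun v => u v * w v) :=
  contDiff_mulFA' hu hw

private theorem arA_smul {k m : ℕ} (c : ℂ) {u : En k → FA m} (hu : ContDiff ℝ ∞ u) :
    ContDiff ℝ ∞ (fun v => c • u v) := by
  have h : ContDiff ℝ ∞ (fun y : FA m => c • y) := by
    have := (((c • ContinuousLinearMap.id ℂ (FA m))).restrictScalars ℝ).contDiff (n := ∞)
    exact this
  exact h.comp hu

theorem contDiff_LhF : ContDiff ℝ ∞ (LhF V) := by
  have hl : ContDiff ℝ ∞ (lamF V) :=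
    ((arA_smul _ (contDiff_sF V 2)).add (arA_smul _ (contDiff_sF V 4))).add
      (arA_smul _ (contDiff_sF V 6))
  have h2 : ContDiff ℝ ∞ (fun v => lamF V v ^ 2) := by
    simp_rw [pow_two]
    exact arA_mul hl hl
  have h3 : ContDiff ℝ ∞ (fun v => lamF V v ^ 3) := by
    have : (fun v => lamF V v ^ 3) = fun v => lamF V v ^ 2 * lamF V v := by
      funext v
      rw [pow_succ]
    rw [this]
    exact arA_mul h2 hl
  exact ((contDiff_const.add hl).add (arA_smul _ h2)).add (arA_smul _ h3)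

/-- Decomposition of the form. -/
private theorem arA_dec (v : En M) : ∃ r : FA M, (∀ j < 12, dgF j r = 0) ∧
    LhF V v = 1 + (-(1 / (96 * Real.pi ^ 2) : ℂ)) • V.sF 2 v +
      ((-(7 / (46080 * Real.pi ^ 4) : ℂ)) • V.sF 4 v +
      (1 / (18432 * Real.pi ^ 4) : ℂ) • (V.sF 2 v * V.sF 2 v)) + r := by
  have lo : ∀ {p : ℕ} {x : FA M}, x.IsDeg p → ∀ j < p, dgF j x = 0 := by
    intro p x hx j hj
    rw [dgF_of_deg hx, if_neg (by omega)]
  set a : FA M := (-(1 / (96 * Real.pi ^ 2) : ℂ)) • V.sF 2 v with ha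
  set b : FA M := (-(7 / (46080 * Real.pi ^ 4) : ℂ)) • V.sF 4 v with hb
  set c : FA M := (-(31 / (11612160 * Real.pi ^ 6) : ℂ)) • V.sF 6 v with hc
  have da : a.IsDeg 4 := isDeg_smul (deg_sF V 2 v) _
  have db : b.IsDeg 8 := isDeg_smul (deg_sF V 4 v) _
  have dc : c.IsDeg 12 := isDeg_smul (deg_sF V 6 v) _
  have hlam : lamF V v = a + (b + c) := by
    unfold lamF
    rw [← ha, ← hb, ← hc, add_assoc]
  have l8 : ∀ j < 8, dgF j (b + c) = 0 := by
    intro j hj
    rw [map_add, lo db j hj, lo dc j (by omega), add_zero]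
  have l4 : ∀ j < 4, dgF j (a + (b + c)) = 0 := by
    intro j hj
    rw [map_add, lo da j hj, l8 j (by omega), add_zero]
  have q1 : ∀ j < 12, dgF j (a * (b + c)) = 0 := arA_low (p := 4) (q := 8) (lo da) l8
  have q2 : ∀ j < 12, dgF j ((b + c) * (a + (b + c))) = 0 := arA_low (p := 8) (q := 4) l8 l4
  have q3 : ∀ j < 12, dgF j ((a + (b + c)) ^ 3) = 0 := by
    have h8 : ∀ j < 8, dgF j ((a + (b + c)) ^ 2) = 0 := by
      rw [pow_two]
      exact arA_low (p := 4) (q := 4) l4 l4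
    rw [pow_succ]
    exact arA_low (p := 8) (q := 4) h8 l4
  refine ⟨c + (1 / 2 : ℂ) • (a * (b + c) + (b + c) * (a + (b + c))) +
    (1 / 6 : ℂ) • (a + (b + c)) ^ 3, ?_, ?_⟩
  · intro j hj
    have hcj := lo dc j hj
    have q1j := q1 j hj
    have q2j := q2 j hj
    have q3j := q3 j hj
    rw [map_add, map_add, hcj, map_smul (dgF j) (1 / 2 : ℂ), map_smul (dgF j) (1 / 6 : ℂ),
      map_add, q1j, q2j, q3j]
    simp
  · have e1 : (a + (b + c)) ^ 2 = a * a + (a * (b + c) + (b + c) * (a + (b + c))) := by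
      noncomm_ring
    have e2 : (1 / 2 : ℂ) • (a * a) = (1 / (18432 * Real.pi ^ 4) : ℂ) • (V.sF 2 v * V.sF 2 v) := by
      rw [ha, smul_mul_smul_comm, smul_smul]
      congr 1
      have hpi : (Real.pi : ℂ) ≠ 0 := by exact_mod_cast Real.pi_ne_zero
      field_simp
      norm_num
    unfold LhF
    rw [hlam, e1, smul_add, e2]
    abel

theorem dgF8_Lh (v : En M) : dgF 8 (LhF V v) =
    (-(7 / (46080 * Real.pi ^ 4) : ℂ)) • V.sF 4 v +
      (1 / (18432 * Real.pi ^ 4) : ℂ) • (V.sF 2 v * V.sF 2 v) := by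
  obtain ⟨r, hr, e⟩ := arA_dec V v
  rw [e]
  have d4 := deg_sF V 4 v
  have d22 := isDeg_mul (deg_sF V 2 v) (deg_sF V 2 v)
  simp only [map_add, map_smul]
  rw [hr 8 (by norm_num), dgF_one, dgF_of_deg (deg_sF V 2 v), dgF_of_deg d4, dgF_of_deg d22]
  norm_num

theorem dgF8_LhT (t : ℕ → ℂ) (v : En M) :
    dgF 8 (LhF V v * ∑ j ∈ Finset.range 5, t j • V.sF j v) =
    t 0 • (((-(7 / (46080 * Real.pi ^ 4) : ℂ)) • V.sF 4 v +
      (1 / (18432 * Real.pi ^ 4) : ℂ) • (V.sF 2 v * V.sF 2 v)) * V.sF 0 v) +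
    (-(1 / (96 * Real.pi ^ 2) : ℂ) * t 2) • (V.sF 2 v * V.sF 2 v) + t 4 • V.sF 4 v := by
  obtain ⟨r, hr, e⟩ := arA_dec V v
  rw [e]
  set T : FA M := ∑ j ∈ Finset.range 5, t j • V.sF j v with hT
  set β : FA M := (-(7 / (46080 * Real.pi ^ 4) : ℂ)) • V.sF 4 v +
      (1 / (18432 * Real.pi ^ 4) : ℂ) • (V.sF 2 v * V.sF 2 v) with hβ
  have dT : ∀ k, dgF k T = ∑ j ∈ Finset.range 5, if k = 2 * j then t j • V.sF j v else 0 := by
    intro k
    rw [hT, map_sum]
    refine Finset.sum_congr rfl fun j _ => ?_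
    rw [map_smul, dgF_of_deg (deg_sF V j v)]
    split_ifs
    · rfl
    · rw [smul_zero]
  have dT8 : dgF 8 T = t 4 • V.sF 4 v := by
    rw [dT]
    simp [Finset.sum_range_succ]
  have dT4 : dgF 4 T = t 2 • V.sF 2 v := by
    rw [dT]
    simp [Finset.sum_range_succ]
  have dT0 : dgF 0 T = t 0 • V.sF 0 v := by
    rw [dT]
    simp [Finset.sum_range_succ]
  have da : ((-(1 / (96 * Real.pi ^ 2) : ℂ)) • V.sF 2 v).IsDeg 4 := isDeg_smul (deg_sF V 2 v) _
  have db : β.IsDeg 8 := by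
    refine isDeg_add (isDeg_smul (deg_sF V 4 v) _) (isDeg_smul ?_ _)
    exact isDeg_mul (deg_sF V 2 v) (deg_sF V 2 v)
  have h1 : dgF 8 (((-(1 / (96 * Real.pi ^ 2) : ℂ)) • V.sF 2 v) * T) =
      ((-(1 / (96 * Real.pi ^ 2) : ℂ)) • V.sF 2 v) * dgF 4 T :=
    dgF_mul (isDeg_iff.1 da) 4 T
  have h2 : dgF 8 (β * T) = β * dgF 0 T := dgF_mul (isDeg_iff.1 db) 0 T
  have h3 : dgF 8 (r * T) = 0 := arA_low (p := 12) (q := 0) hr (fun j hj => absurd hj (by omega)) 8
    (by norm_num)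
  have e2 : (1 + (-(1 / (96 * Real.pi ^ 2) : ℂ)) • V.sF 2 v + β + r) * T =
      T + ((-(1 / (96 * Real.pi ^ 2) : ℂ)) • V.sF 2 v) * T + β * T + r * T := by
    rw [add_mul, add_mul, add_mul, one_mul]
  rw [e2, map_add, map_add, map_add, h1, h2, h3, dT8, dT4, dT0, smul_mul_smul_comm,
    mul_smul_comm]
  abel

theorem sF_zero (v : En M) (hv : v ∈ V.carrier) : V.sF 0 v = algebraMap ℂ (FA M) n := by
  unfold Geo.sF
  rw [mul_zero, pow_zero, Matrix.mul_one, Matrix.trace]
  have h := Geo.tr_P V hv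
  have h1 : ∀ i, (cM (matOf (V.P v)) : Matrix (Fin M) (Fin M) (FA M)).diag i =
      algebraMap ℂ (FA M) ((V.P v (bv i) i : ℝ) : ℂ) := fun i => rfl
  simp_rw [h1]
  rw [← map_sum, ← Complex.ofReal_sum, h]
  simp

end Pool.Agent.EXO.CH
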