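import Mathlib
import Pool.Agent.EXO.ChPh
import Pool.Agent.EXO.ChSw

/-!
# EXO / ChBox: compact boxes

PROOFS.  With `a = ‖p1 z‖²`, `b = ‖p2 z‖²`: `gK z = a b / (a + b)`, `g1 z = b / (1 + a b)`.
* `box_K`: `a, b ≥ 1` would give `gK z ≥ 1/2`; so one of the norms is `< 1`.  If `‖p1 z‖ > 2` then `ph (p1 z) = 1` (`ph_one`),
  `‖p2 z‖ < 1`, `ph (p2 z) = 0` (`ph_zero`), contradiction; the same for `p2`.
* `box_1`: `phi (p1 z) ≠ 0` gives `a < 1` (`phi_zero`), and `b ≤ (1 + a b) / 3`, so `b (1 - a/3) ≤ 1/3`, `b ≤ 1/2`.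
* `box_Y`: `3 a b ≤ a + b`, `a ≥ 16/25`: `b (3 a - 1) ≤ a`, `a ≤ 3 a - 1`.
* `ZB`: the image of a compact set (closed balls times `N`) under the continuous map `j15` (`contDiff_j15`);
  `gK z ≤ ‖p1 z‖²`, `g1 z ≤ ‖p2 z‖²`, `gS z ≤ 2 c²`.
-/

set_option autoImplicit false
set_option maxSynthPendingDepth 3
set_option linter.unusedSectionVars false

open Set MeasureTheory Matrix
open scoped ContDiff

namespace Pool.Agent.EXO.CH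

private theorem chbox_gK (z : En 15) :
    gK z * (‖p1 z‖ ^ 2 + ‖p2 z‖ ^ 2) = ‖p1 z‖ ^ 2 * ‖p2 z‖ ^ 2 := by
  rw [gK]
  by_cases h : ‖p1 z‖ ^ 2 + ‖p2 z‖ ^ 2 = 0
  · have h1 : ‖p1 z‖ ^ 2 = 0 := by nlinarith [sq_nonneg ‖p1 z‖, sq_nonneg ‖p2 z‖]
    rw [h, h1]
    simp
  · exact div_mul_cancel₀ _ h

private theorem chbox_g1 (z : En 15) :
    g1 z * (1 + ‖p1 z‖ ^ 2 * ‖p2 z‖ ^ 2) = ‖p2 z‖ ^ 2 := by
  rw [g1]
  exact div_mul_cancel₀ _ (by positivity)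

theorem box_K {z : En 15} (hz : gK z ≤ 1 / 3) (h : 1 - ph (p1 z) - ph (p2 z) ≠ 0) :
    ‖p1 z‖ ≤ 2 ∧ ‖p2 z‖ ≤ 2 := by
  have h1 := chbox_gK z
  have ha : 0 ≤ ‖p1 z‖ := norm_nonneg _
  have hb : 0 ≤ ‖p2 z‖ := norm_nonneg _
  have hs : 3 * (‖p1 z‖ ^ 2 * ‖p2 z‖ ^ 2) ≤ ‖p1 z‖ ^ 2 + ‖p2 z‖ ^ 2 := by
    nlinarith [sq_nonneg ‖p1 z‖, sq_nonneg ‖p2 z‖]
  constructor
  · by_contra hc
    push Not at hc
    refine h ?_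
    have h2 : ‖p2 z‖ ≤ 1 := by
      by_contra hd
      push Not at hd
      have e1 : 1 < ‖p1 z‖ ^ 2 := by nlinarith
      have e2 : 1 < ‖p2 z‖ ^ 2 := by nlinarith
      nlinarith
    rw [ph_one hc.le, ph_zero h2]
    norm_num
  · by_contra hc
    push Not at hc
    refine h ?_
    have h2 : ‖p1 z‖ ≤ 1 := by
      by_contra hd
      push Not at hd
      have e1 : 1 < ‖p1 z‖ ^ 2 := by nlinarith
      have e2 : 1 < ‖p2 z‖ ^ 2 := by nlinarith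
      nlinarith
    rw [ph_one hc.le, ph_zero h2]
    norm_num

theorem box_1 {z : En 15} (hz : g1 z ≤ 1 / 3) (h : phi (p1 z) ≠ 0) :
    ‖p1 z‖ ≤ 1 ∧ ‖p2 z‖ ≤ 1 := by
  have h1 : ‖p1 z‖ ≤ 1 := by
    by_contra hc
    push Not at hc
    exact h (phi_zero hc.le)
  refine ⟨h1, ?_⟩
  have h2 := chbox_g1 z
  have ha : 0 ≤ ‖p1 z‖ := norm_nonneg _
  have hb : 0 ≤ ‖p2 z‖ := norm_nonneg _
  have e1 : ‖p1 z‖ ^ 2 ≤ 1 := by nlinarith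
  have e2 : ‖p1 z‖ ^ 2 * ‖p2 z‖ ^ 2 ≤ ‖p2 z‖ ^ 2 := by nlinarith [sq_nonneg ‖p2 z‖]
  have e3 : ‖p2 z‖ ^ 2 ≤ 1 / 3 * (1 + ‖p1 z‖ ^ 2 * ‖p2 z‖ ^ 2) := by
    have e4 : (0 : ℝ) ≤ 1 + ‖p1 z‖ ^ 2 * ‖p2 z‖ ^ 2 := by positivity
    nlinarith
  nlinarith

theorem box_Y {z : En 15} (hz : gK z ≤ 1 / 3) (h : 4 / 5 ≤ ‖p1 z‖) : ‖p2 z‖ ≤ 1 := by
  have h1 := chbox_gK z
  have ha : 0 ≤ ‖p1 z‖ := norm_nonneg _
  have hb : 0 ≤ ‖p2 z‖ := norm_nonneg _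
  have hs : 3 * (‖p1 z‖ ^ 2 * ‖p2 z‖ ^ 2) ≤ ‖p1 z‖ ^ 2 + ‖p2 z‖ ^ 2 := by
    nlinarith [sq_nonneg ‖p1 z‖, sq_nonneg ‖p2 z‖]
  have e1 : 16 / 25 ≤ ‖p1 z‖ ^ 2 := by nlinarith
  by_contra hc
  push Not at hc
  have e2 : 1 < ‖p2 z‖ ^ 2 := by nlinarith
  nlinarith

/-- The compact box. -/
def ZB (N : Set (En 7)) (c : ℝ) : Set (En 15) := {z | ‖p1 z‖ ≤ c ∧ ‖p2 z‖ ≤ c ∧ p3 z ∈ N}

theorem isCompact_ZB {N : Set (En 7)} (hN : IsCompact N) (c : ℝ) : IsCompact (ZB N c) := by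
  have h1 : IsCompact ((Metric.closedBall (0 : En 4) c) ×ˢ ((Metric.closedBall (0 : En 4) c) ×ˢ N)) :=
    (isCompact_closedBall _ _).prod ((isCompact_closedBall _ _).prod hN)
  have h2 := h1.image contDiff_j15.continuous
  have h3 : ZB N c = (fun q : En 4 × En 4 × En 7 => j15 q.1 q.2.1 q.2.2) ''
      ((Metric.closedBall (0 : En 4) c) ×ˢ ((Metric.closedBall (0 : En 4) c) ×ˢ N)) := by
    ext z
    simp only [ZB, mem_setOf_eq, mem_image, mem_prod, mem_closedBall_zero_iff, Prod.exists]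
    constructor
    · rintro ⟨ha, hb, hc⟩
      exact ⟨p1 z, p2 z, p3 z, ⟨ha, hb, hc⟩, j15_p z⟩
    · rintro ⟨x, y, n, ⟨ha, hb, hc⟩, rfl⟩
      simp only [p1_j15, p2_j15, p3_j15]
      exact ⟨ha, hb, hc⟩
  rw [h3]
  exact h2

theorem ZB_sub (N : Set (En 7)) {c : ℝ} (hc : c ≤ 10) :
    ZB N c ⊆ dom gK N 20000 ∧ ZB N c ⊆ dom g1 N 20000 ∧ ZB N c ⊆ dom gS N 20000 := by
  have key : ∀ z ∈ ZB N c, ‖p1 z‖ ^ 2 ≤ 100 ∧ ‖p2 z‖ ^ 2 ≤ 100 := by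
    intro z hz
    have ha : 0 ≤ ‖p1 z‖ := norm_nonneg _
    have hb : 0 ≤ ‖p2 z‖ := norm_nonneg _
    have h1 : ‖p1 z‖ ≤ 10 := hz.1.trans hc
    have h2 : ‖p2 z‖ ≤ 10 := hz.2.1.trans hc
    constructor <;> nlinarith
  refine ⟨fun z hz => ⟨?_, hz.2.2⟩, fun z hz => ⟨?_, hz.2.2⟩, fun z hz => ⟨?_, hz.2.2⟩⟩
  · obtain ⟨e1, e2⟩ := key z hz
    have h1 : gK z ≤ ‖p1 z‖ ^ 2 := by
      rw [gK]
      refine div_le_of_le_mul₀ (by positivity) (by positivity) ?_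
      nlinarith [sq_nonneg ‖p1 z‖, sq_nonneg ‖p2 z‖]
    linarith
  · obtain ⟨e1, e2⟩ := key z hz
    have h1 : g1 z ≤ ‖p2 z‖ ^ 2 := by
      rw [g1]
      refine div_le_self (by positivity) ?_
      have : 0 ≤ ‖p1 z‖ ^ 2 * ‖p2 z‖ ^ 2 := by positivity
      linarith
    linarith
  · obtain ⟨e1, e2⟩ := key z hz
    rw [gS]
    linarith

end Pool.Agent.EXO.CH
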