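import Mathlib
import Pool.Agent.EXO.ChTan

/-!
# EXO / ChExt: extension of forms from a piece to the ambient space

PROOF.  Let `O' = X.O ∩ X.Φ ⁻¹' (dom g C.O 20000)`: open (`X.smoothΦ.continuousOn`, `ContinuousOn.isOpen_inter_preimage`).
The set `X.Ψ '' Z` is compact and contained in `O'` (`Φ (Ψ z) = z ∈ Z ⊆ dom g N 20000 ⊆ dom g C.O 20000`).  Choose a
smooth `χ : En M → ℝ` with compact support contained in `O'` and `χ = 1` on a neighbourhood of `X.Ψ '' Z`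
(`exists_contDiff_tsupport_subset` / `exists_smooth_one_nhds_of_subset_interior` between compact sets, see
`exists_compact_between`).  `E v = (χ v : ℂ) • pbF X.Φ u v` for `v ∈ O'`, `0` otherwise; it is smooth: on `O'` a product
(`contDiffOn_pbF`, `Φ : O' → dom g C.O 20000`), off `tsupport χ` it is zero.  `K' = tsupport χ`.
Degree: `deg_pbF`, `isDeg_smul`.
Formula for `pbF X.Ψ E z`, `z ∈ dom g C.O 20000`, `v = Ψ z`, `Φ v = C.R z ∈ dom g N 20000`, so `v ∈ O'`.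
- If `C.R z ∈ Z`: `v = Ψ (C.R z) ∈ Ψ '' Z` (`Ψ_R`), `χ v = 1`; `pbF Ψ E z = FAMap (fderiv Ψ z) (E v)`,
  `E v = pbF Φ u v`, and `pbF Ψ (pbF Φ u) z = pbF (Φ ∘ Ψ) u z = pbF C.R u z` (`pbF_comp`, `pbF_congr`, `X.left`: `Φ ∘ Ψ = C.R` on
  the open set `dom g C.O 20000`).
- If `C.R z ∉ Z`: `u (C.R z) = 0`, so `E v = (χ v) • FAMap _ (u (Φ v)) = 0` and `pbF C.R u z = 0`.
-/

set_option autoImplicit false
set_option maxSynthPendingDepth 3
set_option linter.unusedSectionVars false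

open Set MeasureTheory Matrix
open scoped ContDiff

namespace Pool.Agent.EXO.CH

private theorem ChExt_cut {E : Type} [NormedAddCommGroup E] [NormedSpace ℝ E]
    [FiniteDimensional ℝ E] {K O : Set E} (hK : IsCompact K) (hO : IsOpen O) (hKO : K ⊆ O) :
    ∃ (χ : E → ℝ) (K' : Set E), ContDiff ℝ ∞ χ ∧ IsCompact K' ∧ K' ⊆ O ∧
      (∀ x ∈ K, χ x = 1) ∧ ∀ x, x ∉ K' → χ x = 0 := by
  obtain ⟨K', h1, h2, h3⟩ := exists_compact_between hK hO hKO
  obtain ⟨f, hf1, hf2, -⟩ := exists_contMDiffMap_one_nhds_of_subset_interior (n := ⊤)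
    (modelWithCornersSelf ℝ E) hK.isClosed h2
  exact ⟨f, K', f.contMDiff.contDiff, h1, h3, fun x hx => hf1.self_of_nhdsSet x hx, hf2⟩

theorem exists_ext {N : Set (En 7)} {C : Collar N} {M : ℕ} {V : Set (En M)} {g : En 15 → ℝ}
    (X : VPiece C V g) (hg : GoodG g) {Z : Set (En 15)} (hZ : IsCompact Z)
    (hZg : Z ⊆ dom g N 20000) (u : En 15 → FA 15) (hu : ContDiffOn ℝ ∞ u (dom g C.O 20000))
    (h0 : ∀ z ∈ dom g N 20000, z ∉ Z → u z = 0) {j : ℕ}
    (hd : ∀ z ∈ dom g C.O 20000, (u z).IsDeg j) :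
    ∃ E : En M → FA M, ContDiff ℝ ∞ E ∧ (∀ v, (E v).IsDeg j) ∧
      (∀ z ∈ dom g C.O 20000, pbF X.Ψ E z = pbF C.R u z) ∧
      ∃ K' : Set (En M), IsCompact K' ∧ K' ⊆ X.O ∧ ∀ v, v ∉ K' → E v = 0 := by
  have hU := isOpen_dom C hg 20000
  have hsub : dom g N 20000 ⊆ dom g C.O 20000 := dom_sub C g 20000
  have hO' : IsOpen (X.O ∩ X.Φ ⁻¹' (dom g C.O 20000)) :=
    X.smoothΦ.continuousOn.isOpen_inter_preimage X.openO hU
  have hK : IsCompact (X.Ψ '' Z) :=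
    hZ.image_of_continuousOn (X.smoothΨ.continuousOn.mono (hZg.trans hsub))
  have hKO : X.Ψ '' Z ⊆ X.O ∩ X.Φ ⁻¹' (dom g C.O 20000) := by
    rintro _ ⟨z, hz, rfl⟩
    refine ⟨(X.maps z (hsub (hZg hz))).2, ?_⟩
    rw [mem_preimage, VPiece.Φ_Ψ X (hZg hz)]
    exact hsub (hZg hz)
  obtain ⟨χ, K', hχ, hK', hK'O, hχ1, hχ0⟩ := ChExt_cut hK hO' hKO
  have hsmO : ContDiffOn ℝ ∞ (pbF X.Φ u) (X.O ∩ X.Φ ⁻¹' (dom g C.O 20000)) :=
    contDiffOn_pbF hO' (X.smoothΦ.mono inter_subset_left) (fun v hv => hv.2) hu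
  refine ⟨fun v => (χ v : ℂ) • pbF X.Φ u v, ?_, ?_, ?_, K', hK', hK'O.trans inter_subset_left, ?_⟩
  · rw [contDiff_iff_contDiffAt]
    intro v
    by_cases hv : v ∈ K'
    · have h1 : ContDiffAt ℝ ∞ (fun v => (χ v : ℂ)) v :=
        (Complex.ofRealCLM.contDiff.comp hχ).contDiffAt
      exact h1.smul (hsmO.contDiffAt (hO'.mem_nhds (hK'O hv)))
    · have h1 : (fun v => (χ v : ℂ) • pbF X.Φ u v) =ᶠ[nhds v] fun _ => 0 := by
        filter_upwards [hK'.isClosed.isOpen_compl.mem_nhds hv] with y hy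
        rw [hχ0 y hy, Complex.ofReal_zero, zero_smul]
      exact contDiffAt_const.congr_of_eventuallyEq h1
  · intro v
    by_cases hv : v ∈ K'
    · exact isDeg_smul (deg_pbF _ _ _ (hd _ (hK'O hv).2)) _
    · change FA.IsDeg j ((χ v : ℂ) • pbF X.Φ u v)
      rw [hχ0 v hv, Complex.ofReal_zero, zero_smul]
      exact isDeg_zero j
  · intro z hz
    have hRz : C.R z ∈ dom g N 20000 := R_mem C hg hz
    have hv : X.Ψ z ∈ X.O := (X.maps z hz).2
    have hΦ : X.Φ (X.Ψ z) = C.R z := X.left z hz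
    have hcomp : pbF X.Ψ (pbF X.Φ u) z = pbF C.R u z := by
      have hd1 : DifferentiableAt ℝ X.Φ (X.Ψ z) :=
        (X.smoothΦ.contDiffAt (X.openO.mem_nhds hv)).differentiableAt (by simp)
      have hd2 : DifferentiableAt ℝ X.Ψ z := (VPiece.diff_Ψ X hg hz).differentiableAt (by simp)
      rw [pbF_comp hd1 hd2]
      have he : X.Φ ∘ X.Ψ =ᶠ[nhds z] C.R := by
        filter_upwards [hU.mem_nhds hz] with y hy
        exact X.left y hy
      exact pbF_congr he (by rw [Function.comp_apply, hΦ])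
    by_cases hZz : C.R z ∈ Z
    · have h1 : χ (X.Ψ z) = 1 := by
        refine hχ1 _ ⟨C.R z, hZz, ?_⟩
        exact VPiece.Ψ_R X hz
      rw [← hcomp]
      unfold pbF
      simp only [h1, Complex.ofReal_one, one_smul]
    · have h1 : u (C.R z) = 0 := h0 _ hRz hZz
      have h2 : pbF C.R u z = 0 := by
        unfold pbF
        rw [h1, FAMap_zero]
      rw [h2]
      change FAMap (fderiv ℝ X.Ψ z) ((χ (X.Ψ z) : ℂ) • FAMap (fderiv ℝ X.Φ (X.Ψ z))
        (u (X.Φ (X.Ψ z)))) = 0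
      rw [hΦ, h1, FAMap_zero, smul_zero, FAMap_zero]
  · intro v hv
    change (χ v : ℂ) • pbF X.Φ u v = 0
    rw [hχ0 v hv, Complex.ofReal_zero, zero_smul]

end Pool.Agent.EXO.CH
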