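import Mathlib
import Pool.Agent.EXO.ChCsA

/-!
# EXO / ChGau: gauge transformation of the Chern-Simons form of a frame

PROOF.  Fix `z ∈ W`, and write (at points near `z`, all functions are smooth on the open set `W`)
`A' = pbM T F'.fA`, `B' = pbM T F'.fB`, `g = rM (g ·)`, `h = rM (h ·)`, `G = DM (rM g)`, `θ = h G = thM g h`.
(0) also `h g = 1` (`Matrix.mul_eq_one_comm`).  `g`, `h` even, `A'`, `G` odd, `B'` even (degrees 0, 1, 2; `FAMap` keeps
    degrees).
(1) `A := F.fA = rM (h) * rM (F'.L (T ·)) * DM (rM (F'.J (T ·)) * rM g)`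
    `= h L' (DM (J' ∘ T) g + (J' ∘ T) G) = h A' g + h G` near `z` (`DM_mul_ev`, `rM_mul`, `pbM_rM`, `DM_pbM`, `pbM_mul`,
    `L' J' = 1`).
(2) `DM h = - h G h` (differentiate `h g = 1`: `DM h * g + h * G = 0`).
(3) `DM A' = B'` (`DM_pbM`, `F'.fB = DM F'.fA`), `DM G = 0` (`DM_DM`).
(4) `DM (h A' g) = - (h G h A' g) + h B' g - h A' G` (`DM_mul_ev` for `h * (A' * g)`, `DM_mul_od` for `A' * g`),
    `DM (h G) = - h G h G`.  So `F.fB z = DM A z = (4) + DM θ`, exactly the expression in `GrC.cs_gauge`.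
(5) `dF (lamG ..) z = dF (tr (Ã θ)) = tr (DM Ã * θ - Ã * DM θ)`, `Ã = h A' g` odd (`dF_trace`, `DM_mul_od`); and
    `pbF T F'.csF z = GrC.cs (A' z) (B' z)` (`pbF_trace`, `pbM_mul`, `pbF_add`, `pbF_smul`).  Now `GrC.cs_gauge`.
The smoothness and the degree (`0 + 1 + 0 + 1`) of `lamG` are clear from `SmM.*`, `contDiffOn_trace`, `deg_mulM`.
-/

set_option autoImplicit false
set_option maxSynthPendingDepth 3
set_option linter.unusedSectionVars false

open Set MeasureTheory Matrix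
open scoped ContDiff

namespace Pool.Agent.EXO.CH

variable {m m' : ℕ} {U : Set (En m)} {U' : Set (En m')} {a b : Type} [Fintype a] [Fintype b]
  [DecidableEq a] [DecidableEq b]

/-- The two-form `λ = tr (h A' g θ)`. -/
noncomputable def lamG (T : En m → En m') (F' : Frame U' a b) (g h : En m → Matrix b b ℝ)
    (z : En m) : FA m :=
  trace (rM (h z) * pbM T F'.fA z * rM (g z) * thM g h z)

theorem deg_lamG (T : En m → En m') (F' : Frame U' a b) (g h : En m → Matrix b b ℝ)
    (z : En m) : (lamG T F' g h z).IsDeg 2 := by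
  have d1 : ∀ p q, ((pbM T F'.fA z) p q).IsDeg 1 := fun p q =>
    isDeg_FAMap (F'.deg_fA (T z) p q) _
  have d2 : ∀ p q, ((thM g h z : Matrix b b (FA m)) p q).IsDeg 1 := fun p q => by
    have := deg_mulM (m := m) (i := 0) (j := 1) (X := rM (m := m) (h z))
      (Y := DM (fun y => rM (m := m) (g y)) z) (fun p q => deg_rF _) (fun p q => deg_DM_rM g z p q) p q
    rwa [zero_add] at this
  have d3 : ∀ p q, ((rM (m := m) (h z) * pbM T F'.fA z) p q).IsDeg 1 := fun p q => by
    have := deg_mulM (m := m) (i := 0) (j := 1) (X := rM (m := m) (h z))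
      (Y := pbM T F'.fA z) (fun p q => deg_rF _) d1 p q
    rwa [zero_add] at this
  have d4 : ∀ p q, ((rM (m := m) (h z) * pbM T F'.fA z * rM (m := m) (g z)) p q).IsDeg 1 := fun p q =>
    deg_mulM (m := m) (i := 1) (j := 0) (Y := rM (m := m) (g z)) d3 (fun p q => deg_rF _) p q
  exact isDeg_sum _ fun i _ => deg_mulM (i := 1) (j := 1) d4 d2 i i

private theorem rMm {m : ℕ} {a b c : Type} [Fintype b] (X : Matrix a b ℝ) (Y : Matrix b c ℝ) :
    rM (m := m) (X * Y) = rM (m := m) X * rM (m := m) Y := rM_mul X Y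

private theorem smM_thM {W : Set (En m)} (hW : IsOpen W) {g h : En m → Matrix b b ℝ}
    (hg : SmM W g) (hh : SmM W h) : SmM W (thM g h : En m → Matrix b b (FA m)) :=
  (SmM.rM hh).mul ((SmM.rM hg).DM hW)

theorem contDiffOn_lamG (F' : Frame U' a b) (hU' : IsOpen U')
    {W : Set (En m)} (hW : IsOpen W) {T : En m → En m'}
    (hT : ContDiffOn ℝ ∞ T W) (hTW : ∀ z ∈ W, T z ∈ U') {g h : En m → Matrix b b ℝ}
    (hg : SmM W g) (hh : SmM W h) : ContDiffOn ℝ ∞ (lamG T F' g h) W :=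
  contDiffOn_trace ((((SmM.rM hh).mul ((Frame.smM_fA hU' F').pbM hW hT hTW)).mul (SmM.rM hg)).mul
    (smM_thM hW hg hh))

private theorem fA_gauge (F : Frame U a b) (F' : Frame U' a b) (hU' : IsOpen U')
    {W : Set (En m)} (hW : IsOpen W) {T : En m → En m'}
    (hT : ContDiffOn ℝ ∞ T W) (hTW : ∀ z ∈ W, T z ∈ U') {g h : En m → Matrix b b ℝ}
    (hg : SmM W g)
    (hJ : ∀ z ∈ W, F.J z = F'.J (T z) * g z) (hL : ∀ z ∈ W, F.L z = h z * F'.L (T z))
    {z : En m} (hz : z ∈ W) :
    F.fA z = rM (m := m) (h z) * pbM T F'.fA z * rM (m := m) (g z) + rM (m := m) (h z) * DM (fun y => rM (m := m) (g y)) z := by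
  have hev : ∀ᶠ y in nhds z, y ∈ W := hW.mem_nhds hz
  have hgs : SmM W fun y => rM (m := m) (g y) := SmM.rM hg
  have hJs : SmM U' fun y => rM (m := m') (F'.J y) := SmM.rM F'.smoothJ
  have hT2 : ContDiffAt ℝ 2 T z := (hT.contDiffAt (hW.mem_nhds hz)).of_le (WithTop.coe_le_coe.2 le_top)
  have eJ : (fun y => rM (m := m) (F'.J (T y))) = pbM T fun u => rM (m := m') (F'.J u) := by
    funext y
    exact (pbM_rM T F'.J y).symm
  have hJT : SmM W fun y => rM (m := m) (F'.J (T y)) := by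
    rw [eJ]
    exact hJs.pbM hW hT hTW
  have e1 : DM (fun y => rM (m := m) (F.J y)) z =
      pbM T (DM fun u => rM (m := m') (F'.J u)) z * rM (m := m) (g z) + rM (m := m) (F'.J (T z)) * DM (fun y => rM (m := m) (g y)) z := by
    have c1 : ∀ᶠ y in nhds z, rM (m := m) (F.J y) = rM (m := m) (F'.J (T y)) * rM (m := m) (g y) :=
      hev.mono fun y hy => by rw [hJ y hy, rMm]
    rw [DM_congr c1, DM_mul_ev (hJT.diff hW hz) (hgs.diff hW hz) (ev_rM _), eJ,
      DM_pbM hT2 (hJs.diff hU' (hTW z hz))]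
  have e2 : pbM T F'.fA z = rM (m := m) (F'.L (T z)) * pbM T (DM fun u => rM (m := m') (F'.J u)) z := by
    have c2 : pbM T F'.fA z = pbM T (fun u => rM (m := m') (F'.L u) * DM (fun y => rM (m := m') (F'.J y)) u) z := rfl
    rw [c2, pbM_mul, pbM_rM]
  have e3 : rM (m := m) (F'.L (T z)) * rM (m := m) (F'.J (T z)) = 1 := by
    rw [← rMm, F'.LJ _ (hTW z hz), rM_one]
  have e4 : F.fA z = rM (m := m) (F.L z) * DM (fun y => rM (m := m) (F.J y)) z := rfl
  rw [e4, e1, hL z hz, rMm, e2, Matrix.mul_add]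
  congr 1
  · simp only [Matrix.mul_assoc]
  · rw [Matrix.mul_assoc, ← Matrix.mul_assoc (rM (m := m) (F'.L (T z))), e3, Matrix.one_mul]

theorem frame_gauge (F : Frame U a b) (F' : Frame U' a b) (hU' : IsOpen U')
    {W : Set (En m)} (hW : IsOpen W) (hWU : W ⊆ U) {T : En m → En m'}
    (hT : ContDiffOn ℝ ∞ T W) (hTW : ∀ z ∈ W, T z ∈ U') {g h : En m → Matrix b b ℝ}
    (hg : SmM W g) (hh : SmM W h) (hgh : ∀ z ∈ W, g z * h z = 1)
    (hJ : ∀ z ∈ W, F.J z = F'.J (T z) * g z) (hL : ∀ z ∈ W, F.L z = h z * F'.L (T z))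
    {z : En m} (hz : z ∈ W) :
    F.csF z = pbF T F'.csF z + dF (lamG T F' g h) z
      - (1 / 3 : ℂ) • trace (thM g h z * thM g h z * thM g h z) := by
  have hev : ∀ᶠ y in nhds z, y ∈ W := hW.mem_nhds hz
  have hT2 : ContDiffAt ℝ 2 T z := (hT.contDiffAt (hW.mem_nhds hz)).of_le (WithTop.coe_le_coe.2 le_top)
  have hAs' := Frame.smM_fA hU' F'
  have hAs : SmM W (pbM T F'.fA) := hAs'.pbM hW hT hTW
  have hgs : SmM W fun y => rM (m := m) (g y) := SmM.rM hg
  have hhs : SmM W fun y => rM (m := m) (h y) := SmM.rM hh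
  have hGs : SmM W (DM fun y => rM (m := m) (g y)) := hgs.DM hW
  have hhg : ∀ y ∈ W, h y * g y = 1 := fun y hy => mul_eq_one_comm.1 (hgh y hy)
  have oA : (faG m).MOd (pbM T F'.fA z) :=
    od_of_deg odd_one fun p q => isDeg_FAMap (F'.deg_fA (T z) p q) _
  have eB : (faG m).MEv (pbM T F'.fB z) :=
    ev_of_deg even_two fun p q => isDeg_FAMap (F'.deg_fB (T z) p q) _
  have eg : (faG m).MEv (rM (m := m) (g z)) := ev_rM _
  have eh : (faG m).MEv (rM (m := m) (h z)) := ev_rM _
  have oG : (faG m).MOd (DM (fun y => rM (m := m) (g y)) z) := od_DM_rM g z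
  have dA : DM (pbM T F'.fA) z = pbM T F'.fB z := by
    rw [DM_pbM hT2 (hAs'.diff hU' (hTW z hz))]
    rfl
  have dG : DM (DM fun y => rM (m := m) (g y)) z = 0 :=
    DM_DM fun i j => ((hgs i j).contDiffAt (hW.mem_nhds hz)).of_le (WithTop.coe_le_coe.2 le_top)
  have hgz : rM (m := m) (g z) * rM (m := m) (h z) = 1 := by
    rw [← rMm, hgh z hz, rM_one]
  have dh : DM (fun y => rM (m := m) (h y)) z =
      -(rM (m := m) (h z) * DM (fun y => rM (m := m) (g y)) z * rM (m := m) (h z)) := by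
    have c : DM (fun y => rM (m := m) (h y)) z * rM (m := m) (g z) +
        rM (m := m) (h z) * DM (fun y => rM (m := m) (g y)) z = 0 := by
      rw [← DM_mul_ev (hhs.diff hW hz) (hgs.diff hW hz) eh]
      have e : ∀ᶠ y in nhds z, rM (m := m) (h y) * rM (m := m) (g y) = 1 :=
        hev.mono fun y hy => by rw [← rMm, hhg y hy, rM_one]
      rw [DM_congr e, DM_const]
    have c2 := congrArg (fun X => X * rM (m := m) (h z)) c
    simp only [Matrix.add_mul, Matrix.zero_mul] at c2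
    rw [Matrix.mul_assoc (DM _ z) (rM (m := m) (g z)), hgz, Matrix.mul_one] at c2
    exact eq_neg_of_add_eq_zero_left c2
  have hX : SmM W fun y => rM (m := m) (h y) * pbM T F'.fA y * rM (m := m) (g y) := (hhs.mul hAs).mul hgs
  have hth : SmM W fun y => rM (m := m) (h y) * DM (fun y => rM (m := m) (g y)) y :=
    hhs.mul hGs
  have oX : (faG m).MOd (rM (m := m) (h z) * pbM T F'.fA z * rM (m := m) (g z)) := (eh.mul_od oA).mul_ev eg
  have d1 : DM (fun y => rM (m := m) (h y) * pbM T F'.fA y * rM (m := m) (g y)) z =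
      -(rM (m := m) (h z) * DM (fun y => rM (m := m) (g y)) z * rM (m := m) (h z) * pbM T F'.fA z * rM (m := m) (g z)) +
        rM (m := m) (h z) * pbM T F'.fB z * rM (m := m) (g z) -
        rM (m := m) (h z) * pbM T F'.fA z * DM (fun y => rM (m := m) (g y)) z := by
    rw [DM_mul_od ((hhs.mul hAs).diff hW hz) (hgs.diff hW hz) (eh.mul_od oA),
      DM_mul_ev (hhs.diff hW hz) (hAs.diff hW hz) eh, dh, dA, Matrix.add_mul, Matrix.neg_mul,
      Matrix.neg_mul]
  have d2 : DM (fun y => rM (m := m) (h y) * DM (fun y => rM (m := m) (g y)) y) z =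
      -(rM (m := m) (h z) * DM (fun y => rM (m := m) (g y)) z * rM (m := m) (h z) * DM (fun y => rM (m := m) (g y)) z) := by
    rw [DM_mul_ev (hhs.diff hW hz) (hGs.diff hW hz) eh, dh, dG, Matrix.mul_zero, add_zero,
      Matrix.neg_mul]
  have eA : F.fA z = rM (m := m) (h z) * pbM T F'.fA z * rM (m := m) (g z) +
      rM (m := m) (h z) * DM (fun y => rM (m := m) (g y)) z := fA_gauge F F' hU' hW hT hTW hg hJ hL hz
  have eFB : F.fB z =
      (-(rM (m := m) (h z) * DM (fun y => rM (m := m) (g y)) z * rM (m := m) (h z) * pbM T F'.fA z * rM (m := m) (g z)) +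
        rM (m := m) (h z) * pbM T F'.fB z * rM (m := m) (g z) -
        rM (m := m) (h z) * pbM T F'.fA z * DM (fun y => rM (m := m) (g y)) z) -
      rM (m := m) (h z) * DM (fun y => rM (m := m) (g y)) z * rM (m := m) (h z) * DM (fun y => rM (m := m) (g y)) z := by
    have c : ∀ᶠ y in nhds z, F.fA y = rM (m := m) (h y) * pbM T F'.fA y * rM (m := m) (g y) +
        rM (m := m) (h y) * DM (fun y => rM (m := m) (g y)) y :=
      hev.mono fun y hy => fA_gauge F F' hU' hW hT hTW hg hJ hL hy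
    have c2 : F.fB z = DM F.fA z := rfl
    rw [c2, DM_congr c, DM_add (hX.diff hW hz) (hth.diff hW hz), d1, d2, ← sub_eq_add_neg]
  have eP : pbF T F'.csF z = GrC.cs (pbM T F'.fA z) (pbM T F'.fB z) := by
    have c : pbF T F'.csF z = pbF T (fun u => trace (F'.fA u * F'.fB u) +
        (2 / 3 : ℂ) • trace (F'.fA u * F'.fA u * F'.fA u)) z := rfl
    rw [c, pbF_add, pbF_smul, pbF_trace, pbF_trace, pbM_mul, pbM_mul, pbM_mul]
    rfl
  have eL : dF (lamG T F' g h) z =
      trace ((-(rM (m := m) (h z) * DM (fun y => rM (m := m) (g y)) z * rM (m := m) (h z) * pbM T F'.fA z * rM (m := m) (g z)) +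
        rM (m := m) (h z) * pbM T F'.fB z * rM (m := m) (g z) -
        rM (m := m) (h z) * pbM T F'.fA z * DM (fun y => rM (m := m) (g y)) z) *
          (rM (m := m) (h z) * DM (fun y => rM (m := m) (g y)) z)) -
      trace (rM (m := m) (h z) * pbM T F'.fA z * rM (m := m) (g z) *
        -(rM (m := m) (h z) * DM (fun y => rM (m := m) (g y)) z * rM (m := m) (h z) * DM (fun y => rM (m := m) (g y)) z)) := by
    have c : dF (lamG T F' g h) z = dF (fun y => trace (rM (m := m) (h y) * pbM T F'.fA y * rM (m := m) (g y) *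
        (rM (m := m) (h y) * DM (fun y => rM (m := m) (g y)) y))) z := rfl
    rw [c, dF_trace ((hX.mul hth).diff hW hz), DM_mul_od (hX.diff hW hz) (hth.diff hW hz) oX,
      d1, d2, trace_sub]
  have key := GrC.cs_gauge oA eB eg eh oG hgz
  have eC : F.csF z = GrC.cs (F.fA z) (F.fB z) := rfl
  rw [eC, eA, eFB, key, eP, eL]
  rfl

end Pool.Agent.EXO.CH
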