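import Mathlib
import Pool.Agent.EXO.ChTw

/-!
# EXO / ChT1: the transition map `T1`

`T1 l z = j15 (ivn (p1 z)) (rot4 (tha4 l (p1 z)) (p2 z)) (p3 z)`, `T1i l z = j15 (ivn (p1 z)) (rot4 (star (tha4 l (p1 z))) (p2 z)) (p3 z)`.

PROOFS.  `tha4 l (ivn x) = tha4 l x` (`tw_ivn`), `ivn (ivn x) = x`, `rot4_star` give `T1i_T1`, `T1_T1i`.
`g1_T1`: `‖ivn x‖² = ‖x‖⁻²`, `‖tw y‖ = ‖y‖`: `‖y‖² / (1 + ‖x‖⁻² ‖y‖²) = ‖x‖² ‖y‖² / (‖x‖² + ‖y‖²)` (`field_simp`).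
Smoothness: `contDiffOn_j15`, `contDiffAt_ivn`, `contDiffAt_tw` (and `clm_apply`), for `T1i` with
`contDiff_rot4`, `contDiffAt_tha4` and `star` (continuous linear: `contDiff` of `star` on `ℍ`, e.g. by components or
`starL'`/`LinearMap.toContinuousLinearMap`).
`T1_slice`: `rot4_bv0`.
-/

set_option autoImplicit false
set_option maxSynthPendingDepth 3
set_option linter.unusedSectionVars false

open Set MeasureTheory Matrix
open scoped ContDiff Quaternion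

namespace Pool.Agent.EXO.CH

theorem p1_T1 (l : ℝ) (z : En 15) : p1 (T1 l z) = ivn (p1 z) := by simp [T1]

theorem p3_T1 (l : ℝ) (z : En 15) : p3 (T1 l z) = p3 z := by simp [T1]

theorem norm_p2_T1 {l : ℝ} (hl : 0 < l) (z : En 15) : ‖p2 (T1 l z)‖ = ‖p2 z‖ := by
  rw [T1, p2_j15, tw, norm_rot4 (norm_tha4 hl _)]

private theorem ChT1_norm_p2i {l : ℝ} (hl : 0 < l) (z : En 15) : ‖p2 (T1i l z)‖ = ‖p2 z‖ := by
  rw [T1i, p2_j15, norm_rot4]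
  rw [Quaternion.norm_star, norm_tha4 hl]

theorem contDiffOn_T1 {l : ℝ} (hl : 0 < l) : ContDiffOn ℝ ∞ (T1 l) {z | p1 z ≠ 0} :=
  Pool.Agent.EXO.contDiffOn_j15
    (vc_contDiffOn_ivn.comp contDiff_p1.contDiffOn fun _ hz => hz)
    (((vc_contDiffOn_tw hl).comp contDiff_p1.contDiffOn fun _ hz => hz).clm_apply
      contDiff_p2.contDiffOn) contDiff_p3.contDiffOn

theorem contDiffOn_T1i {l : ℝ} (hl : 0 < l) : ContDiffOn ℝ ∞ (T1i l) {z | p1 z ≠ 0} :=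
  Pool.Agent.EXO.contDiffOn_j15
    (vc_contDiffOn_ivn.comp contDiff_p1.contDiffOn fun _ hz => hz)
    (((vc_contDiffOn_twi hl).comp contDiff_p1.contDiffOn fun _ hz => hz).clm_apply
      contDiff_p2.contDiffOn) contDiff_p3.contDiffOn

theorem T1i_T1 {l : ℝ} (hl : 0 < l) {z : En 15} (hz : p1 z ≠ 0) : T1i l (T1 l z) = z := by
  rw [T1i, T1, p1_j15, p2_j15, p3_j15, ivn_ivn hz, tw_ivn l hz, tw,
    (rot4_star (norm_tha4 hl _) _).1, j15_p]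

theorem T1_T1i {l : ℝ} (hl : 0 < l) {z : En 15} (hz : p1 z ≠ 0) : T1 l (T1i l z) = z := by
  rw [T1, T1i, p1_j15, p2_j15, p3_j15, ivn_ivn hz, tw, tw_ivn l hz,
    (rot4_star (norm_tha4 hl _) _).2, j15_p]

theorem p1_T1i (l : ℝ) (z : En 15) : p1 (T1i l z) = ivn (p1 z) := by simp [T1i]

theorem p3_T1i (l : ℝ) (z : En 15) : p3 (T1i l z) = p3 z := by simp [T1i]

theorem g1_T1 {l : ℝ} (hl : 0 < l) {z : En 15} (hz : p1 z ≠ 0) : g1 (T1 l z) = gK z := by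
  have h0 : 0 < ‖p1 z‖ := norm_pos_iff.2 hz
  rw [g1, gK, norm_p2_T1 hl, p1_T1, norm_ivn]
  have h1 : 0 < 1 + ‖p1 z‖⁻¹ ^ 2 * ‖p2 z‖ ^ 2 := by positivity
  have h2 : 0 < ‖p1 z‖ ^ 2 + ‖p2 z‖ ^ 2 := by positivity
  rw [div_eq_div_iff h1.ne' h2.ne']
  field_simp

theorem gK_T1i {l : ℝ} (hl : 0 < l) {z : En 15} (hz : p1 z ≠ 0) : gK (T1i l z) = g1 z := by
  have h0 : 0 < ‖p1 z‖ := norm_pos_iff.2 hz
  rw [g1, gK, ChT1_norm_p2i hl, p1_T1i, norm_ivn]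
  have h1 : 0 < ‖p1 z‖⁻¹ ^ 2 + ‖p2 z‖ ^ 2 := by positivity
  have h2 : 0 < 1 + ‖p1 z‖ ^ 2 * ‖p2 z‖ ^ 2 := by positivity
  rw [div_eq_div_iff h1.ne' h2.ne']
  field_simp

/-- `T1` commutes with the retraction. -/
theorem T1_R {N : Set (En 7)} (C : Collar N) (l : ℝ) (z : En 15) : T1 l (C.R z) = C.R (T1 l z) := by
  simp [T1, Collar.R]

theorem T1_slice (l : ℝ) (x : En 4) (n : En 7) :
    T1 l (j15 x (bv 0) n) = j15 (ivn x) (bv 0) n := by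
  rw [T1, p1_j15, p2_j15, p3_j15, tw, rot4_bv0]

end Pool.Agent.EXO.CH
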