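import Mathlib
import Pool.Agent.EXO.ChTan
import Pool.Agent.EXO.ChT1
import Pool.Agent.EXO.ChBox

/-!
# EXO / ChSup: supports in the pieces

PROOFS.
* `trK1'`: `z ∈ dom gK C.O 20000`: `K.Ψ z = K.Ψ (C.R z)` (`Ψ_R`) `= H1.Ψ (T1 (C.R z))` (`W.trK1`, `R_mem`) `= H1.Ψ (C.R (T1 z))`
  (`T1_R`) `= H1.Ψ (T1 z)` (`Ψ_R`, `T1_mem`).  `T1_mem`: `g1_T1`, `p3_T1`.
* `K_of_H1`: if `p1 z = 0` then `W.not1K` gives a contradiction.  Otherwise `z' = T1i l z`: `gK_T1i`, `p3_T1i`,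
  `p1 z' = ivn (p1 z) ≠ 0`, `T1 l z' = z` (`T1_T1i`), `W.trK1 z'`.
* `K_of_H2`: `K_of_H1` for `W.swap` and `sw`.
* `supK`: let `v = K.Ψ z ∈ V`; by `tan_zero_iff` `FAMap (V.P v) (al v) ≠ 0`.  `W.cover v`: core: contradiction (`D.core`).
  `v = K.Ψ z'`, `gK z' ≤ 1/3`, `p3 z' ∈ N`: apply `K.Φ`: `z' = C.R z` (`Φ_Ψ`, and `Φ (Ψ z) = C.R z` by `left`), `GoodG.R`.
  `v = H1.Ψ z'` or `H2.Ψ z'`: `v ∈ K.O` (`maps`), `K_of_H1`, `K_of_H2` reduce to the previous case.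
* `sup1`: the same; case `v = K.Ψ z'`: `v ∈ H1.O`, so `p1 z' ≠ 0` (`W.notK1`), `v = H1.Ψ (T1 z')`, `C.R z = T1 z'`, `g1_T1`.
  Case `v = H2.Ψ z'`: `v ∈ H1.O ∩ H2.O`, so `v ∈ K.O` (`W.inter12`), `K_of_H2`, and the case of `K`.
-/

set_option autoImplicit false
set_option maxSynthPendingDepth 3
set_option linter.unusedSectionVars false

open Set MeasureTheory Matrix
open scoped ContDiff

namespace Pool.Agent.EXO.CH

section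

variable {N : OrGeo 6 7} {C : Collar N.carrier} {l : ℝ} (W : WD N C l)

theorem T1_mem (hl : 0 < l) (O : Set (En 7)) {c : ℝ} {z : En 15} (hz : z ∈ dom gK O c)
    (h : p1 z ≠ 0) : T1 l z ∈ dom g1 O c :=
  ⟨by rw [g1_T1 hl h]; exact hz.1, by rw [p3_T1]; exact hz.2⟩

theorem WD.trK1' (hl : 0 < l) {z : En 15} (hz : z ∈ dom gK C.O 20000) (h : p1 z ≠ 0) :
    W.K.Ψ z = W.H1.Ψ (T1 l z) := by
  have h1 := VPiece.Ψ_R W.K hz
  have h2 := W.trK1 (C.R z) (R_mem C goodK hz) (by rw [Collar.p1_R]; exact h)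
  have h3 : j15 (ivn (p1 (C.R z))) (tw l (p1 (C.R z)) (p2 (C.R z))) (p3 (C.R z)) =
      C.R (T1 l z) := by
    rw [← T1_R]
    rfl
  rw [h3] at h2
  rw [← h1, h2]
  exact VPiece.Ψ_R W.H1 (T1_mem hl C.O hz h)

theorem WD.notK1' {z : En 15} (hz : z ∈ dom gK C.O 20000) (h : p1 z = 0) : W.K.Ψ z ∉ W.H1.O := by
  rw [← VPiece.Ψ_R W.K hz]
  exact W.notK1 (C.R z) (R_mem C goodK hz) (by rw [Collar.p1_R]; exact h)

theorem WD.K_of_H1 (hl : 0 < l) {z : En 15} (hz : z ∈ dom g1 N.carrier 20000)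
    (h : W.H1.Ψ z ∈ W.K.O) :
    ∃ z', z' ∈ dom gK N.carrier 20000 ∧ p1 z' ≠ 0 ∧ gK z' = g1 z ∧ T1 l z' = z ∧
      W.K.Ψ z' = W.H1.Ψ z := by
  by_cases h0 : p1 z = 0
  · exact absurd h (W.not1K z hz h0)
  · have h1 : T1i l z ∈ dom gK N.carrier 20000 :=
      ⟨by rw [gK_T1i hl h0]; exact hz.1, by rw [p3_T1i]; exact hz.2⟩
    have h2 : p1 (T1i l z) ≠ 0 := by
      rw [p1_T1i]
      exact ivn_ne h0
    refine ⟨T1i l z, h1, h2, gK_T1i hl h0, T1_T1i hl h0, ?_⟩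
    have h3 := W.trK1 _ h1 h2
    have h4 : j15 (ivn (p1 (T1i l z))) (tw l (p1 (T1i l z)) (p2 (T1i l z))) (p3 (T1i l z)) =
        z := T1_T1i hl h0
    rw [h4] at h3
    exact h3

theorem WD.K_of_H2 (hl : 0 < l) {z : En 15} (hz : z ∈ dom g2 N.carrier 20000)
    (h : W.H2.Ψ z ∈ W.K.O) :
    ∃ z', z' ∈ dom gK N.carrier 20000 ∧ gK z' = g2 z ∧ W.K.Ψ z' = W.H2.Ψ z := by
  have h1 : sw z ∈ dom g1 N.carrier 20000 :=
    ⟨by rw [g1_sw]; exact hz.1, by rw [p3_sw]; exact hz.2⟩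
  have h2 : W.swap.H1.Ψ (sw z) = W.H2.Ψ z := by
    change W.H2.Ψ (sw (sw z)) = W.H2.Ψ z
    rw [sw_sw]
  obtain ⟨z', h3, _, h5, _, h7⟩ := WD.K_of_H1 W.swap hl h1 (by rw [h2]; exact h)
  refine ⟨sw z', ⟨by rw [gK_sw]; exact h3.1, by rw [p3_sw]; exact h3.2⟩, ?_, ?_⟩
  · rw [gK_sw, h5, g1_sw]
  · rw [h2] at h7
    exact h7

variable {W} (D : FD W)

private theorem ChSup_eq {M : ℕ} {V : Set (En M)} {g : En 15 → ℝ} (X : VPiece C V g)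
    (hg : GoodG g) {z z' : En 15} (hz : z ∈ dom g C.O 20000) (hz' : z' ∈ dom g N.carrier 20000)
    (h : X.Ψ z' = X.Ψ z) : g z = g z' := by
  have h1 := VPiece.Φ_Ψ X hz'
  have h2 := X.left z hz
  rw [h, h2] at h1
  rw [← h1]
  exact (GoodG.R C hg z).symm

private theorem ChSup_lt {a : ℝ} (h : a ≤ 1 / 3) : a < 20000 := by linarith

theorem FD.supK (hl : 0 < l) {z : En 15} (hz : z ∈ dom gK C.O 20000)
    (h : pbF W.K.Ψ D.al z ≠ 0) : gK z ≤ 1 / 3 := by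
  obtain ⟨hv, hvO⟩ := W.K.maps z hz
  have h1 : FAMap (W.V.P (W.K.Ψ z)) (D.al (W.K.Ψ z)) ≠ 0 := fun h' =>
    h ((VPiece.tan_zero_iff W.V.toGeo W.K goodK hz).1 h')
  rcases W.cover _ hv with hc | ⟨z', h2, h3, h4⟩ | ⟨z', h2, h3, h4⟩ | ⟨z', h2, h3, h4⟩
  · exact absurd (D.core _ hc hv) h1
  · rw [ChSup_eq W.K goodK hz ⟨ChSup_lt h2, h3⟩ h4.symm]
    exact h2
  · obtain ⟨z'', h5, _, h6, _, h7⟩ := WD.K_of_H1 W hl (z := z') ⟨ChSup_lt h2, h3⟩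
      (by rw [← h4]; exact hvO)
    rw [ChSup_eq W.K goodK hz h5 (by rw [h7, h4]), h6]
    exact h2
  · obtain ⟨z'', h5, h6, h7⟩ := WD.K_of_H2 W hl (z := z') ⟨ChSup_lt h2, h3⟩
      (by rw [← h4]; exact hvO)
    rw [ChSup_eq W.K goodK hz h5 (by rw [h7, h4]), h6]
    exact h2

theorem FD.sup1 (hl : 0 < l) {z : En 15} (hz : z ∈ dom g1 C.O 20000)
    (h : pbF W.H1.Ψ D.al z ≠ 0) : g1 z ≤ 1 / 3 := by
  obtain ⟨hv, hvO⟩ := W.H1.maps z hz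
  have h1 : FAMap (W.V.P (W.H1.Ψ z)) (D.al (W.H1.Ψ z)) ≠ 0 := fun h' =>
    h ((VPiece.tan_zero_iff W.V.toGeo W.H1 good1 hz).1 h')
  have hK : ∀ z' ∈ dom gK N.carrier 20000, gK z' ≤ 1 / 3 → W.K.Ψ z' = W.H1.Ψ z → g1 z ≤ 1 / 3 := by
    intro z' h2 h3 h4
    have h5 : p1 z' ≠ 0 := by
      intro h6
      apply W.notK1 z' h2 h6
      rw [h4]
      exact hvO
    have h6 : W.K.Ψ z' = W.H1.Ψ (T1 l z') := W.trK1 z' h2 h5
    rw [ChSup_eq W.H1 good1 hz (T1_mem hl N.carrier h2 h5) (by rw [← h6, h4]), g1_T1 hl h5]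
    exact h3
  rcases W.cover _ hv with hc | ⟨z', h2, h3, h4⟩ | ⟨z', h2, h3, h4⟩ | ⟨z', h2, h3, h4⟩
  · exact absurd (D.core _ hc hv) h1
  · exact hK z' ⟨ChSup_lt h2, h3⟩ h2 h4.symm
  · rw [ChSup_eq W.H1 good1 hz ⟨ChSup_lt h2, h3⟩ h4.symm]
    exact h2
  · have h5 : z' ∈ dom g2 N.carrier 20000 := ⟨ChSup_lt h2, h3⟩
    have h6 := (W.H2.maps z' (dom_sub C g2 20000 h5)).2
    rw [← h4] at h6
    have h7 := W.inter12 _ hv hvO h6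
    obtain ⟨z'', h8, h9, h10⟩ := WD.K_of_H2 W hl (z := z') h5 (by rw [← h4]; exact h7)
    exact hK z'' h8 (by rw [h9]; exact h2) (by rw [h10, h4])

/-- On the core and near points where `α'` vanishes on tangent vectors, also `γ` vanishes. -/
theorem FD.ga_zero {v : En W.M} (h : FAMap (W.V.P v) (D.al v) = 0) :
    FAMap (W.V.P v) (D.ga v) = 0 := by
  rw [FD.ga, FAMap_mul, h, zero_mul]

end

end Pool.Agent.EXO.CH
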