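import Mathlib
import Pool.Agent.EXO.ChMatB
import Pool.Agent.EXO.ChTw

/-!
# EXO / ChRfl: the inversion does not contribute

PROOF.  For `x ≠ 0` let `p(x) i j = x i * x j / ‖x‖²` (a symmetric projection of rank one), `ρ = 1 - 2 p`, `c = ‖x‖⁻²`.
* `jac_ivn`: `jac ivn x = c • ρ`: derivative of `(‖x‖²)⁻¹ • x` in the direction `v`: `c • v - 2 c² ⟪x, v⟫ • x`.
* `ρ * ρ = 1` (`p * p = p`, `∑ (x i)² = ‖x‖²`), so every `h` with `h * jac ivn x = 1` is `c⁻¹ • ρ`.
* With `Dp = DM (fun y => rM (p y)) x` and `dc = dF (fun y => rF ‖y‖⁻²) x`: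
  `DM (fun y => rM (jac ivn y)) x = (dc on the diagonal) * rM ρ + rF c * (-2 Dp)` (`jac ivn y = c y • ρ y` for `y` near
  `x`; product rule `DM_mul_ev` for the matrices `c • 1` and `ρ`, or entrywise `dF_rF_mul`), so
  `θ = thM (jac ivn) h x = diagonal (rF c⁻¹ * dc) + K`, `K = rM ρ * (-2 Dp) = 2 • (P Dp - Dp P)`, `P = rM (p x)`: indeed
  `P Dp + Dp P = Dp` (differentiate `p p = p`), so `-2 Dp + 4 P Dp = 2 (P Dp - Dp P)`.
* `GrC.tr_scal_cube` (`rF c⁻¹ * dc` is odd, `K` odd) and `GrC.tr_refl_cube`.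
-/

set_option autoImplicit false
set_option maxSynthPendingDepth 3
set_option linter.unusedSectionVars false

open Set MeasureTheory Matrix
open scoped ContDiff Quaternion

namespace Pool.Agent.EXO.CH

/-- The rank one projection to the line of `x`. -/
noncomputable def rkp (x : En 4) : Matrix (Fin 4) (Fin 4) ℝ := fun i j => x i * x j / ‖x‖ ^ 2

theorem rkp_mul {x : En 4} (hx : x ≠ 0) : rkp x * rkp x = rkp x := by
  have h0 : ‖x‖ ^ 2 ≠ 0 := pow_ne_zero _ (norm_ne_zero_iff.2 hx)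
  ext i j
  rw [Matrix.mul_apply]
  simp only [rkp]
  have h1 : ∀ k, x i * x k / ‖x‖ ^ 2 * (x k * x j / ‖x‖ ^ 2) =
      x i * x j / (‖x‖ ^ 2 * ‖x‖ ^ 2) * x k ^ 2 := by
    intro k
    field_simp
  simp only [h1]
  rw [← Finset.mul_sum, ← EuclideanSpace.real_norm_sq_eq]
  field_simp

theorem jac_ivn {x : En 4} (hx : x ≠ 0) :
    jac (ivn : En 4 → En 4) x = (‖x‖ ^ 2)⁻¹ • (1 - (2 : ℝ) • rkp x) := by
  have h0 : ‖x‖ ^ 2 ≠ 0 := pow_ne_zero _ (norm_ne_zero_iff.2 hx)
  have h1 : HasFDerivAt (fun y : En 4 => ‖y‖ ^ 2) (2 • (innerSL ℝ x)) x :=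
    (hasStrictFDerivAt_norm_sq x).hasFDerivAt
  have h2 := (hasDerivAt_inv h0).comp_hasFDerivAt x h1
  have h3 := h2.smul (hasFDerivAt_id x)
  have h4 : HasFDerivAt (ivn : En 4 → En 4) _ x := h3
  ext i j
  simp only [jac]
  rw [h4.fderiv]
  simp only [Function.comp, id, ContinuousLinearMap.add_apply, ContinuousLinearMap.smul_apply,
    ContinuousLinearMap.smulRight_apply, ContinuousLinearMap.id_apply, innerSL_apply_apply, PiLp.add_apply,
    PiLp.smul_apply, smul_eq_mul, Matrix.smul_apply, Matrix.sub_apply, rkp, bv,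
    EuclideanSpace.inner_single_right, EuclideanSpace.single_apply, Matrix.one_apply, nsmul_eq_mul]
  simp only [conj_trivial, one_mul, Nat.cast_ofNat, mul_ite, mul_one, mul_zero]
  by_cases hij : i = j
  · subst hij
    simp only [if_true]
    field_simp
    ring
  · simp only [hij, if_false]
    field_simp
    ring

theorem smM_rkp : SmM {x : En 4 | x ≠ 0} rkp := by
  intro i j
  have hc : ∀ k : Fin 4, ContDiff ℝ ∞ fun x : En 4 => x k := fun k =>
    (EuclideanSpace.proj k : En 4 →L[ℝ] ℝ).contDiff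
  exact (((hc i).mul (hc j)).contDiffOn).div (contDiff_norm_sq ℝ).contDiffOn
    fun x hx => pow_ne_zero _ (norm_ne_zero_iff.2 hx)

theorem smM_jac_ivn : SmM {x : En 4 | x ≠ 0} (jac (ivn : En 4 → En 4)) := by
  intro i j
  have h1 : ContDiffOn ℝ ∞ (fun x : En 4 => (‖x‖ ^ 2)⁻¹ *
      ((1 : Matrix (Fin 4) (Fin 4) ℝ) i j - 2 * rkp x i j)) {x : En 4 | x ≠ 0} :=
    (((contDiff_norm_sq ℝ).contDiffOn).inv
      fun x hx => pow_ne_zero _ (norm_ne_zero_iff.2 hx)).mul
      (contDiffOn_const.sub (contDiffOn_const.mul (smM_rkp i j)))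
  refine h1.congr fun x hx => ?_
  rw [jac_ivn hx]
  simp only [Matrix.smul_apply, Matrix.sub_apply, smul_eq_mul]

theorem tr_ivn_cube {x : En 4} (hx : x ≠ 0) (h : En 4 → Matrix (Fin 4) (Fin 4) ℝ)
    (hh : h x * jac (ivn : En 4 → En 4) x = 1) :
    trace (thM (jac (ivn : En 4 → En 4)) h x * thM (jac (ivn : En 4 → En 4)) h x *
      thM (jac (ivn : En 4 → En 4)) h x) = 0 := by
  have hopen : IsOpen {x : En 4 | x ≠ 0} := isOpen_ne
  have hnx : ‖x‖ ^ 2 ≠ 0 := pow_ne_zero _ (norm_ne_zero_iff.2 hx)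
  set c : En 4 → ℝ := fun y => (‖y‖ ^ 2)⁻¹ with hc
  have hcx : c x ≠ 0 := inv_ne_zero hnx
  set ρ : En 4 → Matrix (Fin 4) (Fin 4) ℝ := fun y => 1 - (2 : ℝ) • rkp y with hρ
  set P : Matrix (Fin 4) (Fin 4) (FA 4) := rM (rkp x) with hP
  set Dp : Matrix (Fin 4) (Fin 4) (FA 4) := DM (fun y => rM (rkp y)) x with hDp
  set dc : FA 4 := dF (fun y => (rF (c y) : FA 4)) x with hdc
  have hev : ∀ᶠ y in nhds x, y ≠ 0 := hopen.mem_nhds hx
  -- differentiability
  have dP : ∀ i j, DifferentiableAt ℝ (fun y => (rM (rkp y) : Matrix (Fin 4) (Fin 4) (FA 4)) i j) x :=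
    fun i j => smM_rkp.rM.diff hopen hx i j
  have cS : ContDiffOn ℝ ∞ c {x : En 4 | x ≠ 0} := ((contDiff_norm_sq ℝ).contDiffOn).inv
      fun x hx => pow_ne_zero _ (norm_ne_zero_iff.2 hx)
  have dcS : DifferentiableAt ℝ (fun y => (rF (c y) : FA 4)) x :=
    ((contDiffOn_rF cS).contDiffAt (hopen.mem_nhds hx)).differentiableAt (by simp)
  -- ρ * ρ = 1
  have hρρ : ρ x * ρ x = 1 := by
    have h1 := rkp_mul hx
    simp only [hρ]
    rw [Matrix.sub_mul, Matrix.one_mul, Matrix.mul_sub, Matrix.mul_one,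
      Matrix.smul_mul, Matrix.mul_smul, h1]
    module
  -- the left inverse
  have hh2 : h x = (c x)⁻¹ • ρ x := by
    have h1 : jac (ivn : En 4 → En 4) x * ((c x)⁻¹ • ρ x) = 1 := by
      rw [jac_ivn hx]
      change (c x • ρ x) * ((c x)⁻¹ • ρ x) = 1
      rw [Matrix.smul_mul, Matrix.mul_smul, hρρ, smul_smul, mul_inv_cancel₀ hcx, one_smul]
    calc h x = h x * (jac (ivn : En 4 → En 4) x * ((c x)⁻¹ • ρ x)) := by rw [h1, Matrix.mul_one]
      _ = (h x * jac (ivn : En 4 → En 4) x) * ((c x)⁻¹ • ρ x) := by rw [Matrix.mul_assoc]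
      _ = (c x)⁻¹ • ρ x := by rw [hh, Matrix.one_mul]
  -- real matrices as forms
  have rsm : ∀ (t : ℝ) (X : Matrix (Fin 4) (Fin 4) ℝ),
      (rM (t • X) : Matrix (Fin 4) (Fin 4) (FA 4)) = (Matrix.diagonal fun _ => rF t) * rM X := by
    intro t X
    ext1 i j
    rw [Matrix.diagonal_mul, rM_apply, rM_apply, Matrix.smul_apply, smul_eq_mul, rF_mul]
  have rρ : ∀ y, (rM (ρ y) : Matrix (Fin 4) (Fin 4) (FA 4)) = rM 1 + (-2 : ℂ) • rM (rkp y) := by
    intro y
    ext1 i j
    rw [Matrix.add_apply, Matrix.smul_apply, rM_apply, rM_apply, rM_apply]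
    simp only [hρ, Matrix.sub_apply, Matrix.smul_apply, smul_eq_mul]
    rw [rF_sub, rF_mul, rF_smul]
    push_cast
    module
  have hDρ : DM (fun y => (rM (ρ y) : Matrix (Fin 4) (Fin 4) (FA 4))) x = (-2 : ℂ) • Dp := by
    ext1 i j
    rw [DM_apply, Matrix.smul_apply, hDp, DM_apply]
    have e1 : (fun y => (rM (ρ y) : Matrix (Fin 4) (Fin 4) (FA 4)) i j) =
        fun y => (rM (1 : Matrix (Fin 4) (Fin 4) ℝ) : Matrix (Fin 4) (Fin 4) (FA 4)) i j +
          (-2 : ℂ) • (rM (rkp y) : Matrix (Fin 4) (Fin 4) (FA 4)) i j := by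
      funext y
      rw [rρ y]
      rfl
    have d3 : DifferentiableAt ℝ
        (fun y => (-2 : ℂ) • (rM (rkp y) : Matrix (Fin 4) (Fin 4) (FA 4)) i j) x :=
      (dP i j).fun_const_smul (-2 : ℂ)
    rw [e1, dF_add (differentiableAt_const _) d3, dF_const, dF_smul _ (dP i j), zero_add]
  -- the projection
  have hPP : P * P = P := (rM_mul (rkp x) (rkp x)).symm.trans (by rw [rkp_mul hx])
  have hPD : P * Dp + Dp * P = Dp := by
    have h1 := DM_mul_ev (X := fun y => (rM (rkp y) : Matrix (Fin 4) (Fin 4) (FA 4)))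
      (Y := fun y => (rM (rkp y) : Matrix (Fin 4) (Fin 4) (FA 4))) dP dP (ev_rM _)
    have h2 : DM (fun y => (rM (rkp y) : Matrix (Fin 4) (Fin 4) (FA 4)) * rM (rkp y)) x = Dp := by
      refine DM_congr ?_
      filter_upwards [hev] with y hy
      exact (rM_mul (rkp y) (rkp y)).symm.trans (by rw [rkp_mul hy])
    rw [h2] at h1
    rw [add_comm]
    exact h1.symm
  -- the derivative of the Jacobian
  have hJ : DM (fun y => (rM (jac (ivn : En 4 → En 4) y) : Matrix (Fin 4) (Fin 4) (FA 4))) x =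
      (Matrix.diagonal fun _ => dc) * rM (ρ x) + (Matrix.diagonal fun _ => rF (c x)) *
        ((-2 : ℂ) • Dp) := by
    have h1 : DM (fun y => (rM (jac (ivn : En 4 → En 4) y) : Matrix (Fin 4) (Fin 4) (FA 4))) x =
        DM (fun y => (Matrix.diagonal fun _ => (rF (c y) : FA 4)) *
          (rM (ρ y) : Matrix (Fin 4) (Fin 4) (FA 4))) x := by
      refine DM_congr ?_
      filter_upwards [hev] with y hy
      rw [jac_ivn hy, ← rsm]
    have d1 : ∀ i j, DifferentiableAt ℝ
        (fun y => (Matrix.diagonal fun _ => (rF (c y) : FA 4) : Matrix (Fin 4) (Fin 4) (FA 4)) i j) x := by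
      intro i j
      by_cases hij : i = j
      · subst hij
        simpa only [Matrix.diagonal_apply_eq] using dcS
      · simp only [Matrix.diagonal_apply_ne _ hij]
        exact differentiableAt_const _
    have d2 : ∀ i j, DifferentiableAt ℝ
        (fun y => (rM (ρ y) : Matrix (Fin 4) (Fin 4) (FA 4)) i j) x := by
      intro i j
      have e1 : (fun y => (rM (ρ y) : Matrix (Fin 4) (Fin 4) (FA 4)) i j) =
          fun y => (rM (1 : Matrix (Fin 4) (Fin 4) ℝ) : Matrix (Fin 4) (Fin 4) (FA 4)) i j +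
            (-2 : ℂ) • (rM (rkp y) : Matrix (Fin 4) (Fin 4) (FA 4)) i j := by
        funext y
        rw [rρ y]
        rfl
      rw [e1]
      exact (differentiableAt_const _).add ((dP i j).fun_const_smul (-2 : ℂ))
    have ev1 : (faG 4).MEv (Matrix.diagonal fun _ => (rF (c x) : FA 4) :
        Matrix (Fin 4) (Fin 4) (FA 4)) := by
      intro i j
      by_cases hij : i = j
      · subst hij
        rw [Matrix.diagonal_apply_eq]
        exact σ_of_deg_even Even.zero (deg_rF _)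
      · rw [Matrix.diagonal_apply_ne _ hij, map_zero]
    have hdiag : DM (fun y => (Matrix.diagonal fun _ => (rF (c y) : FA 4) :
        Matrix (Fin 4) (Fin 4) (FA 4))) x = Matrix.diagonal fun _ => dc := by
      ext1 i j
      rw [DM_apply]
      by_cases hij : i = j
      · subst hij
        simp only [Matrix.diagonal_apply_eq]
        rfl
      · simp only [Matrix.diagonal_apply_ne _ hij]
        exact dF_const _ _
    rw [h1, DM_mul_ev d1 d2 ev1, hdiag, hDρ]
  -- the form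
  set K : Matrix (Fin 4) (Fin 4) (FA 4) := (2 : ℂ) • (P * Dp - Dp * P) with hK
  have hθ : thM (jac (ivn : En 4 → En 4)) h x =
      (Matrix.diagonal fun _ => (rF (c x)⁻¹ * dc : FA 4)) + K := by
    unfold thM
    rw [hJ, hh2, rsm]
    have hdd : ∀ u v : FA 4, (Matrix.diagonal fun _ => u : Matrix (Fin 4) (Fin 4) (FA 4)) *
        (Matrix.diagonal fun _ => v) = Matrix.diagonal fun _ => u * v := by
      intro u v
      rw [Matrix.diagonal_mul_diagonal]
    have hcomm : ∀ (u : FA 4) (X : Matrix (Fin 4) (Fin 4) ℝ),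
        (rM X : Matrix (Fin 4) (Fin 4) (FA 4)) * (Matrix.diagonal fun _ => u) =
          (Matrix.diagonal fun _ => u) * rM X := by
      intro u X
      ext1 i j
      rw [Matrix.mul_diagonal, Matrix.diagonal_mul, rM_apply, rF_comm]
    have hρρ' : (rM (ρ x) : Matrix (Fin 4) (Fin 4) (FA 4)) * rM (ρ x) = 1 := by
      exact (rM_mul (ρ x) (ρ x)).symm.trans (by rw [hρρ, rM_one])
    rw [Matrix.mul_add]
    congr 1
    · calc (Matrix.diagonal fun _ => (rF (c x)⁻¹ : FA 4)) * rM (ρ x) *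
            ((Matrix.diagonal fun _ => dc) * rM (ρ x))
          = (Matrix.diagonal fun _ => (rF (c x)⁻¹ : FA 4)) *
            (rM (ρ x) * (Matrix.diagonal fun _ => dc)) * rM (ρ x) := by
            simp only [Matrix.mul_assoc]
        _ = (Matrix.diagonal fun _ => (rF (c x)⁻¹ : FA 4)) * (Matrix.diagonal fun _ => dc) *
            (rM (ρ x) * rM (ρ x)) := by
            rw [hcomm]
            simp only [Matrix.mul_assoc]
        _ = _ := by rw [hρρ', Matrix.mul_one, hdd]
    · calc (Matrix.diagonal fun _ => (rF (c x)⁻¹ : FA 4)) * rM (ρ x) *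
            ((Matrix.diagonal fun _ => (rF (c x) : FA 4)) * ((-2 : ℂ) • Dp))
          = (Matrix.diagonal fun _ => (rF (c x)⁻¹ : FA 4)) *
            (rM (ρ x) * (Matrix.diagonal fun _ => (rF (c x) : FA 4))) * ((-2 : ℂ) • Dp) := by
            simp only [Matrix.mul_assoc]
        _ = (Matrix.diagonal fun _ => (rF (c x)⁻¹ : FA 4)) *
            (Matrix.diagonal fun _ => (rF (c x) : FA 4)) * (rM (ρ x) * ((-2 : ℂ) • Dp)) := by
            rw [hcomm]
            simp only [Matrix.mul_assoc]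
        _ = rM (ρ x) * ((-2 : ℂ) • Dp) := by
            rw [hdd, ← rF_mul, inv_mul_cancel₀ hcx, rF_one]
            have : (Matrix.diagonal fun _ => (1 : FA 4) : Matrix (Fin 4) (Fin 4) (FA 4)) = 1 :=
              Matrix.diagonal_one
            rw [this, Matrix.one_mul]
        _ = K := by
            rw [rρ, rM_one, Matrix.add_mul, Matrix.one_mul, Matrix.smul_mul, Matrix.mul_smul, hK]
            have e1 : Dp = P * Dp + Dp * P := hPD.symm
            nth_rewrite 1 [e1]
            rw [← hP]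
            module
  have oK : (faG 4).MOd K := by
    have o1 : (faG 4).MOd (P * Dp - Dp * P) :=
      ((ev_rM _).mul_od (od_DM_rM _ _)).sub ((od_DM_rM _ _).mul_ev (ev_rM _))
    intro i j
    rw [hK, Matrix.smul_apply, faG_σ, map_smul, ← faG_σ, o1 i j, smul_neg]
  have oc : (faG 4).σ (rF (c x)⁻¹ * dc) = -(rF (c x)⁻¹ * dc) := by
    refine σ_of_deg_odd (j := 0 + (0 + 1)) (by decide) (isDeg_mul (deg_rF _) (deg_dF ?_))
    exact Filter.Eventually.of_forall fun y => deg_rF _
  rw [hθ, GrC.tr_scal_cube oc oK]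
  exact GrC.tr_refl_cube (ev_rM _) (od_DM_rM _ _) hPP hPD hK

end Pool.Agent.EXO.CH
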