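import Mathlib
import Pool.Agent.EXO.ChRqA

/-!
# EXO / ChRqB: naturality of `h dg`; the three-form of the twisting map on `ℝ⁴ ∖ 0`

PROOFS.
* `thM_pb`: `pbM_mul`, `pbM_rM`, `DM_pbM` (`pbM p (fun y => rM (g y)) = fun y => rM (g (p y))` by `pbM_rM`; the entries
  `rF (g y i j)` are differentiable).
* `thM_left`: `thM g h x` only uses the value `h x`.
* `tr_twM`: `h x = (twM l x)ᵀ`: `twM l x` is orthogonal (`norm_rot4` / `rot4_star`: `rot4 (star q)` is the inverse and the
  adjoint; or `(twM)ᵀ * twM = 1` from `⟪rot4 q y, rot4 q y'⟫ = ⟪y, y'⟫`, polarization of `norm_rot4`), so the left inverse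
  is the transpose.  Case `0 < x 0`: near `x`: `twM l = rqM l ∘ uq`, so (`DM_congr`) `θ = thM (rqM l ∘ uq) (..ᵀ ∘ uq) x =
  pbM uq (thM (rqM l) ..) x` (`thM_pb`), `pbF_trace`, `pbM_mul`, `tr_rqM`, and `tau0` (`pbF_smul` is not needed:
  `pbF uq u x = FAMap (fderiv ℝ uq x) (u (uq x))`).  Case `x 0 ≤ 0`: `twM l` is constant near `x` (`tha4_const`), `θ = 0`
  (`DM_congr`, `DM_const`), `tau0 l x = 0`.
-/

set_option autoImplicit false
set_option maxSynthPendingDepth 3
set_option linter.unusedSectionVars false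

open Set MeasureTheory Matrix
open scoped ContDiff Quaternion

namespace Pool.Agent.EXO.CH

theorem thM_pb {m k : ℕ} {b : Type} [Fintype b] [DecidableEq b] (p : En m → En k)
    (g h : En k → Matrix b b ℝ) {z : En m} (hp : ContDiffAt ℝ ∞ p z)
    (hg : ∀ i j, DifferentiableAt ℝ (fun y => g y i j) (p z)) :
    thM (fun y => g (p y)) (fun y => h (p y)) z = pbM p (thM g h) z := by
  have h1 : (fun y => (rM (g (p y)) : Matrix b b (FA m))) = pbM p (fun y => rM (g y)) := by
    funext y
    rw [pbM_rM]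
  have h2 : ∀ i j, DifferentiableAt ℝ (fun y => (rM (g y) : Matrix b b (FA k)) i j) (p z) := by
    intro i j
    have h3 : DifferentiableAt ℝ (fun t : ℝ => (rF t : FA k)) (g (p z) i j) :=
      (contDiff_rF.differentiable (by simp)) _
    exact DifferentiableAt.comp (g := fun t : ℝ => (rF t : FA k)) (f := fun y => g y i j) (p z) h3 (hg i j)
  have h4 : DM (fun y => (rM (g (p y)) : Matrix b b (FA m))) z =
      pbM p (DM fun y => rM (g y)) z := by
    rw [h1]
    exact DM_pbM (hp.of_le (WithTop.coe_le_coe.2 (le_top : (2 : ℕ∞) ≤ ⊤))) h2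
  have h5 : pbM p (thM g h) z = pbM p (fun y => rM (h y)) z * pbM p (DM fun y => rM (g y)) z :=
    pbM_mul p (fun y => rM (h y)) (DM fun y => rM (g y)) z
  rw [h5, pbM_rM, ← h4]
  rfl

theorem thM_left {m : ℕ} {b : Type} [Fintype b] (g h h' : En m → Matrix b b ℝ) {z : En m}
    (e : h z = h' z) : thM g h z = thM g h' z := by
  unfold thM
  rw [e]

theorem twM_tr {l : ℝ} (hl : 0 < l) (x : En 4) : (twM l x)ᵀ * twM l x = 1 := by
  let f : En 4 →ₗᵢ[ℝ] En 4 :=
    { toLinearMap := (tw l x : En 4 →L[ℝ] En 4).toLinearMap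
      norm_map' := fun y => norm_rot4 (norm_tha4 hl x) y }
  refine Matrix.ext fun i j => ?_
  rw [Matrix.mul_apply]
  have h1 : inner ℝ (f (bv j)) (f (bv i)) = inner ℝ (bv j : En 4) (bv i) := f.inner_map_map _ _
  have h2 : inner ℝ (f (bv j)) (f (bv i)) = ∑ k, (twM l x)ᵀ i k * twM l x k j := by
    rw [PiLp.inner_apply]
    refine Finset.sum_congr rfl fun k _ => ?_
    rfl
  rw [← h2, h1]
  rw [Matrix.one_apply]
  unfold bv
  rw [EuclideanSpace.inner_single_left]
  by_cases hij : i = j
  · subst hij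
    simp
  · rw [if_neg hij]
    simp [Ne.symm hij]

theorem smM_twM {l : ℝ} (hl : 0 < l) : SmM {x : En 4 | x ≠ 0} (twM l) := by
  intro i j
  have h1 : ContDiffOn ℝ ∞ (fun x => tw l x (bv j)) {x : En 4 | x ≠ 0} :=
    ContDiffOn.clm_apply (vc_contDiffOn_tw hl) contDiffOn_const
  exact (contDiff_coord i).comp_contDiffOn h1

theorem tr_twM {l : ℝ} (hl : 0 < l) {x : En 4} (hx : x ≠ 0) (h : En 4 → Matrix (Fin 4) (Fin 4) ℝ)
    (hh : h x * twM l x = 1) :
    -(1 / 3 : ℂ) • trace (thM (twM l) h x * thM (twM l) h x * thM (twM l) h x) = tau0 l x := by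
  have hx2 : h x = (twM l x)ᵀ := by
    have h1 : twM l x * (twM l x)ᵀ = 1 := mul_eq_one_comm.1 (twM_tr hl x)
    calc h x = h x * (twM l x * (twM l x)ᵀ) := by rw [h1, Matrix.mul_one]
      _ = (h x * twM l x) * (twM l x)ᵀ := by rw [Matrix.mul_assoc]
      _ = (twM l x)ᵀ := by rw [hh, Matrix.one_mul]
  have hc0 : Continuous fun y : En 4 => y 0 := (contDiff_coord 0).continuous
  rcases lt_or_ge 0 (x 0) with h0 | h0
  · have hev : ∀ᶠ y in nhds x, twM l y = rqM l (uq y) := by
      filter_upwards [(isOpen_lt continuous_const hc0).mem_nhds h0] with y hy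
      have h1 : tha4 l y = tha l (uq y) := by
        rw [tha4, if_pos hy]
        rfl
      funext i j
      change rot4 (tha4 l y) (bv j) i = rot4 (tha l (uq y)) (bv j) i
      rw [h1]
    have h1 : thM (twM l) h x =
        thM (fun y => rqM l (uq y)) (fun y => (rqM l (uq y))ᵀ) x := by
      unfold thM
      have h2 : DM (fun y => (rM (twM l y) : Matrix (Fin 4) (Fin 4) (FA 4))) x =
          DM (fun y => rM (rqM l (uq y))) x := by
        refine DM_congr ?_
        filter_upwards [hev] with y hy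
        rw [hy]
      rw [h2, hx2, hev.self_of_nhds]
    have huq : ContDiffAt ℝ ∞ uq x := by
      have hv : ContDiffAt ℝ ∞ vec4 x := by
        have h3 : vec4 = fun x : En 4 => (WithLp.toLp 2 ![x 1, x 2, x 3] : En 3) := rfl
        rw [h3]
        refine (contDiff_toLp fun i => ?_).contDiffAt
        fin_cases i
        · exact contDiff_coord 1
        · exact contDiff_coord 2
        · exact contDiff_coord 3
      exact (((contDiff_coord 0).contDiffAt.inv h0.ne').smul hv)
    have hrq : ∀ i j, DifferentiableAt ℝ (fun y => rqM l y i j) (uq x) := fun i j =>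
      ((smM_rqM hl i j).contDiffAt Filter.univ_mem).differentiableAt (by simp)
    have h2 : thM (twM l) h x = pbM uq (thM (rqM l) (fun u => (rqM l u)ᵀ)) x := by
      rw [h1]
      exact thM_pb uq (rqM l) (fun u => (rqM l u)ᵀ) huq hrq
    rw [h2, ← pbM_mul, ← pbM_mul, ← pbF_trace, ← pbF_smul]
    unfold tau0
    rw [if_pos h0]
    congr 1
    funext u
    exact tr_rqM hl u
  · have h1 : thM (twM l) h x = 0 := by
      unfold thM
      have h2 : DM (fun y => (rM (twM l y) : Matrix (Fin 4) (Fin 4) (FA 4))) x =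
          DM (fun _ => (rM (fun i j => rot4 1 (bv j) i) : Matrix (Fin 4) (Fin 4) (FA 4))) x := by
        refine DM_congr ?_
        filter_upwards [tha4_const hl hx h0] with y hy
        have h3 : twM l y = fun i j => rot4 1 (bv j) i := by
          funext i j
          change rot4 (tha4 l y) (bv j) i = _
          rw [hy]
        rw [h3]
      rw [h2, DM_const, Matrix.mul_zero]
    rw [h1]
    unfold tau0
    rw [if_neg (not_lt.2 h0), Matrix.mul_zero, Matrix.trace_zero, smul_zero]

end Pool.Agent.EXO.CH
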