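import Mathlib
import Pool.Agent.EXO.ChMatB
import Pool.Agent.EXO.CsOrth

/-!
# EXO / ChTauA: `tr θ³` of block triangular and of reindexed matrix functions

PROOFS.
* `thM_block`: `h z = fromBlocks (hA z) 0 (-(hD z * gC z * hA z)) (hD z)` (both are left inverses of the same square matrix;
  `fromBlocks_multiply`; left inverses are unique: `Matrix.mul_eq_one_comm`, `left_inv_eq_right_inv`).
  `DM (fun y => rM (fromBlocks ..)) z = fromBlocks (DM ..) 0 (DM ..) (DM ..)` (entrywise; `rF_zero`, `dF_const`), so
  `thM (fromBlocks ..) h z = fromBlocks (thM gA hA z) 0 Y (thM gD hD z)`, and `GrC.tr_block_cube` (the zero blocks of the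
  product vanish).
* `thM_diag`: the same with `gC = 0`, `gD = 1`: `thM (fun _ => 1) _ = 0`.
* `thM_reindex`: `DM` and `rM` are entrywise, `Matrix.submatrix_mul_equiv`; `trace (A.submatrix e e) = trace A`.
-/

set_option autoImplicit false
set_option maxSynthPendingDepth 3
set_option linter.unusedSectionVars false

open Set MeasureTheory Matrix
open scoped ContDiff

namespace Pool.Agent.EXO.CH

variable {m : ℕ} {p q : Type} [Fintype p] [Fintype q] [DecidableEq p] [DecidableEq q]

theorem thM_block (gA : En m → Matrix p p ℝ) (gC : En m → Matrix q p ℝ)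
    (gD : En m → Matrix q q ℝ) (h : En m → Matrix (p ⊕ q) (p ⊕ q) ℝ) (hA : En m → Matrix p p ℝ)
    (hD : En m → Matrix q q ℝ) (z : En m)
    (h1 : h z * fromBlocks (gA z) 0 (gC z) (gD z) = 1) (h2 : hA z * gA z = 1)
    (h3 : hD z * gD z = 1) :
    trace (thM (fun y => fromBlocks (gA y) 0 (gC y) (gD y)) h z *
      thM (fun y => fromBlocks (gA y) 0 (gC y) (gD y)) h z *
      thM (fun y => fromBlocks (gA y) 0 (gC y) (gD y)) h z) =
    trace (thM gA hA z * thM gA hA z * thM gA hA z) +
      trace (thM gD hD z * thM gD hD z * thM gD hD z) := by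
  have hinv : h z = fromBlocks (hA z) 0 (-(hD z * gC z * hA z)) (hD z) := by
    have e1 : fromBlocks (hA z) 0 (-(hD z * gC z * hA z)) (hD z) *
        fromBlocks (gA z) 0 (gC z) (gD z) = 1 := by
      simp only [fromBlocks_multiply, h2, h3, Matrix.zero_mul, Matrix.mul_zero, add_zero,
        zero_add, Matrix.neg_mul]
      rw [Matrix.mul_assoc _ (hA z), h2, Matrix.mul_one, neg_add_cancel, fromBlocks_one]
    have e2 := mul_eq_one_comm.1 e1
    calc h z = h z * (fromBlocks (gA z) 0 (gC z) (gD z) *
          fromBlocks (hA z) 0 (-(hD z * gC z * hA z)) (hD z)) := by rw [e2, Matrix.mul_one]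
      _ = _ := by rw [← Matrix.mul_assoc, h1, Matrix.one_mul]
  have hr : (rM (h z) : Matrix (p ⊕ q) (p ⊕ q) (FA m)) = fromBlocks (rM (hA z)) 0
      (rM (-(hD z * gC z * hA z))) (rM (hD z)) := by
    rw [hinv]
    refine Matrix.ext fun i j => ?_
    rcases i with i | i <;> rcases j with j | j
    · rfl
    · exact rF_zero
    · rfl
    · rfl
  have hd : DM (fun y => (rM (fromBlocks (gA y) 0 (gC y) (gD y)) :
      Matrix (p ⊕ q) (p ⊕ q) (FA m))) z = fromBlocks (DM (fun y => rM (gA y)) z) 0
      (DM (fun y => rM (gC y)) z) (DM (fun y => rM (gD y)) z) := by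
    refine Matrix.ext fun i j => ?_
    rcases i with i | i <;> rcases j with j | j
    · rfl
    · exact dF_const (rF 0) z
    · rfl
    · rfl
  have hth : thM (fun y => fromBlocks (gA y) 0 (gC y) (gD y)) h z =
      fromBlocks (thM gA hA z) 0 (rM (-(hD z * gC z * hA z)) * DM (fun y => rM (gA y)) z +
        rM (hD z) * DM (fun y => rM (gC y)) z) (thM gD hD z) := by
    unfold thM
    rw [hr, hd, fromBlocks_multiply]
    simp only [Matrix.mul_zero, Matrix.zero_mul, add_zero, zero_add]
    rfl
  rw [hth]
  exact GrC.tr_block_cube _ _ _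

theorem thM_one (h : En m → Matrix p p ℝ) (z : En m) :
    thM (fun _ => (1 : Matrix p p ℝ)) h z = 0 := by
  have hd : DM (fun _ : En m => (rM (1 : Matrix p p ℝ) : Matrix p p (FA m))) z = 0 :=
    DM_const _ z
  unfold thM
  rw [hd, Matrix.mul_zero]

theorem thM_reindex (e : p ≃ q) (g h : En m → Matrix q q ℝ) (z : En m) :
    thM (fun y => (g y).submatrix e e) (fun y => (h y).submatrix e e) z =
      (thM g h z).submatrix e e := by
  have h1 : (rM ((h z).submatrix e e) : Matrix p p (FA m)) = (rM (h z)).submatrix e e := rfl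
  have h2 : DM (fun y => (rM ((g y).submatrix e e) : Matrix p p (FA m))) z =
      (DM (fun y => rM (g y)) z).submatrix e e := rfl
  unfold thM
  rw [h1, h2, Matrix.submatrix_mul_equiv]

theorem trace_cube_submatrix (e : p ≃ q) (X : Matrix q q (FA m)) :
    trace (X.submatrix e e * X.submatrix e e * X.submatrix e e) = trace (X * X * X) := by
  rw [Matrix.submatrix_mul_equiv, Matrix.submatrix_mul_equiv]
  exact Equiv.sum_comp e (fun i => (X * X * X) i i)

end Pool.Agent.EXO.CH
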