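import Mathlib
import Pool.Agent.EXO.ChTauA
import Pool.Agent.EXO.ChT1
import Pool.Agent.EXO.ChRfl
import Pool.Agent.EXO.ChRqB

/-!
# EXO / ChTauB: `-1/3 tr θ³ = p1^* τ₀` for the Jacobian of `T1`

PROOFS.
* `jac_T1_block`: `T1 l z = j15 (ivn (p1 z)) (tw l (p1 z) (p2 z)) (p3 z)`; the derivative in the direction `bv j`, component
  `i`, for the nine blocks; `p1 (bv (e15 (inl j))) = bv j`, `p2 (..) = 0`, etc.; `e15 (inl i) = i`,
  `e15 (inr (inl i)) = 4 + i`, `e15 (inr (inr i)) = 8 + i`.  Derivative of `z ↦ tw l (p1 z) (p2 z)` at `z` in the direction `v`: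
  `(fderiv ℝ (tw l) (p1 z) (p1 v)) (p2 z) + tw l (p1 z) (p2 v)` (`contDiffAt_tw`, `HasFDerivAt.clm_apply`).
* `smM_jac_T1`: `fderiv` of a smooth map on an open set.
* `tr_T1`: near `z` (`p1 ≠ 0` is open): `(jac (T1 l) y).submatrix e15 e15 = fromBlocks ..` (`jac_T1_block`), so with `DM_congr`,
  `thM_reindex`, `trace_cube_submatrix` and `thM_block` twice:
  `tr θ³ = tr (thM (jac ivn ∘ p1) ..)³ + tr (thM (twM l ∘ p1) ..)³ + tr (thM 1 ..)³`.  Left inverses: `hA z = (jac ivn (p1 z))⁻¹` (its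
  determinant is a unit because the block triangular matrix has a left inverse: or explicitly
  `‖x‖² • (1 - 2 rkp x)`, `rkp_mul`), `hD = fromBlocks (twM ..)ᵀ 0 0 1` (`twM_tr`).  `thM_pb` with `p = p1`, `tr_ivn_cube`, `tr_twM`,
  `pbF_trace`, `thM_one`.
-/

set_option autoImplicit false
set_option maxSynthPendingDepth 3
set_option linter.unusedSectionVars false

open Set MeasureTheory Matrix
open scoped ContDiff

namespace Pool.Agent.EXO.CH

/-- The numbering of the coordinates of `ℝ⁴ × ℝ⁴ × ℝ⁷`. -/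
def e15 : Fin 4 ⊕ (Fin 4 ⊕ Fin 7) ≃ Fin 15 :=
  (Equiv.sumCongr (Equiv.refl _) finSumFinEquiv).trans finSumFinEquiv

/-- The derivative of `x ↦ tw l x (p2 z)`. -/
noncomputable def jacS (l : ℝ) (z : En 15) : Matrix (Fin 4) (Fin 4) ℝ :=
  fun i j => fderiv ℝ (tw l) (p1 z) (bv j) (p2 z) i

private theorem ChTauB_p1 (w : En 15) (i : Fin 4) : p1 w i = w (e15 (Sum.inl i)) := rfl

private theorem ChTauB_p2 (w : En 15) (i : Fin 4) : p2 w i = w (e15 (Sum.inr (Sum.inl i))) := rfl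

private theorem ChTauB_p3 (w : En 15) (i : Fin 7) :
    p3 w i = w (e15 (Sum.inr (Sum.inr i))) := by
  refine congrArg w (Fin.ext ?_)
  show 8 + i.1 = 4 + (4 + i.1)
  omega

private theorem ChTauB_bv (s t : Fin 4 ⊕ (Fin 4 ⊕ Fin 7)) :
    (bv (e15 s) : En 15) (e15 t) = if t = s then 1 else 0 := by
  simp [bv]

private theorem ChTauB_p1bv (s : Fin 4 ⊕ (Fin 4 ⊕ Fin 7)) (i : Fin 4) :
    p1 (bv (e15 s)) i = if Sum.inl i = s then 1 else 0 := by
  rw [ChTauB_p1, ChTauB_bv]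

private theorem ChTauB_p2bv (s : Fin 4 ⊕ (Fin 4 ⊕ Fin 7)) (i : Fin 4) :
    p2 (bv (e15 s)) i = if Sum.inr (Sum.inl i) = s then 1 else 0 := by
  rw [ChTauB_p2, ChTauB_bv]

private theorem ChTauB_p3bv (s : Fin 4 ⊕ (Fin 4 ⊕ Fin 7)) (i : Fin 7) :
    p3 (bv (e15 s)) i = if Sum.inr (Sum.inr i) = s then 1 else 0 := by
  rw [ChTauB_p3, ChTauB_bv]

private theorem ChTauB_fd {l : ℝ} (hl : 0 < l) {z : En 15} (hz : p1 z ≠ 0) (v : En 15) :
    fderiv ℝ (T1 l) z v = j15 (fderiv ℝ (ivn : En 4 → En 4) (p1 z) (p1 v))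
      (tw l (p1 z) (p2 v) + fderiv ℝ (tw l) (p1 z) (p1 v) (p2 z)) (p3 v) := by
  have h1 : HasFDerivAt (ivn : En 4 → En 4) (fderiv ℝ (ivn : En 4 → En 4) (p1 z)) (p1L z) :=
    ((contDiffAt_ivn hz).differentiableAt (by simp)).hasFDerivAt
  have h2 : HasFDerivAt (tw l) (fderiv ℝ (tw l) (p1 z)) (p1L z) :=
    ((contDiffAt_tw hl hz).differentiableAt (by simp)).hasFDerivAt
  have h3 := h1.comp z p1L.hasFDerivAt
  have h4 := (h2.comp z p1L.hasFDerivAt).clm_apply p2L.hasFDerivAt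
  have h5 := j15L.hasFDerivAt.comp z (h3.prodMk (h4.prodMk p3L.hasFDerivAt))
  have h6 : fderiv ℝ (T1 l) z = _ := h5.fderiv
  rw [h6]
  rfl

theorem jac_T1_block {l : ℝ} (hl : 0 < l) {z : En 15} (hz : p1 z ≠ 0) :
    (jac (T1 l) z).submatrix e15 e15 =
      fromBlocks (jac (ivn : En 4 → En 4) (p1 z)) 0 (fromRows (jacS l z) 0)
        (fromBlocks (twM l (p1 z)) 0 0 1) := by
  have h0 : ∀ s t : Fin 4 ⊕ (Fin 4 ⊕ Fin 7), (jac (T1 l) z).submatrix e15 e15 s t =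
      (j15 (fderiv ℝ (ivn : En 4 → En 4) (p1 z) (p1 (bv (e15 t))))
      (tw l (p1 z) (p2 (bv (e15 t))) + fderiv ℝ (tw l) (p1 z) (p1 (bv (e15 t))) (p2 z))
      (p3 (bv (e15 t)))) (e15 s) := fun s t => by
    show fderiv ℝ (T1 l) z (bv (e15 t)) (e15 s) = _
    rw [ChTauB_fd hl hz]
  have a1 : ∀ (x y : En 4) (w : En 7) (i : Fin 4), (j15 x y w) (e15 (Sum.inl i)) = x i :=
    fun x y w i => by rw [← ChTauB_p1, p1_j15]
  have a2 : ∀ (x y : En 4) (w : En 7) (i : Fin 4),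
      (j15 x y w) (e15 (Sum.inr (Sum.inl i))) = y i :=
    fun x y w i => by rw [← ChTauB_p2, p2_j15]
  have a3 : ∀ (x y : En 4) (w : En 7) (i : Fin 7),
      (j15 x y w) (e15 (Sum.inr (Sum.inr i))) = w i :=
    fun x y w i => by rw [← ChTauB_p3, p3_j15]
  have b1 : ∀ j : Fin 4, p1 (bv (e15 (Sum.inl j))) = bv j := fun j => by
    ext i
    rw [ChTauB_p1bv]
    simp [bv]
  have b2 : ∀ j : Fin 4, p2 (bv (e15 (Sum.inl j))) = 0 := fun j => by
    ext i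
    rw [ChTauB_p2bv]
    simp
  have b3 : ∀ j : Fin 4, p3 (bv (e15 (Sum.inl j))) = 0 := fun j => by
    ext i
    rw [ChTauB_p3bv]
    simp
  have c1 : ∀ j : Fin 4 ⊕ Fin 7, p1 (bv (e15 (Sum.inr j))) = 0 := fun j => by
    ext i
    rw [ChTauB_p1bv]
    simp
  have c2 : ∀ j : Fin 4, p2 (bv (e15 (Sum.inr (Sum.inl j)))) = bv j := fun j => by
    ext i
    rw [ChTauB_p2bv]
    simp [bv]
  have c3 : ∀ j : Fin 4, p3 (bv (e15 (Sum.inr (Sum.inl j)))) = 0 := fun j => by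
    ext i
    rw [ChTauB_p3bv]
    simp
  have d2 : ∀ j : Fin 7, p2 (bv (e15 (Sum.inr (Sum.inr j)))) = 0 := fun j => by
    ext i
    rw [ChTauB_p2bv]
    simp
  have d3 : ∀ j : Fin 7, p3 (bv (e15 (Sum.inr (Sum.inr j)))) = bv j := fun j => by
    ext i
    rw [ChTauB_p3bv]
    simp [bv]
  ext s t
  rw [h0]
  rcases s with i | i | i <;> rcases t with j | j | j
  · rw [a1, b1, fromBlocks_apply₁₁]
    rfl
  · rw [a1, c1, map_zero, fromBlocks_apply₁₂]
    rfl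
  · rw [a1, c1, map_zero, fromBlocks_apply₁₂]
    rfl
  · rw [a2, b1, b2, map_zero, zero_add, fromBlocks_apply₂₁, fromRows_apply_inl]
    rfl
  · rw [a2, c1, c2, map_zero, _root_.zero_apply, add_zero, fromBlocks_apply₂₂,
      fromBlocks_apply₁₁]
    rfl
  · rw [a2, c1, d2, map_zero, map_zero, _root_.zero_apply, add_zero,
      fromBlocks_apply₂₂, fromBlocks_apply₁₂]
    rfl
  · rw [a3, b3, fromBlocks_apply₂₁, fromRows_apply_inr]
    rfl
  · rw [a3, c3, fromBlocks_apply₂₂, fromBlocks_apply₂₁]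
    rfl
  · rw [a3, d3, fromBlocks_apply₂₂, fromBlocks_apply₂₂]
    simp [bv, Matrix.one_apply]

private theorem ChTauB_open : IsOpen {z : En 15 | p1 z ≠ 0} :=
  isOpen_compl_singleton.preimage contDiff_p1.continuous

theorem smM_jac_T1 {l : ℝ} (hl : 0 < l) : SmM {z : En 15 | p1 z ≠ 0} (jac (T1 l)) := by
  intro i j
  have h1 : ContDiffOn ℝ ∞ (fderiv ℝ (T1 l)) {z : En 15 | p1 z ≠ 0} :=
    (contDiffOn_T1 hl).fderiv_of_isOpen ChTauB_open (by simp)
  exact ((EuclideanSpace.proj (𝕜 := ℝ) i).contDiff (n := ∞)).comp_contDiffOn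
    (h1.clm_apply contDiffOn_const)

private theorem ChTauB_expand {m : ℕ} (v : En m) : v = ∑ a, v a • bv a := by
  ext b
  simp [bv, Pi.single_apply]

/-- The chain rule for Jacobian matrices. -/
theorem jac_comp {m k r : ℕ} {F : En k → En r} {G : En m → En k} {z : En m}
    (hF : DifferentiableAt ℝ F (G z)) (hG : DifferentiableAt ℝ G z) :
    jac (fun y => F (G y)) z = jac F (G z) * jac G z := by
  ext i j
  have h1 : fderiv ℝ (fun y => F (G y)) z = (fderiv ℝ F (G z)).comp (fderiv ℝ G z) :=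
    fderiv_comp z hF hG
  show fderiv ℝ (fun y => F (G y)) z (bv j) i = _
  rw [h1, Matrix.mul_apply, ContinuousLinearMap.comp_apply]
  conv_lhs => rw [ChTauB_expand (fderiv ℝ G z (bv j)), map_sum]
  have h2 : ∀ f : Fin k → En r, (∑ a, f a) i = ∑ a, f a i := fun f =>
    map_sum (EuclideanSpace.proj (𝕜 := ℝ) i) f Finset.univ
  rw [h2]
  refine Finset.sum_congr rfl fun a _ => ?_
  rw [map_smul]
  show fderiv ℝ G z (bv j) a * fderiv ℝ F (G z) (bv a) i = _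
  rw [mul_comm]
  rfl

/-- The inverse of the Jacobian of `T1`. -/
theorem jac_T1i_mul {l : ℝ} (hl : 0 < l) {z : En 15} (hz : p1 z ≠ 0) :
    jac (T1i l) (T1 l z) * jac (T1 l) z = 1 := by
  have hz' : p1 (T1 l z) ≠ 0 := by
    rw [p1_T1]
    exact ivn_ne hz
  have h1 : DifferentiableAt ℝ (T1 l) z :=
    ((contDiffOn_T1 hl).contDiffAt (ChTauB_open.mem_nhds hz)).differentiableAt (by simp)
  have h2 : DifferentiableAt ℝ (T1i l) (T1 l z) :=
    ((contDiffOn_T1i hl).contDiffAt (ChTauB_open.mem_nhds hz')).differentiableAt (by simp)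
  rw [← jac_comp h2 h1]
  have h3 : (fun y => T1i l (T1 l y)) =ᶠ[nhds z] id := by
    filter_upwards [ChTauB_open.mem_nhds hz] with y hy
    exact T1i_T1 hl hy
  ext i j
  show fderiv ℝ (fun y => T1i l (T1 l y)) z (bv j) i = _
  rw [h3.fderiv_eq, fderiv_id]
  simp [bv, Matrix.one_apply]

private theorem ChTauB_cube (F : En 15 → En 4) (X : En 4 → Matrix (Fin 4) (Fin 4) (FA 4))
    (z : En 15) : trace (pbM F X z * pbM F X z * pbM F X z) =
      pbF F (fun y => trace (X y * X y * X y)) z := by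
  rw [pbF_trace, pbM_mul, pbM_mul]

private theorem ChTauB_inv {x : En 4} (hx : x ≠ 0) :
    (‖x‖ ^ 2 • (1 - (2 : ℝ) • rkp x)) * jac (ivn : En 4 → En 4) x = 1 := by
  have h0 : ‖x‖ ^ 2 ≠ 0 := pow_ne_zero _ (norm_ne_zero_iff.2 hx)
  have h1 : (1 - (2 : ℝ) • rkp x) * (1 - (2 : ℝ) • rkp x) = 1 := by
    simp only [sub_mul, mul_sub, one_mul, mul_one, Matrix.smul_mul, Matrix.mul_smul, rkp_mul hx]
    module
  rw [jac_ivn hx, Matrix.smul_mul, Matrix.mul_smul, h1, smul_smul, mul_inv_cancel₀ h0, one_smul]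

private theorem ChTauB_thM {m : ℕ} {b : Type} [Fintype b] (g g' h : En m → Matrix b b ℝ)
    {z : En m} (e : ∀ᶠ y in nhds z, g y = g' y) : thM g h z = thM g' h z := by
  have h1 : DM (fun y => (rM (g y) : Matrix b b (FA m))) z =
      DM (fun y => (rM (g' y) : Matrix b b (FA m))) z := by
    refine DM_congr ?_
    filter_upwards [e] with y hy
    rw [hy]
  unfold thM
  rw [h1]

private theorem ChTauB_ivn {z : En 15} (hz : p1 z ≠ 0) (hI : En 4 → Matrix (Fin 4) (Fin 4) ℝ)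
    (hh : hI (p1 z) * jac (ivn : En 4 → En 4) (p1 z) = 1) :
    trace (thM (fun y => jac (ivn : En 4 → En 4) (p1 y)) (fun y => hI (p1 y)) z *
      thM (fun y => jac (ivn : En 4 → En 4) (p1 y)) (fun y => hI (p1 y)) z *
      thM (fun y => jac (ivn : En 4 → En 4) (p1 y)) (fun y => hI (p1 y)) z) = 0 := by
  rw [thM_pb p1 (jac (ivn : En 4 → En 4)) hI contDiff_p1.contDiffAt
    (fun i j => smM_jac_ivn.diff isOpen_ne hz i j), ChTauB_cube]
  unfold pbF
  beta_reduce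
  rw [tr_ivn_cube hz hI hh, FAMap_zero]

private theorem ChTauB_tw {l : ℝ} (hl : 0 < l) {z : En 15} (hz : p1 z ≠ 0) :
    -(1 / 3 : ℂ) • trace (thM (fun y => twM l (p1 y)) (fun y => (twM l (p1 y))ᵀ) z *
      thM (fun y => twM l (p1 y)) (fun y => (twM l (p1 y))ᵀ) z *
      thM (fun y => twM l (p1 y)) (fun y => (twM l (p1 y))ᵀ) z) = pbF p1 (tau0 l) z := by
  rw [thM_pb p1 (twM l) (fun x => (twM l x)ᵀ) contDiff_p1.contDiffAt
    (fun i j => (smM_twM hl).diff isOpen_ne hz i j), ChTauB_cube, ← pbF_smul]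
  unfold pbF
  beta_reduce
  rw [tr_twM hl hz (fun x => (twM l x)ᵀ) (twM_tr hl (p1 z))]

private theorem ChTauB_D {l : ℝ} (hl : 0 < l) (z : En 15) :
    (fromBlocks (twM l (p1 z))ᵀ 0 0 1 : Matrix (Fin 4 ⊕ Fin 7) (Fin 4 ⊕ Fin 7) ℝ) *
      fromBlocks (twM l (p1 z)) 0 0 1 = 1 := by
  rw [fromBlocks_multiply, twM_tr hl]
  simp

theorem tr_T1 {l : ℝ} (hl : 0 < l) {z : En 15} (hz : p1 z ≠ 0)
    (h : En 15 → Matrix (Fin 15) (Fin 15) ℝ) (hh : h z * jac (T1 l) z = 1) :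
    -(1 / 3 : ℂ) • trace (thM (jac (T1 l)) h z * thM (jac (T1 l)) h z * thM (jac (T1 l)) h z) =
      pbF p1 (tau0 l) z := by
  have e1 := thM_reindex e15 (jac (T1 l)) h z
  have e2 := trace_cube_submatrix e15 (thM (jac (T1 l)) h z)
  have e3 : ∀ᶠ y in nhds z, (jac (T1 l) y).submatrix e15 e15 =
      fromBlocks (jac (ivn : En 4 → En 4) (p1 y)) 0 (fromRows (jacS l y) 0)
        (fromBlocks (twM l (p1 y)) 0 0 1) := by
    filter_upwards [ChTauB_open.mem_nhds hz] with y hy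
    exact jac_T1_block hl hy
  have e4 := ChTauB_thM _ _ (fun y => (h y).submatrix e15 e15) e3
  have e5 : (h z).submatrix e15 e15 * fromBlocks (jac (ivn : En 4 → En 4) (p1 z)) 0
      (fromRows (jacS l z) 0) (fromBlocks (twM l (p1 z)) 0 0 1) = 1 := by
    rw [← jac_T1_block hl hz, Matrix.submatrix_mul_equiv, hh]
    exact Matrix.submatrix_one_equiv e15
  have e6 := thM_block (fun y => jac (ivn : En 4 → En 4) (p1 y))
    (fun y => fromRows (jacS l y) 0)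
    (fun y => (fromBlocks (twM l (p1 y)) 0 0 1 : Matrix (Fin 4 ⊕ Fin 7) (Fin 4 ⊕ Fin 7) ℝ))
    (fun y => (h y).submatrix e15 e15)
    (fun y => ‖p1 y‖ ^ 2 • (1 - (2 : ℝ) • rkp (p1 y)))
    (fun y => (fromBlocks (twM l (p1 y))ᵀ 0 0 1 : Matrix (Fin 4 ⊕ Fin 7) (Fin 4 ⊕ Fin 7) ℝ))
    z e5 (ChTauB_inv hz) (ChTauB_D hl z)
  have e7 := thM_block (fun y => twM l (p1 y)) (fun _ => 0)
    (fun _ : En 15 => (1 : Matrix (Fin 7) (Fin 7) ℝ))
    (fun y => (fromBlocks (twM l (p1 y))ᵀ 0 0 1 : Matrix (Fin 4 ⊕ Fin 7) (Fin 4 ⊕ Fin 7) ℝ))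
    (fun y => (twM l (p1 y))ᵀ) (fun _ => 1) z (ChTauB_D hl z) (twM_tr hl (p1 z)) (one_mul _)
  rw [thM_one, mul_zero, trace_zero, add_zero] at e7
  have e8 := ChTauB_ivn hz (fun x => ‖x‖ ^ 2 • (1 - (2 : ℝ) • rkp x)) (ChTauB_inv hz)
  rw [← e2, ← e1, e4, e6, e8, zero_add, e7]
  exact ChTauB_tw hl hz

end Pool.Agent.EXO.CH
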