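import Mathlib
import Pool.Agent.EXO.ChSup
import Pool.Agent.EXO.ChFrD
import Pool.Agent.EXO.ChGau
import Pool.Agent.EXO.ChTauB

/-!
# EXO / ChRel: the relation of the Chern-Simons forms on `K` and `H₁`

PROOFS.
* `jacP_comp`: for `z` in the open set `W'`: `X.Ψ = X'.Ψ ∘ T` and `C.sc ∘ p3 = (C.sc ∘ p3) ∘ T` near `z`; chain rule
  (entries: `fderiv ℝ F (T z) (fderiv ℝ T z (bv j))`, `fderiv ℝ T z (bv j) = ∑ k, jac T z k j • bv k`).
  `jacL_comp`: `J = J' * G`, `h * G = 1` (`G` square): `(Jᵀ J)⁻¹ Jᵀ = (Gᵀ (J'ᵀ J') G)⁻¹ Gᵀ J'ᵀ = G⁻¹ (J'ᵀ J')⁻¹ J'ᵀ`; or: `h * L'` and `L`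
  are both left inverses of `J` which vanish on the orthogonal complement; the direct computation uses
  `Matrix.mul_inv_rev`, `Matrix.inv_eq_left_inv` and that `det G` is a unit.
* `cs_rel`: `frame_gauge` with `W' = {z ∈ dom gK C.O 20000 | p1 z ≠ 0}` (open), `T = T1 l`, `g = jac (T1 l)` (`smM_jac_T1`),
  `h z = jac (T1i l) (T1 l z)` (smooth: `contDiffOn_T1i`, `p1 (T1 l z) = ivn (p1 z) ≠ 0`), `h * g = 1` (`jac_T1i_mul`, and
  `g * h = 1` by `Matrix.mul_eq_one_comm`), `hJ`, `hL` from `jacP_comp`, `jacL_comp`, `WD.trK1'`; the last term is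
  `pbF p1 (tau0 l) z` by `tr_T1` (note `-(1/3) • x = -((1/3) • x)`).
* `cs_swap`: `frame_gauge` with `X = K`... precisely: `F = (W.swap.K.frame goodK)`, `F' = (W.K.frame goodK)`, `T = sw`
  (`W.swap.K.Ψ z = W.K.Ψ (sw z)` by `rfl`), `g = h =` the constant matrix `jac sw z` (of the linear involution `sw`); `DM (rM g) = 0`,
  so `thM g h = 0`, `lamG .. = 0` (identically) and `F.csF z = pbF sw F'.csF z`.  Then apply `pbF sw` (`pbF_comp`, `sw ∘ sw = id`,
  `FAMap_id`, `fderiv_id`).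
-/

set_option autoImplicit false
set_option maxSynthPendingDepth 3
set_option linter.unusedSectionVars false

open Set MeasureTheory Matrix
open scoped ContDiff

namespace Pool.Agent.EXO.CH

theorem chRel_sum_bv {m : ℕ} (v : En m) : v = ∑ k, v k • (bv k : En m) := by
  ext i
  simp [bv, Finset.sum_apply, Pi.single_apply]

theorem chRel_fderiv {E : Type} [NormedAddCommGroup E] [NormedSpace ℝ E] {m k : ℕ}
    {F : En m → E} {F' : En k → E} {T : En m → En k} {z : En m}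
    (hF : DifferentiableAt ℝ F' (T z)) (hT : DifferentiableAt ℝ T z)
    (h : F =ᶠ[nhds z] fun y => F' (T y)) (j : Fin m) :
    fderiv ℝ F z (bv j) = ∑ i, jac T z i j • fderiv ℝ F' (T z) (bv i) := by
  rw [h.fderiv_eq]
  have h1 : fderiv ℝ (fun y => F' (T y)) z = (fderiv ℝ F' (T z)).comp (fderiv ℝ T z) :=
    fderiv_comp z hF hT
  rw [h1, ContinuousLinearMap.comp_apply]
  conv_lhs => rw [chRel_sum_bv (fderiv ℝ T z (bv j))]
  rw [map_sum]
  exact Finset.sum_congr rfl fun i _ => by rw [map_smul]; rfl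

section

variable {N : Set (En 7)} {C : Collar N} {M : ℕ} {V : Set (En M)} {g g' : En 15 → ℝ}

theorem chRel_sc (C : Collar N) {z : En 15} (hz : p3 z ∈ C.O) :
    DifferentiableAt ℝ (fun z => C.sc (p3 z)) z := by
  have h1 : DifferentiableAt ℝ C.sc (p3 z) :=
    (C.smooth_sc.contDiffAt (C.openO.mem_nhds hz)).differentiableAt (by simp)
  exact DifferentiableAt.comp z h1 (contDiff_p3.differentiable (by simp) z)

theorem jacP_comp (X : VPiece C V g) (X' : VPiece C V g') (hg : GoodG g) (hg' : GoodG g')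
    {W' : Set (En 15)} (hW' : IsOpen W') {T : En 15 → En 15} (hT : ContDiffOn ℝ ∞ T W')
    (h1 : ∀ z ∈ W', z ∈ dom g C.O 20000) (h2 : ∀ z ∈ W', T z ∈ dom g' C.O 20000)
    (h3 : ∀ z ∈ W', X.Ψ z = X'.Ψ (T z)) (h4 : ∀ z ∈ W', C.sc (p3 (T z)) = C.sc (p3 z))
    {z : En 15} (hz : z ∈ W') : jacP X z = jacP X' (T z) * jac T z := by
  have hTz : DifferentiableAt ℝ T z := (hT.contDiffAt (hW'.mem_nhds hz)).differentiableAt (by simp)
  have hΨ : DifferentiableAt ℝ X'.Ψ (T z) :=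
    (VPiece.diff_Ψ X' hg' (h2 z hz)).differentiableAt (by simp)
  refine Matrix.ext fun i j => ?_
  rw [Matrix.mul_apply]
  rcases i with i | i
  · change fderiv ℝ X.Ψ z (bv j) i = ∑ k, fderiv ℝ X'.Ψ (T z) (bv k) i * jac T z k j
    rw [chRel_fderiv hΨ hTz (Filter.eventually_of_mem (hW'.mem_nhds hz) h3) j]
    simp only [WithLp.ofLp_sum, Finset.sum_apply, WithLp.ofLp_smul, Pi.smul_apply, smul_eq_mul]
    exact Finset.sum_congr rfl fun k _ => mul_comm _ _
  · change fderiv ℝ (fun z => C.sc (p3 z)) z (bv j) =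
      ∑ k, fderiv ℝ (fun z => C.sc (p3 z)) (T z) (bv k) * jac T z k j
    rw [chRel_fderiv (F' := fun z => C.sc (p3 z)) (chRel_sc C (h2 z hz).2) hTz
      (Filter.eventually_of_mem (hW'.mem_nhds hz) fun y hy => (h4 y hy).symm) j]
    exact Finset.sum_congr rfl fun k _ => mul_comm _ _

theorem jacL_comp (X : VPiece C V g) (X' : VPiece C V g') {z z' : En 15}
    {G h : Matrix (Fin 15) (Fin 15) ℝ} (hG : h * G = 1) (hJ : jacP X z = jacP X' z' * G)
    (hL : jacL X' z' * jacP X' z' = 1) : jacL X z = h * jacL X' z' := by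
  have hG' : G * h = 1 := mul_eq_one_comm.1 hG
  set J' := jacP X' z' with hJ'
  set A : Matrix (Fin 15) (Fin 15) ℝ := J'ᵀ * J' with hA
  have hL' : jacL X' z' = A⁻¹ * J'ᵀ := rfl
  have hAA : A⁻¹ * A = 1 := by
    rw [hL', Matrix.mul_assoc] at hL
    exact hL
  have hLz : jacL X z = ((J' * G)ᵀ * (J' * G))⁻¹ * (J' * G)ᵀ := by
    unfold jacL
    rw [hJ]
  have hGt : Gᵀ * hᵀ = 1 := by rw [← transpose_mul, hG, transpose_one]
  have hht : hᵀ * Gᵀ = 1 := by rw [← transpose_mul, hG', transpose_one]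
  have h1 : (J' * G)ᵀ * (J' * G) = Gᵀ * A * G := by
    rw [transpose_mul, hA]
    simp only [Matrix.mul_assoc]
  have h2 : (Gᵀ * A * G)⁻¹ = h * A⁻¹ * hᵀ := by
    refine Matrix.inv_eq_left_inv ?_
    calc h * A⁻¹ * hᵀ * (Gᵀ * A * G) = h * A⁻¹ * (hᵀ * Gᵀ) * A * G := by
          simp only [Matrix.mul_assoc]
      _ = h * (A⁻¹ * A) * G := by rw [hht]; simp only [Matrix.mul_assoc, Matrix.one_mul]
      _ = 1 := by rw [hAA, Matrix.mul_one, hG]
  rw [hLz, h1, h2, transpose_mul, hL']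
  calc h * A⁻¹ * hᵀ * (Gᵀ * J'ᵀ) = h * A⁻¹ * (hᵀ * Gᵀ) * J'ᵀ := by simp only [Matrix.mul_assoc]
    _ = h * (A⁻¹ * J'ᵀ) := by rw [hht, Matrix.mul_one, Matrix.mul_assoc]

end


variable {N : OrGeo 6 7} {C : Collar N.carrier} {l : ℝ} (W : WD N C l)

/-- The Chern-Simons form on the piece `K`. -/
noncomputable def WD.csK : En 15 → FA 15 := (VPiece.frame W.K goodK).csF

/-- The Chern-Simons form on the piece `H₁`. -/
noncomputable def WD.csH : En 15 → FA 15 := (VPiece.frame W.H1 good1).csF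

theorem chRel_open : IsOpen {z | z ∈ dom gK C.O 20000 ∧ p1 z ≠ 0} :=
  (isOpen_dom C goodK 20000).inter
    (isOpen_ne.preimage contDiff_p1.continuous)

theorem WD.cs_rel (hl : 0 < l) : ∃ lam : En 15 → FA 15,
    ContDiffOn ℝ ∞ lam {z | z ∈ dom gK C.O 20000 ∧ p1 z ≠ 0} ∧ (∀ z, (lam z).IsDeg 2) ∧
    ∀ z ∈ dom gK C.O 20000, p1 z ≠ 0 →
      W.csK z = pbF (T1 l) W.csH z + dF lam z + pbF p1 (tau0 l) z := by
  set W' : Set (En 15) := {z | z ∈ dom gK C.O 20000 ∧ p1 z ≠ 0} with hW'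
  have hWo : IsOpen W' := chRel_open
  have hT : ContDiffOn ℝ ∞ (T1 l) W' := (contDiffOn_T1 hl).mono fun z hz => hz.2
  have hTm : ∀ z ∈ W', T1 l z ∈ dom g1 C.O 20000 := fun z hz => T1_mem hl C.O hz.1 hz.2
  set h : En 15 → Matrix (Fin 15) (Fin 15) ℝ := fun z => jac (T1i l) (T1 l z) with hh
  have hhg : ∀ z ∈ W', h z * jac (T1 l) z = 1 := fun z hz => jac_T1i_mul hl hz.2
  have hgh : ∀ z ∈ W', jac (T1 l) z * h z = 1 := fun z hz => mul_eq_one_comm.1 (hhg z hz)
  have hgs : SmM W' (jac (T1 l)) := fun i j => ((smM_jac_T1 hl) i j).mono fun z hz => hz.2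
  have hhs : SmM W' h := by
    intro i j
    have ho : IsOpen {z : En 15 | p1 z ≠ 0} := isOpen_ne.preimage contDiff_p1.continuous
    have h1 : ContDiffOn ℝ ∞ (fun z => jac (T1i l) z i j) {z : En 15 | p1 z ≠ 0} := by
      have h2 : ContDiffOn ℝ ∞ (fderiv ℝ (T1i l)) {z : En 15 | p1 z ≠ 0} :=
        (contDiffOn_T1i hl).fderiv_of_isOpen ho (by simp)
      have h3 : ContDiffOn ℝ ∞ (fun z => fderiv ℝ (T1i l) z (bv j)) {z : En 15 | p1 z ≠ 0} :=
        h2.clm_apply contDiffOn_const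
      exact (contDiff_piLp_apply (𝕜 := ℝ) (p := 2)).comp_contDiffOn h3
    refine h1.comp hT fun z hz => ?_
    change p1 (T1 l z) ≠ 0
    rw [p1_T1]
    exact ivn_ne hz.2
  have hJ : ∀ z ∈ W', jacP W.K z = jacP W.H1 (T1 l z) * jac (T1 l) z := fun z hz =>
    jacP_comp W.K W.H1 goodK good1 hWo hT (fun z hz => hz.1) hTm
      (fun z hz => W.trK1' hl hz.1 hz.2) (fun z _ => by rw [p3_T1]) hz
  have hL : ∀ z ∈ W', jacL W.K z = h z * jacL W.H1 (T1 l z) := fun z hz =>
    jacL_comp W.K W.H1 (hhg z hz) (hJ z hz) (VPiece.LJ W.H1 good1 (hTm z hz))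
  refine ⟨lamG (T1 l) (VPiece.frame W.H1 good1) (jac (T1 l)) h, ?_, ?_, ?_⟩
  · exact contDiffOn_lamG _ (isOpen_dom C good1 20000) hWo hT hTm hgs hhs
  · exact deg_lamG _ _ _ _
  · intro z hz hz0
    have key := frame_gauge (VPiece.frame W.K goodK) (VPiece.frame W.H1 good1)
      (isOpen_dom C good1 20000) hWo (fun z hz => hz.1) hT hTm hgs hhs hgh hJ hL
      (z := z) ⟨hz, hz0⟩
    have h3 := tr_T1 hl hz0 h (hhg z ⟨hz, hz0⟩)
    unfold WD.csK WD.csH
    rw [key, ← h3, neg_smul]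
    abel

theorem WD.cs_swap {z : En 15} (hz : z ∈ dom gK C.O 20000) : pbF sw W.swap.csK z = W.csK z := by
  set U : Set (En 15) := dom gK C.O 20000 with hU
  have hUo : IsOpen U := isOpen_dom C goodK 20000
  have hT : ContDiffOn ℝ ∞ sw U := contDiff_sw.contDiffOn
  have hTm : ∀ z ∈ U, sw z ∈ dom gK C.O 20000 := fun z hz =>
    ⟨by rw [gK_sw]; exact hz.1, by rw [p3_sw]; exact hz.2⟩
  set G : Matrix (Fin 15) (Fin 15) ℝ := jac sw 0 with hG
  have hGz : ∀ z, jac sw z = G := by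
    intro z
    refine Matrix.ext fun i j => ?_
    change fderiv ℝ sw z (bv j) i = fderiv ℝ sw 0 (bv j) i
    rw [fderiv_sw, fderiv_sw]
  have hGG : G * G = 1 := by
    have h1 : jac (fun y => sw (sw y)) 0 = jac sw (sw 0) * jac sw 0 :=
      jac_comp (contDiff_sw.differentiable (by simp) _) (contDiff_sw.differentiable (by simp) _)
    rw [hGz, hGz] at h1
    rw [← h1]
    refine Matrix.ext fun i j => ?_
    change fderiv ℝ (fun y => sw (sw y)) 0 (bv j) i = _
    have h2 : (fun y : En 15 => sw (sw y)) = id := funext fun y => sw_sw y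
    rw [h2, fderiv_id]
    change (bv j : En 15) i = _
    simp [bv, Matrix.one_apply]
  have hgs : SmM U (fun _ : En 15 => G) := fun i j => contDiffOn_const
  have hJ : ∀ z ∈ U, jacP W.swap.K z = jacP W.K (sw z) * G := fun z hz => by
    rw [← hGz z]
    exact jacP_comp W.swap.K W.K goodK goodK hUo hT (fun z hz => hz) hTm (fun z _ => rfl)
      (fun z _ => by rw [p3_sw]) hz
  have hL : ∀ z ∈ U, jacL W.swap.K z = G * jacL W.K (sw z) := fun z hz =>
    jacL_comp W.swap.K W.K hGG (hJ z hz) (VPiece.LJ W.K goodK (hTm z hz))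
  have hθ : ∀ z : En 15, thM (fun _ : En 15 => G) (fun _ : En 15 => G) z = 0 := by
    intro z
    unfold thM
    rw [DM_const, Matrix.mul_zero]
  have hlam : lamG sw (VPiece.frame W.K goodK) (fun _ : En 15 => G) (fun _ : En 15 => G)
      = fun _ => 0 := by
    funext z
    unfold lamG
    rw [hθ, Matrix.mul_zero, trace_zero]
  have key : ∀ z ∈ U, W.swap.csK z = pbF sw W.csK z := by
    intro z hz
    have h1 : (VPiece.frame W.swap.K goodK).csF z = pbF sw (VPiece.frame W.K goodK).csF z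
        + dF (lamG sw (VPiece.frame W.K goodK) (fun _ : En 15 => G) (fun _ : En 15 => G)) z
        - (1 / 3 : ℂ) • trace (thM (fun _ : En 15 => G) (fun _ : En 15 => G) z *
          thM (fun _ : En 15 => G) (fun _ : En 15 => G) z *
          thM (fun _ : En 15 => G) (fun _ : En 15 => G) z) :=
      frame_gauge (VPiece.frame W.swap.K goodK) (VPiece.frame W.K goodK)
      (isOpen_dom C goodK 20000) hUo (fun z hz => hz) hT hTm hgs hgs (fun z _ => hGG) hJ hL hz
    unfold WD.csK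
    rw [h1, hlam, hθ, dF_const, Matrix.mul_zero, trace_zero, smul_zero, add_zero, sub_zero]
  have h2 : pbF sw W.swap.csK z = pbF sw (pbF sw W.csK) z :=
    pbF_congr Filter.EventuallyEq.rfl (key (sw z) (hTm z hz))
  rw [h2, pbF_comp (contDiff_sw.differentiable (by simp) _)
    (contDiff_sw.differentiable (by simp) _)]
  have h3 : (sw ∘ sw : En 15 → En 15) = id := funext fun y => sw_sw y
  rw [h3]
  unfold pbF
  rw [fderiv_id]
  exact FAMap_id _

end Pool.Agent.EXO.CH
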