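import Mathlib
import Pool.Agent.EXO.ChRel
import Pool.Agent.EXO.ChCl
import Pool.Agent.EXO.ChExt
import Pool.Agent.EXO.ChConA

/-!
# EXO / ChStK: the correction term from the piece `K`

Notation: `D_K = dom gK C.O 20000`, `φ₀ = 1 - ph p1 - ph p2`; `W.alK = K.Ψ^* (sF 2)`, `D.gaK = K.Ψ^* γ`, `D.wK = K.Ψ^* w`,
`W.csK` the Chern-Simons form of `K`: `dF csK = alK` on `D_K` (`sF_piece`).

PROOF of `step_K`: `u z = rF (φ₀ z) * csK z * gaK z` (smooth on `D_K`, degree `0 + 3 + 10`).  `u z = 0` for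
`z ∈ dom gK N 20000`, `z ∉ ZB N 2`: if `gaK z ≠ 0` then `K.Ψ^* α' z ≠ 0` (`pbF_mul`) and `gK z ≤ 1/3` (`supK`), and `box_K`.
`exists_ext` gives `E`.  `pbF K.Ψ (dF E) z = dF (pbF K.Ψ E) z = dF (pbF C.R u) z = pbF C.R (dF u) z` (`dF_pbΨ`,
`dF_congr` on the open set `D_K`, `dF_R`); at `C.R z ∈ D_K`: `dF u = (dF φ₀ * csK + φ₀ * alK) * gaK` (`dF_mul_odd` for
`(rF φ₀ * csK) * gaK` with `dF gaK = 0` (`dF_pb_ga`), `dF_rF_mul`).  For `v ∉ K.O`: `E = 0` near `v` (the complement of `K'`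
is open), `dF_zero_of`.
-/

set_option autoImplicit false
set_option maxSynthPendingDepth 3
set_option linter.unusedSectionVars false

open Set MeasureTheory Matrix
open scoped ContDiff

namespace Pool.Agent.EXO.CH

variable {N : OrGeo 6 7} {C : Collar N.carrier} {l : ℝ}

/-- The form `K.Ψ^* (sF 2)`. -/
noncomputable def WD.alK (W : WD N C l) : En 15 → FA 15 := pbF W.K.Ψ (W.V.sF 2)

/-- The form `K.Ψ^* γ`. -/
noncomputable def FD.gaK {W : WD N C l} (D : FD W) : En 15 → FA 15 := pbF W.K.Ψ D.ga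

/-- The form `K.Ψ^* w`. -/
noncomputable def FD.wK {W : WD N C l} (D : FD W) : En 15 → FA 15 := pbF W.K.Ψ D.w

/-- The derivative of an extended form on the piece. -/
theorem pbΨ_dF_ext {M : ℕ} {V : Set (En M)} {N' : Set (En 7)} {C' : Collar N'} {g : En 15 → ℝ}
    (X : VPiece C' V g) (hg : GoodG g) {E : En M → FA M} (hE : ContDiff ℝ ∞ E)
    {u : En 15 → FA 15} (hu : ContDiffOn ℝ ∞ u (dom g C'.O 20000))
    (h : ∀ z ∈ dom g C'.O 20000, pbF X.Ψ E z = pbF C'.R u z) {z : En 15}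
    (hz : z ∈ dom g C'.O 20000) : pbF X.Ψ (dF E) z = pbF C'.R (dF u) z := by
  rw [← VPiece.dF_pbΨ X hg hE hz, ← dF_R C' hg hu hz]
  apply dF_congr
  filter_upwards [(isOpen_dom C' hg 20000).mem_nhds hz] with y hy
  exact h y hy

/-- An extended form vanishes near the points outside the piece. -/
theorem dF_ext_zero {M : ℕ} {K' O : Set (En M)} (hK : IsCompact K') (hKO : K' ⊆ O)
    {E : En M → FA M} (hE : ∀ v, v ∉ K' → E v = 0) {v : En M} (hv : v ∉ O) : dF E v = 0 := by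
  apply dF_zero_of
  filter_upwards [hK.isClosed.isOpen_compl.mem_nhds (show v ∈ K'ᶜ from fun h => hv (hKO h))]
    with y hy
  exact hE y hy

variable {W : WD N C l} (D : FD W)

private theorem ChStK_ph1 : ContDiff ℝ ∞ (fun z : En 15 => 1 - ph (p1 z) - ph (p2 z)) :=
  (contDiff_const.sub (contDiff_ph.comp contDiff_p1)).sub (contDiff_ph.comp contDiff_p2)

theorem step_K (hl : 0 < l) : ∃ E : En W.M → FA W.M, ContDiff ℝ ∞ E ∧
    (∀ z ∈ dom gK C.O 20000, pbF W.K.Ψ (dF E) z = pbF C.R (fun z =>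
      (dF (fun y : En 15 => rF (1 - ph (p1 y) - ph (p2 y))) z * W.csK z
        + rF (1 - ph (p1 z) - ph (p2 z)) * W.alK z) * D.gaK z) z) ∧
    ∀ v ∈ W.V.carrier, v ∉ W.K.O → FAMap (W.V.P v) (dF E v) = 0 := by
  have hopen : IsOpen (dom gK C.O 20000) := isOpen_dom C goodK 20000
  have hr : ContDiffOn ℝ ∞ (fun z : En 15 => (rF (1 - ph (p1 z) - ph (p2 z)) : FA 15))
      (dom gK C.O 20000) := contDiffOn_rF ChStK_ph1.contDiffOn
  have hcs : ContDiffOn ℝ ∞ W.csK (dom gK C.O 20000) :=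
    Frame.contDiffOn_csF hopen (VPiece.frame W.K goodK)
  have hga : ContDiffOn ℝ ∞ D.gaK (dom gK C.O 20000) :=
    VPiece.contDiffOn_pbΨ W.K goodK D.contDiff_ga
  have hrc : ContDiffOn ℝ ∞ (fun z : En 15 => (rF (1 - ph (p1 z) - ph (p2 z)) : FA 15) * W.csK z)
      (dom gK C.O 20000) := contDiffOn_mulFA hr hcs
  obtain ⟨u, hu⟩ : ∃ u : En 15 → FA 15, u = fun z =>
      (rF (1 - ph (p1 z) - ph (p2 z)) : FA 15) * W.csK z * D.gaK z := ⟨_, rfl⟩
  have hus : ContDiffOn ℝ ∞ u (dom gK C.O 20000) := by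
    rw [hu]
    exact contDiffOn_mulFA hrc hga
  have hrcd : ∀ z, ((rF (1 - ph (p1 z) - ph (p2 z)) : FA 15) * W.csK z).IsDeg 3 := by
    intro z
    have h1 := isDeg_mul (deg_rF (m := 15) (1 - ph (p1 z) - ph (p2 z)))
      (Frame.deg_csF (VPiece.frame W.K goodK) z)
    rwa [zero_add] at h1
  have hud : ∀ z ∈ dom gK C.O 20000, (u z).IsDeg 13 := by
    intro z _
    rw [hu]
    exact isDeg_mul (hrcd z) (deg_pbF _ _ _ (D.deg_ga _))
  have hu0 : ∀ z ∈ dom gK N.carrier 20000, z ∉ ZB N.carrier 2 → u z = 0 := by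
    intro z hz hzZ
    have hz' := dom_sub C gK 20000 hz
    rw [hu]
    by_cases ha : pbF W.K.Ψ D.al z = 0
    · have h1 : D.gaK z = 0 := by
        have h2 : D.gaK z = pbF W.K.Ψ D.al z * pbF W.K.Ψ D.w z := pbF_mul _ _ _ _
        rw [h2, ha, zero_mul]
      show _ * _ * D.gaK z = 0
      rw [h1, mul_zero]
    · have h1 := FD.supK D hl hz' ha
      by_cases hb : 1 - ph (p1 z) - ph (p2 z) = 0
      · show rF (1 - ph (p1 z) - ph (p2 z)) * _ * _ = (0 : FA 15)
        rw [hb]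
        have h3 : (rF 0 : FA 15) = 0 := by
          rw [rF_eq, Complex.ofReal_zero, zero_smul]
        rw [h3, zero_mul, zero_mul]
      · have h2 := box_K h1 hb
        exact absurd ⟨h2.1, h2.2, hz.2⟩ hzZ
  obtain ⟨E, hE1, -, hE3, K', hK1, hK2, hK3⟩ := exists_ext W.K goodK
    (isCompact_ZB N.compact 2) (ZB_sub N.carrier (by norm_num)).1 u hus hu0 hud
  refine ⟨E, hE1, ?_, ?_⟩
  · intro z hz
    rw [pbΨ_dF_ext W.K goodK hE1 hus hE3 hz]
    have hRz : C.R z ∈ dom gK C.O 20000 := dom_sub C gK 20000 (R_mem C goodK hz)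
    have key : ∀ z' ∈ dom gK C.O 20000, dF u z' =
        (dF (fun y : En 15 => rF (1 - ph (p1 y) - ph (p2 y))) z' * W.csK z'
        + rF (1 - ph (p1 z') - ph (p2 z')) * W.alK z') * D.gaK z' := by
      intro z' hz'
      have hn := hopen.mem_nhds hz'
      have d1 : DifferentiableAt ℝ (fun z : En 15 => (rF (1 - ph (p1 z) - ph (p2 z)) : FA 15) *
          W.csK z) z' := (hrc.contDiffAt hn).differentiableAt (by simp)
      have d2 : DifferentiableAt ℝ D.gaK z' := (hga.contDiffAt hn).differentiableAt (by simp)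
      have d3 : DifferentiableAt ℝ W.csK z' := (hcs.contDiffAt hn).differentiableAt (by simp)
      have d4 : DifferentiableAt ℝ (fun z : En 15 => 1 - ph (p1 z) - ph (p2 z)) z' :=
        ChStK_ph1.contDiffAt.differentiableAt (by simp)
      have h4 : dF D.gaK z' = 0 := FD.dF_pb_ga D W.K goodK hz'
      have h5 : dF W.csK z' = W.alK z' := (VPiece.sF_piece W.V.toGeo W.K goodK hz').symm
      rw [hu, dF_mul_odd (by decide : Odd 3) d1 d2 (hrcd z'), dF_rF_mul d4 d3, h4, mul_zero,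
        sub_zero, h5]
    exact congrArg (FAMap (fderiv ℝ C.R z)) (key (C.R z) hRz)
  · intro v _ hvO
    rw [dF_ext_zero hK1 hK2 hK3 hvO, FAMap_zero]

end Pool.Agent.EXO.CH
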