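import Mathlib
import Pool.Agent.EXO.ChStK

/-!
# EXO / ChStA: the correction term from the piece `H₁`, part 1

Notation: `D_1 = dom g1 C.O 20000`; `W.csH` is the Chern-Simons form of `H₁`: `dF csH = H1.Ψ^* (sF 2)` on `D_1`.

PROOFS.
* `smooth_uA`: `contDiff_phi`, `contDiffOn_csF`, `contDiffOn_pbΨ`, `contDiffOn_mulFA`, `contDiffOn_rF`.
* `step_A0`: `exists_ext` for the piece `H1`, `u = uA`, `Z = ZB N 1` (`sup1`, `box_1`: if `uA z ≠ 0` then `phi (p1 z) ≠ 0` and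
  `pbF H1.Ψ al z ≠ 0` (`pbF_mul`)), degree `0 + 3 + 10`.
* `step_Ab`: `z = H1.Φ v ∈ dom g1 N 20000`, `v = H1.Ψ z`; `p1 z = 0`, since otherwise `v = K.Ψ (T1i l z) ∈ K.O` (`gK_T1i`,
  `W.trK1`, `T1_T1i`).  Near `z`: `phi (p1 (C.R z')) = 1` (`phi_one`), so `pbF H1.Ψ E = pbF C.R (csH * pbF H1.Ψ ga)` near `z`, and
  `pbF H1.Ψ (dF E) z = pbF C.R (dF (csH * pbF H1.Ψ ga)) z = pbF C.R (pbF H1.Ψ (sF 2) * pbF H1.Ψ ga) z =
  pbF H1.Ψ (fun v => sF 2 v * ga v) z` (`dF_R`, `dF_mul_odd`, `sF_piece`, `dF_pb_ga`, `pbF_mul`, `pbF_R`); `tan_of_pb`.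
-/

set_option autoImplicit false
set_option maxSynthPendingDepth 3
set_option linter.unusedSectionVars false

open Set MeasureTheory Matrix
open scoped ContDiff

namespace Pool.Agent.EXO.CH

variable {N : OrGeo 6 7} {C : Collar N.carrier} {l : ℝ} {W : WD N C l}

/-- The form on the piece `H₁` to be extended. -/
noncomputable def FD.uA (D : FD W) (z : En 15) : FA 15 :=
  rF (phi (p1 z)) * W.csH z * pbF W.H1.Ψ D.ga z

variable (D : FD W)

theorem smooth_uA : ContDiffOn ℝ ∞ D.uA (dom g1 C.O 20000) := by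
  unfold FD.uA
  exact contDiffOn_mulFA (contDiffOn_mulFA
    (contDiffOn_rF (contDiff_phi.comp contDiff_p1).contDiffOn)
    (Frame.contDiffOn_csF (isOpen_dom C good1 _) _))
    (VPiece.contDiffOn_pbΨ W.H1 good1 D.contDiff_ga)

theorem step_A0 (hl : 0 < l) : ∃ E : En W.M → FA W.M, ContDiff ℝ ∞ E ∧
    (∀ z ∈ dom g1 C.O 20000, pbF W.H1.Ψ E z = pbF C.R D.uA z) ∧
    ∃ K' : Set (En W.M), IsCompact K' ∧ K' ⊆ W.H1.O ∧ ∀ v, v ∉ K' → E v = 0 := by
  have h0 : ∀ z ∈ dom g1 N.carrier 20000, z ∉ ZB N.carrier 1 → D.uA z = 0 := by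
    intro z hz hZ
    by_contra hne
    have hz' : z ∈ dom g1 C.O 20000 := dom_sub C g1 20000 hz
    have h1 : phi (p1 z) ≠ 0 := by
      intro h
      apply hne
      unfold FD.uA
      rw [h, rF_smul]
      simp
    have h2 : pbF W.H1.Ψ D.al z ≠ 0 := by
      intro h
      apply hne
      have h3 : pbF W.H1.Ψ D.ga z = pbF W.H1.Ψ D.al z * pbF W.H1.Ψ D.w z :=
        pbF_mul W.H1.Ψ D.al D.w z
      unfold FD.uA
      rw [h3, h, zero_mul, mul_zero]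
    have h4 := D.sup1 hl hz' h2
    obtain ⟨h5, h6⟩ := box_1 h4 h1
    exact hZ ⟨h5, h6, hz.2⟩
  have hd : ∀ z ∈ dom g1 C.O 20000, (D.uA z).IsDeg (0 + 3 + 10) := fun z _ =>
    isDeg_mul (isDeg_mul (deg_rF _) (Frame.deg_csF _ _)) (deg_pbF _ _ _ (D.deg_ga _))
  obtain ⟨E, hE1, -, hE2, hE3⟩ := exists_ext W.H1 good1 (isCompact_ZB N.compact 1)
    (ZB_sub N.carrier (by norm_num)).2.1 D.uA (smooth_uA D) h0 hd
  exact ⟨E, hE1, hE2, hE3⟩

theorem step_Ab (hl : 0 < l) {E : En W.M → FA W.M} (hE : ContDiff ℝ ∞ E)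
    (h1 : ∀ z ∈ dom g1 C.O 20000, pbF W.H1.Ψ E z = pbF C.R D.uA z) {v : En W.M}
    (hv : v ∈ W.V.carrier) (hv1 : v ∈ W.H1.O) (hvK : v ∉ W.K.O) :
    FAMap (W.V.P v) (dF E v) = FAMap (W.V.P v) (W.V.sF 2 v * D.ga v) := by
  have hzN : W.H1.Φ v ∈ dom g1 N.carrier 20000 := W.H1.mapsΦ v ⟨hv, hv1⟩
  have hvz : W.H1.Ψ (W.H1.Φ v) = v := W.H1.right v ⟨hv, hv1⟩
  refine VPiece.tan_of_pb (E' := fun v => W.V.sF 2 v * D.ga v) W.V.toGeo W.H1 good1 hv hv1 ?_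
  generalize W.H1.Φ v = z at hzN hvz
  have hz : z ∈ dom g1 C.O 20000 := dom_sub C g1 20000 hzN
  -- `p1 z = 0`
  have hp : p1 z = 0 := by
    by_contra hp
    have h2 : p1 (T1i l z) ≠ 0 := by
      rw [p1_T1i]
      exact ivn_ne hp
    have h3 : T1i l z ∈ dom gK C.O 20000 := by
      refine ⟨?_, ?_⟩
      · rw [gK_T1i hl hp]
        exact hz.1
      · rw [p3_T1i]
        exact hz.2
    have h4 := W.trK1' hl h3 h2
    rw [T1_T1i hl hp, hvz] at h4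
    apply hvK
    rw [← h4]
    exact (W.K.maps _ h3).2
  have hopen : IsOpen (dom g1 C.O 20000) := isOpen_dom C good1 _
  have hRz : C.R z ∈ dom g1 C.O 20000 := dom_sub C g1 20000 (R_mem C good1 hz)
  -- the form without the cut-off
  set u2 : En 15 → FA 15 := fun z => W.csH z * pbF W.H1.Ψ D.ga z with hu2
  have su2 : ContDiffOn ℝ ∞ u2 (dom g1 C.O 20000) :=
    contDiffOn_mulFA (Frame.contDiffOn_csF hopen _)
      (VPiece.contDiffOn_pbΨ W.H1 good1 D.contDiff_ga)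
  have e1 : pbF W.H1.Ψ (dF E) z = dF (pbF W.H1.Ψ E) z := (VPiece.dF_pbΨ W.H1 good1 hE hz).symm
  have e2 : pbF W.H1.Ψ E =ᶠ[nhds z] pbF C.R u2 := by
    have c1 : Continuous fun z : En 15 => ‖p1 z‖ := contDiff_p1.continuous.norm
    have h2 : ∀ᶠ z' in nhds z, ‖p1 z'‖ < 1 / 2 := by
      have h3 : ‖p1 z‖ < 1 / 2 := by rw [hp, norm_zero]; norm_num
      exact c1.continuousAt.eventually_lt continuousAt_const h3
    filter_upwards [h2, hopen.mem_nhds hz] with z' h3 h4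
    rw [h1 z' h4]
    refine pbF_congr Filter.EventuallyEq.rfl ?_
    have h5 : phi (p1 (C.R z')) = 1 := by
      rw [Collar.p1_R]
      exact phi_one h3.le
    unfold FD.uA
    rw [h5, rF_smul]
    simp [hu2]
  have e3 : dF u2 (C.R z) = pbF W.H1.Ψ (fun v => W.V.sF 2 v * D.ga v) (C.R z) := by
    have d1 : DifferentiableAt ℝ W.csH (C.R z) :=
      ((Frame.contDiffOn_csF hopen _).contDiffAt (hopen.mem_nhds hRz)).differentiableAt (by simp)
    have d2 : DifferentiableAt ℝ (pbF W.H1.Ψ D.ga) (C.R z) :=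
      ((VPiece.contDiffOn_pbΨ W.H1 good1 D.contDiff_ga).contDiffAt
        (hopen.mem_nhds hRz)).differentiableAt (by simp)
    rw [hu2, dF_mul_odd (j := 3) (by decide) d1 d2 (Frame.deg_csF _ _),
      D.dF_pb_ga W.H1 good1 hRz, mul_zero, sub_zero, pbF_mul,
      VPiece.sF_piece W.V.toGeo W.H1 good1 hRz]
    rfl
  rw [e1, dF_congr e2, dF_R C good1 su2 hz, ← VPiece.pbF_R W.H1 good1 _ hz]
  exact pbF_congr Filter.EventuallyEq.rfl e3

end Pool.Agent.EXO.CH
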