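import Mathlib
import Pool.Agent.EXO.ChStA

/-!
# EXO / ChStB: the correction term from the piece `H₁`, part 2

PROOFS.
* `step_Aa`, case `p1 z ≠ 0` (an open condition, invariant under `C.R`): near `z` `K.Ψ = H1.Ψ ∘ T1` (`trK1'`), so
  `pbF K.Ψ E = pbF T1 (pbF H1.Ψ E) = pbF T1 (pbF C.R uA) = pbF (C.R ∘ T1) uA = pbF (T1 ∘ C.R) uA = pbF C.R (pbF T1 uA)` (`pbF_comp`,
  `T1_R`, `pbF_congr`), and `pbF T1 uA = rF (ph p1) * pbF T1 csH * gaK` (`pbF_mul`, `pbF_rF`, `p1_T1`, `phi_ivn`, `pbF_comp`).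
  Take `dF`: `dF_pbΨ` on the left; on the right `dF_pbF` for `C.R`, `dF_mul_odd`, `dF_rF_mul`, `dF_pb_ga` and
  `dF (pbF T1 csH) = pbF T1 (dF csH) = pbF T1 (pbF H1.Ψ (sF 2)) = alK` (`dF_pbF`, `sF_piece`, `pbF_comp`).
  Case `‖p1 z‖ < 1`: near `z`, `pbF K.Ψ E = 0`: at points with `p1 = 0`, `K.Ψ z' ∉ H1.O` (`notK1'`), so `E = 0` there; at
  points with `0 < ‖p1‖ < 1` by the formula above and `ph_zero`.  So the left side is `0`; on the right side
  `rF (ph (p1 y)) = 0` near `C.R z`, so both terms vanish (`dF_zero_of`).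
* `step_A`: `step_A0`, `step_Aa`, `step_Ab`, `dF_ext_zero`.
-/

set_option autoImplicit false
set_option maxSynthPendingDepth 3
set_option linter.unusedSectionVars false

open Set MeasureTheory Matrix
open scoped ContDiff

namespace Pool.Agent.EXO.CH

variable {N : OrGeo 6 7} {C : Collar N.carrier} {l : ℝ} {W : WD N C l} (D : FD W)

/-- The open set of the points of the domain with `p1 ≠ 0`. -/
private def cstbU (C : Collar N.carrier) : Set (En 15) :=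
  {z | z ∈ dom gK C.O 20000 ∧ p1 z ≠ 0}

private theorem cstb_open : IsOpen (cstbU C) :=
  (isOpen_dom C goodK 20000).inter (isOpen_ne.preimage contDiff_p1.continuous)

private theorem cstb_R {z : En 15} (hz : z ∈ dom gK C.O 20000) :
    C.R z ∈ dom gK C.O 20000 := dom_sub C gK 20000 (R_mem C goodK hz)

private theorem cstb_RU {z : En 15} (hz : z ∈ cstbU C) : C.R z ∈ cstbU C :=
  ⟨cstb_R hz.1, by rw [Collar.p1_R]; exact hz.2⟩

private theorem cstb_two : (2 : WithTop ℕ∞) ≤ ∞ := WithTop.coe_le_coe.mpr (le_top : (2 : ℕ∞) ≤ ⊤)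

private theorem cstb_diffR {g : En 15 → ℝ} (hg : GoodG g) {z : En 15}
    (hz : z ∈ dom g C.O 20000) : ContDiffAt ℝ ∞ C.R z :=
  (contDiffOn_R C g 20000).contDiffAt ((isOpen_dom C hg 20000).mem_nhds hz)

private theorem cstb_diffT (hl : 0 < l) {z : En 15} (hz : p1 z ≠ 0) : ContDiffAt ℝ ∞ (T1 l) z :=
  (contDiffOn_T1 hl).contDiffAt ((isOpen_ne.preimage contDiff_p1.continuous).mem_nhds hz)

private theorem cstb_ev (hl : 0 < l) {z : En 15} (hz : z ∈ cstbU C) :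
    W.K.Ψ =ᶠ[nhds z] (W.H1.Ψ ∘ T1 l) := by
  filter_upwards [cstb_open.mem_nhds hz] with y hy
  exact W.trK1' hl hy.1 hy.2

/-- The pull back by `K.Ψ` as a pull back by `T1`. -/
private theorem cstb_pb (hl : 0 < l) (E : En W.M → FA W.M) {z : En 15} (hz : z ∈ cstbU C) :
    pbF W.K.Ψ E z = pbF (T1 l) (pbF W.H1.Ψ E) z := by
  have h1 : DifferentiableAt ℝ W.H1.Ψ (T1 l z) :=
    (VPiece.diff_Ψ W.H1 good1 (T1_mem hl C.O hz.1 hz.2)).differentiableAt (by simp)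
  have h2 : DifferentiableAt ℝ (T1 l) z := (cstb_diffT hl hz.2).differentiableAt (by simp)
  rw [pbF_comp h1 h2]
  exact pbF_congr (cstb_ev hl hz) rfl

/-- The form on the piece `K`. -/
private noncomputable def cstbu (D : FD W) (z : En 15) : FA 15 :=
  rF (ph (p1 z)) * pbF (T1 l) W.csH z * D.gaK z

private theorem cstb_T1uA (hl : 0 < l) {z : En 15} (hz : z ∈ cstbU C) :
    pbF (T1 l) D.uA z = cstbu D z := by
  have h1 : pbF (T1 l) D.uA z =
      pbF (T1 l) (fun y => rF (phi (p1 y))) z * pbF (T1 l) W.csH z *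
        pbF (T1 l) (pbF W.H1.Ψ D.ga) z := by
    rw [← pbF_mul, ← pbF_mul]
    rfl
  rw [h1, pbF_rF, p1_T1, phi_ivn hz.2, ← cstb_pb hl D.ga hz]
  rfl

private theorem cstb_formula (hl : 0 < l) {E : En W.M → FA W.M}
    (h1 : ∀ z ∈ dom g1 C.O 20000, pbF W.H1.Ψ E z = pbF C.R D.uA z) {z : En 15}
    (hz : z ∈ cstbU C) : pbF W.K.Ψ E z = pbF C.R (cstbu D) z := by
  have hT : T1 l z ∈ dom g1 C.O 20000 := T1_mem hl C.O hz.1 hz.2
  have e1 : pbF (T1 l) (pbF W.H1.Ψ E) z = pbF (T1 l) (pbF C.R D.uA) z :=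
    pbF_congr Filter.EventuallyEq.rfl (h1 _ hT)
  have e2 : pbF (T1 l) (pbF C.R D.uA) z = pbF (C.R ∘ T1 l) D.uA z :=
    pbF_comp ((cstb_diffR good1 hT).differentiableAt (by simp))
      ((cstb_diffT hl hz.2).differentiableAt (by simp))
  have e3 : (C.R ∘ T1 l : En 15 → En 15) = T1 l ∘ C.R := funext fun y => (T1_R C l y).symm
  have e4 : pbF C.R (pbF (T1 l) D.uA) z = pbF (T1 l ∘ C.R) D.uA z :=
    pbF_comp ((cstb_diffT hl (cstb_RU hz).2).differentiableAt (by simp))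
      ((cstb_diffR goodK hz.1).differentiableAt (by simp))
  have e5 : pbF C.R (pbF (T1 l) D.uA) z = pbF C.R (cstbu D) z :=
    pbF_congr Filter.EventuallyEq.rfl (cstb_T1uA D hl (cstb_RU hz))
  rw [cstb_pb hl E hz, e1, e2, e3, ← e4, e5]

private theorem cstb_csH : ContDiffOn ℝ ∞ W.csH (dom g1 C.O 20000) :=
  Frame.contDiffOn_csF (isOpen_dom C good1 20000) _

private theorem cstb_pcs (hl : 0 < l) : ContDiffOn ℝ ∞ (pbF (T1 l) W.csH) (cstbU C) :=
  contDiffOn_pbF cstb_open ((contDiffOn_T1 hl).mono fun _ hz => hz.2)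
    (fun _ hz => T1_mem hl C.O hz.1 hz.2) cstb_csH

private theorem cstb_diffat {u : En 15 → FA 15} {z : En 15} (hu : ContDiffOn ℝ ∞ u (cstbU C))
    (hz : z ∈ cstbU C) : DifferentiableAt ℝ u z :=
  (hu.contDiffAt (cstb_open.mem_nhds hz)).differentiableAt (by simp)

private theorem cstb_f : ContDiff ℝ ∞ (fun y : En 15 => ph (p1 y)) :=
  contDiff_ph.comp contDiff_p1

private theorem cstb_ga : ContDiffOn ℝ ∞ D.gaK (cstbU C) :=
  (VPiece.contDiffOn_pbΨ W.K goodK D.contDiff_ga).mono fun _ hz => hz.1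

private theorem cstb_v (hl : 0 < l) :
    ContDiffOn ℝ ∞ (fun z => rF (ph (p1 z)) * pbF (T1 l) W.csH z) (cstbU C) :=
  contDiffOn_mulFA (contDiffOn_rF cstb_f.contDiffOn) (cstb_pcs hl)

private theorem cstb_u (hl : 0 < l) : ContDiffOn ℝ ∞ (cstbu D) (cstbU C) :=
  contDiffOn_mulFA (cstb_v hl) (cstb_ga D)

private theorem cstb_du (hl : 0 < l) {z : En 15} (hz : z ∈ cstbU C) :
    dF (cstbu D) z = (dF (fun y : En 15 => rF (ph (p1 y))) z * pbF (T1 l) W.csH z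
        + rF (ph (p1 z)) * W.alK z) * D.gaK z := by
  have hT : T1 l z ∈ dom g1 C.O 20000 := T1_mem hl C.O hz.1 hz.2
  have hdeg : (rF (ph (p1 z)) * pbF (T1 l) W.csH z).IsDeg (0 + 3) :=
    isDeg_mul (deg_rF _) (deg_pbF _ _ _ (Frame.deg_csF _ _))
  have e1 : dF (cstbu D) z = dF (fun y => rF (ph (p1 y)) * pbF (T1 l) W.csH y) z * D.gaK z -
      rF (ph (p1 z)) * pbF (T1 l) W.csH z * dF D.gaK z :=
    dF_mul_odd (j := 0 + 3) (by decide) (cstb_diffat (cstb_v hl) hz) (cstb_diffat (cstb_ga D) hz)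
      hdeg
  have e2 : dF D.gaK z = 0 := D.dF_pb_ga W.K goodK hz.1
  have e3 : dF (fun y => rF (ph (p1 y)) * pbF (T1 l) W.csH y) z =
      dF (fun y => (rF (ph (p1 y)) : FA 15)) z * pbF (T1 l) W.csH z
        + rF (ph (p1 z)) * dF (pbF (T1 l) W.csH) z :=
    dF_rF_mul (cstb_f.differentiable (by simp) z) (cstb_diffat (cstb_pcs hl) hz)
  have e4 : dF (pbF (T1 l) W.csH) z = pbF (T1 l) (dF W.csH) z :=
    dF_pbF ((cstb_diffT hl hz.2).of_le cstb_two)
      ((cstb_csH.contDiffAt ((isOpen_dom C good1 20000).mem_nhds hT)).differentiableAt (by simp))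
  have e5 : pbF (T1 l) (dF W.csH) z = pbF (T1 l) (pbF W.H1.Ψ (W.V.sF 2)) z :=
    pbF_congr Filter.EventuallyEq.rfl (VPiece.sF_piece W.V.toGeo W.H1 good1 hT).symm
  rw [e1, e2, e3, e4, e5, ← cstb_pb hl (W.V.sF 2) hz, mul_zero, sub_zero]
  rfl

theorem step_Aa (hl : 0 < l) {E : En W.M → FA W.M} (hE : ContDiff ℝ ∞ E)
    (h1 : ∀ z ∈ dom g1 C.O 20000, pbF W.H1.Ψ E z = pbF C.R D.uA z)
    (h2 : ∀ v, v ∉ W.H1.O → E v = 0) {z : En 15} (hz : z ∈ dom gK C.O 20000) :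
    pbF W.K.Ψ (dF E) z = pbF C.R (fun z =>
      (dF (fun y : En 15 => rF (ph (p1 y))) z * pbF (T1 l) W.csH z
        + rF (ph (p1 z)) * W.alK z) * D.gaK z) z := by
  rw [← VPiece.dF_pbΨ W.K goodK hE hz]
  by_cases hp : p1 z = 0
  · have hU : IsOpen (dom gK C.O 20000 ∩ {z | ‖p1 z‖ < 1}) :=
      (isOpen_dom C goodK 20000).inter (isOpen_lt contDiff_p1.continuous.norm continuous_const)
    have hzero : ∀ y ∈ dom gK C.O 20000 ∩ {z | ‖p1 z‖ < 1}, pbF W.K.Ψ E y = 0 := by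
      rintro y ⟨hy, hy1⟩
      by_cases hy0 : p1 y = 0
      · have h3 : E (W.K.Ψ y) = 0 := h2 _ (W.notK1' hy hy0)
        unfold pbF
        rw [h3, FAMap_zero]
      · have h3 : ‖p1 y‖ < 1 := hy1
        have h4 : cstbu D (C.R y) = 0 := by
          unfold cstbu
          rw [Collar.p1_R, ph_zero h3.le, rF_zero, zero_mul, zero_mul]
        rw [cstb_formula D hl h1 ⟨hy, hy0⟩]
        unfold pbF
        rw [h4, FAMap_zero]
    have hl0 : dF (pbF W.K.Ψ E) z = 0 := by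
      refine dF_zero_of ?_
      filter_upwards [hU.mem_nhds ⟨hz, show ‖p1 z‖ < 1 by rw [hp, norm_zero]; norm_num⟩] with y hy
      exact hzero y hy
    have hr1 : dF (fun y : En 15 => (rF (ph (p1 y)) : FA 15)) (C.R z) = 0 := by
      refine dF_zero_of ?_
      have ho : IsOpen {y : En 15 | ‖p1 y‖ < 1} :=
        isOpen_lt contDiff_p1.continuous.norm continuous_const
      have hm : C.R z ∈ {y : En 15 | ‖p1 y‖ < 1} := by
        change ‖p1 (C.R z)‖ < 1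
        rw [Collar.p1_R, hp, norm_zero]
        norm_num
      filter_upwards [ho.mem_nhds hm] with y hy
      have hy' : ‖p1 y‖ < 1 := hy
      rw [ph_zero hy'.le, rF_zero]
    have hr2 : (rF (ph (p1 (C.R z))) : FA 15) = 0 := by
      rw [Collar.p1_R, hp, ph_zero (by rw [norm_zero]; norm_num), rF_zero]
    rw [hl0]
    change 0 = FAMap (fderiv ℝ C.R z) ((dF (fun y : En 15 => (rF (ph (p1 y)) : FA 15)) (C.R z) *
      pbF (T1 l) W.csH (C.R z) + rF (ph (p1 (C.R z))) * W.alK (C.R z)) * D.gaK (C.R z))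
    rw [hr1, hr2, zero_mul, zero_mul, add_zero, zero_mul, FAMap_zero]
  · have hzU : z ∈ cstbU C := ⟨hz, hp⟩
    have e1 : dF (pbF W.K.Ψ E) z = dF (pbF C.R (cstbu D)) z := by
      refine dF_congr ?_
      filter_upwards [cstb_open.mem_nhds hzU] with y hy
      exact cstb_formula D hl h1 hy
    have e2 : dF (pbF C.R (cstbu D)) z = pbF C.R (dF (cstbu D)) z :=
      dF_pbF ((cstb_diffR goodK hz).of_le cstb_two) (cstb_diffat (cstb_u D hl) (cstb_RU hzU))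
    rw [e1, e2]
    exact pbF_congr Filter.EventuallyEq.rfl (cstb_du D hl (cstb_RU hzU))

theorem step_A (hl : 0 < l) : ∃ E : En W.M → FA W.M, ContDiff ℝ ∞ E ∧
    (∀ z ∈ dom gK C.O 20000, pbF W.K.Ψ (dF E) z = pbF C.R (fun z =>
      (dF (fun y : En 15 => rF (ph (p1 y))) z * pbF (T1 l) W.csH z
        + rF (ph (p1 z)) * W.alK z) * D.gaK z) z) ∧
    (∀ v ∈ W.V.carrier, v ∈ W.H1.O → v ∉ W.K.O →
      FAMap (W.V.P v) (dF E v) = FAMap (W.V.P v) (W.V.sF 2 v * D.ga v)) ∧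
    ∀ v ∈ W.V.carrier, v ∉ W.H1.O → FAMap (W.V.P v) (dF E v) = 0 := by
  obtain ⟨E, hE, h1, K', hK, hKO, hK0⟩ := step_A0 D hl
  refine ⟨E, hE, fun z hz => step_Aa D hl hE h1 (fun v hv => hK0 v fun h => hv (hKO h)) hz,
    fun v hv hv1 hvK => step_Ab D hl hE h1 hv hv1 hvK, fun v _ hv1 => ?_⟩
  rw [dF_ext_zero hK hKO hK0 hv1, FAMap_zero]

end Pool.Agent.EXO.CH
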