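import Mathlib
import Pool.Agent.EXO.ChStK

/-!
# EXO / ChStC: removal of the exact term `dφ ∧ dλ`

PROOF.  `u z = dF (rF (ph (p1 ·))) z * lam z * gaK z` for `p1 z ≠ 0`, `u z = 0` for `p1 z = 0`.  For `‖p1 z‖ < 1` the first
factor vanishes (`ph_zero`, `dF_zero_of`), so `u` is smooth on `D_K = dom gK C.O 20000`: near points with `p1 z ≠ 0` a product, near
the others zero.  Degree `1 + 2 + 10`.
`u z = 0` for `z ∈ dom gK N 20000`, `z ∉ ZB N 2`: if `u z ≠ 0` then `1 ≤ ‖p1 z‖ ≤ 2` (`ph` is locally constant elsewhere: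
`ph_zero`, `ph_one`), `gK z ≤ 1/3` (`supK`), so `‖p2 z‖ ≤ 1` (`box_Y`).
`exists_ext`, `pbΨ_dF_ext`: `pbF K.Ψ (dF E) z = pbF C.R (dF u) z`; at points with `p1 ≠ 0`:
`dF (dφ * lam * gaK) = - dφ * dlam * gaK` (`dF_mul_odd` for `dφ * (lam * gaK)`, `dF_dF`, `dF_mul_even`, `dF_pb_ga`), and at points
with `‖p1‖ < 1` both sides vanish.  Outside `K.O`: `dF_ext_zero`.
-/

set_option autoImplicit false
set_option maxSynthPendingDepth 3
set_option linter.unusedSectionVars false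

open Set MeasureTheory Matrix
open scoped ContDiff

namespace Pool.Agent.EXO.CH

variable {N : OrGeo 6 7} {C : Collar N.carrier} {l : ℝ} {W : WD N C l} (D : FD W)

private theorem stc_smP : ContDiff ℝ ∞ fun y : En 15 => (rF (ph (p1 y)) : FA 15) :=
  contDiff_rF.comp (contDiff_ph.comp contDiff_p1)

private theorem stc_lt {z : En 15} (h : ‖p1 z‖ < 1) :
    ∀ᶠ y in nhds z, ‖p1 y‖ < 1 :=
  (isOpen_lt contDiff_p1.continuous.norm continuous_const).mem_nhds h

private theorem stc_gt {z : En 15} (h : 2 < ‖p1 z‖) :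
    ∀ᶠ y in nhds z, 2 < ‖p1 y‖ :=
  (isOpen_lt continuous_const contDiff_p1.continuous.norm).mem_nhds h

private theorem stc_z0 {z : En 15} (h : ‖p1 z‖ < 1) :
    dF (fun y : En 15 => (rF (ph (p1 y)) : FA 15)) z = 0 := by
  refine dF_zero_of ?_
  filter_upwards [stc_lt h] with y hy
  rw [ph_zero hy.le, rF_zero]

private theorem stc_z1 {z : En 15} (h : 2 < ‖p1 z‖) :
    dF (fun y : En 15 => (rF (ph (p1 y)) : FA 15)) z = 0 := by
  have h1 : (fun y : En 15 => (rF (ph (p1 y)) : FA 15)) =ᶠ[nhds z] fun _ => (1 : FA 15) := by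
    filter_upwards [stc_gt h] with y hy
    rw [ph_one hy.le, rF_one]
  rw [dF_congr h1, dF_const]

theorem step_C (hl : 0 < l) {lam : En 15 → FA 15}
    (h1 : ContDiffOn ℝ ∞ lam {z | z ∈ dom gK C.O 20000 ∧ p1 z ≠ 0}) (h2 : ∀ z, (lam z).IsDeg 2) :
    ∃ E : En W.M → FA W.M, ContDiff ℝ ∞ E ∧
    (∀ z ∈ dom gK C.O 20000, pbF W.K.Ψ (dF E) z = pbF C.R (fun z =>
      -(dF (fun y : En 15 => rF (ph (p1 y))) z * dF lam z * D.gaK z)) z) ∧
    ∀ v ∈ W.V.carrier, v ∉ W.K.O → FAMap (W.V.P v) (dF E v) = 0 := by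
  set P : En 15 → FA 15 := fun y => rF (ph (p1 y)) with hP
  have hPs : ContDiff ℝ ∞ P := stc_smP
  have hdP : ContDiff ℝ ∞ (dF P) := contDiff_dF hPs
  have hDo : IsOpen (dom gK C.O 20000) := isOpen_dom C goodK 20000
  have hDo1 : IsOpen {z | z ∈ dom gK C.O 20000 ∧ p1 z ≠ 0} :=
    hDo.inter (isOpen_ne_fun contDiff_p1.continuous continuous_const)
  have hga : ContDiffOn ℝ ∞ D.gaK (dom gK C.O 20000) :=
    VPiece.contDiffOn_pbΨ W.K goodK D.contDiff_ga
  have hlg : ContDiffOn ℝ ∞ (fun z => lam z * D.gaK z) {z | z ∈ dom gK C.O 20000 ∧ p1 z ≠ 0} :=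
    contDiffOn_mulFA h1 (hga.mono fun z hz => hz.1)
  set u : En 15 → FA 15 := fun z => dF P z * (lam z * D.gaK z) with hu
  have hu1 : ContDiffOn ℝ ∞ u {z | z ∈ dom gK C.O 20000 ∧ p1 z ≠ 0} :=
    contDiffOn_mulFA hdP.contDiffOn hlg
  have hu0 : ∀ z, ‖p1 z‖ < 1 → ∀ᶠ y in nhds z, u y = 0 := by
    intro z hz
    filter_upwards [stc_lt hz] with y hy
    rw [hu]
    change dF P y * (lam y * D.gaK y) = 0
    rw [stc_z0 hy, zero_mul]
  have hus : ContDiffOn ℝ ∞ u (dom gK C.O 20000) := by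
    intro z hz
    by_cases h : p1 z = 0
    · have h3 : ‖p1 z‖ < 1 := by rw [h, norm_zero]; exact one_pos
      have h4 : u =ᶠ[nhds z] fun _ => (0 : FA 15) := hu0 z h3
      exact (contDiffAt_const.congr_of_eventuallyEq h4).contDiffWithinAt
    · exact (hu1.contDiffAt (hDo1.mem_nhds ⟨hz, h⟩)).contDiffWithinAt
  have hdegP : ∀ z, (dF P z).IsDeg (0 + 1) := fun z =>
    deg_dF (Filter.Eventually.of_forall fun y => deg_rF _)
  have hdegg : ∀ z, (D.gaK z).IsDeg 10 := fun z => deg_pbF _ _ _ (D.deg_ga _)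
  have hd : ∀ z ∈ dom gK C.O 20000, (u z).IsDeg (0 + 1 + (2 + 10)) := fun z _ =>
    isDeg_mul (hdegP z) (isDeg_mul (h2 z) (hdegg z))
  have h0 : ∀ z ∈ dom gK N.carrier 20000, z ∉ ZB N.carrier 2 → u z = 0 := by
    intro z hz hzZ
    by_contra hne
    have hP1 : dF P z ≠ 0 := fun h => hne (by
      change dF P z * (lam z * D.gaK z) = 0
      rw [h, zero_mul])
    have hg1 : D.gaK z ≠ 0 := fun h => hne (by
      change dF P z * (lam z * D.gaK z) = 0
      rw [h, mul_zero, mul_zero])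
    have hal : pbF W.K.Ψ D.al z ≠ 0 := by
      intro h
      apply hg1
      change pbF W.K.Ψ (fun v => D.al v * D.w v) z = 0
      rw [pbF_mul, h, zero_mul]
    have hzO : z ∈ dom gK C.O 20000 := by
      refine ⟨hz.1, ?_⟩
      have := (C.io_mem _ hz.2 0 ⟨by norm_num, by norm_num⟩).1
      rwa [C.io_zero _ hz.2] at this
    have h3 := D.supK hl hzO hal
    have h4 : 1 ≤ ‖p1 z‖ := by
      by_contra h
      exact hP1 (stc_z0 (not_le.1 h))
    have h5 : ‖p1 z‖ ≤ 2 := by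
      by_contra h
      exact hP1 (stc_z1 (not_le.1 h))
    have h6 := box_Y h3 (le_trans (by norm_num) h4)
    exact hzZ ⟨h5, le_trans h6 (by norm_num), hz.2⟩
  obtain ⟨E, hE, hEd, hEf, K', hK', hKO, hE0⟩ := exists_ext W.K goodK
    (isCompact_ZB N.compact 2) (ZB_sub N.carrier (by norm_num)).1 u hus h0 hd
  refine ⟨E, hE, ?_, ?_⟩
  · intro z hz
    rw [pbΨ_dF_ext W.K goodK hE hus hEf hz]
    refine pbF_congr (Filter.EventuallyEq.refl _ _) ?_
    have hz' : C.R z ∈ dom gK C.O 20000 := by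
      have h3 := R_mem C goodK hz
      refine ⟨h3.1, ?_⟩
      have := (C.io_mem _ h3.2 0 ⟨by norm_num, by norm_num⟩).1
      rwa [C.io_zero _ h3.2] at this
    change dF u (C.R z) = -(dF P (C.R z) * dF lam (C.R z) * D.gaK (C.R z))
    generalize C.R z = z' at hz'
    by_cases h : p1 z' = 0
    · have h3 : ‖p1 z'‖ < 1 := by rw [h, norm_zero]; exact one_pos
      rw [dF_zero_of (hu0 z' h3), stc_z0 h3, zero_mul, zero_mul, neg_zero]
    · have hn := hDo1.mem_nhds (show z' ∈ {z | z ∈ dom gK C.O 20000 ∧ p1 z ≠ 0} from ⟨hz', h⟩)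
      have d1 : DifferentiableAt ℝ (dF P) z' := hdP.contDiffAt.differentiableAt (by simp)
      have d2 : DifferentiableAt ℝ (fun z => lam z * D.gaK z) z' :=
        (hlg.contDiffAt hn).differentiableAt (by simp)
      have d3 : DifferentiableAt ℝ lam z' := (h1.contDiffAt hn).differentiableAt (by simp)
      have d4 : DifferentiableAt ℝ D.gaK z' :=
        (hga.contDiffAt (hDo.mem_nhds hz')).differentiableAt (by simp)
      have e1 : dF u z' = dF (dF P) z' * (lam z' * D.gaK z')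
          - dF P z' * dF (fun z => lam z * D.gaK z) z' :=
        dF_mul_odd (j := 0 + 1) (by decide) d1 d2 (hdegP z')
      have e2 : dF (dF P) z' = 0 := dF_dF (hPs.contDiffAt.of_le (WithTop.coe_le_coe.2 le_top))
      have e3 : dF (fun z => lam z * D.gaK z) z' = dF lam z' * D.gaK z' + lam z' * dF D.gaK z' :=
        dF_mul_even (j := 2) (by decide) d3 d4 (h2 z')
      have e4 : dF D.gaK z' = 0 := D.dF_pb_ga W.K goodK hz'
      rw [e1, e2, e3, e4, zero_mul, mul_zero, add_zero, zero_sub, mul_assoc]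
  · intro v _ hv
    rw [dF_ext_zero hK' hKO hE0 hv, FAMap_zero]

end Pool.Agent.EXO.CH
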