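import Mathlib
import Pool.Agent.EXO.FmLam

/-!
# EXO / FmPar: parametric integrals over `[0,1]` on open sets, the primitive in one coordinate

`prim i α f x = (x i - α) • ∫ s in 0..1, f (x with x_i replaced by α + s (x_i - α))`, the integral of
`f` over the segment from `x_i = α` to `x`.
-/

set_option autoImplicit false
set_option maxSynthPendingDepth 3

namespace Pool.Agent.EXO

open scoped ContDiff Topology
open Set Filter MeasureTheory

universe u

section param

variable {Z : Type} [NormedAddCommGroup Z] [NormedSpace ℝ Z]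

theorem hasFDerivAt_paramOn {F : Type u} [NormedAddCommGroup F] [NormedSpace ℝ F]
    [CompleteSpace F] {G : Z × ℝ → F} {U : Set (Z × ℝ)} (hU : IsOpen U) (hG : ContDiffOn ℝ 1 G U)
    {z₀ : Z} (h : ∀ t ∈ Icc (0 : ℝ) 1, (z₀, t) ∈ U) :
    HasFDerivAt (fun z => ∫ t in (0 : ℝ)..1, G (z, t))
      (∫ t in (0 : ℝ)..1, (fderiv ℝ G (z₀, t)).comp (ContinuousLinearMap.inl ℝ Z ℝ)) z₀ := by
  have hc : ContinuousOn (fun p : Z × ℝ => (fderiv ℝ G p).comp (ContinuousLinearMap.inl ℝ Z ℝ))
      U := (hG.continuousOn_fderiv_of_isOpen hU le_rfl).clm_comp continuousOn_const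
  have hslice : ∀ z : Z, (∀ t ∈ Icc (0 : ℝ) 1, (z, t) ∈ U) →
      ContinuousOn (fun t : ℝ => G (z, t)) (Icc 0 1) := fun z hz =>
    hG.continuousOn.comp (Continuous.prodMk_right z).continuousOn hz
  have hslice' : ContinuousOn (fun t : ℝ =>
      (fderiv ℝ G (z₀, t)).comp (ContinuousLinearMap.inl ℝ Z ℝ)) (Icc 0 1) :=
    hc.comp (Continuous.prodMk_right z₀).continuousOn h
  obtain ⟨C, hC⟩ : ∃ C : ℝ, ∀ t ∈ Icc (0 : ℝ) 1,
      ‖(fderiv ℝ G (z₀, t)).comp (ContinuousLinearMap.inl ℝ Z ℝ)‖ ≤ C :=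
    (isCompact_Icc (a := (0 : ℝ)) (b := 1)).exists_bound_of_continuousOn hslice'
  have hopen : IsOpen (U ∩ {p : Z × ℝ |
      ‖(fderiv ℝ G p).comp (ContinuousLinearMap.inl ℝ Z ℝ)‖ < C + 1}) :=
    hc.norm.isOpen_inter_preimage hU isOpen_Iio
  obtain ⟨a, b, ha, hb, hza, hIb, hab⟩ := generalized_tube_lemma (isCompact_singleton (x := z₀))
    (isCompact_Icc (a := (0 : ℝ)) (b := 1)) hopen (by
      rintro ⟨z, t⟩ ⟨hz, ht⟩
      rw [mem_singleton_iff] at hz
      subst hz
      exact ⟨h t ht, lt_of_le_of_lt (hC t ht) (lt_add_one C)⟩)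
  refine intervalIntegral.hasFDerivAt_integral_of_dominated_of_fderiv_le
    (F := fun z t => G (z, t))
    (F' := fun z t => (fderiv ℝ G (z, t)).comp (ContinuousLinearMap.inl ℝ Z ℝ))
    (bound := fun _ => C + 1)
    (ha.mem_nhds (hza rfl)) ?_ ?_ ?_ ?_ ?_ ?_
  · filter_upwards [ha.mem_nhds (hza rfl)] with z hz
    rw [uIoc_of_le zero_le_one]
    refine ((hslice z fun t ht => (hab (mk_mem_prod hz (hIb ht))).1).mono
      Ioc_subset_Icc_self).aestronglyMeasurable measurableSet_Ioc
  · refine ContinuousOn.intervalIntegrable ?_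
    rw [uIcc_of_le zero_le_one]
    exact hslice z₀ h
  · rw [uIoc_of_le zero_le_one]
    exact (hslice'.mono Ioc_subset_Icc_self).aestronglyMeasurable measurableSet_Ioc
  · refine Eventually.of_forall fun t ht z hz => ?_
    rw [uIoc_of_le zero_le_one] at ht
    exact le_of_lt (hab (mk_mem_prod hz (hIb (Ioc_subset_Icc_self ht)))).2
  · exact continuous_const.intervalIntegrable _ _
  · refine Eventually.of_forall fun t ht z hz => ?_
    rw [uIoc_of_le zero_le_one] at ht
    have h0 : (z, t) ∈ U := (hab (mk_mem_prod hz (hIb (Ioc_subset_Icc_self ht)))).1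
    have h1 : HasFDerivAt G (fderiv ℝ G (z, t)) (z, t) :=
      ((hG.contDiffAt (hU.mem_nhds h0)).differentiableAt one_ne_zero).hasFDerivAt
    exact h1.comp z (hasFDerivAt_prodMk_left z t)

theorem contDiffOn_param_nat (n : ℕ) : ∀ {F : Type u} [NormedAddCommGroup F] [NormedSpace ℝ F]
    [CompleteSpace F] {G : Z × ℝ → F} {U : Set (Z × ℝ)}, IsOpen U → ContDiffOn ℝ ∞ G U →
    ∀ {D : Set Z}, IsOpen D → (∀ z ∈ D, ∀ t ∈ Icc (0 : ℝ) 1, (z, t) ∈ U) →
    ContDiffOn ℝ n (fun z => ∫ t in (0 : ℝ)..1, G (z, t)) D := by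
  induction n with
  | zero =>
    intro F _ _ _ G U hU hG D hD h
    rw [Nat.cast_zero, contDiffOn_zero]
    intro z hz
    exact (hasFDerivAt_paramOn hU (hG.of_le (by simp)) (h z hz)).continuousAt.continuousWithinAt
  | succ n ih =>
    intro F _ _ _ G U hU hG D hD h
    have h1 : ContDiffOn ℝ ∞ (fun p : Z × ℝ =>
        (fderiv ℝ G p).comp (ContinuousLinearMap.inl ℝ Z ℝ)) U :=
      (hG.fderiv_of_isOpen hU (m := ∞) (by simp)).clm_comp contDiffOn_const
    have h2 : ∀ z ∈ D, HasFDerivAt (fun z => ∫ t in (0 : ℝ)..1, G (z, t))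
      (∫ t in (0 : ℝ)..1, (fderiv ℝ G (z, t)).comp (ContinuousLinearMap.inl ℝ Z ℝ)) z :=
      fun z hz => hasFDerivAt_paramOn hU (hG.of_le (by simp)) (h z hz)
    rw [Nat.cast_add, Nat.cast_one, contDiffOn_succ_iff_fderiv_of_isOpen hD]
    refine ⟨fun z hz => (h2 z hz).differentiableAt.differentiableWithinAt, by simp, ?_⟩
    exact (ih hU h1 hD h).congr fun z hz => (h2 z hz).fderiv

theorem contDiffOn_param {F : Type u} [NormedAddCommGroup F] [NormedSpace ℝ F]
    [CompleteSpace F] {G : Z × ℝ → F} {U : Set (Z × ℝ)} (hU : IsOpen U) (hG : ContDiffOn ℝ ∞ G U)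
    {D : Set Z} (hD : IsOpen D) (h : ∀ z ∈ D, ∀ t ∈ Icc (0 : ℝ) 1, (z, t) ∈ U) :
    ContDiffOn ℝ ∞ (fun z => ∫ t in (0 : ℝ)..1, G (z, t)) D :=
  contDiffOn_infty.2 fun n => contDiffOn_param_nat n hU hG hD h

end param

/-! ## The primitive in one coordinate -/

variable {m k : ℕ}

/-- The point on the segment from `x with x_i := α` (`s = 0`) to `x` (`s = 1`). -/
noncomputable def sgp (i : Fin m) (α s : ℝ) (x : RE m) : RE m :=
  x + ((s - 1) * (x i - α)) • ee i

theorem ee_apply (i a : Fin m) : (ee i : RE m) a = if a = i then 1 else 0 := by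
  simp [ee]

theorem sgp_self (i : Fin m) (α s : ℝ) (x : RE m) : (sgp i α s x) i = α + s * (x i - α) := by
  change x i + ((s - 1) * (x i - α)) * (ee i : RE m) i = _
  rw [ee_apply, if_pos rfl]
  ring

theorem sgp_ne {i a : Fin m} (h : a ≠ i) (α s : ℝ) (x : RE m) : (sgp i α s x) a = x a := by
  change x a + ((s - 1) * (x i - α)) * (ee i : RE m) a = _
  rw [ee_apply, if_neg h]
  ring

theorem sgp_one (i : Fin m) (α : ℝ) (x : RE m) : sgp i α 1 x = x := by
  simp [sgp]

theorem sgp_sgp (i : Fin m) (α s t : ℝ) (x : RE m) : sgp i α s (sgp i α t x) = sgp i α (s * t) x := by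
  have h1 : (sgp i α t x) i = α + t * (x i - α) := sgp_self i α t x
  unfold sgp at h1 ⊢
  rw [h1, add_assoc, ← add_smul]
  congr 2
  ring

theorem sgp_zero_sgp (i : Fin m) (α β s : ℝ) (x : RE m) : sgp i α 0 (sgp i β s x) = sgp i α 0 x := by
  have h1 : (sgp i β s x) i = β + s * (x i - β) := sgp_self i β s x
  unfold sgp at h1 ⊢
  rw [h1, add_assoc, ← add_smul]
  congr 2
  ring

theorem sgp_add (i : Fin m) (α r : ℝ) (x : RE m) : sgp i α 0 (x + r • ee i) = sgp i α 0 x := by
  have h1 : (x + r • ee i : RE m) i = x i + r := by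
    change x i + r * (ee i : RE m) i = _
    rw [ee_apply, if_pos rfl, mul_one]
  unfold sgp
  rw [h1, add_assoc, ← add_smul]
  congr 2
  ring

/-- `D` is closed under moving the coordinate `i` towards `α`. -/
def SegC (D : Set (RE m)) (i : Fin m) (α : ℝ) : Prop :=
  ∀ x ∈ D, ∀ s ∈ Icc (0 : ℝ) 1, sgp i α s x ∈ D

/-- `D` is invariant under translations in the direction `i`. -/
def InvC (D : Set (RE m)) (i : Fin m) : Prop := ∀ x ∈ D, ∀ r : ℝ, x + r • ee i ∈ D

theorem InvC.sgp {D : Set (RE m)} {i : Fin m} (h : InvC D i) {x : RE m} (hx : x ∈ D) (α s : ℝ) :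
    sgp i α s x ∈ D := h x hx _

theorem InvC.seg {D : Set (RE m)} {i : Fin m} (h : InvC D i) (α : ℝ) : SegC D i α :=
  fun _ hx s _ => h.sgp hx α s

theorem SegC.zero {D : Set (RE m)} {i : Fin m} {α : ℝ} (h : SegC D i α) {x : RE m} (hx : x ∈ D) :
    sgp i α 0 x ∈ D := h x hx 0 ⟨le_rfl, zero_le_one⟩

/-- The `i`-th coordinate as a linear map. -/
noncomputable def crd (i : Fin m) : RE m →L[ℝ] ℝ := EuclideanSpace.proj i

theorem crd_apply (i : Fin m) (x : RE m) : crd i x = x i := rfl

theorem crd_ee (i a : Fin m) : crd i (ee a : RE m) = if a = i then 1 else 0 := by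
  rw [crd_apply, ee_apply]
  simp only [eq_comm]

theorem contDiff_sgp (i : Fin m) (α : ℝ) : ContDiff ℝ ∞ fun p : RE m × ℝ => sgp i α p.2 p.1 := by
  have h1 : ContDiff ℝ ∞ fun p : RE m × ℝ => (crd i p.1 : ℝ) :=
    (crd i).contDiff.comp contDiff_fst
  exact contDiff_fst.add (((contDiff_snd.sub contDiff_const).mul (h1.sub contDiff_const)).smul
    contDiff_const)

theorem contDiff_sgp' (i : Fin m) (α s : ℝ) : ContDiff ℝ ∞ fun x : RE m => sgp i α s x :=
  (contDiff_sgp i α).comp (contDiff_id.prodMk contDiff_const)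

theorem hasFDerivAt_sgp (i : Fin m) (α s : ℝ) (x : RE m) :
    HasFDerivAt (fun x => sgp i α s x)
      (ContinuousLinearMap.id ℝ (RE m) + ((s - 1) • crd i).smulRight (ee i)) x := by
  have h1 : HasFDerivAt (fun x : RE m => (crd i x : ℝ) - α) (crd i) x :=
    (crd i).hasFDerivAt.sub_const α
  exact (hasFDerivAt_id x).add ((h1.const_mul (s - 1)).smul_const (ee i))

theorem fderiv_sgp (i : Fin m) (α s : ℝ) (x v : RE m) :
    fderiv ℝ (fun x => sgp i α s x) x v = v + ((s - 1) * v i) • ee i := by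
  rw [(hasFDerivAt_sgp i α s x).fderiv]
  rfl

section prim

variable {E : Type u} [NormedAddCommGroup E] [NormedSpace ℝ E]

/-- The primitive in the coordinate `i`, starting at `x_i = α`. -/
noncomputable def prim (i : Fin m) (α : ℝ) (f : RE m → E) (x : RE m) : E :=
  (x i - α) • ∫ s in (0 : ℝ)..1, f (sgp i α s x)

variable {D : Set (RE m)} {i : Fin m} {α : ℝ} {f g : RE m → E} {x : RE m}

omit [NormedSpace ℝ E] in
theorem continuousOn_line (hs : SegC D i α) (hf : ContinuousOn f D) (hx : x ∈ D) :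
    ContinuousOn (fun s : ℝ => f (sgp i α s x)) (Icc 0 1) := by
  refine hf.comp ?_ (hs x hx)
  exact ((contDiff_sgp i α).continuous.comp (Continuous.prodMk_right x)).continuousOn

omit [NormedSpace ℝ E] in
theorem intervalIntegrable_line (hs : SegC D i α) (hf : ContinuousOn f D) (hx : x ∈ D) :
    IntervalIntegrable (fun s : ℝ => f (sgp i α s x)) volume 0 1 := by
  refine ContinuousOn.intervalIntegrable ?_
  rw [uIcc_of_le zero_le_one]
  exact continuousOn_line hs hf hx

theorem prim_congr (h : ∀ s ∈ Icc (0 : ℝ) 1, f (sgp i α s x) = g (sgp i α s x)) :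
    prim i α f x = prim i α g x := by
  unfold prim
  congr 1
  refine intervalIntegral.integral_congr fun s hs => ?_
  rw [uIcc_of_le zero_le_one] at hs
  exact h s hs

theorem prim_zero (h : ∀ s ∈ Icc (0 : ℝ) 1, f (sgp i α s x) = 0) : prim i α f x = 0 := by
  have h1 : prim i α f x = prim i α (fun _ => (0 : E)) x := prim_congr h
  rw [h1]
  unfold prim
  simp

theorem prim_add (hs : SegC D i α) (hf : ContinuousOn f D) (hg : ContinuousOn g D) (hx : x ∈ D) :
    prim i α (fun y => f y + g y) x = prim i α f x + prim i α g x := by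
  unfold prim
  rw [intervalIntegral.integral_add (intervalIntegrable_line hs hf hx)
    (intervalIntegrable_line hs hg hx), smul_add]

theorem prim_sum {ι : Type*} (S : Finset ι) {h : ι → RE m → E} (hs : SegC D i α)
    (hf : ∀ j ∈ S, ContinuousOn (h j) D) (hx : x ∈ D) :
    prim i α (fun y => ∑ j ∈ S, h j y) x = ∑ j ∈ S, prim i α (h j) x := by
  unfold prim
  rw [intervalIntegral.integral_finsetSum fun j hj => intervalIntegrable_line hs (hf j hj) hx,
    Finset.smul_sum]

/-- Linear maps which are constant along the segment commute with the primitive; two points. -/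
theorem prim_map2 {E' : Type*} [NormedAddCommGroup E'] [NormedSpace ℝ E'] [CompleteSpace E]
    [CompleteSpace E'] (T : E →L[ℝ] E') {g : RE k → E'} (hs : SegC D i α) (hf : ContinuousOn f D)
    (hx : x ∈ D) {j : Fin k} {z : RE k} (hz : z j = x i)
    (h : ∀ s ∈ Icc (0 : ℝ) 1, g (sgp j α s z) = T (f (sgp i α s x))) :
    prim j α g z = T (prim i α f x) := by
  unfold prim
  rw [map_smul, ← T.intervalIntegral_comp_comm (intervalIntegrable_line hs hf hx), hz]
  congr 1
  refine intervalIntegral.integral_congr fun s hs => ?_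
  rw [uIcc_of_le zero_le_one] at hs
  exact h s hs

/-- Linear maps which are constant along the segment commute with the primitive. -/
theorem prim_map {E' : Type*} [NormedAddCommGroup E'] [NormedSpace ℝ E'] [CompleteSpace E]
    [CompleteSpace E'] (T : E →L[ℝ] E') {g : RE m → E'} (hs : SegC D i α) (hf : ContinuousOn f D)
    (hx : x ∈ D) (h : ∀ s ∈ Icc (0 : ℝ) 1, g (sgp i α s x) = T (f (sgp i α s x))) :
    prim i α g x = T (prim i α f x) := prim_map2 T hs hf hx rfl h

/-- The primitive as an integral over the line. -/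
theorem prim_eq (i : Fin m) (α : ℝ) (f : RE m → E) (x : RE m) :
    prim i α f x = ∫ r in α..(x i), f (x + (r - x i) • ee i) := by
  have h := intervalIntegral.smul_integral_comp_mul_add (a := 0) (b := 1)
    (fun r => f (x + (r - x i) • ee i)) (x i - α) α
  have e1 : (x i - α) * 0 + α = α := by ring
  have e2 : (x i - α) * 1 + α = x i := by ring
  rw [e1, e2] at h
  rw [← h]
  unfold prim
  congr 1
  refine intervalIntegral.integral_congr fun s _ => ?_
  change f (sgp i α s x) = f (x + ((x i - α) * s + α - x i) • ee i)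
  unfold sgp
  congr 3
  ring

theorem add_smul_apply_self (x : RE m) (r : ℝ) (i : Fin m) :
    (x + r • ee i : RE m) i = x i + r := by
  change x i + r * (ee i : RE m) i = _
  rw [ee_apply, if_pos rfl, mul_one]

theorem add_smul_apply_ne (x : RE m) (r : ℝ) {i a : Fin m} (h : a ≠ i) :
    (x + r • ee i : RE m) a = x a := by
  change x a + r * (ee i : RE m) a = _
  rw [ee_apply, if_neg h, mul_zero, add_zero]

theorem prim_translate (i : Fin m) (α : ℝ) (f : RE m → E) (x : RE m) (r : ℝ) :
    prim i α f (x + r • ee i) = ∫ τ in α..(x i + r), f (x + (τ - x i) • ee i) := by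
  rw [prim_eq, add_smul_apply_self]
  refine intervalIntegral.integral_congr fun τ _ => ?_
  rw [add_assoc, ← add_smul]
  congr 3
  ring

omit [NormedSpace ℝ E] in
theorem continuousOn_tr (hD : InvC D i) (hf : ContinuousOn f D) (hx : x ∈ D) :
    Continuous fun τ : ℝ => f (x + (τ - x i) • ee i) := by
  refine hf.comp_continuous ?_ fun τ => hD x hx _
  fun_prop

theorem prim_sub_prim (hD : InvC D i) (hf : ContinuousOn f D) (hx : x ∈ D) (α β : ℝ) :
    prim i α f x - prim i α f (sgp i β 0 x) = prim i β f x := by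
  have h0 : sgp i β 0 x = x + (β - x i) • ee i := by
    unfold sgp
    congr 2
    ring
  have hc := continuousOn_tr hD hf hx
  rw [h0, prim_translate, prim_eq, prim_eq]
  have h1 : x i + (β - x i) = β := by ring
  rw [h1]
  exact intervalIntegral.integral_interval_sub_left (hc.intervalIntegrable _ _)
    (hc.intervalIntegrable _ _)

variable [CompleteSpace E]

theorem contDiffOn_primAux (hD : IsOpen D) (hs : SegC D i α) (hf : ContDiffOn ℝ ∞ f D) :
    ContDiffOn ℝ ∞ (fun x => ∫ s in (0 : ℝ)..1, f (sgp i α s x)) D := by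
  have hU : IsOpen ((fun p : RE m × ℝ => sgp i α p.2 p.1) ⁻¹' D) :=
    hD.preimage (contDiff_sgp i α).continuous
  refine contDiffOn_param (G := fun p : RE m × ℝ => f (sgp i α p.2 p.1)) hU ?_ hD ?_
  · exact hf.comp (contDiff_sgp i α).contDiffOn fun p hp => hp
  · intro z hz t ht
    exact hs z hz t ht

theorem contDiffOn_prim (hD : IsOpen D) (hs : SegC D i α) (hf : ContDiffOn ℝ ∞ f D) :
    ContDiffOn ℝ ∞ (prim i α f) D := by
  have h1 : ContDiffOn ℝ ∞ (fun x : RE m => crd i x - α) D :=
    ((crd i).contDiff.sub contDiff_const).contDiffOn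
  exact h1.smul (contDiffOn_primAux hD hs hf)

theorem differentiableAt_prim (hD : IsOpen D) (hs : SegC D i α) (hf : ContDiffOn ℝ ∞ f D)
    (hx : x ∈ D) : DifferentiableAt ℝ (prim i α f) x :=
  ((contDiffOn_prim hD hs hf).contDiffAt (hD.mem_nhds hx)).differentiableAt (by simp)

theorem fderiv_prim_self (hD : IsOpen D) (hs : SegC D i α) (hf : ContDiffOn ℝ ∞ f D)
    (hx : x ∈ D) : fderiv ℝ (prim i α f) x (ee i) = f x := by
  have h1 : HasDerivAt (fun r : ℝ => prim i α f (x + r • ee i))
      (fderiv ℝ (prim i α f) x (ee i)) 0 := by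
    have h2 : HasDerivAt (fun r : ℝ => x + r • ee i) (ee i) 0 := by
      simpa using ((hasDerivAt_id (0 : ℝ)).smul_const (ee i : RE m)).const_add x
    have h3 : HasFDerivAt (prim i α f) (fderiv ℝ (prim i α f) x) (x + (0 : ℝ) • ee i) := by
      simpa using (differentiableAt_prim hD hs hf hx).hasFDerivAt
    exact h3.comp_hasDerivAt 0 h2
  have h4 : HasDerivAt (fun r : ℝ => ∫ τ in α..(x i + r), f (x + (τ - x i) • ee i)) (f x) 0 := by
    have hcl : Continuous fun τ : ℝ => x + (τ - x i) • ee i := by fun_prop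
    have hV : IsOpen ((fun τ : ℝ => x + (τ - x i) • ee i) ⁻¹' D) := hD.preimage hcl
    have hxV : x i ∈ (fun τ : ℝ => x + (τ - x i) • ee i) ⁻¹' D := by
      simpa using hx
    have hcont : ContinuousOn (fun τ : ℝ => f (x + (τ - x i) • ee i))
        ((fun τ : ℝ => x + (τ - x i) • ee i) ⁻¹' D) :=
      hf.continuousOn.comp hcl.continuousOn fun τ hτ => hτ
    have hint : IntervalIntegrable (fun τ : ℝ => f (x + (τ - x i) • ee i)) volume α (x i) := by
      refine (hcont.mono ?_).intervalIntegrable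
      intro τ hτ
      rw [mem_uIcc] at hτ
      change x + (τ - x i) • ee i ∈ D
      rcases eq_or_ne (x i) α with h0 | h0
      · have : τ = x i := by
          rcases hτ with hτ | hτ <;> linarith [hτ.1, hτ.2]
        rw [this]
        simpa using hx
      · have h5 : sgp i α ((τ - α) / (x i - α)) x = x + (τ - x i) • ee i := by
          unfold sgp
          congr 2
          field_simp [sub_ne_zero.2 h0]
          ring
        rw [← h5]
        refine hs x hx _ ?_
        rcases hτ with hτ | hτ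
        · have h6 : 0 < x i - α := lt_of_le_of_ne (by linarith [hτ.1, hτ.2]) (sub_ne_zero.2 h0).symm
          exact ⟨div_nonneg (by linarith [hτ.1]) h6.le, (div_le_one h6).2 (by linarith [hτ.2])⟩
        · have h6 : x i - α < 0 := lt_of_le_of_ne (by linarith [hτ.1, hτ.2]) (sub_ne_zero.2 h0)
          exact ⟨div_nonneg_of_nonpos (by linarith [hτ.2]) h6.le,
            (div_le_one_of_neg h6).2 (by linarith [hτ.1])⟩
    have hmeas : StronglyMeasurableAtFilter (fun τ : ℝ => f (x + (τ - x i) • ee i)) (𝓝 (x i))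
        volume := hcont.stronglyMeasurableAtFilter hV _ hxV
    have h7 := intervalIntegral.integral_hasDerivAt_right hint hmeas
      (hcont.continuousAt (hV.mem_nhds hxV))
    have h8 : HasDerivAt (fun r : ℝ => x i + r) 1 0 := by
      simpa using (hasDerivAt_id (0 : ℝ)).const_add (x i)
    have h9 : HasDerivAt (fun r : ℝ => ∫ τ in α..(x i + r), f (x + (τ - x i) • ee i))
        ((1 : ℝ) • f (x + (x i - x i) • ee i)) 0 :=
      HasDerivAt.scomp_of_eq (0 : ℝ) h7 h8 (by simp)
    simpa using h9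
  have h10 : (fun r : ℝ => prim i α f (x + r • ee i)) =
      fun r : ℝ => ∫ τ in α..(x i + r), f (x + (τ - x i) • ee i) :=
    funext fun r => prim_translate i α f x r
  rw [h10] at h1
  exact h1.unique h4

theorem fderiv_prim_ne {a : Fin m} (ha : a ≠ i) (hD : IsOpen D) (hs : SegC D i α)
    (hf : ContDiffOn ℝ ∞ f D) (hx : x ∈ D) :
    fderiv ℝ (prim i α f) x (ee a) = prim i α (fun y => fderiv ℝ f y (ee a)) x := by
  have hU : IsOpen ((fun p : RE m × ℝ => sgp i α p.2 p.1) ⁻¹' D) :=
    hD.preimage (contDiff_sgp i α).continuous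
  have hG : ContDiffOn ℝ 1 (fun p : RE m × ℝ => f (sgp i α p.2 p.1))
      ((fun p : RE m × ℝ => sgp i α p.2 p.1) ⁻¹' D) :=
    (hf.comp (contDiff_sgp i α).contDiffOn fun p hp => hp).of_le (by simp)
  have h1 := hasFDerivAt_paramOn hU hG (z₀ := x) (fun t ht => hs x hx t ht)
  have h2 : HasFDerivAt (fun x : RE m => x i - α) (crd i) x := (crd i).hasFDerivAt.sub_const α
  have h3 := h2.smul h1
  have h4 : fderiv ℝ (prim i α f) x = _ := h3.fderiv
  rw [h4, _root_.add_apply, _root_.smul_apply, ContinuousLinearMap.smulRight_apply, crd_ee,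
    if_neg ha, zero_smul, add_zero]
  unfold prim
  congr 1
  have hint : IntervalIntegrable (fun t => (fderiv ℝ (fun p : RE m × ℝ => f (sgp i α p.2 p.1))
      (x, t)).comp (ContinuousLinearMap.inl ℝ (RE m) ℝ)) volume 0 1 := by
    refine ContinuousOn.intervalIntegrable ?_
    rw [uIcc_of_le zero_le_one]
    have hc : ContinuousOn (fun p : RE m × ℝ => (fderiv ℝ (fun p : RE m × ℝ =>
        f (sgp i α p.2 p.1)) p).comp (ContinuousLinearMap.inl ℝ (RE m) ℝ))
        ((fun p : RE m × ℝ => sgp i α p.2 p.1) ⁻¹' D) :=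
      (hG.continuousOn_fderiv_of_isOpen hU le_rfl).clm_comp continuousOn_const
    exact hc.comp (Continuous.prodMk_right x).continuousOn fun t ht => hs x hx t ht
  rw [ContinuousLinearMap.intervalIntegral_apply hint]
  refine intervalIntegral.integral_congr fun s hs' => ?_
  rw [uIcc_of_le zero_le_one] at hs'
  have h5 : HasFDerivAt f (fderiv ℝ f (sgp i α s x)) (sgp i α s x) :=
    ((hf.contDiffAt (hD.mem_nhds (hs x hx s hs'))).differentiableAt (by simp)).hasFDerivAt
  have h6 : HasFDerivAt (fun y => f (sgp i α s y)) _ x := h5.comp x (hasFDerivAt_sgp i α s x)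
  have h7 : HasFDerivAt (fun p : RE m × ℝ => f (sgp i α p.2 p.1))
      (fderiv ℝ (fun p : RE m × ℝ => f (sgp i α p.2 p.1)) (x, s)) (x, s) :=
    ((hG.contDiffAt (hU.mem_nhds (hs x hx s hs'))).differentiableAt one_ne_zero).hasFDerivAt
  have h8 : HasFDerivAt (fun y => f (sgp i α s y))
      ((fderiv ℝ (fun p : RE m × ℝ => f (sgp i α p.2 p.1)) (x, s)).comp
        (ContinuousLinearMap.inl ℝ (RE m) ℝ)) x :=
    HasFDerivAt.comp (f := fun y : RE m => (y, s))
      (g := fun p : RE m × ℝ => f (sgp i α p.2 p.1)) x h7 (hasFDerivAt_prodMk_left x s)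
  change ((fderiv ℝ (fun p : RE m × ℝ => f (sgp i α p.2 p.1)) (x, s)).comp
    (ContinuousLinearMap.inl ℝ (RE m) ℝ)) (ee a) = fderiv ℝ f (sgp i α s x) (ee a)
  rw [h8.unique h6, ContinuousLinearMap.comp_apply]
  congr 1
  change ee a + ((s - 1) * (ee a : RE m) i) • ee i = ee a
  rw [ee_apply, if_neg (Ne.symm ha), mul_zero, zero_smul, add_zero]

theorem prim_fderiv_self (hD : IsOpen D) (hs : SegC D i α) (hf : ContDiffOn ℝ ∞ f D)
    (hx : x ∈ D) : prim i α (fun y => fderiv ℝ f y (ee i)) x = f x - f (sgp i α 0 x) := by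
  have h1 : ∀ s ∈ uIcc (0 : ℝ) 1, HasDerivAt (fun s => f (sgp i α s x))
      ((x i - α) • fderiv ℝ f (sgp i α s x) (ee i)) s := by
    intro s hs'
    rw [uIcc_of_le zero_le_one] at hs'
    have h5 : HasFDerivAt f (fderiv ℝ f (sgp i α s x)) (sgp i α s x) :=
      ((hf.contDiffAt (hD.mem_nhds (hs x hx s hs'))).differentiableAt (by simp)).hasFDerivAt
    have h2 : HasDerivAt (fun s : ℝ => sgp i α s x) ((x i - α) • ee i) s := by
      have h3 : HasDerivAt (fun s : ℝ => (s - 1) * (x i - α)) (x i - α) s := by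
        simpa using ((hasDerivAt_id s).sub_const 1).mul_const (x i - α)
      exact (h3.smul_const (ee i : RE m)).const_add x
    have h4 := h5.comp_hasDerivAt s h2
    rwa [map_smul] at h4
  have hc : ContinuousOn (fun y => fderiv ℝ f y (ee i)) D :=
    (hf.continuousOn_fderiv_of_isOpen hD (by simp)).clm_apply continuousOn_const
  have h2 := intervalIntegral.integral_eq_sub_of_hasDerivAt h1
    ((intervalIntegrable_line hs hc hx).smul (x i - α))
  rw [sgp_one] at h2
  rw [← h2]
  unfold prim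
  rw [← intervalIntegral.integral_smul]

end prim

end Pool.Agent.EXO
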