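import Mathlib
import Pool.Agent.EXO.FmTw
import Pool.Agent.EXO.FmFAd

/-!
# EXO / FmTwB: sections, smoothness, flatness, pullback and gauge transformations of twisted forms
-/

set_option autoImplicit false
set_option maxSynthPendingDepth 3

namespace Pool.Agent.EXO

open Finset
open scoped ContDiff

/-! ## Smoothness of evaluations -/

section

variable {E V W : Type*} [NormedAddCommGroup E] [NormedSpace ℝ E]
  [NormedAddCommGroup V] [NormedSpace ℂ V] [NormedAddCommGroup W] [NormedSpace ℂ W]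
  {n : WithTop ℕ∞} {A : E → (V →L[ℂ] W)} {w : E → V} {x : E} {s : Set E}

theorem contDiffAt_clm (hA : ContDiffAt ℝ n A x) (hw : ContDiffAt ℝ n w x) :
    ContDiffAt ℝ n (fun y => A y (w y)) x := by
  have h1 : ContDiffAt ℝ n
      (fun y => ContinuousLinearMap.restrictScalarsL ℂ V W ℝ ℝ (A y)) x :=
    (ContinuousLinearMap.restrictScalarsL ℂ V W ℝ ℝ).contDiff.contDiffAt.comp x hA
  exact h1.clm_apply hw

theorem contDiffOn_clm (hA : ContDiffOn ℝ n A s) (hw : ContDiffOn ℝ n w s) :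
    ContDiffOn ℝ n (fun y => A y (w y)) s := by
  have h1 : ContDiffOn ℝ n
      (fun y => ContinuousLinearMap.restrictScalarsL ℂ V W ℝ ℝ (A y)) s :=
    (ContinuousLinearMap.restrictScalarsL ℂ V W ℝ ℝ).contDiff.comp_contDiffOn hA
  exact h1.clm_apply hw

theorem fderiv_clm (hA : DifferentiableAt ℝ A x) (hw : DifferentiableAt ℝ w x) (v : E) :
    fderiv ℝ (fun y => A y (w y)) x v = fderiv ℝ A x v (w x) + A x (fderiv ℝ w x v) ∧
      DifferentiableAt ℝ (fun y => A y (w y)) x := by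
  have h1 : HasFDerivAt (fun y => ContinuousLinearMap.restrictScalarsL ℂ V W ℝ ℝ (A y))
      ((ContinuousLinearMap.restrictScalarsL ℂ V W ℝ ℝ).comp (fderiv ℝ A x)) x :=
    (ContinuousLinearMap.restrictScalarsL ℂ V W ℝ ℝ).hasFDerivAt.comp x hA.hasFDerivAt
  have h2 := h1.clm_apply hw.hasFDerivAt
  have h3 : HasFDerivAt (fun y => A y (w y)) _ x := h2
  refine ⟨?_, h3.differentiableAt⟩
  rw [h3.fderiv, add_comm]
  rfl

theorem clm_rsmul (T : V →L[ℂ] W) (r : ℝ) (z : V) : T (r • z) = r • T z :=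
  map_smul (T.restrictScalars ℝ) r z

theorem fderiv_clm_const (T : V →L[ℂ] W) (hw : DifferentiableAt ℝ w x) (v : E) :
    fderiv ℝ (fun y => T (w y)) x v = T (fderiv ℝ w x v) := by
  have h : HasFDerivAt (fun y => T (w y)) ((T.restrictScalars ℝ).comp (fderiv ℝ w x)) x :=
    (T.restrictScalars ℝ).hasFDerivAt.comp x hw.hasFDerivAt
  rw [h.fderiv]
  rfl

theorem contDiffOn_clm_const (T : V →L[ℂ] W) (hw : ContDiffOn ℝ n w s) :
    ContDiffOn ℝ n (fun y => T (w y)) s :=
  (T.restrictScalars ℝ).contDiff.comp_contDiffOn hw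

end

theorem two_le_infty : (2 : WithTop ℕ∞) ≤ ∞ := WithTop.coe_le_coe.2 (le_top : (2 : ℕ∞) ≤ ⊤)

variable {m k l : ℕ} {κ κ' : Type*} [Fintype κ] [Fintype κ']

section

variable {E : Type*} [NormedAddCommGroup E] [NormedSpace ℝ E]
  {n : WithTop ℕ∞} {A : E → (KE κ →L[ℂ] KE κ')} {w : E → HF m κ} {x : E} {s : Set E}

omit [Fintype κ'] in
theorem ten_mul_apply (T T' : KE κ →L[ℂ] KE κ) (u : HF m κ) :
    ten T (ten T' u) = ten (T * T') u := by
  rw [ten_mul]
  rfl

theorem contDiffOn_ten (hA : ContDiffOn ℝ n A s) (hw : ContDiffOn ℝ n w s) :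
    ContDiffOn ℝ n (fun y => ten (A y) (w y)) s := by
  have h : ContDiffOn ℝ n (fun y => tenL m κ κ' (A y)) s :=
    ((tenL m κ κ').restrictScalars ℝ).contDiff.comp_contDiffOn hA
  exact contDiffOn_clm h hw

theorem contDiffAt_ten (hA : ContDiffAt ℝ n A x) (hw : ContDiffAt ℝ n w x) :
    ContDiffAt ℝ n (fun y => ten (A y) (w y)) x := by
  have h : ContDiffAt ℝ n (fun y => tenL m κ κ' (A y)) x :=
    ((tenL m κ κ').restrictScalars ℝ).contDiff.contDiffAt.comp x hA
  exact contDiffAt_clm h hw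

theorem fderiv_ten (hA : DifferentiableAt ℝ A x) (hw : DifferentiableAt ℝ w x) (v : E) :
    fderiv ℝ (fun y => ten (A y) (w y)) x v =
      ten (fderiv ℝ A x v) (w x) + ten (A x) (fderiv ℝ w x v) ∧
      DifferentiableAt ℝ (fun y => ten (A y) (w y)) x := by
  have h1 : HasFDerivAt (fun y => tenL m κ κ' (A y))
      (((tenL m κ κ').restrictScalars ℝ).comp (fderiv ℝ A x)) x :=
    ((tenL m κ κ').restrictScalars ℝ).hasFDerivAt.comp x hA.hasFDerivAt
  have h2 := fderiv_clm h1.differentiableAt hw v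
  rw [h1.fderiv] at h2
  exact h2

end

namespace Tw

variable {t : Tw m κ} {D : Set (RE m)} {u w : RE m → HF m κ} {x : RE m}

/-! ## Sections -/

theorem Sec.diffAt (hD : IsOpen D) (hu : t.Sec D u) (hx : x ∈ D) : DifferentiableAt ℝ u x :=
  (hu.1.contDiffAt (hD.mem_nhds hx)).differentiableAt (by simp)

theorem Sec.contAt (hD : IsOpen D) (hu : t.Sec D u) (hx : x ∈ D) : ContDiffAt ℝ ∞ u x :=
  hu.1.contDiffAt (hD.mem_nhds hx)

theorem Sec.mono {D' : Set (RE m)} (hu : t.Sec D u) (h : D' ⊆ D) : t.Sec D' u :=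
  ⟨hu.1.mono h, fun x hx => hu.2 x (h hx)⟩

theorem Sec.congr (hu : t.Sec D u) (h : ∀ x ∈ D, w x = u x) : t.Sec D w :=
  ⟨hu.1.congr h, fun x hx => by rw [h x hx, hu.2 x hx]⟩

theorem Sec.add (hu : t.Sec D u) (hw : t.Sec D w) : t.Sec D fun y => u y + w y :=
  ⟨hu.1.add hw.1, fun x hx => by rw [map_add, hu.2 x hx, hw.2 x hx]⟩

theorem Sec.sub (hu : t.Sec D u) (hw : t.Sec D w) : t.Sec D fun y => u y - w y :=
  ⟨hu.1.sub hw.1, fun x hx => by rw [map_sub, hu.2 x hx, hw.2 x hx]⟩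

theorem Sec.neg (hu : t.Sec D u) : t.Sec D fun y => - u y :=
  ⟨hu.1.neg, fun x hx => by rw [map_neg, hu.2 x hx]⟩

theorem Sec.smul (r : ℂ) (hu : t.Sec D u) : t.Sec D fun y => r • u y :=
  ⟨hu.1.const_smul r, fun x hx => by rw [map_smul, hu.2 x hx]⟩

theorem Sec.fsmul {f : RE m → ℝ} (hf : ContDiffOn ℝ ∞ f D) (hu : t.Sec D u) :
    t.Sec D fun y => f y • u y :=
  ⟨hf.smul hu.1, fun x hx => by rw [clm_rsmul, hu.2 x hx]⟩

theorem Sec.zero : t.Sec D fun _ => 0 := ⟨contDiffOn_const, fun x _ => by rw [map_zero]⟩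

theorem Sec.eps (a : Fin m) (hu : t.Sec D u) : t.Sec D fun y => EXO.eps a (u y) :=
  ⟨contDiffOn_clm_const _ hu.1, fun x hx => by rw [ten_eps, hu.2 x hx]⟩

theorem Sec.iota (a : Fin m) (hu : t.Sec D u) : t.Sec D fun y => EXO.iota a (u y) :=
  ⟨contDiffOn_clm_const _ hu.1, fun x hx => by rw [ten_iota, hu.2 x hx]⟩

theorem Sec.dg (j : ℕ) (hu : t.Sec D u) : t.Sec D fun y => EXO.dg j (u y) :=
  ⟨contDiffOn_clm_const _ hu.1, fun x hx => by rw [ten_dg, hu.2 x hx]⟩

theorem Sec.triv (hu : ContDiffOn ℝ ∞ u D) : (Tw.triv m κ).Sec D u := ⟨hu, fun _ _ => rfl⟩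

theorem Good.triv (hD : IsOpen D) : (Tw.triv m κ).Good D where
  isOpen := hD
  smooth_e := contDiffOn_const
  smooth_b := contDiffOn_const
  idem := fun _ _ => rfl
  eb := fun _ _ _ => rfl
  be := fun _ _ _ => rfl

theorem Flat.triv (hD : IsOpen D) : (Tw.triv m κ).Flat D where
  toGood := Good.triv hD
  flat := fun x _ v w => by
    have h1 : fderiv ℝ (Tw.triv m κ).e x = 0 := fderiv_const_apply _
    have h2 : fderiv ℝ (Tw.triv m κ).b x = 0 := fderiv_const_apply _
    have h3 : ∀ v, (Tw.triv m κ).b x v = 0 := fun _ => rfl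
    simp only [h1, h2, h3, _root_.zero_apply, mul_zero, zero_mul, add_zero, sub_zero]

theorem Good.mono {D' : Set (RE m)} (h : t.Good D) (hD' : IsOpen D') (hs : D' ⊆ D) :
    t.Good D' where
  isOpen := hD'
  smooth_e := h.smooth_e.mono hs
  smooth_b := h.smooth_b.mono hs
  idem := fun x hx => h.idem x (hs hx)
  eb := fun x hx => h.eb x (hs hx)
  be := fun x hx => h.be x (hs hx)

theorem Flat.mono {D' : Set (RE m)} (h : t.Flat D) (hD' : IsOpen D') (hs : D' ⊆ D) :
    t.Flat D' where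
  toGood := h.toGood.mono hD' hs
  flat := fun x hx => h.flat x (hs hx)

/-! ## The derivative of a section -/

theorem Good.contDiffOn_d (h : t.Good D) (hu : t.Sec D u) : ContDiffOn ℝ ∞ (t.d u) D := by
  unfold Tw.d
  refine ContDiffOn.sum fun a _ => ?_
  refine contDiffOn_clm_const _ ?_
  have h1 : ContDiffOn ℝ ∞ (fun x => fderiv ℝ u x (ee a)) D :=
    (hu.1.fderiv_of_isOpen h.isOpen (m := ∞) (by simp)).clm_apply contDiffOn_const
  exact (contDiffOn_ten h.smooth_e h1).add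
    (contDiffOn_ten (h.smooth_b.clm_apply contDiffOn_const) hu.1)

theorem Good.sec_d (h : t.Good D) (hu : t.Sec D u) : t.Sec D (t.d u) := by
  refine ⟨h.contDiffOn_d hu, fun x hx => ?_⟩
  unfold Tw.d
  rw [map_sum]
  refine sum_congr rfl fun a _ => ?_
  rw [ten_eps, map_add, ten_mul_apply, ten_mul_apply, h.idem x hx, h.eb x hx]

theorem d_eps (i : Fin m) (hu : DifferentiableAt ℝ u x) :
    t.d (fun y => EXO.eps i (u y)) x = - EXO.eps i (t.d u x) := by
  unfold Tw.d
  rw [map_sum, ← Finset.sum_neg_distrib]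
  refine sum_congr rfl fun a _ => ?_
  rw [fderiv_clm_const _ hu, ten_eps, ten_eps, ← map_add, eps_eps]

theorem Good.ede (h : t.Good D) (hx : x ∈ D) (v : RE m) :
    t.e x * fderiv ℝ t.e x v * t.e x = 0 := by
  have he : DifferentiableAt ℝ t.e x :=
    (h.smooth_e.contDiffAt (h.isOpen.mem_nhds hx)).differentiableAt (by simp)
  have h1 : (fun y => t.e y * t.e y) =ᶠ[nhds x] t.e := by
    filter_upwards [h.isOpen.mem_nhds hx] with y hy
    exact h.idem y hy
  have h2 : fderiv ℝ (fun y => t.e y * t.e y) x v = fderiv ℝ t.e x v := by rw [h1.fderiv_eq]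
  have h3 : fderiv ℝ (fun y => t.e y * t.e y) x v =
      t.e x * fderiv ℝ t.e x v + fderiv ℝ t.e x v * t.e x := by
    have h4 : HasFDerivAt (fun y => t.e y * t.e y) _ x := he.hasFDerivAt.mul' he.hasFDerivAt
    rw [h4.fderiv]
    rfl
  rw [h3] at h2
  have h5 := congrArg (fun T => t.e x * T * t.e x) h2
  simp only [mul_add, add_mul] at h5
  have h6 : t.e x * (t.e x * fderiv ℝ t.e x v) * t.e x = t.e x * fderiv ℝ t.e x v * t.e x := by
    rw [← mul_assoc, h.idem x hx]
  have h7 : t.e x * (fderiv ℝ t.e x v * t.e x) * t.e x = t.e x * fderiv ℝ t.e x v * t.e x := by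
    rw [← mul_assoc, mul_assoc _ (t.e x) (t.e x), h.idem x hx]
  rw [h6, h7] at h5
  simpa using h5

theorem Sec.fderiv_eq (h : t.Good D) (hu : t.Sec D u) (hx : x ∈ D) (v : RE m) :
    fderiv ℝ u x v = ten (fderiv ℝ t.e x v) (u x) + ten (t.e x) (fderiv ℝ u x v) := by
  have he : DifferentiableAt ℝ t.e x :=
    (h.smooth_e.contDiffAt (h.isOpen.mem_nhds hx)).differentiableAt (by simp)
  have h1 : (fun y => ten (t.e y) (u y)) =ᶠ[nhds x] u := by
    filter_upwards [h.isOpen.mem_nhds hx] with y hy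
    exact hu.2 y hy
  have h2 := (fderiv_ten he (hu.diffAt h.isOpen hx) v).1
  rwa [h1.fderiv_eq] at h2

/-- The twisted derivative squares to zero. -/
theorem Flat.d_d (h : t.Flat D) (hu : t.Sec D u) (hx : x ∈ D) : t.d (t.d u) x = 0 := by
  have hD := h.isOpen
  have he : DifferentiableAt ℝ t.e x :=
    (h.smooth_e.contDiffAt (hD.mem_nhds hx)).differentiableAt (by simp)
  have hb : DifferentiableAt ℝ t.b x :=
    (h.smooth_b.contDiffAt (hD.mem_nhds hx)).differentiableAt (by simp)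
  have hud := hu.diffAt hD hx
  have hu2 : DifferentiableAt ℝ (fderiv ℝ u) x :=
    ((hu.contAt hD hx).fderiv_right (m := 1) (by norm_cast)).differentiableAt (by norm_num)
  have hsym : ∀ v w, fderiv ℝ (fderiv ℝ u) x v w = fderiv ℝ (fderiv ℝ u) x w v := by
    intro v w
    exact ((((hu.contAt hD hx).of_le two_le_infty).isSymmSndFDerivAt (by simp))) v w
  have hder : ∀ a c, fderiv ℝ (fun y => ten (t.e y) (fderiv ℝ u y (ee c)) +
      ten (t.b y (ee c)) (u y)) x (ee a) =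
      (ten (fderiv ℝ t.e x (ee a)) (fderiv ℝ u x (ee c)) +
        ten (t.e x) (fderiv ℝ (fderiv ℝ u) x (ee a) (ee c))) +
      (ten (fderiv ℝ t.b x (ee a) (ee c)) (u x) + ten (t.b x (ee c)) (fderiv ℝ u x (ee a))) ∧
      DifferentiableAt ℝ (fun y => ten (t.e y) (fderiv ℝ u y (ee c)) +
        ten (t.b y (ee c)) (u y)) x := by
    intro a c
    have g1 : HasFDerivAt (fun y => fderiv ℝ u y (ee c)) _ x :=
      hu2.hasFDerivAt.clm_apply (hasFDerivAt_const (ee c) x)
    have g2 : HasFDerivAt (fun y => t.b y (ee c)) _ x :=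
      hb.hasFDerivAt.clm_apply (hasFDerivAt_const (ee c) x)
    have g3 := fderiv_ten he g1.differentiableAt (ee a)
    have g4 := fderiv_ten g2.differentiableAt hud (ee a)
    have g5 : fderiv ℝ (fun y => fderiv ℝ u y (ee c)) x (ee a) =
        fderiv ℝ (fderiv ℝ u) x (ee a) (ee c) := by
      rw [g1.fderiv]
      simp
    have g6 : fderiv ℝ (fun y => t.b y (ee c)) x (ee a) = fderiv ℝ t.b x (ee a) (ee c) := by
      rw [g2.fderiv]
      simp
    rw [g5] at g3
    rw [g6] at g4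
    refine ⟨?_, g3.2.add g4.2⟩
    rw [fderiv_fun_add g3.2 g4.2, _root_.add_apply, g3.1, g4.1]
  have h1 : ∀ a, fderiv ℝ (t.d u) x (ee a) = ∑ c, EXO.eps c
      ((ten (fderiv ℝ t.e x (ee a)) (fderiv ℝ u x (ee c)) +
        ten (t.e x) (fderiv ℝ (fderiv ℝ u) x (ee a) (ee c))) +
      (ten (fderiv ℝ t.b x (ee a) (ee c)) (u x) +
        ten (t.b x (ee c)) (fderiv ℝ u x (ee a)))) := by
    intro a
    unfold Tw.d
    rw [fderiv_fun_sum, _root_.sum_apply]
    · refine sum_congr rfl fun c _ => ?_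
      rw [fderiv_clm_const _ (hder a c).2, (hder a c).1]
    · intro c _
      exact ((EXO.eps c : HF m κ →L[ℂ] HF m κ).restrictScalars ℝ).differentiableAt.comp x
        (hder a c).2
  have hue : ten (t.e x) (u x) = u x := hu.2 x hx
  have key : t.d (t.d u) x = ∑ a, EXO.eps a (∑ c, EXO.eps c
      ((ten (t.e x * (fderiv ℝ t.e x (ee a) * fderiv ℝ t.e x (ee c)) * t.e x +
        t.e x * fderiv ℝ t.b x (ee a) (ee c) * t.e x + t.b x (ee a) * t.b x (ee c)) (u x)) +
      (ten (t.e x) (fderiv ℝ (fderiv ℝ u) x (ee a) (ee c)) +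
        (ten (t.b x (ee c)) (fderiv ℝ u x (ee a)) +
          ten (t.b x (ee a)) (fderiv ℝ u x (ee c)))))) := by
    have h0 : t.d (t.d u) x = ∑ a, EXO.eps a (ten (t.e x) (fderiv ℝ (t.d u) x (ee a)) +
      ten (t.b x (ee a)) (t.d u x)) := rfl
    rw [h0]
    refine sum_congr rfl fun a _ => ?_
    congr 1
    rw [h1]
    have h2 : t.d u x = ∑ c, EXO.eps c (ten (t.e x) (fderiv ℝ u x (ee c)) +
      ten (t.b x (ee c)) (u x)) := rfl
    rw [h2, map_sum, map_sum, ← Finset.sum_add_distrib]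
    refine sum_congr rfl fun c _ => ?_
    rw [ten_eps, ten_eps, ← map_add]
    congr 1
    have e1 : ten (t.e x) (ten (fderiv ℝ t.e x (ee a)) (fderiv ℝ u x (ee c))) =
        ten (t.e x * (fderiv ℝ t.e x (ee a) * fderiv ℝ t.e x (ee c)) * t.e x) (u x) := by
      have hz : ten (t.e x) (ten (fderiv ℝ t.e x (ee a)) (ten (t.e x) (fderiv ℝ u x (ee c)))) =
          0 := by
        have hz' := congrArg (fun T => (ten T : HF m κ →L[ℂ] HF m κ) (fderiv ℝ u x (ee c)))
          (h.toGood.ede hx (ee a))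
        exact hz'
      conv_lhs => rw [Sec.fderiv_eq h.toGood hu hx (ee c)]
      rw [map_add, map_add, hz, add_zero, ← ten_mul_apply _ (t.e x), hue]
      rfl
    have e2 : ten (t.e x) (ten (fderiv ℝ t.b x (ee a) (ee c)) (u x)) =
        ten (t.e x * fderiv ℝ t.b x (ee a) (ee c) * t.e x) (u x) := by
      rw [← ten_mul_apply _ (t.e x), hue]
      rfl
    have e3 : ten (t.e x) (ten (t.e x) (fderiv ℝ (fderiv ℝ u) x (ee a) (ee c))) =
        ten (t.e x) (fderiv ℝ (fderiv ℝ u) x (ee a) (ee c)) := by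
      rw [ten_mul_apply, h.idem x hx]
    have e4 : ten (t.e x) (ten (t.b x (ee c)) (fderiv ℝ u x (ee a))) =
        ten (t.b x (ee c)) (fderiv ℝ u x (ee a)) := by
      rw [ten_mul_apply, h.eb x hx]
    have e5 : ten (t.b x (ee a)) (ten (t.e x) (fderiv ℝ u x (ee c))) =
        ten (t.b x (ee a)) (fderiv ℝ u x (ee c)) := by
      rw [ten_mul_apply, h.be x hx]
    have e6 : ten (t.b x (ee a)) (ten (t.b x (ee c)) (u x)) =
        ten (t.b x (ee a) * t.b x (ee c)) (u x) := by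
      rw [ten_mul_apply]
    simp only [map_add, ten_add, _root_.add_apply, e1, e2, e3, e4, e5, e6]
    abel
  rw [key]
  refine symm_eps_eps _ fun a c => ?_
  have hf := h.flat x hx (ee a) (ee c)
  rw [sub_eq_zero] at hf
  rw [hf, hsym (ee a) (ee c)]
  congr 2
  rw [add_comm]

/-! ## Pullback -/

theorem Good.pull (h : t.Good D) {F : RE k → RE m} {D' : Set (RE k)} (hD' : IsOpen D')
    (hF : ContDiffOn ℝ ∞ F D') (hm : ∀ x ∈ D', F x ∈ D) : (t.pull F).Good D' where
  isOpen := hD'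
  smooth_e := h.smooth_e.comp hF hm
  smooth_b := (h.smooth_b.comp hF hm).clm_comp (hF.fderiv_of_isOpen hD' (m := ∞) (by simp))
  idem := fun x hx => h.idem (F x) (hm x hx)
  eb := fun x hx v => h.eb (F x) (hm x hx) _
  be := fun x hx v => h.be (F x) (hm x hx) _

theorem Flat.pull (h : t.Flat D) {F : RE k → RE m} {D' : Set (RE k)} (hD' : IsOpen D')
    (hF : ContDiffOn ℝ ∞ F D') (hm : ∀ x ∈ D', F x ∈ D) : (t.pull F).Flat D' where
  toGood := h.toGood.pull hD' hF hm
  flat := fun x hx v w => by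
    have hFx : ContDiffAt ℝ ∞ F x := hF.contDiffAt (hD'.mem_nhds hx)
    have hFd : DifferentiableAt ℝ F x := hFx.differentiableAt (by simp)
    have hF2 : DifferentiableAt ℝ (fderiv ℝ F) x :=
      (hFx.fderiv_right (m := 1) (by norm_cast)).differentiableAt (by norm_num)
    have hsym : ∀ v w, fderiv ℝ (fderiv ℝ F) x v w = fderiv ℝ (fderiv ℝ F) x w v := by
      intro v w
      exact ((hFx.of_le two_le_infty).isSymmSndFDerivAt (by simp)) v w
    have he : DifferentiableAt ℝ t.e (F x) :=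
      (h.smooth_e.contDiffAt (h.isOpen.mem_nhds (hm x hx))).differentiableAt (by simp)
    have hb : DifferentiableAt ℝ t.b (F x) :=
      (h.smooth_b.contDiffAt (h.isOpen.mem_nhds (hm x hx))).differentiableAt (by simp)
    have h1 : ∀ v, fderiv ℝ (t.pull F).e x v = fderiv ℝ t.e (F x) (fderiv ℝ F x v) := by
      intro v
      have : HasFDerivAt (t.pull F).e _ x := he.hasFDerivAt.comp x hFd.hasFDerivAt
      rw [this.fderiv]
      rfl
    have h2 : ∀ v w, fderiv ℝ (t.pull F).b x v w =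
        fderiv ℝ t.b (F x) (fderiv ℝ F x v) (fderiv ℝ F x w) +
        t.b (F x) (fderiv ℝ (fderiv ℝ F) x v w) := by
      intro v w
      have g1 : HasFDerivAt (fun y => t.b (F y)) _ x := hb.hasFDerivAt.comp x hFd.hasFDerivAt
      have g2 : HasFDerivAt (t.pull F).b _ x := g1.clm_comp hF2.hasFDerivAt
      rw [g2.fderiv, add_comm]
      rfl
    have h3 := h.flat (F x) (hm x hx) (fderiv ℝ F x v) (fderiv ℝ F x w)
    have h4 : ∀ z, (t.pull F).b x z = t.b (F x) (fderiv ℝ F x z) := fun z => rfl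
    have h5 : (t.pull F).e x = t.e (F x) := rfl
    simp only [h1, h2, h4, h5, mul_add, add_mul]
    rw [hsym w v, ← h3]
    abel

theorem Sec.pull (hu : t.Sec D u) (hD : IsOpen D) {F : RE k → RE m} {D' : Set (RE k)}
    (hD' : IsOpen D') (hF : ContDiffOn ℝ ∞ F D') (hm : ∀ x ∈ D', F x ∈ D) :
    (t.pull F).Sec D' (EXO.pull F u) := by
  refine ⟨fm_contDiffOn_pull hD' hD hF hu.1 hm, fun x hx => ?_⟩
  unfold EXO.pull
  change ten (t.e (F x)) _ = _
  rw [← Lam_ten, hu.2 (F x) (hm x hx)]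

/-! ## Gauge transformations -/

/-- `g` intertwines the bundles and the connections of `t` and `t'` over `D`. -/
structure Gauge (t : Tw m κ) (t' : Tw m κ') (D : Set (RE m))
    (g : RE m → (KE κ →L[ℂ] KE κ')) : Prop where
  smooth : ContDiffOn ℝ ∞ g D
  left : ∀ x ∈ D, (t'.e x).comp (g x) = g x
  right : ∀ x ∈ D, (g x).comp (t.e x) = g x
  con : ∀ x ∈ D, ∀ v, (t'.e x).comp ((fderiv ℝ g x v).comp (t.e x)) + (t'.b x v).comp (g x) =
    (g x).comp (t.b x v)

theorem Gauge.sec {t' : Tw m κ'} {g : RE m → (KE κ →L[ℂ] KE κ')} (hg : Gauge t t' D g)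
    (hu : t.Sec D u) : t'.Sec D fun y => ten (g y) (u y) :=
  ⟨contDiffOn_ten hg.smooth hu.1, fun x hx => by
    change ten (t'.e x) (ten (g x) (u x)) = ten (g x) (u x)
    rw [ten_comp, hg.left x hx]⟩

theorem Gauge.d {t' : Tw m κ'} {g : RE m → (KE κ →L[ℂ] KE κ')} (hg : Gauge t t' D g)
    (hD : IsOpen D) (hu : t.Sec D u) (hx : x ∈ D) :
    t'.d (fun y => ten (g y) (u y)) x = ten (g x) (t.d u x) := by
  have hgd : DifferentiableAt ℝ g x :=
    (hg.smooth.contDiffAt (hD.mem_nhds hx)).differentiableAt (by simp)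
  unfold Tw.d
  rw [map_sum]
  refine sum_congr rfl fun a _ => ?_
  rw [ten_eps]
  congr 1
  rw [(fderiv_ten hgd (hu.diffAt hD hx) (ee a)).1, map_add, map_add, ten_comp, ten_comp,
    ten_comp, ten_comp, ten_comp, hg.left x hx, hg.right x hx, ← hg.con x hx (ee a),
    ten_add, _root_.add_apply]
  have h1 : ten ((t'.e x).comp (fderiv ℝ g x (ee a))) (u x) =
      ten ((t'.e x).comp ((fderiv ℝ g x (ee a)).comp (t.e x))) (u x) := by
    conv_lhs => rw [← hu.2 x hx]
    rfl
  rw [h1]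
  abel

end Tw

end Pool.Agent.EXO
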