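import Mathlib
import Pool.Agent.EXO.FmTwB
import Pool.Agent.EXO.FmPar

/-!
# EXO / FmS: the homotopy operator in one coordinate

For a coordinate `i` of which `e` and `b` do not depend and in which `b` has no component:
`So i α u = iota i (prim i α u)`, `Ro i α u x = iota i (eps i (u (x with x_i := α)))`,
`t.d (So u) + So (t.d u) = u - Ro u`, and `t.d (Ro u) = Ro (t.d u)`.
-/

set_option autoImplicit false
set_option maxSynthPendingDepth 3

namespace Pool.Agent.EXO

open Finset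
open scoped ContDiff

variable {m k l : ℕ} {κ : Type*} [Fintype κ]

/-- The homotopy operator. -/
noncomputable def So (i : Fin m) (α : ℝ) (u : RE m → HF m κ) (x : RE m) : HF m κ :=
  iota i (prim i α u x)

/-- Restriction to `x_i = α`. -/
noncomputable def Ro (i : Fin m) (α : ℝ) (u : RE m → HF m κ) (x : RE m) : HF m κ :=
  iota i (eps i (u (sgp i α 0 x)))

/-- The linear projection with kernel spanned by `ee i`. -/
noncomputable def prjI (i : Fin m) : RE m →L[ℝ] RE m :=
  ContinuousLinearMap.id ℝ (RE m) - (crd i).smulRight (ee i)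

theorem prjI_apply (i : Fin m) (v : RE m) : prjI i v = v - v i • ee i := rfl

theorem fderiv_sgp_zero (i : Fin m) (α : ℝ) (x : RE m) :
    fderiv ℝ (fun x => sgp i α 0 x) x = prjI i := by
  ext1 v
  have h : ((0 : ℝ) - 1) * v i = - v i := by ring
  rw [fderiv_sgp, prjI_apply, h, neg_smul, sub_eq_add_neg]

theorem adjoint_prjI (i : Fin m) : ContinuousLinearMap.adjoint (prjI i) = prjI i := by
  refine ((ContinuousLinearMap.eq_adjoint_iff _ _).2 fun v w => ?_).symm
  rw [prjI_apply, prjI_apply, inner_sub_left, inner_sub_right, inner_smul_left, inner_smul_right]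
  simp [ee, EuclideanSpace.inner_single_left, EuclideanSpace.inner_single_right, mul_comm]

theorem Lam_prjI (i : Fin m) (u : HF m κ) : Lam (prjI i) u = iota i (eps i u) := by
  have h := Lam_unique (prjI i) ((iota i : HF m κ →L[ℂ] HF m κ) * eps i) ?_ ?_
  · rw [← h]
    rfl
  · intro j
    change iota i (eps i (bas ∅ j)) = bas ∅ j
    have h1 := iota_eps i i (bas ∅ j : HF m κ)
    rw [iota_vac, map_zero, if_pos rfl] at h1
    simpa using h1
  · intro a w
    change iota i (eps i (eps a w)) = epsv (prjI i (ee a)) (iota i (eps i w))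
    have h1 : epsv (prjI i (ee a)) (iota i (eps i w)) =
        if a = i then 0 else eps a (iota i (eps i w)) := by
      rw [prjI_apply, ee_apply]
      by_cases h : a = i
      · subst h
        rw [if_pos rfl, if_pos rfl, one_smul, sub_self, epsv_zero]
        rfl
      · rw [if_neg (Ne.symm h), if_neg h, zero_smul, sub_zero, epsv_ee]
    rw [h1]
    by_cases h : a = i
    · subst h
      rw [if_pos rfl, eps_self, map_zero]
    · rw [if_neg h, eps_eps, map_neg, iota_eps, if_neg (Ne.symm h)]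
      simp

theorem Ro_eq_pull (i : Fin m) (α : ℝ) (u : RE m → HF m κ) (x : RE m) :
    Ro i α u x = pull (fun y => sgp i α 0 y) u x := by
  unfold Ro pull
  rw [fderiv_sgp_zero, adjoint_prjI, Lam_prjI]

theorem prim_ten {D : Set (RE m)} {i : Fin m} {α : ℝ} {x : RE m} {A : RE m → (KE κ →L[ℂ] KE κ)}
    {f : RE m → HF m κ} (hs : SegC D i α) (hf : ContinuousOn f D) (hx : x ∈ D)
    (hA : ∀ s ∈ Set.Icc (0 : ℝ) 1, A (sgp i α s x) = A x) :
    prim i α (fun y => ten (A y) (f y)) x = ten (A x) (prim i α f x) :=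
  prim_map ((ten (A x) : HF m κ →L[ℂ] HF m κ).restrictScalars ℝ) hs hf hx
    fun s hs' => by
      rw [hA s hs']
      rfl

theorem prim_clm {D : Set (RE m)} {i : Fin m} {α : ℝ} {x : RE m} {κ' : Type*} [Fintype κ']
    (T : HF m κ →L[ℂ] HF m κ') {f : RE m → HF m κ} (hs : SegC D i α) (hf : ContinuousOn f D)
    (hx : x ∈ D) : prim i α (fun y => T (f y)) x = T (prim i α f x) :=
  prim_map (T.restrictScalars ℝ) hs hf hx fun _ _ => rfl

namespace Tw

/-- On `D`, `e` and `b` do not depend on `x_i`, and `b` has no component in this direction. -/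
structure ActOn (t : Tw m κ) (D : Set (RE m)) (i : Fin m) : Prop where
  e : ∀ x ∈ D, ∀ r : ℝ, x + r • ee i ∈ D → t.e (x + r • ee i) = t.e x
  b : ∀ x ∈ D, ∀ r : ℝ, x + r • ee i ∈ D → t.b (x + r • ee i) = t.b x
  bi : ∀ x ∈ D, t.b x (ee i) = 0

variable {t : Tw m κ} {D : Set (RE m)} {i : Fin m} {α : ℝ} {u w : RE m → HF m κ} {x : RE m}

theorem ActOn.triv (D : Set (RE m)) (i : Fin m) : (Tw.triv m κ).ActOn D i :=
  ⟨fun _ _ _ _ => rfl, fun _ _ _ _ => rfl, fun _ _ => rfl⟩

theorem ActOn.e_sgp (ha : t.ActOn D i) (hs : SegC D i α) (hx : x ∈ D) {s : ℝ}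
    (hs' : s ∈ Set.Icc (0 : ℝ) 1) : t.e (sgp i α s x) = t.e x :=
  ha.e x hx _ (hs x hx s hs')

theorem ActOn.b_sgp (ha : t.ActOn D i) (hs : SegC D i α) (hx : x ∈ D) {s : ℝ}
    (hs' : s ∈ Set.Icc (0 : ℝ) 1) : t.b (sgp i α s x) = t.b x :=
  ha.b x hx _ (hs x hx s hs')

theorem ActOn.mono {D' : Set (RE m)} (ha : t.ActOn D i) (h : D' ⊆ D) : t.ActOn D' i :=
  ⟨fun x hx r hr => ha.e x (h hx) r (h hr), fun x hx r hr => ha.b x (h hx) r (h hr),
    fun x hx => ha.bi x (h hx)⟩

theorem Sec.prim (hu : t.Sec D u) (hD : IsOpen D) (ha : t.ActOn D i) (hs : SegC D i α) :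
    t.Sec D (prim i α u) := by
  refine ⟨contDiffOn_prim hD hs hu.1, fun x hx => ?_⟩
  rw [← prim_ten hs hu.1.continuousOn hx fun s hs' => ha.e_sgp hs hx hs']
  exact prim_congr fun s hs' => hu.2 _ (hs x hx s hs')

theorem Sec.So (hu : t.Sec D u) (hD : IsOpen D) (ha : t.ActOn D i) (hs : SegC D i α) :
    t.Sec D (So i α u) := (hu.prim hD ha hs).iota i

theorem Sec.Ro (hu : t.Sec D u) (ha : t.ActOn D i) (hs : SegC D i α) :
    t.Sec D (Ro i α u) := by
  refine ⟨contDiffOn_clm_const _ (contDiffOn_clm_const _ ?_), fun x hx => ?_⟩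
  · exact hu.1.comp (contDiff_sgp' i α 0).contDiffOn fun x hx => hs.zero hx
  · have h0 : sgp i α 0 x ∈ D := hs.zero hx
    have he : t.e x = t.e (sgp i α 0 x) := (ha.e_sgp hs hx ⟨le_rfl, zero_le_one⟩).symm
    unfold EXO.Ro
    rw [ten_iota, ten_eps, he, hu.2 _ h0]

/-- The homotopy formula. -/
theorem Good.d_So (h : t.Good D) (ha : t.ActOn D i) (hs : SegC D i α) (hu : t.Sec D u)
    (hx : x ∈ D) : t.d (EXO.So i α u) x + EXO.So i α (t.d u) x = u x - EXO.Ro i α u x := by
  have hD := h.isOpen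
  have h0 : sgp i α 0 x ∈ D := hs.zero hx
  have hp := hu.prim hD ha hs
  have hpd : DifferentiableAt ℝ (EXO.prim i α u) x := hp.diffAt hD hx
  have hcu : ContinuousOn u D := hu.1.continuousOn
  have hcd : ∀ a, ContDiffOn ℝ ∞ (fun y => fderiv ℝ u y (ee a)) D := fun a =>
    (hu.1.fderiv_of_isOpen hD (m := ∞) (by simp)).clm_apply contDiffOn_const
  have hc1 : ∀ a, ContinuousOn (fun y => ten (t.e y) (fderiv ℝ u y (ee a))) D := fun a =>
    (contDiffOn_ten h.smooth_e (hcd a)).continuousOn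
  have hc2 : ∀ a, ContinuousOn (fun y => ten (t.b y (ee a)) (u y)) D := fun a =>
    (contDiffOn_ten (h.smooth_b.clm_apply contDiffOn_const) hu.1).continuousOn
  have e1 : t.d (EXO.So i α u) x = ∑ a, eps a (iota i
      (ten (t.e x) (fderiv ℝ (EXO.prim i α u) x (ee a)) + ten (t.b x (ee a))
        (EXO.prim i α u x))) := by
    unfold Tw.d EXO.So
    refine sum_congr rfl fun a _ => ?_
    rw [fderiv_clm_const _ hpd, ten_iota, ten_iota, ← map_add (iota i)]
  have e2 : EXO.So i α (t.d u) x = ∑ a, iota i (eps a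
      (ten (t.e x) (EXO.prim i α (fun y => fderiv ℝ u y (ee a)) x) + ten (t.b x (ee a))
        (EXO.prim i α u x))) := by
    have e3 : EXO.prim i α (t.d u) x = ∑ a, eps a
      (ten (t.e x) (EXO.prim i α (fun y => fderiv ℝ u y (ee a)) x) + ten (t.b x (ee a))
        (EXO.prim i α u x)) := by
      have e4 : t.d u = fun y => ∑ a, eps a (ten (t.e y) (fderiv ℝ u y (ee a)) +
        ten (t.b y (ee a)) (u y)) := rfl
      have hc3 : ∀ a, ContinuousOn (fun y => ten (t.e y) (fderiv ℝ u y (ee a)) +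
        ten (t.b y (ee a)) (u y)) D := fun a => (hc1 a).add (hc2 a)
      have e5 := prim_sum (h := fun (a : Fin m) y => eps a (ten (t.e y) (fderiv ℝ u y (ee a)) +
        ten (t.b y (ee a)) (u y))) univ hs (fun a _ =>
        (eps a : HF m κ →L[ℂ] HF m κ).continuous.comp_continuousOn (hc3 a)) hx
      rw [e4, e5]
      refine sum_congr rfl fun a _ => ?_
      rw [prim_clm _ hs (hc3 a) hx, prim_add hs (hc1 a) (hc2 a) hx,
        prim_ten hs (hcd a).continuousOn hx fun s hs' => ha.e_sgp hs hx hs',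
        prim_ten hs hcu hx fun s hs' => by rw [ha.b_sgp hs hx hs']]
    unfold EXO.So
    rw [e3, map_sum]
  rw [e1, e2, ← Finset.sum_add_distrib, Finset.sum_eq_single i]
  · have he : t.e x = t.e (sgp i α 0 x) := (ha.e_sgp hs hx ⟨le_rfl, zero_le_one⟩).symm
    have h1 : ten (t.e x) (u (sgp i α 0 x)) = u (sgp i α 0 x) := by rw [he, hu.2 _ h0]
    rw [fderiv_prim_self hD hs hu.1 hx, prim_fderiv_self hD hs hu.1 hx, ha.bi x hx, ten_zero,
      _root_.zero_apply, add_zero, add_zero, map_sub, h1, hu.2 x hx, map_sub, map_sub]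
    unfold EXO.Ro
    rw [← add_sub_assoc, eps_iota_self]
  · intro a _ hai
    rw [fderiv_prim_ne hai hD hs hu.1 hx, eps_iota_ne hai]
    exact neg_add_cancel _
  · intro h1
    exact absurd (mem_univ i) h1

/-- Restriction commutes with the derivative. -/
theorem Good.d_Ro (h : t.Good D) (ha : t.ActOn D i) (hs : SegC D i α) (hu : t.Sec D u)
    (hx : x ∈ D) : t.d (EXO.Ro i α u) x = EXO.Ro i α (t.d u) x := by
  have h0 : sgp i α 0 x ∈ D := hs.zero hx
  have h1 : EXO.Ro i α u = EXO.pull (fun y => sgp i α 0 y) u := funext fun y => Ro_eq_pull i α u y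
  rw [Ro_eq_pull, h1, ← d_pull t ((contDiff_sgp' i α 0).contDiffAt.of_le two_le_infty)
    (hu.diffAt h.isOpen h0)]
  refine d_congr ?_ ?_ (Filter.EventuallyEq.refl _ _)
  · exact (ha.e_sgp hs hx ⟨le_rfl, zero_le_one⟩).symm
  · ext1 v
    change t.b x v = t.b (sgp i α 0 x) (fderiv ℝ (fun y => sgp i α 0 y) x v)
    rw [ha.b_sgp hs hx ⟨le_rfl, zero_le_one⟩, fderiv_sgp_zero, prjI_apply, map_sub, map_smul,
      ha.bi x hx, smul_zero, sub_zero]

end Tw

/-! ## Elementary properties -/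

section

variable {D : Set (RE m)} {i : Fin m} {α β : ℝ} {u w : RE m → HF m κ} {x : RE m}

theorem iota_eps_iota (i : Fin m) (u : HF m κ) : iota i (eps i (iota i u)) = iota i u := by
  rw [iota_eps, if_pos rfl, iota_self, map_zero, sub_zero]

theorem iota_So (i : Fin m) (α : ℝ) (u : RE m → HF m κ) (x : RE m) :
    iota i (So i α u x) = 0 := iota_self _ _

theorem iota_Ro (i : Fin m) (α : ℝ) (u : RE m → HF m κ) (x : RE m) :
    iota i (Ro i α u x) = 0 := iota_self _ _

theorem Ro_translate (i : Fin m) (α r : ℝ) (u : RE m → HF m κ) (x : RE m) :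
    Ro i α u (x + r • ee i) = Ro i α u x := by
  unfold Ro
  rw [sgp_add]

theorem Ro_Ro (i : Fin m) (α β : ℝ) (u : RE m → HF m κ) (x : RE m) :
    Ro i α (Ro i β u) x = Ro i β u x := by
  unfold Ro
  rw [sgp_zero_sgp, iota_eps_iota]

theorem Ro_eq_zero (h : u (sgp i α 0 x) = 0) : Ro i α u x = 0 := by
  unfold Ro
  rw [h, map_zero, map_zero]

theorem Ro_congr (h : u (sgp i α 0 x) = w (sgp i α 0 x)) : Ro i α u x = Ro i α w x := by
  unfold Ro
  rw [h]

theorem So_congr (h : ∀ s ∈ Set.Icc (0 : ℝ) 1, u (sgp i α s x) = w (sgp i α s x)) :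
    So i α u x = So i α w x := by
  unfold So
  rw [prim_congr h]

theorem So_eq_zero (h : ∀ s ∈ Set.Icc (0 : ℝ) 1, u (sgp i α s x) = 0) : So i α u x = 0 := by
  unfold So
  rw [prim_zero h, map_zero]

theorem dg_So (hs : SegC D i α) (hu : ContinuousOn u D) (hx : x ∈ D) (j : ℕ) :
    dg j (So i α u x) = So i α (fun y => dg (j + 1) (u y)) x := by
  unfold So
  rw [dg_iota, prim_clm _ hs hu hx]

theorem dg_Ro (j : ℕ) : dg j (Ro i α u x) = Ro i α (fun y => dg j (u y)) x := by
  unfold Ro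
  rw [dg_iota, dg_eps]

theorem So_sub_So (hD : InvC D i) (hu : ContinuousOn u D) (hx : x ∈ D) :
    So i α u x - So i α u (sgp i β 0 x) = So i β u x := by
  unfold So
  rw [← map_sub, prim_sub_prim hD hu hx]

/-! ## The fibre integral in one coordinate -/

/-- The integral of `iota i u` over `[lo, hi]` in the coordinate `i`. -/
noncomputable def Fi (i : Fin m) (lo hi : ℝ) (u : RE m → HF m κ) (x : RE m) : HF m κ :=
  So i lo u (sgp i hi 0 x)

theorem Fi_eq_Ro (i : Fin m) (lo hi : ℝ) (u : RE m → HF m κ) (x : RE m) :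
    Fi i lo hi u x = Ro i hi (So i lo u) x := by
  unfold Fi Ro So
  rw [iota_eps_iota]

theorem Fi_eq_integral (i : Fin m) (lo hi : ℝ) (u : RE m → HF m κ) (x : RE m) :
    Fi i lo hi u x = iota i (∫ r in lo..hi, u (x + (r - x i) • ee i)) := by
  unfold Fi So
  congr 1
  have h1 : sgp i hi 0 x = x + (hi - x i) • ee i := by
    unfold sgp
    congr 2
    ring
  rw [h1, prim_translate]
  congr 1
  ring

theorem Fi_translate (i : Fin m) (lo hi r : ℝ) (u : RE m → HF m κ) (x : RE m) :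
    Fi i lo hi u (x + r • ee i) = Fi i lo hi u x := by
  unfold Fi
  rw [sgp_add]

theorem iota_Fi (i : Fin m) (lo hi : ℝ) (u : RE m → HF m κ) (x : RE m) :
    iota i (Fi i lo hi u x) = 0 := iota_self _ _

theorem Fi_congr {lo hi : ℝ} (h : ∀ r : ℝ, u (x + r • ee i) = w (x + r • ee i)) :
    Fi i lo hi u x = Fi i lo hi w x := by
  rw [Fi_eq_integral, Fi_eq_integral]
  congr 1
  exact intervalIntegral.integral_congr fun r _ => h _

theorem Fi_eq_zero {lo hi : ℝ} (h : ∀ r : ℝ, u (x + r • ee i) = 0) :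
    Fi i lo hi u x = 0 := by
  have h1 : Fi i lo hi u x = Fi i lo hi (fun _ => (0 : HF m κ)) x := Fi_congr h
  rw [h1, Fi_eq_integral]
  simp

theorem dg_Fi {lo hi : ℝ} (hs : InvC D i) (hu : ContinuousOn u D) (hx : x ∈ D) (j : ℕ) :
    dg j (Fi i lo hi u x) = Fi i lo hi (fun y => dg (j + 1) (u y)) x :=
  dg_So (hs.seg lo) hu (hs.sgp hx hi 0) j

end

namespace Tw

variable {t : Tw m κ} {D : Set (RE m)} {i : Fin m} {lo hi : ℝ} {u w : RE m → HF m κ} {x : RE m}

theorem Sec.Fi (hu : t.Sec D u) (hD : IsOpen D) (ha : t.ActOn D i) (hs : InvC D i) :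
    t.Sec D (EXO.Fi i lo hi u) := by
  have h1 : EXO.Fi i lo hi u = EXO.Ro i hi (EXO.So i lo u) :=
    funext fun x => Fi_eq_Ro i lo hi u x
  rw [h1]
  exact (hu.So hD ha (hs.seg lo)).Ro ha (hs.seg hi)

/-- The derivative of the fibre integral. -/
theorem Good.d_Fi (h : t.Good D) (ha : t.ActOn D i) (hs : InvC D i) (hu : t.Sec D u)
    (h0 : ∀ x ∈ D, x i = lo → u x = 0) (h1 : ∀ x ∈ D, x i = hi → u x = 0) (hx : x ∈ D) :
    t.d (EXO.Fi i lo hi u) x = - EXO.Fi i lo hi (t.d u) x := by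
  have hD := h.isOpen
  have e1 : EXO.Fi i lo hi u = EXO.Ro i hi (EXO.So i lo u) :=
    funext fun x => Fi_eq_Ro i lo hi u x
  have hSo := hu.So hD ha (hs.seg lo)
  rw [e1, h.d_Ro ha (hs.seg hi) hSo hx]
  have hz : sgp i hi 0 x ∈ D := hs.sgp hx hi 0
  have e2 : EXO.Ro i hi (t.d (EXO.So i lo u)) x =
      EXO.Ro i hi (fun y => - EXO.So i lo (t.d u) y) x := by
    refine Ro_congr ?_
    have e3 := h.d_So ha (hs.seg lo) hu hz
    have e4 : EXO.Ro i lo u (sgp i hi 0 x) = 0 := by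
      refine Ro_eq_zero (h0 _ (hs.sgp hz lo 0) ?_)
      rw [sgp_self]
      ring
    have e5 : u (sgp i hi 0 x) = 0 := by
      refine h1 _ hz ?_
      rw [sgp_self]
      ring
    rw [e4, e5, sub_zero] at e3
    exact eq_neg_of_add_eq_zero_left e3
  rw [e2, Fi_eq_Ro]
  unfold EXO.Ro
  rw [map_neg, map_neg]

end Tw

end Pool.Agent.EXO
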