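import Mathlib
import Pool.Agent.EXO.FmS

/-!
# EXO / FmP3: the Poincare lemma with compact supports in some directions

`L` is a list of active directions, `D` is invariant under translations in these directions, `w` is a
closed form with values in the bundle which vanishes for `x_i ≤ lo i` and for `hi i ≤ x_i`
(`i ∈ L`), of degree `k ≤ |L|`; for `k = |L|` the iterated fibre integral of `w` has to vanish.
-/

set_option autoImplicit false
set_option maxSynthPendingDepth 3

namespace Pool.Agent.EXO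

open Finset
open scoped ContDiff

variable {m k l : ℕ} {κ : Type*} [Fintype κ]

/-- The iterated fibre integral. -/
noncomputable def fibL (lo hi : Fin m → ℝ) : List (Fin m) → (RE m → HF m κ) → RE m → HF m κ
  | [], w => w
  | i :: L, w => fibL lo hi L (Fi i (lo i) (hi i) w)

/-- `w` vanishes on `D` outside of the box. -/
def Box (D : Set (RE m)) (lo hi : Fin m → ℝ) (L : List (Fin m)) (w : RE m → HF m κ) : Prop :=
  ∀ x ∈ D, ∀ i ∈ L, (x i ≤ lo i ∨ hi i ≤ x i) → w x = 0

/-- `β` vanishes at `x` if `w` vanishes on the fibre through `x`. -/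
def Loc (D : Set (RE m)) (L : List (Fin m)) (w β : RE m → HF m κ) : Prop :=
  ∀ x ∈ D, (∀ z ∈ D, (∀ a, a ∉ L → z a = x a) → w z = 0) → β x = 0

theorem exists_step {lo hi : ℝ} (h : lo < hi) : ∃ θ : ℝ → ℝ, ContDiff ℝ ∞ θ ∧
    (∀ r, r ≤ lo → θ r = 0 ∧ deriv θ r = 0) ∧ (∀ r, hi ≤ r → θ r = 1 ∧ deriv θ r = 0) := by
  have hd : 0 < hi - lo := sub_pos.2 h
  have hz : ∀ r, r < lo + (hi - lo) / 3 →
      Real.smoothTransition (3 * ((r - lo) / (hi - lo)) - 1) = 0 := by
    intro r hr
    refine Real.smoothTransition.zero_of_nonpos ?_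
    have : (r - lo) / (hi - lo) < 1 / 3 := by
      rw [div_lt_iff₀ hd]
      linarith
    linarith
  have ho : ∀ r, hi - (hi - lo) / 3 < r →
      Real.smoothTransition (3 * ((r - lo) / (hi - lo)) - 1) = 1 := by
    intro r hr
    refine Real.smoothTransition.one_of_one_le ?_
    have : 2 / 3 < (r - lo) / (hi - lo) := by
      rw [lt_div_iff₀ hd]
      linarith
    linarith
  refine ⟨fun r => Real.smoothTransition (3 * ((r - lo) / (hi - lo)) - 1), ?_, ?_, ?_⟩
  · exact Real.smoothTransition.contDiff.comp (by fun_prop)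
  · intro r hr
    refine ⟨hz r (by linarith), ?_⟩
    have h1 : (fun r => Real.smoothTransition (3 * ((r - lo) / (hi - lo)) - 1)) =ᶠ[nhds r]
        fun _ => 0 := by
      filter_upwards [Iio_mem_nhds (show r < lo + (hi - lo) / 3 by linarith)] with y hy
      exact hz y hy
    rw [h1.deriv_eq, deriv_const]
  · intro r hr
    refine ⟨ho r (by linarith), ?_⟩
    have h1 : (fun r => Real.smoothTransition (3 * ((r - lo) / (hi - lo)) - 1)) =ᶠ[nhds r]
        fun _ => 1 := by
      filter_upwards [Ioi_mem_nhds (show hi - (hi - lo) / 3 < r by linarith)] with y hy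
      exact ho y hy
    rw [h1.deriv_eq, deriv_const]

theorem iota_eq_zero_of_deg {u : HF m κ} (hu : dg 0 u = u) (a : Fin m) : iota a u = 0 := by
  rw [← sum_dg (iota a u)]
  refine sum_eq_zero fun j _ => ?_
  rw [dg_iota, ← hu, dg_dg, if_neg (Nat.succ_ne_zero j), map_zero]

namespace Tw

variable {t : Tw m κ} {D : Set (RE m)} {i : Fin m} {lo hi : Fin m → ℝ} {u w : RE m → HF m κ}
  {x : RE m}

theorem d_csmul {f : ℝ → ℝ} (hf : DifferentiableAt ℝ f (x i)) (hu : DifferentiableAt ℝ u x)
    (hs : ten (t.e x) (u x) = u x) :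
    t.d (fun y => f (y i) • u y) x = f (x i) • t.d u x + deriv f (x i) • eps i (u x) := by
  have h1 : HasFDerivAt (fun y : RE m => f (crd i y)) ((deriv f (x i)) • crd i) x :=
    hf.hasDerivAt.comp_hasFDerivAt x (crd i).hasFDerivAt
  have h2 := t.d_fsmul h1.differentiableAt hu hs
  have h3 : ∑ a, (fderiv ℝ (fun y : RE m => f (crd i y)) x (ee a)) • eps a (u x) =
      deriv f (x i) • eps i (u x) := by
    rw [h1.fderiv, Finset.sum_eq_single i]
    · rw [_root_.smul_apply, crd_ee, if_pos rfl, smul_eq_mul, mul_one]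
    · intro a _ ha
      rw [_root_.smul_apply, crd_ee, if_neg ha, smul_eq_mul, mul_zero, zero_smul]
    · intro h
      exact absurd (mem_univ i) h
  rw [h3] at h2
  exact h2

theorem d_eq_zero (hD : IsOpen D) (hu : ∀ x ∈ D, u x = 0) (hx : x ∈ D) : t.d u x = 0 := by
  have h : u =ᶠ[nhds x] fun _ => 0 := by
    filter_upwards [hD.mem_nhds hx] with y hy
    exact hu y hy
  rw [d_congr (t' := t) rfl rfl h, d_zero]

/-- The primitive of a closed form which vanishes for `x_i ≤ lo`. -/
theorem Good.d_So_closed (h : t.Good D) (ha : t.ActOn D i) (hs : InvC D i) (hw : t.Sec D w)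
    (hc : ∀ x ∈ D, t.d w x = 0) {c : ℝ} (h0 : ∀ x ∈ D, x i = c → w x = 0) (hx : x ∈ D) :
    t.d (So i c w) x = w x := by
  have h1 := h.d_So ha (hs.seg c) hw hx
  have h2 : So i c (t.d w) x = 0 := So_eq_zero fun s _ => hc _ (hs.sgp hx c s)
  have h3 : Ro i c w x = 0 := by
    refine Ro_eq_zero (h0 _ (hs.sgp hx c 0) ?_)
    rw [sgp_self]
    ring
  rwa [h2, h3, add_zero, sub_zero] at h1

theorem Good.d_Fi_closed (h : t.Good D) (ha : t.ActOn D i) (hs : InvC D i) (hw : t.Sec D w)
    (hc : ∀ x ∈ D, t.d w x = 0) {c d : ℝ} (h0 : ∀ x ∈ D, x i = c → w x = 0)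
    (h1 : ∀ x ∈ D, x i = d → w x = 0) (hx : x ∈ D) : t.d (Fi i c d w) x = 0 := by
  rw [h.d_Fi ha hs hw h0 h1 hx, Fi_eq_zero fun r => hc _ (hs x hx r), neg_zero]

theorem P3_aux (h : t.Good D) (hlh : ∀ i, lo i < hi i) : ∀ (L : List (Fin m)), L.Nodup →
    (∀ i ∈ L, InvC D i) → (∀ i ∈ L, t.ActOn D i) → ∀ (k : ℕ) (w : RE m → HF m κ), t.Sec D w →
    (∀ x ∈ D, t.d w x = 0) → (∀ x ∈ D, dg k (w x) = w x) → Box D lo hi L w → k ≤ L.length →
    (k = L.length → ∀ x ∈ D, fibL lo hi L w x = 0) →
    ∃ β, t.Sec D β ∧ Box D lo hi L β ∧ (∀ x ∈ D, t.d β x = w x) ∧ Loc D L w β := by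
  have hD := h.isOpen
  intro L
  induction L with
  | nil =>
    intro _ _ _ k w hw hc hk hb hkl hf
    have hk0 : k = 0 := by simpa using hkl
    have hw0 : ∀ x ∈ D, w x = 0 := hf hk0
    refine ⟨fun _ => 0, Sec.zero, fun _ _ _ _ _ => rfl, fun x hx => ?_, fun _ _ _ => rfl⟩
    rw [d_zero, hw0 x hx]
  | cons i L ih =>
    intro hL hI hA k w hw hc hk hb hkl hf
    have hiI : InvC D i := hI i (by simp)
    have hiA : t.ActOn D i := hA i (by simp)
    have hiL : i ∉ L := (List.nodup_cons.1 hL).1
    have hlo : ∀ x ∈ D, x i = lo i → w x = 0 := fun x hx hxi => hb x hx i (by simp) (Or.inl hxi.le)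
    have hhi : ∀ x ∈ D, x i = hi i → w x = 0 := fun x hx hxi => hb x hx i (by simp) (Or.inr hxi.ge)
    have hd1 : ∀ x ∈ D, t.d (So i (lo i) w) x = w x := fun x hx =>
      h.d_So_closed hiA hiI hw hc hlo hx
    rcases k with _ | k
    · have hw0 : ∀ x ∈ D, w x = 0 := by
        intro x hx
        rw [← hd1 x hx]
        refine d_eq_zero hD (fun y hy => ?_) hx
        unfold So
        rw [← prim_clm _ (hiI.seg _) hw.1.continuousOn hy]
        exact prim_zero fun s _ => iota_eq_zero_of_deg (hk _ (hiI.sgp hy _ s)) i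
      refine ⟨fun _ => 0, Sec.zero, fun _ _ _ _ _ => rfl, fun x hx => ?_, fun _ _ _ => rfl⟩
      rw [d_zero, hw0 x hx]
    · -- the fibre integral in the direction `i`
      have hwF : t.Sec D (Fi i (lo i) (hi i) w) := hw.Fi hD hiA hiI
      have hcF : ∀ x ∈ D, t.d (Fi i (lo i) (hi i) w) x = 0 := fun x hx =>
        h.d_Fi_closed hiA hiI hw hc hlo hhi hx
      have hkF : ∀ x ∈ D, dg k (Fi i (lo i) (hi i) w x) = Fi i (lo i) (hi i) w x := by
        intro x hx
        rw [dg_Fi hiI hw.1.continuousOn hx]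
        exact Fi_congr fun r => hk _ (hiI x hx r)
      have hbF : Box D lo hi L (Fi i (lo i) (hi i) w) := by
        intro x hx j hj hxj
        have hji : j ≠ i := fun h => hiL (h ▸ hj)
        refine Fi_eq_zero fun r => hb _ (hiI x hx r) j (by simp [hj]) ?_
        rwa [add_smul_apply_ne x r hji]
      have hkl' : k ≤ L.length := by simpa using hkl
      have hfF : k = L.length → ∀ x ∈ D, fibL lo hi L (Fi i (lo i) (hi i) w) x = 0 := by
        intro h1
        exact hf (by simp [h1])
      obtain ⟨η, hηs, hηb, hηd, hηl⟩ := ih (List.nodup_cons.1 hL).2 (fun j hj => hI j (by simp [hj]))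
        (fun j hj => hA j (by simp [hj])) k _ hwF hcF hkF hbF hkl' hfF
      obtain ⟨θ, hθ, hθl, hθh⟩ := exists_step (hlh i)
      have hθ' : ContDiff ℝ ∞ (deriv θ) := (contDiff_infty_iff_deriv.1 hθ).2
      have hS : t.Sec D (So i (lo i) w) := hw.So hD hiA (hiI.seg _)
      have hc1 : ContDiffOn ℝ ∞ (fun x : RE m => θ (x i)) D :=
        (hθ.comp (crd i).contDiff).contDiffOn
      have hc2 : ContDiffOn ℝ ∞ (fun x : RE m => deriv θ (x i)) D :=
        (hθ'.comp (crd i).contDiff).contDiffOn
      have hA1 : t.Sec D fun x => deriv θ (x i) • eps i (η x) := (hηs.eps i).fsmul hc2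
      have hA2 : t.Sec D fun x => θ (x i) • Fi i (lo i) (hi i) w x := hwF.fsmul hc1
      refine ⟨fun x => So i (lo i) w x - deriv θ (x i) • eps i (η x) -
        θ (x i) • Fi i (lo i) (hi i) w x, (hS.sub hA1).sub hA2, ?_, ?_, ?_⟩
      · intro x hx j hj hxj
        rcases List.mem_cons.1 hj with rfl | hj'
        · rcases hxj with hxj | hxj
          · have h1 : So j (lo j) w x = 0 := by
              refine So_eq_zero fun s hs => ?_
              refine hb _ (hiI.sgp hx _ s) j (by simp) (Or.inl ?_)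
              rw [sgp_self]
              nlinarith [hs.1]
            beta_reduce
            rw [h1, (hθl _ hxj).1, (hθl _ hxj).2]
            simp
          · have h1 : So j (hi j) w x = 0 := by
              refine So_eq_zero fun s hs => ?_
              refine hb _ (hiI.sgp hx _ s) j (by simp) (Or.inr ?_)
              rw [sgp_self]
              nlinarith [hs.1]
            have h2 := So_sub_So (α := lo j) (β := hi j) hiI hw.1.continuousOn hx
            rw [h1] at h2
            beta_reduce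
            rw [(hθh _ hxj).1, (hθh _ hxj).2, zero_smul, sub_zero, one_smul]
            exact h2
        · have hji : j ≠ i := fun h => hiL (h ▸ hj')
          have h1 : So i (lo i) w x = 0 := by
            refine So_eq_zero fun s hs => ?_
            refine hb _ (hiI.sgp hx _ s) j (by simp [hj']) ?_
            rwa [sgp_ne hji]
          beta_reduce
          rw [h1, hηb x hx j hj' hxj, hbF x hx j hj' hxj]
          simp
      · intro x hx
        have g1 : DifferentiableAt ℝ (fun x => deriv θ (x i) • eps i (η x)) x := hA1.diffAt hD hx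
        have g2 : DifferentiableAt ℝ (fun x => θ (x i) • Fi i (lo i) (hi i) w x) x :=
          hA2.diffAt hD hx
        rw [t.d_sub ((hS.sub hA1).diffAt hD hx) g2, t.d_sub (hS.diffAt hD hx) g1, hd1 x hx,
          d_csmul (hθ'.contDiffAt.differentiableAt (by simp)) ((hηs.eps i).diffAt hD hx)
            ((hηs.eps i).2 x hx),
          d_csmul (hθ.contDiffAt.differentiableAt (by simp)) (hwF.diffAt hD hx) (hwF.2 x hx),
          d_eps i (hηs.diffAt hD hx), hηd x hx, hcF x hx, eps_self]
        simp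
      · intro x hx hz
        have h1 : So i (lo i) w x = 0 := by
          refine So_eq_zero fun s _ => hz _ (hiI.sgp hx _ s) fun a ha => ?_
          exact sgp_ne (fun h => ha (by simp [h])) _ _ _
        have h2 : ∀ z ∈ D, (∀ a, a ∉ L → z a = x a) → Fi i (lo i) (hi i) w z = 0 := by
          intro z hzD hza
          refine Fi_eq_zero fun r => hz _ (hiI z hzD r) fun a ha => ?_
          have hai : a ≠ i := fun h => ha (by simp [h])
          rw [add_smul_apply_ne z r hai]
          exact hza a fun h => ha (by simp [h])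
        beta_reduce
        rw [h1, hηl x hx h2, h2 x hx fun _ _ => rfl]
        simp

/-- The Poincare lemma with compact supports in the directions `L`. -/
theorem P3 (h : t.Good D) (hlh : ∀ i, lo i < hi i) (L : List (Fin m)) (hL : L.Nodup)
    (hI : ∀ i ∈ L, InvC D i) (hA : ∀ i ∈ L, t.ActOn D i) {k : ℕ} (hw : t.Sec D w)
    (hc : ∀ x ∈ D, t.d w x = 0) (hk : ∀ x ∈ D, dg k (w x) = w x) (hb : Box D lo hi L w)
    (hkl : k ≤ L.length) (hf : k = L.length → ∀ x ∈ D, fibL lo hi L w x = 0) :
    ∃ β, t.Sec D β ∧ Box D lo hi L β ∧ (∀ x ∈ D, t.d β x = w x) ∧ Loc D L w β ∧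
      ∀ j, k = j + 1 → ∀ x, dg j (β x) = β x := by
  obtain ⟨β, hβs, hβb, hβd, hβl⟩ := P3_aux h hlh L hL hI hA k w hw hc hk hb hkl hf
  rcases k with _ | j
  · exact ⟨β, hβs, hβb, hβd, hβl, fun j hj => absurd hj (Nat.succ_ne_zero j).symm⟩
  · refine ⟨fun x => dg j (β x), hβs.dg j, ?_, ?_, ?_, ?_⟩
    · intro x hx i hi hxi
      beta_reduce
      rw [hβb x hx i hi hxi, map_zero]
    · intro x hx
      rw [← t.dg_d (hβs.diffAt h.isOpen hx), hβd x hx, hk x hx]
    · intro x hx hz
      beta_reduce
      rw [hβl x hx hz, map_zero]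
    · intro j' hj' x
      obtain rfl : j = j' := by simpa using hj'
      rw [dg_dg, if_pos rfl]

end Tw

/-! ## Properties of the fibre integral -/

section

variable {D : Set (RE m)} {lo hi : Fin m → ℝ} {L : List (Fin m)} {v w : RE m → HF m κ} {x : RE m}

theorem Box.Fi {i : Fin m} (hI : InvC D i) (hi' : i ∉ L) (hb : Box D lo hi (i :: L) w) :
    Box D lo hi L (EXO.Fi i (lo i) (hi i) w) := by
  intro x hx j hj hxj
  have hji : j ≠ i := fun h => hi' (h ▸ hj)
  refine Fi_eq_zero fun r => hb _ (hI x hx r) j (by simp [hj]) ?_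
  rwa [add_smul_apply_ne x r hji]

theorem fibL_congr (hI : ∀ i ∈ L, InvC D i) (h : ∀ x ∈ D, v x = w x) (hx : x ∈ D) :
    fibL lo hi L v x = fibL lo hi L w x := by
  induction L generalizing v w with
  | nil => exact h x hx
  | cons i L ih =>
    refine ih (fun j hj => hI j (by simp [hj])) fun y hy => ?_
    exact Fi_congr fun r => h _ (hI i (by simp) y hy r)

theorem fibL_loc (hI : ∀ i ∈ L, InvC D i) : Loc D L w (fibL lo hi L w) := by
  induction L generalizing w with
  | nil =>
    intro x hx hz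
    exact hz x hx fun _ _ => rfl
  | cons i L ih =>
    intro x hx hz
    refine ih (fun j hj => hI j (by simp [hj])) x hx fun z hzD hza => ?_
    refine Fi_eq_zero fun r => hz _ (hI i (by simp) z hzD r) fun a ha => ?_
    have hai : a ≠ i := fun h => ha (by simp [h])
    rw [add_smul_apply_ne z r hai]
    exact hza a fun h => ha (by simp [h])

theorem Fi_inv {i j : Fin m} {lo' hi' : ℝ} (h : ∀ (x : RE m) (r : ℝ), w (x + r • ee j) = w x)
    (x : RE m) (r : ℝ) : Fi i lo' hi' w (x + r • ee j) = Fi i lo' hi' w x := by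
  by_cases hij : i = j
  · subst hij
    exact Fi_translate _ _ _ _ _ _
  · rw [Fi_eq_integral, Fi_eq_integral, add_smul_apply_ne x r hij]
    congr 1
    refine intervalIntegral.integral_congr fun s _ => ?_
    rw [add_right_comm]
    exact h _ _

theorem fibL_inv_of {j : Fin m} (h : ∀ (x : RE m) (r : ℝ), w (x + r • ee j) = w x)
    (x : RE m) (r : ℝ) : fibL lo hi L w (x + r • ee j) = fibL lo hi L w x := by
  induction L generalizing w with
  | nil => exact h x r
  | cons i L ih => exact ih (fun x r => Fi_inv h x r)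

theorem fibL_translate {j : Fin m} (hj : j ∈ L) (x : RE m) (r : ℝ) :
    fibL lo hi L w (x + r • ee j) = fibL lo hi L w x := by
  induction L generalizing w with
  | nil => exact absurd hj (by simp)
  | cons i L ih =>
    rcases List.mem_cons.1 hj with rfl | hj'
    · exact fibL_inv_of (fun x r => Fi_translate _ _ _ _ _ _) x r
    · exact ih hj'

end

namespace Tw

variable {t : Tw m κ} {D : Set (RE m)} {lo hi : Fin m → ℝ} {L : List (Fin m)}
  {w : RE m → HF m κ} {x : RE m}

theorem Sec.fibL (hw : t.Sec D w) (hD : IsOpen D) (hI : ∀ i ∈ L, InvC D i)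
    (hA : ∀ i ∈ L, t.ActOn D i) : t.Sec D (fibL lo hi L w) := by
  induction L generalizing w with
  | nil => exact hw
  | cons i L ih =>
    exact ih (hw.Fi hD (hA i (by simp)) (hI i (by simp))) (fun j hj => hI j (by simp [hj]))
      fun j hj => hA j (by simp [hj])

theorem dg_fibL {k : ℕ} (hw : t.Sec D w) (hD : IsOpen D) (hI : ∀ i ∈ L, InvC D i)
    (hA : ∀ i ∈ L, t.ActOn D i) (hk : ∀ x ∈ D, dg (k + L.length) (w x) = w x) (hx : x ∈ D) :
    dg k (fibL lo hi L w x) = fibL lo hi L w x := by
  induction L generalizing w with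
  | nil => exact hk x hx
  | cons i L ih =>
    refine ih (hw.Fi hD (hA i (by simp)) (hI i (by simp))) (fun j hj => hI j (by simp [hj]))
      (fun j hj => hA j (by simp [hj])) fun y hy => ?_
    rw [dg_Fi (hI i (by simp)) hw.1.continuousOn hy]
    exact Fi_congr fun r => hk _ (hI i (by simp) y hy r)

theorem Good.d_fibL (h : t.Good D) (hL : L.Nodup) (hw : t.Sec D w)
    (hI : ∀ i ∈ L, InvC D i) (hA : ∀ i ∈ L, t.ActOn D i) (hc : ∀ x ∈ D, t.d w x = 0)
    (hb : Box D lo hi L w) (hx : x ∈ D) : t.d (EXO.fibL lo hi L w) x = 0 := by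
  induction L generalizing w with
  | nil => exact hc x hx
  | cons i L ih =>
    have hiI : InvC D i := hI i (by simp)
    have hiA : t.ActOn D i := hA i (by simp)
    have hlo : ∀ x ∈ D, x i = lo i → w x = 0 := fun x hx hxi => hb x hx i (by simp) (Or.inl hxi.le)
    have hhi : ∀ x ∈ D, x i = hi i → w x = 0 := fun x hx hxi => hb x hx i (by simp) (Or.inr hxi.ge)
    exact ih (List.nodup_cons.1 hL).2 (hw.Fi h.isOpen hiA hiI) (fun j hj => hI j (by simp [hj]))
      (fun j hj => hA j (by simp [hj])) (fun y hy => h.d_Fi_closed hiA hiI hw hc hlo hhi hy)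
      (hb.Fi hiI (List.nodup_cons.1 hL).1)

end Tw

end Pool.Agent.EXO
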