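import Mathlib
import Pool.Agent.EXO.FmP3

/-!
# EXO / FmP4: the cone lemma in several directions, naturality of the fibre integral

`D` closed under moving `x_i` towards `α i` for `i ∈ L`: a closed form `w` is
`t.d β + pull (mvL α L) w` on `D`, where `mvL α L` replaces `x_i` by `α i` for `i ∈ L`.
-/

set_option autoImplicit false
set_option maxSynthPendingDepth 3

namespace Pool.Agent.EXO

open Finset
open scoped ContDiff

variable {m k l : ℕ} {κ : Type*} [Fintype κ]

/-- Replace the coordinates in `L` by those of `α`. -/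
noncomputable def mvL (α : Fin m → ℝ) (L : List (Fin m)) (x : RE m) : RE m :=
  WithLp.toLp 2 fun a => if a ∈ L then α a else x a

theorem mvL_apply (α : Fin m → ℝ) (L : List (Fin m)) (x : RE m) (a : Fin m) :
    (mvL α L x) a = if a ∈ L then α a else x a := rfl

theorem mvL_nil (α : Fin m → ℝ) (x : RE m) : mvL α [] x = x := by
  ext a
  simp [mvL_apply]

theorem mvL_cons (α : Fin m → ℝ) (i : Fin m) (L : List (Fin m)) (x : RE m) :
    mvL α (i :: L) x = sgp i (α i) 0 (mvL α L x) := by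
  ext a
  by_cases h : a = i
  · subst h
    rw [sgp_self, mvL_apply, if_pos (by simp)]
    ring
  · rw [sgp_ne h, mvL_apply, mvL_apply]
    simp [h]

theorem contDiff_mvL (α : Fin m → ℝ) (L : List (Fin m)) : ContDiff ℝ ∞ (mvL α L) := by
  induction L with
  | nil =>
    have h : mvL α [] = fun x => x := funext fun x => mvL_nil α x
    rw [h]
    exact contDiff_id
  | cons i L ih =>
    have h : mvL α (i :: L) = fun x => sgp i (α i) 0 (mvL α L x) :=
      funext fun x => mvL_cons α i L x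
    rw [h]
    exact (contDiff_sgp' i (α i) 0).comp ih

theorem mvL_mem {D : Set (RE m)} {α : Fin m → ℝ} {L : List (Fin m)}
    (hs : ∀ i ∈ L, SegC D i (α i)) {x : RE m} (hx : x ∈ D) : mvL α L x ∈ D := by
  induction L with
  | nil => rwa [mvL_nil]
  | cons i L ih =>
    rw [mvL_cons]
    exact (hs i (by simp)).zero (ih fun j hj => hs j (by simp [hj]))

theorem pull_mvL_cons (α : Fin m → ℝ) (i : Fin m) (L : List (Fin m)) (w : RE m → HF m κ)
    (x : RE m) : pull (mvL α (i :: L)) w x = pull (mvL α L) (Ro i (α i) w) x := by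
  have h : mvL α (i :: L) = (fun y => sgp i (α i) 0 y) ∘ mvL α L :=
    funext fun x => mvL_cons α i L x
  have h1 : Ro i (α i) w = pull (fun y => sgp i (α i) 0 y) w :=
    funext fun y => Ro_eq_pull i (α i) w y
  have d1 : DifferentiableAt ℝ (fun y : RE m => sgp i (α i) 0 y) (mvL α L x) :=
    (contDiff_sgp' i (α i) 0).contDiffAt.differentiableAt (by simp)
  have d2 : DifferentiableAt ℝ (mvL α L) x :=
    (contDiff_mvL α L).contDiffAt.differentiableAt (by simp)
  rw [h1, h, pull_comp d1 d2]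

namespace Tw

variable {t : Tw m κ} {D : Set (RE m)} {i : Fin m} {α : Fin m → ℝ} {u w : RE m → HF m κ}
  {x : RE m}

theorem P4_aux (h : t.Good D) : ∀ (L : List (Fin m)), (∀ i ∈ L, SegC D i (α i)) →
    (∀ i ∈ L, t.ActOn D i) → ∀ (w : RE m → HF m κ), t.Sec D w → (∀ x ∈ D, t.d w x = 0) →
    ∃ β, t.Sec D β ∧ (∀ x ∈ D, t.d β x = w x - EXO.pull (mvL α L) w x) ∧ Loc D L w β := by
  have hD := h.isOpen
  intro L
  induction L with
  | nil =>
    intro _ _ w hw _
    refine ⟨fun _ => 0, Sec.zero, fun x hx => ?_, fun _ _ _ => rfl⟩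
    have h1 : mvL α [] = id := funext fun x => mvL_nil α x
    have h2 : EXO.pull (mvL α []) w x = w x := by
      rw [h1]
      unfold EXO.pull
      rw [fderiv_id, ContinuousLinearMap.adjoint_id, Lam_id]
      rfl
    rw [d_zero, h2, sub_self]
  | cons i L ih =>
    intro hs hA w hw hc
    have hsi := hs i (by simp)
    have hAi := hA i (by simp)
    have hR : t.Sec D (EXO.Ro i (α i) w) := hw.Ro hAi hsi
    have hcR : ∀ x ∈ D, t.d (EXO.Ro i (α i) w) x = 0 := by
      intro x hx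
      rw [h.d_Ro hAi hsi hw hx]
      exact Ro_eq_zero (hc _ (hsi.zero hx))
    obtain ⟨β, hβs, hβd, hβl⟩ := ih (fun j hj => hs j (by simp [hj]))
      (fun j hj => hA j (by simp [hj])) _ hR hcR
    have hS : t.Sec D (EXO.So i (α i) w) := hw.So hD hAi hsi
    refine ⟨fun x => EXO.So i (α i) w x + β x, hS.add hβs, fun x hx => ?_, fun x hx hz => ?_⟩
    · rw [t.d_add (hS.diffAt hD hx) (hβs.diffAt hD hx), hβd x hx, pull_mvL_cons]
      have h1 := h.d_So hAi hsi hw hx
      have h2 : EXO.So i (α i) (t.d w) x = 0 := So_eq_zero fun s hs' => hc _ (hsi x hx s hs')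
      rw [h2, add_zero] at h1
      rw [h1]
      abel
    · have h1 : EXO.So i (α i) w x = 0 := by
        refine So_eq_zero fun s hs' => hz _ (hsi x hx s hs') fun a ha => ?_
        exact sgp_ne (fun h => ha (by simp [h])) _ _ _
      have h2 : β x = 0 := by
        refine hβl x hx fun z hzD hza => Ro_eq_zero (hz _ (hsi.zero hzD) fun a ha => ?_)
        rw [sgp_ne fun h => ha (by simp [h])]
        exact hza a fun h => ha (by simp [h])
      beta_reduce
      rw [h1, h2, add_zero]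

/-- The cone lemma. -/
theorem P4 (h : t.Good D) (L : List (Fin m)) (hs : ∀ i ∈ L, SegC D i (α i))
    (hA : ∀ i ∈ L, t.ActOn D i) {k : ℕ} (hw : t.Sec D w) (hc : ∀ x ∈ D, t.d w x = 0)
    (hk : ∀ x ∈ D, dg k (w x) = w x) :
    ∃ β, t.Sec D β ∧ (∀ x ∈ D, t.d β x = w x - EXO.pull (mvL α L) w x) ∧ Loc D L w β ∧
      ∀ j, k = j + 1 → ∀ x, dg j (β x) = β x := by
  obtain ⟨β, hβs, hβd, hβl⟩ := P4_aux h L hs hA w hw hc
  rcases k with _ | j
  · exact ⟨β, hβs, hβd, hβl, fun j hj => absurd hj (Nat.succ_ne_zero j).symm⟩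
  · refine ⟨fun x => dg j (β x), hβs.dg j, ?_, ?_, ?_⟩
    · intro x hx
      have h1 : EXO.dg (j + 1) (EXO.pull (mvL α L) w x) = EXO.pull (mvL α L) w x := by
        unfold EXO.pull
        rw [← Lam_dg, hk _ (mvL_mem hs hx)]
      rw [← t.dg_d (hβs.diffAt h.isOpen hx), hβd x hx, map_sub, hk x hx, h1]
    · intro x hx hz
      beta_reduce
      rw [hβl x hx hz, map_zero]
    · intro j' hj' x
      obtain rfl : j = j' := by simpa using hj'
      rw [dg_dg, if_pos rfl]

end Tw

/-! ## Naturality -/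

/-- `G` maps the coordinate `j` to the coordinate `i` and is equivariant for translations. -/
structure Eqv (G : RE k → RE m) (D : Set (RE k)) (j : Fin k) (i : Fin m) : Prop where
  c : ∀ x ∈ D, (G x) i = x j
  t : ∀ x ∈ D, ∀ r : ℝ, x + r • ee j ∈ D → G (x + r • ee j) = G x + r • ee i

section

variable {G : RE k → RE m} {D : Set (RE k)} {D' : Set (RE m)} {j : Fin k} {i : Fin m} {x : RE k}
  {u : RE m → HF m κ} {α : ℝ}

theorem Eqv.sgp (hG : Eqv G D j i) (hs : SegC D j α) (hx : x ∈ D) {s : ℝ}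
    (hs' : s ∈ Set.Icc (0 : ℝ) 1) : G (sgp j α s x) = sgp i α s (G x) := by
  unfold EXO.sgp
  rw [hG.t x hx _ (hs x hx s hs'), hG.c x hx]

theorem Eqv.fderiv_ee (hG : Eqv G D j i) (hD : IsOpen D) (hx : x ∈ D)
    (hd : DifferentiableAt ℝ G x) : fderiv ℝ G x (ee j) = ee i := by
  have h2 : HasDerivAt (fun r : ℝ => x + r • ee j) (ee j) 0 := by
    simpa using ((hasDerivAt_id (0 : ℝ)).smul_const (ee j : RE k)).const_add x
  have h3 : HasFDerivAt G (fderiv ℝ G x) (x + (0 : ℝ) • ee j) := by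
    simpa using hd.hasFDerivAt
  have h4 := h3.comp_hasDerivAt 0 h2
  have h5 : (G ∘ fun r : ℝ => x + r • ee j) =ᶠ[nhds 0] fun r : ℝ => G x + r • ee i := by
    have hc : Continuous fun r : ℝ => x + r • ee j := by fun_prop
    have hm : (fun r : ℝ => x + r • ee j) ⁻¹' D ∈ nhds (0 : ℝ) :=
      (hD.preimage hc).mem_nhds (by simpa using hx)
    filter_upwards [hm] with r hr
    exact hG.t x hx r hr
  have h6 : HasDerivAt (fun r : ℝ => G x + r • ee i) (ee i) 0 := by
    simpa using ((hasDerivAt_id (0 : ℝ)).smul_const (ee i : RE m)).const_add (G x)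
  exact (h4.congr_of_eventuallyEq h5.symm).unique h6

theorem Eqv.fderiv_translate (hG : Eqv G D j i) (hD : IsOpen D) (hx : x ∈ D) {r : ℝ}
    (hxr : x + r • ee j ∈ D) (hd : DifferentiableAt ℝ G x)
    (hd' : DifferentiableAt ℝ G (x + r • ee j)) : fderiv ℝ G (x + r • ee j) = fderiv ℝ G x := by
  have h1 : HasFDerivAt (fun y => G (y + r • ee j)) (fderiv ℝ G (x + r • ee j)) x := by
    have h0 : HasFDerivAt (fun y : RE k => y + r • ee j) (ContinuousLinearMap.id ℝ (RE k)) x :=
      (hasFDerivAt_id x).add_const (r • ee j : RE k)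
    exact hd'.hasFDerivAt.comp x h0
  have h2 : HasFDerivAt (fun y => G y + r • ee i) (fderiv ℝ G x) x := hd.hasFDerivAt.add_const _
  have h3 : (fun y => G (y + r • ee j)) =ᶠ[nhds x] fun y => G y + r • ee i := by
    have hc : Continuous fun y : RE k => y + r • ee j := by fun_prop
    filter_upwards [hD.mem_nhds hx, (hD.preimage hc).mem_nhds hxr] with y hy hyr
    exact hG.t y hy r hyr
  exact (h1.congr_of_eventuallyEq h3.symm).unique h2

theorem Eqv.adjoint_ee (hG : Eqv G D j i) (hD : IsOpen D) (hx : x ∈ D)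
    (hd : DifferentiableAt ℝ G x) :
    ContinuousLinearMap.adjoint (fderiv ℝ G x) (ee i) = ee j := by
  have h1 : (crd i).comp (fderiv ℝ G x) = crd j := by
    have h2 : HasFDerivAt (fun y => crd i (G y)) ((crd i).comp (fderiv ℝ G x)) x :=
      (crd i).hasFDerivAt.comp x hd.hasFDerivAt
    have h3 : (fun y => crd i (G y)) =ᶠ[nhds x] fun y => crd j y := by
      filter_upwards [hD.mem_nhds hx] with y hy
      exact hG.c y hy
    exact (h2.congr_of_eventuallyEq h3.symm).unique (crd j).hasFDerivAt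
  refine ext_inner_left ℝ fun v => ?_
  rw [ContinuousLinearMap.adjoint_inner_right]
  have h4 := congrArg (fun T => T v) h1
  change (fderiv ℝ G x v) i = v j at h4
  simpa [ee, EuclideanSpace.inner_single_right] using h4

theorem So_pull (hG : Eqv G D j i) (hD : IsOpen D) (hs : SegC D j α) (hs' : SegC D' i α)
    (hd : ContDiffOn ℝ ∞ G D) (hm : ∀ x ∈ D, G x ∈ D') (hu : ContinuousOn u D') (hx : x ∈ D) :
    So j α (pull G u) x = pull G (So i α u) x := by
  have hda : ∀ x ∈ D, DifferentiableAt ℝ G x := fun x hx =>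
    (hd.contDiffAt (hD.mem_nhds hx)).differentiableAt (by simp)
  have h1 : prim j α (pull G u) x =
      Lam (ContinuousLinearMap.adjoint (fderiv ℝ G x)) (prim i α u (G x)) := by
    refine prim_map2 ((Lam (ContinuousLinearMap.adjoint (fderiv ℝ G x)) :
      HF m κ →L[ℂ] HF k κ).restrictScalars ℝ) hs' hu (hm x hx) (hG.c x hx).symm fun s hs'' => ?_
    unfold pull
    have h2 : fderiv ℝ G (sgp j α s x) = fderiv ℝ G x :=
      hG.fderiv_translate hD hx (hs x hx s hs'') (hda x hx) (hda _ (hs x hx s hs''))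
    rw [h2, hG.sgp hs hx hs'']
    rfl
  unfold So
  rw [h1]
  unfold pull
  rw [← iotav_ee, iotav_Lam, ContinuousLinearMap.adjoint_adjoint, hG.fderiv_ee hD hx (hda x hx),
    iotav_ee]

theorem Ro_pull (hG : Eqv G D j i) (hD : IsOpen D) (hs : SegC D j α)
    (hd : ContDiffOn ℝ ∞ G D) (hx : x ∈ D) :
    Ro j α (pull G u) x = pull G (Ro i α u) x := by
  have hda : ∀ x ∈ D, DifferentiableAt ℝ G x := fun x hx =>
    (hd.contDiffAt (hD.mem_nhds hx)).differentiableAt (by simp)
  have h0 : sgp j α 0 x ∈ D := hs.zero hx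
  have h2 : fderiv ℝ G (sgp j α 0 x) = fderiv ℝ G x :=
    hG.fderiv_translate hD hx h0 (hda x hx) (hda _ h0)
  unfold Ro pull
  rw [h2, hG.sgp hs hx ⟨le_rfl, zero_le_one⟩]
  have h3 := hG.adjoint_ee hD hx (hda x hx)
  have h4 : ∀ v : HF m κ, eps j (Lam (ContinuousLinearMap.adjoint (fderiv ℝ G x)) v) =
      Lam (ContinuousLinearMap.adjoint (fderiv ℝ G x)) (eps i v) := by
    intro v
    rw [Lam_eps, h3, epsv_ee]
  have h5 : ∀ v : HF m κ, iota j (Lam (ContinuousLinearMap.adjoint (fderiv ℝ G x)) v) =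
      Lam (ContinuousLinearMap.adjoint (fderiv ℝ G x)) (iota i v) := by
    intro v
    rw [← iotav_ee, iotav_Lam, ContinuousLinearMap.adjoint_adjoint, hG.fderiv_ee hD hx (hda x hx),
      iotav_ee]
  rw [h4, h5]

theorem Fi_pull (hG : Eqv G D j i) (hD : IsOpen D) (hs : InvC D j) (hs' : InvC D' i)
    (hd : ContDiffOn ℝ ∞ G D) (hm : ∀ x ∈ D, G x ∈ D') (hu : ContinuousOn u D') {lo hi : ℝ}
    (hx : x ∈ D) : Fi j lo hi (pull G u) x = pull G (Fi i lo hi u) x := by
  have h1 : ∀ x, Fi i lo hi u x = Ro i hi (So i lo u) x := fun x => Fi_eq_Ro _ _ _ _ _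
  have h2 : pull G (Fi i lo hi u) x = pull G (Ro i hi (So i lo u)) x := by
    unfold pull
    rw [h1]
  rw [h2, ← Ro_pull hG hD (hs.seg hi) hd hx, Fi_eq_Ro]
  exact Ro_congr (So_pull hG hD (hs.seg lo) (hs'.seg lo) hd hm hu (hs.sgp hx hi 0))

theorem continuousOn_So {D : Set (RE m)} {i : Fin m} {u : RE m → HF m κ} {α : ℝ} (hD : IsOpen D)
    (hs : SegC D i α) (hu : ContDiffOn ℝ ∞ u D) : ContDiffOn ℝ ∞ (So i α u) D :=
  contDiffOn_clm_const _ (contDiffOn_prim hD hs hu)

theorem contDiffOn_Fi {D : Set (RE m)} {i : Fin m} {u : RE m → HF m κ} {lo hi : ℝ} (hD : IsOpen D)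
    (hs : InvC D i) (hu : ContDiffOn ℝ ∞ u D) : ContDiffOn ℝ ∞ (Fi i lo hi u) D :=
  (continuousOn_So hD (hs.seg lo) hu).comp (contDiff_sgp' i hi 0).contDiffOn
    fun _ hx => hs.sgp hx hi 0

/-- Naturality of the iterated fibre integral. -/
theorem fibL_pull {G : RE k → RE m} {D : Set (RE k)} {D' : Set (RE m)} {φ : Fin k → Fin m}
    (hD : IsOpen D) (hD' : IsOpen D') (hd : ContDiffOn ℝ ∞ G D) (hm : ∀ x ∈ D, G x ∈ D')
    {lo hi : Fin m → ℝ} : ∀ {L : List (Fin k)} {u : RE m → HF m κ},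
    (∀ j ∈ L, Eqv G D j (φ j)) → (∀ j ∈ L, InvC D j) → (∀ j ∈ L, InvC D' (φ j)) →
    ContDiffOn ℝ ∞ u D' → ∀ {x : RE k}, x ∈ D →
    fibL (fun j => lo (φ j)) (fun j => hi (φ j)) L (pull G u) x =
      pull G (fibL lo hi (L.map φ) u) x := by
  intro L
  induction L with
  | nil =>
    intro u _ _ _ _ x _
    rfl
  | cons j L ih =>
    intro u hG hs hs' hu x hx
    have h1 := ih (u := Fi (φ j) (lo (φ j)) (hi (φ j)) u) (fun j hj => hG j (by simp [hj]))
      (fun j hj => hs j (by simp [hj])) (fun j hj => hs' j (by simp [hj]))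
      (contDiffOn_Fi hD' (hs' j (by simp)) hu) hx
    rw [List.map_cons]
    change fibL _ _ L (Fi j (lo (φ j)) (hi (φ j)) (pull G u)) x = _
    rw [fibL_congr (D := D) (fun j hj => hs j (by simp [hj])) (fun y hy =>
      Fi_pull (hG j (by simp)) hD (hs j (by simp)) (hs' j (by simp)) hd hm hu.continuousOn hy) hx]
    exact h1

end

end Pool.Agent.EXO
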