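import Mathlib
import Pool.Agent.EXO.FmP4
import Pool.Agent.EXO.CsOrth

/-!
# EXO / FmCh: scalar forms `FA m`: parity structure, Poincare lemmas, Stokes on `ℝ^m`
-/

set_option autoImplicit false
set_option maxSynthPendingDepth 3

namespace Pool.Agent.EXO

open Finset MeasureTheory
open scoped ContDiff

variable {m k l : ℕ}

/-! ## The parity automorphism -/

theorem par_co (u : FA m) (I : Finset (Fin m)) : (par u).co I = (-1) ^ I.card * u.co I := by
  have h1 : par u = ∑ j ∈ range (m + 1), ((-1 : ℂ) ^ j) • dgF j u := by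
    conv_lhs => rw [← sum_dgF u]
    rw [map_sum]
    exact sum_congr rfl fun j _ => par_dgF j u
  have hI : I.card < m + 1 := Nat.lt_succ_of_le (by simpa using card_le_univ I)
  rw [h1, co_sum, Finset.sum_eq_single I.card]
  · rw [FA.co_smul, dgF_co, if_pos rfl]
  · intro j _ hj
    rw [FA.co_smul, dgF_co, if_neg (Ne.symm hj), mul_zero]
  · intro h
    exact absurd (mem_range.2 hI) h

theorem dgF_of_par {x : FA m} {c : ℂ} (hx : par x = c • x) {j : ℕ} (hj : (-1 : ℂ) ^ j ≠ c) :
    dgF j x = 0 := by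
  refine FA.ext fun S => ?_
  rw [dgF_co, FA.co_zero]
  by_cases h : S.card = j
  · rw [if_pos h]
    have h1 := congrArg (fun y => FA.co y S) hx
    simp only [par_co, FA.co_smul, h] at h1
    by_contra h2
    exact hj (mul_right_cancel₀ h2 h1)
  · rw [if_neg h]

theorem odd_mul_odd {x y : FA m} (hx : par x = -x) (hy : par y = -y) : x * y = -(y * x) := by
  have hx' : par x = (-1 : ℂ) • x := by rw [hx, neg_one_smul]
  have hy' : par y = (-1 : ℂ) • y := by rw [hy, neg_one_smul]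
  have hev : ∀ j, Even j → ((-1 : ℂ)) ^ j ≠ -1 := by
    intro j hj
    rw [hj.neg_one_pow]
    norm_num
  have h1 : ∀ z : FA m, z = ∑ j ∈ range (m + 1), dgF j z := fun z => (sum_dgF z).symm
  have key : ∀ i j, dgF i x * dgF j y = -(dgF j y * dgF i x) := by
    intro i j
    rcases Nat.even_or_odd i with hi | hi
    · rw [dgF_of_par hx' (hev i hi), zero_mul, mul_zero, neg_zero]
    rcases Nat.even_or_odd j with hj | hj
    · rw [dgF_of_par hy' (hev j hj), zero_mul, mul_zero, neg_zero]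
    have h2 := mul_isDeg_comm (p := i) (q := j) (x := dgF i x) (y := dgF j y)
      (isDeg_iff.2 (by rw [dgF_dgF, if_pos rfl])) (isDeg_iff.2 (by rw [dgF_dgF, if_pos rfl]))
    rw [h2, (hi.mul hj).neg_one_pow, neg_one_smul]
  calc x * y = ∑ i ∈ range (m + 1), ∑ j ∈ range (m + 1), dgF i x * dgF j y := by
        conv_lhs => rw [h1 x, h1 y]
        rw [Finset.sum_mul]
        exact sum_congr rfl fun i _ => Finset.mul_sum _ _ _
    _ = ∑ i ∈ range (m + 1), ∑ j ∈ range (m + 1), -(dgF j y * dgF i x) :=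
        sum_congr rfl fun i _ => sum_congr rfl fun j _ => key i j
    _ = -(y * x) := by
        conv_rhs => rw [h1 x, h1 y]
        rw [Finset.sum_mul, ← Finset.sum_neg_distrib, Finset.sum_comm]
        refine sum_congr rfl fun j _ => ?_
        rw [Finset.mul_sum, ← Finset.sum_neg_distrib]

/-- The graded commutative structure of `FA m`. -/
noncomputable def faG (m : ℕ) : GrC (FA m) where
  σ := (par : FA m →ₐ[ℂ] FA m).toRingHom
  ss := par_par
  ev := fun _ y hx => even_mul hx y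
  od := fun _ _ hx hy => odd_mul_odd hx hy

theorem faG_σ (u : FA m) : (faG m).σ u = par u := rfl

theorem faG_co (u : FA m) (I : Finset (Fin m)) : ((faG m).σ u).co I = (-1) ^ I.card * u.co I :=
  par_co u I

/-! ## From `FA m` to `HF m Unit` and back -/

/-- The inverse of `toH` on functions. -/
noncomputable def frH (β : RE m → HF m Unit) (x : En m) : FA m := toH.symm (β x)

theorem toH_frH (β : RE m → HF m Unit) (x : En m) : toH (frH β x) = β x :=
  toH.apply_symm_apply _

theorem contDiffOn_frH {β : RE m → HF m Unit} {D : Set (En m)} {n : WithTop ℕ∞}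
    (hβ : ContDiffOn ℝ n β D) : ContDiffOn ℝ n (frH β) D :=
  (((toHL m).symm : HF m Unit →L[ℂ] FA m).restrictScalars ℝ).contDiff.comp_contDiffOn hβ

theorem contDiffOn_toH {u : En m → FA m} {D : Set (En m)} {n : WithTop ℕ∞}
    (hu : ContDiffOn ℝ n u D) : ContDiffOn ℝ n (fun y => toH (u y)) D :=
  (((toHL m : FA m →L[ℂ] HF m Unit)).restrictScalars ℝ).contDiff.comp_contDiffOn hu

theorem dF_frH {β : RE m → HF m Unit} {x : En m} (hβ : DifferentiableAt ℝ β x) :
    toH (dF (frH β) x) = dd β x := by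
  have h1 : DifferentiableAt ℝ (frH β) x :=
    (((toHL m).symm : HF m Unit →L[ℂ] FA m).restrictScalars ℝ).differentiableAt.comp x hβ
  rw [toH_dF h1, dL_eq_dd]
  have h2 : (fun y => toH (frH β y)) = β := funext fun y => toH_frH β y
  rw [h2]

theorem isDeg_frH {β : RE m → HF m Unit} {x : En m} {j : ℕ} (h : dg j (β x) = β x) :
    (frH β x).IsDeg j := by
  rw [isDeg_iff]
  apply toH.injective
  rw [toH_dgF, toH_frH, h]

theorem toH_eq_zero {u : FA m} : toH u = 0 ↔ u = 0 := by
  rw [← map_zero (toH (m := m))]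
  exact toH.injective.eq_iff

theorem dg_toH {u : FA m} {j : ℕ} (h : u.IsDeg j) : dg j (toH u) = toH u := by
  rw [← toH_dgF, isDeg_iff.1 h]

/-! ## The Poincare lemmas -/

variable {D : Set (En m)} {lo hi α : Fin m → ℝ}

/-- The Poincare lemma with compact supports in the directions `L`, scalar forms. -/
theorem FA_P3 (hD : IsOpen D) (hlh : ∀ i, lo i < hi i) (L : List (Fin m)) (hL : L.Nodup)
    (hI : ∀ i ∈ L, InvC D i) {k : ℕ} {w : En m → FA m} (hw : ContDiffOn ℝ ∞ w D)
    (hc : ∀ x ∈ D, dF w x = 0) (hk : ∀ x ∈ D, (w x).IsDeg k)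
    (hb : ∀ x ∈ D, ∀ i ∈ L, (x i ≤ lo i ∨ hi i ≤ x i) → w x = 0) (hkl : k ≤ L.length)
    (hf : k = L.length → ∀ x ∈ D, fibL lo hi L (fun y => toH (w y)) x = 0) :
    ∃ β : En m → FA m, ContDiffOn ℝ ∞ β D ∧
      (∀ x ∈ D, ∀ i ∈ L, (x i ≤ lo i ∨ hi i ≤ x i) → β x = 0) ∧ (∀ x ∈ D, dF β x = w x) ∧
      (∀ x ∈ D, (∀ z ∈ D, (∀ a, a ∉ L → z a = x a) → w z = 0) → β x = 0) ∧
      ∀ j, k = j + 1 → ∀ x, (β x).IsDeg j := by
  obtain ⟨β, hβs, hβb, hβd, hβl, hβk⟩ := Tw.P3 (t := Tw.triv m Unit) (Tw.Good.triv hD) hlh L hL hI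
    (fun i _ => Tw.ActOn.triv D i) (k := k) (w := fun y => toH (w y)) (Tw.Sec.triv
      (contDiffOn_toH hw)) (fun x hx => by
        rw [Tw.triv_d, ← dL_eq_dd, ← toH_dF
          ((hw.contDiffAt (hD.mem_nhds hx)).differentiableAt (by simp)), hc x hx, map_zero])
    (fun x hx => dg_toH (hk x hx)) (fun x hx i hi hxi => by
      beta_reduce
      rw [hb x hx i hi hxi, map_zero]) hkl hf
  refine ⟨frH β, contDiffOn_frH hβs.1, ?_, ?_, ?_, ?_⟩
  · intro x hx i hi hxi
    rw [← toH_eq_zero, toH_frH, hβb x hx i hi hxi]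
  · intro x hx
    apply toH.injective
    rw [dF_frH (hβs.diffAt hD hx), ← Tw.triv_d, hβd x hx]
  · intro x hx hz
    rw [← toH_eq_zero, toH_frH]
    exact hβl x hx fun z hzD hza => by
      beta_reduce
      rw [hz z hzD hza, map_zero]
  · intro j hj x
    exact isDeg_frH (hβk j hj x)

/-- The cone lemma, scalar forms. -/
theorem FA_P4 (hD : IsOpen D) (L : List (Fin m)) (hs : ∀ i ∈ L, SegC D i (α i)) {k : ℕ}
    {w : En m → FA m} (hw : ContDiffOn ℝ ∞ w D) (hc : ∀ x ∈ D, dF w x = 0)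
    (hk : ∀ x ∈ D, (w x).IsDeg k) :
    ∃ β : En m → FA m, ContDiffOn ℝ ∞ β D ∧ (∀ x ∈ D, dF β x = w x - pbF (mvL α L) w x) ∧
      (∀ x ∈ D, (∀ z ∈ D, (∀ a, a ∉ L → z a = x a) → w z = 0) → β x = 0) ∧
      ∀ j, k = j + 1 → ∀ x, (β x).IsDeg j := by
  obtain ⟨β, hβs, hβd, hβl, hβk⟩ := Tw.P4 (t := Tw.triv m Unit) (Tw.Good.triv hD) L hs
    (fun i _ => Tw.ActOn.triv D i) (k := k) (w := fun y => toH (w y)) (Tw.Sec.triv
      (contDiffOn_toH hw)) (fun x hx => by
        rw [Tw.triv_d, ← dL_eq_dd, ← toH_dF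
          ((hw.contDiffAt (hD.mem_nhds hx)).differentiableAt (by simp)), hc x hx, map_zero])
    (fun x hx => dg_toH (hk x hx))
  refine ⟨frH β, contDiffOn_frH hβs.1, ?_, ?_, ?_⟩
  · intro x hx
    apply toH.injective
    rw [dF_frH (hβs.diffAt hD hx), ← Tw.triv_d, hβd x hx, map_sub, toH_pbF, pbL_eq_pull]
  · intro x hx hz
    rw [← toH_eq_zero, toH_frH]
    exact hβl x hx fun z hzD hza => by
      beta_reduce
      rw [hz z hzD hza, map_zero]
  · intro j hj x
    exact isDeg_frH (hβk j hj x)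

theorem abs_sgp_le (i : Fin m) {s : ℝ} (hs : s ∈ Set.Icc (0 : ℝ) 1) (x : RE m) (a : Fin m) :
    |(sgp i 0 s x) a| ≤ |x a| := by
  by_cases h : a = i
  · subst h
    rw [sgp_self, zero_add, sub_zero, abs_mul, abs_of_nonneg hs.1]
    exact mul_le_of_le_one_left (abs_nonneg _) hs.2
  · rw [sgp_ne h]

theorem norm_sgp_le (i : Fin m) {s : ℝ} (hs : s ∈ Set.Icc (0 : ℝ) 1) (x : RE m) :
    ‖sgp i 0 s x‖ ≤ ‖x‖ := by
  rw [EuclideanSpace.norm_eq, EuclideanSpace.norm_eq]
  refine Real.sqrt_le_sqrt (sum_le_sum fun a _ => ?_)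
  rw [Real.norm_eq_abs, Real.norm_eq_abs]
  exact pow_le_pow_left₀ (abs_nonneg _) (abs_sgp_le i hs x a) 2

theorem segC_ball (i : Fin m) (R : ℝ) : SegC (Metric.ball (0 : RE m) R) i 0 := by
  intro x hx s hs
  rw [mem_ball_zero_iff] at hx ⊢
  exact (norm_sgp_le i hs x).trans_lt hx

theorem pull_const_zero {κ : Type*} [Fintype κ] (c : RE m) {w : RE m → HF m κ} {x : RE k} {j : ℕ}
    (hw : dg (j + 1) (w c) = w c) : pull (fun _ : RE k => c) w x = 0 := by
  unfold pull
  have h : fderiv ℝ (fun _ : RE k => c) x = 0 := fderiv_const_apply _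
  rw [h, map_zero]
  refine Lam_rank (r := 0) _ 0 0 ?_ (Nat.succ_pos j) hw
  ext1 v
  rfl

/-- The Poincare lemma on a ball. -/
theorem poincare_ball {R : ℝ} {j : ℕ} (u : En m → FA m)
    (hu : ContDiffOn ℝ ∞ u (Metric.ball 0 R))
    (hd : ∀ x ∈ Metric.ball (0 : En m) R, (u x).IsDeg (j + 1))
    (hc : ∀ x ∈ Metric.ball (0 : En m) R, dF u x = 0) :
    ∃ v : En m → FA m, ContDiffOn ℝ ∞ v (Metric.ball 0 R) ∧
      (∀ x ∈ Metric.ball (0 : En m) R, dF v x = u x) ∧ ∀ x, (v x).IsDeg j := by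
  obtain ⟨β, h1, h2, _, h4⟩ := FA_P4 (α := fun _ => 0) Metric.isOpen_ball (List.finRange m)
    (fun i _ => segC_ball i R) hu hc hd
  refine ⟨β, h1, fun x hx => ?_, h4 j rfl⟩
  rw [h2 x hx]
  have h5 : pbF (mvL (fun _ => 0) (List.finRange m)) u x = 0 := by
    rw [← toH_eq_zero, toH_pbF, pbL_eq_pull]
    have h6 : mvL (fun _ => 0) (List.finRange m) = fun _ : RE m => (0 : RE m) := by
      funext y
      ext a
      rw [mvL_apply, if_pos (List.mem_finRange a)]
      rfl
    rw [h6]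
    refine pull_const_zero (j := j) (0 : RE m) ?_
    refine dg_toH (hd 0 ?_)
    have : (0 : ℝ) < R := by
      have := mem_ball_zero_iff.1 hx
      exact (norm_nonneg x).trans_lt this
    simpa using this
  rw [h5, sub_zero]

/-! ## Stokes -/

theorem integral_fderiv_zero {F : Type*} [NormedAddCommGroup F] [NormedSpace ℝ F]
    {f : RE m → F} (hf : ContDiff ℝ 1 f) (hc : HasCompactSupport f) (v : RE m) :
    ∫ x, fderiv ℝ f x v = 0 := by
  have h1 : Continuous fun x => fderiv ℝ f x v :=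
    (hf.continuous_fderiv one_ne_zero).clm_apply continuous_const
  have h2 : HasCompactSupport fun x => fderiv ℝ f x v := hc.fderiv_apply ℝ v
  have h := integral_smul_fderiv_eq_neg_fderiv_smul_of_integrable (μ := volume)
    (f := fun _ : RE m => (1 : ℝ)) (g := f) (v := v)
    (by simp) (by simpa using h1.integrable_of_hasCompactSupport h2)
    (by simpa using hf.continuous.integrable_of_hasCompactSupport hc)
    (fun x _ => differentiableAt_const _) (fun x _ => (hf.differentiable one_ne_zero).differentiableAt)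
  simpa using h

/-- Stokes on `ℝ^m`. -/
theorem stokes_HF {κ : Type*} [Fintype κ] {β : RE m → HF m κ} (hβ : ContDiff ℝ ∞ β)
    (hc : HasCompactSupport β) (i : κ) : ∫ x, (dd β x) (Finset.univ, i) = 0 := by
  have hda : ∀ x, DifferentiableAt ℝ β x := fun x => hβ.contDiffAt.differentiableAt (by simp)
  have h1 : ∀ x, (dd β x) (Finset.univ, i) =
      ∑ a, sg a Finset.univ * fderiv ℝ (fun y => (β y) (Finset.univ.erase a, i)) x (ee a) := by
    intro x
    unfold dd
    have h2 : (∑ a, eps a (fderiv ℝ β x (ee a))) (Finset.univ, i) =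
        ∑ a, (eps a (fderiv ℝ β x (ee a))) (Finset.univ, i) := by
      rw [WithLp.ofLp_sum, Finset.sum_apply]
    rw [h2]
    refine sum_congr rfl fun a _ => ?_
    rw [eps_apply, if_pos (mem_univ a)]
    congr 1
    have h3 : HasFDerivAt (fun y => (β y) (Finset.univ.erase a, i))
        (((EuclideanSpace.proj (𝕜 := ℂ) (Finset.univ.erase a, i) :
          HF m κ →L[ℂ] ℂ).restrictScalars ℝ).comp (fderiv ℝ β x)) x :=
      ((EuclideanSpace.proj (𝕜 := ℂ) (Finset.univ.erase a, i) :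
          HF m κ →L[ℂ] ℂ).restrictScalars ℝ).hasFDerivAt.comp x (hda x).hasFDerivAt
    rw [h3.fderiv]
    rfl
  have h4 : ∀ a : Fin m, ContDiff ℝ ∞ fun y => (β y) (Finset.univ.erase a, i) := fun a =>
    ((EuclideanSpace.proj (𝕜 := ℂ) (Finset.univ.erase a, i) :
          HF m κ →L[ℂ] ℂ).restrictScalars ℝ).contDiff.comp hβ
  have h5 : ∀ a : Fin m, HasCompactSupport fun y => (β y) (Finset.univ.erase a, i) := fun a =>
    hc.comp_left (g := fun z : HF m κ => z (Finset.univ.erase a, i)) rfl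
  simp only [h1]
  rw [integral_finsetSum]
  · refine sum_eq_zero fun a _ => ?_
    rw [integral_const_mul, integral_fderiv_zero ((h4 a).of_le (by simp)) (h5 a), mul_zero]
  · intro a _
    refine Integrable.const_mul ?_ _
    exact (((h4 a).continuous_fderiv (by simp)).clm_apply
      continuous_const).integrable_of_hasCompactSupport ((h5 a).fderiv_apply ℝ (ee a))

theorem stokes_Rn (u : En m → FA m) (hu : ContDiff ℝ ∞ u) (hc : HasCompactSupport u) :
    ∫ x, (dF u x).co Finset.univ = 0 := by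
  have h1 : ContDiff ℝ ∞ fun y => toH (u y) :=
    (((toHL m : FA m →L[ℂ] HF m Unit)).restrictScalars ℝ).contDiff.comp hu
  have h2 : HasCompactSupport fun y => toH (u y) := hc.comp_left (g := fun z => toH z) (map_zero _)
  have h3 := stokes_HF h1 h2 ()
  have h4 : ∀ x, (dF u x).co Finset.univ = (dd (fun y => toH (u y)) x) (Finset.univ, ()) := by
    intro x
    rw [← dL_eq_dd, ← toH_dF (hu.contDiffAt.differentiableAt (by simp)), toH_apply]
  simp only [h4]
  exact h3

end Pool.Agent.EXO
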