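import Mathlib
import Pool.Agent.EXO.FmCh

/-!
# EXO / FmInt: iterated fibre integrals and integrals over `ℝ^m`

For a smooth form `U` of top degree on `ℝ^r` with support in a box the integral of its top component
is a nonzero constant times the iterated fibre integral.
-/

set_option autoImplicit false
set_option maxSynthPendingDepth 3

namespace Pool.Agent.EXO

open Finset MeasureTheory
open scoped ContDiff

variable {m k l r : ℕ} {κ : Type*} [Fintype κ]

/-! ## Linearity -/

section

variable {D : Set (RE m)} {lo hi : Fin m → ℝ} {L : List (Fin m)} {u w : RE m → HF m κ} {x : RE m}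

theorem Fi_sub {i : Fin m} {a b : ℝ} (hI : InvC D i) (hu : ContinuousOn u D)
    (hw : ContinuousOn w D) (hx : x ∈ D) :
    Fi i a b (fun y => u y - w y) x = Fi i a b u x - Fi i a b w x := by
  rw [Fi_eq_integral, Fi_eq_integral, Fi_eq_integral, ← map_sub,
    ← intervalIntegral.integral_sub ((continuousOn_tr hI hu hx).intervalIntegrable _ _)
      ((continuousOn_tr hI hw hx).intervalIntegrable _ _)]

theorem Fi_smul {i : Fin m} {a b : ℝ} (c : ℂ) :
    Fi i a b (fun y => c • u y) x = c • Fi i a b u x := by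
  rw [Fi_eq_integral, Fi_eq_integral, intervalIntegral.integral_smul, map_smul]

theorem fibL_sub (hD : IsOpen D) (hI : ∀ i ∈ L, InvC D i) (hu : ContDiffOn ℝ ∞ u D)
    (hw : ContDiffOn ℝ ∞ w D) (hx : x ∈ D) :
    fibL lo hi L (fun y => u y - w y) x = fibL lo hi L u x - fibL lo hi L w x := by
  induction L generalizing u w with
  | nil => rfl
  | cons i L ih =>
    have h1 := ih (fun j hj => hI j (by simp [hj])) (contDiffOn_Fi (lo := lo i) (hi := hi i) hD
      (hI i (by simp)) hu) (contDiffOn_Fi (lo := lo i) (hi := hi i) hD (hI i (by simp)) hw)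
    change fibL lo hi L (Fi i (lo i) (hi i) fun y => u y - w y) x = _
    rw [fibL_congr (D := D) (fun j hj => hI j (by simp [hj])) (fun y hy =>
      Fi_sub (hI i (by simp)) hu.continuousOn hw.continuousOn hy) hx, h1]
    rfl

theorem fibL_smul (c : ℂ) : fibL lo hi L (fun y => c • u y) x = c • fibL lo hi L u x := by
  induction L generalizing u with
  | nil => rfl
  | cons i L ih =>
    have h : (Fi i (lo i) (hi i) fun y => c • u y) = fun y => c • Fi i (lo i) (hi i) u y :=
      funext fun y => Fi_smul c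
    change fibL lo hi L (Fi i (lo i) (hi i) fun y => c • u y) x = _
    rw [h, ih]
    rfl

end

/-! ## A product bump form -/

/-- `eps i₁ ⋯ eps iₙ` applied to the vacuum. -/
noncomputable def epsL : List (Fin m) → HF m Unit
  | [] => bas ∅ ()
  | i :: L => eps i (epsL L)

/-- `iota iₙ ⋯ iota i₁`. -/
noncomputable def iotL : List (Fin m) → HF m Unit → HF m Unit
  | [], v => v
  | i :: L, v => iotL L (iota i v)

theorem iota_epsL {i : Fin m} {L : List (Fin m)} (h : i ∉ L) : iota i (epsL L) = 0 := by
  induction L with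
  | nil => exact iota_vac _ _
  | cons j L ih =>
    have hij : i ≠ j := fun h' => h (by simp [h'])
    change iota i (eps j (epsL L)) = 0
    rw [iota_eps, if_neg hij, ih fun h' => h (by simp [h']), map_zero, sub_zero]

theorem iotL_epsL {L : List (Fin m)} (h : L.Nodup) : iotL L (epsL L) = bas ∅ () := by
  induction L with
  | nil => rfl
  | cons i L ih =>
    change iotL L (iota i (eps i (epsL L))) = _
    rw [iota_eps, if_pos rfl, iota_epsL (List.nodup_cons.1 h).1, map_zero, sub_zero,
      ih (List.nodup_cons.1 h).2]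

theorem iotL_zero (L : List (Fin m)) : iotL L (0 : HF m Unit) = 0 := by
  induction L with
  | nil => rfl
  | cons i L ih =>
    change iotL L (iota i 0) = 0
    rw [map_zero, ih]

theorem dg_epsL (L : List (Fin m)) : dg L.length (epsL L) = epsL L := by
  induction L with
  | nil =>
    change dg 0 (bas ∅ ()) = bas ∅ ()
    rw [dg_bas, if_pos card_empty]
  | cons i L ih =>
    change dg (L.length + 1) (eps i (epsL L)) = eps i (epsL L)
    rw [dg_eps, ih]

/-- The product bump form. -/
noncomputable def chiL (ρ : Fin m → ℝ → ℝ) (L : List (Fin m)) (v : HF m Unit) (x : RE m) :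
    HF m Unit := (L.map fun i => ρ i (x i)).prod • v

theorem Fi_chi {ρ : Fin m → ℝ → ℝ} {i : Fin m} {L : List (Fin m)} {a b : ℝ}
    (hρ : ∫ s in a..b, ρ i s = 1) (hi : i ∉ L) (v : HF m Unit) (x : RE m) :
    Fi i a b (chiL ρ (i :: L) v) x = chiL ρ L (iota i v) x := by
  rw [Fi_eq_integral]
  have h1 : ∀ s : ℝ, chiL ρ (i :: L) v (x + (s - x i) • ee i) =
      ρ i s • chiL ρ L v x := by
    intro s
    unfold chiL
    rw [List.map_cons, List.prod_cons, add_smul_apply_self, mul_smul]
    have h2 : (L.map fun j => ρ j ((x + (s - x i) • ee i : RE m) j)) =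
        L.map fun j => ρ j (x j) := by
      refine List.map_congr_left fun j hj => ?_
      have hji : j ≠ i := fun h => hi (h ▸ hj)
      rw [add_smul_apply_ne x _ hji]
    rw [h2]
    congr 2
    ring
  simp only [h1]
  rw [intervalIntegral.integral_smul_const, hρ, one_smul]
  unfold chiL
  exact clm_rsmul _ _ _

theorem fibL_chi {ρ : Fin m → ℝ → ℝ} {lo hi : Fin m → ℝ}
    (hρ : ∀ i, ∫ s in (lo i)..(hi i), ρ i s = 1) {L : List (Fin m)} (hL : L.Nodup)
    (v : HF m Unit) (x : RE m) : fibL lo hi L (chiL ρ L v) x = iotL L v := by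
  induction L generalizing v with
  | nil =>
    change chiL ρ [] v x = v
    simp [chiL]
  | cons i L ih =>
    have h : Fi i (lo i) (hi i) (chiL ρ (i :: L) v) = chiL ρ L (iota i v) :=
      funext fun y => Fi_chi (hρ i) (List.nodup_cons.1 hL).1 v y
    change fibL lo hi L (Fi i (lo i) (hi i) (chiL ρ (i :: L) v)) x = iotL L (iota i v)
    rw [h, ih (List.nodup_cons.1 hL).2]

theorem const_of_translate {β : Type*} {f : RE m → β}
    (h : ∀ (i : Fin m) (x : RE m) (s : ℝ), f (x + s • ee i) = f x) (x : RE m) : f x = f 0 := by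
  have key : ∀ s : Finset (Fin m), f (∑ i ∈ s, x i • ee i) = f 0 := by
    intro s
    induction s using Finset.induction_on with
    | empty => rw [Finset.sum_empty]
    | insert i s hi ih => rw [Finset.sum_insert hi, add_comm, h, ih]
  conv_lhs => rw [epsv_sum_ee x]
  exact key Finset.univ

theorem eq_vac_of_dg0 {u : HF m Unit} (hu : dg 0 u = u) : u = u (∅, ()) • bas ∅ () := by
  ext ⟨S, i⟩
  change u (S, i) = u (∅, ()) * (bas ∅ () : HF m Unit) (S, i)
  rw [bas_apply]
  by_cases h : S = ∅
  · subst h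
    simp
  · have h1 : u (S, i) = 0 := by
      rw [← hu, dg_apply, if_neg (by simpa using h)]
    rw [h1]
    simp [h]

theorem isCompact_box (lo hi : Fin m → ℝ) :
    IsCompact {x : RE m | ∀ i, x i ∈ Set.Icc (lo i) (hi i)} := by
  have h1 : IsCompact (Set.pi Set.univ fun i => Set.Icc (lo i) (hi i)) :=
    isCompact_univ_pi fun i => isCompact_Icc
  have h2 := h1.image (PiLp.continuous_toLp 2 fun _ : Fin m => ℝ)
  convert h2 using 1
  ext x
  constructor
  · intro hx
    exact ⟨WithLp.ofLp x, fun i _ => hx i, rfl⟩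
  · rintro ⟨y, hy, rfl⟩ i
    exact hy i (Set.mem_univ i)

theorem compact_of_box {lo hi : Fin m → ℝ} {w : RE m → HF m κ}
    (hw : Box Set.univ lo hi (List.finRange m) w) : HasCompactSupport w := by
  refine HasCompactSupport.intro (isCompact_box lo hi) fun x hx => ?_
  simp only [Set.mem_ofPred_eq, not_forall, Set.mem_Icc, not_and_or, not_le] at hx
  obtain ⟨i, hi'⟩ := hx
  exact hw x (Set.mem_univ x) i (List.mem_finRange i) (hi'.imp le_of_lt le_of_lt)

/-- The integral of a form of top degree with support in a box is a nonzero multiple of the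
iterated fibre integral. -/
theorem exists_K (lo hi : Fin m → ℝ) (hlh : ∀ i, lo i < hi i) : ∃ K : ℂ, K ≠ 0 ∧
    ∀ U : RE m → HF m Unit, ContDiff ℝ ∞ U → (∀ x, dg m (U x) = U x) →
    Box Set.univ lo hi (List.finRange m) U →
    ∫ x, (U x) (Finset.univ, ()) = K * (fibL lo hi (List.finRange m) U 0) (∅, ()) := by
  choose θ hθ hθl hθh using fun i => exists_step (hlh i)
  have hρs : ∀ i, ContDiff ℝ ∞ (deriv (θ i)) := fun i => (contDiff_infty_iff_deriv.1 (hθ i)).2
  have hρ : ∀ i, ∫ s in (lo i)..(hi i), deriv (θ i) s = 1 := by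
    intro i
    rw [intervalIntegral.integral_deriv_eq_sub (fun x _ => (hθ i).contDiffAt.differentiableAt
      (by simp)) ((hρs i).continuous.intervalIntegrable _ _), (hθl i _ le_rfl).1,
      (hθh i _ le_rfl).1, sub_zero]
  have hρ' : ∀ i, ∫ s, deriv (θ i) s = 1 := by
    intro i
    rw [← hρ i]
    refine (intervalIntegral.integral_eq_integral_of_support_subset fun s hs => ?_).symm
    rw [Set.mem_Ioc]
    constructor
    · by_contra h
      exact hs (hθl i s (not_lt.1 h)).2
    · by_contra h
      exact hs (hθh i s (not_le.1 h).le).2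
  set L : List (Fin m) := List.finRange m with hL
  have hLn : L.Nodup := List.nodup_finRange m
  have hLl : L.length = m := List.length_finRange
  set v : HF m Unit := epsL L with hv
  have hvd : dg m v = v := by
    have := dg_epsL L
    rwa [hLl] at this
  have hv0 : v (Finset.univ, ()) ≠ 0 := by
    intro h0
    have hz : v = 0 := by
      ext ⟨S, i⟩
      change v (S, i) = 0
      by_cases hS : S = Finset.univ
      · subst hS
        exact h0
      · rw [← hvd, dg_apply, if_neg]
        intro hc
        exact hS ((card_eq_iff_eq_univ S).1 (by rw [hc, Fintype.card_fin]))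
    have h1 := iotL_epsL hLn
    rw [← hv, hz, iotL_zero] at h1
    have h2 := congrArg (fun z : HF m Unit => z (∅, ())) h1
    simp [bas_apply] at h2
  set χ : RE m → HF m Unit := chiL (fun i => deriv (θ i)) L v with hχ
  have hprod : ∀ x : RE m, (L.map fun i => deriv (θ i) (x i)).prod = ∏ i, deriv (θ i) (x i) :=
    fun x => (Fin.prod_univ_def _).symm
  have hχe : ∀ x, χ x = (∏ i, deriv (θ i) (x i)) • v := fun x => by
    rw [hχ]
    unfold chiL
    rw [hprod]
  have hχs : ContDiff ℝ ∞ χ := by
    have h1 : χ = fun x => (∏ i, deriv (θ i) (x i)) • v := funext hχe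
    rw [h1]
    have h2 : ∀ i, ContDiff ℝ ∞ fun x : RE m => deriv (θ i) (x i) := fun i =>
      (hρs i).comp (crd i).contDiff
    exact ContDiff.smul (contDiff_prod fun i _ => h2 i) contDiff_const
  have hχb : Box Set.univ lo hi L χ := by
    intro x _ i _ hxi
    have h0 : deriv (θ i) (x i) = 0 := by
      rcases hxi with h | h
      · exact (hθl i _ h).2
      · exact (hθh i _ h).2
    rw [hχe, Finset.prod_eq_zero (mem_univ i) h0, zero_smul]
  have hχd : ∀ x, dg m (χ x) = χ x := by
    intro x
    rw [hχe, clm_rsmul, hvd]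
  have hχf : ∀ x, fibL lo hi L χ x = bas ∅ () := by
    intro x
    rw [hχ, fibL_chi hρ hLn, hv, iotL_epsL hLn]
  have hχi : ∫ x, (χ x) (Finset.univ, ()) = v (Finset.univ, ()) := by
    have h1 : ∀ x : RE m, (χ x) (Finset.univ, ()) =
        (∏ i, deriv (θ i) (x i)) • v (Finset.univ, ()) := by
      intro x
      rw [hχe]
      rfl
    simp only [h1]
    rw [integral_smul_const]
    have h2 : ∫ x : RE m, ∏ i, deriv (θ i) (x i) = 1 := by
      have h3 := (PiLp.volume_preserving_ofLp (Fin m)).integral_comp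
        (MeasurableEquiv.toLp 2 (Fin m → ℝ)).symm.measurableEmbedding
        (fun y : Fin m → ℝ => ∏ i, deriv (θ i) (y i))
      rw [h3, integral_fintype_prod_volume_eq_prod (fun i => deriv (θ i))]
      exact prod_eq_one fun i _ => hρ' i
    rw [h2, one_smul]
  have hI : ∀ i ∈ L, InvC (Set.univ : Set (RE m)) i := fun _ _ _ _ _ => Set.mem_univ _
  refine ⟨v (Finset.univ, ()), hv0, fun U hU hUd hUb => ?_⟩
  set c := (fibL lo hi L U 0) (∅, ()) with hc
  have hUf : ∀ x, fibL lo hi L U x = c • bas ∅ () := by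
    intro x
    have h1 : fibL lo hi L U x = fibL lo hi L U 0 :=
      const_of_translate (fun i y s => fibL_translate (List.mem_finRange i) y s) x
    rw [h1, hc]
    refine eq_vac_of_dg0 ?_
    exact Tw.dg_fibL (t := Tw.triv m Unit) (k := 0) (Tw.Sec.triv hU.contDiffOn) isOpen_univ hI
      (fun i _ => Tw.ActOn.triv _ i) (fun x _ => by rw [zero_add, hLl, hUd]) (Set.mem_univ _)
  have hws : ContDiff ℝ ∞ fun x => U x - c • χ x := hU.sub (hχs.const_smul c)
  have hwd : ∀ x, dg m (U x - c • χ x) = U x - c • χ x := by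
    intro x
    rw [map_sub, map_smul, hUd, hχd]
  have hwb : Box Set.univ lo hi L fun x => U x - c • χ x := by
    intro x hx i hi hxi
    beta_reduce
    rw [hUb x hx i hi hxi, hχb x hx i hi hxi, smul_zero, sub_zero]
  have hwc : ∀ x ∈ (Set.univ : Set (RE m)), (Tw.triv m Unit).d (fun x => U x - c • χ x) x = 0 := by
    intro x _
    have h1 := (Tw.triv m Unit).dg_d (j := m) (u := fun x => U x - c • χ x) (x := x)
      (hws.contDiffAt.differentiableAt (by simp))
    rw [dg_eq_zero (Nat.lt_succ_self m)] at h1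
    simp only [hwd] at h1
    exact h1.symm
  have hwf : m = L.length → ∀ x ∈ (Set.univ : Set (RE m)),
      fibL lo hi L (fun x => U x - c • χ x) x = 0 := by
    intro _ x hx
    rw [fibL_sub isOpen_univ hI hU.contDiffOn (hχs.const_smul c).contDiffOn hx, fibL_smul, hUf,
      hχf, sub_self]
  obtain ⟨β, hβs, hβb, hβd, _, _⟩ := Tw.P3 (t := Tw.triv m Unit) (Tw.Good.triv isOpen_univ) hlh L
    hLn hI (fun i _ => Tw.ActOn.triv _ i) (Tw.Sec.triv hws.contDiffOn) hwc
    (fun x _ => hwd x) hwb hLl.ge hwf
  have hβc : ContDiff ℝ ∞ β := contDiffOn_univ.1 hβs.1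
  have h1 := stokes_HF hβc (compact_of_box hβb) ()
  have h2 : ∀ x, (dd β x) (Finset.univ, ()) =
      (U x) (Finset.univ, ()) - c * (χ x) (Finset.univ, ()) := by
    intro x
    rw [← Tw.triv_d, hβd x (Set.mem_univ x)]
    rfl
  have hUc : Integrable fun x => (U x) (Finset.univ, ()) := by
    refine Continuous.integrable_of_hasCompactSupport ?_
      ((compact_of_box hUb).comp_left (g := fun z : HF m Unit => z (Finset.univ, ())) rfl)
    exact (EuclideanSpace.proj (𝕜 := ℂ) (Finset.univ, ()) :
      HF m Unit →L[ℂ] ℂ).continuous.comp hU.continuous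
  have hχc : Integrable fun x => (χ x) (Finset.univ, ()) := by
    refine Continuous.integrable_of_hasCompactSupport ?_
      ((compact_of_box hχb).comp_left (g := fun z : HF m Unit => z (Finset.univ, ())) rfl)
    exact (EuclideanSpace.proj (𝕜 := ℂ) (Finset.univ, ()) :
      HF m Unit →L[ℂ] ℂ).continuous.comp hχs.continuous
  simp only [h2] at h1
  rw [integral_sub hUc (hχc.const_mul c), integral_const_mul, hχi, sub_eq_zero] at h1
  rw [h1, mul_comm]

/-! ## Slices -/

theorem Lam_coeff (A : RE m →L[ℝ] RE k) (u : HF m κ) (i : κ) : (Lam A u) (∅, i) = u (∅, i) := by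
  rw [← inner_bas_vac (Lam A u) i, ← inner_bas_vac u i, ← ContinuousLinearMap.adjoint_inner_left,
    adjoint_Lam, Lam_vac]

theorem pull_coeff {G : RE k → RE m} (u : RE m → HF m κ) (x : RE k) (i : κ) :
    (pull G u x) (∅, i) = (u (G x)) (∅, i) := Lam_coeff _ _ _

/-- The integral over a slice is the iterated fibre integral. -/
theorem slice_int {lo hi : Fin m → ℝ} (hlh : ∀ i, lo i < hi i) (φ : Fin r → Fin m) :
    ∃ K : ℂ, K ≠ 0 ∧ ∀ (D : Set (RE m)), IsOpen D → (∀ j, InvC D (φ j)) →
    ∀ w : RE m → HF m Unit, ContDiffOn ℝ ∞ w D → (∀ x ∈ D, dg r (w x) = w x) →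
    Box D lo hi ((List.finRange r).map φ) w → ∀ G : RE r → RE m, ContDiff ℝ ∞ G →
    (∀ y, G y ∈ D) → (∀ j, Eqv G Set.univ j (φ j)) →
    ∫ y, (pull G w y) (Finset.univ, ()) =
      K * (fibL lo hi ((List.finRange r).map φ) w (G 0)) (∅, ()) := by
  obtain ⟨K, hK, hKU⟩ := exists_K (fun j => lo (φ j)) (fun j => hi (φ j)) fun j => hlh _
  refine ⟨K, hK, fun D hD hI w hw hwd hwb G hG hGD hGe => ?_⟩
  have hU : ContDiff ℝ ∞ (pull G w) := by
    rw [← contDiffOn_univ]
    exact fm_contDiffOn_pull isOpen_univ hD hG.contDiffOn hw fun y _ => hGD y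
  have hUd : ∀ y, dg r (pull G w y) = pull G w y := by
    intro y
    unfold pull
    rw [← Lam_dg, hwd _ (hGD y)]
  have hUb : Box Set.univ (fun j => lo (φ j)) (fun j => hi (φ j)) (List.finRange r)
      (pull G w) := by
    intro y _ j _ hj
    unfold pull
    rw [hwb (G y) (hGD y) (φ j) (List.mem_map_of_mem (List.mem_finRange j)), map_zero]
    rwa [(hGe j).c y (Set.mem_univ y)]
  rw [hKU _ hU hUd hUb, fibL_pull (D := Set.univ) isOpen_univ hD hG.contDiffOn (fun y _ => hGD y)
    (fun j _ => hGe j) (fun j _ y _ s => Set.mem_univ _) (fun j _ => hI j) hw (Set.mem_univ 0),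
    pull_coeff]

end Pool.Agent.EXO
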