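import Mathlib
import Pool.Agent.EXO.FmInt

/-!
# EXO / FmSl: the Poincare lemma with the integrals over the slices as obstruction, constancy of
the integrals over the slices
-/

set_option autoImplicit false
set_option maxSynthPendingDepth 3

namespace Pool.Agent.EXO

open Finset MeasureTheory
open scoped ContDiff

variable {m k l r q : ℕ}

theorem eq_zero_of_dg0 {u : HF m Unit} (hu : dg 0 u = u) (h : u (∅, ()) = 0) : u = 0 := by
  rw [eq_vac_of_dg0 hu, h, zero_smul]

/-- The integral of the top component of the pullback to a slice. -/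
theorem pbF_co_univ (G : En r → En m) (w : En m → FA m) (y : En r) :
    (pbF G w y).co Finset.univ = (pull G (fun z => toH (w z)) y) (Finset.univ, ()) := by
  rw [← toH_apply, toH_pbF, pbL_eq_pull]

/-- A family of slices in the directions `φ j`. -/
structure SlF (D : Set (En m)) (φ : Fin r → Fin m) (G : En m → En r → En m) : Prop where
  inj : Function.Injective φ
  isOpen : IsOpen D
  inv : ∀ j, InvC D (φ j)
  smooth : ∀ z, ContDiff ℝ ∞ (G z)
  mem : ∀ z ∈ D, ∀ y, G z y ∈ D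
  eqv : ∀ z ∈ D, ∀ j, Eqv (G z) Set.univ j (φ j)
  on : ∀ z ∈ D, ∃ y, G z y = z

theorem Eqv.const {β : Type*} {G : RE r → RE m} {φ : Fin r → Fin m}
    (h : ∀ j, Eqv G Set.univ j (φ j)) {f : RE m → β}
    (hf : ∀ (j : Fin r) (x : RE m) (s : ℝ), f (x + s • ee (φ j)) = f x) (y : RE r) :
    f (G y) = f (G 0) := by
  refine const_of_translate (f := fun y => f (G y)) (fun j y s => ?_) y
  rw [(h j).t y (Set.mem_univ y) s (Set.mem_univ _), hf]

/-- The Poincare lemma with compact supports, the obstruction is the integral over the slices. -/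
theorem FA_P3s {D : Set (En m)} {φ : Fin r → Fin m} {G : En m → En r → En m} (hS : SlF D φ G)
    {lo hi : Fin m → ℝ} (hlh : ∀ i, lo i < hi i) {w : En m → FA m} (hw : ContDiffOn ℝ ∞ w D)
    (hc : ∀ x ∈ D, dF w x = 0) (hk : ∀ x ∈ D, (w x).IsDeg r)
    (hb : ∀ x ∈ D, ∀ j, (x (φ j) ≤ lo (φ j) ∨ hi (φ j) ≤ x (φ j)) → w x = 0)
    (hint : ∀ z ∈ D, ∫ y, (pbF (G z) w y).co Finset.univ = 0) :
    ∃ β : En m → FA m, ContDiffOn ℝ ∞ β D ∧
      (∀ x ∈ D, ∀ j, (x (φ j) ≤ lo (φ j) ∨ hi (φ j) ≤ x (φ j)) → β x = 0) ∧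
      (∀ x ∈ D, dF β x = w x) ∧
      (∀ x ∈ D, (∀ z ∈ D, (∀ a, (∀ j, a ≠ φ j) → z a = x a) → w z = 0) → β x = 0) ∧
      ∀ j, r = j + 1 → ∀ x, (β x).IsDeg j := by
  have hmem : ∀ a, a ∈ (List.finRange r).map φ ↔ ∃ j, φ j = a := by
    intro a
    simp
  have hI : ∀ i ∈ (List.finRange r).map φ, InvC D i := by
    intro i hi
    obtain ⟨j, rfl⟩ := (hmem i).1 hi
    exact hS.inv j
  have hb' : Box D lo hi ((List.finRange r).map φ) fun y => toH (w y) := by
    intro x hx i hi hxi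
    obtain ⟨j, rfl⟩ := (hmem i).1 hi
    beta_reduce
    rw [hb x hx j hxi, map_zero]
  have hlen : ((List.finRange r).map φ).length = r := by simp
  have hf : r = ((List.finRange r).map φ).length → ∀ x ∈ D,
      fibL lo hi ((List.finRange r).map φ) (fun y => toH (w y)) x = 0 := by
    intro _ x hx
    obtain ⟨K, hK, hKs⟩ := slice_int hlh φ
    have h1 := hKs D hS.isOpen hS.inv (fun y => toH (w y)) (contDiffOn_toH hw)
      (fun x hx => dg_toH (hk x hx)) hb' (G x) (hS.smooth x) (hS.mem x hx) (hS.eqv x hx)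
    have h2 := hint x hx
    simp only [pbF_co_univ] at h2
    rw [h2] at h1
    have h3 : (fibL lo hi ((List.finRange r).map φ) (fun y => toH (w y)) (G x 0)) (∅, ()) = 0 := by
      rcases mul_eq_zero.1 h1.symm with h | h
      · exact absurd h hK
      · exact h
    obtain ⟨y, hy⟩ := hS.on x hx
    have h4 : fibL lo hi ((List.finRange r).map φ) (fun y => toH (w y)) (G x y) =
        fibL lo hi ((List.finRange r).map φ) (fun y => toH (w y)) (G x 0) :=
      Eqv.const (hS.eqv x hx) (fun j z s => fibL_translate ((hmem _).2 ⟨j, rfl⟩) z s) y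
    rw [hy] at h4
    rw [← h4] at h3
    refine eq_zero_of_dg0 ?_ h3
    exact Tw.dg_fibL (t := Tw.triv m Unit) (k := 0) (Tw.Sec.triv (contDiffOn_toH hw)) hS.isOpen hI
      (fun i _ => Tw.ActOn.triv _ i) (fun x hx => by rw [zero_add, hlen, dg_toH (hk x hx)]) hx
  obtain ⟨β, h1, h2, h3, h4, h5⟩ := FA_P3 hS.isOpen hlh ((List.finRange r).map φ)
    ((List.nodup_finRange r).map hS.inj) hI hw hc hk (fun x hx i hi hxi => by
      obtain ⟨j, rfl⟩ := (hmem i).1 hi
      exact hb x hx j hxi) hlen.ge hf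
  refine ⟨β, h1, fun x hx j hxj => h2 x hx (φ j) ((hmem _).2 ⟨j, rfl⟩) hxj, h3, ?_, h5⟩
  intro x hx hz
  refine h4 x hx fun z hzD hza => hz z hzD fun a ha => hza a fun h => ?_
  obtain ⟨j, hj⟩ := (hmem a).1 h
  exact ha j hj.symm

theorem fderiv_eq_zero_of_closed0 {f : RE m → HF m Unit} {x : RE m} (hf : DifferentiableAt ℝ f x)
    (hc : dd f x = 0) : fderiv ℝ (fun y => (f y) (∅, ())) x = 0 := by
  have h1 : HasFDerivAt (fun y => (f y) (∅, ()))
      (((EuclideanSpace.proj (𝕜 := ℂ) (∅, ()) :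
        HF m Unit →L[ℂ] ℂ).restrictScalars ℝ).comp (fderiv ℝ f x)) x :=
    ((EuclideanSpace.proj (𝕜 := ℂ) (∅, ()) :
        HF m Unit →L[ℂ] ℂ).restrictScalars ℝ).hasFDerivAt.comp x hf.hasFDerivAt
  have h2 : ∀ a, (fderiv ℝ f x (ee a)) (∅, ()) = 0 := by
    intro a
    have h3 := congrArg (fun z : HF m Unit => z ({a}, ())) hc
    have h4 : (dd f x) ({a}, ()) = ∑ c, (eps c (fderiv ℝ f x (ee c))) ({a}, ()) := by
      unfold dd
      rw [WithLp.ofLp_sum, Finset.sum_apply]
    have h5 : ∑ c, (eps c (fderiv ℝ f x (ee c))) ({a}, ()) =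
        sg a {a} * (fderiv ℝ f x (ee a)) (∅, ()) := by
      rw [Finset.sum_eq_single a]
      · rw [eps_apply, if_pos (mem_singleton_self a)]
        simp
      · intro c _ hca
        rw [eps_apply, if_neg (by simpa using hca)]
      · intro h
        exact absurd (mem_univ a) h
    have h6 : sg a {a} * (fderiv ℝ f x (ee a)) (∅, ()) = 0 := by
      rw [← h5, ← h4]
      exact h3
    have h7 : sg a {a} ≠ 0 := fun h => by
      have h8 := sg_mul_self a {a}
      rw [h, mul_zero] at h8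
      exact zero_ne_one h8
    exact (mul_eq_zero.1 h6).resolve_left h7
  rw [h1.fderiv]
  ext1 v
  change (fderiv ℝ f x v) (∅, ()) = 0
  rw [epsv_sum_ee v, map_sum, WithLp.ofLp_sum, Finset.sum_apply]
  refine sum_eq_zero fun a _ => ?_
  rw [map_smul]
  change (v a) • (fderiv ℝ f x (ee a)) (∅, ()) = 0
  rw [h2, smul_zero]

/-- The integral over the slices is constant on connected families. -/
theorem slice_const_gen {D : Set (En m)} {φ : Fin r → Fin m} {G : En m → En r → En m}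
    (hS : SlF D φ G) {lo hi : Fin m → ℝ} (hlh : ∀ i, lo i < hi i) {w : En m → FA m}
    (hw : ContDiffOn ℝ ∞ w D) (hc : ∀ x ∈ D, dF w x = 0) (hk : ∀ x ∈ D, (w x).IsDeg r)
    (hb : ∀ x ∈ D, ∀ j, (x (φ j) ≤ lo (φ j) ∨ hi (φ j) ≤ x (φ j)) → w x = 0)
    {Y : Set (En q)} (hY : IsOpen Y) (hYc : IsPreconnected Y) {γ : En q → En m}
    (hγ : ContDiff ℝ ∞ γ) (hγm : ∀ y ∈ Y, γ y ∈ D) (hγ0 : ∀ y ∈ Y, G (γ y) 0 = γ y)
    {y y' : En q} (hy : y ∈ Y) (hy' : y' ∈ Y) :
    ∫ z, (pbF (G (γ y)) w z).co Finset.univ = ∫ z, (pbF (G (γ y')) w z).co Finset.univ := by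
  have hmem : ∀ a, a ∈ (List.finRange r).map φ ↔ ∃ j, φ j = a := by
    intro a
    simp
  have hI : ∀ i ∈ (List.finRange r).map φ, InvC D i := by
    intro i hi
    obtain ⟨j, rfl⟩ := (hmem i).1 hi
    exact hS.inv j
  have hb' : Box D lo hi ((List.finRange r).map φ) fun y => toH (w y) := by
    intro x hx i hi hxi
    obtain ⟨j, rfl⟩ := (hmem i).1 hi
    beta_reduce
    rw [hb x hx j hxi, map_zero]
  obtain ⟨K, hK, hKs⟩ := slice_int hlh φ
  have h1 : ∀ y ∈ Y, ∫ z, (pbF (G (γ y)) w z).co Finset.univ =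
      K * (fibL lo hi ((List.finRange r).map φ) (fun y => toH (w y)) (γ y)) (∅, ()) := by
    intro y hy
    simp only [pbF_co_univ]
    rw [hKs D hS.isOpen hS.inv (fun y => toH (w y)) (contDiffOn_toH hw)
      (fun x hx => dg_toH (hk x hx)) hb' (G (γ y)) (hS.smooth _) (hS.mem _ (hγm y hy))
      (hS.eqv _ (hγm y hy)), hγ0 y hy]
  have hsec : (Tw.triv m Unit).Sec D (fibL lo hi ((List.finRange r).map φ)
      fun y => toH (w y)) :=
    Tw.Sec.fibL (Tw.Sec.triv (contDiffOn_toH hw)) hS.isOpen hI fun i _ => Tw.ActOn.triv _ i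
  have hcl : ∀ x ∈ D, dd (fibL lo hi ((List.finRange r).map φ) fun y => toH (w y)) x = 0 := by
    intro x hx
    rw [← Tw.triv_d]
    refine Tw.Good.d_fibL (Tw.Good.triv hS.isOpen) ((List.nodup_finRange r).map hS.inj)
      (Tw.Sec.triv (contDiffOn_toH hw)) hI (fun i _ => Tw.ActOn.triv _ i) (fun x hx => ?_) hb' hx
    rw [Tw.triv_d, ← dL_eq_dd, ← toH_dF
      ((hw.contDiffAt (hS.isOpen.mem_nhds hx)).differentiableAt (by simp)), hc x hx, map_zero]
  have hd : ∀ x ∈ D, HasFDerivAt (fun z =>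
      (fibL lo hi ((List.finRange r).map φ) (fun y => toH (w y)) z) (∅, ()))
      (0 : RE m →L[ℝ] ℂ) x := by
    intro x hx
    have hfd := hsec.diffAt hS.isOpen hx
    have h2 : DifferentiableAt ℝ (fun z =>
      (fibL lo hi ((List.finRange r).map φ) (fun y => toH (w y)) z) (∅, ())) x :=
      ((EuclideanSpace.proj (𝕜 := ℂ) (∅, ()) :
        HF m Unit →L[ℂ] ℂ).restrictScalars ℝ).differentiableAt.comp x hfd
    have h3 := h2.hasFDerivAt
    rwa [fderiv_eq_zero_of_closed0 hfd (hcl x hx)] at h3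
  have hd' : ∀ y ∈ Y, HasFDerivAt (fun y =>
      (fibL lo hi ((List.finRange r).map φ) (fun y => toH (w y)) (γ y)) (∅, ()))
      (0 : En q →L[ℝ] ℂ) y := by
    intro y hy
    have h4 := (hd _ (hγm y hy)).comp y (hγ.contDiffAt.differentiableAt (by simp)).hasFDerivAt
    rwa [ContinuousLinearMap.zero_comp] at h4
  rw [h1 y hy, h1 y' hy']
  congr 1
  exact hY.is_const_of_fderiv_eq_zero hYc (fun y hy =>
    (hd' y hy).differentiableAt.differentiableWithinAt) (fun y hy => (hd' y hy).fderiv) hy hy'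

end Pool.Agent.EXO
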