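import Mathlib
import Pool.Agent.EXO.ChFA
import Pool.Agent.EXO.DefG
import Pool.Agent.EXO.FmSl

/-!
# EXO / ChNdB: Stokes and Poincaré on open sets of `ℝ^m` (bridge to FORMS, helper76)
-/

set_option autoImplicit false
set_option maxSynthPendingDepth 3

open Set MeasureTheory Matrix
open scoped ContDiff

namespace Pool.Agent.EXO.CH

variable {m : ℕ}

/-- Stokes on `ℝ^m` for compactly supported forms. -/
theorem stokes_Rn (u : En m → FA m) (hu : ContDiff ℝ ∞ u) (hc : HasCompactSupport u) :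
    ∫ x, (dF u x).co Finset.univ = 0 := EXO.stokes_Rn u hu hc

/-- Poincare lemma on a ball. -/
theorem poincare_ball {R : ℝ} {j : ℕ} (u : En m → FA m) (hu : ContDiffOn ℝ ∞ u (Metric.ball 0 R))
    (hd : ∀ x ∈ Metric.ball (0 : En m) R, (u x).IsDeg (j + 1))
    (hc : ∀ x ∈ Metric.ball (0 : En m) R, dF u x = 0) :
    ∃ v : En m → FA m, ContDiffOn ℝ ∞ v (Metric.ball 0 R) ∧
      ∀ x ∈ Metric.ball (0 : En m) R, dF v x = u x := by
  obtain ⟨v, h1, h2, _⟩ := EXO.poincare_ball u hu hd hc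
  exact ⟨v, h1, h2⟩

/-- The inclusion of a slice `y ↦ (x, y, n)`. -/
noncomputable def sl2 (x : En 4) (n : En 7) (y : En 4) : En 15 := j15 x y n

/-! ### Auxiliary facts -/

/-- The coordinates of `y`. -/
def chNdBφ (j : Fin 4) : Fin 15 := ⟨4 + j, by omega⟩

theorem chNdB_inj : Function.Injective chNdBφ := by
  intro i j h
  have := congrArg Fin.val h
  simp only [chNdBφ] at this
  exact Fin.ext (by omega)

theorem chNdB_p1 (z : En 15) (r : ℝ) (j : Fin 4) : p1 (z + r • ee (chNdBφ j)) = p1 z := by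
  ext i
  exact add_smul_apply_ne z r fun h => by
    have := congrArg Fin.val h
    simp only [chNdBφ] at this
    omega

theorem chNdB_p3 (z : En 15) (r : ℝ) (j : Fin 4) : p3 (z + r • ee (chNdBφ j)) = p3 z := by
  ext i
  exact add_smul_apply_ne z r fun h => by
    have := congrArg Fin.val h
    simp only [chNdBφ] at this
    omega

theorem chNdB_c (x y : En 4) (n : En 7) (j : Fin 4) : (j15 x y n) (chNdBφ j) = y j :=
  congrArg (fun w : En 4 => w j) (p2_j15 x y n)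

theorem chNdB_t (x y : En 4) (n : En 7) (j : Fin 4) (r : ℝ) :
    j15 x (y + r • ee j) n = j15 x y n + r • ee (chNdBφ j) := by
  have h1 : p1 (j15 x (y + r • ee j) n) = p1 (j15 x y n + r • ee (chNdBφ j)) := by
    rw [chNdB_p1, p1_j15, p1_j15]
  have h3 : p3 (j15 x (y + r • ee j) n) = p3 (j15 x y n + r • ee (chNdBφ j)) := by
    rw [chNdB_p3, p3_j15, p3_j15]
  have h2 : p2 (j15 x (y + r • ee j) n) = p2 (j15 x y n + r • ee (chNdBφ j)) := by
    rw [p2_j15]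
    ext i
    change (y + r • ee j : En 4) i = (j15 x y n + r • ee (chNdBφ j) : En 15) (chNdBφ i)
    by_cases h : i = j
    · subst h
      rw [add_smul_apply_self, add_smul_apply_self, chNdB_c]
    · rw [add_smul_apply_ne _ _ h, add_smul_apply_ne _ _ fun h' => h (chNdB_inj h'), chNdB_c]
  rw [← j15_p (j15 x (y + r • ee j) n), ← j15_p (j15 x y n + r • ee (chNdBφ j)), h1, h2, h3]

theorem chNdB_smooth {q : ℕ} {f g : En q → En 4} {h : En q → En 7} (hf : ContDiff ℝ ∞ f)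
    (hg : ContDiff ℝ ∞ g) (hh : ContDiff ℝ ∞ h) :
    ContDiff ℝ ∞ fun z => j15 (f z) (g z) (h z) := by
  rw [contDiff_euclidean]
  intro i
  have e : ∀ z, (j15 (f z) (g z) (h z)) i = if h1 : i.1 < 4 then f z ⟨i, h1⟩ else
    if h' : i.1 < 8 then g z ⟨i - 4, by omega⟩ else h z ⟨i - 8, by omega⟩ := fun z => rfl
  simp only [e]
  split_ifs with h1 h2
  · exact contDiff_euclidean.1 hf _
  · exact contDiff_euclidean.1 hg _
  · exact contDiff_euclidean.1 hh _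

theorem chNdB_cont1 : Continuous p1 := by
  unfold p1
  fun_prop

theorem chNdB_cont3 : Continuous p3 := by
  unfold p3
  fun_prop

theorem chNdB_slf {Y : Set (En 4)} {O : Set (En 7)} (hY : IsOpen Y) (hO : IsOpen O) :
    SlF {z : En 15 | p1 z ∈ Y ∧ p3 z ∈ O} chNdBφ fun z y => j15 (p1 z) y (p3 z) where
  inj := chNdB_inj
  isOpen := (hY.preimage chNdB_cont1).inter (hO.preimage chNdB_cont3)
  inv := fun j z hz r => by
    change p1 _ ∈ Y ∧ p3 _ ∈ O
    rw [chNdB_p1, chNdB_p3]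
    exact hz
  smooth := fun z => chNdB_smooth contDiff_const contDiff_id contDiff_const
  mem := fun z hz y => by
    change p1 _ ∈ Y ∧ p3 _ ∈ O
    rw [p1_j15, p3_j15]
    exact hz
  eqv := fun z _ j => ⟨fun y _ => chNdB_c _ _ _ _, fun y _ r _ => chNdB_t _ _ _ _ _⟩
  on := fun z _ => ⟨p2 z, j15_p z⟩

theorem chNdB_box {Y : Set (En 4)} {O : Set (En 7)} (hY : IsOpen Y) (hO : IsOpen O)
    {u : En 15 → FA 15} (hu : ContDiffOn ℝ ∞ u {z | p1 z ∈ Y ∧ p3 z ∈ O})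
    (hs : ∀ z, p1 z ∈ Y → p3 z ∈ O → 1 < ‖p2 z‖ → u z = 0) :
    ∀ x ∈ {z : En 15 | p1 z ∈ Y ∧ p3 z ∈ O}, ∀ j,
      (x (chNdBφ j) ≤ -1 ∨ 1 ≤ x (chNdBφ j)) → u x = 0 := by
  intro x hx j hxj
  have hS := chNdB_slf hY hO
  have hc := continuousOn_tr (hS.inv j) hu.continuousOn hx
  have hz : ∀ τ : ℝ, 1 < |τ| → u (x + (τ - x (chNdBφ j)) • ee (chNdBφ j)) = 0 := by
    intro τ hτ
    have hm := hS.inv j x hx (τ - x (chNdBφ j))
    refine hs _ hm.1 hm.2 (hτ.trans_le ?_)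
    have h1 : (p2 (x + (τ - x (chNdBφ j)) • ee (chNdBφ j))) j = τ := by
      change (x + (τ - x (chNdBφ j)) • ee (chNdBφ j) : En 15) (chNdBφ j) = τ
      rw [add_smul_apply_self]
      ring
    have h2 := PiLp.norm_apply_le (p2 (x + (τ - x (chNdBφ j)) • ee (chNdBφ j))) j
    rwa [h1, Real.norm_eq_abs] at h2
  have hcl : IsClosed {τ : ℝ | u (x + (τ - x (chNdBφ j)) • ee (chNdBφ j)) = 0} :=
    isClosed_eq hc continuous_const
  have hmem : x (chNdBφ j) ∈ {τ : ℝ | u (x + (τ - x (chNdBφ j)) • ee (chNdBφ j)) = 0} := by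
    rcases hxj with h | h
    · have hsub : Set.Iio (-1 : ℝ) ⊆ {τ : ℝ | u (x + (τ - x (chNdBφ j)) • ee (chNdBφ j)) = 0} := by
        intro τ hτ
        refine hz τ ?_
        rw [abs_of_neg (by have := Set.mem_Iio.1 hτ; linarith)]
        have := Set.mem_Iio.1 hτ
        linarith
      have h3 := hcl.closure_subset_iff.2 hsub
      rw [closure_Iio] at h3
      exact h3 (Set.mem_Iic.2 h)
    · have hsub : Set.Ioi (1 : ℝ) ⊆ {τ : ℝ | u (x + (τ - x (chNdBφ j)) • ee (chNdBφ j)) = 0} := by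
        intro τ hτ
        refine hz τ ?_
        rw [abs_of_pos (by have := Set.mem_Ioi.1 hτ; linarith)]
        exact Set.mem_Ioi.1 hτ
      have h3 := hcl.closure_subset_iff.2 hsub
      rw [closure_Ioi] at h3
      exact h3 (Set.mem_Ici.2 h)
  have h4 : u (x + (x (chNdBφ j) - x (chNdBφ j)) • ee (chNdBφ j)) = 0 := hmem
  rwa [sub_self, zero_smul, add_zero] at h4

/-- Poincare lemma with compact supports in the directions of `y`, `(x, y, n) ∈ Y × ℝ⁴ × O`: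
a closed four form with support in `‖y‖ ≤ 1`, whose integrals over the slices vanish. -/
theorem poincare_y (Y : Set (En 4)) (O : Set (En 7)) (hY : IsOpen Y) (hO : IsOpen O)
    (u : En 15 → FA 15) (hu : ContDiffOn ℝ ∞ u {z | p1 z ∈ Y ∧ p3 z ∈ O})
    (hd : ∀ z, p1 z ∈ Y → p3 z ∈ O → (u z).IsDeg 4)
    (hc : ∀ z, p1 z ∈ Y → p3 z ∈ O → dF u z = 0)
    (hs : ∀ z, p1 z ∈ Y → p3 z ∈ O → 1 < ‖p2 z‖ → u z = 0)
    (hi : ∀ x ∈ Y, ∀ n ∈ O, ∫ y, (pbF (sl2 x n) u y).co Finset.univ = 0) :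
    ∃ v : En 15 → FA 15, ContDiffOn ℝ ∞ v {z | p1 z ∈ Y ∧ p3 z ∈ O} ∧
      (∀ z, p1 z ∈ Y → p3 z ∈ O → (v z).IsDeg 3) ∧
      (∀ z, p1 z ∈ Y → p3 z ∈ O → 2 < ‖p2 z‖ → v z = 0) ∧
      ∀ z, p1 z ∈ Y → p3 z ∈ O → dF v z = u z := by
  obtain ⟨v, h1, h2, h3, _, h5⟩ := FA_P3s (chNdB_slf hY hO) (lo := fun _ => -1) (hi := fun _ => 1)
    (fun _ => by norm_num) hu (fun z hz => hc z hz.1 hz.2) (fun z hz => hd z hz.1 hz.2)
    (chNdB_box hY hO hu hs) (fun z hz => hi (p1 z) hz.1 (p3 z) hz.2)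
  refine ⟨v, h1, fun z _ _ => h5 3 rfl z, fun z hz1 hz3 hz => ?_, fun z hz1 hz3 => h3 z ⟨hz1, hz3⟩⟩
  by_contra hv
  have hb : ∀ j, |(p2 z) j| < 1 := by
    intro j
    by_contra hj
    refine hv (h2 z ⟨hz1, hz3⟩ j ?_)
    have h6 : 1 ≤ |z (chNdBφ j)| := not_lt.1 hj
    rcases le_abs.1 h6 with h | h
    · exact Or.inr h
    · exact Or.inl (by linarith)
  have h7 : ‖p2 z‖ ^ 2 ≤ 4 := by
    rw [EuclideanSpace.norm_sq_eq]
    have : ∀ j ∈ (Finset.univ : Finset (Fin 4)), ‖(p2 z) j‖ ^ 2 ≤ 1 := by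
      intro j _
      rw [Real.norm_eq_abs]
      exact pow_le_one₀ (abs_nonneg _) (hb j).le
    have h8 := Finset.sum_le_card_nsmul _ _ _ this
    simpa using h8
  nlinarith [norm_nonneg (p2 z)]

/-- The integral over the slices of such a form does not change along segments in `Y`. -/
theorem slice_const (Y : Set (En 4)) (O : Set (En 7)) (hY : IsOpen Y) (hYc : Convex ℝ Y)
    (hO : IsOpen O)
    (u : En 15 → FA 15) (hu : ContDiffOn ℝ ∞ u {z | p1 z ∈ Y ∧ p3 z ∈ O})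
    (hd : ∀ z, p1 z ∈ Y → p3 z ∈ O → (u z).IsDeg 4)
    (hc : ∀ z, p1 z ∈ Y → p3 z ∈ O → dF u z = 0)
    (hs : ∀ z, p1 z ∈ Y → p3 z ∈ O → 1 < ‖p2 z‖ → u z = 0)
    {x x' : En 4} (hx : x ∈ Y) (hx' : x' ∈ Y) {n : En 7} (hn : n ∈ O) :
    ∫ y, (pbF (sl2 x n) u y).co Finset.univ = ∫ y, (pbF (sl2 x' n) u y).co Finset.univ := by
  have hg : ∀ x : En 4, (fun y => j15 (p1 (j15 x 0 n)) y (p3 (j15 x 0 n))) = sl2 x n := by
    intro x
    funext y
    rw [p1_j15, p3_j15]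
    rfl
  have h := slice_const_gen (chNdB_slf hY hO) (lo := fun _ => -1) (hi := fun _ => 1)
    (fun _ => by norm_num) hu (fun z hz => hc z hz.1 hz.2) (fun z hz => hd z hz.1 hz.2)
    (chNdB_box hY hO hu hs) hY hYc.isPreconnected (γ := fun x : En 4 => j15 x 0 n)
    (chNdB_smooth contDiff_id contDiff_const contDiff_const)
    (fun y hy => ⟨by rw [p1_j15]; exact hy, by rw [p3_j15]; exact hn⟩)
    (fun y _ => by rw [p1_j15, p3_j15]) hx hx'
  rw [hg, hg] at h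
  exact h

end Pool.Agent.EXO.CH
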