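import Mathlib

/-!
# EXO / ChRad: the radial integral (degree of `θ : ℝ³ → S³`)

`θ(u) = α(|u|²) + β(|u|²) u`, `α² + t β² = 1`, `β ≥ 0`, `α(0) = -1`, `α(t) = 1` for `t ≥ T`.
The pull back of the volume form of `S³` is `-2 β(t) α'(t) du` and its integral is `-2π²`.
-/

set_option autoImplicit false
set_option maxSynthPendingDepth 3

namespace Pool.Agent.EXO

open MeasureTheory Set Real

/-- The data `α`, `β` of a radial map `θ(u) = α(|u|²) + β(|u|²) u` of degree one. -/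
structure RadTheta where
  α : ℝ → ℝ
  β : ℝ → ℝ
  hα : ContDiff ℝ (⊤ : ℕ∞) α
  hβ : ContDiff ℝ (⊤ : ℕ∞) β
  T : ℝ
  hT : 0 < T
  norm_one : ∀ t, 0 ≤ t → α t ^ 2 + t * β t ^ 2 = 1
  β_nonneg : ∀ t, 0 ≤ t → 0 ≤ β t
  α_zero : α 0 = -1
  α_T : ∀ t, T ≤ t → α t = 1

theorem RadTheta.integral_one (Θ : RadTheta) :
    ∫ r in Ioi (0 : ℝ), r ^ 2 * (-2 * Θ.β (r ^ 2) * deriv Θ.α (r ^ 2)) = - (π / 2) := by
  have hd : ∀ r : ℝ, HasDerivAt (fun r => Θ.α (r ^ 2)) (deriv Θ.α (r ^ 2) * (2 * r)) r := by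
    intro r
    have h1 : HasDerivAt Θ.α (deriv Θ.α (r ^ 2)) (r ^ 2) :=
      ((Θ.hα.differentiable (by simp)) (r ^ 2)).hasDerivAt
    have h2 : HasDerivAt (fun r : ℝ => r ^ 2) (2 * r) r := by simpa using hasDerivAt_pow 2 r
    exact HasDerivAt.comp (h₂ := Θ.α) (h := fun r : ℝ => r ^ 2) r h1 h2
  have hcd : Continuous (deriv Θ.α) := Θ.hα.continuous_deriv (by simp)
  set R : ℝ := √Θ.T + 1 with hR
  have hR0 : 0 < R := by positivity
  have hRT : ∀ r, R ≤ r → Θ.T ≤ r ^ 2 := by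
    intro r hr
    have h1 : √Θ.T ≤ r := by linarith
    calc Θ.T = √Θ.T ^ 2 := (Real.sq_sqrt Θ.hT.le).symm
      _ ≤ r ^ 2 := pow_le_pow_left₀ (Real.sqrt_nonneg _) h1 2
  -- deriv vanishes beyond R
  have hz : ∀ r, R < r → deriv Θ.α (r ^ 2) = 0 := by
    intro r hr
    have h1 : Θ.T < r ^ 2 := by
      have h1 : √Θ.T < r := by linarith
      calc Θ.T = √Θ.T ^ 2 := (Real.sq_sqrt Θ.hT.le).symm
        _ < r ^ 2 := pow_lt_pow_left₀ h1 (Real.sqrt_nonneg _) (by norm_num)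
    have h2 : Θ.α =ᶠ[nhds (r ^ 2)] fun _ => 1 := by
      filter_upwards [Ioi_mem_nhds h1] with t ht
      exact Θ.α_T t (le_of_lt ht)
    rw [h2.deriv_eq]
    simp
  have hsplit : ∫ r in Ioi (0 : ℝ), r ^ 2 * (-2 * Θ.β (r ^ 2) * deriv Θ.α (r ^ 2)) =
      ∫ r in (0 : ℝ)..R, r ^ 2 * (-2 * Θ.β (r ^ 2) * deriv Θ.α (r ^ 2)) := by
    rw [intervalIntegral.integral_of_le hR0.le]
    refine setIntegral_eq_of_subset_of_forall_sdiff_eq_zero measurableSet_Ioi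
      (Ioc_subset_Ioi_self) fun r hr => ?_
    have h3 : R < r := by
      by_contra hcon
      exact hr.2 ⟨hr.1, not_lt.1 hcon⟩
    rw [hz r h3]
    ring
  rw [hsplit]
  have hcongr : ∫ r in (0 : ℝ)..R, r ^ 2 * (-2 * Θ.β (r ^ 2) * deriv Θ.α (r ^ 2)) =
      ∫ r in (0 : ℝ)..R, -(((fun x => √(1 - x ^ 2)) ∘ fun r => Θ.α (r ^ 2)) r *
        (deriv Θ.α (r ^ 2) * (2 * r))) := by
    refine intervalIntegral.integral_congr fun r hr => ?_
    rw [uIcc_of_le hR0.le] at hr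
    have h4 : √(1 - Θ.α (r ^ 2) ^ 2) = r * Θ.β (r ^ 2) := by
      have h5 : 1 - Θ.α (r ^ 2) ^ 2 = (r * Θ.β (r ^ 2)) ^ 2 := by
        have := Θ.norm_one (r ^ 2) (sq_nonneg r)
        rw [mul_pow]
        linarith
      rw [h5]
      exact Real.sqrt_sq (mul_nonneg hr.1 (Θ.β_nonneg _ (sq_nonneg r)))
    simp only [Function.comp]
    rw [h4]
    ring
  rw [hcongr, intervalIntegral.integral_neg,
    intervalIntegral.integral_comp_mul_deriv (fun r _ => hd r)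
      (by fun_prop) (by fun_prop)]
  have e1 : Θ.α (0 ^ 2) = -1 := by norm_num [Θ.α_zero]
  have e2 : Θ.α (R ^ 2) = 1 := Θ.α_T _ (hRT R le_rfl)
  rw [e1, e2, integral_sqrt_one_sub_sq]

/-- `∫_{ℝ³} -2 β α' du = -2π²`. -/
theorem RadTheta.integral_three (Θ : RadTheta) :
    ∫ u : EuclideanSpace ℝ (Fin 3), -2 * Θ.β (‖u‖ ^ 2) * deriv Θ.α (‖u‖ ^ 2) = - (2 * π ^ 2) := by
  have h := integral_fun_norm_addHaar (volume : Measure (EuclideanSpace ℝ (Fin 3)))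
    (fun r => -2 * Θ.β (r ^ 2) * deriv Θ.α (r ^ 2))
  rw [h]
  have hdim : Module.finrank ℝ (EuclideanSpace ℝ (Fin 3)) = 3 := by simp
  rw [hdim, measureReal_def, EuclideanSpace.volume_ball_fin_three]
  simp only [smul_eq_mul, Nat.reduceSub, nsmul_eq_mul]
  rw [Θ.integral_one]
  simp only [ENNReal.ofReal_one, one_pow, one_mul]
  rw [ENNReal.toReal_ofReal (by positivity)]
  push_cast
  ring

end Pool.Agent.EXO
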