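import Mathlib
import Pool.Agent.EXO.ChRqA
import Pool.Agent.EXO.ChRad

/-!
# EXO / ChRadT: the integral of the coefficient of `τ₀`

PROOFS.  `exists_radT`: `α = alT l`, `β = beT l`, `T = (3 l / 8)²` (`psi l r = 0` for `r ≥ 3 l / 8`, `psi l 0 = π`, `0 ≤ psi ≤ π` so
`sin ≥ 0`; `alT_beT`, `contDiff_alT`, `contDiff_beT`).  `integral_coT`: `coT l u = 16 * (...)`, `RadTheta.integral_three`.
-/

set_option autoImplicit false
set_option maxSynthPendingDepth 3
set_option linter.unusedSectionVars false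

open Set MeasureTheory Matrix
open scoped ContDiff

namespace Pool.Agent.EXO.CH

theorem exists_radT {l : ℝ} (hl : 0 < l) : ∃ Θ : RadTheta, Θ.α = alT l ∧ Θ.β = beT l := by
  have hpsi : ∀ r, 0 ≤ psi l r ∧ psi l r ≤ Real.pi := by
    intro r
    have h1 := Real.smoothTransition.nonneg (4 * (r / l - 1 / 8))
    have h2 := Real.smoothTransition.le_one (4 * (r / l - 1 / 8))
    have h3 := Real.pi_pos
    unfold psi stp
    constructor
    · exact mul_nonneg h3.le (by linarith)
    · nlinarith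
  refine ⟨⟨alT l, beT l, contDiff_alT hl, contDiff_beT hl, (3 * l / 8) ^ 2, by positivity,
    fun t ht => alT_beT hl ht, fun t ht => ?_, ?_, fun t ht => ?_⟩, rfl, rfl⟩
  · exact div_nonneg (Real.sin_nonneg_of_nonneg_of_le_pi (hpsi _).1 (hpsi _).2) (Real.sqrt_nonneg _)
  · have h1 : stp (4 * (Real.sqrt 0 / l - 1 / 8)) = 0 :=
      Real.smoothTransition.zero_of_nonpos (by rw [Real.sqrt_zero, zero_div]; norm_num)
    simp only [alT, psi]
    rw [h1, sub_zero, mul_one, Real.cos_pi]
  · have h0 : 3 * l / 8 ≤ Real.sqrt t := by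
      have h3 : 0 ≤ 3 * l / 8 := by positivity
      rw [← Real.sqrt_sq h3]
      exact Real.sqrt_le_sqrt ht
    have h1 : stp (4 * (Real.sqrt t / l - 1 / 8)) = 1 := by
      refine Real.smoothTransition.one_of_one_le ?_
      have h4 : 3 / 8 ≤ Real.sqrt t / l := by
        rw [le_div_iff₀ hl]
        linarith
      linarith
    simp only [alT, psi]
    rw [h1, sub_self, mul_zero, Real.cos_zero]

theorem integral_coT {l : ℝ} (hl : 0 < l) : ∫ u : En 3, coT l u = -(32 * Real.pi ^ 2) := by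
  obtain ⟨Θ, h1, h2⟩ := exists_radT hl
  have h3 := Θ.integral_three
  rw [h1, h2] at h3
  have h4 : ∫ u : En 3, coT l u =
      16 * ∫ u : En 3, -2 * beT l (‖u‖ ^ 2) * deriv (alT l) (‖u‖ ^ 2) := by
    rw [← integral_const_mul]
    rfl
  rw [h4, h3]
  ring

end Pool.Agent.EXO.CH
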