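import Mathlib
import Pool.Agent.EXO.ChAFc
import Pool.Agent.EXO.ChRadT

/-!
# EXO / ChConB: `∫ aF = -32 π²`

PROOF.  `ℝ⁴ = ℝ × ℝ³` by a measure preserving equivalence (`MeasurableEquiv.piFinSuccAbove`,
`volume_preserving_piFinSuccAbove`, `EuclideanSpace.volume_preserving_measurableEquiv` (or `.symm`)), `x = mk4 t v`, so
`∫ (aF l x).co = ∫ t, ∫ v : En 3, (aF l (mk4 t v)).co`; zero for `t ≤ 0` (`aF_ne`).  For fixed `t > 0` substitute `v = t • u`
(`Measure.integral_comp_smul`: `∫ f (t • u) du = t⁻³ ∫ f`, finrank `3`): `mk4 t (t • u) = t • mk4 1 u` and by `aF_co`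
`∫ v, (aF l (mk4 t v)).co = t³ ∫ u, (aF l (t • mk4 1 u)).co = ∫ u, (fderiv ℝ ph (t • mk4 1 u) (mk4 1 u)) * coT l u
= ∫ u, (d/dt (ph (t • mk4 1 u))) * coT l u`.  Exchange the integrals (`integral_integral_swap`; the integrand is continuous with
compact support in `(t, u)`: zero unless `t ≤ 2` and `‖u‖ ≤ 1`; restrict `t` to `[0, 3]`), and
`∫ t in 0..3, d/dt ph (t • mk4 1 u) = ph (3 • mk4 1 u) - ph 0 = 1` (`intervalIntegral.integral_eq_sub_of_hasDerivAt`, `ph_one`:
`‖mk4 1 u‖ ≥ 1`).  Remains `∫ u, coT l u = -32 π²` (`integral_coT`).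
-/

set_option autoImplicit false
set_option maxSynthPendingDepth 3
set_option linter.unusedSectionVars false

open Set MeasureTheory Matrix
open scoped ContDiff

namespace Pool.Agent.EXO.CH

/-- `(t, v) ↦ mk4 t v` as a measurable equivalence. -/
private noncomputable def ChConB_e : ℝ × En 3 ≃ᵐ En 4 :=
  ((MeasurableEquiv.refl ℝ).prodCongr (MeasurableEquiv.toLp 2 (Fin 3 → ℝ)).symm).trans
    ((MeasurableEquiv.piFinSuccAbove (fun _ : Fin 4 => ℝ) 0).symm.trans
      (MeasurableEquiv.toLp 2 (Fin 4 → ℝ)))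

private theorem ChConB_e_apply (t : ℝ) (v : En 3) : ChConB_e (t, v) = mk4 t v := by
  ext i
  fin_cases i <;> rfl

private theorem ChConB_mp : MeasurePreserving ChConB_e (volume : Measure (ℝ × En 3)) volume := by
  have h1 : MeasurePreserving ((MeasurableEquiv.refl ℝ).prodCongr
      (MeasurableEquiv.toLp 2 (Fin 3 → ℝ)).symm) (volume : Measure (ℝ × En 3)) volume :=
    (MeasurePreserving.id volume).prod
      (EuclideanSpace.volume_preserving_symm_measurableEquiv_toLp (Fin 3))
  have h2 := (volume_preserving_piFinSuccAbove (fun _ : Fin 4 => ℝ) 0).symm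
  have h3 := (EuclideanSpace.volume_preserving_symm_measurableEquiv_toLp (Fin 4)).symm
  exact (h3.comp h2).comp h1

private theorem ChConB_vec4_mk4 (t : ℝ) (v : En 3) : vec4 (mk4 t v) = v := by
  ext i
  fin_cases i <;> rfl

private theorem ChConB_mk4_zero (t : ℝ) (v : En 3) : mk4 t v 0 = t := rfl

private theorem ChConB_mk4_smul (t : ℝ) (u : En 3) : mk4 t (t • u) = t • mk4 1 u := by
  ext i
  fin_cases i <;> simp [mk4]

private theorem ChConB_norm (u : En 3) : 1 ≤ ‖mk4 1 u‖ := by
  have h := norm_sq_four (mk4 1 u)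
  rw [ChConB_mk4_zero] at h
  nlinarith [norm_nonneg (mk4 1 u), sq_nonneg ‖vec4 (mk4 1 u)‖]

private theorem ChConB_cont_co : Continuous fun u : FA 4 => u.co Finset.univ :=
  (EuclideanSpace.proj (𝕜 := ℂ) (Finset.univ : Finset (Fin 4))).continuous

private theorem ChConB_cont_mk4 : Continuous fun u : En 3 => mk4 1 u := by
  have h : (fun u : En 3 => mk4 1 u) = fun u => ChConB_e (1, u) := by
    funext u
    rw [ChConB_e_apply]
  have h2 : (fun u : En 3 => mk4 1 u)
      = fun u : En 3 => (WithLp.toLp 2 ![1, u 0, u 1, u 2] : En 4) := rfl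
  rw [h2]
  refine (contDiff_toLp fun i => ?_).continuous
  fin_cases i
  · exact contDiff_const
  · exact contDiff_coord 0
  · exact contDiff_coord 1
  · exact contDiff_coord 2

private noncomputable def ChConB_H (l : ℝ) (p : ℝ × En 3) : ℝ :=
  (fderiv ℝ (ph : En 4 → ℝ) (p.1 • mk4 1 p.2) (mk4 1 p.2)) * coT l p.2

private theorem ChConB_coT_cont {l : ℝ} (hl : 0 < l) : Continuous (coT l) := by
  have h1 : Continuous fun u : En 3 => beT l (‖u‖ ^ 2) :=
    (contDiff_beT hl).continuous.comp (continuous_norm.pow 2)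
  have h2 : Continuous fun u : En 3 => deriv (alT l) (‖u‖ ^ 2) :=
    ((contDiff_alT hl).continuous_deriv (by simp)).comp (continuous_norm.pow 2)
  exact continuous_const.mul ((continuous_const.mul h1).mul h2)

private theorem ChConB_H_cont {l : ℝ} (hl : 0 < l) : Continuous (ChConB_H l) := by
  have h1 : Continuous fun p : ℝ × En 3 => mk4 1 p.2 := ChConB_cont_mk4.comp continuous_snd
  have h2 : Continuous (fderiv ℝ (ph : En 4 → ℝ)) := contDiff_ph.continuous_fderiv (by simp)
  have h3 : Continuous fun p : ℝ × En 3 => fderiv ℝ (ph : En 4 → ℝ) (p.1 • mk4 1 p.2) :=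
    h2.comp (continuous_fst.smul h1)
  exact (h3.clm_apply h1).mul ((ChConB_coT_cont hl).comp continuous_snd)

private theorem ChConB_fderiv {x : En 4} (h : 2 < ‖x‖) : fderiv ℝ (ph : En 4 → ℝ) x = 0 := by
  have h1 : (ph : En 4 → ℝ) =ᶠ[nhds x] fun _ => 1 := by
    filter_upwards [(isOpen_lt continuous_const continuous_norm).mem_nhds h] with y hy
    exact ph_one (le_of_lt hy)
  rw [h1.fderiv_eq, fderiv_fun_const, Pi.zero_apply]

private theorem ChConB_H_supp {l : ℝ} (hl : 0 < l) (hl' : l < 1) : HasCompactSupport (ChConB_H l) := by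
  refine HasCompactSupport.intro
    ((isCompact_Icc (a := (-2 : ℝ)) (b := 2)).prod (isCompact_closedBall (0 : En 3) 1)) ?_
  rintro ⟨t, u⟩ hp
  rw [Set.mem_prod, not_and_or] at hp
  unfold ChConB_H
  rcases hp with h | h
  · have h2 : 2 < |t| := by
      by_contra h3
      exact h (abs_le.1 (not_lt.1 h3))
    have h3 : 2 < ‖t • mk4 1 u‖ := by
      rw [norm_smul, Real.norm_eq_abs]
      nlinarith [ChConB_norm u]
    rw [ChConB_fderiv h3]
    simp
  · have h2 : 3 * l / 8 ≤ ‖u‖ := by
      rw [mem_closedBall_zero_iff, not_le] at h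
      simp only at h
      linarith
    rw [coT_zero hl h2, mul_zero]

private theorem ChConB_inner {l : ℝ} (hl : 0 < l) (hl' : l < 1) (u : En 3) :
    ∫ t in Ioi (0 : ℝ), ChConB_H l (t, u) = coT l u := by
  have hsupp := ChConB_H_supp hl hl'
  have hd : ∀ t : ℝ, HasDerivAt (fun t : ℝ => ph (t • mk4 1 u) * coT l u) (ChConB_H l (t, u)) t := by
    intro t
    have h1 : HasFDerivAt (ph : En 4 → ℝ) (fderiv ℝ ph (t • mk4 1 u)) (t • mk4 1 u) :=
      (contDiff_ph.differentiable (by simp) _).hasFDerivAt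
    have h2 : HasDerivAt (fun t : ℝ => t • mk4 1 u) ((1 : ℝ) • mk4 1 u) t :=
      (hasDerivAt_id t).smul_const _
    rw [one_smul] at h2
    exact (h1.comp_hasDerivAt t h2).mul_const _
  have hint : IntegrableOn (fun t : ℝ => ChConB_H l (t, u)) (Ioi 0) := by
    apply Integrable.integrableOn
    have hc : Continuous fun t : ℝ => ChConB_H l (t, u) :=
      (ChConB_H_cont hl).comp (continuous_id.prodMk continuous_const)
    refine hc.integrable_of_hasCompactSupport ?_
    refine HasCompactSupport.intro (isCompact_Icc (a := (-2 : ℝ)) (b := 2)) ?_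
    intro t ht
    have h2 : 2 < |t| := by
      by_contra h3
      exact ht (abs_le.1 (not_lt.1 h3))
    have h3 : 2 < ‖t • mk4 1 u‖ := by
      rw [norm_smul, Real.norm_eq_abs]
      nlinarith [ChConB_norm u]
    unfold ChConB_H
    simp only
    rw [ChConB_fderiv h3]
    simp
  have ht : Filter.Tendsto (fun t : ℝ => ph (t • mk4 1 u) * coT l u) Filter.atTop
      (nhds (coT l u)) := by
    refine tendsto_const_nhds.congr' ?_
    filter_upwards [Filter.eventually_ge_atTop (2 : ℝ)] with t ht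
    rw [ph_one, one_mul]
    rw [norm_smul, Real.norm_of_nonneg (by linarith)]
    nlinarith [ChConB_norm u]
  rw [integral_Ioi_of_hasDerivAt_of_tendsto' (fun t _ => hd t) hint ht]
  rw [zero_smul, ph_zero (by simp), zero_mul, sub_zero]

theorem integral_aF {l : ℝ} (hl : 0 < l) (hl' : l < 1) : ∫ x, (aF l x).co Finset.univ = cC := by
  -- the integrand
  set F : En 4 → ℂ := fun x => (aF l x).co Finset.univ with hF
  have hFc : Continuous F := ChConB_cont_co.comp (contDiff_aF hl).continuous
  have hFz : ∀ x, x ∉ YC l → F x = 0 := by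
    intro x hx
    have h1 : aF l x = 0 := by
      by_contra h2
      exact hx (aF_ne hl h2)
    rw [hF]
    simp only [h1, FA.co_zero]
  have hFs : HasCompactSupport F := HasCompactSupport.intro (isCompact_YC l) hFz
  have hFi : Integrable F := hFc.integrable_of_hasCompactSupport hFs
  have hFi' : Integrable (fun p : ℝ × En 3 => F (ChConB_e p)) (volume : Measure (ℝ × En 3)) :=
    (ChConB_mp.integrable_comp_emb ChConB_e.measurableEmbedding).2 hFi
  have h1 : ∫ x, F x = ∫ t : ℝ, ∫ v : En 3, F (mk4 t v) := by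
    rw [← ChConB_mp.integral_comp ChConB_e.measurableEmbedding]
    have h2 := MeasureTheory.integral_prod (fun p : ℝ × En 3 => F (ChConB_e p)) hFi'
    rw [Measure.volume_eq_prod]
    rw [h2]
    simp only [ChConB_e_apply]
  have h2 : ∫ t : ℝ, ∫ v : En 3, F (mk4 t v) = ∫ t in Ioi (0 : ℝ), ∫ v : En 3, F (mk4 t v) := by
    symm
    apply setIntegral_eq_integral_of_forall_compl_eq_zero
    intro t ht
    have h3 : ∀ v : En 3, F (mk4 t v) = 0 := by
      intro v
      apply hFz
      rintro ⟨h4, h5, h6, -⟩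
      rw [ChConB_mk4_zero] at h4 h5
      have h7 : t = 0 := le_antisymm (not_lt.1 ht) h4
      rw [h7, mul_zero] at h5
      have h8 := norm_sq_four (mk4 t v)
      rw [ChConB_mk4_zero, h7, ← h7] at h8
      have h9 : ‖vec4 (mk4 t v)‖ = 0 := le_antisymm (by rw [h7]; exact h5) (norm_nonneg _)
      rw [h9, h7] at h8
      rw [h7] at h6
      nlinarith [norm_nonneg (mk4 0 v)]
    simp only [h3, integral_zero]
  have h3 : ∀ t ∈ Ioi (0 : ℝ), ∫ v : En 3, F (mk4 t v) = ∫ u : En 3, ((ChConB_H l (t, u) : ℝ) : ℂ) := by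
    intro t ht
    have ht' : (0 : ℝ) < t := ht
    have h4 := Measure.integral_comp_smul (volume : Measure (En 3)) (fun v => F (mk4 t v)) t
    have h5 : Module.finrank ℝ (En 3) = 3 := by simp
    rw [h5, abs_of_pos (by positivity)] at h4
    have h6 : ∫ v : En 3, F (mk4 t v) = (t ^ 3) • ∫ u : En 3, F (mk4 t (t • u)) := by
      rw [h4, smul_smul, mul_inv_cancel₀ (by positivity), one_smul]
    rw [h6, ← integral_smul]
    congr 1
    funext u
    rw [ChConB_mk4_smul, hF]
    simp only
    rw [aF_co hl ht' u, ChConB_H, Complex.real_smul, ← Complex.ofReal_mul]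
    congr 1
    have h7 : t ^ 3 ≠ 0 := by positivity
    field_simp
  rw [h1, h2, setIntegral_congr_fun measurableSet_Ioi h3]
  have hHi : Integrable (fun p : ℝ × En 3 => ((ChConB_H l p : ℝ) : ℂ))
      ((volume.restrict (Ioi (0 : ℝ))).prod (volume : Measure (En 3))) := by
    have h4 : Integrable (ChConB_H l) (volume : Measure (ℝ × En 3)) :=
      (ChConB_H_cont hl).integrable_of_hasCompactSupport (ChConB_H_supp hl hl')
    have h5 : ((volume.restrict (Ioi (0 : ℝ))).prod (volume : Measure (En 3)))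
        = (volume : Measure (ℝ × En 3)).restrict (Ioi (0 : ℝ) ×ˢ univ) := by
      rw [Measure.volume_eq_prod, ← Measure.prod_restrict, Measure.restrict_univ]
    rw [h5]
    exact h4.restrict.ofReal
  rw [MeasureTheory.integral_integral_swap (f := fun (t : ℝ) (u : En 3) => ((ChConB_H l (t, u) : ℝ) : ℂ)) hHi]
  have h4 : ∀ u : En 3, ∫ t in Ioi (0 : ℝ), ((ChConB_H l (t, u) : ℝ) : ℂ) = ((coT l u : ℝ) : ℂ) := by
    intro u
    rw [integral_complex_ofReal, ChConB_inner hl hl' u]
  simp only [h4]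
  rw [integral_complex_ofReal, integral_coT hl, cC]
  push_cast
  ring

end Pool.Agent.EXO.CH
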