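import Mathlib
import Pool.Agent.EXO.ChRel
import Pool.Agent.EXO.ChCl
import Pool.Agent.EXO.ChConB
import Pool.Agent.EXO.ChNdB

/-!
# EXO / ChSl: the integral of `α'` over a slice, part 1

`ι x = j15 x (bv 0) n`, `n ∈ C.O`.  `gK (ι x) = ‖x‖² / (‖x‖² + 1) < 1`, `g1 (ι x) = 1 / (1 + ‖x‖²) ≤ 1`, so `ι` maps `ℝ⁴` to `dom gK C.O 20000`
and to `dom g1 C.O 20000`.  `T1 l (ι x) = ι (ivn x)` (`T1_slice`), `p1 (ι x) = x`.

PROOFS.
* `smooth_bS`, `smooth_bH`: `contDiffOn_csF`, `contDiffOn_pbΨ` (`D.b`), `contDiff_pbF`-like (`contDiffOn_pbF` with `U = dom ..`).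
* `dF_bS`: `dF_pbF` and `al_cs`.
* `dF_bH`: `dF (bH) x = pbF ι (pbF H1.Ψ al) x` (`al_cs` for `H1`), and `g1 (ι x) > 1/3` for `‖x‖² < 2`, so `sup1` gives
  `pbF H1.Ψ al (ι x) = 0`.
* `bS_rel`: for `x ≠ 0`: `csK = pbF T1 csH + dF lam + pbF p1 tau0` near `ι x` (`hlam`), `pbF K.Ψ b = pbF T1 (pbF H1.Ψ b)` near `ι x`
  (`trK1'`, `pbF_comp`), so `bS x = pbF ι (pbF T1 (csH - pbF H1.Ψ b)) x + pbF ι (dF lam) x + pbF ι (pbF p1 tau0) x`;
  `pbF ι ∘ pbF T1 = pbF (T1 ∘ ι) = pbF (ι ∘ ivn) = pbF ivn ∘ pbF ι` (`pbF_comp`), `pbF ι (dF lam) = dF (pbF ι lam)` (`dF_pbF`),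
  `pbF ι (pbF p1 tau0) = pbF id tau0 = tau0` (`FAMap_id`).
-/

set_option autoImplicit false
set_option maxSynthPendingDepth 3
set_option linter.unusedSectionVars false

open Set MeasureTheory Matrix
open scoped ContDiff

namespace Pool.Agent.EXO.CH

/-- The slice `x ↦ (x, e₀, n)`. -/
noncomputable def sl1 (n : En 7) (x : En 4) : En 15 := j15 x (bv 0) n

private theorem csl_two : (2 : WithTop ℕ∞) ≤ ∞ := by
  have h : ((2 : ℕ∞) : WithTop ℕ∞) ≤ ((⊤ : ℕ∞) : WithTop ℕ∞) := WithTop.coe_le_coe.mpr le_top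
  exact h

theorem contDiff_sl1 (n : En 7) : ContDiff ℝ ∞ (sl1 n) :=
  contDiff_j15.comp (contDiff_id.prodMk (contDiff_const.prodMk contDiff_const))

private theorem csl_bv0 : ‖(bv 0 : En 4)‖ = 1 := by
  simp [bv]

private theorem csl_gK (n : En 7) (x : En 4) : gK (sl1 n x) = ‖x‖ ^ 2 / (‖x‖ ^ 2 + 1) := by
  simp [gK, sl1, csl_bv0]

private theorem csl_g1 (n : En 7) (x : En 4) : g1 (sl1 n x) = 1 / (1 + ‖x‖ ^ 2) := by
  simp [g1, sl1, csl_bv0]

private theorem csl_p3 (n : En 7) (x : En 4) : p3 (sl1 n x) = n := by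
  simp [sl1]

private theorem csl_p1 (n : En 7) (x : En 4) : p1 (sl1 n x) = x := by
  simp [sl1]

theorem sl1_mem {O : Set (En 7)} {n : En 7} (hn : n ∈ O) (x : En 4) :
    sl1 n x ∈ dom gK O 20000 ∧ sl1 n x ∈ dom g1 O 20000 := by
  have h0 : 0 ≤ ‖x‖ ^ 2 := by positivity
  refine ⟨⟨?_, ?_⟩, ⟨?_, ?_⟩⟩
  · rw [csl_gK, div_lt_iff₀ (by linarith)]
    linarith
  · rw [csl_p3]
    exact hn
  · rw [csl_g1, div_lt_iff₀ (by linarith)]
    linarith
  · rw [csl_p3]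
    exact hn

variable {N : OrGeo 6 7} {C : Collar N.carrier} {l : ℝ} {W : WD N C l}

/-- The primitive of `α'` on the slice, from the piece `K`. -/
noncomputable def FD.bS (D : FD W) (n : En 7) : En 4 → FA 4 :=
  pbF (sl1 n) (fun z => W.csK z - pbF W.K.Ψ D.b z)

/-- The primitive of `α'` on the slice, from the piece `H₁`. -/
noncomputable def FD.bH (D : FD W) (n : En 7) : En 4 → FA 4 :=
  pbF (sl1 n) (fun z => W.csH z - pbF W.H1.Ψ D.b z)

variable (D : FD W) {n : En 7} (hn : n ∈ C.O)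

include hn

private theorem csl_uK : ContDiffOn ℝ ∞ (fun z => W.csK z - pbF W.K.Ψ D.b z)
    (dom gK C.O 20000) :=
  (Frame.contDiffOn_csF (isOpen_dom C goodK 20000) (VPiece.frame W.K goodK)).sub
    (VPiece.contDiffOn_pbΨ W.K goodK D.smooth_b)

private theorem csl_uH : ContDiffOn ℝ ∞ (fun z => W.csH z - pbF W.H1.Ψ D.b z)
    (dom g1 C.O 20000) :=
  (Frame.contDiffOn_csF (isOpen_dom C good1 20000) (VPiece.frame W.H1 good1)).sub
    (VPiece.contDiffOn_pbΨ W.H1 good1 D.smooth_b)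

theorem smooth_bS : ContDiff ℝ ∞ (D.bS n) := by
  rw [← contDiffOn_univ]
  exact contDiffOn_pbF isOpen_univ (contDiff_sl1 n).contDiffOn
    (fun x _ => (sl1_mem hn x).1) (csl_uK D hn)

theorem smooth_bH : ContDiff ℝ ∞ (D.bH n) := by
  rw [← contDiffOn_univ]
  exact contDiffOn_pbF isOpen_univ (contDiff_sl1 n).contDiffOn
    (fun x _ => (sl1_mem hn x).2) (csl_uH D hn)

theorem deg_bH (x : En 4) : (D.bH n x).IsDeg 3 := by
  refine deg_pbF _ _ _ ?_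
  exact deg_sub (Frame.deg_csF _ _) (deg_pbF _ _ _ (D.deg_b _))

theorem dF_bS (x : En 4) : dF (D.bS n) x = pbF (sl1 n) (pbF W.K.Ψ D.al) x := by
  have hz := (sl1_mem hn x).1
  have h1 : DifferentiableAt ℝ (fun z => W.csK z - pbF W.K.Ψ D.b z) (sl1 n x) :=
    (((csl_uK D hn) _ hz).contDiffAt ((isOpen_dom C goodK 20000).mem_nhds hz)).differentiableAt
      (by simp)
  unfold FD.bS
  rw [dF_pbF ((contDiff_sl1 n).contDiffAt.of_le csl_two) h1]
  exact pbF_congr Filter.EventuallyEq.rfl (D.al_cs W.K goodK hz).symm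

theorem dF_bH (hl : 0 < l) {x : En 4} (hx : ‖x‖ < 7 / 5) : dF (D.bH n) x = 0 := by
  have hz := (sl1_mem hn x).2
  have h1 : DifferentiableAt ℝ (fun z => W.csH z - pbF W.H1.Ψ D.b z) (sl1 n x) :=
    (((csl_uH D hn) _ hz).contDiffAt ((isOpen_dom C good1 20000).mem_nhds hz)).differentiableAt
      (by simp)
  have h2 : pbF W.H1.Ψ D.al (sl1 n x) = 0 := by
    by_contra h
    have h3 := D.sup1 hl hz h
    rw [csl_g1, div_le_div_iff₀ (by positivity) (by norm_num)] at h3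
    have h4 : ‖x‖ ^ 2 < 2 := by
      have h5 := norm_nonneg x
      nlinarith
    linarith
  have h3 : dF (fun z => W.csH z - pbF W.H1.Ψ D.b z) (sl1 n x) = 0 := by
    rw [← h2]
    exact (D.al_cs W.H1 good1 hz).symm
  unfold FD.bH
  rw [dF_pbF ((contDiff_sl1 n).contDiffAt.of_le csl_two) h1]
  have h5 : pbF (sl1 n) (dF fun z => W.csH z - pbF W.H1.Ψ D.b z) x =
      FAMap (fderiv ℝ (sl1 n) x) (dF (fun z => W.csH z - pbF W.H1.Ψ D.b z) (sl1 n x)) := rfl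
  rw [h5, h3, FAMap_zero]

theorem bS_rel (hl : 0 < l) {lam : En 15 → FA 15}
    (h1 : ContDiffOn ℝ ∞ lam {z | z ∈ dom gK C.O 20000 ∧ p1 z ≠ 0})
    (h3 : ∀ z ∈ dom gK C.O 20000, p1 z ≠ 0 →
      W.csK z = pbF (T1 l) W.csH z + dF lam z + pbF p1 (tau0 l) z) {x : En 4} (hx : x ≠ 0) :
    D.bS n x = pbF ivn (D.bH n) x + dF (pbF (sl1 n) lam) x + tau0 l x := by
  have hz := (sl1_mem hn x).1
  have hp : p1 (sl1 n x) ≠ 0 := by
    rw [csl_p1]
    exact hx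
  have hoK := isOpen_dom C goodK 20000
  have hoP : IsOpen {z : En 15 | p1 z ≠ 0} := isOpen_ne.preimage contDiff_p1.continuous
  have hoW : IsOpen {z | z ∈ dom gK C.O 20000 ∧ p1 z ≠ 0} := hoK.inter hoP
  have hzW : sl1 n x ∈ {z | z ∈ dom gK C.O 20000 ∧ p1 z ≠ 0} := ⟨hz, hp⟩
  have hT1 : DifferentiableAt ℝ (T1 l) (sl1 n x) :=
    (((contDiffOn_T1 hl) _ hp).contDiffAt (hoP.mem_nhds hp)).differentiableAt (by simp)
  have hsl : ∀ y, DifferentiableAt ℝ (sl1 n) y := fun y =>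
    (contDiff_sl1 n).contDiffAt.differentiableAt (by simp)
  have hTz : T1 l (sl1 n x) ∈ dom g1 C.O 20000 := T1_mem hl C.O hz hp
  have hH1 : DifferentiableAt ℝ W.H1.Ψ (T1 l (sl1 n x)) :=
    (VPiece.diff_Ψ W.H1 good1 hTz).differentiableAt (by simp)
  -- the second term
  have e1 : pbF W.K.Ψ D.b (sl1 n x) = pbF (T1 l) (pbF W.H1.Ψ D.b) (sl1 n x) := by
    rw [pbF_comp hH1 hT1]
    have h4 : W.K.Ψ =ᶠ[nhds (sl1 n x)] W.H1.Ψ ∘ T1 l := by
      filter_upwards [hoW.mem_nhds hzW] with z hz'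
      exact W.trK1' hl hz'.1 hz'.2
    exact pbF_congr h4 rfl
  have e2 : W.csK (sl1 n x) - pbF W.K.Ψ D.b (sl1 n x) =
      pbF (T1 l) (fun z => W.csH z - pbF W.H1.Ψ D.b z) (sl1 n x) + dF lam (sl1 n x) +
        pbF p1 (tau0 l) (sl1 n x) := by
    rw [h3 _ hz hp, e1, pbF_sub]
    abel
  have e3 : D.bS n x = pbF (sl1 n) (fun z =>
      pbF (T1 l) (fun z => W.csH z - pbF W.H1.Ψ D.b z) z + dF lam z + pbF p1 (tau0 l) z) x :=
    pbF_congr Filter.EventuallyEq.rfl e2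
  rw [e3, pbF_add (sl1 n) (fun z => pbF (T1 l) (fun z => W.csH z - pbF W.H1.Ψ D.b z) z +
    dF lam z), pbF_add (sl1 n) (fun z => pbF (T1 l) (fun z => W.csH z - pbF W.H1.Ψ D.b z) z)]
  -- the first term
  have f1 : pbF (sl1 n) (fun z => pbF (T1 l) (fun z => W.csH z - pbF W.H1.Ψ D.b z) z) x =
      pbF ivn (D.bH n) x := by
    have g1' : pbF (sl1 n) (fun z => pbF (T1 l) (fun z => W.csH z - pbF W.H1.Ψ D.b z) z) x =
        pbF (T1 l ∘ sl1 n) (fun z => W.csH z - pbF W.H1.Ψ D.b z) x := pbF_comp hT1 (hsl x)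
    have g2' : pbF ivn (D.bH n) x =
        pbF (sl1 n ∘ ivn) (fun z => W.csH z - pbF W.H1.Ψ D.b z) x :=
      pbF_comp (hsl _) ((contDiffAt_ivn hx).differentiableAt (by simp))
    have g3' : T1 l ∘ sl1 n = sl1 n ∘ ivn := by
      funext y
      exact T1_slice l y n
    rw [g1', g2', g3']
  have f2 : pbF (sl1 n) (fun z => dF lam z) x = dF (pbF (sl1 n) lam) x := by
    rw [dF_pbF ((contDiff_sl1 n).contDiffAt.of_le csl_two)
      ((h1.contDiffAt (hoW.mem_nhds hzW)).differentiableAt (by simp))]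
  have f3 : pbF (sl1 n) (fun z => pbF p1 (tau0 l) z) x = tau0 l x := by
    have g1' : pbF (sl1 n) (fun z => pbF p1 (tau0 l) z) x = pbF (p1 ∘ sl1 n) (tau0 l) x :=
      pbF_comp (contDiff_p1.contDiffAt.differentiableAt (by simp)) (hsl x)
    have g2' : p1 ∘ sl1 n = id := by
      funext y
      exact csl_p1 n y
    rw [g1', g2']
    unfold pbF
    rw [fderiv_id]
    exact FAMap_id _
  rw [f1, f2, f3]

end Pool.Agent.EXO.CH
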