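import Mathlib
import Pool.Agent.EXO.ChConB
import Pool.Agent.EXO.ChNdB
import Pool.Agent.EXO.ChTw

/-!
# EXO / ChSn: the integral over a slice, abstract form

PROOFS.
* `slice_abs`: `poincare_ball` (radius `7/5`, `j = 2`) gives `ξ` with `dF ξ = c` on `ball 0 (7/5)`, smooth there.  For
  `5/7 < ‖x‖` (open set `U₁`): `ivn x ∈ ball 0 (7/5)` (`norm_ivn`), and `pbF ivn c x = dF (pbF ivn ξ) x` (`dF_pbF`), so
  `b x = dF μ x + tau0 l x` on `U₁`, `μ = pbF ivn ξ + lam`, smooth on `U₁`.
  Let `b' x = b x - dF (fun y => rF (ph y) * μ y) x - rF (ph x) * tau0 l x` for `5/7 < ‖x‖` and `b' x = b x` otherwise.  For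
  `‖x‖ < 1` `b' = b` (`ph = 0` there, `ph_zero`), so `b'` is smooth.  For `2 < ‖x‖`: `ph = 1` near `x`, `b' x = 0`; so `b'` has
  compact support.  `dF b' = dF b - aF`: for `‖x‖ < 1` `aF x = 0`; for `5/7 < ‖x‖`: `dF (dF ..) = 0`,
  `dF (rF ph * tau0) = dF (rF ph) * tau0 + rF ph * dF tau0 = aF` (`dF_rF_mul`, `dF_tau0`).
  `stokes_Rn b'`, `integral_aF`; integrability: `dF b'` and `aF` are continuous with compact support (`isCompact_YC`, `aF_ne`).
-/

set_option autoImplicit false
set_option maxSynthPendingDepth 3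
set_option linter.unusedSectionVars false

open Set MeasureTheory Matrix
open scoped ContDiff

namespace Pool.Agent.EXO.CH

private theorem two_le_inf : (2 : WithTop ℕ∞) ≤ ∞ := by
  have h : ((2 : ℕ∞) : WithTop ℕ∞) ≤ ((⊤ : ℕ∞) : WithTop ℕ∞) := WithTop.coe_le_coe.mpr le_top
  exact h

private theorem csn_co {m : ℕ} (I : Finset (Fin m)) : Continuous fun u : FA m => u.co I :=
  (EuclideanSpace.proj I : EuclideanSpace ℂ (Finset (Fin m)) →L[ℂ] ℂ).continuous

private theorem csn_at {E : Type} [NormedAddCommGroup E] [NormedSpace ℝ E] {m : ℕ}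
    {f : En m → E} {U : Set (En m)} (hU : IsOpen U) (h : ContDiffOn ℝ ∞ f U) {x : En m}
    (hx : x ∈ U) : ContDiffAt ℝ ∞ f x := (h x hx).contDiffAt (hU.mem_nhds hx)

theorem slice_abs {l : ℝ} (hl : 0 < l) (hl' : l < 1) {b c lam : En 4 → FA 4}
    (hb : ContDiff ℝ ∞ b) (hc : ContDiff ℝ ∞ c) (hc3 : ∀ x, (c x).IsDeg 3)
    (hc0 : ∀ x, ‖x‖ < 7 / 5 → dF c x = 0) (hlam : ContDiffOn ℝ ∞ lam {x | x ≠ 0})
    (h : ∀ x, x ≠ 0 → b x = pbF ivn c x + dF lam x + tau0 l x) :
    ∫ x, (dF b x).co Finset.univ = cC := by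
  classical
  -- the primitive of c
  obtain ⟨ξ, hξs, hξ⟩ := poincare_ball (R := 7 / 5) (j := 2) c hc.contDiffOn
    (fun x _ => hc3 x) (fun x hx => hc0 x (by simpa using hx))
  obtain ⟨U1, hU1⟩ : ∃ U1 : Set (En 4), U1 = {x | 5 / 7 < ‖x‖} := ⟨_, rfl⟩
  have hoU1 : IsOpen U1 := by
    rw [hU1]
    exact isOpen_lt continuous_const continuous_norm
  have hne : ∀ x ∈ U1, x ≠ 0 := by
    intro x hx h0
    rw [hU1] at hx
    have h1 : (5 : ℝ) / 7 < ‖x‖ := hx
    rw [h0, norm_zero] at h1
    norm_num at h1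
  have hballU : ∀ x ∈ U1, ivn x ∈ Metric.ball (0 : En 4) (7 / 5) := by
    intro x hx
    rw [hU1] at hx
    have h1 : (5 : ℝ) / 7 < ‖x‖ := hx
    rw [mem_ball_zero_iff, norm_ivn, inv_lt_comm₀ (by linarith) (by norm_num)]
    linarith
  have hivn : ContDiffOn ℝ ∞ (ivn : En 4 → En 4) U1 := fun x hx =>
    (contDiffAt_ivn (hne x hx)).contDiffWithinAt
  have hpξ : ContDiffOn ℝ ∞ (pbF ivn ξ) U1 := contDiffOn_pbF hoU1 hivn hballU hξs
  have hlamU : ContDiffOn ℝ ∞ lam U1 := hlam.mono fun x hx => hne x hx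
  obtain ⟨μ, hμ⟩ : ∃ μ : En 4 → FA 4, μ = fun x => pbF ivn ξ x + lam x := ⟨_, rfl⟩
  have hμs : ContDiffOn ℝ ∞ μ U1 := by
    rw [hμ]
    exact hpξ.add hlamU
  have hμat : ∀ x ∈ U1, ContDiffAt ℝ ∞ μ x := fun x hx => csn_at hoU1 hμs hx
  -- b = dμ + τ₀ on U1
  have hbU : ∀ x ∈ U1, b x = dF μ x + tau0 l x := by
    intro x hx
    have hx0 := hne x hx
    have h1 : pbF ivn c x = dF (pbF ivn ξ) x := by
      rw [dF_pbF ((contDiffAt_ivn hx0).of_le two_le_inf)
        ((csn_at Metric.isOpen_ball hξs (hballU x hx)).differentiableAt (by simp))]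
      exact pbF_congr Filter.EventuallyEq.rfl (hξ _ (hballU x hx)).symm
    rw [h x hx0, h1, hμ, dF_add ((csn_at hoU1 hpξ hx).differentiableAt (by simp))
      ((csn_at hoU1 hlamU hx).differentiableAt (by simp))]
  obtain ⟨e, he⟩ : ∃ e : En 4 → FA 4, e = fun x =>
      b x - dF (fun y => rF (ph y) * μ y) x - rF (ph x) * tau0 l x := ⟨_, rfl⟩
  obtain ⟨b', hb'⟩ : ∃ b' : En 4 → FA 4, b' = fun x => if 5 / 7 < ‖x‖ then e x else b x :=
    ⟨_, rfl⟩
  -- near points of the unit ball
  have hoB : IsOpen {x : En 4 | ‖x‖ < 1} := isOpen_lt continuous_norm continuous_const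
  have hb0 : ∀ x : En 4, ‖x‖ < 1 → b' =ᶠ[nhds x] b := by
    intro x hx
    filter_upwards [hoB.mem_nhds hx] with y hy
    have hy' : ‖y‖ < 1 := hy
    rw [hb']
    simp only
    split_ifs with h5
    · have h6 : dF (fun y => rF (ph y) * μ y) y = 0 := by
        refine dF_zero_of ?_
        filter_upwards [hoB.mem_nhds hy] with w hw
        rw [ph_zero (le_of_lt hw), rF_zero, zero_mul]
      rw [he]
      simp only
      rw [h6, ph_zero hy'.le, rF_zero, zero_mul, sub_zero, sub_zero]
    · rfl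
  have hb1 : ∀ x ∈ U1, b' =ᶠ[nhds x] e := by
    intro x hx
    filter_upwards [hoU1.mem_nhds hx] with y hy
    rw [hU1] at hy
    have hy' : (5 : ℝ) / 7 < ‖y‖ := hy
    rw [hb']
    simp only
    rw [if_pos hy']
  have hphμ : ContDiffOn ℝ ∞ (fun y => rF (ph y) * μ y) U1 :=
    contDiffOn_mulFA (contDiffOn_rF contDiff_ph.contDiffOn) hμs
  have htau : ContDiffOn ℝ ∞ (tau0 l) U1 := fun x hx =>
    (contDiffAt_tau0 hl (hne x hx)).contDiffWithinAt
  have hphτ : ContDiffOn ℝ ∞ (fun y => rF (ph y) * tau0 l y) U1 :=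
    contDiffOn_mulFA (contDiffOn_rF contDiff_ph.contDiffOn) htau
  have heU : ContDiffOn ℝ ∞ e U1 := by
    rw [he]
    exact (hb.contDiffOn.sub (contDiffOn_dF hoU1 hphμ)).sub hphτ
  have hcase : ∀ x : En 4, ‖x‖ < 1 ∨ x ∈ U1 := by
    intro x
    rcases lt_or_ge ‖x‖ 1 with h1 | h1
    · exact Or.inl h1
    · right
      rw [hU1]
      exact lt_of_lt_of_le (by norm_num) h1
  have hb's : ContDiff ℝ ∞ b' := by
    rw [contDiff_iff_contDiffAt]
    intro x
    rcases hcase x with hx | hx
    · exact hb.contDiffAt.congr_of_eventuallyEq (hb0 x hx)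
    · exact (csn_at hoU1 heU hx).congr_of_eventuallyEq (hb1 x hx)
  -- b' vanishes far away
  have hoF : IsOpen {x : En 4 | 2 < ‖x‖} := isOpen_lt continuous_const continuous_norm
  have hFU : ∀ x : En 4, 2 < ‖x‖ → x ∈ U1 := by
    intro x hx
    rw [hU1]
    exact lt_trans (by norm_num) hx
  have hfar : ∀ x : En 4, 2 < ‖x‖ → b' x = 0 := by
    intro x hx
    have h1 := (hb1 x (hFU x hx)).self_of_nhds
    rw [h1, he]
    simp only
    have h2 : dF (fun y => rF (ph y) * μ y) x = dF μ x := by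
      refine dF_congr ?_
      filter_upwards [hoF.mem_nhds hx] with y hy
      rw [ph_one (le_of_lt hy), rF_one, one_mul]
    rw [h2, ph_one hx.le, rF_one, one_mul, hbU x (hFU x hx)]
    abel
  have hcs : HasCompactSupport b' := by
    refine HasCompactSupport.intro (isCompact_closedBall (0 : En 4) 2) fun x hx => hfar x ?_
    rw [mem_closedBall_zero_iff, not_le] at hx
    exact hx
  -- the derivative
  have hd : ∀ x, dF b' x = dF b x - aF l x := by
    intro x
    rcases hcase x with hx | hx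
    · have h1 : aF l x = 0 := by
        unfold aF
        have h2 : dF (fun y : En 4 => (rF (ph y) : FA 4)) x = 0 := by
          refine dF_zero_of ?_
          filter_upwards [hoB.mem_nhds hx] with w hw
          rw [ph_zero (le_of_lt hw), rF_zero]
        rw [h2, zero_mul]
      rw [dF_congr (hb0 x hx), h1, sub_zero]
    · have hx0 := hne x hx
      rw [dF_congr (hb1 x hx), he]
      have d1 : DifferentiableAt ℝ b x := hb.contDiffAt.differentiableAt (by simp)
      have d2 : DifferentiableAt ℝ (dF fun y => rF (ph y) * μ y) x :=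
        (csn_at hoU1 (contDiffOn_dF hoU1 hphμ) hx).differentiableAt (by simp)
      have d3 : DifferentiableAt ℝ (fun y => rF (ph y) * tau0 l y) x :=
        (csn_at hoU1 hphτ hx).differentiableAt (by simp)
      have d4 : DifferentiableAt ℝ (tau0 l) x :=
        (contDiffAt_tau0 hl hx0).differentiableAt (by simp)
      have d5 : DifferentiableAt ℝ (ph : En 4 → ℝ) x :=
        contDiff_ph.contDiffAt.differentiableAt (by simp)
      have e1 : dF (fun x => b x - dF (fun y => rF (ph y) * μ y) x - rF (ph x) * tau0 l x) x =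
          dF (fun x => b x - dF (fun y => rF (ph y) * μ y) x) x -
            dF (fun x => rF (ph x) * tau0 l x) x := dF_sub' (d1.sub d2) d3
      have e2 : dF (fun x => b x - dF (fun y => rF (ph y) * μ y) x) x =
          dF b x - dF (dF fun y => rF (ph y) * μ y) x := dF_sub' d1 d2
      have e3 : dF (dF fun y => rF (ph y) * μ y) x = 0 :=
        dF_dF ((csn_at hoU1 hphμ hx).of_le two_le_inf)
      rw [e1, e2, e3, sub_zero, dF_rF_mul d5 d4, dF_tau0 hl hx0, mul_zero, add_zero]
      rfl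
  -- integrals
  have hst := stokes_Rn b' hb's hcs
  have hint1 : Integrable fun x => (dF b' x).co Finset.univ := by
    refine Continuous.integrable_of_hasCompactSupport
      ((csn_co _).comp (contDiff_dF hb's).continuous) ?_
    refine HasCompactSupport.intro (isCompact_closedBall (0 : En 4) 2) fun x hx => ?_
    rw [mem_closedBall_zero_iff, not_le] at hx
    have h1 : dF b' x = 0 := by
      refine dF_zero_of ?_
      filter_upwards [hoF.mem_nhds hx] with y hy
      exact hfar y hy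
    rw [h1]
    exact FA.co_zero _
  have hint2 : Integrable fun x => (aF l x).co Finset.univ := by
    refine Continuous.integrable_of_hasCompactSupport
      ((csn_co _).comp (contDiff_aF hl).continuous) ?_
    refine HasCompactSupport.intro (isCompact_YC l) fun x hx => ?_
    have h1 : aF l x = 0 := by
      by_contra h2
      exact hx (aF_ne hl h2)
    rw [h1]
    exact FA.co_zero _
  have hsum : ∀ x, (dF b x).co Finset.univ =
      (dF b' x).co Finset.univ + (aF l x).co Finset.univ := by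
    intro x
    rw [hd x, FA.co_sub, sub_add_cancel]
  simp only [hsum]
  rw [integral_add hint1 hint2, hst, zero_add, integral_aF hl hl']

end Pool.Agent.EXO.CH
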