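import Mathlib
import Pool.Agent.EXO.ChSl
import Pool.Agent.EXO.ChSn

/-!
# EXO / ChSm: the integral of `α'` over a slice, part 2

PROOFS.
* `slice_x`: `slice_abs` with `b = D.bS n`, `c = D.bH n`, `lam' = pbF (sl1 n) lam` (`cs_rel`, `bS_rel`; smooth for `x ≠ 0`), and
  `dF_bS`.
* `slice_y`: `slice_x` for `W.swap`, `D.swap`: `W.swap.K.Ψ = W.K.Ψ ∘ sw`, `sw (sl1 n y) = sl2 (bv 0) n y`, and
  `pbF (sl1 n) (pbF (W.K.Ψ ∘ sw) al) y = pbF (sl2 (bv 0) n) (pbF W.K.Ψ al) y` (`pbF_comp` twice, `pbF_congr`).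
-/

set_option autoImplicit false
set_option maxSynthPendingDepth 3
set_option linter.unusedSectionVars false

open Set MeasureTheory Matrix
open scoped ContDiff

namespace Pool.Agent.EXO.CH

variable {N : OrGeo 6 7} {C : Collar N.carrier} {l : ℝ} {W : WD N C l} (D : FD W)

theorem slice_x (hl : 0 < l) (hl' : l < 1) {n : En 7} (hn : n ∈ C.O) :
    ∫ x, (pbF (sl1 n) (pbF W.K.Ψ D.al) x).co Finset.univ = cC := by
  obtain ⟨lam, hlam1, -, hrel⟩ := W.cs_rel hl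
  have hlam : ContDiffOn ℝ ∞ (pbF (sl1 n) lam) {x : En 4 | x ≠ 0} := by
    refine contDiffOn_pbF isOpen_ne (contDiff_sl1 n).contDiffOn ?_ hlam1
    intro x hx
    refine ⟨(sl1_mem hn x).1, ?_⟩
    show p1 (sl1 n x) ≠ 0
    unfold sl1
    rw [p1_j15]
    exact hx
  have h1 := slice_abs hl hl' (smooth_bS D hn) (smooth_bH D hn) (deg_bH D hn)
    (fun x hx => dF_bH D hn hl hx) hlam (fun x hx => bS_rel D hn hl hlam1 hrel hx)
  simp only [dF_bS D hn] at h1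
  exact h1

theorem slice_y (hl : 0 < l) (hl' : l < 1) {n : En 7} (hn : n ∈ C.O) :
    ∫ y, (pbF (sl2 (bv 0) n) (pbF W.K.Ψ D.al) y).co Finset.univ = cC := by
  rw [← slice_x D.swap hl hl' hn]
  refine integral_congr_ae (Filter.Eventually.of_forall fun y => ?_)
  have hsw : sw (sl1 n y) = sl2 (bv 0) n y := by
    unfold sw sl1 sl2
    rw [p1_j15, p2_j15, p3_j15]
  have hsl : (fun y => sw (sl1 n y)) = sl2 (bv 0) n := by
    funext y
    unfold sw sl1 sl2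
    rw [p1_j15, p2_j15, p3_j15]
  have hmem : sl2 (bv 0) n y ∈ dom gK C.O 20000 := by
    rw [← hsw]
    have h1 := (sl1_mem hn y).1
    refine ⟨by rw [gK_sw]; exact h1.1, by rw [p3_sw]; exact h1.2⟩
  have hK : DifferentiableAt ℝ W.K.Ψ (sw (sl1 n y)) := by
    rw [hsw]
    exact (VPiece.diff_Ψ W.K goodK hmem).differentiableAt (by simp)
  have hswd : DifferentiableAt ℝ sw (sl1 n y) := contDiff_sw.contDiffAt.differentiableAt (by simp)
  have hsd : DifferentiableAt ℝ (sl1 n) y := (contDiff_sl1 n).contDiffAt.differentiableAt (by simp)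
  have e1 : pbF (W.K.Ψ ∘ sw) D.al (sl1 n y) = pbF sw (pbF W.K.Ψ D.al) (sl1 n y) :=
    (pbF_comp hK hswd).symm
  have e2 : pbF (sl1 n) (pbF sw (pbF W.K.Ψ D.al)) y = pbF (sw ∘ sl1 n) (pbF W.K.Ψ D.al) y :=
    pbF_comp hswd hsd
  have e3 : pbF (sl1 n) (pbF (W.K.Ψ ∘ sw) D.al) y = pbF (sl1 n) (pbF sw (pbF W.K.Ψ D.al)) y :=
    congrArg (FAMap (fderiv ℝ (sl1 n) y)) e1
  have e4 : (sw ∘ sl1 n) = sl2 (bv 0) n := hsl
  have e5 : pbF (sl2 (bv 0) n) (pbF W.K.Ψ D.al) y = pbF (sl1 n) (pbF (W.K.Ψ ∘ sw) D.al) y := by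
    rw [e3, e2, e4]
  show (pbF (sl2 (bv 0) n) (pbF W.K.Ψ D.al) y).co Finset.univ =
    (pbF (sl1 n) (pbF (W.K.Ψ ∘ sw) D.al) y).co Finset.univ
  rw [e5]

end Pool.Agent.EXO.CH
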