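import Mathlib
import Pool.Agent.EXO.ChStK
import Pool.Agent.EXO.ChSm
import Pool.Agent.EXO.ChNdB

/-!
# EXO / ChStD: replacement of `α'` by `C θ(y)` on the support of `aF(x)`

Write `Y = YY` (open, convex), `D' = {z | p1 z ∈ YY ∧ p3 z ∈ C.O}`; `D' ⊆ dom gK C.O 20000` because `gK z ≤ ‖p1 z‖² < 9`.

PROOFS.
* `thF_*`: `thF y = (thB y : ℂ) • vol4`; `vol4` has degree `4`, `(vol4).co univ = 1` (`of1_bv`, `word_dx`/`dx_mul_mon`:
  `vol4 = mon univ`); `dF thF = 0` (degree `5` on `ℝ⁴`, as for `dF_aF`).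
* `exists_v`: apply `poincare_y` to `u z = pbF K.Ψ al z - cC • pbF p2 thF z`.  Smooth on `D'`, degree `4`, closed (`dF_pb_al`;
  `dF (pbF p2 thF) = pbF p2 (dF thF) = 0`), zero for `1 < ‖p2 z‖`: if `pbF K.Ψ al z ≠ 0` then `gK z ≤ 1/3` (`supK`) and
  `‖p1 z‖ ≥ p1 z 0 > 4/5`, `box_Y`; `thB_zero`.  Slices over `(x, n)`, `x ∈ YY`, `n ∈ C.O`: `slice_const` (for `pbF K.Ψ al`, from
  `x` to `bv 0 ∈ YY`) and `slice_y` give `cC`; and `∫ (pbF (sl2 x n) (pbF p2 thF)).co univ = ∫ thB = 1`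
  (`pbF_comp`, `p2 ∘ sl2 x n = id`, `integral_thB`).  The integrals of the two terms exist (continuous, zero for
  `1 < ‖y‖`), so the difference integrates to `0`.
* `step_D`: let `v` be as in `exists_v`, `u z = pbF p1 (aF l) z * (v z * wK z)` for `p1 z ∈ YY`, `0` otherwise.  `aF l x = 0` for
  `x ∉ YC l` (`aF_ne`), `YC l` is compact (closed) and contained in `YY` (`YC_sub`), so `u` is smooth on `dom gK C.O 20000`.
  Degree `4 + (3 + 6)`.  `u z = 0` for `z ∉ ZB N 2` (`‖p1 z‖ ≤ 2` on `YC`, `v z = 0` for `2 < ‖p2 z‖`).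
  `exists_ext`, `pbΨ_dF_ext`, and `dF u z = pbF p1 (aF l) z * (pbF K.Ψ al z - cC • pbF p2 thF z) * wK z`: for `p1 z ∈ YY`:
  `dF_mul_even` (`dF (pbF p1 (aF l)) = pbF p1 (dF aF) = 0`), `dF (v * wK) = dF v * wK - v * dF wK = dF v * wK` (`dF_mul_odd`, `dF_pb_w`);
  for `p1 z ∉ YC l` both sides are `0`.  Outside `K.O`: `dF_ext_zero`.
-/

set_option autoImplicit false
set_option maxSynthPendingDepth 3
set_option linter.unusedSectionVars false

open Set MeasureTheory Matrix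
open scoped ContDiff

namespace Pool.Agent.EXO.CH

theorem vol4_eq : vol4 = mon Finset.univ := by
  rw [mon_univ]
  simp only [vol4, of1_bv, List.ofFn_succ, List.prod_cons, List.ofFn_zero, List.prod_nil, mul_one,
    mul_assoc]
  rfl

private theorem deg_vol4 : vol4.IsDeg 4 := by
  have h : ∀ a : Fin 4, (of1 (bv a) : FA 4).IsDeg 1 := fun a => isDeg_of1 _
  exact isDeg_mul (isDeg_mul (isDeg_mul (h 0) (h 1)) (h 2)) (h 3)

theorem contDiff_thF : ContDiff ℝ ∞ thF := by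
  have h1 : ContDiff ℝ ∞ fun y : En 4 => (rF (thB y) : FA 4) := contDiff_rF.comp contDiff_thB
  have h2 := contDiff_mulFA' h1 (contDiff_const (c := vol4))
  have h3 : thF = fun y : En 4 => (rF (thB y) : FA 4) * vol4 :=
    funext fun y => (rF_smul (thB y) vol4).symm
  rw [h3]
  exact h2

theorem deg_thF (y : En 4) : (thF y).IsDeg 4 := isDeg_smul deg_vol4 _

theorem dF_thF (y : En 4) : dF thF y = 0 := by
  have h : (dF thF y).IsDeg (4 + 1) := deg_dF (Filter.Eventually.of_forall deg_thF)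
  refine FA.ext fun I => ?_
  refine h I fun hI => ?_
  have h2 := Finset.card_le_univ I
  rw [Fintype.card_fin] at h2
  omega

variable {N : OrGeo 6 7} {C : Collar N.carrier} {l : ℝ} {W : WD N C l} (D : FD W)

private theorem std_gK {z : En 15} (h : p1 z ∈ YY) : gK z < 20000 := by
  have h3 : ‖p1 z‖ < 3 := h.2.2
  have h0 : 0 < ‖p1 z‖ := by
    rw [norm_pos_iff]
    intro h1
    have := h.1
    rw [h1] at this
    simp at this
    linarith
  have h1 : gK z ≤ ‖p1 z‖ ^ 2 := by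
    unfold gK
    rw [div_le_iff₀ (by positivity)]
    nlinarith [sq_nonneg (‖p1 z‖ ^ 2)]
  nlinarith [norm_nonneg (p1 z)]

private theorem std_norm {x : En 4} (h : x ∈ YY) : 4 / 5 ≤ ‖x‖ := by
  have h1 : ‖x 0‖ ≤ ‖x‖ := PiLp.norm_apply_le x 0
  have h2 : x 0 ≤ ‖x 0‖ := le_abs_self _
  linarith [h.1]

private theorem std_open : IsOpen {z : En 15 | p1 z ∈ YY ∧ p3 z ∈ C.O} :=
  (isOpen_YY.preimage contDiff_p1.continuous).inter (C.openO.preimage contDiff_p3.continuous)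

private theorem std_dom {z : En 15} (h1 : p1 z ∈ YY) (h3 : p3 z ∈ C.O) :
    z ∈ dom gK C.O 20000 := ⟨std_gK h1, h3⟩

private noncomputable def std_coL : FA 4 →L[ℝ] ℂ := LinearMap.toContinuousLinearMap
  { toFun := fun u => u.co Finset.univ
    map_add' := fun _ _ => rfl
    map_smul' := fun _ _ => rfl }

private theorem std_sl2 (x : En 4) (n : En 7) : ContDiff ℝ ∞ (sl2 x n) :=
  contDiff_j15.comp (contDiff_const.prodMk (contDiff_id.prodMk contDiff_const))

private theorem std_int (x : En 4) (hx : x ∈ YY) {n : En 7} (hn : n ∈ C.O) {u : En 15 → FA 15}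
    (hu : ContDiffOn ℝ ∞ u {z | p1 z ∈ YY ∧ p3 z ∈ C.O})
    (hs : ∀ z, p1 z ∈ YY → p3 z ∈ C.O → 1 < ‖p2 z‖ → u z = 0) :
    Integrable fun y => (pbF (sl2 x n) u y).co Finset.univ := by
  have h1 : ContDiff ℝ ∞ (pbF (sl2 x n) u) := by
    rw [← contDiffOn_univ]
    refine contDiffOn_pbF isOpen_univ (std_sl2 x n).contDiffOn ?_ hu
    intro y _
    exact ⟨by simpa [sl2] using hx, by simpa [sl2] using hn⟩
  have h2 : Continuous fun y => (pbF (sl2 x n) u y).co Finset.univ :=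
    std_coL.continuous.comp h1.continuous
  refine h2.integrable_of_hasCompactSupport ?_
  refine HasCompactSupport.intro (isCompact_closedBall (0 : En 4) 1) ?_
  intro y hy
  have hy1 : 1 < ‖y‖ := by simpa using hy
  have h3 : u (sl2 x n y) = 0 :=
    hs _ (by simpa [sl2] using hx) (by simpa [sl2] using hn) (by simpa [sl2] using hy1)
  unfold pbF
  rw [h3, FAMap_zero]
  rfl

theorem exists_v (hl : 0 < l) (hl' : l < 1) :
    ∃ v : En 15 → FA 15, ContDiffOn ℝ ∞ v {z | p1 z ∈ YY ∧ p3 z ∈ C.O} ∧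
      (∀ z, p1 z ∈ YY → p3 z ∈ C.O → (v z).IsDeg 3) ∧
      (∀ z, p1 z ∈ YY → p3 z ∈ C.O → 2 < ‖p2 z‖ → v z = 0) ∧
      ∀ z, p1 z ∈ YY → p3 z ∈ C.O → dF v z = pbF W.K.Ψ D.al z - cC • pbF p2 thF z := by
  have hA : ContDiffOn ℝ ∞ (pbF W.K.Ψ D.al) {z | p1 z ∈ YY ∧ p3 z ∈ C.O} :=
    (VPiece.contDiffOn_pbΨ W.K goodK D.contDiff_al).mono fun z hz => std_dom hz.1 hz.2
  have hB : ContDiff ℝ ∞ (pbF p2 thF) := contDiff_pbF contDiff_p2 contDiff_thF
  have hAd : ∀ z, (pbF W.K.Ψ D.al z).IsDeg 4 := fun z => deg_pbF _ _ _ (D.deg_al _)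
  have hBd : ∀ z, (pbF p2 thF z : FA 15).IsDeg 4 := fun z => deg_pbF _ _ _ (deg_thF _)
  have hAc : ∀ z, p1 z ∈ YY → p3 z ∈ C.O → dF (pbF W.K.Ψ D.al) z = 0 := fun z h1 h3 =>
    D.dF_pb_al W.K goodK (std_dom h1 h3)
  have hBc : ∀ z, dF (pbF p2 thF) z = (0 : FA 15) := by
    intro z
    rw [dF_pbF (contDiff_p2.contDiffAt.of_le (WithTop.coe_le_coe.2 le_top))
      (contDiff_thF.contDiffAt.differentiableAt (by simp))]
    unfold pbF
    rw [dF_thF, FAMap_zero]
  have hAs : ∀ z, p1 z ∈ YY → p3 z ∈ C.O → 1 < ‖p2 z‖ → pbF W.K.Ψ D.al z = 0 := by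
    intro z h1 h3 h2
    by_contra hne
    have h4 := D.supK hl (std_dom h1 h3) hne
    have h5 := box_Y h4 (std_norm h1)
    linarith
  have hBs : ∀ z : En 15, 1 < ‖p2 z‖ → (pbF p2 thF z : FA 15) = 0 := by
    intro z h2
    unfold pbF
    have h3 : thF (p2 z) = 0 := by
      unfold thF
      rw [thB_zero h2, Complex.ofReal_zero, zero_smul]
    rw [h3, FAMap_zero]
  have hIA : ∀ x ∈ YY, ∀ n ∈ C.O,
      ∫ y, (pbF (sl2 x n) (pbF W.K.Ψ D.al) y).co Finset.univ = cC := by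
    intro x hx n hn
    rw [slice_const YY C.O isOpen_YY convex_YY C.openO _ hA (fun z _ _ => hAd z) hAc hAs hx
      bv0_mem_YY hn]
    exact slice_y D hl hl' hn
  have hBv : ∀ x : En 4, ∀ n : En 7, ∀ y, (pbF (sl2 x n) (pbF p2 thF) y).co Finset.univ =
      (thB y : ℂ) := by
    intro x n y
    have h1 : pbF (sl2 x n) (pbF p2 thF) y = pbF (p2 ∘ sl2 x n) thF y :=
      pbF_comp (contDiff_p2.contDiffAt.differentiableAt (by simp))
        ((std_sl2 x n).contDiffAt.differentiableAt (by simp))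
    have h2 : p2 ∘ sl2 x n = id := by
      funext y
      simp [sl2]
    rw [h1, h2]
    unfold pbF
    rw [fderiv_id, FAMap_id]
    change (thF y).co Finset.univ = _
    unfold thF
    rw [FA.co_smul, vol4_eq, mon_co, if_pos rfl, mul_one]
  have hIB : ∀ x : En 4, ∀ n : En 7,
      ∫ y, (pbF (sl2 x n) (pbF p2 thF) y).co Finset.univ = 1 := by
    intro x n
    simp only [hBv]
    rw [integral_complex_ofReal, integral_thB, Complex.ofReal_one]
  obtain ⟨v, hv1, hv2, hv3, hv4⟩ := poincare_y YY C.O isOpen_YY C.openO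
    (fun z => pbF W.K.Ψ D.al z - cC • pbF p2 thF z)
    (hA.sub (hB.const_smul cC).contDiffOn)
    (fun z _ _ => deg_sub (hAd z) (isDeg_smul (hBd z) _))
    (fun z h1 h3 => by
      have d1 : DifferentiableAt ℝ (pbF W.K.Ψ D.al) z :=
        (hA.contDiffAt (std_open.mem_nhds ⟨h1, h3⟩)).differentiableAt (by simp)
      have d2 : DifferentiableAt ℝ (pbF p2 thF : En 15 → FA 15) z :=
        hB.contDiffAt.differentiableAt (by simp)
      have e1 : dF (fun z => pbF W.K.Ψ D.al z - cC • pbF p2 thF z) z =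
          dF (pbF W.K.Ψ D.al) z - dF (fun z => cC • pbF p2 thF z) z :=
        dF_sub' d1 (d2.const_smul cC)
      have e2 : dF (fun z => cC • (pbF p2 thF z : FA 15)) z = cC • dF (pbF p2 thF) z :=
        dF_smul cC d2
      rw [e1, e2, hAc z h1 h3, hBc z, smul_zero, sub_zero])
    (fun z h1 h3 h2 => by rw [hAs z h1 h3 h2, hBs z h2, smul_zero, sub_zero])
    (fun x hx n hn => by
      have i1 := std_int x hx hn hA hAs
      have i2 := std_int x hx hn (u := pbF p2 thF) hB.contDiffOn (fun z _ _ h2 => hBs z h2)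
      have h1 : ∀ y, (pbF (sl2 x n) (fun z => pbF W.K.Ψ D.al z - cC • pbF p2 thF z) y).co
          Finset.univ = (pbF (sl2 x n) (pbF W.K.Ψ D.al) y).co Finset.univ -
            cC * (pbF (sl2 x n) (pbF p2 thF) y).co Finset.univ := by
        intro y
        rw [pbF_sub, pbF_smul, FA.co_sub, FA.co_smul]
      simp only [h1]
      rw [integral_sub i1 (i2.const_mul cC), integral_const_mul, hIA x hx n hn, hIB x n, mul_one,
        sub_self])
  exact ⟨v, hv1, hv2, hv3, hv4⟩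

theorem step_D (hl : 0 < l) (hl' : l < 1) : ∃ E : En W.M → FA W.M, ContDiff ℝ ∞ E ∧
    (∀ z ∈ dom gK C.O 20000, pbF W.K.Ψ (dF E) z = pbF C.R (fun z =>
      pbF p1 (aF l) z * (pbF W.K.Ψ D.al z - cC • pbF p2 thF z) * D.wK z) z) ∧
    ∀ v ∈ W.V.carrier, v ∉ W.K.O → FAMap (W.V.P v) (dF E v) = 0 := by
  classical
  obtain ⟨v, hv1, hv2, hv3, hv4⟩ := exists_v D hl hl'
  have hDo : IsOpen (dom gK C.O 20000) := isOpen_dom C goodK 20000
  have hD'o : IsOpen {z : En 15 | p1 z ∈ YY ∧ p3 z ∈ C.O} := std_open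
  have hw : ContDiffOn ℝ ∞ D.wK (dom gK C.O 20000) :=
    VPiece.contDiffOn_pbΨ W.K goodK D.contDiff_w
  have hw' : ContDiffOn ℝ ∞ D.wK {z | p1 z ∈ YY ∧ p3 z ∈ C.O} :=
    hw.mono fun z hz => std_dom hz.1 hz.2
  have ha : ContDiff ℝ ∞ (pbF p1 (aF l) : En 15 → FA 15) :=
    contDiff_pbF contDiff_p1 (contDiff_aF hl)
  have hvw : ContDiffOn ℝ ∞ (fun z => v z * D.wK z) {z | p1 z ∈ YY ∧ p3 z ∈ C.O} :=
    contDiffOn_mulFA hv1 hw'
  have ha0 : ∀ z : En 15, p1 z ∉ YC l → (pbF p1 (aF l) z : FA 15) = 0 := by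
    intro z hz
    unfold pbF
    have h : aF l (p1 z) = 0 := by
      by_contra hne
      exact hz (aF_ne hl hne)
    rw [h, FAMap_zero]
  set u : En 15 → FA 15 := fun z => if p1 z ∈ YY then pbF p1 (aF l) z * (v z * D.wK z) else 0
    with hu
  have hu_in : ∀ z, p1 z ∈ YY → u =ᶠ[nhds z] fun z => pbF p1 (aF l) z * (v z * D.wK z) := by
    intro z hz
    filter_upwards [(isOpen_YY.preimage contDiff_p1.continuous).mem_nhds hz] with y hy
    have hy' : p1 y ∈ YY := hy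
    simp only [hu]
    rw [if_pos hy']
  have hu_out : ∀ z, p1 z ∉ YY → ∀ᶠ y in nhds z, u y = 0 := by
    intro z hz
    have h1 : p1 z ∈ (YC l)ᶜ := fun h => hz (YC_sub hl hl' h)
    filter_upwards [((isCompact_YC l).isClosed.isOpen_compl.preimage
      contDiff_p1.continuous).mem_nhds h1] with y hy
    simp only [hu]
    split_ifs with h2
    · rw [ha0 y hy, zero_mul]
    · rfl
  have hus : ContDiffOn ℝ ∞ u (dom gK C.O 20000) := by
    intro z hz
    by_cases h : p1 z ∈ YY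
    · have h3 : ContDiffAt ℝ ∞ (fun z => pbF p1 (aF l) z * (v z * D.wK z)) z :=
        (contDiffOn_mulFA ha.contDiffOn hvw).contDiffAt (hD'o.mem_nhds ⟨h, hz.2⟩)
      exact (h3.congr_of_eventuallyEq (hu_in z h)).contDiffWithinAt
    · have h4 : u =ᶠ[nhds z] fun _ => (0 : FA 15) := hu_out z h
      exact (contDiffAt_const.congr_of_eventuallyEq h4).contDiffWithinAt
  have hda : ∀ z, (pbF p1 (aF l) z : FA 15).IsDeg 4 := fun z => deg_pbF _ _ _ (deg_aF l _)
  have hdw : ∀ z, (D.wK z).IsDeg 6 := fun z => deg_pbF _ _ _ (D.deg_w _)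
  have hd : ∀ z ∈ dom gK C.O 20000, (u z).IsDeg (4 + (3 + 6)) := by
    intro z hz
    simp only [hu]
    split_ifs with h
    · exact isDeg_mul (hda z) (isDeg_mul (hv2 z h hz.2) (hdw z))
    · exact isDeg_zero _
  have h0 : ∀ z ∈ dom gK N.carrier 20000, z ∉ ZB N.carrier 2 → u z = 0 := by
    intro z hz hzZ
    simp only [hu]
    split_ifs with h
    · have hzO : p3 z ∈ C.O := by
        have := (C.io_mem _ hz.2 0 ⟨by norm_num, by norm_num⟩).1
        rwa [C.io_zero _ hz.2] at this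
      by_cases h1 : p1 z ∈ YC l
      · have h2 : 2 < ‖p2 z‖ := by
          by_contra h3
          exact hzZ ⟨h1.2.2.2, not_lt.1 h3, hz.2⟩
        rw [hv3 z h hzO h2, zero_mul, mul_zero]
      · rw [ha0 z h1, zero_mul]
    · rfl
  obtain ⟨E, hE, hEd, hEf, K', hK', hKO, hE0⟩ := exists_ext W.K goodK
    (isCompact_ZB N.compact 2) (ZB_sub N.carrier (by norm_num)).1 u hus h0 hd
  refine ⟨E, hE, ?_, ?_⟩
  · intro z hz
    rw [pbΨ_dF_ext W.K goodK hE hus hEf hz]
    refine pbF_congr (Filter.EventuallyEq.refl _ _) ?_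
    have hz' : C.R z ∈ dom gK C.O 20000 := by
      have h3 := R_mem C goodK hz
      refine ⟨h3.1, ?_⟩
      have := (C.io_mem _ h3.2 0 ⟨by norm_num, by norm_num⟩).1
      rwa [C.io_zero _ h3.2] at this
    change dF u (C.R z) = pbF p1 (aF l) (C.R z) *
      (pbF W.K.Ψ D.al (C.R z) - cC • pbF p2 thF (C.R z)) * D.wK (C.R z)
    generalize C.R z = z' at hz'
    by_cases h : p1 z' ∈ YY
    · have hn := hD'o.mem_nhds (show z' ∈ {z : En 15 | p1 z ∈ YY ∧ p3 z ∈ C.O} from ⟨h, hz'.2⟩)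
      have d1 : DifferentiableAt ℝ (pbF p1 (aF l) : En 15 → FA 15) z' :=
        ha.contDiffAt.differentiableAt (by simp)
      have d2 : DifferentiableAt ℝ (fun z => v z * D.wK z) z' :=
        (hvw.contDiffAt hn).differentiableAt (by simp)
      have d3 : DifferentiableAt ℝ v z' := (hv1.contDiffAt hn).differentiableAt (by simp)
      have d4 : DifferentiableAt ℝ D.wK z' :=
        (hw'.contDiffAt hn).differentiableAt (by simp)
      have e1 : dF u z' = dF (pbF p1 (aF l)) z' * (v z' * D.wK z')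
          + pbF p1 (aF l) z' * dF (fun z => v z * D.wK z) z' := by
        rw [dF_congr (hu_in z' h)]
        exact dF_mul_even (j := 4) (by decide) d1 d2 (hda z')
      have e2 : dF (pbF p1 (aF l)) z' = (0 : FA 15) := by
        rw [dF_pbF (contDiff_p1.contDiffAt.of_le (WithTop.coe_le_coe.2 le_top))
          ((contDiff_aF hl).contDiffAt.differentiableAt (by simp))]
        unfold pbF
        rw [dF_aF, FAMap_zero]
      have e3 : dF (fun z => v z * D.wK z) z' = dF v z' * D.wK z' - v z' * dF D.wK z' :=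
        dF_mul_odd (j := 3) (by decide) d3 d4 (hv2 z' h hz'.2)
      have e4 : dF D.wK z' = 0 := D.dF_pb_w W.K goodK hz'
      rw [e1, e2, e3, e4, hv4 z' h hz'.2, zero_mul, mul_zero, sub_zero, zero_add, mul_assoc]
    · have h5 : p1 z' ∉ YC l := fun h6 => h (YC_sub hl hl' h6)
      rw [dF_zero_of (hu_out z' h), ha0 z' h5, zero_mul, zero_mul]
  · intro v _ hv
    rw [dF_ext_zero hK' hKO hE0 hv, FAMap_zero]

end Pool.Agent.EXO.CH
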