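import Mathlib
import Pool.Agent.EXO.ChStB
import Pool.Agent.EXO.ChStC
import Pool.Agent.EXO.ChStD

/-!
# EXO / ChSide: the contribution of the side `H₁`

PROOFS.
* `side_one`: `E = E₁ - E₂ + E₃` with `E₁` from `step_A`, `E₂` from `step_C` (`lam` from `cs_rel`), `E₃` from `step_D`; `dF E = dF E₁ - dF E₂ + dF E₃`
  (`dF_sub'`, `dF_add`; all smooth), `FAMap_sub`, `FAMap_add`.  On `dom gK C.O 20000` all terms are `pbF C.R` of forms, and it is
  enough to compare their values at `z' = C.R z` (`pbF C.R u z = FAMap _ (u (C.R z))`).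
  If `p1 z' ≠ 0`: with `dφ = dF (fun y => rF (ph (p1 y))) z'`: `dφ * pbF T1 csH = dφ * csK - dφ * dF lam - dφ * pbF p1 tau0` (`cs_rel`) and
  `dφ * pbF p1 tau0 z' = pbF p1 (aF l) z'` (`aF = dF (rF ph) * tau0`; `pbF_mul`, `dF_pbF`, `pbF_rF`).  `gaK = pbF K.Ψ al * wK` (`pbF_mul`).
  So the sum is `(dφ csK - dφ dlam - a + φ alK) * gaK + dφ dlam gaK + a (al' - cC θ) wK = (dφ csK + φ alK) gaK - cC • (a θ wK)`.
  If `p1 z' = 0`: `dφ = 0`, `aF l 0 = 0` (`aF_ne`, `1 ≤ ‖x‖` on `YC`), everything agrees.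
-/

set_option autoImplicit false
set_option maxSynthPendingDepth 3
set_option linter.unusedSectionVars false

open Set MeasureTheory Matrix
open scoped ContDiff

namespace Pool.Agent.EXO.CH

variable {N : OrGeo 6 7} {C : Collar N.carrier} {l : ℝ}

/-- `dφ ∧ τ = p1^* aF` on `K`. -/
theorem aF_pb {l : ℝ} (hl : 0 < l) {z : En 15} (hz : p1 z ≠ 0) :
    dF (fun y : En 15 => rF (ph (p1 y))) z * pbF p1 (tau0 l) z = pbF p1 (aF l) z := by
  have h0 : DifferentiableAt ℝ (fun y : En 4 => (rF (ph y) : FA 4)) (p1 z) := by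
    have h1 : ContDiff ℝ ∞ (fun y : En 4 => (rF (ph y) : FA 4)) := contDiff_rF.comp contDiff_ph
    exact h1.differentiable (by simp) _
  have h1 : dF (fun y : En 15 => (rF (ph (p1 y)) : FA 15)) z
      = pbF p1 (dF (fun y : En 4 => (rF (ph y) : FA 4))) z := by
    rw [← dF_pbF (show ContDiffAt ℝ 2 p1 z from p1L.contDiff.contDiffAt) h0]
    refine dF_congr (Filter.Eventually.of_forall fun y => ?_)
    exact (pbF_rF p1 ph y).symm
  have h2 : pbF p1 (aF l) z = pbF p1 (dF (fun y : En 4 => (rF (ph y) : FA 4))) z * pbF p1 (tau0 l) z :=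
    pbF_mul p1 (dF (fun y : En 4 => (rF (ph y) : FA 4))) (tau0 l) z
  rw [h1, h2]

/-- The values of pull backs by the retraction. -/
theorem chSide_R {N : Set (En 7)} (C : Collar N) {u v : En 15 → FA 15} {z : En 15}
    (h : u (C.R z) = v (C.R z)) : pbF C.R u z = pbF C.R v z := by
  unfold pbF
  rw [h]

theorem chSide_dph {z : En 15} (hz : p1 z = 0) :
    dF (fun y : En 15 => (rF (ph (p1 y)) : FA 15)) z = 0 := by
  refine dF_zero_of ?_
  have h1 : ∀ᶠ y in nhds z, ‖p1 y‖ < 1 := by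
    have h2 : ContinuousAt (fun y : En 15 => ‖p1 y‖) z := contDiff_p1.continuous.norm.continuousAt
    refine h2.eventually_lt continuousAt_const ?_
    simp [hz]
  filter_upwards [h1] with y hy
  rw [ph_zero hy.le, rF_zero]

theorem side_one (hl : 0 < l) (hl' : l < 1) {W : WD N C l} (D : FD W) :
    ∃ E : En W.M → FA W.M, ContDiff ℝ ∞ E ∧
    (∀ z ∈ dom gK C.O 20000, pbF W.K.Ψ (dF E) z = pbF C.R (fun z =>
      (dF (fun y : En 15 => rF (ph (p1 y))) z * W.csK z
        + rF (ph (p1 z)) * W.alK z) * D.gaK z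
        - cC • (pbF p1 (aF l) z * pbF p2 thF z * D.wK z)) z) ∧
    (∀ v ∈ W.V.carrier, v ∈ W.H1.O → v ∉ W.K.O →
      FAMap (W.V.P v) (dF E v) = FAMap (W.V.P v) (W.V.sF 2 v * D.ga v)) ∧
    ∀ v ∈ W.V.carrier, v ∉ W.H1.O → v ∉ W.K.O → FAMap (W.V.P v) (dF E v) = 0 := by
  obtain ⟨lam, hl1, hl2, hl3⟩ := W.cs_rel hl
  obtain ⟨E1, hE1, hA, hB, hC⟩ := step_A D hl
  obtain ⟨E2, hE2, hA2, hB2⟩ := step_C D hl hl1 hl2
  obtain ⟨E3, hE3, hA3, hB3⟩ := step_D D hl hl'
  have d1 : Differentiable ℝ E1 := hE1.differentiable (by simp)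
  have d2 : Differentiable ℝ E2 := hE2.differentiable (by simp)
  have d3 : Differentiable ℝ E3 := hE3.differentiable (by simp)
  have hd : ∀ v, dF (fun v => E1 v - E2 v + E3 v) v = dF E1 v - dF E2 v + dF E3 v := by
    intro v
    have h1 : DifferentiableAt ℝ (fun v => E1 v - E2 v) v := (d1 v).sub (d2 v)
    rw [dF_add h1 (d3 v), dF_sub' (d1 v) (d2 v)]
  refine ⟨fun v => E1 v - E2 v + E3 v, (hE1.sub hE2).add hE3, ?_, ?_, ?_⟩
  · intro z hz
    have e0 : pbF W.K.Ψ (dF fun v => E1 v - E2 v + E3 v) z =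
        pbF W.K.Ψ (dF E1) z - pbF W.K.Ψ (dF E2) z + pbF W.K.Ψ (dF E3) z := by
      unfold pbF
      rw [hd, FAMap_add, FAMap_sub]
    rw [e0, hA z hz, hA2 z hz, hA3 z hz, ← pbF_sub, ← pbF_add]
    refine chSide_R C ?_
    have hz' : C.R z ∈ dom gK C.O 20000 := dom_sub C gK 20000 (R_mem C goodK hz)
    set y := C.R z with hy
    have hga : D.gaK y = pbF W.K.Ψ D.al y * D.wK y := pbF_mul W.K.Ψ D.al D.w y
    by_cases h0 : p1 y = 0
    · have e1 : dF (fun y : En 15 => (rF (ph (p1 y)) : FA 15)) y = 0 := chSide_dph h0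
      have e2 : pbF p1 (aF l) y = 0 := by
        have : aF l (p1 y) = 0 := by
          by_contra hne
          have h1 := aF_ne hl hne
          rw [h0] at h1
          have h2 := h1.2.2.1
          rw [norm_zero] at h2
          linarith
        unfold pbF
        rw [this, FAMap_zero]
      simp only [e1, e2, zero_mul, neg_zero, sub_zero, smul_zero, zero_add, add_zero]
    · have e1 := hl3 y hz' h0
      have e2 := aF_pb hl h0
      simp only [hga]
      set dp := dF (fun y : En 15 => (rF (ph (p1 y)) : FA 15)) y with hdp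
      have e3 : dp * pbF (T1 l) W.csH y = dp * W.csK y - dp * dF lam y - pbF p1 (aF l) y := by
        rw [e1, ← e2]
        noncomm_ring
      rw [e3]
      have e4 : pbF p1 (aF l) y * (pbF W.K.Ψ D.al y - cC • pbF p2 thF y) * D.wK y =
          pbF p1 (aF l) y * (pbF W.K.Ψ D.al y * D.wK y) -
          cC • (pbF p1 (aF l) y * pbF p2 thF y * D.wK y) := by
        rw [mul_sub, sub_mul, mul_smul_comm, smul_mul_assoc, mul_assoc]
      rw [e4]
      noncomm_ring
  · intro v hv h1 h2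
    rw [hd, FAMap_add, FAMap_sub, hB v hv h1 h2, hB2 v hv h2, hB3 v hv h2, sub_zero, add_zero]
  · intro v hv h1 h2
    rw [hd, FAMap_add, FAMap_sub, hC v hv h1, hB2 v hv h2, hB3 v hv h2, sub_zero, add_zero]

end Pool.Agent.EXO.CH
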