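import Mathlib
import Pool.Agent.EXO.ChSide

/-!
# EXO / ChSideB: the side `H₂` by symmetry

PROOF.
* `side_two`: `side_one` for `W.swap`, `D.swap` (`W.swap.K.Ψ z = W.K.Ψ (sw z)`, `W.swap.H1.O = W.H2.O`, `W.swap.V = W.V`,
  `D.swap.al = D.al` etc. by `rfl`).  Given `z ∈ dom gK C.O 20000`, use its formula at `sw z` and apply `FAMap (fderiv ℝ sw z) = FAMap swL`
  (i.e. `pbF sw`): `pbF sw (pbF (W.K.Ψ ∘ sw) (dF E)) z = pbF W.K.Ψ (dF E) z` (`pbF_comp`, `sw_sw`), and for the right side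
  `pbF sw (pbF C.R F) = pbF C.R (pbF sw F)` (`R_sw`), `pbF sw` of the single terms at `z' = C.R z`: `pbF_mul`, `pbF_add`,
  `pbF sw (dF (fun y => rF (ph (p1 y)))) = dF (fun y => rF (ph (p2 y)))` (`dF_pbF`, `pbF_rF`), `cs_swap`,
  `pbF sw (pbF p1 u) = pbF p2 u`, `pbF sw (pbF p2 u) = pbF p1 u`, `pbF sw (pbF (W.K.Ψ ∘ sw) u) = pbF W.K.Ψ u`.
-/

set_option autoImplicit false
set_option maxSynthPendingDepth 3
set_option linter.unusedSectionVars false

open Set MeasureTheory Matrix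
open scoped ContDiff

namespace Pool.Agent.EXO.CH

variable {N : OrGeo 6 7} {C : Collar N.carrier} {l : ℝ}

theorem side_two (hl : 0 < l) (hl' : l < 1) {W : WD N C l} (D : FD W) :
    ∃ E : En W.M → FA W.M, ContDiff ℝ ∞ E ∧
    (∀ z ∈ dom gK C.O 20000, pbF W.K.Ψ (dF E) z = pbF C.R (fun z =>
      (dF (fun y : En 15 => rF (ph (p2 y))) z * W.csK z
        + rF (ph (p2 z)) * W.alK z) * D.gaK z
        - cC • (pbF p2 (aF l) z * pbF p1 thF z * D.wK z)) z) ∧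
    (∀ v ∈ W.V.carrier, v ∈ W.H2.O → v ∉ W.K.O →
      FAMap (W.V.P v) (dF E v) = FAMap (W.V.P v) (W.V.sF 2 v * D.ga v)) ∧
    ∀ v ∈ W.V.carrier, v ∉ W.H2.O → v ∉ W.K.O → FAMap (W.V.P v) (dF E v) = 0 := by
  obtain ⟨E, hE, hK, hH, h0⟩ := side_one hl hl' (W := W.swap) D.swap
  refine ⟨E, hE, ?_, hH, h0⟩
  intro z hz
  have dsw : ∀ y : En 15, DifferentiableAt ℝ sw y := fun y =>
    contDiff_sw.differentiable (by simp) y
  have hmem : ∀ {y : En 15}, y ∈ dom gK C.O 20000 → sw y ∈ dom gK C.O 20000 := fun {y} hy =>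
    ⟨by rw [gK_sw]; exact hy.1, by rw [p3_sw]; exact hy.2⟩
  have hz' : sw z ∈ dom gK C.O 20000 := hmem hz
  have dR : ∀ {y : En 15}, y ∈ dom gK C.O 20000 → DifferentiableAt ℝ C.R y := fun {y} hy =>
    ((contDiffOn_R C gK 20000).contDiffAt
      ((isOpen_dom C goodK 20000).mem_nhds hy)).differentiableAt (by simp)
  have hcomp : ∀ (u : En W.M → FA W.M) {y : En 15}, y ∈ dom gK C.O 20000 →
      pbF sw (pbF W.swap.K.Ψ u) y = pbF W.K.Ψ u y := by
    intro u y hy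
    have h1 : DifferentiableAt ℝ W.swap.K.Ψ (sw y) :=
      (VPiece.diff_Ψ W.swap.K goodK (hmem hy)).differentiableAt (by simp)
    rw [pbF_comp h1 (dsw y)]
    have h2 : W.swap.K.Ψ ∘ sw = W.K.Ψ := by
      funext x
      change W.K.Ψ (sw (sw x)) = W.K.Ψ x
      rw [sw_sw]
    rw [h2]
    rfl
  set F : En 15 → FA 15 := fun z =>
      (dF (fun y : En 15 => rF (ph (p1 y))) z * W.swap.csK z
        + rF (ph (p1 z)) * W.swap.alK z) * D.swap.gaK z
        - cC • (pbF p1 (aF l) z * pbF p2 thF z * D.swap.wK z) with hF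
  have e1 : pbF W.K.Ψ (dF E) z = pbF sw (pbF C.R F) z := by
    rw [← hcomp (dF E) hz]
    exact pbF_congr Filter.EventuallyEq.rfl (hK (sw z) hz')
  have e2 : pbF sw (pbF C.R F) z = pbF C.R (pbF sw F) z := by
    rw [pbF_comp (dR hz') (dsw z), pbF_comp (dsw _) (dR hz)]
    have h2 : C.R ∘ sw = sw ∘ C.R := funext fun x => R_sw C x
    rw [h2]
  rw [e1, e2]
  refine pbF_congr Filter.EventuallyEq.rfl ?_
  set z1 := C.R z with hz1
  have hz1m : z1 ∈ dom gK C.O 20000 := dom_sub C gK 20000 (R_mem C goodK hz)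
  have t1 : pbF sw (dF (fun y : En 15 => rF (ph (p1 y)))) z1 =
      dF (fun y : En 15 => rF (ph (p2 y))) z1 := by
    have hd : DifferentiableAt ℝ (fun y : En 15 => (rF (ph (p1 y)) : FA 15)) (sw z1) :=
      ((contDiff_rF.comp (contDiff_ph.comp contDiff_p1)).differentiable (by simp)) _
    rw [← dF_pbF (contDiff_sw.contDiffAt.of_le ENat.LEInfty.out) hd]
    apply dF_congr
    refine Filter.Eventually.of_forall fun y => ?_
    show pbF sw (fun y : En 15 => rF (ph (p1 y))) y = rF (ph (p2 y))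
    rw [pbF_rF, p1_sw]
  have t2 : pbF sw (pbF p1 (aF l)) z1 = pbF p2 (aF l) z1 := by
    rw [pbF_comp (contDiff_p1.differentiable (by simp) _) (dsw _)]
    have h2 : p1 ∘ sw = p2 := funext fun x => p1_sw x
    rw [h2]
  have t3 : pbF sw (pbF p2 thF) z1 = pbF p1 thF z1 := by
    rw [pbF_comp (contDiff_p2.differentiable (by simp) _) (dsw _)]
    have h2 : p2 ∘ sw = p1 := funext fun x => p2_sw x
    rw [h2]
  have t4 : pbF sw W.swap.csK z1 = W.csK z1 := W.cs_swap hz1m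
  have t5 : pbF sw W.swap.alK z1 = W.alK z1 := hcomp (W.V.sF 2) hz1m
  have t6 : pbF sw D.swap.gaK z1 = D.gaK z1 := hcomp D.ga hz1m
  have t7 : pbF sw D.swap.wK z1 = D.wK z1 := hcomp D.w hz1m
  have t8 : pbF sw (fun y : En 15 => rF (ph (p1 y))) z1 = rF (ph (p2 z1)) := by
    rw [pbF_rF, p1_sw]
  show pbF sw F z1 = _
  rw [← t1, ← t2, ← t3, ← t4, ← t5, ← t6, ← t7, ← t8]
  rw [hF]
  unfold pbF
  rw [FAMap_sub, FAMap_mul, FAMap_add, FAMap_mul, FAMap_mul, FAMap_smul, FAMap_mul, FAMap_mul]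

end Pool.Agent.EXO.CH
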