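import Mathlib
import Pool.Agent.EXO.ChSideB

/-!
# EXO / ChFin: the form `α α' w` up to exact forms

PROOF.  `E = E₀ + E₁ + E₂` from `step_K`, `side_one`, `side_two`.
(1) `z ∈ dom gK C.O 20000`: `pbF K.Ψ (fun v => sF 2 v * ga v) z = alK z * gaK z = pbF C.R (fun z => alK z * gaK z) z` (`pbF_mul`, `pbF_R`),
    and at `z' = C.R z` with `φ₀ + φ₁ + φ₂ = 1`, `dF φ₀ + dF φ₁ + dF φ₂ = dF 1 = 0` (`dF_add`, `rF_sub`, `dF_const`):
    `alK gaK - (dφ₀ csK + φ₀ alK) gaK - (dφ₁ csK + φ₁ alK) gaK - (dφ₂ csK + φ₂ alK) gaK + cC • (..) = cC • (..)`.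
(2) `v ∈ V`, `v ∉ K.O`.  If `v ∈ H1.O` then `v ∉ H2.O` (`W.inter12`) and `dF E = 0 + sF 2 * ga + 0` on tangent vectors.  The same
    for `v ∈ H2.O`.  If `v` is in none of `K.O`, `H1.O`, `H2.O`: `W.cover v` says `v ∈ Core` (the other cases are impossible:
    `maps`), so `FAMap (V.P v) (al v) = 0` (`D.core`), `FAMap (V.P v) (sF 2 v * ga v) = 0`, and all three `dF E_i` vanish.
-/

set_option autoImplicit false
set_option maxSynthPendingDepth 3
set_option linter.unusedSectionVars false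

open Set MeasureTheory Matrix
open scoped ContDiff

namespace Pool.Agent.EXO.CH

variable {N : OrGeo 6 7} {C : Collar N.carrier} {l : ℝ}

private theorem ChFin_dph {z : En 15} :
    dF (fun y : En 15 => (rF (1 - ph (p1 y) - ph (p2 y)) : FA 15)) z =
      -dF (fun y : En 15 => (rF (ph (p1 y)) : FA 15)) z
        - dF (fun y : En 15 => (rF (ph (p2 y)) : FA 15)) z := by
  have h1 : DifferentiableAt ℝ (fun y : En 15 => (rF (ph (p1 y)) : FA 15)) z :=
    (contDiff_rF.comp (contDiff_ph.comp contDiff_p1)).differentiable (by simp) z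
  have h2 : DifferentiableAt ℝ (fun y : En 15 => (rF (ph (p2 y)) : FA 15)) z :=
    (contDiff_rF.comp (contDiff_ph.comp contDiff_p2)).differentiable (by simp) z
  have h0 : DifferentiableAt ℝ (fun _ : En 15 => (1 : FA 15)) z := differentiableAt_const _
  have h3 : DifferentiableAt ℝ (fun y : En 15 => (1 : FA 15) - rF (ph (p1 y))) z := h0.sub h1
  have e : (fun y : En 15 => (rF (1 - ph (p1 y) - ph (p2 y)) : FA 15)) =
      fun y => (1 : FA 15) - rF (ph (p1 y)) - rF (ph (p2 y)) := by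
    funext y
    rw [rF_sub, rF_sub, rF_one]
  rw [e, dF_sub' h3 h2, dF_sub' h0 h1, dF_const, zero_sub]

theorem step_fin (hl : 0 < l) (hl' : l < 1) {W : WD N C l} (D : FD W) :
    ∃ E : En W.M → FA W.M, ContDiff ℝ ∞ E ∧
    (∀ z ∈ dom gK C.O 20000, pbF W.K.Ψ (fun v => W.V.sF 2 v * D.ga v - dF E v) z =
      pbF C.R (fun z => cC • ((pbF p1 (aF l) z * pbF p2 thF z
        + pbF p2 (aF l) z * pbF p1 thF z) * D.wK z)) z) ∧
    ∀ v ∈ W.V.carrier, v ∉ W.K.O →
      FAMap (W.V.P v) (W.V.sF 2 v * D.ga v - dF E v) = 0 := by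
  obtain ⟨E0, hE0, hA0, hB0⟩ := step_K D hl
  obtain ⟨E1, hE1, hA1, hB1, hC1⟩ := side_one hl hl' D
  obtain ⟨E2, hE2, hA2, hB2, hC2⟩ := side_two hl hl' D
  have d0 : Differentiable ℝ E0 := hE0.differentiable (by simp)
  have d1 : Differentiable ℝ E1 := hE1.differentiable (by simp)
  have d2 : Differentiable ℝ E2 := hE2.differentiable (by simp)
  have hd : ∀ v, dF (fun v => E0 v + E1 v + E2 v) v = dF E0 v + dF E1 v + dF E2 v := by
    intro v
    have h1 : DifferentiableAt ℝ (fun v => E0 v + E1 v) v := (d0 v).add (d1 v)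
    rw [dF_add h1 (d2 v), dF_add (d0 v) (d1 v)]
  refine ⟨fun v => E0 v + E1 v + E2 v, (hE0.add hE1).add hE2, ?_, ?_⟩
  · intro z hz
    have e0 : pbF W.K.Ψ (fun v => W.V.sF 2 v * D.ga v - dF (fun v => E0 v + E1 v + E2 v) v) z =
        W.alK z * D.gaK z - (pbF W.K.Ψ (dF E0) z + pbF W.K.Ψ (dF E1) z + pbF W.K.Ψ (dF E2) z) := by
      unfold WD.alK FD.gaK pbF
      show FAMap (fderiv ℝ W.K.Ψ z) (W.V.sF 2 (W.K.Ψ z) * D.ga (W.K.Ψ z) -
        dF (fun v => E0 v + E1 v + E2 v) (W.K.Ψ z)) = _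
      rw [hd, FAMap_sub, FAMap_add, FAMap_add, FAMap_mul]
    have e1 : W.alK z * D.gaK z = pbF C.R (fun z => W.alK z * D.gaK z) z := by
      rw [pbF_mul]
      unfold WD.alK FD.gaK
      rw [VPiece.pbF_R W.K goodK _ hz, VPiece.pbF_R W.K goodK _ hz]
    rw [e0, e1, hA0 z hz, hA1 z hz, hA2 z hz, ← pbF_add, ← pbF_add, ← pbF_sub]
    refine chSide_R C ?_
    simp only [ChFin_dph]
    simp only [rF_sub, rF_one, add_mul, smul_add]
    noncomm_ring
  · intro v hv hvK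
    have e0 : FAMap (W.V.P v) (W.V.sF 2 v * D.ga v - dF (fun v => E0 v + E1 v + E2 v) v) =
        FAMap (W.V.P v) (W.V.sF 2 v * D.ga v) - (FAMap (W.V.P v) (dF E0 v) +
          FAMap (W.V.P v) (dF E1 v) + FAMap (W.V.P v) (dF E2 v)) := by
      rw [hd, FAMap_sub, FAMap_add, FAMap_add]
    rw [e0, hB0 v hv hvK]
    by_cases h1 : v ∈ W.H1.O
    · have h2 : v ∉ W.H2.O := fun h => hvK (W.inter12 v hv h1 h)
      rw [hB1 v hv h1 hvK, hC2 v hv h2 hvK]
      abel
    · rw [hC1 v hv h1 hvK]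
      by_cases h2 : v ∈ W.H2.O
      · rw [hB2 v hv h2 hvK]
        abel
      · rw [hC2 v hv h2 hvK]
        have h3 : FAMap (W.V.P v) (D.al v) = 0 := by
          rcases W.cover v hv with h | ⟨z, hz, hzN, rfl⟩ | ⟨z, hz, hzN, rfl⟩ | ⟨z, hz, hzN, rfl⟩
          · exact D.core v h hv
          · exact absurd (W.K.maps z (dom_sub C gK 20000 ⟨by linarith, hzN⟩)).2 hvK
          · exact absurd (W.H1.maps z (dom_sub C g1 20000 ⟨by linarith, hzN⟩)).2 h1
          · exact absurd (W.H2.maps z (dom_sub C g2 20000 ⟨by linarith, hzN⟩)).2 h2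
        rw [FAMap_mul, D.ga_zero h3, mul_zero]
        abel

end Pool.Agent.EXO.CH
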