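import Mathlib
import Pool.Agent.EXO.ChCl
import Pool.Agent.EXO.ChSup
import Pool.Agent.EXO.ChExt

/-!
# EXO / ChS1: subtraction of the form of the source piece

PROOFS.
* `exists_FD`: let `β = (VPiece.frame 𝒱.S goodS).csF`, `χ z = 1 - stp (gS z - 11)` (smooth, `1` for `gS z ≤ 11`, `0` for
  `12 ≤ gS z`), `u = rF (χ z) * β z`, `Z = ZB N 4` (`‖p1 z‖² + ‖p2 z‖² ≤ 12` outside the zero set of `χ`).  `exists_ext` gives
  `b` of degree `3` with `pbF S.Ψ b z = pbF C.R u z` on `dom gS C.O 20000`.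
  `core`: let `v = S.Ψ z`, `gS z ≤ 10`, `p3 z ∈ N` (so `z ∈ dom gS N 20000`).  Near `z` we have `χ (C.R z') = 1`
  (`GoodG.R`, `gS` continuous), so `pbF S.Ψ b = pbF C.R β` near `z` (`pbF_congr`, at each `z'` only the value `u (C.R z')`
  matters) and `pbF S.Ψ (dF b) z = dF (pbF C.R β) z = pbF C.R (dF β) z` (`dF_pbΨ`, `dF_R`)
  `= pbF C.R (pbF S.Ψ (sF 2)) z` (`sF_piece` at `C.R z`) `= pbF S.Ψ (sF 2) z` (`pbF_R`).  So
  `pbF S.Ψ (sF 2 - dF b) z = 0`, and `tan_zero_iff`.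
* `sF_closed`: `𝒱.cover v`; in each case `v` is in the set `X.O` of a piece (`maps`), `tan_zero_iff` (or `tan_of_pb`)
  and `pb_dF_sF`.
* `int_step1`: on tangent vectors at `v ∈ V`: `sF 2 * sF 2 * w - sF 2 * ga = sF 2 * dF b * w = dF b * (sF 2 * w)`
  (`comm_of_deg_even`) and `dF (b * (sF 2 * w)) = dF b * (sF 2 * w) - b * dF (sF 2 * w)` (`dF_mul_odd`),
  `dF (sF 2 * w) = dF (sF 2) * w + sF 2 * dF w` (`dF_mul_even`) vanishes on tangent vectors (`sF_closed`, `w_closed`,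
  `FAMap_mul`).  `int_congr_tan`, `int_add'`, `int_dF`.
-/

set_option autoImplicit false
set_option maxSynthPendingDepth 3
set_option linter.unusedSectionVars false

open Set MeasureTheory Matrix
open scoped ContDiff

namespace Pool.Agent.EXO.CH

variable {N : OrGeo 6 7} {C : Collar N.carrier} {l δ : ℝ} (𝒱 : VData N C l δ)

private theorem ChS1_gS : ContDiff ℝ ∞ gS := by
  have h1 : ContDiff ℝ ∞ (p1 : En 15 → En 4) :=
    (LinearMap.toContinuousLinearMap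
      { toFun := p1
        map_add' := fun _ _ => rfl
        map_smul' := fun _ _ => rfl } : En 15 →L[ℝ] En 4).contDiff
  have h2 : ContDiff ℝ ∞ (p2 : En 15 → En 4) :=
    (LinearMap.toContinuousLinearMap
      { toFun := p2
        map_add' := fun _ _ => rfl
        map_smul' := fun _ _ => rfl } : En 15 →L[ℝ] En 4).contDiff
  exact ((contDiff_norm_sq ℝ).comp h1).add ((contDiff_norm_sq ℝ).comp h2)

theorem exists_FD (om : En 7 → FA 7) (hom : ContDiff ℝ ∞ om) (hom' : ∀ x, (om x).IsDeg 6) :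
    ∃ D : FD (toWD 𝒱), D.om = om := by
  set F := VPiece.frame 𝒱.S goodS with hF
  set β : En 15 → FA 15 := F.csF with hβ
  set χ : En 15 → ℝ := fun z => 1 - stp (gS z - 11) with hχ
  have hU : IsOpen (dom gS C.O 20000) := isOpen_dom C goodS 20000
  have hβs : ContDiffOn ℝ ∞ β (dom gS C.O 20000) := Frame.contDiffOn_csF hU F
  have hχs : ContDiff ℝ ∞ χ :=
    contDiff_const.sub (Real.smoothTransition.contDiff.comp (ChS1_gS.sub contDiff_const))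
  set u : En 15 → FA 15 := fun z => rF (χ z) * β z with hudef
  have hu : ContDiffOn ℝ ∞ u (dom gS C.O 20000) :=
    contDiffOn_mulFA (contDiffOn_rF hχs.contDiffOn) hβs
  obtain ⟨b, hb1, hb2, hb3, -⟩ := exists_ext 𝒱.S goodS (Z := ZB N.carrier 4)
    (isCompact_ZB N.compact 4) (ZB_sub _ (by norm_num)).2.2 u hu (by
      intro z hz hzZ
      have h1 : 12 ≤ gS z := by
        by_contra hcon
        refine hzZ ⟨?_, ?_, hz.2⟩
        · have h2 : ‖p1 z‖ ^ 2 ≤ 4 ^ 2 := by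
            have : ‖p1 z‖ ^ 2 + ‖p2 z‖ ^ 2 < 12 := not_le.1 hcon
            nlinarith [sq_nonneg ‖p2 z‖]
          exact le_of_sq_le_sq h2 (by norm_num)
        · have h2 : ‖p2 z‖ ^ 2 ≤ 4 ^ 2 := by
            have : ‖p1 z‖ ^ 2 + ‖p2 z‖ ^ 2 < 12 := not_le.1 hcon
            nlinarith [sq_nonneg ‖p1 z‖]
          exact le_of_sq_le_sq h2 (by norm_num)
      have h3 : χ z = 0 := by
        show 1 - stp (gS z - 11) = 0
        rw [stp, Real.smoothTransition.one_of_one_le (by linarith), sub_self]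
      show rF (χ z) * β z = 0
      rw [h3, rF_zero, zero_mul]) (j := 3) (by
      intro z _
      have h1 := isDeg_mul (deg_rF (m := 15) (χ z)) (Frame.deg_csF F z)
      rwa [zero_add] at h1)
  refine ⟨⟨b, om, hb1, hb2, hom, hom', ?_⟩, rfl⟩
  rintro v ⟨z, hz1, hz2, rfl⟩ -
  have hzN : z ∈ dom gS N.carrier 20000 := ⟨lt_of_le_of_lt hz1 (by norm_num), hz2⟩
  have hz : z ∈ dom gS C.O 20000 := dom_sub C gS 20000 hzN
  have key : pbF 𝒱.S.Ψ (fun v => 𝒱.V.sF 2 v - dF b v) z = 0 := by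
    rw [pbF_sub]
    have e1 : pbF 𝒱.S.Ψ (fun v => dF b v) z = dF (pbF 𝒱.S.Ψ b) z :=
      (VPiece.dF_pbΨ 𝒱.S goodS hb1 hz).symm
    have e2 : pbF 𝒱.S.Ψ b =ᶠ[nhds z] pbF C.R β := by
      have ho : ∀ᶠ z' in nhds z, gS z' < 11 :=
        goodS.cont.continuousAt.eventually (gt_mem_nhds (by linarith))
      filter_upwards [ho, hU.mem_nhds hz] with z' h1 h2
      rw [hb3 z' h2]
      refine pbF_congr Filter.EventuallyEq.rfl ?_
      have h3 : χ (C.R z') = 1 := by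
        show 1 - stp (gS (C.R z') - 11) = 1
        rw [GoodG.R C goodS, stp, Real.smoothTransition.zero_of_nonpos (by linarith), sub_zero]
      show rF (χ (C.R z')) * β (C.R z') = β (C.R z')
      rw [h3, rF_one, one_mul]
    have e3 : pbF C.R (dF β) z = pbF C.R (pbF 𝒱.S.Ψ (𝒱.V.sF 2)) z := by
      refine pbF_congr Filter.EventuallyEq.rfl ?_
      exact (VPiece.sF_piece 𝒱.V.toGeo 𝒱.S goodS
        (dom_sub C gS 20000 (R_mem C goodS hz))).symm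
    rw [e1, dF_congr e2, dF_R C goodS hβs hz, e3, VPiece.pbF_R 𝒱.S goodS _ hz]
    exact sub_self _
  exact (VPiece.tan_zero_iff 𝒱.V.toGeo 𝒱.S goodS (E := fun v => 𝒱.V.sF 2 v - dF b v) hz).2 key

theorem sF_closed {v : En 𝒱.M} (hv : v ∈ 𝒱.V.carrier) :
    FAMap (𝒱.V.P v) (dF (𝒱.V.sF 2) v) = 0 := by
  have main : ∀ {g : En 15 → ℝ} (X : VPiece C 𝒱.V.carrier g) (hg : GoodG g) (z : En 15) (c : ℝ),
      c < 20000 → g z ≤ c → p3 z ∈ N.carrier →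
      FAMap (𝒱.V.P (X.Ψ z)) (dF (𝒱.V.sF 2) (X.Ψ z)) = 0 := by
    intro g X hg z c hc h1 h2
    have hz : z ∈ dom g C.O 20000 := dom_sub C g 20000 ⟨lt_of_le_of_lt h1 hc, h2⟩
    exact (VPiece.tan_zero_iff 𝒱.V.toGeo X hg (E := dF (𝒱.V.sF 2)) hz).2
      (VPiece.pb_dF_sF 𝒱.V.toGeo X hg hz)
  rcases 𝒱.cover v hv with ⟨z, h1, h2, rfl⟩ | ⟨z, h1, h2, rfl⟩ | ⟨z, h1, h2, rfl⟩ |
    ⟨z, h1, h2, rfl⟩
  · exact main 𝒱.S goodS z 10 (by norm_num) h1 h2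
  · exact main 𝒱.K goodK z (1 / 3) (by norm_num) h1 h2
  · exact main 𝒱.H1 good1 z (1 / 3) (by norm_num) h1 h2
  · exact main 𝒱.H2 good2 z (1 / 3) (by norm_num) h1 h2

theorem int_step1 (D : FD (toWD 𝒱)) :
    (toWD 𝒱).V.int (fun v => (toWD 𝒱).V.sF 2 v * (toWD 𝒱).V.sF 2 v * pbF (toWD 𝒱).r D.om v)
      = (toWD 𝒱).V.int (fun v => (toWD 𝒱).V.sF 2 v * D.ga v) := by
  have sS : ContDiff ℝ ∞ ((toWD 𝒱).V.sF 2) := contDiff_sF (toWD 𝒱).V.toGeo 2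
  have sw : ContDiff ℝ ∞ D.w := D.contDiff_w
  have sb : ContDiff ℝ ∞ D.b := D.smooth_b
  have sga : ContDiff ℝ ∞ D.ga := D.contDiff_ga
  have sSw : ContDiff ℝ ∞ (fun v => (toWD 𝒱).V.sF 2 v * D.w v) := contDiff_mulFA' sS sw
  have sbSw : ContDiff ℝ ∞ (fun v => D.b v * ((toWD 𝒱).V.sF 2 v * D.w v)) := contDiff_mulFA' sb sSw
  have dd : ∀ {u : En (toWD 𝒱).M → FA (toWD 𝒱).M}, ContDiff ℝ ∞ u → ∀ v, DifferentiableAt ℝ u v :=
    fun hu v => (hu.differentiable (by simp)) v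
  have hdeg4 : ∀ v, ((toWD 𝒱).V.sF 2 v).IsDeg 4 := fun v => deg_sF (toWD 𝒱).V.toGeo 2 v
  have h1 : (toWD 𝒱).V.int (fun v => (toWD 𝒱).V.sF 2 v * (toWD 𝒱).V.sF 2 v * pbF (toWD 𝒱).r D.om v) =
      (toWD 𝒱).V.int (fun v => (toWD 𝒱).V.sF 2 v * D.ga v +
        dF (fun v => D.b v * ((toWD 𝒱).V.sF 2 v * D.w v)) v) := by
    refine OrGeo.int_congr_tan (toWD 𝒱).V fun v hv => ?_
    have e1 : dF (fun v => D.b v * ((toWD 𝒱).V.sF 2 v * D.w v)) v =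
        dF D.b v * ((toWD 𝒱).V.sF 2 v * D.w v) - D.b v * dF (fun v => (toWD 𝒱).V.sF 2 v * D.w v) v :=
      dF_mul_odd (j := 3) (by decide) (dd sb v) (dd sSw v) (D.deg_b v)
    have e2 : dF (fun v => (toWD 𝒱).V.sF 2 v * D.w v) v =
        dF ((toWD 𝒱).V.sF 2) v * D.w v + (toWD 𝒱).V.sF 2 v * dF D.w v :=
      dF_mul_even (j := 4) (by decide) (dd sS v) (dd sw v) (hdeg4 v)
    have c1 : FAMap ((toWD 𝒱).V.P v) (dF ((toWD 𝒱).V.sF 2) v) = 0 := sF_closed 𝒱 hv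
    have c2 : FAMap ((toWD 𝒱).V.P v) (dF D.w v) = 0 :=
      w_closed (toWD 𝒱).V.toGeo N.toGeo (toWD 𝒱).smooth_r (toWD 𝒱).r_maps D.smooth_om D.deg_om hv
    have c3 : FAMap ((toWD 𝒱).V.P v) (dF (fun v => (toWD 𝒱).V.sF 2 v * D.w v) v) = 0 := by
      rw [e2, FAMap_add, FAMap_mul, FAMap_mul, c1, c2, zero_mul, mul_zero, add_zero]
    have c4 : FAMap ((toWD 𝒱).V.P v) (dF (fun v => D.b v * ((toWD 𝒱).V.sF 2 v * D.w v)) v) =
        FAMap ((toWD 𝒱).V.P v) (dF D.b v * ((toWD 𝒱).V.sF 2 v * D.w v)) := by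
      rw [e1, FAMap_sub, FAMap_mul _ (D.b v), c3, mul_zero, sub_zero]
    rw [FAMap_add, c4, ← FAMap_add]
    congr 1
    show (toWD 𝒱).V.sF 2 v * (toWD 𝒱).V.sF 2 v * D.w v =
      (toWD 𝒱).V.sF 2 v * (((toWD 𝒱).V.sF 2 v - dF D.b v) * D.w v) + dF D.b v * ((toWD 𝒱).V.sF 2 v * D.w v)
    have hcomm : (toWD 𝒱).V.sF 2 v * dF D.b v = dF D.b v * (toWD 𝒱).V.sF 2 v :=
      comm_of_deg_even (j := 4) (by decide) (hdeg4 v) _
    rw [sub_mul, mul_sub, ← mul_assoc, ← mul_assoc ((toWD 𝒱).V.sF 2 v) (dF D.b v), hcomm,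
      ← mul_assoc (dF D.b v)]
    abel
  have h2 : (toWD 𝒱).V.int (fun v => (toWD 𝒱).V.sF 2 v * D.ga v +
        dF (fun v => D.b v * ((toWD 𝒱).V.sF 2 v * D.w v)) v) =
      (toWD 𝒱).V.int (fun v => (toWD 𝒱).V.sF 2 v * D.ga v) +
        (toWD 𝒱).V.int (dF (fun v => D.b v * ((toWD 𝒱).V.sF 2 v * D.w v))) :=
    OrGeo.int_add' (toWD 𝒱).V (contDiff_mulFA' sS sga) (contDiff_dF sbSw)
  rw [h1, h2, OrGeo.int_dF (toWD 𝒱).V (by norm_num) sbSw, add_zero]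

end Pool.Agent.EXO.CH
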