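import Mathlib
import Pool.Agent.EXO.ChFin
import Pool.Agent.EXO.ChS1

/-!
# EXO / ChChn: the characteristic number

PROOFS.
* `four_form`: a form `u` of degree `4` on `ℝ⁴` is `u.co univ • mon univ` (`sum_mon`), `mon univ = word dx univ` (`word_dx`) or
  `vol4_eq`: `= dx 0 * dx 1 * dx 2 * dx 3`; `FAMap p1L (dx i) = dx ⟨i, _⟩`, `FAMap p2L (dx i) = dx ⟨4 + i, _⟩` (`FAMap_dx`, the adjoint of
  `p1L`: `⟪p1L z, bv i⟫ = z ⟨i, _⟩`; `FAMap_mul`).  `prod8`: `(dx 0 * dx 1 * dx 2 * dx 3) * (dx 4 * ... * dx 7)` is the product of the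
  list (`List.ofFn`, `List.prod_append` or `simp [List.ofFn_succ]`).
* `pb_prod`: `pbF p1 u z * pbF p2 v z = ((u (p1 z)).co univ * (v (p2 z)).co univ) • P8`; the other order: even degree, so
  they commute (`comm_of_deg_even`, `deg_pbF`).
* `IF_chn`: `D` from `exists_FD`, `E` from `step_fin` (for `toWD 𝒱`), `A v = sF 2 v * ga v - dF E v`.  `int_step1`;
  `V.int (sF 2 * ga) = V.int A + V.int (dF E) = V.int A` (`int_add'`, `int_dF`).  `int_prod_K` with
  `g x y = cC * ((aF l x).co univ * (thB y : ℂ) + (aF l y).co univ * (thB x : ℂ))`: smooth, compact support (`aF_ne`, `isCompact_YC`,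
  `thB_zero`), zero for `100 ≤ ‖x‖`; `hK`: `step_fin` at `z ∈ dom gK N 20000 ⊆ dom gK C.O 20000`; `pbF C.R` of the right side:
  `pbF C.R (pbF p1 u) = pbF p1 u` (`p1 ∘ C.R = p1`), the same for `p2`; `pbF C.R wK = wK` (`pbF_R`), `wK = pbF K.Ψ (pbF r om) =
  pbF (r ∘ K.Ψ) om = pbF (fun z => C.rho (p3 z)) om` (`r (K.Ψ z) = r (K.Ψ (C.R z)) = p3 (C.R z)`, field `rK`); `pb_prod`
  (`(thF y).co univ = thB y`).  The integral: `∫ g = cC * (cC * 1 + cC * 1)` (`integral_prod_mul`, `integral_aF`,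
  `integral_thB`, symmetric term by the same formula with the factors exchanged), `2 cC² = 2048 π⁴`.  `σ = 1`.
-/

set_option autoImplicit false
set_option maxSynthPendingDepth 3
set_option linter.unusedSectionVars false

open Set MeasureTheory Matrix
open scoped ContDiff

namespace Pool.Agent.EXO.CH

/-- The form `dx₀ ⋯ dx₇` on `ℝ^15`. -/
noncomputable def P8 : FA 15 := (List.ofFn fun i : Fin 8 => of1 (bv (⟨i, by omega⟩ : Fin 15))).prod

private theorem chn_adj1 (i : Fin 4) :
    ContinuousLinearMap.adjoint p1L (bv i) = bv (⟨i, by omega⟩ : Fin 15) := by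
  rw [← adj_co]
  ext j
  simp only [p1L_apply, p1, bv, PiLp.single_apply, eq_comm]

private theorem chn_adj2 (i : Fin 4) :
    ContinuousLinearMap.adjoint p2L (bv i) = bv (⟨4 + i, by omega⟩ : Fin 15) := by
  rw [← adj_co]
  ext j
  simp only [p2L_apply, p2, bv, PiLp.single_apply, eq_comm]

private noncomputable def chnA : FA 15 := FAMap p1L vol4

private noncomputable def chnB : FA 15 := FAMap p2L vol4

private theorem chn_AB : chnA * chnB = P8 := by
  unfold chnA chnB vol4 P8
  simp only [FAMap_mul, FAMap_of1, chn_adj1, chn_adj2]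
  simp [List.ofFn_succ, mul_assoc]

private theorem chn_deg4 : (vol4).IsDeg 4 := by
  rw [vol4_eq]
  intro I hI
  rw [mon_co, if_neg]
  rintro rfl
  simp at hI

private theorem chn_degA : chnA.IsDeg 4 := by
  have h := deg_pbF (j := 4) p1 (fun _ => vol4) (0 : En 15) chn_deg4
  unfold pbF at h
  rw [fderiv_p1] at h
  exact h

private theorem chn_BA : chnB * chnA = P8 := by
  rw [← chn_AB]
  exact (comm_of_deg_even (by decide) chn_degA chnB).symm

private theorem chn_top {u : FA 4} (hu : u.IsDeg 4) : u = u.co Finset.univ • vol4 := by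
  conv_lhs => rw [sum_mon u]
  rw [vol4_eq]
  refine Finset.sum_eq_single _ (fun I _ hI => ?_) (fun h => absurd (Finset.mem_univ _) h)
  rw [hu I ?_, zero_smul]
  intro h
  apply hI
  rw [← Finset.card_eq_iff_eq_univ, h]
  rfl

private theorem chn_pb1 {u : En 4 → FA 4} (hu : ∀ x, (u x).IsDeg 4) (z : En 15) :
    pbF p1 u z = (u (p1 z)).co Finset.univ • chnA := by
  unfold pbF
  rw [fderiv_p1]
  conv_lhs => rw [chn_top (hu (p1 z)), FAMap_smul]
  rfl

private theorem chn_pb2 {u : En 4 → FA 4} (hu : ∀ x, (u x).IsDeg 4) (z : En 15) :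
    pbF p2 u z = (u (p2 z)).co Finset.univ • chnB := by
  unfold pbF
  rw [fderiv_p2]
  conv_lhs => rw [chn_top (hu (p2 z)), FAMap_smul]
  rfl

theorem pb_prod {u v : En 4 → FA 4} (hu : ∀ x, (u x).IsDeg 4) (hv : ∀ x, (v x).IsDeg 4)
    (z : En 15) : pbF p1 u z * pbF p2 v z =
      ((u (p1 z)).co Finset.univ * (v (p2 z)).co Finset.univ) • P8 ∧
    pbF p2 u z * pbF p1 v z =
      ((u (p2 z)).co Finset.univ * (v (p1 z)).co Finset.univ) • P8 := by
  rw [chn_pb1 hu, chn_pb1 hv, chn_pb2 hu, chn_pb2 hv]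
  constructor
  · rw [smul_mul_smul_comm, chn_AB]
  · rw [smul_mul_smul_comm, chn_BA]

private theorem chn_open {O : Set (En 7)} (hO : IsOpen O) (c : ℝ) : IsOpen (dom gK O c) :=
  (isOpen_lt goodK.cont continuous_const).inter (hO.preimage contDiff_p3.continuous)

private theorem chn_R {N : Set (En 7)} {C : Collar N} {M : ℕ} {V : Set (En M)} {g : En 15 → ℝ}
    (X : VPiece C V g) {z : En 15} (hz : z ∈ dom g C.O 20000) : X.Ψ (C.R z) = X.Ψ z := by
  have h1 := X.right _ (X.maps z hz)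
  rw [X.left z hz] at h1
  exact h1

private theorem chn_sub {N : Set (En 7)} (C : Collar N) {g : En 15 → ℝ} {c : ℝ} {z : En 15}
    (hz : z ∈ dom g N c) : z ∈ dom g C.O c := by
  refine ⟨hz.1, ?_⟩
  have h := C.io_mem (p3 z) hz.2 0 (by norm_num)
  rw [C.io_zero _ hz.2] at h
  exact h.1

private theorem chn_domR {N : Set (En 7)} {C : Collar N} {z : En 15}
    (hz : z ∈ dom gK C.O 20000) : C.R z ∈ dom gK N 20000 := by
  refine ⟨?_, ?_⟩
  · have h : gK (C.R z) = gK z := goodK.inv _ _ (by simp [Collar.R]) (by simp [Collar.R])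
    rw [h]
    exact hz.1
  · simp only [Collar.R, p3_j15]
    exact (C.io_rho _ hz.2).1

theorem wK_eq {N : OrGeo 6 7} {C : Collar N.carrier} {l : ℝ} {W : WD N C l} (D : FD W) {z : En 15}
    (hz : z ∈ dom gK C.O 20000) : D.wK z = pbF (fun z => C.rho (p3 z)) D.om z := by
  have hop := chn_open C.openO 20000
  have hΨ : DifferentiableAt ℝ W.K.Ψ z :=
    (W.K.smoothΨ.contDiffAt (hop.mem_nhds hz)).differentiableAt (by simp)
  have hr : DifferentiableAt ℝ W.r (W.K.Ψ z) := (W.smooth_r.differentiable (by simp)) _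
  unfold FD.wK FD.w
  rw [pbF_comp hr hΨ]
  refine pbF_congr ?_ ?_
  · filter_upwards [hop.mem_nhds hz] with y hy
    change W.r (W.K.Ψ y) = C.rho (p3 y)
    rw [← chn_R W.K hy, W.rK _ (chn_domR hy)]
    simp [Collar.R]
  · rfl

private noncomputable def coL : FA 4 →L[ℝ] ℂ := LinearMap.toContinuousLinearMap
  { toFun := fun u => u.co Finset.univ
    map_add' := fun _ _ => rfl
    map_smul' := fun _ _ => rfl }

private noncomputable def aco (l : ℝ) (x : En 4) : ℂ := (aF l x).co Finset.univ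

private theorem chn_aco {l : ℝ} (hl : 0 < l) : ContDiff ℝ ∞ (aco l) :=
  coL.contDiff.comp (contDiff_aF hl)

private theorem chn_aco0 {l : ℝ} (hl : 0 < l) {x : En 4} (hx : 2 < ‖x‖) : aco l x = 0 := by
  unfold aco
  have h : aF l x = 0 := by
    by_contra h
    exact absurd (aF_ne hl h).2.2.2 (not_le.mpr hx)
  rw [h]
  rfl

private theorem chn_thco (y : En 4) : (thF y).co Finset.univ = (thB y : ℂ) := by
  unfold thF
  have h : ((thB y : ℂ) • vol4).co Finset.univ = (thB y : ℂ) * vol4.co Finset.univ := rfl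
  rw [h, vol4_eq, mon_co, if_pos rfl, mul_one]

private noncomputable def gfun (l : ℝ) (x y : En 4) : ℂ :=
  cC * (aco l x * (thB y : ℂ) + aco l y * (thB x : ℂ))

private theorem chn_int {l : ℝ} (hl : 0 < l) (hl' : l < 1) :
    ∫ p : En 4 × En 4, gfun l p.1 p.2 = 2048 * (Real.pi : ℂ) ^ 4 := by
  have ha : Continuous (aco l) := (chn_aco hl).continuous
  have hb : Continuous (fun y : En 4 => (thB y : ℂ)) :=
    Complex.continuous_ofReal.comp contDiff_thB.continuous
  have hac : HasCompactSupport (aco l) :=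
    HasCompactSupport.intro (isCompact_closedBall (0 : En 4) 2) fun x hx =>
      chn_aco0 hl (by simpa using hx)
  have hbc : HasCompactSupport (fun y : En 4 => (thB y : ℂ)) :=
    HasCompactSupport.intro (isCompact_closedBall (0 : En 4) 1) fun x hx => by
      rw [thB_zero (by simpa using hx), Complex.ofReal_zero]
  have ia : Integrable (aco l) := ha.integrable_of_hasCompactSupport hac
  have ib : Integrable (fun y : En 4 => (thB y : ℂ)) := hb.integrable_of_hasCompactSupport hbc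
  have e1 : ∫ x, aco l x = cC := integral_aF hl hl'
  have e2 : ∫ y : En 4, (thB y : ℂ) = 1 := by
    rw [integral_complex_ofReal, integral_thB, Complex.ofReal_one]
  have i1 : Integrable (fun p : En 4 × En 4 => aco l p.1 * (thB p.2 : ℂ)) := ia.mul_prod ib
  have i2 : Integrable (fun p : En 4 × En 4 => (thB p.1 : ℂ) * aco l p.2) := ib.mul_prod ia
  have e3 : ∫ p : En 4 × En 4, aco l p.1 * (thB p.2 : ℂ) = cC := by
    have h := integral_prod_mul (μ := (volume : Measure (En 4))) (ν := (volume : Measure (En 4)))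
      (aco l) (fun y : En 4 => (thB y : ℂ))
    rw [e1, e2, mul_one] at h
    exact h
  have e4 : ∫ p : En 4 × En 4, (thB p.1 : ℂ) * aco l p.2 = cC := by
    have h := integral_prod_mul (μ := (volume : Measure (En 4))) (ν := (volume : Measure (En 4)))
      (fun y : En 4 => (thB y : ℂ)) (aco l)
    rw [e1, e2, one_mul] at h
    exact h
  have e5 : ∀ p : En 4 × En 4, gfun l p.1 p.2 =
      cC * (aco l p.1 * (thB p.2 : ℂ) + (thB p.1 : ℂ) * aco l p.2) := fun p => by
    unfold gfun
    rw [mul_comm (aco l p.2)]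
  simp only [e5]
  rw [integral_const_mul, integral_add i1 i2, e3, e4]
  unfold cC
  ring

/-- The characteristic number. -/
theorem IF_chn (N : OrGeo 6 7) (C : Collar N.carrier) (l : ℝ)
    (hl : 0 < l) (hl' : l < 1) (om : En 7 → FA 7) (hom : ContDiff ℝ ∞ om)
    (hom' : ∀ x, (om x).IsDeg 6) (δ : ℝ) (𝒱 : VData N C l δ) :
    𝒱.V.int (fun x => 𝒱.V.sF 2 x * 𝒱.V.sF 2 x * pbF 𝒱.r om x)
        = (2048 * Real.pi ^ 4) * N.int om := by
  obtain ⟨D, rfl⟩ := exists_FD 𝒱 om hom hom'
  have h1 := int_step1 𝒱 D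
  obtain ⟨E, hE, hK, h0⟩ := step_fin hl hl' D
  refine Eq.trans h1 ?_
  let A : En (toWD 𝒱).M → FA (toWD 𝒱).M := fun v => (toWD 𝒱).V.sF 2 v * D.ga v - dF E v
  have hs : ContDiff ℝ ∞ ((toWD 𝒱).V.sF 2) := contDiff_sF (toWD 𝒱).V.toGeo 2
  have hsg : ContDiff ℝ ∞ (fun v : En (toWD 𝒱).M => (toWD 𝒱).V.sF 2 v * D.ga v) :=
    contDiff_mulFA' hs D.contDiff_ga
  have hA : ContDiff ℝ ∞ A := hsg.sub (contDiff_dF hE)
  have h2 : (toWD 𝒱).V.int (fun v => (toWD 𝒱).V.sF 2 v * D.ga v) = (toWD 𝒱).V.int A := by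
    have h3 := OrGeo.int_add' (toWD 𝒱).V hA (contDiff_dF hE)
    rw [OrGeo.int_dF (toWD 𝒱).V (by norm_num) hE, add_zero] at h3
    rw [← h3]
    congr 1
    funext v
    simp only [A]
    rw [sub_add_cancel]
  refine Eq.trans h2 ?_
  have h4 := int_prod_K N C l δ 𝒱 D.om D.smooth_om D.deg_om (gfun l) ?_ ?_ ?_ A hA ?_ ?_
  · refine Eq.trans h4 ?_
    rw [chn_int hl hl']
  · unfold gfun
    have c1 : ContDiff ℝ ∞ fun p : En 4 × En 4 => aco l p.1 := (chn_aco hl).comp contDiff_fst
    have c2 : ContDiff ℝ ∞ fun p : En 4 × En 4 => aco l p.2 := (chn_aco hl).comp contDiff_snd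
    have c3 : ContDiff ℝ ∞ fun p : En 4 × En 4 => (thB p.1 : ℂ) :=
      Complex.ofRealCLM.contDiff.comp (contDiff_thB.comp contDiff_fst)
    have c4 : ContDiff ℝ ∞ fun p : En 4 × En 4 => (thB p.2 : ℂ) :=
      Complex.ofRealCLM.contDiff.comp (contDiff_thB.comp contDiff_snd)
    exact contDiff_const.mul ((c1.mul c4).add (c2.mul c3))
  · refine HasCompactSupport.intro ((isCompact_closedBall (0 : En 4) 2).prod
      (isCompact_closedBall (0 : En 4) 2)) fun p hp => ?_
    have hp' : 2 < ‖p.1‖ ∨ 2 < ‖p.2‖ := by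
      by_contra hcon
      push Not at hcon
      exact hp ⟨by simpa using hcon.1, by simpa using hcon.2⟩
    unfold gfun
    rcases hp' with h | h
    · rw [chn_aco0 hl h, thB_zero (lt_trans (by norm_num) h)]
      simp
    · rw [chn_aco0 hl h, thB_zero (lt_trans (by norm_num) h)]
      simp
  · intro x y hx
    unfold gfun
    rw [chn_aco0 hl (lt_of_lt_of_le (by norm_num) hx), thB_zero (lt_of_lt_of_le (by norm_num) hx)]
    simp
  · intro z hz
    have hzO : z ∈ dom gK C.O 20000 := chn_sub C hz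
    have h5 : pbF 𝒱.K.Ψ A z = pbF C.R (fun z => cC • ((pbF p1 (aF l) z * pbF p2 thF z
        + pbF p2 (aF l) z * pbF p1 thF z) * D.wK z)) z := hK z hzO
    have hop := chn_open C.openO 20000
    have hRd : DifferentiableAt ℝ C.R z := by
      have h6 : ContDiffOn ℝ ∞ C.R (dom gK C.O 20000) := by
        unfold Collar.R
        exact contDiffOn_j15 contDiff_p1.contDiffOn contDiff_p2.contDiffOn
          (C.smooth_rho.comp contDiff_p3.contDiffOn fun y hy => hy.2)
      exact (h6.contDiffAt (hop.mem_nhds hzO)).differentiableAt (by simp)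
    have r1 : ∀ u : En 4 → FA 4, pbF C.R (pbF p1 u) z = pbF p1 u z := by
      intro u
      rw [pbF_comp (contDiff_p1.differentiable (by simp) _) hRd]
      refine pbF_congr (Filter.Eventually.of_forall fun y => ?_) ?_
      · change p1 (C.R y) = p1 y
        simp [Collar.R]
      · rfl
    have r2 : ∀ u : En 4 → FA 4, pbF C.R (pbF p2 u) z = pbF p2 u z := by
      intro u
      rw [pbF_comp (contDiff_p2.differentiable (by simp) _) hRd]
      refine pbF_congr (Filter.Eventually.of_forall fun y => ?_) ?_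
      · change p2 (C.R y) = p2 y
        simp [Collar.R]
      · rfl
    have r3 : pbF C.R D.wK z = D.wK z := VPiece.pbF_R (toWD 𝒱).K goodK D.w hzO
    rw [h5, pbF_smul, pbF_mul, pbF_add, pbF_mul, pbF_mul, r1, r2, r1, r2, r3, wK_eq D hzO,
      (pb_prod (deg_aF l) deg_thF z).1, (pb_prod (deg_aF l) deg_thF z).2, ← add_smul,
      smul_mul_assoc, smul_smul, chn_thco, chn_thco]
    rfl
  · intro v hv hvO
    exact h0 v hv hvO

end Pool.Agent.EXO.CH
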