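import Mathlib
import Pool.Agent.EXO.ChMatB

/-!
# EXO / ChPbA: `dM` and `dF`; degree and smoothness of `str F^k`

PROOFS.
* `dM_eq`: `(fderiv (fun y => e y i j) x (bv a)) • of1 (bv a)` is the same as
  `of1 (bv a) * fderiv (fun y => algebraMap (e y i j)) x (bv a)` (`Algebra.linearMap ℂ (FA m)` is continuous linear; commutation
  with scalars `Algebra.commutes`), so `dM e x i j = dF (fun y => algebraMap ℂ (FA m) (e y i j)) x`.
* `dM_mul`: entrywise `dF_sum`, `dF_mul` with functions of degree zero.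
* `deg_strF`: `dM`, `conn` have degree `1`, `cM` degree `0`, `dF conn` degree `2` (`deg_dF`); `deg_mulM`.
* `contDiff_strF`: entries are finite sums of products of smooth functions (`E.smooth_e`, `E.smooth_A`: components of smooth
  matrix valued functions are smooth, `contDiff_pi`).
-/

set_option autoImplicit false
set_option maxSynthPendingDepth 3
set_option linter.unusedSectionVars false

open Set MeasureTheory Matrix
open scoped ContDiff

namespace Pool.Agent.EXO.CH

private theorem chPbA_entry {m : ℕ} {ι : Type} [Fintype ι] {e : En m → Matrix ι ι ℂ}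
    (he : ContDiff ℝ ∞ e) (i j : ι) : ContDiff ℝ ∞ (fun y => e y i j) := by
  let L : Matrix ι ι ℂ →L[ℝ] ℂ := LinearMap.toContinuousLinearMap (Matrix.entryLinearMap ℝ ℂ i j)
  exact L.contDiff.comp he

/-- `z ↦ z • 1` as a real linear map. -/
private noncomputable def chPbA_al (m : ℕ) : ℂ →L[ℝ] FA m :=
  LinearMap.toContinuousLinearMap ((Algebra.linearMap ℂ (FA m)).restrictScalars ℝ)

private theorem chPbA_al_apply (m : ℕ) (z : ℂ) : chPbA_al m z = algebraMap ℂ (FA m) z := rfl

private theorem chPbA_smooth {m : ℕ} {f : En m → ℂ} (hf : ContDiff ℝ ∞ f) :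
    ContDiff ℝ ∞ (fun y => algebraMap ℂ (FA m) (f y)) :=
  (chPbA_al m).contDiff.comp hf

private theorem chPbA_dM_eq {m : ℕ} {ι : Type} [Fintype ι] {e : En m → Matrix ι ι ℂ} (x : En m)
    (i j : ι) (he : ContDiff ℝ ∞ fun y => e y i j) :
    dM e x i j = dF (fun y => algebraMap ℂ (FA m) (e y i j)) x := by
  have hd : DifferentiableAt ℝ (fun y => e y i j) x :=
    he.differentiable (by simp) x
  have h1 : fderiv ℝ (fun y => algebraMap ℂ (FA m) (e y i j)) x =
      (chPbA_al m).comp (fderiv ℝ (fun y => e y i j) x) :=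
    ((chPbA_al m).hasFDerivAt.comp x hd.hasFDerivAt).fderiv
  change ∑ a, (fderiv ℝ (fun y => e y i j) x (bv a)) • of1 (bv a) =
    ∑ a, of1 (bv a) * fderiv ℝ (fun y => algebraMap ℂ (FA m) (e y i j)) x (bv a)
  rw [h1]
  refine Finset.sum_congr rfl fun a _ => ?_
  rw [ContinuousLinearMap.comp_apply, chPbA_al_apply, ← Algebra.commutes, Algebra.smul_def]

theorem dM_eq {m : ℕ} {ι : Type} [Fintype ι] {e : En m → Matrix ι ι ℂ} (he : ContDiff ℝ ∞ e) (x : En m)
    (i j : ι) : dM e x i j = dF (fun y => algebraMap ℂ (FA m) (e y i j)) x :=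
  chPbA_dM_eq x i j (chPbA_entry he i j)


/-- `d (f g) = df g + f dg` for matrices of functions. -/
theorem dM_mul {m : ℕ} {ι : Type} [Fintype ι] {f g : En m → Matrix ι ι ℂ} (hf : ContDiff ℝ ∞ f)
    (hg : ContDiff ℝ ∞ g) (v : En m) :
    dM (fun y => f y * g y) v = dM f v * cM (g v) + cM (f v) * dM g v := by
  have hfg : ∀ i j, ContDiff ℝ ∞ (fun y => (f y * g y) i j) := by
    intro i j
    have : (fun y => (f y * g y) i j) = fun y => ∑ l, f y i l * g y l j := by
      funext y; rw [Matrix.mul_apply]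
    rw [this]
    exact ContDiff.sum fun l _ => (chPbA_entry hf i l).mul (chPbA_entry hg l j)
  have hdf : ∀ i l, DifferentiableAt ℝ (fun y => algebraMap ℂ (FA m) (f y i l)) v := fun i l =>
    (chPbA_smooth (chPbA_entry hf i l)).differentiable (by simp) v
  have hdg : ∀ i l, DifferentiableAt ℝ (fun y => algebraMap ℂ (FA m) (g y i l)) v := fun i l =>
    (chPbA_smooth (chPbA_entry hg i l)).differentiable (by simp) v
  refine Matrix.ext fun i j => ?_
  rw [chPbA_dM_eq v i j (hfg i j), Matrix.add_apply, Matrix.mul_apply, Matrix.mul_apply]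
  have h1 : (fun y => algebraMap ℂ (FA m) ((f y * g y) i j)) =
      fun y => ∑ l, algebraMap ℂ (FA m) (f y i l) * algebraMap ℂ (FA m) (g y l j) := by
    funext y
    rw [Matrix.mul_apply, map_sum]
    exact Finset.sum_congr rfl fun l _ => map_mul _ _ _
  rw [h1, dF_sum _ _ fun l _ => (contDiff_mulFA'
    (chPbA_smooth (chPbA_entry hf i l)) (chPbA_smooth (chPbA_entry hg l j))).differentiable
      (by simp) v, ← Finset.sum_add_distrib]
  refine Finset.sum_congr rfl fun l _ => ?_
  rw [dF_mul (hdf i l) (hdg l j), σ_of_deg_even Even.zero (deg_algebraMap _), dM_eq hf, dM_eq hg]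
  rfl

variable {k m : ℕ} {ι : Type} [Fintype ι] [DecidableEq ι]

private theorem chPbA_deg_cM (T : Matrix ι ι ℂ) (i j : ι) :
    ((cM T : Matrix ι ι (FA m)) i j).IsDeg 0 := deg_algebraMap _

private theorem chPbA_deg_dM (e : En m → Matrix ι ι ℂ) (x : En m) (i j : ι) :
    (dM e x i j).IsDeg 1 := isDeg_sum _ fun a _ => isDeg_smul (isDeg_of1 _) _

private theorem chPbA_deg_conn {Y : Geo k m} (E : Bd Y ι) (x : En m) (i j : ι) :
    (E.conn x i j).IsDeg 1 := isDeg_sum _ fun a _ => isDeg_smul (isDeg_of1 _) _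

private theorem chPbA_deg_curv {Y : Geo k m} (E : Bd Y ι) (x : En m) (i j : ι) :
    (E.curv x i j).IsDeg 2 := by
  have h1 : ∀ p q, ((cM (E.e x) * dM E.e x * dM E.e x * cM (E.e x) : Matrix ι ι (FA m)) p q).IsDeg
      (0 + 1 + 1 + 0) :=
    deg_mulM (deg_mulM (deg_mulM (chPbA_deg_cM _) (chPbA_deg_dM _ _)) (chPbA_deg_dM _ _))
      (chPbA_deg_cM _)
  have h2 : ∀ p q, ((Matrix.of fun i j => dF (fun y => E.conn y i j) x :
      Matrix ι ι (FA m)) p q).IsDeg (1 + 1) := fun p q =>
    deg_dF (Filter.Eventually.of_forall fun y => chPbA_deg_conn E y p q)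
  have h3 : ∀ p q, ((cM (E.e x) * (Matrix.of fun i j => dF (fun y => E.conn y i j) x) *
      cM (E.e x) : Matrix ι ι (FA m)) p q).IsDeg (0 + (1 + 1) + 0) :=
    deg_mulM (deg_mulM (chPbA_deg_cM _) h2) (chPbA_deg_cM _)
  have h4 : ∀ p q, ((E.conn x * E.conn x : Matrix ι ι (FA m)) p q).IsDeg (1 + 1) :=
    deg_mulM (chPbA_deg_conn E x) (chPbA_deg_conn E x)
  first
    | exact isDeg_add (isDeg_add (h1 i j) (h3 i j)) (h4 i j)
    | exact isDeg_add (h1 i j) (h3 i j)

private theorem chPbA_deg_pow {X : Matrix ι ι (FA m)} {d : ℕ} (h : ∀ i j, (X i j).IsDeg d)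
    (n : ℕ) : ∀ i j, ((X ^ n) i j).IsDeg (d * n) := by
  induction n with
  | zero =>
    intro i j
    rw [pow_zero, Matrix.one_apply]
    split_ifs
    · exact isDeg_one
    · exact isDeg_zero _
  | succ n ih =>
    intro i j
    rw [pow_succ, Nat.mul_succ]
    exact deg_mulM ih h i j

/-- The form `str F^k` has degree `2 k`. -/
theorem deg_strF {Y : Geo k m} (E : Bd Y ι) (j : ℕ) (x : En m) : (E.strF j x).IsDeg (2 * j) := by
  have h1 := chPbA_deg_pow (chPbA_deg_curv E x) j
  have h2 := deg_mulM (deg_mulM (chPbA_deg_cM (m := m) (diagonal E.s)) (chPbA_deg_cM (E.e x))) h1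
  rw [zero_add, zero_add] at h2
  exact isDeg_sum _ fun i _ => h2 i i

private theorem chPbA_smM_mul {X Y : En m → Matrix ι ι (FA m)}
    (hX : ∀ i j, ContDiff ℝ ∞ fun x => X x i j) (hY : ∀ i j, ContDiff ℝ ∞ fun x => Y x i j) :
    ∀ i j, ContDiff ℝ ∞ fun x => (X x * Y x) i j := by
  intro i j
  simp only [Matrix.mul_apply]
  exact ContDiff.sum fun l _ => contDiff_mulFA' (hX i l) (hY l j)

private theorem chPbA_sm_cM {e : En m → Matrix ι ι ℂ} (he : ContDiff ℝ ∞ e) (i j : ι) :
    ContDiff ℝ ∞ fun x => (cM (e x) : Matrix ι ι (FA m)) i j :=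
  chPbA_smooth (chPbA_entry he i j)

private theorem chPbA_sm_dM {e : En m → Matrix ι ι ℂ} (he : ContDiff ℝ ∞ e) (i j : ι) :
    ContDiff ℝ ∞ fun x => dM e x i j := by
  have : (fun x => dM e x i j) = dF (fun y => algebraMap ℂ (FA m) (e y i j)) :=
    funext fun x => dM_eq he x i j
  rw [this]
  exact contDiff_dF (chPbA_smooth (chPbA_entry he i j))

private theorem chPbA_sm_conn {Y : Geo k m} (E : Bd Y ι) (i j : ι) :
    ContDiff ℝ ∞ fun x => E.conn x i j := by
  change ContDiff ℝ ∞ fun x => ∑ a, (E.A a x i j) • of1 (bv a)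
  refine ContDiff.sum fun a _ => ?_
  exact (chPbA_entry (E.smooth_A a) i j).smul contDiff_const

private theorem chPbA_sm_curv {Y : Geo k m} (E : Bd Y ι) (i j : ι) :
    ContDiff ℝ ∞ fun x => E.curv x i j := by
  have he := chPbA_sm_cM E.smooth_e
  have hd := chPbA_sm_dM E.smooth_e
  have hc := chPbA_sm_conn E
  have h1 := chPbA_smM_mul (chPbA_smM_mul (chPbA_smM_mul he hd) hd) he i j
  have h2 : ∀ i j, ContDiff ℝ ∞ fun x =>
      (Matrix.of fun i j => dF (fun y => E.conn y i j) x : Matrix ι ι (FA m)) i j :=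
    fun i j => contDiff_dF (hc i j)
  have h3 := chPbA_smM_mul (chPbA_smM_mul he h2) he i j
  have h4 := chPbA_smM_mul hc hc i j
  first
    | exact (h1.add h3).add h4
    | exact h1.add h3

theorem contDiff_strF {Y : Geo k m} (E : Bd Y ι) (j : ℕ) : ContDiff ℝ ∞ (E.strF j) := by
  have hp : ∀ n : ℕ, ∀ i j, ContDiff ℝ ∞ fun x => (E.curv x ^ n) i j := by
    intro n
    induction n with
    | zero => intro i j; simp only [pow_zero]; exact contDiff_const
    | succ n ih =>
      intro i j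
      simp only [pow_succ]
      exact chPbA_smM_mul ih (chPbA_sm_curv E) i j
  have hs : ∀ i j, ContDiff ℝ ∞ fun x : En m => (cM (diagonal E.s) : Matrix ι ι (FA m)) i j :=
    fun i j => contDiff_const
  have h1 := chPbA_smM_mul (chPbA_smM_mul hs (chPbA_sm_cM E.smooth_e)) (hp j)
  change ContDiff ℝ ∞ fun x =>
    ∑ i, (cM (diagonal E.s) * cM (E.e x) * E.curv x ^ j : Matrix ι ι (FA m)) i i
  exact ContDiff.sum fun i _ => h1 i i

end Pool.Agent.EXO.CH
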