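import Mathlib
import Pool.Agent.EXO.ChPbA
import Pool.Agent.EXO.ChNdC

/-!
# EXO / ChPb: naturality of the characteristic forms

`E.pb V r hr hV` has `e = E.e ∘ r`, `A a x = ∑ c, (fderiv r x (V.P x (bv a)) c) • E.A c (r x)`.

PROOFS.
* `conn_tan`: for `y ∈ V`: `(pb).conn y i j = ∑ a, ∑ c, (fderiv r y (V.P y (bv a)) c) • E.A c (r y) i j • of1 (bv a)` and
  `∑ a, (fderiv r y (V.P y (bv a)) c : ℂ) • of1 (bv a) = of1 (V.P y (adjoint (fderiv r y) (bv c)))` (`⟪fderiv r y (V.P y (bv a)), bv c⟫ =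
  ⟪bv a, V.P y (adjoint (fderiv r y) (bv c))⟫` by `V.P_sa`), which has the same image under `FAMap (V.P y)` as
  `FAMap (fderiv r y) (of1 (bv c)) = of1 (adjoint (fderiv r y) (bv c))` (`FAMap_of1`; the adjoint of `V.P y` is `V.P y`, `V.P_idem`).
  So `FAMap (V.P y) ((pb).conn y i j) = FAMap (V.P y) (pbF r (fun z => E.conn z i j) y)`.
* `curv_pb`: the three terms: `pbF_rF`-like for constants, `dM_eq` and `dF_pbF` for `e ∘ r`;
  `dF` of `conn`: `Geo.dF_restr` with `conn_tan` at all points of `V`, then `dF_pbF`; `conn * conn` from `conn_tan`.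
* `strF_pb`: `mapM_trace`, `mapM_mul` (powers by induction).  `ch_pb`: sums.
* `ch_tan`: `FAMap (V.P v) (pbF r u v) = FAMap ((fderiv r v).comp (V.P v)) (u (r v))` and
  `(fderiv r v).comp (V.P v) = (Y.P (r v)).comp ((fderiv r v).comp (V.P v))` (`Geo.P_fderiv_maps`), so it only depends on
  `FAMap (Y.P (r v)) (u (r v))`.
-/

set_option autoImplicit false
set_option maxSynthPendingDepth 3
set_option linter.unusedSectionVars false

open Set MeasureTheory Matrix
open scoped ContDiff

namespace Pool.Agent.EXO.CH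

variable {n M k m : ℕ} {Y : Geo k m} (V : Geo n M) {ι : Type} [Fintype ι] [DecidableEq ι]
  (E : Bd Y ι) {r : En M → En m} (hr : ContDiff ℝ ∞ r) (hV : ∀ v ∈ V.carrier, r v ∈ Y.carrier)

omit [Fintype ι] [DecidableEq ι] in
private theorem ChPb_cM (L : En M →L[ℝ] En m) (T : Matrix ι ι ℂ) :
    mapM L (cM T : Matrix ι ι (FA m)) = cM T := by
  refine Matrix.ext fun i j => ?_
  change FAMap L (algebraMap ℂ (FA m) (T i j)) = algebraMap ℂ (FA M) (T i j)
  rw [← FAHom_apply, AlgHom.commutes]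

omit [Fintype ι] [DecidableEq ι] in
private theorem ChPb_add {a b : ℕ} (L : En a →L[ℝ] En b) (X Z : Matrix ι ι (FA b)) :
    mapM L (X + Z) = mapM L X + mapM L Z := by
  refine Matrix.ext fun i j => ?_
  exact FAMap_add L _ _

private theorem ChPb_pow {a b : ℕ} (L : En a →L[ℝ] En b) (X : Matrix ι ι (FA b)) (j : ℕ) :
    mapM L (X ^ j) = (mapM L X) ^ j := by
  induction j with
  | zero =>
    rw [pow_zero, pow_zero]
    refine Matrix.ext fun i i' => ?_
    change FAMap L ((1 : Matrix ι ι (FA b)) i i') = (1 : Matrix ι ι (FA a)) i i'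
    by_cases h : i = i'
    · subst h
      rw [Matrix.one_apply_eq, Matrix.one_apply_eq, FAMap_one]
    · rw [Matrix.one_apply_ne h, Matrix.one_apply_ne h, FAMap_zero]
  | succ j ih => rw [pow_succ, pow_succ, mapM_mul, ih]

omit [DecidableEq ι] in
private theorem ChPb_entry {a : ℕ} {T : En a → Matrix ι ι ℂ} (hT : ContDiff ℝ ∞ T) (i j : ι) :
    ContDiff ℝ ∞ fun y => T y i j := by
  have h : ContDiff ℝ ∞ fun S : Matrix ι ι ℂ => S i j :=
    (LinearMap.toContinuousLinearMap
      { toFun := fun S : Matrix ι ι ℂ => S i j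
        map_add' := fun _ _ => rfl
        map_smul' := fun _ _ => rfl } : Matrix ι ι ℂ →L[ℝ] ℂ).contDiff
  exact h.comp hT

private theorem ChPb_conn {k' m' : ℕ} {Y' : Geo k' m'} (F : Bd Y' ι) (i j : ι) :
    ContDiff ℝ ∞ fun y => F.conn y i j := by
  change ContDiff ℝ ∞ fun y => ∑ a, (F.A a y i j) • of1 (bv a)
  refine ContDiff.sum fun a _ => ?_
  exact (ChPb_entry (F.smooth_A a) i j).smul contDiff_const

private theorem ChPb_of1_sum {a : ℕ} (w : En a) :
    ∑ c, ((w c : ℝ) : ℂ) • of1 (bv c) = of1 w := by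
  rw [of1_eq_sum]
  exact Finset.sum_congr rfl fun c _ => by rw [of1_bv]

theorem conn_tan {v : En M} (hv : v ∈ V.carrier) (i j : ι) :
    FAMap (V.P v) ((E.pb V r hr hV).conn v i j) =
      FAMap (V.P v) (pbF r (fun y => E.conn y i j) v) := by
  set P := V.P v with hP
  set D := fderiv ℝ r v with hD
  have hPP : (ContinuousLinearMap.adjoint P).comp (ContinuousLinearMap.adjoint P) =
      ContinuousLinearMap.adjoint P := by
    rw [← ContinuousLinearMap.adjoint_comp]
    congr 1
    ext1 w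
    exact V.P_idem v hv w
  have h1 : (E.pb V r hr hV).conn v i j =
      ∑ c, E.A c (r v) i j • of1 (ContinuousLinearMap.adjoint P
        (ContinuousLinearMap.adjoint D (bv c))) := by
    change ∑ a, ((∑ c, ((D (P (bv a)) c : ℝ) : ℂ) • E.A c (r v)) i j) • of1 (bv a) = _
    have h2 : ∀ a, ((∑ c, ((D (P (bv a)) c : ℝ) : ℂ) • E.A c (r v)) i j) =
        ∑ c, ((D (P (bv a)) c : ℝ) : ℂ) * E.A c (r v) i j := by
      intro a
      rw [Matrix.sum_apply]
      rfl
    simp only [h2, Finset.sum_smul]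
    rw [Finset.sum_comm]
    refine Finset.sum_congr rfl fun c _ => ?_
    rw [← ChPb_of1_sum, Finset.smul_sum]
    refine Finset.sum_congr rfl fun a _ => ?_
    rw [smul_smul, mul_comm]
    congr 2
    have h3 : ∀ x : En M, x a = inner ℝ (bv a) x := by
      intro x
      simp [bv, EuclideanSpace.inner_single_left]
    rw [h3, ContinuousLinearMap.adjoint_inner_right, ContinuousLinearMap.adjoint_inner_right]
    simp [bv, EuclideanSpace.inner_single_right]
  have h4 : pbF r (fun y => E.conn y i j) v =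
      ∑ c, E.A c (r v) i j • of1 (ContinuousLinearMap.adjoint D (bv c)) := by
    change FAMap D (∑ a, (E.A a (r v) i j) • of1 (bv a)) = _
    rw [FAMap_sum]
    exact Finset.sum_congr rfl fun c _ => by rw [FAMap_smul, FAMap_of1]
  rw [h1, h4, FAMap_sum, FAMap_sum]
  refine Finset.sum_congr rfl fun c _ => ?_
  rw [FAMap_smul, FAMap_smul, FAMap_of1, FAMap_of1]
  congr 2
  exact congrArg (fun f : En M →L[ℝ] En M => f (ContinuousLinearMap.adjoint D (bv c))) hPP

theorem curv_pb {v : En M} (hv : v ∈ V.carrier) :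
    mapM (V.P v) ((E.pb V r hr hV).curv v) = mapM (V.P v) (pbM r E.curv v) := by
  have hD : pbM r E.curv v = mapM (fderiv ℝ r v) (E.curv (r v)) := rfl
  have hr2 : ContDiffAt ℝ 2 r v := hr.contDiffAt.of_le ENat.LEInfty.out
  have hdM : dM (E.pb V r hr hV).e v = mapM (fderiv ℝ r v) (dM E.e (r v)) := by
    refine Matrix.ext fun i j => ?_
    change dM (E.pb V r hr hV).e v i j = FAMap (fderiv ℝ r v) (dM E.e (r v) i j)
    rw [dM_eq (E.pb V r hr hV).smooth_e, dM_eq E.smooth_e]
    have h1 : (fun y => algebraMap ℂ (FA M) ((E.pb V r hr hV).e y i j)) =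
        pbF r (fun y => algebraMap ℂ (FA m) (E.e y i j)) := by
      funext y
      change _ = FAMap (fderiv ℝ r y) (algebraMap ℂ (FA m) (E.e (r y) i j))
      rw [← FAHom_apply, AlgHom.commutes]
      rfl
    have h2 : ContDiff ℝ ∞ fun y => algebraMap ℂ (FA m) (E.e y i j) := by
      simp only [Algebra.algebraMap_eq_smul_one]
      exact (ChPb_entry E.smooth_e i j).smul contDiff_const
    rw [h1, Pool.Agent.EXO.dF_pbF hr2 (h2.differentiable (by simp) _)]
    rfl
  have hdc : mapM (V.P v) (Matrix.of fun i j => dF (fun y => (E.pb V r hr hV).conn y i j) v) =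
      mapM (V.P v) (mapM (fderiv ℝ r v)
        (Matrix.of fun i j => dF (fun y => E.conn y i j) (r v))) := by
    refine Matrix.ext fun i j => ?_
    change FAMap (V.P v) (dF (fun y => (E.pb V r hr hV).conn y i j) v) =
      FAMap (V.P v) (pbF r (dF (fun y => E.conn y i j)) v)
    rw [← Pool.Agent.EXO.dF_pbF hr2 ((ChPb_conn E i j).differentiable (by simp) _)]
    refine Geo.dF_restr V hv (ChPb_conn (E.pb V r hr hV) i j).contDiffAt ?_ ?_
    · exact Pool.Agent.EXO.contDiffAt_pbF (n := ∞) hr.contDiffAt (by simp)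
        (ChPb_conn E i j).contDiffAt
    · exact Filter.Eventually.of_forall fun y hy => conn_tan V E hr hV hy i j
  have hc : mapM (V.P v) ((E.pb V r hr hV).conn v) =
      mapM (V.P v) (mapM (fderiv ℝ r v) (E.conn (r v))) :=
    Matrix.ext fun i j => conn_tan V E hr hV hv i j
  rw [hD]
  unfold Bd.curv
  simp only [ChPb_add, mapM_mul, hdc, hc, hdM]
  simp only [ChPb_cM]
  have he : (E.pb V r hr hV).e v = E.e (r v) := rfl
  simp only [he]

theorem strF_pb {v : En M} (hv : v ∈ V.carrier) (j : ℕ) :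
    FAMap (V.P v) ((E.pb V r hr hV).strF j v) = FAMap (V.P v) (pbF r (E.strF j) v) := by
  have h1 := curv_pb V E hr hV hv
  change mapM (V.P v) _ = mapM (V.P v) (mapM (fderiv ℝ r v) (E.curv (r v))) at h1
  change FAMap (V.P v) (trace _) = FAMap (V.P v) (FAMap (fderiv ℝ r v) (trace _))
  rw [mapM_trace, mapM_trace, mapM_trace]
  simp only [mapM_mul, ChPb_pow, h1, ChPb_cM]
  have he : (E.pb V r hr hV).e v = E.e (r v) := rfl
  have hs : (E.pb V r hr hV).s = E.s := rfl
  simp only [he, hs]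

theorem ch_pb {v : En M} (hv : v ∈ V.carrier) :
    FAMap (V.P v) ((E.pb V r hr hV).ch v) = FAMap (V.P v) (pbF r E.ch v) := by
  change FAMap (V.P v) (∑ k ∈ Finset.range 8, _) =
    FAMap (V.P v) (FAMap (fderiv ℝ r v) (∑ k ∈ Finset.range 8, _))
  rw [FAMap_sum, FAMap_sum, FAMap_sum]
  refine Finset.sum_congr rfl fun j _ => ?_
  rw [FAMap_smul, FAMap_smul, FAMap_smul, strF_pb V E hr hV hv j]
  rfl

/-- The pull back to `V` depends only on the restriction to `Y`. -/
theorem pb_tan (hr : ContDiff ℝ ∞ r) (hV : ∀ v ∈ V.carrier, r v ∈ Y.carrier) {u u' : En m → FA m}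
    (h : ∀ y ∈ Y.carrier, FAMap (Y.P y) (u y) = FAMap (Y.P y) (u' y)) {v : En M}
    (hv : v ∈ V.carrier) : FAMap (V.P v) (pbF r u v) = FAMap (V.P v) (pbF r u' v) := by
  have h1 : (fderiv ℝ r v).comp (V.P v) =
      (Y.P (r v)).comp ((fderiv ℝ r v).comp (V.P v)) := by
    ext1 w
    exact (Geo.P_fderiv_maps V Y hv (hr.differentiable (by simp) _) hV w).symm
  have h2 : ∀ x : En m → FA m, FAMap (V.P v) (pbF r x v) =
      FAMap ((fderiv ℝ r v).comp (V.P v)) (FAMap (Y.P (r v)) (x (r v))) := by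
    intro x
    change FAMap (V.P v) (FAMap (fderiv ℝ r v) (x (r v))) = _
    rw [← FAMap_comp, ← FAMap_comp, ← h1]
  rw [h2, h2, h _ (hV v hv)]

end Pool.Agent.EXO.CH
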