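import Mathlib
import Pool.Agent.EXO.ChFA

/-!
# EXO / ChKr: the graded Kronecker product of matrices of forms

`kr A B (i, k) (j, l) = A i j * B k l`.

PROOFS.  `kr_mul_ev`: `∑ p q, A i p * B k q * (C p j * D q l) = ∑ p q, A i p * C p j * (B k q * D q l)`, because `B k q` and
`C p j` commute if `B` (first version) or `C` (second version) has even entries (`(faG m).ev`).  `kr_mul_od`: both odd:
`B k q * C p j = -(C p j * B k q)` (`(faG m).od`).  `trace_kr`: `∑ (i, k), A i i * B k k`.
`kr_pow`: if `X = kr F e + kr P G` where `F`, `G`, `P`, `e` have even entries, `P P = P`, `e e = e`, `P F = F = F P`, `e G = G = G e`, then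
`kr P e * X ^ k = ∑ j ∈ range (k + 1), (k.choose j) • kr (P * F ^ j) (e * G ^ (k - j))`.  Proof: the two summands commute
(`kr_mul_ev`: both products are `kr F G`), `Commute.add_pow`, `(kr F e) ^ j = kr (F ^ j) (e ^ j)` (`kr_mul_ev`) and
`kr P e * (kr F e) ^ j * (kr P G) ^ i = kr (P * F ^ j * P ^ i) (e * e ^ j * G ^ i)`; `F ^ j * P ^ i`: `P * F ^ j * P ^ i = P * F ^ j` (for `j = 0`:
`P * P ^ i = P`; for `j > 0` `F P = F`), and `e * e ^ j * G ^ i = e * G ^ i`.
-/

set_option autoImplicit false
set_option maxSynthPendingDepth 3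
set_option linter.unusedSectionVars false

open Matrix

namespace Pool.Agent.EXO.CH

variable {m : ℕ} {a b : Type}

/-- The Kronecker product. -/
noncomputable def kr (A : Matrix a a (FA m)) (B : Matrix b b (FA m)) : Matrix (a × b) (a × b) (FA m) :=
  Matrix.of fun p q => A p.1 q.1 * B p.2 q.2

variable [Fintype a] [Fintype b] [DecidableEq a] [DecidableEq b]

theorem kr_add_left (A A' : Matrix a a (FA m)) (B : Matrix b b (FA m)) :
    kr (A + A') B = kr A B + kr A' B := by
  refine Matrix.ext fun p q => ?_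
  exact add_mul _ _ _

theorem kr_add_right (A : Matrix a a (FA m)) (B B' : Matrix b b (FA m)) :
    kr A (B + B') = kr A B + kr A B' := by
  refine Matrix.ext fun p q => ?_
  exact mul_add _ _ _

theorem kr_zero_left (B : Matrix b b (FA m)) : kr (0 : Matrix a a (FA m)) B = 0 := by
  refine Matrix.ext fun p q => ?_
  exact zero_mul _

theorem kr_zero_right (A : Matrix a a (FA m)) : kr A (0 : Matrix b b (FA m)) = 0 := by
  refine Matrix.ext fun p q => ?_
  exact mul_zero _

theorem kr_one : kr (1 : Matrix a a (FA m)) (1 : Matrix b b (FA m)) = 1 := by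
  refine Matrix.ext fun p q => ?_
  change (1 : Matrix a a (FA m)) p.1 q.1 * (1 : Matrix b b (FA m)) p.2 q.2 = _
  rw [Matrix.one_apply, Matrix.one_apply, Matrix.one_apply]
  by_cases h1 : p.1 = q.1
  · by_cases h2 : p.2 = q.2
    · rw [if_pos h1, if_pos h2, if_pos (Prod.ext h1 h2), mul_one]
    · rw [if_neg h2, mul_zero, if_neg fun h => h2 (congrArg Prod.snd h)]
  · rw [if_neg h1, zero_mul, if_neg fun h => h1 (congrArg Prod.fst h)]

private theorem chKr_mul_aux {A C : Matrix a a (FA m)} {B D : Matrix b b (FA m)}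
    (h : ∀ (k p : b) (r j : a), B k p * C r j = C r j * B k p) :
    kr A B * kr C D = kr (A * C) (B * D) := by
  refine Matrix.ext fun p q => ?_
  rw [Matrix.mul_apply]
  change ∑ r : a × b, (A p.1 r.1 * B p.2 r.2) * (C r.1 q.1 * D r.2 q.2) =
    (A * C) p.1 q.1 * (B * D) p.2 q.2
  rw [Matrix.mul_apply, Matrix.mul_apply, Finset.sum_mul_sum, Fintype.sum_prod_type]
  refine Finset.sum_congr rfl fun r _ => Finset.sum_congr rfl fun t _ => ?_
  change (A p.1 r * B p.2 t) * (C r q.1 * D t q.2) = _
  rw [mul_assoc, ← mul_assoc (B p.2 t), h, mul_assoc, mul_assoc]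

theorem kr_mul_ev_left {A C : Matrix a a (FA m)} {B D : Matrix b b (FA m)}
    (hB : (faG m).MEv B) : kr A B * kr C D = kr (A * C) (B * D) :=
  chKr_mul_aux fun k p r j => (faG m).ev _ _ (hB k p)

theorem kr_mul_ev_right {A C : Matrix a a (FA m)} {B D : Matrix b b (FA m)}
    (hC : (faG m).MEv C) : kr A B * kr C D = kr (A * C) (B * D) :=
  chKr_mul_aux fun k p r j => ((faG m).ev _ _ (hC r j)).symm

theorem kr_mul_od {A C : Matrix a a (FA m)} {B D : Matrix b b (FA m)}
    (hB : (faG m).MOd B) (hC : (faG m).MOd C) : kr A B * kr C D = -kr (A * C) (B * D) := by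
  refine Matrix.ext fun p q => ?_
  rw [Matrix.mul_apply]
  change ∑ r : a × b, (A p.1 r.1 * B p.2 r.2) * (C r.1 q.1 * D r.2 q.2) =
    -((A * C) p.1 q.1 * (B * D) p.2 q.2)
  rw [Matrix.mul_apply, Matrix.mul_apply, Finset.sum_mul_sum, Fintype.sum_prod_type,
    ← Finset.sum_neg_distrib]
  refine Finset.sum_congr rfl fun r _ => ?_
  rw [← Finset.sum_neg_distrib]
  refine Finset.sum_congr rfl fun t _ => ?_
  change (A p.1 r * B p.2 t) * (C r q.1 * D t q.2) = _
  rw [mul_assoc, ← mul_assoc (B p.2 t), (faG m).od _ _ (hB p.2 t) (hC r q.1), neg_mul, mul_neg,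
    mul_assoc, mul_assoc]

theorem trace_kr (A : Matrix a a (FA m)) (B : Matrix b b (FA m)) :
    trace (kr A B) = trace A * trace B := by
  rw [Matrix.trace, Matrix.trace, Matrix.trace, Finset.sum_mul_sum, Fintype.sum_prod_type]
  rfl

private theorem chKr_ev_one : (faG m).MEv (1 : Matrix b b (FA m)) := by
  intro i j
  rw [Matrix.one_apply]
  split_ifs
  · exact map_one _
  · exact map_zero _

private theorem chKr_ev_pow {B : Matrix b b (FA m)} (hB : (faG m).MEv B) (n : ℕ) :
    (faG m).MEv (B ^ n) := by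
  induction n with
  | zero => rw [pow_zero]; exact chKr_ev_one
  | succ n ih => rw [pow_succ]; exact ih.mul hB

private theorem chKr_pow {A : Matrix a a (FA m)} {B : Matrix b b (FA m)} (hB : (faG m).MEv B)
    (n : ℕ) : kr A B ^ n = kr (A ^ n) (B ^ n) := by
  induction n with
  | zero => rw [pow_zero, pow_zero, pow_zero, kr_one]
  | succ n ih => rw [pow_succ, ih, kr_mul_ev_left (chKr_ev_pow hB n), ← pow_succ, ← pow_succ]

theorem kr_pow {P F : Matrix a a (FA m)} {e G : Matrix b b (FA m)} (hP : (faG m).MEv P)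
    (hF : (faG m).MEv F) (he : (faG m).MEv e) (hG : (faG m).MEv G) (hPP : P * P = P)
    (hee : e * e = e) (hPF : P * F = F) (hFP : F * P = F) (heG : e * G = G) (hGe : G * e = G)
    (k : ℕ) : kr P e * (kr F e + kr P G) ^ k =
      ∑ j ∈ Finset.range (k + 1), (k.choose j) • kr (P * F ^ j) (e * G ^ (k - j)) := by
  have hc : Commute (kr F e) (kr P G) := by
    change kr F e * kr P G = kr P G * kr F e
    rw [kr_mul_ev_left he, kr_mul_ev_left hG, hFP, heG, hPF, hGe]
  have h1 : ∀ j i : ℕ, P * F ^ j * P ^ i = P * F ^ j := by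
    intro j i
    have h2 : P * F ^ j * P = P * F ^ j := by
      cases j with
      | zero => rw [pow_zero, mul_one, hPP]
      | succ j => rw [pow_succ, mul_assoc, mul_assoc, hFP]
    induction i with
    | zero => rw [pow_zero, mul_one]
    | succ i ih => rw [pow_succ, ← mul_assoc, ih, h2]
  have h3 : ∀ j : ℕ, e * e ^ j = e := by
    intro j
    induction j with
    | zero => rw [pow_zero, mul_one]
    | succ j ih => rw [pow_succ, ← mul_assoc, ih, hee]
  rw [hc.add_pow, Finset.mul_sum]
  refine Finset.sum_congr rfl fun j _ => ?_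
  rw [chKr_pow he, chKr_pow hG, ← mul_assoc, ← mul_assoc, kr_mul_ev_left he,
    kr_mul_ev_left (he.mul (chKr_ev_pow he j)), h1, h3, ← nsmul_eq_mul', nsmul_eq_mul]

theorem mapM_kr {k : ℕ} (L : En k →L[ℝ] En m) (A : Matrix a a (FA m)) (B : Matrix b b (FA m)) :
    mapM L (kr A B) = kr (mapM L A) (mapM L B) := by
  refine Matrix.ext fun p q => ?_
  exact FAMap_mul L _ _

end Pool.Agent.EXO.CH
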