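import Mathlib
import Pool.Agent.EXO.ChDef

/-!
# EXO / ChTenA: the bundle `T_ℂ V ⊗ E`

`e = P ⊗ e_E`, `s = 1 ⊗ s_E`, `A = P ⊗ A_E` (`⊗ₖ` is the Kronecker product of matrices).

PROOFS.
* smoothness: a matrix valued function is smooth iff its entries are (`contDiff_pi` twice: the norm on
  matrices is the elementwise norm, `Matrix.normedAddCommGroup`, so the space is definitionally a function space with the sup norm;
  or compose with the continuous linear map built from the entries in finite dimension); the entries are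
  products `((V.P x (bv j) i : ℝ) : ℂ) * E.e x k l` of smooth functions (`V.smoothP`, `Complex.ofRealCLM`).
* `matOf_mul`: the matrix of a composition; `P_idem` gives `matOf (V.P x) * matOf (V.P x) = matOf (V.P x)`;
  `P_sa` gives `(matOf (V.P x))ᴴ = matOf (V.P x)` (real symmetric).
* the other fields: `Matrix.mul_kronecker_mul`, `Matrix.conjTranspose_kronecker`, `diagonal (fun p => s p.2) = 1 ⊗ₖ diagonal s`.
-/

set_option autoImplicit false
set_option maxSynthPendingDepth 3
set_option linter.unusedSectionVars false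

open Set MeasureTheory Matrix
open scoped ContDiff Kronecker

namespace Pool.Agent.EXO.CH

variable {n M : ℕ} (V : Geo n M) {ι : Type} [Fintype ι] [DecidableEq ι] (E : Bd V ι)

private theorem tenA_expand (L : En M →L[ℝ] En M) (v : En M) (i : Fin M) :
    ∑ k, L (bv k) i * v k = L v i := by
  have hv : v = ∑ k, v k • (bv k : En M) := by
    ext b
    simp [bv, Finset.sum_apply, Pi.single_apply]
  conv_rhs => rw [hv, map_sum]
  simp only [map_smul, WithLp.ofLp_sum, Finset.sum_apply, PiLp.smul_apply, smul_eq_mul]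
  exact Finset.sum_congr rfl fun k _ => mul_comm _ _

theorem matOf_P_mul {x : En M} (hx : x ∈ V.carrier) :
    matOf (V.P x) * matOf (V.P x) = matOf (V.P x) := by
  ext i j
  rw [Matrix.mul_apply]
  simp only [matOf]
  have h := tenA_expand (V.P x) (V.P x (bv j)) i
  rw [V.P_idem x hx] at h
  rw [← h]
  push_cast
  rfl

theorem matOf_P_herm {x : En M} (hx : x ∈ V.carrier) : (matOf (V.P x))ᴴ = matOf (V.P x) := by
  ext i j
  rw [Matrix.conjTranspose_apply]
  simp only [matOf]
  have h := V.P_sa x hx (bv i) (bv j)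
  have h1 : inner ℝ (V.P x (bv i)) (bv j : En M) = V.P x (bv i) j := by
    unfold bv
    rw [EuclideanSpace.inner_single_right]
    simp
  have h2 : inner ℝ (bv i : En M) (V.P x (bv j)) = V.P x (bv j) i := by
    unfold bv
    rw [EuclideanSpace.inner_single_left]
    simp
  rw [h1, h2] at h
  rw [h]
  exact Complex.conj_ofReal _

private theorem tenA_smooth {κ : Type} [Fintype κ] {A : En M → Matrix κ κ ℂ} :
    ContDiff ℝ ∞ A ↔ ∀ i j, ContDiff ℝ ∞ (fun x => A x i j) := by
  constructor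
  · intro h i j
    have h1 := contDiff_pi.1 h i
    exact contDiff_pi.1 h1 j
  · intro h
    refine contDiff_pi.2 fun i => ?_
    exact contDiff_pi.2 fun j => h i j

private theorem tenA_smoothP (i j : Fin M) : ContDiff ℝ ∞ (fun x => matOf (V.P x) i j) := by
  have h1 : ContDiff ℝ ∞ (fun x => V.P x (bv j)) := V.smoothP.clm_apply contDiff_const
  have h2 : ContDiff ℝ ∞ (fun x => V.P x (bv j) i) :=
    (EuclideanSpace.proj (𝕜 := ℝ) i).contDiff.comp h1
  exact Complex.ofRealCLM.contDiff.comp h2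

theorem tenT_smooth_e : ContDiff ℝ ∞ fun x => matOf (V.P x) ⊗ₖ E.e x := by
  rw [tenA_smooth]
  intro i j
  exact (tenA_smoothP V i.1 j.1).mul (tenA_smooth.1 E.smooth_e i.2 j.2)

theorem tenT_smooth_A (a : Fin M) : ContDiff ℝ ∞ fun x => matOf (V.P x) ⊗ₖ E.A a x := by
  rw [tenA_smooth]
  intro i j
  exact (tenA_smoothP V i.1 j.1).mul (tenA_smooth.1 (E.smooth_A a) i.2 j.2)

theorem diag_kron (s : ι → ℂ) :
    (diagonal fun p : Fin M × ι => s p.2) = (1 : Matrix (Fin M) (Fin M) ℂ) ⊗ₖ diagonal s := by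
  rw [← Matrix.diagonal_one, Matrix.diagonal_kronecker_diagonal]
  simp only [one_mul]

theorem tenT_e_idem {x : En M} (hx : x ∈ V.carrier) :
    (matOf (V.P x) ⊗ₖ E.e x) * (matOf (V.P x) ⊗ₖ E.e x) = matOf (V.P x) ⊗ₖ E.e x := by
  rw [← Matrix.mul_kronecker_mul, matOf_P_mul V hx, E.e_idem x hx]

theorem tenT_e_herm {x : En M} (hx : x ∈ V.carrier) :
    (matOf (V.P x) ⊗ₖ E.e x)ᴴ = matOf (V.P x) ⊗ₖ E.e x := by
  rw [Matrix.conjTranspose_kronecker, matOf_P_herm V hx, E.e_herm x hx]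

theorem tenT_e_s {x : En M} (hx : x ∈ V.carrier) :
    (matOf (V.P x) ⊗ₖ E.e x) * diagonal (fun p : Fin M × ι => E.s p.2) =
      diagonal (fun p : Fin M × ι => E.s p.2) * (matOf (V.P x) ⊗ₖ E.e x) := by
  rw [diag_kron, ← Matrix.mul_kronecker_mul, ← Matrix.mul_kronecker_mul, Matrix.mul_one,
    Matrix.one_mul, E.e_s x hx]

theorem tenT_e_A (a : Fin M) {x : En M} (hx : x ∈ V.carrier) :
    (matOf (V.P x) ⊗ₖ E.e x) * (matOf (V.P x) ⊗ₖ E.A a x) * (matOf (V.P x) ⊗ₖ E.e x) =
      matOf (V.P x) ⊗ₖ E.A a x := by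
  rw [← Matrix.mul_kronecker_mul, ← Matrix.mul_kronecker_mul, matOf_P_mul V hx,
    matOf_P_mul V hx, E.e_A a x hx]

theorem tenT_A_skew (a : Fin M) {x : En M} (hx : x ∈ V.carrier) :
    (matOf (V.P x) ⊗ₖ E.A a x)ᴴ = -(matOf (V.P x) ⊗ₖ E.A a x) := by
  rw [Matrix.conjTranspose_kronecker, matOf_P_herm V hx, E.A_skew a x hx]
  ext i j
  simp [Matrix.kroneckerMap_apply]

theorem tenT_A_s (a : Fin M) {x : En M} (hx : x ∈ V.carrier) :
    (matOf (V.P x) ⊗ₖ E.A a x) * diagonal (fun p : Fin M × ι => E.s p.2) =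
      diagonal (fun p : Fin M × ι => E.s p.2) * (matOf (V.P x) ⊗ₖ E.A a x) := by
  rw [diag_kron, ← Matrix.mul_kronecker_mul, ← Matrix.mul_kronecker_mul, Matrix.mul_one,
    Matrix.one_mul, E.A_s a x hx]

theorem tenT_A_tan (a : Fin M) {x : En M} (hx : x ∈ V.carrier) :
    ∑ c, ((V.P x (bv a) c : ℝ) : ℂ) • (matOf (V.P x) ⊗ₖ E.A c x) = matOf (V.P x) ⊗ₖ E.A a x := by
  ext i j
  have h := congrFun (congrFun (E.A_tan a x hx) i.2) j.2
  rw [Matrix.sum_apply] at h ⊢
  simp only [Matrix.smul_apply, Matrix.kroneckerMap_apply, smul_eq_mul] at h ⊢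
  rw [← h, Finset.mul_sum]
  exact Finset.sum_congr rfl fun c _ => by ring

/-- The bundle `T_ℂ V ⊗ E`. -/
noncomputable def tenT : Bd V (Fin M × ι) where
  e := fun x => matOf (V.P x) ⊗ₖ E.e x
  s := fun p => E.s p.2
  A := fun a x => matOf (V.P x) ⊗ₖ E.A a x
  smooth_e := tenT_smooth_e V E
  smooth_A := tenT_smooth_A V E
  s_sq := fun p => E.s_sq p.2
  e_idem := fun _ hx => tenT_e_idem V E hx
  e_herm := fun _ hx => tenT_e_herm V E hx
  e_s := fun _ hx => tenT_e_s V E hx
  e_A := fun a _ hx => tenT_e_A V E a hx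
  A_skew := fun a _ hx => tenT_A_skew V E a hx
  A_s := fun a _ hx => tenT_A_s V E a hx
  A_tan := fun a _ hx => tenT_A_tan V E a hx

end Pool.Agent.EXO.CH
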