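import Mathlib
import Pool.Agent.EXO.ChTenA
import Pool.Agent.EXO.ChPbA
import Pool.Agent.EXO.ChNdC

/-!
# EXO / ChTenB: derivatives of projections on tangent vectors



Fix `v ∈ V`, `φ = mapM (V.P v)` (entrywise ring homomorphism, `FAMap` fixes constants).  Write `P = cM (matOf (V.P v))`,
`e = cM (E.e v)`, `dP = φ (dM (fun y => matOf (V.P y)) v)`, `de = φ (dM E.e v)`, `a = φ (E.conn v)`,
`da = φ (Matrix.of fun i j => dF (fun y => E.conn y i j) v)`.

PROOFS.
* `FAMap_dM_zero`, `proj_dM` (`P * dP * P = 0`): differentiate `P P = P` along tangent vectors: the function `f y = (matOf (V.P y) * matOf (V.P y) - matOf (V.P y)) i j`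
  vanishes on `V` (`matOf_P_mul`), so its tangential derivative is zero (`Geo.fderiv_tan0`), which means
  `FAMap (V.P v) (∑ a, fderiv f v (bv a) • of1 (bv a)) = 0`; this gives `dP P + P dP = dP`.  (`FAMap (V.P v) (of1 (bv a)) = of1 (V.P v (bv a))` since
  `V.P v` is self adjoint; `∑ a, f' (bv a) • of1 (V.P v (bv a)) = ∑ b, f' (V.P v (bv b)) • of1 (bv b)`, write `V.P v (bv a) = ∑ b, (..) • bv b`
  and use the symmetry of the matrix of `V.P v`.)  Multiply by `P` on both sides for the second statement.  The same for `e`.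
* `sF_tan`: `P dP² = P dP² P = dP² P` (as in `ChCsB`: `P dP P = 0`, `dP = P dP + dP P`), so with `F = P dP dP P`:
  `P F ^ j = P dP ^ (2 j)`, and `FAMap (V.P v) (V.sF j v) = trace (P * dP ^ (2 j))` (`mapM_trace`, `mapM_mul`).
-/

set_option autoImplicit false
set_option maxSynthPendingDepth 3
set_option linter.unusedSectionVars false

open Set MeasureTheory Matrix
open scoped ContDiff

namespace Pool.Agent.EXO.CH

variable {n M : ℕ} (V : Geo n M) {ι : Type} [Fintype ι] [DecidableEq ι] (E : Bd V ι)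

private theorem ChTenB_entry {f : En M → Matrix ι ι ℂ} (hf : ContDiff ℝ ∞ f) (i j : ι) :
    ContDiff ℝ ∞ (fun y => f y i j) := by
  have h1 : ContDiff ℝ ∞ (fun y => (f y : ι → ι → ℂ)) := hf
  exact contDiff_pi.1 (contDiff_pi.1 h1 i) j

private theorem ChTenB_smooth {κ : Type} [Fintype κ] {f : En M → Matrix κ κ ℂ}
    (hf : ∀ i j, ContDiff ℝ ∞ (fun y => f y i j)) : ContDiff ℝ ∞ f := by
  have h1 : ContDiff ℝ ∞ (fun y => (f y : κ → κ → ℂ)) :=
    contDiff_pi.2 fun i => contDiff_pi.2 fun j => hf i j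
  exact h1

private theorem ChTenB_ip (v : En M) (b : Fin M) : inner ℝ v (bv b) = v b := by
  simp [bv, EuclideanSpace.inner_single_right]

private theorem ChTenB_adj {v : En M} (hv : v ∈ V.carrier) :
    ContinuousLinearMap.adjoint (V.P v) = V.P v := by
  refine ((ContinuousLinearMap.eq_adjoint_iff _ _).2 fun x y => ?_).symm
  exact V.P_sa v hv x y

private theorem ChTenB_sym {v : En M} (hv : v ∈ V.carrier) (a b : Fin M) :
    V.P v (bv a) b = V.P v (bv b) a := by
  rw [← ChTenB_ip, V.P_sa v hv, real_inner_comm, ChTenB_ip]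

/-- Differentiating an identity which holds on `V`. -/
theorem FAMap_dM_zero {f : En M → Matrix ι ι ℂ} (hf : ContDiff ℝ ∞ f)
    {v : En M} (hv : v ∈ V.carrier) (h : ∀ y ∈ V.carrier, f y = 0) : mapM (V.P v) (dM f v) = 0 := by
  refine Matrix.ext fun i j => ?_
  have hfij : ContDiff ℝ ∞ (fun y => f y i j) := ChTenB_entry hf i j
  obtain ⟨D, hD⟩ : ∃ D : En M →L[ℝ] ℂ, D = fderiv ℝ (fun y => f y i j) v := ⟨_, rfl⟩
  have h0 : ∀ w, D (V.P v w) = 0 := fun w => by
    rw [hD]
    exact Geo.fderiv_tan0 V hv (hfij.differentiable (by simp) v)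
      (Filter.Eventually.of_forall fun y hy => by rw [h y hy]; rfl) w
  show FAMap (V.P v) (∑ a, (fderiv ℝ (fun y => f y i j) v (bv a)) • of1 (bv a)) = 0
  rw [← hD, FAMap_sum]
  have h2 : ∀ a, FAMap (V.P v) (D (bv a) • of1 (bv a)) =
      ∑ b, (D (bv a) * ((V.P v (bv b) a : ℝ) : ℂ)) • dx b := fun a => by
    rw [FAMap_smul, FAMap_of1, ChTenB_adj V hv, of1_eq_sum, Finset.smul_sum]
    refine Finset.sum_congr rfl fun b _ => ?_
    rw [smul_smul, ChTenB_sym V hv a b]
  rw [Finset.sum_congr rfl fun a _ => h2 a, Finset.sum_comm]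
  refine Finset.sum_eq_zero fun b _ => ?_
  rw [← Finset.sum_smul]
  have h3 : ∑ a, D (bv a) * ((V.P v (bv b) a : ℝ) : ℂ) = D (V.P v (bv b)) := by
    conv_rhs => rw [show V.P v (bv b) = ∑ a, (V.P v (bv b)) a • bv a from epsv_sum_ee _, map_sum]
    refine Finset.sum_congr rfl fun a _ => ?_
    rw [map_smul, Complex.real_smul, mul_comm]
  rw [h3, h0, zero_smul]

private theorem ChTenB_dM_sub {f g : En M → Matrix ι ι ℂ} (hf : ContDiff ℝ ∞ f)
    (hg : ContDiff ℝ ∞ g) (v : En M) : dM (fun y => f y - g y) v = dM f v - dM g v := by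
  refine Matrix.ext fun i j => ?_
  show ∑ a, (fderiv ℝ (fun y => f y i j - g y i j) v (bv a)) • of1 (bv a) =
    (∑ a, (fderiv ℝ (fun y => f y i j) v (bv a)) • of1 (bv a)) -
      ∑ a, (fderiv ℝ (fun y => g y i j) v (bv a)) • of1 (bv a)
  rw [← Finset.sum_sub_distrib]
  refine Finset.sum_congr rfl fun a _ => ?_
  rw [fderiv_fun_sub ((ChTenB_entry hf i j).differentiable (by simp) v)
    ((ChTenB_entry hg i j).differentiable (by simp) v), ← sub_smul]
  rfl

private theorem ChTenB_mapsub {a b : Type} (L : En M →L[ℝ] En M) (X Y : Matrix a b (FA M)) :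
    mapM L (X - Y) = mapM L X - mapM L Y :=
  Matrix.ext fun i j => FAMap_sub L (X i j) (Y i j)

private theorem ChTenB_mapadd {a b : Type} (L : En M →L[ℝ] En M) (X Y : Matrix a b (FA M)) :
    mapM L (X + Y) = mapM L X + mapM L Y :=
  Matrix.ext fun i j => FAMap_add L (X i j) (Y i j)

private theorem ChTenB_mapc {κ : Type} (L : En M →L[ℝ] En M) (T : Matrix κ κ ℂ) :
    mapM L (cM T) = cM T :=
  Matrix.ext fun i j => (FAHom L).commutes (T i j)

private theorem ChTenB_cmul {κ : Type} [Fintype κ] (S T : Matrix κ κ ℂ) :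
    (cM (S * T) : Matrix κ κ (FA M)) = cM S * cM T := by
  refine Matrix.ext fun i j => ?_
  show algebraMap ℂ (FA M) (∑ l, S i l * T l j) = ∑ l, _ * _
  rw [map_sum]
  exact Finset.sum_congr rfl fun l _ => map_mul _ _ _

private theorem ChTenB_mappow {κ : Type} [Fintype κ] [DecidableEq κ] (L : En M →L[ℝ] En M)
    (X : Matrix κ κ (FA M)) (r : ℕ) : mapM L (X ^ r) = mapM L X ^ r := by
  induction r with
  | zero =>
    rw [pow_zero, pow_zero]
    refine Matrix.ext fun i j => ?_
    show FAMap L ((1 : Matrix κ κ (FA M)) i j) = _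
    by_cases h : i = j
    · subst h; rw [Matrix.one_apply_eq, FAMap_one]
    · rw [Matrix.one_apply_ne h, FAMap_zero]
  | succ r ih => rw [pow_succ, pow_succ, mapM_mul, ih]

private theorem ChTenB_alg {R : Type*} [Ring R] {p q : R} (hp : p * p = p)
    (h : q * p + p * q = q) : p * q * p = 0 := by
  have h1 : p * (q * p + p * q) * p = p * q * p := by rw [h]
  have h2 : p * (q * p + p * q) * p = p * q * (p * p) + (p * p) * q * p := by noncomm_ring
  rw [h2, hp] at h1
  exact left_eq_add.1 h1.symm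

private theorem ChTenB_alg2 {R : Type*} [Ring R] {p q : R} (hp : p * p = p)
    (h : q * p + p * q = q) : p * (q * q) = p * q * q * p ∧ (q * q) * p = p * q * q * p := by
  have h0 := ChTenB_alg hp h
  constructor
  · have h1 : p * q * (q * p + p * q) = p * q * q := by rw [h, mul_assoc]
    have h2 : p * q * (q * p + p * q) = p * q * q * p + (p * q * p) * q := by noncomm_ring
    rw [h2, h0, zero_mul, add_zero] at h1
    rw [← mul_assoc, h1]
  · have h1 : (q * p + p * q) * q * p = q * q * p := by rw [h]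
    have h2 : (q * p + p * q) * q * p = q * (p * q * p) + p * q * q * p := by noncomm_ring
    rw [h2, h0, mul_zero, zero_add] at h1
    exact h1.symm

private theorem ChTenB_alg3 {R : Type*} [Ring R] {p q : R} (hp : p * p = p)
    (h : q * p + p * q = q) (j : ℕ) : p * (p * q * q * p) ^ j = p * q ^ (2 * j) := by
  obtain ⟨h1, h2⟩ := ChTenB_alg2 hp h
  have h3 : Commute p (q * q) := h1.trans h2.symm
  rw [← h1, h3.mul_pow, ← mul_assoc, ← pow_succ', pow_mul, pow_two q]
  congr 1
  induction j with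
  | zero => rw [zero_add, pow_one]
  | succ j ih => rw [pow_succ, ih, hp]

/-- For a projection valued function (on `V`): `de = e de + de e` and `e de e = 0` on tangent vectors. -/
theorem proj_dM {e : En M → Matrix ι ι ℂ} (he : ContDiff ℝ ∞ e)
    (h : ∀ y ∈ V.carrier, e y * e y = e y) {v : En M} (hv : v ∈ V.carrier) :
    mapM (V.P v) (dM e v) * cM (e v) + cM (e v) * mapM (V.P v) (dM e v) = mapM (V.P v) (dM e v) ∧
    cM (e v) * mapM (V.P v) (dM e v) * cM (e v) = 0 := by
  have hee : ContDiff ℝ ∞ (fun y => e y * e y) := by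
    refine ChTenB_smooth fun i j => ?_
    show ContDiff ℝ ∞ (fun y => ∑ l, e y i l * e y l j)
    exact ContDiff.sum fun l _ => (ChTenB_entry he i l).mul (ChTenB_entry he l j)
  have h1 := FAMap_dM_zero V (f := fun y => e y * e y - e y) (hee.sub he) hv
    (fun y hy => by rw [h y hy, sub_self])
  rw [ChTenB_dM_sub hee he, dM_mul he he, ChTenB_mapsub, ChTenB_mapadd, mapM_mul, mapM_mul,
    ChTenB_mapc] at h1
  have h2 := sub_eq_zero.1 h1
  refine ⟨h2, ChTenB_alg ?_ h2⟩
  rw [← ChTenB_cmul, h v hv]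

theorem sF_tan {v : En M} (hv : v ∈ V.carrier) (j : ℕ) :
    FAMap (V.P v) (V.sF j v) = trace (cM (matOf (V.P v)) *
      (cM (matOf (V.P v)) * mapM (V.P v) (dM (fun y => matOf (V.P y)) v) *
        mapM (V.P v) (dM (fun y => matOf (V.P y)) v) * cM (matOf (V.P v))) ^ j) := by
  have hs : ContDiff ℝ ∞ (fun y => matOf (V.P y)) := by
    refine ChTenB_smooth fun i j => ?_
    show ContDiff ℝ ∞ (fun y => ((V.P y (bv j) i : ℝ) : ℂ))
    exact Complex.ofRealCLM.contDiff.comp ((EuclideanSpace.proj (𝕜 := ℝ) i).contDiff.comp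
      (V.smoothP.clm_apply contDiff_const))
  have h1 := (proj_dM V hs (fun y hy => matOf_P_mul V hy) hv).1
  have h2 : (cM (matOf (V.P v)) : Matrix (Fin M) (Fin M) (FA M)) * cM (matOf (V.P v)) =
      cM (matOf (V.P v)) := by rw [← ChTenB_cmul, matOf_P_mul V hv]
  rw [ChTenB_alg3 h2 h1]
  unfold Geo.sF
  rw [mapM_trace, mapM_mul, ChTenB_mapc, ChTenB_mappow]

end Pool.Agent.EXO.CH
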