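import Mathlib
import Pool.Agent.EXO.ChTenB
import Pool.Agent.EXO.ChKr

/-!
# EXO / ChTenC: the curvature of `T_ℂ V ⊗ E` on tangent vectors



Fix `v ∈ V`, `φ = mapM (V.P v)` (entrywise ring homomorphism, `FAMap` fixes constants).  Write `P = cM (matOf (V.P v))`,
`e = cM (E.e v)`, `dP = φ (dM (fun y => matOf (V.P y)) v)`, `de = φ (dM E.e v)`, `a = φ (E.conn v)`,
`da = φ (Matrix.of fun i j => dF (fun y => E.conn y i j) v)`.

PROOFS.
* `dM_kr`: `dM (fun y => matOf (V.P y) ⊗ₖ E.e y) = kr dP e + kr P de` (product rule for the entries; `(c • of1 _)` and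
  constants commute); `conn (tenT V E) = kr P (E.conn)`, and its derivative is `kr dP a + kr P da`
  (`dF_mul` with a function of degree zero).
* `curv_ten`: expand
  `(kr P e) (kr dP e + kr P de) (kr dP e + kr P de) (kr P e) + (kr P e) (kr dP a + kr P da) (kr P e) + (kr P a) (kr P a)` with
  `kr_mul_ev_left/right`, `kr_mul_od`; all terms with a factor `P dP P` vanish.  The result is `kr F e + kr P (curvature of E)`.
-/

set_option autoImplicit false
set_option maxSynthPendingDepth 3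
set_option linter.unusedSectionVars false

open Set MeasureTheory Matrix
open scoped ContDiff Kronecker

namespace Pool.Agent.EXO.CH

variable {n M : ℕ} (V : Geo n M) {ι : Type} [Fintype ι] [DecidableEq ι] (E : Bd V ι)

/-! ### Generalities on `cM`, `mapM` and parities -/

theorem ChTenC_algMap {m k : ℕ} (L : En k →L[ℝ] En m) (z : ℂ) :
    FAMap L (algebraMap ℂ (FA m) z) = algebraMap ℂ (FA k) z := by
  rw [Algebra.algebraMap_eq_smul_one, FAMap_smul, FAMap_one, ← Algebra.algebraMap_eq_smul_one]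

theorem ChTenC_mapM_cM {m k : ℕ} {a : Type} (L : En k →L[ℝ] En m) (T : Matrix a a ℂ) :
    mapM L (cM T) = cM T := Matrix.ext fun _ _ => ChTenC_algMap L _

theorem ChTenC_mapM_add {m k : ℕ} {a b : Type} (L : En k →L[ℝ] En m) (X Y : Matrix a b (FA m)) :
    mapM L (X + Y) = mapM L X + mapM L Y := Matrix.ext fun _ _ => FAMap_add L _ _

theorem ChTenC_ev_cM {m : ℕ} {a : Type} (T : Matrix a a ℂ) : (faG m).MEv (cM T) :=
  ev_of_deg Even.zero fun _ _ => deg_algebraMap _

theorem ChTenC_deg_dM {m : ℕ} {a : Type} (e : En m → Matrix a a ℂ) (x : En m) (i j : a) :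
    (dM e x i j).IsDeg 1 := isDeg_sum _ fun _ _ => isDeg_smul (isDeg_of1 _) _

theorem ChTenC_deg_conn {k m : ℕ} {Y : Geo k m} (E : Bd Y ι) (x : En m) (i j : ι) :
    (E.conn x i j).IsDeg 1 := isDeg_sum _ fun _ _ => isDeg_smul (isDeg_of1 _) _

theorem ChTenC_deg_mapM {m k j : ℕ} {a b : Type} (L : En k →L[ℝ] En m) {X : Matrix a b (FA m)}
    (h : ∀ i i', (X i i').IsDeg j) (i : a) (i' : b) : (mapM L X i i').IsDeg j :=
  isDeg_FAMap (h i i') L

theorem ChTenC_cM_mul {m : ℕ} {a : Type} [Fintype a] (S T : Matrix a a ℂ) :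
    (cM (S * T) : Matrix a a (FA m)) = cM S * cM T := by
  refine Matrix.ext fun i j => ?_
  change algebraMap ℂ (FA m) (∑ l, S i l * T l j) = ∑ l, algebraMap ℂ (FA m) (S i l) *
    algebraMap ℂ (FA m) (T l j)
  rw [map_sum]
  exact Finset.sum_congr rfl fun l _ => map_mul _ _ _

theorem ChTenC_cM_kron {m : ℕ} {a b : Type} (S : Matrix a a ℂ) (T : Matrix b b ℂ) :
    (cM (S ⊗ₖ T) : Matrix (a × b) (a × b) (FA m)) = kr (cM S) (cM T) := by
  refine Matrix.ext fun p q => ?_
  exact map_mul (algebraMap ℂ (FA m)) (S p.1 q.1) (T p.2 q.2)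

/-! ### Entries are smooth -/

theorem ChTenC_matOf_smooth : ContDiff ℝ ∞ fun y => matOf (V.P y) := by
  refine contDiff_pi.2 fun i => contDiff_pi.2 fun j => ?_
  have h1 : ContDiff ℝ ∞ fun x => V.P x (bv j) := V.smoothP.clm_apply contDiff_const
  have h2 : ContDiff ℝ ∞ fun x => V.P x (bv j) i :=
    (contDiff_piLp_apply (𝕜 := ℝ) (p := 2)).comp h1
  exact Complex.ofRealCLM.contDiff.comp h2

theorem ChTenC_entry {E' : Type} [Fintype E'] {f : En M → Matrix E' E' ℂ} (hf : ContDiff ℝ ∞ f)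
    (i j : E') : ContDiff ℝ ∞ fun y => f y i j :=
  contDiff_pi.1 (contDiff_pi.1 hf i) j

theorem ChTenC_diff {E' : Type} [Fintype E'] {f : En M → Matrix E' E' ℂ} (hf : ContDiff ℝ ∞ f)
    (i j : E') (x : En M) : DifferentiableAt ℝ (fun y => f y i j) x :=
  (ChTenC_entry hf i j).differentiable (by simp) x

theorem ChTenC_dM_kr {α β : Type} [Fintype α] [Fintype β] {f : En M → Matrix α α ℂ}
    {g : En M → Matrix β β ℂ} (hf : ContDiff ℝ ∞ f) (hg : ContDiff ℝ ∞ g) (v : En M) :
    dM (fun y => f y ⊗ₖ g y) v = kr (dM f v) (cM (g v)) + kr (cM (f v)) (dM g v) := by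
  refine Matrix.ext fun p q => ?_
  rw [Matrix.add_apply]
  change ∑ a, (fderiv ℝ (fun y => f y p.1 q.1 * g y p.2 q.2) v (bv a)) • of1 (bv a) =
    (∑ a, (fderiv ℝ (fun y => f y p.1 q.1) v (bv a)) • of1 (bv a)) *
      algebraMap ℂ (FA M) (g v p.2 q.2) +
    algebraMap ℂ (FA M) (f v p.1 q.1) *
      ∑ a, (fderiv ℝ (fun y => g y p.2 q.2) v (bv a)) • of1 (bv a)
  rw [Finset.sum_mul, Finset.mul_sum, ← Finset.sum_add_distrib]
  refine Finset.sum_congr rfl fun a _ => ?_
  have h1 : fderiv ℝ (fun y => f y p.1 q.1 * g y p.2 q.2) v =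
      f v p.1 q.1 • fderiv ℝ (fun y => g y p.2 q.2) v +
      g v p.2 q.2 • fderiv ℝ (fun y => f y p.1 q.1) v :=
    fderiv_mul (ChTenC_diff hf _ _ v) (ChTenC_diff hg _ _ v)
  rw [h1, ← Algebra.commutes, ← Algebra.smul_def, ← Algebra.smul_def, smul_smul, smul_smul,
    ← add_smul]
  congr 1
  refine Eq.trans ?_ (add_comm _ _)
  rfl

theorem ChTenC_conn (x : En M) : (tenT V E).conn x = kr (cM (matOf (V.P x))) (E.conn x) := by
  refine Matrix.ext fun p q => ?_
  change ∑ a, (matOf (V.P x) p.1 q.1 * E.A a x p.2 q.2) • of1 (bv a) =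
    algebraMap ℂ (FA M) (matOf (V.P x) p.1 q.1) * ∑ a, (E.A a x p.2 q.2) • of1 (bv a)
  rw [Finset.mul_sum]
  refine Finset.sum_congr rfl fun a _ => ?_
  rw [← Algebra.smul_def, smul_smul]

theorem ChTenC_conn_diff (i j : ι) (x : En M) :
    DifferentiableAt ℝ (fun y => E.conn y i j) x := by
  change DifferentiableAt ℝ (fun y => ∑ a, (E.A a y i j) • (of1 (bv a) : FA M)) x
  refine DifferentiableAt.fun_sum fun a _ => ?_
  exact (ChTenC_diff (E.smooth_A a) i j x).smul_const _

theorem ChTenC_dconn (v : En M) :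
    (Matrix.of fun p q => dF (fun y => (tenT V E).conn y p q) v) =
      kr (dM (fun y => matOf (V.P y)) v) (E.conn v) +
      kr (cM (matOf (V.P v))) (Matrix.of fun i j => dF (fun y => E.conn y i j) v) := by
  refine Matrix.ext fun p q => ?_
  rw [Matrix.add_apply]
  have h0 : (fun y => (tenT V E).conn y p q) =
      fun y => algebraMap ℂ (FA M) (matOf (V.P y) p.1 q.1) * E.conn y p.2 q.2 := by
    funext y
    rw [ChTenC_conn]
    rfl
  have hd : DifferentiableAt ℝ (fun y => algebraMap ℂ (FA M) (matOf (V.P y) p.1 q.1)) v := by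
    have : (fun y => algebraMap ℂ (FA M) (matOf (V.P y) p.1 q.1)) =
        fun y => (matOf (V.P y) p.1 q.1) • (1 : FA M) := by
      funext y
      exact Algebra.algebraMap_eq_smul_one _
    rw [this]
    exact (ChTenC_diff (ChTenC_matOf_smooth V) p.1 q.1 v).smul_const _
  change dF (fun y => (tenT V E).conn y p q) v = dM (fun y => matOf (V.P y)) v p.1 q.1 *
    E.conn v p.2 q.2 + algebraMap ℂ (FA M) (matOf (V.P v) p.1 q.1) *
      dF (fun y => E.conn y p.2 q.2) v
  rw [h0, dF_mul hd (ChTenC_conn_diff V E _ _ v), dM_eq (ChTenC_matOf_smooth V),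
    σ_of_deg_even Even.zero (deg_algebraMap _)]

theorem curv_ten {v : En M} (hv : v ∈ V.carrier) :
    mapM (V.P v) ((tenT V E).curv v) =
      kr (cM (matOf (V.P v)) * mapM (V.P v) (dM (fun y => matOf (V.P y)) v) *
        mapM (V.P v) (dM (fun y => matOf (V.P y)) v) * cM (matOf (V.P v))) (cM (E.e v)) +
      kr (cM (matOf (V.P v))) (mapM (V.P v) (E.curv v)) := by
  have hPP : (cM (matOf (V.P v)) : Matrix _ _ (FA M)) * cM (matOf (V.P v)) =
      cM (matOf (V.P v)) := by
    rw [← ChTenC_cM_mul, matOf_P_mul V hv]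
  have hee : (cM (E.e v) : Matrix _ _ (FA M)) * cM (E.e v) = cM (E.e v) := by
    rw [← ChTenC_cM_mul, E.e_idem v hv]
  have h0 := (proj_dM V (ChTenC_matOf_smooth V) (fun y hy => matOf_P_mul V hy) hv).2
  have hP := ChTenC_ev_cM (m := M) (matOf (V.P v))
  have he := ChTenC_ev_cM (m := M) (E.e v)
  have hdP := od_of_deg odd_one (ChTenC_deg_mapM (V.P v) (ChTenC_deg_dM (fun y => matOf (V.P y)) v))
  have hde := od_of_deg odd_one (ChTenC_deg_mapM (V.P v) (ChTenC_deg_dM E.e v))
  have hE : mapM (V.P v) (E.curv v) =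
      cM (E.e v) * mapM (V.P v) (dM E.e v) * mapM (V.P v) (dM E.e v) * cM (E.e v)
      + cM (E.e v) * mapM (V.P v) (Matrix.of fun i j => dF (fun y => E.conn y i j) v) *
          cM (E.e v)
      + mapM (V.P v) (E.conn v) * mapM (V.P v) (E.conn v) := by
    unfold Bd.curv
    simp only [ChTenC_mapM_add, mapM_mul, ChTenC_mapM_cM]
  have hT : mapM (V.P v) ((tenT V E).curv v) =
      kr (cM (matOf (V.P v))) (cM (E.e v)) *
        (kr (mapM (V.P v) (dM (fun y => matOf (V.P y)) v)) (cM (E.e v)) +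
          kr (cM (matOf (V.P v))) (mapM (V.P v) (dM E.e v))) *
        (kr (mapM (V.P v) (dM (fun y => matOf (V.P y)) v)) (cM (E.e v)) +
          kr (cM (matOf (V.P v))) (mapM (V.P v) (dM E.e v))) *
        kr (cM (matOf (V.P v))) (cM (E.e v))
      + kr (cM (matOf (V.P v))) (cM (E.e v)) *
        (kr (mapM (V.P v) (dM (fun y => matOf (V.P y)) v)) (mapM (V.P v) (E.conn v)) +
          kr (cM (matOf (V.P v)))
            (mapM (V.P v) (Matrix.of fun i j => dF (fun y => E.conn y i j) v))) *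
        kr (cM (matOf (V.P v))) (cM (E.e v))
      + kr (cM (matOf (V.P v))) (mapM (V.P v) (E.conn v)) *
        kr (cM (matOf (V.P v))) (mapM (V.P v) (E.conn v)) := by
    have h1 : cM ((tenT V E).e v) = kr (cM (matOf (V.P v))) (cM (E.e v) : Matrix _ _ (FA M)) :=
      ChTenC_cM_kron _ _
    have h2 : dM (tenT V E).e v = kr (dM (fun y => matOf (V.P y)) v) (cM (E.e v)) +
        kr (cM (matOf (V.P v))) (dM E.e v) := ChTenC_dM_kr (ChTenC_matOf_smooth V) E.smooth_e v
    unfold Bd.curv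
    rw [h1, h2, ChTenC_dconn, ChTenC_conn]
    simp only [ChTenC_mapM_add, mapM_mul, mapM_kr, ChTenC_mapM_cM]
  rw [hT, hE]
  generalize (cM (matOf (V.P v)) : Matrix _ _ (FA M)) = P at *
  generalize (cM (E.e v) : Matrix _ _ (FA M)) = e at *
  generalize mapM (V.P v) (dM (fun y => matOf (V.P y)) v) = dP at *
  generalize mapM (V.P v) (dM E.e v) = de at *
  generalize mapM (V.P v) (E.conn v) = a at *
  generalize mapM (V.P v) (Matrix.of fun i j => dF (fun y => E.conn y i j) v) = da at *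
  clear hT hE
  have x1 : kr P e * (kr dP e + kr P de) = kr (P * dP) e + kr P (e * de) := by
    rw [mul_add, kr_mul_ev_left he, kr_mul_ev_left he, hee, hPP]
  have y1 : (kr dP e + kr P de) * kr P e = kr (dP * P) e + kr P (de * e) := by
    rw [add_mul, kr_mul_ev_right hP, kr_mul_ev_right hP, hee, hPP]
  have z1 : kr P e * (kr dP a + kr P da) = kr (P * dP) (e * a) + kr P (e * da) := by
    rw [mul_add, kr_mul_ev_left he, kr_mul_ev_left he, hPP]
  have z2 : (kr (P * dP) (e * a) + kr P (e * da)) * kr P e = kr P (e * da * e) := by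
    rw [add_mul, kr_mul_ev_right hP, kr_mul_ev_right hP, h0, kr_zero_left, zero_add, hPP]
  have w1 : (kr (P * dP) e + kr P (e * de)) * (kr (dP * P) e + kr P (de * e)) =
      kr (P * dP * dP * P) e + kr P (e * de * de * e) := by
    have c1 : kr (P * dP) e * kr (dP * P) e = kr (P * dP * dP * P) e := by
      rw [kr_mul_ev_left he, hee, ← mul_assoc (P * dP) dP P]
    have c2 : kr (P * dP) e * kr P (de * e) = 0 := by
      rw [kr_mul_ev_left he, h0, kr_zero_left]
    have c3 : kr P (e * de) * kr (dP * P) e = 0 := by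
      rw [kr_mul_od (he.mul_od hde) (hdP.mul_ev hP), ← mul_assoc, h0, kr_zero_left, neg_zero]
    have c4 : kr P (e * de) * kr P (de * e) = kr P (e * de * de * e) := by
      rw [kr_mul_ev_right hP, hPP, mul_assoc (e * de)]
    rw [mul_add, add_mul, add_mul, c1, c2, c3, c4]
    abel
  rw [mul_assoc (kr P e * (kr dP e + kr P de)), x1, y1, w1, z1, z2, kr_mul_ev_right hP, hPP,
    kr_add_right, kr_add_right]
  abel

end Pool.Agent.EXO.CH
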