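import Mathlib
import Pool.Agent.EXO.ChTenC

/-!
# EXO / ChTenD: `str F^k` of `T_ℂ V ⊗ E`



Fix `v ∈ V`, `φ = mapM (V.P v)` (entrywise ring homomorphism, `FAMap` fixes constants).  Write `P = cM (matOf (V.P v))`,
`e = cM (E.e v)`, `dP = φ (dM (fun y => matOf (V.P y)) v)`, `de = φ (dM E.e v)`, `a = φ (E.conn v)`,
`da = φ (Matrix.of fun i j => dF (fun y => E.conn y i j) v)`.

PROOFS.
* `strF_ten`: `kr_pow`, `trace_kr`, `diag_kron`; `E.curv = e * E.curv = E.curv * e` on tangent vectors (`e * e = e`, `e a e = a` from `e_A`),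
  `F P = F`.  (`strF k = trace (cM (diagonal s) * cM e * curv ^ k)`; `cM (diagonal (s ∘ snd)) = kr 1 (cM (diagonal s))`.)
-/

set_option autoImplicit false
set_option maxSynthPendingDepth 3
set_option linter.unusedSectionVars false

open Set MeasureTheory Matrix
open scoped ContDiff Kronecker

namespace Pool.Agent.EXO.CH

variable {n M : ℕ} (V : Geo n M) {ι : Type} [Fintype ι] [DecidableEq ι] (E : Bd V ι)

theorem ChTenD_mapM_pow {m k : ℕ} {a : Type} [Fintype a] [DecidableEq a] (L : En k →L[ℝ] En m)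
    (X : Matrix a a (FA m)) (j : ℕ) : mapM L (X ^ j) = mapM L X ^ j := by
  induction j with
  | zero =>
    rw [pow_zero, pow_zero]
    have h := mapM_rM (k := k) (m := m) L (1 : Matrix a a ℝ)
    rwa [rM_one, rM_one] at h
  | succ j ih => rw [pow_succ, pow_succ, mapM_mul, ih]

theorem ChTenD_conn_left {v : En M} (hv : v ∈ V.carrier) :
    (cM (E.e v) : Matrix _ _ (FA M)) * E.conn v = E.conn v := by
  have hA : ∀ a, E.e v * E.A a v = E.A a v := fun a => by
    conv_rhs => rw [← E.e_A a v hv]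
    conv_lhs => rw [← E.e_A a v hv]
    rw [← Matrix.mul_assoc, ← Matrix.mul_assoc, E.e_idem v hv]
  refine Matrix.ext fun i j => ?_
  change ∑ l, algebraMap ℂ (FA M) (E.e v i l) * ∑ a, (E.A a v l j) • of1 (bv a) =
    ∑ a, (E.A a v i j) • of1 (bv a)
  simp only [Finset.mul_sum]
  rw [Finset.sum_comm]
  refine Finset.sum_congr rfl fun a _ => ?_
  conv_rhs => rw [← hA a, Matrix.mul_apply, Finset.sum_smul]
  refine Finset.sum_congr rfl fun l _ => ?_
  rw [← Algebra.smul_def, smul_smul]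

theorem ChTenD_conn_right {v : En M} (hv : v ∈ V.carrier) :
    E.conn v * (cM (E.e v) : Matrix _ _ (FA M)) = E.conn v := by
  have hA : ∀ a, E.A a v * E.e v = E.A a v := fun a => by
    conv_rhs => rw [← E.e_A a v hv]
    conv_lhs => rw [← E.e_A a v hv]
    rw [Matrix.mul_assoc, Matrix.mul_assoc, E.e_idem v hv, ← Matrix.mul_assoc]
  refine Matrix.ext fun i j => ?_
  change ∑ l, (∑ a, (E.A a v i l) • of1 (bv a)) * algebraMap ℂ (FA M) (E.e v l j) =
    ∑ a, (E.A a v i j) • of1 (bv a)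
  simp only [Finset.sum_mul]
  rw [Finset.sum_comm]
  refine Finset.sum_congr rfl fun a _ => ?_
  conv_rhs => rw [← hA a, Matrix.mul_apply, Finset.sum_smul]
  refine Finset.sum_congr rfl fun l _ => ?_
  rw [← Algebra.commutes, ← Algebra.smul_def, smul_smul, mul_comm]

theorem ChTenD_curv_ev (v : En M) : (faG M).MEv (mapM (V.P v) (E.curv v)) := by
  have he : (faG M).MEv (cM (E.e v)) := ChTenC_ev_cM _
  have hde : (faG M).MOd (dM E.e v) := od_of_deg odd_one (ChTenC_deg_dM E.e v)
  have ha : (faG M).MOd (E.conn v) := od_of_deg odd_one (ChTenC_deg_conn E v)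
  have hda : (faG M).MEv (Matrix.of fun i j => dF (fun y => E.conn y i j) v) :=
    ev_of_deg (j := 1 + 1) (by decide) fun i j =>
      deg_dF (Filter.Eventually.of_forall fun y => ChTenC_deg_conn E y i j)
  have h : (faG M).MEv (E.curv v) :=
    ((((he.mul_od hde).mul hde).mul he).add ((he.mul hda).mul he)).add (ha.mul ha)
  intro i j
  have h1 := h i j
  rw [faG_σ] at h1 ⊢
  change par (FAMap (V.P v) (E.curv v i j)) = FAMap (V.P v) (E.curv v i j)
  rw [par_FAMap, h1]

theorem ChTenD_curv_left {v : En M} (hv : v ∈ V.carrier) :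
    (cM (E.e v) : Matrix _ _ (FA M)) * E.curv v = E.curv v := by
  have hee : (cM (E.e v) : Matrix _ _ (FA M)) * cM (E.e v) = cM (E.e v) := by
    rw [← ChTenC_cM_mul, E.e_idem v hv]
  unfold Bd.curv
  rw [mul_add, mul_add]
  simp only [← mul_assoc]
  rw [hee, ChTenD_conn_left V E hv]

theorem ChTenD_curv_right {v : En M} (hv : v ∈ V.carrier) :
    E.curv v * (cM (E.e v) : Matrix _ _ (FA M)) = E.curv v := by
  have hee : (cM (E.e v) : Matrix _ _ (FA M)) * cM (E.e v) = cM (E.e v) := by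
    rw [← ChTenC_cM_mul, E.e_idem v hv]
  unfold Bd.curv
  rw [add_mul, add_mul]
  simp only [mul_assoc]
  rw [hee, ChTenD_conn_right V E hv]

theorem strF_ten {v : En M} (hv : v ∈ V.carrier) (k : ℕ) :
    FAMap (V.P v) ((tenT V E).strF k v) = ∑ j ∈ Finset.range (k + 1),
      (k.choose j) • (FAMap (V.P v) (V.sF j v) * FAMap (V.P v) (E.strF (k - j) v)) := by
  have hPP : (cM (matOf (V.P v)) : Matrix _ _ (FA M)) * cM (matOf (V.P v)) =
      cM (matOf (V.P v)) := by
    rw [← ChTenC_cM_mul, matOf_P_mul V hv]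
  have hee : (cM (E.e v) : Matrix _ _ (FA M)) * cM (E.e v) = cM (E.e v) := by
    rw [← ChTenC_cM_mul, E.e_idem v hv]
  have hP := ChTenC_ev_cM (m := M) (matOf (V.P v))
  have he := ChTenC_ev_cM (m := M) (E.e v)
  have hs := ChTenC_ev_cM (m := M) (diagonal E.s)
  have hdP := od_of_deg odd_one (ChTenC_deg_mapM (V.P v) (ChTenC_deg_dM (fun y => matOf (V.P y)) v))
  have hF := ((hP.mul_od hdP).mul hdP).mul hP
  have hG := ChTenD_curv_ev V E v
  have hGl : cM (E.e v) * mapM (V.P v) (E.curv v) = mapM (V.P v) (E.curv v) := by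
    conv_rhs => rw [← ChTenD_curv_left V E hv, mapM_mul, ChTenC_mapM_cM]
  have hGr : mapM (V.P v) (E.curv v) * cM (E.e v) = mapM (V.P v) (E.curv v) := by
    conv_rhs => rw [← ChTenD_curv_right V E hv, mapM_mul, ChTenC_mapM_cM]
  have hstr : ∀ i, FAMap (V.P v) (E.strF i v) =
      trace (cM (diagonal E.s) * (cM (E.e v) * mapM (V.P v) (E.curv v) ^ i)) := fun i => by
    unfold Bd.strF
    rw [mapM_trace, mapM_mul, mapM_mul, ChTenD_mapM_pow, ChTenC_mapM_cM, ChTenC_mapM_cM,
      mul_assoc]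
  have hT : FAMap (V.P v) ((tenT V E).strF k v) = trace (kr 1 (cM (diagonal E.s)) *
      (kr (cM (matOf (V.P v))) (cM (E.e v)) *
      (kr (cM (matOf (V.P v)) * mapM (V.P v) (dM (fun y => matOf (V.P y)) v) *
        mapM (V.P v) (dM (fun y => matOf (V.P y)) v) * cM (matOf (V.P v))) (cM (E.e v)) +
      kr (cM (matOf (V.P v))) (mapM (V.P v) (E.curv v))) ^ k)) := by
    have h1 : cM ((tenT V E).e v) = kr (cM (matOf (V.P v))) (cM (E.e v) : Matrix _ _ (FA M)) :=
      ChTenC_cM_kron _ _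
    have h2 : cM (diagonal (tenT V E).s) = kr 1 (cM (diagonal E.s) : Matrix _ _ (FA M)) := by
      have h3 : (cM (1 : Matrix (Fin M) (Fin M) ℂ) : Matrix _ _ (FA M)) = 1 := by
        refine Matrix.ext fun i j => ?_
        change algebraMap ℂ (FA M) ((1 : Matrix (Fin M) (Fin M) ℂ) i j) = _
        by_cases h : i = j
        · subst h
          rw [Matrix.one_apply_eq, Matrix.one_apply_eq, map_one]
        · rw [Matrix.one_apply_ne h, Matrix.one_apply_ne h, map_zero]
      rw [← h3, ← ChTenC_cM_kron, ← diag_kron]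
      rfl
    unfold Bd.strF
    rw [mapM_trace, mapM_mul, mapM_mul, ChTenD_mapM_pow, ChTenC_mapM_cM, ChTenC_mapM_cM,
      mul_assoc, curv_ten V E hv, h1, h2]
  rw [hT, kr_pow hP hF he hG hPP hee (by simp only [← mul_assoc, hPP])
    (by simp only [mul_assoc, hPP]) hGl hGr, Finset.mul_sum, Matrix.trace_sum]
  refine Finset.sum_congr rfl fun j _ => ?_
  rw [mul_smul_comm, Matrix.trace_smul, sF_tan V hv, hstr]
  congr 1
  rw [kr_mul_ev_left hs, one_mul, trace_kr]

end Pool.Agent.EXO.CH
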