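import Mathlib
import Pool.Agent.EXO.ChTenD
import Pool.Agent.EXO.ChPb
import Pool.Agent.EXO.ChArA

/-!
# EXO / ChEndA: the characteristic forms of `r^* E` and `T_ℂ V ⊗ r^* E`

`E` is a bundle on `N` with `ch E = 8 om` on tangent vectors, `om` of degree `6`; `w = pbF r om`;
`tj j = (i / (2π))^j / j!`.

PROOFS.
* `strF_N`: `E.ch x = ∑ k ∈ range 8, tj k • E.strF k x` with `E.strF k x` of degree `2 k` (`deg_strF`).  Apply `dgF (2 k)` to
  `FAMap (N.P x) (E.ch x) = 8 • FAMap (N.P x) (om x)` (`FAMap_dgF`, `isDeg_FAMap`, `dgF_of_deg`).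
* `strF_V`: `strF_pb`, `pb_tan` (with `u' = 0`, resp. `u' = (8 / tj 3) • om`; `pbF` is linear).
* `ch_V`: sum of `strF_V`.
* `ch_ten`: `FAMap (V.P v) (ch v) = ∑ k ∈ range 8, tj k • ∑ j ∈ range (k + 1), (k.choose j) • (FAMap (sF j) * FAMap (strF (k - j)))`
  (`strF_ten`); only the terms with `k - j = 3` survive, `k = j + 3`, `j ∈ range 5`, and
  `tj (j + 3) * (j + 3).choose j = tj j * tj 3`.
-/

set_option autoImplicit false
set_option maxSynthPendingDepth 3
set_option linter.unusedSectionVars false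

open Set MeasureTheory Matrix
open scoped ContDiff

namespace Pool.Agent.EXO.CH

/-- The coefficients of the Chern character. -/
noncomputable def tj (j : ℕ) : ℂ := (Complex.I / (2 * Real.pi)) ^ j / (j.factorial : ℂ)

section

variable {N : Geo 6 7} {ι : Type} [Fintype ι] [DecidableEq ι] (E : Bd N ι)
  {om : En 7 → FA 7} (hom' : ∀ x, (om x).IsDeg 6)
  (hch : ∀ x ∈ N.carrier, FAMap (N.P x) (E.ch x) = (8 : ℂ) • FAMap (N.P x) (om x))

include hom' hch

theorem strF_N {x : En 7} (hx : x ∈ N.carrier) {k : ℕ} (hk : k < 8) :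
    tj k • FAMap (N.P x) (E.strF k x) = if k = 3 then (8 : ℂ) • FAMap (N.P x) (om x) else 0 := by
  have h1 := congrArg (dgF (2 * k)) (hch x hx)
  rw [map_smul, ← FAMap_dgF, ← FAMap_dgF, dgF_of_deg (hom' x)] at h1
  have h2 : dgF (2 * k) (E.ch x) = tj k • E.strF k x := by
    unfold Bd.ch
    rw [map_sum, Finset.sum_eq_single k]
    · rw [map_smul, dgF_of_deg (deg_strF E k x), if_pos rfl]
      rfl
    · intro j _ hj
      rw [map_smul, dgF_of_deg (deg_strF E j x), if_neg (by omega), smul_zero]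
    · intro h
      exact absurd (Finset.mem_range.2 hk) h
  rw [h2, FAMap_smul] at h1
  rw [h1]
  by_cases h3 : k = 3
  · rw [if_pos (by omega), if_pos h3]
  · rw [if_neg (by omega), if_neg h3, FAMap_zero, smul_zero]

variable {n M : ℕ} (V : Geo n M) {r : En M → En 7} (hr : ContDiff ℝ ∞ r)
  (hV : ∀ v ∈ V.carrier, r v ∈ N.carrier)

theorem strF_V {v : En M} (hv : v ∈ V.carrier) {k : ℕ} (hk : k < 8) :
    tj k • FAMap (V.P v) ((E.pb V r hr hV).strF k v) =
      if k = 3 then (8 : ℂ) • FAMap (V.P v) (pbF r om v) else 0 := by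
  rw [strF_pb V E hr hV hv, ← FAMap_smul, ← pbF_smul,
    pb_tan (u' := fun y => if k = 3 then (8 : ℂ) • om y else 0) V hr hV ?_ hv]
  · by_cases h3 : k = 3
    · simp only [if_pos h3]
      rw [pbF_smul, FAMap_smul]
    · simp only [if_neg h3]
      unfold pbF
      rw [FAMap_zero, FAMap_zero]
  · intro y hy
    have h := strF_N E hom' hch hy hk
    rw [FAMap_smul, h]
    by_cases h3 : k = 3
    · simp only [if_pos h3]
      rw [FAMap_smul]
    · simp only [if_neg h3]
      rw [FAMap_zero]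

theorem ch_V {v : En M} (hv : v ∈ V.carrier) :
    FAMap (V.P v) ((E.pb V r hr hV).ch v) = (8 : ℂ) • FAMap (V.P v) (pbF r om v) := by
  unfold Bd.ch
  rw [FAMap_sum, Finset.sum_eq_single 3]
  · rw [FAMap_smul]
    have h := strF_V E hom' hch V hr hV hv (k := 3) (by norm_num)
    rw [if_pos rfl] at h
    exact h
  · intro j hj hj3
    rw [FAMap_smul]
    have h := strF_V E hom' hch V hr hV hv (Finset.mem_range.1 hj)
    rw [if_neg hj3] at h
    exact h
  · intro h
    exact absurd (Finset.mem_range.2 (by norm_num)) h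

theorem ch_ten {v : En M} (hv : v ∈ V.carrier) :
    FAMap (V.P v) ((tenT V (E.pb V r hr hV)).ch v) =
      FAMap (V.P v) ((8 : ℂ) • ((∑ j ∈ Finset.range 5, tj j • V.sF j v) * pbF r om v)) := by
  have hI : (Complex.I / (2 * Real.pi)) ≠ 0 := by
    refine div_ne_zero Complex.I_ne_zero (mul_ne_zero two_ne_zero ?_)
    exact_mod_cast Real.pi_ne_zero
  have ht : ∀ j, tj j ≠ 0 := fun j =>
    div_ne_zero (pow_ne_zero j hI) (by exact_mod_cast Nat.factorial_ne_zero j)
  have hB0 : ∀ i, i < 8 → i ≠ 3 → FAMap (V.P v) ((E.pb V r hr hV).strF i v) = 0 := by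
    intro i hi hi3
    have h := strF_V E hom' hch V hr hV hv hi
    rw [if_neg hi3] at h
    exact (smul_eq_zero_iff_right (ht i)).1 h
  have hB3 : tj 3 • FAMap (V.P v) ((E.pb V r hr hV).strF 3 v) =
      (8 : ℂ) • FAMap (V.P v) (pbF r om v) := by
    have h := strF_V E hom' hch V hr hV hv (k := 3) (by norm_num)
    rwa [if_pos rfl] at h
  have hL : FAMap (V.P v) ((tenT V (E.pb V r hr hV)).ch v) =
      ∑ k ∈ Finset.range 8, tj k • ∑ j ∈ Finset.range (k + 1),
        (k.choose j) • (FAMap (V.P v) (V.sF j v) *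
          FAMap (V.P v) ((E.pb V r hr hV).strF (k - j) v)) := by
    unfold Bd.ch
    rw [FAMap_sum]
    refine Finset.sum_congr rfl fun k _ => ?_
    rw [FAMap_smul, strF_ten V _ hv]
    rfl
  have hR : FAMap (V.P v) ((8 : ℂ) • ((∑ j ∈ Finset.range 5, tj j • V.sF j v) * pbF r om v)) =
      ∑ j ∈ Finset.range 5, (tj j * tj 3) • (FAMap (V.P v) (V.sF j v) *
        FAMap (V.P v) ((E.pb V r hr hV).strF 3 v)) := by
    rw [FAMap_smul, FAMap_mul, FAMap_sum, Finset.sum_mul, Finset.smul_sum]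
    refine Finset.sum_congr rfl fun j _ => ?_
    rw [FAMap_smul, mul_smul, ← mul_smul_comm (tj 3), hB3, mul_smul_comm, smul_mul_assoc,
      smul_comm]
  have hin : ∀ k ∈ Finset.range 8, ∑ j ∈ Finset.range (k + 1),
        (k.choose j) • (FAMap (V.P v) (V.sF j v) *
          FAMap (V.P v) ((E.pb V r hr hV).strF (k - j) v)) =
      if 3 ≤ k then (k.choose (k - 3)) • (FAMap (V.P v) (V.sF (k - 3) v) *
          FAMap (V.P v) ((E.pb V r hr hV).strF 3 v)) else 0 := by
    intro k hk
    have hk8 := Finset.mem_range.1 hk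
    by_cases h3 : 3 ≤ k
    · rw [if_pos h3, Finset.sum_eq_single (k - 3)]
      · rw [show k - (k - 3) = 3 by omega]
      · intro j hj hj3
        have hj' := Finset.mem_range.1 hj
        rw [hB0 (k - j) (by omega) (by omega), mul_zero, smul_zero]
      · intro h
        exact absurd (Finset.mem_range.2 (by omega)) h
    · rw [if_neg h3]
      refine Finset.sum_eq_zero fun j hj => ?_
      have hj' := Finset.mem_range.1 hj
      rw [hB0 (k - j) (by omega) (by omega), mul_zero, smul_zero]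
  rw [hL, hR, Finset.sum_congr rfl fun k hk => by rw [hin k hk]]
  have hkey : ∀ j, (tj (j + 3) * ((j + 3).choose j : ℂ)) = tj j * tj 3 := by
    intro j
    have h1 : ((j + 3).choose j : ℂ) * (j.factorial * (3 : ℕ).factorial) = (j + 3).factorial := by
      have := Nat.add_choose_mul_factorial_mul_factorial j 3
      rw [← Nat.choose_symm_add (a := j) (b := 3)] at this
      rw [← mul_assoc]
      exact_mod_cast this
    have h2 : (j.factorial : ℂ) ≠ 0 := by exact_mod_cast Nat.factorial_ne_zero j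
    have h3 : ((j + 3).factorial : ℂ) ≠ 0 := by exact_mod_cast Nat.factorial_ne_zero (j + 3)
    have h4 : ((3 : ℕ).factorial : ℂ) ≠ 0 := by exact_mod_cast Nat.factorial_ne_zero 3
    unfold tj
    rw [div_mul_eq_mul_div, div_mul_div_comm, div_eq_div_iff h3 (mul_ne_zero h2 h4), ← h1]
    ring
  have hshift : ∑ k ∈ Finset.range 8, tj k • (if 3 ≤ k then (k.choose (k - 3)) •
      (FAMap (V.P v) (V.sF (k - 3) v) * FAMap (V.P v) ((E.pb V r hr hV).strF 3 v)) else 0) =
      ∑ j ∈ Finset.range 5, tj (j + 3) • (((j + 3).choose j) •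
      (FAMap (V.P v) (V.sF j v) * FAMap (V.P v) ((E.pb V r hr hV).strF 3 v))) := by
    rw [Finset.range_eq_Ico, ← Finset.sum_Ico_consecutive _ (Nat.zero_le 3) (by norm_num : 3 ≤ 8)]
    rw [Finset.sum_eq_zero (fun k hk => ?_), zero_add, Finset.sum_Ico_eq_sum_range]
    · refine Finset.sum_congr rfl fun j _ => ?_
      rw [if_pos (by omega), show 3 + j - 3 = j by omega, add_comm 3 j]
    · have := (Finset.mem_Ico.1 hk).2
      rw [if_neg (by omega), smul_zero]
  rw [hshift]
  refine Finset.sum_congr rfl fun j _ => ?_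
  rw [← hkey, mul_smul, Nat.cast_smul_eq_nsmul]

end

end Pool.Agent.EXO.CH
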