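import Mathlib
import Pool.Agent.EXO.ChEndA
import Pool.Agent.EXO.ChChn

/-!
# EXO / ChEnd: the contradiction

PROOF.  Write `V = 𝒱.V`, `w = pbF 𝒱.r om`, `I₄ = V.int (sF 4 * w)`, `I₂₂ = V.int (sF 2 * sF 2 * w) = ± 2048 π⁴` (`IF_chn`).
* `int_one`: `V.int (LhF * ch (r^* E)) = V.int (LhF * (8 • w))` (`int_congr_tan`, `FAMap_mul`, `ch_V`) `= 8 * V.int (dgF 8 (LhF) * w)`
  (`int_dgF`, `int_smul'`) `= 8 * (-(7/(46080 π⁴)) I₄ + 1/(18432 π⁴) I₂₂)` (`dgF8_Lh`, `int_add'`, `int_smul'`).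
* `int_two`: in the same way with `ch_ten`, `dgF8_LhT` and `sF_zero` (`V.sF 0 v = 14` on `V`; use `int_congr_tan` again):
  `8 * (14 * (-(7/(46080 π⁴)) I₄ + 1/(18432 π⁴) I₂₂) + (1/(768 π⁴)) I₂₂ + (1/(384 π⁴)) I₄)`
  (`tj 0 = 1`, `tj 2 = -1/(8 π²)`, `tj 4 = 1/(384 π⁴)`).
* `chn_end`: from `index = 0` for `r^* E`: `-(7/(46080 π⁴)) I₄ + 1/(18432 π⁴) I₂₂ = 0`, so `I₄ = (5/14) I₂₂`.  A Dirac operator with
  coefficients in `tenT V (r^* E)` (`hS`) has index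
  `σ * 2^7 * 8 * (1/(768 π⁴) + 5/(14 * 384 π⁴)) I₂₂ = σ * 2^10 * I₂₂ / (448 π⁴) = ± 2^15 / 7`, and an integer `j` with
  `7 * j = ± 32768` does not exist (`omega` after casting to `ℤ`).
-/

set_option autoImplicit false
set_option maxSynthPendingDepth 3
set_option linter.unusedSectionVars false

open Set MeasureTheory Matrix
open scoped ContDiff

namespace Pool.Agent.EXO.CH

private theorem ChEnd_FAMap_smul {a m : ℕ} (L : En a →L[ℝ] En m) (c : ℂ) (u : FA m) :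
    FAMap L (c • u) = c • FAMap L u :=
  map_smul (FAHom L) c u

private theorem ChEnd_tj0 : tj 0 = 1 := by simp [tj]

private theorem ChEnd_tj2 : tj 2 = -(1 / (8 * Real.pi ^ 2) : ℂ) := by
  have hpi : (Real.pi : ℂ) ≠ 0 := Complex.ofReal_ne_zero.2 Real.pi_ne_zero
  rw [tj, div_pow, Complex.I_sq]
  simp only [Nat.factorial]
  field_simp
  push_cast
  ring

private theorem ChEnd_tj4 : tj 4 = (1 / (384 * Real.pi ^ 4) : ℂ) := by
  have hpi : (Real.pi : ℂ) ≠ 0 := Complex.ofReal_ne_zero.2 Real.pi_ne_zero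
  rw [tj, div_pow, Complex.I_pow_four]
  simp only [Nat.factorial]
  field_simp
  push_cast
  ring

/-- The index theorem. -/
def IdxStmt : Prop := ∃ σ : ℂ, (σ = 1 ∨ σ = -1) ∧ ∀ (M : ℕ) (V : OrGeo 14 M) (ι : Type) [Fintype ι]
    [DecidableEq ι] (E : Bd V.toGeo ι) (𝔇 : Dirac V.toGeo (HF M ι)), IsSig V E 𝔇 →
    (𝔇.index : ℂ) = σ * 2 ^ 7 * V.int fun x => LhF V.toGeo x * E.ch x

/-- Existence of the signature operator. -/
def SigStmt : Prop := ∀ (M : ℕ) (V : OrGeo 14 M) (ι : Type) [Fintype ι] [DecidableEq ι]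
    (E : Bd V.toGeo ι), ∃ 𝔇 : Dirac V.toGeo (HF M ι), IsSig V E 𝔇

variable {M : ℕ} (V : OrGeo 14 M) {N : Geo 6 7} {ι : Type} [Fintype ι] [DecidableEq ι] (E : Bd N ι)
  {om : En 7 → FA 7} (hom : ContDiff ℝ ∞ om) (hom' : ∀ x, (om x).IsDeg 6)
  (hch : ∀ x ∈ N.carrier, FAMap (N.P x) (E.ch x) = (8 : ℂ) • FAMap (N.P x) (om x))
  {r : En M → En 7} (hr : ContDiff ℝ ∞ r) (hV : ∀ v ∈ V.carrier, r v ∈ N.carrier)

include hom hom' hch

theorem int_one : V.int (fun x => LhF V.toGeo x * (E.pb V.toGeo r hr hV).ch x) =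
    8 * (-(7 / (46080 * Real.pi ^ 4) : ℂ) * V.int (fun v => V.sF 4 v * pbF r om v)
      + (1 / (18432 * Real.pi ^ 4) : ℂ) * V.int (fun v => V.sF 2 v * V.sF 2 v * pbF r om v)) := by
  have hw : ContDiff ℝ ∞ (pbF r om) := contDiff_pbF hr hom
  have hwd : ∀ v, (pbF r om v).IsDeg 6 := fun v => deg_pbF r om v (hom' _)
  have h1 : V.int (fun x => LhF V.toGeo x * (E.pb V.toGeo r hr hV).ch x) =
      V.int (fun x => (8 : ℂ) • (LhF V.toGeo x * pbF r om x)) := by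
    apply OrGeo.int_congr_tan
    intro v hv
    rw [FAMap_mul, ch_V E hom' hch V.toGeo hr hV hv, ChEnd_FAMap_smul, FAMap_mul, mul_smul_comm]
  rw [h1, OrGeo.int_smul', int_dgF V (contDiff_LhF V.toGeo) hw hwd]
  have h2 : (fun v => dgF 8 (LhF V.toGeo v) * pbF r om v) = fun v =>
      (-(7 / (46080 * Real.pi ^ 4) : ℂ)) • (V.sF 4 v * pbF r om v) +
      (1 / (18432 * Real.pi ^ 4) : ℂ) • (V.sF 2 v * V.sF 2 v * pbF r om v) := by
    funext v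
    rw [dgF8_Lh, add_mul, smul_mul_assoc, smul_mul_assoc]
  rw [h2, OrGeo.int_add' V ((contDiff_mulFA' (contDiff_sF _ 4) hw).const_smul _)
    ((contDiff_mulFA' (contDiff_mulFA' (contDiff_sF _ 2) (contDiff_sF _ 2)) hw).const_smul _),
    OrGeo.int_smul', OrGeo.int_smul']

theorem int_two : V.int (fun x => LhF V.toGeo x * (tenT V.toGeo (E.pb V.toGeo r hr hV)).ch x) =
    8 * (14 * (-(7 / (46080 * Real.pi ^ 4) : ℂ) * V.int (fun v => V.sF 4 v * pbF r om v)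
      + (1 / (18432 * Real.pi ^ 4) : ℂ) * V.int (fun v => V.sF 2 v * V.sF 2 v * pbF r om v))
      + (1 / (768 * Real.pi ^ 4) : ℂ) * V.int (fun v => V.sF 2 v * V.sF 2 v * pbF r om v)
      + (1 / (384 * Real.pi ^ 4) : ℂ) * V.int (fun v => V.sF 4 v * pbF r om v)) := by
  have hpi : (Real.pi : ℂ) ≠ 0 := Complex.ofReal_ne_zero.2 Real.pi_ne_zero
  have hw : ContDiff ℝ ∞ (pbF r om) := contDiff_pbF hr hom
  have hwd : ∀ v, (pbF r om v).IsDeg 6 := fun v => deg_pbF r om v (hom' _)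
  have hS : ContDiff ℝ ∞ fun v => ∑ j ∈ Finset.range 5, tj j • V.sF j v :=
    ContDiff.sum fun j _ => (contDiff_sF _ j).const_smul _
  have h1 : V.int (fun x => LhF V.toGeo x * (tenT V.toGeo (E.pb V.toGeo r hr hV)).ch x) =
      V.int (fun x => (8 : ℂ) • (LhF V.toGeo x * (∑ j ∈ Finset.range 5, tj j • V.sF j x)
        * pbF r om x)) := by
    apply OrGeo.int_congr_tan
    intro v hv
    rw [FAMap_mul, ch_ten E hom' hch V.toGeo hr hV hv, ← FAMap_mul, mul_smul_comm, mul_assoc]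
  rw [h1, OrGeo.int_smul', int_dgF V (contDiff_mulFA' (contDiff_LhF V.toGeo) hS) hw hwd]
  have h2 : V.int (fun v => dgF 8 (LhF V.toGeo v * ∑ j ∈ Finset.range 5, tj j • V.sF j v)
        * pbF r om v) = V.int (fun v =>
      (14 * -(7 / (46080 * Real.pi ^ 4) : ℂ) + (1 / (384 * Real.pi ^ 4) : ℂ)) •
        (V.sF 4 v * pbF r om v) +
      (14 * (1 / (18432 * Real.pi ^ 4) : ℂ) + (1 / (768 * Real.pi ^ 4) : ℂ)) •
        (V.sF 2 v * V.sF 2 v * pbF r om v)) := by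
    apply OrGeo.int_congr_tan
    intro v hv
    congr 1
    rw [dgF8_LhT, sF_zero V.toGeo v hv, ChEnd_tj0, ChEnd_tj2, ChEnd_tj4, one_smul,
      ← Algebra.commutes, ← Algebra.smul_def]
    simp only [add_mul, smul_mul_assoc, smul_add, smul_smul, add_smul]
    push_cast
    have e : (-(1 / (96 * (Real.pi : ℂ) ^ 2)) * -(1 / (8 * (Real.pi : ℂ) ^ 2)))
        = 1 / (768 * (Real.pi : ℂ) ^ 4) := by
      field_simp
      ring
    rw [e]
    abel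
  rw [h2, OrGeo.int_add' V ((contDiff_mulFA' (contDiff_sF _ 4) hw).const_smul _)
    ((contDiff_mulFA' (contDiff_mulFA' (contDiff_sF _ 2) (contDiff_sF _ 2)) hw).const_smul _),
    OrGeo.int_smul', OrGeo.int_smul']
  ring

omit hom hom' hch

theorem chn_end (hI : IdxStmt) (hS : SigStmt) (N : OrGeo 6 7) (C : Collar N.carrier) (l : ℝ)
    (hl : 0 < l) (hl' : l < 1) (om : En 7 → FA 7) (hom : ContDiff ℝ ∞ om)
    (hom' : ∀ x, (om x).IsDeg 6) (ι : Type) [Fintype ι] [DecidableEq ι] (E : Bd N.toGeo ι)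
    (hch : ∀ x ∈ N.carrier, FAMap (N.P x) (E.ch x) = (8 : ℂ) • FAMap (N.P x) (om x))
    (hint : N.int om = 1 ∨ N.int om = -1) (δ : ℝ) (𝒱 : VData N C l δ)
    (𝔇 : Dirac 𝒱.V.toGeo (HF 𝒱.M ι))
    (h𝔇 : IsSig 𝒱.V (E.pb 𝒱.V.toGeo 𝒱.r 𝒱.smooth_r 𝒱.r_maps) 𝔇) (h0 : 𝔇.index = 0) : False := by
  have hpi : (Real.pi : ℂ) ≠ 0 := Complex.ofReal_ne_zero.2 Real.pi_ne_zero
  obtain ⟨σ, hσ, hI⟩ := hI
  have h1 := hI 𝒱.M 𝒱.V ι (E.pb 𝒱.V.toGeo 𝒱.r 𝒱.smooth_r 𝒱.r_maps) 𝔇 h𝔇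
  rw [h0, int_one 𝒱.V E hom hom' hch 𝒱.smooth_r 𝒱.r_maps] at h1
  obtain ⟨𝔇', h𝔇'⟩ := hS 𝒱.M 𝒱.V _
    (tenT 𝒱.V.toGeo (E.pb 𝒱.V.toGeo 𝒱.r 𝒱.smooth_r 𝒱.r_maps))
  have h2 := hI 𝒱.M 𝒱.V _ (tenT 𝒱.V.toGeo (E.pb 𝒱.V.toGeo 𝒱.r 𝒱.smooth_r 𝒱.r_maps)) 𝔇' h𝔇'
  rw [int_two 𝒱.V E hom hom' hch 𝒱.smooth_r 𝒱.r_maps] at h2
  have h3 := IF_chn N C l hl hl' om hom hom' δ 𝒱
  generalize 𝒱.V.int (fun v => 𝒱.V.sF 4 v * pbF 𝒱.r om v) = I4 at h1 h2
  rw [h3] at h1 h2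
  have hσ0 : σ ≠ 0 := by rcases hσ with h | h <;> rw [h] <;> norm_num
  have h4 : I4 = 5 / 14 * (2048 * Real.pi ^ 4 * N.int om) := by
    have h5 : σ * 2 ^ 7 * (8 * (-(7 / (46080 * Real.pi ^ 4) : ℂ) * I4
        + (1 / (18432 * Real.pi ^ 4) : ℂ) * (2048 * Real.pi ^ 4 * N.int om))) = 0 := by
      rw [← h1]; simp
    have h6 : (-(7 / (46080 * Real.pi ^ 4) : ℂ) * I4
        + (1 / (18432 * Real.pi ^ 4) : ℂ) * (2048 * Real.pi ^ 4 * N.int om)) = 0 := by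
      rcases mul_eq_zero.1 h5 with h7 | h7
      · exact absurd h7 (mul_ne_zero hσ0 (by norm_num))
      · rcases mul_eq_zero.1 h7 with h8 | h8
        · norm_num at h8
        · exact h8
    have h9 : (46080 * (Real.pi : ℂ) ^ 4) * ((-(7 / (46080 * Real.pi ^ 4) : ℂ) * I4
        + (1 / (18432 * Real.pi ^ 4) : ℂ) * (2048 * Real.pi ^ 4 * N.int om))) = 0 := by
      rw [h6, mul_zero]
    have h10 : (46080 * (Real.pi : ℂ) ^ 4) * ((-(7 / (46080 * Real.pi ^ 4) : ℂ) * I4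
        + (1 / (18432 * Real.pi ^ 4) : ℂ) * (2048 * Real.pi ^ 4 * N.int om)))
        = -7 * I4 + 5 / 2 * (2048 * Real.pi ^ 4 * N.int om) := by
      field_simp
      ring
    rw [h10] at h9
    linear_combination (-1 / 7) * h9
  rw [h4] at h2
  have h5 : (7 * (𝔇'.index : ℂ)) = 32768 * (σ * N.int om) := by
    rw [h2]
    field_simp
    ring
  have h6 : σ * N.int om = 1 ∨ σ * N.int om = -1 := by
    rcases hσ with h | h <;> rcases hint with h' | h' <;> rw [h, h'] <;> norm_num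
  rcases h6 with h6 | h6
  · rw [h6] at h5
    have h7 : 7 * 𝔇'.index = 32768 := by exact_mod_cast h5
    omega
  · rw [h6] at h5
    have h7 : 7 * 𝔇'.index = -32768 := by
      have : (7 * (𝔇'.index : ℂ)) = ((-32768 : ℤ) : ℂ) := by rw [h5]; norm_num
      exact_mod_cast this
    omega

end Pool.Agent.EXO.CH
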