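import Mathlib
import Pool.Agent.EXO.ChEnd

/-!
# EXO / ChFalse: the manifold `V` does not exist (from the index theorem, the existence of the
signature operator and the vanishing theorem)
-/

set_option autoImplicit false
set_option maxSynthPendingDepth 3

open Set MeasureTheory Matrix
open scoped ContDiff

namespace Pool.Agent.EXO.CH

/-- The vanishing theorem for the index of the signature operator with flat coefficients. -/
def TopStmt : Prop := ∀ (N : OrGeo 6 7) (C : Collar N.carrier) (_ : IsConnected N.carrier) (l : ℝ)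
    (_ : 0 < l) (_ : l < 1)
    (ι : Type) [Fintype ι] [DecidableEq ι] (E : FlatBd N.toGeo ι) (_ : E.NoPar) (δ : ℝ)
    (T : En 7 → En 7 → Matrix ι ι ℂ) (_ : E.IsPT δ T) (𝒱 : VData N C l δ),
    ∃ 𝔇 : Dirac 𝒱.V.toGeo (HF 𝒱.M ι),
      IsSig 𝒱.V (E.toBd.pb 𝒱.V.toGeo 𝒱.r 𝒱.smooth_r 𝒱.r_maps) 𝔇 ∧ 𝔇.index = 0

/-- The manifold `V` does not exist. -/
theorem exo_false (hI : IdxStmt) (hS : SigStmt) (hT : TopStmt) (N : OrGeo 6 7)
    (C : Collar N.carrier) (hN : IsConnected N.carrier) (om : En 7 → FA 7) (ι : Type) [Fintype ι]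
    [DecidableEq ι] (E : FlatBd N.toGeo ι) (δ : ℝ) (T : En 7 → En 7 → Matrix ι ι ℂ)
    (hE : E.NoPar) (hPT : E.IsPT δ T) (hom : ContDiff ℝ ∞ om) (hom' : ∀ x, (om x).IsDeg 6)
    (hch : ∀ x ∈ N.carrier, FAMap (N.P x) (E.toBd.ch x) = (8 : ℂ) • FAMap (N.P x) (om x))
    (hint : N.int om = 1 ∨ N.int om = -1) (l : ℝ) (hl : 0 < l) (hl' : l < 1)
    (𝒱 : VData N C l δ) : False := by
  obtain ⟨𝔇, h𝔇, h0⟩ := hT N C hN l hl hl' ι E hE δ T hPT 𝒱
  exact chn_end hI hS N C l hl hl' om hom hom' ι E.toBd hch hint δ 𝒱 𝔇 h𝔇 h0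

end Pool.Agent.EXO.CH
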