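import Mathlib
import Pool.Agent.EXO.DefG

/-!
# EXO: definitions of the part VCL (the construction of the closed manifold)
-/

open Set MeasureTheory Matrix
open scoped ContDiff ENNReal ComplexConjugate Quaternion

namespace Pool.Agent.EXO

/-! ## The gluing map with full charts -/

/-- The inverse `t₁ t₂⁻¹` of `tt`. -/
noncomputable def tti (l : ℝ) (X Y : En 4) : En 4 × En 4 := (twi l Y X, tw l (twi l Y X) Y)

/-- The transition map `t₁ t₂⁻¹` on `ℝ^15`. -/
noncomputable def tti15 (l : ℝ) (z : En 15) : En 15 :=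
  j15 (tti l (p1 z) (p2 z)).1 (tti l (p1 z) (p2 z)).2 (p3 z)

/-- The same data as in `GData`, but with the full chart `D₂ = {X ≠ 0}`. -/
structure GFull {N : Set (En 7)} (C : Collar N) (l ε : ℝ) where
  A1 : Set (En 15)
  A2 : Set (En 15)
  B1 : Set (En 15)
  B2 : Set (En 15)
  G1 : En 15 → En 15
  G2 : En 15 → En 15
  H1 : En 15 → En 15
  H2 : En 15 → En 15
  openA1 : IsOpen A1
  openA2 : IsOpen A2
  openB1 : IsOpen B1
  openB2 : IsOpen B2
  subA : ∀ z ∈ A1 ∪ A2, 1 / 10 ^ 6 < gS z ∧ gS z < 10 ^ 6 ∧ p3 z ∈ C.O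
  coverA : ∀ z, 1 / 10 ^ 6 < gS z → gS z < 10 ^ 6 → p3 z ∈ C.O → z ∈ A1 ∪ A2
  subB1 : ∀ z ∈ B1, p2 z ≠ 0 ∧ p3 z ∈ C.O
  subB2 : ∀ z ∈ B2, p1 z ≠ 0 ∧ p3 z ∈ C.O
  satA1 : ∀ z, p3 z ∈ C.O → (z ∈ A1 ↔ C.R z ∈ A1)
  satA2 : ∀ z, p3 z ∈ C.O → (z ∈ A2 ↔ C.R z ∈ A2)
  satB1 : ∀ z, p3 z ∈ C.O → (z ∈ B1 ↔ C.R z ∈ B1)
  satB2 : ∀ z, p3 z ∈ C.O → (z ∈ B2 ↔ C.R z ∈ B2)
  smoothG1 : ContDiffOn ℝ ∞ G1 A1
  smoothG2 : ContDiffOn ℝ ∞ G2 A2
  smoothH1 : ContDiffOn ℝ ∞ H1 B1
  smoothH2 : ContDiffOn ℝ ∞ H2 B2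
  mapsG1 : ∀ z ∈ A1, G1 z ∈ B1 ∧ p3 (G1 z) ∈ N ∧ H1 (G1 z) = C.R z
  mapsG2 : ∀ z ∈ A2, G2 z ∈ B2 ∧ p3 (G2 z) ∈ N ∧ H2 (G2 z) = C.R z
  mapsH1 : ∀ z ∈ B1, H1 z ∈ A1 ∧ p3 (H1 z) ∈ N ∧ G1 (H1 z) = C.R z
  mapsH2 : ∀ z ∈ B2, H2 z ∈ A2 ∧ p3 (H2 z) ∈ N ∧ G2 (H2 z) = C.R z
  interA : ∀ z ∈ A1, (z ∈ A2 ↔ p1 (G1 z) ≠ 0)
  interA2 : ∀ z ∈ A2, (z ∈ A1 ↔ p2 (G2 z) ≠ 0)
  compat : ∀ z ∈ A1 ∩ A2, G2 z = tt15 l (G1 z)
  surj1 : ∀ z, 1 / (2 * 10 ^ 5) < gS z → gS z < 2 * 10 ^ 5 → p3 z ∈ C.O → p2 z ≠ 0 → z ∈ B1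
  surj2 : ∀ z, 1 / (2 * 10 ^ 5) < gS z → gS z < 2 * 10 ^ 5 → p3 z ∈ C.O → p1 z ≠ 0 → z ∈ B2
  close1 : ∀ z ∈ A1, (1 - ε) * gS z < gS (G1 z) ∧ gS (G1 z) < (1 + ε) * gS z ∧
    dist (p3 (G1 z)) (C.rho (p3 z)) < ε
  close2 : ∀ z ∈ A2, (1 - ε) * gS z < gS (G2 z) ∧ gS (G2 z) < (1 + ε) * gS z ∧
    dist (p3 (G2 z)) (C.rho (p3 z)) < ε

/-! ## The points of `W` and of the closed manifold -/

/-- The points of `W`: the points `(x, y)` of `K`, the points of `H₁` with `x = ∞` and the points of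
`H₂` with `y = ∞`. -/
inductive WP where
  | k (x y : En 4) : WP
  | h1 (y : En 4) : WP
  | h2 (x : En 4) : WP

/-- The chart `H₁ → W`. -/
noncomputable def cH1 (l : ℝ) (x y : En 4) : WP :=
  open Classical in if x = 0 then .h1 y else .k (ivn x) (twi l x y)

/-- The chart `H₂ → W`. -/
noncomputable def cH2 (l : ℝ) (x y : En 4) : WP :=
  open Classical in if y = 0 then .h2 x else .k (twi l y x) (ivn y)

/-- The coordinates in `K`. -/
def coK : WP → Option (En 4 × En 4)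
  | .k x y => some (x, y)
  | .h1 _ => none
  | .h2 _ => none

/-- The coordinates in `H₁`. -/
noncomputable def co1 (l : ℝ) : WP → Option (En 4 × En 4)
  | .k x y => open Classical in if x = 0 then none else some (ivn x, tw l x y)
  | .h1 y => some (0, y)
  | .h2 _ => none

/-- The coordinates in `H₂`. -/
noncomputable def co2 (l : ℝ) : WP → Option (En 4 × En 4)
  | .k x y => open Classical in if y = 0 then none else some (tw l y x, ivn y)
  | .h1 _ => none
  | .h2 x => some (x, 0)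

/-- The function `rad ^ (-2)` on `W`. -/
noncomputable def gW : WP → ℝ
  | .k x y => ‖x‖ ^ 2 * ‖y‖ ^ 2 / (‖x‖ ^ 2 + ‖y‖ ^ 2)
  | .h1 y => ‖y‖ ^ 2
  | .h2 x => ‖x‖ ^ 2

/-- The points of the closed manifold: points of `W × N` and points of the source piece. -/
abbrev Hub := (WP × En 7) ⊕ En 15

/-- The value of `f` at the coordinates, `0` if they are not defined. -/
noncomputable def ex0 {A F : Type} [Zero F] (o : Option A) (f : A → F) : F := o.elim 0 f

/-- A smooth function which is positive exactly for `t < 20000` and `1` for `t ≤ 10000`. -/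
noncomputable def zt (t : ℝ) : ℝ := stp ((20000 - t) / 10000)

/-- The cut-off function of the piece `S`. -/
noncomputable def bS (z : En 15) : ℝ := zt (gS z)
/-- The cut-off function of the piece `K`. -/
noncomputable def bK (z : En 15) : ℝ := zt (gK z) * Real.exp (-(‖p1 z‖ ^ 2 + ‖p2 z‖ ^ 2))
/-- The cut-off function of the piece `H₁`. -/
noncomputable def b1 (z : En 15) : ℝ := zt (g1 z) * Real.exp (-(‖p1 z‖ ^ 2 + ‖p2 z‖ ^ 2))
/-- The cut-off function of the piece `H₂`. -/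
noncomputable def b2 (z : En 15) : ℝ := zt (g2 z) * Real.exp (-(‖p1 z‖ ^ 2 + ‖p2 z‖ ^ 2))

/-- The cut-off functions `et g` on `W`: `1` for `g ≤ 1`, `0` for `2 ≤ g`. -/
noncomputable def et (t : ℝ) : ℝ := stp (2 - t)

/-- The cut-off function on the source: `0` for `t ≤ 1 / 10^5`, `1` for `4 / 10^5 ≤ t`. -/
noncomputable def ch0 (t : ℝ) : ℝ := stp ((t - 1 / 10 ^ 5) / (3 / 10 ^ 5))

/-- The ambient space of the closed manifold. -/
abbrev Amb := (Fin 4 → ℝ × En 15) × En 7 × ℝ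

/-! ### The functions on `W × N`, in the charts -/

/-- The weight of `K` on `W × N`, with its coordinates. -/
noncomputable def fK (w : WP) (n : En 7) : ℝ × En 15 :=
  ex0 (coK w) fun c => (bK (j15 c.1 c.2 n), bK (j15 c.1 c.2 n) • j15 c.1 c.2 n)
/-- The weight of `H₁` on `W × N`, with its coordinates. -/
noncomputable def f1 (l : ℝ) (w : WP) (n : En 7) : ℝ × En 15 :=
  ex0 (co1 l w) fun c => (b1 (j15 c.1 c.2 n), b1 (j15 c.1 c.2 n) • j15 c.1 c.2 n)
/-- The weight of `H₂` on `W × N`, with its coordinates. -/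
noncomputable def f2 (l : ℝ) (w : WP) (n : En 7) : ℝ × En 15 :=
  ex0 (co2 l w) fun c => (b2 (j15 c.1 c.2 n), b2 (j15 c.1 c.2 n) • j15 c.1 c.2 n)
/-- The function `k` on `W`. -/
noncomputable def kW : WP → ℝ
  | .k x y => et (gW (.k x y)) * kap (‖y‖ ^ 2)
  | .h1 y => et (gW (.h1 y)) * kap (‖y‖ ^ 2)
  | .h2 _ => 0

namespace GFull

variable {N : Set (En 7)} {C : Collar N} {l ε : ℝ} (G : GFull C l ε)

/-- The point `G z` of `W`, for `z ∈ A1 ∪ A2` (and an arbitrary point otherwise). -/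
noncomputable def Gw (z : En 15) : WP :=
  open Classical in if z ∈ G.A1 then cH1 l (p1 (G.G1 z)) (ivn (p2 (G.G1 z)))
    else cH2 l (ivn (p1 (G.G2 z))) (p2 (G.G2 z))

/-- The component in `N` of `G z`. -/
noncomputable def Gn (z : En 15) : En 7 :=
  open Classical in if z ∈ G.A1 then p3 (G.G1 z) else p3 (G.G2 z)

/-- The point of the source with the image `(w, n)`. -/
noncomputable def Gi (w : WP) (n : En 7) : Option (En 15) :=
  open Classical in
  if h : ∃ z, (z ∈ G.A1 ∪ G.A2) ∧ p3 z ∈ N ∧ G.Gw z = w ∧ G.Gn z = n then some h.choose else none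

/-- The source point `z` as a point of the closed manifold. -/
noncomputable def cS (z : En 15) : Hub :=
  open Classical in if z ∈ G.A1 ∪ G.A2 ∧ gW (G.Gw z) < 20000 then .inl (G.Gw z, G.Gn z)
    else .inr (C.R z)

/-- The point `(x, y, n)` of `K` as a point of the closed manifold. -/
noncomputable def cK (C : Collar N) (z : En 15) : Hub := .inl (.k (p1 z) (p2 z), C.rho (p3 z))
/-- The point `(x', y, n)` of `H₁` as a point of the closed manifold. -/
noncomputable def c1 (C : Collar N) (l : ℝ) (z : En 15) : Hub :=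
  .inl (cH1 l (p1 z) (p2 z), C.rho (p3 z))
/-- The point `(x, y', n)` of `H₂` as a point of the closed manifold. -/
noncomputable def c2 (C : Collar N) (l : ℝ) (z : En 15) : Hub :=
  .inl (cH2 l (p1 z) (p2 z), C.rho (p3 z))

/-- The weight of the source piece, with its coordinates. -/
noncomputable def fS : Hub → ℝ × En 15
  | .inl (w, n) => ex0 (G.Gi w n) fun z => (bS z, bS z • z)
  | .inr z => (bS z, bS z • z)

/-- The projection to `N` on the source piece. -/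
noncomputable def rs (z : En 15) : En 7 :=
  C.rho ((1 - ch0 (gS z)) • C.rho (p3 z) + ch0 (gS z) • G.Gn z)

/-- The map of the closed manifold to the ambient space. -/
noncomputable def F : Hub → Amb
  | .inl (w, n) => (![G.fS (.inl (w, n)), fK w n, f1 l w n, f2 l w n], n, kW w)
  | .inr z => (![G.fS (.inr z), 0, 0, 0], G.rs z, 0)

/-- The four charts of the closed manifold. -/
noncomputable def c (i : Fin 4) : En 15 → Hub := ![G.cS, cK C, c1 C l, c2 C l] i

end GFull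

/-- The functions `g` of the four charts. -/
noncomputable def gi (i : Fin 4) : En 15 → ℝ := ![gS, gK, g1, g2] i

/-- The weights of the four charts. -/
noncomputable def bi (i : Fin 4) : En 15 → ℝ := ![bS, bK, b1, b2] i

/-- A function on `W × N`, extended by zero to the other points of the closed manifold. -/
def onT {F : Type} [Zero F] (φ : WP → En 7 → F) : Hub → F
  | .inl (w, n) => φ w n
  | .inr _ => 0

/-- Functions on `W × ℝ⁷` which are smooth in the three charts and vanish for `20000 ≤ gW`. -/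
structure TSm (l : ℝ) {F : Type} [NormedAddCommGroup F] [NormedSpace ℝ F]
    (φ : WP → En 7 → F) : Prop where
  sK : ContDiff ℝ ∞ fun z : En 15 => φ (.k (p1 z) (p2 z)) (p3 z)
  s1 : ContDiff ℝ ∞ fun z : En 15 => φ (cH1 l (p1 z) (p2 z)) (p3 z)
  s2 : ContDiff ℝ ∞ fun z : En 15 => φ (cH2 l (p1 z) (p2 z)) (p3 z)
  van : ∀ w n, 20000 ≤ gW w → φ w n = 0

end Pool.Agent.EXO
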