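import Mathlib
import Pool.Agent.EXO.TwA
import Pool.Agent.EXO.TwB
import Pool.Agent.EXO.DefV

/-!
# EXO / Cut: the cut-off functions (part VCL)

PROOF.  `stp = Real.smoothTransition` (smooth, `0` for `t ≤ 0`, `1` for `1 ≤ t`, positive for `0 < t`, in `[0,1]`).
`kapi`: near `0` it is `0` (for `0 < t < 1/9`: `t⁻¹ > 9`, `kap t⁻¹ = 0`), for `t < 0`: `kap t⁻¹ = 1`; so it is smooth on
`Ioi (-1)`?  NO: it is not continuous at `0` from the left; only `t ≥ 0` matters.  Therefore the statement is about `x ↦ kapi (‖x‖²)`: near `x = 0` it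
is the constant `0`, elsewhere it is a composition of smooth maps.
`zt (gK z)` is smooth: where `p1 z ≠ 0` or `p2 z ≠ 0` the function `gK` is smooth (quotient with nonzero denominator); near the
points with `p1 z = p2 z = 0` one has `gK ≤ ‖p1‖² < 1`, so `zt (gK z) = 1` locally (`(20000 - gK)/10000 ≥ 1`).  In the same way
`et (gK z)` (it is `1` for `gK ≤ 1`).
`g1`, `g2` have the denominators `1 + ‖p1‖²‖p2‖² > 0`.  The weights are products of smooth functions and `exp`.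
-/

set_option autoImplicit false
set_option maxSynthPendingDepth 3

open Set
open scoped ContDiff Quaternion

namespace Pool.Agent.EXO

theorem contDiff_zt : ContDiff ℝ ∞ zt := by
  unfold zt
  exact contDiff_stp.comp ((contDiff_const.sub contDiff_id).div_const _)

private theorem Cut_stp_pos {t : ℝ} : 0 < stp t ↔ 0 < t := by
  constructor
  · intro h
    by_contra hcon
    have : stp t = 0 := Real.smoothTransition.zero_of_nonpos (not_lt.1 hcon)
    linarith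
  · intro h
    exact Real.smoothTransition.pos_of_pos h

private theorem Cut_stp_nonneg (t : ℝ) : 0 ≤ stp t := Real.smoothTransition.nonneg t

private theorem Cut_stp_le (t : ℝ) : stp t ≤ 1 := Real.smoothTransition.le_one t

private theorem Cut_stp_zero {t : ℝ} (h : t ≤ 0) : stp t = 0 :=
  Real.smoothTransition.zero_of_nonpos h

private theorem Cut_stp_one {t : ℝ} (h : 1 ≤ t) : stp t = 1 :=
  Real.smoothTransition.one_of_one_le h

theorem zt_pos {t : ℝ} : 0 < zt t ↔ t < 20000 := by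
  rw [zt, Cut_stp_pos]
  constructor
  · intro h
    have : 0 < 20000 - t := by
      by_contra hcon
      have := div_nonpos_of_nonpos_of_nonneg (not_lt.1 hcon) (show (0 : ℝ) ≤ 10000 by norm_num)
      linarith
    linarith
  · intro h
    exact div_pos (by linarith) (by norm_num)

theorem zt_nonneg (t : ℝ) : 0 ≤ zt t := Cut_stp_nonneg _

theorem zt_zero {t : ℝ} (h : 20000 ≤ t) : zt t = 0 :=
  le_antisymm (not_lt.1 fun h1 => absurd (zt_pos.1 h1) (not_lt.2 h)) (zt_nonneg t)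

theorem contDiff_kap : ContDiff ℝ ∞ kap := by
  unfold kap
  exact contDiff_const.sub (contDiff_stp.comp ((contDiff_id.sub contDiff_const).div_const _))

theorem vc_kap_one {t : ℝ} (h : t ≤ 4) : kap t = 1 := by
  rw [kap, Cut_stp_zero, sub_zero]
  exact div_nonpos_of_nonpos_of_nonneg (by linarith) (by norm_num)

theorem vc_kap_zero {t : ℝ} (h : 9 ≤ t) : kap t = 0 := by
  rw [kap, Cut_stp_one, sub_self]
  rw [le_div_iff₀ (by norm_num)]
  linarith

theorem contDiff_kapi_norm {m : ℕ} : ContDiff ℝ ∞ fun x : En m => kapi (‖x‖ ^ 2) := by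
  rw [contDiff_iff_contDiffAt]
  intro x
  by_cases hx : x = 0
  · have h1 : (fun x : En m => kapi (‖x‖ ^ 2)) =ᶠ[nhds x] fun _ => 0 := by
      have h2 : ∀ᶠ y in nhds x, ‖y‖ < 1 / 3 := by
        have : Continuous fun y : En m => ‖y‖ := continuous_norm
        refine this.continuousAt.eventually (gt_mem_nhds ?_)
        show ‖x‖ < 1 / 3
        rw [hx, norm_zero]
        norm_num
      filter_upwards [h2] with y hy
      rw [kapi]
      split_ifs with h0
      · rfl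
      · refine vc_kap_zero ?_
        have h3 : 0 < ‖y‖ ^ 2 := lt_of_le_of_ne (sq_nonneg _) (Ne.symm h0)
        rw [le_inv_comm₀ (by norm_num) h3]
        have h4 : ‖y‖ ^ 2 ≤ (1 / 3) ^ 2 := pow_le_pow_left₀ (norm_nonneg _) hy.le 2
        norm_num at h4 ⊢
        exact h4
    exact contDiffAt_const.congr_of_eventuallyEq h1
  · have h1 : (fun x : En m => kapi (‖x‖ ^ 2)) =ᶠ[nhds x] fun y => kap (‖y‖ ^ 2)⁻¹ := by
      filter_upwards [isOpen_ne.mem_nhds hx] with y hy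
      rw [kapi, if_neg]
      exact pow_ne_zero 2 (norm_ne_zero_iff.2 hy)
    refine ContDiffAt.congr_of_eventuallyEq ?_ h1
    refine contDiff_kap.contDiffAt.comp x (ContDiffAt.inv ?_ ?_)
    · exact (contDiff_norm_sq ℝ).contDiffAt
    · exact pow_ne_zero 2 (norm_ne_zero_iff.2 hx)

theorem contDiff_et : ContDiff ℝ ∞ et := by
  unfold et
  exact contDiff_stp.comp (contDiff_const.sub contDiff_id)

theorem et_one {t : ℝ} (h : t ≤ 1) : et t = 1 := Cut_stp_one (by linarith)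

theorem et_zero {t : ℝ} (h : 2 ≤ t) : et t = 0 := Cut_stp_zero (by linarith)

theorem contDiff_ch0 : ContDiff ℝ ∞ ch0 := by
  unfold ch0
  exact contDiff_stp.comp ((contDiff_id.sub contDiff_const).div_const _)

theorem ch0_zero {t : ℝ} (h : t ≤ 1 / 10 ^ 5) : ch0 t = 0 :=
  Cut_stp_zero (div_nonpos_of_nonpos_of_nonneg (by linarith) (by norm_num))

theorem ch0_one {t : ℝ} (h : 4 / 10 ^ 5 ≤ t) : ch0 t = 1 := by
  refine Cut_stp_one ?_
  rw [le_div_iff₀ (by norm_num)]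
  linarith

theorem ch0_mem (t : ℝ) : 0 ≤ ch0 t ∧ ch0 t ≤ 1 := ⟨Cut_stp_nonneg _, Cut_stp_le _⟩

private theorem Cut_n1 : ContDiff ℝ ∞ fun z : En 15 => ‖p1 z‖ ^ 2 :=
  (contDiff_norm_sq ℝ).comp contDiff_p1

private theorem Cut_n2 : ContDiff ℝ ∞ fun z : En 15 => ‖p2 z‖ ^ 2 :=
  (contDiff_norm_sq ℝ).comp contDiff_p2

theorem contDiff_gS : ContDiff ℝ ∞ gS := Cut_n1.add Cut_n2

private theorem Cut_den (z : En 15) : 1 + ‖p1 z‖ ^ 2 * ‖p2 z‖ ^ 2 ≠ 0 := by positivity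

theorem contDiff_g1 : ContDiff ℝ ∞ g1 :=
  Cut_n2.div (contDiff_const.add (Cut_n1.mul Cut_n2)) Cut_den

theorem contDiff_g2 : ContDiff ℝ ∞ g2 :=
  Cut_n1.div (contDiff_const.add (Cut_n1.mul Cut_n2)) Cut_den

private theorem Cut_gK_le (z : En 15) : 0 ≤ gK z ∧ gK z ≤ ‖p1 z‖ ^ 2 := by
  have h1 : 0 ≤ ‖p1 z‖ ^ 2 := sq_nonneg _
  have h2 : 0 ≤ ‖p2 z‖ ^ 2 := sq_nonneg _
  refine ⟨by unfold gK; positivity, ?_⟩
  rcases (add_nonneg h1 h2).eq_or_lt with h | h
  · rw [gK, ← h, div_zero]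
    exact h1
  · rw [gK, div_le_iff₀ h]
    nlinarith [mul_nonneg h1 h1]

private theorem Cut_gK_at {z : En 15} (hz : ‖p1 z‖ ^ 2 + ‖p2 z‖ ^ 2 ≠ 0) :
    ContDiffAt ℝ ∞ gK z :=
  (Cut_n1.mul Cut_n2).contDiffAt.div (Cut_n1.add Cut_n2).contDiffAt hz

private theorem Cut_zero {z : En 15} (hz : ‖p1 z‖ ^ 2 + ‖p2 z‖ ^ 2 = 0) : ‖p1 z‖ ^ 2 = 0 := by
  have h1 : 0 ≤ ‖p1 z‖ ^ 2 := sq_nonneg _
  have h2 : 0 ≤ ‖p2 z‖ ^ 2 := sq_nonneg _
  linarith

theorem vc_continuous_gK : Continuous gK := by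
  rw [continuous_iff_continuousAt]
  intro z
  by_cases hz : ‖p1 z‖ ^ 2 + ‖p2 z‖ ^ 2 = 0
  · have h0 := Cut_zero hz
    have h1 : gK z = 0 := le_antisymm (by rw [← h0]; exact (Cut_gK_le z).2) (Cut_gK_le z).1
    have h2 : Filter.Tendsto (fun z : En 15 => ‖p1 z‖ ^ 2) (nhds z) (nhds 0) := by
      have := Cut_n1.continuous.tendsto z
      rwa [h0] at this
    show Filter.Tendsto gK (nhds z) (nhds (gK z))
    rw [h1]
    exact squeeze_zero (fun w => (Cut_gK_le w).1) (fun w => (Cut_gK_le w).2) h2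
  · exact (Cut_gK_at hz).continuousAt

private theorem Cut_comp {φ : ℝ → ℝ} (hφ : ContDiff ℝ ∞ φ) (h1 : ∀ t, t ≤ 1 → φ t = 1) :
    ContDiff ℝ ∞ fun z => φ (gK z) := by
  rw [contDiff_iff_contDiffAt]
  intro z
  by_cases hz : ‖p1 z‖ ^ 2 + ‖p2 z‖ ^ 2 = 0
  · have h0 := Cut_zero hz
    have h2 : ∀ᶠ w in nhds z, ‖p1 w‖ ^ 2 < 1 := by
      refine Cut_n1.continuous.continuousAt.eventually (gt_mem_nhds ?_)
      show ‖p1 z‖ ^ 2 < 1
      rw [h0]
      norm_num
    have h3 : (fun z => φ (gK z)) =ᶠ[nhds z] fun _ => (1 : ℝ) := by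
      filter_upwards [h2] with w hw
      exact h1 _ ((Cut_gK_le w).2.trans hw.le)
    exact contDiffAt_const.congr_of_eventuallyEq h3
  · exact hφ.contDiffAt.comp z (Cut_gK_at hz)

theorem contDiff_zt_gK : ContDiff ℝ ∞ fun z => zt (gK z) := by
  refine Cut_comp contDiff_zt fun t ht => ?_
  refine Cut_stp_one ?_
  rw [le_div_iff₀ (by norm_num)]
  linarith

theorem contDiff_et_gK : ContDiff ℝ ∞ fun z => et (gK z) :=
  Cut_comp contDiff_et fun _ ht => et_one ht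

theorem contDiff_bS : ContDiff ℝ ∞ bS := contDiff_zt.comp contDiff_gS

private theorem Cut_exp : ContDiff ℝ ∞ fun z : En 15 => Real.exp (-(‖p1 z‖ ^ 2 + ‖p2 z‖ ^ 2)) :=
  (Cut_n1.add Cut_n2).neg.exp

theorem contDiff_bK : ContDiff ℝ ∞ bK := contDiff_zt_gK.mul Cut_exp

theorem contDiff_b1 : ContDiff ℝ ∞ b1 := (contDiff_zt.comp contDiff_g1).mul Cut_exp

theorem contDiff_b2 : ContDiff ℝ ∞ b2 := (contDiff_zt.comp contDiff_g2).mul Cut_exp

theorem bS_pos {z : En 15} : 0 < bS z ↔ gS z < 20000 := zt_pos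

theorem bK_pos {z : En 15} : 0 < bK z ↔ gK z < 20000 := by
  rw [bK, mul_pos_iff_of_pos_right (Real.exp_pos _), zt_pos]

theorem b1_pos {z : En 15} : 0 < b1 z ↔ g1 z < 20000 := by
  rw [b1, mul_pos_iff_of_pos_right (Real.exp_pos _), zt_pos]

theorem b2_pos {z : En 15} : 0 < b2 z ↔ g2 z < 20000 := by
  rw [b2, mul_pos_iff_of_pos_right (Real.exp_pos _), zt_pos]

theorem b_nonneg (z : En 15) : 0 ≤ bS z ∧ 0 ≤ bK z ∧ 0 ≤ b1 z ∧ 0 ≤ b2 z :=
  ⟨zt_nonneg _, mul_nonneg (zt_nonneg _) (Real.exp_pos _).le,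
    mul_nonneg (zt_nonneg _) (Real.exp_pos _).le, mul_nonneg (zt_nonneg _) (Real.exp_pos _).le⟩

end Pool.Agent.EXO
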