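import Mathlib
import Pool.Agent.EXO.DefG

/-!
# EXO / ExpH: flat functions times homogeneous functions are smooth (part VCL)

`b (x, y)` is smooth for `x ≠ 0`, `y ≠ 0` and homogeneous of degree `d₁` in `x` and `d₂` in `y`; then
`(x, y) ↦ exp(-1/‖x‖²) exp(-1/‖y‖²) b (x, y)` (extended by `0`) is smooth everywhere.

PROOF.  Put `f b (x,y) := (expNegInvGlue (‖x‖^2) * expNegInvGlue (‖y‖^2)) • b (x,y)` (`expNegInvGlue 0 = 0`, so the value of `b` where `x = 0` or `y = 0` is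
irrelevant).  Claim P(k), by induction on `k : ℕ`: for ALL finite dimensional `F`, all integers `d₁ d₂` and all such `b`, `f b` is `C^k`.
Bound: `‖b (x,y)‖ ≤ M ‖x‖^{d₁} ‖y‖^{d₂}` for `x, y ≠ 0` (`b` is continuous on the compact product of the unit spheres, homogeneity), and
`expNegInvGlue(t²) t^d → 0` as `t → 0+` for every integer `d`; more precisely `expNegInvGlue(t²) t^d ≤ C t²` for `0 < t ≤ R` (e.g. from
`expNegInvGlue.tendsto_polynomial_inv_mul_zero` or `Real.tendsto_pow_mul_exp_neg_atTop_nhds_zero`, or `exp(-u) ≤ m!/u^m`).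
k = 0: continuity at points with `x = 0` or `y = 0` from the bound, elsewhere clear.
k -> k+1: `contDiff_succ_iff_fderiv`: at a point with `x = 0` or `y = 0` the bound `‖f b (x',y')‖ ≤ C ‖x'‖²` (near it; resp. `‖y'‖²`) shows that `f b` is
differentiable there with derivative `0` (if `x = 0`: `‖f b (x', y')‖ ≤ C ‖x'‖² ≤ C ‖(x',y') - (x,y)‖²`).  At the other points
`D (f b) = f b'` with `b' (x,y) = 2‖x‖^{-4} ⟨x, ·⟩ ⊗ b + 2‖y‖^{-4} ⟨y, ·⟩ ⊗ b + D b`, since `expNegInvGlue(t)=exp(-1/t)` has the derivative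
`t^{-2} exp(-1/t)`.  Here `⟨x, ·⟩‖x‖^{-4} b` is homogeneous of degrees `(d₁-3, d₂)`, `⟨y,·⟩‖y‖^{-4} b` of degrees `(d₁, d₂-3)`, the partial derivatives
`D_x b` and `D_y b` of degrees `(d₁-1, d₂)`, `(d₁, d₂-1)` (values in `(En m × En k) →L[ℝ] F`; as separate summands: compose `D b` with the projections
`(En m × En k) → En m → En m × En k`).  So `D (f b)` is the sum of four functions of the same kind and is `C^k` by P(k).
It is convenient to quantify P(k) over `F : Type` finite dimensional.  The one-variable statement follows by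
inserting a constant `y₀ ≠ 0` and dividing by `expNegInvGlue (‖y₀‖²) > 0`.
-/

set_option autoImplicit false
set_option maxSynthPendingDepth 3

open Set
open scoped ContDiff

namespace Pool.Agent.EXO

/-- smooth away from the axes and homogeneous of the degrees `d₁`, `d₂` -/
private structure ExpHB {m k : ℕ} {F : Type} [NormedAddCommGroup F] [NormedSpace ℝ F]
    (d₁ d₂ : ℤ) (b : En m × En k → F) : Prop where
  sm : ContDiffOn ℝ ∞ b {p | p.1 ≠ 0 ∧ p.2 ≠ 0}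
  h1 : ∀ r : ℝ, 0 < r → ∀ x y, x ≠ 0 → y ≠ 0 → b (r • x, y) = r ^ d₁ • b (x, y)
  h2 : ∀ r : ℝ, 0 < r → ∀ x y, x ≠ 0 → y ≠ 0 → b (x, r • y) = r ^ d₂ • b (x, y)

private theorem ExpH_open {m k : ℕ} : IsOpen {p : En m × En k | p.1 ≠ 0 ∧ p.2 ≠ 0} := by
  have h1 : IsOpen {p : En m × En k | p.1 ≠ 0} := isOpen_ne_fun continuous_fst continuous_const
  have h2 : IsOpen {p : En m × En k | p.2 ≠ 0} := isOpen_ne_fun continuous_snd continuous_const
  exact h1.inter h2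

private theorem ExpH_bound {m k : ℕ} {F : Type} [NormedAddCommGroup F] [NormedSpace ℝ F]
    {d₁ d₂ : ℤ} {b : En m × En k → F} (hb : ExpHB d₁ d₂ b) :
    ∃ M : ℝ, 0 ≤ M ∧ ∀ x y, x ≠ 0 → y ≠ 0 → ‖b (x, y)‖ ≤ M * (‖x‖ ^ d₁ * ‖y‖ ^ d₂) := by
  obtain ⟨M, hM⟩ := ((isCompact_sphere (0 : En m) 1).prod
    (isCompact_sphere (0 : En k) 1)).exists_bound_of_continuousOn (f := b)
    (hb.sm.continuousOn.mono (by
      rintro ⟨x, y⟩ ⟨hx, hy⟩
      simp only [mem_sphere_iff_norm, sub_zero] at hx hy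
      refine ⟨fun h => ?_, fun h => ?_⟩
      · have : x = 0 := h
        rw [this, norm_zero] at hx
        exact one_ne_zero hx.symm
      · have : y = 0 := h
        rw [this, norm_zero] at hy
        exact one_ne_zero hy.symm))
  refine ⟨|M|, abs_nonneg _, fun x y hx hy => ?_⟩
  have nx : 0 < ‖x‖ := norm_pos_iff.2 hx
  have ny : 0 < ‖y‖ := norm_pos_iff.2 hy
  have ex : ‖x‖ • (‖x‖⁻¹ • x) = x := by rw [smul_smul, mul_inv_cancel₀ nx.ne', one_smul]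
  have ey : ‖y‖ • (‖y‖⁻¹ • y) = y := by rw [smul_smul, mul_inv_cancel₀ ny.ne', one_smul]
  have hx0 : ‖x‖⁻¹ • x ≠ 0 := smul_ne_zero (inv_ne_zero nx.ne') hx
  have hy0 : ‖y‖⁻¹ • y ≠ 0 := smul_ne_zero (inv_ne_zero ny.ne') hy
  have e : b (x, y) = ‖x‖ ^ d₁ • ‖y‖ ^ d₂ • b (‖x‖⁻¹ • x, ‖y‖⁻¹ • y) := by
    conv_lhs => rw [← ex, ← ey]
    rw [hb.h1 _ nx _ _ hx0 (smul_ne_zero ny.ne' hy0), hb.h2 _ ny _ _ hx0 hy0]
  have hs : ‖b (‖x‖⁻¹ • x, ‖y‖⁻¹ • y)‖ ≤ |M| := by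
    refine (hM _ ⟨?_, ?_⟩).trans (le_abs_self _)
    · simp only [mem_sphere_iff_norm, sub_zero]
      rw [norm_smul, norm_inv, norm_norm, inv_mul_cancel₀ nx.ne']
    · simp only [mem_sphere_iff_norm, sub_zero]
      rw [norm_smul, norm_inv, norm_norm, inv_mul_cancel₀ ny.ne']
  rw [e, norm_smul, norm_smul, Real.norm_of_nonneg (zpow_nonneg nx.le _),
    Real.norm_of_nonneg (zpow_nonneg ny.le _)]
  have h0 : 0 ≤ ‖x‖ ^ d₁ * ‖y‖ ^ d₂ := mul_nonneg (zpow_nonneg nx.le _) (zpow_nonneg ny.le _)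
  calc ‖x‖ ^ d₁ * (‖y‖ ^ d₂ * ‖b (‖x‖⁻¹ • x, ‖y‖⁻¹ • y)‖)
      = (‖x‖ ^ d₁ * ‖y‖ ^ d₂) * ‖b (‖x‖⁻¹ • x, ‖y‖⁻¹ • y)‖ := by ring
    _ ≤ (‖x‖ ^ d₁ * ‖y‖ ^ d₂) * |M| := mul_le_mul_of_nonneg_left hs h0
    _ = |M| * (‖x‖ ^ d₁ * ‖y‖ ^ d₂) := by ring

private theorem ExpH_flat (d : ℤ) (R : ℝ) : ∃ C : ℝ, 0 ≤ C ∧ ∀ t : ℝ, 0 < t → t ≤ R →
    expNegInvGlue (t ^ 2) * t ^ d ≤ C * t ^ 2 := by
  obtain ⟨n, hn⟩ : ∃ n : ℕ, 2 - d ≤ (n : ℤ) := ⟨(2 - d).toNat, Int.self_le_toNat _⟩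
  obtain ⟨j, hj⟩ : ∃ j : ℕ, 2 * (n : ℤ) + d = 2 + (j : ℤ) := by
    obtain ⟨j, hj⟩ := Int.eq_ofNat_of_zero_le (show 0 ≤ 2 * (n : ℤ) + d - 2 by omega)
    exact ⟨j, by omega⟩
  refine ⟨(n.factorial : ℝ) * |R| ^ j, by positivity, fun t ht htR => ?_⟩
  have ht2 : 0 < t ^ 2 := by positivity
  have e1 : expNegInvGlue (t ^ 2) = Real.exp (-(t ^ 2)⁻¹) := by
    simp [expNegInvGlue, not_le.2 ht2]
  have hu : 0 < (t ^ 2)⁻¹ := inv_pos.2 ht2
  have e2 : Real.exp (-(t ^ 2)⁻¹) ≤ (n.factorial : ℝ) * (t ^ 2) ^ n := by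
    rw [Real.exp_neg]
    have h := Real.pow_div_factorial_le_exp ((t ^ 2)⁻¹) hu.le n
    have hp : 0 < ((t ^ 2)⁻¹) ^ n / (n.factorial : ℝ) := by positivity
    refine (inv_anti₀ hp h).trans (le_of_eq ?_)
    rw [inv_div, inv_pow, div_inv_eq_mul]
  have e3 : (t ^ 2) ^ n * t ^ d = t ^ 2 * t ^ j := by
    have : (t ^ 2) ^ n = t ^ (2 * (n : ℤ)) := by
      rw [← pow_mul, ← zpow_natCast]
      congr 1
    rw [this, ← zpow_add₀ ht.ne', hj, zpow_add₀ ht.ne', zpow_natCast]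
    norm_cast
  rw [e1]
  calc Real.exp (-(t ^ 2)⁻¹) * t ^ d ≤ ((n.factorial : ℝ) * (t ^ 2) ^ n) * t ^ d :=
        mul_le_mul_of_nonneg_right e2 (zpow_nonneg ht.le _)
    _ = (n.factorial : ℝ) * t ^ j * t ^ 2 := by rw [mul_assoc, e3]; ring
    _ ≤ (n.factorial : ℝ) * |R| ^ j * t ^ 2 := by
        have : t ^ j ≤ |R| ^ j := pow_le_pow_left₀ ht.le (htR.trans (le_abs_self R)) j
        gcongr

private noncomputable def ExpHw {m k : ℕ} (p : En m × En k) : ℝ :=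
  expNegInvGlue (‖p.1‖ ^ 2) * expNegInvGlue (‖p.2‖ ^ 2)

private theorem ExpH_zero {m k : ℕ} {p : En m × En k} (h : ¬ (p.1 ≠ 0 ∧ p.2 ≠ 0)) : ExpHw p = 0 := by
  rw [ExpHw]
  by_cases h1 : p.1 = 0
  · rw [h1]; simp
  · by_cases h2 : p.2 = 0
    · rw [h2]; simp
    · exact absurd ⟨h1, h2⟩ h

private theorem ExpH_est {m k : ℕ} {F : Type} [NormedAddCommGroup F] [NormedSpace ℝ F]
    {d₁ d₂ : ℤ} {b : En m × En k → F} (hb : ExpHB d₁ d₂ b) (R : ℝ) :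
    ∃ C : ℝ, 0 ≤ C ∧ ∀ p : En m × En k, ‖p.1‖ ≤ R → ‖p.2‖ ≤ R →
      ‖ExpHw p • b p‖ ≤ C * (‖p.1‖ ^ 2 * ‖p.2‖ ^ 2) := by
  obtain ⟨M, hM0, hM⟩ := ExpH_bound hb
  obtain ⟨C₁, hC₁0, hC₁⟩ := ExpH_flat d₁ R
  obtain ⟨C₂, hC₂0, hC₂⟩ := ExpH_flat d₂ R
  refine ⟨M * (C₁ * C₂), by positivity, fun p hx hy => ?_⟩
  by_cases h : p.1 ≠ 0 ∧ p.2 ≠ 0
  · have nx : 0 < ‖p.1‖ := norm_pos_iff.2 h.1
    have ny : 0 < ‖p.2‖ := norm_pos_iff.2 h.2
    have g1 := hC₁ _ nx hx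
    have g2 := hC₂ _ ny hy
    have g3 : ‖b p‖ ≤ M * (‖p.1‖ ^ d₁ * ‖p.2‖ ^ d₂) := hM p.1 p.2 h.1 h.2
    have w0 : 0 ≤ expNegInvGlue (‖p.1‖ ^ 2) := expNegInvGlue.nonneg _
    have w1 : 0 ≤ expNegInvGlue (‖p.2‖ ^ 2) := expNegInvGlue.nonneg _
    rw [norm_smul, ExpHw, Real.norm_of_nonneg (mul_nonneg w0 w1)]
    calc expNegInvGlue (‖p.1‖ ^ 2) * expNegInvGlue (‖p.2‖ ^ 2) * ‖b p‖
        ≤ expNegInvGlue (‖p.1‖ ^ 2) * expNegInvGlue (‖p.2‖ ^ 2) *
          (M * (‖p.1‖ ^ d₁ * ‖p.2‖ ^ d₂)) := mul_le_mul_of_nonneg_left g3 (mul_nonneg w0 w1)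
      _ = M * ((expNegInvGlue (‖p.1‖ ^ 2) * ‖p.1‖ ^ d₁) *
          (expNegInvGlue (‖p.2‖ ^ 2) * ‖p.2‖ ^ d₂)) := by ring
      _ ≤ M * ((C₁ * ‖p.1‖ ^ 2) * (C₂ * ‖p.2‖ ^ 2)) := by
          refine mul_le_mul_of_nonneg_left (mul_le_mul g1 g2 ?_ (by positivity)) hM0
          exact mul_nonneg w1 (zpow_nonneg ny.le _)
      _ = M * (C₁ * C₂) * (‖p.1‖ ^ 2 * ‖p.2‖ ^ 2) := by ring
  · rw [ExpH_zero h, zero_smul, norm_zero]
    positivity

private theorem ExpH_deriv0 {m k : ℕ} {F : Type} [NormedAddCommGroup F] [NormedSpace ℝ F]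
    {d₁ d₂ : ℤ} {b : En m × En k → F} (hb : ExpHB d₁ d₂ b) {p : En m × En k}
    (h : ¬ (p.1 ≠ 0 ∧ p.2 ≠ 0)) :
    HasFDerivAt (fun p => ExpHw p • b p) (0 : En m × En k →L[ℝ] F) p := by
  obtain ⟨C, hC0, hC⟩ := ExpH_est hb (‖p‖ + 1)
  refine Asymptotics.IsBigO.hasFDerivAt (n := 2) ?_ (by norm_num)
  refine Asymptotics.IsBigO.of_bound (C * (‖p‖ + 1) ^ 2) ?_
  have hev : ∀ᶠ q : En m × En k in nhds p, ‖q‖ ≤ ‖p‖ + 1 := by
    have := (continuous_norm (E := En m × En k)).continuousAt.eventually_lt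
      (continuousAt_const (y := ‖p‖ + 1) (x := p)) (by linarith)
    exact this.mono fun q hq => le_of_lt hq
  filter_upwards [hev] with q hq
  have hq1 : ‖q.1‖ ≤ ‖p‖ + 1 := (norm_fst_le q).trans hq
  have hq2 : ‖q.2‖ ≤ ‖p‖ + 1 := (norm_snd_le q).trans hq
  refine (hC q hq1 hq2).trans ?_
  rw [Real.norm_of_nonneg (by positivity)]
  have hd1 : ‖q.1 - p.1‖ ≤ ‖q - p‖ := norm_fst_le (q - p)
  have hd2 : ‖q.2 - p.2‖ ≤ ‖q - p‖ := norm_snd_le (q - p)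
  by_cases h1 : p.1 = 0
  · rw [h1, sub_zero] at hd1
    have g1 : ‖q.1‖ ^ 2 ≤ ‖q - p‖ ^ 2 := pow_le_pow_left₀ (norm_nonneg _) hd1 2
    have g2 : ‖q.2‖ ^ 2 ≤ (‖p‖ + 1) ^ 2 := pow_le_pow_left₀ (norm_nonneg _) hq2 2
    calc C * (‖q.1‖ ^ 2 * ‖q.2‖ ^ 2) ≤ C * (‖q - p‖ ^ 2 * (‖p‖ + 1) ^ 2) := by gcongr
      _ = C * (‖p‖ + 1) ^ 2 * ‖q - p‖ ^ 2 := by ring
  · have h2 : p.2 = 0 := by
      by_contra h2
      exact h ⟨h1, h2⟩
    rw [h2, sub_zero] at hd2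
    have g1 : ‖q.2‖ ^ 2 ≤ ‖q - p‖ ^ 2 := pow_le_pow_left₀ (norm_nonneg _) hd2 2
    have g2 : ‖q.1‖ ^ 2 ≤ (‖p‖ + 1) ^ 2 := pow_le_pow_left₀ (norm_nonneg _) hq1 2
    calc C * (‖q.1‖ ^ 2 * ‖q.2‖ ^ 2) ≤ C * ((‖p‖ + 1) ^ 2 * ‖q - p‖ ^ 2) := by gcongr
      _ = C * (‖p‖ + 1) ^ 2 * ‖q - p‖ ^ 2 := by ring

private noncomputable def ExpHd1 {m k : ℕ} {F : Type} [NormedAddCommGroup F] [NormedSpace ℝ F]
    (b : En m × En k → F) (p : En m × En k) : En m × En k →L[ℝ] F :=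
  (fderiv ℝ b p).comp ((ContinuousLinearMap.inl ℝ (En m) (En k)).comp
    (ContinuousLinearMap.fst ℝ (En m) (En k)))

private noncomputable def ExpHd2 {m k : ℕ} {F : Type} [NormedAddCommGroup F] [NormedSpace ℝ F]
    (b : En m × En k → F) (p : En m × En k) : En m × En k →L[ℝ] F :=
  (fderiv ℝ b p).comp ((ContinuousLinearMap.inr ℝ (En m) (En k)).comp
    (ContinuousLinearMap.snd ℝ (En m) (En k)))

private noncomputable def ExpHd3 {m k : ℕ} {F : Type} [NormedAddCommGroup F] [NormedSpace ℝ F]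
    (b : En m × En k → F) (p : En m × En k) : En m × En k →L[ℝ] F :=
  (2 * ((‖p.1‖ ^ 2)⁻¹) ^ 2) • ((innerSL ℝ p.1).comp
    (ContinuousLinearMap.fst ℝ (En m) (En k))).smulRight (b p)

private noncomputable def ExpHd4 {m k : ℕ} {F : Type} [NormedAddCommGroup F] [NormedSpace ℝ F]
    (b : En m × En k → F) (p : En m × En k) : En m × En k →L[ℝ] F :=
  (2 * ((‖p.2‖ ^ 2)⁻¹) ^ 2) • ((innerSL ℝ p.2).comp
    (ContinuousLinearMap.snd ℝ (En m) (En k))).smulRight (b p)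

private theorem ExpH_glue (t : ℝ) : HasDerivAt expNegInvGlue ((t⁻¹) ^ 2 * expNegInvGlue t) t := by
  have := expNegInvGlue.hasDerivAt_polynomial_eval_inv_mul (1 : Polynomial ℝ) t
  simpa using this

private theorem ExpH_deriv1 {m k : ℕ} {F : Type} [NormedAddCommGroup F] [NormedSpace ℝ F]
    {d₁ d₂ : ℤ} {b : En m × En k → F} (hb : ExpHB d₁ d₂ b) {p : En m × En k}
    (h : p.1 ≠ 0 ∧ p.2 ≠ 0) :
    HasFDerivAt (fun p => ExpHw p • b p)
      (ExpHw p • ExpHd1 b p + ExpHw p • ExpHd2 b p + ExpHw p • ExpHd3 b p + ExpHw p • ExpHd4 b p) p := by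
  have hb' : HasFDerivAt b (fderiv ℝ b p) p :=
    ((hb.sm.contDiffAt (ExpH_open.mem_nhds h)).differentiableAt (by simp)).hasFDerivAt
  have e1 : HasFDerivAt (fun q : En m × En k => expNegInvGlue (‖q.1‖ ^ 2))
      ((((‖p.1‖ ^ 2)⁻¹) ^ 2 * expNegInvGlue (‖p.1‖ ^ 2)) •
        ((2 • innerSL ℝ p.1).comp (ContinuousLinearMap.fst ℝ (En m) (En k)))) p := by
    have k1 : HasFDerivAt (fun q : En m × En k => ‖q.1‖ ^ 2)
        ((2 • innerSL ℝ p.1).comp (ContinuousLinearMap.fst ℝ (En m) (En k))) p :=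
      (hasStrictFDerivAt_norm_sq p.1).hasFDerivAt.comp p hasFDerivAt_fst
    exact HasDerivAt.comp_hasFDerivAt (h₂ := expNegInvGlue) p (ExpH_glue (‖p.1‖ ^ 2)) k1
  have e2 : HasFDerivAt (fun q : En m × En k => expNegInvGlue (‖q.2‖ ^ 2))
      ((((‖p.2‖ ^ 2)⁻¹) ^ 2 * expNegInvGlue (‖p.2‖ ^ 2)) •
        ((2 • innerSL ℝ p.2).comp (ContinuousLinearMap.snd ℝ (En m) (En k)))) p := by
    have k1 : HasFDerivAt (fun q : En m × En k => ‖q.2‖ ^ 2)
        ((2 • innerSL ℝ p.2).comp (ContinuousLinearMap.snd ℝ (En m) (En k))) p :=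
      (hasStrictFDerivAt_norm_sq p.2).hasFDerivAt.comp p hasFDerivAt_snd
    exact HasDerivAt.comp_hasFDerivAt (h₂ := expNegInvGlue) p (ExpH_glue (‖p.2‖ ^ 2)) k1
  have e3 := (e1.mul e2).smul hb'
  refine e3.congr_fderiv ?_
  refine ContinuousLinearMap.ext fun v => ?_
  have hv : fderiv ℝ b p v = fderiv ℝ b p (v.1, 0) + fderiv ℝ b p (0, v.2) := by
    rw [← map_add, Prod.mk_add_mk, add_zero, zero_add]
  simp only [ExpHw, ExpHd1, ExpHd2, ExpHd3, ExpHd4, add_apply,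
    smul_apply, ContinuousLinearMap.comp_apply, ContinuousLinearMap.smulRight_apply,
    ContinuousLinearMap.coe_fst', ContinuousLinearMap.coe_snd', ContinuousLinearMap.inl_apply,
    ContinuousLinearMap.inr_apply, innerSL_apply_apply, smul_eq_mul, hv, nsmul_eq_mul, Nat.cast_ofNat,
    smul_add, smul_smul, Pi.mul_apply]
  module

private theorem ExpH_fd1 {m k : ℕ} {F : Type} [NormedAddCommGroup F] [NormedSpace ℝ F]
    {d₁ d₂ : ℤ} {b : En m × En k → F} (hb : ExpHB d₁ d₂ b) {r : ℝ} (hr : 0 < r) {x : En m} {y : En k}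
    (hx : x ≠ 0) (hy : y ≠ 0) (u : En m) (v : En k) :
    fderiv ℝ b (r • x, y) (r • u, v) = r ^ d₁ • fderiv ℝ b (x, y) (u, v) := by
  have hb' : ∀ q : En m × En k, q.1 ≠ 0 ∧ q.2 ≠ 0 → HasFDerivAt b (fderiv ℝ b q) q := fun q h =>
    ((hb.sm.contDiffAt (ExpH_open.mem_nhds h)).differentiableAt (by simp)).hasFDerivAt
  have hT : HasFDerivAt (fun q : En m × En k => (r • q.1, q.2))
      ((r • ContinuousLinearMap.fst ℝ (En m) (En k)).prod (ContinuousLinearMap.snd ℝ (En m) (En k)))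
      (x, y) :=
    (hasFDerivAt_fst.const_smul r).prodMk hasFDerivAt_snd
  have h1 : HasFDerivAt (fun q : En m × En k => b (r • q.1, q.2))
      ((fderiv ℝ b (r • x, y)).comp
        ((r • ContinuousLinearMap.fst ℝ (En m) (En k)).prod (ContinuousLinearMap.snd ℝ (En m) (En k))))
      (x, y) :=
    (hb' (r • x, y) ⟨smul_ne_zero hr.ne' hx, hy⟩).comp (x, y) hT
  have h2 : HasFDerivAt (fun q : En m × En k => r ^ d₁ • b q) (r ^ d₁ • fderiv ℝ b (x, y)) (x, y) :=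
    (hb' (x, y) ⟨hx, hy⟩).const_smul _
  have h3 : (fun q : En m × En k => b (r • q.1, q.2)) =ᶠ[nhds (x, y)] fun q => r ^ d₁ • b q := by
    filter_upwards [ExpH_open.mem_nhds (show (x, y) ∈ {p : En m × En k | p.1 ≠ 0 ∧ p.2 ≠ 0} from ⟨hx, hy⟩)]
      with q hq
    exact hb.h1 r hr q.1 q.2 hq.1 hq.2
  have h4 := h1.unique (h2.congr_of_eventuallyEq h3)
  have h5 := congrArg (fun L => L (u, v)) h4
  simpa using h5

private theorem ExpH_fd2 {m k : ℕ} {F : Type} [NormedAddCommGroup F] [NormedSpace ℝ F]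
    {d₁ d₂ : ℤ} {b : En m × En k → F} (hb : ExpHB d₁ d₂ b) {r : ℝ} (hr : 0 < r) {x : En m} {y : En k}
    (hx : x ≠ 0) (hy : y ≠ 0) (u : En m) (v : En k) :
    fderiv ℝ b (x, r • y) (u, r • v) = r ^ d₂ • fderiv ℝ b (x, y) (u, v) := by
  have hb' : ∀ q : En m × En k, q.1 ≠ 0 ∧ q.2 ≠ 0 → HasFDerivAt b (fderiv ℝ b q) q := fun q h =>
    ((hb.sm.contDiffAt (ExpH_open.mem_nhds h)).differentiableAt (by simp)).hasFDerivAt
  have hT : HasFDerivAt (fun q : En m × En k => (q.1, r • q.2))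
      ((ContinuousLinearMap.fst ℝ (En m) (En k)).prod (r • ContinuousLinearMap.snd ℝ (En m) (En k)))
      (x, y) :=
    hasFDerivAt_fst.prodMk (hasFDerivAt_snd.const_smul r)
  have h1 : HasFDerivAt (fun q : En m × En k => b (q.1, r • q.2))
      ((fderiv ℝ b (x, r • y)).comp
        ((ContinuousLinearMap.fst ℝ (En m) (En k)).prod (r • ContinuousLinearMap.snd ℝ (En m) (En k))))
      (x, y) :=
    (hb' (x, r • y) ⟨hx, smul_ne_zero hr.ne' hy⟩).comp (x, y) hT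
  have h2 : HasFDerivAt (fun q : En m × En k => r ^ d₂ • b q) (r ^ d₂ • fderiv ℝ b (x, y)) (x, y) :=
    (hb' (x, y) ⟨hx, hy⟩).const_smul _
  have h3 : (fun q : En m × En k => b (q.1, r • q.2)) =ᶠ[nhds (x, y)] fun q => r ^ d₂ • b q := by
    filter_upwards [ExpH_open.mem_nhds (show (x, y) ∈ {p : En m × En k | p.1 ≠ 0 ∧ p.2 ≠ 0} from ⟨hx, hy⟩)]
      with q hq
    exact hb.h2 r hr q.1 q.2 hq.1 hq.2
  have h4 := h1.unique (h2.congr_of_eventuallyEq h3)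
  have h5 := congrArg (fun L => L (u, v)) h4
  simpa using h5

private theorem ExpH_zero_left {m k : ℕ} {F : Type} [NormedAddCommGroup F] [NormedSpace ℝ F]
    (L : En m × En k →L[ℝ] F) {r : ℝ} (hr : 0 < r) (u : En m) :
    L (u, 0) = r⁻¹ • L (r • u, 0) := by
  rw [← map_smul, Prod.smul_mk, smul_smul, inv_mul_cancel₀ hr.ne', one_smul, smul_zero]

private theorem ExpH_zero_right {m k : ℕ} {F : Type} [NormedAddCommGroup F] [NormedSpace ℝ F]
    (L : En m × En k →L[ℝ] F) {r : ℝ} (hr : 0 < r) (v : En k) :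
    L (0, v) = r⁻¹ • L (0, r • v) := by
  rw [← map_smul, Prod.smul_mk, smul_smul, inv_mul_cancel₀ hr.ne', one_smul, smul_zero]

private theorem ExpH_b1 {m k : ℕ} {F : Type} [NormedAddCommGroup F] [NormedSpace ℝ F]
    {d₁ d₂ : ℤ} {b : En m × En k → F} (hb : ExpHB d₁ d₂ b) : ExpHB (d₁ - 1) d₂ (ExpHd1 b) := by
  refine ⟨?_, ?_, ?_⟩
  · exact (hb.sm.fderiv_of_isOpen ExpH_open (by simp)).clm_comp contDiffOn_const
  · intro r hr x y hx hy
    refine ContinuousLinearMap.ext fun v => ?_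
    simp only [ExpHd1, smul_apply, ContinuousLinearMap.comp_apply, ContinuousLinearMap.coe_fst',
      ContinuousLinearMap.inl_apply]
    rw [ExpH_zero_left _ hr, ExpH_fd1 hb hr hx hy, smul_smul, zpow_sub₀ hr.ne', zpow_one]
    congr 1
    ring
  · intro r hr x y hx hy
    refine ContinuousLinearMap.ext fun v => ?_
    simp only [ExpHd1, smul_apply, ContinuousLinearMap.comp_apply, ContinuousLinearMap.coe_fst',
      ContinuousLinearMap.inl_apply]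
    rw [← ExpH_fd2 hb hr hx hy, smul_zero]

private theorem ExpH_b2 {m k : ℕ} {F : Type} [NormedAddCommGroup F] [NormedSpace ℝ F]
    {d₁ d₂ : ℤ} {b : En m × En k → F} (hb : ExpHB d₁ d₂ b) : ExpHB d₁ (d₂ - 1) (ExpHd2 b) := by
  refine ⟨?_, ?_, ?_⟩
  · exact (hb.sm.fderiv_of_isOpen ExpH_open (by simp)).clm_comp contDiffOn_const
  · intro r hr x y hx hy
    refine ContinuousLinearMap.ext fun v => ?_
    simp only [ExpHd2, smul_apply, ContinuousLinearMap.comp_apply, ContinuousLinearMap.coe_snd',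
      ContinuousLinearMap.inr_apply]
    rw [← ExpH_fd1 hb hr hx hy, smul_zero]
  · intro r hr x y hx hy
    refine ContinuousLinearMap.ext fun v => ?_
    simp only [ExpHd2, smul_apply, ContinuousLinearMap.comp_apply, ContinuousLinearMap.coe_snd',
      ContinuousLinearMap.inr_apply]
    rw [ExpH_zero_right _ hr, ExpH_fd2 hb hr hx hy, smul_smul, zpow_sub₀ hr.ne', zpow_one]
    congr 1
    ring

private theorem ExpH_pow3 {r : ℝ} (hr : 0 < r) (d : ℤ) :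
    r ^ (d - 3) = ((r ^ 2)⁻¹) ^ 2 * r * r ^ d := by
  rw [zpow_sub₀ hr.ne']
  have : r ^ (3 : ℤ) = r ^ 3 := by norm_cast
  rw [this]
  field_simp

private theorem ExpH_b3 {m k : ℕ} {F : Type} [NormedAddCommGroup F] [NormedSpace ℝ F]
    {d₁ d₂ : ℤ} {b : En m × En k → F} (hb : ExpHB d₁ d₂ b) : ExpHB (d₁ - 3) d₂ (ExpHd3 b) := by
  refine ⟨?_, ?_, ?_⟩
  · have hn : ContDiff ℝ ∞ (fun p : En m × En k => ‖p.1‖ ^ 2) := contDiff_fst.norm_sq ℝ
    have hc : ContDiffOn ℝ ∞ (fun p : En m × En k => 2 * ((‖p.1‖ ^ 2)⁻¹) ^ 2)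
        {p | p.1 ≠ 0 ∧ p.2 ≠ 0} := by
      refine contDiffOn_const.mul ((ContDiffOn.inv hn.contDiffOn ?_).pow 2)
      intro p hp
      exact pow_ne_zero 2 (norm_ne_zero_iff.2 hp.1)
    have hi : ContDiffOn ℝ ∞ (fun p : En m × En k => (innerSL ℝ p.1).comp
        (ContinuousLinearMap.fst ℝ (En m) (En k))) {p | p.1 ≠ 0 ∧ p.2 ≠ 0} :=
      (((innerSL ℝ).contDiff.comp contDiff_fst).clm_comp contDiff_const).contDiffOn
    exact hc.smul (hi.smulRight hb.sm)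
  · intro r hr x y hx hy
    refine ContinuousLinearMap.ext fun v => ?_
    simp only [ExpHd3, smul_apply, ContinuousLinearMap.comp_apply, ContinuousLinearMap.coe_fst',
      ContinuousLinearMap.smulRight_apply, innerSL_apply_apply]
    rw [hb.h1 r hr x y hx hy, norm_smul, Real.norm_of_nonneg hr.le, inner_smul_left, ExpH_pow3 hr]
    simp only [smul_smul, mul_pow, mul_inv, conj_trivial]
    congr 1
    ring
  · intro r hr x y hx hy
    refine ContinuousLinearMap.ext fun v => ?_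
    simp only [ExpHd3, smul_apply, ContinuousLinearMap.comp_apply, ContinuousLinearMap.coe_fst',
      ContinuousLinearMap.smulRight_apply, innerSL_apply_apply]
    rw [hb.h2 r hr x y hx hy]
    simp only [smul_smul]
    congr 1
    ring

private theorem ExpH_b4 {m k : ℕ} {F : Type} [NormedAddCommGroup F] [NormedSpace ℝ F]
    {d₁ d₂ : ℤ} {b : En m × En k → F} (hb : ExpHB d₁ d₂ b) : ExpHB d₁ (d₂ - 3) (ExpHd4 b) := by
  refine ⟨?_, ?_, ?_⟩
  · have hn : ContDiff ℝ ∞ (fun p : En m × En k => ‖p.2‖ ^ 2) := contDiff_snd.norm_sq ℝ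
    have hc : ContDiffOn ℝ ∞ (fun p : En m × En k => 2 * ((‖p.2‖ ^ 2)⁻¹) ^ 2)
        {p | p.1 ≠ 0 ∧ p.2 ≠ 0} := by
      refine contDiffOn_const.mul ((ContDiffOn.inv hn.contDiffOn ?_).pow 2)
      intro p hp
      exact pow_ne_zero 2 (norm_ne_zero_iff.2 hp.2)
    have hi : ContDiffOn ℝ ∞ (fun p : En m × En k => (innerSL ℝ p.2).comp
        (ContinuousLinearMap.snd ℝ (En m) (En k))) {p | p.1 ≠ 0 ∧ p.2 ≠ 0} :=
      (((innerSL ℝ).contDiff.comp contDiff_snd).clm_comp contDiff_const).contDiffOn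
    exact hc.smul (hi.smulRight hb.sm)
  · intro r hr x y hx hy
    refine ContinuousLinearMap.ext fun v => ?_
    simp only [ExpHd4, smul_apply, ContinuousLinearMap.comp_apply, ContinuousLinearMap.coe_snd',
      ContinuousLinearMap.smulRight_apply, innerSL_apply_apply]
    rw [hb.h1 r hr x y hx hy]
    simp only [smul_smul]
    congr 1
    ring
  · intro r hr x y hx hy
    refine ContinuousLinearMap.ext fun v => ?_
    simp only [ExpHd4, smul_apply, ContinuousLinearMap.comp_apply, ContinuousLinearMap.coe_snd',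
      ContinuousLinearMap.smulRight_apply, innerSL_apply_apply]
    rw [hb.h2 r hr x y hx hy, norm_smul, Real.norm_of_nonneg hr.le, inner_smul_left, ExpH_pow3 hr]
    simp only [smul_smul, mul_pow, mul_inv, conj_trivial]
    congr 1
    ring

private theorem ExpH_deriv {m k : ℕ} {F : Type} [NormedAddCommGroup F] [NormedSpace ℝ F]
    {d₁ d₂ : ℤ} {b : En m × En k → F} (hb : ExpHB d₁ d₂ b) (p : En m × En k) :
    HasFDerivAt (fun p => ExpHw p • b p)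
      (ExpHw p • ExpHd1 b p + ExpHw p • ExpHd2 b p + ExpHw p • ExpHd3 b p + ExpHw p • ExpHd4 b p) p := by
  by_cases h : p.1 ≠ 0 ∧ p.2 ≠ 0
  · exact ExpH_deriv1 hb h
  · refine (ExpH_deriv0 hb h).congr_fderiv ?_
    rw [ExpH_zero h]
    simp

private theorem ExpH_main {m k : ℕ} (n : ℕ) : ∀ (F : Type) [NormedAddCommGroup F] [NormedSpace ℝ F]
    (d₁ d₂ : ℤ) (b : En m × En k → F), ExpHB d₁ d₂ b → ContDiff ℝ n (fun p => ExpHw p • b p) := by
  induction n with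
  | zero =>
    intro F _ _ d₁ d₂ b hb
    have : Differentiable ℝ (fun p => ExpHw p • b p) := fun p => (ExpH_deriv hb p).differentiableAt
    simpa using (contDiff_zero (𝕜 := ℝ)).2 this.continuous
  | succ n ih =>
    intro F _ _ d₁ d₂ b hb
    have h1 : fderiv ℝ (fun p => ExpHw p • b p) = fun p =>
        ExpHw p • ExpHd1 b p + ExpHw p • ExpHd2 b p + ExpHw p • ExpHd3 b p + ExpHw p • ExpHd4 b p :=
      funext fun p => (ExpH_deriv hb p).fderiv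
    have h2 : ContDiff ℝ ((n : ℕ∞ω) + 1) (fun p => ExpHw p • b p) := by
      refine contDiff_succ_iff_fderiv.2 ⟨fun p => (ExpH_deriv hb p).differentiableAt, by simp, ?_⟩
      rw [h1]
      exact (((ih _ _ _ _ (ExpH_b1 hb)).add (ih _ _ _ _ (ExpH_b2 hb))).add
        (ih _ _ _ _ (ExpH_b3 hb))).add (ih _ _ _ _ (ExpH_b4 hb))
    exact_mod_cast h2

/-- two variables -/
theorem contDiff_expH2 {m k : ℕ} {F : Type} [NormedAddCommGroup F] [NormedSpace ℝ F]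
    [FiniteDimensional ℝ F] (d₁ d₂ : ℤ) (b : En m × En k → F)
    (hb : ContDiffOn ℝ ∞ b {p | p.1 ≠ 0 ∧ p.2 ≠ 0})
    (h1 : ∀ r : ℝ, 0 < r → ∀ x y, x ≠ 0 → y ≠ 0 → b (r • x, y) = r ^ d₁ • b (x, y))
    (h2 : ∀ r : ℝ, 0 < r → ∀ x y, x ≠ 0 → y ≠ 0 → b (x, r • y) = r ^ d₂ • b (x, y)) :
    ContDiff ℝ ∞ fun p : En m × En k =>
      (expNegInvGlue (‖p.1‖ ^ 2) * expNegInvGlue (‖p.2‖ ^ 2)) • b p := by
  refine contDiff_infty.2 fun n => ?_
  exact ExpH_main n F d₁ d₂ b ⟨hb, h1, h2⟩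

/-- one variable -/
theorem contDiff_expH1 {m : ℕ} {F : Type} [NormedAddCommGroup F] [NormedSpace ℝ F]
    [FiniteDimensional ℝ F] (d : ℤ) (b : En m → F) (hb : ContDiffOn ℝ ∞ b {0}ᶜ)
    (h1 : ∀ r : ℝ, 0 < r → ∀ x, x ≠ 0 → b (r • x) = r ^ d • b x) :
    ContDiff ℝ ∞ fun x : En m => expNegInvGlue (‖x‖ ^ 2) • b x := by
  have h := contDiff_expH2 (m := m) (k := 1) d 0 (fun p => b p.1)
    (hb.comp contDiff_fst.contDiffOn (fun p hp => hp.1))
    (fun r hr x y hx _ => h1 r hr x hx) (fun r hr x y _ _ => by rw [zpow_zero, one_smul])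
  set y₀ : En 1 := EuclideanSpace.single 0 1 with hy₀
  have hn : ‖y₀‖ = 1 := by rw [hy₀]; simp
  have hE : 0 < expNegInvGlue (‖y₀‖ ^ 2) := expNegInvGlue.pos_of_pos (by rw [hn]; norm_num)
  have h' := (h.comp (contDiff_id.prodMk (contDiff_const (c := y₀)))).const_smul
    ((expNegInvGlue (‖y₀‖ ^ 2))⁻¹)
  have e : (fun x : En m => expNegInvGlue (‖x‖ ^ 2) • b x) = fun x : En m =>
      (expNegInvGlue (‖y₀‖ ^ 2))⁻¹ • ((expNegInvGlue (‖x‖ ^ 2) * expNegInvGlue (‖y₀‖ ^ 2)) • b x) := by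
    funext x
    rw [smul_smul]
    congr 1
    field_simp
  rw [e]
  exact h'

end Pool.Agent.EXO
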