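import Mathlib
import Pool.Agent.EXO.TwA
import Pool.Agent.EXO.DefV

/-!
# EXO / HubA: the three charts of `W` (part VCL)

`cH1 l x y = if x = 0 then h1 y else k (ivn x) (twi l x y)`, `co1` its inverse; `cH2 l x y = if y = 0 then h2 x else k (twi l y x) (ivn y)`.

PROOF.  Case distinctions; `ivn (ivn x) = x`, `tw l (ivn x) = tw l x`, `vc_tw_twi`, `vc_twi_tw`, `ivn_ne_zero` of TwA.
`gW (cH1 l x y)`: for `x = 0` it is `‖y‖²`; for `x ≠ 0`, `‖ivn x‖ = ‖x‖⁻¹`, `‖twi l x y‖ = ‖y‖`: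
`‖x‖⁻²‖y‖²/(‖x‖⁻² + ‖y‖²) = ‖y‖²/(1 + ‖x‖²‖y‖²)`.
`cH1_eq_cH2`: with `Y' = twi l X Y`, `X' = tw l Y' X`, one has `tt l X Y = (X', Y')` and both sides are `k (ivn X) (ivn Y')`:
`cH1 l X (ivn Y) = k (ivn X) (twi l X (ivn Y)) = k (ivn X) (ivn Y')` (`ivn_twi`) and `cH2 l (ivn X') Y' = k (twi l Y' (ivn X')) (ivn Y')`, `twi l Y' (ivn X') = ivn (twi l Y' (tw l Y' X)) = ivn X`.
-/

set_option autoImplicit false
set_option maxSynthPendingDepth 3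

open Set
open scoped ContDiff Quaternion

namespace Pool.Agent.EXO

theorem co1_cH1 (l : ℝ) (x y : En 4) : co1 l (cH1 l x y) = some (x, y) := by
  unfold cH1
  split_ifs with h
  · simp [co1, h]
  · simp only [co1, if_neg (ivn_ne_zero h), vc_ivn_ivn h, vc_tw_ivn l h, vc_tw_twi]

theorem cH1_of_co1 {l : ℝ} {w : WP} {c : En 4 × En 4} (h : co1 l w = some c) :
    w = cH1 l c.1 c.2 := by
  cases w with
  | k x y =>
    simp only [co1] at h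
    split_ifs at h with hx
    obtain rfl := Option.some.inj h
    simp only [cH1, if_neg (ivn_ne_zero hx), vc_ivn_ivn hx, vc_twi_ivn l hx, vc_twi_tw]
  | h1 y =>
    obtain rfl := Option.some.inj h
    simp [cH1]
  | h2 x => exact absurd h (by simp [co1])

theorem co2_cH2 (l : ℝ) (x y : En 4) : co2 l (cH2 l x y) = some (x, y) := by
  unfold cH2
  split_ifs with h
  · simp [co2, h]
  · simp only [co2, if_neg (ivn_ne_zero h), vc_ivn_ivn h, vc_tw_ivn l h, vc_tw_twi]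

theorem cH2_of_co2 {l : ℝ} {w : WP} {c : En 4 × En 4} (h : co2 l w = some c) :
    w = cH2 l c.1 c.2 := by
  cases w with
  | k x y =>
    simp only [co2] at h
    split_ifs at h with hy
    obtain rfl := Option.some.inj h
    simp only [cH2, if_neg (ivn_ne_zero hy), vc_ivn_ivn hy, vc_twi_ivn l hy, vc_twi_tw]
  | h1 y => exact absurd h (by simp [co2])
  | h2 x =>
    obtain rfl := Option.some.inj h
    simp [cH2]

theorem coK_of {w : WP} {c : En 4 × En 4} (h : coK w = some c) : w = .k c.1 c.2 := by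
  cases w with
  | k x y =>
    obtain rfl := Option.some.inj h
    rfl
  | h1 y => exact absurd h (by simp [coK])
  | h2 x => exact absurd h (by simp [coK])

/-- the chart `K` in terms of `H₁`, `H₂` -/
theorem k_eq_cH1 (l : ℝ) {x y : En 4} (hx : x ≠ 0) : WP.k x y = cH1 l (ivn x) (tw l x y) := by
  simp only [cH1, if_neg (ivn_ne_zero hx), vc_ivn_ivn hx, vc_twi_ivn l hx, vc_twi_tw]

theorem k_eq_cH2 (l : ℝ) {x y : En 4} (hy : y ≠ 0) : WP.k x y = cH2 l (tw l y x) (ivn y) := by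
  simp only [cH2, if_neg (ivn_ne_zero hy), vc_ivn_ivn hy, vc_twi_ivn l hy, vc_twi_tw]

private theorem HubA_twi0 (l : ℝ) (x y : En 4) : twi l x y = 0 ↔ y = 0 := by
  rw [← norm_eq_zero, vc_norm_twi, norm_eq_zero]

private theorem HubA_tw0 (l : ℝ) (x y : En 4) : tw l x y = 0 ↔ y = 0 := by
  rw [← norm_eq_zero, vc_norm_tw, norm_eq_zero]

theorem coK_cH1 (l : ℝ) (x y : En 4) :
    coK (cH1 l x y) = open Classical in if x = 0 then none else some (ivn x, twi l x y) := by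
  unfold cH1
  split_ifs with h <;> rfl

theorem coK_cH2 (l : ℝ) (x y : En 4) :
    coK (cH2 l x y) = open Classical in if y = 0 then none else some (twi l y x, ivn y) := by
  unfold cH2
  split_ifs with h <;> rfl

theorem co2_cH1 (l : ℝ) (x y : En 4) :
    co2 l (cH1 l x y) = open Classical in if x = 0 ∨ y = 0 then none
      else some (tw l (twi l x y) (ivn x), ivn (twi l x y)) := by
  unfold cH1
  by_cases hx : x = 0
  · rw [if_pos hx, if_pos (Or.inl hx)]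
    rfl
  · rw [if_neg hx]
    simp only [co2, HubA_twi0, hx, false_or]

theorem co1_cH2 (l : ℝ) (x y : En 4) :
    co1 l (cH2 l x y) = open Classical in if x = 0 ∨ y = 0 then none
      else some (ivn (twi l y x), tw l (twi l y x) (ivn y)) := by
  unfold cH2
  by_cases hy : y = 0
  · rw [if_pos hy, if_pos (Or.inr hy)]
    rfl
  · rw [if_neg hy]
    simp only [co1, HubA_twi0, hy, or_false]

/-- every point of `W` lies in a chart -/
theorem WP_cases (l : ℝ) (w : WP) : (∃ x y, w = .k x y) ∨ (∃ x y, w = cH1 l x y) ∨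
    ∃ x y, w = cH2 l x y := by
  cases w with
  | k x y => exact Or.inl ⟨x, y, rfl⟩
  | h1 y => exact Or.inr (Or.inl ⟨0, y, by simp [cH1]⟩)
  | h2 x => exact Or.inr (Or.inr ⟨x, 0, by simp [cH2]⟩)

theorem gW_nonneg (w : WP) : 0 ≤ gW w := by
  cases w with
  | k x y => simp only [gW]; positivity
  | h1 y => simp only [gW]; positivity
  | h2 x => simp only [gW]; positivity

theorem gW_k (z : En 15) : gW (.k (p1 z) (p2 z)) = gK z := rfl

private theorem HubA_gW1 (l : ℝ) (x y : En 4) :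
    gW (cH1 l x y) = ‖y‖ ^ 2 / (1 + ‖x‖ ^ 2 * ‖y‖ ^ 2) := by
  unfold cH1
  split_ifs with h
  · simp [gW, h]
  · have hx : ‖x‖ ≠ 0 := norm_ne_zero_iff.2 h
    have h1 : (1 : ℝ) + ‖x‖ ^ 2 * ‖y‖ ^ 2 ≠ 0 := by positivity
    simp only [gW, vc_norm_ivn, vc_norm_twi]
    have h2 : ‖x‖⁻¹ ^ 2 + ‖y‖ ^ 2 = (1 + ‖x‖ ^ 2 * ‖y‖ ^ 2) / ‖x‖ ^ 2 := by
      field_simp
    rw [h2]
    field_simp

private theorem HubA_gW2 (l : ℝ) (x y : En 4) :
    gW (cH2 l x y) = ‖x‖ ^ 2 / (1 + ‖x‖ ^ 2 * ‖y‖ ^ 2) := by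
  unfold cH2
  split_ifs with h
  · simp [gW, h]
  · have hx : ‖y‖ ≠ 0 := norm_ne_zero_iff.2 h
    have h1 : (1 : ℝ) + ‖x‖ ^ 2 * ‖y‖ ^ 2 ≠ 0 := by positivity
    simp only [gW, vc_norm_ivn, vc_norm_twi]
    have h2 : ‖x‖ ^ 2 + ‖y‖⁻¹ ^ 2 = (1 + ‖x‖ ^ 2 * ‖y‖ ^ 2) / ‖y‖ ^ 2 := by
      field_simp
      ring
    rw [h2]
    field_simp

theorem gW_cH1 (l : ℝ) (z : En 15) : gW (cH1 l (p1 z) (p2 z)) = g1 z :=
  HubA_gW1 l _ _

theorem gW_cH2 (l : ℝ) (z : En 15) : gW (cH2 l (p1 z) (p2 z)) = g2 z :=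
  HubA_gW2 l _ _

/-- the charts `D₁`, `D₂` of the end: `rad² = ‖X‖² + ‖Y‖²` -/
theorem gW_D1 (l : ℝ) {X Y : En 4} (hY : Y ≠ 0) :
    gW (cH1 l X (ivn Y)) = (‖X‖ ^ 2 + ‖Y‖ ^ 2)⁻¹ := by
  have hy : ‖Y‖ ≠ 0 := norm_ne_zero_iff.2 hY
  have h1 : ‖X‖ ^ 2 + ‖Y‖ ^ 2 ≠ 0 := by positivity
  rw [HubA_gW1, vc_norm_ivn]
  have h2 : 1 + ‖X‖ ^ 2 * ‖Y‖⁻¹ ^ 2 = (‖X‖ ^ 2 + ‖Y‖ ^ 2) / ‖Y‖ ^ 2 := by
    field_simp
    ring
  rw [h2]
  field_simp

theorem gW_D2 (l : ℝ) {X Y : En 4} (hX : X ≠ 0) :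
    gW (cH2 l (ivn X) Y) = (‖X‖ ^ 2 + ‖Y‖ ^ 2)⁻¹ := by
  have hx : ‖X‖ ≠ 0 := norm_ne_zero_iff.2 hX
  have h1 : ‖X‖ ^ 2 + ‖Y‖ ^ 2 ≠ 0 := by positivity
  rw [HubA_gW2, vc_norm_ivn]
  have h2 : 1 + ‖X‖⁻¹ ^ 2 * ‖Y‖ ^ 2 = (‖X‖ ^ 2 + ‖Y‖ ^ 2) / ‖X‖ ^ 2 := by
    field_simp
  rw [h2]
  field_simp

/-- the points with `gW w ≠ 0` are the points of the end -/
theorem end_cases (l : ℝ) {w : WP} (h : gW w ≠ 0) : (∃ X Y, Y ≠ 0 ∧ w = cH1 l X (ivn Y)) ∨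
    ∃ X Y, X ≠ 0 ∧ w = cH2 l (ivn X) Y := by
  cases w with
  | k x y =>
    have hx : x ≠ 0 := by
      rintro rfl
      exact h (by simp [gW])
    have hy : y ≠ 0 := by
      rintro rfl
      exact h (by simp [gW])
    have ht : tw l x y ≠ 0 := fun h0 => hy ((HubA_tw0 l x y).1 h0)
    refine Or.inl ⟨ivn x, ivn (tw l x y), ivn_ne_zero ht, ?_⟩
    rw [vc_ivn_ivn ht]
    exact k_eq_cH1 l hx
  | h1 y =>
    have hy : y ≠ 0 := by
      rintro rfl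
      exact h (by simp [gW])
    refine Or.inl ⟨0, ivn y, ivn_ne_zero hy, ?_⟩
    rw [vc_ivn_ivn hy]
    simp [cH1]
  | h2 x =>
    have hx : x ≠ 0 := by
      rintro rfl
      exact h (by simp [gW])
    refine Or.inr ⟨ivn x, 0, ivn_ne_zero hx, ?_⟩
    rw [vc_ivn_ivn hx]
    simp [cH2]

theorem cH1_eq_cH2 (l : ℝ) {X Y : En 4} (hX : X ≠ 0) (hY : Y ≠ 0) :
    cH1 l X (ivn Y) = cH2 l (ivn (tt l X Y).1) (tt l X Y).2 := by
  have h1 : twi l X Y ≠ 0 := fun h => hY ((HubA_twi0 l X Y).1 h)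
  have h2 : twi l (twi l X Y) (ivn (tw l (twi l X Y) X)) = ivn X := by
    rw [← ivn_twi, vc_twi_tw]
  simp only [cH1, cH2, tt, if_neg hX, if_neg h1, h2, ← ivn_twi]

theorem cH1_inj {l : ℝ} {X Y X' Y' : En 4} (h : cH1 l X Y = cH1 l X' Y') : X = X' ∧ Y = Y' := by
  have h1 := co1_cH1 l X Y
  rw [h, co1_cH1] at h1
  have h2 := Option.some.inj h1
  exact ⟨(congrArg Prod.fst h2).symm, (congrArg Prod.snd h2).symm⟩

theorem cH2_inj {l : ℝ} {X Y X' Y' : En 4} (h : cH2 l X Y = cH2 l X' Y') : X = X' ∧ Y = Y' := by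
  have h1 := co2_cH2 l X Y
  rw [h, co2_cH2] at h1
  have h2 := Option.some.inj h1
  exact ⟨(congrArg Prod.fst h2).symm, (congrArg Prod.snd h2).symm⟩

end Pool.Agent.EXO
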