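import Mathlib
import Pool.Agent.EXO.HubA
import Pool.Agent.EXO.Cut
import Pool.Agent.EXO.ExpH

/-!
# EXO / ChH: the weights of `H₁`, `H₂` in the charts of `W` (part VCL)

PROOF for `f1` (`f2` is symmetric).
Chart `H₁`: `co1 (cH1 l x y) = some (x, y)`: `f1 = (b1 z, b1 z • z)`, smooth by `contDiff_b1`.
Chart `K`: `co1 (.k x y) = if x = 0 then none else some (ivn x, tw l x y)`; for `x ≠ 0`, `z' = j15 (ivn x) (tw l x y) n`: `g1 z' = gK z` (`k_eq_cH1`, `gW_cH1`, `gW_k`),
`b1 z' = zt (gK z) exp(-‖y‖²) expNegInvGlue(‖x‖²)`, and `e • ivn x`, `e • tw l x` are smooth (`contDiff_expH1`), `e = expNegInvGlue(‖x‖²)`;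
`zt (gK z)` is smooth (`contDiff_zt_gK`).
Chart `H₂`: `co1 (cH2 l x y) = none` if `x = 0` or `y = 0`, otherwise `some (ivn (twi l y x), tw l (twi l y x) (ivn y))`; the norms are `‖x‖⁻¹`, `‖y‖⁻¹`, so for
`z' = j15 .. .. n`: `g1 z' = g2 z`, `b1 z' = zt (g2 z) e(x) e(y)` with `e(x) = expNegInvGlue(‖x‖²)`, and `e(x) e(y) ivn (twi l y x)` (degrees `-1`, `0`),
`e(x) e(y) tw l (twi l y x) (ivn y)` (degrees `0`, `-1`), `e(x) e(y) n` are smooth by `contDiff_expH2`.
Vanishing: `zt = 0` for `20000 ≤ gW w`.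
-/

set_option autoImplicit false
set_option maxSynthPendingDepth 3

open Set
open scoped ContDiff Quaternion

namespace Pool.Agent.EXO

private theorem chh_p1 : ContDiff ℝ ∞ p1 :=
  contDiff_euclidean.2 fun _ => contDiff_piLp_apply 2

private theorem chh_p2 : ContDiff ℝ ∞ p2 :=
  contDiff_euclidean.2 fun _ => contDiff_piLp_apply 2

private theorem chh_p3 : ContDiff ℝ ∞ p3 :=
  contDiff_euclidean.2 fun _ => contDiff_piLp_apply 2

private theorem chh_j0 : j15 0 0 0 = 0 := by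
  ext i
  simp only [j15]
  split_ifs <;> simp

private theorem chh_congr {F : Type} [NormedAddCommGroup F] [NormedSpace ℝ F] {f g : En 15 → F}
    (h : ContDiff ℝ ∞ g) (e : ∀ z, f z = g z) : ContDiff ℝ ∞ f := by
  rw [show f = g from funext e]
  exact h

private theorem chh_sm15 (c : ℝ) (a b : En 4) (n : En 7) :
    c • j15 a b n = j15 (c • a) (c • b) (c • n) := by
  ext i
  simp only [j15, PiLp.smul_apply, smul_eq_mul]
  split_ifs <;> simp

private theorem chh_pack {β e : En 15 → ℝ} {a b : En 15 → En 4}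
    (hβ : ContDiff ℝ ∞ β) (he : ContDiff ℝ ∞ e) (ha : ContDiff ℝ ∞ a) (hb : ContDiff ℝ ∞ b) :
    ContDiff ℝ ∞ fun z => (β z * e z, β z • j15 (a z) (b z) (e z • p3 z)) := by
  refine (hβ.mul he).prodMk (hβ.smul ?_)
  exact vc_contDiff_j15.comp (ha.prodMk (hb.prodMk (he.smul chh_p3)))

private theorem chh_e {q : En 15 → En 4} (hq : ContDiff ℝ ∞ q) :
    ContDiff ℝ ∞ fun z => expNegInvGlue (‖q z‖ ^ 2) :=
  expNegInvGlue.contDiff.comp (hq.norm_sq ℝ)

private theorem chh_exp {r : ℝ} (hr : 0 < r) : expNegInvGlue r = Real.exp (-r⁻¹) := by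
  simp [expNegInvGlue, not_le.2 hr]

private theorem chh_ivn : ContDiff ℝ ∞ fun x : En 4 => expNegInvGlue (‖x‖ ^ 2) • ivn x := by
  refine contDiff_expH1 (-1) ivn vc_contDiffOn_ivn ?_
  intro r hr x hx
  rw [ivn_smul hr, zpow_neg_one]

private theorem chh_tw {l : ℝ} (hl : 0 < l) :
    ContDiff ℝ ∞ fun x : En 4 => expNegInvGlue (‖x‖ ^ 2) • tw l x := by
  refine contDiff_expH1 0 (tw l) (vc_contDiffOn_tw hl) ?_
  intro r hr x hx
  rw [vc_tw_smul l hr, zpow_zero, one_smul]

private theorem chh_twi_ne (l : ℝ) {x y : En 4} (hx : x ≠ 0) : twi l y x ≠ 0 := by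
  have h := vc_norm_twi l y x
  intro h0
  rw [h0, norm_zero] at h
  exact hx (norm_eq_zero.1 h.symm)

/-- `(x, y) ↦ twi l y x` -/
private theorem chh_twi_on {l : ℝ} (hl : 0 < l) :
    ContDiffOn ℝ ∞ (fun p : En 4 × En 4 => twi l p.2 p.1) {p | p.1 ≠ 0 ∧ p.2 ≠ 0} :=
  ((vc_contDiffOn_twi hl).comp contDiff_snd.contDiffOn fun p hp => hp.2).clm_apply
    contDiff_fst.contDiffOn

private theorem chh_A {l : ℝ} (hl : 0 < l) : ContDiff ℝ ∞ fun p : En 4 × En 4 =>
    (expNegInvGlue (‖p.1‖ ^ 2) * expNegInvGlue (‖p.2‖ ^ 2)) • ivn (twi l p.2 p.1) := by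
  refine contDiff_expH2 (-1) 0 (fun p : En 4 × En 4 => ivn (twi l p.2 p.1)) ?_ ?_ ?_
  · exact vc_contDiffOn_ivn.comp (chh_twi_on hl) fun p hp => chh_twi_ne l hp.1
  · intro r hr x y hx hy
    show ivn (twi l y (r • x)) = _
    rw [map_smul, ivn_smul hr, zpow_neg_one]
  · intro r hr x y hx hy
    show ivn (twi l (r • y) x) = _
    rw [vc_twi_smul l hr, zpow_zero, one_smul]

private theorem chh_B {l : ℝ} (hl : 0 < l) : ContDiff ℝ ∞ fun p : En 4 × En 4 =>
    (expNegInvGlue (‖p.1‖ ^ 2) * expNegInvGlue (‖p.2‖ ^ 2)) •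
      tw l (twi l p.2 p.1) (ivn p.2) := by
  refine contDiff_expH2 0 (-1) (fun p : En 4 × En 4 => tw l (twi l p.2 p.1) (ivn p.2)) ?_ ?_ ?_
  · exact ((vc_contDiffOn_tw hl).comp (chh_twi_on hl) fun p hp => chh_twi_ne l hp.1).clm_apply
      (vc_contDiffOn_ivn.comp contDiff_snd.contDiffOn fun p hp => hp.2)
  · intro r hr x y hx hy
    show tw l (twi l y (r • x)) (ivn y) = _
    rw [map_smul, vc_tw_smul l hr, zpow_zero, one_smul]
  · intro r hr x y hx hy
    show tw l (twi l (r • y) x) (ivn (r • y)) = _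
    rw [vc_twi_smul l hr, ivn_smul hr, map_smul, zpow_neg_one]

private theorem chh_cast {a b : ℝ} (h : a = b) : Real.exp a = Real.exp b := by rw [h]

theorem tsm_f1 {l : ℝ} (hl : 0 < l) : TSm l (f1 l) := by
  refine ⟨?_, ?_, ?_, ?_⟩
  · have hβ : ContDiff ℝ ∞ fun z => zt (gK z) * Real.exp (-‖p2 z‖ ^ 2) :=
      contDiff_zt_gK.mul (chh_p2.norm_sq ℝ).neg.exp
    have h := chh_pack hβ (chh_e chh_p1) (chh_ivn.comp chh_p1)
      (((chh_tw hl).comp chh_p1).clm_apply chh_p2)
    refine chh_congr h fun z => ?_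
    rw [f1, co1]
    by_cases hx : p1 z = 0
    · simp only [hx, if_true, ex0, Option.elim, Function.comp]
      have e0 : expNegInvGlue (‖(0 : En 4)‖ ^ 2) = 0 := expNegInvGlue.zero_of_nonpos (by simp)
      simp only [e0, zero_smul, mul_zero, zero_apply, chh_j0, smul_zero]
      rfl
    · simp only [hx, if_false, ex0, Option.elim, Function.comp]
      have hb : b1 (j15 (ivn (p1 z)) (tw l (p1 z) (p2 z)) (p3 z))
          = (zt (gK z) * Real.exp (-‖p2 z‖ ^ 2)) * expNegInvGlue (‖p1 z‖ ^ 2) := by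
        have h1 : g1 (j15 (ivn (p1 z)) (tw l (p1 z) (p2 z)) (p3 z)) = gK z := by
          rw [← gW_cH1 l, p1_j15, p2_j15, ← k_eq_cH1 l hx, gW_k]
        have hx2 : 0 < ‖p1 z‖ ^ 2 := by positivity
        rw [b1, h1, p1_j15, p2_j15, vc_norm_ivn, vc_norm_tw, chh_exp hx2, mul_assoc, ← Real.exp_add]
        congr 2
        rw [inv_pow]
        ring
      rw [hb]
      refine Prod.ext rfl ?_
      show _ • j15 _ _ _ = _ • j15 _ _ _
      rw [mul_smul, chh_sm15]
      rfl
  · refine chh_congr (contDiff_b1.prodMk (contDiff_b1.smul contDiff_id)) fun z => ?_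
    rw [f1, co1_cH1]
    simp [ex0]
  · have hβ : ContDiff ℝ ∞ fun z => zt (g2 z) := contDiff_zt.comp contDiff_g2
    have hp : ContDiff ℝ ∞ fun z : En 15 => (p1 z, p2 z) := chh_p1.prodMk chh_p2
    have h := chh_pack hβ ((chh_e chh_p1).mul (chh_e chh_p2)) ((chh_A hl).comp hp)
      ((chh_B hl).comp hp)
    refine chh_congr h fun z => ?_
    rw [f1, co1_cH2]
    have e0 : expNegInvGlue (‖(0 : En 4)‖ ^ 2) = 0 := expNegInvGlue.zero_of_nonpos (by simp)
    by_cases hx : p1 z = 0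
    · simp only [hx, true_or, if_true, ex0, Option.elim, Function.comp]
      simp only [e0, zero_smul, zero_mul, mul_zero, zero_apply, chh_j0, smul_zero]
      rfl
    by_cases hy : p2 z = 0
    · simp only [hy, or_true, if_true, ex0, Option.elim, Function.comp]
      simp only [e0, zero_smul, zero_mul, mul_zero, zero_apply, chh_j0, smul_zero]
      rfl
    · simp only [hx, hy, or_self, if_false, ex0, Option.elim, Function.comp]
      have hb : b1 (j15 (ivn (twi l (p2 z) (p1 z))) (tw l (twi l (p2 z) (p1 z)) (ivn (p2 z)))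
          (p3 z)) = zt (g2 z) * (expNegInvGlue (‖p1 z‖ ^ 2) * expNegInvGlue (‖p2 z‖ ^ 2)) := by
        have h1 : g1 (j15 (ivn (twi l (p2 z) (p1 z))) (tw l (twi l (p2 z) (p1 z)) (ivn (p2 z)))
            (p3 z)) = g2 z := by
          rw [← gW_cH1 l, p1_j15, p2_j15, ← k_eq_cH1 l (chh_twi_ne l hx), ← gW_cH2 l z, cH2,
            if_neg hy]
        have hx2 : 0 < ‖p1 z‖ ^ 2 := by positivity
        have hy2 : 0 < ‖p2 z‖ ^ 2 := by positivity
        rw [b1, h1, p1_j15, p2_j15, vc_norm_ivn, vc_norm_tw, vc_norm_ivn, vc_norm_twi, chh_exp hx2,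
          chh_exp hy2, ← Real.exp_add]
        congr 2
        rw [inv_pow, inv_pow]
        ring
      rw [hb]
      refine Prod.ext rfl ?_
      show _ • j15 _ _ _ = _ • j15 _ _ _
      rw [mul_smul, chh_sm15]
  · intro w n hw
    have key : ∀ c, co1 l w = some c → b1 (j15 c.1 c.2 n) = 0 := by
      intro c hc
      have h1 : g1 (j15 c.1 c.2 n) = gW w := by
        rw [← gW_cH1 l, p1_j15, p2_j15, ← cH1_of_co1 hc]
      rw [b1, h1, zt_zero hw, zero_mul]
    rw [f1]
    rcases hc : co1 l w with _ | c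
    · rfl
    · simp only [ex0, Option.elim]
      rw [key c hc, zero_smul]
      rfl

theorem tsm_f2 {l : ℝ} (hl : 0 < l) : TSm l (f2 l) := by
  refine ⟨?_, ?_, ?_, ?_⟩
  · have hβ : ContDiff ℝ ∞ fun z => zt (gK z) * Real.exp (-‖p1 z‖ ^ 2) :=
      contDiff_zt_gK.mul (chh_p1.norm_sq ℝ).neg.exp
    have h := chh_pack hβ (chh_e chh_p2) (((chh_tw hl).comp chh_p2).clm_apply chh_p1)
      (chh_ivn.comp chh_p2)
    refine chh_congr h fun z => ?_
    rw [f2, co2]
    by_cases hx : p2 z = 0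
    · simp only [hx, if_true, ex0, Option.elim, Function.comp]
      have e0 : expNegInvGlue (‖(0 : En 4)‖ ^ 2) = 0 := expNegInvGlue.zero_of_nonpos (by simp)
      simp only [e0, zero_smul, mul_zero, zero_apply, chh_j0, smul_zero]
      rfl
    · simp only [hx, if_false, ex0, Option.elim, Function.comp]
      have hb : b2 (j15 (tw l (p2 z) (p1 z)) (ivn (p2 z)) (p3 z))
          = (zt (gK z) * Real.exp (-‖p1 z‖ ^ 2)) * expNegInvGlue (‖p2 z‖ ^ 2) := by
        have h1 : g2 (j15 (tw l (p2 z) (p1 z)) (ivn (p2 z)) (p3 z)) = gK z := by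
          rw [← gW_cH2 l, p1_j15, p2_j15, ← k_eq_cH2 l hx, gW_k]
        have hx2 : 0 < ‖p2 z‖ ^ 2 := by positivity
        rw [b2, h1, p1_j15, p2_j15, vc_norm_ivn, vc_norm_tw, chh_exp hx2, mul_assoc, ← Real.exp_add]
        congr 2
        rw [inv_pow]
        ring
      rw [hb]
      refine Prod.ext rfl ?_
      show _ • j15 _ _ _ = _ • j15 _ _ _
      rw [mul_smul, chh_sm15]
      rfl
  · have hβ : ContDiff ℝ ∞ fun z => zt (g1 z) := contDiff_zt.comp contDiff_g1
    have hp : ContDiff ℝ ∞ fun z : En 15 => (p2 z, p1 z) := chh_p2.prodMk chh_p1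
    have h := chh_pack hβ ((chh_e chh_p2).mul (chh_e chh_p1)) ((chh_B hl).comp hp)
      ((chh_A hl).comp hp)
    refine chh_congr h fun z => ?_
    rw [f2, co2_cH1]
    have e0 : expNegInvGlue (‖(0 : En 4)‖ ^ 2) = 0 := expNegInvGlue.zero_of_nonpos (by simp)
    by_cases hx : p1 z = 0
    · simp only [hx, true_or, if_true, ex0, Option.elim, Function.comp]
      simp only [e0, zero_smul, zero_mul, mul_zero, zero_apply, chh_j0, smul_zero]
      rfl
    by_cases hy : p2 z = 0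
    · simp only [hy, or_true, if_true, ex0, Option.elim, Function.comp]
      simp only [e0, zero_smul, zero_mul, mul_zero, zero_apply, chh_j0, smul_zero]
      rfl
    · simp only [hx, hy, or_self, if_false, ex0, Option.elim, Function.comp]
      have hb : b2 (j15 (tw l (twi l (p1 z) (p2 z)) (ivn (p1 z))) (ivn (twi l (p1 z) (p2 z)))
          (p3 z)) = zt (g1 z) * (expNegInvGlue (‖p2 z‖ ^ 2) * expNegInvGlue (‖p1 z‖ ^ 2)) := by
        have h1 : g2 (j15 (tw l (twi l (p1 z) (p2 z)) (ivn (p1 z))) (ivn (twi l (p1 z) (p2 z)))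
            (p3 z)) = g1 z := by
          rw [← gW_cH2 l, p1_j15, p2_j15, ← k_eq_cH2 l (chh_twi_ne l hy), ← gW_cH1 l z, cH1,
            if_neg hx]
        have hx2 : 0 < ‖p1 z‖ ^ 2 := by positivity
        have hy2 : 0 < ‖p2 z‖ ^ 2 := by positivity
        rw [b2, h1, p1_j15, p2_j15, vc_norm_ivn, vc_norm_tw, vc_norm_ivn, vc_norm_twi, chh_exp hx2,
          chh_exp hy2, ← Real.exp_add]
        congr 2
        rw [inv_pow, inv_pow]
        ring
      rw [hb]
      refine Prod.ext rfl ?_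
      show _ • j15 _ _ _ = _ • j15 _ _ _
      rw [mul_smul, chh_sm15]
  · refine chh_congr (contDiff_b2.prodMk (contDiff_b2.smul contDiff_id)) fun z => ?_
    rw [f2, co2_cH2]
    simp [ex0]
  · intro w n hw
    have key : ∀ c, co2 l w = some c → b2 (j15 c.1 c.2 n) = 0 := by
      intro c hc
      have h1 : g2 (j15 c.1 c.2 n) = gW w := by
        rw [← gW_cH2 l, p1_j15, p2_j15, ← cH2_of_co2 hc]
      rw [b2, h1, zt_zero hw, zero_mul]
    rw [f2]
    rcases hc : co2 l w with _ | c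
    · rfl
    · simp only [ex0, Option.elim]
      rw [key c hc, zero_smul]
      rfl

end Pool.Agent.EXO
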