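import Mathlib
import Pool.Agent.EXO.HubA
import Pool.Agent.EXO.Cut
import Pool.Agent.EXO.ExpH

/-!
# EXO / ChK: the weight of `K` and the function `k` in the charts of `W` (part VCL)

PROOF.  `fK (.k x y) n = (bK z, bK z • z)`, `z = j15 x y n`: smooth by `contDiff_bK`.
In the chart `H₁`: `coK (cH1 l x y) = if x = 0 then none else some (ivn x, twi l x y)`; for `x ≠ 0` and `z' = j15 (ivn x) (twi l x y) n`:
`gK z' = g1 z` (`gW_k`, `gW_cH1`), `‖p1 z'‖² + ‖p2 z'‖² = (‖x‖²)⁻¹ + ‖y‖²`, so `bK z' = zt (g1 z) exp(-‖y‖²) expNegInvGlue (‖x‖²)` (`expNegInvGlue t = exp(-t⁻¹)` for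
`t > 0`, `0` for `t ≤ 0`: the formula holds for `x = 0` too).  And `bK z' • z' = zt (g1 z) exp(-‖y‖²) • j15 (e • ivn x) (e • twi l x y) (e • n)`, `e = expNegInvGlue (‖x‖²)`,
where `x ↦ e • ivn x` (degree `-1`) and `x ↦ e • twi l x` (degree `0`, values in `En 4 →L[ℝ] En 4`) are smooth by `contDiff_expH1`.
Chart `H₂`: the same with the roles of `x` and `y` exchanged.
`kW` in the three charts: `et (gK z) * kap (‖p2 z‖²)`, `et (g1 z) * kap (‖p2 z‖²)`, `et (g2 z) * kapi (‖p2 z‖²)` (also for `p1 z = 0` resp. `p2 z = 0`: `kapi 0 = 0`).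
Vanishing: `20000 ≤ gW w` gives `zt = 0`, `et = 0`.
-/

set_option autoImplicit false
set_option maxSynthPendingDepth 3

open Set
open scoped ContDiff Quaternion

namespace Pool.Agent.EXO

private theorem chk_p1 : ContDiff ℝ ∞ p1 :=
  contDiff_euclidean.2 fun _ => contDiff_piLp_apply 2

private theorem chk_p2 : ContDiff ℝ ∞ p2 :=
  contDiff_euclidean.2 fun _ => contDiff_piLp_apply 2

private theorem chk_p3 : ContDiff ℝ ∞ p3 :=
  contDiff_euclidean.2 fun _ => contDiff_piLp_apply 2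

private theorem chk_j0 : j15 0 0 0 = 0 := by
  ext i
  simp only [j15]
  split_ifs <;> simp

private theorem chk_congr {F : Type} [NormedAddCommGroup F] [NormedSpace ℝ F] {f g : En 15 → F}
    (h : ContDiff ℝ ∞ g) (e : ∀ z, f z = g z) : ContDiff ℝ ∞ f := by
  rw [show f = g from funext e]
  exact h

private theorem chk_sm15 (c : ℝ) (a b : En 4) (n : En 7) :
    c • j15 a b n = j15 (c • a) (c • b) (c • n) := by
  ext i
  simp only [j15, PiLp.smul_apply, smul_eq_mul]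
  split_ifs <;> simp

/-- smoothness of the composed maps -/
private theorem chk_pack {β e : En 15 → ℝ} {a b : En 15 → En 4}
    (hβ : ContDiff ℝ ∞ β) (he : ContDiff ℝ ∞ e) (ha : ContDiff ℝ ∞ a) (hb : ContDiff ℝ ∞ b) :
    ContDiff ℝ ∞ fun z => (β z * e z, β z • j15 (a z) (b z) (e z • p3 z)) := by
  refine (hβ.mul he).prodMk (hβ.smul ?_)
  exact vc_contDiff_j15.comp (ha.prodMk (hb.prodMk (he.smul chk_p3)))

private theorem chk_e {q : En 15 → En 4} (hq : ContDiff ℝ ∞ q) :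
    ContDiff ℝ ∞ fun z => expNegInvGlue (‖q z‖ ^ 2) :=
  expNegInvGlue.contDiff.comp (hq.norm_sq ℝ)

private theorem chk_exp {r : ℝ} (hr : 0 < r) : expNegInvGlue r = Real.exp (-r⁻¹) := by
  simp [expNegInvGlue, not_le.2 hr]

private theorem chk_ivn : ContDiff ℝ ∞ fun x : En 4 => expNegInvGlue (‖x‖ ^ 2) • ivn x := by
  refine contDiff_expH1 (-1) ivn vc_contDiffOn_ivn ?_
  intro r hr x hx
  rw [ivn_smul hr, zpow_neg_one]

private theorem chk_twi {l : ℝ} (hl : 0 < l) :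
    ContDiff ℝ ∞ fun x : En 4 => expNegInvGlue (‖x‖ ^ 2) • twi l x := by
  refine contDiff_expH1 0 (twi l) (vc_contDiffOn_twi hl) ?_
  intro r hr x hx
  rw [vc_twi_smul l hr, zpow_zero, one_smul]

private theorem chk_bK {l : ℝ} (x y : En 4) (n : En 7) (hx : x ≠ 0) (g : ℝ)
    (hg : gW (.k (ivn x) (twi l x y)) = g) :
    bK (j15 (ivn x) (twi l x y) n)
      = (zt g * Real.exp (-‖y‖ ^ 2)) * expNegInvGlue (‖x‖ ^ 2) := by
  have h1 : gK (j15 (ivn x) (twi l x y) n) = g := by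
    rw [← gW_k]
    simpa using hg
  have hx2 : 0 < ‖x‖ ^ 2 := by positivity
  rw [bK, h1, p1_j15, p2_j15, vc_norm_ivn, vc_norm_twi, chk_exp hx2, mul_assoc, ← Real.exp_add]
  congr 2
  rw [inv_pow]
  ring

private theorem chk_bK2 {l : ℝ} (x y : En 4) (n : En 7) (hy : y ≠ 0) (g : ℝ)
    (hg : gW (.k (twi l y x) (ivn y)) = g) :
    bK (j15 (twi l y x) (ivn y) n)
      = (zt g * Real.exp (-‖x‖ ^ 2)) * expNegInvGlue (‖y‖ ^ 2) := by
  have h1 : gK (j15 (twi l y x) (ivn y) n) = g := by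
    rw [← gW_k]
    simpa using hg
  have hx2 : 0 < ‖y‖ ^ 2 := by positivity
  rw [bK, h1, p1_j15, p2_j15, vc_norm_ivn, vc_norm_twi, chk_exp hx2, mul_assoc, ← Real.exp_add]
  congr 2
  rw [inv_pow]
  ring

private theorem chk_g1 : ContDiff ℝ ∞ fun z => zt (g1 z) * Real.exp (-‖p2 z‖ ^ 2) :=
  (contDiff_zt.comp contDiff_g1).mul (chk_p2.norm_sq ℝ).neg.exp

private theorem chk_g2 : ContDiff ℝ ∞ fun z => zt (g2 z) * Real.exp (-‖p1 z‖ ^ 2) :=
  (contDiff_zt.comp contDiff_g2).mul (chk_p1.norm_sq ℝ).neg.exp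

theorem tsm_fK {l : ℝ} (hl : 0 < l) : TSm l fK := by
  refine ⟨?_, ?_, ?_, ?_⟩
  · have : (fun z : En 15 => fK (.k (p1 z) (p2 z)) (p3 z)) = fun z => (bK z, bK z • z) := by
      funext z
      simp [fK, coK, ex0]
    rw [this]
    exact contDiff_bK.prodMk (contDiff_bK.smul contDiff_id)
  · have h := chk_pack chk_g1 (chk_e chk_p1) (chk_ivn.comp chk_p1)
      (((chk_twi hl).comp chk_p1).clm_apply chk_p2)
    refine chk_congr h fun z => ?_
    rw [fK, coK_cH1]
    by_cases hx : p1 z = 0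
    · simp only [hx, if_true, ex0, Option.elim, Function.comp]
      have e0 : expNegInvGlue (‖(0 : En 4)‖ ^ 2) = 0 := expNegInvGlue.zero_of_nonpos (by simp)
      simp only [e0, zero_smul, mul_zero, zero_apply, chk_j0, smul_zero]
      rfl
    · simp only [hx, if_false, ex0, Option.elim, Function.comp]
      have hg : gW (.k (ivn (p1 z)) (twi l (p1 z) (p2 z))) = g1 z := by
        rw [← gW_cH1 l z, cH1, if_neg hx]
      rw [chk_bK _ _ _ hx _ hg]
      refine Prod.ext rfl ?_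
      show _ • j15 _ _ _ = _ • j15 _ _ _
      rw [mul_smul, chk_sm15]
      rfl
  · have h := chk_pack chk_g2 (chk_e chk_p2) 
      (((chk_twi hl).comp chk_p2).clm_apply chk_p1) (chk_ivn.comp chk_p2)
    refine chk_congr h fun z => ?_
    rw [fK, coK_cH2]
    by_cases hx : p2 z = 0
    · simp only [hx, if_true, ex0, Option.elim, Function.comp]
      have e0 : expNegInvGlue (‖(0 : En 4)‖ ^ 2) = 0 := expNegInvGlue.zero_of_nonpos (by simp)
      simp only [e0, zero_smul, mul_zero, zero_apply, chk_j0, smul_zero]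
      rfl
    · simp only [hx, if_false, ex0, Option.elim, Function.comp]
      have hg : gW (.k (twi l (p2 z) (p1 z)) (ivn (p2 z))) = g2 z := by
        rw [← gW_cH2 l z, cH2, if_neg hx]
      rw [chk_bK2 _ _ _ hx _ hg]
      refine Prod.ext rfl ?_
      show _ • j15 _ _ _ = _ • j15 _ _ _
      rw [mul_smul, chk_sm15]
      rfl
  · intro w n hw
    cases w with
    | k x y =>
      have h1 : gK (j15 x y n) = gW (.k x y) := by
        rw [← gW_k]
        simp
      simp only [fK, coK, ex0, Option.elim]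
      rw [bK, h1, zt_zero hw, zero_mul, zero_smul]
      rfl
    | h1 y => rfl
    | h2 x => rfl

theorem kW_K (z : En 15) : kW (.k (p1 z) (p2 z)) = et (gK z) * kap (‖p2 z‖ ^ 2) := by
  rw [kW, gW_k]

theorem kW_1 (l : ℝ) (z : En 15) : kW (cH1 l (p1 z) (p2 z)) = et (g1 z) * kap (‖p2 z‖ ^ 2) := by
  rw [← gW_cH1 l z]
  by_cases hx : p1 z = 0
  · rw [cH1, if_pos hx, kW]
  · rw [cH1, if_neg hx, kW, vc_norm_twi]

theorem kW_2 (l : ℝ) (z : En 15) : kW (cH2 l (p1 z) (p2 z)) = et (g2 z) * kapi (‖p2 z‖ ^ 2) := by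
  rw [← gW_cH2 l z]
  by_cases hx : p2 z = 0
  · rw [cH2, if_pos hx, kW, hx]
    simp [kapi]
  · have h2 : ‖p2 z‖ ^ 2 ≠ 0 := by positivity
    rw [cH2, if_neg hx, kW, vc_norm_ivn, kapi, if_neg h2, inv_pow]

theorem tsm_kW (l : ℝ) : TSm l fun (w : WP) (_ : En 7) => kW w := by
  refine ⟨?_, ?_, ?_, ?_⟩
  · simp only [kW_K]
    exact contDiff_et_gK.mul (contDiff_kap.comp (chk_p2.norm_sq ℝ))
  · simp only [kW_1]
    exact (contDiff_et.comp contDiff_g1).mul (contDiff_kap.comp (chk_p2.norm_sq ℝ))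
  · simp only [kW_2]
    exact (contDiff_et.comp contDiff_g2).mul (contDiff_kapi_norm.comp chk_p2)
  · intro w n hw
    have h0 : et (gW w) = 0 := et_zero (by linarith)
    cases w with
    | k x y => simp only [kW, h0, zero_mul]
    | h1 y => simp only [kW, h0, zero_mul]
    | h2 x => rfl

end Pool.Agent.EXO
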