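import Mathlib
import Pool.Agent.EXO.DefG
import Pool.Agent.EXO.TopPc

/-!
# EXO / ClS: a compact set covered by pieces is a closed submanifold (part VCL)

PROOF.  Let `v ∈ X`, `P : VPiece C X g` with `v ∈ P.O`, `z₀ = P.Φ v ∈ dom g N 20000`, `n₀ = p3 z₀ ∈ N`, and a chart `(U', ψ', O', κ')` of `N` with `n₀ ∈ O'`.  Write points of `ℝ^14` as
`(x, y, u)`, `x y ∈ ℝ⁴`, `u ∈ ℝ⁶` (`q1, q2, q3, j14` of DefG).  Chart of `X`:
`U := {w | q3 w ∈ U' ∧ g (j15 (q1 w) (q2 w) (ψ' (q3 w))) < 20000}` (open: `ψ'` is continuous on the open set `U'`, `{g < 20000}` is open),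
`ψ w := P.Ψ (j15 (q1 w) (q2 w) (ψ' (q3 w)))`, `O := {v ∈ P.O | p3 (P.Φ v) ∈ O'}` (open), `κ v := j14 (p1 (P.Φ v)) (p2 (P.Φ v)) (κ' (p3 (P.Φ v)))`.
`ψ` is smooth on `U` (`ψ' u ∈ N ⊆ C.O`: `io n 0 = n`, `io_mem`), `κ` is smooth on `O`.  `left`: `P.Φ (P.Ψ z) = j15 (p1 z) (p2 z) (C.rho (p3 z)) = z` for `p3 z ∈ N` and `κ' (ψ' u) = u`.
`mapsκ`, `right`: for `v ∈ X ∩ O`: `P.Φ v ∈ dom g N 20000`, `p3 (P.Φ v) ∈ N ∩ O'`, `ψ' (κ' n) = n`, `P.Ψ (P.Φ v) = v`.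
-/

set_option autoImplicit false
set_option maxSynthPendingDepth 3

open Set
open scoped ContDiff Quaternion

namespace Pool.Agent.EXO

private theorem ClS_q1 : ContDiff ℝ ∞ q1 := contDiff_toLp fun _ => contDiff_coord _
private theorem ClS_q2 : ContDiff ℝ ∞ q2 := contDiff_toLp fun _ => contDiff_coord _
private theorem ClS_q3 : ContDiff ℝ ∞ q3 := contDiff_toLp fun _ => contDiff_coord _

private theorem ClS_j14 {E : Type*} [NormedAddCommGroup E] [NormedSpace ℝ E] {s : Set E}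
    {x y : E → En 4} {w : E → En 6} (hx : ContDiffOn ℝ ∞ x s) (hy : ContDiffOn ℝ ∞ y s)
    (hw : ContDiffOn ℝ ∞ w s) : ContDiffOn ℝ ∞ (fun e => j14 (x e) (y e) (w e)) s := by
  refine contDiffOn_toLp fun i => ?_
  by_cases h : i.1 < 4
  · simp only [h, dite_true]
    exact (contDiff_coord _).comp_contDiffOn hx
  · by_cases h' : i.1 < 8
    · simp only [h, h', dite_true, dite_false]
      exact (contDiff_coord _).comp_contDiffOn hy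
    · simp only [h, h', dite_false]
      exact (contDiff_coord _).comp_contDiffOn hw

/-- the charts of `X` coming from a piece and a chart of `N` -/
theorem chart_of_piece (N : ClosedSub 6 7) (C : Collar N.carrier) {M : ℕ} (X : Set (En M))
    {g : En 15 → ℝ} (hg : IsOpen {z | g z < 20000}) (P : VPiece C X g)
    {U' : Set (En 6)} {ψ' : En 6 → En 7} {O' : Set (En 7)} {κ' : En 7 → En 6}
    (h : IsChart N.carrier U' ψ' O' κ') :
    IsChart X {w : En 14 | q3 w ∈ U' ∧ g (j15 (q1 w) (q2 w) (ψ' (q3 w))) < 20000}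
      (fun w => P.Ψ (j15 (q1 w) (q2 w) (ψ' (q3 w)))) {v | v ∈ P.O ∧ p3 (P.Φ v) ∈ O'}
      (fun v => j14 (p1 (P.Φ v)) (p2 (P.Φ v)) (κ' (p3 (P.Φ v)))) := by
  have sF : ContDiffOn ℝ ∞ (fun w : En 14 => j15 (q1 w) (q2 w) (ψ' (q3 w))) {w | q3 w ∈ U'} :=
    contDiffOn_j15 ClS_q1.contDiffOn ClS_q2.contDiffOn
      (h.smoothψ.comp ClS_q3.contDiffOn fun _ hz => hz)
  have oU' : IsOpen {w : En 14 | q3 w ∈ U'} := h.openU.preimage ClS_q3.continuous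
  have rho_fix : ∀ n ∈ N.carrier, C.rho n = n := fun n hn => C.rho_fix hn
  have hdom : ∀ w ∈ {w : En 14 | q3 w ∈ U' ∧ g (j15 (q1 w) (q2 w) (ψ' (q3 w))) < 20000},
      j15 (q1 w) (q2 w) (ψ' (q3 w)) ∈ dom g C.O 20000 := by
    intro w hw
    refine ⟨hw.2, ?_⟩
    rw [p3_j15]
    exact C.sub (h.maps _ hw.1).1
  have hPhi : ∀ w ∈ {w : En 14 | q3 w ∈ U' ∧ g (j15 (q1 w) (q2 w) (ψ' (q3 w))) < 20000},
      P.Φ (P.Ψ (j15 (q1 w) (q2 w) (ψ' (q3 w)))) = j15 (q1 w) (q2 w) (ψ' (q3 w)) := by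
    intro w hw
    rw [P.left _ (hdom w hw), p1_j15, p2_j15, p3_j15, rho_fix _ (h.maps _ hw.1).1]
  have hF : ∀ v ∈ X ∩ {v | v ∈ P.O ∧ p3 (P.Φ v) ∈ O'},
      j15 (p1 (P.Φ v)) (p2 (P.Φ v)) (ψ' (κ' (p3 (P.Φ v)))) = P.Φ v := by
    rintro v ⟨hv1, hv2, hv3⟩
    have := P.mapsΦ v ⟨hv1, hv2⟩
    rw [h.right _ ⟨this.2, hv3⟩, j15_p]
  refine ⟨?_, ?_, ?_, ?_, ?_, ?_, ?_, ?_⟩
  · exact sF.continuousOn.isOpen_inter_preimage oU' hg
  · exact (contDiff_p3.continuous.comp_continuousOn P.smoothΦ.continuousOn).isOpen_inter_preimage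
      P.openO h.openO
  · exact P.smoothΨ.comp (sF.mono fun w hw => hw.1) hdom
  · have hs : ContDiffOn ℝ ∞ P.Φ {v | v ∈ P.O ∧ p3 (P.Φ v) ∈ O'} := P.smoothΦ.mono fun v hv => hv.1
    exact ClS_j14 (contDiff_p1.comp_contDiffOn hs) (contDiff_p2.comp_contDiffOn hs)
      (h.smoothκ.comp (contDiff_p3.comp_contDiffOn hs) fun v hv => hv.2)
  · intro u hu
    have h1 := P.maps _ (hdom u hu)
    refine ⟨h1.1, h1.2, ?_⟩
    rw [hPhi u hu, p3_j15]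
    exact (h.maps _ hu.1).2
  · intro u hu
    show j14 _ _ _ = u
    rw [hPhi u hu, p1_j15, p2_j15, p3_j15, h.left _ hu.1, j14_q]
  · intro v hv
    have h1 := P.mapsΦ v ⟨hv.1, hv.2.1⟩
    have h2 := h.mapsκ _ ⟨h1.2, hv.2.2⟩
    refine ⟨?_, ?_⟩
    · rw [q3_j14]
      exact h2
    · rw [q1_j14, q2_j14, q3_j14, hF v hv]
      exact h1.1
  · intro v hv
    show P.Ψ _ = v
    rw [q1_j14, q2_j14, q3_j14, hF v hv]
    exact P.right v ⟨hv.1, hv.2.1⟩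

theorem closedSub_of_pieces (N : ClosedSub 6 7) (C : Collar N.carrier) {M : ℕ} (X : Set (En M))
    (hX : IsCompact X)
    (h : ∀ v ∈ X, ∃ g : En 15 → ℝ, IsOpen {z | g z < 20000} ∧ ∃ P : VPiece C X g, v ∈ P.O) :
    ∃ V : ClosedSub 14 M, V.carrier = X := by
  refine ⟨⟨X, hX, fun v hv => ?_⟩, rfl⟩
  obtain ⟨g, hg, P, hP⟩ := h v hv
  obtain ⟨U', ψ', O', κ', hch, hO'⟩ := N.chart _ (P.mapsΦ v ⟨hv, hP⟩).2
  exact ⟨_, _, _, _, chart_of_piece N C X hg P hch, hP, hO'⟩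

end Pool.Agent.EXO
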