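import Mathlib
import Pool.Agent.EXO.TwA
import Pool.Agent.EXO.TwB
import Pool.Agent.EXO.DefV

/-!
# EXO / TTt: the transition maps `tt = t₂ t₁⁻¹`, `tti = t₁ t₂⁻¹` (parts GLU, VCL)

PROOF.  `tt l X Y = (tw l (twi l X Y) X, twi l X Y)`, `tti l X Y = (twi l Y X, tw l (twi l Y X) Y)`.  With `Y' = twi l X Y`, `X' = tw l Y' X`:
`tti l X' Y' = (twi l Y' X', tw l (twi l Y' X') Y')`, `twi l Y' X' = X` and `tw l X Y' = Y`.  The other one is symmetric.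
Norms: `vc_norm_tw`, `vc_norm_twi`.  Homogeneity: `vc_tw_smul`, `vc_twi_smul`, linearity.  `gS (tt15 l z) = gS z`, `p3` is kept.
`C.R` commutes with `tt15` (it changes only the last component); `C.R (C.R z) = C.R z` for `p3 z ∈ C.O`: `rho (rho m) = rho m` since
`rho m ∈ N` and `rho n = rho (io n 0) = n` for `n ∈ N` (`io_zero`, `io_mem`).
-/

set_option autoImplicit false
set_option maxSynthPendingDepth 3

open Set
open scoped ContDiff Quaternion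

namespace Pool.Agent.EXO

theorem tti_tt (l : ℝ) (X Y : En 4) : tti l (tt l X Y).1 (tt l X Y).2 = (X, Y) := by
  simp only [tt, tti, vc_twi_tw, vc_tw_twi]

theorem tt_tti (l : ℝ) (X Y : En 4) : tt l (tti l X Y).1 (tti l X Y).2 = (X, Y) := by
  simp only [tt, tti, vc_twi_tw, vc_tw_twi]

theorem norm_tt (l : ℝ) (X Y : En 4) : ‖(tt l X Y).1‖ = ‖X‖ ∧ ‖(tt l X Y).2‖ = ‖Y‖ :=
  ⟨vc_norm_tw _ _ _, vc_norm_twi _ _ _⟩

theorem norm_tti (l : ℝ) (X Y : En 4) : ‖(tti l X Y).1‖ = ‖X‖ ∧ ‖(tti l X Y).2‖ = ‖Y‖ :=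
  ⟨vc_norm_twi _ _ _, vc_norm_tw _ _ _⟩

theorem tt_smul (l : ℝ) {r : ℝ} (hr : 0 < r) (X Y : En 4) : tt l (r • X) (r • Y) = r • tt l X Y := by
  simp only [tt, vc_twi_smul l hr, map_smul, vc_tw_smul l hr, Prod.smul_mk]

theorem tti15_tt15 (l : ℝ) (z : En 15) : tti15 l (tt15 l z) = z := by
  simp only [tti15, tt15, p1_j15, p2_j15, p3_j15, tti_tt, j15_p]

theorem tt15_tti15 (l : ℝ) (z : En 15) : tt15 l (tti15 l z) = z := by
  simp only [tti15, tt15, p1_j15, p2_j15, p3_j15, tt_tti, j15_p]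

theorem tt15_comp (l : ℝ) (z : En 15) : ‖p1 (tt15 l z)‖ = ‖p1 z‖ ∧ ‖p2 (tt15 l z)‖ = ‖p2 z‖ ∧
    p3 (tt15 l z) = p3 z ∧ gS (tt15 l z) = gS z := by
  have h := norm_tt l (p1 z) (p2 z)
  refine ⟨?_, ?_, ?_, ?_⟩
  · simp only [tt15, p1_j15, h.1]
  · simp only [tt15, p2_j15, h.2]
  · simp only [tt15, p3_j15]
  · simp only [gS, tt15, p1_j15, p2_j15, h.1, h.2]

theorem tti15_comp (l : ℝ) (z : En 15) : ‖p1 (tti15 l z)‖ = ‖p1 z‖ ∧ ‖p2 (tti15 l z)‖ = ‖p2 z‖ ∧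
    p3 (tti15 l z) = p3 z ∧ gS (tti15 l z) = gS z := by
  have h := norm_tti l (p1 z) (p2 z)
  refine ⟨?_, ?_, ?_, ?_⟩
  · simp only [tti15, p1_j15, h.1]
  · simp only [tti15, p2_j15, h.2]
  · simp only [tti15, p3_j15]
  · simp only [gS, tti15, p1_j15, p2_j15, h.1, h.2]

theorem contDiffOn_tti15 {l : ℝ} (hl : 0 < l) :
    ContDiffOn ℝ ∞ (tti15 l) {z | p1 z ≠ 0 ∧ p2 z ≠ 0} := by
  have h1 : ContDiffOn ℝ ∞ (fun z : En 15 => twi l (p2 z) (p1 z)) {z | p1 z ≠ 0 ∧ p2 z ≠ 0} :=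
    ((vc_contDiffOn_twi hl).comp contDiff_p2.contDiffOn fun z hz => hz.2).clm_apply
      contDiff_p1.contDiffOn
  have h2 : ContDiffOn ℝ ∞ (fun z : En 15 => tw l (twi l (p2 z) (p1 z)) (p2 z))
      {z | p1 z ≠ 0 ∧ p2 z ≠ 0} := by
    refine ((vc_contDiffOn_tw hl).comp h1 fun z hz => ?_).clm_apply contDiff_p2.contDiffOn
    simp only [mem_compl_iff, mem_singleton_iff]
    rw [← norm_eq_zero, vc_norm_twi, norm_eq_zero]
    exact hz.1
  exact vc_contDiff_j15.comp_contDiffOn (h1.prodMk (h2.prodMk contDiff_p3.contDiffOn))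

theorem rho_N {N : Set (En 7)} (C : Collar N) {n : En 7} (hn : n ∈ N) : C.rho n = n ∧ n ∈ C.O := by
  have h := C.io_mem n hn 0 ⟨by norm_num, by norm_num⟩
  rw [C.io_zero n hn] at h
  exact ⟨h.2.1, h.1⟩

theorem R_R {N : Set (En 7)} (C : Collar N) {z : En 15} (hz : p3 z ∈ C.O) :
    C.R (C.R z) = C.R z := by
  have h := (rho_N C (C.io_rho _ hz).1).1
  simp only [Collar.R, p1_j15, p2_j15, p3_j15, h]

theorem R_of_N {N : Set (En 7)} (C : Collar N) {z : En 15} (hz : p3 z ∈ N) : C.R z = z := by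
  simp only [Collar.R, (rho_N C hz).1, j15_p]

theorem R_comp {N : Set (En 7)} (C : Collar N) (z : En 15) :
    p1 (C.R z) = p1 z ∧ p2 (C.R z) = p2 z ∧ p3 (C.R z) = C.rho (p3 z) ∧ gS (C.R z) = gS z ∧
      gK (C.R z) = gK z ∧ g1 (C.R z) = g1 z ∧ g2 (C.R z) = g2 z := by
  refine ⟨?_, ?_, ?_, ?_, ?_, ?_, ?_⟩ <;>
    simp only [Collar.R, gS, gK, g1, g2, p1_j15, p2_j15, p3_j15]

theorem R_tt15 {N : Set (En 7)} (C : Collar N) (l : ℝ) (z : En 15) :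
    C.R (tt15 l z) = tt15 l (C.R z) := by
  simp only [Collar.R, tt15, p1_j15, p2_j15, p3_j15]

theorem contDiffOn_R {N : Set (En 7)} (C : Collar N) : ContDiffOn ℝ ∞ C.R {z | p3 z ∈ C.O} :=
  vc_contDiff_j15.comp_contDiffOn (contDiff_p1.contDiffOn.prodMk (contDiff_p2.contDiffOn.prodMk
    (C.smooth_rho.comp contDiff_p3.contDiffOn fun _ hz => hz)))

end Pool.Agent.EXO
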