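import Mathlib
import Pool.Agent.EXO.HubA
import Pool.Agent.EXO.TTt

/-!
# EXO / GwA: the gluing map with values in `W × N` (part VCL)

PROOF.  `Gw_A1` is the definition.  `Gw_A2`: if `z ∈ A1` too then `p1 (G1 z) ≠ 0` (`interA`), `p2 (G1 z) ≠ 0` (`mapsG1`, `subB1`), `G2 z = tt15 l (G1 z)` and
`cH1_eq_cH2` gives the same point; `p3 (tt15 l w) = p3 w`.
`gW (Gw z) = (gS (G_i z))⁻¹` by `gW_D1`, `gW_D2` (`gS z = ‖p1 z‖² + ‖p2 z‖²`); the bounds come from `close1`, `close2` and `gS z > 10^(-6) > 0`.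
`Gw_R`: `C.R z ∈ A_i ↔ z ∈ A_i`; `G1 (C.R z) = G1 z`: for `z ∈ A1` put `w = G1 z ∈ B1`, `H1 w = C.R z`, `G1 (H1 w) = C.R w = w` (`p3 w ∈ N`, `R_of_N`).  Same for `G2`.
`G_inj`: if `z, z' ∈ A1`: `cH1_inj` gives `p1 (G1 z) = p1 (G1 z')`, `ivn (p2 ..)` equal, hence (`vc_ivn_ivn`) `p2` equal, `p3` equal, so `G1 z = G1 z'` (`j15_p`), then
`C.R z = H1 (G1 z) = C.R z'`, `z = z'` by `R_of_N`.  If `z ∈ A2`, `z' ∈ A2`: same with `cH2`.  If `z ∈ A1`, `z' ∈ A2`, `z ∉ A2`: then `p1 (G1 z) = 0` and `Gw z = cH1 l 0 _ = h1 _`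
while `Gw z' = cH2 l (nonzero) (p2 ..)` is `k _ _` or `h2 _`: contradiction.  Symmetric case the same.
`G_surj`: `end_cases` (`gW w ≠ 0`): `w = cH1 l X (ivn Y)`, `Y ≠ 0`: `gS (j15 X Y n) = (gW w)⁻¹` satisfies the bounds of `surj1`, so `j15 X Y n ∈ B1`; `z = H1 (j15 X Y n)`.
-/

set_option autoImplicit false
set_option maxSynthPendingDepth 3

open Set
open scoped ContDiff Quaternion

namespace Pool.Agent.EXO

namespace GFull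

variable {N : Set (En 7)} {C : Collar N} {l ε : ℝ} (G : GFull C l ε)

include G in
theorem Gw_A1 {z : En 15} (hz : z ∈ G.A1) :
    G.Gw z = cH1 l (p1 (G.G1 z)) (ivn (p2 (G.G1 z))) ∧ G.Gn z = p3 (G.G1 z) := by
  simp only [Gw, Gn, if_pos hz, and_self]

theorem Gw_A2 {z : En 15} (hz : z ∈ G.A2) :
    G.Gw z = cH2 l (ivn (p1 (G.G2 z))) (p2 (G.G2 z)) ∧ G.Gn z = p3 (G.G2 z) := by
  by_cases h1 : z ∈ G.A1
  · have hc := G.compat z ⟨h1, hz⟩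
    have hX : p1 (G.G1 z) ≠ 0 := (G.interA z h1).1 hz
    have hY : p2 (G.G1 z) ≠ 0 := (G.subB1 _ (G.mapsG1 z h1).1).1
    obtain ⟨e1, e2⟩ := G.Gw_A1 h1
    rw [e1, e2, hc]
    simp only [tt15, p1_j15, p2_j15, p3_j15, cH1_eq_cH2 l hX hY, and_self]
  · simp only [Gw, Gn, if_neg h1, and_self]

theorem gW_Gw_A1 {z : En 15} (hz : z ∈ G.A1) : gW (G.Gw z) = (gS (G.G1 z))⁻¹ := by
  rw [(G.Gw_A1 hz).1, gW_D1 l (G.subB1 _ (G.mapsG1 z hz).1).1]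
  rfl

theorem gW_Gw_A2 {z : En 15} (hz : z ∈ G.A2) : gW (G.Gw z) = (gS (G.G2 z))⁻¹ := by
  rw [(G.Gw_A2 hz).1, gW_D2 l (G.subB2 _ (G.mapsG2 z hz).1).1]
  rfl

private theorem GwA_aux {ε s t : ℝ} (hε : ε < 1) (hs : 0 < s) (h1 : (1 - ε) * s < t)
    (h2 : t < (1 + ε) * s) : 0 < t⁻¹ ∧ (1 - ε) * s * t⁻¹ < 1 ∧ 1 < (1 + ε) * s * t⁻¹ := by
  have ht : 0 < t := lt_trans (mul_pos (by linarith) hs) h1
  refine ⟨inv_pos.2 ht, ?_, ?_⟩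
  · rw [← div_eq_mul_inv, div_lt_one ht]
    exact h1
  · rw [← div_eq_mul_inv, one_lt_div ht]
    exact h2

theorem gW_bounds {z : En 15} (hε : ε < 1) (hz : z ∈ G.A1 ∪ G.A2) : 0 < gW (G.Gw z) ∧
    (1 - ε) * gS z * gW (G.Gw z) < 1 ∧ 1 < (1 + ε) * gS z * gW (G.Gw z) := by
  have hs : 0 < gS z := lt_trans (by norm_num) (G.subA z hz).1
  rcases hz with hz | hz
  · rw [G.gW_Gw_A1 hz]
    exact GwA_aux hε hs (G.close1 z hz).1 (G.close1 z hz).2.1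
  · rw [G.gW_Gw_A2 hz]
    exact GwA_aux hε hs (G.close2 z hz).1 (G.close2 z hz).2.1

theorem Gn_mem {z : En 15} (hz : z ∈ G.A1 ∪ G.A2) :
    G.Gn z ∈ N ∧ dist (G.Gn z) (C.rho (p3 z)) < ε := by
  rcases hz with hz | hz
  · rw [(G.Gw_A1 hz).2]
    exact ⟨(G.mapsG1 z hz).2.1, (G.close1 z hz).2.2⟩
  · rw [(G.Gw_A2 hz).2]
    exact ⟨(G.mapsG2 z hz).2.1, (G.close2 z hz).2.2⟩

theorem A_R {z : En 15} (hz : p3 z ∈ C.O) : (C.R z ∈ G.A1 ∪ G.A2 ↔ z ∈ G.A1 ∪ G.A2) := by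
  rw [mem_union, mem_union, ← G.satA1 z hz, ← G.satA2 z hz]

theorem Gw_R {z : En 15} (hz : z ∈ G.A1 ∪ G.A2) : G.Gw (C.R z) = G.Gw z ∧ G.Gn (C.R z) = G.Gn z := by
  have hO : p3 z ∈ C.O := (G.subA z hz).2.2
  rcases hz with hz | hz
  · have h1 : C.R z ∈ G.A1 := (G.satA1 z hO).1 hz
    obtain ⟨a1, a2, a3⟩ := G.mapsG1 z hz
    have h2 : G.G1 (C.R z) = G.G1 z := by
      rw [← a3, (G.mapsH1 _ a1).2.2, R_of_N C a2]
    rw [(G.Gw_A1 h1).1, (G.Gw_A1 h1).2, (G.Gw_A1 hz).1, (G.Gw_A1 hz).2, h2]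
    exact ⟨rfl, rfl⟩
  · have h1 : C.R z ∈ G.A2 := (G.satA2 z hO).1 hz
    obtain ⟨a1, a2, a3⟩ := G.mapsG2 z hz
    have h2 : G.G2 (C.R z) = G.G2 z := by
      rw [← a3, (G.mapsH2 _ a1).2.2, R_of_N C a2]
    rw [(G.Gw_A2 h1).1, (G.Gw_A2 h1).2, (G.Gw_A2 hz).1, (G.Gw_A2 hz).2, h2]
    exact ⟨rfl, rfl⟩

theorem H1_R {w : En 15} (hw : w ∈ G.B1) : G.H1 (C.R w) = G.H1 w := by
  obtain ⟨a1, a2, a3⟩ := G.mapsH1 w hw
  rw [← a3, (G.mapsG1 _ a1).2.2, R_of_N C a2]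

theorem H2_R {w : En 15} (hw : w ∈ G.B2) : G.H2 (C.R w) = G.H2 w := by
  obtain ⟨a1, a2, a3⟩ := G.mapsH2 w hw
  rw [← a3, (G.mapsG2 _ a1).2.2, R_of_N C a2]

private theorem GwA_ivn {x y : En 4} (hx : x ≠ 0) (hy : y ≠ 0) (h : ivn x = ivn y) : x = y := by
  rw [← vc_ivn_ivn hx, h, vc_ivn_ivn hy]

private theorem GwA_j15 {z w : En 15} (h1 : p1 z = p1 w) (h2 : p2 z = p2 w) (h3 : p3 z = p3 w) :
    z = w := by
  rw [← j15_p z, h1, h2, h3, j15_p]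

private theorem GwA_ne (l : ℝ) (y u v : En 4) : cH1 l 0 y ≠ cH2 l u v := by
  unfold cH1 cH2
  rw [if_pos rfl]
  split_ifs <;> simp

theorem G_inj {z z' : En 15} (hz : z ∈ G.A1 ∪ G.A2) (hz' : z' ∈ G.A1 ∪ G.A2) (hn : p3 z ∈ N)
    (hn' : p3 z' ∈ N) (h1 : G.Gw z = G.Gw z') (h2 : G.Gn z = G.Gn z') : z = z' := by
  rcases hz with a | a
  · rcases hz' with b | b
    · rw [(G.Gw_A1 a).1, (G.Gw_A1 b).1] at h1
      rw [(G.Gw_A1 a).2, (G.Gw_A1 b).2] at h2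
      obtain ⟨e1, e2⟩ := cH1_inj h1
      have e3 := GwA_ivn (G.subB1 _ (G.mapsG1 z a).1).1 (G.subB1 _ (G.mapsG1 z' b).1).1 e2
      have e4 := GwA_j15 e1 e3 h2
      rw [← R_of_N C hn, ← (G.mapsG1 z a).2.2, e4, (G.mapsG1 z' b).2.2, R_of_N C hn']
    · by_cases c : z ∈ G.A2
      · rw [(G.Gw_A2 c).1, (G.Gw_A2 b).1] at h1
        rw [(G.Gw_A2 c).2, (G.Gw_A2 b).2] at h2
        obtain ⟨e1, e2⟩ := cH2_inj h1
        have e3 := GwA_ivn (G.subB2 _ (G.mapsG2 z c).1).1 (G.subB2 _ (G.mapsG2 z' b).1).1 e1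
        have e4 := GwA_j15 e3 e2 h2
        rw [← R_of_N C hn, ← (G.mapsG2 z c).2.2, e4, (G.mapsG2 z' b).2.2, R_of_N C hn']
      · exfalso
        have c' : p1 (G.G1 z) = 0 := by
          by_contra h
          exact c ((G.interA z a).2 h)
        rw [(G.Gw_A1 a).1, (G.Gw_A2 b).1, c'] at h1
        exact GwA_ne _ _ _ _ h1
  · rcases hz' with b | b
    · by_cases c : z' ∈ G.A2
      · rw [(G.Gw_A2 a).1, (G.Gw_A2 c).1] at h1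
        rw [(G.Gw_A2 a).2, (G.Gw_A2 c).2] at h2
        obtain ⟨e1, e2⟩ := cH2_inj h1
        have e3 := GwA_ivn (G.subB2 _ (G.mapsG2 z a).1).1 (G.subB2 _ (G.mapsG2 z' c).1).1 e1
        have e4 := GwA_j15 e3 e2 h2
        rw [← R_of_N C hn, ← (G.mapsG2 z a).2.2, e4, (G.mapsG2 z' c).2.2, R_of_N C hn']
      · exfalso
        have c' : p1 (G.G1 z') = 0 := by
          by_contra h
          exact c ((G.interA z' b).2 h)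
        rw [(G.Gw_A2 a).1, (G.Gw_A1 b).1, c'] at h1
        exact GwA_ne _ _ _ _ h1.symm
    · rw [(G.Gw_A2 a).1, (G.Gw_A2 b).1] at h1
      rw [(G.Gw_A2 a).2, (G.Gw_A2 b).2] at h2
      obtain ⟨e1, e2⟩ := cH2_inj h1
      have e3 := GwA_ivn (G.subB2 _ (G.mapsG2 z a).1).1 (G.subB2 _ (G.mapsG2 z' b).1).1 e1
      have e4 := GwA_j15 e3 e2 h2
      rw [← R_of_N C hn, ← (G.mapsG2 z a).2.2, e4, (G.mapsG2 z' b).2.2, R_of_N C hn']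

theorem G_surj {w : WP} {n : En 7} (hn : n ∈ N) (h1 : 1 / (2 * 10 ^ 5) < (gW w)⁻¹)
    (h2 : (gW w)⁻¹ < 2 * 10 ^ 5) :
    ∃ z, z ∈ G.A1 ∪ G.A2 ∧ p3 z ∈ N ∧ G.Gw z = w ∧ G.Gn z = n := by
  have hne : gW w ≠ 0 := by
    intro h
    rw [h, inv_zero] at h1
    norm_num at h1
  rcases end_cases l hne with ⟨X, Y, hY, rfl⟩ | ⟨X, Y, hX, rfl⟩
  · have e1 : (gW (cH1 l X (ivn Y)))⁻¹ = gS (j15 X Y n) := by
      rw [gW_D1 l hY, inv_inv, gS, p1_j15, p2_j15]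
    rw [e1] at h1 h2
    have hb : j15 X Y n ∈ G.B1 := G.surj1 _ h1 h2 (by rw [p3_j15]; exact (rho_N C hn).2)
      (by rw [p2_j15]; exact hY)
    obtain ⟨a1, a2, a3⟩ := G.mapsH1 _ hb
    rw [R_of_N C (by rw [p3_j15]; exact hn)] at a3
    refine ⟨_, Or.inl a1, a2, ?_, ?_⟩
    · rw [(G.Gw_A1 a1).1, a3, p1_j15, p2_j15]
    · rw [(G.Gw_A1 a1).2, a3, p3_j15]
  · have e1 : (gW (cH2 l (ivn X) Y))⁻¹ = gS (j15 X Y n) := by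
      rw [gW_D2 l hX, inv_inv, gS, p1_j15, p2_j15]
    rw [e1] at h1 h2
    have hb : j15 X Y n ∈ G.B2 := G.surj2 _ h1 h2 (by rw [p3_j15]; exact (rho_N C hn).2)
      (by rw [p1_j15]; exact hX)
    obtain ⟨a1, a2, a3⟩ := G.mapsH2 _ hb
    rw [R_of_N C (by rw [p3_j15]; exact hn)] at a3
    refine ⟨_, Or.inr a1, a2, ?_, ?_⟩
    · rw [(G.Gw_A2 a1).1, a3, p1_j15, p2_j15]
    · rw [(G.Gw_A2 a1).2, a3, p3_j15]

end GFull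

end Pool.Agent.EXO
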