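import Mathlib
import Pool.Agent.EXO.GwA

/-!
# EXO / GiA: the inverse of the gluing map and the weight of the source piece on `W × N` (part VCL)

PROOF.  `Gi_iff`: definition (`dif_pos`, `choose_spec`) and uniqueness `G_inj`.
`Gi_D1`: for `w = cH1 l X (ivn Y)`, `Y ≠ 0`, `n ∈ N`: if `j15 X Y n ∈ B1` then `z := H1 (j15 X Y n)` lies in `A1`, `p3 z ∈ N`, `G1 z = C.R (j15 X Y n) = j15 X Y n` and
`Gw z = w`, `Gn z = n`.  Conversely if `Gi w n = some z`: `z ∈ A1 ∪ A2` and `Gw z = w`.  If `z ∉ A1` then `z ∈ A2`, `p2 (G2 z) = 0` (`interA2`) and `Gw z = cH2 l _ 0 = h2 _`, which is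
not of the form `cH1 l X (ivn Y)`; so `z ∈ A1` and `cH1_inj` gives `G1 z = j15 X Y n ∈ B1`.  Same for `D2`.
Smoothness of `fS` in the chart `H₁` (`x' = p1 z`, `y = p2 z`, `n = rho (p3 z)`): put `D z := j15 (p1 z) (ivn (p2 z)) (p3 z)` for `p2 z ≠ 0`; `gS (D z) = (g1 z)⁻¹`.
Open sets: `Oa := {z ∈ dom | p2 z ≠ 0 ∧ D z ∈ B1}`: there (by `Gi_D1` for `C.R (D z)`, `H1_R`) `fS (c1 C l z) = (bS (H1 (D z)), bS (H1 (D z)) • H1 (D z))`, smooth (`p3 (H1 ..) ∈ N`, so
`z` in the formula is `H1 (D z)`).  `Ob := {z ∈ dom | g1 z < 1/50000}`: there `fS = 0`: if `Gi w n = some z'` then `1 < (1 + ε) gS z' gW w` (`gW_bounds`), so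
`gS z' > 50000/(1 + ε) ≥ 20000`, `bS z' = 0`.  The two cover: if `g1 z ≥ 1/50000` then `p2 z ≠ 0`, `1/20000 < gS (D z) ≤ 50000`, so `D z ∈ B1` by `surj1`.
Chart `H₂`: the same with `B2`, `D z = j15 (ivn (p1 z)) (p2 z) (p3 z)`.
Chart `K`: on `{gK z < 1/50000}` it is `0` in the same way; on `{p1 z ≠ 0}` it is the composition of the `H₁` function with the smooth map
`z ↦ j15 (ivn (p1 z)) (tw l (p1 z) (p2 z)) (p3 z)` (`k_eq_cH1`); the two cover (`gK z ≥ 1/50000` implies `p1 z ≠ 0`).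
-/

set_option autoImplicit false
set_option maxSynthPendingDepth 3

open Set
open scoped ContDiff Quaternion

namespace Pool.Agent.EXO

namespace GFull

variable {N : Set (En 7)} {C : Collar N} {l ε : ℝ} (G : GFull C l ε)

theorem Gi_iff {w : WP} {n : En 7} {z : En 15} : G.Gi w n = some z ↔
    (z ∈ G.A1 ∪ G.A2 ∧ p3 z ∈ N ∧ G.Gw z = w ∧ G.Gn z = n) := by
  constructor
  · intro h
    unfold Gi at h
    split_ifs at h with hex
    have h2 := hex.choose_spec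
    rw [Option.some.inj h] at h2
    exact h2
  · intro h
    have hex : ∃ z, (z ∈ G.A1 ∪ G.A2) ∧ p3 z ∈ N ∧ G.Gw z = w ∧ G.Gn z = n := ⟨z, h⟩
    unfold Gi
    rw [dif_pos hex]
    have h2 := hex.choose_spec
    exact congrArg some (G.G_inj h2.1 h.1 h2.2.1 h.2.1 (h2.2.2.1.trans h.2.2.1.symm)
      (h2.2.2.2.trans h.2.2.2.symm))

theorem Gi_D1 {X Y : En 4} {n : En 7} (hY : Y ≠ 0) (hn : n ∈ N) (h : j15 X Y n ∈ G.B1) :
    G.Gi (cH1 l X (ivn Y)) n = some (G.H1 (j15 X Y n)) := by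
  obtain ⟨a1, a2, a3⟩ := G.mapsH1 _ h
  rw [R_of_N C (by rw [p3_j15]; exact hn)] at a3
  refine G.Gi_iff.2 ⟨Or.inl a1, a2, ?_, ?_⟩
  · rw [(G.Gw_A1 a1).1, a3, p1_j15, p2_j15]
  · rw [(G.Gw_A1 a1).2, a3, p3_j15]

private theorem GiA_ne1 (l : ℝ) (y u v : En 4) : cH1 l 0 y ≠ cH2 l u v := by
  unfold cH1 cH2
  rw [if_pos rfl]
  split_ifs <;> simp

private theorem GiA_ne2 (l : ℝ) (y u v : En 4) : cH1 l u v ≠ cH2 l y 0 := by
  unfold cH1 cH2
  rw [if_pos rfl]
  split_ifs <;> simp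

private theorem GiA_j15 {z w : En 15} (h1 : p1 z = p1 w) (h2 : p2 z = p2 w) (h3 : p3 z = p3 w) :
    z = w := by
  rw [← j15_p z, h1, h2, h3, j15_p]

private theorem GiA_ivn {x y : En 4} (hx : x ≠ 0) (hy : y ≠ 0) (h : ivn x = ivn y) : x = y := by
  rw [← vc_ivn_ivn hx, h, vc_ivn_ivn hy]

theorem Gi_D1' {X Y : En 4} {n : En 7} {z : En 15} (hY : Y ≠ 0)
    (h : G.Gi (cH1 l X (ivn Y)) n = some z) : j15 X Y n ∈ G.B1 := by
  obtain ⟨a1, a2, a3, a4⟩ := G.Gi_iff.1 h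
  have hz : z ∈ G.A1 := by
    by_contra hz
    have hz2 : z ∈ G.A2 := a1.resolve_left hz
    have h0 : p2 (G.G2 z) = 0 := by
      by_contra h1
      exact hz ((G.interA2 z hz2).2 h1)
    rw [(G.Gw_A2 hz2).1, h0] at a3
    exact GiA_ne2 _ _ _ _ a3.symm
  rw [(G.Gw_A1 hz).1] at a3
  rw [(G.Gw_A1 hz).2] at a4
  obtain ⟨e1, e2⟩ := cH1_inj a3
  have hb := (G.mapsG1 z hz).1
  have e3 := GiA_ivn (G.subB1 _ hb).1 hY e2
  have e4 : G.G1 z = j15 X Y n :=
    GiA_j15 (by rw [p1_j15]; exact e1) (by rw [p2_j15]; exact e3) (by rw [p3_j15]; exact a4)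
  rw [← e4]
  exact hb

theorem Gi_D2 {X Y : En 4} {n : En 7} (hX : X ≠ 0) (hn : n ∈ N) (h : j15 X Y n ∈ G.B2) :
    G.Gi (cH2 l (ivn X) Y) n = some (G.H2 (j15 X Y n)) := by
  have _ := hX
  obtain ⟨a1, a2, a3⟩ := G.mapsH2 _ h
  rw [R_of_N C (by rw [p3_j15]; exact hn)] at a3
  refine G.Gi_iff.2 ⟨Or.inr a1, a2, ?_, ?_⟩
  · rw [(G.Gw_A2 a1).1, a3, p1_j15, p2_j15]
  · rw [(G.Gw_A2 a1).2, a3, p3_j15]

theorem Gi_D2' {X Y : En 4} {n : En 7} {z : En 15} (hX : X ≠ 0)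
    (h : G.Gi (cH2 l (ivn X) Y) n = some z) : j15 X Y n ∈ G.B2 := by
  obtain ⟨a1, a2, a3, a4⟩ := G.Gi_iff.1 h
  have hz : z ∈ G.A2 := by
    by_contra hz
    have hz2 : z ∈ G.A1 := a1.resolve_right hz
    have h0 : p1 (G.G1 z) = 0 := by
      by_contra h1
      exact hz ((G.interA z hz2).2 h1)
    rw [(G.Gw_A1 hz2).1, h0] at a3
    exact GiA_ne1 _ _ _ _ a3
  rw [(G.Gw_A2 hz).1] at a3
  rw [(G.Gw_A2 hz).2] at a4
  obtain ⟨e1, e2⟩ := cH2_inj a3
  have hb := (G.mapsG2 z hz).1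
  have e3 := GiA_ivn (G.subB2 _ hb).1 hX e1
  have e4 : G.G2 z = j15 X Y n :=
    GiA_j15 (by rw [p1_j15]; exact e3) (by rw [p2_j15]; exact e2) (by rw [p3_j15]; exact a4)
  rw [← e4]
  exact hb

/-! ### Smoothness of `fS` -/

private noncomputable def GiA_E (z : En 15) : ℝ × En 15 := (bS z, bS z • z)

private theorem GiA_smE : ContDiff ℝ ∞ GiA_E := by
  have h1 : ContDiff ℝ ∞ bS := by
    unfold bS zt
    refine contDiff_stp.comp (ContDiff.div_const (contDiff_const.sub ?_) _)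
    unfold gS
    exact (contDiff_p1.norm_sq ℝ).add (contDiff_p2.norm_sq ℝ)
  exact h1.prodMk (h1.smul contDiff_id)

private theorem GiA_zero (hε : ε ≤ 1 / 4) {w : WP} (n : En 7) (h : gW w < 1 / 50000) :
    G.fS (.inl (w, n)) = 0 := by
  change ex0 (G.Gi w n) (fun z => (bS z, bS z • z)) = 0
  rcases hi : G.Gi w n with _ | z
  · rfl
  · obtain ⟨a1, a2, a3, a4⟩ := G.Gi_iff.1 hi
    obtain ⟨b1, b2, b3⟩ := G.gW_bounds (by linarith) a1
    rw [a3] at b1 b2 b3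
    have hs : 0 < gS z := lt_trans (by norm_num) (G.subA z a1).1
    have h4 : 20000 ≤ gS z := by
      by_contra hc
      push Not at hc
      have h5 : (1 + ε) * gS z ≤ 5 / 4 * 20000 := by nlinarith
      have h6 : (1 + ε) * gS z * gW w ≤ 5 / 4 * 20000 * gW w :=
        mul_le_mul_of_nonneg_right h5 b1.le
      nlinarith
    have h7 : bS z = 0 := by
      unfold bS zt stp
      exact Real.smoothTransition.zero_of_nonpos (by linarith)
    change (bS z, bS z • z) = 0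
    rw [h7, zero_smul]
    rfl

private noncomputable def GiA_d1 (z : En 15) : En 15 := j15 (p1 z) (ivn (p2 z)) (p3 z)
private noncomputable def GiA_d2 (z : En 15) : En 15 := j15 (ivn (p1 z)) (p2 z) (p3 z)

private theorem GiA_smd1 {z : En 15} (hz : p2 z ≠ 0) : ContDiffAt ℝ ∞ GiA_d1 z := by
  have h1 : ContDiffAt ℝ ∞ (fun z : En 15 => ivn (p2 z)) z :=
    (vc_contDiffOn_ivn.contDiffAt (isOpen_compl_singleton.mem_nhds hz)).comp z contDiff_p2.contDiffAt
  exact vc_contDiff_j15.contDiffAt.comp z (contDiff_p1.contDiffAt.prodMk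
    (h1.prodMk contDiff_p3.contDiffAt))

private theorem GiA_smd2 {z : En 15} (hz : p1 z ≠ 0) : ContDiffAt ℝ ∞ GiA_d2 z := by
  have h1 : ContDiffAt ℝ ∞ (fun z : En 15 => ivn (p1 z)) z :=
    (vc_contDiffOn_ivn.contDiffAt (isOpen_compl_singleton.mem_nhds hz)).comp z contDiff_p1.contDiffAt
  exact vc_contDiff_j15.contDiffAt.comp z (h1.prodMk
    (contDiff_p2.contDiffAt.prodMk contDiff_p3.contDiffAt))

private theorem GiA_val1 {z : En 15} (hz : p2 z ≠ 0) (h : GiA_d1 z ∈ G.B1) :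
    G.fS (c1 C l z) = GiA_E (G.H1 (GiA_d1 z)) := by
  have hO : p3 z ∈ C.O := by
    have := (G.subB1 _ h).2
    rwa [GiA_d1, p3_j15] at this
  have hn : C.rho (p3 z) ∈ N := (C.io_rho _ hO).1
  have hR : C.R (GiA_d1 z) = j15 (p1 z) (ivn (p2 z)) (C.rho (p3 z)) := by
    rw [Collar.R, GiA_d1, p1_j15, p2_j15, p3_j15]
  have hB : j15 (p1 z) (ivn (p2 z)) (C.rho (p3 z)) ∈ G.B1 := by
    rw [← hR]
    exact (G.satB1 _ (by rw [GiA_d1, p3_j15]; exact hO)).1 h
  have h1 := G.Gi_D1 (ivn_ne_zero hz) hn hB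
  rw [vc_ivn_ivn hz, ← hR, G.H1_R h] at h1
  change ex0 (G.Gi (cH1 l (p1 z) (p2 z)) (C.rho (p3 z))) (fun z => (bS z, bS z • z)) = _
  rw [h1]
  rfl

private theorem GiA_val2 {z : En 15} (hz : p1 z ≠ 0) (h : GiA_d2 z ∈ G.B2) :
    G.fS (c2 C l z) = GiA_E (G.H2 (GiA_d2 z)) := by
  have hO : p3 z ∈ C.O := by
    have := (G.subB2 _ h).2
    rwa [GiA_d2, p3_j15] at this
  have hn : C.rho (p3 z) ∈ N := (C.io_rho _ hO).1
  have hR : C.R (GiA_d2 z) = j15 (ivn (p1 z)) (p2 z) (C.rho (p3 z)) := by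
    rw [Collar.R, GiA_d2, p1_j15, p2_j15, p3_j15]
  have hB : j15 (ivn (p1 z)) (p2 z) (C.rho (p3 z)) ∈ G.B2 := by
    rw [← hR]
    exact (G.satB2 _ (by rw [GiA_d2, p3_j15]; exact hO)).1 h
  have h1 := G.Gi_D2 (ivn_ne_zero hz) hn hB
  rw [vc_ivn_ivn hz, ← hR, G.H2_R h] at h1
  change ex0 (G.Gi (cH2 l (p1 z) (p2 z)) (C.rho (p3 z))) (fun z => (bS z, bS z • z)) = _
  rw [h1]
  rfl

private theorem GiA_cont1 : Continuous g1 := by
  unfold g1
  refine Continuous.div (contDiff_p2.continuous.norm.pow 2) (continuous_const.add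
    ((contDiff_p1.continuous.norm.pow 2).mul (contDiff_p2.continuous.norm.pow 2))) fun z => ?_
  positivity

private theorem GiA_cont2 : Continuous g2 := by
  unfold g2
  refine Continuous.div (contDiff_p1.continuous.norm.pow 2) (continuous_const.add
    ((contDiff_p1.continuous.norm.pow 2).mul (contDiff_p2.continuous.norm.pow 2))) fun z => ?_
  positivity

private theorem GiA_bd {s : ℝ} (h : 1 / 50000 ≤ s⁻¹) (hs : 0 < s) : s ≤ 50000 := by
  rw [one_div] at h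
  exact (inv_le_inv₀ (by norm_num) hs).1 h

private theorem GiA_bd2 {s : ℝ} (h : s⁻¹ < 20000) (hs : 0 < s) : 1 / (2 * 10 ^ 5) < s := by
  have h1 : (20000 : ℝ)⁻¹ < s := by
    rw [inv_lt_comm₀ (by norm_num) hs]
    exact h
  have h2 : (1 : ℝ) / (2 * 10 ^ 5) < 20000⁻¹ := by norm_num
  linarith

private theorem GiA_at1 (hε : ε ≤ 1 / 4) {z : En 15} (hz : g1 z < 20000) (hO : p3 z ∈ C.O) :
    ContDiffAt ℝ ∞ (fun z => G.fS (c1 C l z)) z := by
  by_cases hs : g1 z < 1 / 50000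
  · have h1 : (fun z => G.fS (c1 C l z)) =ᶠ[nhds z] fun _ => 0 := by
      filter_upwards [GiA_cont1.continuousAt.eventually_lt_const hs] with z' hz'
      exact G.GiA_zero hε _ (by rw [gW_cH1]; exact hz')
    exact contDiffAt_const.congr_of_eventuallyEq h1
  · push Not at hs
    have hY : p2 z ≠ 0 := by
      intro h0
      have : g1 z = 0 := by simp [g1, h0]
      rw [this] at hs
      norm_num at hs
    have hpos : 0 < gS (GiA_d1 z) := by
      rw [gS, GiA_d1, p1_j15, p2_j15]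
      have := norm_pos_iff.2 (ivn_ne_zero hY)
      positivity
    have hg : g1 z = (gS (GiA_d1 z))⁻¹ := by
      rw [gS, GiA_d1, p1_j15, p2_j15, ← gW_cH1 l z, ← gW_D1 l (ivn_ne_zero hY), vc_ivn_ivn hY]
    rw [hg] at hs hz
    have hB : GiA_d1 z ∈ G.B1 := by
      refine G.surj1 _ (GiA_bd2 hz hpos) ?_ ?_ ?_
      · have := GiA_bd hs hpos
        linarith
      · rw [GiA_d1, p3_j15]
        exact hO
      · rw [GiA_d1, p2_j15]
        exact ivn_ne_zero hY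
    have hsm := GiA_smd1 hY
    have h1 : (fun z => G.fS (c1 C l z)) =ᶠ[nhds z] fun z => GiA_E (G.H1 (GiA_d1 z)) := by
      filter_upwards [contDiff_p2.continuous.continuousAt.eventually_ne hY,
        hsm.continuousAt.preimage_mem_nhds (G.openB1.mem_nhds hB)] with z' hz' hz''
      exact G.GiA_val1 hz' hz''
    refine ContDiffAt.congr_of_eventuallyEq ?_ h1
    exact GiA_smE.contDiffAt.comp z ((G.smoothH1.contDiffAt (G.openB1.mem_nhds hB)).comp z hsm)

private theorem GiA_at2 (hε : ε ≤ 1 / 4) {z : En 15} (hz : g2 z < 20000) (hO : p3 z ∈ C.O) :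
    ContDiffAt ℝ ∞ (fun z => G.fS (c2 C l z)) z := by
  by_cases hs : g2 z < 1 / 50000
  · have h1 : (fun z => G.fS (c2 C l z)) =ᶠ[nhds z] fun _ => 0 := by
      filter_upwards [GiA_cont2.continuousAt.eventually_lt_const hs] with z' hz'
      exact G.GiA_zero hε _ (by rw [gW_cH2]; exact hz')
    exact contDiffAt_const.congr_of_eventuallyEq h1
  · push Not at hs
    have hX : p1 z ≠ 0 := by
      intro h0
      have : g2 z = 0 := by simp [g2, h0]
      rw [this] at hs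
      norm_num at hs
    have hpos : 0 < gS (GiA_d2 z) := by
      rw [gS, GiA_d2, p1_j15, p2_j15]
      have := norm_pos_iff.2 (ivn_ne_zero hX)
      positivity
    have hg : g2 z = (gS (GiA_d2 z))⁻¹ := by
      rw [gS, GiA_d2, p1_j15, p2_j15, ← gW_cH2 l z, ← gW_D2 l (ivn_ne_zero hX), vc_ivn_ivn hX]
    rw [hg] at hs hz
    have hB : GiA_d2 z ∈ G.B2 := by
      refine G.surj2 _ (GiA_bd2 hz hpos) ?_ ?_ ?_
      · have := GiA_bd hs hpos
        linarith
      · rw [GiA_d2, p3_j15]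
        exact hO
      · rw [GiA_d2, p1_j15]
        exact ivn_ne_zero hX
    have hsm := GiA_smd2 hX
    have h1 : (fun z => G.fS (c2 C l z)) =ᶠ[nhds z] fun z => GiA_E (G.H2 (GiA_d2 z)) := by
      filter_upwards [contDiff_p1.continuous.continuousAt.eventually_ne hX,
        hsm.continuousAt.preimage_mem_nhds (G.openB2.mem_nhds hB)] with z' hz' hz''
      exact G.GiA_val2 hz' hz''
    refine ContDiffAt.congr_of_eventuallyEq ?_ h1
    exact GiA_smE.contDiffAt.comp z ((G.smoothH2.contDiffAt (G.openB2.mem_nhds hB)).comp z hsm)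

theorem fS_1 (hl : 0 < l) (hε : ε ≤ 1 / 4) :
    ContDiffOn ℝ ∞ (fun z => G.fS (c1 C l z)) (dom g1 C.O 20000) := by
  have _ := hl
  exact fun z hz => (G.GiA_at1 hε hz.1 hz.2).contDiffWithinAt

theorem fS_2 (hl : 0 < l) (hε : ε ≤ 1 / 4) :
    ContDiffOn ℝ ∞ (fun z => G.fS (c2 C l z)) (dom g2 C.O 20000) := by
  have _ := hl
  exact fun z hz => (G.GiA_at2 hε hz.1 hz.2).contDiffWithinAt

private noncomputable def GiA_t (l : ℝ) (z : En 15) : En 15 :=
  j15 (ivn (p1 z)) (tw l (p1 z) (p2 z)) (p3 z)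

theorem fS_K (hl : 0 < l) (hε : ε ≤ 1 / 4) :
    ContDiffOn ℝ ∞ (fun z => G.fS (cK C z)) (dom gK C.O 20000) := by
  intro z hz
  refine ContDiffAt.contDiffWithinAt ?_
  by_cases hX : p1 z = 0
  · have h0 : ‖p1 z‖ ^ 2 < 1 / 50000 := by
      rw [hX]
      norm_num
    have h1 : (fun z => G.fS (cK C z)) =ᶠ[nhds z] fun _ => 0 := by
      filter_upwards [(contDiff_p1.continuous.norm.pow 2).continuousAt.eventually_lt_const h0]
        with z' hz'
      replace hz' : ‖p1 z'‖ ^ 2 < 1 / 50000 := hz'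
      refine G.GiA_zero hε _ ?_
      rw [gW_k]
      refine lt_of_le_of_lt ?_ hz'
      unfold gK
      refine div_le_of_le_mul₀ (by positivity) (by positivity) ?_
      nlinarith [sq_nonneg (‖p1 z'‖ ^ 2)]
    exact contDiffAt_const.congr_of_eventuallyEq h1
  · have hsm : ContDiffAt ℝ ∞ (GiA_t l) z := by
      have h1 : ContDiffAt ℝ ∞ (fun z : En 15 => ivn (p1 z)) z :=
        (vc_contDiffOn_ivn.contDiffAt (isOpen_compl_singleton.mem_nhds hX)).comp z
          contDiff_p1.contDiffAt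
      have h2 : ContDiffAt ℝ ∞ (fun z : En 15 => tw l (p1 z)) z :=
        ((vc_contDiffOn_tw hl).contDiffAt (isOpen_compl_singleton.mem_nhds hX)).comp z
          contDiff_p1.contDiffAt
      exact vc_contDiff_j15.contDiffAt.comp z (h1.prodMk
        ((h2.clm_apply contDiff_p2.contDiffAt).prodMk contDiff_p3.contDiffAt))
    have hcK : ∀ z' : En 15, p1 z' ≠ 0 → cK C z' = c1 C l (GiA_t l z') := by
      intro z' hz'
      rw [cK, c1, GiA_t, p1_j15, p2_j15, p3_j15, ← k_eq_cH1 l hz']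
    have h1 : (fun z => G.fS (cK C z)) =ᶠ[nhds z] fun z => G.fS (c1 C l (GiA_t l z)) := by
      filter_upwards [contDiff_p1.continuous.continuousAt.eventually_ne hX] with z' hz'
      rw [hcK z' hz']
    refine ContDiffAt.congr_of_eventuallyEq ?_ h1
    have hg : g1 (GiA_t l z) = gK z := by
      rw [← gW_cH1 l, GiA_t, p1_j15, p2_j15, ← k_eq_cH1 l hX, gW_k]
    have h3 : ContDiffAt ℝ ∞ (fun z => G.fS (c1 C l z)) (GiA_t l z) :=
      G.GiA_at1 hε (by rw [hg]; exact hz.1) (by rw [GiA_t, p3_j15]; exact hz.2)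
    exact h3.comp z hsm

end GFull

end Pool.Agent.EXO
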