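import Mathlib
import Pool.Agent.EXO.GiA
import Pool.Agent.EXO.Cut

/-!
# EXO / Fpt: the map `F` is injective with explicit inverses (part VCL)

PROOF.  `F_chart`: for `z ∈ dom (gi i) C.O 20000` the `i`-th component of `F (c i z)` is `(bi i (C.R z), bi i (C.R z) • C.R z)`: for `i = 1, 2, 3` by `coK`, `co1_cH1`, `co2_cH2` (the `N`-component of
`c i z` is `C.rho (p3 z)`, and `j15 (p1 z) (p2 z) (C.rho (p3 z)) = C.R z`); for `i = 0` see the header of Fsm.
`F_conv`: `h` is a point of the closed manifold (`h = c j z`, `z ∈ dom (gi j) N 20000`) whose `i`-th weight is not `0`.  Then `h = c i z'` with `z' ∈ dom (gi i) N 20000`: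
case `h = inl (w, n)`: note `n ∈ N` (`C.rho (p3 z) ∈ N`, resp. `Gn z ∈ N`) and `gW w < 20000`.  `i = 1`: `coK w = some c`, `w = .k c.1 c.2`, `z' = j15 c.1 c.2 n`, `gK z' = gW w < 20000`.  `i = 2, 3`:
same with `co1`, `co2`.  `i = 0`: `Gi w n = some z'`, `bS z' ≠ 0` so `gS z' < 20000`, `z' ∈ A1 ∪ A2`, `Gw z' = w`, `gW w < 20000`: `cS z' = inl (w, n)`.
case `h = inr z₁`: then `j = 0`, `h = cS z = inr (C.R z) = inr z` (`p3 z ∈ N`), only the `0`-th weight is not `0`; `z' = z`.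
`c_R`: `C.rho (C.rho m) = C.rho m`; for `cS` use `A_R`, `Gw_R`, `R_R`.
`c_inj`: if `c i z = c i z'` with `z, z' ∈ dom (gi i) N 20000` then `F` has the same `i`-th components: `bi i z = bi i z' ≠ 0` and `bi i z • z = bi i z' • z'`.
`trK1`: `k_eq_cH1`.  `trK2`: `k_eq_cH2`.
-/

set_option autoImplicit false
set_option maxSynthPendingDepth 3

open Set
open scoped ContDiff Quaternion

namespace Pool.Agent.EXO

theorem bi_pos (i : Fin 4) {z : En 15} : 0 < bi i z ↔ gi i z < 20000 := by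
  fin_cases i
  · exact bS_pos
  · exact bK_pos
  · exact b1_pos
  · exact b2_pos

private theorem fpt_gi_R {N : Set (En 7)} (C : Collar N) (i : Fin 4) (z : En 15) :
    gi i (C.R z) = gi i z := by
  obtain ⟨-, -, -, h4, h5, h6, h7⟩ := R_comp C z
  fin_cases i
  · exact h4
  · exact h5
  · exact h6
  · exact h7

theorem R_dom {N : Set (En 7)} (C : Collar N) (i : Fin 4) {z : En 15}
    (hz : z ∈ dom (gi i) C.O 20000) : C.R z ∈ dom (gi i) N 20000 := by
  refine ⟨?_, ?_⟩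
  · rw [fpt_gi_R]
    exact hz.1
  · rw [(R_comp C z).2.2.1]
    exact C.rho_mem hz.2

namespace GFull

variable {N : Set (En 7)} {C : Collar N} {l ε : ℝ} (G : GFull C l ε)

theorem c_R (i : Fin 4) {z : En 15} (hz : z ∈ dom (gi i) C.O 20000) :
    G.c i (C.R z) = G.c i z := by
  classical
  obtain ⟨h1, h2, h3, -⟩ := R_comp C z
  have h5 : C.rho (C.rho (p3 z)) = C.rho (p3 z) := C.rho_fix (C.rho_mem hz.2)
  fin_cases i
  · change G.cS (C.R z) = G.cS z
    by_cases h : z ∈ G.A1 ∪ G.A2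
    · have h' : C.R z ∈ G.A1 ∪ G.A2 := (G.A_R hz.2).2 h
      unfold cS
      rw [(G.Gw_R h).1, (G.Gw_R h).2, R_R C hz.2]
      by_cases hw : gW (G.Gw z) < 20000
      · rw [if_pos ⟨h', hw⟩, if_pos ⟨h, hw⟩]
      · rw [if_neg (fun hh => hw hh.2), if_neg (fun hh => hw hh.2)]
    · have h' : ¬ C.R z ∈ G.A1 ∪ G.A2 := fun hh => h ((G.A_R hz.2).1 hh)
      unfold cS
      rw [if_neg (fun hh => h' hh.1), if_neg (fun hh => h hh.1), R_R C hz.2]
  · change cK C (C.R z) = cK C z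
    unfold cK
    rw [h1, h2, h3, h5]
  · change c1 C l (C.R z) = c1 C l z
    unfold c1
    rw [h1, h2, h3, h5]
  · change c2 C l (C.R z) = c2 C l z
    unfold c2
    rw [h1, h2, h3, h5]

private theorem fpt_Gi {z : En 15} (hz : p3 z ∈ C.O) (h : z ∈ G.A1 ∪ G.A2) :
    G.Gi (G.Gw z) (G.Gn z) = some (C.R z) := by
  refine G.Gi_iff.2 ⟨(G.A_R hz).2 h, ?_, (G.Gw_R h).1, (G.Gw_R h).2⟩
  rw [(R_comp C z).2.2.1]
  exact C.rho_mem hz

theorem F_chart (i : Fin 4) {z : En 15} (hz : z ∈ dom (gi i) C.O 20000) :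
    (G.F (G.c i z)).1 i = (bi i (C.R z), bi i (C.R z) • C.R z) := by
  classical
  fin_cases i
  · change (G.F (G.cS z)).1 0 = (bS (C.R z), bS (C.R z) • C.R z)
    by_cases h : z ∈ G.A1 ∪ G.A2 ∧ gW (G.Gw z) < 20000
    · have h1 : G.cS z = .inl (G.Gw z, G.Gn z) := by
        unfold cS
        rw [if_pos h]
      rw [h1]
      change ex0 (G.Gi (G.Gw z) (G.Gn z)) (fun z => (bS z, bS z • z)) = _
      rw [G.fpt_Gi hz.2 h.1]
      rfl
    · have h1 : G.cS z = .inr (C.R z) := by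
        unfold cS
        rw [if_neg h]
      rw [h1]
      rfl
  · rfl
  · change ex0 (co1 l (cH1 l (p1 z) (p2 z)))
      (fun c => (b1 (j15 c.1 c.2 (C.rho (p3 z))), b1 (j15 c.1 c.2 (C.rho (p3 z))) •
        j15 c.1 c.2 (C.rho (p3 z)))) = _
    rw [co1_cH1]
    rfl
  · change ex0 (co2 l (cH2 l (p1 z) (p2 z)))
      (fun c => (b2 (j15 c.1 c.2 (C.rho (p3 z))), b2 (j15 c.1 c.2 (C.rho (p3 z))) •
        j15 c.1 c.2 (C.rho (p3 z)))) = _
    rw [co2_cH2]
    rfl

private theorem fpt_cases (j : Fin 4) {z : En 15} (hz : z ∈ dom (gi j) N 20000) :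
    (∃ w n, G.c j z = .inl (w, n) ∧ n ∈ N ∧ gW w < 20000) ∨
      ∃ z0, G.c j z = .inr z0 ∧ G.cS z0 = .inr z0 ∧ z0 ∈ dom gS N 20000 := by
  classical
  have hN : C.rho (p3 z) ∈ N := by
    rw [C.rho_fix hz.2]
    exact hz.2
  fin_cases j
  · by_cases h : z ∈ G.A1 ∪ G.A2 ∧ gW (G.Gw z) < 20000
    · have h1 : G.cS z = .inl (G.Gw z, G.Gn z) := by
        unfold cS
        rw [if_pos h]
      exact Or.inl ⟨_, _, h1, (G.Gn_mem h.1).1, h.2⟩
    · have h1 : G.cS z = .inr (C.R z) := by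
        unfold cS
        rw [if_neg h]
      rw [R_of_N C hz.2] at h1
      exact Or.inr ⟨z, h1, h1, hz⟩
  · refine Or.inl ⟨_, _, rfl, hN, ?_⟩
    rw [gW_k]
    exact hz.1
  · refine Or.inl ⟨_, _, rfl, hN, ?_⟩
    rw [gW_cH1]
    exact hz.1
  · refine Or.inl ⟨_, _, rfl, hN, ?_⟩
    rw [gW_cH2]
    exact hz.1

theorem F_conv (i j : Fin 4) {z : En 15} (hz : z ∈ dom (gi j) N 20000)
    (h : ((G.F (G.c j z)).1 i).1 ≠ 0) : ∃ z' ∈ dom (gi i) N 20000, G.c i z' = G.c j z := by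
  classical
  rcases G.fpt_cases j hz with ⟨w, n, h1, hn, hw⟩ | ⟨z0, h1, h2, h3⟩
  · rw [h1] at h ⊢
    fin_cases i
    · change (ex0 (G.Gi w n) (fun z => (bS z, bS z • z))).1 ≠ 0 at h
      cases hG : G.Gi w n with
      | none =>
        rw [hG] at h
        exact absurd rfl h
      | some z' =>
        rw [hG] at h
        change bS z' ≠ 0 at h
        have hp : 0 < bS z' := lt_of_le_of_ne (b_nonneg z').1 (Ne.symm h)
        obtain ⟨ha, hb, hc, hd⟩ := G.Gi_iff.1 hG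
        refine ⟨z', ⟨bS_pos.1 hp, hb⟩, ?_⟩
        change G.cS z' = _
        unfold cS
        rw [if_pos ⟨ha, by rw [hc]; exact hw⟩, hc, hd]
    · change (ex0 (coK w) fun c => (bK (j15 c.1 c.2 n), bK (j15 c.1 c.2 n) • j15 c.1 c.2 n)).1 ≠ 0
        at h
      cases hG : coK w with
      | none =>
        rw [hG] at h
        exact absurd rfl h
      | some c =>
        have hc := coK_of hG
        refine ⟨j15 c.1 c.2 n, ⟨?_, ?_⟩, ?_⟩
        · change gK _ < 20000
          rw [← gW_k, p1_j15, p2_j15, ← hc]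
          exact hw
        · rw [p3_j15]
          exact hn
        · change cK C _ = _
          unfold cK
          rw [p1_j15, p2_j15, p3_j15, C.rho_fix hn, ← hc]
    · change (ex0 (co1 l w) fun c => (b1 (j15 c.1 c.2 n), b1 (j15 c.1 c.2 n) • j15 c.1 c.2 n)).1 ≠ 0
        at h
      cases hG : co1 l w with
      | none =>
        rw [hG] at h
        exact absurd rfl h
      | some c =>
        have hc := cH1_of_co1 hG
        refine ⟨j15 c.1 c.2 n, ⟨?_, ?_⟩, ?_⟩
        · change g1 _ < 20000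
          rw [← gW_cH1 l, p1_j15, p2_j15, ← hc]
          exact hw
        · rw [p3_j15]
          exact hn
        · change c1 C l _ = _
          unfold c1
          rw [p1_j15, p2_j15, p3_j15, C.rho_fix hn, ← hc]
    · change (ex0 (co2 l w) fun c => (b2 (j15 c.1 c.2 n), b2 (j15 c.1 c.2 n) • j15 c.1 c.2 n)).1 ≠ 0
        at h
      cases hG : co2 l w with
      | none =>
        rw [hG] at h
        exact absurd rfl h
      | some c =>
        have hc := cH2_of_co2 hG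
        refine ⟨j15 c.1 c.2 n, ⟨?_, ?_⟩, ?_⟩
        · change g2 _ < 20000
          rw [← gW_cH2 l, p1_j15, p2_j15, ← hc]
          exact hw
        · rw [p3_j15]
          exact hn
        · change c2 C l _ = _
          unfold c2
          rw [p1_j15, p2_j15, p3_j15, C.rho_fix hn, ← hc]
  · rw [h1] at h ⊢
    fin_cases i
    · exact ⟨z0, h3, h2⟩
    · exact absurd rfl h
    · exact absurd rfl h
    · exact absurd rfl h

private theorem fpt_pair (i : Fin 4) {z z' : En 15} (hz : z ∈ dom (gi i) N 20000)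
    (h : ((bi i z, bi i z • z) : ℝ × En 15) = (bi i z', bi i z' • z')) : z = z' := by
  rw [Prod.mk.injEq] at h
  obtain ⟨h1, h2⟩ := h
  have hp : 0 < bi i z := (bi_pos i).2 hz.1
  rw [← h1] at h2
  exact smul_right_injective (En 15) hp.ne' h2

theorem c_inj (i : Fin 4) {z z' : En 15} (hz : z ∈ dom (gi i) N 20000)
    (hz' : z' ∈ dom (gi i) N 20000) (h : G.c i z = G.c i z') : z = z' := by
  have h1 := G.F_chart i (z := z) ⟨hz.1, C.sub hz.2⟩
  have h2 := G.F_chart i (z := z') ⟨hz'.1, C.sub hz'.2⟩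
  rw [h, h2, R_of_N C hz.2, R_of_N C hz'.2] at h1
  exact fpt_pair i hz h1.symm

/-- `F` is injective on the points of the closed manifold -/
theorem F_inj (i j : Fin 4) {z z' : En 15} (hz : z ∈ dom (gi i) N 20000)
    (hz' : z' ∈ dom (gi j) N 20000) (h : G.F (G.c i z) = G.F (G.c j z')) : G.c i z = G.c j z' := by
  have h1 := G.F_chart i (z := z) ⟨hz.1, C.sub hz.2⟩
  rw [R_of_N C hz.2] at h1
  have hp : 0 < bi i z := (bi_pos i).2 hz.1
  have h2 : ((G.F (G.c j z')).1 i).1 ≠ 0 := by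
    rw [← h, h1]
    exact hp.ne'
  obtain ⟨w, hw, hc⟩ := G.F_conv i j hz' h2
  have h3 := G.F_chart i (z := w) ⟨hw.1, C.sub hw.2⟩
  rw [R_of_N C hw.2, hc, ← h, h1] at h3
  rw [fpt_pair i hz h3, hc]

end GFull

end Pool.Agent.EXO
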