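import Mathlib
import Pool.Agent.EXO.Fpt
import Pool.Agent.EXO.Cut

/-!
# EXO / Cov: the closed manifold is covered by compact parts of the charts (part VCL)

`Qc i N`: `{‖q‖² ≤ 10}`, `{‖x‖ ≤ 2, ‖y‖ ≤ 2, gK ≤ 1/3}`, `{‖x'‖ ≤ 1, ‖y‖ ≤ 2, g1 ≤ 1/3}`, `{‖x‖ ≤ 2, ‖y'‖ ≤ 1, g2 ≤ 1/3}`, times `N`.

PROOF.  (a) a point `inl (w, n)` (`n ∈ N`) with `gW w ≤ 1/3`: if `w = .k x y`: `min(‖x‖²,‖y‖²)/2 ≤ gK ≤ 1/3`, so `‖x‖ < 1` or `‖y‖ < 1` (or both).  Say `‖y‖ < 1`: if `‖x‖ ≤ 2` it is in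
`Qc 1`; if `‖x‖ > 2` then `w = cH1 l (ivn x) (tw l x y)` with `‖ivn x‖ < 1/2`, `‖tw l x y‖ = ‖y‖ < 1`: in `Qc 2`.  Case `‖x‖ < 1` symmetric with `cH2`.  `w = .h1 y = cH1 l 0 y`: `gW w = ‖y‖² ≤ 1/3`: `Qc 2`.  `w = .h2 x`: `Qc 3`.
(b) a point `inl (w, n)` with `1/3 < gW w < 20000`: `G_surj` (`(gW w)⁻¹ ∈ (1/20000, 3)`) gives `z ∈ A1 ∪ A2`, `p3 z ∈ N`, `Gw z = w`, `Gn z = n`; `(1 - ε) gS z gW w < 1` so `gS z < 3/(1-ε) ≤ 4 ≤ 10`, and
`cS z = inl (w, n)`: in `Qc 0`.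
(c) a point `inr z₁` comes from `z ∈ dom gS N 20000` with `cS z = inr z`, i.e. `z ∉ A1 ∪ A2` or `gW (Gw z) ≥ 20000`.  In the first case `gS z ≤ 10^(-6)` (`coverA`; `gS z < 20000 < 10^6`), in the second
`(1-ε) gS z 20000 < 1`, `gS z < 1`: in `Qc 0`.
Compactness: closed and bounded in `En 15` (`p3 z ∈ N` compact); `gK` is continuous (`vc_continuous_gK`).
-/

set_option autoImplicit false
set_option maxSynthPendingDepth 3

open Set
open scoped ContDiff Quaternion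

namespace Pool.Agent.EXO

/-- the compact parts of the charts -/
def Qc (N : Set (En 7)) (i : Fin 4) : Set (En 15) :=
  ![{z | gS z ≤ 10 ∧ p3 z ∈ N},
    {z | ‖p1 z‖ ≤ 2 ∧ ‖p2 z‖ ≤ 2 ∧ gK z ≤ 1 / 3 ∧ p3 z ∈ N},
    {z | ‖p1 z‖ ≤ 1 ∧ ‖p2 z‖ ≤ 2 ∧ g1 z ≤ 1 / 3 ∧ p3 z ∈ N},
    {z | ‖p1 z‖ ≤ 2 ∧ ‖p2 z‖ ≤ 1 ∧ g2 z ≤ 1 / 3 ∧ p3 z ∈ N}] i

private theorem Cov_cont_p1 : Continuous p1 := by
  unfold p1
  exact (PiLp.continuous_toLp 2 _).comp (continuous_pi fun i => by fun_prop)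

private theorem Cov_cont_p2 : Continuous p2 := by
  unfold p2
  exact (PiLp.continuous_toLp 2 _).comp (continuous_pi fun i => by fun_prop)

private theorem Cov_cont_p3 : Continuous p3 := by
  unfold p3
  exact (PiLp.continuous_toLp 2 _).comp (continuous_pi fun i => by fun_prop)

private theorem Cov_cont_j15 : Continuous fun p : (En 4 × En 4) × En 7 => j15 p.1.1 p.1.2 p.2 := by
  unfold j15
  refine (PiLp.continuous_toLp 2 _).comp (continuous_pi fun i => ?_)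
  by_cases h : i.1 < 4
  · simp only [h, dite_true]
    fun_prop
  · by_cases h' : i.1 < 8
    · simp only [h, h', dite_true, dite_false]
      fun_prop
    · simp only [h, h', dite_false]
      fun_prop

private theorem Cov_compact {N : Set (En 7)} (hN : IsCompact N) {Q : Set (En 15)} (hQ : IsClosed Q)
    {r : ℝ} (h : ∀ z ∈ Q, ‖p1 z‖ ≤ r ∧ ‖p2 z‖ ≤ r ∧ p3 z ∈ N) : IsCompact Q := by
  have hK : IsCompact ((fun p : (En 4 × En 4) × En 7 => j15 p.1.1 p.1.2 p.2) ''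
      ((Metric.closedBall (0 : En 4) r ×ˢ Metric.closedBall (0 : En 4) r) ×ˢ N)) :=
    (((isCompact_closedBall _ _).prod (isCompact_closedBall _ _)).prod hN).image Cov_cont_j15
  refine hK.of_isClosed_subset hQ fun z hz => ?_
  obtain ⟨h1, h2, h3⟩ := h z hz
  exact ⟨((p1 z, p2 z), p3 z), ⟨⟨mem_closedBall_zero_iff.2 h1, mem_closedBall_zero_iff.2 h2⟩, h3⟩,
    j15_p z⟩

theorem isCompact_Qc {N : Set (En 7)} (hN : IsCompact N) (i : Fin 4) : IsCompact (Qc N i) := by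
  have c1 := Cov_cont_p1.norm
  have c2 := Cov_cont_p2.norm
  have c3 : IsClosed {z : En 15 | p3 z ∈ N} := hN.isClosed.preimage Cov_cont_p3
  fin_cases i
  · change IsCompact {z | gS z ≤ 10 ∧ p3 z ∈ N}
    refine Cov_compact hN ((isClosed_le contDiff_gS.continuous continuous_const).inter c3)
      (r := 4) ?_
    rintro z ⟨h1, h2⟩
    have h1' : ‖p1 z‖ ^ 2 + ‖p2 z‖ ^ 2 ≤ 10 := h1
    refine ⟨?_, ?_, h2⟩
    · nlinarith [norm_nonneg (p1 z), norm_nonneg (p2 z)]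
    · nlinarith [norm_nonneg (p1 z), norm_nonneg (p2 z)]
  · change IsCompact {z | ‖p1 z‖ ≤ 2 ∧ ‖p2 z‖ ≤ 2 ∧ gK z ≤ 1 / 3 ∧ p3 z ∈ N}
    refine Cov_compact hN ((isClosed_le c1 continuous_const).inter
      ((isClosed_le c2 continuous_const).inter
        ((isClosed_le vc_continuous_gK continuous_const).inter c3))) (r := 2) ?_
    rintro z ⟨h1, h2, h3, h4⟩
    exact ⟨h1, h2, h4⟩
  · change IsCompact {z | ‖p1 z‖ ≤ 1 ∧ ‖p2 z‖ ≤ 2 ∧ g1 z ≤ 1 / 3 ∧ p3 z ∈ N}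
    refine Cov_compact hN ((isClosed_le c1 continuous_const).inter
      ((isClosed_le c2 continuous_const).inter
        ((isClosed_le contDiff_g1.continuous continuous_const).inter c3))) (r := 2) ?_
    rintro z ⟨h1, h2, h3, h4⟩
    exact ⟨h1.trans (by norm_num), h2, h4⟩
  · change IsCompact {z | ‖p1 z‖ ≤ 2 ∧ ‖p2 z‖ ≤ 1 ∧ g2 z ≤ 1 / 3 ∧ p3 z ∈ N}
    refine Cov_compact hN ((isClosed_le c1 continuous_const).inter
      ((isClosed_le c2 continuous_const).inter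
        ((isClosed_le contDiff_g2.continuous continuous_const).inter c3))) (r := 2) ?_
    rintro z ⟨h1, h2, h3, h4⟩
    exact ⟨h1, h2.trans (by norm_num), h4⟩

theorem Qc_sub (N : Set (En 7)) (i : Fin 4) : Qc N i ⊆ dom (gi i) N 20000 := by
  fin_cases i
  · rintro z ⟨h1, h2⟩
    exact ⟨lt_of_le_of_lt h1 (by norm_num), h2⟩
  · rintro z ⟨_, _, h1, h2⟩
    exact ⟨lt_of_le_of_lt h1 (by norm_num), h2⟩
  · rintro z ⟨_, _, h1, h2⟩
    exact ⟨lt_of_le_of_lt h1 (by norm_num), h2⟩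
  · rintro z ⟨_, _, h1, h2⟩
    exact ⟨lt_of_le_of_lt h1 (by norm_num), h2⟩

private theorem Cov_K {N : Set (En 7)} {C : Collar N} {l ε : ℝ} (G : GFull C l ε) {x y : En 4}
    {n : En 7} (hn : n ∈ N) (hx : ‖x‖ ≤ 2) (hy : ‖y‖ ≤ 2) (hw : gW (.k x y) ≤ 1 / 3) :
    ∃ i, ∃ z' ∈ Qc N i, G.c i z' = .inl (.k x y, n) := by
  refine ⟨1, j15 x y n, ?_, ?_⟩
  · change ‖p1 (j15 x y n)‖ ≤ 2 ∧ ‖p2 (j15 x y n)‖ ≤ 2 ∧ gK (j15 x y n) ≤ 1 / 3 ∧
      p3 (j15 x y n) ∈ N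
    rw [← gW_k, p1_j15, p2_j15, p3_j15]
    exact ⟨hx, hy, hw, hn⟩
  · change GFull.cK C (j15 x y n) = _
    unfold GFull.cK
    rw [p1_j15, p2_j15, p3_j15, (rho_N C hn).1]

private theorem Cov_1 {N : Set (En 7)} {C : Collar N} {l ε : ℝ} (G : GFull C l ε) {x y : En 4}
    {n : En 7} (hn : n ∈ N) (hx : ‖x‖ ≤ 1) (hy : ‖y‖ ≤ 2) (hw : gW (cH1 l x y) ≤ 1 / 3) :
    ∃ i, ∃ z' ∈ Qc N i, G.c i z' = .inl (cH1 l x y, n) := by
  refine ⟨2, j15 x y n, ?_, ?_⟩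
  · change ‖p1 (j15 x y n)‖ ≤ 1 ∧ ‖p2 (j15 x y n)‖ ≤ 2 ∧ g1 (j15 x y n) ≤ 1 / 3 ∧
      p3 (j15 x y n) ∈ N
    rw [← gW_cH1 l, p1_j15, p2_j15, p3_j15]
    exact ⟨hx, hy, hw, hn⟩
  · change GFull.c1 C l (j15 x y n) = _
    unfold GFull.c1
    rw [p1_j15, p2_j15, p3_j15, (rho_N C hn).1]

private theorem Cov_2 {N : Set (En 7)} {C : Collar N} {l ε : ℝ} (G : GFull C l ε) {x y : En 4}
    {n : En 7} (hn : n ∈ N) (hx : ‖x‖ ≤ 2) (hy : ‖y‖ ≤ 1) (hw : gW (cH2 l x y) ≤ 1 / 3) :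
    ∃ i, ∃ z' ∈ Qc N i, G.c i z' = .inl (cH2 l x y, n) := by
  refine ⟨3, j15 x y n, ?_, ?_⟩
  · change ‖p1 (j15 x y n)‖ ≤ 2 ∧ ‖p2 (j15 x y n)‖ ≤ 1 ∧ g2 (j15 x y n) ≤ 1 / 3 ∧
      p3 (j15 x y n) ∈ N
    rw [← gW_cH2 l, p1_j15, p2_j15, p3_j15]
    exact ⟨hx, hy, hw, hn⟩
  · change GFull.c2 C l (j15 x y n) = _
    unfold GFull.c2
    rw [p1_j15, p2_j15, p3_j15, (rho_N C hn).1]

/-- part (a) -/
private theorem Cov_a {N : Set (En 7)} {C : Collar N} {l ε : ℝ} (G : GFull C l ε) (w : WP)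
    {n : En 7} (hn : n ∈ N) (hw : gW w ≤ 1 / 3) :
    ∃ i, ∃ z' ∈ Qc N i, G.c i z' = .inl (w, n) := by
  cases w with
  | k x y =>
    by_cases hx2 : ‖x‖ ≤ 2
    · by_cases hy2 : ‖y‖ ≤ 2
      · exact Cov_K G hn hx2 hy2 hw
      · push Not at hy2
        have hy0 : y ≠ 0 := by
          rintro rfl
          rw [norm_zero] at hy2
          linarith
        have hx1 : ‖x‖ ≤ 1 := by
          by_contra h
          push Not at h
          have h1 : ‖x‖ ^ 2 * ‖y‖ ^ 2 / (‖x‖ ^ 2 + ‖y‖ ^ 2) ≤ 1 / 3 := hw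
          have h2 : 0 < ‖x‖ ^ 2 + ‖y‖ ^ 2 := by positivity
          rw [div_le_iff₀ h2] at h1
          have h3 : 1 < ‖x‖ ^ 2 := by nlinarith
          have h4 : 1 < ‖y‖ ^ 2 := by nlinarith
          nlinarith
        have e := k_eq_cH2 l (x := x) hy0
        rw [e] at hw ⊢
        refine Cov_2 G hn ?_ ?_ hw
        · rw [vc_norm_tw]
          exact hx2
        · rw [vc_norm_ivn]
          exact inv_le_one_of_one_le₀ (by linarith)
    · push Not at hx2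
      have hx0 : x ≠ 0 := by
        rintro rfl
        rw [norm_zero] at hx2
        linarith
      have hy1 : ‖y‖ ≤ 1 := by
        by_contra h
        push Not at h
        have h1 : ‖x‖ ^ 2 * ‖y‖ ^ 2 / (‖x‖ ^ 2 + ‖y‖ ^ 2) ≤ 1 / 3 := hw
        have h2 : 0 < ‖x‖ ^ 2 + ‖y‖ ^ 2 := by positivity
        rw [div_le_iff₀ h2] at h1
        have h3 : 1 < ‖x‖ ^ 2 := by nlinarith
        have h4 : 1 < ‖y‖ ^ 2 := by nlinarith
        nlinarith
      have e := k_eq_cH1 l (y := y) hx0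
      rw [e] at hw ⊢
      refine Cov_1 G hn ?_ ?_ hw
      · rw [vc_norm_ivn]
        exact inv_le_one_of_one_le₀ (by linarith)
      · rw [vc_norm_tw]
        linarith
  | h1 y =>
    have e : WP.h1 y = cH1 l 0 y := by
      unfold cH1
      rw [if_pos rfl]
    have h1 : ‖y‖ ^ 2 ≤ 1 / 3 := hw
    rw [e] at hw ⊢
    refine Cov_1 G hn (by rw [norm_zero]; norm_num) ?_ hw
    nlinarith [norm_nonneg y]
  | h2 x =>
    have e : WP.h2 x = cH2 l x 0 := by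
      unfold cH2
      rw [if_pos rfl]
    have h1 : ‖x‖ ^ 2 ≤ 1 / 3 := hw
    rw [e] at hw ⊢
    refine Cov_2 G hn ?_ (by rw [norm_zero]; norm_num) hw
    nlinarith [norm_nonneg x]

/-- parts (a), (b) -/
private theorem Cov_ab {N : Set (En 7)} {C : Collar N} {l ε : ℝ} (G : GFull C l ε) (hε : ε ≤ 1 / 4)
    (w : WP) {n : En 7} (hn : n ∈ N) (hw : gW w < 20000) :
    ∃ i, ∃ z' ∈ Qc N i, G.c i z' = .inl (w, n) := by
  by_cases h : gW w ≤ 1 / 3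
  · exact Cov_a G w hn h
  · push Not at h
    have h0 : 0 < gW w := by linarith
    obtain ⟨z, hz, hzN, hGw, hGn⟩ := G.G_surj (w := w) hn (by
        rw [lt_inv_comm₀ (by norm_num) h0]
        norm_num
        linarith) (by
        rw [inv_lt_comm₀ h0 (by norm_num)]
        have : ((2 : ℝ) * 10 ^ 5)⁻¹ < 1 / 3 := by norm_num
        linarith)
    have hb := G.gW_bounds (by linarith) hz
    rw [hGw] at hb
    refine ⟨0, z, ⟨?_, hzN⟩, ?_⟩
    · by_contra h10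
      push Not at h10
      have h1 : (3 / 4 : ℝ) * 10 * (1 / 3) < (1 - ε) * gS z * gW w := by
        have h2 : (3 / 4 : ℝ) * 10 ≤ (1 - ε) * gS z := by nlinarith
        nlinarith
      linarith [hb.2.1]
    · change G.cS z = _
      unfold GFull.cS
      rw [if_pos ⟨hz, by rw [hGw]; exact hw⟩, hGw, hGn]

theorem GFull.cover {N : Set (En 7)} {C : Collar N} {l ε : ℝ} (G : GFull C l ε) (hε : ε ≤ 1 / 4)
    (j : Fin 4) {z : En 15} (hz : z ∈ dom (gi j) N 20000) :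
    ∃ i, ∃ z' ∈ Qc N i, G.c i z' = G.c j z := by
  have hn : p3 z ∈ N := hz.2
  have hrho : C.rho (p3 z) = p3 z := (rho_N C hn).1
  fin_cases j
  · change ∃ i, ∃ z' ∈ Qc N i, G.c i z' = G.cS z
    have hg : gS z < 20000 := hz.1
    by_cases h : z ∈ G.A1 ∪ G.A2 ∧ gW (G.Gw z) < 20000
    · have e : G.cS z = .inl (G.Gw z, G.Gn z) := by
        unfold GFull.cS
        rw [if_pos h]
      rw [e]
      exact Cov_ab G hε _ (G.Gn_mem h.1).1 h.2
    · refine ⟨0, z, ⟨?_, hn⟩, rfl⟩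
      by_contra h10
      push Not at h10
      have hA : z ∈ G.A1 ∪ G.A2 := G.coverA z (by norm_num; linarith) (by norm_num; linarith)
        (rho_N C hn).2
      have hW : 20000 ≤ gW (G.Gw z) := by
        by_contra h'
        push Not at h'
        exact h ⟨hA, h'⟩
      have hb := G.gW_bounds (by linarith) hA
      have h1 : (3 / 4 : ℝ) * 10 * 20000 < (1 - ε) * gS z * gW (G.Gw z) := by
        have h2 : (3 / 4 : ℝ) * 10 < (1 - ε) * gS z := by nlinarith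
        nlinarith
      linarith [hb.2.1]
  · change ∃ i, ∃ z' ∈ Qc N i, G.c i z' = GFull.cK C z
    unfold GFull.cK
    rw [hrho]
    have hg : gK z < 20000 := hz.1
    exact Cov_ab G hε _ hn (by rw [gW_k]; exact hg)
  · change ∃ i, ∃ z' ∈ Qc N i, G.c i z' = GFull.c1 C l z
    unfold GFull.c1
    rw [hrho]
    have hg : g1 z < 20000 := hz.1
    exact Cov_ab G hε _ hn (by rw [gW_cH1]; exact hg)
  · change ∃ i, ∃ z' ∈ Qc N i, G.c i z' = GFull.c2 C l z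
    unfold GFull.c2
    rw [hrho]
    have hg : g2 z < 20000 := hz.1
    exact Cov_ab G hε _ hn (by rw [gW_cH2]; exact hg)

end Pool.Agent.EXO
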