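import Mathlib

/-!
# EXO / CsAlg: matrices over a graded commutative ring (CHN chunk)

Purely algebraic (jet level) identities behind Chern-Simons transgression:
`tr F² = d tr(A dA + 2/3 A³)` and the change of `tr(A dA + 2/3 A³)` under gauge transformations.
-/

set_option autoImplicit false
set_option maxSynthPendingDepth 3

namespace Pool.Agent.EXO

open Matrix

/-- A graded commutative structure on a ring: the parity automorphism `σ`, even elements are
central, odd elements anticommute. -/
structure GrC (R : Type*) [Ring R] where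
  σ : R →+* R
  ss : ∀ x, σ (σ x) = x
  ev : ∀ x y, σ x = x → x * y = y * x
  od : ∀ x y, σ x = -x → σ y = -y → x * y = -(y * x)

namespace GrC

variable {R : Type*} [Ring R] (S : GrC R)
variable {n : Type*} [Fintype n] [DecidableEq n]

/-- All entries even. -/
def MEv {m n : Type*} (X : Matrix m n R) : Prop := ∀ i j, S.σ (X i j) = X i j

/-- All entries odd. -/
def MOd {m n : Type*} (X : Matrix m n R) : Prop := ∀ i j, S.σ (X i j) = - X i j

variable {S}

theorem MEv.mul {l m n : Type*} [Fintype m] {X : Matrix l m R} {Y : Matrix m n R}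
    (hX : S.MEv X) (hY : S.MEv Y) : S.MEv (X * Y) := by
  intro i j
  rw [mul_apply, map_sum]
  exact Finset.sum_congr rfl fun k _ => by rw [map_mul, hX, hY]

theorem MOd.mul {l m n : Type*} [Fintype m] {X : Matrix l m R} {Y : Matrix m n R}
    (hX : S.MOd X) (hY : S.MOd Y) : S.MEv (X * Y) := by
  intro i j
  rw [mul_apply, map_sum]
  exact Finset.sum_congr rfl fun k _ => by rw [map_mul, hX, hY, neg_mul_neg]

theorem MEv.mul_od {l m n : Type*} [Fintype m] {X : Matrix l m R} {Y : Matrix m n R}
    (hX : S.MEv X) (hY : S.MOd Y) : S.MOd (X * Y) := by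
  intro i j
  rw [mul_apply, map_sum, ← Finset.sum_neg_distrib]
  exact Finset.sum_congr rfl fun k _ => by rw [map_mul, hX, hY, mul_neg]

theorem MOd.mul_ev {l m n : Type*} [Fintype m] {X : Matrix l m R} {Y : Matrix m n R}
    (hX : S.MOd X) (hY : S.MEv Y) : S.MOd (X * Y) := by
  intro i j
  rw [mul_apply, map_sum, ← Finset.sum_neg_distrib]
  exact Finset.sum_congr rfl fun k _ => by rw [map_mul, hX, hY, neg_mul]

theorem MEv.add {m n : Type*} {X Y : Matrix m n R} (hX : S.MEv X) (hY : S.MEv Y) :
    S.MEv (X + Y) := fun i j => by rw [Matrix.add_apply, map_add, hX, hY]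

theorem MEv.sub {m n : Type*} {X Y : Matrix m n R} (hX : S.MEv X) (hY : S.MEv Y) :
    S.MEv (X - Y) := fun i j => by rw [Matrix.sub_apply, map_sub, hX, hY]

theorem MEv.neg {m n : Type*} {X : Matrix m n R} (hX : S.MEv X) : S.MEv (-X) :=
  fun i j => by rw [Matrix.neg_apply, map_neg, hX]

theorem MOd.add {m n : Type*} {X Y : Matrix m n R} (hX : S.MOd X) (hY : S.MOd Y) :
    S.MOd (X + Y) := fun i j => by rw [Matrix.add_apply, map_add, hX, hY, neg_add]

theorem MOd.sub {m n : Type*} {X Y : Matrix m n R} (hX : S.MOd X) (hY : S.MOd Y) :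
    S.MOd (X - Y) := fun i j => by rw [Matrix.sub_apply, map_sub, hX, hY]; abel

theorem MOd.neg {m n : Type*} {X : Matrix m n R} (hX : S.MOd X) : S.MOd (-X) :=
  fun i j => by rw [Matrix.neg_apply, map_neg, hX]

/-- Even matrices commute under the trace. -/
theorem tr_ev {m n : Type*} [Fintype m] [Fintype n] {X : Matrix m n R} (hX : S.MEv X)
    (Y : Matrix n m R) : trace (X * Y) = trace (Y * X) := by
  simp only [trace, diag_apply, mul_apply]
  rw [Finset.sum_comm]
  exact Finset.sum_congr rfl fun i _ => Finset.sum_congr rfl fun j _ => S.ev _ _ (hX _ _)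

/-- Odd matrices anticommute under the trace. -/
theorem tr_od {m n : Type*} [Fintype m] [Fintype n] {X : Matrix m n R} (hX : S.MOd X)
    {Y : Matrix n m R} (hY : S.MOd Y) : trace (X * Y) = - trace (Y * X) := by
  simp only [trace, diag_apply, mul_apply]
  rw [Finset.sum_comm, ← Finset.sum_neg_distrib]
  refine Finset.sum_congr rfl fun i _ => ?_
  rw [← Finset.sum_neg_distrib]
  exact Finset.sum_congr rfl fun j _ => S.od _ _ (hX _ _) (hY _ _)

variable {A B : Matrix n n R}

/-- `tr A⁴ = 0` for odd `A` (if 2 is cancellable, stated as `2 tr A⁴ = 0`). -/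
theorem two_tr_four (hA : S.MOd A) : trace (A * A * (A * A)) + trace (A * A * (A * A)) = 0 := by
  have h : trace (A * (A * (A * A))) = - trace (A * (A * A) * A) :=
    tr_od hA (hA.mul_ev (hA.mul hA))
  have h1 : trace (A * A * (A * A)) = trace (A * (A * (A * A))) := by simp only [Matrix.mul_assoc]
  have h2 : trace (A * A * (A * A)) = trace (A * (A * A) * A) := by simp only [Matrix.mul_assoc]
  nth_rewrite 1 [h1]
  rw [h, h2, neg_add_cancel]

theorem two_tr_two (hA : S.MOd A) : trace (A * A) + trace (A * A) = 0 := by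
  have h : trace (A * A) = - trace (A * A) := tr_od hA hA
  nth_rewrite 1 [h]
  exact neg_add_cancel _

theorem tr_ABA (hA : S.MOd A) (hB : S.MEv B) : trace (A * B * A) = - trace (B * A * A) := by
  rw [Matrix.mul_assoc, tr_od hA (hB.mul_od hA)]

theorem tr_AAB (hB : S.MEv B) : trace (A * A * B) = trace (B * A * A) := by
  rw [← tr_ev hB, Matrix.mul_assoc B A A]

/-- cyclicity for three odd matrices. -/
theorem tr_cyc {X Y Z : Matrix n n R} (hX : S.MOd X) (hY : S.MOd Y) :
    trace (X * Y * Z) = trace (Z * X * Y) := by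
  rw [tr_ev (hX.mul hY), Matrix.mul_assoc Z X Y]

end GrC

end Pool.Agent.EXO
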