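import Mathlib
import Pool.Agent.EXO.DefG

/-!
# EXO: definitions of the part GLU (the gluing map)
-/

open Set MeasureTheory Matrix
open scoped ContDiff ENNReal ComplexConjugate Quaternion

namespace Pool.Agent.EXO

/-- The point of `ℝ⁷ = ℝ × ℝ⁶` with the given components. -/
noncomputable def w7 (v : ℝ) (z : En 6) : En 7 := WithLp.toLp 2 fun i => Fin.cases v (fun j => z j) i

/-- The last six coordinates of a point of `ℝ⁷`. -/
noncomputable def z7 (w : En 7) : En 6 := WithLp.toLp 2 fun j => w j.succ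

/-- The point `n`, `t` of the collar belonging to `z = (q, m)`: `n = rho m`, `t = log ‖q‖ / 20`. -/
noncomputable def ioz {N : Set (En 7)} (C : Collar N) (z : En 15) : En 7 :=
  C.io (C.rho (p3 z)) (Real.log (gS z) / 40)

/-- The map `(q, m) ↦ (e^v q/‖q‖, z)`, `(v, z) = κ io(rho m, log ‖q‖ / 20)`. -/
noncomputable def up {N : Set (En 7)} (C : Collar N) (κ : ℝ) (z : En 15) : En 14 :=
  j14 ((Real.exp (κ * ioz C z 0) / Real.sqrt (gS z)) • p1 z)
    ((Real.exp (κ * ioz C z 0) / Real.sqrt (gS z)) • p2 z) (κ • z7 (ioz C z))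

/-- The point of `ℝ⁷` belonging to `w = (q, z)`: `κ⁻¹ (log ‖q‖, z)`. -/
noncomputable def mm (κ : ℝ) (w : En 14) : En 7 := κ⁻¹ • w7 (Real.log (gq w) / 2) (q3 w)

/-- The inverse of `up`. -/
noncomputable def dn {N : Set (En 7)} (C : Collar N) (κ : ℝ) (w : En 14) : En 15 :=
  j15 ((Real.exp (20 * C.sc (mm κ w)) / Real.sqrt (gq w)) • q1 w)
    ((Real.exp (20 * C.sc (mm κ w)) / Real.sqrt (gq w)) • q2 w) (C.rho (mm κ w))

/-- The domain of `up`. -/
def annO {N : Set (En 7)} (C : Collar N) : Set (En 15) :=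
  {z | 0 < gS z ∧ |Real.log (gS z)| < 40 ∧ p3 z ∈ C.O}

/-- The domain of `dn`. -/
def mmO {N : Set (En 7)} (C : Collar N) (κ : ℝ) : Set (En 14) := {w | 0 < gq w ∧ mm κ w ∈ C.O}

/-- The annulus of the source. -/
def annL {N : Set (En 7)} (C : Collar N) : Set (En 15) :=
  {z | 1 / 10 ^ 6 < gS z ∧ gS z < 10 ^ 6 ∧ p3 z ∈ C.O}

/-- A diffeomorphism `j` of the part `cond` of `cyl d` onto the open set `J`, with the inverse `k`. -/
structure HalfJ (d : ℝ) (cond : En 4 → En 4 → Prop) (j k : En 14 → En 14)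
    (J : Set (En 14)) : Prop where
  openc : IsOpen {p : En 4 × En 4 | cond p.1 p.2}
  scale : ∀ r : ℝ, 0 < r → ∀ X Y, cond (r • X) (r • Y) ↔ cond X Y
  openJ : IsOpen J
  j_smooth : ContDiffOn ℝ ∞ j {w | w ∈ cyl d ∧ cond (q1 w) (q2 w)}
  k_smooth : ContDiffOn ℝ ∞ k J
  j_maps : ∀ w, w ∈ cyl d → cond (q1 w) (q2 w) → j w ∈ J ∧ k (j w) = w
  k_maps : ∀ y ∈ J, k y ∈ cyl d ∧ cond (q1 (k y)) (q2 (k y)) ∧ j (k y) = y

/-- The input of the part GLU: the data `J`, the scaling `κ`, the diffeomorphism `g` of `J.Ω` with the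
inverse `g'`. -/
structure GIn {N : Set (En 7)} (C : Collar N) (l : ℝ) where
  J : JData l
  κ : ℝ
  κ_pos : 0 < κ
  κ_lt : ∀ w ∈ C.O, ∀ i, |κ * w i| < J.d
  g : En 14 → En 14
  g' : En 14 → En 14
  g_smooth : ContDiffOn ℝ ∞ g J.Ω
  g_open : IsOpen (g '' J.Ω)
  g'_smooth : ContDiffOn ℝ ∞ g' (g '' J.Ω)
  g_inv : ∀ x ∈ J.Ω, g' (g x) = x

namespace GIn

variable {N : Set (En 7)} {C : Collar N} {l : ℝ} (I : GIn C l)

/-- The image in `ℝ^14` of the source point `z`. -/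
noncomputable def y (z : En 15) : En 14 := I.g (I.J.e (up C I.κ z))

/-- The domain of `G` in the chart `(k, J)`. -/
def A (k : En 14 → En 14) (J : Set (En 14)) : Set (En 15) :=
  {z | z ∈ annL C ∧ I.y z ∈ J ∧ mm I.κ (k (I.y z)) ∈ C.O}

/-- The map `G` in the chart `k`. -/
noncomputable def G (k : En 14 → En 14) (z : En 15) : En 15 := dn C I.κ (k (I.y z))

/-- The source point, in `cyl d`, of the point `w` of the chart `j`. -/
noncomputable def x (j : En 14 → En 14) (w : En 15) : En 14 := I.J.e' (I.g' (j (up C I.κ w)))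

/-- The image of `G` in the chart `j`. -/
def B (cond : En 4 → En 4 → Prop) (j : En 14 → En 14) : Set (En 15) :=
  {w | w ∈ annO C ∧ cond (p1 w) (p2 w) ∧ j (up C I.κ w) ∈ I.g '' I.J.Ω ∧
    mm I.κ (I.x j w) ∈ C.O ∧ dn C I.κ (I.x j w) ∈ annL C}

/-- The inverse of `G` in the chart `j`. -/
noncomputable def H (j : En 14 → En 14) (w : En 15) : En 15 := dn C I.κ (I.x j w)

end GIn

end Pool.Agent.EXO
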