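import Mathlib
import Pool.Agent.EXO.GwA
import Pool.Agent.EXO.Cut

/-!
# EXO / Sext: functions on `W × N` in the chart of the source piece; the projection to `N` (part VCL)

PROOF of `onT_S`.  Let `z ∈ dom gS C.O 20000`.  `f z := onT φ (G.cS z)` is `φ (Gw z) (Gn z)` if `z ∈ A1 ∪ A2` and `gW (Gw z) < 20000`, else `0`; because of `van` it is
`φ (Gw z) (Gn z)` for ALL `z ∈ A1 ∪ A2`.  Open sets: `A1 ∩ dom`: `f z = φ (cH1 l X (ivn Y)) n` with `G1 z = j15 X Y n`, the composition of `h.s1` with the smooth map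
`z ↦ j15 (p1 (G1 z)) (ivn (p2 (G1 z))) (p3 (G1 z))` (`p2 (G1 z) ≠ 0`).  `A2 ∩ dom`: same with `h.s2` and `j15 (ivn (p1 (G2 z))) (p2 (G2 z)) (p3 (G2 z))`.
`{z ∈ dom | gS z < 1/25000}`: `f = 0` there: for `z ∈ A1 ∪ A2`, `1 < (1 + ε) gS z gW (Gw z)`, so `gW (Gw z) > 25000/(1 + ε) ≥ 20000` (`ε ≤ 1/4`).  These three open sets
cover `dom`: `gS z ≥ 1/25000 > 10^(-6)`, `gS z < 20000 < 10^6`, `p3 z ∈ C.O`: `coverA`.
Projection `rs z = C.rho ((1 - ch0 (gS z)) • C.rho (p3 z) + ch0 (gS z) • Gn z)`.  Hypothesis `hρ`: every point `m` with `dist m n < ε` for some `n ∈ N` lies in `C.O` and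
`dist (C.rho m) n < δ`.  For `z ∈ A1 ∪ A2` the convex combination has distance `≤ dist (Gn z) (C.rho (p3 z)) < ε` from `C.rho (p3 z) ∈ N`, so it lies in `C.O`.
For `z ∉ A1 ∪ A2` (in `dom gS`): `gS z ≤ 10^(-6) < 10^(-5)` by `coverA`, `ch0 = 0`, `rs z = C.rho (C.rho (p3 z)) = C.rho (p3 z)`.  Smooth: on `{gS z < 10^(-5)}` it is `C.rho (p3 z)`; on
`A1`: `Gn z = p3 (G1 z)`; on `A2`: `p3 (G2 z)`; `C.rho` is smooth on the open set `C.O`.
`rs_eq`: if `cS z = inl (w, n)` then `z ∈ A1 ∪ A2`, `gW (Gw z) < 20000`, `w = Gw z`, `n = Gn z ∈ N`, `1 < (1+ε) gS z 20000`, so `gS z ≥ 4/10^5`, `ch0 = 1`, `rs z = C.rho (Gn z) = Gn z`.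
-/

set_option autoImplicit false
set_option maxSynthPendingDepth 3

open Set
open scoped ContDiff Quaternion

namespace Pool.Agent.EXO

namespace GFull

variable {N : Set (En 7)} {C : Collar N} {l ε : ℝ} (G : GFull C l ε)

private theorem sext_val (hε : ε ≤ 1 / 4) {F : Type} [NormedAddCommGroup F] [NormedSpace ℝ F]
    {φ : WP → En 7 → F} (h : TSm l φ) {z : En 15} (hz : z ∈ G.A1 ∪ G.A2) :
    onT φ (G.cS z) = φ (G.Gw z) (G.Gn z) := by
  classical
  unfold cS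
  split_ifs with h1
  · rfl
  · have h2 : 20000 ≤ gW (G.Gw z) := by
      by_contra h3
      exact h1 ⟨hz, not_le.1 h3⟩
    rw [h.van _ _ h2]
    rfl

private theorem sext_low (hε : ε ≤ 1 / 4) {z : En 15} (hz : z ∈ G.A1 ∪ G.A2)
    (hw : gW (G.Gw z) < 20000) : 1 / 25000 < gS z := by
  have hb := G.gW_bounds (by linarith) hz
  obtain ⟨hp, -, h1⟩ := hb
  have hs : 0 < gS z := by
    have := (G.subA z hz).1
    linarith [show (0 : ℝ) < 1 / 10 ^ 6 by positivity]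
  by_contra hn
  have hn' : gS z ≤ 1 / 25000 := not_lt.1 hn
  have h2 : (1 + ε) * gS z ≤ 5 / 4 * (1 / 25000) := by
    nlinarith
  have h3 : (1 + ε) * gS z * gW (G.Gw z) ≤ 5 / 4 * (1 / 25000) * gW (G.Gw z) :=
    mul_le_mul_of_nonneg_right h2 hp.le
  have h4 : 5 / 4 * (1 / 25000) * gW (G.Gw z) < 1 := by
    linarith
  linarith

private theorem sext_zero (hε : ε ≤ 1 / 4) {F : Type} [NormedAddCommGroup F] [NormedSpace ℝ F]
    {φ : WP → En 7 → F} {z : En 15} (hz : gS z < 1 / 25000) :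
    onT φ (G.cS z) = 0 := by
  classical
  unfold cS
  split_ifs with h1
  · exact absurd (G.sext_low hε h1.1 h1.2) (not_lt.2 hz.le)
  · rfl

private theorem sext_cover {z : En 15} (hz : z ∈ dom gS C.O 20000) (h : 1 / 10 ^ 6 < gS z) :
    z ∈ G.A1 ∪ G.A2 :=
  G.coverA z h (by have := hz.1; linarith [show (20000 : ℝ) < 10 ^ 6 by norm_num]) hz.2

private theorem sext_ivn {m : ℕ} {E : Type*} [NormedAddCommGroup E] [NormedSpace ℝ E]
    {f : E → En m} {x : E} (hf : ContDiffAt ℝ ∞ f x) (h0 : f x ≠ 0) :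
    ContDiffAt ℝ ∞ (fun y => ivn (f y)) x := by
  have h1 : ContDiffAt ℝ ∞ (ivn : En m → En m) (f x) :=
    vc_contDiffOn_ivn.contDiffAt (isOpen_compl_singleton.mem_nhds h0)
  exact h1.comp x hf

private theorem sext_j15 {E : Type*} [NormedAddCommGroup E] [NormedSpace ℝ E]
    {a b : E → En 4} {c : E → En 7} {x : E} (ha : ContDiffAt ℝ ∞ a x) (hb : ContDiffAt ℝ ∞ b x)
    (hc : ContDiffAt ℝ ∞ c x) : ContDiffAt ℝ ∞ (fun y => j15 (a y) (b y) (c y)) x := by
  have h1 : ContDiffAt ℝ ∞ (fun p : En 4 × En 4 × En 7 => j15 p.1 p.2.1 p.2.2)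
      (a x, b x, c x) := vc_contDiff_j15.contDiffAt
  exact ContDiffAt.comp (g := fun p : En 4 × En 4 × En 7 => j15 p.1 p.2.1 p.2.2)
    (f := fun y => (a y, b y, c y)) x h1 (ha.prodMk (hb.prodMk hc))

theorem onT_S (hl : 0 < l) (hε : ε ≤ 1 / 4) {F : Type} [NormedAddCommGroup F] [NormedSpace ℝ F]
    {φ : WP → En 7 → F} (h : TSm l φ) :
    ContDiffOn ℝ ∞ (fun z => onT φ (G.cS z)) (dom gS C.O 20000) := by
  intro z hz
  refine ContDiffAt.contDiffWithinAt ?_
  by_cases h1 : gS z < 1 / 25000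
  · have hev : (fun z => onT φ (G.cS z)) =ᶠ[nhds z] fun _ => (0 : F) := by
      have ho : IsOpen {z : En 15 | gS z < 1 / 25000} :=
        isOpen_lt contDiff_gS.continuous continuous_const
      filter_upwards [ho.mem_nhds h1] with z' hz'
      exact G.sext_zero hε hz'
    exact contDiffAt_const.congr_of_eventuallyEq hev
  · have h2 : z ∈ G.A1 ∪ G.A2 := G.sext_cover hz (by
      have := not_lt.1 h1
      refine lt_of_lt_of_le ?_ this
      norm_num)
    rcases h2 with h2 | h2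
    · have hev : (fun z => onT φ (G.cS z)) =ᶠ[nhds z] fun z =>
          (fun y : En 15 => φ (cH1 l (p1 y) (p2 y)) (p3 y))
            (j15 (p1 (G.G1 z)) (ivn (p2 (G.G1 z))) (p3 (G.G1 z))) := by
        filter_upwards [G.openA1.mem_nhds h2] with z' hz'
        rw [G.sext_val hε h (Or.inl hz')]
        simp only [p1_j15, p2_j15, p3_j15]
        rw [(G.Gw_A1 hz').1, (G.Gw_A1 hz').2]
      have hG : ContDiffAt ℝ ∞ G.G1 z := G.smoothG1.contDiffAt (G.openA1.mem_nhds h2)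
      have hne : p2 (G.G1 z) ≠ 0 := (G.subB1 _ (G.mapsG1 z h2).1).1
      have hj := sext_j15 (contDiff_p1.contDiffAt.comp z hG)
        (sext_ivn (contDiff_p2.contDiffAt.comp z hG) hne) (contDiff_p3.contDiffAt.comp z hG)
      exact (h.s1.contDiffAt.comp z hj).congr_of_eventuallyEq hev
    · have hev : (fun z => onT φ (G.cS z)) =ᶠ[nhds z] fun z =>
          (fun y : En 15 => φ (cH2 l (p1 y) (p2 y)) (p3 y))
            (j15 (ivn (p1 (G.G2 z))) (p2 (G.G2 z)) (p3 (G.G2 z))) := by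
        filter_upwards [G.openA2.mem_nhds h2] with z' hz'
        rw [G.sext_val hε h (Or.inr hz')]
        simp only [p1_j15, p2_j15, p3_j15]
        rw [(G.Gw_A2 hz').1, (G.Gw_A2 hz').2]
      have hG : ContDiffAt ℝ ∞ G.G2 z := G.smoothG2.contDiffAt (G.openA2.mem_nhds h2)
      have hne : p1 (G.G2 z) ≠ 0 := (G.subB2 _ (G.mapsG2 z h2).1).1
      have hj := sext_j15 (sext_ivn (contDiff_p1.contDiffAt.comp z hG) hne)
        (contDiff_p2.contDiffAt.comp z hG) (contDiff_p3.contDiffAt.comp z hG)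
      exact (h.s2.contDiffAt.comp z hj).congr_of_eventuallyEq hev

private theorem sext_ch0 {z : En 15} (hz : z ∈ dom gS C.O 20000) (h : z ∉ G.A1 ∪ G.A2) :
    ch0 (gS z) = 0 := by
  refine ch0_zero ?_
  by_contra h1
  refine h (G.sext_cover hz ?_)
  have := not_le.1 h1
  refine lt_trans ?_ this
  norm_num

private theorem sext_comb {a b : En 7} {t : ℝ} (h0 : 0 ≤ t) (h1 : t ≤ 1) :
    dist ((1 - t) • a + t • b) a ≤ dist b a := by
  have h2 : (1 - t) • a + t • b - a = t • (b - a) := by module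
  rw [dist_eq_norm, dist_eq_norm, h2, norm_smul, Real.norm_eq_abs, abs_of_nonneg h0]
  exact mul_le_of_le_one_left (norm_nonneg _) h1

private theorem sext_rs {δ : ℝ} (hδ : 0 < ε)
    (hρ : ∀ n ∈ N, ∀ m, dist m n < ε → m ∈ C.O ∧ dist (C.rho m) n < δ) {z : En 15}
    (hz : z ∈ G.A1 ∪ G.A2) :
    (1 - ch0 (gS z)) • C.rho (p3 z) + ch0 (gS z) • G.Gn z ∈ C.O ∧
      dist (C.rho ((1 - ch0 (gS z)) • C.rho (p3 z) + ch0 (gS z) • G.Gn z)) (C.rho (p3 z)) < δ := by
  have hm : C.rho (p3 z) ∈ N := C.rho_mem (G.subA z hz).2.2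
  have hd := (G.Gn_mem hz).2
  have h1 := sext_comb (a := C.rho (p3 z)) (b := G.Gn z) (ch0_mem (gS z)).1 (ch0_mem (gS z)).2
  exact hρ _ hm _ (lt_of_le_of_lt h1 hd)

private theorem sext_eps {z : En 15} (hz : z ∈ G.A1 ∪ G.A2) : 0 < ε :=
  lt_of_le_of_lt dist_nonneg (G.Gn_mem hz).2

private theorem sext_out {z : En 15} (hz : p3 z ∈ C.O) (h : ch0 (gS z) = 0) :
    G.rs z = C.rho (p3 z) := by
  unfold rs
  rw [h, sub_zero, one_smul, zero_smul, add_zero]
  exact C.rho_fix (C.rho_mem hz)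

theorem rs_smooth {δ : ℝ} (hε : ε ≤ 1 / 4)
    (hρ : ∀ n ∈ N, ∀ m, dist m n < ε → m ∈ C.O ∧ dist (C.rho m) n < δ) :
    ContDiffOn ℝ ∞ G.rs (dom gS C.O 20000) := by
  intro z hz
  refine ContDiffAt.contDiffWithinAt ?_
  have hrho : ContDiffAt ℝ ∞ (fun z => C.rho (p3 z)) z :=
    (C.smooth_rho.contDiffAt (C.openO.mem_nhds hz.2)).comp z contDiff_p3.contDiffAt
  have hch : ContDiffAt ℝ ∞ (fun z => ch0 (gS z)) z :=
    (contDiff_ch0.comp contDiff_gS).contDiffAt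
  by_cases h1 : gS z < 1 / 10 ^ 5
  · have hev : G.rs =ᶠ[nhds z] fun z => C.rho (p3 z) := by
      have ho : IsOpen {z : En 15 | gS z < 1 / 10 ^ 5} :=
        isOpen_lt contDiff_gS.continuous continuous_const
      have ho2 : IsOpen {z : En 15 | p3 z ∈ C.O} := C.openO.preimage contDiff_p3.continuous
      filter_upwards [ho.mem_nhds h1, ho2.mem_nhds hz.2] with z' hz' hz2
      exact G.sext_out hz2 (ch0_zero (le_of_lt hz'))
    exact hrho.congr_of_eventuallyEq hev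
  · have h2 : z ∈ G.A1 ∪ G.A2 := G.sext_cover hz (by
      have := not_lt.1 h1
      refine lt_of_lt_of_le ?_ this
      norm_num)
    have hGn : ContDiffAt ℝ ∞ G.Gn z := by
      rcases h2 with h2 | h2
      · have hev : G.Gn =ᶠ[nhds z] fun z => p3 (G.G1 z) := by
          filter_upwards [G.openA1.mem_nhds h2] with z' hz'
          exact (G.Gw_A1 hz').2
        have hG : ContDiffAt ℝ ∞ G.G1 z := G.smoothG1.contDiffAt (G.openA1.mem_nhds h2)
        exact (contDiff_p3.contDiffAt.comp z hG).congr_of_eventuallyEq hev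
      · have hev : G.Gn =ᶠ[nhds z] fun z => p3 (G.G2 z) := by
          filter_upwards [G.openA2.mem_nhds h2] with z' hz'
          exact (G.Gw_A2 hz').2
        have hG : ContDiffAt ℝ ∞ G.G2 z := G.smoothG2.contDiffAt (G.openA2.mem_nhds h2)
        exact (contDiff_p3.contDiffAt.comp z hG).congr_of_eventuallyEq hev
    have hm := (G.sext_rs (G.sext_eps h2) hρ h2).1
    have hc : ContDiffAt ℝ ∞ (fun z => (1 - ch0 (gS z)) • C.rho (p3 z) + ch0 (gS z) • G.Gn z) z :=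
      ((contDiffAt_const.sub hch).smul hrho).add (hch.smul hGn)
    exact (C.smooth_rho.contDiffAt (C.openO.mem_nhds hm)).comp z hc

theorem rs_mem {δ : ℝ} (hδ : 0 < δ) (hε : ε ≤ 1 / 4)
    (hρ : ∀ n ∈ N, ∀ m, dist m n < ε → m ∈ C.O ∧ dist (C.rho m) n < δ) {z : En 15}
    (hz : z ∈ dom gS C.O 20000) : G.rs z ∈ N ∧ dist (G.rs z) (C.rho (p3 z)) < δ := by
  by_cases h : z ∈ G.A1 ∪ G.A2
  · have h1 := G.sext_rs (G.sext_eps h) hρ h
    exact ⟨C.rho_mem h1.1, h1.2⟩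
  · rw [G.sext_out hz.2 (G.sext_ch0 hz h), dist_self]
    exact ⟨C.rho_mem hz.2, hδ⟩

theorem rs_eq (hε : ε ≤ 1 / 4) {z : En 15} {w : WP} {n : En 7} (h : G.cS z = .inl (w, n)) :
    G.rs z = n := by
  classical
  unfold cS at h
  split_ifs at h with h1
  · simp only [Sum.inl.injEq, Prod.mk.injEq] at h
    obtain ⟨-, h2⟩ := h
    have h3 : ch0 (gS z) = 1 := by
      refine ch0_one ?_
      have := G.sext_low hε h1.1 h1.2
      refine le_trans ?_ this.le
      norm_num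
    unfold rs
    rw [h3, sub_self, zero_smul, one_smul, zero_add, ← h2]
    exact C.rho_fix (G.Gn_mem h1.1).1

theorem rs_R {z : En 15} (hz : z ∈ dom gS C.O 20000) : G.rs (C.R z) = G.rs z := by
  obtain ⟨-, -, h3, h4, -⟩ := R_comp C z
  have h5 : C.rho (C.rho (p3 z)) = C.rho (p3 z) := C.rho_fix (C.rho_mem hz.2)
  unfold rs
  rw [h3, h4, h5]
  by_cases h : z ∈ G.A1 ∪ G.A2
  · rw [(G.Gw_R h).2]
  · rw [G.sext_ch0 hz h, zero_smul, zero_smul]

/-- the number `ε` for given `δ` -/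
theorem exists_eps (hN : IsCompact N) {δ : ℝ} (hδ : 0 < δ) (C : Collar N) :
    ∃ ε : ℝ, 0 < ε ∧ ε ≤ 1 / 4 ∧
      ∀ n ∈ N, ∀ m, dist m n < ε → m ∈ C.O ∧ dist (C.rho m) n < δ := by
  have hc : ContinuousOn (fun m => dist (C.rho m) m) C.O :=
    continuous_dist.comp_continuousOn ((ContDiffOn.continuousOn C.smooth_rho).prodMk continuousOn_id)
  have hU : IsOpen (C.O ∩ (fun m => dist (C.rho m) m) ⁻¹' Set.Iio (δ / 2)) :=
    hc.isOpen_inter_preimage C.openO isOpen_Iio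
  have hNU : N ⊆ C.O ∩ (fun m => dist (C.rho m) m) ⁻¹' Set.Iio (δ / 2) := by
    intro n hn
    refine ⟨C.sub hn, ?_⟩
    simp only [mem_preimage, mem_Iio]
    rw [C.rho_fix hn, dist_self]
    positivity
  obtain ⟨η, hη, hsub⟩ := hN.exists_thickening_subset_open hU hNU
  refine ⟨min (min η (δ / 2)) (1 / 4), by positivity, min_le_right _ _, ?_⟩
  intro n hn m hm
  have h1 : dist m n < η := lt_of_lt_of_le hm ((min_le_left _ _).trans (min_le_left _ _))
  have h2 : dist m n < δ / 2 := lt_of_lt_of_le hm ((min_le_left _ _).trans (min_le_right _ _))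
  have h3 : m ∈ Metric.thickening η N := Metric.mem_thickening_iff.2 ⟨n, hn, h1⟩
  obtain ⟨h4, h5⟩ := hsub h3
  simp only [mem_preimage, mem_Iio] at h5
  refine ⟨h4, ?_⟩
  have := dist_triangle (C.rho m) m n
  linarith

end GFull

end Pool.Agent.EXO
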