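import Mathlib
import Pool.Agent.EXO.GiA
import Pool.Agent.EXO.Sext
import Pool.Agent.EXO.ChK
import Pool.Agent.EXO.ChH

/-!
# EXO / Fsm: the map `F` in the four charts is smooth (part VCL)

PROOF.  `G.F h = (![fS h, fK.., f1.., f2..], r, k)`.  It suffices that each component is smooth (`contDiffOn_prodMk`, `contDiffOn_pi`, `Fin.forall_fin_succ`).
Charts `K`, `H₁`, `H₂` (`i = 1, 2, 3`): the `S` component by `fS_K`, `fS_1`, `fS_2`; the `K`, `H₁`, `H₂` components are `TSm` functions (`tsm_fK`, `tsm_f1`, `tsm_f2`) evaluated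
at `(w, C.rho (p3 z))`, i.e. compositions of the smooth functions in `TSm` with the smooth map `C.R` on `{p3 z ∈ C.O}`; `r`-component: `C.rho (p3 z)`; `k`-component: `tsm_kW`.
Chart `S` (`i = 0`): the `S` component of `F (cS z)` is `(bS (C.R z), bS (C.R z) • C.R z)` for all `z ∈ dom gS C.O 20000`: if `cS z = inl (Gw z, Gn z)` then `Gi (Gw z) (Gn z) = some (C.R z)`
(`Gi_iff`, `A_R`, `Gw_R`); otherwise `cS z = inr (C.R z)`.  The other components are `onT φ (cS z)` with `φ = fK, f1 l, f2 l, kW` (`onT_S`), and the `r`-component is `rs z`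
(`rs_eq` in the case `inl`, `rs_R` in the case `inr`; `rs_smooth`).
-/

set_option autoImplicit false
set_option maxSynthPendingDepth 3

open Set
open scoped ContDiff Quaternion

namespace Pool.Agent.EXO

namespace GFull

variable {N : Set (En 7)} {C : Collar N} {l ε : ℝ} (G : GFull C l ε)

private theorem fsm_pack {a b c d : En 15 → ℝ × En 15} {r : En 15 → En 7} {k : En 15 → ℝ}
    {s : Set (En 15)} (ha : ContDiffOn ℝ ∞ a s) (hb : ContDiffOn ℝ ∞ b s)
    (hc : ContDiffOn ℝ ∞ c s) (hd : ContDiffOn ℝ ∞ d s) (hr : ContDiffOn ℝ ∞ r s)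
    (hk : ContDiffOn ℝ ∞ k s) :
    ContDiffOn ℝ ∞ (fun z => ((![a z, b z, c z, d z], r z, k z) : Amb)) s := by
  refine ContDiffOn.prodMk ?_ (hr.prodMk hk)
  refine contDiffOn_pi.2 fun i => ?_
  fin_cases i
  · exact ha
  · exact hb
  · exact hc
  · exact hd

private theorem fsm_R (g : En 15 → ℝ) : ContDiffOn ℝ ∞ C.R (dom g C.O 20000) :=
  (contDiffOn_R C).mono fun _ hz => hz.2

private theorem fsm_rho (g : En 15 → ℝ) :
    ContDiffOn ℝ ∞ (fun z => C.rho (p3 z)) (dom g C.O 20000) := by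
  have h3 : ContDiff ℝ ∞ p3 := contDiff_euclidean.2 fun _ => contDiff_piLp_apply 2
  exact C.smooth_rho.comp h3.contDiffOn fun z hz => hz.2

private theorem fsm_tK {F : Type} [NormedAddCommGroup F] [NormedSpace ℝ F]
    {φ : WP → En 7 → F} (h : TSm l φ) (g : En 15 → ℝ) :
    ContDiffOn ℝ ∞ (fun z => φ (.k (p1 z) (p2 z)) (C.rho (p3 z))) (dom g C.O 20000) := by
  refine (h.sK.comp_contDiffOn (fsm_R (C := C) g)).congr fun z _ => ?_
  have hR := R_comp C z
  simp only [Function.comp, hR.1, hR.2.1, hR.2.2.1]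

private theorem fsm_t1 {F : Type} [NormedAddCommGroup F] [NormedSpace ℝ F]
    {φ : WP → En 7 → F} (h : TSm l φ) (g : En 15 → ℝ) :
    ContDiffOn ℝ ∞ (fun z => φ (cH1 l (p1 z) (p2 z)) (C.rho (p3 z))) (dom g C.O 20000) := by
  refine (h.s1.comp_contDiffOn (fsm_R (C := C) g)).congr fun z _ => ?_
  have hR := R_comp C z
  simp only [Function.comp, hR.1, hR.2.1, hR.2.2.1]

private theorem fsm_t2 {F : Type} [NormedAddCommGroup F] [NormedSpace ℝ F]
    {φ : WP → En 7 → F} (h : TSm l φ) (g : En 15 → ℝ) :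
    ContDiffOn ℝ ∞ (fun z => φ (cH2 l (p1 z) (p2 z)) (C.rho (p3 z))) (dom g C.O 20000) := by
  refine (h.s2.comp_contDiffOn (fsm_R (C := C) g)).congr fun z _ => ?_
  have hR := R_comp C z
  simp only [Function.comp, hR.1, hR.2.1, hR.2.2.1]

private theorem fsm_val (hε : ε ≤ 1 / 4) {z : En 15} (hz : z ∈ dom gS C.O 20000) :
    G.F (G.cS z) = ((![(bS (C.R z), bS (C.R z) • C.R z), onT fK (G.cS z),
      onT (f1 l) (G.cS z), onT (f2 l) (G.cS z)], G.rs z,
      onT (fun (w : WP) (_ : En 7) => kW w) (G.cS z)) : Amb) := by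
  by_cases h : z ∈ G.A1 ∪ G.A2 ∧ gW (G.Gw z) < 20000
  · have hc : G.cS z = .inl (G.Gw z, G.Gn z) := by
      rw [cS]
      exact if_pos h
    have hr := G.rs_eq hε hc
    have hG : G.Gi (G.Gw z) (G.Gn z) = some (C.R z) := by
      rw [G.Gi_iff]
      have h2 := G.Gw_R h.1
      refine ⟨(G.A_R hz.2).2 h.1, ?_, h2.1, h2.2⟩
      rw [(R_comp C z).2.2.1]
      exact (C.io_rho _ hz.2).1
    rw [hc, hr]
    simp only [F, onT, fS, hG, ex0, Option.elim]
  · have hc : G.cS z = .inr (C.R z) := by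
      rw [cS]
      exact if_neg h
    rw [hc]
    simp only [F, onT, fS, G.rs_R hz]

theorem F_smooth (hl : 0 < l) (hε : ε ≤ 1 / 4) {δ : ℝ}
    (hρ : ∀ n ∈ N, ∀ m, dist m n < ε → m ∈ C.O ∧ dist (C.rho m) n < δ) (i : Fin 4) :
    ContDiffOn ℝ ∞ (fun z => G.F (G.c i z)) (dom (gi i) C.O 20000) := by
  have hK := tsm_fK hl
  have h1 := tsm_f1 hl
  have h2 := tsm_f2 hl
  have hk := tsm_kW l
  fin_cases i
  · show ContDiffOn ℝ ∞ (fun z => G.F (G.cS z)) (dom gS C.O 20000)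
    refine ContDiffOn.congr ?_ fun z hz => G.fsm_val hε hz
    refine fsm_pack ?_ (G.onT_S hl hε hK) (G.onT_S hl hε h1) (G.onT_S hl hε h2)
      (G.rs_smooth hε hρ) (G.onT_S hl hε hk)
    have hb := contDiff_bS.comp_contDiffOn (fsm_R (C := C) gS)
    exact hb.prodMk (hb.smul (fsm_R (C := C) gS))
  · show ContDiffOn ℝ ∞ (fun z => G.F (cK C z)) (dom gK C.O 20000)
    exact fsm_pack (G.fS_K hl hε) (fsm_tK hK gK) (fsm_tK h1 gK) (fsm_tK h2 gK) (fsm_rho gK)
      (fsm_tK hk gK)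
  · show ContDiffOn ℝ ∞ (fun z => G.F (c1 C l z)) (dom g1 C.O 20000)
    exact fsm_pack (G.fS_1 hl hε) (fsm_t1 hK g1) (fsm_t1 h1 g1) (fsm_t1 h2 g1) (fsm_rho g1)
      (fsm_t1 hk g1)
  · show ContDiffOn ℝ ∞ (fun z => G.F (c2 C l z)) (dom g2 C.O 20000)
    exact fsm_pack (G.fS_2 hl hε) (fsm_t2 hK g2) (fsm_t2 h1 g2) (fsm_t2 h2 g2) (fsm_rho g2)
      (fsm_t2 hk g2)

/-- the `r`-component in the chart `S` -/
theorem F_rS (hε : ε ≤ 1 / 4) {z : En 15} (hz : z ∈ dom gS C.O 20000) :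
    (G.F (G.cS z)).2.1 = G.rs z := by
  rw [G.fsm_val hε hz]

end GFull

end Pool.Agent.EXO
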