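import Mathlib
import Pool.Agent.EXO.Cov
import Pool.Agent.EXO.Fsm

/-!
# EXO: the closed manifold as a subset of `ℝ^72`
-/

open Set MeasureTheory Matrix
open scoped ContDiff ENNReal ComplexConjugate Quaternion

namespace Pool.Agent.EXO

/-- The ambient space is `ℝ^72`. -/
noncomputable def amb : Amb ≃L[ℝ] En 72 :=
  ContinuousLinearEquiv.ofFinrankEq (by
    simp only [Amb, Module.finrank_prod, Module.finrank_pi_fintype, Module.finrank_self,
      finrank_euclideanSpace_fin]
    simp)

namespace GFull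

variable {N : Set (En 7)} {C : Collar N} {l ε : ℝ} (G : GFull C l ε)

/-- The closed manifold. -/
def X : Set (En 72) := ⋃ i : Fin 4, (fun z => amb (G.F (G.c i z))) '' dom (gi i) N 20000

/-- The properties of the piece `i`. -/
structure IsPc (i : Fin 4) (P : VPiece C G.X (gi i)) : Prop where
  Ψ_eq : ∀ z, P.Ψ z = amb (G.F (G.c i z))
  Φ_eq : ∀ v, P.Φ v = ((amb.symm v).1 i).1⁻¹ • ((amb.symm v).1 i).2
  O_eq : P.O = {v | ((amb.symm v).1 i).1 ≠ 0}

end GFull

end Pool.Agent.EXO
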