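import Mathlib
import Pool.Agent.EXO.DefW
import Pool.Agent.EXO.FmFAd

/-!
# EXO: orientation of the closed manifold, definitions (part VCL)
-/

open Set MeasureTheory Matrix
open scoped ContDiff ENNReal ComplexConjugate Quaternion

namespace Pool.Agent.EXO

/-- The form `dx_1 ⋯ dx_8` on `ℝ^15`. -/
noncomputable def vol8 : FA 15 := (List.ofFn fun i : Fin 8 => of1 (bv (⟨i, by omega⟩ : Fin 15))).prod

/-- The form `dx_1 ⋯ dx_8 ∧ ρ^* vol_N` on `ℝ⁸ × C.O`. -/
noncomputable def volR (N : OrGeo 6 7) (C : Collar N.carrier) (z : En 15) : FA 15 :=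
  vol8 * pbF (fun z => C.rho (p3 z)) N.vol z

/-- `τ` preserves the orientation (`σ > 0`) or reverses it (`σ < 0`) at `z`. -/
def Orp (N : OrGeo 6 7) (C : Collar N.carrier) (σ : ℝ) (τ : En 15 → En 15) (z : En 15) : Prop :=
  ∃ c : ℝ, 0 < σ * c ∧ pbF τ (volR N C) z = (c : ℂ) • volR N C z

/-- The transition map from `K` to `H₁`. -/
noncomputable def tK1 {N : Set (En 7)} (C : Collar N) (l : ℝ) (z : En 15) : En 15 :=
  j15 (ivn (p1 z)) (tw l (p1 z) (p2 z)) (C.rho (p3 z))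

/-- The transition map from `K` to `H₂`. -/
noncomputable def tK2 {N : Set (En 7)} (C : Collar N) (l : ℝ) (z : En 15) : En 15 :=
  j15 (tw l (p2 z) (p1 z)) (ivn (p2 z)) (C.rho (p3 z))

/-- The transition map from `S` to `H₁`. -/
noncomputable def GFull.tS1 {N : Set (En 7)} {C : Collar N} {l ε : ℝ} (G : GFull C l ε)
    (z : En 15) : En 15 := j15 (p1 (G.G1 z)) (ivn (p2 (G.G1 z))) (p3 (G.G1 z))

/-- The transition map from `S` to `H₂`. -/
noncomputable def GFull.tS2 {N : Set (En 7)} {C : Collar N} {l ε : ℝ} (G : GFull C l ε)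
    (z : En 15) : En 15 := j15 (ivn (p1 (G.G2 z))) (p2 (G.G2 z)) (p3 (G.G2 z))

end Pool.Agent.EXO
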