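import Pool.Agent.EXO.GbTha

/-!
# EXO, GEO, module GbPhi: the diffeomorphism `φ` of `ℝ³ × ℝ³`

PROOFS.  `w = wq x y` has norm `1` (`norm_mul`, `norm_star`, `norm_tha`).  Equivariance: for `‖q‖ = 1`,
`wq (Adq q x) (Adq q y) = q * wq x y * star q` (`tha_Adq`, `star (q a q̄) = q ā q̄`, `star q * q = 1`).  With `q = w`:
`wq (φ(p)) = w w w̄ = w`; with `q = w̄`: `wq (phiI p) = w̄ w w = w`.  So `phiI (phiE p) = (Adq w̄ (Adq w x), ..) = p`, and
`phiE (phiI p) = p`.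
`phiE_out`: if `3/8 ≤ ‖x‖` then `a = θ x = 1` and `w = b̄ b = 1`; if `3/8 ≤ ‖y‖` then `b = 1`, `w = ā a = 1`; `Adq 1 = id`.
Smooth: compositions (`contDiff_tha`, `star` is linear, products in `ℍ`, `contDiff_Adq`, `ContDiff.clm_apply`).
-/

set_option maxSynthPendingDepth 3

open scoped ContDiff Quaternion
open Pool.Agent.EXO

namespace EXO

theorem norm_wq (x y : En 3) : ‖wq x y‖ = 1 := by
  unfold wq
  rw [norm_mul, norm_mul, norm_mul, Quaternion.norm_star, Quaternion.norm_star,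
    norm_tha one_pos, norm_tha one_pos]
  norm_num

theorem wq_Adq {q : ℍ[ℝ]} (hq : ‖q‖ = 1) (x y : En 3) :
    wq (Adq q x) (Adq q y) = q * wq x y * star q := by
  unfold wq
  rw [tha_Adq one_pos hq, tha_Adq one_pos hq]
  have h := (star_mul_of_norm hq).1
  have h2 : ∀ z : ℍ[ℝ], star q * (q * z) = z := fun z => by rw [← mul_assoc, h, one_mul]
  simp only [star_mul, star_star, mul_assoc, h2]

private theorem gbphi_norm_star {q : ℍ[ℝ]} (hq : ‖q‖ = 1) : ‖star q‖ = 1 := by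
  rw [Quaternion.norm_star, hq]

private theorem gbphi_inv {q : ℍ[ℝ]} (hq : ‖q‖ = 1) (v : En 3) :
    Adq (star q) (Adq q v) = v ∧ Adq q (Adq (star q) v) = v := by
  have h := star_mul_of_norm hq
  constructor
  · rw [← ContinuousLinearMap.comp_apply, ← Adq_mul, h.1, Adq_one]
    rfl
  · rw [← ContinuousLinearMap.comp_apply, ← Adq_mul, h.2, Adq_one]
    rfl

theorem phiI_phiE (p : PP) : phiI (phiE p) = p := by
  have hw := norm_wq p.1 p.2
  have h := star_mul_of_norm hw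
  have h1 : wq (phiE p).1 (phiE p).2 = wq p.1 p.2 := by
    show wq (Adq (wq p.1 p.2) p.1) (Adq (wq p.1 p.2) p.2) = wq p.1 p.2
    rw [wq_Adq hw, mul_assoc, h.2, mul_one]
  show (Adq (star (wq (phiE p).1 (phiE p).2)) (phiE p).1,
    Adq (star (wq (phiE p).1 (phiE p).2)) (phiE p).2) = p
  rw [h1]
  exact Prod.ext (gbphi_inv hw p.1).1 (gbphi_inv hw p.2).1

theorem phiE_phiI (p : PP) : phiE (phiI p) = p := by
  have hw := norm_wq p.1 p.2
  have h := star_mul_of_norm hw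
  have h1 : wq (phiI p).1 (phiI p).2 = wq p.1 p.2 := by
    show wq (Adq (star (wq p.1 p.2)) p.1) (Adq (star (wq p.1 p.2)) p.2) = wq p.1 p.2
    rw [wq_Adq (gbphi_norm_star hw), star_star, h.1, one_mul]
  show (Adq (wq (phiI p).1 (phiI p).2) (phiI p).1,
    Adq (wq (phiI p).1 (phiI p).2) (phiI p).2) = p
  rw [h1]
  exact Prod.ext (gbphi_inv hw p.1).2 (gbphi_inv hw p.2).2

theorem norm_phiE (p : PP) : ‖(phiE p).1‖ = ‖p.1‖ ∧ ‖(phiE p).2‖ = ‖p.2‖ :=
  ⟨norm_Adq (norm_wq p.1 p.2) p.1, norm_Adq (norm_wq p.1 p.2) p.2⟩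

theorem norm_phiI (p : PP) : ‖(phiI p).1‖ = ‖p.1‖ ∧ ‖(phiI p).2‖ = ‖p.2‖ :=
  ⟨norm_Adq (gbphi_norm_star (norm_wq p.1 p.2)) p.1,
    norm_Adq (gbphi_norm_star (norm_wq p.1 p.2)) p.2⟩

private theorem gbphi_wq_out {x y : En 3} (h : 3 / 8 ≤ ‖x‖ ∨ 3 / 8 ≤ ‖y‖) : wq x y = 1 := by
  unfold wq
  rcases h with h | h
  · rw [tha_out one_pos (x := x) (by linarith), star_one, one_mul, mul_one,
      (star_mul_of_norm (norm_tha one_pos y)).1]
  · rw [tha_out one_pos (x := y) (by linarith), star_one, mul_one, mul_one,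
      (star_mul_of_norm (norm_tha one_pos x)).1]

theorem phiE_out (p : PP) (h : 3 / 8 ≤ ‖p.1‖ ∨ 3 / 8 ≤ ‖p.2‖) : phiE p = p := by
  unfold phiE
  rw [gbphi_wq_out h, Adq_one]
  rfl

theorem phiI_out (p : PP) (h : 3 / 8 ≤ ‖p.1‖ ∨ 3 / 8 ≤ ‖p.2‖) : phiI p = p := by
  unfold phiI
  rw [gbphi_wq_out h, star_one, Adq_one]
  rfl

private noncomputable def gbphi_starL : ℍ[ℝ] →L[ℝ] ℍ[ℝ] :=
  LinearMap.toContinuousLinearMap
    { toFun := fun q => star q
      map_add' := fun u v => star_add u v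
      map_smul' := by
        intro c u
        apply Quaternion.ext <;> simp }

private theorem gbphi_cd_wq : ContDiff ℝ ∞ (fun p : PP => wq p.1 p.2) := by
  have ha : ContDiff ℝ ∞ (fun p : PP => tha 1 p.1) := (contDiff_tha one_pos).comp contDiff_fst
  have hb : ContDiff ℝ ∞ (fun p : PP => tha 1 p.2) := (contDiff_tha one_pos).comp contDiff_snd
  have ha' : ContDiff ℝ ∞ (fun p : PP => star (tha 1 p.1)) := gbphi_starL.contDiff.comp ha
  have hb' : ContDiff ℝ ∞ (fun p : PP => star (tha 1 p.2)) := gbphi_starL.contDiff.comp hb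
  exact ((ha'.mul hb').mul ha).mul hb

theorem contDiff_phiE : ContDiff ℝ ∞ phiE := by
  have h : ContDiff ℝ ∞ (fun p : PP => Adq (wq p.1 p.2)) := contDiff_Adq.comp gbphi_cd_wq
  exact (h.clm_apply contDiff_fst).prodMk (h.clm_apply contDiff_snd)

theorem contDiff_phiI : ContDiff ℝ ∞ phiI := by
  have h : ContDiff ℝ ∞ (fun p : PP => Adq (star (wq p.1 p.2))) :=
    contDiff_Adq.comp (gbphi_starL.contDiff.comp gbphi_cd_wq)
  exact (h.clm_apply contDiff_fst).prodMk (h.clm_apply contDiff_snd)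

end EXO
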