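import Pool.Agent.EXO.GbRot
import Pool.Agent.EXO.GbPhi

/-!
# EXO, GEO, module GbWb: the rotation isotopy `PhiB`

PROOFS.  Let `‖a‖ = ‖b‖ = 1`, `a1 = dgq a 1`, `a1i = dgq ā 1` etc.: `a1 * a1i = 1 = a1i * a1` (`dgq_mul`, `star_mul_of_norm`, `dgq_one`);
`b1 = rotP σ * dgq b 1 * rotP (-σ)`, `b1i` are inverse to each other (`rotP (-σ) * rotP σ = 1`).  So `wordA · wordAi = 1`, `wordB · wordBi = 1`
and `RR * RRi = 1`, `RRi * RR = 1`.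
`RR_one`: at `σ = 1`: `b1 = dgq 1 b` (`rotP_one_conj`) commutes with `a1 = dgq a 1`, all products of `dgq`s are computed by
`dgq_mul`: `wordA (dgq a 1) (dgq ā 1) (dgq 1 b) (dgq 1 b̄) = dgq (ā a ā a) (b̄ b̄ b b) = 1`, `wordB (dgq 1 a) (dgq 1 ā) (dgq b 1) (dgq b̄ 1) =
dgq (b̄ b) (ā ā a a) = 1`.
`RR_triv`: `a = 1`: `a1 = a1i = a2 = a2i = 1`, `wordA = b1i b1i b1 b1 = 1`, `wordB = b2i b2 = 1`; `b = 1`: `b1 = b1i = b2 = b2i = 1`.
`nn_RR`: a product of maps preserving `nn` (`nn_dgq`, `nn_rotP`).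
`PhiBi_PhiB`, `PhiB_PhiBi`: from `phiI_phiE`, `phiE_phiI`, `RR_RRi` (note that in `PhiBi` the arguments of `RRi` are the coordinates of
`phiI`, i.e. of the original point).  `PhiB_one`: `RR 1 = 1`.  `PhiB_out`: if `‖x‖ ≥ 3/8` or `‖y‖ ≥ 3/8` then `a = 1` or `b = 1` and
`phiE = id`.  Smoothness: compositions.
-/

set_option maxSynthPendingDepth 3

open scoped ContDiff Quaternion
open Pool.Agent.EXO

namespace EXO

section words

variable {G : Type*} [Monoid G] {a ai b bi : G}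

private theorem GbWb_wordA (h1 : a * ai = 1) (h2 : ai * a = 1) (h3 : b * bi = 1)
    (h4 : bi * b = 1) : wordA a ai b bi * wordAi a ai b bi = 1 ∧
      wordAi a ai b bi * wordA a ai b bi = 1 := by
  have c1 : ∀ x, a * (ai * x) = x := fun x => by rw [← mul_assoc, h1, one_mul]
  have c2 : ∀ x, ai * (a * x) = x := fun x => by rw [← mul_assoc, h2, one_mul]
  have c3 : ∀ x, b * (bi * x) = x := fun x => by rw [← mul_assoc, h3, one_mul]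
  have c4 : ∀ x, bi * (b * x) = x := fun x => by rw [← mul_assoc, h4, one_mul]
  constructor <;> simp only [wordA, wordAi, mul_assoc, c1, c2, c3, c4, h2]

private theorem GbWb_wordB (h1 : a * ai = 1) (h2 : ai * a = 1) (h3 : b * bi = 1)
    (h4 : bi * b = 1) : wordB a ai b bi * wordBi a ai b bi = 1 ∧
      wordBi a ai b bi * wordB a ai b bi = 1 := by
  have c1 : ∀ x, a * (ai * x) = x := fun x => by rw [← mul_assoc, h1, one_mul]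
  have c2 : ∀ x, ai * (a * x) = x := fun x => by rw [← mul_assoc, h2, one_mul]
  have c3 : ∀ x, b * (bi * x) = x := fun x => by rw [← mul_assoc, h3, one_mul]
  have c4 : ∀ x, bi * (b * x) = x := fun x => by rw [← mul_assoc, h4, one_mul]
  constructor <;> simp only [wordB, wordBi, mul_assoc, c1, c2, c3, c4, h2]

private theorem GbWb_conj {R Ri d di : G} (hR : Ri * R = 1) (hR' : R * Ri = 1)
    (hd : d * di = 1) : (R * d * Ri) * (R * di * Ri) = 1 := by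
  have c1 : ∀ x, Ri * (R * x) = x := fun x => by rw [← mul_assoc, hR, one_mul]
  have c2 : ∀ x, d * (di * x) = x := fun x => by rw [← mul_assoc, hd, one_mul]
  simp only [mul_assoc, c1, c2, hR']

end words

private theorem GbWb_rot (σ : ℝ) : rotP σ * rotP (-σ) = 1 ∧ rotP (-σ) * rotP σ = 1 := by
  constructor
  · rw [rotP_add, add_neg_cancel, rotP_zero]
  · rw [rotP_add, neg_add_cancel, rotP_zero]

private theorem GbWb_d1 {a : ℍ[ℝ]} (ha : ‖a‖ = 1) :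
    dgq a 1 * dgq (star a) 1 = 1 ∧ dgq (star a) 1 * dgq a 1 = 1 := by
  constructor
  · rw [dgq_mul, (star_mul_of_norm ha).2, mul_one, dgq_one]
  · rw [dgq_mul, (star_mul_of_norm ha).1, mul_one, dgq_one]

private theorem GbWb_d2 {a : ℍ[ℝ]} (ha : ‖a‖ = 1) :
    dgq 1 a * dgq 1 (star a) = 1 ∧ dgq 1 (star a) * dgq 1 a = 1 := by
  constructor
  · rw [dgq_mul, (star_mul_of_norm ha).2, mul_one, dgq_one]
  · rw [dgq_mul, (star_mul_of_norm ha).1, mul_one, dgq_one]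

theorem RR_RRi (σ : ℝ) {a b : ℍ[ℝ]} (ha : ‖a‖ = 1) (hb : ‖b‖ = 1) :
    RR σ a b * RRi σ a b = 1 ∧ RRi σ a b * RR σ a b = 1 := by
  obtain ⟨r1, r2⟩ := GbWb_rot σ
  obtain ⟨a1, a2⟩ := GbWb_d1 ha
  obtain ⟨a3, a4⟩ := GbWb_d2 ha
  obtain ⟨b1, b2⟩ := GbWb_d1 hb
  obtain ⟨b3, b4⟩ := GbWb_d2 hb
  obtain ⟨A1, A2⟩ := GbWb_wordA a1 a2 (GbWb_conj r2 r1 b1) (GbWb_conj r2 r1 b2)
  obtain ⟨B1, B2⟩ := GbWb_wordB a3 a4 (GbWb_conj r2 r1 b3) (GbWb_conj r2 r1 b4)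
  unfold RR RRi
  constructor
  · rw [mul_assoc, ← mul_assoc (wordB _ _ _ _), B1, one_mul, A1]
  · rw [mul_assoc, ← mul_assoc (wordAi _ _ _ _), A2, one_mul, B2]

theorem RR_one {a b : ℍ[ℝ]} (ha : ‖a‖ = 1) (hb : ‖b‖ = 1) : RR 1 a b = 1 := by
  obtain ⟨ha1, -⟩ := star_mul_of_norm ha
  obtain ⟨hb1, -⟩ := star_mul_of_norm hb
  unfold RR
  simp only [rotP_one_conj]
  simp only [wordA, wordB, dgq_mul, one_mul, mul_one, mul_assoc, ha1, hb1, dgq_one]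

theorem RR_triv (σ : ℝ) {a b : ℍ[ℝ]} (ha : ‖a‖ = 1) (hb : ‖b‖ = 1) (h : a = 1 ∨ b = 1) :
    RR σ a b = 1 := by
  obtain ⟨r1, r2⟩ := GbWb_rot σ
  rcases h with rfl | rfl
  · have b1 := GbWb_conj r2 r1 (GbWb_d1 hb).2
    have b2 := GbWb_conj r2 r1 (GbWb_d2 hb).2
    have c1 : ∀ x, (rotP σ * dgq (star b) 1 * rotP (-σ)) * ((rotP σ * dgq b 1 * rotP (-σ)) * x)
        = x := fun x => by rw [← mul_assoc, b1, one_mul]
    unfold RR wordA wordB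
    rw [star_one, dgq_one]
    simp only [one_mul, mul_one]
    rw [b2, mul_one, mul_assoc (_ * _) _ (rotP σ * dgq b 1 * rotP (-σ)),
      mul_assoc (rotP σ * dgq (star b) 1 * rotP (-σ)) _ _, c1, b1]
  · have a1 := (GbWb_d1 ha).2
    have a2 := (GbWb_d2 ha).2
    unfold RR wordA wordB
    rw [star_one, dgq_one]
    simp only [mul_one, r1, mul_assoc, a1, a2]

private theorem GbWb_mul (f g : MM) (X : PP) : (f * g) X = f (g X) := rfl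

theorem nn_RR (σ : ℝ) {a b : ℍ[ℝ]} (ha : ‖a‖ = 1) (hb : ‖b‖ = 1) (X : PP) :
    nn (RR σ a b X) = nn X := by
  have ha' : ‖star a‖ = 1 := by rw [norm_star, ha]
  have hb' : ‖star b‖ = 1 := by rw [norm_star, hb]
  have h1 : ‖(1 : ℍ[ℝ])‖ = 1 := norm_one
  simp only [RR, wordA, wordB, GbWb_mul, nn_rotP, nn_dgq ha h1, nn_dgq ha' h1, nn_dgq hb h1,
    nn_dgq hb' h1, nn_dgq h1 ha, nn_dgq h1 ha', nn_dgq h1 hb, nn_dgq h1 hb']

theorem PhiBi_PhiB (σ : ℝ) (q : QQ) : PhiBi σ (PhiB σ q) = q := by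
  have h1 : phiI ((PhiB σ q).1.1, (PhiB σ q).2.1) = (q.1.1, q.2.1) := phiI_phiE _
  have h2 : RRi σ (tha 1 q.1.1) (tha 1 q.2.1) ((PhiB σ q).1.2, (PhiB σ q).2.2)
      = (q.1.2, q.2.2) := by
    show (RRi σ (tha 1 q.1.1) (tha 1 q.2.1) * RR σ (tha 1 q.1.1) (tha 1 q.2.1)) (q.1.2, q.2.2) = _
    rw [(RR_RRi σ (norm_tha one_pos _) (norm_tha one_pos _)).2]
    rfl
  unfold PhiBi
  simp only [h1, h2]

theorem PhiB_PhiBi (σ : ℝ) (q : QQ) : PhiB σ (PhiBi σ q) = q := by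
  obtain ⟨p, hp⟩ : ∃ p : PP, p = phiI (q.1.1, q.2.1) := ⟨_, rfl⟩
  have h1 : phiE ((PhiBi σ q).1.1, (PhiBi σ q).2.1) = (q.1.1, q.2.1) := phiE_phiI _
  have h2 : RR σ (tha 1 (PhiBi σ q).1.1) (tha 1 (PhiBi σ q).2.1)
      ((PhiBi σ q).1.2, (PhiBi σ q).2.2) = (q.1.2, q.2.2) := by
    show (RR σ (tha 1 (phiI (q.1.1, q.2.1)).1) (tha 1 (phiI (q.1.1, q.2.1)).2) *
      RRi σ (tha 1 (phiI (q.1.1, q.2.1)).1) (tha 1 (phiI (q.1.1, q.2.1)).2)) (q.1.2, q.2.2) = _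
    rw [(RR_RRi σ (norm_tha one_pos _) (norm_tha one_pos _)).1]
    rfl
  unfold PhiB
  simp only [h1, h2]

theorem PhiB_one (q : QQ) : PhiB 1 q =
    (((phiE (q.1.1, q.2.1)).1, q.1.2), ((phiE (q.1.1, q.2.1)).2, q.2.2)) := by
  unfold PhiB
  rw [RR_one (norm_tha one_pos _) (norm_tha one_pos _)]
  rfl

theorem PhiB_out (σ : ℝ) (q : QQ) (h : 3 / 8 ≤ ‖q.1.1‖ ∨ 3 / 8 ≤ ‖q.2.1‖) : PhiB σ q = q := by
  have h1 : tha 1 q.1.1 = 1 ∨ tha 1 q.2.1 = 1 := by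
    rcases h with h | h
    · exact Or.inl (tha_out one_pos (by linarith))
    · exact Or.inr (tha_out one_pos (by linarith))
  unfold PhiB
  rw [RR_triv σ (norm_tha one_pos _) (norm_tha one_pos _) h1, phiE_out _ h]
  rfl

private noncomputable def GbWb_starL : ℍ[ℝ] →L[ℝ] ℍ[ℝ] :=
  LinearMap.toContinuousLinearMap
    { toFun := fun q => star q
      map_add' := fun u v => star_add u v
      map_smul' := by
        intro c u
        apply Quaternion.ext <;> simp }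

private theorem GbWb_star : ContDiff ℝ ∞ (fun q : ℍ[ℝ] => star q) :=
  GbWb_starL.contDiff

section smooth

variable {X : Type*} [NormedAddCommGroup X] [NormedSpace ℝ X] {s : X → ℝ} {a b : X → ℍ[ℝ]}
  {A Ai B Bi : X → MM}

private theorem GbWb_dgq (ha : ContDiff ℝ ∞ a) (hb : ContDiff ℝ ∞ b) :
    ContDiff ℝ ∞ (fun x => dgq (a x) (b x)) := by
  have h : ContDiff ℝ ∞ (fun x => (a x, b x)) := ha.prodMk hb
  exact ContDiff.comp (g := fun p : ℍ[ℝ] × ℍ[ℝ] => dgq p.1 p.2) (f := fun x => (a x, b x))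
    contDiff_dgq h

private theorem GbWb_st (ha : ContDiff ℝ ∞ a) : ContDiff ℝ ∞ (fun x => star (a x)) :=
  GbWb_star.comp ha

private theorem GbWb_cj (hs : ContDiff ℝ ∞ s) (hA : ContDiff ℝ ∞ A) :
    ContDiff ℝ ∞ (fun x => rotP (s x) * A x * rotP (-(s x))) :=
  ((contDiff_rotP.comp hs).mul hA).mul (contDiff_rotP.comp hs.neg)

private theorem GbWb_sA (h1 : ContDiff ℝ ∞ A) (h2 : ContDiff ℝ ∞ Ai) (h3 : ContDiff ℝ ∞ B)
    (h4 : ContDiff ℝ ∞ Bi) : ContDiff ℝ ∞ (fun x => wordA (A x) (Ai x) (B x) (Bi x)) :=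
  ((((((h2.mul h4).mul h1).mul h4).mul h2).mul h3).mul h3).mul h1

private theorem GbWb_sAi (h1 : ContDiff ℝ ∞ A) (h2 : ContDiff ℝ ∞ Ai) (h3 : ContDiff ℝ ∞ B)
    (h4 : ContDiff ℝ ∞ Bi) : ContDiff ℝ ∞ (fun x => wordAi (A x) (Ai x) (B x) (Bi x)) :=
  ((((((h2.mul h4).mul h4).mul h1).mul h3).mul h2).mul h3).mul h1

private theorem GbWb_sB (h1 : ContDiff ℝ ∞ A) (h2 : ContDiff ℝ ∞ Ai) (h3 : ContDiff ℝ ∞ B)
    (h4 : ContDiff ℝ ∞ Bi) : ContDiff ℝ ∞ (fun x => wordB (A x) (Ai x) (B x) (Bi x)) :=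
  ((((h2.mul h4).mul h2).mul h3).mul h1).mul h1

private theorem GbWb_sBi (h1 : ContDiff ℝ ∞ A) (h2 : ContDiff ℝ ∞ Ai) (h3 : ContDiff ℝ ∞ B)
    (h4 : ContDiff ℝ ∞ Bi) : ContDiff ℝ ∞ (fun x => wordBi (A x) (Ai x) (B x) (Bi x)) :=
  ((((h2.mul h2).mul h4).mul h1).mul h3).mul h1

private theorem GbWb_RR (hs : ContDiff ℝ ∞ s) (ha : ContDiff ℝ ∞ a) (hb : ContDiff ℝ ∞ b) :
    ContDiff ℝ ∞ (fun x => RR (s x) (a x) (b x)) := by
  unfold RR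
  have h1 : ContDiff ℝ ∞ (fun _ : X => (1 : ℍ[ℝ])) := contDiff_const
  exact (GbWb_sA (GbWb_dgq ha h1) (GbWb_dgq (GbWb_st ha) h1) (GbWb_cj hs (GbWb_dgq hb h1))
    (GbWb_cj hs (GbWb_dgq (GbWb_st hb) h1))).mul
    (GbWb_sB (GbWb_dgq h1 ha) (GbWb_dgq h1 (GbWb_st ha)) (GbWb_cj hs (GbWb_dgq h1 hb))
    (GbWb_cj hs (GbWb_dgq h1 (GbWb_st hb))))

private theorem GbWb_RRi (hs : ContDiff ℝ ∞ s) (ha : ContDiff ℝ ∞ a) (hb : ContDiff ℝ ∞ b) :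
    ContDiff ℝ ∞ (fun x => RRi (s x) (a x) (b x)) := by
  unfold RRi
  have h1 : ContDiff ℝ ∞ (fun _ : X => (1 : ℍ[ℝ])) := contDiff_const
  exact (GbWb_sBi (GbWb_dgq h1 ha) (GbWb_dgq h1 (GbWb_st ha)) (GbWb_cj hs (GbWb_dgq h1 hb))
    (GbWb_cj hs (GbWb_dgq h1 (GbWb_st hb)))).mul
    (GbWb_sAi (GbWb_dgq ha h1) (GbWb_dgq (GbWb_st ha) h1) (GbWb_cj hs (GbWb_dgq hb h1))
    (GbWb_cj hs (GbWb_dgq (GbWb_st hb) h1)))

end smooth

theorem contDiff_PhiB : ContDiff ℝ ∞ (fun p : ℝ × QQ => PhiB p.1 p.2) := by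
  have hs : ContDiff ℝ ∞ (fun p : ℝ × QQ => p.1) := contDiff_fst
  have hx : ContDiff ℝ ∞ (fun p : ℝ × QQ => p.2.1.1) := by fun_prop
  have hy : ContDiff ℝ ∞ (fun p : ℝ × QQ => p.2.2.1) := by fun_prop
  have hz : ContDiff ℝ ∞ (fun p : ℝ × QQ => (p.2.1.2, p.2.2.2)) := by fun_prop
  have hphi : ContDiff ℝ ∞ (fun p : ℝ × QQ => phiE (p.2.1.1, p.2.2.1)) :=
    contDiff_phiE.comp (hx.prodMk hy)
  have hR : ContDiff ℝ ∞ (fun p : ℝ × QQ =>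
      RR p.1 (tha 1 p.2.1.1) (tha 1 p.2.2.1) (p.2.1.2, p.2.2.2)) :=
    (GbWb_RR hs ((contDiff_tha one_pos).comp hx) ((contDiff_tha one_pos).comp hy)).clm_apply hz
  unfold PhiB
  exact (hphi.fst.prodMk hR.fst).prodMk (hphi.snd.prodMk hR.snd)

theorem contDiff_PhiBi : ContDiff ℝ ∞ (fun p : ℝ × QQ => PhiBi p.1 p.2) := by
  have hs : ContDiff ℝ ∞ (fun p : ℝ × QQ => p.1) := contDiff_fst
  have hx : ContDiff ℝ ∞ (fun p : ℝ × QQ => p.2.1.1) := by fun_prop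
  have hy : ContDiff ℝ ∞ (fun p : ℝ × QQ => p.2.2.1) := by fun_prop
  have hz : ContDiff ℝ ∞ (fun p : ℝ × QQ => (p.2.1.2, p.2.2.2)) := by fun_prop
  have hphi : ContDiff ℝ ∞ (fun p : ℝ × QQ => phiI (p.2.1.1, p.2.2.1)) :=
    contDiff_phiI.comp (hx.prodMk hy)
  have hR : ContDiff ℝ ∞ (fun p : ℝ × QQ =>
      RRi p.1 (tha 1 (phiI (p.2.1.1, p.2.2.1)).1) (tha 1 (phiI (p.2.1.1, p.2.2.1)).2)
        (p.2.1.2, p.2.2.2)) :=
    (GbWb_RRi hs ((contDiff_tha one_pos).comp hphi.fst)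
      ((contDiff_tha one_pos).comp hphi.snd)).clm_apply hz
  unfold PhiBi
  exact (hphi.fst.prodMk hR.fst).prodMk (hphi.snd.prodMk hR.snd)

end EXO
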