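import Pool.Agent.EXO.GbWa
import Pool.Agent.EXO.GbWb

/-!
# EXO, GEO, module GbBox: the box map satisfies `SmoothBox` (with `δ = 1/48`, `ρ = 1/2`)

Coordinates: `toQ (ofQ s v q) = q`, `ofQ s v q 0 = s`, `ofQ s v q 13 = v`, `ofQ (x 0) (x 13) (toQ x) = x` (checked coordinatewise, `fin_cases`);
`toQ`, `(s,v,q) ↦ ofQ s v q` are smooth (linear).  For `x ∈ zlt (3δ) = {|z_i| < 1/16}`: `‖z'‖² ≤ 3/256 ≤ 1/64`, the same for `z''`.
Put `FA x = ofQ (x 0) (x 13) (PhiA (sg1 (x 0)) (toQ x))`, `FB x = ofQ (x 0) (x 13) (PhiB (sg2 (x 0)) (toQ x))`: both smooth on all of `Eu 14`,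
with smooth inverses `FAi`, `FBi` (same formulas with `PhiAi`, `PhiBi`): `FAi (FA x) = x`, `FBi (FB x) = x`.

* (J) on `zlt (3δ) ∩ {3/4 < x 0 < 5/4}`, `FA = FB`: `sg1 = 1`, `sg2 = 0`, `PhiA_one`.
* smooth: on `zlt (3δ)` (open), `Fbox = FA` for `x 0 ≤ 1`, `FB` for `x 0 > 1`; near a point with `x 0 < 1` it is `FA`, near a point with
`x 0 > 1` it is `FB`, near a point with `x 0 = 1` it is `FB` (by (J)).
* smoothφ: `contDiff_phiE` and linear maps.
* keep_s, keep_v, trans_v: `toQ (x + a e_13) = toQ x`.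
* id_low: `x 0 ≤ 0`: `sg1 (x 0) = 0` (`2(s - 1/4) ≤ 0`), `PhiA_zero`.
* id_out: some `i ∈ P` with `|x i| ≥ 1/2`, so `‖x‖ ≥ 1/2` or `‖y‖ ≥ 1/2` (norm of `ℝ³` ≥ a coordinate), `nn q.1 ≥ 1/4` or `nn q.2 ≥ 1/4`:
`PhiA_out`, `PhiB_out`.
* stay: `Fbox x ≠ x`.  If `x 0 ≤ 1`: by `PhiA_out`, `nn q.1 < 1/4`, `nn q.2 < 1/4`, preserved by `nn_PhiA`, so `|coordinates| ≤ ‖·‖ ≤ 1/2`.
If `x 0 > 1`: `‖x‖, ‖y‖ < 3/8` by `PhiB_out`, preserved by `norm_phiE`.
* high: `x 0 ≥ 7/4 > 1`: `sg2 = 1` (`4 (7/4 - 5/4) = 2 ≥ 1`), `PhiB_one`; compare with `setblk x (phibox (blk x))` coordinatewise.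
* inj on `zle (2δ) ⊆ zlt (3δ)`: the coordinate `0` is preserved, so two points with the same image are both in the regime `≤ 1` or both in
`> 1`, and `FA`, `FB` are injective.
* imm: near `x ∈ zlt (3δ)`, `Fbox` agrees with `FA` (if `x 0 < 1`) or `FB` (if `x 0 ≥ 1`), which has the smooth left inverse `FAi`
(`FBi`): `D(FAi)(FA x) ∘ D(FA)(x) = id` (chain rule), so `D(FA)(x)` is injective.
-/

set_option maxSynthPendingDepth 3

open scoped ContDiff Quaternion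
open Pool.Agent.EXO

namespace EXO

theorem toQ_ofQ (s v : ℝ) (q : QQ) : toQ (ofQ s v q) = q := by
  obtain ⟨⟨a, b⟩, ⟨c, d⟩⟩ := q
  refine Prod.ext (Prod.ext ?_ ?_) (Prod.ext ?_ ?_) <;> ext i <;> fin_cases i <;> simp [toQ, ofQ]

theorem ofQ_toQ (x : Eu 14) : ofQ (x 0) (x 13) (toQ x) = x := by
  ext i
  fin_cases i <;> simp [toQ, ofQ]

private theorem GbBox_cd_toQ : ContDiff ℝ ∞ toQ := by
  have hc : ∀ i : Fin 14, ContDiff ℝ ∞ (fun x : Eu 14 => x i) := fun i =>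
    (EuclideanSpace.proj (𝕜 := ℝ) i : Eu 14 →L[ℝ] ℝ).contDiff
  unfold toQ
  refine ContDiff.prodMk (ContDiff.prodMk ?_ ?_) (ContDiff.prodMk ?_ ?_) <;>
    rw [contDiff_euclidean] <;> intro i <;> fin_cases i <;> simp <;> exact hc _

private theorem GbBox_cd_ofQ : ContDiff ℝ ∞ (fun p : (ℝ × ℝ) × QQ => ofQ p.1.1 p.1.2 p.2) := by
  have hc : ∀ i : Fin 3, ContDiff ℝ ∞ (fun x : En 3 => x i) := fun i =>
    (EuclideanSpace.proj (𝕜 := ℝ) i : En 3 →L[ℝ] ℝ).contDiff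
  have h1 : ∀ i : Fin 3, ContDiff ℝ ∞ (fun p : (ℝ × ℝ) × QQ => p.2.1.1 i) := fun i =>
    (hc i).comp (by fun_prop)
  have h2 : ∀ i : Fin 3, ContDiff ℝ ∞ (fun p : (ℝ × ℝ) × QQ => p.2.1.2 i) := fun i =>
    (hc i).comp (by fun_prop)
  have h3 : ∀ i : Fin 3, ContDiff ℝ ∞ (fun p : (ℝ × ℝ) × QQ => p.2.2.1 i) := fun i =>
    (hc i).comp (by fun_prop)
  have h4 : ∀ i : Fin 3, ContDiff ℝ ∞ (fun p : (ℝ × ℝ) × QQ => p.2.2.2 i) := fun i =>
    (hc i).comp (by fun_prop)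
  have h5 : ContDiff ℝ ∞ (fun p : (ℝ × ℝ) × QQ => p.1.1) := by fun_prop
  have h6 : ContDiff ℝ ∞ (fun p : (ℝ × ℝ) × QQ => p.1.2) := by fun_prop
  rw [contDiff_euclidean]
  intro i
  fin_cases i <;> simp [ofQ] <;> first | exact h1 _ | exact h2 _ | exact h3 _ | exact h4 _ | exact h5 | exact h6

private noncomputable def GbBox_FA (x : Eu 14) : Eu 14 := ofQ (x 0) (x 13) (PhiA (sg1 (x 0)) (toQ x))
private noncomputable def GbBox_FB (x : Eu 14) : Eu 14 := ofQ (x 0) (x 13) (PhiB (sg2 (x 0)) (toQ x))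
private noncomputable def GbBox_FAi (x : Eu 14) : Eu 14 := ofQ (x 0) (x 13) (PhiAi (sg1 (x 0)) (toQ x))
private noncomputable def GbBox_FBi (x : Eu 14) : Eu 14 := ofQ (x 0) (x 13) (PhiBi (sg2 (x 0)) (toQ x))

private theorem GbBox_ofQ0 (s v : ℝ) (q : QQ) : ofQ s v q 0 = s := by simp [ofQ]
private theorem GbBox_ofQ13 (s v : ℝ) (q : QQ) : ofQ s v q 13 = v := by simp [ofQ]

private theorem GbBox_cd_co (i : Fin 14) : ContDiff ℝ ∞ (fun x : Eu 14 => x i) :=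
  (EuclideanSpace.proj (𝕜 := ℝ) i : Eu 14 →L[ℝ] ℝ).contDiff

private theorem GbBox_cd_stp : ContDiff ℝ ∞ stp := Real.smoothTransition.contDiff

private theorem GbBox_cd_sg1 : ContDiff ℝ ∞ (fun x : Eu 14 => sg1 (x 0)) := by
  have h := GbBox_cd_co 0
  unfold sg1
  exact GbBox_cd_stp.comp (by fun_prop)

private theorem GbBox_cd_sg2 : ContDiff ℝ ∞ (fun x : Eu 14 => sg2 (x 0)) := by
  have h := GbBox_cd_co 0
  unfold sg2
  exact GbBox_cd_stp.comp (by fun_prop)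

private theorem GbBox_cd_gen (G : ℝ → QQ → QQ) (hG : ContDiff ℝ ∞ (fun p : ℝ × QQ => G p.1 p.2))
    (g : ℝ → ℝ) (hg : ContDiff ℝ ∞ (fun x : Eu 14 => g (x 0))) :
    ContDiff ℝ ∞ (fun x : Eu 14 => ofQ (x 0) (x 13) (G (g (x 0)) (toQ x))) := by
  have h1 : ContDiff ℝ ∞ (fun x : Eu 14 => G (g (x 0)) (toQ x)) := hG.comp (hg.prodMk GbBox_cd_toQ)
  exact GbBox_cd_ofQ.comp (((GbBox_cd_co 0).prodMk (GbBox_cd_co 13)).prodMk h1)

private theorem GbBox_cd_FA : ContDiff ℝ ∞ GbBox_FA := GbBox_cd_gen PhiA contDiff_PhiA sg1 GbBox_cd_sg1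
private theorem GbBox_cd_FB : ContDiff ℝ ∞ GbBox_FB := GbBox_cd_gen PhiB contDiff_PhiB sg2 GbBox_cd_sg2
private theorem GbBox_cd_FAi : ContDiff ℝ ∞ GbBox_FAi := GbBox_cd_gen PhiAi contDiff_PhiAi sg1 GbBox_cd_sg1
private theorem GbBox_cd_FBi : ContDiff ℝ ∞ GbBox_FBi := GbBox_cd_gen PhiBi contDiff_PhiBi sg2 GbBox_cd_sg2

private theorem GbBox_FAi_FA (x : Eu 14) : GbBox_FAi (GbBox_FA x) = x := by
  unfold GbBox_FAi GbBox_FA
  rw [GbBox_ofQ0, GbBox_ofQ13, toQ_ofQ, PhiAi_PhiA, ofQ_toQ]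

private theorem GbBox_FBi_FB (x : Eu 14) : GbBox_FBi (GbBox_FB x) = x := by
  unfold GbBox_FBi GbBox_FB
  rw [GbBox_ofQ0, GbBox_ofQ13, toQ_ofQ, PhiBi_PhiB, ofQ_toQ]

private theorem GbBox_inj {f g h : Eu 14 → Eu 14} {x : Eu 14} (hfg : f =ᶠ[nhds x] g)
    (hg : ContDiff ℝ ∞ g) (hh : ContDiff ℝ ∞ h) (hgh : ∀ y, h (g y) = y) :
    Function.Injective (fderiv ℝ f x) := by
  rw [hfg.fderiv_eq]
  have hg1 : DifferentiableAt ℝ g x := (hg.differentiable (by simp)).differentiableAt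
  have hh1 : DifferentiableAt ℝ h (g x) := (hh.differentiable (by simp)).differentiableAt
  have h1 : fderiv ℝ (h ∘ g) x = (fderiv ℝ h (g x)).comp (fderiv ℝ g x) := fderiv_comp x hh1 hg1
  have h2 : h ∘ g = id := funext hgh
  rw [h2, fderiv_id] at h1
  intro u v huv
  have h3 : ∀ w, w = fderiv ℝ h (g x) (fderiv ℝ g x w) := by
    intro w
    have := congrArg (fun L : Eu 14 →L[ℝ] Eu 14 => L w) h1
    simpa using this
  rw [h3 u, h3 v, huv]

private theorem GbBox_lo {x : Eu 14} (h : x 0 ≤ 1) : Fbox x = GbBox_FA x := by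
  unfold Fbox GbBox_FA
  rw [if_pos h]

private theorem GbBox_hi {x : Eu 14} (h : ¬ x 0 ≤ 1) : Fbox x = GbBox_FB x := by
  unfold Fbox GbBox_FB
  rw [if_neg h]

private theorem GbBox_stp0 {t : ℝ} (h : t ≤ 0) : stp t = 0 := Real.smoothTransition.zero_of_nonpos h
private theorem GbBox_stp1 {t : ℝ} (h : 1 ≤ t) : stp t = 1 := Real.smoothTransition.one_of_one_le h

private theorem GbBox_nsq (v : En 3) : ‖v‖ ^ 2 = v 0 ^ 2 + v 1 ^ 2 + v 2 ^ 2 := by
  rw [EuclideanSpace.norm_sq_eq]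
  simp [Fin.sum_univ_three]

private theorem GbBox_isZ (i : Fin 14) (h1 : 7 ≤ i.val) (h2 : i.val ≤ 12) : isZ i := ⟨h1, h2⟩

private theorem GbBox_zsmall {x : Eu 14} (hx : x ∈ zlt (3 * (1 / 48))) :
    ‖(toQ x).1.2‖ ^ 2 ≤ 1 / 64 ∧ ‖(toQ x).2.2‖ ^ 2 ≤ 1 / 64 := by
  have hz : ∀ i : Fin 14, isZ i → x i ^ 2 ≤ 1 / 256 := by
    intro i hi
    have h1 : |x i| < 3 * (1 / 48) := hx i hi
    have h2 := abs_nonneg (x i)
    rw [← sq_abs]
    nlinarith
  have h7 := hz 7 (by decide)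
  have h8 := hz 8 (by decide)
  have h9 := hz 9 (by decide)
  have h10 := hz 10 (by decide)
  have h11 := hz 11 (by decide)
  have h12 := hz 12 (by decide)
  rw [GbBox_nsq, GbBox_nsq]
  simp only [toQ]
  constructor <;> simp <;> linarith

private theorem GbBox_J {x : Eu 14} (hx : x ∈ zlt (3 * (1 / 48))) (h1 : 3 / 4 ≤ x 0) (h2 : x 0 ≤ 5 / 4) :
    GbBox_FA x = GbBox_FB x := by
  unfold GbBox_FA GbBox_FB sg1 sg2
  rw [GbBox_stp1 (by linarith), GbBox_stp0 (by linarith), PhiA_one _ (GbBox_zsmall hx).1 (GbBox_zsmall hx).2]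

private theorem GbBox_open (δ : ℝ) : IsOpen (zlt δ) := by
  have h : zlt δ = ⋂ i : Fin 14, {x : Eu 14 | isZ i → |x i| < δ} := by
    ext x
    simp [zlt]
  rw [h]
  refine isOpen_iInter_of_finite fun i => ?_
  by_cases hi : isZ i
  · have h2 : {x : Eu 14 | isZ i → |x i| < δ} = {x : Eu 14 | |x i| < δ} := by
      ext x
      simp [hi]
    rw [h2]
    exact isOpen_lt (by fun_prop) continuous_const
  · have h2 : {x : Eu 14 | isZ i → |x i| < δ} = Set.univ := by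
      ext x
      simp [hi]
    rw [h2]
    exact isOpen_univ

private theorem GbBox_evA {x : Eu 14} (h : x 0 < 1) : Fbox =ᶠ[nhds x] GbBox_FA := by
  have h1 : IsOpen {y : Eu 14 | y 0 < 1} := isOpen_lt (by fun_prop) continuous_const
  filter_upwards [h1.mem_nhds h] with y hy
  exact GbBox_lo (le_of_lt hy)

private theorem GbBox_evB {x : Eu 14} (hx : x ∈ zlt (3 * (1 / 48))) (h : 1 ≤ x 0) :
    Fbox =ᶠ[nhds x] GbBox_FB := by
  have h1 : IsOpen {y : Eu 14 | 3 / 4 < y 0} := isOpen_lt continuous_const (by fun_prop)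
  have h2 : x ∈ {y : Eu 14 | 3 / 4 < y 0} := by
    show 3 / 4 < x 0
    linarith
  filter_upwards [h1.mem_nhds h2, (GbBox_open _).mem_nhds hx] with y hy hz
  by_cases h3 : y 0 ≤ 1
  · rw [GbBox_lo h3]
    exact GbBox_J hz (le_of_lt hy) (by linarith)
  · exact GbBox_hi h3

private theorem GbBox_F0 (x : Eu 14) : Fbox x 0 = x 0 := by
  by_cases h : x 0 ≤ 1
  · rw [GbBox_lo h]
    exact GbBox_ofQ0 _ _ _
  · rw [GbBox_hi h]
    exact GbBox_ofQ0 _ _ _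

private theorem GbBox_F13 (x : Eu 14) : Fbox x 13 = x 13 := by
  by_cases h : x 0 ≤ 1
  · rw [GbBox_lo h]
    exact GbBox_ofQ13 _ _ _
  · rw [GbBox_hi h]
    exact GbBox_ofQ13 _ _ _

private theorem GbBox_toQ_tr (x : Eu 14) (a : ℝ) : toQ (x + EuclideanSpace.single 13 a) = toQ x := by
  unfold toQ
  simp

private theorem GbBox_ofQ_tr (s v a : ℝ) (q : QQ) :
    ofQ s (v + a) q = ofQ s v q + EuclideanSpace.single 13 a := by
  ext i
  fin_cases i <;> simp [ofQ]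

private theorem GbBox_tr0 (x : Eu 14) (a : ℝ) : (x + EuclideanSpace.single (13 : Fin 14) a) 0 = x 0 := by
  simp

private theorem GbBox_tr13 (x : Eu 14) (a : ℝ) :
    (x + EuclideanSpace.single (13 : Fin 14) a) 13 = x 13 + a := by
  simp

private theorem GbBox_trFA (x : Eu 14) (a : ℝ) :
    GbBox_FA (x + EuclideanSpace.single 13 a) = GbBox_FA x + EuclideanSpace.single 13 a := by
  unfold GbBox_FA
  rw [GbBox_toQ_tr, GbBox_tr0, GbBox_tr13, GbBox_ofQ_tr]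

private theorem GbBox_trFB (x : Eu 14) (a : ℝ) :
    GbBox_FB (x + EuclideanSpace.single 13 a) = GbBox_FB x + EuclideanSpace.single 13 a := by
  unfold GbBox_FB
  rw [GbBox_toQ_tr, GbBox_tr0, GbBox_tr13, GbBox_ofQ_tr]

private theorem GbBox_coord (v : En 3) (i : Fin 3) : |v i| ≤ ‖v‖ := by
  have h := PiLp.norm_apply_le v i
  rwa [Real.norm_eq_abs] at h

private theorem GbBox_out {x : Eu 14} (h : ∃ i, isP i ∧ 1 / 2 ≤ |x i|) :
    1 / 2 ≤ ‖(toQ x).1.1‖ ∨ 1 / 2 ≤ ‖(toQ x).2.1‖ := by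
  obtain ⟨i, ⟨hi1, hi2⟩, hi⟩ := h
  have h1 := GbBox_coord (toQ x).1.1
  have h2 := GbBox_coord (toQ x).2.1
  have a1 := h1 0
  have a2 := h1 1
  have a3 := h1 2
  have a4 := h2 0
  have a5 := h2 1
  have a6 := h2 2
  simp only [toQ] at a1 a2 a3 a4 a5 a6 ⊢
  simp at a1 a2 a3 a4 a5 a6
  fin_cases i <;> simp at hi1 hi2 hi
  · left
    exact le_trans (by simpa using hi) a1
  · left
    exact le_trans (by simpa using hi) a2
  · left
    exact le_trans (by simpa using hi) a3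
  · right
    exact le_trans (by simpa using hi) a4
  · right
    exact le_trans (by simpa using hi) a5
  · right
    exact le_trans (by simpa using hi) a6

private theorem GbBox_in (s v : ℝ) (q : QQ) (h1 : ‖q.1.1‖ ≤ 1 / 2) (h2 : ‖q.2.1‖ ≤ 1 / 2) (i : Fin 14)
    (hi : isP i) : |ofQ s v q i| ≤ 1 / 2 := by
  obtain ⟨hi1, hi2⟩ := hi
  have a1 := (GbBox_coord q.1.1 0).trans h1
  have a2 := (GbBox_coord q.1.1 1).trans h1
  have a3 := (GbBox_coord q.1.1 2).trans h1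
  have a4 := (GbBox_coord q.2.1 0).trans h2
  have a5 := (GbBox_coord q.2.1 1).trans h2
  have a6 := (GbBox_coord q.2.1 2).trans h2
  fin_cases i <;> simp at hi1 hi2
  · simpa [ofQ] using a1
  · simpa [ofQ] using a2
  · simpa [ofQ] using a3
  · simpa [ofQ] using a4
  · simpa [ofQ] using a5
  · simpa [ofQ] using a6

private theorem GbBox_high {x : Eu 14} (h : 7 / 4 ≤ x 0) : Fbox x = setblk x (phibox (blk x)) := by
  have h1 : ¬ x 0 ≤ 1 := by
    intro h2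
    linarith
  rw [GbBox_hi h1]
  unfold GbBox_FB sg2
  rw [GbBox_stp1 (by linarith), PhiB_one]
  have h2 : to6 (blk x) = ((toQ x).1.1, (toQ x).2.1) := by
    refine Prod.ext ?_ ?_ <;> ext i <;> fin_cases i <;> simp [to6, blk, pr, toQ, ιP]
  unfold phibox
  rw [h2]
  ext i
  fin_cases i <;> simp [ofQ, setblk, isP, of6, toQ]

private theorem GbBox_sqhalf {a b : ℝ} (h : a ^ 2 + b ^ 2 < 1 / 4) (ha : 0 ≤ a) : a ≤ 1 / 2 := by
  by_contra hc
  push Not at hc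
  nlinarith [sq_nonneg b]

private theorem GbBox_nnle {X : PP} (h : nn X < 1 / 4) : ‖X.1‖ ≤ 1 / 2 := by
  unfold nn at h
  exact GbBox_sqhalf h (norm_nonneg _)

private theorem GbBox_nnge {X : PP} (h : 1 / 2 ≤ ‖X.1‖) : 1 / 4 ≤ nn X := by
  unfold nn
  nlinarith [sq_nonneg ‖X.2‖]

private theorem GbBox_stay {x : Eu 14} (h : Fbox x ≠ x) (i : Fin 14) (hi : isP i) :
    |Fbox x i| ≤ 1 / 2 := by
  by_cases h0 : x 0 ≤ 1
  · rw [GbBox_lo h0] at h ⊢
    have h1 : ¬ (1 / 4 ≤ nn (toQ x).1 ∨ 1 / 4 ≤ nn (toQ x).2) := by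
      intro h2
      apply h
      unfold GbBox_FA
      rw [PhiA_out _ _ h2, ofQ_toQ]
    push Not at h1
    obtain ⟨e1, e2⟩ := nn_PhiA (sg1 (x 0)) (toQ x)
    rw [← e1, ← e2] at h1
    refine GbBox_in _ _ _ ?_ ?_ i hi
    · exact GbBox_nnle h1.1
    · exact GbBox_nnle h1.2
  · rw [GbBox_hi h0] at h ⊢
    have h1 : ¬ (3 / 8 ≤ ‖(toQ x).1.1‖ ∨ 3 / 8 ≤ ‖(toQ x).2.1‖) := by
      intro h2
      apply h
      unfold GbBox_FB
      rw [PhiB_out _ _ h2, ofQ_toQ]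
    push Not at h1
    obtain ⟨e1, e2⟩ := norm_phiE ((toQ x).1.1, (toQ x).2.1)
    refine GbBox_in _ _ _ ?_ ?_ i hi
    · show ‖(phiE ((toQ x).1.1, (toQ x).2.1)).1‖ ≤ 1 / 2
      rw [e1]
      show ‖(toQ x).1.1‖ ≤ 1 / 2
      linarith [h1.1]
    · show ‖(phiE ((toQ x).1.1, (toQ x).2.1)).2‖ ≤ 1 / 2
      rw [e2]
      show ‖(toQ x).2.1‖ ≤ 1 / 2
      linarith [h1.2]

private theorem GbBox_cd_phibox : ContDiff ℝ ∞ phibox := by
  have hc6 : ∀ i : Fin 6, ContDiff ℝ ∞ (fun x : Eu 6 => x i) := fun i =>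
    (EuclideanSpace.proj (𝕜 := ℝ) i : Eu 6 →L[ℝ] ℝ).contDiff
  have hc3 : ∀ i : Fin 3, ContDiff ℝ ∞ (fun x : En 3 => x i) := fun i =>
    (EuclideanSpace.proj (𝕜 := ℝ) i : En 3 →L[ℝ] ℝ).contDiff
  have h1 : ContDiff ℝ ∞ to6 := by
    unfold to6
    refine ContDiff.prodMk ?_ ?_ <;>
      rw [contDiff_euclidean] <;> intro i <;> fin_cases i <;> simp <;> exact hc6 _
  have h2 : ContDiff ℝ ∞ of6 := by
    have k1 : ∀ i : Fin 3, ContDiff ℝ ∞ (fun p : PP => p.1 i) := fun i => (hc3 i).comp contDiff_fst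
    have k2 : ∀ i : Fin 3, ContDiff ℝ ∞ (fun p : PP => p.2 i) := fun i => (hc3 i).comp contDiff_snd
    rw [contDiff_euclidean]
    intro i
    fin_cases i <;> simp [of6] <;> first | exact k1 _ | exact k2 _
  exact h2.comp (contDiff_phiE.comp h1)

private theorem GbBox_sub {x : Eu 14} (hx : x ∈ zle (2 * (1 / 48))) : x ∈ zlt (3 * (1 / 48)) := by
  intro i hi
  have h1 : |x i| ≤ 2 * (1 / 48) := hx i hi
  linarith

theorem smoothBox : SmoothBox (1 / 48) (1 / 2) Fbox phibox where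
  δ_pos := by norm_num
  ρ_pos := by norm_num
  smooth := by
    intro x hx
    by_cases h : x 0 < 1
    · exact (GbBox_cd_FA.contDiffAt.congr_of_eventuallyEq (GbBox_evA h)).contDiffWithinAt
    · exact (GbBox_cd_FB.contDiffAt.congr_of_eventuallyEq (GbBox_evB hx (not_lt.1 h))).contDiffWithinAt
  smoothφ := GbBox_cd_phibox
  keep_s := fun x _ => GbBox_F0 x
  keep_v := fun x _ => GbBox_F13 x
  trans_v := by
    intro x _ a
    have e0 : (x + EuclideanSpace.single (13 : Fin 14) a) 0 = x 0 := by simp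
    have e13 : (x + EuclideanSpace.single (13 : Fin 14) a) 13 = x 13 + a := by simp
    by_cases h : x 0 ≤ 1
    · rw [GbBox_lo h, GbBox_lo (by rw [e0]; exact h)]
      exact GbBox_trFA x a
    · rw [GbBox_hi h, GbBox_hi (by rw [e0]; exact h)]
      exact GbBox_trFB x a
  id_low := by
    intro x _ h
    rw [GbBox_lo (by linarith)]
    unfold GbBox_FA sg1
    rw [GbBox_stp0 (by linarith), PhiA_zero, ofQ_toQ]
  id_out := by
    intro x _ h
    have h1 := GbBox_out h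
    by_cases h0 : x 0 ≤ 1
    · rw [GbBox_lo h0]
      unfold GbBox_FA
      rw [PhiA_out, ofQ_toQ]
      rcases h1 with h1 | h1
      · exact Or.inl (GbBox_nnge h1)
      · exact Or.inr (GbBox_nnge h1)
    · rw [GbBox_hi h0]
      unfold GbBox_FB
      rw [PhiB_out, ofQ_toQ]
      rcases h1 with h1 | h1
      · left
        linarith
      · right
        linarith
  stay := fun x _ h i hi => GbBox_stay h i hi
  high := fun x _ h => GbBox_high h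
  inj := by
    intro x _ y _ hxy
    have h0 : x 0 = y 0 := by
      rw [← GbBox_F0 x, ← GbBox_F0 y, hxy]
    by_cases h : x 0 ≤ 1
    · rw [GbBox_lo h, GbBox_lo (h0 ▸ h)] at hxy
      rw [← GbBox_FAi_FA x, hxy, GbBox_FAi_FA]
    · rw [GbBox_hi h, GbBox_hi (h0 ▸ h)] at hxy
      rw [← GbBox_FBi_FB x, hxy, GbBox_FBi_FB]
  imm := by
    intro x hx
    by_cases h : x 0 < 1
    · exact GbBox_inj (GbBox_evA h) GbBox_cd_FA GbBox_cd_FAi GbBox_FAi_FA
    · exact GbBox_inj (GbBox_evB (GbBox_sub hx) (not_lt.1 h)) GbBox_cd_FB GbBox_cd_FBi GbBox_FBi_FB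

end EXO
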