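import Pool.Agent.EXO.GcBl
import Pool.Agent.EXO.GbBox

/-!
# EXO, GEO, module GcGb: the map `Gbox = f₁ ∘ (C × id)` in the box

`Gbox b = Fbox (setblk b (phiI6 (blk b)))` for `b 0 ≤ 2`, `= b` for `b 0 > 2`.  `D = smoothBox : SmoothBox (1/48) (1/2) Fbox phibox`,
`3 δ = 1/16`, `2 δ = 1/24`.  Put `S b = setblk b (phiI6 (blk b))`: smooth, with the smooth inverse `b ↦ setblk b (phibox (blk b))`
(`blk_setblk`, `setblk_setblk`, `setblk_blk`, `phiI6_phibox`), preserves `zlt`, `zle`, coordinates `0`, `13`, `bz`, and `‖bx‖`, `‖bY‖`.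

PROOFS.
* `Gbox_Cbi`: `b 0 ≤ 2`: `Cbi b = setblk b (phibox (blk b))` (`Cbi_low`), `S (Cbi b) = b`, so `Gbox (Cbi b) = Fbox b = model b`.
`b 0 > 2`: `Gbox (Cbi b) = Cbi b`, `min 1 (3 - b 0) = 3 - b 0`: it is `model b`.
* `Gbox_keep`: `keep_s`, `keep_v` of `D` (the hypothesis `b ∈ zlt (1/16)`).
* `Gbox_high`: for `7/4 ≤ b 0 ≤ 2`, `D.high`: `Fbox (S b) = setblk (S b) (phibox (phiI6 (blk b))) = b`.
* smooth: on `zlt (1/16)` (open): near a point with `b 0 < 2` it is `Fbox ∘ S`; near a point with `b 0 > 7/4` it is the identity.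
* `Gbox_inj`: coordinate `0` is preserved; for `b 0 ≤ 2`, `Fbox ∘ S` is injective on `zle (1/24)` (`D.inj`, `S` injective and preserving
`zle`); for `b 0 > 2` it is the identity.
* `Gbox_imm`: near `b` it is `Fbox ∘ S` (if `b 0 < 2`) or the identity (if `b 0 > 7/4`): chain rule with `D.imm` and `D S` injective
(`S` has a smooth left inverse).
* `Gbox_low`: `b 0 ≤ 0`: `D.id_low`: `Fbox (S b) = S b = Cb b` (`Cb_low`).
* `Gbox_out`: `‖bx b‖ ≥ 1/2` or `‖bY b‖ ≥ 1/2`: `phiI6 (blk b) = blk b` (`phiI_out`), `S b = b`; `Fbox b = b`: for `b 0 ≤ 1` by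
`PhiA_out` (`nn (toQ b).1 ≥ ‖bx b‖² ≥ 1/4`), for `b 0 > 1` by `PhiB_out`, and `ofQ_toQ`.
* `Gbox_norm`: if `b 0 ≤ 0`: `Gbox_low`, `Cb_keep`.  If `b 0 > 2`: identity.  If `1 < b 0 ≤ 2`: the first and third components of `PhiB` are
`phiE (phiI (bx b, bY b)) = (bx b, bY b)`.  If `0 < b 0 ≤ 1`: let `q = toQ (S b)`; if `nn q.1 ≥ 1/4` or `nn q.2 ≥ 1/4` then `PhiA_out`:
`Gbox b = S b`, norms as for `S`.  Otherwise `nn (PhiA ..).1 = nn q.1 < 1/4` (`nn_PhiA`) and `‖bx (Gbox b)‖² ≤ nn (..).1 < 1/4`.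
-/

set_option maxSynthPendingDepth 3

open scoped ContDiff Quaternion
open Pool.Agent.EXO

namespace EXO

private noncomputable def GcGb_S (b : Eu 14) : Eu 14 := setblk b (phiI6 (blk b))
private noncomputable def GcGb_T (b : Eu 14) : Eu 14 := setblk b (phibox (blk b))

private theorem GcGb_ST (b : Eu 14) : GcGb_S (GcGb_T b) = b := by
  unfold GcGb_S GcGb_T
  rw [blk_setblk, setblk_setblk, phiI6_phibox, setblk_blk]

private theorem GcGb_TS (b : Eu 14) : GcGb_T (GcGb_S b) = b := by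
  unfold GcGb_S GcGb_T
  rw [blk_setblk, setblk_setblk, phibox_phiI6, setblk_blk]

private theorem GcGb_cdS : ContDiff ℝ ∞ GcGb_S :=
  contDiff_setblk.comp (contDiff_id.prodMk (contDiff_phiI6.comp contDiff_blk))

private theorem GcGb_cdT : ContDiff ℝ ∞ GcGb_T :=
  contDiff_setblk.comp (contDiff_id.prodMk (smoothBox.smoothφ.comp contDiff_blk))

private theorem GcGb_nP0 : ¬ isP (0 : Fin 14) := by decide
private theorem GcGb_nP13 : ¬ isP (13 : Fin 14) := by decide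

private theorem GcGb_S0 (b : Eu 14) : GcGb_S b 0 = b 0 := setblk_other b _ GcGb_nP0
private theorem GcGb_S13 (b : Eu 14) : GcGb_S b 13 = b 13 := setblk_other b _ GcGb_nP13

private theorem GcGb_Sz (b : Eu 14) {i : Fin 14} (hi : isZ i) : GcGb_S b i = b i := by
  refine setblk_other b _ ?_
  rintro ⟨h1, h2⟩
  obtain ⟨h3, h4⟩ := hi
  omega

private theorem GcGb_Szlt {δ : ℝ} {b : Eu 14} (hb : b ∈ zlt δ) : GcGb_S b ∈ zlt δ := by
  intro i hi
  rw [GcGb_Sz b hi]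
  exact hb i hi

private theorem GcGb_Szle {δ : ℝ} {b : Eu 14} (hb : b ∈ zle δ) : GcGb_S b ∈ zle δ := by
  intro i hi
  rw [GcGb_Sz b hi]
  exact hb i hi

private theorem GcGb_e3 : (3 * (1 / 48) : ℝ) = 1 / 16 := by norm_num
private theorem GcGb_e2 : (2 * (1 / 48) : ℝ) = 1 / 24 := by norm_num

private theorem GcGb_zlt {b : Eu 14} (hb : b ∈ zlt (1 / 16)) : b ∈ zlt (3 * (1 / 48)) := by
  rwa [GcGb_e3]

private theorem GcGb_zle {b : Eu 14} (hb : b ∈ zle (1 / 24)) : b ∈ zle (2 * (1 / 48)) := by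
  rwa [GcGb_e2]

private theorem GcGb_sub {b : Eu 14} (hb : b ∈ zle (1 / 24)) : b ∈ zlt (1 / 16) := by
  intro i hi
  have h1 : |b i| ≤ 1 / 24 := hb i hi
  linarith

private theorem GcGb_open (δ : ℝ) : IsOpen (zlt δ) := by
  have h : zlt δ = ⋂ i : Fin 14, {x : Eu 14 | isZ i → |x i| < δ} := by
    ext x
    simp [zlt]
  rw [h]
  refine isOpen_iInter_of_finite fun i => ?_
  by_cases hi : isZ i
  · have h2 : {x : Eu 14 | isZ i → |x i| < δ} = {x : Eu 14 | |x i| < δ} := by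
      ext x
      simp [hi]
    rw [h2]
    exact isOpen_lt (by fun_prop) continuous_const
  · have h2 : {x : Eu 14 | isZ i → |x i| < δ} = Set.univ := by
      ext x
      simp [hi]
    rw [h2]
    exact isOpen_univ

private theorem GcGb_lo {b : Eu 14} (h : b 0 ≤ 2) : Gbox b = Fbox (GcGb_S b) := by
  unfold Gbox
  rw [if_pos h]
  rfl

private theorem GcGb_hi {b : Eu 14} (h : ¬ b 0 ≤ 2) : Gbox b = b := by
  unfold Gbox
  rw [if_neg h]

private theorem GcGb_evlo {b : Eu 14} (h : b 0 < 2) : Gbox =ᶠ[nhds b] fun y => Fbox (GcGb_S y) := by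
  have h1 : IsOpen {y : Eu 14 | y 0 < 2} := isOpen_lt (by fun_prop) continuous_const
  filter_upwards [h1.mem_nhds h] with y hy
  exact GcGb_lo (le_of_lt hy)

private theorem GcGb_bxy (b : Eu 14) : (bx (GcGb_S b), bY (GcGb_S b)) = phiI (bx b, bY b) := by
  rw [← to6_blk (GcGb_S b), ← to6_blk b]
  unfold GcGb_S phiI6
  rw [blk_setblk, to6_of6]

private theorem GcGb_normS (b : Eu 14) : ‖bx (GcGb_S b)‖ = ‖bx b‖ ∧ ‖bY (GcGb_S b)‖ = ‖bY b‖ := by
  have h := GcGb_bxy b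
  have h1 : bx (GcGb_S b) = (phiI (bx b, bY b)).1 := congrArg Prod.fst h
  have h2 : bY (GcGb_S b) = (phiI (bx b, bY b)).2 := congrArg Prod.snd h
  rw [h1, h2]
  exact norm_phiI (bx b, bY b)

private theorem GcGb_bx_ofQ (s v : ℝ) (q : QQ) : bx (ofQ s v q) = q.1.1 := by
  have h := toQ_ofQ s v q
  rw [toQ_eq] at h
  exact congrArg (fun q : QQ => q.1.1) h

private theorem GcGb_bY_ofQ (s v : ℝ) (q : QQ) : bY (ofQ s v q) = q.2.1 := by
  have h := toQ_ofQ s v q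
  rw [toQ_eq] at h
  exact congrArg (fun q : QQ => q.2.1) h

private theorem GcGb_toQx (b : Eu 14) : (toQ b).1.1 = bx b := by rw [toQ_eq]
private theorem GcGb_toQy (b : Eu 14) : (toQ b).2.1 = bY b := by rw [toQ_eq]

theorem Gbox_Cbi (b : Eu 14) : Gbox (Cbi b) = model Fbox phibox b := by
  by_cases h : b 0 ≤ 2
  · have h0 : Cbi b 0 ≤ 2 := by rw [(Cbi_keep b).1]; exact h
    rw [GcGb_lo h0, Cbi_low b h]
    show Fbox (GcGb_S (GcGb_T b)) = _
    rw [GcGb_ST]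
    unfold model
    rw [if_pos h]
  · have h0 : ¬ Cbi b 0 ≤ 2 := by rw [(Cbi_keep b).1]; exact h
    rw [GcGb_hi h0]
    unfold model Cbi
    rw [if_neg h, min_eq_right (by linarith [not_le.mp h])]

theorem Gbox_keep {b : Eu 14} (hb : b ∈ zlt (1 / 16)) : Gbox b 0 = b 0 ∧ Gbox b 13 = b 13 := by
  by_cases h : b 0 ≤ 2
  · rw [GcGb_lo h]
    have hS : GcGb_S b ∈ zlt (3 * (1 / 48)) := GcGb_zlt (GcGb_Szlt hb)
    rw [smoothBox.keep_s _ hS, smoothBox.keep_v _ hS]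
    exact ⟨GcGb_S0 b, GcGb_S13 b⟩
  · rw [GcGb_hi h]
    exact ⟨rfl, rfl⟩

theorem Gbox_high {b : Eu 14} (hb : b ∈ zlt (1 / 16)) (h : 7 / 4 ≤ b 0) : Gbox b = b := by
  by_cases h2 : b 0 ≤ 2
  · rw [GcGb_lo h2]
    have hS : GcGb_S b ∈ zlt (3 * (1 / 48)) := GcGb_zlt (GcGb_Szlt hb)
    rw [smoothBox.high _ hS (by rw [GcGb_S0]; exact h)]
    exact GcGb_TS b
  · exact GcGb_hi h2

private theorem GcGb_evhi {b : Eu 14} (hb : b ∈ zlt (1 / 16)) (h : 7 / 4 < b 0) :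
    Gbox =ᶠ[nhds b] fun y => y := by
  have h1 : IsOpen {y : Eu 14 | 7 / 4 < y 0} := isOpen_lt continuous_const (by fun_prop)
  filter_upwards [h1.mem_nhds h, (GcGb_open _).mem_nhds hb] with y hy hz
  exact Gbox_high hz (le_of_lt hy)

private theorem GcGb_cdF {b : Eu 14} (hb : b ∈ zlt (1 / 16)) : ContDiffAt ℝ ∞ Fbox (GcGb_S b) :=
  (smoothBox.smooth _ (GcGb_zlt (GcGb_Szlt hb))).contDiffAt
    ((GcGb_open _).mem_nhds (GcGb_zlt (GcGb_Szlt hb)))

theorem contDiffOn_Gbox : ContDiffOn ℝ ∞ Gbox (zlt (1 / 16)) := by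
  intro b hb
  refine ContDiffAt.contDiffWithinAt ?_
  by_cases h : b 0 < 2
  · refine ContDiffAt.congr_of_eventuallyEq ?_ (GcGb_evlo h)
    exact (GcGb_cdF hb).comp b GcGb_cdS.contDiffAt
  · refine ContDiffAt.congr_of_eventuallyEq ?_ (GcGb_evhi hb (by linarith [not_lt.mp h]))
    exact contDiffAt_id

theorem Gbox_inj : Set.InjOn Gbox (zle (1 / 24)) := by
  intro x hx y hy hxy
  have kx := Gbox_keep (GcGb_sub hx)
  have ky := Gbox_keep (GcGb_sub hy)
  have h0 : x 0 = y 0 := by rw [← kx.1, ← ky.1, hxy]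
  by_cases h : x 0 ≤ 2
  · rw [GcGb_lo h, GcGb_lo (h0 ▸ h)] at hxy
    have h1 := smoothBox.inj (GcGb_zle (GcGb_Szle hx)) (GcGb_zle (GcGb_Szle hy)) hxy
    rw [← GcGb_TS x, ← GcGb_TS y, h1]
  · rw [GcGb_hi h, GcGb_hi (h0 ▸ h)] at hxy
    exact hxy

theorem Gbox_imm : ∀ b ∈ zle (1 / 24), Function.Injective (fderiv ℝ Gbox b) := by
  intro b hb
  have hb' := GcGb_sub hb
  by_cases h : b 0 < 2
  · rw [(GcGb_evlo h).fderiv_eq]
    have hF : DifferentiableAt ℝ Fbox (GcGb_S b) := (GcGb_cdF hb').differentiableAt (by simp)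
    have hS : DifferentiableAt ℝ GcGb_S b := (GcGb_cdS.differentiable (by simp)).differentiableAt
    have hT : DifferentiableAt ℝ GcGb_T (GcGb_S b) :=
      (GcGb_cdT.differentiable (by simp)).differentiableAt
    have e1 : fderiv ℝ (fun y => Fbox (GcGb_S y)) b =
        (fderiv ℝ Fbox (GcGb_S b)).comp (fderiv ℝ GcGb_S b) := fderiv_comp b hF hS
    have e2 : fderiv ℝ (GcGb_T ∘ GcGb_S) b =
        (fderiv ℝ GcGb_T (GcGb_S b)).comp (fderiv ℝ GcGb_S b) := fderiv_comp b hT hS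
    have e3 : GcGb_T ∘ GcGb_S = id := funext GcGb_TS
    rw [e3, fderiv_id] at e2
    rw [e1]
    have hSi : Function.Injective (fderiv ℝ GcGb_S b) := by
      intro u v huv
      have h3 : ∀ w, w = fderiv ℝ GcGb_T (GcGb_S b) (fderiv ℝ GcGb_S b w) := by
        intro w
        have := congrArg (fun L : Eu 14 →L[ℝ] Eu 14 => L w) e2
        simpa using this
      rw [h3 u, h3 v, huv]
    exact (smoothBox.imm _ (GcGb_zle (GcGb_Szle hb))).comp hSi
  · rw [(GcGb_evhi hb' (by linarith [not_lt.mp h])).fderiv_eq]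
    have : fderiv ℝ (fun y : Eu 14 => y) b = ContinuousLinearMap.id ℝ (Eu 14) := fderiv_id
    rw [this]
    exact fun u v huv => huv

theorem Gbox_low {b : Eu 14} (hb : b ∈ zlt (1 / 16)) (h : b 0 ≤ 0) : Gbox b = Cb b := by
  have h2 : b 0 ≤ 2 := by linarith
  have hS : GcGb_S b ∈ zlt (3 * (1 / 48)) := GcGb_zlt (GcGb_Szlt hb)
  rw [GcGb_lo h2, smoothBox.id_low _ hS (by rw [GcGb_S0]; exact h), Cb_low b h2]
  rfl

theorem Gbox_out {b : Eu 14} (hb : b ∈ zlt (1 / 16)) (h : 1 / 2 ≤ ‖bx b‖ ∨ 1 / 2 ≤ ‖bY b‖) :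
    Gbox b = b := by
  by_cases h2 : b 0 ≤ 2
  · have hSb : GcGb_S b = b := by
      have h3 : 3 / 8 ≤ ‖bx b‖ ∨ 3 / 8 ≤ ‖bY b‖ := by
        rcases h with h | h
        · left
          linarith
        · right
          linarith
      unfold GcGb_S phiI6
      rw [to6_blk, phiI_out (bx b, bY b) h3, ← to6_blk, of6_to6, setblk_blk]
    rw [GcGb_lo h2, hSb]
    unfold Fbox
    by_cases h1 : b 0 ≤ 1
    · rw [if_pos h1, PhiA_out, ofQ_toQ]
      unfold nn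
      rw [GcGb_toQx, GcGb_toQy]
      rcases h with h | h
      · left
        nlinarith [sq_nonneg ‖(toQ b).1.2‖]
      · right
        nlinarith [sq_nonneg ‖(toQ b).2.2‖]
    · rw [if_neg h1, PhiB_out, ofQ_toQ]
      rw [GcGb_toQx, GcGb_toQy]
      rcases h with h | h
      · left
        linarith
      · right
        linarith
  · exact GcGb_hi h2

theorem Gbox_norm {b : Eu 14} (hb : b ∈ zlt (1 / 16)) :
    (‖bx (Gbox b)‖ = ‖bx b‖ ∧ ‖bY (Gbox b)‖ = ‖bY b‖) ∨ (0 < b 0 ∧ ‖bx (Gbox b)‖ < 1 / 2) := by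
  by_cases h0 : b 0 ≤ 0
  · left
    rw [Gbox_low hb h0]
    exact ⟨(Cb_keep b).2.2.2.1, (Cb_keep b).2.2.2.2⟩
  · by_cases h2 : b 0 ≤ 2
    · rw [GcGb_lo h2]
      by_cases h1 : b 0 ≤ 1
      · have h1' : GcGb_S b 0 ≤ 1 := by rw [GcGb_S0]; exact h1
        unfold Fbox
        rw [if_pos h1']
        by_cases hq : 1 / 4 ≤ nn (toQ (GcGb_S b)).1 ∨ 1 / 4 ≤ nn (toQ (GcGb_S b)).2
        · left
          rw [PhiA_out _ _ hq, ofQ_toQ]
          exact GcGb_normS b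
        · right
          push Not at hq
          refine ⟨not_le.mp h0, ?_⟩
          rw [GcGb_bx_ofQ]
          have e1 := (nn_PhiA (sg1 (GcGb_S b 0)) (toQ (GcGb_S b))).1
          have e2 : nn (PhiA (sg1 (GcGb_S b 0)) (toQ (GcGb_S b))).1 < 1 / 4 := by
            rw [e1]
            exact hq.1
          unfold nn at e2
          have e3 := norm_nonneg (PhiA (sg1 (GcGb_S b 0)) (toQ (GcGb_S b))).1.1
          nlinarith [sq_nonneg ‖(PhiA (sg1 (GcGb_S b 0)) (toQ (GcGb_S b))).1.2‖]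
      · left
        have h1' : ¬ GcGb_S b 0 ≤ 1 := by rw [GcGb_S0]; exact h1
        unfold Fbox
        rw [if_neg h1', GcGb_bx_ofQ, GcGb_bY_ofQ]
        have e1 : phiE ((toQ (GcGb_S b)).1.1, (toQ (GcGb_S b)).2.1) = (bx b, bY b) := by
          rw [GcGb_toQx, GcGb_toQy, GcGb_bxy, phiE_phiI]
        constructor
        · show ‖(phiE ((toQ (GcGb_S b)).1.1, (toQ (GcGb_S b)).2.1)).1‖ = _
          rw [e1]
        · show ‖(phiE ((toQ (GcGb_S b)).1.1, (toQ (GcGb_S b)).2.1)).2‖ = _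
          rw [e1]
    · left
      rw [GcGb_hi h2]
      exact ⟨rfl, rfl⟩

end EXO
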