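import Pool.Agent.EXO.GcCm
import Pool.Agent.EXO.GcGb

/-!
# EXO, GEO, module GcG: the map `G₁ = trans l Gbox` on `D1 (l/48)`
-/

set_option maxSynthPendingDepth 3

open scoped ContDiff Quaternion
open Pool.Agent.EXO

namespace EXO

private theorem GcG_coord {n : ℕ} (i : Fin n) :
    Continuous (fun w : EuclideanSpace ℝ (Fin n) => w i) :=
  (EuclideanSpace.proj (𝕜 := ℝ) i).continuous

private theorem GcG_q1c : Continuous q1 := by
  have h : Continuous (fun w : En 14 => WithLp.toLp 2 fun i : Fin 4 => w ⟨i, by omega⟩) :=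
    (PiLp.continuous_toLp 2 _).comp (continuous_pi fun i => GcG_coord _)
  exact h

private theorem GcG_q2c : Continuous q2 := by
  have h : Continuous (fun w : En 14 => WithLp.toLp 2 fun i : Fin 4 => w ⟨4 + i, by omega⟩) :=
    (PiLp.continuous_toLp 2 _).comp (continuous_pi fun i => GcG_coord _)
  exact h

private theorem GcG_q3c : Continuous q3 := by
  have h : Continuous (fun w : En 14 => WithLp.toLp 2 fun i : Fin 6 => w ⟨8 + i, by omega⟩) :=
    (PiLp.continuous_toLp 2 _).comp (continuous_pi fun i => GcG_coord _)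
  exact h

private theorem GcG_vec4c : Continuous vec4 := by
  have h : Continuous (fun x : En 4 => WithLp.toLp 2 (![x 1, x 2, x 3] : Fin 3 → ℝ)) := by
    refine (PiLp.continuous_toLp 2 _).comp (continuous_pi fun i => ?_)
    fin_cases i
    · exact GcG_coord _
    · exact GcG_coord _
    · exact GcG_coord _
  exact h

private theorem GcG_zlt (δ : ℝ) : IsOpen (zlt δ) := by
  have h : zlt δ = ⋂ i : Fin 14, {x : Eu 14 | isZ i → |x i| < δ} := by
    ext x
    simp only [zlt, Set.mem_iInter]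
    rfl
  rw [h]
  refine isOpen_iInter_of_finite fun i => ?_
  by_cases hi : isZ i
  · have h2 : {x : Eu 14 | isZ i → |x i| < δ} = {x : Eu 14 | |x i| < δ} := by
      ext x
      exact ⟨fun h => h hi, fun h _ => h⟩
    rw [h2]
    exact isOpen_lt (GcG_coord i).abs continuous_const
  · have h2 : {x : Eu 14 | isZ i → |x i| < δ} = Set.univ := by
      ext x
      exact ⟨fun _ => trivial, fun _ h => absurd h hi⟩
    rw [h2]
    exact isOpen_univ

private theorem GcG_zsub {b : Eu 14} (h : b ∈ zlt (1 / 48)) :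
    b ∈ zlt (1 / 16) ∧ b ∈ zle (1 / 24) := by
  constructor
  · intro i hi
    exact (h i hi).trans (by norm_num)
  · intro i hi
    exact ((h i hi).trans (by norm_num)).le

private theorem GcG_cyl_open (d : ℝ) : IsOpen (cyl d) := by
  have hg : Continuous gq := ((GcG_q1c.norm).pow 2).add ((GcG_q2c.norm).pow 2)
  have h1 : IsOpen {w : En 14 | 0 < gq w} := isOpen_lt continuous_const hg
  have h2 : IsOpen ({w : En 14 | 0 < gq w} ∩ {w | |Real.log (gq w)| < 2 * d}) := by
    have hc : ContinuousOn (fun w : En 14 => |Real.log (gq w)|) {w : En 14 | 0 < gq w} := by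
      refine ContinuousOn.abs (ContinuousOn.log hg.continuousOn fun w hw => ?_)
      exact ne_of_gt hw
    exact hc.isOpen_inter_preimage h1 (isOpen_Iio (a := 2 * d))
  have h3 : IsOpen {w : En 14 | ∀ i, |q3 w i| < d} := by
    have h4 : {w : En 14 | ∀ i, |q3 w i| < d} = ⋂ i : Fin 6, {w : En 14 | |q3 w i| < d} := by
      ext w
      simp only [Set.mem_iInter]
      rfl
    rw [h4]
    exact isOpen_iInter_of_finite fun i =>
      isOpen_lt ((GcG_coord i).comp GcG_q3c).abs continuous_const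
  have h5 : cyl d = ({w : En 14 | 0 < gq w} ∩ {w | |Real.log (gq w)| < 2 * d}) ∩
      {w : En 14 | ∀ i, |q3 w i| < d} := by
    ext w
    exact ⟨fun h => ⟨⟨h.1, h.2.1⟩, h.2.2⟩, fun h => ⟨h.1.1, h.1.2, h.2⟩⟩
  rw [h5]
  exact h2.inter h3

theorem isOpen_D (d : ℝ) : IsOpen (cyl d) ∧ IsOpen (D1 d) ∧ IsOpen (D2 d) := by
  refine ⟨GcG_cyl_open d, ?_, ?_⟩
  · have h : D1 d = cyl d ∩ {w : En 14 | q2 w ≠ 0} := rfl
    rw [h]
    exact (GcG_cyl_open d).inter (isOpen_ne_fun GcG_q2c continuous_const)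
  · have h : D2 d = cyl d ∩ {w : En 14 | ‖q2 w‖ < ‖q1 w‖ / 2} := rfl
    rw [h]
    exact (GcG_cyl_open d).inter (isOpen_lt GcG_q2c.norm (GcG_q1c.norm.div_const 2))

private theorem GcG_zch {l : ℝ} (hl : 0 < l) {w : En 14} (hw : w ∈ cyl (l / 48)) (hU : w ∈ chU) :
    ch l w ∈ zlt (1 / 48) := by
  have h1 : chI l (ch l w) ∈ cyl (l * (1 / 48)) := by
    rw [chI_ch hl hU]
    have : l * (1 / 48) = l / 48 := by ring
    rw [this]
    exact hw
  exact ((cyl_chI hl (ch l w)).1 h1).1

private theorem GcG_bx (l : ℝ) (w : En 14) : bx (ch l w) = l⁻¹ • (q1 w 0)⁻¹ • vec4 (q1 w) := by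
  have h : toS (ch l w) = l⁻¹ • ch8 (q1 w, q2 w) := by rw [ch, toS_ofS]
  exact congrArg (fun c : S8 => c.2.1) h

private theorem GcG_bY (l : ℝ) (w : En 14) : bY (ch l w) = l⁻¹ • (q2 w 0)⁻¹ • vec4 (q2 w) := by
  have h : toS (ch l w) = l⁻¹ • ch8 (q1 w, q2 w) := by rw [ch, toS_ofS]
  exact congrArg (fun c : S8 => c.2.2.1) h

private theorem GcG_b0 (l : ℝ) (w : En 14) :
    ch l w 0 = l⁻¹ * (Real.log (q2 w 0 / q1 w 0) / 2) := by
  have h : toS (ch l w) = l⁻¹ • ch8 (q1 w, q2 w) := by rw [ch, toS_ofS]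
  exact congrArg (fun c : S8 => c.1) h

private theorem GcG_half {l t : ℝ} (hl : 0 < l) (ht : 0 < t) (v : En 3) (h : l / 2 * t < ‖v‖) :
    1 / 2 ≤ ‖l⁻¹ • t⁻¹ • v‖ := by
  rw [norm_smul, norm_smul, Real.norm_eq_abs, Real.norm_eq_abs, abs_of_pos (inv_pos.2 hl),
    abs_of_pos (inv_pos.2 ht), ← mul_assoc, ← mul_inv, ← div_eq_inv_mul,
    le_div_iff₀ (mul_pos hl ht)]
  have : 1 / 2 * (l * t) = l / 2 * t := by ring
  linarith

private theorem GcG_trans_eq {l : ℝ} (hl : 0 < l) {w : En 14} (hU : w ∈ chU)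
    (h : Gbox (ch l w) = ch l w) : trans l Gbox w = w := by
  have h2 : trans l Gbox w = chI l (Gbox (ch l w)) := by
    conv_lhs => rw [← chI_ch hl hU]
    rw [trans_chI hl]
  rw [h2, h, chI_ch hl hU]

private theorem GcG_local {l : ℝ} (hl : 0 < l) {w : En 14} (hw : w ∈ D1 (l / 48))
    (hU : w ∉ chU) : ∀ᶠ w' in nhds w, trans l Gbox w' = w' := by
  have hD : ∀ᶠ w' in nhds w, w' ∈ D1 (l / 48) := (isOpen_D (l / 48)).2.1.mem_nhds hw
  have hY : q2 w ≠ 0 := hw.2
  have c1 : Continuous fun w : En 14 => q1 w 0 := (GcG_coord 0).comp GcG_q1c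
  have c2 : Continuous fun w : En 14 => q2 w 0 := (GcG_coord 0).comp GcG_q2c
  have c3 : Continuous fun w : En 14 => ‖vec4 (q1 w)‖ := (GcG_vec4c.comp GcG_q1c).norm
  have c4 : Continuous fun w : En 14 => ‖vec4 (q2 w)‖ := (GcG_vec4c.comp GcG_q2c).norm
  -- reduction to points of the chart
  have red : (∀ᶠ w' in nhds w, w' ∈ chU → w' ∈ cyl (l / 48) → Gbox (ch l w') = ch l w') →
      ∀ᶠ w' in nhds w, trans l Gbox w' = w' := by
    intro h
    filter_upwards [h, hD] with w' h1 h2
    by_cases h3 : w' ∈ chU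
    · exact GcG_trans_eq hl h3 (h1 h3 h2.1)
    · exact trans_of_not Gbox h3
  rcases lt_trichotomy (q1 w 0) 0 with hx | hx | hx
  · refine red ?_
    filter_upwards [(isOpen_lt c1 continuous_const).mem_nhds hx] with w' h1 h2 _
    exact absurd h2.1 (not_lt.2 (le_of_lt h1))
  · rcases lt_trichotomy (q2 w 0) 0 with hy | hy | hy
    · refine red ?_
      filter_upwards [(isOpen_lt c2 continuous_const).mem_nhds hy] with w' h1 h2 _
      exact absurd h2.2 (not_lt.2 (le_of_lt h1))
    · have hv : vec4 (q2 w) ≠ 0 := by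
        intro hv
        apply hY
        rw [← mk4_vec4 (q2 w), hv, hy]
        ext i
        fin_cases i <;> simp [mk4]
      have hlt : l / 2 * q2 w 0 < ‖vec4 (q2 w)‖ := by
        rw [hy, mul_zero]
        exact norm_pos_iff.2 hv
      refine red ?_
      filter_upwards [(isOpen_lt (continuous_const.mul c2) c4).mem_nhds hlt] with w' h1 h2 h3
      refine Gbox_out (GcG_zsub (GcG_zch hl h3 h2)).1 (Or.inr ?_)
      rw [GcG_bY]
      exact GcG_half hl h2.2 _ h1
    · by_cases hv : vec4 (q1 w) = 0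
      · have hlt : Real.exp (4 * l) * q1 w 0 < q2 w 0 := by
          rw [hx, mul_zero]
          exact hy
        refine red ?_
        filter_upwards [(isOpen_lt (continuous_const.mul c1) c2).mem_nhds hlt] with w' h1 h2 h3
        refine Gbox_high (GcG_zsub (GcG_zch hl h3 h2)).1 ?_
        rw [GcG_b0]
        have h4 : 4 * l ≤ Real.log (q2 w' 0 / q1 w' 0) := by
          rw [Real.le_log_iff_exp_le (div_pos h2.2 h2.1), le_div_iff₀ h2.1]
          exact le_of_lt h1
        have h5 : (2 : ℝ) ≤ l⁻¹ * (Real.log (q2 w' 0 / q1 w' 0) / 2) := by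
          rw [← div_eq_inv_mul, le_div_iff₀ hl]
          linarith
        linarith
      · have hlt : l / 2 * q1 w 0 < ‖vec4 (q1 w)‖ := by
          rw [hx, mul_zero]
          exact norm_pos_iff.2 hv
        refine red ?_
        filter_upwards [(isOpen_lt (continuous_const.mul c1) c3).mem_nhds hlt] with w' h1 h2 h3
        refine Gbox_out (GcG_zsub (GcG_zch hl h3 h2)).1 (Or.inl ?_)
        rw [GcG_bx]
        exact GcG_half hl h2.1 _ h1
  · rcases lt_trichotomy (q2 w 0) 0 with hy | hy | hy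
    · refine red ?_
      filter_upwards [(isOpen_lt c2 continuous_const).mem_nhds hy] with w' h1 h2 _
      exact absurd h2.2 (not_lt.2 (le_of_lt h1))
    · have hv : vec4 (q2 w) ≠ 0 := by
        intro hv
        apply hY
        rw [← mk4_vec4 (q2 w), hv, hy]
        ext i
        fin_cases i <;> simp [mk4]
      have hlt : l / 2 * q2 w 0 < ‖vec4 (q2 w)‖ := by
        rw [hy, mul_zero]
        exact norm_pos_iff.2 hv
      refine red ?_
      filter_upwards [(isOpen_lt (continuous_const.mul c2) c4).mem_nhds hlt] with w' h1 h2 h3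
      refine Gbox_out (GcG_zsub (GcG_zch hl h3 h2)).1 (Or.inr ?_)
      rw [GcG_bY]
      exact GcG_half hl h2.2 _ h1
    · exact absurd ⟨hx, hy⟩ hU

private theorem GcG_near {l : ℝ} (hl : 0 < l) {w : En 14} (hU : w ∈ chU) :
    trans l Gbox =ᶠ[nhds w] fun w' => chI l (Gbox (ch l w')) := by
  filter_upwards [isOpen_chU.mem_nhds hU] with w' hw'
  conv_lhs => rw [← chI_ch hl hw']
  rw [trans_chI hl]

theorem G1_smooth {l : ℝ} (hl : 0 < l) : ContDiffOn ℝ ∞ (trans l Gbox) (D1 (l / 48)) := by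
  intro w hw
  refine ContDiffAt.contDiffWithinAt ?_
  by_cases hU : w ∈ chU
  · have hz := (GcG_zsub (GcG_zch hl hw.1 hU)).1
    have h1 : ContDiffAt ℝ ∞ (ch l) w := (contDiffOn_ch l).contDiffAt (isOpen_chU.mem_nhds hU)
    have h2 : ContDiffAt ℝ ∞ Gbox (ch l w) := contDiffOn_Gbox.contDiffAt ((GcG_zlt _).mem_nhds hz)
    have h3 : ContDiffAt ℝ ∞ (fun w' => chI l (Gbox (ch l w'))) w :=
      (contDiff_chI l).contDiffAt.comp w (h2.comp w h1)
    exact h3.congr_of_eventuallyEq (GcG_near hl hU)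
  · have h1 : trans l Gbox =ᶠ[nhds w] fun w' => w' := GcG_local hl hw hU
    exact contDiffAt_id.congr_of_eventuallyEq h1

theorem G1_inj {l : ℝ} (hl : 0 < l) : Set.InjOn (trans l Gbox) (D1 (l / 48)) := by
  intro w hw w' hw' h
  have key : ∀ {u : En 14}, u ∈ chU → trans l Gbox u = chI l (Gbox (ch l u)) := fun hu =>
    (GcG_near hl hu).self_of_nhds
  by_cases hU : w ∈ chU
  · by_cases hU' : w' ∈ chU
    · rw [key hU, key hU'] at h
      have h2 : Gbox (ch l w) = Gbox (ch l w') := by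
        rw [← ch_chI hl (Gbox (ch l w)), h, ch_chI hl]
      have h3 := Gbox_inj (GcG_zsub (GcG_zch hl hw.1 hU)).2 (GcG_zsub (GcG_zch hl hw'.1 hU')).2 h2
      rw [← chI_ch hl hU, h3, chI_ch hl hU']
    · rw [key hU, trans_of_not Gbox hU'] at h
      exact absurd (h ▸ chI_mem l _) hU'
  · by_cases hU' : w' ∈ chU
    · rw [key hU', trans_of_not Gbox hU] at h
      exact absurd (h.symm ▸ chI_mem l _) hU
    · rwa [trans_of_not Gbox hU, trans_of_not Gbox hU'] at h

theorem G1_imm {l : ℝ} (hl : 0 < l) :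
    ∀ w ∈ D1 (l / 48), Function.Injective (fderiv ℝ (trans l Gbox) w) := by
  intro w hw
  by_cases hU : w ∈ chU
  · have hz := (GcG_zsub (GcG_zch hl hw.1 hU))
    have d1 : DifferentiableAt ℝ (ch l) w :=
      ((contDiffOn_ch l).contDiffAt (isOpen_chU.mem_nhds hU)).differentiableAt (by simp)
    have d2 : DifferentiableAt ℝ Gbox (ch l w) :=
      (contDiffOn_Gbox.contDiffAt ((GcG_zlt _).mem_nhds hz.1)).differentiableAt (by simp)
    have d3 : ∀ b, DifferentiableAt ℝ (chI l) b := fun b =>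
      ((contDiff_chI l).contDiffAt).differentiableAt (by simp)
    have e1 : fderiv ℝ (trans l Gbox) w = (fderiv ℝ (chI l) (Gbox (ch l w))).comp
        ((fderiv ℝ Gbox (ch l w)).comp (fderiv ℝ (ch l) w)) := by
      rw [(GcG_near hl hU).fderiv_eq]
      have a1 : HasFDerivAt (fun w' => Gbox (ch l w'))
          ((fderiv ℝ Gbox (ch l w)).comp (fderiv ℝ (ch l) w)) w :=
        d2.hasFDerivAt.comp w d1.hasFDerivAt
      have a2 : HasFDerivAt (fun w' => chI l (Gbox (ch l w')))
          ((fderiv ℝ (chI l) (Gbox (ch l w))).comp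
            ((fderiv ℝ Gbox (ch l w)).comp (fderiv ℝ (ch l) w))) w :=
        HasFDerivAt.comp (g := chI l) (f := fun w' => Gbox (ch l w')) w
          (d3 (Gbox (ch l w))).hasFDerivAt a1
      exact a2.fderiv
    have i1 : Function.Injective (fderiv ℝ (ch l) w) := by
      have a1 : HasFDerivAt (fun w' => chI l (ch l w'))
          ((fderiv ℝ (chI l) (ch l w)).comp (fderiv ℝ (ch l) w)) w :=
        (d3 _).hasFDerivAt.comp w d1.hasFDerivAt
      have a2 : (fun w' => chI l (ch l w')) =ᶠ[nhds w] fun w' => w' := by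
        filter_upwards [isOpen_chU.mem_nhds hU] with w' hw'
        exact chI_ch hl hw'
      have a3 : (fderiv ℝ (chI l) (ch l w)).comp (fderiv ℝ (ch l) w) =
          ContinuousLinearMap.id ℝ (En 14) :=
        a1.unique ((hasFDerivAt_id w).congr_of_eventuallyEq a2)
      intro u v huv
      have b1 := congrArg (fun L : En 14 →L[ℝ] En 14 => L u) a3
      have b2 := congrArg (fun L : En 14 →L[ℝ] En 14 => L v) a3
      simp only [ContinuousLinearMap.comp_apply, ContinuousLinearMap.id_apply] at b1 b2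
      rw [← b1, ← b2, huv]
    have i3 : ∀ b, Function.Injective (fderiv ℝ (chI l) b) := by
      intro b
      have d1' : DifferentiableAt ℝ (ch l) (chI l b) :=
        ((contDiffOn_ch l).contDiffAt (isOpen_chU.mem_nhds (chI_mem l b))).differentiableAt
          (by simp)
      have a1 : HasFDerivAt (fun b' => ch l (chI l b'))
          ((fderiv ℝ (ch l) (chI l b)).comp (fderiv ℝ (chI l) b)) b :=
        d1'.hasFDerivAt.comp b (d3 b).hasFDerivAt
      have a2 : (fun b' => ch l (chI l b')) = fun b' => b' := funext fun b' => ch_chI hl b'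
      rw [a2] at a1
      have a3 : (fderiv ℝ (ch l) (chI l b)).comp (fderiv ℝ (chI l) b) =
          ContinuousLinearMap.id ℝ (Eu 14) := a1.unique (hasFDerivAt_id b)
      intro u v huv
      have b1 := congrArg (fun L : Eu 14 →L[ℝ] Eu 14 => L u) a3
      have b2 := congrArg (fun L : Eu 14 →L[ℝ] Eu 14 => L v) a3
      simp only [ContinuousLinearMap.comp_apply, ContinuousLinearMap.id_apply] at b1 b2
      rw [← b1, ← b2, huv]
    rw [e1]
    exact (i3 _).comp ((Gbox_imm _ hz.2).comp i1)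
  · have h1 : trans l Gbox =ᶠ[nhds w] fun w' => w' := GcG_local hl hw hU
    have h2 : fderiv ℝ (trans l Gbox) w = ContinuousLinearMap.id ℝ (En 14) := by
      rw [h1.fderiv_eq]
      exact fderiv_id
    rw [h2]
    exact fun u v huv => huv

theorem G1_eq_C {l : ℝ} (hl : 0 < l) (hl1 : l ≤ 1) {w : En 14} (hw : w ∈ D1 (l / 48))
    (h : ‖q2 w‖ < ‖q1 w‖ / 2) : trans l Gbox w = t1 l (t2 l (t1i l (t2i l w))) := by
  by_cases hU : w ∈ chU
  · have hz := (GcG_zsub (GcG_zch hl hw.1 hU))
    have hb : w = chI l (ch l w) := (chI_ch hl hU).symm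
    have h1 : ch l w 0 < 0 ∨ 1 / 2 ≤ ‖bx (ch l w)‖ := by
      refine region_D2 hl hl1 (ch l w) ?_
      rw [← hb]
      exact h
    rw [comm_eq hl w (fun _ => ?_)]
    · have h2 : Gbox (ch l w) = Cb (ch l w) := by
        rcases h1 with h1 | h1
        · exact Gbox_low hz.1 h1.le
        · rw [Gbox_out hz.1 (Or.inl h1), (Cb_out (ch l w) (Or.inl (by linarith))).1]
      rw [hb, trans_chI hl, trans_chI hl, h2]
    · rcases h1 with h1 | h1
      · exact Or.inl (by linarith)
      · exact Or.inr (Or.inl (by linarith))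
  · rw [comm_eq hl w (fun h' => absurd h' hU), trans_of_not Gbox hU, trans_of_not Cb hU]

theorem G1_back {l : ℝ} (hl : 0 < l) (hl1 : l ≤ 1) {w : En 14} (hw : w ∈ D1 (l / 48))
    (h : ‖q2 (trans l Gbox w)‖ < ‖q1 (trans l Gbox w)‖ / 2) : ‖q2 w‖ < ‖q1 w‖ / 2 := by
  by_cases hU : w ∈ chU
  · have hz := (GcG_zsub (GcG_zch hl hw.1 hU))
    have hb : w = chI l (ch l w) := (chI_ch hl hU).symm
    set b := ch l w with hbdef
    rw [hb, trans_chI hl] at h
    rw [hb]
    obtain ⟨k0, k13⟩ := Gbox_keep hz.1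
    rcases Gbox_norm hz.1 with ⟨n1, n2⟩ | ⟨n1, n2⟩
    · have h3 := norm_chI_congr l k0 n1 n2 k13
      rwa [h3.1, h3.2] at h
    · exfalso
      rcases region_D2 hl hl1 (Gbox b) h with h4 | h4
      · rw [k0] at h4
        linarith
      · linarith
  · rwa [trans_of_not Gbox hU] at h

end EXO
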