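import Mathlib

/-!
# EXO, GEO, module GcInv: injective immersions of open sets have open images and smooth inverses

The inverse function theorem, in a finite dimensional space.
-/

open scoped ContDiff

namespace EXO

theorem inj_imm_inverse {E : Type*} [NormedAddCommGroup E] [NormedSpace ℝ E]
    [FiniteDimensional ℝ E] {D : Set E} (hD : IsOpen D) {G : E → E} (hG : ContDiffOn ℝ ∞ G D)
    (hinj : Set.InjOn G D) (himm : ∀ x ∈ D, Function.Injective (fderiv ℝ G x)) :
    IsOpen (G '' D) ∧ ∃ K : E → E, ContDiffOn ℝ ∞ K (G '' D) ∧ ∀ x ∈ D, K (G x) = x := by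
  haveI : CompleteSpace E := FiniteDimensional.complete ℝ E
  -- the derivative as an equivalence
  have hA : ∀ x ∈ D, ∃ A : E ≃L[ℝ] E, HasFDerivAt G (A : E →L[ℝ] E) x := by
    intro x hx
    have h1 : Function.Injective ((fderiv ℝ G x : E →ₗ[ℝ] E)) := himm x hx
    refine ⟨(LinearEquiv.ofInjectiveEndo _ h1).toContinuousLinearEquiv, ?_⟩
    have h2 : DifferentiableAt ℝ G x :=
      (hG.contDiffAt (hD.mem_nhds hx)).differentiableAt (by simp)
    have h3 := h2.hasFDerivAt
    convert h3 using 1
    ext v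
    simp [LinearEquiv.ofInjectiveEndo]
  have hst : ∀ x ∈ D, ContDiffAt ℝ ∞ G x := fun x hx => hG.contDiffAt (hD.mem_nhds hx)
  have hopen : IsOpen (G '' D) := by
    rw [isOpen_iff_mem_nhds]
    rintro _ ⟨x, hx, rfl⟩
    obtain ⟨A, hA⟩ := hA x hx
    have hs : HasStrictFDerivAt G (A : E →L[ℝ] E) x := (hst x hx).hasStrictFDerivAt' hA (by simp)
    rw [← hs.map_nhds_eq_of_equiv]
    exact Filter.image_mem_map (hD.mem_nhds hx)
  refine ⟨hopen, Function.invFunOn G D, ?_, fun x hx => hinj.leftInvOn_invFunOn hx⟩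
  rintro _ ⟨x, hx, rfl⟩
  apply ContDiffAt.contDiffWithinAt
  obtain ⟨A, hA⟩ := hA x hx
  have hs : HasStrictFDerivAt G (A : E →L[ℝ] E) x := (hst x hx).hasStrictFDerivAt' hA (by simp)
  have h1 : ContDiffAt ℝ ∞ ((hst x hx).localInverse hA (by simp)) (G x) :=
    (hst x hx).to_localInverse hA (by simp)
  refine h1.congr_of_eventuallyEq ?_
  -- near G x both inverses agree
  have h2 : ∀ᶠ y in nhds (G x), G ((hst x hx).localInverse hA (by simp) y) = y :=
    hs.eventually_right_inverse
  have h3 : Filter.Tendsto ((hst x hx).localInverse hA (by simp)) (nhds (G x)) (nhds x) := by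
    have := h1.continuousAt.tendsto
    rwa [show (hst x hx).localInverse hA (by simp) (G x) = x from hs.localInverse_apply_image] at this
  filter_upwards [h2, h3 (hD.mem_nhds hx)] with y hy1 hy2
  have : Function.invFunOn G D (G ((hst x hx).localInverse hA (by simp) y))
      = (hst x hx).localInverse hA (by simp) y := hinj.leftInvOn_invFunOn hy2
  rw [hy1] at this
  exact this

end EXO
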