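import Pool.Agent.EXO.TCube

/-!
# EXO, part T, module TCov: simplicial families subordinate to finitely many hyperplanes

STATEMENT: for `Ω` open and a finite set `L` of affine functions there is a family `S` of simplices as in the
definition of a piecewise affine homeomorphism, on each member of which every `ℓ ∈ L` has a constant weak sign.

PROOF.  Take `𝒬` from `whitney`, for each `q ∈ 𝒬` a finite set `T_q` from `cut_cube q.1 q.2 L`, `S := ⋃_{q ∈ 𝒬} T_q`.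
Countable: `𝒬` is a subset of a countable type, `T_q` finite.  `spx v ⊆ dcube q ⊆ Ω`.
Disjoint interiors: `v ∈ T_q`, `w ∈ T_{q'}`: if `q = q'` from `cut_cube`, otherwise `interior (spx v) ⊆ interior (dcube q)`.
Covering: clear.  Local finiteness: a simplex of `T_q` meeting `K` forces `dcube q` to meet `K`: finitely many `q`, finitely
many `v` for each of them (`Set.Finite.biUnion`).
-/

namespace EXO

open Set Function

theorem exists_family {n : ℕ} (Ω : Set (Eu n)) (hΩ : IsOpen Ω) (L : Set (Eu n →ᵃ[ℝ] ℝ))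
    (hL : L.Finite) :
    ∃ S : Set (Fin (n + 1) → Eu n), S.Countable ∧
    (∀ v ∈ S, AffineIndependent ℝ v) ∧
    (∀ v ∈ S, spx v ⊆ Ω) ∧
    (∀ v ∈ S, ∀ w ∈ S, v ≠ w → Disjoint (interior (spx v)) (interior (spx w))) ∧
    (Ω ⊆ ⋃ v ∈ S, spx v) ∧
    (∀ K : Set (Eu n), IsCompact K → K ⊆ Ω → {v ∈ S | (spx v ∩ K).Nonempty}.Finite) ∧
    ∀ v ∈ S, ∀ ℓ ∈ L, (∀ x ∈ spx v, 0 ≤ ℓ x) ∨ (∀ x ∈ spx v, ℓ x ≤ 0) := by
  obtain ⟨Q, hQ1, hQ2, hQ3, hQ4⟩ := whitney Ω hΩ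
  choose T hT using fun q : ℕ × (Fin n → ℤ) => cut_cube q.1 q.2 L hL
  have hsub : ∀ q, ∀ v ∈ T q, spx v ⊆ dcube q.1 q.2 := by
    intro q v hv x hx
    rw [← (hT q).2.2.1]
    exact mem_iUnion₂.2 ⟨v, hv, hx⟩
  refine ⟨⋃ q ∈ Q, T q, ?_, ?_, ?_, ?_, ?_, ?_, ?_⟩
  · exact Set.Countable.biUnion (Set.to_countable Q) fun q _ => (hT q).1.countable
  · intro v hv
    obtain ⟨q, hq, hv⟩ := mem_iUnion₂.1 hv
    exact (hT q).2.1 v hv
  · intro v hv
    obtain ⟨q, hq, hv⟩ := mem_iUnion₂.1 hv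
    exact (hsub q v hv).trans (hQ1 q hq)
  · intro v hv w hw hvw
    obtain ⟨q, hq, hv⟩ := mem_iUnion₂.1 hv
    obtain ⟨r, hr, hw⟩ := mem_iUnion₂.1 hw
    by_cases hqr : q = r
    · subst hqr
      exact (hT q).2.2.2.1 v hv w hw hvw
    · exact (hQ2 q hq r hr hqr).mono (interior_mono (hsub q v hv)) (interior_mono (hsub r w hw))
  · intro x hx
    obtain ⟨q, hq, hxq⟩ := mem_iUnion₂.1 (hQ3 hx)
    rw [← (hT q).2.2.1] at hxq
    obtain ⟨v, hv, hxv⟩ := mem_iUnion₂.1 hxq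
    exact mem_iUnion₂.2 ⟨v, mem_iUnion₂.2 ⟨q, hq, hv⟩, hxv⟩
  · intro K hK hKΩ
    refine (Set.Finite.biUnion (hQ4 K hK hKΩ) fun q _ => (hT q).1).subset ?_
    rintro v ⟨hv, x, hxv, hxK⟩
    obtain ⟨q, hq, hv⟩ := mem_iUnion₂.1 hv
    exact mem_iUnion₂.2 ⟨q, ⟨hq, x, hsub q v hv hxv, hxK⟩, hv⟩
  · intro v hv
    obtain ⟨q, hq, hv⟩ := mem_iUnion₂.1 hv
    exact (hT q).2.2.2.2 v hv

end EXO
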