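import Pool.Agent.EXO.TBoxDefs
import Pool.Agent.EXO.TCov

/-!
# EXO, part T, module TGlue: inserting the piecewise affine model into `Ω`

`Ω` open bounded; in the affine coordinates `A` the part of `Ω` in the box `boxU ρ d0` is `{|z_i| < δ, |v| < d}` (`hΩ`), `d < d0 ≤ 1`.
`f_tot = gl A (boxU ρ d0) f`.

PROOF.  Write `U = boxU ρ d0`, `U' = {x | -1/2 ≤ x 0 ≤ 7/2, |x_i| ≤ ρ + 1/2 (i ∈ P), |x 13| ≤ d}`.
(0) There is `κ > 0` with `‖A x - A y‖ ≥ κ` for `x ∈ U'`, `y ∉ U`: some coordinate of `x - y` is at least `κ₀ = min(1/2, d0 - d)`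
in absolute value, so `‖x - y‖ ≥ κ₀`, and `A` is bilipschitz (a linear isomorphism plus a constant; finite dimension:
`c_A ‖x-y‖ ≤ ‖A x - A y‖ ≤ C_A ‖x-y‖`).
(1) If `y ∈ Ω` and `f_tot y ≠ y` then `x = A⁻¹ y ∈ U`, `f x ≠ x`, `|z_i| < δ`, `|x 13| < d`, and by `ident`, `keep`, `stay`: `x ∈ U'`
and `f x ∈ U'` (note `x 0 ∈ [-1/2, 7/2]` and `|x_i| < ρ+1/2`: contrapositive of `ident`).
(2) Two points `y, y' ∈ Ω`.  (2a) both `A⁻¹ y, A⁻¹ y' ∈ U`: then `A⁻¹ y, A⁻¹ y' ∈ zle δ` and the bounds follow from `bil` and (0).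
(2b) neither in `U`: `f_tot = id` on both.  (2c) `x = A⁻¹ y ∈ U`, `A⁻¹ y' ∉ U`: if `f_tot y = y` trivial.  Otherwise by (1) and (0):
`‖y - y'‖ ≥ κ` and `‖f_tot y - y'‖ ≥ κ`; all points are in a bounded set (`Ω` bounded; `f_tot y ∈ A '' U'` with `z`-coordinates
bounded because `f` is Lipschitz on the bounded set...: `‖f_tot y - y‖ ≤ C_A ‖f x - x‖`, and `‖f x - x‖` is bounded on
`U' ∩ zle δ` — a bounded set on which `f` is Lipschitz), so both ratios are bounded above and below.  Hence `f_tot` is bilipschitz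
on `Ω`: this gives `LipschitzOnWith`, injectivity, and the embedding property (`AntilipschitzWith.isEmbedding`/
`isUniformEmbedding` for `Ω.domRestrict f_tot`).
(3) Pieces: `L' := {ℓ ∘ A⁻¹ | ℓ ∈ L} ∪ {box faces ∘ A⁻¹}`, box faces: `x_0 + 1, x_0 - 4, x_i ± (ρ+1)` (`i ∈ P`), `x_13 ± d`, `x_13 ± d0`.
Take `S` from `exists_family Ω L'`.  Let `v ∈ S`, `K = A⁻¹(spx v)` (convex, `⊆ A⁻¹ Ω`).
  Case I: some `x ∈ K ∩ U`.  The faces have constant sign on `K` and are strict at `x` (`x ∈ U` and `|x 13| < d`, by `hΩ`), so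
  `-1 ≤ y 0 ≤ 4`, `|y_i| ≤ ρ+1`, `|y 13| ≤ d ≤ 1` for all `y ∈ K`.  `K ⊆ zle δ`: let `y ∈ K`; the points `y_t = (1-t) x + t y`, `t < 1`, are in
  `K ∩ U` (strict inequalities at `x`; `|y_t 13| < d < d0`), so in `zlt δ` by `hΩ`; `t → 1`.  So `f` is `AffOn K` (`sub`).  And
  `f_tot = A ∘ f ∘ A⁻¹` on `spx v`: for `y ∈ K`, if `y ∈ U` by definition; if `y ∉ U` then `y 0 = -1` or `= 4` or `|y_i| = ρ+1`
  (`|y 13| ≤ d < d0`), so `f y = y` by `ident`.  Hence `f_tot` is `AffOn (spx v)` and `AffOn.exists_affineMap` applies.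
  Case II: `K ∩ U = ∅`: `f_tot = id` on `spx v`.
-/

namespace EXO

open Set

/-- the map in the box coordinates -/
private noncomputable def hh51 (U : Set (Eu 14)) (f : Eu 14 → Eu 14) (x : Eu 14) : Eu 14 :=
  open Classical in if x ∈ U then f x else x

private theorem gl_eq51 (A : Eu 14 ≃ᵃ[ℝ] Eu 14) (U : Set (Eu 14)) (f : Eu 14 → Eu 14) (y : Eu 14) :
    gl A U f y = A (hh51 U f (A.symm y)) := by
  classical
  unfold gl hh51
  split_ifs with h
  · rfl
  · rw [AffineEquiv.apply_symm_apply]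

private theorem sep51 {ρ d d0 : ℝ} {x y : Eu 14} (hx0 : -1 / 2 ≤ x 0) (hx0' : x 0 ≤ 7 / 2)
    (hxP : ∀ i, isP i → |x i| ≤ ρ + 1 / 2) (hx13 : |x 13| ≤ d) (hy : y ∉ boxU ρ d0) :
    min (1 / 2) (d0 - d) ≤ ‖x - y‖ := by
  have nrm : ∀ i, |x i - y i| ≤ ‖x - y‖ := fun i => by
    have := PiLp.norm_apply_le (x - y) i
    rwa [PiLp.sub_apply, Real.norm_eq_abs] at this
  by_contra hc
  push Not at hc
  have k1 := min_le_left (1 / 2 : ℝ) (d0 - d)
  have k2 := min_le_right (1 / 2 : ℝ) (d0 - d)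
  have b : ∀ i, |x i - y i| < min (1 / 2) (d0 - d) := fun i => (nrm i).trans_lt hc
  apply hy
  refine ⟨?_, ?_, ?_, ?_⟩
  · have := (abs_lt.1 (b 0)).2
    linarith
  · have := (abs_lt.1 (b 0)).1
    linarith
  · intro i hi
    have h1 := abs_lt.1 (b i)
    have h2 := abs_le.1 (hxP i hi)
    rw [abs_lt]
    constructor <;> linarith
  · have h1 := abs_lt.1 (b 13)
    have h2 := abs_le.1 hx13
    rw [abs_lt]
    constructor <;> linarith

private theorem hh_bilip51 {δ ρ d d0 : ℝ} {f : Eu 14 → Eu 14} {L : Set (Eu 14 →ᵃ[ℝ] ℝ)}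
    (hf : PAModel δ ρ f L) (hδ : 0 < δ) (hdd : d < d0) {O : Set (Eu 14)}
    (hOb : Bornology.IsBounded O)
    (hO : ∀ x ∈ boxU ρ d0, x ∈ O → (x ∈ zlt δ ∧ |x 13| < d)) :
    ∃ c C : ℝ, 0 < c ∧ 0 ≤ C ∧ ∀ x ∈ O, ∀ y ∈ O,
      c * ‖x - y‖ ≤ ‖hh51 (boxU ρ d0) f x - hh51 (boxU ρ d0) f y‖ ∧
      ‖hh51 (boxU ρ d0) f x - hh51 (boxU ρ d0) f y‖ ≤ C * ‖x - y‖ := by
  classical
  obtain ⟨c, C, hc, hb⟩ := hf.bil
  obtain ⟨R, hR⟩ := hOb.subset_closedBall (0 : Eu 14)
  have zl : ∀ x : Eu 14, x ∈ zlt δ → x ∈ zle δ := fun x hx i hi => (hx i hi).le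
  have z0 : (0 : Eu 14) ∈ zle δ := fun i _ => by simp [hδ.le]
  set κ : ℝ := min (1 / 2) (d0 - d) with hκ
  have κpos : 0 < κ := lt_min (by norm_num) (by linarith)
  set C' : ℝ := max C 0 with hC'
  have hC0 : 0 ≤ C' := le_max_right _ _
  set B : ℝ := C' * |R| + ‖f 0‖ + |R| with hB
  have B0 : 0 ≤ B := by positivity
  have hmv : ∀ x ∈ O, x ∈ boxU ρ d0 → ‖f x - x‖ ≤ B := by
    intro x hx hxU
    have hxz := zl x (hO x hxU hx).1
    have h1 := (hb x hxz 0 z0).2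
    rw [sub_zero] at h1
    have hxR : ‖x‖ ≤ |R| := by
      have := hR hx
      rw [mem_closedBall_zero_iff] at this
      exact this.trans (le_abs_self R)
    have h2 : C * ‖x‖ ≤ C' * |R| :=
      mul_le_mul (le_max_left _ _) hxR (norm_nonneg _) hC0
    have h3 : ‖f x - x‖ ≤ ‖f x - f 0‖ + ‖f 0‖ + ‖x‖ := by
      have e : f x - x = (f x - f 0) + f 0 - x := by abel
      rw [e]
      exact (norm_sub_le _ _).trans (add_le_add (norm_add_le _ _) le_rfl)
    linarith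
  -- moved points
  have key : ∀ x ∈ O, x ∈ boxU ρ d0 → f x ≠ x → ∀ y, y ∉ boxU ρ d0 →
      κ ≤ ‖x - y‖ ∧ κ ≤ ‖f x - y‖ := by
    intro x hx hxU hfx y hy
    obtain ⟨h1, h2⟩ := hO x hxU hx
    have hxz := zl x h1
    have hn : ¬ (x 0 ≤ -1/2 ∨ 7/2 ≤ x 0 ∨ ∃ i, isP i ∧ ρ + 1/2 ≤ |x i|) :=
      fun h => hfx (hf.ident x hxz h)
    push Not at hn
    obtain ⟨n1, n2, n3⟩ := hn
    have hst := hf.stay x hxz hfx
    refine ⟨sep51 n1.le n2.le (fun i hi => (n3 i hi).le) h2.le hy, ?_⟩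
    refine sep51 ?_ ?_ hst ?_ hy
    · rw [hf.keep_s x hxz]; exact n1.le
    · rw [hf.keep_s x hxz]; exact n2.le
    · rw [hf.keep_v x hxz]; exact h2.le
  set T : ℝ := 1 + B / κ with hT
  have T1 : 1 ≤ T := by
    have : 0 ≤ B / κ := by positivity
    linarith
  have mixed : ∀ x ∈ O, x ∈ boxU ρ d0 → ∀ y, y ∉ boxU ρ d0 →
      ‖x - y‖ ≤ T * ‖f x - y‖ ∧ ‖f x - y‖ ≤ T * ‖x - y‖ := by
    intro x hx hxU y hy
    by_cases hfx : f x = x
    · rw [hfx]
      have := norm_nonneg (x - y)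
      constructor <;> nlinarith
    · obtain ⟨k1, k2⟩ := key x hx hxU hfx y hy
      have hm := hmv x hx hxU
      have t1 : ‖x - y‖ ≤ ‖f x - y‖ + B := by
        have e : x - y = (f x - y) - (f x - x) := by abel
        rw [e]
        exact (norm_sub_le _ _).trans (add_le_add le_rfl hm)
      have t2 : ‖f x - y‖ ≤ ‖x - y‖ + B := by
        have e : f x - y = (x - y) + (f x - x) := by abel
        rw [e]
        exact (norm_add_le _ _).trans (add_le_add le_rfl hm)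
      have b1 : B ≤ B / κ * ‖f x - y‖ := by
        rw [div_mul_eq_mul_div, le_div_iff₀ κpos]
        exact mul_le_mul_of_nonneg_left k2 B0
      have b2 : B ≤ B / κ * ‖x - y‖ := by
        rw [div_mul_eq_mul_div, le_div_iff₀ κpos]
        exact mul_le_mul_of_nonneg_left k1 B0
      constructor
      · rw [hT, add_mul, one_mul]; linarith
      · rw [hT, add_mul, one_mul]; linarith
  have Tpos : 0 < T := by linarith
  refine ⟨min c (1 / T), max C' T, lt_min hc (by positivity), hC0.trans (le_max_left _ _), ?_⟩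
  have m1 : min c (1 / T) ≤ c := min_le_left _ _
  have m2 : min c (1 / T) ≤ 1 / T := min_le_right _ _
  have m3 : 1 / T ≤ 1 := by rw [div_le_one Tpos]; exact T1
  have M1 : C' ≤ max C' T := le_max_left _ _
  have M2 : T ≤ max C' T := le_max_right _ _
  have mix2 : ∀ x ∈ O, x ∈ boxU ρ d0 → ∀ y, y ∉ boxU ρ d0 →
      min c (1 / T) * ‖x - y‖ ≤ ‖f x - y‖ ∧ ‖f x - y‖ ≤ max C' T * ‖x - y‖ := by
    intro x hx hxU y hy
    obtain ⟨a1, a2⟩ := mixed x hx hxU y hy
    have n1 := norm_nonneg (x - y)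
    refine ⟨?_, a2.trans (mul_le_mul_of_nonneg_right M2 n1)⟩
    refine (mul_le_mul_of_nonneg_right m2 n1).trans ?_
    rw [one_div, inv_mul_le_iff₀ Tpos]
    exact a1
  intro x hx y hy
  have n1 := norm_nonneg (x - y)
  by_cases hxU : x ∈ boxU ρ d0
  · by_cases hyU : y ∈ boxU ρ d0
    · have ex : hh51 (boxU ρ d0) f x = f x := if_pos hxU
      have ey : hh51 (boxU ρ d0) f y = f y := if_pos hyU
      rw [ex, ey]
      obtain ⟨a1, a2⟩ := hb x (zl x (hO x hxU hx).1) y (zl y (hO y hyU hy).1)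
      exact ⟨(mul_le_mul_of_nonneg_right m1 n1).trans a1,
        a2.trans (mul_le_mul_of_nonneg_right ((le_max_left _ _).trans M1) n1)⟩
    · have ex : hh51 (boxU ρ d0) f x = f x := if_pos hxU
      have ey : hh51 (boxU ρ d0) f y = y := if_neg hyU
      rw [ex, ey]
      exact mix2 x hx hxU y hyU
  · by_cases hyU : y ∈ boxU ρ d0
    · have ex : hh51 (boxU ρ d0) f x = x := if_neg hxU
      have ey : hh51 (boxU ρ d0) f y = f y := if_pos hyU
      rw [ex, ey, norm_sub_rev x y, norm_sub_rev x (f y)]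
      exact mix2 y hy hyU x hxU
    · have ex : hh51 (boxU ρ d0) f x = x := if_neg hxU
      have ey : hh51 (boxU ρ d0) f y = y := if_neg hyU
      rw [ex, ey]
      constructor
      · nlinarith
      · nlinarith

/-- coordinate plus constant -/
private noncomputable def face51 (i : Fin 14) (c : ℝ) : Eu 14 →ᵃ[ℝ] ℝ :=
  (EuclideanSpace.proj i : Eu 14 →L[ℝ] ℝ).toLinearMap.toAffineMap + AffineMap.const ℝ (Eu 14) c

private theorem face_apply51 (i : Fin 14) (c : ℝ) (x : Eu 14) : face51 i c x = x i + c := rfl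

private theorem piece51 {δ ρ d d0 : ℝ} {f : Eu 14 → Eu 14} {L : Set (Eu 14 →ᵃ[ℝ] ℝ)}
    (hf : PAModel δ ρ f L) (hdd : d < d0) (hd0 : d0 ≤ 1)
    (A : Eu 14 ≃ᵃ[ℝ] Eu 14) {Ω : Set (Eu 14)}
    (hΩ : ∀ x ∈ boxU ρ d0, A x ∈ Ω ↔ (x ∈ zlt δ ∧ |x 13| < d))
    {v : Fin (14 + 1) → Eu 14} (hv : AffineIndependent ℝ v) (hvΩ : spx v ⊆ Ω)
    (hsign : ∀ ℓ : Eu 14 →ᵃ[ℝ] ℝ, (ℓ ∈ L ∨ ∃ i, ∃ c ∈ ({1, -4, d, -d, ρ + 1, -(ρ + 1)} : Set ℝ),
        ℓ = face51 i c) →
      (∀ x, A x ∈ spx v → 0 ≤ ℓ x) ∨ (∀ x, A x ∈ spx v → ℓ x ≤ 0)) :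
    ∃ B : Eu 14 →ᵃ[ℝ] Eu 14, EqOn (gl A (boxU ρ d0) f) B (spx v) := by
  classical
  have hconv : Convex ℝ (spx v) := convex_convexHull ℝ _
  set K : Set (Eu 14) := {x | A x ∈ spx v} with hK
  have hKc : ∀ x ∈ K, ∀ y ∈ K, ∀ θ : ℝ, 0 ≤ θ → θ ≤ 1 → (1 - θ) • x + θ • y ∈ K := by
    intro x hx y hy θ h0 h1
    show A ((1 - θ) • x + θ • y) ∈ spx v
    have e : A ((1 - θ) • x + θ • y) = (1 - θ) • A x + θ • A y :=
      Convex.combo_affine_apply (f := (A : Eu 14 →ᵃ[ℝ] Eu 14)) (by ring)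
    rw [e]
    exact hconv hx hy (by linarith) h0 (by ring)
  by_cases hcase : ∃ x0 ∈ K, x0 ∈ boxU ρ d0
  · obtain ⟨x0, hx0K, hx0U⟩ := hcase
    have hx0Ω := (hΩ x0 hx0U).1 (hvΩ hx0K)
    obtain ⟨u1, u2, u3, u4⟩ := hx0U
    obtain ⟨w1, w2⟩ := hx0Ω
    have pos : ∀ i, ∀ c ∈ ({1, -4, d, -d, ρ + 1, -(ρ + 1)} : Set ℝ), 0 < x0 i + c →
        ∀ y ∈ K, 0 ≤ y i + c := by
      intro i c hc h0 y hy
      rcases hsign (face51 i c) (Or.inr ⟨i, c, hc, rfl⟩) with h | h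
      · exact h y hy
      · exact absurd (h x0 hx0K) (not_le.2 h0)
    have neg : ∀ i, ∀ c ∈ ({1, -4, d, -d, ρ + 1, -(ρ + 1)} : Set ℝ), x0 i + c < 0 →
        ∀ y ∈ K, y i + c ≤ 0 := by
      intro i c hc h0 y hy
      rcases hsign (face51 i c) (Or.inr ⟨i, c, hc, rfl⟩) with h | h
      · exact absurd (h x0 hx0K) (not_le.2 h0)
      · exact h y hy
    have K1 : ∀ y ∈ K, -1 ≤ y 0 := fun y hy => by
      have := pos 0 1 (by simp) (by linarith) y hy
      linarith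
    have K2 : ∀ y ∈ K, y 0 ≤ 4 := fun y hy => by
      have := neg 0 (-4) (by simp) (by linarith) y hy
      linarith
    have K3 : ∀ y ∈ K, ∀ i, isP i → |y i| ≤ ρ + 1 := fun y hy i hi => by
      have h1 := abs_lt.1 (u3 i hi)
      have h2 := pos i (ρ + 1) (by simp) (by linarith) y hy
      have h3 := neg i (-(ρ + 1)) (by simp) (by linarith) y hy
      rw [abs_le]
      constructor <;> linarith
    have K4 : ∀ y ∈ K, |y 13| ≤ d := fun y hy => by
      have h1 := abs_lt.1 w2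
      have h2 := pos 13 d (by simp) (by linarith) y hy
      have h3 := neg 13 (-d) (by simp) (by linarith) y hy
      rw [abs_le]
      constructor <;> linarith
    have Kz : K ⊆ zle δ := by
      intro y hy i hi
      have ht : Filter.Tendsto (fun t : ℝ => |(1 - t) * x0 i + t * y i|)
          (nhdsWithin 1 (Set.Iio 1)) (nhds |y i|) := by
        have hcont : Continuous fun t : ℝ => |(1 - t) * x0 i + t * y i| := by fun_prop
        have := (hcont.tendsto 1).mono_left (nhdsWithin_le_nhds (s := Set.Iio (1 : ℝ)))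
        simpa using this
      refine le_of_tendsto ht ?_
      filter_upwards [Ioo_mem_nhdsLT (show (0 : ℝ) < 1 by norm_num)] with t ht
      have hyt : (1 - t) • x0 + t • y ∈ K := hKc x0 hx0K y hy t ht.1.le ht.2.le
      have co : ∀ j, ((1 - t) • x0 + t • y) j = (1 - t) * x0 j + t * y j := by
        intro j
        simp
      have hytU : (1 - t) • x0 + t • y ∈ boxU ρ d0 := by
        refine ⟨?_, ?_, ?_, ?_⟩
        · rw [co]
          nlinarith [K1 y hy, ht.1, ht.2]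
        · rw [co]
          nlinarith [K2 y hy, ht.1, ht.2]
        · intro j hj
          rw [co]
          have h1 := abs_lt.1 (u3 j hj)
          have h2 := abs_le.1 (K3 y hy j hj)
          rw [abs_lt]
          constructor <;> nlinarith [ht.1, ht.2]
        · have := (K4 _ hyt)
          linarith
      have hz := ((hΩ _ hytU).1 (hvΩ hyt)).1 i hi
      rw [co] at hz
      exact hz.le
    have haff : AffOn f K := by
      refine hf.sub K ?_ ?_
      · intro y hy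
        exact ⟨Kz hy, K1 y hy, K2 y hy, K3 y hy, (K4 y hy).trans (by linarith)⟩
      · intro ℓ hℓ
        rcases hsign ℓ (Or.inl hℓ) with h | h
        · exact Or.inl fun x hx => h x hx
        · exact Or.inr fun x hx => h x hx
    have hge : ∀ y ∈ spx v, gl A (boxU ρ d0) f y = A (f (A.symm y)) := by
      intro y hy
      have hyK : A.symm y ∈ K := by
        show A (A.symm y) ∈ spx v
        rwa [AffineEquiv.apply_symm_apply]
      unfold gl
      split_ifs with h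
      · rfl
      · have hid : f (A.symm y) = A.symm y := by
          refine hf.ident _ (Kz hyK) ?_
          by_contra hc
          push Not at hc
          obtain ⟨c1, c2, c3⟩ := hc
          apply h
          refine ⟨by linarith, by linarith, fun i hi => by linarith [c3 i hi], ?_⟩
          exact (K4 _ hyK).trans_lt hdd
        rw [hid, AffineEquiv.apply_symm_apply]
    refine AffOn.exists_affineMap hv ?_
    intro x hx y hy θ h0 h1
    have hm : (1 - θ) • x + θ • y ∈ spx v := hconv hx hy (by linarith) h0 (by ring)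
    rw [hge x hx, hge y hy, hge _ hm]
    have e1 : A.symm ((1 - θ) • x + θ • y) = (1 - θ) • A.symm x + θ • A.symm y :=
      Convex.combo_affine_apply (f := (A.symm : Eu 14 →ᵃ[ℝ] Eu 14)) (by ring)
    have hxK : A.symm x ∈ K := by
      show A (A.symm x) ∈ spx v
      rwa [AffineEquiv.apply_symm_apply]
    have hyK : A.symm y ∈ K := by
      show A (A.symm y) ∈ spx v
      rwa [AffineEquiv.apply_symm_apply]
    rw [e1, haff _ hxK _ hyK θ h0 h1]
    exact Convex.combo_affine_apply (f := (A : Eu 14 →ᵃ[ℝ] Eu 14)) (by ring)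
  · refine ⟨AffineMap.id ℝ _, fun y hy => ?_⟩
    unfold gl
    rw [if_neg]
    · rfl
    · intro h
      exact hcase ⟨A.symm y, by
        show A (A.symm y) ∈ spx v
        rwa [AffineEquiv.apply_symm_apply], h⟩

theorem glue_pa {δ ρ d d0 : ℝ} {f : Eu 14 → Eu 14} {L : Set (Eu 14 →ᵃ[ℝ] ℝ)}
    (hf : PAModel δ ρ f L) (hδ : 0 < δ) (hρ : 0 < ρ) (hd : 0 < d) (hdd : d < d0) (hd0 : d0 ≤ 1)
    (A : Eu 14 ≃ᵃ[ℝ] Eu 14) {Ω : Set (Eu 14)} (hΩo : IsOpen Ω) (hΩb : Bornology.IsBounded Ω)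
    (hΩ : ∀ x ∈ boxU ρ d0, A x ∈ Ω ↔ (x ∈ zlt δ ∧ |x 13| < d)) :
    IsPAHomeo Ω (gl A (boxU ρ d0) f) ∧ ∃ C : NNReal, LipschitzOnWith C (gl A (boxU ρ d0) f) Ω := by
  classical
  set U := boxU ρ d0 with hU
  set O : Set (Eu 14) := {x | A x ∈ Ω} with hO
  set T : Eu 14 ≃L[ℝ] Eu 14 := A.linear.toContinuousLinearEquiv with hT
  have hTA : ∀ x y : Eu 14, A x - A y = T (x - y) := by
    intro x y
    have := A.toAffineMap.linearMap_vsub x y
    simp only [vsub_eq_sub] at this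
    exact this.symm
  have up : ∀ x y : Eu 14, ‖A x - A y‖ ≤ ‖(T : Eu 14 →L[ℝ] Eu 14)‖ * ‖x - y‖ := by
    intro x y
    rw [hTA]
    exact (T : Eu 14 →L[ℝ] Eu 14).le_opNorm (x - y)
  have lo : ∀ x y : Eu 14, ‖x - y‖ ≤ ‖(T.symm : Eu 14 →L[ℝ] Eu 14)‖ * ‖A x - A y‖ := by
    intro x y
    have h1 := (T.symm : Eu 14 →L[ℝ] Eu 14).le_opNorm (T (x - y))
    rw [hTA]
    simpa using h1
  have hOb : Bornology.IsBounded O := by
    obtain ⟨R, hR⟩ := hΩb.subset_closedBall (A 0)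
    refine (Metric.isBounded_closedBall (x := (0 : Eu 14))
      (r := ‖(T.symm : Eu 14 →L[ℝ] Eu 14)‖ * R)).subset ?_
    intro x hx
    rw [mem_closedBall_zero_iff]
    have h1 := lo x 0
    rw [sub_zero] at h1
    have h2 := hR hx
    rw [Metric.mem_closedBall, dist_eq_norm] at h2
    exact h1.trans (mul_le_mul_of_nonneg_left h2 (norm_nonneg _))
  obtain ⟨c, C, hc, hC, hb⟩ := hh_bilip51 hf hδ hdd hOb (fun x hx hxO => (hΩ x hx).1 hxO)
  have hmem : ∀ y ∈ Ω, A.symm y ∈ O := by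
    intro y hy
    show A (A.symm y) ∈ Ω
    rwa [AffineEquiv.apply_symm_apply]
  set τ := ‖(T : Eu 14 →L[ℝ] Eu 14)‖ with hτ
  set τ' := ‖(T.symm : Eu 14 →L[ℝ] Eu 14)‖ with hτ'
  have τ0 : 0 ≤ τ := norm_nonneg _
  have τ0' : 0 ≤ τ' := norm_nonneg _
  have hup : ∀ y ∈ Ω, ∀ z ∈ Ω, ‖gl A U f y - gl A U f z‖ ≤ τ * (C * τ') * ‖y - z‖ := by
    intro y hy z hz
    rw [gl_eq51, gl_eq51]
    have h1 := up (hh51 U f (A.symm y)) (hh51 U f (A.symm z))
    have h2 := (hb _ (hmem y hy) _ (hmem z hz)).2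
    have h3 := lo (A.symm y) (A.symm z)
    rw [AffineEquiv.apply_symm_apply, AffineEquiv.apply_symm_apply] at h3
    calc _ ≤ τ * ‖hh51 U f (A.symm y) - hh51 U f (A.symm z)‖ := h1
      _ ≤ τ * (C * (τ' * ‖y - z‖)) :=
        mul_le_mul_of_nonneg_left (h2.trans (mul_le_mul_of_nonneg_left h3 hC)) τ0
      _ = _ := by ring
  have hlo : ∀ y ∈ Ω, ∀ z ∈ Ω, ‖y - z‖ ≤ τ * (τ' / c) * ‖gl A U f y - gl A U f z‖ := by
    intro y hy z hz
    rw [gl_eq51, gl_eq51]
    have h1 := lo (hh51 U f (A.symm y)) (hh51 U f (A.symm z))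
    have h2 := (hb _ (hmem y hy) _ (hmem z hz)).1
    have h3 := up (A.symm y) (A.symm z)
    rw [AffineEquiv.apply_symm_apply, AffineEquiv.apply_symm_apply] at h3
    have h4 : ‖A.symm y - A.symm z‖ ≤ (τ' / c) *
        ‖A (hh51 U f (A.symm y)) - A (hh51 U f (A.symm z))‖ := by
      rw [div_mul_eq_mul_div, le_div_iff₀ hc, mul_comm]
      exact h2.trans h1
    calc _ ≤ τ * ‖A.symm y - A.symm z‖ := h3
      _ ≤ τ * ((τ' / c) * ‖A (hh51 U f (A.symm y)) - A (hh51 U f (A.symm z))‖) :=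
        mul_le_mul_of_nonneg_left h4 τ0
      _ = _ := by ring
  have hlip : LipschitzOnWith (Real.toNNReal (τ * (C * τ'))) (gl A U f) Ω := by
    refine LipschitzOnWith.of_dist_le_mul fun y hy z hz => ?_
    rw [Real.coe_toNNReal _ (by positivity), dist_eq_norm, dist_eq_norm]
    exact hup y hy z hz
  refine ⟨⟨?_, ?_⟩, _, hlip⟩
  · have hl : LipschitzWith (Real.toNNReal (τ * (C * τ'))) (Ω.domRestrict (gl A U f)) := by
      refine LipschitzWith.of_dist_le_mul fun y z => ?_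
      rw [Real.coe_toNNReal _ (by positivity)]
      show dist (gl A U f y) (gl A U f z) ≤ _ * dist (y : Eu 14) z
      rw [dist_eq_norm, dist_eq_norm]
      exact hup y y.2 z z.2
    have ha : AntilipschitzWith (Real.toNNReal (τ * (τ' / c))) (Ω.domRestrict (gl A U f)) := by
      refine AntilipschitzWith.of_le_mul_dist fun y z => ?_
      rw [Real.coe_toNNReal _ (by positivity)]
      show dist (y : Eu 14) z ≤ _ * dist (gl A U f y) (gl A U f z)
      rw [dist_eq_norm, dist_eq_norm]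
      exact hlo y y.2 z z.2
    exact (ha.isUniformEmbedding hl.uniformContinuous).isEmbedding
  · set Faces : Set (Eu 14 →ᵃ[ℝ] ℝ) := {ℓ | ∃ i, ∃ c ∈ ({1, -4, d, -d, ρ + 1, -(ρ + 1)} : Set ℝ),
        ℓ = face51 i c} with hFaces
    have hFf : Faces.Finite := by
      have h1 : ({1, -4, d, -d, ρ + 1, -(ρ + 1)} : Set ℝ).Finite := Set.toFinite _
      refine ((Set.finite_univ (α := Fin 14)).image2 face51 h1).subset ?_
      rintro ℓ ⟨i, c, hc, rfl⟩
      exact ⟨i, mem_univ i, c, hc, rfl⟩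
    obtain ⟨S, s1, s2, s3, s4, s5, s6, s7⟩ := exists_family Ω hΩo
      ((fun ℓ : Eu 14 →ᵃ[ℝ] ℝ => ℓ.comp (A.symm : Eu 14 →ᵃ[ℝ] Eu 14)) '' (L ∪ Faces))
      ((hf.fin.union hFf).image _)
    refine ⟨S, s1, s2, s3, s4, s5, s6, fun v hv => ?_⟩
    refine piece51 hf hdd hd0 A hΩ (s2 v hv) (s3 v hv) ?_
    intro ℓ hℓ
    have hmem' : ℓ ∈ L ∪ Faces := by
      rcases hℓ with h | h
      · exact Or.inl h
      · exact Or.inr h
    rcases s7 v hv _ ⟨ℓ, hmem', rfl⟩ with h | h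
    · left
      intro x hx
      have := h (A x) hx
      simpa using this
    · right
      intro x hx
      have := h (A x) hx
      simpa using this

end EXO
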