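import Pool.Agent.EXO.GcF
import Pool.Agent.EXO.GcG
import Pool.Agent.EXO.GcInv
import Pool.Agent.EXO.TGlue

/-!
# EXO, GEO, module GcJ: the data `JData`

`d = l/48`, `Ω = e '' cyl d`, `f0 = gl A U model`, `j1 = e ∘ trans l Gbox ∘ t2 l`, `j2 = e ∘ t1 l`, `J1 = j1 '' D1 d`, `J2 = j2 '' D2 d`, `k1`, `k2`
from `inj_imm_inverse`, `h1 = hh1 l = t2i l ∘ trans l Cbi`.

PROOFS.
* `t2 l` maps `D1 d` onto itself (`t_pres`: `gq`, `q3`, `‖q2‖` are preserved), smooth there with the smooth inverse `t2i l`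
(`contDiffOn_t2`), hence injective and immersive; `G1_smooth/inj/imm`; `e` smooth, injective, immersive (smooth inverse): so `j1` is smooth,
injective, immersive on the open set `D1 d`: `inj_imm_inverse`.  Same for `j2` on `D2 d` (`q1 ≠ 0` there since `‖q2‖ < ‖q1‖/2`).
* compatibility.  (a) Let `w₁ ∈ D1 d`, `‖q2 w₁‖ < ‖q1 w₁‖/2`, `w' = t2 l w₁` (same norms, in `D1 d`).  `G1_eq_C`: `trans l Gbox w' = t1 (t2 (t1i (t2i w')))
= t1 (t2 (t1i w₁)) = t1 (tt14 l w₁)` (`tt14_eq`).  `tt14 l w₁ ∈ D2 d` by `t_pres`.  So `j1 w₁ = j2 (tt14 l w₁)`.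
(b) Let `w₁ ∈ D1 d`, `w₂ ∈ D2 d`, `j1 w₁ = j2 w₂`: `trans l Gbox (t2 l w₁) = t1 l w₂` (`e` injective), so `‖q2 (..)‖ < ‖q1 (..)‖/2`, `G1_back`:
`‖q2 w₁‖ < ‖q1 w₁‖/2` (norms of `t2 l w₁`).
`inter`: from (a), (b).  `compat`: `y ∈ J1 ∩ J2`, `y = j1 w₁ = j2 w₂`; by (b), (a) `j2 w₂ = j2 (tt14 l w₁)`, `j2` injective on `D2 d`: `w₂ = tt14 l w₁`.
`inter2`: `w₂ ∈ D2 d`, `q2 w₂ ≠ 0`: `w₁ := t1 l (t2i l w₂) ∈ D1 d` with the same norms, `tt14 l w₁ = w₂`, by (a) `j1 w₁ = j2 w₂`.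
* `h1_norm`: `pres_C`, `t_pres`.  `h1_surj`: `w' = trans l Cb (t2 l w)`: `trans_comp`, `Cbi_Cb`: `trans l Cbi (trans l Cb u) = trans l id u = u`.
* `f0_e1`: `j1 (hh1 l w) = e (trans l Gbox (t2 (t2i (trans l Cbi w)))) = e (trans l Gbox (trans l Cbi w)) = e (trans l (Gbox ∘ Cbi) w) =
e (trans l model w)` (`trans_comp`, `Gbox_Cbi`) `= f0 (e w)` (`f0_e`).
* `f0_e2`: `w ∈ D2 d`: `j2 (t1i l w) = e w`; `f0 (e w) = e (trans l model w)`, and `trans l model w = w`: `w ∉ chU` trivial; `w = chI l b`: by `region_D2`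
`b 0 < 0` (`model b = Fbox b = b`, `id_low`), or `‖bx b‖ ≥ 1/2`: `model b = Gbox (Cbi b)` with `Cbi b = b` (`Cb_out`) `= b` (`Gbox_out`).
-/

set_option maxSynthPendingDepth 3

open scoped ContDiff Quaternion
open Pool.Agent.EXO

namespace EXO

private theorem GcJ_id {l : ℝ} (hl : 0 < l) (w : En 14) : trans l (fun b => b) w = w := by
  by_cases h : w ∈ chU
  · rw [← chI_ch hl h, trans_chI hl]
  · exact trans_of_not _ h

private theorem GcJ_imm {f g : En 14 → En 14} {w : En 14} (hf : DifferentiableAt ℝ f w)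
    (hg : DifferentiableAt ℝ g (f w)) (h : ∀ x, g (f x) = x) :
    Function.Injective (fderiv ℝ f w) := by
  have e2 : fderiv ℝ (g ∘ f) w = (fderiv ℝ g (f w)).comp (fderiv ℝ f w) := fderiv_comp w hg hf
  have e3 : g ∘ f = id := funext h
  rw [e3, fderiv_id] at e2
  have h3 : ∀ v, v = fderiv ℝ g (f w) (fderiv ℝ f w v) := fun v => by
    have := congrArg (fun L : En 14 →L[ℝ] En 14 => L v) e2
    simpa using this
  intro u v huv
  rw [h3 u, h3 v, huv]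

private theorem GcJ_comp {f g : En 14 → En 14} {w : En 14} (hf : DifferentiableAt ℝ f w)
    (hg : DifferentiableAt ℝ g (f w)) (h1 : Function.Injective (fderiv ℝ f w))
    (h2 : Function.Injective (fderiv ℝ g (f w))) :
    Function.Injective (fderiv ℝ (fun x => g (f x)) w) := by
  have e2 : fderiv ℝ (g ∘ f) w = (fderiv ℝ g (f w)).comp (fderiv ℝ f w) := fderiv_comp w hg hf
  show Function.Injective (fderiv ℝ (g ∘ f) w)
  rw [e2]
  exact h2.comp h1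

/-- same norms and same `q3` -/
private def GcJ_N (w' w : En 14) : Prop :=
  ‖q1 w'‖ = ‖q1 w‖ ∧ ‖q2 w'‖ = ‖q2 w‖ ∧ q3 w' = q3 w

private theorem GcJ_N.trans' {a b c : En 14} (h1 : GcJ_N a b) (h2 : GcJ_N b c) : GcJ_N a c :=
  ⟨h1.1.trans h2.1, h1.2.1.trans h2.2.1, h1.2.2.trans h2.2.2⟩

private theorem GcJ_N.cyl {w' w : En 14} (h : GcJ_N w' w) {d : ℝ} (hw : w ∈ cyl d) :
    w' ∈ cyl d := by
  have hg : gq w' = gq w := by
    unfold gq
    rw [h.1, h.2.1]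
  obtain ⟨h1, h2, h3⟩ := hw
  refine ⟨?_, ?_, ?_⟩
  · rw [hg]; exact h1
  · rw [hg]; exact h2
  · rw [h.2.2]; exact h3

private theorem GcJ_N.ne {w' w : En 14} (h : GcJ_N w' w) (hw : q2 w ≠ 0) : q2 w' ≠ 0 := by
  rw [← norm_ne_zero_iff] at hw ⊢
  rw [h.2.1]
  exact hw

private theorem GcJ_N.lt {w' w : En 14} (h : GcJ_N w' w) (hw : ‖q2 w‖ < ‖q1 w‖ / 2) :
    ‖q2 w'‖ < ‖q1 w'‖ / 2 := by
  rw [h.2.1, h.1]
  exact hw

private theorem GcJ_N.symm' {w' w : En 14} (h : GcJ_N w' w) : GcJ_N w w' :=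
  ⟨h.1.symm, h.2.1.symm, h.2.2.symm⟩

private theorem GcJ_N.D1 {w' w : En 14} (h : GcJ_N w' w) {d : ℝ} (hw : w ∈ D1 d) : w' ∈ D1 d :=
  ⟨h.cyl hw.1, h.ne hw.2⟩

private theorem GcJ_N.D2 {w' w : En 14} (h : GcJ_N w' w) {d : ℝ} (hw : w ∈ D2 d) : w' ∈ D2 d :=
  ⟨h.cyl hw.1, h.lt hw.2⟩

private theorem GcJ_t {l : ℝ} (hl : 0 < l) (w : En 14) :
    GcJ_N (t1 l w) w ∧ GcJ_N (t1i l w) w ∧ GcJ_N (t2 l w) w ∧ GcJ_N (t2i l w) w := by
  obtain ⟨h1, h2, h3, h4⟩ := t_pres hl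
  exact ⟨⟨(h1 w).1, (h1 w).2.1, (h1 w).2.2.1⟩, ⟨(h2 w).1, (h2 w).2.1, (h2 w).2.2.1⟩,
    ⟨(h3 w).1, (h3 w).2.1, (h3 w).2.2.1⟩, ⟨(h4 w).1, (h4 w).2.1, (h4 w).2.2.1⟩⟩

private theorem GcJ_open1 : IsOpen {w : En 14 | q1 w ≠ 0} := by
  have h : Continuous (fun w : En 14 => q1 w) := by
    unfold q1
    fun_prop
  exact isOpen_ne_fun h continuous_const

private theorem GcJ_open2 : IsOpen {w : En 14 | q2 w ≠ 0} := by
  have h : Continuous (fun w : En 14 => q2 w) := by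
    unfold q2
    fun_prop
  exact isOpen_ne_fun h continuous_const

section str

variable {l : ℝ} {e e' : En 14 → En 14} {A : Eu 14 ≃ᵃ[ℝ] Eu 14} (S : Str l e e' A)

include S

private theorem GcJ_einj : Function.Injective e := fun a b h => by
  rw [← S.left a, ← S.left b, h]

private theorem GcJ_eimm (w : En 14) : Function.Injective (fderiv ℝ e w) :=
  GcJ_imm ((S.e_smooth.differentiable (by simp)).differentiableAt)
    ((S.e'_smooth.differentiable (by simp)).differentiableAt) S.left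

private theorem GcJ_ediff (w : En 14) : DifferentiableAt ℝ e w :=
  (S.e_smooth.differentiable (by simp)).differentiableAt

private theorem GcJ_j1_smooth :
    ContDiffOn ℝ ∞ (fun w => e (trans l Gbox (t2 l w))) (D1 (l / 48)) := by
  have hl := S.l_pos
  have h1 : ContDiffOn ℝ ∞ (t2 l) (D1 (l / 48)) := (contDiffOn_t2 hl).1.mono fun w hw => hw.2
  have h2 : ContDiffOn ℝ ∞ (fun w => trans l Gbox (t2 l w)) (D1 (l / 48)) :=
    (G1_smooth hl).comp h1 fun w hw => (GcJ_t hl w).2.2.1.D1 hw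
  exact S.e_smooth.comp_contDiffOn h2

private theorem GcJ_j1_inj : Set.InjOn (fun w => e (trans l Gbox (t2 l w))) (D1 (l / 48)) := by
  have hl := S.l_pos
  intro a ha b hb hab
  have h1 : trans l Gbox (t2 l a) = trans l Gbox (t2 l b) := GcJ_einj S hab
  have h2 := G1_inj hl ((GcJ_t hl a).2.2.1.D1 ha) ((GcJ_t hl b).2.2.1.D1 hb) h1
  rw [← (t2_t2i hl a).2, ← (t2_t2i hl b).2, h2]

private theorem GcJ_j1_imm : ∀ w ∈ D1 (l / 48),
    Function.Injective (fderiv ℝ (fun w => e (trans l Gbox (t2 l w))) w) := by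
  have hl := S.l_pos
  intro w hw
  have hw' : t2 l w ∈ D1 (l / 48) := (GcJ_t hl w).2.2.1.D1 hw
  have d1 : DifferentiableAt ℝ (t2 l) w :=
    ((contDiffOn_t2 hl).1.contDiffAt (GcJ_open2.mem_nhds hw.2)).differentiableAt (by simp)
  have d2 : DifferentiableAt ℝ (t2i l) (t2 l w) :=
    ((contDiffOn_t2 hl).2.contDiffAt (GcJ_open2.mem_nhds hw'.2)).differentiableAt (by simp)
  have i1 : Function.Injective (fderiv ℝ (t2 l) w) := GcJ_imm d1 d2 fun x => (t2_t2i hl x).2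
  have d3 : DifferentiableAt ℝ (trans l Gbox) (t2 l w) :=
    ((G1_smooth hl).contDiffAt ((isOpen_D (l / 48)).2.1.mem_nhds hw')).differentiableAt (by simp)
  have i2 : Function.Injective (fderiv ℝ (fun w => trans l Gbox (t2 l w)) w) :=
    GcJ_comp d1 d3 i1 (G1_imm hl _ hw')
  have d4 : DifferentiableAt ℝ (fun w => trans l Gbox (t2 l w)) w := d3.comp w d1
  exact GcJ_comp d4 (GcJ_ediff S _) i2 (GcJ_eimm S _)

omit S in
private theorem GcJ_q1ne {w : En 14} {d : ℝ} (hw : w ∈ D2 d) : q1 w ≠ 0 := by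
  intro h
  have h1 := hw.2
  rw [h, norm_zero] at h1
  have := norm_nonneg (q2 w)
  linarith

private theorem GcJ_j2_smooth : ContDiffOn ℝ ∞ (fun w => e (t1 l w)) (D2 (l / 48)) := by
  have hl := S.l_pos
  have h1 : ContDiffOn ℝ ∞ (t1 l) (D2 (l / 48)) :=
    (contDiffOn_t1 hl).1.mono fun w hw => GcJ_q1ne hw
  exact S.e_smooth.comp_contDiffOn h1

private theorem GcJ_j2_inj : Set.InjOn (fun w => e (t1 l w)) (D2 (l / 48)) := by
  have hl := S.l_pos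
  intro a _ b _ hab
  have h1 : t1 l a = t1 l b := GcJ_einj S hab
  rw [← (t1_t1i hl a).2, ← (t1_t1i hl b).2, h1]

private theorem GcJ_j2_imm : ∀ w ∈ D2 (l / 48),
    Function.Injective (fderiv ℝ (fun w => e (t1 l w)) w) := by
  have hl := S.l_pos
  intro w hw
  have hw' : t1 l w ∈ D2 (l / 48) := (GcJ_t hl w).1.D2 hw
  have d1 : DifferentiableAt ℝ (t1 l) w :=
    ((contDiffOn_t1 hl).1.contDiffAt (GcJ_open1.mem_nhds (GcJ_q1ne hw))).differentiableAt (by simp)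
  have d2 : DifferentiableAt ℝ (t1i l) (t1 l w) :=
    ((contDiffOn_t1 hl).2.contDiffAt (GcJ_open1.mem_nhds (GcJ_q1ne hw'))).differentiableAt
      (by simp)
  have i1 : Function.Injective (fderiv ℝ (t1 l) w) := GcJ_imm d1 d2 fun x => (t1_t1i hl x).2
  exact GcJ_comp d1 (GcJ_ediff S _) i1 (GcJ_eimm S _)

private theorem GcJ_a {w : En 14} (hw : w ∈ D1 (l / 48)) (h : ‖q2 w‖ < ‖q1 w‖ / 2) :
    e (trans l Gbox (t2 l w)) = e (t1 l (tt14 l w)) ∧ tt14 l w ∈ D2 (l / 48) := by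
  have hl := S.l_pos
  have hl1 : l ≤ 1 := by have := S.l_le; linarith
  have hN := (GcJ_t hl w).2.2.1
  have h1 := G1_eq_C hl hl1 (hN.D1 hw) (hN.lt h)
  rw [(t2_t2i hl w).2, ← tt14_eq] at h1
  refine ⟨by rw [h1], ?_⟩
  rw [tt14_eq]
  exact (((GcJ_t hl (t1i l w)).2.2.1).trans' (GcJ_t hl w).2.1).D2 ⟨hw.1, h⟩

private theorem GcJ_b {w₁ w₂ : En 14} (h1 : w₁ ∈ D1 (l / 48)) (h2 : w₂ ∈ D2 (l / 48))
    (h : e (trans l Gbox (t2 l w₁)) = e (t1 l w₂)) : ‖q2 w₁‖ < ‖q1 w₁‖ / 2 := by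
  have hl := S.l_pos
  have hl1 : l ≤ 1 := by have := S.l_le; linarith
  have h3 : trans l Gbox (t2 l w₁) = t1 l w₂ := GcJ_einj S h
  have hN := (GcJ_t hl w₁).2.2.1
  have h4 := G1_back hl hl1 (hN.D1 h1) (by
    rw [h3]
    exact (GcJ_t hl w₂).1.lt h2.2)
  exact hN.symm'.lt h4

omit S in
private theorem GcJ_model {l : ℝ} (hl : 0 < l) (hl1 : l ≤ 1) {w : En 14} (hw : w ∈ D2 (l / 48)) :
    trans l (model Fbox phibox) w = w := by
  by_cases h : w ∈ chU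
  · obtain ⟨b, hb⟩ : ∃ b, b = ch l w := ⟨_, rfl⟩
    have hwb : w = chI l b := by rw [hb, chI_ch hl h]
    have hcyl : chI l b ∈ cyl (l * (1 / 48)) := by
      rw [← hwb, mul_one_div]
      exact hw.1
    have hz := ((cyl_chI hl b).1 hcyl).1
    have hz16 : b ∈ zlt (1 / 16) := by
      intro i hi
      have h1 : |b i| < 1 / 48 := hz i hi
      linarith
    have hz3 : b ∈ zlt (3 * (1 / 48)) := by
      intro i hi
      have h1 : |b i| < 1 / 48 := hz i hi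
      linarith
    have hm : model Fbox phibox b = b := by
      rcases region_D2 hl hl1 b (by rw [← hwb]; exact hw.2) with h0 | h0
      · unfold model
        rw [if_pos (by linarith)]
        exact smoothBox.id_low b hz3 h0.le
      · rw [← Gbox_Cbi, (Cb_out b (Or.inl (by linarith))).2]
        exact Gbox_out hz16 (Or.inl h0)
    rw [hwb, trans_chI hl, hm]
  · exact trans_of_not _ h

omit S in
private theorem GcJ_hN {l : ℝ} (hl : 0 < l) (w : En 14) : GcJ_N (hh1 l w) w :=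
  ((GcJ_t hl (trans l Cbi w)).2.2.2).trans' (pres_C hl w).2

end str

theorem exists_jdata {l : ℝ} {e e' : En 14 → En 14} {A : Eu 14 ≃ᵃ[ℝ] Eu 14} (S : Str l e e' A) :
    ∃ J : JData l, J.Ω = e '' cyl (l / 48) ∧
      J.f0 = gl A (boxU (1 / 2) 1) (model Fbox phibox) := by
  have hl := S.l_pos
  have hl1 : l ≤ 1 := by have := S.l_le; linarith
  obtain ⟨hO1, k1, hk1, hk1'⟩ := inj_imm_inverse (isOpen_D (l / 48)).2.1 (GcJ_j1_smooth S)
    (GcJ_j1_inj S) (GcJ_j1_imm S)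
  obtain ⟨hO2, k2, hk2, hk2'⟩ := inj_imm_inverse (isOpen_D (l / 48)).2.2 (GcJ_j2_smooth S)
    (GcJ_j2_inj S) (GcJ_j2_imm S)
  refine ⟨{
    Ω := e '' cyl (l / 48)
    f0 := gl A (boxU (1 / 2) 1) (model Fbox phibox)
    d := l / 48
    e := e
    e' := e'
    d_pos := by positivity
    openΩ := (open_bdd S).1
    bddΩ := (open_bdd S).2
    e_smooth := S.e_smooth.contDiffOn
    e'_smooth := S.e'_smooth.contDiffOn
    e_maps := fun w hw => ⟨⟨w, hw, rfl⟩, S.left w⟩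
    e'_maps := by
      rintro _ ⟨w, hw, rfl⟩
      rw [S.left]
      exact ⟨hw, rfl⟩
    f0_cont := f0_cont S
    j1 := fun w => e (trans l Gbox (t2 l w))
    k1 := k1
    J1 := (fun w => e (trans l Gbox (t2 l w))) '' D1 (l / 48)
    openJ1 := hO1
    j1_smooth := GcJ_j1_smooth S
    k1_smooth := hk1
    j1_maps := fun w hw => ⟨⟨w, hw, rfl⟩, hk1' w hw⟩
    k1_maps := by
      rintro _ ⟨w, hw, rfl⟩
      have h := hk1' w hw
      simp only at h ⊢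
      rw [h]
      exact ⟨hw, rfl⟩
    j2 := fun w => e (t1 l w)
    k2 := k2
    J2 := (fun w => e (t1 l w)) '' D2 (l / 48)
    openJ2 := hO2
    j2_smooth := GcJ_j2_smooth S
    k2_smooth := hk2
    j2_maps := fun w hw => ⟨⟨w, hw, rfl⟩, hk2' w hw⟩
    k2_maps := by
      rintro _ ⟨w, hw, rfl⟩
      have h := hk2' w hw
      simp only at h ⊢
      rw [h]
      exact ⟨hw, rfl⟩
    inter := by
      rintro _ ⟨w, hw, rfl⟩
      have h := hk1' w hw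
      simp only at h ⊢
      rw [h]
      constructor
      · rintro ⟨w₂, hw₂, h2⟩
        exact GcJ_b S hw hw₂ h2.symm
      · intro h2
        obtain ⟨h3, h4⟩ := GcJ_a S hw h2
        exact ⟨_, h4, h3.symm⟩
    compat := by
      rintro y ⟨⟨w, hw, hy⟩, ⟨w₂, hw₂, hy2⟩⟩
      have e1 : k1 y = w := by rw [← hy]; exact hk1' w hw
      have e2 : k2 y = w₂ := by rw [← hy2]; exact hk2' w₂ hw₂
      have h2 := GcJ_b S hw hw₂ (hy.trans hy2.symm)
      obtain ⟨h3, h4⟩ := GcJ_a S hw h2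
      rw [e1, e2]
      exact GcJ_j2_inj S hw₂ h4 (hy2.trans (hy.symm.trans h3))
    inter2 := by
      rintro y ⟨w₂, hw₂, hy2⟩ hq
      have e2 : k2 y = w₂ := by rw [← hy2]; exact hk2' w₂ hw₂
      rw [e2] at hq
      have hN : GcJ_N (t1 l (t2i l w₂)) w₂ :=
        (GcJ_t hl (t2i l w₂)).1.trans' (GcJ_t hl w₂).2.2.2
      obtain ⟨h3, _⟩ := GcJ_a S (w := t1 l (t2i l w₂)) ⟨hN.cyl hw₂.1, hN.ne hq⟩ (hN.lt hw₂.2)
      refine ⟨t1 l (t2i l w₂), ⟨hN.cyl hw₂.1, hN.ne hq⟩, ?_⟩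
      show e (trans l Gbox (t2 l (t1 l (t2i l w₂)))) = y
      rw [h3, tt14_eq, (t1_t1i hl _).2, (t2_t2i hl _).1]
      exact hy2
    h1 := hh1 l
    h1_norm := fun w _ => GcJ_hN hl w
    h1_surj := by
      intro w _
      have e1 : hh1 l (trans l Cb (t2 l w)) = w := by
        unfold hh1
        rw [trans_comp hl]
        have e3 : (fun b => Cbi (Cb b)) = fun b => b := funext Cbi_Cb
        rw [e3, GcJ_id hl, (t2_t2i hl w).2]
      exact ⟨trans l Cb (t2 l w), e1,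
        (show GcJ_N (trans l Cb (t2 l w)) (t2 l w) from (pres_C hl _).1).trans' (GcJ_t hl w).2.2.1⟩
    f0_e1 := by
      intro w hw
      rw [f0_e S hw.1]
      show e (trans l (model Fbox phibox) w) = e (trans l Gbox (t2 l (t2i l (trans l Cbi w))))
      rw [(t2_t2i hl _).1, trans_comp hl]
      have e3 : (fun b => Gbox (Cbi b)) = model Fbox phibox := funext Gbox_Cbi
      rw [e3]
    f0_e2 := by
      intro w hw
      rw [f0_e S hw.1, GcJ_model hl hl1 hw]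
      show e w = e (t1 l (t1i l w))
      rw [(t1_t1i hl w).1] }, rfl, rfl⟩

theorem geo_main : ∃ (l : ℝ) (_ : 0 < l) (_ : l < 1) (δ ρ d d0 : ℝ) (F : Eu 14 → Eu 14)
    (φ : Eu 6 → Eu 6) (A : Eu 14 ≃ᵃ[ℝ] Eu 14) (J : JData l),
    SmoothBox δ ρ F φ ∧ 0 < d ∧ d < d0 ∧ d0 ≤ 1 ∧
    (∀ x ∈ boxU ρ d0, A x ∈ J.Ω ↔ (x ∈ zlt δ ∧ |x 13| < d)) ∧
    J.f0 = gl A (boxU ρ d0) (model F φ) := by
  obtain ⟨l, e, e', A, S⟩ := exists_str
  obtain ⟨J, h1, h2⟩ := exists_jdata S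
  refine ⟨l, S.l_pos, by have := S.l_le; linarith, 1 / 48, 1 / 2, 1 / 48, 1, Fbox, phibox, A, J,
    smoothBox, by norm_num, by norm_num, le_rfl, ?_, h2⟩
  rw [h1]
  exact box_iff S

end EXO
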