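import Mathlib

/-!
# EXO, part T: the definitions of MP_e5f854_an

`n`-dimensional Euclidean space is `EuclideanSpace ℝ (Fin n)`.

* `IsPAHomeo Ω f`: `f` restricted to `Ω` is a homeomorphism onto its image (a topological embedding),
  and there is a countable family of closed non-degenerate `n`-simplices contained in `Ω` (a simplex is given by the
  family of its `n+1` affinely independent vertices; the simplex is the convex hull), with pairwise
  disjoint interiors, covering `Ω`, locally finite in `Ω`, such that `f` is affine on each of them.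
* `IsDiffeo Ω g`: `g` is smooth and injective on `Ω`, the image is open, and the inverse is smooth.
* `IsWeakDeriv Ω u G`: `G` is the weak derivative of `u` on `Ω` (test functions: smooth, compact
  support contained in `Ω`).
* `MemW Ω p u`: `u ∈ W^{1,p}(Ω, ℝⁿ)`.
* `WDistLT Ω p u w ε`: `‖u - w‖_{W^{1,p}(Ω)} < ε`.
-/

namespace EXO

open MeasureTheory Set
open scoped ENNReal

/-- Euclidean space. -/
abbrev Eu (n : ℕ) := EuclideanSpace ℝ (Fin n)

/-- The closed simplex with vertices `v 0, …, v n`. -/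
def spx {n : ℕ} (v : Fin (n + 1) → Eu n) : Set (Eu n) := convexHull ℝ (range v)

/-- A piecewise affine homeomorphism of `Ω` onto its image (definition of the problem file). -/
structure IsPAHomeo {n : ℕ} (Ω : Set (Eu n)) (f : Eu n → Eu n) : Prop where
  /-- `f` is a homeomorphism of `Ω` onto `f(Ω)` -/
  emb : Topology.IsEmbedding (Ω.domRestrict f)
  /-- countable locally finite family of simplices -/
  pieces : ∃ S : Set (Fin (n + 1) → Eu n), S.Countable ∧
    (∀ v ∈ S, AffineIndependent ℝ v) ∧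
    (∀ v ∈ S, spx v ⊆ Ω) ∧
    (∀ v ∈ S, ∀ w ∈ S, v ≠ w → Disjoint (interior (spx v)) (interior (spx w))) ∧
    (Ω ⊆ ⋃ v ∈ S, spx v) ∧
    (∀ K : Set (Eu n), IsCompact K → K ⊆ Ω → {v ∈ S | (spx v ∩ K).Nonempty}.Finite) ∧
    ∀ v ∈ S, ∃ A : Eu n →ᵃ[ℝ] Eu n, EqOn f A (spx v)

/-- A diffeomorphism of `Ω` onto an open subset (definition of the problem file). -/
structure IsDiffeo {n : ℕ} (Ω : Set (Eu n)) (g : Eu n → Eu n) : Prop where
  /-- `g` is smooth on `Ω` -/
  smooth : ContDiffOn ℝ (⊤ : ℕ∞) g Ω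
  /-- `g` is injective on `Ω` -/
  inj : InjOn g Ω
  /-- the image is open -/
  open_image : IsOpen (g '' Ω)
  /-- the inverse is smooth -/
  inv_smooth : ContDiffOn ℝ (⊤ : ℕ∞) (Function.invFunOn g Ω) (g '' Ω)

/-- `G` is the weak derivative of `u` on the open set `Ω`. -/
def IsWeakDeriv {n : ℕ} (Ω : Set (Eu n)) (u : Eu n → Eu n) (G : Eu n → (Eu n →L[ℝ] Eu n)) : Prop :=
  LocallyIntegrableOn u Ω volume ∧ LocallyIntegrableOn G Ω volume ∧
  ∀ φ : Eu n → ℝ, ContDiff ℝ (⊤ : ℕ∞) φ → HasCompactSupport φ → tsupport φ ⊆ Ω → ∀ w : Eu n,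
    ∫ x in Ω, (fderiv ℝ φ x w) • u x = - ∫ x in Ω, φ x • G x w

/-- `u ∈ W^{1,p}(Ω, ℝⁿ)`. -/
def MemW {n : ℕ} (Ω : Set (Eu n)) (p : ℝ≥0∞) (u : Eu n → Eu n) : Prop :=
  MemLp u p (volume.restrict Ω) ∧
  ∃ G : Eu n → (Eu n →L[ℝ] Eu n), IsWeakDeriv Ω u G ∧ MemLp G p (volume.restrict Ω)

/-- `‖u - w‖_{W^{1,p}(Ω)} < ε`. -/
def WDistLT {n : ℕ} (Ω : Set (Eu n)) (p : ℝ≥0∞) (u w : Eu n → Eu n) (ε : ℝ) : Prop :=
  ∃ H : Eu n → (Eu n →L[ℝ] Eu n), IsWeakDeriv Ω (fun x => u x - w x) H ∧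
    eLpNorm (fun x => u x - w x) p (volume.restrict Ω) + eLpNorm H p (volume.restrict Ω)
      < ENNReal.ofReal ε

end EXO
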