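import Pool.Agent.EXO.GlSur
import Pool.Agent.EXO.TDefs

/-!
# EXO, GLU, module GlMain: the gluing map

PROOF.  Choice of constants.  `O` is bounded: `‖m‖ ≤ R` on `O`, `R > 0`.  `κ = J.d/(2R)`, `r = J.d/2 < J.d`, `κ ‖m‖ ≤ r`.
`ε₁ = min (1/100) (min ε (…))` so small that `|t' - t| < ε₁` implies `(1-ε) e^{40 t} < e^{40 t'} < (1+ε) e^{40 t}` (e.g.
`ε₁ ≤ log(1+ε)/40`, and `e^{-40 ε₁} ≥ 1/(1+ε) > 1 - ε`; for `ε ≥ 1` the left inequality is trivial), `η` from `collar_unif` with `ε₁`;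
`ε'` from `glu_close` with `κ η`; `K = e '' Kr r` (compact, `Kr_compact`, `e` continuous on `cyl d ⊇ Kr r`).

Let `g` be given.  For `z ∈ PD C`, `w = Pc z`: `lam7 w = κ io n t` (`lam7_Pc`), `n = ρ(p3 z)`, `t = tS z`; `w ∈ Kr r ⊆ cyl d` since `κ‖io n t‖ ≤ r`.
`y = g (e w) ∈ J1 ∪ J2`, `‖κ⁻¹ Lam7 y - io n t‖ < η`; if `|t| ≤ 2/5` then `m' = κ⁻¹ Lam7 y ∈ O`, `|sc m' - t| < ε₁`, `‖ρ m' - n‖ < ε₁ ≤ ε`.
Note `1/10^6 < gS z < 10^6` iff `|tS z| < 6 log 10/40 < 0.346 < 2/5` (`log 10 < 2.303`).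
Let `gi = Function.invFunOn g Ω` (smooth on the open set `g '' Ω`).
`A_i = {z : 10^{-6} < gS z < 10^6, p3 z ∈ O, g (e (Pc z)) ∈ J_i}`, `G_i z = Qc (k_i (g (e (Pc z))))`,
`B_1 = {z ∈ PD : p2 z ≠ 0, j_1 (Pc z) ∈ g '' Ω, w := e' (gi (j_1 (Pc z))) ∈ QD, 10^{-6} < gS (Qc w) < 10^6}`, `B_2` the same with
`‖p2 z‖ < ‖p1 z‖/2` and `j_2`; `H_i z = Qc (e' (gi (j_i (Pc z))))`.
For `z ∈ PD`: `Pc z ∈ cyl d`; `p2 z ≠ 0` iff `Pc z ∈ D1 d`; `‖p2‖ < ‖p1‖/2` iff `Pc z ∈ D2 d` (`Pc_ratio`).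
Openness: preimages of open sets under maps continuous on open sets (`ContinuousOn.isOpen_inter_preimage`), step by step.
coverA: closeness.  satA, satB: `R_PD` (`Pc (C.R z) = Pc z`).  smooth: compositions.
mapsG_i: `y = g (e (Pc z)) ∈ J_i`, `w' = k_i y ∈ D_i d`, `κ⁻¹ lam7 w' = κ⁻¹ Lam7 y ∈ O` (`Lam7_J2` for `i = 2`; for `i = 1` by definition): `w' ∈ QD`;
`G_i z = Qc w' ∈ PD`, `p3 ∈ N`, ratio conditions (`Qc_ratio`), `Pc (G_i z) = w'`, `j_i w' = y ∈ g '' Ω`, `gi y = e (Pc z)`, `e' (..) = Pc z ∈ QD`,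
`Qc (Pc z) = C.R z`, `gS (C.R z) = gS z`.  So `G_i z ∈ B_i`, `H_i (G_i z) = C.R z`.
mapsH_i: `x = gi (j_i (Pc z)) ∈ Ω`, `w = e' x ∈ QD ∩ cyl d`, `H_i z = Qc w ∈ PD`, `p3 ∈ N`, `Pc (Qc w) = w`, `e w = x`, `g x = j_i (Pc z) ∈ J_i`: `H_i z ∈ A_i`;
`G_i (H_i z) = Qc (k_i (j_i (Pc z))) = Qc (Pc z) = C.R z`.
inter: `J.inter` and `Qc_ratio`.  compat: `J.compat`, `Qc_tt`.  inter2: `J.inter2`, `Qc_ratio`.
surj_i: `1/(2·10^5) < gS z < 2·10^5` gives `|tS z| < (5 log 10 + log 2)/40 < 0.306 < 31/100`; `y = j_i (Pc z) ∈ J_i`, `Lam7 y = lam7 (Pc z) = κ io n t`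
(`k_i y = Pc z`), `sc (io n t) = t`: `glu_surj` gives `w ∈ QD` with `g (e w) = y`, `|sc (κ⁻¹ lam7 w)| < 34/100`, `gi y = e w`, `e' (e w) = w ∈ QD`,
`tS (Qc w) = sc (..)`, so `|log gS| < 40·34/100 = 13.6 < 6 log 10 = 13.8`: `10^{-6} < gS (Qc w) < 10^6` (`2.3025 < log 10`).
close_i: above; `gS = e^{40 tS}`.
-/
set_option maxSynthPendingDepth 3

open scoped ContDiff
open Pool.Agent.EXO

namespace EXO

namespace GlMain

theorem exp_bound_lo (n : ℕ) : (2.7182818283 : ℝ) ^ n ≤ Real.exp n := by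
  have h := Real.exp_one_gt_d9
  have h2 : Real.exp (n : ℝ) = Real.exp 1 ^ n := by
    rw [← Real.exp_nat_mul]
    simp
  rw [h2]
  exact pow_le_pow_left₀ (by norm_num) h.le n

theorem exp_bound_hi (n : ℕ) : Real.exp n ≤ (2.7182818286 : ℝ) ^ n := by
  have h := Real.exp_one_lt_d9
  have h2 : Real.exp (n : ℝ) = Real.exp 1 ^ n := by
    rw [← Real.exp_nat_mul]
    simp
  rw [h2]
  exact pow_le_pow_left₀ (Real.exp_pos 1).le h.le n

theorem log_six : (68 / 5 : ℝ) < Real.log (10 ^ 6) ∧ Real.log (10 ^ 6) < 16 := by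
  constructor
  · rw [Real.lt_log_iff_exp_lt (by positivity)]
    have h1 := exp_bound_hi 68
    have h2 : Real.exp (68 / 5 : ℝ) ^ 5 = Real.exp ((68 : ℕ) : ℝ) := by
      rw [← Real.exp_nat_mul]
      norm_num
    have h3 : Real.exp (68 / 5 : ℝ) ^ 5 < (10 ^ 6 : ℝ) ^ 5 := by
      rw [h2]
      refine lt_of_le_of_lt h1 ?_
      norm_num
    exact lt_of_pow_lt_pow_left₀ 5 (by positivity) h3
  · rw [Real.log_lt_iff_lt_exp (by positivity)]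
    have h1 := exp_bound_lo 16
    have h2 : (10 : ℝ) ^ 6 < (2.7182818283 : ℝ) ^ 16 := by norm_num
    exact lt_of_lt_of_le h2 (by simpa using h1)

theorem log_five : Real.log (2 * 10 ^ 5) < 62 / 5 := by
  rw [Real.log_lt_iff_lt_exp (by positivity)]
  have h1 := exp_bound_lo 62
  have h2 : Real.exp (62 / 5 : ℝ) ^ 5 = Real.exp ((62 : ℕ) : ℝ) := by
    rw [← Real.exp_nat_mul]
    norm_num
  have h3 : (2 * 10 ^ 5 : ℝ) ^ 5 < Real.exp (62 / 5 : ℝ) ^ 5 := by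
    rw [h2]
    refine lt_of_lt_of_le ?_ h1
    norm_num
  exact lt_of_pow_lt_pow_left₀ 5 (by positivity) h3

theorem L1 {x : ℝ} (h1 : 1 / 10 ^ 6 < x) (h2 : x < 10 ^ 6) : |Real.log x / 40| < 2 / 5 := by
  have hx : 0 < x := lt_trans (by positivity) h1
  have h3 := Real.log_lt_log hx h2
  have h4 := Real.log_lt_log (by positivity) h1
  rw [one_div, Real.log_inv] at h4
  have h5 := log_six.2
  rw [abs_lt]
  constructor <;> linarith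

theorem L2 {x : ℝ} (h1 : 1 / (2 * 10 ^ 5) < x) (h2 : x < 2 * 10 ^ 5) :
    |Real.log x / 40| < 31 / 100 := by
  have hx : 0 < x := lt_trans (by positivity) h1
  have h3 := Real.log_lt_log hx h2
  have h4 := Real.log_lt_log (by positivity) h1
  rw [one_div, Real.log_inv] at h4
  have h5 := log_five
  rw [abs_lt]
  generalize Real.log (2 * 10 ^ 5) = L at *
  constructor
  · linarith
  · linarith

theorem L3 {x : ℝ} (hx : 0 < x) (h : |Real.log x / 40| < 34 / 100) :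
    1 / 10 ^ 6 < x ∧ x < 10 ^ 6 := by
  have h5 := log_six.1
  rw [abs_lt] at h
  constructor
  · rw [← Real.log_lt_log_iff (by positivity) hx, one_div, Real.log_inv]
    generalize Real.log (10 ^ 6) = L at *
    linarith [h.1]
  · rw [← Real.log_lt_log_iff hx (by positivity)]
    generalize Real.log (10 ^ 6) = L at *
    linarith [h.2]

theorem close_const {ε : ℝ} (hε : 0 < ε) : ∃ ε₁ : ℝ, 0 < ε₁ ∧ ε₁ ≤ ε ∧ ε₁ ≤ 1 / 100 ∧
    ∀ x y : ℝ, 0 < x → 0 < y → |Real.log y / 40 - Real.log x / 40| < ε₁ →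
      (1 - ε) * x < y ∧ y < (1 + ε) * x := by
  have hl : 0 < Real.log (1 + ε) := Real.log_pos (by linarith)
  refine ⟨min (Real.log (1 + ε) / 40) (min ε (1 / 100)), ?_, ?_, ?_, ?_⟩
  · exact lt_min (by positivity) (lt_min hε (by norm_num))
  · exact le_trans (min_le_right _ _) (min_le_left _ _)
  · exact le_trans (min_le_right _ _) (min_le_right _ _)
  · intro x y hx hy h
    have h1 := lt_of_lt_of_le h (min_le_left _ _)
    rw [abs_lt] at h1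
    have h2 : Real.log y < Real.log ((1 + ε) * x) := by
      rw [Real.log_mul (by positivity) hx.ne']
      linarith [h1.2]
    have h3 : Real.log x < Real.log ((1 + ε) * y) := by
      rw [Real.log_mul (by positivity) hy.ne']
      linarith [h1.1]
    have h4 := (Real.log_lt_log_iff hy (by positivity)).1 h2
    have h5 := (Real.log_lt_log_iff hx (by positivity)).1 h3
    refine ⟨?_, h4⟩
    rcases le_or_gt 1 ε with h6 | h6
    · nlinarith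
    · have h7 : (1 - ε) * x < (1 - ε) * ((1 + ε) * y) :=
        mul_lt_mul_of_pos_left h5 (by linarith)
      nlinarith [mul_pos hε hy, mul_pos (mul_pos hε hε) hy]

theorem open_step {X Y : Type*} [TopologicalSpace X] [TopologicalSpace Y] {s : Set X}
    (hs : IsOpen s) {f : X → Y} (hf : ContinuousOn f s) {t : Set Y} (ht : IsOpen t) :
    IsOpen {x | x ∈ s ∧ f x ∈ t} := hf.isOpen_inter_preimage hs ht

theorem cont_p1 : Continuous p1 := by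
  unfold p1
  fun_prop

theorem cont_p2 : Continuous p2 := by
  unfold p2
  fun_prop

theorem cont_p3 : Continuous p3 := by
  unfold p3
  fun_prop

theorem cont_gS : Continuous gS := by
  unfold gS
  have := cont_p1
  have := cont_p2
  fun_prop

/-- the annulus of the source -/
def SS {N : Set (En 7)} (C : Collar N) : Set (En 15) :=
  {z | 1 / 10 ^ 6 < gS z ∧ gS z < 10 ^ 6 ∧ p3 z ∈ C.O}

theorem open_SS {N : Set (En 7)} (C : Collar N) : IsOpen (SS C) := by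
  have h1 : IsOpen {z : En 15 | 1 / 10 ^ 6 < gS z} := isOpen_lt continuous_const cont_gS
  have h2 : IsOpen {z : En 15 | gS z < 10 ^ 6} := isOpen_lt cont_gS continuous_const
  have h3 : IsOpen {z : En 15 | p3 z ∈ C.O} := C.openO.preimage cont_p3
  exact h1.inter (h2.inter h3)

theorem SS_PD {N : Set (En 7)} (C : Collar N) {z : En 15} (hz : z ∈ SS C) :
    z ∈ PD C ∧ |tS z| < 2 / 5 := by
  have h := L1 hz.1 hz.2.1
  refine ⟨⟨lt_trans (by positivity) hz.1, lt_trans h (by norm_num), hz.2.2⟩, h⟩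

/-- the properties of one chart of the gluing map -/
theorem half {N : Set (En 7)} (C : Collar N) {l : ℝ} (J : JData l) {κ r : ℝ} (hκ : 0 < κ)
    (hr : r < J.d) (hκr : ∀ m ∈ C.O, κ * ‖m‖ ≤ r) {g : En 14 → En 14} (hg : IsDiffeo J.Ω g)
    (hclose : ∀ z ∈ SS C, κ⁻¹ • Lam7 J (g (J.e (Pc C κ z))) ∈ C.O)
    (D Js : Set (En 14)) (hD : D ⊆ cyl J.d) (hJ : IsOpen Js) (j k : En 14 → En 14)
    (hj : ContDiffOn ℝ ∞ j D) (hk : ContDiffOn ℝ ∞ k Js)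
    (jm : ∀ w ∈ D, j w ∈ Js ∧ k (j w) = w) (km : ∀ y ∈ Js, k y ∈ D ∧ j (k y) = y)
    (hLam : ∀ y ∈ Js, Lam7 J y = lam7 (k y)) (Q : Set (En 15)) (hQo : IsOpen Q)
    (hQ1 : ∀ z ∈ PD C, z ∈ Q → Pc C κ z ∈ D) (hQ2 : ∀ w ∈ QD C κ, w ∈ D → Qc C κ w ∈ Q)
    (hQR : ∀ z, p3 z ∈ C.O → (z ∈ Q ↔ C.R z ∈ Q)) :
    ∃ (A B : Set (En 15)) (G H : En 15 → En 15),
      (A = {z | z ∈ SS C ∧ g (J.e (Pc C κ z)) ∈ Js}) ∧
      (G = fun z => Qc C κ (k (g (J.e (Pc C κ z))))) ∧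
      IsOpen A ∧ IsOpen B ∧ (∀ z ∈ B, z ∈ Q ∧ p3 z ∈ C.O) ∧
      (∀ z, p3 z ∈ C.O → (z ∈ A ↔ C.R z ∈ A)) ∧ (∀ z, p3 z ∈ C.O → (z ∈ B ↔ C.R z ∈ B)) ∧
      ContDiffOn ℝ ∞ G A ∧ ContDiffOn ℝ ∞ H B ∧
      (∀ z ∈ A, G z ∈ B ∧ p3 (G z) ∈ N ∧ H (G z) = C.R z) ∧
      (∀ z ∈ B, H z ∈ A ∧ p3 (H z) ∈ N ∧ G (H z) = C.R z) ∧
      (∀ z ∈ A, k (g (J.e (Pc C κ z))) ∈ QD C κ) ∧
      (∀ z ∈ PD C, z ∈ Q → ∀ w ∈ QD C κ, w ∈ cyl J.d → |C.sc (κ⁻¹ • lam7 w)| < 34 / 100 →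
        g (J.e w) = j (Pc C κ z) → z ∈ B) := by
  obtain ⟨hNO, hNr⟩ := N_sub_O C
  have hio : ∀ z ∈ PD C, C.io (C.rho (p3 z)) (tS z) ∈ C.O := fun z hz =>
    (C.io_mem _ (C.io_rho _ hz.2.2).1 _ (abs_lt.1 hz.2.1)).1
  have hPK : ∀ z ∈ PD C, Pc C κ z ∈ Kr r := by
    intro z hz
    obtain ⟨h1, h2⟩ := lam7_Pc C hκ hz
    refine ⟨h2, ?_⟩
    rw [h1, norm_smul, Real.norm_eq_abs, abs_of_pos hκ]
    exact hκr _ (hio z hz)
  have hPcyl : ∀ z ∈ PD C, Pc C κ z ∈ cyl J.d := fun z hz => Kr_cyl hr (hPK z hz)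
  have hPc : ContDiffOn ℝ ∞ (Pc C κ) (PD C) := smooth_Pc C
  have hQc : ContDiffOn ℝ ∞ (Qc C κ) (QD C κ) := smooth_Qc C
  set gi := Function.invFunOn g J.Ω with hgi
  have hgi1 : ∀ x ∈ J.Ω, gi (g x) = x := fun x hx =>
    hg.inj.leftInvOn_invFunOn hx
  have hgi2 : ∀ y ∈ g '' J.Ω, gi y ∈ J.Ω ∧ g (gi y) = y := by
    intro y hy
    exact ⟨Function.invFunOn_mem hy, Function.invFunOn_eq hy⟩
  -- the map z ↦ g (e (Pc z))
  have hSP : SS C ⊆ PD C := fun z hz => (SS_PD C hz).1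
  have hF : ContDiffOn ℝ ∞ (fun z => g (J.e (Pc C κ z))) (PD C) := by
    have h1 : ContDiffOn ℝ ∞ (fun z => J.e (Pc C κ z)) (PD C) :=
      J.e_smooth.comp hPc (fun z hz => hPcyl z hz)
    exact hg.smooth.comp h1 (fun z hz => (J.e_maps _ (hPcyl z hz)).1)
  set A : Set (En 15) := {z | z ∈ SS C ∧ g (J.e (Pc C κ z)) ∈ Js} with hA
  set G : En 15 → En 15 := fun z => Qc C κ (k (g (J.e (Pc C κ z)))) with hG
  set H : En 15 → En 15 := fun z => Qc C κ (J.e' (gi (j (Pc C κ z)))) with hH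
  set B1 : Set (En 15) := {z | z ∈ PD C ∩ Q ∧ j (Pc C κ z) ∈ g '' J.Ω} with hB1
  set B2 : Set (En 15) := {z | z ∈ B1 ∧ J.e' (gi (j (Pc C κ z))) ∈ QD C κ} with hB2
  set B : Set (En 15) := {z | z ∈ B2 ∧ H z ∈ SS C} with hB
  have hjP : ContDiffOn ℝ ∞ (fun z => j (Pc C κ z)) (PD C ∩ Q) :=
    hj.comp (hPc.mono Set.inter_subset_left) (fun z hz => hQ1 z hz.1 hz.2)
  have hB1o : IsOpen B1 :=
    open_step ((isOpen_PD C).inter hQo) hjP.continuousOn hg.open_image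
  have hE : ContDiffOn ℝ ∞ (fun z => J.e' (gi (j (Pc C κ z)))) B1 := by
    have h1 : ContDiffOn ℝ ∞ (fun z => gi (j (Pc C κ z))) B1 :=
      hg.inv_smooth.comp (hjP.mono (fun z hz => hz.1)) (fun z hz => hz.2)
    exact J.e'_smooth.comp h1 (fun z hz => (hgi2 _ hz.2).1)
  have hB2o : IsOpen B2 := open_step hB1o hE.continuousOn (isOpen_QD C)
  have hHs : ContDiffOn ℝ ∞ H B2 :=
    hQc.comp (hE.mono (fun z hz => hz.1)) (fun z hz => hz.2)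
  have hBo : IsOpen B := open_step hB2o hHs.continuousOn (open_SS C)
  have hAo : IsOpen A := open_step (open_SS C) (hF.mono hSP).continuousOn hJ
  have hkQ : ∀ z ∈ A, k (g (J.e (Pc C κ z))) ∈ QD C κ := by
    intro z hz
    have h1 := hclose z hz.1
    rw [hLam _ hz.2] at h1
    exact ⟨(hD (km _ hz.2).1).1, h1⟩
  have hRSS : ∀ z, p3 z ∈ C.O → (z ∈ SS C ↔ C.R z ∈ SS C) := by
    intro z hz
    obtain ⟨h1, h2, h3, h4, h5, h6⟩ := R_PD C (κ := κ) hz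
    constructor
    · intro h
      exact ⟨by rw [h3]; exact h.1, by rw [h3]; exact h.2.1, hNO h1⟩
    · intro h
      exact ⟨by rw [← h3]; exact h.1, by rw [← h3]; exact h.2.1, hz⟩
  have hmemSS : ∀ w ∈ QD C κ, Qc C κ w ∈ SS C ↔ 1 / 10 ^ 6 < gS (Qc C κ w) ∧
      gS (Qc C κ w) < 10 ^ 6 := by
    intro w hw
    have h1 := Qc_mem C hκ hw
    constructor
    · intro h
      exact ⟨h.1, h.2.1⟩
    · intro h
      exact ⟨h.1, h.2, hNO h1.2.1⟩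
  refine ⟨A, B, G, H, rfl, rfl, hAo, hBo, ?_, ?_, ?_, ?_, ?_, ?_, ?_, hkQ, ?_⟩
  · intro z hz
    exact ⟨hz.1.1.1.2, hz.1.1.1.1.2.2⟩
  · intro z hz
    obtain ⟨h1, h2, h3, h4, h5, h6⟩ := R_PD C (κ := κ) hz
    simp only [hA, Set.mem_ofPred_eq, h6]
    rw [hRSS z hz]
  · intro z hz
    obtain ⟨h1, h2, h3, h4, h5, h6⟩ := R_PD C (κ := κ) hz
    simp only [hB, hB1, hB2, hH, Set.mem_ofPred_eq, Set.mem_inter_iff, h6]
    rw [← h2, hQR z hz]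
  · exact hQc.comp (hk.comp (hF.mono (fun z hz => hSP hz.1)) (fun z hz => hz.2)) hkQ
  · exact hHs.mono (fun z hz => hz.1)
  · intro z hz
    have hzP : z ∈ PD C := hSP hz.1
    obtain ⟨hk1, hk2⟩ := km _ hz.2
    have hw := hkQ z hz
    obtain ⟨q1, q2, q3, q4, q5⟩ := Qc_mem C hκ hw
    have hp := Pc_mem C hκ hzP
    have hE1 : J.e' (gi (j (Pc C κ (G z)))) = Pc C κ z := by
      have h1 : Pc C κ (G z) = k (g (J.e (Pc C κ z))) := q3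
      rw [h1, hk2, hgi1 _ (J.e_maps _ (hPcyl z hzP)).1, (J.e_maps _ (hPcyl z hzP)).2]
    have hHG : H (G z) = C.R z := by
      change Qc C κ (J.e' (gi (j (Pc C κ (G z))))) = C.R z
      rw [hE1]
      exact hp.2
    refine ⟨⟨⟨⟨⟨q1, hQ2 _ hw hk1⟩, ?_⟩, ?_⟩, ?_⟩, q2, hHG⟩
    · have h1 : Pc C κ (G z) = k (g (J.e (Pc C κ z))) := q3
      rw [h1, hk2]
      exact ⟨_, (J.e_maps _ (hPcyl z hzP)).1, rfl⟩
    · rw [hE1]
      exact hp.1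
    · rw [hHG]
      exact (hRSS z hzP.2.2).1 hz.1
  · intro z hz
    obtain ⟨⟨⟨⟨hzP, hzQ⟩, hzg⟩, hzE⟩, hzS⟩ := hz
    obtain ⟨hx1, hx2⟩ := hgi2 _ hzg
    obtain ⟨he1, he2⟩ := J.e'_maps _ hx1
    obtain ⟨q1, q2, q3, q4, q5⟩ := Qc_mem C hκ hzE
    have hp := Pc_mem C hκ hzP
    have hj1 := jm _ (hQ1 z hzP hzQ)
    have h1 : Pc C κ (H z) = J.e' (gi (j (Pc C κ z))) := q3
    have h2 : g (J.e (Pc C κ (H z))) = j (Pc C κ z) := by
      rw [h1, he2, hx2]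
    refine ⟨⟨hzS, ?_⟩, q2, ?_⟩
    · rw [h2]
      exact hj1.1
    · change Qc C κ (k (g (J.e (Pc C κ (H z))))) = C.R z
      rw [h2, hj1.2]
      exact hp.2
  · intro z hzP hzQ w hw hwc hwt hgw
    have h1 : gi (j (Pc C κ z)) = J.e w := by
      rw [← hgw]
      exact hgi1 _ (J.e_maps _ hwc).1
    have h2 : J.e' (gi (j (Pc C κ z))) = w := by
      rw [h1]
      exact (J.e_maps _ hwc).2
    obtain ⟨q1, q2, q3, q4, q5⟩ := Qc_mem C hκ hw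
    refine ⟨⟨⟨⟨hzP, hzQ⟩, ?_⟩, ?_⟩, ?_⟩
    · rw [← hgw]
      exact ⟨_, (J.e_maps _ hwc).1, rfl⟩
    · rw [h2]
      exact hw
    · change Qc C κ (J.e' (gi (j (Pc C κ z)))) ∈ SS C
      rw [h2, hmemSS w hw]
      refine L3 q1.1 ?_
      have h3 : Real.log (gS (Qc C κ w)) / 40 = C.sc (κ⁻¹ • lam7 w) := q4
      rw [h3]
      exact hwt

end GlMain

open GlMain in
theorem glu_main {N : Set (En 7)} (hNc : IsCompact N) (hN : IsConnected N) (C : Collar N) {l : ℝ}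
    (hl : 0 < l) (J : JData l) {ε : ℝ} (hε : 0 < ε) :
    ∃ (K : Set (En 14)) (ε' : ℝ), IsCompact K ∧ K ⊆ J.Ω ∧ 0 < ε' ∧
      ∀ g : En 14 → En 14, IsDiffeo J.Ω g → (∀ x ∈ K, ‖g x - J.f0 x‖ < ε') →
        Nonempty (GData C l ε) := by
  obtain ⟨ε₁, hε₁, hε₁ε, hε₁c, hcl⟩ := close_const hε
  obtain ⟨η, hη, hηc⟩ := collar_unif hNc C hε₁
  obtain ⟨R, hR, hRO⟩ : ∃ R : ℝ, 0 < R ∧ ∀ m ∈ C.O, ‖m‖ ≤ R := by
    obtain ⟨R, hR⟩ := C.bddO.exists_norm_le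
    exact ⟨max R 1, lt_of_lt_of_le one_pos (le_max_right _ _),
      fun m hm => le_trans (hR m hm) (le_max_left _ _)⟩
  have hd := J.d_pos
  set κ : ℝ := J.d / (2 * R) with hκdef
  have hκ : 0 < κ := by positivity
  set r : ℝ := J.d / 2 with hrdef
  have hr : r < J.d := by simp only [hrdef]; linarith
  have hκr : ∀ m ∈ C.O, κ * ‖m‖ ≤ r := by
    intro m hm
    have h1 : κ * ‖m‖ ≤ κ * R := mul_le_mul_of_nonneg_left (hRO m hm) hκ.le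
    have h2 : κ * R = r := by
      simp only [hκdef, hrdef]
      field_simp
    linarith
  obtain ⟨ε', hε', hgc⟩ := glu_close hl J hr (η := κ * η) (by positivity)
  have hKr : J.e '' Kr r ⊆ J.Ω := by
    rintro _ ⟨w, hw, rfl⟩
    exact (J.e_maps _ (Kr_cyl hr hw)).1
  refine ⟨J.e '' Kr r, ε', (Kr_compact r).image_of_continuousOn
    (J.e_smooth.continuousOn.mono (Kr_cyl hr)), hKr, hε', ?_⟩
  intro g hg hgx
  have hgK := hgc g hgx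
  obtain ⟨hNO, hNr⟩ := N_sub_O C
  have hPK : ∀ z ∈ PD C, Pc C κ z ∈ Kr r := by
    intro z hz
    obtain ⟨h1, h2⟩ := lam7_Pc C hκ hz
    refine ⟨h2, ?_⟩
    rw [h1, norm_smul, Real.norm_eq_abs, abs_of_pos hκ]
    exact hκr _ (C.io_mem _ (C.io_rho _ hz.2.2).1 _ (abs_lt.1 hz.2.1)).1
  -- closeness
  have hclose : ∀ z ∈ SS C, g (J.e (Pc C κ z)) ∈ J.J1 ∪ J.J2 ∧
      κ⁻¹ • Lam7 J (g (J.e (Pc C κ z))) ∈ C.O ∧
      |C.sc (κ⁻¹ • Lam7 J (g (J.e (Pc C κ z)))) - tS z| < ε₁ ∧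
      ‖C.rho (κ⁻¹ • Lam7 J (g (J.e (Pc C κ z)))) - C.rho (p3 z)‖ < ε₁ := by
    intro z hz
    obtain ⟨hzP, hzt⟩ := SS_PD C hz
    obtain ⟨h1, h2⟩ := hgK _ (hPK z hzP)
    refine ⟨h1, ?_⟩
    rw [(lam7_Pc C hκ hzP).1] at h2
    refine hηc _ (C.io_rho _ hzP.2.2).1 _ hzt.le _ ?_
    have h3 : κ⁻¹ • Lam7 J (g (J.e (Pc C κ z))) - C.io (C.rho (p3 z)) (tS z) =
        κ⁻¹ • (Lam7 J (g (J.e (Pc C κ z))) - κ • C.io (C.rho (p3 z)) (tS z)) := by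
      rw [smul_sub, smul_smul, inv_mul_cancel₀ hκ.ne', one_smul]
    rw [h3, norm_smul, Real.norm_eq_abs, abs_of_pos (inv_pos.2 hκ)]
    calc κ⁻¹ * _ < κ⁻¹ * (κ * η) := mul_lt_mul_of_pos_left h2 (inv_pos.2 hκ)
      _ = η := by field_simp
  have hcO : ∀ z ∈ SS C, κ⁻¹ • Lam7 J (g (J.e (Pc C κ z))) ∈ C.O := fun z hz =>
    (hclose z hz).2.1
  -- surjectivity
  have hgo : ∀ U ⊆ J.Ω, IsOpen U → IsOpen (g '' U) := by
    intro U hU hUo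
    have h1 : g '' U = {y | y ∈ g '' J.Ω ∧ Function.invFunOn g J.Ω y ∈ U} := by
      ext y
      constructor
      · rintro ⟨x, hx, rfl⟩
        refine ⟨⟨x, hU hx, rfl⟩, ?_⟩
        rw [hg.inj.leftInvOn_invFunOn (hU hx)]
        exact hx
      · rintro ⟨h1, h2⟩
        exact ⟨_, h2, Function.invFunOn_eq h1⟩
    rw [h1]
    exact open_step hg.open_image hg.inv_smooth.continuousOn hUo
  have hηc' : ∀ n ∈ N, ∀ t : ℝ, |t| ≤ 2 / 5 → ∀ m : En 7, ‖m - C.io n t‖ < η →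
      m ∈ C.O ∧ |C.sc m - t| < 1 / 100 := by
    intro n hn t ht m hm
    obtain ⟨h1, h2, h3⟩ := hηc n hn t ht m hm
    exact ⟨h1, lt_of_lt_of_le h2 hε₁c⟩
  have hsur := glu_surj hN C hl J hκ hr hκr hη hηc' hg.smooth.continuousOn hgo hgK
  -- the charts
  have hcont1 := cont_p1
  have hcont2 := cont_p2
  have hLam1 : ∀ y ∈ J.J1, Lam7 J y = lam7 (J.k1 y) := by
    intro y hy
    unfold Lam7
    rw [if_pos hy]
  have hLam2 : ∀ y ∈ J.J2, Lam7 J y = lam7 (J.k2 y) := fun y hy => Lam7_J2 hl J hy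
  have hPcyl : ∀ z ∈ PD C, Pc C κ z ∈ cyl J.d := fun z hz => Kr_cyl hr (hPK z hz)
  obtain ⟨A1, B1, G1, H1, hA1, hG1, oA1, oB1, sB1, satA1, satB1, smG1, smH1, mG1, mH1, qG1, su1⟩ :=
    half C J hκ hr hκr hg hcO (D1 J.d) J.J1 (fun w hw => hw.1) J.openJ1 J.j1 J.k1 J.j1_smooth
      J.k1_smooth J.j1_maps J.k1_maps hLam1 {z | p2 z ≠ 0}
      (isOpen_ne_fun hcont2 continuous_const)
      (fun z hz h => ⟨hPcyl z hz, fun h2 => h (((Pc_ratio C hz).1).1 h2)⟩)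
      (fun w hw h h2 => h.2 (((Qc_ratio C hw).1).1 h2))
      (fun z hz => by
        obtain ⟨h1, h2, h3, h4, h5, h6⟩ := R_PD C (κ := κ) hz
        simp only [Set.mem_ofPred_eq, h5])
  obtain ⟨A2, B2, G2, H2, hA2, hG2, oA2, oB2, sB2, satA2, satB2, smG2, smH2, mG2, mH2, qG2, su2⟩ :=
    half C J hκ hr hκr hg hcO (D2 J.d) J.J2 (fun w hw => hw.1) J.openJ2 J.j2 J.k2 J.j2_smooth
      J.k2_smooth J.j2_maps J.k2_maps hLam2 {z | ‖p2 z‖ < ‖p1 z‖ / 2}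
      (isOpen_lt hcont2.norm (hcont1.norm.div_const 2))
      (fun z hz h => ⟨hPcyl z hz, ((Pc_ratio C hz).2).2 h⟩)
      (fun w hw h => ((Qc_ratio C hw).2).2 h.2)
      (fun z hz => by
        obtain ⟨h1, h2, h3, h4, h5, h6⟩ := R_PD C (κ := κ) hz
        simp only [Set.mem_ofPred_eq, h4, h5])
  have hmA1 : ∀ z, z ∈ A1 ↔ z ∈ SS C ∧ g (J.e (Pc C κ z)) ∈ J.J1 := by
    intro z
    rw [hA1]
    rfl
  have hmA2 : ∀ z, z ∈ A2 ↔ z ∈ SS C ∧ g (J.e (Pc C κ z)) ∈ J.J2 := by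
    intro z
    rw [hA2]
    rfl
  have hvG1 : ∀ z, G1 z = Qc C κ (J.k1 (g (J.e (Pc C κ z)))) := fun z => by rw [hG1]
  have hvG2 : ∀ z, G2 z = Qc C κ (J.k2 (g (J.e (Pc C κ z)))) := fun z => by rw [hG2]
  have hsurB : ∀ z ∈ PD C, |tS z| < 31 / 100 → ∀ y ∈ J.J1 ∪ J.J2, Lam7 J y = lam7 (Pc C κ z) →
      ∃ w ∈ QD C κ, w ∈ cyl J.d ∧ |C.sc (κ⁻¹ • lam7 w)| < 34 / 100 ∧ g (J.e w) = y := by
    intro z hz ht y hy hLy
    have h1 : κ⁻¹ • Lam7 J y = C.io (C.rho (p3 z)) (tS z) := by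
      rw [hLy, (lam7_Pc C hκ hz).1, smul_smul, inv_mul_cancel₀ hκ.ne', one_smul]
    obtain ⟨h2, h3, h4⟩ := C.io_mem _ (C.io_rho _ hz.2.2).1 _ (abs_lt.1 hz.2.1)
    obtain ⟨w, hw1, hw2, hw3, hw4⟩ := hsur y hy (by rw [h1]; exact h2) (by rw [h1, h4]; exact ht)
    exact ⟨w, hw1, hw3, hw2, hw4⟩
  have hcloseG : ∀ z ∈ SS C, ∀ w ∈ QD C κ, lam7 w = Lam7 J (g (J.e (Pc C κ z))) →
      (1 - ε) * gS z < gS (Qc C κ w) ∧ gS (Qc C κ w) < (1 + ε) * gS z ∧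
        dist (p3 (Qc C κ w)) (C.rho (p3 z)) < ε := by
    intro z hz w hw hlw
    obtain ⟨h1, h2, h3, h4⟩ := hclose z hz
    obtain ⟨q1, q2, q3, q4, q5⟩ := Qc_mem C hκ hw
    rw [← hlw] at h3 h4
    have h5 := hcl (gS z) (gS (Qc C κ w)) (SS_PD C hz).1.1 q1.1 (by
      have h6 : Real.log (gS (Qc C κ w)) / 40 = C.sc (κ⁻¹ • lam7 w) := q4
      have h7 : Real.log (gS z) / 40 = tS z := rfl
      rw [h6, h7]
      exact h3)
    refine ⟨h5.1, h5.2, ?_⟩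
    rw [dist_eq_norm, q5]
    exact lt_of_lt_of_le h4 hε₁ε
  refine ⟨{ A1 := A1, A2 := A2, B1 := B1, B2 := B2, G1 := G1, G2 := G2, H1 := H1, H2 := H2,
            openA1 := oA1, openA2 := oA2, openB1 := oB1, openB2 := oB2,
            subA := ?_, coverA := ?_, subB1 := ?_, subB2 := ?_, satA1 := satA1, satA2 := satA2,
            satB1 := satB1, satB2 := satB2, smoothG1 := smG1, smoothG2 := smG2,
            smoothH1 := smH1, smoothH2 := smH2, mapsG1 := mG1, mapsG2 := mG2, mapsH1 := mH1,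
            mapsH2 := mH2, inter := ?_, compat := ?_, inter2 := ?_, surj1 := ?_, surj2 := ?_,
            close1 := ?_, close2 := ?_ }⟩
  · rintro z (hz | hz)
    · exact ((hmA1 z).1 hz).1
    · exact ((hmA2 z).1 hz).1
  · intro z h1 h2 h3
    have hz : z ∈ SS C := ⟨h1, h2, h3⟩
    rcases (hclose z hz).1 with h | h
    · exact Or.inl ((hmA1 z).2 ⟨hz, h⟩)
    · exact Or.inr ((hmA2 z).2 ⟨hz, h⟩)
  · intro z hz
    exact sB1 z hz
  · intro z hz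
    exact sB2 z hz
  · intro z hz
    have h1 := (hmA1 z).1 hz
    rw [hmA2, hvG1, (Qc_ratio C (qG1 z hz)).2, ← J.inter _ h1.2]
    exact ⟨fun h => h.2, fun h => ⟨h1.1, h⟩⟩
  · rintro z ⟨hz1, hz2⟩
    have h1 := (hmA1 z).1 hz1
    have h2 := (hmA2 z).1 hz2
    rw [hvG1, hvG2, J.compat _ ⟨h1.2, h2.2⟩]
    exact Qc_tt C hl (qG1 z hz1)
  · intro z hz hne
    have h2 := (hmA2 z).1 hz
    refine (hmA1 z).2 ⟨h2.1, J.inter2 _ h2.2 ?_⟩
    intro h3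
    apply hne
    rw [hvG2]
    exact ((Qc_ratio C (qG2 z hz)).1).2 h3
  · intro z h1 h2 h3 h4
    have ht : |tS z| < 31 / 100 := L2 h1 h2
    have hz : z ∈ PD C := ⟨lt_trans (by positivity) h1, lt_trans ht (by norm_num), h3⟩
    have hD : Pc C κ z ∈ D1 J.d := ⟨hPcyl z hz, fun h => h4 (((Pc_ratio C hz).1).1 h)⟩
    obtain ⟨hj1, hj2⟩ := J.j1_maps _ hD
    obtain ⟨w, hw1, hw2, hw3, hw4⟩ := hsurB z hz ht _ (Or.inl hj1) (by rw [hLam1 _ hj1, hj2])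
    exact su1 z hz h4 w hw1 hw2 hw3 hw4
  · intro z h1 h2 h3 h4
    have ht : |tS z| < 31 / 100 := L2 h1 h2
    have hz : z ∈ PD C := ⟨lt_trans (by positivity) h1, lt_trans ht (by norm_num), h3⟩
    have hD : Pc C κ z ∈ D2 J.d := ⟨hPcyl z hz, ((Pc_ratio C hz).2).2 h4⟩
    obtain ⟨hj1, hj2⟩ := J.j2_maps _ hD
    obtain ⟨w, hw1, hw2, hw3, hw4⟩ := hsurB z hz ht _ (Or.inr hj1) (by rw [hLam2 _ hj1, hj2])
    exact su2 z hz h4 w hw1 hw2 hw3 hw4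
  · intro z hz
    have h1 := (hmA1 z).1 hz
    rw [hvG1]
    exact hcloseG z h1.1 _ (qG1 z hz) (hLam1 _ h1.2).symm
  · intro z hz
    have h1 := (hmA2 z).1 hz
    rw [hvG2]
    exact hcloseG z h1.1 _ (qG2 z hz) (hLam2 _ h1.2).symm

end EXO
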