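import Pool.Agent.EXO.TBri
import Pool.Agent.EXO.GcJ
import Pool.Agent.EXO.GlMain

/-!
# EXO, final assembly, part A: from the non-existence of the data `VData` to the counterexample

`approx_mono`: on a bounded open set, approximability in `W^{1,q}` implies approximability in `W^{1,p}` for `p ≤ q`.
`exo_of_novdata`: if for some connected closed hypersurface `N` of `ℝ⁷` with collar the data `VData` do not exist, then there is a
piecewise affine homeomorphism of a bounded open subset of `ℝ^14` which cannot be approximated.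
-/

set_option maxSynthPendingDepth 3

open Set MeasureTheory SM.Stm
open scoped ContDiff ENNReal
open Pool.Agent.EXO

namespace EXO

/-- The statement of the theorem: a piecewise affine homeomorphism `f` of a bounded open subset `Ω` of
`ℝ^14`, Lipschitz on `Ω`, which is not a limit of diffeomorphisms in `W^{1,p}(Ω)` for any `p > 14`. -/
def FinStmt : Prop := ∃ (Ω : Set (Rn 14)) (f : Rn 14 → Rn 14), IsOpen Ω ∧ Bornology.IsBounded Ω ∧
  PAHomeo Ω f ∧ (∃ K : NNReal, LipschitzOnWith K f Ω) ∧ (∀ p : ℝ≥0∞, Sobolev Ω p f) ∧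
  ∀ p : ℝ≥0∞, 14 < p → ¬ Approximable Ω p f

theorem approx_mono {n : ℕ} {Ω : Set (Rn n)} (hΩ : Bornology.IsBounded Ω) {p q : ℝ≥0∞}
    (hpq : p ≤ q) {f : Rn n → Rn n} (h : Approximable Ω q f) : Approximable Ω p f := by
  obtain ⟨F, hF, h1⟩ := h
  have : IsFiniteMeasure (volume.restrict Ω) :=
    ⟨by
      rw [Measure.restrict_apply_univ]
      exact hΩ.measure_lt_top⟩
  refine ⟨F, ⟨hF.memf.mono_exponent hpq, hF.memF.mono_exponent hpq, hF.weak⟩, ?_⟩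
  intro ε hε
  set c : ℝ≥0∞ := (volume.restrict Ω) Set.univ ^ (1 / p.toReal - 1 / q.toReal) with hc
  by_cases hp0 : p = 0
  · subst hp0
    obtain ⟨g, G, hg, hG, hd⟩ := h1 1 one_ne_zero
    refine ⟨g, G, hg, ⟨hG.memf.mono_exponent hpq, hG.memF.mono_exponent hpq, hG.weak⟩, ?_⟩
    unfold distW
    simpa using pos_iff_ne_zero.2 hε
  have hexp : 0 ≤ 1 / p.toReal - 1 / q.toReal := by
    by_cases hq : q = ⊤
    · subst hq
      simp
    · have hp : p ≠ ⊤ := ne_top_of_le_ne_top hq hpq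
      have h3 : 0 < p.toReal := ENNReal.toReal_pos hp0 hp
      have h4 : p.toReal ≤ q.toReal := ENNReal.toReal_mono hq hpq
      have h5 := one_div_le_one_div_of_le h3 h4
      linarith
  have hcfin : c ≠ ⊤ := by
    rw [hc]
    exact (ENNReal.rpow_lt_top_of_nonneg hexp (measure_ne_top _ _)).ne
  obtain ⟨ε1, hε1, hε1'⟩ : ∃ ε1 : ℝ≥0∞, ε1 ≠ 0 ∧ ∀ x : ℝ≥0∞, x < ε1 → x * c < ε := by
    by_cases hc0 : c = 0
    · refine ⟨1, one_ne_zero, fun x _ => ?_⟩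
      rw [hc0, mul_zero]
      exact pos_iff_ne_zero.2 hε
    · refine ⟨ε / c, ENNReal.div_ne_zero.2 ⟨hε, hcfin⟩, fun x hx => ?_⟩
      exact ENNReal.lt_div_iff_mul_lt (Or.inl hc0) (Or.inl hcfin) |>.1 hx
  obtain ⟨g, G, hg, hG, hd⟩ := h1 ε1 hε1
  refine ⟨g, G, hg, ⟨hG.memf.mono_exponent hpq, hG.memF.mono_exponent hpq, hG.weak⟩, ?_⟩
  refine lt_of_le_of_lt ?_ (hε1' _ hd)
  unfold distW
  rw [add_mul]
  exact add_le_add
    (eLpNorm_le_eLpNorm_mul_rpow_measure_univ hpq (hG.memf.1.sub hF.memf.1))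
    (eLpNorm_le_eLpNorm_mul_rpow_measure_univ hpq (hG.memF.1.sub hF.memF.1))

theorem fin_of_noclose {δ ρ d d0 : ℝ} {F : Eu 14 → Eu 14} {φ : Eu 6 → Eu 6}
    (D : SmoothBox δ ρ F φ) (hd : 0 < d) (hdd : d < d0) (hd0 : d0 ≤ 1)
    (A : Eu 14 ≃ᵃ[ℝ] Eu 14) {Ω : Set (Eu 14)} (hΩo : IsOpen Ω) (hΩb : Bornology.IsBounded Ω)
    (hΩ : ∀ x ∈ boxU ρ d0, A x ∈ Ω ↔ (x ∈ zlt δ ∧ |x 13| < d))
    {C : Set (Eu 14)} (hC : IsCompact C) (hCΩ : C ⊆ Ω) {ε : ℝ} (hε : 0 < ε)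
    (hB : ∀ g : Eu 14 → Eu 14, IsDiffeo Ω g →
      ¬ ∀ x ∈ C, ‖g x - gl A (boxU ρ d0) (model F φ) x‖ < ε) : FinStmt := by
  obtain ⟨f, h1, h2, h3, h4⟩ := exo_of_theoremB D hd hdd hd0 A hΩo hΩb hΩ hC hCΩ hε hB
  refine ⟨Ω, f, hΩo, hΩb, toPAHomeo h1, h2, fun p => toSobolev (h3 p), ?_⟩
  have key : ∀ p : ℝ, 14 < p → ¬ Approximable Ω (ENNReal.ofReal p) f := by
    intro p hp hA
    obtain ⟨ε', hε', h5⟩ := h4 p hp
    obtain ⟨F', hF', h6⟩ := hA
    obtain ⟨g, G, hg, hG, hdist⟩ := h6 (ENNReal.ofReal ε') (by simpa using hε')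
    refine h5 g (ofDiffeo hg) (toWDist hΩo ?_ hF' hG hdist)
    rw [← ENNReal.ofReal_one]
    exact ENNReal.ofReal_le_ofReal (by linarith)
  intro p hp hA
  by_cases hpt : p = ⊤
  · refine key 15 (by norm_num) (approx_mono hΩb ?_ hA)
    rw [hpt]
    exact le_top
  · refine key p.toReal ?_ ?_
    · have h5 := (ENNReal.toReal_lt_toReal (by norm_num) hpt).2 hp
      simpa using h5
    · rwa [ENNReal.ofReal_toReal hpt]

theorem exo_of_novdata (N : OrGeo 6 7) (C : Collar N.carrier) (hN : IsConnected N.carrier) (δ : ℝ)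
    (hvcl : ∀ l : ℝ, 0 < l → ∃ ε : ℝ, 0 < ε ∧
      (Nonempty (GData C l ε) → Nonempty (VData N C l δ)))
    (hno : ∀ l : ℝ, 0 < l → l < 1 → VData N C l δ → False) : FinStmt := by
  obtain ⟨l, hl, hl1, δ', ρ, d, d0, F, φ, A, J, hbox, hd, hdd, hd0, hiff, hf0⟩ := geo_main
  obtain ⟨ε, hε, hV⟩ := hvcl l hl
  obtain ⟨K, ε', hK, hKΩ, hε', hg⟩ := glu_main N.compact hN C hl J hε
  refine fin_of_noclose hbox hd hdd hd0 A J.openΩ J.bddΩ hiff hK hKΩ hε' ?_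
  intro g hgd hclose
  rw [← hf0] at hclose
  obtain ⟨W⟩ := hV (hg g hgd hclose)
  exact hno l hl hl1 W

end EXO
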