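import Mathlib
import Pool.Agent.EXO.SuCh

/-!
# EXO / SuChg: change of charts in integrals

PROOF.  Let `τ u = κ₂ (ψ₁ u)`, `s = U₁ ∩ ψ₁ ⁻¹' O₂` (open by `(h1.restrict h2.openO).openU`, hence
measurable).  `τ` is injective on `s` (`IsChart.trans_mem`: `κ₁ (ψ₂ (τ u)) = u`), differentiable at
the points of `s` (`trans_contDiffAt`), and `τ '' s = U₂ ∩ ψ₂ ⁻¹' O₁` (inverse map `κ₁ ∘ ψ₂`).  Now apply
`MeasureTheory.lintegral_image_eq_lintegral_abs_det_fderiv_mul` with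
`g w = F (ψ₂ w) * ofReal (volF (fderiv ℝ ψ₂ w))`: on `s` we have `ψ₂ (τ u) = ψ₁ u` and
`volF (fderiv ℝ ψ₁ u) = |det (fderiv ℝ τ u)| * volF (fderiv ℝ ψ₂ (τ u))` by `IsChart.trans_fderiv` and
`volF_comp`; `ENNReal.ofReal_mul (abs_nonneg _)`.  (`Real.sqrt (gram ψ u).det` is `volF (fderiv ℝ ψ u)` by
`rfl`, see `sqrt_gram_eq`.)
-/

set_option autoImplicit false

open Set Filter Topology MeasureTheory
open scoped ContDiff ENNReal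

namespace Pool.Agent.EXO

theorem IsChart.lintegral_trans {n M : ℕ} {V : Set (En M)} {U₁ : Set (En n)} {ψ₁ : En n → En M}
    {O₁ : Set (En M)} {κ₁ : En M → En n} {U₂ : Set (En n)} {ψ₂ : En n → En M} {O₂ : Set (En M)}
    {κ₂ : En M → En n} (h1 : IsChart V U₁ ψ₁ O₁ κ₁) (h2 : IsChart V U₂ ψ₂ O₂ κ₂)
    (F : En M → ℝ≥0∞) :
    ∫⁻ u in U₁ ∩ ψ₁ ⁻¹' O₂, F (ψ₁ u) * ENNReal.ofReal (Real.sqrt (gram ψ₁ u).det)
      = ∫⁻ u in U₂ ∩ ψ₂ ⁻¹' O₁, F (ψ₂ u) * ENNReal.ofReal (Real.sqrt (gram ψ₂ u).det) := by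
  have hs : MeasurableSet (U₁ ∩ ψ₁ ⁻¹' O₂) := (h1.restrict h2.openO).openU.measurableSet
  have himg : (fun w => κ₂ (ψ₁ w)) '' (U₁ ∩ ψ₁ ⁻¹' O₂) = U₂ ∩ ψ₂ ⁻¹' O₁ := by
    ext w
    constructor
    · rintro ⟨u, ⟨hu, hu'⟩, rfl⟩
      obtain ⟨m1, m2, m3⟩ := h1.trans_mem h2 hu hu'
      refine ⟨m1, ?_⟩
      change ψ₂ (κ₂ (ψ₁ u)) ∈ O₁
      rw [m2]
      exact h1.mem_O hu
    · rintro ⟨hw, hw'⟩
      obtain ⟨m1, m2, m3⟩ := h2.trans_mem h1 hw hw'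
      refine ⟨κ₁ (ψ₂ w), ⟨m1, ?_⟩, m3⟩
      change ψ₁ (κ₁ (ψ₂ w)) ∈ O₂
      rw [m2]
      exact h2.mem_O hw
  have hinj : InjOn (fun w => κ₂ (ψ₁ w)) (U₁ ∩ ψ₁ ⁻¹' O₂) := by
    intro a ha b hb hab
    have ea := (h1.trans_mem h2 ha.1 ha.2).2.2
    have eb := (h1.trans_mem h2 hb.1 hb.2).2.2
    have hab' : κ₂ (ψ₁ a) = κ₂ (ψ₁ b) := hab
    rw [← ea, ← eb, hab']
  have hd : ∀ u ∈ U₁ ∩ ψ₁ ⁻¹' O₂, HasFDerivWithinAt (fun w => κ₂ (ψ₁ w))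
      (fderiv ℝ (fun w => κ₂ (ψ₁ w)) u) (U₁ ∩ ψ₁ ⁻¹' O₂) u := fun u hu =>
    (((h1.trans_contDiffAt h2 hu.1 hu.2).differentiableAt (by simp)).hasFDerivAt).hasFDerivWithinAt
  have key := MeasureTheory.lintegral_image_eq_lintegral_abs_det_fderiv_mul volume hs hd hinj
    (fun w => F (ψ₂ w) * ENNReal.ofReal (Real.sqrt (gram ψ₂ w).det))
  rw [himg] at key
  rw [key]
  refine MeasureTheory.setLIntegral_congr_fun hs ?_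
  intro u hu
  obtain ⟨m1, m2, m3⟩ := h1.trans_mem h2 hu.1 hu.2
  have e1 : Real.sqrt (gram ψ₁ u).det = |(fderiv ℝ (fun w => κ₂ (ψ₁ w)) u).det| *
      Real.sqrt (gram ψ₂ (κ₂ (ψ₁ u))).det := by
    rw [sqrt_gram_eq, sqrt_gram_eq, h1.trans_fderiv h2 hu.1 hu.2, volF_comp]
  simp only
  rw [m2, e1, ENNReal.ofReal_mul (abs_nonneg _)]
  ring

end Pool.Agent.EXO
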