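import Mathlib
import Pool.Agent.EXO.SuAtl
import Pool.Agent.EXO.SuChg
import Pool.Agent.EXO.SuMuC

/-!
# EXO / SuMu: the Riemannian measure

PROOF.  Let `A` be an atlas (`exists_atl`),
`μ = ∑ i, (chM (A.U i) (A.ψ i)).withDensity fun x => ofReal (A.χ i x)` (a finite sum).
* finite: `μ univ = ∑ i, ∫⁻ x, ofReal (χ i x) ∂chM = ∑ i, ∫⁻ u in U i, ofReal (χ i (ψ i u)) * ...`
  (`lintegral_chM`), finite by `lintegral_cutoff_lt_top`.
* `μ Vᶜ = 0`: `withDensity_absolutelyContinuous` and `chM_compl`.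
* the chart formula: let `(U, ψ, O, κ)` be a chart and `f` measurable.  Let `f' = O.indicator f`
  (measurable).  Then `∫⁻ x in O, f x ∂μ = ∫⁻ x, f' x ∂μ = ∑ i, ∫⁻ x, ofReal (χ i x) * f' x ∂chM i`
  `= ∑ i, ∫⁻ u in U i, ofReal (χ i (ψ i u)) * f' (ψ i u) * ofReal (sqrt ..)`.  In the i-th integral the
  integrand vanishes outside `U i ∩ ψ i ⁻¹' O`, so it is
  `∫⁻ u in U i ∩ ψ i ⁻¹' O, (ofReal (χ i) * f) (ψ i u) * ofReal (sqrt ..)`, by `IsChart.lintegral_trans` it is
  equal to `∫⁻ u in U ∩ ψ ⁻¹' (O i), (ofReal (χ i) * f) (ψ u) * ofReal (sqrt (gram ψ u).det)`, which is the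
  integral over `U`, because `χ i` vanishes outside `O i`.  Now add up
  (`lintegral_finset_sum` needs measurability of the summands, `AEMeasurable` on `U`: `χ i`, `f` measurable,
  `ψ` continuous on `U`), and `∑ i, ofReal (χ i (ψ u)) = ofReal 1 = 1` for `u ∈ U` since `ψ u ∈ V`
  (`ENNReal.ofReal_sum_of_nonneg`).
-/

set_option autoImplicit false

open Set Filter Topology MeasureTheory
open scoped ContDiff ENNReal

namespace Pool.Agent.EXO

private theorem sumu_aemeas {n M : ℕ} {V : Set (En M)} {U : Set (En n)} {ψ : En n → En M}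
    {O : Set (En M)} {κ : En M → En n} (h : IsChart V U ψ O κ) :
    AEMeasurable (fun u => ENNReal.ofReal (Real.sqrt (gram ψ u).det)) (volume.restrict U) := by
  have h1 : ContinuousOn (fun u => Real.sqrt (gram ψ u).det) U :=
    (continuous_volF (n := n) (m := M)).comp_continuousOn
      (h.smoothψ.continuousOn_fderiv_of_isOpen h.openU (by simp))
  exact (h1.aemeasurable h.openU.measurableSet).ennreal_ofReal

theorem ClosedSub.exists_μ {n M : ℕ} (V : ClosedSub n M) :
    ∃ μ : Measure (En M), IsFiniteMeasure μ ∧ μ V.carrierᶜ = 0 ∧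
      ∀ (U : Set (En n)) (ψ : En n → En M) (O : Set (En M)) (κ : En M → En n),
        IsChart V.carrier U ψ O κ → ∀ f : En M → ℝ≥0∞, Measurable f →
          ∫⁻ x in O, f x ∂μ
            = ∫⁻ u in U, f (ψ u) * ENNReal.ofReal (Real.sqrt (gram ψ u).det) := by
  obtain ⟨A⟩ := V.exists_atl
  have hχm : ∀ i, Measurable fun x => ENNReal.ofReal (A.χ i x) := fun i =>
    (A.smoothχ i).continuous.measurable.ennreal_ofReal
  obtain ⟨μ, hμ⟩ : ∃ μ : Measure (En M), μ = ∑ i, (chM (A.U i) (A.ψ i)).withDensity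
    fun x => ENNReal.ofReal (A.χ i x) := ⟨_, rfl⟩
  -- integral of a measurable function
  have hint : ∀ f : En M → ℝ≥0∞, Measurable f → ∫⁻ x, f x ∂μ =
      ∑ i, ∫⁻ u in A.U i, (ENNReal.ofReal (A.χ i (A.ψ i u)) * f (A.ψ i u)) *
        ENNReal.ofReal (Real.sqrt (gram (A.ψ i) u).det) := by
    intro f hf
    rw [hμ, lintegral_finsetSum_measure]
    refine Finset.sum_congr rfl fun i _ => ?_
    rw [lintegral_withDensity_eq_lintegral_mul _ (hχm i) hf]
    exact (A.chart i).lintegral_chM ((hχm i).mul hf)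
  refine ⟨μ, ⟨?_⟩, ?_, ?_⟩
  · have h1 := hint (fun _ => 1) measurable_const
    rw [lintegral_one] at h1
    rw [h1]
    refine ENNReal.sum_lt_top.mpr fun i _ => ?_
    have h2 := (A.chart i).lintegral_cutoff_lt_top V.compact (A.smoothχ i).continuous (A.compχ i)
      (A.suppχ i)
    simpa using h2
  · rw [hμ, Measure.finsetSum_apply]
    refine Finset.sum_eq_zero fun i _ => ?_
    exact withDensity_absolutelyContinuous _ _
      ((A.chart i).chM_compl V.compact.isClosed.measurableSet)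
  · intro U ψ O κ h f hf
    have hO := h.openO.measurableSet
    rw [← lintegral_indicator hO, hint _ (hf.indicator hO)]
    have hsum : ∀ u ∈ U, f (ψ u) * ENNReal.ofReal (Real.sqrt (gram ψ u).det) =
        ∑ i, (ENNReal.ofReal (A.χ i (ψ u)) * f (ψ u)) *
          ENNReal.ofReal (Real.sqrt (gram ψ u).det) := by
      intro u hu
      have h1 : ∑ i, A.χ i (ψ u) = 1 :=
        A.sum_one.self_of_nhdsSet (ψ u) (h.mem_V hu)
      have h2 : ∑ i, ENNReal.ofReal (A.χ i (ψ u)) = 1 := by
        rw [← ENNReal.ofReal_sum_of_nonneg (fun i _ => A.nonneg i _), h1, ENNReal.ofReal_one]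
      rw [← Finset.sum_mul, ← Finset.sum_mul, h2, one_mul]
    rw [setLIntegral_congr_fun h.openU.measurableSet hsum]
    have hψ : AEMeasurable ψ (volume.restrict U) :=
      h.smoothψ.continuousOn.aemeasurable h.openU.measurableSet
    have hadd := lintegral_finsetSum' (μ := volume.restrict U) Finset.univ
      (f := fun i u => (ENNReal.ofReal (A.χ i (ψ u)) * f (ψ u)) *
        ENNReal.ofReal (Real.sqrt (gram ψ u).det)) (fun i _ =>
      ((((hχm i).comp_aemeasurable hψ).mul (hf.comp_aemeasurable hψ)).mul (sumu_aemeas h)))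
    rw [hadd]
    refine Finset.sum_congr rfl fun i _ => ?_
    -- first step: restrict to U i ∩ ψ i ⁻¹' O
    have hi := A.chart i
    have hm1 : MeasurableSet (A.U i ∩ A.ψ i ⁻¹' O) := (hi.restrict h.openO).openU.measurableSet
    have hm2 : MeasurableSet (U ∩ ψ ⁻¹' (A.O i)) := (h.restrict hi.openO).openU.measurableSet
    have e1 : ∫⁻ u in A.U i, (ENNReal.ofReal (A.χ i (A.ψ i u)) * O.indicator f (A.ψ i u)) *
          ENNReal.ofReal (Real.sqrt (gram (A.ψ i) u).det) =
        ∫⁻ u in A.U i ∩ A.ψ i ⁻¹' O, (ENNReal.ofReal (A.χ i (A.ψ i u)) * f (A.ψ i u)) *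
          ENNReal.ofReal (Real.sqrt (gram (A.ψ i) u).det) := by
      rw [← lintegral_indicator hi.openU.measurableSet, ← lintegral_indicator hm1]
      refine lintegral_congr fun u => ?_
      by_cases h1 : u ∈ A.U i
      · by_cases h2 : A.ψ i u ∈ O
        · rw [Set.indicator_of_mem h1, Set.indicator_of_mem (show u ∈ A.U i ∩ A.ψ i ⁻¹' O from
            ⟨h1, h2⟩), Set.indicator_of_mem h2]
        · rw [Set.indicator_of_mem h1, Set.indicator_of_notMem (show u ∉ A.U i ∩ A.ψ i ⁻¹' O from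
            fun h3 => h2 h3.2), Set.indicator_of_notMem h2, mul_zero, zero_mul]
      · rw [Set.indicator_of_notMem h1, Set.indicator_of_notMem (show u ∉ A.U i ∩ A.ψ i ⁻¹' O from
            fun h3 => h1 h3.1)]
    have e2 := hi.lintegral_trans h (fun x => ENNReal.ofReal (A.χ i x) * f x)
    have e3 : ∫⁻ u in U ∩ ψ ⁻¹' (A.O i), (ENNReal.ofReal (A.χ i (ψ u)) * f (ψ u)) *
          ENNReal.ofReal (Real.sqrt (gram ψ u).det) =
        ∫⁻ u in U, (ENNReal.ofReal (A.χ i (ψ u)) * f (ψ u)) *
          ENNReal.ofReal (Real.sqrt (gram ψ u).det) := by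
      rw [← lintegral_indicator h.openU.measurableSet, ← lintegral_indicator hm2]
      refine lintegral_congr fun u => ?_
      by_cases h1 : u ∈ U
      · by_cases h2 : ψ u ∈ A.O i
        · rw [Set.indicator_of_mem h1, Set.indicator_of_mem (show u ∈ U ∩ ψ ⁻¹' A.O i from
            ⟨h1, h2⟩)]
        · have h0 : A.χ i (ψ u) = 0 := by
            by_contra hne
            exact h2 (A.suppχ i (subset_tsupport _ hne))
          rw [Set.indicator_of_mem h1, Set.indicator_of_notMem (show u ∉ U ∩ ψ ⁻¹' A.O i from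
            fun h3 => h2 h3.2), h0, ENNReal.ofReal_zero, zero_mul, zero_mul]
      · rw [Set.indicator_of_notMem h1, Set.indicator_of_notMem (show u ∉ U ∩ ψ ⁻¹' A.O i from
            fun h3 => h1 h3.1)]
    rw [e1, e2, e3]

end Pool.Agent.EXO
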