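import Mathlib
import Pool.Agent.EXO.SuAtl

/-!
# EXO / SuP: the smooth extension of the orthogonal projections

PROOF.  Let `A` be an atlas (`exists_atl`), `P x = ∑ i, χ i x • prj (fderiv ℝ (ψ i) (κ i x))`.
Smoothness: it suffices that each summand is smooth at every point `x`.  If `x ∈ O i`: `κ i` is
smooth at `x`, `κ i x ∈ U i` (`mapsO`), `fderiv ℝ (ψ i)` is smooth at `κ i x`
(`IsChart.contDiffAt_fderiv_ψ`), and `prj` is smooth at injective maps (`contDiffAt_prj`,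
`IsChart.injective`).  If `x ∉ O i`, then `x ∉ tsupport (χ i)` and the summand vanishes near `x`
(`notMem_tsupport_iff_eventuallyEq`).
Formula: let `(U, ψ, O, κ)` be a chart and `u ∈ U`, `x = ψ u ∈ V`.  If `χ i x ≠ 0` then `x ∈ O i`,
`κ i x ∈ U i`, `ψ i (κ i x) = x`, so that `prj (fderiv ℝ (ψ i) (κ i x)) = prj (fderiv ℝ ψ u)` by
`IsChart.prj_eq`.  Hence `P x = (∑ i, χ i x) • prj (fderiv ℝ ψ u)`, and the sum is one
(`sum_one`, evaluated at `x`: `Filter.Eventually.self_of_nhdsSet`).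
-/

set_option autoImplicit false

open Set Filter Topology MeasureTheory
open scoped ContDiff ENNReal

namespace Pool.Agent.EXO

private theorem SuP_zero {M : ℕ} (L : En M →L[ℝ] En M) : (0 : ℝ) • L = 0 := by
  ext v
  simp

private theorem SuP_smooth {n M : ℕ} {V : Set (En M)} (A : Atl n V) (i : Fin A.N) :
    ContDiff ℝ ∞ (fun x : En M => A.χ i x • prj (fderiv ℝ (A.ψ i) (A.κ i x))) := by
  rw [contDiff_iff_contDiffAt]
  intro x
  by_cases hx : x ∈ A.O i
  · have hu : A.κ i x ∈ A.U i := A.mapsO i x hx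
    have h1 : ContDiffAt ℝ ∞ (fun y : En M => fderiv ℝ (A.ψ i) (A.κ i y)) x :=
      ((A.chart i).contDiffAt_fderiv_ψ hu).comp x ((A.chart i).contDiffAt_κ hx)
    have h2 : ContDiffAt ℝ ∞ (fun y : En M => prj (fderiv ℝ (A.ψ i) (A.κ i y))) x :=
      ContDiffAt.comp (g := (prj : (En n →L[ℝ] En M) → _)) x
        (contDiffAt_prj ((A.chart i).injective hu)) h1
    exact (A.smoothχ i).contDiffAt.smul h2
  · have h1 : x ∉ tsupport (A.χ i) := fun h => hx (A.suppχ i h)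
    have h2 : A.χ i =ᶠ[𝓝 x] 0 := notMem_tsupport_iff_eventuallyEq.1 h1
    have h3 : (fun x : En M => A.χ i x • prj (fderiv ℝ (A.ψ i) (A.κ i x)))
        =ᶠ[𝓝 x] fun _ => 0 := by
      filter_upwards [h2] with y hy
      have hy' : A.χ i y = 0 := hy
      rw [hy']
      exact SuP_zero _
    exact contDiffAt_const.congr_of_eventuallyEq h3

theorem ClosedSub.exists_P {n M : ℕ} (V : ClosedSub n M) :
    ∃ P : En M → (En M →L[ℝ] En M), ContDiff ℝ ∞ P ∧
      ∀ (U : Set (En n)) (ψ : En n → En M) (O : Set (En M)) (κ : En M → En n),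
        IsChart V.carrier U ψ O κ → ∀ u ∈ U, P (ψ u) = prj (fderiv ℝ ψ u) := by
  obtain ⟨A⟩ := V.exists_atl
  refine ⟨fun x => ∑ i, A.χ i x • prj (fderiv ℝ (A.ψ i) (A.κ i x)),
    ContDiff.sum fun i _ => SuP_smooth A i, ?_⟩
  intro U ψ O κ h u hu
  have h1 : ∀ i, A.χ i (ψ u) • prj (fderiv ℝ (A.ψ i) (A.κ i (ψ u)))
      = A.χ i (ψ u) • prj (fderiv ℝ ψ u) := by
    intro i
    by_cases h0 : A.χ i (ψ u) = 0
    · rw [h0, SuP_zero, SuP_zero]
    · have hO : ψ u ∈ A.O i := A.suppχ i (subset_tsupport _ h0)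
      have hU : A.κ i (ψ u) ∈ A.U i := A.mapsO i _ hO
      have he : A.ψ i (A.κ i (ψ u)) = ψ u := (A.chart i).right _ ⟨h.mem_V hu, hO⟩
      rw [(A.chart i).prj_eq h hU hu he]
  have h2 : ∑ i, A.χ i (ψ u) = 1 := by
    have h3 := A.sum_one.self_of_nhdsSet
    exact h3 (ψ u) (h.mem_V hu)
  show ∑ i, A.χ i (ψ u) • prj (fderiv ℝ (A.ψ i) (A.κ i (ψ u))) = prj (fderiv ℝ ψ u)
  rw [Finset.sum_congr rfl fun i _ => h1 i, ← Finset.sum_smul, h2, one_smul]

end Pool.Agent.EXO
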