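import Mathlib
import Pool.Agent.EXO.SuP
import Pool.Agent.EXO.SuMu

/-!
# EXO / SuGeo: IF_geom, existence of the projections and of the Riemannian measure

PROOF.  Take `P` from `ClosedSub.exists_P` and `μ` from `ClosedSub.exists_μ`.  For `x ∈ V` take a chart with
`x ∈ O`, `u = κ x ∈ U`, `ψ u = x`, `P x = prj (fderiv ℝ ψ u)` with `fderiv ℝ ψ u` injective
(`IsChart.injective`); `prj_inner`, `prj_prj` give `P_sa`, `P_idem`; for `P_range` use `prj_apply_apply` and
`prj_mem_range`.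
-/

set_option autoImplicit false

open Set Filter Topology MeasureTheory
open scoped ContDiff ENNReal

namespace Pool.Agent.EXO

/-- Existence of the projections to the tangent spaces and of the Riemannian measure. -/
theorem IF_geom (n M : ℕ) (V : ClosedSub n M) : ∃ G : Geo n M, G.toClosedSub = V := by
  obtain ⟨P, hPs, hP⟩ := V.exists_P
  obtain ⟨μ, hμ1, hμ2, hμ3⟩ := V.exists_μ
  have key : ∀ x ∈ V.carrier, ∃ A : En n →L[ℝ] En M, Function.Injective A ∧ P x = prj A := by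
    intro x hx
    obtain ⟨U, ψ, O, κ, h, hxO⟩ := V.chart x hx
    refine ⟨fderiv ℝ ψ (κ x), h.injective (h.mapsκ x ⟨hx, hxO⟩), ?_⟩
    rw [← hP U ψ O κ h (κ x) (h.mapsκ x ⟨hx, hxO⟩), h.right x ⟨hx, hxO⟩]
  have h1 : ∀ x ∈ V.carrier, ∀ v w : En M, inner ℝ (P x v) w = inner ℝ v (P x w) := by
    intro x hx v w
    obtain ⟨A, hA, hPA⟩ := key x hx
    rw [hPA]
    exact prj_inner hA v w
  have h2 : ∀ x ∈ V.carrier, ∀ v : En M, P x (P x v) = P x v := by
    intro x hx v
    obtain ⟨A, hA, hPA⟩ := key x hx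
    rw [hPA]
    exact prj_prj hA v
  have h3 : ∀ (U : Set (En n)) (ψ : En n → En M) (O : Set (En M)) (κ : En M → En n),
      IsChart V.carrier U ψ O κ → ∀ u ∈ U, ∀ v : En M,
        P (ψ u) v = v ↔ v ∈ range (fderiv ℝ ψ u) := by
    intro U ψ O κ h u hu v
    rw [hP U ψ O κ h u hu]
    constructor
    · intro hv
      obtain ⟨x, hx⟩ := prj_mem_range (fderiv ℝ ψ u) v
      exact ⟨x, hx.trans hv⟩
    · rintro ⟨x, rfl⟩
      exact prj_apply_apply (h.injective hu) x
  exact ⟨⟨V, P, hPs, h1, h2, h3, μ, hμ1, hμ2, hμ3⟩, rfl⟩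

end Pool.Agent.EXO
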