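import Mathlib
import Pool.Agent.EXO.SuOrB

/-!
# EXO / SuVol: existence of the volume form

PROOFS.
* `FAMap_real`: `u.co I` real for all `I` implies `(FAMap L u).co I` real for all `I`.  By linearity it suffices
  to consider `u = c • mon S`, `c` real; `mon S = word dx S` is a product of the forms `dx a`, and `FAMap L (dx a)` has real
  coefficients (`FAMap_of1`, `of1_eq_sum`), and products of forms with real coefficients have real
  coefficients (`FA.co_mul`, `sgJ` is real).
* `top_real`: let `B : En n → En M` with `B† B = 1`, `B B† = P`.  If `α` has degree `n` then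
  `FAMap P α = FAMap B† (FAMap B α) = c • FAMap B† (mon univ)`, `c = (FAMap B α).co univ` (`isDeg_FAMap`, `isDeg_top`);
  `c` is real if `α` has real coefficients.
* `IF_vol`: let `w x = FAMap (P x) (α x)`, smooth on `En M` (`contDiffAt_FAMap`), nonzero on `V`, so nonzero in a
  neighbourhood of each point of `V`, and `x ↦ ‖w x‖⁻¹ • w x` is smooth there (`‖w x‖ ^ 2 = re (inner (w x) (w x))`, the square root
  is smooth at positive numbers).  By `exists_smooth_extension` there is a smooth `vol` with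
  `vol x = ‖w x‖⁻¹ • w x` on `V`.  Let `x ∈ V`, `B` from `Geo.exists_frame`, `e = FAMap B† (mon univ)`, `‖e‖ = 1`
  (`inner_FAMap_adjoint`, `inner_mon`), `w x = c • e` with `c` real, `c ≠ 0`: `vol x = (c / |c|) • e`.
  If `c > 0`: `v i = B (bv i)` (orthonormal, `P x (v i) = v i`, `e = (List.ofFn fun i => of1 (v i)).prod` by `prod_of1_eq`).
  If `c < 0`: the same with `v 0` replaced by `- v 0` (here `0 < n` is used): the product changes its sign
  (`List.ofFn_succ`, `of1 (-v) = - of1 v` from `of1_smul`).  Finally `w x = ‖w x‖ • vol x`.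
-/

set_option autoImplicit false
set_option maxSynthPendingDepth 3

open Set Filter Topology MeasureTheory ContinuousLinearMap
open scoped ContDiff ENNReal

namespace Pool.Agent.EXO

private theorem suVol_co_sum {m : ℕ} {α : Type*} (s : Finset α) (f : α → FA m)
    (I : Finset (Fin m)) : (∑ i ∈ s, f i).co I = ∑ i ∈ s, (f i).co I := by
  classical
  induction s using Finset.induction_on with
  | empty => simp
  | insert a s ha ih => rw [Finset.sum_insert ha, Finset.sum_insert ha, FA.co_add, ih]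

private theorem suVol_mul {m : ℕ} {u v : FA m} (hu : ∀ I, (starRingEnd ℂ) (u.co I) = u.co I)
    (hv : ∀ I, (starRingEnd ℂ) (v.co I) = v.co I) (I : Finset (Fin m)) :
    (starRingEnd ℂ) ((u * v).co I) = (u * v).co I := by
  rw [FA.co_mul, map_sum]
  refine Finset.sum_congr rfl fun J _ => ?_
  rw [map_mul, map_mul, hu, hv]
  congr 2
  simp [sgJ]

private theorem suVol_one {m : ℕ} (I : Finset (Fin m)) :
    (starRingEnd ℂ) ((1 : FA m).co I) = (1 : FA m).co I := by
  rw [FA.co_one]
  split_ifs <;> simp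

private theorem suVol_of1 {m : ℕ} (v : En m) (I : Finset (Fin m)) :
    (starRingEnd ℂ) ((of1 v).co I) = (of1 v).co I := by
  rw [of1_eq_sum, suVol_co_sum, map_sum]
  refine Finset.sum_congr rfl fun a _ => ?_
  rw [FA.co_smul, map_mul, Complex.conj_ofReal, dx, mon_co]
  split_ifs <;> simp

private theorem suVol_list {m : ℕ} (L : List (FA m))
    (hL : ∀ u ∈ L, ∀ I, (starRingEnd ℂ) (u.co I) = u.co I) (I : Finset (Fin m)) :
    (starRingEnd ℂ) (L.prod.co I) = L.prod.co I := by
  induction L generalizing I with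
  | nil => exact suVol_one I
  | cons a L ih =>
    rw [List.prod_cons]
    exact suVol_mul (hL a (by simp)) (fun J => ih (fun u hu => hL u (by simp [hu])) J) I

theorem FAMap_real {k m : ℕ} (L : En k →L[ℝ] En m) {u : FA m}
    (hu : ∀ I, (starRingEnd ℂ) (u.co I) = u.co I) (I : Finset (Fin k)) :
    (starRingEnd ℂ) ((FAMap L u).co I) = (FAMap L u).co I := by
  unfold FAMap
  rw [suVol_co_sum, map_sum]
  refine Finset.sum_congr rfl fun J _ => ?_
  rw [FA.co_smul, map_mul, hu]
  congr 1
  refine suVol_list _ (fun w hw => ?_) I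
  rw [List.mem_map] at hw
  obtain ⟨b, _, rfl⟩ := hw
  exact suVol_of1 _

theorem top_real {n M : ℕ} {B : En n →L[ℝ] En M} {P : En M →L[ℝ] En M}
    (hP : B.comp (adjoint B) = P) {α : FA M} (hα : α.IsDeg n)
    (hr : ∀ I, (starRingEnd ℂ) (α.co I) = α.co I) :
    ∃ c : ℝ, FAMap P α = (c : ℂ) • FAMap (adjoint B) (mon Finset.univ) := by
  have h1 : FAMap B α = (FAMap B α).co Finset.univ • mon Finset.univ :=
    isDeg_top (isDeg_FAMap hα B)
  obtain ⟨c, hc⟩ := Complex.conj_eq_iff_real.1 (FAMap_real B hr Finset.univ)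
  refine ⟨c, ?_⟩
  rw [← hP, FAMap_comp, h1, FAMap_smul, hc]

private theorem suVol_ofVec {n M : ℕ} (B : En n →L[ℝ] En M) :
    ofVec (fun i => B (bv i)) = B := by
  ext1 x
  conv_rhs => rw [show x = ∑ a, x a • bv a from epsv_sum_ee x, map_sum]
  change ∑ i, x i • B (bv i) = _
  exact Finset.sum_congr rfl fun a _ => by rw [map_smul]

private theorem suVol_smooth {M : ℕ} {w : En M → FA M} (hw : ContDiff ℝ ∞ w) {x : En M}
    (hx : w x ≠ 0) : ContDiffAt ℝ ∞ (fun y => ((‖w y‖⁻¹ : ℝ) : ℂ) • w y) x := by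
  have h1 : ContDiffAt ℝ ∞ (fun y => ‖w y‖) x := hw.contDiffAt.norm ℂ hx
  have h2 : ContDiffAt ℝ ∞ (fun y => ‖w y‖⁻¹) x := h1.inv (norm_ne_zero_iff.2 hx)
  have h3 : ContDiffAt ℝ ∞ (fun y => ((‖w y‖⁻¹ : ℝ) : ℂ)) x :=
    Complex.ofRealCLM.contDiff.contDiffAt.comp x h2
  exact h3.smul hw.contDiffAt

/-- Existence of the volume form. -/
theorem IF_vol (n M : ℕ) (hn : 0 < n) (G : Geo n M) (α : En M → FA M) (hα : ContDiff ℝ ∞ α)
    (hr : ∀ x ∈ G.carrier, ∀ I, (starRingEnd ℂ) ((α x).co I) = (α x).co I)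
    (hd : ∀ x ∈ G.carrier, (α x).IsDeg n) (h0 : ∀ x ∈ G.carrier, FAMap (G.P x) (α x) ≠ 0) :
    ∃ V : OrGeo n M, V.toGeo = G ∧
      ∀ x ∈ G.carrier, ∃ c : ℝ, 0 < c ∧ FAMap (G.P x) (α x) = (c : ℂ) • V.vol x := by
  set w : En M → FA M := fun x => FAMap (G.P x) (α x) with hwdef
  have hw : ContDiff ℝ ∞ w := contDiff_iff_contDiffAt.2 fun x =>
    contDiffAt_FAMap G.smoothP.contDiffAt hα.contDiffAt
  obtain ⟨vol, hvs, hv⟩ := exists_smooth_extension (G.compact.isClosed)
    (fun y => ((‖w y‖⁻¹ : ℝ) : ℂ) • w y) (fun x hx => by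
      refine ⟨{y | w y ≠ 0}, ?_, fun y => ((‖w y‖⁻¹ : ℝ) : ℂ) • w y, ?_, fun _ _ => rfl⟩
      · exact (isOpen_ne_fun hw.continuous continuous_const).mem_nhds (h0 x hx)
      · intro y hy
        exact (suVol_smooth hw hy).contDiffWithinAt)
  have key : ∀ x ∈ G.carrier, ∃ v : Fin n → En M, Orthonormal ℝ v ∧ (∀ i, G.P x (v i) = v i) ∧
      vol x = (List.ofFn fun i => of1 (v i)).prod := by
    intro x hx
    obtain ⟨B, hB1, hB2⟩ := G.exists_frame hx
    obtain ⟨c, hc⟩ := top_real hB2 (hd x hx) (hr x hx)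
    set e : FA M := FAMap (adjoint B) (mon Finset.univ) with he
    have hwx : w x = (c : ℂ) • e := hc
    have hc0 : c ≠ 0 := by
      rintro rfl
      apply h0 x hx
      rw [hc]; simp
    have hee : inner ℂ e e = (1 : ℂ) := by
      rw [he, inner_FAMap_adjoint _ hB1, inner_mon, if_pos rfl]
    have hne : ‖e‖ = 1 := by
      have h1 : ((‖e‖ : ℝ) : ℂ) ^ 2 = 1 := by
        rw [← hee]
        exact (inner_self_eq_norm_sq_to_K (𝕜 := ℂ) e).symm
      have h2 : ‖e‖ ^ 2 = 1 := by exact_mod_cast h1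
      nlinarith [norm_nonneg e, sq_nonneg (‖e‖ - 1)]
    have hnw : ‖w x‖ = |c| := by
      rw [hwx, norm_smul, hne, mul_one, Complex.norm_real, Real.norm_eq_abs]
    have hvx : vol x = ((|c|⁻¹ * c : ℝ) : ℂ) • e := by
      rw [hv x hx, hnw, hwx, smul_smul, Complex.ofReal_mul]
    -- the frame
    set v : Fin n → En M := fun i => B (bv i) with hvdef
    have hinner : ∀ i j, inner ℝ (v i) (v j) = if i = j then (1 : ℝ) else 0 := by
      intro i j
      have h1 : adjoint B (B (bv j)) = bv j := by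
        have := congrArg (fun f : En n →L[ℝ] En n => f (bv j)) hB1
        exact this
      rw [hvdef]
      simp only
      rw [← ContinuousLinearMap.adjoint_inner_right, h1]
      simp [bv, EuclideanSpace.inner_single_left]
    have hPv : ∀ i, G.P x (v i) = v i := by
      intro i
      have h1 : adjoint B (B (bv i)) = bv i := by
        have := congrArg (fun f : En n →L[ℝ] En n => f (bv i)) hB1
        exact this
      rw [← hB2, hvdef]
      simp only [ContinuousLinearMap.comp_apply]
      rw [h1]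
    have hprod : (List.ofFn fun i => of1 (v i)).prod = e := by
      rw [prod_of1_eq, suVol_ofVec]
    rcases lt_or_gt_of_ne hc0 with hneg | hpos
    · obtain ⟨k, rfl⟩ := Nat.exists_eq_succ_of_ne_zero hn.ne'
      refine ⟨fun i => (if i = 0 then (-1 : ℝ) else 1) • v i, ?_, ?_, ?_⟩
      · rw [orthonormal_iff_ite]
        intro i j
        rw [real_inner_smul_left, real_inner_smul_right, hinner]
        by_cases hij : i = j
        · subst hij
          by_cases hi : i = 0 <;> simp [hi]
        · simp [hij]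
      · intro i
        rw [map_smul, hPv]
      · rw [hvx]
        have h1 : |c|⁻¹ * c = -1 := by
          rw [abs_of_neg hneg]
          field_simp
        rw [h1, ← hprod, List.ofFn_succ, List.ofFn_succ, List.prod_cons, List.prod_cons]
        rw [of1_smul]
        simp only [if_true, Fin.succ_ne_zero, if_false, one_smul]
        rw [smul_mul_assoc]
    · refine ⟨v, orthonormal_iff_ite.2 hinner, hPv, ?_⟩
      rw [hvx, hprod, abs_of_pos hpos, inv_mul_cancel₀ hc0, Complex.ofReal_one, one_smul]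
  refine ⟨{ toGeo := G, vol := vol, smooth_vol := hvs, vol_spec := key }, rfl, ?_⟩
  intro x hx
  refine ⟨‖w x‖, norm_pos_iff.2 (h0 x hx), ?_⟩
  change w x = _ • vol x
  rw [hv x hx, smul_smul, ← Complex.ofReal_mul, mul_inv_cancel₀ (norm_ne_zero_iff.2 (h0 x hx)),
    Complex.ofReal_one, one_smul]

end Pool.Agent.EXO
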