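import Pool.Agent.EXO.SurIFT

/-!
# EXO / SurCollar: the normal collar of a compact regular level set
-/

set_option autoImplicit false
set_option maxSynthPendingDepth 3

namespace Pool.Agent.EXO

open Set Filter Topology
open scoped ContDiff Gradient

/-- The normal collar of a compact regular level set: retraction `rho` and height `tau`. -/
theorem sur_collar {E : Type*} [NormedAddCommGroup E] [InnerProductSpace ℝ E]
    [FiniteDimensional ℝ E] [CompleteSpace E] {G : E → ℝ} (hG : ContDiff ℝ ∞ G)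
    (hc : IsCompact {x | G x = 0}) (hreg : ∀ x, G x = 0 → fderiv ℝ G x ≠ 0) :
    ∃ eps : ℝ, 0 < eps ∧ ∃ U : Set E, IsOpen U ∧ ∃ (rho : E → E) (tau : E → ℝ),
      ContDiffOn ℝ ∞ rho U ∧ ContDiffOn ℝ ∞ tau U ∧
      (∀ x ∈ U, G (rho x) = 0 ∧ |tau x| < 1 ∧ rho x + (eps * tau x) • ∇ G (rho x) = x) ∧
      (∀ q : E, ∀ t : ℝ, G q = 0 → |t| < 1 → q + (eps * t) • ∇ G q ∈ U ∧
        rho (q + (eps * t) • ∇ G q) = q ∧ tau (q + (eps * t) • ∇ G q) = t) := by
  have hg : ContDiff ℝ ∞ (fun x => ∇ G x) := by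
    unfold gradient
    exact (InnerProductSpace.toDual ℝ E).symm.contDiff.comp (hG.fderiv_right (by simp))
  have hgin : ∀ x v, inner ℝ (∇ G x) v = fderiv ℝ G x v := by
    intro x v
    unfold gradient
    exact InnerProductSpace.toDual_symm_apply
  obtain ⟨H, hH⟩ : ∃ H : E × ℝ → E × ℝ, H = fun w => (w.1 + w.2 • ∇ G w.1, G w.1) := ⟨_, rfl⟩
  have hHs : ContDiff ℝ ∞ H := by
    rw [hH]
    exact (contDiff_fst.add (contDiff_snd.smul (hg.comp contDiff_fst))).prodMk
      (hG.comp contDiff_fst)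
  obtain ⟨K, hKdef⟩ : ∃ K : Set (E × ℝ), K = {x | G x = 0} ×ˢ ({0} : Set ℝ) := ⟨_, rfl⟩
  have hK : IsCompact K := by
    rw [hKdef]
    exact hc.prod isCompact_singleton
  have hH0 : ∀ q, G q = 0 → H (q, 0) = (q, 0) := by
    intro q hq
    rw [hH]
    simp [hq]
  have hmemK : ∀ w ∈ K, G w.1 = 0 ∧ w.2 = 0 := by
    intro w hw
    rw [hKdef] at hw
    exact ⟨hw.1, hw.2⟩
  have hinj : InjOn H K := by
    rintro ⟨q, t⟩ hw ⟨q', t'⟩ hw' h
    obtain ⟨h1, h2⟩ := hmemK _ hw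
    obtain ⟨h3, h4⟩ := hmemK _ hw'
    simp only at h1 h2 h3 h4
    subst h2
    subst h4
    rwa [hH0 q h1, hH0 q' h3] at h
  have hd : ∀ w ∈ K, ∃ f' : (E × ℝ) ≃L[ℝ] (E × ℝ), HasFDerivAt H (f' : (E × ℝ) →L[ℝ] (E × ℝ)) w := by
    rintro ⟨q, t⟩ hw
    obtain ⟨h1, h2⟩ := hmemK _ hw
    simp only at h1 h2
    subst h2
    have hdiff : DifferentiableAt ℝ H (q, 0) := hHs.differentiable (by simp) _
    have hder : ∀ v s, fderiv ℝ H (q, 0) (v, s) = (v + s • ∇ G q, fderiv ℝ G q v) := by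
      intro v s
      have e1 : HasFDerivAt (fun w : E × ℝ => G w.1)
          ((fderiv ℝ G q).comp (ContinuousLinearMap.fst ℝ E ℝ)) (q, (0 : ℝ)) := by
        have : HasFDerivAt G (fderiv ℝ G q) ((q, (0 : ℝ)) : E × ℝ).1 :=
          (hG.differentiable (by simp) q).hasFDerivAt
        exact this.comp (q, (0 : ℝ)) hasFDerivAt_fst
      have e2 : HasFDerivAt (fun w : E × ℝ => ∇ G w.1)
          ((fderiv ℝ (fun x => ∇ G x) q).comp (ContinuousLinearMap.fst ℝ E ℝ)) (q, (0 : ℝ)) := by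
        have : HasFDerivAt (fun x => ∇ G x) (fderiv ℝ (fun x => ∇ G x) q)
            ((q, (0 : ℝ)) : E × ℝ).1 := (hg.differentiable (by simp) q).hasFDerivAt
        exact this.comp (q, (0 : ℝ)) hasFDerivAt_fst
      have f1 : HasFDerivAt (fun w : E × ℝ => w.1) (ContinuousLinearMap.fst ℝ E ℝ)
          (q, (0 : ℝ)) := hasFDerivAt_fst
      have f2 : HasFDerivAt (fun w : E × ℝ => w.2) (ContinuousLinearMap.snd ℝ E ℝ)
          (q, (0 : ℝ)) := hasFDerivAt_snd
      have e3 := f1.add (f2.smul e2)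
      have e4 := e3.prodMk e1
      have e7 : H = fun x => (((fun w : E × ℝ => w.1) + (fun w : E × ℝ => w.2) •
          fun w : E × ℝ => ∇ G w.1) x, G x.1) := by
        rw [hH]
        rfl
      rw [e7, e4.fderiv]
      simp
    have hinjd : Function.Injective (fderiv ℝ H (q, 0)) := by
      rw [injective_iff_map_eq_zero]
      rintro ⟨v, s⟩ h
      rw [hder] at h
      have h3 : v + s • ∇ G q = 0 := congrArg Prod.fst h
      have h4 : fderiv ℝ G q v = 0 := congrArg Prod.snd h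
      have hne : ∇ G q ≠ 0 := by
        intro h5
        apply hreg q h1
        ext u
        rw [← hgin, h5, inner_zero_left]
        simp
      have h5 : s * ‖∇ G q‖ ^ 2 = 0 := by
        have h6 : inner ℝ (∇ G q) (v + s • ∇ G q) = 0 := by rw [h3, inner_zero_right]
        rw [inner_add_right, hgin, h4, inner_smul_right, real_inner_self_eq_norm_sq, zero_add] at h6
        exact h6
      have h6 : s = 0 := by
        rcases mul_eq_zero.1 h5 with h7 | h7
        · exact h7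
        · exact absurd (norm_eq_zero.1 (pow_eq_zero_iff (two_ne_zero)|>.1 h7)) hne
      subst h6
      rw [zero_smul, add_zero] at h3
      rw [h3]
      rfl
    refine ⟨(LinearEquiv.ofInjectiveEndo ((fderiv ℝ H (q, 0) : (E × ℝ) →L[ℝ] (E × ℝ)) :
      (E × ℝ) →ₗ[ℝ] (E × ℝ)) hinjd).toContinuousLinearEquiv, ?_⟩
    have h5 : (((LinearEquiv.ofInjectiveEndo ((fderiv ℝ H (q, 0) : (E × ℝ) →L[ℝ] (E × ℝ)) :
      (E × ℝ) →ₗ[ℝ] (E × ℝ)) hinjd).toContinuousLinearEquiv : (E × ℝ) ≃L[ℝ] (E × ℝ)) :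
        (E × ℝ) →L[ℝ] (E × ℝ)) = fderiv ℝ H (q, 0) := by
      ext w <;> rfl
    rw [h5]
    exact hdiff.hasFDerivAt
  obtain ⟨O, hO1, hO2, hO3, hO4, g, hgs, hgl⟩ := sur_ift hHs hK hinj hd
  obtain ⟨u, v, hu, hv, hSu, h0v, huv⟩ := generalized_tube_lemma hc isCompact_singleton hO1
    (by rw [← hKdef]; exact hO2)
  obtain ⟨eps, heps, hball⟩ := Metric.isOpen_iff.1 hv 0 (h0v rfl)
  have hOt : ∀ q t, G q = 0 → |t| < eps → (q, t) ∈ O := by
    intro q t hq ht
    refine huv ⟨hSu hq, hball ?_⟩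
    rwa [Metric.mem_ball, dist_zero_right, Real.norm_eq_abs]
  obtain ⟨O', hO'⟩ : ∃ O' : Set (E × ℝ), O' = O ∩ {w | |w.2| < eps} := ⟨_, rfl⟩
  have hO'o : IsOpen O' := by
    rw [hO']
    exact hO1.inter (isOpen_lt (continuous_abs.comp continuous_snd) continuous_const)
  have hO's : O' ⊆ O := by rw [hO']; exact inter_subset_left
  have hHO' : IsOpen (H '' O') := hO4 O' hO's hO'o
  have hjc : Continuous (fun x : E => (x, (0 : ℝ))) := by fun_prop
  have hkey : ∀ q t, G q = 0 → |t| < 1 → (q, eps * t) ∈ O' ∧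
      H (q, eps * t) = (q + (eps * t) • ∇ G q, 0) := by
    intro q t hq ht
    have h1 : |eps * t| < eps := by
      rw [abs_mul, abs_of_pos heps]
      nlinarith
    refine ⟨?_, ?_⟩
    · rw [hO']
      exact ⟨hOt q _ hq h1, h1⟩
    · rw [hH]
      simp [hq]
  refine ⟨eps, heps, {x | (x, (0 : ℝ)) ∈ H '' O'}, hHO'.preimage hjc, fun x => (g (x, 0)).1,
    fun x => (g (x, 0)).2 / eps, ?_, ?_, ?_, ?_⟩
  · have h1 : ContDiffOn ℝ ∞ (fun x : E => g (x, (0 : ℝ))) {x | (x, (0 : ℝ)) ∈ H '' O'} := by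
      refine hgs.comp (contDiff_id.prodMk contDiff_const).contDiffOn ?_
      intro x hx
      exact image_mono hO's hx
    exact contDiff_fst.comp_contDiffOn h1
  · have h1 : ContDiffOn ℝ ∞ (fun x : E => g (x, (0 : ℝ))) {x | (x, (0 : ℝ)) ∈ H '' O'} := by
      refine hgs.comp (contDiff_id.prodMk contDiff_const).contDiffOn ?_
      intro x hx
      exact image_mono hO's hx
    exact (contDiff_snd.comp_contDiffOn h1).div_const eps
  · rintro x ⟨⟨q, t⟩, hw, hx⟩
    have h1 : g (x, 0) = (q, t) := by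
      rw [← hx]
      exact hgl _ (hO's hw)
    have h2 := hx
    rw [hH] at h2
    have h3 : q + t • ∇ G q = x := congrArg Prod.fst h2
    have h4 : G q = 0 := congrArg Prod.snd h2
    have h5 : |t| < eps := by
      rw [hO'] at hw
      exact hw.2
    simp only [h1]
    refine ⟨h4, ?_, ?_⟩
    · rw [abs_div, abs_of_pos heps, div_lt_one heps]
      exact h5
    · rw [mul_div_cancel₀ _ heps.ne']
      exact h3
  · intro q t hq ht
    obtain ⟨h1, h2⟩ := hkey q t hq ht
    have h3 : g (q + (eps * t) • ∇ G q, 0) = (q, eps * t) := by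
      rw [← h2]
      exact hgl _ (hO's h1)
    refine ⟨⟨_, h1, h2⟩, ?_, ?_⟩
    · simp only [h3]
    · simp only [h3]
      field_simp

end Pool.Agent.EXO
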