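import Mathlib
import Pool.Agent.EXO.DefC

/-!
# EXO / SurSgD: the surface of genus two in `ℝ³` (definitions)

`Sg = {(x, y, z) | srH z = srF x y}`.  `srH` vanishes exactly on `[-1, 1]`; `0 ≤ srF x y` is the disc of radius `3` without two open
discs of radius `1/2`; over its boundary circles `Sg` is a vertical cylinder.
-/

set_option autoImplicit false
set_option maxSynthPendingDepth 3

open Set
open scoped ContDiff

namespace Pool.Agent.EXO

noncomputable def srH (z : ℝ) : ℝ := z ^ 2 * stp (z ^ 2 - 1)

noncomputable def srF (x y : ℝ) : ℝ :=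
  (9 - x ^ 2 - y ^ 2) * ((x - 1) ^ 2 + y ^ 2 - 1 / 4) * ((x + 1) ^ 2 + y ^ 2 - 1 / 4)

/-- The defining function of the surface. -/
noncomputable def srG (p : En 3) : ℝ := srH (p 2) - srF (p 0) (p 1)

/-- The surface of genus two. -/
def Sg : Set (En 3) := {p | srG p = 0}

/-- The number `k = 0, 1, 2` stands for the outer circle, the circle around `(1, 0)`, the circle around
`(-1, 0)`: the left side of its equation. -/
noncomputable def srC (k : Fin 3) (x y : ℝ) : ℝ :=
  if k = 0 then 9 - x ^ 2 - y ^ 2 else if k = 1 then (x - 1) ^ 2 + y ^ 2 - 1 / 4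
    else (x + 1) ^ 2 + y ^ 2 - 1 / 4

end Pool.Agent.EXO
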