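import Mathlib
import Pool.Agent.EXO.SurSgD

/-!
# EXO / SurSgA: elementary properties of the functions `srH`, `srF`
-/

set_option autoImplicit false
set_option maxSynthPendingDepth 3

open Set
open scoped ContDiff

namespace Pool.Agent.EXO

private lemma sq_gt_of_abs {z : ℝ} (h : 1 < |z|) : 1 < z ^ 2 := by
  have h1 : (1 : ℝ) < |z| ^ 2 := by nlinarith
  rwa [sq_abs] at h1

private lemma sq_le_of_abs {z : ℝ} (h : |z| ≤ 1) : z ^ 2 ≤ 1 := by
  have h0 : 0 ≤ |z| := abs_nonneg z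
  have h1 : |z| ^ 2 ≤ (1 : ℝ) := by nlinarith
  rwa [sq_abs] at h1

theorem srH_zero {z : ℝ} (h : |z| ≤ 1) : srH z = 0 := by
  unfold srH stp
  rw [Real.smoothTransition.zero_of_nonpos (by linarith [sq_le_of_abs h]), mul_zero]

theorem srH_pos {z : ℝ} (h : 1 < |z|) : 0 < srH z := by
  have h1 := sq_gt_of_abs h
  unfold srH stp
  exact mul_pos (by linarith) (Real.smoothTransition.pos_of_pos (by linarith))

theorem srH_nonneg (z : ℝ) : 0 ≤ srH z := by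
  rcases le_or_gt |z| 1 with h | h
  · rw [srH_zero h]
  · exact (srH_pos h).le

theorem srH_zero_iff (z : ℝ) : srH z = 0 ↔ |z| ≤ 1 := by
  refine ⟨fun h => ?_, srH_zero⟩
  by_contra hc
  rw [not_le] at hc
  exact (srH_pos hc).ne' h

theorem srH_sq {z : ℝ} (h : 2 ≤ z ^ 2) : srH z = z ^ 2 := by
  unfold srH stp
  rw [Real.smoothTransition.one_of_one_le (by linarith), mul_one]

theorem srH_neg (z : ℝ) : srH (-z) = srH z := by
  unfold srH
  rw [neg_sq]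

theorem srH_mono {a b : ℝ} (ha : 1 ≤ a) (hab : a < b) : srH a < srH b := by
  have h1 : a ^ 2 < b ^ 2 := by nlinarith
  have h2 : stp (a ^ 2 - 1) ≤ stp (b ^ 2 - 1) :=
    Real.smoothTransition.monotone (by linarith)
  have h3 : 0 < stp (b ^ 2 - 1) := Real.smoothTransition.pos_of_pos (by nlinarith)
  unfold srH
  calc a ^ 2 * stp (a ^ 2 - 1) ≤ a ^ 2 * stp (b ^ 2 - 1) :=
        mul_le_mul_of_nonneg_left h2 (sq_nonneg a)
    _ < b ^ 2 * stp (b ^ 2 - 1) := mul_lt_mul_of_pos_right h1 h3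

private lemma contDiff_stp : ContDiff ℝ ∞ stp := Real.smoothTransition.contDiff

theorem contDiff_srH : ContDiff ℝ ∞ srH := by
  have h1 : ContDiff ℝ ∞ (fun z : ℝ => z ^ 2) := by fun_prop
  have h2 : ContDiff ℝ ∞ (fun z : ℝ => stp (z ^ 2 - 1)) :=
    contDiff_stp.comp (by fun_prop)
  exact h1.mul h2

theorem srH_deriv_ne {z : ℝ} (h : 1 < |z|) : deriv srH z ≠ 0 := by
  have h1 := sq_gt_of_abs h
  have hd : HasDerivAt stp (deriv stp (z ^ 2 - 1)) (z ^ 2 - 1) :=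
    ((contDiff_stp.differentiable (by simp)) (z ^ 2 - 1)).hasDerivAt
  have hq : HasDerivAt (fun z : ℝ => z ^ 2 - 1) (2 * z) z := by
    have := (hasDerivAt_pow 2 z).sub_const 1
    simpa using this
  have hc : HasDerivAt (fun z : ℝ => stp (z ^ 2 - 1)) (deriv stp (z ^ 2 - 1) * (2 * z)) z :=
    HasDerivAt.comp z hd hq
  have hq2 : HasDerivAt (fun z : ℝ => z ^ 2) (2 * z) z := by
    have := hasDerivAt_pow 2 z
    simpa using this
  have hm := hq2.mul hc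
  have he : deriv srH z = 2 * z * stp (z ^ 2 - 1) + z ^ 2 * (deriv stp (z ^ 2 - 1) * (2 * z)) :=
    hm.deriv
  have hs : 0 < stp (z ^ 2 - 1) := Real.smoothTransition.pos_of_pos (by linarith)
  have hn : 0 ≤ deriv stp (z ^ 2 - 1) := by
    have : Monotone stp := Real.smoothTransition.monotone
    exact this.deriv_nonneg
  have hz : z ≠ 0 := by
    rintro rfl
    simp at h
    linarith
  have e : deriv srH z = 2 * z * (stp (z ^ 2 - 1) + z ^ 2 * deriv stp (z ^ 2 - 1)) := by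
    rw [he]; ring
  rw [e]
  have hpos : 0 < stp (z ^ 2 - 1) + z ^ 2 * deriv stp (z ^ 2 - 1) := by positivity
  exact mul_ne_zero (mul_ne_zero two_ne_zero hz) hpos.ne'

theorem srF_nonneg_iff (x y : ℝ) : 0 ≤ srF x y ↔ x ^ 2 + y ^ 2 ≤ 9 ∧
    1 / 4 ≤ (x - 1) ^ 2 + y ^ 2 ∧ 1 / 4 ≤ (x + 1) ^ 2 + y ^ 2 := by
  unfold srF
  constructor
  · intro h
    have bA : (x - 1) ^ 2 + y ^ 2 - 1 / 4 < 0 → 1 / 2 ≤ x ∧ x ≤ 3 / 2 ∧ x ^ 2 + y ^ 2 < 9 := by
      intro hb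
      have i1 : x ≤ 3 / 2 := by nlinarith [sq_nonneg y, sq_nonneg (x - 3 / 2)]
      have i2 : 1 / 2 ≤ x := by nlinarith [sq_nonneg y, sq_nonneg (x - 1 / 2)]
      exact ⟨i2, i1, by nlinarith⟩
    have cA : (x + 1) ^ 2 + y ^ 2 - 1 / 4 < 0 → x ≤ -1 / 2 ∧ -3 / 2 ≤ x ∧ x ^ 2 + y ^ 2 < 9 := by
      intro hb
      have i1 : -3 / 2 ≤ x := by nlinarith [sq_nonneg y, sq_nonneg (x + 3 / 2)]
      have i2 : x ≤ -1 / 2 := by nlinarith [sq_nonneg y, sq_nonneg (x + 1 / 2)]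
      exact ⟨i2, i1, by nlinarith⟩
    have hB : 1 / 4 ≤ (x - 1) ^ 2 + y ^ 2 := by
      by_contra hb
      rw [not_le] at hb
      have hb' : (x - 1) ^ 2 + y ^ 2 - 1 / 4 < 0 := by linarith
      obtain ⟨i1, i2, i3⟩ := bA hb'
      have hC : 0 < (x + 1) ^ 2 + y ^ 2 - 1 / 4 := by nlinarith [sq_nonneg y]
      have hA : 0 < 9 - x ^ 2 - y ^ 2 := by linarith
      have := mul_neg_of_neg_of_pos (mul_neg_of_pos_of_neg hA hb') hC
      linarith
    have hC : 1 / 4 ≤ (x + 1) ^ 2 + y ^ 2 := by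
      by_contra hb
      rw [not_le] at hb
      have hb' : (x + 1) ^ 2 + y ^ 2 - 1 / 4 < 0 := by linarith
      obtain ⟨i1, i2, i3⟩ := cA hb'
      have hB' : 0 < (x - 1) ^ 2 + y ^ 2 - 1 / 4 := by nlinarith [sq_nonneg y]
      have hA : 0 < 9 - x ^ 2 - y ^ 2 := by linarith
      have := mul_neg_of_pos_of_neg (mul_pos hA hB') hb'
      linarith
    refine ⟨?_, hB, hC⟩
    by_contra hA
    rw [not_le] at hA
    have hA' : 9 - x ^ 2 - y ^ 2 < 0 := by linarith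
    have hB' : 0 < (x - 1) ^ 2 + y ^ 2 - 1 / 4 := by
      rcases lt_or_eq_of_le hB with hb | hb
      · linarith
      · exfalso
        have i1 : x ≤ 3 / 2 := by nlinarith [sq_nonneg y, sq_nonneg (x - 3 / 2)]
        nlinarith
    have hC' : 0 < (x + 1) ^ 2 + y ^ 2 - 1 / 4 := by
      rcases lt_or_eq_of_le hC with hb | hb
      · linarith
      · exfalso
        have i1 : -3 / 2 ≤ x := by nlinarith [sq_nonneg y, sq_nonneg (x + 3 / 2)]
        nlinarith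
    have := mul_neg_of_neg_of_pos (mul_neg_of_neg_of_pos hA' hB') hC'
    linarith
  · rintro ⟨h1, h2, h3⟩
    exact mul_nonneg (mul_nonneg (by linarith) (by linarith)) (by linarith)

theorem srF_zero_iff (x y : ℝ) : srF x y = 0 ↔ x ^ 2 + y ^ 2 = 9 ∨
    (x - 1) ^ 2 + y ^ 2 = 1 / 4 ∨ (x + 1) ^ 2 + y ^ 2 = 1 / 4 := by
  unfold srF
  rw [mul_eq_zero, mul_eq_zero]
  constructor
  · rintro ((h | h) | h)
    · left; linarith
    · right; left; linarith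
    · right; right; linarith
  · rintro (h | h | h)
    · left; left; linarith
    · left; right; linarith
    · right; linarith

theorem srF_le {x y : ℝ} (h : 0 ≤ srF x y) : srF x y ≤ 9 * 17 * 17 := by
  obtain ⟨h1, h2, h3⟩ := (srF_nonneg_iff x y).1 h
  have hx1 : x ≤ 3 := by nlinarith [sq_nonneg y]
  have hx2 : -3 ≤ x := by nlinarith [sq_nonneg y]
  have hA : 0 ≤ 9 - x ^ 2 - y ^ 2 := by linarith
  have hA' : 9 - x ^ 2 - y ^ 2 ≤ 9 := by nlinarith [sq_nonneg y, sq_nonneg x]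
  have hB : 0 ≤ (x - 1) ^ 2 + y ^ 2 - 1 / 4 := by linarith
  have hB' : (x - 1) ^ 2 + y ^ 2 - 1 / 4 ≤ 17 := by nlinarith
  have hC : 0 ≤ (x + 1) ^ 2 + y ^ 2 - 1 / 4 := by linarith
  have hC' : (x + 1) ^ 2 + y ^ 2 - 1 / 4 ≤ 17 := by nlinarith
  unfold srF
  exact mul_le_mul (mul_le_mul hA' hB' hB (by norm_num)) hC' hC (by norm_num)

theorem contDiff_srG : ContDiff ℝ ∞ srG := by
  have h0 : ∀ i : Fin 3, ContDiff ℝ ∞ (fun p : En 3 => p i) := fun i =>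
    (EuclideanSpace.proj (𝕜 := ℝ) i).contDiff
  have h1 : ContDiff ℝ ∞ (fun p : En 3 => srH (p 2)) := contDiff_srH.comp (h0 2)
  have h2 : ContDiff ℝ ∞ (fun p : En 3 => srF (p 0) (p 1)) := by
    unfold srF
    have a := h0 0
    have b := h0 1
    fun_prop
  exact h1.sub h2

private lemma Sg_eq {p : En 3} (hp : p ∈ Sg) : srH (p 2) = srF (p 0) (p 1) := by
  have : srG p = 0 := hp
  unfold srG at this
  linarith

/-- The points of the surface: `(x, y)` lies in the pair of pants. -/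
theorem Sg_pants {p : En 3} (hp : p ∈ Sg) : (p 0) ^ 2 + (p 1) ^ 2 ≤ 9 ∧
    1 / 4 ≤ (p 0 - 1) ^ 2 + (p 1) ^ 2 ∧ 1 / 4 ≤ (p 0 + 1) ^ 2 + (p 1) ^ 2 := by
  have h := Sg_eq hp
  exact (srF_nonneg_iff _ _).1 (h ▸ srH_nonneg _)

/-- The points of the surface with `|z| ≤ 1` lie over the three circles. -/
theorem Sg_band {p : En 3} (hp : p ∈ Sg) (h : |p 2| ≤ 1) : (p 0) ^ 2 + (p 1) ^ 2 = 9 ∨
    (p 0 - 1) ^ 2 + (p 1) ^ 2 = 1 / 4 ∨ (p 0 + 1) ^ 2 + (p 1) ^ 2 = 1 / 4 := by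
  have h1 := Sg_eq hp
  rw [srH_zero h] at h1
  exact (srF_zero_iff _ _).1 h1.symm

theorem Sg_of_circle {p : En 3} (h : |p 2| ≤ 1) (hc : (p 0) ^ 2 + (p 1) ^ 2 = 9 ∨
    (p 0 - 1) ^ 2 + (p 1) ^ 2 = 1 / 4 ∨ (p 0 + 1) ^ 2 + (p 1) ^ 2 = 1 / 4) : p ∈ Sg := by
  show srG p = 0
  unfold srG
  rw [srH_zero h, (srF_zero_iff _ _).2 hc, sub_self]

end Pool.Agent.EXO
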