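import Mathlib
import Pool.Agent.EXO.SurSgA
import Pool.Agent.EXO.SurCollar

/-!
# EXO / SurSgB: the surface is compact and regular; its collar

PROOFS.
* `Sg_compact`: closed (`contDiff_srG.continuous`) and bounded: `p 0 ^2 + p 1 ^2 ≤ 9` (`Sg_pants`) and `srH (p 2) = srF ≤ 9*17*17`, so
  `(p 2)^2 ≤ max 2 (9*17*17)` (`srH_sq`); `Metric.isCompact_of_isClosed_isBounded`.
* `Sg_regular`: partial derivatives: `fderiv srG p (bv 2) = deriv srH (p 2)`; if `1 < |p 2|` it is nonzero.  If `|p 2| ≤ 1` the point lies on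
  exactly one of the circles, e.g. `A = 9 - x^2 - y^2 = 0`, and then `(x, y)` is such that the other factors `B, Cc` are positive
  (`srF_nonneg_iff`, and they are nonzero because the circles are disjoint), the derivative of `srF` in the direction `(x, y)` is
  `B Cc * (-2x^2 - 2y^2) ≠ 0`; for the circle `B = 0` use the direction `(x - 1, y)`: `A Cc * 2((x-1)^2+y^2) = A Cc / 2 ≠ 0`; similarly for `Cc`.
  (`fderiv srG p v` for `v = (v 0, v 1, 0)` can be computed by `HasFDerivAt`/`HasDerivAt` of `t ↦ srG (p + t v)`.)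
* `exists_SCol`: `sur_collar` for `G = srG` gives `eps`, `U`, `rho`, `tau`; `c q t = q + (eps * t) • ∇ srG q` (smooth: `gradient` of a smooth
  function), `lam` = a bound of `U`: `U ⊆ {c q t | q ∈ Sg, |t| ≤ 1}` which is compact (image of `Sg ×ˢ Icc (-1) 1`), take a strict
  bound of the norm, also `> 0`.
-/

set_option autoImplicit false
set_option maxSynthPendingDepth 3

open Set
open scoped ContDiff

namespace Pool.Agent.EXO

/-- A collar of the surface `S` in `ℝ³`: a diffeomorphism `c` of `S × (-1, 1)` onto the open set `U`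
with the inverse `(rho, tau)`. -/
structure SCol (S : Set (En 3)) where
  c : En 3 → ℝ → En 3
  U : Set (En 3)
  rho : En 3 → En 3
  tau : En 3 → ℝ
  lam : ℝ
  smooth_c : ContDiff ℝ ∞ fun p : En 3 × ℝ => c p.1 p.2
  openU : IsOpen U
  smooth_rho : ContDiffOn ℝ ∞ rho U
  smooth_tau : ContDiffOn ℝ ∞ tau U
  lam_pos : 0 < lam
  c_zero : ∀ q ∈ S, c q 0 = q
  c_mem : ∀ q ∈ S, ∀ t ∈ Ioo (-1 : ℝ) 1, c q t ∈ U ∧ rho (c q t) = q ∧ tau (c q t) = t
  mem_c : ∀ a ∈ U, rho a ∈ S ∧ tau a ∈ Ioo (-1 : ℝ) 1 ∧ c (rho a) (tau a) = a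
  bdd : ∀ a ∈ U, ‖a‖ < lam

theorem Sg_compact : IsCompact Sg := by
  refine Metric.isCompact_of_isClosed_isBounded
    (isClosed_eq contDiff_srG.continuous continuous_const) ?_
  refine (Metric.isBounded_closedBall (x := (0 : En 3)) (r := 100)).subset fun p hp => ?_
  rw [mem_closedBall_zero_iff, EuclideanSpace.norm_eq, Fin.sum_univ_three]
  simp only [Real.norm_eq_abs, sq_abs]
  have h1 := (Sg_pants hp).1
  have h2 : srH (p 2) = srF (p 0) (p 1) := sub_eq_zero.1 hp
  have h3 : srF (p 0) (p 1) ≤ 9 * 17 * 17 := srF_le (by rw [← h2]; exact srH_nonneg _)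
  have h4 : (p 2) ^ 2 ≤ 9 * 17 * 17 := by
    by_cases h : 2 ≤ (p 2) ^ 2
    · rw [← srH_sq h, h2]; exact h3
    · push Not at h
      linarith
  rw [Real.sqrt_le_left (by norm_num)]
  linarith

private theorem SurSgB_line {p v : En 3} {d : ℝ}
    (h : HasDerivAt (fun t : ℝ => srG (p + t • v)) d 0) (hd : d ≠ 0) : fderiv ℝ srG p ≠ 0 := by
  intro h0
  apply hd
  have h1 : HasFDerivAt srG (fderiv ℝ srG p) (p + (0 : ℝ) • v) := by
    rw [zero_smul, add_zero]
    exact (contDiff_srG.differentiable (by simp) p).hasFDerivAt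
  have h2 : HasDerivAt (fun t : ℝ => p + t • v) v 0 := by
    have := ((hasDerivAt_id (0 : ℝ)).smul_const v).const_add p
    simpa using this
  have h3 := h1.comp_hasDerivAt (0 : ℝ) h2
  rw [h0] at h3
  exact h.unique h3

private theorem SurSgB_F (x y v w : ℝ) :
    HasDerivAt (fun t : ℝ => srF (x + t * v) (y + t * w))
      (-(2 * (x * v + y * w)) * ((x - 1) ^ 2 + y ^ 2 - 1 / 4) * ((x + 1) ^ 2 + y ^ 2 - 1 / 4) +
        (9 - x ^ 2 - y ^ 2) * (2 * ((x - 1) * v + y * w)) * ((x + 1) ^ 2 + y ^ 2 - 1 / 4) +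
        (9 - x ^ 2 - y ^ 2) * ((x - 1) ^ 2 + y ^ 2 - 1 / 4) * (2 * ((x + 1) * v + y * w))) 0 := by
  have hx : HasDerivAt (fun t : ℝ => x + t * v) v 0 := by
    simpa using ((hasDerivAt_id (0 : ℝ)).mul_const v).const_add x
  have hy : HasDerivAt (fun t : ℝ => y + t * w) w 0 := by
    simpa using ((hasDerivAt_id (0 : ℝ)).mul_const w).const_add y
  have hA := ((hx.pow 2).const_sub 9).sub (hy.pow 2)
  have hB := (((hx.sub_const 1).pow 2).add (hy.pow 2)).sub_const (1 / 4)
  have hC := (((hx.add_const 1).pow 2).add (hy.pow 2)).sub_const (1 / 4)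
  have h := (hA.mul hB).mul hC
  unfold srF
  refine h.congr_deriv ?_
  simp
  ring

private theorem SurSgB_dir (p : En 3) (v w : ℝ) (t : ℝ) :
    srG (p + t • (WithLp.toLp 2 ![v, w, 0] : En 3)) =
      srH (p 2) - srF (p 0 + t * v) (p 1 + t * w) := by
  unfold srG
  simp

theorem Sg_regular : ∀ p, srG p = 0 → fderiv ℝ srG p ≠ 0 := by
  intro p hp
  by_cases h1 : 1 < |p 2|
  · refine SurSgB_line (v := bv 2) (d := deriv srH (p 2)) ?_ (srH_deriv_ne h1)
    have h2 : HasDerivAt srH (deriv srH (p 2)) (p 2 + 0) := by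
      rw [add_zero]
      exact (contDiff_srH.differentiable (by simp) (p 2)).hasDerivAt
    have h3 : HasDerivAt (fun t : ℝ => p 2 + t) 1 0 := (hasDerivAt_id (0 : ℝ)).const_add (p 2)
    have h4 := (h2.comp (0 : ℝ) h3).sub_const (srF (p 0) (p 1))
    rw [mul_one] at h4
    refine h4.congr_of_eventuallyEq (Filter.Eventually.of_forall fun t => ?_)
    unfold srG bv
    simp
  · rw [not_lt] at h1
    have h2 : srF (p 0) (p 1) = 0 := by
      have h3 : srH (p 2) - srF (p 0) (p 1) = 0 := hp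
      rw [srH_zero h1] at h3
      linarith
    have key : ∀ v w : ℝ, (-(2 * (p 0 * v + p 1 * w)) * ((p 0 - 1) ^ 2 + (p 1) ^ 2 - 1 / 4) *
        ((p 0 + 1) ^ 2 + (p 1) ^ 2 - 1 / 4) +
        (9 - (p 0) ^ 2 - (p 1) ^ 2) * (2 * ((p 0 - 1) * v + p 1 * w)) *
          ((p 0 + 1) ^ 2 + (p 1) ^ 2 - 1 / 4) +
        (9 - (p 0) ^ 2 - (p 1) ^ 2) * ((p 0 - 1) ^ 2 + (p 1) ^ 2 - 1 / 4) *
          (2 * ((p 0 + 1) * v + p 1 * w))) ≠ 0 → fderiv ℝ srG p ≠ 0 := by
      intro v w hne
      refine SurSgB_line (v := WithLp.toLp 2 ![v, w, 0]) ?_ (neg_ne_zero.2 hne)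
      have h3 := (SurSgB_F (p 0) (p 1) v w).const_sub (srH (p 2))
      refine h3.congr_of_eventuallyEq (Filter.Eventually.of_forall fun t => ?_)
      exact SurSgB_dir p v w t
    obtain ⟨x, hx⟩ : ∃ x, x = p 0 := ⟨_, rfl⟩
    obtain ⟨y, hy⟩ : ∃ y, y = p 1 := ⟨_, rfl⟩
    rw [← hx, ← hy] at key h2
    rcases (srF_zero_iff x y).1 h2 with h | h | h
    · have hx3 : x ≤ 3 := by nlinarith [sq_nonneg y]
      have hx3' : -3 ≤ x := by nlinarith [sq_nonneg y]
      refine key x y (ne_of_lt ?_)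
      have e1 : (x - 1) ^ 2 + y ^ 2 - 1 / 4 = 39 / 4 - 2 * x := by linarith
      have e2 : (x + 1) ^ 2 + y ^ 2 - 1 / 4 = 39 / 4 + 2 * x := by linarith
      have e3 : 9 - x ^ 2 - y ^ 2 = 0 := by linarith
      have e4 : 2 * (x * x + y * y) = 18 := by linarith
      rw [e1, e2, e3, e4]
      have : 0 < (39 / 4 - 2 * x) * (39 / 4 + 2 * x) := mul_pos (by linarith) (by linarith)
      nlinarith
    · have hx1 : 1 / 2 ≤ x := by nlinarith [sq_nonneg y]
      have hx2 : x ≤ 3 / 2 := by nlinarith [sq_nonneg y]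
      refine key (x - 1) y (ne_of_gt ?_)
      have e1 : (x - 1) ^ 2 + y ^ 2 - 1 / 4 = 0 := by linarith
      have e2 : (x + 1) ^ 2 + y ^ 2 - 1 / 4 = 4 * x := by linarith
      have e3 : 9 - x ^ 2 - y ^ 2 = 39 / 4 - 2 * x := by linarith
      have e4 : 2 * ((x - 1) * (x - 1) + y * y) = 1 / 2 := by linarith
      rw [e1, e2, e3, e4]
      have : 0 < (39 / 4 - 2 * x) * (1 / 2) * (4 * x) :=
        mul_pos (mul_pos (by linarith) (by norm_num)) (by linarith)
      linarith
    · have hx1 : x ≤ -(1 / 2) := by nlinarith [sq_nonneg y]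
      have hx2 : -(3 / 2) ≤ x := by nlinarith [sq_nonneg y]
      refine key (x + 1) y (ne_of_gt ?_)
      have e1 : (x + 1) ^ 2 + y ^ 2 - 1 / 4 = 0 := by linarith
      have e2 : (x - 1) ^ 2 + y ^ 2 - 1 / 4 = -(4 * x) := by linarith
      have e3 : 9 - x ^ 2 - y ^ 2 = 39 / 4 + 2 * x := by linarith
      have e4 : 2 * ((x + 1) * (x + 1) + y * y) = 1 / 2 := by linarith
      rw [e1, e2, e3, e4]
      have : 0 < (39 / 4 + 2 * x) * (-(4 * x)) * (1 / 2) :=
        mul_pos (mul_pos (by linarith) (by linarith)) (by norm_num)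
      linarith

theorem exists_SCol : Nonempty (SCol Sg) := by
  obtain ⟨eps, heps, U, hU, rho, tau, h1, h2, h3, h4⟩ :=
    sur_collar contDiff_srG Sg_compact Sg_regular
  have hg : ContDiff ℝ ∞ (fun x => gradient srG x) := by
    unfold gradient
    exact (InnerProductSpace.toDual ℝ (En 3)).symm.contDiff.comp
      (contDiff_srG.fderiv_right (by simp))
  have hsm : ContDiff ℝ ∞ fun p : En 3 × ℝ => p.1 + (eps * p.2) • gradient srG p.1 :=
    contDiff_fst.add ((contDiff_const.mul contDiff_snd).smul (hg.comp contDiff_fst))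
  obtain ⟨C, hC⟩ := (Sg_compact.prod (isCompact_Icc (a := (-1 : ℝ)) (b := 1))).exists_bound_of_continuousOn
    hsm.continuous.continuousOn
  refine ⟨{
    c := fun q t => q + (eps * t) • gradient srG q
    U := U
    rho := rho
    tau := tau
    lam := |C| + 1
    smooth_c := hsm
    openU := hU
    smooth_rho := h1
    smooth_tau := h2
    lam_pos := by positivity
    c_zero := fun q _ => by simp
    c_mem := fun q hq t ht => h4 q t hq (abs_lt.2 ht)
    mem_c := fun a ha => ⟨(h3 a ha).1, abs_lt.1 (h3 a ha).2.1, (h3 a ha).2.2⟩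
    bdd := fun a ha => ?_ }⟩
  obtain ⟨h5, h6, h7⟩ := h3 a ha
  have h8 := hC (rho a, tau a) ⟨h5, Ioo_subset_Icc_self (abs_lt.1 h6)⟩
  simp only at h8
  rw [h7] at h8
  have := le_abs_self C
  linarith

end Pool.Agent.EXO
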