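import Mathlib
import Pool.Agent.EXO.SurSgB

/-!
# EXO / SurNDef: the hypersurface `N` in `ℝ⁷`, a product of three surfaces

`iota q t`: `a3 = c (q 2) t`, `a2 = c (q 1) (a3₀ / λ)`, `a1 = c (q 0) (a2₀ / λ)`, and
`iota q t = (a1₀, a1₁, a1₂, a2₁, a2₂, a3₁, a3₂)`.  The points `P1`, `P2`, `P3` recover `a1`, `a2`, `a3`.

PROOFS.
* `iota_P`: for `q j ∈ S`, `|t| < 1`: `a3 ∈ U`, so `|a3₀| ≤ ‖a3‖ < λ` and `a3₀ / λ ∈ (-1, 1)`; the same for `a2`.  `P1 = a1` (coordinates);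
  `tau a1 = a2₀ / λ`, so `P2 = (λ * (a2₀ / λ), a2₁, a2₂) = a2`; the same for `P3`.
* `P_iota`: for `w ∈ O` put `q j = rho (Pj w)`, `t = tau (P3 w)`: `c (q 2) t = P3 w` (`mem_c`), its first coordinate is
  `λ tau (P2 w)`, so `a2 = c (q 1) (tau (P2 w)) = P2 w`, and `a1 = P1 w`; the coordinates agree with `w`.
* `smooth_*`: compositions; `P2` is smooth on `{P1 ∈ U}`, `P3` on `{P1, P2 ∈ U}`.
* `openO`: `{P1 ∈ U}` is open (`P1` is continuous on `ℝ⁷`), `{P1, P2 ∈ U}` is open (`P2` is continuous on the open set `{P1 ∈ U}`: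
  `ContinuousOn.isOpen_inter_preimage`), and so on.
* `O_bdd`: the coordinates of `w ∈ O` are coordinates of points of `U`, which is bounded (`bdd`).
-/

set_option autoImplicit false
set_option maxSynthPendingDepth 3

open Set
open scoped ContDiff

namespace Pool.Agent.EXO

namespace SCol

variable {S : Set (En 3)} (K : SCol S)

noncomputable def iota (q : Fin 3 → En 3) (t : ℝ) : En 7 :=
  !₂[K.c (q 0) (K.c (q 1) (K.c (q 2) t 0 / K.lam) 0 / K.lam) 0,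
    K.c (q 0) (K.c (q 1) (K.c (q 2) t 0 / K.lam) 0 / K.lam) 1,
    K.c (q 0) (K.c (q 1) (K.c (q 2) t 0 / K.lam) 0 / K.lam) 2,
    K.c (q 1) (K.c (q 2) t 0 / K.lam) 1,
    K.c (q 1) (K.c (q 2) t 0 / K.lam) 2,
    K.c (q 2) t 1,
    K.c (q 2) t 2]

noncomputable def P1 (w : En 7) : En 3 := !₂[w 0, w 1, w 2]

noncomputable def P2 (w : En 7) : En 3 := !₂[K.lam * K.tau (P1 w), w 3, w 4]

noncomputable def P3 (w : En 7) : En 3 := !₂[K.lam * K.tau (K.P2 w), w 5, w 6]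

/-- The open set over which the collar is defined. -/
def O : Set (En 7) := {w | P1 w ∈ K.U ∧ K.P2 w ∈ K.U ∧ K.P3 w ∈ K.U}

/-- The projections to the surface. -/
noncomputable def pi (j : Fin 3) (w : En 7) : En 3 :=
  if j = 0 then K.rho (P1 w) else if j = 1 then K.rho (K.P2 w) else K.rho (K.P3 w)

noncomputable def sc (w : En 7) : ℝ := K.tau (K.P3 w)

/-- The hypersurface. -/
def N : Set (En 7) := {w | w ∈ K.O ∧ K.sc w = 0}

private theorem SurNDef_vec {X : Type*} [NormedAddCommGroup X] [NormedSpace ℝ X] {n : ℕ}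
    {s : Set X} {f : X → En n} (h : ∀ i, ContDiffOn ℝ ∞ (fun x => f x i) s) :
    ContDiffOn ℝ ∞ f s :=
  contDiffOn_piLp 2 |>.2 h

private theorem SurNDef_c {X : Type*} [NormedAddCommGroup X] [NormedSpace ℝ X] (K : SCol S)
    {a : X → En 3} {t : X → ℝ} (ha : ContDiff ℝ ∞ a) (ht : ContDiff ℝ ∞ t) (i : Fin 3) :
    ContDiff ℝ ∞ fun x => K.c (a x) (t x) i :=
  (contDiff_piLp_apply (𝕜 := ℝ) (p := 2) (i := i)).comp (K.smooth_c.comp (ha.prodMk ht))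

theorem smooth_iota : ContDiff ℝ ∞ fun p : (Fin 3 → En 3) × ℝ => K.iota p.1 p.2 := by
  have hq : ∀ j, ContDiff ℝ ∞ fun p : (Fin 3 → En 3) × ℝ => p.1 j := fun j =>
    (contDiff_apply ℝ (En 3) j).comp contDiff_fst
  have h3 : ∀ i, ContDiff ℝ ∞ fun p : (Fin 3 → En 3) × ℝ => K.c (p.1 2) p.2 i := fun i =>
    SurNDef_c K (hq 2) contDiff_snd i
  have h2 : ∀ i, ContDiff ℝ ∞ fun p : (Fin 3 → En 3) × ℝ =>
      K.c (p.1 1) (K.c (p.1 2) p.2 0 / K.lam) i := fun i =>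
    SurNDef_c K (hq 1) ((h3 0).div_const _) i
  have h1 : ∀ i, ContDiff ℝ ∞ fun p : (Fin 3 → En 3) × ℝ =>
      K.c (p.1 0) (K.c (p.1 1) (K.c (p.1 2) p.2 0 / K.lam) 0 / K.lam) i := fun i =>
    SurNDef_c K (hq 0) ((h2 0).div_const _) i
  refine (contDiff_piLp 2).2 fun i => ?_
  fin_cases i
  · exact h1 0
  · exact h1 1
  · exact h1 2
  · exact h2 1
  · exact h2 2
  · exact h3 1
  · exact h3 2

private theorem SurNDef_P1 : ContDiff ℝ ∞ P1 := by
  refine (contDiff_piLp 2).2 fun i => ?_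
  fin_cases i
  · exact contDiff_piLp_apply (𝕜 := ℝ) (p := 2) (i := (0 : Fin 7))
  · exact contDiff_piLp_apply (𝕜 := ℝ) (p := 2) (i := (1 : Fin 7))
  · exact contDiff_piLp_apply (𝕜 := ℝ) (p := 2) (i := (2 : Fin 7))

private theorem SurNDef_P2 : ContDiffOn ℝ ∞ K.P2 {w | P1 w ∈ K.U} := by
  refine SurNDef_vec fun i => ?_
  fin_cases i
  · exact contDiffOn_const.mul (K.smooth_tau.comp SurNDef_P1.contDiffOn fun w hw => hw)
  · exact (contDiff_piLp_apply (𝕜 := ℝ) (p := 2) (i := (3 : Fin 7))).contDiffOn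
  · exact (contDiff_piLp_apply (𝕜 := ℝ) (p := 2) (i := (4 : Fin 7))).contDiffOn

private theorem SurNDef_P3 : ContDiffOn ℝ ∞ K.P3 {w | P1 w ∈ K.U ∧ K.P2 w ∈ K.U} := by
  refine SurNDef_vec fun i => ?_
  fin_cases i
  · exact contDiffOn_const.mul (K.smooth_tau.comp (K.SurNDef_P2.mono fun w hw => hw.1)
      fun w hw => hw.2)
  · exact (contDiff_piLp_apply (𝕜 := ℝ) (p := 2) (i := (5 : Fin 7))).contDiffOn
  · exact (contDiff_piLp_apply (𝕜 := ℝ) (p := 2) (i := (6 : Fin 7))).contDiffOn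

private theorem SurNDef_open1 : IsOpen {w | P1 w ∈ K.U} :=
  K.openU.preimage SurNDef_P1.continuous

private theorem SurNDef_open2 : IsOpen {w | P1 w ∈ K.U ∧ K.P2 w ∈ K.U} :=
  K.SurNDef_P2.continuousOn.isOpen_inter_preimage K.SurNDef_open1 K.openU

theorem openO : IsOpen K.O := by
  have h := K.SurNDef_P3.continuousOn.isOpen_inter_preimage K.SurNDef_open2 K.openU
  have e : K.O = {w | P1 w ∈ K.U ∧ K.P2 w ∈ K.U} ∩ K.P3 ⁻¹' K.U := by
    ext w
    exact and_assoc.symm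
  rw [e]
  exact h

private theorem SurNDef_coord {n : ℕ} (a : En n) (i : Fin n) : |a i| ≤ ‖a‖ := by
  have := PiLp.norm_apply_le a i
  rwa [Real.norm_eq_abs] at this

theorem O_bdd : Bornology.IsBounded K.O := by
  refine (Metric.isBounded_closedBall (x := (0 : En 7)) (r := Real.sqrt (7 * K.lam ^ 2))).subset
    fun w hw => ?_
  obtain ⟨h1, h2, h3⟩ := hw
  have b1 := K.bdd _ h1
  have b2 := K.bdd _ h2
  have b3 := K.bdd _ h3
  have c : ∀ i, |w i| ≤ K.lam := by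
    intro i
    fin_cases i
    · exact (SurNDef_coord (P1 w) 0).trans b1.le
    · exact (SurNDef_coord (P1 w) 1).trans b1.le
    · exact (SurNDef_coord (P1 w) 2).trans b1.le
    · exact (SurNDef_coord (K.P2 w) 1).trans b2.le
    · exact (SurNDef_coord (K.P2 w) 2).trans b2.le
    · exact (SurNDef_coord (K.P3 w) 1).trans b3.le
    · exact (SurNDef_coord (K.P3 w) 2).trans b3.le
  rw [mem_closedBall_zero_iff, EuclideanSpace.norm_eq]
  refine Real.sqrt_le_sqrt ?_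
  calc ∑ i, ‖w i‖ ^ 2 ≤ ∑ _i : Fin 7, K.lam ^ 2 := by
        refine Finset.sum_le_sum fun i _ => ?_
        rw [Real.norm_eq_abs]
        exact pow_le_pow_left₀ (abs_nonneg _) (c i) 2
    _ = 7 * K.lam ^ 2 := by simp

theorem smooth_pi (j : Fin 3) : ContDiffOn ℝ ∞ (K.pi j) K.O := by
  fin_cases j
  · exact K.smooth_rho.comp (SurNDef_P1.contDiffOn) fun w hw => hw.1
  · exact K.smooth_rho.comp (K.SurNDef_P2.mono fun w hw => hw.1) fun w hw => hw.2.1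
  · exact K.smooth_rho.comp (K.SurNDef_P3.mono fun w hw => ⟨hw.1, hw.2.1⟩) fun w hw => hw.2.2

theorem smooth_sc : ContDiffOn ℝ ∞ K.sc K.O :=
  K.smooth_tau.comp (K.SurNDef_P3.mono fun _ hw => ⟨hw.1, hw.2.1⟩) fun _ hw => hw.2.2

private theorem SurNDef_eta (a : En 3) : (!₂[a 0, a 1, a 2] : En 3) = a := by
  ext i
  fin_cases i <;> rfl

private theorem SurNDef_small {a : En 3} (ha : a ∈ K.U) : a 0 / K.lam ∈ Ioo (-1 : ℝ) 1 := by
  have h1 := K.bdd a ha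
  have h2 := SurNDef_coord a 0
  refine abs_lt.1 ?_
  rw [abs_div, abs_of_pos K.lam_pos, div_lt_one K.lam_pos]
  exact h2.trans_lt h1

theorem iota_mem {q : Fin 3 → En 3} (hq : ∀ j, q j ∈ S) {t : ℝ} (ht : t ∈ Ioo (-1 : ℝ) 1) :
    K.iota q t ∈ K.O ∧ (∀ j, K.pi j (K.iota q t) = q j) ∧ K.sc (K.iota q t) = t := by
  have hl := K.lam_pos.ne'
  obtain ⟨a3, ha3⟩ : ∃ a, a = K.c (q 2) t := ⟨_, rfl⟩
  obtain ⟨u3, r3, t3⟩ := K.c_mem (q 2) (hq 2) t ht
  rw [← ha3] at u3 r3 t3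
  obtain ⟨a2, ha2⟩ : ∃ a, a = K.c (q 1) (a3 0 / K.lam) := ⟨_, rfl⟩
  obtain ⟨u2, r2, t2⟩ := K.c_mem (q 1) (hq 1) _ (K.SurNDef_small u3)
  rw [← ha2] at u2 r2 t2
  obtain ⟨a1, ha1⟩ : ∃ a, a = K.c (q 0) (a2 0 / K.lam) := ⟨_, rfl⟩
  obtain ⟨u1, r1, t1⟩ := K.c_mem (q 0) (hq 0) _ (K.SurNDef_small u2)
  rw [← ha1] at u1 r1 t1
  have hi : K.iota q t = !₂[a1 0, a1 1, a1 2, a2 1, a2 2, a3 1, a3 2] := by
    rw [ha1, ha2, ha3]
    rfl
  have p1 : P1 (K.iota q t) = a1 := by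
    rw [hi]
    exact SurNDef_eta a1
  have p2 : K.P2 (K.iota q t) = a2 := by
    unfold P2
    rw [p1, t1, mul_div_cancel₀ _ hl, hi]
    exact SurNDef_eta a2
  have p3 : K.P3 (K.iota q t) = a3 := by
    unfold P3
    rw [p2, t2, mul_div_cancel₀ _ hl, hi]
    exact SurNDef_eta a3
  refine ⟨⟨by rw [p1]; exact u1, by rw [p2]; exact u2, by rw [p3]; exact u3⟩, fun j => ?_, ?_⟩
  · fin_cases j
    · change K.rho (P1 (K.iota q t)) = q 0
      rw [p1, r1]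
    · change K.rho (K.P2 (K.iota q t)) = q 1
      rw [p2, r2]
    · change K.rho (K.P3 (K.iota q t)) = q 2
      rw [p3, r3]
  · unfold sc
    rw [p3, t3]

theorem iota_pi {w : En 7} (hw : w ∈ K.O) : (∀ j, K.pi j w ∈ S) ∧ K.sc w ∈ Ioo (-1 : ℝ) 1 ∧
    K.iota (fun j => K.pi j w) (K.sc w) = w := by
  obtain ⟨h1, h2, h3⟩ := hw
  have hl := K.lam_pos.ne'
  obtain ⟨s1, i1, c1⟩ := K.mem_c _ h1
  obtain ⟨s2, i2, c2⟩ := K.mem_c _ h2
  obtain ⟨s3, i3, c3⟩ := K.mem_c _ h3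
  refine ⟨fun j => ?_, i3, ?_⟩
  · fin_cases j
    · exact s1
    · exact s2
    · exact s3
  · have e3 : K.c (K.pi 2 w) (K.sc w) = K.P3 w := c3
    have e30 : K.P3 w 0 / K.lam = K.tau (K.P2 w) := by
      change K.lam * K.tau (K.P2 w) / K.lam = _
      rw [mul_div_cancel_left₀ _ hl]
    have e2 : K.c (K.pi 1 w) (K.P3 w 0 / K.lam) = K.P2 w := by
      rw [e30]; exact c2
    have e20 : K.P2 w 0 / K.lam = K.tau (P1 w) := by
      change K.lam * K.tau (P1 w) / K.lam = _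
      rw [mul_div_cancel_left₀ _ hl]
    have e1 : K.c (K.pi 0 w) (K.P2 w 0 / K.lam) = P1 w := by
      rw [e20]; exact c1
    unfold iota
    simp only [e3, e2, e1]
    ext i
    fin_cases i <;> rfl

end SCol

end Pool.Agent.EXO
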