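import Mathlib
import Pool.Agent.EXO.SurNDef
import Pool.Agent.EXO.SuExt

/-!
# EXO / SurN: the hypersurface `N`: compact, connected, charts, collar, smooth extensions of the projections

PROOFS.
* `N_eq`: `N = {iota q 0 | q j ∈ S}` by `iota_mem`, `iota_pi` (`0 ∈ Ioo (-1) 1`).
* `N_compact`, `N_connected`: `N` is the image of `Set.pi univ (fun _ => S)` (compact: `isCompact_univ_pi`; connected:
  `isPreconnected_univ_pi`, nonempty) under the continuous map `q ↦ iota q 0`.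
* `exists_q`: `exists_smooth_extension` (SuExt) for the closed set `N` and `K.pi j` (smooth on the open set `K.O ⊇ N`).
* `nchart`: `ψ u = iota (fun j => ψ_j (pr2 j u)) 0`, smooth on the open set `{u | ∀ j, pr2 j u ∈ U j}`;
  `κ w = jn2 (fun j => κ_j (pi j w))` on `{w ∈ K.O | ∀ j, pi j w ∈ O j}` (open: `smooth_pi` continuous on `K.O`).
  `maps`: `iota_mem` (`ψ_j (..) ∈ S ∩ O j`).  `left`: `pi j (iota ..) = ψ_j ..` and `κ_j (ψ_j ..) = ..`, `jn2 (pr2 · u) = u`.
  `right`: for `w ∈ N ∩ O'`: `ψ_j (κ_j (pi j w)) = pi j w` and `iota (pi · w) 0 = w` (`iota_pi`, `sc w = 0`).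
* `collar`: `io n t = iota (fun j => q j n) t` with the smooth extensions `q j` of `pi j`; `rho w = iota (fun j => pi j w) 0`, `sc`.
  `io_mem`: for `n ∈ N`: `q j n = pi j n ∈ S`, `iota_mem`: `pi j (io n t) = pi j n`, so `rho (io n t) = iota (pi · n) 0 = n`.
  `io_rho`: `pi j (rho w) = pi j w` (`iota_mem` with `t = 0`), so `io (rho w) (sc w) = iota (pi · w) (sc w) = w`.
  `io_zero`: `iota (pi · n) 0 = n`.
-/

set_option autoImplicit false
set_option maxSynthPendingDepth 3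

open Set
open scoped ContDiff

namespace Pool.Agent.EXO

/-- The component `j` of a point of `ℝ⁶ = (ℝ²)³`. -/
noncomputable def pr2 (j : Fin 3) (u : En 6) : En 2 :=
  !₂[u ⟨2 * j, by omega⟩, u ⟨2 * j + 1, by omega⟩]

/-- The point of `ℝ⁶` with the given components. -/
noncomputable def jn2 (v : Fin 3 → En 2) : En 6 := !₂[v 0 0, v 0 1, v 1 0, v 1 1, v 2 0, v 2 1]

theorem pr2_jn2 (v : Fin 3 → En 2) (j : Fin 3) : pr2 j (jn2 v) = v j := by
  ext i
  fin_cases j <;> fin_cases i <;> rfl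

theorem jn2_pr2 (u : En 6) : jn2 (fun j => pr2 j u) = u := by
  ext i
  fin_cases i <;> rfl

theorem contDiff_pr2 (j : Fin 3) : ContDiff ℝ ∞ (pr2 j) := by
  refine (contDiff_piLp 2).2 fun i => ?_
  fin_cases i
  · exact contDiff_piLp_apply (𝕜 := ℝ) (p := 2) (i := (⟨2 * j, by omega⟩ : Fin 6))
  · exact contDiff_piLp_apply (𝕜 := ℝ) (p := 2) (i := (⟨2 * j + 1, by omega⟩ : Fin 6))

namespace SCol

variable {S : Set (En 3)} (K : SCol S)

private theorem SurN_zero : (0 : ℝ) ∈ Ioo (-1 : ℝ) 1 := by norm_num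

theorem N_eq : K.N = {w | ∃ q : Fin 3 → En 3, (∀ j, q j ∈ S) ∧ w = K.iota q 0} := by
  ext w
  constructor
  · rintro ⟨h1, h2⟩
    obtain ⟨h3, h4, h5⟩ := K.iota_pi h1
    exact ⟨fun j => K.pi j w, h3, by rw [h2] at h5; exact h5.symm⟩
  · rintro ⟨q, hq, rfl⟩
    obtain ⟨h1, h2, h3⟩ := K.iota_mem hq SurN_zero
    exact ⟨h1, h3⟩

private theorem SurN_image : K.N = (fun q : Fin 3 → En 3 => K.iota q 0) ''
    (univ.pi fun _ : Fin 3 => S) := by
  rw [N_eq]
  ext w
  constructor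
  · rintro ⟨q, hq, rfl⟩
    exact ⟨q, fun j _ => hq j, rfl⟩
  · rintro ⟨q, hq, rfl⟩
    exact ⟨q, fun j => hq j (mem_univ j), rfl⟩

private theorem SurN_cont : Continuous fun q : Fin 3 → En 3 => K.iota q 0 :=
  K.smooth_iota.continuous.comp (Continuous.prodMk_left (0 : ℝ))

theorem N_compact (hS : IsCompact S) : IsCompact K.N := by
  rw [SurN_image]
  exact (isCompact_univ_pi fun _ => hS).image K.SurN_cont

theorem N_connected (hS : IsConnected S) : IsConnected K.N := by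
  rw [SurN_image]
  refine ⟨(univ_pi_nonempty_iff.2 fun _ => hS.1).image _, ?_⟩
  exact (isPreconnected_univ_pi fun _ => hS.2).image _ K.SurN_cont.continuousOn

private theorem SurN_open {X : Type*} [TopologicalSpace X] {p : Fin 3 → X → Prop}
    (h : ∀ j, IsOpen {x | p j x}) : IsOpen {x | ∀ j, p j x} := by
  have e : {x | ∀ j, p j x} = ⋂ j, {x | p j x} := by
    ext x
    simp
  rw [e]
  exact isOpen_iInter_of_finite h

theorem nchart {U : Fin 3 → Set (En 2)} {ψ : Fin 3 → En 2 → En 3} {O : Fin 3 → Set (En 3)}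
    {κ : Fin 3 → En 3 → En 2} (h : ∀ j, IsChart S (U j) (ψ j) (O j) (κ j)) :
    IsChart K.N {u | ∀ j, pr2 j u ∈ U j} (fun u => K.iota (fun j => ψ j (pr2 j u)) 0)
      {w | w ∈ K.O ∧ ∀ j, K.pi j w ∈ O j} (fun w => jn2 fun j => κ j (K.pi j w)) where
  openU := SurN_open fun j => (h j).openU.preimage (contDiff_pr2 j).continuous
  openO := by
    have e : {w | w ∈ K.O ∧ ∀ j, K.pi j w ∈ O j} = {w | ∀ j, w ∈ K.O ∧ K.pi j w ∈ O j} := by
      ext w
      exact ⟨fun hw j => ⟨hw.1, hw.2 j⟩, fun hw => ⟨(hw 0).1, fun j => (hw j).2⟩⟩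
    rw [e]
    exact SurN_open fun j =>
      (K.smooth_pi j).continuousOn.isOpen_inter_preimage K.openO (h j).openO
  smoothψ := by
    have h1 : ContDiffOn ℝ ∞ (fun u : En 6 => (fun j => ψ j (pr2 j u) : Fin 3 → En 3))
        {u | ∀ j, pr2 j u ∈ U j} := contDiffOn_pi.2 fun j =>
      (h j).smoothψ.comp (contDiff_pr2 j).contDiffOn fun u hu => hu j
    have h2 : ContDiffOn ℝ ∞ (fun _ : En 6 => (0 : ℝ)) {u | ∀ j, pr2 j u ∈ U j} :=
      contDiffOn_const
    exact K.smooth_iota.comp_contDiffOn (h1.prodMk h2)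
  smoothκ := by
    have h1 : ∀ j, ContDiffOn ℝ ∞ (fun w => κ j (K.pi j w))
        {w | w ∈ K.O ∧ ∀ j, K.pi j w ∈ O j} := fun j =>
      (h j).smoothκ.comp ((K.smooth_pi j).mono fun w hw => hw.1) fun w hw => hw.2 j
    have h2 : ∀ j (i : Fin 2), ContDiffOn ℝ ∞ (fun w => κ j (K.pi j w) i)
        {w | w ∈ K.O ∧ ∀ j, K.pi j w ∈ O j} := fun j i =>
      (contDiff_piLp_apply (𝕜 := ℝ) (p := 2) (i := i)).comp_contDiffOn (h1 j)
    refine (contDiffOn_piLp 2).2 fun i => ?_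
    fin_cases i
    · exact h2 0 0
    · exact h2 0 1
    · exact h2 1 0
    · exact h2 1 1
    · exact h2 2 0
    · exact h2 2 1
  maps := fun u hu => by
    obtain ⟨h1, h2, h3⟩ := K.iota_mem (q := fun j => ψ j (pr2 j u))
      (fun j => ((h j).maps _ (hu j)).1) SurN_zero
    refine ⟨⟨h1, h3⟩, h1, fun j => ?_⟩
    rw [h2 j]
    exact ((h j).maps _ (hu j)).2
  left := fun u hu => by
    obtain ⟨h1, h2, h3⟩ := K.iota_mem (q := fun j => ψ j (pr2 j u))
      (fun j => ((h j).maps _ (hu j)).1) SurN_zero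
    have e : (fun j => κ j (K.pi j (K.iota (fun j => ψ j (pr2 j u)) 0))) = fun j => pr2 j u := by
      funext j
      rw [h2 j]
      exact (h j).left _ (hu j)
    simp only [e]
    exact jn2_pr2 u
  mapsκ := fun w hw j => by
    rw [pr2_jn2]
    exact (h j).mapsκ _ ⟨(K.iota_pi hw.1.1).1 j, hw.2.2 j⟩
  right := fun w hw => by
    obtain ⟨h1, h2, h3⟩ := K.iota_pi hw.1.1
    have e : (fun j => ψ j (pr2 j (jn2 fun j => κ j (K.pi j w)))) = fun j => K.pi j w := by
      funext j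
      rw [pr2_jn2]
      exact (h j).right _ ⟨h1 j, hw.2.2 j⟩
    simp only [e]
    have h4 : K.sc w = 0 := hw.1.2
    rwa [h4] at h3

/-- `N` as a closed submanifold. -/
theorem exists_closedSub (hS : IsCompact S)
    (hc : ∀ p ∈ S, ∃ (U : Set (En 2)) (ψ : En 2 → En 3) (O : Set (En 3)) (κ : En 3 → En 2),
      IsChart S U ψ O κ ∧ p ∈ O) : ∃ V : ClosedSub 6 7, V.carrier = K.N := by
  refine ⟨⟨K.N, K.N_compact hS, fun w hw => ?_⟩, rfl⟩
  choose U ψ O κ h1 h2 using fun j => hc (K.pi j w) ((K.iota_pi hw.1).1 j)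
  exact ⟨_, _, _, _, K.nchart h1, hw.1, h2⟩

/-- Smooth extensions of the projections to the surface. -/
theorem exists_q (hS : IsCompact S) : ∃ q : Fin 3 → En 7 → En 3, (∀ j, ContDiff ℝ ∞ (q j)) ∧
    ∀ j, ∀ n ∈ K.N, q j n = K.pi j n := by
  choose q h1 h2 using fun j => exists_smooth_extension (K.N_compact hS).isClosed (K.pi j)
    (fun x hx => ⟨K.O, K.openO.mem_nhds hx.1, K.pi j, K.smooth_pi j, fun _ _ => rfl⟩)
  exact ⟨q, h1, h2⟩

theorem exists_collar (hS : IsCompact S) : Nonempty (Collar K.N) := by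
  obtain ⟨q, hq1, hq2⟩ := K.exists_q hS
  have hN : ∀ n ∈ K.N, (fun j => q j n) = fun j => K.pi j n := by
    intro n hn
    funext j
    exact hq2 j n hn
  have h0 : ∀ w ∈ K.O, K.iota (fun j => K.pi j w) 0 ∈ K.O ∧
      (∀ j, K.pi j (K.iota (fun j => K.pi j w) 0) = K.pi j w) ∧
      K.sc (K.iota (fun j => K.pi j w) 0) = 0 := fun w hw =>
    K.iota_mem (K.iota_pi hw).1 SurN_zero
  refine ⟨{
    O := K.O
    rho := fun w => K.iota (fun j => K.pi j w) 0
    sc := K.sc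
    io := fun n t => K.iota (fun j => q j n) t
    openO := K.openO
    bddO := K.O_bdd
    smooth_rho := ?_
    smooth_sc := K.smooth_sc
    smooth_io := ?_
    io_mem := ?_
    io_rho := ?_
    io_zero := ?_ }⟩
  · exact K.smooth_iota.comp_contDiffOn
      (ContDiffOn.prodMk (contDiffOn_pi.2 fun j => K.smooth_pi j) contDiffOn_const)
  · exact K.smooth_iota.comp
      (ContDiff.prodMk (contDiff_pi.2 fun j => (hq1 j).comp contDiff_fst) contDiff_snd)
  · intro n hn t ht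
    simp only [hN n hn]
    obtain ⟨h1, h2, h3⟩ := K.iota_mem (K.iota_pi hn.1).1 ht
    refine ⟨h1, ?_, h3⟩
    simp only [h2]
    obtain ⟨h4, h5, h6⟩ := K.iota_pi hn.1
    have h7 : K.sc n = 0 := hn.2
    rwa [h7] at h6
  · intro w hw
    obtain ⟨h1, h2, h3⟩ := h0 w hw
    have hm : K.iota (fun j => K.pi j w) 0 ∈ K.N := ⟨h1, h3⟩
    refine ⟨hm, (K.iota_pi hw).2.1, ?_⟩
    simp only [hN _ hm, h2]
    exact (K.iota_pi hw).2.2
  · intro n hn
    simp only [hN n hn]
    obtain ⟨h4, h5, h6⟩ := K.iota_pi hn.1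
    have h7 : K.sc n = 0 := hn.2
    rwa [h7] at h6

end SCol

end Pool.Agent.EXO
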