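import Mathlib
import Pool.Agent.EXO.SurN

/-!
# EXO / SurFub: Fubini for `ℝ⁶ = (ℝ²)³`

PROOF.  The map `e : En 6 ≃ᵐ (En 2 × En 2) × En 2`, `u ↦ ((pr2 0 u, pr2 1 u), pr2 2 u)`, is measure preserving: e.g. compose the volume
preserving equivalences `EuclideanSpace.measurableEquiv` (`EuclideanSpace.volume_preserving_measurableEquiv`),
`MeasurableEquiv.piFinSuccAbove`-type splittings (`volume_preserving_piFinSuccAbove`) or `MeasureTheory.volume_preserving_piCongrLeft`, or: it is a
linear isometry onto the `L²` product.  (Alternative: both sides are integrals over `Fin 6 → ℝ` and `MeasureTheory.integral_fin_nat_prod_eq_prod`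
and the like.)  Under `e` the set is `(U 0 ×ˢ U 1) ×ˢ U 2` and the integrand a product: `MeasureTheory.setIntegral_prod_mul` (twice; no
integrability hypothesis is needed for `∫ f x * g y = (∫ f)(∫ g)`).
-/

set_option autoImplicit false
set_option maxSynthPendingDepth 3

open Set MeasureTheory

namespace Pool.Agent.EXO

private theorem SurFub_add (j : Fin 3) (u v : En 6) : pr2 j (u + v) = pr2 j u + pr2 j v := by
  ext i
  fin_cases i <;> simp [pr2]

private theorem SurFub_smul (j : Fin 3) (c : ℝ) (u : En 6) : pr2 j (c • u) = c • pr2 j u := by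
  ext i
  fin_cases i <;> simp [pr2]

private theorem SurFub_norm (u : En 6) :
    ‖pr2 0 u‖ ^ 2 + ‖pr2 1 u‖ ^ 2 + ‖pr2 2 u‖ ^ 2 = ‖u‖ ^ 2 := by
  simp only [EuclideanSpace.norm_sq_eq, Fin.sum_univ_succ, pr2]
  simp
  ring

/-- The isometry onto the `L²` product. -/
private noncomputable def SurFub_e : En 6 ≃ₗᵢ[ℝ] WithLp 2 (WithLp 2 (En 2 × En 2) × En 2) where
  toFun u := WithLp.toLp 2 (WithLp.toLp 2 (pr2 0 u, pr2 1 u), pr2 2 u)
  invFun q := jn2 ![q.ofLp.1.ofLp.1, q.ofLp.1.ofLp.2, q.ofLp.2]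
  map_add' u v := by
    simp only [SurFub_add]
    rfl
  map_smul' c u := by
    simp only [SurFub_smul]
    rfl
  left_inv u := by
    have h := jn2_pr2 u
    conv_rhs => rw [← h]
    congr 1
  right_inv q := by
    simp only [pr2_jn2]
    rfl
  norm_map' u := by
    have h1 : ‖WithLp.toLp 2 (WithLp.toLp 2 (pr2 0 u, pr2 1 u), pr2 2 u)‖ ^ 2 = ‖u‖ ^ 2 := by
      rw [WithLp.prod_norm_sq_eq_of_L2]
      rw [WithLp.prod_norm_sq_eq_of_L2]
      exact SurFub_norm u
    exact (pow_left_inj₀ (norm_nonneg _) (norm_nonneg _) two_ne_zero).1 h1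

private noncomputable def SurFub_f (u : En 6) : (En 2 × En 2) × En 2 :=
  ((pr2 0 u, pr2 1 u), pr2 2 u)

private theorem SurFub_mp : MeasurePreserving SurFub_f := by
  have h1 : MeasurePreserving SurFub_e := SurFub_e.measurePreserving
  have h2 := WithLp.volume_preserving_ofLp (WithLp 2 (En 2 × En 2)) (En 2)
  have h3 : MeasurePreserving
      (Prod.map (WithLp.ofLp : WithLp 2 (En 2 × En 2) → En 2 × En 2) (id : En 2 → En 2)) :=
    MeasurePreserving.prod (WithLp.volume_preserving_ofLp (En 2) (En 2)) (MeasurePreserving.id _)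
  exact h3.comp (h2.comp h1)

private theorem SurFub_emb : MeasurableEmbedding SurFub_f := by
  refine Continuous.measurableEmbedding ?_ ?_
  · exact ((contDiff_pr2 0).continuous.prodMk (contDiff_pr2 1).continuous).prodMk
      (contDiff_pr2 2).continuous
  · intro u v h
    simp only [SurFub_f, Prod.mk.injEq] at h
    rw [← jn2_pr2 u, ← jn2_pr2 v]
    congr 1
    funext j
    fin_cases j
    · exact h.1.1
    · exact h.1.2
    · exact h.2

theorem sur_fubini (U : Fin 3 → Set (En 2)) (f : Fin 3 → En 2 → ℂ) :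
    ∫ u in {u : En 6 | ∀ j, pr2 j u ∈ U j}, f 0 (pr2 0 u) * f 1 (pr2 1 u) * f 2 (pr2 2 u)
      = (∫ u in U 0, f 0 u) * (∫ u in U 1, f 1 u) * ∫ u in U 2, f 2 u := by
  have h1 : {u : En 6 | ∀ j, pr2 j u ∈ U j} = SurFub_f ⁻¹' ((U 0 ×ˢ U 1) ×ˢ U 2) := by
    ext u
    simp only [mem_ofPred_eq, Fin.forall_fin_succ, mem_preimage, mem_prod, SurFub_f]
    simp
    tauto
  have h2 := SurFub_mp.setIntegral_preimage_emb SurFub_emb
    (fun q : (En 2 × En 2) × En 2 => f 0 q.1.1 * f 1 q.1.2 * f 2 q.2) ((U 0 ×ˢ U 1) ×ˢ U 2)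
  rw [h1]
  refine h2.trans ?_
  have h3 : (volume : Measure ((En 2 × En 2) × En 2)) =
      (volume : Measure (En 2 × En 2)).prod (volume : Measure (En 2)) := rfl
  have h4 : (volume : Measure (En 2 × En 2)) =
      (volume : Measure (En 2)).prod (volume : Measure (En 2)) := rfl
  rw [h3, setIntegral_prod_mul (fun p : En 2 × En 2 => f 0 p.1 * f 1 p.2) (f 2), h4,
    setIntegral_prod_mul (f 0) (f 1)]

end Pool.Agent.EXO
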