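import Mathlib
import Pool.Agent.EXO.SuTan
import Pool.Agent.EXO.FmFA
import Pool.Agent.EXO.FmFAd

/-!
# EXO / SurRes: the exterior derivative commutes with the restriction to a submanifold

PROOF.  Chart `ψ` of `Y` at `x` (`Geo.exists_chart`), `u = κ x`.  Near `u`: `FAMap (fderiv ψ a) (α (ψ a)) = FAMap (fderiv ψ a) (β (ψ a))`,
since `fderiv ψ a = P ∘ fderiv ψ a` (`P_fderiv`) and `FAMap_comp`: so `pbF ψ α = pbF ψ β` near `u` (`ψ` maps nbhds of `u` into `Y`),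
`dF (pbF ψ α) u = dF (pbF ψ β) u`, and `dF (pbF ψ α) u = pbF ψ (dF α) u = FAMap (fderiv ψ u) (dF α x)` (naturality; file FmFAd of
helper76, `dF_pbF`).  Finally `P x = (fderiv ψ u) ∘ L` with `L = (fderiv κ x) ∘ P x` (`P_eq_fderiv`, `IsChart.fderiv_κ_ψ`), so
`FAMap (P x) w = FAMap L (FAMap (fderiv ψ u) w)`.

NOTE: if helper18 lands `Geo.dF_restr` in this form, derive it from there.
-/

set_option autoImplicit false
set_option maxSynthPendingDepth 3

open Set Filter Topology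
open scoped ContDiff

namespace Pool.Agent.EXO

private theorem SurRes_chart {k m : ℕ} (Y : Geo k m) {U : Set (En k)} {ψ : En k → En m}
    {O : Set (En m)} {κ : En m → En k} (h : IsChart Y.carrier U ψ O κ) {u : En k} (hu : u ∈ U)
    {a b : FA m} :
    FAMap (fderiv ℝ ψ u) a = FAMap (fderiv ℝ ψ u) b ↔
      FAMap (Y.P (ψ u)) a = FAMap (Y.P (ψ u)) b := by
  have e1 : (Y.P (ψ u)).comp (fderiv ℝ ψ u) = fderiv ℝ ψ u :=
    ContinuousLinearMap.ext fun w => Y.P_fderiv h hu w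
  have e2 : (fderiv ℝ ψ u).comp ((fderiv ℝ κ (ψ u)).comp (Y.P (ψ u))) = Y.P (ψ u) := by
    refine ContinuousLinearMap.ext fun v => ?_
    obtain ⟨w, hw⟩ := Y.P_eq_fderiv h hu v
    show fderiv ℝ ψ u (fderiv ℝ κ (ψ u) (Y.P (ψ u) v)) = Y.P (ψ u) v
    rw [← hw, h.fderiv_κ_ψ hu]
  constructor
  · intro h1
    rw [← e2, FAMap_comp, FAMap_comp (fderiv ℝ ψ u), h1]
  · intro h1
    rw [← e1, FAMap_comp, FAMap_comp (Y.P (ψ u)), h1]

theorem sur_dF_restr {k m : ℕ} (Y : Geo k m) {α β : En m → FA m} {x : En m}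
    (hx : x ∈ Y.carrier) (hα : ContDiffAt ℝ ∞ α x) (hβ : ContDiffAt ℝ ∞ β x)
    (h : ∀ᶠ y in 𝓝[Y.carrier] x, FAMap (Y.P y) (α y) = FAMap (Y.P y) (β y)) :
    FAMap (Y.P x) (dF α x) = FAMap (Y.P x) (dF β x) := by
  obtain ⟨U, ψ, O, κ, hc, hO, hκ⟩ := Y.exists_chart hx
  have hu : κ x ∈ U := hκ x hO
  have hψ : ψ (κ x) = x := hc.right x ⟨hx, hO⟩
  have h1 : ∀ᶠ a in 𝓝 (κ x), pbF ψ α a = pbF ψ β a := by
    have ht : Tendsto ψ (𝓝 (κ x)) (𝓝[Y.carrier] x) := by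
      refine tendsto_nhdsWithin_iff.2 ⟨?_, ?_⟩
      · have := (hc.contDiffAt_ψ hu).continuousAt.tendsto
        rwa [hψ] at this
      · filter_upwards [hc.openU.mem_nhds hu] with a ha
        exact hc.mem_V ha
    filter_upwards [ht.eventually h, hc.openU.mem_nhds hu] with a ha haU
    exact (SurRes_chart Y hc haU).2 ha
  have h2 : ContDiffAt ℝ 2 ψ (κ x) := (hc.contDiffAt_ψ hu).of_le (WithTop.coe_le_coe.2 (OrderTop.le_top _))
  have h3 := dF_congr h1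
  rw [dF_pbF h2 (by rw [hψ]; exact hα.differentiableAt (by simp)),
    dF_pbF h2 (by rw [hψ]; exact hβ.differentiableAt (by simp))] at h3
  have h4 : FAMap (fderiv ℝ ψ (κ x)) (dF α (ψ (κ x))) = FAMap (fderiv ℝ ψ (κ x)) (dF β (ψ (κ x))) := h3
  rw [SurRes_chart Y hc hu, hψ] at h4
  exact h4

/-- If the pull back under a chart vanishes then the restriction vanishes. -/
theorem sur_FAMap_chart {k m : ℕ} (Y : Geo k m) {U : Set (En k)} {ψ : En k → En m}
    {O : Set (En m)} {κ : En m → En k} (h : IsChart Y.carrier U ψ O κ) {u : En k} (hu : u ∈ U)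
    {a b : FA m} :
    FAMap (fderiv ℝ ψ u) a = FAMap (fderiv ℝ ψ u) b ↔
      FAMap (Y.P (ψ u)) a = FAMap (Y.P (ψ u)) b := SurRes_chart Y h hu

end Pool.Agent.EXO
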