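import Mathlib
import Pool.Agent.EXO.SuIntB
import Pool.Agent.EXO.SuOrF
import Pool.Agent.EXO.SurRes

/-!
# EXO / SurIc: the integral of a form in a chart
-/

set_option autoImplicit false
set_option maxSynthPendingDepth 3

open Set MeasureTheory
open scoped ContDiff

namespace Pool.Agent.EXO

variable {n M : ℕ}

theorem sur_inner_vol (V : OrGeo n M) {x : En M} (hx : x ∈ V.carrier) (a : FA M) :
    inner ℂ (V.vol x) (FAMap (V.P x) a) = inner ℂ (V.vol x) a := by
  obtain ⟨B, h1, h2, h3⟩ := V.exists_frame' hx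
  have h4 : ∀ b : FA M, inner ℂ (V.vol x) b = inner ℂ (mon Finset.univ) (FAMap B b) := by
    intro b
    rw [h3, inner_FAMap, ContinuousLinearMap.adjoint_adjoint]
  rw [h4, h4, ← FAMap_comp, ← h2, ContinuousLinearMap.comp_assoc, h1,
    ContinuousLinearMap.comp_id]

theorem sur_setInt_chart (V : OrGeo n M) {U : Set (En n)} {ψ : En n → En M} {O : Set (En M)}
    {κ : En M → En n} (h : IsChart V.carrier U ψ O κ) {eps : ℝ} (he : eps = 1 ∨ eps = -1)
    (hv : ∀ u ∈ U, ∃ c : ℝ, 0 < c ∧ (pbF ψ V.vol u).co Finset.univ = ((eps * c : ℝ) : ℂ))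
    {α : En M → FA M} (hα : ContDiff ℝ ∞ α) :
    ∫ x in O, inner ℂ (V.vol x) (α x) ∂V.μ
      = (eps : ℂ) * ∫ u in U, (pbF ψ α u).co Finset.univ := by
  have hf : AEStronglyMeasurable (fun x => inner ℂ (V.vol x) (α x)) (V.μ.restrict O) := by
    have h1 : Continuous fun x => inner ℂ (V.vol x) (α x) :=
      V.smooth_vol.continuous.inner hα.continuous
    exact h1.aestronglyMeasurable
  rw [V.setIntegral_chart h hf, ← integral_const_mul]
  refine setIntegral_congr_fun h.openU.measurableSet fun u hu => ?_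
  obtain ⟨t1, t2, t3⟩ := V.tv_spec h hu
  obtain ⟨c, hc, hcv⟩ := hv u hu
  have h2 : V.tv ψ u = eps * c := by
    unfold OrGeo.tv
    have : (FAMap (fderiv ℝ ψ u) (V.vol (ψ u))).co Finset.univ = ((eps * c : ℝ) : ℂ) := hcv
    rw [this, Complex.ofReal_re]
  have h3 : volF (fderiv ℝ ψ u) = eps * V.tv ψ u := by
    rw [← t1, h2]
    rcases he with rfl | rfl
    · rw [one_mul, one_mul, abs_of_pos hc]
    · rw [abs_mul]
      simp [abs_of_pos hc]
  have h4 : (pbF ψ α u).co Finset.univ = (V.tv ψ u : ℂ) * inner ℂ (V.vol (ψ u)) (α (ψ u)) :=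
    t3 _
  simp only [h3, h4, Complex.real_smul]
  push_cast
  ring

end Pool.Agent.EXO
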