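import Mathlib
import Pool.Agent.EXO.SurSgA

/-!
# EXO / SurCh2: two explicit charts of the surface

`a = 0`: the part of the cylinder over the outer circle with `|x| < 2`, `y > 0`; `a = 1`: the part of the cylinder over the circle around
`(1, 0)` with `|x - 1| < 1/4`, `y > 0`.

PROOFS.
* `isChart2`: `ψ u = (u 0, √(..), u 1)`, smooth because the radicand is positive on `U`; `κ p = (p 0, p 2)`.
  `maps`: `Sg_of_circle`.  `right`: a point `p ∈ Sg ∩ O`, `|p 2| < 1`: `Sg_band`: for `a = 0`: `p 1 > 1` excludes the small circles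
  (there `(p 1)^2 ≤ 1/4`), so `p 1 = √(9 - (p 0)^2)`; for `a = 1`: the outer circle would give `(p 1)^2 = 9 - (p 0)^2 > 1`, the circle around
  `(-1, 0)` would give `(p 0 + 1)^2 ≤ 1/4`, but `p 0 > 3/4`.
* `beta_chart`: the pull back of `β = ∂_0 G dy∧dz - ∂_1 G dx∧dz + ∂_2 G dx∧dy` under `ψ`.
-/

set_option autoImplicit false
set_option maxSynthPendingDepth 3

open Set
open scoped ContDiff

namespace Pool.Agent.EXO

/-- The radicand. -/
noncomputable def ch2R (a : Fin 2) (x : ℝ) : ℝ := if a = 0 then 9 - x ^ 2 else 1 / 4 - (x - 1) ^ 2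

/-- The interval of `x`: centre. -/
noncomputable def ch2m (a : Fin 2) : ℝ := if a = 0 then 0 else 1

/-- The interval of `x`: radius. -/
noncomputable def ch2w (a : Fin 2) : ℝ := if a = 0 then 2 else 1 / 4

noncomputable def ch2U (a : Fin 2) : Set (En 2) := {u | |u 0 - ch2m a| < ch2w a ∧ |u 1| < 1}

noncomputable def ch2ψ (a : Fin 2) (u : En 2) : En 3 := !₂[u 0, Real.sqrt (ch2R a (u 0)), u 1]

noncomputable def ch2O (a : Fin 2) : Set (En 3) :=
  {p | |p 0 - ch2m a| < ch2w a ∧ |p 2| < 1 ∧ (if a = 0 then 1 < p 1 else 0 < p 1 ∧ p 1 < 1)}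

noncomputable def ch2κ (p : En 3) : En 2 := !₂[p 0, p 2]

private theorem ch2_cont {m : ℕ} (i : Fin m) : Continuous (Y := ℝ) fun u : En m => u i :=
  (EuclideanSpace.proj i : En m →L[ℝ] ℝ).continuous

private theorem ch2_cd {m : ℕ} (i : Fin m) : ContDiff ℝ (F := ℝ) ∞ fun u : En m => u i :=
  (EuclideanSpace.proj i : En m →L[ℝ] ℝ).contDiff

private theorem ch2_cabs {m : ℕ} (i : Fin m) (c : ℝ) :
    Continuous (Y := ℝ) fun u : En m => |(u i : ℝ) - c| :=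
  ((ch2_cont i).sub continuous_const).abs

private theorem ch2_cabs' {m : ℕ} (i : Fin m) :
    Continuous (Y := ℝ) fun u : En m => |(u i : ℝ)| :=
  (ch2_cont i).abs

private theorem ch2_zero (x : ℝ) : ch2R 0 x = 9 - x ^ 2 := by simp [ch2R]

private theorem ch2_one (x : ℝ) : ch2R 1 x = 1 / 4 - (x - 1) ^ 2 := by simp [ch2R]

private theorem ch2_R_bd (a : Fin 2) {x : ℝ} (hx : |x - ch2m a| < ch2w a) :
    0 < ch2R a x ∧ (a = 0 → 1 < ch2R a x) ∧ (a = 1 → ch2R a x < 1) := by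
  fin_cases a
  · have hx' : |x| < 2 := by simpa [ch2m, ch2w] using hx
    have h2 : x ^ 2 < 4 := by
      rw [← sq_abs]
      nlinarith [abs_nonneg x]
    change 0 < ch2R 0 x ∧ _ ∧ _
    refine ⟨?_, fun _ => ?_, fun h => absurd h (by simp)⟩
    · rw [ch2_zero]; linarith
    · change 1 < ch2R 0 x
      rw [ch2_zero]; linarith
  · have hx' : |x - 1| < 1 / 4 := by simpa [ch2m, ch2w] using hx
    have h2 : (x - 1) ^ 2 < 1 / 16 := by
      rw [← sq_abs]
      nlinarith [abs_nonneg (x - 1)]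
    change 0 < ch2R 1 x ∧ _ ∧ _
    refine ⟨?_, fun h => absurd h (by simp), fun _ => ?_⟩
    · rw [ch2_one]; linarith
    · change ch2R 1 x < 1
      rw [ch2_one]; nlinarith [sq_nonneg (x - 1)]

private theorem ch2_fin (a : Fin 2) : a = 0 ∨ a = 1 := by
  fin_cases a
  · exact Or.inl rfl
  · exact Or.inr rfl

private theorem ch2_contR (a : Fin 2) : ContDiff ℝ ∞ fun u : En 2 => ch2R a (u 0) := by
  rcases ch2_fin a with rfl | rfl
  · simp only [ch2_zero]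
    exact contDiff_const.sub ((ch2_cd 0).pow 2)
  · simp only [ch2_one]
    exact contDiff_const.sub (((ch2_cd 0).sub contDiff_const).pow 2)

private theorem ch2ψ_0 (a : Fin 2) (u : En 2) : ch2ψ a u 0 = u 0 := by simp [ch2ψ]
private theorem ch2ψ_1 (a : Fin 2) (u : En 2) : ch2ψ a u 1 = Real.sqrt (ch2R a (u 0)) := by
  simp [ch2ψ]
private theorem ch2ψ_2 (a : Fin 2) (u : En 2) : ch2ψ a u 2 = u 1 := by simp [ch2ψ]
private theorem ch2κ_0 (p : En 3) : ch2κ p 0 = p 0 := by simp [ch2κ]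
private theorem ch2κ_1 (p : En 3) : ch2κ p 1 = p 2 := by simp [ch2κ]

private theorem ch2_Sg (a : Fin 2) {u : En 2} (hu : u ∈ ch2U a) : ch2ψ a u ∈ Sg := by
  obtain ⟨h1, h2⟩ := hu
  have hR := (ch2_R_bd a h1).1
  apply Sg_of_circle
  · rw [ch2ψ_2]
    exact h2.le
  · rw [ch2ψ_0, ch2ψ_1, Real.sq_sqrt hR.le]
    rcases ch2_fin a with rfl | rfl
    · left
      rw [ch2_zero]
      ring
    · right
      left
      rw [ch2_one]
      ring

private theorem ch2_right (a : Fin 2) {y : En 3} (hy : y ∈ Sg ∩ ch2O a) :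
    Real.sqrt (ch2R a (y 0)) = y 1 := by
  obtain ⟨hS, h1, h2, h3⟩ := hy
  have hb := Sg_band hS h2.le
  rcases ch2_fin a with rfl | rfl
  · simp only [if_true] at h3
    rw [ch2_zero]
    rcases hb with hb | hb | hb
    · rw [show 9 - y 0 ^ 2 = y 1 ^ 2 by linarith, Real.sqrt_sq (by linarith)]
    · nlinarith [sq_nonneg (y 0 - 1)]
    · nlinarith [sq_nonneg (y 0 + 1)]
  · have h3' : 0 < y 1 ∧ y 1 < 1 := by simpa using h3
    have h1' : |y 0 - 1| < 1 / 4 := by simpa [ch2m, ch2w] using h1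
    obtain ⟨k1, k2⟩ := abs_lt.1 h1'
    rw [ch2_one]
    rcases hb with hb | hb | hb
    · nlinarith
    · rw [show 1 / 4 - (y 0 - 1) ^ 2 = y 1 ^ 2 by linarith, Real.sqrt_sq h3'.1.le]
    · nlinarith [sq_nonneg (y 1)]

/-- The directional derivative as a derivative along a line. -/
private theorem ch2_line {p v : En 3} {f : ℝ → ℝ} {c : ℝ} (h : (fun t => srG (p + t • v)) = f)
    (hf : HasDerivAt f c 0) : fderiv ℝ srG p v = c := by
  have h1 : DifferentiableAt ℝ srG p := (contDiff_srG.differentiable (by simp)) p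
  rw [← h1.lineDeriv_eq_fderiv]
  unfold lineDeriv
  rw [h]
  exact hf.deriv

private theorem ch2_der (k x y : ℝ) : HasDerivAt (fun t : ℝ => k - (9 - x ^ 2 - (y + t) ^ 2) *
      ((x - 1) ^ 2 + (y + t) ^ 2 - 1 / 4) * ((x + 1) ^ 2 + (y + t) ^ 2 - 1 / 4))
    (-((-(2 * y)) * ((x - 1) ^ 2 + y ^ 2 - 1 / 4) * ((x + 1) ^ 2 + y ^ 2 - 1 / 4) +
      (9 - x ^ 2 - y ^ 2) * (2 * y) * ((x + 1) ^ 2 + y ^ 2 - 1 / 4) +
      (9 - x ^ 2 - y ^ 2) * ((x - 1) ^ 2 + y ^ 2 - 1 / 4) * (2 * y))) 0 := by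
  have h0 : HasDerivAt (fun t : ℝ => (y + t) ^ 2) (2 * y) 0 := by
    have h1 : HasDerivAt (fun t : ℝ => y + t) 1 0 := (hasDerivAt_id (0 : ℝ)).const_add y
    have h2 : HasDerivAt (fun t : ℝ => (y + t) ^ 2) (((2 : ℕ) : ℝ) * (y + 0) ^ (2 - 1) * 1)
      0 := h1.pow 2
    have e : ((2 : ℕ) : ℝ) * (y + 0) ^ (2 - 1) * 1 = 2 * y := by norm_num
    rw [e] at h2
    exact h2
  have hA : HasDerivAt (fun t : ℝ => 9 - x ^ 2 - (y + t) ^ 2) (-(2 * y)) 0 :=
    h0.const_sub (9 - x ^ 2)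
  have hB : HasDerivAt (fun t : ℝ => (x - 1) ^ 2 + (y + t) ^ 2 - 1 / 4) (2 * y) 0 :=
    (h0.const_add ((x - 1) ^ 2)).sub_const _
  have hC : HasDerivAt (fun t : ℝ => (x + 1) ^ 2 + (y + t) ^ 2 - 1 / 4) (2 * y) 0 :=
    (h0.const_add ((x + 1) ^ 2)).sub_const _
  have hAB : HasDerivAt (fun t : ℝ => (9 - x ^ 2 - (y + t) ^ 2) *
      ((x - 1) ^ 2 + (y + t) ^ 2 - 1 / 4))
      (-(2 * y) * ((x - 1) ^ 2 + (y + 0) ^ 2 - 1 / 4) +
        (9 - x ^ 2 - (y + 0) ^ 2) * (2 * y)) 0 := hA.mul hB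
  have hABC : HasDerivAt (fun t : ℝ => (9 - x ^ 2 - (y + t) ^ 2) *
      ((x - 1) ^ 2 + (y + t) ^ 2 - 1 / 4) * ((x + 1) ^ 2 + (y + t) ^ 2 - 1 / 4))
      ((-(2 * y) * ((x - 1) ^ 2 + (y + 0) ^ 2 - 1 / 4) +
        (9 - x ^ 2 - (y + 0) ^ 2) * (2 * y)) * ((x + 1) ^ 2 + (y + 0) ^ 2 - 1 / 4) +
        ((9 - x ^ 2 - (y + 0) ^ 2) * ((x - 1) ^ 2 + (y + 0) ^ 2 - 1 / 4)) * (2 * y)) 0 :=
    hAB.mul hC
  refine (hABC.const_sub k).congr_deriv ?_
  rw [add_zero]
  ring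

private theorem ch2_dy (p : En 3) : fderiv ℝ srG p (bv 1) =
    -((-(2 * p 1)) * ((p 0 - 1) ^ 2 + (p 1) ^ 2 - 1 / 4) * ((p 0 + 1) ^ 2 + (p 1) ^ 2 - 1 / 4) +
      (9 - (p 0) ^ 2 - (p 1) ^ 2) * (2 * p 1) * ((p 0 + 1) ^ 2 + (p 1) ^ 2 - 1 / 4) +
      (9 - (p 0) ^ 2 - (p 1) ^ 2) * ((p 0 - 1) ^ 2 + (p 1) ^ 2 - 1 / 4) * (2 * p 1)) := by
  refine ch2_line (f := fun t => srH (p 2) - (9 - (p 0) ^ 2 - (p 1 + t) ^ 2) *
    ((p 0 - 1) ^ 2 + (p 1 + t) ^ 2 - 1 / 4) * ((p 0 + 1) ^ 2 + (p 1 + t) ^ 2 - 1 / 4)) ?_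
    (ch2_der _ _ _)
  funext t
  simp [srG, srF, bv]

private theorem ch2_dz {p : En 3} (h : |p 2| < 1) : fderiv ℝ srG p (bv 2) = 0 := by
  refine ch2_line (f := fun t => srH (p 2 + t) - srF (p 0) (p 1)) ?_ ?_
  · funext t
    simp [srG, bv]
  · have h1 : HasDerivAt (fun _ : ℝ => 0 - srF (p 0) (p 1)) 0 0 := hasDerivAt_const _ _
    refine h1.congr_of_eventuallyEq ?_
    have h2 : ∀ᶠ t : ℝ in nhds 0, |p 2 + t| < 1 := by
      have h3 : Continuous fun t : ℝ => |p 2 + t| := by fun_prop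
      exact h3.tendsto' 0 _ (by rw [add_zero]) |>.eventually_lt_const h
    filter_upwards [h2] with t ht
    rw [srH_zero ht.le]

theorem isChart2 (a : Fin 2) : IsChart Sg (ch2U a) (ch2ψ a) (ch2O a) ch2κ := by
  refine { openU := ?_, openO := ?_, smoothψ := ?_, smoothκ := ?_, maps := ?_, left := ?_,
           mapsκ := ?_, right := ?_ }
  · exact (isOpen_lt (ch2_cabs 0 _) continuous_const).inter
      (isOpen_lt (ch2_cabs' 1) continuous_const)
  · have h1 : IsOpen {p : En 3 | |p 0 - ch2m a| < ch2w a} :=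
      isOpen_lt (ch2_cabs 0 _) continuous_const
    have h2 : IsOpen {p : En 3 | |p 2| < 1} := isOpen_lt (ch2_cabs' 2) continuous_const
    have h3 : IsOpen {p : En 3 | if a = 0 then 1 < p 1 else 0 < p 1 ∧ p 1 < 1} := by
      rcases ch2_fin a with rfl | rfl
      · simp only [if_true]
        exact isOpen_lt continuous_const (ch2_cont 1)
      · simp only [one_ne_zero, if_false]
        exact (isOpen_lt continuous_const (ch2_cont 1)).inter
          (isOpen_lt (ch2_cont 1) continuous_const)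
    exact h1.inter (h2.inter h3)
  · rw [contDiffOn_euclidean]
    intro i
    fin_cases i
    · exact ((ch2_cd 0).contDiffOn).congr fun u _ => ch2ψ_0 a u
    · exact ((ch2_contR a).contDiffOn.sqrt fun u hu => (ch2_R_bd a hu.1).1.ne').congr
        fun u _ => ch2ψ_1 a u
    · exact ((ch2_cd 1).contDiffOn).congr fun u _ => ch2ψ_2 a u
  · rw [contDiffOn_euclidean]
    intro i
    fin_cases i
    · exact ((ch2_cd 0).contDiffOn).congr fun p _ => ch2κ_0 p
    · exact ((ch2_cd 2).contDiffOn).congr fun p _ => ch2κ_1 p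
  · intro u hu
    refine ⟨ch2_Sg a hu, ?_⟩
    have hR := ch2_R_bd a hu.1
    refine ⟨?_, ?_, ?_⟩
    · rw [ch2ψ_0]; exact hu.1
    · rw [ch2ψ_2]; exact hu.2
    · rw [ch2ψ_1]
      rcases ch2_fin a with rfl | rfl
      · simp only [if_true]
        have h1 := hR.2.1 rfl
        rw [Real.lt_sqrt zero_le_one, one_pow]
        exact h1
      · simp only [one_ne_zero, if_false]
        have h1 := hR.2.2 rfl
        refine ⟨Real.sqrt_pos.2 hR.1, ?_⟩
        rw [Real.sqrt_lt' one_pos, one_pow]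
        exact h1
  · intro u _
    ext i
    fin_cases i
    · exact (ch2κ_0 _).trans (ch2ψ_0 a u)
    · exact (ch2κ_1 _).trans (ch2ψ_2 a u)
  · intro y hy
    refine ⟨?_, ?_⟩
    · rw [ch2κ_0]; exact hy.2.1
    · rw [ch2κ_1]; exact hy.2.2.1
  · intro y hy
    ext i
    fin_cases i
    · exact (ch2ψ_0 a _).trans (ch2κ_0 y)
    · refine (ch2ψ_1 a _).trans ?_
      rw [ch2κ_0]
      exact ch2_right a hy
    · exact (ch2ψ_2 a _).trans (ch2κ_1 y)

theorem ch2O_disjoint : Disjoint (ch2O 0) (ch2O 1) := by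
  rw [Set.disjoint_left]
  rintro p ⟨-, -, h1⟩ ⟨-, -, h2⟩
  simp only [if_true] at h1
  have h3 : 0 < p 1 ∧ p 1 < 1 := by simpa using h2
  linarith [h3.2]

/-- The sign of the orientation of the chart: the partial derivative of `srG` in the direction of `y`
is positive for `a = 0` and negative for `a = 1`. -/
theorem ch2_sign (a : Fin 2) {u : En 2} (hu : u ∈ ch2U a) :
    0 < (if a = 0 then (1 : ℝ) else -1) * fderiv ℝ srG (ch2ψ a u) (bv 1) ∧
      fderiv ℝ srG (ch2ψ a u) (bv 2) = 0 := by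
  have h1 := hu.1
  have hR := ch2_R_bd a h1
  refine ⟨?_, ch2_dz (by rw [ch2ψ_2]; exact hu.2)⟩
  rw [ch2_dy, ch2ψ_0, ch2ψ_1, Real.sq_sqrt hR.1.le]
  have hs : 0 < Real.sqrt (ch2R a (u 0)) := Real.sqrt_pos.2 hR.1
  set y := Real.sqrt (ch2R a (u 0)) with hy
  set x := u 0 with hx
  rcases ch2_fin a with rfl | rfl
  · have hx' : |x| < 2 := by simpa [ch2m, ch2w] using h1
    obtain ⟨k1, k2⟩ := abs_lt.1 hx'
    simp only [if_true, one_mul]
    rw [ch2_zero]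
    have e1 : 9 - x ^ 2 - (9 - x ^ 2) = 0 := by ring
    have e2 : 0 < (x - 1) ^ 2 + (9 - x ^ 2) - 1 / 4 := by nlinarith
    have e3 : 0 < (x + 1) ^ 2 + (9 - x ^ 2) - 1 / 4 := by nlinarith
    rw [e1]
    have e4 := mul_pos (mul_pos (mul_pos two_pos hs) e2) e3
    nlinarith
  · have hx' : |x - 1| < 1 / 4 := by simpa [ch2m, ch2w] using h1
    obtain ⟨k1, k2⟩ := abs_lt.1 hx'
    simp only [one_ne_zero, if_false]
    rw [ch2_one]
    have e1 : (x - 1) ^ 2 + (1 / 4 - (x - 1) ^ 2) - 1 / 4 = 0 := by ring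
    have e2 : 0 < 9 - x ^ 2 - (1 / 4 - (x - 1) ^ 2) := by nlinarith
    have e3 : 0 < (x + 1) ^ 2 + (1 / 4 - (x - 1) ^ 2) - 1 / 4 := by nlinarith
    rw [e1]
    have e4 := mul_pos (mul_pos e2 (mul_pos two_pos hs)) e3
    nlinarith

end Pool.Agent.EXO
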