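import Mathlib
import Pool.Agent.EXO.SurN
import Pool.Agent.EXO.FmFAd

/-!
# EXO / SurPl: pull back of products of forms from the three factors
-/

set_option autoImplicit false
set_option maxSynthPendingDepth 3

open Set Filter Topology
open scoped ContDiff

namespace Pool.Agent.EXO

/-- The volume form of `ℝ⁶`. -/
noncomputable def top6 : FA 6 := (List.ofFn fun i : Fin 6 => of1 (bv i)).prod

theorem top6_co : top6.co Finset.univ = 1 := by
  have h : top6 = mon Finset.univ := by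
    rw [mon_univ]
    unfold top6
    simp only [of1_bv]
  rw [h, mon_co, if_pos rfl]

private theorem SurPl_two (v w : En 2) : of1 v * of1 w
    = ((v 0 * w 1 - v 1 * w 0 : ℝ) : ℂ) • (of1 (bv 0) * of1 (bv 1)) := by
  rw [of1_eq_sum v, of1_eq_sum w]
  simp only [Fin.sum_univ_two, of1_bv, add_mul, mul_add, smul_mul_assoc, mul_smul_comm,
    dx_mul_self, smul_zero, zero_add, add_zero]
  rw [dx_mul_dx (1 : Fin 2) 0]
  simp only [smul_neg, smul_smul]
  push_cast
  rw [sub_smul, mul_comm (w 0 : ℂ) (v 1 : ℂ), mul_comm (w 1 : ℂ) (v 0 : ℂ)]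
  abel

theorem FAMap_two (A : En 2 →L[ℝ] En 3) (i j : Fin 3) :
    FAMap A (of1 (bv i) * of1 (bv j)) = ((A (bv 0) i * A (bv 1) j - A (bv 1) i * A (bv 0) j : ℝ)
      : ℂ) • (of1 (bv 0) * of1 (bv 1)) := by
  have h : ∀ (l : Fin 3) (a : Fin 2), (ContinuousLinearMap.adjoint A (bv l)) a = A (bv a) l := by
    intro l a
    rw [← adj_co]
  rw [FAMap_mul, FAMap_of1, FAMap_of1, SurPl_two]
  simp only [h]

theorem pull3 {ψ : En 6 → En 7} {q : Fin 3 → En 7 → En 3} {φ : Fin 3 → En 2 → En 3}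
    {β : Fin 3 → En 3 → FA 3} {b : Fin 3 → ℂ} {u : En 6} (hψ : DifferentiableAt ℝ ψ u)
    (hq : ∀ j, DifferentiableAt ℝ (q j) (ψ u)) (hφ : ∀ j, DifferentiableAt ℝ (φ j) (pr2 j u))
    (h : ∀ j, ∀ᶠ v in 𝓝 u, q j (ψ v) = φ j (pr2 j v))
    (hb : ∀ j, pbF (φ j) (β j) (pr2 j u) = b j • (of1 (bv 0) * of1 (bv 1))) :
    pbF ψ (fun x => pbF (q 0) (β 0) x * pbF (q 1) (β 1) x * pbF (q 2) (β 2) x) u
      = (b 0 * b 1 * b 2) • top6 := by
  have key : ∀ j, pbF ψ (pbF (q j) (β j)) u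
      = b j • (FAMap (fderiv ℝ (pr2 j) u) (of1 (bv 0)) * FAMap (fderiv ℝ (pr2 j) u)
        (of1 (bv 1))) := by
    intro j
    have hpr : DifferentiableAt ℝ (pr2 j) u := (contDiff_pr2 j).contDiffAt.differentiableAt
      (by simp)
    rw [pbF_comp (hq j) hψ]
    have h1 : pbF (q j ∘ ψ) (β j) u = pbF (φ j ∘ pr2 j) (β j) u := by
      unfold pbF
      have h2 : (q j ∘ ψ) =ᶠ[𝓝 u] (φ j ∘ pr2 j) := h j
      rw [h2.fderiv_eq, h2.eq_of_nhds]
    rw [h1, ← pbF_comp (hφ j) hpr]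
    have h3 : pbF (pr2 j) (pbF (φ j) (β j)) u
        = FAMap (fderiv ℝ (pr2 j) u) (pbF (φ j) (β j) (pr2 j u)) := rfl
    rw [h3, hb j, FAMap_smul, FAMap_mul]
  have hpr : ∀ (j : Fin 3) (l : Fin 2), FAMap (fderiv ℝ (pr2 j) u) (of1 (bv l))
      = of1 (bv (⟨2 * j + l, by omega⟩ : Fin 6)) := by
    intro j l
    rw [FAMap_of1]
    congr 1
    have hfd : ∀ v, fderiv ℝ (pr2 j) u v = pr2 j v := by
      intro v
      obtain ⟨Q, hQ⟩ : ∃ Q : En 6 →L[ℝ] En 2, ∀ x, Q x = pr2 j x :=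
        ⟨LinearMap.toContinuousLinearMap
          { toFun := pr2 j
            map_add' := by
              intro x y
              ext i
              fin_cases i <;> simp [pr2]
            map_smul' := by
              intro c x
              ext i
              fin_cases i <;> simp [pr2] }, fun x => rfl⟩
      have h4 : pr2 j = fun x => Q x := funext fun x => (hQ x).symm
      rw [h4, Q.fderiv]
    rw [← adj_co]
    ext a
    simp only [hfd]
    fin_cases j <;> fin_cases l <;> fin_cases a <;> simp [bv, pr2]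
  have e : pbF ψ (fun x => pbF (q 0) (β 0) x * pbF (q 1) (β 1) x * pbF (q 2) (β 2) x) u
      = pbF ψ (pbF (q 0) (β 0)) u * pbF ψ (pbF (q 1) (β 1)) u * pbF ψ (pbF (q 2) (β 2)) u := by
    unfold pbF
    rw [FAMap_mul, FAMap_mul]
  rw [e, key, key, key]
  simp only [hpr, smul_mul_assoc, mul_smul_comm, smul_smul]
  rw [show b 2 * (b 1 * b 0) = b 0 * b 1 * b 2 by ring]
  congr 1
  unfold top6
  simp only [List.ofFn_succ, List.ofFn_zero, List.prod_cons, List.prod_nil, mul_one]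
  simp only [mul_assoc]
  rfl

end Pool.Agent.EXO
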