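import Mathlib
import Pool.Agent.EXO.SurPl
import Pool.Agent.EXO.SurCh2
import Pool.Agent.EXO.SuCh

/-!
# EXO / SurBeta: the area form of the surface

PROOFS.  Let `A = fderiv ℝ ψ u`, `g i = fderiv ℝ srG (ψ u) (bv i)`.  By `FAMap_two` `pbF ψ sBeta u = b • (of1 (bv 0) * of1 (bv 1))`, `b` real,
`b = det (g, A bv_0, A bv_1)` (expansion along `g`).
* `beta_ne`: `srG ∘ ψ = 0` on `U`, so `∑ i, g i * (A v) i = fderiv ℝ srG (ψ u) (A v) = 0`.  `A` is injective (`IsChart.injective` of SuCh,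
  or differentiate `κ (ψ u) = u`), `g ≠ 0` (`Sg_regular`).  If `b = 0` then `g`, `a = A bv_0`, `a' = A bv_1` are linearly dependent; since `a`, `a'`
  are independent, `g = s a + t a'`, so `|g|^2 = s (g·a) + t (g·a') = 0`, contradiction.  (Explicitly: `g × (a × a') = a (g·a') - a' (g·a) = 0`
  and `g · (a × a') = b = 0` with `a × a' ≠ 0`: from `|g|^2 |a × a'|^2 = (g · (a × a'))^2 + |g × (a × a')|^2`.)
* `beta_ch2`: `ψ = ch2ψ a`: `A bv_0 = (1, y', 0)`, `A bv_1 = (0, 0, 1)`; `b = g 0 * y' - g 1` and `g 0 + g 1 * y' = 0`, so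
  `b * g 1 = - (g 0)^2 - (g 1)^2`; by `ch2_sign` `g 1 > 0` for `a = 0` and `g 1 < 0` for `a = 1` (so `b ≠ 0` of the opposite sign).
* `pb_dxdz`: `FAMap_two` with `i = 0`, `j = 2`: `1 * 1 - 0 * 0`.
-/

set_option autoImplicit false
set_option maxSynthPendingDepth 3

open Set Filter Topology
open scoped ContDiff

namespace Pool.Agent.EXO

/-- The form `∂_0 G dy∧dz - ∂_1 G dx∧dz + ∂_2 G dx∧dy`. -/
noncomputable def sBeta (p : En 3) : FA 3 :=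
  (fderiv ℝ srG p (bv 0) : ℂ) • (of1 (bv 1) * of1 (bv 2))
    - (fderiv ℝ srG p (bv 1) : ℂ) • (of1 (bv 0) * of1 (bv 2))
    + (fderiv ℝ srG p (bv 2) : ℂ) • (of1 (bv 0) * of1 (bv 1))

private theorem sb_part (i : Fin 3) : ContDiff ℝ ∞ fun p => fderiv ℝ srG p (bv i) :=
  (contDiff_srG.fderiv_right (m := ∞) (by simp)).clm_apply contDiff_const

private theorem sb_smul (i : Fin 3) (v : FA 3) :
    ContDiff ℝ ∞ fun p => (fderiv ℝ srG p (bv i) : ℂ) • v := by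
  have h1 : (fun p => (fderiv ℝ srG p (bv i) : ℂ) • v) =
      fun p => (fderiv ℝ srG p (bv i)) • v := by
    funext p
    exact (RCLike.real_smul_eq_coe_smul (K := ℂ) _ _).symm
  rw [h1]
  exact (sb_part i).smul contDiff_const

theorem contDiff_sBeta : ContDiff ℝ ∞ sBeta :=
  ((sb_smul 0 _).sub (sb_smul 1 _)).add (sb_smul 2 _)

private theorem sb_sum (v : En 3) : v = v 0 • bv 0 + v 1 • bv 1 + v 2 • bv 2 := by
  ext i
  fin_cases i <;> simp [bv]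

private theorem sb_sum2 (v : En 2) : v = v 0 • bv 0 + v 1 • bv 1 := by
  ext i
  fin_cases i <;> simp [bv]

private theorem sb_apply (L : En 3 →L[ℝ] ℝ) (v : En 3) :
    L v = v 0 * L (bv 0) + v 1 * L (bv 1) + v 2 * L (bv 2) := by
  conv_lhs => rw [sb_sum v]
  simp only [map_add, map_smul, smul_eq_mul]

/-- the coefficient of the pull back of `sBeta` -/
private noncomputable def sbB (g : Fin 3 → ℝ) (a a' : En 3) : ℝ :=
  g 0 * (a 1 * a' 2 - a' 1 * a 2) - g 1 * (a 0 * a' 2 - a' 0 * a 2) +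
    g 2 * (a 0 * a' 1 - a' 0 * a 1)

private theorem sb_pb (ψ : En 2 → En 3) (u : En 2) :
    pbF ψ sBeta u = ((sbB (fun i => fderiv ℝ srG (ψ u) (bv i)) (fderiv ℝ ψ u (bv 0))
      (fderiv ℝ ψ u (bv 1)) : ℝ) : ℂ) • (of1 (bv 0) * of1 (bv 1)) := by
  unfold pbF sBeta
  rw [FAMap_add, sub_eq_add_neg, FAMap_add, ← neg_smul, FAMap_smul, FAMap_smul, FAMap_smul,
    FAMap_two, FAMap_two, FAMap_two, smul_smul, smul_smul, smul_smul, ← add_smul, ← add_smul]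
  congr 1
  unfold sbB
  push_cast
  ring

private theorem sb_zero {U : Set (En 2)} {ψ : En 2 → En 3} {O : Set (En 3)} {κ : En 3 → En 2}
    (h : IsChart Sg U ψ O κ) {u : En 2} (hu : u ∈ U) (v : En 2) :
    fderiv ℝ srG (ψ u) (fderiv ℝ ψ u v) = 0 := by
  have h1 : HasFDerivAt (fun x => srG (ψ x)) ((fderiv ℝ srG (ψ u)).comp (fderiv ℝ ψ u)) u :=
    (contDiff_srG.differentiable (by simp) (ψ u)).hasFDerivAt.comp u
      (h.differentiableAt_ψ hu).hasFDerivAt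
  have h2 : (fun x => srG (ψ x)) =ᶠ[𝓝 u] fun _ => (0 : ℝ) := by
    filter_upwards [h.openU.mem_nhds hu] with x hx
    exact h.mem_V hx
  have h3 : HasFDerivAt (fun x => srG (ψ x)) (0 : En 2 →L[ℝ] ℝ) u :=
    (hasFDerivAt_const (0 : ℝ) u).congr_of_eventuallyEq h2
  have h4 := h1.unique h3
  have h5 := congrArg (fun L : En 2 →L[ℝ] ℝ => L v) h4
  simpa using h5

private theorem sb_alg {g0 g1 g2 a0 a1 a2 d0 d1 d2 : ℝ}
    (h1 : a0 * g0 + a1 * g1 + a2 * g2 = 0)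
    (h2 : d0 * g0 + d1 * g1 + d2 * g2 = 0)
    (hb : g0 * (a1 * d2 - d1 * a2) - g1 * (a0 * d2 - d0 * a2) + g2 * (a0 * d1 - d0 * a1) = 0)
    (hg : 0 < g0 ^ 2 + g1 ^ 2 + g2 ^ 2) :
    a1 * d2 - d1 * a2 = 0 ∧ a0 * d2 - d0 * a2 = 0 ∧ a0 * d1 - d0 * a1 = 0 := by
  obtain ⟨c0, hc0⟩ : ∃ c0, c0 = a1 * d2 - d1 * a2 := ⟨_, rfl⟩
  obtain ⟨c1, hc1⟩ : ∃ c1, c1 = a0 * d2 - d0 * a2 := ⟨_, rfl⟩
  obtain ⟨c2, hc2⟩ : ∃ c2, c2 = a0 * d1 - d0 * a1 := ⟨_, rfl⟩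
  rw [← hc0, ← hc1, ← hc2] at hb ⊢
  -- g × (a × d) = a (g·d) - d (g·a), where a × d = (c0, -c1, c2)
  have e0 : g1 * c2 + g2 * c1 = 0 := by
    rw [hc1, hc2]
    linear_combination a0 * h2 - d0 * h1
  have e1 : g2 * c0 - g0 * c2 = 0 := by
    rw [hc0, hc2]
    linear_combination a1 * h2 - d1 * h1
  have e2 : -(g0 * c1) - g1 * c0 = 0 := by
    rw [hc0, hc1]
    linear_combination a2 * h2 - d2 * h1
  have key : (g0 ^ 2 + g1 ^ 2 + g2 ^ 2) * (c0 ^ 2 + c1 ^ 2 + c2 ^ 2) =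
      (g0 * c0 - g1 * c1 + g2 * c2) ^ 2 + (g1 * c2 + g2 * c1) ^ 2 +
        (g2 * c0 - g0 * c2) ^ 2 + (-(g0 * c1) - g1 * c0) ^ 2 := by ring
  rw [hb, e0, e1, e2] at key
  have h3 : c0 ^ 2 + c1 ^ 2 + c2 ^ 2 = 0 := by
    have h4 : (g0 ^ 2 + g1 ^ 2 + g2 ^ 2) * (c0 ^ 2 + c1 ^ 2 + c2 ^ 2) = 0 := by
      rw [key]; ring
    rcases mul_eq_zero.1 h4 with h5 | h5
    · exact absurd h5 hg.ne'
    · exact h5
  clear key e0 e1 e2 hb h1 h2 hc0 hc1 hc2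
  refine ⟨?_, ?_, ?_⟩
  · have : c0 ^ 2 = 0 := by nlinarith [sq_nonneg c0, sq_nonneg c1, sq_nonneg c2]
    exact pow_eq_zero_iff (by norm_num) |>.1 this
  · have : c1 ^ 2 = 0 := by nlinarith [sq_nonneg c0, sq_nonneg c1, sq_nonneg c2]
    exact pow_eq_zero_iff (by norm_num) |>.1 this
  · have : c2 ^ 2 = 0 := by nlinarith [sq_nonneg c0, sq_nonneg c1, sq_nonneg c2]
    exact pow_eq_zero_iff (by norm_num) |>.1 this

private theorem sb_g {p : En 3} (hp : p ∈ Sg) : 0 < (fderiv ℝ srG p (bv 0)) ^ 2 +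
    (fderiv ℝ srG p (bv 1)) ^ 2 + (fderiv ℝ srG p (bv 2)) ^ 2 := by
  by_contra hc
  push Not at hc
  have h0 : fderiv ℝ srG p (bv 0) = 0 := by
    nlinarith [sq_nonneg (fderiv ℝ srG p (bv 0)), sq_nonneg (fderiv ℝ srG p (bv 1)),
      sq_nonneg (fderiv ℝ srG p (bv 2))]
  have h1 : fderiv ℝ srG p (bv 1) = 0 := by
    nlinarith [sq_nonneg (fderiv ℝ srG p (bv 0)), sq_nonneg (fderiv ℝ srG p (bv 1)),
      sq_nonneg (fderiv ℝ srG p (bv 2))]
  have h2 : fderiv ℝ srG p (bv 2) = 0 := by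
    nlinarith [sq_nonneg (fderiv ℝ srG p (bv 0)), sq_nonneg (fderiv ℝ srG p (bv 1)),
      sq_nonneg (fderiv ℝ srG p (bv 2))]
  apply Sg_regular p hp
  ext v
  rw [sb_apply, h0, h1, h2]
  simp

theorem beta_ne {U : Set (En 2)} {ψ : En 2 → En 3} {O : Set (En 3)} {κ : En 3 → En 2}
    (h : IsChart Sg U ψ O κ) {u : En 2} (hu : u ∈ U) :
    ∃ b : ℝ, b ≠ 0 ∧ pbF ψ sBeta u = (b : ℂ) • (of1 (bv 0) * of1 (bv 1)) := by
  refine ⟨_, ?_, sb_pb ψ u⟩
  intro hb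
  have h1 := sb_zero h hu (bv 0)
  have h2 := sb_zero h hu (bv 1)
  rw [sb_apply] at h1 h2
  obtain ⟨e0, e1, e2⟩ := sb_alg h1 h2 hb (sb_g (h.mem_V hu))
  have hinj := h.injective hu
  set A := fderiv ℝ ψ u with hA
  set a := A (bv 0) with ha
  set a' := A (bv 1) with ha'
  -- w = |a|² a' - (a·a') a = 0
  have hw : A ((a 0 ^ 2 + a 1 ^ 2 + a 2 ^ 2) • bv 1 -
      (a 0 * a' 0 + a 1 * a' 1 + a 2 * a' 2) • bv 0) = 0 := by
    rw [map_sub, map_smul, map_smul, ← ha, ← ha']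
    ext i
    fin_cases i
    · simp only [Fin.zero_eta, PiLp.sub_apply, PiLp.smul_apply, smul_eq_mul, PiLp.zero_apply]
      linear_combination (-a 1) * e2 + (-a 2) * e1
    · simp only [Fin.mk_one, PiLp.sub_apply, PiLp.smul_apply, smul_eq_mul, PiLp.zero_apply]
      linear_combination (a 0) * e2 + (-a 2) * e0
    · simp only [Fin.reduceFinMk, PiLp.sub_apply, PiLp.smul_apply, smul_eq_mul, PiLp.zero_apply]
      linear_combination (a 0) * e1 + (a 1) * e0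
  have hw0 := hinj (hw.trans (map_zero A).symm)
  have h3 : a 0 ^ 2 + a 1 ^ 2 + a 2 ^ 2 = 0 := by
    have := congrArg (fun v : En 2 => v 1) hw0
    simpa [bv] using this
  have h4 : a = 0 := by
    ext i
    fin_cases i
    · change a 0 = 0
      nlinarith [sq_nonneg (a 0), sq_nonneg (a 1), sq_nonneg (a 2)]
    · change a 1 = 0
      nlinarith [sq_nonneg (a 0), sq_nonneg (a 1), sq_nonneg (a 2)]
    · change a 2 = 0
      nlinarith [sq_nonneg (a 0), sq_nonneg (a 1), sq_nonneg (a 2)]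
  have h5 : (bv 0 : En 2) = 0 := hinj ((ha ▸ h4 : A (bv 0) = 0).trans (map_zero A).symm)
  have h6 := congrArg (fun v : En 2 => v 0) h5
  simp [bv] at h6

/-- The orientation of the two charts. -/
noncomputable def ch2s (a : Fin 2) : ℝ := if a = 0 then -1 else 1

private theorem sb_coord {U : Set (En 2)} {ψ : En 2 → En 3} {O : Set (En 3)} {κ : En 3 → En 2}
    (h : IsChart Sg U ψ O κ) {u : En 2} (hu : u ∈ U) (i : Fin 3) (v : En 2) {d : ℝ}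
    (hd : HasDerivAt (fun t : ℝ => ψ (u + t • v) i) d 0) : (fderiv ℝ ψ u v) i = d := by
  have h1 : HasFDerivAt ψ (fderiv ℝ ψ u) (u + (0 : ℝ) • v) := by
    rw [zero_smul, add_zero]
    exact (h.differentiableAt_ψ hu).hasFDerivAt
  have h2 : HasDerivAt (fun t : ℝ => u + t • v) v 0 := by
    have := ((hasDerivAt_id (0 : ℝ)).smul_const v).const_add u
    simpa using this
  have h3 := h1.comp_hasDerivAt (0 : ℝ) h2
  let pr : En 3 →L[ℝ] ℝ := EuclideanSpace.proj i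
  have h4 : HasDerivAt (pr ∘ (ψ ∘ fun t : ℝ => u + t • v)) (pr (fderiv ℝ ψ u v)) 0 :=
    pr.hasFDerivAt.comp_hasDerivAt (0 : ℝ) h3
  exact h4.unique hd

private theorem sb_A0 (a : Fin 2) {u : En 2} (hu : u ∈ ch2U a) (v : En 2) :
    (fderiv ℝ (ch2ψ a) u v) 0 = v 0 := by
  refine sb_coord (isChart2 a) hu 0 v ?_
  have h1 : (fun t : ℝ => (ch2ψ a (u + t • v)) 0) = fun t => u 0 + t * v 0 := by
    funext t
    simp [ch2ψ]
  rw [h1]
  simpa using ((hasDerivAt_id (0 : ℝ)).mul_const (v 0)).const_add (u 0)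

private theorem sb_A2 (a : Fin 2) {u : En 2} (hu : u ∈ ch2U a) (v : En 2) :
    (fderiv ℝ (ch2ψ a) u v) 2 = v 1 := by
  refine sb_coord (isChart2 a) hu 2 v ?_
  have h1 : (fun t : ℝ => (ch2ψ a (u + t • v)) 2) = fun t => u 1 + t * v 1 := by
    funext t
    simp [ch2ψ]
  rw [h1]
  simpa using ((hasDerivAt_id (0 : ℝ)).mul_const (v 1)).const_add (u 1)

private theorem sb_A1 (a : Fin 2) {u : En 2} (hu : u ∈ ch2U a) :
    (fderiv ℝ (ch2ψ a) u (bv 1)) 1 = 0 := by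
  refine sb_coord (isChart2 a) hu 1 (bv 1) ?_
  have h1 : (fun t : ℝ => (ch2ψ a (u + t • bv 1)) 1) = fun t => (ch2ψ a u) 1 := by
    funext t
    simp [ch2ψ, bv]
  rw [h1]
  exact hasDerivAt_const _ _

theorem beta_ch2 (a : Fin 2) {u : En 2} (hu : u ∈ ch2U a) :
    ∃ b : ℝ, 0 < ch2s a * b ∧ pbF (ch2ψ a) sBeta u = (b : ℂ) • (of1 (bv 0) * of1 (bv 1)) := by
  refine ⟨_, ?_, sb_pb (ch2ψ a) u⟩
  have h1 := sb_zero (isChart2 a) hu (bv 0)
  rw [sb_apply] at h1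
  have hs := (ch2_sign a hu).1
  have a00 := sb_A0 a hu (bv 0)
  have a10 := sb_A0 a hu (bv 1)
  have a02 := sb_A2 a hu (bv 0)
  have a12 := sb_A2 a hu (bv 1)
  have a11 := sb_A1 a hu
  have b00 : (bv 0 : En 2) 0 = 1 := by simp [bv]
  have b10 : (bv 1 : En 2) 0 = 0 := by simp [bv]
  have b01 : (bv 0 : En 2) 1 = 0 := by simp [bv]
  have b11 : (bv 1 : En 2) 1 = 1 := by simp [bv]
  rw [b00] at a00
  rw [b10] at a10
  rw [b01] at a02
  rw [b11] at a12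
  unfold sbB
  rw [a00, a10, a02, a12, a11]
  rw [a00, a02] at h1
  set y := (fderiv ℝ (ch2ψ a) u (bv 0)) 1 with hy
  set g0 := fderiv ℝ srG (ch2ψ a u) (bv 0) with hg0
  set g1 := fderiv ℝ srG (ch2ψ a u) (bv 1) with hg1
  set g2 := fderiv ℝ srG (ch2ψ a u) (bv 2) with hg2
  have h2 : g0 = -(y * g1) := by linarith
  have h3 : ch2s a = -(if a = 0 then (1 : ℝ) else -1) := by
    unfold ch2s
    split_ifs <;> norm_num
  have h4 : ch2s a * (g0 * (y * 1 - 0 * 0) - g1 * (1 * 1 - 0 * 0) + g2 * (1 * 0 - 0 * y)) =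
      ((if a = 0 then (1 : ℝ) else -1) * g1) * (1 + y ^ 2) := by
    rw [h3, h2]
    ring
  rw [h4]
  positivity

theorem pb_dxdz (a : Fin 2) (k : En 3 → ℂ) {u : En 2} (hu : u ∈ ch2U a) :
    pbF (ch2ψ a) (fun p => k p • (of1 (bv 0) * of1 (bv 2))) u
      = k (ch2ψ a u) • (of1 (bv 0) * of1 (bv 1)) := by
  unfold pbF
  rw [FAMap_smul, FAMap_two, sb_A0 a hu, sb_A0 a hu, sb_A2 a hu, sb_A2 a hu]
  have h1 : (((bv 0 : En 2) 0 * (bv 1 : En 2) 1 - (bv 1 : En 2) 0 * (bv 0 : En 2) 1 : ℝ) : ℂ) = 1 := by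
    simp [bv]
  rw [h1, one_smul]

end Pool.Agent.EXO
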