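import Mathlib

/-!
# EXO / SurIFT: global inverse function theorem near a compact set
-/

set_option autoImplicit false
set_option maxSynthPendingDepth 3

namespace Pool.Agent.EXO

open Set Filter Topology
open scoped ContDiff

/-- A smooth map which is injective on a compact set `K` and has invertible derivatives at the
points of `K` is a diffeomorphism of a neighbourhood of `K` onto an open set. -/
theorem sur_ift {X Y : Type*} [NormedAddCommGroup X] [NormedSpace ℝ X] [CompleteSpace X]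
    [NormedAddCommGroup Y] [NormedSpace ℝ Y] {f : X → Y} (hf : ContDiff ℝ ∞ f)
    {K : Set X} (hK : IsCompact K) (hinj : InjOn f K)
    (hd : ∀ x ∈ K, ∃ f' : X ≃L[ℝ] Y, HasFDerivAt f (f' : X →L[ℝ] Y) x) :
    ∃ O : Set X, IsOpen O ∧ K ⊆ O ∧ InjOn f O ∧ (∀ U ⊆ O, IsOpen U → IsOpen (f '' U)) ∧
      ∃ g : Y → X, ContDiffOn ℝ ∞ g (f '' O) ∧ ∀ x ∈ O, g (f x) = x := by
  have hstrict : ∀ x, ∀ f' : X ≃L[ℝ] Y, HasFDerivAt f (f' : X →L[ℝ] Y) x →
      HasStrictFDerivAt f (f' : X →L[ℝ] Y) x := fun x f' h =>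
    hf.contDiffAt.hasStrictFDerivAt' h (by simp)
  have hloc : ∀ x ∈ K, ∃ u ∈ 𝓝 x, InjOn f u := by
    intro x hx
    obtain ⟨f', hf'⟩ := hd x hx
    have h1 := hstrict x f' hf'
    refine ⟨(h1.toOpenPartialHomeomorph f).source, ?_, ?_⟩
    · exact (h1.toOpenPartialHomeomorph f).open_source.mem_nhds h1.mem_toOpenPartialHomeomorph_source
    · exact (h1.toOpenPartialHomeomorph f).injOn
  obtain ⟨t, ht, hKt, htinj⟩ := hinj.exists_isOpen_superset hK
    (fun x _ => hf.continuous.continuousAt) hloc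
  have hDopen : IsOpen {x : X | ∃ f' : X ≃L[ℝ] Y, HasFDerivAt f (f' : X →L[ℝ] Y) x} := by
    have h1 : {x : X | ∃ f' : X ≃L[ℝ] Y, HasFDerivAt f (f' : X →L[ℝ] Y) x} =
        (fderiv ℝ f) ⁻¹' (range ((↑) : (X ≃L[ℝ] Y) → X →L[ℝ] Y)) := by
      ext x
      constructor
      · rintro ⟨f', h⟩
        exact ⟨f', h.fderiv.symm⟩
      · rintro ⟨f', h⟩
        refine ⟨f', ?_⟩
        rw [h]
        exact (hf.differentiable (by simp) x).hasFDerivAt
    rw [h1]
    exact (ContinuousLinearEquiv.isOpen (𝕜 := ℝ) (E := X) (F := Y)).preimage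
      (hf.continuous_fderiv (by simp))
  set O := t ∩ {x : X | ∃ f' : X ≃L[ℝ] Y, HasFDerivAt f (f' : X →L[ℝ] Y) x} with hO
  have hOopen : IsOpen O := ht.inter hDopen
  have hopen : ∀ U ⊆ O, IsOpen U → IsOpen (f '' U) := by
    intro U hU hUo
    rw [isOpen_iff_mem_nhds]
    rintro y ⟨x, hx, rfl⟩
    obtain ⟨f', hf'⟩ := (hU hx).2
    have h1 := (hstrict x f' hf').map_nhds_eq_of_equiv
    rw [← h1]
    exact image_mem_map (hUo.mem_nhds hx)
  refine ⟨O, hOopen, fun x hx => ⟨hKt hx, hd x hx⟩, htinj.mono inter_subset_left, hopen,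
    Function.invFunOn f O, ?_, ?_⟩
  · rintro y ⟨x, hx, rfl⟩
    obtain ⟨f', hf'⟩ := hx.2
    have h1 : ContDiffAt ℝ ∞ f x := hf.contDiffAt
    have h2 := h1.to_localInverse hf' (by simp)
    refine ContDiffAt.contDiffWithinAt (h2.congr_of_eventuallyEq ?_)
    have h3 := (hstrict x f' hf').eventually_right_inverse
    have h4 : ∀ᶠ y in 𝓝 (f x), (h1.localInverse hf' (by simp)) y ∈ O := by
      have h5 : ContinuousAt (h1.localInverse hf' (by simp)) (f x) := h2.continuousAt
      have h6 : (h1.localInverse hf' (by simp)) (f x) = x := h1.localInverse_apply_image hf' _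
      apply h5.eventually_mem
      rw [h6]
      exact hOopen.mem_nhds hx
    filter_upwards [h3, h4] with y hy1 hy2
    have h7 : f ((h1.localInverse hf' (by simp)) y) = y := hy1
    have h8 : y ∈ f '' O := ⟨_, hy2, h7⟩
    have h9 := Function.invFunOn_mem h8
    have h10 := Function.invFunOn_eq h8
    exact (htinj.mono inter_subset_left) h9 hy2 (h10.trans h7.symm)
  · intro x hx
    exact (htinj.mono inter_subset_left).leftInvOn_invFunOn hx

end Pool.Agent.EXO
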