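import Mathlib
import Pool.Agent.EXO.DefC
import Pool.Agent.EXO.SurIFT

/-!
# EXO / SurLev: charts of a regular level surface in `ℝ³`
-/

set_option autoImplicit false
set_option maxSynthPendingDepth 3

open Set
open scoped ContDiff

namespace Pool.Agent.EXO

private noncomputable def levPhi (G : En 3 → ℝ) (i : Fin 3) (q : En 3) : En 3 :=
  WithLp.toLp 2 (fun a => if a = i then G q else q a)

private noncomputable def levPt (i j : Fin 3) (u : En 2) : En 3 :=
  WithLp.toLp 2 (fun a => if a = i then 0 else if a = j then u 0 else u 1)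

private noncomputable def levK (j k : Fin 3) (y : En 3) : En 2 :=
  WithLp.toLp 2 (fun a => if a = 0 then y j else y k)

private lemma contDiff_levPhi {G : En 3 → ℝ} (hG : ContDiff ℝ ∞ G) (i : Fin 3) :
    ContDiff ℝ ∞ (levPhi G i) := by
  rw [contDiff_euclidean]
  intro a
  by_cases h : a = i
  · have : (fun x => levPhi G i x a) = G := by
      funext x
      simp [levPhi, h]
    rw [this]
    exact hG
  · have : (fun x => levPhi G i x a) = fun x => x a := by
      funext x
      simp [levPhi, h]
    rw [this]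
    exact (EuclideanSpace.proj (𝕜 := ℝ) a).contDiff

private lemma contDiff_levPt (i j : Fin 3) : ContDiff ℝ ∞ (levPt i j) := by
  rw [contDiff_euclidean]
  intro a
  have h0 : ∀ b : Fin 2, ContDiff ℝ ∞ (fun x : En 2 => x b) := fun b =>
    (EuclideanSpace.proj (𝕜 := ℝ) b).contDiff
  by_cases h : a = i
  · have : (fun x => levPt i j x a) = fun _ => 0 := by
      funext x
      simp [levPt, h]
    rw [this]
    exact contDiff_const
  · by_cases h' : a = j
    · have : (fun x => levPt i j x a) = fun x => x 0 := by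
        funext x
        simp only [levPt, if_neg h, if_pos h']
      rw [this]
      exact h0 0
    · have : (fun x => levPt i j x a) = fun x => x 1 := by
        funext x
        simp only [levPt, if_neg h, if_neg h']
      rw [this]
      exact h0 1

private lemma contDiff_levK (j k : Fin 3) : ContDiff ℝ ∞ (levK j k) := by
  rw [contDiff_euclidean]
  intro a
  by_cases h : a = 0
  · have : (fun x => levK j k x a) = fun x => x j := by
      funext x
      simp only [levK, if_pos h]
    rw [this]
    exact (EuclideanSpace.proj (𝕜 := ℝ) j).contDiff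
  · have : (fun x => levK j k x a) = fun x => x k := by
      funext x
      simp only [levK, if_neg h]
    rw [this]
    exact (EuclideanSpace.proj (𝕜 := ℝ) k).contDiff

private lemma lev_deriv {G : En 3 → ℝ} (hG : ContDiff ℝ ∞ G) (i : Fin 3) {p : En 3}
    (h : fderiv ℝ G p (bv i) ≠ 0) :
    ∃ f' : En 3 ≃L[ℝ] En 3, HasFDerivAt (levPhi G i) (f' : En 3 →L[ℝ] En 3) p := by
  have hd : HasFDerivAt (levPhi G i) (fderiv ℝ (levPhi G i) p) p :=
    ((contDiff_levPhi hG i).differentiable (by simp) p).hasFDerivAt
  set D := fderiv ℝ (levPhi G i) p with hD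
  have hcoord : ∀ (a : Fin 3) (v : En 3), (D v) a = if a = i then fderiv ℝ G p v else v a := by
    intro a v
    have h1 : HasFDerivAt (fun x => levPhi G i x a)
        ((EuclideanSpace.proj (𝕜 := ℝ) a : En 3 →L[ℝ] ℝ).comp D) p :=
      (EuclideanSpace.proj (𝕜 := ℝ) a : En 3 →L[ℝ] ℝ).hasFDerivAt.comp p hd
    by_cases ha : a = i
    · have e : (fun x => levPhi G i x a) = G := by
        funext x
        simp [levPhi, ha]
      rw [e] at h1
      have := congrArg (fun L => L v) h1.fderiv
      rw [if_pos ha, this]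
      rfl
    · have e : (fun x => levPhi G i x a) = fun x => x a := by
        funext x
        simp [levPhi, ha]
      rw [e] at h1
      have h2 : HasFDerivAt (fun x : En 3 => x a) (EuclideanSpace.proj (𝕜 := ℝ) a : En 3 →L[ℝ] ℝ) p :=
        (EuclideanSpace.proj (𝕜 := ℝ) a : En 3 →L[ℝ] ℝ).hasFDerivAt
      have := congrArg (fun L => L v) (h1.unique h2)
      rw [if_neg ha]
      exact this
  have hinj : Function.Injective (D : En 3 →ₗ[ℝ] En 3) := by
    rw [← LinearMap.ker_eq_bot, LinearMap.ker_eq_bot']
    intro v hv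
    have hv' : D v = 0 := hv
    have h1 : ∀ a, a ≠ i → v a = 0 := by
      intro a ha
      have := hcoord a v
      rw [hv', if_neg ha] at this
      simpa using this.symm
    have h2 : fderiv ℝ G p v = 0 := by
      have := hcoord i v
      rw [hv', if_pos rfl] at this
      simpa using this.symm
    have hvi : v = v i • (bv i : En 3) := by
      ext a
      by_cases ha : a = i
      · subst ha
        simp [bv]
      · rw [h1 a ha]
        simp [bv, ha]
    rw [hvi, map_smul, smul_eq_mul] at h2
    rcases mul_eq_zero.1 h2 with h3 | h3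
    · rw [hvi, h3, zero_smul]
    · exact absurd h3 h
  refine ⟨(LinearEquiv.ofInjectiveEndo (D : En 3 →ₗ[ℝ] En 3) hinj).toContinuousLinearEquiv, ?_⟩
  have e : (((LinearEquiv.ofInjectiveEndo (D : En 3 →ₗ[ℝ] En 3) hinj).toContinuousLinearEquiv :
      En 3 ≃L[ℝ] En 3) : En 3 →L[ℝ] En 3) = D := by
    ext1 v
    rfl
  rw [e]
  exact hd

private lemma lev_main {G : En 3 → ℝ} (hG : ContDiff ℝ ∞ G) {p : En 3} (i j k : Fin 3)
    (hij : j ≠ i) (hik : k ≠ i) (hjk : k ≠ j) (hall : ∀ a, a = i ∨ a = j ∨ a = k)
    (h : fderiv ℝ G p (bv i) ≠ 0) : ∃ (U : Set (En 2)) (ψ : En 2 → En 3) (O : Set (En 3))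
      (κ : En 3 → En 2), IsChart {q | G q = 0} U ψ O κ ∧ p ∈ O := by
  obtain ⟨O, hO, hpO, hinj, hopen, g, hg, hgl⟩ := sur_ift (contDiff_levPhi hG i)
    (isCompact_singleton (x := p)) (injOn_singleton _ _) (by
      intro x hx
      rw [mem_singleton_iff] at hx
      subst hx
      exact lev_deriv hG i h)
  have hptK : ∀ y : En 3, G y = 0 → levPt i j (levK j k y) = levPhi G i y := by
    intro y hy
    ext a
    rcases hall a with rfl | rfl | rfl
    · simp [levPt, levPhi, hy]
    · simp [levPt, levPhi, levK, hij]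
    · simp [levPt, levPhi, levK, hik, hjk]
  refine ⟨levPt i j ⁻¹' (levPhi G i '' O), fun u => g (levPt i j u), O, levK j k, ?_, hpO rfl⟩
  refine ⟨(hopen O subset_rfl hO).preimage (contDiff_levPt i j).continuous, hO,
    hg.comp (contDiff_levPt i j).contDiffOn (fun u hu => hu), (contDiff_levK j k).contDiffOn,
    ?_, ?_, ?_, ?_⟩
  · rintro u ⟨x, hx, hxu⟩
    show g (levPt i j u) ∈ _
    rw [← hxu, hgl x hx]
    refine ⟨?_, hx⟩
    have h1 : (levPhi G i x) i = (levPt i j u) i := by rw [hxu]
    simpa [levPhi, levPt] using h1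
  · rintro u ⟨x, hx, hxu⟩
    show levK j k (g (levPt i j u)) = u
    rw [← hxu, hgl x hx]
    have h1 : (levPhi G i x) j = (levPt i j u) j := by rw [hxu]
    have h2 : (levPhi G i x) k = (levPt i j u) k := by rw [hxu]
    simp only [levPhi, levPt, if_neg hij, if_neg hik, if_neg hjk, if_true] at h1 h2
    ext a
    fin_cases a
    · simpa [levK] using h1
    · simpa [levK] using h2
  · rintro y ⟨hy, hyO⟩
    refine ⟨y, hyO, ?_⟩
    exact (hptK y hy).symm
  · rintro y ⟨hy, hyO⟩
    show g (levPt i j (levK j k y)) = y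
    rw [hptK y hy, hgl y hyO]

theorem sur_level_chart {G : En 3 → ℝ} (hG : ContDiff ℝ ∞ G) {p : En 3} (hp : G p = 0)
    (h : fderiv ℝ G p ≠ 0) : ∃ (U : Set (En 2)) (ψ : En 2 → En 3) (O : Set (En 3))
      (κ : En 3 → En 2), IsChart {q | G q = 0} U ψ O κ ∧ p ∈ O := by
  have _ := hp
  have hex : ∃ i : Fin 3, fderiv ℝ G p (bv i) ≠ 0 := by
    by_contra hc
    push Not at hc
    apply h
    ext v
    have hv : v = ∑ a, v a • (bv a : En 3) := by
      ext b
      simp [bv, Fin.sum_univ_three]
      fin_cases b <;> simp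
    rw [hv, map_sum]
    simp only [map_smul, hc, smul_zero, Finset.sum_const_zero]
    simp
  obtain ⟨i, hi⟩ := hex
  fin_cases i
  · exact lev_main hG 0 1 2 (by decide) (by decide) (by decide) (by decide) hi
  · exact lev_main hG 1 0 2 (by decide) (by decide) (by decide) (by decide) hi
  · exact lev_main hG 2 0 1 (by decide) (by decide) (by decide) (by decide) hi

end Pool.Agent.EXO
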