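import Mathlib
import Pool.Agent.EXO.SurBeta
import Pool.Agent.EXO.SurLev
import Pool.Agent.EXO.SurRes

/-!
# EXO / SurVol: `N` as an oriented closed submanifold

PROOFS.
* `Sg_chart`: `sur_level_chart` and `Sg_regular`.
* `nAlpha_ne`: `x ∈ N`; charts `ψ j` of `Sg` at `K.pi j x` (`Sg_chart`); `nchart` gives the chart `ψ` of `N`, `x = ψ u`; `q j (ψ v) = ψ j (pr2 j v)` for `v`
  in the open set `U` (`iota_mem`, `hqN`), so by `pull3` and `beta_ne` `pbF ψ nAlpha u = (b 0 b 1 b 2) • top6 ≠ 0` (`top6_co`).  If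
  `FAMap (P x) (nAlpha x) = 0` then `FAMap (fderiv ψ u) (nAlpha x) = 0` by `sur_FAMap_chart`.
* `nAlpha_real`, `nAlpha_deg`, `nAlpha_smooth`: `of1 (bv i)` has real coordinates, `FAMap` of a real map preserves reality (the coefficients of `pbI` are
  real), products of real forms are real (`FA.co_mul`, signs); degrees: `isDeg_mul`, `isDeg_FAMap`.
* `exists_OrN`: `exists_closedSub`, `hgeom`, `hvol`.
-/

set_option autoImplicit false
set_option maxSynthPendingDepth 3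

open Set Filter Topology
open scoped ContDiff

namespace Pool.Agent.EXO

/-- The pull back of the area forms of the three factors. -/
noncomputable def nAlpha (q : Fin 3 → En 7 → En 3) (x : En 7) : FA 7 :=
  pbF (q 0) sBeta x * pbF (q 1) sBeta x * pbF (q 2) sBeta x

/-- Existence of projections and measure (part SUB). -/
def IFgeom : Prop := ∀ V : ClosedSub 6 7, ∃ G : Geo 6 7, G.toClosedSub = V

/-- Existence of the volume form (part SUB). -/
def IFvol : Prop := ∀ (G : Geo 6 7) (α : En 7 → FA 7), ContDiff ℝ ∞ α →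
  (∀ x ∈ G.carrier, ∀ I, (starRingEnd ℂ) ((α x).co I) = (α x).co I) →
  (∀ x ∈ G.carrier, (α x).IsDeg 6) → (∀ x ∈ G.carrier, FAMap (G.P x) (α x) ≠ 0) →
  ∃ V : OrGeo 6 7, V.toGeo = G ∧
    ∀ x ∈ G.carrier, ∃ c : ℝ, 0 < c ∧ FAMap (G.P x) (α x) = (c : ℂ) • V.vol x

theorem Sg_chart : ∀ p ∈ Sg, ∃ (U : Set (En 2)) (ψ : En 2 → En 3) (O : Set (En 3))
    (κ : En 3 → En 2), IsChart Sg U ψ O κ ∧ p ∈ O := fun p hp =>
  sur_level_chart contDiff_srG hp (Sg_regular p hp)

theorem nAlpha_smooth {q : Fin 3 → En 7 → En 3} (hq : ∀ j, ContDiff ℝ ∞ (q j)) :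
    ContDiff ℝ ∞ (nAlpha q) := by
  have h : ∀ j, ContDiff ℝ ∞ (pbF (q j) sBeta) := fun j => contDiff_iff_contDiffAt.2 fun x =>
    contDiffAt_pbF (n := ∞) (hq j).contDiffAt (by simp) contDiff_sBeta.contDiffAt
  exact contDiff_mulFA' (contDiff_mulFA' (h 0) (h 1)) (h 2)

private theorem SurVol_deg2 (p : En 3) : (sBeta p).IsDeg 2 := by
  have h : ∀ a b : Fin 3, (of1 (bv a) * of1 (bv b)).IsDeg 2 := fun a b =>
    isDeg_mul (isDeg_of1 _) (isDeg_of1 _)
  unfold sBeta
  rw [sub_eq_add_neg, ← neg_smul]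
  exact isDeg_add (isDeg_add (isDeg_smul (h _ _) _) (isDeg_smul (h _ _) _)) (isDeg_smul (h _ _) _)

theorem nAlpha_deg (q : Fin 3 → En 7 → En 3) (x : En 7) : (nAlpha q x).IsDeg 6 := by
  have h : ∀ j, (pbF (q j) sBeta x).IsDeg 2 := fun j => isDeg_FAMap (SurVol_deg2 _) _
  exact isDeg_mul (isDeg_mul (h 0) (h 1)) (h 2)

private def SurVolR {m : ℕ} (u : FA m) : Prop :=
  ∀ I : Finset (Fin m), (starRingEnd ℂ) (u.co I) = u.co I

private theorem SurVolR_add {m : ℕ} {u v : FA m} (hu : SurVolR u) (hv : SurVolR v) :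
    SurVolR (u + v) := fun I => by rw [FA.co_add, map_add, hu I, hv I]

private theorem SurVolR_sub {m : ℕ} {u v : FA m} (hu : SurVolR u) (hv : SurVolR v) :
    SurVolR (u - v) := fun I => by rw [FA.co_sub, map_sub, hu I, hv I]

private theorem SurVolR_smul {m : ℕ} {u : FA m} {c : ℂ} (hc : (starRingEnd ℂ) c = c)
    (hu : SurVolR u) : SurVolR (c • u) := fun I => by rw [FA.co_smul, map_mul, hc, hu I]

private theorem SurVolR_mul {m : ℕ} {u v : FA m} (hu : SurVolR u) (hv : SurVolR v) :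
    SurVolR (u * v) := fun I => by
  rw [FA.co_mul, map_sum]
  refine Finset.sum_congr rfl fun J _ => ?_
  rw [map_mul, map_mul, hu, hv]
  congr 2
  unfold sgJ
  rw [map_pow, map_neg, map_one]

private theorem SurVolR_one {m : ℕ} : SurVolR (1 : FA m) := fun I => by
  rw [FA.co_one]
  split_ifs <;> simp

private theorem SurVolR_zero {m : ℕ} : SurVolR (0 : FA m) := fun I => by
  rw [FA.co_zero, map_zero]

private theorem SurVolR_sum {m : ℕ} {α : Type*} (s : Finset α) {f : α → FA m}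
    (h : ∀ a ∈ s, SurVolR (f a)) : SurVolR (∑ a ∈ s, f a) := by
  classical
  induction s using Finset.induction_on with
  | empty => simpa using SurVolR_zero
  | insert a s ha ih =>
    rw [Finset.sum_insert ha]
    exact SurVolR_add (h a (Finset.mem_insert_self a s))
      (ih fun b hb => h b (Finset.mem_insert_of_mem hb))

private theorem SurVolR_of1 {m : ℕ} (v : En m) : SurVolR (of1 v) := by
  unfold of1
  refine SurVolR_sum _ fun a _ => SurVolR_smul (Complex.conj_ofReal _) fun I => ?_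
  rw [FA.co_mk]
  split_ifs <;> simp

private theorem SurVolR_prod {m : ℕ} (L : List (FA m)) (h : ∀ u ∈ L, SurVolR u) :
    SurVolR L.prod := by
  induction L with
  | nil => simpa using SurVolR_one
  | cons a L ih =>
    rw [List.prod_cons]
    exact SurVolR_mul (h a (List.mem_cons_self ..)) (ih fun u hu => h u (List.mem_cons_of_mem _ hu))

private theorem SurVolR_FAMap {k m : ℕ} (L : En k →L[ℝ] En m) {u : FA m} (hu : SurVolR u) :
    SurVolR (FAMap L u) := by
  unfold FAMap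
  refine SurVolR_sum _ fun I _ => SurVolR_smul (hu I) ?_
  unfold pbI
  refine SurVolR_prod _ fun v hv => ?_
  obtain ⟨b, -, rfl⟩ := List.mem_map.1 hv
  exact SurVolR_of1 _

private theorem SurVolR_beta (p : En 3) : SurVolR (sBeta p) := by
  have h : ∀ a b : Fin 3, SurVolR (of1 (bv a) * of1 (bv b)) := fun a b =>
    SurVolR_mul (SurVolR_of1 _) (SurVolR_of1 _)
  unfold sBeta
  exact SurVolR_add (SurVolR_sub (SurVolR_smul (Complex.conj_ofReal _) (h _ _))
    (SurVolR_smul (Complex.conj_ofReal _) (h _ _))) (SurVolR_smul (Complex.conj_ofReal _) (h _ _))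

theorem nAlpha_real (q : Fin 3 → En 7 → En 3) (x : En 7) (I : Finset (Fin 7)) :
    (starRingEnd ℂ) ((nAlpha q x).co I) = (nAlpha q x).co I := by
  have h : ∀ j, SurVolR (pbF (q j) sBeta x) := fun j => SurVolR_FAMap _ (SurVolR_beta _)
  exact SurVolR_mul (SurVolR_mul (h 0) (h 1)) (h 2) I

theorem nAlpha_ne (K : SCol Sg) (G : Geo 6 7) (hG : G.carrier = K.N) {q : Fin 3 → En 7 → En 3}
    (hq : ∀ j, ContDiff ℝ ∞ (q j)) (hqN : ∀ j, ∀ n ∈ K.N, q j n = K.pi j n) {x : En 7}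
    (hx : x ∈ G.carrier) : FAMap (G.P x) (nAlpha q x) ≠ 0 := by
  have h0 : (0 : ℝ) ∈ Ioo (-1 : ℝ) 1 := by norm_num
  have hx' : x ∈ K.N := by rw [← hG]; exact hx
  choose U ψ O κ h1 h2 using fun j => Sg_chart (K.pi j x) ((K.iota_pi hx'.1).1 j)
  have hc := K.nchart h1
  obtain ⟨u, hu⟩ : ∃ u, u = jn2 (fun j => κ j (K.pi j x)) := ⟨_, rfl⟩
  have huU : ∀ j, pr2 j u ∈ U j := by
    rw [hu]
    exact hc.mapsκ x ⟨hx', hx'.1, h2⟩
  have hΨ : K.iota (fun j => ψ j (pr2 j u)) 0 = x := by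
    rw [hu]
    exact hc.right x ⟨hx', hx'.1, h2⟩
  choose b hb0 hb using fun j => beta_ne (h1 j) (huU j)
  have key : pbF (fun u => K.iota (fun j => ψ j (pr2 j u)) 0) (nAlpha q) u =
      (((b 0 : ℝ) : ℂ) * ((b 1 : ℝ) : ℂ) * ((b 2 : ℝ) : ℂ)) • top6 := by
    refine pull3 (ψ := fun u => K.iota (fun j => ψ j (pr2 j u)) 0) (q := q) (φ := ψ)
      (β := fun _ => sBeta) (b := fun j => ((b j : ℝ) : ℂ)) ?_ ?_ ?_ ?_ hb
    · exact (hc.smoothψ.contDiffAt (hc.openU.mem_nhds huU)).differentiableAt (by simp)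
    · exact fun j => (hq j).contDiffAt.differentiableAt (by simp)
    · exact fun j => ((h1 j).smoothψ.contDiffAt ((h1 j).openU.mem_nhds (huU j))).differentiableAt
        (by simp)
    · intro j
      filter_upwards [hc.openU.mem_nhds huU] with v hv
      have h3 := K.iota_mem (q := fun j => ψ j (pr2 j v)) (fun j => ((h1 j).maps _ (hv j)).1) h0
      rw [hqN j _ ⟨h3.1, h3.2.2⟩]
      exact h3.2.1 j
  intro hzero
  have hc' : IsChart G.carrier {u | ∀ j, pr2 j u ∈ U j}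
      (fun u => K.iota (fun j => ψ j (pr2 j u)) 0) {w | w ∈ K.O ∧ ∀ j, K.pi j w ∈ O j}
      (fun w => jn2 fun j => κ j (K.pi j w)) := by
    rw [hG]
    exact hc
  have h4 : pbF (fun u => K.iota (fun j => ψ j (pr2 j u)) 0) (nAlpha q) u = 0 := by
    have h5 := (sur_FAMap_chart G hc' huU (a := nAlpha q x) (b := 0)).2 (by
      rw [hΨ, hzero, FAMap_zero])
    rw [FAMap_zero, ← hΨ] at h5
    exact h5
  rw [key] at h4
  have h6 := congrArg (fun w : FA 6 => w.co Finset.univ) h4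
  simp only [FA.co_smul, top6_co, FA.co_zero, mul_one] at h6
  have h7 : b 0 * b 1 * b 2 = 0 := by exact_mod_cast h6
  exact mul_ne_zero (mul_ne_zero (hb0 0) (hb0 1)) (hb0 2) h7

theorem exists_OrN (hgeom : IFgeom) (hvol : IFvol) (K : SCol Sg) {q : Fin 3 → En 7 → En 3}
    (hq : ∀ j, ContDiff ℝ ∞ (q j)) (hqN : ∀ j, ∀ n ∈ K.N, q j n = K.pi j n) :
    ∃ V : OrGeo 6 7, V.carrier = K.N ∧ ∀ x ∈ V.carrier, ∃ c : ℝ, 0 < c ∧
      FAMap (V.P x) (nAlpha q x) = (c : ℂ) • V.vol x := by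
  obtain ⟨V0, hV0⟩ := K.exists_closedSub Sg_compact Sg_chart
  obtain ⟨G, hG⟩ := hgeom V0
  have hGc : G.carrier = K.N := by rw [hG, hV0]
  obtain ⟨V, hV, h⟩ := hvol G (nAlpha q) (nAlpha_smooth hq) (fun x _ I => nAlpha_real q x I)
    (fun x _ => nAlpha_deg q x) (fun x hx => nAlpha_ne K G hGc hq hqN hx)
  subst hV
  exact ⟨V, hGc, h⟩

end Pool.Agent.EXO
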