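import Mathlib
import Pool.Agent.EXO.SurVol
import Pool.Agent.EXO.SurFub
import Pool.Agent.EXO.SurIc

/-!
# EXO / SurInt: the integral over `N` of a product form with support in the product charts

PROOFS.  For `a : Fin 3 → Fin 2` let `NO a = {w | w ∈ K.O ∧ ∀ j, K.pi j w ∈ ch2O (a j)}` (open), `NU a = {u | ∀ j, pr2 j u ∈ ch2U (a j)}`,
`Nψ a u = K.iota (fun j => ch2ψ (a j) (pr2 j u)) 0` (`nchart` with `isChart2`).
* `int_one`: `sur_setInt_chart` for this chart, `eps = ∏ j, ch2s (a j)`: the hypothesis on `vol`: at `x = Nψ u` `FAMap (P x) (nAlpha x) = c • vol x`, so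
  `(pbF Nψ vol u) = c⁻¹ • pbF Nψ nAlpha u` (`FAMap (D Nψ) ∘ FAMap (P x) = FAMap (D Nψ)`) `= c⁻¹ (b 0 b 1 b 2) • top6` (`pull3`, `beta_ch2`), `top6_co`.
  The integrand: `pbF Nψ om u` depends only on `FAMap (P x) (om x)` (`sur_FAMap_chart`), which is given by `h1`; `pull3` and `pb_dxdz`:
  `(pbF Nψ om u).co univ = c0 * ∏ j, k (a j) (ch2ψ (a j) (pr2 j u))`.  Then `sur_fubini`.
* `N_int`: the sets `NO a` are pairwise disjoint (`ch2O_disjoint`); outside of their union the integrand `⟪vol x, om x⟫` vanishes on `N`: `h0`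
  (if `x ∈ N` is in no `NO a` then some `q j x = K.pi j x` lies in no `ch2O a`), because `⟪vol x, om x⟫ = ⟪vol x, FAMap (P x) (om x)⟫`
  (`sur_inner_vol`).  So `∫ ⟪vol, om⟫ dμ = ∑ a, ∫_{NO a} ⟪vol, om⟫ dμ` (indicator functions; the integrand is integrable:
  `Geo.integrable` of SuInt).  Sum over `a : Fin 3 → Fin 2` of a product = product of sums (`Finset.prod_univ_sum`, `Fintype.piFinset_univ`).
-/

set_option autoImplicit false
set_option maxSynthPendingDepth 3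

open Set MeasureTheory
open scoped ContDiff

namespace Pool.Agent.EXO

/-- The product chart. -/
def NO (K : SCol Sg) (a : Fin 3 → Fin 2) : Set (En 7) :=
  {w | w ∈ K.O ∧ ∀ j, K.pi j w ∈ ch2O (a j)}

private def siNU (a : Fin 3 → Fin 2) : Set (En 6) := {u | ∀ j, pr2 j u ∈ ch2U (a j)}

private noncomputable def siψ (K : SCol Sg) (a : Fin 3 → Fin 2) (u : En 6) : En 7 :=
  K.iota (fun j => ch2ψ (a j) (pr2 j u)) 0

private theorem si_chart (K : SCol Sg) (a : Fin 3 → Fin 2) :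
    IsChart K.N (siNU a) (siψ K a) (NO K a) (fun w => jn2 fun j => ch2κ (K.pi j w)) :=
  K.nchart (fun j => isChart2 (a j))

private theorem si_pi (K : SCol Sg) (a : Fin 3 → Fin 2) {u : En 6} (hu : u ∈ siNU a) (j : Fin 3) :
    K.pi j (siψ K a u) = ch2ψ (a j) (pr2 j u) :=
  (K.iota_mem (q := fun j => ch2ψ (a j) (pr2 j u))
      (fun j => ((isChart2 (a j)).maps _ (hu j)).1) (by norm_num)).2.1 j

private theorem si_sq (a : Fin 2) : ch2s a * ch2s a = 1 := by
  unfold ch2s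
  split_ifs <;> norm_num

private theorem si_pull (K : SCol Sg) {q : Fin 3 → En 7 → En 3} (hq : ∀ j, ContDiff ℝ ∞ (q j))
    (hqN : ∀ j, ∀ n ∈ K.N, q j n = K.pi j n) (a : Fin 3 → Fin 2) {u : En 6} (hu : u ∈ siNU a)
    {β : Fin 3 → En 3 → FA 3} {b : Fin 3 → ℂ}
    (hb : ∀ j, pbF (ch2ψ (a j)) (β j) (pr2 j u) = b j • (of1 (bv 0) * of1 (bv 1))) :
    pbF (siψ K a) (fun x => pbF (q 0) (β 0) x * pbF (q 1) (β 1) x * pbF (q 2) (β 2) x) u
      = (b 0 * b 1 * b 2) • top6 := by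
  have hc := si_chart K a
  refine pull3 (φ := fun j => ch2ψ (a j)) (hc.differentiableAt_ψ hu)
    (fun j => (hq j).differentiable (by simp) _)
    (fun j => (isChart2 (a j)).differentiableAt_ψ (hu j)) (fun j => ?_) hb
  filter_upwards [hc.openU.mem_nhds hu] with v hv
  rw [hqN j _ (hc.mem_V hv)]
  exact si_pi K a hv j

private theorem si_idem (V : OrGeo 6 7) {x : En 7} (hx : x ∈ V.carrier) (w : FA 7) :
    FAMap (V.P x) (FAMap (V.P x) w) = FAMap (V.P x) w := by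
  rw [← FAMap_comp]
  congr 1
  ext v : 1
  exact V.P_idem x hx v

theorem int_one (K : SCol Sg) {q : Fin 3 → En 7 → En 3} (hq : ∀ j, ContDiff ℝ ∞ (q j))
    (hqN : ∀ j, ∀ n ∈ K.N, q j n = K.pi j n) (V : OrGeo 6 7) (hV : V.carrier = K.N)
    (hvol : ∀ x ∈ V.carrier, ∃ c : ℝ, 0 < c ∧
      FAMap (V.P x) (nAlpha q x) = (c : ℂ) • V.vol x)
    {om : En 7 → FA 7} (hom : ContDiff ℝ ∞ om) (c0 : ℂ) (k : Fin 2 → En 3 → ℂ)
    (a : Fin 3 → Fin 2)
    (h1 : ∀ x ∈ V.carrier, (∀ j, q j x ∈ ch2O (a j)) →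
      FAMap (V.P x) (om x) = FAMap (V.P x) (c0 •
        (pbF (q 0) (fun p => k (a 0) p • (of1 (bv 0) * of1 (bv 2))) x *
          pbF (q 1) (fun p => k (a 1) p • (of1 (bv 0) * of1 (bv 2))) x *
          pbF (q 2) (fun p => k (a 2) p • (of1 (bv 0) * of1 (bv 2))) x))) :
    ∫ x in NO K a, inner ℂ (V.vol x) (om x) ∂V.μ
      = c0 * ∏ j, ((ch2s (a j) : ℂ) * ∫ u in ch2U (a j), k (a j) (ch2ψ (a j) u)) := by
  have hc := si_chart K a
  have hcV : IsChart V.carrier (siNU a) (siψ K a) (NO K a)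
      (fun w => jn2 fun j => ch2κ (K.pi j w)) := by rw [hV]; exact hc
  set eps : ℝ := ch2s (a 0) * ch2s (a 1) * ch2s (a 2) with heps
  have he : eps = 1 ∨ eps = -1 := by
    have h2 : ∀ b : Fin 2, ch2s b = 1 ∨ ch2s b = -1 := by
      intro b
      unfold ch2s
      split_ifs
      · exact Or.inr rfl
      · exact Or.inl rfl
    rcases h2 (a 0) with e0 | e0 <;> rcases h2 (a 1) with e1 | e1 <;>
      rcases h2 (a 2) with e2 | e2 <;> rw [heps, e0, e1, e2] <;> norm_num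
  have hv : ∀ u ∈ siNU a, ∃ c : ℝ, 0 < c ∧
      (pbF (siψ K a) V.vol u).co Finset.univ = ((eps * c : ℝ) : ℂ) := by
    intro u hu
    have hx : siψ K a u ∈ V.carrier := hcV.mem_V hu
    obtain ⟨c, hc0, hcv⟩ := hvol _ hx
    choose b hb1 hb2 using fun j => beta_ch2 (a j) (hu j)
    have hp := si_pull K hq hqN a hu (β := fun _ => sBeta) (b := fun j => (b j : ℂ)) hb2
    have e1 : V.vol (siψ K a u) = ((c : ℂ))⁻¹ • FAMap (V.P (siψ K a u)) (nAlpha q (siψ K a u)) := by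
      rw [hcv, smul_smul, inv_mul_cancel₀ (by exact_mod_cast hc0.ne'), one_smul]
    have e2 : FAMap (fderiv ℝ (siψ K a) u) (FAMap (V.P (siψ K a u)) (nAlpha q (siψ K a u))) =
        FAMap (fderiv ℝ (siψ K a) u) (nAlpha q (siψ K a u)) :=
      (sur_FAMap_chart V.toGeo hcV hu).2 (si_idem V hx _)
    have e3 : pbF (siψ K a) V.vol u = ((c : ℂ))⁻¹ • (((b 0 : ℂ) * b 1 * b 2) • top6) := by
      unfold pbF
      rw [e1, FAMap_smul, e2]
      congr 1
    refine ⟨c⁻¹ * ((ch2s (a 0) * b 0) * (ch2s (a 1) * b 1) * (ch2s (a 2) * b 2)), ?_, ?_⟩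
    · have := hb1 0
      have := hb1 1
      have := hb1 2
      positivity
    · rw [e3, FA.co_smul, FA.co_smul, top6_co, mul_one]
      have e4 : eps * (c⁻¹ * ((ch2s (a 0) * b 0) * (ch2s (a 1) * b 1) * (ch2s (a 2) * b 2))) =
          (ch2s (a 0) * ch2s (a 0)) * (ch2s (a 1) * ch2s (a 1)) * (ch2s (a 2) * ch2s (a 2)) *
            (c⁻¹ * (b 0 * b 1 * b 2)) := by
        rw [heps]
        ring
      rw [e4, si_sq, si_sq, si_sq]
      push_cast
      ring
  rw [sur_setInt_chart V hcV he hv hom]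
  have hint : ∫ u in siNU a, (pbF (siψ K a) om u).co Finset.univ =
      c0 * ((∫ u in ch2U (a 0), k (a 0) (ch2ψ (a 0) u)) * (∫ u in ch2U (a 1), k (a 1) (ch2ψ (a 1) u))
        * ∫ u in ch2U (a 2), k (a 2) (ch2ψ (a 2) u)) := by
    have hfub := sur_fubini (fun j => ch2U (a j)) (fun j u => k (a j) (ch2ψ (a j) u))
    rw [← hfub, ← integral_const_mul]
    refine setIntegral_congr_fun hcV.openU.measurableSet fun u hu => ?_
    have hx : siψ K a u ∈ V.carrier := hcV.mem_V hu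
    have hxN : siψ K a u ∈ K.N := hc.mem_V hu
    have hqO : ∀ j, q j (siψ K a u) ∈ ch2O (a j) := by
      intro j
      rw [hqN j _ hxN, si_pi K a hu j]
      exact (isChart2 (a j)).mem_O (hu j)
    have e1 := (sur_FAMap_chart V.toGeo hcV hu).2 (h1 _ hx hqO)
    have hp := si_pull K hq hqN a hu
      (β := fun j p => k (a j) p • (of1 (bv 0) * of1 (bv 2)))
      (b := fun j => k (a j) (ch2ψ (a j) (pr2 j u))) (fun j => pb_dxdz (a j) (k (a j)) (hu j))
    have e2 : pbF (siψ K a) om u = c0 • ((k (a 0) (ch2ψ (a 0) (pr2 0 u)) *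
        k (a 1) (ch2ψ (a 1) (pr2 1 u)) * k (a 2) (ch2ψ (a 2) (pr2 2 u))) • top6) := by
      rw [← hp]
      unfold pbF at e1 ⊢
      rw [e1, FAMap_smul]
    rw [e2, FA.co_smul, FA.co_smul, top6_co, mul_one]
  rw [hint, Fin.prod_univ_three, heps]
  push_cast
  ring

theorem N_int (K : SCol Sg) {q : Fin 3 → En 7 → En 3} (hq : ∀ j, ContDiff ℝ ∞ (q j))
    (hqN : ∀ j, ∀ n ∈ K.N, q j n = K.pi j n) (V : OrGeo 6 7) (hV : V.carrier = K.N)
    (hvol : ∀ x ∈ V.carrier, ∃ c : ℝ, 0 < c ∧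
      FAMap (V.P x) (nAlpha q x) = (c : ℂ) • V.vol x)
    {om : En 7 → FA 7} (hom : ContDiff ℝ ∞ om) (c0 : ℂ) (k : Fin 2 → En 3 → ℂ)
    (h0 : ∀ x ∈ V.carrier, (∃ j, ∀ a, q j x ∉ ch2O a) → FAMap (V.P x) (om x) = 0)
    (h1 : ∀ a : Fin 3 → Fin 2, ∀ x ∈ V.carrier, (∀ j, q j x ∈ ch2O (a j)) →
      FAMap (V.P x) (om x) = FAMap (V.P x) (c0 •
        (pbF (q 0) (fun p => k (a 0) p • (of1 (bv 0) * of1 (bv 2))) x *
          pbF (q 1) (fun p => k (a 1) p • (of1 (bv 0) * of1 (bv 2))) x *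
          pbF (q 2) (fun p => k (a 2) p • (of1 (bv 0) * of1 (bv 2))) x))) :
    V.int om = c0 * (∑ a : Fin 2, (ch2s a : ℂ) * ∫ u in ch2U a, k a (ch2ψ a u)) ^ 3 := by
  classical
  have hopen : ∀ a : Fin 3 → Fin 2, IsOpen (NO K a) := fun a => (si_chart K a).openO
  have hdisj : Pairwise (Function.onFun Disjoint (NO K)) := by
    intro a b hab
    rw [Function.onFun, Set.disjoint_left]
    intro w hwa hwb
    obtain ⟨j, hj⟩ := Function.ne_iff.1 hab
    have h2 := hwa.2 j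
    have h3 := hwb.2 j
    have hd : ∀ s t : Fin 2, s ≠ t → Disjoint (ch2O s) (ch2O t) := by
      intro s t hst
      fin_cases s <;> fin_cases t
      · exact absurd rfl hst
      · exact ch2O_disjoint
      · exact ch2O_disjoint.symm
      · exact absurd rfl hst
    exact Set.disjoint_left.1 (hd _ _ hj) h2 h3
  have hf : ContinuousOn (fun x => inner ℂ (V.vol x) (om x)) V.carrier :=
    (V.smooth_vol.continuous.inner hom.continuous).continuousOn
  have hint : Integrable (fun x => inner ℂ (V.vol x) (om x)) V.μ := V.toGeo.integrable hf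
  have hzero : ∀ x ∈ V.carrier, x ∉ (⋃ a : Fin 3 → Fin 2, NO K a) →
      inner ℂ (V.vol x) (om x) = 0 := by
    intro x hx hxn
    have hxN : x ∈ K.N := by rw [← hV]; exact hx
    rw [← sur_inner_vol V hx, h0 x hx, inner_zero_right]
    by_contra hcon
    push Not at hcon
    choose a ha using hcon
    apply hxn
    rw [Set.mem_iUnion]
    refine ⟨a, hxN.1, fun j => ?_⟩
    rw [← hqN j x hxN]
    exact ha j
  have hV1 : V.int om = ∫ x in ⋃ a : Fin 3 → Fin 2, NO K a, inner ℂ (V.vol x) (om x) ∂V.μ := by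
    unfold OrGeo.int
    rw [setIntegral_eq_integral_of_ae_compl_eq_zero]
    filter_upwards [V.toGeo.ae_mem] with x hx hxn
    exact hzero x hx hxn
  rw [hV1, integral_iUnion_fintype (fun a => (hopen a).measurableSet) hdisj
    (fun a => hint.integrableOn)]
  rw [Finset.sum_congr rfl fun a _ => int_one K hq hqN V hV hvol hom c0 k a (h1 a),
    ← Finset.mul_sum]
  congr 1
  have h2 := (Finset.prod_univ_sum (fun _ : Fin 3 => (Finset.univ : Finset (Fin 2)))
    (fun _ a => (ch2s a : ℂ) * ∫ u in ch2U a, k a (ch2ψ a u)))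
  rw [Fintype.piFinset_univ, Finset.prod_const, Finset.card_univ, Fintype.card_fin] at h2
  exact h2.symm

end Pool.Agent.EXO
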