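import Mathlib

/-!
# EXO / SurAlg8: the product of three differences of exponentials
-/

set_option autoImplicit false
set_option maxSynthPendingDepth 3

namespace Pool.Agent.EXO

/-- The sign of an index. -/
def sg8 (k : Fin 2) : ℂ := if k = 0 then 1 else -1

private lemma alg8_two {R : Type} [Ring R] (u v w : R) (huv : u * v = v * u)
    (huw : u * w = w * u) (hvw : v * w = w * v) (hu : u * u = 0) (hv : v * v = 0)
    (hw : w * w = 0) : (u + v + w) ^ 2 = 2 * (u * v) + 2 * (u * w) + 2 * (v * w) := by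
  have e : (u + v + w) ^ 2 = u * u + v * v + w * w + (u * v + v * u) + (u * w + w * u)
      + (v * w + w * v) := by noncomm_ring
  rw [e, hu, hv, hw, ← huv, ← huw, ← hvw]
  noncomm_ring

private lemma alg8_three {R : Type} [Ring R] (u v w : R) (huv : u * v = v * u)
    (huw : u * w = w * u) (hvw : v * w = w * v) (hu : u * u = 0) (hv : v * v = 0)
    (hw : w * w = 0) : (u + v + w) ^ 3 = 6 * (u * v * w) := by
  rw [pow_succ, alg8_two u v w huv huw hvw hu hv hw]
  have e1 : u * v * u = 0 := by rw [mul_assoc, ← huv, ← mul_assoc, hu, zero_mul]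
  have e2 : u * v * v = 0 := by rw [mul_assoc, hv, mul_zero]
  have e3 : u * w * u = 0 := by rw [mul_assoc, ← huw, ← mul_assoc, hu, zero_mul]
  have e4 : u * w * v = u * v * w := by rw [mul_assoc, ← hvw, ← mul_assoc]
  have e5 : u * w * w = 0 := by rw [mul_assoc, hw, mul_zero]
  have e6 : v * w * u = u * v * w := by rw [mul_assoc, ← huw, ← mul_assoc, ← huv]
  have e7 : v * w * v = 0 := by rw [mul_assoc, ← hvw, ← mul_assoc, hv, zero_mul]
  have e8 : v * w * w = 0 := by rw [mul_assoc, hw, mul_zero]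
  have e : (2 * (u * v) + 2 * (u * w) + 2 * (v * w)) * (u + v + w) =
      2 * (u * v * u) + 2 * (u * v * v) + 2 * (u * v * w) + 2 * (u * w * u) + 2 * (u * w * v)
      + 2 * (u * w * w) + 2 * (v * w * u) + 2 * (v * w * v) + 2 * (v * w * w) := by
    noncomm_ring
  rw [e, e1, e2, e3, e4, e5, e6, e7, e8]
  noncomm_ring

private lemma alg8_four {R : Type} [Ring R] (u v w : R) (huv : u * v = v * u)
    (huw : u * w = w * u) (hvw : v * w = w * v) (hu : u * u = 0) (hv : v * v = 0)
    (hw : w * w = 0) (n : ℕ) (hn : 4 ≤ n) : (u + v + w) ^ n = 0 := by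
  have h4 : (u + v + w) ^ 4 = 0 := by
    rw [pow_succ, alg8_three u v w huv huw hvw hu hv hw]
    have e1 : u * v * w * u = 0 := by
      rw [mul_assoc, ← huw, ← mul_assoc, mul_assoc u v u, ← huv, ← mul_assoc, hu, zero_mul,
        zero_mul]
    have e2 : u * v * w * v = 0 := by
      rw [mul_assoc, ← hvw, ← mul_assoc, mul_assoc u v v, hv, mul_zero, zero_mul]
    have e3 : u * v * w * w = 0 := by rw [mul_assoc, hw, mul_zero]
    rw [mul_assoc, mul_add, mul_add (u * v * w) u v, e1, e2, e3]
    simp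
  obtain ⟨k, rfl⟩ : ∃ k, n = 4 + k := ⟨n - 4, by omega⟩
  rw [pow_add, h4, zero_mul]

theorem sur_alg8 {R : Type} [Ring R] [Algebra ℂ R] (a b c : R) (hab : a * b = b * a)
    (hac : a * c = c * a) (hbc : b * c = c * b) (ha : a * a = 0) (hb : b * b = 0)
    (hc : c * c = 0) (n : ℕ) :
    ∑ p : (Fin 2 × Fin 2) × Fin 2, (sg8 p.1.1 * sg8 p.1.2 * sg8 p.2) •
      (sg8 p.1.1 • a + sg8 p.1.2 • b + sg8 p.2 • c) ^ n
      = if n = 3 then (48 : ℂ) • (a * b * c) else 0 := by
  have hs : ∀ (x y z : ℂ), (x • a * y • b = y • b * x • a) ∧ (x • a * z • c = z • c * x • a) ∧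
      (y • b * z • c = z • c * y • b) ∧ (x • a * x • a = 0) ∧ (y • b * y • b = 0) ∧
      (z • c * z • c = 0) := by
    intro x y z
    simp only [smul_mul_smul_comm, hab, hac, hbc, ha, hb, hc, smul_zero, mul_comm y x,
      mul_comm z x, mul_comm z y, and_self]
  have sq : ∀ k : Fin 2, sg8 k * sg8 k = 1 := by
    intro k
    fin_cases k <;> simp [sg8]
  rcases Nat.lt_or_ge n 4 with hn | hn
  · interval_cases n
    · simp [Fintype.sum_prod_type, Fin.sum_univ_two, sg8]
    · simp only [Fintype.sum_prod_type, Fin.sum_univ_two, sg8, pow_one]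
      norm_num
      module
    · have : ∀ p : (Fin 2 × Fin 2) × Fin 2, (sg8 p.1.1 * sg8 p.1.2 * sg8 p.2) •
        (sg8 p.1.1 • a + sg8 p.1.2 • b + sg8 p.2 • c) ^ 2 =
        (2 * sg8 p.2) • (a * b) + (2 * sg8 p.1.2) • (a * c) + (2 * sg8 p.1.1) • (b * c) := by
        intro p
        obtain ⟨h1, h2, h3, h4, h5, h6⟩ := hs (sg8 p.1.1) (sg8 p.1.2) (sg8 p.2)
        rw [alg8_two _ _ _ h1 h2 h3 h4 h5 h6]
        simp only [smul_mul_smul_comm, smul_add, two_mul, smul_smul]
        have q1 := sq p.1.1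
        have q2 := sq p.1.2
        have q3 := sq p.2
        generalize sg8 p.1.1 = x at *
        generalize sg8 p.1.2 = y at *
        generalize sg8 p.2 = z at *
        have r1 : x * y * z * (x * y) = z := by linear_combination (z * y * y) * q1 + z * q2
        have r2 : x * y * z * (x * z) = y := by linear_combination (y * z * z) * q1 + y * q3
        have r3 : x * y * z * (y * z) = x := by linear_combination (x * z * z) * q2 + x * q3
        rw [r1, r2, r3]
        module
      simp_rw [this]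
      simp only [Fintype.sum_prod_type, Fin.sum_univ_two, sg8]
      norm_num
      module
    · have : ∀ p : (Fin 2 × Fin 2) × Fin 2, (sg8 p.1.1 * sg8 p.1.2 * sg8 p.2) •
        (sg8 p.1.1 • a + sg8 p.1.2 • b + sg8 p.2 • c) ^ 3 = (6 : ℂ) • (a * b * c) := by
        intro p
        obtain ⟨h1, h2, h3, h4, h5, h6⟩ := hs (sg8 p.1.1) (sg8 p.1.2) (sg8 p.2)
        rw [alg8_three _ _ _ h1 h2 h3 h4 h5 h6]
        have q1 := sq p.1.1
        have q2 := sq p.1.2
        have q3 := sq p.2
        generalize sg8 p.1.1 = x at *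
        generalize sg8 p.1.2 = y at *
        generalize sg8 p.2 = z at *
        have h6 : (6 : R) * (x • a * y • b * z • c) = (6 : ℂ) • (x • a * y • b * z • c) := by
          rw [Algebra.smul_def (6 : ℂ), map_ofNat]
        rw [h6]
        simp only [smul_mul_smul_comm, smul_smul]
        congr 1
        linear_combination (6 * y * y * z * z) * q1 + (6 * z * z) * q2 + 6 * q3
      simp_rw [this]
      rw [Finset.sum_const, Finset.card_univ]
      simp only [Fintype.card_prod, Fintype.card_fin, if_true]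
      rw [← Nat.cast_smul_eq_nsmul ℂ, smul_smul]
      norm_num
  · rw [if_neg (by omega)]
    refine Finset.sum_eq_zero fun p _ => ?_
    obtain ⟨h1, h2, h3, h4, h5, h6⟩ := hs (sg8 p.1.1) (sg8 p.1.2) (sg8 p.2)
    rw [alg8_four _ _ _ h1 h2 h3 h4 h5 h6 n hn, smul_zero]

end Pool.Agent.EXO
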