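import Mathlib
import Pool.Agent.EXO.DefC
import Pool.Agent.EXO.SuTanB

/-!
# EXO / SurMat: calculus for functions with values in rectangular matrices

Everything is entrywise: `SmM A x` (all entries are smooth at `x`), `dmat A x v` (the matrix of the derivatives
of the entries in the direction `v`).

PROOFS.
* `SmM.mul` etc.: the entries of `A y * B y` are finite sums of products (`Matrix.mul_apply`, `ContDiffAt.sum`,
  `ContDiffAt.mul`).  `SmM.conj`: `(A y)ᴴ i j = star (A y j i)` and `starRingEnd ℂ` is a continuous real linear map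
  (`Complex.conjCLE.contDiff`).
* `dmat_mul`: `fderiv` of a finite sum of products; `fderiv_fun_sum`, `fderiv_fun_mul` (the entries are
  differentiable at `x` because they are smooth).
* `dmat_conj`: chain rule with `Complex.conjCLE`.
* `dmat_congr`: `Filter.EventuallyEq.fderiv_eq` entrywise.
* `dmat_add`, `dmat_smul`, `dmat_sum`: `fderiv` is linear.
* `SmM.dmat`: `fderiv` of a smooth function is smooth (`ContDiffAt.fderiv_right`), applied to a constant vector.
* `dmat_symm`: symmetry of the second derivative (`ContDiffAt.isSymmSndFDerivAt`), entrywise;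
  `fderiv ℝ (fun y => fderiv ℝ f y w) x v = fderiv ℝ (fderiv ℝ f) x v w`.
* `dmat_tan`: `Geo.fderiv_tan` (file SuTan) entrywise.
* `fderiv_eq_dmat`: for a differentiable matrix valued function the entries of the derivative are the derivatives of the
  entries (evaluation at `(i, j)` is a continuous linear map).
* `contDiff_mat`, `contDiffAt_mat`: `contDiff_pi` twice.
-/

set_option autoImplicit false
set_option maxSynthPendingDepth 3
set_option linter.unusedSectionVars false

open Set Filter Topology Matrix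
open scoped ContDiff

namespace Pool.Agent.EXO

variable {m : ℕ} {ι κ μ : Type} [Fintype ι] [Fintype κ] [Fintype μ] [DecidableEq ι]
  [DecidableEq κ] [DecidableEq μ]

/-- The entries of `A` are smooth at `x`. -/
def SmM {m : ℕ} {ι κ : Type} (A : En m → Matrix ι κ ℂ) (x : En m) : Prop :=
  ∀ i j, ContDiffAt ℝ ∞ (fun y => A y i j) x

/-- The derivative of a matrix valued function in the direction `v`. -/
noncomputable def dmat {m : ℕ} {ι κ : Type} (A : En m → Matrix ι κ ℂ) (x v : En m) :
    Matrix ι κ ℂ := Matrix.of fun i j => fderiv ℝ (fun y => A y i j) x v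

theorem SmM.const (C : Matrix ι κ ℂ) (x : En m) : SmM (fun _ => C) x :=
  fun _ _ => contDiffAt_const

theorem SmM.add {A B : En m → Matrix ι κ ℂ} {x : En m} (hA : SmM A x) (hB : SmM B x) :
    SmM (fun y => A y + B y) x := by
  intro i j
  simpa using (hA i j).add (hB i j)

theorem SmM.neg {A : En m → Matrix ι κ ℂ} {x : En m} (hA : SmM A x) :
    SmM (fun y => -A y) x := by
  intro i j
  simpa using (hA i j).neg

theorem SmM.smul {A : En m → Matrix ι κ ℂ} {x : En m} (c : ℂ) (hA : SmM A x) :
    SmM (fun y => c • A y) x := by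
  intro i j
  simpa using (contDiffAt_const (c := c)).mul (hA i j)

theorem SmM.mul {A : En m → Matrix ι κ ℂ} {B : En m → Matrix κ μ ℂ} {x : En m}
    (hA : SmM A x) (hB : SmM B x) : SmM (fun y => A y * B y) x := by
  intro i j
  simp only [Matrix.mul_apply]
  exact ContDiffAt.sum fun k _ => (hA i k).mul (hB k j)

theorem SmM.conj {A : En m → Matrix ι κ ℂ} {x : En m} (hA : SmM A x) :
    SmM (fun y => (A y)ᴴ) x := by
  intro i j
  have h := (Complex.conjCLE.contDiff (n := ∞)).contDiffAt.comp x (hA j i)
  exact h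

theorem SmM.congr {A B : En m → Matrix ι κ ℂ} {x : En m} (hA : SmM A x)
    (h : ∀ᶠ y in 𝓝 x, B y = A y) : SmM B x := by
  intro i j
  refine (hA i j).congr_of_eventuallyEq ?_
  filter_upwards [h] with y hy
  rw [hy]

theorem SmM.dmat {A : En m → Matrix ι κ ℂ} {x : En m} (hA : SmM A x) (v : En m) :
    SmM (fun y => Pool.Agent.EXO.dmat A y v) x := by
  intro i j
  have h : ContDiffAt ℝ ∞ (fderiv ℝ (fun y => A y i j)) x :=
    (hA i j).fderiv_right (by simp)
  exact h.clm_apply contDiffAt_const

theorem SmM.comp {k : ℕ} {A : En m → Matrix ι κ ℂ} {r : En k → En m} {x : En k}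
    (hA : SmM A (r x)) (hr : ContDiffAt ℝ ∞ r x) : SmM (fun y => A (r y)) x := by
  intro i j
  exact (hA i j).comp x hr

theorem dmat_const (C : Matrix ι κ ℂ) (x v : En m) : dmat (fun _ => C) x v = 0 := by
  ext i j
  simp [dmat]

private theorem SurMat_diff {A : En m → Matrix ι κ ℂ} {x : En m} (hA : SmM A x) (i : ι) (j : κ) :
    DifferentiableAt ℝ (fun y => A y i j) x := (hA i j).differentiableAt (by simp)

theorem dmat_mul {A : En m → Matrix ι κ ℂ} {B : En m → Matrix κ μ ℂ} {x : En m}
    (hA : SmM A x) (hB : SmM B x) (v : En m) :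
    dmat (fun y => A y * B y) x v = dmat A x v * B x + A x * dmat B x v := by
  ext i j
  have h1 : fderiv ℝ (fun y => (A y * B y) i j) x =
      ∑ k, (A x i k • fderiv ℝ (fun y => B y k j) x + B x k j • fderiv ℝ (fun y => A y i k) x) := by
    have h2 : (fun y => (A y * B y) i j) = fun y => ∑ k, A y i k * B y k j := by
      funext y
      rw [Matrix.mul_apply]
    have h3 : HasFDerivAt (fun y => ∑ k, A y i k * B y k j)
        (∑ k, (A x i k • fderiv ℝ (fun y => B y k j) x + B x k j • fderiv ℝ (fun y => A y i k) x))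
        x := by
      refine HasFDerivAt.fun_sum fun k _ => ?_
      exact (SurMat_diff hA i k).hasFDerivAt.mul (SurMat_diff hB k j).hasFDerivAt
    rw [h2, h3.fderiv]
  simp only [dmat, Matrix.add_apply, Matrix.mul_apply, Matrix.of_apply]
  simp only [Matrix.mul_apply] at h1
  rw [h1, ContinuousLinearMap.sum_apply, ← Finset.sum_add_distrib]
  refine Finset.sum_congr rfl fun k _ => ?_
  simp only [ContinuousLinearMap.add_apply, ContinuousLinearMap.smul_apply, smul_eq_mul]
  ring

theorem dmat_conj {A : En m → Matrix ι κ ℂ} {x : En m} (hA : SmM A x) (v : En m) :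
    dmat (fun y => (A y)ᴴ) x v = (dmat A x v)ᴴ := by
  ext i j
  have h := (Complex.conjCLE.toContinuousLinearMap.hasFDerivAt (x := A x j i)).comp x
    (SurMat_diff hA j i).hasFDerivAt
  have h2 : HasFDerivAt (fun y => (A y)ᴴ i j) _ x := h
  simp only [dmat, Matrix.of_apply, Matrix.conjTranspose_apply]
  simp only [Matrix.conjTranspose_apply] at h2
  rw [h2.fderiv]
  rfl

theorem dmat_comp {k : ℕ} {A : En m → Matrix ι κ ℂ} {r : En k → En m} {x : En k}
    (hA : SmM A (r x)) (hr : ContDiffAt ℝ ∞ r x) (v : En k) :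
    dmat (fun y => A (r y)) x v = dmat A (r x) (fderiv ℝ r x v) := by
  ext i j
  have h := (SurMat_diff hA i j).hasFDerivAt.comp x
    (hr.differentiableAt (by simp)).hasFDerivAt
  have h2 : HasFDerivAt (fun y => A (r y) i j) _ x := h
  simp only [dmat, Matrix.of_apply]
  rw [h2.fderiv]
  rfl

theorem dmat_congr {A B : En m → Matrix ι κ ℂ} {x : En m} (h : ∀ᶠ y in 𝓝 x, A y = B y)
    (v : En m) : dmat A x v = dmat B x v := by
  ext i j
  have h2 : (fun y => A y i j) =ᶠ[𝓝 x] fun y => B y i j := by
    filter_upwards [h] with y hy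
    rw [hy]
  simp only [dmat, Matrix.of_apply]
  rw [h2.fderiv_eq]

theorem dmat_add (A : En m → Matrix ι κ ℂ) (x v w : En m) :
    dmat A x (v + w) = dmat A x v + dmat A x w := by
  ext i j
  simp [dmat]

theorem dmat_smul (A : En m → Matrix ι κ ℂ) (x : En m) (c : ℝ) (v : En m) :
    dmat A x (c • v) = (c : ℂ) • dmat A x v := by
  ext i j
  simp [dmat]

/-- The derivative in the direction `v` is the sum of the partial derivatives. -/
theorem dmat_sum (A : En m → Matrix ι κ ℂ) (x v : En m) :
    dmat A x v = ∑ a, ((v a : ℝ) : ℂ) • dmat A x (bv a) := by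
  have h1 : v = ∑ a, v a • bv a := by
    ext b
    simp [bv, Finset.sum_apply, Pi.single_apply]
  ext i j
  rw [Matrix.sum_apply]
  simp only [dmat, Matrix.of_apply, Matrix.smul_apply, smul_eq_mul]
  conv_lhs => rw [h1]
  rw [map_sum]
  refine Finset.sum_congr rfl fun a _ => ?_
  rw [map_smul]
  simp

/-- Symmetry of the second derivative. -/
theorem dmat_symm {A : En m → Matrix ι κ ℂ} {x : En m} (hA : SmM A x) (v w : En m) :
    dmat (fun y => dmat A y w) x v = dmat (fun y => dmat A y v) x w := by
  ext i j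
  have h : ContDiffAt ℝ ∞ (fderiv ℝ (fun y => A y i j)) x :=
    (hA i j).fderiv_right (by simp)
  have hd : DifferentiableAt ℝ (fderiv ℝ (fun y => A y i j)) x := h.differentiableAt (by simp)
  have key : ∀ a b : En m, fderiv ℝ (fun y => fderiv ℝ (fun z => A z i j) y a) x b =
      fderiv ℝ (fderiv ℝ (fun y => A y i j)) x b a := by
    intro a b
    have h1 := (ContinuousLinearMap.apply ℝ ℂ a).hasFDerivAt.comp x hd.hasFDerivAt
    have h2 : HasFDerivAt (fun y => fderiv ℝ (fun z => A z i j) y a) _ x := h1
    rw [h2.fderiv]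
    rfl
  simp only [dmat, Matrix.of_apply]
  rw [key w v, key v w]
  have hs : IsSymmSndFDerivAt ℝ (fun y => A y i j) x :=
    (hA i j).isSymmSndFDerivAt (by
      rw [minSmoothness_of_isRCLikeNormedField]
      exact WithTop.coe_le_coe.2 le_top)
  exact hs v w

/-- Tangential derivatives only depend on the values on `Y`. -/
theorem dmat_tan {k : ℕ} (Y : Geo k m) {A B : En m → Matrix ι κ ℂ} {x : En m}
    (hx : x ∈ Y.carrier) (hA : SmM A x) (hB : SmM B x)
    (h : ∀ᶠ y in 𝓝[Y.carrier] x, A y = B y) (v : En m) :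
    dmat A x (Y.P x v) = dmat B x (Y.P x v) := by
  ext i j
  simp only [dmat, Matrix.of_apply]
  refine Y.fderiv_tan hx (SurMat_diff hA i j) (SurMat_diff hB i j) ?_ v
  filter_upwards [h] with y hy
  rw [hy]

theorem contDiffAt_mat {A : En m → Matrix ι ι ℂ} {x : En m} :
    ContDiffAt ℝ ∞ A x ↔ SmM A x := by
  constructor
  · intro h i j
    have h1 := contDiffAt_pi.1 h i
    exact contDiffAt_pi.1 h1 j
  · intro h
    refine contDiffAt_pi.2 fun i => ?_
    exact contDiffAt_pi.2 fun j => h i j

theorem contDiff_mat {A : En m → Matrix ι ι ℂ} : ContDiff ℝ ∞ A ↔ ∀ x, SmM A x := by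
  rw [contDiff_iff_contDiffAt]
  exact forall_congr' fun x => contDiffAt_mat

theorem fderiv_eq_dmat {A : En m → Matrix ι ι ℂ} {x : En m} (hA : SmM A x) (v : En m) :
    fderiv ℝ A x v = dmat A x v := by
  have hd : DifferentiableAt ℝ A x := (contDiffAt_mat.2 hA).differentiableAt (by simp)
  ext i j
  have h1 := hasFDerivAt_pi'.1 hd.hasFDerivAt i
  have h2 := hasFDerivAt_pi'.1 h1 j
  have h3 : HasFDerivAt (fun y => A y i j) _ x := h2
  simp only [dmat, Matrix.of_apply]
  rw [h3.fderiv]
  rfl

end Pool.Agent.EXO
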