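import Mathlib
import Pool.Agent.EXO.SurMat

/-!
# EXO / SurFr: systems of local frames with locally constant transition matrices

`FrSys C ι κ`: on open sets `O i` which cover the subset `C` of `ℝ^m` there are unitary frames `W i` (matrices with
orthonormal columns) and invertible matrices `Γ i`, such that the frames `Φ i = W i * Γ i` differ on the intersections
by locally constant matrices.  `diagonal s` is the grading of `ℂ^ι`, `diagonal σ` the grading in the frame `W i`,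
`h` the constant matrix of the hermitian form `⟨u, s v⟩` in the frames `Φ i`, `hi` its inverse.

PROOFS (all statements are matrix algebra).  Write `W = F.W i x`, `Γ = F.Γ i x`.
* `h_mul_hi`: `hih` and `mul_eq_one_comm`.
* `Gi_mul`: `(hi Γᴴ σ) Γ = hi (Γᴴ σ Γ) = hi h = 1`; `mul_Gi` from it by `mul_eq_one_comm`.
* `Ψ_mul_Φ`: `hi Γᴴ σ Wᴴ W Γ = hi Γᴴ σ Γ = 1`.
* `Φ_mul_Ψ`: `W Γ hi Γᴴ σ Wᴴ = W Wᴴ` by `mul_Gi`.
* `Ψ_eq`: `Ψ = hi Φᴴ s`: `Φᴴ s = Γᴴ Wᴴ s = Γᴴ (s W)ᴴ = Γᴴ (W σ)ᴴ = Γᴴ σ Wᴴ`.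
* `E_idem`, `E_herm`, `E_s`: `E = W Wᴴ`, `WW`, `sW`: `s W Wᴴ = W σ Wᴴ = W (s W)ᴴ = W Wᴴ s`.
* `Ψ_E : Ψ E = Ψ`, `E_Φ : E Φ = Φ`, `E_W : E W = W`.
* `smooth_*`: `SmM.mul` etc.
* `ss`, `σσ`, `sH`, `σH`: `diagonal_mul_diagonal`, `diagonal_conjTranspose`, entries `± 1`.
-/

set_option autoImplicit false
set_option maxSynthPendingDepth 3
set_option linter.unusedSectionVars false

open Set Filter Topology Matrix
open scoped ContDiff

namespace Pool.Agent.EXO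

/-- A system of local frames with locally constant transition matrices. -/
structure FrSys {m : ℕ} (C : Set (En m)) (ι κ : Type) [Fintype ι] [DecidableEq ι] [Fintype κ]
    [DecidableEq κ] where
  I : Type
  O : I → Set (En m)
  W : I → En m → Matrix ι κ ℂ
  Γ : I → En m → Matrix κ κ ℂ
  s : ι → ℂ
  σ : κ → ℂ
  h : Matrix κ κ ℂ
  hi : Matrix κ κ ℂ
  openO : ∀ i, IsOpen (O i)
  cover : ∀ x ∈ C, ∃ i, x ∈ O i
  smW : ∀ i, ∀ x ∈ O i, SmM (W i) x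
  smΓ : ∀ i, ∀ x ∈ O i, SmM (Γ i) x
  s_sq : ∀ k, s k = 1 ∨ s k = -1
  σ_sq : ∀ k, σ k = 1 ∨ σ k = -1
  hih : hi * h = 1
  hi_herm : hiᴴ = hi
  WW : ∀ i, ∀ x ∈ O i, (W i x)ᴴ * W i x = 1
  sW : ∀ i, ∀ x ∈ O i, diagonal s * W i x = W i x * diagonal σ
  ΓσΓ : ∀ i, ∀ x ∈ O i, (Γ i x)ᴴ * diagonal σ * Γ i x = h
  /-- the even part of `dΓ Γ⁻¹` is diagonal -/
  ev : ∀ i, ∀ x ∈ O i, ∀ v, ∀ k l, k ≠ l → σ k = σ l →
    (dmat (Γ i) x v * (hi * (Γ i x)ᴴ * diagonal σ)) k l = 0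
  /-- the transition matrices are locally constant -/
  tr : ∀ i j, ∀ x ∈ C, x ∈ O i → x ∈ O j →
    ∃ c : Matrix κ κ ℂ, ∀ᶠ y in 𝓝[C] x, W j y * Γ j y = W i y * Γ i y * c

namespace FrSys

variable {m : ℕ} {C : Set (En m)} {ι κ : Type} [Fintype ι] [DecidableEq ι] [Fintype κ]
  [DecidableEq κ] (F : FrSys C ι κ)

/-- The flat frame. -/
noncomputable def Φ (i : F.I) (x : En m) : Matrix ι κ ℂ := F.W i x * F.Γ i x

/-- The inverse of `Γ`. -/
noncomputable def Gi (i : F.I) (x : En m) : Matrix κ κ ℂ := F.hi * (F.Γ i x)ᴴ * diagonal F.σ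

/-- The left inverse of the flat frame. -/
noncomputable def Ψ (i : F.I) (x : En m) : Matrix κ ι ℂ := F.Gi i x * (F.W i x)ᴴ

/-- The projection onto the fibre. -/
noncomputable def E (i : F.I) (x : En m) : Matrix ι ι ℂ := F.W i x * (F.W i x)ᴴ

/-- The flat connection. -/
noncomputable def B (i : F.I) (x v : En m) : Matrix ι ι ℂ :=
  -(F.E i x * dmat (F.Φ i) x v * F.Ψ i x)

/-- The matrix `dΓ Γ⁻¹`. -/
noncomputable def X (i : F.I) (x v : En m) : Matrix κ κ ℂ := dmat (F.Γ i) x v * F.Gi i x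

/-- The connection form of the line `k` in the frame `W`. -/
noncomputable def th (i : F.I) (k : κ) (x v : En m) : ℂ := -F.X i x v k k

theorem ss : (diagonal F.s : Matrix ι ι ℂ) * diagonal F.s = 1 := by
  rw [diagonal_mul_diagonal, ← diagonal_one]
  congr 1
  funext k
  rcases F.s_sq k with h | h <;> rw [h] <;> norm_num

theorem σσ : (diagonal F.σ : Matrix κ κ ℂ) * diagonal F.σ = 1 := by
  rw [diagonal_mul_diagonal, ← diagonal_one]
  congr 1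
  funext k
  rcases F.σ_sq k with h | h <;> rw [h] <;> norm_num

theorem sH : (diagonal F.s : Matrix ι ι ℂ)ᴴ = diagonal F.s := by
  rw [diagonal_conjTranspose]
  congr 1
  funext k
  rw [Pi.star_apply]
  rcases F.s_sq k with h | h <;> rw [h] <;> simp

theorem σH : (diagonal F.σ : Matrix κ κ ℂ)ᴴ = diagonal F.σ := by
  rw [diagonal_conjTranspose]
  congr 1
  funext k
  rw [Pi.star_apply]
  rcases F.σ_sq k with h | h <;> rw [h] <;> simp

theorem h_mul_hi : F.h * F.hi = 1 := mul_eq_one_comm.1 F.hih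

theorem Gi_mul {i : F.I} {x : En m} (hx : x ∈ F.O i) : F.Gi i x * F.Γ i x = 1 := by
  have h1 : F.Gi i x * F.Γ i x = F.hi * ((F.Γ i x)ᴴ * diagonal F.σ * F.Γ i x) := by
    simp only [Gi, Matrix.mul_assoc]
  rw [h1, F.ΓσΓ i x hx, F.hih]

theorem mul_Gi {i : F.I} {x : En m} (hx : x ∈ F.O i) : F.Γ i x * F.Gi i x = 1 :=
  mul_eq_one_comm.1 (F.Gi_mul hx)

theorem Ψ_mul_Φ {i : F.I} {x : En m} (hx : x ∈ F.O i) : F.Ψ i x * F.Φ i x = 1 := by
  have h1 : F.Ψ i x * F.Φ i x = F.Gi i x * (((F.W i x)ᴴ * F.W i x) * F.Γ i x) := by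
    simp only [Ψ, Φ, Matrix.mul_assoc]
  rw [h1, F.WW i x hx, Matrix.one_mul, F.Gi_mul hx]

theorem Φ_mul_Ψ {i : F.I} {x : En m} (hx : x ∈ F.O i) : F.Φ i x * F.Ψ i x = F.E i x := by
  have h1 : F.Φ i x * F.Ψ i x = F.W i x * ((F.Γ i x * F.Gi i x) * (F.W i x)ᴴ) := by
    simp only [Ψ, Φ, Matrix.mul_assoc]
  rw [h1, F.mul_Gi hx, Matrix.one_mul, E]

theorem Ψ_eq {i : F.I} {x : En m} (hx : x ∈ F.O i) :
    F.Ψ i x = F.hi * (F.Φ i x)ᴴ * diagonal F.s := by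
  have h1 : (F.W i x)ᴴ * diagonal F.s = diagonal F.σ * (F.W i x)ᴴ := by
    have h2 := congrArg Matrix.conjTranspose (F.sW i x hx)
    rwa [conjTranspose_mul, conjTranspose_mul, F.sH, F.σH] at h2
  simp only [Ψ, Φ, Gi, conjTranspose_mul, Matrix.mul_assoc]
  rw [h1]

/-- The matrix of the hermitian form in the flat frame. -/
theorem ΦsΦ {i : F.I} {x : En m} (hx : x ∈ F.O i) :
    (F.Φ i x)ᴴ * diagonal F.s * F.Φ i x = F.h := by
  have h1 : (F.Φ i x)ᴴ * diagonal F.s * F.Φ i x =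
      (F.Γ i x)ᴴ * ((F.W i x)ᴴ * (diagonal F.s * F.W i x)) * F.Γ i x := by
    simp only [Φ, conjTranspose_mul, Matrix.mul_assoc]
  rw [h1, F.sW i x hx, ← Matrix.mul_assoc (F.W i x)ᴴ, F.WW i x hx, Matrix.one_mul,
    F.ΓσΓ i x hx]

theorem E_idem {i : F.I} {x : En m} (hx : x ∈ F.O i) : F.E i x * F.E i x = F.E i x := by
  have h1 : F.E i x * F.E i x = F.W i x * (((F.W i x)ᴴ * F.W i x) * (F.W i x)ᴴ) := by
    simp only [E, Matrix.mul_assoc]
  rw [h1, F.WW i x hx, Matrix.one_mul, E]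

theorem E_herm (i : F.I) (x : En m) : (F.E i x)ᴴ = F.E i x := by
  simp [E, conjTranspose_mul]

theorem E_s {i : F.I} {x : En m} (hx : x ∈ F.O i) :
    F.E i x * diagonal F.s = diagonal F.s * F.E i x := by
  have h1 : (F.W i x)ᴴ * diagonal F.s = diagonal F.σ * (F.W i x)ᴴ := by
    have h2 := congrArg Matrix.conjTranspose (F.sW i x hx)
    rwa [conjTranspose_mul, conjTranspose_mul, F.sH, F.σH] at h2
  simp only [E]
  rw [Matrix.mul_assoc, h1, ← Matrix.mul_assoc, ← Matrix.mul_assoc, F.sW i x hx]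

theorem Ψ_E {i : F.I} {x : En m} (hx : x ∈ F.O i) : F.Ψ i x * F.E i x = F.Ψ i x := by
  rw [← F.Φ_mul_Ψ hx, ← Matrix.mul_assoc, F.Ψ_mul_Φ hx, Matrix.one_mul]

theorem E_Φ {i : F.I} {x : En m} (hx : x ∈ F.O i) : F.E i x * F.Φ i x = F.Φ i x := by
  rw [← F.Φ_mul_Ψ hx, Matrix.mul_assoc, F.Ψ_mul_Φ hx, Matrix.mul_one]

theorem E_W {i : F.I} {x : En m} (hx : x ∈ F.O i) : F.E i x * F.W i x = F.W i x := by
  rw [E, Matrix.mul_assoc, F.WW i x hx, Matrix.mul_one]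

theorem smΦ {i : F.I} {x : En m} (hx : x ∈ F.O i) : SmM (F.Φ i) x :=
  (F.smW i x hx).mul (F.smΓ i x hx)

theorem smGi {i : F.I} {x : En m} (hx : x ∈ F.O i) : SmM (F.Gi i) x :=
  ((SmM.const F.hi x).mul (F.smΓ i x hx).conj).mul (SmM.const (diagonal F.σ) x)

theorem smΨ {i : F.I} {x : En m} (hx : x ∈ F.O i) : SmM (F.Ψ i) x :=
  (F.smGi hx).mul (F.smW i x hx).conj

theorem smE {i : F.I} {x : En m} (hx : x ∈ F.O i) : SmM (F.E i) x :=
  (F.smW i x hx).mul (F.smW i x hx).conj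

theorem smB {i : F.I} {x : En m} (hx : x ∈ F.O i) (v : En m) : SmM (fun y => F.B i y v) x :=
  (((F.smE hx).mul ((F.smΦ hx).dmat v)).mul (F.smΨ hx)).neg

end FrSys

end Pool.Agent.EXO
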