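import Mathlib
import Pool.Agent.EXO.DefC

/-!
# EXO / SurMx: the explicit matrices of the flat bundle over the surface of genus two

PROOFS.  `t1`, `t2` take values in `[0, 1]`, so `1 + t > 0`.  Everything is a computation with `2 × 2` matrices
(`Matrix.ext`, `fin_cases`, `field_simp`, `ring`).
* `mS_det`: `det E1 = (1+t) * (1/(1+t)) = 1`, `det M = 1`, `M * Mi = 1`.
* `mS_left`: for `x ≤ -9/8` both `t1 x = 0` and `t2 x = 0` (`4 (x+1) + 1/2 ≤ 0`), `E1 0 = 1`.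
* `mS_mid`: for `-7/8 ≤ x ≤ 7/8`: `t1 x = 1` (`4 (x+1) + 1/2 ≥ 1`), `t2 x = 0`.
* `mS_right`: for `9/8 ≤ x`: `t1 = t2 = 1`.
* `mS_one`: for `x ≤ 7/8` `t2 x = 0`, so `mS x = E1 (t1 x)`, and `D E1 D = E1` (diagonal matrices).
* `mS_two`: for `-7/8 ≤ x` `t1 x = 1`, so `mS x = E2 (t2 x) E1 1`; the identity `g2 E2(t) E1(1) = D E2(t) E1(1) D c2` holds for every
  `t ∈ [0, 1]`: `g2 = D M D Mi`, `E2 t = M E1(t) Mi`, `D E1(t) D = E1(t)`, so
  `g2 E2(t) E1(1) = D M D E1(t) Mi E1(1)`, `D E2(t) E1(1) D c2 = D M E1(t) Mi E1(1) D c2`, and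
  `Mi E1(1) D c2 = D Mi E1(1)` (numbers).
* `mS_loc`: near a point `x` with `1/8 < |x + 1|`, `1/8 < |x - 1|` the functions `t1`, `t2` are constant.
* `g3_comm`: `g3 * mS 2 = D * mS 2 * D * g3` (numbers; `mS 2 = !![-5, -3/4; 18, 5/2]`).
-/

set_option autoImplicit false
set_option maxSynthPendingDepth 3

open Set Filter Topology Matrix
open scoped ContDiff

namespace Pool.Agent.EXO

noncomputable def mD : Matrix (Fin 2) (Fin 2) ℝ := !![1, 0; 0, -1]

noncomputable def mM : Matrix (Fin 2) (Fin 2) ℝ := !![1, 1; -3, -2]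

noncomputable def mMi : Matrix (Fin 2) (Fin 2) ℝ := !![-2, -1; 3, 1]

noncomputable def mE1 (t : ℝ) : Matrix (Fin 2) (Fin 2) ℝ := !![1 + t, 0; 0, 1 / (1 + t)]

noncomputable def mE2 (t : ℝ) : Matrix (Fin 2) (Fin 2) ℝ := mM * mE1 t * mMi

noncomputable def mt1 (x : ℝ) : ℝ := stp (4 * (x + 1) + 1 / 2)

noncomputable def mt2 (x : ℝ) : ℝ := stp (4 * (x - 1) + 1 / 2)

/-- The flat frame of the upper sheet, relative to the trivialization. -/
noncomputable def mS (x : ℝ) : Matrix (Fin 2) (Fin 2) ℝ := mE2 (mt2 x) * mE1 (mt1 x)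

noncomputable def mg2 : Matrix (Fin 2) (Fin 2) ℝ := !![-5, -2; -12, -5]

noncomputable def mc2 : Matrix (Fin 2) (Fin 2) ℝ := !![-5, -1 / 2; -48, -5]

noncomputable def mg3 : Matrix (Fin 2) (Fin 2) ℝ := !![5, 1; 24, 5]

noncomputable def mRot (φ : ℝ) : Matrix (Fin 2) (Fin 2) ℝ :=
  !![Real.cos φ, -Real.sin φ; Real.sin φ, Real.cos φ]

noncomputable def mn (ρ η : ℝ) : Matrix (Fin 2) (Fin 2) ℝ := !![ρ, η; 0, 1 / ρ]

theorem mt1_mem (x : ℝ) : mt1 x ∈ Icc (0 : ℝ) 1 :=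
  ⟨Real.smoothTransition.nonneg _, Real.smoothTransition.le_one _⟩

theorem mt2_mem (x : ℝ) : mt2 x ∈ Icc (0 : ℝ) 1 :=
  ⟨Real.smoothTransition.nonneg _, Real.smoothTransition.le_one _⟩

theorem mD_mD : mD * mD = 1 := by
  rw [mD, Matrix.mul_fin_two, Matrix.one_fin_two]
  norm_num

theorem mM_mMi : mM * mMi = 1 := by
  rw [mM, mMi, Matrix.mul_fin_two, Matrix.one_fin_two]
  norm_num

private theorem SurMx_E2 (t s : ℝ) : mE2 t * mE1 s =
    !![(-2 * (1 + t) + 3 * (1 / (1 + t))) * (1 + s), (-(1 + t) + 1 / (1 + t)) * (1 / (1 + s));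
      (6 * (1 + t) - 6 * (1 / (1 + t))) * (1 + s), (3 * (1 + t) - 2 * (1 / (1 + t))) *
        (1 / (1 + s))] := by
  rw [mE2, mM, mMi, mE1, mE1, Matrix.mul_fin_two, Matrix.mul_fin_two, Matrix.mul_fin_two]
  generalize 1 / (1 + t) = p
  generalize 1 / (1 + s) = q
  generalize 1 + t = a
  generalize 1 + s = b
  ext i j
  fin_cases i <;> fin_cases j <;> simp [-mul_eq_mul_right_iff] <;> ring

private theorem SurMx_det1 {t : ℝ} (ht : 0 ≤ t) : (mE1 t).det = 1 := by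
  rw [mE1, Matrix.det_fin_two_of]
  have : 1 + t ≠ 0 := by positivity
  field_simp
  ring

private theorem SurMx_one0 : mE1 0 = 1 := by
  rw [mE1, Matrix.one_fin_two]
  norm_num

private theorem SurMx_two0 : mE2 0 = 1 := by
  rw [mE2, SurMx_one0, mul_one, mM_mMi]

private theorem SurMx_t1z {x : ℝ} (h : x ≤ -9 / 8) : mt1 x = 0 :=
  Real.smoothTransition.zero_of_nonpos (by linarith)

private theorem SurMx_t1o {x : ℝ} (h : -7 / 8 ≤ x) : mt1 x = 1 :=
  Real.smoothTransition.one_of_one_le (by linarith)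

private theorem SurMx_t2z {x : ℝ} (h : x ≤ 7 / 8) : mt2 x = 0 :=
  Real.smoothTransition.zero_of_nonpos (by linarith)

private theorem SurMx_t2o {x : ℝ} (h : 9 / 8 ≤ x) : mt2 x = 1 :=
  Real.smoothTransition.one_of_one_le (by linarith)

theorem mS_det (x : ℝ) : (mS x).det = 1 := by
  have h1 : mM.det * mMi.det = 1 := by
    rw [← Matrix.det_mul, mM_mMi, Matrix.det_one]
  rw [mS, mE2, Matrix.det_mul, Matrix.det_mul, Matrix.det_mul, SurMx_det1 (mt1_mem x).1,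
    SurMx_det1 (mt2_mem x).1, mul_one, mul_one, h1]

theorem mS_left {x : ℝ} (h : x ≤ -9 / 8) : mS x = 1 := by
  rw [mS, SurMx_t1z h, SurMx_t2z (by linarith), SurMx_one0, SurMx_two0, mul_one]

theorem mS_mid {x : ℝ} (h : -7 / 8 ≤ x) (h' : x ≤ 7 / 8) : mS x = mE1 1 := by
  rw [mS, SurMx_t1o h, SurMx_t2z h', SurMx_two0, one_mul]

theorem mS_right {x : ℝ} (h : 9 / 8 ≤ x) : mS x = !![-5, -3 / 4; 18, 5 / 2] := by
  rw [mS, SurMx_t1o (by linarith), SurMx_t2o h, SurMx_E2]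
  norm_num

theorem mS_one {x : ℝ} (h : x ≤ 7 / 8) : mD * mS x * mD = mS x := by
  rw [mS, SurMx_t2z h, SurMx_two0, one_mul, mE1, mD, Matrix.mul_fin_two, Matrix.mul_fin_two]
  norm_num

theorem mS_one' {x : ℝ} (h : x ≤ 7 / 8) : mS x = mE1 (mt1 x) := by
  rw [mS, SurMx_t2z h, SurMx_two0, one_mul]

theorem mS_two {x : ℝ} (h : -7 / 8 ≤ x) : mg2 * mS x = mD * mS x * mD * mc2 := by
  rw [mS, SurMx_t1o h, SurMx_E2]
  generalize 1 + mt2 x = a
  rw [mg2, mD, mc2, Matrix.mul_fin_two, Matrix.mul_fin_two, Matrix.mul_fin_two,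
    Matrix.mul_fin_two]
  ext i j
  fin_cases i <;> fin_cases j <;> simp <;> ring

theorem g3_comm : mg3 * mS 2 = mD * mS 2 * mD * mg3 := by
  rw [mS_right (by norm_num), mg3, mD, Matrix.mul_fin_two, Matrix.mul_fin_two,
    Matrix.mul_fin_two, Matrix.mul_fin_two]
  norm_num

theorem mS_loc {x : ℝ} (h : 1 / 8 < |x + 1|) (h' : 1 / 8 < |x - 1|) :
    ∀ᶠ y in 𝓝 x, mS y = mS x := by
  have h1 : ∀ᶠ y in 𝓝 x, mt1 y = mt1 x := by
    rcases lt_abs.1 h with h0 | h0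
    · filter_upwards [lt_mem_nhds (show -7 / 8 < x by linarith)] with y hy
      rw [SurMx_t1o hy.le, SurMx_t1o (by linarith)]
    · filter_upwards [gt_mem_nhds (show x < -9 / 8 by linarith)] with y hy
      rw [SurMx_t1z (le_of_lt hy), SurMx_t1z (by linarith)]
  have h2 : ∀ᶠ y in 𝓝 x, mt2 y = mt2 x := by
    rcases lt_abs.1 h' with h0 | h0
    · filter_upwards [lt_mem_nhds (show 9 / 8 < x by linarith)] with y hy
      rw [SurMx_t2o hy.le, SurMx_t2o (by linarith)]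
    · filter_upwards [gt_mem_nhds (show x < 7 / 8 by linarith)] with y hy
      rw [SurMx_t2z (le_of_lt hy), SurMx_t2z (by linarith)]
  filter_upwards [h1, h2] with y hy1 hy2
  rw [mS, mS, hy1, hy2]

private theorem SurMx_ct1 : ContDiff ℝ ∞ fun x => 1 + mt1 x := by
  have h : ContDiff ℝ ∞ fun x : ℝ => 4 * (x + 1) + 1 / 2 := by fun_prop
  exact contDiff_const.add (Real.smoothTransition.contDiff.comp h)

private theorem SurMx_ct2 : ContDiff ℝ ∞ fun x => 1 + mt2 x := by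
  have h : ContDiff ℝ ∞ fun x : ℝ => 4 * (x - 1) + 1 / 2 := by fun_prop
  exact contDiff_const.add (Real.smoothTransition.contDiff.comp h)

theorem contDiff_mS (i j : Fin 2) : ContDiff ℝ ∞ fun x => mS x i j := by
  have h1 := SurMx_ct1
  have h2 := SurMx_ct2
  have n1 : ∀ x, 1 + mt1 x ≠ 0 := fun x => by
    have := (mt1_mem x).1
    positivity
  have n2 : ∀ x, 1 + mt2 x ≠ 0 := fun x => by
    have := (mt2_mem x).1
    positivity
  have i1 : ContDiff ℝ ∞ fun x => 1 / (1 + mt1 x) := contDiff_const.div h1 n1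
  have i2 : ContDiff ℝ ∞ fun x => 1 / (1 + mt2 x) := contDiff_const.div h2 n2
  have e : (fun x => mS x i j) = fun x =>
      (!![(-2 * (1 + mt2 x) + 3 * (1 / (1 + mt2 x))) * (1 + mt1 x),
        (-(1 + mt2 x) + 1 / (1 + mt2 x)) * (1 / (1 + mt1 x));
      (6 * (1 + mt2 x) - 6 * (1 / (1 + mt2 x))) * (1 + mt1 x),
        (3 * (1 + mt2 x) - 2 * (1 / (1 + mt2 x))) * (1 / (1 + mt1 x))] :
        Matrix (Fin 2) (Fin 2) ℝ) i j := by
    funext x
    rw [mS, SurMx_E2]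
  rw [e]
  fin_cases i <;> fin_cases j
  · exact ((contDiff_const.mul h2).add (contDiff_const.mul i2)).mul h1
  · exact (h2.neg.add i2).mul i1
  · exact ((contDiff_const.mul h2).sub (contDiff_const.mul i2)).mul h1
  · exact ((contDiff_const.mul h2).sub (contDiff_const.mul i2)).mul i1

theorem mRot_det (φ : ℝ) : (mRot φ).det = 1 := by
  rw [mRot, Matrix.det_fin_two_of]
  have := Real.sin_sq_add_cos_sq φ
  nlinarith

theorem mn_det {ρ : ℝ} (hρ : 0 < ρ) (η : ℝ) : (mn ρ η).det = 1 := by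
  rw [mn, Matrix.det_fin_two_of]
  field_simp
  norm_num

end Pool.Agent.EXO
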