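import Mathlib

/-!
# EXO / SurWnA: the winding number of an explicit curve

`wa β = 6 β - 25 + 24 / β`, `wc β = 18 β - 60 + 48 / β`, `β ∈ [1, 4]`.  The curve runs from `(5, 6)` to `(5, 24)` and winds once around
the origin (clockwise): `wa` vanishes exactly at `3/2`, `8/3`, `wc` exactly at `4/3`, `2`.

PROOF of `exists_angle`.  Signs on `(0, ∞)`: `β wa β = 6 (β - 3/2)(β - 8/3)`, `β wc β = 18 (β - 4/3)(β - 2)`.  Take
`θ` with `θ' = (wa wc' - wc wa') / (wa^2 + wc^2)` on `(0, ∞)` (the denominator is positive there) and `θ 1 = arctan (6/5)`; it is smooth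
(primitive of a smooth function), and `(wa, wc) = R (cos θ, sin θ)`, `R = √(wa^2 + wc^2)`, because
`d/dβ ((wa, wc)/R · rotated back by θ) = 0` and it holds at `β = 1`.  (Equivalently `wa + i wc = R e^{iθ}`: the derivative of
`(wa + i wc) e^{-iθ} / R` vanishes.)  The value at `4`: on `[1, 7/5]` `wa > 0`, so `θ = arctan (wc / wa)` (equal at `1`, same
derivative, or: both are angles of the same vector, they differ by a continuous function with values in `2πℤ`); on `[7/5, 9/5]` `wc < 0`:
`θ = -π/2 - arctan (wa / wc)`; on `[9/5, 5/2]` `wa < 0`: `θ = -π + arctan (wc / wa)`; on `[5/2, 3]` `wc > 0`: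
`θ = -3π/2 - arctan (wa / wc)`; on `[3, 4]` `wa > 0`: `θ = -2π + arctan (wc / wa)`; at the common points use
`arctan (1/x) = π/2 - arctan x` (`x > 0`), `= -π/2 - arctan x` (`x < 0`).  So `θ 4 = arctan (24/5) - 2 π`.
A variant without the differential equation: define `θ` on `(0, ∞)` directly by these five formulas on five overlapping open
intervals; they agree on the overlaps, so the function is smooth.
-/

set_option autoImplicit false
set_option maxSynthPendingDepth 3

open Set
open scoped ContDiff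

namespace Pool.Agent.EXO

noncomputable def wa (β : ℝ) : ℝ := 6 * β - 25 + 24 / β

noncomputable def wc (β : ℝ) : ℝ := 18 * β - 60 + 48 / β

private noncomputable def wna_f (β : ℝ) : ℂ := ⟨wa β, wc β⟩

private theorem wna_wc_neg {β : ℝ} (h1 : 4 / 3 < β) (h2 : β < 2) : wc β < 0 := by
  have h0 : 0 < β := by linarith
  have : β * wc β = 18 * ((β - 4 / 3) * (β - 2)) := by
    unfold wc
    field_simp
    ring
  have h3 : (β - 4 / 3) * (β - 2) < 0 := mul_neg_of_pos_of_neg (by linarith) (by linarith)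
  by_contra hc
  push Not at hc
  have := mul_nonneg h0.le hc
  linarith

private theorem wna_wc_pos {β : ℝ} (h0 : 0 < β) (h : β < 4 / 3 ∨ 2 < β) : 0 < wc β := by
  have : β * wc β = 18 * ((β - 4 / 3) * (β - 2)) := by
    unfold wc
    field_simp
    ring
  have h3 : 0 < (β - 4 / 3) * (β - 2) := by
    rcases h with h | h
    · exact mul_pos_of_neg_of_neg (by linarith) (by linarith)
    · exact mul_pos (by linarith) (by linarith)
  by_contra hc
  push Not at hc
  have := mul_nonpos_of_nonneg_of_nonpos h0.le hc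
  linarith

private theorem wna_slit {β : ℝ} (h0 : 0 < β) (h : β < 2) : wna_f β ∈ Complex.slitPlane := by
  rw [Complex.mem_slitPlane_iff]
  rcases lt_trichotomy β (4 / 3) with h1 | h1 | h1
  · right
    exact (wna_wc_pos h0 (Or.inl h1)).ne'
  · left
    change 0 < wa β
    rw [h1]
    norm_num [wa]
  · right
    exact (wna_wc_neg h1 h).ne

private theorem wna_slit_neg {β : ℝ} (h : 4 / 3 < β) : -wna_f β ∈ Complex.slitPlane := by
  rw [Complex.mem_slitPlane_iff]
  rcases lt_trichotomy β 2 with h1 | h1 | h1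
  · right
    change -wc β ≠ 0
    exact neg_ne_zero.2 (wna_wc_neg h h1).ne
  · left
    change 0 < -wa β
    rw [h1]
    norm_num [wa]
  · right
    change -wc β ≠ 0
    exact neg_ne_zero.2 (wna_wc_pos (by linarith) (Or.inr h1)).ne'

private theorem wna_smooth {β : ℝ} (h0 : 0 < β) : ContDiffAt ℝ ∞ wna_f β := by
  have h1 : wna_f = fun β => (wa β : ℂ) + (wc β : ℂ) * Complex.I := by
    funext β
    apply Complex.ext <;> simp [wna_f]
  have ha : ContDiffAt ℝ ∞ wa β := by
    unfold wa
    have := h0.ne'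
    fun_prop (disch := assumption)
  have hc : ContDiffAt ℝ ∞ wc β := by
    unfold wc
    have := h0.ne'
    fun_prop (disch := assumption)
  rw [h1]
  exact (Complex.ofRealCLM.contDiff.contDiffAt.comp β ha).add
    ((Complex.ofRealCLM.contDiff.contDiffAt.comp β hc).mul contDiffAt_const)

private theorem wna_arg_smooth {g : ℝ → ℂ} {β : ℝ} (hg : ContDiffAt ℝ ∞ g β)
    (h : g β ∈ Complex.slitPlane) : ContDiffAt ℝ ∞ (fun x => (g x).arg) β := by
  have h1 : (fun x => (g x).arg) = fun x => Complex.imCLM (Complex.log (g x)) := by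
    funext x
    exact (Complex.log_im (g x)).symm
  rw [h1]
  have h2 : ContDiffAt ℝ ∞ Complex.log (g β) := (Complex.contDiffAt_log h).restrict_scalars ℝ
  exact Complex.imCLM.contDiff.contDiffAt.comp β (h2.comp β hg)

private theorem wna_arctan {a c : ℝ} (ha : 0 < a) :
    (⟨a, c⟩ : ℂ).arg = Real.arctan (c / a) := by
  have h1 : Real.tan ((⟨a, c⟩ : ℂ).arg) = c / a := Complex.tan_arg _
  have h2 : |(⟨a, c⟩ : ℂ).arg| < Real.pi / 2 :=
    Complex.abs_arg_lt_pi_div_two_iff.2 (Or.inl ha)
  rw [abs_lt] at h2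
  rw [← h1, Real.arctan_tan h2.1 h2.2]

theorem exists_angle : ∃ θ : ℝ → ℝ, ContDiffOn ℝ ∞ θ (Ioi 0) ∧
    (∀ β, 0 < β → wa β = Real.sqrt (wa β ^ 2 + wc β ^ 2) * Real.cos (θ β) ∧
      wc β = Real.sqrt (wa β ^ 2 + wc β ^ 2) * Real.sin (θ β) ∧ 0 < wa β ^ 2 + wc β ^ 2) ∧
    θ 1 = Real.arctan (6 / 5) ∧ θ 4 = Real.arctan (24 / 5) - 2 * Real.pi := by
  have hcomp : ∀ β : ℝ, 4 / 3 < β → β < 2 → (wna_f β).arg = (-wna_f β).arg - Real.pi := by
    intro β h1 h2
    have h3 : (wna_f β).im < 0 := wna_wc_neg h1 h2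
    rw [Complex.arg_neg_eq_arg_add_pi_of_im_neg h3]
    ring
  have hne : ∀ β : ℝ, 0 < β → wna_f β ≠ 0 := by
    intro β h0
    rcases lt_or_ge β 2 with h | h
    · exact Complex.slitPlane_ne_zero (wna_slit h0 h)
    · exact neg_ne_zero.1 (Complex.slitPlane_ne_zero (wna_slit_neg (by linarith)))
  refine ⟨fun β => if β < 2 then (wna_f β).arg else (-wna_f β).arg - Real.pi, ?_, ?_, ?_, ?_⟩
  · intro β hβ
    have h0 : (0 : ℝ) < β := hβ
    apply ContDiffAt.contDiffWithinAt
    rcases lt_or_ge β 2 with h | h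
    · refine (wna_arg_smooth (wna_smooth h0) (wna_slit h0 h)).congr_of_eventuallyEq ?_
      filter_upwards [eventually_lt_nhds h] with x hx
      rw [if_pos hx]
    · have h43 : 4 / 3 < β := by linarith
      refine ((wna_arg_smooth (wna_smooth h0).neg
        (wna_slit_neg h43)).sub contDiffAt_const).congr_of_eventuallyEq
          (f := fun x => (-wna_f x).arg - Real.pi) ?_
      filter_upwards [eventually_gt_nhds h43] with x hx
      split_ifs with hx2
      · exact hcomp x hx hx2
      · rfl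
  · intro β h0
    have hR : Real.sqrt (wa β ^ 2 + wc β ^ 2) = ‖wna_f β‖ := by
      rw [Complex.norm_eq_sqrt_sq_add_sq]
      rfl
    have hpos : 0 < wa β ^ 2 + wc β ^ 2 := by
      by_contra hc
      have h1 : wa β ^ 2 + wc β ^ 2 = 0 :=
        le_antisymm (not_lt.1 hc) (by positivity)
      have ha : wa β = 0 := by nlinarith [sq_nonneg (wa β), sq_nonneg (wc β)]
      have hc' : wc β = 0 := by nlinarith [sq_nonneg (wa β), sq_nonneg (wc β)]
      exact hne β h0 (Complex.ext ha hc')
    have hcos : ‖wna_f β‖ * Real.cos ((wna_f β).arg) = wa β := Complex.norm_mul_cos_arg _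
    have hsin : ‖wna_f β‖ * Real.sin ((wna_f β).arg) = wc β := Complex.norm_mul_sin_arg _
    have hcos' : ‖-wna_f β‖ * Real.cos ((-wna_f β).arg) = -wa β := Complex.norm_mul_cos_arg _
    have hsin' : ‖-wna_f β‖ * Real.sin ((-wna_f β).arg) = -wc β := Complex.norm_mul_sin_arg _
    rw [norm_neg] at hcos' hsin'
    simp only
    rw [hR]
    split_ifs with h
    · exact ⟨hcos.symm, hsin.symm, hpos⟩
    · rw [Real.cos_sub_pi, Real.sin_sub_pi]
      refine ⟨?_, ?_, hpos⟩
      · rw [mul_neg, hcos', neg_neg]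
      · rw [mul_neg, hsin', neg_neg]
  · simp only
    rw [if_pos (by norm_num)]
    have h1 : wna_f 1 = (⟨5, 6⟩ : ℂ) := by
      apply Complex.ext
      · change wa 1 = 5
        norm_num [wa]
      · change wc 1 = 6
        norm_num [wc]
    rw [h1, wna_arctan (by norm_num)]
  · simp only
    rw [if_neg (by norm_num)]
    have h1 : wna_f 4 = (⟨5, 24⟩ : ℂ) := by
      apply Complex.ext
      · change wa 4 = 5
        norm_num [wa]
      · change wc 4 = 24
        norm_num [wc]
    have h3 : 0 < (wna_f 4).im := by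
      rw [h1]
      norm_num
    rw [Complex.arg_neg_eq_arg_sub_pi_of_im_pos h3, h1, wna_arctan (by norm_num)]
    ring

end Pool.Agent.EXO
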