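import Mathlib
import Pool.Agent.EXO.SurMx
import Pool.Agent.EXO.SurWnA

/-!
# EXO / SurWnd: polar decomposition of the gluing matrices

PROOF of `exists_Wnd`.  Put `g x = D S(x) D g3 S(x)^-1`, `S = mS` (smooth in `x`, determinant one; the inverse of a matrix of
determinant one is the adjugate).  First column `(a, c)` of `g x`, second column `(b, d)`, `a d - b c = 1`.  For an angle `φ x`
with `(a, c) = ρ (cos φ, sin φ)`, `ρ = √(a^2 + c^2) > 0`: `R(-φ) g` is upper triangular with first column `(ρ, 0)` and determinant one,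
i.e. `R(φ) * mn ρ η = g` with `η = (a b + c d)/ρ`; and `g * S = D S D g3` (`rel`).
The angle: for `x ≤ 7/8` (`t2 = 0`): `S = diag(α, 1/α)`, `α = 1 + t1 x`, so `(a, c) = (5, 24 / α^2)`; `φ x = arctan (24 / (5 α^2))`.
For `-7/8 ≤ x` (`t1 = 1`): with `β = (1 + t2 x)^2`: `(a, c) = (wa β, wc β)` (compute: first column of `D E2(t) E1(1) D g3 E1(1)^-1 E2(t)^-1`);
`φ x = θ β`, `θ` of `exists_angle`.  On `[-7/8, 7/8]` both formulas give `arctan (6/5)` (`α = 2`, `β = 1`); so
`φ x := if x ≤ 0 then arctan (24/(5 α^2)) else θ β` is smooth.  For `x ≤ -9/8`: `α = 1`, `φ = arctan (24/5)`; for `x ≥ 9/8`: `β = 4`,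
`φ = arctan (24/5) - 2π`.  `ρ`, `η` are continuous functions of `g x`, and `g x = g3` for `x ≤ -9/8` (`S = 1`), `g x = g3` for `x ≥ 9/8`
(`g3_comm`, `mS_right`).
`ph2`: `(-5, -12) = 13 (cos, sin)`: an angle exists (`Complex.arg (-5 - 12 i)`), and `R(φ) * mn 13 (70/13) = g2` by computation.
-/

set_option autoImplicit false
set_option maxSynthPendingDepth 3
set_option linter.unusedSectionVars false

open Set Filter Topology Matrix
open scoped ContDiff

namespace Pool.Agent.EXO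

/-- The polar decomposition of the gluing matrices along the three circles. -/
structure Wnd where
  ph : ℝ → ℝ
  rh : ℝ → ℝ
  et : ℝ → ℝ
  ph2 : ℝ
  smooth_ph : ContDiff ℝ ∞ ph
  smooth_rh : ContDiff ℝ ∞ rh
  smooth_et : ContDiff ℝ ∞ et
  rh_pos : ∀ x, 0 < rh x
  rel : ∀ x, mRot (ph x) * mn (rh x) (et x) * mS x = mD * mS x * mD * mg3
  left : ∀ x, x ≤ -9 / 8 → ph x = ph (-2) ∧ rh x = rh (-2) ∧ et x = et (-2)
  right : ∀ x, 9 / 8 ≤ x →
    ph x = ph (-2) - 2 * Real.pi ∧ rh x = rh (-2) ∧ et x = et (-2)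
  rel2 : mRot ph2 * mn 13 (70 / 13) = mg2

private noncomputable def SurWnd_A (S : Matrix (Fin 2) (Fin 2) ℝ) : ℝ :=
  5 * (S 0 0 * S 1 1 + S 0 1 * S 1 0) - 24 * S 0 1 * S 1 1 - S 0 0 * S 1 0

private noncomputable def SurWnd_B (S : Matrix (Fin 2) (Fin 2) ℝ) : ℝ :=
  S 0 0 ^ 2 - 10 * S 0 0 * S 0 1 + 24 * S 0 1 ^ 2

private noncomputable def SurWnd_C (S : Matrix (Fin 2) (Fin 2) ℝ) : ℝ :=
  24 * S 1 1 ^ 2 - 10 * S 1 0 * S 1 1 + S 1 0 ^ 2

private theorem SurWnd_det {S : Matrix (Fin 2) (Fin 2) ℝ} (h : S.det = 1) :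
    SurWnd_A S * SurWnd_A S - SurWnd_B S * SurWnd_C S = 1 := by
  rw [Matrix.det_fin_two] at h
  simp only [SurWnd_A, SurWnd_B, SurWnd_C]
  linear_combination (S 0 0 * S 1 1 - S 0 1 * S 1 0 + 1) * h

private theorem SurWnd_mul {S : Matrix (Fin 2) (Fin 2) ℝ} (h : S.det = 1) :
    !![SurWnd_A S, SurWnd_B S; SurWnd_C S, SurWnd_A S] * S = mD * S * mD * mg3 := by
  obtain ⟨p, q, r, s, rfl⟩ : ∃ p q r s, S = !![p, q; r, s] := ⟨_, _, _, _, Matrix.eta_fin_two S⟩
  rw [Matrix.det_fin_two_of] at h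
  simp only [SurWnd_A, SurWnd_B, SurWnd_C, mD, mg3]
  refine Matrix.ext fun i j => ?_
  fin_cases i <;> fin_cases j <;>
    simp [Matrix.mul_apply, Fin.sum_univ_two]
  · linear_combination (5 * p - 24 * q) * h
  · linear_combination (p - 5 * q) * h
  · linear_combination (-5 * r + 24 * s) * h
  · linear_combination (-r + 5 * s) * h

private theorem SurWnd_pol {a b c d ρ φ : ℝ} (h : a * d - b * c = 1) (hρ : 0 < ρ)
    (ha : a = ρ * Real.cos φ) (hc : c = ρ * Real.sin φ) :
    mRot φ * mn ρ ((a * b + c * d) / ρ) = !![a, b; c, d] := by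
  have h1 := Real.sin_sq_add_cos_sq φ
  have hρ' : ρ ≠ 0 := hρ.ne'
  have h2 : a ^ 2 + c ^ 2 = ρ ^ 2 := by
    rw [ha, hc]
    linear_combination ρ ^ 2 * h1
  have hcos : Real.cos φ = a / ρ := by
    rw [ha]
    field_simp
  have hsin : Real.sin φ = c / ρ := by
    rw [hc]
    field_simp
  unfold mRot mn
  rw [hcos, hsin]
  refine Matrix.ext fun i j => ?_
  fin_cases i <;> fin_cases j <;> simp [Matrix.mul_apply, Fin.sum_univ_two]
  · field_simp
  · field_simp
    linear_combination b * h2 + c * h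
  · field_simp
  · field_simp
    linear_combination d * h2 - a * h

private theorem SurWnd_pos {S : Matrix (Fin 2) (Fin 2) ℝ} (h : S.det = 1) :
    0 < SurWnd_A S ^ 2 + SurWnd_C S ^ 2 := by
  have h1 := SurWnd_det h
  rcases eq_or_ne (SurWnd_C S) 0 with h2 | h2
  · rw [h2, mul_zero, sub_zero] at h1
    nlinarith
  · have h3 : 0 < SurWnd_C S ^ 2 := by positivity
    nlinarith [sq_nonneg (SurWnd_A S)]

private theorem SurWnd_t1 : ContDiff ℝ ∞ mt1 := by
  have h : ContDiff ℝ ∞ fun x : ℝ => 4 * (x + 1) + 1 / 2 := by fun_prop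
  exact Real.smoothTransition.contDiff.comp h

private theorem SurWnd_t2 : ContDiff ℝ ∞ mt2 := by
  have h : ContDiff ℝ ∞ fun x : ℝ => 4 * (x - 1) + 1 / 2 := by fun_prop
  exact Real.smoothTransition.contDiff.comp h

private theorem SurWnd_t1_one {x : ℝ} (h : -7 / 8 ≤ x) : mt1 x = 1 :=
  Real.smoothTransition.one_of_one_le (by linarith)

private theorem SurWnd_t1_zero {x : ℝ} (h : x ≤ -9 / 8) : mt1 x = 0 :=
  Real.smoothTransition.zero_of_nonpos (by linarith)

private theorem SurWnd_t2_zero {x : ℝ} (h : x ≤ 7 / 8) : mt2 x = 0 :=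
  Real.smoothTransition.zero_of_nonpos (by linarith)

private theorem SurWnd_t2_one {x : ℝ} (h : 9 / 8 ≤ x) : mt2 x = 1 :=
  Real.smoothTransition.one_of_one_le (by linarith)

private theorem SurWnd_a1 (t : ℝ) (ht : 0 < 1 + t) :
    SurWnd_A (mE1 t) = 5 ∧ SurWnd_C (mE1 t) = 24 / (1 + t) ^ 2 := by
  constructor
  · simp [SurWnd_A, mE1]
    field_simp
  · simp [SurWnd_C, mE1]
    field_simp

private theorem SurWnd_a2 (t : ℝ) (ht : 0 < 1 + t) :
    SurWnd_A (mE2 t * mE1 1) = wa ((1 + t) ^ 2) ∧ SurWnd_C (mE2 t * mE1 1) = wc ((1 + t) ^ 2) := by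
  have h1 : mE2 t * mE1 1 = !![2 * (-2 * (1 + t) + 3 / (1 + t)), (1 / 2) * (-(1 + t) + 1 / (1 + t));
      12 * ((1 + t) - 1 / (1 + t)), (1 / 2) * (3 * (1 + t) - 2 / (1 + t))] := by
    unfold mE2 mE1 mM mMi
    refine Matrix.ext fun i j => ?_
    fin_cases i <;> fin_cases j <;> simp [Matrix.mul_apply, Fin.sum_univ_two] <;> field_simp <;>
      ring
  rw [h1]
  constructor
  · simp only [SurWnd_A, wa, Matrix.of_apply, Matrix.cons_val_zero, Matrix.cons_val_one,
      Matrix.cons_val', Matrix.cons_val_fin_one]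
    field_simp
    ring
  · simp only [SurWnd_C, wc, Matrix.of_apply, Matrix.cons_val_zero, Matrix.cons_val_one,
      Matrix.cons_val', Matrix.cons_val_fin_one]
    field_simp
    ring

theorem exists_Wnd : Nonempty Wnd := by
  obtain ⟨θ, hθs, hθ, hθ1, hθ4⟩ := exists_angle
  set F1 : ℝ → ℝ := fun x => Real.arctan (24 / (5 * (1 + mt1 x) ^ 2)) with hF1
  set F2 : ℝ → ℝ := fun x => θ ((1 + mt2 x) ^ 2) with hF2
  have p1 : ∀ x, 0 < 1 + mt1 x := fun x => by linarith [(mt1_mem x).1]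
  have p2 : ∀ x, 0 < 1 + mt2 x := fun x => by linarith [(mt2_mem x).1]
  have hF1s : ContDiff ℝ ∞ F1 := by
    refine Real.contDiff_arctan.comp ?_
    refine contDiff_const.div (contDiff_const.mul ((contDiff_const.add SurWnd_t1).pow 2)) ?_
    intro x
    have := p1 x
    positivity
  have hF2s : ContDiff ℝ ∞ F2 := by
    have h1 : ContDiff ℝ ∞ fun x => (1 + mt2 x) ^ 2 := (contDiff_const.add SurWnd_t2).pow 2
    rw [contDiff_iff_contDiffAt]
    intro x
    have h2 : (1 + mt2 x) ^ 2 ∈ Ioi (0 : ℝ) := by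
      have := p2 x
      exact pow_pos this 2
    have h3 : ContDiffAt ℝ ∞ θ ((1 + mt2 x) ^ 2) := hθs.contDiffAt (isOpen_Ioi.mem_nhds h2)
    exact h3.comp x h1.contDiffAt
  have hmid : ∀ x, -7 / 8 ≤ x → x ≤ 7 / 8 → F1 x = F2 x := by
    intro x h1 h2
    simp only [hF1, hF2]
    rw [SurWnd_t1_one h1, SurWnd_t2_zero h2, add_zero, one_pow, hθ1]
    norm_num
  set ph : ℝ → ℝ := fun x => if x ≤ 0 then F1 x else F2 x with hph
  have hph1 : ∀ x, x ≤ 7 / 8 → ph x = F1 x := by
    intro x hx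
    simp only [hph]
    split_ifs with h
    · rfl
    · exact (hmid x (by linarith) hx).symm
  have hph2 : ∀ x, -7 / 8 ≤ x → ph x = F2 x := by
    intro x hx
    simp only [hph]
    split_ifs with h
    · exact hmid x hx (by linarith)
    · rfl
  have hphs : ContDiff ℝ ∞ ph := by
    rw [contDiff_iff_contDiffAt]
    intro x
    rcases le_or_gt x 0 with h | h
    · refine hF1s.contDiffAt.congr_of_eventuallyEq ?_
      have h1 : ∀ᶠ y in 𝓝 x, y < 7 / 8 := gt_mem_nhds (by linarith)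
      filter_upwards [h1] with y hy
      exact hph1 y hy.le
    · refine hF2s.contDiffAt.congr_of_eventuallyEq ?_
      have h1 : ∀ᶠ y in 𝓝 x, -7 / 8 < y := lt_mem_nhds (by linarith)
      filter_upwards [h1] with y hy
      exact hph2 y hy.le
  set rh : ℝ → ℝ := fun x => Real.sqrt (SurWnd_A (mS x) ^ 2 + SurWnd_C (mS x) ^ 2) with hrh
  have hrhp : ∀ x, 0 < rh x := fun x => Real.sqrt_pos.2 (SurWnd_pos (mS_det x))
  have hA : ContDiff ℝ ∞ fun x => SurWnd_A (mS x) := by
    have h00 := contDiff_mS 0 0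
    have h01 := contDiff_mS 0 1
    have h10 := contDiff_mS 1 0
    have h11 := contDiff_mS 1 1
    unfold SurWnd_A
    fun_prop
  have hB : ContDiff ℝ ∞ fun x => SurWnd_B (mS x) := by
    have h00 := contDiff_mS 0 0
    have h01 := contDiff_mS 0 1
    unfold SurWnd_B
    fun_prop
  have hC : ContDiff ℝ ∞ fun x => SurWnd_C (mS x) := by
    have h10 := contDiff_mS 1 0
    have h11 := contDiff_mS 1 1
    unfold SurWnd_C
    fun_prop
  have hrhs : ContDiff ℝ ∞ rh :=
    ((hA.pow 2).add (hC.pow 2)).sqrt fun x => (SurWnd_pos (mS_det x)).ne'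
  set et : ℝ → ℝ := fun x =>
    (SurWnd_A (mS x) * SurWnd_B (mS x) + SurWnd_C (mS x) * SurWnd_A (mS x)) / rh x with het
  have hets : ContDiff ℝ ∞ et :=
    ((hA.mul hB).add (hC.mul hA)).div hrhs fun x => (hrhp x).ne'
  have hang : ∀ x, SurWnd_A (mS x) = rh x * Real.cos (ph x) ∧
      SurWnd_C (mS x) = rh x * Real.sin (ph x) := by
    intro x
    rcases le_or_gt x 0 with h | h
    · have h1 : mS x = mE1 (mt1 x) := mS_one' (by linarith)
      obtain ⟨e1, e2⟩ := SurWnd_a1 (mt1 x) (p1 x)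
      rw [hph1 x (by linarith)]
      simp only [hrh, hF1]
      rw [h1, e1, e2, Real.cos_arctan, Real.sin_arctan]
      have h3 := p1 x
      have h2 : Real.sqrt (5 ^ 2 + (24 / (1 + mt1 x) ^ 2) ^ 2) =
          5 * Real.sqrt (1 + (24 / (5 * (1 + mt1 x) ^ 2)) ^ 2) := by
        have h4 : (5 : ℝ) ^ 2 + (24 / (1 + mt1 x) ^ 2) ^ 2 =
            5 ^ 2 * (1 + (24 / (5 * (1 + mt1 x) ^ 2)) ^ 2) := by
          field_simp
        rw [h4, Real.sqrt_mul (by norm_num), Real.sqrt_sq (by norm_num)]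
      have h5 : 0 < Real.sqrt (1 + (24 / (5 * (1 + mt1 x) ^ 2)) ^ 2) :=
        Real.sqrt_pos.2 (by positivity)
      rw [h2]
      constructor
      · field_simp
      · field_simp
    · have h1 : mS x = mE2 (mt2 x) * mE1 1 := by
        unfold mS
        rw [SurWnd_t1_one (by linarith)]
      obtain ⟨e1, e2⟩ := SurWnd_a2 (mt2 x) (p2 x)
      rw [hph2 x (by linarith)]
      simp only [hrh, hF2]
      rw [h1, e1, e2]
      obtain ⟨q1, q2, -⟩ := hθ ((1 + mt2 x) ^ 2) (pow_pos (p2 x) 2)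
      exact ⟨q1, q2⟩
  refine ⟨{ ph := ph, rh := rh, et := et, ph2 := Real.arctan (12 / 5) + Real.pi,
            smooth_ph := hphs, smooth_rh := hrhs, smooth_et := hets, rh_pos := hrhp,
            rel := ?_, left := ?_, right := ?_, rel2 := ?_ }⟩
  · intro x
    obtain ⟨q1, q2⟩ := hang x
    have h1 := SurWnd_pol (SurWnd_det (mS_det x)) (hrhp x) q1 q2
    have h2 : et x = (SurWnd_A (mS x) * SurWnd_B (mS x) + SurWnd_C (mS x) * SurWnd_A (mS x)) /
      rh x := rfl
    rw [h2, h1]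
    exact SurWnd_mul (mS_det x)
  · intro x hx
    have h1 : mS x = mS (-2) := by rw [mS_left hx, mS_left (by norm_num)]
    have h2 : rh x = rh (-2) := by simp only [hrh, h1]
    refine ⟨?_, h2, ?_⟩
    · rw [hph1 x (by linarith), hph1 (-2) (by norm_num)]
      simp only [hF1]
      rw [SurWnd_t1_zero hx, SurWnd_t1_zero (by norm_num)]
    · simp only [het, h2, h1]
  · intro x hx
    have h1 : mS x = !![-5, -3 / 4; 18, 5 / 2] := mS_right hx
    have h2 : mS (-2) = 1 := mS_left (by norm_num)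
    have hAx : SurWnd_A (mS x) = SurWnd_A (mS (-2)) := by
      rw [h1, h2]
      simp [SurWnd_A]
      norm_num
    have hBx : SurWnd_B (mS x) = SurWnd_B (mS (-2)) := by
      rw [h1, h2]
      simp [SurWnd_B]
      norm_num
    have hCx : SurWnd_C (mS x) = SurWnd_C (mS (-2)) := by
      rw [h1, h2]
      simp [SurWnd_C]
      norm_num
    have h3 : rh x = rh (-2) := by simp only [hrh, hAx, hCx]
    refine ⟨?_, h3, ?_⟩
    · rw [hph2 x (by linarith), hph1 (-2) (by norm_num)]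
      simp only [hF1, hF2]
      rw [SurWnd_t2_one hx, SurWnd_t1_zero (by norm_num)]
      norm_num
      exact hθ4
    · simp only [het, h3, hAx, hBx, hCx]
  · have h1 : Real.sqrt (1 + (12 / 5 : ℝ) ^ 2) = 13 / 5 := by
      rw [show (1 + (12 / 5 : ℝ) ^ 2) = (13 / 5) ^ 2 by norm_num]
      exact Real.sqrt_sq (by norm_num)
    have hc : Real.cos (Real.arctan (12 / 5) + Real.pi) = -5 / 13 := by
      rw [Real.cos_add_pi, Real.cos_arctan, h1]
      norm_num
    have hs : Real.sin (Real.arctan (12 / 5) + Real.pi) = -12 / 13 := by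
      rw [Real.sin_add_pi, Real.sin_arctan, h1]
      norm_num
    unfold mRot mn mg2
    rw [hc, hs]
    refine Matrix.ext fun i j => ?_
    fin_cases i <;> fin_cases j <;> simp [Matrix.mul_apply, Fin.sum_univ_two] <;> norm_num

end Pool.Agent.EXO
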