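import Mathlib
import Pool.Agent.EXO.SurWnd
import Pool.Agent.EXO.SurSgD
import Pool.Agent.EXO.SurFr

/-!
# EXO / SurF0D: the explicit frames over the surface of genus two (definitions)

Ten frames, indexed by `(r, up)`: `r = 0` upper sheet, `r = 1` lower sheet, `r = 2, 3, 4` the bands around the circles around `(-1, 0)`,
around `(1, 0)` and around the outer circle; `up = true` for `y > -1/4`, `up = false` for `y < 1/4`.  All are given by the same
formula: `Φ ((a, j), l) = fw j * fz l` for `a = 0` and the complex conjugate for `a = 1`.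
-/

set_option autoImplicit false
set_option maxSynthPendingDepth 3

open Set Matrix
open scoped ContDiff ComplexConjugate

namespace Pool.Agent.EXO

noncomputable def fP (z : ℝ) : ℝ := Real.sin (Real.pi / 2 * stp (2 * z + 1 / 2))

noncomputable def fM (z : ℝ) : ℝ := Real.cos (Real.pi / 2 * stp (2 * z + 1 / 2))

noncomputable def fN (z : ℝ) : ℝ := 1 - stp (6 * z - 3)

/-- The interpolation between `mn ρ η` (for `z ≤ 1/2`) and `1` (for `2/3 ≤ z`). -/
noncomputable def mNN (z ρ η : ℝ) : Matrix (Fin 2) (Fin 2) ℝ :=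
  !![1 + fN z * (ρ - 1), fN z * η; 0, 1 / (1 + fN z * (ρ - 1))]

/-- The index set of the frames. -/
abbrev FI := Fin 5 × Bool

namespace Wnd

variable (w : Wnd)

noncomputable def fph (i : FI) (x : ℝ) : ℝ :=
  if i.1 = 3 then w.ph2 else if i.1 = 4 then (if i.2 then w.ph x else w.ph (-2)) else 0

noncomputable def frh (i : FI) (x : ℝ) : ℝ :=
  if i.1 = 3 then 13 else if i.1 = 4 then (if i.2 then w.rh x else w.rh (-2)) else 1

noncomputable def fet (i : FI) (x : ℝ) : ℝ :=
  if i.1 = 3 then 70 / 13 else if i.1 = 4 then (if i.2 then w.et x else w.et (-2)) else 0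

end Wnd

noncomputable def fS (i : FI) (x : ℝ) : Matrix (Fin 2) (Fin 2) ℝ :=
  if i.2 then (if i.1 = 1 then mD * mS x * mD else mS x) else 1

/-- The condition on `z`, and the neighbourhood of the circle. -/
def fR (r : Fin 5) (p : En 3) : Prop :=
  if r = 0 then 3 / 4 < p 2 else if r = 1 then p 2 < -3 / 4 else
    if r = 2 then |p 2| < 1 ∧ (p 0 + 1) ^ 2 + (p 1) ^ 2 < 9 / 16 else
      if r = 3 then |p 2| < 1 ∧ (p 0 - 1) ^ 2 + (p 1) ^ 2 < 9 / 16 else
        |p 2| < 1 ∧ 25 / 4 < (p 0) ^ 2 + (p 1) ^ 2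

def fO (i : FI) : Set (En 3) := {p | fR i.1 p ∧ (if i.2 then -1 / 4 < p 1 else p 1 < 1 / 4)}

namespace Wnd

variable (w : Wnd)

noncomputable def Gf (i : FI) (x z : ℝ) : Matrix (Fin 2) (Fin 2) ℝ :=
  mNN z (w.frh i x) (w.fet i x) * fS i x

noncomputable def fw (i : FI) (p : En 3) (j : Fin 2) : ℂ :=
  if j = 0 then (fP (p 2) : ℂ) else (fM (p 2) : ℂ) * Complex.exp (Complex.I * w.fph i (p 0))

noncomputable def fz (i : FI) (p : En 3) (l : Fin 2) : ℂ :=
  (w.Gf i (p 0) (p 2) 0 l : ℂ) + Complex.I * w.Gf i (p 0) (p 2) 1 l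

noncomputable def fW (i : FI) (p : En 3) : Matrix (Fin 2 × Fin 2) (Fin 2) ℂ :=
  Matrix.of fun a k => if a.1 = k then (if k = 0 then w.fw i p a.2 else conj (w.fw i p a.2))
    else 0

noncomputable def fG (i : FI) (p : En 3) : Matrix (Fin 2) (Fin 2) ℂ :=
  Matrix.of fun k l => if k = 0 then w.fz i p l else conj (w.fz i p l)

/-- The matrix `w_j ζ_l`. -/
noncomputable def fZ (i : FI) (p : En 3) : Matrix (Fin 2) (Fin 2) ℂ :=
  Matrix.of fun j l => w.fw i p j * w.fz i p l

end Wnd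

noncomputable def fh : Matrix (Fin 2) (Fin 2) ℂ := !![0, 2 * Complex.I; -(2 * Complex.I), 0]

noncomputable def fhi : Matrix (Fin 2) (Fin 2) ℂ := !![0, Complex.I / 2; -(Complex.I / 2), 0]

/-- The grading of `ℂ^(2 × 2)`. -/
noncomputable def fs (a : Fin 2 × Fin 2) : ℂ := if a.1 = 0 then 1 else -1

end Pool.Agent.EXO
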