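import Mathlib
import Pool.Agent.EXO.SurF0D
import Pool.Agent.EXO.SurAlg8

/-!
# EXO / SurF0A: the explicit frames: smoothness and algebraic properties

PROOFS.
* `fN_mem`: `stp` has values in `[0, 1]`.  `fN_pos`: `1 + s (ρ - 1) = (1 - s) + s ρ > 0` for `s ∈ [0, 1]`, `ρ > 0`.
* `mNN_low`: `z ≤ 1/2`: `fN z = 1`; `mNN_high`: `2/3 ≤ z`: `fN z = 0`.
* `fP_low`: `z ≤ -1/4`: `stp = 0`, `fP = 0`, `fM = 1`; `fP_high`: `1/4 ≤ z`: `fP = 1`, `fM = 0`.
* `Gf_det`: `det (mNN ..) = 1`, `det (mS) = 1`, `det D = -1`.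
* `fw_norm`: `fP^2 + fM^2 = 1`, `‖exp (i φ)‖ = 1`.
* `smooth_Gf`: entries are smooth functions of `(x, z)` (denominator positive).
* `fW_W`: the entry `(k, l)` of `Wᴴ W` is `δ_kl ∑_j |w_j|^2`.
* `fs_W`: entrywise.
* `fG_G`: the entry `(k, l)` of `Γᴴ σ Γ` is `conj ζ_k ζ_l - ζ_k conj ζ_l = 2 i Im (conj ζ_k ζ_l)` and `Im (conj ζ_0 ζ_1) = det Gf = 1`.
* `fhi_h`, `fhi_herm`: computation.
* `openO`: `fO i` is defined by strict inequalities between continuous functions.
* `fO_cover`: `Sg_band` of SurSgA: if `|p 2| ≤ 3/4` the point lies on one of the three circles.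
* `fW_mul_G`: `(fW * fG) ((a, j), l) = fZ j l` for `a = 0`, its conjugate for `a = 1`.
-/

set_option autoImplicit false
set_option maxSynthPendingDepth 3

open Set Matrix
open scoped ContDiff ComplexConjugate

namespace Pool.Agent.EXO

theorem fN_mem (z : ℝ) : fN z ∈ Icc (0 : ℝ) 1 := by
  unfold fN stp
  have h1 := Real.smoothTransition.nonneg (6 * z - 3)
  have h2 := Real.smoothTransition.le_one (6 * z - 3)
  exact ⟨by linarith, by linarith⟩

theorem fN_pos (z : ℝ) {ρ : ℝ} (hρ : 0 < ρ) : 0 < 1 + fN z * (ρ - 1) := by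
  obtain ⟨h1, h2⟩ := fN_mem z
  have e : 1 + fN z * (ρ - 1) = (1 - fN z) + fN z * ρ := by ring
  rw [e]
  rcases eq_or_lt_of_le h2 with h | h
  · rw [h]; linarith
  · have : 0 ≤ fN z * ρ := mul_nonneg h1 hρ.le
    linarith

theorem mNN_low {z : ℝ} (h : z ≤ 1 / 2) (ρ η : ℝ) : mNN z ρ η = mn ρ η := by
  have h1 : fN z = 1 := by
    unfold fN stp
    rw [Real.smoothTransition.zero_of_nonpos (by linarith), sub_zero]
  unfold mNN mn
  rw [h1, one_mul, one_mul, add_sub_cancel]

theorem mNN_high {z : ℝ} (h : 2 / 3 ≤ z) (ρ η : ℝ) : mNN z ρ η = 1 := by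
  have h1 : fN z = 0 := by
    unfold fN stp
    rw [Real.smoothTransition.one_of_one_le (by linarith), sub_self]
  unfold mNN
  rw [h1, Matrix.one_fin_two]
  simp

theorem mNN_one (z : ℝ) : mNN z 1 0 = 1 := by
  unfold mNN
  rw [Matrix.one_fin_two]
  simp

theorem mNN_det (z : ℝ) {ρ : ℝ} (hρ : 0 < ρ) (η : ℝ) : (mNN z ρ η).det = 1 := by
  have h := (fN_pos z hρ).ne'
  unfold mNN
  rw [Matrix.det_fin_two_of]
  field_simp
  ring

theorem fP_low {z : ℝ} (h : z ≤ -1 / 4) : fP z = 0 ∧ fM z = 1 := by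
  have h1 : stp (2 * z + 1 / 2) = 0 := by
    unfold stp
    exact Real.smoothTransition.zero_of_nonpos (by linarith)
  unfold fP fM
  rw [h1]
  simp

theorem fP_high {z : ℝ} (h : 1 / 4 ≤ z) : fP z = 1 ∧ fM z = 0 := by
  have h1 : stp (2 * z + 1 / 2) = 1 := by
    unfold stp
    exact Real.smoothTransition.one_of_one_le (by linarith)
  unfold fP fM
  rw [h1]
  simp

private theorem f0a_open_lt {f g : En 3 → ℝ} (hf : Continuous f) (hg : Continuous g) :
    IsOpen {p | f p < g p} := isOpen_lt hf hg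

private theorem f0a_openR (r : Fin 5) : IsOpen {p : En 3 | fR r p} := by
  have c0 : Continuous fun p : En 3 => p 0 := by fun_prop
  have c1 : Continuous fun p : En 3 => p 1 := by fun_prop
  have c2 : Continuous fun p : En 3 => p 2 := by fun_prop
  fin_cases r
  · have e : {p : En 3 | fR (((fun i => i) ⟨0, by norm_num⟩ : Fin 5)) p} = {p | 3 / 4 < p 2} := by
      ext p; simp [fR]
    rw [e]
    exact isOpen_lt continuous_const c2
  · have e : {p : En 3 | fR (((fun i => i) ⟨1, by norm_num⟩ : Fin 5)) p} = {p | p 2 < -3 / 4} := by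
      ext p; simp [fR]
    rw [e]
    exact isOpen_lt c2 continuous_const
  · have e : {p : En 3 | fR (((fun i => i) ⟨2, by norm_num⟩ : Fin 5)) p} =
        {p | |p 2| < 1} ∩ {p | (p 0 + 1) ^ 2 + (p 1) ^ 2 < 9 / 16} := by
      ext p; simp [fR]
    rw [e]
    exact (isOpen_lt c2.abs continuous_const).inter
      (isOpen_lt (((c0.add continuous_const).pow 2).add (c1.pow 2)) continuous_const)
  · have e : {p : En 3 | fR (((fun i => i) ⟨3, by norm_num⟩ : Fin 5)) p} =
        {p | |p 2| < 1} ∩ {p | (p 0 - 1) ^ 2 + (p 1) ^ 2 < 9 / 16} := by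
      ext p; simp [fR]
    rw [e]
    exact (isOpen_lt c2.abs continuous_const).inter
      (isOpen_lt (((c0.sub continuous_const).pow 2).add (c1.pow 2)) continuous_const)
  · have e : {p : En 3 | fR (((fun i => i) ⟨4, by norm_num⟩ : Fin 5)) p} =
        {p | |p 2| < 1} ∩ {p | 25 / 4 < (p 0) ^ 2 + (p 1) ^ 2} := by
      ext p; simp [fR]
    rw [e]
    exact (isOpen_lt c2.abs continuous_const).inter
      (isOpen_lt continuous_const ((c0.pow 2).add (c1.pow 2)))

theorem openfO (i : FI) : IsOpen (fO i) := by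
  obtain ⟨r, b⟩ := i
  have c1 : Continuous fun p : En 3 => p 1 := by fun_prop
  have e : fO (r, b) = {p | fR r p} ∩ {p | if b then -1 / 4 < p 1 else p 1 < 1 / 4} := rfl
  rw [e]
  refine (f0a_openR r).inter ?_
  cases b
  · simpa using isOpen_lt c1 continuous_const
  · simpa using isOpen_lt continuous_const c1

private theorem f0a_stp : ContDiff ℝ ∞ stp := Real.smoothTransition.contDiff

private theorem f0a_fN : ContDiff ℝ ∞ fN := by
  unfold fN
  exact contDiff_const.sub (f0a_stp.comp ((contDiff_const.mul contDiff_id).sub contDiff_const))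

private theorem f0a_fP : ContDiff ℝ ∞ fP := by
  unfold fP
  exact Real.contDiff_sin.comp (contDiff_const.mul
    (f0a_stp.comp ((contDiff_const.mul contDiff_id).add contDiff_const)))

private theorem f0a_fM : ContDiff ℝ ∞ fM := by
  unfold fM
  exact Real.contDiff_cos.comp (contDiff_const.mul
    (f0a_stp.comp ((contDiff_const.mul contDiff_id).add contDiff_const)))

private theorem mul2_apply {R : Type} [CommRing R] (A B : Matrix (Fin 2) (Fin 2) R)
    (i j : Fin 2) : (A * B) i j = A i 0 * B 0 j + A i 1 * B 1 j := by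
  rw [Matrix.mul_apply, Fin.sum_univ_two]

private theorem f0a_cD {A B : ℝ → Matrix (Fin 2) (Fin 2) ℝ}
    (hA : ∀ a b, ContDiff ℝ ∞ fun x => A x a b) (hB : ∀ a b, ContDiff ℝ ∞ fun x => B x a b)
    (a b : Fin 2) : ContDiff ℝ ∞ fun x => (A x * B x) a b := by
  simp only [mul2_apply]
  exact ((hA _ _).mul (hB _ _)).add ((hA _ _).mul (hB _ _))

private theorem f0a_fS (i : FI) (a b : Fin 2) : ContDiff ℝ ∞ fun x => fS i x a b := by
  unfold fS
  split_ifs
  · exact f0a_cD (A := fun x => mD * mS x) (B := fun _ => mD)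
      (fun a b => f0a_cD (A := fun _ => mD) (B := mS) (fun _ _ => contDiff_const) contDiff_mS a b)
      (fun _ _ => contDiff_const) a b
  · exact contDiff_mS a b
  · exact contDiff_const

namespace Wnd

variable (w : Wnd)

theorem frh_pos (i : FI) (x : ℝ) : 0 < w.frh i x := by
  unfold frh
  split_ifs
  · norm_num
  · exact w.rh_pos _
  · exact w.rh_pos _
  · norm_num

private theorem f0a_frh (i : FI) : ContDiff ℝ ∞ (w.frh i) := by
  unfold frh
  split_ifs
  · exact contDiff_const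
  · exact w.smooth_rh
  · exact contDiff_const
  · exact contDiff_const

private theorem f0a_fet (i : FI) : ContDiff ℝ ∞ (w.fet i) := by
  unfold fet
  split_ifs
  · exact contDiff_const
  · exact w.smooth_et
  · exact contDiff_const
  · exact contDiff_const

private theorem f0a_fph (i : FI) : ContDiff ℝ ∞ (w.fph i) := by
  unfold fph
  split_ifs
  · exact contDiff_const
  · exact w.smooth_ph
  · exact contDiff_const
  · exact contDiff_const

private theorem f0a_detS (i : FI) (x : ℝ) : (fS i x).det = 1 := by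
  unfold fS
  split_ifs
  · rw [Matrix.det_mul, Matrix.det_mul, mS_det, mul_one, ← Matrix.det_mul, mD_mD, Matrix.det_one]
  · exact mS_det x
  · exact Matrix.det_one

theorem Gf_det (i : FI) (x z : ℝ) : (w.Gf i x z).det = 1 := by
  unfold Gf
  rw [Matrix.det_mul, mNN_det z (w.frh_pos i x), f0a_detS, one_mul]

theorem smooth_Gf (i : FI) (a b : Fin 2) :
    ContDiff ℝ ∞ fun p : ℝ × ℝ => w.Gf i p.1 p.2 a b := by
  have h1 : ContDiff ℝ ∞ fun p : ℝ × ℝ => fN p.2 := f0a_fN.comp contDiff_snd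
  have h2 : ContDiff ℝ ∞ fun p : ℝ × ℝ => w.frh i p.1 := (w.f0a_frh i).comp contDiff_fst
  have h3 : ContDiff ℝ ∞ fun p : ℝ × ℝ => w.fet i p.1 := (w.f0a_fet i).comp contDiff_fst
  have h4 : ContDiff ℝ ∞ fun p : ℝ × ℝ => 1 + fN p.2 * (w.frh i p.1 - 1) :=
    contDiff_const.add (h1.mul (h2.sub contDiff_const))
  have h5 : ∀ a b : Fin 2, ContDiff ℝ ∞ fun p : ℝ × ℝ =>
      mNN p.2 (w.frh i p.1) (w.fet i p.1) a b := by
    intro a b
    fin_cases a <;> fin_cases b
    · exact h4
    · exact h1.mul h3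
    · exact contDiff_const
    · exact contDiff_const.div h4 fun p => (fN_pos p.2 (w.frh_pos i p.1)).ne'
  have h6 : ∀ a b : Fin 2, ContDiff ℝ ∞ fun p : ℝ × ℝ => fS i p.1 a b := fun a b =>
    (f0a_fS i a b).comp contDiff_fst
  unfold Gf
  simp only [mul2_apply]
  exact ((h5 _ _).mul (h6 _ _)).add ((h5 _ _).mul (h6 _ _))

private theorem f0a_PM (z : ℝ) : fP z ^ 2 + fM z ^ 2 = 1 := by
  unfold fP fM
  exact Real.sin_sq_add_cos_sq _

theorem fw_norm (i : FI) (p : En 3) : ∑ j, w.fw i p j * conj (w.fw i p j) = 1 := by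
  rw [Fin.sum_univ_two]
  have h1 := f0a_PM (p 2)
  have h2 : Complex.exp (Complex.I * (w.fph i (p 0) : ℂ)) *
      conj (Complex.exp (Complex.I * (w.fph i (p 0) : ℂ))) = 1 := by
    rw [Complex.mul_conj, Complex.normSq_eq_norm_sq, mul_comm Complex.I,
      Complex.norm_exp_ofReal_mul_I]
    norm_num
  have h3 : w.fw i p 0 = (fP (p 2) : ℂ) := by simp [fw]
  have h4 : w.fw i p 1 = (fM (p 2) : ℂ) * Complex.exp (Complex.I * w.fph i (p 0)) := by
    simp [fw]
  rw [h3, h4, map_mul, Complex.conj_ofReal, Complex.conj_ofReal]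
  calc (fP (p 2) : ℂ) * (fP (p 2) : ℂ) + (fM (p 2) : ℂ) *
        Complex.exp (Complex.I * (w.fph i (p 0) : ℂ)) *
        ((fM (p 2) : ℂ) * conj (Complex.exp (Complex.I * (w.fph i (p 0) : ℂ))))
      = (fP (p 2) : ℂ) ^ 2 + (fM (p 2) : ℂ) ^ 2 *
        (Complex.exp (Complex.I * (w.fph i (p 0) : ℂ)) *
        conj (Complex.exp (Complex.I * (w.fph i (p 0) : ℂ)))) := by ring
    _ = ((fP (p 2) ^ 2 + fM (p 2) ^ 2 : ℝ) : ℂ) := by rw [h2]; push_cast; ring
    _ = 1 := by rw [h1]; norm_num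

private theorem f0a_coord (k : Fin 3) : ContDiff ℝ ∞ fun p : En 3 => p k := by fun_prop

private theorem f0a_ofReal {f : En 3 → ℝ} (hf : ContDiff ℝ ∞ f) :
    ContDiff ℝ ∞ fun p => (f p : ℂ) := Complex.ofRealCLM.contDiff.comp hf

private theorem f0a_conj {f : En 3 → ℂ} (hf : ContDiff ℝ ∞ f) :
    ContDiff ℝ ∞ fun p => conj (f p) := Complex.conjCLE.contDiff.comp hf

private theorem f0a_cexp : ContDiff ℝ ∞ Complex.exp := Complex.contDiff_exp

private theorem f0a_fw (i : FI) (j : Fin 2) : ContDiff ℝ ∞ fun p => w.fw i p j := by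
  unfold fw
  split_ifs
  · exact f0a_ofReal (f0a_fP.comp (f0a_coord 2))
  · exact (f0a_ofReal (f0a_fM.comp (f0a_coord 2))).mul
      (f0a_cexp.comp (contDiff_const.mul (f0a_ofReal ((w.f0a_fph i).comp (f0a_coord 0)))))

private theorem f0a_fz (i : FI) (l : Fin 2) : ContDiff ℝ ∞ fun p => w.fz i p l := by
  unfold fz
  have h : ∀ a b : Fin 2, ContDiff ℝ ∞ fun p : En 3 => w.Gf i (p 0) (p 2) a b := fun a b =>
    ContDiff.comp (g := fun q : ℝ × ℝ => w.Gf i q.1 q.2 a b) (f := fun p : En 3 => (p 0, p 2))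
      (w.smooth_Gf i a b) ((f0a_coord 0).prodMk (f0a_coord 2))
  exact (f0a_ofReal (h _ _)).add (contDiff_const.mul (f0a_ofReal (h _ _)))

theorem smfW (i : FI) (p : En 3) : SmM (w.fW i) p := by
  intro a k
  refine ContDiff.contDiffAt ?_
  unfold fW
  simp only [Matrix.of_apply]
  split_ifs
  · exact w.f0a_fw i _
  · exact f0a_conj (w.f0a_fw i _)
  · exact contDiff_const

theorem smfG (i : FI) (p : En 3) : SmM (w.fG i) p := by
  intro a k
  refine ContDiff.contDiffAt ?_
  unfold fG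
  simp only [Matrix.of_apply]
  split_ifs
  · exact w.f0a_fz i _
  · exact f0a_conj (w.f0a_fz i _)

theorem fW_W (i : FI) (p : En 3) : (w.fW i p)ᴴ * w.fW i p = 1 := by
  have h := w.fw_norm i p
  rw [Fin.sum_univ_two] at h
  have h' : w.fw i p 0 * conj (w.fw i p 0) + w.fw i p 1 * conj (w.fw i p 1) = 1 := h
  ext k l
  rw [Matrix.mul_apply, Fintype.sum_prod_type]
  simp only [Fin.sum_univ_two, Matrix.conjTranspose_apply, fW, Matrix.of_apply]
  fin_cases k <;> fin_cases l <;> simp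
  all_goals linear_combination h'

theorem fs_W (i : FI) (p : En 3) : diagonal fs * w.fW i p = w.fW i p * diagonal sg8 := by
  ext a k
  rw [Matrix.diagonal_mul, Matrix.mul_diagonal]
  obtain ⟨a, j⟩ := a
  simp only [fW, Matrix.of_apply, fs, sg8]
  fin_cases a <;> fin_cases k <;> simp

theorem fG_G (i : FI) (p : En 3) : (w.fG i p)ᴴ * diagonal sg8 * w.fG i p = fh := by
  have h := w.Gf_det i (p 0) (p 2)
  rw [Matrix.det_fin_two] at h
  have hc : (w.Gf i (p 0) (p 2) 0 0 : ℂ) * w.Gf i (p 0) (p 2) 1 1 -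
      w.Gf i (p 0) (p 2) 0 1 * w.Gf i (p 0) (p 2) 1 0 = 1 := by
    rw [← Complex.ofReal_mul, ← Complex.ofReal_mul, ← Complex.ofReal_sub, h]
    norm_num
  have hI : Complex.I ^ 2 = -1 := Complex.I_sq
  ext k l
  rw [mul2_apply, Matrix.mul_diagonal, Matrix.mul_diagonal]
  simp only [Matrix.conjTranspose_apply, fG, Matrix.of_apply, fz, sg8, fh]
  fin_cases k <;> fin_cases l <;> simp
  · ring
  · linear_combination (2 * Complex.I) * hc
  · linear_combination (-2 * Complex.I) * hc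
  · ring

theorem fW_mul_G (i : FI) (p : En 3) : w.fW i p * w.fG i p = Matrix.of fun a l =>
    if a.1 = 0 then w.fZ i p a.2 l else conj (w.fZ i p a.2 l) := by
  ext a l
  obtain ⟨a, j⟩ := a
  rw [Matrix.mul_apply, Fin.sum_univ_two]
  simp only [fW, fG, fZ, Matrix.of_apply]
  fin_cases a <;> simp

end Wnd

theorem fhi_h : fhi * fh = 1 := by
  unfold fhi fh
  rw [Matrix.one_fin_two]
  ext i j
  have hI : Complex.I * Complex.I = -1 := Complex.I_mul_I
  fin_cases i <;> fin_cases j <;> simp [Matrix.mul_apply, Fin.sum_univ_two]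
  · linear_combination (-1 : ℂ) * hI
  · linear_combination (-1 : ℂ) * hI

theorem fhi_herm : fhiᴴ = fhi := by
  unfold fhi
  ext i j
  fin_cases i <;> fin_cases j <;> simp [Matrix.conjTranspose_apply]
  · ring
  · ring

end Pool.Agent.EXO
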