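import Mathlib
import Pool.Agent.EXO.SurF0D
import Pool.Agent.EXO.SurCh2

/-!
# EXO / SurKD: the curvature function of the explicit frames (definitions)
-/

set_option autoImplicit false
set_option maxSynthPendingDepth 3

open Set Matrix

namespace Pool.Agent.EXO

namespace Wnd

variable (w : Wnd)

/-- The partial derivatives of the entries of `Gf`. -/
noncomputable def gx (i : FI) (x z : ℝ) (a b : Fin 2) : ℝ := deriv (fun s => w.Gf i s z a b) x

noncomputable def gz (i : FI) (x z : ℝ) (a b : Fin 2) : ℝ := deriv (fun t => w.Gf i x t a b) z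

/-- The coefficient of the curvature. -/
noncomputable def Kf (i : FI) (x z : ℝ) : ℝ :=
  w.gx i x z 0 0 * w.gz i x z 0 1 - w.gz i x z 0 0 * w.gx i x z 0 1
    + w.gx i x z 1 0 * w.gz i x z 1 1 - w.gz i x z 1 0 * w.gx i x z 1 1

/-- The components of the connection form. -/
noncomputable def Ax (i : FI) (x z : ℝ) : ℝ :=
  (1 / 2) * (w.Gf i x z 0 0 * w.gx i x z 0 1 - w.Gf i x z 0 1 * w.gx i x z 0 0
    + w.Gf i x z 1 0 * w.gx i x z 1 1 - w.Gf i x z 1 1 * w.gx i x z 1 0)

noncomputable def Az (i : FI) (x z : ℝ) : ℝ :=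
  (1 / 2) * (w.Gf i x z 0 0 * w.gz i x z 0 1 - w.Gf i x z 0 1 * w.gz i x z 0 0
    + w.Gf i x z 1 0 * w.gz i x z 1 1 - w.Gf i x z 1 1 * w.gz i x z 1 0)

end Wnd

/-- The frame which is used over the chart `a`. -/
def ci (a : Fin 2) : FI := if a = 0 then (4, true) else (3, true)

end Pool.Agent.EXO
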