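import Mathlib
import Pool.Agent.EXO.SurKD
import Pool.Agent.EXO.SurF0A

/-!
# EXO / SurJA: the integral of the curvature over a rectangle

PROOFS.
* `K_green`: `Kf = ∂_x Az - ∂_z Ax` (prove it here again as a private lemma if SurK is not finished; mixed second derivatives
  cancel) and the divergence theorem `MeasureTheory.integral2_divergence_prod_of_hasFDerivAt_off_countable` with `f = Az`,
  `g = -Ax` (smooth functions on `ℝ × ℝ`, `smooth_Gf`), or directly: `∫_x ∫_z ∂_z Ax` by the fundamental theorem in `z`, and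
  `∫_x ∫_z ∂_x Az` by Fubini (`intervalIntegral_integral_interchange`-like) and the fundamental theorem in `x`.
* `Ax_top`: for `2/3 < z` `Gf i x z = fS i x` near `(x, z)`, so `Ax i x z = (1/2)(S00 S01' - ...) = aS x`.
* `Ax_bot3`: for `z < 1/2`, `i = (3, true)`: `Gf = mn 13 (70/13) * mS x = mRot (-ph2) * mg2 * mS x` (`rel2`) `= mRot (-ph2) * (D S D) * mc2`
  for `x ≥ -7/8` (`mS_two`).  The form `A(G) = (1/2)(G00 dG01 - G01 dG00 + G10 dG11 - G11 dG10)` satisfies `A (R G) = A G` for a constant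
  rotation `R` on the left, `A (G c) = det c * A G` for a constant matrix `c` on the right, `A (D G D) = - A G`.  So `Ax = - aS x`.
  (`x > -7/8`, near `x`.)
* `Ax_bot4`: `i = (4, true)`: `Gf = mn (rh x) (et x) * mS x = mRot (-(ph x)) * (D S D) * mg3` (`rel`).  For a variable rotation
  `A (mRot (ψ x) G) = A G - ψ' det G`; `ψ = - ph`: `Ax = - aS x + deriv ph x`.
* `Az_right`: `Az (4, true) 2 z = Az (4, true) (-2) z`: `Gf i x z = mNN z (rh x) (et x) * mS x`, `A` in the direction `z` is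
  `A (mNN) * det (mS) = A (mNN z ρ η)`, and `rh 2 = rh (-2)`, `et 2 = et (-2)` (field `right`).
* `Az_3`: `Az (3, true) x z` does not depend on `x` (the same argument, `ρ`, `η` constant).
* `aS_supp`: `aS x = 0` unless `7/8 < x < 9/8`: for `x ≤ 7/8`, `mS = E1 (t1 x)` is diagonal near `x` (for `x < 7/8`; at `7/8` by continuity, or
  `mt2` has derivative zero), the off-diagonal entries and their derivatives vanish; for `x ≥ 9/8` `mS` is constant.
-/

set_option autoImplicit false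
set_option maxSynthPendingDepth 3

open Set Filter Topology Matrix MeasureTheory
open scoped ContDiff

namespace Pool.Agent.EXO

/-- The connection form of the upper sheet (in the direction `x`). -/
noncomputable def aS (x : ℝ) : ℝ :=
  (1 / 2) * (mS x 0 0 * deriv (fun s => mS s 0 1) x - mS x 0 1 * deriv (fun s => mS s 0 0) x
    + mS x 1 0 * deriv (fun s => mS s 1 1) x - mS x 1 1 * deriv (fun s => mS s 1 0) x)

/-! ### matrix valued curves -/

private abbrev JM := Matrix (Fin 2) (Fin 2) ℝ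

private def HM (M : ℝ → JM) (M' : JM) (x : ℝ) : Prop :=
  ∀ a b, HasDerivAt (fun s => M s a b) (M' a b) x

private noncomputable def AA (M M' : JM) : ℝ :=
  (1 / 2) * (M 0 0 * M' 0 1 - M 0 1 * M' 0 0 + M 1 0 * M' 1 1 - M 1 1 * M' 1 0)

private theorem ja_mul2 (A B : JM) (i j : Fin 2) :
    (A * B) i j = A i 0 * B 0 j + A i 1 * B 1 j := by
  rw [Matrix.mul_apply, Fin.sum_univ_two]

private theorem HM.mul {M N : ℝ → JM} {M' N' : JM} {x : ℝ} (hM : HM M M' x) (hN : HM N N' x) :
    HM (fun s => M s * N s) (M' * N x + M x * N') x := by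
  intro a b
  have h := ((hM a 0).mul (hN 0 b)).add ((hM a 1).mul (hN 1 b))
  have e : (fun s => (M s * N s) a b) = fun s => M s a 0 * N s 0 b + M s a 1 * N s 1 b := by
    funext s
    exact ja_mul2 _ _ _ _
  rw [e]
  refine h.congr_deriv ?_
  rw [Matrix.add_apply, ja_mul2, ja_mul2]
  ring

private theorem HM.const (M : JM) (x : ℝ) : HM (fun _ => M) 0 x := fun a b => by
  simpa using hasDerivAt_const x (M a b)

private theorem HM.lconst {M : ℝ → JM} {M' : JM} {x : ℝ} (C : JM) (hM : HM M M' x) :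
    HM (fun s => C * M s) (C * M') x := by
  have h := (HM.const C x).mul hM
  rwa [zero_mul, zero_add] at h

private theorem HM.rconst {M : ℝ → JM} {M' : JM} {x : ℝ} (hM : HM M M' x) (C : JM) :
    HM (fun s => M s * C) (M' * C) x := by
  have h := hM.mul (HM.const C x)
  rwa [mul_zero, add_zero] at h

private theorem AA_congr {M : ℝ → JM} {M' M'' : JM} {x : ℝ} (h : HM M M' x) (h' : HM M M'' x) :
    M' = M'' := by
  ext a b
  exact (h a b).unique (h' a b)

/-- multiplication by a constant matrix on the right -/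
private theorem AA_right (M M' C : JM) : AA (M * C) (M' * C) = C.det * AA M M' := by
  unfold AA
  simp only [ja_mul2, Matrix.det_fin_two]
  ring

private theorem AA_D (M M' : JM) : AA (mD * M) (mD * M') = AA M M' := by
  unfold AA
  simp only [ja_mul2]
  simp [mD]

/-- multiplication by a rotation on the left -/
private theorem AA_rot (φ φ' : ℝ) (M M' : JM) :
    AA (mRot φ * M) (!![-Real.sin φ * φ', -(Real.cos φ * φ'); Real.cos φ * φ', -Real.sin φ * φ'] * M
      + mRot φ * M') = AA M M' - φ' * M.det := by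
  unfold AA
  simp only [ja_mul2, Matrix.det_fin_two, Matrix.add_apply]
  have h := Real.sin_sq_add_cos_sq φ
  simp [mRot]
  linear_combination (1 / 2 * (M 0 0 * M' 0 1 - M 0 1 * M' 0 0 + M 1 0 * M' 1 1 - M 1 1 * M' 1 0)
    - φ' * (M 0 0 * M 1 1 - M 0 1 * M 1 0)) * h

private theorem HM_rot {φ : ℝ → ℝ} {φ' x : ℝ} (h : HasDerivAt φ φ' x) :
    HM (fun s => mRot (φ s)) (!![-Real.sin (φ x) * φ', -(Real.cos (φ x) * φ');
      Real.cos (φ x) * φ', -Real.sin (φ x) * φ']) x := by
  have h1 := h.cos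
  have h2 := h.sin
  intro a b
  fin_cases a <;> fin_cases b
  · exact h1
  · exact h2.neg
  · exact h2
  · exact h1

private noncomputable def mS' (x : ℝ) : JM := Matrix.of fun a b => deriv (fun s => mS s a b) x

private theorem HM_mS (x : ℝ) : HM mS (mS' x) x := fun a b =>
  (((contDiff_mS a b).differentiable (by simp)) x).hasDerivAt

private theorem aS_eq (x : ℝ) : aS x = AA (mS x) (mS' x) := rfl

theorem aS_left {x : ℝ} (h : x < 7 / 8) : aS x = 0 := by
  have h1 : ∀ᶠ s in 𝓝 x, s < 7 / 8 := Iio_mem_nhds h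
  have e01 : ∀ᶠ s in 𝓝 x, mS s 0 1 = (fun _ => (0 : ℝ)) s := by
    filter_upwards [h1] with s hs
    rw [mS_one' hs.le]
    simp [mE1]
  have e10 : ∀ᶠ s in 𝓝 x, mS s 1 0 = (fun _ => (0 : ℝ)) s := by
    filter_upwards [h1] with s hs
    rw [mS_one' hs.le]
    simp [mE1]
  have d01 : deriv (fun s => mS s 0 1) x = 0 := by
    rw [Filter.EventuallyEq.deriv_eq e01]; simp
  have d10 : deriv (fun s => mS s 1 0) x = 0 := by
    rw [Filter.EventuallyEq.deriv_eq e10]; simp
  have v01 : mS x 0 1 = 0 := e01.self_of_nhds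
  have v10 : mS x 1 0 = 0 := e10.self_of_nhds
  unfold aS
  rw [d01, d10, v01, v10]
  ring

theorem aS_right {x : ℝ} (h : 9 / 8 < x) : aS x = 0 := by
  have h1 : ∀ᶠ s in 𝓝 x, 9 / 8 < s := Ioi_mem_nhds h
  have e : ∀ a b : Fin 2, deriv (fun s => mS s a b) x = 0 := by
    intro a b
    have e1 : (fun s => mS s a b) =ᶠ[𝓝 x] fun _ =>
        (!![-5, -3 / 4; 18, 5 / 2] : Matrix (Fin 2) (Fin 2) ℝ) a b := by
      filter_upwards [h1] with s hs
      rw [mS_right hs.le]
    rw [e1.deriv_eq]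
    simp
  unfold aS
  rw [e, e, e, e]
  ring

theorem continuous_aS : Continuous aS := by
  have h0 : ∀ a b : Fin 2, Continuous fun x => mS x a b := fun a b => (contDiff_mS a b).continuous
  have h1 : ∀ a b : Fin 2, Continuous fun x => deriv (fun s => mS s a b) x := fun a b =>
    (contDiff_mS a b).continuous_deriv (by simp)
  unfold aS
  exact continuous_const.mul (((((h0 0 0).mul (h1 0 1)).sub ((h0 0 1).mul (h1 0 0))).add
    ((h0 1 0).mul (h1 1 1))).sub ((h0 1 1).mul (h1 1 0)))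

/-! ### partial derivatives -/

private noncomputable def jX (f : ℝ × ℝ → ℝ) (p : ℝ × ℝ) : ℝ := fderiv ℝ f p (1, 0)

private noncomputable def jZ (f : ℝ × ℝ → ℝ) (p : ℝ × ℝ) : ℝ := fderiv ℝ f p (0, 1)

private theorem smooth_jX {f : ℝ × ℝ → ℝ} (hf : ContDiff ℝ ∞ f) : ContDiff ℝ ∞ (jX f) :=
  (hf.fderiv_right (m := ∞) (by simp)).clm_apply contDiff_const

private theorem smooth_jZ {f : ℝ × ℝ → ℝ} (hf : ContDiff ℝ ∞ f) : ContDiff ℝ ∞ (jZ f) :=
  (hf.fderiv_right (m := ∞) (by simp)).clm_apply contDiff_const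

private theorem jdiff {f : ℝ × ℝ → ℝ} (hf : ContDiff ℝ ∞ f) : Differentiable ℝ f :=
  hf.differentiable (by simp)

private theorem jX_eq {f : ℝ × ℝ → ℝ} (hf : ContDiff ℝ ∞ f) (x z : ℝ) :
    deriv (fun s => f (s, z)) x = jX f (x, z) := by
  have h1 : HasFDerivAt f (fderiv ℝ f (x, z)) (x, z) := (jdiff hf (x, z)).hasFDerivAt
  have h2 : HasDerivAt (fun s : ℝ => (s, z)) ((1 : ℝ), (0 : ℝ)) x :=
    (hasDerivAt_id x).prodMk (hasDerivAt_const x z)
  exact (h1.comp_hasDerivAt x h2).deriv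

private theorem jZ_eq {f : ℝ × ℝ → ℝ} (hf : ContDiff ℝ ∞ f) (x z : ℝ) :
    deriv (fun s => f (x, s)) z = jZ f (x, z) := by
  have h1 : HasFDerivAt f (fderiv ℝ f (x, z)) (x, z) := (jdiff hf (x, z)).hasFDerivAt
  have h2 : HasDerivAt (fun s : ℝ => (x, s)) ((0 : ℝ), (1 : ℝ)) z :=
    (hasDerivAt_const z x).prodMk (hasDerivAt_id z)
  exact (h1.comp_hasDerivAt z h2).deriv

private theorem j_comm {f : ℝ × ℝ → ℝ} (hf : ContDiff ℝ ∞ f) (p : ℝ × ℝ) :
    jX (jZ f) p = jZ (jX f) p := by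
  have h2 : IsSymmSndFDerivAt ℝ f p :=
    (contDiff_infty.1 hf 2).contDiffAt.isSymmSndFDerivAt (by simp)
  have hd : DifferentiableAt ℝ (fderiv ℝ f) p :=
    (hf.fderiv_right (m := ∞) (by simp)).differentiable (by simp) p
  have e : ∀ v w : ℝ × ℝ, fderiv ℝ (fun q => fderiv ℝ f q v) p w =
      fderiv ℝ (fderiv ℝ f) p w v := by
    intro v w
    rw [fderiv_clm_apply hd (differentiableAt_const v)]
    simp
  show fderiv ℝ (fun q => fderiv ℝ f q (0, 1)) p (1, 0) =
    fderiv ℝ (fun q => fderiv ℝ f q (1, 0)) p (0, 1)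
  rw [e, e]
  exact h2 _ _

private theorem jX_mul {f g : ℝ × ℝ → ℝ} (hf : ContDiff ℝ ∞ f) (hg : ContDiff ℝ ∞ g)
    (p : ℝ × ℝ) : jX (fun q => f q * g q) p = jX f p * g p + f p * jX g p := by
  unfold jX
  rw [fderiv_fun_mul (jdiff hf p) (jdiff hg p)]
  simp
  ring

private theorem jZ_mul {f g : ℝ × ℝ → ℝ} (hf : ContDiff ℝ ∞ f) (hg : ContDiff ℝ ∞ g)
    (p : ℝ × ℝ) : jZ (fun q => f q * g q) p = jZ f p * g p + f p * jZ g p := by
  unfold jZ
  rw [fderiv_fun_mul (jdiff hf p) (jdiff hg p)]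
  simp
  ring

/-- one antisymmetric pair -/
private theorem j_pair {f g : ℝ × ℝ → ℝ} (hf : ContDiff ℝ ∞ f) (hg : ContDiff ℝ ∞ g)
    (p : ℝ × ℝ) :
    jX (fun q => f q * jZ g q - g q * jZ f q) p - jZ (fun q => f q * jX g q - g q * jX f q) p =
      2 * (jX f p * jZ g p - jZ f p * jX g p) := by
  have e1 : jX (fun q => f q * jZ g q - g q * jZ f q) p =
      jX (fun q => f q * jZ g q) p - jX (fun q => g q * jZ f q) p := by
    unfold jX
    rw [fderiv_fun_sub (jdiff (hf.mul (smooth_jZ hg)) p) (jdiff (hg.mul (smooth_jZ hf)) p)]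
    rfl
  have e2 : jZ (fun q => f q * jX g q - g q * jX f q) p =
      jZ (fun q => f q * jX g q) p - jZ (fun q => g q * jX f q) p := by
    unfold jZ
    rw [fderiv_fun_sub (jdiff (hf.mul (smooth_jX hg)) p) (jdiff (hg.mul (smooth_jX hf)) p)]
    rfl
  rw [e1, e2, jX_mul hf (smooth_jZ hg), jX_mul hg (smooth_jZ hf), jZ_mul hf (smooth_jX hg),
    jZ_mul hg (smooth_jX hf), j_comm hf, j_comm hg]
  ring

namespace Wnd

variable (w : Wnd)

private noncomputable def jG (i : FI) (a b : Fin 2) (p : ℝ × ℝ) : ℝ := w.Gf i p.1 p.2 a b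

private theorem smooth_jG (i : FI) (a b : Fin 2) : ContDiff ℝ ∞ (w.jG i a b) := w.smooth_Gf i a b

private theorem gx_eq (i : FI) (x z : ℝ) (a b : Fin 2) :
    w.gx i x z a b = jX (w.jG i a b) (x, z) := jX_eq (w.smooth_jG i a b) x z

private theorem gz_eq (i : FI) (x z : ℝ) (a b : Fin 2) :
    w.gz i x z a b = jZ (w.jG i a b) (x, z) := jZ_eq (w.smooth_jG i a b) x z

private noncomputable def jAx (i : FI) (p : ℝ × ℝ) : ℝ :=
  (1 / 2) * ((w.jG i 0 0 p * jX (w.jG i 0 1) p - w.jG i 0 1 p * jX (w.jG i 0 0) p)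
    + (w.jG i 1 0 p * jX (w.jG i 1 1) p - w.jG i 1 1 p * jX (w.jG i 1 0) p))

private noncomputable def jAz (i : FI) (p : ℝ × ℝ) : ℝ :=
  (1 / 2) * ((w.jG i 0 0 p * jZ (w.jG i 0 1) p - w.jG i 0 1 p * jZ (w.jG i 0 0) p)
    + (w.jG i 1 0 p * jZ (w.jG i 1 1) p - w.jG i 1 1 p * jZ (w.jG i 1 0) p))

private theorem Ax_eq (i : FI) (x z : ℝ) : w.Ax i x z = w.jAx i (x, z) := by
  unfold Ax jAx
  simp only [gx_eq]
  unfold jG
  ring

private theorem Az_eq (i : FI) (x z : ℝ) : w.Az i x z = w.jAz i (x, z) := by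
  unfold Az jAz
  simp only [gz_eq]
  unfold jG
  ring

private theorem smooth_jAx (i : FI) : ContDiff ℝ ∞ (w.jAx i) := by
  have h := w.smooth_jG i
  have h' := fun a b => smooth_jX (h a b)
  unfold jAx
  exact contDiff_const.mul ((((h 0 0).mul (h' 0 1)).sub ((h 0 1).mul (h' 0 0))).add
    (((h 1 0).mul (h' 1 1)).sub ((h 1 1).mul (h' 1 0))))

private theorem smooth_jAz (i : FI) : ContDiff ℝ ∞ (w.jAz i) := by
  have h := w.smooth_jG i
  have h' := fun a b => smooth_jZ (h a b)
  unfold jAz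
  exact contDiff_const.mul ((((h 0 0).mul (h' 0 1)).sub ((h 0 1).mul (h' 0 0))).add
    (((h 1 0).mul (h' 1 1)).sub ((h 1 1).mul (h' 1 0))))

private theorem j_K (i : FI) (p : ℝ × ℝ) :
    jX (w.jAz i) p - jZ (w.jAx i) p = w.Kf i p.1 p.2 := by
  have h := w.smooth_jG i
  have h' := fun a b => smooth_jZ (h a b)
  have h'' := fun a b => smooth_jX (h a b)
  have e1 : jX (w.jAz i) p = (1 / 2) *
      (jX (fun q => w.jG i 0 0 q * jZ (w.jG i 0 1) q - w.jG i 0 1 q * jZ (w.jG i 0 0) q) p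
      + jX (fun q => w.jG i 1 0 q * jZ (w.jG i 1 1) q - w.jG i 1 1 q * jZ (w.jG i 1 0) q) p) := by
    have d1 := ((h 0 0).mul (h' 0 1)).sub ((h 0 1).mul (h' 0 0))
    have d2 := ((h 1 0).mul (h' 1 1)).sub ((h 1 1).mul (h' 1 0))
    unfold jX jAz
    rw [fderiv_const_mul (jdiff (d1.add d2) p), fderiv_fun_add (jdiff d1 p) (jdiff d2 p)]
    rfl
  have e2 : jZ (w.jAx i) p = (1 / 2) *
      (jZ (fun q => w.jG i 0 0 q * jX (w.jG i 0 1) q - w.jG i 0 1 q * jX (w.jG i 0 0) q) p
      + jZ (fun q => w.jG i 1 0 q * jX (w.jG i 1 1) q - w.jG i 1 1 q * jX (w.jG i 1 0) q) p) := by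
    have d1 := ((h 0 0).mul (h'' 0 1)).sub ((h 0 1).mul (h'' 0 0))
    have d2 := ((h 1 0).mul (h'' 1 1)).sub ((h 1 1).mul (h'' 1 0))
    unfold jZ jAx
    rw [fderiv_const_mul (jdiff (d1.add d2) p), fderiv_fun_add (jdiff d1 p) (jdiff d2 p)]
    rfl
  have k1 := j_pair (h 0 0) (h 0 1) p
  have k2 := j_pair (h 1 0) (h 1 1) p
  rw [e1, e2]
  unfold Kf
  simp only [gx_eq, gz_eq]
  linarith

theorem K_green (i : FI) (a b c d : ℝ) :
    ∫ x in a..b, ∫ z in c..d, w.Kf i x z
      = (∫ z in c..d, w.Az i b z - w.Az i a z) - ∫ x in a..b, w.Ax i x d - w.Ax i x c := by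
  have hx := w.smooth_jAx i
  have hz := w.smooth_jAz i
  have cAx : Continuous (w.jAx i) := hx.continuous
  have cAz : Continuous (w.jAz i) := hz.continuous
  have key := MeasureTheory.integral2_divergence_prod_of_hasFDerivAt_off_countable
    (w.jAz i) (fun p => -w.jAx i p) (fun p => fderiv ℝ (w.jAz i) p)
    (fun p => -fderiv ℝ (w.jAx i) p) a c b d ∅ Set.countable_empty cAz.continuousOn
    cAx.neg.continuousOn (fun p _ => (jdiff hz p).hasFDerivAt)
    (fun p _ => (jdiff hx p).hasFDerivAt.neg) ?_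
  · have e : ∀ x z : ℝ, (fderiv ℝ (w.jAz i) (x, z)) (1, 0) +
        (-fderiv ℝ (w.jAx i) (x, z)) (0, 1) = w.Kf i x z := by
      intro x z
      have := w.j_K i (x, z)
      simp only [jX, jZ] at this
      rw [← this]
      simp [sub_eq_add_neg]
    simp only [e] at key
    rw [key]
    simp only [Ax_eq, Az_eq]
    have i1 : ∀ t : ℝ, IntervalIntegrable (fun x => w.jAx i (x, t)) volume a b := fun t =>
      (cAx.comp (continuous_id.prodMk continuous_const)).intervalIntegrable _ _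
    have i2 : ∀ t : ℝ, IntervalIntegrable (fun z => w.jAz i (t, z)) volume c d := fun t =>
      (cAz.comp (continuous_const.prodMk continuous_id)).intervalIntegrable _ _
    rw [intervalIntegral.integral_sub (i2 b) (i2 a), intervalIntegral.integral_sub (i1 d) (i1 c),
      intervalIntegral.integral_neg, intervalIntegral.integral_neg]
    ring
  · have c1 : Continuous fun p : ℝ × ℝ => (fderiv ℝ (w.jAz i) p) (1, 0) +
        (-fderiv ℝ (w.jAx i) p) (0, 1) := by
      have h1 := (smooth_jX hz).continuous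
      have h2 := (smooth_jZ hx).continuous
      exact h1.add h2.neg
    exact c1.continuousOn.integrableOn_compact (isCompact_uIcc.prod isCompact_uIcc)

private theorem Ax_HM {i : FI} {x z : ℝ} {M' : JM} (h : HM (fun s => w.Gf i s z) M' x) :
    w.Ax i x z = AA (w.Gf i x z) M' := by
  unfold Ax AA gx
  rw [(h 0 1).deriv, (h 0 0).deriv, (h 1 1).deriv, (h 1 0).deriv]

private theorem Az_HM {i : FI} {x z : ℝ} {M' : JM} (h : HM (fun t => w.Gf i x t) M' z) :
    w.Az i x z = AA (w.Gf i x z) M' := by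
  unfold Az AA gz
  rw [(h 0 1).deriv, (h 0 0).deriv, (h 1 1).deriv, (h 1 0).deriv]

private theorem Gf3 (x z : ℝ) : w.Gf (3, true) x z = mNN z 13 (70 / 13) * mS x := by
  simp [Gf, frh, fet, fS]

private theorem Gf4 (x z : ℝ) : w.Gf (4, true) x z = mNN z (w.rh x) (w.et x) * mS x := by
  simp [Gf, frh, fet, fS]

theorem Ax_top {i : FI} (hi : i = (3, true) ∨ i = (4, true)) (x : ℝ) {z : ℝ} (hz : 2 / 3 < z) :
    w.Ax i x z = aS x := by
  have e : ∀ s, w.Gf i s z = mS s := by
    intro s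
    rcases hi with rfl | rfl
    · rw [Gf3, mNN_high hz.le, one_mul]
    · rw [Gf4, mNN_high hz.le, one_mul]
  have h : HM (fun s => w.Gf i s z) (mS' x) x := by
    simp only [e]
    exact HM_mS x
  rw [w.Ax_HM h, e, aS_eq]

private theorem det_c2 : mc2.det = 1 := by
  unfold mc2
  rw [Matrix.det_fin_two_of]
  norm_num

private theorem det_g3 : mg3.det = 1 := by
  unfold mg3
  rw [Matrix.det_fin_two_of]
  norm_num

private theorem det_D : mD.det = -1 := by
  unfold mD
  rw [Matrix.det_fin_two_of]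
  norm_num

/-- the form of `D S D c` for a constant matrix `c` of determinant one -/
private theorem HM_DSD (x : ℝ) (c : JM) :
    HM (fun s => mD * mS s * mD * c) (mD * mS' x * mD * c) x :=
  ((HM.lconst mD (HM_mS x)).rconst mD).rconst c

private theorem AA_DSD (x : ℝ) {c : JM} (hc : c.det = 1) :
    AA (mD * mS x * mD * c) (mD * mS' x * mD * c) = -aS x := by
  rw [AA_right, AA_right, AA_D, hc, det_D, aS_eq]
  ring

theorem Ax_bot3 {x z : ℝ} (hx : -7 / 8 < x) (hz : z < 1 / 2) :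
    w.Ax (3, true) x z = -aS x := by
  have e : ∀ s, w.Gf (3, true) s z = mn 13 (70 / 13) * mS s := fun s => by
    rw [Gf3, mNN_low hz.le]
  have h : HM (fun s => w.Gf (3, true) s z) (mn 13 (70 / 13) * mS' x) x := by
    simp only [e]
    exact HM.lconst _ (HM_mS x)
  rw [w.Ax_HM h, e]
  -- rotate by the constant rotation
  have h1 := AA_rot w.ph2 0 (mn 13 (70 / 13) * mS x) (mn 13 (70 / 13) * mS' x)
  have e0 : (!![-Real.sin w.ph2 * 0, -(Real.cos w.ph2 * 0);
      Real.cos w.ph2 * 0, -Real.sin w.ph2 * 0] : JM) = 0 := by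
    ext a b
    fin_cases a <;> fin_cases b <;> simp
  rw [e0, zero_mul, zero_add, zero_mul, sub_zero, ← mul_assoc, ← mul_assoc, w.rel2] at h1
  rw [← h1]
  -- `g2 S = D S D c2` near `x`
  have h2 : HM (fun s => mg2 * mS s) (mg2 * mS' x) x := HM.lconst _ (HM_mS x)
  have h3 : HM (fun s => mg2 * mS s) (mD * mS' x * mD * mc2) x := by
    intro a b
    refine (HM_DSD x mc2 a b).congr_of_eventuallyEq ?_
    filter_upwards [Ioi_mem_nhds hx] with s hs
    rw [mS_two (le_of_lt hs)]
  rw [AA_congr h2 h3, mS_two hx.le]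
  exact AA_DSD x det_c2

theorem Ax_bot4 (x : ℝ) {z : ℝ} (hz : z < 1 / 2) :
    w.Ax (4, true) x z = -aS x + deriv w.ph x := by
  have e : ∀ s, w.Gf (4, true) s z = mn (w.rh s) (w.et s) * mS s := fun s => by
    rw [Gf4, mNN_low hz.le]
  set G' : JM := Matrix.of fun a b => deriv (fun s => w.Gf (4, true) s z a b) x with hG'
  have hG : HM (fun s => w.Gf (4, true) s z) G' x := by
    intro a b
    have h1 : ContDiff ℝ ∞ fun s : ℝ => w.Gf (4, true) s z a b :=
      ContDiff.comp (g := fun p : ℝ × ℝ => w.Gf (4, true) p.1 p.2 a b) (f := fun s : ℝ => (s, z))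
        (w.smooth_Gf (4, true) a b) (contDiff_id.prodMk contDiff_const)
    exact ((h1.differentiable (by simp)) x).hasDerivAt
  have hph : HasDerivAt w.ph (deriv w.ph x) x :=
    ((w.smooth_ph.differentiable (by simp)) x).hasDerivAt
  have h1 := (HM_rot hph).mul hG
  have h2 : HM (fun s => mRot (w.ph s) * w.Gf (4, true) s z) (mD * mS' x * mD * mg3) x := by
    have h3 := HM_DSD x mg3
    have e1 : (fun s => mRot (w.ph s) * w.Gf (4, true) s z) =
        fun s => mD * mS s * mD * mg3 := by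
      funext s
      rw [e, ← mul_assoc, w.rel]
    rw [e1]
    exact h3
  have h4 := AA_rot (w.ph x) (deriv w.ph x) (w.Gf (4, true) x z) G'
  rw [AA_congr h1 h2, w.Gf_det, mul_one] at h4
  rw [w.Ax_HM hG]
  have h5 : mRot (w.ph x) * w.Gf (4, true) x z = mD * mS x * mD * mg3 := by
    rw [e, ← mul_assoc, w.rel]
  rw [h5, AA_DSD x det_g3] at h4
  linarith

private theorem Az_const (i : FI) {x z ρ η : ℝ} {c : JM} (hc : c.det = 1)
    (e : ∀ t, w.Gf i x t = mNN t ρ η * c) (hρ : 0 < ρ) :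
    w.Az i x z = AA (mNN z ρ η) (Matrix.of fun a b => deriv (fun t => mNN t ρ η a b) z) := by
  have hN : HM (fun t => mNN t ρ η) (Matrix.of fun a b => deriv (fun t => mNN t ρ η a b) z) z := by
    intro a b
    have hf : ContDiff ℝ ∞ fN := by
      unfold fN stp
      exact contDiff_const.sub (Real.smoothTransition.contDiff.comp
        ((contDiff_const.mul contDiff_id).sub contDiff_const))
    have hf1 : ContDiff ℝ ∞ fun t => 1 + fN t * (ρ - 1) :=
      contDiff_const.add (hf.mul contDiff_const)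
    have h1 : ContDiff ℝ ∞ fun t : ℝ => mNN t ρ η a b := by
      fin_cases a <;> fin_cases b
      · exact hf1
      · exact hf.mul contDiff_const
      · exact contDiff_const
      · exact contDiff_const.div hf1 fun t => (fN_pos t hρ).ne'
    exact ((h1.differentiable (by simp)) z).hasDerivAt
  have h : HM (fun t => w.Gf i x t)
      ((Matrix.of fun a b => deriv (fun t => mNN t ρ η a b) z) * c) z := by
    simp only [e]
    exact hN.rconst c
  rw [w.Az_HM h, e, AA_right, hc, one_mul]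

theorem Az_4 (z : ℝ) : w.Az (4, true) 2 z = w.Az (4, true) (-2) z := by
  obtain ⟨-, h1, h2⟩ := w.right 2 (by norm_num)
  rw [w.Az_const (4, true) (mS_det 2) (fun t => w.Gf4 2 t) (w.rh_pos 2),
    w.Az_const (4, true) (mS_det (-2)) (fun t => w.Gf4 (-2) t) (w.rh_pos (-2)), h1, h2]

theorem Az_3 (x x' z : ℝ) : w.Az (3, true) x z = w.Az (3, true) x' z := by
  rw [w.Az_const (3, true) (mS_det x) (fun t => w.Gf3 x t) (by norm_num),
    w.Az_const (3, true) (mS_det x') (fun t => w.Gf3 x' t) (by norm_num)]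

end Wnd

end Pool.Agent.EXO
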