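import Mathlib
import Pool.Agent.EXO.SurJA

/-!
# EXO / SurJ: the integrals of the curvature over the two charts

PROOFS.
* `J_diff`: by `K_green`, `Az_3`, `Az_4`, `Ax_top`, `Ax_bot3`, `Ax_bot4` (at `z = 1` and `z = -1`):
  the first integral is `-∫_{3/4}^{5/4} 2 aS`, the second one `-∫_{-2}^{2} (2 aS - ph') = -2 ∫_{-2}^{2} aS + ph 2 - ph (-2)
  = -2 ∫_{-2}^{2} aS - 2π` (field `right` at `2`).  `∫_{-2}^{2} aS = ∫_{3/4}^{5/4} aS` (`aS_left`, `aS_right`,
  `intervalIntegral.integral_add_adjacent_intervals`; `aS` is continuous).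
* `J_set`: the integral over the set `ch2U a` of `ℝ²` is the iterated integral: `EuclideanSpace.volume_preserving_measurableEquiv`
  (or `.symm`), `MeasurableEquiv.finTwoArrow`, Fubini (`setIntegral_prod`); the set is a product of two open intervals.  `Kf` is continuous
  (`smooth_Gf`), hence integrable on bounded sets.
-/

set_option autoImplicit false
set_option maxSynthPendingDepth 3

open Set MeasureTheory
open scoped ContDiff

namespace Pool.Agent.EXO

private theorem sj_deriv_fst {f : ℝ × ℝ → ℝ} (hf : ContDiff ℝ ∞ f) (x z : ℝ) :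
    deriv (fun s => f (s, z)) x = fderiv ℝ f (x, z) (1, 0) := by
  have h1 : HasFDerivAt f (fderiv ℝ f (x, z)) (x, z) :=
    (hf.differentiable (by simp) (x, z)).hasFDerivAt
  have h2 : HasDerivAt (fun s : ℝ => (s, z)) ((1 : ℝ), (0 : ℝ)) x :=
    (hasDerivAt_id x).prodMk (hasDerivAt_const x z)
  exact (h1.comp_hasDerivAt x h2).deriv

private theorem sj_deriv_snd {f : ℝ × ℝ → ℝ} (hf : ContDiff ℝ ∞ f) (x z : ℝ) :
    deriv (fun s => f (x, s)) z = fderiv ℝ f (x, z) (0, 1) := by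
  have h1 : HasFDerivAt f (fderiv ℝ f (x, z)) (x, z) :=
    (hf.differentiable (by simp) (x, z)).hasFDerivAt
  have h2 : HasDerivAt (fun s : ℝ => (x, s)) ((0 : ℝ), (1 : ℝ)) z :=
    (hasDerivAt_const z x).prodMk (hasDerivAt_id z)
  exact (h1.comp_hasDerivAt z h2).deriv

private theorem sj_int_gx (w : Wnd) (i : FI) (a b : Fin 2) :
    Continuous fun p : ℝ × ℝ => w.gx i p.1 p.2 a b := by
  have h1 := w.smooth_Gf i a b
  have h2 : (fun p : ℝ × ℝ => w.gx i p.1 p.2 a b) =
      fun p => fderiv ℝ (fun p : ℝ × ℝ => w.Gf i p.1 p.2 a b) p (1, 0) := by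
    funext p
    exact sj_deriv_fst h1 p.1 p.2
  rw [h2]
  exact (h1.continuous_fderiv (by simp)).clm_apply continuous_const

private theorem sj_int_gz (w : Wnd) (i : FI) (a b : Fin 2) :
    Continuous fun p : ℝ × ℝ => w.gz i p.1 p.2 a b := by
  have h1 := w.smooth_Gf i a b
  have h2 : (fun p : ℝ × ℝ => w.gz i p.1 p.2 a b) =
      fun p => fderiv ℝ (fun p : ℝ × ℝ => w.Gf i p.1 p.2 a b) p (0, 1) := by
    funext p
    exact sj_deriv_snd h1 p.1 p.2
  rw [h2]
  exact (h1.continuous_fderiv (by simp)).clm_apply continuous_const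

/-- The coordinates of the plane as a measurable equivalence. -/
private noncomputable def sjE : En 2 ≃ᵐ ℝ × ℝ :=
  (MeasurableEquiv.toLp 2 (Fin 2 → ℝ)).symm.trans MeasurableEquiv.finTwoArrow

private theorem sjE_apply (u : En 2) : sjE u = (u 0, u 1) := rfl

private theorem sjE_mp : MeasurePreserving sjE :=
  (EuclideanSpace.volume_preserving_symm_measurableEquiv_toLp (Fin 2)).trans
    (volume_preserving_finTwoArrow ℝ)

/-- The integral over a rectangle in the plane. -/
private theorem sj_rect {f : ℝ → ℝ → ℝ} (hf : Continuous fun p : ℝ × ℝ => f p.1 p.2)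
    {m r : ℝ} (hr : 0 < r) : ∫ u in {u : En 2 | |u 0 - m| < r ∧ |u 1| < 1}, f (u 0) (u 1)
    = ∫ x in (m - r)..(m + r), ∫ z in (-1 : ℝ)..1, f x z := by
  have h1 : {u : En 2 | |u 0 - m| < r ∧ |u 1| < 1} =
      sjE ⁻¹' (Ioo (m - r) (m + r) ×ˢ Ioo (-1 : ℝ) 1) := by
    ext u
    rw [Set.mem_preimage, sjE_apply, Set.mem_prod]
    rw [Set.mem_Ioo, Set.mem_Ioo]
    show |u 0 - m| < r ∧ |u 1| < 1 ↔ (m - r < u 0 ∧ u 0 < m + r) ∧ -1 < u 1 ∧ u 1 < 1
    constructor
    · rintro ⟨h2, h3⟩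
      obtain ⟨a1, a2⟩ := abs_lt.1 h2
      exact ⟨⟨by linarith, by linarith⟩, abs_lt.1 h3⟩
    · rintro ⟨⟨a1, a2⟩, h3⟩
      exact ⟨abs_lt.2 ⟨by linarith, by linarith⟩, abs_lt.2 h3⟩
  have h2 := sjE_mp.setIntegral_preimage_emb sjE.measurableEmbedding
    (fun p : ℝ × ℝ => f p.1 p.2) (Ioo (m - r) (m + r) ×ˢ Ioo (-1 : ℝ) 1)
  have h3 : IntegrableOn (fun p : ℝ × ℝ => f p.1 p.2)
      (Ioo (m - r) (m + r) ×ˢ Ioo (-1 : ℝ) 1) (volume.prod volume) := by
    refine (hf.continuousOn.integrableOn_compact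
      (isCompact_Icc.prod isCompact_Icc (s := Icc (m - r) (m + r))
        (t := Icc (-1 : ℝ) 1))).mono_set ?_
    exact Set.prod_mono Ioo_subset_Icc_self Ioo_subset_Icc_self
  rw [h1]
  refine h2.trans ?_
  rw [Measure.volume_eq_prod, setIntegral_prod _ h3, intervalIntegral.integral_of_le (by linarith),
    integral_Ioc_eq_integral_Ioo]
  refine integral_congr_ae (Filter.Eventually.of_forall fun x => ?_)
  simp only
  rw [intervalIntegral.integral_of_le (by norm_num), integral_Ioc_eq_integral_Ioo]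

namespace Wnd

variable (w : Wnd)

theorem J_diff : (∫ x in (3 / 4 : ℝ)..(5 / 4), ∫ z in (-1 : ℝ)..1, w.Kf (3, true) x z)
    - (∫ x in (-2 : ℝ)..2, ∫ z in (-1 : ℝ)..1, w.Kf (4, true) x z) = 2 * Real.pi := by
  have hph : ContDiff ℝ ∞ w.ph := w.smooth_ph
  have hphd : Continuous (deriv w.ph) := hph.continuous_deriv (by simp)
  have haS : ∀ a b : ℝ, IntervalIntegrable aS volume a b := fun a b =>
    continuous_aS.intervalIntegrable a b
  have h3 : (∫ x in (3 / 4 : ℝ)..(5 / 4), ∫ z in (-1 : ℝ)..1, w.Kf (3, true) x z) =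
      -(2 * ∫ x in (3 / 4 : ℝ)..(5 / 4), aS x) := by
    rw [w.K_green]
    have e1 : (∫ z in (-1 : ℝ)..1, w.Az (3, true) (5 / 4) z - w.Az (3, true) (3 / 4) z) = 0 := by
      have : ∀ z, w.Az (3, true) (5 / 4) z - w.Az (3, true) (3 / 4) z = 0 := fun z => by
        rw [w.Az_3 (5 / 4) (3 / 4) z, sub_self]
      simp only [this, intervalIntegral.integral_zero]
    have e2 : (∫ x in (3 / 4 : ℝ)..(5 / 4), w.Ax (3, true) x 1 - w.Ax (3, true) x (-1)) =
        ∫ x in (3 / 4 : ℝ)..(5 / 4), 2 * aS x := by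
      refine intervalIntegral.integral_congr fun x hx => ?_
      rw [uIcc_of_le (by norm_num)] at hx
      rw [w.Ax_top (Or.inl rfl) x (by norm_num), w.Ax_bot3 (by linarith [hx.1]) (by norm_num)]
      ring
    rw [e1, e2, intervalIntegral.integral_const_mul]
    ring
  have h4 : (∫ x in (-2 : ℝ)..2, ∫ z in (-1 : ℝ)..1, w.Kf (4, true) x z) =
      -(2 * ∫ x in (-2 : ℝ)..2, aS x) - 2 * Real.pi := by
    rw [w.K_green]
    have e1 : (∫ z in (-1 : ℝ)..1, w.Az (4, true) 2 z - w.Az (4, true) (-2) z) = 0 := by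
      have : ∀ z, w.Az (4, true) 2 z - w.Az (4, true) (-2) z = 0 := fun z => by
        rw [w.Az_4 z, sub_self]
      simp only [this, intervalIntegral.integral_zero]
    have e2 : (∫ x in (-2 : ℝ)..2, w.Ax (4, true) x 1 - w.Ax (4, true) x (-1)) =
        ∫ x in (-2 : ℝ)..2, (2 * aS x - deriv w.ph x) := by
      refine intervalIntegral.integral_congr fun x hx => ?_
      rw [w.Ax_top (Or.inr rfl) x (by norm_num), w.Ax_bot4 x (by norm_num)]
      ring
    have e3 : (∫ x in (-2 : ℝ)..2, deriv w.ph x) = w.ph 2 - w.ph (-2) := by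
      refine intervalIntegral.integral_deriv_eq_sub (fun x _ => ?_) ?_
      · exact (hph.differentiable (by simp)) x
      · exact hphd.intervalIntegrable _ _
    rw [e1, e2, intervalIntegral.integral_sub ((haS _ _).const_mul 2)
      (hphd.intervalIntegrable _ _), e3, intervalIntegral.integral_const_mul,
      (w.right 2 (by norm_num)).1]
    ring
  have h5 : (∫ x in (-2 : ℝ)..2, aS x) = ∫ x in (3 / 4 : ℝ)..(5 / 4), aS x := by
    rw [← intervalIntegral.integral_add_adjacent_intervals (haS (-2) (3 / 4)) (haS (3 / 4) 2),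
      ← intervalIntegral.integral_add_adjacent_intervals (haS (3 / 4) (5 / 4)) (haS (5 / 4) 2)]
    have e1 : (∫ x in (-2 : ℝ)..(3 / 4), aS x) = 0 := by
      rw [← intervalIntegral.integral_zero (μ := volume) (E := ℝ) (a := (-2 : ℝ)) (b := 3 / 4)]
      refine intervalIntegral.integral_congr fun x hx => ?_
      rw [uIcc_of_le (by norm_num)] at hx
      exact aS_left (by linarith [hx.2])
    have e2 : (∫ x in (5 / 4 : ℝ)..2, aS x) = 0 := by
      rw [← intervalIntegral.integral_zero (μ := volume) (E := ℝ) (a := (5 / 4 : ℝ)) (b := 2)]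
      refine intervalIntegral.integral_congr fun x hx => ?_
      rw [uIcc_of_le (by norm_num)] at hx
      exact aS_right (by linarith [hx.1])
    rw [e1, e2, zero_add, add_zero]
  rw [h3, h4, h5]
  ring

theorem continuous_Kf (i : FI) : Continuous fun p : ℝ × ℝ => w.Kf i p.1 p.2 := by
  have hx := sj_int_gx w i
  have hz := sj_int_gz w i
  unfold Kf
  exact (((((hx 0 0).mul (hz 0 1)).sub ((hz 0 0).mul (hx 0 1))).add
    ((hx 1 0).mul (hz 1 1))).sub ((hz 1 0).mul (hx 1 1)))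

theorem J_set (a : Fin 2) : ∫ u in ch2U a, w.Kf (ci a) (u 0) (u 1)
    = ∫ x in (ch2m a - ch2w a)..(ch2m a + ch2w a), ∫ z in (-1 : ℝ)..1, w.Kf (ci a) x z := by
  have hr : 0 < ch2w a := by
    unfold ch2w
    split_ifs <;> norm_num
  exact sj_rect (f := w.Kf (ci a)) (w.continuous_Kf (ci a)) hr

/-- The signed sum of the integrals over the two charts. -/
theorem J_sum : ∑ a : Fin 2, (if a = 0 then (-1 : ℝ) else 1)
    * ∫ u in ch2U a, w.Kf (ci a) (u 0) (u 1) = 2 * Real.pi := by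
  rw [Fin.sum_univ_two, w.J_set 0, w.J_set 1]
  have c0 : ci 0 = (4, true) := by simp [ci]
  have c1 : ci 1 = (3, true) := by simp [ci]
  have m0 : ch2m 0 = 0 := by simp [ch2m]
  have m1 : ch2m 1 = 1 := by simp [ch2m]
  have r0 : ch2w 0 = 2 := by simp [ch2w]
  have r1 : ch2w 1 = 1 / 4 := by simp [ch2w]
  rw [c0, c1, m0, m1, r0, r1]
  have h := w.J_diff
  have e1 : (0 : ℝ) - 2 = -2 := by norm_num
  have e2 : (0 : ℝ) + 2 = 2 := by norm_num
  have e3 : (1 : ℝ) - 1 / 4 = 3 / 4 := by norm_num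
  have e4 : (1 : ℝ) + 1 / 4 = 5 / 4 := by norm_num
  rw [e1, e2, e3, e4]
  simp only [if_true, one_ne_zero, if_false]
  linarith

end Wnd

end Pool.Agent.EXO
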