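import Mathlib
import Pool.Agent.EXO.SurF0A
import Pool.Agent.EXO.SurSgA

/-!
# EXO / SurF0B: the transition matrices of the explicit frames

`w.Tr i j p`: near `p` on the surface `fZ j = fZ i * c` with a constant real matrix `c` of determinant one.

PROOFS.
* `Tr_refl`, `Tr_symm`, `Tr_trans`: `c = 1`, the adjugate of `c` (`det c = 1`, `Matrix.mul_adjugate`), products.
* `Tr_side`: `p ∈ Sg`, `|p 1| < 1/4` (because `p` lies in both sets).  By `Sg_pants`: `1/4 ≤ (p 0 ∓ 1)^2 + (p 1)^2` with `(p 1)^2 < 1/16`, so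
  `|p 0 ∓ 1| > 1/8` (even `> 2/5`), and by `mS_loc` `mS` is constant near `p 0`.  `c = fS (r, true) (p 0)`, `det = 1`.
  `r ≠ 4`: `fph`, `frh`, `fet` are the same constants for both sides, and `Gf (r, true) x z = Gf (r, false) x z * fS (r, true) x`.
  `r = 4`: `(p 0)^2 + (p 1)^2 > 25/4`, so `|p 0| > 9/8` near `p`; fields `left`, `right` of `Wnd`: `rh`, `et` are the constants `rh (-2)`,
  `et (-2)`, and `exp (i ph x) = exp (i ph (-2))` (the angles differ by `2π` or `0`).
* `Tr_top`: `r = 2, 3, 4` against the upper sheet, `3/4 < p 2 < 1`: near `p` `z > 2/3`, so `fP = 1`, `fM = 0`, `mNN = 1`: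
  `fZ (r, b) = fZ (0, b)`, `c = 1`.
* `Tr_bot`: against the lower sheet, `-1 < p 2 < -3/4`: near `p` `fP = 0`, `fM = 1`, `mNN z ρ η = mn ρ η`:
  `fz (r, b) = (1, i) * (mn ρ η) * S` and `exp (i φ) (1, i) = (1, i) mRot φ`, so
  `fw 1 * fz l = ((1, i) * mRot φ * mn ρ η * S)_l`.  `r = 4`, up: `= (1, i) (D S D) g3` by `rel`: `c = mg3`; down: `rel` at `x = -2`
  (`mS (-2) = 1`): `c = mg3`.  `r = 3`: `mRot ph2 * mn 13 (70/13) = mg2`; near `p` `x > 1/4` so `mS_two`: `c = mc2` (up), `c = mg2` (down).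
  `r = 2`: `φ = 0`, `mn 1 0 = 1`, near `p` `x < -1/4`, `mS_one`: `c = 1`.
* `Tr_all`: if `i.1 = j.1` use `Tr_side` (or `Tr_refl`).  Otherwise the sets `fR r`, `fR r'` meet only if one of `r, r'` is `0` or `1` and the
  other one is `2`, `3` or `4` (the neighbourhoods of the three circles are disjoint): `p` lies in `fO (j.1, i.2)` as well (if `i.2 ≠ j.2` then `|p 1| < 1/4`), so
  combine `Tr i (j.1, i.2)` and `Tr (j.1, i.2) j`.
-/

set_option autoImplicit false
set_option maxSynthPendingDepth 3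
set_option linter.unusedSectionVars false

open Set Filter Topology Matrix
open scoped ContDiff ComplexConjugate

namespace Pool.Agent.EXO

namespace Wnd

variable (w : Wnd)

/-- The frames `i`, `j` differ by a constant matrix near `p`. -/
def Tr (i j : FI) (p : En 3) : Prop := ∃ c : Matrix (Fin 2) (Fin 2) ℝ, c.det = 1 ∧
  ∀ᶠ q in 𝓝[Sg] p, w.fZ j q = w.fZ i q * c.map (fun t => (t : ℂ))

theorem Tr_refl (i : FI) (p : En 3) : w.Tr i i p := by
  refine ⟨1, det_one, Filter.Eventually.of_forall fun q => ?_⟩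
  rw [Matrix.map_one _ Complex.ofReal_zero Complex.ofReal_one, Matrix.mul_one]

private theorem SurF0B_map (c c' : Matrix (Fin 2) (Fin 2) ℝ) :
    (c * c').map (fun t => (t : ℂ)) = c.map (fun t => (t : ℂ)) * c'.map (fun t => (t : ℂ)) :=
  Matrix.map_mul (f := Complex.ofRealHom)

theorem Tr_symm {i j : FI} {p : En 3} (h : w.Tr i j p) : w.Tr j i p := by
  obtain ⟨c, hc, h⟩ := h
  refine ⟨c.adjugate, by rw [det_adjugate, hc, one_pow], ?_⟩
  filter_upwards [h] with q hq
  rw [hq, Matrix.mul_assoc, ← SurF0B_map, Matrix.mul_adjugate, hc, one_smul,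
    Matrix.map_one _ Complex.ofReal_zero Complex.ofReal_one, Matrix.mul_one]

theorem Tr_trans {i j k : FI} {p : En 3} (h : w.Tr i j p) (h' : w.Tr j k p) : w.Tr i k p := by
  obtain ⟨c, hc, h⟩ := h
  obtain ⟨c', hc', h'⟩ := h'
  refine ⟨c * c', by rw [det_mul, hc, hc', one_mul], ?_⟩
  filter_upwards [h, h'] with q hq hq'
  rw [hq', hq, Matrix.mul_assoc, ← SurF0B_map]

private theorem SurF0B_sq {p : En 3} (h1 : -1 / 4 < p 1) (h2 : p 1 < 1 / 4) :
    (p 1) ^ 2 < 1 / 16 := by nlinarith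

private theorem SurF0B_sides {r : Fin 5} {p : En 3} (h1 : p ∈ fO (r, true))
    (h2 : p ∈ fO (r, false)) : -1 / 4 < p 1 ∧ p 1 < 1 / 4 := by
  refine ⟨?_, ?_⟩
  · simpa using h1.2
  · simpa using h2.2

private theorem SurF0B_fR4 (p : En 3) :
    fR 4 p = (|p 2| < 1 ∧ 25 / 4 < (p 0) ^ 2 + (p 1) ^ 2) := by simp [fR]

private theorem SurF0B_fR3 (p : En 3) :
    fR 3 p = (|p 2| < 1 ∧ (p 0 - 1) ^ 2 + (p 1) ^ 2 < 9 / 16) := by simp [fR]

private theorem SurF0B_fR2 (p : En 3) :
    fR 2 p = (|p 2| < 1 ∧ (p 0 + 1) ^ 2 + (p 1) ^ 2 < 9 / 16) := by simp [fR]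

private theorem SurF0B_fR1 (p : En 3) : fR 1 p = (p 2 < -3 / 4) := by simp [fR]

private theorem SurF0B_fR0 (p : En 3) : fR 0 p = (3 / 4 < p 2) := by simp [fR]

/-- The matrices of the two sides agree up to `fS`. -/
private theorem SurF0B_G (r : Fin 5) {p : En 3} (h1 : p ∈ fO (r, true))
    (h2 : p ∈ fO (r, false)) :
    w.frh (r, true) (p 0) = w.frh (r, false) (p 0) ∧
      w.fet (r, true) (p 0) = w.fet (r, false) (p 0) ∧
      Complex.exp (Complex.I * w.fph (r, true) (p 0)) =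
        Complex.exp (Complex.I * w.fph (r, false) (p 0)) := by
  by_cases hr : r = 4
  · subst hr
    have hs := SurF0B_sides h1 h2
    have hsq := SurF0B_sq hs.1 hs.2
    have h3 : 25 / 4 < (p 0) ^ 2 + (p 1) ^ 2 := by
      have := h1.1
      rw [SurF0B_fR4] at this
      exact this.2
    have e1 : w.frh (4, true) (p 0) = w.rh (p 0) := by simp [frh]
    have e2 : w.frh (4, false) (p 0) = w.rh (-2) := by simp [frh]
    have e3 : w.fet (4, true) (p 0) = w.et (p 0) := by simp [fet]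
    have e4 : w.fet (4, false) (p 0) = w.et (-2) := by simp [fet]
    have e5 : w.fph (4, true) (p 0) = w.ph (p 0) := by simp [fph]
    have e6 : w.fph (4, false) (p 0) = w.ph (-2) := by simp [fph]
    rw [e1, e2, e3, e4, e5, e6]
    rcases le_or_gt 0 (p 0) with h0 | h0
    · have h4 : 9 / 8 ≤ p 0 := by
        by_contra hlt
        push_neg at hlt
        nlinarith
      obtain ⟨a1, a2, a3⟩ := w.right _ h4
      refine ⟨a2, a3, ?_⟩
      rw [a1]
      have h5 : Complex.I * ((w.ph (-2) - 2 * Real.pi : ℝ) : ℂ) =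
          Complex.I * ((w.ph (-2) : ℝ) : ℂ) - 2 * Real.pi * Complex.I := by
        push_cast
        ring
      rw [h5, Complex.exp_sub, Complex.exp_two_pi_mul_I, div_one]
    · have h4 : p 0 ≤ -9 / 8 := by
        by_contra hlt
        push_neg at hlt
        nlinarith
      obtain ⟨a1, a2, a3⟩ := w.left _ h4
      exact ⟨a2, a3, by rw [a1]⟩
  · simp [frh, fet, fph, hr]

/-- The explicit transition between the two sides. -/
theorem side_eq (r : Fin 5) {p : En 3} (hp : p ∈ Sg) (h1 : p ∈ fO (r, true))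
    (h2 : p ∈ fO (r, false)) : w.fZ (r, true) p
      = w.fZ (r, false) p * (fS (r, true) (p 0)).map (fun t => (t : ℂ)) := by
  obtain ⟨a1, a2, a3⟩ := w.SurF0B_G r h1 h2
  have hG : w.Gf (r, true) (p 0) (p 2) = w.Gf (r, false) (p 0) (p 2) * fS (r, true) (p 0) := by
    have h3 : fS (r, false) (p 0) = 1 := by simp [fS]
    simp only [Gf, a1, a2, h3, Matrix.mul_one]
  have hw : ∀ j, w.fw (r, true) p j = w.fw (r, false) p j := by
    intro j
    simp only [fw, a3]
  refine Matrix.ext fun j l => ?_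
  simp only [fZ, Matrix.of_apply, Matrix.mul_apply, Matrix.map_apply, hw, fz, hG,
    Fin.sum_univ_two]
  push_cast
  ring

private theorem SurF0B_det (r : Fin 5) (x : ℝ) : (fS (r, true) x).det = 1 := by
  unfold fS
  simp only [if_true]
  split
  · rw [det_mul, det_mul, mS_det]
    have h1 : mD.det * mD.det = 1 := by rw [← det_mul, mD_mD, det_one]
    rw [mul_one]
    exact h1
  · exact mS_det x

theorem Tr_side (r : Fin 5) {p : En 3} (hp : p ∈ Sg) (h1 : p ∈ fO (r, true))
    (h2 : p ∈ fO (r, false)) : w.Tr (r, false) (r, true) p := by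
  refine ⟨fS (r, true) (p 0), SurF0B_det r _, ?_⟩
  have hs := SurF0B_sides h1 h2
  have hsq := SurF0B_sq hs.1 hs.2
  obtain ⟨b1, b2, b3⟩ := Sg_pants hp
  have c1 : 1 / 8 < |p 0 + 1| := by
    by_contra hlt
    push_neg at hlt
    have := abs_le.1 hlt
    nlinarith
  have c2 : 1 / 8 < |p 0 - 1| := by
    by_contra hlt
    push_neg at hlt
    have := abs_le.1 hlt
    nlinarith
  have hcont : Tendsto (fun q : En 3 => q 0) (𝓝 p) (𝓝 (p 0)) :=
    (EuclideanSpace.proj (0 : Fin 3) : En 3 →L[ℝ] ℝ).continuous.tendsto p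
  have h3 := hcont.eventually (mS_loc c1 c2)
  have h4 : ∀ᶠ q in 𝓝 p, q ∈ fO (r, true) := (openfO _).mem_nhds h1
  have h5 : ∀ᶠ q in 𝓝 p, q ∈ fO (r, false) := (openfO _).mem_nhds h2
  filter_upwards [self_mem_nhdsWithin, mem_nhdsWithin_of_mem_nhds h3,
    mem_nhdsWithin_of_mem_nhds h4, mem_nhdsWithin_of_mem_nhds h5] with q hq hq3 hq4 hq5
  have h6 : fS (r, true) (q 0) = fS (r, true) (p 0) := by
    have h7 : mS (q 0) = mS (p 0) := hq3
    simp only [fS, h7]
  rw [w.side_eq r hq hq4 hq5, h6]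

theorem Tr_top {r : Fin 5} (hr : r = 2 ∨ r = 3 ∨ r = 4) (b : Bool) {p : En 3} (hp : p ∈ Sg)
    (h1 : p ∈ fO (0, b)) (h2 : p ∈ fO (r, b)) : w.Tr (0, b) (r, b) p := by
  refine ⟨1, det_one, ?_⟩
  have h4 : ∀ᶠ q in 𝓝 p, q ∈ fO (0, b) := (openfO _).mem_nhds h1
  filter_upwards [mem_nhdsWithin_of_mem_nhds h4] with q hq
  rw [Matrix.map_one _ Complex.ofReal_zero Complex.ofReal_one, Matrix.mul_one]
  have hz : 3 / 4 < q 2 := by
    have := hq.1
    rwa [SurF0B_fR0] at this
  have hP := fP_high (z := q 2) (by linarith)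
  have hN : ∀ ρ η, mNN (q 2) ρ η = 1 := fun ρ η => mNN_high (by linarith) ρ η
  have hS : fS (r, b) (q 0) = fS (0, b) (q 0) := by
    rcases hr with rfl | rfl | rfl <;> simp [fS]
  refine Matrix.ext fun j l => ?_
  simp only [fZ, Matrix.of_apply, fw, fz, Gf, hP.1, hP.2, hN, hS, Complex.ofReal_zero, zero_mul]

/-- Multiplication by a phase is a rotation. -/
private theorem SurF0B_rot (φ : ℝ) (G : Matrix (Fin 2) (Fin 2) ℝ) (l : Fin 2) :
    Complex.exp (Complex.I * φ) * ((G 0 l : ℂ) + Complex.I * G 1 l) =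
      (((mRot φ * G) 0 l : ℝ) : ℂ) + Complex.I * (((mRot φ * G) 1 l : ℝ) : ℂ) := by
  have h1 : Complex.exp (Complex.I * φ) = (Real.cos φ : ℂ) + Complex.I * (Real.sin φ : ℂ) := by
    rw [mul_comm, Complex.exp_mul_I, ← Complex.ofReal_cos, ← Complex.ofReal_sin]
    ring
  rw [h1]
  simp only [mRot, Matrix.mul_apply, Fin.sum_univ_two, Matrix.of_apply, Matrix.cons_val_zero,
    Matrix.cons_val_one, Matrix.cons_val', Matrix.cons_val_fin_one, Complex.ofReal_add,
    Complex.ofReal_mul, Complex.ofReal_neg]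
  linear_combination ((Real.sin φ : ℂ) * (G 1 l : ℂ)) * Complex.I_sq

/-- The frames near the lower sheet. -/
private theorem SurF0B_low (i : FI) {q : En 3} (hz : q 2 ≤ -1 / 4) (j l : Fin 2) :
    w.fZ i q j l = if j = 0 then 0 else
      (((mRot (w.fph i (q 0)) * (mn (w.frh i (q 0)) (w.fet i (q 0)) * fS i (q 0))) 0 l : ℝ) : ℂ)
      + Complex.I *
      (((mRot (w.fph i (q 0)) * (mn (w.frh i (q 0)) (w.fet i (q 0)) * fS i (q 0))) 1 l : ℝ) : ℂ) := by
  have hP := fP_low hz
  simp only [fZ, Matrix.of_apply, fw, fz, Gf, hP.1, hP.2, mNN_low (show q 2 ≤ 1 / 2 by linarith)]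
  by_cases hj : j = 0
  · simp [hj]
  · simp only [hj, if_false, Complex.ofReal_one, one_mul]
    exact SurF0B_rot _ _ _

private theorem SurF0B_comb (A B c : Matrix (Fin 2) (Fin 2) ℝ) (h : A = B * c) (l : Fin 2) :
    ((A 0 l : ℝ) : ℂ) + Complex.I * ((A 1 l : ℝ) : ℂ) =
      ∑ k, (((B 0 k : ℝ) : ℂ) + Complex.I * ((B 1 k : ℝ) : ℂ)) * ((c k l : ℝ) : ℂ) := by
  rw [h]
  simp only [Matrix.mul_apply, Fin.sum_univ_two]
  push_cast
  ring

theorem Tr_bot {r : Fin 5} (hr : r = 2 ∨ r = 3 ∨ r = 4) (b : Bool) {p : En 3} (hp : p ∈ Sg)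
    (h1 : p ∈ fO (1, b)) (h2 : p ∈ fO (r, b)) : w.Tr (1, b) (r, b) p := by
  have hmain : ∃ c : Matrix (Fin 2) (Fin 2) ℝ, c.det = 1 ∧ ∀ q : En 3, q ∈ fO (r, b) →
      mRot (w.fph (r, b) (q 0)) * (mn (w.frh (r, b) (q 0)) (w.fet (r, b) (q 0)) * fS (r, b) (q 0))
        = (mRot (w.fph (1, b) (q 0)) * (mn (w.frh (1, b) (q 0)) (w.fet (1, b) (q 0))
          * fS (1, b) (q 0))) * c := by
    have hR : mRot 0 = 1 := by
      unfold mRot
      rw [Real.cos_zero, Real.sin_zero, neg_zero, Matrix.one_fin_two]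
    have hn : mn 1 0 = 1 := by
      unfold mn
      rw [div_one, Matrix.one_fin_two]
    have e1 : ∀ x, mRot (w.fph (1, b) x) * (mn (w.frh (1, b) x) (w.fet (1, b) x)
        * fS (1, b) x) = fS (1, b) x := by
      intro x
      have a1 : w.fph (1, b) x = 0 := by simp [fph]
      have a2 : w.frh (1, b) x = 1 := by simp [frh]
      have a3 : w.fet (1, b) x = 0 := by simp [fet]
      rw [a1, a2, a3, hR, hn, Matrix.one_mul, Matrix.one_mul]
    have e2 : fS (1, true) = fun x => mD * mS x * mD := by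
      funext x
      simp [fS]
    have e3 : fS (1, false) = fun _ => 1 := by
      funext x
      simp [fS]
    rcases hr with rfl | rfl | rfl
    · refine ⟨1, det_one, fun q hq => ?_⟩
      rw [e1, Matrix.mul_one]
      have a1 : w.fph (2, b) (q 0) = 0 := by simp [fph]
      have a2 : w.frh (2, b) (q 0) = 1 := by simp [frh]
      have a3 : w.fet (2, b) (q 0) = 0 := by simp [fet]
      rw [a1, a2, a3, hR, hn, Matrix.one_mul, Matrix.one_mul]
      have hx : q 0 ≤ 7 / 8 := by
        have := hq.1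
        rw [SurF0B_fR2] at this
        nlinarith [this.2, sq_nonneg (q 1)]
      cases b
      · simp [fS]
      · rw [e2]
        simp only [mS_one hx]
        simp [fS]
    · have a1 : ∀ x, w.fph (3, b) x = w.ph2 := by intro x; simp [fph]
      have a2 : ∀ x, w.frh (3, b) x = 13 := by intro x; simp [frh]
      have a3 : ∀ x, w.fet (3, b) x = 70 / 13 := by intro x; simp [fet]
      cases b
      · refine ⟨mg2, ?_, fun q hq => ?_⟩
        · unfold mg2
          rw [Matrix.det_fin_two_of]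
          norm_num
        · rw [e1, a1, a2, a3, ← Matrix.mul_assoc, w.rel2]
          simp [fS]
      · refine ⟨mc2, ?_, fun q hq => ?_⟩
        · unfold mc2
          rw [Matrix.det_fin_two_of]
          norm_num
        · rw [e1, a1, a2, a3, ← Matrix.mul_assoc, w.rel2, e2]
          have hx : -7 / 8 ≤ q 0 := by
            have := hq.1
            rw [SurF0B_fR3] at this
            nlinarith [this.2, sq_nonneg (q 1)]
          have h3 : fS (3, true) (q 0) = mS (q 0) := by simp [fS]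
          rw [h3]
          exact mS_two hx
    · refine ⟨mg3, ?_, fun q hq => ?_⟩
      · unfold mg3
        rw [Matrix.det_fin_two_of]
        norm_num
      · rw [e1]
        cases b
        · have a1 : w.fph (4, false) (q 0) = w.ph (-2) := by simp [fph]
          have a2 : w.frh (4, false) (q 0) = w.rh (-2) := by simp [frh]
          have a3 : w.fet (4, false) (q 0) = w.et (-2) := by simp [fet]
          have h3 : fS (4, false) (q 0) = 1 := by simp [fS]
          have h4 := w.rel (-2)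
          rw [mS_left (by norm_num), Matrix.mul_one, Matrix.mul_one, mD_mD, Matrix.one_mul] at h4
          rw [a1, a2, a3, h3, e3, Matrix.mul_one, Matrix.one_mul]
          exact h4
        · have a1 : w.fph (4, true) (q 0) = w.ph (q 0) := by simp [fph]
          have a2 : w.frh (4, true) (q 0) = w.rh (q 0) := by simp [frh]
          have a3 : w.fet (4, true) (q 0) = w.et (q 0) := by simp [fet]
          have h3 : fS (4, true) (q 0) = mS (q 0) := by simp [fS]
          rw [a1, a2, a3, h3, e2, ← Matrix.mul_assoc]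
          exact w.rel (q 0)
  obtain ⟨c, hc, hmain⟩ := hmain
  refine ⟨c, hc, ?_⟩
  have h4 : ∀ᶠ q in 𝓝 p, q ∈ fO (1, b) := (openfO _).mem_nhds h1
  have h5 : ∀ᶠ q in 𝓝 p, q ∈ fO (r, b) := (openfO _).mem_nhds h2
  filter_upwards [mem_nhdsWithin_of_mem_nhds h4, mem_nhdsWithin_of_mem_nhds h5] with q hq hq'
  have hz : q 2 ≤ -1 / 4 := by
    have := hq.1
    rw [SurF0B_fR1] at this
    linarith
  refine Matrix.ext fun j l => ?_
  have hR : (w.fZ (1, b) q * c.map fun t => (t : ℂ)) j l =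
      ∑ k, w.fZ (1, b) q j k * ((c k l : ℝ) : ℂ) := Matrix.mul_apply
  rw [hR, w.SurF0B_low (r, b) hz j l]
  simp only [w.SurF0B_low (1, b) hz j]
  by_cases hj : j = 0
  · simp [hj]
  · simp only [hj, if_false]
    exact SurF0B_comb _ _ c (hmain q hq') l

private theorem SurF0B_same {r r' : Fin 5} {b : Bool} {p : En 3} (hp : p ∈ Sg)
    (hi : p ∈ fO (r, b)) (hj : p ∈ fO (r', b)) : w.Tr (r, b) (r', b) p := by
  have key : ∀ r r' : Fin 5, r < r' → p ∈ fO (r, b) → p ∈ fO (r', b) →
      w.Tr (r, b) (r', b) p := by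
    intro r r' hlt h h'
    have h01 := h.1
    have h02 := h'.1
    simp only at h01 h02
    have hr0 : r = 0 ∨ r = 1 ∨ r = 2 ∨ r = 3 ∨ r = 4 := by fin_cases r <;> simp
    have hr1 : r' = 0 ∨ r' = 1 ∨ r' = 2 ∨ r' = 3 ∨ r' = 4 := by fin_cases r' <;> simp
    rcases hr0 with rfl | rfl | rfl | rfl | rfl
    · rcases hr1 with rfl | rfl | hr1
      · exact absurd hlt (by decide)
      · rw [SurF0B_fR0] at h01
        rw [SurF0B_fR1] at h02
        linarith
      · exact w.Tr_top hr1 b hp h h'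
    · rcases hr1 with rfl | rfl | hr1
      · exact absurd hlt (by decide)
      · exact absurd hlt (by decide)
      · exact w.Tr_bot hr1 b hp h h'
    · rcases hr1 with rfl | rfl | rfl | rfl | rfl
      · exact absurd hlt (by decide)
      · exact absurd hlt (by decide)
      · exact absurd hlt (by decide)
      · exfalso
        rw [SurF0B_fR2] at h01
        rw [SurF0B_fR3] at h02
        nlinarith [h01.2, h02.2, sq_nonneg (p 1), sq_nonneg (p 0)]
      · exfalso
        rw [SurF0B_fR2] at h01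
        rw [SurF0B_fR4] at h02
        have h3 : -7 / 4 < p 0 := by nlinarith [h01.2, sq_nonneg (p 1)]
        nlinarith [h01.2, h02.2]
    · rcases hr1 with rfl | rfl | rfl | rfl | rfl
      · exact absurd hlt (by decide)
      · exact absurd hlt (by decide)
      · exact absurd hlt (by decide)
      · exact absurd hlt (by decide)
      · exfalso
        rw [SurF0B_fR3] at h01
        rw [SurF0B_fR4] at h02
        have h3 : p 0 < 7 / 4 := by nlinarith [h01.2, sq_nonneg (p 1)]
        nlinarith [h01.2, h02.2]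
    · exfalso
      rcases hr1 with rfl | rfl | rfl | rfl | rfl <;> exact absurd hlt (by decide)
  rcases lt_trichotomy r r' with h | h | h
  · exact key r r' h hi hj
  · subst h
    exact w.Tr_refl _ _
  · exact w.Tr_symm (key r' r h hj hi)

theorem Tr_all {i j : FI} {p : En 3} (hp : p ∈ Sg) (hi : p ∈ fO i) (hj : p ∈ fO j) :
    w.Tr i j p := by
  obtain ⟨r, b⟩ := i
  obtain ⟨r', b'⟩ := j
  have hm : p ∈ fO (r', b) := ⟨hj.1, hi.2⟩
  refine w.Tr_trans (w.SurF0B_same hp hi hm) ?_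
  cases b <;> cases b'
  · exact w.Tr_refl _ _
  · exact w.Tr_side r' hp hj hm
  · exact w.Tr_symm (w.Tr_side r' hp hm hj)
  · exact w.Tr_refl _ _

end Wnd

theorem fO_cover {p : En 3} (hp : p ∈ Sg) : ∃ i, p ∈ fO i := by
  have hb : ∃ b : Bool, if b then -1 / 4 < p 1 else p 1 < 1 / 4 := by
    by_cases h : p 1 < 1 / 4
    · exact ⟨false, by simpa using h⟩
    · exact ⟨true, by
        push_neg at h
        simp only [if_true]
        linarith⟩
  obtain ⟨b, hb⟩ := hb
  have hr : ∃ r : Fin 5, fR r p := by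
    rcases lt_or_ge (3 / 4) (p 2) with h2 | h2
    · exact ⟨0, by rw [Wnd.SurF0B_fR0]; exact h2⟩
    rcases lt_or_ge (p 2) (-3 / 4) with h2' | h2'
    · exact ⟨1, by rw [Wnd.SurF0B_fR1]; exact h2'⟩
    have hz : |p 2| ≤ 1 := abs_le.2 ⟨by linarith, by linarith⟩
    have hz' : |p 2| < 1 := abs_lt.2 ⟨by linarith, by linarith⟩
    rcases Sg_band hp hz with hc | hc | hc
    · exact ⟨4, by rw [Wnd.SurF0B_fR4, hc]; exact ⟨hz', by norm_num⟩⟩
    · exact ⟨3, by rw [Wnd.SurF0B_fR3, hc]; exact ⟨hz', by norm_num⟩⟩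
    · exact ⟨2, by rw [Wnd.SurF0B_fR2, hc]; exact ⟨hz', by norm_num⟩⟩
  obtain ⟨r, hr⟩ := hr
  exact ⟨(r, b), hr, hb⟩

end Pool.Agent.EXO
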