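import Mathlib
import Pool.Agent.EXO.SurF0B

/-!
# EXO / SurF0C: the system of frames over the surface of genus two

PROOFS.
* `F0`: `ev`: for `κ = Fin 2` the hypotheses `k ≠ l`, `sg8 k = sg8 l` are contradictory.  `tr`: from `Tr_all`: with the real matrix
  `c`: `fZ j q = fZ i q * c`, so by `fW_mul_G` `W_j Γ_j = W_i Γ_i * c` (also for the conjugate rows, because `c` is real).
-/

set_option autoImplicit false
set_option maxSynthPendingDepth 3
set_option linter.unusedSectionVars false

open Set Filter Topology Matrix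
open scoped ContDiff ComplexConjugate

namespace Pool.Agent.EXO

namespace Wnd

variable (w : Wnd)

private theorem SurF0C_tr {i j : FI} {p : En 3} (h : w.Tr i j p) :
    ∃ c : Matrix (Fin 2) (Fin 2) ℂ, ∀ᶠ y in 𝓝[Sg] p,
      w.fW j y * w.fG j y = w.fW i y * w.fG i y * c := by
  obtain ⟨c, -, hc⟩ := h
  refine ⟨c.map fun t => (t : ℂ), ?_⟩
  filter_upwards [hc] with y hy
  rw [w.fW_mul_G, w.fW_mul_G, hy]
  refine Matrix.ext fun a l => ?_
  simp only [Matrix.mul_apply, Matrix.of_apply, Matrix.map_apply]
  by_cases ha : a.1 = 0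
  · simp only [ha, if_true]
  · simp only [ha, if_false, map_sum, map_mul, Complex.conj_ofReal]

/-- The system of frames over the surface of genus two. -/
noncomputable def F0 : FrSys Sg (Fin 2 × Fin 2) (Fin 2) where
  I := FI
  O := fO
  W := w.fW
  Γ := w.fG
  s := fs
  σ := sg8
  h := fh
  hi := fhi
  openO := openfO
  cover := fun _ hx => fO_cover hx
  smW := fun i x _ => w.smfW i x
  smΓ := fun i x _ => w.smfG i x
  s_sq := by
    intro a
    unfold fs
    split
    · exact Or.inl rfl
    · exact Or.inr rfl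
  σ_sq := by
    intro a
    fin_cases a <;> simp [sg8]
  hih := fhi_h
  hi_herm := fhi_herm
  WW := fun i x _ => w.fW_W i x
  sW := fun i x _ => w.fs_W i x
  ΓσΓ := fun i x _ => w.fG_G i x
  ev := by
    intro i x _ v k l hkl hs
    exfalso
    fin_cases k <;> fin_cases l <;> simp_all [sg8]
    all_goals norm_num at hs
  tr := fun _ _ _ hx hi hj => w.SurF0C_tr (w.Tr_all hx hi hj)

end Wnd

end Pool.Agent.EXO
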