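import Mathlib
import Pool.Agent.EXO.SurMat
import Pool.Agent.EXO.FmFA

/-!
# EXO / SurOneF: one-forms and matrices of forms

PROOFS.
* `oneF_deg`: `isDeg_sum`, `isDeg_smul`, `isDeg_of1` (FmFA).
* `deg1_sq`: for `u` of degree one `u * u = (-1)^(1*1) u * u` (`mul_isDeg_comm`), so `2 (u * u) = 0`.
* `FAMap_oneF`: `FAMap L (of1 (bv a)) = of1 (adjoint L (bv a))` and `of1 w = ∑ b, w b • of1 (bv b)`
  (`of1_eq_sum`, `of1_bv`), the coefficient of `of1 (bv b)` is `∑ a, t (bv a) (L (bv b)) a = t (L (bv b))` by `ht`.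
* `FAMap_oneF_idem`: `FAMap_oneF` twice, `P (P v) = P v`.
* `FAMap_cR`: `FAMap L` is a `ℂ`-algebra homomorphism (`FAHom`), so it fixes scalars.
* `cR_mul`, `cR_one`: `algebraMap` is a ring homomorphism (`Matrix.map_mul`).
* `dR_mul`: `dmat_mul`, and scalars commute with forms.
* `dR_congr_tan`: `FAMap (P x) (oneF t) = oneF (t ∘ P x)` and `dmat_tan`.
-/

set_option autoImplicit false
set_option maxSynthPendingDepth 3
set_option linter.unusedSectionVars false

open Set Filter Topology Matrix
open scoped ContDiff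

namespace Pool.Agent.EXO

variable {m k : ℕ} {ι κ μ : Type} [Fintype ι] [Fintype κ] [Fintype μ] [DecidableEq ι]
  [DecidableEq κ] [DecidableEq μ]

/-- The one-form with the values `t v`. -/
noncomputable def oneF (t : En m → ℂ) : FA m := ∑ a, t (bv a) • of1 (bv a)

/-- A matrix of numbers as a matrix of forms. -/
noncomputable def cR (m : ℕ) {ι κ : Type} (T : Matrix ι κ ℂ) : Matrix ι κ (FA m) :=
  T.map (algebraMap ℂ (FA m))

/-- The exterior derivative of a matrix valued function. -/
noncomputable def dR {ι κ : Type} (W : En m → Matrix ι κ ℂ) (x : En m) : Matrix ι κ (FA m) :=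
  Matrix.of fun i j => oneF fun v => dmat W x v i j

/-- The exterior derivative of a matrix of forms. -/
noncomputable def dRF {ι κ : Type} (α : En m → Matrix ι κ (FA m)) (x : En m) :
    Matrix ι κ (FA m) := Matrix.of fun i j => dF (fun y => α y i j) x

theorem oneF_deg (t : En m → ℂ) : (oneF t).IsDeg 1 :=
  isDeg_sum _ fun _ _ => isDeg_smul (isDeg_of1 _) _

theorem deg1_sq {u : FA m} (hu : u.IsDeg 1) : u * u = 0 := by
  have h : u * u = -(u * u) := by
    have h1 := mul_isDeg_comm hu hu
    simpa using h1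
  have h2 : (2 : ℂ) • (u * u) = 0 := by
    rw [two_smul]
    nth_rewrite 1 [h]
    exact neg_add_cancel _
  exact (smul_eq_zero.1 h2).resolve_left two_ne_zero

theorem oneF_add (t t' : En m → ℂ) : oneF (fun v => t v + t' v) = oneF t + oneF t' := by
  simp only [oneF, add_smul, Finset.sum_add_distrib]

theorem oneF_neg (t : En m → ℂ) : oneF (fun v => -t v) = -oneF t := by
  simp only [oneF, neg_smul, Finset.sum_neg_distrib]

theorem oneF_mul (c : ℂ) (t : En m → ℂ) : oneF (fun v => c * t v) = c • oneF t := by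
  simp only [oneF, mul_smul, Finset.smul_sum]

private theorem SurOneF_adj (L : En k →L[ℝ] En m) (a : Fin m) (b : Fin k) :
    (ContinuousLinearMap.adjoint L (bv a)) b = (L (bv b)) a := by
  have h4 : (ContinuousLinearMap.adjoint L (bv a)) b =
      inner ℝ (bv b) (ContinuousLinearMap.adjoint L (bv a)) := by
    simp [bv, EuclideanSpace.inner_single_left]
  rw [h4, ContinuousLinearMap.adjoint_inner_right]
  simp [bv, EuclideanSpace.inner_single_right]

theorem FAMap_oneF (L : En k →L[ℝ] En m) {t : En m → ℂ}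
    (ht : ∀ v, t v = ∑ a, ((v a : ℝ) : ℂ) * t (bv a)) :
    FAMap L (oneF t) = oneF fun v => t (L v) := by
  have h1 : ∀ b : Fin k, t (L (bv b)) • of1 (bv b) =
      ∑ a, (((L (bv b)) a : ℝ) : ℂ) • t (bv a) • of1 (bv b) := by
    intro b
    rw [ht (L (bv b)), Finset.sum_smul]
    exact Finset.sum_congr rfl fun a _ => by rw [mul_smul]
  simp only [oneF]
  rw [FAMap_sum, Finset.sum_congr rfl fun b _ => h1 b, Finset.sum_comm]
  refine Finset.sum_congr rfl fun a _ => ?_
  rw [FAMap_smul, FAMap_of1, of1_eq_sum, Finset.smul_sum]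
  refine Finset.sum_congr rfl fun b _ => ?_
  rw [SurOneF_adj, of1_bv, smul_comm]

theorem FAMap_oneF_idem (P : En m →L[ℝ] En m) (hP : ∀ v, P (P v) = P v) {t : En m → ℂ}
    (ht : ∀ v, t v = ∑ a, ((v a : ℝ) : ℂ) * t (bv a)) :
    FAMap P (oneF fun v => t (P v)) = FAMap P (oneF t) := by
  have h1 : ∀ v w : En m, t (v + w) = t v + t w := by
    intro v w
    rw [ht (v + w), ht v, ht w, ← Finset.sum_add_distrib]
    exact Finset.sum_congr rfl fun a _ => by
      rw [show (v + w) a = v a + w a from rfl]; push_cast; ring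
  have h2 : ∀ (c : ℝ) (v : En m), t (c • v) = (c : ℂ) * t v := by
    intro c v
    rw [ht (c • v), ht v, Finset.mul_sum]
    exact Finset.sum_congr rfl fun a _ => by
      rw [show (c • v) a = c * v a from rfl]; push_cast; ring
  have ht' : ∀ v, t (P v) = ∑ a, ((v a : ℝ) : ℂ) * t (P (bv a)) := by
    intro v
    have h3 : v = ∑ a, v a • bv a := epsv_sum_ee v
    have h0 : t 0 = 0 := by
      have := h2 0 0
      simpa using this
    have hs : ∀ (s : Finset (Fin m)) (f : Fin m → En m), t (∑ a ∈ s, f a) = ∑ a ∈ s, t (f a) := by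
      intro s f
      induction s using Finset.induction_on with
      | empty => simpa using h0
      | insert a s ha ih => rw [Finset.sum_insert ha, Finset.sum_insert ha, h1, ih]
    conv_lhs => rw [h3, map_sum, hs]
    exact Finset.sum_congr rfl fun a _ => by rw [map_smul, h2]
  rw [FAMap_oneF P (t := fun v => t (P v)) ht', FAMap_oneF P ht]
  simp only [hP]

theorem FAMap_cR (L : En k →L[ℝ] En m) (T : Matrix ι κ ℂ) :
    (cR m T).map (FAMap L) = cR k T := by
  refine Matrix.ext fun i j => ?_
  simp only [cR, Matrix.map_apply]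
  rw [← FAHom_apply]
  exact (FAHom L).commutes _

theorem cR_mul (T : Matrix ι κ ℂ) (T' : Matrix κ μ ℂ) :
    cR m (T * T') = cR m T * cR m T' := by
  simp only [cR, Matrix.map_mul]

theorem cR_one : cR m (1 : Matrix ι ι ℂ) = 1 := by
  simp only [cR]
  exact Matrix.map_one _ (map_zero _) (map_one _)

theorem dR_mul {W : En m → Matrix ι κ ℂ} {V : En m → Matrix κ μ ℂ} {x : En m} (hW : SmM W x)
    (hV : SmM V x) : dR (fun y => W y * V y) x = dR W x * cR m (V x) + cR m (W x) * dR V x := by
  refine Matrix.ext fun i j => ?_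
  simp only [dR, cR, Matrix.of_apply, Matrix.add_apply, Matrix.mul_apply, Matrix.map_apply]
  simp only [dmat_mul hW hV, Matrix.add_apply, oneF_add, Matrix.mul_apply]
  have hsum : ∀ (f : κ → En m → ℂ),
      oneF (fun v => ∑ l, f l v) = ∑ l, oneF (fun v => f l v) := by
    intro f
    simp only [oneF, Finset.sum_smul]
    rw [Finset.sum_comm]
  rw [hsum, hsum]
  congr 1
  · refine Finset.sum_congr rfl fun l _ => ?_
    rw [← Algebra.commutes, ← Algebra.smul_def, ← oneF_mul]
    congr 1
    funext v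
    ring
  · refine Finset.sum_congr rfl fun l _ => ?_
    rw [← Algebra.smul_def, ← oneF_mul]

/-- The restriction of the derivative to `Y` depends only on the values on `Y`. -/
theorem dR_congr_tan (Y : Geo k m) {A B : En m → Matrix ι κ ℂ} {x : En m}
    (hx : x ∈ Y.carrier) (hA : SmM A x) (hB : SmM B x)
    (h : ∀ᶠ y in 𝓝[Y.carrier] x, A y = B y) :
    (dR A x).map (FAMap (Y.P x)) = (dR B x).map (FAMap (Y.P x)) := by
  have hl : ∀ (D : En m → Matrix ι κ ℂ) (i : ι) (j : κ) (v : En m),
      dmat D x v i j = ∑ a, ((v a : ℝ) : ℂ) * dmat D x (bv a) i j := by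
    intro D i j v
    have h1 := congrFun (congrFun (dmat_sum D x v) i) j
    rw [h1, Matrix.sum_apply]
    rfl
  refine Matrix.ext fun i j => ?_
  simp only [dR, Matrix.of_apply, Matrix.map_apply]
  rw [FAMap_oneF _ (hl A i j), FAMap_oneF _ (hl B i j)]
  simp only [dmat_tan Y hx hA hB h]

end Pool.Agent.EXO
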