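import Mathlib
import Pool.Agent.EXO.SurKD
import Pool.Agent.EXO.SurF0A
import Pool.Agent.EXO.SurF0C
import Pool.Agent.EXO.SurOneF

/-!
# EXO / SurK: connection forms and curvature of the explicit frames

PROOFS.  Write `ζ_l = fz i p l = G_0l + i G_1l` (a function of `x = p 0`, `z = p 2`).
* `th0`: `X = dΓ Gi`, `Gi = fhi Γᴴ σ`: `Gi 0 0 = (i/2) conj ζ_1`, `Gi 1 0 = -(i/2) conj ζ_0`, so
  `th 0 = -(∂_vζ_0 (i/2) conj ζ_1 - ∂_vζ_1 (i/2) conj ζ_0) = (i/2)(conj ζ_0 ∂_vζ_1 - conj ζ_1 ∂_vζ_0)`.  Its bracket has the real part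
  `G00 ∂G01 - G01 ∂G00 + G10 ∂G11 - G11 ∂G10` and the imaginary part `∂(G00 G11 - G01 G10) = ∂ det = 0` (`Gf_det`).
  The derivative of `p ↦ G (p 0) (p 2)` in the direction `v` is `gx * v 0 + gz * v 2` (`smooth_Gf`, chain rule).
* `th1`: in the same way `Gi 0 1 = -(i/2) ζ_1`, `Gi 1 1 = (i/2) ζ_0`; `th 1 = (i/2)(ζ_1 ∂conj ζ_0 - ζ_0 ∂conj ζ_1) = - th 0` (the bracket of
  `th 0` is real).
* `K_eq`: `∂_x Az - ∂_z Ax`: the mixed second derivatives cancel (symmetry), the rest is `Kf`.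
* `dF_th0`: near `p` (everywhere) `oneF (th 0 y) = (i Ax) • of1 (bv 0) + (i Az) • of1 (bv 2)`; its derivative is
  `i ∂_z Ax • of1 (bv 2) * of1 (bv 0) + i ∂_x Az • of1 (bv 0) * of1 (bv 2)` (`of1_mul_of1`, `of1_mul_self`; no dependence on `p 1`).
-/

set_option autoImplicit false
set_option maxSynthPendingDepth 3

open Set Matrix

namespace Pool.Agent.EXO

open scoped ContDiff ComplexConjugate

/-! ### Partial derivatives of functions of two real variables -/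

private theorem SurK_dx {F : ℝ × ℝ → ℝ} (hF : ContDiff ℝ ∞ F) (x z : ℝ) :
    HasDerivAt (fun s => F (s, z)) (fderiv ℝ F (x, z) (1, 0)) x := by
  have h1 : HasFDerivAt F (fderiv ℝ F (x, z)) (x, z) :=
    (hF.differentiable (by simp)).differentiableAt.hasFDerivAt
  have h2 : HasDerivAt (fun s : ℝ => (s, z)) ((1 : ℝ), (0 : ℝ)) x :=
    (hasDerivAt_id x).prodMk (hasDerivAt_const x z)
  exact HasFDerivAt.comp_hasDerivAt (l := F) x h1 h2

private theorem SurK_dz {F : ℝ × ℝ → ℝ} (hF : ContDiff ℝ ∞ F) (x z : ℝ) :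
    HasDerivAt (fun t => F (x, t)) (fderiv ℝ F (x, z) (0, 1)) z := by
  have h1 : HasFDerivAt F (fderiv ℝ F (x, z)) (x, z) :=
    (hF.differentiable (by simp)).differentiableAt.hasFDerivAt
  have h2 : HasDerivAt (fun t : ℝ => (x, t)) ((0 : ℝ), (1 : ℝ)) z :=
    (hasDerivAt_const z x).prodMk (hasDerivAt_id z)
  exact HasFDerivAt.comp_hasDerivAt (l := F) z h1 h2

private theorem SurK_sm {F : ℝ × ℝ → ℝ} (hF : ContDiff ℝ ∞ F) (v : ℝ × ℝ) :
    ContDiff ℝ ∞ fun q => fderiv ℝ F q v :=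
  (hF.fderiv_right (m := ∞) (by simp)).clm_apply contDiff_const

private theorem SurK_symm {F : ℝ × ℝ → ℝ} (hF : ContDiff ℝ ∞ F) (q v w : ℝ × ℝ) :
    fderiv ℝ (fun q => fderiv ℝ F q v) q w = fderiv ℝ (fun q => fderiv ℝ F q w) q v := by
  have hd : DifferentiableAt ℝ (fderiv ℝ F) q :=
    ((hF.fderiv_right (m := ∞) (by simp)).differentiable (by simp)).differentiableAt
  have h1 : ∀ u : ℝ × ℝ, fderiv ℝ (fun q => fderiv ℝ F q u) q =
      (fderiv ℝ (fderiv ℝ F) q).flip u := by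
    intro u
    rw [fderiv_clm_apply hd (differentiableAt_const u)]
    simp
  have h2 : IsSymmSndFDerivAt ℝ F q := by
    refine (hF.contDiffAt (x := q)).isSymmSndFDerivAt ?_
    simp [minSmoothness_of_isRCLikeNormedField]
    exact WithTop.coe_le_coe.2 le_top
  rw [h1, h1]
  exact h2 w v

/-- Functions of `(p 0, p 2)`. -/
private theorem SurK_p {F : ℝ × ℝ → ℝ} (hF : ContDiff ℝ ∞ F) (p : En 3) :
    HasFDerivAt (fun y : En 3 => F (y 0, y 2))
      ((fderiv ℝ F (p 0, p 2)).comp ((EuclideanSpace.proj (𝕜 := ℝ) (0 : Fin 3)).prod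
        (EuclideanSpace.proj (𝕜 := ℝ) (2 : Fin 3)))) p := by
  have h1 : HasFDerivAt F (fderiv ℝ F (p 0, p 2)) (p 0, p 2) :=
    (hF.differentiable (by simp)).differentiableAt.hasFDerivAt
  have h2 : HasFDerivAt (fun y : En 3 => (y 0, y 2))
      ((EuclideanSpace.proj (𝕜 := ℝ) (0 : Fin 3)).prod
        (EuclideanSpace.proj (𝕜 := ℝ) (2 : Fin 3))) p :=
    ((EuclideanSpace.proj (𝕜 := ℝ) (0 : Fin 3)).prod
        (EuclideanSpace.proj (𝕜 := ℝ) (2 : Fin 3))).hasFDerivAt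
  exact HasFDerivAt.comp (g := F) p h1 h2

private theorem SurK_lin {F : ℝ × ℝ → ℝ} (q : ℝ × ℝ) (a b : ℝ) :
    fderiv ℝ F q (a, b) = fderiv ℝ F q (1, 0) * a + fderiv ℝ F q (0, 1) * b := by
  have h : ((a, b) : ℝ × ℝ) = a • (1, 0) + b • (0, 1) := by
    simp
  rw [h, map_add, map_smul, map_smul, smul_eq_mul, smul_eq_mul]
  ring

private theorem SurK_pv {F : ℝ × ℝ → ℝ} (hF : ContDiff ℝ ∞ F) (p v : En 3) :
    fderiv ℝ (fun y : En 3 => F (y 0, y 2)) p v =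
      fderiv ℝ F (p 0, p 2) (1, 0) * v 0 + fderiv ℝ F (p 0, p 2) (0, 1) * v 2 := by
  rw [(SurK_p hF p).fderiv, ← SurK_lin]
  rfl

namespace Wnd

variable (w : Wnd)

private noncomputable def SurK_F (i : FI) (a b : Fin 2) (q : ℝ × ℝ) : ℝ := w.Gf i q.1 q.2 a b

private theorem SurK_smF (i : FI) (a b : Fin 2) : ContDiff ℝ ∞ (w.SurK_F i a b) :=
  w.smooth_Gf i a b

private theorem SurK_gx (i : FI) (x z : ℝ) (a b : Fin 2) :
    w.gx i x z a b = fderiv ℝ (w.SurK_F i a b) (x, z) (1, 0) :=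
  (SurK_dx (w.SurK_smF i a b) x z).deriv

private theorem SurK_gz (i : FI) (x z : ℝ) (a b : Fin 2) :
    w.gz i x z a b = fderiv ℝ (w.SurK_F i a b) (x, z) (0, 1) :=
  (SurK_dz (w.SurK_smF i a b) x z).deriv

private theorem SurK_det (i : FI) (x z : ℝ) :
    w.Gf i x z 0 0 * w.Gf i x z 1 1 - w.Gf i x z 0 1 * w.Gf i x z 1 0 = 1 := by
  have h := w.Gf_det i x z
  rwa [Matrix.det_fin_two] at h

private theorem SurK_detx (i : FI) (x z : ℝ) :
    w.gx i x z 0 0 * w.Gf i x z 1 1 + w.Gf i x z 0 0 * w.gx i x z 1 1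
      - (w.gx i x z 0 1 * w.Gf i x z 1 0 + w.Gf i x z 0 1 * w.gx i x z 1 0) = 0 := by
  have h : ∀ a b : Fin 2, HasDerivAt (fun s => w.Gf i s z a b) (w.gx i x z a b) x := by
    intro a b
    rw [SurK_gx]
    exact SurK_dx (w.SurK_smF i a b) x z
  have h1 := ((h 0 0).mul (h 1 1)).sub ((h 0 1).mul (h 1 0))
  have h2 : (fun s => w.Gf i s z 0 0) * (fun s => w.Gf i s z 1 1) -
      (fun s => w.Gf i s z 0 1) * (fun s => w.Gf i s z 1 0) = fun _ => (1 : ℝ) := by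
    funext s
    exact w.SurK_det i s z
  rw [h2] at h1
  exact h1.unique (hasDerivAt_const x (1 : ℝ))

private theorem SurK_detz (i : FI) (x z : ℝ) :
    w.gz i x z 0 0 * w.Gf i x z 1 1 + w.Gf i x z 0 0 * w.gz i x z 1 1
      - (w.gz i x z 0 1 * w.Gf i x z 1 0 + w.Gf i x z 0 1 * w.gz i x z 1 0) = 0 := by
  have h : ∀ a b : Fin 2, HasDerivAt (fun t => w.Gf i x t a b) (w.gz i x z a b) z := by
    intro a b
    rw [SurK_gz]
    exact SurK_dz (w.SurK_smF i a b) x z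
  have h1 := ((h 0 0).mul (h 1 1)).sub ((h 0 1).mul (h 1 0))
  have h2 : (fun t => w.Gf i x t 0 0) * (fun t => w.Gf i x t 1 1) -
      (fun t => w.Gf i x t 0 1) * (fun t => w.Gf i x t 1 0) = fun _ => (1 : ℝ) := by
    funext t
    exact w.SurK_det i x t
  rw [h2] at h1
  exact h1.unique (hasDerivAt_const z (1 : ℝ))

/-- The directional derivative of an entry of `Gf`. -/
private noncomputable def SurK_D (i : FI) (p v : En 3) (a b : Fin 2) : ℝ :=
  w.gx i (p 0) (p 2) a b * v 0 + w.gz i (p 0) (p 2) a b * v 2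

private theorem SurK_hG (i : FI) (p : En 3) (a b : Fin 2) :
    DifferentiableAt ℝ (fun y : En 3 => w.Gf i (y 0) (y 2) a b) p :=
  (SurK_p (w.SurK_smF i a b) p).differentiableAt

private theorem SurK_hGv (i : FI) (p v : En 3) (a b : Fin 2) :
    fderiv ℝ (fun y : En 3 => w.Gf i (y 0) (y 2) a b) p v = w.SurK_D i p v a b := by
  have h := SurK_pv (w.SurK_smF i a b) p v
  rw [← SurK_gx, ← SurK_gz] at h
  exact h

private theorem SurK_fz (i : FI) (p : En 3) (l : Fin 2) :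
    HasFDerivAt (fun y => w.fz i y l)
      (Complex.ofRealCLM.comp (fderiv ℝ (fun y : En 3 => w.Gf i (y 0) (y 2) 0 l) p) +
        (Complex.I • Complex.ofRealCLM.comp
          (fderiv ℝ (fun y : En 3 => w.Gf i (y 0) (y 2) 1 l) p))) p := by
  have h0 := Complex.ofRealCLM.hasFDerivAt.comp p (w.SurK_hG i p 0 l).hasFDerivAt
  have h1 := Complex.ofRealCLM.hasFDerivAt.comp p (w.SurK_hG i p 1 l).hasFDerivAt
  exact h0.add (h1.const_mul Complex.I)

private theorem SurK_fzv (i : FI) (p v : En 3) (l : Fin 2) :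
    fderiv ℝ (fun y => w.fz i y l) p v =
      (w.SurK_D i p v 0 l : ℂ) + Complex.I * (w.SurK_D i p v 1 l : ℂ) := by
  rw [(w.SurK_fz i p l).fderiv, ← SurK_hGv, ← SurK_hGv]
  rfl

private theorem SurK_fzc (i : FI) (p v : En 3) (l : Fin 2) :
    fderiv ℝ (fun y => conj (w.fz i y l)) p v =
      (w.SurK_D i p v 0 l : ℂ) - Complex.I * (w.SurK_D i p v 1 l : ℂ) := by
  have h := (Complex.conjCLE : ℂ ≃L[ℝ] ℂ).hasFDerivAt.comp p (w.SurK_fz i p l)
  have h1 : fderiv ℝ (fun y => conj (w.fz i y l)) p v =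
      conj (fderiv ℝ (fun y => w.fz i y l) p v) := by
    rw [(w.SurK_fz i p l).fderiv]
    exact congrArg (fun L : En 3 →L[ℝ] ℂ => L v) h.fderiv
  rw [h1, SurK_fzv]
  simp [sub_eq_add_neg]

private theorem SurK_sg (k : Fin 2) : sg8 k = if k = 0 then 1 else -1 := rfl

private theorem SurK_Gi (i : FI) (p : En 3) (k l : Fin 2) : w.F0.Gi i p k l =
    (∑ j, fhi k j * conj (w.fG i p l j)) * sg8 l := by
  show (fhi * (w.fG i p)ᴴ * diagonal sg8) k l = _
  rw [Matrix.mul_diagonal, Matrix.mul_apply]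
  simp [Matrix.conjTranspose_apply]

private theorem SurK_X (i : FI) (p v : En 3) (k : Fin 2) : w.F0.X i p v k k =
    fderiv ℝ (fun y => w.fG i y k 0) p v * w.F0.Gi i p 0 k +
      fderiv ℝ (fun y => w.fG i y k 1) p v * w.F0.Gi i p 1 k := by
  show (dmat (w.fG i) p v * w.F0.Gi i p) k k = _
  rw [Matrix.mul_apply, Fin.sum_univ_two]
  rfl

private theorem SurK_th (i : FI) (p v : En 3) : w.F0.th i 0 p v
      = Complex.I * ((w.Ax i (p 0) (p 2) * v 0 + w.Az i (p 0) (p 2) * v 2 : ℝ) : ℂ) ∧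
    w.F0.th i 1 p v
      = -(Complex.I * ((w.Ax i (p 0) (p 2) * v 0 + w.Az i (p 0) (p 2) * v 2 : ℝ) : ℂ)) := by
  have hx := w.SurK_detx i (p 0) (p 2)
  have hz := w.SurK_detz i (p 0) (p 2)
  have e0 : ∀ l : Fin 2, (fun y => w.fG i y 0 l) = fun y => w.fz i y l := fun l => rfl
  have e1 : ∀ l : Fin 2, (fun y => w.fG i y 1 l) = fun y => conj (w.fz i y l) := fun l => rfl
  have g0 : ∀ l : Fin 2, w.fG i p 0 l = w.fz i p l := fun l => rfl
  have g1 : ∀ l : Fin 2, w.fG i p 1 l = conj (w.fz i p l) := fun l => rfl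
  have hD : w.SurK_D i p v 0 0 * w.Gf i (p 0) (p 2) 1 1
      + w.Gf i (p 0) (p 2) 0 0 * w.SurK_D i p v 1 1
      - (w.SurK_D i p v 0 1 * w.Gf i (p 0) (p 2) 1 0
        + w.Gf i (p 0) (p 2) 0 1 * w.SurK_D i p v 1 0) = 0 := by
    unfold SurK_D
    linear_combination v 0 * hx + v 2 * hz
  have hA : w.Ax i (p 0) (p 2) * v 0 + w.Az i (p 0) (p 2) * v 2 =
      (1 / 2) * (w.Gf i (p 0) (p 2) 0 0 * w.SurK_D i p v 0 1
        - w.Gf i (p 0) (p 2) 0 1 * w.SurK_D i p v 0 0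
        + w.Gf i (p 0) (p 2) 1 0 * w.SurK_D i p v 1 1
        - w.Gf i (p 0) (p 2) 1 1 * w.SurK_D i p v 1 0) := by
    unfold SurK_D Ax Az
    ring
  constructor
  · unfold FrSys.th
    rw [SurK_X, SurK_Gi, SurK_Gi, e0, e0, SurK_fzv, SurK_fzv, hA]
    simp only [Fin.sum_univ_two, g0, fz, fhi, SurK_sg]
    apply Complex.ext
    · simp
      linear_combination (-1 / 2 : ℝ) * hD
    · simp
      ring
  · unfold FrSys.th
    rw [SurK_X, SurK_Gi, SurK_Gi, e1, e1, SurK_fzc, SurK_fzc, hA]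
    simp only [Fin.sum_univ_two, g1, fz, fhi, SurK_sg]
    apply Complex.ext
    · simp
      linear_combination (-1 / 2 : ℝ) * hD
    · simp
      ring

private theorem SurK_smAx (i : FI) : ContDiff ℝ ∞ fun q : ℝ × ℝ => w.Ax i q.1 q.2 := by
  unfold Ax
  simp only [SurK_gx]
  have h := fun a b => w.SurK_smF i a b
  have h' := fun a b => SurK_sm (w.SurK_smF i a b) (1, 0)
  exact contDiff_const.mul (((((h 0 0).mul (h' 0 1)).sub ((h 0 1).mul (h' 0 0))).add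
    ((h 1 0).mul (h' 1 1))).sub ((h 1 1).mul (h' 1 0)))

private theorem SurK_smAz (i : FI) : ContDiff ℝ ∞ fun q : ℝ × ℝ => w.Az i q.1 q.2 := by
  unfold Az
  simp only [SurK_gz]
  have h := fun a b => w.SurK_smF i a b
  have h' := fun a b => SurK_sm (w.SurK_smF i a b) (0, 1)
  exact contDiff_const.mul (((((h 0 0).mul (h' 0 1)).sub ((h 0 1).mul (h' 0 0))).add
    ((h 1 0).mul (h' 1 1))).sub ((h 1 1).mul (h' 1 0)))

theorem th0 (i : FI) (p v : En 3) : w.F0.th i 0 p v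
    = Complex.I * ((w.Ax i (p 0) (p 2) * v 0 + w.Az i (p 0) (p 2) * v 2 : ℝ) : ℂ) :=
  (w.SurK_th i p v).1

theorem th1 (i : FI) (p v : En 3) : w.F0.th i 1 p v = -w.F0.th i 0 p v := by
  rw [(w.SurK_th i p v).1, (w.SurK_th i p v).2]

theorem K_eq (i : FI) (x z : ℝ) :
    deriv (fun s => w.Az i s z) x - deriv (fun t => w.Ax i x t) z = w.Kf i x z := by
  have hx : ∀ a b : Fin 2, HasDerivAt (fun s => w.Gf i s z a b) (w.gx i x z a b) x := by
    intro a b
    rw [SurK_gx]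
    exact SurK_dx (w.SurK_smF i a b) x z
  have hz : ∀ a b : Fin 2, HasDerivAt (fun t => w.Gf i x t a b) (w.gz i x z a b) z := by
    intro a b
    rw [SurK_gz]
    exact SurK_dz (w.SurK_smF i a b) x z
  have hzx : ∀ a b : Fin 2, HasDerivAt (fun s => w.gz i s z a b)
      (fderiv ℝ (fun q => fderiv ℝ (w.SurK_F i a b) q (0, 1)) (x, z) (1, 0)) x := by
    intro a b
    simp only [SurK_gz]
    exact SurK_dx (SurK_sm (w.SurK_smF i a b) (0, 1)) x z
  have hxz : ∀ a b : Fin 2, HasDerivAt (fun t => w.gx i x t a b)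
      (fderiv ℝ (fun q => fderiv ℝ (w.SurK_F i a b) q (0, 1)) (x, z) (1, 0)) z := by
    intro a b
    simp only [SurK_gx]
    rw [SurK_symm (w.SurK_smF i a b)]
    exact SurK_dz (SurK_sm (w.SurK_smF i a b) (1, 0)) x z
  have h1 := ((((((hx 0 0).mul (hzx 0 1)).sub ((hx 0 1).mul (hzx 0 0))).add
    ((hx 1 0).mul (hzx 1 1))).sub ((hx 1 1).mul (hzx 1 0))).const_mul (1 / 2 : ℝ))
  have h2 := ((((((hz 0 0).mul (hxz 0 1)).sub ((hz 0 1).mul (hxz 0 0))).add
    ((hz 1 0).mul (hxz 1 1))).sub ((hz 1 1).mul (hxz 1 0))).const_mul (1 / 2 : ℝ))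
  have e1 : deriv (fun s => w.Az i s z) x = _ := h1.deriv
  have e2 : deriv (fun t => w.Ax i x t) z = _ := h2.deriv
  rw [e1, e2]
  unfold Kf
  ring

private theorem SurK_one (i : FI) (y : En 3) : oneF (w.F0.th i 0 y) =
    (Complex.I * (w.Ax i (y 0) (y 2) : ℂ)) • of1 (bv 0) +
      (Complex.I * (w.Az i (y 0) (y 2) : ℂ)) • of1 (bv 2) := by
  unfold oneF
  rw [Fin.sum_univ_three, w.th0, w.th0, w.th0]
  simp [bv]

private theorem SurK_dfun {F : ℝ × ℝ → ℝ} (hF : ContDiff ℝ ∞ F) (u : FA 3) (p : En 3) :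
    HasFDerivAt (fun y : En 3 => (Complex.I * (F (y 0, y 2) : ℂ)) • u)
      (((ContinuousLinearMap.toSpanSingleton ℂ u).restrictScalars ℝ).comp
        (Complex.I • Complex.ofRealCLM.comp ((fderiv ℝ F (p 0, p 2)).comp
          ((EuclideanSpace.proj (𝕜 := ℝ) (0 : Fin 3)).prod
            (EuclideanSpace.proj (𝕜 := ℝ) (2 : Fin 3)))))) p := by
  have h1 := (Complex.ofRealCLM.hasFDerivAt.comp p (SurK_p hF p)).const_mul Complex.I
  exact ((ContinuousLinearMap.toSpanSingleton ℂ u).restrictScalars ℝ).hasFDerivAt.comp p h1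

theorem dF_th0 (i : FI) (p : En 3) : dF (fun y => oneF (w.F0.th i 0 y)) p
    = (Complex.I * (w.Kf i (p 0) (p 2) : ℂ)) • (of1 (bv 0) * of1 (bv 2)) := by
  have hf : ∀ v : En 3, fderiv ℝ (fun y => oneF (w.F0.th i 0 y)) p v =
      (Complex.I * ((deriv (fun s => w.Ax i s (p 2)) (p 0) * v 0 +
        deriv (fun t => w.Ax i (p 0) t) (p 2) * v 2 : ℝ) : ℂ)) • of1 (bv 0) +
      (Complex.I * ((deriv (fun s => w.Az i s (p 2)) (p 0) * v 0 +
        deriv (fun t => w.Az i (p 0) t) (p 2) * v 2 : ℝ) : ℂ)) • of1 (bv 2) := by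
    intro v
    have h1 := (SurK_dfun (w.SurK_smAx i) (of1 (bv 0)) p).add
      (SurK_dfun (w.SurK_smAz i) (of1 (bv 2)) p)
    have e1 : (fun y => oneF (w.F0.th i 0 y)) =
        (fun y : En 3 => (Complex.I * (w.Ax i (y 0) (y 2) : ℂ)) • (of1 (bv 0) : FA 3)) +
        fun y : En 3 => (Complex.I * (w.Az i (y 0) (y 2) : ℂ)) • (of1 (bv 2) : FA 3) :=
      funext fun y => w.SurK_one i y
    rw [e1, h1.fderiv, (SurK_dx (w.SurK_smAx i) (p 0) (p 2)).deriv,
      (SurK_dz (w.SurK_smAx i) (p 0) (p 2)).deriv, (SurK_dx (w.SurK_smAz i) (p 0) (p 2)).deriv,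
      (SurK_dz (w.SurK_smAz i) (p 0) (p 2)).deriv, ← SurK_lin, ← SurK_lin]
    rfl
  unfold dF
  rw [Fin.sum_univ_three, hf, hf, hf, ← w.K_eq]
  have b00 : (bv (0 : Fin 3) : En 3) 0 = 1 := by simp [bv]
  have b02 : (bv (0 : Fin 3) : En 3) 2 = 0 := by simp [bv]
  have b10 : (bv (1 : Fin 3) : En 3) 0 = 0 := by simp [bv]
  have b12 : (bv (1 : Fin 3) : En 3) 2 = 0 := by simp [bv]
  have b20 : (bv (2 : Fin 3) : En 3) 0 = 0 := by simp [bv]
  have b22 : (bv (2 : Fin 3) : En 3) 2 = 1 := by simp [bv]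
  simp only [b00, b02, b10, b12, b20, b22, mul_zero, mul_one, add_zero, zero_add,
    Complex.ofReal_zero, zero_smul, mul_add, mul_smul_comm, of1_mul_self, smul_zero]
  rw [of1_mul_of1 (bv 2) (bv 0), smul_neg, ← sub_eq_add_neg, ← sub_smul]
  congr 1
  push_cast
  ring

theorem dF_th1 (i : FI) (p : En 3) : dF (fun y => oneF (w.F0.th i 1 y)) p
    = -((Complex.I * (w.Kf i (p 0) (p 2) : ℂ)) • (of1 (bv 0) * of1 (bv 2))) := by
  rw [← w.dF_th0]
  have e : (fun y => oneF (w.F0.th i 1 y)) = fun y => -oneF (w.F0.th i 0 y) := by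
    funext y
    have e1 : w.F0.th i 1 y = fun v => -w.F0.th i 0 y v := funext fun v => w.th1 i y v
    rw [e1, oneF_neg]
  rw [e]
  unfold dF
  rw [← Finset.sum_neg_distrib]
  refine Finset.sum_congr rfl fun a _ => ?_
  rw [fderiv_fun_neg]
  simp

end Wnd

end Pool.Agent.EXO
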