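import Mathlib

/-!
# EXO / SurFlA: the algebra of the curvature of a flat frame

Pure matrix algebra (no analysis).  `A = Φ`, `B = Ψ` (`B A = 1`), `av = ∂_v Φ`, `bv = ∂_v Ψ` with `bv A + B av = 0`, and
the same for `w`; `D` is the second derivative of `Φ`.  Put `E = A B`, `Ev = av B + A bv`.

PROOF.  `bv A = - B av`, `bw A = - B aw`.  With `x = B av`, `y = B aw` (square matrices):
`E Ev Ew E = A (x B + bv) (aw B - A y B) = A (bv aw + x y) B`   (as `B A = 1`, `bv A = - x`; the terms `x y` and `- x y` cancel);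
`E (Ev aw B) E = A (x y + bv aw) B`;  `E (E aw bv) E = A y bv A B = - A y x B`;
`(E av B) (E aw B) = A x y B`.  The terms with `D` cancel.
Sum: `(bv aw + x y) - (bw av + y x) - (x y + bv aw) + (y x + bw av) + y x - x y + x y - y x = 0`.
In Lean: expand everything (`mul_add`, `mul_sub`, `Matrix.mul_assoc`), rewrite `B * A = 1`, `bv * A = -(B * av)`, also in the
associated forms `B * (A * Z) = Z`, `bv * (A * Z) = -(B * (av * Z))`, and `abel`.
-/

set_option autoImplicit false
set_option maxSynthPendingDepth 3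

open Matrix

namespace Pool.Agent.EXO

theorem sur_curv_alg {ι κ : Type} [Fintype ι] [Fintype κ] [DecidableEq ι] [DecidableEq κ]
    (A av aw D : Matrix ι κ ℂ) (B bv bw : Matrix κ ι ℂ) (hBA : B * A = 1)
    (hv : bv * A + B * av = 0) (hw : bw * A + B * aw = 0) :
    (A * B) * ((av * B + A * bv) * (aw * B + A * bw) - (aw * B + A * bw) * (av * B + A * bv)
      + (-((av * B + A * bv) * aw * B + (A * B) * D * B + (A * B) * aw * bv)
        - -((aw * B + A * bw) * av * B + (A * B) * D * B + (A * B) * av * bw))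
      + (-((A * B) * av * B)) * (-((A * B) * aw * B))
      - (-((A * B) * aw * B)) * (-((A * B) * av * B))) * (A * B) = 0 := by
  have h1 : ∀ {n : Type} (Z : Matrix κ n ℂ), B * (A * Z) = Z := fun Z => by
    rw [← Matrix.mul_assoc, hBA, Matrix.one_mul]
  have h2 : bv * A = -(B * av) := eq_neg_of_add_eq_zero_left hv
  have h3 : bw * A = -(B * aw) := eq_neg_of_add_eq_zero_left hw
  have h4 : ∀ {n : Type} (Z : Matrix κ n ℂ), bv * (A * Z) = -(B * (av * Z)) := fun Z => by
    rw [← Matrix.mul_assoc, h2, Matrix.neg_mul, Matrix.mul_assoc]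
  have h5 : ∀ {n : Type} (Z : Matrix κ n ℂ), bw * (A * Z) = -(B * (aw * Z)) := fun Z => by
    rw [← Matrix.mul_assoc, h3, Matrix.neg_mul, Matrix.mul_assoc]
  simp only [Matrix.mul_add, Matrix.add_mul, Matrix.mul_sub, Matrix.sub_mul, Matrix.mul_neg,
    Matrix.neg_mul, Matrix.mul_assoc, h1, h4, h5, neg_neg]
  abel

end Pool.Agent.EXO
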