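import Mathlib
import Pool.Agent.EXO.SurFr

/-!
# EXO / SurFrA: systems of frames: comparison on the intersections

PROOFS.  Let `x ∈ C ∩ O i ∩ O j` and `Φ_j = Φ_i c` on `C` near `x` (field `tr`).
* `trans_h`: `h = Φ_jᴴ s Φ_j = cᴴ Φ_iᴴ s Φ_i c = cᴴ h c` (`ΦsΦ`).
* `trans_inv`: `(hi cᴴ h) c = hi h = 1`; both products by `Matrix.mul_eq_one_comm`.
* `Ψ_trans`: at a point `y` with `Φ_j y = Φ_i y * c`: `Ψ_j = hi Φ_jᴴ s = hi cᴴ Φ_iᴴ s = (hi cᴴ h) (hi Φ_iᴴ s)`.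
* `E_trans`: `E_j = Φ_j Ψ_j = Φ_i c (hi cᴴ h) Ψ_i = Φ_i Ψ_i = E_i`.
* `B_trans`: `dmat_tan` for `Φ_j` and `Φ_i * c` at `x`: `dmat Φ_j x (P v) = dmat Φ_i x (P v) * c`; then as before.
-/

set_option autoImplicit false
set_option maxSynthPendingDepth 3
set_option linter.unusedSectionVars false

open Set Filter Topology Matrix
open scoped ContDiff

namespace Pool.Agent.EXO

namespace FrSys

variable {m : ℕ} {C : Set (En m)} {ι κ : Type} [Fintype ι] [DecidableEq ι] [Fintype κ]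
  [DecidableEq κ] (F : FrSys C ι κ)

theorem trans_h {i j : F.I} {x : En m} (hi : x ∈ F.O i) (hj : x ∈ F.O j) {c : Matrix κ κ ℂ}
    (hc : F.Φ j x = F.Φ i x * c) : cᴴ * F.h * c = F.h := by
  have h1 := F.ΦsΦ hj
  rw [hc, conjTranspose_mul] at h1
  have h2 : cᴴ * (F.Φ i x)ᴴ * diagonal F.s * (F.Φ i x * c) =
      cᴴ * ((F.Φ i x)ᴴ * diagonal F.s * F.Φ i x) * c := by
    simp only [Matrix.mul_assoc]
  rwa [h2, F.ΦsΦ hi] at h1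

theorem trans_inv {i j : F.I} {x : En m} (hi : x ∈ F.O i) (hj : x ∈ F.O j) {c : Matrix κ κ ℂ}
    (hc : F.Φ j x = F.Φ i x * c) :
    (F.hi * cᴴ * F.h) * c = 1 ∧ c * (F.hi * cᴴ * F.h) = 1 := by
  have h1 : (F.hi * cᴴ * F.h) * c = 1 := by
    have h2 : (F.hi * cᴴ * F.h) * c = F.hi * (cᴴ * F.h * c) := by
      simp only [Matrix.mul_assoc]
    rw [h2, F.trans_h hi hj hc, F.hih]
  exact ⟨h1, mul_eq_one_comm.1 h1⟩

theorem Ψ_trans {i j : F.I} {x : En m} (hi : x ∈ F.O i) (hj : x ∈ F.O j) {c : Matrix κ κ ℂ}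
    (hc : F.Φ j x = F.Φ i x * c) : F.Ψ j x = (F.hi * cᴴ * F.h) * F.Ψ i x := by
  rw [F.Ψ_eq hj, F.Ψ_eq hi, hc, conjTranspose_mul]
  have h2 : F.hi * cᴴ * F.h * (F.hi * (F.Φ i x)ᴴ * diagonal F.s) =
      F.hi * (cᴴ * ((F.h * F.hi) * (F.Φ i x)ᴴ)) * diagonal F.s := by
    simp only [Matrix.mul_assoc]
  rw [h2, F.h_mul_hi, Matrix.one_mul]

theorem E_trans' {i j : F.I} {x : En m} (hi : x ∈ F.O i) (hj : x ∈ F.O j) {c : Matrix κ κ ℂ}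
    (hc : F.Φ j x = F.Φ i x * c) : F.E j x = F.E i x := by
  rw [← F.Φ_mul_Ψ hi, ← F.Φ_mul_Ψ hj, F.Ψ_trans hi hj hc, hc]
  have h2 : F.Φ i x * c * (F.hi * cᴴ * F.h * F.Ψ i x) =
      F.Φ i x * ((c * (F.hi * cᴴ * F.h)) * F.Ψ i x) := by
    simp only [Matrix.mul_assoc]
  rw [h2, (F.trans_inv hi hj hc).2, Matrix.one_mul]

private theorem SurFrA_tr {i j : F.I} {x : En m} (hx : x ∈ C) (hi : x ∈ F.O i)
    (hj : x ∈ F.O j) : ∃ c : Matrix κ κ ℂ, F.Φ j x = F.Φ i x * c ∧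
      ∀ᶠ y in 𝓝[C] x, F.Φ j y = F.Φ i y * c := by
  obtain ⟨c, hc⟩ := F.tr i j x hx hi hj
  exact ⟨c, hc.self_of_nhdsWithin hx, hc⟩

theorem E_trans {i j : F.I} {x : En m} (hx : x ∈ C) (hi : x ∈ F.O i) (hj : x ∈ F.O j) :
    F.E j x = F.E i x := by
  obtain ⟨c, hc, -⟩ := F.SurFrA_tr hx hi hj
  exact F.E_trans' hi hj hc

/-- The product `Φ(x) Ψ(y)` does not depend on the frame, for `x`, `y` near a point of `C`. -/
theorem ΦΨ_trans {i j : F.I} {x : En m} (hx : x ∈ C) (hi : x ∈ F.O i) (hj : x ∈ F.O j) :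
    ∀ᶠ p : En m × En m in 𝓝[C ×ˢ C] (x, x),
      F.Φ j p.1 * F.Ψ j p.2 = F.Φ i p.1 * F.Ψ i p.2 := by
  obtain ⟨c, hc, hcy⟩ := F.SurFrA_tr hx hi hj
  have h1 : ∀ᶠ y in 𝓝[C] x, F.Φ j y = F.Φ i y * c ∧ y ∈ F.O i ∧ y ∈ F.O j := by
    filter_upwards [hcy, nhdsWithin_le_nhds ((F.openO i).mem_nhds hi),
      nhdsWithin_le_nhds ((F.openO j).mem_nhds hj)] with y h1 h2 h3
    exact ⟨h1, h2, h3⟩
  rw [nhdsWithin_prod_eq]
  filter_upwards [h1.prod_mk h1] with p hp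
  obtain ⟨⟨h2, -, -⟩, h3, h4, h5⟩ := hp
  rw [h2, F.Ψ_trans h4 h5 h3]
  have h6 : F.Φ i p.1 * c * (F.hi * cᴴ * F.h * F.Ψ i p.2) =
      F.Φ i p.1 * ((c * (F.hi * cᴴ * F.h)) * F.Ψ i p.2) := by
    simp only [Matrix.mul_assoc]
  rw [h6, (F.trans_inv hi hj hc).2, Matrix.one_mul]

theorem B_trans {k : ℕ} (Y : Geo k m) (hY : Y.carrier = C) {i j : F.I} {x : En m} (hx : x ∈ C)
    (hi : x ∈ F.O i) (hj : x ∈ F.O j) (v : En m) :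
    F.B j x (Y.P x v) = F.B i x (Y.P x v) := by
  obtain ⟨c, hc, hcy⟩ := F.SurFrA_tr hx hi hj
  have hx' : x ∈ Y.carrier := by rw [hY]; exact hx
  have h1 : dmat (F.Φ j) x (Y.P x v) = dmat (F.Φ i) x (Y.P x v) * c := by
    have hcy' : ∀ᶠ y in 𝓝[Y.carrier] x, F.Φ j y = F.Φ i y * c := by
      have h0 : 𝓝[Y.carrier] x = 𝓝[C] x := by rw [hY]
      rw [h0]
      exact hcy
    rw [dmat_tan Y hx' (F.smΦ hj) ((F.smΦ hi).mul (SmM.const c x)) hcy' v,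
      dmat_mul (F.smΦ hi) (SmM.const c x), dmat_const, Matrix.mul_zero, add_zero]
  simp only [B]
  rw [h1, F.E_trans' hi hj hc, F.Ψ_trans hi hj hc]
  have h6 : F.E i x * (dmat (F.Φ i) x (Y.P x v) * c) * (F.hi * cᴴ * F.h * F.Ψ i x) =
      F.E i x * dmat (F.Φ i) x (Y.P x v) * ((c * (F.hi * cᴴ * F.h)) * F.Ψ i x) := by
    simp only [Matrix.mul_assoc]
  rw [h6, (F.trans_inv hi hj hc).2, Matrix.one_mul]

end FrSys

end Pool.Agent.EXO
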