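import Mathlib
import Pool.Agent.EXO.SurFrA
import Pool.Agent.EXO.SuExt

/-!
# EXO / SurFlB: the global projection and connection of a system of frames

PROOFS.
* `exists_ext`: for `x ∈ C` choose `i x` with `x ∈ O (i x)`; apply `exists_smooth_extension` (SuExt; `C` is closed because
  `Y.compact`) to `x ↦ F.E (i x) x` and to `x ↦ F.B (i x) x (Y.P x (bv a))`.  Local smooth functions: `F.E j` and
  `y ↦ F.B j y (Y.P y (bv a))` on `O j`, `j = i x`; they agree with the chosen values on `C ∩ O j` by `E_trans`, `B_trans`.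
  Smoothness of `y ↦ F.B j y (Y.P y (bv a))`: `F.B j y v = ∑ c, v c • F.B j y (bv c)` (`B_lin`) and `smB`, `Y.smoothP`.
* `B_lin`: from `dmat_sum`; `B_add` etc.
* `e_b`: `E B E = B` since `E E = E`, `Ψ E = Ψ`.
* `b_tan`: `∑ c (P bv_a)_c B (P bv_c) = B (P (∑ c (P bv_a)_c bv_c)) = B (P (P bv_a)) = B (P bv_a)` (`P_idem`).
* `B_par`: `Φᴴ s Φ = h` on the open set `O i`, so `(dmat Φ)ᴴ s Φ + Φᴴ s dmat Φ = 0`; with `Ψ = hi Φᴴ s`, `E = Φ Ψ`:
  `(E dΦ Ψ)ᴴ s + s E dΦ Ψ = s Φ hi [(dΦ)ᴴ s Φ + Φᴴ s dΦ] hi Φᴴ s = 0`.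
-/

set_option autoImplicit false
set_option maxSynthPendingDepth 3
set_option linter.unusedSectionVars false

open Set Filter Topology Matrix
open scoped ContDiff

namespace Pool.Agent.EXO

namespace FrSys

variable {m k : ℕ} {ι κ : Type} [Fintype ι] [DecidableEq ι] [Fintype κ]
  [DecidableEq κ] {Y : Geo k m} (F : FrSys Y.carrier ι κ)

private theorem SurFlB_add (i : F.I) (x v w : En m) :
    F.B i x (v + w) = F.B i x v + F.B i x w := by
  simp only [B, dmat_add, Matrix.mul_add, Matrix.add_mul, neg_add]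

private theorem SurFlB_smul (i : F.I) (x : En m) (c : ℝ) (v : En m) :
    F.B i x (c • v) = (c : ℂ) • F.B i x v := by
  simp only [B, dmat_smul, Matrix.mul_smul, Matrix.smul_mul, smul_neg]

private theorem SurFlB_sum (i : F.I) (x : En m) (A : En m →L[ℝ] En m) (u : En m) :
    ∑ c, ((u c : ℝ) : ℂ) • F.B i x (A (bv c)) = F.B i x (A u) := by
  have h1 : u = ∑ a, u a • bv a := by
    ext b
    simp [bv, Finset.sum_apply, Pi.single_apply]
  have h2 : A u = ∑ a, u a • A (bv a) := by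
    conv_lhs => rw [h1]
    rw [map_sum]
    exact Finset.sum_congr rfl fun a _ => map_smul A _ _
  have h3 : F.B i x (∑ a, u a • A (bv a)) = ∑ a, F.B i x (u a • A (bv a)) :=
    map_sum (AddMonoidHom.mk' (F.B i x) (F.SurFlB_add i x)) _ _
  rw [h2, h3]
  exact Finset.sum_congr rfl fun a _ => (F.SurFlB_smul i x _ _).symm

theorem B_lin (i : F.I) (x v : En m) :
    F.B i x v = ∑ a, ((v a : ℝ) : ℂ) • F.B i x (bv a) :=
  (F.SurFlB_sum i x (ContinuousLinearMap.id ℝ (En m)) v).symm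

theorem B_par {i : F.I} {x : En m} (hx : x ∈ F.O i) (v : En m) :
    (F.B i x v)ᴴ * diagonal F.s + diagonal F.s * F.B i x v = 0 := by
  have hs : SmM (fun _ : En m => (diagonal F.s : Matrix ι ι ℂ)) x := SmM.const _ x
  have h1 : (dmat (F.Φ i) x v)ᴴ * diagonal F.s * F.Φ i x +
      (F.Φ i x)ᴴ * diagonal F.s * dmat (F.Φ i) x v = 0 := by
    have h2 : dmat (fun y => (F.Φ i y)ᴴ * diagonal F.s * F.Φ i y) x v = 0 := by
      rw [dmat_congr (B := fun _ => F.h) (by
        filter_upwards [(F.openO i).mem_nhds hx] with y hy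
        exact F.ΦsΦ hy) v, dmat_const]
    rw [dmat_mul ((F.smΦ hx).conj.mul hs) (F.smΦ hx), dmat_mul (F.smΦ hx).conj hs,
      dmat_conj (F.smΦ hx), dmat_const, Matrix.mul_zero, add_zero] at h2
    exact h2
  have hE : (F.E i x)ᴴ = F.E i x := F.E_herm i x
  have hΨ : (F.Ψ i x)ᴴ = diagonal F.s * F.Φ i x * F.hi := by
    rw [F.Ψ_eq hx]
    simp only [conjTranspose_mul, conjTranspose_conjTranspose, F.sH, F.hi_herm, Matrix.mul_assoc]
  have h3 : (F.B i x v)ᴴ * diagonal F.s = -(diagonal F.s * F.Φ i x * F.hi *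
      ((dmat (F.Φ i) x v)ᴴ * diagonal F.s * F.Φ i x) * F.Ψ i x) := by
    simp only [B, conjTranspose_neg, conjTranspose_mul, hE, hΨ, Matrix.neg_mul, Matrix.mul_assoc,
      F.Φ_mul_Ψ hx]
    rw [F.E_s hx]
  have h4 : diagonal F.s * F.B i x v = -(diagonal F.s * F.Φ i x * F.hi *
      ((F.Φ i x)ᴴ * diagonal F.s * dmat (F.Φ i) x v) * F.Ψ i x) := by
    have h5 : F.E i x = F.Φ i x * (F.hi * (F.Φ i x)ᴴ * diagonal F.s) := by
      rw [← F.Ψ_eq hx, F.Φ_mul_Ψ hx]
    simp only [B, Matrix.mul_neg]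
    conv_lhs => rw [h5]
    simp only [Matrix.mul_assoc]
  rw [h3, h4, ← neg_add, ← Matrix.add_mul, ← Matrix.mul_add, h1, Matrix.mul_zero, Matrix.zero_mul,
    neg_zero]

theorem E_B_E {i : F.I} {x : En m} (hx : x ∈ F.O i) (v : En m) :
    F.E i x * F.B i x v * F.E i x = F.B i x v := by
  have h1 : F.E i x * F.B i x v * F.E i x =
      -((F.E i x * F.E i x) * dmat (F.Φ i) x v * (F.Ψ i x * F.E i x)) := by
    simp only [B, Matrix.mul_neg, Matrix.neg_mul, Matrix.mul_assoc]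
  rw [h1, F.E_idem hx, F.Ψ_E hx, B]

theorem B_tan {i : F.I} {x : En m} (hx : x ∈ Y.carrier) (a : Fin m) :
    ∑ c, ((Y.P x (bv a) c : ℝ) : ℂ) • F.B i x (Y.P x (bv c)) = F.B i x (Y.P x (bv a)) := by
  rw [F.SurFlB_sum i x (Y.P x) (Y.P x (bv a)), Y.P_idem x hx]

/-- The value of the connection on a tangent vector. -/
theorem B_sum {i : F.I} {x : En m} (hx : x ∈ Y.carrier) {v : En m} (hv : Y.P x v = v) :
    ∑ a, ((v a : ℝ) : ℂ) • F.B i x (Y.P x (bv a)) = F.B i x v := by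
  rw [F.SurFlB_sum i x (Y.P x) v, hv]

theorem exists_ext : ∃ (e : En m → Matrix ι ι ℂ) (b : Fin m → En m → Matrix ι ι ℂ),
    ContDiff ℝ ∞ e ∧ (∀ a, ContDiff ℝ ∞ (b a)) ∧ ∀ i, ∀ x ∈ Y.carrier, x ∈ F.O i →
      e x = F.E i x ∧ ∀ a, b a x = F.B i x (Y.P x (bv a)) := by
  classical
  rcases isEmpty_or_nonempty F.I with hI | hI
  · exact ⟨fun _ => 0, fun _ _ => 0, contDiff_const, fun _ => contDiff_const,
      fun i => (hI.false i).elim⟩
  choose! c hc using F.cover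
  have hcl : IsClosed Y.carrier := Y.compact.isClosed
  obtain ⟨e, he, he'⟩ := exists_smooth_extension (F := Matrix ι ι ℂ) hcl
    (fun x => F.E (c x) x) (by
      intro x hx
      refine ⟨F.O (c x), (F.openO _).mem_nhds (hc x hx), F.E (c x), fun y hy => ?_, ?_⟩
      · exact (contDiffAt_mat.2 (F.smE hy)).contDiffWithinAt
      · intro y hy
        exact F.E_trans hy.2 (hc y hy.2) hy.1)
  have hb : ∀ a : Fin m, ∃ g : En m → Matrix ι ι ℂ, ContDiff ℝ ∞ g ∧
      ∀ x ∈ Y.carrier, g x = F.B (c x) x (Y.P x (bv a)) := by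
    intro a
    refine exists_smooth_extension hcl (fun x => F.B (c x) x (Y.P x (bv a))) ?_
    intro x hx
    refine ⟨F.O (c x), (F.openO _).mem_nhds (hc x hx), fun y => F.B (c x) y (Y.P y (bv a)),
      fun y hy => ?_, ?_⟩
    · refine (contDiffAt_mat.2 ?_).contDiffWithinAt
      have h1 : (fun y => F.B (c x) y (Y.P y (bv a))) = fun y =>
          ∑ d, ((Y.P y (bv a) d : ℝ) : ℂ) • F.B (c x) y (bv d) := by
        funext y
        exact F.B_lin (c x) y _
      rw [h1]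
      intro i j
      simp only [Matrix.sum_apply, Matrix.smul_apply, smul_eq_mul]
      refine ContDiffAt.sum fun d _ => ContDiffAt.mul ?_ (F.smB hy (bv d) i j)
      have h2 : ContDiff ℝ ∞ fun z => Y.P z (bv a) := Y.smoothP.clm_apply contDiff_const
      have h3 : ContDiff ℝ ∞ fun z => (Y.P z (bv a)) d :=
        (EuclideanSpace.proj (𝕜 := ℝ) d).contDiff.comp h2
      exact (Complex.ofRealCLM.contDiff.comp h3).contDiffAt
    · intro y hy
      exact F.B_trans Y rfl hy.2 (hc y hy.2) hy.1 (bv a)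
  choose b hb1 hb2 using hb
  refine ⟨e, b, he, hb1, fun i x hx hi => ⟨?_, fun a => ?_⟩⟩
  · rw [he' x hx]
    exact F.E_trans hx hi (hc x hx)
  · rw [hb2 a x hx]
    exact F.B_trans Y rfl hx hi (hc x hx) (bv a)

end FrSys

end Pool.Agent.EXO
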