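import Mathlib
import Pool.Agent.EXO.SurFlA
import Pool.Agent.EXO.SurFlB

/-!
# EXO / SurFlat: the flat bundle of a system of frames

PROOFS.
* `flat_eq`: let `x ∈ Y`, `x ∈ O i`.  `e = E_i` and `b a = y ↦ B_i y (P y (bv a))` on `Y` near `x` (`O i` is open), so the
  tangential derivatives agree (`dmat_tan`, `fderiv_eq_dmat`; `v = P v`, `w = P w`).
  (1) `∂_v E = ∂_vΦ Ψ + Φ ∂_vΨ` (`E = Φ Ψ` on the open set `O i`), and `∂_vΨ Φ + Ψ ∂_vΦ = 0` (`Ψ Φ = 1` on `O i`).
  (2) `∑_a w_a ∂_v (B (P bv_a)) = ∂_v (y ↦ B y (P y w))` (`B_lin`; `w` constant)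
      `= (∂_v B)(P w) + B ((∂_v P) w)`, where `(∂_v B)(u) := dmat (fun y => B y u) x v`: write
      `B y (P y w) = ∑_c (P y w)_c • B y (bv c)` and use the product rule.  Since `P w = w`:
      `(∂_v B)(w) + B ((∂_v P) w)`; the difference of the two second terms is `B ((∂_v P) w - (∂_w P) v) = 0` by
      `Geo.fderiv_P_symm` (SuTanB).
  (3) `B y w = -(E ∂_wΦ Ψ)`, so `(∂_v B)(w) = -(∂_vE ∂_wΦ Ψ + E (∂_v∂_wΦ) Ψ + E ∂_wΦ ∂_vΨ)`; the second derivative is
      symmetric (`dmat_symm`).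
  (4) `∑_a v_a b_a x = B x v = -(E ∂_vΦ Ψ)` (`B_sum`).  Now the claim is `sur_curv_alg`.
* `exists_flat`: `exists_ext`, the algebraic lemmas of SurFr, SurFlB, and `flat_eq`.
-/

set_option autoImplicit false
set_option maxSynthPendingDepth 3
set_option linter.unusedSectionVars false

open Set Filter Topology Matrix
open scoped ContDiff

namespace Pool.Agent.EXO

namespace FrSys

variable {m k : ℕ} {ι κ : Type} [Fintype ι] [DecidableEq ι] [Fintype κ]
  [DecidableEq κ] {Y : Geo k m} (F : FrSys Y.carrier ι κ)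

private theorem SurFlat_smBP {i : F.I} {x : En m} (hx : x ∈ F.O i) {g : En m → En m}
    (hg : ContDiffAt ℝ ∞ g x) : SmM (fun y => F.B i y (g y)) x := by
  have h1 : (fun y => F.B i y (g y)) = fun y =>
      ∑ d, ((g y d : ℝ) : ℂ) • F.B i y (bv d) := by
    funext y
    exact F.B_lin i y _
  rw [h1]
  intro a b
  simp only [Matrix.sum_apply, Matrix.smul_apply, smul_eq_mul]
  refine ContDiffAt.sum fun d _ => ContDiffAt.mul ?_ (F.smB hx (bv d) a b)
  have h3 : ContDiffAt ℝ ∞ (fun z => (g z) d) x :=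
    (EuclideanSpace.proj (𝕜 := ℝ) d).contDiff.contDiffAt.comp x hg
  exact Complex.ofRealCLM.contDiff.contDiffAt.comp x h3

/-- The product rule for `y ↦ B y (g y)`. -/
private theorem SurFlat_dBP {i : F.I} {x : En m} (hx : x ∈ F.O i) {g : En m → En m}
    (hg : ContDiffAt ℝ ∞ g x) (v : En m) : dmat (fun y => F.B i y (g y)) x v =
      F.B i x (fderiv ℝ g x v) + dmat (fun y => F.B i y (g x)) x v := by
  have hgd : DifferentiableAt ℝ g x := hg.differentiableAt (by simp)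
  have hB : ∀ d : Fin m, ∀ a b, DifferentiableAt ℝ (fun y => F.B i y (bv d) a b) x :=
    fun d a b => (F.smB hx (bv d) a b).differentiableAt (by simp)
  have hc : ∀ d : Fin m, HasFDerivAt (fun y => ((g y d : ℝ) : ℂ))
      (Complex.ofRealCLM.comp ((EuclideanSpace.proj (𝕜 := ℝ) d).comp (fderiv ℝ g x))) x := by
    intro d
    exact Complex.ofRealCLM.hasFDerivAt.comp x
      ((EuclideanSpace.proj (𝕜 := ℝ) d).hasFDerivAt.comp x hgd.hasFDerivAt)
  ext a b
  have h1 : HasFDerivAt (fun y => F.B i y (g y) a b)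
      (∑ d, (((g x d : ℝ) : ℂ) • fderiv ℝ (fun y => F.B i y (bv d) a b) x +
        F.B i x (bv d) a b • (Complex.ofRealCLM.comp
          ((EuclideanSpace.proj (𝕜 := ℝ) d).comp (fderiv ℝ g x))))) x := by
    have h2 : (fun y => F.B i y (g y) a b) = fun y =>
        ∑ d, ((g y d : ℝ) : ℂ) * F.B i y (bv d) a b := by
      funext y
      rw [F.B_lin i y (g y)]
      simp only [Matrix.sum_apply, Matrix.smul_apply, smul_eq_mul]
    rw [h2]
    refine HasFDerivAt.fun_sum fun d _ => ?_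
    exact (hc d).mul (hB d a b).hasFDerivAt
  have h3 : HasFDerivAt (fun y => F.B i y (g x) a b)
      (∑ d, ((g x d : ℝ) : ℂ) • fderiv ℝ (fun y => F.B i y (bv d) a b) x) x := by
    have h2 : (fun y => F.B i y (g x) a b) = fun y =>
        ∑ d, ((g x d : ℝ) : ℂ) * F.B i y (bv d) a b := by
      funext y
      rw [F.B_lin i y (g x)]
      simp only [Matrix.sum_apply, Matrix.smul_apply, smul_eq_mul]
    rw [h2]
    refine HasFDerivAt.fun_sum fun d _ => ?_
    exact (hB d a b).hasFDerivAt.const_mul _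
  simp only [dmat, Matrix.of_apply, Matrix.add_apply]
  rw [h1.fderiv, h3.fderiv, F.B_lin i x (fderiv ℝ g x v)]
  simp only [Matrix.sum_apply, Matrix.smul_apply, smul_eq_mul, ContinuousLinearMap.sum_apply,
    ContinuousLinearMap.add_apply, ContinuousLinearMap.smul_apply]
  rw [Finset.sum_add_distrib, add_comm]
  congr 1
  refine Finset.sum_congr rfl fun d _ => ?_
  rw [mul_comm]
  rfl

private theorem SurFlat_b {b : Fin m → En m → Matrix ι ι ℂ} (hb : ∀ a, ContDiff ℝ ∞ (b a))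
    {i : F.I} {x : En m} (hx : x ∈ Y.carrier) (hi : x ∈ F.O i)
    (h : ∀ y ∈ Y.carrier, y ∈ F.O i → ∀ a, b a y = F.B i y (Y.P y (bv a))) {v w : En m}
    (hv : Y.P x v = v) (hw : Y.P x w = w) :
    ∑ a, ((w a : ℝ) : ℂ) • fderiv ℝ (b a) x v =
      F.B i x (fderiv ℝ Y.P x v w) + dmat (fun y => F.B i y w) x v := by
  have hP : ∀ u : En m, ContDiffAt ℝ ∞ (fun y => Y.P y u) x := fun u =>
    (Y.smoothP.clm_apply contDiff_const).contDiffAt
  have h1 : ∀ a, fderiv ℝ (b a) x v = dmat (fun y => F.B i y (Y.P y (bv a))) x v := by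
    intro a
    have hsm : SmM (b a) x := contDiff_mat.1 (hb a) x
    rw [fderiv_eq_dmat hsm]
    have h2 := dmat_tan Y hx hsm (F.SurFlat_smBP hi (hP (bv a))) (by
      filter_upwards [self_mem_nhdsWithin, nhdsWithin_le_nhds ((F.openO i).mem_nhds hi)]
        with y h3 h4
      exact h y h3 h4 a) v
    rwa [hv] at h2
  have h5 : dmat (fun y => F.B i y (Y.P y w)) x v =
      ∑ a, ((w a : ℝ) : ℂ) • dmat (fun y => F.B i y (Y.P y (bv a))) x v := by
    ext p q
    have h2 : ∀ y, F.B i y (Y.P y w) = ∑ a, ((w a : ℝ) : ℂ) • F.B i y (Y.P y (bv a)) := by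
      intro y
      have h3 : w = ∑ a, w a • bv a := by
        ext b
        simp [bv, Finset.sum_apply, Pi.single_apply]
      have h4 : Y.P y w = ∑ a, w a • Y.P y (bv a) := by
        conv_lhs => rw [h3]
        rw [map_sum]
        exact Finset.sum_congr rfl fun a _ => map_smul _ _ _
      have h6 : ∀ u u' : En m, F.B i y (u + u') = F.B i y u + F.B i y u' := by
        intro u u'
        simp only [B, dmat_add, Matrix.mul_add, Matrix.add_mul, neg_add]
      have h7 : F.B i y (∑ a, w a • Y.P y (bv a)) = ∑ a, F.B i y (w a • Y.P y (bv a)) :=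
        map_sum (AddMonoidHom.mk' (F.B i y) h6) _ _
      rw [h4, h7]
      refine Finset.sum_congr rfl fun a _ => ?_
      simp only [B, dmat_smul, Matrix.mul_smul, Matrix.smul_mul, smul_neg]
    have h3 : HasFDerivAt (fun y => F.B i y (Y.P y w) p q)
        (∑ a, ((w a : ℝ) : ℂ) • fderiv ℝ (fun y => F.B i y (Y.P y (bv a)) p q) x) x := by
      have h4 : (fun y => F.B i y (Y.P y w) p q) = fun y =>
          ∑ a, ((w a : ℝ) : ℂ) * F.B i y (Y.P y (bv a)) p q := by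
        funext y
        rw [h2 y]
        simp only [Matrix.sum_apply, Matrix.smul_apply, smul_eq_mul]
      rw [h4]
      refine HasFDerivAt.fun_sum fun a _ => ?_
      exact (((F.SurFlat_smBP hi (hP (bv a))) p q).differentiableAt
        (by simp)).hasFDerivAt.const_mul _
    simp only [dmat, Matrix.of_apply, Matrix.sum_apply, Matrix.smul_apply, smul_eq_mul]
    rw [h3.fderiv]
    simp only [ContinuousLinearMap.sum_apply, ContinuousLinearMap.smul_apply, smul_eq_mul]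
  have h8 : fderiv ℝ (fun y => Y.P y w) x v = fderiv ℝ Y.P x v w := by
    have h9 := (ContinuousLinearMap.apply ℝ (En m) w).hasFDerivAt.comp x
      ((Y.smoothP.differentiable (by simp)) x).hasFDerivAt
    have h10 : HasFDerivAt (fun y => Y.P y w) _ x := h9
    rw [h10.fderiv]
    rfl
  simp only [h1]
  rw [← h5, F.SurFlat_dBP hi (hP w) v, h8, hw]

theorem flat_eq {e : En m → Matrix ι ι ℂ} {b : Fin m → En m → Matrix ι ι ℂ}
    (he : ContDiff ℝ ∞ e) (hb : ∀ a, ContDiff ℝ ∞ (b a))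
    (h : ∀ i, ∀ x ∈ Y.carrier, x ∈ F.O i →
      e x = F.E i x ∧ ∀ a, b a x = F.B i x (Y.P x (bv a)))
    {x : En m} (hx : x ∈ Y.carrier) (v w : En m) (hv : Y.P x v = v) (hw : Y.P x w = w) :
    e x * (fderiv ℝ e x v * fderiv ℝ e x w - fderiv ℝ e x w * fderiv ℝ e x v
      + ∑ a, (((w a : ℝ) : ℂ) • fderiv ℝ (b a) x v - ((v a : ℝ) : ℂ) • fderiv ℝ (b a) x w)
      + (∑ a, ((v a : ℝ) : ℂ) • b a x) * (∑ a, ((w a : ℝ) : ℂ) • b a x)
      - (∑ a, ((w a : ℝ) : ℂ) • b a x) * (∑ a, ((v a : ℝ) : ℂ) • b a x)) * e x = 0 := by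
  obtain ⟨i, hi⟩ := F.cover x hx
  have hO : ∀ᶠ y in 𝓝 x, y ∈ F.O i := (F.openO i).mem_nhds hi
  have hE : ∀ u : En m, Y.P x u = u → fderiv ℝ e x u =
      dmat (F.Φ i) x u * F.Ψ i x + F.Φ i x * dmat (F.Ψ i) x u := by
    intro u hu
    have hsm : SmM e x := contDiff_mat.1 he x
    rw [fderiv_eq_dmat hsm]
    have h2 := dmat_tan Y hx hsm (F.smE hi) (by
      filter_upwards [self_mem_nhdsWithin, nhdsWithin_le_nhds hO] with y h3 h4
      exact (h i y h3 h4).1) u
    rw [hu] at h2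
    rw [h2, ← dmat_mul (F.smΦ hi) (F.smΨ hi)]
    refine dmat_congr ?_ u
    filter_upwards [hO] with y hy
    exact (F.Φ_mul_Ψ hy).symm
  have hΨΦ : ∀ u : En m, dmat (F.Ψ i) x u * F.Φ i x + F.Ψ i x * dmat (F.Φ i) x u = 0 := by
    intro u
    rw [← dmat_mul (F.smΨ hi) (F.smΦ hi), dmat_congr (B := fun _ => (1 : Matrix κ κ ℂ)) (by
      filter_upwards [hO] with y hy
      exact F.Ψ_mul_Φ hy) u, dmat_const]
  have hEd : ∀ u : En m, dmat (F.E i) x u =
      dmat (F.Φ i) x u * F.Ψ i x + F.Φ i x * dmat (F.Ψ i) x u := by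
    intro u
    rw [← dmat_mul (F.smΦ hi) (F.smΨ hi)]
    refine dmat_congr ?_ u
    filter_upwards [hO] with y hy
    exact (F.Φ_mul_Ψ hy).symm
  have hBd : ∀ u u' : En m, dmat (fun y => F.B i y u') x u =
      -((dmat (F.Φ i) x u * F.Ψ i x + F.Φ i x * dmat (F.Ψ i) x u) * dmat (F.Φ i) x u' * F.Ψ i x
        + (F.Φ i x * F.Ψ i x) * dmat (fun y => dmat (F.Φ i) y u') x u * F.Ψ i x
        + (F.Φ i x * F.Ψ i x) * dmat (F.Φ i) x u' * dmat (F.Ψ i) x u) := by
    intro u u'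
    have hs1 := F.smE hi
    have hs2 := (F.smΦ hi).dmat u'
    have hs3 := F.smΨ hi
    have h1 : dmat (fun y => -(F.E i y * dmat (F.Φ i) y u' * F.Ψ i y)) x u =
        -dmat (fun y => F.E i y * dmat (F.Φ i) y u' * F.Ψ i y) x u := by
      ext a c
      simp only [dmat, Matrix.of_apply, Matrix.neg_apply]
      rw [fderiv_fun_neg]
      rfl
    have h2 : (fun y => F.B i y u') = fun y => -(F.E i y * dmat (F.Φ i) y u' * F.Ψ i y) := rfl
    rw [h2, h1, dmat_mul (hs1.mul hs2) hs3, dmat_mul hs1 hs2, hEd, ← F.Φ_mul_Ψ hi]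
    simp only [Matrix.add_mul]
  have hb1 : ∀ u : En m, Y.P x u = u → ∑ a, ((u a : ℝ) : ℂ) • b a x = F.B i x u := by
    intro u hu
    rw [← F.B_sum hx hu]
    exact Finset.sum_congr rfl fun a _ => by rw [(h i x hx hi).2 a]
  have hb2 : ∑ a, (((w a : ℝ) : ℂ) • fderiv ℝ (b a) x v - ((v a : ℝ) : ℂ) • fderiv ℝ (b a) x w) =
      dmat (fun y => F.B i y w) x v - dmat (fun y => F.B i y v) x w := by
    have hsym := Y.fderiv_P_symm hx v w
    rw [hv, hw] at hsym
    rw [Finset.sum_sub_distrib,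
      F.SurFlat_b hb hx hi (fun y h3 h4 a => (h i y h3 h4).2 a) hv hw,
      F.SurFlat_b hb hx hi (fun y h3 h4 a => (h i y h3 h4).2 a) hw hv, hsym]
    exact add_sub_add_left_eq_sub _ _ _
  have hsy : dmat (fun y => dmat (F.Φ i) y w) x v = dmat (fun y => dmat (F.Φ i) y v) x w :=
    dmat_symm (F.smΦ hi) v w
  have hex : e x = F.Φ i x * F.Ψ i x := by rw [(h i x hx hi).1, F.Φ_mul_Ψ hi]
  have hBx : ∀ u : En m, F.B i x u = -((F.Φ i x * F.Ψ i x) * dmat (F.Φ i) x u * F.Ψ i x) := by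
    intro u
    rw [B, F.Φ_mul_Ψ hi]
  rw [hb1 v hv, hb1 w hw, hb2, hE v hv, hE w hw, hBd v w, hBd w v, hsy, hex, hBx v, hBx w]
  exact sur_curv_alg (F.Φ i x) (dmat (F.Φ i) x v) (dmat (F.Φ i) x w)
    (dmat (fun y => dmat (F.Φ i) y v) x w) (F.Ψ i x) (dmat (F.Ψ i) x v) (dmat (F.Ψ i) x w)
    (F.Ψ_mul_Φ hi) (hΨΦ v) (hΨΦ w)

/-- The flat bundle of a system of frames. -/
theorem exists_flat : ∃ E : FlatBd Y ι, E.s = F.s ∧ ∀ i, ∀ x ∈ Y.carrier, x ∈ F.O i →
    E.e x = F.E i x ∧ ∀ a, E.b a x = F.B i x (Y.P x (bv a)) := by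
  obtain ⟨e, b, he, hb, h⟩ := F.exists_ext
  refine ⟨{
    e := e
    s := F.s
    b := b
    smooth_e := he
    smooth_b := hb
    s_sq := F.s_sq
    e_idem := ?_
    e_herm := ?_
    e_s := ?_
    e_b := ?_
    b_tan := ?_
    par := ?_
    flat := ?_ }, rfl, h⟩
  · intro x hx
    obtain ⟨i, hi⟩ := F.cover x hx
    rw [(h i x hx hi).1, F.E_idem hi]
  · intro x hx
    obtain ⟨i, hi⟩ := F.cover x hx
    rw [(h i x hx hi).1, F.E_herm]
  · intro x hx
    obtain ⟨i, hi⟩ := F.cover x hx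
    rw [(h i x hx hi).1, F.E_s hi]
  · intro a x hx
    obtain ⟨i, hi⟩ := F.cover x hx
    rw [(h i x hx hi).1, (h i x hx hi).2 a, F.E_B_E hi]
  · intro a x hx
    obtain ⟨i, hi⟩ := F.cover x hx
    rw [(h i x hx hi).2 a, ← F.B_tan hx a]
    exact Finset.sum_congr rfl fun c _ => by rw [(h i x hx hi).2 c]
  · intro a x hx
    obtain ⟨i, hi⟩ := F.cover x hx
    rw [(h i x hx hi).2 a, F.B_par hi]
  · intro x hx v w hv hw
    exact F.flat_eq he hb h hx v w hv hw

end FrSys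

end Pool.Agent.EXO
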