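import Mathlib
import Pool.Agent.EXO.SuTan

/-!
# EXO / SurLc: locally constant functions

PROOFS.
* `sur_lc_of_deriv`: a chart at `x` (`Geo.exists_chart`), `u₀ = κ x`, a ball `ball u₀ r ⊆ U` on which `ψ` takes values in the open set `O'`
  (`O'` open nbhd of `x` on which `f` is smooth): the function `f ∘ ψ` has the derivative
  `fderiv ℝ f (ψ u) ∘ fderiv ℝ ψ u = 0` on the ball, since `fderiv ℝ ψ u z` is tangential (`Geo.P_fderiv`), so it is constant on the
  ball (`IsOpen.is_const_of_fderiv_eq_zero` or `Convex.is_const_of_fderivWithin_eq_zero`), and `IsChart.nhdsWithin_image`.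
* `sur_lc_const`: a function which is locally constant on a preconnected set is constant on it
  (`IsPreconnected.induction₂`, or `IsPreconnected` and the two relatively open sets `{f = f x}` and `{f ≠ f x}`).
-/

set_option autoImplicit false
set_option maxSynthPendingDepth 3

open Set Filter Topology
open scoped ContDiff

namespace Pool.Agent.EXO

theorem sur_lc_of_deriv {k m : ℕ} (Y : Geo k m) {F : Type} [NormedAddCommGroup F]
    [NormedSpace ℝ F] {f : En m → F} {O : Set (En m)} (hO : IsOpen O)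
    (hf : ContDiffOn ℝ ∞ f O)
    (h0 : ∀ y ∈ Y.carrier, y ∈ O → ∀ v : En m, Y.P y v = v → fderiv ℝ f y v = 0) {x : En m}
    (hx : x ∈ Y.carrier) (hxO : x ∈ O) : ∀ᶠ y in 𝓝[Y.carrier] x, f y = f x := by
  obtain ⟨U, ψ, O', κ, h, hO', hκ⟩ := Y.exists_chart hx
  have hu : κ x ∈ U := hκ x hO'
  have hψ : ψ (κ x) = x := h.right x ⟨hx, hO'⟩
  have h1 : ∀ᶠ u in 𝓝 (κ x), ψ u ∈ O := by
    have h2 := (h.differentiableAt_ψ hu).continuousAt.tendsto
    rw [hψ] at h2
    exact h2.eventually (hO.mem_nhds hxO)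
  obtain ⟨r, hr, hb⟩ := Metric.eventually_nhds_iff_ball.1
    (h1.and (h.openU.mem_nhds hu : ∀ᶠ u in 𝓝 (κ x), u ∈ U))
  have hd : ∀ u ∈ Metric.ball (κ x) r, HasFDerivAt (fun a => f (ψ a)) (0 : En k →L[ℝ] F) u := by
    intro u hur
    obtain ⟨h3, h4⟩ := hb u hur
    have h5 : DifferentiableAt ℝ f (ψ u) :=
      (hf.contDiffAt (hO.mem_nhds h3)).differentiableAt (by simp)
    have h6 := h5.hasFDerivAt.comp u (h.differentiableAt_ψ h4).hasFDerivAt
    have h7 : (fderiv ℝ f (ψ u)).comp (fderiv ℝ ψ u) = 0 := by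
      ext z
      exact h0 (ψ u) (h.mem_V h4) h3 _ (Y.P_fderiv h h4 z)
    rw [h7] at h6
    exact h6
  have hc : ∀ u ∈ Metric.ball (κ x) r, f (ψ u) = f (ψ (κ x)) := by
    intro u hur
    refine (convex_ball (κ x) r).is_const_of_fderivWithin_eq_zero (𝕜 := ℝ)
      (f := fun a => f (ψ a)) (fun v hv => (hd v hv).differentiableAt.differentiableWithinAt)
      (fun v hv => ?_) hur (Metric.mem_ball_self hr)
    rw [fderivWithin_of_isOpen Metric.isOpen_ball hv]
    exact (hd v hv).fderiv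
  have h8 : ∀ᶠ y in 𝓝[Y.carrier] x, κ y ∈ Metric.ball (κ x) r ∧ y ∈ Y.carrier ∧ y ∈ O' := by
    have h9 : ∀ᶠ y in 𝓝 x, κ y ∈ Metric.ball (κ x) r :=
      (h.differentiableAt_κ hO').continuousAt.tendsto.eventually (Metric.ball_mem_nhds _ hr)
    filter_upwards [nhdsWithin_le_nhds h9, self_mem_nhdsWithin,
      nhdsWithin_le_nhds (h.openO.mem_nhds hO')] with y a b c
    exact ⟨a, b, c⟩
  filter_upwards [h8] with y hy
  have h9 := hc (κ y) hy.1
  rwa [h.right y ⟨hy.2.1, hy.2.2⟩, hψ] at h9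

theorem sur_lc_const {X A : Type} [TopologicalSpace X] {S : Set X} (hS : IsPreconnected S)
    {f : X → A} (hf : ∀ x ∈ S, ∀ᶠ y in 𝓝[S] x, f y = f x) {x y : X} (hx : x ∈ S)
    (hy : y ∈ S) : f x = f y := by
  refine hS.induction₂ (fun a b => f a = f b) (fun a ha => ?_) (fun a b c _ _ _ h1 h2 => h1.trans h2)
    (fun a b _ _ h1 => h1.symm) hx hy
  filter_upwards [hf a ha] with z hz
  exact hz.symm

end Pool.Agent.EXO
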