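import Mathlib
import Pool.Agent.EXO.SurFlat
import Pool.Agent.EXO.SurLc

/-!
# EXO / SurNP: a criterion for the absence of parallel sections

PROOFS.  Let `u` be a parallel section (hypotheses of `NoPar`).
* `sec_lc`: on `O i` put `ξ y := Ψ_i y *ᵥ u y` (smooth, values in `κ → ℂ`).  For a tangent vector `v` at `y ∈ Y ∩ O i`:
  `∂_v ξ = (∂_v Ψ) u + Ψ ∂_v u`.  `u y = e u = Φ ξ`, so `(∂_vΨ) u = (∂_vΨ) Φ ξ = -(Ψ ∂_vΦ) ξ`; from
  `e (∂_v u + b(v) u) = 0`, `b(v) = -E ∂_vΦ Ψ` (`B_sum`) and `Ψ e = Ψ`: `Ψ ∂_v u = Ψ E ∂_vΦ Ψ u = Ψ ∂_vΦ ξ`.  The sum is `0`, so `ξ` is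
  locally constant on `Y ∩ O i` by `sur_lc_of_deriv` (shrink nothing: `O = O i`; smoothness of `ξ` entrywise).
  `u x = E x u x = Φ (Ψ u)` is the last part.
* `noPar`: `ξ_i` is constant on `S₁`, `ξ_j` on `S₂` (`sur_lc_const`).  At `p`: `Φ_i ξ_i = u p = Φ_j ξ_j = Φ_i c_p ξ_j`, so
  `ξ_i(p) = c_p ξ_j(p)` (`Ψ_i Φ_i = 1`), and `ξ_i(q) = c_q ξ_j(q)`; `(c_p - c_q) ξ_j = 0`, so `ξ_j = 0` (determinant), `u p = 0`.
  The function `y ↦ (u y = 0 : Prop)` is locally constant on `Y` (near `x ∈ O i`: `u y = 0 ↔ ξ y = 0`, because `u = Φ ξ`,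
  `ξ = Ψ u`), so it is constant on the connected set `Y` (`sur_lc_const` with `A = Prop`).
-/

set_option autoImplicit false
set_option maxSynthPendingDepth 3

open Set Filter Topology Matrix
open scoped ContDiff

namespace Pool.Agent.EXO

namespace FrSys

variable {m k : ℕ} {ι κ : Type} [Fintype ι] [DecidableEq ι] [Fintype κ]
  [DecidableEq κ] {Y : Geo k m} (F : FrSys Y.carrier ι κ)

private theorem SurNP_fd {i : F.I} {y : En m} {u : En m → (ι → ℂ)} (hu : ContDiff ℝ ∞ u)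
    (hi : y ∈ F.O i) (v : En m) :
    ContDiffAt ℝ ∞ (fun z => F.Ψ i z *ᵥ u z) y ∧
    fderiv ℝ (fun z => F.Ψ i z *ᵥ u z) y v =
      dmat (F.Ψ i) y v *ᵥ u y + F.Ψ i y *ᵥ fderiv ℝ u y v := by
  have hΨ := F.smΨ hi
  have hul : ∀ l, ContDiffAt ℝ ∞ (fun z => u z l) y := fun l =>
    contDiffAt_pi.1 hu.contDiffAt l
  have hc : ContDiffAt ℝ ∞ (fun z => F.Ψ i z *ᵥ u z) y := by
    refine contDiffAt_pi.2 fun j => ?_
    simp only [Matrix.mulVec, dotProduct]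
    exact ContDiffAt.sum fun l _ => (hΨ j l).mul (hul l)
  refine ⟨hc, ?_⟩
  funext j
  have hd : DifferentiableAt ℝ (fun z => F.Ψ i z *ᵥ u z) y := hc.differentiableAt (by simp)
  have h1 := hasFDerivAt_pi'.1 hd.hasFDerivAt j
  have h2 : HasFDerivAt (fun z => ∑ l, F.Ψ i z j l * u z l)
      (∑ l, (F.Ψ i y j l • fderiv ℝ (fun z => u z l) y
        + u y l • fderiv ℝ (fun z => F.Ψ i z j l) y)) y := by
    refine HasFDerivAt.fun_sum fun l _ => ?_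
    exact ((hΨ j l).differentiableAt (by simp)).hasFDerivAt.mul
      ((hul l).differentiableAt (by simp)).hasFDerivAt
  have h3 := h1.unique h2
  have h4 : fderiv ℝ (fun z => F.Ψ i z *ᵥ u z) y v j =
      (∑ l, (F.Ψ i y j l • fderiv ℝ (fun z => u z l) y
        + u y l • fderiv ℝ (fun z => F.Ψ i z j l) y)) v := by
    rw [← h3]
    rfl
  have hud : DifferentiableAt ℝ u y := hu.contDiffAt.differentiableAt (by simp)
  have h5 : ∀ l, fderiv ℝ (fun z => u z l) y v = fderiv ℝ u y v l := by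
    intro l
    have h6 := hasFDerivAt_pi'.1 hud.hasFDerivAt l
    have h7 : HasFDerivAt (fun z => u z l) _ y := h6
    rw [h7.fderiv]
    rfl
  rw [h4, _root_.sum_apply]
  simp only [Pi.add_apply, Matrix.mulVec, dotProduct, dmat, Matrix.of_apply]
  rw [← Finset.sum_add_distrib]
  refine Finset.sum_congr rfl fun l _ => ?_
  rw [_root_.add_apply, _root_.smul_apply, _root_.smul_apply, h5 l, smul_eq_mul, smul_eq_mul]
  ring

private theorem SurNP_rec (E : FlatBd Y ι) (hE : ∀ i, ∀ x ∈ Y.carrier, x ∈ F.O i →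
    E.e x = F.E i x ∧ ∀ a, E.b a x = F.B i x (Y.P x (bv a)))
    {u : En m → (ι → ℂ)}
    (hu1 : ∀ x ∈ Y.carrier, (E.e x) *ᵥ (u x) = u x)
    {i : F.I} {x : En m} (hx : x ∈ Y.carrier) (hi : x ∈ F.O i) :
      F.Φ i x *ᵥ (F.Ψ i x *ᵥ u x) = u x := by
  rw [Matrix.mulVec_mulVec, F.Φ_mul_Ψ hi, ← (hE i x hx hi).1]
  exact hu1 x hx

/-- The coefficients of a parallel section in a flat frame are locally constant. -/
theorem sec_lc (E : FlatBd Y ι) (hE : ∀ i, ∀ x ∈ Y.carrier, x ∈ F.O i →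
    E.e x = F.E i x ∧ ∀ a, E.b a x = F.B i x (Y.P x (bv a)))
    {u : En m → (ι → ℂ)} (hu : ContDiff ℝ ∞ u)
    (hu1 : ∀ x ∈ Y.carrier, (E.e x) *ᵥ (u x) = u x)
    (hu2 : ∀ x ∈ Y.carrier, ∀ v : En m, Y.P x v = v →
      (E.e x) *ᵥ (fderiv ℝ u x v + (∑ a, ((v a : ℝ) : ℂ) • E.b a x) *ᵥ (u x)) = 0)
    {i : F.I} {x : En m} (hx : x ∈ Y.carrier) (hi : x ∈ F.O i) :
    (∀ᶠ y in 𝓝[Y.carrier] x, F.Ψ i y *ᵥ u y = F.Ψ i x *ᵥ u x) ∧
      F.Φ i x *ᵥ (F.Ψ i x *ᵥ u x) = u x := by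
  refine ⟨?_, F.SurNP_rec E hE hu1 hx hi⟩
  refine sur_lc_of_deriv Y (f := fun y => F.Ψ i y *ᵥ u y) (F.openO i) ?_ ?_ hx hi
  · intro y hy
    exact (F.SurNP_fd hu hy 0).1.contDiffWithinAt
  · intro y hy hyO v hv
    rw [(F.SurNP_fd hu hyO v).2]
    have hrec := F.SurNP_rec E hE hu1 hy hyO
    -- the derivative of `Ψ Φ = 1`
    have h1 : dmat (F.Ψ i) y v * F.Φ i y + F.Ψ i y * dmat (F.Φ i) y v = 0 := by
      rw [← dmat_mul (F.smΨ hyO) (F.smΦ hyO) v]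
      have h2 : ∀ᶠ z in 𝓝 y, F.Ψ i z * F.Φ i z = (fun _ : En m => (1 : Matrix κ κ ℂ)) z := by
        filter_upwards [(F.openO i).mem_nhds hyO] with z hz
        exact F.Ψ_mul_Φ hz
      rw [dmat_congr h2 v, dmat_const]
    have hb : (∑ a, ((v a : ℝ) : ℂ) • E.b a y) = F.B i y v := by
      rw [← F.B_sum hy hv]
      refine Finset.sum_congr rfl fun a _ => ?_
      rw [(hE i y hy hyO).2 a]
    have h3 := hu2 y hy v hv
    rw [hb, (hE i y hy hyO).1, Matrix.mulVec_add] at h3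
    have h4 : F.Ψ i y *ᵥ fderiv ℝ u y v = F.Ψ i y *ᵥ (F.E i y *ᵥ fderiv ℝ u y v) := by
      rw [Matrix.mulVec_mulVec, F.Ψ_E hyO]
    have h5 : F.E i y *ᵥ fderiv ℝ u y v = -(F.E i y *ᵥ (F.B i y v *ᵥ u y)) :=
      eq_neg_of_add_eq_zero_left h3
    have h6 : F.Ψ i y * (F.E i y * F.B i y v) = -(F.Ψ i y * dmat (F.Φ i) y v * F.Ψ i y) := by
      have : F.B i y v = -(F.E i y * dmat (F.Φ i) y v * F.Ψ i y) := rfl
      rw [this, Matrix.mul_neg, Matrix.mul_neg, ← Matrix.mul_assoc, F.Ψ_E hyO,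
        ← Matrix.mul_assoc, ← Matrix.mul_assoc, F.Ψ_E hyO]
    have h7 : F.Ψ i y *ᵥ fderiv ℝ u y v =
        (F.Ψ i y * dmat (F.Φ i) y v) *ᵥ (F.Ψ i y *ᵥ u y) := by
      rw [h4, h5, Matrix.mulVec_neg, Matrix.mulVec_mulVec, Matrix.mulVec_mulVec,
        Matrix.mul_assoc, h6, Matrix.neg_mulVec, neg_neg, Matrix.mulVec_mulVec]
    have h8 : dmat (F.Ψ i) y v *ᵥ u y =
        (dmat (F.Ψ i) y v * F.Φ i y) *ᵥ (F.Ψ i y *ᵥ u y) := by
      rw [← Matrix.mulVec_mulVec, hrec]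
    rw [h7, h8, ← Matrix.add_mulVec, h1, Matrix.zero_mulVec]

/-- The criterion: two arcs `S₁ ⊆ O i`, `S₂ ⊆ O j` with the common points `p`, `q`. -/
theorem noPar (E : FlatBd Y ι) (hE : ∀ i, ∀ x ∈ Y.carrier, x ∈ F.O i →
    E.e x = F.E i x ∧ ∀ a, E.b a x = F.B i x (Y.P x (bv a)))
    (hY : IsConnected Y.carrier) {i j : F.I} {S₁ S₂ : Set (En m)}
    (h1 : S₁ ⊆ Y.carrier ∩ F.O i) (h2 : S₂ ⊆ Y.carrier ∩ F.O j) (p1 : IsPreconnected S₁)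
    (p2 : IsPreconnected S₂) {p q : En m} (hp : p ∈ S₁ ∩ S₂) (hq : q ∈ S₁ ∩ S₂)
    {cp cq : Matrix κ κ ℂ} (hcp : F.Φ j p = F.Φ i p * cp) (hcq : F.Φ j q = F.Φ i q * cq)
    (hdet : (cp - cq).det ≠ 0) : E.NoPar := by
  intro u hu hu1 hu2 x hx
  have hrec : ∀ {i : F.I} {y : En m}, y ∈ Y.carrier → y ∈ F.O i →
      F.Φ i y *ᵥ (F.Ψ i y *ᵥ u y) = u y := fun hy hi => F.SurNP_rec E hE hu1 hy hi
  have hlc : ∀ {i : F.I} {y : En m}, y ∈ Y.carrier → y ∈ F.O i →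
      ∀ᶠ z in 𝓝[Y.carrier] y, F.Ψ i z *ᵥ u z = F.Ψ i y *ᵥ u y := fun hy hi =>
    (F.sec_lc E hE hu hu1 hu2 hy hi).1
  have c1 : F.Ψ i p *ᵥ u p = F.Ψ i q *ᵥ u q := by
    refine sur_lc_const (f := fun y => F.Ψ i y *ᵥ u y) p1 ?_ hp.1 hq.1
    intro y hy
    exact (hlc (h1 hy).1 (h1 hy).2).filter_mono
      (nhdsWithin_mono y fun z hz => (h1 hz).1)
  have c2 : F.Ψ j p *ᵥ u p = F.Ψ j q *ᵥ u q := by
    refine sur_lc_const (f := fun y => F.Ψ j y *ᵥ u y) p2 ?_ hp.2 hq.2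
    intro y hy
    exact (hlc (h2 hy).1 (h2 hy).2).filter_mono
      (nhdsWithin_mono y fun z hz => (h2 hz).1)
  have key : ∀ {r : En m} {c : Matrix κ κ ℂ}, r ∈ S₁ ∩ S₂ → F.Φ j r = F.Φ i r * c →
      F.Ψ i r *ᵥ u r = c *ᵥ (F.Ψ j r *ᵥ u r) := by
    intro r c hr hc
    have e1 := hrec (h1 hr.1).1 (h1 hr.1).2
    have e2 := hrec (h2 hr.2).1 (h2 hr.2).2
    have e3 : F.Ψ i r *ᵥ u r = F.Ψ i r *ᵥ (F.Φ j r *ᵥ (F.Ψ j r *ᵥ u r)) := by rw [e2]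
    rw [e3, hc, ← Matrix.mulVec_mulVec, Matrix.mulVec_mulVec (M := F.Ψ i r),
      F.Ψ_mul_Φ (h1 hr.1).2, Matrix.one_mulVec]
  have k1 := key hp hcp
  have k2 := key hq hcq
  have h0 : (cp - cq) *ᵥ (F.Ψ j p *ᵥ u p) = 0 := by
    rw [Matrix.sub_mulVec, ← k1, c1, k2, c2, sub_self]
  have h3 : F.Ψ j p *ᵥ u p = 0 := Matrix.eq_zero_of_mulVec_eq_zero hdet h0
  have hup : u p = 0 := by
    rw [← hrec (h2 hp.2).1 (h2 hp.2).2, h3, Matrix.mulVec_zero]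
  have h4 : (u p = 0) = (u x = 0) := by
    refine sur_lc_const (f := fun y => (u y = 0 : Prop)) hY.isPreconnected ?_ (h1 hp.1).1 hx
    intro y hy
    obtain ⟨l, hl⟩ := F.cover y hy
    filter_upwards [hlc hy hl, self_mem_nhdsWithin,
      mem_nhdsWithin_of_mem_nhds ((F.openO l).mem_nhds hl)] with z hz hzY hzl
    have i1 : ∀ {w : En m}, w ∈ Y.carrier → w ∈ F.O l → (u w = 0 ↔ F.Ψ l w *ᵥ u w = 0) := by
      intro w hw hwl
      constructor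
      · intro h
        rw [h, Matrix.mulVec_zero]
      · intro h
        rw [← hrec hw hwl, h, Matrix.mulVec_zero]
    refine propext ?_
    rw [i1 hzY hzl, i1 hy hl, hz]
  rw [← h4]
  exact hup

end FrSys

end Pool.Agent.EXO
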