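import Mathlib
import Pool.Agent.EXO.SurSgB

/-!
# EXO / SurSgC: the surface is connected

PROOFS.
* `pants_connected`: `P = {(x, y) | 0 ≤ srF x y}`.  Base point: the outer circle `{x^2+y^2=9}` is the image of `ℝ` under
  `t ↦ (3 cos t, 3 sin t)`, hence preconnected, and lies in `P`.  A point `(x, y) ∈ P`, `y ≥ 0`: the vertical segment from
  `(x, y)` to `(x, √(9 - x^2))` lies in `P` (for `t` between, `x^2+t^2 ≤ 9` and `(x∓1)^2+t^2 ≥ (x∓1)^2+y^2 ≥ 1/4`); for `y ≤ 0` downwards.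
  `isPreconnected_of_forall` with the set (segment ∪ circle).
* `Sg_connected`: for `(x, y) ∈ P` there is a unique `z ≥ 1` with `srH z = srF x y` (`srH 1 = 0`, strictly increasing on
  `[1, ∞)` (`srH_mono`), continuous, `srH z = z^2` for large `z`; intermediate value theorem); call it `r (srF x y)`, where
  `r : [0, ∞) → [1, ∞)` is the inverse function, continuous (strictly monotone and surjective: `StrictMonoOn.orderIso`,
  `OrderIso.continuous`, or `StrictMonoOn.continuousOn`-type lemmas; or use a homeomorphism of `Ici 1` onto `Ici 0`).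
  Upper sheet `S₊ = {(x, y, r (srF x y)) | (x, y) ∈ P}`, lower sheet `S₋ = {(x, y, - r (srF x y))}`: continuous images of the
  preconnected set `P`.  Every point of `Sg` lies in `S₊`, in `S₋`, or on a vertical segment `{(x, y)} × [-1, 1]` with
  `srF x y = 0` (if `|z| > 1` then `|z| = r (srF x y)`; if `|z| ≤ 1` then `srF x y = 0`, `r 0 = 1`), and each vertical segment meets `S₊` (at `z = 1`) and
  `S₋`.  `isPreconnected_of_forall` with base point `(3, 0, 1)`: use `S₊`, `S₊ ∪ segment`, `S₊ ∪ segment over (3,0) ∪ S₋`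
  (`IsPreconnected.union`).
-/

set_option autoImplicit false
set_option maxSynthPendingDepth 3

open Set
open scoped ContDiff

namespace Pool.Agent.EXO

private theorem SurSgC_circle : IsPreconnected {p : ℝ × ℝ | p.1 ^ 2 + p.2 ^ 2 = 9} := by
  have h : {p : ℝ × ℝ | p.1 ^ 2 + p.2 ^ 2 = 9} =
      (fun t : ℝ => ((3 * Real.cos t, 3 * Real.sin t) : ℝ × ℝ)) '' univ := by
    ext ⟨x, y⟩
    simp only [mem_ofPred_eq, image_univ, mem_range, Prod.mk.injEq]
    constructor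
    · intro h
      obtain ⟨θ, h1, h2⟩ : ∃ θ : ℝ, x / 3 = Real.cos θ ∧ y / 3 = Real.sin θ := by
        have h3 : (x / 3) ^ 2 + (y / 3) ^ 2 = 1 := by
          rw [div_pow, div_pow, ← add_div, h]; norm_num
        have h4 : ‖(⟨x / 3, y / 3⟩ : ℂ)‖ = 1 := by
          rw [Complex.norm_def, Complex.normSq_mk, ← sq, ← sq, h3, Real.sqrt_one]
        refine ⟨Complex.arg ⟨x / 3, y / 3⟩, ?_, ?_⟩
        · have h5 := Complex.norm_mul_cos_arg ⟨x / 3, y / 3⟩
          rw [h4, one_mul] at h5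
          exact h5.symm
        · have h5 := Complex.norm_mul_sin_arg ⟨x / 3, y / 3⟩
          rw [h4, one_mul] at h5
          exact h5.symm
      exact ⟨θ, by rw [← h1]; ring, by rw [← h2]; ring⟩
    · rintro ⟨θ, rfl, rfl⟩
      have := Real.sin_sq_add_cos_sq θ
      nlinarith
  rw [h]
  exact isPreconnected_univ.image _ (by fun_prop)

theorem pants_connected : IsPreconnected {p : ℝ × ℝ | 0 ≤ srF p.1 p.2} := by
  have hC : {p : ℝ × ℝ | p.1 ^ 2 + p.2 ^ 2 = 9} ⊆ {p : ℝ × ℝ | 0 ≤ srF p.1 p.2} := by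
    rintro ⟨x, y⟩ h
    exact ((srF_zero_iff x y).2 (Or.inl h)).ge
  refine isPreconnected_of_forall (x := ((3 : ℝ), (0 : ℝ))) ?_
  rintro ⟨a, b⟩ hab
  obtain ⟨h1, h2, h3⟩ := (srF_nonneg_iff a b).1 hab
  have hs : 0 ≤ 9 - a ^ 2 := by nlinarith [sq_nonneg b]
  have hss := Real.sq_sqrt hs
  have hs0 := Real.sqrt_nonneg (9 - a ^ 2)
  -- the vertical segments
  have key : ∀ I : Set ℝ, IsPreconnected I → b ∈ I → (∀ t ∈ I, b ^ 2 ≤ t ^ 2 ∧ t ^ 2 ≤ 9 - a ^ 2) →
      (∃ t ∈ I, t ^ 2 = 9 - a ^ 2) → ∃ t, t ⊆ {p : ℝ × ℝ | 0 ≤ srF p.1 p.2} ∧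
        ((3 : ℝ), (0 : ℝ)) ∈ t ∧ (a, b) ∈ t ∧ IsPreconnected t := by
    rintro I hI hb hI2 ⟨t, htI, ht⟩
    refine ⟨(fun t : ℝ => ((a, t) : ℝ × ℝ)) '' I ∪ {p : ℝ × ℝ | p.1 ^ 2 + p.2 ^ 2 = 9},
      union_subset ?_ hC, Or.inr ?_, Or.inl ⟨b, hb, rfl⟩, ?_⟩
    · rintro _ ⟨u, hu, rfl⟩
      obtain ⟨h4, h5⟩ := hI2 u hu
      exact (srF_nonneg_iff a u).2 ⟨by linarith, by linarith, by linarith⟩
    · change (3 : ℝ) ^ 2 + (0 : ℝ) ^ 2 = 9
      norm_num
    · refine IsPreconnected.union (a, t) ⟨t, htI, rfl⟩ ?_ (hI.image _ (by fun_prop)) SurSgC_circle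
      change a ^ 2 + t ^ 2 = 9
      linarith
  rcases le_total 0 b with hb | hb
  · refine key (Icc b (Real.sqrt (9 - a ^ 2))) isPreconnected_Icc ?_ ?_ ?_
    · exact left_mem_Icc.2 (Real.le_sqrt_of_sq_le (by linarith))
    · rintro t ⟨ht1, ht2⟩
      exact ⟨by nlinarith, by nlinarith⟩
    · exact ⟨_, right_mem_Icc.2 (Real.le_sqrt_of_sq_le (by linarith)), hss⟩
  · have hle : -Real.sqrt (9 - a ^ 2) ≤ b := by
      have := Real.le_sqrt_of_sq_le (x := -b) (y := 9 - a ^ 2) (by linarith [neg_sq b])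
      linarith
    refine key (Icc (-Real.sqrt (9 - a ^ 2)) b) isPreconnected_Icc ?_ ?_ ?_
    · exact right_mem_Icc.2 hle
    · rintro t ⟨ht1, ht2⟩
      exact ⟨by nlinarith, by nlinarith⟩
    · exact ⟨_, left_mem_Icc.2 hle, by rw [neg_sq]; exact hss⟩

private noncomputable def SurSgC_mk (x y z : ℝ) : En 3 := WithLp.toLp 2 ![x, y, z]

private theorem SurSgC_mk_cont {X : Type*} [TopologicalSpace X] {f g h : X → ℝ}
    (hf : Continuous f) (hg : Continuous g) (hh : Continuous h) :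
    Continuous fun p => SurSgC_mk (f p) (g p) (h p) := by
  unfold SurSgC_mk
  refine (PiLp.continuous_toLp 2 _).comp (continuous_pi fun i => ?_)
  fin_cases i
  · exact hf
  · exact hg
  · exact hh

private theorem SurSgC_eta (q : En 3) : SurSgC_mk (q 0) (q 1) (q 2) = q := by
  unfold SurSgC_mk
  ext i
  fin_cases i <;> rfl

/-- the inverse function of `srH` on `[1, ∞)`. -/
private theorem SurSgC_inv : ∃ r : ℝ → ℝ, Continuous r ∧ (∀ v, 0 ≤ v → 1 ≤ r v ∧ srH (r v) = v) ∧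
    ∀ z, 1 ≤ z → r (srH z) = z := by
  have h1z : srH 1 = 0 := srH_zero (by simp)
  obtain ⟨f, hf⟩ : ∃ f : ℝ → ℝ, f = fun z => srH (max z 1) + (min z 1 - 1) := ⟨_, rfl⟩
  have hf1 : ∀ z, 1 ≤ z → f z = srH z := by
    intro z hz
    rw [hf]
    simp only [max_eq_left hz, min_eq_right hz, sub_self, add_zero]
  have hf2 : ∀ z, z ≤ 1 → f z = z - 1 := by
    intro z hz
    rw [hf]
    simp only [max_eq_right hz, min_eq_left hz, h1z, zero_add]
  have hfc : Continuous f := by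
    rw [hf]
    have := contDiff_srH.continuous
    exact (this.comp (by fun_prop)).add (by fun_prop)
  have hfm : StrictMono f := by
    intro a b hab
    rcases le_total 1 a with ha | ha
    · rw [hf1 a ha, hf1 b (ha.trans hab.le)]
      exact srH_mono ha hab
    · rcases le_total b 1 with hb | hb
      · rw [hf2 a ha, hf2 b hb]
        linarith
      · rcases eq_or_lt_of_le hb with hb1 | hb1
        · rw [← hb1, hf2 a ha, hf2 1 le_rfl]
          linarith
        · rw [hf2 a ha, hf1 b hb]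
          have := srH_mono le_rfl hb1
          rw [h1z] at this
          linarith
  have htop : Filter.Tendsto f Filter.atTop Filter.atTop := by
    refine Filter.tendsto_atTop_mono' _ ?_ Filter.tendsto_id
    filter_upwards [Filter.eventually_ge_atTop (2 : ℝ)] with z hz
    rw [hf1 z (by linarith), srH_sq (by nlinarith)]
    change z ≤ z ^ 2
    nlinarith
  have hbot : Filter.Tendsto f Filter.atBot Filter.atBot := by
    refine Filter.tendsto_atBot_mono' _ ?_ Filter.tendsto_id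
    filter_upwards [Filter.eventually_le_atBot (1 : ℝ)] with z hz
    rw [hf2 z hz]
    change z - 1 ≤ z
    linarith
  have hsurj : Function.Surjective f := hfc.surjective htop hbot
  let e : ℝ ≃o ℝ := hfm.orderIsoOfSurjective f hsurj
  have he : ∀ z, e z = f z := fun z => rfl
  refine ⟨e.symm, e.symm.continuous, fun v hv => ?_, fun z hz => ?_⟩
  · have h1 : f (e.symm v) = v := by rw [← he]; exact e.apply_symm_apply v
    have h2 : 1 ≤ e.symm v := by
      rw [← hfm.le_iff_le, h1, hf2 1 le_rfl, sub_self]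
      exact hv
    exact ⟨h2, by rw [← hf1 _ h2]; exact h1⟩
  · rw [← hf1 z hz, ← he, e.symm_apply_apply]

theorem Sg_connected : IsConnected Sg := by
  obtain ⟨r, hrc, hr1, hr2⟩ := SurSgC_inv
  have hF : Continuous fun p : ℝ × ℝ => srF p.1 p.2 := by
    unfold srF; fun_prop
  obtain ⟨Sp, hSp⟩ : ∃ Sp : Set (En 3), Sp = (fun p : ℝ × ℝ =>
    SurSgC_mk p.1 p.2 (r (srF p.1 p.2))) '' {p : ℝ × ℝ | 0 ≤ srF p.1 p.2} := ⟨_, rfl⟩
  obtain ⟨Sm, hSm⟩ : ∃ Sm : Set (En 3), Sm = (fun p : ℝ × ℝ =>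
    SurSgC_mk p.1 p.2 (-(r (srF p.1 p.2)))) '' {p : ℝ × ℝ | 0 ≤ srF p.1 p.2} := ⟨_, rfl⟩
  obtain ⟨V, hV⟩ : ∃ V : ℝ → ℝ → Set (En 3), V = fun x y =>
    (fun z : ℝ => SurSgC_mk x y z) '' Icc (-1) 1 := ⟨_, rfl⟩
  have hr0 : r 0 = 1 := by
    have h := hr2 1 le_rfl
    rwa [srH_zero (by simp)] at h
  have cSp : IsPreconnected Sp := by
    rw [hSp]
    exact pants_connected.image _
      (SurSgC_mk_cont continuous_fst continuous_snd (hrc.comp hF)).continuousOn
  have cSm : IsPreconnected Sm := by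
    rw [hSm]
    exact pants_connected.image _
      (SurSgC_mk_cont continuous_fst continuous_snd (hrc.comp hF).neg).continuousOn
  have cV : ∀ x y, IsPreconnected (V x y) := by
    intro x y
    rw [hV]
    exact isPreconnected_Icc.image _
      (SurSgC_mk_cont continuous_const continuous_const continuous_id).continuousOn
  have sSp : Sp ⊆ Sg := by
    rw [hSp]
    rintro _ ⟨p, hp, rfl⟩
    change srH (r (srF p.1 p.2)) - srF p.1 p.2 = 0
    rw [(hr1 _ hp).2, sub_self]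
  have sSm : Sm ⊆ Sg := by
    rw [hSm]
    rintro _ ⟨p, hp, rfl⟩
    change srH (-(r (srF p.1 p.2))) - srF p.1 p.2 = 0
    rw [srH_neg, (hr1 _ hp).2, sub_self]
  have sV : ∀ x y, srF x y = 0 → V x y ⊆ Sg := by
    intro x y h0
    rw [hV]
    rintro _ ⟨z, hz, rfl⟩
    change srH z - srF x y = 0
    rw [srH_zero (abs_le.2 hz), h0, sub_self]
  have mSp : ∀ x y, srF x y = 0 → SurSgC_mk x y 1 ∈ Sp := by
    intro x y h0
    rw [hSp]
    exact ⟨(x, y), h0.ge, by simp only [h0, hr0]⟩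
  have mSm : ∀ x y, srF x y = 0 → SurSgC_mk x y (-1) ∈ Sm := by
    intro x y h0
    rw [hSm]
    exact ⟨(x, y), h0.ge, by simp only [h0, hr0]⟩
  have mV1 : ∀ x y, SurSgC_mk x y 1 ∈ V x y := by
    intro x y
    rw [hV]
    exact ⟨1, by norm_num, rfl⟩
  have mVm : ∀ x y, SurSgC_mk x y (-1) ∈ V x y := by
    intro x y
    rw [hV]
    exact ⟨-1, by norm_num, rfl⟩
  have h30 : srF 3 0 = 0 := (srF_zero_iff 3 0).2 (Or.inl (by norm_num))
  have cW : IsPreconnected (Sp ∪ V 3 0 ∪ Sm) := by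
    refine IsPreconnected.union (SurSgC_mk 3 0 (-1)) (Or.inr (mVm 3 0)) (mSm 3 0 h30) ?_ cSm
    exact IsPreconnected.union (SurSgC_mk 3 0 1) (mSp 3 0 h30) (mV1 3 0) cSp (cV 3 0)
  have sW : Sp ∪ V 3 0 ∪ Sm ⊆ Sg := union_subset (union_subset sSp (sV 3 0 h30)) sSm
  refine ⟨⟨_, sSp (mSp 3 0 h30)⟩, isPreconnected_of_forall (x := SurSgC_mk 3 0 1) ?_⟩
  intro q hq
  have hq' : srH (q 2) = srF (q 0) (q 1) := sub_eq_zero.1 hq
  have hP : 0 ≤ srF (q 0) (q 1) := by rw [← hq']; exact srH_nonneg _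
  by_cases h1 : |q 2| ≤ 1
  · have h0 : srF (q 0) (q 1) = 0 := by rw [← hq']; exact srH_zero h1
    refine ⟨Sp ∪ V 3 0 ∪ Sm ∪ V (q 0) (q 1), union_subset sW (sV _ _ h0),
      Or.inl (Or.inl (Or.inl (mSp 3 0 h30))), Or.inr ?_, ?_⟩
    · rw [hV]
      exact ⟨q 2, abs_le.1 h1, SurSgC_eta q⟩
    · exact IsPreconnected.union (SurSgC_mk (q 0) (q 1) 1) (Or.inl (Or.inl (mSp _ _ h0)))
        (mV1 _ _) cW (cV _ _)
  · refine ⟨Sp ∪ V 3 0 ∪ Sm, sW, Or.inl (Or.inl (mSp 3 0 h30)), ?_, cW⟩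
    rw [not_le, lt_abs] at h1
    rcases h1 with h1 | h1
    · refine Or.inl (Or.inl ?_)
      rw [hSp]
      refine ⟨(q 0, q 1), hP, ?_⟩
      simp only
      rw [← hq', hr2 _ h1.le]
      exact SurSgC_eta q
    · refine Or.inr ?_
      rw [hSm]
      refine ⟨(q 0, q 1), hP, ?_⟩
      simp only
      rw [← hq', ← srH_neg, hr2 _ h1.le, neg_neg]
      exact SurSgC_eta q

end Pool.Agent.EXO
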