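import Mathlib

/-!
# EXO / SurCvA: the algebra of the curvature in a unitary frame
-/

set_option autoImplicit false
set_option maxSynthPendingDepth 3

open Matrix

namespace Pool.Agent.EXO

theorem sur_cv_alg {R ι κ : Type} [Ring R] [Fintype ι] [Fintype κ] [DecidableEq ι]
    [DecidableEq κ] (W dW : Matrix ι κ R) (V dV : Matrix κ ι R) (Θ T : Matrix κ κ R)
    (e de A dA : Matrix ι ι R) (hVW : V * W = 1) (hd : dV * W + V * dW = 0) (he : e = W * V)
    (hde : de = dW * V + W * dV) (hA : A = W * (Θ - V * dW) * V)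
    (hdA : dA = dW * (Θ - V * dW) * V + W * (T - dV * dW) * V - W * (Θ - V * dW) * dV) :
    e * de * de * e + e * dA * e + A * A = W * (T + Θ * Θ) * V := by
  have hdVW : dV * W = -(V * dW) := eq_neg_of_add_eq_zero_left hd
  have h1 : V * de = V * dW * V + dV := by
    rw [hde, Matrix.mul_add, ← Matrix.mul_assoc, ← Matrix.mul_assoc, hVW, Matrix.one_mul]
  have h2 : de * W = dW - W * (V * dW) := by
    rw [hde, Matrix.add_mul, Matrix.mul_assoc, hVW, Matrix.mul_one, Matrix.mul_assoc, hdVW,
      Matrix.mul_neg, sub_eq_add_neg]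
  have h3 : V * de * (de * W) = dV * dW + V * dW * (V * dW) := by
    rw [h1, h2]
    have a1 : (V * dW * V + dV) * (dW - W * (V * dW)) =
        V * dW * (V * dW) + dV * dW - V * dW * (V * W) * (V * dW) - dV * W * (V * dW) := by
      simp only [Matrix.add_mul, Matrix.mul_sub, Matrix.mul_assoc]
      abel
    rw [a1, hVW, hdVW, Matrix.mul_one, Matrix.neg_mul]
    abel
  have h4 : e * de * de * e = W * (dV * dW + V * dW * (V * dW)) * V := by
    rw [← h3, he]
    simp only [Matrix.mul_assoc]
  have h5 : e * dA * e = W * (V * dW * (Θ - V * dW) + (T - dV * dW) + (Θ - V * dW) * (V * dW)) * V := by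
    have b1 : V * dA * W = V * dW * (Θ - V * dW) * (V * W) + V * W * (T - dV * dW) * (V * W)
        - V * W * (Θ - V * dW) * (dV * W) := by
      rw [hdA]
      simp only [Matrix.mul_add, Matrix.add_mul, Matrix.mul_sub, Matrix.sub_mul, Matrix.mul_assoc]
    rw [hVW, hdVW, Matrix.mul_one, Matrix.one_mul, Matrix.mul_one, Matrix.one_mul,
      Matrix.mul_neg, sub_neg_eq_add] at b1
    rw [← b1, he]
    simp only [Matrix.mul_assoc]
  have h6 : A * A = W * ((Θ - V * dW) * (Θ - V * dW)) * V := by
    have : A * A = W * ((Θ - V * dW) * (V * W) * (Θ - V * dW)) * V := by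
      rw [hA]
      simp only [Matrix.mul_assoc]
    rw [this, hVW, Matrix.mul_one]
  rw [h4, h5, h6, ← Matrix.add_mul, ← Matrix.add_mul, ← Matrix.mul_add, ← Matrix.mul_add]
  congr 2
  generalize V * dW = β
  generalize dV * dW = γ
  noncomm_ring

/-- The supertrace of the powers of the curvature. -/
theorem sur_cv_trace {R ι κ : Type} [Ring R] [Algebra ℂ R] [Fintype ι] [Fintype κ]
    [DecidableEq ι] [DecidableEq κ] (s : ι → ℂ) (σ : κ → ℂ) (W : Matrix ι κ ℂ)
    (V : Matrix κ ι ℂ) (hVW : V * W = 1) (hs : diagonal s * W = W * diagonal σ) (t : κ → R)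
    (F : Matrix ι ι R)
    (hF : F = W.map (algebraMap ℂ R) * diagonal t * V.map (algebraMap ℂ R)) (n : ℕ) :
    ((diagonal s).map (algebraMap ℂ R) * (W * V).map (algebraMap ℂ R) * F ^ n).trace
      = ∑ k, σ k • t k ^ n := by
  set W' : Matrix ι κ R := W.map (algebraMap ℂ R) with hW'
  set V' : Matrix κ ι R := V.map (algebraMap ℂ R) with hV'
  have hWV : (W * V).map (algebraMap ℂ R) = W' * V' := Matrix.map_mul
  have hVW' : V' * W' = 1 := by
    rw [hW', hV', ← Matrix.map_mul, hVW]
    exact Matrix.map_one _ (map_zero _) (map_one _)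
  have hs' : (diagonal s).map (algebraMap ℂ R) * W' =
      W' * diagonal (fun k => algebraMap ℂ R (σ k)) := by
    rw [hW', ← Matrix.map_mul, hs, Matrix.map_mul, Matrix.diagonal_map (map_zero _)]
  have hpow : W' * V' * F ^ n = W' * diagonal (fun k => t k ^ n) * V' := by
    induction n with
    | zero =>
      rw [pow_zero, Matrix.mul_one]
      simp
    | succ n ih =>
      rw [pow_succ, ← Matrix.mul_assoc, ih, hF]
      have : W' * diagonal (fun k => t k ^ n) * V' * (W' * diagonal t * V') =
          W' * (diagonal (fun k => t k ^ n) * (V' * W') * diagonal t) * V' := by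
        simp only [Matrix.mul_assoc]
      rw [this, hVW', Matrix.mul_one, Matrix.diagonal_mul_diagonal]
      simp only [pow_succ]
  rw [hWV, Matrix.mul_assoc, hpow, ← Matrix.mul_assoc, ← Matrix.mul_assoc, hs',
    Matrix.mul_assoc W', Matrix.diagonal_mul_diagonal]
  -- cyclicity
  have hcyc : ∀ X : Matrix ι κ R, (X * V').trace = (V' * X).trace := by
    intro X
    simp only [Matrix.trace, Matrix.diag_apply, Matrix.mul_apply]
    rw [Finset.sum_comm]
    refine Finset.sum_congr rfl fun k _ => Finset.sum_congr rfl fun i _ => ?_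
    rw [hV', Matrix.map_apply]
    exact (Algebra.commutes _ _).symm
  rw [hcyc, ← Matrix.mul_assoc, hVW', Matrix.one_mul, Matrix.trace_diagonal]
  refine Finset.sum_congr rfl fun k _ => ?_
  rw [Algebra.smul_def]

end Pool.Agent.EXO
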