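import Mathlib
import Pool.Agent.EXO.SurOneF
import Pool.Agent.EXO.FmFAd

/-!
# EXO / SurCvB: the exterior derivative of the connection form in a frame

Ambient calculus (no submanifold).  It uses the product rule for `dF`: in the file FmFAd of helper76 it is
`dF (u * v) = dF u * v + par u * dF v`; if that file is not yet on main prove what you need here directly:

PROOFS.
* `dF_fn_mul`: for a smooth function `f` and a smooth form `u`: `dF (f • u) = oneF (df) * u + f • dF u`
  (`fderiv` of the product `f y • u y`; `of1 (bv a)` commutes with scalars).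
* `dF_oneF_fn`: for a smooth one-form `u = ∑_b u_b of1 (bv b)` and a smooth function `g`:
  `dF (g • u) = oneF (dg) * u + g • dF u = g • dF u - u * oneF (dg)` (one-forms anticommute: `mul_isDeg_comm`).
* `dF_dfn`: `dF (oneF (df)) = ∑_{a,b} ∂_a∂_b f • of1 (bv a) * of1 (bv b) = 0` (symmetric times antisymmetric, `of1_mul_of1`).
* `dRF_conn`: the entry `(i, j)` is `∑_{k,l} W_ik (Θ_kl - ∑_p V_kp dW_pl) V_lj`; apply the three rules:
  `d(W_ik α_kl V_lj) = dW_ik α_kl V_lj + W_ik dα_kl V_lj - W_ik α_kl dV_lj`, `dα_kl = dΘ_kl - ∑_p dV_kp dW_pl`.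
-/

set_option autoImplicit false
set_option maxSynthPendingDepth 3
set_option linter.unusedSectionVars false

open Set Filter Topology Matrix
open scoped ContDiff

namespace Pool.Agent.EXO

variable {m : ℕ} {ι κ : Type} [Fintype ι] [Fintype κ] [DecidableEq ι] [DecidableEq κ]

private theorem SurCvB_fd {f : En m → ℂ} {x : En m} (hf : DifferentiableAt ℝ f x) (w : En m) :
    fderiv ℝ (fun y => algebraMap ℂ (FA m) (f y)) x w = algebraMap ℂ (FA m) (fderiv ℝ f x w) ∧
      DifferentiableAt ℝ (fun y => algebraMap ℂ (FA m) (f y)) x := by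
  have h1 := ((ContinuousLinearMap.toSpanSingleton ℂ (1 : FA m)).restrictScalars
    ℝ).hasFDerivAt.comp x hf.hasFDerivAt
  have h2 : (fun y => algebraMap ℂ (FA m) (f y)) =
      ((ContinuousLinearMap.toSpanSingleton ℂ (1 : FA m)).restrictScalars ℝ) ∘ f := by
    funext y
    rw [Algebra.algebraMap_eq_smul_one]
    rfl
  rw [h2]
  refine ⟨?_, h1.differentiableAt⟩
  rw [h1.fderiv, Algebra.algebraMap_eq_smul_one]
  rfl

private theorem SurCvB_alg {f : En m → ℂ} {x : En m} (hf : DifferentiableAt ℝ f x) :
    dF (fun y => algebraMap ℂ (FA m) (f y)) x = oneF fun v => fderiv ℝ f x v := by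
  rw [dF_eq]
  refine Finset.sum_congr rfl fun a _ => ?_
  rw [(SurCvB_fd hf (bv a)).1, ← Algebra.commutes, ← Algebra.smul_def, of1_bv]

theorem sur_dF_fn_mul {f : En m → ℂ} {u : En m → FA m} {x : En m} (hf : ContDiffAt ℝ ∞ f x)
    (hu : ContDiffAt ℝ ∞ u x) :
    dF (fun y => f y • u y) x = oneF (fun v => fderiv ℝ f x v) * u x + f x • dF u x := by
  have hf1 : DifferentiableAt ℝ f x := hf.differentiableAt (by simp)
  have hu1 : DifferentiableAt ℝ u x := hu.differentiableAt (by simp)
  have h1 : (fun y => f y • u y) = fun y => algebraMap ℂ (FA m) (f y) * u y := by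
    funext y
    rw [Algebra.smul_def]
  rw [h1, dF_mul (SurCvB_fd hf1 0).2 hu1, SurCvB_alg hf1, par.commutes, ← Algebra.smul_def]

private theorem SurCvB_evt {f : En m → ℂ} {x : En m} (hf : ContDiffAt ℝ ∞ f x) :
    ∀ᶠ y in 𝓝 x, ContDiffAt ℝ 2 f y := by
  have h : ContDiffAt ℝ 2 f x := hf.of_le (WithTop.coe_le_coe.2 le_top)
  exact h.eventually (by norm_num)

theorem sur_dF_dfn {f : En m → ℂ} {x : En m} (hf : ContDiffAt ℝ ∞ f x) :
    dF (fun y => oneF fun v => fderiv ℝ f y v) x = 0 := by
  have h1 : (fun y => oneF fun v => fderiv ℝ f y v) =ᶠ[nhds x]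
      dF (fun y => algebraMap ℂ (FA m) (f y)) := by
    filter_upwards [SurCvB_evt hf] with y hy
    exact (SurCvB_alg (hy.differentiableAt (by norm_num))).symm
  rw [dF_congr h1]
  refine dF_dF ?_
  have h2 : ContDiffAt ℝ 2 f x := hf.of_le (WithTop.coe_le_coe.2 le_top)
  have h3 : (fun y => algebraMap ℂ (FA m) (f y)) =
      ((ContinuousLinearMap.toSpanSingleton ℂ (1 : FA m)).restrictScalars ℝ) ∘ f := by
    funext y
    rw [Algebra.algebraMap_eq_smul_one]
    rfl
  rw [h3]
  exact ((ContinuousLinearMap.toSpanSingleton ℂ (1 : FA m)).restrictScalars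
    ℝ).contDiff.contDiffAt.comp x h2

/-- The entries are differentiable. -/
private def SurCvB_D {ι κ : Type} (α : En m → Matrix ι κ (FA m)) (x : En m) : Prop :=
  ∀ i j, DifferentiableAt ℝ (fun y => α y i j) x

private theorem SurCvB_Dmul {μ : Type} {α : En m → Matrix ι κ (FA m)}
    {β : En m → Matrix κ μ (FA m)} {x : En m} (hα : SurCvB_D α x) (hβ : SurCvB_D β x) :
    SurCvB_D (fun y => α y * β y) x := by
  intro i j
  simp only [Matrix.mul_apply]
  exact DifferentiableAt.fun_sum fun l _ => (hasFDerivAt_mulFA (hα i l) (hβ l j) 0).2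

private theorem SurCvB_mul {μ : Type} {α : En m → Matrix ι κ (FA m)}
    {β : En m → Matrix κ μ (FA m)} {x : En m} (hα : SurCvB_D α x) (hβ : SurCvB_D β x) :
    dRF (fun y => α y * β y) x = dRF α x * β x + (α x).map par * dRF β x := by
  refine Matrix.ext fun i j => ?_
  simp only [dRF, Matrix.of_apply, Matrix.add_apply, Matrix.mul_apply, Matrix.map_apply]
  rw [dF_sum _ fun l _ => (hasFDerivAt_mulFA (hα i l) (hβ l j) 0).2, ← Finset.sum_add_distrib]
  exact Finset.sum_congr rfl fun l _ => dF_mul (hα i l) (hβ l j)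

private theorem SurCvB_DcR {W : En m → Matrix ι κ ℂ} {x : En m} (hW : SmM W x) :
    SurCvB_D (fun y => cR m (W y)) x := fun i j =>
  (SurCvB_fd ((hW i j).differentiableAt (by simp)) 0).2

private theorem SurCvB_dcR {W : En m → Matrix ι κ ℂ} {x : En m} (hW : SmM W x) :
    dRF (fun y => cR m (W y)) x = dR W x := by
  refine Matrix.ext fun i j => ?_
  simp only [dRF, dR, Matrix.of_apply]
  exact SurCvB_alg ((hW i j).differentiableAt (by simp))

private theorem SurCvB_par (W : Matrix ι κ ℂ) : (cR m W).map par = cR m W := by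
  refine Matrix.ext fun i j => ?_
  simp only [cR, Matrix.map_apply]
  exact par.commutes _

private theorem SurCvB_DdR {W : En m → Matrix ι κ ℂ} {x : En m} (hW : SmM W x) :
    SurCvB_D (fun y => dR W y) x := by
  intro i j
  have h1 : (fun y => dR W y i j) =ᶠ[nhds x]
      fun y => ∑ a, (fderiv ℝ (fun z => W z i j) y (bv a)) • of1 (bv a) :=
    Filter.Eventually.of_forall fun y => rfl
  refine DifferentiableAt.congr_of_eventuallyEq ?_ h1
  refine DifferentiableAt.fun_sum fun a _ => ?_
  have h2 : ContDiffAt ℝ ∞ (fderiv ℝ (fun z => W z i j)) x := (hW i j).fderiv_right (by simp)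
  have h3 : DifferentiableAt ℝ (fun y => fderiv ℝ (fun z => W z i j) y (bv a)) x :=
    (h2.clm_apply contDiffAt_const).differentiableAt (by simp)
  exact h3.smul_const _

private theorem SurCvB_ddR {W : En m → Matrix ι κ ℂ} {x : En m} (hW : SmM W x) :
    dRF (fun y => dR W y) x = 0 := by
  refine Matrix.ext fun i j => ?_
  simp only [dRF, dR, Matrix.of_apply, Matrix.zero_apply]
  exact sur_dF_dfn (hW i j)

theorem dRF_conn {W : En m → Matrix ι κ ℂ} {V : En m → Matrix κ ι ℂ} {t : κ → En m → FA m}
    {x : En m} (hW : SmM W x) (hV : SmM V x) (ht : ∀ k, ContDiffAt ℝ ∞ (t k) x)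
    (ht1 : ∀ k y, (t k y).IsDeg 1) :
    dRF (fun y => cR m (W y) * (diagonal (fun k => t k y) - cR m (V y) * dR W y) * cR m (V y)) x
      = dR W x * (diagonal (fun k => t k x) - cR m (V x) * dR W x) * cR m (V x)
        + cR m (W x) * (diagonal (fun k => dF (t k) x) - dR V x * dR W x) * cR m (V x)
        - cR m (W x) * (diagonal (fun k => t k x) - cR m (V x) * dR W x) * dR V x := by
  have hDt : SurCvB_D (fun y => diagonal (fun k => t k y)) x := by
    intro i j
    by_cases h : i = j
    · subst h
      simp only [Matrix.diagonal_apply_eq]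
      exact (ht i).differentiableAt (by simp)
    · simp only [Matrix.diagonal_apply_ne _ h]
      exact differentiableAt_const _
  have hdt : dRF (fun y => diagonal (fun k => t k y)) x = diagonal (fun k => dF (t k) x) := by
    refine Matrix.ext fun i j => ?_
    by_cases h : i = j
    · subst h
      simp only [dRF, Matrix.of_apply, Matrix.diagonal_apply_eq]
    · simp only [dRF, Matrix.of_apply, Matrix.diagonal_apply_ne _ h]
      exact dF_const 0 x
  have hDVW : SurCvB_D (fun y => cR m (V y) * dR W y) x := SurCvB_Dmul (SurCvB_DcR hV) (SurCvB_DdR hW)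
  have hDM : SurCvB_D (fun y => diagonal (fun k => t k y) - cR m (V y) * dR W y) x := fun i j =>
    (hDt i j).sub (hDVW i j)
  have hdM : dRF (fun y => diagonal (fun k => t k y) - cR m (V y) * dR W y) x =
      diagonal (fun k => dF (t k) x) - dR V x * dR W x := by
    have h1 : dRF (fun y => diagonal (fun k => t k y) - cR m (V y) * dR W y) x =
        dRF (fun y => diagonal (fun k => t k y)) x - dRF (fun y => cR m (V y) * dR W y) x := by
      refine Matrix.ext fun i j => ?_
      exact dF_sub (hDt i j) (hDVW i j)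
    rw [h1, hdt, SurCvB_mul (SurCvB_DcR hV) (SurCvB_DdR hW), SurCvB_dcR hV, SurCvB_ddR hW,
      Matrix.mul_zero, add_zero]
  have hpar : ((cR m (W x)) * (diagonal (fun k => t k x) - cR m (V x) * dR W x)).map par =
      -(cR m (W x) * (diagonal (fun k => t k x) - cR m (V x) * dR W x)) := by
    have h2 : (diagonal (fun k => t k x) - cR m (V x) * dR W x).map par =
        -(diagonal (fun k => t k x) - cR m (V x) * dR W x) := by
      have h3 : (diagonal (fun k => t k x)).map par = -(diagonal (fun k => t k x)) := by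
        refine Matrix.ext fun i j => ?_
        rw [Matrix.map_apply, Matrix.neg_apply]
        by_cases h : i = j
        · subst h
          rw [Matrix.diagonal_apply_eq, par_of_isDeg (ht1 i x)]
          simp
        · rw [Matrix.diagonal_apply_ne _ h, map_zero, neg_zero]
      have h4 : (dR W x).map par = -(dR W x) := by
        refine Matrix.ext fun i j => ?_
        rw [Matrix.map_apply, Matrix.neg_apply]
        simp only [dR, Matrix.of_apply]
        rw [par_of_isDeg (oneF_deg _)]
        simp
      rw [Matrix.map_sub _ (map_sub par), h3]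
      rw [show (cR m (V x) * dR W x).map par = (cR m (V x)).map par * (dR W x).map par from
        Matrix.map_mul, SurCvB_par, h4, Matrix.mul_neg]
      abel
    rw [show ((cR m (W x)) * (diagonal (fun k => t k x) - cR m (V x) * dR W x)).map par =
      (cR m (W x)).map par * (diagonal (fun k => t k x) - cR m (V x) * dR W x).map par from
        Matrix.map_mul, SurCvB_par, h2, Matrix.mul_neg]
  rw [SurCvB_mul (SurCvB_Dmul (SurCvB_DcR hW) hDM) (SurCvB_DcR hV),
    SurCvB_mul (SurCvB_DcR hW) hDM, SurCvB_dcR hW, SurCvB_dcR hV, hdM, hpar, SurCvB_par,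
    Matrix.neg_mul, ← sub_eq_add_neg, Matrix.add_mul]

end Pool.Agent.EXO
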