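import Mathlib
import Pool.Agent.EXO.SurCvA
import Pool.Agent.EXO.SurCvB
import Pool.Agent.EXO.SurRes

/-!
# EXO / SurCvC: the curvature of a bundle in a unitary frame

`Lines`: in the frame `W` the connection is diagonal with the connection forms `th k`.

PROOFS.  Let `x ∈ Y ∩ O`, `f = FAMap (Y.P x)` (a ring homomorphism, `FAHom`), `V y = (W y)ᴴ`,
`t k y = oneF (th k y)`, `A0 y = cR W * (diagonal t - cR V * dR W) * cR V`.
* `conn_eq`: at a point `y` of `Y ∩ O`: `E.conn y i j = oneF (fun v => (A (P v)) i j)` with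
  `A v = -(W Wᴴ (dmat W y v) Wᴴ) + W diag (th v) Wᴴ`, and `A0 y i j = oneF (fun v => A v i j)`; use `FAMap_oneF_idem`.
* `curv_lines`: `(E.curv x).map f` is, with `e = (cM (E.e x)).map f = cR W * cR V`, `de = (dM E.e x).map f = (dR (W V) x).map f`
  (`dR_congr_tan`), `= ((dR W x).map f) V + W ((dR V x).map f)` (`dR_mul`), `A = (E.conn x).map f = (A0 x).map f`,
  `dA = (dRF conn x).map f = (dRF A0 x).map f` (`sur_dF_restr` of SurRes entrywise, `conn_eq` near `x`), and `dRF_conn`.
  `V W = 1` on `Y` near `x` gives `(dR V).map f * W + V * (dR W).map f = 0`.  So `sur_cv_alg` (over the ring `FA m`, with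
  `dW := (dR W x).map f` etc., `T := diagonal (f (dF (t k) x))`, `Θ := diagonal (f (t k x))`) gives
  `W (T + Θ Θ) V`, and `Θ Θ = 0` (`deg1_sq`).
* `strF_lines`: `FAMap` is a ring homomorphism, so it commutes with products, powers and the trace; `sur_cv_trace`.
-/

set_option autoImplicit false
set_option maxSynthPendingDepth 3
set_option linter.unusedSectionVars false

open Set Filter Topology Matrix
open scoped ContDiff

namespace Pool.Agent.EXO

variable {m k : ℕ} {ι κ : Type} [Fintype ι] [Fintype κ] [DecidableEq ι] [DecidableEq κ]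

/-- The unitary frame `W` on `O`, in which the connection is diagonal. -/
structure Bd.Lines {Y : Geo k m} (E : Bd Y ι) (O : Set (En m)) (W : En m → Matrix ι κ ℂ)
    (th : κ → En m → En m → ℂ) (σ : κ → ℂ) : Prop where
  openO : IsOpen O
  smW : ∀ x ∈ O, SmM W x
  smth : ∀ l v, ∀ x ∈ O, ContDiffAt ℝ ∞ (fun y => th l y v) x
  lin : ∀ l x v, th l x v = ∑ a, ((v a : ℝ) : ℂ) * th l x (bv a)
  WW : ∀ x ∈ O, (W x)ᴴ * W x = 1
  e_eq : ∀ x ∈ Y.carrier, x ∈ O → E.e x = W x * (W x)ᴴ
  sW : ∀ x ∈ O, diagonal E.s * W x = W x * diagonal σ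
  A_eq : ∀ x ∈ Y.carrier, x ∈ O → ∀ a,
    E.A a x = -(W x * (W x)ᴴ * dmat W x (Y.P x (bv a)) * (W x)ᴴ)
      + W x * diagonal (fun l => th l x (Y.P x (bv a))) * (W x)ᴴ

/-- A matrix of one-forms. -/
private noncomputable def SurCvC_M {m : ℕ} {ι κ : Type} (z : En m → Matrix ι κ ℂ) :
    Matrix ι κ (FA m) := Matrix.of fun i j => oneF fun v => z v i j

private theorem SurCvC_sum {α : Type} (s : Finset α) (f : α → En m → ℂ) :
    oneF (fun v => ∑ l ∈ s, f l v) = ∑ l ∈ s, oneF (fun v => f l v) := by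
  simp only [oneF, Finset.sum_smul]
  rw [Finset.sum_comm]

private theorem SurCvC_left {μ : Type} (W : Matrix ι κ ℂ) (z : En m → Matrix κ μ ℂ) :
    cR m W * SurCvC_M z = SurCvC_M fun v => W * z v := by
  refine Matrix.ext fun i j => ?_
  simp only [SurCvC_M, cR, Matrix.mul_apply, Matrix.map_apply, Matrix.of_apply]
  rw [SurCvC_sum]
  refine Finset.sum_congr rfl fun l _ => ?_
  rw [← Algebra.smul_def, ← oneF_mul]

private theorem SurCvC_right {μ : Type} (z : En m → Matrix ι κ ℂ) (V : Matrix κ μ ℂ) :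
    SurCvC_M z * cR m V = SurCvC_M fun v => z v * V := by
  refine Matrix.ext fun i j => ?_
  simp only [SurCvC_M, cR, Matrix.mul_apply, Matrix.map_apply, Matrix.of_apply]
  rw [SurCvC_sum]
  refine Finset.sum_congr rfl fun l _ => ?_
  rw [← Algebra.commutes, ← Algebra.smul_def, ← oneF_mul]
  congr 1
  funext v
  ring

private theorem SurCvC_sub (z z' : En m → Matrix ι κ ℂ) :
    SurCvC_M z - SurCvC_M z' = SurCvC_M fun v => z v - z' v := by
  refine Matrix.ext fun i j => ?_
  simp only [SurCvC_M, Matrix.sub_apply, Matrix.of_apply]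
  rw [sub_eq_add_neg, ← oneF_neg, ← oneF_add]
  simp only [sub_eq_add_neg]

private theorem SurCvC_diag (t : κ → En m → ℂ) :
    diagonal (fun l => oneF (t l)) = SurCvC_M fun v => diagonal fun l => t l v := by
  refine Matrix.ext fun i j => ?_
  simp only [SurCvC_M, Matrix.of_apply]
  by_cases h : i = j
  · subst h
    simp only [Matrix.diagonal_apply_eq]
  · simp only [Matrix.diagonal_apply_ne _ h]
    simp [oneF]

/-- The connection form in the frame, on all vectors. -/
private noncomputable def SurCvC_A (W : En m → Matrix ι κ ℂ) (th : κ → En m → En m → ℂ)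
    (y v : En m) : Matrix ι ι ℂ :=
  -(W y * (W y)ᴴ * dmat W y v * (W y)ᴴ) + W y * diagonal (fun l => th l y v) * (W y)ᴴ

private theorem SurCvC_A0 (W : En m → Matrix ι κ ℂ) (th : κ → En m → En m → ℂ) (y : En m) :
    cR m (W y) * (diagonal (fun l => oneF (th l y)) - cR m (W y)ᴴ * dR W y) * cR m (W y)ᴴ =
      SurCvC_M fun v => SurCvC_A W th y v := by
  rw [SurCvC_diag, show dR W y = SurCvC_M fun v => dmat W y v from rfl, SurCvC_left, SurCvC_sub,
    SurCvC_left, SurCvC_right]
  congr 1
  funext v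
  unfold SurCvC_A
  rw [Matrix.mul_sub, Matrix.sub_mul]
  simp only [Matrix.mul_assoc]
  abel

private theorem SurCvC_lin {W : En m → Matrix ι κ ℂ} {th : κ → En m → En m → ℂ}
    (lin : ∀ l x v, th l x v = ∑ a, ((v a : ℝ) : ℂ) * th l x (bv a)) (y v : En m) (i j : ι) :
    SurCvC_A W th y v i j = ∑ a, ((v a : ℝ) : ℂ) * SurCvC_A W th y (bv a) i j := by
  have h1 : SurCvC_A W th y v = ∑ a, ((v a : ℝ) : ℂ) • SurCvC_A W th y (bv a) := by
    unfold SurCvC_A
    have h2 : diagonal (fun l => th l y v) =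
        ∑ a, ((v a : ℝ) : ℂ) • diagonal (fun l => th l y (bv a)) := by
      refine Matrix.ext fun p q => ?_
      rw [Matrix.sum_apply]
      by_cases h : p = q
      · subst h
        simp only [Matrix.diagonal_apply_eq, Matrix.smul_apply, smul_eq_mul]
        exact lin p y v
      · simp only [Matrix.smul_apply, Matrix.diagonal_apply_ne _ h, smul_zero,
          Finset.sum_const_zero]
    rw [dmat_sum W y v, h2]
    simp only [Matrix.mul_sum, Matrix.sum_mul, Matrix.mul_smul, Matrix.smul_mul, smul_add,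
      Finset.sum_add_distrib, smul_neg, Finset.sum_neg_distrib]
  rw [h1, Matrix.sum_apply]
  exact Finset.sum_congr rfl fun a _ => rfl

private theorem SurCvC_conn {Y : Geo k m} {E : Bd Y ι} {O : Set (En m)}
    {W : En m → Matrix ι κ ℂ} {th : κ → En m → En m → ℂ} {σ : κ → ℂ} (h : E.Lines O W th σ)
    {y : En m} (hy : y ∈ Y.carrier) (hyO : y ∈ O) :
    (E.conn y).map (FAMap (Y.P y)) =
      (cR m (W y) * (diagonal (fun l => oneF (th l y)) - cR m (W y)ᴴ * dR W y)
        * cR m (W y)ᴴ).map (FAMap (Y.P y)) := by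
  rw [SurCvC_A0]
  refine Matrix.ext fun i j => ?_
  have h1 : E.conn y i j = oneF fun v => SurCvC_A W th y (Y.P y v) i j := by
    unfold Bd.conn oneF
    refine Finset.sum_congr rfl fun a _ => ?_
    rw [h.A_eq y hy hyO a]
    rfl
  rw [Matrix.map_apply, Matrix.map_apply, h1]
  simp only [SurCvC_M, Matrix.of_apply]
  exact FAMap_oneF_idem (Y.P y) (Y.P_idem y hy) (t := fun v => SurCvC_A W th y v i j)
    fun v => SurCvC_lin h.lin y v i j

private theorem SurCvC_sm1 {z : En m → En m → ℂ} {x : En m}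
    (hz : ∀ v, ContDiffAt ℝ ∞ (fun y => z y v) x) :
    ContDiffAt ℝ ∞ (fun y => oneF (z y)) x := by
  unfold oneF
  exact ContDiffAt.sum fun a _ => (hz (bv a)).smul contDiffAt_const

private theorem SurCvC_smA {Y : Geo k m} {E : Bd Y ι} {O : Set (En m)}
    {W : En m → Matrix ι κ ℂ} {th : κ → En m → En m → ℂ} {σ : κ → ℂ} (h : E.Lines O W th σ)
    {x : En m} (hxO : x ∈ O) (v : En m) : SmM (fun y => SurCvC_A W th y v) x := by
  have hW := h.smW x hxO
  have hd : SmM (fun y => diagonal (fun l => th l y v)) x := by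
    intro p q
    by_cases hpq : p = q
    · subst hpq
      simp only [Matrix.diagonal_apply_eq]
      exact h.smth p v x hxO
    · simp only [Matrix.diagonal_apply_ne _ hpq]
      exact contDiffAt_const
  exact ((((hW.mul hW.conj).mul (hW.dmat v)).mul hW.conj).neg).add ((hW.mul hd).mul hW.conj)

private theorem SurCvC_map {R S : Type} [Ring R] [Ring S] (f : R →+* S) (g : R → S)
    (hg : ∀ r, g r = f r) {α β : Type} (M : Matrix α β R) : M.map g = M.map f :=
  Matrix.ext fun i j => hg _

theorem Bd.Lines.curv_lines {Y : Geo k m} {E : Bd Y ι} {O : Set (En m)}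
    {W : En m → Matrix ι κ ℂ} {th : κ → En m → En m → ℂ} {σ : κ → ℂ} (h : E.Lines O W th σ)
    {x : En m} (hx : x ∈ Y.carrier) (hxO : x ∈ O) :
    (E.curv x).map (FAMap (Y.P x)) = cR m (W x)
      * diagonal (fun l => FAMap (Y.P x) (dF (fun y => oneF (th l y)) x)) * cR m (W x)ᴴ := by
  set φ : FA m →+* FA m := (FAHom (Y.P x)).toRingHom with hφ
  have hφ' : ∀ r, FAMap (Y.P x) r = φ r := fun r => rfl
  have hW := h.smW x hxO
  have hV : SmM (fun y => (W y)ᴴ) x := hW.conj
  have hOx : ∀ᶠ y in 𝓝 x, y ∈ O := h.openO.mem_nhds hxO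
  have hcR : ∀ {α β : Type} [Fintype α] [Fintype β] [DecidableEq α] [DecidableEq β]
      (T : Matrix α β ℂ), (cR m T).map φ = cR m T := by
    intro α β _ _ _ _ T
    exact FAMap_cR (Y.P x) T
  set W' := cR m (W x) with hW'
  set V' := cR m (W x)ᴴ with hV'
  set dW' := (dR W x).map φ with hdW'
  set dV' := (dR (fun y => (W y)ᴴ) x).map φ with hdV'
  set Θ := diagonal (fun l => φ (oneF (th l x))) with hΘ
  set T := diagonal (fun l => φ (dF (fun y => oneF (th l y)) x)) with hT
  have ee : cR m (E.e x) = W' * V' := by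
    rw [h.e_eq x hx hxO, cR_mul]
  have hVW : V' * W' = 1 := by
    rw [hV', hW', ← cR_mul, h.WW x hxO, cR_one]
  have hd : dV' * W' + V' * dW' = 0 := by
    have h1 : dR (fun y => (W y)ᴴ * W y) x = 0 := by
      refine Matrix.ext fun i j => ?_
      have h2 : ∀ v, dmat (fun y => (W y)ᴴ * W y) x v = 0 := by
        intro v
        rw [dmat_congr (B := fun _ => (1 : Matrix κ κ ℂ)) (hOx.mono fun y hy => h.WW y hy) v,
          dmat_const]
      simp only [dR, Matrix.of_apply, h2, Matrix.zero_apply, oneF, zero_smul,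
        Finset.sum_const_zero]
    rw [dR_mul hV hW] at h1
    have h3 := congrArg (fun M : Matrix κ κ (FA m) => M.map φ) h1
    simp only [Matrix.map_add φ (map_add φ), Matrix.map_mul, hcR, Matrix.map_zero φ (map_zero φ)]
      at h3
    exact h3
  have hde : (dM E.e x).map φ = dW' * V' + W' * dV' := by
    have h1 : (dM E.e x).map φ = (dR E.e x).map (FAMap (Y.P x)) := rfl
    rw [h1, dR_congr_tan Y hx (contDiff_mat.1 E.smooth_e x) (hW.mul hV), dR_mul hW hV]
    · rw [SurCvC_map φ _ hφ']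
      simp only [Matrix.map_add φ (map_add φ), Matrix.map_mul, hcR]
      rfl
    · filter_upwards [self_mem_nhdsWithin, mem_nhdsWithin_of_mem_nhds hOx] with y hy hyO
      exact h.e_eq y hy hyO
  have hA : (E.conn x).map φ = W' * (Θ - V' * dW') * V' := by
    have h1 := SurCvC_conn h hx hxO
    rw [SurCvC_map φ _ hφ', SurCvC_map φ _ hφ'] at h1
    rw [h1]
    simp only [Matrix.map_mul, hcR, Matrix.map_sub φ (map_sub φ), Matrix.diagonal_map (map_zero φ)]
    rfl
  have hdA : (dRF E.conn x).map φ = dW' * (Θ - V' * dW') * V' + W' * (T - dV' * dW') * V'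
      - W' * (Θ - V' * dW') * dV' := by
    have h1 : (dRF E.conn x).map φ =
        (dRF (fun y => cR m (W y) * (diagonal (fun l => oneF (th l y)) - cR m (W y)ᴴ * dR W y)
          * cR m (W y)ᴴ) x).map φ := by
      refine Matrix.ext fun i j => ?_
      rw [Matrix.map_apply, Matrix.map_apply]
      simp only [dRF, Matrix.of_apply]
      rw [← hφ', ← hφ']
      refine sur_dF_restr Y hx ?_ ?_ ?_
      · unfold Bd.conn
        exact ContDiffAt.sum fun a _ =>
          ((contDiff_mat.1 (E.smooth_A a) x) i j).smul contDiffAt_const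
      · simp only [SurCvC_A0]
        exact SurCvC_sm1 fun v => SurCvC_smA h hxO v i j
      · filter_upwards [self_mem_nhdsWithin, mem_nhdsWithin_of_mem_nhds hOx] with y hy hyO
        exact congrFun (congrFun (SurCvC_conn h hy hyO) i) j
    rw [h1, dRF_conn hW hV (fun l => SurCvC_sm1 fun v => h.smth l v x hxO)
      fun l y => oneF_deg _]
    simp only [Matrix.map_add φ (map_add φ), Matrix.map_mul, hcR, Matrix.map_sub φ (map_sub φ),
      Matrix.diagonal_map (map_zero φ)]
    rfl
  have hΘΘ : Θ * Θ = 0 := by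
    rw [hΘ, Matrix.diagonal_mul_diagonal]
    have h1 : ∀ l, φ (oneF (th l x)) * φ (oneF (th l x)) = 0 := by
      intro l
      rw [← map_mul, deg1_sq (oneF_deg _), map_zero]
    simp only [h1]
    exact Matrix.diagonal_zero
  have hmain := sur_cv_alg W' dW' V' dV' Θ T (cR m (E.e x)) ((dM E.e x).map φ)
    ((E.conn x).map φ) ((dRF E.conn x).map φ) hVW hd ee hde hA hdA
  rw [hΘΘ, add_zero] at hmain
  rw [SurCvC_map φ _ hφ']
  have hcurv : (E.curv x).map φ = cR m (E.e x) * (dM E.e x).map φ * (dM E.e x).map φ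
      * cR m (E.e x) + cR m (E.e x) * (dRF E.conn x).map φ * cR m (E.e x)
      + (E.conn x).map φ * (E.conn x).map φ := by
    have h1 : E.curv x = cR m (E.e x) * dM E.e x * dM E.e x * cR m (E.e x)
      + cR m (E.e x) * dRF E.conn x * cR m (E.e x) + E.conn x * E.conn x := rfl
    rw [h1]
    simp only [Matrix.map_add φ (map_add φ), Matrix.map_mul, hcR]
  rw [hcurv, hmain]
  rfl

theorem Bd.Lines.strF_lines {Y : Geo k m} {E : Bd Y ι} {O : Set (En m)}
    {W : En m → Matrix ι κ ℂ} {th : κ → En m → En m → ℂ} {σ : κ → ℂ} (h : E.Lines O W th σ)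
    {x : En m} (hx : x ∈ Y.carrier) (hxO : x ∈ O) (n : ℕ) :
    FAMap (Y.P x) (E.strF n x)
      = ∑ l, σ l • FAMap (Y.P x) (dF (fun y => oneF (th l y)) x) ^ n := by
  set φ : FA m →+* FA m := (FAHom (Y.P x)).toRingHom with hφ
  have hφ' : ∀ r, FAMap (Y.P x) r = φ r := fun r => rfl
  have hcR : ∀ {α β : Type} [Fintype α] [Fintype β] [DecidableEq α] [DecidableEq β]
      (T : Matrix α β ℂ), (cR m T).map φ = cR m T := by
    intro α β _ _ _ _ T
    exact FAMap_cR (Y.P x) T
  have h1 := h.curv_lines hx hxO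
  have h2 : E.strF n x = (cR m (diagonal E.s) * cR m (E.e x) * E.curv x ^ n).trace := rfl
  have h3 : FAMap (Y.P x) (E.strF n x) =
      (cR m (diagonal E.s) * cR m (E.e x) * ((E.curv x).map φ) ^ n).trace := by
    rw [hφ', h2]
    have h4 : ∀ M : Matrix ι ι (FA m), φ M.trace = (M.map φ).trace := by
      intro M
      simp only [Matrix.trace, Matrix.diag, Matrix.map_apply, map_sum]
    have h5 : ((E.curv x) ^ n).map φ = ((E.curv x).map φ) ^ n := by
      have := map_pow (RingHom.mapMatrix φ : Matrix ι ι (FA m) →+* Matrix ι ι (FA m)) (E.curv x) n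
      exact this
    rw [h4, Matrix.map_mul, Matrix.map_mul, hcR, hcR, h5]
  rw [h3, h.e_eq x hx hxO]
  exact sur_cv_trace E.s σ (W x) (W x)ᴴ (h.WW x hxO) (h.sW x hxO)
    (fun l => FAMap (Y.P x) (dF (fun y => oneF (th l y)) x)) _ h1 n

end Pool.Agent.EXO
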