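import Mathlib
import Pool.Agent.EXO.SurFlat

/-!
# EXO / SurEv: the metric part of the flat connection in the unitary frames

PROOFS.
* `th_lin`: `X` is linear in `v` (`dmat_sum`).
* `sm_th`: `th i k y v = -(∑ l, dmat (Γ i) y v k l * Gi i y l k)`, smooth by `SmM.dmat`, `smGi`.
* `toBd_A`: `b_a x = B v`, `v = P bv_a`; `∂_v Φ = ∂_vW Γ + W ∂_vΓ` (`dmat_mul`), `Ψ = Gi Wᴴ`, `Γ Gi = 1`, so
  `B v = -(E ∂_vW Wᴴ) - W X Wᴴ` (`E W = W`).  `s E = E s`, `s ∂_vW = ∂_vW σ` (derivative of the field `sW` on the open set `O i`),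
  `Wᴴ s = σ Wᴴ`, `σ σ = 1`: `s B s = -(E ∂_vW Wᴴ) - W σ X σ Wᴴ`.  So
  `evenPart = (1/2)(B + s B s) = -(E ∂_vW Wᴴ) - W ((1/2)(X + σ X σ)) Wᴴ`, and by the field `ev` the matrix `(1/2)(X + σ X σ)` has the
  entries `X k l (1 + σ k σ l) / 2 = X k k δ_kl` (`σ k σ l = 1` if `σ k = σ l`, else `-1`).
-/

set_option autoImplicit false
set_option maxSynthPendingDepth 3
set_option linter.unusedSectionVars false

open Set Filter Topology Matrix
open scoped ContDiff

namespace Pool.Agent.EXO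

namespace FrSys

variable {m k : ℕ} {ι κ : Type} [Fintype ι] [DecidableEq ι] [Fintype κ] [DecidableEq κ]

theorem th_lin {C : Set (En m)} (F : FrSys C ι κ) (i : F.I) (l : κ) (x v : En m) :
    F.th i l x v = ∑ a, ((v a : ℝ) : ℂ) * F.th i l x (bv a) := by
  have h1 : F.X i x v = ∑ a, ((v a : ℝ) : ℂ) • F.X i x (bv a) := by
    simp only [X]
    rw [dmat_sum, Matrix.sum_mul]
    exact Finset.sum_congr rfl fun a _ => by rw [Matrix.smul_mul]
  simp only [th, h1, Matrix.sum_apply, Matrix.smul_apply, smul_eq_mul, mul_neg,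
    Finset.sum_neg_distrib]

theorem sm_th {C : Set (En m)} (F : FrSys C ι κ) {i : F.I} {x : En m} (hx : x ∈ F.O i) (l : κ)
    (v : En m) : ContDiffAt ℝ ∞ (fun y => F.th i l y v) x :=
  ((((F.smΓ i x hx).dmat v).mul (F.smGi hx)) l l).neg

private theorem SurEv_half {C : Set (En m)} (F : FrSys C ι κ) {i : F.I} {x : En m}
    (hx : x ∈ F.O i) (v : En m) :
    (1 / 2 : ℂ) • (F.X i x v + diagonal F.σ * F.X i x v * diagonal F.σ) =
      -diagonal (fun l => F.th i l x v) := by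
  ext k l
  have h1 : (diagonal F.σ * F.X i x v * diagonal F.σ) k l = F.σ k * F.X i x v k l * F.σ l := by
    rw [Matrix.mul_diagonal, Matrix.diagonal_mul]
  simp only [Matrix.smul_apply, Matrix.add_apply, Matrix.neg_apply, smul_eq_mul, h1]
  by_cases hkl : k = l
  · subst hkl
    rw [Matrix.diagonal_apply_eq, th]
    rcases F.σ_sq k with h | h <;> rw [h] <;> ring
  · rw [Matrix.diagonal_apply_ne _ hkl]
    by_cases hs : F.σ k = F.σ l
    · have h2 : F.X i x v k l = 0 := F.ev i x hx v k l hkl hs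
      rw [h2]
      ring
    · rcases F.σ_sq k with h | h <;> rcases F.σ_sq l with h' | h'
      · exact absurd (h.trans h'.symm) hs
      · rw [h, h']
        ring
      · rw [h, h']
        ring
      · exact absurd (h.trans h'.symm) hs

theorem toBd_A {Y : Geo k m} (F : FrSys Y.carrier ι κ) (E : FlatBd Y ι) (hs : E.s = F.s)
    (hE : ∀ i, ∀ x ∈ Y.carrier, x ∈ F.O i →
      E.e x = F.E i x ∧ ∀ a, E.b a x = F.B i x (Y.P x (bv a)))
    {i : F.I} {x : En m} (hx : x ∈ Y.carrier) (hi : x ∈ F.O i) (a : Fin m) :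
    E.toBd.A a x = -(F.W i x * (F.W i x)ᴴ * dmat (F.W i) x (Y.P x (bv a)) * (F.W i x)ᴴ)
      + F.W i x * diagonal (fun l => F.th i l x (Y.P x (bv a))) * (F.W i x)ᴴ := by
  have hA : E.toBd.A a x = (1 / 2 : ℂ) • (E.b a x + diagonal E.s * E.b a x * diagonal E.s) := rfl
  rw [hA, hs, (hE i x hx hi).2 a]
  set v := Y.P x (bv a)
  have hWs : (F.W i x)ᴴ * diagonal F.s = diagonal F.σ * (F.W i x)ᴴ := by
    have h2 := congrArg Matrix.conjTranspose (F.sW i x hi)
    rwa [conjTranspose_mul, conjTranspose_mul, F.sH, F.σH] at h2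
  have hD : diagonal F.s * dmat (F.W i) x v = dmat (F.W i) x v * diagonal F.σ := by
    have hs1 : SmM (fun _ : En m => (diagonal F.s : Matrix ι ι ℂ)) x := SmM.const _ x
    have hs2 : SmM (fun _ : En m => (diagonal F.σ : Matrix κ κ ℂ)) x := SmM.const _ x
    have h2 : dmat (fun y => diagonal F.s * F.W i y) x v =
        dmat (fun y => F.W i y * diagonal F.σ) x v := by
      refine dmat_congr ?_ v
      filter_upwards [(F.openO i).mem_nhds hi] with y hy
      exact F.sW i y hy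
    rw [dmat_mul hs1 (F.smW i x hi), dmat_mul (F.smW i x hi) hs2, dmat_const, dmat_const,
      Matrix.zero_mul, Matrix.mul_zero, zero_add, add_zero] at h2
    exact h2
  have hB : F.B i x v = -(F.E i x * dmat (F.W i) x v * (F.W i x)ᴴ)
      - F.W i x * F.X i x v * (F.W i x)ᴴ := by
    have h1 : dmat (F.Φ i) x v = dmat (F.W i) x v * F.Γ i x + F.W i x * dmat (F.Γ i) x v :=
      dmat_mul (F.smW i x hi) (F.smΓ i x hi) v
    have h2 : F.E i x * (dmat (F.W i) x v * F.Γ i x + F.W i x * dmat (F.Γ i) x v) *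
        (F.Gi i x * (F.W i x)ᴴ) =
        F.E i x * dmat (F.W i) x v * ((F.Γ i x * F.Gi i x) * (F.W i x)ᴴ) +
        (F.E i x * F.W i x) * (dmat (F.Γ i) x v * F.Gi i x) * (F.W i x)ᴴ := by
      simp only [Matrix.mul_add, Matrix.add_mul, Matrix.mul_assoc]
    rw [B, h1, Ψ, h2, F.mul_Gi hi, Matrix.one_mul, F.E_W hi, X]
    abel
  have h3 : diagonal F.s * (F.E i x * dmat (F.W i) x v * (F.W i x)ᴴ) * diagonal F.s =
      F.E i x * dmat (F.W i) x v * (F.W i x)ᴴ := by
    have h4 : diagonal F.s * (F.E i x * dmat (F.W i) x v * (F.W i x)ᴴ) * diagonal F.s =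
        (diagonal F.s * F.E i x) * dmat (F.W i) x v * ((F.W i x)ᴴ * diagonal F.s) := by
      simp only [Matrix.mul_assoc]
    rw [h4, ← F.E_s hi, hWs]
    have h5 : F.E i x * diagonal F.s * dmat (F.W i) x v * (diagonal F.σ * (F.W i x)ᴴ) =
        F.E i x * (diagonal F.s * dmat (F.W i) x v) * (diagonal F.σ * (F.W i x)ᴴ) := by
      simp only [Matrix.mul_assoc]
    rw [h5, hD]
    have h6 : F.E i x * (dmat (F.W i) x v * diagonal F.σ) * (diagonal F.σ * (F.W i x)ᴴ) =
        F.E i x * dmat (F.W i) x v * ((diagonal F.σ * diagonal F.σ) * (F.W i x)ᴴ) := by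
      simp only [Matrix.mul_assoc]
    rw [h6, F.σσ, Matrix.one_mul]
  have h7 : diagonal F.s * (F.W i x * F.X i x v * (F.W i x)ᴴ) * diagonal F.s =
      F.W i x * (diagonal F.σ * F.X i x v * diagonal F.σ) * (F.W i x)ᴴ := by
    have h8 : diagonal F.s * (F.W i x * F.X i x v * (F.W i x)ᴴ) * diagonal F.s =
        (diagonal F.s * F.W i x) * F.X i x v * ((F.W i x)ᴴ * diagonal F.s) := by
      simp only [Matrix.mul_assoc]
    rw [h8, hWs, F.sW i x hi]
    simp only [Matrix.mul_assoc]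
  have h9 : diagonal F.s * F.B i x v * diagonal F.s =
      -(F.E i x * dmat (F.W i) x v * (F.W i x)ᴴ)
      - F.W i x * (diagonal F.σ * F.X i x v * diagonal F.σ) * (F.W i x)ᴴ := by
    rw [hB, Matrix.mul_sub, Matrix.sub_mul, Matrix.mul_neg, Matrix.neg_mul, h3, h7]
  have h10 : F.W i x * diagonal (fun l => F.th i l x v) * (F.W i x)ᴴ =
      -(F.W i x * ((1 / 2 : ℂ) • (F.X i x v + diagonal F.σ * F.X i x v * diagonal F.σ)) *
        (F.W i x)ᴴ) := by
    rw [F.SurEv_half hi v, Matrix.mul_neg, Matrix.neg_mul, neg_neg]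
  have h12 : F.W i x * (F.W i x)ᴴ = F.E i x := rfl
  rw [h9, hB, h10, h12]
  simp only [Matrix.mul_smul, Matrix.smul_mul, Matrix.mul_add, Matrix.add_mul, smul_add, smul_sub,
    smul_neg]
  have h11 : ∀ Z : Matrix ι ι ℂ, Z = (1 / 2 : ℂ) • Z + (1 / 2 : ℂ) • Z := by
    intro Z
    rw [← add_smul]
    norm_num
  conv_rhs => rw [h11 (F.E i x * dmat (F.W i) x v * (F.W i x)ᴴ)]
  abel

end FrSys

end Pool.Agent.EXO
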