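import Mathlib
import Pool.Agent.EXO.SurFrA

/-!
# EXO / SurPb: pull back of a system of frames

PROOFS.  All algebraic fields are the fields of `F` at the point `r x`.
* `openO`: `hr.continuous`.  `smW`, `smΓ`: `SmM.comp`.  `ev`: `dmat_comp`.
* `tr`: `r` tends to `𝓝[C] (r x)` along `𝓝[C'] x` (continuity and `hC`), apply `Tendsto.eventually` to the field `tr` of `F`.
* `pb_th`: `dmat_comp`.
-/

set_option autoImplicit false
set_option maxSynthPendingDepth 3

open Set Filter Topology Matrix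
open scoped ContDiff

namespace Pool.Agent.EXO

namespace FrSys

variable {m m' : ℕ} {C : Set (En m)} {ι κ : Type} [Fintype ι] [DecidableEq ι] [Fintype κ]
  [DecidableEq κ] (F : FrSys C ι κ)

/-- Pull back of a system of frames. -/
noncomputable def pb {C' : Set (En m')} (r : En m' → En m) (hr : ContDiff ℝ ∞ r)
    (hC : ∀ x ∈ C', r x ∈ C) : FrSys C' ι κ where
  I := F.I
  O := fun i => r ⁻¹' (F.O i)
  W := fun i x => F.W i (r x)
  Γ := fun i x => F.Γ i (r x)
  s := F.s
  σ := F.σ
  h := F.h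
  hi := F.hi
  openO := fun i => (F.openO i).preimage hr.continuous
  cover := fun x hx => F.cover (r x) (hC x hx)
  smW := fun i x hx => (F.smW i (r x) hx).comp hr.contDiffAt
  smΓ := fun i x hx => (F.smΓ i (r x) hx).comp hr.contDiffAt
  s_sq := F.s_sq
  σ_sq := F.σ_sq
  hih := F.hih
  hi_herm := F.hi_herm
  WW := fun i x hx => F.WW i (r x) hx
  sW := fun i x hx => F.sW i (r x) hx
  ΓσΓ := fun i x hx => F.ΓσΓ i (r x) hx
  ev := fun i x hx v k l hkl hσ => by
    rw [dmat_comp (F.smΓ i (r x) hx) hr.contDiffAt v]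
    exact F.ev i (r x) hx (fderiv ℝ r x v) k l hkl hσ
  tr := fun i j x hx hi hj => by
    obtain ⟨c, hc⟩ := F.tr i j (r x) (hC x hx) hi hj
    have ht : Tendsto r (𝓝[C'] x) (𝓝[C] (r x)) :=
      hr.continuous.continuousWithinAt.tendsto_nhdsWithin fun y hy => hC y hy
    exact ⟨c, ht.eventually hc⟩

theorem pb_th {C' : Set (En m')} (r : En m' → En m) (hr : ContDiff ℝ ∞ r)
    (hC : ∀ x ∈ C', r x ∈ C) (i : F.I) (k : κ) {x : En m'} (hx : r x ∈ F.O i) (v : En m') :
    (F.pb r hr hC).th i k x v = F.th i k (r x) (fderiv ℝ r x v) := by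
  change -(dmat (fun y => F.Γ i (r y)) x v * F.Gi i (r x)) k k = _
  rw [dmat_comp (F.smΓ i (r x) hx) hr.contDiffAt v]
  rfl

end FrSys

end Pool.Agent.EXO
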