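import Mathlib
import Pool.Agent.EXO.SurFrA

/-!
# EXO / SurTens: the tensor product of two systems of frames over the same set

PROOFS.  Kronecker products: `mul_kronecker_mul` (`(A * B) ⊗ₖ (A' * B') = (A ⊗ₖ A') * (B ⊗ₖ B')`), `one_kronecker_one`,
`diagonal_kronecker_diagonal`, `conjTranspose_kronecker` (or `ext` and `star_mul'`).
* `smW`, `smΓ`: the entries are products.
* `hih`, `hi_herm`, `WW`, `sW`, `ΓσΓ`: products of the fields of `F` and `F'`; write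
  `diagonal (fun p => F.s p.1 * F'.s p.2) = diagonal F.s ⊗ₖ diagonal F'.s`.
* `dmat_kron`: product rule for the entries.
* `X_kron`: with `Gi (tens) = Gi F ⊗ₖ Gi F'` and `Γ Gi = 1` (`mul_Gi`):
  `dmat (Γ ⊗ₖ Γ') * (Gi ⊗ₖ Gi') = (dmat Γ * Gi) ⊗ₖ 1 + 1 ⊗ₖ (dmat Γ' * Gi')`.
* `ev`: the entry `((k, k'), (l, l'))` of the last matrix is `X k l * δ_{k' l'} + δ_{k l} * X' k' l'`.  If `(k, k') ≠ (l, l')` and
  `σ k σ' k' = σ l σ' l'`: if `k ≠ l`, `k' = l'` then `σ k = σ l` (`σ' k' = ± 1`) and `X k l = 0` by `F.ev`; the same for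
  `k = l`, `k' ≠ l'`; if `k ≠ l` and `k' ≠ l'` both terms vanish.
* `tr`: `c ⊗ₖ c'`.
* `tens_th`: the diagonal entry.
-/

set_option autoImplicit false
set_option maxSynthPendingDepth 3
set_option linter.unusedSectionVars false

open Set Filter Topology Matrix
open scoped ContDiff Kronecker

namespace Pool.Agent.EXO

namespace FrSys

variable {m : ℕ} {C : Set (En m)} {ι κ ι' κ' : Type} [Fintype ι] [DecidableEq ι] [Fintype κ]
  [DecidableEq κ] [Fintype ι'] [DecidableEq ι'] [Fintype κ'] [DecidableEq κ']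
  (F : FrSys C ι κ) (F' : FrSys C ι' κ')

theorem dmat_kron {A : En m → Matrix ι κ ℂ} {A' : En m → Matrix ι' κ' ℂ} {x : En m}
    (hA : SmM A x) (hA' : SmM A' x) (v : En m) :
    dmat (fun y => A y ⊗ₖ A' y) x v = dmat A x v ⊗ₖ A' x + A x ⊗ₖ dmat A' x v := by
  ext ⟨i, i'⟩ ⟨j, j'⟩
  have h1 : HasFDerivAt (fun y => (A y ⊗ₖ A' y) (i, i') (j, j')) _ x :=
    ((hA i j).differentiableAt (by simp)).hasFDerivAt.mul
      ((hA' i' j').differentiableAt (by simp)).hasFDerivAt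
  simp only [dmat, Matrix.of_apply, Matrix.add_apply, kronecker_apply]
  simp only [kronecker_apply] at h1
  rw [h1.fderiv]
  simp only [ContinuousLinearMap.add_apply, ContinuousLinearMap.smul_apply, smul_eq_mul]
  ring

private theorem SurTens_diag : (diagonal fun p : κ × κ' => F.σ p.1 * F'.σ p.2) =
    diagonal F.σ ⊗ₖ diagonal F'.σ := (diagonal_kronecker_diagonal F.σ F'.σ).symm

theorem X_kron {i : F.I} {j : F'.I} {x : En m} (hi : x ∈ F.O i) (hj : x ∈ F'.O j) (v : En m) :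
    dmat (fun y => F.Γ i y ⊗ₖ F'.Γ j y) x v * ((F.hi ⊗ₖ F'.hi) * (F.Γ i x ⊗ₖ F'.Γ j x)ᴴ *
      diagonal fun p : κ × κ' => F.σ p.1 * F'.σ p.2)
      = F.X i x v ⊗ₖ (1 : Matrix κ' κ' ℂ) + (1 : Matrix κ κ ℂ) ⊗ₖ F'.X j x v := by
  have h1 : (F.hi ⊗ₖ F'.hi) * (F.Γ i x ⊗ₖ F'.Γ j x)ᴴ *
      (diagonal fun p : κ × κ' => F.σ p.1 * F'.σ p.2) = F.Gi i x ⊗ₖ F'.Gi j x := by
    rw [SurTens_diag, conjTranspose_kronecker, ← mul_kronecker_mul, ← mul_kronecker_mul, Gi, Gi]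
  rw [h1, dmat_kron (F.smΓ i x hi) (F'.smΓ j x hj), Matrix.add_mul, ← mul_kronecker_mul,
    ← mul_kronecker_mul, F.mul_Gi hi, F'.mul_Gi hj, X, X]

private theorem SurTens_pm {a b : ℂ} (ha : a = 1 ∨ a = -1) (hb : b = 1 ∨ b = -1) :
    a * b = 1 ∨ a * b = -1 := by
  rcases ha with rfl | rfl <;> rcases hb with rfl | rfl <;> simp

private theorem SurTens_ne {a : ℂ} (ha : a = 1 ∨ a = -1) : a ≠ 0 := by
  rcases ha with rfl | rfl <;> simp

/-- The tensor product of two systems of frames. -/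
noncomputable def tens : FrSys C (ι × ι') (κ × κ') where
  I := F.I × F'.I
  O := fun i => F.O i.1 ∩ F'.O i.2
  W := fun i x => F.W i.1 x ⊗ₖ F'.W i.2 x
  Γ := fun i x => F.Γ i.1 x ⊗ₖ F'.Γ i.2 x
  s := fun p => F.s p.1 * F'.s p.2
  σ := fun p => F.σ p.1 * F'.σ p.2
  h := F.h ⊗ₖ F'.h
  hi := F.hi ⊗ₖ F'.hi
  openO := fun i => (F.openO i.1).inter (F'.openO i.2)
  cover := fun x hx => by
    obtain ⟨i, hi⟩ := F.cover x hx
    obtain ⟨j, hj⟩ := F'.cover x hx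
    exact ⟨(i, j), hi, hj⟩
  smW := fun i x hx => fun a b => (F.smW i.1 x hx.1 a.1 b.1).mul (F'.smW i.2 x hx.2 a.2 b.2)
  smΓ := fun i x hx => fun a b => (F.smΓ i.1 x hx.1 a.1 b.1).mul (F'.smΓ i.2 x hx.2 a.2 b.2)
  s_sq := fun p => SurTens_pm (F.s_sq p.1) (F'.s_sq p.2)
  σ_sq := fun p => SurTens_pm (F.σ_sq p.1) (F'.σ_sq p.2)
  hih := by rw [← mul_kronecker_mul, F.hih, F'.hih, one_kronecker_one]
  hi_herm := by rw [conjTranspose_kronecker, F.hi_herm, F'.hi_herm]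
  WW := fun i x hx => by
    rw [conjTranspose_kronecker, ← mul_kronecker_mul, F.WW i.1 x hx.1, F'.WW i.2 x hx.2,
      one_kronecker_one]
  sW := fun i x hx => by
    have h1 : (diagonal fun p : ι × ι' => F.s p.1 * F'.s p.2) =
      diagonal F.s ⊗ₖ diagonal F'.s := (diagonal_kronecker_diagonal F.s F'.s).symm
    rw [h1, SurTens_diag, ← mul_kronecker_mul, ← mul_kronecker_mul, F.sW i.1 x hx.1,
      F'.sW i.2 x hx.2]
  ΓσΓ := fun i x hx => by
    rw [SurTens_diag, conjTranspose_kronecker, ← mul_kronecker_mul, ← mul_kronecker_mul,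
      F.ΓσΓ i.1 x hx.1, F'.ΓσΓ i.2 x hx.2]
  ev := fun i x hx v p q hpq hσ => by
    obtain ⟨k, k'⟩ := p
    obtain ⟨l, l'⟩ := q
    have h0 := F.X_kron F' hx.1 hx.2 v
    rw [h0]
    simp only [Matrix.add_apply, kronecker_apply]
    by_cases hk : k = l
    · subst hk
      have hk' : k' ≠ l' := fun h => hpq (by rw [h])
      have h1 : F'.σ k' = F'.σ l' := mul_left_cancel₀ (SurTens_ne (F.σ_sq k)) hσ
      have h2 := F'.ev i.2 x hx.2 v k' l' hk' h1
      rw [Matrix.one_apply_ne hk', mul_zero, zero_add]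
      have h3 : F'.X i.2 x v k' l' = 0 := h2
      rw [h3, mul_zero]
    · by_cases hk' : k' = l'
      · subst hk'
        have h1 : F.σ k = F.σ l := mul_right_cancel₀ (SurTens_ne (F'.σ_sq k')) hσ
        have h3 : F.X i.1 x v k l = 0 := F.ev i.1 x hx.1 v k l hk h1
        rw [h3, Matrix.one_apply_ne hk]
        simp
      · rw [Matrix.one_apply_ne hk, Matrix.one_apply_ne hk']
        simp
  tr := fun i j x hx hxi hxj => by
    obtain ⟨c, hc⟩ := F.tr i.1 j.1 x hx hxi.1 hxj.1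
    obtain ⟨c', hc'⟩ := F'.tr i.2 j.2 x hx hxi.2 hxj.2
    refine ⟨c ⊗ₖ c', ?_⟩
    filter_upwards [hc, hc'] with y h1 h2
    rw [← mul_kronecker_mul, ← mul_kronecker_mul, ← mul_kronecker_mul, h1, h2]

theorem tens_th {i : F.I} {j : F'.I} {x : En m} (hi : x ∈ F.O i) (hj : x ∈ F'.O j) (k : κ)
    (k' : κ') (v : En m) :
    (F.tens F').th (i, j) (k, k') x v = F.th i k x v + F'.th j k' x v := by
  have h1 : (F.tens F').X (i, j) x v =
      F.X i x v ⊗ₖ (1 : Matrix κ' κ' ℂ) + (1 : Matrix κ κ ℂ) ⊗ₖ F'.X j x v :=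
    F.X_kron F' hi hj v
  simp only [th, h1, Matrix.add_apply, kronecker_apply, Matrix.one_apply_eq]
  ring

theorem tens_Φ (i : F.I) (j : F'.I) (x : En m) :
    (F.tens F').Φ (i, j) x = F.Φ i x ⊗ₖ F'.Φ j x :=
  (mul_kronecker_mul (F.W i x) (F.Γ i x) (F'.W j x) (F'.Γ j x)).symm

end FrSys

end Pool.Agent.EXO
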