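import Mathlib
import Pool.Agent.EXO.SurPb
import Pool.Agent.EXO.SurTens
import Pool.Agent.EXO.SurEv
import Pool.Agent.EXO.SurCvC
import Pool.Agent.EXO.SurAlg8

/-!
# EXO / SurTot: the characteristic forms of the product of three pulled back bundles

`F` is a system of frames over a subset `C` of `ℝ³` with two lines, whose connection forms `th i 0`, `th i 1` have the exterior
derivatives `f i`, `-f i` on `O i`.  Over the closed submanifold `Y` of `ℝ^m` there are three smooth maps `q j` to `C`.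
`Ftot` is the tensor product of the three pull backs.

PROOFS.
* `lines`: `Bd.Lines` for `E.toBd`, `O = Ftot.O i`, `W = Ftot.W i`, `th = Ftot.th i`, `σ = Ftot.σ`: fields of `FrSys`, `th_lin`, `sm_th`,
  `toBd_A`.
* `dF_tot`: near `x` (on the open set) `oneF (Ftot.th i ((a, b), c) y) = ∑_j pbF (q j) (fun p => oneF (F.th (i j) · p)) y`
  (`tens_th`, `pb_th`, `FAMap_oneF`, `th_lin`), so its `dF` is `∑_j pbF (q j) (dF (oneF (F.th ..))) x` (naturality of `dF`: `dF_pbF` of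
  FmFAd) `= sg8 a • φ 0 + sg8 b • φ 1 + sg8 c • φ 2`, `φ j = pbF (q j) (f (i j)) x`.
* `strF_tot`: `strF_lines` and `sur_alg8` for the elements `FAMap (P x) (φ j)`: they have degree `2`, so they commute
  (`IsDeg_even_comm`), and `φ j * φ j = FAMap (D q_j) (f * f) = 0` because `f * f` has degree `4` in `FA 3`
  (`dgF_eq_zero`, `isDeg_iff`).  `σ` of the tensor product is `sg8 a * sg8 b * sg8 c` by `hσ`.
* `ch_tot`: only `n = 3` contributes: `(i/2π)^3 / 3! * 48 = 8 (i/2π)^3`.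
-/

set_option autoImplicit false
set_option maxSynthPendingDepth 3

open Set Filter Topology Matrix
open scoped ContDiff

namespace Pool.Agent.EXO

section

variable {C : Set (En 3)} {ι : Type} [Fintype ι] [DecidableEq ι] (F : FrSys C ι (Fin 2))
  {k m : ℕ} (Y : Geo k m) (q : Fin 3 → En m → En 3) (hq : ∀ j, ContDiff ℝ ∞ (q j))
  (hqY : ∀ j, ∀ x ∈ Y.carrier, q j x ∈ C)

/-- The tensor product of the three pull backs. -/
noncomputable def Ftot : FrSys Y.carrier ((ι × ι) × ι) ((Fin 2 × Fin 2) × Fin 2) :=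
  ((F.pb (C' := Y.carrier) (q 0) (hq 0) (hqY 0)).tens
    (F.pb (C' := Y.carrier) (q 1) (hq 1) (hqY 1))).tens
      (F.pb (C' := Y.carrier) (q 2) (hq 2) (hqY 2))

private theorem SurTot_sm {M : ℕ} {z : En M → En M → ℂ} {x : En M}
    (hz : ∀ v, ContDiffAt ℝ ∞ (fun y => z y v) x) :
    ContDiffAt ℝ ∞ (fun y => oneF (z y)) x := by
  unfold oneF
  exact ContDiffAt.sum fun a _ => (hz (bv a)).smul contDiffAt_const

theorem Ftot_dF (hσ : F.σ = sg8) (f : F.I → En 3 → FA 3)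
    (hf0 : ∀ i, ∀ p ∈ F.O i, dF (fun y => oneF (F.th i 0 y)) p = f i p)
    (hf1 : ∀ i, ∀ p ∈ F.O i, dF (fun y => oneF (F.th i 1 y)) p = -f i p) {x : En m}
    (i : Fin 3 → F.I) (hi : ∀ j, q j x ∈ F.O (i j)) (p : (Fin 2 × Fin 2) × Fin 2) :
    dF (fun y => oneF ((Ftot F Y q hq hqY).th ((i 0, i 1), i 2) p y)) x
      = sg8 p.1.1 • pbF (q 0) (f (i 0)) x + sg8 p.1.2 • pbF (q 1) (f (i 1)) x
        + sg8 p.2 • pbF (q 2) (f (i 2)) x := by
  have hk : ∀ (j : F.I) (k : Fin 2), ∀ z ∈ F.O j,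
      dF (fun y => oneF (F.th j k y)) z = sg8 k • f j z := by
    intro j k z hz
    rcases (by omega : k = 0 ∨ k = 1) with rfl | rfl
    · rw [hf0 j z hz, sg8, if_pos rfl, one_smul]
    · rw [hf1 j z hz, sg8, if_neg (by decide), neg_smul, one_smul]
  have hO : ∀ j, ∀ᶠ y in 𝓝 x, q j y ∈ F.O (i j) := fun j =>
    (hq j).continuous.continuousAt.eventually ((F.openO (i j)).mem_nhds (hi j))
  have hpb : ∀ (j : Fin 3) (k : Fin 2) (y : En m),
      pbF (q j) (fun z => oneF (F.th (i j) k z)) y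
        = oneF fun v => F.th (i j) k (q j y) (fderiv ℝ (q j) y v) := by
    intro j k y
    unfold pbF
    exact FAMap_oneF _ fun v => FrSys.th_lin F (i j) k (q j y) v
  have hev : (fun y => oneF ((Ftot F Y q hq hqY).th ((i 0, i 1), i 2) p y)) =ᶠ[𝓝 x]
      fun y => (pbF (q 0) (fun z => oneF (F.th (i 0) p.1.1 z)) y
        + pbF (q 1) (fun z => oneF (F.th (i 1) p.1.2 z)) y)
        + pbF (q 2) (fun z => oneF (F.th (i 2) p.2 z)) y := by
    filter_upwards [hO 0, hO 1, hO 2] with y h0 h1 h2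
    rw [hpb, hpb, hpb, ← oneF_add, ← oneF_add]
    congr 1
    funext v
    have e0 := F.pb_th (q 0) (hq 0) (hqY 0) (i 0) p.1.1 h0 v
    have e1 := F.pb_th (q 1) (hq 1) (hqY 1) (i 1) p.1.2 h1 v
    have e2 := F.pb_th (q 2) (hq 2) (hqY 2) (i 2) p.2 h2 v
    have e3 := FrSys.tens_th (F.pb (C' := Y.carrier) (q 0) (hq 0) (hqY 0))
      (F.pb (C' := Y.carrier) (q 1) (hq 1) (hqY 1)) (i := i 0) (j := i 1) (x := y) h0 h1
      p.1.1 p.1.2 v
    have e4 := FrSys.tens_th ((F.pb (C' := Y.carrier) (q 0) (hq 0) (hqY 0)).tens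
      (F.pb (C' := Y.carrier) (q 1) (hq 1) (hqY 1)))
      (F.pb (C' := Y.carrier) (q 2) (hq 2) (hqY 2)) (i := (i 0, i 1)) (j := i 2) (x := y)
      ⟨h0, h1⟩ h2 p.1 p.2 v
    rw [← e0, ← e1, ← e2, ← e3]
    exact e4
  have hd : ∀ (j : Fin 3) (k : Fin 2),
      DifferentiableAt ℝ (fun z => oneF (F.th (i j) k z)) (q j x) := fun j k =>
    (SurTot_sm fun v => FrSys.sm_th F (hi j) k v).differentiableAt (by simp)
  have hq2 : ∀ j, ContDiffAt ℝ 2 (q j) x := fun j =>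
    ((hq j).of_le (WithTop.coe_le_coe.2 (le_top : (2 : ℕ∞) ≤ ⊤))).contDiffAt
  have hdp : ∀ (j : Fin 3) (k : Fin 2),
      DifferentiableAt ℝ (pbF (q j) (fun z => oneF (F.th (i j) k z))) x := fun j k =>
    differentiableAt_pbF (hq2 j) (hd j k)
  have hdd : ∀ (j : Fin 3) (k : Fin 2),
      dF (pbF (q j) (fun z => oneF (F.th (i j) k z))) x = sg8 k • pbF (q j) (f (i j)) x := by
    intro j k
    rw [dF_pbF (hq2 j) (hd j k)]
    unfold pbF
    rw [hk (i j) k _ (hi j), FAMap_smul]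
  rw [dF_congr hev]
  rw [dF_add (u := fun y => pbF (q 0) (fun z => oneF (F.th (i 0) p.1.1 z)) y
        + pbF (q 1) (fun z => oneF (F.th (i 1) p.1.2 z)) y)
      (v := fun y => pbF (q 2) (fun z => oneF (F.th (i 2) p.2 z)) y)
      ((hdp 0 _).add (hdp 1 _)) (hdp 2 _)]
  rw [dF_add (u := fun y => pbF (q 0) (fun z => oneF (F.th (i 0) p.1.1 z)) y)
      (v := fun y => pbF (q 1) (fun z => oneF (F.th (i 1) p.1.2 z)) y) (hdp 0 _) (hdp 1 _)]
  rw [hdd 0, hdd 1, hdd 2]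

private theorem SurTot_lines (E : FlatBd Y ((ι × ι) × ι))
    (hs : E.s = (Ftot F Y q hq hqY).s)
    (hE : ∀ i, ∀ x ∈ Y.carrier, x ∈ (Ftot F Y q hq hqY).O i →
      E.e x = (Ftot F Y q hq hqY).E i x ∧
        ∀ a, E.b a x = (Ftot F Y q hq hqY).B i x (Y.P x (bv a)))
    (i : (Ftot F Y q hq hqY).I) :
    E.toBd.Lines ((Ftot F Y q hq hqY).O i) ((Ftot F Y q hq hqY).W i)
      ((fun l y => (Ftot F Y q hq hqY).th i l y)) (Ftot F Y q hq hqY).σ where
  openO := (Ftot F Y q hq hqY).openO i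
  smW := fun x hx => (Ftot F Y q hq hqY).smW i x hx
  smth := fun l v x hx => FrSys.sm_th (Ftot F Y q hq hqY) hx l v
  lin := fun l x v => FrSys.th_lin (Ftot F Y q hq hqY) i l x v
  WW := fun x hx => (Ftot F Y q hq hqY).WW i x hx
  e_eq := fun x hx hxO => (hE i x hx hxO).1
  sW := fun x hx => by
    have h := (Ftot F Y q hq hqY).sW i x hx
    rw [← hs] at h
    exact h
  A_eq := fun x hx hxO a => FrSys.toBd_A (Ftot F Y q hq hqY) E hs hE hx hxO a

theorem Ftot_strF (hσ : F.σ = sg8) (f : F.I → En 3 → FA 3)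
    (hf0 : ∀ i, ∀ p ∈ F.O i, dF (fun y => oneF (F.th i 0 y)) p = f i p)
    (hf1 : ∀ i, ∀ p ∈ F.O i, dF (fun y => oneF (F.th i 1 y)) p = -f i p)
    (hfd : ∀ i p, (f i p).IsDeg 2) (E : FlatBd Y ((ι × ι) × ι))
    (hs : E.s = (Ftot F Y q hq hqY).s)
    (hE : ∀ i, ∀ x ∈ Y.carrier, x ∈ (Ftot F Y q hq hqY).O i →
      E.e x = (Ftot F Y q hq hqY).E i x ∧
        ∀ a, E.b a x = (Ftot F Y q hq hqY).B i x (Y.P x (bv a))) {x : En m}
    (hx : x ∈ Y.carrier) (i : Fin 3 → F.I) (hi : ∀ j, q j x ∈ F.O (i j)) (n : ℕ) :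
    FAMap (Y.P x) (E.toBd.strF n x) = if n = 3 then
      (48 : ℂ) • FAMap (Y.P x)
        (pbF (q 0) (f (i 0)) x * pbF (q 1) (f (i 1)) x * pbF (q 2) (f (i 2)) x)
      else 0 := by
  have hxO : x ∈ (Ftot F Y q hq hqY).O ((i 0, i 1), i 2) := ⟨⟨hi 0, hi 1⟩, hi 2⟩
  have hL := SurTot_lines F Y q hq hqY E hs hE ((i 0, i 1), i 2)
  have h1 := hL.strF_lines hx hxO n
  rw [h1]
  set φ : Fin 3 → FA m := fun j => FAMap (Y.P x) (pbF (q j) (f (i j)) x) with hφ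
  have hdeg : ∀ j, (φ j).IsDeg (2 * 1) := fun j => isDeg_FAMap (isDeg_FAMap (hfd (i j) _) _) _
  have hcomm : ∀ j k, φ j * φ k = φ k * φ j := fun j k => IsDeg_even_comm (hdeg j) _
  have hsq : ∀ j, φ j * φ j = 0 := by
    intro j
    have h2 : f (i j) (q j x) * f (i j) (q j x) = 0 := by
      have h3 := isDeg_mul (hfd (i j) (q j x)) (hfd (i j) (q j x))
      rw [← isDeg_iff.1 h3]
      exact dgF_eq_zero (by norm_num) _
    simp only [hφ, pbF]
    rw [← FAMap_mul, ← FAMap_mul, h2, FAMap_zero, FAMap_zero]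
  have hσt : ∀ l : (Fin 2 × Fin 2) × Fin 2,
      (Ftot F Y q hq hqY).σ l = sg8 l.1.1 * sg8 l.1.2 * sg8 l.2 := by
    intro l
    change F.σ l.1.1 * F.σ l.1.2 * F.σ l.2 = _
    rw [hσ]
  have hsum : ∀ l : (Fin 2 × Fin 2) × Fin 2,
      FAMap (Y.P x) (dF (fun y => oneF ((Ftot F Y q hq hqY).th ((i 0, i 1), i 2) l y)) x)
        = sg8 l.1.1 • φ 0 + sg8 l.1.2 • φ 1 + sg8 l.2 • φ 2 := by
    intro l
    rw [Ftot_dF F Y q hq hqY hσ f hf0 hf1 i hi l, FAMap_add, FAMap_add, FAMap_smul, FAMap_smul,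
      FAMap_smul]
  have h4 := sur_alg8 (φ 0) (φ 1) (φ 2) (hcomm 0 1) (hcomm 0 2) (hcomm 1 2) (hsq 0) (hsq 1)
    (hsq 2) n
  have h5 : FAMap (Y.P x)
      (pbF (q 0) (f (i 0)) x * pbF (q 1) (f (i 1)) x * pbF (q 2) (f (i 2)) x)
        = φ 0 * φ 1 * φ 2 := by
    rw [FAMap_mul, FAMap_mul]
  rw [h5, ← h4]
  refine Finset.sum_congr rfl fun l _ => ?_
  rw [hσt l]
  congr 2
  exact hsum l

theorem Ftot_ch (hσ : F.σ = sg8) (f : F.I → En 3 → FA 3)
    (hf0 : ∀ i, ∀ p ∈ F.O i, dF (fun y => oneF (F.th i 0 y)) p = f i p)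
    (hf1 : ∀ i, ∀ p ∈ F.O i, dF (fun y => oneF (F.th i 1 y)) p = -f i p)
    (hfd : ∀ i p, (f i p).IsDeg 2) (E : FlatBd Y ((ι × ι) × ι))
    (hs : E.s = (Ftot F Y q hq hqY).s)
    (hE : ∀ i, ∀ x ∈ Y.carrier, x ∈ (Ftot F Y q hq hqY).O i →
      E.e x = (Ftot F Y q hq hqY).E i x ∧
        ∀ a, E.b a x = (Ftot F Y q hq hqY).B i x (Y.P x (bv a))) {x : En m}
    (hx : x ∈ Y.carrier) (i : Fin 3 → F.I) (hi : ∀ j, q j x ∈ F.O (i j)) :
    FAMap (Y.P x) (E.toBd.ch x) = (8 : ℂ) • FAMap (Y.P x)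
      (((Complex.I / (2 * Real.pi)) ^ 3 / 48) • E.toBd.strF 3 x) := by
  have h := fun n => Ftot_strF F Y q hq hqY hσ f hf0 hf1 hfd E hs hE hx i hi n
  unfold Bd.ch
  rw [FAMap_sum, Finset.sum_eq_single 3]
  · rw [FAMap_smul, FAMap_smul, smul_smul]
    congr 1
    rw [show (Nat.factorial 3 : ℂ) = 6 by norm_num [Nat.factorial]]
    ring
  · intro n _ hn
    rw [FAMap_smul, h n, if_neg hn, smul_zero]
  · intro h3
    exact absurd (Finset.mem_range.2 (by norm_num)) h3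

end

end Pool.Agent.EXO
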