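import Mathlib
import Pool.Agent.EXO.SurF0C
import Pool.Agent.EXO.SurTot
import Pool.Agent.EXO.SurN
import Pool.Agent.EXO.SurNP
import Pool.Agent.EXO.SurSgC

/-!
# EXO / SurNPN: no parallel sections over `N`

PROOF of `N_noPar`.  `noPar` for `F = Ftot w.F0 Y q hq hqY`, `i = (((2, false), (4, false)), (4, false))`,
`j = (((2, true), (4, false)), (4, false))`.  Loop in the surface: `γ t = (-1 + cos t / 2, sin t / 2, 0)`; `b0 = (3, 0, 0)`; both in `Sg`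
(`Sg_of_circle`).  `Γ t = K.iota ![γ t, b0, b0] 0 ∈ K.N` (`N_eq`), continuous (`smooth_iota`); `K.pi 0 (Γ t) = γ t`, `K.pi 1 = K.pi 2 = b0`
(`iota_mem`).  `S₁ = Γ '' Icc π (2π)` (there `sin t ≤ 0`, so `γ t ∈ fO (2, false)`), `S₂ = Γ '' Icc 0 π` (`sin t ≥ 0`); preconnected;
`b0 ∈ fO (4, false)`.  `p = Γ 0 = Γ (2π)`, `γ = (-1/2, 0, 0)`; `q' = Γ π`, `γ = (-3/2, 0, 0)`.
Transition: `tens_Φ` twice and `(F.pb r ..).Φ i x = F.Φ i (r x)` (by `rfl`): `Φ_j = (Φ (2,true) (q 0 x) ⊗ₖ Φ (4,false) (q 1 x)) ⊗ₖ Φ (4,false) (q 2 x)`; by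
`fW_mul_G` and `side_eq` (SurF0B): `Φ (2,true) x = Φ (2,false) x * c`, `c = (fS (2, true) (x 0)).map ofReal`, `fS (2, true) = mS`:
`mS (-1/2) = mE1 1` (`mS_mid`), `mS (-3/2) = 1` (`mS_left`).  So `cp = (c ⊗ₖ 1) ⊗ₖ 1` with `c = (mE1 1).map ofReal`, `cq = 1 = (1 ⊗ₖ 1) ⊗ₖ 1`
(`mul_kronecker_mul`), `cp - cq = ((c - 1) ⊗ₖ 1) ⊗ₖ 1`, whose determinant is a power of `det (c - 1) = 1 * (-1/2) ≠ 0` (`det_kronecker`).
-/

set_option autoImplicit false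
set_option maxSynthPendingDepth 3

open Set Filter Topology Matrix
open scoped ContDiff Kronecker

namespace Pool.Agent.EXO

private noncomputable def SurNPN_g (t : ℝ) : En 3 := !₂[-1 + Real.cos t / 2, Real.sin t / 2, 0]

private noncomputable def SurNPN_b : En 3 := !₂[3, 0, 0]

private theorem SurNPN_g0 (t : ℝ) : SurNPN_g t 0 = -1 + Real.cos t / 2 := rfl

private theorem SurNPN_g1 (t : ℝ) : SurNPN_g t 1 = Real.sin t / 2 := rfl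

private theorem SurNPN_g2 (t : ℝ) : SurNPN_g t 2 = 0 := rfl

private theorem SurNPN_b0 : SurNPN_b 0 = 3 := rfl

private theorem SurNPN_b1 : SurNPN_b 1 = 0 := rfl

private theorem SurNPN_b2 : SurNPN_b 2 = 0 := rfl

private theorem SurNPN_gc (t : ℝ) : (SurNPN_g t 0 + 1) ^ 2 + (SurNPN_g t 1) ^ 2 = 1 / 4 := by
  rw [SurNPN_g0, SurNPN_g1]
  have := Real.sin_sq_add_cos_sq t
  nlinarith

private theorem SurNPN_g_mem (t : ℝ) : SurNPN_g t ∈ Sg :=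
  Sg_of_circle (by rw [SurNPN_g2]; norm_num) (Or.inr (Or.inr (SurNPN_gc t)))

private theorem SurNPN_b_mem : SurNPN_b ∈ Sg :=
  Sg_of_circle (by rw [SurNPN_b2]; norm_num) (Or.inl (by rw [SurNPN_b0, SurNPN_b1]; norm_num))

private theorem SurNPN_b_O : SurNPN_b ∈ fO (4, false) := by
  have h : SurNPN_b ∈ fO (4, false) ↔ (|SurNPN_b 2| < 1 ∧
      25 / 4 < (SurNPN_b 0) ^ 2 + (SurNPN_b 1) ^ 2) ∧ SurNPN_b 1 < 1 / 4 := Iff.rfl
  rw [h, SurNPN_b0, SurNPN_b1, SurNPN_b2]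
  norm_num

private theorem SurNPN_g_O (t : ℝ) (h : Real.sin t ≤ 0) : SurNPN_g t ∈ fO (2, false) := by
  have h' : SurNPN_g t ∈ fO (2, false) ↔ (|SurNPN_g t 2| < 1 ∧
      (SurNPN_g t 0 + 1) ^ 2 + (SurNPN_g t 1) ^ 2 < 9 / 16) ∧ SurNPN_g t 1 < 1 / 4 := Iff.rfl
  rw [h', SurNPN_gc, SurNPN_g1, SurNPN_g2]
  refine ⟨by norm_num, by linarith⟩

private theorem SurNPN_g_O' (t : ℝ) (h : 0 ≤ Real.sin t) : SurNPN_g t ∈ fO (2, true) := by
  have h' : SurNPN_g t ∈ fO (2, true) ↔ (|SurNPN_g t 2| < 1 ∧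
      (SurNPN_g t 0 + 1) ^ 2 + (SurNPN_g t 1) ^ 2 < 9 / 16) ∧ -1 / 4 < SurNPN_g t 1 := Iff.rfl
  rw [h', SurNPN_gc, SurNPN_g1, SurNPN_g2]
  refine ⟨by norm_num, by linarith⟩

private theorem SurNPN_Φ (w : Wnd) {p : En 3} (hp : p ∈ Sg) (h1 : p ∈ fO (2, true))
    (h2 : p ∈ fO (2, false)) : w.F0.Φ ((2, true) : FI) p =
      w.F0.Φ ((2, false) : FI) p * (mS (p 0)).map (fun t => (t : ℂ)) := by
  have h3 := w.side_eq 2 hp h1 h2
  have h4 : fS (2, true) (p 0) = mS (p 0) := by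
    unfold fS
    simp
  rw [h4] at h3
  change w.fW (2, true) p * w.fG (2, true) p = w.fW (2, false) p * w.fG (2, false) p * _
  rw [w.fW_mul_G, w.fW_mul_G, h3]
  refine Matrix.ext fun a l => ?_
  simp only [Matrix.mul_apply, Matrix.of_apply, Matrix.map_apply]
  by_cases ha : a.1 = 0
  · simp only [ha, if_true]
  · simp only [ha, if_false, map_sum, map_mul, Complex.conj_ofReal]

private theorem SurNPN_kron {ι ι' ι'' : Type} [Fintype ι] [Fintype ι'] [Fintype ι'']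
    (A : Matrix ι (Fin 2) ℂ) (B : Matrix ι' (Fin 2) ℂ) (D : Matrix ι'' (Fin 2) ℂ)
    (c : Matrix (Fin 2) (Fin 2) ℂ) :
    ((A * c) ⊗ₖ B) ⊗ₖ D = ((A ⊗ₖ B) ⊗ₖ D) *
      ((c ⊗ₖ (1 : Matrix (Fin 2) (Fin 2) ℂ)) ⊗ₖ (1 : Matrix (Fin 2) (Fin 2) ℂ)) := by
  rw [← mul_kronecker_mul, ← mul_kronecker_mul, Matrix.mul_one, Matrix.mul_one]

private theorem SurNPN_tot (w : Wnd) (Y : Geo 6 7) (q : Fin 3 → En 7 → En 3)
    (hq : ∀ j, ContDiff ℝ ∞ (q j)) (hqY : ∀ j, ∀ x ∈ Y.carrier, q j x ∈ Sg) (a b c : FI)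
    (x : En 7) : (Ftot w.F0 Y q hq hqY).Φ (((a : FI), (b : FI)), (c : FI)) x =
      (w.F0.Φ (a : FI) (q 0 x) ⊗ₖ w.F0.Φ (b : FI) (q 1 x)) ⊗ₖ w.F0.Φ (c : FI) (q 2 x) := by
  have h1 := FrSys.tens_Φ ((w.F0.pb (C' := Y.carrier) (q 0) (hq 0) (hqY 0)).tens
    (w.F0.pb (C' := Y.carrier) (q 1) (hq 1) (hqY 1)))
    (w.F0.pb (C' := Y.carrier) (q 2) (hq 2) (hqY 2)) ((a : FI), (b : FI)) (c : FI) x
  have h2 := FrSys.tens_Φ (w.F0.pb (C' := Y.carrier) (q 0) (hq 0) (hqY 0))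
    (w.F0.pb (C' := Y.carrier) (q 1) (hq 1) (hqY 1)) (a : FI) (b : FI) x
  rw [h2] at h1
  exact h1

private theorem SurNPN_eq (w : Wnd) (Y : Geo 6 7) (q : Fin 3 → En 7 → En 3)
    (hq : ∀ j, ContDiff ℝ ∞ (q j)) (hqY : ∀ j, ∀ x ∈ Y.carrier, q j x ∈ Sg) {x : En 7}
    (h0 : q 0 x ∈ Sg) (h1 : q 0 x ∈ fO (2, true)) (h2 : q 0 x ∈ fO (2, false)) :
    (Ftot w.F0 Y q hq hqY).Φ ((((2, true) : FI), ((4, false) : FI)), ((4, false) : FI)) x =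
      (Ftot w.F0 Y q hq hqY).Φ ((((2, false) : FI), ((4, false) : FI)), ((4, false) : FI)) x *
      ((((mS (q 0 x 0)).map (fun t => (t : ℂ))) ⊗ₖ (1 : Matrix (Fin 2) (Fin 2) ℂ)) ⊗ₖ
        (1 : Matrix (Fin 2) (Fin 2) ℂ)) := by
  have e1 := SurNPN_tot w Y q hq hqY (2, true) (4, false) (4, false) x
  have e2 := SurNPN_tot w Y q hq hqY (2, false) (4, false) (4, false) x
  refine e1.trans ?_
  rw [SurNPN_Φ w h0 h1 h2, SurNPN_kron]
  exact congrArg (· * _) e2.symm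

theorem N_noPar (w : Wnd) (K : SCol Sg) (Y : Geo 6 7) (hY : Y.carrier = K.N)
    (q : Fin 3 → En 7 → En 3) (hq : ∀ j, ContDiff ℝ ∞ (q j))
    (hqY : ∀ j, ∀ x ∈ Y.carrier, q j x ∈ Sg) (hqN : ∀ j, ∀ n ∈ K.N, q j n = K.pi j n)
    (E : FlatBd Y (((Fin 2 × Fin 2) × (Fin 2 × Fin 2)) × (Fin 2 × Fin 2)))
    (hE : ∀ i, ∀ x ∈ Y.carrier, x ∈ (Ftot w.F0 Y q hq hqY).O i →
      E.e x = (Ftot w.F0 Y q hq hqY).E i x ∧
        ∀ a, E.b a x = (Ftot w.F0 Y q hq hqY).B i x (Y.P x (bv a))) : E.NoPar := by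
  obtain ⟨Γ, hΓ⟩ : ∃ Γ : ℝ → En 7, Γ = fun t =>
    K.iota ![SurNPN_g t, SurNPN_b, SurNPN_b] 0 := ⟨_, rfl⟩
  have hm : ∀ t, ∀ j, ![SurNPN_g t, SurNPN_b, SurNPN_b] j ∈ Sg := by
    intro t j
    fin_cases j
    · exact SurNPN_g_mem t
    · exact SurNPN_b_mem
    · exact SurNPN_b_mem
  have hN : ∀ t, Γ t ∈ K.N ∧ q 0 (Γ t) = SurNPN_g t ∧ q 1 (Γ t) = SurNPN_b ∧
      q 2 (Γ t) = SurNPN_b := by
    intro t
    obtain ⟨h1, h2, h3⟩ := K.iota_mem (hm t) (t := 0) (by norm_num)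
    have h4 : Γ t ∈ K.N := by rw [hΓ]; exact ⟨h1, h3⟩
    refine ⟨h4, ?_, ?_, ?_⟩
    · rw [hqN 0 _ h4, hΓ]; exact h2 0
    · rw [hqN 1 _ h4, hΓ]; exact h2 1
    · rw [hqN 2 _ h4, hΓ]; exact h2 2
  have hgc : Continuous SurNPN_g := by
    unfold SurNPN_g
    refine (PiLp.continuous_toLp 2 _).comp (continuous_pi fun i => ?_)
    fin_cases i
    · change Continuous fun t : ℝ => -1 + Real.cos t / 2
      fun_prop
    · change Continuous fun t : ℝ => Real.sin t / 2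
      fun_prop
    · exact continuous_const
  have hΓc : Continuous Γ := by
    rw [hΓ]
    have h1 : Continuous fun t : ℝ => (![SurNPN_g t, SurNPN_b, SurNPN_b] : Fin 3 → En 3) := by
      refine continuous_pi fun j => ?_
      fin_cases j
      · exact hgc
      · exact continuous_const
      · exact continuous_const
    have h2 : Continuous fun _ : ℝ => (0 : ℝ) := continuous_const
    exact K.smooth_iota.continuous.comp (h1.prodMk h2)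
  have hper : Γ (2 * Real.pi) = Γ 0 := by
    have h1 : SurNPN_g (2 * Real.pi) = SurNPN_g 0 := by
      unfold SurNPN_g
      simp
    rw [hΓ]
    simp only [h1]
  have hpi := Real.pi_pos
  refine FrSys.noPar (Ftot w.F0 Y q hq hqY) E hE ?_
    (i := ((((2, false) : FI), ((4, false) : FI)), ((4, false) : FI)))
    (j := ((((2, true) : FI), ((4, false) : FI)), ((4, false) : FI)))
    (S₁ := Γ '' Icc Real.pi (2 * Real.pi)) (S₂ := Γ '' Icc 0 Real.pi) ?_ ?_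
    (isPreconnected_Icc.image _ hΓc.continuousOn) (isPreconnected_Icc.image _ hΓc.continuousOn)
    (p := Γ 0) (q := Γ Real.pi)
    ⟨⟨2 * Real.pi, ⟨by linarith, le_rfl⟩, hper⟩, ⟨0, ⟨le_rfl, hpi.le⟩, rfl⟩⟩
    ⟨⟨Real.pi, ⟨le_rfl, by linarith⟩, rfl⟩, ⟨Real.pi, ⟨hpi.le, le_rfl⟩, rfl⟩⟩
    (cp := ((((mS (SurNPN_g 0 0)).map (fun t => (t : ℂ))) ⊗ₖ (1 : Matrix (Fin 2) (Fin 2) ℂ)) ⊗ₖ
      (1 : Matrix (Fin 2) (Fin 2) ℂ)))
    (cq := ((((mS (SurNPN_g Real.pi 0)).map (fun t => (t : ℂ))) ⊗ₖ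
      (1 : Matrix (Fin 2) (Fin 2) ℂ)) ⊗ₖ (1 : Matrix (Fin 2) (Fin 2) ℂ))) ?_ ?_ ?_
  · rw [hY]
    exact K.N_connected Sg_connected
  · rintro _ ⟨t, ht, rfl⟩
    obtain ⟨h1, h2, h3, h4⟩ := hN t
    refine ⟨by rw [hY]; exact h1, ⟨?_, ?_⟩, ?_⟩
    · change q 0 (Γ t) ∈ fO (2, false)
      rw [h2]
      refine SurNPN_g_O t ?_
      have h5 := Real.sin_nonneg_of_nonneg_of_le_pi (x := t - Real.pi) (by linarith [ht.1])
        (by linarith [ht.2])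
      rw [Real.sin_sub_pi] at h5
      linarith
    · change q 1 (Γ t) ∈ fO (4, false)
      rw [h3]
      exact SurNPN_b_O
    · change q 2 (Γ t) ∈ fO (4, false)
      rw [h4]
      exact SurNPN_b_O
  · rintro _ ⟨t, ht, rfl⟩
    obtain ⟨h1, h2, h3, h4⟩ := hN t
    refine ⟨by rw [hY]; exact h1, ⟨?_, ?_⟩, ?_⟩
    · change q 0 (Γ t) ∈ fO (2, true)
      rw [h2]
      exact SurNPN_g_O' t (Real.sin_nonneg_of_nonneg_of_le_pi ht.1 ht.2)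
    · change q 1 (Γ t) ∈ fO (4, false)
      rw [h3]
      exact SurNPN_b_O
    · change q 2 (Γ t) ∈ fO (4, false)
      rw [h4]
      exact SurNPN_b_O
  · obtain ⟨h1, h2, h3, h4⟩ := hN 0
    have h5 := SurNPN_eq w Y q hq hqY (x := Γ 0) (by rw [h2]; exact SurNPN_g_mem 0)
      (by rw [h2]; exact SurNPN_g_O' 0 (by simp)) (by rw [h2]; exact SurNPN_g_O 0 (by simp))
    rw [h2] at h5
    exact h5
  · obtain ⟨h1, h2, h3, h4⟩ := hN Real.pi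
    have h5 := SurNPN_eq w Y q hq hqY (x := Γ Real.pi) (by rw [h2]; exact SurNPN_g_mem _)
      (by rw [h2]; exact SurNPN_g_O' _ (by simp)) (by rw [h2]; exact SurNPN_g_O _ (by simp))
    rw [h2] at h5
    exact h5
  · have e1 : SurNPN_g 0 0 = -1 / 2 := by rw [SurNPN_g0, Real.cos_zero]; norm_num
    have e2 : SurNPN_g Real.pi 0 = -3 / 2 := by rw [SurNPN_g0, Real.cos_pi]; norm_num
    rw [e1, e2, mS_mid (by norm_num) (by norm_num), mS_left (by norm_num)]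
    have e3 : ((((mE1 1).map (fun t => (t : ℂ))) ⊗ₖ (1 : Matrix (Fin 2) (Fin 2) ℂ)) ⊗ₖ
        (1 : Matrix (Fin 2) (Fin 2) ℂ)) -
        ((((1 : Matrix (Fin 2) (Fin 2) ℝ).map (fun t => (t : ℂ))) ⊗ₖ
          (1 : Matrix (Fin 2) (Fin 2) ℂ)) ⊗ₖ (1 : Matrix (Fin 2) (Fin 2) ℂ)) =
        ((((!![1, 0; 0, -1 / 2] : Matrix (Fin 2) (Fin 2) ℂ)) ⊗ₖ
          (1 : Matrix (Fin 2) (Fin 2) ℂ)) ⊗ₖ (1 : Matrix (Fin 2) (Fin 2) ℂ)) := by
      have e4 : (!![1, 0; 0, -1 / 2] : Matrix (Fin 2) (Fin 2) ℂ) =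
          (mE1 1).map (fun t => (t : ℂ)) - (1 : Matrix (Fin 2) (Fin 2) ℝ).map (fun t => (t : ℂ)) := by
        ext i j
        fin_cases i <;> fin_cases j <;> simp [mE1] <;> norm_num
      rw [e4]
      ext i j
      simp only [Matrix.sub_apply, Matrix.kroneckerMap_apply]
      ring
    rw [e3, Matrix.det_kronecker, Matrix.det_kronecker]
    simp [Matrix.det_fin_two]

end Pool.Agent.EXO
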