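import Mathlib

/-!
# EXO / SurGl: gluing smooth functions near a compact set

PROOF of `sur_glue`.  The sets `U p`, `p ∈ D`, cover the compact set `D`; choose a finite set `t ⊆ D` such that the
`U p`, `p ∈ t`, cover `D`, and smooth functions `χ p : X → ℝ` (`p ∈ t`) with `tsupport (χ p) ⊆ U p` and
`∑ p ∈ t, χ p = 1` on a neighbourhood of `D`.  (Take a compact neighbourhood `D'` of `D` inside the union
(`exists_compact_between`) and `SmoothPartitionOfUnity.exists_isSubordinate` for the closed set `D'` and the cover, as in the file SuExt of the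
project; then the sum is one on `D'`, a neighbourhood of every point of `D`.)
`g z := ∑ p ∈ t, χ p z • f p z`.  It is smooth: at a point `z ∈ U p` both factors are smooth, at a point outside
`tsupport (χ p)` the product vanishes in a neighbourhood.
Let `q ∈ D`, `r ∈ D`, `r ∈ U q`.  For `z ∈ A` near `r`: if `r ∈ tsupport (χ p)`, then `r ∈ U p`, so `f p z = f q z`;
if `r ∉ tsupport (χ p)` then `χ p z = 0`.  So `g z = ∑ χ p z • f q z = f q z`.
-/

set_option autoImplicit false
set_option maxSynthPendingDepth 3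

open Set Filter Topology
open scoped ContDiff

namespace Pool.Agent.EXO

theorem sur_glue {X F : Type} [NormedAddCommGroup X] [NormedSpace ℝ X] [FiniteDimensional ℝ X]
    [NormedAddCommGroup F] [NormedSpace ℝ F] {D A : Set X} (hD : IsCompact D)
    (U : X → Set X) (f : X → X → F) (hU : ∀ p ∈ D, IsOpen (U p) ∧ p ∈ U p)
    (hf : ∀ p ∈ D, ContDiffOn ℝ ∞ (f p) (U p))
    (hc : ∀ p ∈ D, ∀ q ∈ D, ∀ r ∈ D, r ∈ U p → r ∈ U q → ∀ᶠ z in 𝓝[A] r, f p z = f q z) :
    ∃ g : X → F, ContDiff ℝ ∞ g ∧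
      ∀ q ∈ D, ∀ r ∈ D, r ∈ U q → ∀ᶠ z in 𝓝[A] r, g z = f q z := by
  classical
  obtain ⟨t, htD, htc⟩ := hD.elim_nhds_subcover U fun x hx => (hU x hx).1.mem_nhds (hU x hx).2
  have hopen : IsOpen (⋃ x ∈ t, U x) := isOpen_biUnion fun x hx => (hU x (htD x hx)).1
  obtain ⟨L, hLc, hDL, hLU⟩ := exists_compact_between hD hopen htc
  obtain ⟨χ, hχ⟩ := SmoothPartitionOfUnity.exists_isSubordinate (modelWithCornersSelf ℝ X)
    hLc.isClosed (fun i : {p // p ∈ t} => U i.1) (fun i => (hU _ (htD _ i.2)).1)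
    (fun x hx => by
      obtain ⟨p, hp, hxp⟩ := mem_iUnion₂.1 (hLU hx)
      exact mem_iUnion.2 ⟨⟨p, hp⟩, hxp⟩)
  have hχs : ∀ i, ContDiff ℝ ∞ (χ i) := fun i => contMDiff_iff_contDiff.1 (χ i).contMDiff
  have hχ0 : ∀ i : {p // p ∈ t}, ∀ z, z ∉ U i.1 → ∀ᶠ y in 𝓝 z, χ i y = 0 := by
    intro i z hz
    have h1 : z ∉ tsupport (χ i) := fun h => hz (hχ i h)
    exact notMem_tsupport_iff_eventuallyEq.1 h1
  refine ⟨fun z => ∑ i : {p // p ∈ t}, χ i z • f i.1 z, ?_, ?_⟩
  · refine ContDiff.sum fun i _ => ?_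
    rw [contDiff_iff_contDiffAt]
    intro z
    by_cases hz : z ∈ U i.1
    · exact (hχs i).contDiffAt.smul ((hf _ (htD _ i.2)).contDiffAt ((hU _ (htD _ i.2)).1.mem_nhds hz))
    · refine (contDiffAt_const (c := (0 : F))).congr_of_eventuallyEq ?_
      filter_upwards [hχ0 i z hz] with y hy
      rw [hy, zero_smul]
  · intro q hq r hr hrq
    have h1 : ∀ i : {p // p ∈ t}, ∀ᶠ z in 𝓝[A] r, χ i z • f i.1 z = χ i z • f q z := by
      intro i
      by_cases hri : r ∈ U i.1
      · filter_upwards [hc i.1 (htD _ i.2) q hq r hr hri hrq] with z hz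
        rw [hz]
      · filter_upwards [nhdsWithin_le_nhds (hχ0 i r hri)] with z hz
        rw [hz, zero_smul, zero_smul]
    have h2 : ∀ᶠ z in 𝓝[A] r, z ∈ L :=
      nhdsWithin_le_nhds (mem_interior_iff_mem_nhds.1 (hDL hr))
    filter_upwards [eventually_all.2 h1, h2] with z hz hzL
    have h3 := χ.sum_eq_one hzL
    rw [finsum_eq_sum_of_fintype] at h3
    calc ∑ i : {p // p ∈ t}, χ i z • f i.1 z = ∑ i : {p // p ∈ t}, χ i z • f q z :=
          Finset.sum_congr rfl fun i _ => hz i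
      _ = f q z := by rw [← Finset.sum_smul, h3, one_smul]

end Pool.Agent.EXO
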