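import Mathlib
import Pool.Agent.EXO.SurFlat
import Pool.Agent.EXO.SurGl

/-!
# EXO / SurPT: parallel transport for close points

PROOFS.
* `exists_T`: `sur_glue` for `X = En m × En m`, `F = Matrix ι ι ℂ`, `D = {(x, x) | x ∈ Y}`, `A = Y ×ˢ Y`,
  `U (x, _) = O i ×ˢ O i` with `i = i x` chosen such that `x ∈ O i`, `f (x, _) (y, z) = Φ_i y * Ψ_i z`; the compatibility is
  `ΦΨ_trans`.  Then for every `w ∈ Y` and every `j` with `w ∈ O j`: `T p = Φ_j p.1 * Ψ_j p.2` for `p ∈ Y ×ˢ Y` near `(w, w)`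
  (again `ΦΨ_trans`, from `i w` to `j`).
* `exists_δ`: for `w ∈ Y` choose `j` with `w ∈ O j` and `r w > 0` such that `ball w (2 r) ⊆ O j` and
  `T p = Φ_j p.1 * Ψ_j p.2` for all `p ∈ Y ×ˢ Y` with `p.1, p.2 ∈ ball w (2 r)`.  By compactness finitely many balls
  `ball w (r w)` cover `Y`; `δ` = the smallest of the radii (`lebesgue_number_lemma_of_metric` can be used).
  For `x, y ∈ Y` with `dist x y < δ` both points lie in one of the balls `ball w (2 r w)`, an open set, which gives the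
  last two parts.
* `exists_isPT`: `left`, `right`, `diag`, `inv` from `T x y = Φ x Ψ y` and `E = Φ Ψ`, `Ψ Φ = 1`, `Ψ E = Ψ`, `E Φ = Φ`.
  `par`: `z ↦ T z y` and `z ↦ Φ_i z * Ψ_i y` agree on `Y` near `x`, so
  `fderiv ℝ (fun z => T z y) x v = dmat Φ_i x v * Ψ_i y` (`dmat_tan`, `fderiv_eq_dmat`, `v = P v`), and
  `E (∂_vΦ Ψ(y) - E ∂_vΦ Ψ(x) Φ(x) Ψ(y)) = 0` (`B_sum`).  `par'`: the same with `∂_v Ψ Φ + Ψ ∂_vΦ = 0`:
  `(Φ(x) ∂_vΨ(y) + Φ(x) Ψ(y) E ∂_vΦ Ψ) E = Φ(x) (∂_vΨ + Ψ ∂_vΦ Ψ) Φ Ψ = 0` at `y`.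
-/

set_option autoImplicit false
set_option maxSynthPendingDepth 3

open Set Filter Topology Matrix
open scoped ContDiff

namespace Pool.Agent.EXO

namespace FrSys

variable {m k : ℕ} {ι κ : Type} [Fintype ι] [DecidableEq ι] [Fintype κ]
  [DecidableEq κ] {Y : Geo k m} (F : FrSys Y.carrier ι κ)

private theorem SurPT_smooth {i : F.I} {z : En m × En m} (h1 : z.1 ∈ F.O i) (h2 : z.2 ∈ F.O i) :
    ContDiffAt ℝ ∞ (fun z : En m × En m => F.Φ i z.1 * F.Ψ i z.2) z := by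
  refine contDiffAt_pi.2 fun a => ?_
  refine contDiffAt_pi.2 fun b => ?_
  have e : (fun z : En m × En m => (F.Φ i z.1 * F.Ψ i z.2) a b) =
      fun z : En m × En m => ∑ k, F.Φ i z.1 a k * F.Ψ i z.2 k b := by
    funext z
    rw [Matrix.mul_apply]
  rw [e]
  refine ContDiffAt.sum fun k _ => ContDiffAt.mul ?_ ?_
  · exact ContDiffAt.comp (g := fun y => F.Φ i y a k) z (F.smΦ h1 a k) contDiffAt_fst
  · exact ContDiffAt.comp (g := fun y => F.Ψ i y k b) z (F.smΨ h2 k b) contDiffAt_snd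

theorem exists_T : ∃ T : En m → En m → Matrix ι ι ℂ,
    (ContDiff ℝ ∞ fun p : En m × En m => T p.1 p.2) ∧
    ∀ w ∈ Y.carrier, ∀ i, w ∈ F.O i → ∀ᶠ p : En m × En m in 𝓝[Y.carrier ×ˢ Y.carrier] (w, w),
      T p.1 p.2 = F.Φ i p.1 * F.Ψ i p.2 := by
  by_cases hI : Nonempty F.I
  · have hch : ∀ x : En m, ∃ i : F.I, x ∈ Y.carrier → x ∈ F.O i := by
      intro x
      by_cases hx : x ∈ Y.carrier
      · obtain ⟨i, hi⟩ := F.cover x hx
        exact ⟨i, fun _ => hi⟩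
      · exact ⟨hI.some, fun h => absurd h hx⟩
    choose c hc using hch
    obtain ⟨g, hg1, hg2⟩ := sur_glue (D := (fun x : En m => (x, x)) '' Y.carrier)
      (A := Y.carrier ×ˢ Y.carrier) (Y.compact.image (by fun_prop))
      (fun p => F.O (c p.1) ×ˢ F.O (c p.1))
      (fun p z => F.Φ (c p.1) z.1 * F.Ψ (c p.1) z.2)
      (by
        rintro _ ⟨x, hx, rfl⟩
        exact ⟨(F.openO _).prod (F.openO _), ⟨hc x hx, hc x hx⟩⟩)
      (fun p _ z hz => (F.SurPT_smooth hz.1 hz.2).contDiffWithinAt)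
      (by
        intro p _ q _ r hr hrp hrq
        obtain ⟨x, hx, rfl⟩ := hr
        exact F.ΦΨ_trans hx hrq.1 hrp.1)
    refine ⟨fun x y => g (x, y), hg1, fun w hw i hi => ?_⟩
    have h1 := hg2 (w, w) ⟨w, hw, rfl⟩ (w, w) ⟨w, hw, rfl⟩ ⟨hc w hw, hc w hw⟩
    have h2 := F.ΦΨ_trans hw hi (hc w hw)
    filter_upwards [h1, h2] with p hp1 hp2
    show g (p.1, p.2) = _
    rw [← hp2]
    exact hp1
  · exact ⟨fun _ _ => 0, contDiff_const, fun w _ i _ => absurd ⟨i⟩ hI⟩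

theorem exists_δ {T : En m → En m → Matrix ι ι ℂ}
    (hT : ∀ w ∈ Y.carrier, ∀ i, w ∈ F.O i →
      ∀ᶠ p : En m × En m in 𝓝[Y.carrier ×ˢ Y.carrier] (w, w),
        T p.1 p.2 = F.Φ i p.1 * F.Ψ i p.2) :
    ∃ δ : ℝ, 0 < δ ∧ ∀ x ∈ Y.carrier, ∀ y ∈ Y.carrier, dist x y < δ →
      ∃ i, x ∈ F.O i ∧ y ∈ F.O i ∧ T y x = F.Φ i y * F.Ψ i x ∧
        ∀ᶠ p : En m × En m in 𝓝[Y.carrier ×ˢ Y.carrier] (x, y),
          T p.1 p.2 = F.Φ i p.1 * F.Ψ i p.2 := by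
  have hr : ∀ w : Y.carrier, ∃ (i : F.I) (r : ℝ), 0 < r ∧ Metric.ball (w : En m) r ⊆ F.O i ∧
      ∀ x ∈ Y.carrier, ∀ y ∈ Y.carrier, x ∈ Metric.ball (w : En m) r →
        y ∈ Metric.ball (w : En m) r → T x y = F.Φ i x * F.Ψ i y := by
    intro w
    obtain ⟨i, hi⟩ := F.cover w w.2
    have h1 := hT w w.2 i hi
    rw [eventually_nhdsWithin_iff, Metric.eventually_nhds_iff] at h1
    obtain ⟨ε, hε, h2⟩ := h1
    obtain ⟨ε', hε', h3⟩ := Metric.isOpen_iff.1 (F.openO i) w hi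
    refine ⟨i, min ε ε', lt_min hε hε', ?_, ?_⟩
    · exact (Metric.ball_subset_ball (min_le_right _ _)).trans h3
    · intro x hx y hy hxb hyb
      have h4 : dist (x, y) ((w : En m), (w : En m)) < ε := by
        rw [Prod.dist_eq, max_lt_iff]
        exact ⟨lt_of_lt_of_le hxb (min_le_left _ _), lt_of_lt_of_le hyb (min_le_left _ _)⟩
      exact h2 h4 ⟨hx, hy⟩
  choose ix r hr0 hrO hrT using hr
  obtain ⟨δ, hδ, h⟩ := lebesgue_number_lemma_of_metric (c := fun w : Y.carrier =>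
    Metric.ball (w : En m) (r w)) Y.compact (fun w => Metric.isOpen_ball)
    (fun x hx => Set.mem_iUnion.2 ⟨⟨x, hx⟩, Metric.mem_ball_self (hr0 _)⟩)
  refine ⟨δ, hδ, fun x hx y hy hxy => ?_⟩
  obtain ⟨w, hw⟩ := h x hx
  have h1 : x ∈ Metric.ball (w : En m) (r w) := hw (Metric.mem_ball_self hδ)
  have h2 : y ∈ Metric.ball (w : En m) (r w) := hw (by rw [Metric.mem_ball, dist_comm]; exact hxy)
  refine ⟨ix w, hrO w h1, hrO w h2, hrT w y hy x hx h2 h1, ?_⟩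
  have h3 : (Metric.ball (w : En m) (r w)) ×ˢ (Metric.ball (w : En m) (r w)) ∈ 𝓝 (x, y) :=
    (Metric.isOpen_ball.prod Metric.isOpen_ball).mem_nhds ⟨h1, h2⟩
  rw [eventually_nhdsWithin_iff]
  filter_upwards [h3] with p hp hpY
  exact hrT w p.1 hpY.1 p.2 hpY.2 hp.1 hp.2

theorem exists_isPT (E : FlatBd Y ι) (hE : ∀ i, ∀ x ∈ Y.carrier, x ∈ F.O i →
    E.e x = F.E i x ∧ ∀ a, E.b a x = F.B i x (Y.P x (bv a))) :
    ∃ (δ : ℝ) (T : En m → En m → Matrix ι ι ℂ), E.IsPT δ T := by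
  obtain ⟨T, hTs, hT⟩ := F.exists_T
  obtain ⟨δ, hδ, h⟩ := F.exists_δ hT
  have key : ∀ x ∈ Y.carrier, ∀ y ∈ Y.carrier, dist x y < δ → ∃ i, x ∈ F.O i ∧ y ∈ F.O i ∧
      T y x = F.Φ i y * F.Ψ i x ∧ T x y = F.Φ i x * F.Ψ i y ∧
      (∀ᶠ z in 𝓝[Y.carrier] x, T z y = F.Φ i z * F.Ψ i y) ∧
      (∀ᶠ z in 𝓝[Y.carrier] y, T x z = F.Φ i x * F.Ψ i z) := by
    intro x hx y hy hxy
    obtain ⟨i, h1, h2, h3, h4⟩ := h x hx y hy hxy
    refine ⟨i, h1, h2, h3, h4.self_of_nhdsWithin ⟨hx, hy⟩, ?_, ?_⟩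
    · have h5 : Tendsto (fun z : En m => (z, y)) (𝓝[Y.carrier] x)
          (𝓝[Y.carrier ×ˢ Y.carrier] (x, y)) :=
        ContinuousWithinAt.tendsto_nhdsWithin (f := fun z : En m => (z, y))
          (by fun_prop) (fun z hz => ⟨hz, hy⟩)
      exact h5.eventually h4
    · have h5 : Tendsto (fun z : En m => (x, z)) (𝓝[Y.carrier] y)
          (𝓝[Y.carrier ×ˢ Y.carrier] (x, y)) :=
        ContinuousWithinAt.tendsto_nhdsWithin (f := fun z : En m => (x, z))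
          (by fun_prop) (fun z hz => ⟨hx, hz⟩)
      exact h5.eventually h4
  have hsm1 : ∀ x y : En m, SmM (fun z => T z y) x := by
    intro x y
    apply contDiffAt_mat.1
    have h1 : ContDiff ℝ ∞ fun z : En m => T z y :=
      hTs.comp (g := fun p : En m × En m => T p.1 p.2) (contDiff_id.prodMk contDiff_const)
    exact h1.contDiffAt
  have hsm2 : ∀ x y : En m, SmM (fun z => T x z) y := by
    intro x y
    apply contDiffAt_mat.1
    have h1 : ContDiff ℝ ∞ fun z : En m => T x z :=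
      hTs.comp (g := fun p : En m × En m => T p.1 p.2) (contDiff_const.prodMk contDiff_id)
    exact h1.contDiffAt
  have hsum : ∀ i, ∀ x ∈ Y.carrier, x ∈ F.O i → ∀ v : En m, Y.P x v = v →
      ∑ a, ((v a : ℝ) : ℂ) • E.b a x = -(F.E i x * dmat (F.Φ i) x v * F.Ψ i x) := by
    intro i x hx hi v hv
    have h1 : ∑ a, ((v a : ℝ) : ℂ) • E.b a x =
        ∑ a, ((v a : ℝ) : ℂ) • F.B i x (Y.P x (bv a)) :=
      Finset.sum_congr rfl fun a _ => by rw [(hE i x hx hi).2 a]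
    rw [h1, F.B_sum hx hv]
    rfl
  refine ⟨δ, T, hδ, hTs, ?_, ?_, ?_, ?_, ?_, ?_⟩
  · intro x hx y hy hxy
    obtain ⟨i, h1, h2, h3, h4, h5, h6⟩ := key x hx y hy hxy
    rw [h4, (hE i x hx h1).1, ← Matrix.mul_assoc, F.E_Φ h1]
  · intro x hx y hy hxy
    obtain ⟨i, h1, h2, h3, h4, h5, h6⟩ := key x hx y hy hxy
    rw [h4, (hE i y hy h2).1, Matrix.mul_assoc, F.Ψ_E h2]
  · intro x hx
    obtain ⟨i, h1, h2, h3, h4, h5, h6⟩ := key x hx x hx (by rw [dist_self]; exact hδ)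
    rw [h4, (hE i x hx h1).1, F.Φ_mul_Ψ h1]
  · intro x hx y hy hxy
    obtain ⟨i, h1, h2, h3, h4, h5, h6⟩ := key x hx y hy hxy
    have e : F.Φ i x * F.Ψ i y * (F.Φ i y * F.Ψ i x) =
        F.Φ i x * ((F.Ψ i y * F.Φ i y) * F.Ψ i x) := by simp only [Matrix.mul_assoc]
    rw [h4, h3, (hE i x hx h1).1, e, F.Ψ_mul_Φ h2, Matrix.one_mul, F.Φ_mul_Ψ h1]
  · intro x hx y hy hxy v hv
    obtain ⟨i, h1, h2, h3, h4, h5, h6⟩ := key x hx y hy hxy
    have hc : SmM (fun _ : En m => F.Ψ i y) x := SmM.const _ _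
    have d1 : fderiv ℝ (fun z => T z y) x v = dmat (F.Φ i) x v * F.Ψ i y := by
      rw [fderiv_eq_dmat (hsm1 x y)]
      have h7 := dmat_tan Y hx (hsm1 x y) ((F.smΦ h1).mul hc) h5 v
      rw [hv] at h7
      rw [h7, dmat_mul (F.smΦ h1) hc, dmat_const, Matrix.mul_zero, add_zero]
    rw [d1, hsum i x hx h1 v hv, h4, (hE i x hx h1).1]
    have e : -(F.E i x * dmat (F.Φ i) x v * F.Ψ i x) * (F.Φ i x * F.Ψ i y) =
        -(F.E i x * (dmat (F.Φ i) x v * ((F.Ψ i x * F.Φ i x) * F.Ψ i y))) := by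
      simp only [Matrix.neg_mul, Matrix.mul_assoc]
    have e2 : F.E i x * (F.E i x * (dmat (F.Φ i) x v * F.Ψ i y)) =
        F.E i x * (dmat (F.Φ i) x v * F.Ψ i y) := by rw [← Matrix.mul_assoc, F.E_idem h1]
    rw [e, F.Ψ_mul_Φ h1, Matrix.one_mul, Matrix.mul_add, Matrix.mul_neg, e2, add_neg_cancel]
  · intro x hx y hy hxy v hv
    obtain ⟨i, h1, h2, h3, h4, h5, h6⟩ := key x hx y hy hxy
    have hc : SmM (fun _ : En m => F.Φ i x) y := SmM.const _ _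
    have d1 : fderiv ℝ (fun z => T x z) y v = F.Φ i x * dmat (F.Ψ i) y v := by
      rw [fderiv_eq_dmat (hsm2 x y)]
      have h7 := dmat_tan Y hy (hsm2 x y) (hc.mul (F.smΨ h2)) h6 v
      rw [hv] at h7
      rw [h7, dmat_mul hc (F.smΨ h2), dmat_const, Matrix.zero_mul, zero_add]
    have d2 : dmat (F.Ψ i) y v * F.Φ i y + F.Ψ i y * dmat (F.Φ i) y v = 0 := by
      rw [← dmat_mul (F.smΨ h2) (F.smΦ h2)]
      rw [dmat_congr (B := fun _ => (1 : Matrix κ κ ℂ)) (by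
        filter_upwards [(F.openO i).mem_nhds h2] with z hz
        exact F.Ψ_mul_Φ hz) v, dmat_const]
    rw [d1, hsum i y hy h2 v hv, h4, (hE i y hy h2).1]
    have e1 : F.Φ i x * F.Ψ i y * -(F.E i y * dmat (F.Φ i) y v * F.Ψ i y) =
        -(F.Φ i x * ((F.Ψ i y * F.E i y) * (dmat (F.Φ i) y v * F.Ψ i y))) := by
      simp only [Matrix.mul_neg, Matrix.mul_assoc]
    rw [e1, F.Ψ_E h2, sub_neg_eq_add, ← Matrix.mul_add, Matrix.mul_assoc, ← F.Φ_mul_Ψ h2]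
    have e2 : (dmat (F.Ψ i) y v + F.Ψ i y * (dmat (F.Φ i) y v * F.Ψ i y)) *
        (F.Φ i y * F.Ψ i y) = (dmat (F.Ψ i) y v * F.Φ i y +
          F.Ψ i y * dmat (F.Φ i) y v * (F.Ψ i y * F.Φ i y)) * F.Ψ i y := by
      simp only [Matrix.add_mul, Matrix.mul_assoc]
    rw [e2, F.Ψ_mul_Φ h2, Matrix.mul_one, d2, Matrix.zero_mul, Matrix.mul_zero]

end FrSys

end Pool.Agent.EXO
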