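import Mathlib
import Pool.Agent.EXO.DefC
import Pool.Agent.EXO.FmFA
import Pool.Agent.EXO.FmFAd

/-!
# EXO / SurStr: smoothness and degree of the forms `str F^n`

PROOFS.
* Smoothness: the coordinates (`FA.co`) of products are finite sums of products of coordinates (`FA.co_mul`), so products, sums,
  powers and traces of matrices of smooth forms are smooth.  `cM (E.e x)`: entries `algebraMap ℂ (FA m) (E.e x i j)`, smooth
  (`smooth_e` entrywise; `algebraMap` is linear over a finite dimensional space).  `dM E.e`: derivatives of smooth functions.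
  `conn`: `smooth_A`.  `dF (conn)`: derivatives of smooth forms.  (File FmFAd of helper76 has smoothness of products.)
* Degree: `cM` has degree `0`, `dM`, `conn` degree `1`, `dF` of a form which has degree `1` everywhere has degree `2`
  (`fderiv` of a function with values in the closed subspace of forms of degree `1` stays in it), so `curv` has degree `2` and `curv ^ n`
  degree `2 n` (`isDeg_mul`, `isDeg_sum`, entrywise induction).
-/

set_option autoImplicit false
set_option maxSynthPendingDepth 3

open Set Filter Topology Matrix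
open scoped ContDiff

namespace Pool.Agent.EXO

variable {k m : ℕ} {Y : Geo k m} {ι : Type} [Fintype ι] [DecidableEq ι]

/-! ### Smoothness -/

private def SurStr_Sm (f : En m → Matrix ι ι (FA m)) : Prop := ∀ i j, ContDiff ℝ ∞ fun x => f x i j

omit [DecidableEq ι] in
private theorem SurStr_mul {f g : En m → Matrix ι ι (FA m)} (hf : SurStr_Sm f)
    (hg : SurStr_Sm g) : SurStr_Sm (fun x => f x * g x) := by
  intro i j
  simp only [Matrix.mul_apply]
  exact ContDiff.sum fun l _ => contDiff_mulFA' (hf i l) (hg l j)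

omit [Fintype ι] [DecidableEq ι] in
private theorem SurStr_add {f g : En m → Matrix ι ι (FA m)} (hf : SurStr_Sm f)
    (hg : SurStr_Sm g) : SurStr_Sm (fun x => f x + g x) := by
  intro i j
  simp only [Matrix.add_apply]
  exact (hf i j).add (hg i j)

private theorem SurStr_pow {f : En m → Matrix ι ι (FA m)} (hf : SurStr_Sm f) (n : ℕ) :
    SurStr_Sm (fun x => f x ^ n) := by
  induction n with
  | zero =>
    intro i j
    simp only [pow_zero]
    exact contDiff_const
  | succ n ih =>
    simp only [pow_succ]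
    exact SurStr_mul ih hf

private theorem SurStr_smul {c : En m → ℂ} (hc : ContDiff ℝ ∞ c) (v : FA m) :
    ContDiff ℝ ∞ fun x => c x • v := by
  have h1 : ContDiff ℝ ∞ fun x => (ContinuousLinearMap.toSpanSingleton ℂ v).restrictScalars ℝ
      (c x) := ((ContinuousLinearMap.toSpanSingleton ℂ v).restrictScalars ℝ).contDiff.comp hc
  exact h1

omit [DecidableEq ι] [Fintype ι] in
private theorem SurStr_cM {f : En m → Matrix ι ι ℂ} (hf : ∀ i j, ContDiff ℝ ∞ fun x => f x i j) :
    SurStr_Sm (fun x => (cM (f x) : Matrix ι ι (FA m))) := by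
  intro i j
  unfold cM
  simp only [Algebra.algebraMap_eq_smul_one]
  exact SurStr_smul (hf i j) 1

omit [DecidableEq ι] [Fintype ι] in
private theorem SurStr_dM {f : En m → Matrix ι ι ℂ} (hf : ∀ i j, ContDiff ℝ ∞ fun x => f x i j) :
    SurStr_Sm (fun x => dM f x) := by
  intro i j
  unfold dM
  refine ContDiff.sum fun a _ => SurStr_smul ?_ _
  exact ((hf i j).fderiv_right (m := ∞) (by simp)).clm_apply contDiff_const

omit [DecidableEq ι] in
private theorem SurStr_entry {f : En m → Matrix ι ι ℂ} (hf : ContDiff ℝ ∞ f) (i j : ι) :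
    ContDiff ℝ ∞ fun x => f x i j :=
  contDiff_pi.1 (contDiff_pi.1 hf i) j

private theorem SurStr_conn (E : Bd Y ι) : SurStr_Sm (fun x => E.conn x) := by
  intro i j
  unfold Bd.conn
  exact ContDiff.sum fun a _ => SurStr_smul (SurStr_entry (E.smooth_A a) i j) _

private theorem SurStr_curv (E : Bd Y ι) : SurStr_Sm (fun x => E.curv x) := by
  have he := SurStr_cM (SurStr_entry E.smooth_e)
  have hd := SurStr_dM (SurStr_entry E.smooth_e)
  have hc := SurStr_conn E
  have h2 : SurStr_Sm (fun x : En m => (Matrix.of fun i j => dF (fun y => E.conn y i j) x :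
      Matrix ι ι (FA m))) := by
    intro i j
    simp only [Matrix.of_apply]
    exact contDiff_dF (hc i j)
  unfold Bd.curv
  exact SurStr_add (SurStr_add (SurStr_mul (SurStr_mul (SurStr_mul he hd) hd) he)
    (SurStr_mul (SurStr_mul he h2) he)) (SurStr_mul hc hc)

/-! ### Degrees -/

private def SurStr_Dg (d : ℕ) (T : Matrix ι ι (FA m)) : Prop := ∀ i j, (T i j).IsDeg d

omit [DecidableEq ι] in
private theorem SurStr_dmul {p q : ℕ} {S T : Matrix ι ι (FA m)} (hS : SurStr_Dg p S)
    (hT : SurStr_Dg q T) : SurStr_Dg (p + q) (S * T) := by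
  intro i j
  rw [Matrix.mul_apply]
  exact isDeg_sum _ fun l _ => isDeg_mul (hS i l) (hT l j)

omit [Fintype ι] [DecidableEq ι] in
private theorem SurStr_dadd {p : ℕ} {S T : Matrix ι ι (FA m)} (hS : SurStr_Dg p S)
    (hT : SurStr_Dg p T) : SurStr_Dg p (S + T) := by
  intro i j
  rw [Matrix.add_apply]
  exact isDeg_add (hS i j) (hT i j)

private theorem SurStr_dpow {p : ℕ} {S : Matrix ι ι (FA m)} (hS : SurStr_Dg p S) (n : ℕ) :
    SurStr_Dg (p * n) (S ^ n) := by
  induction n with
  | zero =>
    intro i j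
    rw [pow_zero, mul_zero, Matrix.one_apply]
    split_ifs
    · exact isDeg_one
    · exact isDeg_zero 0
  | succ n ih =>
    rw [pow_succ, Nat.mul_succ]
    exact SurStr_dmul ih hS

omit [DecidableEq ι] [Fintype ι] in
private theorem SurStr_dcM (T : Matrix ι ι ℂ) : SurStr_Dg 0 (cM T : Matrix ι ι (FA m)) := by
  intro i j
  unfold cM
  rw [Algebra.algebraMap_eq_smul_one]
  exact isDeg_smul isDeg_one _

omit [DecidableEq ι] [Fintype ι] in
private theorem SurStr_ddM (f : En m → Matrix ι ι ℂ) (x : En m) : SurStr_Dg 1 (dM f x) := by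
  intro i j
  unfold dM
  exact isDeg_sum _ fun a _ => isDeg_smul (isDeg_of1 _) _

private theorem SurStr_dconn (E : Bd Y ι) (x : En m) : SurStr_Dg 1 (E.conn x) := by
  intro i j
  unfold Bd.conn
  exact isDeg_sum _ fun a _ => isDeg_smul (isDeg_of1 _) _

/-- A coordinate as a continuous linear map. -/
private noncomputable def SurStr_co (m : ℕ) (I : Finset (Fin m)) : FA m →L[ℝ] ℂ :=
  LinearMap.toContinuousLinearMap
    { toFun := fun u => u.co I
      map_add' := fun _ _ => rfl
      map_smul' := fun r u => by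
        show (r • u).co I = r • u.co I
        rw [← Complex.coe_smul, FA.co_smul]
        exact (Complex.real_smul).symm }

private theorem SurStr_dfd {u : En m → FA m} (hu : Differentiable ℝ u) {p : ℕ}
    (hd : ∀ y, (u y).IsDeg p) (x v : En m) : (fderiv ℝ u x v).IsDeg p := by
  intro I hI
  have h1 : (fun y => SurStr_co m I (u y)) = fun _ => 0 := by
    funext y
    exact hd y I hI
  have h2 : HasFDerivAt (fun y => SurStr_co m I (u y)) ((SurStr_co m I).comp (fderiv ℝ u x)) x :=
    (SurStr_co m I).hasFDerivAt.comp x (hu x).hasFDerivAt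
  rw [h1] at h2
  have h3 := h2.unique (hasFDerivAt_const (0 : ℂ) x)
  have h4 := congrArg (fun L : En m →L[ℝ] ℂ => L v) h3
  exact h4

private theorem SurStr_ddF {u : En m → FA m} (hu : Differentiable ℝ u) {p : ℕ}
    (hd : ∀ y, (u y).IsDeg p) (x : En m) : (dF u x).IsDeg (1 + p) := by
  unfold dF
  exact isDeg_sum _ fun a _ => isDeg_mul (isDeg_of1 _) (SurStr_dfd hu hd x _)

private theorem SurStr_dcurv (E : Bd Y ι) (x : En m) : SurStr_Dg 2 (E.curv x) := by
  have he := SurStr_dcM (m := m) (E.e x)
  have hd := SurStr_ddM E.e x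
  have hc := SurStr_dconn E x
  have h2 : SurStr_Dg 2 (Matrix.of fun i j => dF (fun y => E.conn y i j) x :
      Matrix ι ι (FA m)) := by
    intro i j
    rw [Matrix.of_apply]
    exact SurStr_ddF (((SurStr_conn E) i j).differentiable (by simp))
      (fun y => SurStr_dconn E y i j) x
  unfold Bd.curv
  have e1 := SurStr_dmul (SurStr_dmul (SurStr_dmul he hd) hd) he
  have e2 := SurStr_dmul (SurStr_dmul he h2) he
  have e3 := SurStr_dmul hc hc
  exact SurStr_dadd (SurStr_dadd e1 e2) e3

theorem sur_curv_smooth (E : Bd Y ι) (i j : ι) : ContDiff ℝ ∞ fun x => E.curv x i j :=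
  SurStr_curv E i j

theorem sur_strF_smooth (E : Bd Y ι) (n : ℕ) : ContDiff ℝ ∞ (E.strF n) := by
  have h1 : SurStr_Sm (fun _ : En m => (cM (diagonal E.s) : Matrix ι ι (FA m))) :=
    fun i j => contDiff_const
  have h2 := SurStr_mul (SurStr_mul h1 (SurStr_cM (SurStr_entry E.smooth_e)))
    (SurStr_pow (SurStr_curv E) n)
  have h3 : E.strF n = fun x => ∑ i, (cM (diagonal E.s) * cM (E.e x) * E.curv x ^ n :
      Matrix ι ι (FA m)) i i := rfl
  rw [h3]
  exact ContDiff.sum fun i _ => h2 i i

theorem sur_curv_deg (E : Bd Y ι) (x : En m) (i j : ι) : (E.curv x i j).IsDeg 2 :=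
  SurStr_dcurv E x i j

theorem sur_strF_deg (E : Bd Y ι) (n : ℕ) (x : En m) : (E.strF n x).IsDeg (2 * n) := by
  have h1 := SurStr_dmul (SurStr_dmul (SurStr_dcM (m := m) (diagonal E.s))
    (SurStr_dcM (m := m) (E.e x))) (SurStr_dpow (SurStr_dcurv E x) n)
  rw [zero_add, zero_add] at h1
  exact isDeg_sum _ fun i _ => h1 i i

end Pool.Agent.EXO
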