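import Mathlib
import Pool.Agent.EXO.SurKD
import Pool.Agent.EXO.SurF0A
import Pool.Agent.EXO.SurSgA

/-!
# EXO / SurSupp: the support of the curvature

PROOFS.
* `Kf_x`: if all entries of `Gf i · z` are constant near `x` then `gx = 0`, so `Kf = 0`; `Kf_z`: the same for `z`.
* `ch2O_sub`: points of `Sg ∩ ch2O 0`: `|p 2| < 1`, `p 1 > 1`; by `Sg_band` they lie on the outer circle, `9 > 25/4`.  Points of `ch2O 1`:
  they lie on the circle around `(1, 0)` (see `isChart2`), `1/4 < 9/16`.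
* `Kf_supp`: (1) `p 2 > 3/4`: `i = (0, b)` (`b` by the sign of `p 1`): `frh = 1`, `fet = 0`, `mNN_one`: `Gf i x z = fS i x` does not
  depend on `z`.  (2) `p 2 < -3/4`: `i = (1, b)`, the same.  (3) `|p 2| ≤ 3/4`: `p` lies on one of the three circles.  If `p 1 < 1/4` take
  `i = (r, false)`: `Gf i x z = mNN z (const) (const)` does not depend on `x`.  Now `1/4 ≤ p 1`.  Circle around `(-1, 0)`: `i = (2, true)`:
  `Gf = mS x` independent of `z`.  Circle around `(1, 0)`: `i = (3, true)`, `Gf = mNN z 13 (70/13) * mS x`; since `p ∉ ch2O 1` (`0 < p 1 ≤ 1/2 < 1`)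
  we have `|p 0 - 1| ≥ 1/4 > 1/8`, also `|p 0 + 1| > 1/8`, so `mS` is constant near `p 0` (`mS_loc`).  Outer circle: `i = (4, true)`;
  `p ∉ ch2O 0`: if `|p 0| < 2` then `(p 1)^2 > 5`, `p 1 > 1`, so `p ∈ ch2O 0`; hence `|p 0| ≥ 2 > 9/8`, near `p 0` `mS` is constant, and `rh`,
  `et` are constant by the fields `left`, `right` of `Wnd`.
-/

set_option autoImplicit false
set_option maxSynthPendingDepth 3
set_option linter.unusedSectionVars false

open Set Filter Topology Matrix

namespace Pool.Agent.EXO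

namespace Wnd

variable (w : Wnd)

private theorem SurSupp_d {f : ℝ → Matrix (Fin 2) (Fin 2) ℝ} {x : ℝ}
    (h : ∀ᶠ s in 𝓝 x, f s = f x) (a b : Fin 2) : deriv (fun s => f s a b) x = 0 := by
  have h1 : (fun s => f s a b) =ᶠ[𝓝 x] fun _ => f x a b := by
    filter_upwards [h] with s hs
    rw [hs]
  rw [h1.deriv_eq, deriv_const]

theorem Kf_x {i : FI} {x z : ℝ} (h : ∀ᶠ s in 𝓝 x, w.Gf i s z = w.Gf i x z) :
    w.Kf i x z = 0 := by
  have h1 : ∀ a b, w.gx i x z a b = 0 := fun a b => SurSupp_d (f := fun s => w.Gf i s z) h a b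
  simp only [Kf, h1]
  ring

theorem Kf_z {i : FI} {x z : ℝ} (h : ∀ᶠ t in 𝓝 z, w.Gf i x t = w.Gf i x z) :
    w.Kf i x z = 0 := by
  have h1 : ∀ a b, w.gz i x z a b = 0 := fun a b => SurSupp_d (f := fun t => w.Gf i x t) h a b
  simp only [Kf, h1]
  ring

private theorem SurSupp_side (p : En 3) : ∃ b : Bool, if b then -1 / 4 < p 1 else p 1 < 1 / 4 := by
  by_cases h : p 1 < 1 / 4
  · exact ⟨false, by simpa using h⟩
  · exact ⟨true, by
      push_neg at h
      simp only [if_true]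
      linarith⟩

private theorem SurSupp_out {x : ℝ} (h : 2 ≤ |x|) :
    ∀ᶠ s in 𝓝 x, w.rh s = w.rh x ∧ w.et s = w.et x ∧ mS s = mS x := by
  have hS : ∀ᶠ s in 𝓝 x, mS s = mS x := by
    apply mS_loc
    · rcases abs_cases x with ⟨h1, h2⟩ | ⟨h1, h2⟩
      · rw [h1] at h
        rw [abs_of_pos (by linarith)]
        linarith
      · rw [h1] at h
        rw [abs_of_neg (by linarith)]
        linarith
    · rcases abs_cases x with ⟨h1, h2⟩ | ⟨h1, h2⟩
      · rw [h1] at h
        rw [abs_of_pos (by linarith)]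
        linarith
      · rw [h1] at h
        rw [abs_of_neg (by linarith)]
        linarith
  rcases abs_cases x with ⟨h1, h2⟩ | ⟨h1, h2⟩
  · rw [h1] at h
    have h3 : ∀ᶠ s in 𝓝 x, 9 / 8 < s := lt_mem_nhds (by linarith)
    filter_upwards [hS, h3] with s hs hs3
    have a1 := w.right s hs3.le
    have a2 := w.right x (by linarith)
    exact ⟨by rw [a1.2.1, a2.2.1], by rw [a1.2.2, a2.2.2], hs⟩
  · rw [h1] at h
    have h3 : ∀ᶠ s in 𝓝 x, s < -9 / 8 := gt_mem_nhds (by linarith)
    filter_upwards [hS, h3] with s hs hs3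
    have a1 := w.left s hs3.le
    have a2 := w.left x (by linarith)
    exact ⟨by rw [a1.2.1, a2.2.1], by rw [a1.2.2, a2.2.2], hs⟩

theorem Kf_supp {p : En 3} (hp : p ∈ Sg) (h : ∀ a, p ∉ ch2O a) :
    ∃ i, p ∈ fO i ∧ w.Kf i (p 0) (p 2) = 0 := by
  rcases lt_or_ge (3 / 4) (p 2) with h2 | h2
  · obtain ⟨b, hb⟩ := SurSupp_side p
    refine ⟨(0, b), ⟨?_, hb⟩, w.Kf_z (Filter.Eventually.of_forall fun t => ?_)⟩
    · simp only [fR, if_true]
      exact h2
    · have h3 : ∀ t, w.Gf (0, b) (p 0) t = fS (0, b) (p 0) := by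
        intro t
        have h4 : w.frh (0, b) (p 0) = 1 := by simp [frh]
        have h5 : w.fet (0, b) (p 0) = 0 := by simp [fet]
        rw [Gf, h4, h5, mNN_one, Matrix.one_mul]
      rw [h3, h3]
  rcases lt_or_ge (p 2) (-3 / 4) with h2' | h2'
  · obtain ⟨b, hb⟩ := SurSupp_side p
    refine ⟨(1, b), ⟨?_, hb⟩, w.Kf_z (Filter.Eventually.of_forall fun t => ?_)⟩
    · simp only [fR]
      simp only [one_ne_zero, if_false, if_true]
      exact h2'
    · have h3 : ∀ t, w.Gf (1, b) (p 0) t = fS (1, b) (p 0) := by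
        intro t
        have h4 : w.frh (1, b) (p 0) = 1 := by simp [frh]
        have h5 : w.fet (1, b) (p 0) = 0 := by simp [fet]
        rw [Gf, h4, h5, mNN_one, Matrix.one_mul]
      rw [h3, h3]
  have hz : |p 2| ≤ 1 := abs_le.2 ⟨by linarith, by linarith⟩
  have hz' : |p 2| < 1 := abs_lt.2 ⟨by linarith, by linarith⟩
  rcases lt_or_ge (p 1) (1 / 4) with h1 | h1
  · have key : ∀ r : Fin 5, ∀ s, w.Gf (r, false) s (p 2) = w.Gf (r, false) (p 0) (p 2) := by
      intro r s
      simp [Gf, frh, fet, fS]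
    rcases Sg_band hp hz with hc | hc | hc
    · refine ⟨(4, false), ⟨?_, by simpa using h1⟩, w.Kf_x (Filter.Eventually.of_forall (key 4))⟩
      have : fR 4 p = (|p 2| < 1 ∧ 25 / 4 < (p 0) ^ 2 + (p 1) ^ 2) := by
        simp [fR]
      rw [this, hc]
      exact ⟨hz', by norm_num⟩
    · refine ⟨(3, false), ⟨?_, by simpa using h1⟩, w.Kf_x (Filter.Eventually.of_forall (key 3))⟩
      have : fR 3 p = (|p 2| < 1 ∧ (p 0 - 1) ^ 2 + (p 1) ^ 2 < 9 / 16) := by
        simp [fR]
      rw [this, hc]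
      exact ⟨hz', by norm_num⟩
    · refine ⟨(2, false), ⟨?_, by simpa using h1⟩, w.Kf_x (Filter.Eventually.of_forall (key 2))⟩
      have : fR 2 p = (|p 2| < 1 ∧ (p 0 + 1) ^ 2 + (p 1) ^ 2 < 9 / 16) := by
        simp [fR]
      rw [this, hc]
      exact ⟨hz', by norm_num⟩
  · have hb : (if (true : Bool) then -1 / 4 < p 1 else p 1 < 1 / 4) := by
      simp only [if_true]
      linarith
    rcases Sg_band hp hz with hc | hc | hc
    · have h0 : 2 ≤ |p 0| := by
        by_contra hlt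
        push_neg at hlt
        refine h 0 ⟨?_, hz', ?_⟩
        · simpa [ch2m, ch2w] using hlt
        · simp only [if_true]
          have h3 := abs_lt.1 hlt
          nlinarith
      refine ⟨(4, true), ⟨?_, hb⟩, w.Kf_x ?_⟩
      · have : fR 4 p = (|p 2| < 1 ∧ 25 / 4 < (p 0) ^ 2 + (p 1) ^ 2) := by
          simp [fR]
        rw [this, hc]
        exact ⟨hz', by norm_num⟩
      · filter_upwards [w.SurSupp_out h0] with s hs
        have h3 : ∀ x, w.Gf (4, true) x (p 2) = mNN (p 2) (w.rh x) (w.et x) * mS x := by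
          intro x
          simp [Gf, frh, fet, fS]
        rw [h3, h3, hs.1, hs.2.1, hs.2.2]
    · refine ⟨(3, true), ⟨?_, hb⟩, w.Kf_x ?_⟩
      · have : fR 3 p = (|p 2| < 1 ∧ (p 0 - 1) ^ 2 + (p 1) ^ 2 < 9 / 16) := by
          simp [fR]
        rw [this, hc]
        exact ⟨hz', by norm_num⟩
      · have h0 : 1 / 4 ≤ |p 0 - 1| := by
          by_contra hlt
          push_neg at hlt
          refine h 1 ⟨?_, hz', ?_⟩
          · simpa [ch2m, ch2w] using hlt
          · simp only [one_ne_zero, if_false]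
            exact ⟨by linarith, by nlinarith⟩
        have h0' : 1 / 8 < |p 0 + 1| := by
          rw [abs_of_pos (by nlinarith)]
          nlinarith
        filter_upwards [mS_loc h0' (by linarith)] with s hs
        have h3 : ∀ x, w.Gf (3, true) x (p 2) = mNN (p 2) 13 (70 / 13) * mS x := by
          intro x
          simp [Gf, frh, fet, fS]
        rw [h3, h3, hs]
    · refine ⟨(2, true), ⟨?_, hb⟩, w.Kf_z (Filter.Eventually.of_forall fun t => ?_)⟩
      · have : fR 2 p = (|p 2| < 1 ∧ (p 0 + 1) ^ 2 + (p 1) ^ 2 < 9 / 16) := by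
          simp [fR]
        rw [this, hc]
        exact ⟨hz', by norm_num⟩
      · have h3 : ∀ t, w.Gf (2, true) (p 0) t = fS (2, true) (p 0) := by
          intro t
          have h4 : w.frh (2, true) (p 0) = 1 := by simp [frh]
          have h5 : w.fet (2, true) (p 0) = 0 := by simp [fet]
          rw [Gf, h4, h5, mNN_one, Matrix.one_mul]
        rw [h3, h3]

end Wnd

theorem ch2O_sub (a : Fin 2) {p : En 3} (hp : p ∈ Sg) (h : p ∈ ch2O a) : p ∈ fO (ci a) := by
  obtain ⟨h0, h2, h1⟩ := h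
  fin_cases a
  · simp only [Fin.zero_eta, if_true] at h0 h1
    have h0' : |p 0| < 2 := by simpa [ch2m, ch2w] using h0
    refine ⟨?_, ?_⟩
    · have : fR (ci 0).1 p = (|p 2| < 1 ∧ 25 / 4 < (p 0) ^ 2 + (p 1) ^ 2) := by
        simp [fR, ci]
      change fR (ci 0).1 p
      rw [this]
      refine ⟨h2, ?_⟩
      rcases Sg_band hp h2.le with hc | hc | hc
      · rw [hc]; norm_num
      · nlinarith [sq_nonneg (p 0 - 1)]
      · nlinarith [sq_nonneg (p 0 + 1)]
    · simp [ci]
      linarith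
  · simp only [Fin.mk_one, one_ne_zero, if_false] at h0 h1
    have h0' : |p 0 - 1| < 1 / 4 := by simpa [ch2m, ch2w] using h0
    have h3 := abs_lt.1 h0'
    refine ⟨?_, ?_⟩
    · have : fR (ci 1).1 p = (|p 2| < 1 ∧ (p 0 - 1) ^ 2 + (p 1) ^ 2 < 9 / 16) := by
        simp [fR, ci]
      change fR (ci 1).1 p
      rw [this]
      refine ⟨h2, ?_⟩
      rcases Sg_band hp h2.le with hc | hc | hc
      · nlinarith
      · rw [hc]; norm_num
      · nlinarith [sq_nonneg (p 1)]
    · simp [ci]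
      linarith

end Pool.Agent.EXO
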