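import Mathlib
import Pool.Agent.EXO.SurNPN
import Pool.Agent.EXO.SurPT
import Pool.Agent.EXO.SurStr
import Pool.Agent.EXO.SurK
import Pool.Agent.EXO.SurSupp
import Pool.Agent.EXO.SurJ
import Pool.Agent.EXO.SurInt
import Pool.Agent.EXO.SurSgC

/-!
# EXO / SurEnd: the main statement of the part SUR
-/

set_option autoImplicit false
set_option maxSynthPendingDepth 3

open Set Filter Topology Matrix MeasureTheory
open scoped ContDiff Kronecker

namespace Pool.Agent.EXO

/-- The closed hypersurface `N` in `ℝ⁷` with its collar (a product of three surfaces of genus two) and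
the flat bundle. -/
theorem sur_main (hgeom : IFgeom) (hvol : IFvol) :
    ∃ (N : OrGeo 6 7) (_ : Collar N.carrier) (om : En 7 → FA 7)
    (ι : Type) (_ : Fintype ι) (_ : DecidableEq ι)
    (E : FlatBd N.toGeo ι) (δ : ℝ) (T : En 7 → En 7 → Matrix ι ι ℂ),
    IsConnected N.carrier ∧ E.NoPar ∧ E.IsPT δ T ∧
    ContDiff ℝ ∞ om ∧ (∀ x, (om x).IsDeg 6) ∧
    (∀ x ∈ N.carrier, FAMap (N.P x) (E.toBd.ch x) = (8 : ℂ) • FAMap (N.P x) (om x)) ∧
    (N.int om = 1 ∨ N.int om = -1) := by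
  obtain ⟨w⟩ := exists_Wnd
  obtain ⟨K⟩ := exists_SCol
  obtain ⟨q, hq, hqN⟩ := K.exists_q Sg_compact
  obtain ⟨N, hN, hNvol⟩ := exists_OrN hgeom hvol K hq hqN
  obtain ⟨C⟩ := K.exists_collar Sg_compact
  have hqS : ∀ j, ∀ x ∈ N.carrier, q j x ∈ Sg := by
    intro j x hx
    rw [hN] at hx
    rw [hqN j x hx]
    exact (K.iota_pi hx.1).1 j
  set F := Ftot w.F0 N.toGeo q hq hqS with hF
  obtain ⟨E, hs, hE⟩ := F.exists_flat
  obtain ⟨δ, T, hT⟩ := F.exists_isPT E hE
  set f : w.F0.I → En 3 → FA 3 := fun i p =>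
    (Complex.I * (w.Kf i (p 0) (p 2) : ℂ)) • (of1 (bv 0) * of1 (bv 2)) with hf
  have hfd : ∀ i p, (f i p).IsDeg 2 := fun i p =>
    isDeg_smul (isDeg_mul (isDeg_of1 _) (isDeg_of1 _)) _
  have hf0 : ∀ i, ∀ p ∈ w.F0.O i, dF (fun y => oneF (w.F0.th i 0 y)) p = f i p :=
    fun i p _ => w.dF_th0 i p
  have hf1 : ∀ i, ∀ p ∈ w.F0.O i, dF (fun y => oneF (w.F0.th i 1 y)) p = -f i p :=
    fun i p _ => w.dF_th1 i p
  set c0 : ℂ := (Complex.I / (2 * Real.pi)) ^ 3 with hc0
  set om : En 7 → FA 7 := fun x => (c0 / 48) • E.toBd.strF 3 x with hom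
  have homs : ContDiff ℝ ∞ om := (sur_strF_smooth E.toBd 3).const_smul _
  have key : ∀ (i : Fin 3 → w.F0.I), ∀ x ∈ N.carrier, (∀ j, q j x ∈ w.F0.O (i j)) →
      FAMap (N.P x) (om x) = FAMap (N.P x) (c0 •
        (pbF (q 0) (f (i 0)) x * pbF (q 1) (f (i 1)) x * pbF (q 2) (f (i 2)) x)) := by
    intro i x hx hi
    have h1 := Ftot_strF w.F0 N.toGeo q hq hqS rfl f hf0 hf1 hfd E hs hE hx i hi 3
    rw [if_pos rfl] at h1
    rw [hom]
    simp only [FAMap_smul, h1, smul_smul]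
    congr 1
    ring
  have hcov : ∀ x ∈ N.carrier, ∃ i : Fin 3 → w.F0.I, ∀ j, q j x ∈ w.F0.O (i j) := by
    intro x hx
    have : ∀ j, ∃ i, q j x ∈ w.F0.O i := fun j => w.F0.cover _ (hqS j x hx)
    choose i hi using this
    exact ⟨i, hi⟩
  refine ⟨N, hN ▸ C, om, _, inferInstance, inferInstance, E, δ, T, ?_, ?_, hT, homs, ?_, ?_, ?_⟩
  · rw [hN]
    exact K.N_connected Sg_connected
  · exact N_noPar w K N.toGeo hN q hq hqS hqN E hE
  · intro x
    exact isDeg_smul (sur_strF_deg E.toBd 3 x) _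
  · intro x hx
    obtain ⟨i, hi⟩ := hcov x hx
    exact Ftot_ch w.F0 N.toGeo q hq hqS rfl f hf0 hf1 hfd E hs hE hx i hi
  · have h0 : ∀ x ∈ N.carrier, (∃ j, ∀ a, q j x ∉ ch2O a) → FAMap (N.P x) (om x) = 0 := by
      rintro x hx ⟨j, hj⟩
      obtain ⟨i, hi⟩ := hcov x hx
      obtain ⟨i', hi', hK⟩ := w.Kf_supp (hqS j x hx) hj
      obtain ⟨g, hg⟩ : ∃ g : Fin 3 → w.F0.I, g = Function.update i j i' := ⟨_, rfl⟩
      have hgj : g j = i' := by rw [hg, Function.update_self]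
      have h1 := key g x hx (by
        intro l
        by_cases hl : l = j
        · subst hl
          rw [hgj]
          exact hi'
        · rw [hg, Function.update_of_ne hl]
          exact hi l)
      have h2 : f (g j) (q j x) = 0 := by
        rw [hgj, hf]
        simp only [hK, Complex.ofReal_zero, mul_zero, zero_smul]
      have h3 : pbF (q j) (f (g j)) x = 0 := by
        unfold pbF
        rw [h2, FAMap_zero]
      rw [h1]
      have hj3 : j = 0 ∨ j = 1 ∨ j = 2 := by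
        fin_cases j <;> simp
      rcases hj3 with rfl | rfl | rfl
      · rw [h3, zero_mul, zero_mul, smul_zero, FAMap_zero]
      · rw [h3, mul_zero, zero_mul, smul_zero, FAMap_zero]
      · rw [h3, mul_zero, smul_zero, FAMap_zero]
    have h1 := N_int K hq hqN N hN hNvol homs c0
      (fun a p => Complex.I * (w.Kf (ci a) (p 0) (p 2) : ℂ)) h0 (by
        intro a x hx ha
        exact key (fun j => ci (a j)) x hx fun j => ch2O_sub (a j) (hqS j x hx) (ha j))
    have h2 : ∀ a : Fin 2, ∫ u in ch2U a, Complex.I *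
        (w.Kf (ci a) ((ch2ψ a u) 0) ((ch2ψ a u) 2) : ℂ)
        = Complex.I * ((∫ u in ch2U a, w.Kf (ci a) (u 0) (u 1) : ℝ) : ℂ) := by
      intro a
      rw [integral_const_mul]
      congr 1
      have : ∀ u : En 2, (w.Kf (ci a) ((ch2ψ a u) 0) ((ch2ψ a u) 2) : ℂ)
          = ((w.Kf (ci a) (u 0) (u 1) : ℝ) : ℂ) := fun u => rfl
      simp only [this]
      exact integral_ofReal
    have h3 : ∑ a : Fin 2, (ch2s a : ℂ) * ∫ u in ch2U a, Complex.I *
        (w.Kf (ci a) ((ch2ψ a u) 0) ((ch2ψ a u) 2) : ℂ) = Complex.I * (2 * Real.pi) := by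
      simp only [h2]
      have h4 := w.J_sum
      have h5 : ((∑ a : Fin 2, (if a = 0 then (-1 : ℝ) else 1)
          * ∫ u in ch2U a, w.Kf (ci a) (u 0) (u 1) : ℝ) : ℂ) = ((2 * Real.pi : ℝ) : ℂ) := by
        rw [h4]
      push_cast at h5
      rw [← h5, Finset.mul_sum]
      refine Finset.sum_congr rfl fun a _ => ?_
      have h6 : ch2s a = if a = 0 then (-1 : ℝ) else 1 := rfl
      rw [h6]
      ring
    right
    rw [h1, h3, hc0, ← mul_pow]
    have hpi : (Real.pi : ℂ) ≠ 0 := by exact_mod_cast Real.pi_ne_zero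
    have h7 : Complex.I / (2 * Real.pi) * (Complex.I * (2 * Real.pi)) = -1 := by
      field_simp
      exact Complex.I_sq
    rw [h7]
    norm_num

end Pool.Agent.EXO
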