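import Mathlib
import Pool.Agent.EXO.SuLin

/-!
# EXO / SuGau: Gaussian integrals
-/

set_option autoImplicit false

open Set Filter Topology MeasureTheory ContinuousLinearMap
open scoped ContDiff ENNReal

namespace Pool.Agent.EXO

theorem integrable_gauss (n : ℕ) {c : ℝ} (hc : 0 < c) :
    Integrable fun w : EuclideanSpace ℝ (Fin n) => Real.exp (-(c * ‖w‖ ^ 2)) := by
  have h := GaussianFourier.integral_rexp_neg_mul_sq_norm (V := EuclideanSpace ℝ (Fin n)) hc
  have h0 : (Real.pi / c) ^ (Module.finrank ℝ (EuclideanSpace ℝ (Fin n)) / 2 : ℝ) ≠ 0 :=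
    (Real.rpow_pos_of_pos (div_pos Real.pi_pos hc) _).ne'
  have h1 : Integrable fun w : EuclideanSpace ℝ (Fin n) => Real.exp (-c * ‖w‖ ^ 2) := by
    refine Integrable.of_integral_ne_zero ?_
    rw [h]
    exact h0
  simpa [neg_mul] using h1

private theorem gau_pow (n : ℕ) {x : ℝ} (hx : 0 ≤ x) :
    x ^ ((n : ℝ) / 2) = Real.sqrt x ^ n := by
  rw [Real.sqrt_eq_rpow, ← Real.rpow_natCast, ← Real.rpow_mul hx]
  congr 1
  ring

theorem integral_gauss (n : ℕ) :
    ∫ w : EuclideanSpace ℝ (Fin n), Real.exp (-(‖w‖ ^ 2 / 4)) = Real.sqrt (4 * Real.pi) ^ n := by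
  have h := GaussianFourier.integral_rexp_neg_mul_sq_norm (V := EuclideanSpace ℝ (Fin n))
    (b := 1 / 4) (by norm_num)
  rw [finrank_euclideanSpace, Fintype.card_fin] at h
  have h1 : (fun w : EuclideanSpace ℝ (Fin n) => Real.exp (-(‖w‖ ^ 2 / 4)))
      = fun w => Real.exp (-(1 / 4) * ‖w‖ ^ 2) := by
    funext w
    congr 1
    ring
  rw [h1, h, gau_pow n (by positivity)]
  congr 2
  ring

/-- `∫ exp (-‖z - u‖^2 / s^2) du = (sqrt π s)^n`. -/
theorem integral_gauss_scaled (n : ℕ) (z : EuclideanSpace ℝ (Fin n)) {s : ℝ} (hs : 0 < s) :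
    ∫ u : EuclideanSpace ℝ (Fin n), Real.exp (-(‖z - u‖ ^ 2 / s ^ 2))
      = (Real.sqrt Real.pi * s) ^ n := by
  have h := GaussianFourier.integral_rexp_neg_mul_sq_norm (V := EuclideanSpace ℝ (Fin n))
    (b := 1 / s ^ 2) (by positivity)
  rw [finrank_euclideanSpace, Fintype.card_fin] at h
  rw [integral_sub_left_eq_self (fun u : EuclideanSpace ℝ (Fin n) =>
    Real.exp (-(‖u‖ ^ 2 / s ^ 2))) volume z]
  have h1 : (fun w : EuclideanSpace ℝ (Fin n) => Real.exp (-(‖w‖ ^ 2 / s ^ 2)))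
      = fun w => Real.exp (-(1 / s ^ 2) * ‖w‖ ^ 2) := by
    funext w
    congr 1
    ring
  rw [h1, h, gau_pow n (by positivity)]
  congr 1
  rw [div_div_eq_mul_div, div_one, Real.sqrt_mul Real.pi_pos.le, Real.sqrt_sq hs.le]

theorem exists_polar {n m : ℕ} {A : EuclideanSpace ℝ (Fin n) →L[ℝ] EuclideanSpace ℝ (Fin m)}
    (hA : Function.Injective A) :
    ∃ (B : EuclideanSpace ℝ (Fin n) →L[ℝ] EuclideanSpace ℝ (Fin m))
      (L : EuclideanSpace ℝ (Fin n) →L[ℝ] EuclideanSpace ℝ (Fin n)),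
      A = B ∘L L ∧ (∀ w, ‖B w‖ = ‖w‖) ∧ (∀ w, ‖A w‖ = ‖L w‖) ∧ volF A = |L.det| ∧
        L.det ≠ 0 := by
  classical
  let W : Submodule ℝ (EuclideanSpace ℝ (Fin m)) := LinearMap.range A.toLinearMap
  have hW : Module.finrank ℝ W = n := by
    have h := LinearMap.finrank_range_of_inj (f := A.toLinearMap) hA
    rw [finrank_euclideanSpace, Fintype.card_fin] at h
    exact h
  let e : W ≃ₗᵢ[ℝ] EuclideanSpace ℝ (Fin n) :=
    ((stdOrthonormalBasis ℝ W).reindex (finCongr hW)).repr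
  let A' : EuclideanSpace ℝ (Fin n) →L[ℝ] W :=
    A.codRestrict W (fun x => LinearMap.mem_range_self A.toLinearMap x)
  let B : EuclideanSpace ℝ (Fin n) →L[ℝ] EuclideanSpace ℝ (Fin m) :=
    W.subtypeL ∘L (e.symm.toContinuousLinearEquiv : EuclideanSpace ℝ (Fin n) →L[ℝ] W)
  let L : EuclideanSpace ℝ (Fin n) →L[ℝ] EuclideanSpace ℝ (Fin n) :=
    (e.toContinuousLinearEquiv : W →L[ℝ] EuclideanSpace ℝ (Fin n)) ∘L A'
  have hBL : ∀ w, B (L w) = A w := by
    intro w
    have : e.symm (e (A' w)) = A' w := e.symm_apply_apply _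
    change ((e.symm (e (A' w)) : W) : EuclideanSpace ℝ (Fin m)) = A w
    rw [this]
    rfl
  have hB : ∀ w, ‖B w‖ = ‖w‖ := by
    intro w
    change ‖((e.symm w : W) : EuclideanSpace ℝ (Fin m))‖ = ‖w‖
    rw [Submodule.norm_coe, e.symm.norm_map]
  have hAL : ∀ w, ‖A w‖ = ‖L w‖ := by
    intro w
    rw [← hBL, hB]
  have hAL' : ∀ x y, inner ℝ (A x) (A y) = inner ℝ (L x) (L y) := by
    intro x y
    change inner ℝ ((A' x : W) : EuclideanSpace ℝ (Fin m)) ((A' y : W) : EuclideanSpace ℝ (Fin m))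
      = inner ℝ (e (A' x)) (e (A' y))
    rw [e.inner_map_map]
    rfl
  have hLinj : Function.Injective L := by
    intro x y hxy
    exact hA (by rw [← hBL, ← hBL, hxy])
  have hdet : L.det ≠ 0 := by
    have hb : Function.Bijective L.toLinearMap :=
      ⟨hLinj, (LinearMap.injective_iff_surjective (f := L.toLinearMap)).1 hLinj⟩
    have h := (LinearEquiv.ofBijective L.toLinearMap hb).isUnit_det'
    have h' : (LinearEquiv.ofBijective L.toLinearMap hb : EuclideanSpace ℝ (Fin n) →ₗ[ℝ]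
      EuclideanSpace ℝ (Fin n)) = L.toLinearMap := by ext x; rfl
    rw [h'] at h
    exact h.ne_zero
  refine ⟨B, L, ?_, hB, hAL, ?_, hdet⟩
  · ext1 w
    exact (hBL w).symm
  · let b := (EuclideanSpace.basisFun (Fin n) ℝ).toBasis
    let M : Matrix (Fin n) (Fin n) ℝ := LinearMap.toMatrix b b L.toLinearMap
    have hM : gramM A = M.transpose * M := by
      ext i j
      simp only [gramM, Matrix.of_apply, Matrix.mul_apply, Matrix.transpose_apply]
      rw [hAL']
      rw [PiLp.inner_apply]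
      refine Finset.sum_congr rfl fun k _ => ?_
      have hk : ∀ i, M k i = (L (EuclideanSpace.single i 1)) k := by
        intro i
        simp [M, LinearMap.toMatrix_apply, b]
      rw [hk, hk]
      simp [mul_comm]
    have hMd : M.det = L.det := LinearMap.det_toMatrix b L.toLinearMap
    rw [volF, hM, Matrix.det_mul, Matrix.det_transpose, Real.sqrt_mul_self_eq_abs, hMd]

theorem integral_gauss_comp {n m : ℕ}
    {A : EuclideanSpace ℝ (Fin n) →L[ℝ] EuclideanSpace ℝ (Fin m)} (hA : Function.Injective A) :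
    ∫ w, Real.exp (-(‖A w‖ ^ 2 / 4)) * volF A = Real.sqrt (4 * Real.pi) ^ n := by
  obtain ⟨B, L, -, -, hAL, hv, hd⟩ := exists_polar hA
  rw [integral_mul_const, hv]
  have h1 : ∫ w, Real.exp (-(‖A w‖ ^ 2 / 4)) = ∫ w, Real.exp (-(‖L w‖ ^ 2 / 4)) := by
    congr 1
    funext w
    rw [hAL]
  have hd' : LinearMap.det (L : EuclideanSpace ℝ (Fin n) →ₗ[ℝ] EuclideanSpace ℝ (Fin n)) ≠ 0 := hd
  have h2 := Measure.map_linearMap_addHaar_eq_smul_addHaar
    (volume : Measure (EuclideanSpace ℝ (Fin n))) hd'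
  have h3 : ∫ w, Real.exp (-(‖L w‖ ^ 2 / 4)) =
      ∫ w, Real.exp (-(‖w‖ ^ 2 / 4)) ∂(Measure.map L (volume : Measure (EuclideanSpace ℝ (Fin n)))) := by
    rw [integral_map L.continuous.measurable.aemeasurable]
    exact (by fun_prop : Continuous fun w : EuclideanSpace ℝ (Fin n) =>
      Real.exp (-(‖w‖ ^ 2 / 4))).aestronglyMeasurable
  have h4 : Measure.map L (volume : Measure (EuclideanSpace ℝ (Fin n)))
      = ENNReal.ofReal |(L.det)⁻¹| • (volume : Measure (EuclideanSpace ℝ (Fin n))) := h2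
  rw [h1, h3, h4, integral_smul_measure, integral_gauss, ENNReal.toReal_ofReal (abs_nonneg _),
    smul_eq_mul, abs_inv]
  have : |L.det| ≠ 0 := abs_ne_zero.2 hd
  field_simp

end Pool.Agent.EXO
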