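import Mathlib
import Pool.Agent.EXO.SuIntB
import Pool.Agent.EXO.SuGau
import Pool.Agent.EXO.SuZe

/-!
# EXO / SuGla: the limit of Gaussian integrals in a chart

PROOF.  Let `z k = κ (x k) ∈ U` (for large `k`, as `x k ∈ V ∩ O`), `z k → z₀ = κ x₀ ∈ U`, `ψ (z k) = x k`, `s k = sqrt (t k) → 0`.
By `integral_chart` and the substitution `u = z k + s k • w` (`integral_comp_..`: translation and scaling,
`Measure.integral_comp_smul`, `integral_add_left_eq_self`), for large `k`:
`(sqrt (4 π t))⁻¹ ^ n * ∫ y, χ y * exp (-(‖x k - y‖^2 / (4 t))) ∂μ = (sqrt (4 π))⁻¹ ^ n * ∫ w, g k w`, where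
`g k w = U.indicator (fun u => volF (fderiv ℝ ψ u) * χ (ψ u) * exp (-(‖ψ (z k) - ψ u‖^2 / (4 t k)))) (z k + s k • w)`.
(a) For fixed `w`: `z k + s k • w → z₀`, an interior point of `U`; `volF (fderiv ℝ ψ u)`, `χ (ψ u)` are continuous
at `z₀`; `(ψ (z k + s k • w) - ψ (z k)) / s k → fderiv ℝ ψ z₀ w`, because `ψ` is strictly differentiable at `z₀`
(`ContDiffAt.hasStrictFDerivAt`, `HasStrictFDerivAt.isLittleO`, along the sequence `(z k + s k • w, z k)`).
So `g k w → volF A * χ x₀ * exp (-(‖A w‖^2 / 4))`, `A = fderiv ℝ ψ z₀`.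
(b) Bound: let `K' = (tsupport χ ∪ closedBall x₀ r) ∩ V` with `closedBall x₀ r ⊆ O`; it is a compact subset
of `O`, so `κ` is Lipschitz on it with a constant `L > 0` (`exists_lipschitz_of_compact`).  For large `k` we have
`x k ∈ K'`, and for `u ∈ U` with `χ (ψ u) ≠ 0` we have `ψ u ∈ K'`:
`‖z k - u‖ = ‖κ (x k) - κ (ψ u)‖ ≤ L * ‖x k - ψ u‖`.  Hence `0 ≤ g k w ≤ c * exp (-(‖w‖^2 / (4 L^2)))`, where
`c` bounds `volF (fderiv ℝ ψ u) * |χ (ψ u)|` on `U` (it vanishes outside the compact set
`κ '' (tsupport χ ∩ V) ⊆ U`, see `IsChart.comp_zero_ext`); `integrable_gauss`.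
(c) `tendsto_integral_of_dominated_convergence` (`g k` is measurable: continuous on the open set
`U`, zero outside), and `integral_gauss_comp`: the limit is
`(sqrt (4 π))⁻¹ ^ n * χ x₀ * ∫ w, exp (-(‖A w‖^2 / 4)) * volF A = χ x₀`.
-/

set_option autoImplicit false

open Set Filter Topology MeasureTheory
open scoped ContDiff ENNReal

namespace Pool.Agent.EXO

private theorem SuGla_cont {E : Type*} [TopologicalSpace E] {U : Set E} (hU : IsOpen U)
    {f g : E → ℝ} (hf : ContinuousOn f U) (hg : Continuous g) (hT : tsupport g ⊆ U) :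
    Continuous fun u => g u * f u := by
  refine continuous_iff_continuousAt.2 fun u => ?_
  by_cases hu : u ∈ tsupport g
  · exact hg.continuousAt.mul (hf.continuousAt (hU.mem_nhds (hT hu)))
  · have h1 : (fun u => g u * f u) =ᶠ[𝓝 u] fun _ => 0 := by
      filter_upwards [(isClosed_tsupport g).isOpen_compl.mem_nhds hu] with v hv
      rw [image_eq_zero_of_notMem_tsupport hv, zero_mul]
    exact continuousAt_const.congr h1.symm

theorem Geo.gauss_limit_chart {n M : ℕ} (G : Geo n M) {U : Set (En n)} {ψ : En n → En M}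
    {O : Set (En M)} {κ : En M → En n} (h : IsChart G.carrier U ψ O κ) {χ : En M → ℝ}
    (hχ : Continuous χ) (hc : HasCompactSupport χ) (hs : tsupport χ ⊆ O) {x₀ : En M}
    (hx₀ : x₀ ∈ G.carrier) (hx₀' : x₀ ∈ O) {x : ℕ → En M} (hx : ∀ k, x k ∈ G.carrier)
    (hx' : Tendsto x atTop (𝓝 x₀)) {t : ℕ → ℝ} (ht : ∀ k, 0 < t k)
    (ht' : Tendsto t atTop (𝓝 0)) :
    Tendsto (fun k => (Real.sqrt (4 * Real.pi * t k))⁻¹ ^ n *
      ∫ y, χ y * Real.exp (-(‖x k - y‖ ^ 2 / (4 * t k))) ∂G.μ) atTop (𝓝 (χ x₀)) := by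
  have hz₀U : κ x₀ ∈ U := h.mapsκ _ ⟨hx₀, hx₀'⟩
  have hψz₀ : ψ (κ x₀) = x₀ := h.right _ ⟨hx₀, hx₀'⟩
  have hxO : ∀ᶠ k in atTop, x k ∈ O := hx'.eventually (h.openO.mem_nhds hx₀')
  have hzt : Tendsto (fun k => κ (x k)) atTop (𝓝 (κ x₀)) :=
    (h.contDiffAt_κ hx₀').continuousAt.tendsto.comp hx'
  obtain ⟨s, hs0, hst, hss, hsq⟩ : ∃ s : ℕ → ℝ, (∀ k, 0 < s k) ∧ Tendsto s atTop (𝓝 0) ∧
      (∀ k, s k ^ 2 = t k) ∧ ∀ k, Real.sqrt (t k) = s k := by
    refine ⟨fun k => Real.sqrt (t k), fun k => Real.sqrt_pos.2 (ht k), ?_,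
      fun k => Real.sq_sqrt (ht k).le, fun k => rfl⟩
    have := (Real.continuous_sqrt.tendsto 0).comp ht'
    rw [Real.sqrt_zero] at this
    exact this
  obtain ⟨c1, c2, c3⟩ := h.comp_zero_ext G.compact (k := 0) (f := χ)
    (by exact_mod_cast contDiff_zero.2 hχ) hc hs
  have c1' : Continuous (U.indicator fun u => χ (ψ u)) := c1.continuous
  have hvolc : ContinuousOn (fun u => volF (fderiv ℝ ψ u)) U := by
    have h1 : ContinuousOn (fderiv ℝ ψ) U := h.smoothψ.continuousOn_fderiv_of_isOpen h.openU (by simp)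
    exact continuous_volF.comp_continuousOn h1
  obtain ⟨F, hFdef⟩ : ∃ F : En n → ℝ, F = fun u =>
    U.indicator (fun u => χ (ψ u)) u * volF (fderiv ℝ ψ u) := ⟨_, rfl⟩
  have hFc : Continuous F := by
    rw [hFdef]; exact SuGla_cont h.openU hvolc c1' c3
  have hFs : HasCompactSupport F := by
    rw [hFdef]; exact c2.mul_right
  have hFU : tsupport F ⊆ U := by
    refine subset_trans ?_ c3
    rw [hFdef]
    exact tsupport_mul_subset_left
  obtain ⟨c, hcF⟩ := hFs.exists_bound_of_continuous hFc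
  obtain ⟨Φ, hΦdef⟩ : ∃ Φ : ℕ → En n → ℝ, Φ = fun k u =>
    F u * Real.exp (-(‖x k - ψ u‖ ^ 2 / (4 * t k))) := ⟨_, rfl⟩
  have hΦc : ∀ k, Continuous (Φ k) := by
    intro k
    rw [hΦdef]
    refine SuGla_cont h.openU ?_ hFc hFU
    have h1 : ContinuousOn ψ U := h.smoothψ.continuousOn
    exact Real.continuous_exp.comp_continuousOn
      (((((continuousOn_const (c := x k)).sub h1).norm).pow 2).div_const (4 * t k)).neg
  have hint : ∀ k, ∫ y, χ y * Real.exp (-(‖x k - y‖ ^ 2 / (4 * t k))) ∂G.μ = ∫ u, Φ k u := by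
    intro k
    rw [G.integral_chart h]
    · rw [← MeasureTheory.integral_indicator h.openU.measurableSet]
      refine integral_congr_ae (Eventually.of_forall fun u => ?_)
      by_cases hu : u ∈ U
      · simp only [hΦdef, hFdef, indicator_of_mem hu, smul_eq_mul]
        ring
      · simp only [hΦdef, hFdef, indicator_of_notMem hu, zero_mul]
    · refine G.aestronglyMeasurable (Continuous.continuousOn ?_)
      fun_prop
    · intro y _ hy
      rw [image_eq_zero_of_notMem_tsupport (fun h => hy (hs h)), zero_mul]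
  have hsub : ∀ k, ∫ u, Φ k u = s k ^ n * ∫ w, Φ k (κ (x k) + s k • w) := by
    intro k
    have h1 := MeasureTheory.Measure.integral_comp_smul (volume : Measure (En n))
      (fun v => Φ k (κ (x k) + v)) (s k)
    rw [h1, MeasureTheory.integral_add_left_eq_self, finrank_euclideanSpace_fin, smul_eq_mul,
      abs_of_pos (inv_pos.2 (pow_pos (hs0 k) n)), ← mul_assoc,
      mul_inv_cancel₀ (pow_pos (hs0 k) n).ne', one_mul]
  have hrw : ∀ k, (Real.sqrt (4 * Real.pi * t k))⁻¹ ^ n *
      ∫ y, χ y * Real.exp (-(‖x k - y‖ ^ 2 / (4 * t k))) ∂G.μ =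
      (Real.sqrt (4 * Real.pi))⁻¹ ^ n * ∫ w, Φ k (κ (x k) + s k • w) := by
    intro k
    rw [hint, hsub, Real.sqrt_mul (by positivity), hsq, mul_inv, mul_pow, inv_pow (s k)]
    have := (pow_pos (hs0 k) n).ne'
    field_simp
  simp_rw [hrw]
  -- the limit
  obtain ⟨A, hA⟩ : ∃ A, A = fderiv ℝ ψ (κ x₀) := ⟨_, rfl⟩
  have hAinj : Function.Injective A := by rw [hA]; exact h.injective hz₀U
  have hF0 : F (κ x₀) = χ x₀ * volF A := by
    simp only [hFdef, indicator_of_mem hz₀U, hψz₀, hA]
  have hlim : Tendsto (fun k => ∫ w, Φ k (κ (x k) + s k • w)) atTop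
      (𝓝 (∫ w, (χ x₀ * volF A) * Real.exp (-(‖A w‖ ^ 2 / 4)))) := by
    -- the Lipschitz bound
    obtain ⟨r, hr, hrO⟩ := Metric.nhds_basis_closedBall.mem_iff.1 (h.openO.mem_nhds hx₀')
    have hK' : IsCompact ((tsupport χ ∪ Metric.closedBall x₀ r) ∩ G.carrier) := by
      have h1 : IsCompact (tsupport χ) := hc
      exact (h1.union (isCompact_closedBall x₀ r)).inter_right G.compact.isClosed
    have hK'O : (tsupport χ ∪ Metric.closedBall x₀ r) ∩ G.carrier ⊆ O := by
      rintro y ⟨hy | hy, _⟩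
      · exact hs hy
      · exact hrO hy
    obtain ⟨L, hL, hLip⟩ := exists_lipschitz_of_compact h.openO (h.smoothκ.of_le (by simp)) hK' hK'O
    have hxball : ∀ᶠ k in atTop, x k ∈ Metric.closedBall x₀ r :=
      hx'.eventually (Metric.closedBall_mem_nhds x₀ hr)
    refine tendsto_integral_filter_of_dominated_convergence
      (fun w => c * Real.exp (-((4 * L ^ 2)⁻¹ * ‖w‖ ^ 2))) ?_ ?_ ?_ ?_
    · refine Eventually.of_forall fun k => Continuous.aestronglyMeasurable ?_
      exact (hΦc k).comp (by fun_prop)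
    · filter_upwards [hxball] with k hk
      refine Eventually.of_forall fun w => ?_
      have hFle := hcF (κ (x k) + s k • w)
      simp only [hΦdef]
      rw [norm_mul, Real.norm_eq_abs (Real.exp _), Real.abs_exp]
      by_cases hF0' : F (κ (x k) + s k • w) = 0
      · rw [hF0', norm_zero, zero_mul]
        have hc0 : 0 ≤ c := le_trans (norm_nonneg _) hFle
        positivity
      · refine mul_le_mul hFle (Real.exp_le_exp.2 (neg_le_neg ?_)) (Real.exp_pos _).le
          (le_trans (norm_nonneg _) hFle)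
        have hu : κ (x k) + s k • w ∈ U := hFU (subset_tsupport _ hF0')
        have hχ0 : χ (ψ (κ (x k) + s k • w)) ≠ 0 := by
          intro h0
          apply hF0'
          simp only [hFdef, indicator_of_mem hu, h0, zero_mul]
        have hm1 : x k ∈ (tsupport χ ∪ Metric.closedBall x₀ r) ∩ G.carrier :=
          ⟨Or.inr hk, hx k⟩
        have hm2 : ψ (κ (x k) + s k • w) ∈ (tsupport χ ∪ Metric.closedBall x₀ r) ∩ G.carrier :=
          ⟨Or.inl (subset_tsupport _ hχ0), h.mem_V hu⟩
        have h1 := hLip _ hm1 _ hm2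
        rw [h.left _ hu, sub_add_cancel_left, norm_neg, norm_smul, Real.norm_eq_abs,
          abs_of_pos (hs0 k)] at h1
        have h2 : s k ^ 2 * ‖w‖ ^ 2 ≤ L ^ 2 * ‖x k - ψ (κ (x k) + s k • w)‖ ^ 2 := by
          rw [← mul_pow, ← mul_pow]
          exact pow_le_pow_left₀ (mul_nonneg (hs0 k).le (norm_nonneg _)) h1 2
        rw [hss] at h2
        rw [le_div_iff₀ (mul_pos (by norm_num) (ht k)), inv_mul_eq_div, div_mul_eq_mul_div,
          div_le_iff₀ (by positivity)]
        linarith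
    · exact (integrable_gauss n (c := (4 * L ^ 2)⁻¹) (by positivity)).const_mul c
    · refine Eventually.of_forall fun w => ?_
      have hut : Tendsto (fun k => κ (x k) + s k • w) atTop (𝓝 (κ x₀)) := by
        have h1 := hzt.add (hst.smul_const w)
        rwa [zero_smul, add_zero] at h1
      simp only [hΦdef]
      refine Tendsto.mul ?_ ?_
      · rw [← hF0]
        exact (hFc.tendsto _).comp hut
      · refine (Real.continuous_exp.tendsto _).comp (Tendsto.neg ?_)
        -- strict differentiability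
        have hstrict : HasStrictFDerivAt ψ A (κ x₀) := by
          rw [hA]
          exact (h.contDiffAt_ψ hz₀U).hasStrictFDerivAt (by simp)
        have ho := hstrict.isLittleO.comp_tendsto (hut.prodMk_nhds hzt)
        have h1 : Tendsto (fun k => (s k)⁻¹ • (ψ (κ (x k) + s k • w) - ψ (κ (x k)))) atTop
            (𝓝 (A w)) := by
          rw [tendsto_iff_norm_sub_tendsto_zero]
          have h2 : (fun k => (s k)⁻¹ • (ψ (κ (x k) + s k • w) - ψ (κ (x k))) - A w)
              =o[atTop] fun k => w := by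
            have h3 := Asymptotics.IsBigO.smul_isLittleO
              (Asymptotics.isBigO_refl (fun k => (s k)⁻¹) atTop) ho
            refine (h3.congr (fun k => ?_) (fun k => ?_))
            · simp only [Function.comp, add_sub_cancel_left, map_smul, smul_sub, smul_smul,
                inv_mul_cancel₀ (hs0 k).ne', one_smul]
            · simp only [Function.comp, add_sub_cancel_left, smul_smul,
                inv_mul_cancel₀ (hs0 k).ne', one_smul]
          have h3 := h2.trans_isBigO (Asymptotics.isBigO_const_const w (one_ne_zero (α := ℝ)) atTop)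
          have h4 := ((Asymptotics.isLittleO_one_iff ℝ).1 h3).norm
          rwa [norm_zero] at h4
        refine Tendsto.congr' ?_ ((h1.norm.pow 2).div_const 4)
        filter_upwards [hxO] with k hk
        rw [h.right _ ⟨hx k, hk⟩, norm_smul, norm_inv, Real.norm_eq_abs, abs_of_pos (hs0 k),
          mul_pow, inv_pow, hss, norm_sub_rev]
        have := (ht k).ne'
        field_simp
  have hlim2 := hlim.const_mul ((Real.sqrt (4 * Real.pi))⁻¹ ^ n)
  convert hlim2 using 2
  have h1 : ∫ w, (χ x₀ * volF A) * Real.exp (-(‖A w‖ ^ 2 / 4)) =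
      χ x₀ * Real.sqrt (4 * Real.pi) ^ n := by
    rw [← integral_gauss_comp hAinj, ← MeasureTheory.integral_const_mul]
    refine integral_congr_ae (Eventually.of_forall fun w => ?_)
    simp only
    ring
  rw [h1]
  have h2 : Real.sqrt (4 * Real.pi) ≠ 0 := (Real.sqrt_pos.2 (by positivity)).ne'
  rw [inv_pow]
  have h3 := pow_ne_zero n h2
  field_simp

end Pool.Agent.EXO
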