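import Mathlib
import Pool.Agent.EXO.SuIntB
import Pool.Agent.EXO.SuAtl
import Pool.Agent.EXO.SuGau
import Pool.Agent.EXO.SuZe

/-!
# EXO / SuGup: upper bounds for Gaussian integrals over a closed submanifold

PROOF of `gauss_upper`.  Let `A` be an atlas.  On `V` we have `1 = ∑ i, χ i`, so the integral is
`∑ i, ∫ y, χ i y * exp (-(‖x - y‖^2 / s^2)) ∂μ`.  Fix `i` and write `χ`, `ψ`, ...  By `integral_chart` the i-th
integral is `∫ u in U, volF (fderiv ℝ ψ u) * χ (ψ u) * exp (-(‖x - ψ u‖^2 / s^2))`.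
Let `g = χ' • κ` where `χ'` is a smooth function with compact support in `O`, `χ' = 1` on `tsupport χ`
(`exists_contDiff_tsupport_subset`, or `exists_smooth_extension` on the closed set `tsupport χ`); so `g` is smooth
on `En M` and `g = κ` on `tsupport χ`.  `g` is Lipschitz on the compact set `V`
(`exists_lipschitz_of_compact`): `‖g x - g y‖ ≤ L * ‖x - y‖` for `x, y ∈ V`.
Let `K = κ '' (tsupport χ ∩ V) ⊆ U`, compact.  For `u ∈ U ∖ K` the integrand vanishes.  For `u ∈ K`:
`ψ u ∈ tsupport χ ∩ V`, `g (ψ u) = u`, hence `‖g x - u‖ ≤ L * ‖x - ψ u‖` and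
`exp (-(‖x - ψ u‖^2 / s^2)) ≤ exp (-(‖g x - u‖^2 / (L s)^2))`; `volF (fderiv ℝ ψ u) * χ (ψ u) ≤ c` on `K`
(continuous).  So the i-th integral is at most
`c * ∫ u, exp (-(‖g x - u‖^2 / (L s)^2)) = c * (sqrt π * L * s)^n` (`integral_gauss_scaled`,
`integrable_gauss`).  Add up.
`gauss_upper_t`: put `s = sqrt (t / c)`.
-/

set_option autoImplicit false

open Set Filter Topology MeasureTheory
open scoped ContDiff ENNReal

namespace Pool.Agent.EXO

private theorem SuGup_cont {E : Type*} [TopologicalSpace E] {U : Set E} (hU : IsOpen U)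
    {f g : E → ℝ} (hf : ContinuousOn f U) (hg : Continuous g) (hT : tsupport g ⊆ U) :
    Continuous fun u => g u * f u := by
  refine continuous_iff_continuousAt.2 fun u => ?_
  by_cases hu : u ∈ tsupport g
  · exact hg.continuousAt.mul (hf.continuousAt (hU.mem_nhds (hT hu)))
  · have h1 : (fun u => g u * f u) =ᶠ[𝓝 u] fun _ => 0 := by
      filter_upwards [(isClosed_tsupport g).isOpen_compl.mem_nhds hu] with v hv
      rw [image_eq_zero_of_notMem_tsupport hv, zero_mul]
    exact continuousAt_const.congr h1.symm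

private theorem SuGup_chart {n M : ℕ} (G : Geo n M) {U : Set (En n)} {ψ : En n → En M}
    {O : Set (En M)} {κ : En M → En n} (h : IsChart G.carrier U ψ O κ) {χ : En M → ℝ}
    (hχ : ContDiff ℝ ∞ χ) (hc : HasCompactSupport χ) (hs : tsupport χ ⊆ O) (h0 : ∀ x, 0 ≤ χ x) :
    ∃ C : ℝ, 0 ≤ C ∧ ∀ x ∈ G.carrier, ∀ s : ℝ, 0 < s →
      ∫ y, χ y * Real.exp (-(‖x - y‖ ^ 2 / s ^ 2)) ∂G.μ ≤ C * s ^ n := by
  obtain ⟨g, hg, hgκ⟩ := exists_smooth_extension (isClosed_tsupport χ) κ
    (fun x hx => ⟨O, h.openO.mem_nhds (hs hx), κ, h.smoothκ, fun y _ => rfl⟩)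
  obtain ⟨L, hL, hLip⟩ := exists_lipschitz_of_compact isOpen_univ
    ((hg.of_le (by simp) : ContDiff ℝ 1 g).contDiffOn) G.compact (subset_univ _)
  obtain ⟨c1, c2, c3⟩ := h.comp_zero_ext G.compact (k := 0) (f := χ)
    (by exact_mod_cast contDiff_zero.2 hχ.continuous) hc hs
  have c1' : Continuous (U.indicator fun u => χ (ψ u)) := c1.continuous
  have hvolc : ContinuousOn (fun u => volF (fderiv ℝ ψ u)) U := by
    have h1 : ContinuousOn (fderiv ℝ ψ) U := h.smoothψ.continuousOn_fderiv_of_isOpen h.openU (by simp)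
    exact continuous_volF.comp_continuousOn h1
  obtain ⟨F, hFdef⟩ : ∃ F : En n → ℝ, F = fun u =>
    U.indicator (fun u => χ (ψ u)) u * volF (fderiv ℝ ψ u) := ⟨_, rfl⟩
  have hFc : Continuous F := by
    rw [hFdef]; exact SuGup_cont h.openU hvolc c1' c3
  have hFs : HasCompactSupport F := by
    rw [hFdef]; exact c2.mul_right
  have hF0 : ∀ u, 0 ≤ F u := by
    intro u
    rw [hFdef]
    exact mul_nonneg (indicator_nonneg (fun v _ => h0 _) u) (Real.sqrt_nonneg _)
  obtain ⟨c, hcF⟩ := hFs.exists_bound_of_continuous hFc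
  have hc0 : 0 ≤ c := le_trans (norm_nonneg _) (hcF 0)
  refine ⟨c * (Real.sqrt Real.pi * L) ^ n, by positivity, fun x hx s hs' => ?_⟩
  have hint : ∫ y, χ y * Real.exp (-(‖x - y‖ ^ 2 / s ^ 2)) ∂G.μ =
      ∫ u, F u * Real.exp (-(‖x - ψ u‖ ^ 2 / s ^ 2)) := by
    rw [G.integral_chart h]
    · rw [← MeasureTheory.integral_indicator h.openU.measurableSet]
      refine integral_congr_ae (Eventually.of_forall fun u => ?_)
      by_cases hu : u ∈ U
      · simp only [hFdef, indicator_of_mem hu, smul_eq_mul]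
        ring
      · simp only [hFdef, indicator_of_notMem hu, zero_mul]
    · refine G.aestronglyMeasurable (Continuous.continuousOn ?_)
      have := hχ.continuous
      fun_prop
    · intro y _ hy
      rw [image_eq_zero_of_notMem_tsupport (fun h => hy (hs h)), zero_mul]
  have hLs : 0 < L * s := mul_pos hL hs'
  have h1 := integral_gauss_scaled n (g x) hLs
  have hI : Integrable fun u : En n => Real.exp (-(‖g x - u‖ ^ 2 / (L * s) ^ 2)) := by
    have h2 := (integrable_gauss n (c := ((L * s) ^ 2)⁻¹) (by positivity)).comp_sub_left (g x)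
    refine h2.congr (Eventually.of_forall fun u => ?_)
    simp only
    rw [inv_mul_eq_div]
  calc ∫ y, χ y * Real.exp (-(‖x - y‖ ^ 2 / s ^ 2)) ∂G.μ =
      ∫ u, F u * Real.exp (-(‖x - ψ u‖ ^ 2 / s ^ 2)) := hint
    _ ≤ ∫ u, c * Real.exp (-(‖g x - u‖ ^ 2 / (L * s) ^ 2)) := by
        refine integral_mono_of_nonneg (Eventually.of_forall fun u => ?_) (hI.const_mul c)
          (Eventually.of_forall fun u => ?_)
        · exact mul_nonneg (hF0 u) (Real.exp_pos _).le
        · by_cases hFu : F u = 0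
          · simp only [hFu, zero_mul]
            positivity
          · have hu : u ∈ U := by
              by_contra hu
              apply hFu
              simp only [hFdef, indicator_of_notMem hu, zero_mul]
            have hχ0 : χ (ψ u) ≠ 0 := by
              intro h3
              apply hFu
              simp only [hFdef, indicator_of_mem hu, h3, zero_mul]
            have h4 := hLip x hx (ψ u) (h.mem_V hu)
            rw [hgκ _ (subset_tsupport _ hχ0), h.left u hu] at h4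
            refine mul_le_mul (le_trans (le_abs_self _) (hcF u))
              (Real.exp_le_exp.2 (neg_le_neg ?_)) (Real.exp_pos _).le hc0
            rw [div_le_div_iff₀ (by positivity) (by positivity)]
            have h5 : ‖g x - u‖ ^ 2 ≤ L ^ 2 * ‖x - ψ u‖ ^ 2 := by
              rw [← mul_pow]
              exact pow_le_pow_left₀ (norm_nonneg _) h4 2
            calc ‖g x - u‖ ^ 2 * s ^ 2 ≤ (L ^ 2 * ‖x - ψ u‖ ^ 2) * s ^ 2 :=
                  mul_le_mul_of_nonneg_right h5 (by positivity)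
              _ = ‖x - ψ u‖ ^ 2 * (L * s) ^ 2 := by ring
    _ = c * (Real.sqrt Real.pi * L) ^ n * s ^ n := by
        rw [MeasureTheory.integral_const_mul, h1]
        ring

theorem Geo.gauss_upper {n M : ℕ} (G : Geo n M) :
    ∃ C : ℝ, 0 < C ∧ ∀ x ∈ G.carrier, ∀ s : ℝ, 0 < s →
      ∫ y, Real.exp (-(‖x - y‖ ^ 2 / s ^ 2)) ∂G.μ ≤ C * s ^ n := by
  obtain ⟨A⟩ := G.toClosedSub.exists_atl
  choose C hC0 hC using fun i => SuGup_chart G (A.chart i) (A.smoothχ i) (A.compχ i)
    (A.suppχ i) (A.nonneg i)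
  refine ⟨∑ i, C i + 1, by
    have := Finset.sum_nonneg (fun i (_ : i ∈ Finset.univ) => hC0 i)
    linarith, fun x hx s hs => ?_⟩
  have hone : ∀ y ∈ G.carrier, ∑ i, A.χ i y = 1 := fun y hy =>
    (A.sum_one.self_of_nhdsSet y hy)
  have h1 : ∫ y, Real.exp (-(‖x - y‖ ^ 2 / s ^ 2)) ∂G.μ =
      ∑ i, ∫ y, A.χ i y * Real.exp (-(‖x - y‖ ^ 2 / s ^ 2)) ∂G.μ := by
    rw [← MeasureTheory.integral_finsetSum]
    · refine G.integral_congr fun y hy => ?_
      rw [← Finset.sum_mul, hone y hy, one_mul]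
    · intro i _
      refine G.integrable (Continuous.continuousOn ?_)
      have := (A.smoothχ i).continuous
      fun_prop
  rw [h1]
  calc ∑ i, ∫ y, A.χ i y * Real.exp (-(‖x - y‖ ^ 2 / s ^ 2)) ∂G.μ ≤ ∑ i, C i * s ^ n :=
        Finset.sum_le_sum fun i _ => hC i x hx s hs
    _ = (∑ i, C i) * s ^ n := by rw [Finset.sum_mul]
    _ ≤ (∑ i, C i + 1) * s ^ n := by
        have : 0 < s ^ n := pow_pos hs n
        nlinarith

/-- The bound for the heat kernel, in even dimension `n = 2 l`. -/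
theorem Geo.gauss_upper_t {l M : ℕ} (G : Geo (2 * l) M) {c : ℝ} (hc : 0 < c) :
    ∃ C : ℝ, 0 < C ∧ ∀ x ∈ G.carrier, ∀ t : ℝ, 0 < t →
      ∫ y, Real.exp (-(c * ‖x - y‖ ^ 2 / t)) ∂G.μ ≤ C * t ^ l := by
  obtain ⟨C, hC, h⟩ := G.gauss_upper
  refine ⟨C * c⁻¹ ^ l, by positivity, fun x hx t ht => ?_⟩
  have hs : 0 < Real.sqrt (t / c) := Real.sqrt_pos.2 (by positivity)
  have hss : Real.sqrt (t / c) ^ 2 = t / c := Real.sq_sqrt (by positivity)
  have h1 := h x hx _ hs
  rw [pow_mul, hss] at h1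
  have h2 : ∀ y, c * ‖x - y‖ ^ 2 / t = ‖x - y‖ ^ 2 / (t / c) := by
    intro y
    field_simp
  simp_rw [h2]
  refine h1.trans (le_of_eq ?_)
  rw [div_eq_mul_inv, mul_pow]
  ring

end Pool.Agent.EXO
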