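import Mathlib
import Pool.Agent.EXO.SuGla
import Pool.Agent.EXO.SuGup
import Pool.Agent.EXO.SuTan

/-!
# EXO / SuGlim: the limit of Gaussian integrals over a closed submanifold

PROOFS.
* `gauss_limit`.  Suppose not: there are `ε > 0` and sequences `t k → 0+` (`0 < t k < 1/(k+1)`), `x k ∈ V` with
  `|I (t k) (x k) - 1| ≥ ε`.  By compactness of `V` a subsequence of `x` converges to some `x₀ ∈ V`
  (`IsCompact.tendsto_subseq`); pass to it.  Take a chart at `x₀` and a smooth bump function `χ`,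
  `0 ≤ χ ≤ 1`, `χ = 1` on `ball x₀ r`, compact support in `O`.  `I = I_χ + I_(1-χ)`, `I_χ → χ x₀ = 1` by
  `gauss_limit_chart`.  For large `k`: `x k ∈ ball x₀ (r/2)`, and for `y` with `1 - χ y ≠ 0`:
  `‖x k - y‖ ≥ r / 2`, so `0 ≤ I_(1-χ) ≤ (sqrt (4 π t))⁻¹ ^ n * exp (-(r^2 / (16 t))) * μ(univ) → 0`
  (`x ^ n * exp (-c x^2) → 0` for `x = (sqrt t)⁻¹ → ∞`).  So `I → 1`, a contradiction.
* `gauss_limit_weight`: `φ` is uniformly continuous on the compact set `V ×ˢ V` and bounded there by `C₀`.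
  Given `ε`, let `η > 0` be such that `‖φ (x, y) - φ (x, x)‖ ≤ ε'` for `‖x - y‖ < η`.  The difference is
  `I (t) (φ (x, ·) - φ (x, x)) + (I (t) 1 - 1) φ (x, x)`.  The first part is at most
  `ε' * I(t) 1 + 2 C₀ (sqrt (4 π t))⁻¹ ^ n * exp (-(η^2 / (4 t))) * μ(univ)`; use `gauss_limit`
  (so `I (t) 1 ≤ 2`).
-/

set_option autoImplicit false

open Set Filter Topology MeasureTheory
open scoped ContDiff ENNReal

namespace Pool.Agent.EXO

private theorem SuGlim_tail (n : ℕ) {ρ : ℝ} (hρ : 0 < ρ) :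
    Tendsto (fun t : ℝ => (Real.sqrt (4 * Real.pi * t))⁻¹ ^ n * Real.exp (-(ρ ^ 2 / (4 * t))))
      (𝓝[>] 0) (𝓝 0) := by
  have h1 := tendsto_rpow_mul_exp_neg_mul_atTop_nhds_zero ((n : ℝ) / 2) (ρ ^ 2 / 4)
    (by positivity)
  have h2 := (h1.comp (tendsto_inv_nhdsGT_zero (𝕜 := ℝ))).const_mul
    ((Real.sqrt (4 * Real.pi))⁻¹ ^ n)
  rw [mul_zero] at h2
  refine h2.congr' ?_
  filter_upwards [self_mem_nhdsWithin] with t ht
  have ht0 : (0 : ℝ) < t := ht
  have e1 : Real.sqrt (4 * Real.pi * t) = Real.sqrt (4 * Real.pi) * Real.sqrt t :=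
    Real.sqrt_mul (by positivity) t
  have e2 : (t⁻¹ : ℝ) ^ ((n : ℝ) / 2) = (Real.sqrt t)⁻¹ ^ n := by
    rw [← Real.sqrt_inv, Real.sqrt_eq_rpow, ← Real.rpow_natCast, ← Real.rpow_mul (by positivity)]
    congr 1
    ring
  have e3 : -(ρ ^ 2 / 4) * t⁻¹ = -(ρ ^ 2 / (4 * t)) := by
    field_simp
  simp only [Function.comp_apply]
  rw [e1, e2, e3, mul_inv, mul_pow]
  ring

private theorem SuGlim_small (n : ℕ) {ρ c ε : ℝ} (hρ : 0 < ρ) (hε : 0 < ε) :
    ∃ δ : ℝ, 0 < δ ∧ ∀ t : ℝ, 0 < t → t < δ →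
      c * ((Real.sqrt (4 * Real.pi * t))⁻¹ ^ n * Real.exp (-(ρ ^ 2 / (4 * t)))) < ε := by
  have h := (SuGlim_tail n hρ).const_mul c
  rw [mul_zero] at h
  have h2 := h.eventually (gt_mem_nhds hε)
  rw [eventually_nhdsWithin_iff, Metric.eventually_nhds_iff] at h2
  obtain ⟨δ, hδ, h3⟩ := h2
  refine ⟨δ, hδ, fun t ht ht' => h3 ?_ ht⟩
  rw [Real.dist_eq, sub_zero, abs_of_pos ht]
  exact ht'

private theorem SuGlim_cont {M : ℕ} (x : En M) (t : ℝ) :
    Continuous (fun y : En M => Real.exp (-(‖x - y‖ ^ 2 / (4 * t)))) := by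
  fun_prop

theorem Geo.gauss_limit {n M : ℕ} (G : Geo n M) {ε : ℝ} (hε : 0 < ε) :
    ∃ δ : ℝ, 0 < δ ∧ ∀ t : ℝ, 0 < t → t < δ → ∀ x ∈ G.carrier,
      |(Real.sqrt (4 * Real.pi * t))⁻¹ ^ n *
        ∫ y, Real.exp (-(‖x - y‖ ^ 2 / (4 * t))) ∂G.μ - 1| < ε := by
  by_contra hcon
  push Not at hcon
  have hk : ∀ k : ℕ, ∃ t : ℝ, 0 < t ∧ t < 1 / ((k : ℝ) + 1) ∧ ∃ x ∈ G.carrier,
      ε ≤ |(Real.sqrt (4 * Real.pi * t))⁻¹ ^ n *
        ∫ y, Real.exp (-(‖x - y‖ ^ 2 / (4 * t))) ∂G.μ - 1| := fun k => by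
    obtain ⟨t, h1, h2, x, h3, h4⟩ := hcon (1 / ((k : ℝ) + 1)) (by positivity)
    exact ⟨t, h1, h2, x, h3, h4⟩
  choose t ht0 ht1 x hx hbad using hk
  obtain ⟨x₀, hx₀, φ, hφ, hlim⟩ := G.compact.tendsto_subseq hx
  have htlim : Tendsto (fun k => t (φ k)) atTop (𝓝 0) := by
    have h1 : Tendsto t atTop (𝓝 0) :=
      squeeze_zero (fun k => (ht0 k).le) (fun k => (ht1 k).le) tendsto_one_div_add_atTop_nhds_zero_nat
    exact h1.comp hφ.tendsto_atTop
  obtain ⟨U, ψ, O, κ, h, hO, -⟩ := G.exists_chart hx₀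
  obtain ⟨r, hr, hball⟩ := Metric.nhds_basis_closedBall.mem_iff.1 (h.openO.mem_nhds hO)
  let χ : ContDiffBump x₀ := ⟨r / 2, r, by positivity, by linarith⟩
  have hχc : Continuous (χ : En M → ℝ) := χ.continuous
  have hχs : tsupport (χ : En M → ℝ) ⊆ O := by
    rw [χ.tsupport_eq]
    exact hball
  have hmain := G.gauss_limit_chart h hχc χ.hasCompactSupport hχs hx₀ hO
    (x := fun k => x (φ k)) (fun k => hx (φ k)) hlim (t := fun k => t (φ k))
    (fun k => ht0 (φ k)) htlim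
  have hone : (χ : En M → ℝ) x₀ = 1 :=
    χ.one_of_mem_closedBall (Metric.mem_closedBall_self (by positivity))
  rw [hone] at hmain
  -- the tail
  have htail : Tendsto (fun k => (Real.sqrt (4 * Real.pi * t (φ k)))⁻¹ ^ n *
      ∫ y, (1 - χ y) * Real.exp (-(‖x (φ k) - y‖ ^ 2 / (4 * t (φ k)))) ∂G.μ) atTop (𝓝 0) := by
    have hup : Tendsto (fun k => ((Real.sqrt (4 * Real.pi * t (φ k)))⁻¹ ^ n *
        Real.exp (-((r / 4) ^ 2 / (4 * t (φ k))))) * G.μ.real univ) atTop (𝓝 0) := by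
      have h1 : Tendsto (fun k => t (φ k)) atTop (𝓝[>] (0 : ℝ)) :=
        tendsto_nhdsWithin_iff.2 ⟨htlim, Eventually.of_forall fun k => ht0 (φ k)⟩
      have h2 := ((SuGlim_tail n (ρ := r / 4) (by positivity)).comp h1).mul_const (G.μ.real univ)
      rw [zero_mul] at h2
      exact h2
    refine squeeze_zero' (Eventually.of_forall fun k => ?_) ?_ hup
    · refine mul_nonneg (by positivity) (integral_nonneg fun y => ?_)
      exact mul_nonneg (sub_nonneg.2 χ.le_one) (Real.exp_pos _).le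
    · have hev : ∀ᶠ k in atTop, x (φ k) ∈ Metric.ball x₀ (r / 4) :=
        hlim.eventually (Metric.ball_mem_nhds x₀ (by positivity))
      filter_upwards [hev] with k hk
      have hcc : 0 ≤ (Real.sqrt (4 * Real.pi * t (φ k)))⁻¹ ^ n := by positivity
      rw [mul_assoc ((Real.sqrt (4 * Real.pi * t (φ k)))⁻¹ ^ n)]
      refine mul_le_mul_of_nonneg_left ?_ hcc
      have hpt : ∀ y : En M, (1 - χ y) * Real.exp (-(‖x (φ k) - y‖ ^ 2 / (4 * t (φ k)))) ≤
          Real.exp (-((r / 4) ^ 2 / (4 * t (φ k)))) := by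
        intro y
        have hχ0 : (0 : ℝ) ≤ (χ : En M → ℝ) y := χ.nonneg
        by_cases hy : y ∈ Metric.closedBall x₀ (r / 2)
        · have h1 : (χ : En M → ℝ) y = 1 := χ.one_of_mem_closedBall hy
          rw [h1, sub_self, zero_mul]
          positivity
        · have hd : r / 4 ≤ ‖x (φ k) - y‖ := by
            rw [Metric.mem_closedBall, not_le] at hy
            rw [Metric.mem_ball] at hk
            have := dist_triangle y (x (φ k)) x₀
            rw [← dist_eq_norm, dist_comm (x (φ k)) y]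
            linarith
          have h2 : Real.exp (-(‖x (φ k) - y‖ ^ 2 / (4 * t (φ k)))) ≤
              Real.exp (-((r / 4) ^ 2 / (4 * t (φ k)))) := by
            apply Real.exp_le_exp.2
            have := ht0 (φ k)
            apply neg_le_neg
            apply div_le_div_of_nonneg_right _ (by positivity)
            exact pow_le_pow_left₀ (by positivity) hd 2
          calc _ ≤ 1 * Real.exp (-(‖x (φ k) - y‖ ^ 2 / (4 * t (φ k)))) := by
                apply mul_le_mul_of_nonneg_right _ (Real.exp_pos _).le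
                linarith
            _ ≤ _ := by rw [one_mul]; exact h2
      calc ∫ y, (1 - χ y) * Real.exp (-(‖x (φ k) - y‖ ^ 2 / (4 * t (φ k)))) ∂G.μ
          ≤ ∫ _, Real.exp (-((r / 4) ^ 2 / (4 * t (φ k)))) ∂G.μ := by
            apply integral_mono_of_nonneg
            · exact Eventually.of_forall fun y =>
                mul_nonneg (sub_nonneg.2 χ.le_one) (Real.exp_pos _).le
            · exact integrable_const _
            · exact Eventually.of_forall hpt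
        _ = _ := by rw [integral_const, smul_eq_mul, mul_comm]
  have hsum := hmain.add htail
  rw [add_zero] at hsum
  have hI : ∀ k, (Real.sqrt (4 * Real.pi * t (φ k)))⁻¹ ^ n *
      (∫ y, χ y * Real.exp (-(‖x (φ k) - y‖ ^ 2 / (4 * t (φ k)))) ∂G.μ) +
      (Real.sqrt (4 * Real.pi * t (φ k)))⁻¹ ^ n *
      (∫ y, (1 - χ y) * Real.exp (-(‖x (φ k) - y‖ ^ 2 / (4 * t (φ k)))) ∂G.μ) =
      (Real.sqrt (4 * Real.pi * t (φ k)))⁻¹ ^ n *
        ∫ y, Real.exp (-(‖x (φ k) - y‖ ^ 2 / (4 * t (φ k)))) ∂G.μ := by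
    intro k
    rw [← mul_add, ← integral_add]
    · congr 1
      refine MeasureTheory.integral_congr_ae (Eventually.of_forall fun y => ?_)
      show χ y * _ + (1 - χ y) * _ = _
      ring
    · exact G.integrable (hχc.mul (SuGlim_cont _ _)).continuousOn
    · exact G.integrable ((continuous_const.sub hχc).mul (SuGlim_cont _ _)).continuousOn
  have hfin := hsum.congr hI
  have hev2 : ∀ᶠ k in atTop, |(Real.sqrt (4 * Real.pi * t (φ k)))⁻¹ ^ n *
        ∫ y, Real.exp (-(‖x (φ k) - y‖ ^ 2 / (4 * t (φ k)))) ∂G.μ - 1| < ε := by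
    have := Metric.tendsto_nhds.1 hfin ε hε
    simpa only [Real.dist_eq] using this
  obtain ⟨k, hk⟩ := hev2.exists
  exact absurd hk (not_lt.2 (hbad (φ k)))

theorem Geo.gauss_limit_weight {n M : ℕ} (G : Geo n M) {F : Type*} [NormedAddCommGroup F]
    [NormedSpace ℝ F] [CompleteSpace F] {φ : En M × En M → F}
    (hφ : ContinuousOn φ (G.carrier ×ˢ G.carrier)) {ε : ℝ} (hε : 0 < ε) :
    ∃ δ : ℝ, 0 < δ ∧ ∀ t : ℝ, 0 < t → t < δ → ∀ x ∈ G.carrier,
      ‖(Real.sqrt (4 * Real.pi * t))⁻¹ ^ n •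
        ∫ y, Real.exp (-(‖x - y‖ ^ 2 / (4 * t))) • φ (x, y) ∂G.μ - φ (x, x)‖ < ε := by
  have hcomp : IsCompact (G.carrier ×ˢ G.carrier) := G.compact.prod G.compact
  obtain ⟨C, hC⟩ := hcomp.exists_bound_of_continuousOn hφ
  set C₀ : ℝ := max C 0 with hC₀
  have hC₀0 : 0 ≤ C₀ := le_max_right _ _
  have hb : ∀ p ∈ G.carrier ×ˢ G.carrier, ‖φ p‖ ≤ C₀ := fun p hp => (hC p hp).trans (le_max_left _ _)
  have huc := hcomp.uniformContinuousOn_of_continuous hφ
  rw [Metric.uniformContinuousOn_iff] at huc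
  obtain ⟨η, hη, hu⟩ := huc (ε / 8) (by positivity)
  set m : ℝ := G.μ.real univ with hm
  have hm0 : 0 ≤ m := measureReal_nonneg
  obtain ⟨δ₁, hδ₁, h1⟩ := G.gauss_limit (ε := min 1 (ε / (4 * (C₀ + 1)))) (by positivity)
  obtain ⟨δ₂, hδ₂, h2⟩ := SuGlim_small n (ρ := η) (c := 2 * C₀ * m) (ε := ε / 4) hη (by positivity)
  refine ⟨min δ₁ δ₂, lt_min hδ₁ hδ₂, fun t ht htδ x hx => ?_⟩
  have h1' := h1 t ht (htδ.trans_le (min_le_left _ _)) x hx
  have h2' := h2 t ht (htδ.trans_le (min_le_right _ _))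
  set c : ℝ := (Real.sqrt (4 * Real.pi * t))⁻¹ ^ n with hc
  have hc0 : 0 ≤ c := by positivity
  set E : En M → ℝ := fun y => Real.exp (-(‖x - y‖ ^ 2 / (4 * t))) with hE
  have hEc : Continuous E := SuGlim_cont x t
  have hE0 : ∀ y, 0 ≤ E y := fun y => (Real.exp_pos _).le
  have hφx : ContinuousOn (fun y => φ (x, y)) G.carrier :=
    hφ.comp (by fun_prop) fun y hy => ⟨hx, hy⟩
  have hint1 : Integrable (fun y => E y • φ (x, y)) G.μ := G.integrable (hEc.continuousOn.smul hφx)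
  have hint2 : Integrable E G.μ := G.integrable hEc.continuousOn
  have hint3 : Integrable (fun y => E y • (φ (x, y) - φ (x, x))) G.μ :=
    G.integrable (hEc.continuousOn.smul (hφx.sub continuousOn_const))
  have hdec : c • ∫ y, E y • φ (x, y) ∂G.μ - φ (x, x) =
      c • ∫ y, E y • (φ (x, y) - φ (x, x)) ∂G.μ + (c * ∫ y, E y ∂G.μ - 1) • φ (x, x) := by
    have e1 : ∫ y, E y • (φ (x, y) - φ (x, x)) ∂G.μ =
        ∫ y, E y • φ (x, y) ∂G.μ - (∫ y, E y ∂G.μ) • φ (x, x) := by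
      have e2 : ∀ y, E y • (φ (x, y) - φ (x, x)) = E y • φ (x, y) - E y • φ (x, x) :=
        fun y => smul_sub _ _ _
      simp only [e2]
      rw [integral_sub hint1 (hint2.smul_const _), integral_smul_const]
    rw [e1, smul_sub, sub_smul, one_smul, mul_smul]
    abel
  rw [hdec]
  have hA : ‖c • ∫ y, E y • (φ (x, y) - φ (x, x)) ∂G.μ‖ ≤
      ε / 8 * (c * ∫ y, E y ∂G.μ) + 2 * C₀ * m * (c * Real.exp (-(η ^ 2 / (4 * t)))) := by
    rw [norm_smul, Real.norm_of_nonneg hc0]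
    have hI : ‖∫ y, E y • (φ (x, y) - φ (x, x)) ∂G.μ‖ ≤
        ∫ y, (ε / 8 * E y + 2 * C₀ * Real.exp (-(η ^ 2 / (4 * t)))) ∂G.μ := by
      refine norm_integral_le_of_norm_le ((hint2.const_mul _).add (integrable_const _)) ?_
      filter_upwards [G.ae_mem] with y hy
      rw [norm_smul, Real.norm_of_nonneg (hE0 y)]
      by_cases hd : dist y x < η
      · have h3 : dist (φ (x, y)) (φ (x, x)) < ε / 8 := by
          refine hu (x, y) ⟨hx, hy⟩ (x, x) ⟨hx, hx⟩ ?_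
          rw [Prod.dist_eq]
          simp [hd]
        rw [dist_eq_norm] at h3
        have h4 : 0 ≤ 2 * C₀ * Real.exp (-(η ^ 2 / (4 * t))) := by positivity
        nlinarith [mul_le_mul_of_nonneg_left h3.le (hE0 y)]
      · have h3 : ‖φ (x, y) - φ (x, x)‖ ≤ 2 * C₀ := by
          refine (norm_sub_le _ _).trans ?_
          have := hb (x, y) ⟨hx, hy⟩
          have := hb (x, x) ⟨hx, hx⟩
          linarith
        have h4 : E y ≤ Real.exp (-(η ^ 2 / (4 * t))) := by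
          apply Real.exp_le_exp.2
          apply neg_le_neg
          apply div_le_div_of_nonneg_right _ (by positivity)
          apply pow_le_pow_left₀ hη.le
          rw [← dist_eq_norm, dist_comm]
          exact not_lt.1 hd
        have h5 : 0 ≤ ε / 8 * E y := mul_nonneg (by positivity) (hE0 y)
        calc E y * ‖φ (x, y) - φ (x, x)‖ ≤ Real.exp (-(η ^ 2 / (4 * t))) * (2 * C₀) :=
              mul_le_mul h4 h3 (norm_nonneg _) (Real.exp_pos _).le
          _ ≤ _ := by linarith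
    have hI2 : ∫ y, (ε / 8 * E y + 2 * C₀ * Real.exp (-(η ^ 2 / (4 * t)))) ∂G.μ =
        ε / 8 * ∫ y, E y ∂G.μ + 2 * C₀ * Real.exp (-(η ^ 2 / (4 * t))) * m := by
      rw [integral_add (hint2.const_mul _) (integrable_const _), integral_const_mul, integral_const,
        smul_eq_mul, mul_comm (G.μ.real univ)]
    rw [hI2] at hI
    calc c * ‖∫ y, E y • (φ (x, y) - φ (x, x)) ∂G.μ‖ ≤ c * _ := mul_le_mul_of_nonneg_left hI hc0
      _ = _ := by ring
  have hB : ‖(c * ∫ y, E y ∂G.μ - 1) • φ (x, x)‖ ≤ ε / 4 := by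
    rw [norm_smul, Real.norm_eq_abs]
    have h5 : |c * ∫ y, E y ∂G.μ - 1| ≤ ε / (4 * (C₀ + 1)) :=
      (h1'.trans_le (min_le_right _ _)).le
    calc |c * ∫ y, E y ∂G.μ - 1| * ‖φ (x, x)‖ ≤ ε / (4 * (C₀ + 1)) * C₀ :=
          mul_le_mul h5 (hb (x, x) ⟨hx, hx⟩) (norm_nonneg _) (by positivity)
      _ ≤ ε / (4 * (C₀ + 1)) * (C₀ + 1) := by
          apply mul_le_mul_of_nonneg_left _ (by positivity)
          linarith
      _ = ε / 4 := by
          field_simp
  have h6 : c * ∫ y, E y ∂G.μ ≤ 2 := by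
    have := (abs_lt.1 (h1'.trans_le (min_le_left _ _))).2
    linarith
  calc _ ≤ ‖c • ∫ y, E y • (φ (x, y) - φ (x, x)) ∂G.μ‖ + ‖(c * ∫ y, E y ∂G.μ - 1) • φ (x, x)‖ :=
        norm_add_le _ _
    _ < ε := by nlinarith

end Pool.Agent.EXO
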