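import Mathlib
import Pool.Agent.EXO.SuDiv
import Pool.Agent.EXO.SuIntB
import Pool.Agent.EXO.SuZe
import Pool.Agent.EXO.SuAtl

/-!
# EXO / SuIbp: the divergence theorem on a closed submanifold

PROOFS.
* `integral_fderiv_chart` (local).  Both integrands vanish outside `O`, so by `integral_chart` (the
  integrands are continuous) we have to show, with `ρ u = volF (fderiv ℝ ψ u)`, `ξ = xi ψ v`:
  `∫ u in U, ρ u • fderiv ℝ f (ψ u) (P (ψ u) v) = - ∫ u in U, ρ u • (⟪Hv (ψ u), v⟫ • f (ψ u))`.
  Let `g = U.indicator (f ∘ ψ)`, a `C¹` function with compact support in `U` (`IsChart.comp_zero_ext`).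
  For `u ∈ U`: `fderiv ℝ g u w = fderiv ℝ f (ψ u) (fderiv ℝ ψ u w)`, so
  `fderiv ℝ f (ψ u) (P (ψ u) v) = fderiv ℝ g u (ξ u) = ∑ i, (ξ u) i • fderiv ℝ g u (bv i)`
  (`fderiv_ψ_xi`).  By `integral_bilinear_fderiv_right_eq_neg_left_of_integrable` (or
  `integral_smul_fderiv_eq_neg_fderiv_smul_of_integrable`) with `f := fun u => ρ u * (ξ u) i`
  (differentiable at the points of `tsupport g ⊆ U`), for each `i`:
  `∫ u, (ρ u * (ξ u) i) • fderiv ℝ g u (bv i) = - ∫ u, (fderiv ℝ (ρ ξ_i) u (bv i)) • g u`; the products are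
  continuous with compact support (they are products with `g` or `fderiv ℝ g` of functions continuous on
  `U`), hence integrable.  Add up over `i` and use `div_xi`.
* `integral_fderiv` (global).  Let `A` be an atlas.  `f = ∑ i, χ i • f` near `V` (`sum_one`), so
  `fderiv ℝ f x = ∑ i, fderiv ℝ (χ i • f) x` for `x ∈ V`; use the local statement for `χ i • f` (compact
  support contained in `O i`: `HasCompactSupport.smul_right`, `tsupport_smul_subset_left`), add up
  (`integral_finset_sum`, integrability from `Geo.integrable`).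
-/

set_option autoImplicit false

open Set Filter Topology MeasureTheory
open scoped ContDiff ENNReal

namespace Pool.Agent.EXO

private theorem suibp_int {m : ℕ} {F : Type*} [NormedAddCommGroup F] [NormedSpace ℝ F]
    {U : Set (En m)} (hU : IsOpen U) {c : En m → ℝ} {k : En m → F} (hc : ContinuousOn c U)
    (hk : Continuous k) (hkc : HasCompactSupport k) (hkU : tsupport k ⊆ U) :
    Integrable (fun u => c u • k u) := by
  have h1 : tsupport (fun u => c u • k u) ⊆ tsupport k := tsupport_smul_subset_right c k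
  have h2 : Continuous (fun u => c u • k u) := continuous_of_tsupport fun x hx =>
    ((hc.continuousAt (hU.mem_nhds (hkU (h1 hx)))).smul hk.continuousAt)
  exact h2.integrable_of_hasCompactSupport hkc.smul_left

namespace Geo

variable {n M : ℕ} (G : Geo n M) {F : Type*} [NormedAddCommGroup F] [NormedSpace ℝ F]

theorem integral_fderiv_chart {U : Set (En n)} {ψ : En n → En M} {O : Set (En M)}
    {κ : En M → En n} (h : IsChart G.carrier U ψ O κ) {f : En M → F} (hf : ContDiff ℝ 1 f)
    (hc : HasCompactSupport f) (hs : tsupport f ⊆ O) (v : En M) :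
    ∫ x, fderiv ℝ f x (G.P x v) ∂G.μ = - ∫ x, (inner ℝ (G.Hv x) v) • f x ∂G.μ := by
  have hfc : Continuous f := hf.continuous
  have hdc : Continuous (fderiv ℝ f) := hf.continuous_fderiv (by simp)
  have hPc : Continuous fun x => G.P x v := (G.smoothP.clm_apply contDiff_const).continuous
  have hHc : Continuous fun x => inner ℝ (G.Hv x) v := G.smooth_Hv.continuous.inner continuous_const
  have hm1 : AEStronglyMeasurable (fun x => fderiv ℝ f x (G.P x v)) G.μ :=
    G.aestronglyMeasurable (hdc.clm_apply hPc).continuousOn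
  have hm2 : AEStronglyMeasurable (fun x => (inner ℝ (G.Hv x) v) • f x) G.μ :=
    G.aestronglyMeasurable (hHc.smul hfc).continuousOn
  rw [G.integral_chart h hm1 (fun x _ hx => by
      rw [fderiv_of_notMem_tsupport ℝ (fun h1 => hx (hs h1))]
      rfl),
    G.integral_chart h hm2 (fun x _ hx => by
      rw [image_eq_zero_of_notMem_tsupport (fun h1 => hx (hs h1)), smul_zero])]
  obtain ⟨hg1, hg2, hg3⟩ := h.comp_zero_ext G.compact (k := 1) (by exact_mod_cast hf) hc hs
  obtain ⟨g, hg⟩ : ∃ g, g = U.indicator fun u => f (ψ u) := ⟨_, rfl⟩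
  rw [← hg] at hg1 hg2 hg3
  have hg1' : ContDiff ℝ 1 g := by exact_mod_cast hg1
  obtain ⟨W, hW⟩ : ∃ W, W = fun w => volF (fderiv ℝ ψ w) • xi ψ v w := ⟨_, rfl⟩
  have hWs : ContDiffOn ℝ ∞ W U := by
    rw [hW]
    exact h.smooth_volF.smul (h.smooth_xi v)
  have hWd : ∀ u ∈ U, HasFDerivAt W (fderiv ℝ W u) u := fun u hu =>
    ((hWs.contDiffAt (h.openU.mem_nhds hu)).differentiableAt (by simp)).hasFDerivAt
  have hφd : ∀ i, ∀ u ∈ U, HasFDerivAt (fun w => W w i)
      ((EuclideanSpace.proj i : En n →L[ℝ] ℝ).comp (fderiv ℝ W u)) u := fun i u hu =>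
    (EuclideanSpace.proj i : En n →L[ℝ] ℝ).hasFDerivAt.comp u (hWd u hu)
  have hφc : ∀ i, ContinuousOn (fun w => W w i) U := fun i u hu =>
    (hφd i u hu).continuousAt.continuousWithinAt
  have hφe : ∀ i, ∀ u ∈ U, fderiv ℝ (fun w => W w i) u (bv i) = fderiv ℝ W u (bv i) i := by
    intro i u hu
    rw [(hφd i u hu).fderiv]
    rfl
  have hφ'c : ∀ i, ContinuousOn (fun w => fderiv ℝ (fun w => W w i) w (bv i)) U := by
    intro i
    have h1 : ContinuousOn (fun w => fderiv ℝ W w (bv i) i) U := by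
      have h2 : ContinuousOn (fderiv ℝ W) U :=
        hWs.continuousOn_fderiv_of_isOpen h.openU (by simp)
      exact (EuclideanSpace.proj i : En n →L[ℝ] ℝ).continuous.comp_continuousOn
        (h2.clm_apply continuousOn_const)
    exact h1.congr (hφe i)
  have hgd : Differentiable ℝ g := hg1'.differentiable (by simp)
  have hgf : Continuous (fderiv ℝ g) := hg1'.continuous_fderiv (by simp)
  have hgi : ∀ i, Continuous fun u => fderiv ℝ g u (bv i) := fun i =>
    hgf.clm_apply continuous_const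
  have hgis : ∀ i : Fin n, tsupport (fun u => fderiv ℝ g u (bv i)) ⊆ U := fun i =>
    (tsupport_fderiv_apply_subset ℝ (bv i)).trans hg3
  have hgic : ∀ i : Fin n, HasCompactSupport (fun u => fderiv ℝ g u (bv i)) := fun i =>
    hg2.fderiv_apply ℝ (bv i)
  have hI1 : ∀ i, Integrable (fun u => (W u i) • fderiv ℝ g u (bv i)) := fun i =>
    suibp_int h.openU (hφc i) (hgi i) (hgic i) (hgis i)
  have hI2 : ∀ i, Integrable (fun u => (fderiv ℝ (fun w => W w i) u (bv i)) • g u) := fun i =>
    suibp_int h.openU (hφ'c i) hg1'.continuous hg2 hg3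
  have hI3 : ∀ i, Integrable (fun u => (W u i) • g u) := fun i =>
    suibp_int h.openU (hφc i) hg1'.continuous hg2 hg3
  have hibp : ∀ i, ∫ u, (W u i) • fderiv ℝ g u (bv i) =
      - ∫ u, (fderiv ℝ (fun w => W w i) u (bv i)) • g u := fun i =>
    integral_smul_fderiv_eq_neg_fderiv_smul_of_integrable (hI2 i) (hI1 i) (hI3 i)
      (fun x hx => (hφd i x (hg3 hx)).differentiableAt) (fun x _ => hgd x)
  have hgU : ∀ u ∈ U, HasFDerivAt g ((fderiv ℝ f (ψ u)).comp (fderiv ℝ ψ u)) u := by
    intro u hu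
    have h1 : HasFDerivAt (f ∘ ψ) ((fderiv ℝ f (ψ u)).comp (fderiv ℝ ψ u)) u :=
      ((hf.differentiable (by simp) _).hasFDerivAt).comp u (h.differentiableAt_ψ hu).hasFDerivAt
    refine h1.congr_of_eventuallyEq ?_
    filter_upwards [h.openU.mem_nhds hu] with w hw
    rw [hg, Set.indicator_of_mem hw]
    rfl
  have eL : ∫ u in U, volF (fderiv ℝ ψ u) • fderiv ℝ f (ψ u) (G.P (ψ u) v) =
      ∫ u, ∑ i, (W u i) • fderiv ℝ g u (bv i) := by
    rw [← setIntegral_eq_integral_of_forall_compl_eq_zero (s := U)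
      (f := fun u => ∑ i, (W u i) • fderiv ℝ g u (bv i))]
    · refine setIntegral_congr_fun h.openU.measurableSet fun u hu => ?_
      simp only
      rw [(hgU u hu).fderiv, ← G.fderiv_ψ_xi h v hu]
      conv_lhs => rw [sum_bv (xi ψ v u)]
      rw [map_sum, map_sum, Finset.smul_sum]
      refine Finset.sum_congr rfl fun i _ => ?_
      rw [map_smul, map_smul, smul_smul, hW]
      rfl
    · intro u hu
      refine Finset.sum_eq_zero fun i _ => ?_
      rw [fderiv_of_notMem_tsupport ℝ (fun h1 => hu (hg3 h1))]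
      simp
  have eR : ∫ u in U, volF (fderiv ℝ ψ u) • ((inner ℝ (G.Hv (ψ u)) v) • f (ψ u)) =
      ∫ u, ∑ i, (fderiv ℝ (fun w => W w i) u (bv i)) • g u := by
    rw [← setIntegral_eq_integral_of_forall_compl_eq_zero (s := U)
      (f := fun u => ∑ i, (fderiv ℝ (fun w => W w i) u (bv i)) • g u)]
    · refine setIntegral_congr_fun h.openU.measurableSet fun u hu => ?_
      simp only
      rw [← Finset.sum_smul, Finset.sum_congr rfl (fun i _ => hφe i u hu), hW, G.div_xi h v hu,
        smul_smul, hg, Set.indicator_of_mem hu]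
    · intro u hu
      refine Finset.sum_eq_zero fun i _ => ?_
      rw [hg, Set.indicator_of_notMem hu, smul_zero]
  rw [eL, eR, integral_finsetSum _ (fun i _ => hI1 i), integral_finsetSum _ (fun i _ => hI2 i),
    ← Finset.sum_neg_distrib]
  exact Finset.sum_congr rfl fun i _ => hibp i

/-- The divergence theorem: integration by parts for tangential derivatives. -/
theorem integral_fderiv {f : En M → F} (hf : ContDiff ℝ 1 f) (v : En M) :
    ∫ x, fderiv ℝ f x (G.P x v) ∂G.μ = - ∫ x, (inner ℝ (G.Hv x) v) • f x ∂G.μ := by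
  obtain ⟨A⟩ := G.toClosedSub.exists_atl
  have hPc : Continuous fun x => G.P x v := (G.smoothP.clm_apply contDiff_const).continuous
  have hHc : Continuous fun x => inner ℝ (G.Hv x) v := G.smooth_Hv.continuous.inner continuous_const
  have hχ1 : ∀ i, ContDiff ℝ 1 (A.χ i) := fun i => (A.smoothχ i).of_le (by simp)
  have hfi : ∀ i, ContDiff ℝ 1 fun y => A.χ i y • f y := fun i => (hχ1 i).smul hf
  have hloc := fun i => G.integral_fderiv_chart (A.chart i) (hfi i) (A.compχ i).smul_right
    ((tsupport_smul_subset_left (A.χ i) f).trans (A.suppχ i)) v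
  have hsum : ∀ x ∈ G.carrier, ∑ i, A.χ i x = 1 := fun x hx => A.sum_one.self_of_nhdsSet x hx
  have e1 : ∫ x, fderiv ℝ f x (G.P x v) ∂G.μ =
      ∫ x, ∑ i, fderiv ℝ (fun y => A.χ i y • f y) x (G.P x v) ∂G.μ := by
    refine G.integral_congr fun x hx => ?_
    have h1 : f =ᶠ[𝓝 x] fun y => ∑ i, A.χ i y • f y := by
      have h2 : ∀ᶠ y in 𝓝 x, ∑ i, A.χ i y = 1 :=
        (eventually_nhdsSet_iff_forall.mp A.sum_one) x hx
      filter_upwards [h2] with y hy
      rw [← Finset.sum_smul, hy, one_smul]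
    rw [h1.fderiv_eq, fderiv_fun_sum fun i _ => (hfi i).differentiable (by simp) x,
      _root_.sum_apply]
  have e2 : ∫ x, (inner ℝ (G.Hv x) v) • f x ∂G.μ =
      ∫ x, ∑ i, (inner ℝ (G.Hv x) v) • (A.χ i x • f x) ∂G.μ := by
    refine G.integral_congr fun x hx => ?_
    rw [← Finset.smul_sum, ← Finset.sum_smul, hsum x hx, one_smul]
  rw [e1, e2, integral_finsetSum, integral_finsetSum, ← Finset.sum_neg_distrib]
  · exact Finset.sum_congr rfl fun i _ => hloc i
  · intro i _
    exact G.integrable (hHc.smul (hfi i).continuous).continuousOn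
  · intro i _
    exact G.integrable (((hfi i).continuous_fderiv (by simp)).clm_apply hPc).continuousOn

theorem integral_dt {f : En M → F} (hf : ContDiff ℝ 1 f) (a : Fin M) :
    ∫ x, G.dt a f x ∂G.μ = - ∫ x, (G.Hv x a) • f x ∂G.μ := by
  rw [show (fun x => G.dt a f x) = fun x => fderiv ℝ f x (G.P x (bv a)) from rfl,
    G.integral_fderiv hf (bv a)]
  simp only [real_inner_comm (bv a), inner_bv]

end Geo

end Pool.Agent.EXO
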