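import Mathlib

/-!
# EXO / SuHad: smooth parametric integrals on [0,1] and Hadamard's lemma (orders 1 and 2)
-/

set_option autoImplicit false

namespace Pool.Agent.EXO

open scoped ContDiff Topology
open Set Filter MeasureTheory

universe u

section param

variable {Z : Type u} [NormedAddCommGroup Z] [NormedSpace ℝ Z]

theorem hasFDerivAt_param {F : Type u} [NormedAddCommGroup F] [NormedSpace ℝ F]
    [CompleteSpace F] {G : Z × ℝ → F} (hG : ContDiff ℝ 1 G) (z₀ : Z) :
    HasFDerivAt (fun z => ∫ t in (0 : ℝ)..1, G (z, t))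
      (∫ t in (0 : ℝ)..1, (fderiv ℝ G (z₀, t)).comp (ContinuousLinearMap.inl ℝ Z ℝ)) z₀ := by
  have hc : Continuous fun p : Z × ℝ => (fderiv ℝ G p).comp (ContinuousLinearMap.inl ℝ Z ℝ) :=
    (hG.continuous_fderiv one_ne_zero).clm_comp continuous_const
  obtain ⟨C, hC⟩ : ∃ C : ℝ, ∀ t ∈ Icc (0 : ℝ) 1,
      ‖(fderiv ℝ G (z₀, t)).comp (ContinuousLinearMap.inl ℝ Z ℝ)‖ ≤ C := by
    have := (isCompact_Icc (a := (0 : ℝ)) (b := 1)).exists_bound_of_continuousOn
      (hc.comp (Continuous.prodMk_right z₀)).continuousOn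
    exact this
  have hopen : IsOpen {p : Z × ℝ | ‖(fderiv ℝ G p).comp (ContinuousLinearMap.inl ℝ Z ℝ)‖ < C + 1} :=
    isOpen_lt hc.norm continuous_const
  obtain ⟨a, b, ha, hb, hza, hIb, hab⟩ := generalized_tube_lemma (isCompact_singleton (x := z₀))
    (isCompact_Icc (a := (0 : ℝ)) (b := 1)) hopen (by
      rintro ⟨z, t⟩ ⟨hz, ht⟩
      rw [mem_singleton_iff] at hz
      subst hz
      exact lt_of_le_of_lt (hC t ht) (lt_add_one C))
  refine intervalIntegral.hasFDerivAt_integral_of_dominated_of_fderiv_le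
    (F := fun z t => G (z, t))
    (F' := fun z t => (fderiv ℝ G (z, t)).comp (ContinuousLinearMap.inl ℝ Z ℝ))
    (bound := fun _ => C + 1)
    (ha.mem_nhds (hza rfl)) ?_ ?_ ?_ ?_ ?_ ?_
  · exact Eventually.of_forall fun z =>
      (hG.continuous.comp (Continuous.prodMk_right z)).aestronglyMeasurable
  · exact (hG.continuous.comp (Continuous.prodMk_right z₀)).intervalIntegrable _ _
  · exact (hc.comp (Continuous.prodMk_right z₀)).aestronglyMeasurable
  · refine Eventually.of_forall fun t ht z hz => ?_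
    rw [uIoc_of_le zero_le_one] at ht
    exact le_of_lt (hab (mk_mem_prod hz (hIb (Ioc_subset_Icc_self ht))))
  · exact continuous_const.intervalIntegrable _ _
  · refine Eventually.of_forall fun t ht z hz => ?_
    have h1 : HasFDerivAt G (fderiv ℝ G (z, t)) (z, t) :=
      (hG.differentiable one_ne_zero).differentiableAt.hasFDerivAt
    exact h1.comp z (hasFDerivAt_prodMk_left z t)

theorem contDiff_param_nat (n : ℕ) : ∀ {F : Type u} [NormedAddCommGroup F] [NormedSpace ℝ F]
    [CompleteSpace F] {G : Z × ℝ → F}, ContDiff ℝ ∞ G →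
    ContDiff ℝ n (fun z => ∫ t in (0 : ℝ)..1, G (z, t)) := by
  induction n with
  | zero =>
    intro F _ _ _ G hG
    rw [Nat.cast_zero, contDiff_zero]
    refine intervalIntegral.continuous_parametric_intervalIntegral_of_continuous'
      (f := fun z t => G (z, t)) ?_ 0 1
    exact hG.continuous
  | succ n ih =>
    intro F _ _ _ G hG
    have h1 : ContDiff ℝ ∞ fun p : Z × ℝ =>
        (fderiv ℝ G p).comp (ContinuousLinearMap.inl ℝ Z ℝ) :=
      (hG.fderiv_right (m := ∞) (by simp)).clm_comp contDiff_const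
    rw [Nat.cast_add, Nat.cast_one, contDiff_succ_iff_hasFDerivAt]
    refine ⟨fun z => ∫ t in (0 : ℝ)..1, (fderiv ℝ G (z, t)).comp
      (ContinuousLinearMap.inl ℝ Z ℝ), ih h1, fun z => ?_⟩
    exact hasFDerivAt_param (hG.of_le (by simp)) z

theorem contDiff_param {F : Type u} [NormedAddCommGroup F] [NormedSpace ℝ F]
    [CompleteSpace F] {G : Z × ℝ → F} (hG : ContDiff ℝ ∞ G) :
    ContDiff ℝ ∞ (fun z => ∫ t in (0 : ℝ)..1, G (z, t)) :=
  contDiff_infty.2 fun n => contDiff_param_nat n hG

end param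

section hadamard

variable {n : ℕ} {F : Type} [NormedAddCommGroup F] [NormedSpace ℝ F] [CompleteSpace F]

/-- Hadamard's lemma with a parameter. -/
theorem hadamard_param {R : EuclideanSpace ℝ (Fin n) × EuclideanSpace ℝ (Fin n) → F}
    (hR : ContDiff ℝ ∞ R) :
    ∃ s : Fin n → EuclideanSpace ℝ (Fin n) × EuclideanSpace ℝ (Fin n) → F,
      (∀ b, ContDiff ℝ ∞ (s b)) ∧
      (∀ x y, R (x, y) = R (x, x) + ∑ b, (y b - x b) • s b (x, y)) ∧
      (∀ b x, s b (x, x) = fderiv ℝ R (x, x) (0, EuclideanSpace.single b 1)) := by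
  refine ⟨fun b p => ∫ t in (0 : ℝ)..1,
    fderiv ℝ R (p.1, p.1 + t • (p.2 - p.1)) (0, EuclideanSpace.single b 1), fun b => ?_,
    fun x y => ?_, fun b x => ?_⟩
  · refine contDiff_param (G := fun q : (EuclideanSpace ℝ (Fin n) × EuclideanSpace ℝ (Fin n)) × ℝ =>
      fderiv ℝ R (q.1.1, q.1.1 + q.2 • (q.1.2 - q.1.1)) (0, EuclideanSpace.single b 1)) ?_
    have h1 : ContDiff ℝ ∞ (fun q : (EuclideanSpace ℝ (Fin n) × EuclideanSpace ℝ (Fin n)) × ℝ =>
        (q.1.1, q.1.1 + q.2 • (q.1.2 - q.1.1))) := by fun_prop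
    exact ((hR.fderiv_right (m := ∞) (by simp)).comp h1).clm_apply contDiff_const
  · have hd : ∀ t ∈ uIcc (0 : ℝ) 1, HasDerivAt (fun t : ℝ => R (x, x + t • (y - x)))
        (fderiv ℝ R (x, x + t • (y - x)) (0, y - x)) t := by
      intro t _
      have h1 : HasFDerivAt R (fderiv ℝ R (x, x + t • (y - x))) (x, x + t • (y - x)) :=
        (hR.differentiable (by simp)).differentiableAt.hasFDerivAt
      have h2 : HasDerivAt (fun t : ℝ => (x, x + t • (y - x))) ((0 : EuclideanSpace ℝ (Fin n)),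
          y - x) t := by
        refine (hasDerivAt_const t x).prodMk ?_
        have h3 := ((hasDerivAt_id t).smul_const (y - x)).const_add x
        simpa using h3
      exact h1.comp_hasDerivAt t h2
    have hcont : Continuous fun t : ℝ => fderiv ℝ R (x, x + t • (y - x)) (0, y - x) := by
      have h1 : Continuous (fderiv ℝ R) := hR.continuous_fderiv (by simp)
      exact (h1.comp (by fun_prop)).clm_apply continuous_const
    have h4 := intervalIntegral.integral_eq_sub_of_hasDerivAt hd (hcont.intervalIntegrable _ _)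
    have h5 : R (x, y) = R (x, x) + ∫ t in (0 : ℝ)..1,
        fderiv ℝ R (x, x + t • (y - x)) (0, y - x) := by
      rw [h4]; simp
    rw [h5]
    congr 1
    have h6 : ∀ t : ℝ, fderiv ℝ R (x, x + t • (y - x)) (0, y - x) =
        ∑ b, (y b - x b) • fderiv ℝ R (x, x + t • (y - x)) (0, EuclideanSpace.single b 1) := by
      intro t
      have h7 : ((0 : EuclideanSpace ℝ (Fin n)), y - x) = ∑ b : Fin n, (y b - x b) •
          ((0 : EuclideanSpace ℝ (Fin n)), EuclideanSpace.single b (1 : ℝ)) := by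
        have h8 : y - x = ∑ b : Fin n, (y b - x b) • EuclideanSpace.single b (1 : ℝ) := by
          ext i
          simp [Finset.sum_apply, Pi.single_apply]
        have h9 : ∀ v : Fin n → EuclideanSpace ℝ (Fin n), ((0 : EuclideanSpace ℝ (Fin n)),
            ∑ b, v b) = ∑ b, ((0 : EuclideanSpace ℝ (Fin n)), v b) := by
          intro v
          exact map_sum (AddMonoidHom.inr (EuclideanSpace ℝ (Fin n)) (EuclideanSpace ℝ (Fin n)))
            v Finset.univ
        conv_lhs => rw [h8, h9]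
        refine Finset.sum_congr rfl fun b _ => ?_
        simp
      rw [h7, map_sum]
      simp only [map_smul]
    simp_rw [h6]
    rw [intervalIntegral.integral_finsetSum]
    · refine Finset.sum_congr rfl fun b _ => ?_
      rw [intervalIntegral.integral_smul]
    · intro b _
      have h1 : Continuous (fderiv ℝ R) := hR.continuous_fderiv (by simp)
      refine Continuous.intervalIntegrable ?_ _ _
      exact ((h1.comp (by fun_prop)).clm_apply continuous_const).const_smul _
  · simp

theorem hadamard_one {f : EuclideanSpace ℝ (Fin n) → F} (hf : ContDiff ℝ ∞ f) :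
    ∃ s : Fin n → EuclideanSpace ℝ (Fin n) × EuclideanSpace ℝ (Fin n) → F,
      (∀ b, ContDiff ℝ ∞ (s b)) ∧
      (∀ x y, f y = f x + ∑ b, (y b - x b) • s b (x, y)) ∧
      (∀ b x, s b (x, x) = fderiv ℝ f x (EuclideanSpace.single b 1)) := by
  obtain ⟨s, h1, h2, h3⟩ := hadamard_param (R := fun p : EuclideanSpace ℝ (Fin n) ×
    EuclideanSpace ℝ (Fin n) => f p.2) (hf.comp contDiff_snd)
  refine ⟨s, h1, h2, fun b x => ?_⟩
  rw [h3]
  have h4 : HasFDerivAt (fun p : EuclideanSpace ℝ (Fin n) × EuclideanSpace ℝ (Fin n) => f p.2)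
      ((fderiv ℝ f x).comp (ContinuousLinearMap.snd ℝ _ _)) (x, x) := by
    have h5 : HasFDerivAt f (fderiv ℝ f x) ((x, x) : EuclideanSpace ℝ (Fin n) ×
      EuclideanSpace ℝ (Fin n)).2 := (hf.differentiable (by simp)).differentiableAt.hasFDerivAt
    exact h5.comp (x, x) hasFDerivAt_snd
  rw [h4.fderiv]
  rfl

/-- second order Taylor formula with smooth remainder coefficients. -/
theorem hadamard_two {f : EuclideanSpace ℝ (Fin n) → F} (hf : ContDiff ℝ ∞ f) :
    ∃ r : Fin n → Fin n → EuclideanSpace ℝ (Fin n) × EuclideanSpace ℝ (Fin n) → F,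
      (∀ a b, ContDiff ℝ ∞ (r a b)) ∧
      (∀ x y, f y = f x + fderiv ℝ f x (y - x) +
        ∑ a, ∑ b, ((y a - x a) * (y b - x b)) • r a b (x, y)) := by
  obtain ⟨s, h1, h2, h3⟩ := hadamard_one hf
  choose r hr1 hr2 hr3 using fun a => hadamard_param (h1 a)
  refine ⟨r, hr1, fun x y => ?_⟩
  have h4 : fderiv ℝ f x (y - x) = ∑ a, (y a - x a) • s a (x, x) := by
    have h8 : y - x = ∑ b : Fin n, (y b - x b) • EuclideanSpace.single b (1 : ℝ) := by
      ext i
      simp [Finset.sum_apply, Pi.single_apply]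
    conv_lhs => rw [h8]
    rw [map_sum]
    simp only [map_smul, h3]
  rw [h2 x y, h4, add_assoc, ← Finset.sum_add_distrib]
  congr 1
  refine Finset.sum_congr rfl fun a _ => ?_
  conv_lhs => rw [hr2 a x y]
  rw [smul_add, Finset.smul_sum]
  simp only [smul_smul]

end hadamard

end Pool.Agent.EXO
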