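import Mathlib
import Pool.Agent.EXO.SuTan
import Pool.Agent.EXO.SuHad
import Pool.Agent.EXO.SuExt

/-!
# EXO / SuQua: the normal component of a chord is quadratic (local statement)
-/

set_option autoImplicit false

open Set Filter Topology MeasureTheory
open scoped ContDiff ENNReal

namespace Pool.Agent.EXO

theorem Geo.exists_quad_local {n M : ℕ} (G : Geo n M) {x₀ : En M} (hx : x₀ ∈ G.carrier) :
    ∃ r : ℝ, 0 < r ∧ ∃ c : Fin M → Fin M → En M × En M → En M,
      (∀ a b, ContDiff ℝ ∞ (c a b)) ∧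
      ∀ x ∈ G.carrier, ∀ y ∈ G.carrier, dist x x₀ < r → dist y x₀ < r →
        (x - y) - G.P x (x - y) = ∑ a, ∑ b, ((x a - y a) * (x b - y b)) • c a b (x, y) := by
  obtain ⟨U, ψ, O, κ, h, hO, hκ⟩ := G.exists_chart hx
  obtain ⟨ρ, hρ, hρO⟩ := Metric.isOpen_iff.1 h.openO x₀ hO
  set r : ℝ := ρ / 2 with hr
  have hr0 : 0 < r := by positivity
  have hCO : Metric.closedBall x₀ r ⊆ O :=
    (Metric.closedBall_subset_ball (by rw [hr]; linarith)).trans hρO
  have hf : ContDiffOn ℝ ∞ (fun z => ψ (κ z)) O :=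
    h.smoothψ.comp h.smoothκ (fun z hz => hκ z hz)
  obtain ⟨g, hg, hgf⟩ := exists_smooth_extension (F := En M) (Metric.isClosed_closedBall
    (x := x₀) (ε := r)) (fun z => ψ (κ z)) (fun x hx' =>
      ⟨O, h.openO.mem_nhds (hCO hx'), fun z => ψ (κ z), hf, fun y _ => rfl⟩)
  obtain ⟨q, hq1, hq2⟩ := hadamard_two hg
  refine ⟨r, hr0, fun a b p => -(q a b p - G.P p.1 (q a b p)), fun a b => ?_, ?_⟩
  · have h1 : ContDiff ℝ ∞ fun p : En M × En M => G.P p.1 := G.smoothP.comp contDiff_fst
    exact ((hq1 a b).sub (h1.clm_apply (hq1 a b))).neg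
  · intro x hxV y hyV hxr hyr
    have hxO : x ∈ O := hCO (Metric.mem_closedBall.2 hxr.le)
    have hyO : y ∈ O := hCO (Metric.mem_closedBall.2 hyr.le)
    have hgx : g x = x := by
      rw [hgf x (Metric.mem_closedBall.2 hxr.le)]
      exact h.right x ⟨hxV, hxO⟩
    have hgy : g y = y := by
      rw [hgf y (Metric.mem_closedBall.2 hyr.le)]
      exact h.right y ⟨hyV, hyO⟩
    have hux : κ x ∈ U := hκ x hxO
    have hψx : ψ (κ x) = x := h.right x ⟨hxV, hxO⟩
    have he : g =ᶠ[𝓝 x] fun z => ψ (κ z) := by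
      filter_upwards [Metric.isOpen_ball.mem_nhds (Metric.mem_ball.2 hxr)] with z hz
      exact hgf z (Metric.ball_subset_closedBall hz)
    have hd : fderiv ℝ g x = (fderiv ℝ ψ (κ x)).comp (fderiv ℝ κ x) := by
      rw [he.fderiv_eq]
      exact fderiv_comp x (h.differentiableAt_ψ hux) (h.differentiableAt_κ hxO)
    have hPD : G.P x (fderiv ℝ g x (y - x)) = fderiv ℝ g x (y - x) := by
      rw [hd, ContinuousLinearMap.comp_apply]
      have := G.P_fderiv h hux (fderiv ℝ κ x (y - x))
      rwa [hψx] at this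
    have h1 := hq2 x y
    rw [hgx, hgy] at h1
    have h2 : y - x = fderiv ℝ g x (y - x) +
        ∑ a, ∑ b, ((y a - x a) * (y b - x b)) • q a b (x, y) := by
      rw [sub_eq_iff_eq_add]
      conv_lhs => rw [h1]
      abel
    have h3 : G.P x (y - x) = fderiv ℝ g x (y - x) +
        ∑ a, ∑ b, ((y a - x a) * (y b - x b)) • G.P x (q a b (x, y)) := by
      conv_lhs => rw [h2]
      rw [map_add, hPD, map_sum]
      congr 1
      refine Finset.sum_congr rfl fun a _ => ?_
      rw [map_sum]
      refine Finset.sum_congr rfl fun b _ => ?_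
      rw [map_smul]
    have h4 : (x - y) - G.P x (x - y) = -((y - x) - G.P x (y - x)) := by
      have : x - y = -(y - x) := (neg_sub y x).symm
      rw [this, map_neg]
      abel
    rw [h4]
    have h5 : (y - x) - G.P x (y - x) =
        ∑ a, ∑ b, ((y a - x a) * (y b - x b)) • (q a b (x, y) - G.P x (q a b (x, y))) := by
      conv_lhs => rw [h3]
      conv_lhs => enter [1]; rw [h2]
      rw [add_sub_add_left_eq_sub, ← Finset.sum_sub_distrib]
      refine Finset.sum_congr rfl fun a _ => ?_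
      rw [← Finset.sum_sub_distrib]
      refine Finset.sum_congr rfl fun b _ => ?_
      rw [smul_sub]
    rw [h5, ← Finset.sum_neg_distrib]
    refine Finset.sum_congr rfl fun a _ => ?_
    rw [← Finset.sum_neg_distrib]
    refine Finset.sum_congr rfl fun b _ => ?_
    rw [smul_neg]
    congr 2
    ring

end Pool.Agent.EXO
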