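import Mathlib
import Pool.Agent.EXO.SuQua

/-!
# EXO / SuQuad: the normal component of a chord is quadratic
-/

set_option autoImplicit false

open Set Filter Topology MeasureTheory
open scoped ContDiff ENNReal

namespace Pool.Agent.EXO

/-- The normal component of `x - y` is a quadratic expression in `x - y` with smooth
coefficients. -/
theorem Geo.exists_quad {n M : ℕ} (G : Geo n M) :
    ∃ c : Fin M → Fin M → En M × En M → En M, (∀ a b, ContDiff ℝ ∞ (c a b)) ∧
      ∀ x ∈ G.carrier, ∀ y ∈ G.carrier,
        (x - y) - G.P x (x - y) = ∑ a, ∑ b, ((x a - y a) * (x b - y b)) • c a b (x, y) := by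
  classical
  have hC : IsClosed (G.carrier ×ˢ G.carrier) := G.compact.isClosed.prod G.compact.isClosed
  obtain ⟨g, hg, hg2⟩ := exists_smooth_of_local_closed (F := Fin M → Fin M → En M) hC
    (fun p => {c | (p.1 - p.2) - G.P p.1 (p.1 - p.2) =
      ∑ a, ∑ b, ((p.1 a - p.2 a) * (p.1 b - p.2 b)) • c a b})
    (fun p => by
      intro c hc c' hc' s t hs ht hst
      simp only [mem_setOf_eq] at hc hc' ⊢
      have h1 : (p.1 - p.2) - G.P p.1 (p.1 - p.2) =
          s • ((p.1 - p.2) - G.P p.1 (p.1 - p.2)) + t • ((p.1 - p.2) - G.P p.1 (p.1 - p.2)) := by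
        rw [← add_smul, hst, one_smul]
      rw [h1]
      conv_lhs => enter [1]; rw [hc]
      conv_lhs => enter [2]; rw [hc']
      rw [Finset.smul_sum, Finset.smul_sum, ← Finset.sum_add_distrib]
      refine Finset.sum_congr rfl fun a _ => ?_
      rw [Finset.smul_sum, Finset.smul_sum, ← Finset.sum_add_distrib]
      refine Finset.sum_congr rfl fun b _ => ?_
      simp only [Pi.add_apply, Pi.smul_apply, smul_add]
      rw [smul_comm s, smul_comm t])
    (fun p hp => by
      obtain ⟨h1, h2⟩ := hp
      by_cases hxy : p.1 = p.2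
      · obtain ⟨r, hr, c, hc1, hc2⟩ := G.exists_quad_local h1
        refine ⟨Metric.ball p.1 r ×ˢ Metric.ball p.1 r, ?_, fun z a b => c a b z, ?_, ?_⟩
        · have : p = (p.1, p.1) := Prod.ext rfl hxy.symm
          rw [this]
          exact prod_mem_nhds (Metric.ball_mem_nhds _ hr) (Metric.ball_mem_nhds _ hr)
        · exact (contDiff_pi.2 fun a => contDiff_pi.2 fun b => hc1 a b).contDiffOn
        · rintro z ⟨⟨hz1, hz2⟩, hz3, hz4⟩
          exact hc2 z.1 hz3 z.2 hz4 hz1 hz2
      · refine ⟨{z | z.1 ≠ z.2}, ?_, fun z a b => if a = b then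
          (‖z.1 - z.2‖ ^ 2)⁻¹ • ((z.1 - z.2) - G.P z.1 (z.1 - z.2)) else 0, ?_, ?_⟩
        · exact (isOpen_ne_fun continuous_fst continuous_snd).mem_nhds hxy
        · refine contDiffOn_pi.2 fun a => contDiffOn_pi.2 fun b => ?_
          by_cases hab : a = b
          · simp only [hab, if_true]
            have h3 : ContDiff ℝ ∞ fun z : En M × En M => z.1 - z.2 :=
              contDiff_fst.sub contDiff_snd
            have h4 : ContDiff ℝ ∞ fun z : En M × En M => G.P z.1 (z.1 - z.2) :=
              (G.smoothP.comp contDiff_fst).clm_apply h3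
            have h5 : ContDiffOn ℝ ∞ (fun z : En M × En M => (‖z.1 - z.2‖ ^ 2)⁻¹)
                {z | z.1 ≠ z.2} := by
              refine (h3.norm_sq ℝ).contDiffOn.inv ?_
              intro z hz
              have : z.1 - z.2 ≠ 0 := sub_ne_zero.2 hz
              positivity
            exact h5.smul (h3.sub h4).contDiffOn
          · simp only [hab, if_false]
            exact contDiffOn_const
        · rintro z ⟨hz, -⟩
          have hz' : z.1 - z.2 ≠ 0 := sub_ne_zero.2 hz
          simp only [mem_setOf_eq]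
          have h3 : ∀ a : Fin M, ∑ b, ((z.1 a - z.2 a) * (z.1 b - z.2 b)) •
              (if a = b then (‖z.1 - z.2‖ ^ 2)⁻¹ • ((z.1 - z.2) - G.P z.1 (z.1 - z.2)) else 0)
              = ((z.1 a - z.2 a) ^ 2) •
                (‖z.1 - z.2‖ ^ 2)⁻¹ • ((z.1 - z.2) - G.P z.1 (z.1 - z.2)) := by
            intro a
            rw [Finset.sum_eq_single a]
            · rw [if_pos rfl, ← sq (z.1 a - z.2 a)]
            · intro b _ hb
              rw [if_neg (Ne.symm hb), smul_zero]
            · intro h
              exact absurd (Finset.mem_univ a) h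
          rw [Finset.sum_congr rfl fun a _ => h3 a, ← Finset.sum_smul, smul_smul]
          have h4 : ∑ a, (z.1 a - z.2 a) ^ 2 = ‖z.1 - z.2‖ ^ 2 := by
            rw [EuclideanSpace.norm_sq_eq]
            refine Finset.sum_congr rfl fun a _ => ?_
            rw [PiLp.sub_apply, Real.norm_eq_abs, sq_abs]
          rw [h4, mul_inv_cancel₀ (by positivity), one_smul])
  refine ⟨fun a b z => g z a b, fun a b => ?_, fun x hx y hy => hg2 (x, y) ⟨hx, hy⟩⟩
  exact contDiff_pi.1 (contDiff_pi.1 hg a) b

end Pool.Agent.EXO
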