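import Mathlib
import Pool.Agent.EXO.SuTan
import Pool.Agent.EXO.SuHv

/-!
# EXO / SuLimA: limits of smooth functions in a chart

PROOF.  Induction on `r`, for all `f`, `g` simultaneously.
`r = 0`: `f k → g` uniformly on `V` (`UniformCauchySeqOn.tendstoUniformlyOn_of_tendsto`, the list `[]`), so `g` is
continuous on `V` (`TendstoUniformlyOn.continuousOn`), `ψ` is continuous on `U` with values in `V`.
`r + 1`: for each `a` the sequence `dt a (f k)` satisfies the hypotheses for `r` (because
`dts l (dt a (f k)) = dts (l ++ [a]) (f k)`, `List.foldr_append`), with the limit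
`g' a x = lim_k dt a (f k) x` for `x ∈ V` (it exists, `cauchySeq_tendsto_of_complete`;
`UniformCauchySeqOn.cauchySeq`), `g' a x = 0` otherwise.  So `u ↦ g' a (ψ u)` is `C^r` on `U`.  The functions
`u ↦ f k (ψ u)` are differentiable on the open set `U` with the derivative
`w ↦ fderiv ℝ (f k) (ψ u) (fderiv ℝ ψ u w) = ∑ a, (fderiv ℝ ψ u w) a • dt a (f k) (ψ u)`
(`P_fderiv`: `fderiv ℝ ψ u w = P (ψ u) (fderiv ℝ ψ u w)`; `sum_bv`), which converges, locally uniformly on `U`, to
`D u = (w ↦ ∑ a, (fderiv ℝ ψ u w) a • g' a (ψ u))` (the coefficients `u ↦ (w ↦ (fderiv ℝ ψ u w) a)` are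
continuous, so locally bounded on `U`; `dt a (f k) → g' a` uniformly on `V`).  By
`hasFDerivAt_of_tendstoLocallyUniformlyOn` the function `u ↦ g (ψ u)` has the derivative `D u` at `u ∈ U`, and
`D` is `C^r` on `U`; hence it is `C^(r+1)` on `U` (`contDiffOn_succ_iff_fderiv_of_isOpen` or
`contDiffOn_succ_of_fderiv..`).
-/

set_option autoImplicit false

open Set Filter Topology MeasureTheory
open scoped ContDiff ENNReal

namespace Pool.Agent.EXO

/-- Limits of smooth functions are `C^r` in a chart, if the tangential derivatives up to the order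
`r` converge uniformly on `V`. -/
theorem Geo.limit_contDiffOn {n M : ℕ} (G : Geo n M) {U : Set (En n)} {ψ : En n → En M}
    {O : Set (En M)} {κ : En M → En n} (h : IsChart G.carrier U ψ O κ) {F : Type*}
    [NormedAddCommGroup F] [NormedSpace ℝ F] [CompleteSpace F] (r : ℕ) :
    ∀ (f : ℕ → En M → F) (g : En M → F), (∀ k, ContDiff ℝ ∞ (f k)) →
      (∀ x ∈ G.carrier, Tendsto (fun k => f k x) atTop (𝓝 (g x))) →
      (∀ l : List (Fin M), l.length ≤ r →
        UniformCauchySeqOn (fun k => G.dts l (f k)) atTop G.carrier) →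
      ContDiffOn ℝ r (fun u => g (ψ u)) U := by
  have hmap : MapsTo ψ U G.carrier := fun u hu => h.mem_V hu
  induction r with
  | zero =>
    intro f g hf hfg hc
    have h1 : TendstoUniformlyOn f g atTop G.carrier :=
      UniformCauchySeqOn.tendstoUniformlyOn_of_tendsto (hc [] (by simp)) hfg
    have h2 : ContinuousOn g G.carrier :=
      h1.continuousOn (Eventually.frequently (Eventually.of_forall fun k =>
        (hf k).continuous.continuousOn))
    rw [Nat.cast_zero, contDiffOn_zero]
    exact h2.comp h.smoothψ.continuousOn hmap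
  | succ r ih =>
    intro f g hf hfg hc
    -- the limits of the tangential derivatives
    have hlim : ∀ a : Fin M, ∃ g' : En M → F,
        TendstoUniformlyOn (fun k => G.dt a (f k)) g' atTop G.carrier := by
      intro a
      have hca : UniformCauchySeqOn (fun k => G.dt a (f k)) atTop G.carrier :=
        hc [a] (by simp)
      have hex : ∀ x ∈ G.carrier, ∃ y : F, Tendsto (fun k => G.dt a (f k) x) atTop (𝓝 y) :=
        fun x hx => cauchySeq_tendsto_of_complete (hca.cauchySeq hx)
      choose! g' hg' using hex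
      exact ⟨g', hca.tendstoUniformlyOn_of_tendsto hg'⟩
    choose g' hg' using hlim
    have hsm : ∀ a : Fin M, ContDiffOn ℝ r (fun u => g' a (ψ u)) U := by
      intro a
      refine ih (fun k => G.dt a (f k)) (g' a) (fun k => G.smooth_dt a (hf k))
        (fun x hx => (hg' a).tendsto_at hx) ?_
      intro l hl
      have h1 := hc (l ++ [a]) (by simpa using hl)
      have h2 : ∀ k, G.dts (l ++ [a]) (f k) = G.dts l (G.dt a (f k)) := by
        intro k
        simp [Geo.dts, List.foldr_append]
      simpa only [h2] using h1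
    obtain ⟨φ, hφ⟩ : ∃ φ : Fin M → En n → (En n →L[ℝ] ℝ), φ = fun a u =>
      (EuclideanSpace.proj a : En M →L[ℝ] ℝ).comp (fderiv ℝ ψ u) := ⟨_, rfl⟩
    have hψc : ContDiffOn ℝ ∞ (fderiv ℝ ψ) U := by
      intro u hu
      exact (h.contDiffAt_fderiv_ψ hu).contDiffWithinAt
    have hφc : ∀ a, ContDiffOn ℝ ∞ (φ a) U := by
      intro a
      rw [hφ]
      exact contDiffOn_const.clm_comp hψc
    obtain ⟨D, hD⟩ : ∃ D : En n → (En n →L[ℝ] F), D = fun u =>
      ∑ a, (φ a u).smulRight (g' a (ψ u)) := ⟨_, rfl⟩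
    have hDc : ContDiffOn ℝ r D U := by
      rw [hD]
      refine ContDiffOn.sum fun a _ => ?_
      exact ((hφc a).of_le (by exact_mod_cast le_top)).smulRight (hsm a)
    have heq : ∀ k, ∀ u ∈ U, (fderiv ℝ (f k) (ψ u)).comp (fderiv ℝ ψ u) =
        ∑ a, (φ a u).smulRight (G.dt a (f k) (ψ u)) := by
      intro k u hu
      ext w
      rw [ContinuousLinearMap.comp_apply, ← G.P_fderiv h hu w]
      conv_lhs => rw [Geo.sum_bv (fderiv ℝ ψ u w)]
      rw [map_sum, map_sum, _root_.sum_apply]
      refine Finset.sum_congr rfl fun a _ => ?_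
      rw [map_smul, map_smul, hφ]
      rfl
    have hloc : TendstoLocallyUniformlyOn
        (fun k u => (fderiv ℝ (f k) (ψ u)).comp (fderiv ℝ ψ u)) D atTop U := by
      rw [Metric.tendstoLocallyUniformlyOn_iff]
      intro ε hε u₀ hu₀
      obtain ⟨C, hC⟩ : ∃ C, C = ∑ a, ‖φ a u₀‖ + 1 := ⟨_, rfl⟩
      have hCpos : 0 < C := by
        rw [hC]
        have : 0 ≤ ∑ a, ‖φ a u₀‖ := Finset.sum_nonneg fun _ _ => norm_nonneg _
        linarith
      have hcont : ContinuousOn (fun u => ∑ a, ‖φ a u‖) U :=
        continuousOn_finsetSum _ fun a _ => (hφc a).continuousOn.norm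
      have hnb : {u | ∑ a, ‖φ a u‖ < C} ∈ 𝓝[U] u₀ := by
        have := (hcont u₀ hu₀).eventually (gt_mem_nhds (show ∑ a, ‖φ a u₀‖ < C by
          rw [hC]; linarith))
        exact this
      refine ⟨_, inter_mem hnb self_mem_nhdsWithin, ?_⟩
      have hev : ∀ᶠ k in atTop, ∀ a, ∀ x ∈ G.carrier,
          dist (g' a x) (G.dt a (f k) x) < ε / C := by
        rw [eventually_all]
        intro a
        exact Metric.tendstoUniformlyOn_iff.1 (hg' a) (ε / C) (by positivity)
      filter_upwards [hev] with k hk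
      rintro u ⟨hu1, hu⟩
      rw [heq k u hu, hD, dist_eq_norm, ← Finset.sum_sub_distrib]
      have hu1' : ∑ a, ‖φ a u‖ < C := hu1
      have hle : ‖∑ a, ((φ a u).smulRight (g' a (ψ u)) -
          (φ a u).smulRight (G.dt a (f k) (ψ u)))‖ ≤ ∑ a, ‖φ a u‖ * (ε / C) := by
        refine (norm_sum_le _ _).trans (Finset.sum_le_sum fun a _ => ?_)
        have hs : (φ a u).smulRight (g' a (ψ u)) - (φ a u).smulRight (G.dt a (f k) (ψ u)) =
            (φ a u).smulRight (g' a (ψ u) - G.dt a (f k) (ψ u)) := by
          ext w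
          simp [smul_sub]
        rw [hs, ContinuousLinearMap.norm_smulRight_apply]
        refine mul_le_mul_of_nonneg_left ?_ (norm_nonneg _)
        rw [← dist_eq_norm]
        exact (hk a _ (h.mem_V hu)).le
      refine lt_of_le_of_lt hle ?_
      rw [← Finset.sum_mul]
      calc (∑ a, ‖φ a u‖) * (ε / C) < C * (ε / C) :=
            mul_lt_mul_of_pos_right hu1' (by positivity)
        _ = ε := by field_simp
    have hder : ∀ u ∈ U, HasFDerivAt (fun u => g (ψ u)) (D u) u := by
      intro u hu
      refine hasFDerivAt_of_tendstoLocallyUniformlyOn (f := fun k u => f k (ψ u)) h.openU hloc ?_ ?_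
        hu
      · intro k v hv
        exact (((hf k).differentiable (by simp)) (ψ v)).hasFDerivAt.comp v
          (h.differentiableAt_ψ hv).hasFDerivAt
      · intro v hv
        exact hfg _ (h.mem_V hv)
    have hcast : ((r + 1 : ℕ) : WithTop ℕ∞) = (r : WithTop ℕ∞) + 1 := by push_cast; rfl
    rw [hcast, contDiffOn_succ_iff_fderiv_of_isOpen h.openU]
    refine ⟨fun u hu => (hder u hu).differentiableAt.differentiableWithinAt, ?_, ?_⟩
    · intro hr
      exact absurd hr (by simp)
    · exact hDc.congr fun u hu => (hder u hu).fderiv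

end Pool.Agent.EXO
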