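import Mathlib
import Pool.Agent.EXO.SuExt
import Pool.Agent.EXO.SuLimA
import Pool.Agent.EXO.SuTanC

/-!
# EXO / SuReg: regularity from uniform convergence of tangential derivatives (finite orders)

PROOF.  Let `f' : En M → F` be `f` on `V`, zero outside.  `tdL V A g = dts A g` (induction on `A`).
In every chart `u ↦ f' (ψ u)` is `C^r` on `U` for every natural `r` by `Geo.limit_contDiffOn` (the hypothesis for
`r`), so it is `C^∞` (`contDiffOn_infty`).  With a chart at `x ∈ V` such that `κ` maps `O` to `U`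
(`exists_chart`) the function `y ↦ f' (ψ (κ y))` is smooth on `O` and equal to `f'` on `V ∩ O`.  Now use
`exists_smooth_extension` (`V` is closed).
-/

set_option autoImplicit false
set_option maxSynthPendingDepth 3

open Set Filter Topology MeasureTheory
open scoped ContDiff ENNReal

namespace Pool.Agent.EXO

theorem Geo.reg {n M : ℕ} (G : Geo n M) (F : Type) [NormedAddCommGroup F] [NormedSpace ℝ F]
    [FiniteDimensional ℝ F] (f : G.carrier → F)
    (h : ∀ r : ℕ, ∃ g : ℕ → En M → F, (∀ i, ContDiff ℝ ∞ (g i)) ∧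
      TendstoUniformly (fun i (x : G.carrier) => g i x) f atTop ∧
      ∀ A : List (Fin M), A.length ≤ r →
        UniformCauchySeqOn (fun i => tdL G A (g i)) atTop G.carrier) :
    ∃ g : En M → F, ContDiff ℝ ∞ g ∧ ∀ x : G.carrier, f x = g x := by
  classical
  have : CompleteSpace F := FiniteDimensional.complete ℝ F
  obtain ⟨f', hf'⟩ : ∃ f' : En M → F, f' = fun x => if hx : x ∈ G.carrier then f ⟨x, hx⟩ else 0 :=
    ⟨_, rfl⟩
  have hf'V : ∀ x : G.carrier, f' x = f x := by
    intro x
    rw [hf']
    simp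
  have htd : ∀ (A : List (Fin M)) (g : En M → F), tdL G A g = G.dts A g := by
    intro A g
    induction A with
    | nil => rfl
    | cons a A ih =>
      change td G a (tdL G A g) = G.dt a (G.dts A g)
      rw [ih]
      rfl
  have hchart : ∀ {U : Set (En n)} {ψ : En n → En M} {O : Set (En M)} {κ : En M → En n},
      IsChart G.carrier U ψ O κ → ContDiffOn ℝ ∞ (fun u => f' (ψ u)) U := by
    intro U ψ O κ hc
    rw [contDiffOn_infty]
    intro r
    obtain ⟨g, hg1, hg2, hg3⟩ := h r
    refine G.limit_contDiffOn hc r g f' hg1 ?_ ?_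
    · intro x hx
      have h1 := hg2.tendsto_at ⟨x, hx⟩
      have h2 := hf'V ⟨x, hx⟩
      rw [← h2] at h1
      exact h1
    · intro l hl
      have h1 := hg3 l hl
      simpa only [htd] using h1
  obtain ⟨g, hg, hgf⟩ := exists_smooth_extension (F := F) G.compact.isClosed f' (by
    intro x hx
    obtain ⟨U, ψ, O, κ, hc, hxO, hκ⟩ := G.exists_chart hx
    refine ⟨O, hc.openO.mem_nhds hxO, fun y => f' (ψ (κ y)), ?_, ?_⟩
    · exact (hchart hc).comp hc.smoothκ fun y hy => hκ y hy
    · rintro y ⟨hyO, hyV⟩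
      change f' (ψ (κ y)) = f' y
      rw [hc.right y ⟨hyV, hyO⟩])
  exact ⟨g, hg, fun x => by rw [hgf x x.2, hf'V]⟩

end Pool.Agent.EXO
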