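import Mathlib
import Pool.Agent.EXO.SuTanC
import Pool.Agent.EXO.SuReg
import Pool.Agent.EXO.SuIbp
import Pool.Agent.EXO.SuIntB
import Pool.Agent.EXO.SuQuad
import Pool.Agent.EXO.SuGlim
import Pool.Agent.EXO.SuGup

/-!
# EXO / SuGood: the facts used in chunk IDX-A

PROOF.  dim: `h`.  loc: `Geo.fderiv_tan` with `g = 0`.  trace: `trace_P`.  nor: `exists_quad`.
pos: `μ_pos`.  ibp: `integral_dt`, `Hm_eq` on `V` (`Geo.integral_congr`).  nrm: `Hm_eq`, `sum_bv`, `P_Hv`.
gauss: `gauss_upper_t` with `c = 1 / 8`.  lim: `gauss_limit`, `n = 2 l`,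
`(sqrt (4 π t))⁻¹ ^ (2 l) = (4 π t)⁻¹ ^ l`.  reg: `Geo.reg`.
-/

set_option autoImplicit false
set_option maxSynthPendingDepth 3

open Set Filter Topology MeasureTheory
open scoped ContDiff ENNReal

namespace Pool.Agent.EXO

theorem geo_good {n M : ℕ} (V : Geo n M) (l : ℕ) (h : n = 2 * l) : V.Good l := by
  subst h
  refine ⟨rfl, ?_, fun x hx => ?_, V.exists_quad, ?_, ?_, ?_, ?_, ?_, ?_⟩
  · intro F _ _ f hf h0 x hx v
    have h1 := V.fderiv_tan hx (f := f) (g := fun _ => (0 : F)) (hf.differentiable (by simp) x)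
      (differentiableAt_const _) (by
        filter_upwards [self_mem_nhdsWithin] with y hy
        exact h0 y hy) v
    rw [h1]
    simp
  · exact V.trace_P hx
  · intro x hx r hr
    exact V.μ_pos Metric.isOpen_ball hx (Metric.mem_ball_self hr)
  · intro F _ _ _ f hf a
    have h1 := V.integral_dt (hf.of_le (by exact_mod_cast le_top) : ContDiff ℝ 1 f) a
    have h2 : ∫ x, V.Hm a x • f x ∂V.μ = ∫ x, (V.Hv x a) • f x ∂V.μ :=
      V.integral_congr fun x hx => by rw [V.Hm_eq hx a]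
    rw [h2]
    exact h1
  · intro x hx
    have h1 : ∑ a, V.Hm a x • (bv a : En M) = V.Hv x := by
      rw [Geo.sum_bv (V.Hv x)]
      exact Finset.sum_congr rfl fun a _ => by rw [V.Hm_eq hx a]
    rw [h1, V.P_Hv hx]
  · obtain ⟨C, hC, h1⟩ := V.gauss_upper_t (c := 1 / 8) (by norm_num)
    refine ⟨C, fun x hx t ht => ?_⟩
    have h2 := h1 x hx t ht.1
    refine le_trans (le_of_eq ?_) h2
    congr 1
    funext y
    congr 1
    have := ht.1.ne'
    field_simp
  · intro ε hε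
    obtain ⟨δ, hδ, h1⟩ := V.gauss_limit hε
    refine ⟨δ, hδ, fun x hx t ht => ?_⟩
    have h2 := h1 t ht.1 ht.2 x hx
    have h3 : (Real.sqrt (4 * Real.pi * t))⁻¹ ^ (2 * l) = (4 * Real.pi * t)⁻¹ ^ l := by
      rw [pow_mul, inv_pow, Real.sq_sqrt (by have := ht.1; positivity)]
    have h4 : (fun y : En M => Real.exp (-(‖x - y‖ ^ 2) / (4 * t))) =
        fun y => Real.exp (-(‖x - y‖ ^ 2 / (4 * t))) := by
      funext y
      rw [neg_div]
    rw [h3] at h2
    rw [h4]
    exact h2.le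
  · intro F _ _ _ f hf
    exact V.reg F f hf

end Pool.Agent.EXO
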