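import Mathlib

/-!
# EXO / TopLoc: functions which are locally restrictions of smooth functions, cut-offs
-/

set_option autoImplicit false

namespace Pool.Agent.EXO

open Set Filter Topology Manifold
open scoped ContDiff

variable {E F : Type*} [NormedAddCommGroup E] [InnerProductSpace ℝ E] [FiniteDimensional ℝ E]
  [NormedAddCommGroup F] [NormedSpace ℝ F]

/-- A function on a closed set which is locally the restriction of a smooth function is globally
the restriction of a smooth function. -/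
theorem exists_ambient {V : Set E} (hV : IsClosed V) {f : E → F}
    (h : ∀ x ∈ V, ∃ g : E → F, ∃ U ∈ 𝓝 x, ContDiffOn ℝ ∞ g U ∧ ∀ y ∈ U, y ∈ V → g y = f y) :
    ∃ g : E → F, ContDiff ℝ ∞ g ∧ ∀ x ∈ V, g x = f x := by
  classical
  have key := exists_contMDiffMap_forall_mem_convex_of_local (n := (⊤ : ℕ∞)) (𝓘(ℝ, E)) (M := E) (F := F)
    (t := fun x => {c : F | x ∈ V → c = f x}) ?_ ?_
  · obtain ⟨g, hg⟩ := key
    exact ⟨g, g.contMDiff.contDiff, fun x hx => hg x hx⟩
  · intro x
    by_cases hx : x ∈ V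
    · have : {c : F | x ∈ V → c = f x} = {f x} := by
        ext c; simp [hx]
      rw [this]
      exact convex_singleton _
    · have : {c : F | x ∈ V → c = f x} = univ := by
        ext c; simp [hx]
      rw [this]
      exact convex_univ
  · intro x
    by_cases hx : x ∈ V
    · obtain ⟨g, U, hU, hg, hgf⟩ := h x hx
      exact ⟨U, hU, g, hg.contMDiffOn, fun y hy hyV => hgf y hy hyV⟩
    · refine ⟨Vᶜ, hV.isOpen_compl.mem_nhds hx, fun _ => 0, contMDiffOn_const, ?_⟩
      intro y hy hyV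
      exact absurd hyV hy

/-- Cut-off functions. -/
theorem exists_cutoff {A O : Set E} (hA : IsClosed A) (hO : IsOpen O) (hAO : A ⊆ O) :
    ∃ χ : E → ℝ, ContDiff ℝ ∞ χ ∧ (∃ U, IsOpen U ∧ A ⊆ U ∧ ∀ x ∈ U, χ x = 1) ∧
      tsupport χ ⊆ O ∧ ∀ x, χ x ∈ Icc (0 : ℝ) 1 := by
  obtain ⟨f, hf0, hf1, hf⟩ := exists_contMDiffMap_zero_one_nhds_of_isClosed (n := (⊤ : ℕ∞))
    (𝓘(ℝ, E)) (M := E) hO.isClosed_compl hA (disjoint_compl_left_iff_subset.2 hAO)
  refine ⟨f, f.contMDiff.contDiff, ?_, ?_, hf⟩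
  · rw [eventually_nhdsSet_iff_exists] at hf1
    obtain ⟨U, hU, hAU, h1⟩ := hf1
    exact ⟨U, hU, hAU, h1⟩
  · rw [eventually_nhdsSet_iff_exists] at hf0
    obtain ⟨U, hU, hOU, h0⟩ := hf0
    have h1 : tsupport (f : E → ℝ) ⊆ Uᶜ := by
      refine closure_minimal ?_ hU.isClosed_compl
      intro x hx hxU
      exact hx (h0 x hxU)
    exact h1.trans (compl_subset_comm.1 hOU)

end Pool.Agent.EXO
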