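import Pool.Agent.EXO.TopVd
import Pool.Agent.EXO.TopLoc

/-!
# EXO / TopEx: extension by zero of forms from a piece to `V`, locality of the derivative

Proofs.
`contDiffAt_pull`: smoothness of `Lam` (`contDiff_Lam`), of `A ↦ adjoint A` (a continuous linear
map, `LinearIsometryEquiv`), of `fderiv` and of `β ∘ F`.
`ext_exists`: `exists_ambient` with `f = extF`: at `x ∈ V ∩ O` the function
`y ↦ χ y • Lam (P y) (pull Φ β y)` is smooth near `x` (`Φ x ∈ dom g N ⊆ dom g C.O`, open, so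
`Φ y ∈ dom g C.O` for `y` near `x`); at `x ∈ V` with `x ∉ O` we have `x ∉ tsupport χ`, so `χ = 0`
near `x` and `extF = 0` near `x` (in both cases of the definition).
`pull_ext`: `pull Ψ u z = Lam (A^*) (χ • Lam P (pull Φ β (Ψ z)))`, `pull_Lam_P`, `pull_pull`,
`Φ ∘ Ψ = R15` near `z`.
`dV_local`: `pull_dV`, then `Tw.d` of two forms which agree near `z`, then `Tw.d_pull` for
`F = R15 C.rho` and the coefficients `t.pull Ψ`, which are invariant under `R15` (`AR`, `Psi_R`).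
-/

set_option autoImplicit false
set_option maxSynthPendingDepth 3

open Set MeasureTheory Matrix Filter Topology
open scoped ContDiff ENNReal ComplexConjugate

namespace Pool.Agent.EXO

theorem contDiffAt_pull {m k : ℕ} {κ : Type*} [Fintype κ] {F : RE k → RE m}
    {β : RE m → HF m κ} {x : RE k} (hF : ContDiffAt ℝ ∞ F x) (hβ : ContDiffAt ℝ ∞ β (F x)) :
    ContDiffAt ℝ ∞ (pull F β) x := by
  have h0 : ContDiffAt ℝ ∞ (fun y => ContinuousLinearMap.adjoint (fderiv ℝ F y)) x :=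
    (ContinuousLinearMap.adjoint (𝕜 := ℝ) (E := RE k)
      (F := RE m)).toContinuousLinearEquiv.contDiff.contDiffAt.comp x (hF.fderiv_right (by simp))
  have h1 : ContDiffAt ℝ ∞ (fun y => (Lam (ContinuousLinearMap.adjoint (fderiv ℝ F y)) :
      HF m κ →L[ℂ] HF k κ)) x :=
    (contDiff_Lam (m := m) (k := k) (κ := κ)).contDiffAt.comp x h0
  have h2 : ContDiffAt ℝ ∞ (fun y => evB m k κ
      (Lam (ContinuousLinearMap.adjoint (fderiv ℝ F y)))) x :=
    (evB m k κ).contDiff.contDiffAt.comp x h1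
  exact h2.clm_apply (hβ.comp x hF)

theorem contDiff_Lam_P {n M : ℕ} (V : Geo n M) (κ : Type*) [Fintype κ] :
    ContDiff ℝ ∞ fun x => (Lam (V.P x) : HF M κ →L[ℂ] HF M κ) := by
  exact contDiff_Lam.comp V.smoothP

private theorem topex_smul {m k : ℕ} {κ : Type*} [Fintype κ] (T : HF m κ →L[ℂ] HF k κ) (r : ℝ)
    (z : HF m κ) : T (r • z) = r • T z := map_smul (T.restrictScalars ℝ) r z

theorem pull_smul {m k : ℕ} {κ : Type*} [Fintype κ] {F : RE k → RE m} {f : RE m → ℝ}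
    {β : RE m → HF m κ} {x : RE k} : pull F (fun y => f y • β y) x = f (F x) • pull F β x := by
  unfold pull
  rw [topex_smul]

section

variable {N : Set (En 7)} {C : Collar N} {n M : ℕ} {V : Geo n M} {g : En 15 → ℝ}
  (p : VPiece C V.carrier g) {κ : Type} [Fintype κ]

open Classical in
/-- Extension by zero of the form `χ β`. -/
noncomputable def VPiece.extF (χ : En M → ℝ) (β : En 15 → HF 15 κ) (y : En M) : HF M κ :=
  if y ∈ p.O then χ y • Lam (V.P y) (pull p.Φ β y) else 0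

theorem VPiece.ext_exists (hg : GOk g) {χ : En M → ℝ} (hχ : ContDiff ℝ ∞ χ)
    (hsupp : tsupport χ ⊆ p.O) {β : En 15 → HF 15 κ}
    (hβ : ContDiffOn ℝ ∞ β (dom g C.O 20000)) :
    ∃ u : En M → HF M κ, ContDiff ℝ ∞ u ∧ ∀ y ∈ V.carrier, u y = p.extF χ β y := by
  refine exists_ambient V.compact.isClosed fun x hx => ?_
  by_cases hxO : x ∈ p.O
  · have hopen : IsOpen (p.O ∩ p.Φ ⁻¹' dom g C.O 20000) :=
      p.smoothΦ.continuousOn.isOpen_inter_preimage p.openO (isOpen_dom hg C.openO _)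
    refine ⟨fun y => χ y • Lam (V.P y) (pull p.Φ β y), p.O ∩ p.Φ ⁻¹' dom g C.O 20000,
      hopen.mem_nhds ⟨hxO, dom_sub C (p.mapsΦ x ⟨hx, hxO⟩)⟩, ?_, ?_⟩
    · intro y hy
      refine ContDiffAt.contDiffWithinAt ?_
      have h1 : ContDiffAt ℝ ∞ (pull p.Φ β) y := contDiffAt_pull (p.contDiffAt_Phi hy.1)
        (hβ.contDiffAt ((isOpen_dom hg C.openO _).mem_nhds hy.2))
      have h2 : ContDiffAt ℝ ∞ (fun y => evB M M κ (Lam (V.P y))) y :=
        (evB M M κ).contDiff.contDiffAt.comp y (contDiff_Lam_P V κ).contDiffAt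
      exact hχ.contDiffAt.smul (h2.clm_apply h1)
    · intro y hy _
      show _ = VPiece.extF p χ β y
      unfold VPiece.extF
      rw [if_pos hy.1]
  · refine ⟨fun _ => 0, (tsupport χ)ᶜ, (isClosed_tsupport χ).isOpen_compl.mem_nhds
      fun h => hxO (hsupp h), contDiffOn_const, ?_⟩
    intro y hy _
    have h0 : χ y = 0 := image_eq_zero_of_notMem_tsupport hy
    unfold VPiece.extF
    split_ifs
    · rw [h0, zero_smul]
    · rfl

theorem VPiece.ext_VF {t : Tw M κ} (hg : GOk g) {χ : En M → ℝ} {β : En 15 → HF 15 κ}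
    (hβ : ∀ z ∈ dom g C.O 20000, ten (t.e (p.Ψ z)) (β z) = β z) {u : En M → HF M κ}
    (hu : ContDiff ℝ ∞ u) (hu' : ∀ y ∈ V.carrier, u y = p.extF χ β y) : VF V t u := by
  refine ⟨hu, fun x hx => ?_, fun x hx => ?_⟩
  · rw [hu' x hx]
    unfold VPiece.extF
    split_ifs with h
    · rw [topex_smul, ← Lam_comp_apply, V.P_comp hx]
    · exact map_zero _
  · rw [hu' x hx]
    unfold VPiece.extF
    split_ifs with h
    · have h1 : p.Φ x ∈ dom g C.O 20000 := dom_sub C (p.mapsΦ x ⟨hx, h⟩)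
      have h2 := hβ _ h1
      rw [p.right x ⟨hx, h⟩] at h2
      rw [topex_smul]
      unfold pull
      rw [← Lam_ten, ← Lam_ten, h2]
    · exact map_zero _

theorem VPiece.dg_ext {j : ℕ} {χ : En M → ℝ} {β : En 15 → HF 15 κ}
    (hβ : ∀ z, dg j (β z) = β z) (y : En M) : dg j (p.extF χ β y) = p.extF χ β y := by
  unfold VPiece.extF
  split_ifs with h
  · rw [topex_smul]
    unfold pull
    rw [← Lam_dg, ← Lam_dg, hβ]
  · exact map_zero _

theorem VPiece.pull_ext (hg : GOk g) {χ : En M → ℝ} {β : En 15 → HF 15 κ} {u : En M → HF M κ}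
    (hu' : ∀ y ∈ V.carrier, u y = p.extF χ β y) {z : En 15} (hz : z ∈ dom g C.O 20000) :
    pull p.Ψ u z = χ (p.Ψ z) • pull (R15 C.rho) β z := by
  have hm := p.maps z hz
  have h1 : u (p.Ψ z) = χ (p.Ψ z) • Lam (V.P (p.Ψ z)) (pull p.Φ β (p.Ψ z)) := by
    rw [hu' _ hm.1]
    unfold VPiece.extF
    rw [if_pos hm.2]
  have h2 : pull p.Ψ u z = χ (p.Ψ z) • pull p.Ψ (pull p.Φ β) z := by
    unfold pull at h1 ⊢
    rw [h1, topex_smul, pull_tan (V.P_adj hm.1) (p.PA hg hz)]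
  rw [h2, pull_pull (p.diff_Psi hg hz) (p.diff_Phi hm.2)]
  congr 1
  refine pull_congr_left ?_
  filter_upwards [(isOpen_dom hg C.openO _).mem_nhds hz] with z' hz'
  exact p.Phi_Psi hz'

/-- The coefficients on a piece are invariant under `R15`. -/
theorem VPiece.tw_R (hg : GOk g) (t : Tw M κ) {z : En 15} (hz : z ∈ dom g C.O 20000) :
    ((t.pull p.Ψ).pull (R15 C.rho)).e z = (t.pull p.Ψ).e z ∧
      ((t.pull p.Ψ).pull (R15 C.rho)).b z = (t.pull p.Ψ).b z := by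
  refine ⟨?_, ?_⟩
  · show t.e (p.Ψ (R15 C.rho z)) = t.e (p.Ψ z)
    rw [p.Psi_R hg hz]
  · show ((t.b (p.Ψ (R15 C.rho z))).comp (fderiv ℝ p.Ψ (R15 C.rho z))).comp
      (fderiv ℝ (R15 C.rho) z) = (t.b (p.Ψ z)).comp (fderiv ℝ p.Ψ z)
    rw [ContinuousLinearMap.comp_assoc, p.AR hg hz, p.Psi_R hg hz]

theorem VPiece.dV_local (hg : GOk g) {t : Tw M κ} {u : En M → HF M κ} (hu : VF V t u)
    {β : En 15 → HF 15 κ} {z : En 15} (hz : z ∈ dom g C.O 20000)
    (hβ : DifferentiableAt ℝ β (R15 C.rho z))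
    (h : ∀ᶠ z' in 𝓝 z, pull p.Ψ u z' = pull (R15 C.rho) β z') :
    pull p.Ψ (dV V t u) z = pull (R15 C.rho) ((t.pull p.Ψ).d β) z := by
  have hz' : R15 C.rho z ∈ dom g C.O 20000 := dom_sub C (R_mem hg hz)
  have hm := p.maps z hz
  have h2 : (2 : WithTop ℕ∞) ≤ ((⊤ : ℕ∞) : WithTop ℕ∞) := WithTop.coe_le_coe.2 le_top
  rw [pull_dV ((p.contDiffAt_Psi hg hz).of_le h2) ?_ (hu.smooth.differentiable (by simp) _)
    (hu.tan _ hm.1)]
  · have h3 := p.tw_R hg t hz
    rw [← Tw.d_congr h3.1 h3.2 (EventuallyEq.symm h),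
      Tw.d_pull _ ((contDiffAt_R hg hz).of_le h2) hβ]
  · filter_upwards [(isOpen_dom hg C.openO _).mem_nhds hz] with y hy
    exact (p.maps y hy).1

omit [Fintype κ] in
private theorem topex_pullR {k : ℕ} {κ : Type*} [Fintype κ] {F : RE k → RE k} {z : RE k}
    (hF : F z = z) {a b : RE k → HF k κ} (hd : a z = b z) : pull F a z = pull F b z := by
  unfold pull
  rw [hF, hd]

/-- Criterion for `dV u = w` at a point of a piece. -/
theorem VPiece.dV_eq (hg : GOk g) {t : Tw M κ} {u w : En M → HF M κ}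
    (hu : VF V t u) (hw : VF V t w) {β : En 15 → HF 15 κ} {y : En M}
    (hy : y ∈ V.carrier ∩ p.O) (hβ : DifferentiableAt ℝ β (p.Φ y))
    (h : ∀ᶠ z' in 𝓝 (p.Φ y), pull p.Ψ u z' = pull (R15 C.rho) β z')
    (hd : (t.pull p.Ψ).d β (p.Φ y) = pull p.Ψ w (p.Φ y)) : dV V t u y = w y := by
  have hN := p.mapsΦ y hy
  have hz : p.Φ y ∈ dom g C.O 20000 := dom_sub C hN
  have hR : R15 C.rho (p.Φ y) = p.Φ y := R_fix hN
  refine p.eq_of_pull hg hy (dV_tan hy.1 (hu.tan y hy.1)) (hw.tan y hy.1) ?_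
  have hβ' : DifferentiableAt ℝ β (R15 C.rho (p.Φ y)) := hR.symm ▸ hβ
  exact (p.dV_local hg hu hz hβ' h).trans ((topex_pullR hR hd).trans (p.pull_R hg w hz))

end

end Pool.Agent.EXO
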