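import Pool.Agent.EXO.TopTc
import Pool.Agent.EXO.TopEx
import Pool.Agent.EXO.FmTwB

/-!
# EXO / TopDd: `d d = 0` on `V`
-/

set_option autoImplicit false
set_option maxSynthPendingDepth 3

open Set MeasureTheory Matrix Filter Topology
open scoped ContDiff ENNReal ComplexConjugate

namespace Pool.Agent.EXO

section

variable {N : Set (En 7)} {C : Collar N} {n M : ℕ} {V : Geo n M} {g : En 15 → ℝ}
  (p : VPiece C V.carrier g) {κ : Type} [Fintype κ]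

/-- The local form of a form on `V` is a section over the domain of the piece. -/
theorem VPiece.sec_pull (hg : GOk g) {t : Tw M κ} {u : En M → HF M κ} (hu : VF V t u) :
    (t.pull p.Ψ).Sec (dom g C.O 20000) (pull p.Ψ u) := by
  refine ⟨fun z hz => ?_, fun z hz => ?_⟩
  · exact (contDiffAt_pull (p.contDiffAt_Psi hg hz) hu.smooth.contDiffAt).contDiffWithinAt
  · unfold pull
    change ten (t.e (p.Ψ z)) _ = _
    rw [← Lam_ten, hu.sec _ (p.maps z hz).1]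

/-- The local form of the derivative. -/
theorem VPiece.pull_dV (hg : GOk g) {t : Tw M κ} {u : En M → HF M κ} (hu : VF V t u)
    {z : En 15} (hz : z ∈ dom g C.O 20000) :
    pull p.Ψ (dV V t u) z = (t.pull p.Ψ).d (pull p.Ψ u) z := by
  refine EXO.pull_dV ((p.contDiffAt_Psi hg hz).of_le two_le_infty) ?_
    ((hu.smooth.differentiable (by simp)) _) (hu.tan _ (p.maps z hz).1)
  filter_upwards [(isOpen_dom hg C.openO _).mem_nhds hz] with z' hz'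
  exact (p.maps z' hz').1

theorem VPiece.ddV (hg : GOk g) {t : Tw M κ} (ht : t.Smooth) (htV : t.OnV V)
    (hf : (t.pull p.Ψ).Flat (dom g C.O 20000)) {u : En M → HF M κ} (hu : VF V t u) {y : En M}
    (hy : y ∈ V.carrier ∩ p.O) : dV V t (dV V t u) y = 0 := by
  have hz : p.Φ y ∈ dom g C.O 20000 := dom_sub C (p.mapsΦ y hy)
  have h1 : VF V t (dV V t u) := hu.dV ht htV
  have h2 : VF V t (dV V t (dV V t u)) := h1.dV ht htV
  refine p.eq_of_pull hg hy (w := fun _ => 0) (h2.tan y hy.1) (map_zero _) ?_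
  rw [p.pull_dV hg h1 hz]
  have h3 : pull p.Ψ (dV V t u) =ᶠ[𝓝 (p.Φ y)] (t.pull p.Ψ).d (pull p.Ψ u) := by
    filter_upwards [(isOpen_dom hg C.openO _).mem_nhds hz] with z' hz'
    exact p.pull_dV hg hu hz'
  rw [Tw.d_congr rfl rfl h3, hf.d_d (p.sec_pull hg hu) hz]
  unfold pull
  rw [map_zero]

end

section

variable {N : OrGeo 6 7} {C : Collar N.carrier} {l δ : ℝ} (𝒱 : VData N C l δ)
  {ι : Type} [Fintype ι] [DecidableEq ι] (E : FlatBd N.toGeo ι)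

theorem ddV {u : En 𝒱.M → HF 𝒱.M ι} (hu : VF 𝒱.V.toGeo (tV 𝒱 E) u) {y : En 𝒱.M}
    (hy : y ∈ 𝒱.V.carrier) : dV 𝒱.V.toGeo (tV 𝒱 E) (dV 𝒱.V.toGeo (tV 𝒱 E) u) y = 0 := by
  have hN : (0 : ℝ) < 20000 := by norm_num
  rcases 𝒱.cover y hy with ⟨z, hz, hzN, rfl⟩ | ⟨z, hz, hzN, rfl⟩ | ⟨z, hz, hzN, rfl⟩ |
    ⟨z, hz, hzN, rfl⟩
  · exact 𝒱.S.ddV gOk_S (tV_smooth 𝒱 E) (tV_onV 𝒱 E) (tP_flat 𝒱 E gOk_S 𝒱.S) hu
      (𝒱.S.maps z ⟨by linarith, C.sub hzN⟩)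
  · exact 𝒱.K.ddV gOk_K (tV_smooth 𝒱 E) (tV_onV 𝒱 E) (tP_flat 𝒱 E gOk_K 𝒱.K) hu
      (𝒱.K.maps z ⟨by linarith, C.sub hzN⟩)
  · exact 𝒱.H1.ddV gOk_1 (tV_smooth 𝒱 E) (tV_onV 𝒱 E) (tP_flat 𝒱 E gOk_1 𝒱.H1) hu
      (𝒱.H1.maps z ⟨by linarith, C.sub hzN⟩)
  · exact 𝒱.H2.ddV gOk_2 (tV_smooth 𝒱 E) (tV_onV 𝒱 E) (tP_flat 𝒱 E gOk_2 𝒱.H2) hu
      (𝒱.H2.maps z ⟨by linarith, C.sub hzN⟩)

end

end Pool.Agent.EXO
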