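import Pool.Agent.EXO.TopGx
import Pool.Agent.EXO.TopDd
import Pool.Agent.EXO.FmS

/-!
# EXO / TopGp: exactness on the union of two pieces

Proof.  `Ω = {z | p3 z ∈ C.O}` (open, invariant under the translations in the direction `i < 8`), `t = tC C E` is good
on `Ω` (`tC_flat`) and active in the direction `i` (`tC_act`).  `wA = A.zex u`, `wB = B.zex u` are sections of `t`
over `Ω`: smooth by `G.zex_smooth`, `G.symm.zex_smooth` (with `Set.union_comm`), in the bundle by `sec_pull` and `hA`, `hB`.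
`t.d wA = 0` on `Ω`: for `z ∈ dom gA C.O 20000`: `Tw.d_congr` (`wA = pull A.Ψ u` near `z`, `hA`), `VPiece.pull_dV`, `hd`;
for `20000 ≤ gA z`: `wA = 0` near `z` (`zex_near`).
`rA`, `rB` from `zex_bdd` (for `G` and `G.symm`, with the same `h`); `al = -(max rA rB) - 1 - ...` such that `z i = al`
implies `rA < |z i| ≤ h z` and `rB < h z` (`h_le`; take `al = -(|rA| + |rB| + 1)`): then `wA z = wB z = 0` on `{z i = al}`.
`βA = S i al wA`, `βB = S i al wB` with the homotopy operator `S` of FmS (`S u x = ∫_{al}^{x i} iota i (u (x with x_i = r)) dr`):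
sections over `Ω`, `t.d βA = wA`, `t.d βB = wB` on `Ω` since `d S w + S d w = w - R w`, `R w = 0`.
`hcomp`: for `q z ≠ 0`, `p3 z ∈ C.O`: `pull τ wB = wA` on the whole line `z + r e_i` (`pull_zex`, `q_trans`); `τ` commutes
with the translations and keeps the coordinate `i` (`τ_trans`, `τ_i`), so `pull τ (S i al wB) z = S i al (pull τ wB) z =
S i al wA z` (lemma of FmS).
Then `G.glue_exact` with `K1 = C1`.
-/

set_option autoImplicit false
set_option maxSynthPendingDepth 3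

open Set MeasureTheory Matrix Filter Topology
open scoped ContDiff ENNReal ComplexConjugate

namespace Pool.Agent.EXO

/-- The homotopy operator commutes with the pull back by a map which commutes with the
translations. -/
theorem pull_So {m : ℕ} {κ : Type*} [Fintype κ] {τ : RE m → RE m} {i : Fin m} {α : ℝ}
    {wA wB : RE m → HF m κ} {z : RE m} (hd : DifferentiableAt ℝ τ z)
    (htr : ∀ᶠ y in 𝓝 z, ∀ r : ℝ, τ (y + r • ee i) = τ y + r • ee i) (hi : (τ z) i = z i)
    (hw : ∀ r : ℝ, pull τ wB (z + r • ee i) = wA (z + r • ee i))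
    (hc : Continuous fun r : ℝ => wB (τ z + r • ee i)) :
    pull τ (So i α wB) z = So i α wA z := by
  have htr0 : ∀ r : ℝ, τ (z + r • ee i) = τ z + r • ee i := htr.self_of_nhds
  have hfd : ∀ r : ℝ, fderiv ℝ τ (z + r • ee i) = fderiv ℝ τ z := by
    intro r
    rw [← fderiv_comp_add_right (r • ee i : RE m)]
    have h1 : (fun y => τ (y + r • ee i)) =ᶠ[𝓝 z] fun y => τ y + r • ee i := by
      filter_upwards [htr] with y hy using hy r
    rw [h1.fderiv_eq, fderiv_add_const]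
  have hee : fderiv ℝ τ z (ee i) = ee i := by
    have h1 : HasDerivAt (fun r : ℝ => z + r • (ee i : RE m)) (ee i) 0 := by
      simpa using ((hasDerivAt_id (0 : ℝ)).smul_const (ee i : RE m)).const_add z
    have hd' : HasFDerivAt τ (fderiv ℝ τ z) (z + (0 : ℝ) • ee i) := by
      rw [zero_smul, add_zero]
      exact hd.hasFDerivAt
    have h2 := hd'.comp_hasDerivAt (0 : ℝ) h1
    have h3 : (τ ∘ fun r : ℝ => z + r • (ee i : RE m)) = fun r : ℝ => τ z + r • ee i :=
      funext fun r => htr0 r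
    rw [h3] at h2
    have h4 : HasDerivAt (fun r : ℝ => τ z + r • (ee i : RE m)) (ee i) 0 := by
      simpa using ((hasDerivAt_id (0 : ℝ)).smul_const (ee i : RE m)).const_add (τ z)
    exact h2.unique h4
  unfold pull So
  have e1 : Lam (ContinuousLinearMap.adjoint (fderiv ℝ τ z)) (iota i (prim i α wB (τ z))) =
      iota i (Lam (ContinuousLinearMap.adjoint (fderiv ℝ τ z)) (prim i α wB (τ z))) := by
    have h5 := iotav_Lam (ContinuousLinearMap.adjoint (fderiv ℝ τ z)) (ee i)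
      (prim i α wB (τ z))
    rw [ContinuousLinearMap.adjoint_adjoint, hee, iotav_ee] at h5
    exact h5.symm
  rw [e1]
  congr 1
  rw [prim_eq, prim_eq, hi]
  have hint : IntervalIntegrable (fun r : ℝ => wB (τ z + (r - z i) • ee i)) volume α (z i) := by
    refine Continuous.intervalIntegrable ?_ _ _
    exact hc.comp (continuous_id.sub continuous_const)
  have h6 := ((Lam (ContinuousLinearMap.adjoint (fderiv ℝ τ z)) :
    HF m κ →L[ℂ] HF m κ).restrictScalars ℝ).intervalIntegral_comp_comm hint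
  refine h6.symm.trans ?_
  refine intervalIntegral.integral_congr fun r _ => ?_
  have h7 := hw (r - z i)
  unfold pull at h7
  rw [hfd, htr0] at h7
  exact h7

/-- Primitives along one coordinate. -/
theorem So_exact {m : ℕ} {κ : Type*} [Fintype κ] {t : Tw m κ} {Ω : Set (RE m)} (ht : t.Good Ω)
    {i : Fin m} (ha : t.Act i) (hΩ : InvC Ω i) {α : ℝ} {w : RE m → HF m κ} (hw : t.Sec Ω w)
    (hd : ∀ x ∈ Ω, t.d w x = 0) (h0 : ∀ x, x i = α → w x = 0) :
    t.Sec Ω (So i α w) ∧ ∀ x ∈ Ω, t.d (So i α w) x = w x := by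
  have ha' : t.ActOn Ω i := ⟨fun x _ r _ => (ha x r).1, fun x _ r _ => (ha x r).2.1,
    fun x _ => (ha x 0).2.2⟩
  refine ⟨hw.So ht.isOpen ha' (hΩ.seg α), fun x hx => ?_⟩
  have h1 := ht.d_So ha' (hΩ.seg α) hw hx
  have h2 : So i α (t.d w) x = 0 :=
    So_eq_zero fun s hs => hd _ (hΩ.seg α x hx s hs)
  have h3 : Ro i α w x = 0 := by
    refine Ro_eq_zero (h0 _ ?_)
    rw [sgp_self]
    ring
  rw [h2, h3, add_zero, sub_zero] at h1
  exact h1

theorem p3_add (z : En 15) (r : ℝ) {i : Fin 15} (hi : i.1 < 8) : p3 (z + r • ee i) = p3 z := by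
  ext a
  change (z + r • ee i : En 15) ⟨8 + a, by omega⟩ = z ⟨8 + a, by omega⟩
  refine add_smul_apply_ne z r ?_
  intro h
  have := congrArg Fin.val h
  simp only at this
  omega

variable {N : OrGeo 6 7} {C : Collar N.carrier} {l δ : ℝ} (𝒱 : VData N C l δ)
  {ι : Type} [Fintype ι] [DecidableEq ι] (E : FlatBd N.toGeo ι) {gA gB : En 15 → ℝ}
  {A : VPiece C 𝒱.V.carrier gA} {B : VPiece C 𝒱.V.carrier gB} {i : Fin 15}

theorem glue_prim (G : Glue A B i)
    (hA : ∀ z ∈ dom gA C.O 20000,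
      ((tV 𝒱 E).pull A.Ψ).e z = (tC C E).e z ∧ ((tV 𝒱 E).pull A.Ψ).b z = (tC C E).b z)
    (hB : ∀ z ∈ dom gB C.O 20000,
      ((tV 𝒱 E).pull B.Ψ).e z = (tC C E).e z ∧ ((tV 𝒱 E).pull B.Ψ).b z = (tC C E).b z)
    {u : En 𝒱.M → HF 𝒱.M ι} (hu : VF 𝒱.V.toGeo (tV 𝒱 E) u)
    (hd : ∀ y ∈ 𝒱.V.carrier, dV 𝒱.V.toGeo (tV 𝒱 E) u y = 0)
    {C1 : Set (En 𝒱.M)} (hC1 : IsCompact C1) (hC1' : C1 ⊆ 𝒱.V.carrier ∩ (A.O ∪ B.O))
    (h0 : ∀ y ∈ 𝒱.V.carrier, y ∉ C1 → u y = 0) :
    ∃ v : En 𝒱.M → HF 𝒱.M ι, VF 𝒱.V.toGeo (tV 𝒱 E) v ∧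
      ∀ y ∈ C1, dV 𝒱.V.toGeo (tV 𝒱 E) v y = u y := by
  have hΩ : InvC {z : En 15 | p3 z ∈ C.O} i := by
    intro z hz r
    change p3 (z + r • ee i) ∈ C.O
    rw [p3_add z r G.i_lt]
    exact hz
  have hgood : (tC C E).Good {z | p3 z ∈ C.O} := (tC_flat E).toGood
  have hact : (tC C E).Act i := tC_act E G.i_lt
  have hC1B : C1 ⊆ 𝒱.V.carrier ∩ (B.O ∪ A.O) := by
    rw [Set.union_comm]
    exact hC1'
  -- sections and closed
  have key : ∀ {g : En 15 → ℝ} (hg : GOk g) (p : VPiece C 𝒱.V.carrier g)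
      (_ : ∀ z ∈ dom g C.O 20000,
        ((tV 𝒱 E).pull p.Ψ).e z = (tC C E).e z ∧ ((tV 𝒱 E).pull p.Ψ).b z = (tC C E).b z)
      (_ : ContDiffOn ℝ ∞ (p.zex u) {z | p3 z ∈ C.O})
      (_ : ∀ z, p3 z ∈ C.O → 20000 ≤ g z → p.zex u =ᶠ[𝓝 z] fun _ => 0),
      (tC C E).Sec {z | p3 z ∈ C.O} (p.zex u) ∧
        ∀ z ∈ {z : En 15 | p3 z ∈ C.O}, (tC C E).d (p.zex u) z = 0 := by
    intro g hg p hp hsm hnear
    have hloc : ∀ z ∈ dom g C.O 20000, p.zex u =ᶠ[𝓝 z] pull p.Ψ u := by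
      intro z hz
      filter_upwards [(isOpen_dom hg C.openO _).mem_nhds hz] with z' hz'
      unfold VPiece.zex
      rw [if_pos hz']
    refine ⟨⟨hsm, fun z hz => ?_⟩, fun z hz => ?_⟩
    · rcases lt_or_ge (g z) 20000 with hlt | hge
      · have hzd : z ∈ dom g C.O 20000 := ⟨hlt, hz⟩
        rw [(hloc z hzd).eq_of_nhds, ← (hp z hzd).1]
        exact (p.sec_pull hg hu).2 z hzd
      · rw [(hnear z hz hge).eq_of_nhds, map_zero]
    · rcases lt_or_ge (g z) 20000 with hlt | hge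
      · have hzd : z ∈ dom g C.O 20000 := ⟨hlt, hz⟩
        rw [Tw.d_congr (hp z hzd).1.symm (hp z hzd).2.symm (hloc z hzd),
          ← p.pull_dV hg hu hzd]
        unfold pull
        rw [hd _ (p.maps z hzd).1, map_zero]
      · rw [Tw.d_congr rfl rfl (hnear z hz hge)]
        exact Tw.d_zero _ _
  have sA := G.zex_smooth hC1 hC1' hu.smooth h0
  have sB := G.symm.zex_smooth hC1 hC1B hu.smooth h0
  obtain ⟨secA, clA⟩ := key G.okA A hA sA fun z hz hg => G.zex_near hC1 hC1' h0 hz hg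
  obtain ⟨secB, clB⟩ := key G.okB B hB sB fun z hz hg => G.symm.zex_near hC1 hC1B h0 hz hg
  obtain ⟨rA, hrA⟩ := G.zex_bdd hC1 hC1' h0
  obtain ⟨rB, hrB⟩ := G.symm.zex_bdd hC1 hC1B h0
  have hal : ∀ z : En 15, z i = -(|rA| + |rB| + 1) → |rA| + |rB| < G.h z := by
    intro z hz
    refine lt_of_lt_of_le ?_ (G.h_le z)
    have h9 : (0 : ℝ) ≤ |rA| + |rB| + 1 := by
      have := abs_nonneg rA
      have := abs_nonneg rB
      linarith
    rw [hz, abs_neg, abs_of_nonneg h9]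
    linarith
  have zA : ∀ z : En 15, z i = -(|rA| + |rB| + 1) → A.zex u z = 0 := fun z hz =>
    hrA z (lt_of_le_of_lt ((le_abs_self rA).trans (by linarith [abs_nonneg rB])) (hal z hz))
  have zB : ∀ z : En 15, z i = -(|rA| + |rB| + 1) → B.zex u z = 0 := fun z hz =>
    hrB z (lt_of_le_of_lt ((le_abs_self rB).trans (by linarith [abs_nonneg rA])) (hal z hz))
  obtain ⟨bA, dA⟩ := So_exact hgood hact hΩ secA clA zA
  obtain ⟨bB, dB⟩ := So_exact hgood hact hΩ secB clB zB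
  refine G.glue_exact hA hB hu bA.1 bB.1 (fun z hz => bA.2 z hz) (fun z hz => bB.2 z hz)
    (fun z hz => ?_) (fun z hz => ?_) (fun z hz hq => ?_) hC1 hC1'
  · rw [dA z hz.2]
    unfold VPiece.zex
    rw [if_pos hz]
  · rw [dB z hz.2]
    unfold VPiece.zex
    rw [if_pos hz]
  · have hopen : IsOpen {z : En 15 | G.q z ≠ 0} := isOpen_ne_fun G.contq continuous_const
    refine pull_So ?_ ?_ (G.τ_i z hq) (fun r => ?_) ?_
    · exact (G.smoothτ.contDiffAt (hopen.mem_nhds hq)).differentiableAt (by simp)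
    · filter_upwards [hopen.mem_nhds hq] with y hy r using G.τ_trans y r hy
    · refine G.pull_zex u ?_ ?_
      · rw [p3_add z r G.i_lt]
        exact hz
      · rw [G.q_trans]
        exact hq
    · refine secB.1.continuousOn.comp_continuous ?_ fun r => ?_
      · fun_prop
      · refine hΩ _ ?_ r
        change p3 (G.τ z) ∈ C.O
        rw [G.p3τ z hq]
        exact hz

end Pool.Agent.EXO
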