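import Mathlib

/-!
# EXO / TopAlg: linear algebra of the vanishing of the twisted signature (section 8)

Abstract Hodge data in dimension `14`: if the closed `7`-forms are spanned, up to exact forms, by
two subspaces which are isotropic for `ip u (Ga u')`, the index of `d + dl` is zero.
-/

set_option autoImplicit false

namespace Pool.Agent.EXO

open scoped ComplexConjugate

/-- Abstract Hodge theory on forms of degrees `0, ..., 14`. -/
structure HodgeData (A : Type*) [AddCommGroup A] [Module ℂ A] where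
  ip : A →ₗ⋆[ℂ] A →ₗ[ℂ] ℂ
  pr : ℕ → A →ₗ[ℂ] A
  d : A →ₗ[ℂ] A
  dl : A →ₗ[ℂ] A
  Ga : A →ₗ[ℂ] A
  symm : ∀ u v, ip u v = conj (ip v u)
  re_nonneg : ∀ u, 0 ≤ (ip u u).re
  defin : ∀ u, ip u u = 0 → u = 0
  pr_pr : ∀ k u, pr k (pr k u) = pr k u
  pr_ne : ∀ k l u, k ≠ l → pr k (pr l u) = 0
  pr_sum : ∀ u, ∑ k ∈ Finset.range 15, pr k u = u
  d_pr : ∀ k u, pr (k + 1) (d u) = d (pr k u)
  dl_pr : ∀ k u, pr k (dl u) = dl (pr (k + 1) u)
  Ga_pr : ∀ k u, k ≤ 14 → pr k (Ga u) = Ga (pr (14 - k) u)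
  Ga_Ga : ∀ u, Ga (Ga u) = u
  Ga_symm : ∀ u v, ip (Ga u) v = ip u (Ga v)
  adj : ∀ u v, ip (d u) v = ip u (dl v)
  anti : ∀ u, Ga (d u + dl u) = -(d (Ga u) + dl (Ga u))
  dd : ∀ u, d (d u) = 0
  fin : FiniteDimensional ℂ (LinearMap.ker (d + dl))
  dec : ∀ u, ∃ h v, d h + dl h = 0 ∧ u = h + (d v + dl v)

namespace HodgeData

variable {A : Type*} [AddCommGroup A] [Module ℂ A] (X : HodgeData A)

theorem adj' (u v : A) : X.ip (X.dl u) v = X.ip u (X.d v) := by
  rw [X.symm, ← X.adj, ← X.symm]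

theorem harm {h : A} (hh : X.d h + X.dl h = 0) : X.d h = 0 ∧ X.dl h = 0 := by
  have h1 : X.ip (X.dl h) (X.d h) = 0 := by rw [X.adj', X.dd, map_zero]
  have h2 : X.ip (X.d h) (X.dl h) = 0 := by rw [X.symm, h1, map_zero]
  have h3 : X.ip (X.d h + X.dl h) (X.d h + X.dl h) = 0 := by rw [hh, map_zero]
  have h3' : X.ip (X.d h + X.dl h) (X.d h + X.dl h) = X.ip (X.d h) (X.d h) +
      X.ip (X.d h) (X.dl h) + X.ip (X.dl h) (X.d h) + X.ip (X.dl h) (X.dl h) := by
    simp only [map_add, LinearMap.add_apply]; ring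
  rw [h3', h1, h2, add_zero, add_zero] at h3
  have h4 : (X.ip (X.d h) (X.d h)).re + (X.ip (X.dl h) (X.dl h)).re = 0 := by
    rw [← Complex.add_re, h3, Complex.zero_re]
  have h5 := X.re_nonneg (X.d h)
  have h6 := X.re_nonneg (X.dl h)
  have him : ∀ u, (X.ip u u).im = 0 := by
    intro u
    have := congrArg Complex.im (X.symm u u)
    rw [Complex.conj_im] at this
    linarith
  constructor
  · exact X.defin _ (Complex.ext (by rw [Complex.zero_re]; linarith) (him _))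
  · exact X.defin _ (Complex.ext (by rw [Complex.zero_re]; linarith) (him _))

theorem harm_pr {h : A} (hh : X.d h + X.dl h = 0) (k : ℕ) :
    X.d (X.pr k h) + X.dl (X.pr k h) = 0 := by
  obtain ⟨h1, h2⟩ := X.harm hh
  rw [← X.d_pr, h1, map_zero, zero_add]
  rcases k with _ | k
  · -- `dl (pr 0 h)` has no component
    have h3 : X.ip (X.dl (X.pr 0 h)) (X.dl (X.pr 0 h)) = 0 := by
      rw [X.adj']
      -- `ip (pr 0 h) (d ..)` : use the sum of the projections of `dl (pr 0 h)`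
      have h4 : X.dl (X.pr 0 h) = 0 := by
        rw [← X.pr_sum (X.dl (X.pr 0 h))]
        refine Finset.sum_eq_zero fun j _ => ?_
        rw [X.dl_pr, X.pr_ne _ _ _ (by omega), map_zero]
      rw [h4, map_zero, map_zero]
    exact X.defin _ h3
  · rw [← X.dl_pr, h2, map_zero]

theorem harm_Ga {h : A} (hh : X.d h + X.dl h = 0) : X.d (X.Ga h) + X.dl (X.Ga h) = 0 := by
  have := X.anti h
  rw [hh, map_zero] at this
  rw [eq_comm, neg_eq_zero] at this
  exact this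

/-- For a closed `7`-form, `Ga u` is coclosed. -/
theorem dl_Ga {u : A} (hu : X.d u = 0) (h7 : X.pr 7 u = u) : X.dl (X.Ga u) = 0 := by
  have h1 := congrArg (X.pr 6) (X.anti u)
  rw [hu, zero_add, map_neg, map_add, X.Ga_pr _ _ (by norm_num)] at h1
  have h2 : X.pr (14 - 6) (X.dl u) = 0 := by
    rw [X.dl_pr, ← h7, X.pr_ne _ _ _ (by norm_num), map_zero]
  have h3 : X.pr 6 (X.d (X.Ga u)) = 0 := by
    rw [X.d_pr 5, X.Ga_pr _ _ (by norm_num), ← h7, X.pr_ne _ _ _ (by norm_num), map_zero,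
      map_zero]
  have h4 : X.pr 6 (X.dl (X.Ga u)) = X.dl (X.Ga u) := by
    rw [X.dl_pr, X.Ga_pr _ _ (by norm_num)]
    congr 2
  rw [h2, h3, h4, map_zero, zero_add] at h1
  rw [eq_comm, neg_eq_zero] at h1
  exact h1

/-- A closed `7`-form is harmonic plus exact. -/
theorem closed_dec {u : A} (hu : X.d u = 0) (h7 : X.pr 7 u = u) :
    ∃ h v, X.d h + X.dl h = 0 ∧ X.pr 7 h = h ∧ u = h + X.d v := by
  obtain ⟨h, v, hh, huv⟩ := X.dec u
  have e1 : u = X.pr 7 h + (X.d (X.pr 6 v) + X.dl (X.pr 8 v)) := by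
    rw [← X.d_pr 6, ← X.dl_pr 7, ← map_add, ← map_add, ← huv, h7]
  have hh7 := X.harm_pr hh 7
  have e2 : X.d (X.dl (X.pr 8 v)) = 0 := by
    have := congrArg X.d e1
    rw [hu, map_add, map_add, X.dd, (X.harm hh7).1, zero_add, zero_add] at this
    exact this.symm
  have e3 : X.dl (X.pr 8 v) = 0 := by
    refine X.defin _ ?_
    rw [X.adj', e2, map_zero]
  refine ⟨X.pr 7 h, X.pr 6 v, hh7, X.pr_pr _ _, ?_⟩
  rw [e3, add_zero] at e1
  exact e1

/-! ### The harmonic spaces -/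

/-- Harmonic elements with `Ga u = s u`. -/
def Ker (s : ℂ) : Submodule ℂ A where
  carrier := {u | X.d u + X.dl u = 0 ∧ X.Ga u = s • u}
  zero_mem' := by simp
  add_mem' := by
    rintro u v ⟨h1, h2⟩ ⟨h3, h4⟩
    refine ⟨?_, ?_⟩
    · rw [map_add, map_add, add_add_add_comm, h1, h3, add_zero]
    · rw [map_add, h2, h4, smul_add]
  smul_mem' := by
    rintro c u ⟨h1, h2⟩
    refine ⟨?_, ?_⟩
    · rw [map_smul, map_smul, ← smul_add, h1, smul_zero]
    · rw [map_smul, h2, smul_comm]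

/-- Harmonic `7`-forms with `Ga u = s u`. -/
def Mid (s : ℂ) : Submodule ℂ A where
  carrier := {u | (X.d u + X.dl u = 0 ∧ X.Ga u = s • u) ∧ X.pr 7 u = u}
  zero_mem' := by simp
  add_mem' := by
    rintro u v ⟨h1, h2⟩ ⟨h3, h4⟩
    exact ⟨(X.Ker s).add_mem h1 h3, by rw [map_add, h2, h4]⟩
  smul_mem' := by
    rintro c u ⟨h1, h2⟩
    exact ⟨(X.Ker s).smul_mem c h1, by rw [map_smul, h2]⟩

/-- Harmonic forms without component of degree `7` and with `Ga u = s u`. -/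
def Off (s : ℂ) : Submodule ℂ A where
  carrier := {u | (X.d u + X.dl u = 0 ∧ X.Ga u = s • u) ∧ X.pr 7 u = 0}
  zero_mem' := by simp
  add_mem' := by
    rintro u v ⟨h1, h2⟩ ⟨h3, h4⟩
    exact ⟨(X.Ker s).add_mem h1 h3, by rw [map_add, h2, h4, add_zero]⟩
  smul_mem' := by
    rintro c u ⟨h1, h2⟩
    exact ⟨(X.Ker s).smul_mem c h1, by rw [map_smul, h2, smul_zero]⟩

/-- Harmonic `7`-forms. -/
def Har : Submodule ℂ A where
  carrier := {u | X.d u + X.dl u = 0 ∧ X.pr 7 u = u}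
  zero_mem' := by simp
  add_mem' := by
    rintro u v ⟨h1, h2⟩ ⟨h3, h4⟩
    refine ⟨?_, by rw [map_add, h2, h4]⟩
    rw [map_add, map_add, add_add_add_comm, h1, h3, add_zero]
  smul_mem' := by
    rintro c u ⟨h1, h2⟩
    refine ⟨?_, by rw [map_smul, h2]⟩
    rw [map_smul, map_smul, ← smul_add, h1, smul_zero]

theorem mem_Ker {s : ℂ} {u : A} : u ∈ X.Ker s ↔ X.d u + X.dl u = 0 ∧ X.Ga u = s • u := Iff.rfl

theorem mem_Mid {s : ℂ} {u : A} :
    u ∈ X.Mid s ↔ (X.d u + X.dl u = 0 ∧ X.Ga u = s • u) ∧ X.pr 7 u = u := Iff.rfl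

theorem mem_Off {s : ℂ} {u : A} :
    u ∈ X.Off s ↔ (X.d u + X.dl u = 0 ∧ X.Ga u = s • u) ∧ X.pr 7 u = 0 := Iff.rfl

theorem mem_Har {u : A} : u ∈ X.Har ↔ X.d u + X.dl u = 0 ∧ X.pr 7 u = u := Iff.rfl

theorem finite_of_harm {S : Submodule ℂ A} (hS : ∀ u ∈ S, X.d u + X.dl u = 0) :
    FiniteDimensional ℂ S := by
  have := X.fin
  have hle : S ≤ LinearMap.ker (X.d + X.dl) := fun u hu => by
    rw [LinearMap.mem_ker, LinearMap.add_apply]
    exact hS u hu
  exact Submodule.finiteDimensional_of_le hle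

theorem fin_Ker (s : ℂ) : FiniteDimensional ℂ (X.Ker s) := X.finite_of_harm fun _ h => h.1
theorem fin_Mid (s : ℂ) : FiniteDimensional ℂ (X.Mid s) := X.finite_of_harm fun _ h => h.1.1
theorem fin_Off (s : ℂ) : FiniteDimensional ℂ (X.Off s) := X.finite_of_harm fun _ h => h.1.1
theorem fin_Har : FiniteDimensional ℂ X.Har := X.finite_of_harm fun _ h => h.1

theorem Ga_pr7 (u : A) : X.pr 7 (X.Ga u) = X.Ga (X.pr 7 u) := by
  have := X.Ga_pr 7 u (by norm_num)
  simpa using this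

theorem ker_split (s : ℂ) : Module.finrank ℂ (X.Ker s) =
    Module.finrank ℂ (X.Mid s) + Module.finrank ℂ (X.Off s) := by
  have := X.fin_Mid s
  have := X.fin_Off s
  have h1 : X.Mid s ⊓ X.Off s = ⊥ := by
    rw [eq_bot_iff]
    rintro u ⟨hu1, hu2⟩
    rw [Submodule.mem_bot]
    have e1 := ((X.mem_Mid).1 hu1).2
    have e2 := ((X.mem_Off).1 hu2).2
    rw [← e1, e2]
  have h2 : X.Mid s ⊔ X.Off s = X.Ker s := by
    refine le_antisymm (sup_le (fun u hu => hu.1) fun u hu => hu.1) ?_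
    intro u hu
    rw [Submodule.mem_sup]
    obtain ⟨hu1, hu2⟩ := X.mem_Ker.1 hu
    have hk := X.harm_pr hu1 7
    have hG : X.Ga (X.pr 7 u) = s • X.pr 7 u := by
      rw [← X.Ga_pr7, hu2, map_smul]
    refine ⟨X.pr 7 u, ⟨⟨hk, hG⟩, X.pr_pr _ _⟩, u - X.pr 7 u, ⟨⟨?_, ?_⟩, ?_⟩, by abel⟩
    · have e : X.d (u - X.pr 7 u) + X.dl (u - X.pr 7 u) =
          (X.d u + X.dl u) - (X.d (X.pr 7 u) + X.dl (X.pr 7 u)) := by
        rw [map_sub, map_sub]; abel
      rw [e, hu1, hk, sub_zero]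
    · rw [map_sub, hu2, hG, smul_sub]
    · rw [map_sub, X.pr_pr, sub_self]
  have h3 := Submodule.finrank_sup_add_finrank_inf_eq (X.Mid s) (X.Off s)
  rw [h1, h2, finrank_bot, add_zero] at h3
  exact h3

/-! ### The forms of degree different from `7` do not contribute -/

/-- The sign of `7 - k`. -/
def sg (k : ℕ) : ℂ := if k < 7 then 1 else if k = 7 then 0 else -1

theorem sg_reflect {k : ℕ} (hk : k ≤ 14) : sg (14 - k) = -sg k := by
  unfold sg
  rcases lt_trichotomy k 7 with h | h | h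
  · rw [if_neg (by omega), if_neg (by omega), if_pos h]
  · subst h; norm_num
  · rw [if_pos (by omega), if_neg (by omega), if_neg (by omega)]; norm_num

/-- The operator which multiplies degree `k` by the sign of `7 - k`. -/
noncomputable def T : A →ₗ[ℂ] A := ∑ k ∈ Finset.range 15, sg k • X.pr k

theorem T_apply (u : A) : X.T u = ∑ k ∈ Finset.range 15, sg k • X.pr k u := by
  simp [T, LinearMap.sum_apply]

theorem pr_T (j : ℕ) (hj : j < 15) (u : A) : X.pr j (X.T u) = sg j • X.pr j u := by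
  rw [T_apply, map_sum, Finset.sum_eq_single j]
  · rw [map_smul, X.pr_pr]
  · intro k _ hk
    rw [map_smul, X.pr_ne _ _ _ (Ne.symm hk), smul_zero]
  · intro h
    exact absurd (Finset.mem_range.2 hj) h

theorem T_T {u : A} (hu : X.pr 7 u = 0) : X.T (X.T u) = u := by
  rw [T_apply]
  conv_rhs => rw [← X.pr_sum u]
  refine Finset.sum_congr rfl fun k hk => ?_
  rw [X.pr_T k (Finset.mem_range.1 hk), smul_smul]
  by_cases h7 : k = 7
  · subst h7; rw [hu, smul_zero]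
  · have : sg k * sg k = 1 := by
      unfold sg
      split_ifs <;> norm_num
    rw [this, one_smul]

theorem Ga_T (u : A) : X.Ga (X.T u) = -X.T (X.Ga u) := by
  rw [T_apply, T_apply, map_sum, ← Finset.sum_neg_distrib,
    ← Finset.sum_range_reflect (fun k => X.Ga (sg k • X.pr k u)) 15]
  refine Finset.sum_congr rfl fun k hk => ?_
  have hk' : k ≤ 14 := by have := Finset.mem_range.1 hk; omega
  have e : 15 - 1 - k = 14 - k := by omega
  rw [e, map_smul, ← X.Ga_pr k u hk', sg_reflect hk', neg_smul]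

theorem T_mem {s : ℂ} {u : A} (hu : u ∈ X.Off s) : X.T u ∈ X.Off (-s) := by
  obtain ⟨⟨h1, h2⟩, h3⟩ := X.mem_Off.1 hu
  refine ⟨⟨?_, ?_⟩, ?_⟩
  · rw [T_apply, map_sum, map_sum, ← Finset.sum_add_distrib]
    refine Finset.sum_eq_zero fun k _ => ?_
    rw [map_smul, map_smul, ← smul_add, X.harm_pr h1 k, smul_zero]
  · rw [X.Ga_T, h2, map_smul, neg_smul]
  · rw [X.pr_T 7 (by norm_num), h3, smul_zero]

theorem off_eq (s : ℂ) : Module.finrank ℂ (X.Off s) = Module.finrank ℂ (X.Off (-s)) := by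
  have := X.fin_Off s
  have := X.fin_Off (-s)
  have key : ∀ r : ℂ, FiniteDimensional ℂ (X.Off (-r)) →
      Module.finrank ℂ (X.Off r) ≤ Module.finrank ℂ (X.Off (-r)) := by
    intro r hr
    have hinj : Function.Injective
        ((X.T.restrict (p := X.Off r) (q := X.Off (-r)) fun u hu => X.T_mem hu)) := by
      intro u v huv
      have h1 : X.T u = X.T v := congrArg Subtype.val huv
      have h2 := congrArg X.T h1
      rw [X.T_T (X.mem_Off.1 u.2).2, X.T_T (X.mem_Off.1 v.2).2] at h2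
      exact Subtype.ext h2
    exact LinearMap.finrank_le_finrank_of_injective hinj
  refine le_antisymm (key s inferInstance) ?_
  have h2 := key (-s) (X.fin_Off _)
  rw [neg_neg] at h2
  exact h2

/-! ### Isotropic subspaces -/

theorem iso_le {S : Submodule ℂ A} (hS : S ≤ X.Har)
    (hq : ∀ u ∈ S, ∀ v ∈ S, X.ip u (X.Ga v) = 0) (s : ℂ) (hs : s = 1 ∨ s = -1) :
    Module.finrank ℂ S ≤ Module.finrank ℂ (X.Mid s) := by
  have := X.fin_Mid s
  have hss : s * s = 1 := by rcases hs with rfl | rfl <;> norm_num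
  let L : A →ₗ[ℂ] A := s • LinearMap.id + X.Ga
  have hL : ∀ u, L u = s • u + X.Ga u := fun u => rfl
  have hmem : ∀ u ∈ S, L u ∈ X.Mid s := by
    intro u hu
    obtain ⟨h1, h2⟩ := X.mem_Har.1 (hS hu)
    rw [hL]
    refine ⟨⟨?_, ?_⟩, ?_⟩
    · have e : X.d (s • u + X.Ga u) + X.dl (s • u + X.Ga u) =
          s • (X.d u + X.dl u) + (X.d (X.Ga u) + X.dl (X.Ga u)) := by
        rw [map_add, map_add, map_smul, map_smul, smul_add]; abel
      rw [e, h1, X.harm_Ga h1, smul_zero, add_zero]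
    · rw [map_add, map_smul, X.Ga_Ga, smul_add, smul_smul, hss, one_smul, add_comm]
    · rw [map_add, map_smul, X.Ga_pr7, h2]
  have hinj : Function.Injective (L.restrict (p := S) (q := X.Mid s) hmem) := by
    rw [← LinearMap.ker_eq_bot, eq_bot_iff]
    intro u hu
    rw [Submodule.mem_bot]
    have h1 : L (u : A) = 0 := congrArg Subtype.val (LinearMap.mem_ker.1 hu)
    rw [hL] at h1
    have h2 : X.Ga (u : A) = -(s • (u : A)) := by
      rw [eq_neg_iff_add_eq_zero, add_comm]; exact h1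
    have h3 := hq _ u.2 _ u.2
    rw [h2, map_neg, map_smul, neg_eq_zero, smul_eq_mul, mul_eq_zero] at h3
    rcases h3 with h3 | h3
    · exfalso; rw [h3] at hss; norm_num at hss
    · exact Subtype.ext (X.defin _ h3)
  exact LinearMap.finrank_le_finrank_of_injective hinj

theorem har_split : Module.finrank ℂ X.Har =
    Module.finrank ℂ (X.Mid 1) + Module.finrank ℂ (X.Mid (-1)) := by
  have := X.fin_Mid 1
  have := X.fin_Mid (-1)
  have h1 : X.Mid 1 ⊓ X.Mid (-1) = ⊥ := by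
    rw [eq_bot_iff]
    rintro u ⟨hu1, hu2⟩
    rw [Submodule.mem_bot]
    have e1 := ((X.mem_Mid).1 hu1).1.2
    have e2 := ((X.mem_Mid).1 hu2).1.2
    rw [e1, one_smul, neg_smul, one_smul] at e2
    have e3 : (2 : ℂ) • u = 0 := by
      rw [two_smul]
      nth_rewrite 2 [e2]
      exact add_neg_cancel u
    exact (smul_eq_zero.1 e3).resolve_left (by norm_num)
  have h2 : X.Mid 1 ⊔ X.Mid (-1) = X.Har := by
    refine le_antisymm (sup_le (fun u hu => ⟨hu.1.1, hu.2⟩) fun u hu => ⟨hu.1.1, hu.2⟩) ?_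
    intro u hu
    rw [Submodule.mem_sup]
    obtain ⟨hu1, hu2⟩ := X.mem_Har.1 hu
    have hG := X.harm_Ga hu1
    refine ⟨(2 : ℂ)⁻¹ • (u + X.Ga u), ⟨⟨?_, ?_⟩, ?_⟩, (2 : ℂ)⁻¹ • (u - X.Ga u),
      ⟨⟨?_, ?_⟩, ?_⟩, ?_⟩
    · have e : X.d ((2 : ℂ)⁻¹ • (u + X.Ga u)) + X.dl ((2 : ℂ)⁻¹ • (u + X.Ga u)) =
          (2 : ℂ)⁻¹ • ((X.d u + X.dl u) + (X.d (X.Ga u) + X.dl (X.Ga u))) := by
        rw [map_smul, map_smul, map_add, map_add, ← smul_add]; congr 1; abel
      rw [e, hu1, hG, add_zero, smul_zero]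
    · rw [map_smul, map_add, X.Ga_Ga, one_smul, add_comm]
    · rw [map_smul, map_add, X.Ga_pr7, hu2]
    · have e : X.d ((2 : ℂ)⁻¹ • (u - X.Ga u)) + X.dl ((2 : ℂ)⁻¹ • (u - X.Ga u)) =
          (2 : ℂ)⁻¹ • ((X.d u + X.dl u) - (X.d (X.Ga u) + X.dl (X.Ga u))) := by
        rw [map_smul, map_smul, map_sub, map_sub, ← smul_add]; congr 1; abel
      rw [e, hu1, hG, sub_zero, smul_zero]
    · rw [map_smul, map_sub, X.Ga_Ga, neg_smul, one_smul, ← smul_neg, neg_sub]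
    · rw [map_smul, map_sub, X.Ga_pr7, hu2]
    · rw [← smul_add, add_add_sub_cancel, ← two_smul ℂ u, smul_smul]
      norm_num
  have h3 := Submodule.finrank_sup_add_finrank_inf_eq (X.Mid 1) (X.Mid (-1))
  rw [h1, h2, finrank_bot, add_zero] at h3
  exact h3

/-- The harmonic `7`-forms cohomologous to an element of `J`. -/
def Cls (J : Submodule ℂ A) : Submodule ℂ A where
  carrier := {h | h ∈ X.Har ∧ ∃ u ∈ J, ∃ v, u = h + X.d v}
  zero_mem' := ⟨X.Har.zero_mem, 0, J.zero_mem, 0, by simp⟩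
  add_mem' := by
    rintro a b ⟨h1, u, hu, v, huv⟩ ⟨h1', u', hu', v', huv'⟩
    refine ⟨X.Har.add_mem h1 h1', u + u', J.add_mem hu hu', v + v', ?_⟩
    rw [map_add, huv, huv']; abel
  smul_mem' := by
    rintro c a ⟨h1, u, hu, v, huv⟩
    refine ⟨X.Har.smul_mem c h1, c • u, J.smul_mem c hu, c • v, ?_⟩
    rw [map_smul, huv, smul_add]

/-- Main theorem: vanishing of the index. -/
theorem index_zero (J1 J2 : Submodule ℂ A)
    (hJ1 : ∀ u ∈ J1, X.d u = 0 ∧ X.pr 7 u = u) (hJ2 : ∀ u ∈ J2, X.d u = 0 ∧ X.pr 7 u = u)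
    (hq1 : ∀ u ∈ J1, ∀ v ∈ J1, X.ip u (X.Ga v) = 0)
    (hq2 : ∀ u ∈ J2, ∀ v ∈ J2, X.ip u (X.Ga v) = 0)
    (hdec : ∀ u, X.d u = 0 → X.pr 7 u = u → ∃ u1 ∈ J1, ∃ u2 ∈ J2, ∃ v, u = u1 + u2 + X.d v) :
    Module.finrank ℂ (X.Ker 1) = Module.finrank ℂ (X.Ker (-1)) := by
  have hfH := X.fin_Har
  -- the classes of an isotropic family are isotropic
  have hiso : ∀ J : Submodule ℂ A, (∀ u ∈ J, X.d u = 0 ∧ X.pr 7 u = u) →
      (∀ u ∈ J, ∀ v ∈ J, X.ip u (X.Ga v) = 0) →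
      ∀ h ∈ X.Cls J, ∀ h' ∈ X.Cls J, X.ip h (X.Ga h') = 0 := by
    rintro J hJ hq h ⟨hh, u, hu, v, huv⟩ h' ⟨hh', u', hu', v', huv'⟩
    have e1 : X.dl (X.Ga h') = 0 := (X.harm (X.harm_Ga (X.mem_Har.1 hh').1)).2
    have e2 : X.dl (X.Ga u) = 0 := X.dl_Ga (hJ u hu).1 (hJ u hu).2
    have e3 : X.ip h (X.Ga h') = X.ip u (X.Ga h') := by
      rw [huv, map_add, LinearMap.add_apply, X.adj, e1, map_zero, add_zero]
    have e4 : X.ip u (X.Ga h') = X.ip u (X.Ga u') := by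
      rw [huv', map_add, map_add, ← X.Ga_symm u (X.d v'), X.symm (X.Ga u) (X.d v'), X.adj, e2,
        map_zero, map_zero, add_zero]
    rw [e3, e4]
    exact hq u hu u' hu'
  have hle1 : X.Cls J1 ≤ X.Har := fun u hu => hu.1
  have hle2 : X.Cls J2 ≤ X.Har := fun u hu => hu.1
  have hf1 : FiniteDimensional ℂ (X.Cls J1) := X.finite_of_harm fun u hu => (hle1 hu).1
  have hf2 : FiniteDimensional ℂ (X.Cls J2) := X.finite_of_harm fun u hu => (hle2 hu).1
  -- the harmonic forms are sums of such classes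
  have hsup : X.Har ≤ X.Cls J1 ⊔ X.Cls J2 := by
    intro h hh
    obtain ⟨hh1, hh2⟩ := X.mem_Har.1 hh
    obtain ⟨u1, hu1, u2, hu2, v, hv⟩ := hdec h (X.harm hh1).1 hh2
    obtain ⟨h1, v1, hh1', hh1'', e1⟩ := X.closed_dec (hJ1 u1 hu1).1 (hJ1 u1 hu1).2
    obtain ⟨h2, v2, hh2', hh2'', e2⟩ := X.closed_dec (hJ2 u2 hu2).1 (hJ2 u2 hu2).2
    rw [Submodule.mem_sup]
    refine ⟨h1, ⟨⟨hh1', hh1''⟩, u1, hu1, v1, e1⟩, h2, ⟨⟨hh2', hh2''⟩, u2, hu2, v2, e2⟩, ?_⟩
    have e3 : h - (h1 + h2) = X.d (v1 + v2 + v) := by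
      rw [hv, e1, e2, map_add, map_add]; abel
    have e4 : X.dl (h - (h1 + h2)) = 0 := by
      rw [map_sub, map_add, (X.harm hh1).2, (X.harm hh1').2, (X.harm hh2').2]; simp
    have e5 : h - (h1 + h2) = 0 := by
      refine X.defin _ ?_
      have : X.ip (h - (h1 + h2)) (h - (h1 + h2)) =
          X.ip (X.d (v1 + v2 + v)) (h - (h1 + h2)) := by rw [← e3]
      rw [this, X.adj, e4, map_zero]
    rw [sub_eq_zero] at e5
    exact e5.symm
  have hfs : FiniteDimensional ℂ (X.Cls J1 ⊔ X.Cls J2 : Submodule ℂ A) :=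
    Submodule.finiteDimensional_sup _ _
  have c1 : Module.finrank ℂ X.Har ≤
      Module.finrank ℂ (X.Cls J1) + Module.finrank ℂ (X.Cls J2) :=
    (Submodule.finrank_mono hsup).trans (Submodule.finrank_add_le_finrank_add_finrank _ _)
  have a1 := X.iso_le hle1 (hiso J1 hJ1 hq1) 1 (Or.inl rfl)
  have a2 := X.iso_le hle1 (hiso J1 hJ1 hq1) (-1) (Or.inr rfl)
  have b1 := X.iso_le hle2 (hiso J2 hJ2 hq2) 1 (Or.inl rfl)
  have b2 := X.iso_le hle2 (hiso J2 hJ2 hq2) (-1) (Or.inr rfl)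
  have c2 := X.har_split
  have k1 := X.ker_split 1
  have k2 := X.ker_split (-1)
  have o := X.off_eq 1
  omega

end HodgeData

end Pool.Agent.EXO
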