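import Pool.Agent.EXO.TopAdj
import Pool.Agent.EXO.TopAlg

/-!
# EXO / TopHod: the Hodge data of the flat bundle on `V`

PROOF.  `X.ip = ipA`, `X.pr k`, `X.d`, `X.dl`, `X.Ga` are `mkL` of the operators (each is an `OpA`)
  `pr k : u ↦ (x ↦ dg k (u x))`  (`Lam_dg`, `ten_dg`; `dg k` continuous linear),
  `d : u ↦ dV V t u`  (`VF.dV`, `dV_congr`, `dV_add`, `dV_smul`),
  `Ga : u ↦ (x ↦ 𝔇.Γ x (u x))`  (`𝔇.Γ_isSec`, `isSec_iff`),
  `dl : u ↦ (x ↦ 𝔇.op u x - dV V t u x)`  (`𝔇.op_isSec`, `𝔇.op_congr` with `V.Loc` from `hG.loc`, `𝔇.op_add`,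
  `𝔇.op_smul`; `VF.sub`); on `V` it is `dlV V tm u x` (`op_eq`).
Fields: for `f : SecA` use a representative `u` (`rep_VF`, `rep_eq`), `mkL_spec` and `secA_ext`.
`symm`, `re_nonneg`, `defin`: TopHa (`hG.pos`).  `pr_pr`, `pr_ne`: `dg_dg`.  `pr_sum`: `sum_dg` over `range (M + 1)`;
`dg k (u x) = 0` for `14 < k` (`VF.dg_high`) and for `M < k` (`dg_eq_zero`), so both sums agree (compare both
with the sum over `range (M + 15)`).  `d_pr`: `dg_dV'`.  `dl_pr`: `dg_dl` (on `V`, for the forms `u` and `dg (k+1) u`).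
`Ga_pr`: `Ga_deg`.  `Ga_Ga`: `Γ_sq` and `Q u = u`.  `Ga_symm`: `Γ_sa`, `ContinuousLinearMap.adjoint_inner_left`,
`integral_congr_ae`.  `anti`: `𝔇.op_Γ`, as `d + dl` is `𝔇.op`.  `dd`: `hdd`.
`adj`: `SigTw.adj` of TopAdj.
`fin`: `ker (d + dl)` is mapped by the injective restriction `f ↦ f.1` into `kerD 𝔇`, which is finite
dimensional.  `dec`: `hdec` for `rep u`.
The last claim: `𝔇.ker s` is the image of `X.Ker s` under the injective map `SecA → (V.carrier → HF M ι)`
(`Submodule.subtype`), `LinearEquiv.finrank_eq`.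
-/

set_option autoImplicit false
set_option maxSynthPendingDepth 3

open Set MeasureTheory Matrix Filter Topology
open scoped ContDiff ENNReal ComplexConjugate

namespace Pool.Agent.EXO

section

variable {n M : ℕ} {V : Geo n M} {H : Type} [NormedAddCommGroup H]
  [InnerProductSpace ℂ H] [FiniteDimensional ℂ H] (𝔇 : Dirac V H)

/-- The space of harmonic sections. -/
def kerD : Submodule ℂ (V.carrier → H) where
  carrier := {f | ∃ u : En M → H, 𝔇.IsSec u ∧ (∀ x ∈ V.carrier, 𝔇.op u x = 0) ∧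
    ∀ x : V.carrier, f x = u x}
  add_mem' := by
    rintro f g ⟨u, hu, hu3, hu4⟩ ⟨w, hw, hw3, hw4⟩
    refine ⟨fun x => u x + w x, ⟨hu.1.add hw.1, fun x hx => ?_⟩, fun x hx => ?_, fun x => ?_⟩
    · rw [map_add, hu.2 x hx, hw.2 x hx]
    · rw [𝔇.op_add hu.1 hw.1, hu3 x hx, hw3 x hx, add_zero]
    · simp [hu4, hw4]
  zero_mem' := by
    refine ⟨fun _ => 0, ⟨contDiff_const, fun x hx => by simp⟩, fun x hx => ?_, fun x => rfl⟩
    simp [Dirac.op]
  smul_mem' := by
    rintro r f ⟨u, hu, hu3, hu4⟩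
    refine ⟨fun x => r • u x, ⟨hu.1.const_smul r, fun x hx => ?_⟩, fun x hx => ?_, fun x => ?_⟩
    · rw [map_smul, hu.2 x hx]
    · rw [𝔇.op_smul r hu.1, hu3 x hx, smul_zero]
    · simp [hu4]

/-- The facts on the operator `𝔇` proved in part IDX. -/
structure HasHodge : Prop where
  fin : FiniteDimensional ℂ (kerD 𝔇)
  dec : ∀ u : En M → H, 𝔇.IsSec u → ∃ w v : En M → H, 𝔇.IsSec w ∧ 𝔇.IsSec v ∧
    (∀ x ∈ V.carrier, 𝔇.op w x = 0) ∧ ∀ x ∈ V.carrier, u x = w x + 𝔇.op v x

end

section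

variable {M : ℕ} {V : OrGeo 14 M} {ι : Type} [Fintype ι] [DecidableEq ι] {E' : Bd V.toGeo ι}
  {θ : Fin M → En M → Matrix ι ι ℂ} {𝔇 : Dirac V.toGeo (HF M ι)} {t tm : Tw M ι}

private theorem topHod_mk (f : SecA V.toGeo t) : f = mkA (rep_VF f) := by
  ext1
  funext x
  exact rep_eq f x

private theorem topHod_mkL {L : (En M → HF M ι) → (En M → HF M ι)} (hL : OpA V.toGeo t L)
    {u : En M → HF M ι} (hu : VF V.toGeo t u) : mkL hL (mkA hu) = mkA (hL.maps u hu) := by
  ext1
  funext x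
  exact mkL_spec hL hu (fun _ => rfl) x

private theorem topHod_ip {u w : En M → HF M ι} (hu : VF V.toGeo t u) (hw : VF V.toGeo t w) :
    ipA V.toGeo t (mkA hu) (mkA hw) = ∫ x, inner ℂ (u x) (w x) ∂V.μ :=
  ipA_spec (fun _ => rfl) (fun _ => rfl)

private theorem topHod_ext {u w : En M → HF M ι} {hu : VF V.toGeo t u} {hw : VF V.toGeo t w}
    (h : ∀ x ∈ V.carrier, u x = w x) : (mkA hu : SecA V.toGeo t) = mkA hw := by
  ext1
  funext x
  exact h x.1 x.2

private theorem topHod_pr (k : ℕ) :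
    OpA V.toGeo t (fun (u : En M → HF M ι) x => dg k (u x)) where
  maps := fun u hu => hu.dg k
  congr := fun u w _ _ h x hx => by
    change dg k (u x) = dg k (w x)
    rw [h x hx]
  add := fun u w _ _ x _ => by
    change dg k (u x + w x) = _
    rw [map_add]
  smul := fun c u _ x _ => by
    change dg k (c • u x) = _
    rw [map_smul]

private theorem topHod_diff {u : En M → HF M ι} (hu : VF V.toGeo t u) (x : En M) :
    DifferentiableAt ℝ u x := hu.smooth.differentiable (by simp) x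

private theorem topHod_d (ht : t.Smooth) (hV : t.OnV V.toGeo) :
    OpA V.toGeo t (dV V.toGeo t : (En M → HF M ι) → (En M → HF M ι)) where
  maps := fun u hu => hu.dV ht hV
  congr := fun u w hu hw h x hx => dV_congr hx (topHod_diff hu x) (topHod_diff hw x)
    (Eventually.of_forall fun y hy => h y hy)
  add := fun u w hu hw x _ => dV_add (topHod_diff hu x) (topHod_diff hw x)
  smul := fun c u hu x _ => dV_smul c (topHod_diff hu x)

private theorem topHod_Ga (h : SigTw V E' θ 𝔇 t tm) :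
    OpA V.toGeo t (fun (u : En M → HF M ι) x => 𝔇.Γ x (u x)) where
  maps := fun u hu => h.isSec_iff.mp (𝔇.Γ_isSec (h.isSec_iff.mpr hu))
  congr := fun u w _ _ h x hx => by
    change 𝔇.Γ x (u x) = 𝔇.Γ x (w x)
    rw [h x hx]
  add := fun u w _ _ x _ => by
    change 𝔇.Γ x (u x + w x) = _
    rw [map_add]
  smul := fun c u _ x _ => by
    change 𝔇.Γ x (c • u x) = _
    rw [map_smul]

private theorem topHod_dl (h : SigTw V E' θ 𝔇 t tm) (ht : t.Smooth) (hV : t.OnV V.toGeo)
    (hG : V.toGeo.Good 7) :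
    OpA V.toGeo t (fun (u : En M → HF M ι) x => 𝔇.op u x - dV V.toGeo t u x) where
  maps := fun u hu =>
    (h.isSec_iff.mp (𝔇.op_isSec (h.isSec_iff.mpr hu))).sub (hu.dV ht hV)
  congr := fun u w hu hw hh x hx => by
    change 𝔇.op u x - dV V.toGeo t u x = 𝔇.op w x - dV V.toGeo t w x
    rw [𝔇.op_congr hG.loc hu.smooth hw.smooth hh hx, (topHod_d ht hV).congr u w hu hw hh x hx]
  add := fun u w hu hw x hx => by
    change 𝔇.op (fun y => u y + w y) x - dV V.toGeo t (fun y => u y + w y) x = _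
    rw [𝔇.op_add hu.smooth hw.smooth, (topHod_d ht hV).add u w hu hw x hx]
    abel
  smul := fun c u hu x hx => by
    change 𝔇.op (fun y => c • u y) x - dV V.toGeo t (fun y => c • u y) x = _
    rw [𝔇.op_smul c hu.smooth, (topHod_d ht hV).smul c u hu x hx, smul_sub]

private theorem topHod_sum {u : En M → HF M ι} (hu : VF V.toGeo t u) {x : En M}
    (hx : x ∈ V.carrier) : ∑ k ∈ Finset.range 15, dg k (u x) = u x := by
  have h1 : ∑ k ∈ Finset.range 15, dg k (u x) = ∑ k ∈ Finset.range (M + 15), dg k (u x) := by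
    refine Finset.sum_subset (fun k hk => ?_) (fun k _ hk => ?_)
    · rw [Finset.mem_range] at hk ⊢
      omega
    · rw [Finset.mem_range] at hk
      exact hu.dg_high hx (by omega)
  have h2 : ∑ k ∈ Finset.range (M + 1), dg k (u x) =
      ∑ k ∈ Finset.range (M + 15), dg k (u x) := by
    refine Finset.sum_subset (fun k hk => ?_) (fun k _ hk => ?_)
    · rw [Finset.mem_range] at hk ⊢
      omega
    · rw [Finset.mem_range] at hk
      exact dg_eq_zero (by omega) _
  rw [h1, ← h2, sum_dg]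

private theorem topHod_apply_sum {s : Finset ℕ} (f : ℕ → SecA V.toGeo t) (x : V.carrier) :
    (∑ k ∈ s, f k).1 x = ∑ k ∈ s, (f k).1 x := by
  have h1 : (∑ k ∈ s, f k).1 = ∑ k ∈ s, (f k).1 := by
    exact map_sum (SecA V.toGeo t).subtype f s
  rw [h1, Finset.sum_apply]

/-- The Hodge data. -/
private noncomputable def topHodX (h : SigTw V E' θ 𝔇 t tm) (ht : t.Smooth)
    (hV : t.OnV V.toGeo)
    (hdd : ∀ u, VF V.toGeo t u → ∀ x ∈ V.carrier, dV V.toGeo t (dV V.toGeo t u) x = 0)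
    (hG : V.toGeo.Good 7) (hH : HasHodge 𝔇) : HodgeData (SecA V.toGeo t) where
  ip := ipA V.toGeo t
  pr k := mkL (topHod_pr k)
  d := mkL (topHod_d ht hV)
  dl := mkL (topHod_dl h ht hV hG)
  Ga := mkL (topHod_Ga h)
  symm := fun u v => ipA_symm u v
  re_nonneg := fun u => ipA_nonneg u
  defin := fun u hu => ipA_defin hG.pos u hu
  pr_pr := by
    intro k f
    rw [topHod_mk f, topHod_mkL, topHod_mkL]
    refine topHod_ext fun x _ => ?_
    simp only
    rw [dg_dg, if_pos rfl]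
  pr_ne := by
    intro k l f hkl
    rw [topHod_mk f, topHod_mkL, topHod_mkL]
    ext1
    funext x
    change dg k (dg l (rep f x)) = 0
    rw [dg_dg, if_neg hkl]
  pr_sum := by
    intro f
    ext1
    funext x
    rw [topHod_apply_sum]
    rw [rep_eq f x, ← topHod_sum (rep_VF f) x.2]
    refine Finset.sum_congr rfl fun k _ => ?_
    exact mkL_spec (topHod_pr k) (rep_VF f) (rep_eq f) x
  d_pr := by
    intro k f
    rw [topHod_mk f, topHod_mkL, topHod_mkL, topHod_mkL, topHod_mkL]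
    refine topHod_ext fun x _ => ?_
    exact dg_dV' (topHod_diff (rep_VF f) x)
  dl_pr := by
    intro k f
    rw [topHod_mk f, topHod_mkL, topHod_mkL, topHod_mkL, topHod_mkL]
    refine topHod_ext fun x hx => ?_
    simp only
    rw [h.op_eq (rep_VF f) hx, h.op_eq ((rep_VF f).dg (k + 1)) hx, add_sub_cancel_left,
      add_sub_cancel_left, dg_dl (topHod_diff (rep_VF f) x)]
  Ga_pr := by
    intro k f hk
    rw [topHod_mk f, topHod_mkL, topHod_mkL, topHod_mkL, topHod_mkL]
    refine topHod_ext fun x hx => ?_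
    exact h.Ga_deg (rep_VF f) hx hk
  Ga_Ga := by
    intro f
    conv_rhs => rw [topHod_mk f]
    rw [topHod_mk f, topHod_mkL, topHod_mkL]
    refine topHod_ext fun x hx => ?_
    rw [← topHod_mk f]
    have h1 := DFunLike.congr_fun (𝔇.Γ_sq x hx) (rep f x)
    have h2 : 𝔇.Q x (rep f x) = rep f x := (h.isSec_iff.mpr (rep_VF f)).2 x hx
    simp only [mul_apply_eq_comp, h2] at h1
    exact h1
  Ga_symm := by
    intro f g
    rw [topHod_mk f, topHod_mk g, topHod_mkL, topHod_mkL, topHod_ip, topHod_ip]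
    refine integral_congr_ae ?_
    have hae : ∀ᵐ x ∂V.μ, x ∈ V.carrier := V.μ_supp
    filter_upwards [hae] with x hx
    have h1 := ContinuousLinearMap.adjoint_inner_left (𝔇.Γ x) (rep g x) (rep f x)
    rw [𝔇.Γ_sa x hx] at h1
    exact h1
  adj := by
    intro f g
    rw [topHod_mk f, topHod_mk g, topHod_mkL, topHod_mkL, topHod_ip, topHod_ip]
    exact h.adj ht hV hG (rep_VF f) (rep_VF g)
  anti := by
    intro f
    rw [topHod_mk f, topHod_mkL, topHod_mkL, topHod_mkL (topHod_Ga h), topHod_mkL, topHod_mkL]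
    ext1
    funext x
    rw [mkL_spec (topHod_Ga h) (((rep_VF f).dV ht hV).add
      ((topHod_dl h ht hV hG).maps _ (rep_VF f))) (fun _ => rfl)]
    change 𝔇.Γ x (dV V.toGeo t (rep f) x + (𝔇.op (rep f) x - dV V.toGeo t (rep f) x)) =
      -(dV V.toGeo t (fun y => 𝔇.Γ y (rep f y)) x + (𝔇.op (fun y => 𝔇.Γ y (rep f y)) x -
        dV V.toGeo t (fun y => 𝔇.Γ y (rep f y)) x))
    rw [add_sub_cancel, add_sub_cancel, 𝔇.op_Γ hG.loc (h.isSec_iff.mpr (rep_VF f)) x.2, neg_neg]
  dd := by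
    intro f
    rw [topHod_mk f, topHod_mkL, topHod_mkL]
    ext1
    funext x
    exact hdd _ (rep_VF f) x x.2
  fin := by
    have := hH.fin
    have hmem : ∀ f : SecA V.toGeo t,
        f ∈ LinearMap.ker (mkL (topHod_d ht hV) + mkL (topHod_dl h ht hV hG)) →
        f.1 ∈ kerD 𝔇 := by
      intro f hf
      refine ⟨rep f, h.isSec_iff.mpr (rep_VF f), fun x hx => ?_, rep_eq f⟩
      rw [LinearMap.mem_ker, LinearMap.add_apply] at hf
      have h1 := congrArg (fun g : SecA V.toGeo t => g.1 ⟨x, hx⟩) hf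
      have h2 : (mkL (topHod_d ht hV) f + mkL (topHod_dl h ht hV hG) f).1 ⟨x, hx⟩ =
          dV V.toGeo t (rep f) x + (𝔇.op (rep f) x - dV V.toGeo t (rep f) x) := rfl
      rw [h2, add_sub_cancel] at h1
      exact h1
    let F : LinearMap.ker (mkL (topHod_d ht hV) + mkL (topHod_dl h ht hV hG)) →ₗ[ℂ] kerD 𝔇 :=
      LinearMap.codRestrict (kerD 𝔇) ((SecA V.toGeo t).subtype ∘ₗ Submodule.subtype _)
        (fun f => hmem f.1 f.2)
    have hF : Function.Injective F := by
      intro f g hfg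
      have h1 := congrArg Subtype.val hfg
      exact Subtype.ext (Subtype.ext h1)
    exact FiniteDimensional.of_injective F hF
  dec := by
    intro f
    obtain ⟨w, v, hw, hv, h1, h2⟩ := hH.dec (rep f) (h.isSec_iff.mpr (rep_VF f))
    refine ⟨mkA (h.isSec_iff.mp hw), mkA (h.isSec_iff.mp hv), ?_, ?_⟩
    · rw [topHod_mkL, topHod_mkL]
      ext1
      funext x
      change dV V.toGeo t w x + (𝔇.op w x - dV V.toGeo t w x) = 0
      rw [add_sub_cancel]
      exact h1 x x.2
    · rw [topHod_mkL, topHod_mkL]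
      ext1
      funext x
      rw [rep_eq f x]
      change rep f x = w x + (dV V.toGeo t v x + (𝔇.op v x - dV V.toGeo t v x))
      rw [add_sub_cancel]
      exact h2 x x.2

theorem SigTw.exists_hodge (h : SigTw V E' θ 𝔇 t tm) (ht : t.Smooth) (hV : t.OnV V.toGeo)
    (hdd : ∀ u, VF V.toGeo t u → ∀ x ∈ V.carrier, dV V.toGeo t (dV V.toGeo t u) x = 0)
    (hG : V.toGeo.Good 7) (hH : HasHodge 𝔇) :
    ∃ X : HodgeData (SecA V.toGeo t), X.ip = ipA V.toGeo t ∧
      (∀ u (hu : VF V.toGeo t u), X.d (mkA hu) = mkA (hu.dV ht hV)) ∧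
      (∀ u (hu : VF V.toGeo t u) (x : V.carrier), (X.Ga (mkA hu)).1 x = 𝔇.Γ x (u x)) ∧
      (∀ k u (hu : VF V.toGeo t u) (x : V.carrier), (X.pr k (mkA hu)).1 x = dg k (u x)) ∧
      ∀ s, Module.finrank ℂ (𝔇.ker s) = Module.finrank ℂ (X.Ker s) := by
  refine ⟨topHodX h ht hV hdd hG hH, rfl,
    fun u hu => topHod_mkL (topHod_d ht hV) hu,
    fun u hu x => mkL_spec (topHod_Ga h) hu (fun _ => rfl) x,
    fun k u hu x => mkL_spec (topHod_pr k) hu (fun _ => rfl) x, fun s => ?_⟩
  have h1 : 𝔇.ker s =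
      Submodule.map (SecA V.toGeo t).subtype ((topHodX h ht hV hdd hG hH).Ker s) := by
    ext f
    rw [Submodule.mem_map]
    constructor
    · rintro ⟨u, hu, h2, h3, h4⟩
      have hu' := h.isSec_iff.mp hu
      refine ⟨mkA hu', ⟨?_, ?_⟩, ?_⟩
      · change mkL (topHod_d ht hV) (mkA hu') + mkL (topHod_dl h ht hV hG) (mkA hu') = 0
        rw [topHod_mkL, topHod_mkL]
        ext1
        funext x
        change dV V.toGeo t u x + (𝔇.op u x - dV V.toGeo t u x) = 0
        rw [add_sub_cancel]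
        exact h3 x x.2
      · change mkL (topHod_Ga h) (mkA hu') = s • mkA hu'
        rw [topHod_mkL]
        ext1
        funext x
        exact h2 x x.2
      · funext x
        exact (h4 x).symm
    · rintro ⟨g, ⟨h2, h3⟩, rfl⟩
      refine ⟨rep g, h.isSec_iff.mpr (rep_VF g), fun x hx => ?_, fun x hx => ?_, rep_eq g⟩
      · have h4 := congrArg (fun g : SecA V.toGeo t => g.1 ⟨x, hx⟩) h3
        have h5 : (s • g).1 ⟨x, hx⟩ = s • rep g x := by
          rw [← rep_eq g ⟨x, hx⟩]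
          rfl
        rw [h5] at h4
        exact h4
      · have h4 := congrArg (fun g : SecA V.toGeo t => g.1 ⟨x, hx⟩) h2
        have h5 : ((topHodX h ht hV hdd hG hH).d g + (topHodX h ht hV hdd hG hH).dl g).1
            ⟨x, hx⟩ = dV V.toGeo t (rep g) x + (𝔇.op (rep g) x - dV V.toGeo t (rep g) x) := rfl
        rw [h5, add_sub_cancel] at h4
        exact h4
  rw [h1]
  exact (Submodule.equivMapOfInjective (SecA V.toGeo t).subtype (Submodule.subtype_injective _)
    ((topHodX h ht hV hdd hG hH).Ker s)).finrank_eq.symm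

end

end Pool.Agent.EXO
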