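import Pool.Agent.EXO.TopOp

/-!
# EXO / TopSt: the signature operator with coefficients in the flat bundle

`thV a x = ∑ c, (D r (P e_a))_c θ_c (r x)`, `θ = E.oddPart`.

Proofs.  For a matrix `T` write `T' = diagonal s * T * diagonal s`; `evenPart = (b + b')/2`, `oddPart = (b - b')/2`,
so `evenPart + oddPart = b`, `evenPart - oddPart = b'` and `diagonal s * diagonal s = 1` (`E.ss`).
`odd_props`: from `E.par`: `bᴴ = - b'` (see `toBd` in DefB), so `oddPartᴴ = oddPart`; `e * oddPart * e = oddPart`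
from `E.e_b`, `E.e_s`; `diagonal s * oddPart = - oddPart * diagonal s`.  All of this passes to the real linear
combination `thV`; `thV_tan`: `∑ c, (P e_a)_c D r (P e_c) = D r (P (P e_a)) = D r (P e_a)` (as in
`Bd.pb.A_tan` in DefB).
`tVm`: `e` the same, `b x v = S (tV.b x v) S`, `S = toK (diagonal s)`.
`sigTw`: `te` by `rfl`; `tb`: `(tV).b x (P e_a) = tN.b (r x) (D r (P e_a)) = toK (∑ c, (D r (P e_a))_c • b_c)`
(`tN_b'`), `b_c = evenPart c + oddPart c`; `tmb` similarly with `toK_mul`.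
-/

set_option autoImplicit false
set_option maxSynthPendingDepth 3

open Set MeasureTheory Matrix Filter Topology
open scoped ContDiff ENNReal ComplexConjugate

namespace Pool.Agent.EXO

section

variable {N : OrGeo 6 7} {C : Collar N.carrier} {l δ : ℝ} (𝒱 : VData N C l δ)
  {ι : Type} [Fintype ι] [DecidableEq ι] (E : FlatBd N.toGeo ι)

/-- The bundle on `V`. -/
noncomputable abbrev bdV : Bd 𝒱.V.toGeo ι := E.toBd.pb 𝒱.V.toGeo 𝒱.r 𝒱.smooth_r 𝒱.r_maps

/-- The term of order zero. -/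
noncomputable def thV (a : Fin 𝒱.M) (x : En 𝒱.M) : Matrix ι ι ℂ :=
  ∑ c, ((fderiv ℝ 𝒱.r x (𝒱.V.P x (bv a)) c : ℝ) : ℂ) • E.oddPart c (𝒱.r x)

/-- The connection `A - θ`. -/
noncomputable def tVm : Tw 𝒱.M ι where
  e := (tV 𝒱 E).e
  b := fun x => (LinearMap.toContinuousLinearMap
    { toFun := fun v => toK (diagonal E.s) * (tV 𝒱 E).b x v * toK (diagonal E.s)
      map_add' := by
        intro v w
        rw [map_add, mul_add, add_mul]
      map_smul' := by
        intro c v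
        rw [map_smul, RingHom.id_apply, mul_smul_comm, smul_mul_assoc] })

private noncomputable def topst_conj (S : Matrix ι ι ℂ) : Matrix ι ι ℂ →L[ℝ] Matrix ι ι ℂ :=
  LinearMap.toContinuousLinearMap
    { toFun := fun T => S * T * S
      map_add' := by
        intro T T'
        rw [mul_add, add_mul]
      map_smul' := by
        intro c T
        rw [RingHom.id_apply, Matrix.mul_smul, Matrix.smul_mul] }

private theorem topst_smooth_odd (c : Fin 7) : ContDiff ℝ ∞ (E.oddPart c) := by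
  have h1 := E.smooth_b c
  have h2 : ContDiff ℝ ∞ fun x => diagonal E.s * E.b c x * diagonal E.s :=
    (topst_conj (diagonal E.s)).contDiff.comp h1
  exact (h1.sub h2).const_smul (1 / 2 : ℂ)

theorem thV_smooth (a : Fin 𝒱.M) : ContDiff ℝ ∞ (thV 𝒱 E a) := by
  refine ContDiff.sum fun c _ => ?_
  have h1 : ContDiff ℝ ∞ fun x => fderiv ℝ 𝒱.r x (𝒱.V.P x (bv a)) :=
    (𝒱.smooth_r.fderiv_right (by simp)).clm_apply (𝒱.V.smoothP.clm_apply contDiff_const)
  have h2 : ContDiff ℝ ∞ fun x => fderiv ℝ 𝒱.r x (𝒱.V.P x (bv a)) c :=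
    (contDiff_piLp_apply (𝕜 := ℝ) (p := 2)).comp h1
  have h3 : ContDiff ℝ ∞ fun x => (fderiv ℝ 𝒱.r x (𝒱.V.P x (bv a)) c) • E.oddPart c (𝒱.r x) :=
    h2.smul ((topst_smooth_odd E c).comp 𝒱.smooth_r)
  have h4 : (fun x => (fderiv ℝ 𝒱.r x (𝒱.V.P x (bv a)) c) • E.oddPart c (𝒱.r x))
      = fun x => ((fderiv ℝ 𝒱.r x (𝒱.V.P x (bv a)) c : ℝ) : ℂ) • E.oddPart c (𝒱.r x) := by
    funext x
    ext i j
    simp
  rwa [h4] at h3

private theorem topst_odd (c : Fin 7) {y : En 7} (hy : y ∈ N.carrier) :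
    (E.oddPart c y)ᴴ = E.oddPart c y ∧ E.e y * E.oddPart c y * E.e y = E.oddPart c y ∧
      diagonal E.s * E.oddPart c y = -(E.oddPart c y * diagonal E.s) := by
  refine ⟨?_, ?_, ?_⟩
  · have h1 := E.par c y hy
    have h2 : (E.b c y)ᴴ = -(diagonal E.s * E.b c y * diagonal E.s) := by
      have h3 : ((E.b c y)ᴴ * diagonal E.s + diagonal E.s * E.b c y) * diagonal E.s = 0 := by
        rw [h1, Matrix.zero_mul]
      rw [add_mul, Matrix.mul_assoc, E.ss, Matrix.mul_one] at h3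
      exact eq_neg_of_add_eq_zero_left h3
    simp only [FlatBd.oddPart, conjTranspose_smul, conjTranspose_sub, conjTranspose_mul, E.sH, h2]
    have h4 : diagonal E.s * (-(diagonal E.s * E.b c y * diagonal E.s) * diagonal E.s)
        = -E.b c y := by
      rw [Matrix.neg_mul, Matrix.mul_neg]
      congr 1
      calc diagonal E.s * (diagonal E.s * E.b c y * diagonal E.s * diagonal E.s)
          = (diagonal E.s * diagonal E.s) * E.b c y * (diagonal E.s * diagonal E.s) := by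
            simp only [Matrix.mul_assoc]
        _ = _ := by rw [E.ss, Matrix.one_mul, Matrix.mul_one]
    rw [h4]
    simp only [one_div, star_inv₀, Complex.star_def, map_ofNat]
    congr 1
    abel
  · have h1 := E.e_b c y hy
    have h2 := E.e_s y hy
    have h3 : E.e y * (diagonal E.s * E.b c y * diagonal E.s) * E.e y
        = diagonal E.s * E.b c y * diagonal E.s := by
      calc E.e y * (diagonal E.s * E.b c y * diagonal E.s) * E.e y
          = (E.e y * diagonal E.s) * E.b c y * (diagonal E.s * E.e y) := by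
            simp only [Matrix.mul_assoc]
        _ = diagonal E.s * (E.e y * E.b c y * E.e y) * diagonal E.s := by
            rw [h2, ← h2]
            simp only [Matrix.mul_assoc, h2]
        _ = _ := by rw [h1]
    simp only [FlatBd.oddPart, Matrix.mul_smul, Matrix.smul_mul, mul_sub, sub_mul, h1, h3]
  · simp only [FlatBd.oddPart, Matrix.smul_mul, Matrix.mul_smul, sub_mul, mul_sub]
    have h5 : diagonal E.s * E.b c y * diagonal E.s * diagonal E.s = diagonal E.s * E.b c y := by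
      rw [Matrix.mul_assoc, E.ss, Matrix.mul_one]
    have h6 : diagonal E.s * (diagonal E.s * E.b c y * diagonal E.s)
        = E.b c y * diagonal E.s := by
      rw [← Matrix.mul_assoc, ← Matrix.mul_assoc, E.ss, Matrix.one_mul]
    rw [h5, h6, ← smul_neg, neg_sub]

private theorem topst_lin {m k : ℕ} (L : En m →L[ℝ] En k) (w : En m) :
    ∑ c, (w c) • (L (bv c)) = L w := by
  have hw : w = ∑ c, (w c) • (bv c : En m) := by
    ext i
    simp [bv, Finset.sum_apply, Pi.single_apply]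
  conv_rhs => rw [hw]
  simp only [map_sum, map_smul]

theorem thV_props (a : Fin 𝒱.M) {x : En 𝒱.M} (hx : x ∈ 𝒱.V.carrier) :
    (thV 𝒱 E a x)ᴴ = thV 𝒱 E a x ∧
      (bdV 𝒱 E).e x * thV 𝒱 E a x * (bdV 𝒱 E).e x = thV 𝒱 E a x ∧
      diagonal (bdV 𝒱 E).s * thV 𝒱 E a x = -(thV 𝒱 E a x * diagonal (bdV 𝒱 E).s) ∧
      ∑ c, ((𝒱.V.P x (bv a) c : ℝ) : ℂ) • thV 𝒱 E c x = thV 𝒱 E a x := by
  have hr := 𝒱.r_maps x hx
  refine ⟨?_, ?_, ?_, ?_⟩
  · unfold thV
    rw [conjTranspose_sum]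
    refine Finset.sum_congr rfl fun c _ => ?_
    rw [conjTranspose_smul, (topst_odd E c hr).1]
    simp
  · change E.e (𝒱.r x) * thV 𝒱 E a x * E.e (𝒱.r x) = _
    unfold thV
    simp only [Finset.mul_sum, Finset.sum_mul, Matrix.mul_smul, Matrix.smul_mul]
    exact Finset.sum_congr rfl fun c _ => by rw [(topst_odd E c hr).2.1]
  · change diagonal E.s * thV 𝒱 E a x = -(thV 𝒱 E a x * diagonal E.s)
    unfold thV
    simp only [Finset.mul_sum, Finset.sum_mul, Matrix.mul_smul, Matrix.smul_mul]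
    rw [← Finset.sum_neg_distrib]
    exact Finset.sum_congr rfl fun c _ => by rw [(topst_odd E c hr).2.2, smul_neg]
  · have h1 : ∑ c, (𝒱.V.P x (bv a) c) • (fderiv ℝ 𝒱.r x (𝒱.V.P x (bv c)))
        = fderiv ℝ 𝒱.r x (𝒱.V.P x (bv a)) := by
      have h2 := topst_lin ((fderiv ℝ 𝒱.r x).comp (𝒱.V.P x)) (𝒱.V.P x (bv a))
      simp only [ContinuousLinearMap.comp_apply] at h2
      rw [𝒱.V.P_idem x hx] at h2
      exact h2
    unfold thV
    simp only [Finset.smul_sum]
    rw [Finset.sum_comm]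
    refine Finset.sum_congr rfl fun d _ => ?_
    rw [← h1]
    simp only [smul_smul, ← Finset.sum_smul, WithLp.ofLp_sum,
      Finset.sum_apply, smul_eq_mul, WithLp.ofLp_smul, Pi.smul_apply]
    push_cast
    rfl

private theorem topst_tb (x : En 𝒱.M) (a : Fin 𝒱.M) :
    (tV 𝒱 E).b x (𝒱.V.P x (ee a)) =
      toK (∑ c, ((fderiv ℝ 𝒱.r x (𝒱.V.P x (bv a)) c : ℝ) : ℂ) • E.b c (𝒱.r x)) :=
  FlatBd.tN_b' E (𝒱.r x) (fderiv ℝ 𝒱.r x (𝒱.V.P x (bv a)))

private theorem topst_add (c : Fin 7) (y : En 7) : E.evenPart c y + E.oddPart c y = E.b c y := by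
  unfold FlatBd.evenPart FlatBd.oddPart
  rw [← smul_add, add_add_sub_cancel, ← two_smul ℂ, smul_smul]
  norm_num

private theorem topst_sub (c : Fin 7) (y : En 7) : E.evenPart c y - E.oddPart c y =
    diagonal E.s * E.b c y * diagonal E.s := by
  unfold FlatBd.evenPart FlatBd.oddPart
  rw [← smul_sub]
  have h : E.b c y + diagonal E.s * E.b c y * diagonal E.s -
      (E.b c y - diagonal E.s * E.b c y * diagonal E.s) =
      (2 : ℂ) • (diagonal E.s * E.b c y * diagonal E.s) := by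
    rw [two_smul]
    abel
  rw [h, smul_smul]
  norm_num

theorem sigTw_of {𝔇 : Dirac 𝒱.V.toGeo (HF 𝒱.M ι)} (h : IsSig 𝒱.V (bdV 𝒱 E) 𝔇)
    (hB : ∀ x ∈ 𝒱.V.carrier, 𝔇.B x = (∑ a, cl a * cf ((bdV 𝒱 E).A a x) +
      ∑ a, (eps a + iota a) * cf (thV 𝒱 E a x)) * 𝔇.Q x) :
    SigTw 𝒱.V (bdV 𝒱 E) (thV 𝒱 E) 𝔇 (tV 𝒱 E) (tVm 𝒱 E) where
  sig := h
  B_eq := hB
  te := fun x _ => rfl
  tme := fun x _ => rfl
  tb := fun x _ a => by
    rw [topst_tb]
    congr 1
    change _ = (∑ c, ((fderiv ℝ 𝒱.r x (𝒱.V.P x (bv a)) c : ℝ) : ℂ) • E.evenPart c (𝒱.r x)) +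
      ∑ c, ((fderiv ℝ 𝒱.r x (𝒱.V.P x (bv a)) c : ℝ) : ℂ) • E.oddPart c (𝒱.r x)
    rw [← Finset.sum_add_distrib]
    refine Finset.sum_congr rfl fun c _ => ?_
    rw [← smul_add, topst_add]
  tmb := fun x _ a => by
    change toK (diagonal E.s) * (tV 𝒱 E).b x (𝒱.V.P x (ee a)) * toK (diagonal E.s) = _
    rw [topst_tb, ← toK_mul, ← toK_mul]
    congr 1
    change _ = (∑ c, ((fderiv ℝ 𝒱.r x (𝒱.V.P x (bv a)) c : ℝ) : ℂ) • E.evenPart c (𝒱.r x)) -
      ∑ c, ((fderiv ℝ 𝒱.r x (𝒱.V.P x (bv a)) c : ℝ) : ℂ) • E.oddPart c (𝒱.r x)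
    rw [← Finset.sum_sub_distrib, Finset.mul_sum, Finset.sum_mul]
    refine Finset.sum_congr rfl fun c _ => ?_
    rw [← smul_sub, topst_sub, Matrix.mul_smul, Matrix.smul_mul]

end

end Pool.Agent.EXO
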