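import Pool.Agent.EXO.TopDec
import Pool.Agent.EXO.TopGp
import Pool.Agent.EXO.TopHod
import Pool.Agent.EXO.TopSt

/-!
# EXO / TopEnd: the index of the signature operator with flat coefficients vanishes
-/

set_option autoImplicit false
set_option maxSynthPendingDepth 3

open Set MeasureTheory Matrix Filter Topology
open scoped ContDiff ENNReal ComplexConjugate

namespace Pool.Agent.EXO

section

variable {n M : ℕ} {V : Geo n M} {κ : Type} [Fintype κ] {t : Tw M κ}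

theorem eq_mkA {f : SecA V t} {u : En M → HF M κ} (hu : VF V t u)
    (h : ∀ x : V.carrier, f.1 x = u x) : f = mkA hu :=
  secA_ext h (fun _ => rfl) fun _ _ => rfl

theorem mkA_congr {u w : En M → HF M κ} (hu : VF V t u) (hw : VF V t w)
    (h : ∀ x ∈ V.carrier, u x = w x) : mkA hu = mkA hw :=
  secA_ext (fun _ => rfl) (fun _ => rfl) h

theorem mkA_add {u w : En M → HF M κ} (hu : VF V t u) (hw : VF V t w) :
    mkA hu + mkA hw = mkA (hu.add hw) := rfl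

theorem mkA_eq_zero {u : En M → HF M κ} (hu : VF V t u) (h : ∀ x ∈ V.carrier, u x = 0) :
    mkA hu = 0 := by
  refine secA_ext (w := fun _ => 0) (fun _ => rfl) (fun _ => rfl) h

theorem eq_of_mkA_eq {u w : En M → HF M κ} {hu : VF V t u} {hw : VF V t w}
    (h : mkA hu = mkA hw) {x : En M} (hx : x ∈ V.carrier) : u x = w x := by
  have := congrArg (fun f : SecA V t => f.1 ⟨x, hx⟩) h
  exact this

end

section

variable {N : OrGeo 6 7} {C : Collar N.carrier} {l δ : ℝ} (𝒱 : VData N C l δ)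
  {ι : Type} [Fintype ι] [DecidableEq ι] (E : FlatBd N.toGeo ι)
  {T : En 7 → En 7 → Matrix ι ι ℂ}

/-- The submodule of the classes of the forms in `Supp7`. -/
def J7 (O : Set (En 𝒱.M)) : Submodule ℂ (SecA 𝒱.V.toGeo (tV 𝒱 E)) where
  carrier := {f | ∃ u, Supp7 𝒱 E O u ∧ ∀ x : 𝒱.V.carrier, f.1 x = u x}
  zero_mem' := by
    refine ⟨fun _ => 0, ⟨⟨contDiff_const, fun x _ => map_zero _, fun x _ => map_zero _⟩,
      fun y _ => map_zero _, fun y _ => ?_, ∅, isCompact_empty, empty_subset _,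
      fun _ _ _ => rfl⟩, fun x => rfl⟩
    unfold dV covV
    simp
  add_mem' := by
    rintro f g ⟨u, hu, h1⟩ ⟨w, hw, h2⟩
    obtain ⟨C1, hC1, hC1', hC1''⟩ := hu.supp
    obtain ⟨C2, hC2, hC2', hC2''⟩ := hw.supp
    refine ⟨fun x => u x + w x, ⟨hu.vf.add hw.vf, fun y hy => ?_, fun y hy => ?_, C1 ∪ C2,
      hC1.union hC2, union_subset hC1' hC2', fun y hy hyC => ?_⟩, fun x => ?_⟩
    · rw [map_add, hu.deg y hy, hw.deg y hy]
    · rw [dV_add ((hu.vf.smooth.differentiable (by simp)) y)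
        ((hw.vf.smooth.differentiable (by simp)) y), hu.closed y hy, hw.closed y hy, add_zero]
    · rw [hC1'' y hy fun h => hyC (Or.inl h), hC2'' y hy fun h => hyC (Or.inr h), add_zero]
    · change f.1 x + g.1 x = _
      rw [h1, h2]
  smul_mem' := by
    rintro c f ⟨u, hu, h1⟩
    obtain ⟨C1, hC1, hC1', hC1''⟩ := hu.supp
    refine ⟨fun x => c • u x, ⟨⟨hu.vf.smooth.const_smul c, fun x hx => ?_, fun x hx => ?_⟩,
      fun y hy => ?_, fun y hy => ?_, C1, hC1, hC1', fun y hy hyC => ?_⟩, fun x => ?_⟩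
    · rw [map_smul, hu.vf.tan x hx]
    · rw [map_smul, hu.vf.sec x hx]
    · rw [map_smul, hu.deg y hy]
    · rw [dV_smul c ((hu.vf.smooth.differentiable (by simp)) y), hu.closed y hy, smul_zero]
    · rw [hC1'' y hy hyC, smul_zero]
    · change c • f.1 x = _
      rw [h1]

theorem top_index {𝔇 : Dirac 𝒱.V.toGeo (HF 𝒱.M ι)} {tm : Tw 𝒱.M ι}
    {θ : Fin 𝒱.M → En 𝒱.M → Matrix ι ι ℂ}
    (h : SigTw 𝒱.V (bdV 𝒱 E) θ 𝔇 (tV 𝒱 E) tm) (hl : 0 < l) (hE : E.NoPar) (hT : E.IsPT δ T)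
    (hG : 𝒱.V.toGeo.Good 7) (hH : HasHodge 𝔇) : 𝔇.index = 0 := by
  obtain ⟨X, hip, hXd, hXGa, hXpr, hker⟩ := h.exists_hodge (tV_smooth 𝒱 E) (tV_onV 𝒱 E)
    (fun u hu x hx => ddV 𝒱 E hu hx) hG hH
  have hcl : ∀ {u} (hu : VF 𝒱.V.toGeo (tV 𝒱 E) u),
      (∀ y ∈ 𝒱.V.carrier, dV 𝒱.V.toGeo (tV 𝒱 E) u y = 0) → X.d (mkA hu) = 0 := by
    intro u hu h0
    rw [hXd]
    exact mkA_eq_zero _ h0
  have h7 : ∀ {u} (hu : VF 𝒱.V.toGeo (tV 𝒱 E) u),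
      (∀ y ∈ 𝒱.V.carrier, dg 7 (u y) = u y) → X.pr 7 (mkA hu) = mkA hu := by
    intro u hu h0
    refine secA_ext (u := fun x => dg 7 (u x)) (w := u) (hXpr 7 u hu) (fun _ => rfl) h0
  -- isotropy
  have iso : ∀ (gB : En 15 → ℝ) (B : VPiece C 𝒱.V.carrier gB) (i : Fin 15)
      (_ : Glue 𝒱.K B i) (_ : ∀ z ∈ dom gB C.O 20000,
      ((tV 𝒱 E).pull B.Ψ).e z = (tC C E).e z ∧ ((tV 𝒱 E).pull B.Ψ).b z = (tC C E).b z),
      ∀ f ∈ J7 𝒱 E (𝒱.K.O ∪ B.O), ∀ g ∈ J7 𝒱 E (𝒱.K.O ∪ B.O), X.ip f (X.Ga g) = 0 := by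
    rintro gB B i G hB f ⟨u, hu, h1⟩ g ⟨w, hw, h2⟩
    obtain ⟨C1, hC1, hC1', hC1''⟩ := hu.supp
    obtain ⟨C2, hC2, hC2', hC2''⟩ := hw.supp
    obtain ⟨v, hv, hv'⟩ := glue_prim 𝒱 E G (fun z hz => tV_K 𝒱 E hz) hB hu.vf hu.closed
      (hC1.union hC2) (union_subset hC1' hC2')
      (fun y hy hyC => hC1'' y hy fun h => hyC (Or.inl h))
    have e1 : f = mkA hu.vf := eq_mkA hu.vf h1
    have e2 : g = mkA hw.vf := eq_mkA hw.vf h2
    have e3 : X.ip f (X.Ga g) = X.ip (X.d (mkA hv)) (X.Ga g) := by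
      rw [hXd, hip, e1, e2]
      rw [ipA_spec (u := u) (w := fun x => 𝔇.Γ x (w x)) (fun _ => rfl) (hXGa w hw.vf),
        ipA_spec (u := dV 𝒱.V.toGeo (tV 𝒱 E) v) (w := fun x => 𝔇.Γ x (w x)) (fun _ => rfl)
          (hXGa w hw.vf)]
      refine integral_congr_ae ?_
      have hae : ∀ᵐ x ∂𝒱.V.μ, x ∈ 𝒱.V.carrier := 𝒱.V.μ_supp
      filter_upwards [hae] with x hx
      by_cases hxC : x ∈ C2
      · rw [hv' x (Or.inr hxC)]
      · rw [hC2'' x hx hxC, map_zero, inner_zero_right, inner_zero_right]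
    rw [e3, X.adj, X.dl_Ga (u := g) ?_ ?_, map_zero]
    · rw [e2]; exact hcl hw.vf hw.closed
    · rw [e2]; exact h7 hw.vf hw.deg
  obtain ⟨G1, _⟩ := glue1 hl 𝒱
  obtain ⟨G2, _⟩ := glue2 hl 𝒱
  have hJ : ∀ O, ∀ f ∈ J7 𝒱 E O, X.d f = 0 ∧ X.pr 7 f = f := by
    rintro O f ⟨u, hu, h1⟩
    have e1 : f = mkA hu.vf := eq_mkA hu.vf h1
    rw [e1]
    exact ⟨hcl hu.vf hu.closed, h7 hu.vf hu.deg⟩
  have key := X.index_zero (J7 𝒱 E (𝒱.K.O ∪ 𝒱.H1.O)) (J7 𝒱 E (𝒱.K.O ∪ 𝒱.H2.O)) (hJ _) (hJ _)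
    (iso g1 𝒱.H1 _ G1 fun z hz => tV_H1 𝒱 E hz) (iso g2 𝒱.H2 _ G2 fun z hz => tV_H2 𝒱 E hz) ?_
  · unfold Dirac.index
    rw [hker, hker, key, sub_self]
  · intro f hf hf7
    have e0 : f = mkA (rep_VF f) := eq_mkA _ (rep_eq f)
    have e1 : ∀ y ∈ 𝒱.V.carrier, dV 𝒱.V.toGeo (tV 𝒱 E) (rep f) y = 0 := by
      intro y hy
      rw [e0, hXd] at hf
      exact congrArg (fun f : SecA 𝒱.V.toGeo (tV 𝒱 E) => f.1 ⟨y, hy⟩) hf
    have e2 : ∀ y ∈ 𝒱.V.carrier, dg 7 (rep f y) = rep f y := by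
      intro y hy
      have h1 := hXpr 7 (rep f) (rep_VF f) ⟨y, hy⟩
      rw [← h1, ← e0, hf7, rep_eq]
    obtain ⟨u1, u2, v, hu1, hu2, hv, huv⟩ := top_dec 𝒱 E hl hE hT (rep_VF f) e2 e1
    refine ⟨mkA hu1.vf, ⟨u1, hu1, fun _ => rfl⟩, mkA hu2.vf, ⟨u2, hu2, fun _ => rfl⟩, mkA hv, ?_⟩
    rw [hXd, mkA_add, mkA_add]
    exact eq_mkA _ fun x => by rw [rep_eq, huv x.1 x.2]

end

end Pool.Agent.EXO
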