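import Pool.Agent.EXO.IgB

/-!
Project EXO, chunk IDX-A, module IgC: the main results of chunk IDX-A.

PROOFS.
* `mem_N_iff'`: `w ∈ N` iff `WD w 0` (`mem_N_iff`); `reg_WD` with `f = 0` gives `w ∈ secs`; and then
  `Dsec w = 0` by `WD.of_Sm`, `WD.unique` (`Geo.isOpenPos`).  Conversely `WD.of_Sm`.
* `finite_ker`, `finrank_Np`, `finrank_Nm`: the map `f ↦ (f : V.carrier → H)` (coercion) is an
  injective linear map from `(sys).Np` onto `𝔇.ker 1`: if `f ∈ Np` then `f ∈ N` is in `secs`, `f = u`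
  on `V`, `Γ u = u` on `V` and `op u = 0` on `V` (`Dsec_spec`).  Conversely.  `N` is finite dimensional
  by `fin_N` for the parametrix of any formal heat kernel (`exists_heat`, `exists_parx`).
* `hodge`: `f := restr u`.  Let `B` be an `OB` (`exists_OB`), `w := ∑ ip (e j) f • e j ∈ N`; `f - w` is
  orthogonal to `N`, so there is `v` with `WD v (f - w)` (`DSys.hodge`), `f - w ∈ secs`, so `v ∈ secs`
  (`reg_WD`), and `Dsec v = f - w` (`WD.of_Sm`, `WD.unique`).  Take the lifts.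
* `index_eq`: `index_tendsto` for the parametrix: as `ε → 0+`,
  `tr (star τ (K ε)) → finrank Np - finrank Nm = index`.  And
  `tr μX (star τ (rk k ε)) = (4π)^{-l} ∫ x, trace (Γ x * ev k ε (x,x)) dμ
   = (4π)^{-l} ∑_{|j| ≤ J} ε^j a_j`, `a_j = ∫ trace (Γ x * k j (x,x)) dμ` (`phiK (x,x) = 0`).
  A Laurent polynomial in `ε` which has a finite limit for `ε → 0+` has `a_j = 0` for `j < 0` and
  limit `a_0` (multiply by `ε^J`; lemma `laurent_limit`).
-/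

set_option autoImplicit false
set_option maxSynthPendingDepth 3

open MeasureTheory Filter Topology
open scoped ContDiff

namespace Pool.Agent.EXO

variable {n M l m : ℕ}

private theorem laurent_aux {J : ℕ} {a : ℤ → ℂ} (m : ℤ) (hm : m ∈ Finset.Icc (-(J : ℤ)) J)
    (h0 : ∀ j, -(J : ℤ) ≤ j → j < m → a j = 0) :
    Tendsto (fun ε : ℝ => ((ε ^ (-m) : ℝ) : ℂ) *
      ∑ j ∈ Finset.Icc (-(J : ℤ)) J, ((ε ^ j : ℝ) : ℂ) * a j) (𝓝[>] 0) (𝓝 (a m)) := by
  have h1 : Tendsto (fun ε : ℝ => ∑ j ∈ Finset.Icc (-(J : ℤ)) J,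
      ((ε ^ (j - m) : ℝ) : ℂ) * a j) (𝓝[>] 0)
      (𝓝 (∑ j ∈ Finset.Icc (-(J : ℤ)) J, if j = m then a m else 0)) := by
    refine tendsto_finsetSum _ fun j hj => ?_
    rw [Finset.mem_Icc] at hj
    rcases lt_trichotomy j m with h | h | h
    · rw [h0 j hj.1 h, if_neg h.ne]
      simp
    · subst h
      simp
    · rw [if_neg h.ne']
      obtain ⟨p, hp⟩ : ∃ p : ℕ, j - m = (p : ℤ) + 1 := ⟨(j - m - 1).toNat, by omega⟩
      rw [hp]
      have h6 : Tendsto (fun ε : ℝ => ((ε ^ (p + 1) : ℝ) : ℂ) * a j) (𝓝[>] 0) (𝓝 0) := by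
        have h7 : Continuous fun ε : ℝ => ((ε ^ (p + 1) : ℝ) : ℂ) * a j := by fun_prop
        have h8 := (h7.tendsto 0).mono_left (nhdsWithin_le_nhds (s := Set.Ioi (0 : ℝ)))
        simpa using h8
      refine h6.congr fun ε => ?_
      norm_cast
  rw [Finset.sum_ite_eq' _ m, if_pos hm] at h1
  refine h1.congr' ?_
  filter_upwards [self_mem_nhdsWithin] with ε hε
  rw [Finset.mul_sum]
  refine Finset.sum_congr rfl fun j _ => ?_
  rw [← mul_assoc, ← Complex.ofReal_mul, ← zpow_add₀ (ne_of_gt hε)]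
  congr 3
  ring

theorem laurent_limit {J : ℕ} {a : ℤ → ℂ} {c : ℂ}
    (h : Tendsto (fun ε : ℝ => ∑ j ∈ Finset.Icc (-(J : ℤ)) J, ((ε ^ j : ℝ) : ℂ) * a j)
      (𝓝[>] 0) (𝓝 c)) : c = a 0 := by
  have key : ∀ i : ℕ, i ≤ J → ∀ j : ℤ, -(J : ℤ) ≤ j → j < -(J : ℤ) + i → a j = 0 := by
    intro i
    induction i with
    | zero => intro _ j h1 h2; omega
    | succ i ih =>
      intro hi j h1 h2
      have ih' := ih (by omega)
      rcases lt_or_eq_of_le (show j ≤ -(J : ℤ) + i by push_cast at h2; omega) with h3 | h3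
      · exact ih' j h1 h3
      · have h4 := laurent_aux (J := J) (a := a) j (by rw [Finset.mem_Icc]; omega)
          (fun j' h5 h6 => ih' j' h5 (by omega))
        have h5 : Tendsto (fun ε : ℝ => ((ε ^ (-j) : ℝ) : ℂ) *
            ∑ j ∈ Finset.Icc (-(J : ℤ)) J, ((ε ^ j : ℝ) : ℂ) * a j) (𝓝[>] 0) (𝓝 (0 * c)) := by
          refine Tendsto.mul ?_ h
          obtain ⟨p, hp⟩ : ∃ p : ℕ, -j = (p : ℤ) + 1 := ⟨(-j - 1).toNat, by omega⟩
          rw [hp]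
          have h6 : Tendsto (fun ε : ℝ => ((ε ^ (p + 1) : ℝ) : ℂ)) (𝓝[>] 0) (𝓝 0) := by
            have h7 : Continuous fun ε : ℝ => ((ε ^ (p + 1) : ℝ) : ℂ) := by fun_prop
            have h8 := (h7.tendsto 0).mono_left (nhdsWithin_le_nhds (s := Set.Ioi (0 : ℝ)))
            simpa using h8
          refine h6.congr fun ε => ?_
          norm_cast
        rw [zero_mul] at h5
        exact tendsto_nhds_unique h4 h5
  have h4 := laurent_aux (J := J) (a := a) 0 (by rw [Finset.mem_Icc]; omega)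
    (fun j' h5 h6 => key J le_rfl j' h5 (by omega))
  refine tendsto_nhds_unique h (h4.congr fun ε => ?_)
  simp

namespace Dirac

variable {V : Geo n M} {H : Type} [NormedAddCommGroup H]
  [InnerProductSpace ℂ H] [FiniteDimensional ℂ H] (𝔇 : Dirac V H) {k : FK M H}

private theorem exists_P (hV : V.Good l) : Nonempty ((𝔇.sys hV).Parx 1) := by
  obtain ⟨k, hk⟩ := 𝔇.exists_heat hV (n + 1)
  obtain ⟨P, -⟩ := 𝔇.exists_parx hV hk le_rfl
  exact ⟨P⟩

theorem mem_N_iff' (hV : V.Good l) (w : C(V.carrier, H)) :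
    w ∈ (𝔇.sys hV).N ↔ ∃ u : En M → H, 𝔇.IsSec u ∧ (∀ x ∈ V.carrier, 𝔇.op u x = 0) ∧
      ∀ x : V.carrier, w x = u x := by
  have : V.μX.IsOpenPosMeasure := V.isOpenPos hV
  rw [DSys.mem_N_iff]
  constructor
  · intro h
    have hw : w ∈ 𝔇.secs := 𝔇.reg_WD hV h (Submodule.zero_mem _)
    have h1 := DSys.WD.of_Sm (S := 𝔇.sys hV) ⟨w, hw⟩
    have h2 : (𝔇.Dsec hV.loc ⟨w, hw⟩ : C(V.carrier, H)) = 0 := DSys.WD.unique h1 h
    obtain ⟨u, hu, hwu⟩ := hw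
    refine ⟨u, hu, fun x hx => ?_, hwu⟩
    have h3 := 𝔇.Dsec_spec hV.loc ⟨w, u, hu, hwu⟩ hu hwu ⟨x, hx⟩
    rw [h2] at h3
    exact h3.symm
  · rintro ⟨u, hu, hu0, hwu⟩
    have hw : w ∈ 𝔇.secs := ⟨u, hu, hwu⟩
    have h1 := DSys.WD.of_Sm (S := 𝔇.sys hV) ⟨w, hw⟩
    have h2 : (𝔇.Dsec hV.loc ⟨w, hw⟩ : C(V.carrier, H)) = 0 := by
      ext x
      rw [𝔇.Dsec_spec hV.loc ⟨w, hw⟩ hu hwu x, hu0 x x.2]
      rfl
    have h3 : ((𝔇.sys hV).D ⟨w, hw⟩ : C(V.carrier, H)) = 0 := h2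
    rw [h3] at h1
    exact h1

private theorem coe_inj : Function.Injective
    (ContinuousMap.coeFnLinearMap ℂ : C(V.carrier, H) →ₗ[ℂ] (V.carrier → H)) :=
  fun _ _ h => DFunLike.coe_injective h

private theorem ker_eq (hV : V.Good l) (s : ℂ) : 𝔇.ker s = Submodule.map
    (ContinuousMap.coeFnLinearMap ℂ : C(V.carrier, H) →ₗ[ℂ] (V.carrier → H))
    ((𝔇.sys hV).N ⊓ LinearMap.ker (((𝔇.sys hV).τ : C(V.carrier, H) →ₗ[ℂ] C(V.carrier, H)) -
      s • LinearMap.id)) := by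
  ext f
  rw [Submodule.mem_map]
  constructor
  · rintro ⟨u, hu, hu1, hu2, hfu⟩
    refine ⟨restr V u hu.1.continuous, Submodule.mem_inf.mpr ⟨?_, ?_⟩, ?_⟩
    · rw [𝔇.mem_N_iff' hV]
      exact ⟨u, hu, hu2, fun x => rfl⟩
    · rw [LinearMap.mem_ker]
      ext x
      change 𝔇.Γ x (u x) - s • u x = 0
      rw [hu1 x x.2, sub_self]
    · funext x
      exact (hfu x).symm
  · rintro ⟨w, hw, rfl⟩
    rw [Submodule.mem_inf, 𝔇.mem_N_iff' hV, LinearMap.mem_ker] at hw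
    obtain ⟨⟨u, hu, hu2, hwu⟩, h2⟩ := hw
    refine ⟨u, hu, fun x hx => ?_, hu2, hwu⟩
    have h3 := DFunLike.congr_fun h2 (⟨x, hx⟩ : V.carrier)
    change 𝔇.Γ x (w ⟨x, hx⟩) - s • w ⟨x, hx⟩ = 0 at h3
    rw [hwu] at h3
    exact sub_eq_zero.mp h3

theorem finite_ker (hV : V.Good l) (s : ℂ) : FiniteDimensional ℂ (𝔇.ker s) := by
  have : V.μX.IsOpenPosMeasure := V.isOpenPos hV
  obtain ⟨P⟩ := 𝔇.exists_P hV
  have h1 : FiniteDimensional ℂ (𝔇.sys hV).N := DSys.fin_N P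
  rw [𝔇.ker_eq hV s]
  have h2 : FiniteDimensional ℂ (((𝔇.sys hV).N ⊓ LinearMap.ker
      (((𝔇.sys hV).τ : C(V.carrier, H) →ₗ[ℂ] C(V.carrier, H)) - s • LinearMap.id) :
        Submodule ℂ C(V.carrier, H))) :=
    Submodule.finiteDimensional_of_le inf_le_left
  exact (LinearEquiv.finiteDimensional
    (Submodule.equivMapOfInjective _ (coe_inj (V := V) (H := H)) _))

theorem finrank_Np (hV : V.Good l) :
    Module.finrank ℂ (𝔇.sys hV).Np = Module.finrank ℂ (𝔇.ker 1) := by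
  rw [𝔇.ker_eq hV 1, one_smul]
  exact (LinearEquiv.finrank_eq
    (Submodule.equivMapOfInjective _ (coe_inj (V := V) (H := H)) _))

theorem finrank_Nm (hV : V.Good l) :
    Module.finrank ℂ (𝔇.sys hV).Nm = Module.finrank ℂ (𝔇.ker (-1)) := by
  rw [𝔇.ker_eq hV (-1), neg_smul, one_smul, sub_neg_eq_add]
  exact (LinearEquiv.finrank_eq
    (Submodule.equivMapOfInjective _ (coe_inj (V := V) (H := H)) _))

/-- The Hodge decomposition. -/
theorem hodge (hV : V.Good l) {u : En M → H} (hu : 𝔇.IsSec u) :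
    ∃ w v : En M → H, 𝔇.IsSec w ∧ 𝔇.IsSec v ∧ (∀ x ∈ V.carrier, 𝔇.op w x = 0) ∧
      ∀ x ∈ V.carrier, u x = w x + 𝔇.op v x := by
  have : V.μX.IsOpenPosMeasure := V.isOpenPos hV
  obtain ⟨P⟩ := 𝔇.exists_P hV
  obtain ⟨B⟩ := DSys.exists_OB P
  let f : C(V.carrier, H) := restr V u hu.1.continuous
  have hf : f ∈ 𝔇.secs := ⟨u, hu, fun x => rfl⟩
  let w : C(V.carrier, H) := ∑ j, Ker.ip V.μX (B.e j) f • B.e j
  have hw : w ∈ (𝔇.sys hV).N :=
    Submodule.sum_mem _ fun j _ => Submodule.smul_mem _ _ (B.he j)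
  obtain ⟨w0, hw0, hw1, hw2⟩ := (𝔇.mem_N_iff' hV w).mp hw
  have hws : w ∈ 𝔇.secs := ⟨w0, hw0, hw2⟩
  have hfw : f - w ∈ 𝔇.secs := Submodule.sub_mem _ hf hws
  have hQ : (𝔇.sys hV).Q (f - w) = f - w := (𝔇.sys hV).Q_Sm _ hfw
  have hp : ∀ w' ∈ (𝔇.sys hV).N, Ker.ip V.μX w' (f - w) = 0 := by
    intro w' hw'
    have h1 : ∀ j, Ker.ip V.μX (B.e j) (f - w) = 0 := by
      intro j
      rw [Ker.ip_sub_right, Ker.ip_sum_right]
      simp_rw [Ker.ip_smul_right, B.on]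
      simp
    rw [B.span w' hw', Ker.ip_sum_left]
    refine Finset.sum_eq_zero fun j _ => ?_
    rw [Ker.ip_smul_left, h1, mul_zero]
  obtain ⟨v, hv, -⟩ := DSys.hodge P hQ hp
  have hvs : v ∈ 𝔇.secs := 𝔇.reg_WD hV hv hfw
  have h1 := DSys.WD.of_Sm (S := 𝔇.sys hV) ⟨v, hvs⟩
  have h2 : (𝔇.Dsec hV.loc ⟨v, hvs⟩ : C(V.carrier, H)) = f - w := DSys.WD.unique h1 hv
  obtain ⟨v0, hv0, hvv⟩ := hvs
  refine ⟨w0, v0, hw0, hv0, hw1, fun x hx => ?_⟩
  have h3 := 𝔇.Dsec_spec hV.loc ⟨v, v0, hv0, hvv⟩ hv0 hvv ⟨x, hx⟩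
  rw [h2] at h3
  change u x - w ⟨x, hx⟩ = 𝔇.op v0 x at h3
  rw [← h3, hw2]
  abel

private noncomputable def trL (H : Type) [NormedAddCommGroup H] [InnerProductSpace ℂ H]
    [FiniteDimensional ℂ H] : (H →L[ℂ] H) →ₗ[ℂ] ℂ :=
  (LinearMap.trace ℂ H).comp (ContinuousLinearMap.coeLM ℂ)

private theorem trL_cont : Continuous (trL H) := LinearMap.continuous_of_finiteDimensional _

/-- The index as the integral of a coefficient of a formal heat kernel. -/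
theorem index_eq (hV : V.Good l) (h : 𝔇.IsHeat l m k) (hm : n + 1 ≤ m) :
    (𝔇.index : ℂ) = (((4 * Real.pi)⁻¹ ^ l : ℝ) : ℂ) *
      ∫ x, LinearMap.trace ℂ H ((𝔇.Γ x * k 0 (x, x) : H →L[ℂ] H) : H →ₗ[ℂ] H) ∂V.μ := by
  have : V.μX.IsOpenPosMeasure := V.isOpenPos hV
  obtain ⟨P, PK, -⟩ := 𝔇.exists_parx hV h hm
  have hlim := DSys.index_tendsto P
  rw [𝔇.finrank_Np hV, 𝔇.finrank_Nm hV] at hlim
  have hi : ((Module.finrank ℂ (𝔇.ker 1) : ℂ) - Module.finrank ℂ (𝔇.ker (-1))) =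
      (𝔇.index : ℂ) := by
    unfold Dirac.index
    push_cast
    rfl
  rw [hi] at hlim
  obtain ⟨J, hJ⟩ := h.fs.2
  set c : ℂ := (((4 * Real.pi)⁻¹ ^ l : ℝ) : ℂ) with hc
  have hc0 : c ≠ 0 := by
    rw [hc, Complex.ofReal_ne_zero]
    positivity
  let a : ℤ → ℂ := fun j => ∫ x, trL H (𝔇.Γ x * k j (x, x)) ∂V.μ
  have hcont : ∀ j, Continuous fun x : En M => trL H (𝔇.Γ x * k j (x, x)) := fun j =>
    trL_cont.comp (𝔇.smoothΓ.continuous.mul ((h.fs.1 j).continuous.comp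
      (continuous_id.prodMk continuous_id)))
  have hint : ∀ j, Integrable (fun x : En M => trL H (𝔇.Γ x * k j (x, x))) V.μ := fun j => by
    have h1 := (hcont j).continuousOn.integrableOn_compact (μ := V.μ) V.compact
    rwa [IntegrableOn, Measure.restrict_eq_self_of_ae_mem (mem_ae_iff.mpr V.μ_supp)] at h1
  have htr : ∀ ε ∈ Set.Ioc (0 : ℝ) 1, Ker.tr V.μX (Ker.star (𝔇.sys hV).τ (P.K ε)) =
      c * ∑ j ∈ Finset.Icc (-(J : ℤ)) J, ((ε ^ j : ℝ) : ℂ) * a j := by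
    intro ε hε
    rw [PK ε hε]
    unfold Ker.tr
    have e1 : ∀ x : V.carrier, LinearMap.trace ℂ H
        ((Ker.star (𝔇.sys hV).τ (rk V l k ε) (x, x) : H →L[ℂ] H) : H →ₗ[ℂ] H) =
        (fun x : En M => c * ∑ j ∈ Finset.Icc (-(J : ℤ)) J,
          ((ε ^ j : ℝ) : ℂ) * trL H (𝔇.Γ x * k j (x, x))) x := by
      intro x
      have e2 : (Ker.star (𝔇.sys hV).τ (rk V l k ε) (x, x) : H →L[ℂ] H) =
          c • ∑ j ∈ Finset.Icc (-(J : ℤ)) J, ((ε ^ j : ℝ) : ℂ) • (𝔇.Γ x * k j (x, x)) := by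
        ext h'
        rw [Ker.star_apply]
        change 𝔇.Γ x (rk V l k ε (x, x) h') = _
        rw [rk_apply h.fs hε.1, ev_eq_sum hJ]
        have e3 : phiK ((x : En M), (x : En M)) = 0 := by simp [phiK]
        rw [e3]
        simp only [neg_zero, zero_div, Real.exp_zero, mul_one]
        rw [smul_apply, map_smul, smul_apply, sum_apply, sum_apply, map_sum]
        congr 1
        refine Finset.sum_congr rfl fun j _ => ?_
        rw [smul_apply, map_smul]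
        rfl
      have e4 : LinearMap.trace ℂ H
          ((Ker.star (𝔇.sys hV).τ (rk V l k ε) (x, x) : H →L[ℂ] H) : H →ₗ[ℂ] H) =
          trL H (Ker.star (𝔇.sys hV).τ (rk V l k ε) (x, x)) := rfl
      rw [e4, e2, map_smul, map_sum]
      simp only [map_smul, smul_eq_mul]
    refine (integral_congr_ae (Filter.Eventually.of_forall e1)).trans ?_
    refine (V.integral_μX (fun x : En M => c * ∑ j ∈ Finset.Icc (-(J : ℤ)) J,
          ((ε ^ j : ℝ) : ℂ) * trL H (𝔇.Γ x * k j (x, x)))).trans ?_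
    rw [integral_const_mul, integral_finsetSum _ fun j _ => (hint j).const_mul _]
    congr 1
    refine Finset.sum_congr rfl fun j _ => ?_
    rw [integral_const_mul]
  have hlim2 : Tendsto (fun ε : ℝ => ∑ j ∈ Finset.Icc (-(J : ℤ)) J, ((ε ^ j : ℝ) : ℂ) * a j)
      (𝓝[>] 0) (𝓝 (c⁻¹ * (𝔇.index : ℂ))) := by
    have h1 := hlim.const_mul c⁻¹
    refine h1.congr' ?_
    filter_upwards [Ioc_mem_nhdsGT (one_pos : (0 : ℝ) < 1)] with ε hε
    rw [htr ε hε, ← mul_assoc, inv_mul_cancel₀ hc0, one_mul]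
  have h0 := laurent_limit hlim2
  have h1 : (𝔇.index : ℂ) = c * a 0 := by
    rw [← h0, ← mul_assoc, mul_inv_cancel₀ hc0, one_mul]
  exact h1

end Dirac

end Pool.Agent.EXO
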