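import Pool.Agent.EXO.TopHod
import Pool.Agent.EXO.IgC

/-!
# EXO / TopHg: the Hodge theory of part IDX in the form used in TOP
-/

set_option autoImplicit false
set_option maxSynthPendingDepth 3

open Set MeasureTheory Matrix Filter Topology
open scoped ContDiff ENNReal ComplexConjugate

namespace Pool.Agent.EXO

variable {n M l : ℕ} {V : Geo n M} {H : Type} [NormedAddCommGroup H]
  [InnerProductSpace ℂ H] [FiniteDimensional ℂ H] (𝔇 : Dirac V H)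

theorem kerD_le (hV : V.Good l) : kerD 𝔇 ≤ 𝔇.ker 1 ⊔ 𝔇.ker (-1) := by
  rintro f ⟨u, hu, h1, h2⟩
  have hΓ := 𝔇.Γ_isSec hu
  have hsq : ∀ x ∈ V.carrier, 𝔇.Γ x (𝔇.Γ x (u x)) = u x := by
    intro x hx
    have h3 := DFunLike.congr_fun (𝔇.Γ_sq x hx) (u x)
    change 𝔇.Γ x (𝔇.Γ x (𝔇.Q x (u x))) = 𝔇.Q x (u x) at h3
    rwa [hu.2 x hx] at h3
  have hop : ∀ x ∈ V.carrier, 𝔇.op (fun x => 𝔇.Γ x (u x)) x = 0 := by
    intro x hx
    rw [𝔇.op_Γ hV.loc hu hx, h1 x hx, map_zero, neg_zero]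
  rw [Submodule.mem_sup]
  refine ⟨fun x => (1 / 2 : ℂ) • (u x + 𝔇.Γ x (u x)),
    ⟨fun x => (1 / 2 : ℂ) • (u x + 𝔇.Γ x (u x)), ⟨(hu.1.add hΓ.1).const_smul _, fun x hx => ?_⟩,
      fun x hx => ?_, fun x hx => ?_, fun x => rfl⟩,
    fun x => (1 / 2 : ℂ) • (u x + (-1 : ℂ) • 𝔇.Γ x (u x)),
    ⟨fun x => (1 / 2 : ℂ) • (u x + (-1 : ℂ) • 𝔇.Γ x (u x)),
      ⟨(hu.1.add (hΓ.1.const_smul _)).const_smul _, fun x hx => ?_⟩,
      fun x hx => ?_, fun x hx => ?_, fun x => rfl⟩, ?_⟩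
  · rw [map_smul, map_add, hu.2 x hx, hΓ.2 x hx]
  · rw [map_smul, map_add, hsq x hx, one_smul, add_comm]
  · rw [𝔇.op_smul _ (hu.1.add hΓ.1), 𝔇.op_add hu.1 hΓ.1, h1 x hx, hop x hx, add_zero, smul_zero]
  · rw [map_smul, map_add, map_smul, hu.2 x hx, hΓ.2 x hx]
  · rw [map_smul, map_add, map_smul, hsq x hx, ← smul_comm (1 / 2 : ℂ) (-1 : ℂ)]
    congr 1
    rw [smul_add, smul_smul]
    norm_num
    abel
  · rw [𝔇.op_smul _ (hu.1.add (hΓ.1.const_smul _)), 𝔇.op_add hu.1 (hΓ.1.const_smul _),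
      𝔇.op_smul _ hΓ.1, h1 x hx, hop x hx, smul_zero, add_zero, smul_zero]
  · funext x
    change (1 / 2 : ℂ) • (u x + 𝔇.Γ x (u x)) + (1 / 2 : ℂ) • (u x + (-1 : ℂ) • 𝔇.Γ x (u x)) = f x
    rw [h2 x, ← smul_add, neg_one_smul]
    have h4 : u x + 𝔇.Γ x (u x) + (u x + -𝔇.Γ x (u x)) = (2 : ℂ) • u x := by
      rw [two_smul]
      abel
    rw [h4, smul_smul]
    norm_num

theorem hasHodge (hV : V.Good l) : HasHodge 𝔇 where
  fin := by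
    have := 𝔇.finite_ker hV 1
    have := 𝔇.finite_ker hV (-1)
    exact Submodule.finiteDimensional_of_le (kerD_le 𝔇 hV)
  dec := fun _ hu => 𝔇.hodge hV hu

end Pool.Agent.EXO
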