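import Pool.Agent.EXO.TopSgD
import Pool.Agent.EXO.TopEnd
import Pool.Agent.EXO.TopHg
import Pool.Agent.EXO.SuGood

/-!
# EXO / TopFin: vanishing of the index of the signature operator with flat coefficients
-/

set_option autoImplicit false
set_option maxSynthPendingDepth 3

open Set MeasureTheory Matrix
open scoped ContDiff ENNReal ComplexConjugate

namespace Pool.Agent.EXO

/-- Vanishing of the index of the signature operator with flat coefficients. -/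
theorem IF_top (N : OrGeo 6 7) (C : Collar N.carrier) (_hN : IsConnected N.carrier) (l : ℝ)
    (hl : 0 < l) (_hl' : l < 1)
    (ι : Type) [Fintype ι] [DecidableEq ι] (E : FlatBd N.toGeo ι) (hE : E.NoPar) (δ : ℝ)
    (T : En 7 → En 7 → Matrix ι ι ℂ) (hT : E.IsPT δ T) (𝒱 : VData N C l δ) :
    ∃ 𝔇 : Dirac 𝒱.V.toGeo (HF 𝒱.M ι),
      IsSig 𝒱.V (E.toBd.pb 𝒱.V.toGeo 𝒱.r 𝒱.smooth_r 𝒱.r_maps) 𝔇 ∧ 𝔇.index = 0 := by
  obtain ⟨𝔇, h1, h2⟩ := il_sig 𝒱.V (bdV 𝒱 E) (thV 𝒱 E) (thV_smooth 𝒱 E)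
    (fun a x hx => thV_props 𝒱 E a hx)
  have hG : 𝒱.V.toGeo.Good 7 := geo_good 𝒱.V.toGeo 7 rfl
  exact ⟨𝔇, h1, top_index 𝒱 E (sigTw_of 𝒱 E h1 h2) hl hE hT hG (hasHodge 𝔇 hG)⟩

/-- The existence of the signature operator. -/
theorem IF_sig (M : ℕ) (V : OrGeo 14 M) (ι : Type) [Fintype ι] [DecidableEq ι]
    (E : Bd V.toGeo ι) : ∃ 𝔇 : Dirac V.toGeo (HF M ι), IsSig V E 𝔇 := by
  obtain ⟨𝔇, h1, -⟩ := il_sig V E (fun _ _ => 0) (fun a => contDiff_const) (fun a x hx => by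
    simp)
  exact ⟨𝔇, h1⟩

end Pool.Agent.EXO
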