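import Mathlib
import Pool.Agent.EXO.TTt
import Pool.Agent.EXO.DefV

/-!
# EXO / GfullOf: from `GData` to `GFull` (part VCL)

PROOF.  Let `D : GData C l ε`.  Take `A1, B1, G1, H1` from `D` and
`A2 := D.A2 ∪ {z ∈ D.A1 | p1 (D.G1 z) ≠ 0}`, `G2 z := if z ∈ D.A1 then tt15 l (D.G1 z) else D.G2 z`,
`B2 := D.B2 ∪ {w | p1 w ≠ 0 ∧ p2 w ≠ 0 ∧ tti15 l w ∈ D.B1}`,
`H2 w := if p1 w ≠ 0 ∧ p2 w ≠ 0 ∧ tti15 l w ∈ D.B1 then D.H1 (tti15 l w) else D.H2 w`.
Facts.  (1) `D.H1 (C.R w) = D.H1 w` for `w ∈ D.B1`: `D.G1 (D.H1 w) = C.R w`, so `D.H1 (C.R w) = D.H1 (D.G1 (D.H1 w)) = C.R (D.H1 w) = D.H1 w`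
(`p3 (D.H1 w) ∈ N`, `R_of_N`); same for `H2`.  (2) on `D.A1 ∩ D.A2`, `tt15 l (D.G1 z) = D.G2 z` (`compat`), so `G2 = D.G2` on all of
`D.A2`.  (3) on the overlap of the two parts of `B2`, `D.H1 (tti15 l w) = D.H2 w`: put `z := D.H2 w ∈ D.A2`, `p3 z ∈ N`, `D.G2 z = C.R w`, `p2 (D.G2 z) = p2 w ≠ 0`,
so `z ∈ D.A1` (`inter2`) and `D.G2 z = tt15 l (D.G1 z)`, `D.G1 z = tti15 l (C.R w) = C.R (tti15 l w)`, `D.H1 (D.G1 z) = C.R z = z`; with (1) `D.H1 (tti15 l w) = z`.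
So `H2 = D.H2` on all of `D.B2`.  Smoothness on the two open parts separately (`ContDiffOn.union_of_isOpen` or local argument; `tt15`, `tti15`
are smooth on `{p1 ≠ 0, p2 ≠ 0}`).  Openness: preimages of open sets under continuous maps on open sets.
`interA`: for `z ∈ D.A1`: `z ∈ A2 ↔ p1 (G1 z) ≠ 0` (if `z ∈ D.A2` then `‖p2‖ < ‖p1‖/2` so `p1 ≠ 0`).  `interA2`: `z ∈ A2`: if `z ∈ D.A1` then
`p2 (G2 z)` has the norm of `p2 (D.G1 z) ≠ 0`; conversely if `z ∈ D.A2`, `p2 (G2 z) ≠ 0` use `inter2`.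
mapsG2: for `z ∈ D.A1`, `p1 (D.G1 z) ≠ 0`: `G2 z = tt15 (D.G1 z)` has nonzero components, `tti15 (G2 z) = D.G1 z ∈ D.B1`, `H2 (G2 z) = D.H1 (D.G1 z) = C.R z`.
mapsH2: for `w` with `tti15 w ∈ D.B1`: `z := D.H1 (tti15 w) ∈ D.A1`, `D.G1 z = C.R (tti15 w)`, nonzero `p1`, `G2 z = tt15 (C.R (tti15 w)) = C.R w`.
surj2: `p1 z ≠ 0`: if `‖p2 z‖ < ‖p1 z‖/2` use `D.surj2`; otherwise `p2 z ≠ 0` and `tti15 z` satisfies the hypotheses of `D.surj1` (norms are kept).
`satA2`, `satB2`: `R_tt15`, `C.R` keeps `p1`, `p2`; `D.G1 (C.R z) = D.G1 z` for `z ∈ D.A1` as in (1).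
`close2`: `gS (tt15 w) = gS w`, `p3 (tt15 w) = p3 w`.
-/

set_option autoImplicit false
set_option maxSynthPendingDepth 3

open Set
open scoped ContDiff Quaternion

namespace Pool.Agent.EXO

private theorem GfullOf_R_tti {N : Set (En 7)} (C : Collar N) (l : ℝ) (w : En 15) :
    tti15 l (C.R w) = C.R (tti15 l w) := by
  have h := R_tt15 C l (tti15 l w)
  rw [tt15_tti15] at h
  rw [h, tti15_tt15]

private theorem GfullOf_ne {m : ℕ} {x y : En m} (h : ‖x‖ = ‖y‖) : x ≠ 0 ↔ y ≠ 0 := by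
  rw [← norm_ne_zero_iff, h, norm_ne_zero_iff]

theorem gfull_of {N : Set (En 7)} {C : Collar N} {l ε : ℝ} (hl : 0 < l) (D : GData C l ε) :
    Nonempty (GFull C l ε) := by
  classical
  have fG1 : ∀ z ∈ D.A1, D.G1 (C.R z) = D.G1 z := by
    intro z hz
    obtain ⟨a1, a2, a3⟩ := D.mapsG1 z hz
    have := (D.mapsH1 _ a1).2.2
    rwa [a3, R_of_N C a2] at this
  have fH1 : ∀ w ∈ D.B1, D.H1 (C.R w) = D.H1 w := by
    intro w hw
    obtain ⟨a1, a2, a3⟩ := D.mapsH1 w hw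
    have := (D.mapsG1 _ a1).2.2
    rwa [a3, R_of_N C a2] at this
  have hlt : ∀ w : En 15, ‖p2 w‖ < ‖p1 w‖ / 2 → p1 w ≠ 0 := by
    intro w hw h
    rw [h, norm_zero] at hw
    have := norm_nonneg (p2 w)
    linarith
  set A12 : Set (En 15) := {z | z ∈ D.A1 ∧ p1 (D.G1 z) ≠ 0} with hA12
  set B12 : Set (En 15) := {w | (p1 w ≠ 0 ∧ p2 w ≠ 0) ∧ tti15 l w ∈ D.B1} with hB12
  set G2 : En 15 → En 15 := fun z => if z ∈ D.A1 then tt15 l (D.G1 z) else D.G2 z with hG2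
  set H2 : En 15 → En 15 := fun w => if w ∈ B12 then D.H1 (tti15 l w) else D.H2 w with hH2
  have fG2 : ∀ z ∈ D.A2, G2 z = D.G2 z := by
    intro z hz
    by_cases h : z ∈ D.A1
    · rw [hG2]
      simp only [h, if_true]
      exact (D.compat z ⟨h, hz⟩).symm
    · rw [hG2]
      simp only [h, if_false]
  have fG2' : ∀ z ∈ D.A1, G2 z = tt15 l (D.G1 z) := by
    intro z hz
    rw [hG2]
    simp only [hz, if_true]
  have fH2' : ∀ w ∈ B12, H2 w = D.H1 (tti15 l w) := by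
    intro w hw
    rw [hH2]
    simp only [hw, if_true]
  have fH2 : ∀ w ∈ D.B2, H2 w = D.H2 w := by
    intro w hw
    by_cases h : w ∈ B12
    · rw [fH2' w h]
      obtain ⟨a1, a2, a3⟩ := D.mapsH2 w hw
      have h2 : p2 (D.G2 (D.H2 w)) ≠ 0 := by
        rw [a3, (R_comp C w).2.1]
        exact h.1.2
      have h3 : D.H2 w ∈ D.A1 := D.inter2 _ a1 h2
      have h4 := D.compat _ ⟨h3, a1⟩
      rw [a3] at h4
      have h5 : D.G1 (D.H2 w) = C.R (tti15 l w) := by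
        rw [← GfullOf_R_tti, h4, tti15_tt15]
      have h6 := (D.mapsG1 _ h3).2.2
      rw [h5, fH1 _ h.2, R_of_N C a2] at h6
      exact h6
    · rw [hH2]
      simp only [h, if_false]
  have oU : IsOpen {z : En 15 | p1 z ≠ 0 ∧ p2 z ≠ 0} :=
    (isOpen_ne_fun contDiff_p1.continuous continuous_const).inter
      (isOpen_ne_fun contDiff_p2.continuous continuous_const)
  have oA12 : IsOpen A12 :=
    (contDiff_p1.continuous.comp_continuousOn D.smoothG1.continuousOn).isOpen_inter_preimage D.openA1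
      isOpen_compl_singleton
  have oB12 : IsOpen B12 :=
    (contDiffOn_tti15 hl).continuousOn.isOpen_inter_preimage oU D.openB1
  have nG1 : ∀ z ∈ D.A1, p2 (D.G1 z) ≠ 0 := fun z hz => (D.subB1 _ (D.mapsG1 z hz).1).1
  refine ⟨{
    A1 := D.A1
    A2 := D.A2 ∪ A12
    B1 := D.B1
    B2 := D.B2 ∪ B12
    G1 := D.G1
    G2 := G2
    H1 := D.H1
    H2 := H2
    openA1 := D.openA1
    openA2 := D.openA2.union oA12
    openB1 := D.openB1
    openB2 := D.openB2.union oB12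
    subA := ?_
    coverA := ?_
    subB1 := D.subB1
    subB2 := ?_
    satA1 := D.satA1
    satA2 := ?_
    satB1 := D.satB1
    satB2 := ?_
    smoothG1 := D.smoothG1
    smoothG2 := ?_
    smoothH1 := D.smoothH1
    smoothH2 := ?_
    mapsG1 := D.mapsG1
    mapsG2 := ?_
    mapsH1 := D.mapsH1
    mapsH2 := ?_
    interA := ?_
    interA2 := ?_
    compat := ?_
    surj1 := D.surj1
    surj2 := ?_
    close1 := D.close1
    close2 := ?_ }⟩
  · rintro z (hz | hz | hz)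
    · exact D.subA z (Or.inl hz)
    · exact D.subA z (Or.inr hz)
    · exact D.subA z (Or.inl hz.1)
  · intro z h1 h2 h3
    rcases D.coverA z h1 h2 h3 with h | h
    · exact Or.inl h
    · exact Or.inr (Or.inl h)
  · rintro w (hw | hw)
    · obtain ⟨h1, h2⟩ := D.subB2 w hw
      exact ⟨hlt w h1, h2⟩
    · refine ⟨hw.1.1, ?_⟩
      rw [← (tti15_comp l w).2.2.1]
      exact (D.subB1 _ hw.2).2
  · intro z hz
    have h1 := D.satA2 z hz
    have h2 := D.satA1 z hz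
    constructor
    · rintro (h | h)
      · exact Or.inl (h1.1 h)
      · refine Or.inr ⟨h2.1 h.1, ?_⟩
        rw [fG1 z h.1]
        exact h.2
    · rintro (h | h)
      · exact Or.inl (h1.2 h)
      · refine Or.inr ⟨h2.2 h.1, ?_⟩
        rw [← fG1 z (h2.2 h.1)]
        exact h.2
  · intro z hz
    have h1 := D.satB2 z hz
    have h2 := D.satB1 (tti15 l z) (by rw [(tti15_comp l z).2.2.1]; exact hz)
    obtain ⟨c1, c2, -⟩ := R_comp C z
    constructor
    · rintro (h | h)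
      · exact Or.inl (h1.1 h)
      · refine Or.inr ⟨by rw [c1, c2]; exact h.1, ?_⟩
        rw [GfullOf_R_tti]
        exact h2.1 h.2
    · rintro (h | h)
      · exact Or.inl (h1.2 h)
      · have h3 := h.1
        rw [c1, c2] at h3
        refine Or.inr ⟨h3, ?_⟩
        have h4 := h.2
        rw [GfullOf_R_tti] at h4
        exact h2.2 h4
  · refine ContDiffOn.union_of_isOpen (D.smoothG2.congr fG2) ?_ D.openA2 oA12
    refine ContDiffOn.congr (f := fun z => tt15 l (D.G1 z)) ?_ fun z hz => fG2' z hz.1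
    exact (contDiffOn_tt15 hl).comp (D.smoothG1.mono fun z hz => hz.1)
      fun z hz => ⟨hz.2, nG1 z hz.1⟩
  · refine ContDiffOn.union_of_isOpen (D.smoothH2.congr fH2) ?_ D.openB2 oB12
    refine ContDiffOn.congr (f := fun z => D.H1 (tti15 l z)) ?_ fun z hz => fH2' z hz
    exact D.smoothH1.comp ((contDiffOn_tti15 hl).mono fun z hz => hz.1) fun z hz => hz.2
  · rintro z (hz | hz)
    · obtain ⟨a1, a2, a3⟩ := D.mapsG2 z hz
      rw [fG2 z hz]
      exact ⟨Or.inl a1, a2, by rw [fH2 _ a1, a3]⟩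
    · obtain ⟨a1, a2, a3⟩ := D.mapsG1 z hz.1
      rw [fG2' z hz.1]
      obtain ⟨b1, b2, b3, -⟩ := tt15_comp l (D.G1 z)
      have hB : tt15 l (D.G1 z) ∈ B12 := by
        refine ⟨⟨(GfullOf_ne b1).2 hz.2, (GfullOf_ne b2).2 (nG1 z hz.1)⟩, ?_⟩
        rw [tti15_tt15]
        exact a1
      refine ⟨Or.inr hB, by rw [b3]; exact a2, ?_⟩
      rw [fH2' _ hB, tti15_tt15, a3]
  · rintro w (hw | hw)
    · obtain ⟨a1, a2, a3⟩ := D.mapsH2 w hw
      rw [fH2 w hw]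
      exact ⟨Or.inl a1, a2, by rw [fG2 _ a1, a3]⟩
    · obtain ⟨a1, a2, a3⟩ := D.mapsH1 _ hw.2
      rw [fH2' w hw]
      refine ⟨Or.inr ⟨a1, ?_⟩, a2, ?_⟩
      · rw [a3, (R_comp C _).1]
        exact (GfullOf_ne (tti15_comp l w).1).2 hw.1.1
      · rw [fG2' _ a1, a3, ← R_tt15, tt15_tti15]
  · intro z hz
    constructor
    · rintro (h | h)
      · exact hlt _ ((D.inter z hz).1 h)
      · exact h.2
    · intro h
      exact Or.inr ⟨hz, h⟩
  · intro z hz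
    constructor
    · intro h
      rw [fG2' z h]
      exact (GfullOf_ne (tt15_comp l (D.G1 z)).2.1).2 (nG1 z h)
    · intro h
      rcases hz with hz | hz
      · rw [fG2 z hz] at h
        exact D.inter2 z hz h
      · exact hz.1
  · intro z hz
    exact fG2' z hz.1
  · intro z h1 h2 h3 h4
    by_cases h5 : ‖p2 z‖ < ‖p1 z‖ / 2
    · exact Or.inl (D.surj2 z h1 h2 h3 h5)
    · have h6 : p2 z ≠ 0 := by
        intro h
        rw [h, norm_zero] at h5
        have := norm_pos_iff.2 h4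
        exact h5 (by linarith)
      obtain ⟨b1, b2, b3, b4⟩ := tti15_comp l z
      exact Or.inr ⟨⟨h4, h6⟩, D.surj1 _ (by rw [b4]; exact h1) (by rw [b4]; exact h2)
        (by rw [b3]; exact h3) ((GfullOf_ne b2).2 h6)⟩
  · rintro z (hz | hz)
    · rw [fG2 z hz]
      exact D.close2 z hz
    · rw [fG2' z hz.1]
      obtain ⟨b1, b2, b3, b4⟩ := tt15_comp l (D.G1 z)
      rw [b3, b4]
      exact D.close1 z hz.1

end Pool.Agent.EXO
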