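import Mathlib
import Pool.Agent.EXO.DefO

/-!
# EXO / OrA: the form `volR = dx_1 ⋯ dx_8 ∧ ρ^* vol_N` (part VCL)

PROOF.  `R = C.R : (x, y, m) ↦ (x, y, ρ m)` is smooth on the open set `{p3 z ∈ C.O}`, `R ∘ R = R`.
`orA_R`: `pbF R (volR) = pbF R vol8 * pbF R (pbF (rho ∘ p3) vol)` (`pbF_mul`); the derivative of `R` keeps the first eight coordinates, so `pbF R vol8 = vol8` (`FAMap` is a ring
homomorphism, `FAMap L (of1 v) = of1 (adjoint L v)`, the adjoint of `D R` fixes `bv i`, `i < 8`), and `(rho ∘ p3) ∘ R = rho ∘ p3` near `z` (`pbF_comp`).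
`orA_ne`: let `m = p3 z ∈ C.O`, `n = rho m`, `t = sc m`, `m = io n t`.  The frame `v_1..v_6` of `vol_spec` at `n`: `vol n = of1 v_1 * ... * of1 v_6`.  Curves: for a chart `ψ` of `N` at `n`,
`rho (io (ψ u) t) = ψ u`, so `D rho(m) ∘ D io(·,t)(n)` is the identity on `T_n N`; hence `FAMap (D(io(·,t))(n)) (FAMap (D rho (m)) (vol n))` and `vol n` agree after `FAMap (N.P n)`, and
`FAMap (N.P n) (vol n) = vol n ≠ 0` (`inner_prod_of1`; `N.P n v_i = v_i`).  So `FAMap (D rho m) (vol n) ≠ 0`, it is a form in the last seven variables and `vol8 * _ ≠ 0`: pull back under the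
linear isomorphism; e.g. contract/compare the coefficients `co (I ∪ {0..7})`, or apply `FAMap` of the linear map `j : ℝ^8 × ℝ^6 → ℝ^15` and `orthonormal` products:
choose `w_1..w_6 ∈ ℝ^7` with `D rho(m) w_i = v_i` (surjectivity just proved) and evaluate (`prod_of1_eq`, `inner_FAMap`).
`orA_mult`: `D := fderiv ℝ C.R z` has a kernel (`D io(n,·)(t)` is a nonzero vector `w` of `ℝ^7` since `sc (io n t) = t`, and `D rho w = 0`), so its rank is `≤ 14` and `D = B ∘ A`, `A : ℝ^15 → ℝ^14`,
`B : ℝ^14 → ℝ^15` (`exists_factor`).  For forms of degree `14` on `ℝ^14`, `FAMap B ω' = a • top`; so `ω = FAMap D ω' = a • FAMap A top` and, by `orA_R`,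
`volR z = FAMap D (volR (R z)) = a₀ • FAMap A top`, `a₀ ≠ 0` by `orA_ne`; `ω = (a/a₀) • volR z`.  The coefficients of `ω` and `volR z` are real and `volR z ≠ 0`, so `a/a₀` is real.
-/

set_option autoImplicit false
set_option maxSynthPendingDepth 3

open Set
open scoped ContDiff Quaternion

namespace Pool.Agent.EXO

/-- forms with real coefficients -/
def FReal {m : ℕ} (u : FA m) : Prop := ∀ I, (starRingEnd ℂ) (u.co I) = u.co I

theorem FReal.mul {m : ℕ} {u v : FA m} (hu : FReal u) (hv : FReal v) : FReal (u * v) := by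
  intro K
  rw [FA.co_mul, map_sum]
  refine Finset.sum_congr rfl fun I _ => ?_
  rw [map_mul, map_mul, hu, hv]
  congr 2
  unfold sgJ
  rw [map_pow, map_neg, map_one]

theorem FReal.of1 {m : ℕ} (v : En m) : FReal (of1 v) := by
  intro K
  rw [of1_eq_sum, co_sum, map_sum]
  refine Finset.sum_congr rfl fun a _ => ?_
  rw [FA.co_smul, map_mul, Complex.conj_ofReal]
  congr 1
  unfold dx
  rw [mon_co]
  split_ifs
  · exact map_one _
  · exact map_zero _

private theorem orA_list {m : ℕ} (L : List (FA m)) (h : ∀ x ∈ L, FReal x) : FReal L.prod := by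
  induction L with
  | nil =>
    intro K
    rw [List.prod_nil, FA.co_one]
    split_ifs
    · exact map_one _
    · exact map_zero _
  | cons a L ih =>
    rw [List.prod_cons]
    exact (h a (by simp)).mul (ih fun x hx => h x (by simp [hx]))

theorem FReal.FAMap {k m : ℕ} (L : En k →L[ℝ] En m) {u : FA m} (hu : FReal u) :
    FReal (FAMap L u) := by
  intro J
  unfold EXO.FAMap
  rw [co_sum, map_sum]
  refine Finset.sum_congr rfl fun I _ => ?_
  rw [FA.co_smul, map_mul, hu]
  congr 1
  refine orA_list _ (fun x hx => ?_) J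
  obtain ⟨b, _, rfl⟩ := List.mem_map.1 hx
  exact FReal.of1 _

private theorem orA_prod {k m : ℕ} (v : Fin k → En m) :
    FReal (List.ofFn fun i => EXO.of1 (v i)).prod := by
  refine orA_list _ fun x hx => ?_
  obtain ⟨i, rfl⟩ := (List.mem_ofFn' _ _).1 hx
  exact FReal.of1 _

theorem freal_vol (N : OrGeo 6 7) {n : En 7} (hn : n ∈ N.carrier) : FReal (N.vol n) := by
  obtain ⟨v, -, -, h⟩ := N.vol_spec n hn
  rw [h]
  exact orA_prod v

/-- the last seven coordinates -/
private noncomputable def orAp : En 15 →L[ℝ] En 7 := LinearMap.toContinuousLinearMap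
  { toFun := p3
    map_add' := fun x y => by ext i; simp [p3]
    map_smul' := fun r x => by ext i; simp [p3] }

private theorem orAp_apply (z : En 15) : orAp z = p3 z := rfl

/-- the inclusion as the last seven coordinates -/
private noncomputable def orAi : En 7 →L[ℝ] En 15 := LinearMap.toContinuousLinearMap
  { toFun := fun w => WithLp.toLp 2 fun i => if h : i.1 < 8 then 0 else w ⟨i - 8, by omega⟩
    map_add' := fun x y => by
      ext i
      by_cases h : i.1 < 8 <;> simp [h]
    map_smul' := fun r x => by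
      ext i
      by_cases h : i.1 < 8 <;> simp [h] }

private theorem orAi_lt (w : En 7) (i : Fin 15) (h : i.1 < 8) : orAi w i = 0 := by
  simp [orAi, h]

private theorem orAp_i (w : En 7) : orAp (orAi w) = w := by
  ext i
  rw [orAp_apply]
  simp [p3, orAi]

private theorem orA_Req {N : Set (En 7)} (C : Collar N) (z : En 15) :
    C.R z = z + orAi (C.rho (p3 z) - p3 z) := by
  ext i
  by_cases h : i.1 < 8
  · rw [PiLp.add_apply, orAi_lt _ _ h, add_zero]
    by_cases h' : i.1 < 4
    · simp [Collar.R, j15, p1, h']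
    · simp only [Collar.R, j15, p2, h, h', dite_true, dite_false]
      exact congrArg z (Fin.ext (by simp; omega))
  · have h' : ¬ i.1 < 4 := by omega
    have e : z i = p3 z ⟨i.1 - 8, by omega⟩ := by
      simp only [p3]
      exact congrArg z (Fin.ext (by simp; omega))
    have e2 : orAi (C.rho (p3 z) - p3 z) i = (C.rho (p3 z) - p3 z) ⟨i.1 - 8, by omega⟩ := by
      simp [orAi, h]
    rw [PiLp.add_apply, e2, e, PiLp.sub_apply]
    simp [Collar.R, j15, h, h']

private theorem orA_open {N : Set (En 7)} (C : Collar N) : IsOpen {z : En 15 | p3 z ∈ C.O} :=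
  C.openO.preimage orAp.continuous

private theorem orA_rho_smooth {N : Set (En 7)} (C : Collar N) :
    ContDiffOn ℝ ∞ (fun z => C.rho (p3 z)) {z : En 15 | p3 z ∈ C.O} :=
  C.smooth_rho.comp orAp.contDiff.contDiffOn fun _ hz => hz

private theorem orA_rho_diff {N : Set (En 7)} (C : Collar N) {m : En 7} (hm : m ∈ C.O) :
    DifferentiableAt ℝ C.rho m :=
  ((C.smooth_rho.contDiffAt (C.openO.mem_nhds hm)).differentiableAt (by simp))

private theorem orA_rho_fderiv {N : Set (En 7)} (C : Collar N) {z : En 15} (hz : p3 z ∈ C.O) :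
    HasFDerivAt (fun z => C.rho (p3 z)) ((fderiv ℝ C.rho (p3 z)).comp orAp) z := by
  have h1 : HasFDerivAt (fun z : En 15 => p3 z) orAp z := orAp.hasFDerivAt
  exact (orA_rho_diff C hz).hasFDerivAt.comp z h1

private theorem orA_R_fderiv {N : Set (En 7)} (C : Collar N) {z : En 15} (hz : p3 z ∈ C.O) :
    HasFDerivAt C.R (ContinuousLinearMap.id ℝ (En 15) +
      orAi.comp ((fderiv ℝ C.rho (p3 z)).comp orAp - orAp)) z := by
  have h1 : HasFDerivAt (fun z : En 15 => p3 z) orAp z := orAp.hasFDerivAt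
  have h2 := (orAi.hasFDerivAt (x := C.rho (p3 z) - p3 z)).comp z ((orA_rho_fderiv C hz).sub h1)
  have h3 := (hasFDerivAt_id z).add h2
  refine h3.congr_of_eventuallyEq ?_
  exact Filter.Eventually.of_forall fun y => orA_Req C y

private theorem orA_R_lt {N : Set (En 7)} (C : Collar N) {z : En 15} (hz : p3 z ∈ C.O)
    (w : En 15) (i : Fin 15) (h : i.1 < 8) : fderiv ℝ C.R z w i = w i := by
  rw [(orA_R_fderiv C hz).fderiv]
  change (w + orAi _) i = w i
  rw [PiLp.add_apply, orAi_lt _ _ h, add_zero]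

private theorem orA_N {N : Set (En 7)} (C : Collar N) {n : En 7} (hn : n ∈ N) :
    n ∈ C.O ∧ C.rho n = n := by
  have h := C.io_mem n hn 0 (by norm_num)
  rw [C.io_zero n hn] at h
  exact ⟨h.1, h.2.1⟩

private theorem orA_p3R {N : Set (En 7)} (C : Collar N) (z : En 15) :
    p3 (C.R z) = C.rho (p3 z) := by
  unfold Collar.R
  rw [p3_j15]

private theorem orA_vol_deg (N : OrGeo 6 7) {n : En 7} (hn : n ∈ N.carrier) :
    (N.vol n).IsDeg 6 := by
  obtain ⟨v, -, -, h⟩ := N.vol_spec n hn
  rw [h]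
  exact isDeg_prod_of1 v

theorem volR_smooth (N : OrGeo 6 7) (C : Collar N.carrier) :
    ContDiffOn ℝ ∞ (volR N C) {z | p3 z ∈ C.O} :=
  contDiffOn_mulFA contDiffOn_const
    (contDiffOn_pbF (orA_open C) isOpen_univ (orA_rho_smooth C) N.smooth_vol.contDiffOn
      fun _ _ => mem_univ _)

theorem volR_deg (N : OrGeo 6 7) (C : Collar N.carrier) {z : En 15} (hz : p3 z ∈ C.O) :
    (volR N C z).IsDeg 14 ∧ FReal (volR N C z) := by
  have hn := (C.io_rho _ hz).1
  constructor
  · exact isDeg_mul (p := 8) (q := 6) (isDeg_prod_of1 _) (isDeg_FAMap (orA_vol_deg N hn) _)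
  · exact (orA_prod _).mul ((freal_vol N hn).FAMap _)

theorem orA_R (N : OrGeo 6 7) (C : Collar N.carrier) {z : En 15} (hz : p3 z ∈ C.O) :
    pbF C.R (volR N C) z = volR N C z := by
  have hn := (C.io_rho _ hz).1
  have hR := orA_R_fderiv C hz
  have hzR : p3 (C.R z) ∈ C.O := by
    rw [orA_p3R]
    exact (orA_N C hn).1
  have h1 : pbF C.R (volR N C) z = pbF C.R (fun _ => vol8) z *
      pbF C.R (pbF (fun z => C.rho (p3 z)) N.vol) z := pbF_mul _ _ _ _
  have h2 : pbF C.R (pbF (fun z => C.rho (p3 z)) N.vol) z =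
      pbF (fun z => C.rho (p3 z)) N.vol z := by
    rw [pbF_comp (orA_rho_fderiv C hzR).differentiableAt hR.differentiableAt]
    have h3 : ((fun z => C.rho (p3 z)) ∘ C.R) =ᶠ[nhds z] fun z => C.rho (p3 z) := by
      filter_upwards [(orA_open C).mem_nhds hz] with y hy
      rw [Function.comp_apply, orA_p3R]
      exact (orA_N C (C.io_rho _ hy).1).2
    unfold pbF
    rw [h3.fderiv_eq, h3.eq_of_nhds]
  have h4 : pbF C.R (fun _ => vol8) z = vol8 := by
    unfold pbF vol8
    rw [← FAHom_apply, map_list_prod, List.map_ofFn]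
    refine congrArg List.prod (congrArg List.ofFn (funext fun i => ?_))
    rw [Function.comp_apply, FAHom_apply, FAMap_of1]
    congr 1
    refine ext_inner_right ℝ fun w => ?_
    rw [ContinuousLinearMap.adjoint_inner_left]
    have h5 := orA_R_lt C hz w ⟨i, by omega⟩ i.2
    simpa [bv, EuclideanSpace.inner_single_left] using h5
  rw [h1, h2, h4]
  rfl

/-- the derivative of `rho` is onto the tangent space -/
private theorem orA_surj (N : OrGeo 6 7) (C : Collar N.carrier) {m : En 7} (hm : m ∈ C.O)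
    {v : En 7} (hv : N.P (C.rho m) v = v) : ∃ w, fderiv ℝ C.rho m w = v := by
  obtain ⟨hn, ht, hio⟩ := C.io_rho m hm
  obtain ⟨U, ψ, O, κ, hch, hO⟩ := N.chart _ hn
  have hu : κ (C.rho m) ∈ U := hch.mapsκ _ ⟨hn, hO⟩
  have hψ : ψ (κ (C.rho m)) = C.rho m := hch.right _ ⟨hn, hO⟩
  have h1 := N.P_range U ψ O κ hch _ hu v
  rw [hψ] at h1
  obtain ⟨a, ha⟩ := h1.1 hv
  have hψd : DifferentiableAt ℝ ψ (κ (C.rho m)) :=
    (hch.smoothψ.contDiffAt (hch.openU.mem_nhds hu)).differentiableAt (by simp)
  have hiod : DifferentiableAt ℝ (fun p : En 7 × ℝ => C.io p.1 p.2) (C.rho m, C.sc m) :=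
    C.smooth_io.contDiffAt.differentiableAt (by simp)
  have hg : DifferentiableAt ℝ (fun u => C.io (ψ u) (C.sc m)) (κ (C.rho m)) := by
    have h2 : DifferentiableAt ℝ (fun p : En 7 × ℝ => C.io p.1 p.2)
        ((fun u => (ψ u, C.sc m)) (κ (C.rho m))) := by
      change DifferentiableAt ℝ (fun p : En 7 × ℝ => C.io p.1 p.2) (ψ (κ (C.rho m)), C.sc m)
      rw [hψ]
      exact hiod
    have h3 : DifferentiableAt ℝ (fun u => (ψ u, C.sc m)) (κ (C.rho m)) :=
      hψd.prodMk (differentiableAt_const _)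
    exact h2.comp (κ (C.rho m)) h3
  have hgm : C.io (ψ (κ (C.rho m))) (C.sc m) = m := by rw [hψ, hio]
  have h3 : HasFDerivAt (fun u => C.rho (C.io (ψ u) (C.sc m)))
      ((fderiv ℝ C.rho m).comp (fderiv ℝ (fun u => C.io (ψ u) (C.sc m)) (κ (C.rho m))))
      (κ (C.rho m)) := by
    have h4 : HasFDerivAt C.rho (fderiv ℝ C.rho m) (C.io (ψ (κ (C.rho m))) (C.sc m)) := by
      rw [hgm]
      exact (orA_rho_diff C hm).hasFDerivAt
    exact h4.comp (κ (C.rho m)) hg.hasFDerivAt
  have h5 : HasFDerivAt (fun u => C.rho (C.io (ψ u) (C.sc m)))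
      (fderiv ℝ ψ (κ (C.rho m))) (κ (C.rho m)) := by
    refine hψd.hasFDerivAt.congr_of_eventuallyEq ?_
    filter_upwards [hch.openU.mem_nhds hu] with u hu'
    exact (C.io_mem _ (hch.maps u hu').1 _ ht).2.1
  have h6 := h3.unique h5
  refine ⟨fderiv ℝ (fun u => C.io (ψ u) (C.sc m)) (κ (C.rho m)) a, ?_⟩
  rw [← ha, ← h6]
  rfl

private theorem orA_mon_ne (n : ℕ) : (mon Finset.univ : FA n) ≠ 0 := by
  intro h
  have h1 := congrArg (fun x : FA n => x.co Finset.univ) h
  simp [mon_co] at h1

theorem orA_ne (N : OrGeo 6 7) (C : Collar N.carrier) {z : En 15} (hz : p3 z ∈ C.O) :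
    volR N C z ≠ 0 := by
  obtain ⟨hn, ht, hio⟩ := C.io_rho _ hz
  obtain ⟨v, hv, hvP, hvol⟩ := N.vol_spec _ hn
  choose w hw using fun i => orA_surj N C hz (hvP i)
  -- the linear map `ℝ^14 → ℝ^15`
  let U : En (8 + 6) →L[ℝ] En 15 := ofVec (Fin.append
    (fun i : Fin 8 => (bv (⟨i, by omega⟩ : Fin 15) : En 15)) (fun i : Fin 6 => orAi (w i)))
  have hU1 : ∀ i : Fin 8, U (bv (Fin.castAdd 6 i)) = bv (⟨i, by omega⟩ : Fin 15) := fun i => by
    change ofVec _ _ = _
    rw [ofVec_bv, Fin.append_left]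
  have hU2 : ∀ i : Fin 6, U (bv (Fin.natAdd 8 i)) = orAi (w i) := fun i => by
    change ofVec _ _ = _
    rw [ofVec_bv, Fin.append_right]
  have hcoord : ∀ (x y : En (8 + 6)), (∀ j, x j = y j) → x = y := fun x y h => by
    ext j
    exact h j
  have hinner : ∀ (x : En (8 + 6)) j, x j = inner ℝ (bv j) x := fun x j => by
    simp [bv, EuclideanSpace.inner_single_left]
  have hinner15 : ∀ (x : En 15) j, inner ℝ (bv j) x = x j := fun x j => by
    simp [bv, EuclideanSpace.inner_single_left]
  -- the first factor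
  have h8 : FAMap U vol8 = (List.ofFn fun i : Fin 8 => dx (Fin.castAdd 6 i)).prod := by
    unfold vol8
    rw [← FAHom_apply, map_list_prod, List.map_ofFn]
    refine congrArg List.prod (congrArg List.ofFn (funext fun i => ?_))
    rw [Function.comp_apply, FAHom_apply, FAMap_of1, ← of1_bv]
    congr 1
    refine hcoord _ _ fun j => ?_
    rw [hinner, ContinuousLinearMap.adjoint_inner_right]
    refine Fin.addCases (fun j => ?_) (fun j => ?_) j
    · rw [hU1, hinner15]
      by_cases hij : j = i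
      · subst hij
        simp [bv]
      · have h1 : (⟨i, by omega⟩ : Fin 15) ≠ ⟨j, by omega⟩ := fun h => hij (by
          have := congrArg Fin.val h
          exact Fin.ext this.symm)
        have h2 : Fin.castAdd 6 i ≠ Fin.castAdd 6 j := fun h => hij (by
          have := congrArg Fin.val h
          exact Fin.ext this.symm)
        simp [bv, h1.symm, h2.symm, hij, Ne.symm hij]
    · rw [hU2, real_inner_comm, hinner15, orAi_lt _ _ i.2]
      have h2 : Fin.castAdd 6 i ≠ Fin.natAdd 8 j := fun h => by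
        have := congrArg Fin.val h
        simp at this
        omega
      simp [bv, h2.symm]
  -- the second factor
  have h6 : FAMap U (pbF (fun z => C.rho (p3 z)) N.vol z) =
      (List.ofFn fun i : Fin 6 => dx (Fin.natAdd 8 i)).prod := by
    unfold pbF
    rw [(orA_rho_fderiv C hz).fderiv, ← FAMap_comp, hvol, ← FAHom_apply, map_list_prod,
      List.map_ofFn]
    refine congrArg List.prod (congrArg List.ofFn (funext fun i => ?_))
    rw [Function.comp_apply, FAHom_apply, FAMap_of1, ← of1_bv]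
    congr 1
    refine hcoord _ _ fun j => ?_
    rw [hinner, ContinuousLinearMap.adjoint_inner_right]
    refine Fin.addCases (fun j => ?_) (fun j => ?_) j
    · have h1 : orAp (bv (⟨j, by omega⟩ : Fin 15)) = 0 := by
        ext a
        rw [orAp_apply]
        simp [p3, bv]
        omega
      rw [ContinuousLinearMap.comp_apply, hU1, ContinuousLinearMap.comp_apply, h1, map_zero,
        inner_zero_left]
      have h2 : Fin.natAdd 8 i ≠ Fin.castAdd 6 j := fun h => by
        have := congrArg Fin.val h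
        simp at this
        omega
      simp [bv, h2.symm]
    · rw [ContinuousLinearMap.comp_apply, hU2, ContinuousLinearMap.comp_apply, orAp_i, hw,
        orthonormal_iff_ite.1 hv]
      by_cases hij : j = i
      · subst hij
        simp [bv]
      · have h2 : Fin.natAdd 8 i ≠ Fin.natAdd 8 j := fun h => hij (by
          have := congrArg Fin.val h
          simp at this
          exact Fin.ext this.symm)
        simp [bv, hij, h2.symm]
  intro h0
  have h1 : FAMap U (volR N C z) = mon Finset.univ := by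
    unfold volR
    rw [FAMap_mul, h8, h6, ← List.prod_append, mon_univ]
    refine congrArg List.prod ?_
    have h3 := List.ofFn_fin_append (fun i : Fin 8 => (dx (Fin.castAdd 6 i) : FA (8 + 6)))
      (fun i : Fin 6 => dx (Fin.natAdd 8 i))
    rw [← h3]
    refine congrArg List.ofFn (funext fun j => ?_)
    refine Fin.addCases (fun j => ?_) (fun j => ?_) j
    · rw [Fin.append_left]
    · rw [Fin.append_right]
  rw [h0, FAMap_zero] at h1
  exact orA_mon_ne _ h1.symm

private theorem orA_top {n : ℕ} {u : FA n} (hu : u.IsDeg n) :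
    u = u.co Finset.univ • mon Finset.univ := by
  refine FA.ext fun I => ?_
  rw [FA.co_smul, mon_co]
  by_cases h : I = Finset.univ
  · subst h
    simp
  · rw [if_neg h, mul_zero]
    refine hu I fun h1 => h ?_
    exact Finset.eq_univ_of_card I (by rw [h1, Fintype.card_fin])

theorem orA_mult (N : OrGeo 6 7) (C : Collar N.carrier) {z : En 15} (hz : p3 z ∈ C.O)
    {om : FA 15} (h1 : om.IsDeg 14) (h2 : FReal om) :
    ∃ c : ℝ, FAMap (fderiv ℝ C.R z) om = (c : ℂ) • volR N C z := by
  obtain ⟨hn, ht, hio⟩ := C.io_rho _ hz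
  -- a vector in the kernel
  obtain ⟨w, hw0, hw⟩ : ∃ w : En 15, w ≠ 0 ∧ fderiv ℝ C.R z w = 0 := by
    have hiod : DifferentiableAt ℝ (fun t => C.io (C.rho (p3 z)) t) (C.sc (p3 z)) :=
      (C.smooth_io.comp (contDiff_const.prodMk contDiff_id)).contDiffAt.differentiableAt (by simp)
    have hd := hiod.hasDerivAt
    have hIoo : Ioo (-1 : ℝ) 1 ∈ nhds (C.sc (p3 z)) := isOpen_Ioo.mem_nhds ht
    set w := deriv (fun t => C.io (C.rho (p3 z)) t) (C.sc (p3 z)) with hwdef
    have h1 : fderiv ℝ C.rho (p3 z) w = 0 := by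
      have h2 : HasFDerivAt C.rho (fderiv ℝ C.rho (p3 z))
          (C.io (C.rho (p3 z)) (C.sc (p3 z))) := by
        rw [hio]
        exact (orA_rho_diff C hz).hasFDerivAt
      have h3 := h2.comp_hasDerivAt _ hd
      have h4 : HasDerivAt (C.rho ∘ fun t => C.io (C.rho (p3 z)) t) 0 (C.sc (p3 z)) := by
        refine (hasDerivAt_const _ (C.rho (p3 z))).congr_of_eventuallyEq ?_
        filter_upwards [hIoo] with t ht'
        exact (C.io_mem _ hn t ht').2.1
      exact h3.unique h4
    have h2 : w ≠ 0 := by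
      intro h0
      have hsd : DifferentiableAt ℝ C.sc (p3 z) :=
        (C.smooth_sc.contDiffAt (C.openO.mem_nhds hz)).differentiableAt (by simp)
      have h2 : HasFDerivAt C.sc (fderiv ℝ C.sc (p3 z))
          (C.io (C.rho (p3 z)) (C.sc (p3 z))) := by
        rw [hio]
        exact hsd.hasFDerivAt
      have h3 := h2.comp_hasDerivAt _ hd
      have h4 : HasDerivAt (C.sc ∘ fun t => C.io (C.rho (p3 z)) t) 1 (C.sc (p3 z)) := by
        refine (hasDerivAt_id _).congr_of_eventuallyEq ?_
        filter_upwards [hIoo] with t ht'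
        exact (C.io_mem _ hn t ht').2.2
      have h5 := h3.unique h4
      rw [h0, map_zero] at h5
      exact zero_ne_one h5
    refine ⟨orAi w, fun h => h2 ?_, ?_⟩
    · rw [← orAp_i w, h, map_zero]
    · rw [(orA_R_fderiv C hz).fderiv]
      change orAi w + orAi (fderiv ℝ C.rho (p3 z) (orAp (orAi w)) - orAp (orAi w)) = 0
      rw [orAp_i, h1, zero_sub, map_neg, add_neg_cancel]
  have hrank : Module.finrank ℝ (LinearMap.range (fderiv ℝ C.R z).toLinearMap) < 15 := by
    have h1 := LinearMap.finrank_range_add_finrank_ker (fderiv ℝ C.R z).toLinearMap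
    have h2 : 0 < Module.finrank ℝ (LinearMap.ker (fderiv ℝ C.R z).toLinearMap) := by
      rw [Module.finrank_pos_iff_exists_ne_zero]
      exact ⟨⟨w, hw⟩, fun h => hw0 (congrArg Subtype.val h)⟩
    rw [finrank_euclideanSpace_fin] at h1
    omega
  obtain ⟨A, B, hAB⟩ := exists_factor (fderiv ℝ C.R z)
  have hvR : volR N C z = FAMap (fderiv ℝ C.R z) (volR N C (C.R z)) := (orA_R N C hz).symm
  have hzR : p3 (C.R z) ∈ C.O := by
    rw [orA_p3R]
    exact (orA_N C hn).1
  have hdR := volR_deg N C hzR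
  have hne := orA_ne N C hz
  generalize Module.finrank ℝ (LinearMap.range (fderiv ℝ C.R z).toLinearMap) = r at A B hAB hrank
  rcases lt_or_eq_of_le (Nat.lt_succ_iff.1 hrank) with hr | hr
  · refine ⟨0, ?_⟩
    rw [FAMap_rank _ A B hAB hr h1, Complex.ofReal_zero, zero_smul]
  · subst hr
    rw [hAB, FAMap_comp] at hvR ⊢
    have e1 := orA_top (isDeg_FAMap h1 B)
    have e2 := orA_top (isDeg_FAMap hdR.1 B)
    have r1 := h2.FAMap B Finset.univ
    have r2 := hdR.2.FAMap B Finset.univ
    rw [e1, FAMap_smul]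
    rw [e2, FAMap_smul] at hvR
    rw [hvR] at hne ⊢
    obtain ⟨x, hx⟩ := Complex.conj_eq_iff_real.1 r1
    obtain ⟨y, hy⟩ := Complex.conj_eq_iff_real.1 r2
    rw [hx]
    rw [hy] at hne ⊢
    have hy0 : y ≠ 0 := by
      rintro rfl
      rw [Complex.ofReal_zero, zero_smul] at hne
      exact hne rfl
    refine ⟨x / y, ?_⟩
    rw [smul_smul, ← Complex.ofReal_mul, div_mul_cancel₀ x hy0]

end Pool.Agent.EXO
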