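import Mathlib
import Pool.Agent.EXO.OrA
import Pool.Agent.EXO.TTt

/-!
# EXO / OrB: transition maps have a Jacobian with respect to `volR` (part VCL)

PROOF.  Let `V := volR N C`.  For `z ∈ D`: `τ (C.R z) = τ (κ (τ z)) = C.R (τ z) = τ z` (`p3 (τ z) ∈ N`), so `τ = τ ∘ C.R` near `z` and
`pbF τ V z = FAMap (fderiv ℝ C.R z) (FAMap (fderiv ℝ τ (C.R z)) (V (τ z)))` (chain rule, functoriality) is a real multiple `c z` of `V z` by `orA_mult`.  The same for `κ`: `pbF κ V w = c' w • V w`.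
Near `z`, `κ ∘ τ = C.R`, so `V z = pbF C.R V z = pbF (κ ∘ τ) V z = pbF τ (pbF κ V) z = FAMap (Dτ z) (c' (τ z) • V (τ z)) = (c' (τ z) * c z) • V z`, `V z ≠ 0`: `c z ≠ 0`.
Define `c z := (inner ℂ (V z) (pbF τ V z)).re / ‖V z‖ ^ 2`: continuous on `D` since `V`, `pbF τ V` are continuous there (`contDiffOn_pbF`, `volR_smooth`).
`sign_const`: a continuous function without zeros on a preconnected set has constant sign (`IsPreconnected.intermediate_value`).
`Orp.comp`: `pbF (τ' ∘ τ) V z = pbF τ (pbF τ' V) z = FAMap (Dτ z) (c' • V (τ z)) = (c' c) • V z` (`pbF` at a point depends only on the value of the form at `τ z`).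
`Orp.inv`: from `κ ∘ τ = C.R` near `z`, `κ = κ ∘ C.R` near `τ z`: `pbF κ V (τ z) = c' • V (τ z)` and `c' c = 1`.
`Orp.congr`: `pbF` depends only on the germ.
-/

set_option autoImplicit false
set_option maxSynthPendingDepth 3

open Set
open scoped ContDiff Quaternion

namespace Pool.Agent.EXO

/-- a transition map `τ : D → E` with the inverse `κ` -/
structure TrPair (N : OrGeo 6 7) (C : Collar N.carrier) (D E : Set (En 15))
    (τ κ : En 15 → En 15) : Prop where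
  openD : IsOpen D
  openE : IsOpen E
  subD : ∀ z ∈ D, p3 z ∈ C.O ∧ C.R z ∈ D
  subE : ∀ z ∈ E, p3 z ∈ C.O ∧ C.R z ∈ E
  smoothτ : ContDiffOn ℝ ∞ τ D
  smoothκ : ContDiffOn ℝ ∞ κ E
  mapsτ : ∀ z ∈ D, τ z ∈ E ∧ p3 (τ z) ∈ N.carrier ∧ κ (τ z) = C.R z
  mapsκ : ∀ z ∈ E, κ z ∈ D ∧ p3 (κ z) ∈ N.carrier ∧ τ (κ z) = C.R z

theorem TrPair.symm {N : OrGeo 6 7} {C : Collar N.carrier} {D E : Set (En 15)}
    {τ κ : En 15 → En 15} (h : TrPair N C D E τ κ) : TrPair N C E D κ τ :=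
  ⟨h.openE, h.openD, h.subE, h.subD, h.smoothκ, h.smoothτ, h.mapsκ, h.mapsτ⟩

private theorem OrB_cont_p3 : Continuous p3 := by
  unfold p3
  exact (PiLp.continuous_toLp 2 _).comp (continuous_pi fun i => by fun_prop)

private theorem OrB_open {N : Set (En 7)} (C : Collar N) : IsOpen {z : En 15 | p3 z ∈ C.O} :=
  C.openO.preimage OrB_cont_p3

private theorem OrB_congr {N : OrGeo 6 7} {C : Collar N.carrier} {τ τ' : En 15 → En 15}
    {z : En 15} (e : τ' =ᶠ[nhds z] τ) : pbF τ' (volR N C) z = pbF τ (volR N C) z := by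
  unfold pbF
  rw [e.fderiv_eq, e.eq_of_nhds]

private theorem OrB_τR {N : OrGeo 6 7} {C : Collar N.carrier} {D E : Set (En 15)}
    {τ κ : En 15 → En 15} (h : TrPair N C D E τ κ) {z : En 15} (hz : z ∈ D) :
    τ (C.R z) = τ z := by
  obtain ⟨h1, h2, h3⟩ := h.mapsτ z hz
  obtain ⟨_, _, h4⟩ := h.mapsκ _ h1
  rw [h3] at h4
  rw [h4, R_of_N C h2]

private theorem OrB_mult {N : OrGeo 6 7} {C : Collar N.carrier} {D E : Set (En 15)}
    {τ κ : En 15 → En 15} (h : TrPair N C D E τ κ) {z : En 15} (hz : z ∈ D) :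
    ∃ c : ℝ, pbF τ (volR N C) z = (c : ℂ) • volR N C z := by
  obtain ⟨hzO, hRz⟩ := h.subD z hz
  obtain ⟨h1, h2, h3⟩ := h.mapsτ z hz
  have hτO : p3 (τ z) ∈ C.O := (rho_N C h2).2
  have hdeg := volR_deg N C hτO
  have hdR : DifferentiableAt ℝ C.R z :=
    ((contDiffOn_R C).contDiffAt ((OrB_open C).mem_nhds hzO)).differentiableAt (by simp)
  have hdτ : DifferentiableAt ℝ τ (C.R z) :=
    (h.smoothτ.contDiffAt (h.openD.mem_nhds hRz)).differentiableAt (by simp)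
  have e : τ =ᶠ[nhds z] τ ∘ C.R := by
    filter_upwards [h.openD.mem_nhds hz] with y hy
    exact (OrB_τR h hy).symm
  have e2 : fderiv ℝ τ z = (fderiv ℝ τ (C.R z)).comp (fderiv ℝ C.R z) := by
    rw [e.fderiv_eq, fderiv_comp z hdτ hdR]
  obtain ⟨c, hc⟩ := orA_mult N C hzO (om := FAMap (fderiv ℝ τ (C.R z)) (volR N C (τ z)))
    (isDeg_FAMap hdeg.1 _) (FReal.FAMap _ hdeg.2)
  refine ⟨c, ?_⟩
  unfold pbF
  rw [e2, FAMap_comp]
  exact hc

private theorem OrB_prod {N : OrGeo 6 7} {C : Collar N.carrier} {D E : Set (En 15)}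
    {τ κ : En 15 → En 15} (h : TrPair N C D E τ κ) {z : En 15} (hz : z ∈ D) {c c' : ℝ}
    (hc : pbF τ (volR N C) z = (c : ℂ) • volR N C z)
    (hc' : pbF κ (volR N C) (τ z) = (c' : ℂ) • volR N C (τ z)) : c' * c = 1 := by
  obtain ⟨hzO, hRz⟩ := h.subD z hz
  obtain ⟨h1, h2, h3⟩ := h.mapsτ z hz
  have hdτ : DifferentiableAt ℝ τ z :=
    (h.smoothτ.contDiffAt (h.openD.mem_nhds hz)).differentiableAt (by simp)
  have hdκ : DifferentiableAt ℝ κ (τ z) :=
    (h.smoothκ.contDiffAt (h.openE.mem_nhds h1)).differentiableAt (by simp)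
  have e : κ ∘ τ =ᶠ[nhds z] C.R := by
    filter_upwards [h.openD.mem_nhds hz] with y hy
    exact (h.mapsτ y hy).2.2
  have h4 : volR N C z = ((c' * c : ℝ) : ℂ) • volR N C z := by
    calc volR N C z = pbF C.R (volR N C) z := (orA_R N C hzO).symm
      _ = pbF (κ ∘ τ) (volR N C) z := (OrB_congr e).symm
      _ = pbF τ (pbF κ (volR N C)) z := (pbF_comp hdκ hdτ).symm
      _ = FAMap (fderiv ℝ τ z) ((c' : ℂ) • volR N C (τ z)) := by
          change FAMap (fderiv ℝ τ z) (pbF κ (volR N C) (τ z)) = _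
          rw [hc']
      _ = (c' : ℂ) • pbF τ (volR N C) z := FAMap_smul _ _ _
      _ = ((c' * c : ℝ) : ℂ) • volR N C z := by rw [hc, smul_smul, Complex.ofReal_mul]
  have hne := orA_ne N C hzO
  have h5 : ((1 : ℂ) - ((c' * c : ℝ) : ℂ)) • volR N C z = 0 := by
    rw [sub_smul, one_smul, ← h4, sub_self]
  rcases smul_eq_zero.1 h5 with h6 | h6
  · have h7 : ((c' * c : ℝ) : ℂ) = 1 := (sub_eq_zero.1 h6).symm
    exact_mod_cast h7
  · exact absurd h6 hne

theorem TrPair.jac {N : OrGeo 6 7} {C : Collar N.carrier} {D E : Set (En 15)}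
    {τ κ : En 15 → En 15} (h : TrPair N C D E τ κ) :
    ∃ c : En 15 → ℝ, ContinuousOn c D ∧
      ∀ z ∈ D, c z ≠ 0 ∧ pbF τ (volR N C) z = (c z : ℂ) • volR N C z := by
  have hsub : ∀ z ∈ D, p3 z ∈ C.O := fun z hz => (h.subD z hz).1
  have hV : ContinuousOn (volR N C) D := (volR_smooth N C).continuousOn.mono hsub
  have hP : ContinuousOn (pbF τ (volR N C)) D :=
    (contDiffOn_pbF h.openD (OrB_open C) h.smoothτ (volR_smooth N C)
      (fun z hz => (rho_N C (h.mapsτ z hz).2.1).2)).continuousOn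
  refine ⟨fun z => (inner ℂ (volR N C z) (pbF τ (volR N C) z)).re / ‖volR N C z‖ ^ 2, ?_, ?_⟩
  · refine ContinuousOn.div ?_ (hV.norm.pow 2) ?_
    · exact Complex.continuous_re.comp_continuousOn (ContinuousOn.inner (𝕜 := ℂ) hV hP)
    · intro z hz
      have := norm_ne_zero_iff.2 (orA_ne N C (hsub z hz))
      positivity
  · intro z hz
    obtain ⟨c, hc⟩ := OrB_mult h hz
    have hne := norm_ne_zero_iff.2 (orA_ne N C (hsub z hz))
    have h1 : (inner ℂ (volR N C z) (pbF τ (volR N C) z)).re / ‖volR N C z‖ ^ 2 = c := by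
      rw [hc, inner_smul_right, inner_self_eq_norm_sq_to_K]
      have h2 : ((c : ℂ) * ((‖volR N C z‖ : ℝ) : ℂ) ^ 2).re = c * ‖volR N C z‖ ^ 2 := by
        rw [← Complex.ofReal_pow, ← Complex.ofReal_mul, Complex.ofReal_re]
      have h3 : ((c : ℂ) * (RCLike.ofReal ‖volR N C z‖ : ℂ) ^ 2).re = c * ‖volR N C z‖ ^ 2 := h2
      rw [h3]
      field_simp
    simp only
    rw [h1]
    refine ⟨?_, hc⟩
    obtain ⟨c', hc'⟩ := OrB_mult h.symm (h.mapsτ z hz).1
    have h4 := OrB_prod h hz hc hc'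
    rintro rfl
    rw [mul_zero] at h4
    exact zero_ne_one h4

theorem sign_const {S : Set (En 15)} (hS : IsPreconnected S) {c : En 15 → ℝ}
    (hc : ContinuousOn c S) (h0 : ∀ z ∈ S, c z ≠ 0) :
    ∃ σ : ℝ, (σ = 1 ∨ σ = -1) ∧ ∀ z ∈ S, 0 < σ * c z := by
  by_cases h : ∀ z ∈ S, 0 < c z
  · exact ⟨1, Or.inl rfl, fun z hz => by rw [one_mul]; exact h z hz⟩
  · push Not at h
    obtain ⟨z₁, hz₁, h1⟩ := h
    refine ⟨-1, Or.inr rfl, fun z hz => ?_⟩
    by_contra h2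
    have h3 : 0 ≤ c z := by linarith
    obtain ⟨y, hy, hy0⟩ := hS.intermediate_value hz₁ hz hc ⟨h1, h3⟩
    exact h0 y hy hy0

theorem Orp.comp {N : OrGeo 6 7} {C : Collar N.carrier} {σ σ' : ℝ} {τ τ' : En 15 → En 15}
    {z : En 15} (h : Orp N C σ τ z) (h' : Orp N C σ' τ' (τ z)) (d : DifferentiableAt ℝ τ z)
    (d' : DifferentiableAt ℝ τ' (τ z)) : Orp N C (σ * σ') (fun z => τ' (τ z)) z := by
  obtain ⟨c, hc1, hc2⟩ := h
  obtain ⟨c', hc1', hc2'⟩ := h'
  refine ⟨c' * c, ?_, ?_⟩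
  · have := mul_pos hc1 hc1'
    calc 0 < σ * c * (σ' * c') := this
      _ = σ * σ' * (c' * c) := by ring
  · calc pbF (fun z => τ' (τ z)) (volR N C) z = pbF τ (pbF τ' (volR N C)) z :=
          (pbF_comp d' d).symm
      _ = FAMap (fderiv ℝ τ z) ((c' : ℂ) • volR N C (τ z)) := by
          change FAMap (fderiv ℝ τ z) (pbF τ' (volR N C) (τ z)) = _
          rw [hc2']
      _ = (c' : ℂ) • pbF τ (volR N C) z := FAMap_smul _ _ _
      _ = ((c' * c : ℝ) : ℂ) • volR N C z := by rw [hc2, smul_smul, Complex.ofReal_mul]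

theorem Orp.congr {N : OrGeo 6 7} {C : Collar N.carrier} {σ : ℝ} {τ τ' : En 15 → En 15}
    {z : En 15} (h : Orp N C σ τ z) (e : τ' =ᶠ[nhds z] τ) : Orp N C σ τ' z := by
  obtain ⟨c, hc1, hc2⟩ := h
  exact ⟨c, hc1, by rw [OrB_congr e, hc2]⟩

theorem TrPair.inv {N : OrGeo 6 7} {C : Collar N.carrier} {D E : Set (En 15)}
    {τ κ : En 15 → En 15} (h : TrPair N C D E τ κ) {σ : ℝ} (hσ : σ = 1 ∨ σ = -1) {z : En 15}
    (hz : z ∈ D) (ho : Orp N C σ τ z) : Orp N C σ κ (τ z) := by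
  obtain ⟨c, hc1, hc2⟩ := ho
  obtain ⟨c', hc'⟩ := OrB_mult h.symm (h.mapsτ z hz).1
  have h4 := OrB_prod h hz hc2 hc'
  refine ⟨c', ?_, hc'⟩
  have h5 : c' ≠ 0 := by
    rintro rfl
    rw [zero_mul] at h4
    exact zero_ne_one h4
  have h6 : 0 < σ * c * c' ^ 2 := mul_pos hc1 (by positivity)
  calc 0 < σ * c * c' ^ 2 := h6
    _ = σ * (c' * c) * c' := by ring
    _ = σ * c' := by rw [h4, mul_one]

theorem Orp.R (N : OrGeo 6 7) (C : Collar N.carrier) {z : En 15} (hz : p3 z ∈ C.O) :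
    Orp N C 1 C.R z := by
  refine ⟨1, by norm_num, ?_⟩
  rw [orA_R N C hz, Complex.ofReal_one, one_smul]

/-- the sign is determined by the map -/
theorem Orp.unique {N : OrGeo 6 7} {C : Collar N.carrier} {σ σ' : ℝ} {τ : En 15 → En 15}
    {z : En 15} (hz : p3 z ∈ C.O) (h : Orp N C σ τ z) (h' : Orp N C σ' τ z) : 0 < σ * σ' := by
  obtain ⟨c, hc1, hc2⟩ := h
  obtain ⟨c', hc1', hc2'⟩ := h'
  rw [hc2] at hc2'
  have h1 : ((c : ℂ) - (c' : ℂ)) • volR N C z = 0 := by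
    rw [sub_smul, hc2', sub_self]
  have hcc : c = c' := by
    rcases smul_eq_zero.1 h1 with h6 | h6
    · exact_mod_cast sub_eq_zero.1 h6
    · exact absurd h6 (orA_ne N C hz)
  subst hcc
  have h2 := mul_pos hc1 hc1'
  have h3 : σ * c * (σ' * c) = σ * σ' * c ^ 2 := by ring
  rw [h3] at h2
  exact pos_of_mul_pos_left h2 (sq_nonneg c)

end Pool.Agent.EXO
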