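import Mathlib
import Pool.Agent.EXO.OrB
import Pool.Agent.EXO.GwA

/-!
# EXO / OrC: signs of the transition maps (part VCL)

PROOF.  (1) `pairK1`: `D = E = {z | p1 z ≠ 0 ∧ p3 z ∈ C.O}`, `τ = tK1 C l`, `κ = j15 (ivn (p1 z)) (twi l (p1 z) (p2 z)) (C.rho (p3 z))`; `vc_ivn_ivn`, `vc_tw_ivn`, `vc_twi_ivn`, `vc_tw_twi`, `vc_twi_tw`; smooth by TwB.
`pairK2`: the same with the roles exchanged.  `S₁ = {z | p1 z ≠ 0 ∧ p3 z ∈ N}` is preconnected: it is the image of `{x ≠ 0} × ℝ⁴ × N` under the continuous map `j15`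
(`isConnected_compl_singleton_of_one_lt_rank`).  `sign_const` with `TrPair.jac` gives `or_K1`, `or_K2`.
(2) `pairS1`: `D = A1`, `E = {w | p2 w ≠ 0 ∧ j15 (p1 w) (ivn (p2 w)) (p3 w) ∈ B1}`, `τ = tS1`, `κ w = H1 (j15 (p1 w) (ivn (p2 w)) (p3 w))`.  `pairS2`: `D = A2`,
`E = {w | p1 w ≠ 0 ∧ j15 (ivn (p1 w)) (p2 w) (p3 w) ∈ B2}`.
(3) `or_S`: let `c₁` on `A1`, `c₂` on `A2` be the Jacobians.  On `A1 ∩ A2` (`p1 (G1 z) ≠ 0`, `p2 (G1 z) ≠ 0`): `tS2 = tK2 ∘ t1K ∘ tS1` near `z` with `t1K w = j15 (ivn (p1 w)) (twi l (p1 w) (p2 w)) (C.rho (p3 w))`: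
`tS1 z = (X, ivn Y, n)`, `t1K = (ivn X, twi l X (ivn Y), n)`, with `Y' = twi l X Y` this is `(ivn X, ivn Y', n)`, `tK2` of it is `(tw l (ivn Y') (ivn X), ivn (ivn Y'), n) = (ivn (tw l Y' X), Y', n)`
and `G2 z = tt15 (G1 z) = (tw l Y' X, Y', n)`: equal to `tS2 z`.  By `Orp.comp`, `TrPair.inv`, `Orp.unique`: `σ₁ σ₂ c₁ c₂ > 0` on `A1 ∩ A2 ∩ {p3 ∈ N}`.  So `z ↦ sign` of `σ₁ c₁ z` on `A1`,
`σ₂ c₂ z` on `A2` is well defined and locally constant on `S = {z | 10^(-6) < gS z < 10^6, p3 z ∈ N} = (A1 ∪ A2) ∩ {p3 z ∈ N}` (`coverA`, `subA`), which is preconnected: image of `annulus × N`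
(the annulus in `En 4 × En 4` is the image of `sphere × interval` in the Euclidean space of dimension `8`, or: `{p | r < ‖p.1‖²+‖p.2‖² < R}`; use that the sphere of a real inner product
space of dimension `> 1` is connected, `isConnected_sphere`, in `WithLp 2 (En 4 × En 4)`).  E.g. apply `sign_const` to a continuous function: `σ₁ c₁/|c₁|` on `A1`, `σ₂ c₂/|c₂|` on `A2` (glued:
`ContinuousOn` on the union of two open sets).
-/

set_option autoImplicit false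
set_option maxSynthPendingDepth 3

open Set
open scoped ContDiff Quaternion

namespace Pool.Agent.EXO

/-- The transition map from `H₁` to `K`. -/
noncomputable def t1K {N : Set (En 7)} (C : Collar N) (l : ℝ) (z : En 15) : En 15 :=
  j15 (ivn (p1 z)) (twi l (p1 z) (p2 z)) (C.rho (p3 z))

/-- The transition map from `H₂` to `K`. -/
noncomputable def t2K {N : Set (En 7)} (C : Collar N) (l : ℝ) (z : En 15) : En 15 :=
  j15 (twi l (p2 z) (p1 z)) (ivn (p2 z)) (C.rho (p3 z))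

private theorem OrC_open {N : Set (En 7)} (C : Collar N) : IsOpen {z : En 15 | p3 z ∈ C.O} :=
  C.openO.preimage continuous_p3

private theorem OrC_rho {N : Set (En 7)} (C : Collar N) {m : En 7} (hm : m ∈ C.O) :
    C.rho m ∈ N ∧ C.rho (C.rho m) = C.rho m ∧ C.rho m ∈ C.O :=
  ⟨(C.io_rho _ hm).1, (rho_N C (C.io_rho _ hm).1).1, (rho_N C (C.io_rho _ hm).1).2⟩

private theorem OrC_ivnOn {s : Set (En 15)} {f : En 15 → En 4} (hf : ContDiffOn ℝ ∞ f s)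
    (h0 : ∀ z ∈ s, f z ≠ 0) : ContDiffOn ℝ ∞ (fun z => ivn (f z)) s :=
  vc_contDiffOn_ivn.comp hf fun z hz => h0 z hz

private theorem OrC_j15 {s : Set (En 15)} {f g : En 15 → En 4} {h : En 15 → En 7}
    (hf : ContDiffOn ℝ ∞ f s) (hg : ContDiffOn ℝ ∞ g s) (hh : ContDiffOn ℝ ∞ h s) :
    ContDiffOn ℝ ∞ (fun z => j15 (f z) (g z) (h z)) s :=
  vc_contDiff_j15.comp_contDiffOn (hf.prodMk (hg.prodMk hh))

private theorem OrC_rhoOn {N : Set (En 7)} (C : Collar N) {s : Set (En 15)}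
    (h : ∀ z ∈ s, p3 z ∈ C.O) : ContDiffOn ℝ ∞ (fun z => C.rho (p3 z)) s :=
  C.smooth_rho.comp contDiff_p3.contDiffOn fun z hz => h z hz

theorem pairK1 {l : ℝ} (hl : 0 < l) (N : OrGeo 6 7) (C : Collar N.carrier) :
    TrPair N C {z | p1 z ≠ 0 ∧ p3 z ∈ C.O} {z | p1 z ≠ 0 ∧ p3 z ∈ C.O} (tK1 C l) (t1K C l) := by
  have hp : ∀ z ∈ {z : En 15 | p1 z ≠ 0 ∧ p3 z ∈ C.O}, p1 z ≠ 0 := fun z hz => hz.1
  have hO : IsOpen {z : En 15 | p1 z ≠ 0 ∧ p3 z ∈ C.O} :=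
    (isOpen_ne_fun continuous_p1 continuous_const).inter (OrC_open C)
  have hsub : ∀ z ∈ {z : En 15 | p1 z ≠ 0 ∧ p3 z ∈ C.O},
      p3 z ∈ C.O ∧ C.R z ∈ {z : En 15 | p1 z ≠ 0 ∧ p3 z ∈ C.O} := by
    rintro z ⟨h1, h2⟩
    obtain ⟨e1, e2, e3, -⟩ := R_comp C z
    refine ⟨h2, ?_, ?_⟩
    · rw [e1]; exact h1
    · rw [e3]; exact (OrC_rho C h2).2.2
  have hi : ContDiffOn ℝ ∞ (fun z : En 15 => ivn (p1 z)) {z : En 15 | p1 z ≠ 0 ∧ p3 z ∈ C.O} :=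
    OrC_ivnOn contDiff_p1.contDiffOn hp
  refine ⟨hO, hO, hsub, hsub, ?_, ?_, ?_, ?_⟩
  · refine OrC_j15 hi ?_ (OrC_rhoOn C fun z hz => hz.2)
    exact ((vc_contDiffOn_tw hl).comp contDiff_p1.contDiffOn fun z hz => hp z hz).clm_apply
      contDiff_p2.contDiffOn
  · refine OrC_j15 hi ?_ (OrC_rhoOn C fun z hz => hz.2)
    exact ((vc_contDiffOn_twi hl).comp contDiff_p1.contDiffOn fun z hz => hp z hz).clm_apply
      contDiff_p2.contDiffOn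
  · rintro z ⟨h1, h2⟩
    obtain ⟨r1, r2, r3⟩ := OrC_rho C h2
    refine ⟨⟨?_, ?_⟩, ?_, ?_⟩
    · rw [tK1, p1_j15]; exact ivn_ne_zero h1
    · rw [tK1, p3_j15]; exact r3
    · rw [tK1, p3_j15]; exact r1
    · simp only [t1K, tK1, p1_j15, p2_j15, p3_j15, vc_ivn_ivn h1, vc_twi_ivn l h1, vc_twi_tw, r2, Collar.R]
  · rintro z ⟨h1, h2⟩
    obtain ⟨r1, r2, r3⟩ := OrC_rho C h2
    refine ⟨⟨?_, ?_⟩, ?_, ?_⟩
    · rw [t1K, p1_j15]; exact ivn_ne_zero h1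
    · rw [t1K, p3_j15]; exact r3
    · rw [t1K, p3_j15]; exact r1
    · simp only [t1K, tK1, p1_j15, p2_j15, p3_j15, vc_ivn_ivn h1, vc_tw_ivn l h1, vc_tw_twi, r2, Collar.R]

theorem pairK2 {l : ℝ} (hl : 0 < l) (N : OrGeo 6 7) (C : Collar N.carrier) :
    TrPair N C {z | p2 z ≠ 0 ∧ p3 z ∈ C.O} {z | p2 z ≠ 0 ∧ p3 z ∈ C.O} (tK2 C l) (t2K C l) := by
  have hp : ∀ z ∈ {z : En 15 | p2 z ≠ 0 ∧ p3 z ∈ C.O}, p2 z ≠ 0 := fun z hz => hz.1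
  have hO : IsOpen {z : En 15 | p2 z ≠ 0 ∧ p3 z ∈ C.O} :=
    (isOpen_ne_fun continuous_p2 continuous_const).inter (OrC_open C)
  have hsub : ∀ z ∈ {z : En 15 | p2 z ≠ 0 ∧ p3 z ∈ C.O},
      p3 z ∈ C.O ∧ C.R z ∈ {z : En 15 | p2 z ≠ 0 ∧ p3 z ∈ C.O} := by
    rintro z ⟨h1, h2⟩
    obtain ⟨e1, e2, e3, -⟩ := R_comp C z
    refine ⟨h2, ?_, ?_⟩
    · rw [e2]; exact h1
    · rw [e3]; exact (OrC_rho C h2).2.2
  have hi : ContDiffOn ℝ ∞ (fun z : En 15 => ivn (p2 z)) {z : En 15 | p2 z ≠ 0 ∧ p3 z ∈ C.O} :=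
    OrC_ivnOn contDiff_p2.contDiffOn hp
  refine ⟨hO, hO, hsub, hsub, ?_, ?_, ?_, ?_⟩
  · refine OrC_j15 ?_ hi (OrC_rhoOn C fun z hz => hz.2)
    exact ((vc_contDiffOn_tw hl).comp contDiff_p2.contDiffOn fun z hz => hp z hz).clm_apply
      contDiff_p1.contDiffOn
  · refine OrC_j15 ?_ hi (OrC_rhoOn C fun z hz => hz.2)
    exact ((vc_contDiffOn_twi hl).comp contDiff_p2.contDiffOn fun z hz => hp z hz).clm_apply
      contDiff_p1.contDiffOn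
  · rintro z ⟨h1, h2⟩
    obtain ⟨r1, r2, r3⟩ := OrC_rho C h2
    refine ⟨⟨?_, ?_⟩, ?_, ?_⟩
    · rw [tK2, p2_j15]; exact ivn_ne_zero h1
    · rw [tK2, p3_j15]; exact r3
    · rw [tK2, p3_j15]; exact r1
    · simp only [t2K, tK2, p1_j15, p2_j15, p3_j15, vc_ivn_ivn h1, vc_twi_ivn l h1, vc_twi_tw, r2, Collar.R]
  · rintro z ⟨h1, h2⟩
    obtain ⟨r1, r2, r3⟩ := OrC_rho C h2
    refine ⟨⟨?_, ?_⟩, ?_, ?_⟩
    · rw [t2K, p2_j15]; exact ivn_ne_zero h1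
    · rw [t2K, p3_j15]; exact r3
    · rw [t2K, p3_j15]; exact r1
    · simp only [t2K, tK2, p1_j15, p2_j15, p3_j15, vc_ivn_ivn h1, vc_tw_ivn l h1, vc_tw_twi, r2, Collar.R]

private theorem OrC_conn4 : IsPreconnected ({0}ᶜ : Set (En 4)) := by
  refine (isConnected_compl_singleton_of_one_lt_rank ?_ (0 : En 4)).isPreconnected
  refine Module.one_lt_rank_of_one_lt_finrank ?_
  rw [finrank_euclideanSpace_fin]
  norm_num

private theorem OrC_pre1 {N : Set (En 7)} (hN : IsConnected N) :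
    IsPreconnected {z : En 15 | p1 z ≠ 0 ∧ p3 z ∈ N} := by
  have h1 : IsPreconnected (({0}ᶜ : Set (En 4)) ×ˢ ((Set.univ : Set (En 4)) ×ˢ N)) :=
    OrC_conn4.prod (isPreconnected_univ.prod hN.isPreconnected)
  have h2 := h1.image (fun p : En 4 × En 4 × En 7 => j15 p.1 p.2.1 p.2.2)
    vc_contDiff_j15.continuous.continuousOn
  have e : (fun p : En 4 × En 4 × En 7 => j15 p.1 p.2.1 p.2.2) ''
      (({0}ᶜ : Set (En 4)) ×ˢ ((Set.univ : Set (En 4)) ×ˢ N)) =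
      {z : En 15 | p1 z ≠ 0 ∧ p3 z ∈ N} := by
    ext z
    constructor
    · rintro ⟨⟨x, y, n⟩, ⟨hx, -, hn⟩, rfl⟩
      refine ⟨?_, ?_⟩
      · show p1 (j15 x y n) ≠ 0
        rw [p1_j15]; exact hx
      · show p3 (j15 x y n) ∈ N
        rw [p3_j15]; exact hn
    · rintro ⟨h1, h2⟩
      exact ⟨(p1 z, p2 z, p3 z), ⟨h1, mem_univ _, h2⟩, j15_p z⟩
  rwa [e] at h2

private theorem OrC_pre2 {N : Set (En 7)} (hN : IsConnected N) :
    IsPreconnected {z : En 15 | p2 z ≠ 0 ∧ p3 z ∈ N} := by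
  have h1 : IsPreconnected ((Set.univ : Set (En 4)) ×ˢ (({0}ᶜ : Set (En 4)) ×ˢ N)) :=
    isPreconnected_univ.prod (OrC_conn4.prod hN.isPreconnected)
  have h2 := h1.image (fun p : En 4 × En 4 × En 7 => j15 p.1 p.2.1 p.2.2)
    vc_contDiff_j15.continuous.continuousOn
  have e : (fun p : En 4 × En 4 × En 7 => j15 p.1 p.2.1 p.2.2) ''
      ((Set.univ : Set (En 4)) ×ˢ (({0}ᶜ : Set (En 4)) ×ˢ N)) =
      {z : En 15 | p2 z ≠ 0 ∧ p3 z ∈ N} := by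
    ext z
    constructor
    · rintro ⟨⟨x, y, n⟩, ⟨-, hy, hn⟩, rfl⟩
      refine ⟨?_, ?_⟩
      · show p2 (j15 x y n) ≠ 0
        rw [p2_j15]; exact hy
      · show p3 (j15 x y n) ∈ N
        rw [p3_j15]; exact hn
    · rintro ⟨h1, h2⟩
      exact ⟨(p1 z, p2 z, p3 z), ⟨mem_univ _, h1, h2⟩, j15_p z⟩
  rwa [e] at h2

theorem or_K1 {l : ℝ} (hl : 0 < l) (N : OrGeo 6 7) (C : Collar N.carrier)
    (hN : IsConnected N.carrier) : ∃ σ : ℝ, (σ = 1 ∨ σ = -1) ∧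
      ∀ z, p1 z ≠ 0 → p3 z ∈ N.carrier → Orp N C σ (tK1 C l) z := by
  obtain ⟨c, hc, hc'⟩ := (pairK1 hl N C).jac
  have hsub : {z : En 15 | p1 z ≠ 0 ∧ p3 z ∈ N.carrier} ⊆ {z | p1 z ≠ 0 ∧ p3 z ∈ C.O} :=
    fun z hz => ⟨hz.1, (rho_N C hz.2).2⟩
  obtain ⟨σ, hσ, hσ'⟩ := sign_const (OrC_pre1 hN) (hc.mono hsub)
    fun z hz => (hc' z (hsub hz)).1
  exact ⟨σ, hσ, fun z h1 h2 => ⟨c z, hσ' z ⟨h1, h2⟩, (hc' z (hsub ⟨h1, h2⟩)).2⟩⟩

theorem or_K2 {l : ℝ} (hl : 0 < l) (N : OrGeo 6 7) (C : Collar N.carrier)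
    (hN : IsConnected N.carrier) : ∃ σ : ℝ, (σ = 1 ∨ σ = -1) ∧
      ∀ z, p2 z ≠ 0 → p3 z ∈ N.carrier → Orp N C σ (tK2 C l) z := by
  obtain ⟨c, hc, hc'⟩ := (pairK2 hl N C).jac
  have hsub : {z : En 15 | p2 z ≠ 0 ∧ p3 z ∈ N.carrier} ⊆ {z | p2 z ≠ 0 ∧ p3 z ∈ C.O} :=
    fun z hz => ⟨hz.1, (rho_N C hz.2).2⟩
  obtain ⟨σ, hσ, hσ'⟩ := sign_const (OrC_pre2 hN) (hc.mono hsub)
    fun z hz => (hc' z (hsub hz)).1
  exact ⟨σ, hσ, fun z h1 h2 => ⟨c z, hσ' z ⟨h1, h2⟩, (hc' z (hsub ⟨h1, h2⟩)).2⟩⟩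

theorem pairS1 {N : OrGeo 6 7} {C : Collar N.carrier} {l ε : ℝ} (G : GFull C l ε) :
    TrPair N C G.A1 {w | p2 w ≠ 0 ∧ j15 (p1 w) (ivn (p2 w)) (p3 w) ∈ G.B1} G.tS1
      (fun w => G.H1 (j15 (p1 w) (ivn (p2 w)) (p3 w))) := by
  have hf : ContDiffOn ℝ ∞ (fun w : En 15 => j15 (p1 w) (ivn (p2 w)) (p3 w)) {w | p2 w ≠ 0} :=
    OrC_j15 contDiff_p1.contDiffOn (OrC_ivnOn contDiff_p2.contDiffOn fun z hz => hz)
      contDiff_p3.contDiffOn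
  have hO2 : IsOpen {w : En 15 | p2 w ≠ 0} := isOpen_ne_fun continuous_p2 continuous_const
  have hR : ∀ w, C.R (j15 (p1 w) (ivn (p2 w)) (p3 w)) =
      j15 (p1 (C.R w)) (ivn (p2 (C.R w))) (p3 (C.R w)) := by
    intro w
    simp only [Collar.R, p1_j15, p2_j15, p3_j15]
  refine ⟨G.openA1, hf.continuousOn.isOpen_inter_preimage hO2 G.openB1, ?_, ?_, ?_, ?_, ?_, ?_⟩
  · intro z hz
    have h1 := (G.subA z (Or.inl hz)).2.2
    exact ⟨h1, (G.satA1 z h1).1 hz⟩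
  · rintro w ⟨h1, h2⟩
    have h3 := (G.subB1 _ h2).2
    rw [p3_j15] at h3
    refine ⟨h3, ?_, ?_⟩
    · rw [(R_comp C w).2.1]; exact h1
    · rw [← hR]
      exact (G.satB1 _ (by rw [p3_j15]; exact h3)).1 h2
  · exact OrC_j15 (contDiff_p1.comp_contDiffOn G.smoothG1)
      (OrC_ivnOn (contDiff_p2.comp_contDiffOn G.smoothG1)
        fun z hz => (G.subB1 _ (G.mapsG1 z hz).1).1)
      (contDiff_p3.comp_contDiffOn G.smoothG1)
  · exact G.smoothH1.comp (hf.mono fun w hw => hw.1) fun w hw => hw.2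
  · intro z hz
    obtain ⟨a1, a2, a3⟩ := G.mapsG1 z hz
    have h0 := (G.subB1 _ a1).1
    have e : j15 (p1 (G.tS1 z)) (ivn (p2 (G.tS1 z))) (p3 (G.tS1 z)) = G.G1 z := by
      simp only [GFull.tS1, p1_j15, p2_j15, p3_j15, vc_ivn_ivn h0, j15_p]
    refine ⟨⟨?_, ?_⟩, ?_, ?_⟩
    · rw [GFull.tS1, p2_j15]; exact ivn_ne_zero h0
    · rw [e]; exact a1
    · rw [GFull.tS1, p3_j15]; exact a2
    · simp only [e]; exact a3
  · rintro w ⟨h1, h2⟩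
    obtain ⟨a1, a2, a3⟩ := G.mapsH1 _ h2
    refine ⟨a1, a2, ?_⟩
    simp only [GFull.tS1, a3, Collar.R, p1_j15, p2_j15, p3_j15, vc_ivn_ivn h1]

theorem pairS2 {N : OrGeo 6 7} {C : Collar N.carrier} {l ε : ℝ} (G : GFull C l ε) :
    TrPair N C G.A2 {w | p1 w ≠ 0 ∧ j15 (ivn (p1 w)) (p2 w) (p3 w) ∈ G.B2} G.tS2
      (fun w => G.H2 (j15 (ivn (p1 w)) (p2 w) (p3 w))) := by
  have hf : ContDiffOn ℝ ∞ (fun w : En 15 => j15 (ivn (p1 w)) (p2 w) (p3 w)) {w | p1 w ≠ 0} :=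
    OrC_j15 (OrC_ivnOn contDiff_p1.contDiffOn fun z hz => hz) contDiff_p2.contDiffOn
      contDiff_p3.contDiffOn
  have hO2 : IsOpen {w : En 15 | p1 w ≠ 0} := isOpen_ne_fun continuous_p1 continuous_const
  have hR : ∀ w, C.R (j15 (ivn (p1 w)) (p2 w) (p3 w)) =
      j15 (ivn (p1 (C.R w))) (p2 (C.R w)) (p3 (C.R w)) := by
    intro w
    simp only [Collar.R, p1_j15, p2_j15, p3_j15]
  refine ⟨G.openA2, hf.continuousOn.isOpen_inter_preimage hO2 G.openB2, ?_, ?_, ?_, ?_, ?_, ?_⟩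
  · intro z hz
    have h1 := (G.subA z (Or.inr hz)).2.2
    exact ⟨h1, (G.satA2 z h1).1 hz⟩
  · rintro w ⟨h1, h2⟩
    have h3 := (G.subB2 _ h2).2
    rw [p3_j15] at h3
    refine ⟨h3, ?_, ?_⟩
    · rw [(R_comp C w).1]; exact h1
    · rw [← hR]
      exact (G.satB2 _ (by rw [p3_j15]; exact h3)).1 h2
  · exact OrC_j15 (OrC_ivnOn (contDiff_p1.comp_contDiffOn G.smoothG2)
        fun z hz => (G.subB2 _ (G.mapsG2 z hz).1).1)
      (contDiff_p2.comp_contDiffOn G.smoothG2) (contDiff_p3.comp_contDiffOn G.smoothG2)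
  · exact G.smoothH2.comp (hf.mono fun w hw => hw.1) fun w hw => hw.2
  · intro z hz
    obtain ⟨a1, a2, a3⟩ := G.mapsG2 z hz
    have h0 := (G.subB2 _ a1).1
    have e : j15 (ivn (p1 (G.tS2 z))) (p2 (G.tS2 z)) (p3 (G.tS2 z)) = G.G2 z := by
      simp only [GFull.tS2, p1_j15, p2_j15, p3_j15, vc_ivn_ivn h0, j15_p]
    refine ⟨⟨?_, ?_⟩, ?_, ?_⟩
    · rw [GFull.tS2, p1_j15]; exact ivn_ne_zero h0
    · rw [e]; exact a1
    · rw [GFull.tS2, p3_j15]; exact a2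
    · simp only [e]; exact a3
  · rintro w ⟨h1, h2⟩
    obtain ⟨a1, a2, a3⟩ := G.mapsH2 _ h2
    refine ⟨a1, a2, ?_⟩
    simp only [GFull.tS2, a3, Collar.R, p1_j15, p2_j15, p3_j15, vc_ivn_ivn h1]

/-- the annulus times `N` is connected -/
theorem isPreconnected_ann {N : Set (En 7)} (hN : IsConnected N) {a b : ℝ} (ha : 0 < a) :
    IsPreconnected {z : En 15 | a < gS z ∧ gS z < b ∧ p3 z ∈ N} := by
  have hs : IsPreconnected (Metric.sphere (0 : WithLp 2 (En 4 × En 4)) 1) := by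
    refine (isConnected_sphere ?_ 0 zero_le_one).isPreconnected
    refine Module.one_lt_rank_of_one_lt_finrank ?_
    have h1 : Module.finrank ℝ (WithLp 2 (En 4 × En 4)) = Module.finrank ℝ (En 4 × En 4) :=
      (WithLp.linearEquiv 2 ℝ (En 4 × En 4)).finrank_eq
    rw [h1, Module.finrank_prod, finrank_euclideanSpace_fin]
    norm_num
  have h1 : IsPreconnected ((Metric.sphere (0 : WithLp 2 (En 4 × En 4)) 1 ×ˢ Ioo a b) ×ˢ N) :=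
    (hs.prod isPreconnected_Ioo).prod hN.isPreconnected
  have hc : Continuous (fun q : (WithLp 2 (En 4 × En 4) × ℝ) × En 7 =>
      j15 (Real.sqrt q.1.2 • q.1.1.ofLp.1) (Real.sqrt q.1.2 • q.1.1.ofLp.2) q.2) := by
    have c1 : Continuous (fun q : (WithLp 2 (En 4 × En 4) × ℝ) × En 7 => q.1.1.ofLp) :=
      (WithLp.prod_continuous_ofLp 2 (En 4) (En 4)).comp (continuous_fst.comp continuous_fst)
    have c2 : Continuous (fun q : (WithLp 2 (En 4 × En 4) × ℝ) × En 7 => Real.sqrt q.1.2) :=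
      Real.continuous_sqrt.comp (continuous_snd.comp continuous_fst)
    exact vc_contDiff_j15.continuous.comp ((c2.smul (continuous_fst.comp c1)).prodMk
      ((c2.smul (continuous_snd.comp c1)).prodMk continuous_snd))
  have h2 := h1.image _ hc.continuousOn
  have e : (fun q : (WithLp 2 (En 4 × En 4) × ℝ) × En 7 =>
      j15 (Real.sqrt q.1.2 • q.1.1.ofLp.1) (Real.sqrt q.1.2 • q.1.1.ofLp.2) q.2) ''
      ((Metric.sphere (0 : WithLp 2 (En 4 × En 4)) 1 ×ˢ Ioo a b) ×ˢ N) =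
      {z : En 15 | a < gS z ∧ gS z < b ∧ p3 z ∈ N} := by
    ext z
    constructor
    · rintro ⟨⟨⟨s, t⟩, n⟩, ⟨⟨hs, ht⟩, hn⟩, rfl⟩
      have ht0 : 0 ≤ t := le_trans ha.le ht.1.le
      have hs1 : ‖s.ofLp.1‖ ^ 2 + ‖s.ofLp.2‖ ^ 2 = 1 := by
        have h3 : ‖s‖ = 1 := mem_sphere_zero_iff_norm.1 hs
        have h4 := WithLp.prod_norm_sq_eq_of_L2 s
        rw [h3] at h4
        have h5 : ‖s.fst‖ ^ 2 + ‖s.snd‖ ^ 2 = 1 := by rw [← h4]; norm_num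
        exact h5
      have hg : gS (j15 (Real.sqrt t • s.ofLp.1) (Real.sqrt t • s.ofLp.2) n) = t := by
        simp only [gS, p1_j15, p2_j15, norm_smul, mul_pow, Real.norm_eq_abs, sq_abs,
          Real.sq_sqrt ht0]
        rw [← mul_add, hs1, mul_one]
      show a < gS (j15 (Real.sqrt t • s.ofLp.1) (Real.sqrt t • s.ofLp.2) n) ∧
        gS (j15 (Real.sqrt t • s.ofLp.1) (Real.sqrt t • s.ofLp.2) n) < b ∧
        p3 (j15 (Real.sqrt t • s.ofLp.1) (Real.sqrt t • s.ofLp.2) n) ∈ N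
      rw [hg, p3_j15]
      exact ⟨ht.1, ht.2, hn⟩
    · rintro ⟨h3, h4, h5⟩
      have hg0 : 0 < gS z := lt_trans ha h3
      have hr : 0 < Real.sqrt (gS z) := Real.sqrt_pos.2 hg0
      refine ⟨((WithLp.toLp 2 ((Real.sqrt (gS z))⁻¹ • p1 z, (Real.sqrt (gS z))⁻¹ • p2 z), gS z),
        p3 z), ⟨⟨?_, h3, h4⟩, h5⟩, ?_⟩
      · rw [mem_sphere_zero_iff_norm]
        have h6 : ‖(WithLp.toLp 2 ((Real.sqrt (gS z))⁻¹ • p1 z, (Real.sqrt (gS z))⁻¹ • p2 z) :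
            WithLp 2 (En 4 × En 4))‖ ^ 2 = 1 := by
          rw [WithLp.prod_norm_sq_eq_of_L2]
          show ‖(Real.sqrt (gS z))⁻¹ • p1 z‖ ^ 2 + ‖(Real.sqrt (gS z))⁻¹ • p2 z‖ ^ 2 = 1
          simp only [norm_smul, mul_pow, Real.norm_eq_abs, sq_abs, inv_pow, Real.sq_sqrt hg0.le]
          rw [← mul_add]
          exact inv_mul_cancel₀ hg0.ne'
        exact (pow_eq_one_iff_of_nonneg (norm_nonneg _) two_ne_zero).1 h6
      · simp only [smul_smul, mul_inv_cancel₀ hr.ne', one_smul, j15_p]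
  rwa [e] at h2

/-- compatibility of the two Jacobians -/
private theorem OrC_compat {l ε : ℝ} (hl : 0 < l) {N : OrGeo 6 7} {C : Collar N.carrier}
    (G : GFull C l ε) {σ₁ σ₂ : ℝ} (hσ₁ : σ₁ = 1 ∨ σ₁ = -1)
    (h1 : ∀ z, p1 z ≠ 0 → p3 z ∈ N.carrier → Orp N C σ₁ (tK1 C l) z)
    (h2 : ∀ z, p2 z ≠ 0 → p3 z ∈ N.carrier → Orp N C σ₂ (tK2 C l) z) {c₁ c₂ : ℝ} {z : En 15}
    (hz1 : z ∈ G.A1) (hz2 : z ∈ G.A2) (hN : p3 z ∈ N.carrier)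
    (o1 : Orp N C c₁ G.tS1 z) (o2 : Orp N C c₂ G.tS2 z) : 0 < (σ₁ * c₁) * (σ₂ * c₂) := by
  have hX : p1 (G.G1 z) ≠ 0 := (G.interA z hz1).1 hz2
  have hpS := pairS1 G
  have hpK := pairK1 hl N C
  have hpK2 := pairK2 hl N C
  obtain ⟨a1, a2, a3⟩ := hpS.mapsτ z hz1
  have hD1 : G.tS1 z ∈ {z : En 15 | p1 z ≠ 0 ∧ p3 z ∈ C.O} := by
    refine ⟨?_, (rho_N C a2).2⟩
    rw [GFull.tS1, p1_j15]
    exact hX
  obtain ⟨b1, b2, b3⟩ := hpK.mapsκ _ hD1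
  have hKz : tK1 C l (t1K C l (G.tS1 z)) = G.tS1 z := by
    rw [b3, R_of_N C a2]
  -- the second map
  have o3 : Orp N C σ₁ (t1K C l) (G.tS1 z) := by
    have := hpK.inv hσ₁ b1 (h1 _ b1.1 b2)
    rwa [hKz] at this
  have hY : p2 (G.G1 z) ≠ 0 := (G.subB1 _ (G.mapsG1 z hz1).1).1
  have hY' : p2 (t1K C l (G.tS1 z)) ≠ 0 := by
    rw [t1K, p2_j15, GFull.tS1, p1_j15, p2_j15, ← norm_ne_zero_iff, vc_norm_twi, norm_ne_zero_iff]
    exact ivn_ne_zero hY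
  have hD2 : t1K C l (G.tS1 z) ∈ {z : En 15 | p2 z ≠ 0 ∧ p3 z ∈ C.O} :=
    ⟨hY', (rho_N C b2).2⟩
  have o4 : Orp N C σ₂ (tK2 C l) (t1K C l (G.tS1 z)) := h2 _ hY' b2
  have d1 : DifferentiableAt ℝ G.tS1 z :=
    (hpS.smoothτ.contDiffAt (hpS.openD.mem_nhds hz1)).differentiableAt (by simp)
  have d2 : DifferentiableAt ℝ (t1K C l) (G.tS1 z) :=
    (hpK.smoothκ.contDiffAt (hpK.openE.mem_nhds hD1)).differentiableAt (by simp)
  have d3 : DifferentiableAt ℝ (tK2 C l) (t1K C l (G.tS1 z)) :=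
    (hpK2.smoothτ.contDiffAt (hpK2.openD.mem_nhds hD2)).differentiableAt (by simp)
  have o5 := o1.comp o3 d1 d2
  have o6 : Orp N C (c₁ * σ₁ * σ₂) (fun z => tK2 C l (t1K C l (G.tS1 z))) z :=
    Orp.comp (τ := fun z => t1K C l (G.tS1 z)) (τ' := tK2 C l) o5 o4 (d2.comp z d1) d3
  have e : G.tS2 =ᶠ[nhds z] fun z => tK2 C l (t1K C l (G.tS1 z)) := by
    filter_upwards [G.openA1.mem_nhds hz1, G.openA2.mem_nhds hz2] with y hy1 hy2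
    have hXy : p1 (G.G1 y) ≠ 0 := (G.interA y hy1).1 hy2
    have hYy : p2 (G.G1 y) ≠ 0 := (G.subB1 _ (G.mapsG1 y hy1).1).1
    have hNy := (G.mapsG1 y hy1).2.1
    have hr := (rho_N C hNy).1
    have ht : twi l (p1 (G.G1 y)) (p2 (G.G1 y)) ≠ 0 := by
      rw [← norm_ne_zero_iff, vc_norm_twi, norm_ne_zero_iff]
      exact hYy
    have hc := G.compat y ⟨hy1, hy2⟩
    simp only [GFull.tS2, hc, GFull.tS1, t1K, tK2, tt15, tt, p1_j15, p2_j15, p3_j15, hr,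
      ← ivn_twi, vc_tw_ivn l ht, vc_ivn_ivn ht, ← ivn_tw]
  have o7 := o6.congr e
  have hzO := (rho_N C hN).2
  have h := Orp.unique hzO o7 o2
  calc 0 < c₁ * σ₁ * σ₂ * c₂ := h
    _ = (σ₁ * c₁) * (σ₂ * c₂) := by ring

private theorem OrC_posOpen {A : Set (En 15)} (hA : IsOpen A) {c : En 15 → ℝ}
    (hc : ContinuousOn c A) (σ : ℝ) : IsOpen (A ∩ {z | 0 < σ * c z}) := by
  have h : ContinuousOn (fun z => σ * c z) A := continuousOn_const.mul hc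
  exact h.isOpen_inter_preimage hA isOpen_Ioi

theorem or_S {l ε : ℝ} (hl : 0 < l) {N : OrGeo 6 7} {C : Collar N.carrier}
    (hN : IsConnected N.carrier) (G : GFull C l ε) {σ₁ σ₂ : ℝ} (hσ₁ : σ₁ = 1 ∨ σ₁ = -1)
    (hσ₂ : σ₂ = 1 ∨ σ₂ = -1)
    (h1 : ∀ z, p1 z ≠ 0 → p3 z ∈ N.carrier → Orp N C σ₁ (tK1 C l) z)
    (h2 : ∀ z, p2 z ≠ 0 → p3 z ∈ N.carrier → Orp N C σ₂ (tK2 C l) z) :
    ∃ σ : ℝ, (σ = 1 ∨ σ = -1) ∧
      (∀ z ∈ G.A1, p3 z ∈ N.carrier → Orp N C (σ * σ₁) G.tS1 z) ∧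
      ∀ z ∈ G.A2, p3 z ∈ N.carrier → Orp N C (σ * σ₂) G.tS2 z := by
  obtain ⟨c₁, hc₁, hj₁⟩ := (pairS1 G).jac
  obtain ⟨c₂, hc₂, hj₂⟩ := (pairS2 G).jac
  have o1 : ∀ z ∈ G.A1, Orp N C (c₁ z) G.tS1 z := fun z hz =>
    ⟨c₁ z, mul_self_pos.2 (hj₁ z hz).1, (hj₁ z hz).2⟩
  have o2 : ∀ z ∈ G.A2, Orp N C (c₂ z) G.tS2 z := fun z hz =>
    ⟨c₂ z, mul_self_pos.2 (hj₂ z hz).1, (hj₂ z hz).2⟩
  have hcomp : ∀ z ∈ G.A1, z ∈ G.A2 → p3 z ∈ N.carrier →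
      0 < (σ₁ * c₁ z) * (σ₂ * c₂ z) := fun z hz1 hz2 hn =>
    OrC_compat hl G hσ₁ h1 h2 hz1 hz2 hn (o1 z hz1) (o2 z hz2)
  have hs1 : ∀ z ∈ G.A1, σ₁ * c₁ z ≠ 0 := by
    intro z hz
    rcases hσ₁ with rfl | rfl
    · rw [one_mul]; exact (hj₁ z hz).1
    · rw [neg_one_mul]; exact neg_ne_zero.2 (hj₁ z hz).1
  have hs2 : ∀ z ∈ G.A2, σ₂ * c₂ z ≠ 0 := by
    intro z hz
    rcases hσ₂ with rfl | rfl
    · rw [one_mul]; exact (hj₂ z hz).1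
    · rw [neg_one_mul]; exact neg_ne_zero.2 (hj₂ z hz).1
  have hpre := isPreconnected_ann (N := N.carrier) hN (a := 1 / 10 ^ 6) (b := 10 ^ 6)
    (by norm_num)
  rw [isPreconnected_iff_subset_of_disjoint] at hpre
  have hS1 : ∀ z ∈ G.A1, p3 z ∈ N.carrier →
      z ∈ {z : En 15 | 1 / 10 ^ 6 < gS z ∧ gS z < 10 ^ 6 ∧ p3 z ∈ N.carrier} := fun z hz hn =>
    ⟨(G.subA z (Or.inl hz)).1, (G.subA z (Or.inl hz)).2.1, hn⟩
  have hS2 : ∀ z ∈ G.A2, p3 z ∈ N.carrier →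
      z ∈ {z : En 15 | 1 / 10 ^ 6 < gS z ∧ gS z < 10 ^ 6 ∧ p3 z ∈ N.carrier} := fun z hz hn =>
    ⟨(G.subA z (Or.inr hz)).1, (G.subA z (Or.inr hz)).2.1, hn⟩
  have key := hpre ((G.A1 ∩ {z | 0 < σ₁ * c₁ z}) ∪ (G.A2 ∩ {z | 0 < σ₂ * c₂ z}))
    ((G.A1 ∩ {z | 0 < -σ₁ * c₁ z}) ∪ (G.A2 ∩ {z | 0 < -σ₂ * c₂ z}))
    ((OrC_posOpen G.openA1 hc₁ σ₁).union (OrC_posOpen G.openA2 hc₂ σ₂))
    ((OrC_posOpen G.openA1 hc₁ (-σ₁)).union (OrC_posOpen G.openA2 hc₂ (-σ₂))) ?_ ?_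
  · rcases key with key | key
    · refine ⟨1, Or.inl rfl, fun z hz hn => ?_, fun z hz hn => ?_⟩
      · refine ⟨c₁ z, ?_, (hj₁ z hz).2⟩
        rw [one_mul]
        rcases key (hS1 z hz hn) with h | h
        · exact h.2
        · exact pos_of_mul_pos_left (hcomp z hz h.1 hn) (le_of_lt h.2)
      · refine ⟨c₂ z, ?_, (hj₂ z hz).2⟩
        rw [one_mul]
        rcases key (hS2 z hz hn) with h | h
        · exact pos_of_mul_pos_right (hcomp z h.1 hz hn) (le_of_lt h.2)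
        · exact h.2
    · refine ⟨-1, Or.inr rfl, fun z hz hn => ?_, fun z hz hn => ?_⟩
      · refine ⟨c₁ z, ?_, (hj₁ z hz).2⟩
        rcases key (hS1 z hz hn) with h | h
        · have h3 : 0 < -σ₁ * c₁ z := h.2
          linarith
        · have h3 : 0 < -σ₂ * c₂ z := h.2
          have h4 := hcomp z hz h.1 hn
          by_contra h5
          push Not at h5
          nlinarith
      · refine ⟨c₂ z, ?_, (hj₂ z hz).2⟩
        rcases key (hS2 z hz hn) with h | h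
        · have h3 : 0 < -σ₁ * c₁ z := h.2
          have h4 := hcomp z h.1 hz hn
          by_contra h5
          push Not at h5
          nlinarith
        · have h3 : 0 < -σ₂ * c₂ z := h.2
          linarith
  · rintro z ⟨g1, g2, hn⟩
    rcases G.coverA z g1 g2 (rho_N C hn).2 with hz | hz
    · rcases lt_or_gt_of_ne (hs1 z hz) with h | h
      · right; left
        exact ⟨hz, by show 0 < -σ₁ * c₁ z; linarith⟩
      · left; left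
        exact ⟨hz, h⟩
    · rcases lt_or_gt_of_ne (hs2 z hz) with h | h
      · right; right
        exact ⟨hz, by show 0 < -σ₂ * c₂ z; linarith⟩
      · left; right
        exact ⟨hz, h⟩
  · rw [Set.eq_empty_iff_forall_notMem]
    rintro z ⟨⟨-, -, hn⟩, hU, hV⟩
    rcases hU with ⟨a, a'⟩ | ⟨a, a'⟩ <;> rcases hV with ⟨b, b'⟩ | ⟨b, b'⟩
    · have h3 : 0 < σ₁ * c₁ z := a'
      have h4 : 0 < -σ₁ * c₁ z := b'
      linarith
    · have h3 : 0 < σ₁ * c₁ z := a'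
      have h4 : 0 < -σ₂ * c₂ z := b'
      have h5 := hcomp z a b hn
      nlinarith
    · have h3 : 0 < σ₂ * c₂ z := a'
      have h4 : 0 < -σ₁ * c₁ z := b'
      have h5 := hcomp z b a hn
      nlinarith
    · have h3 : 0 < σ₂ * c₂ z := a'
      have h4 : 0 < -σ₂ * c₂ z := b'
      linarith

end Pool.Agent.EXO
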