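import Mathlib
import Pool.Agent.EXO.DefW

/-!
# EXO / Pcs: the four pieces of the closed manifold (part VCL)

PROOF.  `exists_pc`: `Ψ z = amb (F (c i z))`, `Φ v = (a.1 i).1⁻¹ • (a.1 i).2` with `a = amb.symm v`, `O = {(a.1 i).1 ≠ 0}`.
smoothΨ: `F_smooth` and `amb` is continuous linear.  smoothΦ: quotient with nonzero denominator.
maps: for `z ∈ dom (gi i) C.O 20000`: `F (c i z) = F (c i (C.R z))` (`c_R`), `C.R z ∈ dom (gi i) N 20000` (`R_dom`), so `Ψ z ∈ X`; the `i`-th weight is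
`bi i (C.R z) > 0` (`F_chart`, `bi_pos`).  left: `F_chart`: `Φ (Ψ z) = C.R z`.  mapsΦ, right: `v = amb (F (c j z')) ∈ X`, its `i`-th weight is `≠ 0`: `F_conv` gives
`z ∈ dom (gi i) N 20000` with `c i z = c j z'`, so `v = Ψ z`, `Φ v = C.R z = z` (`R_of_N`).
`X_compact`: `X = ⋃ i, (fun z => amb (F (c i z))) '' Qc N i` by `cover` and `Qc_sub`; `Qc N i` is compact and the maps are continuous on it.
`pc_mem_O`: `Ψ_j z ∈ O_i` iff the `i`-th weight of `F (c j z)` is not zero.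
`tr`: if `c i z = c j z'` then `Ψ_i z = Ψ_j z'`.  `notK1`: for `p1 z = 0`: `co1 (.k 0 y) = none`, the weight `2` is `0`.  The others in the same way (`coK_cH1`: `none` for `x = 0`).
`inter12`: `v = amb (F h)`, `h` a point with nonzero weights `2` and `3`; then `h = inl (w, n)` (for `inr` these weights are `0`) and `co1 w`, `co2 w` are both defined: `w` is not `h1 _`, not `h2 _`, so
`w = .k x y`, `gW w < 20000` (as `zt ≠ 0`), and the weight `1` is `bK > 0`.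
`r`: `(amb.symm (Ψ_i z)).2.1`: for `i = 1, 2, 3` it is `C.rho (p3 z)`, for `i = 0` it is `rs z` (`F_rS`).  `k`: `kW_K`, `kW_1`, `kW_2`; `et = 1` for `g ≤ 1`.
`cover_X`: from `GFull.cover` and the definition of `Qc`.
-/

set_option autoImplicit false
set_option maxSynthPendingDepth 3

open Set
open scoped ContDiff Quaternion

namespace Pool.Agent.EXO

namespace GFull

variable {N : Set (En 7)} {C : Collar N} {l ε : ℝ} (G : GFull C l ε)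

private theorem Pcs_dom {C : Collar N} (i : Fin 4) {z : En 15}
    (hz : z ∈ dom (gi i) N 20000) : z ∈ dom (gi i) C.O 20000 :=
  ⟨hz.1, (rho_N C hz.2).2⟩

/-- the weight of a point of the chart -/
private theorem Pcs_weight (i : Fin 4) {z : En 15} (hz : z ∈ dom (gi i) C.O 20000) :
    ((amb.symm (amb (G.F (G.c i z)))).1 i).1 ≠ 0 := by
  rw [amb.symm_apply_apply, G.F_chart i hz]
  exact ((bi_pos i).2 (R_dom C i hz).1).ne'

private theorem Pcs_left (i : Fin 4) {z : En 15} (hz : z ∈ dom (gi i) C.O 20000) :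
    ((amb.symm (amb (G.F (G.c i z)))).1 i).1⁻¹ • ((amb.symm (amb (G.F (G.c i z)))).1 i).2 =
      C.R z := by
  rw [amb.symm_apply_apply, G.F_chart i hz]
  exact inv_smul_smul₀ ((bi_pos i).2 (R_dom C i hz).1).ne' _

private theorem Pcs_mem (i : Fin 4) {z : En 15} (hz : z ∈ dom (gi i) C.O 20000) :
    amb (G.F (G.c i z)) ∈ G.X := by
  rw [← G.c_R i hz]
  exact mem_iUnion.2 ⟨i, C.R z, R_dom C i hz, rfl⟩

/-- a point of `X` with nonzero weight `i` is in the chart `i` -/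
private theorem Pcs_conv (i : Fin 4) {v : En 72} (hv : v ∈ G.X)
    (h : ((amb.symm v).1 i).1 ≠ 0) : ∃ z ∈ dom (gi i) N 20000, v = amb (G.F (G.c i z)) := by
  obtain ⟨j, z, hz, rfl⟩ := mem_iUnion.1 hv
  simp only at h
  rw [amb.symm_apply_apply] at h
  obtain ⟨z', hz', he⟩ := G.F_conv i j hz h
  refine ⟨z', hz', ?_⟩
  rw [he]

theorem exists_pc (hl : 0 < l) (hε : ε ≤ 1 / 4) {δ : ℝ}
    (hρ : ∀ n ∈ N, ∀ m, dist m n < ε → m ∈ C.O ∧ dist (C.rho m) n < δ) (i : Fin 4) :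
    ∃ P : VPiece C G.X (gi i), G.IsPc i P := by
  have hsymm : ContDiff ℝ ∞ fun v : En 72 => (amb.symm v).1 i := by
    have h1 : ContDiff ℝ ∞ fun v : En 72 => amb.symm v := amb.symm.contDiff
    exact contDiff_pi.1 (contDiff_fst.comp h1) i
  have h1 : ContDiff ℝ ∞ fun v : En 72 => ((amb.symm v).1 i).1 := contDiff_fst.comp hsymm
  have h2 : ContDiff ℝ ∞ fun v : En 72 => ((amb.symm v).1 i).2 := contDiff_snd.comp hsymm
  refine ⟨{ Ψ := fun z => amb (G.F (G.c i z))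
            Φ := fun v => ((amb.symm v).1 i).1⁻¹ • ((amb.symm v).1 i).2
            O := {v | ((amb.symm v).1 i).1 ≠ 0}
            openO := isOpen_ne_fun h1.continuous continuous_const
            smoothΨ := amb.contDiff.comp_contDiffOn (G.F_smooth hl hε hρ i)
            smoothΦ := (h1.contDiffOn.inv fun v hv => hv).smul h2.contDiffOn
            maps := fun z hz => ⟨G.Pcs_mem i hz, G.Pcs_weight i hz⟩
            mapsΦ := ?_
            right := ?_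
            left := fun z hz => G.Pcs_left i hz }, ⟨fun _ => rfl, fun _ => rfl, rfl⟩⟩
  · rintro v ⟨hv, hv'⟩
    obtain ⟨z, hz, rfl⟩ := G.Pcs_conv i hv hv'
    rw [G.Pcs_left i (Pcs_dom i hz), R_of_N C hz.2]
    exact hz
  · rintro v ⟨hv, hv'⟩
    obtain ⟨z, hz, rfl⟩ := G.Pcs_conv i hv hv'
    rw [G.Pcs_left i (Pcs_dom i hz), R_of_N C hz.2]

theorem X_compact (hl : 0 < l) (hε : ε ≤ 1 / 4) {δ : ℝ} (hN : IsCompact N)
    (hρ : ∀ n ∈ N, ∀ m, dist m n < ε → m ∈ C.O ∧ dist (C.rho m) n < δ) : IsCompact G.X := by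
  have h1 : G.X = ⋃ i : Fin 4, (fun z => amb (G.F (G.c i z))) '' Qc N i := by
    apply Subset.antisymm
    · intro v hv
      obtain ⟨j, z, hz, rfl⟩ := mem_iUnion.1 hv
      obtain ⟨i, z', hz', he⟩ := G.cover hε j hz
      exact mem_iUnion.2 ⟨i, z', hz', by simp only [he]⟩
    · exact iUnion_mono fun i => image_mono (Qc_sub N i)
  rw [h1]
  refine isCompact_iUnion fun i => (isCompact_Qc hN i).image_of_continuousOn ?_
  exact amb.continuous.comp_continuousOn ((G.F_smooth hl hε hρ i).continuousOn.mono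
    fun z hz => Pcs_dom i (Qc_sub N i hz))

theorem pc_trK1 {P : VPiece C G.X (gi 1)} {Q : VPiece C G.X (gi 2)} (hP : G.IsPc 1 P)
    (hQ : G.IsPc 2 Q) {z : En 15} (hz : z ∈ dom gK N 20000) (h : p1 z ≠ 0) :
    P.Ψ z = Q.Ψ (j15 (ivn (p1 z)) (tw l (p1 z) (p2 z)) (p3 z)) := by
  rw [hP.Ψ_eq, hQ.Ψ_eq]
  change amb (G.F (cK C z)) = amb (G.F (c1 C l _))
  unfold cK c1
  rw [p1_j15, p2_j15, p3_j15, ← k_eq_cH1 l h]

theorem pc_trK2 {P : VPiece C G.X (gi 1)} {Q : VPiece C G.X (gi 3)} (hP : G.IsPc 1 P)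
    (hQ : G.IsPc 3 Q) {z : En 15} (hz : z ∈ dom gK N 20000) (h : p2 z ≠ 0) :
    P.Ψ z = Q.Ψ (j15 (tw l (p2 z) (p1 z)) (ivn (p2 z)) (p3 z)) := by
  rw [hP.Ψ_eq, hQ.Ψ_eq]
  change amb (G.F (cK C z)) = amb (G.F (c2 C l _))
  unfold cK c2
  rw [p1_j15, p2_j15, p3_j15, ← k_eq_cH2 l h]

theorem pc_notK1 {P : VPiece C G.X (gi 1)} {Q : VPiece C G.X (gi 2)} (hP : G.IsPc 1 P)
    (hQ : G.IsPc 2 Q) {z : En 15} (hz : z ∈ dom gK N 20000) (h : p1 z = 0) : P.Ψ z ∉ Q.O := by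
  rw [hP.Ψ_eq, hQ.O_eq]
  change ¬ ((amb.symm (amb (G.F (cK C z)))).1 2).1 ≠ 0
  rw [amb.symm_apply_apply, not_not]
  change (f1 l (.k (p1 z) (p2 z)) (C.rho (p3 z))).1 = 0
  have hco : co1 l (.k (p1 z) (p2 z)) = none := if_pos h
  unfold f1
  rw [hco]
  rfl

theorem pc_notK2 {P : VPiece C G.X (gi 1)} {Q : VPiece C G.X (gi 3)} (hP : G.IsPc 1 P)
    (hQ : G.IsPc 3 Q) {z : En 15} (hz : z ∈ dom gK N 20000) (h : p2 z = 0) : P.Ψ z ∉ Q.O := by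
  rw [hP.Ψ_eq, hQ.O_eq]
  change ¬ ((amb.symm (amb (G.F (cK C z)))).1 3).1 ≠ 0
  rw [amb.symm_apply_apply, not_not]
  change (f2 l (.k (p1 z) (p2 z)) (C.rho (p3 z))).1 = 0
  have hco : co2 l (.k (p1 z) (p2 z)) = none := if_pos h
  unfold f2
  rw [hco]
  rfl

theorem pc_not1K {P : VPiece C G.X (gi 1)} {Q : VPiece C G.X (gi 2)} (hP : G.IsPc 1 P)
    (hQ : G.IsPc 2 Q) {z : En 15} (hz : z ∈ dom g1 N 20000) (h : p1 z = 0) : Q.Ψ z ∉ P.O := by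
  rw [hQ.Ψ_eq, hP.O_eq]
  change ¬ ((amb.symm (amb (G.F (c1 C l z)))).1 1).1 ≠ 0
  rw [amb.symm_apply_apply, not_not]
  change (fK (cH1 l (p1 z) (p2 z)) (C.rho (p3 z))).1 = 0
  unfold fK
  rw [coK_cH1, if_pos h]
  rfl

theorem pc_not2K {P : VPiece C G.X (gi 1)} {Q : VPiece C G.X (gi 3)} (hP : G.IsPc 1 P)
    (hQ : G.IsPc 3 Q) {z : En 15} (hz : z ∈ dom g2 N 20000) (h : p2 z = 0) : Q.Ψ z ∉ P.O := by
  rw [hQ.Ψ_eq, hP.O_eq]
  change ¬ ((amb.symm (amb (G.F (c2 C l z)))).1 1).1 ≠ 0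
  rw [amb.symm_apply_apply, not_not]
  change (fK (cH2 l (p1 z) (p2 z)) (C.rho (p3 z))).1 = 0
  unfold fK
  rw [coK_cH2, if_pos h]
  rfl

theorem pc_inter12 {P : VPiece C G.X (gi 1)} {Q : VPiece C G.X (gi 2)} {R : VPiece C G.X (gi 3)}
    (hP : G.IsPc 1 P) (hQ : G.IsPc 2 Q) (hR : G.IsPc 3 R) {v : En 72} (hv : v ∈ G.X)
    (h1 : v ∈ Q.O) (h2 : v ∈ R.O) : v ∈ P.O := by
  rw [hP.O_eq]
  rw [hQ.O_eq] at h1
  rw [hR.O_eq] at h2
  obtain ⟨j, z, hz, rfl⟩ := mem_iUnion.1 hv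
  change ((amb.symm (amb (G.F (G.c j z)))).1 1).1 ≠ 0
  change ((amb.symm (amb (G.F (G.c j z)))).1 2).1 ≠ 0 at h1
  change ((amb.symm (amb (G.F (G.c j z)))).1 3).1 ≠ 0 at h2
  rw [amb.symm_apply_apply] at h1 h2 ⊢
  generalize G.c j z = h at h1 h2 ⊢
  match h, h1, h2 with
  | .inr z, h1, h2 => exact absurd rfl h1
  | .inl (.h1 y, n), h1, h2 => exact absurd rfl h2
  | .inl (.h2 x, n), h1, h2 => exact absurd rfl h1
  | .inl (.k x y, n), h1, h2 =>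
    change (f1 l (.k x y) n).1 ≠ 0 at h1
    change (fK (.k x y) n).1 ≠ 0
    unfold f1 at h1
    by_cases hx : x = 0
    · have hco : co1 l (.k x y) = none := if_pos hx
      rw [hco] at h1
      exact absurd rfl h1
    · have hco : co1 l (.k x y) = some (ivn x, tw l x y) := if_neg hx
      rw [hco] at h1
      change b1 (j15 (ivn x) (tw l x y) n) ≠ 0 at h1
      have h3 : 0 < b1 (j15 (ivn x) (tw l x y) n) :=
        lt_of_le_of_ne (b_nonneg _).2.2.1 (Ne.symm h1)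
      rw [b1_pos, ← gW_cH1 l, p1_j15, p2_j15, ← k_eq_cH1 l hx] at h3
      change bK (j15 x y n) ≠ 0
      have h4 : gK (j15 x y n) < 20000 := by
        rw [← gW_k, p1_j15, p2_j15]
        exact h3
      exact (bK_pos.2 h4).ne'

/-- the projection to `N` -/
theorem pc_r {i : Fin 4} (hi : i ≠ 0) {P : VPiece C G.X (gi i)} (hP : G.IsPc i P) {z : En 15}
    (hz : z ∈ dom (gi i) N 20000) : (amb.symm (P.Ψ z)).2.1 = p3 z := by
  rw [hP.Ψ_eq, amb.symm_apply_apply]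
  have hr : C.rho (p3 z) = p3 z := (rho_N C hz.2).1
  fin_cases i
  · exact absurd rfl hi
  · exact hr
  · exact hr
  · exact hr

theorem pc_rS (hε : ε ≤ 1 / 4) {P : VPiece C G.X (gi 0)} (hP : G.IsPc 0 P) {z : En 15}
    (hz : z ∈ dom gS N 20000) : (amb.symm (P.Ψ z)).2.1 = G.rs z := by
  rw [hP.Ψ_eq, amb.symm_apply_apply]
  exact G.F_rS hε (Pcs_dom 0 hz)

/-- the function `k` -/
theorem pc_kK {P : VPiece C G.X (gi 1)} (hP : G.IsPc 1 P) {z : En 15} (hz : z ∈ dom gK N 20000)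
    (h : gK z ≤ 1) : (amb.symm (P.Ψ z)).2.2 = kap (‖p2 z‖ ^ 2) := by
  rw [hP.Ψ_eq, amb.symm_apply_apply]
  change kW (.k (p1 z) (p2 z)) = _
  rw [kW_K, et_one h, one_mul]

theorem pc_k1 {P : VPiece C G.X (gi 2)} (hP : G.IsPc 2 P) {z : En 15} (hz : z ∈ dom g1 N 20000)
    (h : g1 z ≤ 1) : (amb.symm (P.Ψ z)).2.2 = kap (‖p2 z‖ ^ 2) := by
  rw [hP.Ψ_eq, amb.symm_apply_apply]
  change kW (cH1 l (p1 z) (p2 z)) = _
  rw [kW_1, et_one h, one_mul]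

theorem pc_k2 {P : VPiece C G.X (gi 3)} (hP : G.IsPc 3 P) {z : En 15} (hz : z ∈ dom g2 N 20000)
    (h : g2 z ≤ 1) : (amb.symm (P.Ψ z)).2.2 = kapi (‖p2 z‖ ^ 2) := by
  rw [hP.Ψ_eq, amb.symm_apply_apply]
  change kW (cH2 l (p1 z) (p2 z)) = _
  rw [kW_2, et_one h, one_mul]

theorem cover_X (hε : ε ≤ 1 / 4) {P0 : VPiece C G.X (gi 0)} {P1 : VPiece C G.X (gi 1)}
    {P2 : VPiece C G.X (gi 2)} {P3 : VPiece C G.X (gi 3)} (h0 : G.IsPc 0 P0) (h1 : G.IsPc 1 P1)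
    (h2 : G.IsPc 2 P2) (h3 : G.IsPc 3 P3) {v : En 72} (hv : v ∈ G.X) :
    (∃ z, gS z ≤ 10 ∧ p3 z ∈ N ∧ v = P0.Ψ z) ∨ (∃ z, gK z ≤ 1 / 3 ∧ p3 z ∈ N ∧ v = P1.Ψ z) ∨
    (∃ z, g1 z ≤ 1 / 3 ∧ p3 z ∈ N ∧ v = P2.Ψ z) ∨ (∃ z, g2 z ≤ 1 / 3 ∧ p3 z ∈ N ∧ v = P3.Ψ z) := by
  obtain ⟨j, z, hz, rfl⟩ := mem_iUnion.1 hv
  obtain ⟨i, z', hz', he⟩ := G.cover hε j hz
  simp only [← he]
  fin_cases i
  · exact Or.inl ⟨z', hz'.1, hz'.2, (h0.Ψ_eq z').symm⟩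
  · exact Or.inr (Or.inl ⟨z', hz'.2.2.1, hz'.2.2.2, (h1.Ψ_eq z').symm⟩)
  · exact Or.inr (Or.inr (Or.inl ⟨z', hz'.2.2.1, hz'.2.2.2, (h2.Ψ_eq z').symm⟩))
  · exact Or.inr (Or.inr (Or.inr ⟨z', hz'.2.2.1, hz'.2.2.2, (h3.Ψ_eq z').symm⟩))

end GFull

end Pool.Agent.EXO
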