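import Mathlib
import Pool.Agent.EXO.OrC
import Pool.Agent.EXO.Pcs

/-!
# EXO / OrD: the pieces of the closed manifold are consistently oriented (part VCL)

PROOF.  Let `σ₁, σ₂` be from `or_K1`, `or_K2`, `σS` from `or_S`, and `σ := ![σS, 1, σ₁, σ₂]` (pieces `S, K, H₁, H₂`).
For pieces `i, j` and `z ∈ dom (gi j) N 20000` with `Ψ_j z ∈ O_i` put `τ_{ji} := Φ_i ∘ Ψ_j` (defined and smooth near `z`).  Claim `Orp (σ i * σ j) τ_{ji} z`.
(j = i): `Φ_i ∘ Ψ_i = C.R` near `z`: `Orp.R`.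
(1,2): `co1 (.k x y) ≠ none`, so `p1 z ≠ 0`, and `Φ_2 (Ψ_1 z') = tK1 C l z'` near `z` (`k_eq_cH1`; `c_R`, `F_chart`).  (1,3): `tK2`.  (2,1), (3,1): `Φ_1 ∘ Ψ_2 = t1K` near `z`, `TrPair.inv` applied to `pairK1` at `w = t1K z`
(`tK1 w = z`).  (2,3): `Ψ_2 z ∈ O_3` implies `Ψ_2 z ∈ O_1` (`pc_inter12`); near `z`, `Φ_3 ∘ Ψ_2 = (Φ_3 ∘ Ψ_1) ∘ (Φ_1 ∘ Ψ_2)` (`Ψ_1 (Φ_1 v) = v` for `v ∈ X`, `O_1` open); `Orp.comp`.  (3,2) the same.
(0,2): `Ψ_0 z ∈ O_2`: the point `cS z` has nonzero weight `2`, so `cS z = inl (Gw z, Gn z)`, `z ∈ A1 ∪ A2`, `co1 (Gw z) ≠ none`, so `z ∈ A1` (if `z ∈ A2`, `Gw z = cH2 l _ (p2 (G2 z))` with `p2 (G2 z) ≠ 0`, `interA2`), and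
`Φ_2 (Ψ_0 z') = tS1 z'` near `z` (`gW (Gw z') < 20000` is open).  `or_S`.  (0,3): `tS2`.  (0,1): `cS z = inl (.k x y, n)`, `gW (.k x y) ≠ 0`, so `x ≠ 0`: `Ψ_0 z ∈ O_2` and `Φ_1 ∘ Ψ_0 = (Φ_1 ∘ Ψ_2) ∘ (Φ_2 ∘ Ψ_0)` near `z`.
(i,0): inverse: general principle: if `Orp s (Φ_i ∘ Ψ_j) z`, `s = ±1`, then `Orp s (Φ_j ∘ Ψ_i) (Φ_i (Ψ_j z))`, because `(Φ_j ∘ Ψ_i) ∘ (Φ_i ∘ Ψ_j) = C.R` near `z` (`TrPair.inv` for the open sets
`D = {z ∈ dom (gi j) C.O 20000 | Ψ_j z ∈ O_i}` and `E = {z ∈ dom (gi i) C.O 20000 | Ψ_i z ∈ O_j}`; this `TrPair` is `pc_pair`).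
-/

set_option autoImplicit false
set_option maxSynthPendingDepth 3

open Set
open scoped ContDiff Quaternion

namespace Pool.Agent.EXO

private theorem OrD_psiR {N : Set (En 7)} {C : Collar N} {M : ℕ} {X : Set (En M)}
    {g : En 15 → ℝ} (P : VPiece C X g) {z : En 15} (hz : z ∈ dom g C.O 20000) :
    P.Ψ (C.R z) = P.Ψ z := by
  have h1 := P.left z hz
  have h2 := P.right _ (P.maps z hz)
  rw [h1] at h2
  exact h2

private theorem OrD_half {N : OrGeo 6 7} {C : Collar N.carrier} {M : ℕ} {X : Set (En M)}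
    {g g' : En 15 → ℝ} (hg : IsOpen {z | g z < 20000})
    (hR : ∀ z, g (C.R z) = g z) (P : VPiece C X g) (Q : VPiece C X g') :
    IsOpen {z | z ∈ dom g C.O 20000 ∧ P.Ψ z ∈ Q.O} ∧
    (∀ z ∈ {z | z ∈ dom g C.O 20000 ∧ P.Ψ z ∈ Q.O}, p3 z ∈ C.O ∧
      C.R z ∈ {z | z ∈ dom g C.O 20000 ∧ P.Ψ z ∈ Q.O}) ∧
    ContDiffOn ℝ ∞ (fun z => Q.Φ (P.Ψ z)) {z | z ∈ dom g C.O 20000 ∧ P.Ψ z ∈ Q.O} ∧
    ∀ z ∈ {z | z ∈ dom g C.O 20000 ∧ P.Ψ z ∈ Q.O},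
      Q.Φ (P.Ψ z) ∈ {z | z ∈ dom g' C.O 20000 ∧ Q.Ψ z ∈ P.O} ∧
      p3 (Q.Φ (P.Ψ z)) ∈ N.carrier ∧ P.Φ (Q.Ψ (Q.Φ (P.Ψ z))) = C.R z := by
  have hdo : IsOpen (dom g C.O 20000) := hg.inter (C.openO.preimage continuous_p3)
  refine ⟨?_, ?_, ?_, ?_⟩
  · exact P.smoothΨ.continuousOn.isOpen_inter_preimage hdo Q.openO
  · rintro z ⟨hz, hzO⟩
    refine ⟨hz.2, ⟨⟨?_, ?_⟩, ?_⟩⟩
    · show g (C.R z) < 20000
      rw [hR]
      exact hz.1
    · rw [(R_comp C z).2.2.1]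
      exact (rho_N C (C.io_rho _ hz.2).1).2
    · rw [OrD_psiR P hz]
      exact hzO
  · exact Q.smoothΦ.comp (P.smoothΨ.mono fun z hz => hz.1) fun z hz => hz.2
  · rintro z ⟨hz, hzO⟩
    have hm := P.maps z hz
    have h1 := Q.mapsΦ _ ⟨hm.1, hzO⟩
    have h2 := Q.right _ ⟨hm.1, hzO⟩
    refine ⟨⟨dom_sub C h1, ?_⟩, h1.2, ?_⟩
    · rw [h2]
      exact hm.2
    · rw [h2, P.left z hz]
      rfl

/-- the transition map of two pieces -/
theorem pc_pair {N : OrGeo 6 7} {C : Collar N.carrier} {M : ℕ} {X : Set (En M)}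
    {g g' : En 15 → ℝ} (hg : IsOpen {z | g z < 20000}) (hg' : IsOpen {z | g' z < 20000})
    (hR : ∀ z, g (C.R z) = g z) (hR' : ∀ z, g' (C.R z) = g' z)
    (P : VPiece C X g) (Q : VPiece C X g') :
    TrPair N C {z | z ∈ dom g C.O 20000 ∧ P.Ψ z ∈ Q.O} {z | z ∈ dom g' C.O 20000 ∧ Q.Ψ z ∈ P.O}
      (fun z => Q.Φ (P.Ψ z)) (fun z => P.Φ (Q.Ψ z)) := by
  obtain ⟨a1, a2, a3, a4⟩ := OrD_half hg hR P Q
  obtain ⟨b1, b2, b3, b4⟩ := OrD_half hg' hR' Q P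
  exact ⟨a1, b1, a2, b2, a3, b3, a4, b4⟩

private theorem OrD_gok (i : Fin 4) : GOk (gi i) := by
  fin_cases i
  · exact gOk_S
  · exact gOk_K
  · exact gOk_1
  · exact gOk_2

private theorem OrD_open (i : Fin 4) : IsOpen {z | gi i z < 20000} :=
  isOpen_lt (OrD_gok i).cont continuous_const

private theorem OrD_giR {N : Set (En 7)} (C : Collar N) (i : Fin 4) (z : En 15) :
    gi i (C.R z) = gi i z :=
  (OrD_gok i).inv _ _ (R_comp C z).1 (R_comp C z).2.1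

private theorem OrD_domo {N : Set (En 7)} (C : Collar N) (i : Fin 4) :
    IsOpen (dom (gi i) C.O 20000) := (OrD_open i).inter (C.openO.preimage continuous_p3)

section

variable {N : OrGeo 6 7} {C : Collar N.carrier} {l ε : ℝ} {G : GFull C l ε}

private theorem OrD_pair (P : ∀ i : Fin 4, VPiece C G.X (gi i)) (j i : Fin 4) :
    TrPair N C {z | z ∈ dom (gi j) C.O 20000 ∧ (P j).Ψ z ∈ (P i).O}
      {z | z ∈ dom (gi i) C.O 20000 ∧ (P i).Ψ z ∈ (P j).O}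
      (fun z => (P i).Φ ((P j).Ψ z)) (fun z => (P j).Φ ((P i).Ψ z)) :=
  pc_pair (OrD_open j) (OrD_open i) (OrD_giR C j) (OrD_giR C i) (P j) (P i)

private theorem OrD_tr (P : ∀ i : Fin 4, VPiece C G.X (gi i)) (hP : ∀ i, G.IsPc i (P i))
    {i j : Fin 4} {t : En 15 → En 15} {z : En 15}
    (h : ∀ᶠ w in nhds z, t w ∈ dom (gi i) N.carrier 20000 ∧ G.c i (t w) = G.c j w) :
    (fun z => (P i).Φ ((P j).Ψ z)) =ᶠ[nhds z] t := by
  filter_upwards [h] with w hw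
  have h1 : (P j).Ψ w = (P i).Ψ (t w) := by rw [(hP j).Ψ_eq, (hP i).Ψ_eq, hw.2]
  have h2 := (P i).left (t w) (dom_sub C hw.1)
  show (P i).Φ ((P j).Ψ w) = t w
  rw [h1, h2]
  exact R_of_N C hw.1.2

private theorem OrD_comp (P : ∀ i : Fin 4, VPiece C G.X (gi i)) {i j k : Fin 4} {z : En 15}
    (hz : z ∈ dom (gi j) N.carrier 20000) (hi : (P j).Ψ z ∈ (P i).O)
    (hk : (P j).Ψ z ∈ (P k).O) {s s' : ℝ}
    (h1 : Orp N C s (fun z => (P k).Φ ((P j).Ψ z)) z)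
    (h2 : Orp N C s' (fun z => (P i).Φ ((P k).Ψ z)) ((P k).Φ ((P j).Ψ z))) :
    Orp N C (s * s') (fun z => (P i).Φ ((P j).Ψ z)) z := by
  have hz1 : z ∈ dom (gi j) C.O 20000 := dom_sub C hz
  have hm := (P j).maps z hz1
  have hw := (P k).mapsΦ _ ⟨hm.1, hk⟩
  have hr := (P k).right _ ⟨hm.1, hk⟩
  have p1' := OrD_pair P j k
  have p2' := OrD_pair P k i
  have d : DifferentiableAt ℝ (fun z => (P k).Φ ((P j).Ψ z)) z :=
    (p1'.smoothτ.contDiffAt (p1'.openD.mem_nhds ⟨hz1, hk⟩)).differentiableAt (by simp)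
  have d' : DifferentiableAt ℝ (fun z => (P i).Φ ((P k).Ψ z)) ((P k).Φ ((P j).Ψ z)) := by
    refine (p2'.smoothτ.contDiffAt (p2'.openD.mem_nhds ⟨dom_sub C hw, ?_⟩)).differentiableAt
      (by simp)
    rw [hr]
    exact hi
  refine (h1.comp h2 d d').congr ?_
  filter_upwards [p1'.openD.mem_nhds ⟨hz1, hk⟩] with z' hz'
  show (P i).Φ ((P j).Ψ z') = (P i).Φ ((P k).Ψ ((P k).Φ ((P j).Ψ z')))
  rw [(P k).right _ ⟨((P j).maps z' hz'.1).1, hz'.2⟩]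

private theorem OrD_inv (P : ∀ i : Fin 4, VPiece C G.X (gi i)) {i j : Fin 4} {s : ℝ}
    (hs : s = 1 ∨ s = -1)
    (h : ∀ w ∈ dom (gi j) N.carrier 20000, (P j).Ψ w ∈ (P i).O →
      Orp N C s (fun z => (P i).Φ ((P j).Ψ z)) w) (z : En 15)
    (hz : z ∈ dom (gi i) N.carrier 20000) (hz' : (P i).Ψ z ∈ (P j).O) :
    Orp N C s (fun z => (P j).Φ ((P i).Ψ z)) z := by
  have hz1 : z ∈ dom (gi i) C.O 20000 := dom_sub C hz
  have hm := (P i).maps z hz1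
  have hw : (P j).Φ ((P i).Ψ z) ∈ dom (gi j) N.carrier 20000 := (P j).mapsΦ _ ⟨hm.1, hz'⟩
  have hwΨ : (P j).Ψ ((P j).Φ ((P i).Ψ z)) = (P i).Ψ z := (P j).right _ ⟨hm.1, hz'⟩
  have hwO : (P j).Ψ ((P j).Φ ((P i).Ψ z)) ∈ (P i).O := by
    rw [hwΨ]
    exact hm.2
  have h2 : Orp N C s (fun z => (P j).Φ ((P i).Ψ z))
      ((P i).Φ ((P j).Ψ ((P j).Φ ((P i).Ψ z)))) :=
    (OrD_pair P j i).inv hs ⟨dom_sub C hw, hwO⟩ (h _ hw hwO)
  have h3 : (P i).Φ ((P j).Ψ ((P j).Φ ((P i).Ψ z))) = z := by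
    rw [hwΨ, (P i).left z hz1]
    exact R_of_N C hz.2
  rw [h3] at h2
  exact h2

private theorem OrD_K1 (G : GFull C l ε) {w : En 15} (hw : w ∈ dom gK C.O 20000)
    (h : p1 w ≠ 0) :
    tK1 C l w ∈ dom (gi 2) N.carrier 20000 ∧ G.c 2 (tK1 C l w) = G.c 1 w := by
  have hrho := (C.io_rho _ hw.2).1
  refine ⟨⟨?_, ?_⟩, ?_⟩
  · show g1 (tK1 C l w) < 20000
    rw [← gW_cH1 l]
    simp only [tK1, p1_j15, p2_j15]
    rw [← k_eq_cH1 l h, gW_k]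
    exact hw.1
  · simp only [tK1, p3_j15]
    exact hrho
  · show GFull.c1 C l (tK1 C l w) = GFull.cK C w
    simp only [GFull.c1, GFull.cK, tK1, p1_j15, p2_j15, p3_j15]
    rw [← k_eq_cH1 l h, (rho_N C hrho).1]

private theorem OrD_K2 (G : GFull C l ε) {w : En 15} (hw : w ∈ dom gK C.O 20000)
    (h : p2 w ≠ 0) :
    tK2 C l w ∈ dom (gi 3) N.carrier 20000 ∧ G.c 3 (tK2 C l w) = G.c 1 w := by
  have hrho := (C.io_rho _ hw.2).1
  refine ⟨⟨?_, ?_⟩, ?_⟩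
  · show g2 (tK2 C l w) < 20000
    rw [← gW_cH2 l]
    simp only [tK2, p1_j15, p2_j15]
    rw [← k_eq_cH2 l h, gW_k]
    exact hw.1
  · simp only [tK2, p3_j15]
    exact hrho
  · show GFull.c2 C l (tK2 C l w) = GFull.cK C w
    simp only [GFull.c2, GFull.cK, tK2, p1_j15, p2_j15, p3_j15]
    rw [← k_eq_cH2 l h, (rho_N C hrho).1]

/-- a source point in the piece `i` -/
private theorem OrD_conv (P : ∀ i : Fin 4, VPiece C G.X (gi i)) (hP : ∀ i, G.IsPc i (P i))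
    {i : Fin 4} {z : En 15} (hz : z ∈ dom gS N.carrier 20000) (h : (P 0).Ψ z ∈ (P i).O) :
    ∃ z' ∈ dom (gi i) N.carrier 20000, G.c i z' = G.cS z := by
  rw [(hP i).O_eq, (hP 0).Ψ_eq] at h
  have h' : ((amb.symm (amb (G.F (G.c 0 z)))).1 i).1 ≠ 0 := h
  rw [ContinuousLinearEquiv.symm_apply_apply] at h'
  exact G.F_conv i 0 hz h'

private theorem OrD_cS {z : En 15} {w : WP} {n : En 7} (h : Sum.inl (w, n) = G.cS z) :
    (z ∈ G.A1 ∪ G.A2 ∧ gW (G.Gw z) < 20000) ∧ w = G.Gw z ∧ n = G.Gn z := by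
  unfold GFull.cS at h
  split_ifs at h with hc
  have h1 := Sum.inl.inj h
  exact ⟨hc, congrArg Prod.fst h1, congrArg Prod.snd h1⟩

private theorem OrD_S1 (hε : ε ≤ 1 / 4) {z : En 15} (hz : z ∈ G.A1)
    (h : gW (G.Gw z) < 20000) : ∀ᶠ w in nhds z,
      G.tS1 w ∈ dom (gi 2) N.carrier 20000 ∧ G.c 2 (G.tS1 w) = G.c 0 w := by
  have hs : 0 < gS z := lt_trans (by norm_num) (G.subA z (Or.inl hz)).1
  have hg0 : 0 < gS (G.G1 z) := by
    have h1 := (G.close1 z hz).1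
    have h2 : 0 < (1 - ε) * gS z := mul_pos (by linarith) hs
    linarith
  have hcont : ContinuousAt (fun w => (gS (G.G1 w))⁻¹) z := by
    have h1 : ContinuousAt G.G1 z := (G.smoothG1.contDiffAt (G.openA1.mem_nhds hz)).continuousAt
    have h2 : ContinuousAt (fun w => gS (G.G1 w)) z := gOk_S.cont.continuousAt.comp h1
    exact h2.inv₀ hg0.ne'
  have hlt : (gS (G.G1 z))⁻¹ < 20000 := by
    rw [← G.gW_Gw_A1 hz]
    exact h
  filter_upwards [G.openA1.mem_nhds hz, hcont.eventually (gt_mem_nhds hlt)] with w hw1 hw2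
  have hN := (G.mapsG1 w hw1).2.1
  have hgw : gW (G.Gw w) < 20000 := by
    rw [G.gW_Gw_A1 hw1]
    exact hw2
  obtain ⟨e1, e2⟩ := G.Gw_A1 hw1
  refine ⟨⟨?_, ?_⟩, ?_⟩
  · show g1 (G.tS1 w) < 20000
    rw [← gW_cH1 l]
    simp only [GFull.tS1, p1_j15, p2_j15]
    rw [← e1]
    exact hgw
  · simp only [GFull.tS1, p3_j15]
    exact hN
  · show GFull.c1 C l (G.tS1 w) = G.cS w
    unfold GFull.cS
    rw [if_pos ⟨Or.inl hw1, hgw⟩, e1, e2]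
    simp only [GFull.c1, GFull.tS1, p1_j15, p2_j15, p3_j15]
    rw [(rho_N C hN).1]

private theorem OrD_S2 (hε : ε ≤ 1 / 4) {z : En 15} (hz : z ∈ G.A2)
    (h : gW (G.Gw z) < 20000) : ∀ᶠ w in nhds z,
      G.tS2 w ∈ dom (gi 3) N.carrier 20000 ∧ G.c 3 (G.tS2 w) = G.c 0 w := by
  have hs : 0 < gS z := lt_trans (by norm_num) (G.subA z (Or.inr hz)).1
  have hg0 : 0 < gS (G.G2 z) := by
    have h1 := (G.close2 z hz).1
    have h2 : 0 < (1 - ε) * gS z := mul_pos (by linarith) hs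
    linarith
  have hcont : ContinuousAt (fun w => (gS (G.G2 w))⁻¹) z := by
    have h1 : ContinuousAt G.G2 z := (G.smoothG2.contDiffAt (G.openA2.mem_nhds hz)).continuousAt
    have h2 : ContinuousAt (fun w => gS (G.G2 w)) z := gOk_S.cont.continuousAt.comp h1
    exact h2.inv₀ hg0.ne'
  have hlt : (gS (G.G2 z))⁻¹ < 20000 := by
    rw [← G.gW_Gw_A2 hz]
    exact h
  filter_upwards [G.openA2.mem_nhds hz, hcont.eventually (gt_mem_nhds hlt)] with w hw1 hw2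
  have hN := (G.mapsG2 w hw1).2.1
  have hgw : gW (G.Gw w) < 20000 := by
    rw [G.gW_Gw_A2 hw1]
    exact hw2
  obtain ⟨e1, e2⟩ := G.Gw_A2 hw1
  refine ⟨⟨?_, ?_⟩, ?_⟩
  · show g2 (G.tS2 w) < 20000
    rw [← gW_cH2 l]
    simp only [GFull.tS2, p1_j15, p2_j15]
    rw [← e1]
    exact hgw
  · simp only [GFull.tS2, p3_j15]
    exact hN
  · show GFull.c2 C l (G.tS2 w) = G.cS w
    unfold GFull.cS
    rw [if_pos ⟨Or.inr hw1, hgw⟩, e1, e2]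
    simp only [GFull.c2, GFull.tS2, p1_j15, p2_j15, p3_j15]
    rw [(rho_N C hN).1]

end

theorem or_all {l ε : ℝ} (hl : 0 < l) (hε : ε ≤ 1 / 4) {N : OrGeo 6 7} {C : Collar N.carrier}
    (hN : IsConnected N.carrier) (G : GFull C l ε) (P : ∀ i : Fin 4, VPiece C G.X (gi i))
    (hP : ∀ i, G.IsPc i (P i)) : ∃ σ : Fin 4 → ℝ, (∀ i, σ i = 1 ∨ σ i = -1) ∧ σ 1 = 1 ∧
      ∀ i j, ∀ z ∈ dom (gi j) N.carrier 20000, (P j).Ψ z ∈ (P i).O →
        Orp N C (σ i * σ j) (fun z => (P i).Φ ((P j).Ψ z)) z := by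
  obtain ⟨σ₁, hσ₁, hK1⟩ := or_K1 hl N C hN
  obtain ⟨σ₂, hσ₂, hK2⟩ := or_K2 hl N C hN
  obtain ⟨σS, hσS, hS1, hS2⟩ := or_S hl hN G hσ₁ hσ₂ hK1 hK2
  have sq1 : ∀ s : ℝ, (s = 1 ∨ s = -1) → s * s = 1 := by
    rintro s (h | h) <;> rw [h] <;> norm_num
  have pm : ∀ s s' : ℝ, (s = 1 ∨ s = -1) → (s' = 1 ∨ s' = -1) → (s * s' = 1 ∨ s * s' = -1) := by
    rintro s s' (h | h) (h' | h') <;> rw [h, h'] <;> norm_num
  have conv : ∀ {s s' : ℝ} {τ : En 15 → En 15} {z : En 15}, Orp N C s τ z → s = s' →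
      Orp N C s' τ z := by
    intro s s' τ z h e
    rw [← e]
    exact h
  have tii : ∀ i : Fin 4, ∀ z ∈ dom (gi i) N.carrier 20000, (P i).Ψ z ∈ (P i).O →
      Orp N C 1 (fun z => (P i).Φ ((P i).Ψ z)) z := by
    intro i z hz _
    refine (Orp.R N C (dom_sub C hz).2).congr ?_
    filter_upwards [(OrD_domo C i).mem_nhds (dom_sub C hz)] with w hw
    exact (P i).left w hw
  have t21 : ∀ z ∈ dom (gi 1) N.carrier 20000, (P 1).Ψ z ∈ (P 2).O →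
      Orp N C σ₁ (fun z => (P 2).Φ ((P 1).Ψ z)) z := by
    intro z hz hO
    have hp : p1 z ≠ 0 := fun h => G.pc_notK1 (hP 1) (hP 2) hz h hO
    refine (hK1 z hp hz.2).congr (OrD_tr P hP ?_)
    filter_upwards [(OrD_domo C 1).mem_nhds (dom_sub C hz),
      (isOpen_ne.preimage continuous_p1).mem_nhds hp] with w hw hw1
    exact OrD_K1 G hw hw1
  have t31 : ∀ z ∈ dom (gi 1) N.carrier 20000, (P 1).Ψ z ∈ (P 3).O →
      Orp N C σ₂ (fun z => (P 3).Φ ((P 1).Ψ z)) z := by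
    intro z hz hO
    have hp : p2 z ≠ 0 := fun h => G.pc_notK2 (hP 1) (hP 3) hz h hO
    refine (hK2 z hp hz.2).congr (OrD_tr P hP ?_)
    filter_upwards [(OrD_domo C 1).mem_nhds (dom_sub C hz),
      (isOpen_ne.preimage continuous_p2).mem_nhds hp] with w hw hw1
    exact OrD_K2 G hw hw1
  have t12 := OrD_inv P hσ₁ t21
  have t13 := OrD_inv P hσ₂ t31
  have t32 : ∀ z ∈ dom (gi 2) N.carrier 20000, (P 2).Ψ z ∈ (P 3).O →
      Orp N C (σ₁ * σ₂) (fun z => (P 3).Φ ((P 2).Ψ z)) z := by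
    intro z hz hO
    have hm := (P 2).maps z (dom_sub C hz)
    have hk : (P 2).Ψ z ∈ (P 1).O := G.pc_inter12 (hP 1) (hP 2) (hP 3) hm.1 hm.2 hO
    refine OrD_comp P hz hO hk (t12 z hz hk) (t31 _ ((P 1).mapsΦ _ ⟨hm.1, hk⟩) ?_)
    rw [(P 1).right _ ⟨hm.1, hk⟩]
    exact hO
  have t23 := OrD_inv P (pm _ _ hσ₁ hσ₂) t32
  have t20 : ∀ z ∈ dom (gi 0) N.carrier 20000, (P 0).Ψ z ∈ (P 2).O →
      Orp N C (σS * σ₁) (fun z => (P 2).Φ ((P 0).Ψ z)) z := by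
    intro z hz hO
    obtain ⟨z', hz', he⟩ := OrD_conv P hP hz hO
    have he' : Sum.inl (cH1 l (p1 z') (p2 z'), C.rho (p3 z')) = G.cS z := he
    obtain ⟨⟨hA, hg⟩, hw, _⟩ := OrD_cS he'
    have hA1 : z ∈ G.A1 := by
      rcases hA with h | h
      · exact h
      · rw [G.interA2 z h]
        intro h0
        rw [(G.Gw_A2 h).1] at hw
        have h1 := co1_cH1 l (p1 z') (p2 z')
        rw [hw, co1_cH2, if_pos (Or.inr h0)] at h1
        exact absurd h1 (by simp)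
    exact (hS1 z hA1 hz.2).congr (OrD_tr P hP (OrD_S1 hε hA1 hg))
  have t30 : ∀ z ∈ dom (gi 0) N.carrier 20000, (P 0).Ψ z ∈ (P 3).O →
      Orp N C (σS * σ₂) (fun z => (P 3).Φ ((P 0).Ψ z)) z := by
    intro z hz hO
    obtain ⟨z', hz', he⟩ := OrD_conv P hP hz hO
    have he' : Sum.inl (cH2 l (p1 z') (p2 z'), C.rho (p3 z')) = G.cS z := he
    obtain ⟨⟨hA, hg⟩, hw, _⟩ := OrD_cS he'
    have hA2 : z ∈ G.A2 := by
      rcases hA with h | h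
      · rw [G.interA z h]
        intro h0
        rw [(G.Gw_A1 h).1] at hw
        have h1 := co2_cH2 l (p1 z') (p2 z')
        rw [hw, co2_cH1, if_pos (Or.inl h0)] at h1
        exact absurd h1 (by simp)
      · exact h
    exact (hS2 z hA2 hz.2).congr (OrD_tr P hP (OrD_S2 hε hA2 hg))
  have t10 : ∀ z ∈ dom (gi 0) N.carrier 20000, (P 0).Ψ z ∈ (P 1).O →
      Orp N C σS (fun z => (P 1).Φ ((P 0).Ψ z)) z := by
    intro z hz hO
    obtain ⟨z', hz', he⟩ := OrD_conv P hP hz hO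
    have he' : Sum.inl (WP.k (p1 z') (p2 z'), C.rho (p3 z')) = G.cS z := he
    obtain ⟨⟨hA, hg⟩, hw, _⟩ := OrD_cS he'
    have hpos := (G.gW_bounds (by linarith) hA).1
    rw [← hw, gW_k] at hpos
    have hp : p1 z' ≠ 0 := by
      intro h0
      unfold gK at hpos
      rw [h0, norm_zero] at hpos
      norm_num at hpos
    have hk : (P 0).Ψ z ∈ (P 2).O := by
      obtain ⟨h1, h2⟩ := OrD_K1 G (dom_sub C hz') hp
      have h3 : (P 0).Ψ z = (P 2).Ψ (tK1 C l z') := by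
        rw [(hP 0).Ψ_eq, (hP 2).Ψ_eq, h2]
        exact congrArg (fun h => amb (G.F h)) he.symm
      rw [h3]
      exact ((P 2).maps _ (dom_sub C h1)).2
    have hm := (P 0).maps z (dom_sub C hz)
    refine conv (OrD_comp P hz hO hk (t20 z hz hk)
      (t12 _ ((P 2).mapsΦ _ ⟨hm.1, hk⟩) ?_)) ?_
    · rw [(P 2).right _ ⟨hm.1, hk⟩]
      exact hO
    · rw [mul_assoc, sq1 _ hσ₁, mul_one]
  have t02 := OrD_inv P (pm _ _ hσS hσ₁) t20
  have t03 := OrD_inv P (pm _ _ hσS hσ₂) t30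
  have t01 := OrD_inv P hσS t10
  refine ⟨![σS, 1, σ₁, σ₂], ?_, rfl, ?_⟩
  · intro i
    fin_cases i
    · exact hσS
    · exact Or.inl rfl
    · exact hσ₁
    · exact hσ₂
  · intro i j z hz hO
    fin_cases i <;> fin_cases j
    · exact conv (tii 0 z hz hO) (sq1 _ hσS).symm
    · exact conv (t01 z hz hO) (mul_one _).symm
    · exact t02 z hz hO
    · exact t03 z hz hO
    · exact conv (t10 z hz hO) (one_mul _).symm
    · exact conv (tii 1 z hz hO) (one_mul _).symm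
    · exact conv (t12 z hz hO) (one_mul _).symm
    · exact conv (t13 z hz hO) (one_mul _).symm
    · exact conv (t20 z hz hO) (mul_comm _ _)
    · exact conv (t21 z hz hO) (mul_one _).symm
    · exact conv (tii 2 z hz hO) (sq1 _ hσ₁).symm
    · exact t23 z hz hO
    · exact conv (t30 z hz hO) (mul_comm _ _)
    · exact conv (t31 z hz hO) (mul_one _).symm
    · exact conv (t32 z hz hO) (mul_comm _ _)
    · exact conv (tii 3 z hz hO) (sq1 _ hσ₂).symm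

end Pool.Agent.EXO
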