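import Mathlib
import Pool.Agent.EXO.OrB
import Pool.Agent.EXO.FmFAd

/-!
# EXO / OrE: a nowhere vanishing 14-form on the closed manifold (part VCL)

`X ⊆ ℝ^M` compact, covered by finitely many pieces `P i`, whose transition maps `Φ_i ∘ Ψ_j` have the orientation sign `σ i * σ j`.
-/

set_option autoImplicit false
set_option maxSynthPendingDepth 3

open Set Filter Topology
open scoped ContDiff Quaternion Manifold

namespace Pool.Agent.EXO

private theorem orE_open {N : OrGeo 6 7} {C : Collar N.carrier} {M : ℕ} {X : Set (En M)}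
    {g : En 15 → ℝ} (P : VPiece C X g) : IsOpen (P.O ∩ P.Φ ⁻¹' {z | p3 z ∈ C.O}) := by
  have h1 : IsOpen {z : En 15 | p3 z ∈ C.O} := C.openO.preimage (contDiff_p3.continuous)
  exact P.smoothΦ.continuousOn.isOpen_inter_preimage P.openO h1

private theorem orE_mem {N : OrGeo 6 7} {C : Collar N.carrier} {M : ℕ} {X : Set (En M)}
    {g : En 15 → ℝ} (P : VPiece C X g) {v : En M} (hv : v ∈ X) (hO : v ∈ P.O) :
    v ∈ P.O ∩ P.Φ ⁻¹' {z | p3 z ∈ C.O} := by
  refine ⟨hO, ?_⟩
  have := (P.mapsΦ v ⟨hv, hO⟩).2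
  exact C.sub this

private theorem orE_smooth {N : OrGeo 6 7} {C : Collar N.carrier} {M : ℕ} {X : Set (En M)}
    {g : En 15 → ℝ} (P : VPiece C X g) :
    ContDiffOn ℝ ∞ (pbF P.Φ (volR N C)) (P.O ∩ P.Φ ⁻¹' {z | p3 z ∈ C.O}) := by
  have h1 : IsOpen {z : En 15 | p3 z ∈ C.O} := C.openO.preimage (contDiff_p3.continuous)
  exact contDiffOn_pbF (orE_open P) h1 (P.smoothΦ.mono inter_subset_left) (volR_smooth N C)
    fun x hx => hx.2

theorem exists_alpha {N : OrGeo 6 7} {C : Collar N.carrier} {M : ℕ} {X : Set (En M)}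
    (hX : IsCompact X) (hg : ∀ i, IsOpen {z : En 15 | gi i z < 20000})
    (P : ∀ i : Fin 4, VPiece C X (gi i)) (hc : ∀ v ∈ X, ∃ i, v ∈ (P i).O) {σ : Fin 4 → ℝ}
    (hσ : ∀ i, σ i = 1 ∨ σ i = -1)
    (h : ∀ i j, ∀ z ∈ dom (gi j) N.carrier 20000, (P j).Ψ z ∈ (P i).O →
        Orp N C (σ i * σ j) (fun z => (P i).Φ ((P j).Ψ z)) z) :
    ∃ α : En M → FA M, ContDiff ℝ ∞ α ∧ (∀ v ∈ X, FReal (α v)) ∧ (∀ v ∈ X, (α v).IsDeg 14) ∧
      ∀ j, ∀ z ∈ dom (gi j) N.carrier 20000,
        ∃ c : ℝ, 0 < σ j * c ∧ pbF (P j).Ψ α z = (c : ℂ) • volR N C z := by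
  classical
  set U : Fin 4 → Set (En M) := fun i => (P i).O ∩ (P i).Φ ⁻¹' {z | p3 z ∈ C.O} with hU
  have hUo : ∀ i, IsOpen (U i) := fun i => orE_open (P i)
  have hXU : X ⊆ ⋃ i, U i := by
    intro v hv
    obtain ⟨i, hi⟩ := hc v hv
    exact mem_iUnion.2 ⟨i, orE_mem (P i) hv hi⟩
  obtain ⟨f, hf⟩ := SmoothPartitionOfUnity.exists_isSubordinate 𝓘(ℝ, En M) hX.isClosed U hUo hXU
  have fsm : ∀ i, ContDiff ℝ ∞ (f i) := fun i => (f i).contMDiff.contDiff
  set t : Fin 4 → En M → FA M := fun i v =>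
    (((σ i * f i v : ℝ)) : ℂ) • pbF (P i).Φ (volR N C) v with ht
  have tsm : ∀ i, ContDiff ℝ ∞ (t i) := by
    intro i
    rw [contDiff_iff_contDiffAt]
    intro v
    by_cases hv : v ∈ U i
    · have h1 : ContDiffAt ℝ ∞ (pbF (P i).Φ (volR N C)) v :=
        (orE_smooth (P i)).contDiffAt ((hUo i).mem_nhds hv)
      have h2 : ContDiffAt ℝ ∞ (fun v => (((σ i * f i v : ℝ)) : ℂ)) v :=
        (Complex.ofRealCLM.contDiff.comp ((fsm i).const_smul (σ i))).contDiffAt
      exact h2.smul h1
    · have h1 : v ∈ (tsupport (f i))ᶜ := fun h' => hv (hf i h')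
      have h2 : t i =ᶠ[𝓝 v] fun _ => 0 := by
        filter_upwards [(isClosed_tsupport _).isOpen_compl.mem_nhds h1] with w hw
        have h3 : f i w = 0 := image_eq_zero_of_notMem_tsupport hw
        simp [ht, h3]
      exact contDiffAt_const.congr_of_eventuallyEq h2
  refine ⟨fun v => ∑ i, t i v, ContDiff.sum fun i _ => tsm i, ?_, ?_, ?_⟩
  · intro v hv I
    have h1 : ∀ i, (starRingEnd ℂ) ((t i v).co I) = (t i v).co I := by
      intro i
      by_cases hvi : v ∈ U i
      · have h2 : FReal (pbF (P i).Φ (volR N C) v) :=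
          FReal.FAMap _ (volR_deg N C hvi.2).2
        have h3 := h2 I
        simp only [ht, FA.co_smul, map_mul, Complex.conj_ofReal, h3]
      · have h1 : v ∉ tsupport (f i) := fun h' => hvi (hf i h')
        have h3 : f i v = 0 := image_eq_zero_of_notMem_tsupport h1
        simp [ht, h3]
    have h2 : ∀ s : Finset (Fin 4), (∑ i ∈ s, t i v).co I = ∑ i ∈ s, (t i v).co I := by
      intro s
      induction s using Finset.induction_on with
      | empty => simp
      | insert a s ha ih => rw [Finset.sum_insert ha, Finset.sum_insert ha, FA.co_add, ih]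
    rw [h2, map_sum]
    exact Finset.sum_congr rfl fun i _ => h1 i
  · intro v hv
    refine isDeg_sum _ fun i _ => ?_
    by_cases hvi : v ∈ U i
    · exact isDeg_smul (isDeg_FAMap (volR_deg N C hvi.2).1 _) _
    · have h1 : v ∉ tsupport (f i) := fun h' => hvi (hf i h')
      have h3 : f i v = 0 := image_eq_zero_of_notMem_tsupport h1
      have h4 : t i v = 0 := by simp [ht, h3]
      rw [h4]
      exact isDeg_zero _
  · intro j z hz
    have hzO : z ∈ dom (gi j) C.O 20000 := ⟨hz.1, C.sub hz.2⟩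
    set v := (P j).Ψ z with hv
    have hvX : v ∈ X := ((P j).maps z hzO).1
    have key : ∀ i, ∃ c : ℝ, 0 ≤ σ j * c ∧ (0 < f i v → 0 < σ j * c) ∧
        FAMap (fderiv ℝ (P j).Ψ z) (t i v) = (c : ℂ) • volR N C z := by
      intro i
      by_cases hvi : v ∈ U i
      · obtain ⟨c, hc1, hc2⟩ := h i j z hz hvi.1
        have dΨ : DifferentiableAt ℝ (P j).Ψ z := by
          have ho : IsOpen (dom (gi j) C.O 20000) :=
            (hg j).inter (C.openO.preimage (contDiff_p3.continuous))
          exact ((P j).smoothΨ.contDiffAt (ho.mem_nhds hzO)).differentiableAt (by simp)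
        have dΦ : DifferentiableAt ℝ (P i).Φ ((P j).Ψ z) :=
          ((P i).smoothΦ.contDiffAt ((P i).openO.mem_nhds hvi.1)).differentiableAt (by simp)
        have h5 : pbF (P j).Ψ (pbF (P i).Φ (volR N C)) z = (c : ℂ) • volR N C z := by
          rw [pbF_comp dΦ dΨ]
          exact hc2
        refine ⟨σ i * f i v * c, ?_, ?_, ?_⟩
        · have : σ j * (σ i * f i v * c) = f i v * (σ i * σ j * c) := by ring
          rw [this]
          exact mul_nonneg (f.nonneg i v) hc1.le
        · intro h6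
          have : σ j * (σ i * f i v * c) = f i v * (σ i * σ j * c) := by ring
          rw [this]
          exact mul_pos h6 hc1
        · have h7 : FAMap (fderiv ℝ (P j).Ψ z) (pbF (P i).Φ (volR N C) v)
              = (c : ℂ) • volR N C z := h5
          simp only [ht]
          rw [FAMap_smul, h7, smul_smul]
          push_cast
          rfl
      · have h1 : v ∉ tsupport (f i) := fun h' => hvi (hf i h')
        have h3 : f i v = 0 := image_eq_zero_of_notMem_tsupport h1
        refine ⟨0, by simp, by simp [h3], ?_⟩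
        have h4 : t i v = (0 : ℂ) • t i v := by simp [ht, h3]
        rw [h4, FAMap_smul]
        simp
    choose c hc1 hc2 hc3 using key
    refine ⟨∑ i, c i, ?_, ?_⟩
    · rw [Finset.mul_sum]
      have h8 : ∑ᶠ i, f i v = 1 := f.sum_eq_one hvX
      have h9 : ∃ i, 0 < f i v := by
        by_contra hcon
        push Not at hcon
        have : ∀ i, f i v = 0 := fun i => le_antisymm (hcon i) (f.nonneg i v)
        simp [this] at h8
      obtain ⟨i, hi⟩ := h9
      exact Finset.sum_pos' (fun k _ => hc1 k) ⟨i, Finset.mem_univ _, hc2 i hi⟩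
    · have h10 : ∀ s : Finset (Fin 4), FAMap (fderiv ℝ (P j).Ψ z) (∑ i ∈ s, t i v)
          = ∑ i ∈ s, FAMap (fderiv ℝ (P j).Ψ z) (t i v) := by
        intro s
        induction s using Finset.induction_on with
        | empty =>
          have h0 : (0 : FA M) = (0 : ℂ) • (0 : FA M) := by simp
          rw [Finset.sum_empty, Finset.sum_empty, h0, FAMap_smul]
          simp
        | insert a s ha ih => rw [Finset.sum_insert ha, Finset.sum_insert ha, FAMap_add, ih]
      change FAMap (fderiv ℝ (P j).Ψ z) (∑ i, t i v) = _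
      rw [h10, Finset.sum_congr rfl fun i _ => hc3 i, ← Finset.sum_smul]
      push_cast
      rfl

end Pool.Agent.EXO
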