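import Mathlib
import Pool.Agent.EXO.OrD
import Pool.Agent.EXO.OrE
import Pool.Agent.EXO.ClS
import Pool.Agent.EXO.GfullOf
import Pool.Agent.EXO.SuGeo
import Pool.Agent.EXO.SuVol
import Pool.Agent.EXO.SuTanC

/-!
# EXO / VFin: the closed manifold (part VCL, final)
-/

set_option autoImplicit false
set_option maxSynthPendingDepth 3

open Set Filter Topology
open scoped ContDiff Quaternion

namespace Pool.Agent.EXO

/-- a piece, with the carrier rewritten -/
private def castPiece {N : Set (En 7)} {C : Collar N} {M : ℕ} {X X' : Set (En M)}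
    {g g' : En 15 → ℝ} (h : X = X') (hg : g = g') (P : VPiece C X g) : VPiece C X' g' where
  Ψ := P.Ψ
  Φ := P.Φ
  O := P.O
  openO := P.openO
  smoothΨ := by subst hg; exact P.smoothΨ
  smoothΦ := P.smoothΦ
  maps := by subst h; subst hg; exact P.maps
  mapsΦ := by subst h; subst hg; exact P.mapsΦ
  right := by subst h; exact P.right
  left := by subst hg; exact P.left

private theorem gi_open (i : Fin 4) : IsOpen {z : En 15 | gi i z < 20000} := by
  have h : Continuous (gi i) := by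
    fin_cases i
    · exact contDiff_gS.continuous
    · exact vc_continuous_gK
    · exact contDiff_g1.continuous
    · exact contDiff_g2.continuous
  exact isOpen_lt h continuous_const

private theorem FAMap_zero' {k m : ℕ} (L : En k →L[ℝ] En m) : FAMap L (0 : FA m) = 0 := by
  have h0 : (0 : FA m) = (0 : ℂ) • (0 : FA m) := by simp
  rw [h0, FAMap_smul]
  simp

/-- From the gluing map to the closed manifold. -/
theorem vcl_main (N : OrGeo 6 7) (C : Collar N.carrier) (hN : IsConnected N.carrier) {l : ℝ}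
    (hl : 0 < l) {δ : ℝ} (hδ : 0 < δ) :
    ∃ ε : ℝ, 0 < ε ∧ ε ≤ 1 / 4 ∧ (Nonempty (GData C l ε) → Nonempty (VData N C l δ)) := by
  obtain ⟨ε, hε0, hε1, hρ⟩ := GFull.exists_eps N.compact hδ C
  refine ⟨ε, hε0, hε1, ?_⟩
  rintro ⟨D⟩
  obtain ⟨G⟩ := gfull_of hl D
  choose P hP using fun i => G.exists_pc hl hε1 hρ i
  have hXc : IsCompact G.X := G.X_compact hl hε1 N.compact hρ
  have hcov : ∀ v ∈ G.X, ∃ i, v ∈ (P i).O := by
    intro v hv
    obtain ⟨i, z, hz, hzv⟩ := mem_iUnion.1 hv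
    refine ⟨i, ?_⟩
    have h1 := ((P i).maps z ⟨hz.1, C.sub hz.2⟩).2
    rw [(hP i).Ψ_eq] at h1
    rw [← hzv]
    exact h1
  obtain ⟨V0, hV0⟩ := closedSub_of_pieces N.toClosedSub C G.X hXc fun v hv => by
    obtain ⟨i, hi⟩ := hcov v hv
    exact ⟨gi i, gi_open i, P i, hi⟩
  obtain ⟨G0, hG0⟩ := IF_geom 14 72 V0
  have hcar : G0.carrier = G.X := by rw [← hV0, ← hG0]
  obtain ⟨σ, hσ, hσ1, hor⟩ := or_all hl hε1 hN G P hP
  obtain ⟨α, hα, hαr, hαd, hαp⟩ := exists_alpha hXc gi_open P hcov hσ hor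
  -- the derivative of a piece is tangential
  have htan : ∀ i, ∀ z ∈ dom (gi i) C.O 20000, DifferentiableAt ℝ (P i).Ψ z ∧
      (G0.P ((P i).Ψ z)).comp (fderiv ℝ (P i).Ψ z) = fderiv ℝ (P i).Ψ z := by
    intro i z hz
    have ho : IsOpen (dom (gi i) C.O 20000) :=
      (gi_open i).inter (C.openO.preimage (contDiff_p3.continuous))
    have hd : DifferentiableAt ℝ (P i).Ψ z :=
      ((P i).smoothΨ.contDiffAt (ho.mem_nhds hz)).differentiableAt (by simp)
    refine ⟨hd, ContinuousLinearMap.ext fun w => ?_⟩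
    refine G0.P_fderiv_of_maps hd ?_ w
    filter_upwards [ho.mem_nhds hz] with y hy
    rw [hcar]
    exact ((P i).maps y hy).1
  have h0 : ∀ x ∈ G0.carrier, FAMap (G0.P x) (α x) ≠ 0 := by
    intro x hx h
    rw [hcar] at hx
    obtain ⟨i, z, hz, hzv⟩ := mem_iUnion.1 hx
    have hzO : z ∈ dom (gi i) C.O 20000 := ⟨hz.1, C.sub hz.2⟩
    have hx' : (P i).Ψ z = x := by rw [(hP i).Ψ_eq]; exact hzv
    obtain ⟨c, hc1, hc2⟩ := hαp i z hz
    have h1 := (htan i z hzO).2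
    rw [hx'] at h1
    have h2 : FAMap (fderiv ℝ (P i).Ψ z) (FAMap (G0.P x) (α x)) = (c : ℂ) • volR N C z := by
      rw [← FAMap_comp, h1, ← hx']
      exact hc2
    rw [h, FAMap_zero'] at h2
    have h3 : c ≠ 0 := by
      rintro rfl
      simp at hc1
    rcases smul_eq_zero.1 h2.symm with h4 | h4
    · exact h3 (by exact_mod_cast h4)
    · exact orA_ne N C hzO.2 h4
  obtain ⟨V, hV, hvol⟩ := IF_vol 14 72 (by norm_num) G0 α hα
    (fun x hx => hαr x (by rw [← hcar]; exact hx)) (fun x hx => hαd x (by rw [← hcar]; exact hx)) h0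
  have hVX : G.X = V.carrier := by rw [hV, hcar]
  have rmem : ∀ i, ∀ z ∈ dom (gi i) N.carrier 20000,
      (amb.symm ((P i).Ψ z)).2.1 ∈ N.carrier := by
    intro i z hz
    by_cases hi : i = 0
    · subst hi
      rw [G.pc_rS hε1 (hP 0) hz]
      exact (G.rs_mem hδ hε1 hρ ⟨hz.1, C.sub hz.2⟩).1
    · rw [G.pc_r hi (hP i) hz]
      exact hz.2
  refine ⟨{
    M := 72
    V := V
    r := fun v => (amb.symm v).2.1
    smooth_r := (contDiff_fst.comp contDiff_snd).comp amb.symm.contDiff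
    r_maps := ?_
    S := castPiece hVX rfl (P 0)
    K := castPiece hVX rfl (P 1)
    H1 := castPiece hVX rfl (P 2)
    H2 := castPiece hVX rfl (P 3)
    trK1 := fun z hz h => G.pc_trK1 (hP 1) (hP 2) hz h
    trK2 := fun z hz h => G.pc_trK2 (hP 1) (hP 3) hz h
    notK1 := fun z hz h => G.pc_notK1 (hP 1) (hP 2) hz h
    notK2 := fun z hz h => G.pc_notK2 (hP 1) (hP 3) hz h
    not1K := fun z hz h => G.pc_not1K (hP 1) (hP 2) hz h
    not2K := fun z hz h => G.pc_not2K (hP 1) (hP 3) hz h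
    inter12 := fun v hv h1 h2 => G.pc_inter12 (hP 1) (hP 2) (hP 3) (by rw [hVX]; exact hv) h1 h2
    rK := fun z hz => G.pc_r (by decide) (hP 1) hz
    r1 := fun z hz => G.pc_r (by decide) (hP 2) hz
    r2 := fun z hz => G.pc_r (by decide) (hP 3) hz
    rS := ?_
    k := fun v => (amb.symm v).2.2
    smooth_k := (contDiff_snd.comp contDiff_snd).comp amb.symm.contDiff
    kK := fun z hz h => G.pc_kK (hP 1) hz h
    k1 := fun z hz h => G.pc_k1 (hP 2) hz h
    k2 := fun z hz h => G.pc_k2 (hP 3) hz h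
    cover := fun v hv => G.cover_X hε1 (hP 0) (hP 1) (hP 2) (hP 3) (by rw [hVX]; exact hv)
    orient := ?_ }⟩
  · intro v hv
    rw [← hVX] at hv
    obtain ⟨i, z, hz, hzv⟩ := mem_iUnion.1 hv
    have h1 := rmem i z hz
    rw [(hP i).Ψ_eq] at h1
    rw [← hzv]
    exact h1
  · intro z hz
    have h1 : (amb.symm ((P 0).Ψ z)).2.1 = G.rs z := G.pc_rS hε1 (hP 0) hz
    have h2 := (G.rs_mem hδ hε1 hρ (z := z) ⟨hz.1, C.sub hz.2⟩).2
    rw [C.rho_fix hz.2] at h2
    change dist (amb.symm ((P 0).Ψ z)).2.1 (p3 z) < δ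
    rw [h1]
    exact h2
  · intro z hz
    have hz' : C.R z ∈ dom (gi 1) N.carrier 20000 := R_dom C 1 hz
    have hz'O : C.R z ∈ dom (gi 1) C.O 20000 := ⟨hz'.1, C.sub hz'.2⟩
    obtain ⟨c2, hc2, hc2'⟩ := hαp 1 (C.R z) hz'
    rw [hσ1, one_mul] at hc2
    have hx : (P 1).Ψ (C.R z) ∈ G0.carrier := by
      rw [hcar]
      exact ((P 1).maps _ hz'O).1
    obtain ⟨c1, hc1, hc1'⟩ := hvol _ hx
    have h1 : pbF (P 1).Ψ V.vol (C.R z) = ((c1⁻¹ * c2 : ℝ) : ℂ) • volR N C (C.R z) := by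
      have h2 : V.vol ((P 1).Ψ (C.R z)) = ((c1⁻¹ : ℝ) : ℂ) •
          FAMap (G0.P ((P 1).Ψ (C.R z))) (α ((P 1).Ψ (C.R z))) := by
        rw [hc1', smul_smul]
        have : ((c1⁻¹ : ℝ) : ℂ) * (c1 : ℂ) = 1 := by
          rw [← Complex.ofReal_mul, inv_mul_cancel₀ hc1.ne', Complex.ofReal_one]
        rw [this, one_smul]
      change FAMap (fderiv ℝ (P 1).Ψ (C.R z)) (V.vol ((P 1).Ψ (C.R z))) = _
      rw [h2, FAMap_smul, ← FAMap_comp, (htan 1 _ hz'O).2]
      have h3 : FAMap (fderiv ℝ (P 1).Ψ (C.R z)) (α ((P 1).Ψ (C.R z)))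
          = (c2 : ℂ) • volR N C (C.R z) := hc2'
      rw [h3, smul_smul]
      push_cast
      rfl
    refine ⟨c1⁻¹ * c2, mul_pos (inv_pos.2 hc1) hc2, ?_⟩
    have ho : IsOpen (dom (gi 1) C.O 20000) :=
      (gi_open 1).inter (C.openO.preimage (contDiff_p3.continuous))
    have he : (P 1).Ψ =ᶠ[𝓝 z] fun y => (P 1).Ψ (C.R y) := by
      filter_upwards [ho.mem_nhds hz] with y hy
      have h4 := (P 1).left y hy
      have h5 := (P 1).right _ ((P 1).maps y hy)
      rw [h4] at h5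
      exact h5.symm
    have hzO : p3 z ∈ C.O := hz.2
    have hRo : IsOpen {z : En 15 | p3 z ∈ C.O} := C.openO.preimage (contDiff_p3.continuous)
    have hRd : DifferentiableAt ℝ C.R z :=
      ((contDiffOn_R C).contDiffAt (hRo.mem_nhds hzO)).differentiableAt (by simp)
    have h6 : pbF (P 1).Ψ V.vol z = pbF C.R (pbF (P 1).Ψ V.vol) z := by
      rw [pbF_comp (htan 1 _ hz'O).1 hRd]
      change FAMap (fderiv ℝ (P 1).Ψ z) (V.vol ((P 1).Ψ z)) = FAMap (fderiv ℝ ((P 1).Ψ ∘ C.R) z) (V.vol ((P 1).Ψ (C.R z)))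
      rw [he.fderiv_eq, he.eq_of_nhds]
      rfl
    have h7 : pbF C.R (pbF (P 1).Ψ V.vol) z = ((c1⁻¹ * c2 : ℝ) : ℂ) • volR N C z := by
      rw [← orA_R N C hzO]
      change FAMap (fderiv ℝ C.R z) (pbF (P 1).Ψ V.vol (C.R z)) = _
      rw [h1, FAMap_smul]
      rfl
    change pbF (P 1).Ψ V.vol z = _
    rw [h6, h7]
    rfl

end Pool.Agent.EXO
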