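import Pool.Agent.EXO.FinA
import Pool.Agent.EXO.VFin
import Pool.Agent.EXO.SurEnd
import Pool.Agent.EXO.ChFalse
import Pool.Agent.EXO.SuGeo
import Pool.Agent.EXO.SuVol
import Pool.Agent.EXO.TopFin

/-!
# EXO, final assembly, part B

From the index theorem `CH.IdxStmt` to the counterexample.
-/

set_option maxSynthPendingDepth 3

open Set MeasureTheory
open scoped ContDiff ENNReal

namespace Pool.Agent.EXO

theorem fin_main (hI : CH.IdxStmt) : _root_.EXO.FinStmt := by
  have hS : CH.SigStmt := fun M V ι _ _ E => IF_sig M V ι E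
  have hT : CH.TopStmt := fun N C hN l hl hl' ι _ _ E hE δ T hT V =>
    IF_top N C hN l hl hl' ι E hE δ T hT V
  obtain ⟨N, C, om, ι, _, _, E, δ, T, hN, hE, hPT, hom, hom', hch, hint⟩ :=
    sur_main (fun V => IF_geom 6 7 V)
      (fun G α h1 h2 h3 h4 => IF_vol 6 7 (by norm_num) G α h1 h2 h3 h4)
  refine _root_.EXO.exo_of_novdata N C hN δ (fun l hl => ?_) (fun l hl hl' W => ?_)
  · obtain ⟨ε, h1, _, h3⟩ := vcl_main N C hN hl hPT.pos
    exact ⟨ε, h1, h3⟩
  · exact CH.exo_false hI hS hT N C hN om ι E δ T hE hPT hom hom' hch hint l hl hl' W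

end Pool.Agent.EXO
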