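import Mathlib
import Pool.Agent.EXO.GLc

/-!
# EXO / GLe: the gluing map is close to `h × id` (part GLU)

`mmJ J κ y` = the point of `ℝ⁷` belonging to the point `y` of the image of `j`.

PROOF.  `mmJ_cont`: on the open set `J1` it is `mm κ ∘ k1`, continuous; on the open set `J2` it is `mm κ ∘ k2` (on `J1 ∩ J2` the two agree: `compat`, `mm_tt14`); `k_i y ∈ cyl d ⊆ {0 < gq}`.
`mmJ_f0`: `w := up z ∈ cyl d`.  If `q2 w ≠ 0`: `f0 (e w) = j1 (h1 w)`, `h1 w` has the same norms and `q3` as `w` (`h1_norm`), so `h1 w ∈ D1 d`, `k1 (j1 (h1 w)) = h1 w`, `mm κ (h1 w) = mm κ w = ioz C z` (`mm_up`).  If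
`q2 w = 0`: then `‖q2 w‖ < ‖q1 w‖/2` (as `gq w > 0`) and `f0 (e w) = j2 (q1 w, twi .. (q2 w), q3 w)`, same norms (`norm_twi`, TwA), `k2 (j2 ..) = ..`; the point lies in `J2`; if it also lies in `J1`, `mmJ` is still `mm κ (k2 ..)`.
`compact_close` (general): `K` compact, `K ⊆ U` open in a metric space, `f` continuous on `U`: for `ε > 0` there is `ε' > 0` such that `y₀ ∈ K`, `dist y y₀ < ε'` imply `y ∈ U`, `dist (f y) (f y₀) < ε` (e.g. by contradiction with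
sequences, or Lebesgue numbers).
`glu_close`: `Z := {z | 10^(-7) ≤ gS z ≤ 10^7, p3 z ∈ N}` is compact, contained in `annO C` (`|log| ≤ 17 < 40`), `K := e (up Z)` compact in `Ω`, `K' := f0 K` compact, contained in `J1 ∪ J2` by `mmJ_f0`.
`ioz C '' Z` is compact in `C.O`; first choose `ε₁` for `(C.sc, C.rho)` on it (`compact_close` with `U = C.O`), then `ε'` for `mmJ` on `K'` and `ε₁`.  For `z` with `p3 z ∈ C.O` replace `z` by `C.R z` (`I.y (C.R z) = I.y z`).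
`I.y z = g (e (up z))`, `f0 (e (up z)) ∈ K'`.
-/

set_option autoImplicit false
set_option maxSynthPendingDepth 3

open Set
open scoped ContDiff Quaternion

namespace Pool.Agent.EXO

/-- The point of `ℝ⁷` belonging to the point `y` of the image of `j`. -/
noncomputable def mmJ {l : ℝ} (J : JData l) (κ : ℝ) (y : En 14) : En 7 :=
  open Classical in if y ∈ J.J1 then mm κ (J.k1 y) else mm κ (J.k2 y)

theorem mmJ_1 {l : ℝ} (J : JData l) (κ : ℝ) {y : En 14} (hy : y ∈ J.J1) :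
    mmJ J κ y = mm κ (J.k1 y) := by
  unfold mmJ
  rw [if_pos hy]

theorem mmJ_2 {l : ℝ} (J : JData l) (κ : ℝ) {y : En 14} (hy : y ∈ J.J2) :
    mmJ J κ y = mm κ (J.k2 y) := by
  by_cases h : y ∈ J.J1
  · rw [mmJ_1 J κ h, J.compat y ⟨h, hy⟩, (mm_tt14 l κ _).1]
  · unfold mmJ
    rw [if_neg h]

private theorem GLe_gq_open : IsOpen {w : En 14 | 0 < gq w} :=
  isOpen_lt continuous_const contDiff_gq.continuous

private theorem GLe_mm_at (κ : ℝ) {w : En 14} (h : 0 < gq w) : ContinuousAt (mm κ) w :=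
  (contDiffOn_mm κ).continuousOn.continuousAt (GLe_gq_open.mem_nhds h)

theorem mmJ_cont {l : ℝ} (J : JData l) (κ : ℝ) : ContinuousOn (mmJ J κ) (J.J1 ∪ J.J2) := by
  intro y hy
  refine ContinuousAt.continuousWithinAt ?_
  rcases hy with hy | hy
  · have h1 : ContinuousAt J.k1 y := J.k1_smooth.continuousOn.continuousAt (J.openJ1.mem_nhds hy)
    have h2 : ContinuousAt (fun y => mm κ (J.k1 y)) y :=
      ContinuousAt.comp (g := mm κ) (f := J.k1) (GLe_mm_at κ (J.k1_maps y hy).1.1.1) h1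
    refine h2.congr ?_
    filter_upwards [J.openJ1.mem_nhds hy] with x hx
    exact (mmJ_1 J κ hx).symm
  · have h1 : ContinuousAt J.k2 y := J.k2_smooth.continuousOn.continuousAt (J.openJ2.mem_nhds hy)
    have h2 : ContinuousAt (fun y => mm κ (J.k2 y)) y :=
      ContinuousAt.comp (g := mm κ) (f := J.k2) (GLe_mm_at κ (J.k2_maps y hy).1.1.1) h1
    refine h2.congr ?_
    filter_upwards [J.openJ2.mem_nhds hy] with x hx
    exact (mmJ_2 J κ hx).symm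

theorem compact_close {X Y : Type*} [MetricSpace X] [MetricSpace Y] {K U : Set X}
    (hK : IsCompact K) (hU : IsOpen U) (hKU : K ⊆ U) {f : X → Y} (hf : ContinuousOn f U) {ε : ℝ}
    (hε : 0 < ε) : ∃ ε' : ℝ, 0 < ε' ∧ ∀ y₀ ∈ K, ∀ y, dist y y₀ < ε' → y ∈ U ∧ dist (f y) (f y₀) < ε := by
  have h1 := hK.uniformContinuousAt_of_continuousAt f
    (fun a ha => hf.continuousAt (hU.mem_nhds (hKU ha))) (Metric.dist_mem_uniformity hε)
  obtain ⟨δ₁, hδ₁, h2⟩ := Metric.mem_uniformity_dist.1 h1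
  obtain ⟨δ₂, hδ₂, h3⟩ := hK.exists_thickening_subset_open hU hKU
  refine ⟨min δ₁ δ₂, lt_min hδ₁ hδ₂, fun y₀ hy₀ y hy => ⟨?_, ?_⟩⟩
  · exact h3 (Metric.mem_thickening_iff.2 ⟨y₀, hy₀, lt_of_lt_of_le hy (min_le_right _ _)⟩)
  · have h4 := h2 (show dist y₀ y < δ₁ by
      rw [dist_comm]; exact lt_of_lt_of_le hy (min_le_left _ _)) hy₀
    rw [dist_comm]
    exact h4

private theorem GLe_cyl {d : ℝ} {w w' : En 14} (h : w ∈ cyl d) (h1 : ‖q1 w'‖ = ‖q1 w‖)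
    (h2 : ‖q2 w'‖ = ‖q2 w‖) (h3 : q3 w' = q3 w) : w' ∈ cyl d ∧ ∀ κ, mm κ w' = mm κ w := by
  have hg : gq w' = gq w := by
    unfold gq
    rw [h1, h2]
  refine ⟨⟨?_, ?_, ?_⟩, fun κ => ?_⟩
  · rw [hg]; exact h.1
  · rw [hg]; exact h.2.1
  · rw [h3]; exact h.2.2
  · unfold mm
    rw [hg, h3]

theorem mmJ_f0 {N : Set (En 7)} {C : Collar N} {l : ℝ} (J : JData l) {κ : ℝ} (hκ : 0 < κ)
    (hκ' : ∀ w ∈ C.O, ∀ i, |κ * w i| < J.d) {z : En 15} (hz : z ∈ annO C) :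
    J.f0 (J.e (up C κ z)) ∈ J.J1 ∪ J.J2 ∧ mmJ J κ (J.f0 (J.e (up C κ z))) = ioz C z := by
  have hw : up C κ z ∈ cyl J.d := up_mem C hκ' hz
  have hmm : mm κ (up C κ z) = ioz C z := mm_up C hκ hz
  rw [← hmm]
  generalize up C κ z = w at hw ⊢
  by_cases h2 : q2 w = 0
  · have hq1 : 0 < ‖q1 w‖ := by
      have h3 := hw.1
      unfold gq at h3
      rw [h2, norm_zero] at h3
      by_contra h4
      have h5 : ‖q1 w‖ = 0 := le_antisymm (not_lt.1 h4) (norm_nonneg _)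
      rw [h5] at h3
      norm_num at h3
    have hD : w ∈ D2 J.d := ⟨hw, by rw [h2, norm_zero]; positivity⟩
    rw [J.f0_e2 w hD]
    have hc := GLe_cyl (w' := j14 (q1 w) (twi l (q1 w) (q2 w)) (q3 w)) hw (by rw [q1_j14])
      (by rw [q2_j14, norm_twi]) (by rw [q3_j14])
    have hD' : j14 (q1 w) (twi l (q1 w) (q2 w)) (q3 w) ∈ D2 J.d := by
      refine ⟨hc.1, ?_⟩
      rw [q1_j14, q2_j14, norm_twi]
      exact hD.2
    have hj := J.j2_maps _ hD'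
    exact ⟨Or.inr hj.1, by rw [mmJ_2 J κ hj.1, hj.2, hc.2 κ]⟩
  · have hD : w ∈ D1 J.d := ⟨hw, h2⟩
    rw [J.f0_e1 w hD]
    obtain ⟨n1, n2, n3⟩ := J.h1_norm w h2
    have hc := GLe_cyl (w' := J.h1 w) hw n1 n2 n3
    have hD' : J.h1 w ∈ D1 J.d := by
      refine ⟨hc.1, ?_⟩
      rw [← norm_ne_zero_iff, n2, norm_ne_zero_iff]
      exact h2
    have hj := J.j1_maps _ hD'
    exact ⟨Or.inl hj.1, by rw [mmJ_1 J κ hj.1, hj.2, hc.2 κ]⟩

/-- the compact set on which `g` is compared with `f0` -/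
noncomputable def cpt15 {N : Set (En 7)} (C : Collar N) {l : ℝ} (J : JData l) (κ : ℝ) :
    Set (En 14) := (fun z => J.e (up C κ z)) '' {z | 1 / 10 ^ 7 ≤ gS z ∧ gS z ≤ 10 ^ 7 ∧ p3 z ∈ N}

private theorem GLe_Z_compact {N : Set (En 7)} (hN : IsCompact N) :
    IsCompact {z : En 15 | 1 / 10 ^ 7 ≤ gS z ∧ gS z ≤ 10 ^ 7 ∧ p3 z ∈ N} := by
  have hcl : IsClosed {z : En 15 | 1 / 10 ^ 7 ≤ gS z ∧ gS z ≤ 10 ^ 7 ∧ p3 z ∈ N} := by
    have h1 : IsClosed {z : En 15 | 1 / 10 ^ 7 ≤ gS z} :=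
      isClosed_le continuous_const gOk_S.cont
    have h2 : IsClosed {z : En 15 | gS z ≤ 10 ^ 7} := isClosed_le gOk_S.cont continuous_const
    have h3 : IsClosed {z : En 15 | p3 z ∈ N} := hN.isClosed.preimage continuous_p3
    exact h1.inter (h2.inter h3)
  have hc : IsCompact ((fun p : En 4 × En 4 × En 7 => j15 p.1 p.2.1 p.2.2) ''
      (Metric.closedBall 0 (10 ^ 4) ×ˢ (Metric.closedBall 0 (10 ^ 4) ×ˢ N))) :=
    ((isCompact_closedBall _ _).prod ((isCompact_closedBall _ _).prod hN)).image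
      contDiff_j15.continuous
  refine hc.of_isClosed_subset hcl ?_
  rintro z ⟨-, h2, h3⟩
  refine ⟨(p1 z, p2 z, p3 z), ⟨?_, ?_, h3⟩, j15_p z⟩
  · rw [mem_closedBall_zero_iff]
    unfold gS at h2
    change ‖p1 z‖ ≤ _
    by_contra h4
    rw [not_le] at h4
    have h5 : (10 ^ 4 : ℝ) ^ 2 < ‖p1 z‖ ^ 2 := pow_lt_pow_left₀ h4 (by norm_num) (by norm_num)
    have h6 := sq_nonneg ‖p2 z‖
    norm_num at h2 h5
    linarith
  · rw [mem_closedBall_zero_iff]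
    unfold gS at h2
    change ‖p2 z‖ ≤ _
    by_contra h4
    rw [not_le] at h4
    have h5 : (10 ^ 4 : ℝ) ^ 2 < ‖p2 z‖ ^ 2 := pow_lt_pow_left₀ h4 (by norm_num) (by norm_num)
    have h6 := sq_nonneg ‖p1 z‖
    norm_num at h2 h5
    linarith

private theorem GLe_exp : (10 : ℝ) ^ 7 < Real.exp 40 := by
  have h1 : (2 : ℝ) < Real.exp 1 := lt_trans (by norm_num) Real.exp_one_gt_d9
  have h2 : Real.exp 40 = Real.exp 1 ^ 40 := by
    rw [← Real.exp_nat_mul]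
    norm_num
  rw [h2]
  calc (10 : ℝ) ^ 7 < 2 ^ 40 := by norm_num
    _ < Real.exp 1 ^ 40 := pow_lt_pow_left₀ h1 (by norm_num) (by norm_num)

private theorem GLe_annO {N : Set (En 7)} (C : Collar N) {z : En 15} (h1 : 1 / 10 ^ 7 ≤ gS z)
    (h2 : gS z ≤ 10 ^ 7) (h3 : p3 z ∈ C.O) : z ∈ annO C := by
  have h0 : 0 < gS z := lt_of_lt_of_le (by norm_num) h1
  refine ⟨h0, abs_lt.2 ⟨?_, ?_⟩, h3⟩
  · rw [Real.lt_log_iff_exp_lt h0, Real.exp_neg]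
    refine lt_of_lt_of_le ?_ h1
    rw [one_div]
    exact inv_strictAnti₀ (by norm_num) GLe_exp
  · rw [Real.log_lt_iff_lt_exp h0]
    exact lt_of_le_of_lt h2 GLe_exp

theorem cpt15_compact {N : Set (En 7)} (hN : IsCompact N) {C : Collar N} {l : ℝ} (J : JData l)
    {κ : ℝ} (hκ' : ∀ w ∈ C.O, ∀ i, |κ * w i| < J.d) :
    IsCompact (cpt15 C J κ) ∧ cpt15 C J κ ⊆ J.Ω := by
  have hsub : ∀ z ∈ {z : En 15 | 1 / 10 ^ 7 ≤ gS z ∧ gS z ≤ 10 ^ 7 ∧ p3 z ∈ N}, z ∈ annO C :=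
    fun z hz => GLe_annO C hz.1 hz.2.1 (C.sub hz.2.2)
  constructor
  · refine (GLe_Z_compact hN).image_of_continuousOn ?_
    have h1 : ContinuousOn (up C κ) (annO C) := (contDiffOn_up C κ).continuousOn
    exact J.e_smooth.continuousOn.comp (h1.mono hsub) fun z hz => up_mem C hκ' (hsub z hz)
  · rintro _ ⟨z, hz, rfl⟩
    exact (J.e_maps _ (up_mem C hκ' (hsub z hz))).1

theorem glu_close {N : Set (En 7)} (hN : IsCompact N) {C : Collar N} {l : ℝ} (J : JData l) {κ : ℝ}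
    (hκ : 0 < κ) (hκ' : ∀ w ∈ C.O, ∀ i, |κ * w i| < J.d) {ε : ℝ} (hε : 0 < ε) :
    ∃ ε' : ℝ, 0 < ε' ∧ ∀ I : GIn C l, I.J = J → I.κ = κ →
      (∀ x ∈ cpt15 C J κ, ‖I.g x - J.f0 x‖ < ε') →
      ∀ z, 1 / 10 ^ 7 ≤ gS z → gS z ≤ 10 ^ 7 → p3 z ∈ C.O →
        I.y z ∈ J.J1 ∪ J.J2 ∧ mmJ J κ (I.y z) ∈ C.O ∧
        |C.sc (mmJ J κ (I.y z)) - Real.log (gS z) / 40| < ε ∧
        dist (C.rho (mmJ J κ (I.y z))) (C.rho (p3 z)) < ε := by
  have hsub : ∀ z ∈ {z : En 15 | 1 / 10 ^ 7 ≤ gS z ∧ gS z ≤ 10 ^ 7 ∧ p3 z ∈ N}, z ∈ annO C :=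
    fun z hz => GLe_annO C hz.1 hz.2.1 (C.sub hz.2.2)
  obtain ⟨hK, hKΩ⟩ := cpt15_compact hN J hκ'
  have hK' : IsCompact (J.f0 '' cpt15 C J κ) := hK.image_of_continuousOn (J.f0_cont.mono hKΩ)
  have hK'U : J.f0 '' cpt15 C J κ ⊆ J.J1 ∪ J.J2 := by
    rintro _ ⟨_, ⟨z, hz, rfl⟩, rfl⟩
    exact (mmJ_f0 J hκ hκ' (hsub z hz)).1
  have hQ : IsCompact (ioz C '' {z : En 15 | 1 / 10 ^ 7 ≤ gS z ∧ gS z ≤ 10 ^ 7 ∧ p3 z ∈ N}) :=
    (GLe_Z_compact hN).image_of_continuousOn ((contDiffOn_ioz C).continuousOn.mono hsub)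
  have hQO : ioz C '' {z : En 15 | 1 / 10 ^ 7 ≤ gS z ∧ gS z ≤ 10 ^ 7 ∧ p3 z ∈ N} ⊆ C.O := by
    rintro _ ⟨z, hz, rfl⟩
    exact (ioz_mem C (hsub z hz)).1
  obtain ⟨ε₁, hε₁, h1⟩ := compact_close hQ C.openO hQO (f := fun w => (C.sc w, C.rho w))
    (C.smooth_sc.continuousOn.prodMk C.smooth_rho.continuousOn) hε
  obtain ⟨ε', hε', h2⟩ := compact_close hK' (J.openJ1.union J.openJ2) hK'U (mmJ_cont J κ) hε₁
  refine ⟨ε', hε', fun I hJ hκI hg z hz1 hz2 hz3 => ?_⟩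
  subst hJ
  subst hκI
  obtain ⟨-, -, r3, rS, -, -, -⟩ := R_comp C z
  have hz' : C.R z ∈ {z : En 15 | 1 / 10 ^ 7 ≤ gS z ∧ gS z ≤ 10 ^ 7 ∧ p3 z ∈ N} := by
    refine ⟨?_, ?_, ?_⟩
    · rw [rS]; exact hz1
    · rw [rS]; exact hz2
    · rw [r3]; exact C.rho_mem hz3
  have hx : I.J.e (up C I.κ (C.R z)) ∈ cpt15 C I.J I.κ := ⟨C.R z, hz', rfl⟩
  have hy : dist (I.y z) (I.J.f0 (I.J.e (up C I.κ (C.R z)))) < ε' := by
    rw [← I.y_R hz3, dist_eq_norm]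
    exact hg _ hx
  obtain ⟨h3, h4⟩ := h2 _ ⟨_, hx, rfl⟩ (I.y z) hy
  rw [(mmJ_f0 I.J hκ hκ' (hsub _ hz')).2] at h4
  obtain ⟨h5, h6⟩ := h1 _ ⟨C.R z, hz', rfl⟩ _ h4
  obtain ⟨-, i2, i3⟩ := ioz_mem C (hsub _ hz')
  simp only [Prod.dist_eq, max_lt_iff] at h6
  rw [i2, i3, rS, r3, C.rho_fix (C.rho_mem hz3)] at h6
  exact ⟨h3, h5, by rw [← Real.dist_eq]; exact h6.1, h6.2⟩

end Pool.Agent.EXO
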