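import Pool.Agent.EXO.TAff

/-!
# EXO, part T, module TCone: the exact cone of a piecewise affine map

`cone φ τ p = τ φ(p/τ)` for `τ > 0`, `= p` for `τ ≤ 0`.

PROOFS.  Hypothesis `hR`: `φ q = q` as soon as some `|q i| ≥ R`.
* `cone_of_large`: if `τ ≤ 0` trivial; `τ > 0`: `q = p/τ` has `|q i| ≥ R`, so `τ φ(q) = τ q = p`.
* `cone_lower`/`cone_upper` (`c‖p-p'‖ ≤ ‖cone φ τ p - cone φ τ p'‖ ≤ C‖p-p'‖`): scaling, `c ≤ 1 ≤ C` for `τ ≤ 0`.
* `cone_sub_le`: `‖cone φ τ p - p‖ = τ‖φ(q) - q‖ ≤ τ B`, where `B` bounds `‖φ q - q‖`.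
* `cone_time`: `‖cone φ τ p - cone φ τ' p‖ ≤ (B + (1 + C) √m R) |τ - τ'|`.  Let `0 < τ' ≤ τ` (if `τ' ≤ 0`: `cone_sub_le`
  and `τ ≤ |τ - τ'|`).  If some `|p i| ≥ R τ` then both values are `p`.  Otherwise all `|p i| < R τ`, `‖p‖ ≤ √m R τ`, and
  with `D q = φ q - q` (`D` is Lipschitz with constant `1 + C`, `‖D‖ ≤ B`)
  `cone φ τ p - cone φ τ' p = τ D(p/τ) - τ' D(p/τ') = (τ - τ') D(p/τ) + τ'(D(p/τ) - D(p/τ'))`, the second
  term is at most `τ' (1+C) ‖p‖ (1/τ' - 1/τ) = (1+C)‖p‖ (τ-τ')/τ ≤ (1+C) √m R (τ - τ')`.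
* `cone_dist`: `‖cone φ τ p - cone ψ τ p‖ ≤ τ ε` if `‖φ - ψ‖ ≤ ε`.
* `cone_affOn`: let `S, P : Eu N → ℝ, Eu m` be (restrictions of) affine maps, `K` with `τ = S ≥ 0` on `K`, and for all `i, j, k` and all
  integers `|k| ≤ k0` (`R ≤ h k0`) the functions `P_i - h k S` and `P_i - P_j - h k S` have a constant sign on `K`, and suppose `φ` is
  `AffOn` on every set `Q` on which all `q_i - hk`, `q_i - q_j - hk` (all integers `k`) have constant sign, and `φ q = q`
  if some `|q i| ≥ R`.  Then `x ↦ cone φ (S x) (P x)` is `AffOn K`.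
  Proof: let `x, y ∈ K`, `w = (1-θ)x+θy`, wlog `0<θ<1`.
  Case A: some `i` with `|P_i| ≥ R S` at all of `x, y` with the same sign (`P_i ≥ R S` at both, or `P_i ≤ -R S` at both): then also at
  `w`, and the map is `P` at `x,y,w` (`cone_of_large`): affine.
  Case B: otherwise.  Claim: `S x > 0` implies `|P_i x| ≤ h k0 S x` for all `i`: if `P_i x > h k0 S x` then `P_i - h k0 S ≥ 0` on
  `K`, so `P_i y ≥ h k0 S y ≥ R S y` and `P_i x ≥ R S x`: case A.  Same for `<`.  (also true if `S x = 0`: `P_i x = 0` for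
  all `i`).  If `S x = S y = 0` then `P x = P y = 0`, everything is `0`.
  If `S x > 0`, `S y = 0`: `P y = 0`, `P w / S w = P x/S x`, `cone` at `w` is `S w φ(P x/S x) = (1-θ) cone(x)`, and `cone(y) = 0`.
  If both `> 0`: `q = P x/S x`, `q' = P y/S y`, `q'' = P w/S w = α q + β q'`, `α = (1-θ) S x/S w`, `β = θ S y/S w`.  The set
  `Q = {q, q'}` satisfies the sign condition for ALL integers `k`: for `|k| ≤ k0` by hypothesis (divide by `S`), for `|k| > k0`:
  `|q_i| ≤ h k0`: `q_i - hk` has the sign of `-k`; `q_i - q_j - hk` for `k0 < |k|`: WARNING `|q_i - q_j| ≤ 2 h k0`, so use the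
  hypothesis for `|k| ≤ 2 k0` and `|q_i - q_j| ≤ 2hk0` beyond.
  So `φ q'' = α φ q + β φ q'`, multiply by `S w`.
-/

namespace EXO

open Set

/-- the cone `τ φ(p/τ)` -/
noncomputable def cone {m : ℕ} (φ : Eu m → Eu m) (τ : ℝ) (p : Eu m) : Eu m :=
  open Classical in if 0 < τ then τ • φ (τ⁻¹ • p) else p

variable {m : ℕ} {φ ψ : Eu m → Eu m} {R B C c ε : ℝ}

theorem cone_pos (φ : Eu m → Eu m) {τ : ℝ} (hτ : 0 < τ) (p : Eu m) :
    cone φ τ p = τ • φ (τ⁻¹ • p) := by
  unfold cone
  rw [if_pos hτ]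

theorem cone_nonpos (φ : Eu m → Eu m) {τ : ℝ} (hτ : τ ≤ 0) (p : Eu m) :
    cone φ τ p = p := by
  unfold cone
  rw [if_neg (not_lt.2 hτ)]

theorem cone_of_large (hR : ∀ q : Eu m, (∃ i, R ≤ |q i|) → φ q = q) (τ : ℝ) (p : Eu m)
    (h : ∃ i, R * τ ≤ |p i|) : cone φ τ p = p := by
  rcases lt_or_ge 0 τ with hτ | hτ
  · rw [cone_pos φ hτ]
    obtain ⟨i, hi⟩ := h
    have h1 : R ≤ |(τ⁻¹ • p) i| := by
      rw [PiLp.smul_apply, smul_eq_mul, abs_mul, abs_of_pos (inv_pos.2 hτ)]
      rw [inv_mul_eq_div, le_div_iff₀ hτ]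
      exact hi
    rw [hR _ ⟨i, h1⟩, smul_smul, mul_inv_cancel₀ hτ.ne', one_smul]
  · exact cone_nonpos φ hτ p

theorem cone_lower (hc : c ≤ 1) (h : ∀ q q' : Eu m, c * ‖q - q'‖ ≤ ‖φ q - φ q'‖) (τ : ℝ)
    (p p' : Eu m) : c * ‖p - p'‖ ≤ ‖cone φ τ p - cone φ τ p'‖ := by
  rcases lt_or_ge 0 τ with hτ | hτ
  · rw [cone_pos φ hτ, cone_pos φ hτ, ← smul_sub, norm_smul, Real.norm_eq_abs, abs_of_pos hτ]
    have h1 := h (τ⁻¹ • p) (τ⁻¹ • p')
    rw [← smul_sub, norm_smul, Real.norm_eq_abs, abs_of_pos (inv_pos.2 hτ)] at h1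
    calc c * ‖p - p'‖ = τ * (c * (τ⁻¹ * ‖p - p'‖)) := by
          field_simp
      _ ≤ τ * ‖φ (τ⁻¹ • p) - φ (τ⁻¹ • p')‖ := mul_le_mul_of_nonneg_left h1 hτ.le
  · rw [cone_nonpos φ hτ, cone_nonpos φ hτ]
    nlinarith [norm_nonneg (p - p')]

theorem cone_upper (hC : 1 ≤ C) (h : ∀ q q' : Eu m, ‖φ q - φ q'‖ ≤ C * ‖q - q'‖) (τ : ℝ)
    (p p' : Eu m) : ‖cone φ τ p - cone φ τ p'‖ ≤ C * ‖p - p'‖ := by
  rcases lt_or_ge 0 τ with hτ | hτ
  · rw [cone_pos φ hτ, cone_pos φ hτ, ← smul_sub, norm_smul, Real.norm_eq_abs, abs_of_pos hτ]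
    have h1 := h (τ⁻¹ • p) (τ⁻¹ • p')
    rw [← smul_sub, norm_smul, Real.norm_eq_abs, abs_of_pos (inv_pos.2 hτ)] at h1
    calc τ * ‖φ (τ⁻¹ • p) - φ (τ⁻¹ • p')‖ ≤ τ * (C * (τ⁻¹ * ‖p - p'‖)) :=
          mul_le_mul_of_nonneg_left h1 hτ.le
      _ = C * ‖p - p'‖ := by field_simp
  · rw [cone_nonpos φ hτ, cone_nonpos φ hτ]
    nlinarith [norm_nonneg (p - p')]

theorem cone_eq_add {τ : ℝ} (hτ : 0 < τ) (p : Eu m) :
    cone φ τ p = p + τ • (φ (τ⁻¹ • p) - τ⁻¹ • p) := by
  rw [cone_pos φ hτ, smul_sub, smul_smul, mul_inv_cancel₀ hτ.ne', one_smul]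
  abel

theorem cone_sub_le (hB : ∀ q : Eu m, ‖φ q - q‖ ≤ B) {τ : ℝ} (hτ : 0 ≤ τ) (p : Eu m) :
    ‖cone φ τ p - p‖ ≤ B * τ := by
  rcases hτ.lt_or_eq with h0 | h0
  · rw [cone_eq_add h0, add_sub_cancel_left, norm_smul, Real.norm_eq_abs, abs_of_pos h0,
      mul_comm B]
    exact mul_le_mul_of_nonneg_left (hB _) h0.le
  · rw [cone_nonpos φ h0.ge, sub_self, norm_zero, ← h0, mul_zero]

private theorem norm_le_of_coord {p : Eu m} {a : ℝ} (ha : 0 ≤ a) (h : ∀ i, |p i| ≤ a) :
    ‖p‖ ≤ Real.sqrt m * a := by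
  rw [EuclideanSpace.norm_eq]
  have h1 : ∑ i, ‖p i‖ ^ 2 ≤ (m : ℝ) * a ^ 2 := by
    calc ∑ i, ‖p i‖ ^ 2 ≤ ∑ _i : Fin m, a ^ 2 := by
          refine Finset.sum_le_sum fun i _ => ?_
          rw [Real.norm_eq_abs]
          exact pow_le_pow_left₀ (abs_nonneg _) (h i) 2
      _ = (m : ℝ) * a ^ 2 := by simp
  calc Real.sqrt (∑ i, ‖p i‖ ^ 2) ≤ Real.sqrt ((m : ℝ) * a ^ 2) := Real.sqrt_le_sqrt h1
    _ = Real.sqrt m * a := by
      rw [Real.sqrt_mul (Nat.cast_nonneg m), Real.sqrt_sq ha]

private theorem cone_time_aux (hR0 : 0 ≤ R) (hC : 0 ≤ C)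
    (hR : ∀ q : Eu m, (∃ i, R ≤ |q i|) → φ q = q)
    (hB : ∀ q : Eu m, ‖φ q - q‖ ≤ B) (h : ∀ q q' : Eu m, ‖φ q - φ q'‖ ≤ C * ‖q - q'‖)
    {τ τ' : ℝ} (hle : τ' ≤ τ) (p : Eu m) :
    ‖cone φ τ p - cone φ τ' p‖ ≤ (B + (1 + C) * Real.sqrt m * R) * (τ - τ') := by
  have hB0 : 0 ≤ B := (norm_nonneg _).trans (hB 0)
  have hK0 : 0 ≤ (1 + C) * Real.sqrt m * R :=
    mul_nonneg (mul_nonneg (by linarith) (Real.sqrt_nonneg _)) hR0
  have hd : 0 ≤ τ - τ' := by linarith
  rcases le_or_gt τ 0 with hτ | hτ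
  · rw [cone_nonpos φ hτ, cone_nonpos φ (hle.trans hτ), sub_self, norm_zero]
    exact mul_nonneg (by linarith) hd
  rcases le_or_gt τ' 0 with hτ' | hτ'
  · rw [cone_nonpos φ hτ']
    have h1 := cone_sub_le hB hτ.le p
    have h2 : B * τ ≤ B * (τ - τ') := mul_le_mul_of_nonneg_left (by linarith) hB0
    nlinarith [mul_nonneg hK0 hd]
  by_cases hbig : ∃ i, R * τ ≤ |p i|
  · obtain ⟨i, hi⟩ := hbig
    rw [cone_of_large hR τ p ⟨i, hi⟩,
      cone_of_large hR τ' p ⟨i, (mul_le_mul_of_nonneg_left hle hR0).trans hi⟩, sub_self,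
      norm_zero]
    exact mul_nonneg (by linarith) hd
  · push Not at hbig
    have hnp : ‖p‖ ≤ Real.sqrt m * (R * τ) :=
      norm_le_of_coord (mul_nonneg hR0 hτ.le) fun i => (hbig i).le
    set q := τ⁻¹ • p with hq
    set q' := τ'⁻¹ • p with hq'
    have hqq : q - q' = (τ⁻¹ - τ'⁻¹) • p := by rw [hq, hq', sub_smul]
    have e1 : cone φ τ p - cone φ τ' p
        = (τ - τ') • (φ q - q) + τ' • ((φ q - φ q') - (q - q')) := by
      rw [cone_eq_add hτ, cone_eq_add hτ', ← hq, ← hq']
      module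
    have h1 : ‖(τ - τ') • (φ q - q)‖ ≤ (τ - τ') * B := by
      rw [norm_smul, Real.norm_eq_abs, abs_of_nonneg hd]
      exact mul_le_mul_of_nonneg_left (hB q) hd
    have h2 : ‖(φ q - φ q') - (q - q')‖ ≤ (1 + C) * ‖q - q'‖ := by
      calc ‖(φ q - φ q') - (q - q')‖ ≤ ‖φ q - φ q'‖ + ‖q - q'‖ := norm_sub_le _ _
        _ ≤ C * ‖q - q'‖ + ‖q - q'‖ := by linarith [h q q']
        _ = (1 + C) * ‖q - q'‖ := by ring
    have h3 : ‖q - q'‖ = (τ - τ') / (τ * τ') * ‖p‖ := by
      rw [hqq, norm_smul, Real.norm_eq_abs]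
      have h4 : τ⁻¹ - τ'⁻¹ = -((τ - τ') / (τ * τ')) := by
        field_simp
        ring
      rw [h4, abs_neg, abs_of_nonneg (div_nonneg hd (mul_pos hτ hτ').le)]
    have h5 : ‖τ' • ((φ q - φ q') - (q - q'))‖ ≤ (1 + C) * Real.sqrt m * R * (τ - τ') := by
      rw [norm_smul, Real.norm_eq_abs, abs_of_pos hτ']
      calc τ' * ‖(φ q - φ q') - (q - q')‖ ≤ τ' * ((1 + C) * ((τ - τ') / (τ * τ') * ‖p‖)) := by
            rw [← h3]
            exact mul_le_mul_of_nonneg_left h2 hτ'.le
        _ ≤ τ' * ((1 + C) * ((τ - τ') / (τ * τ') * (Real.sqrt m * (R * τ)))) := by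
            refine mul_le_mul_of_nonneg_left ?_ hτ'.le
            refine mul_le_mul_of_nonneg_left ?_ (by linarith)
            exact mul_le_mul_of_nonneg_left hnp (div_nonneg hd (mul_pos hτ hτ').le)
        _ = (1 + C) * Real.sqrt m * R * (τ - τ') := by
            field_simp
    rw [e1]
    calc ‖(τ - τ') • (φ q - q) + τ' • ((φ q - φ q') - (q - q'))‖
        ≤ ‖(τ - τ') • (φ q - q)‖ + ‖τ' • ((φ q - φ q') - (q - q'))‖ := norm_add_le _ _
      _ ≤ (τ - τ') * B + (1 + C) * Real.sqrt m * R * (τ - τ') := add_le_add h1 h5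
      _ = (B + (1 + C) * Real.sqrt m * R) * (τ - τ') := by ring

theorem cone_time (hR0 : 0 ≤ R) (hC : 0 ≤ C) (hR : ∀ q : Eu m, (∃ i, R ≤ |q i|) → φ q = q)
    (hB : ∀ q : Eu m, ‖φ q - q‖ ≤ B) (h : ∀ q q' : Eu m, ‖φ q - φ q'‖ ≤ C * ‖q - q'‖)
    (τ τ' : ℝ) (p : Eu m) :
    ‖cone φ τ p - cone φ τ' p‖ ≤ (B + (1 + C) * Real.sqrt m * R) * |τ - τ'| := by
  rcases le_total τ' τ with hle | hle
  · rw [abs_of_nonneg (by linarith)]
    exact cone_time_aux hR0 hC hR hB h hle p
  · rw [abs_sub_comm, abs_of_nonneg (by linarith), norm_sub_rev]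
    exact cone_time_aux hR0 hC hR hB h hle p

theorem cone_dist (h : ∀ q : Eu m, ‖φ q - ψ q‖ ≤ ε) {τ : ℝ} (hτ : 0 ≤ τ) (p : Eu m) :
    ‖cone φ τ p - cone ψ τ p‖ ≤ ε * τ := by
  rcases hτ.lt_or_eq with h0 | h0
  · rw [cone_pos φ h0, cone_pos ψ h0, ← smul_sub, norm_smul, Real.norm_eq_abs, abs_of_pos h0,
      mul_comm ε]
    exact mul_le_mul_of_nonneg_left (h _) h0.le
  · rw [cone_nonpos φ h0.ge, cone_nonpos ψ h0.ge, sub_self, norm_zero, ← h0, mul_zero]

theorem cone_affOn {N : ℕ} (S : Eu N →ᵃ[ℝ] ℝ) (P : Eu N →ᵃ[ℝ] Eu m) (K : Set (Eu N)) {h : ℝ}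
    (hh : 0 < h) (k0 : ℕ) (hk0 : R ≤ h * k0)
    (hS : ∀ x ∈ K, 0 ≤ S x)
    (h1 : ∀ i : Fin m, ∀ k : ℤ, |k| ≤ 2 * k0 →
      (∀ x ∈ K, 0 ≤ P x i - h * k * S x) ∨ (∀ x ∈ K, P x i - h * k * S x ≤ 0))
    (h2 : ∀ i j : Fin m, ∀ k : ℤ, |k| ≤ 2 * k0 →
      (∀ x ∈ K, 0 ≤ P x i - P x j - h * k * S x) ∨ (∀ x ∈ K, P x i - P x j - h * k * S x ≤ 0))
    (hR : ∀ q : Eu m, (∃ i, R ≤ |q i|) → φ q = q)
    (hφ : ∀ Q : Set (Eu m),
      (∀ i : Fin m, ∀ k : ℤ, (∀ x ∈ Q, 0 ≤ x i - h * k) ∨ (∀ x ∈ Q, x i - h * k ≤ 0)) →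
      (∀ i j : Fin m, ∀ k : ℤ,
        (∀ x ∈ Q, 0 ≤ x i - x j - h * k) ∨ (∀ x ∈ Q, x i - x j - h * k ≤ 0)) → AffOn φ Q) :
    AffOn (fun x => cone φ (S x) (P x)) K := by
  intro x hx y hy θ hθ0 hθ1
  have hk00 : (0 : ℝ) ≤ k0 := Nat.cast_nonneg k0
  have hsum : (1 - θ) + θ = 1 := by ring
  have hSw : S ((1 - θ) • x + θ • y) = (1 - θ) * S x + θ * S y := by
    have := Convex.combo_affine_apply (f := S) (x := x) (y := y) hsum
    simpa only [smul_eq_mul] using this
  have hPw : P ((1 - θ) • x + θ • y) = (1 - θ) • P x + θ • P y :=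
    Convex.combo_affine_apply (f := P) (x := x) (y := y) hsum
  have hPwi : ∀ i, P ((1 - θ) • x + θ • y) i = (1 - θ) * P x i + θ * P y i := by
    intro i
    rw [hPw]
    simp
  have hSx := hS x hx
  have hSy := hS y hy
  have hSw0 : 0 ≤ S ((1 - θ) • x + θ • y) := by
    rw [hSw]
    exact add_nonneg (mul_nonneg (by linarith) hSx) (mul_nonneg hθ0 hSy)
  change cone φ (S ((1 - θ) • x + θ • y)) (P ((1 - θ) • x + θ • y))
    = (1 - θ) • cone φ (S x) (P x) + θ • cone φ (S y) (P y)
  -- case A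
  by_cases hA : ∃ i, (R * S x ≤ P x i ∧ R * S y ≤ P y i) ∨ (P x i ≤ -(R * S x) ∧ P y i ≤ -(R * S y))
  · obtain ⟨i, hi⟩ := hA
    have hxl : R * S x ≤ |P x i| := by
      rcases hi with hi | hi
      · exact hi.1.trans (le_abs_self _)
      · exact (by linarith [hi.1] : R * S x ≤ -(P x i)).trans (neg_le_abs _)
    have hyl : R * S y ≤ |P y i| := by
      rcases hi with hi | hi
      · exact hi.2.trans (le_abs_self _)
      · exact (by linarith [hi.2] : R * S y ≤ -(P y i)).trans (neg_le_abs _)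
    have hwl : R * S ((1 - θ) • x + θ • y) ≤ |P ((1 - θ) • x + θ • y) i| := by
      rw [hSw, hPwi]
      rcases hi with hi | hi
      · refine le_trans ?_ (le_abs_self _)
        nlinarith [mul_le_mul_of_nonneg_left hi.1 (by linarith : (0 : ℝ) ≤ 1 - θ),
          mul_le_mul_of_nonneg_left hi.2 hθ0]
      · refine le_trans ?_ (neg_le_abs _)
        nlinarith [mul_le_mul_of_nonneg_left hi.1 (by linarith : (0 : ℝ) ≤ 1 - θ),
          mul_le_mul_of_nonneg_left hi.2 hθ0]
    rw [cone_of_large hR _ _ ⟨i, hxl⟩, cone_of_large hR _ _ ⟨i, hyl⟩,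
      cone_of_large hR _ _ ⟨i, hwl⟩, hPw]
  · push Not at hA
    -- bounds
    have key : ∀ u ∈ K, ∀ u' ∈ K,
        (∀ i, ¬ ((R * S u ≤ P u i ∧ R * S u' ≤ P u' i) ∨
          (P u i ≤ -(R * S u) ∧ P u' i ≤ -(R * S u')))) → ∀ i, |P u i| ≤ h * k0 * S u := by
      intro u hu u' hu' hno i
      have hu0 := hS u hu
      have hu'0 := hS u' hu'
      by_contra hcon
      rw [not_le, lt_abs] at hcon
      rcases hcon with hcon | hcon
      · rcases h1 i (k0 : ℤ) (by rw [abs_of_nonneg (by positivity)]; linarith [(by positivity : (0 : ℤ) ≤ k0)]) with hs | hs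
        · refine hno i (Or.inl ⟨?_, ?_⟩)
          · exact (mul_le_mul_of_nonneg_right hk0 hu0).trans hcon.le
          · have h3 := hs u' hu'
            rw [Int.cast_natCast] at h3
            exact (mul_le_mul_of_nonneg_right hk0 hu'0).trans (by linarith)
        · have h3 := hs u hu
          rw [Int.cast_natCast] at h3
          linarith
      · rcases h1 i (-(k0 : ℤ)) (by rw [abs_neg, abs_of_nonneg (by positivity)]; linarith [(by positivity : (0 : ℤ) ≤ k0)]) with hs | hs
        · have h3 := hs u hu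
          rw [Int.cast_neg, Int.cast_natCast] at h3
          linarith
        · refine hno i (Or.inr ⟨?_, ?_⟩)
          · have := mul_le_mul_of_nonneg_right hk0 hu0
            linarith
          · have h3 := hs u' hu'
            rw [Int.cast_neg, Int.cast_natCast] at h3
            have := mul_le_mul_of_nonneg_right hk0 hu'0
            linarith
    have hno : ∀ i, ¬ ((R * S x ≤ P x i ∧ R * S y ≤ P y i) ∨
          (P x i ≤ -(R * S x) ∧ P y i ≤ -(R * S y))) := by
      intro i hi
      rcases hi with hi | hi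
      · exact absurd hi.2 (not_le.2 ((hA i).1 hi.1))
      · exact absurd hi.2 (not_le.2 ((hA i).2 hi.1))
    have hbx := key x hx y hy hno
    have hby := key y hy x hx (fun i hi => hno i (by
      rcases hi with hi | hi
      · exact Or.inl ⟨hi.2, hi.1⟩
      · exact Or.inr ⟨hi.2, hi.1⟩))
    have hzero : ∀ u, (∀ i, |P u i| ≤ h * k0 * S u) → S u = 0 → P u = 0 := by
      intro u hu h0
      ext i
      have := hu i
      rw [h0, mul_zero] at this
      simpa using this
    rcases hSx.lt_or_eq with hx0 | hx0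
    · rcases hSy.lt_or_eq with hy0 | hy0
      · -- both positive
        have hw0 : 0 < S ((1 - θ) • x + θ • y) := by
          rw [hSw]
          rcases hθ0.lt_or_eq with ht | ht
          · exact add_pos_of_nonneg_of_pos (mul_nonneg (by linarith) hSx) (mul_pos ht hy0)
          · rw [← ht]; simpa using hx0
        set q : Eu m := (S x)⁻¹ • P x with hq
        set q' : Eu m := (S y)⁻¹ • P y with hq'
        have hqi : ∀ i, S x * q i = P x i := by
          intro i
          rw [hq, PiLp.smul_apply, smul_eq_mul, ← mul_assoc, mul_inv_cancel₀ hx0.ne', one_mul]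
        have hqi' : ∀ i, S y * q' i = P y i := by
          intro i
          rw [hq', PiLp.smul_apply, smul_eq_mul, ← mul_assoc, mul_inv_cancel₀ hy0.ne', one_mul]
        have hqb : ∀ i, |q i| ≤ h * k0 := by
          intro i
          have h3 := hbx i
          rw [← hqi i, abs_mul, abs_of_pos hx0] at h3
          nlinarith
        have hqb' : ∀ i, |q' i| ≤ h * k0 := by
          intro i
          have h3 := hby i
          rw [← hqi' i, abs_mul, abs_of_pos hy0] at h3
          nlinarith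
        have hbigk : ∀ k : ℤ, ¬ |k| ≤ 2 * k0 → (2 * (k0 : ℝ) ≤ (k : ℝ)) ∨ ((k : ℝ) ≤ -(2 * (k0 : ℝ))) := by
          intro k hk
          rw [not_le, lt_abs] at hk
          rcases hk with hk | hk
          · left
            exact_mod_cast hk.le
          · right
            have h4 : k ≤ -(2 * (k0 : ℤ)) := by linarith
            exact_mod_cast h4
        have haff : AffOn φ ({q, q'} : Set (Eu m)) := by
          refine hφ _ ?_ ?_
          · intro i k
            by_cases hk : |k| ≤ 2 * k0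
            · rcases h1 i k hk with hs | hs
              · left
                intro u hu
                rcases hu with rfl | hu
                · have h3 := hs x hx
                  rw [← hqi i] at h3
                  nlinarith
                · rw [Set.mem_singleton_iff] at hu
                  subst hu
                  have h3 := hs y hy
                  rw [← hqi' i] at h3
                  nlinarith
              · right
                intro u hu
                rcases hu with rfl | hu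
                · have h3 := hs x hx
                  rw [← hqi i] at h3
                  nlinarith
                · rw [Set.mem_singleton_iff] at hu
                  subst hu
                  have h3 := hs y hy
                  rw [← hqi' i] at h3
                  nlinarith
            · rcases hbigk k hk with hk' | hk'
              · right
                intro u hu
                have hu' : |u i| ≤ h * k0 := by
                  rcases hu with rfl | hu
                  · exact hqb i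
                  · rw [Set.mem_singleton_iff] at hu
                    subst hu
                    exact hqb' i
                have := (abs_le.1 hu').2
                nlinarith
              · left
                intro u hu
                have hu' : |u i| ≤ h * k0 := by
                  rcases hu with rfl | hu
                  · exact hqb i
                  · rw [Set.mem_singleton_iff] at hu
                    subst hu
                    exact hqb' i
                have := (abs_le.1 hu').1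
                nlinarith
          · intro i j k
            by_cases hk : |k| ≤ 2 * k0
            · rcases h2 i j k hk with hs | hs
              · left
                intro u hu
                rcases hu with rfl | hu
                · have h3 := hs x hx
                  rw [← hqi i, ← hqi j] at h3
                  nlinarith
                · rw [Set.mem_singleton_iff] at hu
                  subst hu
                  have h3 := hs y hy
                  rw [← hqi' i, ← hqi' j] at h3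
                  nlinarith
              · right
                intro u hu
                rcases hu with rfl | hu
                · have h3 := hs x hx
                  rw [← hqi i, ← hqi j] at h3
                  nlinarith
                · rw [Set.mem_singleton_iff] at hu
                  subst hu
                  have h3 := hs y hy
                  rw [← hqi' i, ← hqi' j] at h3
                  nlinarith
            · have hub : ∀ u ∈ ({q, q'} : Set (Eu m)), ∀ i, |u i| ≤ h * k0 := by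
                intro u hu i
                rcases hu with rfl | hu
                · exact hqb i
                · rw [Set.mem_singleton_iff] at hu
                  subst hu
                  exact hqb' i
              rcases hbigk k hk with hk' | hk'
              · right
                intro u hu
                have h3 := (abs_le.1 (hub u hu i)).2
                have h4 := (abs_le.1 (hub u hu j)).1
                nlinarith
              · left
                intro u hu
                have h3 := (abs_le.1 (hub u hu i)).1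
                have h4 := (abs_le.1 (hub u hu j)).2
                nlinarith
        set σ := S ((1 - θ) • x + θ • y) with hσ
        set β := θ * S y / σ with hβ
        have hβ1 : 1 - β = (1 - θ) * S x / σ := by
          rw [hβ, eq_div_iff hw0.ne', sub_mul, div_mul_cancel₀ _ hw0.ne', hSw]
          ring
        have hβ0 : 0 ≤ β := div_nonneg (mul_nonneg hθ0 hSy) hw0.le
        have hβle : β ≤ 1 := by
          have : 0 ≤ 1 - β := by
            rw [hβ1]
            exact div_nonneg (mul_nonneg (by linarith) hSx) hw0.le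
          linarith
        have h5 := haff q (Set.mem_insert _ _) q' (Set.mem_insert_of_mem _ rfl) β hβ0 hβle
        have h6 : σ⁻¹ • P ((1 - θ) • x + θ • y) = (1 - β) • q + β • q' := by
          rw [hPw, hβ1, hβ, hq, hq', smul_add, smul_smul, smul_smul, smul_smul, smul_smul]
          have e1 : σ⁻¹ * (1 - θ) = (1 - θ) * S x / σ * (S x)⁻¹ := by
            field_simp
          have e2 : σ⁻¹ * θ = θ * S y / σ * (S y)⁻¹ := by
            field_simp
          rw [e1, e2]
        rw [cone_pos φ hw0, cone_pos φ hx0, cone_pos φ hy0, h6, h5, ← hq, ← hq', smul_add,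
          smul_smul, smul_smul, smul_smul, smul_smul]
        have e1 : σ * (1 - β) = (1 - θ) * S x := by
          rw [hβ1]
          field_simp
        have e2 : σ * β = θ * S y := by
          rw [hβ]
          field_simp
        rw [e1, e2]
      · -- S x > 0, S y = 0
        have hPy : P y = 0 := hzero y hby hy0.symm
        rw [cone_nonpos φ hy0.ge (P y), hPy, smul_zero, add_zero, hPw, hPy, smul_zero, add_zero,
          hSw, ← hy0, mul_zero, add_zero]
        rcases (by linarith : (0 : ℝ) ≤ 1 - θ).lt_or_eq with ht | ht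
        · rw [cone_pos φ (mul_pos ht hx0), cone_pos φ hx0, smul_smul, smul_smul]
          have e1 : ((1 - θ) * S x)⁻¹ * (1 - θ) = (S x)⁻¹ := by
            field_simp
          rw [e1]
        · rw [← ht, zero_mul, zero_smul, zero_smul, cone_nonpos φ le_rfl]
    · have hPx : P x = 0 := hzero x hbx hx0.symm
      rcases hSy.lt_or_eq with hy0 | hy0
      · rw [cone_nonpos φ hx0.ge (P x), hPx, smul_zero, zero_add, hPw, hPx, smul_zero, zero_add,
          hSw, ← hx0, mul_zero, zero_add]
        rcases hθ0.lt_or_eq with ht | ht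
        · rw [cone_pos φ (mul_pos ht hy0), cone_pos φ hy0, smul_smul, smul_smul]
          have e1 : (θ * S y)⁻¹ * θ = (S y)⁻¹ := by
            field_simp
          rw [e1]
        · rw [← ht, zero_mul, zero_smul, zero_smul, cone_nonpos φ le_rfl]
      · rw [cone_nonpos φ hx0.ge (P x), cone_nonpos φ hy0.ge (P y), hPw]
        refine cone_nonpos φ ?_ _
        rw [hSw, ← hx0, ← hy0]
        simp

end EXO
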