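import Pool.Agent.EXO.TKint
import Pool.Agent.EXO.TCone

/-!
# EXO, part T: coordinates of the box and the data needed from GEO

Coordinates of `Eu 14`: `s = x 0`, `p = x 1 … x 6`, `z = x 7 … x 12`, `v = x 13`.
-/

namespace EXO

open Set

/-- indices of the `p` block -/
def isP (i : Fin 14) : Prop := 1 ≤ i.val ∧ i.val ≤ 6

/-- indices of the `z` block -/
def isZ (i : Fin 14) : Prop := 7 ≤ i.val ∧ i.val ≤ 12

instance : DecidablePred isP := fun i => by unfold isP; infer_instance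
instance : DecidablePred isZ := fun i => by unfold isZ; infer_instance

/-- the injection of the `p` block -/
def ιP (j : Fin 6) : Fin 14 := ⟨j.val + 1, by omega⟩

/-- the `p` block of `x` -/
def blk (x : Eu 14) : Eu 6 := pr ιP x

/-- replace the `p` block of `x` by `q` -/
noncomputable def setblk (x : Eu 14) (q : Eu 6) : Eu 14 :=
  WithLp.toLp 2 (fun i => if h : isP i then q ⟨i.val - 1, by unfold isP at h; omega⟩ else x i)

/-- the region `|z_i| ≤ δ` -/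
def zle (δ : ℝ) : Set (Eu 14) := {x | ∀ i, isZ i → |x i| ≤ δ}

/-- the region `|z_i| < δ` -/
def zlt (δ : ℝ) : Set (Eu 14) := {x | ∀ i, isZ i → |x i| < δ}

/-- The data of the smooth part: `F` (the map `f₁` for `s ≤ 2`), `φ` (its value for `s ≥ 7/4`). -/
structure SmoothBox (δ ρ : ℝ) (F : Eu 14 → Eu 14) (φ : Eu 6 → Eu 6) : Prop where
  δ_pos : 0 < δ
  ρ_pos : 0 < ρ
  smooth : ContDiffOn ℝ (⊤ : ℕ∞) F (zlt (3 * δ))
  smoothφ : ContDiff ℝ (⊤ : ℕ∞) φ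
  /-- `F` preserves `s` and `v` -/
  keep_s : ∀ x ∈ zlt (3 * δ), F x 0 = x 0
  keep_v : ∀ x ∈ zlt (3 * δ), F x 13 = x 13
  /-- `F` commutes with translations in `v` -/
  trans_v : ∀ x ∈ zlt (3 * δ), ∀ a : ℝ,
    F (x + EuclideanSpace.single 13 a) = F x + EuclideanSpace.single 13 a
  /-- identity for `s ≤ 0` -/
  id_low : ∀ x ∈ zlt (3 * δ), x 0 ≤ 0 → F x = x
  /-- identity for `p` outside the cube -/
  id_out : ∀ x ∈ zlt (3 * δ), (∃ i, isP i ∧ ρ ≤ |x i|) → F x = x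
  /-- moved points stay in the cube -/
  stay : ∀ x ∈ zlt (3 * δ), F x ≠ x → ∀ i, isP i → |F x i| ≤ ρ
  /-- the product form for `s ≥ 7/4` -/
  high : ∀ x ∈ zlt (3 * δ), 7 / 4 ≤ x 0 → F x = setblk x (φ (blk x))
  inj : InjOn F (zle (2 * δ))
  imm : ∀ x ∈ zle (2 * δ), Function.Injective (fderiv ℝ F x)

/-- the model map: `F` for `s ≤ 2`, the cone `τ φ(p/τ)`, `τ = 3 - s`, for `s ≥ 2` -/
noncomputable def model (F : Eu 14 → Eu 14) (φ : Eu 6 → Eu 6) (x : Eu 14) : Eu 14 :=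
  open Classical in if x 0 ≤ 2 then F x else setblk x (cone φ (3 - x 0) (blk x))

/-- bilipschitz on a set -/
def BiLip {n m : ℕ} (f : Eu n → Eu m) (K : Set (Eu n)) : Prop :=
  ∃ c C : ℝ, 0 < c ∧ ∀ x ∈ K, ∀ y ∈ K, c * ‖x - y‖ ≤ ‖f x - f y‖ ∧ ‖f x - f y‖ ≤ C * ‖x - y‖

/-- `f` is affine (preserves convex combinations) on each subset of `U` on which the functionals of `L`
have constant signs. -/
def Subord {n m : ℕ} (f : Eu n → Eu m) (L : Set (Eu n →ᵃ[ℝ] ℝ)) (U : Set (Eu n)) : Prop :=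
  ∀ K ⊆ U, (∀ ℓ ∈ L, (∀ x ∈ K, 0 ≤ ℓ x) ∨ (∀ x ∈ K, ℓ x ≤ 0)) → AffOn f K

/-- the box in the coordinates `(s,p,z,v)`, thickness `d` in `v`, all `z` -/
def boxU (ρ d : ℝ) : Set (Eu 14) :=
  {x | -1 < x 0 ∧ x 0 < 4 ∧ (∀ i, isP i → |x i| < ρ + 1) ∧ |x 13| < d}

/-- what the piecewise affine approximation of the model achieves -/
structure PAModel (δ ρ : ℝ) (f : Eu 14 → Eu 14) (L : Set (Eu 14 →ᵃ[ℝ] ℝ)) : Prop where
  fin : L.Finite
  sub : Subord f L (zle δ ∩ {x | -1 ≤ x 0 ∧ x 0 ≤ 4 ∧ (∀ i, isP i → |x i| ≤ ρ + 1) ∧ |x 13| ≤ 1})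
  bil : BiLip f (zle δ)
  keep_s : ∀ x ∈ zle δ, f x 0 = x 0
  keep_v : ∀ x ∈ zle δ, f x 13 = x 13
  ident : ∀ x ∈ zle δ, (x 0 ≤ -1/2 ∨ 7/2 ≤ x 0 ∨ ∃ i, isP i ∧ ρ + 1/2 ≤ |x i|) → f x = x
  stay : ∀ x ∈ zle δ, f x ≠ x → ∀ i, isP i → |f x i| ≤ ρ + 1/2

/-- insert a map given in the box coordinates into `Eu 14`, identity elsewhere -/
noncomputable def gl (A : Eu 14 ≃ᵃ[ℝ] Eu 14) (U : Set (Eu 14)) (g : Eu 14 → Eu 14) (y : Eu 14) :
    Eu 14 := open Classical in if A.symm y ∈ U then A (g (A.symm y)) else y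

end EXO
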