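import Pool.Agent.EXO.DefC
import Pool.Agent.EXO.TBoxDefs

/-!
# EXO, part GEO: the explicit smooth isotopy of `φ × id` in the box coordinates

`x, y, z', z''` in `ℝ³ = En 3`; `X^ = (x, z')`, `Y^ = (y, z'')`.  The unit scale `l = 1` of `tha` is used in the box.
-/

set_option maxSynthPendingDepth 3

open scoped ContDiff Quaternion
open Pool.Agent.EXO

namespace EXO

/-- `ℝ³ × ℝ³` -/
abbrev PP := En 3 × En 3
/-- `(X^, Y^) = ((x, z'), (y, z''))` -/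
abbrev QQ := PP × PP
/-- endomorphisms of `ℝ³ × ℝ³` -/
abbrev MM := PP →L[ℝ] PP

/-- `w = a⁻¹ b⁻¹ a b`, `a = θ x`, `b = θ y` -/
noncomputable def wq (x y : En 3) : ℍ[ℝ] :=
  star (tha 1 x) * star (tha 1 y) * tha 1 x * tha 1 y

/-- `φ(x,y) = (Ad(w) x, Ad(w) y)` -/
noncomputable def phiE (p : PP) : PP := (Adq (wq p.1 p.2) p.1, Adq (wq p.1 p.2) p.2)

/-- the inverse of `φ` -/
noncomputable def phiI (p : PP) : PP :=
  (Adq (star (wq p.1 p.2)) p.1, Adq (star (wq p.1 p.2)) p.2)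

/-- `diag(Ad a, Ad b)` -/
noncomputable def dgq (a b : ℍ[ℝ]) : MM := (Adq a).prodMap (Adq b)

/-- the rotation `(u,v) ↦ (cos(πσ/2) u - sin(πσ/2) v, sin(πσ/2) u + cos(πσ/2) v)` -/
noncomputable def rotP (σ : ℝ) : MM :=
  (Real.cos (Real.pi * σ / 2) • ContinuousLinearMap.fst ℝ (En 3) (En 3)
      - Real.sin (Real.pi * σ / 2) • ContinuousLinearMap.snd ℝ (En 3) (En 3)).prod
  (Real.sin (Real.pi * σ / 2) • ContinuousLinearMap.fst ℝ (En 3) (En 3)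
      + Real.cos (Real.pi * σ / 2) • ContinuousLinearMap.snd ℝ (En 3) (En 3))

/-- `K_σ(q) = diag(Ad q, 1) ρ_σ diag(Ad q⁻¹, 1) ρ_σ⁻¹` (for unit `q`) -/
noncomputable def KK (σ : ℝ) (q : ℍ[ℝ]) : MM :=
  dgq q 1 * rotP σ * dgq (star q) 1 * rotP (-σ)

/-- the inverse of `K_σ(q)` -/
noncomputable def KKi (σ : ℝ) (q : ℍ[ℝ]) : MM :=
  rotP σ * dgq q 1 * rotP (-σ) * dgq (star q) 1

/-- cut-off: `1` for `t ≤ 1/64`, `0` for `t ≥ 1/16` -/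
noncomputable def kc (t : ℝ) : ℝ := 1 - stp (64 / 3 * (t - 1 / 64))

/-- `F_1(X^,Y^) = (X^, A^(X^) Y^)` and its inverse, and `F_2(X^,Y^) = (A^(Y^) X^, Y^)` and its inverse -/
noncomputable def F1 (σ : ℝ) (q : QQ) : QQ :=
  (q.1, KK (σ * kc (‖q.1.2‖ ^ 2)) (tha 1 q.1.1) q.2)
noncomputable def F1i (σ : ℝ) (q : QQ) : QQ :=
  (q.1, KKi (σ * kc (‖q.1.2‖ ^ 2)) (tha 1 q.1.1) q.2)
noncomputable def F2 (σ : ℝ) (q : QQ) : QQ :=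
  (KK (σ * kc (‖q.2.2‖ ^ 2)) (tha 1 q.2.1) q.1, q.2)
noncomputable def F2i (σ : ℝ) (q : QQ) : QQ :=
  (KKi (σ * kc (‖q.2.2‖ ^ 2)) (tha 1 q.2.1) q.1, q.2)

/-- `Φ_σ = F_2 F_1 F_2⁻¹ F_1⁻¹`, `0 ≤ σ ≤ 1` -/
noncomputable def PhiA (σ : ℝ) (q : QQ) : QQ := F2 σ (F1 σ (F2i σ (F1i σ q)))
/-- the inverse of `PhiA` -/
noncomputable def PhiAi (σ : ℝ) (q : QQ) : QQ := F1 σ (F2 σ (F1i σ (F2i σ q)))

/-- the word `a⁻¹ b⁻¹ a b⁻¹ a⁻¹ b b a` -/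
def wordA {G : Type*} [Monoid G] (a ai b bi : G) : G := ai * bi * a * bi * ai * b * b * a
/-- its inverse -/
def wordAi {G : Type*} [Monoid G] (a ai b bi : G) : G := ai * bi * bi * a * b * ai * b * a
/-- the word `a⁻¹ b⁻¹ a⁻¹ b a a` -/
def wordB {G : Type*} [Monoid G] (a ai b bi : G) : G := ai * bi * ai * b * a * a
/-- its inverse -/
def wordBi {G : Type*} [Monoid G] (a ai b bi : G) : G := ai * ai * bi * a * b * a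

/-- `R_σ(x,y) ∈ SO(6)`, `0 ≤ σ ≤ 1` (the time `s = 1 + σ` of the text) -/
noncomputable def RR (σ : ℝ) (a b : ℍ[ℝ]) : MM :=
  wordA (dgq a 1) (dgq (star a) 1) (rotP σ * dgq b 1 * rotP (-σ)) (rotP σ * dgq (star b) 1 * rotP (-σ)) *
  wordB (dgq 1 a) (dgq 1 (star a)) (rotP σ * dgq 1 b * rotP (-σ)) (rotP σ * dgq 1 (star b) * rotP (-σ))
/-- the inverse of `RR` -/
noncomputable def RRi (σ : ℝ) (a b : ℍ[ℝ]) : MM :=
  wordBi (dgq 1 a) (dgq 1 (star a)) (rotP σ * dgq 1 b * rotP (-σ)) (rotP σ * dgq 1 (star b) * rotP (-σ)) *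
  wordAi (dgq a 1) (dgq (star a) 1) (rotP σ * dgq b 1 * rotP (-σ)) (rotP σ * dgq (star b) 1 * rotP (-σ))

/-- `Φ_{1+σ}(p, z) = (φ(p), R_σ(p) z)` -/
noncomputable def PhiB (σ : ℝ) (q : QQ) : QQ :=
  (((phiE (q.1.1, q.2.1)).1, (RR σ (tha 1 q.1.1) (tha 1 q.2.1) (q.1.2, q.2.2)).1),
   ((phiE (q.1.1, q.2.1)).2, (RR σ (tha 1 q.1.1) (tha 1 q.2.1) (q.1.2, q.2.2)).2))
/-- the inverse of `PhiB` -/
noncomputable def PhiBi (σ : ℝ) (q : QQ) : QQ :=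
  (((phiI (q.1.1, q.2.1)).1,
      (RRi σ (tha 1 (phiI (q.1.1, q.2.1)).1) (tha 1 (phiI (q.1.1, q.2.1)).2) (q.1.2, q.2.2)).1),
   ((phiI (q.1.1, q.2.1)).2,
      (RRi σ (tha 1 (phiI (q.1.1, q.2.1)).1) (tha 1 (phiI (q.1.1, q.2.1)).2) (q.1.2, q.2.2)).2))

/-- the coordinates `((x,z'),(y,z''))` of a point `(s,x,y,z',z'',v)` of `ℝ^14` -/
noncomputable def toQ (x : Eu 14) : QQ :=
  ((!₂[x 1, x 2, x 3], !₂[x 7, x 8, x 9]), (!₂[x 4, x 5, x 6], !₂[x 10, x 11, x 12]))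

/-- the point with the coordinates `s`, `v`, `((x,z'),(y,z''))` -/
noncomputable def ofQ (s v : ℝ) (q : QQ) : Eu 14 :=
  !₂[s, q.1.1 0, q.1.1 1, q.1.1 2, q.2.1 0, q.2.1 1, q.2.1 2,
    q.1.2 0, q.1.2 1, q.1.2 2, q.2.2 0, q.2.2 1, q.2.2 2, v]

/-- time functions: `0` for `s ≤ 1/4`, `1` for `s ≥ 3/4`; `0` for `s ≤ 5/4`, `1` for `s ≥ 3/2` -/
noncomputable def sg1 (s : ℝ) : ℝ := stp (2 * (s - 1 / 4))
noncomputable def sg2 (s : ℝ) : ℝ := stp (4 * (s - 5 / 4))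

/-- the map `F` of the box (`f₁` for `s ≤ 2`) -/
noncomputable def Fbox (x : Eu 14) : Eu 14 :=
  open Classical in
  if x 0 ≤ 1 then ofQ (x 0) (x 13) (PhiA (sg1 (x 0)) (toQ x))
  else ofQ (x 0) (x 13) (PhiB (sg2 (x 0)) (toQ x))

/-- `ℝ⁶ ≃ ℝ³ × ℝ³` -/
noncomputable def to6 (q : Eu 6) : PP := (!₂[q 0, q 1, q 2], !₂[q 3, q 4, q 5])
noncomputable def of6 (p : PP) : Eu 6 := !₂[p.1 0, p.1 1, p.1 2, p.2 0, p.2 1, p.2 2]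

/-- `φ` on `ℝ⁶` -/
noncomputable def phibox (q : Eu 6) : Eu 6 := of6 (phiE (to6 q))

end EXO
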