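import Pool.Agent.EXO.GbAd

/-!
# EXO, GEO, module GbRot: the rotations `K_σ(q)` of `ℝ³ × ℝ³`

PROOFS.  `dgq_mul`: `Adq_mul` in both components.  `rotP_add`: addition theorems, applied to `(u,v)`, both components (`ext`).
`rotP_zero`.  `rotP_one_conj`: `rotP 1 (u,v) = (-v, u)`, `rotP (-1) (u,v) = (v, -u)`, so
`rotP 1 * dgq a b * rotP (-1) = dgq b a`.  `KK_zero`: `dgq q 1 * dgq (star q) 1 = dgq (q * star q) 1 = 1`.
`KK_one`: `KK 1 q = dgq q 1 * (rotP 1 * dgq (star q) 1 * rotP (-1)) = dgq q 1 * dgq 1 (star q) = dgq q (star q)`.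
`KK_mul_KKi`: `D R D⁻ R⁻ · R D R⁻ D⁻ = 1` using `R⁻ R = 1` (`rotP_add`, `rotP_zero`), `D⁻ D = 1`.
`KK_eq_one`: for `q = 1` or `q = -1`, `dgq q 1 = 1` (`Adq_one`, `Adq_neg_one`), `star q = q`.
`nn_*`: `nn X = ‖X.1‖² + ‖X.2‖²`: for `dgq` by `norm_Adq`; for `rotP σ`: expand `‖c u - s v‖² + ‖s u + c v‖² = (c²+s²)(‖u‖²+‖v‖²)`
(`norm_sub_sq_real`, `norm_add_sq_real`, inner products cancel).  Smoothness: `rotP` is a combination of constant maps with smooth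
coefficients, `dgq` from `contDiff_Adq` (`prodMap` is continuous linear in each argument: use
`ContinuousLinearMap.prodMap` = `(A ∘ fst).prod (B ∘ snd)`, `ContinuousLinearMap.prodMapL` if available, or
`contDiff_clm_apply_iff` (finite-dimensional domain)), products in the normed ring `MM` (`ContDiff.mul` or `.clm_comp`).
-/

set_option maxSynthPendingDepth 3

open scoped ContDiff Quaternion
open Pool.Agent.EXO

namespace EXO

/-- `‖u‖² + ‖v‖²` -/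
noncomputable def nn (X : PP) : ℝ := ‖X.1‖ ^ 2 + ‖X.2‖ ^ 2

theorem dgq_mul (a b c d : ℍ[ℝ]) : dgq a b * dgq c d = dgq (a * c) (b * d) := by
  unfold dgq
  rw [Adq_mul, Adq_mul]
  rfl

theorem dgq_one : dgq 1 1 = 1 := by
  unfold dgq
  rw [Adq_one]
  rfl

private theorem GbRot_apply (σ : ℝ) (X : PP) : rotP σ X =
    (Real.cos (Real.pi * σ / 2) • X.1 - Real.sin (Real.pi * σ / 2) • X.2,
      Real.sin (Real.pi * σ / 2) • X.1 + Real.cos (Real.pi * σ / 2) • X.2) := rfl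

private theorem GbRot_dapply (a b : ℍ[ℝ]) (X : PP) : dgq a b X = (Adq a X.1, Adq b X.2) := rfl

theorem rotP_add (σ τ : ℝ) : rotP σ * rotP τ = rotP (σ + τ) := by
  refine ContinuousLinearMap.ext fun X => ?_
  rw [mul_apply_eq_comp, GbRot_apply, GbRot_apply, GbRot_apply]
  have h : Real.pi * (σ + τ) / 2 = Real.pi * σ / 2 + Real.pi * τ / 2 := by ring
  rw [h, Real.cos_add, Real.sin_add]
  refine Prod.ext ?_ ?_
  · show Real.cos (Real.pi * σ / 2) • (Real.cos (Real.pi * τ / 2) • X.1 -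
      Real.sin (Real.pi * τ / 2) • X.2) - Real.sin (Real.pi * σ / 2) •
        (Real.sin (Real.pi * τ / 2) • X.1 + Real.cos (Real.pi * τ / 2) • X.2) = _
    module
  · show Real.sin (Real.pi * σ / 2) • (Real.cos (Real.pi * τ / 2) • X.1 -
      Real.sin (Real.pi * τ / 2) • X.2) + Real.cos (Real.pi * σ / 2) •
        (Real.sin (Real.pi * τ / 2) • X.1 + Real.cos (Real.pi * τ / 2) • X.2) = _
    module

theorem rotP_zero : rotP 0 = 1 := by
  refine ContinuousLinearMap.ext fun X => ?_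
  rw [GbRot_apply, mul_zero, zero_div, Real.cos_zero, Real.sin_zero]
  refine Prod.ext ?_ ?_
  · show (1 : ℝ) • X.1 - (0 : ℝ) • X.2 = X.1
    module
  · show (0 : ℝ) • X.1 + (1 : ℝ) • X.2 = X.2
    module

theorem rotP_one_conj (a b : ℍ[ℝ]) : rotP 1 * dgq a b * rotP (-1) = dgq b a := by
  refine ContinuousLinearMap.ext fun X => ?_
  rw [mul_apply_eq_comp, mul_apply_eq_comp, GbRot_apply (-1),
    GbRot_dapply, GbRot_apply 1, GbRot_dapply]
  have h1 : Real.pi * 1 / 2 = Real.pi / 2 := by ring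
  have h2 : Real.pi * (-1) / 2 = -(Real.pi / 2) := by ring
  rw [h1, h2, Real.cos_neg, Real.sin_neg, Real.cos_pi_div_two, Real.sin_pi_div_two]
  refine Prod.ext ?_ ?_
  · show (0 : ℝ) • Adq a ((0 : ℝ) • X.1 - (-1 : ℝ) • X.2) -
      (1 : ℝ) • Adq b ((-1 : ℝ) • X.1 + (0 : ℝ) • X.2) = Adq b X.1
    rw [map_add, map_smul, map_smul]
    module
  · show (1 : ℝ) • Adq a ((0 : ℝ) • X.1 - (-1 : ℝ) • X.2) +
      (0 : ℝ) • Adq b ((-1 : ℝ) • X.1 + (0 : ℝ) • X.2) = Adq a X.2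
    rw [map_sub, map_smul, map_smul]
    module

private theorem GbRot_star {q : ℍ[ℝ]} (hq : ‖q‖ = 1) :
    dgq q 1 * dgq (star q) 1 = 1 ∧ dgq (star q) 1 * dgq q 1 = 1 := by
  obtain ⟨h1, h2⟩ := star_mul_of_norm hq
  rw [dgq_mul, dgq_mul, h1, h2, mul_one, dgq_one]
  exact ⟨rfl, rfl⟩

private theorem GbRot_inv (σ : ℝ) : rotP σ * rotP (-σ) = 1 ∧ rotP (-σ) * rotP σ = 1 := by
  rw [rotP_add, rotP_add, add_neg_cancel, neg_add_cancel, rotP_zero]
  exact ⟨rfl, rfl⟩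

theorem KK_zero {q : ℍ[ℝ]} (hq : ‖q‖ = 1) : KK 0 q = 1 ∧ KKi 0 q = 1 := by
  obtain ⟨h1, -⟩ := GbRot_star hq
  unfold KK KKi
  rw [neg_zero, rotP_zero]
  simp only [mul_one, one_mul]
  exact ⟨h1, h1⟩

theorem KK_one (q : ℍ[ℝ]) : KK 1 q = dgq q (star q) := by
  unfold KK
  rw [mul_assoc, mul_assoc, ← mul_assoc (rotP 1), rotP_one_conj, dgq_mul, mul_one, one_mul]

theorem KKi_one (q : ℍ[ℝ]) : KKi 1 q = dgq (star q) q := by
  unfold KKi
  rw [rotP_one_conj, dgq_mul, mul_one, one_mul]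

private theorem GbRot_monoid {G : Type*} [Monoid G] {D D' R R' : G} (h1 : D * D' = 1)
    (h2 : D' * D = 1) (h3 : R * R' = 1) (h4 : R' * R = 1) :
    D * R * D' * R' * (R * D * R' * D') = 1 ∧ R * D * R' * D' * (D * R * D' * R') = 1 := by
  constructor
  · calc D * R * D' * R' * (R * D * R' * D') = D * R * D' * (R' * R) * D * R' * D' := by
          simp only [mul_assoc]
      _ = D * R * (D' * D) * R' * D' := by rw [h4, mul_one]; simp only [mul_assoc]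
      _ = D * (R * R') * D' := by rw [h2, mul_one]; simp only [mul_assoc]
      _ = 1 := by rw [h3, mul_one, h1]
  · calc R * D * R' * D' * (D * R * D' * R') = R * D * R' * (D' * D) * R * D' * R' := by
          simp only [mul_assoc]
      _ = R * D * (R' * R) * D' * R' := by rw [h2, mul_one]; simp only [mul_assoc]
      _ = R * (D * D') * R' := by rw [h4, mul_one]; simp only [mul_assoc]
      _ = 1 := by rw [h1, mul_one, h3]

theorem KK_mul_KKi (σ : ℝ) {q : ℍ[ℝ]} (hq : ‖q‖ = 1) : KK σ q * KKi σ q = 1 ∧ KKi σ q * KK σ q = 1 := by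
  obtain ⟨h1, h2⟩ := GbRot_star hq
  obtain ⟨h3, h4⟩ := GbRot_inv σ
  exact GbRot_monoid h1 h2 h3 h4

theorem KK_eq_one (σ : ℝ) {q : ℍ[ℝ]} (hq : q = 1 ∨ q = -1) : KK σ q = 1 ∧ KKi σ q = 1 := by
  have h1 : dgq q 1 = 1 ∧ dgq (star q) 1 = 1 := by
    rcases hq with h | h
    · rw [h, star_one, dgq_one]
      exact ⟨rfl, rfl⟩
    · have h2 : dgq (-1) 1 = 1 := by
        unfold dgq
        rw [Adq_neg_one, Adq_one]
        rfl
      rw [h, star_neg, star_one, h2]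
      exact ⟨rfl, rfl⟩
  obtain ⟨h3, h4⟩ := GbRot_inv σ
  unfold KK KKi
  rw [h1.1, h1.2]
  simp only [mul_one, one_mul]
  exact ⟨h3, h3⟩

theorem nn_dgq {a b : ℍ[ℝ]} (ha : ‖a‖ = 1) (hb : ‖b‖ = 1) (X : PP) : nn (dgq a b X) = nn X := by
  rw [GbRot_dapply]
  unfold nn
  rw [norm_Adq ha, norm_Adq hb]

theorem nn_rotP (σ : ℝ) (X : PP) : nn (rotP σ X) = nn X := by
  rw [GbRot_apply]
  unfold nn
  show ‖Real.cos (Real.pi * σ / 2) • X.1 - Real.sin (Real.pi * σ / 2) • X.2‖ ^ 2 +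
    ‖Real.sin (Real.pi * σ / 2) • X.1 + Real.cos (Real.pi * σ / 2) • X.2‖ ^ 2 = _
  rw [norm_sub_sq_real, norm_add_sq_real]
  simp only [inner_smul_left, inner_smul_right, norm_smul, mul_pow, Real.norm_eq_abs, sq_abs]
  have h := Real.sin_sq_add_cos_sq (Real.pi * σ / 2)
  simp only [conj_trivial]
  linear_combination (‖X.1‖ ^ 2 + ‖X.2‖ ^ 2) * h

theorem nn_KK (σ : ℝ) {q : ℍ[ℝ]} (hq : ‖q‖ = 1) (X : PP) : nn (KK σ q X) = nn X ∧ nn (KKi σ q X) = nn X := by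
  have hs : ‖star q‖ = 1 := by rw [norm_star, hq]
  have h1 : ‖(1 : ℍ[ℝ])‖ = 1 := norm_one
  unfold KK KKi
  simp only [mul_apply_eq_comp]
  rw [nn_dgq hq h1, nn_rotP, nn_dgq hs h1, nn_rotP, nn_rotP, nn_dgq hq h1, nn_rotP, nn_dgq hs h1]
  exact ⟨rfl, rfl⟩

theorem contDiff_rotP : ContDiff ℝ ∞ rotP := by
  rw [contDiff_clm_apply_iff]
  intro X
  simp only [GbRot_apply]
  fun_prop

theorem contDiff_dgq : ContDiff ℝ ∞ (fun p : ℍ[ℝ] × ℍ[ℝ] => dgq p.1 p.2) := by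
  rw [contDiff_clm_apply_iff]
  intro X
  simp only [GbRot_dapply]
  exact ((contDiff_Adq.comp contDiff_fst).clm_apply contDiff_const).prodMk
    ((contDiff_Adq.comp contDiff_snd).clm_apply contDiff_const)

private noncomputable def GbRot_starL : ℍ[ℝ] →L[ℝ] ℍ[ℝ] :=
  LinearMap.toContinuousLinearMap
    { toFun := fun q => star q
      map_add' := fun u v => star_add u v
      map_smul' := by
        intro c u
        apply Quaternion.ext <;> simp }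

private theorem GbRot_star_smooth : ContDiff ℝ ∞ (fun q : ℍ[ℝ] => star q) :=
  GbRot_starL.contDiff

private theorem GbRot_d1 : ContDiff ℝ ∞ (fun p : ℝ × ℍ[ℝ] => dgq p.2 1) := by
  rw [contDiff_clm_apply_iff]
  intro X
  simp only [GbRot_dapply]
  have h1 : ContDiff ℝ ∞ (fun p : ℝ × ℍ[ℝ] => Adq p.2) := contDiff_Adq.comp contDiff_snd
  have h2 : ContDiff ℝ ∞ (fun p : ℝ × ℍ[ℝ] => Adq p.2 X.1) := h1.clm_apply contDiff_const
  have h3 : ContDiff ℝ ∞ (fun _ : ℝ × ℍ[ℝ] => Adq 1 X.2) := contDiff_const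
  exact h2.prodMk h3

private theorem GbRot_d2 : ContDiff ℝ ∞ (fun p : ℝ × ℍ[ℝ] => dgq (star p.2) 1) := by
  rw [contDiff_clm_apply_iff]
  intro X
  simp only [GbRot_dapply]
  have h0 : ContDiff ℝ ∞ (fun p : ℝ × ℍ[ℝ] => star p.2) := GbRot_star_smooth.comp contDiff_snd
  have h1 : ContDiff ℝ ∞ (fun p : ℝ × ℍ[ℝ] => Adq (star p.2)) := contDiff_Adq.comp h0
  have h2 : ContDiff ℝ ∞ (fun p : ℝ × ℍ[ℝ] => Adq (star p.2) X.1) := h1.clm_apply contDiff_const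
  have h3 : ContDiff ℝ ∞ (fun _ : ℝ × ℍ[ℝ] => Adq 1 X.2) := contDiff_const
  exact h2.prodMk h3

private theorem GbRot_r1 : ContDiff ℝ ∞ (fun p : ℝ × ℍ[ℝ] => rotP p.1) :=
  contDiff_rotP.comp contDiff_fst

private theorem GbRot_r2 : ContDiff ℝ ∞ (fun p : ℝ × ℍ[ℝ] => rotP (-p.1)) :=
  contDiff_rotP.comp contDiff_fst.neg

theorem contDiff_KK : ContDiff ℝ ∞ (fun p : ℝ × ℍ[ℝ] => KK p.1 p.2) := by
  exact ((GbRot_d1.mul GbRot_r1).mul GbRot_d2).mul GbRot_r2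

theorem contDiff_KKi : ContDiff ℝ ∞ (fun p : ℝ × ℍ[ℝ] => KKi p.1 p.2) := by
  exact ((GbRot_r1.mul GbRot_d1).mul GbRot_r2).mul GbRot_d2

end EXO
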