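import Pool.Agent.EXO.GbRot
import Pool.Agent.EXO.GbPhi

/-!
# EXO, GEO, module GbWa: the commutator isotopy `PhiA`

PROOFS.  `F1 σ`, `F1i σ` are mutually inverse (`KK_mul_KKi`, `norm_tha`, the first component `X^` is fixed), same for `F2`.  Hence
`PhiAi_PhiA`, `PhiA_PhiAi`.
`PhiA_zero`: `σ = 0`: `KK 0 = 1`.
`nn`: `F1, F1i` fix `X^` and preserve `nn Y^` (`nn_KK`), `F2, F2i` vice versa; so `nn (PhiA σ q).1 = nn q.1` etc.
`PhiA_out`: claim: `KK (σ * kc ‖z'‖²) (θ x) = 1` if `nn (x,z') ≥ 1/4`: if `‖x‖ ≥ 3/8` then `θ x = 1` (`tha_out`, `l = 1`); otherwise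
`‖z'‖² ≥ 1/4 - 9/64 = 7/64 ≥ 1/16`, `kc = 0` (`stp = 1`: `64/3 (1/16 - 1/64) = 1`), `KK 0 = 1`.  If `nn q.1 ≥ 1/4`, then `F1, F1i` act as
the identity on every point with the same `nn` of the first component, and `F2, F2i` preserve `nn` of the first component: so
`PhiA σ q = F2 σ (F2i σ q) = q`.  If `nn q.2 ≥ 1/4` then `F2, F2i` are the identity along the word: `F1 (F1i q) = q`.
`PhiA_one`: let `‖z'‖², ‖z''‖² ≤ 1/64`: `kc = 1` (`stp = 0`).  `a = θ x`, `b = θ y` (norm one).  `F1i`: `Y₁ = (Ad(ā) y, Ad(a) z'')` (`KKi_one`).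
`θ(y₁) = ā b a =: b₁` (`tha_Adq`), `‖z''₁‖ = ‖z''‖`.  `F2i`: `X₁ = (Ad(b̄₁) x, Ad(b₁) z')`, `θ(x₁) = b̄₁ a b₁ =: a₁`.
`F1`: `Y₂ = (Ad(a₁) y₁, Ad(ā₁) z''₁)`, `θ(y₂) = a₁ b₁ ā₁ =: b₂`.  `F2`: `X₂ = (Ad(b₂) x₁, Ad(b̄₂) z'₁)`.
So `y₂ = Ad(a₁ ā) y`, `a₁ ā = w`; `x₂ = Ad(b₂ b̄₁) x`, `b₂ b̄₁ = w`; `z''₂ = Ad(ā₁ a) z''`, `ā₁ a = ā b̄ ā b a a` (= `wordB`);
`z'₂ = Ad(b̄₂ b₁) z'`, `b̄₂ b₁ = ā b̄ a b̄ ā b b a` (= `wordA`), using `a ā = ā a = 1`, `b b̄ = 1` (group identities: all follow by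
inserting the definitions; one may argue in the group of units of `ℍ` or with `Adq` on the level of isometries).
And `RR 0 a b = wordA (dgq a 1) (dgq ā 1) (dgq b 1) (dgq b̄ 1) * wordB (dgq 1 a) ... = dgq (wordA a ā b b̄) (wordB a ā b b̄)`
(`rotP_zero`, `dgq_mul`).
Smoothness of `(σ, q) ↦ PhiA σ q`, `PhiAi σ q`: compositions of `contDiff_KK` with `contDiff_tha`, `stp` smooth, `‖·‖²` smooth.
-/

set_option maxSynthPendingDepth 3

open scoped ContDiff Quaternion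
open Pool.Agent.EXO

namespace EXO

private theorem GbWa_KK (t : ℝ) (x : En 3) (X : PP) :
    KK t (tha 1 x) (KKi t (tha 1 x) X) = X ∧ KKi t (tha 1 x) (KK t (tha 1 x) X) = X := by
  obtain ⟨h1, h2⟩ := KK_mul_KKi t (norm_tha one_pos x)
  constructor
  · show (KK t (tha 1 x) * KKi t (tha 1 x)) X = X
    rw [h1]; rfl
  · show (KKi t (tha 1 x) * KK t (tha 1 x)) X = X
    rw [h2]; rfl

private theorem GbWa_F1F1i (σ : ℝ) (q : QQ) : F1 σ (F1i σ q) = q :=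
  Prod.ext rfl (GbWa_KK _ _ _).1

private theorem GbWa_F1iF1 (σ : ℝ) (q : QQ) : F1i σ (F1 σ q) = q :=
  Prod.ext rfl (GbWa_KK _ _ _).2

private theorem GbWa_F2F2i (σ : ℝ) (q : QQ) : F2 σ (F2i σ q) = q :=
  Prod.ext (GbWa_KK _ _ _).1 rfl

private theorem GbWa_F2iF2 (σ : ℝ) (q : QQ) : F2i σ (F2 σ q) = q :=
  Prod.ext (GbWa_KK _ _ _).2 rfl

theorem PhiAi_PhiA (σ : ℝ) (q : QQ) : PhiAi σ (PhiA σ q) = q := by
  unfold PhiAi PhiA
  rw [GbWa_F2iF2, GbWa_F1iF1, GbWa_F2F2i, GbWa_F1F1i]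

theorem PhiA_PhiAi (σ : ℝ) (q : QQ) : PhiA σ (PhiAi σ q) = q := by
  unfold PhiAi PhiA
  rw [GbWa_F1iF1, GbWa_F2iF2, GbWa_F1F1i, GbWa_F2F2i]

theorem PhiA_zero (q : QQ) : PhiA 0 q = q := by
  have h (x : En 3) := KK_zero (norm_tha one_pos x)
  have e1 : ∀ p : QQ, F1 0 p = p := fun p => by
    unfold F1; rw [zero_mul, (h _).1]; rfl
  have e2 : ∀ p : QQ, F1i 0 p = p := fun p => by
    unfold F1i; rw [zero_mul, (h _).2]; rfl
  have e3 : ∀ p : QQ, F2 0 p = p := fun p => by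
    unfold F2; rw [zero_mul, (h _).1]; rfl
  have e4 : ∀ p : QQ, F2i 0 p = p := fun p => by
    unfold F2i; rw [zero_mul, (h _).2]; rfl
  unfold PhiA
  rw [e2, e4, e1, e3]

private theorem GbWa_nn1 (σ : ℝ) (q : QQ) :
    nn (F1 σ q).1 = nn q.1 ∧ nn (F1 σ q).2 = nn q.2 :=
  ⟨rfl, (nn_KK _ (norm_tha one_pos _) _).1⟩

private theorem GbWa_nn1i (σ : ℝ) (q : QQ) :
    nn (F1i σ q).1 = nn q.1 ∧ nn (F1i σ q).2 = nn q.2 :=
  ⟨rfl, (nn_KK _ (norm_tha one_pos _) _).2⟩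

private theorem GbWa_nn2 (σ : ℝ) (q : QQ) :
    nn (F2 σ q).1 = nn q.1 ∧ nn (F2 σ q).2 = nn q.2 :=
  ⟨(nn_KK _ (norm_tha one_pos _) _).1, rfl⟩

private theorem GbWa_nn2i (σ : ℝ) (q : QQ) :
    nn (F2i σ q).1 = nn q.1 ∧ nn (F2i σ q).2 = nn q.2 :=
  ⟨(nn_KK _ (norm_tha one_pos _) _).2, rfl⟩

theorem nn_PhiA (σ : ℝ) (q : QQ) : nn (PhiA σ q).1 = nn q.1 ∧ nn (PhiA σ q).2 = nn q.2 := by
  unfold PhiA
  rw [(GbWa_nn2 _ _).1, (GbWa_nn2 _ _).2, (GbWa_nn1 _ _).1, (GbWa_nn1 _ _).2,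
    (GbWa_nn2i _ _).1, (GbWa_nn2i _ _).2, (GbWa_nn1i _ _).1, (GbWa_nn1i _ _).2]
  exact ⟨rfl, rfl⟩

private theorem GbWa_triv (σ : ℝ) (X : PP) (h : 1 / 4 ≤ nn X) :
    KK (σ * kc (‖X.2‖ ^ 2)) (tha 1 X.1) = 1 ∧ KKi (σ * kc (‖X.2‖ ^ 2)) (tha 1 X.1) = 1 := by
  rcases le_total (3 / 8) ‖X.1‖ with h1 | h1
  · exact KK_eq_one _ (Or.inl (tha_out one_pos (by linarith)))
  · have h2 : ‖X.1‖ ^ 2 ≤ (3 / 8) ^ 2 := pow_le_pow_left₀ (norm_nonneg _) h1 2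
    have h3 : (1 : ℝ) ≤ 64 / 3 * (‖X.2‖ ^ 2 - 1 / 64) := by
      unfold nn at h
      linarith
    have h4 : kc (‖X.2‖ ^ 2) = 0 := by
      rw [kc, stp, Real.smoothTransition.one_of_one_le h3, sub_self]
    rw [h4, mul_zero]
    exact KK_zero (norm_tha one_pos _)

private theorem GbWa_o1 (σ : ℝ) (q : QQ) (h : 1 / 4 ≤ nn q.1) : F1 σ q = q ∧ F1i σ q = q := by
  unfold F1 F1i
  rw [(GbWa_triv σ q.1 h).1, (GbWa_triv σ q.1 h).2]
  exact ⟨rfl, rfl⟩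

private theorem GbWa_o2 (σ : ℝ) (q : QQ) (h : 1 / 4 ≤ nn q.2) : F2 σ q = q ∧ F2i σ q = q := by
  unfold F2 F2i
  rw [(GbWa_triv σ q.2 h).1, (GbWa_triv σ q.2 h).2]
  exact ⟨rfl, rfl⟩

theorem PhiA_out (σ : ℝ) (q : QQ) (h : 1 / 4 ≤ nn q.1 ∨ 1 / 4 ≤ nn q.2) : PhiA σ q = q := by
  unfold PhiA
  rcases h with h | h
  · rw [(GbWa_o1 σ q h).2, (GbWa_o1 σ (F2i σ q) ((GbWa_nn2i σ q).1.symm ▸ h)).1, GbWa_F2F2i]
  · have h1 : 1 / 4 ≤ nn (F1i σ q).2 := (GbWa_nn1i σ q).2.symm ▸ h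
    rw [(GbWa_o2 σ _ h1).2, GbWa_F1F1i, (GbWa_o2 σ q h).1]

private theorem GbWa_kc {t : ℝ} (h : t ≤ 1 / 64) : kc t = 1 := by
  have h1 : 64 / 3 * (t - 1 / 64) ≤ 0 := by linarith
  rw [kc, stp, Real.smoothTransition.zero_of_nonpos h1, sub_zero]

private theorem GbWa_v1 (q : QQ) (h : ‖q.1.2‖ ^ 2 ≤ 1 / 64) :
    F1 1 q = (q.1, (Adq (tha 1 q.1.1) q.2.1, Adq (star (tha 1 q.1.1)) q.2.2)) := by
  unfold F1; rw [GbWa_kc h, mul_one, KK_one]; rfl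

private theorem GbWa_v1i (q : QQ) (h : ‖q.1.2‖ ^ 2 ≤ 1 / 64) :
    F1i 1 q = (q.1, (Adq (star (tha 1 q.1.1)) q.2.1, Adq (tha 1 q.1.1) q.2.2)) := by
  unfold F1i; rw [GbWa_kc h, mul_one, KKi_one]; rfl

private theorem GbWa_v2 (q : QQ) (h : ‖q.2.2‖ ^ 2 ≤ 1 / 64) :
    F2 1 q = ((Adq (tha 1 q.2.1) q.1.1, Adq (star (tha 1 q.2.1)) q.1.2), q.2) := by
  unfold F2; rw [GbWa_kc h, mul_one, KK_one]; rfl

private theorem GbWa_v2i (q : QQ) (h : ‖q.2.2‖ ^ 2 ≤ 1 / 64) :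
    F2i 1 q = ((Adq (star (tha 1 q.2.1)) q.1.1, Adq (tha 1 q.2.1) q.1.2), q.2) := by
  unfold F2i; rw [GbWa_kc h, mul_one, KKi_one]; rfl

private theorem GbWa_RR0 (a b : ℍ[ℝ]) :
    RR 0 a b = dgq (wordA a (star a) b (star b)) (wordB a (star a) b (star b)) := by
  unfold RR
  simp only [neg_zero, rotP_zero, one_mul, mul_one, wordA, wordB, dgq_mul]

private theorem GbWa_Ad (a b : ℍ[ℝ]) (v : En 3) : Adq a (Adq b v) = Adq (a * b) v := by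
  rw [Adq_mul]; rfl

theorem PhiA_one (q : QQ) (h1 : ‖q.1.2‖ ^ 2 ≤ 1 / 64) (h2 : ‖q.2.2‖ ^ 2 ≤ 1 / 64) :
    PhiA 1 q = PhiB 0 q := by
  obtain ⟨⟨x, z⟩, ⟨y, w⟩⟩ := q
  have h1' : ‖z‖ ^ 2 ≤ 1 / 64 := h1
  have h2' : ‖w‖ ^ 2 ≤ 1 / 64 := h2
  obtain ⟨a, ha⟩ : ∃ a, a = tha 1 x := ⟨_, rfl⟩
  obtain ⟨b, hb⟩ : ∃ b, b = tha 1 y := ⟨_, rfl⟩
  have na : ‖a‖ = 1 := by rw [ha]; exact norm_tha one_pos x
  have nb : ‖b‖ = 1 := by rw [hb]; exact norm_tha one_pos y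
  have na' : ‖star a‖ = 1 := by rw [Quaternion.norm_star, na]
  obtain ⟨a1, a2⟩ := star_mul_of_norm na
  obtain ⟨b1, b2⟩ := star_mul_of_norm nb
  have c2 : ∀ x, a * (star a * x) = x := fun x => by rw [← mul_assoc, a2, one_mul]
  have c4 : ∀ x, b * (star b * x) = x := fun x => by rw [← mul_assoc, b2, one_mul]
  have e1 : F1i 1 ((x, z), (y, w)) = ((x, z), (Adq (star a) y, Adq a w)) := by
    rw [GbWa_v1i _ h1, ha]
  have t1 : tha 1 (Adq (star a) y) = star a * b * a := by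
    rw [tha_Adq one_pos na', star_star, hb]
  have n1 : ‖star a * b * a‖ = 1 := by rw [norm_mul, norm_mul, na', nb, na, one_mul, one_mul]
  have n1' : ‖star (star a * b * a)‖ = 1 := by rw [Quaternion.norm_star, n1]
  have e2 : F2i 1 ((x, z), (Adq (star a) y, Adq a w)) =
      ((Adq (star (star a * b * a)) x, Adq (star a * b * a) z), (Adq (star a) y, Adq a w)) := by
    have h : ‖(((x, z), (Adq (star a) y, Adq a w)) : QQ).2.2‖ ^ 2 ≤ 1 / 64 := by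
      show ‖Adq a w‖ ^ 2 ≤ 1 / 64
      rw [norm_Adq na]; exact h2'
    rw [GbWa_v2i _ h]
    show ((Adq (star (tha 1 (Adq (star a) y))) x, Adq (tha 1 (Adq (star a) y)) z), _) = _
    rw [t1]
  have t2 : tha 1 (Adq (star (star a * b * a)) x) =
      star (star a * b * a) * a * (star a * b * a) := by
    rw [tha_Adq one_pos n1', star_star, ha]
  have n2 : ‖star (star a * b * a) * a * (star a * b * a)‖ = 1 := by
    rw [norm_mul, norm_mul, n1', n1, na, one_mul, one_mul]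
  obtain ⟨g, hg⟩ : ∃ g, g = star (star a * b * a) * a * (star a * b * a) := ⟨_, rfl⟩
  have e3 : F1 1 ((Adq (star (star a * b * a)) x, Adq (star a * b * a) z),
        (Adq (star a) y, Adq a w)) =
      ((Adq (star (star a * b * a)) x, Adq (star a * b * a) z),
        (Adq g (Adq (star a) y), Adq (star g) (Adq a w))) := by
    have h : ‖(((Adq (star (star a * b * a)) x, Adq (star a * b * a) z),
        (Adq (star a) y, Adq a w)) : QQ).1.2‖ ^ 2 ≤ 1 / 64 := by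
      show ‖Adq (star a * b * a) z‖ ^ 2 ≤ 1 / 64
      rw [norm_Adq n1]; exact h1'
    rw [GbWa_v1 _ h]
    show (_, (Adq (tha 1 (Adq (star (star a * b * a)) x)) _,
      Adq (star (tha 1 (Adq (star (star a * b * a)) x))) _)) = _
    rw [t2, ← hg]
  have t3 : tha 1 (Adq g (Adq (star a) y)) = g * (star a * b * a) * star g := by
    rw [tha_Adq one_pos (by rw [hg]; exact n2), t1]
  have e4 : F2 1 ((Adq (star (star a * b * a)) x, Adq (star a * b * a) z),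
        (Adq g (Adq (star a) y), Adq (star g) (Adq a w))) =
      ((Adq (g * (star a * b * a) * star g) (Adq (star (star a * b * a)) x),
        Adq (star (g * (star a * b * a) * star g)) (Adq (star a * b * a) z)),
        (Adq g (Adq (star a) y), Adq (star g) (Adq a w))) := by
    have h : ‖(((Adq (star (star a * b * a)) x, Adq (star a * b * a) z),
        (Adq g (Adq (star a) y), Adq (star g) (Adq a w))) : QQ).2.2‖ ^ 2 ≤ 1 / 64 := by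
      show ‖Adq (star g) (Adq a w)‖ ^ 2 ≤ 1 / 64
      rw [norm_Adq (by rw [Quaternion.norm_star, hg]; exact n2), norm_Adq na]; exact h2'
    rw [GbWa_v2 _ h]
    show ((Adq (tha 1 (Adq g (Adq (star a) y))) _,
      Adq (star (tha 1 (Adq g (Adq (star a) y)))) _), _) = _
    rw [t3]
  have w1 : g * (star a * b * a) * star g * star (star a * b * a) = star a * star b * a * b := by
    rw [hg]
    simp only [star_mul, star_star, mul_assoc, c2, c4, a1, mul_one]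
  have w2 : g * star a = star a * star b * a * b := by
    rw [hg]
    simp only [star_mul, star_star, mul_assoc, c2, a2, mul_one]
  have w3 : star (g * (star a * b * a) * star g) * (star a * b * a) =
      wordA a (star a) b (star b) := by
    rw [hg]
    simp only [star_mul, star_star, mul_assoc, c2, c4, wordA]
  have w4 : star g * a = wordB a (star a) b (star b) := by
    rw [hg]
    simp only [star_mul, star_star, mul_assoc, c2, wordB]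
  have hw : wq x y = star a * star b * a * b := by rw [ha, hb]; rfl
  unfold PhiA
  rw [e1, e2, e3, e4]
  simp only [GbWa_Ad, w1, w2, w3, w4]
  unfold PhiB
  rw [GbWa_RR0]
  unfold phiE
  simp only [hw, ← ha, ← hb]
  rfl

private theorem GbWa_cdkc : ContDiff ℝ ∞ kc := by
  unfold kc stp
  fun_prop

section smooth

variable {X : Type*} [NormedAddCommGroup X] [NormedSpace ℝ X] {s : X → ℝ} {Q : X → QQ}

private theorem GbWa_arg {x z : X → En 3} (hs : ContDiff ℝ ∞ s) (hx : ContDiff ℝ ∞ x)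
    (hz : ContDiff ℝ ∞ z) :
    ContDiff ℝ ∞ (fun p => (s p * kc (‖z p‖ ^ 2), tha 1 (x p))) :=
  (hs.mul (GbWa_cdkc.comp (hz.norm_sq ℝ))).prodMk ((contDiff_tha one_pos).comp hx)

private theorem GbWa_cdK {x z : X → En 3} {V : X → PP} (hs : ContDiff ℝ ∞ s)
    (hx : ContDiff ℝ ∞ x) (hz : ContDiff ℝ ∞ z) (hV : ContDiff ℝ ∞ V) :
    ContDiff ℝ ∞ (fun p => KK (s p * kc (‖z p‖ ^ 2)) (tha 1 (x p)) (V p)) ∧
    ContDiff ℝ ∞ (fun p => KKi (s p * kc (‖z p‖ ^ 2)) (tha 1 (x p)) (V p)) :=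
  ⟨(ContDiff.comp (g := fun p : ℝ × ℍ[ℝ] => KK p.1 p.2)
      (f := fun p => (s p * kc (‖z p‖ ^ 2), tha 1 (x p))) contDiff_KK
      (GbWa_arg hs hx hz)).clm_apply hV,
    (ContDiff.comp (g := fun p : ℝ × ℍ[ℝ] => KKi p.1 p.2)
      (f := fun p => (s p * kc (‖z p‖ ^ 2), tha 1 (x p))) contDiff_KKi
      (GbWa_arg hs hx hz)).clm_apply hV⟩

private theorem GbWa_cd1 (hs : ContDiff ℝ ∞ s) (hQ : ContDiff ℝ ∞ Q) :
    ContDiff ℝ ∞ (fun p => F1 (s p) (Q p)) ∧ ContDiff ℝ ∞ (fun p => F1i (s p) (Q p)) := by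
  obtain ⟨h1, h2⟩ := GbWa_cdK hs hQ.fst.fst hQ.fst.snd hQ.snd
  exact ⟨hQ.fst.prodMk h1, hQ.fst.prodMk h2⟩

private theorem GbWa_cd2 (hs : ContDiff ℝ ∞ s) (hQ : ContDiff ℝ ∞ Q) :
    ContDiff ℝ ∞ (fun p => F2 (s p) (Q p)) ∧ ContDiff ℝ ∞ (fun p => F2i (s p) (Q p)) := by
  obtain ⟨h1, h2⟩ := GbWa_cdK hs hQ.snd.fst hQ.snd.snd hQ.fst
  exact ⟨h1.prodMk hQ.snd, h2.prodMk hQ.snd⟩

end smooth

theorem contDiff_PhiA : ContDiff ℝ ∞ (fun p : ℝ × QQ => PhiA p.1 p.2) := by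
  have hs : ContDiff ℝ ∞ (fun p : ℝ × QQ => p.1) := contDiff_fst
  have hQ : ContDiff ℝ ∞ (fun p : ℝ × QQ => p.2) := contDiff_snd
  exact (GbWa_cd2 hs (GbWa_cd1 hs (GbWa_cd2 hs (GbWa_cd1 hs hQ).2).2).1).1

theorem contDiff_PhiAi : ContDiff ℝ ∞ (fun p : ℝ × QQ => PhiAi p.1 p.2) := by
  have hs : ContDiff ℝ ∞ (fun p : ℝ × QQ => p.1) := contDiff_fst
  have hQ : ContDiff ℝ ∞ (fun p : ℝ × QQ => p.2) := contDiff_snd
  exact (GbWa_cd1 hs (GbWa_cd2 hs (GbWa_cd1 hs (GbWa_cd2 hs hQ).2).2).1).1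

end EXO
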