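import Pool.Agent.EXO.GcDefs
import Pool.Agent.EXO.GbPhi

/-!
# EXO, GEO, module GcBl: block coordinates, the maps `C`, `C⁻¹` in the box

PROOFS.  Coordinates: all by `ext`, `fin_cases`, `simp [setblk, blk, pr, ιP, isP, to6, of6, bx, bY, bz]`.
`phiI6 (phibox q) = q`: `to6 (of6 p) = p`, `phiI_phiE`.
`Cb`: `τ = min 1 (3 - s)`.  If `τ > 0`: `blk (Cb b) = τ • phiI6 (τ⁻¹ • blk b)`, and `Cbi` of it is
`τ • phibox (τ⁻¹ • τ • phiI6 (..)) = blk b` (`setblk b q` has the same coordinate `0`, so the same `τ`).  If `τ ≤ 0` both are the identity.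
Norms: `to6 (blk b) = (bx b, bY b)`, `norm_phiI` with scaling.  `low`: `s ≤ 2`: `τ = 1`.  `high`: `s ≥ 3`: `τ ≤ 0`.
`out`: `0 < τ ≤ 1`, `‖τ⁻¹ • bx b‖ ≥ ‖bx b‖ ≥ 3/8`: `phiI_out`.
-/

set_option maxSynthPendingDepth 3

open scoped ContDiff Quaternion
open Pool.Agent.EXO

namespace EXO

theorem to6_of6 (p : PP) : to6 (of6 p) = p := by
  refine Prod.ext ?_ ?_ <;> ext i <;> fin_cases i <;> simp [to6, of6]

theorem of6_to6 (q : Eu 6) : of6 (to6 q) = q := by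
  ext i
  fin_cases i <;> simp [to6, of6]

theorem to6_blk (b : Eu 14) : to6 (blk b) = (bx b, bY b) := by
  refine Prod.ext ?_ ?_ <;> ext i <;> fin_cases i <;> simp [to6, bx, bY, blk, pr, ιP]

theorem blk_setblk (b : Eu 14) (q : Eu 6) : blk (setblk b q) = q := by
  ext i
  fin_cases i <;> simp [blk, setblk, pr, ιP, isP]

theorem setblk_blk (b : Eu 14) : setblk b (blk b) = b := by
  ext i
  fin_cases i <;> simp [blk, setblk, pr, ιP, isP]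

theorem setblk_setblk (b : Eu 14) (q q' : Eu 6) : setblk (setblk b q) q' = setblk b q' := by
  ext i
  fin_cases i <;> simp [setblk, isP]

theorem setblk_other (b : Eu 14) (q : Eu 6) {i : Fin 14} (h : ¬ isP i) : setblk b q i = b i := by
  simp [setblk, h]

theorem bz_setblk (b : Eu 14) (q : Eu 6) : bz (setblk b q) = bz b := by
  ext i
  fin_cases i <;> simp [setblk, isP, bz]

theorem toQ_eq (b : Eu 14) :
    toQ b = ((bx b, !₂[b 7, b 8, b 9]), (bY b, !₂[b 10, b 11, b 12])) := by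
  refine Prod.ext (Prod.ext ?_ ?_) (Prod.ext ?_ ?_) <;> ext i <;> fin_cases i <;> simp [toQ, bx, bY]

theorem contDiff_setblk : ContDiff ℝ ∞ (fun p : Eu 14 × Eu 6 => setblk p.1 p.2) := by
  refine contDiff_euclidean.2 fun i => ?_
  by_cases h : isP i
  · have e : (fun p : Eu 14 × Eu 6 => setblk p.1 p.2 i)
        = fun p : Eu 14 × Eu 6 => p.2 ⟨i.val - 1, by unfold isP at h; omega⟩ := by
      funext p
      simp [setblk, h]
    rw [e]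
    exact (EuclideanSpace.proj (𝕜 := ℝ) (⟨i.val - 1, by unfold isP at h; omega⟩ : Fin 6)).contDiff.comp
      contDiff_snd
  · have e : (fun p : Eu 14 × Eu 6 => setblk p.1 p.2 i) = fun p : Eu 14 × Eu 6 => p.1 i := by
      funext p
      exact setblk_other p.1 p.2 h
    rw [e]
    exact (EuclideanSpace.proj (𝕜 := ℝ) i).contDiff.comp contDiff_fst

theorem contDiff_blk : ContDiff ℝ ∞ blk := by
  exact contDiff_euclidean.2 fun i => (EuclideanSpace.proj (𝕜 := ℝ) (ιP i)).contDiff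

theorem phiI6_phibox (q : Eu 6) : phiI6 (phibox q) = q := by
  rw [phiI6, phibox, to6_of6, phiI_phiE, of6_to6]

theorem phibox_phiI6 (q : Eu 6) : phibox (phiI6 q) = q := by
  rw [phiI6, phibox, to6_of6, phiE_phiI, of6_to6]

theorem contDiff_phiI6 : ContDiff ℝ ∞ phiI6 := by
  have h1 : ContDiff ℝ ∞ to6 := by
    refine ContDiff.prodMk ?_ ?_ <;> refine contDiff_euclidean.2 fun i => ?_
    · fin_cases i
      · exact (EuclideanSpace.proj (𝕜 := ℝ) (0 : Fin 6)).contDiff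
      · exact (EuclideanSpace.proj (𝕜 := ℝ) (1 : Fin 6)).contDiff
      · exact (EuclideanSpace.proj (𝕜 := ℝ) (2 : Fin 6)).contDiff
    · fin_cases i
      · exact (EuclideanSpace.proj (𝕜 := ℝ) (3 : Fin 6)).contDiff
      · exact (EuclideanSpace.proj (𝕜 := ℝ) (4 : Fin 6)).contDiff
      · exact (EuclideanSpace.proj (𝕜 := ℝ) (5 : Fin 6)).contDiff
  have h2 : ContDiff ℝ ∞ of6 := by
    refine contDiff_euclidean.2 fun i => ?_
    fin_cases i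
    · exact (EuclideanSpace.proj (𝕜 := ℝ) (0 : Fin 3)).contDiff.comp contDiff_fst
    · exact (EuclideanSpace.proj (𝕜 := ℝ) (1 : Fin 3)).contDiff.comp contDiff_fst
    · exact (EuclideanSpace.proj (𝕜 := ℝ) (2 : Fin 3)).contDiff.comp contDiff_fst
    · exact (EuclideanSpace.proj (𝕜 := ℝ) (0 : Fin 3)).contDiff.comp contDiff_snd
    · exact (EuclideanSpace.proj (𝕜 := ℝ) (1 : Fin 3)).contDiff.comp contDiff_snd
    · exact (EuclideanSpace.proj (𝕜 := ℝ) (2 : Fin 3)).contDiff.comp contDiff_snd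
  exact h2.comp (contDiff_phiI.comp h1)

private theorem GcBl_inv {φ ψ : Eu 6 → Eu 6} (h : ∀ q, φ (ψ q) = q) (τ : ℝ) (p : Eu 6) :
    cone φ τ (cone ψ τ p) = p := by
  rcases lt_or_ge 0 τ with hτ | hτ
  · rw [cone_pos ψ hτ, cone_pos φ hτ, smul_smul, inv_mul_cancel₀ hτ.ne', one_smul, h, smul_smul,
      mul_inv_cancel₀ hτ.ne', one_smul]
  · rw [cone_nonpos ψ hτ, cone_nonpos φ hτ]

private theorem GcBl_0 (b : Eu 14) (q : Eu 6) : setblk b q 0 = b 0 :=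
  setblk_other b q (by simp [isP])

private theorem GcBl_13 (b : Eu 14) (q : Eu 6) : setblk b q 13 = b 13 :=
  setblk_other b q (by simp [isP])

private theorem GcBl_to6_smul (c : ℝ) (q : Eu 6) : to6 (c • q) = c • to6 q := by
  refine Prod.ext ?_ ?_ <;> ext i <;> fin_cases i <;> simp [to6]

private theorem GcBl_norm {Φ : Eu 6 → Eu 6} {ψ : PP → PP} (hΦ : ∀ q, Φ q = of6 (ψ (to6 q)))
    (hn : ∀ p, ‖(ψ p).1‖ = ‖p.1‖ ∧ ‖(ψ p).2‖ = ‖p.2‖) (τ : ℝ) (q : Eu 6) :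
    ‖(to6 (cone Φ τ q)).1‖ = ‖(to6 q).1‖ ∧ ‖(to6 (cone Φ τ q)).2‖ = ‖(to6 q).2‖ := by
  rcases lt_or_ge 0 τ with hτ | hτ
  · rw [cone_pos Φ hτ, GcBl_to6_smul, hΦ, to6_of6, GcBl_to6_smul, Prod.smul_fst, Prod.smul_snd,
      norm_smul, norm_smul, (hn _).1, (hn _).2, Prod.smul_fst, Prod.smul_snd, norm_smul, norm_smul,
      norm_inv]
    have h : ‖τ‖ ≠ 0 := norm_ne_zero_iff.2 hτ.ne'
    constructor <;> rw [← mul_assoc, mul_inv_cancel₀ h, one_mul]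
  · rw [cone_nonpos Φ hτ]
    exact ⟨rfl, rfl⟩

private theorem GcBl_keep {Φ : Eu 6 → Eu 6} {ψ : PP → PP} (hΦ : ∀ q, Φ q = of6 (ψ (to6 q)))
    (hn : ∀ p, ‖(ψ p).1‖ = ‖p.1‖ ∧ ‖(ψ p).2‖ = ‖p.2‖) (τ : ℝ) (b : Eu 14) :
    setblk b (cone Φ τ (blk b)) 0 = b 0 ∧ setblk b (cone Φ τ (blk b)) 13 = b 13 ∧
    bz (setblk b (cone Φ τ (blk b))) = bz b ∧
    ‖bx (setblk b (cone Φ τ (blk b)))‖ = ‖bx b‖ ∧ ‖bY (setblk b (cone Φ τ (blk b)))‖ = ‖bY b‖ := by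
  have h := GcBl_norm hΦ hn τ (blk b)
  have h1 := to6_blk (setblk b (cone Φ τ (blk b)))
  rw [blk_setblk] at h1
  rw [h1, to6_blk] at h
  exact ⟨GcBl_0 _ _, GcBl_13 _ _, bz_setblk _ _, h.1, h.2⟩

private theorem GcBl_out {Φ : Eu 6 → Eu 6} {ψ : PP → PP} (hΦ : ∀ q, Φ q = of6 (ψ (to6 q)))
    (ho : ∀ p : PP, 3 / 8 ≤ ‖p.1‖ ∨ 3 / 8 ≤ ‖p.2‖ → ψ p = p) {τ : ℝ} (hτ1 : τ ≤ 1) (b : Eu 14)
    (h : 3 / 8 ≤ ‖bx b‖ ∨ 3 / 8 ≤ ‖bY b‖) : setblk b (cone Φ τ (blk b)) = b := by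
  rcases lt_or_ge 0 τ with hτ | hτ
  · have hi : 1 ≤ τ⁻¹ := (one_le_inv₀ hτ).2 hτ1
    have key : ∀ v : En 3, 3 / 8 ≤ ‖v‖ → 3 / 8 ≤ ‖τ⁻¹ • v‖ := by
      intro v hv
      rw [norm_smul, Real.norm_of_nonneg (by linarith)]
      nlinarith [norm_nonneg v]
    have h1 : ψ (to6 (τ⁻¹ • blk b)) = to6 (τ⁻¹ • blk b) := by
      refine ho _ ?_
      rw [GcBl_to6_smul, to6_blk]
      rcases h with h | h
      · exact Or.inl (key _ h)
      · exact Or.inr (key _ h)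
    rw [cone_pos Φ hτ, hΦ, h1, of6_to6, smul_smul, mul_inv_cancel₀ hτ.ne', one_smul, setblk_blk]
  · rw [cone_nonpos Φ hτ, setblk_blk]

theorem Cb_Cbi (b : Eu 14) : Cb (Cbi b) = b := by
  unfold Cb Cbi
  rw [GcBl_0, blk_setblk, GcBl_inv phiI6_phibox, setblk_setblk, setblk_blk]

theorem Cbi_Cb (b : Eu 14) : Cbi (Cb b) = b := by
  unfold Cb Cbi
  rw [GcBl_0, blk_setblk, GcBl_inv phibox_phiI6, setblk_setblk, setblk_blk]

theorem Cb_keep (b : Eu 14) : Cb b 0 = b 0 ∧ Cb b 13 = b 13 ∧ bz (Cb b) = bz b ∧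
    ‖bx (Cb b)‖ = ‖bx b‖ ∧ ‖bY (Cb b)‖ = ‖bY b‖ := by
  exact GcBl_keep (fun _ => rfl) norm_phiI _ b

theorem Cbi_keep (b : Eu 14) : Cbi b 0 = b 0 ∧ Cbi b 13 = b 13 ∧ bz (Cbi b) = bz b ∧
    ‖bx (Cbi b)‖ = ‖bx b‖ ∧ ‖bY (Cbi b)‖ = ‖bY b‖ := by
  exact GcBl_keep (fun _ => rfl) norm_phiE _ b

theorem Cb_low (b : Eu 14) (h : b 0 ≤ 2) : Cb b = setblk b (phiI6 (blk b)) := by
  unfold Cb
  rw [min_eq_left (by linarith), cone_pos _ one_pos, inv_one, one_smul, one_smul]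

theorem Cbi_low (b : Eu 14) (h : b 0 ≤ 2) : Cbi b = setblk b (phibox (blk b)) := by
  unfold Cbi
  rw [min_eq_left (by linarith), cone_pos _ one_pos, inv_one, one_smul, one_smul]

theorem Cb_high (b : Eu 14) (h : 3 ≤ b 0) : Cb b = b ∧ Cbi b = b := by
  unfold Cb Cbi
  have h1 : min 1 (3 - b 0) ≤ 0 := (min_le_right _ _).trans (by linarith)
  rw [cone_nonpos _ h1, cone_nonpos _ h1, setblk_blk]
  exact ⟨rfl, rfl⟩

theorem Cb_out (b : Eu 14) (h : 3 / 8 ≤ ‖bx b‖ ∨ 3 / 8 ≤ ‖bY b‖) : Cb b = b ∧ Cbi b = b := by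
  exact ⟨GcBl_out (fun _ => rfl) phiI_out (min_le_left _ _) b h,
    GcBl_out (fun _ => rfl) phiE_out (min_le_left _ _) b h⟩

end EXO
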