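import Pool.Agent.EXO.GcCh8

/-!
# EXO, GEO, module GcCh: the chart `ch l`, `chI l` of `ℝ⁸ × ℝ⁶`, transported maps

PROOFS.  Coordinates: `toS (ofS c z) = c`, `bz (ofS c z) = z`, `ofS (toS b) (bz b) = b` (`fin_cases`).
Everything else is `GcCh8` with `l • toS b` (`l⁻¹ • l • = id`), `q1_j14` etc.
`gq (chI l b) = exp(2 l b_13)` (`norm_chI8`).  `cyl_chI`: `gq > 0`, `log (gq) = 2 l b_13`, `|2 l b_13| < 2 (l δ) ↔ |b_13| < δ`;
`q3 = l • bz b`, `|l z_i| < l δ ↔ |z_i| < δ`, the `z` indices `7..12` of `b` are the components of `bz b`.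
`trans_chI`: `chI_mem`, `ch_chI`.  `trans_comp`: if `w ∈ chU`, `w = chI l b`; otherwise both sides are `w`.
-/

set_option maxSynthPendingDepth 3

open scoped ContDiff Quaternion
open Pool.Agent.EXO

namespace EXO

theorem toS_ofS (c : S8) (z : En 6) : toS (ofS c z) = c := by
  refine Prod.ext ?_ (Prod.ext ?_ (Prod.ext ?_ ?_))
  · rfl
  · ext i
    fin_cases i <;> rfl
  · ext i
    fin_cases i <;> rfl
  · rfl

theorem bz_ofS (c : S8) (z : En 6) : bz (ofS c z) = z := by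
  ext i
  fin_cases i <;> rfl

theorem ofS_toS (b : Eu 14) : ofS (toS b) (bz b) = b := by
  ext i
  fin_cases i <;> rfl

theorem chI_mem (l : ℝ) (b : Eu 14) : chI l b ∈ chU := by
  show 0 < q1 (chI l b) 0 ∧ 0 < q2 (chI l b) 0
  rw [chI, q1_j14, q2_j14]
  exact chI8_pos _

theorem ch_chI {l : ℝ} (hl : 0 < l) (b : Eu 14) : ch l (chI l b) = b := by
  rw [ch, chI, q1_j14, q2_j14, q3_j14, Prod.mk.eta, ch8_chI8, smul_smul, smul_smul,
    inv_mul_cancel₀ hl.ne', one_smul, one_smul, ofS_toS]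

theorem chI_ch {l : ℝ} (hl : 0 < l) {w : En 14} (hw : w ∈ chU) : chI l (ch l w) = w := by
  have h1 : 0 < (q1 w, q2 w).1 0 ∧ 0 < (q1 w, q2 w).2 0 := hw
  rw [chI, ch, toS_ofS, bz_ofS, smul_smul, smul_smul, mul_inv_cancel₀ hl.ne', one_smul, one_smul,
    chI8_ch8 h1, j14_q]

private theorem GcCh_coord {n : ℕ} (i : Fin n) :
    ContDiff ℝ ∞ (fun w : EuclideanSpace ℝ (Fin n) => w i) :=
  (EuclideanSpace.proj (𝕜 := ℝ) i).contDiff

private theorem GcCh_q1 : ContDiff ℝ ∞ q1 := by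
  rw [contDiff_euclidean]
  intro i
  exact GcCh_coord _

private theorem GcCh_q2 : ContDiff ℝ ∞ q2 := by
  rw [contDiff_euclidean]
  intro i
  exact GcCh_coord _

private theorem GcCh_q3 : ContDiff ℝ ∞ q3 := by
  rw [contDiff_euclidean]
  intro i
  exact GcCh_coord _

private theorem GcCh_bx : ContDiff ℝ ∞ bx := by
  rw [contDiff_euclidean]
  intro i
  fin_cases i
  · exact GcCh_coord 1
  · exact GcCh_coord 2
  · exact GcCh_coord 3

private theorem GcCh_bY : ContDiff ℝ ∞ bY := by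
  rw [contDiff_euclidean]
  intro i
  fin_cases i
  · exact GcCh_coord 4
  · exact GcCh_coord 5
  · exact GcCh_coord 6

private theorem GcCh_bz : ContDiff ℝ ∞ bz := by
  rw [contDiff_euclidean]
  intro i
  fin_cases i
  · exact GcCh_coord 7
  · exact GcCh_coord 8
  · exact GcCh_coord 9
  · exact GcCh_coord 10
  · exact GcCh_coord 11
  · exact GcCh_coord 12

private theorem GcCh_toS : ContDiff ℝ ∞ toS :=
  (GcCh_coord 0).prodMk (GcCh_bx.prodMk (GcCh_bY.prodMk (GcCh_coord 13)))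

private theorem GcCh_ofS : ContDiff ℝ ∞ (fun p : S8 × En 6 => ofS p.1 p.2) := by
  have h1 : ContDiff ℝ ∞ (fun p : S8 × En 6 => p.1.1) := contDiff_fst.fst
  have h2 : ContDiff ℝ ∞ (fun p : S8 × En 6 => p.1.2.1) := contDiff_fst.snd.fst
  have h3 : ContDiff ℝ ∞ (fun p : S8 × En 6 => p.1.2.2.1) := contDiff_fst.snd.snd.fst
  have h4 : ContDiff ℝ ∞ (fun p : S8 × En 6 => p.1.2.2.2) := contDiff_fst.snd.snd.snd
  have h5 : ContDiff ℝ ∞ (fun p : S8 × En 6 => p.2) := contDiff_snd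
  rw [contDiff_euclidean]
  intro i
  fin_cases i
  · exact h1
  · exact (GcCh_coord 0).comp h2
  · exact (GcCh_coord 1).comp h2
  · exact (GcCh_coord 2).comp h2
  · exact (GcCh_coord 0).comp h3
  · exact (GcCh_coord 1).comp h3
  · exact (GcCh_coord 2).comp h3
  · exact (GcCh_coord 0).comp h5
  · exact (GcCh_coord 1).comp h5
  · exact (GcCh_coord 2).comp h5
  · exact (GcCh_coord 3).comp h5
  · exact (GcCh_coord 4).comp h5
  · exact (GcCh_coord 5).comp h5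
  · exact h4

private theorem GcCh_j14 {E : Type*} [NormedAddCommGroup E] [NormedSpace ℝ E] {f g : E → En 4}
    {h : E → En 6} (hf : ContDiff ℝ ∞ f) (hg : ContDiff ℝ ∞ g) (hh : ContDiff ℝ ∞ h) :
    ContDiff ℝ ∞ (fun x => j14 (f x) (g x) (h x)) := by
  rw [contDiff_euclidean]
  intro i
  show ContDiff ℝ ∞ (fun x => if h1 : i.1 < 4 then f x ⟨i, h1⟩ else
    if h' : i.1 < 8 then g x ⟨i - 4, by omega⟩ else h x ⟨i - 8, by omega⟩)
  by_cases h1 : i.1 < 4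
  · simp only [h1, dite_true]
    exact (GcCh_coord _).comp hf
  · by_cases h2 : i.1 < 8
    · simp only [h1, h2, dite_true, dite_false]
      exact (GcCh_coord _).comp hg
    · simp only [h1, h2, dite_false]
      exact (GcCh_coord _).comp hh

theorem isOpen_chU : IsOpen chU := by
  have h1 : Continuous (fun w : En 14 => q1 w 0) := ((GcCh_coord 0).comp GcCh_q1).continuous
  have h2 : Continuous (fun w : En 14 => q2 w 0) := ((GcCh_coord 0).comp GcCh_q2).continuous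
  exact (isOpen_lt continuous_const h1).inter (isOpen_lt continuous_const h2)

theorem contDiff_chI (l : ℝ) : ContDiff ℝ ∞ (chI l) := by
  have h1 : ContDiff ℝ ∞ (fun b : Eu 14 => chI8 (l • toS b)) :=
    contDiff_chI8.comp (GcCh_toS.const_smul l)
  exact GcCh_j14 h1.fst h1.snd (GcCh_bz.const_smul l)

theorem contDiffOn_ch (l : ℝ) : ContDiffOn ℝ ∞ (ch l) chU := by
  have h1 : ContDiffOn ℝ ∞ (fun w : En 14 => ch8 (q1 w, q2 w)) chU :=
    contDiffOn_ch8.comp (GcCh_q1.prodMk GcCh_q2).contDiffOn (fun w hw => hw)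
  have h2 : ContDiffOn ℝ ∞ (fun w : En 14 => (l⁻¹ • ch8 (q1 w, q2 w), l⁻¹ • q3 w)) chU :=
    (h1.const_smul l⁻¹).prodMk (GcCh_q3.const_smul l⁻¹).contDiffOn
  exact GcCh_ofS.comp_contDiffOn h2

theorem gq_chI (l : ℝ) (b : Eu 14) : gq (chI l b) = Real.exp (2 * l * b 13) := by
  rw [gq, chI, q1_j14, q2_j14, norm_chI8]
  congr 1
  show 2 * (l * b 13) = 2 * l * b 13
  ring

theorem q3_chI (l : ℝ) (b : Eu 14) : q3 (chI l b) = l • bz b := by
  rw [chI, q3_j14]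

private theorem GcCh_nsq (l : ℝ) (x : En 3) : ‖l • x‖ ^ 2 = l ^ 2 * ‖x‖ ^ 2 := by
  rw [norm_smul, mul_pow, Real.norm_eq_abs, sq_abs]

theorem ratio_chI (l : ℝ) (b : Eu 14) :
    ‖q2 (chI l b)‖ ^ 2 * (1 + l ^ 2 * ‖bx b‖ ^ 2) =
      ‖q1 (chI l b)‖ ^ 2 * (Real.exp (4 * l * b 0) * (1 + l ^ 2 * ‖bY b‖ ^ 2)) := by
  have h1 := ratio_chI8 (l • toS b)
  have h2 : (l • toS b).2.1 = l • bx b := rfl
  have h3 : (l • toS b).2.2.1 = l • bY b := rfl
  have h4 : 4 * (l • toS b).1 = 4 * l * b 0 := by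
    show 4 * (l * b 0) = 4 * l * b 0
    ring
  rw [h2, h3, h4, GcCh_nsq, GcCh_nsq] at h1
  rw [chI, q1_j14, q2_j14]
  exact h1

theorem norm_chI_congr (l : ℝ) {b b' : Eu 14} (h1 : b 0 = b' 0) (h2 : ‖bx b‖ = ‖bx b'‖)
    (h3 : ‖bY b‖ = ‖bY b'‖) (h4 : b 13 = b' 13) :
    ‖q1 (chI l b)‖ = ‖q1 (chI l b')‖ ∧ ‖q2 (chI l b)‖ = ‖q2 (chI l b')‖ := by
  rw [chI, chI, q1_j14, q2_j14, q1_j14, q2_j14]
  apply norm_chI8_congr
  · show l * b 0 = l * b' 0
    rw [h1]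
  · show ‖l • bx b‖ = ‖l • bx b'‖
    rw [norm_smul, norm_smul, h2]
  · show ‖l • bY b‖ = ‖l • bY b'‖
    rw [norm_smul, norm_smul, h3]
  · show l * b 13 = l * b' 13
    rw [h4]

/-- in the region `‖Y‖ < ‖X‖/2` one has `s < 0` or `|x| ≥ 1/2` -/
theorem region_D2 {l : ℝ} (hl : 0 < l) (hl1 : l ≤ 1) (b : Eu 14)
    (h : ‖q2 (chI l b)‖ < ‖q1 (chI l b)‖ / 2) : b 0 < 0 ∨ 1 / 2 ≤ ‖bx b‖ := by
  by_contra hcon
  push Not at hcon
  obtain ⟨h1, h2⟩ := hcon
  have h3 := ratio_chI l b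
  set P := ‖q1 (chI l b)‖ with hP
  set Q := ‖q2 (chI l b)‖ with hQ
  have hP0 : 0 ≤ P := norm_nonneg _
  have hQ0 : 0 ≤ Q := norm_nonneg _
  have hPp : 0 < P := by
    by_contra hc
    have : P = 0 := le_antisymm (not_lt.1 hc) hP0
    rw [this] at h
    linarith
  have h4 : Q ^ 2 < P ^ 2 / 4 := by
    have := pow_lt_pow_left₀ h hQ0 (n := 2) (by norm_num)
    calc Q ^ 2 < (P / 2) ^ 2 := this
      _ = P ^ 2 / 4 := by ring
  have h5 : 1 + l ^ 2 * ‖bx b‖ ^ 2 ≤ 5 / 4 := by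
    have h6 : l ^ 2 ≤ 1 := pow_le_one₀ hl.le hl1
    have h7 : ‖bx b‖ ^ 2 ≤ 1 / 4 := by
      have := pow_le_pow_left₀ (norm_nonneg (bx b)) h2.le 2
      calc ‖bx b‖ ^ 2 ≤ (1 / 2) ^ 2 := this
        _ = 1 / 4 := by norm_num
    have h8 : l ^ 2 * ‖bx b‖ ^ 2 ≤ 1 * (1 / 4) :=
      mul_le_mul h6 h7 (sq_nonneg _) zero_le_one
    linarith
  have h9 : (1 : ℝ) ≤ Real.exp (4 * l * b 0) * (1 + l ^ 2 * ‖bY b‖ ^ 2) := by
    have h10 : (1 : ℝ) ≤ Real.exp (4 * l * b 0) := Real.one_le_exp (by positivity)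
    have h11 : (1 : ℝ) ≤ 1 + l ^ 2 * ‖bY b‖ ^ 2 := by
      have : 0 ≤ l ^ 2 * ‖bY b‖ ^ 2 := by positivity
      linarith
    exact one_le_mul_of_one_le_of_one_le h10 h11
  have h12 : P ^ 2 ≤ P ^ 2 * (Real.exp (4 * l * b 0) * (1 + l ^ 2 * ‖bY b‖ ^ 2)) :=
    le_mul_of_one_le_right (sq_nonneg _) h9
  have h13 : Q ^ 2 * (1 + l ^ 2 * ‖bx b‖ ^ 2) ≤ Q ^ 2 * (5 / 4) :=
    mul_le_mul_of_nonneg_left h5 (sq_nonneg _)
  have h14 : 0 < P ^ 2 := by positivity
  linarith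

theorem cyl_chI {l δ : ℝ} (hl : 0 < l) (b : Eu 14) :
    chI l b ∈ cyl (l * δ) ↔ (b ∈ zlt δ ∧ |b 13| < δ) := by
  have h0 : (0 < gq (chI l b)) := by
    rw [gq_chI]
    exact Real.exp_pos _
  have h1 : |Real.log (gq (chI l b))| < 2 * (l * δ) ↔ |b 13| < δ := by
    rw [gq_chI, Real.log_exp, abs_mul, abs_mul, abs_two, abs_of_pos hl, ← mul_assoc]
    exact mul_lt_mul_iff_right₀ (by positivity)
  have h2 : ∀ i, |q3 (chI l b) i| < l * δ ↔ |bz b i| < δ := by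
    intro i
    rw [q3_chI]
    show |l * bz b i| < l * δ ↔ _
    rw [abs_mul, abs_of_pos hl]
    exact mul_lt_mul_iff_right₀ hl
  have h3 : (∀ i, |bz b i| < δ) ↔ b ∈ zlt δ := by
    constructor
    · intro h i hi
      have hi' : 7 ≤ i.1 ∧ i.1 ≤ 12 := hi
      obtain ⟨i, hi14⟩ := i
      simp only at hi'
      obtain ⟨ha, hb⟩ := hi'
      interval_cases i
      · exact h 0
      · exact h 1
      · exact h 2
      · exact h 3
      · exact h 4
      · exact h 5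
    · intro h i
      fin_cases i
      · exact h 7 (by constructor <;> norm_num)
      · exact h 8 (by constructor <;> norm_num)
      · exact h 9 (by constructor <;> norm_num)
      · exact h 10 (by constructor <;> norm_num)
      · exact h 11 (by constructor <;> norm_num)
      · exact h 12 (by constructor <;> norm_num)
  constructor
  · rintro ⟨-, h4, h5⟩
    exact ⟨h3.1 fun i => (h2 i).1 (h5 i), h1.1 h4⟩
  · rintro ⟨h4, h5⟩
    exact ⟨h0, h1.2 h5, fun i => (h2 i).2 (h3.2 h4 i)⟩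

theorem trans_chI {l : ℝ} (hl : 0 < l) (g : Eu 14 → Eu 14) (b : Eu 14) :
    trans l g (chI l b) = chI l (g b) := by
  rw [trans, if_pos (chI_mem l b), ch_chI hl]

theorem trans_of_not {l : ℝ} (g : Eu 14 → Eu 14) {w : En 14} (h : w ∉ chU) : trans l g w = w := by
  rw [trans, if_neg h]

theorem trans_comp {l : ℝ} (hl : 0 < l) (g g' : Eu 14 → Eu 14) (w : En 14) :
    trans l g (trans l g' w) = trans l (fun b => g (g' b)) w := by
  by_cases h : w ∈ chU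
  · rw [← chI_ch hl h, trans_chI hl, trans_chI hl, trans_chI hl]
  · rw [trans_of_not g' h, trans_of_not g h, trans_of_not _ h]

end EXO
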