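import Pool.Agent.EXO.GcDefs

/-!
# EXO, GEO, module GcCh8: the chart of the cone `{X_0 > 0, Y_0 > 0}` of `ℝ⁸`

PROOFS.  `‖mk4 1 x‖² = 1 + ‖x‖²`, `(mk4 t x) 0 = t`, `vec4 (mk4 t x) = x`, `mk4 (c t) (c • x) = c • mk4 t x`,
`mk4 (X 0) (vec4 X) = X`.  Write `b = (s,x,y,v)`, `P = e^{-2s}(1+|x|²) + e^{2s}(1+|y|²) > 0`, `a = v - log P/2`.
`‖X‖² = e^{2a-2s}(1+|x|²)`, `‖Y‖² = e^{2a+2s}(1+|y|²)`, sum `= e^{2a} P = e^{2v}`.
`ch8 (chI8 b)`: `Y_0/X_0 = e^{2s}`, `log/2 = s`; `X_0⁻¹ • vec4 X = x`, `log(e^{2v})/2 = v`.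
`chI8 (ch8 q)`: with `s = log(Y_0/X_0)/2`, `e^{2s} = Y_0/X_0`; `x = Xv/X_0`, `1 + |x|² = ‖X‖²/X_0²`, so
`P = (X_0/Y_0)‖X‖²/X_0² + (Y_0/X_0) ‖Y‖²/Y_0² = (‖X‖²+‖Y‖²)/(X_0 Y_0)`, `e^{2v} = ‖X‖²+‖Y‖²`, so `e^{2a} = X_0 Y_0` and
`e^{a-s} = X_0`, `e^{a+s} = Y_0` (positive numbers with equal squares; or via `log`).
`ratio`: from the formulas for `‖X‖²`, `‖Y‖²`.  `congr`: `aa` and the norms depend on `s, |x|, |y|, v` only.
Smoothness: compositions of `exp`, `log` (positive argument), `‖·‖²`, `mk4`, `vec4` (linear; components).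
-/

set_option maxSynthPendingDepth 3

open scoped ContDiff Quaternion
open Pool.Agent.EXO

namespace EXO

theorem mk4_smul (c t : ℝ) (x : En 3) : mk4 (c * t) (c • x) = c • mk4 t x := by
  ext i
  fin_cases i <;> rfl

theorem mk4_vec4 (X : En 4) : mk4 (X 0) (vec4 X) = X := by
  ext i
  fin_cases i <;> rfl

theorem vec4_mk4 (t : ℝ) (x : En 3) : vec4 (mk4 t x) = x := by
  ext i
  fin_cases i <;> rfl

theorem norm_mk4 (t : ℝ) (x : En 3) : ‖mk4 t x‖ ^ 2 = t ^ 2 + ‖x‖ ^ 2 := by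
  rw [EuclideanSpace.real_norm_sq_eq, EuclideanSpace.real_norm_sq_eq, Fin.sum_univ_four,
    Fin.sum_univ_three]
  show t ^ 2 + x 0 ^ 2 + x 1 ^ 2 + x 2 ^ 2 = t ^ 2 + (x 0 ^ 2 + x 1 ^ 2 + x 2 ^ 2)
  ring

private theorem GcCh8_zero1 (b : S8) : (chI8 b).1 0 = Real.exp (aa b - b.1) := by
  show Real.exp (aa b - b.1) * 1 = _
  rw [mul_one]

private theorem GcCh8_zero2 (b : S8) : (chI8 b).2 0 = Real.exp (aa b + b.1) := by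
  show Real.exp (aa b + b.1) * 1 = _
  rw [mul_one]

theorem chI8_pos (b : S8) : 0 < (chI8 b).1 0 ∧ 0 < (chI8 b).2 0 := by
  rw [GcCh8_zero1, GcCh8_zero2]
  exact ⟨Real.exp_pos _, Real.exp_pos _⟩

private theorem GcCh8_nsq (c : ℝ) (x : En 3) : ‖c • mk4 1 x‖ ^ 2 = c ^ 2 * (1 + ‖x‖ ^ 2) := by
  rw [norm_smul, mul_pow, Real.norm_eq_abs, sq_abs, norm_mk4, one_pow]

private theorem GcCh8_n1 (b : S8) : ‖(chI8 b).1‖ ^ 2 =
    Real.exp (aa b - b.1) ^ 2 * (1 + ‖b.2.1‖ ^ 2) := GcCh8_nsq _ _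

private theorem GcCh8_n2 (b : S8) : ‖(chI8 b).2‖ ^ 2 =
    Real.exp (aa b + b.1) ^ 2 * (1 + ‖b.2.2.1‖ ^ 2) := GcCh8_nsq _ _

private theorem GcCh8_Ppos (b : S8) : 0 < Real.exp (-2 * b.1) * (1 + ‖b.2.1‖ ^ 2)
    + Real.exp (2 * b.1) * (1 + ‖b.2.2.1‖ ^ 2) := by
  have h1 : 0 < Real.exp (-2 * b.1) * (1 + ‖b.2.1‖ ^ 2) :=
    mul_pos (Real.exp_pos _) (by positivity)
  have h2 : 0 < Real.exp (2 * b.1) * (1 + ‖b.2.2.1‖ ^ 2) :=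
    mul_pos (Real.exp_pos _) (by positivity)
  exact add_pos h1 h2

private theorem GcCh8_sq (t : ℝ) : Real.exp t ^ 2 = Real.exp (2 * t) := by
  rw [← Real.exp_nat_mul]
  norm_num

theorem norm_chI8 (b : S8) : ‖(chI8 b).1‖ ^ 2 + ‖(chI8 b).2‖ ^ 2 = Real.exp (2 * b.2.2.2) := by
  have hP := GcCh8_Ppos b
  have h0 : Real.exp (Real.log (Real.exp (-2 * b.1) * (1 + ‖b.2.1‖ ^ 2)
    + Real.exp (2 * b.1) * (1 + ‖b.2.2.1‖ ^ 2))) = Real.exp (-2 * b.1) * (1 + ‖b.2.1‖ ^ 2)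
    + Real.exp (2 * b.1) * (1 + ‖b.2.2.1‖ ^ 2) := Real.exp_log hP
  have h1 : 2 * b.2.2.2 = 2 * aa b + Real.log (Real.exp (-2 * b.1) * (1 + ‖b.2.1‖ ^ 2)
    + Real.exp (2 * b.1) * (1 + ‖b.2.2.1‖ ^ 2)) := by
    rw [aa]
    ring
  rw [h1, Real.exp_add, h0, GcCh8_n1, GcCh8_n2, GcCh8_sq, GcCh8_sq]
  have h2 : 2 * (aa b - b.1) = 2 * aa b + -2 * b.1 := by ring
  have h3 : 2 * (aa b + b.1) = 2 * aa b + 2 * b.1 := by ring
  rw [h2, h3, Real.exp_add, Real.exp_add]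
  ring

theorem ch8_chI8 (b : S8) : ch8 (chI8 b) = b := by
  have hx : ∀ (c : ℝ) (hc : 0 < c) (x : En 3), (c)⁻¹ • vec4 (c • mk4 1 x) = x := by
    intro c hc x
    have h1 : vec4 (c • mk4 1 x) = c • x := by
      rw [← mk4_smul, vec4_mk4]
    rw [h1, smul_smul, inv_mul_cancel₀ hc.ne', one_smul]
  refine Prod.ext ?_ (Prod.ext ?_ (Prod.ext ?_ ?_))
  · show Real.log ((chI8 b).2 0 / (chI8 b).1 0) / 2 = b.1
    rw [GcCh8_zero1, GcCh8_zero2, ← Real.exp_sub, Real.log_exp]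
    ring
  · show ((chI8 b).1 0)⁻¹ • vec4 (chI8 b).1 = b.2.1
    rw [GcCh8_zero1]
    exact hx _ (Real.exp_pos _) _
  · show ((chI8 b).2 0)⁻¹ • vec4 (chI8 b).2 = b.2.2.1
    rw [GcCh8_zero2]
    exact hx _ (Real.exp_pos _) _
  · show Real.log (‖(chI8 b).1‖ ^ 2 + ‖(chI8 b).2‖ ^ 2) / 2 = b.2.2.2
    rw [norm_chI8, Real.log_exp]
    ring

private theorem GcCh8_mk (X : En 4) (h : 0 < X 0) : mk4 1 ((X 0)⁻¹ • vec4 X) = (X 0)⁻¹ • X := by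
  have h1 := mk4_smul (X 0)⁻¹ (X 0) (vec4 X)
  rw [inv_mul_cancel₀ h.ne', mk4_vec4] at h1
  exact h1

private theorem GcCh8_onep (X : En 4) (h : 0 < X 0) :
    1 + ‖(X 0)⁻¹ • vec4 X‖ ^ 2 = ‖X‖ ^ 2 / (X 0) ^ 2 := by
  have h1 := norm_mk4 1 ((X 0)⁻¹ • vec4 X)
  rw [GcCh8_mk X h, norm_smul, mul_pow, Real.norm_eq_abs, sq_abs, one_pow] at h1
  rw [← h1, inv_pow]
  ring

private theorem GcCh8_norm_pos (X : En 4) (h : 0 < X 0) : 0 < ‖X‖ ^ 2 := by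
  have : X ≠ 0 := by
    rintro rfl
    simp at h
  have := norm_pos_iff.2 this
  positivity

theorem chI8_ch8 {q : R8} (h : 0 < q.1 0 ∧ 0 < q.2 0) : chI8 (ch8 q) = q := by
  obtain ⟨h1, h2⟩ := h
  have hX := GcCh8_norm_pos q.1 h1
  have hY := GcCh8_norm_pos q.2 h2
  have hs : (ch8 q).1 = (Real.log (q.2 0) - Real.log (q.1 0)) / 2 := by
    show Real.log (q.2 0 / q.1 0) / 2 = _
    rw [Real.log_div h2.ne' h1.ne']
  have e1 : Real.exp (2 * (ch8 q).1) = q.2 0 / q.1 0 := by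
    have : 2 * (ch8 q).1 = Real.log (q.2 0) - Real.log (q.1 0) := by
      rw [hs]
      ring
    rw [this, Real.exp_sub, Real.exp_log h2, Real.exp_log h1]
  have e2 : Real.exp (-2 * (ch8 q).1) = q.1 0 / q.2 0 := by
    have : -2 * (ch8 q).1 = Real.log (q.1 0) - Real.log (q.2 0) := by
      rw [hs]
      ring
    rw [this, Real.exp_sub, Real.exp_log h2, Real.exp_log h1]
  have hP : Real.exp (-2 * (ch8 q).1) * (1 + ‖(ch8 q).2.1‖ ^ 2)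
    + Real.exp (2 * (ch8 q).1) * (1 + ‖(ch8 q).2.2.1‖ ^ 2) =
      (‖q.1‖ ^ 2 + ‖q.2‖ ^ 2) / (q.1 0 * q.2 0) := by
    rw [e1, e2]
    show q.1 0 / q.2 0 * (1 + ‖(q.1 0)⁻¹ • vec4 q.1‖ ^ 2) +
      q.2 0 / q.1 0 * (1 + ‖(q.2 0)⁻¹ • vec4 q.2‖ ^ 2) = _
    rw [GcCh8_onep _ h1, GcCh8_onep _ h2]
    field_simp
  have ha : aa (ch8 q) = (Real.log (q.1 0) + Real.log (q.2 0)) / 2 := by
    rw [aa, hP]
    show Real.log (‖q.1‖ ^ 2 + ‖q.2‖ ^ 2) / 2 - _ = _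
    rw [Real.log_div (by positivity) (by positivity), Real.log_mul h1.ne' h2.ne']
    ring
  have hE1 : Real.exp (aa (ch8 q) - (ch8 q).1) = q.1 0 := by
    have : aa (ch8 q) - (ch8 q).1 = Real.log (q.1 0) := by
      rw [ha, hs]
      ring
    rw [this, Real.exp_log h1]
  have hE2 : Real.exp (aa (ch8 q) + (ch8 q).1) = q.2 0 := by
    have : aa (ch8 q) + (ch8 q).1 = Real.log (q.2 0) := by
      rw [ha, hs]
      ring
    rw [this, Real.exp_log h2]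
  refine Prod.ext ?_ ?_
  · show Real.exp (aa (ch8 q) - (ch8 q).1) • mk4 1 ((q.1 0)⁻¹ • vec4 q.1) = q.1
    rw [hE1, GcCh8_mk _ h1, smul_smul, mul_inv_cancel₀ h1.ne', one_smul]
  · show Real.exp (aa (ch8 q) + (ch8 q).1) • mk4 1 ((q.2 0)⁻¹ • vec4 q.2) = q.2
    rw [hE2, GcCh8_mk _ h2, smul_smul, mul_inv_cancel₀ h2.ne', one_smul]

private theorem GcCh8_coord {n : ℕ} (i : Fin n) :
    ContDiff ℝ ∞ (fun w : EuclideanSpace ℝ (Fin n) => w i) :=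
  (EuclideanSpace.proj (𝕜 := ℝ) i).contDiff

private theorem GcCh8_mkd {E : Type*} [NormedAddCommGroup E] [NormedSpace ℝ E] {f : E → En 3}
    (hf : ContDiff ℝ ∞ f) : ContDiff ℝ ∞ (fun x => mk4 1 (f x)) := by
  rw [contDiff_euclidean]
  intro i
  fin_cases i
  · exact contDiff_const
  · exact (GcCh8_coord 0).comp hf
  · exact (GcCh8_coord 1).comp hf
  · exact (GcCh8_coord 2).comp hf

private theorem GcCh8_vec4 : ContDiff ℝ ∞ vec4 := by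
  rw [contDiff_euclidean]
  intro i
  fin_cases i
  · exact GcCh8_coord 1
  · exact GcCh8_coord 2
  · exact GcCh8_coord 3

private theorem GcCh8_aa : ContDiff ℝ ∞ aa := by
  have h1 : ContDiff ℝ ∞ (fun b : S8 => b.1) := contDiff_fst
  have h2 : ContDiff ℝ ∞ (fun b : S8 => b.2.1) := contDiff_snd.fst
  have h3 : ContDiff ℝ ∞ (fun b : S8 => b.2.2.1) := contDiff_snd.snd.fst
  have h4 : ContDiff ℝ ∞ (fun b : S8 => b.2.2.2) := contDiff_snd.snd.snd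
  have h5 : ContDiff ℝ ∞ (fun b : S8 => Real.exp (-2 * b.1) * (1 + ‖b.2.1‖ ^ 2)
    + Real.exp (2 * b.1) * (1 + ‖b.2.2.1‖ ^ 2)) :=
    (((contDiff_const.mul h1).exp).mul (contDiff_const.add (h2.norm_sq ℝ))).add
      (((contDiff_const.mul h1).exp).mul (contDiff_const.add (h3.norm_sq ℝ)))
  have h6 := h5.log (fun b => (GcCh8_Ppos b).ne')
  exact h4.sub (h6.div_const 2)

theorem contDiff_chI8 : ContDiff ℝ ∞ chI8 := by
  have h1 : ContDiff ℝ ∞ (fun b : S8 => b.1) := contDiff_fst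
  have h2 : ContDiff ℝ ∞ (fun b : S8 => b.2.1) := contDiff_snd.fst
  have h3 : ContDiff ℝ ∞ (fun b : S8 => b.2.2.1) := contDiff_snd.snd.fst
  have h5 : ContDiff ℝ ∞ (fun b : S8 => Real.exp (aa b - b.1)) := (GcCh8_aa.sub h1).exp
  have h6 : ContDiff ℝ ∞ (fun b : S8 => Real.exp (aa b + b.1)) := (GcCh8_aa.add h1).exp
  exact (h5.smul (GcCh8_mkd h2)).prodMk (h6.smul (GcCh8_mkd h3))

theorem contDiffOn_ch8 : ContDiffOn ℝ ∞ ch8 {q : R8 | 0 < q.1 0 ∧ 0 < q.2 0} := by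
  have h1 : ContDiff ℝ ∞ (fun q : R8 => q.1) := contDiff_fst
  have h2 : ContDiff ℝ ∞ (fun q : R8 => q.2) := contDiff_snd
  have h3 : ContDiff ℝ ∞ (fun q : R8 => q.1 0) := (GcCh8_coord 0).comp h1
  have h4 : ContDiff ℝ ∞ (fun q : R8 => q.2 0) := (GcCh8_coord 0).comp h2
  have h5 : ContDiffOn ℝ ∞ (fun q : R8 => Real.log (q.2 0 / q.1 0) / 2)
      {q : R8 | 0 < q.1 0 ∧ 0 < q.2 0} :=
    ((h4.contDiffOn.div h3.contDiffOn (fun q hq => hq.1.ne')).log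
      (fun q hq => (div_pos hq.2 hq.1).ne')).div_const 2
  have h6 : ContDiffOn ℝ ∞ (fun q : R8 => (q.1 0)⁻¹ • vec4 q.1)
      {q : R8 | 0 < q.1 0 ∧ 0 < q.2 0} :=
    (h3.contDiffOn.inv (fun q hq => hq.1.ne')).smul (GcCh8_vec4.comp h1).contDiffOn
  have h7 : ContDiffOn ℝ ∞ (fun q : R8 => (q.2 0)⁻¹ • vec4 q.2)
      {q : R8 | 0 < q.1 0 ∧ 0 < q.2 0} :=
    (h4.contDiffOn.inv (fun q hq => hq.2.ne')).smul (GcCh8_vec4.comp h2).contDiffOn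
  have h8 : ContDiffOn ℝ ∞ (fun q : R8 => Real.log (‖q.1‖ ^ 2 + ‖q.2‖ ^ 2) / 2)
      {q : R8 | 0 < q.1 0 ∧ 0 < q.2 0} := by
    refine (ContDiffOn.log ((h1.norm_sq ℝ).add (h2.norm_sq ℝ)).contDiffOn ?_).div_const 2
    intro q hq
    have := GcCh8_norm_pos q.1 hq.1
    have := GcCh8_norm_pos q.2 hq.2
    positivity
  exact h5.prodMk (h6.prodMk (h7.prodMk h8))

theorem ratio_chI8 (b : S8) : ‖(chI8 b).2‖ ^ 2 * (1 + ‖b.2.1‖ ^ 2) =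
    ‖(chI8 b).1‖ ^ 2 * (Real.exp (4 * b.1) * (1 + ‖b.2.2.1‖ ^ 2)) := by
  rw [GcCh8_n1, GcCh8_n2, GcCh8_sq, GcCh8_sq]
  have h3 : 2 * (aa b + b.1) = 2 * (aa b - b.1) + 4 * b.1 := by ring
  rw [h3, Real.exp_add]
  ring

theorem norm_chI8_congr {b b' : S8} (h1 : b.1 = b'.1) (h2 : ‖b.2.1‖ = ‖b'.2.1‖)
    (h3 : ‖b.2.2.1‖ = ‖b'.2.2.1‖) (h4 : b.2.2.2 = b'.2.2.2) :
    ‖(chI8 b).1‖ = ‖(chI8 b').1‖ ∧ ‖(chI8 b).2‖ = ‖(chI8 b').2‖ := by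
  have ha : aa b = aa b' := by
    rw [aa, aa, h1, h2, h3, h4]
  constructor
  · have h5 : ‖(chI8 b).1‖ ^ 2 = ‖(chI8 b').1‖ ^ 2 := by
      rw [GcCh8_n1, GcCh8_n1, ha, h1, h2]
    exact (sq_eq_sq₀ (norm_nonneg _) (norm_nonneg _)).1 h5
  · have h5 : ‖(chI8 b).2‖ ^ 2 = ‖(chI8 b').2‖ ^ 2 := by
      rw [GcCh8_n2, GcCh8_n2, ha, h1, h3]
    exact (sq_eq_sq₀ (norm_nonneg _) (norm_nonneg _)).1 h5

end EXO
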