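import Pool.Agent.EXO.GcTw
import Pool.Agent.EXO.GcCh
import Pool.Agent.EXO.GcBl

/-!
# EXO, GEO, module GcCm: the commutator `t₁ t₂ t₁⁻¹ t₂⁻¹` is `C`
-/

set_option maxSynthPendingDepth 3

open scoped ContDiff Quaternion
open Pool.Agent.EXO

namespace EXO

private theorem GcCm_norm_star {q : ℍ[ℝ]} (hq : ‖q‖ = 1) : ‖star q‖ = 1 := by
  rw [Quaternion.norm_star, hq]

/-- the point with the `(x, y)` block replaced -/
private noncomputable def GcCm_s (b : Eu 14) (x y : En 3) : Eu 14 := setblk b (of6 (x, y))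

private theorem GcCm_blk (b : Eu 14) (x y : En 3) :
    (bx (GcCm_s b x y), bY (GcCm_s b x y)) = (x, y) := by
  rw [GcCm_s, ← to6_blk, blk_setblk, to6_of6]

private theorem GcCm_bx (b : Eu 14) (x y : En 3) : bx (GcCm_s b x y) = x :=
  congrArg Prod.fst (GcCm_blk b x y)

private theorem GcCm_bY (b : Eu 14) (x y : En 3) : bY (GcCm_s b x y) = y :=
  congrArg Prod.snd (GcCm_blk b x y)

private theorem GcCm_0 (b : Eu 14) (x y : En 3) : GcCm_s b x y 0 = b 0 := by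
  rw [GcCm_s]
  exact setblk_other b _ (by unfold isP; decide)

private theorem GcCm_13 (b : Eu 14) (x y : En 3) : GcCm_s b x y 13 = b 13 := by
  rw [GcCm_s]
  exact setblk_other b _ (by unfold isP; decide)

private theorem GcCm_z (b : Eu 14) (x y : En 3) : bz (GcCm_s b x y) = bz b := by
  rw [GcCm_s, bz_setblk]

private theorem GcCm_toS (b : Eu 14) (x y : En 3) :
    toS (GcCm_s b x y) = (b 0, x, y, b 13) := by
  rw [toS, GcCm_bx, GcCm_bY, GcCm_0, GcCm_13]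

/-- `a` depends only on the norms -/
private noncomputable def GcCm_a (l : ℝ) (b : Eu 14) (x y : En 3) : ℝ := aa (l • (b 0, x, y, b 13))

private theorem GcCm_a_congr (l : ℝ) (b : Eu 14) {x y x' y' : En 3} (h1 : ‖x‖ = ‖x'‖)
    (h2 : ‖y‖ = ‖y'‖) : GcCm_a l b x y = GcCm_a l b x' y' := by
  have e1 : ‖l • x‖ = ‖l • x'‖ := by rw [norm_smul, norm_smul, h1]
  have e2 : ‖l • y‖ = ‖l • y'‖ := by rw [norm_smul, norm_smul, h2]
  show l • b 13 - Real.log (Real.exp (-2 * (l • b 0)) * (1 + ‖l • x‖ ^ 2)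
    + Real.exp (2 * (l • b 0)) * (1 + ‖l • y‖ ^ 2)) / 2 =
    l • b 13 - Real.log (Real.exp (-2 * (l • b 0)) * (1 + ‖l • x'‖ ^ 2)
    + Real.exp (2 * (l • b 0)) * (1 + ‖l • y'‖ ^ 2)) / 2
  rw [e1, e2]

private theorem GcCm_chI (l : ℝ) (b : Eu 14) (x y : En 3) :
    chI l (GcCm_s b x y) =
      j14 (Real.exp (GcCm_a l b x y - l * b 0) • mk4 1 (l • x))
        (Real.exp (GcCm_a l b x y + l * b 0) • mk4 1 (l • y)) (l • bz b) := by
  rw [chI, GcCm_toS, GcCm_z]
  rfl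

private theorem GcCm_tha4 {l : ℝ} (hl : 0 < l) {c : ℝ} (hc : 0 < c) (x : En 3) :
    tha4 l (c • mk4 1 (l • x)) = tha 1 x := by
  have h0 : (c • mk4 1 (l • x)) 0 = c := by
    show c * 1 = c
    ring
  have h1 : vec4 (c • mk4 1 (l • x)) = c • (l • x) := by
    have h2 : c • mk4 1 (l • x) = mk4 (c * 1) (c • (l • x)) := (mk4_smul c 1 (l • x)).symm
    rw [h2, vec4_mk4]
  rw [tha4, h0, if_pos hc, h1, smul_smul, inv_mul_cancel₀ hc.ne', one_smul, tha_scale hl]

private theorem GcCm_rot4 (q : ℍ[ℝ]) (c l : ℝ) (y : En 3) :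
    rot4 q (c • mk4 1 (l • y)) = c • mk4 1 (l • Adq q y) := by
  rw [map_smul]
  congr 1
  have h1 : rot4 q (mk4 1 (l • y)) = mk4 ((rot4 q (mk4 1 (l • y))) 0)
      (vec4 (rot4 q (mk4 1 (l • y)))) := (mk4_vec4 _).symm
  rw [h1, rot4_zero, vec4_rot4, vec4_mk4, map_smul]
  rfl

private theorem GcCm_t1 {l : ℝ} (hl : 0 < l) (b : Eu 14) (x y : En 3) :
    t1 l (chI l (GcCm_s b x y)) = chI l (GcCm_s b x (Adq (tha 1 x) y)) := by
  rw [GcCm_chI, GcCm_chI, t1, q1_j14, q2_j14, q3_j14, tw, GcCm_tha4 hl (Real.exp_pos _),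
    GcCm_rot4, GcCm_a_congr l b (x := x) (y := y) (x' := x) (y' := Adq (tha 1 x) y) rfl
      (norm_Adq (norm_tha one_pos x) y).symm]

private theorem GcCm_t1i {l : ℝ} (hl : 0 < l) (b : Eu 14) (x y : En 3) :
    t1i l (chI l (GcCm_s b x y)) = chI l (GcCm_s b x (Adq (star (tha 1 x)) y)) := by
  rw [GcCm_chI, GcCm_chI, t1i, q1_j14, q2_j14, q3_j14, twi, GcCm_tha4 hl (Real.exp_pos _),
    GcCm_rot4, GcCm_a_congr l b (x := x) (y := y) (x' := x) (y' := Adq (star (tha 1 x)) y) rfl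
      (norm_Adq (GcCm_norm_star (norm_tha one_pos x)) y).symm]

private theorem GcCm_t2 {l : ℝ} (hl : 0 < l) (b : Eu 14) (x y : En 3) :
    t2 l (chI l (GcCm_s b x y)) = chI l (GcCm_s b (Adq (tha 1 y) x) y) := by
  rw [GcCm_chI, GcCm_chI, t2, q1_j14, q2_j14, q3_j14, tw, GcCm_tha4 hl (Real.exp_pos _),
    GcCm_rot4, GcCm_a_congr l b (x := x) (y := y) (x' := Adq (tha 1 y) x) (y' := y)
      (norm_Adq (norm_tha one_pos y) x).symm rfl]

private theorem GcCm_t2i {l : ℝ} (hl : 0 < l) (b : Eu 14) (x y : En 3) :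
    t2i l (chI l (GcCm_s b x y)) = chI l (GcCm_s b (Adq (star (tha 1 y)) x) y) := by
  rw [GcCm_chI, GcCm_chI, t2i, q1_j14, q2_j14, q3_j14, twi, GcCm_tha4 hl (Real.exp_pos _),
    GcCm_rot4, GcCm_a_congr l b (x := x) (y := y) (x' := Adq (star (tha 1 y)) x) (y' := y)
      (norm_Adq (GcCm_norm_star (norm_tha one_pos y)) x).symm rfl]

private theorem GcCm_word {l : ℝ} (hl : 0 < l) (b : Eu 14) (x y : En 3) :
    t1 l (t2 l (t1i l (t2i l (chI l (GcCm_s b x y))))) =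
      chI l (GcCm_s b (phiI (x, y)).1 (phiI (x, y)).2) := by
  rw [GcCm_t2i hl, GcCm_t1i hl, GcCm_t2 hl, GcCm_t1 hl]
  have ha : ‖tha 1 x‖ = 1 := norm_tha one_pos x
  have hb : ‖tha 1 y‖ = 1 := norm_tha one_pos y
  have e1 : tha 1 (Adq (star (tha 1 y)) x) = star (tha 1 y) * tha 1 x * tha 1 y := by
    rw [tha_Adq one_pos (GcCm_norm_star hb), star_star]
  rw [e1]
  set a := tha 1 x with hadef
  set c := tha 1 y with hcdef
  have hs1 := star_mul_of_norm ha
  have hs2 := star_mul_of_norm hb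
  have k1 : ∀ z : ℍ[ℝ], star a * (a * z) = z := fun z => by rw [← mul_assoc, hs1.1, one_mul]
  have k2 : ∀ z : ℍ[ℝ], a * (star a * z) = z := fun z => by rw [← mul_assoc, hs1.2, one_mul]
  have k3 : ∀ z : ℍ[ℝ], star c * (c * z) = z := fun z => by rw [← mul_assoc, hs2.1, one_mul]
  have k4 : ∀ z : ℍ[ℝ], c * (star c * z) = z := fun z => by rw [← mul_assoc, hs2.2, one_mul]
  have ha1 : ‖star c * a * c‖ = 1 := by
    rw [norm_mul, norm_mul, GcCm_norm_star hb, ha, hb]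
    norm_num
  have e2 : tha 1 (Adq (star (star c * a * c)) y) = star (star c * a * c) * c * (star c * a * c) := by
    rw [tha_Adq one_pos (GcCm_norm_star ha1), star_star, ← hcdef]
  rw [e2]
  have e2' : star (star c * a * c) * c * (star c * a * c) = star c * star a * c * a * c := by
    simp only [star_mul, star_star, mul_assoc, k4]
  rw [e2']
  have hb1 : ‖star c * star a * c * a * c‖ = 1 := by
    rw [norm_mul, norm_mul, norm_mul, norm_mul, GcCm_norm_star hb, GcCm_norm_star ha, ha, hb]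
    norm_num
  have e3 : tha 1 (Adq (star c * star a * c * a * c) (Adq (star c) x)) =
      (star c * star a * c * a * c) * (star c * a * c) * star (star c * star a * c * a * c) := by
    rw [tha_Adq one_pos hb1, tha_Adq one_pos (GcCm_norm_star hb), star_star, ← hadef]
  rw [e3]
  have hw : star (wq x y) = star c * star a * c * a := by
    rw [wq, ← hadef, ← hcdef]
    simp only [star_mul, star_star, mul_assoc]
  have f1 : Adq (star c * star a * c * a * c) (Adq (star c) x) = (phiI (x, y)).1 := by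
    show _ = Adq (star (wq x y)) x
    rw [← ContinuousLinearMap.comp_apply, ← Adq_mul, hw]
    congr 2
    rw [mul_assoc _ c (star c), hs2.2, mul_one]
  have f2 : Adq ((star c * star a * c * a * c) * (star c * a * c) *
      star (star c * star a * c * a * c)) (Adq (star (star c * a * c)) y) = (phiI (x, y)).2 := by
    show _ = Adq (star (wq x y)) y
    rw [← ContinuousLinearMap.comp_apply, ← Adq_mul, hw]
    congr 2
    simp only [star_mul, star_star, mul_assoc, k1, k2, k3, k4, hs1.2, mul_one]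
    simp only [← mul_assoc, hs2.2, mul_one]
    simp only [mul_assoc, k1, k2, k3, k4, hs1.1, hs1.2, hs2.1, hs2.2, mul_one]
  rw [f1, f2]

private theorem GcCm_s_self (b : Eu 14) : GcCm_s b (bx b) (bY b) = b := by
  rw [GcCm_s, ← to6_blk, of6_to6, setblk_blk]

private theorem GcCm_t1_id {l : ℝ} {u : En 14} (h : q1 u 0 ≤ 0) : t1 l u = u ∧ t1i l u = u := by
  have h1 : tha4 l (q1 u) = 1 := by rw [tha4, if_neg (not_lt.2 h)]
  constructor
  · rw [t1, tw, h1, rot4_one, j14_q]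
  · rw [t1i, twi, h1, star_one, rot4_one, j14_q]

private theorem GcCm_t2_id {l : ℝ} {u : En 14} (h : q2 u 0 ≤ 0) : t2 l u = u ∧ t2i l u = u := by
  have h1 : tha4 l (q2 u) = 1 := by rw [tha4, if_neg (not_lt.2 h)]
  constructor
  · rw [t2, tw, h1, rot4_one, j14_q]
  · rw [t2i, twi, h1, star_one, rot4_one, j14_q]

theorem comm_eq {l : ℝ} (hl : 0 < l) (w : En 14)
    (h : w ∈ chU → (ch l w 0 ≤ 2 ∨ 3 / 8 ≤ ‖bx (ch l w)‖ ∨ 3 / 8 ≤ ‖bY (ch l w)‖)) :
    t1 l (t2 l (t1i l (t2i l w))) = trans l Cb w := by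
  by_cases hw : w ∈ chU
  · have h1 := h hw
    set b := ch l w with hb
    have h2 : w = chI l b := (chI_ch hl hw).symm
    rw [h2, trans_chI hl]
    conv_lhs => rw [← GcCm_s_self b]
    rw [GcCm_word hl]
    have h3 : GcCm_s b (phiI (bx b, bY b)).1 (phiI (bx b, bY b)).2 = setblk b (phiI6 (blk b)) := by
      rw [GcCm_s, Prod.mk.eta, phiI6, to6_blk]
    rw [h3]
    rcases h1 with h1 | h1
    · rw [Cb_low b h1]
    · have h4 : phiI (bx b, bY b) = (bx b, bY b) := phiI_out (bx b, bY b) h1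
      rw [(Cb_out b h1).1, phiI6, to6_blk, h4, ← to6_blk, of6_to6, setblk_blk]
  · rw [trans_of_not Cb hw]
    obtain ⟨-, p1i, -, p2i⟩ := t_pres hl
    have h3 : q1 w 0 ≤ 0 ∨ q2 w 0 ≤ 0 := by
      by_contra hcon
      push Not at hcon
      exact hw hcon
    rcases h3 with h3 | h3
    · have h4 : q1 (t2i l w) 0 ≤ 0 := by rw [(p2i w).2.2.2.1]; exact h3
      rw [(GcCm_t1_id h4).2, (t2_t2i hl w).1, (GcCm_t1_id h3).1]
    · rw [(GcCm_t2_id h3).2]
      have h4 : q2 (t1i l w) 0 ≤ 0 := by rw [(p1i w).2.2.2.2]; exact h3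
      rw [(GcCm_t2_id h4).1, (t1_t1i hl w).1]

/-- the transported maps `C`, `C⁻¹` preserve norms -/
theorem pres_C {l : ℝ} (hl : 0 < l) (w : En 14) :
    (‖q1 (trans l Cb w)‖ = ‖q1 w‖ ∧ ‖q2 (trans l Cb w)‖ = ‖q2 w‖ ∧ q3 (trans l Cb w) = q3 w) ∧
    (‖q1 (trans l Cbi w)‖ = ‖q1 w‖ ∧ ‖q2 (trans l Cbi w)‖ = ‖q2 w‖ ∧ q3 (trans l Cbi w) = q3 w) := by
  by_cases hw : w ∈ chU
  · have h2 : w = chI l (ch l w) := (chI_ch hl hw).symm
    set b := ch l w with hb
    rw [h2, trans_chI hl, trans_chI hl, q3_chI, q3_chI, q3_chI]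
    obtain ⟨a1, a2, a3, a4, a5⟩ := Cb_keep b
    obtain ⟨c1, c2, c3, c4, c5⟩ := Cbi_keep b
    have h3 := norm_chI_congr l a1 a4 a5 a2
    have h4 := norm_chI_congr l c1 c4 c5 c2
    exact ⟨⟨h3.1, h3.2, by rw [a3]⟩, ⟨h4.1, h4.2, by rw [c3]⟩⟩
  · rw [trans_of_not Cb hw, trans_of_not Cbi hw]
    exact ⟨⟨rfl, rfl, rfl⟩, ⟨rfl, rfl, rfl⟩⟩

end EXO
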