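import Pool.Agent.EXO.DefG
import Pool.Agent.EXO.GbDefs

/-!
# EXO, part GEO-2: definitions (chart of the box, transported maps)

Unit-scale box coordinates `b = (s, x, y, z', z'', v) ∈ ℝ^14`; `l` is the scale.  `chI l b = (X, Y, z)` with
`X = e^{a - ls} (1, l x)`, `Y = e^{a + ls} (1, l y)`, `|(X,Y)| = e^{lv}`, `z = l (z', z'')`; `ch l` is the inverse, on
`chU = {X_0 > 0, Y_0 > 0}`.
-/

set_option maxSynthPendingDepth 3

open scoped ContDiff Quaternion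
open Pool.Agent.EXO

namespace EXO

/-- `(s, x, y, v)` -/
abbrev S8 := ℝ × En 3 × En 3 × ℝ
/-- `(X, Y)` -/
abbrev R8 := En 4 × En 4

/-- `a = v - (1/2) log (e^{-2s}(1+|x|²) + e^{2s}(1+|y|²))` -/
noncomputable def aa (b : S8) : ℝ :=
  b.2.2.2 - Real.log (Real.exp (-2 * b.1) * (1 + ‖b.2.1‖ ^ 2)
    + Real.exp (2 * b.1) * (1 + ‖b.2.2.1‖ ^ 2)) / 2

/-- the chart of the open cone `{X_0 > 0, Y_0 > 0}` of `ℝ⁸` -/
noncomputable def chI8 (b : S8) : R8 :=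
  (Real.exp (aa b - b.1) • mk4 1 b.2.1, Real.exp (aa b + b.1) • mk4 1 b.2.2.1)

/-- its inverse -/
noncomputable def ch8 (q : R8) : S8 :=
  (Real.log (q.2 0 / q.1 0) / 2, (q.1 0)⁻¹ • vec4 q.1, (q.2 0)⁻¹ • vec4 q.2,
    Real.log (‖q.1‖ ^ 2 + ‖q.2‖ ^ 2) / 2)

/-- the coordinates of a point of the box -/
noncomputable def bx (b : Eu 14) : En 3 := !₂[b 1, b 2, b 3]
noncomputable def bY (b : Eu 14) : En 3 := !₂[b 4, b 5, b 6]
noncomputable def bz (b : Eu 14) : En 6 := !₂[b 7, b 8, b 9, b 10, b 11, b 12]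
noncomputable def toS (b : Eu 14) : S8 := (b 0, bx b, bY b, b 13)
noncomputable def ofS (c : S8) (z : En 6) : Eu 14 :=
  !₂[c.1, c.2.1 0, c.2.1 1, c.2.1 2, c.2.2.1 0, c.2.2.1 1, c.2.2.1 2,
    z 0, z 1, z 2, z 3, z 4, z 5, c.2.2.2]

/-- box coordinates to `ℝ^14 = ℝ⁴ × ℝ⁴ × ℝ⁶` -/
noncomputable def chI (l : ℝ) (b : Eu 14) : En 14 :=
  j14 (chI8 (l • toS b)).1 (chI8 (l • toS b)).2 (l • bz b)

/-- the inverse of `chI`, on `chU` -/
noncomputable def ch (l : ℝ) (w : En 14) : Eu 14 :=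
  ofS (l⁻¹ • ch8 (q1 w, q2 w)) (l⁻¹ • q3 w)

/-- the image of the chart -/
def chU : Set (En 14) := {w | 0 < q1 w 0 ∧ 0 < q2 w 0}

/-- a map given in box coordinates, transported to `ℝ⁸ × ℝ⁶` (identity outside `chU`) -/
noncomputable def trans (l : ℝ) (g : Eu 14 → Eu 14) (w : En 14) : En 14 :=
  open Classical in if w ∈ chU then chI l (g (ch l w)) else w

/-- the maps `t₁`, `t₂` and their inverses -/
noncomputable def t1 (l : ℝ) (w : En 14) : En 14 := j14 (q1 w) (tw l (q1 w) (q2 w)) (q3 w)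
noncomputable def t1i (l : ℝ) (w : En 14) : En 14 := j14 (q1 w) (twi l (q1 w) (q2 w)) (q3 w)
noncomputable def t2 (l : ℝ) (w : En 14) : En 14 := j14 (tw l (q2 w) (q1 w)) (q2 w) (q3 w)
noncomputable def t2i (l : ℝ) (w : En 14) : En 14 := j14 (twi l (q2 w) (q1 w)) (q2 w) (q3 w)

/-- `φ⁻¹` on `ℝ⁶` -/
noncomputable def phiI6 (q : Eu 6) : Eu 6 := of6 (phiI (to6 q))

/-- the maps `C` and `C⁻¹` in the box: `τ φ^{∓1}(p/τ)`, `τ = min 1 (3 - s)` -/
noncomputable def Cb (b : Eu 14) : Eu 14 := setblk b (cone phiI6 (min 1 (3 - b 0)) (blk b))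
noncomputable def Cbi (b : Eu 14) : Eu 14 := setblk b (cone phibox (min 1 (3 - b 0)) (blk b))

/-- `f₁ ∘ (C × id)` in the box -/
noncomputable def Gbox (b : Eu 14) : Eu 14 :=
  open Classical in if b 0 ≤ 2 then Fbox (setblk b (phiI6 (blk b))) else b

/-- the map `h₁ = t₂⁻¹ C⁻¹` -/
noncomputable def hh1 (l : ℝ) (w : En 14) : En 14 := t2i l (trans l Cbi w)

end EXO
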