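import Pool.Agent.EXO.TFib

/-!
# EXO, part T, module TPaste: the pasted map `model F₁ φ₁` is bilipschitz

Hypotheses: `F₁` bilipschitz on `zle δ`, keeps `s`, `F₁ x = setblk x (φ₁ (blk x))` at `x 0 = 2`; `φ₁` bilipschitz on `Eu 6` and the
identity outside the cube of half side `R`, bounded displacement `B`.

PROOF.  Let `c ≤ 1 ≤ C` be common constants of `F₁`, `φ₁` (decrease/increase).  Use `bilip_of_slices`.
`‖setblk x q - setblk y q'‖² = ∑_{i not in P} (x_i-y_i)² + ‖q - q'‖²` and `‖x-y‖² = ∑_{i not in P} (x_i-y_i)² + ‖blk x - blk y‖²`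
(`EuclideanSpace.norm_eq`/`dist_eq`, sums over `Fin 14` expanded with `Fin.sum_univ_succ` or by splitting).
* keeps `s`: clear in both regimes (`0` is not a `P` index).
* slices: `x 0 = y 0 ≤ 2`: from `F₁`.  `x 0 = y 0 > 2`: `cone_lower` with the same `τ` gives
  `‖cone φ₁ τ p - cone φ₁ τ p'‖ ≥ c ‖p - p'‖`, so `‖setblk .. - setblk ..‖ ≥ c ‖x-y‖` (`c ≤ 1`).
* upper bound: if both `x 0, y 0 ≤ 2`: `F₁`.  If both `≥ 2` (at `x 0 = 2` the two formulas agree: `τ = 1`, `cone φ₁ 1 p = φ₁ p`,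
  hypothesis `hglue`): `‖setblk x q - setblk y q'‖ ≤ ‖x - y‖ + ‖q - q'‖` and
  `‖q - q'‖ ≤ ‖cone φ₁ τ p - cone φ₁ τ p'‖ + ‖cone φ₁ τ p' - cone φ₁ τ' p'‖ ≤ C‖p-p'‖ + C'|τ-τ'|` (`cone_upper`, `cone_time`).
  Mixed case `x 0 < 2 < y 0`: the point `w` of the segment `[x,y]` with `w 0 = 2` lies in `zle δ` (convex);
  `‖f x - f y‖ ≤ ‖f x - f w‖ + ‖f w - f y‖ ≤ C''(‖x-w‖ + ‖w-y‖) = C''‖x-y‖`.
-/

namespace EXO

open Set

/-- the part of the square norm outside the block -/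
private def tpN (x y : Eu 14) : ℝ :=
  (x 0 - y 0) ^ 2 + (x 7 - y 7) ^ 2 + (x 8 - y 8) ^ 2 + (x 9 - y 9) ^ 2 + (x 10 - y 10) ^ 2 +
    (x 11 - y 11) ^ 2 + (x 12 - y 12) ^ 2 + (x 13 - y 13) ^ 2

private theorem tp_setblk_not (x : Eu 14) (q : Eu 6) {i : Fin 14} (hi : ¬ isP i) :
    setblk x q i = x i := by
  unfold setblk
  simp [hi]

private theorem tp_setblk_P (x : Eu 14) (q : Eu 6) (j : Fin 6) :
    setblk x q (ιP j) = q j := by
  have h : isP (ιP j) := by unfold isP ιP; constructor <;> simp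
  change (if h : isP (ιP j) then q ⟨(ιP j).val - 1, by unfold isP at h; omega⟩ else x (ιP j)) = q j
  rw [dif_pos h]
  rfl

private theorem tp_norm (x y : Eu 14) (q q' : Eu 6) :
    ‖setblk x q - setblk y q'‖ ^ 2 = tpN x y + ‖q - q'‖ ^ 2 := by
  have h0 : ∀ i : Fin 14, ¬ isP i → setblk x q i - setblk y q' i = x i - y i := fun i hi => by
    rw [tp_setblk_not x q hi, tp_setblk_not y q' hi]
  have h1 : ∀ j : Fin 6, setblk x q (ιP j) - setblk y q' (ιP j) = q j - q' j := fun j => by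
    rw [tp_setblk_P, tp_setblk_P]
  rw [EuclideanSpace.real_norm_sq_eq, EuclideanSpace.real_norm_sq_eq]
  have e1 : ∀ g : Fin 14 → ℝ, ∑ i, g i = g 0 + g (ιP 0) + g (ιP 1) + g (ιP 2) + g (ιP 3) +
      g (ιP 4) + g (ιP 5) + g 7 + g 8 + g 9 + g 10 + g 11 + g 12 + g 13 := by
    intro g
    simp only [Fin.sum_univ_succ]
    simp only [Finset.univ_eq_empty, Finset.sum_empty, add_zero]
    have : ∀ a b : ℝ, a = b → a = b := fun _ _ h => h
    change g 0 + (g 1 + (g 2 + (g 3 + (g 4 + (g 5 + (g 6 + (g 7 + (g 8 + (g 9 + (g 10 + (g 11 +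
      (g 12 + g 13)))))))))))) = g 0 + g 1 + g 2 + g 3 + g 4 + g 5 + g 6 + g 7 + g 8 + g 9 + g 10 +
      g 11 + g 12 + g 13
    ring
  have e2 : ∀ g : Fin 6 → ℝ, ∑ i, g i = g 0 + g 1 + g 2 + g 3 + g 4 + g 5 := by
    intro g
    rw [Fin.sum_univ_six]
  rw [e1, e2]
  simp only [PiLp.sub_apply]
  rw [h1, h1, h1, h1, h1, h1, h0 0 (by decide), h0 7 (by decide), h0 8 (by decide),
    h0 9 (by decide), h0 10 (by decide), h0 11 (by decide), h0 12 (by decide), h0 13 (by decide)]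
  unfold tpN
  ring

private theorem tp_setblk_blk (x : Eu 14) : setblk x (blk x) = x := by
  ext i
  by_cases hi : isP i
  · obtain ⟨j, rfl⟩ : ∃ j : Fin 6, i = ιP j := by
      have h := hi
      unfold isP at h
      exact ⟨⟨i.val - 1, by omega⟩, by unfold ιP; ext; simp; omega⟩
    rw [tp_setblk_P]
    rfl
  · rw [tp_setblk_not x _ hi]

private theorem tp_norm_self (x y : Eu 14) : ‖x - y‖ ^ 2 = tpN x y + ‖blk x - blk y‖ ^ 2 := by
  have h := tp_norm x y (blk x) (blk y)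
  rwa [tp_setblk_blk, tp_setblk_blk] at h

private theorem tpN_nonneg (x y : Eu 14) : 0 ≤ tpN x y := by
  unfold tpN; positivity

private theorem tp_abs0 (x y : Eu 14) : |x 0 - y 0| ≤ ‖x - y‖ := by
  have h := tp_norm_self x y
  have h1 : (x 0 - y 0) ^ 2 ≤ tpN x y := by
    unfold tpN
    have := sq_nonneg (x 7 - y 7)
    have := sq_nonneg (x 8 - y 8)
    have := sq_nonneg (x 9 - y 9)
    have := sq_nonneg (x 10 - y 10)
    have := sq_nonneg (x 11 - y 11)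
    have := sq_nonneg (x 12 - y 12)
    have := sq_nonneg (x 13 - y 13)
    linarith
  have h2 : (x 0 - y 0) ^ 2 ≤ ‖x - y‖ ^ 2 := by
    have := sq_nonneg ‖blk x - blk y‖
    linarith
  exact abs_le_of_sq_le_sq h2 (norm_nonneg _)

private theorem tp_blk_le (x y : Eu 14) : ‖blk x - blk y‖ ≤ ‖x - y‖ := by
  have h := tp_norm_self x y
  have h1 := tpN_nonneg x y
  have h2 : ‖blk x - blk y‖ ^ 2 ≤ ‖x - y‖ ^ 2 := by linarith
  exact le_of_sq_le_sq h2 (norm_nonneg _)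

private theorem tp_setblk_le (x y : Eu 14) (q q' : Eu 6) :
    ‖setblk x q - setblk y q'‖ ≤ ‖x - y‖ + ‖q - q'‖ := by
  have h := tp_norm x y q q'
  have h1 := tp_norm_self x y
  have h2 : ‖setblk x q - setblk y q'‖ ^ 2 ≤ (‖x - y‖ + ‖q - q'‖) ^ 2 := by
    have h3 := sq_nonneg ‖blk x - blk y‖
    have h4 := mul_nonneg (norm_nonneg (x - y)) (norm_nonneg (q - q'))
    nlinarith
  exact le_of_sq_le_sq h2 (by positivity)

theorem model_bilip_of {δ R B : ℝ} {F₁ : Eu 14 → Eu 14} {φ₁ : Eu 6 → Eu 6}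
    (hF : BiLip F₁ (zle δ)) (hφ : BiLip φ₁ univ) (hR0 : 0 ≤ R)
    (hs : ∀ x ∈ zle δ, F₁ x 0 = x 0)
    (hglue : ∀ x ∈ zle δ, x 0 = 2 → F₁ x = setblk x (φ₁ (blk x)))
    (hR : ∀ q : Eu 6, (∃ i, R ≤ |q i|) → φ₁ q = q) (hB : ∀ q : Eu 6, ‖φ₁ q - q‖ ≤ B) :
    BiLip (model F₁ φ₁) (zle δ) := by
  obtain ⟨c1, C1, hc1, hF'⟩ := hF
  obtain ⟨c2, C2, hc2, hφ'⟩ := hφ
  -- constants
  obtain ⟨c, hc0, hcc1, hcc2, hc1'⟩ : ∃ c : ℝ, 0 < c ∧ c ≤ c1 ∧ c ≤ c2 ∧ c ≤ 1 :=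
    ⟨min (min c1 c2) 1, lt_min (lt_min hc1 hc2) one_pos, (min_le_left _ _).trans (min_le_left _ _),
      (min_le_left _ _).trans (min_le_right _ _), min_le_right _ _⟩
  obtain ⟨C, hCC1, hCC2, hC1⟩ : ∃ C : ℝ, C1 ≤ C ∧ C2 ≤ C ∧ 1 ≤ C :=
    ⟨max (max C1 C2) 1, (le_max_left _ _).trans (le_max_left _ _),
      (le_max_right _ _).trans (le_max_left _ _), le_max_right _ _⟩
  have hB0 : 0 ≤ B := (norm_nonneg _).trans (hB 0)
  have hφl : ∀ q q' : Eu 6, c * ‖q - q'‖ ≤ ‖φ₁ q - φ₁ q'‖ := fun q q' =>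
    (mul_le_mul_of_nonneg_right hcc2 (norm_nonneg _)).trans (hφ' q (mem_univ _) q' (mem_univ _)).1
  have hφu : ∀ q q' : Eu 6, ‖φ₁ q - φ₁ q'‖ ≤ C * ‖q - q'‖ := fun q q' =>
    (hφ' q (mem_univ _) q' (mem_univ _)).2.trans (mul_le_mul_of_nonneg_right hCC2 (norm_nonneg _))
  set C' : ℝ := B + (1 + C) * Real.sqrt ((6 : ℕ) : ℝ) * R with hC'
  have hC'0 : 0 ≤ C' := by
    have h1 := Real.sqrt_nonneg ((6 : ℕ) : ℝ)
    have h2 : 0 ≤ (1 + C) * Real.sqrt ((6 : ℕ) : ℝ) * R := by positivity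
    linarith
  -- values of the model
  have hlow : ∀ x : Eu 14, x 0 ≤ 2 → model F₁ φ₁ x = F₁ x := fun x hx => by
    unfold model; rw [if_pos hx]
  have hcone1 : ∀ p : Eu 6, cone φ₁ 1 p = φ₁ p := fun p => by
    unfold cone; rw [if_pos one_pos, inv_one, one_smul, one_smul]
  have hhigh : ∀ x ∈ zle δ, 2 ≤ x 0 →
      model F₁ φ₁ x = setblk x (cone φ₁ (3 - x 0) (blk x)) := fun x hx hx2 => by
    rcases hx2.eq_or_lt with h | h
    · rw [hlow x h.symm.le, hglue x hx h.symm, ← h]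
      norm_num
      rw [hcone1]
    · unfold model; rw [if_neg (not_le.2 h)]
  have h0P : ¬ isP (0 : Fin 14) := by decide
  have hkeep : ∀ x ∈ zle δ, model F₁ φ₁ x 0 = x 0 := fun x hx => by
    rcases le_total (x 0) 2 with h | h
    · rw [hlow x h, hs x hx]
    · rw [hhigh x hx h, tp_setblk_not x _ h0P]
  -- upper bounds
  have hup1 : ∀ x ∈ zle δ, ∀ y ∈ zle δ, x 0 ≤ 2 → y 0 ≤ 2 →
      ‖model F₁ φ₁ x - model F₁ φ₁ y‖ ≤ (1 + C + C') * ‖x - y‖ := fun x hx y hy hx2 hy2 => by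
    rw [hlow x hx2, hlow y hy2]
    refine (hF' x hx y hy).2.trans (mul_le_mul_of_nonneg_right ?_ (norm_nonneg _))
    linarith
  have hup2 : ∀ x ∈ zle δ, ∀ y ∈ zle δ, 2 ≤ x 0 → 2 ≤ y 0 →
      ‖model F₁ φ₁ x - model F₁ φ₁ y‖ ≤ (1 + C + C') * ‖x - y‖ := fun x hx y hy hx2 hy2 => by
    rw [hhigh x hx hx2, hhigh y hy hy2]
    refine (tp_setblk_le x y _ _).trans ?_
    have h1 : ‖cone φ₁ (3 - x 0) (blk x) - cone φ₁ (3 - y 0) (blk y)‖ ≤
        ‖cone φ₁ (3 - x 0) (blk x) - cone φ₁ (3 - x 0) (blk y)‖ +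
        ‖cone φ₁ (3 - x 0) (blk y) - cone φ₁ (3 - y 0) (blk y)‖ := norm_sub_le_norm_sub_add_norm_sub _ _ _
    have h2 := cone_upper hC1 hφu (3 - x 0) (blk x) (blk y)
    have h3 := cone_time hR0 (by linarith : (0 : ℝ) ≤ C) hR hB hφu (3 - x 0) (3 - y 0) (blk y)
    rw [← hC'] at h3
    have h4 : |3 - x 0 - (3 - y 0)| ≤ ‖x - y‖ := by
      have h5 : 3 - x 0 - (3 - y 0) = - (x 0 - y 0) := by ring
      rw [h5, abs_neg]
      exact tp_abs0 x y
    have h6 := tp_blk_le x y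
    have h7 : C * ‖blk x - blk y‖ ≤ C * ‖x - y‖ := mul_le_mul_of_nonneg_left h6 (by linarith)
    have h8 : C' * |3 - x 0 - (3 - y 0)| ≤ C' * ‖x - y‖ := mul_le_mul_of_nonneg_left h4 hC'0
    linarith
  have hup3 : ∀ x ∈ zle δ, ∀ y ∈ zle δ, x 0 < 2 → 2 < y 0 →
      ‖model F₁ φ₁ x - model F₁ φ₁ y‖ ≤ (1 + C + C') * ‖x - y‖ := fun x hx y hy hx2 hy2 => by
    have hd : 0 < y 0 - x 0 := by linarith
    obtain ⟨θ, hθ, hθ0, hθ1⟩ : ∃ θ : ℝ, θ * (y 0 - x 0) = 2 - x 0 ∧ 0 ≤ θ ∧ θ ≤ 1 := by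
      refine ⟨(2 - x 0) / (y 0 - x 0), by field_simp, div_nonneg (by linarith) hd.le, ?_⟩
      rw [div_le_one hd]; linarith
    set w : Eu 14 := x + θ • (y - x) with hw
    have hwi : ∀ i, w i = (1 - θ) * x i + θ * y i := fun i => by
      rw [hw]
      simp only [PiLp.add_apply, PiLp.smul_apply, PiLp.sub_apply, smul_eq_mul]
      ring
    have hw2 : w 0 = 2 := by
      rw [hwi]; linarith
    have hwz : w ∈ zle δ := fun i hi => by
      rw [hwi]
      have h1 := abs_le.1 (hx i hi)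
      have h2 := abs_le.1 (hy i hi)
      rw [abs_le]
      constructor
      · nlinarith [h1.1, h2.1]
      · nlinarith [h1.2, h2.2]
    have h3 := hup1 x hx w hwz hx2.le hw2.le
    have h4 := hup2 w hwz y hy hw2.ge hy2.le
    have h5 : ‖x - w‖ = θ * ‖x - y‖ := by
      have : x - w = θ • (x - y) := by rw [hw]; module
      rw [this, norm_smul, Real.norm_of_nonneg hθ0]
    have h6 : ‖w - y‖ = (1 - θ) * ‖x - y‖ := by
      have : w - y = (1 - θ) • (x - y) := by rw [hw]; module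
      rw [this, norm_smul, Real.norm_of_nonneg (by linarith)]
    rw [h5] at h3
    rw [h6] at h4
    have h7 := norm_sub_le_norm_sub_add_norm_sub (model F₁ φ₁ x) (model F₁ φ₁ w) (model F₁ φ₁ y)
    calc ‖model F₁ φ₁ x - model F₁ φ₁ y‖ ≤ _ := h7
      _ ≤ (1 + C + C') * (θ * ‖x - y‖) + (1 + C + C') * ((1 - θ) * ‖x - y‖) := add_le_add h3 h4
      _ = _ := by ring
  refine bilip_of_slices (c := c) (C := 1 + C + C') hc0 hkeep ?_ ?_
  · intro x hx y hy hxy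
    rcases le_total (x 0) 2 with h | h
    · rw [hlow x h, hlow y (hxy ▸ h)]
      exact (mul_le_mul_of_nonneg_right hcc1 (norm_nonneg _)).trans (hF' x hx y hy).1
    · rw [hhigh x hx h, hhigh y hy (hxy ▸ h), ← hxy]
      have h1 := cone_lower hc1' hφl (3 - x 0) (blk x) (blk y)
      have h2 := tp_norm x y (cone φ₁ (3 - x 0) (blk x)) (cone φ₁ (3 - x 0) (blk y))
      have h3 := tp_norm_self x y
      have h4 : (c * ‖x - y‖) ^ 2 ≤ ‖setblk x (cone φ₁ (3 - x 0) (blk x)) -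
          setblk y (cone φ₁ (3 - x 0) (blk y))‖ ^ 2 := by
        rw [h2, mul_pow, h3]
        have h5 := tpN_nonneg x y
        have h6 : (c * ‖blk x - blk y‖) ^ 2 ≤
            ‖cone φ₁ (3 - x 0) (blk x) - cone φ₁ (3 - x 0) (blk y)‖ ^ 2 :=
          pow_le_pow_left₀ (by positivity) h1 2
        have h7 : c ^ 2 ≤ 1 := by nlinarith
        have h8 : c ^ 2 * tpN x y ≤ tpN x y := by nlinarith
        rw [mul_pow] at h6
        nlinarith
      exact le_of_sq_le_sq h4 (norm_nonneg _)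
  · intro x hx y hy
    rcases le_or_gt (x 0) 2 with h | h
    · rcases le_or_gt (y 0) 2 with h' | h'
      · exact hup1 x hx y hy h h'
      · rcases h.eq_or_lt with h'' | h''
        · exact hup2 x hx y hy h''.ge h'.le
        · exact hup3 x hx y hy h'' h'
    · rcases le_or_gt (y 0) 2 with h' | h'
      · rcases h'.eq_or_lt with h'' | h''
        · exact hup2 x hx y hy h.le h''.ge
        · rw [norm_sub_rev, norm_sub_rev x y]
          exact hup3 y hy x hx h'' h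
      · exact hup2 x hx y hy h.le h'.le

end EXO
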