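import Pool.Agent.EXO.TDefs

/-!
# EXO, part T, module TAff: maps preserving convex combinations are affine on simplices

PROOF of `AffOn.exists_affineMap`.  `v` is an affine basis `b` of `Eu n` (n+1 affinely independent points,
`hv.affineSpan_eq_top_iff_card_eq_finrank_add_one`).  Let `A` be the affine map with `A (v k) = f (v k)`
(e.g. `A x = ∑ k, b.coord k x • f (v k)`, an affine map built from the affine functionals `b.coord k`; or, with linear maps:
`b.basisOf 0`).  For `x ∈ spx v`, `x = ∑ λ_k v_k`, `λ_k = b.coord k x ≥ 0`, `∑ λ_k = 1`.  For every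
continuous linear functional (or coordinate `i`) `y ↦ (f y) i` is both convex and concave on `spx v`
(`ConvexOn`, `ConcaveOn` from `AffOn`, `(1-θ)`/`θ` weights), so Jensen (`ConvexOn.map_sum_le`,
`ConcaveOn.le_map_sum`) gives `(f x) i = ∑ λ_k (f (v k)) i = (A x) i`.
-/

namespace EXO

open Set Function

/-- `f` preserves convex combinations of two points of `K`. -/
def AffOn {n : ℕ} {W : Type*} [NormedAddCommGroup W] [NormedSpace ℝ W] (f : Eu n → W)
    (K : Set (Eu n)) : Prop :=
  ∀ x ∈ K, ∀ y ∈ K, ∀ θ : ℝ, 0 ≤ θ → θ ≤ 1 →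
    f ((1 - θ) • x + θ • y) = (1 - θ) • f x + θ • f y

theorem AffOn.mono {n : ℕ} {W : Type*} [NormedAddCommGroup W] [NormedSpace ℝ W] {f : Eu n → W}
    {K K' : Set (Eu n)} (h : AffOn f K) (hK : K' ⊆ K) : AffOn f K' :=
  fun x hx y hy θ h0 h1 => h x (hK hx) y (hK hy) θ h0 h1

theorem AffOn.exists_affineMap {n : ℕ} {f : Eu n → Eu n} {v : Fin (n + 1) → Eu n}
    (hv : AffineIndependent ℝ v) (hf : AffOn f (spx v)) :
    ∃ A : Eu n →ᵃ[ℝ] Eu n, EqOn f A (spx v) := by
  have hspan : affineSpan ℝ (range v) = ⊤ := by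
    rw [hv.affineSpan_eq_top_iff_card_eq_finrank_add_one]
    simp
  let b : AffineBasis (Fin (n + 1)) ℝ (Eu n) := ⟨v, hv, hspan⟩
  have hbv : ∀ k, b k = v k := fun k => rfl
  let A : Eu n →ᵃ[ℝ] Eu n :=
    { toFun := fun x => ∑ k, b.coord k x • f (v k)
      linear := ∑ k, ((b.coord k).linear).smulRight (f (v k))
      map_vadd' := by
        intro p w
        have h1 : ∀ k, b.coord k (w +ᵥ p) = (b.coord k).linear w + b.coord k p := fun k =>
          (b.coord k).map_vadd p w
        change ∑ k, b.coord k (w +ᵥ p) • f (v k)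
          = (∑ k, ((b.coord k).linear).smulRight (f (v k))) w + ∑ k, b.coord k p • f (v k)
        rw [LinearMap.sum_apply, ← Finset.sum_add_distrib]
        refine Finset.sum_congr rfl fun k _ => ?_
        rw [h1, add_smul, LinearMap.smulRight_apply] }
  have hA : ∀ x, A x = ∑ k, b.coord k x • f (v k) := fun x => rfl
  have hcv : Convex ℝ (spx v) := convex_convexHull ℝ _
  refine ⟨A, fun x hx => ?_⟩
  have hnn : ∀ k, 0 ≤ b.coord k x := by
    have h1 : x ∈ convexHull ℝ (range b) := hx
    rw [b.convexHull_eq_nonneg_coord] at h1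
    exact h1
  have hsum : ∑ k, b.coord k x = 1 := b.sum_coord_apply_eq_one x
  have hx' : ∑ k, b.coord k x • v k = x := b.linear_combination_coord_eq_self x
  have hmem : ∀ k, v k ∈ spx v := fun k => subset_convexHull ℝ _ (mem_range_self k)
  ext i
  have hcvx : ConvexOn ℝ (spx v) (fun y => (f y) i) := by
    refine ⟨hcv, fun y hy z hz a c ha hc hac => ?_⟩
    have ha' : a = 1 - c := by linarith
    subst ha'
    have h := hf y hy z hz c hc (by linarith)
    change (f ((1 - c) • y + c • z)) i ≤ _
    rw [h]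
    simp
  have hccv : ConcaveOn ℝ (spx v) (fun y => (f y) i) := by
    refine ⟨hcv, fun y hy z hz a c ha hc hac => ?_⟩
    have ha' : a = 1 - c := by linarith
    subst ha'
    have h := hf y hy z hz c hc (by linarith)
    change _ ≤ (f ((1 - c) • y + c • z)) i
    rw [h]
    simp
  have h1 := hcvx.map_sum_le (t := Finset.univ) (w := fun k => b.coord k x) (p := v)
    (fun k _ => hnn k) hsum (fun k _ => hmem k)
  have h2 := hccv.le_map_sum (t := Finset.univ) (w := fun k => b.coord k x) (p := v)
    (fun k _ => hnn k) hsum (fun k _ => hmem k)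
  rw [hx'] at h1 h2
  rw [hA]
  have h3 : (∑ k, b.coord k x • f (v k)) i = ∑ k, b.coord k x • (f (v k)) i := by
    simp
  rw [h3]
  exact le_antisymm h1 h2

end EXO
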