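import Pool.Agent.EXO.TKint
import Pool.Agent.EXO.TAff

/-!
# EXO, part T, module TKaff: the interpolation is affine on the cells of the Kuhn arrangement

PROOF.  (1) Formula.  Let `a : Fin n → ℤ`, `z : Eu n` with `r_i := z_i/h - a_i ∈ [0,1]` for all `i`, and `σ` a permutation of `Fin n`
with `r ∘ σ` antitone.  Put `ρ_0 = 1`, `ρ_{k+1} = r_{σ k}` (`k < n`), `ρ_{n+1} = 0` and
`b_k = h (a + 1_{σ '' {0,…,k-1}})`.  Then `kh h F z = ∑_{k=0}^{n} (ρ_k - ρ_{k+1}) • F (b_k)`:
split `∫_0^1` at the points `ρ_{n+1} ≤ ρ_n ≤ … ≤ ρ_0`; for `t ∈ (ρ_{k+1}, ρ_k)`, `t ∈ (0,1)`: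
`⌈z_i/h - t⌉ = a_i + ⌈r_i - t⌉`, `= a_i + 1` if `r_i > t` and `= a_i` if `r_i < t` (`r_i - t ∈ (-1,0)`), and `r_i > t` iff `i ∈ σ '' {0..k-1}`
(`r_{σ j} ≥ ρ_k > t` for `j < k`, `r_{σ j} ≤ ρ_{k+1} < t` for `j ≥ k`).  (`intervalIntegral.sum_integral_adjacent_intervals`
or an induction.)
(2) Let `x, y ∈ K`, `w = (1-θ)x + θy`.  `a_i := ⌊min(x_i,y_i)/h⌋`: by `h1` with `m = a_i + 1` also
`max(x_i,y_i) ≤ h(a_i+1)` (otherwise `x_i - h m` and `y_i - h m` have strictly opposite signs).  So `r = x/h - a`, `r' = y/h - a ∈ [0,1]ⁿ`,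
and by `h2` with `m = a_i - a_j`: `(r_i - r_j)` and `(r'_i - r'_j)` are both `≥ 0` or both `≤ 0`.  Let `σ` sort `r + r'`
decreasingly (`Tuple.sort`): for `j ≤ k`, `(r+r')_{σ j} ≥ (r+r')_{σ k}`, so (both differences have the same weak sign and their
sum is `≥ 0`) — if both are `≤ 0` their sum is `≤ 0`, hence both are `0` — in any case `r_{σ j} ≥ r_{σ k}` and
`r'_{σ j} ≥ r'_{σ k}`: `r∘σ`, `r'∘σ` and `((1-θ)r+θr')∘σ` are antitone.  Apply (1) to `x, y, w` with the same `a, σ`; the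
right side is affine in `r`.
-/

namespace EXO

open MeasureTheory Set

/-- the vertices of the Kuhn simplex -/
private noncomputable def tkaB {n : ℕ} (h : ℝ) (a : Fin n → ℤ) (σ : Equiv.Perm (Fin n)) (m : ℕ) :
    Eu n :=
  WithLp.toLp 2 (fun i => h * ((a i : ℝ) + if (σ.symm i : ℕ) < m then 1 else 0))

private theorem tka_init {n : ℕ} (p : Fin n → Prop) (hp : ∀ j k : Fin n, j ≤ k → p k → p j) :
    ∃ m : ℕ, m ≤ n ∧ ∀ k : Fin n, p k ↔ (k : ℕ) < m := by
  classical
  have hex : ∃ m : ℕ, ∀ hm : m < n, ¬ p ⟨m, hm⟩ := ⟨n, fun h => absurd h (lt_irrefl n)⟩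
  refine ⟨Nat.find hex, Nat.find_min' hex fun h => absurd h (lt_irrefl n), fun k => ⟨?_, ?_⟩⟩
  · intro hk
    by_contra hlt
    push Not at hlt
    have hm : Nat.find hex < n := lt_of_le_of_lt hlt k.2
    exact Nat.find_spec hex hm (hp ⟨_, hm⟩ k hlt hk)
  · intro hk
    have h1 := Nat.find_min hex hk
    push Not at h1
    obtain ⟨_, h2⟩ := h1
    exact h2

private theorem tka_pt {n : ℕ} {W : Type*} [NormedAddCommGroup W] [NormedSpace ℝ W]
    {h : ℝ} (hh : 0 < h) (F : Eu n → W) (a : Fin n → ℤ) (σ : Equiv.Perm (Fin n)) (z : Eu n)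
    (r : Fin n → ℝ) (hr0 : ∀ i, 0 ≤ r i) (hr1 : ∀ i, r i ≤ 1) (hz : ∀ i, z i = h * (a i + r i))
    (hσ : Antitone (r ∘ σ)) {t : ℝ} (ht0 : 0 < t) (ht1 : t < 1) :
    F (kgrid h z t) = F (tkaB h a σ 0) + ∑ k : Fin n,
      (Iio (r (σ k))).indicator (fun _ => F (tkaB h a σ (k + 1)) - F (tkaB h a σ k)) t := by
  classical
  obtain ⟨m, hmn, hm⟩ := tka_init (fun k : Fin n => t < r (σ k))
    (fun j k hjk hk => lt_of_lt_of_le hk (hσ hjk))
  have h1 : kgrid h z t = tkaB h a σ m := by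
    ext i
    show h * ((⌈z i / h - t⌉ : ℤ) : ℝ) = h * ((a i : ℝ) + if (σ.symm i : ℕ) < m then 1 else 0)
    congr 1
    have h2 : z i / h = a i + r i := by
      rw [hz]; field_simp
    rw [h2]
    have h3 := hm (σ.symm i)
    rw [Equiv.apply_symm_apply] at h3
    by_cases hlt : t < r i
    · rw [if_pos (h3.1 hlt)]
      have h4 : ⌈(a i : ℝ) + r i - t⌉ = a i + 1 := by
        rw [Int.ceil_eq_iff]
        push_cast
        constructor
        · linarith
        · linarith [hr1 i]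
      rw [h4]
      push_cast
      ring
    · rw [if_neg (fun h => hlt (h3.2 h))]
      have h4 : ⌈(a i : ℝ) + r i - t⌉ = a i := by
        rw [Int.ceil_eq_iff]
        push Not at hlt
        constructor
        · linarith [hr0 i]
        · linarith
      rw [h4, add_zero]
  have h5 : ∑ k : Fin n, (Iio (r (σ k))).indicator
      (fun _ => F (tkaB h a σ (k + 1)) - F (tkaB h a σ k)) t =
      ∑ k ∈ Finset.range m, (F (tkaB h a σ (k + 1)) - F (tkaB h a σ k)) := by
    have h6 : ∀ k : Fin n, (Iio (r (σ k))).indicator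
        (fun _ => F (tkaB h a σ (k + 1)) - F (tkaB h a σ k)) t =
        if (k : ℕ) < m then F (tkaB h a σ ((k : ℕ) + 1)) - F (tkaB h a σ k) else 0 := by
      intro k
      rw [indicator_apply]
      by_cases hk : t < r (σ k)
      · rw [if_pos (show t ∈ Iio (r (σ k)) from hk), if_pos ((hm k).1 hk)]
      · rw [if_neg (show t ∉ Iio (r (σ k)) from hk), if_neg (fun h => hk ((hm k).2 h))]
    rw [Finset.sum_congr rfl fun k _ => h6 k,
      Fin.sum_univ_eq_sum_range
        (fun k => if k < m then F (tkaB h a σ (k + 1)) - F (tkaB h a σ k) else 0) n,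
      ← Finset.sum_filter]
    refine Finset.sum_congr ?_ fun _ _ => rfl
    ext k
    simp only [Finset.mem_filter, Finset.mem_range]
    omega
  rw [h1, h5, Finset.sum_range_sub (fun k => F (tkaB h a σ k))]
  abel

private theorem tka_int {W : Type*} [NormedAddCommGroup W] [NormedSpace ℝ W] [CompleteSpace W]
    {ρ : ℝ} (h0 : 0 ≤ ρ) (h1 : ρ ≤ 1) (c : W) :
    ∫ t in Ioo (0 : ℝ) 1, (Iio ρ).indicator (fun _ => c) t = ρ • c := by
  rw [setIntegral_indicator measurableSet_Iio, Ioo_inter_Iio, min_eq_right h1,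
    setIntegral_const]
  congr 1
  rw [Measure.real, Real.volume_Ioo, sub_zero, ENNReal.toReal_ofReal h0]

private theorem tka_formula {n : ℕ} {W : Type*} [NormedAddCommGroup W] [NormedSpace ℝ W]
    [CompleteSpace W]
    {h : ℝ} (hh : 0 < h) (F : Eu n → W) (a : Fin n → ℤ) (σ : Equiv.Perm (Fin n)) (z : Eu n)
    (r : Fin n → ℝ) (hr0 : ∀ i, 0 ≤ r i) (hr1 : ∀ i, r i ≤ 1) (hz : ∀ i, z i = h * (a i + r i))
    (hσ : Antitone (r ∘ σ)) :
    kh h F z = F (tkaB h a σ 0) +
      ∑ k : Fin n, r (σ k) • (F (tkaB h a σ (k + 1)) - F (tkaB h a σ k)) := by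
  unfold kh
  rw [intervalIntegral.integral_of_le zero_le_one, integral_Ioc_eq_integral_Ioo,
    setIntegral_congr_fun measurableSet_Ioo
      (fun t ht => tka_pt hh F a σ z r hr0 hr1 hz hσ ht.1 ht.2)]
  have hint : ∀ k : Fin n, IntegrableOn (fun t => (Iio (r (σ k))).indicator
      (fun _ => F (tkaB h a σ (k + 1)) - F (tkaB h a σ k)) t) (Ioo 0 1) volume := fun k =>
    (integrable_const _).indicator measurableSet_Iio
  rw [integral_add (integrable_const _) (integrable_finsetSum _ fun k _ => hint k),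
    integral_finsetSum _ fun k _ => hint k]
  congr 1
  · rw [setIntegral_const, Measure.real, Real.volume_Ioo]
    simp
  · exact Finset.sum_congr rfl fun k _ => tka_int (hr0 _) (hr1 _) _

theorem kh_affOn {n : ℕ} {W : Type*} [NormedAddCommGroup W] [NormedSpace ℝ W] [CompleteSpace W]
    {h : ℝ} (hh : 0 < h) (F : Eu n → W) (K : Set (Eu n))
    (h1 : ∀ i : Fin n, ∀ m : ℤ, (∀ x ∈ K, 0 ≤ x i - h * m) ∨ (∀ x ∈ K, x i - h * m ≤ 0))
    (h2 : ∀ i j : Fin n, ∀ m : ℤ,
      (∀ x ∈ K, 0 ≤ x i - x j - h * m) ∨ (∀ x ∈ K, x i - x j - h * m ≤ 0)) :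
    AffOn (kh h F) K := by
  intro x hx y hy θ hθ0 hθ1
  set a : Fin n → ℤ := fun i => ⌊min (x i) (y i) / h⌋ with ha
  have hmin : ∀ i, h * a i ≤ min (x i) (y i) := by
    intro i
    have := Int.floor_le (min (x i) (y i) / h)
    rw [le_div_iff₀ hh] at this
    rw [mul_comm]
    exact this
  have hmin' : ∀ i, min (x i) (y i) < h * (a i + 1) := by
    intro i
    have := Int.lt_floor_add_one (min (x i) (y i) / h)
    rw [div_lt_iff₀ hh] at this
    rw [mul_comm]
    exact this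
  have hmax : ∀ i, x i ≤ h * (a i + 1) ∧ y i ≤ h * (a i + 1) := by
    intro i
    rcases h1 i (a i + 1) with h3 | h3
    · exfalso
      have e1 := h3 x hx
      have e2 := h3 y hy
      have e3 := hmin' i
      push_cast at e1 e2
      rcases min_choice (x i) (y i) with e4 | e4 <;> rw [e4] at e3 <;> linarith
    · have e1 := h3 x hx
      have e2 := h3 y hy
      push_cast at e1 e2
      constructor <;> linarith
  have hdiv : ∀ u b : ℝ, u = h * (b + (u / h - b)) := by
    intro u b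
    field_simp
    ring
  set r : Fin n → ℝ := fun i => x i / h - a i with hr
  set r' : Fin n → ℝ := fun i => y i / h - a i with hr'
  have hxr : ∀ i, x i = h * (a i + r i) := fun i => hdiv _ _
  have hyr : ∀ i, y i = h * (a i + r' i) := fun i => hdiv _ _
  have hr0 : ∀ i, 0 ≤ r i := by
    intro i
    have e1 := (hmin i).trans (min_le_left _ _)
    rw [hxr i] at e1
    have := le_of_mul_le_mul_left e1 hh
    linarith
  have hr0' : ∀ i, 0 ≤ r' i := by
    intro i
    have e1 := (hmin i).trans (min_le_right _ _)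
    rw [hyr i] at e1
    have := le_of_mul_le_mul_left e1 hh
    linarith
  have hr1 : ∀ i, r i ≤ 1 := by
    intro i
    have e1 := (hmax i).1
    rw [hxr i] at e1
    have := le_of_mul_le_mul_left e1 hh
    linarith
  have hr1' : ∀ i, r' i ≤ 1 := by
    intro i
    have e1 := (hmax i).2
    rw [hyr i] at e1
    have := le_of_mul_le_mul_left e1 hh
    linarith
  obtain ⟨σ, hσ⟩ : ∃ σ : Equiv.Perm (Fin n), Antitone ((fun i => r i + r' i) ∘ σ) := by
    refine ⟨Tuple.sort (fun i => -(r i + r' i)), fun j k hjk => ?_⟩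
    have := Tuple.monotone_sort (fun i => -(r i + r' i)) hjk
    simp only [Function.comp_apply] at this ⊢
    linarith
  have hboth : ∀ j k : Fin n, j ≤ k → r (σ k) ≤ r (σ j) ∧ r' (σ k) ≤ r' (σ j) := by
    intro j k hjk
    have e0 := hσ hjk
    simp only [Function.comp_apply] at e0
    have e1 : x (σ j) - x (σ k) - h * ((a (σ j) - a (σ k) : ℤ) : ℝ) = h * (r (σ j) - r (σ k)) := by
      rw [hxr (σ j), hxr (σ k)]
      push_cast
      ring
    have e2 : y (σ j) - y (σ k) - h * ((a (σ j) - a (σ k) : ℤ) : ℝ) = h * (r' (σ j) - r' (σ k)) := by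
      rw [hyr (σ j), hyr (σ k)]
      push_cast
      ring
    rcases h2 (σ j) (σ k) (a (σ j) - a (σ k)) with h3 | h3
    · have e3 := h3 x hx
      have e4 := h3 y hy
      rw [e1] at e3
      rw [e2] at e4
      have e5 := nonneg_of_mul_nonneg_right e3 hh
      have e6 := nonneg_of_mul_nonneg_right e4 hh
      constructor <;> linarith
    · have e3 := h3 x hx
      have e4 := h3 y hy
      rw [e1] at e3
      rw [e2] at e4
      have e5 : r (σ j) - r (σ k) ≤ 0 := nonpos_of_mul_nonpos_right e3 hh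
      have e6 : r' (σ j) - r' (σ k) ≤ 0 := nonpos_of_mul_nonpos_right e4 hh
      constructor <;> linarith
  have hA : Antitone (r ∘ σ) := fun j k hjk => (hboth j k hjk).1
  have hA' : Antitone (r' ∘ σ) := fun j k hjk => (hboth j k hjk).2
  have hθ' : 0 ≤ 1 - θ := by linarith
  set s : Fin n → ℝ := fun i => (1 - θ) * r i + θ * r' i with hs
  have hzs : ∀ i, ((1 - θ) • x + θ • y) i = h * (a i + s i) := by
    intro i
    have e1 : ((1 - θ) • x + θ • y) i = (1 - θ) * x i + θ * y i := rfl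
    rw [e1, hxr i, hyr i]
    simp only [hs]
    ring
  have hs0 : ∀ i, 0 ≤ s i := fun i =>
    add_nonneg (mul_nonneg hθ' (hr0 i)) (mul_nonneg hθ0 (hr0' i))
  have hs1 : ∀ i, s i ≤ 1 := by
    intro i
    have e1 := mul_le_mul_of_nonneg_left (hr1 i) hθ'
    have e2 := mul_le_mul_of_nonneg_left (hr1' i) hθ0
    simp only [hs]
    linarith
  have hAs : Antitone (s ∘ σ) := by
    intro j k hjk
    have e1 := mul_le_mul_of_nonneg_left (hA hjk) hθ'
    have e2 := mul_le_mul_of_nonneg_left (hA' hjk) hθ0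
    simp only [Function.comp_apply, hs] at e1 e2 ⊢
    linarith
  rw [tka_formula hh F a σ _ s hs0 hs1 hzs hAs, tka_formula hh F a σ x r hr0 hr1 hxr hA,
    tka_formula hh F a σ y r' hr0' hr1' hyr hA']
  rw [smul_add, smul_add, Finset.smul_sum, Finset.smul_sum]
  have e1 : ∀ k : Fin n, s (σ k) • (F (tkaB h a σ (k + 1)) - F (tkaB h a σ k)) =
      (1 - θ) • r (σ k) • (F (tkaB h a σ (k + 1)) - F (tkaB h a σ k)) +
      θ • r' (σ k) • (F (tkaB h a σ (k + 1)) - F (tkaB h a σ k)) := by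
    intro k
    rw [smul_smul, smul_smul, ← add_smul]
  rw [Finset.sum_congr rfl fun k _ => e1 k, Finset.sum_add_distrib]
  have e2 : F (tkaB h a σ 0) = (1 - θ) • F (tkaB h a σ 0) + θ • F (tkaB h a σ 0) := by
    rw [← add_smul]
    simp
  nth_rewrite 1 [e2]
  abel

end EXO
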