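import Pool.Agent.EXO.TBoxDefs
import Pool.Agent.EXO.TKaff

/-!
# EXO, part T, module TSub: the pasted interpolation is affine on the cells of a finite arrangement

`f = model (kh h G) (kh h φ)`, where `kh h φ` is the identity outside a cube of half side `R`, and
`U = {-1 ≤ x 0 ≤ 4, |p_i| ≤ ρ + 1, |x 13| ≤ 1, |z_i| ≤ δ}` (bounded in all coordinates: `|x_i| ≤ R₀` for all `i`).

`L` := all of the following affine functionals with `m ∈ ℤ`, `|m| ≤ m₀` (`m₀` with `h m₀ ≥ 2 R₀ + 1` and `k0 ≤ m₀/2` where `h k0 ≥ R`):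
`x_i - h m`, `x_i - x_j - h m` (`i, j : Fin 14`), `x_0 - 2`, `x_0 - 3`, and `x_{ιP i} - h m (3 - x_0)`,
`x_{ιP i} - x_{ιP j} - h m (3 - x_0)` (`i, j : Fin 6`).  A finite set (images of finite sets).

PROOF.  Let `K ⊆ U` with constant signs (for `L`).
(1) For `|m| > m₀` the functionals `x_i - hm`, `x_i - x_j - hm` have constant sign on `U` because `|x_i|, |x_i - x_j| ≤ 2R₀`.  So
`kh_affOn` applies: `kh h G` is `AffOn K`.
(2) Sign of `x_0 - 2` on `K`: if `≤ 0`, `f = kh h G` on `K` and, `w = (1-θ)x+θy` having `w 0 ≤ 2`, also at `w`.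
(3) If `x_0 - 2 ≥ 0` on `K`: `f x = setblk x (cone (kh h φ) (3 - x 0) (blk x))` for all `x` with `x 0 ≥ 2`: for `x 0 = 2` this is the
hypothesis `hglue` (`cone ψ 1 p = ψ p`) — it is used at points of `K` and their convex combinations, which lie in `zle δ`
(convex).  `setblk` is jointly affine, so it is enough that `x ↦ cone (kh h φ) (3 - x 0) (blk x)` is `AffOn K`.  If `x_0 - 3 ≤ 0` on
`K`: `cone_affOn` with `S = 3 - x 0`, `P = blk`; its `hφ` is `kh_affOn` for `φ`.  If `x_0 - 3 ≥ 0` on `K`: then `τ ≤ 0` and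
`cone .. = blk x`, affine.
-/

namespace EXO

open Set

/-- coordinate functional -/
private noncomputable def tsCo (i : Fin 14) : Eu 14 →ᵃ[ℝ] ℝ :=
  ((EuclideanSpace.proj (𝕜 := ℝ) i : Eu 14 →L[ℝ] ℝ) : Eu 14 →ₗ[ℝ] ℝ).toAffineMap

private theorem tsCo_apply (i : Fin 14) (x : Eu 14) : tsCo i x = x i := rfl

/-- constant functional -/
private noncomputable def tsK (c : ℝ) : Eu 14 →ᵃ[ℝ] ℝ := AffineMap.const ℝ (Eu 14) c

private theorem tsK_apply (c : ℝ) (x : Eu 14) : tsK c x = c := rfl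

private noncomputable def tsF1 (h : ℝ) (i : Fin 14) (m : ℤ) : Eu 14 →ᵃ[ℝ] ℝ :=
  tsCo i - tsK (h * m)

private theorem tsF1_apply (h : ℝ) (i : Fin 14) (m : ℤ) (x : Eu 14) :
    tsF1 h i m x = x i - h * m := rfl

private noncomputable def tsF2 (h : ℝ) (i j : Fin 14) (m : ℤ) : Eu 14 →ᵃ[ℝ] ℝ :=
  tsCo i - tsCo j - tsK (h * m)

private theorem tsF2_apply (h : ℝ) (i j : Fin 14) (m : ℤ) (x : Eu 14) :
    tsF2 h i j m x = x i - x j - h * m := rfl

private noncomputable def tsF3 (h : ℝ) (i : Fin 6) (m : ℤ) : Eu 14 →ᵃ[ℝ] ℝ :=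
  tsCo (ιP i) - (h * m) • (tsK 3 - tsCo 0)

private theorem tsF3_apply (h : ℝ) (i : Fin 6) (m : ℤ) (x : Eu 14) :
    tsF3 h i m x = x (ιP i) - h * m * (3 - x 0) := rfl

private noncomputable def tsF4 (h : ℝ) (i j : Fin 6) (m : ℤ) : Eu 14 →ᵃ[ℝ] ℝ :=
  tsCo (ιP i) - tsCo (ιP j) - (h * m) • (tsK 3 - tsCo 0)

private theorem tsF4_apply (h : ℝ) (i j : Fin 6) (m : ℤ) (x : Eu 14) :
    tsF4 h i j m x = x (ιP i) - x (ιP j) - h * m * (3 - x 0) := rfl

/-- the block as an affine map -/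
private noncomputable def tsBlk : Eu 14 →ᵃ[ℝ] Eu 6 :=
  LinearMap.toAffineMap
    { toFun := blk
      map_add' := fun _ _ => rfl
      map_smul' := fun _ _ => rfl }

private theorem tsBlk_apply (x : Eu 14) : tsBlk x = blk x := rfl

private theorem tsBlk_coord (x : Eu 14) (i : Fin 6) : blk x i = x (ιP i) := rfl

private theorem ts_setblk (x y : Eu 14) (q q' : Eu 6) (a b : ℝ) :
    setblk (a • x + b • y) (a • q + b • q') = a • setblk x q + b • setblk y q' := by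
  ext i
  unfold setblk
  simp only [PiLp.add_apply, PiLp.smul_apply]
  by_cases h : isP i
  · simp only [dif_pos h]
  · simp only [dif_neg h]

private theorem ts_cone_one (ψ : Eu 6 → Eu 6) (p : Eu 6) : cone ψ 1 p = ψ p := by
  rw [cone_pos ψ one_pos, inv_one, one_smul, one_smul]

private theorem ts_index (i : Fin 14) : i = 0 ∨ isP i ∨ isZ i ∨ i = 13 := by
  unfold isP isZ
  rcases i with ⟨i, hi⟩
  simp only [Fin.ext_iff]
  have : ((0 : Fin 14) : ℕ) = 0 := rfl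
  have : ((13 : Fin 14) : ℕ) = 13 := rfl
  omega

theorem model_subord {δ ρ R h : ℝ} (hh : 0 < h) (G : Eu 14 → Eu 14) (φ : Eu 6 → Eu 6)
    (hR : ∀ q : Eu 6, (∃ i, R ≤ |q i|) → kh h φ q = q)
    (hglue : ∀ x ∈ zle δ, x 0 = 2 → kh h G x = setblk x (kh h φ (blk x))) :
    ∃ L : Set (Eu 14 →ᵃ[ℝ] ℝ), L.Finite ∧
      Subord (model (kh h G) (kh h φ)) L
        (zle δ ∩ {x | -1 ≤ x 0 ∧ x 0 ≤ 4 ∧ (∀ i, isP i → |x i| ≤ ρ + 1) ∧ |x 13| ≤ 1}) := by
  set R0 : ℝ := 4 + |ρ + 1| + |δ| with hR0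
  obtain ⟨k0, hk0⟩ := exists_nat_ge (R / h)
  obtain ⟨m1, hm1⟩ := exists_nat_ge (2 * R0 / h)
  have hk0' : R ≤ h * k0 := by
    rw [div_le_iff₀ hh] at hk0
    linarith
  have hm1' : 2 * R0 ≤ h * m1 := by
    rw [div_le_iff₀ hh] at hm1
    linarith
  set m0 : ℤ := 2 * (k0 : ℤ) + m1 with hm0
  let I := {m : ℤ // m ∈ Finset.Icc (-m0) m0}
  have hI : ∀ m : ℤ, |m| ≤ m0 → m ∈ Finset.Icc (-m0) m0 := by
    intro m hm
    rw [Finset.mem_Icc]
    exact abs_le.1 hm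
  refine ⟨range (fun p : Fin 14 × I => tsF1 h p.1 p.2.1) ∪
    range (fun p : (Fin 14 × Fin 14) × I => tsF2 h p.1.1 p.1.2 p.2.1) ∪
    {tsCo 0 - tsK 2, tsCo 0 - tsK 3} ∪
    range (fun p : Fin 6 × I => tsF3 h p.1 p.2.1) ∪
    range (fun p : (Fin 6 × Fin 6) × I => tsF4 h p.1.1 p.1.2 p.2.1), ?_, ?_⟩
  · exact ((((finite_range _).union (finite_range _)).union (toFinite _)).union
      (finite_range _)).union (finite_range _)
  intro K hKU hL
  have L1 : ∀ i : Fin 14, ∀ m : ℤ, |m| ≤ m0 →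
      (∀ x ∈ K, 0 ≤ x i - h * m) ∨ (∀ x ∈ K, x i - h * m ≤ 0) := fun i m hm =>
    hL (tsF1 h i m) (Or.inl (Or.inl (Or.inl (Or.inl ⟨(i, ⟨m, hI m hm⟩), rfl⟩))))
  have L2 : ∀ i j : Fin 14, ∀ m : ℤ, |m| ≤ m0 →
      (∀ x ∈ K, 0 ≤ x i - x j - h * m) ∨ (∀ x ∈ K, x i - x j - h * m ≤ 0) := fun i j m hm =>
    hL (tsF2 h i j m) (Or.inl (Or.inl (Or.inl (Or.inr ⟨((i, j), ⟨m, hI m hm⟩), rfl⟩))))
  have L5 : (∀ x ∈ K, 0 ≤ x 0 - 2) ∨ (∀ x ∈ K, x 0 - 2 ≤ 0) :=
    hL (tsCo 0 - tsK 2) (Or.inl (Or.inl (Or.inr (Or.inl rfl))))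
  have L6 : (∀ x ∈ K, 0 ≤ x 0 - 3) ∨ (∀ x ∈ K, x 0 - 3 ≤ 0) :=
    hL (tsCo 0 - tsK 3) (Or.inl (Or.inl (Or.inr (Or.inr rfl))))
  have L3 : ∀ i : Fin 6, ∀ m : ℤ, |m| ≤ m0 →
      (∀ x ∈ K, 0 ≤ x (ιP i) - h * m * (3 - x 0)) ∨ (∀ x ∈ K, x (ιP i) - h * m * (3 - x 0) ≤ 0) :=
    fun i m hm => hL (tsF3 h i m) (Or.inl (Or.inr ⟨(i, ⟨m, hI m hm⟩), rfl⟩))
  have L4 : ∀ i j : Fin 6, ∀ m : ℤ, |m| ≤ m0 →
      (∀ x ∈ K, 0 ≤ x (ιP i) - x (ιP j) - h * m * (3 - x 0)) ∨
      (∀ x ∈ K, x (ιP i) - x (ιP j) - h * m * (3 - x 0) ≤ 0) :=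
    fun i j m hm => hL (tsF4 h i j m) (Or.inr ⟨((i, j), ⟨m, hI m hm⟩), rfl⟩)
  -- bounds
  have hbd : ∀ x ∈ K, ∀ i : Fin 14, |x i| ≤ R0 := by
    intro x hx i
    obtain ⟨hz, h1, h2, h3, h4⟩ := hKU hx
    have e1 := abs_nonneg (ρ + 1)
    have e2 := abs_nonneg δ
    have e3 := le_abs_self (ρ + 1)
    have e4 := le_abs_self δ
    rcases ts_index i with rfl | hi | hi | rfl
    · rw [abs_le]
      constructor <;> linarith
    · linarith [h3 i hi]
    · linarith [hz i hi]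
    · linarith
  have hk00 : (0 : ℝ) ≤ k0 := Nat.cast_nonneg k0
  have hm0R : 2 * R0 ≤ h * (m0 : ℝ) := by
    have : (m0 : ℝ) = 2 * (k0 : ℝ) + m1 := by
      rw [hm0]
      push_cast
      ring
    rw [this, mul_add]
    have : 0 ≤ h * (2 * (k0 : ℝ)) := mul_nonneg hh.le (by linarith)
    linarith
  have hR00 : 0 ≤ R0 := by
    have e1 := abs_nonneg (ρ + 1)
    have e2 := abs_nonneg δ
    linarith
  have hbig : ∀ m : ℤ, ¬ |m| ≤ m0 → 2 * R0 ≤ h * m ∨ h * m ≤ -(2 * R0) := by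
    intro m hm
    rw [not_le, lt_abs] at hm
    rcases hm with hm | hm
    · left
      have : (m0 : ℝ) ≤ m := by exact_mod_cast hm.le
      exact hm0R.trans (mul_le_mul_of_nonneg_left this hh.le)
    · right
      have : (m : ℝ) ≤ -(m0 : ℝ) := by
        have h5 : m ≤ -m0 := by linarith
        exact_mod_cast h5
      have := mul_le_mul_of_nonneg_left this hh.le
      linarith
  have hK1 : ∀ i : Fin 14, ∀ m : ℤ,
      (∀ x ∈ K, 0 ≤ x i - h * m) ∨ (∀ x ∈ K, x i - h * m ≤ 0) := by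
    intro i m
    by_cases hm : |m| ≤ m0
    · exact L1 i m hm
    · rcases hbig m hm with hb | hb
      · right
        intro x hx
        have := (abs_le.1 (hbd x hx i)).2
        linarith
      · left
        intro x hx
        have := (abs_le.1 (hbd x hx i)).1
        linarith
  have hK2 : ∀ i j : Fin 14, ∀ m : ℤ,
      (∀ x ∈ K, 0 ≤ x i - x j - h * m) ∨ (∀ x ∈ K, x i - x j - h * m ≤ 0) := by
    intro i j m
    by_cases hm : |m| ≤ m0
    · exact L2 i j m hm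
    · rcases hbig m hm with hb | hb
      · right
        intro x hx
        have h5 := (abs_le.1 (hbd x hx i)).2
        have h6 := (abs_le.1 (hbd x hx j)).1
        linarith
      · left
        intro x hx
        have h5 := (abs_le.1 (hbd x hx i)).1
        have h6 := (abs_le.1 (hbd x hx j)).2
        linarith
  have hG : AffOn (kh h G) K := kh_affOn hh G K hK1 hK2
  have hw0 : ∀ (x y : Eu 14) (θ : ℝ), ((1 - θ) • x + θ • y) 0 = (1 - θ) * x 0 + θ * y 0 :=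
    fun x y θ => rfl
  rcases L5 with h2 | h2
  · -- the part `x 0 ≥ 2`
    have hcone : AffOn (fun x : Eu 14 => cone (kh h φ) (3 - x 0) (blk x)) K := by
      rcases L6 with h3 | h3
      · intro x hx y hy θ hθ0 hθ1
        have ex := h3 x hx
        have ey := h3 y hy
        have ew : 3 - ((1 - θ) • x + θ • y) 0 ≤ 0 := by
          rw [hw0]
          nlinarith [mul_nonneg (by linarith : (0 : ℝ) ≤ 1 - θ) ex, mul_nonneg hθ0 ey]
        change cone (kh h φ) (3 - ((1 - θ) • x + θ • y) 0) (blk ((1 - θ) • x + θ • y)) =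
          (1 - θ) • cone (kh h φ) (3 - x 0) (blk x) + θ • cone (kh h φ) (3 - y 0) (blk y)
        rw [cone_nonpos _ ew, cone_nonpos _ (by linarith), cone_nonpos _ (by linarith)]
        rfl
      · have hkm : ∀ k : ℤ, |k| ≤ 2 * (k0 : ℤ) → |k| ≤ m0 := by
          intro k hk
          have : (0 : ℤ) ≤ m1 := Int.natCast_nonneg m1
          omega
        exact cone_affOn (φ := kh h φ) (R := R) (tsK 3 - tsCo 0) tsBlk K hh k0 hk0'
          (fun x hx => by
            have := h3 x hx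
            change 0 ≤ 3 - x 0
            linarith)
          (fun i k hk => L3 i k (hkm k hk))
          (fun i j k hk => L4 i j k (hkm k hk))
          hR (fun Q hq1 hq2 => kh_affOn hh φ Q hq1 hq2)
    have hval : ∀ x ∈ zle δ, 2 ≤ x 0 →
        model (kh h G) (kh h φ) x = setblk x (cone (kh h φ) (3 - x 0) (blk x)) := by
      intro x hx hx0
      unfold model
      by_cases hx2 : x 0 ≤ 2
      · have hx2' : x 0 = 2 := le_antisymm hx2 hx0
        rw [if_pos hx2, hglue x hx hx2', hx2']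
        have : (3 : ℝ) - 2 = 1 := by norm_num
        rw [this, ts_cone_one]
      · rw [if_neg hx2]
    intro x hx y hy θ hθ0 hθ1
    have hθ' : 0 ≤ 1 - θ := by linarith
    have ex := h2 x hx
    have ey := h2 y hy
    have ew : 2 ≤ ((1 - θ) • x + θ • y) 0 := by
      rw [hw0]
      nlinarith [mul_nonneg hθ' ex, mul_nonneg hθ0 ey]
    have hwz : ((1 - θ) • x + θ • y) ∈ zle δ := by
      intro i hi
      have e1 := abs_le.1 ((hKU hx).1 i hi)
      have e2 := abs_le.1 ((hKU hy).1 i hi)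
      change |(1 - θ) * x i + θ * y i| ≤ δ
      rw [abs_le]
      constructor
      · nlinarith [mul_le_mul_of_nonneg_left e1.1 hθ', mul_le_mul_of_nonneg_left e2.1 hθ0]
      · nlinarith [mul_le_mul_of_nonneg_left e1.2 hθ', mul_le_mul_of_nonneg_left e2.2 hθ0]
    rw [hval _ hwz ew, hval x (hKU hx).1 (by linarith), hval y (hKU hy).1 (by linarith)]
    have hc := hcone x hx y hy θ hθ0 hθ1
    change cone (kh h φ) (3 - ((1 - θ) • x + θ • y) 0) (blk ((1 - θ) • x + θ • y)) =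
          (1 - θ) • cone (kh h φ) (3 - x 0) (blk x) + θ • cone (kh h φ) (3 - y 0) (blk y) at hc
    rw [hc]
    exact ts_setblk x y _ _ _ _
  · -- the part `x 0 ≤ 2`
    intro x hx y hy θ hθ0 hθ1
    have hθ' : 0 ≤ 1 - θ := by linarith
    have ex := h2 x hx
    have ey := h2 y hy
    have ew : ((1 - θ) • x + θ • y) 0 ≤ 2 := by
      rw [hw0]
      nlinarith [mul_nonneg hθ' (by linarith : 0 ≤ 2 - x 0),
        mul_nonneg hθ0 (by linarith : 0 ≤ 2 - y 0)]
    unfold model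
    rw [if_pos ew, if_pos (by linarith : x 0 ≤ 2), if_pos (by linarith : y 0 ≤ 2)]
    exact hG x hx y hy θ hθ0 hθ1

end EXO
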