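import Pool.Agent.EXO.TFhA
import Pool.Agent.EXO.TSub
import Pool.Agent.EXO.TPaste

/-!
# EXO, part T, module TMod: piecewise affine approximation of the model (assembly)

PROOF.  Take `F', h, B` from `kh_props` (with `ε`), `f := model (kh h F') (kh h φ)`, `L` from `model_subord` (`R = ρ + h`).
* `bil`: `model_bilip_of`.  * keep: from `kh_props` resp. the definition of `setblk` (`0`, `13` are not `P` indices).
* ident: `x 0 ≤ -1/2`: `kh_props` (`h ≤ 1/16`); `x 0 ≥ 7/2`: `τ < 0`, `cone = id`, `setblk x (blk x) = x`; some `|x_i| ≥ ρ + 1/2`: for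
  `x 0 ≤ 2` by `kh_props`, for `x 0 > 2`: `cone_of_large` (`R τ ≤ (ρ+h)·1 ≤ |x_i|`, `0 ≤ τ ≤ 1` or `τ ≤ 0`).
* stay: `x 0 ≤ 2`: `kh_props`, `2h ≤ 1/2`.  `x 0 > 2`, `f x ≠ x`: then `0 < τ < 1` and (`cone_of_large`) all `|p_i| < (ρ+h) τ`, `q = p/τ`, `|q_i| < ρ + h`
  and `|(kh h φ q)_i| ≤ ρ + 2h`: apply the `stay` property of `kh h F'` to the point `y = (2, q, 0, 0) ∈ zle δ`, where
  `kh h F' y = setblk y (kh h φ q)` (if `kh h F' y = y` then `kh h φ q = q`, `|q_i| < ρ+h`).  So `|τ (kh h φ q)_i| ≤ ρ + 1/2`.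
* closeness: `x 0 ≤ 2`: `kh_props`; `x 0 > 2`: `cone_dist` with `0 ≤ τ ≤ 1` (`τ < 0`: equal), `setblk` is an isometry in the block.
* `model_bilip`: `smooth_bilip`, `phi_bounds`, `model_bilip_of`.
-/

namespace EXO

open Set

private theorem TMod_isP_ιP (j : Fin 6) : isP (ιP j) := by
  unfold isP ιP
  constructor
  · show 1 ≤ j.val + 1
    omega
  · show j.val + 1 ≤ 6
    omega

private theorem TMod_exists {i : Fin 14} (hi : isP i) : ∃ j : Fin 6, i = ιP j := by
  unfold isP at hi
  refine ⟨⟨i.val - 1, by omega⟩, ?_⟩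
  apply Fin.ext
  show i.val = i.val - 1 + 1
  omega

private theorem TMod_setblk_ιP (x : Eu 14) (q : Eu 6) (j : Fin 6) : setblk x q (ιP j) = q j := by
  have h : setblk x q (ιP j) = q ⟨(ιP j).val - 1, by
      have := (TMod_isP_ιP j).2
      have := (TMod_isP_ιP j).1
      omega⟩ := dif_pos (TMod_isP_ιP j)
  exact h.trans (congrArg (fun k => q k) (Fin.ext (by show j.val + 1 - 1 = j.val; omega)))

private theorem TMod_setblk_not (x : Eu 14) (q : Eu 6) {i : Fin 14} (hi : ¬ isP i) :
    setblk x q i = x i := by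
  have h : setblk x q i = x i := dif_neg hi
  exact h

private theorem TMod_blk (x : Eu 14) (j : Fin 6) : blk x j = x (ιP j) := rfl

private theorem TMod_not0 : ¬ isP 0 := by unfold isP; simp

private theorem TMod_not13 : ¬ isP 13 := by
  unfold isP
  intro h
  have := h.2
  have e : (13 : Fin 14).val = 13 := rfl
  omega

private theorem TMod_setblk_blk (x : Eu 14) : setblk x (blk x) = x := by
  ext i
  by_cases hi : isP i
  · obtain ⟨j, rfl⟩ := TMod_exists hi
    rw [TMod_setblk_ιP, TMod_blk]
  · rw [TMod_setblk_not _ _ hi]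

private theorem TMod_norm_setblk (x : Eu 14) (a b : Eu 6) :
    ‖setblk x a - setblk x b‖ = ‖a - b‖ := by
  rw [EuclideanSpace.norm_eq, EuclideanSpace.norm_eq]
  congr 1
  have h : ∀ i : Fin 14, ‖(setblk x a - setblk x b) i‖ ^ 2
      = if h : isP i then ‖(a - b) ⟨i.val - 1, by unfold isP at h; omega⟩‖ ^ 2 else 0 := by
    intro i
    by_cases hi : isP i
    · rw [dif_pos hi]
      obtain ⟨j, rfl⟩ := TMod_exists hi
      have e1 : (setblk x a - setblk x b) (ιP j) = (a - b) j := by
        show setblk x a (ιP j) - setblk x b (ιP j) = a j - b j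
        rw [TMod_setblk_ιP, TMod_setblk_ιP]
      rw [e1]
      congr 2
    · rw [dif_neg hi]
      have e1 : (setblk x a - setblk x b) i = 0 := by
        show setblk x a i - setblk x b i = 0
        rw [TMod_setblk_not _ _ hi, TMod_setblk_not _ _ hi, sub_self]
      rw [e1]
      simp
  rw [Finset.sum_congr rfl (fun i _ => h i)]
  symm
  refine Finset.sum_bij_ne_zero (fun j _ _ => ιP j) (fun _ _ _ => Finset.mem_univ _) ?_ ?_ ?_
  · intro j₁ _ _ j₂ _ _ hj
    have := congrArg Fin.val hj
    apply Fin.ext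
    have e1 : (ιP j₁).val = j₁.val + 1 := rfl
    have e2 : (ιP j₂).val = j₂.val + 1 := rfl
    omega
  · intro i _ hne
    by_cases hi : isP i
    · obtain ⟨j, rfl⟩ := TMod_exists hi
      refine ⟨j, Finset.mem_univ _, ?_, rfl⟩
      rw [dif_pos hi] at hne
      exact hne
    · rw [dif_neg hi] at hne
      exact absurd rfl hne
  · intro j _ _
    rw [dif_pos (TMod_isP_ιP j)]
    congr 2

private theorem TMod_model_le (G : Eu 14 → Eu 14) (ψ : Eu 6 → Eu 6) {x : Eu 14} (h : x 0 ≤ 2) :
    model G ψ x = G x := by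
  unfold model
  rw [if_pos h]

private theorem TMod_model_gt (G : Eu 14 → Eu 14) (ψ : Eu 6 → Eu 6) {x : Eu 14} (h : ¬ x 0 ≤ 2) :
    model G ψ x = setblk x (cone ψ (3 - x 0) (blk x)) := by
  unfold model
  rw [if_neg h]

theorem exists_pa_model {δ ρ : ℝ} {F : Eu 14 → Eu 14} {φ : Eu 6 → Eu 6} (D : SmoothBox δ ρ F φ)
    {ε : ℝ} (hε : 0 < ε) :
    ∃ (f : Eu 14 → Eu 14) (L : Set (Eu 14 →ᵃ[ℝ] ℝ)), PAModel δ ρ f L ∧
      ∀ x ∈ zle δ, ‖f x - model F φ x‖ ≤ ε := by
  obtain ⟨F', h, B, hh, hh16, near, keep, ident, stay, high, bilF, nearφ, idφ, bdφ, bilφ⟩ :=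
    kh_props D hε
  have hρ := D.ρ_pos
  have hδ := D.δ_pos
  have hglue : ∀ x ∈ zle δ, x 0 = 2 → kh h F' x = setblk x (kh h φ (blk x)) := fun x hx h2 =>
    high x hx (by rw [h2]; norm_num)
  obtain ⟨L, hLfin, hLsub⟩ := model_subord (δ := δ) (ρ := ρ) (R := ρ + h) hh F' φ idφ hglue
  refine ⟨model (kh h F') (kh h φ), L, ⟨hLfin, hLsub, ?_, ?_, ?_, ?_, ?_⟩, ?_⟩
  · exact model_bilip_of (R := ρ + h) (B := B) bilF bilφ (by linarith) (fun x hx => (keep x hx).1)
      hglue idφ bdφ
  · intro x hx
    by_cases h2 : x 0 ≤ 2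
    · rw [TMod_model_le _ _ h2]
      exact (keep x hx).1
    · rw [TMod_model_gt _ _ h2, TMod_setblk_not _ _ TMod_not0]
  · intro x hx
    by_cases h2 : x 0 ≤ 2
    · rw [TMod_model_le _ _ h2]
      exact (keep x hx).2
    · rw [TMod_model_gt _ _ h2, TMod_setblk_not _ _ TMod_not13]
  · intro x hx hc
    by_cases h2 : x 0 ≤ 2
    · rw [TMod_model_le _ _ h2]
      refine ident x hx ?_
      rcases hc with h3 | h3 | ⟨i, hi, h3⟩
      · left; linarith
      · exfalso; linarith
      · right; exact ⟨i, hi, by linarith⟩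
    · rw [TMod_model_gt _ _ h2]
      push Not at h2
      have hcone : cone (kh h φ) (3 - x 0) (blk x) = blk x := by
        rcases hc with h3 | h3 | ⟨i, hi, h3⟩
        · exfalso; linarith
        · unfold cone
          rw [if_neg (by push Not; linarith)]
        · obtain ⟨j, rfl⟩ := TMod_exists hi
          refine cone_of_large idφ _ _ ⟨j, ?_⟩
          rw [TMod_blk]
          nlinarith
      rw [hcone, TMod_setblk_blk]
  · intro x hx hne i hi
    by_cases h2 : x 0 ≤ 2
    · rw [TMod_model_le _ _ h2] at hne ⊢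
      have := stay x hx hne i hi
      linarith
    · rw [TMod_model_gt _ _ h2] at hne ⊢
      push Not at h2
      obtain ⟨j, rfl⟩ := TMod_exists hi
      rw [TMod_setblk_ιP]
      have hτ : 0 < 3 - x 0 := by
        by_contra hc
        refine hne ?_
        have : cone (kh h φ) (3 - x 0) (blk x) = blk x := by
          unfold cone
          rw [if_neg hc]
        rw [this, TMod_setblk_blk]
      have hall : ∀ k : Fin 6, |(blk x) k| < (ρ + h) * (3 - x 0) := by
        intro k
        by_contra hc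
        push Not at hc
        refine hne ?_
        rw [cone_of_large idφ _ _ ⟨k, hc⟩, TMod_setblk_blk]
      set q : Eu 6 := (3 - x 0)⁻¹ • blk x with hq
      have hqk : ∀ k : Fin 6, |q k| < ρ + h := by
        intro k
        have e : q k = (3 - x 0)⁻¹ * (blk x) k := rfl
        rw [e, abs_mul, abs_of_pos (inv_pos.2 hτ), inv_mul_lt_iff₀ hτ]
        have := hall k
        linarith
      set y : Eu 14 := setblk (EuclideanSpace.single 0 2) q with hy
      have hy0 : y 0 = 2 := by
        rw [hy, TMod_setblk_not _ _ TMod_not0]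
        simp
      have hyblk : blk y = q := by
        ext k
        rw [TMod_blk, hy, TMod_setblk_ιP]
      have hyz : y ∈ zle δ := by
        intro k hk
        have hkP : ¬ isP k := by
          unfold isZ at hk
          unfold isP
          omega
        have hk0 : k ≠ 0 := by
          rintro rfl
          unfold isZ at hk
          simp at hk
        rw [hy, TMod_setblk_not _ _ hkP]
        simp [hk0, hδ.le]
      have hkhy := hglue y hyz hy0
      rw [hyblk] at hkhy
      have hval : |(kh h φ q) j| ≤ ρ + 2 * h := by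
        by_cases hyy : kh h F' y = y
        · have e : (kh h φ q) j = q j := by
            have e1 : kh h F' y (ιP j) = (kh h φ q) j := by rw [hkhy, TMod_setblk_ιP]
            have e2 : y (ιP j) = q j := by rw [hy, TMod_setblk_ιP]
            rw [← e1, hyy, e2]
          rw [e]
          have := hqk j
          linarith
        · have := stay y hyz hyy (ιP j) (TMod_isP_ιP j)
          rw [hkhy, TMod_setblk_ιP] at this
          exact this
      have e : cone (kh h φ) (3 - x 0) (blk x) j = (3 - x 0) * (kh h φ q) j := by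
        unfold cone
        rw [if_pos hτ]
        rfl
      rw [e, abs_mul, abs_of_pos hτ]
      have h5 : (3 - x 0) * |(kh h φ q) j| ≤ 1 * |(kh h φ q) j| :=
        mul_le_mul_of_nonneg_right (by linarith) (abs_nonneg _)
      linarith
  · intro x hx
    by_cases h2 : x 0 ≤ 2
    · rw [TMod_model_le _ _ h2, TMod_model_le _ _ h2]
      exact near x hx
    · rw [TMod_model_gt _ _ h2, TMod_model_gt _ _ h2, TMod_norm_setblk]
      push Not at h2
      by_cases hτ : 0 < 3 - x 0
      · have := cone_dist nearφ hτ.le (blk x)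
        nlinarith
      · have e1 : cone (kh h φ) (3 - x 0) (blk x) = blk x := by
          unfold cone
          rw [if_neg hτ]
        have e2 : cone φ (3 - x 0) (blk x) = blk x := by
          unfold cone
          rw [if_neg hτ]
        rw [e1, e2, sub_self, norm_zero]
        exact hε.le

/-- the model itself is bilipschitz -/
theorem model_bilip {δ ρ : ℝ} {F : Eu 14 → Eu 14} {φ : Eu 6 → Eu 6} (D : SmoothBox δ ρ F φ) :
    BiLip (model F φ) (zle δ) := by
  obtain ⟨hF, hφ⟩ := smooth_bilip D
  obtain ⟨hid, M, B, C, -, -, hB, -⟩ := phi_bounds D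
  have hδ := D.δ_pos
  have hsub : ∀ x ∈ zle δ, x ∈ zlt (3 * δ) := fun x hx i hi => by
    have := hx i hi
    linarith
  exact model_bilip_of (R := ρ) (B := B) hF hφ D.ρ_pos.le (fun x hx => D.keep_s x (hsub x hx))
    (fun x hx h2 => D.high x (hsub x hx) (by rw [h2]; norm_num)) hid hB

end EXO
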