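import Pool.Agent.EXO.GcSt
import Pool.Agent.EXO.GcGb
import Pool.Agent.EXO.TMod
import Pool.Agent.EXO.TGlue

/-!
# EXO, GEO, module GcF: the homeomorphism `f₀` of `Ω` through the chart `e`

`δ = 1/48`, `ρ = 1/2`, `d0 = 1`; `Ω = e '' cyl (l/48)`, `U = boxU (1/2) 1 = {-1 < s < 4, |p_i| < 3/2, |v| < 1}`,
`f₀ = gl A U (model Fbox phibox)`.

PROOFS.
* `box_iff`: `b ∈ U`: `A b = e (chI l b)` (`S.e_A`, `3/2 = ρ + 1`), `e` is injective, so `A b ∈ e '' cyl (l/48) ↔ chI l b ∈ cyl (l * (1/48))`: `cyl_chI`.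
* `model_box`: for `b ∈ zlt (1/48)`, `b ∈ U`: `m = model Fbox phibox b` has `m 0 = b 0`, `m 13 = b 13`, `|m i| ≤ 3/2`: for `b 0 ≤ 2` by
`keep_s`, `keep_v`, `stay` of `smoothBox` (or `m = b`); for `b 0 > 2` by the definition of `cone`: if it moves the point then
(`phiE_out`) `‖bx b/τ‖, ‖bY b/τ‖ < 3/8`, `τ ≤ 1`, and the norms are preserved (`norm_phiE`).  Equivalently: `model = Gbox ∘ Cbi` (`Gbox_Cbi`),
`Gbox_out`, `Gbox_norm`...
* `model_out`: for `b ∈ zlt (1/48)` with `b 0 ≤ -1`, or `b 0 ≥ 4`, or some `|b i| ≥ 3/2` (`isP i`): `model b = b`: `id_low`, `id_out` of `smoothBox`; for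
`b 0 > 2`: `Cb_high`/`Cb_out`.
* `f0_e`: let `w ∈ cyl (l/48)`.  Case 1: `w ∈ chU`, `b = ch l w ∈ U`: `e w = e (chI l b) = A b`, so `A.symm (e w) = b ∈ U`,
`f₀ (e w) = A (model b) = e (chI l (model b)) = e (trans l model w)` (`S.e_A` for `model b`: `model_box`).
Case 2: `w ∈ chU`, `b ∉ U`: `|b 13| < 1/48 < 1`, so `model_out` applies, `trans l model w = w`; and `A.symm (e w) ∉ U`: otherwise, with
`b' = A.symm (e w) ∈ U`, `e w = A b' = e (chI l b')`, `w = chI l b'`, `b' = b`.  So `f₀ (e w) = e w`.  Case 3: `w ∉ chU`: the same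
(`chI l b' ∈ chU`).
* `f0_cont`: `f₀` is on `Ω` the uniform limit of continuous maps: for `ε > 0` take `f` from `exists_pa_model smoothBox`, and `gl A U f` is
Lipschitz on `Ω` by `glue_pa` (`δ = 1/48`, `ρ = 1/2`, `d = 1/48`, `d0 = 1`, `box_iff`), and `‖gl A U f y - f₀ y‖ ≤ C_A ε` for `y ∈ Ω`
(`continuousOn_of_uniform_approx_of_continuousOn`).
* `open_bdd`: `cyl` is open (`gq` continuous), `e` is a homeomorphism; `cyl (l/48)` is bounded (`gq < e^{2d}`, `|z_i| < d`), its closure is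
compact, `e` of it is bounded.
-/

set_option maxSynthPendingDepth 3

open scoped ContDiff Quaternion
open Pool.Agent.EXO

namespace EXO

private theorem GcF_inj {l : ℝ} {e e' : En 14 → En 14} {A : Eu 14 ≃ᵃ[ℝ] Eu 14} (S : Str l e e' A)
    {w w' : En 14} (h : e w = e w') : w = w' := by
  rw [← S.left w, h, S.left]

private theorem GcF_A {l : ℝ} {e e' : En 14 → En 14} {A : Eu 14 ≃ᵃ[ℝ] Eu 14} (S : Str l e e' A)
    {b : Eu 14} (hb : b ∈ boxU (1 / 2) 1) : A b = e (chI l b) := by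
  obtain ⟨h1, h2, h3, h4⟩ := hb
  exact S.e_A b h1.le h2.le (fun i hi => by have := h3 i hi; linarith) h4.le

private theorem GcF_l48 (l : ℝ) : l / 48 = l * (1 / 48) := by ring

theorem box_iff {l : ℝ} {e e' : En 14 → En 14} {A : Eu 14 ≃ᵃ[ℝ] Eu 14} (S : Str l e e' A) :
    ∀ b ∈ boxU (1 / 2) 1, A b ∈ e '' cyl (l / 48) ↔ (b ∈ zlt (1 / 48) ∧ |b 13| < 1 / 48) := by
  intro b hb
  rw [GcF_A S hb, ← cyl_chI S.l_pos b, ← GcF_l48]
  constructor
  · rintro ⟨w, hw, hwe⟩
    rwa [← GcF_inj S hwe]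
  · exact fun h => ⟨_, h, rfl⟩

private theorem GcF_cdq1 : Continuous q1 :=
  (contDiff_euclidean.2 fun i =>
    (EuclideanSpace.proj (𝕜 := ℝ) (⟨i.1, by omega⟩ : Fin 14)).contDiff (n := ∞)).continuous

private theorem GcF_cdq2 : Continuous q2 :=
  (contDiff_euclidean.2 fun i =>
    (EuclideanSpace.proj (𝕜 := ℝ) (⟨4 + i.1, by omega⟩ : Fin 14)).contDiff (n := ∞)).continuous

private theorem GcF_cdq3 : Continuous q3 :=
  (contDiff_euclidean.2 fun i =>
    (EuclideanSpace.proj (𝕜 := ℝ) (⟨8 + i.1, by omega⟩ : Fin 14)).contDiff (n := ∞)).continuous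

private theorem GcF_cdj : ContDiff ℝ ∞ (fun p : En 4 × En 4 × En 6 => j14 p.1 p.2.1 p.2.2) := by
  refine contDiff_euclidean.2 fun i => ?_
  by_cases h : i.1 < 4
  · have e : (fun p : En 4 × En 4 × En 6 => j14 p.1 p.2.1 p.2.2 i)
        = fun p : En 4 × En 4 × En 6 => p.1 ⟨i, h⟩ := by
      funext p
      simp only [j14, h, dite_true]
    rw [e]
    exact (EuclideanSpace.proj (𝕜 := ℝ) (⟨i, h⟩ : Fin 4)).contDiff.comp contDiff_fst
  · by_cases h' : i.1 < 8
    · have e : (fun p : En 4 × En 4 × En 6 => j14 p.1 p.2.1 p.2.2 i)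
          = fun p : En 4 × En 4 × En 6 => p.2.1 ⟨i - 4, by omega⟩ := by
        funext p
        simp only [j14, h, h', dite_true, dite_false]
      rw [e]
      exact (EuclideanSpace.proj (𝕜 := ℝ) (⟨i - 4, by omega⟩ : Fin 4)).contDiff.comp
        (contDiff_fst.comp contDiff_snd)
    · have e : (fun p : En 4 × En 4 × En 6 => j14 p.1 p.2.1 p.2.2 i)
          = fun p : En 4 × En 4 × En 6 => p.2.2 ⟨i - 8, by omega⟩ := by
        funext p
        simp only [j14, h, h', dite_false]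
      rw [e]
      exact (EuclideanSpace.proj (𝕜 := ℝ) (⟨i - 8, by omega⟩ : Fin 6)).contDiff.comp
        (contDiff_snd.comp contDiff_snd)

private theorem GcF_cyl (d : ℝ) : cyl d = {w | Real.exp (-(2 * d)) < gq w} ∩
    ({w | gq w < Real.exp (2 * d)} ∩ ⋂ i : Fin 6, {w | |q3 w i| < d}) := by
  ext w
  simp only [cyl, Set.mem_ofPred_eq, Set.mem_inter_iff, Set.mem_iInter]
  constructor
  · rintro ⟨h1, h2, h3⟩
    rw [abs_lt] at h2
    exact ⟨(Real.lt_log_iff_exp_lt h1).1 h2.1, (Real.log_lt_iff_lt_exp h1).1 h2.2, h3⟩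
  · rintro ⟨h1, h2, h3⟩
    have h0 : 0 < gq w := (Real.exp_pos _).trans h1
    exact ⟨h0, abs_lt.2 ⟨(Real.lt_log_iff_exp_lt h0).2 h1, (Real.log_lt_iff_lt_exp h0).2 h2⟩, h3⟩

private theorem GcF_open (d : ℝ) : IsOpen (cyl d) := by
  have hg : Continuous gq := (GcF_cdq1.norm.pow 2).add (GcF_cdq2.norm.pow 2)
  rw [GcF_cyl]
  refine (isOpen_lt continuous_const hg).inter ((isOpen_lt hg continuous_const).inter ?_)
  refine isOpen_iInter_of_finite fun i => isOpen_lt ?_ continuous_const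
  have h : Continuous fun w => q3 w i :=
    (EuclideanSpace.proj (𝕜 := ℝ) i : En 6 →L[ℝ] ℝ).continuous.comp GcF_cdq3
  exact h.abs

private theorem GcF_sub (d : ℝ) : cyl d ⊆ (fun p : En 4 × En 4 × En 6 => j14 p.1 p.2.1 p.2.2) ''
    (Metric.closedBall 0 (Real.exp d) ×ˢ (Metric.closedBall 0 (Real.exp d) ×ˢ
      Metric.closedBall 0 (3 * |d|))) := by
  intro w hw
  rw [GcF_cyl] at hw
  obtain ⟨-, h2, h3⟩ := hw
  have h3' : ∀ i, |q3 w i| < d := fun i => Set.mem_iInter.1 h3 i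
  have h2' : ‖q1 w‖ ^ 2 + ‖q2 w‖ ^ 2 < Real.exp (2 * d) := h2
  have h4 : Real.exp (2 * d) = Real.exp d ^ 2 := by
    rw [← Real.exp_nat_mul]
    norm_num
  rw [h4] at h2'
  have he := Real.exp_pos d
  refine ⟨(q1 w, q2 w, q3 w), ⟨?_, ?_, ?_⟩, j14_q w⟩
  · rw [mem_closedBall_zero_iff]
    show ‖q1 w‖ ≤ _
    refine abs_le_of_sq_le_sq' ?_ he.le |>.2
    nlinarith [sq_nonneg ‖q2 w‖]
  · rw [mem_closedBall_zero_iff]
    show ‖q2 w‖ ≤ _
    refine abs_le_of_sq_le_sq' ?_ he.le |>.2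
    nlinarith [sq_nonneg ‖q1 w‖]
  · rw [mem_closedBall_zero_iff]
    show ‖q3 w‖ ≤ _
    refine abs_le_of_sq_le_sq' ?_ (by positivity) |>.2
    have h5 : ‖q3 w‖ ^ 2 ≤ 6 * d ^ 2 := by
      rw [EuclideanSpace.norm_sq_eq]
      calc ∑ i, ‖q3 w i‖ ^ 2 ≤ ∑ _i : Fin 6, d ^ 2 := by
            refine Finset.sum_le_sum fun i _ => ?_
            rw [Real.norm_eq_abs]
            exact pow_le_pow_left₀ (abs_nonneg _) (h3' i).le 2
        _ = 6 * d ^ 2 := by simp
    rw [mul_pow, sq_abs]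
    nlinarith [sq_nonneg d]

theorem open_bdd {l : ℝ} {e e' : En 14 → En 14} {A : Eu 14 ≃ᵃ[ℝ] Eu 14} (S : Str l e e' A) :
    IsOpen (e '' cyl (l / 48)) ∧ Bornology.IsBounded (e '' cyl (l / 48)) := by
  constructor
  · have h : e '' cyl (l / 48) = e' ⁻¹' cyl (l / 48) := by
      ext y
      constructor
      · rintro ⟨w, hw, rfl⟩
        show e' (e w) ∈ cyl (l / 48)
        rwa [S.left]
      · intro hy
        exact ⟨e' y, hy, S.right y⟩
    rw [h]
    exact (GcF_open _).preimage S.e'_smooth.continuous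
  · have h1 : IsCompact ((Metric.closedBall (0 : En 4) (Real.exp (l / 48))) ×ˢ
        ((Metric.closedBall (0 : En 4) (Real.exp (l / 48))) ×ˢ
          (Metric.closedBall (0 : En 6) (3 * |l / 48|)))) :=
      (isCompact_closedBall _ _).prod ((isCompact_closedBall _ _).prod (isCompact_closedBall _ _))
    have h2 := (h1.image GcF_cdj.continuous).image S.e_smooth.continuous
    exact h2.isBounded.subset (Set.image_mono (GcF_sub _))

private theorem GcF_cd (v : En 3) (i : Fin 3) : |v i| ≤ ‖v‖ := by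
  have := PiLp.norm_apply_le v i
  rwa [Real.norm_eq_abs] at this

private theorem GcF_coord (b : Eu 14) {i : Fin 14} (hi : isP i) : |b i| ≤ ‖bx b‖ ∨ |b i| ≤ ‖bY b‖ := by
  obtain ⟨i, hi14⟩ := i
  obtain ⟨ha, hb⟩ := hi
  simp only at ha hb
  interval_cases i
  · exact Or.inl (GcF_cd (bx b) 0)
  · exact Or.inl (GcF_cd (bx b) 1)
  · exact Or.inl (GcF_cd (bx b) 2)
  · exact Or.inr (GcF_cd (bY b) 0)
  · exact Or.inr (GcF_cd (bY b) 1)
  · exact Or.inr (GcF_cd (bY b) 2)

private theorem GcF_hi {b : Eu 14} (h : ¬ b 0 ≤ 2) : model Fbox phibox b = Cbi b := by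
  unfold model Cbi
  rw [if_neg h, min_eq_right (by linarith [not_le.mp h])]

private theorem GcF_lo {b : Eu 14} (h : b 0 ≤ 2) : model Fbox phibox b = Fbox b := by
  unfold model
  rw [if_pos h]

private theorem GcF_z {b : Eu 14} (hz : b ∈ zlt (1 / 48)) : b ∈ zlt (3 * (1 / 48)) :=
  fun i hi => (hz i hi).trans (by norm_num)

private theorem GcF_box {b : Eu 14} (hb : b ∈ boxU (1 / 2) 1) (hz : b ∈ zlt (1 / 48)) :
    model Fbox phibox b 0 = b 0 ∧ model Fbox phibox b 13 = b 13 ∧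
      ∀ i, isP i → |model Fbox phibox b i| ≤ 3 / 2 := by
  obtain ⟨h1, h2, h3, h4⟩ := hb
  by_cases h : b 0 ≤ 2
  · rw [GcF_lo h]
    refine ⟨smoothBox.keep_s b (GcF_z hz), smoothBox.keep_v b (GcF_z hz), fun i hi => ?_⟩
    by_cases hF : Fbox b = b
    · rw [hF]
      have := h3 i hi
      linarith
    · have := smoothBox.stay b (GcF_z hz) hF i hi
      linarith
  · rw [GcF_hi h]
    refine ⟨(Cbi_keep b).1, (Cbi_keep b).2.1, fun i hi => ?_⟩
    by_cases hF : 3 / 8 ≤ ‖bx b‖ ∨ 3 / 8 ≤ ‖bY b‖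
    · rw [(Cb_out b hF).2]
      have := h3 i hi
      linarith
    · push Not at hF
      obtain ⟨-, -, -, k1, k2⟩ := Cbi_keep b
      rcases GcF_coord (Cbi b) hi with h5 | h5
      · rw [k1] at h5
        linarith
      · rw [k2] at h5
        linarith

private theorem GcF_out {b : Eu 14} (hb : b ∉ boxU (1 / 2) 1) (hz : b ∈ zlt (1 / 48))
    (h13 : |b 13| < 1 / 48) : model Fbox phibox b = b := by
  by_cases hP : ∃ i, isP i ∧ 3 / 2 ≤ |b i|
  · obtain ⟨i, hi, h⟩ := hP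
    by_cases h2 : b 0 ≤ 2
    · rw [GcF_lo h2]
      exact smoothBox.id_out b (GcF_z hz) ⟨i, hi, by linarith⟩
    · rw [GcF_hi h2]
      refine (Cb_out b ?_).2
      rcases GcF_coord b hi with h5 | h5
      · exact Or.inl (by linarith)
      · exact Or.inr (by linarith)
  · push Not at hP
    by_cases h2 : b 0 ≤ 2
    · rw [GcF_lo h2]
      refine smoothBox.id_low b (GcF_z hz) ?_
      by_contra h0
      push Not at h0
      exact hb ⟨by linarith, by linarith, fun i hi => by linarith [hP i hi], by linarith⟩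
    · rw [GcF_hi h2]
      refine (Cb_high b ?_).2
      by_contra h0
      push Not at h0
      exact hb ⟨by linarith, by linarith, fun i hi => by linarith [hP i hi], by linarith⟩

theorem f0_e {l : ℝ} {e e' : En 14 → En 14} {A : Eu 14 ≃ᵃ[ℝ] Eu 14} (S : Str l e e' A)
    {w : En 14} (hw : w ∈ cyl (l / 48)) :
    gl A (boxU (1 / 2) 1) (model Fbox phibox) (e w) = e (trans l (model Fbox phibox) w) := by
  by_cases hU : A.symm (e w) ∈ boxU (1 / 2) 1
  · set b := A.symm (e w) with hb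
    have h1 : e w = A b := (A.apply_symm_apply _).symm
    have h2 : w = chI l b := GcF_inj S (h1.trans (GcF_A S hU))
    have h3 : b ∈ zlt (1 / 48) ∧ |b 13| < 1 / 48 := by
      rw [← cyl_chI S.l_pos b, ← GcF_l48, ← h2]
      exact hw
    obtain ⟨k1, k2, k3⟩ := GcF_box hU h3.1
    have h4 : A (model Fbox phibox b) = e (chI l (model Fbox phibox b)) :=
      S.e_A _ (by rw [k1]; exact hU.1.le) (by rw [k1]; exact hU.2.1.le) k3
        (by rw [k2]; linarith [h3.2])
    unfold gl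
    rw [← hb, if_pos hU, h4, h2, trans_chI S.l_pos]
  · have h0 : gl A (boxU (1 / 2) 1) (model Fbox phibox) (e w) = e w := by
      unfold gl
      rw [if_neg hU]
    rw [h0]
    by_cases hc : w ∈ chU
    · have h2 : chI l (ch l w) = w := chI_ch S.l_pos hc
      have h3 : ch l w ∈ zlt (1 / 48) ∧ |ch l w 13| < 1 / 48 := by
        rw [← cyl_chI S.l_pos, ← GcF_l48, h2]
        exact hw
      have hb : ch l w ∉ boxU (1 / 2) 1 := by
        intro hb
        apply hU
        have h5 : A (ch l w) = e w := by rw [GcF_A S hb, h2]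
        rwa [← h5, A.symm_apply_apply]
      have h4 : trans l (model Fbox phibox) w = w := by
        conv_lhs => rw [← h2]
        rw [trans_chI S.l_pos, GcF_out hb h3.1 h3.2, h2]
      rw [h4]
    · rw [trans_of_not _ hc]

theorem f0_cont {l : ℝ} {e e' : En 14 → En 14} {A : Eu 14 ≃ᵃ[ℝ] Eu 14} (S : Str l e e' A) :
    ContinuousOn (gl A (boxU (1 / 2) 1) (model Fbox phibox)) (e '' cyl (l / 48)) := by
  obtain ⟨hΩo, hΩb⟩ := open_bdd S
  refine continuousOn_of_uniform_approx_of_continuousOn fun u hu => ?_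
  obtain ⟨ε, hε, hεu⟩ := Metric.mem_uniformity_dist.1 hu
  set T : Eu 14 ≃L[ℝ] Eu 14 := A.linear.toContinuousLinearEquiv with hT
  set N := ‖(T : Eu 14 →L[ℝ] Eu 14)‖ with hN
  have hN0 : 0 ≤ N := norm_nonneg _
  have hTA : ∀ x y : Eu 14, A x - A y = T (x - y) := by
    intro x y
    have := A.toAffineMap.linearMap_vsub x y
    simp only [vsub_eq_sub] at this
    exact this.symm
  have hε' : 0 < ε / (N + 1) := by positivity
  obtain ⟨f, L, hPA, hfM⟩ := exists_pa_model smoothBox hε'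
  obtain ⟨-, C, hC⟩ := glue_pa hPA (by norm_num) (by norm_num) (d := 1 / 48) (d0 := 1)
    (by norm_num) (by norm_num) le_rfl A hΩo hΩb (box_iff S)
  refine ⟨_, hC.continuousOn, fun y hy => hεu ?_⟩
  by_cases hU : A.symm y ∈ boxU (1 / 2) 1
  · have h1 : A (A.symm y) ∈ e '' cyl (l / 48) := by rwa [A.apply_symm_apply]
    have h2 := ((box_iff S _ hU).1 h1).1
    have h3 := hfM (A.symm y) (fun i hi => (h2 i hi).le)
    unfold gl
    rw [if_pos hU, if_pos hU, dist_comm, dist_eq_norm, hTA]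
    calc ‖T (f (A.symm y) - model Fbox phibox (A.symm y))‖
        ≤ N * ‖f (A.symm y) - model Fbox phibox (A.symm y)‖ :=
          (T : Eu 14 →L[ℝ] Eu 14).le_opNorm _
      _ ≤ N * (ε / (N + 1)) := mul_le_mul_of_nonneg_left h3 hN0
      _ < (N + 1) * (ε / (N + 1)) := by
          apply mul_lt_mul_of_pos_right _ hε'
          linarith
      _ = ε := by field_simp
  · unfold gl
    rw [if_neg hU, if_neg hU, dist_self]
    exact hε

end EXO
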