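import Pool.Agent.EXO.GcZ
import Pool.Agent.EXO.GcCh

/-!
# EXO, GEO, module GcSt: the straightening diffeomorphism of `ℝ⁸ × ℝ⁶` and the affine chart

PROOF.  Let `β₀ = 0 : S8`, `q0 = chI8 0`, `T₀ = fderiv ℝ chI8 0`.  `ch8 ∘ chI8 = id` and `chI8 ∘ ch8 = id` near `q0` (which is in the open cone), so
`T₀` is invertible with the inverse `fderiv ℝ ch8 q0` (chain rule).  `G q := q0 + T₀ (ch8 q)`: smooth on the cone (a neighbourhood of `q0`),
`G q0 = q0` (`ch8 q0 = 0`), `fderiv ℝ G q0 = T₀ ∘ fderiv ch8 q0 = id`.  `straighten` gives `r`, `e8`, `e8'`.  By continuity of `chI8`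
at `0` there is `l ∈ (0, 1/16]` with `chI8 (l • toS b) ∈ ball q0 r` for all `b` with `-1 ≤ b 0 ≤ 4`, `|b i| ≤ 3/2` (`isP i`), `|b 13| ≤ 1` (then
`‖toS b‖ ≤ 4`, sup norm of the product with Euclidean blocks: `‖bx b‖ ≤ √3·3/2 < 3`).  For these `b`:
`e8 (chI8 (l • toS b)) = G (..) = q0 + l • T₀ (toS b)` (`ch8_chI8`).
`e w := j14 (e8 (q1 w, q2 w)).1 (e8 (q1 w, q2 w)).2 (q3 w)`, `e'` the same with `e8'`: smooth, mutually inverse.
`A b := j14 (q0 + l • T₀ (toS b)).1 (..).2 (l • bz b)` is an affine equivalence: `b ↦ (toS b, bz b)` is a linear equivalence of `Eu 14`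
with `S8 × En 6` (inverse `ofS`), then `(c, z) ↦ (l T₀ c, l z)`, then `j14` and the translation by `q0`.
(`AffineEquiv.ofLinearEquiv`/`LinearEquiv.toAffineEquiv` and `AffineEquiv.constVAdd`; the formula only matters.)
-/

set_option maxSynthPendingDepth 3

open scoped ContDiff Quaternion
open Pool.Agent.EXO

namespace EXO

private theorem GcSt_j14_add (x y x' y' : En 4) (z z' : En 6) :
    j14 (x + x') (y + y') (z + z') = j14 x y z + j14 x' y' z' := by
  ext i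
  simp only [j14, PiLp.add_apply]
  split_ifs <;> rfl

private theorem GcSt_j14_smul (c : ℝ) (x y : En 4) (z : En 6) :
    j14 (c • x) (c • y) (c • z) = c • j14 x y z := by
  ext i
  simp only [j14, PiLp.smul_apply]
  split_ifs <;> rfl

private theorem GcSt_toS_add (b b' : Eu 14) : toS (b + b') = toS b + toS b' := by
  refine Prod.ext rfl (Prod.ext ?_ (Prod.ext ?_ rfl))
  · ext i
    fin_cases i <;> simp [toS, bx]
  · ext i
    fin_cases i <;> simp [toS, bY]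

private theorem GcSt_toS_smul (c : ℝ) (b : Eu 14) : toS (c • b) = c • toS b := by
  refine Prod.ext rfl (Prod.ext ?_ (Prod.ext ?_ rfl))
  · ext i
    fin_cases i <;> simp [toS, bx]
  · ext i
    fin_cases i <;> simp [toS, bY]

private theorem GcSt_bz_add (b b' : Eu 14) : bz (b + b') = bz b + bz b' := by
  ext i
  fin_cases i <;> simp [bz]

private theorem GcSt_bz_smul (c : ℝ) (b : Eu 14) : bz (c • b) = c • bz b := by
  ext i
  fin_cases i <;> simp [bz]

private theorem GcSt_cd_q1 : ContDiff ℝ ∞ q1 := by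
  rw [contDiff_euclidean]
  intro i
  exact (EuclideanSpace.proj (𝕜 := ℝ) _ : En 14 →L[ℝ] ℝ).contDiff

private theorem GcSt_cd_q2 : ContDiff ℝ ∞ q2 := by
  rw [contDiff_euclidean]
  intro i
  exact (EuclideanSpace.proj (𝕜 := ℝ) _ : En 14 →L[ℝ] ℝ).contDiff

private theorem GcSt_cd_q3 : ContDiff ℝ ∞ q3 := by
  rw [contDiff_euclidean]
  intro i
  exact (EuclideanSpace.proj (𝕜 := ℝ) _ : En 14 →L[ℝ] ℝ).contDiff

private theorem GcSt_cd_j14 : ContDiff ℝ ∞ (fun p : R8 × En 6 => j14 p.1.1 p.1.2 p.2) := by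
  rw [contDiff_euclidean]
  intro i
  unfold j14
  by_cases h : i.1 < 4
  · simp only [h, dite_true]
    exact ((EuclideanSpace.proj (𝕜 := ℝ) _ : En 4 →L[ℝ] ℝ).contDiff).comp
      (contDiff_fst.comp contDiff_fst)
  · by_cases h' : i.1 < 8
    · simp only [h, h', dite_true, dite_false]
      exact ((EuclideanSpace.proj (𝕜 := ℝ) _ : En 4 →L[ℝ] ℝ).contDiff).comp
        (contDiff_snd.comp contDiff_fst)
    · simp only [h, h', dite_false]
      exact ((EuclideanSpace.proj (𝕜 := ℝ) _ : En 6 →L[ℝ] ℝ).contDiff).comp contDiff_snd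

/-- extension of a map of `ℝ⁸` -/
private noncomputable def GcSt_ext (f : R8 → R8) (w : En 14) : En 14 :=
  j14 (f (q1 w, q2 w)).1 (f (q1 w, q2 w)).2 (q3 w)

private theorem GcSt_cd_ext {f : R8 → R8} (hf : ContDiff ℝ ∞ f) : ContDiff ℝ ∞ (GcSt_ext f) :=
  GcSt_cd_j14.comp ((hf.comp (GcSt_cd_q1.prodMk GcSt_cd_q2)).prodMk GcSt_cd_q3)

private theorem GcSt_ext_ext {f g : R8 → R8} (h : ∀ x, f (g x) = x) (w : En 14) :
    GcSt_ext f (GcSt_ext g w) = w := by
  unfold GcSt_ext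
  rw [q1_j14, q2_j14, q3_j14, Prod.mk.eta, h, j14_q]

/-- the linear part of the affine chart -/
private noncomputable def GcSt_lin (T : S8 →L[ℝ] R8) (K : R8 →L[ℝ] S8) (h1 : ∀ c, K (T c) = c)
    (h2 : ∀ q, T (K q) = q) (l : ℝ) (hl : l ≠ 0) : Eu 14 ≃ₗ[ℝ] Eu 14 where
  toFun b := j14 (l • T (toS b)).1 (l • T (toS b)).2 (l • bz b)
  map_add' b b' := by
    rw [GcSt_toS_add, GcSt_bz_add, map_add, smul_add, smul_add, ← GcSt_j14_add]
    rfl
  map_smul' c b := by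
    rw [GcSt_toS_smul, GcSt_bz_smul, map_smul, smul_comm l c, smul_comm l c, RingHom.id_apply,
      ← GcSt_j14_smul]
    rfl
  invFun w := ofS (l⁻¹ • K (q1 w, q2 w)) (l⁻¹ • q3 w)
  left_inv b := by
    show ofS (l⁻¹ • K (q1 (j14 (l • T (toS b)).1 (l • T (toS b)).2 (l • bz b)),
      q2 (j14 (l • T (toS b)).1 (l • T (toS b)).2 (l • bz b))))
      (l⁻¹ • q3 (j14 (l • T (toS b)).1 (l • T (toS b)).2 (l • bz b))) = b
    rw [q1_j14, q2_j14, q3_j14, Prod.mk.eta, map_smul, h1, smul_smul, smul_smul,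
      inv_mul_cancel₀ hl, one_smul, one_smul, ofS_toS]
  right_inv w := by
    show j14 (l • T (toS (ofS (l⁻¹ • K (q1 w, q2 w)) (l⁻¹ • q3 w)))).1
      (l • T (toS (ofS (l⁻¹ • K (q1 w, q2 w)) (l⁻¹ • q3 w)))).2
      (l • bz (ofS (l⁻¹ • K (q1 w, q2 w)) (l⁻¹ • q3 w))) = w
    rw [toS_ofS, bz_ofS, map_smul, h2, smul_smul, smul_smul, mul_inv_cancel₀ hl, one_smul,
      one_smul, j14_q]

private theorem GcSt_norm3 {v : En 3} (h0 : |v 0| ≤ 3 / 2) (h1 : |v 1| ≤ 3 / 2)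
    (h2 : |v 2| ≤ 3 / 2) : ‖v‖ ≤ 4 := by
  have e : ‖v‖ ^ 2 = v 0 ^ 2 + v 1 ^ 2 + v 2 ^ 2 := by
    rw [EuclideanSpace.norm_sq_eq]
    simp [Fin.sum_univ_three]
  have b : ∀ t : ℝ, |t| ≤ 3 / 2 → t ^ 2 ≤ 9 / 4 := by
    intro t ht
    rw [← sq_abs]
    nlinarith [abs_nonneg t]
  have := b _ h0
  have := b _ h1
  have := b _ h2
  by_contra hc
  push Not at hc
  nlinarith

private theorem GcSt_normS {b : Eu 14} (h1 : -1 ≤ b 0) (h2 : b 0 ≤ 4)
    (h3 : ∀ i, isP i → |b i| ≤ 3 / 2) (h4 : |b 13| ≤ 1) : ‖toS b‖ ≤ 4 := by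
  have c1 : ‖b 0‖ ≤ 4 := by
    rw [Real.norm_eq_abs, abs_le]
    exact ⟨by linarith, h2⟩
  have c2 : ‖bx b‖ ≤ 4 := GcSt_norm3 (h3 1 (by decide)) (h3 2 (by decide)) (h3 3 (by decide))
  have c3 : ‖bY b‖ ≤ 4 := GcSt_norm3 (h3 4 (by decide)) (h3 5 (by decide)) (h3 6 (by decide))
  have c4 : ‖b 13‖ ≤ 4 := by
    rw [Real.norm_eq_abs]
    linarith
  exact max_le c1 (max_le c2 (max_le c3 c4))

/-- the straightening data -/
structure Str (l : ℝ) (e e' : En 14 → En 14) (A : Eu 14 ≃ᵃ[ℝ] Eu 14) : Prop where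
  l_pos : 0 < l
  l_le : l ≤ 1 / 16
  e_smooth : ContDiff ℝ ∞ e
  e'_smooth : ContDiff ℝ ∞ e'
  left : ∀ w, e' (e w) = w
  right : ∀ w, e (e' w) = w
  e_A : ∀ b : Eu 14, -1 ≤ b 0 → b 0 ≤ 4 → (∀ i, isP i → |b i| ≤ 3 / 2) → |b 13| ≤ 1 →
    A b = e (chI l b)

theorem exists_str : ∃ (l : ℝ) (e e' : En 14 → En 14) (A : Eu 14 ≃ᵃ[ℝ] Eu 14), Str l e e' A := by
  set q0 : R8 := chI8 0 with hq0
  set T : S8 →L[ℝ] R8 := fderiv ℝ chI8 0 with hT
  set K : R8 →L[ℝ] S8 := fderiv ℝ ch8 q0 with hK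
  set U : Set R8 := {q : R8 | 0 < q.1 0 ∧ 0 < q.2 0} with hU
  have hUo : IsOpen U := by
    have c1 : Continuous (fun q : R8 => q.1 0) := by fun_prop
    have c2 : Continuous (fun q : R8 => q.2 0) := by fun_prop
    exact (isOpen_lt continuous_const c1).inter (isOpen_lt continuous_const c2)
  have hq0U : q0 ∈ U := chI8_pos 0
  have hUn : U ∈ nhds q0 := hUo.mem_nhds hq0U
  have hch0 : ch8 q0 = 0 := ch8_chI8 0
  have dI : Differentiable ℝ chI8 := contDiff_chI8.differentiable (by simp)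
  have dc : DifferentiableAt ℝ ch8 q0 :=
    ((contDiffOn_ch8 q0 hq0U).contDiffAt hUn).differentiableAt (by simp)
  have hKT : ∀ c, K (T c) = c := by
    have e1 : fderiv ℝ (ch8 ∘ chI8) 0 = K.comp T := fderiv_comp 0 dc (dI 0)
    have e2 : ch8 ∘ chI8 = id := funext ch8_chI8
    rw [e2, fderiv_id] at e1
    intro c
    have := congrArg (fun L : S8 →L[ℝ] S8 => L c) e1
    simpa using this.symm
  have hTK : ∀ q, T (K q) = q := by
    have e1 : fderiv ℝ (chI8 ∘ ch8) q0 = T.comp K := by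
      have := fderiv_comp q0 (dI (ch8 q0)) dc
      rwa [hch0] at this
    have e2 : chI8 ∘ ch8 =ᶠ[nhds q0] id := by
      filter_upwards [hUn] with q hq
      exact chI8_ch8 hq
    rw [e2.fderiv_eq, fderiv_id] at e1
    intro q
    have := congrArg (fun L : R8 →L[ℝ] R8 => L q) e1
    simpa using this.symm
  obtain ⟨r, e8, e8', hr, he, he', hl, hr', hG⟩ := straighten hUn
    (G := fun q => q0 + T (ch8 q))
    (contDiffOn_const.add (T.contDiff.comp_contDiffOn contDiffOn_ch8))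
    (by simp only [hch0, map_zero, add_zero])
    (by
      have h1 : HasFDerivAt (fun q => q0 + T (ch8 q)) (T.comp K) q0 :=
        (T.hasFDerivAt.comp q0 dc.hasFDerivAt).const_add q0
      rw [h1.fderiv]
      exact ContinuousLinearMap.ext fun q => hTK q)
  obtain ⟨δ, hδ, hball⟩ := Metric.continuousAt_iff.mp (dI 0).continuousAt r hr
  set l : ℝ := min (1 / 16) (δ / 8) with hldef
  have hl0 : 0 < l := lt_min (by norm_num) (by linarith)
  refine ⟨l, GcSt_ext e8, GcSt_ext e8',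
    (GcSt_lin T K hKT hTK l hl0.ne').toAffineEquiv.trans
      (AffineEquiv.constVAdd ℝ (Eu 14) (j14 q0.1 q0.2 0)),
    { l_pos := hl0
      l_le := min_le_left _ _
      e_smooth := GcSt_cd_ext he
      e'_smooth := GcSt_cd_ext he'
      left := GcSt_ext_ext hl
      right := GcSt_ext_ext hr'
      e_A := ?_ }⟩
  intro b h1 h2 h3 h4
  have hn : ‖l • toS b‖ < δ := by
    rw [norm_smul, Real.norm_of_nonneg hl0.le]
    have := GcSt_normS h1 h2 h3 h4
    have hl8 : l ≤ δ / 8 := min_le_right _ _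
    calc l * ‖toS b‖ ≤ l * 4 := mul_le_mul_of_nonneg_left this hl0.le
      _ < δ := by linarith
  have hmem : chI8 (l • toS b) ∈ Metric.ball q0 r := by
    have := @hball (l • toS b) (by rwa [dist_zero_right])
    exact this
  have e1 : e8 (chI8 (l • toS b)) = q0 + l • T (toS b) := by
    rw [hG _ hmem]
    show q0 + T (ch8 (chI8 (l • toS b))) = _
    rw [ch8_chI8, map_smul]
  show j14 q0.1 q0.2 0 + j14 (l • T (toS b)).1 (l • T (toS b)).2 (l • bz b) =
    GcSt_ext e8 (chI l b)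
  unfold GcSt_ext chI
  rw [q1_j14, q2_j14, q3_j14, Prod.mk.eta, e1, ← GcSt_j14_add, zero_add]
  rfl

end EXO
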