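import Pool.Agent.EXO.GcDefs
import Pool.Agent.EXO.GbTha

/-!
# EXO, GEO, module GcTw: the maps `t₁`, `t₂`

PROOFS.  `rot4 q y = mk4 (y 0) (Adq q (vec4 y))`.  `vec4_rot4`, `rot4_zero`; `rot4_mul` from `Adq_mul`; `norm_rot4`: `‖mk4 t x‖² = t² + ‖x‖²`,
`norm_Adq`.  `tha4_rot4`: if `x 0 > 0`: `(x 0)⁻¹ • Adq q (vec4 x) = Adq q ((x 0)⁻¹ • vec4 x)`, `tha_Adq`; otherwise both sides are
`1 = q * 1 * star q`.  `norm_tha4`: `norm_tha`.
`contDiffOn_tha4` on `{x ≠ 0}` (open): near a point with `x 0 > 0`: composition; near a point with `x 0 < 0`: constant `1`; near a point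
with `x 0 = 0`, `vec4 x ≠ 0`: for `y` near `x` either `y 0 ≤ 0` or `‖(y 0)⁻¹ • vec4 y‖ = ‖vec4 y‖/y 0 ≥ 3l/8` (as `‖vec4 y‖ ≥ ‖vec4 x‖/2` and
`y 0 ≤ (8/3l)·‖vec4 x‖/2`), so `tha4 l y = 1` near `x`.
`t1`: `tw l X = rot4 (tha4 l X)`, `twi l X = rot4 (star (tha4 l X))`: inverse to each other (`rot4_mul`, `star_mul_of_norm`,
`rot4 1 = id`); `t1, t1i` fix `q1`, `t2, t2i` fix `q2`, all preserve norms and `q3`, and the coordinates `q1 · 0`, `q2 · 0`.
Smoothness on `{q1 ≠ 0}`, `{q2 ≠ 0}`: `rot4` is smooth in the quaternion (components; `contDiff_Adq`), `ContDiffOn.clm_apply`.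
-/

set_option maxSynthPendingDepth 3

open scoped ContDiff Quaternion
open Pool.Agent.EXO

namespace EXO

private theorem GcTw_rot (q : ℍ[ℝ]) (y : En 4) : rot4 q y = mk4 (y 0) (Adq q (vec4 y)) := rfl

private theorem GcTw_vec (t : ℝ) (v : En 3) : vec4 (mk4 t v) = v := by
  ext i
  fin_cases i <;> simp [vec4, mk4]

private theorem GcTw_mk (y : En 4) : mk4 (y 0) (vec4 y) = y := by
  ext i
  fin_cases i <;> simp [vec4, mk4]

private theorem GcTw_norm (t : ℝ) (v : En 3) : ‖mk4 t v‖ ^ 2 = t ^ 2 + ‖v‖ ^ 2 := by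
  rw [EuclideanSpace.norm_sq_eq, EuclideanSpace.norm_sq_eq, Fin.sum_univ_four, Fin.sum_univ_three]
  simp [mk4, sq_abs]
  ring

theorem rot4_zero (q : ℍ[ℝ]) (y : En 4) : rot4 q y 0 = y 0 := by
  rfl

theorem vec4_rot4 (q : ℍ[ℝ]) (y : En 4) : vec4 (rot4 q y) = Adq q (vec4 y) := by
  rw [GcTw_rot, GcTw_vec]

theorem rot4_mul (p q : ℍ[ℝ]) (y : En 4) : rot4 (p * q) y = rot4 p (rot4 q y) := by
  rw [GcTw_rot p, vec4_rot4, rot4_zero, GcTw_rot, Adq_mul]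
  rfl

theorem rot4_one (y : En 4) : rot4 1 y = y := by
  rw [GcTw_rot, Adq_one]
  exact GcTw_mk y

theorem norm_rot4 {q : ℍ[ℝ]} (h : ‖q‖ = 1) (y : En 4) : ‖rot4 q y‖ = ‖y‖ := by
  have h1 : ‖rot4 q y‖ ^ 2 = ‖y‖ ^ 2 := by
    rw [GcTw_rot, GcTw_norm, norm_Adq h, ← GcTw_norm, GcTw_mk]
  exact (sq_eq_sq₀ (norm_nonneg _) (norm_nonneg _)).1 h1

theorem norm_tha4 {l : ℝ} (hl : 0 < l) (x : En 4) : ‖tha4 l x‖ = 1 := by
  unfold tha4
  split_ifs with h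
  · exact norm_tha hl _
  · exact norm_one

theorem tha4_rot4 {l : ℝ} (hl : 0 < l) {q : ℍ[ℝ]} (hq : ‖q‖ = 1) (x : En 4) :
    tha4 l (rot4 q x) = q * tha4 l x * star q := by
  unfold tha4
  rw [rot4_zero, vec4_rot4]
  split_ifs with h
  · rw [← map_smul, tha_Adq hl hq]
  · rw [mul_one, (star_mul_of_norm hq).2]

private theorem GcTw_cd0 : ContDiff ℝ ∞ (fun y : En 4 => y 0) :=
  (EuclideanSpace.proj (𝕜 := ℝ) (0 : Fin 4)).contDiff

private theorem GcTw_cdv : ContDiff ℝ ∞ vec4 := by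
  refine contDiff_euclidean.2 fun i => ?_
  fin_cases i
  · exact (EuclideanSpace.proj (𝕜 := ℝ) (1 : Fin 4)).contDiff
  · exact (EuclideanSpace.proj (𝕜 := ℝ) (2 : Fin 4)).contDiff
  · exact (EuclideanSpace.proj (𝕜 := ℝ) (3 : Fin 4)).contDiff

theorem contDiffOn_tha4 {l : ℝ} (hl : 0 < l) : ContDiffOn ℝ ∞ (tha4 l) {x | x ≠ 0} := by
  intro x hx
  refine ContDiffAt.contDiffWithinAt ?_
  rcases lt_trichotomy (x 0) 0 with h | h | h
  · have e : tha4 l =ᶠ[nhds x] fun _ => 1 := by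
      filter_upwards [(isOpen_lt GcTw_cd0.continuous continuous_const).mem_nhds h] with y hy
      exact if_neg (not_lt.2 (le_of_lt hy))
    exact contDiffAt_const.congr_of_eventuallyEq e
  · have hv : 0 < ‖vec4 x‖ := by
      rw [norm_pos_iff]
      intro hv
      apply hx
      rw [← GcTw_mk x, h, hv]
      ext i
      fin_cases i <;> simp [mk4]
    have h1 : 3 * l / 8 * x 0 < ‖vec4 x‖ := by rw [h, mul_zero]; exact hv
    have hc : Continuous fun y : En 4 => 3 * l / 8 * y 0 := continuous_const.mul GcTw_cd0.continuous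
    have e : tha4 l =ᶠ[nhds x] fun _ => 1 := by
      filter_upwards [(isOpen_lt hc GcTw_cdv.continuous.norm).mem_nhds h1] with y hy
      unfold tha4
      split_ifs with h2
      · refine tha_out hl ?_
        rw [norm_smul, norm_inv, Real.norm_of_nonneg h2.le, inv_mul_eq_div, le_div_iff₀ h2]
        exact le_of_lt hy
      · rfl
    exact contDiffAt_const.congr_of_eventuallyEq e
  · have e : tha4 l =ᶠ[nhds x] fun y => tha l ((y 0)⁻¹ • vec4 y) := by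
      filter_upwards [(isOpen_lt continuous_const GcTw_cd0.continuous).mem_nhds h] with y hy
      exact if_pos hy
    refine ContDiffAt.congr_of_eventuallyEq ?_ e
    exact (contDiff_tha hl).contDiffAt.comp x
      ((GcTw_cd0.contDiffAt.inv h.ne').smul GcTw_cdv.contDiffAt)

private theorem GcTw_tw {l : ℝ} (hl : 0 < l) (X Y : En 4) :
    tw l X (twi l X Y) = Y ∧ twi l X (tw l X Y) = Y := by
  have h := star_mul_of_norm (norm_tha4 hl X)
  constructor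
  · rw [tw, twi, ← rot4_mul, h.2, rot4_one]
  · rw [tw, twi, ← rot4_mul, h.1, rot4_one]

theorem t1_t1i {l : ℝ} (hl : 0 < l) (w : En 14) : t1 l (t1i l w) = w ∧ t1i l (t1 l w) = w := by
  have h := GcTw_tw hl (q1 w) (q2 w)
  constructor
  · rw [t1, t1i, q1_j14, q2_j14, q3_j14, h.1, j14_q]
  · rw [t1, t1i, q1_j14, q2_j14, q3_j14, h.2, j14_q]

theorem t2_t2i {l : ℝ} (hl : 0 < l) (w : En 14) : t2 l (t2i l w) = w ∧ t2i l (t2 l w) = w := by
  have h := GcTw_tw hl (q2 w) (q1 w)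
  constructor
  · rw [t2, t2i, q1_j14, q2_j14, q3_j14, h.1, j14_q]
  · rw [t2, t2i, q1_j14, q2_j14, q3_j14, h.2, j14_q]

/-- `g` preserves the norms of the components, `q3` and the coordinates `X_0`, `Y_0` -/
def Pres (g : En 14 → En 14) : Prop :=
  ∀ w, ‖q1 (g w)‖ = ‖q1 w‖ ∧ ‖q2 (g w)‖ = ‖q2 w‖ ∧ q3 (g w) = q3 w ∧
    q1 (g w) 0 = q1 w 0 ∧ q2 (g w) 0 = q2 w 0

theorem t_pres {l : ℝ} (hl : 0 < l) : Pres (t1 l) ∧ Pres (t1i l) ∧ Pres (t2 l) ∧ Pres (t2i l) := by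
  have hs : ∀ X : En 4, ‖star (tha4 l X)‖ = 1 := fun X => by
    rw [Quaternion.norm_star, norm_tha4 hl]
  refine ⟨fun w => ?_, fun w => ?_, fun w => ?_, fun w => ?_⟩
  · simp only [t1, q1_j14, q2_j14, q3_j14, tw, norm_rot4 (norm_tha4 hl _), rot4_zero, and_self]
  · simp only [t1i, q1_j14, q2_j14, q3_j14, twi, norm_rot4 (hs _), rot4_zero, and_self]
  · simp only [t2, q1_j14, q2_j14, q3_j14, tw, norm_rot4 (norm_tha4 hl _), rot4_zero, and_self]
  · simp only [t2i, q1_j14, q2_j14, q3_j14, twi, norm_rot4 (hs _), rot4_zero, and_self]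

private theorem GcTw_cdq1 : ContDiff ℝ ∞ q1 :=
  contDiff_euclidean.2 fun i =>
    (EuclideanSpace.proj (𝕜 := ℝ) (⟨i.1, by omega⟩ : Fin 14)).contDiff

private theorem GcTw_cdq2 : ContDiff ℝ ∞ q2 :=
  contDiff_euclidean.2 fun i =>
    (EuclideanSpace.proj (𝕜 := ℝ) (⟨4 + i.1, by omega⟩ : Fin 14)).contDiff

private theorem GcTw_cdq3 : ContDiff ℝ ∞ q3 :=
  contDiff_euclidean.2 fun i =>
    (EuclideanSpace.proj (𝕜 := ℝ) (⟨8 + i.1, by omega⟩ : Fin 14)).contDiff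

private theorem GcTw_cdj : ContDiff ℝ ∞ (fun p : En 4 × En 4 × En 6 => j14 p.1 p.2.1 p.2.2) := by
  refine contDiff_euclidean.2 fun i => ?_
  by_cases h : i.1 < 4
  · have e : (fun p : En 4 × En 4 × En 6 => j14 p.1 p.2.1 p.2.2 i)
        = fun p : En 4 × En 4 × En 6 => p.1 ⟨i, h⟩ := by
      funext p
      simp only [j14, h, dite_true]
    rw [e]
    exact (EuclideanSpace.proj (𝕜 := ℝ) (⟨i, h⟩ : Fin 4)).contDiff.comp contDiff_fst
  · by_cases h' : i.1 < 8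
    · have e : (fun p : En 4 × En 4 × En 6 => j14 p.1 p.2.1 p.2.2 i)
          = fun p : En 4 × En 4 × En 6 => p.2.1 ⟨i - 4, by omega⟩ := by
        funext p
        simp only [j14, h, h', dite_true, dite_false]
      rw [e]
      exact (EuclideanSpace.proj (𝕜 := ℝ) (⟨i - 4, by omega⟩ : Fin 4)).contDiff.comp
        (contDiff_fst.comp contDiff_snd)
    · have e : (fun p : En 4 × En 4 × En 6 => j14 p.1 p.2.1 p.2.2 i)
          = fun p : En 4 × En 4 × En 6 => p.2.2 ⟨i - 8, by omega⟩ := by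
        funext p
        simp only [j14, h, h', dite_false]
      rw [e]
      exact (EuclideanSpace.proj (𝕜 := ℝ) (⟨i - 8, by omega⟩ : Fin 6)).contDiff.comp
        (contDiff_snd.comp contDiff_snd)

private noncomputable def GcTw_starL : ℍ[ℝ] →L[ℝ] ℍ[ℝ] :=
  LinearMap.toContinuousLinearMap
    { toFun := fun q => star q
      map_add' := fun u v => star_add u v
      map_smul' := by
        intro c u
        apply Quaternion.ext <;> simp }

private theorem GcTw_cdrot : ContDiff ℝ ∞ (fun p : ℍ[ℝ] × En 4 => rot4 p.1 p.2) := by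
  have h1 : ContDiff ℝ ∞ (fun p : ℍ[ℝ] × En 4 => Adq p.1 (vec4 p.2)) :=
    (contDiff_Adq.comp contDiff_fst).clm_apply (GcTw_cdv.comp contDiff_snd)
  have h0 : ContDiff ℝ ∞ (fun p : ℍ[ℝ] × En 4 => p.2 0) := GcTw_cd0.comp contDiff_snd
  refine contDiff_euclidean.2 fun i => ?_
  fin_cases i
  · exact h0
  · exact (EuclideanSpace.proj (𝕜 := ℝ) (0 : Fin 3)).contDiff.comp h1
  · exact (EuclideanSpace.proj (𝕜 := ℝ) (1 : Fin 3)).contDiff.comp h1
  · exact (EuclideanSpace.proj (𝕜 := ℝ) (2 : Fin 3)).contDiff.comp h1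

private theorem GcTw_cdtw {l : ℝ} (hl : 0 < l) {f g : En 14 → En 4} (hf : ContDiff ℝ ∞ f)
    (hg : ContDiff ℝ ∞ g) {s : Set (En 14)} (hs : ∀ w ∈ s, f w ≠ 0) :
    ContDiffOn ℝ ∞ (fun w => tw l (f w) (g w)) s ∧ ContDiffOn ℝ ∞ (fun w => twi l (f w) (g w)) s := by
  have h1 : ContDiffOn ℝ ∞ (fun w => tha4 l (f w)) s :=
    ContDiffOn.comp (contDiffOn_tha4 hl) hf.contDiffOn hs
  have h2 : ContDiffOn ℝ ∞ (fun w => GcTw_starL (tha4 l (f w))) s :=
    GcTw_starL.contDiff.comp_contDiffOn h1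
  have h3 : ContDiffOn ℝ ∞ (fun w => (tha4 l (f w), g w)) s := h1.prodMk hg.contDiffOn
  have h4 : ContDiffOn ℝ ∞ (fun w => (GcTw_starL (tha4 l (f w)), g w)) s := h2.prodMk hg.contDiffOn
  have h5 := GcTw_cdrot.comp_contDiffOn h3
  have h6 := GcTw_cdrot.comp_contDiffOn h4
  constructor
  · exact h5
  · exact h6

theorem contDiffOn_t1 {l : ℝ} (hl : 0 < l) :
    ContDiffOn ℝ ∞ (t1 l) {w | q1 w ≠ 0} ∧ ContDiffOn ℝ ∞ (t1i l) {w | q1 w ≠ 0} := by
  have h := GcTw_cdtw hl GcTw_cdq1 GcTw_cdq2 (s := {w | q1 w ≠ 0}) (fun w hw => hw)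
  exact ⟨GcTw_cdj.comp_contDiffOn
      (GcTw_cdq1.contDiffOn.prodMk (h.1.prodMk GcTw_cdq3.contDiffOn)),
    GcTw_cdj.comp_contDiffOn
      (GcTw_cdq1.contDiffOn.prodMk (h.2.prodMk GcTw_cdq3.contDiffOn))⟩

theorem contDiffOn_t2 {l : ℝ} (hl : 0 < l) :
    ContDiffOn ℝ ∞ (t2 l) {w | q2 w ≠ 0} ∧ ContDiffOn ℝ ∞ (t2i l) {w | q2 w ≠ 0} := by
  have h := GcTw_cdtw hl GcTw_cdq2 GcTw_cdq1 (s := {w | q2 w ≠ 0}) (fun w hw => hw)
  exact ⟨GcTw_cdj.comp_contDiffOn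
      (h.1.prodMk (GcTw_cdq2.contDiffOn.prodMk GcTw_cdq3.contDiffOn)),
    GcTw_cdj.comp_contDiffOn
      (h.2.prodMk (GcTw_cdq2.contDiffOn.prodMk GcTw_cdq3.contDiffOn))⟩

theorem tt14_eq (l : ℝ) (w : En 14) : tt14 l w = t2 l (t1i l w) := by
  rw [t2, t1i, q1_j14, q2_j14, q3_j14]
  rfl

end EXO
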