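import Mathlib

/-!
# EXO, GEO, module GcZ: a diffeomorphism with prescribed germ tangent to the identity

PROOF.  Let `χ : E → ℝ` be smooth, `χ = 1` on `closedBall 0 1`, `χ = 0` outside `ball 0 2` (`ContDiffBump` with centre `0`,
`rIn = 1`, `rOut = 2`), `L ≥ 0` a Lipschitz constant of `χ` (`ContDiff.lipschitzWith_of_hasCompactSupport` or bounded
derivative), `0 ≤ χ ≤ 1`.  `H := G - id`, `DH(q0) = 0`, `DH` continuous near `q0`: choose `r > 0` with `ball q0 (3r) ⊆ U` (interior) and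
`‖DH‖ ≤ κ := 1/(4(L+1))` on `ball q0 (3r)`.  Then `‖H q‖ ≤ 2 κ r` for `‖q - q0‖ ≤ 2r` and `H` is `κ`-Lipschitz on that ball.
`E(q) := χ((q - q0)/r) • H q` (`= 0` where `χ = 0`).  `E` is smooth on `E` (on the open ball `3r` a product; outside the closed
ball `2r` it is `0`).  `E` is globally Lipschitz with constant `L/r · 2κr + κ = (2L+1)κ ≤ 1/2`: its derivative is bounded by that
(at points of `ball q0 (3r)`: `DE = (L/r)‖H‖ + χ‖DH‖`, and it vanishes for `‖q-q0‖ > 2r`), mean value inequality on the whole space.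
`e := id + E`: injective, and surjective by `ApproximatesLinearOn` (`f' = id`, `c = 1/2 < 1`, `ApproximatesLinearOn.toHomeomorph`); it is a
homeomorphism, `De(q) = id + DE(q)` is invertible (`‖DE‖ ≤ 1/2 < 1`), so the inverse `e'` is smooth by the inverse function
theorem (`OpenPartialHomeomorph.contDiffAt_symm` / `Homeomorph.contDiff_symm`).  `e = G` on `ball q0 r`.
-/

open scoped ContDiff Topology

namespace EXO

theorem straighten {E : Type*} [NormedAddCommGroup E] [NormedSpace ℝ E] [FiniteDimensional ℝ E]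
    {q0 : E} {U : Set E} (hU : U ∈ 𝓝 q0) {G : E → E} (hG : ContDiffOn ℝ ∞ G U)
    (h0 : G q0 = q0) (h1 : fderiv ℝ G q0 = ContinuousLinearMap.id ℝ E) :
    ∃ (r : ℝ) (e e' : E → E), 0 < r ∧ ContDiff ℝ ∞ e ∧ ContDiff ℝ ∞ e' ∧
      (∀ x, e' (e x) = x) ∧ (∀ x, e (e' x) = x) ∧ ∀ x ∈ Metric.ball q0 r, e x = G x := by
  have hcd : ContDiffAt ℝ ∞ G q0 := hG.contDiffAt hU
  let χ : ContDiffBump (0 : E) := ⟨1, 2, one_pos, one_lt_two⟩
  obtain ⟨L, hL⟩ : ∃ C, LipschitzWith C χ :=
    ContDiff.lipschitzWith_of_hasCompactSupport (𝕂 := ℝ) (n := 1) χ.hasCompactSupport χ.contDiff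
      one_ne_zero
  have hstrict : HasStrictFDerivAt (fun q => G q - q) (0 : E →L[ℝ] E) q0 := by
    have h2 := (hcd.hasStrictFDerivAt (by simp)).sub (hasStrictFDerivAt_id q0)
    rw [h1, sub_self] at h2
    exact h2
  obtain ⟨κ, hκ0, hκ⟩ : ∃ κ : NNReal, 0 < κ ∧ (2 * (L : ℝ) + 1) * κ ≤ 1 / 2 := by
    refine ⟨(2 * (2 * L + 1))⁻¹, by positivity, le_of_eq ?_⟩
    push_cast
    field_simp
  obtain ⟨s, hs, hsL⟩ := hstrict.exists_lipschitzOnWith_of_nnnorm_lt κ (by simpa using hκ0)
  obtain ⟨r', hr', hball⟩ := Metric.mem_nhds_iff.1 (Filter.inter_mem hs hU)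
  obtain ⟨r, hr, hrr⟩ : ∃ r : ℝ, 0 < r ∧ r' = 3 * r := ⟨r' / 3, by positivity, by ring⟩
  subst hrr
  have hrinv : 0 < r⁻¹ := inv_pos.2 hr
  obtain ⟨c, hc⟩ : ∃ c : E → ℝ, c = fun q => χ (r⁻¹ • (q - q0)) := ⟨_, rfl⟩
  have hc0 : ∀ q, 0 ≤ c q := fun q => by rw [hc]; exact χ.nonneg
  have hc1 : ∀ q, c q ≤ 1 := fun q => by rw [hc]; exact χ.le_one
  have hcz : ∀ q, 2 * r ≤ dist q q0 → c q = 0 := by
    intro q hq
    rw [hc]
    refine χ.zero_of_le_dist ?_
    rw [dist_zero_right, norm_smul, Real.norm_eq_abs, abs_of_pos hrinv, ← dist_eq_norm,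
      inv_mul_eq_div, le_div_iff₀ hr]
    exact hq
  have hcone : ∀ q, dist q q0 ≤ r → c q = 1 := by
    intro q hq
    rw [hc]
    refine χ.one_of_mem_closedBall ?_
    rw [mem_closedBall_zero_iff, norm_smul, Real.norm_eq_abs, abs_of_pos hrinv, ← dist_eq_norm,
      inv_mul_eq_div, div_le_iff₀ hr]
    exact hq.trans_eq (one_mul r).symm
  have hcL : ∀ x y, |c x - c y| ≤ L * (r⁻¹ * ‖x - y‖) := by
    intro x y
    have h2 := hL.dist_le_mul (r⁻¹ • (x - q0)) (r⁻¹ • (y - q0))
    rw [Real.dist_eq, dist_eq_norm, ← smul_sub, sub_sub_sub_cancel_right, norm_smul,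
      Real.norm_eq_abs, abs_of_pos hrinv] at h2
    rw [hc]
    exact h2
  obtain ⟨H, hH⟩ : ∃ H : E → E, H = fun q => G q - q := ⟨_, rfl⟩
  rw [← hH] at hsL
  have hHL : ∀ x ∈ Metric.ball q0 (3 * r), ∀ y ∈ Metric.ball q0 (3 * r),
      ‖H x - H y‖ ≤ κ * ‖x - y‖ := by
    intro x hx y hy
    have h2 := hsL.dist_le_mul x (hball hx).1 y (hball hy).1
    rwa [dist_eq_norm, dist_eq_norm] at h2
  have hHq0 : H q0 = 0 := by rw [hH]; simp [h0]
  have hHb : ∀ x, dist x q0 < 2 * r → ‖H x‖ ≤ κ * (2 * r) := by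
    intro x hx
    have h2 := hHL x (Metric.mem_ball.2 (by linarith)) q0 (Metric.mem_ball_self (by linarith))
    rw [hHq0, sub_zero, ← dist_eq_norm] at h2
    exact h2.trans (mul_le_mul_of_nonneg_left hx.le κ.2)
  obtain ⟨Ef, hEf⟩ : ∃ Ef : E → E, Ef = fun q => c q • H q := ⟨_, rfl⟩
  have hEcd : ContDiff ℝ ∞ Ef := by
    rw [contDiff_iff_contDiffAt]
    intro q
    by_cases hq : q ∈ Metric.ball q0 (3 * r)
    · have h2 : U ∈ 𝓝 q := Filter.mem_of_superset (Metric.isOpen_ball.mem_nhds hq)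
        (fun y hy => (hball hy).2)
      rw [hEf, hc, hH]
      refine ContDiffAt.smul (ContDiff.contDiffAt ?_) ((hG.contDiffAt h2).sub contDiffAt_id)
      exact χ.contDiff.comp (by fun_prop)
    · have h2 : Ef =ᶠ[𝓝 q] fun _ => 0 := by
        have h3 : {y | 2 * r < dist y q0} ∈ 𝓝 q :=
          (isOpen_lt continuous_const (continuous_id.dist continuous_const)).mem_nhds (by
            rw [Metric.mem_ball, not_lt] at hq
            change 2 * r < dist q q0
            linarith)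
        filter_upwards [h3] with y hy
        rw [hEf]
        simp only [hcz y (le_of_lt hy), zero_smul]
      exact contDiffAt_const.congr_of_eventuallyEq h2
  have hElip : LipschitzWith (1 / 2) Ef := by
    refine LipschitzWith.of_dist_le_mul fun x y => ?_
    -- symmetric statement
    have key : ∀ x y, dist x q0 < 2 * r → ‖Ef x - Ef y‖ ≤ (1 / 2) * ‖x - y‖ := by
      intro x y hx
      have hHx := hHb x hx
      have hLx : |c x - c y| * ‖H x‖ ≤ 2 * L * κ * ‖x - y‖ := by
        calc |c x - c y| * ‖H x‖ ≤ (L * (r⁻¹ * ‖x - y‖)) * (κ * (2 * r)) :=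
              mul_le_mul (hcL x y) hHx (norm_nonneg _) (by positivity)
          _ = 2 * L * κ * ‖x - y‖ := by field_simp
      rw [hEf]
      by_cases hy : dist y q0 < 2 * r
      · have h2 : c x • H x - c y • H y = (c x - c y) • H x + c y • (H x - H y) := by
          rw [sub_smul, smul_sub]; abel
        have h3 : ‖c y • (H x - H y)‖ ≤ κ * ‖x - y‖ := by
          rw [norm_smul, Real.norm_eq_abs, abs_of_nonneg (hc0 y)]
          have h4 := hHL x (Metric.mem_ball.2 (by linarith)) y (Metric.mem_ball.2 (by linarith))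
          calc c y * ‖H x - H y‖ ≤ 1 * ‖H x - H y‖ :=
                mul_le_mul_of_nonneg_right (hc1 y) (norm_nonneg _)
            _ ≤ κ * ‖x - y‖ := by rw [one_mul]; exact h4
        calc ‖c x • H x - c y • H y‖ ≤ ‖(c x - c y) • H x‖ + ‖c y • (H x - H y)‖ := by
              rw [h2]; exact norm_add_le _ _
          _ ≤ 2 * L * κ * ‖x - y‖ + κ * ‖x - y‖ := by
              rw [norm_smul, Real.norm_eq_abs]; exact add_le_add hLx h3
          _ = ((2 * L + 1) * κ) * ‖x - y‖ := by ring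
          _ ≤ (1 / 2) * ‖x - y‖ := mul_le_mul_of_nonneg_right hκ (norm_nonneg _)
      · have hcy : c y = 0 := hcz y (not_lt.1 hy)
        rw [hcy, sub_zero] at hLx
        calc ‖c x • H x - c y • H y‖ = |c x| * ‖H x‖ := by
              rw [hcy, zero_smul, sub_zero, norm_smul, Real.norm_eq_abs]
          _ ≤ 2 * L * κ * ‖x - y‖ := hLx
          _ ≤ ((2 * L + 1) * κ) * ‖x - y‖ := by
              refine mul_le_mul_of_nonneg_right ?_ (norm_nonneg _)
              have := κ.2
              nlinarith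
          _ ≤ (1 / 2) * ‖x - y‖ := mul_le_mul_of_nonneg_right hκ (norm_nonneg _)
    rw [dist_eq_norm, dist_eq_norm]
    push_cast
    by_cases hx : dist x q0 < 2 * r
    · exact key x y hx
    · by_cases hy : dist y q0 < 2 * r
      · rw [norm_sub_rev, norm_sub_rev x y]
        exact key y x hy
      · rw [hEf]
        simp only [hcz x (not_lt.1 hx), hcz y (not_lt.1 hy), zero_smul, sub_zero, norm_zero]
        positivity
  have happ : ApproximatesLinearOn (fun x => x + Ef x)
      ((ContinuousLinearEquiv.refl ℝ E : E ≃L[ℝ] E) : E →L[ℝ] E) Set.univ (1 / 2) := by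
    intro x _ y _
    have h2 := hElip.dist_le_mul x y
    rw [dist_eq_norm, dist_eq_norm] at h2
    have h3 : x + Ef x - (y + Ef y) - ((ContinuousLinearEquiv.refl ℝ E : E ≃L[ℝ] E) :
        E →L[ℝ] E) (x - y) = Ef x - Ef y := by
      simp only [ContinuousLinearEquiv.coe_refl, ContinuousLinearMap.coe_id', id]
      abel
    rw [h3]
    exact h2
  have hcond : Subsingleton E ∨ (1 / 2 : NNReal) <
      ‖((ContinuousLinearEquiv.refl ℝ E).symm : E →L[ℝ] E)‖₊⁻¹ := by
    rcases subsingleton_or_nontrivial E with h | h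
    · exact Or.inl h
    · right
      rw [ContinuousLinearEquiv.refl_symm, ContinuousLinearEquiv.coe_refl,
        ContinuousLinearMap.nnnorm_id, inv_one]
      norm_num
  let φ : E ≃ₜ E := happ.toHomeomorph _ hcond
  have hφ : ∀ x, φ x = x + Ef x := fun x => rfl
  have hφcd : ContDiff ℝ ∞ φ := by
    change ContDiff ℝ ∞ fun x => x + Ef x
    exact contDiff_id.add hEcd
  have hφinv : ContDiff ℝ ∞ φ.symm := by
    have hn : ∀ a, ‖-fderiv ℝ Ef a‖ < 1 := by
      intro a
      rw [norm_neg]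
      have h2 := norm_fderiv_le_of_lipschitz ℝ (x₀ := a) hElip
      refine lt_of_le_of_lt h2 ?_
      norm_num
    refine Homeomorph.contDiff_symm (f₀' := fun a => ContinuousLinearEquiv.ofUnit
      (Units.oneSub (-fderiv ℝ Ef a) (hn a))) φ (fun a => ?_) hφcd
    have h2 : ((ContinuousLinearEquiv.ofUnit (Units.oneSub (-fderiv ℝ Ef a) (hn a)) : E ≃L[ℝ] E) :
        E →L[ℝ] E) = ContinuousLinearMap.id ℝ E + fderiv ℝ Ef a := by
      ext x
      change (1 - -fderiv ℝ Ef a) x = _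
      simp
    rw [h2]
    change HasFDerivAt (fun x => x + Ef x) _ a
    exact (hasFDerivAt_id a).add ((hEcd.differentiable (by simp)) a).hasFDerivAt
  refine ⟨r, φ, φ.symm, hr, hφcd, hφinv, φ.symm_apply_apply, φ.apply_symm_apply, fun x hx => ?_⟩
  rw [hφ, hEf]
  simp only [hcone x (le_of_lt (Metric.mem_ball.1 hx)), one_smul, hH]
  abel

end EXO
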