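import Pool.Agent.EXO.GlK

/-!
# EXO, GLU, module GlCon: connectedness of the slab of the target

`Yab = {y ∈ J1 ∪ J2 : κ⁻¹ • Lam7 y ∈ O, a < sc(κ⁻¹ • Lam7 y) < b}`.

PROOF.  Let `M = {m ∈ O : a < sc m < b} = io '' (N × (a,b))`: the image of a connected set under a continuous map (`N` connected,
`-1 ≤ a < b ≤ 1`), so connected (preconnected).
Let `S₁ = {(X,Y) ∈ ℝ⁴ × ℝ⁴ : Y ≠ 0}`, `S₂ = {‖Y‖ < ‖X‖/2}`: connected sets.  (`S₁ = ℝ⁴ × (ℝ⁴ \ {0})`; the complement of a point in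
`ℝ⁴` is path connected: `isPathConnected_compl_singleton_of_one_lt_rank`.  `S₂`: every point `(X,Y)` is joined to `(X,0)` by the segment
`(X, sY)`, and `{(X,0) : X ≠ 0}` is connected.)
The map `Γ : (X, Y, m) ↦ (e^{κ m_0} (X,Y)/|(X,Y)|, κ tl7 m) ∈ ℝ⁸ × ℝ⁶` is continuous for `(X,Y) ≠ 0`; it maps `S_i × M` into
`D_i d` (`κ ‖m‖ < d`), `lam7 (Γ(X,Y,m)) = κ m`, and `Γ (S_i × M) = {w ∈ D_i d : κ⁻¹ • lam7 w ∈ M} =: W_i` (given `w`, take
`(X,Y) = (q1 w, q2 w)`, `m = κ⁻¹ lam7 w`).  So `W_i` is connected and `j_i '' W_i` is connected; `Yab = j1 '' W_1 ∪ j2 '' W_2` (for `y ∈ J_i`,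
`y = j_i (k_i y)`, `Lam7 y = lam7 (k_i y)`; `Lam7_J2`).  The two sets meet: take `w ∈ W_2` with `q2 w ≠ 0` (e.g. `X = e_0`, `Y = e_0/4`); by `inter2`
`j2 w ∈ J1`, so `j2 w = j1 (k1 ..) ∈ j1 '' W_1` (`Lam7`).
-/

set_option maxSynthPendingDepth 3

open scoped ContDiff
open Pool.Agent.EXO

namespace EXO

private noncomputable def GlCon_r (q : En 4 × En 4) : ℝ := Real.sqrt (‖q.1‖ ^ 2 + ‖q.2‖ ^ 2)

private noncomputable def GlCon_G (κ : ℝ) (p : (En 4 × En 4) × En 7) : En 14 :=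
  j14 ((Real.exp (κ * p.2 0) / GlCon_r p.1) • p.1.1) ((Real.exp (κ * p.2 0) / GlCon_r p.1) • p.1.2)
    (κ • tl7 p.2)

private theorem GlCon_rpos {q : En 4 × En 4} (h : q.1 ≠ 0 ∨ q.2 ≠ 0) : 0 < GlCon_r q := by
  apply Real.sqrt_pos.2
  rcases h with h | h
  · have := norm_pos_iff.2 h
    positivity
  · have := norm_pos_iff.2 h
    positivity

private theorem GlCon_gq (κ : ℝ) {p : (En 4 × En 4) × En 7} (h : 0 < GlCon_r p.1) :
    gq (GlCon_G κ p) = Real.exp (κ * p.2 0) ^ 2 := by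
  have h1 : GlCon_r p.1 ^ 2 = ‖p.1.1‖ ^ 2 + ‖p.1.2‖ ^ 2 := Real.sq_sqrt (by positivity)
  rw [gq, GlCon_G, q1_j14, q2_j14, norm_smul, norm_smul, mul_pow, mul_pow, ← mul_add, ← h1,
    Real.norm_eq_abs, sq_abs, div_pow, div_mul_cancel₀ _ (pow_ne_zero 2 h.ne')]

private theorem GlCon_lam (κ : ℝ) {p : (En 4 × En 4) × En 7} (h : 0 < GlCon_r p.1) :
    lam7 (GlCon_G κ p) = κ • p.2 := by
  ext i
  show (if h : i.1 = 0 then Real.log (gq (GlCon_G κ p)) / 2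
    else q3 (GlCon_G κ p) ⟨i.1 - 1, by omega⟩) = κ * p.2 i
  by_cases hi : i.1 = 0
  · rw [dif_pos hi, GlCon_gq κ h, Real.log_pow, Real.log_exp]
    have : i = 0 := Fin.ext hi
    rw [this]
    push_cast
    ring
  · rw [dif_neg hi, GlCon_G, q3_j14]
    show κ * p.2 ⟨i.1 - 1 + 1, _⟩ = κ * p.2 i
    exact congrArg (fun j => κ * p.2 j) (Fin.ext (by show i.1 - 1 + 1 = i.1; omega))

private theorem GlCon_tl (w : En 14) : tl7 (lam7 w) = q3 w := by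
  ext i
  show (if h : i.1 + 1 = 0 then Real.log (gq w) / 2 else q3 w ⟨i.1 + 1 - 1, by omega⟩) = q3 w i
  rw [dif_neg (by omega)]
  rfl

private theorem GlCon_tl_smul (c : ℝ) (m : En 7) : tl7 (c • m) = c • tl7 m := rfl

private theorem GlCon_G_self {κ : ℝ} (hκ : 0 < κ) {w : En 14} (hw : 0 < gq w) :
    GlCon_G κ ((q1 w, q2 w), κ⁻¹ • lam7 w) = w := by
  have h1 : Real.exp (κ * (κ⁻¹ • lam7 w) 0) = Real.sqrt (gq w) := by
    have e : κ * (κ⁻¹ • lam7 w) 0 = Real.log (gq w) / 2 := by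
      show κ * (κ⁻¹ * (Real.log (gq w) / 2)) = _
      field_simp
    rw [e, Real.sqrt_eq_rpow, Real.rpow_def_of_pos hw]
    congr 1
    ring
  have h2 : Real.sqrt (gq w) ≠ 0 := (Real.sqrt_pos.2 hw).ne'
  have h3 : κ • tl7 (κ⁻¹ • lam7 w) = q3 w := by
    rw [GlCon_tl_smul, smul_smul, mul_inv_cancel₀ hκ.ne', one_smul, GlCon_tl]
  have h4 : GlCon_r (q1 w, q2 w) = Real.sqrt (gq w) := rfl
  show j14 ((Real.exp (κ * (κ⁻¹ • lam7 w) 0) / GlCon_r (q1 w, q2 w)) • q1 w)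
    ((Real.exp (κ * (κ⁻¹ • lam7 w) 0) / GlCon_r (q1 w, q2 w)) • q2 w)
    (κ • tl7 (κ⁻¹ • lam7 w)) = w
  rw [h1, h3, h4, div_self h2, one_smul, one_smul, j14_q]

private theorem GlCon_cdj : Continuous (fun p : En 4 × En 4 × En 6 => j14 p.1 p.2.1 p.2.2) := by
  refine (PiLp.continuous_toLp 2 _).comp (continuous_pi fun i => ?_)
  by_cases h : i.1 < 4
  · simp only [h, dite_true]
    fun_prop
  · by_cases h' : i.1 < 8
    · simp only [h, h', dite_true, dite_false]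
      fun_prop
    · simp only [h, h', dite_false]
      fun_prop

private theorem GlCon_cdG (κ : ℝ) {s : Set ((En 4 × En 4) × En 7)}
    (hs : ∀ p ∈ s, 0 < GlCon_r p.1) : ContinuousOn (GlCon_G κ) s := by
  have h0 : Continuous (fun p : (En 4 × En 4) × En 7 => p.2 0) := by fun_prop
  have h1 : Continuous (fun p : (En 4 × En 4) × En 7 => GlCon_r p.1) := by
    unfold GlCon_r
    fun_prop
  have h2 : ContinuousOn (fun p : (En 4 × En 4) × En 7 =>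
      Real.exp (κ * p.2 0) / GlCon_r p.1) s :=
    (Real.continuous_exp.comp (continuous_const.mul h0)).continuousOn.div h1.continuousOn
      fun p hp => (hs p hp).ne'
  have h3 : Continuous (fun p : (En 4 × En 4) × En 7 => κ • tl7 p.2) := by
    have : Continuous tl7 := (PiLp.continuous_toLp 2 _).comp (continuous_pi fun i => by fun_prop)
    exact (this.comp continuous_snd).const_smul κ
  have h4 : ContinuousOn (fun p : (En 4 × En 4) × En 7 =>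
      ((Real.exp (κ * p.2 0) / GlCon_r p.1) • p.1.1,
        ((Real.exp (κ * p.2 0) / GlCon_r p.1) • p.1.2, κ • tl7 p.2))) s :=
    (h2.smul (by fun_prop)).prodMk ((h2.smul (by fun_prop)).prodMk h3.continuousOn)
  exact GlCon_cdj.comp_continuousOn h4

private theorem GlCon_M {N : Set (En 7)} (hN : IsConnected N) (C : Collar N) {a b : ℝ}
    (ha : -1 ≤ a) (hab : a < b) (hb : b ≤ 1) :
    IsConnected {m : En 7 | m ∈ C.O ∧ a < C.sc m ∧ C.sc m < b} := by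
  have e : {m : En 7 | m ∈ C.O ∧ a < C.sc m ∧ C.sc m < b} =
      (fun p : En 7 × ℝ => C.io p.1 p.2) '' (N ×ˢ Set.Ioo a b) := by
    ext m
    constructor
    · rintro ⟨h1, h2, h3⟩
      obtain ⟨k1, k2, k3⟩ := C.io_rho m h1
      exact ⟨(C.rho m, C.sc m), ⟨k1, h2, h3⟩, k3⟩
    · rintro ⟨⟨n, t⟩, ⟨hn, ht1, ht2⟩, rfl⟩
      obtain ⟨k1, k2, k3⟩ := C.io_mem n hn t ⟨ha.trans_lt ht1, lt_of_lt_of_le ht2 hb⟩
      refine ⟨k1, ?_, ?_⟩
      · show a < C.sc (C.io n t)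
        rw [k3]
        exact ht1
      · show C.sc (C.io n t) < b
        rw [k3]
        exact ht2
  rw [e]
  exact (hN.prod (isConnected_Ioo hab)).image _ C.smooth_io.continuous.continuousOn

private theorem GlCon_compl : IsConnected ({0}ᶜ : Set (En 4)) := by
  refine (isPathConnected_compl_singleton_of_one_lt_rank ?_ 0).isConnected
  rw [← Module.finrank_eq_rank]
  simp

private theorem GlCon_S1 : IsConnected {q : En 4 × En 4 | q.2 ≠ 0} := by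
  have e : {q : En 4 × En 4 | q.2 ≠ 0} = Set.univ ×ˢ ({0}ᶜ : Set (En 4)) := by
    ext q
    simp
  rw [e]
  exact isConnected_univ.prod GlCon_compl

private theorem GlCon_S2 : IsConnected {q : En 4 × En 4 | ‖q.2‖ < ‖q.1‖ / 2} := by
  have e : {q : En 4 × En 4 | ‖q.2‖ < ‖q.1‖ / 2} =
      (fun q : En 4 × En 4 => (q.1, (‖q.1‖ / 2) • q.2)) ''
        (({0}ᶜ : Set (En 4)) ×ˢ Metric.ball 0 1) := by
    ext ⟨X, Y⟩
    constructor
    · intro h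
      have h' : ‖Y‖ < ‖X‖ / 2 := h
      have hX : 0 < ‖X‖ / 2 := (norm_nonneg Y).trans_lt h'
      refine ⟨(X, (‖X‖ / 2)⁻¹ • Y), ⟨?_, ?_⟩, ?_⟩
      · intro h0
        have h0' : X = 0 := h0
        rw [h0', norm_zero] at hX
        simp at hX
      · rw [mem_ball_zero_iff]
        show ‖(‖X‖ / 2)⁻¹ • Y‖ < 1
        rw [norm_smul, norm_inv, Real.norm_of_nonneg hX.le, inv_mul_lt_iff₀ hX, mul_one]
        exact h'
      · show (X, (‖X‖ / 2) • (‖X‖ / 2)⁻¹ • Y) = (X, Y)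
        rw [smul_smul, mul_inv_cancel₀ hX.ne', one_smul]
    · rintro ⟨⟨X', Y'⟩, ⟨h1, h2⟩, h3⟩
      have h1' : X' ≠ 0 := h1
      rw [mem_ball_zero_iff] at h2
      have h2' : ‖Y'‖ < 1 := h2
      obtain ⟨rfl, rfl⟩ := Prod.mk.inj h3
      have hX : 0 < ‖X'‖ := norm_pos_iff.2 h1'
      show ‖(‖X'‖ / 2) • Y'‖ < ‖X'‖ / 2
      rw [norm_smul, Real.norm_of_nonneg (by positivity)]
      have : 0 < ‖X'‖ / 2 := by positivity
      nlinarith
  rw [e]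
  refine (GlCon_compl.prod ?_).image _ (by fun_prop)
  exact ⟨⟨0, Metric.mem_ball_self one_pos⟩, (convex_ball (0 : En 4) 1).isPreconnected⟩

private theorem GlCon_ex : ∃ q : En 4 × En 4, ‖q.2‖ < ‖q.1‖ / 2 ∧ q.2 ≠ 0 := by
  have hn : ‖(EuclideanSpace.single 0 1 : En 4)‖ = 1 := by simp
  refine ⟨(EuclideanSpace.single 0 1, (1 / 4 : ℝ) • EuclideanSpace.single 0 1), ?_, ?_⟩
  · show ‖(1 / 4 : ℝ) • (EuclideanSpace.single 0 1 : En 4)‖ < ‖(EuclideanSpace.single 0 1 : En 4)‖ / 2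
    rw [norm_smul, hn]
    norm_num
  · show (1 / 4 : ℝ) • (EuclideanSpace.single 0 1 : En 4) ≠ 0
    rw [← norm_ne_zero_iff, norm_smul, hn]
    norm_num

theorem slab_conn {N : Set (En 7)} (hN : IsConnected N) (C : Collar N) {l : ℝ} (hl : 0 < l)
    (J : JData l) {κ : ℝ} (hκ : 0 < κ) (hκd : ∀ m ∈ C.O, κ * ‖m‖ < J.d) {a b : ℝ} (ha : -1 ≤ a)
    (hab : a < b) (hb : b ≤ 1) :
    IsPreconnected {y : En 14 | y ∈ J.J1 ∪ J.J2 ∧ κ⁻¹ • Lam7 J y ∈ C.O ∧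
      a < C.sc (κ⁻¹ • Lam7 J y) ∧ C.sc (κ⁻¹ • Lam7 J y) < b} := by
  set M : Set (En 7) := {m : En 7 | m ∈ C.O ∧ a < C.sc m ∧ C.sc m < b} with hM
  have hMc : IsConnected M := GlCon_M hN C ha hab hb
  -- the image of `S × M`
  have hcyl : ∀ q : En 4 × En 4, 0 < GlCon_r q → ∀ m ∈ M, GlCon_G κ (q, m) ∈ cyl J.d := by
    intro q hq m hm
    have hm' := hκd m hm.1
    have hc : ∀ i, κ * |m i| ≤ κ * ‖m‖ := fun i => by
      have := PiLp.norm_apply_le m i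
      rw [Real.norm_eq_abs] at this
      exact mul_le_mul_of_nonneg_left this hκ.le
    refine ⟨?_, ?_, ?_⟩
    · rw [GlCon_gq κ (p := (q, m)) hq]
      positivity
    · rw [GlCon_gq κ (p := (q, m)) hq, Real.log_pow, Real.log_exp]
      have := hc 0
      push_cast
      rw [abs_mul, abs_mul, abs_two, abs_of_pos hκ]
      linarith
    · intro i
      rw [GlCon_G, q3_j14]
      show |κ * m ⟨i.1 + 1, _⟩| < J.d
      rw [abs_mul, abs_of_pos hκ]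
      exact (hc _).trans_lt hm'
  have hlam : ∀ q : En 4 × En 4, 0 < GlCon_r q → ∀ m ∈ M,
      κ⁻¹ • lam7 (GlCon_G κ (q, m)) = m := by
    intro q hq m hm
    rw [GlCon_lam κ (p := (q, m)) hq, smul_smul, inv_mul_cancel₀ hκ.ne', one_smul]
  have hc : ∀ q : En 4 × En 4, 0 < GlCon_r q → ∀ m : En 7,
      0 < Real.exp (κ * m 0) / GlCon_r q := fun q hq m => by positivity
  have r1 : ∀ q : En 4 × En 4, q.2 ≠ 0 → 0 < GlCon_r q := fun q h => GlCon_rpos (Or.inr h)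
  have r2 : ∀ q : En 4 × En 4, ‖q.2‖ < ‖q.1‖ / 2 → 0 < GlCon_r q := fun q h => by
    refine GlCon_rpos (Or.inl ?_)
    rintro h0
    rw [h0, norm_zero] at h
    have := norm_nonneg q.2
    linarith
  set W1 : Set (En 14) := {w | w ∈ D1 J.d ∧ κ⁻¹ • lam7 w ∈ M} with hW1
  set W2 : Set (En 14) := {w | w ∈ D2 J.d ∧ κ⁻¹ • lam7 w ∈ M} with hW2
  have eW1 : W1 = GlCon_G κ '' ({q : En 4 × En 4 | q.2 ≠ 0} ×ˢ M) := by
    ext w
    constructor
    · rintro ⟨h1, h2⟩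
      exact ⟨((q1 w, q2 w), κ⁻¹ • lam7 w), ⟨h1.2, h2⟩, GlCon_G_self hκ h1.1.1⟩
    · rintro ⟨⟨q, m⟩, ⟨h1, h2⟩, rfl⟩
      have hq := r1 q h1
      refine ⟨⟨hcyl q hq m h2, ?_⟩, ?_⟩
      · show q2 (GlCon_G κ (q, m)) ≠ 0
        rw [GlCon_G, q2_j14]
        exact smul_ne_zero (hc q hq m).ne' h1
      · rw [hlam q hq m h2]
        exact h2
  have eW2 : W2 = GlCon_G κ '' ({q : En 4 × En 4 | ‖q.2‖ < ‖q.1‖ / 2} ×ˢ M) := by
    ext w
    constructor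
    · rintro ⟨h1, h2⟩
      exact ⟨((q1 w, q2 w), κ⁻¹ • lam7 w), ⟨h1.2, h2⟩, GlCon_G_self hκ h1.1.1⟩
    · rintro ⟨⟨q, m⟩, ⟨h1, h2⟩, rfl⟩
      have hq := r2 q h1
      have h1' : ‖q.2‖ < ‖q.1‖ / 2 := h1
      refine ⟨⟨hcyl q hq m h2, ?_⟩, ?_⟩
      · show ‖q2 (GlCon_G κ (q, m))‖ < ‖q1 (GlCon_G κ (q, m))‖ / 2
        have hcc := hc q hq m
        rw [GlCon_G, q2_j14, q1_j14, norm_smul, norm_smul, Real.norm_of_nonneg hcc.le,
          mul_div_assoc]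
        exact mul_lt_mul_of_pos_left h1' hcc
      · rw [hlam q hq m h2]
        exact h2
  have cW1 : IsPreconnected W1 := by
    rw [eW1]
    exact ((GlCon_S1.prod hMc).isPreconnected).image _
      (GlCon_cdG κ fun p hp => r1 p.1 hp.1)
  have cW2 : IsPreconnected W2 := by
    rw [eW2]
    exact ((GlCon_S2.prod hMc).isPreconnected).image _
      (GlCon_cdG κ fun p hp => r2 p.1 hp.1)
  have c1 : IsPreconnected (J.j1 '' W1) :=
    cW1.image _ (J.j1_smooth.continuousOn.mono fun w hw => hw.1)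
  have c2 : IsPreconnected (J.j2 '' W2) :=
    cW2.image _ (J.j2_smooth.continuousOn.mono fun w hw => hw.1)
  have L1 : ∀ y ∈ J.J1, Lam7 J y = lam7 (J.k1 y) := fun y hy => by
    unfold Lam7
    rw [if_pos hy]
  set Y : Set (En 14) := {y : En 14 | y ∈ J.J1 ∪ J.J2 ∧ κ⁻¹ • Lam7 J y ∈ C.O ∧
      a < C.sc (κ⁻¹ • Lam7 J y) ∧ C.sc (κ⁻¹ • Lam7 J y) < b} with hY
  have i1 : ∀ y ∈ Y, y ∈ J.J1 → y ∈ J.j1 '' W1 := by
    rintro y ⟨-, h2⟩ hy
    obtain ⟨k1, k2⟩ := J.k1_maps y hy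
    refine ⟨J.k1 y, ⟨k1, ?_⟩, k2⟩
    rw [← L1 y hy]
    exact h2
  have i2 : ∀ y ∈ Y, y ∈ J.J2 → y ∈ J.j2 '' W2 := by
    rintro y ⟨-, h2⟩ hy
    obtain ⟨k1, k2⟩ := J.k2_maps y hy
    refine ⟨J.k2 y, ⟨k1, ?_⟩, k2⟩
    rw [← Lam7_J2 hl J hy]
    exact h2
  have o2 : ∀ w ∈ W2, J.j2 w ∈ Y ∧ J.j2 w ∈ J.J2 ∧ J.k2 (J.j2 w) = w := by
    rintro w ⟨h1, h2⟩
    obtain ⟨k1, k2⟩ := J.j2_maps w h1
    refine ⟨⟨Or.inr k1, ?_⟩, k1, k2⟩
    rw [Lam7_J2 hl J k1, k2]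
    exact h2
  have o1 : ∀ w ∈ W1, J.j1 w ∈ Y := by
    rintro w ⟨h1, h2⟩
    obtain ⟨k1, k2⟩ := J.j1_maps w h1
    refine ⟨Or.inl k1, ?_⟩
    rw [L1 _ k1, k2]
    exact h2
  have eY : Y = J.j1 '' W1 ∪ J.j2 '' W2 := by
    ext y
    constructor
    · intro hy
      rcases hy.1 with h | h
      · exact Or.inl (i1 y hy h)
      · exact Or.inr (i2 y hy h)
    · rintro (⟨w, hw, rfl⟩ | ⟨w, hw, rfl⟩)
      · exact o1 w hw
      · exact (o2 w hw).1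
  obtain ⟨m, hm⟩ := hMc.nonempty
  obtain ⟨q, hq, hq0⟩ := GlCon_ex
  have hw : GlCon_G κ (q, m) ∈ W2 := by
    rw [eW2]
    exact ⟨(q, m), ⟨hq, hm⟩, rfl⟩
  obtain ⟨g1, g2, g3⟩ := o2 _ hw
  have hne : q2 (J.k2 (J.j2 (GlCon_G κ (q, m)))) ≠ 0 := by
    rw [g3]
    have hcc := hc q (r2 q hq) m
    have e : q2 (GlCon_G κ (q, m)) = (Real.exp (κ * m 0) / GlCon_r q) • q.2 := by
      rw [GlCon_G, q2_j14]
    rw [e]
    exact smul_ne_zero hcc.ne' hq0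
  have g4 := J.inter2 _ g2 hne
  rw [eY]
  exact IsPreconnected.union _ (i1 _ g1 g4) ⟨_, hw, rfl⟩ c1 c2

end EXO
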