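import Pool.Agent.EXO.DefG

/-!
# EXO, part GLU: definitions (polar coordinates of the cylinder through the collar)

`lam7 w = (log |q|, z) ∈ ℝ⁷` for `w = (q, z) ∈ ℝ⁸ × ℝ⁶`.  `Pc C κ` maps `(q, m) ∈ ℝ⁸ × O` to `(e^{v} q/|q|, z)` with
`(v, z) = κ io(ρ m, log|q|/20)`; `Qc C κ` is its inverse (with values in `ℝ⁸ × N`).
-/

set_option maxSynthPendingDepth 3

open scoped ContDiff
open Pool.Agent.EXO

namespace EXO

/-- `(log |q|, z)` -/
noncomputable def lam7 (w : En 14) : En 7 :=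
  WithLp.toLp 2 fun i => if h : i.1 = 0 then Real.log (gq w) / 2 else q3 w ⟨i.1 - 1, by omega⟩

/-- the last six coordinates of a point of `ℝ⁷` -/
noncomputable def tl7 (m : En 7) : En 6 := WithLp.toLp 2 fun i => m ⟨i.1 + 1, by omega⟩

variable {N : Set (En 7)}

/-- the time `log |q| / 20 = log (gS) / 40` -/
noncomputable def tS (z : En 15) : ℝ := Real.log (gS z) / 40

/-- polar coordinates -/
noncomputable def Pc (C : Collar N) (κ : ℝ) (z : En 15) : En 14 :=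
  j14 ((Real.exp (κ * C.io (C.rho (p3 z)) (tS z) 0) / Real.sqrt (gS z)) • p1 z)
    ((Real.exp (κ * C.io (C.rho (p3 z)) (tS z) 0) / Real.sqrt (gS z)) • p2 z)
    (κ • tl7 (C.io (C.rho (p3 z)) (tS z)))

/-- the inverse -/
noncomputable def Qc (C : Collar N) (κ : ℝ) (w : En 14) : En 15 :=
  j15 ((Real.exp (20 * C.sc (κ⁻¹ • lam7 w)) / Real.sqrt (gq w)) • q1 w)
    ((Real.exp (20 * C.sc (κ⁻¹ • lam7 w)) / Real.sqrt (gq w)) • q2 w)
    (C.rho (κ⁻¹ • lam7 w))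

/-- the domain of `Pc` -/
def PD (C : Collar N) : Set (En 15) := {z | 0 < gS z ∧ |tS z| < 1 ∧ p3 z ∈ C.O}

/-- the domain of `Qc` -/
def QD (C : Collar N) (κ : ℝ) : Set (En 14) := {w | 0 < gq w ∧ κ⁻¹ • lam7 w ∈ C.O}

/-- the compact set `{|(log |q|, z)| ≤ r}` of the cylinder -/
def Kr (r : ℝ) : Set (En 14) := {w | 0 < gq w ∧ ‖lam7 w‖ ≤ r}

/-- the coordinate function `lam7 ∘ k_i` on `J1 ∪ J2` -/
noncomputable def Lam7 {l : ℝ} (J : JData l) (y : En 14) : En 7 :=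
  open Classical in if y ∈ J.J1 then lam7 (J.k1 y) else lam7 (J.k2 y)

end EXO
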