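import Pool.Agent.EXO.GlP

/-!
# EXO, GLU, module GlK: compactness, the coordinate function `Lam7`, uniform closeness

PROOFS.
* `Kr_cyl`: `|log (gq w)|/2 = |lam7 w 0| ≤ ‖lam7 w‖ ≤ r < d`, `|q3 w i| ≤ ‖lam7 w‖ < d`.
* `Kr_compact`: closed: `gq ∈ [e^{-2r}, e^{2r}]` and `‖lam7‖ ≤ r` with `lam7` continuous on `{gq > 0}` (write it as the set of `w` with
`e^{-2r} ≤ gq w ≤ e^{2r}` and `(log (max (gq w) e^{-2r})/2)² + ‖q3 w‖² ≤ r²`, closed conditions); bounded: `‖q1‖², ‖q2‖² ≤ gq ≤ e^{2r}`, `‖q3‖ ≤ r`.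
* `Lam7_cont`: on the open set `J1`: `lam7 ∘ k1` continuous (`k1 y ∈ D1 d`, `gq > 0`).  On the open set `J2`: for `y ∈ J1 ∩ J2`, `k2 y = tt14 l (k1 y)`
(`compat`) has the same norms (`tt14_norm`), so `Lam7 y = lam7 (k2 y)` on all of `J2`: continuous.
* `f0_mem`: `w ∈ cyl d`.  If `q2 w ≠ 0`: `w ∈ D1 d`, `f0 (e w) = j1 (h1 w)`, `h1 w ∈ D1 d` (`h1_norm`), `k1 (j1 (h1 w)) = h1 w`, and `lam7 (h1 w) = lam7 w`.
If `q2 w = 0`: `q1 w ≠ 0` (`gq > 0`), `w ∈ D2 d`, `f0 (e w) = j2 (w')`, `w' = (q1, twi .. q2, q3) ∈ D2 d`, same norms (`rot4` isometry); as above with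
`Lam7 = lam7 ∘ k2` on `J2`.
* `glu_close`: `K = e '' Kr r` compact in `Ω`; `f0` is continuous on `Ω`, `F = f0 '' K` is compact, contained in the open set `J1 ∪ J2`.  There is
`ε₀ > 0` with `cthickening ε₀ F ⊆ J1 ∪ J2` (`IsCompact.exists_cthickening_subset_open`), a compact set, on which `Lam7` is uniformly
continuous: take `ε' ≤ ε₀` with `dist y y' < ε' → dist (Lam7 y) (Lam7 y') < η` for `y, y'` in it.  For `w ∈ Kr r`: `y = f0 (e w)`, `y' = g (e w)`.
* `collar_unif`: the set `C₀ = {io n t : n ∈ N, |t| ≤ 2/5}` is compact in the open set `O`; `sc`, `rho` are continuous on `O`, hence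
uniformly continuous on a compact neighbourhood (`cthickening`) of `C₀`.
-/

set_option maxSynthPendingDepth 3

open scoped ContDiff
open Pool.Agent.EXO

namespace EXO

private theorem cont_q1 : Continuous q1 := by
  unfold q1
  fun_prop

private theorem cont_q2 : Continuous q2 := by
  unfold q2
  fun_prop

private theorem cont_q3 : Continuous q3 := by
  unfold q3
  fun_prop

private theorem cont_gq : Continuous gq := by
  unfold gq
  have := cont_q1
  have := cont_q2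
  fun_prop

private theorem lam7_zero (w : En 14) : lam7 w 0 = Real.log (gq w) / 2 := by
  simp [lam7]

private theorem lam7_succ (w : En 14) (i : Fin 6) : lam7 w ⟨i.1 + 1, by omega⟩ = q3 w i := by
  simp only [lam7]
  rw [dif_neg (by simp)]
  exact congrArg (q3 w) (Fin.ext (by simp))

private theorem lam7_ext {w : En 14} {m : En 7} (h0 : Real.log (gq w) / 2 = m 0)
    (h : ∀ i : Fin 6, q3 w i = m ⟨i.1 + 1, by omega⟩) : lam7 w = m := by
  ext i
  by_cases hi : i.1 = 0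
  · have : i = 0 := Fin.ext hi
    rw [this, lam7_zero, h0]
  · have h1 : i = ⟨(⟨i.1 - 1, by omega⟩ : Fin 6).1 + 1, by omega⟩ := Fin.ext (by simp; omega)
    rw [h1, lam7_succ, h]

private theorem lam7_cont : ContinuousOn lam7 {w | 0 < gq w} := by
  have h : ContinuousOn (fun w => fun i : Fin 7 => lam7 w i) {w | 0 < gq w} := by
    rw [continuousOn_pi]
    intro i
    by_cases hi : i.1 = 0
    · have : i = 0 := Fin.ext hi
      subst this
      simp only [lam7_zero]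
      exact (cont_gq.continuousOn.log (fun w hw => ne_of_gt hw)).div_const 2
    · have h1 : i = ⟨(⟨i.1 - 1, by omega⟩ : Fin 6).1 + 1, by omega⟩ := Fin.ext (by simp; omega)
      rw [h1]
      have h2 : Continuous fun w : En 14 => q3 w (⟨i.1 - 1, by omega⟩ : Fin 6) := by
        have := cont_q3
        fun_prop
      exact h2.continuousOn.congr (fun w _ => lam7_succ w ⟨i.1 - 1, by omega⟩)
  exact (PiLp.continuous_toLp 2 _).comp_continuousOn h

theorem Kr_cyl {r d : ℝ} (h : r < d) : Kr r ⊆ cyl d := by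
  rintro w ⟨h1, h2⟩
  refine ⟨h1, ?_, fun i => ?_⟩
  · have h3 := PiLp.norm_apply_le (lam7 w) 0
    rw [lam7_zero, Real.norm_eq_abs, abs_div, abs_two] at h3
    linarith
  · have h3 := PiLp.norm_apply_le (lam7 w) ⟨i.1 + 1, by omega⟩
    rw [lam7_succ, Real.norm_eq_abs] at h3
    linarith

private noncomputable def Gam (p : (En 4 × En 4) × En 7) : En 14 :=
  j14 (Real.exp (p.2 0) • p.1.1) (Real.exp (p.2 0) • p.1.2) (tl7 p.2)

private theorem Gam_cont : Continuous Gam := by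
  unfold Gam j14
  refine (PiLp.continuous_toLp 2 _).comp (continuous_pi fun i => ?_)
  split_ifs
  · fun_prop
  · fun_prop
  · unfold tl7
    fun_prop

theorem Kr_compact (r : ℝ) : IsCompact (Kr r) := by
  have hS : IsCompact {p : En 4 × En 4 | ‖p.1‖ ^ 2 + ‖p.2‖ ^ 2 = 1} := by
    refine Metric.isCompact_of_isClosed_isBounded (isClosed_eq (by fun_prop) continuous_const) ?_
    refine (Metric.isBounded_closedBall (x := (0 : En 4 × En 4)) (r := 1)).subset ?_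
    intro p hp
    have hp' : ‖p.1‖ ^ 2 + ‖p.2‖ ^ 2 = 1 := hp
    rw [mem_closedBall_zero_iff, Prod.norm_def]
    refine max_le ?_ ?_
    · nlinarith [norm_nonneg p.1, sq_nonneg ‖p.2‖]
    · nlinarith [norm_nonneg p.2, sq_nonneg ‖p.1‖]
  have hB : IsCompact (Metric.closedBall (0 : En 7) r) := isCompact_closedBall _ _
  have h : Kr r = Gam '' ({p : En 4 × En 4 | ‖p.1‖ ^ 2 + ‖p.2‖ ^ 2 = 1} ×ˢ
      Metric.closedBall (0 : En 7) r) := by
    ext w
    constructor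
    · rintro ⟨h1, h2⟩
      have h3 : 0 < Real.sqrt (gq w) := Real.sqrt_pos.2 h1
      have h4 : Real.exp (lam7 w 0) = Real.sqrt (gq w) := by
        rw [lam7_zero, Real.sqrt_eq_rpow, Real.rpow_def_of_pos h1]
        ring_nf
      refine ⟨(((Real.sqrt (gq w))⁻¹ • q1 w, (Real.sqrt (gq w))⁻¹ • q2 w), lam7 w), ⟨?_, ?_⟩, ?_⟩
      · change ‖(Real.sqrt (gq w))⁻¹ • q1 w‖ ^ 2 + ‖(Real.sqrt (gq w))⁻¹ • q2 w‖ ^ 2 = 1
        rw [norm_smul, norm_smul, Real.norm_eq_abs, abs_of_pos (inv_pos.2 h3), mul_pow, mul_pow,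
          ← mul_add, inv_pow, Real.sq_sqrt h1.le]
        exact inv_mul_cancel₀ h1.ne'
      · simpa using h2
      · unfold Gam
        simp only [h4, smul_smul, mul_inv_cancel₀ h3.ne', one_smul]
        have h5 : tl7 (lam7 w) = q3 w := by
          ext i
          simp only [tl7]
          exact lam7_succ w i
        rw [h5, j14_q]
    · rintro ⟨⟨⟨X, Y⟩, m⟩, ⟨h1, h2⟩, rfl⟩
      have h1' : ‖X‖ ^ 2 + ‖Y‖ ^ 2 = 1 := h1
      have h3 : gq (Gam ((X, Y), m)) = Real.exp (2 * m 0) := by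
        unfold gq Gam
        simp only [q1_j14, q2_j14]
        rw [norm_smul, norm_smul, Real.norm_eq_abs, abs_of_pos (Real.exp_pos _), mul_pow, mul_pow,
          ← mul_add, h1', mul_one, ← Real.exp_nat_mul]
        norm_num
      have h4 : lam7 (Gam ((X, Y), m)) = m := by
        refine lam7_ext ?_ ?_
        · rw [h3, Real.log_exp]
          ring
        · intro i
          unfold Gam
          simp [tl7]
      refine ⟨by rw [h3]; exact Real.exp_pos _, ?_⟩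
      rw [h4]
      simpa using h2
  rw [h]
  exact (hS.prod hB).image Gam_cont

private theorem lam7_congr {w w' : En 14} (h1 : ‖q1 w‖ = ‖q1 w'‖) (h2 : ‖q2 w‖ = ‖q2 w'‖)
    (h3 : q3 w = q3 w') : lam7 w = lam7 w' := by
  refine lam7_ext ?_ ?_
  · rw [lam7_zero]
    unfold gq
    rw [h1, h2]
  · intro i
    rw [lam7_succ, h3]

theorem Lam7_J2 {l : ℝ} (hl : 0 < l) (J : JData l) {y : En 14} (hy : y ∈ J.J2) :
    Lam7 J y = lam7 (J.k2 y) := by
  unfold Lam7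
  split_ifs with h
  · rw [J.compat y ⟨h, hy⟩]
    obtain ⟨h1, h2, h3⟩ := tt14_norm hl (J.k1 y)
    exact (lam7_congr h1 h2 h3).symm
  · rfl

private theorem Lam7_J1 {l : ℝ} (J : JData l) {y : En 14} (hy : y ∈ J.J1) :
    Lam7 J y = lam7 (J.k1 y) := by
  unfold Lam7
  rw [if_pos hy]

theorem Lam7_cont {l : ℝ} (hl : 0 < l) (J : JData l) : ContinuousOn (Lam7 J) (J.J1 ∪ J.J2) := by
  have h1 : ContinuousOn (Lam7 J) J.J1 := by
    have h : ContinuousOn (fun y => lam7 (J.k1 y)) J.J1 :=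
      lam7_cont.comp J.k1_smooth.continuousOn (fun y hy => (J.k1_maps y hy).1.1.1)
    exact h.congr (fun y hy => Lam7_J1 J hy)
  have h2 : ContinuousOn (Lam7 J) J.J2 := by
    have h : ContinuousOn (fun y => lam7 (J.k2 y)) J.J2 :=
      lam7_cont.comp J.k2_smooth.continuousOn (fun y hy => (J.k2_maps y hy).1.1.1)
    exact h.congr (fun y hy => Lam7_J2 hl J hy)
  rintro y (hy | hy)
  · exact (h1.continuousAt (J.openJ1.mem_nhds hy)).continuousWithinAt
  · exact (h2.continuousAt (J.openJ2.mem_nhds hy)).continuousWithinAt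

theorem f0_mem {l : ℝ} (hl : 0 < l) (J : JData l) {w : En 14} (hw : w ∈ cyl J.d) :
    J.f0 (J.e w) ∈ J.J1 ∪ J.J2 ∧ Lam7 J (J.f0 (J.e w)) = lam7 w := by
  by_cases h : q2 w = 0
  · have hq1 : 0 < ‖q1 w‖ := by
      have h1 := hw.1
      unfold gq at h1
      rw [h, norm_zero] at h1
      by_contra h2
      have h3 : ‖q1 w‖ = 0 := le_antisymm (not_lt.1 h2) (norm_nonneg _)
      rw [h3] at h1
      norm_num at h1
    have hD : w ∈ D2 J.d := by
      refine ⟨hw, ?_⟩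
      rw [h, norm_zero]
      positivity
    have h1 : J.f0 (J.e w) = J.j2 w := by
      rw [J.f0_e2 w hD, h, map_zero]
      congr 1
      conv_rhs => rw [← j14_q w, h]
    rw [h1]
    obtain ⟨h2, h3⟩ := J.j2_maps w hD
    refine ⟨Or.inr h2, ?_⟩
    rw [Lam7_J2 hl J h2, h3]
  · obtain ⟨n1, n2, n3⟩ := J.h1_norm w h
    have hgq : gq (J.h1 w) = gq w := by
      unfold gq
      rw [n1, n2]
    have hD : J.h1 w ∈ D1 J.d := by
      refine ⟨⟨by rw [hgq]; exact hw.1, by rw [hgq]; exact hw.2.1, by rw [n3]; exact hw.2.2⟩, ?_⟩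
      rw [← norm_pos_iff, n2, norm_pos_iff]
      exact h
    rw [J.f0_e1 w ⟨hw, h⟩]
    obtain ⟨h2, h3⟩ := J.j1_maps _ hD
    refine ⟨Or.inl h2, ?_⟩
    rw [Lam7_J1 J h2, h3]
    exact lam7_congr n1 n2 n3

theorem glu_close {l : ℝ} (hl : 0 < l) (J : JData l) {r : ℝ} (hr : r < J.d) {η : ℝ} (hη : 0 < η) :
    ∃ ε' : ℝ, 0 < ε' ∧ ∀ g : En 14 → En 14, (∀ x ∈ J.e '' Kr r, ‖g x - J.f0 x‖ < ε') →
      ∀ w ∈ Kr r, g (J.e w) ∈ J.J1 ∪ J.J2 ∧ ‖Lam7 J (g (J.e w)) - lam7 w‖ < η := by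
  have hKc : IsCompact (J.e '' Kr r) := (Kr_compact r).image_of_continuousOn
    (J.e_smooth.continuousOn.mono (Kr_cyl hr))
  have hKO : J.e '' Kr r ⊆ J.Ω := by
    rintro _ ⟨w, hw, rfl⟩
    exact (J.e_maps _ (Kr_cyl hr hw)).1
  have hFc : IsCompact (J.f0 '' (J.e '' Kr r)) :=
    hKc.image_of_continuousOn (J.f0_cont.mono hKO)
  have hFJ : J.f0 '' (J.e '' Kr r) ⊆ J.J1 ∪ J.J2 := by
    rintro _ ⟨_, ⟨w, hw, rfl⟩, rfl⟩
    exact (f0_mem hl J (Kr_cyl hr hw)).1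
  obtain ⟨ε₀, hε₀, hth⟩ := hFc.exists_cthickening_subset_open (J.openJ1.union J.openJ2) hFJ
  have hTc : IsCompact (Metric.cthickening ε₀ (J.f0 '' (J.e '' Kr r))) := hFc.cthickening
  have hU := hTc.uniformContinuousOn_of_continuous ((Lam7_cont hl J).mono hth)
  rw [Metric.uniformContinuousOn_iff] at hU
  obtain ⟨δ, hδ, hδ'⟩ := hU η hη
  refine ⟨min ε₀ δ, lt_min hε₀ hδ, ?_⟩
  intro g hg w hw
  have hwc := Kr_cyl hr hw
  have h1 := hg (J.e w) ⟨w, hw, rfl⟩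
  have hF : J.f0 (J.e w) ∈ J.f0 '' (J.e '' Kr r) := ⟨_, ⟨w, hw, rfl⟩, rfl⟩
  have h2 : g (J.e w) ∈ Metric.cthickening ε₀ (J.f0 '' (J.e '' Kr r)) := by
    refine Metric.mem_cthickening_of_dist_le _ _ _ _ hF ?_
    rw [dist_eq_norm]
    exact (lt_of_lt_of_le h1 (min_le_left _ _)).le
  have h3 : J.f0 (J.e w) ∈ Metric.cthickening ε₀ (J.f0 '' (J.e '' Kr r)) :=
    Metric.self_subset_cthickening _ hF
  refine ⟨hth h2, ?_⟩
  have h4 := hδ' _ h2 _ h3 (by
    rw [dist_eq_norm]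
    exact lt_of_lt_of_le h1 (min_le_right _ _))
  rw [(f0_mem hl J hwc).2, dist_eq_norm] at h4
  exact h4

theorem collar_unif {N : Set (En 7)} (hN : IsCompact N) (C : Collar N) {ε : ℝ} (hε : 0 < ε) :
    ∃ η : ℝ, 0 < η ∧ ∀ n ∈ N, ∀ t : ℝ, |t| ≤ 2 / 5 → ∀ m : En 7, ‖m - C.io n t‖ < η →
      m ∈ C.O ∧ |C.sc m - t| < ε ∧ ‖C.rho m - n‖ < ε := by
  have hio : ∀ n ∈ N, ∀ t : ℝ, |t| ≤ 2 / 5 →
      C.io n t ∈ C.O ∧ C.rho (C.io n t) = n ∧ C.sc (C.io n t) = t := by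
    intro n hn t ht
    rw [abs_le] at ht
    exact C.io_mem n hn t ⟨by linarith [ht.1], by linarith [ht.2]⟩
  set F : Set (En 7) := (fun p : En 7 × ℝ => C.io p.1 p.2) '' (N ×ˢ Set.Icc (-(2 / 5)) (2 / 5))
    with hF
  have hFc : IsCompact F := (hN.prod isCompact_Icc).image C.smooth_io.continuous
  have hFm : ∀ n ∈ N, ∀ t : ℝ, |t| ≤ 2 / 5 → C.io n t ∈ F := fun n hn t ht =>
    ⟨(n, t), ⟨hn, abs_le.1 ht⟩, rfl⟩
  have hFO : F ⊆ C.O := by
    rintro _ ⟨⟨n, t⟩, ⟨hn, ht⟩, rfl⟩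
    exact (hio n hn t (abs_le.2 ht)).1
  obtain ⟨ε₀, hε₀, hth⟩ := hFc.exists_cthickening_subset_open C.openO hFO
  have hTc : IsCompact (Metric.cthickening ε₀ F) := hFc.cthickening
  have hU1 := hTc.uniformContinuousOn_of_continuous (C.smooth_sc.continuousOn.mono hth)
  have hU2 := hTc.uniformContinuousOn_of_continuous (C.smooth_rho.continuousOn.mono hth)
  rw [Metric.uniformContinuousOn_iff] at hU1 hU2
  obtain ⟨δ1, hδ1, hδ1'⟩ := hU1 ε hε
  obtain ⟨δ2, hδ2, hδ2'⟩ := hU2 ε hε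
  refine ⟨min ε₀ (min δ1 δ2), lt_min hε₀ (lt_min hδ1 hδ2), ?_⟩
  intro n hn t ht m hm
  obtain ⟨h1, h2, h3⟩ := hio n hn t ht
  have hmF := hFm n hn t ht
  have h4 : m ∈ Metric.cthickening ε₀ F := by
    refine Metric.mem_cthickening_of_dist_le _ _ _ _ hmF ?_
    rw [dist_eq_norm]
    exact (lt_of_lt_of_le hm (min_le_left _ _)).le
  have h5 : C.io n t ∈ Metric.cthickening ε₀ F := Metric.self_subset_cthickening _ hmF
  have h6 := hδ1' _ h4 _ h5 (by
    rw [dist_eq_norm]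
    exact lt_of_lt_of_le hm ((min_le_right _ _).trans (min_le_left _ _)))
  have h7 := hδ2' _ h4 _ h5 (by
    rw [dist_eq_norm]
    exact lt_of_lt_of_le hm ((min_le_right _ _).trans (min_le_right _ _)))
  rw [h3, Real.dist_eq] at h6
  rw [h2, dist_eq_norm] at h7
  exact ⟨hth h4, h6, h7⟩

end EXO
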