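import Pool.Agent.EXO.GlDefs
import Pool.Agent.EXO.GbTha

/-!
# EXO, GLU, module GlP: the polar coordinates `Pc`, `Qc`

PROOFS.  Let `z ∈ PD`, `n = ρ(p3 z) ∈ N`, `t = tS z ∈ (-1,1)`, `m = io n t` (`io_mem`: `m ∈ O`, `ρ m = n`, `sc m = t`), `c = e^{κ m_0}/√(gS z) > 0`.
`gq (Pc z) = c² gS z = e^{2 κ m_0}`, `log/2 = κ m_0`, `q3 (Pc z) = κ • tl7 m`: `lam7 (Pc z) = κ • m`.  So `κ⁻¹ • lam7 = m ∈ O`: `Pc z ∈ QD`;
`Qc (Pc z)`: factor `e^{20 t}/√(e^{2κ m_0})` times `c`: `e^{20 t} e^{-κ m_0} e^{κ m_0}/√(gS z) = e^{20t}/√(gS z) = 1` because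
`t = log(gS z)/40`, `e^{20 t} = (gS z)^{1/2}`.  So `Qc (Pc z) = j15 (p1 z) (p2 z) (ρ(p3 z)) = C.R z`.
Let `w ∈ QD`, `m = κ⁻¹ • lam7 w ∈ O`, `n = ρ m ∈ N`, `t = sc m ∈ (-1,1)` (`io_rho`: `io n t = m`).  `gS (Qc w) = e^{40 t}`, `tS (Qc w) = t`,
`p3 (Qc w) = n ∈ N ⊆ O` (`io_zero`, `io_mem n 0`), `ρ n = n`: `Qc w ∈ PD`.  `Pc (Qc w)`: `io (ρ n) t = io n t = m`, `κ m_0 = log(gq w)/2`,
`e^{κ m_0} = √(gq w)`: factor `√(gq w)/e^{20 t} · e^{20 t}/√(gq w) = 1`; `κ • tl7 m = q3 w`: `Pc (Qc w) = w`.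
`Pc_R`: `p3 (C.R z) = ρ(p3 z)`, `ρ ρ = ρ` on `O`; `gS` the same.
Zero/ratio statements: `Pc`, `Qc` multiply `(p1, p2)` by the same positive factor.
`Qc_tt`: `tt14` preserves `‖q1‖`, `‖q2‖`, `q3` (`tw`, `twi` are isometries for a unit quaternion: `GcTw`-type lemmas `norm_rot4`,
`norm_tha4`; here they may be reproved or imported), hence `lam7`, `gq`; and for `c > 0`, `tt l (c X) (c Y) = c • tt l X Y` since
`tha4 l (c x) = tha4 l x` (`c x_0 > 0 ↔ x_0 > 0`, the ratio does not change) and `rot4` is linear.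
Smoothness: compositions of smooth maps on open sets (`gS`, `gq` polynomial, `log`, `sqrt` at positive points, `smooth_io`, `smooth_rho`,
`smooth_sc`).  Open: `gS`, `gq`, `tS`, `lam7` are continuous where `gS > 0` (`gq > 0`).
-/

set_option maxSynthPendingDepth 3

open scoped ContDiff
open Pool.Agent.EXO

namespace EXO

variable {N : Set (En 7)} (C : Collar N) {κ : ℝ}

/-! ### Elementary facts -/

private theorem GlP_exp20 {g : ℝ} (hg : 0 < g) : Real.exp (20 * (Real.log g / 40)) = √g := by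
  have h1 : 20 * (Real.log g / 40) = Real.log g / 2 := by ring
  rw [h1, Real.exp_half, Real.exp_log hg]

private theorem GlP_norm_smul2 {c : ℝ} (x y : En 4) :
    ‖c • x‖ ^ 2 + ‖c • y‖ ^ 2 = c ^ 2 * (‖x‖ ^ 2 + ‖y‖ ^ 2) := by
  rw [norm_smul, norm_smul, mul_pow, mul_pow, Real.norm_eq_abs, sq_abs]
  ring

private theorem GlP_cont_p1 : ContDiff ℝ ∞ p1 := by
  rw [contDiff_euclidean]
  intro i
  exact (EuclideanSpace.proj (𝕜 := ℝ) (⟨i, by omega⟩ : Fin 15)).contDiff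

private theorem GlP_cont_p2 : ContDiff ℝ ∞ p2 := by
  rw [contDiff_euclidean]
  intro i
  exact (EuclideanSpace.proj (𝕜 := ℝ) (⟨4 + i, by omega⟩ : Fin 15)).contDiff

private theorem GlP_cont_p3 : ContDiff ℝ ∞ p3 := by
  rw [contDiff_euclidean]
  intro i
  exact (EuclideanSpace.proj (𝕜 := ℝ) (⟨8 + i, by omega⟩ : Fin 15)).contDiff

private theorem GlP_cont_q1 : ContDiff ℝ ∞ q1 := by
  rw [contDiff_euclidean]
  intro i
  exact (EuclideanSpace.proj (𝕜 := ℝ) (⟨i, by omega⟩ : Fin 14)).contDiff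

private theorem GlP_cont_q2 : ContDiff ℝ ∞ q2 := by
  rw [contDiff_euclidean]
  intro i
  exact (EuclideanSpace.proj (𝕜 := ℝ) (⟨4 + i, by omega⟩ : Fin 14)).contDiff

private theorem GlP_cont_q3 : ContDiff ℝ ∞ q3 := by
  rw [contDiff_euclidean]
  intro i
  exact (EuclideanSpace.proj (𝕜 := ℝ) (⟨8 + i, by omega⟩ : Fin 14)).contDiff

private theorem GlP_cont_gS : ContDiff ℝ ∞ gS :=
  (GlP_cont_p1.norm_sq ℝ).add (GlP_cont_p2.norm_sq ℝ)

private theorem GlP_cont_gq : ContDiff ℝ ∞ gq :=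
  (GlP_cont_q1.norm_sq ℝ).add (GlP_cont_q2.norm_sq ℝ)

private theorem GlP_cont_tS : ContDiffOn ℝ ∞ tS {z | 0 < gS z} := by
  unfold tS
  exact (GlP_cont_gS.contDiffOn.log fun z hz => (ne_of_gt hz)).div_const 40

private theorem GlP_coord {E : Type} [NormedAddCommGroup E] [NormedSpace ℝ E] {n : ℕ}
    {f : E → En n} {s : Set E} (hf : ContDiffOn ℝ ∞ f s) (i : Fin n) :
    ContDiffOn ℝ ∞ (fun x => f x i) s :=
  (contDiffOn_euclidean.1 hf) i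

private theorem GlP_lam7_0 (w : En 14) {i : Fin 7} (h : i.1 = 0) :
    lam7 w i = Real.log (gq w) / 2 := dif_pos h

private theorem GlP_lam7_1 (w : En 14) {i : Fin 7} (h : ¬ i.1 = 0) :
    lam7 w i = q3 w ⟨i.1 - 1, by omega⟩ := dif_neg h

private theorem GlP_cont_lam7 : ContDiffOn ℝ ∞ lam7 {w | 0 < gq w} := by
  rw [contDiffOn_euclidean]
  intro i
  by_cases h : i.1 = 0
  · have e : (fun w => lam7 w i) = fun w => Real.log (gq w) / 2 := by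
      funext w
      exact GlP_lam7_0 w h
    rw [e]
    exact (GlP_cont_gq.contDiffOn.log fun z hz => (ne_of_gt hz)).div_const 2
  · have e : (fun w => lam7 w i) = fun w => q3 w ⟨i.1 - 1, by omega⟩ := by
      funext w
      exact GlP_lam7_1 w h
    rw [e]
    exact GlP_coord GlP_cont_q3.contDiffOn _

private theorem GlP_cont_tl7 {E : Type} [NormedAddCommGroup E] [NormedSpace ℝ E]
    {f : E → En 7} {s : Set E} (hf : ContDiffOn ℝ ∞ f s) :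
    ContDiffOn ℝ ∞ (fun x => tl7 (f x)) s := by
  rw [contDiffOn_euclidean]
  intro i
  exact GlP_coord hf _

private theorem GlP_cont_j14 {E : Type} [NormedAddCommGroup E] [NormedSpace ℝ E]
    {a b : E → En 4} {c : E → En 6} {s : Set E} (ha : ContDiffOn ℝ ∞ a s)
    (hb : ContDiffOn ℝ ∞ b s) (hc : ContDiffOn ℝ ∞ c s) :
    ContDiffOn ℝ ∞ (fun x => j14 (a x) (b x) (c x)) s := by
  rw [contDiffOn_euclidean]
  intro i
  by_cases h : i.1 < 4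
  · have e : (fun x => j14 (a x) (b x) (c x) i) = fun x => a x ⟨i, h⟩ := by
      funext x
      simp [j14, h]
    rw [e]
    exact GlP_coord ha _
  · by_cases h' : i.1 < 8
    · have e : (fun x => j14 (a x) (b x) (c x) i) = fun x => b x ⟨i - 4, by omega⟩ := by
        funext x
        simp [j14, h, h']
      rw [e]
      exact GlP_coord hb _
    · have e : (fun x => j14 (a x) (b x) (c x) i) = fun x => c x ⟨i - 8, by omega⟩ := by
        funext x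
        simp [j14, h, h']
      rw [e]
      exact GlP_coord hc _

private theorem GlP_cont_j15 {E : Type} [NormedAddCommGroup E] [NormedSpace ℝ E]
    {a b : E → En 4} {c : E → En 7} {s : Set E} (ha : ContDiffOn ℝ ∞ a s)
    (hb : ContDiffOn ℝ ∞ b s) (hc : ContDiffOn ℝ ∞ c s) :
    ContDiffOn ℝ ∞ (fun x => j15 (a x) (b x) (c x)) s := by
  rw [contDiffOn_euclidean]
  intro i
  by_cases h : i.1 < 4
  · have e : (fun x => j15 (a x) (b x) (c x) i) = fun x => a x ⟨i, h⟩ := by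
      funext x
      simp [j15, h]
    rw [e]
    exact GlP_coord ha _
  · by_cases h' : i.1 < 8
    · have e : (fun x => j15 (a x) (b x) (c x) i) = fun x => b x ⟨i - 4, by omega⟩ := by
        funext x
        simp [j15, h, h']
      rw [e]
      exact GlP_coord hb _
    · have e : (fun x => j15 (a x) (b x) (c x) i) = fun x => c x ⟨i - 8, by omega⟩ := by
        funext x
        simp [j15, h, h']
      rw [e]
      exact GlP_coord hc _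

private theorem GlP_cont_m : ContDiffOn ℝ ∞ (fun z => C.io (C.rho (p3 z)) (tS z)) (PD C) := by
  have h1 : ContDiffOn ℝ ∞ (fun z => C.rho (p3 z)) (PD C) :=
    C.smooth_rho.comp GlP_cont_p3.contDiffOn fun z hz => hz.2.2
  have h2 : ContDiffOn ℝ ∞ tS (PD C) := GlP_cont_tS.mono fun z hz => hz.1
  exact C.smooth_io.comp_contDiffOn (h1.prodMk h2)

private theorem GlP_norm_rot4 {q : Quaternion ℝ} (h : ‖q‖ = 1) (y : En 4) :
    ‖rot4 q y‖ = ‖y‖ := by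
  have h0 : ‖Adq q (vec4 y)‖ ^ 2 = ‖vec4 y‖ ^ 2 := by rw [norm_Adq h]
  have h1 : rot4 q y = mk4 (y 0) (Adq q (vec4 y)) := rfl
  rw [← sq_eq_sq₀ (norm_nonneg _) (norm_nonneg _), h1, EuclideanSpace.real_norm_sq_eq,
    EuclideanSpace.real_norm_sq_eq, Fin.sum_univ_four, Fin.sum_univ_four]
  rw [EuclideanSpace.real_norm_sq_eq, EuclideanSpace.real_norm_sq_eq, Fin.sum_univ_three,
    Fin.sum_univ_three] at h0
  have e0 : ∀ v : En 3, mk4 (y 0) v 0 = y 0 := fun v => rfl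
  have e1 : ∀ v : En 3, mk4 (y 0) v 1 = v 0 := fun v => rfl
  have e2 : ∀ v : En 3, mk4 (y 0) v 2 = v 1 := fun v => rfl
  have e3 : ∀ v : En 3, mk4 (y 0) v 3 = v 2 := fun v => rfl
  have f1 : vec4 y 0 = y 1 := rfl
  have f2 : vec4 y 1 = y 2 := rfl
  have f3 : vec4 y 2 = y 3 := rfl
  rw [f1, f2, f3] at h0
  rw [e0, e1, e2, e3]
  linarith

private theorem GlP_norm_tha4 {l : ℝ} (hl : 0 < l) (x : En 4) : ‖tha4 l x‖ = 1 := by
  unfold tha4
  split_ifs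
  · exact norm_tha hl _
  · exact norm_one

private theorem GlP_tha4_smul {l c : ℝ} (hc : 0 < c) (x : En 4) : tha4 l (c • x) = tha4 l x := by
  unfold tha4
  have e0 : (c • x) 0 = c * x 0 := rfl
  by_cases h : 0 < x 0
  · have h' : 0 < (c • x) 0 := by rw [e0]; positivity
    rw [if_pos h, if_pos h', e0]
    congr 1
    ext i
    have e1 : vec4 (c • x) i = c * vec4 x i := by
      fin_cases i <;> rfl
    show (c * x 0)⁻¹ * vec4 (c • x) i = (x 0)⁻¹ * vec4 x i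
    rw [e1]
    field_simp
  · have h' : ¬ 0 < (c • x) 0 := by
      rw [e0]
      intro hcon
      exact h ((mul_pos_iff_of_pos_left hc).1 hcon)
    rw [if_neg h, if_neg h']

private theorem GlP_tt_smul {l c : ℝ} (hc : 0 < c) (X Y : En 4) :
    tt l (c • X) (c • Y) = (c • (tt l X Y).1, c • (tt l X Y).2) := by
  have h1 : twi l (c • X) (c • Y) = c • twi l X Y := by
    unfold twi
    rw [GlP_tha4_smul hc, map_smul]
  unfold tt
  rw [h1]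
  refine Prod.ext ?_ rfl
  show tw l (c • twi l X Y) (c • X) = c • tw l (twi l X Y) X
  unfold tw
  rw [GlP_tha4_smul hc, map_smul]

private theorem GlP_ratio {c : ℝ} (hc : 0 < c) (x y : En 4) : (c • y = 0 ↔ y = 0) ∧
    (‖c • y‖ < ‖c • x‖ / 2 ↔ ‖y‖ < ‖x‖ / 2) := by
  refine ⟨smul_eq_zero_iff_right hc.ne', ?_⟩
  rw [norm_smul, norm_smul, Real.norm_eq_abs, abs_of_pos hc, mul_div_assoc]
  exact mul_lt_mul_iff_right₀ hc

theorem N_sub_O : N ⊆ C.O ∧ ∀ n ∈ N, C.rho n = n ∧ C.sc n = 0 := by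
  have key : ∀ n ∈ N, n ∈ C.O ∧ C.rho n = n ∧ C.sc n = 0 := by
    intro n hn
    have h1 := C.io_mem n hn 0 ⟨by norm_num, by norm_num⟩
    rw [C.io_zero n hn] at h1
    exact h1
  exact ⟨fun n hn => (key n hn).1, fun n hn => (key n hn).2⟩

theorem lam7_Pc (hκ : 0 < κ) {z : En 15} (hz : z ∈ PD C) :
    lam7 (Pc C κ z) = κ • C.io (C.rho (p3 z)) (tS z) ∧ 0 < gq (Pc C κ z) := by
  have hg : 0 < gS z := hz.1
  obtain ⟨m, hm⟩ : ∃ m, m = C.io (C.rho (p3 z)) (tS z) := ⟨_, rfl⟩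
  have hsq : 0 < √(gS z) := Real.sqrt_pos.2 hg
  have hgq : gq (Pc C κ z) = Real.exp (κ * m 0) ^ 2 := by
    unfold gq Pc
    rw [q1_j14, q2_j14, GlP_norm_smul2, ← hm, div_pow, Real.sq_sqrt hg.le]
    show Real.exp (κ * m 0) ^ 2 / gS z * gS z = _
    rw [div_mul_cancel₀ _ hg.ne']
  have hlog : Real.log (gq (Pc C κ z)) / 2 = κ * m 0 := by
    rw [hgq, Real.log_pow, Real.log_exp]
    push_cast
    ring
  have hq3 : q3 (Pc C κ z) = κ • tl7 m := by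
    unfold Pc
    rw [q3_j14, ← hm]
  have _ := hκ
  rw [← hm]
  constructor
  · ext i
    by_cases h : i.1 = 0
    · have e : lam7 (Pc C κ z) i = Real.log (gq (Pc C κ z)) / 2 := GlP_lam7_0 _ h
      have hi : i = 0 := Fin.ext h
      rw [e, hlog, hi]
      rfl
    · have e : lam7 (Pc C κ z) i = q3 (Pc C κ z) ⟨i.1 - 1, by omega⟩ := GlP_lam7_1 _ h
      have hi : (⟨i.1 - 1 + 1, by omega⟩ : Fin 7) = i := Fin.ext (by simp; omega)
      rw [e, hq3]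
      show κ * m ⟨i.1 - 1 + 1, _⟩ = κ * m i
      rw [hi]
  · rw [hgq]
    positivity

theorem Pc_mem (hκ : 0 < κ) {z : En 15} (hz : z ∈ PD C) :
    Pc C κ z ∈ QD C κ ∧ Qc C κ (Pc C κ z) = C.R z := by
  have hg : 0 < gS z := hz.1
  obtain ⟨hn, -, -⟩ := C.io_rho _ hz.2.2
  have ht : tS z ∈ Set.Ioo (-1 : ℝ) 1 := abs_lt.1 hz.2.1
  obtain ⟨h1, h2, h3⟩ := C.io_mem _ hn _ ht
  obtain ⟨h4, h5⟩ := lam7_Pc C hκ hz
  have h6 : κ⁻¹ • lam7 (Pc C κ z) = C.io (C.rho (p3 z)) (tS z) := by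
    rw [h4, smul_smul, inv_mul_cancel₀ hκ.ne', one_smul]
  refine ⟨⟨h5, by rw [h6]; exact h1⟩, ?_⟩
  obtain ⟨c, hc⟩ : ∃ c, c = Real.exp (κ * C.io (C.rho (p3 z)) (tS z) 0) / √(gS z) := ⟨_, rfl⟩
  have hsq : 0 < √(gS z) := Real.sqrt_pos.2 hg
  have hc0 : 0 < c := by rw [hc]; positivity
  have e1 : q1 (Pc C κ z) = c • p1 z := by unfold Pc; rw [q1_j14, hc]
  have e2 : q2 (Pc C κ z) = c • p2 z := by unfold Pc; rw [q2_j14, hc]
  have e3 : gq (Pc C κ z) = c ^ 2 * gS z := by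
    unfold gq
    rw [e1, e2, GlP_norm_smul2]
    rfl
  have e4 : √(gq (Pc C κ z)) = c * √(gS z) := by
    rw [e3, Real.sqrt_mul (sq_nonneg c), Real.sqrt_sq hc0.le]
  have e5 : Real.exp (20 * tS z) = √(gS z) := GlP_exp20 hg
  have e6 : Real.exp (20 * C.sc (κ⁻¹ • lam7 (Pc C κ z))) / √(gq (Pc C κ z)) * c = 1 := by
    rw [h6, h3, e5, e4]
    field_simp
  unfold Qc Collar.R
  rw [e1, e2, smul_smul, smul_smul, e6, one_smul, one_smul, h6, h2]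

theorem Qc_mem (hκ : 0 < κ) {w : En 14} (hw : w ∈ QD C κ) :
    Qc C κ w ∈ PD C ∧ p3 (Qc C κ w) ∈ N ∧ Pc C κ (Qc C κ w) = w ∧
      tS (Qc C κ w) = C.sc (κ⁻¹ • lam7 w) ∧ p3 (Qc C κ w) = C.rho (κ⁻¹ • lam7 w) := by
  have hg : 0 < gq w := hw.1
  obtain ⟨m, hm⟩ : ∃ m, m = κ⁻¹ • lam7 w := ⟨_, rfl⟩
  have hmO : m ∈ C.O := by rw [hm]; exact hw.2
  obtain ⟨hn, ht, hio⟩ := C.io_rho m hmO
  have hnO := N_sub_O C
  obtain ⟨c, hc⟩ : ∃ c, c = Real.exp (20 * C.sc m) / √(gq w) := ⟨_, rfl⟩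
  have hsq : 0 < √(gq w) := Real.sqrt_pos.2 hg
  have hc0 : 0 < c := by rw [hc]; positivity
  have e1 : p1 (Qc C κ w) = c • q1 w := by unfold Qc; rw [p1_j15, hc, hm]
  have e2 : p2 (Qc C κ w) = c • q2 w := by unfold Qc; rw [p2_j15, hc, hm]
  have e3 : p3 (Qc C κ w) = C.rho m := by unfold Qc; rw [p3_j15, hm]
  have e4 : gS (Qc C κ w) = Real.exp (20 * C.sc m) ^ 2 := by
    unfold gS
    rw [e1, e2, GlP_norm_smul2, hc, div_pow, Real.sq_sqrt hg.le]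
    show Real.exp (20 * C.sc m) ^ 2 / gq w * gq w = _
    rw [div_mul_cancel₀ _ hg.ne']
  have e5 : tS (Qc C κ w) = C.sc m := by
    unfold tS
    rw [e4, Real.log_pow, Real.log_exp]
    push_cast
    ring
  have e6 : √(gS (Qc C κ w)) = Real.exp (20 * C.sc m) := by
    rw [e4, Real.sqrt_sq (Real.exp_pos _).le]
  have hrr : C.rho (C.rho m) = C.rho m := (hnO.2 _ hn).1
  refine ⟨⟨by rw [e4]; positivity, by rw [e5]; exact abs_lt.2 ht, by rw [e3]; exact hnO.1 hn⟩,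
    by rw [e3]; exact hn, ?_, by rw [e5, hm], by rw [e3, hm]⟩
  have f1 : C.io (C.rho (p3 (Qc C κ w))) (tS (Qc C κ w)) = m := by
    rw [e3, hrr, e5, hio]
  have f2 : κ * m 0 = Real.log (gq w) / 2 := by
    rw [hm]
    show κ * (κ⁻¹ * lam7 w 0) = _
    rw [← mul_assoc, mul_inv_cancel₀ hκ.ne', one_mul]
    simp [lam7]
  have f3 : Real.exp (κ * m 0) = √(gq w) := by
    rw [f2, Real.exp_half, Real.exp_log hg]
  have f4 : √(gq w) / Real.exp (20 * C.sc m) * c = 1 := by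
    rw [hc]
    have := Real.exp_pos (20 * C.sc m)
    field_simp
  have f5 : κ • tl7 m = q3 w := by
    ext i
    show κ * m ⟨i.1 + 1, _⟩ = q3 w i
    rw [hm]
    show κ * (κ⁻¹ * lam7 w ⟨i.1 + 1, _⟩) = q3 w i
    rw [← mul_assoc, mul_inv_cancel₀ hκ.ne', one_mul]
    simp [lam7]
  unfold Pc
  rw [f1, e1, e2, e6, f3, smul_smul, smul_smul, f4, one_smul, one_smul, f5, j14_q]

theorem R_PD {z : En 15} (hz : p3 z ∈ C.O) :
    p3 (C.R z) ∈ N ∧ (z ∈ PD C ↔ C.R z ∈ PD C) ∧ gS (C.R z) = gS z ∧ p1 (C.R z) = p1 z ∧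
      p2 (C.R z) = p2 z ∧ Pc C κ (C.R z) = Pc C κ z := by
  obtain ⟨hn, -, -⟩ := C.io_rho _ hz
  have hnO := N_sub_O C
  have hrr : C.rho (C.rho (p3 z)) = C.rho (p3 z) := (hnO.2 _ hn).1
  have e1 : p1 (C.R z) = p1 z := p1_j15 _ _ _
  have e2 : p2 (C.R z) = p2 z := p2_j15 _ _ _
  have e3 : p3 (C.R z) = C.rho (p3 z) := p3_j15 _ _ _
  have e4 : gS (C.R z) = gS z := by
    unfold gS
    rw [e1, e2]
  have e5 : tS (C.R z) = tS z := by
    unfold tS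
    rw [e4]
  refine ⟨by rw [e3]; exact hn, ?_, e4, e1, e2, ?_⟩
  · show (0 < gS z ∧ |tS z| < 1 ∧ p3 z ∈ C.O) ↔
      (0 < gS (C.R z) ∧ |tS (C.R z)| < 1 ∧ p3 (C.R z) ∈ C.O)
    rw [e4, e5, e3]
    exact ⟨fun h => ⟨h.1, h.2.1, hnO.1 hn⟩, fun h => ⟨h.1, h.2.1, hz⟩⟩
  · unfold Pc
    rw [e1, e2, e3, e4, e5, hrr]

theorem Pc_ratio {z : En 15} (hz : z ∈ PD C) : (q2 (Pc C κ z) = 0 ↔ p2 z = 0) ∧
    (‖q2 (Pc C κ z)‖ < ‖q1 (Pc C κ z)‖ / 2 ↔ ‖p2 z‖ < ‖p1 z‖ / 2) := by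
  have hg : 0 < gS z := hz.1
  obtain ⟨c, hc⟩ : ∃ c, c = Real.exp (κ * C.io (C.rho (p3 z)) (tS z) 0) / √(gS z) := ⟨_, rfl⟩
  have hsq : 0 < √(gS z) := Real.sqrt_pos.2 hg
  have hc0 : 0 < c := by rw [hc]; positivity
  have e1 : q1 (Pc C κ z) = c • p1 z := by unfold Pc; rw [q1_j14, hc]
  have e2 : q2 (Pc C κ z) = c • p2 z := by unfold Pc; rw [q2_j14, hc]
  rw [e1, e2]
  exact GlP_ratio hc0 _ _

theorem Qc_ratio {w : En 14} (hw : w ∈ QD C κ) : (p2 (Qc C κ w) = 0 ↔ q2 w = 0) ∧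
    (‖p2 (Qc C κ w)‖ < ‖p1 (Qc C κ w)‖ / 2 ↔ ‖q2 w‖ < ‖q1 w‖ / 2) := by
  have hg : 0 < gq w := hw.1
  obtain ⟨c, hc⟩ : ∃ c, c = Real.exp (20 * C.sc (κ⁻¹ • lam7 w)) / √(gq w) := ⟨_, rfl⟩
  have hsq : 0 < √(gq w) := Real.sqrt_pos.2 hg
  have hc0 : 0 < c := by rw [hc]; positivity
  have e1 : p1 (Qc C κ w) = c • q1 w := by unfold Qc; rw [p1_j15, hc]
  have e2 : p2 (Qc C κ w) = c • q2 w := by unfold Qc; rw [p2_j15, hc]
  rw [e1, e2]
  exact GlP_ratio hc0 _ _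

theorem tt14_norm {l : ℝ} (hl : 0 < l) (w : En 14) : ‖q1 (tt14 l w)‖ = ‖q1 w‖ ∧
    ‖q2 (tt14 l w)‖ = ‖q2 w‖ ∧ q3 (tt14 l w) = q3 w := by
  have e1 : q1 (tt14 l w) = tw l (twi l (q1 w) (q2 w)) (q1 w) := q1_j14 _ _ _
  have e2 : q2 (tt14 l w) = twi l (q1 w) (q2 w) := q2_j14 _ _ _
  have e3 : q3 (tt14 l w) = q3 w := q3_j14 _ _ _
  rw [e1, e2, e3]
  refine ⟨?_, ?_, rfl⟩
  · exact GlP_norm_rot4 (GlP_norm_tha4 hl _) _
  · exact GlP_norm_rot4 (by rw [Quaternion.norm_star]; exact GlP_norm_tha4 hl _) _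

theorem Qc_tt {l : ℝ} (hl : 0 < l) {w : En 14} (hw : w ∈ QD C κ) :
    Qc C κ (tt14 l w) = tt15 l (Qc C κ w) := by
  have hg : 0 < gq w := hw.1
  obtain ⟨h1, h2, h3⟩ := tt14_norm hl w
  have h4 : gq (tt14 l w) = gq w := by
    unfold gq
    rw [h1, h2]
  have h5 : lam7 (tt14 l w) = lam7 w := by
    unfold lam7
    rw [h4, h3]
  obtain ⟨c, hc⟩ : ∃ c, c = Real.exp (20 * C.sc (κ⁻¹ • lam7 w)) / √(gq w) := ⟨_, rfl⟩
  have hsq : 0 < √(gq w) := Real.sqrt_pos.2 hg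
  have hc0 : 0 < c := by rw [hc]; positivity
  have e1 : p1 (Qc C κ w) = c • q1 w := by unfold Qc; rw [p1_j15, hc]
  have e2 : p2 (Qc C κ w) = c • q2 w := by unfold Qc; rw [p2_j15, hc]
  have e3 : p3 (Qc C κ w) = C.rho (κ⁻¹ • lam7 w) := by unfold Qc; rw [p3_j15]
  unfold tt15
  rw [e1, e2, e3, GlP_tt_smul hc0]
  unfold Qc
  rw [h4, h5, ← hc]
  have f1 : q1 (tt14 l w) = (tt l (q1 w) (q2 w)).1 := q1_j14 _ _ _
  have f2 : q2 (tt14 l w) = (tt l (q1 w) (q2 w)).2 := q2_j14 _ _ _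
  rw [f1, f2]

theorem isOpen_PD : IsOpen (PD C) := by
  have h1 : IsOpen {z : En 15 | 0 < gS z} := isOpen_lt continuous_const GlP_cont_gS.continuous
  have h2 : IsOpen ({z : En 15 | 0 < gS z} ∩ tS ⁻¹' {t | |t| < 1}) :=
    GlP_cont_tS.continuousOn.isOpen_inter_preimage h1
      (isOpen_lt continuous_abs continuous_const)
  have h3 : IsOpen (p3 ⁻¹' C.O) := C.openO.preimage GlP_cont_p3.continuous
  have e : PD C = ({z : En 15 | 0 < gS z} ∩ tS ⁻¹' {t | |t| < 1}) ∩ (p3 ⁻¹' C.O) := by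
    ext z
    exact ⟨fun h => ⟨⟨h.1, h.2.1⟩, h.2.2⟩, fun h => ⟨h.1.1, h.1.2, h.2⟩⟩
  rw [e]
  exact h2.inter h3

theorem isOpen_QD : IsOpen (QD C κ) := by
  have h1 : IsOpen {w : En 14 | 0 < gq w} := isOpen_lt continuous_const GlP_cont_gq.continuous
  have h2 : IsOpen ({w : En 14 | 0 < gq w} ∩ (fun w => κ⁻¹ • lam7 w) ⁻¹' C.O) :=
    (GlP_cont_lam7.continuousOn.const_smul κ⁻¹).isOpen_inter_preimage h1 C.openO
  exact h2

theorem smooth_Pc : ContDiffOn ℝ ∞ (Pc C κ) (PD C) := by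
  have hm := GlP_cont_m C
  have hgS : ContDiffOn ℝ ∞ (fun z => √(gS z)) (PD C) :=
    GlP_cont_gS.contDiffOn.sqrt fun z hz => (ne_of_gt hz.1)
  have he : ContDiffOn ℝ ∞ (fun z => Real.exp (κ * C.io (C.rho (p3 z)) (tS z) 0)) (PD C) :=
    (contDiffOn_const.mul (GlP_coord hm 0)).exp
  have hf := he.div hgS fun z hz => (Real.sqrt_pos.2 hz.1).ne'
  unfold Pc
  exact GlP_cont_j14 (hf.smul GlP_cont_p1.contDiffOn) (hf.smul GlP_cont_p2.contDiffOn)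
    ((GlP_cont_tl7 hm).const_smul κ)

theorem smooth_Qc : ContDiffOn ℝ ∞ (Qc C κ) (QD C κ) := by
  have hm : ContDiffOn ℝ ∞ (fun w => κ⁻¹ • lam7 w) (QD C κ) :=
    (GlP_cont_lam7.mono fun w hw => hw.1).const_smul κ⁻¹
  have hsc : ContDiffOn ℝ ∞ (fun w => C.sc (κ⁻¹ • lam7 w)) (QD C κ) :=
    C.smooth_sc.comp hm fun w hw => hw.2
  have hrho : ContDiffOn ℝ ∞ (fun w => C.rho (κ⁻¹ • lam7 w)) (QD C κ) :=
    C.smooth_rho.comp hm fun w hw => hw.2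
  have hgq : ContDiffOn ℝ ∞ (fun w => √(gq w)) (QD C κ) :=
    GlP_cont_gq.contDiffOn.sqrt fun z hz => (ne_of_gt hz.1)
  have he : ContDiffOn ℝ ∞ (fun w => Real.exp (20 * C.sc (κ⁻¹ • lam7 w))) (QD C κ) :=
    (contDiffOn_const.mul hsc).exp
  have hf := he.div hgq fun z hz => (Real.sqrt_pos.2 hz.1).ne'
  unfold Qc
  exact GlP_cont_j15 (hf.smul GlP_cont_q1.contDiffOn) (hf.smul GlP_cont_q2.contDiffOn) hrho

end EXO
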