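import Pool.Agent.EXO.GlCon

/-!
# EXO, GLU, module GlSur: the image of `g` contains a slab

Notation: `a₀ = (log 10)/8 = (5 log 10)/40`; `a = a₀ + (log 2)/40` (so `gS ∈ (1/(2·10^5), 2·10^5)` iff `|tS| < a`), `a' = 3a₀·(2/5)`...: only
`a < 31/100 < 34/100 < 2/5` is used: `Y = {y ∈ J1 ∪ J2 : κ⁻¹ Lam7 y ∈ O, |sc| < 31/100}` is contained in `g '' (e '' {w ∈ QD : |sc (κ⁻¹ lam7 w)| < 34/100})`.

Hypotheses: `g` is continuous on `Ω` and maps open subsets of `Ω` to open sets; `C₁ ≥ 0` bound of `O`, `κ C₁ ≤ r < d`; closeness `hg`: for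
`w ∈ Kr r`, `g (e w) ∈ J1 ∪ J2` and `‖Lam7 (g (e w)) - lam7 w‖ < κ η`, where `η` is from `collar_unif` with `ε = 1/100`.

PROOF.  `U = {w : gq w > 0, m = κ⁻¹ lam7 w ∈ O, |sc m| < 34/100}`: open, contained in `Kr r ⊆ cyl d`.  `V = g '' (e '' U)` is open (`e '' U` is open in `Ω`:
`e '' U = Ω ∩ e'⁻¹ U`).  Claim: `Y ∩ V` is closed in `Y`: let `y_k = g (e w_k) → y ∈ Y`, `w_k ∈ U ⊆ Kr r` compact: subsequence `w_k → w ∈ Kr r`,
`g (e w) = y`.  `‖Lam7 y - lam7 w‖ < κ η`; `Lam7 y = κ io n t` with `n ∈ N`, `|t| < 31/100`; so with `m = κ⁻¹ lam7 w`, `‖m - io n t‖ < η`: `m ∈ O`,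
`|sc m - t| < 1/100`, `|sc m| < 34/100`: `w ∈ U`.  (Take closure in sequences or `IsClosed` of `g∘e` of the compact set `closure`.)
Nonempty: take `n ∈ N`, `w` with `lam7 w = κ io n 0`, `gq w > 0` (e.g. `Pc` of `(e_0, 0, n)`): `w ∈ U`, `y = g (e w)`, `‖κ⁻¹ Lam7 y - io n 0‖ < η` so
`|sc| < 1/100`: `y ∈ Y ∩ V`.  `Y` is preconnected (`slab_conn`) and `Y ∩ V` is relatively clopen and non-empty: `Y ⊆ V`
(`IsPreconnected.subset_of_closure_inter_subset` or `isPreconnected_iff_subset_of_disjoint`).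
-/

set_option maxSynthPendingDepth 3

open scoped ContDiff
open Pool.Agent.EXO

namespace EXO

private theorem GlSur_lam : ContinuousOn lam7 {w | 0 < gq w} := by
  refine (PiLp.continuous_toLp 2 _).comp_continuousOn (continuousOn_pi.2 fun i => ?_)
  have hg : Continuous gq := by
    have h1 : Continuous q1 := (PiLp.continuous_toLp 2 _).comp (continuous_pi fun i => by fun_prop)
    have h2 : Continuous q2 := (PiLp.continuous_toLp 2 _).comp (continuous_pi fun i => by fun_prop)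
    exact (h1.norm.pow 2).add (h2.norm.pow 2)
  by_cases hi : i.1 = 0
  · simp only [hi, dite_true]
    exact (hg.continuousOn.log fun w hw => (ne_of_gt hw)).div_const 2
  · simp only [hi, dite_false]
    have h3 : Continuous q3 := (PiLp.continuous_toLp 2 _).comp (continuous_pi fun i => by fun_prop)
    exact ((EuclideanSpace.proj (𝕜 := ℝ) (⟨i.1 - 1, by omega⟩ : Fin 6)).continuous.comp
      h3).continuousOn

private theorem GlSur_w {N : Set (En 7)} (C : Collar N) {κ : ℝ} (hκ : 0 < κ) {n : En 7}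
    (hn : n ∈ N) : ∃ w : En 14, 0 < gq w ∧ κ⁻¹ • lam7 w = C.io n 0 := by
  have hX : ‖(EuclideanSpace.single 0 1 : En 4)‖ = 1 := by simp
  have e1 : gS (j15 (EuclideanSpace.single 0 1) 0 n) = 1 := by
    rw [gS, p1_j15, p2_j15, hX]
    simp
  have e2 : tS (j15 (EuclideanSpace.single 0 1) 0 n) = 0 := by
    rw [tS, e1]
    simp
  have e3 : p3 (j15 (EuclideanSpace.single 0 1) 0 n) = n := p3_j15 _ _ _
  obtain ⟨hO, hN⟩ := N_sub_O C
  have hz : j15 (EuclideanSpace.single 0 1) 0 n ∈ PD C := by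
    refine ⟨?_, ?_, ?_⟩
    · rw [e1]
      exact one_pos
    · rw [e2]
      simp
    · rw [e3]
      exact hO hn
  obtain ⟨h1, h2⟩ := lam7_Pc C hκ hz
  refine ⟨_, h2, ?_⟩
  rw [h1, e2, e3, (hN n hn).1, smul_smul, inv_mul_cancel₀ hκ.ne', one_smul]

theorem glu_surj {N : Set (En 7)} (hN : IsConnected N) (C : Collar N) {l : ℝ} (hl : 0 < l)
    (J : JData l) {κ r η : ℝ} (hκ : 0 < κ) (hr : r < J.d) (hκr : ∀ m ∈ C.O, κ * ‖m‖ ≤ r)
    (hη : 0 < η) (hηc : ∀ n ∈ N, ∀ t : ℝ, |t| ≤ 2 / 5 → ∀ m : En 7, ‖m - C.io n t‖ < η →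
      m ∈ C.O ∧ |C.sc m - t| < 1 / 100)
    {g : En 14 → En 14} (hgc : ContinuousOn g J.Ω)
    (hgo : ∀ U ⊆ J.Ω, IsOpen U → IsOpen (g '' U))
    (hg : ∀ w ∈ Kr r, g (J.e w) ∈ J.J1 ∪ J.J2 ∧ ‖Lam7 J (g (J.e w)) - lam7 w‖ < κ * η) :
    ∀ y ∈ J.J1 ∪ J.J2, κ⁻¹ • Lam7 J y ∈ C.O → |C.sc (κ⁻¹ • Lam7 J y)| < 31 / 100 →
      ∃ w : En 14, w ∈ QD C κ ∧ |C.sc (κ⁻¹ • lam7 w)| < 34 / 100 ∧ w ∈ cyl J.d ∧
        g (J.e w) = y := by
  set U : Set (En 14) := {w | w ∈ QD C κ ∧ |C.sc (κ⁻¹ • lam7 w)| < 34 / 100} with hU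
  have hUo : IsOpen U := by
    have hc : ContinuousOn (fun w => |C.sc (κ⁻¹ • lam7 w)|) (QD C κ) := by
      have h1 : ContinuousOn (fun w => κ⁻¹ • lam7 w) (QD C κ) :=
        (GlSur_lam.mono fun w hw => hw.1).const_smul κ⁻¹
      exact (C.smooth_sc.continuousOn.comp h1 fun w hw => hw.2).abs
    exact hc.isOpen_inter_preimage (isOpen_QD C) isOpen_Iio
  have hKr : ∀ w : En 14, w ∈ QD C κ → w ∈ Kr r := by
    rintro w ⟨h1, h2⟩
    refine ⟨h1, ?_⟩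
    have h3 := hκr _ h2
    rwa [norm_smul, norm_inv, Real.norm_of_nonneg hκ.le, ← mul_assoc, mul_inv_cancel₀ hκ.ne',
      one_mul] at h3
  have hKc : Kr r ⊆ cyl J.d := Kr_cyl hr
  have hUe : J.e '' U = J.Ω ∩ J.e' ⁻¹' U := by
    ext y
    constructor
    · rintro ⟨w, hw, rfl⟩
      obtain ⟨h1, h2⟩ := J.e_maps w (hKc (hKr w hw.1))
      refine ⟨h1, ?_⟩
      show J.e' (J.e w) ∈ U
      rw [h2]
      exact hw
    · rintro ⟨h1, h2⟩
      exact ⟨J.e' y, h2, (J.e'_maps y h1).2⟩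
  have hVo : IsOpen (g '' (J.e '' U)) := by
    refine hgo _ ?_ ?_
    · rw [hUe]
      exact Set.inter_subset_left
    · rw [hUe]
      exact J.e'_smooth.continuousOn.isOpen_inter_preimage J.openΩ hUo
  set K : Set (En 14) := (fun w => g (J.e w)) '' Kr r with hK
  have hKcl : IsClosed K := by
    refine ((Kr_compact r).image_of_continuousOn ?_).isClosed
    exact hgc.comp (J.e_smooth.continuousOn.mono hKc) fun w hw => (J.e_maps w (hKc hw)).1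
  have hVK : g '' (J.e '' U) ⊆ K := by
    rintro _ ⟨_, ⟨w, hw, rfl⟩, rfl⟩
    exact ⟨w, hKr w hw.1, rfl⟩
  set Y : Set (En 14) := {y : En 14 | y ∈ J.J1 ∪ J.J2 ∧ κ⁻¹ • Lam7 J y ∈ C.O ∧
      -(31 / 100) < C.sc (κ⁻¹ • Lam7 J y) ∧ C.sc (κ⁻¹ • Lam7 J y) < 31 / 100} with hY
  have hYc : IsPreconnected Y :=
    slab_conn hN C hl J hκ (fun m hm => (hκr m hm).trans_lt hr) (by norm_num) (by norm_num)
      (by norm_num)
  have hdist : ∀ w ∈ Kr r, ‖κ⁻¹ • Lam7 J (g (J.e w)) - κ⁻¹ • lam7 w‖ < η := by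
    intro w hw
    have h1 := (hg w hw).2
    rw [← smul_sub, norm_smul, norm_inv, Real.norm_of_nonneg hκ.le, inv_mul_lt_iff₀ hκ]
    exact h1
  have hYK : ∀ y ∈ Y, y ∈ K → y ∈ g '' (J.e '' U) := by
    rintro y ⟨hy1, hy2, hy3, hy4⟩ ⟨w, hw, rfl⟩
    obtain ⟨k1, k2, k3⟩ := C.io_rho _ hy2
    have h1 := hdist w hw
    have hy5 : |C.sc (κ⁻¹ • Lam7 J (g (J.e w)))| < 31 / 100 := abs_lt.2 ⟨hy3, hy4⟩
    obtain ⟨h2, h3⟩ := hηc _ k1 (C.sc (κ⁻¹ • Lam7 J (g (J.e w)))) (by linarith)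
      (κ⁻¹ • lam7 w) (by
        have e := k3
        rw [show C.io (C.rho (κ⁻¹ • Lam7 J (g (J.e w)))) (C.sc (κ⁻¹ • Lam7 J (g (J.e w))))
          = κ⁻¹ • Lam7 J (g (J.e w)) from e, norm_sub_rev]
        exact h1)
    refine ⟨J.e w, ⟨w, ⟨⟨hw.1, h2⟩, ?_⟩, rfl⟩, rfl⟩
    have h4 := abs_lt.1 h3
    rw [abs_lt]
    constructor <;> linarith [h4.1, h4.2]
  have hYV : Y ⊆ g '' (J.e '' U) := by
    refine hYc.subset_left_of_subset_union hVo hKcl.isOpen_compl ?_ ?_ ?_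
    · exact Set.disjoint_left.2 fun y hy hy' => hy' (hVK hy)
    · intro y hy
      by_cases h : y ∈ K
      · exact Or.inl (hYK y hy h)
      · exact Or.inr h
    · obtain ⟨n, hn⟩ := hN.nonempty
      obtain ⟨w, hw1, hw2⟩ := GlSur_w C hκ hn
      obtain ⟨m1, m2, m3⟩ := C.io_mem n hn 0 ⟨by norm_num, by norm_num⟩
      have hwQ : w ∈ QD C κ := ⟨hw1, by rw [hw2]; exact m1⟩
      have hwU : w ∈ U := ⟨hwQ, by rw [hw2, m3]; norm_num⟩
      have h1 := hdist w (hKr w hwQ)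
      rw [hw2] at h1
      obtain ⟨h2, h3⟩ := hηc n hn 0 (by norm_num) _ h1
      rw [sub_zero] at h3
      have h4 := abs_lt.1 h3
      exact ⟨g (J.e w), ⟨(hg w (hKr w hwQ)).1, h2, by linarith [h4.1], by linarith [h4.2]⟩,
        ⟨J.e w, ⟨w, hwU, rfl⟩, rfl⟩⟩
  intro y hy1 hy2 hy3
  obtain ⟨_, ⟨w, hw, rfl⟩, hwy⟩ := hYV ⟨hy1, hy2, (abs_lt.1 hy3).1, (abs_lt.1 hy3).2⟩
  exact ⟨w, hw.1, hw.2, hKc (hKr w hw.1), hwy⟩

end EXO
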