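import Pool.Agent.EXO.IaGb

/-!
Project EXO, chunk IDX-A, module IaFa: existence of the Fredholm data and first properties.

PROOFS.
* `exists_fredData`: by `S0_mem` there is `T ∈ S.FR` with `‖S0 ε - T‖ * μ.real univ < 1`
  (`Metric.mem_closure_iff`; if `μ.real univ = 0` anything works).  Every `T ∈ S.FR` is a finite
  sum `∑ i : Fin n, rankOne (a i) (b i)` with `a i, b i ∈ Sm` (`Submodule.span_induction`: zero,
  generators, `+` by `Fin.append`, scalars by `c • rankOne a b = rankOne (c • a) b`).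
  Take `r` from `neumann`.
* `star_Q_A`: `Q_S0`, `star_rankOne`, `Q_Sm`.
* `star_Q_r`: `Q (op μ A u) = op μ (star Q A) u = op μ A u` (`op_star`), so by `r1`
  `star Q r = star Q A + star (Q ∘ op μ A) r = A + star (op μ A) r = r`.
* `A_opQ`: `S0_opQ`, `op_rankOne` and `ip (b i) (Q u) = ip (Q (b i)) u = ip (b i) u`.
* `r_opQ`: `op μ r = op μ A + (op μ r) ∘ (op μ A)` (`r2`, `op_star`) and `A_opQ`.
-/

open MeasureTheory Filter Topology

namespace Pool.Agent.EXO

variable {X : Type*} [MetricSpace X] [CompactSpace X] [MeasurableSpace X] [BorelSpace X]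
variable {H : Type*} [NormedAddCommGroup H] [InnerProductSpace ℂ H] [FiniteDimensional ℂ H]

open Ker

namespace DSys.Parx

variable {μ : Measure X} [IsFiniteMeasure μ] [μ.IsOpenPosMeasure] {S : DSys μ H} {ε₀ : ℝ}
  {P : S.Parx ε₀} {ε : ℝ}

private lemma smul_rankOne (c : ℂ) (a b : C(X, H)) : c • rankOne a b = rankOne (c • a) b := by
  refine Ker.ext fun x y => ?_
  refine ContinuousLinearMap.ext fun h => ?_
  rw [Ker.smul_apply]
  change c • (rankOne a b (x, y) h) = _
  rw [rankOne_apply, rankOne_apply, ContinuousMap.smul_apply, smul_comm]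

private lemma FR_sum (S : DSys μ H) {T : Ker X H} (hT : T ∈ S.FR) :
    ∃ (n : ℕ) (a b : Fin n → C(X, H)), (∀ i, a i ∈ S.Sm) ∧ (∀ i, b i ∈ S.Sm) ∧
      T = ∑ i, rankOne (a i) (b i) := by
  unfold DSys.FR at hT
  induction hT using Submodule.span_induction with
  | mem x hx =>
    obtain ⟨a, ha, b, hb, rfl⟩ := hx
    exact ⟨1, fun _ => a, fun _ => b, fun _ => ha, fun _ => hb, by simp⟩
  | zero => exact ⟨0, Fin.elim0, Fin.elim0, fun i => i.elim0, fun i => i.elim0, by simp⟩
  | add x y hx hy ihx ihy =>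
    obtain ⟨n, a, b, ha, hb, rfl⟩ := ihx
    obtain ⟨m, a', b', ha', hb', rfl⟩ := ihy
    refine ⟨n + m, Fin.append a a', Fin.append b b', fun i => ?_, fun i => ?_, ?_⟩
    · refine Fin.addCases (fun j => ?_) (fun j => ?_) i
      · rw [Fin.append_left]; exact ha j
      · rw [Fin.append_right]; exact ha' j
    · refine Fin.addCases (fun j => ?_) (fun j => ?_) i
      · rw [Fin.append_left]; exact hb j
      · rw [Fin.append_right]; exact hb' j
    · rw [Fin.sum_univ_add]
      simp only [Fin.append_left, Fin.append_right]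
  | smul c x hx ih =>
    obtain ⟨n, a, b, ha, hb, rfl⟩ := ih
    refine ⟨n, fun i => c • a i, b, fun i => S.Sm.smul_mem c (ha i), hb, ?_⟩
    rw [Finset.smul_sum]
    exact Finset.sum_congr rfl fun i _ => smul_rankOne c _ _

theorem exists_fredData (P : S.Parx ε₀) (h1 : 0 < ε) (h2 : ε ≤ ε₀) :
    Nonempty (P.FredData ε) := by
  have hmem := P.S0_mem h1 h2
  rw [Metric.mem_closure_iff] at hmem
  have hpos : (0 : ℝ) ≤ μ.real Set.univ := by positivity
  obtain ⟨T, hT, hd⟩ := hmem (μ.real Set.univ + 1)⁻¹ (by positivity)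
  obtain ⟨n, a, b, ha, hb, rfl⟩ := FR_sum S hT
  have hsmall : ‖P.S0 ε - ∑ i, rankOne (a i) (b i)‖ * μ.real Set.univ < 1 := by
    rw [dist_eq_norm] at hd
    calc ‖P.S0 ε - ∑ i, rankOne (a i) (b i)‖ * μ.real Set.univ
        ≤ (μ.real Set.univ + 1)⁻¹ * μ.real Set.univ :=
          mul_le_mul_of_nonneg_right hd.le hpos
      _ < 1 := by
          rw [inv_mul_eq_div, div_lt_one (by positivity)]
          linarith
  obtain ⟨r, hr1, hr2⟩ := neumann μ _ hsmall
  exact ⟨⟨n, a, b, ha, hb, _, rfl, r, hr1, hr2⟩⟩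

namespace FredData

theorem star_Q_A (F : P.FredData ε) (h1 : 0 < ε) (h2 : ε ≤ ε₀) : star S.Q F.A = F.A := by
  rw [F.hA, star_sub_right, star_sum_right, P.Q_S0 h1 h2]
  congr 1
  refine Finset.sum_congr rfl fun i _ => ?_
  rw [star_rankOne, S.Q_Sm _ (F.ha i)]

theorem star_Q_r (F : P.FredData ε) (h1 : 0 < ε) (h2 : ε ≤ ε₀) : star S.Q F.r = F.r := by
  have hA := F.star_Q_A h1 h2
  have hQ : S.Q.comp (op μ F.A) = op μ F.A := by rw [← op_star, hA]
  calc star S.Q F.r = star S.Q (F.A + star (op μ F.A) F.r) := by rw [← F.r1]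
    _ = F.A + star (op μ F.A) F.r := by
      rw [star_add_right, hA, ← star_comp, hQ]
    _ = F.r := F.r1.symm

theorem A_opQ (F : P.FredData ε) (h1 : 0 < ε) (h2 : ε ≤ ε₀) (u : C(X, H)) :
    op μ F.A (S.Q u) = op μ F.A u := by
  rw [F.hA, op_sub, op_sum, ContinuousLinearMap.sub_apply, ContinuousLinearMap.sub_apply,
    ContinuousLinearMap.sum_apply, ContinuousLinearMap.sum_apply, P.S0_opQ h1 h2]
  congr 1
  refine Finset.sum_congr rfl fun i _ => ?_
  rw [op_rankOne, op_rankOne, ← S.Q_symm, S.Q_Sm _ (F.hb i)]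

theorem r_opQ (F : P.FredData ε) (h1 : 0 < ε) (h2 : ε ≤ ε₀) (u : C(X, H)) :
    op μ F.r (S.Q u) = op μ F.r u := by
  have hr : op μ F.r = op μ F.A + (op μ F.r).comp (op μ F.A) := by
    rw [← op_star, ← op_add, ← F.r2]
  have h : ∀ v, op μ F.r v = op μ F.A v + op μ F.r (op μ F.A v) := fun v => by
    conv_lhs => rw [hr]
    rfl
  rw [h (S.Q u), h u, F.A_opQ h1 h2]

end FredData

end DSys.Parx

end Pool.Agent.EXO
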