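import Pool.Agent.EXO.IaFa

/-!
Project EXO, chunk IDX-A, module IaFb: rows of `A` and `r`, weak derivative of `b'_i`.

PROOFS.
* `AD_row`: let `WD u h`.  `op μ A h = op μ (S0) h - ∑ ip (b i) h • a i` (`hA`, `op_rankOne`);
  `op μ (S0) h = op μ (S0D) u` (`S0_row`); `ip (b i) h = ip (D (b i)) u`: conjugate of
  `ip h (b i) = ip u (D (b i))` (definition of `WD u h`, `ip_conj`).
* `AD_opQ`: `S0D_opQ`, and `Q (D (b i)) = D (b i)` (`Q_Sm`, `Q_symm`).
* `rD_row`: `op μ r h = op μ A h + op μ r (op μ A h) = op μ AD u + op μ r (op μ AD u)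
  = op μ rD u` (`r2`, `op_star`).  `rD_opQ`: from `AD_opQ`.
* `WD_b'`: `b'_i = b_i + R* b_i`, `R* f := op μ (adj r) f`.
  From `r2`: `op μ r = op μ A + (op μ r) ∘ (op μ A)`, so for all `f`, `u`:
  `ip (op μ (adj r) f) u = ip f (op μ r u) = ip f (op μ A u) + ip f (op μ r (op μ A u))
  = ip (op μ (adj A) f + op μ (adj A) (op μ (adj r) f)) u` (`ip_op_adj`), and `ip` is
  nondegenerate (`ip_self_eq_zero`).  Hence `b'_i = b_i + op μ (adj A) (b'_i)`.
  For every `f`: `WD (op μ (adj A) f) (op μ (adj AD) f)`: `Q` fixes both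
  (`ip (Q (op μ (adj A) f)) u = ip (op μ (adj A) f) (Q u) = ip f (op μ A (Q u)) = ip f (op μ A u)`
  and the same for `AD`; nondegeneracy), and for `v ∈ Sm`:
  `ip (op μ (adj A) f) (D v) = ip f (op μ A (D v)) = ip f (op μ AD v) = ip (op μ (adj AD) f) v`
  (`ip_op_adj`, `AD_row` for `WD.of_Sm v`).
  So `g_i := D b_i + op μ (adj AD) (b'_i)` works (`WD.add`).
-/

open MeasureTheory Filter Topology

namespace Pool.Agent.EXO

variable {X : Type*} [MetricSpace X] [CompactSpace X] [MeasurableSpace X] [BorelSpace X]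
variable {H : Type*} [NormedAddCommGroup H] [InnerProductSpace ℂ H] [FiniteDimensional ℂ H]

open Ker

namespace DSys.Parx.FredData

variable {μ : Measure X} [IsFiniteMeasure μ] [μ.IsOpenPosMeasure] {S : DSys μ H} {ε₀ : ℝ}
  {P : S.Parx ε₀} {ε : ℝ}

theorem AD_row (F : P.FredData ε) (h1 : 0 < ε) (h2 : ε ≤ ε₀) {u h : C(X, H)} (hu : S.WD u h) :
    op μ F.A h = op μ F.AD u := by
  rw [F.hA, AD, op_sub, op_sub, op_sum, op_sum]
  simp only [_root_.sub_apply, ContinuousLinearMap.sum_apply]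
  rw [P.S0_row h1 h2 hu]
  congr 1
  refine Finset.sum_congr rfl fun i _ => ?_
  rw [op_rankOne, op_rankOne, ← ip_conj μ h, ← ip_conj μ u, ← hu.2.2 ⟨F.b i, F.hb i⟩]

theorem AD_opQ (F : P.FredData ε) (h1 : 0 < ε) (h2 : ε ≤ ε₀) (u : C(X, H)) :
    op μ F.AD (S.Q u) = op μ F.AD u := by
  rw [AD, op_sub, op_sum]
  simp only [_root_.sub_apply, ContinuousLinearMap.sum_apply]
  rw [P.S0D_opQ h1 h2]
  congr 1
  refine Finset.sum_congr rfl fun i _ => ?_
  rw [op_rankOne, op_rankOne, ← S.Q_symm, S.Q_Sm _ (S.D _).2]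

private theorem IaFb_r (F : P.FredData ε) (v : C(X, H)) :
    op μ F.r v = op μ F.A v + op μ F.r (op μ F.A v) := by
  have hr : op μ F.r = op μ F.A + (op μ F.r).comp (op μ F.A) := by
    rw [← op_star, ← op_add, ← F.r2]
  conv_lhs => rw [hr]
  rfl

private theorem IaFb_rD (F : P.FredData ε) (v : C(X, H)) :
    op μ F.rD v = op μ F.AD v + op μ F.r (op μ F.AD v) := by
  rw [rD, op_add, op_star]
  rfl

theorem rD_row (F : P.FredData ε) (h1 : 0 < ε) (h2 : ε ≤ ε₀) {u h : C(X, H)} (hu : S.WD u h) :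
    op μ F.r h = op μ F.rD u := by
  rw [IaFb_r, IaFb_rD, F.AD_row h1 h2 hu]

theorem rD_opQ (F : P.FredData ε) (h1 : 0 < ε) (h2 : ε ≤ ε₀) (u : C(X, H)) :
    op μ F.rD (S.Q u) = op μ F.rD u := by
  rw [IaFb_rD, IaFb_rD, F.AD_opQ h1 h2]

omit [IsFiniteMeasure μ] [μ.IsOpenPosMeasure] in
private theorem IaFb_nd [IsFiniteMeasure μ] [μ.IsOpenPosMeasure] {f g : C(X, H)}
    (h : ∀ u, ip μ f u = ip μ g u) : f = g := by
  rw [← sub_eq_zero]
  apply ip_self_eq_zero μ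
  rw [ip_sub_left, h, sub_self]

private theorem IaFb_Q (k : Ker X H) (hk : ∀ u, op μ k (S.Q u) = op μ k u) (f : C(X, H)) :
    S.Q (op μ (adj k) f) = op μ (adj k) f := by
  refine IaFb_nd (μ := μ) fun u => ?_
  rw [S.Q_symm, ← ip_op_adj, hk, ip_op_adj]

theorem WD_b' (F : P.FredData ε) (h1 : 0 < ε) (h2 : ε ≤ ε₀) (i : Fin F.n) :
    ∃ g, S.WD (F.b' i) g := by
  have hf : ∀ f, S.WD (op μ (adj F.A) f) (op μ (adj F.AD) f) := by
    intro f
    refine ⟨IaFb_Q F.A (F.A_opQ h1 h2) f, IaFb_Q F.AD (F.AD_opQ h1 h2) f, fun v => ?_⟩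
    rw [← ip_op_adj, ← ip_op_adj, F.AD_row h1 h2 (WD.of_Sm v)]
  have hr : ∀ f, op μ (adj F.r) f = op μ (adj F.A) (f + op μ (adj F.r) f) := by
    intro f
    refine IaFb_nd (μ := μ) fun u => ?_
    rw [← ip_op_adj, IaFb_r, ip_add_right, map_add, ip_add_left, ip_op_adj, ip_op_adj μ F.r,
      ip_op_adj μ F.A]
  have hb : F.b' i = F.b i + op μ (adj F.A) (F.b' i) := by
    conv_lhs => rw [b', hr]
    rfl
  refine ⟨S.D ⟨F.b i, F.hb i⟩ + op μ (adj F.AD) (F.b' i), ?_⟩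
  rw [hb]
  have := (WD.of_Sm (⟨F.b i, F.hb i⟩ : S.Sm)).add (hf (F.b' i))
  rw [← hb] at this ⊢
  exact this

end DSys.Parx.FredData

end Pool.Agent.EXO
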