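import Pool.Agent.EXO.IaFa

/-!
Project EXO, chunk IDX-A, module IaFc: the finite rank kernel `T' = T (1 + R)` and
`D Q'' = 1 - T'`.

PROOFS.
* `star_op_rankOne`: `star (op μ (rankOne a b)) r = rankOne a (op μ (adj r) b)`: evaluate at
  `(x, z)` and `h`: left side `(∫ y, ⟪b y, r (y,z) h⟫) • a x`, right side
  `⟪∫ y, adjoint (r (y,z)) (b y), h⟫ • a x` (`op_apply`, `star_apply`, `op_rankOne`, `ip`;
  `integral_inner`/`inner_integral` and `ContinuousLinearMap.adjoint_inner_left`).
* `T'_eq`: `∑ rankOne (a i) (b i) = S0 - A` (`hA`).  By the first item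
  `T' = ∑ rankOne (a i) (b i) + ∑ star (op μ (rankOne (a i) (b i))) r
  = (S0 - A) + star (op μ (S0 - A)) r = S0 - A + star (op μ S0) r - star (op μ A) r`
  `= S0 - A + star (op μ S0) r - (r - A)` (`r1`) `= S0 + star (op μ S0) r - r`, and
  `star Q r = r` (`star_Q_r`), `star_sub_left`.
* `Q''_WD`: let `Q u = u` and `v := u + op μ r u`; `Q v = v` since
  `Q (op μ r u) = op μ (star Q r) u = op μ r u`.  `Q'' u = Q' v`, and by `WD_Q'`
  `WD (Q' v) (v - op μ S0 v)`, where
  `v - op μ S0 v = u - (op μ S0 u - op μ r u + op μ S0 (op μ r u)) = u - op μ T' u` by `T'_eq`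
  (`op_sub`, `op_star`).
* `Q''_perp`: `perp` for `v`.
-/

open MeasureTheory Filter Topology

namespace Pool.Agent.EXO

variable {X : Type*} [MetricSpace X] [CompactSpace X] [MeasurableSpace X] [BorelSpace X]
variable {H : Type*} [NormedAddCommGroup H] [InnerProductSpace ℂ H] [FiniteDimensional ℂ H]

open Ker

theorem Ker.star_op_rankOne (μ : Measure X) [IsFiniteMeasure μ] (a b : C(X, H)) (r : Ker X H) :
    star (op μ (rankOne a b)) r = rankOne a (op μ (adj r) b) := by
  refine Ker.ext fun x z => ContinuousLinearMap.ext fun h => ?_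
  rw [star_apply, op_rankOne, rankOne_apply]
  have h1 := inner_op μ (adj r) b z h
  rw [adj_adj] at h1
  have h2 : inner ℂ (op μ (adj r) b z) h = ip μ b (col r z h) := by
    rw [← inner_conj_symm, h1, ip_conj]
  rw [h2]
  rfl

private theorem IaFc_rankOne_add (a b c : C(X, H)) :
    rankOne a (b + c) = rankOne a b + rankOne a c := by
  refine Ker.ext fun x z => ContinuousLinearMap.ext fun h => ?_
  rw [rankOne_apply, ContinuousMap.add_apply, inner_add_left, add_smul]
  rfl

private theorem IaFc_star_sum (μ : Measure X) [IsFiniteMeasure μ] {n : ℕ} (k : Fin n → Ker X H)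
    (r : Ker X H) : ∑ i, star (op μ (k i)) r = star (op μ (∑ i, k i)) r := by
  refine Ker.ext fun x z => ContinuousLinearMap.ext fun h => ?_
  rw [Ker.sum_apply, _root_.sum_apply, star_apply, op_sum,
    _root_.sum_apply, ContinuousMap.sum_apply]
  rfl

namespace DSys.Parx.FredData

variable {μ : Measure X} [IsFiniteMeasure μ] [μ.IsOpenPosMeasure] {S : DSys μ H} {ε₀ : ℝ}
  {P : S.Parx ε₀} {ε : ℝ}

theorem T'_eq (F : P.FredData ε) (h1 : 0 < ε) (h2 : ε ≤ ε₀) :
    F.T' = P.S0 ε - star (S.Q - op μ (P.S0 ε)) F.r := by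
  have e1 : F.T' = ∑ i, rankOne (F.a i) (F.b i) +
      star (op μ (∑ i, rankOne (F.a i) (F.b i))) F.r := by
    rw [← IaFc_star_sum, ← Finset.sum_add_distrib]
    unfold T'
    refine Finset.sum_congr rfl fun i _ => ?_
    rw [Ker.star_op_rankOne, ← IaFc_rankOne_add]
    rfl
  have e2 : ∑ i, rankOne (F.a i) (F.b i) = P.S0 ε - F.A := by
    rw [F.hA]
    abel
  have e3 : star (op μ F.A) F.r = F.r - F.A := by
    have h := F.r1
    rw [eq_sub_iff_add_eq, add_comm]
    exact h.symm
  rw [e1, e2, op_sub, star_sub_left, star_sub_left, F.star_Q_r h1 h2, e3]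
  abel

theorem Q''_WD (F : P.FredData ε) (h1 : 0 < ε) (h2 : ε ≤ ε₀) {u : C(X, H)} (hu : S.Q u = u) :
    S.WD (F.Q'' u) (u - op μ F.T' u) := by
  have hv : S.Q (u + op μ F.r u) = u + op μ F.r u := by
    rw [map_add, hu]
    congr 1
    have h := congrArg (fun B : C(X, H) →L[ℂ] C(X, H) => B u) (op_star μ S.Q F.r)
    simp only [ContinuousLinearMap.comp_apply] at h
    rw [← h, F.star_Q_r h1 h2]
  have h3 := P.WD_Q' h1 h2 hv
  have e1 : F.Q'' u = P.Q' ε (u + op μ F.r u) := by
    rw [map_add]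
    rfl
  have e2 : u - op μ F.T' u = u + op μ F.r u - op μ (P.S0 ε) (u + op μ F.r u) := by
    have h4 : S.Q (op μ F.r u) = op μ F.r u := by
      rw [map_add, hu] at hv
      exact add_left_cancel hv
    rw [F.T'_eq h1 h2, op_sub, op_star, _root_.sub_apply,
      ContinuousLinearMap.comp_apply, _root_.sub_apply, h4, map_add]
    abel
  rw [e1, e2]
  exact h3

theorem Q''_perp (F : P.FredData ε) (h1 : 0 < ε) (h2 : ε ≤ ε₀) {w : C(X, H)} (hw : w ∈ S.N)
    (u : C(X, H)) : ip μ w (F.Q'' u) = 0 := by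
  have e1 : F.Q'' u = P.Q' ε (u + op μ F.r u) := by
    rw [map_add]
    rfl
  rw [e1]
  exact P.perp h1 h2 hw _

end DSys.Parx.FredData

end Pool.Agent.EXO
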