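import Mathlib

/-!
Project EXO, chunk IDX-A, module IaLin: linear algebra with a positive definite hermitian form.
(Mathlib only.)

`PHF V` is a positive definite hermitian form, antilinear in the first variable.

PROOFS.  Make `V` (a fresh copy, or locally by `letI`) an inner product space with
`InnerProductSpace.Core` / `InnerProductSpace.ofCore`; then everything is in Mathlib.
* `exists_onb`: `stdOrthonormalBasis ℂ V` of the finite dimensional inner product space `V`
  (`OrthonormalBasis.sum_repr'`).
* `closed_range`: let `F := span (f i)`, finite dimensional.  Every `u` is `p + q` with `p ∈ F`,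
  `q ∈ Fᗮ`, and `q ∈ R` by hypothesis `hf` (`B (f i) q = 0` for all `i`).  So `u ∈ R ↔ p ∈ R ⊓ F`.
  If `p ∉ R ⊓ F =: F'` then, `F'` being finite dimensional, write `p = p' + w`, `p' ∈ F'`,
  `w ∈ F'ᗮ`, `w ≠ 0`, `w ∈ F`.  For `g ∈ R` write `g = g₁ + g₂`, `g₁ ∈ F`, `g₂ ∈ Fᗮ ⊆ R`; then
  `g₁ = g - g₂ ∈ R ⊓ F`, so `B w g = B w g₁ + B w g₂ = 0 + 0`.  By hypothesis `hu` then
  `B w u = 0`, but `B w u = B w p + B w q = B w p' + B w w + 0 = B w w ≠ 0`.
* `trace_invol`: let `τ` be a linear involution of the finite dimensional space `V` and `e` an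
  orthonormal basis (as in the statement).  `LinearMap.trace` of `τ` computed in the basis `e`
  is `∑ B (e j) (τ (e j))` (`LinearMap.trace_eq_matrix_trace` with the basis made from `e`, whose
  coordinates are `B (e j) ·`).  On the other hand `τ = 2 p - 1`, `p := (1 + τ)/2` is a projection
  onto `ker (τ - 1)` with kernel `ker (τ + 1)`; `LinearMap.IsProj.trace` or
  `LinearMap.IsIdempotentElem.trace`-type lemma gives `trace p = finrank (ker (τ - 1))` and
  `finrank V = finrank (ker (τ - 1)) + finrank (ker (τ + 1))`.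
-/

namespace Pool.Agent.EXO

/-- A positive definite hermitian form, antilinear in the first variable. -/
structure PHF (V : Type*) [AddCommGroup V] [Module ℂ V] where
  B : V → V → ℂ
  conj_symm : ∀ u v, (starRingEnd ℂ) (B u v) = B v u
  add_right : ∀ u v w, B u (v + w) = B u v + B u w
  smul_right : ∀ (c : ℂ) u v, B u (c • v) = c * B u v
  nonneg : ∀ u, 0 ≤ (B u u).re
  definite : ∀ u, B u u = 0 → u = 0

namespace PHF

variable {V : Type*} [AddCommGroup V] [Module ℂ V] (F : PHF V)

@[reducible] private def ialinCore : InnerProductSpace.Core ℂ V where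
  inner := F.B
  conj_inner_symm u v := F.conj_symm v u
  re_inner_nonneg u := F.nonneg u
  add_left u v w := by
    rw [← F.conj_symm w (u + v), F.add_right, map_add, F.conj_symm, F.conj_symm]
  smul_left u v c := by
    rw [← F.conj_symm v (c • u), F.smul_right, map_mul, F.conj_symm]
  definite u h := F.definite u h

theorem exists_onb [FiniteDimensional ℂ V] :
    ∃ (d : ℕ) (e : Fin d → V), (∀ j j', F.B (e j) (e j') = if j = j' then 1 else 0) ∧
      ∀ w, w = ∑ j, F.B (e j) w • e j := by
  let : NormedAddCommGroup V := @InnerProductSpace.Core.toNormedAddCommGroup ℂ V _ _ _ F.ialinCore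
  let : InnerProductSpace ℂ V := InnerProductSpace.ofCore F.ialinCore.toCore
  have hin : ∀ u v : V, inner ℂ u v = F.B u v := fun u v => rfl
  refine ⟨_, stdOrthonormalBasis ℂ V, ?_, ?_⟩
  · intro j j'
    rw [← hin]
    exact orthonormal_iff_ite.1 (stdOrthonormalBasis ℂ V).orthonormal j j'
  · intro w
    exact ((stdOrthonormalBasis ℂ V).sum_repr' w).symm

theorem closed_range (R : Submodule ℂ V) {n : ℕ} (f : Fin n → V)
    (hf : ∀ u, (∀ i, F.B (f i) u = 0) → u ∈ R) (u : V)
    (hu : ∀ w, (∀ g ∈ R, F.B w g = 0) → F.B w u = 0) : u ∈ R := by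
  let : NormedAddCommGroup V := @InnerProductSpace.Core.toNormedAddCommGroup ℂ V _ _ _ F.ialinCore
  let : InnerProductSpace ℂ V := InnerProductSpace.ofCore F.ialinCore.toCore
  have hin : ∀ u v : V, inner ℂ u v = F.B u v := fun u v => rfl
  set K : Submodule ℂ V := Submodule.span ℂ (Set.range f) with hK
  have : FiniteDimensional ℂ K := FiniteDimensional.span_of_finite ℂ (Set.finite_range f)
  have hKR : ∀ q ∈ Kᗮ, q ∈ R := by
    intro q hq
    refine hf q fun i => ?_
    rw [← hin]
    exact (Submodule.mem_orthogonal K q).1 hq _ (Submodule.subset_span ⟨i, rfl⟩)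
  have : FiniteDimensional ℂ (R ⊓ K : Submodule ℂ V) :=
    Submodule.finiteDimensional_of_le inf_le_right
  obtain ⟨p, hp, q, hq, hpq⟩ := K.exists_add_mem_mem_orthogonal u
  obtain ⟨p', hp', w, hw, hpw⟩ := (R ⊓ K).exists_add_mem_mem_orthogonal p
  have hwK : w ∈ K := by
    have h1 : w = p - p' := by rw [hpw]; abel
    rw [h1]
    exact K.sub_mem hp hp'.2
  have h0 : F.B w u = 0 := by
    refine hu w fun g hg => ?_
    obtain ⟨g1, hg1, g2, hg2, hgg⟩ := K.exists_add_mem_mem_orthogonal g
    have hg1R : g1 ∈ R := by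
      have h1 : g1 = g - g2 := by rw [hgg]; abel
      rw [h1]
      exact R.sub_mem hg (hKR g2 hg2)
    rw [← hin, hgg, inner_add_right]
    have h2 : inner ℂ w g1 = 0 := by
      have := (Submodule.mem_orthogonal' (R ⊓ K) w).1 hw g1 ⟨hg1R, hg1⟩
      exact this
    have h3 : inner ℂ w g2 = 0 := (Submodule.mem_orthogonal K g2).1 hg2 w hwK
    rw [h2, h3, add_zero]
  have h4 : inner ℂ w w = 0 := by
    rw [← hin, hpq, inner_add_right, hpw, inner_add_right] at h0
    have h2 : inner ℂ w p' = 0 := (Submodule.mem_orthogonal' (R ⊓ K) w).1 hw p' hp'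
    have h3 : inner ℂ w q = 0 := (Submodule.mem_orthogonal K q).1 hq w hwK
    rw [h2, h3, add_zero, zero_add] at h0
    exact h0
  have hw0 : w = 0 := inner_self_eq_zero.1 h4
  rw [hpq, hpw, hw0, add_zero]
  exact R.add_mem hp'.1 (hKR q hq)

theorem trace_invol [FiniteDimensional ℂ V] (τ : V →ₗ[ℂ] V) (hτ : ∀ v, τ (τ v) = v)
    {d : ℕ} (e : Fin d → V) (he : ∀ j j', F.B (e j) (e j') = if j = j' then 1 else 0)
    (hs : ∀ w, w = ∑ j, F.B (e j) w • e j) :
    ∑ j, F.B (e j) (τ (e j)) =
      (Module.finrank ℂ (LinearMap.ker (τ - LinearMap.id)) : ℂ) -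
        Module.finrank ℂ (LinearMap.ker (τ + LinearMap.id)) := by
  let E : V ≃ₗ[ℂ] (Fin d → ℂ) :=
    { toFun := fun w j => F.B (e j) w
      map_add' := fun u v => by
        ext j
        exact F.add_right _ _ _
      map_smul' := fun c v => by
        ext j
        exact F.smul_right _ _ _
      invFun := fun c => ∑ j, c j • e j
      left_inv := fun w => (hs w).symm
      right_inv := fun c => by
        ext j
        have hB : ∀ (s : Finset (Fin d)) (x : V),
            F.B x (∑ k ∈ s, c k • e k) = ∑ k ∈ s, c k * F.B x (e k) := by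
          intro s x
          induction s using Finset.induction_on with
          | empty =>
            simp only [Finset.sum_empty]
            have := F.smul_right 0 x 0
            simpa using this
          | insert a s ha ih =>
            rw [Finset.sum_insert ha, Finset.sum_insert ha, F.add_right, F.smul_right, ih]
        show F.B (e j) (∑ k, c k • e k) = c j
        rw [hB]
        simp [he] }
  let b : Module.Basis (Fin d) ℂ V := Module.Basis.ofEquivFun E
  have hbj : ∀ j, b j = e j := by
    intro j
    show (Module.Basis.ofEquivFun E) j = e j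
    rw [Module.Basis.coe_ofEquivFun]
    show ∑ k, (Pi.single j (1 : ℂ) : Fin d → ℂ) k • e k = e j
    simp [Pi.single_apply, ite_smul]
  have htr : LinearMap.trace ℂ V τ = ∑ j, F.B (e j) (τ (e j)) := by
    rw [LinearMap.trace_eq_matrix_trace ℂ b τ, Matrix.trace]
    refine Finset.sum_congr rfl fun j _ => ?_
    rw [Matrix.diag_apply, LinearMap.toMatrix_apply, hbj]
    rfl
  have hp : LinearMap.IsProj (LinearMap.ker (τ - LinearMap.id))
      ((2 : ℂ)⁻¹ • (LinearMap.id + τ)) := by
    constructor
    · intro x
      rw [LinearMap.mem_ker]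
      simp only [LinearMap.smul_apply, LinearMap.add_apply, LinearMap.id_apply,
        LinearMap.sub_apply, map_smul, map_add, hτ]
      have h0 : τ x - x + (x - τ x) = 0 := by abel
      rw [h0, smul_zero]
    · intro x hx
      rw [LinearMap.mem_ker, LinearMap.sub_apply, LinearMap.id_apply, sub_eq_zero] at hx
      rw [LinearMap.smul_apply, LinearMap.add_apply, LinearMap.id_apply, hx, ← two_smul ℂ x,
        smul_smul]
      norm_num
  have hq : LinearMap.IsProj (LinearMap.ker (τ + LinearMap.id))
      ((2 : ℂ)⁻¹ • (LinearMap.id - τ)) := by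
    constructor
    · intro x
      rw [LinearMap.mem_ker]
      simp only [LinearMap.smul_apply, LinearMap.add_apply, LinearMap.id_apply,
        LinearMap.sub_apply, map_smul, map_sub, hτ]
      have h0 : τ x + x - (x + τ x) = 0 := by abel
      rw [h0, smul_zero]
    · intro x hx
      rw [LinearMap.mem_ker, LinearMap.add_apply, LinearMap.id_apply, add_eq_zero_iff_eq_neg] at hx
      rw [LinearMap.smul_apply, LinearMap.sub_apply, LinearMap.id_apply, hx, sub_neg_eq_add,
        ← two_smul ℂ x, smul_smul]
      norm_num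
  have h1 := hp.trace
  have h2 := hq.trace
  rw [← htr, ← h1, ← h2, ← map_sub]
  congr 1
  rw [← smul_sub]
  ext x
  simp only [LinearMap.smul_apply, LinearMap.sub_apply, LinearMap.add_apply, LinearMap.id_apply]
  have : x + τ x - (x - τ x) = (2 : ℂ) • τ x := by
    rw [two_smul]
    abel
  rw [this, smul_smul]
  norm_num

end PHF

end Pool.Agent.EXO
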