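import Pool.Agent.EXO.IaFc
import Pool.Agent.EXO.IaFb
import Pool.Agent.EXO.IaLin

/-!
Project EXO, chunk IDX-A, module IaFd: the kernel is finite dimensional, closed range.

PROOFS.  Choose Fredholm data `F` (`exists_fredData` at `ε = ε₀`).
* `fin_N`: let `w ∈ N`.  For every `u` with `Q u = u`, `0 = ip w (u - op μ T' u)` (`N_perp` and
  `Q''_WD`), and `op μ T' u = ∑ ip (b' i) u • a i`, so
  `ip w u = ∑ ip (b' i) u * ip w (a i) = ip (∑ conj (ip w (a i)) • b' i) u`.  Both arguments are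
  `Q`-sections (`WD_b'`), so `w = ∑ conj (ip w (a i)) • b' i` (`eq_zero_of_ip_Sm`).  Thus `N` is
  contained in the span of a finite family: `Submodule.finiteDimensional_of_le`.
* `exists_OB`: `PHF.exists_onb` for `V = S.N` and `B w w' = ip w w'`.
* `hodge`: apply `PHF.closed_range` to `V := {u | Q u = u}` (a submodule), `B := ip`,
  `R := {g | ∃ v, WD v g}` (`WD.add`, `WD.smul`), `f := b'`: if `ip (b' i) u = 0` for all `i` then
  `op μ T' u = 0`, so `u = u - op μ T' u ∈ R` by `Q''_WD`.  If `ip w g = 0` for all `g ∈ R`, then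
  `w ∈ N` (take `g = D v`, `v ∈ Sm`), so `ip w u = 0`.  This gives `v` with `WD v u`; replace `v`
  by `v - ∑ ip (e j) v • e j` (`exists_OB`; `e j ∈ N` has weak derivative `0`).
-/

open MeasureTheory Filter Topology

namespace Pool.Agent.EXO

variable {X : Type*} [MetricSpace X] [CompactSpace X] [MeasurableSpace X] [BorelSpace X]
variable {H : Type*} [NormedAddCommGroup H] [InnerProductSpace ℂ H] [FiniteDimensional ℂ H]

open Ker

namespace DSys

variable {μ : Measure X} [IsFiniteMeasure μ] [μ.IsOpenPosMeasure] {S : DSys μ H} {ε₀ : ℝ}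

private lemma IaFd_T'_apply {P : S.Parx ε₀} {ε : ℝ} (F : P.FredData ε) (u : C(X, H)) :
    op μ F.T' u = ∑ i, ip μ (F.b' i) u • F.a i := by
  have h : op μ F.T' = ∑ i, op μ (rankOne (F.a i) (F.b' i)) := op_sum μ _ _
  rw [h, ContinuousLinearMap.sum_apply]
  exact Finset.sum_congr rfl fun i _ => op_rankOne μ _ _ _

private lemma IaFd_expand (B : S.OB) {w : C(X, H)} (hw : w ∈ S.N) (x : C(X, H)) :
    ip μ w x = ∑ j, ip μ w (B.e j) * ip μ (B.e j) x := by
  have h : ip μ (∑ j, ip μ (B.e j) w • B.e j) x = ∑ j, ip μ w (B.e j) * ip μ (B.e j) x := by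
    rw [ip_sum_left]
    refine Finset.sum_congr rfl fun j _ => ?_
    rw [ip_smul_left, ip_conj]
  rw [← B.span w hw] at h
  exact h

theorem fin_N (P : S.Parx ε₀) : FiniteDimensional ℂ S.N := by
  obtain ⟨F⟩ := P.exists_fredData P.ε₀_pos le_rfl
  have hle : S.N ≤ Submodule.span ℂ (Set.range F.b') := by
    intro w hw
    have hQw : S.Q w = w := hw.1
    have hQb : ∀ i, S.Q (F.b' i) = F.b' i := fun i => by
      obtain ⟨g, hg⟩ := F.WD_b' P.ε₀_pos le_rfl i
      exact hg.1
    have hz : w - ∑ i, (starRingEnd ℂ) (ip μ w (F.a i)) • F.b' i = 0 := by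
      apply S.eq_zero_of_ip_Sm
      · rw [map_sub, hQw, map_sum]
        congr 1
        refine Finset.sum_congr rfl fun i _ => ?_
        rw [map_smul, hQb]
      · intro v hv
        have h1 := N_perp P (F.Q''_WD P.ε₀_pos le_rfl (S.Q_Sm v hv)) hw
        rw [ip_sub_right, IaFd_T'_apply, ip_sum_right, sub_eq_zero] at h1
        rw [ip_sub_left, h1, ip_sum_left, sub_eq_zero]
        refine Finset.sum_congr rfl fun i _ => ?_
        rw [ip_smul_left, ip_smul_right, Complex.conj_conj, mul_comm]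
    rw [sub_eq_zero] at hz
    rw [hz]
    exact Submodule.sum_mem _ fun i _ => Submodule.smul_mem _ _
      (Submodule.subset_span ⟨i, rfl⟩)
  haveI : FiniteDimensional ℂ (Submodule.span ℂ (Set.range F.b')) :=
    FiniteDimensional.span_of_finite ℂ (Set.finite_range _)
  exact Submodule.finiteDimensional_of_le hle

/-- The form `ip` on a submodule. -/
private noncomputable def IaFd_phf (W : Submodule ℂ C(X, H)) (μ : Measure X) [IsFiniteMeasure μ]
    [μ.IsOpenPosMeasure] : PHF W where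
  B u v := ip μ (u : C(X, H)) (v : C(X, H))
  conj_symm u v := ip_conj μ _ _
  add_right u v w := ip_add_right μ _ _ _
  smul_right c u v := ip_smul_right μ _ _ _
  nonneg u := (ip_self_nonneg μ _).1
  definite u h := Subtype.ext (ip_self_eq_zero μ h)

theorem exists_OB (P : S.Parx ε₀) : Nonempty S.OB := by
  haveI := fin_N P
  obtain ⟨d, e, he, hs⟩ := (IaFd_phf S.N μ).exists_onb
  refine ⟨⟨d, fun j => (e j : C(X, H)), fun j => (e j).2, he, fun w hw => ?_⟩⟩
  have := congrArg (Subtype.val) (hs ⟨w, hw⟩)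
  rw [Submodule.coe_sum] at this
  exact this

/-- The submodule of the continuous `Q`-sections. -/
private def IaFd_V (S : DSys μ H) : Submodule ℂ C(X, H) where
  carrier := {u | S.Q u = u}
  zero_mem' := map_zero _
  add_mem' := fun {a b} ha hb => by
    show S.Q (a + b) = a + b
    rw [map_add, (show S.Q a = a from ha), (show S.Q b = b from hb)]
  smul_mem' := fun c a ha => by
    show S.Q (c • a) = c • a
    rw [map_smul, (show S.Q a = a from ha)]

/-- The range of the weak derivative. -/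
private def IaFd_R (S : DSys μ H) : Submodule ℂ (IaFd_V S) where
  carrier := {g | ∃ v, S.WD v (g : C(X, H))}
  zero_mem' := ⟨0, (mem_N_iff (S := S) 0).1 S.N.zero_mem⟩
  add_mem' := fun {a b} ha hb => by
    obtain ⟨u, hu⟩ := ha
    obtain ⟨v, hv⟩ := hb
    exact ⟨u + v, hu.add hv⟩
  smul_mem' := fun c a ha => by
    obtain ⟨u, hu⟩ := ha
    exact ⟨c • u, hu.smul c⟩

theorem hodge (P : S.Parx ε₀) {u : C(X, H)} (hu : S.Q u = u)
    (h : ∀ w ∈ S.N, ip μ w u = 0) :
    ∃ v, S.WD v u ∧ ∀ w ∈ S.N, ip μ w v = 0 := by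
  obtain ⟨F⟩ := P.exists_fredData P.ε₀_pos le_rfl
  have hQb : ∀ i, S.Q (F.b' i) = F.b' i := fun i => by
    obtain ⟨g, hg⟩ := F.WD_b' P.ε₀_pos le_rfl i
    exact hg.1
  have hR : (⟨u, hu⟩ : IaFd_V S) ∈ IaFd_R S := by
    refine (IaFd_phf (IaFd_V S) μ).closed_range (IaFd_R S)
      (fun i => (⟨F.b' i, hQb i⟩ : IaFd_V S)) ?_ ⟨u, hu⟩ ?_
    · rintro ⟨x, hx⟩ hx0
      have h0 : op μ F.T' x = 0 := by
        rw [IaFd_T'_apply]
        refine Finset.sum_eq_zero fun i _ => ?_
        have h1 : ip μ (F.b' i) x = 0 := hx0 i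
        rw [h1, zero_smul]
      have h2 := F.Q''_WD P.ε₀_pos le_rfl (u := x) hx
      rw [h0, sub_zero] at h2
      exact ⟨_, h2⟩
    · rintro ⟨w, hw⟩ hw0
      refine h w ⟨hw, fun v => ?_⟩
      have hDv : S.Q (S.D v : C(X, H)) = S.D v := S.Q_Sm _ (S.D v).2
      exact hw0 (⟨(S.D v : C(X, H)), hDv⟩ : IaFd_V S) ⟨_, WD.of_Sm v⟩
  obtain ⟨v, hv⟩ := hR
  obtain ⟨B⟩ := exists_OB P
  refine ⟨v - ∑ j, ip μ (B.e j) v • B.e j, ?_, fun w hw => ?_⟩
  · have h1 : S.WD (∑ j, ip μ (B.e j) v • B.e j) (∑ j, ip μ (B.e j) v • (0 : C(X, H))) :=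
      WD.sum _ fun j => ((mem_N_iff (S := S) _).1 (B.he j)).smul _
    have h2 := hv.sub h1
    have h3 : ((⟨u, hu⟩ : IaFd_V S) : C(X, H)) - ∑ j, ip μ (B.e j) v • (0 : C(X, H)) = u := by
      simp
    rw [h3] at h2
    exact h2
  · rw [ip_sub_right, IaFd_expand B hw v, ip_sum_right, sub_eq_zero]
    refine Finset.sum_congr rfl fun j _ => ?_
    rw [ip_smul_right, mul_comm]

end DSys

end Pool.Agent.EXO
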