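import Pool.Agent.EXO.IaGb

/-!
Project EXO, chunk IDX-A, module IaGc: the trace limit.

STATEMENT.  Let `r`, `rD` be kernels with `op μ rD v = op μ r (D v)` for all `v ∈ Sm` and
`star Q r = r`.  Then `tr (star (τ Q') rD) = - tr (star (τ (Q - op S0)) r)`.

PROOF.  For `0 < δ ≤ ε` let `q := ∫ t in δ..ε, K1 t` and `κ := K δ - K ε + ∫ t in δ..ε, R t`, so
`op μ q u ∈ Sm`-valued derivative: for every `t`, `op μ (K1 t) u ∈ Sm` and
`D (op μ (K1 t) u) = op μ (K2 t) u` (`P.smK1`).  With `S.τ_Sm`, `S.τ_D`: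
`op μ rD (τ (op μ (K1 t) u)) = op μ r (D (τ (op μ (K1 t) u))) = - op μ r (τ (op μ (K2 t) u))`,
and integrating over `[δ, ε]` (`op_int`, all operators are continuous linear)
`(op μ rD) ∘ τ ∘ (op μ q) = - (op μ r) ∘ τ ∘ (op μ κ)`   (`int_K2`), hence
`star (op μ rD ∘ τ) q = - star (op μ r ∘ τ) κ` (`op_star`, `op_injective`).   Therefore
`tr (star (τ ∘ op μ q) rD) = tr (star (op μ rD) (star τ q))` (`tr_star_comm'`)
`= tr (star (op μ rD ∘ τ) q) = - tr (star (op μ r ∘ τ) κ) = - tr (star (op μ r) (star τ κ))`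
`= - tr (star (τ ∘ op μ κ) r)` (`star_comp`, `tr_star_comm'`).
Let `δ → 0` within `(0, ε]`.  `op μ q → Q'` strongly and boundedly (`tendsto_Q'`, `norm_opq`), so
`star (τ ∘ op μ q) rD → star (τ ∘ Q') rD` (`star_op_tendsto`).  `op μ κ → Q - op μ (S0 ε)`
strongly (`P.lim`, `tendsto_R`, `continuous_op`) and boundedly (`P.bK`, `norm_op_le`, `P.bR`), so
`star (τ ∘ op μ κ) r → star (τ ∘ (Q - op μ (S0 ε))) r`.  Use `continuous_tr` and uniqueness of
limits.
-/

open MeasureTheory Filter Topology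

namespace Pool.Agent.EXO

variable {X : Type*} [MetricSpace X] [CompactSpace X] [MeasurableSpace X] [BorelSpace X]
variable {H : Type*} [NormedAddCommGroup H] [InnerProductSpace ℂ H] [FiniteDimensional ℂ H]

open Ker

namespace DSys.Parx

variable {μ : Measure X} [IsFiniteMeasure μ] {S : DSys μ H} {ε₀ : ℝ} (P : S.Parx ε₀)

private theorem tau_q [μ.IsOpenPosMeasure] {δ ε : ℝ} (h0 : 0 < δ) (h1 : δ ≤ ε) (h2 : ε ≤ ε₀)
    (r rD : Ker X H) (hr : ∀ v : S.Sm, op μ rD v = op μ r (S.D v)) (u : C(X, H)) :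
    op μ rD (S.τ (op μ (∫ t in δ..ε, P.K1 t) u)) =
      - op μ r (S.τ (op μ (P.K δ - P.K ε + ∫ t in δ..ε, P.R t) u)) := by
  have e1 : op μ (∫ t in δ..ε, P.K1 t) u = ∫ t in δ..ε, op μ (P.K1 t) u :=
    op_int μ u (P.intK1' h0 h1 h2)
  have e2 : op μ (∫ t in δ..ε, P.K2 t) u = ∫ t in δ..ε, op μ (P.K2 t) u :=
    op_int μ u (P.intK2' h0 h1 h2)
  have i1 : IntervalIntegrable (fun t => op μ (P.K1 t) u) volume δ ε :=
    P.intK1 h0.le h1 h2 u
  have i2 : IntervalIntegrable (fun t => op μ (P.K2 t) u) volume δ ε := by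
    have hc : ContinuousOn (fun t => op μ (P.K2 t) u) (Set.uIcc δ ε) := by
      rw [Set.uIcc_of_le h1]
      refine (continuous_op μ u).comp_continuousOn (P.cK2.mono ?_)
      intro t ht
      exact ⟨lt_of_lt_of_le h0 ht.1, ht.2.trans h2⟩
    exact hc.intervalIntegrable
  have e3 := ((op μ rD).comp S.τ).intervalIntegral_comp_comm i1
  have e4 := ((op μ r).comp S.τ).intervalIntegral_comp_comm i2
  simp only [ContinuousLinearMap.comp_apply] at e3 e4
  rw [← P.int_K2 h0 h1 h2, e1, e2, ← e3, ← e4, ← intervalIntegral.integral_neg]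
  apply intervalIntegral.integral_congr
  intro t ht
  rw [Set.uIcc_of_le h1] at ht
  obtain ⟨hm, hD⟩ := P.smK1 t ⟨lt_of_lt_of_le h0 ht.1, ht.2.trans h2⟩ u
  have e5 := hr ⟨S.τ (op μ (P.K1 t) u), S.τ_Sm _ hm⟩
  have e6 := S.τ_D ⟨op μ (P.K1 t) u, hm⟩
  simp only at e5 e6 ⊢
  rw [e5, e6, hD, map_neg]

private theorem tr_q [μ.IsOpenPosMeasure] {δ ε : ℝ} (h0 : 0 < δ) (h1 : δ ≤ ε) (h2 : ε ≤ ε₀)
    (r rD : Ker X H) (hr : ∀ v : S.Sm, op μ rD v = op μ r (S.D v)) :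
    tr μ (star (S.τ.comp (op μ (∫ t in δ..ε, P.K1 t))) rD) =
      - tr μ (star (S.τ.comp (op μ (P.K δ - P.K ε + ∫ t in δ..ε, P.R t))) r) := by
  rw [tr_star_comm', tr_star_comm', ← star_comp, ← star_comp, eq_neg_iff_add_eq_zero, ← tr_add]
  have h3 : (star ((op μ rD).comp S.τ) (∫ t in δ..ε, P.K1 t) +
      star ((op μ r).comp S.τ) (P.K δ - P.K ε + ∫ t in δ..ε, P.R t) : Ker X H) = 0 := by
    apply op_injective μ
    have h4 : op μ (0 : Ker X H) = 0 := by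
      have := op_sub μ (0 : Ker X H) 0
      rwa [sub_zero, sub_self] at this
    rw [op_add, op_star, op_star, h4]
    apply ContinuousLinearMap.ext
    intro u
    have := P.tau_q h0 h1 h2 r rD hr u
    change op μ rD (S.τ (op μ (∫ t in δ..ε, P.K1 t) u)) +
      op μ r (S.τ (op μ (P.K δ - P.K ε + ∫ t in δ..ε, P.R t) u)) = 0
    rw [this, neg_add_cancel]
  rw [h3]
  have := tr_sub μ (0 : Ker X H) 0
  rwa [sub_zero, sub_self] at this

theorem tr_limit [μ.IsOpenPosMeasure] {ε : ℝ} (h1 : 0 < ε) (h2 : ε ≤ ε₀) (r rD : Ker X H)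
    (hr : ∀ v : S.Sm, op μ rD v = op μ r (S.D v)) :
    tr μ (star (S.τ.comp (P.Q' ε)) rD) =
      - tr μ (star (S.τ.comp (S.Q - op μ (P.S0 ε))) r) := by
  have hpos : ∀ᶠ δ in 𝓝[>] (0 : ℝ), δ ∈ Set.Ioc 0 ε := Ioc_mem_nhdsGT h1
  obtain ⟨C', hC'⟩ := P.norm_opq h1 h2
  have t1 : Tendsto (fun δ => star (S.τ.comp (op μ (∫ t in δ..ε, P.K1 t))) rD) (𝓝[>] 0)
      (𝓝 (star (S.τ.comp (P.Q' ε)) rD)) := by
    apply star_op_tendsto _ _ (‖S.τ‖ * C')
    · filter_upwards [hpos] with δ hδ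
      exact (ContinuousLinearMap.opNorm_comp_le _ _).trans
        (mul_le_mul_of_nonneg_left (hC' δ hδ) (norm_nonneg _))
    · intro u
      exact (S.τ.continuous.tendsto _).comp (P.tendsto_Q' h1 h2 u)
  have hRb : ∀ᶠ δ in 𝓝[>] (0 : ℝ), ‖∫ t in δ..ε, P.R t‖ < ‖∫ t in (0 : ℝ)..ε, P.R t‖ + 1 :=
    (P.tendsto_R h1 h2).norm.eventually (Iio_mem_nhds (lt_add_one _))
  have t2 : Tendsto (fun δ => star (S.τ.comp
      (op μ (P.K δ - P.K ε + ∫ t in δ..ε, P.R t))) r) (𝓝[>] 0)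
      (𝓝 (star (S.τ.comp (S.Q - op μ (P.S0 ε))) r)) := by
    apply star_op_tendsto _ _ (‖S.τ‖ * (P.C + ‖op μ (P.K ε)‖ +
      (‖∫ t in (0 : ℝ)..ε, P.R t‖ + 1) * μ.real Set.univ))
    · filter_upwards [hpos, hRb] with δ hδ hR
      refine (ContinuousLinearMap.opNorm_comp_le _ _).trans
        (mul_le_mul_of_nonneg_left ?_ (norm_nonneg _))
      rw [op_add, op_sub]
      refine (norm_add_le _ _).trans (add_le_add ((norm_sub_le _ _).trans
        (add_le_add (P.bK δ ⟨hδ.1, hδ.2.trans h2⟩) le_rfl)) ?_)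
      exact (norm_op_le μ _).trans (mul_le_mul_of_nonneg_right hR.le (by positivity))
    · intro u
      suffices hs : Tendsto (fun δ => op μ (P.K δ - P.K ε + ∫ t in δ..ε, P.R t) u) (𝓝[>] 0)
          (𝓝 ((S.Q - op μ (P.S0 ε)) u)) from (S.τ.continuous.tendsto _).comp hs
      have e1 : (S.Q - op μ (P.S0 ε)) u =
          S.Q u - op μ (P.K ε) u + op μ (∫ t in (0 : ℝ)..ε, P.R t) u := by
        rw [S0, op_sub]
        change S.Q u - (op μ (P.K ε) u - op μ (∫ t in (0 : ℝ)..ε, P.R t) u) = _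
        abel
      rw [e1]
      have e2 : (fun δ => op μ (P.K δ - P.K ε + ∫ t in δ..ε, P.R t) u) =
          fun δ => op μ (P.K δ) u - op μ (P.K ε) u + op μ (∫ t in δ..ε, P.R t) u := by
        funext δ
        rw [op_add, op_sub]
        rfl
      rw [e2]
      exact ((P.lim u).sub tendsto_const_nhds).add
        (((continuous_op μ u).tendsto _).comp (P.tendsto_R h1 h2))
  have t3 := ((continuous_tr μ).tendsto _).comp t1
  have t4 := (((continuous_tr μ).tendsto _).comp t2).neg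
  refine tendsto_nhds_unique_of_eventuallyEq t3 t4 ?_
  filter_upwards [hpos] with δ hδ
  exact P.tr_q hδ.1 hδ.2 h2 r rD hr

end DSys.Parx

end Pool.Agent.EXO
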