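import Pool.Agent.EXO.IaFd
import Pool.Agent.EXO.IaGc

/-!
Project EXO, chunk IDX-A, module IaFe: the kernel identity
`S₁ - Q' (R D) = Π + ∑ c_i ⟨g_i, ·⟩`.

PROOFS.  `F : P.FredData ε`, `B : S.OB`, `Π := op μ B.pi`, so `Π u = ∑ ip (e j) u • e j`.
* `exists_c`: `a_i - Π a_i` is a `Q`-section orthogonal to `N` (expand `w ∈ N` in the basis,
  `B.span`, `B.on`); use `hodge`.
* `ker_id`: let `g_i`, `c_i` be as in the statement.  Claim: for `WD u h`
  `op μ S1 u - Q' (op μ rD u) = Π u + ∑ ip (g_i) u • c_i`.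
  Put `z := Q'' h - u + Π u + ∑ ip (b'_i) h • c_i`.  By `Q''_WD` (`Q h = h`), `B.he`, `hc`:
  `WD z (h - op μ T' h - h + 0 + ∑ ip (b'_i) h • (a_i - Π a_i)) = WD z (- Π (op μ T' h))`.
  The function `y := Π (op μ T' h)` is in `N`, and `ip y y = 0` by `N_perp` (for `WD z (-y)`), so
  `y = 0` and `z ∈ N`.  Moreover `ip w z = 0` for `w ∈ N`: `Q''_perp`, `ip w (u - Π u) = 0`,
  `ip w (c_i) = 0`.  So `z = 0`.  Now `Q'' h = Q' h + Q' (op μ r h) = u - op μ S1 u +
  Q' (op μ rD u)` (`Q'_WD`, `rD_row`), and `ip (b'_i) h = ip (g_i) u` (`WD.symm`).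
  The claim extends from `Sm` to all `u` with `Q u = u` by `S.dense` and continuity, and to all
  `u` since both sides do not change if `u` is replaced by `Q u` (`S1_opQ`, `rD_opQ`, `Q_symm`,
  `Q e_j = e_j`, `Q g_i = g_i`).  So `op μ` of both sides of `ker_id` agree (`op_star`,
  `op_rankOne`); `op_injective`.
-/

open MeasureTheory Filter Topology

namespace Pool.Agent.EXO

variable {X : Type*} [MetricSpace X] [CompactSpace X] [MeasurableSpace X] [BorelSpace X]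
variable {H : Type*} [NormedAddCommGroup H] [InnerProductSpace ℂ H] [FiniteDimensional ℂ H]

open Ker

namespace DSys.Parx.FredData

variable {μ : Measure X} [IsFiniteMeasure μ] [μ.IsOpenPosMeasure] {S : DSys μ H} {ε₀ : ℝ}
  {P : S.Parx ε₀} {ε : ℝ}

private lemma IaFe_T'_apply (F : P.FredData ε) (u : C(X, H)) :
    op μ F.T' u = ∑ i, ip μ (F.b' i) u • F.a i := by
  have h : op μ F.T' = ∑ i, op μ (rankOne (F.a i) (F.b' i)) := op_sum μ _ _
  rw [h, ContinuousLinearMap.sum_apply]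
  exact Finset.sum_congr rfl fun i _ => op_rankOne μ _ _ _

private lemma IaFe_pi_apply (B : S.OB) (u : C(X, H)) :
    op μ B.pi u = ∑ j, ip μ (B.e j) u • B.e j := by
  have h : op μ B.pi = ∑ j, op μ (rankOne (B.e j) (B.e j)) := op_sum μ _ _
  rw [h, ContinuousLinearMap.sum_apply]
  exact Finset.sum_congr rfl fun i _ => op_rankOne μ _ _ _

private lemma IaFe_pi_mem (B : S.OB) (u : C(X, H)) : op μ B.pi u ∈ S.N := by
  rw [IaFe_pi_apply]
  exact Submodule.sum_mem _ fun j _ => Submodule.smul_mem _ _ (B.he j)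

private lemma IaFe_expand (B : S.OB) {w : C(X, H)} (hw : w ∈ S.N) (x : C(X, H)) :
    ip μ w (x - op μ B.pi x) = 0 := by
  have h : ip μ (∑ j, ip μ (B.e j) w • B.e j) x = ∑ j, ip μ w (B.e j) * ip μ (B.e j) x := by
    rw [ip_sum_left]
    refine Finset.sum_congr rfl fun j _ => ?_
    rw [ip_smul_left, ip_conj]
  rw [← B.span w hw] at h
  rw [ip_sub_right, h, IaFe_pi_apply, ip_sum_right, sub_eq_zero]
  refine Finset.sum_congr rfl fun j _ => ?_
  rw [ip_smul_right, mul_comm]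

theorem exists_c (F : P.FredData ε) (B : S.OB) :
    ∃ c : Fin F.n → C(X, H), ∀ i, S.WD (c i) (F.a i - op μ B.pi (F.a i)) ∧
      ∀ w ∈ S.N, ip μ w (c i) = 0 := by
  have h : ∀ i, ∃ v, S.WD v (F.a i - op μ B.pi (F.a i)) ∧ ∀ w ∈ S.N, ip μ w v = 0 := by
    intro i
    refine hodge P ?_ fun w hw => IaFe_expand B hw _
    rw [map_sub, S.Q_Sm _ (F.ha i), (IaFe_pi_mem B (F.a i)).1]
  choose c hc using h
  exact ⟨c, hc⟩

private lemma IaFe_claim (F : P.FredData ε) (B : S.OB) (h1 : 0 < ε) (h2 : ε ≤ ε₀)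
    (g c : Fin F.n → C(X, H)) (hg : ∀ i, S.WD (F.b' i) (g i))
    (hc : ∀ i, S.WD (c i) (F.a i - op μ B.pi (F.a i)) ∧ ∀ w ∈ S.N, ip μ w (c i) = 0)
    {u h : C(X, H)} (hu : S.WD u h) :
    op μ (P.S1 ε) u - P.Q' ε (op μ F.rD u) = op μ B.pi u + ∑ i, ip μ (g i) u • c i := by
  obtain ⟨z, hz⟩ : ∃ z, z = F.Q'' h - u + op μ B.pi u + ∑ i, ip μ (F.b' i) h • c i := ⟨_, rfl⟩
  obtain ⟨y, hy⟩ : ∃ y, y = op μ B.pi (op μ F.T' h) := ⟨_, rfl⟩
  have hyN : y ∈ S.N := by rw [hy]; exact IaFe_pi_mem B _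
  have hW : S.WD z (-y) := by
    have e1 := ((F.Q''_WD h1 h2 hu.2.1).sub hu).add
      ((mem_N_iff (S := S) _).1 (IaFe_pi_mem B u))
    have e2 : S.WD (∑ i, ip μ (F.b' i) h • c i)
        (∑ i, ip μ (F.b' i) h • (F.a i - op μ B.pi (F.a i))) :=
      WD.sum _ fun i => (hc i).1.smul _
    have e3 := e1.add e2
    rw [← hz] at e3
    have e4 : h - op μ F.T' h - h + 0 + ∑ i, ip μ (F.b' i) h • (F.a i - op μ B.pi (F.a i))
        = -y := by
      have e5 : ∑ i, ip μ (F.b' i) h • (F.a i - op μ B.pi (F.a i))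
          = op μ F.T' h - op μ B.pi (op μ F.T' h) := by
        rw [IaFe_T'_apply, map_sum, ← Finset.sum_sub_distrib]
        refine Finset.sum_congr rfl fun i _ => ?_
        rw [map_smul, smul_sub]
      rw [e5, hy]
      abel
    rw [e4] at e3
    exact e3
  have hy0 : y = 0 := by
    apply ip_self_eq_zero μ
    have := N_perp P hW hyN
    have e : -y = (-1 : ℂ) • y := by simp
    rw [e, ip_smul_right] at this
    simpa using this
  rw [hy0, neg_zero] at hW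
  have hzN : z ∈ S.N := (mem_N_iff (S := S) z).2 hW
  have hz0 : z = 0 := by
    apply ip_self_eq_zero μ
    have e1 : z = F.Q'' h - (u - op μ B.pi u) + ∑ i, ip μ (F.b' i) h • c i := by
      rw [hz]; abel
    have e2 : ip μ z (F.Q'' h - (u - op μ B.pi u) + ∑ i, ip μ (F.b' i) h • c i) = 0 := by
      rw [ip_add_right, ip_sub_right, F.Q''_perp h1 h2 hzN, IaFe_expand B hzN, ip_sum_right,
        sub_zero, zero_add]
      refine Finset.sum_eq_zero fun i _ => ?_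
      rw [ip_smul_right, (hc i).2 z hzN, mul_zero]
    rwa [← e1] at e2
  have hQ : F.Q'' h = u - op μ (P.S1 ε) u + P.Q' ε (op μ F.rD u) := by
    have e : F.Q'' h = P.Q' ε h + P.Q' ε (op μ F.r h) := rfl
    rw [e, P.Q'_WD h1 h2 hu, F.rD_row h1 h2 hu]
  have hS : ∑ i, ip μ (F.b' i) h • c i = ∑ i, ip μ (g i) u • c i := by
    refine Finset.sum_congr rfl fun i _ => ?_
    rw [WD.symm P (hg i) hu]
  rw [hQ, hS, hz0] at hz
  have e : op μ B.pi u + ∑ i, ip μ (g i) u • c i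
      - (op μ (P.S1 ε) u - P.Q' ε (op μ F.rD u))
      = u - op μ (P.S1 ε) u + P.Q' ε (op μ F.rD u) - u + op μ B.pi u
        + ∑ i, ip μ (g i) u • c i := by abel
  rw [← hz] at e
  exact (sub_eq_zero.1 e).symm

theorem ker_id (F : P.FredData ε) (B : S.OB) (h1 : 0 < ε) (h2 : ε ≤ ε₀)
    (g c : Fin F.n → C(X, H)) (hg : ∀ i, S.WD (F.b' i) (g i))
    (hc : ∀ i, S.WD (c i) (F.a i - op μ B.pi (F.a i)) ∧ ∀ w ∈ S.N, ip μ w (c i) = 0) :
    P.S1 ε - star (P.Q' ε) F.rD = B.pi + ∑ i, rankOne (c i) (g i) := by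
  apply op_injective μ
  obtain ⟨L, hL⟩ : ∃ L, L = op μ (P.S1 ε) - (P.Q' ε).comp (op μ F.rD) := ⟨_, rfl⟩
  obtain ⟨M, hM⟩ : ∃ M, M = op μ (B.pi + ∑ i, rankOne (c i) (g i)) := ⟨_, rfl⟩
  have hLa : ∀ u, L u = op μ (P.S1 ε) u - P.Q' ε (op μ F.rD u) := fun u => by rw [hL]; rfl
  have hMa : ∀ u, M u = op μ B.pi u + ∑ i, ip μ (g i) u • c i := fun u => by
    rw [hM, op_add, op_sum, ContinuousLinearMap.add_apply, ContinuousLinearMap.sum_apply]
    congr 1
    exact Finset.sum_congr rfl fun i _ => op_rankOne μ _ _ _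
  have hSm : Set.EqOn L M (S.Sm : Set C(X, H)) := by
    intro v hv
    rw [hLa, hMa]
    exact IaFe_claim F B h1 h2 g c hg hc (WD.of_Sm (⟨v, hv⟩ : S.Sm))
  have hcl : Set.EqOn L M (closure (S.Sm : Set C(X, H))) :=
    hSm.closure L.continuous M.continuous
  have hLM : L = M := by
    ext1 u
    have e1 : L (S.Q u) = M (S.Q u) := hcl (S.dense _ (S.Q_idem u))
    have e2 : L (S.Q u) = L u := by
      rw [hLa, hLa, P.S1_opQ h1 h2, F.rD_opQ h1 h2]
    have e3 : M (S.Q u) = M u := by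
      rw [hMa, hMa, IaFe_pi_apply, IaFe_pi_apply]
      congr 1
      · refine Finset.sum_congr rfl fun j _ => ?_
        rw [← S.Q_symm, (B.he j).1]
      · refine Finset.sum_congr rfl fun i _ => ?_
        rw [← S.Q_symm, (hg i).2.1]
    rw [← e2, e1, e3]
  rw [op_sub, op_star, ← hL, ← hM, hLM]

end DSys.Parx.FredData

end Pool.Agent.EXO
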