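import Pool.Agent.EXO.IaFe

/-!
Project EXO, chunk IDX-A, module IaFf: the trace identity `2 Tr(τ Π) = Tr(τ S₀) + Tr(τ S₁)`.

PROOFS.  `F : P.FredData ε`, `B : S.OB`, `Π := op μ B.pi`, so `Π u = ∑ ip (e j) u • e j`.
* `pi_T'`: `op μ` of the left side at `u` is `Π (op μ T' u) = Π (op μ T' (Q u))`
  (`ip (b'_i) (Q u) = ip (b'_i) u`), and `Q u - op μ T' (Q u)` is a weak derivative (`Q''_WD`), so
  `Π` of it is `0` (`N_perp`): `Π (op μ T' (Q u)) = Π (Q u) = Π u`.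
* `trace_id`: apply `star τ` and `tr μ` to `ker_id` (`tr_star_rankOne`, `star_comp`):
  `tr (τ S1) - tr (star (τ ∘ Q') rD) = tr (τ π) + ∑ ip (g_i) (τ c_i)`.
  `WD (τ c_i) (- τ (a_i - Π a_i))` (`WD.tau`) and `WD b'_i g_i` give (`WD.symm`)
  `ip (g_i) (τ c_i) = - ip (b'_i) (τ a_i) + ip (b'_i) (τ (Π a_i))`; summing,
  `∑ = - tr (τ T') + tr (star (τ ∘ Π) T') = - tr (τ T') + tr (τ π)` by `pi_T'`, `star_comp`.
  By `T'_eq`, `tr (τ T') = tr (τ S0) - tr (star (τ ∘ (Q - op μ S0)) r)`, and by `tr_limit` (with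
  `rD_row` for `WD.of_Sm v`) `tr (star (τ ∘ Q') rD) = - tr (star (τ ∘ (Q - op μ S0)) r)`.
  Combine.
-/

open MeasureTheory Filter Topology

namespace Pool.Agent.EXO

variable {X : Type*} [MetricSpace X] [CompactSpace X] [MeasurableSpace X] [BorelSpace X]
variable {H : Type*} [NormedAddCommGroup H] [InnerProductSpace ℂ H] [FiniteDimensional ℂ H]

open Ker

namespace DSys.Parx.FredData

variable {μ : Measure X} [IsFiniteMeasure μ] [μ.IsOpenPosMeasure] {S : DSys μ H} {ε₀ : ℝ}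
  {P : S.Parx ε₀} {ε : ℝ}

omit [μ.IsOpenPosMeasure] in
private theorem IaFf_op_pi (B : S.OB) (u : C(X, H)) :
    op μ B.pi u = ∑ j, ip μ (B.e j) u • B.e j := by
  unfold DSys.OB.pi
  rw [op_sum, _root_.sum_apply]
  exact Finset.sum_congr rfl (fun j _ => op_rankOne μ _ _ _)

omit [μ.IsOpenPosMeasure] in
private theorem IaFf_op_T' (F : P.FredData ε) (u : C(X, H)) :
    op μ F.T' u = ∑ i, ip μ (F.b' i) u • F.a i := by
  unfold DSys.Parx.FredData.T'
  rw [op_sum, _root_.sum_apply]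
  exact Finset.sum_congr rfl (fun j _ => op_rankOne μ _ _ _)

private theorem IaFf_ip (F : P.FredData ε) (B : S.OB) (h1 : 0 < ε) (h2 : ε ≤ ε₀) (u : C(X, H))
    (j : Fin B.d) : ip μ (B.e j) (op μ F.T' u) = ip μ (B.e j) u := by
  have hT : op μ F.T' (S.Q u) = op μ F.T' u := by
    rw [IaFf_op_T', IaFf_op_T']
    refine Finset.sum_congr rfl (fun i _ => ?_)
    obtain ⟨g, hg⟩ := F.WD_b' h1 h2 i
    rw [← S.Q_symm, hg.1]
  have hW := F.Q''_WD h1 h2 (u := S.Q u) (S.Q_idem u)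
  have hp := DSys.N_perp P hW (B.he j)
  rw [ip_sub_right, hT, sub_eq_zero] at hp
  rw [← hp, ← S.Q_symm, (B.he j).1]

theorem pi_T' (F : P.FredData ε) (B : S.OB) (h1 : 0 < ε) (h2 : ε ≤ ε₀) :
    star (op μ B.pi) F.T' = B.pi := by
  apply op_injective μ
  rw [op_star]
  refine ContinuousLinearMap.ext (fun u => ?_)
  rw [ContinuousLinearMap.comp_apply, IaFf_op_pi, IaFf_op_pi]
  exact Finset.sum_congr rfl (fun j _ => by rw [IaFf_ip F B h1 h2 u j])

end DSys.Parx.FredData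

theorem DSys.Parx.trace_id {μ : Measure X} [IsFiniteMeasure μ] [μ.IsOpenPosMeasure]
    {S : DSys μ H} {ε₀ : ℝ} (P : S.Parx ε₀) (B : S.OB) {ε : ℝ} (h1 : 0 < ε) (h2 : ε ≤ ε₀) :
    2 * tr μ (star S.τ B.pi) = tr μ (star S.τ (P.S0 ε)) + tr μ (star S.τ (P.S1 ε)) := by
  obtain ⟨F⟩ := DSys.Parx.exists_fredData P h1 h2
  choose g hg using F.WD_b' h1 h2
  obtain ⟨c, hc⟩ := F.exists_c B
  have hker := F.ker_id B h1 h2 g c hg hc
  have hk2 := congrArg (fun k => tr μ (star S.τ k)) hker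
  simp only [star_sub_right, star_add_right, star_sum_right, star_rankOne, tr_sub, tr_add,
    tr_sum, tr_rankOne] at hk2
  rw [← star_comp] at hk2
  have hlim := DSys.Parx.tr_limit P h1 h2 F.r F.rD
    (fun v => (F.rD_row h1 h2 (DSys.WD.of_Sm v)).symm)
  rw [hlim] at hk2
  have hsum : ∀ i, ip μ (g i) (S.τ (c i)) =
      - ip μ (F.b' i) (S.τ (F.a i)) + ip μ (F.b' i) (S.τ (op μ B.pi (F.a i))) := by
    intro i
    have h := DSys.WD.symm P (hg i) (DSys.WD.tau (hc i).1)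
    rw [h, map_sub, neg_sub, ip_sub_right]
    ring
  have hT1 : ∑ i, ip μ (F.b' i) (S.τ (F.a i)) = tr μ (star S.τ F.T') := by
    unfold DSys.Parx.FredData.T'
    rw [star_sum_right, tr_sum]
    exact Finset.sum_congr rfl (fun i _ => (tr_star_rankOne μ _ _ _).symm)
  have hT2 : ∑ i, ip μ (F.b' i) (S.τ (op μ B.pi (F.a i))) = tr μ (star S.τ B.pi) := by
    have e : star S.τ B.pi = star (S.τ.comp (op μ B.pi)) F.T' := by
      rw [star_comp, F.pi_T' B h1 h2]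
    rw [e]
    unfold DSys.Parx.FredData.T'
    rw [star_sum_right, tr_sum]
    refine Finset.sum_congr rfl (fun i _ => ?_)
    rw [tr_star_rankOne]
    rfl
  have hT3 : tr μ (star S.τ F.T') = tr μ (star S.τ (P.S0 ε)) -
      tr μ (star (S.τ.comp (S.Q - op μ (P.S0 ε))) F.r) := by
    rw [F.T'_eq h1 h2, star_sub_right, tr_sub, star_comp]
  rw [Finset.sum_congr rfl (fun i _ => hsum i), Finset.sum_add_distrib, Finset.sum_neg_distrib,
    hT1, hT2, hT3] at hk2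
  linear_combination -hk2

end Pool.Agent.EXO
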