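import Pool.Agent.EXO.IaFf

/-!
Project EXO, chunk IDX-A, module IaFg: the index as a limit of traces.

`Np`, `Nm` are the `+1` and `-1` eigenspaces of `τ` in the kernel `N` of the system.

PROOFS.
* `tr_pi`: `tr (star τ B.pi) = ∑ ip (e j) (τ (e j))` (`tr_star_rankOne`).  `τ` restricts to a
  linear involution of the finite dimensional space `S.N` (`tau_mem_N`, `τ_sq`); apply
  `PHF.trace_invol` with `V = S.N`, `B w w' = ip w w'`; the kernels of `τ ∓ 1` on `S.N` are
  linearly equivalent to `Np`, `Nm` (`finrank` of comap/map under the subtype).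
* `index_tendsto`: by `trace_id` and the definitions of `S0`, `S1` for `0 < ε ≤ ε₀`:
  `tr (star τ (K ε)) = tr (star τ B.pi) + tr (star τ (∫ t in 0..ε, R t))
  - (1/2) tr (star τ (∫ t in 0..ε, DW t))`, and the last two terms are at most
  `finrank H * ‖τ‖ * C * ε * μ(X)` in norm (`norm_tr_le`, `norm_star_le`,
  `intervalIntegral.norm_integral_le_of_norm_le_const`).
-/

open MeasureTheory Filter Topology

namespace Pool.Agent.EXO

variable {X : Type*} [MetricSpace X] [CompactSpace X] [MeasurableSpace X] [BorelSpace X]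
variable {H : Type*} [NormedAddCommGroup H] [InnerProductSpace ℂ H] [FiniteDimensional ℂ H]

open Ker

namespace DSys

variable {μ : Measure X} [IsFiniteMeasure μ] {ε₀ : ℝ}

/-- The even part of the kernel. -/
noncomputable def Np (S : DSys μ H) : Submodule ℂ C(X, H) :=
  S.N ⊓ LinearMap.ker ((S.τ : C(X, H) →ₗ[ℂ] C(X, H)) - LinearMap.id)

/-- The odd part of the kernel. -/
noncomputable def Nm (S : DSys μ H) : Submodule ℂ C(X, H) :=
  S.N ⊓ LinearMap.ker ((S.τ : C(X, H) →ₗ[ℂ] C(X, H)) + LinearMap.id)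

variable {S : DSys μ H} [μ.IsOpenPosMeasure]

theorem tr_pi (P : S.Parx ε₀) (B : S.OB) :
    tr μ (star S.τ B.pi) = (Module.finrank ℂ S.Np : ℂ) - Module.finrank ℂ S.Nm := by
  have hfd : FiniteDimensional ℂ S.N := fin_N P
  let F : PHF S.N :=
    { B := fun w w' => ip μ (w : C(X, H)) (w' : C(X, H))
      conj_symm := fun u v => ip_conj μ _ _
      add_right := fun u v w => ip_add_right μ _ _ _
      smul_right := fun c u v => ip_smul_right μ c _ _
      nonneg := fun u => (ip_self_nonneg μ _).1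
      definite := fun u h => Subtype.ext (ip_self_eq_zero μ h) }
  let τ' : S.N →ₗ[ℂ] S.N :=
    (S.τ : C(X, H) →ₗ[ℂ] C(X, H)).restrict (fun w hw => tau_mem_N hw)
  have hτ' : ∀ w : S.N, ((τ' w : S.N) : C(X, H)) = S.τ (w : C(X, H)) := fun w => rfl
  have h1 := F.trace_invol τ' (fun v => Subtype.ext (by
      rw [hτ', hτ']
      exact S.τ_sq _ v.2.1)) (fun j => (⟨B.e j, B.he j⟩ : S.N)) (fun j j' => B.on j j')
    (fun w => Subtype.ext (by
      rw [AddSubmonoidClass.coe_finsetSum]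
      exact B.span w w.2))
  have h2 : tr μ (star S.τ B.pi) = ∑ j, ip μ (B.e j) (S.τ (B.e j)) := by
    unfold DSys.OB.pi
    rw [star_sum_right, tr_sum]
    exact Finset.sum_congr rfl fun j _ => tr_star_rankOne μ _ _ _
  have h3 : (LinearMap.ker (τ' - LinearMap.id)).map S.N.subtype = S.Np := by
    ext w
    simp only [Submodule.mem_map, LinearMap.mem_ker, Submodule.subtype_apply, Np,
      Submodule.mem_inf]
    constructor
    · rintro ⟨v, hv, rfl⟩
      refine ⟨v.2, ?_⟩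
      have h4 := congrArg (fun z : S.N => (z : C(X, H))) hv
      exact h4
    · rintro ⟨hw, hv⟩
      exact ⟨⟨w, hw⟩, Subtype.ext hv, rfl⟩
  have h4 : (LinearMap.ker (τ' + LinearMap.id)).map S.N.subtype = S.Nm := by
    ext w
    simp only [Submodule.mem_map, LinearMap.mem_ker, Submodule.subtype_apply, Nm,
      Submodule.mem_inf]
    constructor
    · rintro ⟨v, hv, rfl⟩
      refine ⟨v.2, ?_⟩
      have h4 := congrArg (fun z : S.N => (z : C(X, H))) hv
      exact h4
    · rintro ⟨hw, hv⟩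
      exact ⟨⟨w, hw⟩, Subtype.ext hv, rfl⟩
  rw [h2, ← h3, ← h4, Submodule.finrank_map_subtype_eq, Submodule.finrank_map_subtype_eq]
  exact h1

theorem index_tendsto (P : S.Parx ε₀) :
    Tendsto (fun ε => tr μ (star S.τ (P.K ε))) (𝓝[>] 0)
      (𝓝 ((Module.finrank ℂ S.Np : ℂ) - Module.finrank ℂ S.Nm)) := by
  obtain ⟨B⟩ := exists_OB P
  rw [← tr_pi P B, tendsto_iff_norm_sub_tendsto_zero]
  have hC : 0 ≤ P.C := (norm_nonneg _).trans (P.bR ε₀ ⟨P.ε₀_pos, le_rfl⟩)
  have hb : ∀ k : Ker X H, ‖tr μ (star S.τ k)‖ ≤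
      Module.finrank ℂ H * ‖S.τ‖ * μ.real Set.univ * ‖k‖ := by
    intro k
    refine (norm_tr_le μ _).trans ?_
    calc (Module.finrank ℂ H : ℝ) * ‖star S.τ k‖ * μ.real Set.univ
        ≤ (Module.finrank ℂ H : ℝ) * (‖S.τ‖ * ‖k‖) * μ.real Set.univ := by
          gcongr
          exact norm_star_le _ _
      _ = Module.finrank ℂ H * ‖S.τ‖ * μ.real Set.univ * ‖k‖ := by ring
  set D : ℝ := Module.finrank ℂ H * ‖S.τ‖ * μ.real Set.univ with hD
  have hD0 : 0 ≤ D := by positivity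
  have hmain : ∀ᶠ ε in 𝓝[>] (0 : ℝ),
      ‖tr μ (star S.τ (P.K ε)) - tr μ (star S.τ B.pi)‖ ≤ 2 * (D * P.C) * ε := by
    have hmem : Set.Ioc 0 ε₀ ∈ 𝓝[>] (0 : ℝ) := Ioc_mem_nhdsGT P.ε₀_pos
    filter_upwards [hmem] with ε hε
    have h1 := P.trace_id B hε.1 hε.2
    have n1 : ‖∫ t in (0 : ℝ)..ε, P.R t‖ ≤ P.C * ε := by
      have h := intervalIntegral.norm_integral_le_of_norm_le_const (a := (0 : ℝ)) (b := ε)
        (f := P.R) (C := P.C) (fun t ht => by
          rw [Set.uIoc_of_le hε.1.le] at ht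
          exact P.bR t ⟨ht.1, ht.2.trans hε.2⟩)
      rwa [sub_zero, abs_of_pos hε.1] at h
    have n2 : ‖∫ t in (0 : ℝ)..ε, P.DW t‖ ≤ P.C * ε := by
      have h := intervalIntegral.norm_integral_le_of_norm_le_const (a := (0 : ℝ)) (b := ε)
        (f := P.DW) (C := P.C) (fun t ht => by
          rw [Set.uIoc_of_le hε.1.le] at ht
          exact P.bDW t ⟨ht.1, ht.2.trans hε.2⟩)
      rwa [sub_zero, abs_of_pos hε.1] at h
    have h2 : tr μ (star S.τ (P.S1 ε)) = tr μ (star S.τ (P.S0 ε)) +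
        tr μ (star S.τ (∫ t in (0 : ℝ)..ε, P.DW t)) := by
      unfold DSys.Parx.S1
      rw [star_add_right, tr_add]
    have h3 : tr μ (star S.τ (P.S0 ε)) = tr μ (star S.τ (P.K ε)) -
        tr μ (star S.τ (∫ t in (0 : ℝ)..ε, P.R t)) := by
      unfold DSys.Parx.S0
      rw [star_sub_right, tr_sub]
    rw [h2, h3] at h1
    have h4 : tr μ (star S.τ (P.K ε)) - tr μ (star S.τ B.pi) =
        tr μ (star S.τ (∫ t in (0 : ℝ)..ε, P.R t)) -
          (1 / 2 : ℂ) * tr μ (star S.τ (∫ t in (0 : ℝ)..ε, P.DW t)) := by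
      linear_combination (-1 / 2 : ℂ) * h1
    rw [h4]
    have m1 := hb (∫ t in (0 : ℝ)..ε, P.R t)
    have m2 := hb (∫ t in (0 : ℝ)..ε, P.DW t)
    have m3 := mul_le_mul_of_nonneg_left n1 hD0
    have m4 := mul_le_mul_of_nonneg_left n2 hD0
    refine (norm_sub_le _ _).trans ?_
    have m5 : ‖(1 / 2 : ℂ) * tr μ (star S.τ (∫ t in (0 : ℝ)..ε, P.DW t))‖ ≤
        1 * ‖tr μ (star S.τ (∫ t in (0 : ℝ)..ε, P.DW t))‖ := by
      rw [norm_mul]
      refine mul_le_mul_of_nonneg_right ?_ (norm_nonneg _)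
      norm_num
    linarith
  have hlim : Tendsto (fun ε : ℝ => 2 * (D * P.C) * ε) (𝓝[>] 0) (𝓝 0) := by
    have h : Tendsto (fun ε : ℝ => 2 * (D * P.C) * ε) (𝓝 0) (𝓝 (2 * (D * P.C) * 0)) :=
      (continuous_const.mul continuous_id).tendsto 0
    rw [mul_zero] at h
    exact h.mono_left nhdsWithin_le_nhds
  exact squeeze_zero' (Eventually.of_forall fun ε => norm_nonneg _) hmain hlim

end DSys

end Pool.Agent.EXO
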