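import Pool.Agent.EXO.IaKa

/-!
Project EXO, chunk IDX-A, module IaKb: the trace of kernels.

PROOFS.
* Linearity: `LinearMap.trace` is linear, the functions `x ↦ trace (k (x,x))` are continuous
  (`LinearMap.trace ℂ H` composed with the finite dimensional continuous linear equivalence
  `LinearMap.toContinuousLinearMap` is a continuous linear functional on `H →L[ℂ] H`), so
  integrable on the compact space.
* `norm_tr_le`: with an orthonormal basis `b` of `H` (`stdOrthonormalBasis ℂ H`) one has
  `trace A = ∑ i, ⟪b i, A (b i)⟫` (`LinearMap.trace_eq_sum_inner`), so `‖trace A‖ ≤ dim H * ‖A‖`.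
* `tr_star_comm`: by `star_apply` and `op_apply`, `star (op μ k) k' (x,x) h = ∫ y, k (x,y) (k' (y,x) h) ∂μ`,
  so `trace (star (op μ k) k' (x,x)) = ∑ i ∫ y, ⟪b i, k (x,y) (k' (y,x) (b i))⟫ ∂μ
  = ∫ y, trace (k (x,y) ∘ k' (y,x)) ∂μ`; now Fubini (`MeasureTheory.integral_integral_swap`,
  continuous integrand on a compact space, finite measure) and `LinearMap.trace_mul_comm`.
* `tr_star_rankOne`: `star B (rankOne a b) = rankOne (B a) b` (`star_rankOne`) and
  `trace (h ↦ ⟪b x, h⟫ • (B a) x) = ⟪b x, (B a) x⟫`.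
-/

open MeasureTheory Filter Topology

namespace Pool.Agent.EXO

variable {X : Type*} [MetricSpace X] [CompactSpace X] [MeasurableSpace X] [BorelSpace X]
variable {H : Type*} [NormedAddCommGroup H] [InnerProductSpace ℂ H] [FiniteDimensional ℂ H]

namespace Ker

/-- the trace as a continuous linear functional -/
private noncomputable def IaKb_T : (H →L[ℂ] H) →L[ℂ] ℂ :=
  LinearMap.toContinuousLinearMap
    ((LinearMap.trace ℂ H).comp (ContinuousLinearMap.coeLM ℂ))

omit [FiniteDimensional ℂ H] in
private theorem IaKb_cont_diag (k : Ker X H) : Continuous fun x : X => k (x, x) :=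
  k.continuous.comp (by fun_prop : Continuous fun x : X => (x, x))

private theorem IaKb_T_apply (A : H →L[ℂ] H) :
    IaKb_T A = LinearMap.trace ℂ H (A : H →ₗ[ℂ] H) := rfl

private theorem IaKb_int (μ : Measure X) [IsFiniteMeasure μ] (k : Ker X H) :
    Integrable (fun x => LinearMap.trace ℂ H (k (x, x) : H →ₗ[ℂ] H)) μ := by
  have h : Continuous fun x => LinearMap.trace ℂ H (k (x, x) : H →ₗ[ℂ] H) :=
    (IaKb_T (H := H)).continuous.comp (IaKb_cont_diag k)
  exact h.integrable_of_hasCompactSupport (HasCompactSupport.of_compactSpace _)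

private theorem IaKb_norm_trace (A : H →L[ℂ] H) :
    ‖LinearMap.trace ℂ H (A : H →ₗ[ℂ] H)‖ ≤ Module.finrank ℂ H * ‖A‖ := by
  rw [LinearMap.trace_eq_sum_inner _ (stdOrthonormalBasis ℂ H)]
  refine le_trans (norm_sum_le _ _) ?_
  have h : ∀ i ∈ (Finset.univ : Finset (Fin (Module.finrank ℂ H))),
      ‖(inner ℂ (stdOrthonormalBasis ℂ H i) ((A : H →ₗ[ℂ] H) (stdOrthonormalBasis ℂ H i)) : ℂ)‖
        ≤ ‖A‖ := by
    intro i _
    refine le_trans (norm_inner_le_norm _ _) ?_
    have h1 : ‖stdOrthonormalBasis ℂ H i‖ = 1 := (stdOrthonormalBasis ℂ H).orthonormal.1 i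
    rw [h1, one_mul]
    have h2 := A.le_opNorm (stdOrthonormalBasis ℂ H i)
    rw [h1, mul_one] at h2
    exact h2
  refine le_trans (Finset.sum_le_sum h) ?_
  rw [Finset.sum_const, Finset.card_univ, Fintype.card_fin, nsmul_eq_mul]

private theorem IaKb_star_diag (μ : Measure X) [IsFiniteMeasure μ] (k k' : Ker X H) (x : X) :
    Ker.star (op μ k) k' (x, x) = ∫ y, (k (x, y)).comp (k' (y, x)) ∂μ := by
  have hc : Continuous fun y => (k (x, y)).comp (k' (y, x)) :=
    (k.continuous.comp (by fun_prop : Continuous fun y : X => (x, y))).clm_comp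
      (k'.continuous.comp (by fun_prop : Continuous fun y : X => (y, x)))
  have hi : Integrable (fun y => (k (x, y)).comp (k' (y, x))) μ :=
    hc.integrable_of_hasCompactSupport (HasCompactSupport.of_compactSpace _)
  apply ContinuousLinearMap.ext
  intro h
  rw [ContinuousLinearMap.integral_apply hi, star_apply, op_apply]
  rfl

private theorem IaKb_tr_star (μ : Measure X) [IsFiniteMeasure μ] (k k' : Ker X H) :
    tr μ (Ker.star (op μ k) k') = ∫ x, ∫ y, IaKb_T ((k (x, y)).comp (k' (y, x))) ∂μ ∂μ := by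
  unfold tr
  congr 1
  funext x
  have hc : Continuous fun y => (k (x, y)).comp (k' (y, x)) :=
    (k.continuous.comp (by fun_prop : Continuous fun y : X => (x, y))).clm_comp
      (k'.continuous.comp (by fun_prop : Continuous fun y : X => (y, x)))
  have hi : Integrable (fun y => (k (x, y)).comp (k' (y, x))) μ :=
    hc.integrable_of_hasCompactSupport (HasCompactSupport.of_compactSpace _)
  rw [(IaKb_T (H := H)).integral_comp_comm hi, ← IaKb_star_diag]
  rfl


variable (μ : Measure X) [IsFiniteMeasure μ]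

theorem tr_add (k k' : Ker X H) : tr μ (k + k') = tr μ k + tr μ k' := by
  unfold tr
  rw [← integral_add (IaKb_int μ k) (IaKb_int μ k')]
  congr 1
  funext x
  exact map_add (IaKb_T (H := H)) (k (x, x)) (k' (x, x))

theorem tr_sub (k k' : Ker X H) : tr μ (k - k') = tr μ k - tr μ k' := by
  unfold tr
  rw [← integral_sub (IaKb_int μ k) (IaKb_int μ k')]
  congr 1
  funext x
  exact map_sub (IaKb_T (H := H)) (k (x, x)) (k' (x, x))

theorem tr_smul (c : ℂ) (k : Ker X H) : tr μ (c • k) = c * tr μ k := by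
  unfold tr
  rw [← integral_const_mul]
  congr 1
  funext x
  exact map_smul (IaKb_T (H := H)) c (k (x, x))

theorem tr_sum {ι : Type*} (s : Finset ι) (k : ι → Ker X H) :
    tr μ (∑ i ∈ s, k i) = ∑ i ∈ s, tr μ (k i) := by
  classical
  induction s using Finset.induction_on with
  | empty =>
    rw [Finset.sum_empty, Finset.sum_empty]
    have h := tr_smul μ (0 : ℂ) (0 : Ker X H)
    rwa [zero_smul, zero_mul] at h
  | insert a s ha ih => rw [Finset.sum_insert ha, Finset.sum_insert ha, tr_add, ih]

theorem norm_tr_le (k : Ker X H) :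
    ‖tr μ k‖ ≤ Module.finrank ℂ H * ‖k‖ * μ.real Set.univ := by
  unfold tr
  apply norm_integral_le_of_norm_le_const
  filter_upwards with x
  refine le_trans (IaKb_norm_trace _) ?_
  exact mul_le_mul_of_nonneg_left (norm_coe_le k (x, x)) (Nat.cast_nonneg _)

theorem continuous_tr : Continuous (tr μ : Ker X H → ℂ) := by
  exact (LinearMap.mkContinuous
    { toFun := tr μ
      map_add' := tr_add μ
      map_smul' := tr_smul μ } (Module.finrank ℂ H * μ.real Set.univ) (fun k => by
        refine le_trans (norm_tr_le μ k) (le_of_eq ?_)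
        ring) : Ker X H →L[ℂ] ℂ).continuous

theorem tr_star_comm (k k' : Ker X H) :
    tr μ (star (op μ k) k') = tr μ (star (op μ k') k) := by
  rw [IaKb_tr_star, IaKb_tr_star]
  have hF : Continuous fun p : X × X => IaKb_T ((k (p.1, p.2)).comp (k' (p.2, p.1))) := by
    apply (IaKb_T (H := H)).continuous.comp
    exact k.continuous.clm_comp (k'.continuous.comp continuous_swap)
  have hFi : Integrable (fun p : X × X => IaKb_T ((k (p.1, p.2)).comp (k' (p.2, p.1))))
      (μ.prod μ) := hF.integrable_of_hasCompactSupport (HasCompactSupport.of_compactSpace _)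
  rw [integral_integral_swap hFi]
  congr 1
  funext y
  congr 1
  funext x
  rw [IaKb_T_apply, IaKb_T_apply]
  exact LinearMap.trace_mul_comm ℂ (k (x, y) : H →ₗ[ℂ] H) (k' (y, x) : H →ₗ[ℂ] H)

theorem tr_star_comm' (B : C(X, H) →L[ℂ] C(X, H)) (k k' : Ker X H) :
    tr μ (star (B.comp (op μ k)) k') = tr μ (star (op μ k') (star B k)) := by
  rw [← op_star, tr_star_comm]

theorem tr_rankOne (a b : C(X, H)) : tr μ (rankOne a b) = ip μ b a := by
  unfold tr ip
  congr 1
  funext x
  rw [LinearMap.trace_eq_sum_inner _ (stdOrthonormalBasis ℂ H),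
    ← (stdOrthonormalBasis ℂ H).sum_inner_mul_inner (b x) (a x)]
  apply Finset.sum_congr rfl
  intro i _
  show inner ℂ (stdOrthonormalBasis ℂ H i)
    ((inner ℂ (b x) (stdOrthonormalBasis ℂ H i) : ℂ) • a x) = _
  rw [inner_smul_right]

theorem tr_star_rankOne (B : C(X, H) →L[ℂ] C(X, H)) (a b : C(X, H)) :
    tr μ (star B (rankOne a b)) = ip μ b (B a) := by
  rw [star_rankOne, tr_rankOne]

end Ker

end Pool.Agent.EXO
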