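import Pool.Agent.EXO.IaKa

/-!
Project EXO, chunk IDX-A, module IaKd: the resolvent kernel of a small kernel.

PROOFS.
* `neumann`: `Abar := op μ A` has norm `< 1` (`norm_op_le`), so `1 - Abar` is invertible in the
  Banach algebra `C(X,H) →L[ℂ] C(X,H)` (`NormedRing.inverse_one_sub`, `Units.oneSub`, or
  `∑' n, Abar ^ n`); let `B` be the inverse, `B = 1 + Abar B = 1 + B Abar`.  Put `r := star B A`.
  Then `op μ r = B ∘ Abar` (`op_star`) and
  `A + star (op μ A) r = A + star (Abar ∘ B) A = star (1 + Abar B) A = star B A = r`, also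
  `A + star (op μ r) A = star (1 + B Abar) A = star B A = r`.
* `star_op_tendsto`: if `B_i → B` strongly and `‖B_i‖ ≤ C` then `star B_i k → star B k` in norm
  (the columns `col k y h`, `y ∈ X`, `‖h‖ ≤ 1`, form a compact set: it is the image of the compact
  set `X × closedBall 0 1` under the continuous map `(y,h) ↦ col k y h`; given `η > 0` cover it by
  finitely many balls of radius `η` with centres `c_j`; for all large `i` one has
  `‖B_i c_j - B c_j‖ < η` for all `j`, and then
  `‖B_i c - B c‖ ≤ C η + η + ‖B‖ η` for every column `c`, so `‖star B_i k - star B k‖` is at most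
  this number by `ContinuousMap.norm_le` and `opNorm_le_bound`).
-/

open MeasureTheory Filter Topology

namespace Pool.Agent.EXO

variable {X : Type*} [MetricSpace X] [CompactSpace X] [MeasurableSpace X] [BorelSpace X]
variable {H : Type*} [NormedAddCommGroup H] [InnerProductSpace ℂ H] [FiniteDimensional ℂ H]

namespace Ker

theorem neumann (μ : Measure X) [IsFiniteMeasure μ] (A : Ker X H)
    (h : ‖A‖ * μ.real Set.univ < 1) :
    ∃ r : Ker X H, r = A + star (op μ A) r ∧ r = A + star (op μ r) A := by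
  haveI : CompleteSpace H := FiniteDimensional.complete ℂ H
  have hA : ‖op μ A‖ < 1 := (norm_op_le μ A).trans_lt h
  set Abar : C(X, H) →L[ℂ] C(X, H) := op μ A with hAbar
  set U : (C(X, H) →L[ℂ] C(X, H))ˣ := Units.oneSub Abar hA with hU
  set B : C(X, H) →L[ℂ] C(X, H) := ((U⁻¹ : (C(X, H) →L[ℂ] C(X, H))ˣ) :
    C(X, H) →L[ℂ] C(X, H)) with hB
  have e0 : (U : C(X, H) →L[ℂ] C(X, H)) = 1 - Abar := rfl
  have e1 : (1 - Abar) * B = 1 := by rw [← e0]; exact U.mul_inv
  have e2 : B * (1 - Abar) = 1 := by rw [← e0]; exact U.inv_mul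
  have e3 : ContinuousLinearMap.id ℂ C(X, H) + Abar.comp B = B := by
    have : (1 - Abar) * B = B - Abar.comp B := by rw [sub_mul, one_mul]; rfl
    rw [this] at e1
    have h1 : ContinuousLinearMap.id ℂ C(X, H) = (1 : C(X, H) →L[ℂ] C(X, H)) := rfl
    rw [h1, ← e1]
    abel
  have e4 : ContinuousLinearMap.id ℂ C(X, H) + B.comp Abar = B := by
    have : B * (1 - Abar) = B - B.comp Abar := by rw [mul_sub, mul_one]; rfl
    rw [this] at e2
    have h1 : ContinuousLinearMap.id ℂ C(X, H) = (1 : C(X, H) →L[ℂ] C(X, H)) := rfl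
    rw [h1, ← e2]
    abel
  refine ⟨star B A, ?_, ?_⟩
  · rw [← star_comp]
    have h1 := star_add_left (ContinuousLinearMap.id ℂ C(X, H)) (Abar.comp B) A
    rw [e3, star_id] at h1
    exact h1
  · rw [op_star, ← hAbar]
    have h1 := star_add_left (ContinuousLinearMap.id ℂ C(X, H)) (B.comp Abar) A
    rw [e4, star_id] at h1
    exact h1

theorem star_op_tendsto {ι : Type*} {l : Filter ι} (B : ι → C(X, H) →L[ℂ] C(X, H))
    (B₀ : C(X, H) →L[ℂ] C(X, H)) (C : ℝ) (hC : ∀ᶠ i in l, ‖B i‖ ≤ C)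
    (h : ∀ u, Tendsto (fun i => B i u) l (𝓝 (B₀ u))) (k : Ker X H) :
    Tendsto (fun i => star (B i) k) l (𝓝 (star B₀ k)) := by
  haveI : CompleteSpace H := FiniteDimensional.complete ℂ H
  haveI : ProperSpace H := FiniteDimensional.proper ℂ H
  have hcol : Continuous fun p : X × H => col k p.1 p.2 := by
    apply ContinuousMap.continuous_of_continuous_uncurry
    have h1 : Continuous fun q : (X × H) × X => k (q.2, q.1.1) :=
      k.continuous.comp (by fun_prop)
    exact h1.clm_apply (by fun_prop)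
  set S : Set C(X, H) := (fun p : X × H => col k p.1 p.2) ''
    (Set.univ ×ˢ Metric.closedBall (0 : H) 1) with hS
  have hSc : IsCompact S := (isCompact_univ.prod (isCompact_closedBall 0 1)).image hcol
  rw [tendsto_iff_norm_sub_tendsto_zero, Metric.tendsto_nhds]
  intro ε hε
  set D : ℝ := |C| + 1 + ‖B₀‖ with hD
  have hDpos : 0 < D := by positivity
  set η : ℝ := ε / (2 * D) with hη
  have hηpos : 0 < η := by positivity
  obtain ⟨t, htS, htf, htc⟩ := hSc.finite_cover_balls hηpos
  have hev : ∀ᶠ i in l, ∀ c ∈ t, ‖B i c - B₀ c‖ < η := by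
    rw [Filter.eventually_all_finite htf]
    intro c _
    have h1 := tendsto_iff_norm_sub_tendsto_zero.1 (h c)
    exact h1.eventually (gt_mem_nhds hηpos)
  filter_upwards [hev, hC] with i hi hCi
  have hcolb : ∀ c ∈ S, ‖B i c - B₀ c‖ ≤ D * η := by
    intro c hc
    obtain ⟨cj, hcj, hd⟩ := Set.mem_iUnion₂.1 (htc hc)
    rw [Metric.mem_ball, dist_eq_norm] at hd
    have e : B i c - B₀ c = B i (c - cj) + (B i cj - B₀ cj) - B₀ (c - cj) := by
      rw [map_sub, map_sub]; abel
    have n1 : ‖B i (c - cj)‖ ≤ |C| * η :=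
      ((B i).le_opNorm _).trans (mul_le_mul (hCi.trans (le_abs_self C)) hd.le (norm_nonneg _)
        (abs_nonneg C))
    have n2 : ‖B₀ (c - cj)‖ ≤ ‖B₀‖ * η :=
      (B₀.le_opNorm _).trans (mul_le_mul_of_nonneg_left hd.le (norm_nonneg _))
    have n3 := (hi cj hcj).le
    rw [e]
    calc _ ≤ ‖B i (c - cj) + (B i cj - B₀ cj)‖ + ‖B₀ (c - cj)‖ := norm_sub_le _ _
      _ ≤ ‖B i (c - cj)‖ + ‖B i cj - B₀ cj‖ + ‖B₀ (c - cj)‖ :=
        add_le_add (norm_add_le _ _) le_rfl
      _ ≤ D * η := by rw [hD]; nlinarith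
  have hb : ‖star (B i) k - star B₀ k‖ ≤ D * η := by
    rw [norm_le (by positivity)]
    rintro ⟨x, y⟩
    refine ContinuousLinearMap.opNorm_le_bound _ (by positivity) fun v => ?_
    have e1 : (star (B i) k - star B₀ k) (x, y) v = B i (col k y v) x - B₀ (col k y v) x := by
      rw [sub_apply]
      rfl
    rw [e1]
    have e2 : ‖B i (col k y v) x - B₀ (col k y v) x‖ ≤ ‖B i (col k y v) - B₀ (col k y v)‖ :=
      ContinuousMap.norm_coe_le_norm (B i (col k y v) - B₀ (col k y v)) x
    refine e2.trans ?_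
    by_cases hv : v = 0
    · subst hv
      have : col k y (0 : H) = 0 := by ext z; simp
      rw [this, map_zero, map_zero, sub_zero, norm_zero, norm_zero, mul_zero]
    · have hvn : (‖v‖ : ℝ) ≠ 0 := norm_ne_zero_iff.2 hv
      set w : H := ((‖v‖⁻¹ : ℝ) : ℂ) • v with hw
      have hwn : ‖w‖ ≤ 1 := by
        rw [hw, norm_smul, Complex.norm_real, norm_inv, norm_norm, inv_mul_cancel₀ hvn]
      have hvw : v = ((‖v‖ : ℝ) : ℂ) • w := by
        rw [hw, smul_smul, ← Complex.ofReal_mul, mul_inv_cancel₀ hvn, Complex.ofReal_one, one_smul]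
      have e3 : col k y v = ((‖v‖ : ℝ) : ℂ) • col k y w := by
        ext z
        rw [ContinuousMap.smul_apply, col_apply, col_apply, ← map_smul, ← hvw]
      have h5 := hcolb (col k y w) ⟨(y, w), ⟨Set.mem_univ _, by
        rw [mem_closedBall_zero_iff]; exact hwn⟩, rfl⟩
      rw [e3, map_smul, map_smul, ← smul_sub, norm_smul, Complex.norm_real, norm_norm, mul_comm]
      exact mul_le_mul_of_nonneg_right h5 (norm_nonneg _)
  rw [Real.dist_eq, sub_zero, abs_of_nonneg (norm_nonneg _)]
  refine hb.trans_lt ?_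
  rw [hη]
  have : D * (ε / (2 * D)) = ε / 2 := by field_simp
  rw [this]
  linarith

end Ker

end Pool.Agent.EXO
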