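import Pool.Agent.EXO.IaWb
import Pool.Agent.EXO.IaKb
import Pool.Agent.EXO.IaKd

/-!
Project EXO, chunk IDX-A, module IaGa: integrability and the truncated integrals.

Notation: `0 < δ ≤ ε ≤ ε₀`.

PROOFS.
* `continuous_op`: `op μ` is additive and `‖op μ k‖ ≤ ‖k‖ μ(X)`; so it is Lipschitz.
* Integrability on `[0, ε]`: `t ↦ op μ (K t) u` is continuous on `Ioc 0 ε₀` and bounded by
  `C ‖u‖`; `op μ (K1 t) u` is bounded by `C (√t)⁻¹ ‖u‖`, which is integrable on `[0, ε]`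
  (`intervalIntegral.intervalIntegrable_rpow'` with exponent `-1/2`, or `Real.sqrt` primitives).
  A function continuous on `Ioc 0 ε` is `AEStronglyMeasurable` there
  (`ContinuousOn.aestronglyMeasurable`), then `Integrable.mono'`.
  `R`, `RD`, `DW` are continuous on `Ioc 0 ε₀` and bounded by `C`.
* `isQ'`: `u ↦ ∫ t in 0..ε, op μ (K1 t) u` is linear (`intervalIntegral.integral_add`, ...) and
  bounded by `(∫ t in 0..ε, C (√t)⁻¹) ‖u‖` (`intervalIntegral.norm_integral_le_of_norm_le`), so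
  `LinearMap.mkContinuous` gives an operator `B` with `IsQ' ε B`; `Q'` is defined by choice.
* `int_K2`: `intervalIntegral.integral_eq_sub_of_hasDerivAt_of_le` for `P.K` on `[δ, ε]` with
  `P.deriv`: `∫ (R - K2) = K ε - K δ`.
* `op_int`: `k ↦ op μ k u` is continuous linear (`LinearMap.mkContinuous`), so it commutes with
  the integral (`ContinuousLinearMap.intervalIntegral_comp_comm`).
* `tendsto_*`: `intervalIntegral.integral_add_adjacent_intervals` and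
  `‖∫ t in 0..δ, f t‖ ≤ ∫ t in 0..δ, bound t → 0`.
* `norm_opq`: `‖op μ (∫ t in δ..ε, K1 t) u‖ = ‖∫ t in δ..ε, op μ (K1 t) u‖
  ≤ ∫ t in 0..ε, C (√t)⁻¹ ‖u‖`.
-/

open MeasureTheory Filter Topology

namespace Pool.Agent.EXO

variable {X : Type*} [MetricSpace X] [CompactSpace X] [MeasurableSpace X] [BorelSpace X]
variable {H : Type*} [NormedAddCommGroup H] [InnerProductSpace ℂ H] [FiniteDimensional ℂ H]

open Ker

/-- the linear map `k ↦ op μ k u` -/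
private noncomputable def IaGa_opL (μ : Measure X) [IsFiniteMeasure μ] (u : C(X, H)) :
    Ker X H →L[ℂ] C(X, H) :=
  LinearMap.mkContinuous
    { toFun := fun k => op μ k u
      map_add' := fun k k' => by
        rw [op_add]; rfl
      map_smul' := fun c k => by
        rw [op_smul]; rfl }
    (μ.real Set.univ * ‖u‖)
    (fun k => by
      refine le_trans ((op μ k).le_opNorm u) ?_
      have h := mul_le_mul_of_nonneg_right (norm_op_le μ k) (norm_nonneg u)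
      refine le_trans h (le_of_eq ?_)
      ring)

private theorem IaGa_opL_apply (μ : Measure X) [IsFiniteMeasure μ] (u : C(X, H)) (k : Ker X H) :
    IaGa_opL μ u k = op μ k u := rfl

theorem Ker.continuous_op (μ : Measure X) [IsFiniteMeasure μ] (u : C(X, H)) :
    Continuous fun k : Ker X H => op μ k u :=
  (IaGa_opL μ u).continuous

theorem Ker.op_int (μ : Measure X) [IsFiniteMeasure μ] (u : C(X, H)) {k : ℝ → Ker X H} {a b : ℝ}
    (h : IntervalIntegrable k volume a b) :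
    op μ (∫ t in a..b, k t) u = ∫ t in a..b, op μ (k t) u :=
  ((IaGa_opL μ u).intervalIntegral_comp_comm h).symm

private theorem IaGa_int {E : Type*} [NormedAddCommGroup E] {f : ℝ → E}
    {g : ℝ → ℝ} {δ ε ε₀ : ℝ} (h0 : 0 ≤ δ) (h1 : δ ≤ ε) (h2 : ε ≤ ε₀)
    (hf : ContinuousOn f (Set.Ioc 0 ε₀)) (hb : ∀ t ∈ Set.Ioc 0 ε₀, ‖f t‖ ≤ g t)
    (hg : IntervalIntegrable g volume δ ε) : IntervalIntegrable f volume δ ε := by
  have hsub : Set.Ioc δ ε ⊆ Set.Ioc 0 ε₀ := fun t ht =>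
    ⟨lt_of_le_of_lt h0 ht.1, le_trans ht.2 h2⟩
  rw [intervalIntegrable_iff_integrableOn_Ioc_of_le h1] at hg ⊢
  exact Integrable.mono' hg ((hf.mono hsub).aestronglyMeasurable measurableSet_Ioc)
    ((ae_restrict_mem measurableSet_Ioc).mono (fun t ht => hb t (hsub ht)))

private theorem IaGa_sqrt {δ ε : ℝ} (h0 : 0 ≤ δ) (h1 : δ ≤ ε) :
    IntervalIntegrable (fun t => (Real.sqrt t)⁻¹) volume δ ε := by
  have h := intervalIntegral.intervalIntegrable_rpow' (a := δ) (b := ε) (r := -(1 / 2))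
    (by norm_num)
  rw [intervalIntegrable_iff_integrableOn_Ioc_of_le h1] at h ⊢
  refine h.congr_fun (fun t ht => ?_) measurableSet_Ioc
  have ht0 : 0 ≤ t := le_trans h0 ht.1.le
  show t ^ (-(1 / 2) : ℝ) = (Real.sqrt t)⁻¹
  rw [Real.rpow_neg ht0, Real.sqrt_eq_rpow]

private theorem IaGa_lim {E : Type*} [NormedAddCommGroup E] [NormedSpace ℝ E] {f : ℝ → E}
    {ε : ℝ} (h1 : 0 < ε) (hf : IntervalIntegrable f volume 0 ε) :
    Tendsto (fun δ => ∫ t in δ..ε, f t) (𝓝[>] 0) (𝓝 (∫ t in (0 : ℝ)..ε, f t)) := by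
  have hI : IntegrableOn f (Set.uIcc 0 ε) volume := by
    rw [Set.uIcc_of_le h1.le, integrableOn_Icc_iff_integrableOn_Ioc]
    exact (intervalIntegrable_iff_integrableOn_Ioc_of_le h1.le).1 hf
  have hc := intervalIntegral.continuousOn_primitive_interval_left hI 0 Set.left_mem_uIcc
  refine hc.tendsto.mono_left ?_
  rw [Set.uIcc_of_le h1.le]
  refine nhdsWithin_le_of_mem ?_
  have : Set.Ioc 0 ε ∈ 𝓝[>] (0 : ℝ) := Ioc_mem_nhdsGT h1
  exact Filter.mem_of_superset this Set.Ioc_subset_Icc_self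

namespace DSys.Parx

variable {μ : Measure X} [IsFiniteMeasure μ] {S : DSys μ H} {ε₀ : ℝ} (P : S.Parx ε₀)

include P in
private theorem IaGa_C : 0 ≤ P.C :=
  le_trans (norm_nonneg (P.R ε₀)) (P.bR ε₀ ⟨P.ε₀_pos, le_rfl⟩)

private theorem IaGa_bK1 (u : C(X, H)) {t : ℝ} (ht : t ∈ Set.Ioc 0 ε₀) :
    ‖op μ (P.K1 t) u‖ ≤ P.C * (Real.sqrt t)⁻¹ * ‖u‖ :=
  le_trans ((op μ (P.K1 t)).le_opNorm u) (mul_le_mul_of_nonneg_right (P.bK1 t ht) (norm_nonneg u))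

theorem intK {δ ε : ℝ} (h0 : 0 ≤ δ) (h1 : δ ≤ ε) (h2 : ε ≤ ε₀) (u : C(X, H)) :
    IntervalIntegrable (fun t => op μ (P.K t) u) volume δ ε :=
  IaGa_int (g := fun _ => P.C * ‖u‖) h0 h1 h2 ((Ker.continuous_op μ u).comp_continuousOn P.cK)
    (fun t ht => le_trans ((op μ (P.K t)).le_opNorm u)
      (mul_le_mul_of_nonneg_right (P.bK t ht) (norm_nonneg u))) intervalIntegrable_const

theorem intK1 {δ ε : ℝ} (h0 : 0 ≤ δ) (h1 : δ ≤ ε) (h2 : ε ≤ ε₀) (u : C(X, H)) :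
    IntervalIntegrable (fun t => op μ (P.K1 t) u) volume δ ε :=
  IaGa_int (g := fun t => P.C * (Real.sqrt t)⁻¹ * ‖u‖) h0 h1 h2
    ((Ker.continuous_op μ u).comp_continuousOn P.cK1)
    (fun _ ht => IaGa_bK1 P u ht) (((IaGa_sqrt h0 h1).const_mul _).mul_const _)

theorem intR {δ ε : ℝ} (h0 : 0 ≤ δ) (h1 : δ ≤ ε) (h2 : ε ≤ ε₀) :
    IntervalIntegrable P.R volume δ ε :=
  IaGa_int (g := fun _ => P.C) h0 h1 h2 P.cR P.bR intervalIntegrable_const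

theorem intRD {δ ε : ℝ} (h0 : 0 ≤ δ) (h1 : δ ≤ ε) (h2 : ε ≤ ε₀) :
    IntervalIntegrable P.RD volume δ ε :=
  IaGa_int (g := fun _ => P.C) h0 h1 h2 P.cRD P.bRD intervalIntegrable_const

theorem intDW {δ ε : ℝ} (h0 : 0 ≤ δ) (h1 : δ ≤ ε) (h2 : ε ≤ ε₀) :
    IntervalIntegrable P.DW volume δ ε :=
  IaGa_int (g := fun _ => P.C) h0 h1 h2 P.cDW P.bDW intervalIntegrable_const

private theorem IaGa_sub {δ ε : ℝ} (h0 : 0 < δ) (h2 : ε ≤ ε₀) : Set.Icc δ ε ⊆ Set.Ioc 0 ε₀ :=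
  fun _ ht => ⟨lt_of_lt_of_le h0 ht.1, le_trans ht.2 h2⟩

theorem intK1' {δ ε : ℝ} (h0 : 0 < δ) (h1 : δ ≤ ε) (h2 : ε ≤ ε₀) :
    IntervalIntegrable P.K1 volume δ ε :=
  (P.cK1.mono (IaGa_sub h0 h2)).intervalIntegrable_of_Icc h1

theorem intK2' {δ ε : ℝ} (h0 : 0 < δ) (h1 : δ ≤ ε) (h2 : ε ≤ ε₀) :
    IntervalIntegrable P.K2 volume δ ε :=
  (P.cK2.mono (IaGa_sub h0 h2)).intervalIntegrable_of_Icc h1

theorem int_K2 {δ ε : ℝ} (h0 : 0 < δ) (h1 : δ ≤ ε) (h2 : ε ≤ ε₀) :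
    ∫ t in δ..ε, P.K2 t = P.K δ - P.K ε + ∫ t in δ..ε, P.R t := by
  have hR := P.intR h0.le h1 h2
  have hK2 := P.intK2' h0 h1 h2
  have h := intervalIntegral.integral_eq_sub_of_hasDerivAt_of_le (f := P.K)
    (f' := fun t => P.R t - P.K2 t) h1 (P.cK.mono (IaGa_sub h0 h2))
    (fun t ht => P.deriv t ⟨lt_trans h0 ht.1, lt_of_lt_of_le ht.2 h2⟩) (hR.sub hK2)
  rw [intervalIntegral.integral_sub hR hK2] at h
  rw [sub_eq_iff_eq_add] at h
  rw [h]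
  abel

private theorem IaGa_exQ' {ε : ℝ} (h1 : 0 < ε) (h2 : ε ≤ ε₀) : ∃ B, P.IsQ' ε B := by
  refine ⟨LinearMap.mkContinuous
    { toFun := fun u => ∫ t in (0 : ℝ)..ε, op μ (P.K1 t) u
      map_add' := fun u v => ?_
      map_smul' := fun c u => ?_ }
    (∫ t in (0 : ℝ)..ε, P.C * (Real.sqrt t)⁻¹) (fun u => ?_), fun u => rfl⟩
  · simp only [map_add]
    exact intervalIntegral.integral_add (P.intK1 le_rfl h1.le h2 u) (P.intK1 le_rfl h1.le h2 v)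
  · simp only [map_smul, RingHom.id_apply]
    exact intervalIntegral.integral_smul c _
  · show ‖∫ t in (0 : ℝ)..ε, op μ (P.K1 t) u‖ ≤ (∫ t in (0 : ℝ)..ε, P.C * (Real.sqrt t)⁻¹) * ‖u‖
    rw [← intervalIntegral.integral_mul_const]
    exact intervalIntegral.norm_integral_le_of_norm_le h1.le
      (Filter.Eventually.of_forall (fun t ht => IaGa_bK1 P u ⟨ht.1, le_trans ht.2 h2⟩))
      (((IaGa_sqrt le_rfl h1.le).const_mul _).mul_const _)

theorem isQ' {ε : ℝ} (h1 : 0 < ε) (h2 : ε ≤ ε₀) : P.IsQ' ε (P.Q' ε) := by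
  have h := IaGa_exQ' P h1 h2
  unfold Q'
  rw [dif_pos h]
  exact h.choose_spec

theorem tendsto_Q' {ε : ℝ} (h1 : 0 < ε) (h2 : ε ≤ ε₀) (u : C(X, H)) :
    Tendsto (fun δ => op μ (∫ t in δ..ε, P.K1 t) u) (𝓝[>] 0) (𝓝 (P.Q' ε u)) := by
  rw [P.isQ' h1 h2 u]
  refine (IaGa_lim h1 (P.intK1 le_rfl h1.le h2 u)).congr' ?_
  have : Set.Ioc 0 ε ∈ 𝓝[>] (0 : ℝ) := Ioc_mem_nhdsGT h1
  filter_upwards [this] with δ hδ
  exact (Ker.op_int μ u (P.intK1' hδ.1 hδ.2 h2)).symm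

theorem norm_opq {ε : ℝ} (h1 : 0 < ε) (h2 : ε ≤ ε₀) :
    ∃ C' : ℝ, ∀ δ ∈ Set.Ioc 0 ε, ‖op μ (∫ t in δ..ε, P.K1 t)‖ ≤ C' := by
  have hC := IaGa_C P
  have hnn : ∀ t : ℝ, 0 ≤ P.C * (Real.sqrt t)⁻¹ := fun t =>
    mul_nonneg hC (inv_nonneg.2 (Real.sqrt_nonneg t))
  refine ⟨∫ t in (0 : ℝ)..ε, P.C * (Real.sqrt t)⁻¹, fun δ hδ => ?_⟩
  refine ContinuousLinearMap.opNorm_le_bound _
    (intervalIntegral.integral_nonneg h1.le (fun t _ => hnn t)) (fun u => ?_)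
  rw [Ker.op_int μ u (P.intK1' hδ.1 hδ.2 h2), ← intervalIntegral.integral_mul_const]
  have i1 : IntervalIntegrable (fun t => P.C * (Real.sqrt t)⁻¹ * ‖u‖) volume 0 δ :=
    ((IaGa_sqrt le_rfl hδ.1.le).const_mul _).mul_const _
  have i2 : IntervalIntegrable (fun t => P.C * (Real.sqrt t)⁻¹ * ‖u‖) volume δ ε :=
    ((IaGa_sqrt hδ.1.le hδ.2).const_mul _).mul_const _
  have hle : ‖∫ t in δ..ε, op μ (P.K1 t) u‖ ≤ ∫ t in δ..ε, P.C * (Real.sqrt t)⁻¹ * ‖u‖ :=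
    intervalIntegral.norm_integral_le_of_norm_le hδ.2
      (Filter.Eventually.of_forall (fun t ht => IaGa_bK1 P u
        ⟨lt_trans hδ.1 ht.1, le_trans ht.2 h2⟩)) i2
  have hadd := intervalIntegral.integral_add_adjacent_intervals i1 i2
  have h0 : 0 ≤ ∫ t in (0 : ℝ)..δ, P.C * (Real.sqrt t)⁻¹ * ‖u‖ :=
    intervalIntegral.integral_nonneg hδ.1.le (fun t _ => mul_nonneg (hnn t) (norm_nonneg u))
  linarith

theorem tendsto_R {ε : ℝ} (h1 : 0 < ε) (h2 : ε ≤ ε₀) :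
    Tendsto (fun δ => ∫ t in δ..ε, P.R t) (𝓝[>] 0) (𝓝 (∫ t in (0 : ℝ)..ε, P.R t)) :=
  IaGa_lim h1 (P.intR le_rfl h1.le h2)

theorem tendsto_DW {ε : ℝ} (h1 : 0 < ε) (h2 : ε ≤ ε₀) :
    Tendsto (fun δ => ∫ t in δ..ε, P.DW t) (𝓝[>] 0) (𝓝 (∫ t in (0 : ℝ)..ε, P.DW t)) :=
  IaGa_lim h1 (P.intDW le_rfl h1.le h2)

end DSys.Parx

end Pool.Agent.EXO
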