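import Pool.Agent.EXO.IaGa

/-!
Project EXO, chunk IDX-A, module IaGb: `Q'` is a two sided parametrix of `D`.

Notation: `0 < ε ≤ ε₀`.

PROOFS.  `P.Q' ε u = ∫ t in 0..ε, op μ (P.K1 t) u` by `isQ'`.  For fixed `v` the map
`u ↦ ip μ v u` is continuous linear and commutes with integrals; `ip μ u v = conj (ip μ v u)`
(`ip_conj`).
* `WD_G`: `Q (G u) = G u` since `Q (op μ (K t) u) = op μ (K t) u` for every `t` (`P.smK`,
  `S.Q_Sm`); the same for `Q'`.  For `v ∈ Sm`: `ip (G u) (D v) = ∫ ip (op μ (K t) u) (D v)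
  = ∫ ip (op μ (K1 t) u) v = ip (Q' u) v` (`SOp.WD`).
* `WD_q`: `ip (op μ (K1 t) u) (D v) = ip (op μ (K2 t) u) v` (`P.smK1`); integrate over `[δ, ε]`
  (`op_int`), use `int_K2`.
* `WD_Q'`: let `Q u = u` and `δ → 0` in `WD_q` (`WD.closed`; `tendsto_Q'`, `P.lim`, `tendsto_R`,
  `continuous_op`): the derivative tends to `u - op μ (S0 ε) u`.
* `Q'_WD`: let `WD u h`, `t ∈ (0, ε₀]`.  `op μ (K t) h = op μ (KD t) u` (`WD.op_row`)
  `= op μ (K1 t) u - op μ (K1 t - KD t) u`, all three in `Sm`; apply `S.D` (linear) and use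
  `P.smK`, `P.smK1`, `P.smW`: `op μ (K1 t) h = op μ (K2 t) u - op μ (DW t) u`.  Integrate over
  `[δ, ε]` (`op_int`), use `int_K2`, and let `δ → 0`:
  `Q' h = Q u - op μ (S0 ε) u - op μ (∫ DW) u`.
* `perp`: `N_perp` for `WD_G`.
* `S0_row`: `op μ (K ε) h = op μ (KD ε) u`, `op μ (R t) h = op μ (RD t) u` (`WD.op_row`, `P.rowK`,
  `P.rowR`), integrate over `[0, ε]` (`ContinuousLinearMap.intervalIntegral_comp_comm` for
  `k ↦ op μ k h`).
* `S0_opQ`, `S1_opQ`, `S0D_opQ`: `SRow.op_Q` for `K ε`, `R t`; `SRow.op_Q'` for `KD t`, `RD t`;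
  `op μ (K1 t) (Q u) = D (op μ (K t) (Q u)) = D (op μ (K t) u) = op μ (K1 t) u`; so
  `W t = K1 t - KD t` has it, and `op μ (DW t) (Q u) = D (op μ (W t) (Q u)) = op μ (DW t) u`.
* `Q_S0`: every `k = K t` satisfies `star Q k = k` since `Q (op μ k u) = op μ k u` for all `u`
  (`op_star`, `op_injective`); `R t` satisfies it because `closure FR` does: for `a ∈ Sm`,
  `star Q (rankOne a b) = rankOne (Q a) b = rankOne a b`, and `k ↦ star Q k` is linear and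
  continuous (`norm_star_le`); `closure_minimal`.  Integrate.
* `Q_S1`: also `Q (op μ (DW t) u) = op μ (DW t) u` because it is `S.D` of something.
* `S0_mem`: the set `closure FR` is the closed submodule `S.FR.topologicalClosure`; the integral
  `∫ R` is in it: compose with the quotient map (a continuous linear map) and use
  `ContinuousLinearMap.intervalIntegral_comp_comm`, or use Riemann sums.
-/

open MeasureTheory Filter Topology

namespace Pool.Agent.EXO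

variable {X : Type*} [MetricSpace X] [CompactSpace X] [MeasurableSpace X] [BorelSpace X]
variable {H : Type*} [NormedAddCommGroup H] [InnerProductSpace ℂ H] [FiniteDimensional ℂ H]

open Ker

/-- the functional `u ↦ ip μ v u` -/
private noncomputable def IaGb_ipL (μ : Measure X) [IsFiniteMeasure μ] (v : C(X, H)) :
    C(X, H) →L[ℂ] ℂ :=
  LinearMap.mkContinuous
    { toFun := fun u => ip μ v u
      map_add' := fun a b => ip_add_right μ v a b
      map_smul' := fun c a => by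
        rw [ip_smul_right]; rfl }
    (‖v‖ * μ.real Set.univ)
    (fun u => by
      refine le_trans (norm_ip_le μ v u) (le_of_eq ?_)
      ring)

private theorem IaGb_ipL_apply (μ : Measure X) [IsFiniteMeasure μ] (v u : C(X, H)) :
    IaGb_ipL μ v u = ip μ v u := rfl

private theorem IaGb_congr {E : Type*} [NormedAddCommGroup E] [NormedSpace ℝ E] {f g : ℝ → E}
    {a b : ℝ} (hab : a ≤ b) (h : ∀ t ∈ Set.Ioc a b, f t = g t) :
    ∫ t in a..b, f t = ∫ t in a..b, g t := by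
  refine intervalIntegral.integral_congr_ae (ae_of_all _ fun t ht => h t ?_)
  rwa [Set.uIoc_of_le hab] at ht

private theorem IaGb_WD_int {μ : Measure X} [IsFiniteMeasure μ] {S : DSys μ H}
    {f g : ℝ → C(X, H)} {a b : ℝ} (hab : a ≤ b)
    (hf : IntervalIntegrable f volume a b) (hg : IntervalIntegrable g volume a b)
    (h : ∀ t ∈ Set.Ioc a b, S.WD (f t) (g t)) :
    S.WD (∫ t in a..b, f t) (∫ t in a..b, g t) := by
  refine ⟨?_, ?_, fun v => ?_⟩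
  · rw [← S.Q.intervalIntegral_comp_comm hf]
    exact IaGb_congr hab fun t ht => (h t ht).1
  · rw [← S.Q.intervalIntegral_comp_comm hg]
    exact IaGb_congr hab fun t ht => (h t ht).2.1
  · rw [← ip_conj μ _ (∫ t in a..b, f t), ← ip_conj μ _ (∫ t in a..b, g t)]
    congr 1
    rw [← IaGb_ipL_apply, ← IaGb_ipL_apply, ← (IaGb_ipL μ _).intervalIntegral_comp_comm hf,
      ← (IaGb_ipL μ _).intervalIntegral_comp_comm hg]
    refine IaGb_congr hab fun t ht => ?_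
    rw [IaGb_ipL_apply, IaGb_ipL_apply, ← ip_conj, (h t ht).2.2 v, ip_conj]

namespace DSys.Parx

variable {μ : Measure X} [IsFiniteMeasure μ] {S : DSys μ H} {ε₀ : ℝ} (P : S.Parx ε₀)

theorem WD_G {ε : ℝ} (h1 : 0 < ε) (h2 : ε ≤ ε₀) (u : C(X, H)) :
    S.WD (P.G ε u) (P.Q' ε u) := by
  rw [P.isQ' h1 h2 u]
  exact IaGb_WD_int h1.le (P.intK le_rfl h1.le h2 u) (P.intK1 le_rfl h1.le h2 u)
    fun t ht => SOp.WD (P.smK t ⟨ht.1, ht.2.trans h2⟩) u

theorem WD_q {δ ε : ℝ} (h0 : 0 < δ) (h1 : δ ≤ ε) (h2 : ε ≤ ε₀) (u : C(X, H)) :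
    S.WD (op μ (∫ t in δ..ε, P.K1 t) u)
      (op μ (P.K δ - P.K ε + ∫ t in δ..ε, P.R t) u) := by
  rw [← P.int_K2 h0 h1 h2, Ker.op_int μ u (P.intK1' h0 h1 h2),
    Ker.op_int μ u (P.intK2' h0 h1 h2)]
  refine IaGb_WD_int h1 ?_ ?_ fun t ht => SOp.WD (P.smK1 t ⟨h0.trans ht.1, ht.2.trans h2⟩) u
  · exact P.intK1 h0.le h1 h2 u
  · have hsub : Set.Icc δ ε ⊆ Set.Ioc 0 ε₀ := fun t ht =>
      ⟨lt_of_lt_of_le h0 ht.1, le_trans ht.2 h2⟩
    exact (((Ker.continuous_op μ u).comp_continuousOn P.cK2).mono hsub).intervalIntegrable_of_Icc h1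

private theorem IaGb_seq {ε : ℝ} (h1 : 0 < ε) : ∃ d : ℕ → ℝ, (∀ n, d n ∈ Set.Ioc 0 ε) ∧
    Tendsto d atTop (𝓝[>] 0) := by
  refine ⟨fun n => ε * (1 / ((n : ℝ) + 1)), fun n => ⟨by positivity, ?_⟩, ?_⟩
  · have : (1 : ℝ) / ((n : ℝ) + 1) ≤ 1 := by
      rw [div_le_one (by positivity)]
      linarith [Nat.cast_nonneg (α := ℝ) n]
    calc ε * (1 / ((n : ℝ) + 1)) ≤ ε * 1 := mul_le_mul_of_nonneg_left this h1.le
      _ = ε := mul_one _
  · rw [tendsto_nhdsWithin_iff]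
    refine ⟨?_, Eventually.of_forall fun n => ?_⟩
    · have := (tendsto_one_div_add_atTop_nhds_zero_nat (𝕜 := ℝ)).const_mul ε
      rwa [mul_zero] at this
    · show 0 < ε * (1 / ((n : ℝ) + 1))
      positivity

private theorem IaGb_lim {ε : ℝ} (h1 : 0 < ε) (h2 : ε ≤ ε₀) (u : C(X, H)) :
    Tendsto (fun δ => op μ (P.K δ - P.K ε + ∫ t in δ..ε, P.R t) u) (𝓝[>] 0)
      (𝓝 (S.Q u - op μ (P.S0 ε) u)) := by
  have hR : Tendsto (fun δ => op μ (∫ t in δ..ε, P.R t) u) (𝓝[>] 0)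
      (𝓝 (op μ (∫ t in (0 : ℝ)..ε, P.R t) u)) :=
    ((Ker.continuous_op μ u).tendsto _).comp (P.tendsto_R h1 h2)
  have h := ((P.lim u).sub (tendsto_const_nhds (x := op μ (P.K ε) u))).add hR
  have e : S.Q u - op μ (P.S0 ε) u =
      S.Q u - op μ (P.K ε) u + op μ (∫ t in (0 : ℝ)..ε, P.R t) u := by
    rw [S0, op_sub, ContinuousLinearMap.sub_apply]
    abel
  rw [e]
  refine h.congr fun δ => ?_
  rw [op_add, op_sub]
  rfl

theorem WD_Q' {ε : ℝ} (h1 : 0 < ε) (h2 : ε ≤ ε₀) {u : C(X, H)} (hu : S.Q u = u) :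
    S.WD (P.Q' ε u) (u - op μ (P.S0 ε) u) := by
  obtain ⟨d, hd, hl⟩ := IaGb_seq h1
  have l1 := (P.tendsto_Q' h1 h2 u).comp hl
  have l2 := (IaGb_lim P h1 h2 u).comp hl
  rw [hu] at l2
  exact WD.closed (fun n => P.WD_q (hd n).1 (hd n).2 h2 u) l1 l2

theorem Q'_WD {ε : ℝ} (h1 : 0 < ε) (h2 : ε ≤ ε₀) {u h : C(X, H)} (hu : S.WD u h) :
    P.Q' ε h = u - op μ (P.S1 ε) u := by
  have key : ∀ t ∈ Set.Ioc 0 ε₀, op μ (P.K1 t) h = op μ (P.K2 t) u - op μ (P.DW t) u := by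
    intro t ht
    obtain ⟨a1, b1⟩ := P.smK t ht h
    obtain ⟨a2, b2⟩ := P.smK1 t ht u
    obtain ⟨a3, b3⟩ := P.smW t ht u
    rw [← b1, ← b2, ← b3]
    have e : (⟨op μ (P.K t) h, a1⟩ : S.Sm) = ⟨op μ (P.K1 t) u, a2⟩ -
        ⟨op μ (P.K1 t - P.KD t) u, a3⟩ := by
      apply Subtype.ext
      show op μ (P.K t) h = op μ (P.K1 t) u - op μ (P.K1 t - P.KD t) u
      rw [WD.op_row (P.rowK t ht) hu, op_sub, ContinuousLinearMap.sub_apply]
      abel
    rw [e, map_sub]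
    rfl
  have l1 := P.tendsto_Q' h1 h2 h
  have hD : Tendsto (fun δ => op μ (∫ t in δ..ε, P.DW t) u) (𝓝[>] 0)
      (𝓝 (op μ (∫ t in (0 : ℝ)..ε, P.DW t) u)) :=
    ((Ker.continuous_op μ u).tendsto _).comp (P.tendsto_DW h1 h2)
  have l2 := (IaGb_lim P h1 h2 u).sub hD
  have e : u - op μ (P.S1 ε) u = S.Q u - op μ (P.S0 ε) u -
      op μ (∫ t in (0 : ℝ)..ε, P.DW t) u := by
    rw [S1, op_add, ContinuousLinearMap.add_apply, hu.1]
    abel
  rw [e]
  refine tendsto_nhds_unique (l1.congr' ?_) l2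
  have hm : Set.Ioc 0 ε ∈ 𝓝[>] (0 : ℝ) := Ioc_mem_nhdsGT h1
  filter_upwards [hm] with δ hδ
  rw [← P.int_K2 hδ.1 hδ.2 h2, Ker.op_int μ h (P.intK1' hδ.1 hδ.2 h2),
    Ker.op_int μ u (P.intK2' hδ.1 hδ.2 h2), Ker.op_int μ u (P.intDW hδ.1.le hδ.2 h2),
    ← intervalIntegral.integral_sub]
  · exact IaGb_congr hδ.2 fun t ht => key t ⟨hδ.1.trans ht.1, ht.2.trans h2⟩
  · have hsub : Set.Icc δ ε ⊆ Set.Ioc 0 ε₀ := fun t ht =>
      ⟨lt_of_lt_of_le hδ.1 ht.1, le_trans ht.2 h2⟩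
    exact (((Ker.continuous_op μ u).comp_continuousOn P.cK2).mono hsub).intervalIntegrable_of_Icc
      hδ.2
  · have hsub : Set.Icc δ ε ⊆ Set.Ioc 0 ε₀ := fun t ht =>
      ⟨lt_of_lt_of_le hδ.1 ht.1, le_trans ht.2 h2⟩
    exact (((Ker.continuous_op μ u).comp_continuousOn P.cDW).mono hsub).intervalIntegrable_of_Icc
      hδ.2

theorem perp {ε : ℝ} (h1 : 0 < ε) (h2 : ε ≤ ε₀) {w : C(X, H)} (hw : w ∈ S.N) (u : C(X, H)) :
    ip μ w (P.Q' ε u) = 0 := by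
  exact N_perp P (P.WD_G h1 h2 u) hw

private theorem IaGb_intR {ε : ℝ} (h1 : 0 < ε) (h2 : ε ≤ ε₀) {u h : C(X, H)}
    (hh : ∀ t ∈ Set.Ioc 0 ε₀, op μ (P.R t) h = op μ (P.RD t) u) :
    op μ (∫ t in (0 : ℝ)..ε, P.R t) h = op μ (∫ t in (0 : ℝ)..ε, P.RD t) u := by
  rw [Ker.op_int μ h (P.intR le_rfl h1.le h2), Ker.op_int μ u (P.intRD le_rfl h1.le h2)]
  exact IaGb_congr h1.le fun t ht => hh t ⟨ht.1, ht.2.trans h2⟩

theorem S0_row {ε : ℝ} (h1 : 0 < ε) (h2 : ε ≤ ε₀) {u h : C(X, H)} (hu : S.WD u h) :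
    op μ (P.S0 ε) h = op μ (P.S0D ε) u := by
  rw [S0, S0D, op_sub, op_sub, ContinuousLinearMap.sub_apply, ContinuousLinearMap.sub_apply,
    WD.op_row (P.rowK ε ⟨h1, h2⟩) hu, IaGb_intR P h1 h2 fun t ht => WD.op_row (P.rowR t ht) hu]

theorem S0_opQ {ε : ℝ} (h1 : 0 < ε) (h2 : ε ≤ ε₀) (u : C(X, H)) :
    op μ (P.S0 ε) (S.Q u) = op μ (P.S0 ε) u := by
  rw [S0, op_sub, ContinuousLinearMap.sub_apply, ContinuousLinearMap.sub_apply,
    SRow.op_Q (P.rowK ε ⟨h1, h2⟩)]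
  congr 1
  rw [Ker.op_int μ _ (P.intR le_rfl h1.le h2), Ker.op_int μ _ (P.intR le_rfl h1.le h2)]
  exact IaGb_congr h1.le fun t ht => SRow.op_Q (P.rowR t ⟨ht.1, ht.2.trans h2⟩) u

theorem S0D_opQ {ε : ℝ} (h1 : 0 < ε) (h2 : ε ≤ ε₀) (u : C(X, H)) :
    op μ (P.S0D ε) (S.Q u) = op μ (P.S0D ε) u := by
  rw [S0D, op_sub, ContinuousLinearMap.sub_apply, ContinuousLinearMap.sub_apply,
    SRow.op_Q' (P.rowK ε ⟨h1, h2⟩)]
  congr 1
  rw [Ker.op_int μ _ (P.intRD le_rfl h1.le h2), Ker.op_int μ _ (P.intRD le_rfl h1.le h2)]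
  exact IaGb_congr h1.le fun t ht => SRow.op_Q' (P.rowR t ⟨ht.1, ht.2.trans h2⟩) u

theorem S1_opQ {ε : ℝ} (h1 : 0 < ε) (h2 : ε ≤ ε₀) (u : C(X, H)) :
    op μ (P.S1 ε) (S.Q u) = op μ (P.S1 ε) u := by
  rw [S1, op_add, ContinuousLinearMap.add_apply, ContinuousLinearMap.add_apply,
    P.S0_opQ h1 h2]
  congr 1
  rw [Ker.op_int μ _ (P.intDW le_rfl h1.le h2), Ker.op_int μ _ (P.intDW le_rfl h1.le h2)]
  refine IaGb_congr h1.le fun t ht' => ?_
  have ht : t ∈ Set.Ioc 0 ε₀ := ⟨ht'.1, ht'.2.trans h2⟩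
  have e1 : op μ (P.K1 t) (S.Q u) = op μ (P.K1 t) u := by
    obtain ⟨a1, b1⟩ := P.smK t ht (S.Q u)
    obtain ⟨a2, b2⟩ := P.smK t ht u
    rw [← b1, ← b2]
    have : (⟨op μ (P.K t) (S.Q u), a1⟩ : S.Sm) = ⟨op μ (P.K t) u, a2⟩ :=
      Subtype.ext (SRow.op_Q (P.rowK t ht) u)
    rw [this]
  obtain ⟨a1, b1⟩ := P.smW t ht (S.Q u)
  obtain ⟨a2, b2⟩ := P.smW t ht u
  rw [← b1, ← b2]
  have : (⟨op μ (P.K1 t - P.KD t) (S.Q u), a1⟩ : S.Sm) = ⟨op μ (P.K1 t - P.KD t) u, a2⟩ := by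
    apply Subtype.ext
    show op μ (P.K1 t - P.KD t) (S.Q u) = op μ (P.K1 t - P.KD t) u
    rw [op_sub, ContinuousLinearMap.sub_apply, ContinuousLinearMap.sub_apply, e1,
      SRow.op_Q' (P.rowK t ht)]
  rw [this]

/-- the linear map `k ↦ star B k` -/
private noncomputable def IaGb_starL (B : C(X, H) →L[ℂ] C(X, H)) : Ker X H →L[ℂ] Ker X H :=
  LinearMap.mkContinuous
    { toFun := fun k => star B k
      map_add' := fun a b => star_add_right B a b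
      map_smul' := fun c a => star_smul_right c B a }
    ‖B‖ (fun k => norm_star_le B k)

private theorem IaGb_starL_apply (B : C(X, H) →L[ℂ] C(X, H)) (k : Ker X H) :
    IaGb_starL B k = star B k := rfl

private theorem IaGb_star_FR {k : Ker X H} (hk : k ∈ closure (S.FR : Set (Ker X H))) :
    star S.Q k = k := by
  have hc : IsClosed {k : Ker X H | star S.Q k = k} :=
    isClosed_eq (IaGb_starL S.Q).continuous continuous_id
  refine closure_minimal (s := (S.FR : Set (Ker X H))) ?_ hc hk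
  intro k hk
  induction hk using Submodule.span_induction with
  | mem x hx =>
    obtain ⟨a, ha, b, hb, rfl⟩ := hx
    show star S.Q (rankOne a b) = rankOne a b
    rw [star_rankOne, S.Q_Sm a ha]
  | zero => exact star_zero_right _
  | add x y hx hy ihx ihy =>
    show star S.Q (x + y) = x + y
    rw [star_add_right, ihx, ihy]
  | smul c x hx ih =>
    show star S.Q (c • x) = c • x
    rw [star_smul_right, ih]

theorem Q_S0 [μ.IsOpenPosMeasure] {ε : ℝ} (h1 : 0 < ε) (h2 : ε ≤ ε₀) :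
    star S.Q (P.S0 ε) = P.S0 ε := by
  have e : star S.Q (∫ t in (0 : ℝ)..ε, P.R t) = ∫ t in (0 : ℝ)..ε, P.R t := by
    rw [← IaGb_starL_apply, ← (IaGb_starL S.Q).intervalIntegral_comp_comm
      (P.intR le_rfl h1.le h2)]
    exact IaGb_congr h1.le fun t ht => IaGb_star_FR (P.frR t ⟨ht.1, ht.2.trans h2⟩)
  rw [S0, star_sub_right, e, IaGb_star_FR (P.frK ε ⟨h1, h2⟩)]

theorem Q_S1 [μ.IsOpenPosMeasure] {ε : ℝ} (h1 : 0 < ε) (h2 : ε ≤ ε₀) :
    star S.Q (P.S1 ε) = P.S1 ε := by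
  have e : star S.Q (∫ t in (0 : ℝ)..ε, P.DW t) = ∫ t in (0 : ℝ)..ε, P.DW t := by
    rw [← IaGb_starL_apply, ← (IaGb_starL S.Q).intervalIntegral_comp_comm
      (P.intDW le_rfl h1.le h2)]
    refine IaGb_congr h1.le fun t ht => ?_
    rw [IaGb_starL_apply]
    apply op_injective μ
    rw [op_star]
    refine ContinuousLinearMap.ext fun u => ?_
    rw [ContinuousLinearMap.comp_apply]
    obtain ⟨a, b⟩ := P.smW t ⟨ht.1, ht.2.trans h2⟩ u
    rw [← b]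
    exact S.Q_Sm _ (S.D _).2
  rw [S1, star_add_right, e, P.Q_S0 h1 h2]

theorem S0_mem {ε : ℝ} (h1 : 0 < ε) (h2 : ε ≤ ε₀) :
    P.S0 ε ∈ closure (S.FR : Set (Ker X H)) := by
  have hK : P.K ε ∈ S.FR.topologicalClosure := P.frK ε ⟨h1, h2⟩
  have hR : (∫ t in (0 : ℝ)..ε, P.R t) ∈ S.FR.topologicalClosure := by
    have hcv : Convex ℝ (S.FR.topologicalClosure : Set (Ker X H)) := by
      intro x hx y hy a b _ _ _
      have h1 : a • x = ((a : ℝ) : ℂ) • x := rfl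
      have h2 : b • y = ((b : ℝ) : ℂ) • y := rfl
      rw [h1, h2]
      exact S.FR.topologicalClosure.add_mem (S.FR.topologicalClosure.smul_mem _ hx)
        (S.FR.topologicalClosure.smul_mem _ hy)
    have hI := (intervalIntegrable_iff_integrableOn_Ioc_of_le h1.le).1 (P.intR le_rfl h1.le h2)
    have hv : volume (Set.Ioc (0 : ℝ) ε) = ENNReal.ofReal ε := by
      rw [Real.volume_Ioc, sub_zero]
    have hm := hcv.set_average_mem S.FR.isClosed_topologicalClosure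
      (μ := volume) (t := Set.Ioc (0 : ℝ) ε) (f := P.R)
      (by rw [hv]; simpa using h1) (by rw [hv]; exact ENNReal.ofReal_ne_top)
      ((ae_restrict_mem measurableSet_Ioc).mono fun t ht => P.frR t ⟨ht.1, ht.2.trans h2⟩) hI
    rw [setAverage_eq] at hm
    rw [intervalIntegral.integral_of_le h1.le]
    have hr : volume.real (Set.Ioc (0 : ℝ) ε) = ε := by
      rw [Measure.real, hv, ENNReal.toReal_ofReal h1.le]
    rw [hr] at hm
    have h3 : (∫ t in Set.Ioc 0 ε, P.R t) = ((ε : ℝ) : ℂ) • (ε⁻¹ • ∫ t in Set.Ioc 0 ε, P.R t) := by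
      have h4 : ((ε : ℝ) : ℂ) • (ε⁻¹ • ∫ t in Set.Ioc 0 ε, P.R t) =
          ε • (ε⁻¹ • ∫ t in Set.Ioc 0 ε, P.R t) := rfl
      rw [h4, smul_smul, mul_inv_cancel₀ h1.ne', one_smul]
    rw [h3]
    exact S.FR.topologicalClosure.smul_mem _ hm
  exact S.FR.topologicalClosure.sub_mem hK hR

end DSys.Parx

end Pool.Agent.EXO
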