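import Pool.Agent.EXO.IaKer

/-!
Project EXO, chunk IDX-A, module IaKa: algebra of the product `star`.

PROOFS.
* `op_star`: fix `u`.  In the Banach space `C(X,H)` one has the Bochner integral
  `op μ k u = ∫ y, col k y (u y) ∂μ`: the integrand `y ↦ col k y (u y)` is continuous
  (`ContinuousMap.continuous_of_continuous_uncurry`, the uncurried form is
  `(y,x) ↦ k (x,y) (u y)`), hence integrable; evaluation at `x` is a continuous linear map
  (`ContinuousMap.evalCLM` or similar) and commutes with the integral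
  (`ContinuousLinearMap.integral_comp_comm`).  Apply `B` (again `integral_comp_comm`) and evaluate
  at `x`: `B (op μ k u) x = ∫ B (col k y (u y)) x ∂μ = ∫ star B k (x,y) (u y) ∂μ`.
* `norm_star_le`: `‖star B k (x,y) h‖ = ‖B (col k y h) x‖ ≤ ‖B‖ ‖col k y h‖ ≤ ‖B‖ ‖k‖ ‖h‖`,
  `ContinuousMap.norm_le`, `ContinuousLinearMap.opNorm_le_bound`.
* The additivity statements: `ext`, `star_apply`, `col (k + k') y h = col k y h + col k' y h` etc.
* `op_injective`: let `k` be the difference, `op μ k = 0`.  Fix `x`, `h` and put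
  `u y = (adjoint (k (x,y))) h` (= `col (adj k) x h`); then
  `0 = ⟪h, op μ k u x⟫ = ∫ ⟪h, k (x,y) (u y)⟫ = ∫ ‖u y‖²`, so the continuous function `‖u‖²`
  vanishes (`Continuous.integral_pos_of_hasCompactSupport_nonneg_nonzero` or
  `MeasureTheory.Measure.eq_of_ae_eq`/`Continuous.ae_eq_iff_eq`), hence `k (x,y)` is zero.
-/

open MeasureTheory Filter Topology

namespace Pool.Agent.EXO

variable {X : Type*} [MetricSpace X] [CompactSpace X] [MeasurableSpace X] [BorelSpace X]
variable {H : Type*} [NormedAddCommGroup H] [InnerProductSpace ℂ H] [FiniteDimensional ℂ H]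

namespace Ker

private theorem IaKa_col_add (k k' : Ker X H) (y : X) (h : H) :
    col (k + k') y h = col k y h + col k' y h := by
  ext x
  rfl

private theorem IaKa_col_sub (k k' : Ker X H) (y : X) (h : H) :
    col (k - k') y h = col k y h - col k' y h := by
  ext x
  rfl

private theorem IaKa_col_smul (c : ℂ) (k : Ker X H) (y : X) (h : H) :
    col (c • k) y h = c • col k y h := by
  ext x
  rfl

private theorem IaKa_norm_col (k : Ker X H) (y : X) (h : H) : ‖col k y h‖ ≤ ‖k‖ * ‖h‖ := by
  rw [ContinuousMap.norm_le _ (by positivity)]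
  intro x
  rw [col_apply]
  exact ((k (x, y)).le_opNorm h).trans
    (mul_le_mul_of_nonneg_right (norm_coe_le k (x, y)) (norm_nonneg h))

private theorem IaKa_int (μ : Measure X) [IsFiniteMeasure μ] (k : Ker X H) (u : C(X, H)) :
    Integrable (fun y => col k y (u y)) μ := by
  have hc : Continuous (fun y => col k y (u y)) := by
    apply ContinuousMap.continuous_of_continuous_uncurry
    have h1 : Continuous fun p : X × X => k (p.2, p.1) := k.continuous.comp continuous_swap
    exact h1.clm_apply (u.continuous.comp continuous_fst)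
  exact hc.integrable_of_hasCompactSupport (HasCompactSupport.of_compactSpace _)

private theorem IaKa_op_eq (μ : Measure X) [IsFiniteMeasure μ] (k : Ker X H) (u : C(X, H)) :
    op μ k u = ∫ y, col k y (u y) ∂μ := by
  ext x
  rw [op_apply]
  exact (ContinuousMap.evalCLM ℂ x).integral_comp_comm (IaKa_int μ k u)


variable (μ : Measure X) [IsFiniteMeasure μ]

theorem op_star (B : C(X, H) →L[ℂ] C(X, H)) (k : Ker X H) :
    op μ (star B k) = B.comp (op μ k) := by
  ext u x
  rw [op_apply, ContinuousLinearMap.comp_apply, IaKa_op_eq, ← B.integral_comp_comm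
    (IaKa_int μ k u)]
  exact (ContinuousMap.evalCLM ℂ x).integral_comp_comm (B.integrable_comp (IaKa_int μ k u))

theorem norm_star_le (B : C(X, H) →L[ℂ] C(X, H)) (k : Ker X H) :
    ‖star B k‖ ≤ ‖B‖ * ‖k‖ := by
  rw [norm_le (by positivity)]
  rintro ⟨x, y⟩
  apply ContinuousLinearMap.opNorm_le_bound _ (by positivity)
  intro h
  rw [star_apply]
  calc ‖B (col k y h) x‖ ≤ ‖B (col k y h)‖ := ContinuousMap.norm_coe_le_norm _ x
    _ ≤ ‖B‖ * ‖col k y h‖ := B.le_opNorm _
    _ ≤ ‖B‖ * (‖k‖ * ‖h‖) := mul_le_mul_of_nonneg_left (IaKa_norm_col k y h) B.opNorm_nonneg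
    _ = ‖B‖ * ‖k‖ * ‖h‖ := by ring

theorem star_add_left (B B' : C(X, H) →L[ℂ] C(X, H)) (k : Ker X H) :
    star (B + B') k = star B k + star B' k := by
  apply ext
  intro x y
  apply ContinuousLinearMap.ext
  intro h
  rfl

theorem star_sub_left (B B' : C(X, H) →L[ℂ] C(X, H)) (k : Ker X H) :
    star (B - B') k = star B k - star B' k := by
  apply ext
  intro x y
  apply ContinuousLinearMap.ext
  intro h
  rfl

theorem star_smul_left (c : ℂ) (B : C(X, H) →L[ℂ] C(X, H)) (k : Ker X H) :
    star (c • B) k = c • star B k := by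
  apply ext
  intro x y
  apply ContinuousLinearMap.ext
  intro h
  rfl

theorem star_add_right (B : C(X, H) →L[ℂ] C(X, H)) (k k' : Ker X H) :
    star B (k + k') = star B k + star B k' := by
  apply ext
  intro x y
  apply ContinuousLinearMap.ext
  intro h
  rw [star_apply, IaKa_col_add, map_add]
  rfl

theorem star_sub_right (B : C(X, H) →L[ℂ] C(X, H)) (k k' : Ker X H) :
    star B (k - k') = star B k - star B k' := by
  apply ext
  intro x y
  apply ContinuousLinearMap.ext
  intro h
  rw [star_apply, IaKa_col_sub, map_sub]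
  rfl

theorem star_smul_right (c : ℂ) (B : C(X, H) →L[ℂ] C(X, H)) (k : Ker X H) :
    star B (c • k) = c • star B k := by
  apply ext
  intro x y
  apply ContinuousLinearMap.ext
  intro h
  rw [star_apply, IaKa_col_smul, map_smul]
  rfl

theorem star_zero_right (B : C(X, H) →L[ℂ] C(X, H)) : star B (0 : Ker X H) = 0 := by
  have h := star_smul_right (0 : ℂ) B (0 : Ker X H)
  rwa [zero_smul, zero_smul] at h

theorem star_sum_right {ι : Type*} (s : Finset ι) (B : C(X, H) →L[ℂ] C(X, H))
    (k : ι → Ker X H) : star B (∑ i ∈ s, k i) = ∑ i ∈ s, star B (k i) := by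
  classical
  induction s using Finset.induction_on with
  | empty => rw [Finset.sum_empty, Finset.sum_empty, star_zero_right]
  | insert a s ha ih => rw [Finset.sum_insert ha, Finset.sum_insert ha, star_add_right, ih]

theorem star_comp (A B : C(X, H) →L[ℂ] C(X, H)) (k : Ker X H) :
    star (A.comp B) k = star A (star B k) := by
  apply ext
  intro x y
  apply ContinuousLinearMap.ext
  intro h
  rw [star_apply, star_apply, ContinuousLinearMap.comp_apply]
  congr 1

theorem star_id (k : Ker X H) : star (ContinuousLinearMap.id ℂ C(X, H)) k = k := by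
  apply ext
  intro x y
  apply ContinuousLinearMap.ext
  intro h
  rfl

theorem op_add (k k' : Ker X H) : op μ (k + k') = op μ k + op μ k' := by
  ext u x
  rw [op_apply]
  show ∫ y, (k + k') (x, y) (u y) ∂μ = (∫ y, k (x, y) (u y) ∂μ) + ∫ y, k' (x, y) (u y) ∂μ
  rw [← integral_add (integrable_kerApply μ k u x) (integrable_kerApply μ k' u x)]
  rfl

theorem op_sub (k k' : Ker X H) : op μ (k - k') = op μ k - op μ k' := by
  ext u x
  rw [op_apply]
  show ∫ y, (k - k') (x, y) (u y) ∂μ = (∫ y, k (x, y) (u y) ∂μ) - ∫ y, k' (x, y) (u y) ∂μ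
  rw [← integral_sub (integrable_kerApply μ k u x) (integrable_kerApply μ k' u x)]
  rfl

theorem op_smul (c : ℂ) (k : Ker X H) : op μ (c • k) = c • op μ k := by
  ext u x
  rw [op_apply]
  show ∫ y, (c • k) (x, y) (u y) ∂μ = c • ∫ y, k (x, y) (u y) ∂μ
  rw [← integral_smul]
  rfl

theorem op_sum {ι : Type*} (s : Finset ι) (k : ι → Ker X H) :
    op μ (∑ i ∈ s, k i) = ∑ i ∈ s, op μ (k i) := by
  classical
  induction s using Finset.induction_on with
  | empty =>
    rw [Finset.sum_empty, Finset.sum_empty]
    have h := op_smul μ (0 : ℂ) (0 : Ker X H)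
    rwa [zero_smul, zero_smul] at h
  | insert a s ha ih => rw [Finset.sum_insert ha, Finset.sum_insert ha, op_add, ih]

theorem op_injective [μ.IsOpenPosMeasure] {k k' : Ker X H} (h : op μ k = op μ k') :
    k = k' := by
  rw [← sub_eq_zero]
  have h0 : op μ (k - k') = 0 := by rw [op_sub, h, sub_self]
  set d : Ker X H := k - k' with hd
  apply ext
  intro x y
  have hadj : ContinuousLinearMap.adjoint (d (x, y)) = 0 := by
    apply ContinuousLinearMap.ext
    intro v
    set u : C(X, H) := col (adj d) x v with hu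
    have hui : ∀ z, u z = ContinuousLinearMap.adjoint (d (x, z)) v := fun z => rfl
    have h1 : op μ d u x = 0 := by rw [h0]; rfl
    rw [op_apply] at h1
    have h2 : ∫ z, inner ℂ v (d (x, z) (u z)) ∂μ = 0 := by
      rw [integral_inner (integrable_kerApply μ d u x), h1, inner_zero_right]
    have h3 : ∀ z, inner ℂ v (d (x, z) (u z)) = ((‖u z‖ ^ 2 : ℝ) : ℂ) := by
      intro z
      rw [← ContinuousLinearMap.adjoint_inner_left, ← hui, inner_self_eq_norm_sq_to_K]
      norm_cast
    rw [integral_congr_ae (Eventually.of_forall h3), integral_complex_ofReal] at h2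
    have h4 : ∫ z, ‖u z‖ ^ 2 ∂μ = 0 := by exact_mod_cast h2
    have hc : Continuous fun z => ‖u z‖ ^ 2 := u.continuous.norm.pow 2
    rw [integral_eq_zero_iff_of_nonneg (fun z => sq_nonneg _)
      (hc.integrable_of_hasCompactSupport (HasCompactSupport.of_compactSpace _))] at h4
    have h5 : (fun z => ‖u z‖ ^ 2) = fun _ => 0 :=
      (Continuous.ae_eq_iff_eq μ hc continuous_const).1 h4
    have h6 := congrFun h5 y
    simp only [ne_eq, OfNat.ofNat_ne_zero, not_false_eq_true, pow_eq_zero_iff,
      norm_eq_zero] at h6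
    rw [← hui, h6]
    rfl
  have h7 := congrArg ContinuousLinearMap.adjoint hadj
  rw [ContinuousLinearMap.adjoint_adjoint, map_zero] at h7
  rw [h7]
  rfl

theorem op_rankOne (a b u : C(X, H)) : op μ (rankOne a b) u = ip μ b u • a := by
  ext x
  rw [op_apply]
  show ∫ y, inner ℂ (b y) (u y) • a x ∂μ = (∫ y, inner ℂ (b y) (u y) ∂μ) • a x
  exact integral_smul_const _ _

theorem star_rankOne (B : C(X, H) →L[ℂ] C(X, H)) (a b : C(X, H)) :
    star B (rankOne a b) = rankOne (B a) b := by
  apply ext
  intro x y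
  apply ContinuousLinearMap.ext
  intro h
  rw [star_apply, rankOne_apply]
  have h1 : col (rankOne a b) y h = (inner ℂ (b y) h : ℂ) • a := by
    ext z
    rfl
  rw [h1, map_smul]
  rfl

end Ker

end Pool.Agent.EXO
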