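import Pool.Agent.EXO.IaKer

/-!
Project EXO, chunk IDX-A, module IaKc: the `L²` inner product of continuous functions and
adjoint kernels.

PROOFS.  All functions are continuous on a compact space, so integrable.
* `ip_conj`: `integral_conj`, `inner_conj_symm`.  `norm_ip_le`: `norm_integral_le_of_norm_le_const`.
* `ip_self_eq_zero`: `inner (u x) (u x) = (‖u x‖² : ℂ)`, the integral of the continuous
  nonnegative function `‖u‖²` is zero, so it vanishes
  (`MeasureTheory.integral_eq_zero_iff_of_nonneg`, `Continuous.ae_eq_iff_eq`).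
* `inner_op`: `inner` commutes with the integral (`integral_inner` / `innerSL` and
  `ContinuousLinearMap.integral_comp_comm`); `⟪h, k (x,y) (u y)⟫ = ⟪adjoint (k (x,y)) h, u y⟫`.
* `ip_op_adj`: `∫ x ⟪u x, ∫ y k (x,y) (v y)⟫ = ∫ x ∫ y ⟪adjoint (k (x,y)) (u x), v y⟫`, Fubini
  (`integral_integral_swap`), `∫ y ⟪∫ x adjoint (k (x,y)) (u x), v y⟫`.
-/

open MeasureTheory Filter Topology

namespace Pool.Agent.EXO

variable {X : Type*} [MetricSpace X] [CompactSpace X] [MeasurableSpace X] [BorelSpace X]
variable {H : Type*} [NormedAddCommGroup H] [InnerProductSpace ℂ H] [FiniteDimensional ℂ H]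

namespace Ker

theorem ip_conj (μ : Measure X) (u v : C(X, H)) :
    (starRingEnd ℂ) (ip μ u v) = ip μ v u := by
  unfold ip
  rw [← integral_conj]
  congr 1
  funext x
  exact inner_conj_symm _ _

variable (μ : Measure X) [IsFiniteMeasure μ]

theorem norm_ip_le (u v : C(X, H)) : ‖ip μ u v‖ ≤ ‖u‖ * ‖v‖ * μ.real Set.univ := by
  unfold ip
  apply norm_integral_le_of_norm_le_const
  filter_upwards with x
  refine le_trans (norm_inner_le_norm _ _) ?_
  exact mul_le_mul (ContinuousMap.norm_coe_le_norm u x) (ContinuousMap.norm_coe_le_norm v x)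
    (norm_nonneg _) (norm_nonneg _)

theorem ip_sub_left (u u' v : C(X, H)) : ip μ (u - u') v = ip μ u v - ip μ u' v := by
  unfold ip
  rw [← integral_sub (integrable_inner μ u v) (integrable_inner μ u' v)]
  congr 1
  funext x
  exact inner_sub_left _ _ _

theorem ip_sub_right (u v v' : C(X, H)) : ip μ u (v - v') = ip μ u v - ip μ u v' := by
  unfold ip
  rw [← integral_sub (integrable_inner μ u v) (integrable_inner μ u v')]
  congr 1
  funext x
  exact inner_sub_right _ _ _

theorem ip_sum_right {ι : Type*} (s : Finset ι) (u : C(X, H)) (v : ι → C(X, H)) :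
    ip μ u (∑ i ∈ s, v i) = ∑ i ∈ s, ip μ u (v i) := by
  classical
  induction s using Finset.induction_on with
  | empty => rw [Finset.sum_empty, Finset.sum_empty, ip_zero_right]
  | insert a s ha ih => rw [Finset.sum_insert ha, Finset.sum_insert ha, ip_add_right, ih]

theorem ip_sum_left {ι : Type*} (s : Finset ι) (u : ι → C(X, H)) (v : C(X, H)) :
    ip μ (∑ i ∈ s, u i) v = ∑ i ∈ s, ip μ (u i) v := by
  classical
  induction s using Finset.induction_on with
  | empty => rw [Finset.sum_empty, Finset.sum_empty, ip_zero_left]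
  | insert a s ha ih => rw [Finset.sum_insert ha, Finset.sum_insert ha, ip_add_left, ih]

theorem continuous_ip : Continuous fun p : C(X, H) × C(X, H) => ip μ p.1 p.2 := by
  rw [continuous_iff_continuousAt]
  rintro ⟨u0, v0⟩
  rw [ContinuousAt, tendsto_iff_norm_sub_tendsto_zero]
  have hb : ∀ p : C(X, H) × C(X, H), ‖ip μ p.1 p.2 - ip μ (u0, v0).1 (u0, v0).2‖ ≤
      (‖p.1 - u0‖ * ‖p.2‖ + ‖u0‖ * ‖p.2 - v0‖) * μ.real Set.univ := by
    intro p
    have h1 : ip μ p.1 p.2 - ip μ (u0, v0).1 (u0, v0).2 =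
        ip μ (p.1 - u0) p.2 + ip μ u0 (p.2 - v0) := by
      rw [ip_sub_left, ip_sub_right]
      show ip μ p.1 p.2 - ip μ u0 v0 = _
      ring
    rw [h1]
    refine le_trans (norm_add_le _ _) ?_
    have h2 := norm_ip_le μ (p.1 - u0) p.2
    have h3 := norm_ip_le μ u0 (p.2 - v0)
    linarith
  refine squeeze_zero (fun _ => norm_nonneg _) hb ?_
  have hc : Continuous fun p : C(X, H) × C(X, H) =>
      (‖p.1 - u0‖ * ‖p.2‖ + ‖u0‖ * ‖p.2 - v0‖) * μ.real Set.univ := by fun_prop
  have h4 := hc.tendsto (u0, v0)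
  simp only [sub_self, norm_zero, zero_mul, mul_zero, add_zero] at h4
  exact h4

theorem ip_self_eq_zero [μ.IsOpenPosMeasure] {u : C(X, H)} (h : ip μ u u = 0) : u = 0 := by
  have h3 : ∀ z, (inner ℂ (u z) (u z) : ℂ) = ((‖u z‖ ^ 2 : ℝ) : ℂ) := by
    intro z
    rw [inner_self_eq_norm_sq_to_K]
    norm_cast
  unfold ip at h
  rw [integral_congr_ae (Eventually.of_forall h3), integral_complex_ofReal] at h
  have h4 : ∫ z, ‖u z‖ ^ 2 ∂μ = 0 := by exact_mod_cast h
  have hc : Continuous fun z => ‖u z‖ ^ 2 := u.continuous.norm.pow 2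
  rw [integral_eq_zero_iff_of_nonneg (fun z => sq_nonneg _)
    (hc.integrable_of_hasCompactSupport (HasCompactSupport.of_compactSpace _))] at h4
  have h5 : (fun z => ‖u z‖ ^ 2) = fun _ => 0 :=
    (Continuous.ae_eq_iff_eq μ hc continuous_const).1 h4
  ext y
  have h6 := congrFun h5 y
  simp only [ne_eq, OfNat.ofNat_ne_zero, not_false_eq_true, pow_eq_zero_iff,
    norm_eq_zero] at h6
  rw [h6]
  rfl

theorem ip_self_nonneg (u : C(X, H)) : 0 ≤ (ip μ u u).re ∧ (ip μ u u).im = 0 := by
  have h3 : ∀ z, (inner ℂ (u z) (u z) : ℂ) = ((‖u z‖ ^ 2 : ℝ) : ℂ) := by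
    intro z
    rw [inner_self_eq_norm_sq_to_K]
    norm_cast
  unfold ip
  rw [integral_congr_ae (Eventually.of_forall h3), integral_complex_ofReal]
  refine ⟨?_, Complex.ofReal_im _⟩
  rw [Complex.ofReal_re]
  exact integral_nonneg fun z => sq_nonneg _

theorem adj_adj (k : Ker X H) : adj (adj k) = k := by
  apply ext
  intro x y
  rw [adj_apply, adj_apply, ContinuousLinearMap.adjoint_adjoint]

theorem adj_add (k k' : Ker X H) : adj (k + k') = adj k + adj k' := by
  apply ext
  intro x y
  rw [adj_apply, add_apply, map_add, add_apply, adj_apply, adj_apply]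

theorem adj_sub (k k' : Ker X H) : adj (k - k') = adj k - adj k' := by
  apply ext
  intro x y
  rw [adj_apply, sub_apply, map_sub, sub_apply, adj_apply, adj_apply]

theorem adj_sum {ι : Type*} (s : Finset ι) (k : ι → Ker X H) :
    adj (∑ i ∈ s, k i) = ∑ i ∈ s, adj (k i) := by
  classical
  induction s using Finset.induction_on with
  | empty =>
    rw [Finset.sum_empty, Finset.sum_empty]
    apply ext
    intro x y
    rw [adj_apply, zero_apply, map_zero, zero_apply]
  | insert a s ha ih => rw [Finset.sum_insert ha, Finset.sum_insert ha, adj_add, ih]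

theorem adj_rankOne (a b : C(X, H)) : adj (rankOne a b) = rankOne b a := by
  apply ext
  intro x y
  apply ContinuousLinearMap.ext
  intro h
  apply ext_inner_right ℂ
  intro v
  rw [adj_apply, ContinuousLinearMap.adjoint_inner_left, rankOne_apply, rankOne_apply,
    inner_smul_right, inner_smul_left, inner_conj_symm, mul_comm]

theorem inner_op (k : Ker X H) (u : C(X, H)) (x : X) (h : H) :
    inner ℂ h (op μ k u x) = ip μ (col (adj k) x h) u := by
  rw [op_apply, ← integral_inner (integrable_kerApply μ k u x)]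
  unfold ip
  congr 1
  funext y
  rw [col_apply, adj_apply, ContinuousLinearMap.adjoint_inner_left]

theorem ip_op_adj (k : Ker X H) (u v : C(X, H)) :
    ip μ u (op μ k v) = ip μ (op μ (adj k) u) v := by
  have e1 : ip μ u (op μ k v) = ∫ x, ∫ y, inner ℂ (u x) (k (x, y) (v y)) ∂μ ∂μ := by
    show ∫ x, inner ℂ (u x) (op μ k v x) ∂μ = _
    congr 1
    funext x
    rw [op_apply, integral_inner (integrable_kerApply μ k v x)]
  have e2 : ip μ (op μ (adj k) u) v = ∫ y, ∫ x, inner ℂ (u x) (k (x, y) (v y)) ∂μ ∂μ := by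
    show ∫ y, inner ℂ (op μ (adj k) u y) (v y) ∂μ = _
    congr 1
    funext y
    rw [← inner_conj_symm, inner_op, adj_adj, ip_conj]
    rfl
  rw [e1, e2]
  have hF : Continuous fun p : X × X => (inner ℂ (u p.1) (k (p.1, p.2) (v p.2)) : ℂ) := by
    apply (u.continuous.comp continuous_fst).inner
    exact k.continuous.clm_apply (v.continuous.comp continuous_snd)
  exact integral_integral_swap
    (hF.integrable_of_hasCompactSupport (HasCompactSupport.of_compactSpace _))

theorem ip_op_adj' (k : Ker X H) (u v : C(X, H)) :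
    ip μ (op μ k u) v = ip μ u (op μ (adj k) v) := by
  rw [ip_op_adj, adj_adj]

end Ker

end Pool.Agent.EXO
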