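import Mathlib

/-!
Project EXO, chunk IDX-A, module IaKer: continuous kernels on a compact space.
Author: helper26.
-/

open MeasureTheory

namespace Pool.Agent.EXO

/-- Continuous kernels with values in the operators of `H`.  This is a type synonym (not
reducible) of `C(X × X, H →L[ℂ] H)` with its sup norm. -/
def Ker (X H : Type*) [TopologicalSpace X] [NormedAddCommGroup H] [InnerProductSpace ℂ H] :
    Type _ := C(X × X, H →L[ℂ] H)

namespace Ker

section basic

variable {X : Type*} [TopologicalSpace X] [CompactSpace X]
variable {H : Type*} [NormedAddCommGroup H] [InnerProductSpace ℂ H]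

noncomputable instance : NormedAddCommGroup (Ker X H) :=
  inferInstanceAs (NormedAddCommGroup C(X × X, H →L[ℂ] H))

noncomputable instance : NormedSpace ℂ (Ker X H) :=
  inferInstanceAs (NormedSpace ℂ C(X × X, H →L[ℂ] H))

noncomputable instance : NormedSpace ℝ (Ker X H) := NormedSpace.restrictScalars ℝ ℂ (Ker X H)

instance : IsScalarTower ℝ ℂ (Ker X H) := RestrictScalars.isScalarTower ℝ ℂ (Ker X H)

instance [CompleteSpace H] : CompleteSpace (Ker X H) :=
  inferInstanceAs (CompleteSpace C(X × X, H →L[ℂ] H))

instance : FunLike (Ker X H) (X × X) (H →L[ℂ] H) :=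
  inferInstanceAs (FunLike C(X × X, H →L[ℂ] H) (X × X) (H →L[ℂ] H))

/-- The kernel with the values `f p`. -/
def mk (f : X × X → (H →L[ℂ] H)) (hf : Continuous f) : Ker X H :=
  (⟨f, hf⟩ : C(X × X, H →L[ℂ] H))

@[simp] lemma mk_apply (f : X × X → (H →L[ℂ] H)) (hf : Continuous f) (p : X × X) :
    mk f hf p = f p := rfl

lemma continuous (k : Ker X H) : Continuous fun p : X × X => k p :=
  ContinuousMap.continuous (k : C(X × X, H →L[ℂ] H))

@[ext] lemma ext {k k' : Ker X H} (h : ∀ x y, k (x, y) = k' (x, y)) : k = k' :=
  DFunLike.ext k k' fun p => h p.1 p.2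

@[simp] lemma add_apply (k k' : Ker X H) (p : X × X) : (k + k') p = k p + k' p := rfl
@[simp] lemma sub_apply (k k' : Ker X H) (p : X × X) : (k - k') p = k p - k' p := rfl
@[simp] lemma neg_apply (k : Ker X H) (p : X × X) : (-k) p = -(k p) := rfl
@[simp] lemma zero_apply (p : X × X) : (0 : Ker X H) p = 0 := rfl
@[simp] lemma smul_apply (c : ℂ) (k : Ker X H) (p : X × X) : (c • k) p = c • k p := rfl

lemma sum_apply {ι : Type*} (s : Finset ι) (k : ι → Ker X H) (p : X × X) :
    (∑ i ∈ s, k i) p = ∑ i ∈ s, k i p := by
  classical
  induction s using Finset.induction_on with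
  | empty => simp
  | insert a s ha ih => rw [Finset.sum_insert ha, Finset.sum_insert ha, add_apply, ih]

lemma norm_coe_le (k : Ker X H) (p : X × X) : ‖k p‖ ≤ ‖k‖ :=
  ContinuousMap.norm_coe_le_norm (k : C(X × X, H →L[ℂ] H)) p

lemma norm_le {k : Ker X H} {C : ℝ} (hC : 0 ≤ C) : ‖k‖ ≤ C ↔ ∀ p, ‖k p‖ ≤ C :=
  ContinuousMap.norm_le (k : C(X × X, H →L[ℂ] H)) hC

/-- Evaluation at a point. -/
noncomputable def evalCLM (p : X × X) : Ker X H →L[ℂ] (H →L[ℂ] H) :=
  LinearMap.mkContinuous
    { toFun := fun k => k p
      map_add' := fun _ _ => rfl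
      map_smul' := fun _ _ => rfl } 1 (fun k => by
        rw [one_mul]
        exact norm_coe_le k p)

@[simp] lemma evalCLM_apply (p : X × X) (k : Ker X H) : evalCLM p k = k p := rfl

end basic

variable {X : Type*} [MetricSpace X] [CompactSpace X] [MeasurableSpace X] [BorelSpace X]
variable {H : Type*} [NormedAddCommGroup H] [InnerProductSpace ℂ H] [FiniteDimensional ℂ H]

/-- The function `x ↦ ∫ k(x,y) u(y) dμ(y)`. -/
noncomputable def opFun (μ : Measure X) [IsFiniteMeasure μ] (k : Ker X H) (u : C(X, H)) :
    C(X, H) where
  toFun x := ∫ y, k (x, y) (u y) ∂μ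
  continuous_toFun := by
    have := continuous_parametric_integral_of_continuous (μ := μ)
      (f := fun (x : X) (y : X) => k (x, y) (u y))
      (by
        have h1 : Continuous fun p : X × X => k p := k.continuous
        have h2 : Continuous fun p : X × X => u p.2 := u.continuous.comp continuous_snd
        exact h1.clm_apply h2) isCompact_univ
    simpa using this

@[simp] lemma opFun_apply (μ : Measure X) [IsFiniteMeasure μ] (k : Ker X H) (u : C(X, H))
    (x : X) : opFun μ k u x = ∫ y, k (x, y) (u y) ∂μ := rfl

lemma integrable_kerApply (μ : Measure X) [IsFiniteMeasure μ] (k : Ker X H) (u : C(X, H))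
    (x : X) : Integrable (fun y => k (x, y) (u y)) μ := by
  have h : Continuous fun y => k (x, y) (u y) :=
    (k.continuous.comp (by fun_prop : Continuous fun y : X => (x, y))).clm_apply u.continuous
  exact h.integrable_of_hasCompactSupport (HasCompactSupport.of_compactSpace _)

/-- The bounded operator on `C(X, H)` with the kernel `k`. -/
noncomputable def op (μ : Measure X) [IsFiniteMeasure μ] (k : Ker X H) :
    C(X, H) →L[ℂ] C(X, H) :=
  LinearMap.mkContinuous
    { toFun := opFun μ k
      map_add' := fun u v => by
        ext x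
        simp only [opFun_apply, ContinuousMap.add_apply, map_add]
        exact integral_add (integrable_kerApply μ k u x) (integrable_kerApply μ k v x)
      map_smul' := fun c u => by
        ext x
        simp only [opFun_apply, ContinuousMap.smul_apply, map_smul, RingHom.id_apply]
        exact integral_smul c _ }
    (‖k‖ * μ.real Set.univ)
    (fun u => by
      rw [ContinuousMap.norm_le _ (by positivity)]
      intro x
      simp only [LinearMap.coe_mk, AddHom.coe_mk, opFun_apply]
      calc ‖∫ y, k (x, y) (u y) ∂μ‖ ≤ ‖k‖ * ‖u‖ * μ.real Set.univ := by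
            apply norm_integral_le_of_norm_le_const
            filter_upwards with y
            calc ‖k (x, y) (u y)‖ ≤ ‖k (x, y)‖ * ‖u y‖ := (k (x, y)).le_opNorm _
              _ ≤ ‖k‖ * ‖u‖ := by
                gcongr
                · exact norm_coe_le k (x, y)
                · exact ContinuousMap.norm_coe_le_norm u y
        _ = ‖k‖ * μ.real Set.univ * ‖u‖ := by ring)

lemma op_apply (μ : Measure X) [IsFiniteMeasure μ] (k : Ker X H) (u : C(X, H)) (x : X) :
    op μ k u x = ∫ y, k (x, y) (u y) ∂μ := rfl

lemma norm_op_le (μ : Measure X) [IsFiniteMeasure μ] (k : Ker X H) :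
    ‖op μ k‖ ≤ ‖k‖ * μ.real Set.univ :=
  LinearMap.mkContinuous_norm_le _ (by positivity) _

/-- The column `x ↦ k(x,y) h` of the kernel `k`. -/
noncomputable def col (k : Ker X H) (y : X) (h : H) : C(X, H) where
  toFun x := k (x, y) h
  continuous_toFun :=
    (k.continuous.comp (by fun_prop : Continuous fun x : X => (x, y))).clm_apply
      continuous_const

@[simp] lemma col_apply (k : Ker X H) (y : X) (h : H) (x : X) : col k y h x = k (x, y) h := rfl

lemma continuous_col (k : Ker X H) (h : H) : Continuous fun y => col k y h := by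
  apply ContinuousMap.continuous_of_continuous_uncurry
  have h1 : Continuous fun p : X × X => k (p.2, p.1) := k.continuous.comp continuous_swap
  exact h1.clm_apply continuous_const

/-- The product `B * k` of a bounded operator `B` on `C(X, H)` and a kernel `k`: the columns of
`B * k` are the images under `B` of the columns of `k`. -/
noncomputable def star (B : C(X, H) →L[ℂ] C(X, H)) (k : Ker X H) : Ker X H :=
  mk (fun p => LinearMap.toContinuousLinearMap
    { toFun := fun h => B (col k p.2 h) p.1
      map_add' := fun h h' => by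
        have : col k p.2 (h + h') = col k p.2 h + col k p.2 h' := by ext x; simp
        rw [this, map_add]; rfl
      map_smul' := fun c h => by
        have : col k p.2 (c • h) = c • col k p.2 h := by ext x; simp
        rw [this, map_smul]; rfl })
  (by
    rw [continuous_clm_apply]
    intro h
    have h1 : Continuous fun p : X × X => B (col k p.2 h) :=
      B.continuous.comp ((continuous_col k h).comp continuous_snd)
    have h2 : Continuous fun p : X × X => ((B (col k p.2 h) : C(X, H)), p.1) :=
      h1.prodMk continuous_fst
    exact (continuous_eval (F := C(X, H))).comp h2)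

lemma star_apply (B : C(X, H) →L[ℂ] C(X, H)) (k : Ker X H) (x y : X) (h : H) :
    star B k (x, y) h = B (col k y h) x := rfl

/-- The trace of a kernel. -/
noncomputable def tr (μ : Measure X) (k : Ker X H) : ℂ :=
  ∫ x, LinearMap.trace ℂ H (k (x, x) : H →ₗ[ℂ] H) ∂μ

/-- The kernel of rank one `a(x) ⟨b(y), ·⟩`. -/
noncomputable def rankOne (a b : C(X, H)) : Ker X H :=
  mk (fun p => (innerSL ℂ (b p.2)).smulRight (a p.1))
  (by
    rw [continuous_clm_apply]
    intro h
    simp only [ContinuousLinearMap.smulRight_apply, innerSL_apply_apply]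
    have h1 : Continuous fun p : X × X => b p.2 := b.continuous.comp continuous_snd
    have h2 : Continuous fun p : X × X => a p.1 := a.continuous.comp continuous_fst
    exact (h1.inner continuous_const).smul h2)

lemma rankOne_apply (a b : C(X, H)) (x y : X) (h : H) :
    rankOne a b (x, y) h = inner ℂ (b y) h • a x := rfl

/-- The `L²` inner product of continuous functions. -/
noncomputable def ip (μ : Measure X) (u v : C(X, H)) : ℂ := ∫ x, inner ℂ (u x) (v x) ∂μ

/-- The adjoint kernel `(x,y) ↦ k(y,x)*`. -/
noncomputable def adj (k : Ker X H) : Ker X H :=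
  mk (fun p => ContinuousLinearMap.adjoint (k (p.2, p.1)))
  ((ContinuousLinearMap.adjoint (𝕜 := ℂ) (E := H) (F := H)).continuous.comp
      (k.continuous.comp continuous_swap))

lemma adj_apply (k : Ker X H) (x y : X) :
    adj k (x, y) = ContinuousLinearMap.adjoint (k (y, x)) := rfl

lemma integrable_inner (μ : Measure X) [IsFiniteMeasure μ] (u v : C(X, H)) :
    Integrable (fun x => inner ℂ (u x) (v x)) μ := by
  have h : Continuous fun x => inner ℂ (u x) (v x) := u.continuous.inner v.continuous
  exact h.integrable_of_hasCompactSupport (HasCompactSupport.of_compactSpace _)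

lemma ip_add_left (μ : Measure X) [IsFiniteMeasure μ] (u u' v : C(X, H)) :
    ip μ (u + u') v = ip μ u v + ip μ u' v := by
  simp only [ip, ContinuousMap.add_apply, inner_add_left]
  exact integral_add (integrable_inner μ u v) (integrable_inner μ u' v)

lemma ip_add_right (μ : Measure X) [IsFiniteMeasure μ] (u v v' : C(X, H)) :
    ip μ u (v + v') = ip μ u v + ip μ u v' := by
  simp only [ip, ContinuousMap.add_apply, inner_add_right]
  exact integral_add (integrable_inner μ u v) (integrable_inner μ u v')

lemma ip_smul_left (μ : Measure X) (c : ℂ) (u v : C(X, H)) :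
    ip μ (c • u) v = (starRingEnd ℂ) c * ip μ u v := by
  simp only [ip, ContinuousMap.smul_apply, inner_smul_left]
  exact integral_const_mul _ _

lemma ip_smul_right (μ : Measure X) (c : ℂ) (u v : C(X, H)) :
    ip μ u (c • v) = c * ip μ u v := by
  simp only [ip, ContinuousMap.smul_apply, inner_smul_right]
  exact integral_const_mul _ _

lemma ip_zero_left (μ : Measure X) (v : C(X, H)) : ip μ 0 v = 0 := by simp [ip]

lemma ip_zero_right (μ : Measure X) (v : C(X, H)) : ip μ v 0 = 0 := by simp [ip]

end Ker

end Pool.Agent.EXO
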