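import Pool.Agent.EXO.IaSys

/-!
Project EXO, chunk IDX-A, module IaPar: the operators and kernels built from a parametrix.
Author: helper26.
-/

open MeasureTheory Filter Topology

namespace Pool.Agent.EXO

variable {X : Type*} [MetricSpace X] [CompactSpace X] [MeasurableSpace X] [BorelSpace X]
variable {H : Type*} [NormedAddCommGroup H] [InnerProductSpace ℂ H] [FiniteDimensional ℂ H]

open Ker

namespace DSys.Parx

variable {μ : Measure X} [IsFiniteMeasure μ] {S : DSys μ H} {ε₀ : ℝ} (P : S.Parx ε₀)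

/-- `G = ∫₀^ε K_s ds`. -/
noncomputable def G (ε : ℝ) (u : C(X, H)) : C(X, H) := ∫ t in (0 : ℝ)..ε, op μ (P.K t) u

/-- The property of being the operator `Q' = D G = ∫₀^ε D K_s ds`. -/
def IsQ' (ε : ℝ) (B : C(X, H) →L[ℂ] C(X, H)) : Prop :=
  ∀ u, B u = ∫ t in (0 : ℝ)..ε, op μ (P.K1 t) u

open Classical in
/-- `Q' = D G = ∫₀^ε D K_s ds` (see `exists_Q'` in IaGa). -/
noncomputable def Q' (ε : ℝ) : C(X, H) →L[ℂ] C(X, H) :=
  if h : ∃ B, P.IsQ' ε B then h.choose else 0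

/-- `S₀ = K_ε - ∫₀^ε R_s ds`, so that `D Q' = 1 - S₀`. -/
noncomputable def S0 (ε : ℝ) : Ker X H := P.K ε - ∫ t in (0 : ℝ)..ε, P.R t

/-- `S₀ D`. -/
noncomputable def S0D (ε : ℝ) : Ker X H := P.KD ε - ∫ t in (0 : ℝ)..ε, P.RD t

/-- `S₁ = S₀ + ∫₀^ε D W_s ds`, so that `Q' D = 1 - S₁`. -/
noncomputable def S1 (ε : ℝ) : Ker X H := P.S0 ε + ∫ t in (0 : ℝ)..ε, P.DW t

/-- Data of the Fredholm argument: `S₀ = T + A` with `T` of finite rank, `A` small and the
resolvent kernel `r` of `A`, `1 + R = (1 - A)⁻¹`. -/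
structure FredData (ε : ℝ) where
  n : ℕ
  a : Fin n → C(X, H)
  b : Fin n → C(X, H)
  ha : ∀ i, a i ∈ S.Sm
  hb : ∀ i, b i ∈ S.Sm
  A : Ker X H
  hA : A = P.S0 ε - ∑ i, rankOne (a i) (b i)
  r : Ker X H
  r1 : r = A + star (op μ A) r
  r2 : r = A + star (op μ r) A

namespace FredData

variable {P} {ε : ℝ} (F : P.FredData ε)

/-- `b'_i = (1 + R)* b_i`. -/
noncomputable def b' (i : Fin F.n) : C(X, H) := F.b i + op μ (adj F.r) (F.b i)

/-- The kernel of `A D`. -/
noncomputable def AD : Ker X H :=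
  P.S0D ε - ∑ i, rankOne (F.a i) (S.D ⟨F.b i, F.hb i⟩ : C(X, H))

/-- The kernel of `R D = (1 + R) A D`. -/
noncomputable def rD : Ker X H := F.AD + star (op μ F.r) F.AD

/-- `Q'' = Q' (1 + R)`. -/
noncomputable def Q'' : C(X, H) →L[ℂ] C(X, H) :=
  P.Q' ε + (P.Q' ε).comp (op μ F.r)

/-- The finite rank kernel `T' = T (1 + R)`. -/
noncomputable def T' : Ker X H := ∑ i, rankOne (F.a i) (F.b' i)

end FredData

end DSys.Parx

/-- An orthonormal basis of the kernel of a Dirac system, for the `L²` inner product. -/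
structure DSys.OB {μ : Measure X} [IsFiniteMeasure μ] (S : DSys μ H) where
  d : ℕ
  e : Fin d → C(X, H)
  he : ∀ j, e j ∈ S.N
  on : ∀ j j', ip μ (e j) (e j') = if j = j' then 1 else 0
  span : ∀ w ∈ S.N, w = ∑ j, ip μ (e j) w • e j

namespace DSys.OB

variable {μ : Measure X} [IsFiniteMeasure μ] {S : DSys μ H} (B : S.OB)

/-- The kernel of the orthogonal projection to the kernel of `D`. -/
noncomputable def pi : Ker X H := ∑ j, rankOne (B.e j) (B.e j)

end DSys.OB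

end Pool.Agent.EXO
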