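import Pool.Agent.EXO.IaKer

/-!
Project EXO, chunk IDX-A, module IaSys: abstract Dirac systems on a compact space and
parametrices.  Author: helper26.

In the application `X` is the closed submanifold `V`, `Sm` the smooth sections `u = Q u`,
`D` the Dirac type operator, `τ` the grading.
-/

open MeasureTheory Filter Topology

namespace Pool.Agent.EXO

variable {X : Type*} [MetricSpace X] [CompactSpace X] [MeasurableSpace X] [BorelSpace X]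
variable {H : Type*} [NormedAddCommGroup H] [InnerProductSpace ℂ H] [FiniteDimensional ℂ H]

open Ker

/-- An abstract graded Dirac system. -/
structure DSys (μ : Measure X) (H : Type*) [NormedAddCommGroup H] [InnerProductSpace ℂ H]
    [FiniteDimensional ℂ H] where
  Sm : Submodule ℂ C(X, H)
  D : Sm →ₗ[ℂ] Sm
  Q : C(X, H) →L[ℂ] C(X, H)
  τ : C(X, H) →L[ℂ] C(X, H)
  Q_idem : ∀ u, Q (Q u) = Q u
  Q_symm : ∀ u v, ip μ (Q u) v = ip μ u (Q v)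
  Q_Sm : ∀ u ∈ Sm, Q u = u
  dense : ∀ u, Q u = u → u ∈ closure (Sm : Set C(X, H))
  D_symm : ∀ u v : Sm, ip μ (D u : C(X, H)) v = ip μ (u : C(X, H)) (D v)
  τ_Q : ∀ u, Q (τ u) = τ (Q u)
  τ_sq : ∀ u, Q u = u → τ (τ u) = u
  τ_symm : ∀ u v, ip μ (τ u) v = ip μ u (τ v)
  τ_Sm : ∀ u ∈ Sm, τ u ∈ Sm
  τ_D : ∀ u : Sm, (D ⟨τ u, τ_Sm u u.2⟩ : C(X, H)) = - τ (D u)

namespace DSys

variable {μ : Measure X} (S : DSys μ H)

/-- `WD u g`: the continuous `Q`-section `u` satisfies `D u = g` weakly. -/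
def WD (u g : C(X, H)) : Prop :=
  S.Q u = u ∧ S.Q g = g ∧ ∀ v : S.Sm, ip μ u (S.D v) = ip μ g v

/-- `SOp k k'`: the operator with kernel `k` maps continuous functions to smooth sections, and
`D ∘ op k = op k'`. -/
def SOp [IsFiniteMeasure μ] (k k' : Ker X H) : Prop :=
  ∀ u : C(X, H), ∃ h : op μ k u ∈ S.Sm, (S.D ⟨op μ k u, h⟩ : C(X, H)) = op μ k' u

/-- `SRow k k'`: the rows of `k` are smooth sections and `k' = k D`, i.e. the columns of the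
adjoint kernel of `k` are smooth sections, `D` of them are the columns of the adjoint of `k'`. -/
def SRow (k k' : Ker X H) : Prop :=
  ∀ (x : X) (h : H), ∃ hm : col (adj k) x h ∈ S.Sm,
    (S.D ⟨col (adj k) x h, hm⟩ : C(X, H)) = col (adj k') x h

/-- Kernels of finite rank built from smooth sections. -/
noncomputable def FR : Submodule ℂ (Ker X H) :=
  Submodule.span ℂ {k | ∃ a ∈ S.Sm, ∃ b ∈ S.Sm, k = rankOne a b}

/-- The kernel of the system: weak solutions of `D w = 0`. -/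
noncomputable def N [IsFiniteMeasure μ] : Submodule ℂ C(X, H) where
  carrier := {w | S.Q w = w ∧ ∀ v : S.Sm, ip μ w (S.D v) = 0}
  zero_mem' := ⟨map_zero _, fun v => ip_zero_left μ _⟩
  add_mem' := fun {a b} ha hb => by
    refine ⟨by rw [map_add, ha.1, hb.1], fun v => ?_⟩
    rw [ip_add_left, ha.2 v, hb.2 v, add_zero]
  smul_mem' := fun c a ha => by
    refine ⟨by rw [map_smul, ha.1], fun v => ?_⟩
    rw [ip_smul_left, ha.2 v, mul_zero]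

/-- A parametrix of the heat equation of the system `S` on the time interval `(0, ε₀]`. -/
structure Parx [IsFiniteMeasure μ] (S : DSys μ H) (ε₀ : ℝ) where
  K : ℝ → Ker X H
  K1 : ℝ → Ker X H
  K2 : ℝ → Ker X H
  R : ℝ → Ker X H
  RD : ℝ → Ker X H
  KD : ℝ → Ker X H
  DW : ℝ → Ker X H
  C : ℝ
  ε₀_pos : 0 < ε₀
  smK : ∀ t ∈ Set.Ioc 0 ε₀, S.SOp (K t) (K1 t)
  smK1 : ∀ t ∈ Set.Ioc 0 ε₀, S.SOp (K1 t) (K2 t)
  smW : ∀ t ∈ Set.Ioc 0 ε₀, S.SOp (K1 t - KD t) (DW t)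
  rowK : ∀ t ∈ Set.Ioc 0 ε₀, S.SRow (K t) (KD t)
  rowR : ∀ t ∈ Set.Ioc 0 ε₀, S.SRow (R t) (RD t)
  frK : ∀ t ∈ Set.Ioc 0 ε₀, K t ∈ closure (S.FR : Set (Ker X H))
  frR : ∀ t ∈ Set.Ioc 0 ε₀, R t ∈ closure (S.FR : Set (Ker X H))
  cK : ContinuousOn K (Set.Ioc 0 ε₀)
  cK1 : ContinuousOn K1 (Set.Ioc 0 ε₀)
  cK2 : ContinuousOn K2 (Set.Ioc 0 ε₀)
  cR : ContinuousOn R (Set.Ioc 0 ε₀)
  cRD : ContinuousOn RD (Set.Ioc 0 ε₀)
  cDW : ContinuousOn DW (Set.Ioc 0 ε₀)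
  deriv : ∀ t ∈ Set.Ioo 0 ε₀, HasDerivAt K (R t - K2 t) t
  bK : ∀ t ∈ Set.Ioc 0 ε₀, ‖op μ (K t)‖ ≤ C
  bK1 : ∀ t ∈ Set.Ioc 0 ε₀, ‖op μ (K1 t)‖ ≤ C * (Real.sqrt t)⁻¹
  bR : ∀ t ∈ Set.Ioc 0 ε₀, ‖R t‖ ≤ C
  bRD : ∀ t ∈ Set.Ioc 0 ε₀, ‖RD t‖ ≤ C
  bW : ∀ t ∈ Set.Ioc 0 ε₀, ‖K1 t - KD t‖ ≤ C * t
  bDW : ∀ t ∈ Set.Ioc 0 ε₀, ‖DW t‖ ≤ C
  lim : ∀ u : C(X, H), Tendsto (fun t => op μ (K t) u) (𝓝[>] 0) (𝓝 (S.Q u))

end DSys

end Pool.Agent.EXO
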