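import Pool.Agent.EXO.IaPar
import Pool.Agent.EXO.IaKc

/-!
Project EXO, chunk IDX-A, module IaWa: the weak `D`-derivative.

PROOFS.
* `WD.unique`: `f := g - g'` satisfies `ip f v = 0` for all `v ∈ Sm` and `Q f = f`; by `S.dense`
  `f` is a limit of elements of `Sm` (`mem_closure_iff_seq_limit`), `continuous_ip` gives
  `ip f f = 0`, so `f = 0` (`ip_self_eq_zero`).
* `WD.of_Sm`: `S.Q_Sm`, `S.D_symm`.  Linearity: `ip_add_left`, `ip_smul_left`, ...
* `WD.closed`: limits in `S.Q u = u` and in the identity, by `continuous_ip`.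
* `WD.op_row`: by `inner_op`, for every `x`, `h'`:
  `⟪h', op μ k h x⟫ = ip (col (adj k) x h') h` and `⟪h', op μ k' u x⟫ = ip (col (adj k') x h') u`.
  With `m := col (adj k) x h' ∈ Sm`: `ip u (D m) = ip h m` (definition of `WD u h`), take complex
  conjugates (`ip_conj`): `ip (D m) u = ip m h`.  Conclude with `ext_inner_left`.
* `SRow.op_Q`: `op μ k (Q u) = op μ k u`: `⟪h', ·⟫`, `ip m (Q u) = ip (Q m) u = ip m u` for
  `m = col (adj k) x h' ∈ Sm` (`Q_symm`, `Q_Sm`).  `SRow.op_Q'`: the same with `k'`, the columns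
  of `adj k'` are in `Sm` because `S.D` has values in `Sm`.
* `SOp.WD`: `S.Sm`-valued, `WD.of_Sm`.
* `WD.tau`: `Q (τ u) = τ (Q u) = τ u`; for `v ∈ Sm`:
  `ip (τ u) (D v) = ip u (τ (D v)) = - ip u (D (τ v)) = - ip g (τ v) = ip (-τ g) v`.
-/

open MeasureTheory Filter Topology

namespace Pool.Agent.EXO

variable {X : Type*} [MetricSpace X] [CompactSpace X] [MeasurableSpace X] [BorelSpace X]
variable {H : Type*} [NormedAddCommGroup H] [InnerProductSpace ℂ H] [FiniteDimensional ℂ H]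

open Ker

namespace DSys

variable {μ : Measure X} [IsFiniteMeasure μ] {S : DSys μ H}

theorem eq_zero_of_ip_Sm [μ.IsOpenPosMeasure] {f : C(X, H)} (hQ : S.Q f = f)
    (h : ∀ v ∈ S.Sm, ip μ f v = 0) : f = 0 := by
  apply ip_self_eq_zero μ
  have hc : IsClosed {v : C(X, H) | ip μ f v = 0} := by
    have h1 : Continuous fun v : C(X, H) => ip μ f v :=
      (continuous_ip μ).comp (continuous_const.prodMk continuous_id)
    exact isClosed_singleton.preimage h1
  have h2 : closure (S.Sm : Set C(X, H)) ⊆ {v | ip μ f v = 0} := closure_minimal h hc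
  exact h2 (S.dense f hQ)

theorem WD.unique [μ.IsOpenPosMeasure] {u g g' : C(X, H)} (h : S.WD u g) (h' : S.WD u g') :
    g = g' := by
  rw [← sub_eq_zero]
  apply eq_zero_of_ip_Sm (S := S)
  · rw [map_sub, h.2.1, h'.2.1]
  · intro v hv
    rw [ip_sub_left, ← h.2.2 ⟨v, hv⟩, ← h'.2.2 ⟨v, hv⟩, sub_self]

theorem WD.of_Sm (u : S.Sm) : S.WD (u : C(X, H)) (S.D u : C(X, H)) := by
  exact ⟨S.Q_Sm u u.2, S.Q_Sm _ (S.D u).2, fun v => (S.D_symm u v).symm⟩

theorem WD.add {u g u' g' : C(X, H)} (h : S.WD u g) (h' : S.WD u' g') :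
    S.WD (u + u') (g + g') := by
  refine ⟨by rw [map_add, h.1, h'.1], by rw [map_add, h.2.1, h'.2.1], fun v => ?_⟩
  rw [ip_add_left, ip_add_left, h.2.2 v, h'.2.2 v]

theorem WD.sub {u g u' g' : C(X, H)} (h : S.WD u g) (h' : S.WD u' g') :
    S.WD (u - u') (g - g') := by
  refine ⟨by rw [map_sub, h.1, h'.1], by rw [map_sub, h.2.1, h'.2.1], fun v => ?_⟩
  rw [ip_sub_left, ip_sub_left, h.2.2 v, h'.2.2 v]

theorem WD.smul {u g : C(X, H)} (c : ℂ) (h : S.WD u g) : S.WD (c • u) (c • g) := by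
  refine ⟨by rw [map_smul, h.1], by rw [map_smul, h.2.1], fun v => ?_⟩
  rw [ip_smul_left, ip_smul_left, h.2.2 v]

theorem WD.sum {ι : Type*} (s : Finset ι) {u g : ι → C(X, H)} (h : ∀ i, S.WD (u i) (g i)) :
    S.WD (∑ i ∈ s, u i) (∑ i ∈ s, g i) := by
  refine ⟨by rw [map_sum]; exact Finset.sum_congr rfl fun i _ => (h i).1,
    by rw [map_sum]; exact Finset.sum_congr rfl fun i _ => (h i).2.1, fun v => ?_⟩
  rw [ip_sum_left, ip_sum_left]
  exact Finset.sum_congr rfl fun i _ => (h i).2.2 v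

theorem WD.closed {ι : Type*} {l : Filter ι} [l.NeBot] {u g : ι → C(X, H)} {u₀ g₀ : C(X, H)}
    (h : ∀ i, S.WD (u i) (g i)) (hu : Tendsto u l (𝓝 u₀)) (hg : Tendsto g l (𝓝 g₀)) :
    S.WD u₀ g₀ := by
  refine ⟨?_, ?_, fun v => ?_⟩
  · have h1 : Tendsto (fun i => S.Q (u i)) l (𝓝 (S.Q u₀)) :=
      (S.Q.continuous.tendsto u₀).comp hu
    refine tendsto_nhds_unique h1 ?_
    have h2 : (fun i => S.Q (u i)) = u := funext fun i => (h i).1
    rw [h2]
    exact hu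
  · have h1 : Tendsto (fun i => S.Q (g i)) l (𝓝 (S.Q g₀)) :=
      (S.Q.continuous.tendsto g₀).comp hg
    refine tendsto_nhds_unique h1 ?_
    have h2 : (fun i => S.Q (g i)) = g := funext fun i => (h i).2.1
    rw [h2]
    exact hg
  · have h1 : Continuous fun w : C(X, H) => ip μ w (S.D v : C(X, H)) :=
      (continuous_ip μ).comp (continuous_id.prodMk continuous_const)
    have h2 : Continuous fun w : C(X, H) => ip μ w (v : C(X, H)) :=
      (continuous_ip μ).comp (continuous_id.prodMk continuous_const)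
    have h3 : Tendsto (fun i => ip μ (u i) (S.D v : C(X, H))) l
        (𝓝 (ip μ u₀ (S.D v : C(X, H)))) := (h1.tendsto u₀).comp hu
    have h4 : Tendsto (fun i => ip μ (g i) (v : C(X, H))) l
        (𝓝 (ip μ g₀ (v : C(X, H)))) := (h2.tendsto g₀).comp hg
    have h5 : (fun i => ip μ (u i) (S.D v : C(X, H))) = fun i => ip μ (g i) (v : C(X, H)) :=
      funext fun i => (h i).2.2 v
    rw [h5] at h3
    exact tendsto_nhds_unique h3 h4

theorem WD.op_row {k k' : Ker X H} (hk : S.SRow k k') {u h : C(X, H)} (hu : S.WD u h) :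
    op μ k h = op μ k' u := by
  apply ContinuousMap.ext
  intro x
  apply ext_inner_left ℂ
  intro h'
  rw [inner_op, inner_op]
  obtain ⟨hm, hD⟩ := hk x h'
  rw [← hD]
  have h1 := hu.2.2 ⟨col (adj k) x h', hm⟩
  have h2 := congrArg (starRingEnd ℂ) h1
  rw [ip_conj, ip_conj] at h2
  exact h2.symm

theorem SRow.op_Q {k k' : Ker X H} (hk : S.SRow k k') (u : C(X, H)) :
    op μ k (S.Q u) = op μ k u := by
  apply ContinuousMap.ext
  intro x
  apply ext_inner_left ℂ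
  intro h'
  rw [inner_op, inner_op]
  obtain ⟨hm, hD⟩ := hk x h'
  rw [← S.Q_symm, S.Q_Sm _ hm]

theorem SRow.op_Q' {k k' : Ker X H} (hk : S.SRow k k') (u : C(X, H)) :
    op μ k' (S.Q u) = op μ k' u := by
  apply ContinuousMap.ext
  intro x
  apply ext_inner_left ℂ
  intro h'
  rw [inner_op, inner_op]
  obtain ⟨hm, hD⟩ := hk x h'
  rw [← hD, ← S.Q_symm, S.Q_Sm _ (S.D _).2]

theorem SOp.WD {k k' : Ker X H} (hk : S.SOp k k') (u : C(X, H)) :
    S.WD (op μ k u) (op μ k' u) := by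
  obtain ⟨h, hD⟩ := hk u
  rw [← hD]
  exact WD.of_Sm (S := S) ⟨op μ k u, h⟩

theorem WD.tau {u g : C(X, H)} (h : S.WD u g) : S.WD (S.τ u) (-(S.τ g)) := by
  refine ⟨by rw [S.τ_Q, h.1], by rw [map_neg, S.τ_Q, h.2.1], fun v => ?_⟩
  have h1 := S.τ_D v
  have h2 : S.τ (S.D v : C(X, H)) =
      - (S.D ⟨S.τ v, S.τ_Sm v v.2⟩ : C(X, H)) := by rw [h1, neg_neg]
  have h3 := h.2.2 ⟨S.τ v, S.τ_Sm v v.2⟩
  have h4 : ip μ u (-(S.D ⟨S.τ v, S.τ_Sm v v.2⟩ : C(X, H))) =
      - ip μ u (S.D ⟨S.τ v, S.τ_Sm v v.2⟩ : C(X, H)) := by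
    rw [← zero_sub, ip_sub_right, ip_zero_right, zero_sub]
  have h5 : ip μ (-(S.τ g)) (v : C(X, H)) = - ip μ (S.τ g) (v : C(X, H)) := by
    rw [← zero_sub, ip_sub_left, ip_zero_left, zero_sub]
  rw [S.τ_symm, h2, h4, h3, h5, S.τ_symm]

theorem mem_N_iff (w : C(X, H)) : w ∈ S.N ↔ S.WD w 0 := by
  constructor
  · rintro ⟨h1, h2⟩
    exact ⟨h1, map_zero _, fun v => by rw [h2 v, ip_zero_left]⟩
  · rintro ⟨h1, -, h2⟩
    exact ⟨h1, fun v => by rw [h2 v, ip_zero_left]⟩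

theorem tau_mem_N {w : C(X, H)} (h : w ∈ S.N) : S.τ w ∈ S.N := by
  rw [mem_N_iff] at h ⊢
  have h1 := h.tau
  rwa [map_zero, neg_zero] at h1

end DSys

end Pool.Agent.EXO
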