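import Pool.Agent.EXO.IaWa

/-!
Project EXO, chunk IDX-A, module IaWb: strong approximation and symmetry of the weak derivative.

PROOFS.  Fix `P : S.Parx ε₀`.
* `WD.approx`: let `WD u h` and `t ∈ (0, ε₀]`.  `u_t := op μ (K t) u` is in `Sm` and
  `D u_t = op μ (K1 t) u` (`P.smK`).  `op μ (K1 t) u = op μ (KD t) u + op μ (K1 t - KD t) u`,
  and `op μ (KD t) u = op μ (K t) h` (`WD.op_row`, `P.rowK`).  For `t → 0`: `u_t → Q u = u`,
  `op μ (K t) h → Q h = h` (`P.lim`), and `‖op μ (K1 t - KD t) u‖ ≤ C t μ(X) ‖u‖ → 0`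
  (`norm_op_le`, `P.bW`).
* `WD.symm`: let `WD u g`, `WD v h`.  With `v_t` as above: `ip u (D v_t) = ip g v_t`; let `t → 0`
  (`continuous_ip`).
* `N_perp`: `WD u g` and `w ∈ N` imply `ip w g = 0`: `WD.symm` with `WD w 0`.
-/

open MeasureTheory Filter Topology

namespace Pool.Agent.EXO

variable {X : Type*} [MetricSpace X] [CompactSpace X] [MeasurableSpace X] [BorelSpace X]
variable {H : Type*} [NormedAddCommGroup H] [InnerProductSpace ℂ H] [FiniteDimensional ℂ H]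

open Ker

namespace DSys

variable {μ : Measure X} [IsFiniteMeasure μ] {S : DSys μ H} {ε₀ : ℝ}

private theorem op_sub51 (k k' : Ker X H) (u : C(X, H)) :
    op μ (k - k') u = op μ k u - op μ k' u := by
  ext x
  rw [ContinuousMap.sub_apply, op_apply, op_apply, op_apply,
    ← integral_sub (integrable_kerApply μ k u x) (integrable_kerApply μ k' u x)]
  rfl

theorem WD.approx (P : S.Parx ε₀) {u h : C(X, H)} (hu : S.WD u h) :
    Tendsto (fun t => op μ (P.K t) u) (𝓝[>] 0) (𝓝 u) ∧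
    Tendsto (fun t => op μ (P.K1 t) u) (𝓝[>] 0) (𝓝 h) := by
  have h1 : Tendsto (fun t => op μ (P.K t) u) (𝓝[>] 0) (𝓝 u) := by
    have := P.lim u
    rwa [hu.1] at this
  refine ⟨h1, ?_⟩
  have h2 : Tendsto (fun t => op μ (P.K t) h) (𝓝[>] 0) (𝓝 h) := by
    have := P.lim h
    rwa [hu.2.1] at this
  have h3 : Tendsto (fun t => op μ (P.K1 t - P.KD t) u) (𝓝[>] 0) (𝓝 0) := by
    rw [tendsto_zero_iff_norm_tendsto_zero]
    have hb : ∀ᶠ t in 𝓝[>] (0 : ℝ), ‖op μ (P.K1 t - P.KD t) u‖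
        ≤ P.C * t * μ.real Set.univ * ‖u‖ := by
      filter_upwards [Ioc_mem_nhdsGT P.ε₀_pos] with t ht
      refine ((op μ (P.K1 t - P.KD t)).le_opNorm u).trans ?_
      refine mul_le_mul_of_nonneg_right ?_ (norm_nonneg _)
      exact (norm_op_le μ _).trans (mul_le_mul_of_nonneg_right (P.bW t ht) (by positivity))
    have hz : Tendsto (fun t : ℝ => P.C * t * μ.real Set.univ * ‖u‖) (𝓝[>] 0) (𝓝 0) := by
      have hc : Continuous fun t : ℝ => P.C * t * μ.real Set.univ * ‖u‖ := by fun_prop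
      have := (hc.tendsto 0).mono_left (nhdsWithin_le_nhds (s := Set.Ioi (0 : ℝ)))
      simpa using this
    exact squeeze_zero' (Eventually.of_forall fun _ => norm_nonneg _) hb hz
  have h4 := h2.add h3
  rw [add_zero] at h4
  refine h4.congr' ?_
  filter_upwards [Ioc_mem_nhdsGT P.ε₀_pos] with t ht
  rw [WD.op_row (P.rowK t ht) hu, op_sub51]
  abel

theorem WD.symm (P : S.Parx ε₀) {u g v h : C(X, H)} (hu : S.WD u g) (hv : S.WD v h) :
    ip μ g v = ip μ u h := by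
  obtain ⟨h1, h2⟩ := WD.approx P hv
  have hc := continuous_ip (H := H) μ
  have l1 : Tendsto (fun t => ip μ u (op μ (P.K1 t) v)) (𝓝[>] 0) (𝓝 (ip μ u h)) :=
    (hc.tendsto (u, h)).comp (tendsto_const_nhds.prodMk_nhds h2)
  have l2 : Tendsto (fun t => ip μ g (op μ (P.K t) v)) (𝓝[>] 0) (𝓝 (ip μ g v)) :=
    (hc.tendsto (g, v)).comp (tendsto_const_nhds.prodMk_nhds h1)
  refine tendsto_nhds_unique_of_eventuallyEq l2 l1 ?_
  filter_upwards [Ioc_mem_nhdsGT P.ε₀_pos] with t ht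
  obtain ⟨hm, hD⟩ := P.smK t ht v
  have := hu.2.2 ⟨op μ (P.K t) v, hm⟩
  rw [hD] at this
  exact this.symm

theorem N_perp (P : S.Parx ε₀) {u g w : C(X, H)} (hu : S.WD u g) (hw : w ∈ S.N) :
    ip μ w g = 0 := by
  have h1 := WD.symm P ((mem_N_iff w).1 hw) hu
  rw [ip_zero_left] at h1
  exact h1.symm

end DSys

end Pool.Agent.EXO
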