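import Pool.Agent.EXO.Defs

/-!
Project EXO, chunk IDX-A, module IbDef: definitions of the formal calculus on `V × V`.
Author: helper26.

`Van V q k`: on `V × V` the smooth function `k` is a sum of products of `q` factors `(x-y)_a` with
smooth functions.
-/

set_option autoImplicit false
set_option maxSynthPendingDepth 3

open MeasureTheory
open scoped ContDiff

namespace Pool.Agent.EXO

section Van

variable {M : ℕ} {F : Type} [NormedAddCommGroup F] [NormedSpace ℝ F]

/-- Vanishing to the order `q` along the diagonal of `V × V`, in the algebraic sense. -/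
def Van (V : Set (En M)) : ℕ → (En M × En M → F) → Prop
  | 0, k => ContDiff ℝ ∞ k
  | q + 1, k => ContDiff ℝ ∞ k ∧ ∃ c : Fin M → (En M × En M → F), (∀ a, Van V q (c a)) ∧
      ∀ x ∈ V, ∀ y ∈ V, k (x, y) = ∑ a, (x a - y a) • c a (x, y)

end Van

/-- The tangential derivative `∂_a f` of a function on (a neighbourhood of) `V`. -/
noncomputable def td {n M : ℕ} (V : Geo n M) {F : Type} [NormedAddCommGroup F] [NormedSpace ℝ F]
    (a : Fin M) (f : En M → F) (x : En M) : F :=
  fderiv ℝ f x (V.P x (bv a))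

/-- The tangential derivative in the first variable. -/
noncomputable def tdx {n M : ℕ} (V : Geo n M) {F : Type} [NormedAddCommGroup F]
    [NormedSpace ℝ F] (a : Fin M) (k : En M × En M → F) (p : En M × En M) : F :=
  fderiv ℝ k p (V.P p.1 (bv a), 0)

/-- The tangential derivative in the second variable. -/
noncomputable def tdy {n M : ℕ} (V : Geo n M) {F : Type} [NormedAddCommGroup F]
    [NormedSpace ℝ F] (a : Fin M) (k : En M × En M → F) (p : En M × En M) : F :=
  fderiv ℝ k p (0, V.P p.2 (bv a))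

/-- `φ(x,y) = |x - y|² / 4`. -/
noncomputable def phiK {M : ℕ} (p : En M × En M) : ℝ := ‖p.1 - p.2‖ ^ 2 / 4

/-- The adjoint kernel `(x,y) ↦ k(y,x)*`. -/
noncomputable def adjK {M : ℕ} {H : Type} [NormedAddCommGroup H] [InnerProductSpace ℂ H]
    [FiniteDimensional ℂ H] (k : En M × En M → (H →L[ℂ] H)) (p : En M × En M) : H →L[ℂ] H :=
  ContinuousLinearMap.adjoint (k (p.2, p.1))

namespace Dirac

variable {n M : ℕ} {V : Geo n M} {H : Type} [NormedAddCommGroup H]
  [InnerProductSpace ℂ H] [FiniteDimensional ℂ H] (𝔇 : Dirac V H)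

/-- Kernels (operator valued functions on `ℝ^M × ℝ^M`). -/
abbrev KF (M : ℕ) (H : Type) [NormedAddCommGroup H] [InnerProductSpace ℂ H] :=
  En M × En M → (H →L[ℂ] H)

/-- `D` acting on kernels in the first variable. -/
noncomputable def opK (k : KF M H) : KF M H := fun p =>
  ∑ a, 𝔇.c a * (𝔇.Q p.1 * tdx V a k p) + 𝔇.B p.1 * k p

/-- The right action of `D` on kernels: `(k D)(x,y)`. -/
noncomputable def opR (k : KF M H) : KF M H := adjK (𝔇.opK (adjK k))

/-- `c(grad_x φ) Q(x)`. -/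
noncomputable def Cg (p : En M × En M) : H →L[ℂ] H :=
  ∑ a, (((1 / 2 : ℝ) * inner ℝ (p.1 - p.2) (V.P p.1 (bv a)) : ℝ) : ℂ) • (𝔇.c a * 𝔇.Q p.1)

/-- Left and right `Q`-valued kernels. -/
def QL (k : KF M H) : Prop := ∀ x ∈ V.carrier, ∀ y ∈ V.carrier, 𝔇.Q x * k (x, y) = k (x, y)

/-- Right `Q`-valued kernels. -/
def QR (k : KF M H) : Prop := ∀ x ∈ V.carrier, ∀ y ∈ V.carrier, k (x, y) * 𝔇.Q y = k (x, y)

/-- Formal kernels: `∑_j t^j exp(-φ/t) k_j`, finitely many `j ∈ ℤ`. -/
abbrev FK (M : ℕ) (H : Type) [NormedAddCommGroup H] [InnerProductSpace ℂ H] :=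
  ℤ → KF M H

/-- Finitely many smooth coefficients. -/
def FS (k : FK M H) : Prop :=
  (∀ j, ContDiff ℝ ∞ (k j)) ∧ ∃ J : ℕ, ∀ j : ℤ, (J : ℤ) < |j| → k j = 0

/-- The class of formal kernels of weight at least `w` (with respect to the dimension `n` of `V`):
the term `t^j k_j` with `k_j` vanishing to the order `q` has weight `n + 2 j + q`. -/
def Cls (V : Geo n M) (w : ℤ) (k : FK M H) : Prop :=
  FS k ∧ ∀ j : ℤ, Van V.carrier (w - n - 2 * j).toNat (k j)

/-- The formal operator `D`. -/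
noncomputable def fD (k : FK M H) : FK M H := fun j =>
  𝔇.opK (k j) - fun p => 𝔇.Cg p * k (j + 1) p

/-- The formal operator `∂_t`. -/
noncomputable def fT (k : FK M H) : FK M H := fun j p =>
  ((j + 1 : ℤ) : ℂ) • k (j + 1) p + ((phiK p : ℝ) : ℂ) • k (j + 2) p

/-- The formal adjoint. -/
noncomputable def fA (k : FK M H) : FK M H := fun j => adjK (k j)

/-- The formal right action of `D`. -/
noncomputable def fR (k : FK M H) : FK M H := fA (𝔇.fD (fA k))

/-- The formal heat operator `∂_t + D²`. -/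
noncomputable def fL (k : FK M H) : FK M H := fT k + 𝔇.fD (𝔇.fD k)

/-- The leading formal kernel `t^{-l} exp(-φ/t) Q(x) Q(y)`. -/
noncomputable def k0 (l : ℕ) : FK M H := fun j p =>
  if j = -(l : ℤ) then 𝔇.Q p.1 * 𝔇.Q p.2 else 0

/-- The realization `∑_j t^j exp(-φ/t) k_j` of a formal kernel. -/
noncomputable def ev (k : FK M H) (t : ℝ) (p : En M × En M) : H →L[ℂ] H :=
  ∑ᶠ j : ℤ, ((t ^ j * Real.exp (-(phiK p) / t) : ℝ) : ℂ) • k j p

/-- `k` is a formal heat kernel up to the weight `m`. -/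
structure IsHeat (l : ℕ) (m : ℤ) (k : FK M H) : Prop where
  fs : FS k
  ql : ∀ j, 𝔇.QL (k j)
  qr : ∀ j, 𝔇.QR (k j)
  lead : Cls V 1 (k - 𝔇.k0 l)
  heat : Cls V m (𝔇.fL k)

end Dirac

end Pool.Agent.EXO
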