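import Pool.Agent.EXO.IbVa
import Pool.Agent.EXO.IbGood

/-!
Project EXO, chunk IDX-A, module IbTd: tangential derivatives of functions and kernels.

G3 (locality) is the hypothesis `hloc` here; it is proved by helper18 (chunk SUB) for every `Geo`.

PROOFS.
* Smoothness: `ContDiff.fderiv_right`, `ContDiff.clm_apply`, `V.smoothP`.
* `td_congr`: `hloc` for `f - g`.  `tdx_congr`: for fixed `y ∈ V` the function `z ↦ k (z,y)` has
  `fderiv ℝ (fun z => k (z,y)) x v = fderiv ℝ k (x,y) (v, 0)` (chain rule, `k` is differentiable),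
  so it is `td_congr`.  `tdy_congr`: the same in `y`.
* Leibniz rules: `fderiv` of sums, `ContinuousLinearMap.clm_apply` rule
  `HasFDerivAt.clm_apply`, `fderiv_mul'`, `fderiv_smul`.
* `tdx_coord`: `p ↦ p.1 b - p.2 b` is linear.
* `Van.tdx`: induction on `q`: `Van (q+1) k`, `k = ∑ b, (x b - y b) • c b` on `V × V`, so by
  `tdx_congr` and Leibniz `tdx a k = ∑ b, (V.P x (bv a)) b • c b + (x b - y b) • tdx a (c b)` on
  `V × V`; the first sum is `Van q`, the second: `q = 0`: smooth; `q ≥ 1`: `tdx a (c b) ∈ Van (q-1)`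
  by induction, `Van.coord`.  (`V.P x (bv a) b` is a smooth function of `x`.)
* `Van.tds`: induction on `q`; `q = 0` smooth.  `q+1`: `k = ∑ b, (x b - y b) • c b`:
  `tds a k = ∑ b, ((V.P x (bv a)) b - (V.P y (bv a)) b) • c b + (x b - y b) • tds a (c b)`; the
  first factor is `Van 1` by the hypothesis `hP` (Hadamard, `IbVb.Van.of_sub`), so the first sum is
  `Van (1 + q)` (`Van.smul_van`), the second by induction and `Van.coord`.
* `tdx_tdy`: on all of `ℝ^M × ℝ^M`:
  `tdx a (tdy b k) p = fderiv (fderiv k ·) p (P p.1 e_a, 0) (0, P p.2 e_b)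
   + fderiv k p (0, (fderiv P p.2 0) ..) `: the coefficient `(0, V.P p.2 (bv b))` does not change in
  the direction `(v, 0)`; so both sides are second derivatives in the directions
  `(P p.1 e_a, 0)`, `(0, P p.2 e_b)`: symmetric (`ContDiffAt.isSymmSndFDerivAt`,
  `second_derivative_symmetric`).
-/

set_option autoImplicit false
set_option maxSynthPendingDepth 3

open MeasureTheory
open scoped ContDiff

namespace Pool.Agent.EXO

variable {n M : ℕ} {V : Geo n M} {F G : Type} [NormedAddCommGroup F] [NormedSpace ℝ F]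
  [NormedAddCommGroup G] [NormedSpace ℝ G]

private theorem dif51 {E F' : Type} [NormedAddCommGroup E] [NormedSpace ℝ E]
    [NormedAddCommGroup F'] [NormedSpace ℝ F'] {f : E → F'} (hf : ContDiff ℝ ∞ f) (x : E) :
    DifferentiableAt ℝ f x := (hf.differentiable (by simp)).differentiableAt

private theorem tdx_slice51 {k : En M × En M → F} (hk : ContDiff ℝ ∞ k) (a : Fin M)
    (x y : En M) : tdx V a k (x, y) = td V a (fun z => k (z, y)) x := by
  unfold tdx td
  have h1 : HasFDerivAt (fun z => k (z, y))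
      ((fderiv ℝ k (x, y)).comp (ContinuousLinearMap.inl ℝ (En M) (En M))) x :=
    (dif51 hk (x, y)).hasFDerivAt.comp x (hasFDerivAt_prodMk_left x y)
  rw [h1.fderiv]
  simp

private theorem tdy_slice51 {k : En M × En M → F} (hk : ContDiff ℝ ∞ k) (a : Fin M)
    (x y : En M) : tdy V a k (x, y) = td V a (fun z => k (x, z)) y := by
  unfold tdy td
  have h1 : HasFDerivAt (fun z => k (x, z))
      ((fderiv ℝ k (x, y)).comp (ContinuousLinearMap.inr ℝ (En M) (En M))) y :=
    (dif51 hk (x, y)).hasFDerivAt.comp y (hasFDerivAt_prodMk_right x y)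
  rw [h1.fderiv]
  simp

private theorem coordD51 (b : Fin M) (p : En M × En M) :
    HasFDerivAt (fun p : En M × En M => p.1 b - p.2 b)
      ((((EuclideanSpace.proj (𝕜 := ℝ) b) : En M →L[ℝ] ℝ).comp
        (ContinuousLinearMap.fst ℝ (En M) (En M))) -
      (((EuclideanSpace.proj (𝕜 := ℝ) b) : En M →L[ℝ] ℝ).comp
        (ContinuousLinearMap.snd ℝ (En M) (En M)))) p := by
  exact ((((EuclideanSpace.proj (𝕜 := ℝ) b) : En M →L[ℝ] ℝ).comp
        (ContinuousLinearMap.fst ℝ (En M) (En M))) -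
      (((EuclideanSpace.proj (𝕜 := ℝ) b) : En M →L[ℝ] ℝ).comp
        (ContinuousLinearMap.snd ℝ (En M) (En M)))).hasFDerivAt

private theorem coordS51 (b : Fin M) : ContDiff ℝ ∞ (fun p : En M × En M => p.1 b - p.2 b) := by
  exact ((((EuclideanSpace.proj (𝕜 := ℝ) b) : En M →L[ℝ] ℝ).comp
        (ContinuousLinearMap.fst ℝ (En M) (En M))) -
      (((EuclideanSpace.proj (𝕜 := ℝ) b) : En M →L[ℝ] ℝ).comp
        (ContinuousLinearMap.snd ℝ (En M) (En M)))).contDiff

private theorem lin51 {c : Fin M → En M × En M → F} (hc : ∀ b, ContDiff ℝ ∞ (c b)) :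
    ContDiff ℝ ∞ (fun p : En M × En M => ∑ b, (p.1 b - p.2 b) • c b p) :=
  ContDiff.sum fun b _ => (coordS51 b).smul (hc b)

private theorem Pc51 (a b : Fin M) : ContDiff ℝ ∞ (fun p : En M × En M => V.P p.1 (bv a) b) ∧
    ContDiff ℝ ∞ (fun p : En M × En M => V.P p.2 (bv a) b) :=
  ⟨(EuclideanSpace.proj (𝕜 := ℝ) b).contDiff.comp
    ((V.smoothP.comp contDiff_fst).clm_apply contDiff_const),
   (EuclideanSpace.proj (𝕜 := ℝ) b).contDiff.comp
    ((V.smoothP.comp contDiff_snd).clm_apply contDiff_const)⟩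

theorem contDiff_td {f : En M → F} (hf : ContDiff ℝ ∞ f) (a : Fin M) :
    ContDiff ℝ ∞ (td V a f) := by
  exact (hf.fderiv_right (m := ∞) (by simp)).clm_apply (V.smoothP.clm_apply contDiff_const)

theorem contDiff_tdx {k : En M × En M → F} (hk : ContDiff ℝ ∞ k) (a : Fin M) :
    ContDiff ℝ ∞ (tdx V a k) := by
  exact (hk.fderiv_right (m := ∞) (by simp)).clm_apply
    (((V.smoothP.comp contDiff_fst).clm_apply contDiff_const).prodMk contDiff_const)

theorem contDiff_tdy {k : En M × En M → F} (hk : ContDiff ℝ ∞ k) (a : Fin M) :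
    ContDiff ℝ ∞ (tdy V a k) := by
  exact (hk.fderiv_right (m := ∞) (by simp)).clm_apply
    (contDiff_const.prodMk ((V.smoothP.comp contDiff_snd).clm_apply contDiff_const))

theorem td_congr (hloc : V.Loc) {f g : En M → F} (hf : ContDiff ℝ ∞ f) (hg : ContDiff ℝ ∞ g)
    (h : ∀ x ∈ V.carrier, f x = g x) (a : Fin M) {x : En M} (hx : x ∈ V.carrier) :
    td V a f x = td V a g x := by
  have h1 := hloc F (fun z => f z - g z) ((hf.sub hg).of_le (by simp))
    (fun z hz => by rw [h z hz, sub_self]) x hx (bv a)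
  have df : DifferentiableAt ℝ f x := (hf.differentiable (by simp)).differentiableAt
  have dg : DifferentiableAt ℝ g x := (hg.differentiable (by simp)).differentiableAt
  rw [fderiv_fun_sub df dg] at h1
  exact sub_eq_zero.1 h1

theorem tdx_congr (hloc : V.Loc) {k k' : En M × En M → F} (hk : ContDiff ℝ ∞ k)
    (hk' : ContDiff ℝ ∞ k') (h : ∀ x ∈ V.carrier, ∀ y ∈ V.carrier, k (x, y) = k' (x, y))
    (a : Fin M) {x y : En M} (hx : x ∈ V.carrier) (hy : y ∈ V.carrier) :
    tdx V a k (x, y) = tdx V a k' (x, y) := by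
  rw [tdx_slice51 hk, tdx_slice51 hk']
  exact td_congr hloc (hk.comp (contDiff_id.prodMk contDiff_const))
    (hk'.comp (contDiff_id.prodMk contDiff_const)) (fun z hz => h z hz y hy) a hx

theorem tdy_congr (hloc : V.Loc) {k k' : En M × En M → F} (hk : ContDiff ℝ ∞ k)
    (hk' : ContDiff ℝ ∞ k') (h : ∀ x ∈ V.carrier, ∀ y ∈ V.carrier, k (x, y) = k' (x, y))
    (a : Fin M) {x y : En M} (hx : x ∈ V.carrier) (hy : y ∈ V.carrier) :
    tdy V a k (x, y) = tdy V a k' (x, y) := by
  rw [tdy_slice51 hk, tdy_slice51 hk']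
  exact td_congr hloc (hk.comp (contDiff_const.prodMk contDiff_id))
    (hk'.comp (contDiff_const.prodMk contDiff_id)) (fun z hz => h x hx z hz) a hy

theorem tdx_slice {k : En M × En M → F} (hk : ContDiff ℝ ∞ k) (a : Fin M) (x y : En M) :
    tdx V a k (x, y) = td V a (fun z => k (z, y)) x := by
  exact tdx_slice51 hk a x y

theorem tdy_slice {k : En M × En M → F} (hk : ContDiff ℝ ∞ k) (a : Fin M) (x y : En M) :
    tdy V a k (x, y) = td V a (fun z => k (x, z)) y := by
  exact tdy_slice51 hk a x y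

theorem tdx_add {k k' : En M × En M → F} (hk : ContDiff ℝ ∞ k) (hk' : ContDiff ℝ ∞ k')
    (a : Fin M) (p : En M × En M) :
    tdx V a (fun p => k p + k' p) p = tdx V a k p + tdx V a k' p := by
  unfold tdx
  rw [fderiv_fun_add (dif51 hk p) (dif51 hk' p)]
  rfl

theorem tdy_add {k k' : En M × En M → F} (hk : ContDiff ℝ ∞ k) (hk' : ContDiff ℝ ∞ k')
    (a : Fin M) (p : En M × En M) :
    tdy V a (fun p => k p + k' p) p = tdy V a k p + tdy V a k' p := by
  unfold tdy
  rw [fderiv_fun_add (dif51 hk p) (dif51 hk' p)]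
  rfl

theorem tdx_clm {L : En M × En M → (F →L[ℝ] G)} (hL : ContDiff ℝ ∞ L) {k : En M × En M → F}
    (hk : ContDiff ℝ ∞ k) (a : Fin M) (p : En M × En M) :
    tdx V a (fun p => L p (k p)) p = (tdx V a L p) (k p) + L p (tdx V a k p) := by
  unfold tdx
  rw [((dif51 hL p).hasFDerivAt.clm_apply (dif51 hk p).hasFDerivAt).fderiv]
  simp [add_comm]

theorem tdy_clm {L : En M × En M → (F →L[ℝ] G)} (hL : ContDiff ℝ ∞ L) {k : En M × En M → F}
    (hk : ContDiff ℝ ∞ k) (a : Fin M) (p : En M × En M) :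
    tdy V a (fun p => L p (k p)) p = (tdy V a L p) (k p) + L p (tdy V a k p) := by
  unfold tdy
  rw [((dif51 hL p).hasFDerivAt.clm_apply (dif51 hk p).hasFDerivAt).fderiv]
  simp [add_comm]

theorem tdx_smul {f : En M × En M → ℝ} (hf : ContDiff ℝ ∞ f) {k : En M × En M → F}
    (hk : ContDiff ℝ ∞ k) (a : Fin M) (p : En M × En M) :
    tdx V a (fun p => f p • k p) p = (tdx V a f p) • (k p) + f p • (tdx V a k p) := by
  unfold tdx
  rw [fderiv_fun_smul (dif51 hf p) (dif51 hk p)]
  simp [add_comm]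

theorem tdy_smul {f : En M × En M → ℝ} (hf : ContDiff ℝ ∞ f) {k : En M × En M → F}
    (hk : ContDiff ℝ ∞ k) (a : Fin M) (p : En M × En M) :
    tdy V a (fun p => f p • k p) p = (tdy V a f p) • (k p) + f p • (tdy V a k p) := by
  unfold tdy
  rw [fderiv_fun_smul (dif51 hf p) (dif51 hk p)]
  simp [add_comm]

theorem tdx_coord (a b : Fin M) (p : En M × En M) :
    tdx V a (fun p => p.1 b - p.2 b) p = V.P p.1 (bv a) b := by
  unfold tdx
  rw [(coordD51 b p).fderiv]
  simp

theorem tdy_coord (a b : Fin M) (p : En M × En M) :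
    tdy V a (fun p => p.1 b - p.2 b) p = -(V.P p.2 (bv a) b) := by
  unfold tdy
  rw [(coordD51 b p).fderiv]
  simp

private theorem tdx_expand51 {c : Fin M → En M × En M → F} (hc : ∀ b, ContDiff ℝ ∞ (c b))
    (a : Fin M) (p : En M × En M) :
    tdx V a (fun p => ∑ b, (p.1 b - p.2 b) • c b p) p =
      ∑ b, ((V.P p.1 (bv a) b) • c b p + (p.1 b - p.2 b) • tdx V a (c b) p) := by
  have h1 : tdx V a (fun p => ∑ b, (p.1 b - p.2 b) • c b p) p =
      ∑ b, tdx V a (fun p => (p.1 b - p.2 b) • c b p) p := by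
    unfold tdx
    rw [fderiv_fun_sum fun b _ => (show DifferentiableAt ℝ
      (fun p : En M × En M => (p.1 b - p.2 b) • c b p) p from
        dif51 ((coordS51 b).smul (hc b)) p)]
    simp
  rw [h1]
  refine Finset.sum_congr rfl fun b _ => ?_
  rw [tdx_smul (coordS51 b) (hc b), tdx_coord]

private theorem tdy_expand51 {c : Fin M → En M × En M → F} (hc : ∀ b, ContDiff ℝ ∞ (c b))
    (a : Fin M) (p : En M × En M) :
    tdy V a (fun p => ∑ b, (p.1 b - p.2 b) • c b p) p =
      ∑ b, ((-(V.P p.2 (bv a) b)) • c b p + (p.1 b - p.2 b) • tdy V a (c b) p) := by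
  have h1 : tdy V a (fun p => ∑ b, (p.1 b - p.2 b) • c b p) p =
      ∑ b, tdy V a (fun p => (p.1 b - p.2 b) • c b p) p := by
    unfold tdy
    rw [fderiv_fun_sum fun b _ => (show DifferentiableAt ℝ
      (fun p : En M × En M => (p.1 b - p.2 b) • c b p) p from
        dif51 ((coordS51 b).smul (hc b)) p)]
    simp
  rw [h1]
  refine Finset.sum_congr rfl fun b _ => ?_
  rw [tdy_smul (coordS51 b) (hc b), tdy_coord]

theorem Van.tdx (hloc : V.Loc) {q : ℕ} {k : En M × En M → F} (h : Van V.carrier (q + 1) k)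
    (a : Fin M) : Van V.carrier q (Pool.Agent.EXO.tdx V a k) := by
  induction q generalizing k with
  | zero => exact contDiff_tdx h.contDiff a
  | succ q ih =>
    obtain ⟨h1, c, hc, e⟩ := h
    have hcs : ∀ b, ContDiff ℝ ∞ (c b) := fun b => (hc b).contDiff
    have h2 : Van V.carrier (q + 1) (fun p => ∑ b, ((V.P p.1 (bv a) b) • c b p
        + (p.1 b - p.2 b) • Pool.Agent.EXO.tdx V a (c b) p)) := by
      refine Van.sum _ fun b _ => Van.add ?_ ?_
      · exact Van.smul (Pc51 a b).1 (hc b)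
      · exact Van.coord b (ih (hc b))
    refine h2.congr (contDiff_tdx h1 a) fun x hx y hy => ?_
    have h3 : Pool.Agent.EXO.tdx V a k (x, y) = Pool.Agent.EXO.tdx V a
        (fun p => ∑ b, (p.1 b - p.2 b) • c b p) (x, y) :=
      tdx_congr hloc h1 (lin51 hcs) e a hx hy
    rw [h3, tdx_expand51 hcs]

theorem Van.tdy (hloc : V.Loc) {q : ℕ} {k : En M × En M → F} (h : Van V.carrier (q + 1) k)
    (a : Fin M) : Van V.carrier q (Pool.Agent.EXO.tdy V a k) := by
  induction q generalizing k with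
  | zero => exact contDiff_tdy h.contDiff a
  | succ q ih =>
    obtain ⟨h1, c, hc, e⟩ := h
    have hcs : ∀ b, ContDiff ℝ ∞ (c b) := fun b => (hc b).contDiff
    have h2 : Van V.carrier (q + 1) (fun p => ∑ b, ((-(V.P p.2 (bv a) b)) • c b p
        + (p.1 b - p.2 b) • Pool.Agent.EXO.tdy V a (c b) p)) := by
      refine Van.sum _ fun b _ => Van.add ?_ ?_
      · exact Van.smul (Pc51 a b).2.neg (hc b)
      · exact Van.coord b (ih (hc b))
    refine h2.congr (contDiff_tdy h1 a) fun x hx y hy => ?_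
    have h3 : Pool.Agent.EXO.tdy V a k (x, y) = Pool.Agent.EXO.tdy V a
        (fun p => ∑ b, (p.1 b - p.2 b) • c b p) (x, y) :=
      tdy_congr hloc h1 (lin51 hcs) e a hx hy
    rw [h3, tdy_expand51 hcs]

theorem Van.tds (hloc : V.Loc) (hP : Van V.carrier 1 (fun p => V.P p.1 - V.P p.2)) {q : ℕ}
    {k : En M × En M → F} (h : Van V.carrier q k) (a : Fin M) :
    Van V.carrier q (fun p => Pool.Agent.EXO.tdx V a k p + Pool.Agent.EXO.tdy V a k p) := by
  induction q generalizing k with
  | zero => exact (contDiff_tdx h.contDiff a).add (contDiff_tdy h.contDiff a)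
  | succ q ih =>
    obtain ⟨h1, c, hc, e⟩ := h
    have hcs : ∀ b, ContDiff ℝ ∞ (c b) := fun b => (hc b).contDiff
    have h2 : Van V.carrier (q + 1) (fun p => ∑ b, ((V.P p.1 (bv a) b - V.P p.2 (bv a) b) • c b p
        + (p.1 b - p.2 b) • (Pool.Agent.EXO.tdx V a (c b) p
          + Pool.Agent.EXO.tdy V a (c b) p))) := by
      refine Van.sum _ fun b _ => Van.add ?_ ?_
      · have h3 := Van.clm_const (((EuclideanSpace.proj (𝕜 := ℝ) b) : En M →L[ℝ] ℝ).comp
          (ContinuousLinearMap.apply ℝ (En M) (bv a))) hP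
        have h4 := Van.smul_van h3 (hc b)
        rw [add_comm 1 q] at h4
        exact h4
      · exact Van.coord b (ih (hc b))
    refine h2.congr ((contDiff_tdx h1 a).add (contDiff_tdy h1 a)) fun x hx y hy => ?_
    have h3 : Pool.Agent.EXO.tdx V a k (x, y) = Pool.Agent.EXO.tdx V a
        (fun p => ∑ b, (p.1 b - p.2 b) • c b p) (x, y) :=
      tdx_congr hloc h1 (lin51 hcs) e a hx hy
    have h4 : Pool.Agent.EXO.tdy V a k (x, y) = Pool.Agent.EXO.tdy V a
        (fun p => ∑ b, (p.1 b - p.2 b) • c b p) (x, y) :=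
      tdy_congr hloc h1 (lin51 hcs) e a hx hy
    rw [h3, h4, tdx_expand51 hcs, tdy_expand51 hcs, ← Finset.sum_add_distrib]
    refine Finset.sum_congr rfl fun b _ => ?_
    show (V.P x (bv a) b - V.P y (bv a) b) • c b (x, y) + (x b - y b) • _ = _
    rw [sub_smul, smul_add, neg_smul]
    abel

theorem tdx_tdy {k : En M × En M → F} (hk : ContDiff ℝ ∞ k) (a b : Fin M) (p : En M × En M) :
    tdx V a (tdy V b k) p = tdy V b (tdx V a k) p := by
  have hdk : ContDiff ℝ ∞ (fderiv ℝ k) := hk.fderiv_right (m := ∞) (by simp)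
  have h1 : HasFDerivAt (fun z : En M × En M => ((0 : En M), V.P z.2 (bv b)))
      ((0 : En M × En M →L[ℝ] En M).prod ((fderiv ℝ (fun y => V.P y (bv b)) p.2).comp
        (ContinuousLinearMap.snd ℝ (En M) (En M)))) p := by
    refine (hasFDerivAt_const _ _).prodMk ?_
    have h2 : DifferentiableAt ℝ (fun y => V.P y (bv b)) p.2 :=
      ((V.smoothP.clm_apply contDiff_const).differentiable (by simp)).differentiableAt
    exact h2.hasFDerivAt.comp p hasFDerivAt_snd
  have h2 : HasFDerivAt (fun z : En M × En M => (V.P z.1 (bv a), (0 : En M)))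
      (((fderiv ℝ (fun y => V.P y (bv a)) p.1).comp
        (ContinuousLinearMap.fst ℝ (En M) (En M))).prod (0 : En M × En M →L[ℝ] En M)) p := by
    refine HasFDerivAt.prodMk ?_ (hasFDerivAt_const _ _)
    have h2 : DifferentiableAt ℝ (fun y => V.P y (bv a)) p.1 :=
      ((V.smoothP.clm_apply contDiff_const).differentiable (by simp)).differentiableAt
    exact h2.hasFDerivAt.comp p hasFDerivAt_fst
  have e1 : tdx V a (tdy V b k) p =
      fderiv ℝ (fderiv ℝ k) p (V.P p.1 (bv a), 0) (0, V.P p.2 (bv b)) := by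
    show fderiv ℝ (fun z => fderiv ℝ k z (0, V.P z.2 (bv b))) p (V.P p.1 (bv a), 0) = _
    rw [((dif51 hdk p).hasFDerivAt.clm_apply h1).fderiv]
    simp only [add_apply, ContinuousLinearMap.comp_apply,
      ContinuousLinearMap.flip_apply, ContinuousLinearMap.prod_apply,
      zero_apply, ContinuousLinearMap.coe_snd', map_zero]
    rw [← Prod.zero_eq_mk, map_zero, zero_add]
  have e2 : tdy V b (tdx V a k) p =
      fderiv ℝ (fderiv ℝ k) p (0, V.P p.2 (bv b)) (V.P p.1 (bv a), 0) := by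
    show fderiv ℝ (fun z => fderiv ℝ k z (V.P z.1 (bv a), 0)) p (0, V.P p.2 (bv b)) = _
    rw [((dif51 hdk p).hasFDerivAt.clm_apply h2).fderiv]
    simp only [add_apply, ContinuousLinearMap.comp_apply,
      ContinuousLinearMap.flip_apply, ContinuousLinearMap.prod_apply,
      zero_apply, ContinuousLinearMap.coe_fst', map_zero]
    rw [← Prod.zero_eq_mk, map_zero, zero_add]
  rw [e1, e2]
  have h3 : IsSymmSndFDerivAt ℝ k p := hk.contDiffAt.isSymmSndFDerivAt (by
    rw [minSmoothness_of_isRCLikeNormedField]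
    exact WithTop.coe_le_coe.2 (show (2 : ℕ∞) ≤ ⊤ from le_top))
  exact h3 _ _

end Pool.Agent.EXO
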