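import Pool.Agent.EXO.IbVb
import Pool.Agent.EXO.IbTd

/-!
Project EXO, chunk IDX-A, module IbGe: the geometric members of the classes `Van`.

PROOFS.  `hV : V.Good l`.
* `van_P`: `Van.of_sub` for `V.P`.
* `van_nor`: `hV.nor`: coefficients: `Van 2` with `c' a = fun p => ∑ b, (p.1 b - p.2 b) • c a b p`.
  (`Van.coord`, `Van.sum`, `Van.congr`.)
* `van_nor'`: swap of `van_nor` and sign.
* `van_phi4`: with `v = x - y`, `P = V.P x`: on `V` `P` is a symmetric idempotent, so
  `‖v‖² - ‖P v‖² = ‖v - P v‖²`.  So on `V × V` the function is `(1/4) ⟪v - P v, v - P v⟫`, a product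
  of two `Van 2` functions (`Van.clm_van` with `L p = innerSL ℝ (..)`).
* `gradPhi`: `tdx a φ (x,y) = (1/2) ⟪x - y, V.P x (bv a)⟫` (derivative of `‖p.1 - p.2‖²/4`),
  everywhere.  `tdy a φ = -(1/2) ⟪x - y, V.P y (bv a)⟫`.
* `tds_phi`: the sum is `(1/2) ⟪x - y, (V.P x - V.P y) (bv a)⟫`: `Van 1` times `Van 1`.
* `euler_coord`: `∑ a, ⟪x - y, P x e_a⟫ • (P x e_a) b = (P x (x - y)) b` on `V` (`P` symmetric
  idempotent: `⟪v, P e_a⟫ = (P v) a`, `∑ (P v) a • P e_a = P (P v) = P v`).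
* `euler`: for `k ∈ Van q`, `E k := ∑ a, ⟪x - y, V.P x e_a⟫ • tdx a k`;
  `E k - q k ∈ Van (q+1)`.  Induction on `q`.  `q = 0`: `⟪x-y, P x e_a⟫ ∈ Van 1` and
  `tdx a k ∈ Van 0`.  `q + 1`: `k = ∑ b, (x b - y b) • c b` on `V × V`, so (`tdx_congr`,
  `tdx_smul`, `tdx_coord`) `E k = ∑ b, (P x (x-y)) b • c b + (x b - y b) • E (c b)` on `V × V`
  `= ∑ b (x b - y b) • c b - ∑ b ((x-y) - P x (x-y)) b • c b + ∑ b (x b - y b) • (q c b + Van (q+1))`;
  the middle sum is `Van (2 + q)` by `van_nor`.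
-/

set_option autoImplicit false
set_option maxSynthPendingDepth 3

open MeasureTheory
open scoped ContDiff

namespace Pool.Agent.EXO

variable {n M l : ℕ} {V : Geo n M} {F : Type} [NormedAddCommGroup F] [NormedSpace ℝ F]

theorem ge_contDiff_inner (V : Geo n M) (a : Fin M) :
    ContDiff ℝ ∞ (fun p : En M × En M => (inner ℝ (p.1 - p.2) (V.P p.1 (bv a)) : ℝ)) := by
  have h1 : ContDiff ℝ ∞ (fun p : En M × En M => V.P p.1 (bv a)) :=
    (V.smoothP.comp contDiff_fst).clm_apply contDiff_const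
  exact (contDiff_fst.sub contDiff_snd).inner ℝ h1

theorem ge_contDiff_coord (V : Geo n M) (a b : Fin M) :
    ContDiff ℝ ∞ (fun p : En M × En M => (V.P p.1 (bv a)) b) := by
  have h1 : ContDiff ℝ ∞ (fun p : En M × En M => V.P p.1 (bv a)) :=
    (V.smoothP.comp contDiff_fst).clm_apply contDiff_const
  exact (EuclideanSpace.proj b : En M →L[ℝ] ℝ).contDiff.comp h1

theorem ge_inner_sum (v w : En M) : (inner ℝ v w : ℝ) = ∑ b, v b * w b := by
  rw [PiLp.inner_apply]
  refine Finset.sum_congr rfl fun b _ => ?_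
  simp [mul_comm]

theorem ge_van_inner (V : Geo n M) (a : Fin M) :
    Van V.carrier 1 (fun p : En M × En M => (inner ℝ (p.1 - p.2) (V.P p.1 (bv a)) : ℝ)) := by
  have h1 : Van V.carrier 1 (fun p : En M × En M => ∑ b, (p.1 b - p.2 b) • (V.P p.1 (bv a)) b) :=
    Van.sum Finset.univ fun b _ => Van.coord b
      (show Van V.carrier 0 (fun p : En M × En M => (V.P p.1 (bv a)) b) from
        ge_contDiff_coord V a b)
  refine h1.congr (ge_contDiff_inner V a) fun x _ y _ => ?_
  simp only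
  rw [ge_inner_sum]
  rfl

theorem ge_P_inner {x : En M} (hx : x ∈ V.carrier) (v : En M) (a : Fin M) :
    (inner ℝ v (V.P x (bv a)) : ℝ) = (V.P x v) a := by
  rw [← V.P_sa x hx, ge_inner_sum, Finset.sum_eq_single a]
  · simp [bv]
  · intro b _ hb
    simp [bv, hb]
  · simp

theorem ge_norm_sub {x : En M} (hx : x ∈ V.carrier) (v : En M) :
    ‖v - V.P x v‖ ^ 2 = ‖v‖ ^ 2 - ‖V.P x v‖ ^ 2 := by
  have h1 : (inner ℝ v (V.P x v) : ℝ) = ‖V.P x v‖ ^ 2 := by
    rw [← real_inner_self_eq_norm_sq, V.P_sa x hx, V.P_idem x hx]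
  rw [@norm_sub_sq_real, h1]
  ring

theorem van_P (V : Geo n M) : Van V.carrier 1 (fun p => V.P p.1 - V.P p.2) :=
  Van.of_sub V.smoothP

theorem van_nor (hV : V.Good l) :
    Van V.carrier 2 (fun p => (p.1 - p.2) - V.P p.1 (p.1 - p.2)) := by
  obtain ⟨c, hc, hc2⟩ := hV.nor
  have h1 : Van V.carrier 2 (fun p : En M × En M => ∑ a, ∑ b,
      (p.1 a - p.2 a) • ((p.1 b - p.2 b) • c a b p)) := by
    refine Van.sum Finset.univ fun a _ => Van.sum Finset.univ fun b _ => ?_
    exact Van.coord a (Van.coord b (show Van V.carrier 0 (c a b) from hc a b))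
  refine h1.congr ?_ fun x hx y hy => ?_
  · exact (contDiff_fst.sub contDiff_snd).sub
      ((V.smoothP.comp contDiff_fst).clm_apply (contDiff_fst.sub contDiff_snd))
  · simp only
    rw [hc2 x hx y hy]
    refine Finset.sum_congr rfl fun a _ => Finset.sum_congr rfl fun b _ => ?_
    rw [smul_smul]

theorem van_nor' (hV : V.Good l) :
    Van V.carrier 2 (fun p => (p.1 - p.2) - V.P p.2 (p.1 - p.2)) := by
  have h1 := (van_nor hV).swap.neg
  have e : (fun p : En M × En M => -((fun p : En M × En M => (p.1 - p.2) - V.P p.1 (p.1 - p.2))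
      (p.2, p.1))) = fun p => (p.1 - p.2) - V.P p.2 (p.1 - p.2) := by
    funext p
    simp only
    rw [← neg_sub p.1 p.2, map_neg]
    abel
  rw [← e]
  exact h1

theorem van_phi4 (hV : V.Good l) :
    Van V.carrier 4 (fun p => phiK p - ‖V.P p.1 (p.1 - p.2)‖ ^ 2 / 4) := by
  have h1 : ∀ b : Fin M, Van V.carrier 2 (fun p : En M × En M =>
      ((p.1 - p.2) - V.P p.1 (p.1 - p.2)) b) := fun b =>
    Van.clm_const (EuclideanSpace.proj b : En M →L[ℝ] ℝ) (van_nor hV)
  have h2 : Van V.carrier 4 (fun p : En M × En M =>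
      ∑ b, (1 / 4 : ℝ) • (((p.1 - p.2) - V.P p.1 (p.1 - p.2)) b •
        ((p.1 - p.2) - V.P p.1 (p.1 - p.2)) b)) := by
    refine Van.sum Finset.univ fun b _ => ?_
    exact Van.smul (f := fun _ => (1 / 4 : ℝ)) contDiff_const (Van.smul_van (h1 b) (h1 b))
  refine h2.congr ?_ fun x hx y hy => ?_
  · have h3 : ContDiff ℝ ∞ (fun p : En M × En M => V.P p.1 (p.1 - p.2)) :=
      (V.smoothP.comp contDiff_fst).clm_apply (contDiff_fst.sub contDiff_snd)
    exact contDiff_phiK.sub ((h3.norm_sq ℝ).div_const 4)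
  · simp only [phiK]
    have h3 := ge_norm_sub hx (x - y)
    have h4 : ‖(x - y) - V.P x (x - y)‖ ^ 2 = ∑ b, ((x - y) - V.P x (x - y)) b •
        ((x - y) - V.P x (x - y)) b := by
      rw [← real_inner_self_eq_norm_sq, ge_inner_sum]
      rfl
    rw [← Finset.smul_sum, ← h4, h3, smul_eq_mul]
    ring

theorem ge_hasFDerivAt_phi (p w : En M × En M) :
    fderiv ℝ phiK p w = (1 / 2 : ℝ) * inner ℝ (p.1 - p.2) (w.1 - w.2) := by
  have h1 : HasFDerivAt (fun p : En M × En M => p.1 - p.2)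
      (ContinuousLinearMap.fst ℝ (En M) (En M) - ContinuousLinearMap.snd ℝ (En M) (En M)) p :=
    hasFDerivAt_fst.sub hasFDerivAt_snd
  have h2 := (h1.norm_sq).const_mul (1 / 4 : ℝ)
  have e : (phiK : En M × En M → ℝ) = fun p => (1 / 4 : ℝ) * ‖p.1 - p.2‖ ^ 2 := by
    funext p
    simp only [phiK]
    ring
  rw [e, h2.fderiv]
  simp [inner_sub_left, inner_sub_right]
  ring

theorem tdx_phi (a : Fin M) (p : En M × En M) :
    tdx V a phiK p = (1 / 2 : ℝ) * inner ℝ (p.1 - p.2) (V.P p.1 (bv a)) := by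
  rw [tdx, ge_hasFDerivAt_phi]
  simp

theorem tdy_phi (a : Fin M) (p : En M × En M) :
    tdy V a phiK p = -((1 / 2 : ℝ) * inner ℝ (p.1 - p.2) (V.P p.2 (bv a))) := by
  rw [tdy, ge_hasFDerivAt_phi]
  simp

theorem van_tdx_phi (a : Fin M) : Van V.carrier 1 (tdx V a phiK) := by
  have h1 : Van V.carrier 1 (fun p : En M × En M =>
      (1 / 2 : ℝ) • (inner ℝ (p.1 - p.2) (V.P p.1 (bv a)) : ℝ)) :=
    Van.smul (f := fun _ => (1 / 2 : ℝ)) contDiff_const (ge_van_inner V a)
  have e : (tdx V a phiK) = fun p : En M × En M =>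
      (1 / 2 : ℝ) • (inner ℝ (p.1 - p.2) (V.P p.1 (bv a)) : ℝ) := by
    funext p
    rw [tdx_phi, smul_eq_mul]
  rw [e]
  exact h1

theorem tds_phi (V : Geo n M) (a : Fin M) :
    Van V.carrier 2 (fun p => tdx V a phiK p + tdy V a phiK p) := by
  have h1 : Van V.carrier 2 (fun p : En M × En M =>
      ∑ b, (p.1 b - p.2 b) • ((1 / 2 : ℝ) • ((V.P p.1 - V.P p.2) (bv a)) b)) := by
    refine Van.sum Finset.univ fun b _ => Van.coord b ?_
    refine Van.smul (f := fun _ => (1 / 2 : ℝ)) contDiff_const ?_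
    exact Van.clm_const ((EuclideanSpace.proj b : En M →L[ℝ] ℝ).comp
      (ContinuousLinearMap.apply ℝ (En M) (bv a : En M))) (van_P V)
  have e : (fun p : En M × En M => tdx V a phiK p + tdy V a phiK p) = fun p : En M × En M =>
      ∑ b, (p.1 b - p.2 b) • ((1 / 2 : ℝ) • ((V.P p.1 - V.P p.2) (bv a)) b) := by
    funext p
    rw [tdx_phi, tdy_phi, ge_inner_sum, ge_inner_sum, Finset.mul_sum, Finset.mul_sum,
      ← sub_eq_add_neg, ← Finset.sum_sub_distrib]
    refine Finset.sum_congr rfl fun b _ => ?_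
    simp only [smul_eq_mul, PiLp.sub_apply, _root_.sub_apply]
    ring
  rw [e]
  exact h1

theorem sum_inner_P {x : En M} (hx : x ∈ V.carrier) (v : En M) :
    ∑ a, (inner ℝ v (V.P x (bv a)) : ℝ) • V.P x (bv a) = V.P x v := by
  have h1 : ∀ w : En M, w = ∑ a, w a • (bv a : En M) := by
    intro w
    ext i
    simp [bv, Pi.single_apply]
  calc ∑ a, (inner ℝ v (V.P x (bv a)) : ℝ) • V.P x (bv a)
      = ∑ a, (V.P x v) a • V.P x (bv a) := by
        refine Finset.sum_congr rfl fun a _ => ?_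
        rw [ge_P_inner hx]
    _ = V.P x (∑ a, (V.P x v) a • (bv a : En M)) := by
        rw [map_sum]
        refine Finset.sum_congr rfl fun a _ => ?_
        rw [map_smul]
    _ = V.P x (V.P x v) := by rw [← h1]
    _ = V.P x v := V.P_idem x hx v

theorem ge_tdx_sum {ι : Type} (s : Finset ι) {k : ι → En M × En M → F}
    (hk : ∀ i ∈ s, ContDiff ℝ ∞ (k i)) (a : Fin M) (p : En M × En M) :
    tdx V a (fun p => ∑ i ∈ s, k i p) p = ∑ i ∈ s, tdx V a (k i) p := by
  simp only [tdx]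
  rw [fderiv_fun_sum fun i hi => ((hk i hi).differentiable (by simp)).differentiableAt]
  simp

theorem euler (hV : V.Good l) {q : ℕ} {k : En M × En M → F} (h : Van V.carrier q k) :
    Van V.carrier (q + 1) (fun p =>
      (∑ a, (inner ℝ (p.1 - p.2) (V.P p.1 (bv a)) : ℝ) • tdx V a k p) - (q : ℝ) • k p) := by
  have hsm : ∀ (q : ℕ) (k : En M × En M → F), ContDiff ℝ ∞ k → ContDiff ℝ ∞ (fun p : En M × En M =>
      (∑ a, (inner ℝ (p.1 - p.2) (V.P p.1 (bv a)) : ℝ) • tdx V a k p) - (q : ℝ) • k p) := by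
    intro q k hk
    refine ContDiff.sub (ContDiff.sum fun a _ => (ge_contDiff_inner V a).smul (contDiff_tdx hk a)) ?_
    exact contDiff_const.smul hk
  induction q generalizing k with
  | zero =>
    have hk : ContDiff ℝ ∞ k := h.contDiff
    have h1 : Van V.carrier 1 (fun p : En M × En M =>
        ∑ a, (inner ℝ (p.1 - p.2) (V.P p.1 (bv a)) : ℝ) • tdx V a k p) :=
      Van.sum Finset.univ fun a _ => Van.smul_van (ge_van_inner V a)
        (show Van V.carrier 0 (tdx V a k) from contDiff_tdx hk a)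
    refine h1.congr (hsm 0 k hk) fun x _ y _ => ?_
    simp
  | succ q ih =>
    have hk : ContDiff ℝ ∞ k := h.contDiff
    obtain ⟨_, c, hc, hc2⟩ := h
    have hcs : ∀ b, ContDiff ℝ ∞ (c b) := fun b => (hc b).contDiff
    have h1 : Van V.carrier (q + 1 + 1) (fun p : En M × En M => ∑ b, (p.1 b - p.2 b) •
        ((∑ a, (inner ℝ (p.1 - p.2) (V.P p.1 (bv a)) : ℝ) • tdx V a (c b) p) -
          (q : ℝ) • c b p)) :=
      Van.sum Finset.univ fun b _ => Van.coord b (ih (hc b))
    have h2 : Van V.carrier (q + 1 + 1) (fun p : En M × En M =>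
        ∑ b, ((p.1 - p.2) - V.P p.1 (p.1 - p.2)) b • c b p) := by
      refine Van.sum Finset.univ fun b _ => ?_
      have h3 : Van V.carrier 2 (fun p : En M × En M =>
        ((p.1 - p.2) - V.P p.1 (p.1 - p.2)) b) :=
        Van.clm_const (EuclideanSpace.proj b : En M →L[ℝ] ℝ) (van_nor hV)
      have h4 := Van.smul_van h3 (hc b)
      have e : 2 + q = q + 1 + 1 := by ring
      rw [e] at h4
      exact h4
    refine (h1.sub h2).congr (hsm (q + 1) k hk) fun x hx y hy => ?_
    have hprod : ∀ b : Fin M, ContDiff ℝ ∞ (fun p : En M × En M => (p.1 b - p.2 b) • c b p) := by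
      intro b
      have h5 : ContDiff ℝ ∞ (fun p : En M × En M => p.1 b - p.2 b) :=
        ((EuclideanSpace.proj b : En M →L[ℝ] ℝ).contDiff.comp contDiff_fst).sub
          ((EuclideanSpace.proj b : En M →L[ℝ] ℝ).contDiff.comp contDiff_snd)
      exact h5.smul (hcs b)
    have hcoord : ∀ b : Fin M, ContDiff ℝ ∞ (fun p : En M × En M => p.1 b - p.2 b) := by
      intro b
      exact ((EuclideanSpace.proj b : En M →L[ℝ] ℝ).contDiff.comp contDiff_fst).sub
          ((EuclideanSpace.proj b : En M →L[ℝ] ℝ).contDiff.comp contDiff_snd)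
    have htd : ∀ a : Fin M, tdx V a k (x, y) = ∑ b, ((V.P x (bv a)) b • c b (x, y) +
        (x b - y b) • tdx V a (c b) (x, y)) := by
      intro a
      have h5 : tdx V a k (x, y) = tdx V a (fun p => ∑ b, (p.1 b - p.2 b) • c b p) (x, y) := by
        refine tdx_congr hV.loc hk ?_ (fun x hx y hy => hc2 x hx y hy) a hx hy
        exact ContDiff.sum fun b _ => hprod b
      rw [h5, ge_tdx_sum Finset.univ fun b _ => hprod b]
      refine Finset.sum_congr rfl fun b _ => ?_
      rw [tdx_smul (hcoord b) (hcs b), tdx_coord]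
    simp only
    have hk2 : k (x, y) = ∑ b, (x b - y b) • c b (x, y) := hc2 x hx y hy
    have e1 : ∑ a, (inner ℝ (x - y) (V.P x (bv a)) : ℝ) • tdx V a k (x, y) =
        ∑ b, (V.P x (x - y)) b • c b (x, y) + ∑ b, (x b - y b) •
          ∑ a, (inner ℝ (x - y) (V.P x (bv a)) : ℝ) • tdx V a (c b) (x, y) := by
      have e2 : ∀ b : Fin M, (V.P x (x - y)) b =
          ∑ a, (inner ℝ (x - y) (V.P x (bv a)) : ℝ) * (V.P x (bv a)) b := by
        intro b
        have h6 := congrArg (fun w : En M => w b) (sum_inner_P hx (x - y))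
        simp only at h6
        rw [← h6]
        simp
      simp only [htd, e2, Finset.smul_sum, Finset.sum_smul, smul_add, Finset.sum_add_distrib,
        smul_smul]
      congr 1
      · rw [Finset.sum_comm]
      · rw [Finset.sum_comm]
        refine Finset.sum_congr rfl fun b _ => Finset.sum_congr rfl fun a _ => ?_
        rw [mul_comm]
    rw [e1, hk2]
    have e3 : ∀ b : Fin M, ((x - y) - V.P x (x - y)) b • c b (x, y) =
        (x b - y b) • c b (x, y) - (V.P x (x - y)) b • c b (x, y) := by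
      intro b
      rw [← sub_smul]
      rfl
    have e4 : ∀ b : Fin M, (x b - y b) • ((∑ a, (inner ℝ (x - y) (V.P x (bv a)) : ℝ) •
        tdx V a (c b) (x, y)) - (q : ℝ) • c b (x, y)) =
        (x b - y b) • (∑ a, (inner ℝ (x - y) (V.P x (bv a)) : ℝ) •
        tdx V a (c b) (x, y)) - (q : ℝ) • ((x b - y b) • c b (x, y)) := by
      intro b
      rw [smul_sub, smul_comm (q : ℝ)]
    simp only [e3, e4, Finset.sum_sub_distrib, ← Finset.smul_sum, Nat.cast_add, Nat.cast_one,
      add_smul, one_smul]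
    abel

end Pool.Agent.EXO
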