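import Pool.Agent.EXO.IbDef

/-!
Project EXO, chunk IDX-A, module IbVa: algebra of the classes `Van`.

PROOFS.  Everything is by induction on `q` (generalizing the kernels), unfolding `Van`.
* `Van.contDiff`: both cases of the definition.
* `Van.congr`: case `q+1`: the same coefficients `c`.
* `Van.add`, `neg`, `sub`, `sum`, `csmul`: add etc. the coefficients.
* `Van.clm`: `L p (∑ a, (x a - y a) • c a p) = ∑ a, (x a - y a) • L p (c a p)`; smoothness of
  `p ↦ L p (k p)` is `ContDiff.clm_apply`.  `Van.smul` is the case
  `L p = f p • ContinuousLinearMap.id`.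
* `Van.coord`: coefficients `c b := if b = a then c else 0`; smoothness of `p ↦ p.1 a - p.2 a`:
  `EuclideanSpace.proj a` is continuous linear.
* `Van.pred`: by induction on `q`: for `q = 0` it is `contDiff`.  For `Van (q+2) k` with
  coefficients `c a ∈ Van (q+1)`: by induction `c a ∈ Van q`, so these coefficients show
  `Van (q+1) k`.  `Van.mono` follows.
* `Van.clm_van`: induction on `r` (generalizing `L`).  `r = 0`: `Van.clm`.  `r + 1`: on `V × V`
  `L p = ∑ (x a - y a) • c a p`, `c a ∈ Van r`, so `L p (k p) = ∑ (x a - y a) • (c a p) (k p)` with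
  `(c a ·) (k ·) ∈ Van (r + q)`: `Van.coord`, `Van.sum`, `Van.congr` (`r + 1 + q = (r + q) + 1`).
* `Van.smul_van`, `Van.mul`: special cases (`ContinuousLinearMap.mul`/`lsmul` as a continuous
  bilinear map; `Van.clm` with a constant `L` turns `Van r k` into `Van r` of the operator valued
  function).
* `Van.swap`: coefficients `p ↦ - c a (p.2, p.1)`.
* `Van.adjK`: `Van.swap` and `Van.clm` with the constant real linear map `A ↦ A*`
  (`ContinuousLinearMap.adjoint` is conjugate linear over `ℂ`, so real linear: restrict scalars of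
  the semilinear isometry, e.g. build the map with `LinearMap.toContinuousLinearMap` on the
  finite dimensional real space `H →L[ℂ] H` or with `mkContinuous`).
* `Van.diag`: `x a - x a = 0`.
-/

set_option autoImplicit false
set_option maxSynthPendingDepth 3

open MeasureTheory
open scoped ContDiff

namespace Pool.Agent.EXO

variable {M : ℕ} {F G : Type} [NormedAddCommGroup F] [NormedSpace ℝ F]
  [NormedAddCommGroup G] [NormedSpace ℝ G] {V : Set (En M)} {q r : ℕ} {k k' : En M × En M → F}

theorem Van.contDiff (h : Van V q k) : ContDiff ℝ ∞ k := by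
  cases q with
  | zero => exact h
  | succ q => exact h.1

theorem Van.zero : Van V q (fun _ => (0 : F)) := by
  induction q with
  | zero => exact contDiff_const
  | succ q ih =>
    exact ⟨contDiff_const, fun _ _ => 0, fun _ => ih, fun x _ y _ => by simp⟩

theorem Van.congr (h : Van V q k) (hk' : ContDiff ℝ ∞ k')
    (e : ∀ x ∈ V, ∀ y ∈ V, k (x, y) = k' (x, y)) : Van V q k' := by
  cases q with
  | zero => exact hk'
  | succ q =>
    obtain ⟨_, c, hc, e'⟩ := h
    exact ⟨hk', c, hc, fun x hx y hy => by rw [← e x hx y hy]; exact e' x hx y hy⟩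

theorem Van.add (h : Van V q k) (h' : Van V q k') : Van V q (fun p => k p + k' p) := by
  induction q generalizing k k' with
  | zero => exact ContDiff.add h h'
  | succ q ih =>
    obtain ⟨h1, c, hc, e⟩ := h
    obtain ⟨h1', c', hc', e'⟩ := h'
    refine ⟨h1.add h1', fun a p => c a p + c' a p, fun a => ih (hc a) (hc' a),
      fun x hx y hy => ?_⟩
    show k (x, y) + k' (x, y) = ∑ a, (x a - y a) • (c a (x, y) + c' a (x, y))
    rw [e x hx y hy, e' x hx y hy, ← Finset.sum_add_distrib]
    exact Finset.sum_congr rfl fun a _ => (smul_add _ _ _).symm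

theorem Van.neg (h : Van V q k) : Van V q (fun p => -k p) := by
  induction q generalizing k with
  | zero => exact ContDiff.neg h
  | succ q ih =>
    obtain ⟨h1, c, hc, e⟩ := h
    refine ⟨h1.neg, fun a p => -c a p, fun a => ih (hc a), fun x hx y hy => ?_⟩
    show -k (x, y) = ∑ a, (x a - y a) • (-c a (x, y))
    rw [e x hx y hy, ← Finset.sum_neg_distrib]
    exact Finset.sum_congr rfl fun a _ => (smul_neg _ _).symm

theorem Van.sub (h : Van V q k) (h' : Van V q k') : Van V q (fun p => k p - k' p) := by
  have h1 := h.add h'.neg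
  simpa only [sub_eq_add_neg] using h1

theorem Van.sum {ι : Type} (s : Finset ι) {k : ι → En M × En M → F}
    (h : ∀ i ∈ s, Van V q (k i)) : Van V q (fun p => ∑ i ∈ s, k i p) := by
  classical
  induction s using Finset.induction_on with
  | empty => simpa using (Van.zero (F := F) (V := V) (q := q))
  | insert i s hi ih =>
    have h1 := (h i (Finset.mem_insert_self i s)).add
      (ih fun j hj => h j (Finset.mem_insert_of_mem hj))
    simpa only [Finset.sum_insert hi] using h1

theorem Van.clm {L : En M × En M → (F →L[ℝ] G)} (hL : ContDiff ℝ ∞ L) (h : Van V q k) :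
    Van V q (fun p => L p (k p)) := by
  induction q generalizing k with
  | zero => exact hL.clm_apply h
  | succ q ih =>
    obtain ⟨h1, c, hc, e⟩ := h
    refine ⟨hL.clm_apply h1, fun a p => L p (c a p), fun a => ih (hc a), fun x hx y hy => ?_⟩
    show L (x, y) (k (x, y)) = _
    rw [e x hx y hy, map_sum]
    exact Finset.sum_congr rfl fun a _ => map_smul _ _ _

theorem Van.clm_const (L : F →L[ℝ] G) (h : Van V q k) : Van V q (fun p => L (k p)) := by
  exact Van.clm (L := fun _ => L) contDiff_const h

theorem Van.smul {f : En M × En M → ℝ} (hf : ContDiff ℝ ∞ f) (h : Van V q k) :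
    Van V q (fun p => f p • k p) := by
  exact Van.clm (L := fun p => f p • ContinuousLinearMap.id ℝ F) (hf.smul contDiff_const) h

theorem Van.coord (a : Fin M) (h : Van V q k) :
    Van V (q + 1) (fun p => (p.1 a - p.2 a) • k p) := by
  refine ⟨?_, fun b => if b = a then k else fun _ => 0, ?_, ?_⟩
  · have h1 : ContDiff ℝ ∞ fun p : En M × En M => p.1 a :=
      (EuclideanSpace.proj (𝕜 := ℝ) a).contDiff.comp contDiff_fst
    have h2 : ContDiff ℝ ∞ fun p : En M × En M => p.2 a :=
      (EuclideanSpace.proj (𝕜 := ℝ) a).contDiff.comp contDiff_snd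
    exact (h1.sub h2).smul h.contDiff
  · intro b
    by_cases hb : b = a
    · simpa only [hb, if_true] using h
    · simp only [hb, if_false]
      exact Van.zero
  · intro x _ y _
    rw [Finset.sum_eq_single a]
    · simp
    · intro b _ hb
      simp [hb]
    · simp

theorem Van.pred (h : Van V (q + 1) k) : Van V q k := by
  induction q generalizing k with
  | zero => exact h.1
  | succ q ih =>
    obtain ⟨h1, c, hc, e⟩ := h
    exact ⟨h1, c, fun a => ih (hc a), e⟩

theorem Van.mono (hq : r ≤ q) (h : Van V q k) : Van V r k := by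
  induction hq with
  | refl => exact h
  | step _ ih => exact ih h.pred

theorem Van.clm_van {L : En M × En M → (F →L[ℝ] G)} (hL : Van V r L) (h : Van V q k) :
    Van V (r + q) (fun p => L p (k p)) := by
  induction r generalizing L with
  | zero =>
    rw [Nat.zero_add]
    exact Van.clm hL h
  | succ r ih =>
    obtain ⟨h1, c, hc, e⟩ := hL
    have h2 : Van V (r + q + 1) (fun p => ∑ a, (p.1 a - p.2 a) • (c a p) (k p)) :=
      Van.sum _ fun a _ => Van.coord a (ih (hc a))
    have h3 : r + 1 + q = r + q + 1 := by omega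
    rw [h3]
    refine h2.congr (h1.clm_apply h.contDiff) fun x hx y hy => ?_
    show ∑ a, (x a - y a) • (c a (x, y)) (k (x, y)) = L (x, y) (k (x, y))
    rw [e x hx y hy, ContinuousLinearMap.sum_apply]
    rfl

theorem Van.smul_van {f : En M × En M → ℝ} (hf : Van V r f) (h : Van V q k) :
    Van V (r + q) (fun p => f p • k p) := by
  exact Van.clm_van (Van.clm_const (ContinuousLinearMap.lsmul ℝ ℝ : ℝ →L[ℝ] F →L[ℝ] F) hf) h

theorem Van.swap (h : Van V q k) : Van V q (fun p => k (p.2, p.1)) := by
  induction q generalizing k with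
  | zero => exact (show ContDiff ℝ ∞ k from h).comp (contDiff_snd.prodMk contDiff_fst)
  | succ q ih =>
    obtain ⟨h1, c, hc, e⟩ := h
    refine ⟨h1.comp (contDiff_snd.prodMk contDiff_fst), fun a p => -(c a (p.2, p.1)),
      fun a => (ih (hc a)).neg, fun x hx y hy => ?_⟩
    show k (y, x) = ∑ a, (x a - y a) • (-(c a (y, x)))
    rw [e y hy x hx]
    refine Finset.sum_congr rfl fun a _ => ?_
    rw [smul_neg, ← neg_smul, neg_sub]

theorem Van.diag (h : Van V (q + 1) k) {x : En M} (hx : x ∈ V) : k (x, x) = 0 := by
  obtain ⟨_, c, _, e⟩ := h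
  rw [e x hx x hx]
  simp

section

variable {H : Type} [NormedAddCommGroup H] [InnerProductSpace ℂ H] [FiniteDimensional ℂ H]
  {a b : En M × En M → (H →L[ℂ] H)}

theorem Van.csmul {E : Type} [NormedAddCommGroup E] [NormedSpace ℂ E] {f : En M × En M → E}
    (c : ℂ) (h : Van V q f) : Van V q (fun p => c • f p) := by
  exact Van.clm_const ((c • ContinuousLinearMap.id ℂ E).restrictScalars ℝ) h

theorem Van.mul (ha : Van V r a) (hb : Van V q b) : Van V (r + q) (fun p => a p * b p) := by
  exact Van.clm_van (Van.clm_const (ContinuousLinearMap.mul ℝ (H →L[ℂ] H)) ha) hb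

theorem Van.rsmul_mul {f : En M × En M → ℝ} (hf : Van V r f) (hb : Van V q b) :
    Van V (r + q) (fun p => ((f p : ℝ) : ℂ) • b p) := by
  have h1 := hf.smul_van hb
  refine h1.congr ?_ fun x _ y _ => ?_
  · have h2 := h1.contDiff
    have e : (fun p => ((f p : ℝ) : ℂ) • b p) = fun p => f p • b p := by
      funext p
      exact algebraMap_smul ℂ (f p) (b p)
    rw [e]
    exact h2
  · exact (algebraMap_smul ℂ (f (x, y)) (b (x, y))).symm

/-- the adjoint as a real linear map -/
private noncomputable def adjR51 {H : Type} [NormedAddCommGroup H] [InnerProductSpace ℂ H]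
    [FiniteDimensional ℂ H] : (H →L[ℂ] H) →L[ℝ] (H →L[ℂ] H) :=
  LinearMap.mkContinuous
    { toFun := fun A => ContinuousLinearMap.adjoint A
      map_add' := fun A B => map_add _ A B
      map_smul' := fun r A => by
        have h1 : r • A = ((r : ℝ) : ℂ) • A := (algebraMap_smul ℂ r A).symm
        have h2 : r • ContinuousLinearMap.adjoint A
            = ((r : ℝ) : ℂ) • ContinuousLinearMap.adjoint A := (algebraMap_smul ℂ r _).symm
        rw [RingHom.id_apply, h1, h2, map_smulₛₗ]
        simp } 1 (fun A => by
          rw [one_mul]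
          exact (LinearIsometryEquiv.norm_map _ A).le)

theorem contDiff_adjK (ha : ContDiff ℝ ∞ a) : ContDiff ℝ ∞ (adjK a) := by
  exact (adjR51 (H := H)).contDiff.comp (ha.comp (contDiff_snd.prodMk contDiff_fst))

theorem Van.adjK (ha : Van V q a) : Van V q (adjK a) := by
  exact Van.clm_const (adjR51 (H := H)) ha.swap

theorem adjK_adjK (a : En M × En M → (H →L[ℂ] H)) : Pool.Agent.EXO.adjK (Pool.Agent.EXO.adjK a) = a := by
  funext p
  show ContinuousLinearMap.adjoint (ContinuousLinearMap.adjoint (a p)) = a p
  exact ContinuousLinearMap.adjoint_adjoint _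

end

end Pool.Agent.EXO
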