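import Pool.Agent.EXO.IbVa
import Pool.Agent.EXO.SuHad

/-!
Project EXO, chunk IDX-A, module IbVb: bounds, Hadamard, functions vanishing on the diagonal.

PROOFS.
* `Van.bound`: induction on `q`.  `q = 0`: `k` is continuous and `V × V` is compact.  `q + 1`:
  `‖k‖ ≤ ∑ |x a - y a| C_a ‖x-y‖^q ≤ (∑ C_a) ‖x-y‖^(q+1)`, `|x a - y a| ≤ ‖x - y‖`
  (`EuclideanSpace.norm_eq`/`PiLp.norm_apply_le`).
* `Van.of_diag`: put `g(x,y,s) = k (y + s (x-y), y)`.  For `x ∈ V`, `y ∈ V`:
  `k (x,y) = k (x,y) - k (y,y) = ∫₀¹ (d/ds) k (y + s(x-y), y) ds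
  = ∑ a, (x a - y a) • ∫₀¹ fderiv k (y + s(x-y), y) (bv a, 0) ds`; the coefficient is smooth on
  `ℝ^M × ℝ^M` by `SuHad.contDiff_param` (see also `hadamard_param`, which may give this at once).
* `Van.of_sub`: `Van.of_diag` (or `hadamard_one`).
* `van_coord`, `van_vec`: coefficients `if b = a then 1 else 0`, respectively `bv a`.
* `van_phi`: `‖x-y‖² = ∑ (x a - y a)²`; `(x a - y a) • (x a - y a)`: `Van.coord` twice.
-/

set_option autoImplicit false
set_option maxSynthPendingDepth 3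

open MeasureTheory
open scoped ContDiff

namespace Pool.Agent.EXO

variable {M : ℕ} {F : Type} [NormedAddCommGroup F] [NormedSpace ℝ F] {V : Set (En M)} {q : ℕ}
  {k : En M × En M → F}

theorem Van.bound (hV : IsCompact V) (h : Van V q k) :
    ∃ C : ℝ, 0 ≤ C ∧ ∀ x ∈ V, ∀ y ∈ V, ‖k (x, y)‖ ≤ C * ‖x - y‖ ^ q := by
  induction q generalizing k with
  | zero =>
    obtain ⟨C, hC⟩ := (hV.prod hV).exists_bound_of_continuousOn (f := k)
      h.contDiff.continuous.continuousOn
    refine ⟨max C 0, le_max_right _ _, fun x hx y hy => ?_⟩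
    rw [pow_zero, mul_one]
    exact (hC (x, y) ⟨hx, hy⟩).trans (le_max_left _ _)
  | succ q ih =>
    obtain ⟨h1, c, hc, e⟩ := h
    choose C hC0 hC using fun a => ih (hc a)
    refine ⟨∑ a, C a, Finset.sum_nonneg fun a _ => hC0 a, fun x hx y hy => ?_⟩
    rw [e x hx y hy]
    refine (norm_sum_le _ _).trans ?_
    rw [Finset.sum_mul]
    refine Finset.sum_le_sum fun a _ => ?_
    rw [norm_smul, pow_succ]
    have h2 : ‖x a - y a‖ ≤ ‖x - y‖ := by
      have := PiLp.norm_apply_le (x - y) a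
      simpa using this
    calc ‖x a - y a‖ * ‖c a (x, y)‖ ≤ ‖x - y‖ * (C a * ‖x - y‖ ^ q) :=
          mul_le_mul h2 (hC a x hx y hy) (norm_nonneg _) (norm_nonneg _)
      _ = C a * (‖x - y‖ ^ q * ‖x - y‖) := by ring

theorem Van.of_diag [CompleteSpace F] (hk : ContDiff ℝ ∞ k) (h : ∀ x ∈ V, k (x, x) = 0) :
    Van V 1 k := by
  obtain ⟨s, h1, h2, h3⟩ := hadamard_param hk
  refine ⟨hk, fun b p => -(s b p), fun b => (h1 b).neg, fun x hx y hy => ?_⟩
  rw [h2 x y, h x hx, zero_add]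
  refine Finset.sum_congr rfl fun a _ => ?_
  rw [smul_neg, ← neg_smul, neg_sub]

theorem Van.of_sub [CompleteSpace F] {f : En M → F} (hf : ContDiff ℝ ∞ f) :
    Van V 1 (fun p => f p.1 - f p.2) := by
  exact Van.of_diag (k := fun p => f p.1 - f p.2)
    ((hf.comp contDiff_fst).sub (hf.comp contDiff_snd)) (fun x _ => sub_self _)

theorem van_coord (a : Fin M) : Van V 1 (fun p => p.1 a - p.2 a) := by
  have h1 := Van.coord (V := V) a (q := 0) (k := fun _ => (1 : ℝ)) contDiff_const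
  simpa only [smul_eq_mul, mul_one] using h1

theorem van_vec : Van V 1 (fun p : En M × En M => p.1 - p.2) := by
  refine ⟨contDiff_fst.sub contDiff_snd, fun a _ => bv a, fun a => contDiff_const,
    fun x _ y _ => ?_⟩
  ext i
  simp [bv, Pi.single_apply]

theorem contDiff_phiK : ContDiff ℝ ∞ (phiK (M := M)) := by
  unfold phiK
  exact ((contDiff_fst.sub contDiff_snd).norm_sq ℝ).div_const 4

theorem van_phi : Van V 2 (phiK (M := M)) := by
  have h1 : Van V 2 (fun p : En M × En M =>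
      ∑ a, (p.1 a - p.2 a) • ((p.1 a - p.2 a) • (1 / 4 : ℝ))) :=
    Van.sum _ fun a _ => Van.coord a (Van.coord a (q := 0) contDiff_const)
  refine h1.congr contDiff_phiK fun x _ y _ => ?_
  show _ = ‖x - y‖ ^ 2 / 4
  rw [EuclideanSpace.norm_sq_eq, Finset.sum_div]
  refine Finset.sum_congr rfl fun a _ => ?_
  have e : (x - y) a = x a - y a := rfl
  rw [e, Real.norm_eq_abs, sq_abs]
  simp only [smul_eq_mul]
  ring

end Pool.Agent.EXO
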