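import Pool.Agent.EXO.IcKer

/-!
Project EXO, chunk IDX-A, module IcEul: the Euler identity for `D`.

STATEMENT.  For `k ∈ Van q` with `Q(x) k = k` on `V × V` (`n = 2 l`):
`opK (Cg k) + Cg (opK k) + (q + l) k ∈ Van (q + 1)`.

PROOF.  Work on `V × V`, `v = x - y`, `X = P(x) v / 2`, `c(X) = ∑ X_b c_b = (1/2) cP x v`,
`Cg = c(X) Q` (`Cg_eq`), `Q c(X) Q = c(X) Q` (`Q_cP`).  By the product rule
`opK (Cg k) = ∑_a c_a Q (tdx_a Cg) k + ∑_a c_a Q Cg (tdx_a k) + B Cg k`.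
(1) `c_a c(X) = - c(X) c_a - 2 X_a` (`c_anti`), so
`∑_a c_a Q Cg (tdx_a k) = ∑_a c_a c(X) Q (tdx_a k) = - c(X) ∑_a c_a Q (tdx_a k) - 2 Q ∑_a X_a tdx_a k`.
(2) `Cg (opK k) = c(X) Q (∑_a c_a Q (tdx_a k) + B k) = c(X) ∑_a c_a Q (tdx_a k) + c(X) Q B k`
(`Q (∑ c_a Q tdx_a k) = ∑ c_a Q tdx_a k`, see `Q_op`).
The sum of (1) and (2) is `- Q ∑_a ⟪v, P e_a⟫ tdx_a k + c(X) Q B k`, `2 X_a = ⟪v, P e_a⟫`.
By `euler`, `∑_a ⟪v, P e_a⟫ tdx_a k = q k + Van (q+1)`, and `Q k = k`.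
(3) `∑_a c_a Q (tdx_a Cg) k`: `Cg p = ∑_b (1/2) ⟪v, P(x) e_b⟫ c_b Q(x)`, so
`tdx_a Cg = (1/2) ∑_b ⟪P e_a, P e_b⟫ c_b Q + (1/2) ∑_b ⟪v, (∂_a P) e_b⟫ c_b Q
  + (1/2) ∑_b ⟪v, P e_b⟫ c_b ∂_a Q`;
the last two sums are `Van 1`, so they contribute `Van (q+1)` (`Van.mul`).  The first:
`⟪P e_a, P e_b⟫ = (P e_a) b`, so it is `(1/2) cP(e_a) Q`, and
`∑_a c_a Q cP(e_a) Q k = ∑_a c_a cP(e_a) k = ∑_{a,b} (P e_a)_b c_a c_b k = - (∑_a (P e_a)_a) k
= - n k` (symmetrize in `a`, `b`: `(P e_a)_b = (P e_b)_a`, `c_a c_b + c_b c_a = -2 δ_ab`;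
`hV.trace`).  So (3) is `- (n/2) k = - l k` mod `Van (q+1)` (`hV.dim`).
(4) `B Cg k` and `c(X) Q B k` are in `Van (q+1)` (`van_Cg`, `Van.mul`).
All identities hold on `V × V` only; use `Van.congr`, smoothness of the final function is
`contDiff_opK`, `contDiff_Cg`.  (The function `c(X) Q B k` is `Cg * B∘fst * k` on `V × V`.)
-/

set_option autoImplicit false
set_option maxSynthPendingDepth 3

open MeasureTheory
open scoped ContDiff

namespace Pool.Agent.EXO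

namespace Dirac

variable {n M l : ℕ} {V : Geo n M} {H : Type} [NormedAddCommGroup H]
  [InnerProductSpace ℂ H] [FiniteDimensional ℂ H] (𝔇 : Dirac V H) {k : KF M H}

private lemma IcEul_right {M : ℕ} (v : En M) (a : Fin M) : inner ℝ v (bv a) = v a := by
  rw [bv, EuclideanSpace.inner_single_right]
  simp

private lemma IcEul_sym {x : En M} (hx : x ∈ V.carrier) (a b : Fin M) :
    V.P x (bv a) b = V.P x (bv b) a := by
  have h := V.P_sa x hx (bv a) (bv b)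
  have h1 : inner ℝ (V.P x (bv a)) (bv b) = V.P x (bv a) b := IcEul_right _ _
  have h2 : inner ℝ (bv a) (V.P x (bv b)) = V.P x (bv b) a := by
    rw [real_inner_comm]
    exact IcEul_right _ _
  rw [← h1, ← h2, h]

private lemma IcEul_inner {x : En M} (hx : x ∈ V.carrier) (v : En M) (a : Fin M) :
    inner ℝ v (V.P x (bv a)) = V.P x v a := by
  have h := V.P_sa x hx v (bv a)
  have h1 : inner ℝ (V.P x v) (bv a) = V.P x v a := IcEul_right _ _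
  rw [← h, h1]

private lemma IcEul_anti (a : Fin M) (x v : En M) :
    𝔇.c a * 𝔇.cP x v + 𝔇.cP x v * 𝔇.c a = (((-2) * V.P x v a : ℝ) : ℂ) • 1 := by
  unfold cP
  rw [Finset.mul_sum, Finset.sum_mul, ← Finset.sum_add_distrib]
  have h : ∀ b, 𝔇.c a * ((V.P x v b : ℝ) : ℂ) • 𝔇.c b + ((V.P x v b : ℝ) : ℂ) • 𝔇.c b * 𝔇.c a
      = if a = b then (((-2) * V.P x v b : ℝ) : ℂ) • (1 : H →L[ℂ] H) else 0 := by
    intro b
    rw [mul_smul_comm, smul_mul_assoc, ← smul_add, 𝔇.c_anti]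
    split_ifs with hab
    · rw [smul_smul]
      congr 1
      push_cast
      ring
    · rw [smul_zero]
  rw [Finset.sum_congr rfl fun b _ => h b, Finset.sum_ite_eq]
  simp

theorem sum_c_cP (hV : V.Good l) {x : En M} (hx : x ∈ V.carrier) :
    ∑ a, 𝔇.c a * 𝔇.cP x (bv a) = (-(n : ℂ)) • 1 := by
  obtain ⟨S, hS⟩ : ∃ S, S = ∑ a, 𝔇.c a * 𝔇.cP x (bv a) := ⟨_, rfl⟩
  have h1 : S = ∑ a, ∑ b, ((V.P x (bv a) b : ℝ) : ℂ) • (𝔇.c a * 𝔇.c b) := by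
    rw [hS]
    refine Finset.sum_congr rfl fun a _ => ?_
    unfold cP
    rw [Finset.mul_sum]
    refine Finset.sum_congr rfl fun b _ => ?_
    rw [mul_smul_comm]
  have h2 : S = ∑ a, ∑ b, ((V.P x (bv a) b : ℝ) : ℂ) • (𝔇.c b * 𝔇.c a) := by
    rw [h1, Finset.sum_comm]
    refine Finset.sum_congr rfl fun a _ => Finset.sum_congr rfl fun b _ => ?_
    rw [IcEul_sym hx]
  have h3 : S + S = ((-2 * (n : ℂ))) • (1 : H →L[ℂ] H) := by
    have e1 : S + S = ∑ a, ∑ b, ((V.P x (bv a) b : ℝ) : ℂ) •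
        (𝔇.c a * 𝔇.c b + 𝔇.c b * 𝔇.c a) := by
      nth_rewrite 1 [h1]
      rw [h2, ← Finset.sum_add_distrib]
      refine Finset.sum_congr rfl fun a _ => ?_
      rw [← Finset.sum_add_distrib]
      refine Finset.sum_congr rfl fun b _ => ?_
      rw [smul_add]
    rw [e1]
    have e2 : ∀ a, ∑ b, ((V.P x (bv a) b : ℝ) : ℂ) • (𝔇.c a * 𝔇.c b + 𝔇.c b * 𝔇.c a)
        = (-2 * ((V.P x (bv a) a : ℝ) : ℂ)) • (1 : H →L[ℂ] H) := by
      intro a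
      have e3 : ∀ b, ((V.P x (bv a) b : ℝ) : ℂ) • (𝔇.c a * 𝔇.c b + 𝔇.c b * 𝔇.c a)
          = if a = b then (-2 * ((V.P x (bv a) b : ℝ) : ℂ)) • (1 : H →L[ℂ] H) else 0 := by
        intro b
        rw [𝔇.c_anti]
        split_ifs with hab
        · rw [smul_smul, mul_comm]
        · rw [smul_zero]
      rw [Finset.sum_congr rfl fun b _ => e3 b, Finset.sum_ite_eq]
      simp
    rw [Finset.sum_congr rfl fun a _ => e2 a, ← Finset.sum_smul, ← Finset.mul_sum]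
    congr 2
    have e4 := hV.trace x hx
    have e5 : ((∑ a, (V.P x (bv a)) a : ℝ) : ℂ) = ((n : ℝ) : ℂ) := by rw [e4]
    push_cast at e5
    exact e5
  rw [← hS]
  have h4 : S = (1 / 2 : ℂ) • (S + S) := by
    rw [← two_smul ℂ S, smul_smul]
    norm_num
  rw [h4, h3, smul_smul]
  congr 1
  ring

private lemma IcEul_Cg_eq : 𝔇.Cg = fun p => ∑ b, tdx V b phiK p • (𝔇.c b * 𝔇.Q p.1) := by
  funext p
  unfold Cg
  refine Finset.sum_congr rfl fun b _ => ?_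
  rw [tdx_phi, Complex.coe_smul]

private lemma IcEul_cQ (b : Fin M) :
    ContDiff ℝ ∞ (fun p : En M × En M => 𝔇.c b * 𝔇.Q p.1) := by
  have h1 : Van V.carrier 0 (fun _ : En M × En M => 𝔇.c b) := contDiff_const
  have h2 : Van V.carrier 0 (fun p : En M × En M => 𝔇.Q p.1) :=
    𝔇.smoothQ.comp contDiff_fst
  exact (h1.mul h2).contDiff

private lemma IcEul_diag (a b : Fin M) {x : En M} (hx : x ∈ V.carrier) :
    tdx V a (tdx V b phiK) (x, x) = 1 / 2 * V.P x (bv a) b := by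
  have hs : ContDiff ℝ ∞ (tdx V b (phiK (M := M))) := contDiff_tdx contDiff_phiK b
  rw [tdx_slice hs]
  have e : (fun z => tdx V b phiK (z, x)) =
      fun z => (1 / 2 : ℝ) * inner ℝ (z - x) (V.P z (bv b)) := by
    funext z
    rw [tdx_phi]
  rw [e]
  unfold td
  have hd1 : DifferentiableAt ℝ (fun z : En M => z - x) x := by fun_prop
  have hd2 : DifferentiableAt ℝ (fun z : En M => V.P z (bv b)) x :=
    ((V.smoothP.clm_apply contDiff_const).differentiable (by simp)) x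
  have hd3 : DifferentiableAt ℝ (fun z : En M => inner ℝ (z - x) (V.P z (bv b))) x :=
    hd1.inner ℝ hd2
  rw [fderiv_const_mul hd3]
  show (1 / 2 : ℝ) * (fderiv ℝ (fun z : En M => inner ℝ (z - x) (V.P z (bv b))) x)
    (V.P x (bv a)) = _
  rw [fderiv_inner_apply ℝ hd1 hd2]
  have e2 : fderiv ℝ (fun z : En M => z - x) x = ContinuousLinearMap.id ℝ (En M) := by
    rw [fderiv_sub_const]
    exact fderiv_id'
  rw [e2, sub_self, inner_zero_left, zero_add]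
  show (1 / 2 : ℝ) * inner ℝ (V.P x (bv a)) (V.P x (bv b)) = _
  rw [IcEul_inner hx, V.P_idem x hx]

private lemma IcEul_cP_smooth (v : En M) :
    ContDiff ℝ ∞ (fun p : En M × En M => 𝔇.cP p.1 v) := by
  unfold cP
  refine ContDiff.sum fun b _ => ?_
  have h1 : ContDiff ℝ ∞ (fun p : En M × En M => V.P p.1 v b) := by
    have h0 : ContDiff ℝ ∞ (fun x : En M => V.P x v) := V.smoothP.clm_apply contDiff_const
    have h2 : ContDiff ℝ ∞ (fun x : En M => V.P x v b) :=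
      (contDiff_piLp_apply (𝕜 := ℝ) (p := 2)).comp h0
    exact h2.comp contDiff_fst
  have h3 : (fun p : En M × En M => ((V.P p.1 v b : ℝ) : ℂ) • 𝔇.c b) =
      fun p : En M × En M => (V.P p.1 v b) • 𝔇.c b := by
    funext p
    rw [Complex.coe_smul]
  rw [h3]
  exact h1.smul contDiff_const

theorem tdx_Cg (hV : V.Good l) (a : Fin M) :
    Van V.carrier 1 (fun p => tdx V a 𝔇.Cg p - (1 / 2 : ℂ) • (𝔇.cP p.1 (bv a) * 𝔇.Q p.1)) := by
  apply Van.of_diag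
  · have h1 : Van V.carrier 0 (tdx V a 𝔇.Cg) := contDiff_tdx 𝔇.contDiff_Cg a
    have h2 : Van V.carrier 0 (fun p : En M × En M => 𝔇.cP p.1 (bv a)) :=
      𝔇.IcEul_cP_smooth (bv a)
    have h3 : Van V.carrier 0 (fun p : En M × En M => 𝔇.Q p.1) :=
      𝔇.smoothQ.comp contDiff_fst
    exact (h1.sub ((h2.mul h3).csmul (1 / 2 : ℂ))).contDiff
  · intro x hx
    have hd : ∀ b, DifferentiableAt ℝ (fun p => tdx V b phiK p • (𝔇.c b * 𝔇.Q p.1)) (x, x) := by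
      intro b
      exact (((contDiff_tdx contDiff_phiK b).smul (𝔇.IcEul_cQ b)).differentiable (by simp)) _
    have h1 : tdx V a 𝔇.Cg (x, x) =
        ∑ b, tdx V a (fun p => tdx V b phiK p • (𝔇.c b * 𝔇.Q p.1)) (x, x) := by
      rw [IcEul_Cg_eq]
      unfold tdx
      have := fderiv_fun_sum (𝕜 := ℝ) (u := Finset.univ) (x := ((x, x) : En M × En M))
        (A := fun b p => tdx V b phiK p • (𝔇.c b * 𝔇.Q p.1)) (fun b _ => hd b)
      unfold tdx at this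
      rw [this]
      exact ContinuousLinearMap.sum_apply _ _ _
    rw [h1, sub_eq_zero]
    unfold cP
    rw [Finset.sum_mul, Finset.smul_sum]
    refine Finset.sum_congr rfl fun b _ => ?_
    rw [tdx_smul (contDiff_tdx contDiff_phiK b) (𝔇.IcEul_cQ b), IcEul_diag a b hx]
    have h0 : tdx V b phiK (x, x) = 0 := by
      rw [tdx_phi]
      simp
    rw [h0, zero_smul, add_zero, smul_mul_assoc, smul_smul, ← Complex.coe_smul]
    push_cast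
    rfl

private lemma IcEul_mul {k k' : KF M H} (hk : ContDiff ℝ ∞ k) (hk' : ContDiff ℝ ∞ k')
    (a : Fin M) (p : En M × En M) :
    tdx V a (fun p => k p * k' p) p = tdx V a k p * k' p + k p * tdx V a k' p := by
  unfold tdx
  rw [fderiv_fun_mul' ((hk.differentiable (by simp)) p) ((hk'.differentiable (by simp)) p),
    add_comm]
  rfl

private lemma IcEul_QB {x : En M} (hx : x ∈ V.carrier) : 𝔇.Q x * 𝔇.B x = 𝔇.B x := by
  have h := 𝔇.B_Q x hx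
  calc 𝔇.Q x * 𝔇.B x = 𝔇.Q x * (𝔇.Q x * 𝔇.B x * 𝔇.Q x) := by rw [h]
    _ = (𝔇.Q x * 𝔇.Q x) * 𝔇.B x * 𝔇.Q x := by simp only [mul_assoc]
    _ = 𝔇.B x := by rw [𝔇.Q_idem x hx, h]

theorem eulerD (hV : V.Good l) {q : ℕ} (hk : Van V.carrier q k) (hQ : 𝔇.QL k) :
    Van V.carrier (q + 1) (fun p => 𝔇.opK (fun p => 𝔇.Cg p * k p) p + 𝔇.Cg p * 𝔇.opK k p +
      ((q + l : ℕ) : ℂ) • k p) := by
  have hks : ContDiff ℝ ∞ k := hk.contDiff
  have hCgs : ContDiff ℝ ∞ 𝔇.Cg := 𝔇.contDiff_Cg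
  obtain ⟨E, hE⟩ : ∃ E : Fin M → KF M H, E = fun a p =>
      tdx V a 𝔇.Cg p - (1 / 2 : ℂ) • (𝔇.cP p.1 (bv a) * 𝔇.Q p.1) := ⟨_, rfl⟩
  obtain ⟨G, hG⟩ : ∃ G : KF M H, G = fun p =>
      (∑ a, (inner ℝ (p.1 - p.2) (V.P p.1 (bv a)) : ℝ) • tdx V a k p) - (q : ℝ) • k p := ⟨_, rfl⟩
  have hEv : ∀ a, Van V.carrier 1 (E a) := by
    intro a
    rw [hE]
    exact 𝔇.tdx_Cg hV a
  have hGv : Van V.carrier (q + 1) G := by
    rw [hG]
    exact euler hV hk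
  have hQ0 : Van V.carrier 0 (fun p : En M × En M => 𝔇.Q p.1) := 𝔇.smoothQ.comp contDiff_fst
  have hB0 : Van V.carrier 0 (fun p : En M × En M => 𝔇.B p.1) := 𝔇.smoothB.comp contDiff_fst
  have hc0 : ∀ a, Van V.carrier 0 (fun _ : En M × En M => 𝔇.c a) := fun a => contDiff_const
  -- the remainder
  have hW : Van V.carrier (q + 1) (fun p =>
      ∑ a, 𝔇.c a * (𝔇.Q p.1 * (E a p * k p)) - 𝔇.Q p.1 * G p + 𝔇.Cg p * (𝔇.B p.1 * k p) +
        𝔇.B p.1 * (𝔇.Cg p * k p)) := by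
    have e1 : Van V.carrier (q + 1) (fun p => ∑ a, 𝔇.c a * (𝔇.Q p.1 * (E a p * k p))) := by
      refine Van.sum _ fun a _ => ?_
      exact ((hc0 a).mul (hQ0.mul ((hEv a).mul hk))).mono (by omega)
    have e2 : Van V.carrier (q + 1) (fun p => 𝔇.Q p.1 * G p) := (hQ0.mul hGv).mono (by omega)
    have e3 : Van V.carrier (q + 1) (fun p => 𝔇.Cg p * (𝔇.B p.1 * k p)) :=
      (𝔇.van_Cg.mul (hB0.mul hk)).mono (by omega)
    have e4 : Van V.carrier (q + 1) (fun p => 𝔇.B p.1 * (𝔇.Cg p * k p)) :=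
      (hB0.mul (𝔇.van_Cg.mul hk)).mono (by omega)
    exact ((e1.sub e2).add e3).add e4
  have hCk : ContDiff ℝ ∞ (fun p => 𝔇.Cg p * k p) := (𝔇.van_Cg.mul hk).contDiff
  refine hW.congr ?_ ?_
  · have e1 : Van V.carrier 0 (𝔇.opK (fun p => 𝔇.Cg p * k p)) := 𝔇.contDiff_opK hCk
    have e2 : Van V.carrier 0 (𝔇.opK k) := 𝔇.contDiff_opK hks
    have e3 : Van V.carrier 0 (fun p => 𝔇.Cg p * 𝔇.opK k p) :=
      (𝔇.van_Cg.mul e2).mono (Nat.zero_le _)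
    exact ((e1.add e3).add ((hk.mono (Nat.zero_le q)).csmul ((q + l : ℕ) : ℂ))).contDiff
  · intro x hx y hy
    have hQk : 𝔇.Q x * k (x, y) = k (x, y) := hQ x hx y hy
    obtain ⟨X, hX⟩ : ∃ X, X = x - y := ⟨_, rfl⟩
    obtain ⟨T, hT⟩ : ∃ T : Fin M → (H →L[ℂ] H), T = fun a => tdx V a k (x, y) := ⟨_, rfl⟩
    obtain ⟨K, hK⟩ : ∃ K, K = k (x, y) := ⟨_, rfl⟩
    obtain ⟨Qx, hQx⟩ : ∃ Qx, Qx = 𝔇.Q x := ⟨_, rfl⟩
    obtain ⟨Bx, hBx⟩ : ∃ Bx, Bx = 𝔇.B x := ⟨_, rfl⟩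
    obtain ⟨Y, hY⟩ : ∃ Y, Y = 𝔇.cP x X := ⟨_, rfl⟩
    have hQQ : Qx * Qx = Qx := by rw [hQx]; exact 𝔇.Q_idem x hx
    have hQB : Qx * Bx = Bx := by rw [hQx, hBx]; exact 𝔇.IcEul_QB hx
    have hQYQ : Qx * Y * Qx = Y * Qx := by rw [hQx, hY]; exact 𝔇.Q_cP hx X
    have hCg : 𝔇.Cg (x, y) = (1 / 2 : ℂ) • (Y * Qx) := by
      rw [𝔇.Cg_eq hx y, hY, hX, hQx]
    have hQK : Qx * K = K := by rw [hQx, hK]; exact hQk
    have hopk : 𝔇.opK k (x, y) = ∑ a, 𝔇.c a * (Qx * T a) + Bx * K := by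
      rw [hQx, hT, hBx, hK]; rfl
    have hQopk : Qx * 𝔇.opK k (x, y) = 𝔇.opK k (x, y) := by
      rw [hQx]; exact 𝔇.QL_opK hks x hx y hy
    have hopCk : 𝔇.opK (fun p => 𝔇.Cg p * k p) (x, y) =
        ∑ a, 𝔇.c a * (Qx * ((E a (x, y) + (1 / 2 : ℂ) • (𝔇.cP x (bv a) * Qx)) * K +
          𝔇.Cg (x, y) * T a)) + Bx * (𝔇.Cg (x, y) * K) := by
      have e : 𝔇.opK (fun p => 𝔇.Cg p * k p) (x, y) =
          ∑ a, 𝔇.c a * (𝔇.Q x * tdx V a (fun p => 𝔇.Cg p * k p) (x, y)) +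
            𝔇.B x * (𝔇.Cg (x, y) * k (x, y)) := rfl
      rw [e, ← hQx, ← hBx, ← hK]
      congr 1
      refine Finset.sum_congr rfl fun a _ => ?_
      rw [IcEul_mul hCgs hks, ← hK]
      have e5 : tdx V a 𝔇.Cg (x, y) = E a (x, y) + (1 / 2 : ℂ) • (𝔇.cP x (bv a) * Qx) := by
        rw [hE, hQx]
        simp
      rw [e5, hT]
    -- (A)
    have hA : ∑ a, 𝔇.c a * (Qx * (((1 / 2 : ℂ) • (𝔇.cP x (bv a) * Qx)) * K)) =
        (-(l : ℂ)) • K := by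
      have e1 : ∀ a, 𝔇.c a * (Qx * (((1 / 2 : ℂ) • (𝔇.cP x (bv a) * Qx)) * K)) =
          (1 / 2 : ℂ) • ((𝔇.c a * 𝔇.cP x (bv a)) * K) := by
        intro a
        have e2 : Qx * 𝔇.cP x (bv a) * Qx = 𝔇.cP x (bv a) * Qx := by
          rw [hQx]; exact 𝔇.Q_cP hx (bv a)
        calc 𝔇.c a * (Qx * (((1 / 2 : ℂ) • (𝔇.cP x (bv a) * Qx)) * K))
            = (1 / 2 : ℂ) • (𝔇.c a * ((Qx * 𝔇.cP x (bv a) * Qx) * K)) := by
              rw [smul_mul_assoc, mul_smul_comm, mul_smul_comm]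
              simp only [mul_assoc]
          _ = (1 / 2 : ℂ) • (𝔇.c a * (𝔇.cP x (bv a) * (Qx * K))) := by
              rw [e2, mul_assoc]
          _ = _ := by rw [hQK, mul_assoc]
      rw [Finset.sum_congr rfl fun a _ => e1 a, ← Finset.smul_sum, ← Finset.sum_mul,
        𝔇.sum_c_cP hV hx, smul_mul_assoc, one_mul, smul_smul]
      congr 1
      rw [hV.dim]
      push_cast
      ring
    -- (B)
    have hG' : ∑ a, ((V.P x X a : ℝ) : ℂ) • T a = G (x, y) + (q : ℂ) • K := by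
      rw [hG, hT, hK]
      have e1 : (∑ a, (inner ℝ (x - y) (V.P x (bv a)) : ℝ) • tdx V a k (x, y)) =
          ∑ a, ((V.P x X a : ℝ) : ℂ) • tdx V a k (x, y) := by
        refine Finset.sum_congr rfl fun a _ => ?_
        rw [IcEul_inner hx, ← hX, Complex.coe_smul]
      have e2 : ((q : ℝ)) • k (x, y) = (q : ℂ) • k (x, y) := by
        rw [← Complex.coe_smul]
        push_cast
        rfl
      show _ = (∑ a, (inner ℝ (x - y) (V.P x (bv a)) : ℝ) • tdx V a k (x, y)) -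
        (q : ℝ) • k (x, y) + (q : ℂ) • k (x, y)
      rw [e1, e2, sub_add_cancel]
    have hB : ∑ a, 𝔇.c a * (Qx * (𝔇.Cg (x, y) * T a)) + 𝔇.Cg (x, y) * 𝔇.opK k (x, y) =
        -(Qx * G (x, y)) - (q : ℂ) • K + 𝔇.Cg (x, y) * (Bx * K) := by
      have e1 : 𝔇.Cg (x, y) * 𝔇.opK k (x, y) =
          ∑ a, (1 / 2 : ℂ) • (Y * (𝔇.c a * (Qx * T a))) + 𝔇.Cg (x, y) * (Bx * K) := by
        have e2 : 𝔇.Cg (x, y) * 𝔇.opK k (x, y) = (1 / 2 : ℂ) • (Y * 𝔇.opK k (x, y)) := by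
          rw [hCg, smul_mul_assoc, mul_assoc, hQopk]
        have e3 : 𝔇.Cg (x, y) * (Bx * K) = (1 / 2 : ℂ) • (Y * (Bx * K)) := by
          rw [hCg, smul_mul_assoc, mul_assoc, ← mul_assoc Qx, hQB]
        rw [e2, e3, hopk, mul_add, smul_add, Finset.mul_sum, Finset.smul_sum]
      have e4 : ∀ a, 𝔇.c a * (Qx * (𝔇.Cg (x, y) * T a)) =
          (1 / 2 : ℂ) • (𝔇.c a * (Y * (Qx * T a))) := by
        intro a
        rw [hCg, smul_mul_assoc, mul_smul_comm, mul_smul_comm, ← mul_assoc Qx, ← mul_assoc Qx,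
          hQYQ, mul_assoc Y]
      rw [e1, Finset.sum_congr rfl fun a _ => e4 a, ← add_assoc, ← Finset.sum_add_distrib]
      have e5 : ∀ a, (1 / 2 : ℂ) • (𝔇.c a * (Y * (Qx * T a))) +
          (1 / 2 : ℂ) • (Y * (𝔇.c a * (Qx * T a))) = -(Qx * (((V.P x X a : ℝ) : ℂ) • T a)) := by
        intro a
        have e6 := 𝔇.IcEul_anti a x X
        rw [← hY] at e6
        have e10 : 𝔇.c a * (Y * (Qx * T a)) + Y * (𝔇.c a * (Qx * T a)) =
            (𝔇.c a * Y + Y * 𝔇.c a) * (Qx * T a) := by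
          rw [add_mul, mul_assoc, mul_assoc]
        rw [← smul_add, e10, e6, smul_mul_assoc, one_mul, smul_smul, mul_smul_comm, ← neg_smul]
        congr 1
        push_cast
        ring
      rw [Finset.sum_congr rfl fun a _ => e5 a, Finset.sum_neg_distrib, ← Finset.mul_sum, hG',
        mul_add, mul_smul_comm, hQK]
      abel
    show ∑ a, 𝔇.c a * (𝔇.Q x * (E a (x, y) * k (x, y))) - 𝔇.Q x * G (x, y) +
        𝔇.Cg (x, y) * (𝔇.B x * k (x, y)) + 𝔇.B x * (𝔇.Cg (x, y) * k (x, y)) =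
      𝔇.opK (fun p => 𝔇.Cg p * k p) (x, y) + 𝔇.Cg (x, y) * 𝔇.opK k (x, y) +
        ((q + l : ℕ) : ℂ) • k (x, y)
    rw [← hQx, ← hBx, ← hK, hopCk]
    have e7 : ∑ a, 𝔇.c a * (Qx * ((E a (x, y) + (1 / 2 : ℂ) • (𝔇.cP x (bv a) * Qx)) * K +
          𝔇.Cg (x, y) * T a)) =
        ∑ a, 𝔇.c a * (Qx * (E a (x, y) * K)) + (-(l : ℂ)) • K +
          ∑ a, 𝔇.c a * (Qx * (𝔇.Cg (x, y) * T a)) := by
      rw [← hA, ← Finset.sum_add_distrib, ← Finset.sum_add_distrib]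
      refine Finset.sum_congr rfl fun a _ => ?_
      rw [add_mul, mul_add, mul_add, mul_add, mul_add]
    rw [e7]
    have e8 : ∑ a, 𝔇.c a * (Qx * (E a (x, y) * K)) + (-(l : ℂ)) • K +
          ∑ a, 𝔇.c a * (Qx * (𝔇.Cg (x, y) * T a)) + Bx * (𝔇.Cg (x, y) * K) +
          𝔇.Cg (x, y) * 𝔇.opK k (x, y) + ((q + l : ℕ) : ℂ) • K =
        ∑ a, 𝔇.c a * (Qx * (E a (x, y) * K)) + Bx * (𝔇.Cg (x, y) * K) +
          (∑ a, 𝔇.c a * (Qx * (𝔇.Cg (x, y) * T a)) + 𝔇.Cg (x, y) * 𝔇.opK k (x, y)) +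
          ((-(l : ℂ)) • K + ((q + l : ℕ) : ℂ) • K) := by abel
    rw [e8, hB, ← add_smul]
    have e9 : (-(l : ℂ)) + ((q + l : ℕ) : ℂ) = (q : ℂ) := by
      push_cast
      ring
    rw [e9]
    abel

end Dirac

end Pool.Agent.EXO
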