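import Pool.Agent.EXO.IcSec
import Pool.Agent.EXO.IbGe

/-!
Project EXO, chunk IDX-A, module IcKer: the operator `D` on kernels, first variable.

PROOFS.  `opK k p = ∑ a, c_a (Q(x) (tdx a k p)) + B(x) k p`, `p = (x, y)`.
* `contDiff_opK`: `contDiff_tdx`.
* `opK_apply`: `tdx_slice` and evaluation at `h` (a continuous linear map) commutes with `fderiv`.
* `opK_congr`: `tdx_congr`.
* linearity: `tdx_add`, complex scalars.
* `opK_mul_right`: `m` depends on the second variable only: `tdx a (k * (m ∘ snd)) =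
  tdx a k * (m ∘ snd)` (product rule, the derivative of `p ↦ m p.2` in the direction `(v, 0)` is
  `0`).
* `opK_smul`: `tdx_smul` for `f` real.
* `QL_opK`: `Q (opK k) = opK k` on `V × V`: `opK_apply` and `Q_op`.  `QR_opK`: if `k Q(y) = k` on
  `V × V` then by `opK_congr`, `opK_mul_right`: `opK k = opK (k * Q∘snd) = opK k * Q∘snd` on `V × V`.
* `van_opK`: `Van.tdx` and multiplication by smooth operator valued functions
  (`Van.clm`/`Van.mul` with `Van 0`).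
* `Cg`: `Cg p = ∑ a, (tdx a φ p) c_a Q(x)`, so `contDiff_Cg`, `van_Cg` (`van_tdx_phi`), and on `V × V`
  `Cg = (1/2) cP x (x - y) Q x` (`sum_inner_P`-like: `⟪v, P e_a⟫ = (P v) a`).
* `Cg_sq`: on `V × V`: `Cg * Cg = -(‖P x (x-y)‖²/4) Q x`: with `v = P(x-y)`, `cP = ∑ v_a c_a`,
  `cP * cP = -‖v‖²` from `c_anti` (symmetrize the double sum), `Q cP Q = cP Q`.
* `opK_phi`: `opK (φ • k) = φ • opK k + Cg * k` (real `f = φ` in `opK_smul`; also for
  `f = exp(-φ/t)`).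
-/

set_option autoImplicit false
set_option maxSynthPendingDepth 3

open MeasureTheory
open scoped ContDiff

namespace Pool.Agent.EXO

namespace Dirac

variable {n M l : ℕ} {V : Geo n M} {H : Type} [NormedAddCommGroup H]
  [InnerProductSpace ℂ H] [FiniteDimensional ℂ H] (𝔇 : Dirac V H) {k k' : KF M H}

omit [FiniteDimensional ℂ H] in
private theorem IcKer_smul_real (r : ℝ) (w : H →L[ℂ] H) : r • w = (r : ℂ) • w := by
  exact (Complex.coe_smul r w).symm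

private theorem IcKer_td_apply {u : En M → (H →L[ℂ] H)} (hu : ContDiff ℝ ∞ u) (h : H) (x v : En M) :
    fderiv ℝ (fun z => u z h) x v = (fderiv ℝ u x v) h := by
  have du : DifferentiableAt ℝ u x := (hu.differentiable (by simp)) x
  have h1 := ((ContinuousLinearMap.apply ℂ H h).restrictScalars ℝ).hasFDerivAt.comp x
    du.hasFDerivAt
  have h2 : HasFDerivAt (fun z => u z h) _ x := h1
  rw [h2.fderiv]
  rfl

private theorem IcKer_slice {k : KF M H} (hk : ContDiff ℝ ∞ k) (y : En M) :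
    ContDiff ℝ ∞ (fun z => k (z, y)) := by
  exact hk.comp (contDiff_id.prodMk contDiff_const)

private theorem IcKer_fst {f : En M → (H →L[ℂ] H)} (hf : ContDiff ℝ ∞ f) :
    ContDiff ℝ ∞ (fun p : En M × En M => f p.1) := hf.comp contDiff_fst

private theorem IcKer_mulF {f g : KF M H} (hf : ContDiff ℝ ∞ f) (hg : ContDiff ℝ ∞ g) :
    ContDiff ℝ ∞ (fun p => f p * g p) :=
  ((ContinuousLinearMap.mul ℝ (H →L[ℂ] H)).contDiff.comp hf).clm_apply hg

private theorem IcKer_csmul {f : En M × En M → ℝ} {g : KF M H} (hf : ContDiff ℝ ∞ f)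
    (hg : ContDiff ℝ ∞ g) : ContDiff ℝ ∞ (fun p => ((f p : ℝ) : ℂ) • g p) := by
  have e : (fun p => ((f p : ℝ) : ℂ) • g p) = fun p => f p • g p := by
    funext p
    exact (IcKer_smul_real _ _).symm
  rw [e]
  exact hf.smul hg

theorem contDiff_opK (hk : ContDiff ℝ ∞ k) : ContDiff ℝ ∞ (𝔇.opK k) := by
  unfold opK
  refine ContDiff.add ?_ (IcKer_mulF (IcKer_fst 𝔇.smoothB) hk)
  refine ContDiff.sum fun a _ => ?_
  exact IcKer_mulF contDiff_const (IcKer_mulF (IcKer_fst 𝔇.smoothQ) (contDiff_tdx hk a))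

theorem opK_apply (hk : ContDiff ℝ ∞ k) (x y : En M) (h : H) :
    𝔇.opK k (x, y) h = 𝔇.op (fun z => k (z, y) h) x := by
  have h1 : ∀ a : Fin M, (tdx V a k (x, y)) h =
      fderiv ℝ (fun z => k (z, y) h) x (V.P x (bv a)) := by
    intro a
    rw [tdx_slice hk a x y, td, IcKer_td_apply (IcKer_slice hk y) h x]
  simp only [opK, op, ContinuousLinearMap.add_apply, ContinuousLinearMap.sum_apply,
    ContinuousLinearMap.mul_apply, h1]

theorem opK_congr (hloc : V.Loc) (hk : ContDiff ℝ ∞ k) (hk' : ContDiff ℝ ∞ k')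
    (h : ∀ x ∈ V.carrier, ∀ y ∈ V.carrier, k (x, y) = k' (x, y)) :
    ∀ x ∈ V.carrier, ∀ y ∈ V.carrier, 𝔇.opK k (x, y) = 𝔇.opK k' (x, y) := by
  intro x hx y hy
  have h1 : ∀ a : Fin M, tdx V a k (x, y) = tdx V a k' (x, y) := fun a =>
    tdx_congr hloc hk hk' h a hx hy
  simp only [opK, h1, h x hx y hy]

theorem opK_add (hk : ContDiff ℝ ∞ k) (hk' : ContDiff ℝ ∞ k') :
    𝔇.opK (fun p => k p + k' p) = fun p => 𝔇.opK k p + 𝔇.opK k' p := by
  funext p
  simp only [opK, tdx_add hk hk', mul_add, Finset.sum_add_distrib]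
  abel

private theorem IcKer_tdx_csmul (c : ℂ) (hk : ContDiff ℝ ∞ k) (a : Fin M) (p : En M × En M) :
    tdx V a (fun p => c • k p) p = c • tdx V a k p := by
  have dk : DifferentiableAt ℝ k p := (hk.differentiable (by simp)) p
  have h1 : fderiv ℝ (fun p => c • k p) p = c • fderiv ℝ k p := fderiv_fun_const_smul dk c
  simp only [tdx, h1, ContinuousLinearMap.smul_apply]

theorem opK_csmul (c : ℂ) (hk : ContDiff ℝ ∞ k) :
    𝔇.opK (fun p => c • k p) = fun p => c • 𝔇.opK k p := by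
  funext p
  simp only [opK, IcKer_tdx_csmul c hk, mul_smul_comm, smul_add, Finset.smul_sum]

theorem opK_sub (hk : ContDiff ℝ ∞ k) (hk' : ContDiff ℝ ∞ k') :
    𝔇.opK (fun p => k p - k' p) = fun p => 𝔇.opK k p - 𝔇.opK k' p := by
  have h1 := 𝔇.opK_add hk (k' := fun p => (-1 : ℂ) • k' p) (hk'.const_smul (-1 : ℂ))
  rw [𝔇.opK_csmul (-1) hk'] at h1
  simpa only [neg_smul, one_smul, ← sub_eq_add_neg] using h1

theorem opK_zero : 𝔇.opK (fun _ => 0) = fun _ => 0 := by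
  have h1 := 𝔇.opK_csmul (k := fun _ => 0) 0 contDiff_const
  simpa only [zero_smul] using h1

theorem opK_sum {ι : Type} (s : Finset ι) {k : ι → KF M H}
    (hk : ∀ i ∈ s, ContDiff ℝ ∞ (k i)) :
    𝔇.opK (fun p => ∑ i ∈ s, k i p) = fun p => ∑ i ∈ s, 𝔇.opK (k i) p := by
  classical
  induction s using Finset.induction_on with
  | empty => simpa using 𝔇.opK_zero
  | insert i s hi ih =>
    have h1 := 𝔇.opK_add (hk i (Finset.mem_insert_self i s))
      (k' := fun p => ∑ i ∈ s, k i p)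
      (ContDiff.sum fun j hj => hk j (Finset.mem_insert_of_mem hj))
    rw [ih fun j hj => hk j (Finset.mem_insert_of_mem hj)] at h1
    simpa only [Finset.sum_insert hi] using h1

private theorem IcKer_tdx_mul {f g : KF M H} (hf : ContDiff ℝ ∞ f) (hg : ContDiff ℝ ∞ g)
    (a : Fin M) (p : En M × En M) :
    tdx V a (fun p => f p * g p) p = tdx V a f p * g p + f p * tdx V a g p := by
  have h1 := tdx_clm (V := V) (L := fun p => ContinuousLinearMap.mul ℝ (H →L[ℂ] H) (f p))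
    ((ContinuousLinearMap.mul ℝ (H →L[ℂ] H)).contDiff.comp hf) hg a p
  have df : DifferentiableAt ℝ f p := (hf.differentiable (by simp)) p
  have h2 : tdx V a (fun p => ContinuousLinearMap.mul ℝ (H →L[ℂ] H) (f p)) p =
      ContinuousLinearMap.mul ℝ (H →L[ℂ] H) (tdx V a f p) := by
    have h3 := (ContinuousLinearMap.mul ℝ (H →L[ℂ] H)).hasFDerivAt.comp p df.hasFDerivAt
    have h4 : HasFDerivAt (fun p => ContinuousLinearMap.mul ℝ (H →L[ℂ] H) (f p)) _ p := h3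
    simp only [tdx, h4.fderiv]
    rfl
  rw [h2] at h1
  exact h1

theorem opK_mul_right (hk : ContDiff ℝ ∞ k) {m : En M → (H →L[ℂ] H)} (hm : ContDiff ℝ ∞ m) :
    𝔇.opK (fun p => k p * m p.2) = fun p => 𝔇.opK k p * m p.2 := by
  funext p
  have hm2 : ContDiff ℝ ∞ (fun p : En M × En M => m p.2) := hm.comp contDiff_snd
  have h0 : ∀ a : Fin M, tdx V a (fun p : En M × En M => m p.2) p = 0 := by
    intro a
    have dm : DifferentiableAt ℝ m p.2 := (hm.differentiable (by simp)) p.2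
    have h3 := dm.hasFDerivAt.comp p (hasFDerivAt_snd (𝕜 := ℝ) (p := p))
    have h4 : HasFDerivAt (fun p : En M × En M => m p.2) _ p := h3
    simp only [tdx, h4.fderiv]
    simp
  have h1 : ∀ a : Fin M, tdx V a (fun p => k p * m p.2) p = tdx V a k p * m p.2 := by
    intro a
    rw [IcKer_tdx_mul hk hm2 a p, h0 a, mul_zero, add_zero]
  simp only [opK, h1, add_mul, Finset.sum_mul, mul_assoc]

theorem opK_smul {f : En M × En M → ℝ} (hf : ContDiff ℝ ∞ f) (hk : ContDiff ℝ ∞ k)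
    (p : En M × En M) :
    𝔇.opK (fun p => ((f p : ℝ) : ℂ) • k p) p = ((f p : ℝ) : ℂ) • 𝔇.opK k p +
      ∑ a, ((tdx V a f p : ℝ) : ℂ) • (𝔇.c a * (𝔇.Q p.1 * k p)) := by
  have e : (fun p => ((f p : ℝ) : ℂ) • k p) = fun p => f p • k p := by
    funext p
    exact (IcKer_smul_real _ _).symm
  have h1 : ∀ a : Fin M, tdx V a (fun p => ((f p : ℝ) : ℂ) • k p) p =
      ((tdx V a f p : ℝ) : ℂ) • k p + ((f p : ℝ) : ℂ) • tdx V a k p := by
    intro a
    rw [e, tdx_smul hf hk a p, IcKer_smul_real, IcKer_smul_real]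
  simp only [opK, h1, mul_add, mul_smul_comm, smul_add, Finset.smul_sum, Finset.sum_add_distrib]
  abel

theorem QL_opK (hk : ContDiff ℝ ∞ k) : 𝔇.QL (𝔇.opK k) := by
  intro x hx y _
  ext h
  show 𝔇.Q x (𝔇.opK k (x, y) h) = 𝔇.opK k (x, y) h
  rw [𝔇.opK_apply hk x y h]
  exact 𝔇.Q_op _ hx

theorem QR_opK (hloc : V.Loc) (hk : ContDiff ℝ ∞ k) (h : 𝔇.QR k) : 𝔇.QR (𝔇.opK k) := by
  intro x hx y hy
  have hQ2 : ContDiff ℝ ∞ (fun p : En M × En M => 𝔇.Q p.2) := 𝔇.smoothQ.comp contDiff_snd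
  have h1 := 𝔇.opK_congr hloc hk (k' := fun p => k p * 𝔇.Q p.2) (IcKer_mulF hk hQ2)
    (fun x hx y hy => (h x hx y hy).symm) x hx y hy
  rw [𝔇.opK_mul_right hk 𝔇.smoothQ] at h1
  exact h1.symm

theorem van_opK (hloc : V.Loc) {q : ℕ} (h : Van V.carrier (q + 1) k) :
    Van V.carrier q (𝔇.opK k) := by
  have hm : ∀ {f g : KF M H}, ContDiff ℝ ∞ f → Van V.carrier q g →
      Van V.carrier q (fun p => f p * g p) := by
    intro f g hf hg
    have h1 := Van.mul (V := V.carrier) (r := 0) (a := f) hf hg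
    rwa [Nat.zero_add] at h1
  have h2 : Van V.carrier q (fun p => ∑ a, 𝔇.c a * (𝔇.Q p.1 * tdx V a k p)) :=
    Van.sum _ fun a _ => hm contDiff_const (hm (IcKer_fst 𝔇.smoothQ) (Van.tdx hloc h a))
  exact h2.add (hm (IcKer_fst 𝔇.smoothB) h.pred)

private theorem IcKer_Cg (p : En M × En M) :
    𝔇.Cg p = ∑ a, ((tdx V a phiK p : ℝ) : ℂ) • (𝔇.c a * 𝔇.Q p.1) := by
  simp only [Cg, tdx_phi]

theorem contDiff_Cg : ContDiff ℝ ∞ 𝔇.Cg := by
  have e : 𝔇.Cg = fun p => ∑ a, ((tdx V a phiK p : ℝ) : ℂ) • (𝔇.c a * 𝔇.Q p.1) := by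
    funext p
    exact 𝔇.IcKer_Cg p
  rw [e]
  refine ContDiff.sum fun a _ => ?_
  exact IcKer_csmul (contDiff_tdx contDiff_phiK a)
    (IcKer_mulF contDiff_const (IcKer_fst 𝔇.smoothQ))

theorem van_Cg : Van V.carrier 1 𝔇.Cg := by
  have e : 𝔇.Cg = fun p => ∑ a, ((tdx V a phiK p : ℝ) : ℂ) • (𝔇.c a * 𝔇.Q p.1) := by
    funext p
    exact 𝔇.IcKer_Cg p
  rw [e]
  refine Van.sum _ fun a _ => ?_
  have h1 : Van V.carrier 0 (fun p : En M × En M => 𝔇.c a * 𝔇.Q p.1) :=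
    IcKer_mulF contDiff_const (IcKer_fst 𝔇.smoothQ)
  exact Van.rsmul_mul (van_tdx_phi (V := V) a) h1

private theorem IcKer_inner_P {x : En M} (hx : x ∈ V.carrier) (v : En M) (a : Fin M) :
    inner ℝ v (V.P x (bv a)) = V.P x v a := by
  rw [← V.P_sa x hx v (bv a)]
  simp [bv, EuclideanSpace.inner_single_right]

theorem Cg_eq {x : En M} (hx : x ∈ V.carrier) (y : En M) :
    𝔇.Cg (x, y) = (1 / 2 : ℂ) • (𝔇.cP x (x - y) * 𝔇.Q x) := by
  have h1 : ∀ a : Fin M, inner ℝ (x - y) (V.P x (bv a)) = V.P x (x - y) a := fun a =>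
    IcKer_inner_P hx (x - y) a
  simp only [Cg, cP, h1, Finset.sum_mul, Finset.smul_sum]
  refine Finset.sum_congr rfl fun a _ => ?_
  rw [smul_mul_assoc, smul_smul]
  congr 1
  push_cast
  ring

theorem cP_sq {x : En M} (hx : x ∈ V.carrier) (v : En M) :
    𝔇.cP x v * 𝔇.cP x v = ((-(‖V.P x v‖ ^ 2) : ℝ) : ℂ) • 1 := by
  have _ := hx
  set w := V.P x v with hw
  have e1 : 𝔇.cP x v * 𝔇.cP x v = ∑ a, ∑ b, (((w a * w b : ℝ)) : ℂ) • (𝔇.c a * 𝔇.c b) := by
    simp only [cP, ← hw, Finset.sum_mul, Finset.mul_sum]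
    rw [Finset.sum_comm]
    refine Finset.sum_congr rfl fun a _ => Finset.sum_congr rfl fun b _ => ?_
    rw [smul_mul_assoc, mul_smul_comm, smul_smul]
    push_cast
    rfl
  have e2 : 𝔇.cP x v * 𝔇.cP x v = ∑ a, ∑ b, (((w a * w b : ℝ)) : ℂ) • (𝔇.c b * 𝔇.c a) := by
    rw [e1, Finset.sum_comm]
    refine Finset.sum_congr rfl fun a _ => Finset.sum_congr rfl fun b _ => ?_
    rw [mul_comm (w a) (w b)]
  have e3 : (2 : ℂ) • (𝔇.cP x v * 𝔇.cP x v) = ((-2 : ℂ) * ((‖w‖ ^ 2 : ℝ) : ℂ)) • 1 := by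
    have e4 : (2 : ℂ) • (𝔇.cP x v * 𝔇.cP x v) =
        ∑ a, ∑ b, (((w a * w b : ℝ)) : ℂ) • (𝔇.c a * 𝔇.c b + 𝔇.c b * 𝔇.c a) := by
      rw [two_smul]
      nth_rewrite 1 [e1]
      rw [e2, ← Finset.sum_add_distrib]
      refine Finset.sum_congr rfl fun a _ => ?_
      rw [← Finset.sum_add_distrib]
      refine Finset.sum_congr rfl fun b _ => ?_
      rw [smul_add]
    rw [e4]
    have e5 : ∀ a : Fin M, ∑ b, (((w a * w b : ℝ)) : ℂ) • (𝔇.c a * 𝔇.c b + 𝔇.c b * 𝔇.c a) =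
        ((-2 : ℂ) * ((w a ^ 2 : ℝ) : ℂ)) • 1 := by
      intro a
      rw [Finset.sum_eq_single a]
      · rw [𝔇.c_anti a a, if_pos rfl, smul_smul]
        congr 1
        push_cast
        ring
      · intro b _ hb
        rw [𝔇.c_anti a b, if_neg (Ne.symm hb), smul_zero]
      · intro h
        exact absurd (Finset.mem_univ a) h
    simp only [e5]
    rw [← Finset.sum_smul, ← Finset.mul_sum, EuclideanSpace.norm_sq_eq]
    congr 2
    push_cast
    refine Finset.sum_congr rfl fun a _ => ?_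
    rw [Real.norm_eq_abs, ← Complex.ofReal_pow, ← Complex.ofReal_pow, sq_abs]
  have e6 : 𝔇.cP x v * 𝔇.cP x v = (1 / 2 : ℂ) • ((2 : ℂ) • (𝔇.cP x v * 𝔇.cP x v)) := by
    rw [smul_smul]
    norm_num
  rw [e6, e3, smul_smul]
  congr 1
  push_cast
  ring

theorem Cg_sq {x : En M} (hx : x ∈ V.carrier) (y : En M) :
    𝔇.Cg (x, y) * 𝔇.Cg (x, y) = ((-(‖V.P x (x - y)‖ ^ 2 / 4) : ℝ) : ℂ) • 𝔇.Q x := by
  rw [𝔇.Cg_eq hx y, smul_mul_smul_comm]
  have h1 : 𝔇.cP x (x - y) * 𝔇.Q x * (𝔇.cP x (x - y) * 𝔇.Q x) =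
      𝔇.cP x (x - y) * 𝔇.cP x (x - y) * 𝔇.Q x := by
    rw [mul_assoc, ← mul_assoc (𝔇.Q x), 𝔇.Q_cP hx, ← mul_assoc]
  rw [h1, 𝔇.cP_sq hx, smul_mul_assoc, one_mul, smul_smul]
  congr 1
  push_cast
  ring

theorem QL_Cg (k : KF M H) : 𝔇.QL (fun p => 𝔇.Cg p * k p) := by
  intro x hx y _
  show 𝔇.Q x * (𝔇.Cg (x, y) * k (x, y)) = 𝔇.Cg (x, y) * k (x, y)
  rw [𝔇.Cg_eq hx y, smul_mul_assoc, mul_smul_comm, ← mul_assoc (𝔇.Q x), ← mul_assoc (𝔇.Q x),
    𝔇.Q_cP hx]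

theorem opK_phi (hk : ContDiff ℝ ∞ k) (p : En M × En M) :
    𝔇.opK (fun p => ((phiK p : ℝ) : ℂ) • k p) p =
      ((phiK p : ℝ) : ℂ) • 𝔇.opK k p + 𝔇.Cg p * k p := by
  rw [𝔇.opK_smul contDiff_phiK hk p, 𝔇.IcKer_Cg p, Finset.sum_mul]
  have h1 : ∀ a : Fin M, ((tdx V a phiK p : ℝ) : ℂ) • (𝔇.c a * 𝔇.Q p.1) * k p =
      ((tdx V a phiK p : ℝ) : ℂ) • (𝔇.c a * (𝔇.Q p.1 * k p)) := by
    intro a
    rw [smul_mul_assoc, mul_assoc]
  simp only [h1]

theorem opK_exp {t : ℝ} (ht : 0 < t) (hk : ContDiff ℝ ∞ k) (p : En M × En M) :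
    𝔇.opK (fun p => ((Real.exp (-(phiK p) / t) : ℝ) : ℂ) • k p) p =
      ((Real.exp (-(phiK p) / t) : ℝ) : ℂ) • (𝔇.opK k p - ((t⁻¹ : ℝ) : ℂ) • (𝔇.Cg p * k p)) := by
  have _ := ht
  have hphi : ContDiff ℝ ∞ (phiK (M := M)) := contDiff_phiK
  have hf : ContDiff ℝ ∞ (fun p : En M × En M => Real.exp (-(phiK p) / t)) :=
    (hphi.neg.div_const t).exp
  have h1 : ∀ a : Fin M, tdx V a (fun p : En M × En M => Real.exp (-(phiK p) / t)) p =
      Real.exp (-(phiK p) / t) * (-(t⁻¹) * tdx V a phiK p) := by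
    intro a
    have dphi : DifferentiableAt ℝ (phiK (M := M)) p := (hphi.differentiable (by simp)) p
    have h3 : HasFDerivAt (fun p : En M × En M => Real.exp (-(phiK p) / t)) _ p :=
      (dphi.hasFDerivAt.neg.mul_const t⁻¹).exp
    have h4 : HasFDerivAt (fun p : En M × En M => Real.exp (-(phiK p) / t)) _ p := h3
    simp only [tdx]
    rw [h4.fderiv]
    simp only [ContinuousLinearMap.smul_apply, ContinuousLinearMap.neg_apply, smul_eq_mul]
    rw [div_eq_mul_inv]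
    have hn : (-(phiK (M := M))) p = -(phiK p) := rfl
    rw [hn]
    ring
  rw [𝔇.opK_smul hf hk p, 𝔇.IcKer_Cg p, Finset.sum_mul]
  simp only [h1, smul_sub, Finset.smul_sum]
  rw [sub_eq_add_neg, ← Finset.sum_neg_distrib]
  congr 1
  refine Finset.sum_congr rfl fun a _ => ?_
  rw [smul_mul_assoc, mul_assoc, smul_smul, smul_smul, ← neg_smul]
  congr 1
  push_cast
  ring

end Dirac

end Pool.Agent.EXO
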