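import Pool.Agent.EXO.IcKer

/-!
Project EXO, chunk IDX-A, module IcR: the right action of `D` on kernels.

`opR k = adjK (opK (adjK k))`, `adjK k (x,y) = k(y,x)*`.

PROOFS.
* `contDiff_opR`, `opR_congr`, linearity (`adjK` is additive and conjugate linear), `van_opR`:
  from `opK` and `adjK` (`contDiff_adjK`, `Van.adjK`).
* `opR_formula`: `adjK k (y,x) = k(x,y)*`; `tdx a (adjK k) (y,x) = (tdy a k (x,y))*` (the adjoint is
  real linear, chain rule for the swap).  So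
  `opR k (x,y) = (∑ c_a Q(y) (tdy a k (x,y))* + B(y) k(x,y)*)*
   = ∑ (tdy a k (x,y)) Q(y)* c_a* + k(x,y) B(y)*`.
* `QR_opR`: `Q(y) (opK (adjK k)) = opK (adjK k)` on `V` (`QL_opK`), take adjoints (`Q_sa`).
* `QL_opR`: if `Q(x) k = k` then `adjK k` is right `Q`-valued; `QR_opK`; take adjoints.
* `opK_opR`: by `opR_formula` both `opK (opR k)` and `opR (opK k)` are, on `V × V` (even on
  `ℝ^M × ℝ^M`), `∑_{a,b} c_a Q(x) (tdx a (tdy b k)) Q(y)* c_b* + ∑_a c_a Q(x) (tdx a k) B(y)*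
  + ∑_b B(x) (tdy b k) Q(y)* c_b* + B(x) k B(y)*`: the factors `Q(y)* c_b*`, `B(y)*` do not depend on
  `x` (`opK_mul_right`), the factors `c_a Q(x)`, `B(x)` not on `y`; `tdx_tdy`.
* `mul_op`: for a smooth section `v` and `x ∈ ℝ^M`:
  `∫ k(x,y) (D v)(y) dμ(y) = ∫ (opR k)(x,y) v(y) dμ(y)` if `k(x,y) Q(y) = k(x,y)` for `y ∈ V`: take
  the inner product with `h ∈ H`: `⟪h, k(x,y) w⟫ = ⟪k(x,y)* h, w⟫`; `y ↦ k(x,y)* h` is a smooth
  section (`Q(y) k(x,y)* = k(x,y)*` by `Q_sa`), its `D` is `(adjK (opR k)) (y,x) h` (`opK_apply`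
  for `adjK k`), and `op_symm`.
-/

set_option autoImplicit false
set_option maxSynthPendingDepth 3

open MeasureTheory
open scoped ContDiff

namespace Pool.Agent.EXO

namespace Dirac

variable {n M l : ℕ} {V : Geo n M} {H : Type} [NormedAddCommGroup H]
  [InnerProductSpace ℂ H] [FiniteDimensional ℂ H] (𝔇 : Dirac V H) {k k' : KF M H}

/-- The adjoint as a real linear map. -/
private noncomputable def adjR (H : Type) [NormedAddCommGroup H]
    [InnerProductSpace ℂ H] [FiniteDimensional ℂ H] : (H →L[ℂ] H) →L[ℝ] (H →L[ℂ] H) where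
  toFun A := ContinuousLinearMap.adjoint A
  map_add' := fun A B => map_add _ A B
  map_smul' := fun r A => by
    have h1 : r • A = ((r : ℝ) : ℂ) • A := by
      ext v
      simp
    rw [h1]
    have h2 := (ContinuousLinearMap.adjoint (𝕜 := ℂ) (E := H) (F := H)).map_smulₛₗ ((r : ℝ) : ℂ) A
    rw [h2, Complex.conj_ofReal]
    ext v
    simp
  cont := (ContinuousLinearMap.adjoint (𝕜 := ℂ) (E := H) (F := H)).continuous

private lemma adjR_apply (A : H →L[ℂ] H) : adjR H A = ContinuousLinearMap.adjoint A := rfl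

private lemma tdx_adjK (hk : ContDiff ℝ ∞ k) (a : Fin M) (x y : En M) :
    tdx V a (adjK k) (y, x) = ContinuousLinearMap.adjoint (tdy V a k (x, y)) := by
  have hd : DifferentiableAt ℝ k (x, y) := (hk.differentiable (by simp)) _
  have hs : HasFDerivAt (fun p : En M × En M => (p.2, p.1))
      ((ContinuousLinearMap.snd ℝ (En M) (En M)).prod (ContinuousLinearMap.fst ℝ (En M) (En M)))
      (y, x) :=
    ((ContinuousLinearMap.snd ℝ (En M) (En M)).prod
      (ContinuousLinearMap.fst ℝ (En M) (En M))).hasFDerivAt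
  have hk1 : HasFDerivAt k (fderiv ℝ k (x, y)) (x, y) := hd.hasFDerivAt
  have h1 : HasFDerivAt (fun p : En M × En M => k (p.2, p.1))
      ((fderiv ℝ k (x, y)).comp ((ContinuousLinearMap.snd ℝ (En M) (En M)).prod
        (ContinuousLinearMap.fst ℝ (En M) (En M)))) (y, x) :=
    HasFDerivAt.comp (y, x) (g := k) (f := fun p : En M × En M => (p.2, p.1)) hk1 hs
  have h2 : HasFDerivAt (adjK k)
      ((adjR H).comp ((fderiv ℝ k (x, y)).comp ((ContinuousLinearMap.snd ℝ (En M) (En M)).prod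
        (ContinuousLinearMap.fst ℝ (En M) (En M))))) (y, x) :=
    (adjR H).hasFDerivAt.comp (y, x) h1
  unfold tdx tdy
  rw [h2.fderiv]
  rfl

theorem contDiff_opR (hk : ContDiff ℝ ∞ k) : ContDiff ℝ ∞ (𝔇.opR k) := by
  exact contDiff_adjK (𝔇.contDiff_opK (contDiff_adjK hk))

theorem opR_congr (hloc : V.Loc) (hk : ContDiff ℝ ∞ k) (hk' : ContDiff ℝ ∞ k')
    (h : ∀ x ∈ V.carrier, ∀ y ∈ V.carrier, k (x, y) = k' (x, y)) :
    ∀ x ∈ V.carrier, ∀ y ∈ V.carrier, 𝔇.opR k (x, y) = 𝔇.opR k' (x, y) := by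
  intro x hx y hy
  have h1 := 𝔇.opK_congr hloc (contDiff_adjK hk) (contDiff_adjK hk')
    (fun y hy x hx => by
      change ContinuousLinearMap.adjoint (k (x, y)) = ContinuousLinearMap.adjoint (k' (x, y))
      rw [h x hx y hy]) y hy x hx
  change ContinuousLinearMap.adjoint (𝔇.opK (adjK k) (y, x)) =
    ContinuousLinearMap.adjoint (𝔇.opK (adjK k') (y, x))
  rw [h1]

theorem opR_formula (hk : ContDiff ℝ ∞ k) (p : En M × En M) :
    𝔇.opR k p = ∑ a, tdy V a k p * (ContinuousLinearMap.adjoint (𝔇.Q p.2) *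
      ContinuousLinearMap.adjoint (𝔇.c a)) + k p * ContinuousLinearMap.adjoint (𝔇.B p.2) := by
  obtain ⟨x, y⟩ := p
  change ContinuousLinearMap.adjoint (∑ a, 𝔇.c a * (𝔇.Q y * tdx V a (adjK k) (y, x)) +
    𝔇.B y * ContinuousLinearMap.adjoint (k (x, y))) = _
  rw [map_add, map_sum]
  have hmul : ∀ A B : H →L[ℂ] H, ContinuousLinearMap.adjoint (A * B) =
      ContinuousLinearMap.adjoint B * ContinuousLinearMap.adjoint A := fun A B =>
    ContinuousLinearMap.adjoint_comp A B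
  congr 1
  · refine Finset.sum_congr rfl fun a _ => ?_
    rw [hmul, hmul, tdx_adjK hk, ContinuousLinearMap.adjoint_adjoint, mul_assoc]
  · rw [hmul, ContinuousLinearMap.adjoint_adjoint]

theorem van_opR (hloc : V.Loc) {q : ℕ} (h : Van V.carrier (q + 1) k) :
    Van V.carrier q (𝔇.opR k) := by
  exact Van.adjK (𝔇.van_opK hloc (Van.adjK h))

private lemma adj_mul (A B : H →L[ℂ] H) : ContinuousLinearMap.adjoint (A * B) =
    ContinuousLinearMap.adjoint B * ContinuousLinearMap.adjoint A :=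
  ContinuousLinearMap.adjoint_comp A B

private lemma QL_adjK_aux (h : 𝔇.QR k) : 𝔇.QL (adjK k) := by
  intro x hx y hy
  have h1 := congrArg ContinuousLinearMap.adjoint (h y hy x hx)
  rw [adj_mul, 𝔇.Q_sa x hx] at h1
  exact h1

private lemma QR_adjK_aux (h : 𝔇.QL k) : 𝔇.QR (adjK k) := by
  intro x hx y hy
  have h1 := congrArg ContinuousLinearMap.adjoint (h y hy x hx)
  rw [adj_mul, 𝔇.Q_sa y hy] at h1
  exact h1

theorem QR_opR (hk : ContDiff ℝ ∞ k) : 𝔇.QR (𝔇.opR k) := by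
  exact 𝔇.QR_adjK_aux (𝔇.QL_opK (contDiff_adjK hk))

theorem QL_opR (hloc : V.Loc) (hk : ContDiff ℝ ∞ k) (h : 𝔇.QL k) : 𝔇.QL (𝔇.opR k) := by
  exact 𝔇.QL_adjK_aux (𝔇.QR_opK hloc (contDiff_adjK hk) (𝔇.QR_adjK_aux h))

private lemma tdy_left {L : En M → (H →L[ℂ] H)} (hL : ContDiff ℝ ∞ L) (hk : ContDiff ℝ ∞ k)
    (b : Fin M) (p : En M × En M) :
    tdy V b (fun p => L p.1 * k p) p = L p.1 * tdy V b k p := by
  have hd : HasFDerivAt k (fderiv ℝ k p) p := ((hk.differentiable (by simp)) p).hasFDerivAt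
  have hL1 : HasFDerivAt L (fderiv ℝ L p.1) p.1 :=
    ((hL.differentiable (by simp)) p.1).hasFDerivAt
  have hL2 : HasFDerivAt (fun p : En M × En M => L p.1)
      ((fderiv ℝ L p.1).comp (ContinuousLinearMap.fst ℝ (En M) (En M))) p :=
    HasFDerivAt.comp p (g := L) (f := fun p : En M × En M => p.1) hL1 hasFDerivAt_fst
  have h : HasFDerivAt (fun p => L p.1 * k p) _ p := hL2.mul' hd
  unfold tdy
  rw [h.fderiv]
  simp

theorem opK_opR (hk : ContDiff ℝ ∞ k) : 𝔇.opK (𝔇.opR k) = 𝔇.opR (𝔇.opK k) := by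
  have hN : ∀ b, ContDiff ℝ ∞ (fun y : En M => ContinuousLinearMap.adjoint (𝔇.Q y) *
      ContinuousLinearMap.adjoint (𝔇.c b)) := fun b =>
    ((adjR H).contDiff.comp 𝔇.smoothQ).mul contDiff_const
  have hB : ContDiff ℝ ∞ (fun y : En M => ContinuousLinearMap.adjoint (𝔇.B y)) :=
    (adjR H).contDiff.comp 𝔇.smoothB
  have hR : 𝔇.opR k = fun p => (∑ b, tdy V b k p * (ContinuousLinearMap.adjoint (𝔇.Q p.2) *
      ContinuousLinearMap.adjoint (𝔇.c b))) + k p * ContinuousLinearMap.adjoint (𝔇.B p.2) :=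
    funext fun p => 𝔇.opR_formula hk p
  have hN' : ∀ b, ContDiff ℝ ∞ (fun p : En M × En M => tdy V b k p *
      (ContinuousLinearMap.adjoint (𝔇.Q p.2) * ContinuousLinearMap.adjoint (𝔇.c b))) := fun b =>
    (contDiff_tdy hk b).mul ((hN b).comp contDiff_snd)
  have hB' : ContDiff ℝ ∞ (fun p : En M × En M => k p * ContinuousLinearMap.adjoint (𝔇.B p.2)) :=
    hk.mul (hB.comp contDiff_snd)
  have hKc : ContDiff ℝ ∞ (𝔇.opK k) := 𝔇.contDiff_opK hk
  have key : ∀ b p, tdy V b (𝔇.opK k) p = 𝔇.opK (tdy V b k) p := by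
    intro b p
    have hX : ∀ a, ContDiff ℝ ∞ (fun p : En M × En M => (𝔇.c a * 𝔇.Q p.1) * tdx V a k p) :=
      fun a => (contDiff_const.mul (𝔇.smoothQ.comp contDiff_fst)).mul (contDiff_tdx hk a)
    have e1 : 𝔇.opK k = fun p => (∑ a, (𝔇.c a * 𝔇.Q p.1) * tdx V a k p) + 𝔇.B p.1 * k p := by
      funext p
      unfold Dirac.opK
      simp only [mul_assoc]
    rw [e1, tdy_add (k := fun p => ∑ a, (𝔇.c a * 𝔇.Q p.1) * tdx V a k p)
      (k' := fun p => 𝔇.B p.1 * k p) (ContDiff.sum fun a _ => hX a)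
      ((𝔇.smoothB.comp contDiff_fst).mul hk) b p]
    unfold Dirac.opK
    congr 1
    · have hsum : tdy V b (fun p => ∑ a, (𝔇.c a * 𝔇.Q p.1) * tdx V a k p) p =
          ∑ a, tdy V b (fun p => (𝔇.c a * 𝔇.Q p.1) * tdx V a k p) p := by
        unfold tdy
        rw [fderiv_fun_sum (fun a _ => ((hX a).differentiable (by simp)) p),
          ContinuousLinearMap.sum_apply]
      rw [hsum]
      refine Finset.sum_congr rfl fun a _ => ?_
      rw [tdy_left (L := fun x => 𝔇.c a * 𝔇.Q x) (contDiff_const.mul 𝔇.smoothQ)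
        (contDiff_tdx hk a) b p, tdx_tdy hk a b p, mul_assoc]
    · exact tdy_left 𝔇.smoothB hk b p
  funext p
  rw [𝔇.opR_formula hKc p, hR,
    𝔇.opK_add (k := fun p => ∑ b, tdy V b k p * (ContinuousLinearMap.adjoint (𝔇.Q p.2) *
      ContinuousLinearMap.adjoint (𝔇.c b)))
      (k' := fun p => k p * ContinuousLinearMap.adjoint (𝔇.B p.2))
      (ContDiff.sum fun b _ => hN' b) hB',
    𝔇.opK_mul_right hk hB,
    𝔇.opK_sum Finset.univ (k := fun b p => tdy V b k p * (ContinuousLinearMap.adjoint (𝔇.Q p.2) *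
      ContinuousLinearMap.adjoint (𝔇.c b))) (fun b _ => hN' b)]
  change (∑ b, 𝔇.opK (fun p => tdy V b k p * (ContinuousLinearMap.adjoint (𝔇.Q p.2) *
      ContinuousLinearMap.adjoint (𝔇.c b))) p) + _ = _
  congr 1
  refine Finset.sum_congr rfl fun b _ => ?_
  rw [key b p, 𝔇.opK_mul_right (k := tdy V b k) (contDiff_tdy hk b)
    (m := fun y => ContinuousLinearMap.adjoint (𝔇.Q y) * ContinuousLinearMap.adjoint (𝔇.c b))
    (hN b)]

theorem QL_adjK : 𝔇.QL (adjK k) ↔ 𝔇.QR k := by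
  refine ⟨fun h => ?_, fun h => 𝔇.QL_adjK_aux h⟩
  have h1 := 𝔇.QR_adjK_aux h
  rwa [adjK_adjK] at h1

theorem QR_adjK : 𝔇.QR (adjK k) ↔ 𝔇.QL k := by
  refine ⟨fun h => ?_, fun h => 𝔇.QR_adjK_aux h⟩
  have h1 := 𝔇.QL_adjK_aux h
  rwa [adjK_adjK] at h1

end Dirac

end Pool.Agent.EXO
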