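import Pool.Agent.EXO.IcSec

/-!
Project EXO, chunk IDX-A, module IcSym: `D` is symmetric.

PROOF of `op_symm`.  `u`, `v` smooth sections.  All integrands are continuous on the compact set `V`
(`μ` is finite and `μ Vᶜ = 0`), so integrable.  Fix `a` and put
`g_a(x) := ⟪Q c_a-term⟫ = ⟪u x, Q x (c_a (v x))⟫` (complex inner product, antilinear in `u`).
Then `td a g_a = ⟪td a u, Q c_a v⟫ + ⟪u, (td a Q) c_a v⟫ + ⟪u, Q c_a (td a v)⟫`.
By `hV.ibp`: `∑_a ∫ td a g_a = - ∑_a ∫ Hm_a g_a = - ∫ ⟪u, Q (∑ Hm_a c_a) v⟫ = 0`, because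
`v = Q v` on `V` and `Q (∑ a, Hm_a c_a) Q = 0` by `Q_nor` and `hV.nrm` (normal vector
`∑ Hm_a bv a`, whose components are `Hm_a`).
* First term: `⟪td a u, Q c_a v⟫ = ⟪Q td a u, c_a v⟫ = - ⟪c_a Q td a u, v⟫` (`Q_sa`, `c_skew`); the
  sum over `a` is `- ⟪D u - B u, v⟫`.
* Second term: `∑_a Q (td a Q) c_a Q = 0` on `V` (note `⟪u, w⟫ = ⟪u, Q w⟫`): decompose
  `bv a = P e_a + (1-P) e_a` in `c_a = ∑_b (bv a)_b c_b`: `∑_a td a Q ⊗ c((1-P) e_a) =
  ∑_a fderiv Q (P e_a) c((1-P)e_a) = 0` since `∑_a P e_a ⊗ (1-P) e_a = ∑_a e_a ⊗ (1-P) P e_a = 0`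
  (symmetry of `P`), and `Q (td a Q) cP Q = Q (td a Q) Q cP = 0` by `Q_tan` and
  `Q (td a Q) Q = 0` (`QDQ`: differentiate `Q Q = Q` along `V`: the functions `Q * Q` and `Q`
  agree on `V`, so `td_congr` gives `td a Q * Q + Q * td a Q = td a Q`; multiply by `Q` on both
  sides).
* Third term: `∑_a Q c_a (td a v)`: with `f(w) = fderiv v x w`,
  `∑_a Q c_a f(P e_a) = ∑_b Q cP_b f(e_b) = ∑_b Q cP_b Q f(e_b) + ∑_b Q cP_b (1-Q) f(e_b)`, and
  `Q cP_b = cP_b Q` (`Q_tan`), so the last sum is `0` and the first is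
  `∑_b cP_b Q f(e_b) = D v - B v` (`sum_cQ`, `Q_cP`).
So `0 = - ∫ ⟪D u - B u, v⟫ + ∫ ⟪u, D v - B v⟫`, and `⟪B u, v⟫ = ⟪u, B v⟫` (`B_sa`).
-/

set_option autoImplicit false
set_option maxSynthPendingDepth 3

open MeasureTheory
open scoped ContDiff

namespace Pool.Agent.EXO

namespace Dirac

variable {n M l : ℕ} {V : Geo n M} {H : Type} [NormedAddCommGroup H]
  [InnerProductSpace ℂ H] [FiniteDimensional ℂ H] (𝔇 : Dirac V H)

omit [FiniteDimensional ℂ H] in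
private theorem IcSym_bilin :
    IsBoundedBilinearMap ℝ (fun p : (H →L[ℂ] H) × H => p.1 p.2) := by
  have h := isBoundedBilinearMap_apply (𝕜 := ℂ) (E := H) (F := H)
  refine ⟨h.add_left, ?_, h.add_right, ?_, h.bound⟩
  · intro c x y
    rfl
  · intro c x y
    exact (x.restrictScalars ℝ).map_smul c y

private theorem IcSym_contDiff_apply {L : En M → (H →L[ℂ] H)} (hL : ContDiff ℝ ∞ L)
    {w : En M → H} (hw : ContDiff ℝ ∞ w) : ContDiff ℝ ∞ (fun x => L x (w x)) :=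
  (IcSym_bilin (H := H)).contDiff.comp (hL.prodMk hw)

omit [FiniteDimensional ℂ H] in
private theorem IcSym_fderiv_apply {L : En M → (H →L[ℂ] H)} (hL : ContDiff ℝ ∞ L)
    {w : En M → H} (hw : ContDiff ℝ ∞ w) (x v : En M) :
    fderiv ℝ (fun x => L x (w x)) x v = fderiv ℝ L x v (w x) + L x (fderiv ℝ w x v) := by
  have dL : DifferentiableAt ℝ L x := (hL.differentiable (by simp)) x
  have dw : DifferentiableAt ℝ w x := (hw.differentiable (by simp)) x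
  have h1 := ((IcSym_bilin (H := H)).hasFDerivAt (L x, w x)).comp x
    (dL.hasFDerivAt.prodMk dw.hasFDerivAt)
  have h2 : HasFDerivAt (fun x => L x (w x)) _ x := h1
  rw [h2.fderiv]
  simp only [ContinuousLinearMap.comp_apply, ContinuousLinearMap.prod_apply,
    IsBoundedBilinearMap.deriv_apply]
  abel

omit [FiniteDimensional ℂ H] in
private theorem IcSym_smul_real (r : ℝ) (w : H) : r • w = (r : ℂ) • w :=
  (Complex.coe_smul r w).symm

private theorem IcSym_expand (v : En M) : v = ∑ b, (v b) • bv b := by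
  ext i
  simp [bv, Finset.sum_apply, Pi.single_apply]

private theorem IcSym_inner_bv (v : En M) (b : Fin M) : inner ℝ v (bv b) = v b := by
  simp [bv, EuclideanSpace.inner_single_right]

private theorem IcSym_P_symm {x : En M} (hx : x ∈ V.carrier) (a b : Fin M) :
    V.P x (bv a) b = V.P x (bv b) a := by
  have := V.P_sa x hx (bv a) (bv b)
  rw [IcSym_inner_bv, real_inner_comm, IcSym_inner_bv] at this
  exact this

private theorem IcSym_P_expand {x : En M} (hx : x ∈ V.carrier) (a : Fin M) :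
    V.P x (bv a) = ∑ b, (V.P x (bv b) a) • bv b := by
  have e1 : V.P x (bv a) = ∑ b, (V.P x (bv a) b) • bv b := IcSym_expand _
  rw [e1]
  exact Finset.sum_congr rfl fun b _ => by rw [IcSym_P_symm hx a b]

/-- normal part of the Clifford multiplication -/
private noncomputable def IcSym_cN (x v : En M) : H →L[ℂ] H :=
  ∑ b, (((v - V.P x v) b : ℝ) : ℂ) • 𝔇.c b

private theorem IcSym_split (x : En M) (a : Fin M) :
    𝔇.c a = 𝔇.cP x (bv a) + 𝔇.IcSym_cN x (bv a) := by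
  unfold cP IcSym_cN
  rw [← Finset.sum_add_distrib]
  have h1 : ∀ b : Fin M, ((V.P x (bv a) b : ℝ) : ℂ) • 𝔇.c b +
      (((bv a - V.P x (bv a)) b : ℝ) : ℂ) • 𝔇.c b = ((bv a b : ℝ) : ℂ) • 𝔇.c b := by
    intro b
    rw [← add_smul]
    congr 1
    rw [PiLp.sub_apply]
    push_cast
    ring
  rw [Finset.sum_congr rfl fun b _ => h1 b, Finset.sum_eq_single a]
  · simp [bv]
  · intro b _ hb
    simp [bv, hb]
  · intro h
    exact absurd (Finset.mem_univ a) h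

theorem QDQ (hloc : V.Loc) {x : En M} (hx : x ∈ V.carrier) (a : Fin M) :
    𝔇.Q x * td V a 𝔇.Q x * 𝔇.Q x = 0 := by
  have hQ := 𝔇.smoothQ
  have dQ : DifferentiableAt ℝ 𝔇.Q x := (hQ.differentiable (by simp)) x
  have h1 : td V a (fun z => 𝔇.Q z * 𝔇.Q z) x = td V a 𝔇.Q x :=
    td_congr hloc (hQ.mul hQ) hQ (fun z hz => 𝔇.Q_idem z hz) a hx
  have h2 : td V a (fun z => 𝔇.Q z * 𝔇.Q z) x =
      𝔇.Q x * td V a 𝔇.Q x + td V a 𝔇.Q x * 𝔇.Q x := by
    unfold td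
    have h3 : HasFDerivAt (fun z => 𝔇.Q z * 𝔇.Q z) _ x := dQ.hasFDerivAt.mul' dQ.hasFDerivAt
    rw [h3.fderiv]
    rfl
  rw [h2] at h1
  have hi := 𝔇.Q_idem x hx
  set Q := 𝔇.Q x
  set T := td V a 𝔇.Q x
  have h4 : Q * (Q * T + T * Q) * Q = Q * T * Q := by rw [h1]
  have h5 : Q * (Q * T + T * Q) * Q = Q * T * Q + Q * T * Q := by
    calc Q * (Q * T + T * Q) * Q = (Q * Q) * T * Q + Q * T * (Q * Q) := by
          simp only [mul_add, add_mul, mul_assoc]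
      _ = _ := by rw [hi]
  rw [h5] at h4
  exact add_eq_left.1 h4

theorem sum_QdQ (hloc : V.Loc) {x : En M} (hx : x ∈ V.carrier) :
    ∑ a, 𝔇.Q x * td V a 𝔇.Q x * 𝔇.c a * 𝔇.Q x = 0 := by
  have h1 : ∀ a : Fin M, 𝔇.Q x * td V a 𝔇.Q x * 𝔇.c a * 𝔇.Q x =
      𝔇.Q x * (td V a 𝔇.Q x * 𝔇.IcSym_cN x (bv a)) * 𝔇.Q x := by
    intro a
    have e1 : 𝔇.cP x (bv a) * 𝔇.Q x = 𝔇.Q x * 𝔇.cP x (bv a) := 𝔇.Q_tan x hx (bv a)
    have e2 : 𝔇.Q x * td V a 𝔇.Q x * 𝔇.cP x (bv a) * 𝔇.Q x = 0 := by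
      rw [mul_assoc, e1, ← mul_assoc, 𝔇.QDQ hloc hx a, zero_mul]
    have e3 : 𝔇.Q x * td V a 𝔇.Q x * 𝔇.c a * 𝔇.Q x =
        𝔇.Q x * td V a 𝔇.Q x * 𝔇.cP x (bv a) * 𝔇.Q x +
          𝔇.Q x * td V a 𝔇.Q x * 𝔇.IcSym_cN x (bv a) * 𝔇.Q x := by
      conv_lhs => rw [𝔇.IcSym_split x a]
      rw [mul_add, add_mul]
    rw [e3, e2, zero_add]
    simp only [mul_assoc]
  rw [Finset.sum_congr rfl fun a _ => h1 a, ← Finset.sum_mul, ← Finset.mul_sum]
  have h2 : ∑ a, td V a 𝔇.Q x * 𝔇.IcSym_cN x (bv a) = 0 := by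
    have e1 : ∀ a : Fin M, td V a 𝔇.Q x * 𝔇.IcSym_cN x (bv a) =
        ∑ b, ((bv a - V.P x (bv a)) b • fderiv ℝ 𝔇.Q x (V.P x (bv a))) * 𝔇.c b := by
      intro a
      unfold IcSym_cN td
      rw [Finset.mul_sum]
      refine Finset.sum_congr rfl fun b _ => ?_
      rw [mul_smul_comm, smul_mul_assoc, Complex.coe_smul]
    rw [Finset.sum_congr rfl fun a _ => e1 a, Finset.sum_comm]
    refine Finset.sum_eq_zero fun b _ => ?_
    rw [← Finset.sum_mul]
    have e2 : ∑ a, (bv a - V.P x (bv a)) b • fderiv ℝ 𝔇.Q x (V.P x (bv a)) =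
        fderiv ℝ 𝔇.Q x (V.P x (∑ a, ((bv b - V.P x (bv b)) a) • bv a)) := by
      rw [map_sum, map_sum]
      refine Finset.sum_congr rfl fun a _ => ?_
      rw [map_smul, map_smul]
      congr 1
      rw [PiLp.sub_apply, PiLp.sub_apply, IcSym_P_symm hx a b]
      congr 1
      simp only [bv, EuclideanSpace.single_apply, eq_comm]
    rw [e2, ← IcSym_expand, map_sub, V.P_idem x hx, sub_self, map_zero, zero_mul]
  rw [h2, mul_zero, zero_mul]

theorem sum_Qc {x : En M} (hx : x ∈ V.carrier) (f : En M →L[ℝ] H) :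
    ∑ a, 𝔇.Q x (𝔇.c a (f (V.P x (bv a)))) = ∑ a, 𝔇.c a (𝔇.Q x (f (V.P x (bv a)))) := by
  have h2 : ∀ a : Fin M, 𝔇.Q x (𝔇.c a (f (V.P x (bv a)))) =
      ∑ b, ((V.P x (bv b) a : ℝ) : ℂ) • 𝔇.Q x (𝔇.c a (f (bv b))) := by
    intro a
    rw [IcSym_P_expand hx a, map_sum]
    simp only [map_smul, map_sum]
    refine Finset.sum_congr rfl fun b _ => ?_
    rw [IcSym_smul_real, map_smul, map_smul]
  rw [𝔇.sum_cQ hx f]
  simp only [h2]
  rw [Finset.sum_comm]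
  refine Finset.sum_congr rfl fun b _ => ?_
  have h3 : 𝔇.cP x (bv b) (𝔇.Q x (f (bv b))) = 𝔇.Q x (𝔇.cP x (bv b) (f (bv b))) :=
    DFunLike.congr_fun (𝔇.Q_tan x hx (bv b)) (f (bv b))
  rw [h3]
  simp only [cP, _root_.sum_apply, _root_.smul_apply, map_sum, map_smul]

private theorem IcSym_int (V : Geo n M) {F : Type} [NormedAddCommGroup F] {f : En M → F}
    (hf : Continuous f) : Integrable f V.μ := by
  have := V.μ_fin
  obtain ⟨C, hC⟩ := V.compact.exists_bound_of_continuousOn hf.continuousOn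
  refine Integrable.of_bound hf.aestronglyMeasurable C ?_
  have h : ∀ᵐ x ∂V.μ, x ∈ V.carrier := V.μ_supp
  filter_upwards [h] with x hx
  exact hC x hx

theorem op_symm (hV : V.Good l) {u v : En M → H} (hu : 𝔇.IsSec u) (hv : 𝔇.IsSec v) :
    ∫ x, inner ℂ (𝔇.op u x) (v x) ∂V.μ = ∫ x, inner ℂ (u x) (𝔇.op v x) ∂V.μ := by
  have hloc := hV.loc
  have hQs := 𝔇.smoothQ
  have hae : ∀ᵐ x ∂V.μ, x ∈ V.carrier := V.μ_supp
  have hcv : ∀ a, ContDiff ℝ ∞ (fun x => 𝔇.c a (v x)) := fun a =>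
    ((𝔇.c a).restrictScalars ℝ).contDiff.comp hv.1
  have hQc : ∀ a, ContDiff ℝ ∞ (fun x => 𝔇.Q x (𝔇.c a (v x))) := fun a =>
    IcSym_contDiff_apply hQs (hcv a)
  have hg : ∀ a, ContDiff ℝ ∞ (fun x => inner ℂ (u x) (𝔇.Q x (𝔇.c a (v x)))) := fun a =>
    hu.1.inner ℂ (hQc a)
  have hQad : ∀ x ∈ V.carrier, ∀ w w' : H, inner ℂ w (𝔇.Q x w') = inner ℂ (𝔇.Q x w) w' := by
    intro x hx w w'
    have := ContinuousLinearMap.adjoint_inner_left (𝔇.Q x) w' w
    rw [𝔇.Q_sa x hx] at this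
    exact this.symm
  have hcad : ∀ a, ∀ w w' : H, inner ℂ w (𝔇.c a w') = -inner ℂ (𝔇.c a w) w' := by
    intro a w w'
    have := ContinuousLinearMap.adjoint_inner_left (𝔇.c a) w' w
    rw [𝔇.c_skew a, _root_.neg_apply, inner_neg_left] at this
    exact this.symm
  have hBad : ∀ x ∈ V.carrier, ∀ w w' : H, inner ℂ w (𝔇.B x w') = inner ℂ (𝔇.B x w) w' := by
    intro x hx w w'
    have := ContinuousLinearMap.adjoint_inner_left (𝔇.B x) w' w
    rw [𝔇.B_sa x hx] at this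
    exact this.symm
  -- the derivative of the scalar functions
  have hder : ∀ a x, td V a (fun x => inner ℂ (u x) (𝔇.Q x (𝔇.c a (v x)))) x =
      inner ℂ (u x) (fderiv ℝ 𝔇.Q x (V.P x (bv a)) (𝔇.c a (v x)) +
        𝔇.Q x (𝔇.c a (fderiv ℝ v x (V.P x (bv a))))) +
      inner ℂ (fderiv ℝ u x (V.P x (bv a))) (𝔇.Q x (𝔇.c a (v x))) := by
    intro a x
    unfold td
    have du : DifferentiableAt ℝ u x := (hu.1.differentiable (by simp)) x
    have dw : DifferentiableAt ℝ (fun x => 𝔇.Q x (𝔇.c a (v x))) x :=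
      ((hQc a).differentiable (by simp)) x
    have dv : DifferentiableAt ℝ v x := (hv.1.differentiable (by simp)) x
    have e1 : fderiv ℝ (fun x => 𝔇.c a (v x)) x (V.P x (bv a)) =
        𝔇.c a (fderiv ℝ v x (V.P x (bv a))) := by
      have h1 : HasFDerivAt (fun x => 𝔇.c a (v x))
          (((𝔇.c a).restrictScalars ℝ).comp (fderiv ℝ v x)) x :=
        ((𝔇.c a).restrictScalars ℝ).hasFDerivAt.comp x dv.hasFDerivAt
      rw [h1.fderiv]
      rfl
    rw [fderiv_inner_apply ℂ du dw, IcSym_fderiv_apply hQs (hcv a), e1]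
  -- pointwise identity on `V`
  have hpt : ∀ x ∈ V.carrier,
      ∑ a, td V a (fun x => inner ℂ (u x) (𝔇.Q x (𝔇.c a (v x)))) x =
        inner ℂ (u x) (𝔇.op v x) - inner ℂ (𝔇.op u x) (v x) := by
    intro x hx
    have hQu : 𝔇.Q x (u x) = u x := hu.2 x hx
    have hQv : 𝔇.Q x (v x) = v x := hv.2 x hx
    simp only [hder, inner_add_right, Finset.sum_add_distrib]
    have t2 : ∑ a, inner ℂ (u x) (fderiv ℝ 𝔇.Q x (V.P x (bv a)) (𝔇.c a (v x))) = 0 := by
      have e1 : ∀ a, inner ℂ (u x) (fderiv ℝ 𝔇.Q x (V.P x (bv a)) (𝔇.c a (v x))) =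
          inner ℂ (u x) ((𝔇.Q x * td V a 𝔇.Q x * 𝔇.c a * 𝔇.Q x) (v x)) := by
        intro a
        have e2 : (𝔇.Q x * td V a 𝔇.Q x * 𝔇.c a * 𝔇.Q x) (v x) =
            𝔇.Q x (fderiv ℝ 𝔇.Q x (V.P x (bv a)) (𝔇.c a (𝔇.Q x (v x)))) := rfl
        rw [e2, hQad x hx, hQu, hQv]
      simp only [e1]
      rw [← inner_sum, ← _root_.sum_apply, 𝔇.sum_QdQ hloc hx, _root_.zero_apply, inner_zero_right]
    have t3 : ∑ a, inner ℂ (u x) (𝔇.Q x (𝔇.c a (fderiv ℝ v x (V.P x (bv a))))) =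
        inner ℂ (u x) (𝔇.op v x) - inner ℂ (u x) (𝔇.B x (v x)) := by
      rw [← inner_sum, 𝔇.sum_Qc hx (fderiv ℝ v x), op, inner_add_right]
      ring
    have t1 : ∑ a, inner ℂ (fderiv ℝ u x (V.P x (bv a))) (𝔇.Q x (𝔇.c a (v x))) =
        -(inner ℂ (𝔇.op u x) (v x) - inner ℂ (𝔇.B x (u x)) (v x)) := by
      have e1 : ∀ a, inner ℂ (fderiv ℝ u x (V.P x (bv a))) (𝔇.Q x (𝔇.c a (v x))) =
          -inner ℂ (𝔇.c a (𝔇.Q x (fderiv ℝ u x (V.P x (bv a))))) (v x) := by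
        intro a
        rw [hQad x hx, hcad]
      simp only [e1]
      rw [Finset.sum_neg_distrib, ← sum_inner, op, inner_add_left]
      ring
    rw [t1, t2, t3, hBad x hx]
    ring
  have hH : ∀ x ∈ V.carrier, ∑ a, V.Hm a x • inner ℂ (u x) (𝔇.Q x (𝔇.c a (v x))) = 0 := by
    intro x hx
    have hQv : 𝔇.Q x (v x) = v x := hv.2 x hx
    have hc : ∀ b : Fin M, (∑ a, V.Hm a x • bv a : En M) b = V.Hm b x := by
      intro b
      have h1 := IcSym_inner_bv (∑ a, V.Hm a x • bv a : En M) b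
      rw [← h1, sum_inner, Finset.sum_eq_single b]
      · rw [inner_smul_left, IcSym_inner_bv]
        simp [bv]
      · intro c _ hc
        rw [inner_smul_left, IcSym_inner_bv]
        simp [bv, hc.symm]
      · intro h
        exact absurd (Finset.mem_univ b) h
    have h2 := 𝔇.Q_nor x hx _ (hV.nrm x hx)
    simp only [hc] at h2
    have h3 : ∑ a, V.Hm a x • inner ℂ (u x) (𝔇.Q x (𝔇.c a (v x))) =
        inner ℂ (u x) ((𝔇.Q x * (∑ a, ((V.Hm a x : ℝ) : ℂ) • 𝔇.c a) * 𝔇.Q x) (v x)) := by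
      have e1 : (𝔇.Q x * (∑ a, ((V.Hm a x : ℝ) : ℂ) • 𝔇.c a) * 𝔇.Q x) (v x) =
          𝔇.Q x ((∑ a, ((V.Hm a x : ℝ) : ℂ) • 𝔇.c a) (𝔇.Q x (v x))) := rfl
      rw [e1, hQv, _root_.sum_apply, map_sum, inner_sum]
      refine Finset.sum_congr rfl fun a _ => ?_
      rw [_root_.smul_apply, map_smul, inner_smul_right, Complex.real_smul]
    rw [h3, h2, _root_.zero_apply, inner_zero_right]
  -- integration
  have hopu := (𝔇.contDiff_op hu.1).continuous
  have hopv := (𝔇.contDiff_op hv.1).continuous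
  have i1 : Integrable (fun x => inner ℂ (𝔇.op u x) (v x)) V.μ :=
    IcSym_int V (hopu.inner hv.1.continuous)
  have i2 : Integrable (fun x => inner ℂ (u x) (𝔇.op v x)) V.μ :=
    IcSym_int V (hu.1.continuous.inner hopv)
  have i3 : ∀ a, Integrable (td V a (fun x => inner ℂ (u x) (𝔇.Q x (𝔇.c a (v x))))) V.μ :=
    fun a => IcSym_int V (contDiff_td (hg a) a).continuous
  have k1 : ∫ x, ∑ a, td V a (fun x => inner ℂ (u x) (𝔇.Q x (𝔇.c a (v x)))) x ∂V.μ = 0 := by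
    rw [integral_finsetSum _ fun a _ => i3 a]
    have hHc : ∀ a, Continuous (V.Hm a) := by
      intro a
      have hP := V.smoothP
      have hdP : ContDiff ℝ ∞ (fderiv ℝ V.P) := hP.fderiv_right (by simp)
      have h1 : ∀ b : Fin M, Continuous fun x =>
          (fderiv ℝ V.P x (V.P x (bv b)) (bv a)) b := by
        intro b
        have h2 : Continuous fun x => fderiv ℝ V.P x (V.P x (bv b)) (bv a) :=
          (hdP.continuous.clm_apply (hP.continuous.clm_apply continuous_const)).clm_apply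
            continuous_const
        exact (EuclideanSpace.proj (𝕜 := ℝ) b).continuous.comp h2
      exact continuous_finsetSum _ fun b _ => h1 b
    have i4 : ∀ a, Integrable (fun x => V.Hm a x • inner ℂ (u x) (𝔇.Q x (𝔇.c a (v x)))) V.μ :=
      fun a => IcSym_int V ((hHc a).smul (hg a).continuous)
    have h5 : ∀ a, ∫ x, td V a (fun x => inner ℂ (u x) (𝔇.Q x (𝔇.c a (v x)))) x ∂V.μ =
        -∫ x, V.Hm a x • inner ℂ (u x) (𝔇.Q x (𝔇.c a (v x))) ∂V.μ := fun a =>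
      hV.ibp ℂ _ (hg a) a
    simp only [h5]
    rw [Finset.sum_neg_distrib, ← integral_finsetSum _ fun a _ => i4 a,
      integral_eq_zero_of_ae, neg_zero]
    filter_upwards [hae] with x hx
    exact hH x hx
  have k2 : ∫ x, ∑ a, td V a (fun x => inner ℂ (u x) (𝔇.Q x (𝔇.c a (v x)))) x ∂V.μ =
      (∫ x, inner ℂ (u x) (𝔇.op v x) ∂V.μ) - ∫ x, inner ℂ (𝔇.op u x) (v x) ∂V.μ := by
    rw [← integral_sub i2 i1]
    refine integral_congr_ae ?_
    filter_upwards [hae] with x hx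
    exact hpt x hx
  rw [k1] at k2
  exact (sub_eq_zero.1 k2.symm).symm

end Dirac

end Pool.Agent.EXO
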