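import Pool.Agent.EXO.IcR
import Pool.Agent.EXO.IcSym

/-!
Project EXO, chunk IDX-A, module IcRow: kernels as operators, integration by parts.

PROOFS.
* `mul_op`: for a smooth section `v` and `x ∈ V`: take the inner product with `h ∈ H`:
  `⟪h, k(x,y) w⟫ = ⟪k(x,y)* h, w⟫`; `y ↦ k(x,y)* h` is a smooth section (`Q(y) k(x,y)* = k(x,y)*` by
  `Q_sa` and `QR`), its `D` is `(opK (adjK k)) (y,x) h` (`opK_apply`) `= ((opR k)(x,y))* h`
  (`adjK_adjK`); use `op_symm`.
* `contDiff_int`: `x ↦ ∫ k(x,y) (u y) dμ(y)` is smooth on `ℝ^M` for `k` smooth, `u` continuous on the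
  compact set `V`, `μ` finite and concentrated on `V`.  Proof: induction on the order of
  differentiability with `hasFDerivAt_integral_of_dominated_of_fderiv_le` (bounds on
  compact neighbourhoods of `x` times `V`), `contDiff_succ_iff_fderiv`, for kernels with values in
  any finite dimensional space; or `contDiff_parametric`-lemmas.
  The derivative is `∫ (fderiv k (x,y) (v, 0)) (u y)`.
* `op_int`: hence `D (∫ k(·,y) u(y)) = ∫ (opK k)(x,y) u(y)` (`td a` of the integral is the integral of
  `tdx a k`; continuous linear maps commute with integrals).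
-/

set_option autoImplicit false
set_option maxSynthPendingDepth 3

open MeasureTheory
open scoped ContDiff

namespace Pool.Agent.EXO

section icRowAux

variable {n M : ℕ} {F G : Type} [NormedAddCommGroup F] [NormedSpace ℝ F]
  [NormedAddCommGroup G] [NormedSpace ℝ G]

theorem icRow_ae (V : Geo n M) : ∀ᵐ y ∂V.μ, y ∈ V.carrier := by
  rw [ae_iff]
  exact V.μ_supp

theorem icRow_restrict (V : Geo n M) : V.μ.restrict V.carrier = V.μ :=
  Measure.restrict_eq_self_of_ae_mem (icRow_ae V)

omit [NormedSpace ℝ F] in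
theorem icRow_aesm (V : Geo n M) {f : En M → F} (hf : ContinuousOn f V.carrier) :
    AEStronglyMeasurable f V.μ := by
  have h := hf.aestronglyMeasurable (μ := V.μ) V.compact.isClosed.measurableSet
  rwa [icRow_restrict V] at h

omit [NormedSpace ℝ F] in
theorem icRow_int (V : Geo n M) {f : En M → F} (hf : ContinuousOn f V.carrier) :
    Integrable f V.μ := by
  have := V.μ_fin
  have h := hf.integrableOn_compact (μ := V.μ) V.compact
  rw [IntegrableOn, icRow_restrict V] at h
  exact h

theorem icRow_hasFDerivAt (V : Geo n M) {k : En M × En M → (F →L[ℝ] G)} (hk : ContDiff ℝ 1 k)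
    {u : En M → F} (hu : ContinuousOn u V.carrier) (x₀ : En M) :
    HasFDerivAt (fun x => ∫ y, k (x, y) (u y) ∂V.μ)
      (∫ y, ((fderiv ℝ k (x₀, y)).comp (ContinuousLinearMap.inl ℝ (En M) (En M))).flip (u y) ∂V.μ)
      x₀ := by
  have := V.μ_fin
  have hfd : Continuous (fderiv ℝ k) := hk.continuous_fderiv one_ne_zero
  have hc : Continuous fun p : En M × En M =>
      ((fderiv ℝ k p).comp (ContinuousLinearMap.inl ℝ (En M) (En M))).flip := by
    have h1 : Continuous fun p : En M × En M =>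
      (fderiv ℝ k p).comp (ContinuousLinearMap.inl ℝ (En M) (En M)) := hfd.clm_comp continuous_const
    exact (ContinuousLinearMap.flipₗᵢ ℝ (En M) F G).continuous.comp h1
  obtain ⟨C, hC⟩ : ∃ C : ℝ, ∀ p ∈ Metric.closedBall x₀ 1 ×ˢ V.carrier,
      ‖((fderiv ℝ k p).comp (ContinuousLinearMap.inl ℝ (En M) (En M))).flip‖ ≤ C :=
    ((isCompact_closedBall x₀ 1).prod V.compact).exists_bound_of_continuousOn hc.continuousOn
  obtain ⟨U, hU⟩ : ∃ U : ℝ, ∀ y ∈ V.carrier, ‖u y‖ ≤ U :=
    V.compact.exists_bound_of_continuousOn hu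
  have hslice : ∀ x : En M, Continuous fun y : En M => (x, y) := fun x =>
    Continuous.prodMk_right x
  refine hasFDerivAt_integral_of_dominated_of_fderiv_le
    (F := fun x y => k (x, y) (u y))
    (F' := fun x y => ((fderiv ℝ k (x, y)).comp
      (ContinuousLinearMap.inl ℝ (En M) (En M))).flip (u y))
    (bound := fun _ => C * U)
    (Metric.closedBall_mem_nhds x₀ one_pos) ?_ ?_ ?_ ?_ ?_ ?_
  · exact Filter.Eventually.of_forall fun x => icRow_aesm V
      ((hk.continuous.comp (hslice x)).continuousOn.clm_apply hu)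
  · exact icRow_int V ((hk.continuous.comp (hslice x₀)).continuousOn.clm_apply hu)
  · exact icRow_aesm V ((hc.comp (hslice x₀)).continuousOn.clm_apply hu)
  · filter_upwards [icRow_ae V] with y hy x hx
    refine (ContinuousLinearMap.le_opNorm _ _).trans ?_
    have h1 := hC (x, y) ⟨hx, hy⟩
    exact mul_le_mul h1 (hU y hy) (norm_nonneg _) ((norm_nonneg _).trans h1)
  · exact integrable_const _
  · refine Filter.Eventually.of_forall fun y x _ => ?_
    have h1 : HasFDerivAt k (fderiv ℝ k (x, y)) (x, y) :=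
      (hk.differentiable one_ne_zero).differentiableAt.hasFDerivAt
    have h2 : HasFDerivAt (fun z : En M => k (z, y))
        ((fderiv ℝ k (x, y)).comp (ContinuousLinearMap.inl ℝ (En M) (En M))) x :=
      h1.comp x (hasFDerivAt_prodMk_left x y)
    have h3 := h2.clm_apply (hasFDerivAt_const (u y) x)
    refine h3.congr_fderiv ?_
    ext v
    simp

theorem icRow_contDiff_nat (V : Geo n M) {F : Type} [NormedAddCommGroup F] [NormedSpace ℝ F]
    {u : En M → F} (hu : ContinuousOn u V.carrier) (r : ℕ) :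
    ∀ {G : Type} [NormedAddCommGroup G] [NormedSpace ℝ G] {k : En M × En M → (F →L[ℝ] G)},
      ContDiff ℝ ∞ k → ContDiff ℝ r (fun x => ∫ y, k (x, y) (u y) ∂V.μ) := by
  induction r with
  | zero =>
    intro G _ _ k hk
    rw [Nat.cast_zero, contDiff_zero, continuous_iff_continuousAt]
    intro x
    exact (icRow_hasFDerivAt V (hk.of_le (by simp)) hu x).continuousAt
  | succ r ih =>
    intro G _ _ k hk
    have h1 : ContDiff ℝ ∞ fun p : En M × En M =>
        ((fderiv ℝ k p).comp (ContinuousLinearMap.inl ℝ (En M) (En M))).flip :=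
      (ContinuousLinearMap.flipₗᵢ ℝ (En M) F G).contDiff.comp
        ((hk.fderiv_right (m := ∞) (by simp)).clm_comp contDiff_const)
    rw [Nat.cast_add, Nat.cast_one, contDiff_succ_iff_hasFDerivAt]
    exact ⟨_, ih h1, fun x => icRow_hasFDerivAt V (hk.of_le (by simp)) hu x⟩

end icRowAux

namespace Dirac

variable {n M l : ℕ} {V : Geo n M} {H : Type} [NormedAddCommGroup H]
  [InnerProductSpace ℂ H] [FiniteDimensional ℂ H] (𝔇 : Dirac V H) {k : KF M H}

theorem contDiff_int {F G : Type} [NormedAddCommGroup F] [NormedSpace ℝ F]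
    [FiniteDimensional ℝ F] [NormedAddCommGroup G] [NormedSpace ℝ G] [FiniteDimensional ℝ G]
    {k : En M × En M → (F →L[ℝ] G)} (hk : ContDiff ℝ ∞ k) {u : En M → F}
    (hu : ContinuousOn u V.carrier) : ContDiff ℝ ∞ (fun x => ∫ y, k (x, y) (u y) ∂V.μ) :=
  contDiff_infty.2 fun r => icRow_contDiff_nat V hu r hk

theorem fderiv_int {F G : Type} [NormedAddCommGroup F] [NormedSpace ℝ F]
    [FiniteDimensional ℝ F] [NormedAddCommGroup G] [NormedSpace ℝ G] [FiniteDimensional ℝ G]
    {k : En M × En M → (F →L[ℝ] G)} (hk : ContDiff ℝ ∞ k) {u : En M → F}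
    (hu : ContinuousOn u V.carrier) (x v : En M) :
    fderiv ℝ (fun x => ∫ y, k (x, y) (u y) ∂V.μ) x v =
      ∫ y, (fderiv ℝ k (x, y) (v, 0)) (u y) ∂V.μ := by
  have : CompleteSpace G := FiniteDimensional.complete ℝ G
  rw [(icRow_hasFDerivAt V (hk.of_le (by simp)) hu x).fderiv]
  rw [ContinuousLinearMap.integral_apply]
  · simp
  · have hfd : Continuous (fderiv ℝ k) := hk.continuous_fderiv (by simp)
    have hc : Continuous fun p : En M × En M =>
        ((fderiv ℝ k p).comp (ContinuousLinearMap.inl ℝ (En M) (En M))).flip := by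
      have h1 : Continuous fun p : En M × En M =>
        (fderiv ℝ k p).comp (ContinuousLinearMap.inl ℝ (En M) (En M)) := hfd.clm_comp continuous_const
      exact (ContinuousLinearMap.flipₗᵢ ℝ (En M) F G).continuous.comp h1
    exact icRow_int V ((hc.comp (Continuous.prodMk_right x)).continuousOn.clm_apply hu)

theorem contDiff_intK (hk : ContDiff ℝ ∞ k) {u : En M → H} (hu : ContinuousOn u V.carrier) :
    ContDiff ℝ ∞ (fun x => ∫ y, k (x, y) (u y) ∂V.μ) := by
  have h1 : ContDiff ℝ ∞ (fun p => (k p).restrictScalars ℝ) :=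
    (ContinuousLinearMap.restrictScalarsL ℂ H H ℝ ℝ).contDiff.comp hk
  exact contDiff_int h1 hu

omit [FiniteDimensional ℂ H] in
theorem icRow_fderiv (hk : ContDiff ℝ ∞ k) (p : En M × En M) (w : En M × En M) :
    fderiv ℝ (fun p => (k p).restrictScalars ℝ) p w = (fderiv ℝ k p w).restrictScalars ℝ := by
  have h1 : HasFDerivAt k (fderiv ℝ k p) p :=
    (hk.differentiable (by simp)).differentiableAt.hasFDerivAt
  have h2 := (ContinuousLinearMap.restrictScalarsL ℂ H H ℝ ℝ).hasFDerivAt.comp p h1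
  have h3 : fderiv ℝ (fun p => (k p).restrictScalars ℝ) p =
    (ContinuousLinearMap.restrictScalarsL ℂ H H ℝ ℝ).comp (fderiv ℝ k p) := h2.fderiv
  rw [h3]
  rfl

theorem op_int (hk : ContDiff ℝ ∞ k) {u : En M → H} (hu : ContinuousOn u V.carrier)
    (x : En M) :
    𝔇.op (fun x => ∫ y, k (x, y) (u y) ∂V.μ) x = ∫ y, 𝔇.opK k (x, y) (u y) ∂V.μ := by
  have hk' : ContDiff ℝ ∞ (fun p => (k p).restrictScalars ℝ) :=
    (ContinuousLinearMap.restrictScalarsL ℂ H H ℝ ℝ).contDiff.comp hk
  have hcont : ∀ {f : En M → (H →L[ℂ] H)}, Continuous f →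
      ContinuousOn (fun y => f y (u y)) V.carrier := by
    intro f hf
    have h1 : Continuous (fun y => (f y).restrictScalars ℝ) :=
      (ContinuousLinearMap.restrictScalarsL ℂ H H ℝ ℝ).continuous.comp hf
    exact h1.continuousOn.clm_apply hu
  have hd : ∀ v : En M, fderiv ℝ (fun x => ∫ y, k (x, y) (u y) ∂V.μ) x v =
      ∫ y, (fderiv ℝ k (x, y) (v, 0)) (u y) ∂V.μ := by
    intro v
    have h1 := fderiv_int hk' hu x v
    refine h1.trans ?_
    refine integral_congr_ae (Filter.Eventually.of_forall fun y => ?_)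
    simp only
    rw [icRow_fderiv hk]
    rfl
  have hfc : ∀ v : En M, Continuous fun y : En M => fderiv ℝ k (x, y) (v, 0) := by
    intro v
    have h1 : Continuous (fderiv ℝ k) := hk.continuous_fderiv (by simp)
    exact (h1.comp (Continuous.prodMk_right x)).clm_apply continuous_const
  have hkc : Continuous fun y : En M => k (x, y) := hk.continuous.comp (Continuous.prodMk_right x)
  have i1 : ∀ v : En M, Integrable (fun y => (fderiv ℝ k (x, y) (v, 0)) (u y)) V.μ :=
    fun v => icRow_int V (hcont (hfc v))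
  have i2 : Integrable (fun y => k (x, y) (u y)) V.μ := icRow_int V (hcont hkc)
  have i3 : ∀ a : Fin M, Integrable (fun y => 𝔇.c a (𝔇.Q x
      ((fderiv ℝ k (x, y) (V.P x (bv a), 0)) (u y)))) V.μ := by
    intro a
    exact ((𝔇.c a).comp (𝔇.Q x)).integrable_comp (i1 _)
  unfold Dirac.op
  simp only [hd]
  have e1 : ∀ a : Fin M, 𝔇.c a (𝔇.Q x (∫ y, (fderiv ℝ k (x, y) (V.P x (bv a), 0)) (u y) ∂V.μ)) =
      ∫ y, 𝔇.c a (𝔇.Q x ((fderiv ℝ k (x, y) (V.P x (bv a), 0)) (u y))) ∂V.μ := by
    intro a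
    exact (ContinuousLinearMap.integral_comp_comm ((𝔇.c a).comp (𝔇.Q x)) (i1 _)).symm
  have e2 : 𝔇.B x (∫ y, k (x, y) (u y) ∂V.μ) = ∫ y, 𝔇.B x (k (x, y) (u y)) ∂V.μ :=
    (ContinuousLinearMap.integral_comp_comm (𝔇.B x) i2).symm
  rw [e2, Finset.sum_congr rfl fun a _ => e1 a, ← integral_finsetSum _ fun a _ => i3 a,
    ← integral_add (integrable_finsetSum _ fun a _ => i3 a) ((𝔇.B x).integrable_comp i2)]
  refine integral_congr_ae (Filter.Eventually.of_forall fun y => ?_)
  simp only [Dirac.opK, tdx, _root_.add_apply, _root_.sum_apply]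
  rfl

theorem mul_op (hV : V.Good l) (hk : ContDiff ℝ ∞ k) (hQ : 𝔇.QR k) {v : En M → H}
    (hv : 𝔇.IsSec v) {x : En M} (hx : x ∈ V.carrier) :
    ∫ y, k (x, y) (𝔇.op v y) ∂V.μ = ∫ y, 𝔇.opR k (x, y) (v y) ∂V.μ := by
  have hcont : ∀ {f : En M → (H →L[ℂ] H)}, Continuous f → ∀ {u : En M → H}, Continuous u →
      Continuous (fun y => f y (u y)) := by
    intro f hf u hu
    have h1 : Continuous (fun y => (f y).restrictScalars ℝ) :=
      (ContinuousLinearMap.restrictScalarsL ℂ H H ℝ ℝ).continuous.comp hf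
    exact h1.clm_apply hu
  have c1 : Continuous fun y : En M => k (x, y) := hk.continuous.comp (Continuous.prodMk_right x)
  have c2 : Continuous fun y : En M => 𝔇.opR k (x, y) :=
    (𝔇.contDiff_opR hk).continuous.comp (Continuous.prodMk_right x)
  have i1 : Integrable (fun y => k (x, y) (𝔇.op v y)) V.μ :=
    icRow_int V (hcont c1 (𝔇.contDiff_op hv.1).continuous).continuousOn
  have i2 : Integrable (fun y => 𝔇.opR k (x, y) (v y)) V.μ :=
    icRow_int V (hcont c2 hv.1.continuous).continuousOn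
  refine ext_inner_left ℂ fun h => ?_
  rw [← integral_inner i1, ← integral_inner i2]
  have hadj : ContDiff ℝ ∞ (adjK k) := contDiff_adjK hk
  have hsec : 𝔇.IsSec (fun y => adjK k (y, x) h) := by
    constructor
    · have h1 : ContDiff ℝ ∞ (fun y : En M => adjK k (y, x)) :=
        hadj.comp (contDiff_id.prodMk contDiff_const)
      have h2 : ContDiff ℝ ∞ (fun y : En M => (adjK k (y, x)).restrictScalars ℝ) :=
        (ContinuousLinearMap.restrictScalarsL ℂ H H ℝ ℝ).contDiff.comp h1
      exact h2.clm_apply contDiff_const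
    · intro y hy
      have h1 := (QL_adjK 𝔇 (k := k)).2 hQ y hy x hx
      have h2 := congrArg (fun T : H →L[ℂ] H => T h) h1
      simpa using h2
  have hs := 𝔇.op_symm hV hsec hv
  calc ∫ y, inner ℂ h (k (x, y) (𝔇.op v y)) ∂V.μ
      = ∫ y, inner ℂ (adjK k (y, x) h) (𝔇.op v y) ∂V.μ := by
        refine integral_congr_ae (Filter.Eventually.of_forall fun y => ?_)
        simp only [adjK, ContinuousLinearMap.adjoint_inner_left]
    _ = ∫ y, inner ℂ (𝔇.op (fun y => adjK k (y, x) h) y) (v y) ∂V.μ := hs.symm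
    _ = ∫ y, inner ℂ h (𝔇.opR k (x, y) (v y)) ∂V.μ := by
        refine integral_congr_ae (Filter.Eventually.of_forall fun y => ?_)
        simp only
        rw [← 𝔇.opK_apply hadj y x h]
        simp only [opR, Pool.Agent.EXO.adjK, ContinuousLinearMap.adjoint_inner_right]

end Dirac

end Pool.Agent.EXO
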