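import Pool.Agent.EXO.IbTd

/-!
Project EXO, chunk IDX-A, module IcSec: the Dirac operator on sections.

PROOFS.  `D u x = ∑ c_a Q (td a u x) + B (u x)`, `td a u x = fderiv ℝ u x (V.P x (bv a))`.
* `contDiff_op`: smoothness of all ingredients.
* `op_congr`: `td_congr` for every `a` (`u = v` on `V`).
* `op_add`, `op_smul`, `op_sum`: linearity of `fderiv` for smooth functions (real linearity;
  a complex scalar `r`: `fderiv ℝ (r • u) = r • fderiv ℝ u`).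
* `Q_op`: for a section `u` (in fact for every `u`) and `x ∈ V`:
  `∑ a, c_a Q w_a` with `w_a = fderiv ℝ u x (P x e_a)`.  Put `f(v) = fderiv ℝ u x v` (real linear).
  `∑ a, c_a Q f(P e_a)`: write `P e_a = ∑ b, (P e_a) b • e_b`, and `(P e_a) b = (P e_b) a` (symmetry):
  `= ∑ b, (∑ a, (P e_b) a • c_a) Q f(e_b) = ∑ b, cP_b Q f(e_b)`, `cP_b := ∑ a, (V.P x (bv b) a) • c a`,
  and `cP_b Q = Q cP_b` (`Q_tan`), so `Q (∑ ..) = ∑ ..` since `Q cP_b Q = cP_b Q Q = cP_b Q`.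
  `Q B = B` on `V`: `B = Q B Q`.
* `op_isSec`: from `contDiff_op` and `Q_op`.
* `op_Q`: `D (Q u) = D u` on `V` for a section: `Q u = u` on `V` and `op_congr`.
* `op_Γ`: `u` a section, `Γ u` is the function `x ↦ Γ x (u x)`.  `td a (Γ u) = (td a Γ) u + Γ td a u`.
  `∑ c_a Q (td a Γ) u`: `u = Q u` and `Q (td a Γ) Q = 0` (`Γ_par`).
  `∑ c_a Q Γ (td a u) = ∑ c_a Γ Q (td a u)` (`Γ_Q`), and with the notation above
  `= ∑ b cP_b Γ Q f(e_b) = - Γ ∑ b cP_b Q f(e_b)` (`Γ_c`: `Γ cP_b Q = - cP_b Γ Q`).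
  `B Γ = - Γ B` (`B_odd`).
* `leibniz`: `f` real smooth: `td a (f • u) = td a f • u + f • td a u`.
-/

set_option autoImplicit false
set_option maxSynthPendingDepth 3

open MeasureTheory
open scoped ContDiff

namespace Pool.Agent.EXO

namespace Dirac

variable {n M l : ℕ} {V : Geo n M} {H : Type} [NormedAddCommGroup H]
  [InnerProductSpace ℂ H] [FiniteDimensional ℂ H] (𝔇 : Dirac V H)

omit [FiniteDimensional ℂ H] in
private theorem IcSec_bilin :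
    IsBoundedBilinearMap ℝ (fun p : (H →L[ℂ] H) × H => p.1 p.2) := by
  have h := isBoundedBilinearMap_apply (𝕜 := ℂ) (E := H) (F := H)
  refine ⟨h.add_left, ?_, h.add_right, ?_, h.bound⟩
  · intro c x y
    rfl
  · intro c x y
    exact (x.restrictScalars ℝ).map_smul c y

private theorem IcSec_contDiff_apply {L : En M → (H →L[ℂ] H)} (hL : ContDiff ℝ ∞ L)
    {w : En M → H} (hw : ContDiff ℝ ∞ w) : ContDiff ℝ ∞ (fun x => L x (w x)) :=
  (IcSec_bilin (H := H)).contDiff.comp (hL.prodMk hw)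

omit [FiniteDimensional ℂ H] in
private theorem IcSec_smul_real (r : ℝ) (w : H) : r • w = (r : ℂ) • w := by
  exact (Complex.coe_smul r w).symm

private theorem IcSec_expand (v : En M) : v = ∑ b, (v b) • bv b := by
  ext i
  simp [bv, Finset.sum_apply, Pi.single_apply]

private theorem IcSec_inner_bv (v : En M) (b : Fin M) : inner ℝ v (bv b) = v b := by
  simp [bv, EuclideanSpace.inner_single_right]

/-- `∑ a, (P x v)_a c_a`, Clifford multiplication by the tangential part of `v`. -/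
noncomputable def cP (x v : En M) : H →L[ℂ] H := ∑ a, ((V.P x v a : ℝ) : ℂ) • 𝔇.c a

theorem contDiff_op {u : En M → H} (hu : ContDiff ℝ ∞ u) : ContDiff ℝ ∞ (𝔇.op u) := by
  have hQ := 𝔇.smoothQ
  have hB := 𝔇.smoothB
  have hfd : ContDiff ℝ ∞ (fderiv ℝ u) := hu.fderiv_right (by simp)
  have h1 : ∀ a : Fin M, ContDiff ℝ ∞ (fun x => fderiv ℝ u x (V.P x (bv a))) := fun a =>
    hfd.clm_apply (V.smoothP.clm_apply contDiff_const)
  unfold op
  refine ContDiff.add ?_ (IcSec_contDiff_apply hB hu)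
  refine ContDiff.sum fun a _ => ?_
  exact ((𝔇.c a).restrictScalars ℝ).contDiff.comp (IcSec_contDiff_apply hQ (h1 a))

theorem op_congr (hloc : V.Loc) {u v : En M → H} (hu : ContDiff ℝ ∞ u) (hv : ContDiff ℝ ∞ v)
    (h : ∀ x ∈ V.carrier, u x = v x) {x : En M} (hx : x ∈ V.carrier) :
    𝔇.op u x = 𝔇.op v x := by
  have h1 : ∀ a : Fin M, fderiv ℝ u x (V.P x (bv a)) = fderiv ℝ v x (V.P x (bv a)) := fun a =>
    td_congr hloc hu hv h a hx
  simp only [op, h1, h x hx]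

theorem op_add {u v : En M → H} (hu : ContDiff ℝ ∞ u) (hv : ContDiff ℝ ∞ v) (x : En M) :
    𝔇.op (fun x => u x + v x) x = 𝔇.op u x + 𝔇.op v x := by
  have du : DifferentiableAt ℝ u x := (hu.differentiable (by simp)) x
  have dv : DifferentiableAt ℝ v x := (hv.differentiable (by simp)) x
  have h1 : fderiv ℝ (fun x => u x + v x) x = fderiv ℝ u x + fderiv ℝ v x := fderiv_fun_add du dv
  simp only [op, h1, ContinuousLinearMap.add_apply, map_add, Finset.sum_add_distrib]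
  abel

theorem op_smul (r : ℂ) {u : En M → H} (hu : ContDiff ℝ ∞ u) (x : En M) :
    𝔇.op (fun x => r • u x) x = r • 𝔇.op u x := by
  have du : DifferentiableAt ℝ u x := (hu.differentiable (by simp)) x
  have h1 : fderiv ℝ (fun x => r • u x) x = r • fderiv ℝ u x := fderiv_fun_const_smul du r
  simp only [op, h1, ContinuousLinearMap.smul_apply, map_smul, smul_add, Finset.smul_sum]

/-- The first order part of `D` in terms of arbitrary derivatives. -/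
theorem sum_cQ {x : En M} (hx : x ∈ V.carrier) (f : En M →L[ℝ] H) :
    ∑ a, 𝔇.c a (𝔇.Q x (f (V.P x (bv a)))) = ∑ b, 𝔇.cP x (bv b) (𝔇.Q x (f (bv b))) := by
  have h1 : ∀ a : Fin M, V.P x (bv a) = ∑ b, (V.P x (bv b) a) • bv b := by
    intro a
    have e1 : V.P x (bv a) = ∑ b, (V.P x (bv a) b) • bv b := IcSec_expand _
    have e2 : ∀ b : Fin M, V.P x (bv a) b = V.P x (bv b) a := by
      intro b
      have := V.P_sa x hx (bv a) (bv b)
      rw [IcSec_inner_bv, real_inner_comm, IcSec_inner_bv] at this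
      exact this
    rw [e1]
    exact Finset.sum_congr rfl fun b _ => by rw [e2 b]
  have h2 : ∀ a : Fin M, 𝔇.c a (𝔇.Q x (f (V.P x (bv a)))) =
      ∑ b, ((V.P x (bv b) a : ℝ) : ℂ) • 𝔇.c a (𝔇.Q x (f (bv b))) := by
    intro a
    rw [h1 a, map_sum]
    simp only [map_smul, map_sum]
    refine Finset.sum_congr rfl fun b _ => ?_
    rw [IcSec_smul_real, map_smul, map_smul]
  simp only [h2]
  rw [Finset.sum_comm]
  refine Finset.sum_congr rfl fun b _ => ?_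
  simp only [cP, ContinuousLinearMap.sum_apply, ContinuousLinearMap.smul_apply]

theorem Q_cP {x : En M} (hx : x ∈ V.carrier) (v : En M) :
    𝔇.Q x * 𝔇.cP x v * 𝔇.Q x = 𝔇.cP x v * 𝔇.Q x := by
  have h1 : 𝔇.cP x v * 𝔇.Q x = 𝔇.Q x * 𝔇.cP x v := 𝔇.Q_tan x hx v
  rw [mul_assoc, h1, ← mul_assoc, 𝔇.Q_idem x hx]

theorem Q_op (u : En M → H) {x : En M} (hx : x ∈ V.carrier) :
    𝔇.Q x (𝔇.op u x) = 𝔇.op u x := by
  have hB : 𝔇.Q x (𝔇.B x (u x)) = 𝔇.B x (u x) := by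
    have h1 : 𝔇.Q x * 𝔇.B x = 𝔇.B x := by
      rw [← 𝔇.B_Q x hx, ← mul_assoc, ← mul_assoc, 𝔇.Q_idem x hx]
    exact DFunLike.congr_fun h1 (u x)
  have hs : ∑ a, 𝔇.c a (𝔇.Q x (fderiv ℝ u x (V.P x (bv a)))) =
      ∑ b, 𝔇.cP x (bv b) (𝔇.Q x (fderiv ℝ u x (bv b))) := 𝔇.sum_cQ hx _
  rw [op, hs, map_add, hB, map_sum]
  congr 1
  refine Finset.sum_congr rfl fun b _ => ?_
  exact DFunLike.congr_fun (𝔇.Q_cP hx (bv b)) (fderiv ℝ u x (bv b))

theorem op_isSec {u : En M → H} (hu : 𝔇.IsSec u) : 𝔇.IsSec (𝔇.op u) := by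
  exact ⟨𝔇.contDiff_op hu.1, fun x hx => 𝔇.Q_op u hx⟩

theorem Q_isSec {u : En M → H} (hu : ContDiff ℝ ∞ u) : 𝔇.IsSec (fun x => 𝔇.Q x (u x)) := by
  refine ⟨IcSec_contDiff_apply 𝔇.smoothQ hu, fun x hx => ?_⟩
  exact DFunLike.congr_fun (𝔇.Q_idem x hx) (u x)

theorem Γ_isSec {u : En M → H} (hu : 𝔇.IsSec u) : 𝔇.IsSec (fun x => 𝔇.Γ x (u x)) := by
  refine ⟨IcSec_contDiff_apply 𝔇.smoothΓ hu.1, fun x hx => ?_⟩
  have h1 : 𝔇.Γ x (𝔇.Q x (u x)) = 𝔇.Q x (𝔇.Γ x (u x)) := DFunLike.congr_fun (𝔇.Γ_Q x hx) (u x)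
  show 𝔇.Q x (𝔇.Γ x (u x)) = 𝔇.Γ x (u x)
  rw [← h1, hu.2 x hx]

theorem op_Γ (hloc : V.Loc) {u : En M → H} (hu : 𝔇.IsSec u) {x : En M} (hx : x ∈ V.carrier) :
    𝔇.op (fun x => 𝔇.Γ x (u x)) x = -(𝔇.Γ x (𝔇.op u x)) := by
  have dΓ : DifferentiableAt ℝ 𝔇.Γ x := (𝔇.smoothΓ.differentiable (by simp)) x
  have du : DifferentiableAt ℝ u x := (hu.1.differentiable (by simp)) x
  have hd : ∀ v : En M, fderiv ℝ (fun x => 𝔇.Γ x (u x)) x v =
      fderiv ℝ 𝔇.Γ x v (u x) + 𝔇.Γ x (fderiv ℝ u x v) := by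
    intro v
    have hb : IsBoundedBilinearMap ℝ (fun p : (H →L[ℂ] H) × H => p.1 p.2) :=
      IcSec_bilin
    have h1 := (hb.hasFDerivAt (𝔇.Γ x, u x)).comp x (dΓ.hasFDerivAt.prodMk du.hasFDerivAt)
    have h2 : HasFDerivAt (fun x => 𝔇.Γ x (u x)) _ x := h1
    rw [h2.fderiv]
    simp only [ContinuousLinearMap.comp_apply, ContinuousLinearMap.prod_apply,
      IsBoundedBilinearMap.deriv_apply]
    abel
  have hQu : 𝔇.Q x (u x) = u x := hu.2 x hx
  have e1 : ∀ v : En M, 𝔇.Q x (fderiv ℝ 𝔇.Γ x (V.P x v) (u x)) = 0 := by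
    intro v
    have := DFunLike.congr_fun (𝔇.Γ_par x hx v) (u x)
    simp only [ContinuousLinearMap.mul_apply, hQu, ContinuousLinearMap.zero_apply] at this
    exact this
  have e2 : ∀ w : H, 𝔇.Q x (𝔇.Γ x w) = 𝔇.Γ x (𝔇.Q x w) := fun w =>
    (DFunLike.congr_fun (𝔇.Γ_Q x hx) w).symm
  have e3 : ∀ v : En M, ∀ w : H, 𝔇.cP x v (𝔇.Γ x (𝔇.Q x w)) = -(𝔇.Γ x (𝔇.cP x v (𝔇.Q x w))) := by
    intro v w
    have := DFunLike.congr_fun (𝔇.Γ_c x hx v) w
    simp only [ContinuousLinearMap.mul_apply, ContinuousLinearMap.neg_apply] at this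
    have h3 : 𝔇.Γ x (𝔇.cP x v (𝔇.Q x w)) = -(𝔇.cP x v (𝔇.Γ x (𝔇.Q x w))) := this
    rw [h3, neg_neg]
  have e4 : 𝔇.B x (𝔇.Γ x (u x)) = -(𝔇.Γ x (𝔇.B x (u x))) := by
    have := DFunLike.congr_fun (𝔇.B_odd x hx) (u x)
    simp only [ContinuousLinearMap.mul_apply, ContinuousLinearMap.neg_apply] at this
    rw [this, neg_neg]
  have e5 : ∑ a, 𝔇.c a (𝔇.Q x (fderiv ℝ u x (V.P x (bv a)))) =
      ∑ b, 𝔇.cP x (bv b) (𝔇.Q x (fderiv ℝ u x (bv b))) := 𝔇.sum_cQ hx _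
  have e6 : ∑ a, 𝔇.c a (𝔇.Q x (𝔇.Γ x (fderiv ℝ u x (V.P x (bv a))))) =
      ∑ b, 𝔇.cP x (bv b) (𝔇.Q x (𝔇.Γ x (fderiv ℝ u x (bv b)))) :=
    𝔇.sum_cQ hx (((𝔇.Γ x).restrictScalars ℝ).comp (fderiv ℝ u x))
  have e7 : 𝔇.op u x = ∑ b, 𝔇.cP x (bv b) (𝔇.Q x (fderiv ℝ u x (bv b))) + 𝔇.B x (u x) := by
    rw [op, e5]
  have e8 : 𝔇.op (fun x => 𝔇.Γ x (u x)) x =
      ∑ a, 𝔇.c a (𝔇.Q x (𝔇.Γ x (fderiv ℝ u x (V.P x (bv a))))) + 𝔇.B x (𝔇.Γ x (u x)) := by
    unfold op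
    congr 1
    refine Finset.sum_congr rfl fun a _ => ?_
    rw [hd, map_add, e1, zero_add]
  rw [e8, e6, e7, map_add, map_sum, e4, neg_add]
  congr 1
  rw [← Finset.sum_neg_distrib]
  refine Finset.sum_congr rfl fun b _ => ?_
  rw [e2, e3]

theorem leibniz {f : En M → ℝ} (hf : ContDiff ℝ ∞ f) {u : En M → H} (hu : ContDiff ℝ ∞ u)
    (x : En M) :
    𝔇.op (fun x => f x • u x) x =
      f x • 𝔇.op u x + ∑ a, td V a f x • 𝔇.c a (𝔇.Q x (u x)) := by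
  have df : DifferentiableAt ℝ f x := (hf.differentiable (by simp)) x
  have du : DifferentiableAt ℝ u x := (hu.differentiable (by simp)) x
  have hd : ∀ v : En M, fderiv ℝ (fun x => f x • u x) x v =
      f x • fderiv ℝ u x v + fderiv ℝ f x v • u x := by
    intro v
    have h1 : fderiv ℝ (fun x => f x • u x) x = _ := fderiv_fun_smul df du
    rw [h1]
    simp only [ContinuousLinearMap.add_apply, ContinuousLinearMap.smul_apply,
      ContinuousLinearMap.smulRight_apply]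
  have hs : ∀ (L : H →L[ℂ] H) (r : ℝ) (w : H), L (r • w) = r • L w := fun L r w => by
    rw [IcSec_smul_real, map_smul, IcSec_smul_real]
  simp only [op, hd, map_add, hs, smul_add, Finset.smul_sum, Finset.sum_add_distrib, td]
  abel

end Dirac

end Pool.Agent.EXO
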