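import Pool.Agent.EXO.IcR

/-!
Project EXO, chunk IDX-A, module IdA: the classes of formal kernels.

Recall `Cls V w k`: `FS k` and `k j ∈ Van (w - n - 2 j).toNat` for all `j`.

PROOFS.  Smoothness and finiteness of the support (with `J + 2` instead of `J`) are immediate from
`contDiff_opK`, `contDiff_Cg`, `contDiff_phiK`, `opK_zero`.  For the orders:
* `Cls.fD`: `opK (k j) ∈ Van ((w-n-2j).toNat - 1)` (`van_opK`, or smooth if `toNat = 0`) and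
  `(w-1-n-2j).toNat ≤ (w-n-2j).toNat - 1` if `w-n-2j ≥ 1`, `= 0` otherwise;
  `Cg k_{j+1} ∈ Van (1 + (w-n-2j-2).toNat)` (`van_Cg`, `Van.mul`) and
  `(w-1-n-2j).toNat ≤ 1 + (w-n-2j-2).toNat`.
* `Cls.fT`: `(j+1) k_{j+1} ∈ Van (w-n-2j-2).toNat`, `φ k_{j+2} ∈ Van (2 + (w-n-2j-4).toNat)`
  (`van_phi`, `Van.rsmul_mul`).
* `Cls.fA`: `Van.adjK`.  `Cls.fR`: `fR = fA ∘ fD ∘ fA`.
* `Cls.k0`: `n = 2 l`: `j = -l`: `Van 0`; other `j`: zero.
* additivity: `opK_add`, `opK_sub`.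
* `QL_fD`: `QL_opK`, `QL_Cg`; `QR_fD`: `QR_opK` and `Cg k Q = Cg k`.  `QL_fR`, `QR_fR`: through
  `QL_adjK`, `QR_adjK`.
-/

set_option autoImplicit false
set_option maxSynthPendingDepth 3

open MeasureTheory
open scoped ContDiff

namespace Pool.Agent.EXO

namespace Dirac

variable {n M l : ℕ} {V : Geo n M} {H : Type} [NormedAddCommGroup H]
  [InnerProductSpace ℂ H] [FiniteDimensional ℂ H] (𝔇 : Dirac V H) {k k' : FK M H} {w w' : ℤ}

theorem FS.add (h : FS k) (h' : FS k') : FS (k + k') := by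
  obtain ⟨h1, J, h2⟩ := h
  obtain ⟨h3, J', h4⟩ := h'
  refine ⟨fun j => (h1 j).add (h3 j), max J J', fun j hj => ?_⟩
  have a1 : (J : ℤ) < |j| := lt_of_le_of_lt (by exact_mod_cast le_max_left J J') hj
  have a2 : (J' : ℤ) < |j| := lt_of_le_of_lt (by exact_mod_cast le_max_right J J') hj
  rw [Pi.add_apply, h2 j a1, h4 j a2, add_zero]

theorem FS.sub (h : FS k) (h' : FS k') : FS (k - k') := by
  obtain ⟨h1, J, h2⟩ := h
  obtain ⟨h3, J', h4⟩ := h'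
  refine ⟨fun j => (h1 j).sub (h3 j), max J J', fun j hj => ?_⟩
  have a1 : (J : ℤ) < |j| := lt_of_le_of_lt (by exact_mod_cast le_max_left J J') hj
  have a2 : (J' : ℤ) < |j| := lt_of_le_of_lt (by exact_mod_cast le_max_right J J') hj
  rw [Pi.sub_apply, h2 j a1, h4 j a2, sub_zero]

private theorem IdA_Cgmul {m : KF M H} (h : ContDiff ℝ ∞ m) :
    ContDiff ℝ ∞ (fun p => 𝔇.Cg p * m p) :=
  (Van.mul (V := V.carrier) (r := 0) (q := 0) (𝔇.contDiff_Cg) h).contDiff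

private theorem IdA_csm (c : ℂ) {m : KF M H} (h : ContDiff ℝ ∞ m) :
    ContDiff ℝ ∞ (fun p => c • m p) :=
  (Van.csmul (V := (∅ : Set (En M))) (q := 0) c h).contDiff

private theorem IdA_phism {m : KF M H} (h : ContDiff ℝ ∞ m) :
    ContDiff ℝ ∞ (fun p => ((phiK p : ℝ) : ℂ) • m p) :=
  (Van.rsmul_mul (V := (∅ : Set (En M))) (r := 0) (q := 0) contDiff_phiK h).contDiff

private theorem IdA_adj0 : adjK (0 : KF M H) = 0 := by
  funext p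
  simp [adjK]

theorem FS.fD (h : FS k) : FS (𝔇.fD k) := by
  obtain ⟨h1, J, h2⟩ := h
  refine ⟨fun j => (𝔇.contDiff_opK (h1 j)).sub (𝔇.IdA_Cgmul (h1 (j + 1))), J + 1, fun j hj => ?_⟩
  push_cast at hj
  have a1 : (J : ℤ) < |j| := by linarith
  have a2 : (J : ℤ) < |j + 1| := by
    have := abs_sub_abs_le_abs_sub j (-1)
    simp only [sub_neg_eq_add, abs_neg, abs_one] at this
    linarith
  unfold Dirac.fD
  rw [h2 j a1, h2 (j + 1) a2]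
  have e : 𝔇.opK (0 : KF M H) = 0 := 𝔇.opK_zero
  rw [e]
  funext p
  simp

theorem FS.fT (h : FS k) : FS (fT k) := by
  obtain ⟨h1, J, h2⟩ := h
  refine ⟨fun j => (IdA_csm ((j + 1 : ℤ) : ℂ) (h1 (j + 1))).add (IdA_phism (h1 (j + 2))), J + 2,
    fun j hj => ?_⟩
  push_cast at hj
  have a1 : (J : ℤ) < |j + 1| := by
    have := abs_sub_abs_le_abs_sub j (-1)
    simp only [sub_neg_eq_add, abs_neg, abs_one] at this
    linarith
  have a2 : (J : ℤ) < |j + 2| := by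
    have := abs_sub_abs_le_abs_sub j (-2)
    simp only [sub_neg_eq_add, abs_neg] at this
    have h3 : |(2 : ℤ)| = 2 := rfl
    rw [h3] at this
    linarith
  funext p
  unfold Dirac.fT
  rw [h2 (j + 1) a1, h2 (j + 2) a2]
  simp

theorem FS.fA (h : FS k) : FS (fA k) := by
  obtain ⟨h1, J, h2⟩ := h
  refine ⟨fun j => contDiff_adjK (h1 j), J, fun j hj => ?_⟩
  unfold Dirac.fA
  rw [h2 j hj, IdA_adj0]

theorem FS.fR (h : FS k) : FS (𝔇.fR k) :=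
  FS.fA (FS.fD 𝔇 (FS.fA h))

theorem FS.fL (h : FS k) : FS (𝔇.fL k) :=
  FS.add (FS.fT h) (FS.fD 𝔇 (FS.fD 𝔇 h))

private theorem IdA_k0 (j : ℤ) : ContDiff ℝ ∞ (𝔇.k0 l j) := by
  by_cases hj : j = -(l : ℤ)
  · have e : 𝔇.k0 l j = fun p => 𝔇.Q p.1 * 𝔇.Q p.2 := by
      funext p
      unfold Dirac.k0
      rw [if_pos hj]
    rw [e]
    exact (Van.mul (V := (∅ : Set (En M))) (r := 0) (q := 0)
      (a := fun p : En M × En M => 𝔇.Q p.1) (b := fun p : En M × En M => 𝔇.Q p.2)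
      (𝔇.smoothQ.comp contDiff_fst) (𝔇.smoothQ.comp contDiff_snd)).contDiff
  · have e : 𝔇.k0 l j = fun _ => 0 := by
      funext p
      unfold Dirac.k0
      rw [if_neg hj]
    rw [e]
    exact contDiff_const

theorem FS_k0 : FS (𝔇.k0 l) := by
  refine ⟨fun j => 𝔇.IdA_k0 j, l, fun j hj => ?_⟩
  have h : j ≠ -(l : ℤ) := by
    rintro rfl
    rw [abs_neg, Nat.abs_cast] at hj
    exact lt_irrefl _ hj
  funext p
  unfold Dirac.k0
  rw [if_neg h]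
  rfl

theorem fD_add (h : FS k) (h' : FS k') : 𝔇.fD (k + k') = 𝔇.fD k + 𝔇.fD k' := by
  funext j p
  have e := congrFun (𝔇.opK_add (h.1 j) (h'.1 j)) p
  have e' : 𝔇.opK (k j + k' j) p = 𝔇.opK (k j) p + 𝔇.opK (k' j) p := e
  simp only [Dirac.fD, Pi.add_apply, Pi.sub_apply, mul_add, e']
  abel

theorem fD_sub (h : FS k) (h' : FS k') : 𝔇.fD (k - k') = 𝔇.fD k - 𝔇.fD k' := by
  funext j p
  have e := congrFun (𝔇.opK_sub (h.1 j) (h'.1 j)) p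
  have e' : 𝔇.opK (k j - k' j) p = 𝔇.opK (k j) p - 𝔇.opK (k' j) p := e
  simp only [Dirac.fD, Pi.sub_apply, mul_sub, e']
  abel

theorem fT_add : fT (k + k') = fT k + fT k' := by
  funext j p
  simp only [Dirac.fT, Pi.add_apply, smul_add]
  abel

private theorem IdA_fT_sub : fT (k - k') = fT k - fT k' := by
  funext j p
  simp only [Dirac.fT, Pi.sub_apply, smul_sub]
  abel

private theorem IdA_fA_add : fA (k + k') = fA k + fA k' := by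
  funext j p
  simp only [Dirac.fA, adjK, Pi.add_apply, map_add]

private theorem IdA_fA_sub : fA (k - k') = fA k - fA k' := by
  funext j p
  simp only [Dirac.fA, adjK, Pi.sub_apply, map_sub]

theorem fL_add (h : FS k) (h' : FS k') : 𝔇.fL (k + k') = 𝔇.fL k + 𝔇.fL k' := by
  unfold Dirac.fL
  rw [fT_add, 𝔇.fD_add h h', 𝔇.fD_add (FS.fD 𝔇 h) (FS.fD 𝔇 h')]
  abel

theorem fL_sub (h : FS k) (h' : FS k') : 𝔇.fL (k - k') = 𝔇.fL k - 𝔇.fL k' := by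
  unfold Dirac.fL
  rw [IdA_fT_sub, 𝔇.fD_sub h h', 𝔇.fD_sub (FS.fD 𝔇 h) (FS.fD 𝔇 h')]
  abel

theorem fR_add (h : FS k) (h' : FS k') : 𝔇.fR (k + k') = 𝔇.fR k + 𝔇.fR k' := by
  unfold Dirac.fR
  rw [IdA_fA_add, 𝔇.fD_add (FS.fA h) (FS.fA h'), IdA_fA_add]

theorem fR_sub (h : FS k) (h' : FS k') : 𝔇.fR (k - k') = 𝔇.fR k - 𝔇.fR k' := by
  unfold Dirac.fR
  rw [IdA_fA_sub, 𝔇.fD_sub (FS.fA h) (FS.fA h'), IdA_fA_sub]

theorem Cls.add (h : Cls V w k) (h' : Cls V w k') : Cls V w (k + k') :=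
  ⟨h.1.add h'.1, fun j => (h.2 j).add (h'.2 j)⟩

theorem Cls.sub (h : Cls V w k) (h' : Cls V w k') : Cls V w (k - k') :=
  ⟨h.1.sub h'.1, fun j => (h.2 j).sub (h'.2 j)⟩

theorem Cls.mono (hw : w' ≤ w) (h : Cls V w k) : Cls V w' k :=
  ⟨h.1, fun j => (h.2 j).mono (by omega)⟩

theorem Cls.congr (h : Cls V w k) (hk' : FS k')
    (e : ∀ j, ∀ x ∈ V.carrier, ∀ y ∈ V.carrier, k j (x, y) = k' j (x, y)) : Cls V w k' :=
  ⟨hk', fun j => (h.2 j).congr (hk'.1 j) (e j)⟩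

theorem Cls.fD (hloc : V.Loc) (h : Cls V w k) : Cls V (w - 1) (𝔇.fD k) := by
  refine ⟨FS.fD 𝔇 h.1, fun j => ?_⟩
  have h1 : Van V.carrier (w - 1 - n - 2 * j).toNat (𝔇.opK (k j)) := by
    by_cases hw : 1 ≤ w - n - 2 * j
    · have e : (w - n - 2 * j).toNat = (w - 1 - n - 2 * j).toNat + 1 := by omega
      have h2 := h.2 j
      rw [e] at h2
      exact 𝔇.van_opK hloc h2
    · have e : (w - 1 - n - 2 * j).toNat = 0 := by omega
      rw [e]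
      exact 𝔇.contDiff_opK (h.1.1 j)
  have h3 : Van V.carrier (w - 1 - n - 2 * j).toNat (fun p => 𝔇.Cg p * k (j + 1) p) := by
    have h4 := Van.mul 𝔇.van_Cg (h.2 (j + 1))
    exact h4.mono (by omega)
  exact h1.sub h3

theorem Cls.fT (h : Cls V w k) : Cls V (w - 2) (fT k) := by
  refine ⟨FS.fT h.1, fun j => ?_⟩
  have h1 : Van V.carrier (w - 2 - n - 2 * j).toNat (fun p => ((j + 1 : ℤ) : ℂ) • k (j + 1) p) := by
    have h2 := Van.csmul ((j + 1 : ℤ) : ℂ) (h.2 (j + 1))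
    exact h2.mono (by omega)
  have h3 : Van V.carrier (w - 2 - n - 2 * j).toNat (fun p => ((phiK p : ℝ) : ℂ) • k (j + 2) p) := by
    have h4 := Van.rsmul_mul van_phi (h.2 (j + 2))
    exact h4.mono (by omega)
  exact h1.add h3

theorem Cls.fA (h : Cls V w k) : Cls V w (fA k) :=
  ⟨FS.fA h.1, fun j => (h.2 j).adjK⟩

theorem Cls.fR (hloc : V.Loc) (h : Cls V w k) : Cls V (w - 1) (𝔇.fR k) :=
  Cls.fA (Cls.fD 𝔇 hloc (Cls.fA h))

theorem Cls.fL (hloc : V.Loc) (h : Cls V w k) : Cls V (w - 2) (𝔇.fL k) := by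
  have h1 := Cls.fD 𝔇 hloc (Cls.fD 𝔇 hloc h)
  exact Cls.add (Cls.fT h) (Cls.mono (by omega) h1)

theorem Cls_k0 (hn : n = 2 * l) : Cls V 0 (𝔇.k0 l) := by
  refine ⟨𝔇.FS_k0, fun j => ?_⟩
  by_cases hj : j = -(l : ℤ)
  · have e : (0 - (n : ℤ) - 2 * j).toNat = 0 := by omega
    rw [e]
    exact 𝔇.IdA_k0 j
  · have e : 𝔇.k0 l j = fun _ => 0 := by
      funext p
      unfold Dirac.k0
      rw [if_neg hj]
    rw [e]
    exact Van.zero

theorem QL_fD (h : FS k) (j : ℤ) : 𝔇.QL (𝔇.fD k j) := by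
  intro x hx y hy
  have h1 := 𝔇.QL_opK (h.1 j) x hx y hy
  have h2 := 𝔇.QL_Cg (k (j + 1)) x hx y hy
  simp only [Dirac.fD, Pi.sub_apply, mul_sub]
  rw [h1, h2]

theorem QR_fD (hloc : V.Loc) (h : FS k) (hQ : ∀ j, 𝔇.QR (k j)) (j : ℤ) :
    𝔇.QR (𝔇.fD k j) := by
  intro x hx y hy
  have h1 := 𝔇.QR_opK hloc (h.1 j) (hQ j) x hx y hy
  have h2 := hQ (j + 1) x hx y hy
  simp only [Dirac.fD, Pi.sub_apply, sub_mul]
  rw [h1, mul_assoc, h2]

theorem QL_fR (hloc : V.Loc) (h : FS k) (hQ : ∀ j, 𝔇.QL (k j)) (j : ℤ) :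
    𝔇.QL (𝔇.fR k j) := by
  have h1 : 𝔇.QR (𝔇.fD (Dirac.fA k) j) :=
    𝔇.QR_fD hloc (FS.fA h) (fun i => (𝔇.QR_adjK).mpr (hQ i)) j
  exact (𝔇.QL_adjK).mpr h1

theorem QR_fR (h : FS k) (j : ℤ) : 𝔇.QR (𝔇.fR k j) :=
  (𝔇.QR_adjK).mpr (𝔇.QL_fD (FS.fA h) j)

theorem QL_fL (h : FS k) (hQ : ∀ j, 𝔇.QL (k j)) (j : ℤ) : 𝔇.QL (𝔇.fL k j) := by
  intro x hx y hy
  have h1 := 𝔇.QL_fD (FS.fD 𝔇 h) j x hx y hy
  have h2 := hQ (j + 1) x hx y hy
  have h3 := hQ (j + 2) x hx y hy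
  simp only [Dirac.fL, Dirac.fT, Pi.add_apply, mul_add, mul_smul_comm]
  rw [h1, h2, h3]

theorem QR_fL (hloc : V.Loc) (h : FS k) (hQ : ∀ j, 𝔇.QR (k j)) (j : ℤ) :
    𝔇.QR (𝔇.fL k j) := by
  intro x hx y hy
  have h1 := 𝔇.QR_fD hloc (FS.fD 𝔇 h) (fun i => 𝔇.QR_fD hloc h hQ i) j x hx y hy
  have h2 := hQ (j + 1) x hx y hy
  have h3 := hQ (j + 2) x hx y hy
  simp only [Dirac.fL, Dirac.fT, Pi.add_apply, add_mul, smul_mul_assoc]
  rw [h1, h2, h3]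

end Dirac

end Pool.Agent.EXO
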