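import Pool.Agent.EXO.IdA

/-!
Project EXO, chunk IDX-A, module IdB: realization of formal kernels and commutation relations.

PROOFS.
* `ev_eq_sum`: `finsum_eq_sum_of_support_subset` (terms with `|j| > J` vanish).
* `contDiff_ev`: finite sum of smooth functions (`Real.contDiff_exp.comp`, `contDiff_phiK`).
* `opK_ev`: `opK_sum`, `opK_csmul`, `opK_exp`: `opK (t^j e k_j) = t^j e (opK k_j - t⁻¹ Cg k_j)`;
  sum over `j` in a large symmetric interval and shift the index in the second sum.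
* `adjK_ev`: `phiK (y,x) = phiK (x,y)`, the scalars are real.  `opR_ev` follows.
* `hasDerivAt_ev`: `d/dt (t^j exp(-φ/t)) = (j t^(j-1) + φ t^(j-2)) exp(-φ/t)`; shift the index.
* `ev_inj`: for fixed `p` multiply by `exp(φ/t) t^J`: `∑_{i ≤ 2J} t^i (k - k')_{i-J} p = 0` for all
  `t > 0`, a polynomial in `t` with coefficients in a finite dimensional space: all coefficients
  vanish (apply a linear functional and use that a nonzero polynomial has finitely many roots, or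
  induction with the limit `t → 0`).
* `fD_fT`: direct computation with `opK_add`, `opK_csmul`, `opK_phi`:
  `fD (fT k) j = (j+1) opK k_{j+1} + φ opK k_{j+2} + Cg k_{j+2} - (j+2) Cg k_{j+2} - φ Cg k_{j+3}`,
  `fT (fD k) j = (j+1) (opK k_{j+1} - Cg k_{j+2}) + φ (opK k_{j+2} - Cg k_{j+3})`.
* `fA_fT`: `φ` is symmetric and real, `j + 1` real.  `fR_fT` follows.
* `fD_fR`: `ev (fD (fR k)) t = opK (opR (ev k t)) = opR (opK (ev k t)) = ev (fR (fD k)) t`
  (`opK_opR`), then `ev_inj`.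
* `fL_fD`, `fL_fR`: from these and `fD_add`, `fR_add`.
-/

set_option autoImplicit false
set_option maxSynthPendingDepth 3

open MeasureTheory
open scoped ContDiff

namespace Pool.Agent.EXO

namespace Dirac

variable {n M l : ℕ} {V : Geo n M} {H : Type} [NormedAddCommGroup H]
  [InnerProductSpace ℂ H] [FiniteDimensional ℂ H] (𝔇 : Dirac V H) {k k' : FK M H} {w w' : ℤ}

private theorem IdB_supp {A : Type} [AddCommMonoid A] {J : ℕ} {a : ℤ → A}
    (ha : ∀ j : ℤ, (J : ℤ) < |j| → a j = 0) :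
    Function.support a ⊆ (Finset.Icc (-(J : ℤ)) J : Finset ℤ) := by
  intro j hj
  rw [Function.mem_support] at hj
  by_contra h
  apply hj
  apply ha
  rw [Finset.coe_Icc, Set.mem_Icc, not_and_or, not_le, not_le] at h
  rcases h with h | h
  · rw [lt_abs]; right; linarith
  · rw [lt_abs]; left; exact h

private theorem IdB_fin {A : Type} [AddCommMonoid A] {J : ℕ} {a : ℤ → A}
    (ha : ∀ j : ℤ, (J : ℤ) < |j| → a j = 0) : (Function.support a).Finite :=
  (Finset.finite_toSet _).subset (IdB_supp ha)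

private theorem IdB_shift {A : Type} [AddCommMonoid A] (a : ℤ → A) (m : ℤ) :
    ∑ᶠ j : ℤ, a (j + m) = ∑ᶠ j : ℤ, a j :=
  finsum_comp_equiv (Equiv.addRight m)

private theorem IdB_shiftfin {A : Type} [AddCommMonoid A] {a : ℤ → A} (m : ℤ)
    (ha : (Function.support a).Finite) : (Function.support (fun j => a (j + m))).Finite := by
  have : Function.support (fun j => a (j + m)) = (Equiv.addRight m) ⁻¹' (Function.support a) := rfl
  rw [this]
  exact ha.preimage (Equiv.injective _).injOn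

theorem ev_eq_sum {J : ℕ} (hJ : ∀ j : ℤ, (J : ℤ) < |j| → k j = 0) (t : ℝ)
    (p : En M × En M) :
    ev k t p = ∑ j ∈ Finset.Icc (-(J : ℤ)) J,
      ((t ^ j * Real.exp (-(phiK p) / t) : ℝ) : ℂ) • k j p := by
  unfold ev
  apply finsum_eq_sum_of_support_subset
  apply IdB_supp
  intro j hj
  rw [hJ j hj, Pi.zero_apply, smul_zero]

private theorem IdB_smc (j : ℤ) (t : ℝ) :
    ContDiff ℝ ∞ (fun p : En M × En M => (t ^ j * Real.exp (-(phiK p) / t) : ℝ)) := by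
  have h1 : ContDiff ℝ ∞ (phiK (M := M)) := contDiff_phiK
  have h2 : ContDiff ℝ ∞ (fun p : En M × En M => -(phiK p) / t) := h1.neg.div_const t
  exact contDiff_const.mul (Real.contDiff_exp.comp h2)

private theorem IdB_rsm {f : En M × En M → ℝ} (hf : ContDiff ℝ ∞ f) {m : KF M H}
    (hm : ContDiff ℝ ∞ m) : ContDiff ℝ ∞ (fun p => ((f p : ℝ) : ℂ) • m p) :=
  (Van.rsmul_mul (V := (∅ : Set (En M))) (r := 0) (q := 0) hf hm).contDiff

theorem contDiff_ev (h : FS k) {t : ℝ} (ht : 0 < t) : ContDiff ℝ ∞ (ev k t) := by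
  obtain ⟨h1, J, h2⟩ := h
  have e : ev k t = fun p => ∑ j ∈ Finset.Icc (-(J : ℤ)) J,
      ((t ^ j * Real.exp (-(phiK p) / t) : ℝ) : ℂ) • k j p := by
    funext p
    exact ev_eq_sum h2 t p
  rw [e]
  apply ContDiff.sum
  intro j _
  exact IdB_rsm (IdB_smc j t) (h1 j)

private theorem IdB_evfin (h : FS k) (c : ℤ → ℂ) (p : En M × En M) :
    (Function.support (fun j => c j • k j p)).Finite := by
  obtain ⟨_, J, h2⟩ := h
  apply IdB_fin (J := J)
  intro j hj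
  rw [h2 j hj, Pi.zero_apply, smul_zero]

theorem ev_add (h : FS k) (h' : FS k') (t : ℝ) (p : En M × En M) :
    ev (k + k') t p = ev k t p + ev k' t p := by
  unfold ev
  rw [← finsum_add_distrib (IdB_evfin h _ p) (IdB_evfin h' _ p)]
  apply finsum_congr
  intro j
  rw [Pi.add_apply, Pi.add_apply, smul_add]

theorem ev_sub (h : FS k) (h' : FS k') (t : ℝ) (p : En M × En M) :
    ev (k - k') t p = ev k t p - ev k' t p := by
  unfold ev
  rw [← finsum_sub_distrib (IdB_evfin h _ p) (IdB_evfin h' _ p)]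
  apply finsum_congr
  intro j
  rw [Pi.sub_apply, Pi.sub_apply, smul_sub]

private theorem IdB_term {t : ℝ} (ht : 0 < t) (j : ℤ) {m : KF M H} (hm : ContDiff ℝ ∞ m)
    (p : En M × En M) :
    𝔇.opK (fun p => ((t ^ j * Real.exp (-(phiK p) / t) : ℝ) : ℂ) • m p) p =
      ((t ^ j * Real.exp (-(phiK p) / t) : ℝ) : ℂ) • 𝔇.opK m p -
      ((t ^ (j - 1) * Real.exp (-(phiK p) / t) : ℝ) : ℂ) • (𝔇.Cg p * m p) := by
  have hs : ContDiff ℝ ∞ (fun p : En M × En M => ((Real.exp (-(phiK p) / t) : ℝ) : ℂ) • m p) := by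
    apply IdB_rsm _ hm
    have h1 : ContDiff ℝ ∞ (phiK (M := M)) := contDiff_phiK
    have h2 : ContDiff ℝ ∞ (fun p : En M × En M => -(phiK p) / t) := h1.neg.div_const t
    exact Real.contDiff_exp.comp h2
  have e1 : (fun p : En M × En M => ((t ^ j * Real.exp (-(phiK p) / t) : ℝ) : ℂ) • m p) =
      fun p => ((t ^ j : ℝ) : ℂ) • (((Real.exp (-(phiK p) / t) : ℝ) : ℂ) • m p) := by
    funext p
    rw [smul_smul, ← Complex.ofReal_mul]
  rw [e1, 𝔇.opK_csmul _ hs]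
  simp only
  rw [𝔇.opK_exp ht hm p, smul_sub, smul_sub, smul_smul, smul_smul, smul_smul]
  have h3 : t ^ (j - 1) = t ^ j * t⁻¹ := by
    rw [zpow_sub_one₀ ht.ne']
  rw [h3]
  push_cast
  congr 2
  ring

theorem opK_ev (h : FS k) {t : ℝ} (ht : 0 < t) : 𝔇.opK (ev k t) = ev (𝔇.fD k) t := by
  obtain ⟨h1, J, h2⟩ := h
  have e : ev k t = fun p => ∑ j ∈ Finset.Icc (-(J : ℤ)) J,
      (fun p => ((t ^ j * Real.exp (-(phiK p) / t) : ℝ) : ℂ) • k j p) p := by
    funext p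
    exact ev_eq_sum h2 t p
  rw [e, 𝔇.opK_sum _ (fun j _ => IdB_rsm (IdB_smc j t) (h1 j))]
  funext p
  have e2 : ∀ j ∈ Finset.Icc (-(J : ℤ)) J,
      𝔇.opK (fun p => ((t ^ j * Real.exp (-(phiK p) / t) : ℝ) : ℂ) • k j p) p =
      ((t ^ j * Real.exp (-(phiK p) / t) : ℝ) : ℂ) • 𝔇.opK (k j) p -
      ((t ^ (j - 1) * Real.exp (-(phiK p) / t) : ℝ) : ℂ) • (𝔇.Cg p * k j p) :=
    fun j _ => 𝔇.IdB_term ht j (h1 j) p
  rw [Finset.sum_congr rfl e2]
  have hz : ∀ j : ℤ, (J : ℤ) < |j| → 𝔇.opK (k j) p = 0 := by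
    intro j hj
    rw [h2 j hj]
    exact congrFun 𝔇.opK_zero p
  have hA : ∀ j : ℤ, (J : ℤ) < |j| →
      ((t ^ j * Real.exp (-(phiK p) / t) : ℝ) : ℂ) • 𝔇.opK (k j) p = 0 := by
    intro j hj
    rw [hz j hj, smul_zero]
  have hB : ∀ j : ℤ, (J : ℤ) < |j| →
      ((t ^ (j - 1) * Real.exp (-(phiK p) / t) : ℝ) : ℂ) • (𝔇.Cg p * k j p) = 0 := by
    intro j hj
    rw [h2 j hj, Pi.zero_apply, mul_zero, smul_zero]
  have hAB : ∀ j : ℤ, (J : ℤ) < |j| →
      ((t ^ j * Real.exp (-(phiK p) / t) : ℝ) : ℂ) • 𝔇.opK (k j) p -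
      ((t ^ (j - 1) * Real.exp (-(phiK p) / t) : ℝ) : ℂ) • (𝔇.Cg p * k j p) = 0 := by
    intro j hj
    rw [hA j hj, hB j hj, sub_zero]
  rw [← finsum_eq_sum_of_support_subset _ (IdB_supp hAB),
    finsum_sub_distrib (IdB_fin hA) (IdB_fin hB)]
  rw [← IdB_shift (fun j : ℤ => ((t ^ (j - 1) * Real.exp (-(phiK p) / t) : ℝ) : ℂ) •
    (𝔇.Cg p * k j p)) 1, ← finsum_sub_distrib (IdB_fin hA) (IdB_shiftfin 1 (IdB_fin hB))]
  unfold ev
  apply finsum_congr
  intro j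
  simp only [Dirac.fD, Pi.sub_apply, smul_sub, add_sub_cancel_right]

private theorem IdB_phi_swap (p : En M × En M) : phiK (p.2, p.1) = phiK p := by
  unfold phiK
  simp only
  rw [norm_sub_rev]

theorem adjK_ev (h : FS k) (t : ℝ) : adjK (ev k t) = ev (fA k) t := by
  funext p
  have h' := FS.fA h
  obtain ⟨h1, J, h2⟩ := h
  obtain ⟨h1', J', h2'⟩ := h'
  have e1 : ∀ j : ℤ, ((max J J' : ℕ) : ℤ) < |j| → k j = 0 := fun j hj =>
    h2 j (lt_of_le_of_lt (by exact_mod_cast le_max_left J J') hj)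
  have e2 : ∀ j : ℤ, ((max J J' : ℕ) : ℤ) < |j| → (fA k) j = 0 := fun j hj =>
    h2' j (lt_of_le_of_lt (by exact_mod_cast le_max_right J J') hj)
  rw [ev_eq_sum e2]
  unfold adjK
  rw [ev_eq_sum e1, map_sum]
  apply Finset.sum_congr rfl
  intro j _
  rw [map_smulₛₗ, Complex.conj_ofReal, IdB_phi_swap]
  rfl

theorem opR_ev (h : FS k) {t : ℝ} (ht : 0 < t) : 𝔇.opR (ev k t) = ev (𝔇.fR k) t := by
  unfold Dirac.opR
  rw [adjK_ev h, 𝔇.opK_ev (FS.fA h) ht, adjK_ev (FS.fD 𝔇 (FS.fA h))]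
  rfl

theorem hasDerivAt_ev (h : FS k) {t : ℝ} (ht : 0 < t) (p : En M × En M) :
    HasDerivAt (fun t => ev k t p) (ev (fT k) t p) t := by
  obtain ⟨h1, J, h2⟩ := h
  have e : (fun t => ev k t p) = fun t => ∑ j ∈ Finset.Icc (-(J : ℤ)) J,
      ((t ^ j * Real.exp (-(phiK p) / t) : ℝ) : ℂ) • k j p := by
    funext t
    exact ev_eq_sum h2 t p
  rw [e]
  have hd : ∀ j ∈ Finset.Icc (-(J : ℤ)) J,
      HasDerivAt (fun t : ℝ => ((t ^ j * Real.exp (-(phiK p) / t) : ℝ) : ℂ) • k j p)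
        (((t ^ (j - 1) * Real.exp (-(phiK p) / t) : ℝ) : ℂ) • ((j : ℂ) • k j p) +
          ((t ^ (j - 2) * Real.exp (-(phiK p) / t) : ℝ) : ℂ) • (((phiK p : ℝ) : ℂ) • k j p)) t := by
    intro j _
    have d1 : HasDerivAt (fun t : ℝ => t ^ j) ((j : ℝ) * t ^ (j - 1)) t :=
      hasDerivAt_zpow j t (Or.inl ht.ne')
    have d2 : HasDerivAt (fun t : ℝ => -(phiK p) / t) (phiK p / t ^ 2) t := by
      have d3 := (hasDerivAt_inv ht.ne').const_mul (-(phiK p))
      have e3 : -(phiK p) * -(t ^ 2)⁻¹ = phiK p / t ^ 2 := by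
        field_simp
      rw [e3] at d3
      simpa only [div_eq_mul_inv] using d3
    have d4 := (d1.mul d2.exp).ofReal_comp.smul_const (k j p)
    refine d4.congr_deriv ?_
    rw [smul_smul, smul_smul, ← add_smul]
    congr 1
    have h3 : t ^ (j - 2) = t ^ j / t ^ 2 := by
      rw [zpow_sub₀ ht.ne']
      norm_cast
    rw [h3]
    push_cast
    ring
  refine (HasDerivAt.fun_sum hd).congr_deriv ?_
  have hA : ∀ j : ℤ, (J : ℤ) < |j| →
      ((t ^ (j - 1) * Real.exp (-(phiK p) / t) : ℝ) : ℂ) • ((j : ℂ) • k j p) = 0 := by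
    intro j hj
    rw [h2 j hj, Pi.zero_apply, smul_zero, smul_zero]
  have hB : ∀ j : ℤ, (J : ℤ) < |j| →
      ((t ^ (j - 2) * Real.exp (-(phiK p) / t) : ℝ) : ℂ) • (((phiK p : ℝ) : ℂ) • k j p) = 0 := by
    intro j hj
    rw [h2 j hj, Pi.zero_apply, smul_zero, smul_zero]
  have hAB : ∀ j : ℤ, (J : ℤ) < |j| →
      ((t ^ (j - 1) * Real.exp (-(phiK p) / t) : ℝ) : ℂ) • ((j : ℂ) • k j p) +
      ((t ^ (j - 2) * Real.exp (-(phiK p) / t) : ℝ) : ℂ) • (((phiK p : ℝ) : ℂ) • k j p) = 0 := by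
    intro j hj
    rw [hA j hj, hB j hj, add_zero]
  rw [← finsum_eq_sum_of_support_subset _ (IdB_supp hAB),
    finsum_add_distrib (IdB_fin hA) (IdB_fin hB)]
  rw [← IdB_shift (fun j : ℤ => ((t ^ (j - 1) * Real.exp (-(phiK p) / t) : ℝ) : ℂ) •
    ((j : ℂ) • k j p)) 1,
    ← IdB_shift (fun j : ℤ => ((t ^ (j - 2) * Real.exp (-(phiK p) / t) : ℝ) : ℂ) •
    (((phiK p : ℝ) : ℂ) • k j p)) 2,
    ← finsum_add_distrib (IdB_shiftfin 1 (IdB_fin hA)) (IdB_shiftfin 2 (IdB_fin hB))]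
  unfold ev
  apply finsum_congr
  intro j
  simp only [Dirac.fT, smul_add, add_sub_cancel_right]

theorem continuousOn_ev (h : FS k) :
    ContinuousOn (fun q : ℝ × (En M × En M) => ev k q.1 q.2) (Set.Ioi 0 ×ˢ Set.univ) := by
  obtain ⟨h1, J, h2⟩ := h
  have e : (fun q : ℝ × (En M × En M) => ev k q.1 q.2) = fun q =>
      ∑ j ∈ Finset.Icc (-(J : ℤ)) J,
      ((q.1 ^ j * Real.exp (-(phiK q.2) / q.1) : ℝ) : ℂ) • k j q.2 := by
    funext q
    exact ev_eq_sum h2 q.1 q.2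
  rw [e]
  apply continuousOn_finsetSum
  intro j _
  have hk : Continuous (k j) := (h1 j).continuous
  have hphi : Continuous (phiK (M := M)) := (contDiff_phiK (M := M)).continuous
  have hne : ∀ q ∈ (Set.Ioi (0 : ℝ)) ×ˢ (Set.univ : Set (En M × En M)), q.1 ≠ 0 := by
    intro q hq
    exact (ne_of_gt hq.1)
  refine ContinuousOn.smul (f := fun a : ℝ × (En M × En M) =>
    (((a.1 ^ j * Real.exp (-(phiK a.2) / a.1) : ℝ)) : ℂ)) (g := fun a => k j a.2) ?_ ?_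
  · apply Complex.continuous_ofReal.comp_continuousOn
    apply ContinuousOn.mul
    · exact ContinuousOn.zpow₀ continuousOn_fst j (fun q hq => Or.inl (hne q hq))
    · apply Real.continuous_exp.comp_continuousOn
      exact ContinuousOn.div (hphi.comp continuous_snd).neg.continuousOn continuousOn_fst hne
  · exact (hk.comp continuous_snd).continuousOn

private theorem IdB_poly {J : ℕ} {c : ℤ → ℂ}
    (h : ∀ t : ℝ, 0 < t → ∑ j ∈ Finset.Icc (-(J : ℤ)) J, ((t ^ j : ℝ) : ℂ) * c j = 0) :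
    ∀ j ∈ Finset.Icc (-(J : ℤ)) J, c j = 0 := by
  classical
  let P : Polynomial ℂ := ∑ j ∈ Finset.Icc (-(J : ℤ)) J, Polynomial.monomial (j + J).toNat (c j)
  have hev : ∀ t : ℝ, 0 < t → P.eval (t : ℂ) = 0 := by
    intro t ht
    have e1 : P.eval (t : ℂ) = ((t ^ (J : ℤ) : ℝ) : ℂ) *
        ∑ j ∈ Finset.Icc (-(J : ℤ)) J, ((t ^ j : ℝ) : ℂ) * c j := by
      simp only [P, Polynomial.eval_finsetSum, Polynomial.eval_monomial]
      rw [Finset.mul_sum]
      apply Finset.sum_congr rfl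
      intro j hj
      rw [Finset.mem_Icc] at hj
      have e2 : ((t : ℂ)) ^ (j + J).toNat = ((t ^ (J : ℤ) : ℝ) : ℂ) * ((t ^ j : ℝ) : ℂ) := by
        rw [← Complex.ofReal_mul, ← zpow_add₀ ht.ne', ← Complex.ofReal_pow]
        congr 1
        rw [← zpow_natCast, Int.toNat_of_nonneg (by linarith), add_comm]
      rw [e2]
      ring
    rw [e1, h t ht, mul_zero]
  have hP : P = 0 := by
    apply Polynomial.eq_zero_of_infinite_isRoot
    apply Set.Infinite.mono (s := (fun t : ℝ => (t : ℂ)) '' Set.Ioi 0)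
    · rintro _ ⟨t, ht, rfl⟩
      exact hev t ht
    · exact (Set.Ioi_infinite 0).image (Complex.ofReal_injective.injOn)
  intro j hj
  have hc : P.coeff (j + J).toNat = c j := by
    simp only [P, Polynomial.finsetSum_coeff, Polynomial.coeff_monomial]
    rw [Finset.sum_eq_single j]
    · rw [if_pos rfl]
    · intro i hi hij
      rw [if_neg]
      rw [Finset.mem_Icc] at hi hj
      intro hh
      apply hij
      omega
    · intro hn
      exact absurd hj hn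
  rw [← hc, hP, Polynomial.coeff_zero]

theorem ev_inj (h : FS k) (h' : FS k') {p : En M × En M}
    (e : ∀ t : ℝ, 0 < t → ev k t p = ev k' t p) (j : ℤ) : k j p = k' j p := by
  obtain ⟨h1, J, h2⟩ := FS.sub h h'
  have hz : ∀ t : ℝ, 0 < t → ∑ j ∈ Finset.Icc (-(J : ℤ)) J, ((t ^ j : ℝ) : ℂ) • (k - k') j p = 0 := by
    intro t ht
    have h3 := ev_sub h h' t p
    rw [e t ht, sub_self, ev_eq_sum h2] at h3
    have h4 : ∑ j ∈ Finset.Icc (-(J : ℤ)) J,
        ((t ^ j * Real.exp (-(phiK p) / t) : ℝ) : ℂ) • (k - k') j p =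
        ((Real.exp (-(phiK p) / t) : ℝ) : ℂ) •
          ∑ j ∈ Finset.Icc (-(J : ℤ)) J, ((t ^ j : ℝ) : ℂ) • (k - k') j p := by
      rw [Finset.smul_sum]
      apply Finset.sum_congr rfl
      intro j _
      rw [smul_smul, ← Complex.ofReal_mul, mul_comm]
    rw [h4] at h3
    have h5 : ((Real.exp (-(phiK p) / t) : ℝ) : ℂ) ≠ 0 := by
      exact_mod_cast (Real.exp_pos _).ne'
    exact (smul_eq_zero.mp h3).resolve_left h5
  have key : (k - k') j p = 0 := by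
    by_cases hj : j ∈ Finset.Icc (-(J : ℤ)) J
    · ext w
      rw [zero_apply, ← inner_self_eq_zero (𝕜 := ℂ)]
      have h6 := IdB_poly (J := J) (c := fun i => inner ℂ ((k - k') j p w) ((k - k') i p w)) (by
        intro t ht
        have h7 := congrArg (fun L : H →L[ℂ] H => inner ℂ ((k - k') j p w) (L w)) (hz t ht)
        simp only [sum_apply, smul_apply,
          inner_sum, inner_smul_right, zero_apply, inner_zero_right] at h7
        exact h7)
      exact h6 j hj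
    · have h8 : (J : ℤ) < |j| := by
        rw [Finset.mem_Icc, not_and_or, not_le, not_le] at hj
        rcases hj with hj | hj
        · rw [lt_abs]; right; linarith
        · rw [lt_abs]; left; exact hj
      rw [h2 j h8]
      rfl
  exact sub_eq_zero.mp key

theorem QL_ev (h : FS k) (hQ : ∀ j, 𝔇.QL (k j)) (t : ℝ) : 𝔇.QL (ev k t) := by
  intro x hx y hy
  obtain ⟨h1, J, h2⟩ := h
  rw [ev_eq_sum h2, Finset.mul_sum]
  apply Finset.sum_congr rfl
  intro j _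
  rw [mul_smul_comm, hQ j x hx y hy]

theorem QR_ev (h : FS k) (hQ : ∀ j, 𝔇.QR (k j)) (t : ℝ) : 𝔇.QR (ev k t) := by
  intro x hx y hy
  obtain ⟨h1, J, h2⟩ := h
  rw [ev_eq_sum h2, Finset.sum_mul]
  apply Finset.sum_congr rfl
  intro j _
  rw [smul_mul_assoc, hQ j x hx y hy]

private theorem IdB_csm (c : ℂ) {m : KF M H} (h : ContDiff ℝ ∞ m) :
    ContDiff ℝ ∞ (fun p => c • m p) :=
  (Van.csmul (V := (∅ : Set (En M))) (q := 0) c h).contDiff

theorem fD_fT (h : FS k) : 𝔇.fD (fT k) = fT (𝔇.fD k) := by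
  funext j p
  have a1 := IdB_csm ((j + 1 : ℤ) : ℂ) (h.1 (j + 1))
  have a2 := IdB_rsm (contDiff_phiK (M := M)) (h.1 (j + 2))
  have e1 : 𝔇.opK (fT k j) p = ((j + 1 : ℤ) : ℂ) • 𝔇.opK (k (j + 1)) p +
      (((phiK p : ℝ) : ℂ) • 𝔇.opK (k (j + 2)) p + 𝔇.Cg p * k (j + 2) p) := by
    have e2 := congrFun (𝔇.opK_add a1 a2) p
    have e3 := congrFun (𝔇.opK_csmul ((j + 1 : ℤ) : ℂ) (h.1 (j + 1))) p
    have e4 := 𝔇.opK_phi (h.1 (j + 2)) p
    rw [← e4]
    exact e2.trans (congrArg (fun z => z + _) e3)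
  have e5 : j + 1 + 1 = j + 2 := by ring
  have e6 : j + 1 + 2 = j + 3 := by ring
  have e7 : j + 2 + 1 = j + 3 := by ring
  have e9 : 𝔇.fD (fT k) j p = 𝔇.opK (fT k j) p - 𝔇.Cg p * fT k (j + 1) p := rfl
  rw [e9, e1]
  simp only [Dirac.fT, Dirac.fD, Pi.sub_apply, e5, e6, e7, mul_add, mul_smul_comm, smul_sub]
  have e8 : ((j + 2 : ℤ) : ℂ) = ((j + 1 : ℤ) : ℂ) + 1 := by push_cast; ring
  rw [e8, add_smul, one_smul]
  abel

private theorem IdB_fA_fT : fA (fT k) = fT (fA k) := by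
  funext j p
  simp only [Dirac.fA, Dirac.fT, adjK, map_add, map_smulₛₗ, Complex.conj_ofReal, map_intCast,
    IdB_phi_swap]

theorem fR_fT (h : FS k) : 𝔇.fR (fT k) = fT (𝔇.fR k) := by
  unfold Dirac.fR
  rw [IdB_fA_fT, 𝔇.fD_fT (FS.fA h), IdB_fA_fT]

theorem fD_fR (h : FS k) : 𝔇.fD (𝔇.fR k) = 𝔇.fR (𝔇.fD k) := by
  funext j p
  refine ev_inj (FS.fD 𝔇 (FS.fR 𝔇 h)) (FS.fR 𝔇 (FS.fD 𝔇 h)) (fun t ht => ?_) j
  rw [← 𝔇.opK_ev (FS.fR 𝔇 h) ht, ← 𝔇.opR_ev h ht, 𝔇.opK_opR (contDiff_ev h ht), 𝔇.opK_ev h ht,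
    𝔇.opR_ev (FS.fD 𝔇 h) ht]

theorem fL_fD (h : FS k) : 𝔇.fL (𝔇.fD k) = 𝔇.fD (𝔇.fL k) := by
  unfold Dirac.fL
  rw [𝔇.fD_add (FS.fT h) (FS.fD 𝔇 (FS.fD 𝔇 h)), 𝔇.fD_fT h]

theorem fL_fR (h : FS k) : 𝔇.fL (𝔇.fR k) = 𝔇.fR (𝔇.fL k) := by
  unfold Dirac.fL
  rw [𝔇.fR_add (FS.fT h) (FS.fD 𝔇 (FS.fD 𝔇 h)), 𝔇.fR_fT h, 𝔇.fD_fR h, 𝔇.fD_fR (FS.fD 𝔇 h)]

end Dirac

end Pool.Agent.EXO
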