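import Pool.Agent.EXO.IdB
import Pool.Agent.EXO.IcEul

/-!
Project EXO, chunk IDX-A, module IdC: leading terms and formal uniqueness.

PROOFS.  `hV : V.Good l`, so `n = 2 l`.
* `lead`: `fD (fD k) j = opK (opK k_j) - opK (Cg k_{j+1}) - Cg (opK k_{j+1}) + Cg (Cg k_{j+2})`
  (`opK_sub`).  On `V × V`, since `Q k = k`: `Cg (Cg k_{j+2}) = -(‖P v‖²/4) k_{j+2}` (`Cg_sq`), so
  `φ k_{j+2} + Cg (Cg k_{j+2}) = (φ - ‖P v‖²/4) k_{j+2} ∈ Van (4 + (w-n-2j-4).toNat)` (`van_phi4`),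
  which is contained in `Van (q+1)`.  By `eulerD` with `q = (w - n - 2(j+1)).toNat`,
  `- opK (Cg k_{j+1}) - Cg (opK k_{j+1}) = (q + l) k_{j+1}` mod `Van (q+1)`.  Add `(j+1) k_{j+1}`
  from `fT`.
* `uniq`: show `k j ∈ Van (w+1-n-2j).toNat` by upward induction on `j` (`k j = 0` for `j < -J`).
  Step `j → j+1`: if `w - n - 2(j+1) < 0` then `(w+1-n-2(j+1)).toNat = 0`.  Otherwise
  `q = w - n - 2(j+1)`; `fL k j ∈ Van (w-1-n-2j).toNat = Van (q+1)`, `opK (opK (k j)) ∈ Van (q+1)`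
  since `k j ∈ Van (q+3)` by induction (`van_opK` twice).  By `lead`
  `(j+1+q+l) k_{j+1} ∈ Van (q+1)` and `j+1+q+l = w - l - (j+1) > 0` because `2(j+1) ≤ w - 2l` and
  `w ≥ 1`; divide.
* `uniq0`: the same for `w = 0`: `j+1+q+l = -l-(j+1) > 0` for `j + 1 < -l`.  This gives the first
  statement.  For the second: for `j = -l`: `k (-l) ∈ Van 1` by `Van.of_diag`; for `j > -l` there is
  nothing to prove (`(1 - n - 2j).toNat = 0`); for `j < -l`: `(1-n-2j).toNat = (-n-2j).toNat + 1`.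
-/

set_option autoImplicit false
set_option maxSynthPendingDepth 3

open MeasureTheory
open scoped ContDiff

namespace Pool.Agent.EXO

namespace Dirac

variable {n M l : ℕ} {V : Geo n M} {H : Type} [NormedAddCommGroup H]
  [InnerProductSpace ℂ H] [FiniteDimensional ℂ H] (𝔇 : Dirac V H) {k k' : FK M H} {w w' : ℤ}

private theorem IdC_Cgmul {m : KF M H} (h : ContDiff ℝ ∞ m) :
    ContDiff ℝ ∞ (fun p => 𝔇.Cg p * m p) :=
  (Van.mul (V := V.carrier) (r := 0) (q := 0) (𝔇.contDiff_Cg) h).contDiff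

private theorem IdC_csm (c : ℂ) {m : KF M H} (h : ContDiff ℝ ∞ m) :
    ContDiff ℝ ∞ (fun p => c • m p) :=
  (Van.csmul (V := (∅ : Set (En M))) (q := 0) c h).contDiff

theorem lead (hV : V.Good l) (h : Cls V w k) (hQ : ∀ j, 𝔇.QL (k j)) (j : ℤ) (q : ℕ)
    (hq : q = (w - n - 2 * (j + 1)).toNat) :
    Van V.carrier (q + 1) (fun p => 𝔇.fL k j p - 𝔇.opK (𝔇.opK (k j)) p -
      ((j + 1 + q + l : ℤ) : ℂ) • k (j + 1) p) := by
  have hks := h.1.1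
  have hk1 : Van V.carrier q (k (j + 1)) := by rw [hq]; exact h.2 (j + 1)
  have he := 𝔇.eulerD hV hk1 (hQ (j + 1))
  have hphi := Van.rsmul_mul (van_phi4 hV) (h.2 (j + 2))
  have hphi' : Van V.carrier (q + 1) (fun p =>
      (((phiK p - ‖V.P p.1 (p.1 - p.2)‖ ^ 2 / 4 : ℝ)) : ℂ) • k (j + 2) p) :=
    hphi.mono (by omega)
  have hsum := he.neg.add hphi'
  refine hsum.congr ?_ ?_
  · have a1 : ContDiff ℝ ∞ (𝔇.fL k j) := (FS.fL 𝔇 h.1).1 j
    have a2 : ContDiff ℝ ∞ (𝔇.opK (𝔇.opK (k j))) := 𝔇.contDiff_opK (𝔇.contDiff_opK (hks j))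
    exact (a1.sub a2).sub (IdC_csm ((j + 1 + q + l : ℤ) : ℂ) (hks (j + 1)))
  · intro x hx y hy
    have e1 : 𝔇.fL k j (x, y) = ((j + 1 : ℤ) : ℂ) • k (j + 1) (x, y) +
        ((phiK (x, y) : ℝ) : ℂ) • k (j + 2) (x, y) + (𝔇.opK (𝔇.fD k j) (x, y) -
          𝔇.Cg (x, y) * 𝔇.fD k (j + 1) (x, y)) := rfl
    have e2 : 𝔇.opK (𝔇.fD k j) (x, y) = 𝔇.opK (𝔇.opK (k j)) (x, y) -
        𝔇.opK (fun p => 𝔇.Cg p * k (j + 1) p) (x, y) :=
      congrFun (𝔇.opK_sub (𝔇.contDiff_opK (hks j)) (𝔇.IdC_Cgmul (hks (j + 1)))) (x, y)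
    have e3 : 𝔇.fD k (j + 1) (x, y) = 𝔇.opK (k (j + 1)) (x, y) -
        𝔇.Cg (x, y) * k (j + 2) (x, y) := by
      have : (j + 1 + 1 : ℤ) = j + 2 := by ring
      show 𝔇.opK (k (j + 1)) (x, y) - 𝔇.Cg (x, y) * k (j + 1 + 1) (x, y) = _
      rw [this]
    have e4 : 𝔇.Cg (x, y) * (𝔇.Cg (x, y) * k (j + 2) (x, y)) =
        ((-(‖V.P x (x - y)‖ ^ 2 / 4) : ℝ) : ℂ) • k (j + 2) (x, y) := by
      rw [← mul_assoc, 𝔇.Cg_sq hx y, smul_mul_assoc]
      rw [hQ (j + 2) x hx y hy]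
    have e5 : (((phiK (x, y) - ‖V.P x (x - y)‖ ^ 2 / 4 : ℝ)) : ℂ) • k (j + 2) (x, y) =
        ((phiK (x, y) : ℝ) : ℂ) • k (j + 2) (x, y) +
          ((-(‖V.P x (x - y)‖ ^ 2 / 4) : ℝ) : ℂ) • k (j + 2) (x, y) := by
      rw [← add_smul]
      congr 1
      push_cast
      ring
    have e6 : ((j + 1 + q + l : ℤ) : ℂ) • k (j + 1) (x, y) =
        ((j + 1 : ℤ) : ℂ) • k (j + 1) (x, y) + ((q + l : ℕ) : ℂ) • k (j + 1) (x, y) := by
      rw [← add_smul]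
      congr 1
      push_cast
      ring
    show -(𝔇.opK (fun p => 𝔇.Cg p * k (j + 1) p) (x, y) + 𝔇.Cg (x, y) * 𝔇.opK (k (j + 1)) (x, y) +
      ((q + l : ℕ) : ℂ) • k (j + 1) (x, y)) +
      (((phiK (x, y) - ‖V.P x (x - y)‖ ^ 2 / 4 : ℝ)) : ℂ) • k (j + 2) (x, y) =
      𝔇.fL k j (x, y) - 𝔇.opK (𝔇.opK (k j)) (x, y) - ((j + 1 + q + l : ℤ) : ℂ) • k (j + 1) (x, y)
    rw [e1, e2, e3, mul_sub, e4, e5, e6]
    abel

private theorem IdC_step (hV : V.Good l) (h : Cls V w k) (hQ : ∀ j, 𝔇.QL (k j)) (j : ℤ) (q : ℕ)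
    (hq : q = (w - n - 2 * (j + 1)).toNat) (h1 : Van V.carrier (q + 1) (𝔇.fL k j))
    (h2 : Van V.carrier (q + 3) (k j)) (hc : (j + 1 + q + l : ℤ) ≠ 0) :
    Van V.carrier (q + 1) (k (j + 1)) := by
  have h3 := 𝔇.lead hV h hQ j q hq
  have h4 : Van V.carrier (q + 1) (𝔇.opK (𝔇.opK (k j))) :=
    𝔇.van_opK hV.loc (𝔇.van_opK hV.loc h2)
  have h5 := (h1.sub h4).sub h3
  have hc' : ((j + 1 + q + l : ℤ) : ℂ) ≠ 0 := by exact_mod_cast hc
  have h6 := h5.csmul (((j + 1 + q + l : ℤ) : ℂ)⁻¹)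
  have e : (fun p => (((j + 1 + q + l : ℤ) : ℂ)⁻¹) • (𝔇.fL k j p - 𝔇.opK (𝔇.opK (k j)) p -
      (𝔇.fL k j p - 𝔇.opK (𝔇.opK (k j)) p - ((j + 1 + q + l : ℤ) : ℂ) • k (j + 1) p)))
      = k (j + 1) := by
    funext p
    rw [sub_sub_cancel, smul_smul, inv_mul_cancel₀ hc', one_smul]
  rw [e] at h6
  exact h6

theorem uniq (hV : V.Good l) (hw : 1 ≤ w) (h : Cls V w k) (hQ : ∀ j, 𝔇.QL (k j))
    (hL : Cls V (w - 1) (𝔇.fL k)) : Cls V (w + 1) k := by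
  have hn := hV.dim
  obtain ⟨J, hJ⟩ := h.1.2
  have hlow : ∀ j : ℤ, j ≤ -(J : ℤ) - 1 → k j = 0 := by
    intro j hj
    apply hJ
    rw [abs_of_nonpos (by omega)]
    omega
  refine ⟨h.1, ?_⟩
  have hup : ∀ j : ℤ, -(J : ℤ) - 1 ≤ j → Van V.carrier (w + 1 - n - 2 * j).toNat (k j) := by
    intro j hj
    induction j, hj using Int.le_induction with
    | base =>
      rw [hlow _ le_rfl]
      exact Van.zero
    | succ j hj ih =>
      by_cases hc : w - n - 2 * (j + 1) < 0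
      · have e : (w + 1 - n - 2 * (j + 1)).toNat = 0 := by omega
        rw [e]
        exact h.1.1 (j + 1)
      · have e : (w + 1 - n - 2 * (j + 1)).toNat = (w - n - 2 * (j + 1)).toNat + 1 := by omega
        rw [e]
        apply 𝔇.IdC_step hV h hQ j _ rfl
        · exact (hL.2 j).mono (by omega)
        · exact ih.mono (by omega)
        · omega
  intro j
  by_cases hj : -(J : ℤ) - 1 ≤ j
  · exact hup j hj
  · rw [hlow j (by omega)]
    exact Van.zero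

theorem uniq0 (hV : V.Good l) (h : Cls V 0 k) (hQ : ∀ j, 𝔇.QL (k j))
    (hL : Cls V (-1) (𝔇.fL k)) :
    (∀ j : ℤ, j < -(l : ℤ) → Van V.carrier ((-(n : ℤ) - 2 * j).toNat + 1) (k j)) ∧
      ((∀ x ∈ V.carrier, k (-(l : ℤ)) (x, x) = 0) → Cls V 1 k) := by
  have hn := hV.dim
  obtain ⟨J, hJ⟩ := h.1.2
  have hlow : ∀ j : ℤ, j ≤ -(J : ℤ) - 1 → k j = 0 := by
    intro j hj
    apply hJ
    rw [abs_of_nonpos (by omega)]
    omega
  have hup : ∀ j : ℤ, -(J : ℤ) - 1 ≤ j → j < -(l : ℤ) →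
      Van V.carrier ((-(n : ℤ) - 2 * j).toNat + 1) (k j) := by
    intro j hj
    induction j, hj using Int.le_induction with
    | base =>
      intro _
      rw [hlow _ le_rfl]
      exact Van.zero
    | succ j hj ih =>
      intro hjl
      have ih' := ih (by omega)
      have e : (-(n : ℤ) - 2 * (j + 1)).toNat + 1 = (0 - (n : ℤ) - 2 * (j + 1)).toNat + 1 := by omega
      rw [e]
      apply 𝔇.IdC_step hV h hQ j _ rfl
      · exact (hL.2 j).mono (by omega)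
      · exact ih'.mono (by omega)
      · omega
  have hall : ∀ j : ℤ, j < -(l : ℤ) → Van V.carrier ((-(n : ℤ) - 2 * j).toNat + 1) (k j) := by
    intro j hjl
    by_cases hj : -(J : ℤ) - 1 ≤ j
    · exact hup j hj hjl
    · rw [hlow j (by omega)]
      exact Van.zero
  refine ⟨hall, fun hd => ⟨h.1, fun j => ?_⟩⟩
  rcases lt_trichotomy j (-(l : ℤ)) with hj | hj | hj
  · exact (hall j hj).mono (by omega)
  · have e : (1 - (n : ℤ) - 2 * j).toNat = 1 := by omega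
    rw [e, hj]
    exact Van.of_diag (h.1.1 _) hd
  · have e : (1 - (n : ℤ) - 2 * j).toNat = 0 := by omega
    rw [e]
    exact h.1.1 j

end Dirac

end Pool.Agent.EXO
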