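import Pool.Agent.EXO.IdC

/-!
Project EXO, chunk IDX-A, module IdD: existence of formal heat kernels of every order.

PROOFS.  `hV : V.Good l`, `n = 2 l`.
* `heat_k0`: `Cls V (-1) (fL (k0 l))`.  `k0 l ∈ Cls V 0` (`Cls_k0`), left and right `Q`-valued (`Q_idem`).
  By `lead` with `w = 0`, modulo `Van (q+1)`, `q = (-n-2(j+1)).toNat`, `fL k j` is
  `opK (opK (k j)) + (j+1+q+l) k (j+1)`.  We need `Van (-1-n-2j).toNat`.
  `j > -l - 1`, i.e. `j ≥ -l`: `(-1-n-2j).toNat = 0`: only smoothness (`FS.fL`).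
  `j ≤ -l-1`: `q = -n-2(j+1) ≥ 0` and `(-1-n-2j).toNat = q + 1`; `k j = 0`, so `opK (opK (k j)) = 0`;
  `j + 1 = -l`: `q = 0`, coefficient `j+1+q+l = 0`; `j + 1 < -l`: `k (j+1) = 0`.
* `solve`: given `r` with `Cls V (w-2) r`, left and right `Q`-valued, `w ≥ 1`, there is `p` with
  `Cls V w p`, left and right `Q`-valued and `Cls V (w-1) (fL p - r)`.
  Let `r j = 0` for `|j| > J`.  Define `p j` for `j ≥ -J` by recursion (put `g : ℕ → KF M H`,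
  `g 0 = 0`, `g (i+1) = (w - l - (i+1-J-1))⁻¹ • (r_{i-J-1} - opK (opK (g i)))`, say `p (j) = g (j+J+1)`
  for `j ≥ -J-1`): `p (j+1) := (w-l-(j+1))⁻¹ • (r j - opK (opK (p j)))` if `2 (j+1) ≤ w - n`, and
  `p (j+1) := 0` otherwise; `p j = 0` for `j < -J`.
  By induction `p j ∈ Van (w-n-2j).toNat`: `r j ∈ Van (w-2-n-2j).toNat = Van (w-n-2(j+1)).toNat`,
  and `opK (opK (p j))` is there too (`van_opK` twice, or smoothness).  `p (j+1)` is left and right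
  `Q`-valued on `V × V` (`QL_opK`, `QR_opK`).  By `lead` modulo `Van (q+1)`, `q = (w-n-2(j+1)).toNat`:
  `fL p j = opK (opK (p j)) + (j+1+q+l) p (j+1)`.  If `2(j+1) ≤ w-n`: `j+1+q+l = w-l-(j+1) ≠ 0` (it is
  `≥ w/2`), so `fL p j - r j ∈ Van (q+1) = Van (w-1-n-2j).toNat`.  Otherwise
  `w-1-n-2j < 1`, so only smoothness is needed.
* `exists_heat`: induction on `m ≥ -1` (write `m = i - 1`, `i : ℕ`): start with `k0 l`.  Given `k` for
  `m`, apply `solve` with `w = m + 2`, `r = - fL k` (`Cls V m`), and take `k + p` (`fL_add`);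
  `k + p - k0 = (k - k0) + p ∈ Cls V 1` since `w ≥ 1`.
-/

set_option autoImplicit false
set_option maxSynthPendingDepth 3

open MeasureTheory
open scoped ContDiff

namespace Pool.Agent.EXO

namespace Dirac

variable {n M l : ℕ} {V : Geo n M} {H : Type} [NormedAddCommGroup H]
  [InnerProductSpace ℂ H] [FiniteDimensional ℂ H] (𝔇 : Dirac V H) {k k' : FK M H} {w w' : ℤ}

private theorem IdD_opK_csmooth {m : KF M H} (h : ContDiff ℝ ∞ m) :
    ContDiff ℝ ∞ (𝔇.opK (𝔇.opK m)) := 𝔇.contDiff_opK (𝔇.contDiff_opK h)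

private theorem IdD_opK0 : 𝔇.opK (𝔇.opK (0 : KF M H)) = 0 := by
  have e : 𝔇.opK (0 : KF M H) = 0 := 𝔇.opK_zero
  rw [e, e]

private theorem IdD_k0_zero {j : ℤ} (hj : j ≠ -(l : ℤ)) : 𝔇.k0 l j = 0 := by
  funext p
  unfold Dirac.k0
  rw [if_neg hj]
  rfl

private theorem IdD_Cls_zero : Cls V w (0 : FK M H) :=
  ⟨⟨fun _ => contDiff_const, 0, fun _ _ => rfl⟩, fun _ => Van.zero⟩

/-- The solution of the transport equations. -/
private noncomputable def IdD_g (l : ℕ) (w : ℤ) (n' : ℤ) (J : ℕ) (r : FK M H) : ℕ → KF M H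
  | 0 => 0
  | i + 1 => if 2 * ((i : ℤ) - J) ≤ w - n' then
      fun p => (((w - l - ((i : ℤ) - J) : ℤ) : ℂ)⁻¹) •
        (r ((i : ℤ) - J - 1) p - 𝔇.opK (𝔇.opK (IdD_g l w n' J r i)) p)
    else 0

private noncomputable def IdD_p (l : ℕ) (w : ℤ) (n' : ℤ) (J : ℕ) (r : FK M H) : FK M H :=
  fun j => 𝔇.IdD_g l w n' J r (j + J + 1).toNat

private theorem IdD_p_low {l : ℕ} {w n' : ℤ} {J : ℕ} {r : FK M H} {j : ℤ}
    (hj : j ≤ -(J : ℤ) - 1) : 𝔇.IdD_p l w n' J r j = 0 := by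
  unfold IdD_p
  have e : (j + J + 1).toNat = 0 := by omega
  rw [e]
  rfl

private theorem IdD_p_rec {l : ℕ} {w n' : ℤ} {J : ℕ} {r : FK M H} {j : ℤ}
    (hj : -(J : ℤ) - 1 ≤ j) (hw : 2 * (j + 1) ≤ w - n') :
    𝔇.IdD_p l w n' J r (j + 1) = fun p => (((w - l - (j + 1) : ℤ) : ℂ)⁻¹) •
        (r j p - 𝔇.opK (𝔇.opK (𝔇.IdD_p l w n' J r j)) p) := by
  obtain ⟨i, hi⟩ : ∃ i : ℕ, j = (i : ℤ) - J - 1 := ⟨(j + J + 1).toNat, by omega⟩
  unfold IdD_p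
  have e1 : (j + 1 + J + 1).toNat = i + 1 := by omega
  have e2 : (j + J + 1).toNat = i := by omega
  have e3 : (w - l - (j + 1) : ℤ) = w - l - ((i : ℤ) - J) := by rw [hi]; ring
  rw [e1, e2, e3, hi]
  show (if 2 * ((i : ℤ) - J) ≤ w - n' then
      (fun p => (((w - l - ((i : ℤ) - J) : ℤ) : ℂ)⁻¹) •
        (r ((i : ℤ) - J - 1) p - 𝔇.opK (𝔇.opK (𝔇.IdD_g l w n' J r i)) p) : KF M H)
    else 0) = _
  rw [if_pos (by rw [hi] at hw; linarith)]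

private theorem IdD_p_high {l : ℕ} {w n' : ℤ} {J : ℕ} {r : FK M H} {j : ℤ}
    (hj : w - n' < 2 * j) : 𝔇.IdD_p l w n' J r j = 0 := by
  by_cases hl : j ≤ -(J : ℤ) - 1
  · exact 𝔇.IdD_p_low hl
  · obtain ⟨i, hi⟩ : ∃ i : ℕ, j = (i : ℤ) - J := ⟨(j + J).toNat, by omega⟩
    unfold IdD_p
    have e1 : (j + J + 1).toNat = i + 1 := by omega
    rw [e1]
    show (if 2 * ((i : ℤ) - J) ≤ w - n' then
      (fun p => (((w - l - ((i : ℤ) - J) : ℤ) : ℂ)⁻¹) •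
        (r ((i : ℤ) - J - 1) p - 𝔇.opK (𝔇.opK (𝔇.IdD_g l w n' J r i)) p) : KF M H)
      else 0) = _
    rw [if_neg (by rw [hi] at hj; linarith)]

private theorem IdD_QL (j : ℤ) : 𝔇.QL (𝔇.k0 l j) := by
  intro x hx y hy
  unfold Dirac.k0
  by_cases hj : j = -(l : ℤ)
  · rw [if_pos hj]
    show 𝔇.Q x * (𝔇.Q x * 𝔇.Q y) = 𝔇.Q x * 𝔇.Q y
    rw [← mul_assoc, 𝔇.Q_idem x hx]
  · rw [if_neg hj, mul_zero]

theorem heat_k0 (hV : V.Good l) : Cls V (-1) (𝔇.fL (𝔇.k0 l)) := by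
  have hn := hV.dim
  have hcl := 𝔇.Cls_k0 (V := V) hn
  refine ⟨FS.fL 𝔇 𝔇.FS_k0, fun j => ?_⟩
  by_cases hj : -(l : ℤ) ≤ j
  · have e : (-1 - (n : ℤ) - 2 * j).toNat = 0 := by omega
    rw [e]
    exact (FS.fL 𝔇 𝔇.FS_k0).1 j
  · rw [not_le] at hj
    have h3 := 𝔇.lead hV hcl 𝔇.IdD_QL j _ rfl
    have e : (-1 - (n : ℤ) - 2 * j).toNat = (0 - (n : ℤ) - 2 * (j + 1)).toNat + 1 := by omega
    rw [e]
    refine h3.congr ((FS.fL 𝔇 𝔇.FS_k0).1 j) fun x _ y _ => ?_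
    have e1 : 𝔇.opK (𝔇.opK (𝔇.k0 l j)) (x, y) = 0 := by
      rw [𝔇.IdD_k0_zero hj.ne, 𝔇.IdD_opK0]
      rfl
    have e2 : ((j + 1 + ((0 - (n : ℤ) - 2 * (j + 1)).toNat : ℕ) + l : ℤ) : ℂ) •
        𝔇.k0 l (j + 1) (x, y) = 0 := by
      by_cases hj1 : j + 1 = -(l : ℤ)
      · have e3 : (j + 1 + ((0 - (n : ℤ) - 2 * (j + 1)).toNat : ℕ) + l : ℤ) = 0 := by omega
        rw [e3, Int.cast_zero, zero_smul]
      · rw [𝔇.IdD_k0_zero hj1]
        exact smul_zero _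
    rw [e1, e2, sub_zero, sub_zero]

theorem QL_k0 (j : ℤ) : 𝔇.QL (𝔇.k0 l j) := by
  intro x hx y hy
  unfold Dirac.k0
  by_cases hj : j = -(l : ℤ)
  · rw [if_pos hj]
    show 𝔇.Q x * (𝔇.Q x * 𝔇.Q y) = 𝔇.Q x * 𝔇.Q y
    rw [← mul_assoc, 𝔇.Q_idem x hx]
  · rw [if_neg hj, mul_zero]

theorem QR_k0 (j : ℤ) : 𝔇.QR (𝔇.k0 l j) := by
  intro x hx y hy
  unfold Dirac.k0
  by_cases hj : j = -(l : ℤ)
  · rw [if_pos hj]
    show 𝔇.Q x * 𝔇.Q y * 𝔇.Q y = 𝔇.Q x * 𝔇.Q y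
    rw [mul_assoc, 𝔇.Q_idem y hy]
  · rw [if_neg hj, zero_mul]

theorem solve (hV : V.Good l) (hw : 1 ≤ w) {r : FK M H} (hr : Cls V (w - 2) r)
    (hL : ∀ j, 𝔇.QL (r j)) (hR : ∀ j, 𝔇.QR (r j)) :
    ∃ p : FK M H, Cls V w p ∧ (∀ j, 𝔇.QL (p j)) ∧ (∀ j, 𝔇.QR (p j)) ∧
      Cls V (w - 1) (𝔇.fL p - r) := by
  have hn := hV.dim
  obtain ⟨J, hJ⟩ := hr.1.2
  obtain ⟨p, hp⟩ : ∃ p : FK M H, p = 𝔇.IdD_p l w n J r := ⟨_, rfl⟩
  have hlow : ∀ j : ℤ, j ≤ -(J : ℤ) - 1 → p j = 0 := by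
    intro j hj
    rw [hp]
    exact 𝔇.IdD_p_low hj
  have hhigh : ∀ j : ℤ, w - n < 2 * j → p j = 0 := by
    intro j hj
    rw [hp]
    exact 𝔇.IdD_p_high hj
  have hrec : ∀ j : ℤ, -(J : ℤ) - 1 ≤ j → 2 * (j + 1) ≤ w - n →
      p (j + 1) = fun z => (((w - l - (j + 1) : ℤ) : ℂ)⁻¹) •
        (r j z - 𝔇.opK (𝔇.opK (p j)) z) := by
    intro j h1 h2
    rw [hp]
    exact 𝔇.IdD_p_rec h1 h2
  have hup : ∀ j : ℤ, -(J : ℤ) - 1 ≤ j → Van V.carrier (w - n - 2 * j).toNat (p j) ∧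
      𝔇.QL (p j) ∧ 𝔇.QR (p j) := by
    intro j hj
    induction j, hj using Int.le_induction with
    | base =>
      rw [hlow _ le_rfl]
      exact ⟨Van.zero, fun x _ y _ => mul_zero _, fun x _ y _ => zero_mul _⟩
    | succ j hj ih =>
      obtain ⟨ih1, ih2, ih3⟩ := ih
      by_cases hc : 2 * (j + 1) ≤ w - n
      · rw [hrec j hj hc]
        have hs : ContDiff ℝ ∞ (p j) := ih1.contDiff
        have hs1 : ContDiff ℝ ∞ (𝔇.opK (p j)) := 𝔇.contDiff_opK hs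
        refine ⟨?_, ?_, ?_⟩
        · apply Van.csmul
          apply Van.sub
          · exact (hr.2 j).mono (by omega)
          · apply 𝔇.van_opK hV.loc
            apply 𝔇.van_opK hV.loc
            exact ih1.mono (by omega)
        · intro x hx y hy
          have a1 := hL j x hx y hy
          have a2 := 𝔇.QL_opK hs1 x hx y hy
          show 𝔇.Q x * (_ • (r j (x, y) - 𝔇.opK (𝔇.opK (p j)) (x, y))) = _
          rw [mul_smul_comm, mul_sub, a1, a2]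
        · intro x hx y hy
          have a1 := hR j x hx y hy
          have a2 := 𝔇.QR_opK hV.loc hs1 (𝔇.QR_opK hV.loc hs ih3) x hx y hy
          show (_ • (r j (x, y) - 𝔇.opK (𝔇.opK (p j)) (x, y))) * 𝔇.Q y = _
          rw [smul_mul_assoc, sub_mul, a1, a2]
      · rw [hhigh (j + 1) (by omega)]
        exact ⟨Van.zero, fun x _ y _ => mul_zero _, fun x _ y _ => zero_mul _⟩
  have hall : ∀ j : ℤ, Van V.carrier (w - n - 2 * j).toNat (p j) ∧ 𝔇.QL (p j) ∧ 𝔇.QR (p j) := by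
    intro j
    by_cases hj : -(J : ℤ) - 1 ≤ j
    · exact hup j hj
    · rw [hlow j (by omega)]
      exact ⟨Van.zero, fun x _ y _ => mul_zero _, fun x _ y _ => zero_mul _⟩
  have hFS : FS p := by
    refine ⟨fun j => (hall j).1.contDiff, J + (w - n).natAbs + 1, fun j hj => ?_⟩
    push_cast at hj
    have hab1 := le_abs_self (w - n)
    have hab2 := abs_nonneg (w - n)
    rcases abs_cases j with ⟨h1, h2⟩ | ⟨h1, h2⟩
    · apply hhigh
      omega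
    · apply hlow
      omega
  have hCls : Cls V w p := ⟨hFS, fun j => (hall j).1⟩
  refine ⟨p, hCls, fun j => (hall j).2.1, fun j => (hall j).2.2,
    (FS.fL 𝔇 hFS).sub hr.1, fun j => ?_⟩
  have hsm : ContDiff ℝ ∞ (fun z => 𝔇.fL p j z - r j z) := ((FS.fL 𝔇 hFS).1 j).sub (hr.1.1 j)
  by_cases hc : 2 * (j + 1) ≤ w - n
  · have h3 := 𝔇.lead hV hCls (fun j => (hall j).2.1) j _ rfl
    have e : (w - 1 - n - 2 * j).toNat = (w - n - 2 * (j + 1)).toNat + 1 := by omega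
    rw [e]
    refine h3.congr hsm fun x hx y hy => ?_
    have e1 : (j + 1 + ((w - n - 2 * (j + 1)).toNat : ℕ) + l : ℤ) = w - l - (j + 1) := by omega
    have e2 : ((w - l - (j + 1) : ℤ) : ℂ) ≠ 0 := by
      have : (w - l - (j + 1) : ℤ) ≠ 0 := by omega
      exact_mod_cast this
    have e3 : ((w - l - (j + 1) : ℤ) : ℂ) • p (j + 1) (x, y) =
        r j (x, y) - 𝔇.opK (𝔇.opK (p j)) (x, y) := by
      by_cases hj : -(J : ℤ) - 1 ≤ j
      · rw [hrec j hj hc, smul_smul, mul_inv_cancel₀ e2, one_smul]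
      · have f1 : r j = 0 := hJ j (by rw [abs_of_nonpos (by omega)]; omega)
        rw [hlow (j + 1) (by omega), hlow j (by omega), f1, 𝔇.IdD_opK0]
        simp
    show 𝔇.fL p j (x, y) - 𝔇.opK (𝔇.opK (p j)) (x, y) -
      ((j + 1 + ((w - n - 2 * (j + 1)).toNat : ℕ) + l : ℤ) : ℂ) • p (j + 1) (x, y) =
      𝔇.fL p j (x, y) - r j (x, y)
    rw [e1, e3]
    abel
  · have e : (w - 1 - n - 2 * j).toNat = 0 := by omega
    rw [e]
    exact hsm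

theorem exists_heat (hV : V.Good l) (m : ℕ) : ∃ k : FK M H, 𝔇.IsHeat l m k := by
  have key : ∀ i : ℕ, ∃ k : FK M H, 𝔇.IsHeat l ((i : ℤ) - 1) k := by
    intro i
    induction i with
    | zero =>
      refine ⟨𝔇.k0 l, 𝔇.FS_k0, 𝔇.QL_k0, 𝔇.QR_k0, ?_, ?_⟩
      · rw [sub_self]
        exact IdD_Cls_zero
      · exact Cls.mono (by simp) (𝔇.heat_k0 hV)
    | succ i ih =>
      obtain ⟨k, hk⟩ := ih
      obtain ⟨p, hp1, hp2, hp3, hp4⟩ := 𝔇.solve hV (w := (i : ℤ) + 1) (by omega)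
        (r := 0 - 𝔇.fL k) (Cls.mono (by omega) (Cls.sub IdD_Cls_zero hk.heat))
        (fun j x hx y hy => by
          show 𝔇.Q x * (0 - 𝔇.fL k j (x, y)) = 0 - 𝔇.fL k j (x, y)
          rw [mul_sub, mul_zero, 𝔇.QL_fL hk.fs hk.ql j x hx y hy])
        (fun j x hx y hy => by
          show (0 - 𝔇.fL k j (x, y)) * 𝔇.Q y = 0 - 𝔇.fL k j (x, y)
          rw [sub_mul, zero_mul, 𝔇.QR_fL hV.loc hk.fs hk.qr j x hx y hy])
      refine ⟨k + p, hk.fs.add hp1.1, ?_, ?_, ?_, ?_⟩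
      · intro j x hx y hy
        show 𝔇.Q x * (k j (x, y) + p j (x, y)) = k j (x, y) + p j (x, y)
        rw [mul_add, hk.ql j x hx y hy, hp2 j x hx y hy]
      · intro j x hx y hy
        show (k j (x, y) + p j (x, y)) * 𝔇.Q y = k j (x, y) + p j (x, y)
        rw [add_mul, hk.qr j x hx y hy, hp3 j x hx y hy]
      · have e : k + p - 𝔇.k0 l = (k - 𝔇.k0 l) + p := by abel
        rw [e]
        exact Cls.add hk.lead (Cls.mono (by omega) hp1)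
      · have e : 𝔇.fL (k + p) = 𝔇.fL p - (0 - 𝔇.fL k) := by
          rw [𝔇.fL_add hk.fs hp1.1]
          abel
        rw [e]
        exact Cls.mono (by push_cast; omega) hp4
  obtain ⟨k, hk⟩ := key (m + 1)
  have e : ((m + 1 : ℕ) : ℤ) - 1 = m := by push_cast; ring
  rw [e] at hk
  exact ⟨k, hk⟩

end Dirac

end Pool.Agent.EXO
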