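import Pool.Agent.EXO.IdD

/-!
Project EXO, chunk IDX-A, module IdE: the commutator `W = D K - K D` of a formal heat kernel.

PROOFS.  `h : 𝔇.IsHeat l m k`, `W := fD k - fR k`.
* `W_Q`: `QL_fD`, `QL_fR`.
* `W_heat`: `fL W = fL (fD k) - fL (fR k) = fD (fL k) - fR (fL k)` (`fL_sub`, `fL_fD`, `fL_fR`), in
  `Cls (m-1)` (`Cls.fD`, `Cls.fR`).
* `W_cls0`: `k = k0 + (k - k0)`; `fD (k-k0) - fR (k-k0) ∈ Cls 0` (`h.lead`).  For `k0`: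
  `fD k0`: coefficient `j = -l`: `opK (Q(x)Q(y))`, smooth, needs `Van (-n+2l).toNat = Van 0`;
  `j = -l-1`: `- Cg(x,y) Q(x) Q(y)`.
  `fR k0 = fA (fD (fA k0))`, on `V × V` `fA k0 = k0` (`Q_sa`), so (`opR_congr`-type argument) on
  `V × V` `fR k0 (-l-1) = adjK (- Cg k0)`, i.e. at `(x,y)`: `-(Cg(y,x) Q(y) Q(x))*`.
  So for `j = -l-1` the difference is `-(Cg(x,y) Q(x) Q(y)) + (Cg(y,x) Q(y) Q(x))*`, which must be
  `Van (-n+2l+2).toNat = Van 2`.  On `V`: `Cg(x,y) = (1/2) cP x v Q x`, `v = x - y` (`Cg_eq`), and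
  `(Cg(y,x) Q(y) Q(x))* = (1/2) (cP y (-v) Q(y) Q(x))* = (1/2) Q(x) Q(y) (cP y (-v))*
  = (1/2) Q(x) Q(y) cP y v` (`c_skew`: `(cP y w)* = - cP y w`), and `Q(y) cP y v = cP y v Q(y)`
  (`Q_tan`).  So the difference is `-(1/2) Q(x) (cP x v - cP y v) Q(y)` (`Q_cP`), and
  `cP x v - cP y v = ∑ a, ((P(x) - P(y)) v)_a c_a` is `Van 1 · Van 1` (`van_P`, `van_vec`,
  `Van.clm_van`).  All other coefficients of `fD k0 - fR k0` vanish on `V × V`.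
* `W_part`: `uniq0` for `W` (`m - 1 ≥ -1`).
* `W_high`: `uniq0` gives `Cls 1 W`; then `uniq` for `w = 1, ..., m` (`fL W ∈ Cls (m-1) ⊆ Cls (w-1)`).
-/

set_option autoImplicit false
set_option maxSynthPendingDepth 3

open MeasureTheory
open scoped ContDiff

namespace Pool.Agent.EXO

namespace Dirac

variable {n M l m : ℕ} {V : Geo n M} {H : Type} [NormedAddCommGroup H]
  [InnerProductSpace ℂ H] [FiniteDimensional ℂ H] (𝔇 : Dirac V H) {k : FK M H}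

private theorem IdE_adj_mul (A B : H →L[ℂ] H) : ContinuousLinearMap.adjoint (A * B) =
    ContinuousLinearMap.adjoint B * ContinuousLinearMap.adjoint A :=
  ContinuousLinearMap.adjoint_comp A B

private theorem IdE_k0_zero {j : ℤ} (hj : j ≠ -(l : ℤ)) : 𝔇.k0 l j = 0 := by
  funext p
  unfold Dirac.k0
  rw [if_neg hj]
  rfl

private theorem IdE_adj0 : adjK (0 : KF M H) = 0 := by
  funext p
  simp [adjK]

private theorem IdE_opK0 (p : En M × En M) : 𝔇.opK (0 : KF M H) p = 0 := by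
  have e : 𝔇.opK (0 : KF M H) = 0 := 𝔇.opK_zero
  rw [e]
  rfl

private theorem IdE_cP_neg (x v : En M) : 𝔇.cP x (-v) = -𝔇.cP x v := by
  unfold cP
  rw [← Finset.sum_neg_distrib]
  refine Finset.sum_congr rfl fun a _ => ?_
  rw [map_neg]
  show ((-(V.P x v a) : ℝ) : ℂ) • 𝔇.c a = _
  push_cast
  rw [neg_smul]

private theorem IdE_cP_adj (x v : En M) :
    ContinuousLinearMap.adjoint (𝔇.cP x v) = -𝔇.cP x v := by
  unfold cP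
  rw [map_sum, ← Finset.sum_neg_distrib]
  refine Finset.sum_congr rfl fun a _ => ?_
  rw [LinearIsometryEquiv.map_smulₛₗ, 𝔇.c_skew, smul_neg]
  congr 2
  exact Complex.conj_ofReal _

private theorem IdE_diff (V : Geo n M) (𝔇 : Dirac V H) :
    Van V.carrier 2 (fun p : En M × En M =>
      𝔇.cP p.1 (p.1 - p.2) - 𝔇.cP p.2 (p.1 - p.2)) := by
  have h1 : Van V.carrier 2 (fun p : En M × En M => (V.P p.1 - V.P p.2) (p.1 - p.2)) :=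
    Van.clm_van (van_P V) van_vec
  have h2 : ∀ a : Fin M, Van V.carrier 2 (fun p : En M × En M =>
      (((V.P p.1 - V.P p.2) (p.1 - p.2)) a : ℝ)) := fun a =>
    Van.clm_const (EuclideanSpace.proj a : En M →L[ℝ] ℝ) h1
  have h3 : Van V.carrier 2 (fun p : En M × En M =>
      ∑ a, (((((V.P p.1 - V.P p.2) (p.1 - p.2)) a : ℝ)) : ℂ) • 𝔇.c a) :=
    Van.sum _ fun a _ => Van.rsmul_mul (q := 0) (h2 a)
      (show Van V.carrier 0 (fun _ : En M × En M => 𝔇.c a) from contDiff_const)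
  have e : (fun p : En M × En M =>
      ∑ a, (((((V.P p.1 - V.P p.2) (p.1 - p.2)) a : ℝ)) : ℂ) • 𝔇.c a) =
      fun p : En M × En M => 𝔇.cP p.1 (p.1 - p.2) - 𝔇.cP p.2 (p.1 - p.2) := by
    funext p
    unfold cP
    rw [← Finset.sum_sub_distrib]
    refine Finset.sum_congr rfl fun a _ => ?_
    rw [← sub_smul]
    congr 1
    show (((V.P p.1 (p.1 - p.2) - V.P p.2 (p.1 - p.2)) a : ℝ) : ℂ) = _
    show (((V.P p.1 (p.1 - p.2)) a - (V.P p.2 (p.1 - p.2)) a : ℝ) : ℂ) = _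
    push_cast
    rfl
  rw [e] at h3
  exact h3

/-- The formal commutator `D K - K D`. -/
noncomputable def fW (k : FK M H) : FK M H := 𝔇.fD k - 𝔇.fR k

private theorem IdE_fW_k0 (hV : V.Good l) : Cls V 0 (𝔇.fW (𝔇.k0 l)) := by
  have hn := hV.dim
  have hfs : FS (𝔇.k0 l) := 𝔇.FS_k0
  have hF : FS (𝔇.fW (𝔇.k0 l)) := (FS.fD 𝔇 hfs).sub (FS.fR 𝔇 hfs)
  refine ⟨hF, fun j => ?_⟩
  rcases lt_trichotomy j (-(l : ℤ) - 1) with hj | hj | hj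
  · refine Van.zero.congr (hF.1 j) fun x _ y _ => ?_
    have a1 : 𝔇.k0 l j = 0 := 𝔇.IdE_k0_zero (by omega)
    have a2 : 𝔇.k0 l (j + 1) = 0 := 𝔇.IdE_k0_zero (by omega)
    show 0 = (𝔇.opK (𝔇.k0 l j) (x, y) - 𝔇.Cg (x, y) * 𝔇.k0 l (j + 1) (x, y)) -
      ContinuousLinearMap.adjoint (𝔇.opK (adjK (𝔇.k0 l j)) (y, x) -
        𝔇.Cg (y, x) * adjK (𝔇.k0 l (j + 1)) (y, x))
    rw [a1, a2, IdE_adj0, 𝔇.IdE_opK0, 𝔇.IdE_opK0]
    simp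
  · have e : (0 - (n : ℤ) - 2 * j).toNat = 2 := by omega
    rw [e]
    have hQ1 : Van V.carrier 0 (fun p : En M × En M => 𝔇.Q p.1) := 𝔇.smoothQ.comp contDiff_fst
    have hQ2 : Van V.carrier 0 (fun p : En M × En M => 𝔇.Q p.2) := 𝔇.smoothQ.comp contDiff_snd
    have h1 : Van V.carrier 2 (fun p : En M × En M => (-(1 / 2) : ℂ) • (𝔇.Q p.1 *
        ((𝔇.cP p.1 (p.1 - p.2) - 𝔇.cP p.2 (p.1 - p.2)) * 𝔇.Q p.2))) :=
      ((hQ1.mul ((IdE_diff V 𝔇).mul hQ2)).csmul _).mono (by omega)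
    refine h1.congr (hF.1 j) fun x hx y hy => ?_
    have a1 : 𝔇.k0 l j = 0 := 𝔇.IdE_k0_zero (by omega)
    have a2 : ∀ p : En M × En M, 𝔇.k0 l (j + 1) p = 𝔇.Q p.1 * 𝔇.Q p.2 := by
      intro p
      unfold Dirac.k0
      rw [if_pos (by omega)]
    have a3 : adjK (𝔇.k0 l (j + 1)) (y, x) = 𝔇.Q y * 𝔇.Q x := by
      show ContinuousLinearMap.adjoint (𝔇.k0 l (j + 1) (x, y)) = _
      rw [a2, IdE_adj_mul]
      show ContinuousLinearMap.adjoint (𝔇.Q y) * ContinuousLinearMap.adjoint (𝔇.Q x) = _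
      rw [𝔇.Q_sa x hx, 𝔇.Q_sa y hy]
    show _ = (𝔇.opK (𝔇.k0 l j) (x, y) - 𝔇.Cg (x, y) * 𝔇.k0 l (j + 1) (x, y)) -
      ContinuousLinearMap.adjoint (𝔇.opK (adjK (𝔇.k0 l j)) (y, x) -
        𝔇.Cg (y, x) * adjK (𝔇.k0 l (j + 1)) (y, x))
    rw [a1, a2, a3, IdE_adj0, 𝔇.IdE_opK0, 𝔇.IdE_opK0, zero_sub, zero_sub]
    show _ = -(𝔇.Cg (x, y) * (𝔇.Q x * 𝔇.Q y)) - _
    have b1 : 𝔇.Cg (x, y) * (𝔇.Q x * 𝔇.Q y) =
        (1 / 2 : ℂ) • (𝔇.Q x * (𝔇.cP x (x - y) * 𝔇.Q y)) := by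
      rw [𝔇.Cg_eq hx y, smul_mul_assoc]
      congr 1
      calc 𝔇.cP x (x - y) * 𝔇.Q x * (𝔇.Q x * 𝔇.Q y)
          = 𝔇.cP x (x - y) * (𝔇.Q x * 𝔇.Q x) * 𝔇.Q y := by simp only [mul_assoc]
        _ = (𝔇.cP x (x - y) * 𝔇.Q x) * 𝔇.Q y := by rw [𝔇.Q_idem x hx]
        _ = (𝔇.Q x * 𝔇.cP x (x - y)) * 𝔇.Q y := by
            rw [show 𝔇.cP x (x - y) * 𝔇.Q x = 𝔇.Q x * 𝔇.cP x (x - y) from 𝔇.Q_tan x hx _]
        _ = _ := by rw [mul_assoc]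
    have b2 : ContinuousLinearMap.adjoint (-(𝔇.Cg (y, x) * (𝔇.Q y * 𝔇.Q x))) =
        -((1 / 2 : ℂ) • (𝔇.Q x * (𝔇.cP y (x - y) * 𝔇.Q y))) := by
      have c1 : 𝔇.Cg (y, x) * (𝔇.Q y * 𝔇.Q x) =
          (1 / 2 : ℂ) • (𝔇.cP y (y - x) * (𝔇.Q y * 𝔇.Q x)) := by
        rw [𝔇.Cg_eq hy x, smul_mul_assoc]
        congr 1
        calc 𝔇.cP y (y - x) * 𝔇.Q y * (𝔇.Q y * 𝔇.Q x)
            = 𝔇.cP y (y - x) * (𝔇.Q y * 𝔇.Q y) * 𝔇.Q x := by simp only [mul_assoc]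
          _ = _ := by rw [𝔇.Q_idem y hy, mul_assoc]
      rw [c1, map_neg, LinearIsometryEquiv.map_smulₛₗ, IdE_adj_mul, IdE_adj_mul,
        𝔇.Q_sa x hx, 𝔇.Q_sa y hy, 𝔇.IdE_cP_adj, ← 𝔇.IdE_cP_neg, neg_sub]
      congr 1
      have c2 : (starRingEnd ℂ) (1 / 2 : ℂ) = 1 / 2 := by
        have : (1 / 2 : ℂ) = ((1 / 2 : ℝ) : ℂ) := by push_cast; rfl
        rw [this]
        exact Complex.conj_ofReal _
      rw [c2]
      congr 1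
      rw [mul_assoc, show 𝔇.Q y * 𝔇.cP y (x - y) = 𝔇.cP y (x - y) * 𝔇.Q y from
        (𝔇.Q_tan y hy _).symm]
    rw [b1, b2, sub_mul, mul_sub, smul_sub, neg_smul, neg_smul]
  · have e : (0 - (n : ℤ) - 2 * j).toNat = 0 := by omega
    rw [e]
    exact hF.1 j

theorem W_QL (hV : V.Good l) (h : 𝔇.IsHeat l m k) (j : ℤ) : 𝔇.QL (𝔇.fW k j) := by
  intro x hx y hy
  have h1 := 𝔇.QL_fD h.fs j x hx y hy
  have h2 := 𝔇.QL_fR hV.loc h.fs h.ql j x hx y hy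
  show 𝔇.Q x * (𝔇.fD k j (x, y) - 𝔇.fR k j (x, y)) = 𝔇.fD k j (x, y) - 𝔇.fR k j (x, y)
  rw [mul_sub, h1, h2]

theorem W_QR (hV : V.Good l) (h : 𝔇.IsHeat l m k) (j : ℤ) : 𝔇.QR (𝔇.fW k j) := by
  intro x hx y hy
  have h1 := 𝔇.QR_fD hV.loc h.fs h.qr j x hx y hy
  have h2 := 𝔇.QR_fR h.fs j x hx y hy
  show (𝔇.fD k j (x, y) - 𝔇.fR k j (x, y)) * 𝔇.Q y = 𝔇.fD k j (x, y) - 𝔇.fR k j (x, y)
  rw [sub_mul, h1, h2]

theorem W_heat (hV : V.Good l) (h : 𝔇.IsHeat l m k) :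
    Cls V ((m : ℤ) - 1) (𝔇.fL (𝔇.fW k)) := by
  unfold fW
  rw [𝔇.fL_sub (FS.fD 𝔇 h.fs) (FS.fR 𝔇 h.fs), 𝔇.fL_fD h.fs, 𝔇.fL_fR h.fs]
  exact Cls.sub (Cls.fD 𝔇 hV.loc h.heat) (Cls.fR 𝔇 hV.loc h.heat)

theorem W_cls0 (hV : V.Good l) (h : 𝔇.IsHeat l m k) : Cls V 0 (𝔇.fW k) := by
  have hfs : FS (𝔇.k0 l) := 𝔇.FS_k0
  have hfs' : FS (k - 𝔇.k0 l) := h.fs.sub hfs
  have e : k = 𝔇.k0 l + (k - 𝔇.k0 l) := by abel
  have e1 : 𝔇.fW k = 𝔇.fW (𝔇.k0 l) + 𝔇.fW (k - 𝔇.k0 l) := by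
    unfold fW
    rw [𝔇.fD_sub h.fs hfs, 𝔇.fR_sub h.fs hfs]
    abel
  rw [e1]
  apply Cls.add (𝔇.IdE_fW_k0 hV)
  exact Cls.sub (Cls.mono (by omega) (Cls.fD 𝔇 hV.loc h.lead))
    (Cls.mono (by omega) (Cls.fR 𝔇 hV.loc h.lead))

theorem W_part (hV : V.Good l) (h : 𝔇.IsHeat l m k) :
    ∀ j : ℤ, j < -(l : ℤ) → Van V.carrier ((-(n : ℤ) - 2 * j).toNat + 1) (𝔇.fW k j) := by
  exact (𝔇.uniq0 hV (𝔇.W_cls0 hV h) (𝔇.W_QL hV h)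
    (Cls.mono (by omega) (𝔇.W_heat hV h))).1

theorem W_high (hV : V.Good l) (h : 𝔇.IsHeat l m k)
    (hd : ∀ x ∈ V.carrier, 𝔇.fW k (-(l : ℤ)) (x, x) = 0) :
    Cls V ((m : ℤ) + 1) (𝔇.fW k) := by
  have h1 : Cls V 1 (𝔇.fW k) := (𝔇.uniq0 hV (𝔇.W_cls0 hV h) (𝔇.W_QL hV h)
    (Cls.mono (by omega) (𝔇.W_heat hV h))).2 hd
  have key : ∀ i : ℕ, i ≤ m → Cls V ((i : ℤ) + 1) (𝔇.fW k) := by
    intro i
    induction i with
    | zero =>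
      intro _
      exact Cls.mono (by simp) h1
    | succ i ih =>
      intro hi
      have h2 := ih (by omega)
      have h3 := 𝔇.uniq hV (w := (i : ℤ) + 1) (by omega) h2 (𝔇.W_QL hV h)
        (Cls.mono (by omega) (𝔇.W_heat hV h))
      exact Cls.mono (by push_cast; omega) h3
  exact key m le_rfl

end Dirac

end Pool.Agent.EXO
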