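import Pool.Agent.EXO.IeA
import Pool.Agent.EXO.IcRow

/-!
Project EXO, chunk IDX-A, module IdF: tangential derivatives of realizations.

PROOFS.
* `FS.ftx`, `FS.fts`: smoothness, support.
* `Cls.ftx`: like `Cls.fD` in IdA: `tdx a k_j` loses one order (`Van.tdx`), `tdx a φ ∈ Van 1`
  (`van_tdx_phi`).  `Cls.fts`: `tds` loses nothing (`Van.tds`, `van_P`), `tds a φ ∈ Van 2`
  (`tds_phi`): `Van (2 + (w-n-2j-2).toNat)` is contained in `Van (w-n-2j).toNat`.
* `tdx_ev`, `tds_ev`: `ev_eq_sum`, `tdx_smul`; `tdx a (exp(-φ/t)) = -t⁻¹ (tdx a φ) exp(-φ/t)`; shift the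
  index (as in `opK_ev`).
* `td_int`: `fderiv_int` (real linear operators: restrict scalars of `ev k t (x,y)`), `tdx_ev`.
* `td_int'`: by `td_int`-type formula the derivative is `∫ (tdx a (ev k t)) (x,y) (u y)`, and
  `tdx = tds - tdy`.  For fixed `x ∈ V`, `f(y) = ev k t (x,y) (u y)` is smooth and
  `td a f (y) = (tdy a (ev k t)) (x,y) (u y) + ev k t (x,y) (td a u y)`; `hV.ibp` gives
  `- ∫ tdy a (ev k t) (x,y) (u y) = ∫ ev k t (x,y) (td a u y) + ∫ Hm_a y • ev k t (x,y) (u y)`.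
-/

set_option autoImplicit false
set_option maxSynthPendingDepth 3

open MeasureTheory
open scoped ContDiff

namespace Pool.Agent.EXO

namespace Dirac

variable {n M l : ℕ} {V : Geo n M} {H : Type} [NormedAddCommGroup H]
  [InnerProductSpace ℂ H] [FiniteDimensional ℂ H] {k : FK M H} {w : ℤ}

/-- The formal tangential derivative in the first variable. -/
noncomputable def ftx (V : Geo n M) (a : Fin M) (k : FK M H) : FK M H := fun j p =>
  tdx V a (k j) p - ((tdx V a phiK p : ℝ) : ℂ) • k (j + 1) p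

/-- The formal tangential derivative `∂_{a,x} + ∂_{a,y}`. -/
noncomputable def fts (V : Geo n M) (a : Fin M) (k : FK M H) : FK M H := fun j p =>
  tdx V a (k j) p + tdy V a (k j) p - ((tdx V a phiK p + tdy V a phiK p : ℝ) : ℂ) • k (j + 1) p

private theorem IdF_supp {A : Type} [AddCommMonoid A] {J : ℕ} {a : ℤ → A}
    (ha : ∀ j : ℤ, (J : ℤ) < |j| → a j = 0) :
    Function.support a ⊆ (Finset.Icc (-(J : ℤ)) J : Finset ℤ) := by
  intro j hj
  rw [Function.mem_support] at hj
  by_contra h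
  apply hj
  apply ha
  rw [Finset.coe_Icc, Set.mem_Icc, not_and_or, not_le, not_le] at h
  rcases h with h | h
  · rw [lt_abs]; right; linarith
  · rw [lt_abs]; left; exact h

private theorem IdF_fin {A : Type} [AddCommMonoid A] {J : ℕ} {a : ℤ → A}
    (ha : ∀ j : ℤ, (J : ℤ) < |j| → a j = 0) : (Function.support a).Finite :=
  (Finset.finite_toSet _).subset (IdF_supp ha)

private theorem IdF_shift {A : Type} [AddCommMonoid A] (a : ℤ → A) (m : ℤ) :
    ∑ᶠ j : ℤ, a (j + m) = ∑ᶠ j : ℤ, a j :=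
  finsum_comp_equiv (Equiv.addRight m)

private theorem IdF_shiftfin {A : Type} [AddCommMonoid A] {a : ℤ → A} (m : ℤ)
    (ha : (Function.support a).Finite) : (Function.support (fun j => a (j + m))).Finite := by
  have : Function.support (fun j => a (j + m)) = (Equiv.addRight m) ⁻¹' (Function.support a) := rfl
  rw [this]
  exact ha.preimage (Equiv.injective _).injOn

private theorem IdF_rsm {f : En M × En M → ℝ} (hf : ContDiff ℝ ∞ f) {m : KF M H}
    (hm : ContDiff ℝ ∞ m) : ContDiff ℝ ∞ (fun p => ((f p : ℝ) : ℂ) • m p) :=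
  (Van.rsmul_mul (V := (∅ : Set (En M))) (r := 0) (q := 0) hf hm).contDiff

private theorem IdF_smc (j : ℤ) (t : ℝ) :
    ContDiff ℝ ∞ (fun p : En M × En M => (t ^ j * Real.exp (-(phiK p) / t) : ℝ)) := by
  have h1 : ContDiff ℝ ∞ (phiK (M := M)) := contDiff_phiK
  have h2 : ContDiff ℝ ∞ (fun p : En M × En M => -(phiK p) / t) := h1.neg.div_const t
  exact contDiff_const.mul (Real.contDiff_exp.comp h2)

/-- The formal derivative along a vector field on the product. -/
private noncomputable def IdF_gen (w : En M × En M → En M × En M) (k : FK M H) : FK M H :=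
  fun j p => fderiv ℝ (k j) p (w p) - ((fderiv ℝ phiK p (w p) : ℝ) : ℂ) • k (j + 1) p

private theorem IdF_gen_FS (h : FS k) {w : En M × En M → En M × En M}
    (hw : ContDiff ℝ ∞ w) : FS (IdF_gen w k) := by
  obtain ⟨h1, J, h2⟩ := h
  refine ⟨fun j => ?_, J + 1, fun j hj => ?_⟩
  · have e1 : ContDiff ℝ ∞ fun p => fderiv ℝ (k j) p (w p) :=
      ((h1 j).fderiv_right (m := ∞) (by simp)).clm_apply hw
    have e2 : ContDiff ℝ ∞ fun p => fderiv ℝ (phiK (M := M)) p (w p) :=
      (contDiff_phiK.fderiv_right (m := ∞) (by simp)).clm_apply hw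
    exact e1.sub (IdF_rsm e2 (h1 (j + 1)))
  · push_cast at hj
    have a1 : (J : ℤ) < |j| := by linarith
    have a2 : (J : ℤ) < |j + 1| := by
      have := abs_sub_abs_le_abs_sub j (-1)
      simp only [sub_neg_eq_add, abs_neg, abs_one] at this
      linarith
    funext p
    unfold IdF_gen
    rw [h2 j a1, h2 (j + 1) a2]
    simp

private theorem IdF_term {t : ℝ} (j : ℤ) (ht : 0 < t) {m : KF M H} (hm : ContDiff ℝ ∞ m)
    (p v : En M × En M) :
    fderiv ℝ (fun p => ((t ^ j * Real.exp (-(phiK p) / t) : ℝ) : ℂ) • m p) p v =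
      ((t ^ j * Real.exp (-(phiK p) / t) : ℝ) : ℂ) • fderiv ℝ m p v -
      ((t ^ (j - 1) * Real.exp (-(phiK p) / t) : ℝ) : ℂ) •
        (((fderiv ℝ phiK p v : ℝ) : ℂ) • m p) := by
  have hphi : DifferentiableAt ℝ (phiK (M := M)) p := (contDiff_phiK.differentiable (by simp)) p
  have hmd : DifferentiableAt ℝ m p := (hm.differentiable (by simp)) p
  have h1 : HasFDerivAt (fun p : En M × En M => t ^ j * Real.exp (-(phiK p) / t))
      (t ^ j • (Real.exp (-(phiK p) / t) • (t⁻¹ • (-fderiv ℝ phiK p)))) p := by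
    have h2 : HasFDerivAt (fun p : En M × En M => -(phiK p) / t)
        (t⁻¹ • (-fderiv ℝ phiK p)) p := by
      have h3 := hphi.hasFDerivAt.neg.const_mul t⁻¹
      refine h3.congr_of_eventuallyEq (Filter.Eventually.of_forall fun q => ?_)
      simp only [Pi.neg_apply]
      rw [div_eq_inv_mul]
    exact h2.exp.const_mul _
  have e : (fun p : En M × En M => ((t ^ j * Real.exp (-(phiK p) / t) : ℝ) : ℂ) • m p) =
      fun p => (t ^ j * Real.exp (-(phiK p) / t)) • m p := by
    funext q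
    rw [Complex.coe_smul]
  have h4 : fderiv ℝ (fun p => (t ^ j * Real.exp (-(phiK p) / t)) • m p) p = _ :=
    (h1.smul hmd.hasFDerivAt).fderiv
  rw [e, h4]
  rw [Complex.coe_smul, Complex.coe_smul, Complex.coe_smul, smul_smul]
  have h3 : t ^ (j - 1) = t ^ j * t⁻¹ := by
    rw [zpow_sub_one₀ ht.ne']
  rw [h3]
  simp only [_root_.add_apply, _root_.smul_apply,
    ContinuousLinearMap.smulRight_apply, _root_.neg_apply, smul_eq_mul]
  rw [sub_eq_add_neg, ← neg_smul, smul_smul]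
  congr 2
  ring

private theorem IdF_gen_ev (h : FS k) (w : En M × En M → En M × En M) {t : ℝ} (ht : 0 < t)
    (p : En M × En M) : fderiv ℝ (ev k t) p (w p) = ev (IdF_gen w k) t p := by
  obtain ⟨h1, J, h2⟩ := h
  have e : ev k t = fun p => ∑ j ∈ Finset.Icc (-(J : ℤ)) J,
      (fun p => ((t ^ j * Real.exp (-(phiK p) / t) : ℝ) : ℂ) • k j p) p := by
    funext p
    exact ev_eq_sum h2 t p
  have hd : ∀ j ∈ Finset.Icc (-(J : ℤ)) J, DifferentiableAt ℝ
      (fun p => ((t ^ j * Real.exp (-(phiK p) / t) : ℝ) : ℂ) • k j p) p := fun j _ =>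
    ((IdF_rsm (IdF_smc j t) (h1 j)).differentiable (by simp)) p
  rw [e, fderiv_fun_sum hd, _root_.sum_apply]
  rw [Finset.sum_congr rfl fun j _ => IdF_term j ht (h1 j) p (w p)]
  have hA : ∀ j : ℤ, (J : ℤ) < |j| →
      ((t ^ j * Real.exp (-(phiK p) / t) : ℝ) : ℂ) • fderiv ℝ (k j) p (w p) = 0 := by
    intro j hj
    rw [h2 j hj]
    simp
  have hB : ∀ j : ℤ, (J : ℤ) < |j| →
      ((t ^ (j - 1) * Real.exp (-(phiK p) / t) : ℝ) : ℂ) •
        (((fderiv ℝ phiK p (w p) : ℝ) : ℂ) • k j p) = 0 := by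
    intro j hj
    rw [h2 j hj, Pi.zero_apply, smul_zero, smul_zero]
  have hAB : ∀ j : ℤ, (J : ℤ) < |j| →
      ((t ^ j * Real.exp (-(phiK p) / t) : ℝ) : ℂ) • fderiv ℝ (k j) p (w p) -
      ((t ^ (j - 1) * Real.exp (-(phiK p) / t) : ℝ) : ℂ) •
        (((fderiv ℝ phiK p (w p) : ℝ) : ℂ) • k j p) = 0 := by
    intro j hj
    rw [hA j hj, hB j hj, sub_zero]
  rw [← finsum_eq_sum_of_support_subset _ (IdF_supp hAB),
    finsum_sub_distrib (IdF_fin hA) (IdF_fin hB)]
  rw [← IdF_shift (fun j : ℤ => ((t ^ (j - 1) * Real.exp (-(phiK p) / t) : ℝ) : ℂ) •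
        (((fderiv ℝ phiK p (w p) : ℝ) : ℂ) • k j p)) 1,
    ← finsum_sub_distrib (IdF_fin hA) (IdF_shiftfin 1 (IdF_fin hB))]
  unfold ev
  apply finsum_congr
  intro j
  simp only [IdF_gen, smul_sub, add_sub_cancel_right]

omit [FiniteDimensional ℂ H] in
private theorem IdF_fts_eq (V : Geo n M) (a : Fin M) (k : FK M H) :
    Dirac.fts V a k = IdF_gen (fun p => (V.P p.1 (bv a), V.P p.2 (bv a))) k := by
  have h : ∀ {F : Type} [NormedAddCommGroup F] [NormedSpace ℝ F] (m : En M × En M → F)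
      (p : En M × En M), tdx V a m p + tdy V a m p =
        fderiv ℝ m p (V.P p.1 (bv a), V.P p.2 (bv a)) := by
    intro F _ _ m p
    unfold tdx tdy
    rw [← map_add]
    simp
  funext j p
  unfold Dirac.fts IdF_gen
  rw [h, h]

theorem FS.ftx (h : FS k) (a : Fin M) : FS (Dirac.ftx V a k) := by
  exact IdF_gen_FS h (w := fun p => (V.P p.1 (bv a), 0))
    (((V.smoothP.comp contDiff_fst).clm_apply contDiff_const).prodMk contDiff_const)

theorem FS.fts (h : FS k) (a : Fin M) : FS (Dirac.fts V a k) := by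
  rw [IdF_fts_eq]
  exact IdF_gen_FS h
    (((V.smoothP.comp contDiff_fst).clm_apply contDiff_const).prodMk
      ((V.smoothP.comp contDiff_snd).clm_apply contDiff_const))

theorem Cls.ftx (hloc : V.Loc) (h : Cls V w k) (a : Fin M) :
    Cls V (w - 1) (Dirac.ftx V a k) := by
  refine ⟨FS.ftx h.1 a, fun j => ?_⟩
  have h1 : Van V.carrier (w - 1 - n - 2 * j).toNat (tdx V a (k j)) := by
    by_cases hw : 1 ≤ w - n - 2 * j
    · have e : (w - n - 2 * j).toNat = (w - 1 - n - 2 * j).toNat + 1 := by omega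
      have h2 := h.2 j
      rw [e] at h2
      exact Van.tdx hloc h2 a
    · have e : (w - 1 - n - 2 * j).toNat = 0 := by omega
      rw [e]
      exact contDiff_tdx (h.1.1 j) a
  have h3 : Van V.carrier (w - 1 - n - 2 * j).toNat
      (fun p => ((tdx V a phiK p : ℝ) : ℂ) • k (j + 1) p) := by
    have h4 := Van.rsmul_mul (van_tdx_phi (V := V) a) (h.2 (j + 1))
    exact h4.mono (by omega)
  exact h1.sub h3

theorem Cls.fts (hloc : V.Loc) (h : Cls V w k) (a : Fin M) : Cls V w (Dirac.fts V a k) := by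
  refine ⟨FS.fts h.1 a, fun j => ?_⟩
  have h1 : Van V.carrier (w - n - 2 * j).toNat (fun p => tdx V a (k j) p + tdy V a (k j) p) :=
    Van.tds hloc (van_P V) (h.2 j) a
  have h3 : Van V.carrier (w - n - 2 * j).toNat
      (fun p => ((tdx V a phiK p + tdy V a phiK p : ℝ) : ℂ) • k (j + 1) p) := by
    have h4 := Van.rsmul_mul (tds_phi V a) (h.2 (j + 1))
    exact h4.mono (by omega)
  exact h1.sub h3

theorem Cls.mulLeft (h : Cls V w k) {A : En M → (H →L[ℂ] H)} (hA : ContDiff ℝ ∞ A) :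
    Cls V w (fun j p => A p.1 * k j p) := by
  have hA0 : Van V.carrier 0 (fun p : En M × En M => A p.1) := hA.comp contDiff_fst
  have hv : ∀ j, Van V.carrier (w - n - 2 * j).toNat (fun p => A p.1 * k j p) := fun j => by
    have h1 := Van.mul hA0 (h.2 j)
    rwa [zero_add] at h1
  obtain ⟨_, J, h2⟩ := h.1
  refine ⟨⟨fun j => (hv j).contDiff, J, fun j hj => ?_⟩, hv⟩
  funext p
  simp only
  rw [h2 j hj]
  simp

theorem ev_mulLeft (h : FS k) (A : En M → (H →L[ℂ] H)) (t : ℝ) (p : En M × En M) :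
    ev (fun j p => A p.1 * k j p) t p = A p.1 * ev k t p := by
  obtain ⟨_, J, h2⟩ := h
  have h3 : ∀ j : ℤ, (J : ℤ) < |j| → (fun j p => A p.1 * k j p : FK M H) j = 0 := by
    intro j hj
    funext p
    simp only
    rw [h2 j hj]
    simp
  rw [ev_eq_sum h2, ev_eq_sum h3, Finset.mul_sum]
  refine Finset.sum_congr rfl fun j _ => ?_
  rw [mul_smul_comm]

theorem tdx_ev (h : FS k) (a : Fin M) {t : ℝ} (ht : 0 < t) (p : En M × En M) :
    tdx V a (ev k t) p = ev (Dirac.ftx V a k) t p :=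
  IdF_gen_ev h (fun p => (V.P p.1 (bv a), 0)) ht p

theorem tds_ev (h : FS k) (a : Fin M) {t : ℝ} (ht : 0 < t) (p : En M × En M) :
    tdx V a (ev k t) p + tdy V a (ev k t) p = ev (Dirac.fts V a k) t p := by
  rw [IdF_fts_eq, ← IdF_gen_ev h _ ht p]
  unfold tdx tdy
  rw [← map_add]
  simp

theorem td_int (h : FS k) (a : Fin M) {t : ℝ} (ht : 0 < t) {u : En M → H}
    (hu : ContinuousOn u V.carrier) (x : En M) :
    td V a (fun x => ∫ y, ev k t (x, y) (u y) ∂V.μ) x =
      ∫ y, ev (Dirac.ftx V a k) t (x, y) (u y) ∂V.μ := by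
  have hk : ContDiff ℝ ∞ (ev k t) := contDiff_ev h ht
  have hk' : ContDiff ℝ ∞ (fun p => (ev k t p).restrictScalars ℝ) :=
    (ContinuousLinearMap.restrictScalarsL ℂ H H ℝ ℝ).contDiff.comp hk
  have h1 := fderiv_int hk' hu x (V.P x (bv a))
  refine h1.trans ?_
  refine integral_congr_ae (Filter.Eventually.of_forall fun y => ?_)
  simp only
  rw [icRow_fderiv hk, ← tdx_ev h a ht]
  rfl

theorem td_int' (hV : V.Good l) (h : FS k) (a : Fin M) {t : ℝ} (ht : 0 < t) {u : En M → H}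
    (hu : ContDiff ℝ ∞ u) {x : En M} (hx : x ∈ V.carrier) :
    td V a (fun x => ∫ y, ev k t (x, y) (u y) ∂V.μ) x =
      (∫ y, ev (Dirac.fts V a k) t (x, y) (u y) ∂V.μ) +
        ∫ y, ev k t (x, y) (td V a u y + V.Hm a y • u y) ∂V.μ := by
  have hcomp : CompleteSpace H := FiniteDimensional.complete ℂ H
  have hk : ContDiff ℝ ∞ (ev k t) := contDiff_ev h ht
  have hres : ∀ {f : En M → (H →L[ℂ] H)}, ContDiff ℝ ∞ f →
      ContDiff ℝ ∞ (fun y => (f y).restrictScalars ℝ) := fun hf =>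
    (ContinuousLinearMap.restrictScalarsL ℂ H H ℝ ℝ).contDiff.comp hf
  have hap : ∀ {f : En M → (H →L[ℂ] H)}, ContDiff ℝ ∞ f → ∀ {v : En M → H}, ContDiff ℝ ∞ v →
      ContDiff ℝ ∞ (fun y => f y (v y)) := fun hf v hv => (hres hf).clm_apply hv
  have hsl : ∀ {m : KF M H}, ContDiff ℝ ∞ m → ContDiff ℝ ∞ (fun y => m (x, y)) := fun hm =>
    hm.comp (contDiff_prodMk_right x)
  have hi : ∀ {f : En M → H}, ContDiff ℝ ∞ f → Integrable f V.μ := fun hf =>
    icRow_int V hf.continuous.continuousOn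
  have hHm : ContDiff ℝ ∞ (V.Hm a) := by
    unfold Geo.Hm
    refine ContDiff.sum fun b _ => ?_
    have h1 : ContDiff ℝ ∞ (fun x => fderiv ℝ V.P x (V.P x (bv b)) (bv a)) :=
      ((V.smoothP.fderiv_right (m := ∞) (by simp)).clm_apply
        (V.smoothP.clm_apply contDiff_const)).clm_apply contDiff_const
    exact (contDiff_piLp_apply (𝕜 := ℝ) (p := 2)).comp h1
  have e1 := td_int (V := V) h a ht hu.continuous.continuousOn x
  rw [e1]
  -- the slice
  have hf : ContDiff ℝ ∞ (fun y => ev k t (x, y) (u y)) := hap (hsl hk) hu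
  have e2 := hV.ibp H _ hf a
  have e3 : ∀ y, td V a (fun y => ev k t (x, y) (u y)) y =
      (tdy V a (ev k t) (x, y)) (u y) + ev k t (x, y) (td V a u y) := by
    intro y
    have hd1 : HasFDerivAt (fun y => (ev k t (x, y)).restrictScalars ℝ)
        (((ContinuousLinearMap.restrictScalarsL ℂ H H ℝ ℝ)).comp
          ((fderiv ℝ (ev k t) (x, y)).comp (ContinuousLinearMap.inr ℝ (En M) (En M)))) y := by
      have h1 : HasFDerivAt (fun y => ev k t (x, y))
          ((fderiv ℝ (ev k t) (x, y)).comp (ContinuousLinearMap.inr ℝ (En M) (En M))) y :=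
        ((hk.differentiable (by simp)) (x, y)).hasFDerivAt.comp y (hasFDerivAt_prodMk_right x y)
      exact (ContinuousLinearMap.restrictScalarsL ℂ H H ℝ ℝ).hasFDerivAt.comp y h1
    have hd2 : HasFDerivAt u (fderiv ℝ u y) y := ((hu.differentiable (by simp)) y).hasFDerivAt
    have hd3 := hd1.clm_apply hd2
    unfold td
    have hd4 : fderiv ℝ (fun y => ev k t (x, y) (u y)) y = _ := hd3.fderiv
    rw [hd4]
    simp only [_root_.add_apply, ContinuousLinearMap.comp_apply,
      ContinuousLinearMap.flip_apply, ContinuousLinearMap.inr_apply]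
    rw [add_comm]
    rfl
  have i1 : Integrable (fun y => (tdy V a (ev k t) (x, y)) (u y)) V.μ :=
    hi (hap (hsl (contDiff_tdy hk a)) hu)
  have i2 : Integrable (fun y => ev k t (x, y) (td V a u y)) V.μ :=
    hi (hap (hsl hk) (contDiff_td hu a))
  have i3 : Integrable (fun y => ev k t (x, y) (V.Hm a y • u y)) V.μ :=
    hi (hap (hsl hk) (hHm.smul hu))
  have i4 : Integrable (fun y => ev (Dirac.fts V a k) t (x, y) (u y)) V.μ :=
    hi (hap (hsl (contDiff_ev (FS.fts h a) ht)) hu)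
  have e4 : ∫ y, (tdy V a (ev k t) (x, y)) (u y) ∂V.μ + ∫ y, ev k t (x, y) (td V a u y) ∂V.μ =
      - ∫ y, V.Hm a y • ev k t (x, y) (u y) ∂V.μ := by
    rw [← integral_add i1 i2, ← e2]
    exact integral_congr_ae (Filter.Eventually.of_forall fun y => (e3 y).symm)
  have e5 : ∫ y, V.Hm a y • ev k t (x, y) (u y) ∂V.μ =
      ∫ y, ev k t (x, y) (V.Hm a y • u y) ∂V.μ := by
    refine integral_congr_ae (Filter.Eventually.of_forall fun y => ?_)
    simp only
    rw [← Complex.coe_smul, ← Complex.coe_smul, map_smul]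
  have e6 : ∫ y, ev k t (x, y) (td V a u y + V.Hm a y • u y) ∂V.μ =
      ∫ y, ev k t (x, y) (td V a u y) ∂V.μ + ∫ y, ev k t (x, y) (V.Hm a y • u y) ∂V.μ := by
    rw [← integral_add i2 i3]
    refine integral_congr_ae (Filter.Eventually.of_forall fun y => ?_)
    simp only
    rw [map_add]
  have e7 : ∫ y, ev (Dirac.ftx V a k) t (x, y) (u y) ∂V.μ =
      ∫ y, ev (Dirac.fts V a k) t (x, y) (u y) ∂V.μ -
        ∫ y, (tdy V a (ev k t) (x, y)) (u y) ∂V.μ := by
    rw [← integral_sub i4 i1]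
    refine integral_congr_ae (Filter.Eventually.of_forall fun y => ?_)
    simp only
    rw [← tdx_ev h a ht, ← tds_ev h a ht]
    simp
  rw [e7, e6, ← e5]
  rw [eq_neg_iff_add_eq_zero] at e4
  have e8 : ∫ y, (tdy V a (ev k t) (x, y)) (u y) ∂V.μ =
      -(∫ y, ev k t (x, y) (td V a u y) ∂V.μ + ∫ y, V.Hm a y • ev k t (x, y) (u y) ∂V.μ) := by
    rw [eq_neg_iff_add_eq_zero, ← e4]
    abel
  rw [e8, sub_neg_eq_add]

end Dirac

end Pool.Agent.EXO
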