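import Pool.Agent.EXO.IdF

/-!
Project EXO, chunk IDX-A, module IdG: time integrals of realizations.

`evI k δ p = ∫ s in δ..1, ev k s p`, `0 < δ ≤ 1`.

PROOFS.
* `contDiff_evI`: substitute `s = exp(-c θ)`, `c = log(1/δ)`: `evI k δ p =
  ∫ θ in 0..1, c exp(-c θ) • ev k (exp(-c θ)) p` and the integrand is smooth in
  `(p, θ) ∈ (ℝ^M × ℝ^M) × ℝ` (finite sum of `exp(-cθ)^j exp(-φ exp(cθ)) k_j`), so
  `SuHad.contDiff_param` applies.
* `tdx_evI`: differentiate under the integral (`SuHad.hasFDerivAt_param` after the same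
  substitution), `tdx_ev`.
* `evI_sub`: `∫ s in δ..1 - ∫ s in δ'..1 = ∫ s in δ..δ'`.  `evI_cauchy`: `ev_sup`:
  `‖ev k s‖ ≤ C` on `V × V` for `0 < s ≤ 1`.
* `int_evI`: Fubini on `[δ, 1] × V` (continuous integrand on `[δ,1] × V`, `μ` finite, concentrated
  on `V`): `intervalIntegral` and `MeasureTheory.integral_integral_swap`.
* `tdL_evI`: for a list `A` of length `≤ w - n`: iterated `tdx` of `evI k δ` is `evI (ftxL A k) δ`;
  and the function `x ↦ ∫ evI k δ (x,y) (u y)` has iterated tangential derivatives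
  `∫ evI (ftxL A k) δ (x,y) (u y)` (`fderiv_int`).  By `Cls.ftx` `ftxL A k ∈ Cls (w - |A|)`; so by
  `evI_cauchy` they form a uniform Cauchy sequence on `V` for `δ = 1/(i+2) → 0`.
-/

set_option autoImplicit false
set_option maxSynthPendingDepth 3

open MeasureTheory Filter Topology
open scoped ContDiff

namespace Pool.Agent.EXO

namespace Dirac

variable {n M l : ℕ} {V : Geo n M} {H : Type} [NormedAddCommGroup H]
  [InnerProductSpace ℂ H] [FiniteDimensional ℂ H] {k : FK M H} {w : ℤ}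

/-- The time integral of the realization. -/
noncomputable def evI (k : FK M H) (δ : ℝ) (p : En M × En M) : H →L[ℂ] H :=
  ∫ s in δ..1, ev k s p

/-- Iterated formal tangential derivatives in the first variable. -/
noncomputable def ftxL (V : Geo n M) : List (Fin M) → FK M H → FK M H
  | [], k => k
  | a :: A, k => Dirac.ftx V a (ftxL V A k)

/-- The integrand after the substitution `s = exp (L (1 - θ))`. -/
private noncomputable def IdG_G (k : FK M H) (L : ℝ) (q : (En M × En M) × ℝ) : H →L[ℂ] H :=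
  (-L * Real.exp (L * (1 - q.2))) • ev k (Real.exp (L * (1 - q.2))) q.1

omit V H [NormedAddCommGroup H] [InnerProductSpace ℂ H] [FiniteDimensional ℂ H] in
private theorem IdG_exp (j : ℤ) (x : ℝ) : Real.exp ((j : ℝ) * x) = Real.exp x ^ j := by
  rw [← Real.rpow_intCast, ← Real.exp_mul, mul_comm]

private theorem IdG_contDiff (h : FS k) (L : ℝ) : ContDiff ℝ ∞ (IdG_G k L) := by
  obtain ⟨h1, J, h2⟩ := h
  have hE : ContDiff ℝ ∞ (fun q : (En M × En M) × ℝ => Real.exp (L * (1 - q.2))) :=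
    Real.contDiff_exp.comp (contDiff_const.mul (contDiff_const.sub contDiff_snd))
  unfold IdG_G
  refine ContDiff.smul (contDiff_const.mul hE) ?_
  have e : (fun q : (En M × En M) × ℝ => ev k (Real.exp (L * (1 - q.2))) q.1) = fun q =>
      ∑ j ∈ Finset.Icc (-(J : ℤ)) J, ((Real.exp ((j : ℝ) * (L * (1 - q.2))) *
        Real.exp (-(phiK q.1) / Real.exp (L * (1 - q.2))) : ℝ)) • k j q.1 := by
    funext q
    rw [ev_eq_sum h2]
    refine Finset.sum_congr rfl fun j _ => ?_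
    rw [IdG_exp]
    exact algebraMap_smul ℂ (Real.exp (L * (1 - q.2)) ^ j *
      Real.exp (-(phiK q.1) / Real.exp (L * (1 - q.2)))) (k j q.1)
  rw [e]
  refine ContDiff.sum fun j _ => ?_
  refine ContDiff.smul (f := fun x : (En M × En M) × ℝ => Real.exp ((j : ℝ) * (L * (1 - x.2))) *
    Real.exp (-(phiK x.1) / Real.exp (L * (1 - x.2)))) (g := fun x => k j x.1)
    (ContDiff.mul ?_ ?_) ((h1 j).comp contDiff_fst)
  · exact Real.contDiff_exp.comp (contDiff_const.mul
      (contDiff_const.mul (contDiff_const.sub contDiff_snd)))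
  · refine Real.contDiff_exp.comp (ContDiff.div ?_ hE fun q => (Real.exp_pos _).ne')
    exact (contDiff_phiK.comp contDiff_fst).neg

private theorem IdG_cont (h : FS k) (p : En M × En M) {δ : ℝ} (h0 : 0 < δ) :
    ContinuousOn (fun s => ev k s p) (Set.Icc δ 1) := by
  have h1 := continuousOn_ev h
  have h2 : ContinuousOn (fun s : ℝ => (s, p)) (Set.Icc δ 1) :=
    (Continuous.prodMk_left p).continuousOn
  exact h1.comp h2 fun s hs => ⟨lt_of_lt_of_le h0 hs.1, Set.mem_univ _⟩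

private theorem IdG_evI (h : FS k) {δ : ℝ} (h0 : 0 < δ) (h1 : δ ≤ 1) (p : En M × En M) :
    evI k δ p = ∫ θ in (0 : ℝ)..1, IdG_G k (Real.log δ) (p, θ) := by
  have hL : Real.log δ ≤ 0 := Real.log_nonpos h0.le h1
  have hd : ∀ θ : ℝ, HasDerivAt (fun θ : ℝ => Real.exp (Real.log δ * (1 - θ)))
      (-Real.log δ * Real.exp (Real.log δ * (1 - θ))) θ := by
    intro θ
    have d1 : HasDerivAt (fun θ : ℝ => Real.log δ * (1 - θ)) (-Real.log δ) θ := by
      have := ((hasDerivAt_id θ).const_sub 1).const_mul (Real.log δ)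
      simpa using this
    refine d1.exp.congr_deriv ?_
    ring
  have him : (fun θ : ℝ => Real.exp (Real.log δ * (1 - θ))) '' (Set.uIcc 0 1) ⊆ Set.Icc δ 1 := by
    rintro _ ⟨θ, hθ, rfl⟩
    rw [Set.uIcc_of_le zero_le_one] at hθ
    simp only
    constructor
    · rw [← Real.log_le_iff_le_exp h0]
      nlinarith [hθ.1, hθ.2]
    · rw [Real.exp_le_one_iff]
      exact mul_nonpos_of_nonpos_of_nonneg hL (by linarith [hθ.2])
  have key := intervalIntegral.integral_deriv_smul_comp' (a := 0) (b := 1)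
    (f := fun θ : ℝ => Real.exp (Real.log δ * (1 - θ)))
    (f' := fun θ : ℝ => -Real.log δ * Real.exp (Real.log δ * (1 - θ)))
    (g := fun s => ev k s p) (fun θ _ => hd θ) (by fun_prop)
    ((IdG_cont h p h0).mono him)
  simp only [sub_zero, mul_one, sub_self, mul_zero, Real.exp_zero, Real.exp_log h0] at key
  unfold evI
  rw [← key]
  rfl

private theorem IdG_fderiv (h : FS k) {δ : ℝ} (h0 : 0 < δ) (h1 : δ ≤ 1) (p v : En M × En M) :
    fderiv ℝ (evI k δ) p v = ∫ θ in (0 : ℝ)..1,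
      (-Real.log δ * Real.exp (Real.log δ * (1 - θ))) •
        fderiv ℝ (ev k (Real.exp (Real.log δ * (1 - θ)))) p v := by
  have e : evI k δ = fun p => ∫ θ in (0 : ℝ)..1, IdG_G k (Real.log δ) (p, θ) :=
    funext fun p => IdG_evI h h0 h1 p
  have hG := IdG_contDiff h (Real.log δ)
  have hd := hasFDerivAt_param (hG.of_le (by simp)) p
  rw [e, hd.fderiv]
  have hc : Continuous fun θ : ℝ => (fderiv ℝ (IdG_G k (Real.log δ)) (p, θ)).comp
      (ContinuousLinearMap.inl ℝ (En M × En M) ℝ) :=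
    ((hG.continuous_fderiv (by simp)).comp (Continuous.prodMk_right p)).clm_comp continuous_const
  rw [ContinuousLinearMap.intervalIntegral_apply (hc.intervalIntegrable 0 1)]
  refine intervalIntegral.integral_congr fun θ _ => ?_
  have h2 : HasFDerivAt (fun z : En M × En M => IdG_G k (Real.log δ) (z, θ))
      ((fderiv ℝ (IdG_G k (Real.log δ)) (p, θ)).comp (ContinuousLinearMap.inl ℝ (En M × En M) ℝ))
      p := by
    have h3 : HasFDerivAt (IdG_G k (Real.log δ)) (fderiv ℝ (IdG_G k (Real.log δ)) (p, θ)) (p, θ) :=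
      (hG.differentiable (by simp)).differentiableAt.hasFDerivAt
    have h6 : HasFDerivAt (𝕜 := ℝ) (fun z : En M × En M => (z, θ))
        (ContinuousLinearMap.inl ℝ (En M × En M) ℝ) p := hasFDerivAt_prodMk_left p θ
    exact HasFDerivAt.comp (g := IdG_G k (Real.log δ)) p h3 h6
  have h4 : HasFDerivAt (fun z : En M × En M => IdG_G k (Real.log δ) (z, θ))
      ((-Real.log δ * Real.exp (Real.log δ * (1 - θ))) •
        fderiv ℝ (ev k (Real.exp (Real.log δ * (1 - θ)))) p) p := by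
    have h5 : HasFDerivAt (ev k (Real.exp (Real.log δ * (1 - θ))))
        (fderiv ℝ (ev k (Real.exp (Real.log δ * (1 - θ)))) p) p :=
      ((contDiff_ev h (Real.exp_pos _)).differentiable (by simp)).differentiableAt.hasFDerivAt
    exact h5.const_smul (-Real.log δ * Real.exp (Real.log δ * (1 - θ)))
  rw [h2.unique h4]
  rfl

theorem contDiff_evI (h : FS k) {δ : ℝ} (h0 : 0 < δ) (h1 : δ ≤ 1) :
    ContDiff ℝ ∞ (evI k δ) := by
  have e : evI k δ = fun p => ∫ θ in (0 : ℝ)..1, IdG_G k (Real.log δ) (p, θ) :=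
    funext fun p => IdG_evI h h0 h1 p
  rw [e]
  exact contDiff_param (IdG_contDiff h _)

theorem tdx_evI (h : FS k) (a : Fin M) {δ : ℝ} (h0 : 0 < δ) (h1 : δ ≤ 1)
    (p : En M × En M) : tdx V a (evI k δ) p = evI (Dirac.ftx V a k) δ p := by
  rw [IdG_evI (FS.ftx (V := V) h a) h0 h1]
  unfold tdx
  rw [IdG_fderiv h h0 h1]
  refine intervalIntegral.integral_congr fun θ _ => ?_
  unfold IdG_G
  simp only
  rw [← tdx_ev (V := V) h a (Real.exp_pos _) p]
  rfl

theorem evI_cauchy (h : Cls V w k) (hw : (n : ℤ) ≤ w) : ∃ C : ℝ, 0 ≤ C ∧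
    ∀ δ ∈ Set.Ioc (0 : ℝ) 1, ∀ δ' ∈ Set.Ioc (0 : ℝ) 1, ∀ x ∈ V.carrier, ∀ y ∈ V.carrier,
      ‖evI k δ (x, y) - evI k δ' (x, y)‖ ≤ C * |δ - δ'| := by
  obtain ⟨C, hC0, hC⟩ := ev_sup h hw
  refine ⟨C, hC0, fun δ hδ δ' hδ' x hx y hy => ?_⟩
  have hint : ∀ a ∈ Set.Ioc (0 : ℝ) 1, ∀ b ∈ Set.Ioc (0 : ℝ) 1,
      IntervalIntegrable (fun s => ev k s (x, y)) volume a b := by
    intro a ha b hb
    apply ContinuousOn.intervalIntegrable
    have hm : 0 < min a b := lt_min ha.1 hb.1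
    refine (IdG_cont h.1 (x, y) hm).mono ?_
    intro s hs
    exact ⟨hs.1, hs.2.trans (max_le ha.2 hb.2)⟩
  have h1 : (1 : ℝ) ∈ Set.Ioc (0 : ℝ) 1 := ⟨zero_lt_one, le_rfl⟩
  have e : evI k δ (x, y) - evI k δ' (x, y) = ∫ s in δ..δ', ev k s (x, y) := by
    unfold evI
    rw [← intervalIntegral.integral_add_adjacent_intervals (hint δ hδ δ' hδ') (hint δ' hδ' 1 h1),
      add_sub_cancel_right]
  rw [e, abs_sub_comm]
  refine intervalIntegral.norm_integral_le_of_norm_le_const fun s hs => ?_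
  have hs' : s ∈ Set.Ioc (0 : ℝ) 1 := by
    constructor
    · exact lt_of_lt_of_le (lt_min hδ.1 hδ'.1) hs.1.le
    · exact hs.2.trans (max_le hδ.2 hδ'.2)
  refine (hC s hs' x hx y hy).trans ?_
  have h2 : Real.sqrt s ^ (w - n).toNat ≤ 1 :=
    pow_le_one₀ (Real.sqrt_nonneg _) (Real.sqrt_le_one.mpr hs'.2)
  calc C * Real.sqrt s ^ (w - n).toNat ≤ C * 1 := mul_le_mul_of_nonneg_left h2 hC0
    _ = C := mul_one C

theorem int_evI (h : FS k) {δ : ℝ} (h0 : 0 < δ) (h1 : δ ≤ 1) {u : En M → H}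
    (hu : ContinuousOn u V.carrier) (x : En M) :
    ∫ y, evI k δ (x, y) (u y) ∂V.μ = ∫ s in δ..1, (∫ y, ev k s (x, y) (u y) ∂V.μ) := by
  have hII : ∀ y, IntervalIntegrable (fun s => ev k s (x, y)) volume δ 1 := by
    intro y
    apply ContinuousOn.intervalIntegrable
    rw [Set.uIcc_of_le h1]
    exact IdG_cont h (x, y) h0
  have e1 : ∀ y, evI k δ (x, y) (u y) = ∫ s in δ..1, ev k s (x, y) (u y) := by
    intro y
    unfold evI
    exact ContinuousLinearMap.intervalIntegral_apply (hII y) (u y)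
  simp only [e1]
  have := V.μ_fin
  refine (intervalIntegral_integral_swap (f := fun s y => ev k s (x, y) (u y)) ?_).symm
  rw [Set.uIoc_of_le h1]
  have hc : ContinuousOn (fun q : ℝ × En M => ev k q.1 (x, q.2) (u q.2))
      (Set.Icc δ 1 ×ˢ V.carrier) := by
    have c1 : ContinuousOn (fun q : ℝ × En M => ev k q.1 (x, q.2)) (Set.Icc δ 1 ×ˢ V.carrier) := by
      have c2 : ContinuousOn (fun q : ℝ × En M => (q.1, (x, q.2))) (Set.Icc δ 1 ×ˢ V.carrier) := by
        fun_prop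
      exact (continuousOn_ev h).comp c2 fun q hq =>
        ⟨lt_of_lt_of_le h0 hq.1.1, Set.mem_univ _⟩
    have c3 : ContinuousOn (fun q : ℝ × En M => (ev k q.1 (x, q.2)).restrictScalars ℝ)
        (Set.Icc δ 1 ×ˢ V.carrier) :=
      (ContinuousLinearMap.restrictScalarsL ℂ H H ℝ ℝ).continuous.comp_continuousOn c1
    have c4 : ContinuousOn (fun q : ℝ × En M => u q.2) (Set.Icc δ 1 ×ˢ V.carrier) :=
      hu.comp continuousOn_snd fun q hq => hq.2
    exact c3.clm_apply c4
  have h2 : IntegrableOn (fun q : ℝ × En M => ev k q.1 (x, q.2) (u q.2))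
      (Set.Icc δ 1 ×ˢ V.carrier) ((volume : Measure ℝ).prod V.μ) :=
    hc.integrableOn_compact (isCompact_Icc.prod V.compact)
  have h3 : (volume.restrict (Set.Ioc δ 1)).prod V.μ =
      ((volume : Measure ℝ).prod V.μ).restrict (Set.Ioc δ 1 ×ˢ V.carrier) := by
    conv_lhs => rw [← icRow_restrict V]
    rw [Measure.prod_restrict]
  rw [h3]
  exact h2.mono_set (Set.prod_mono Set.Ioc_subset_Icc_self le_rfl)

theorem tdL_evI (hloc : V.Loc) (h : Cls V w k) {u : En M → H}
    (hu : ContinuousOn u V.carrier) (A : List (Fin M)) (hA : (n : ℤ) + A.length ≤ w) :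
    UniformCauchySeqOn
      (fun (i : ℕ) => tdL V A (fun x => ∫ y, evI k (1 / ((i : ℝ) + 2)) (x, y) (u y) ∂V.μ))
      atTop V.carrier := by
  have hFS : ∀ A : List (Fin M), FS (ftxL V A k) := by
    intro A
    induction A with
    | nil => exact h.1
    | cons a A ih => exact FS.ftx ih a
  have hCls : ∀ A : List (Fin M), Cls V (w - A.length) (ftxL V A k) := by
    intro A
    induction A with
    | nil => simpa [ftxL] using h
    | cons a A ih =>
      have h1 := Cls.ftx hloc ih a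
      have e : w - ((a :: A).length : ℤ) = w - A.length - 1 := by
        simp only [List.length_cons]
        push_cast
        ring
      rw [e]
      exact h1
  have hstep : ∀ (k' : FK M H) (_ : FS k') (a : Fin M) (δ : ℝ) (_ : 0 < δ) (_ : δ ≤ 1),
      td V a (fun x => ∫ y, evI k' δ (x, y) (u y) ∂V.μ) =
        fun x => ∫ y, evI (Dirac.ftx V a k') δ (x, y) (u y) ∂V.μ := by
    intro k' hk' a δ h0 h1
    funext x
    have hk : ContDiff ℝ ∞ (evI k' δ) := contDiff_evI hk' h0 h1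
    have hkr : ContDiff ℝ ∞ (fun p => (evI k' δ p).restrictScalars ℝ) :=
      (ContinuousLinearMap.restrictScalarsL ℂ H H ℝ ℝ).contDiff.comp hk
    unfold td
    refine (fderiv_int hkr hu x (V.P x (bv a))).trans ?_
    refine integral_congr_ae (Filter.Eventually.of_forall fun y => ?_)
    simp only
    rw [icRow_fderiv hk, ← tdx_evI (V := V) hk' a h0 h1]
    rfl
  have hL : ∀ (A : List (Fin M)) (δ : ℝ) (_ : 0 < δ) (_ : δ ≤ 1),
      tdL V A (fun x => ∫ y, evI k δ (x, y) (u y) ∂V.μ) =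
        fun x => ∫ y, evI (ftxL V A k) δ (x, y) (u y) ∂V.μ := by
    intro A δ h0 h1
    induction A with
    | nil => rfl
    | cons a A ih =>
      show td V a (tdL V A _) = _
      rw [ih]
      exact hstep _ (hFS A) a δ h0 h1
  have hδ : ∀ i : ℕ, (0 : ℝ) < 1 / ((i : ℝ) + 2) ∧ 1 / ((i : ℝ) + 2) ≤ 1 := by
    intro i
    have hi : (0 : ℝ) ≤ i := Nat.cast_nonneg i
    refine ⟨by positivity, ?_⟩
    rw [div_le_one (by positivity)]
    linarith
  obtain ⟨C, hC0, hC⟩ := evI_cauchy (hCls A) (by omega)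
  obtain ⟨U, hU⟩ : ∃ U : ℝ, ∀ y ∈ V.carrier, ‖u y‖ ≤ U :=
    V.compact.exists_bound_of_continuousOn hu
  have := V.μ_fin
  have hcont : ∀ (δ : ℝ) (_ : 0 < δ) (_ : δ ≤ 1) (x : En M),
      Integrable (fun y => evI (ftxL V A k) δ (x, y) (u y)) V.μ := by
    intro δ h0 h1 x
    have c1 : Continuous (fun y : En M => (evI (ftxL V A k) δ (x, y)).restrictScalars ℝ) :=
      (ContinuousLinearMap.restrictScalarsL ℂ H H ℝ ℝ).continuous.comp
        ((contDiff_evI (hFS A) h0 h1).continuous.comp (Continuous.prodMk_right x))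
    exact icRow_int V (c1.continuousOn.clm_apply hu)
  have hdiff : ∀ i j : ℕ, ∀ x ∈ V.carrier,
      dist (tdL V A (fun x => ∫ y, evI k (1 / ((i : ℝ) + 2)) (x, y) (u y) ∂V.μ) x)
        (tdL V A (fun x => ∫ y, evI k (1 / ((j : ℝ) + 2)) (x, y) (u y) ∂V.μ) x) ≤
      |1 / ((i : ℝ) + 2) - 1 / ((j : ℝ) + 2)| * (C * |U| * (V.μ.real Set.univ)) := by
    intro i j x hx
    rw [hL A _ (hδ i).1 (hδ i).2, hL A _ (hδ j).1 (hδ j).2, dist_eq_norm,
      ← integral_sub (hcont _ (hδ i).1 (hδ i).2 x) (hcont _ (hδ j).1 (hδ j).2 x)]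
    have h1 := norm_integral_le_of_norm_le_const (μ := V.μ)
      (f := fun y => evI (ftxL V A k) (1 / ((i : ℝ) + 2)) (x, y) (u y) -
        evI (ftxL V A k) (1 / ((j : ℝ) + 2)) (x, y) (u y))
      (C := C * |1 / ((i : ℝ) + 2) - 1 / ((j : ℝ) + 2)| * |U|) ?_
    · refine h1.trans (le_of_eq ?_)
      ring
    · filter_upwards [icRow_ae V] with y hy
      rw [← _root_.sub_apply]
      refine (ContinuousLinearMap.le_opNorm _ _).trans ?_
      exact mul_le_mul (hC _ ⟨(hδ i).1, (hδ i).2⟩ _ ⟨(hδ j).1, (hδ j).2⟩ x hx y hy)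
        ((hU y hy).trans (le_abs_self U)) (norm_nonneg _) (by positivity)
  rw [Metric.uniformCauchySeqOn_iff]
  intro ε hε
  obtain ⟨K, hK⟩ : ∃ K : ℝ, K = C * |U| * (V.μ.real Set.univ) := ⟨_, rfl⟩
  have hK0 : 0 ≤ K := by rw [hK]; positivity
  obtain ⟨N, hN⟩ := exists_nat_gt (K / ε)
  refine ⟨N, fun i hi j hj x hx => ?_⟩
  refine lt_of_le_of_lt (hdiff i j x hx) ?_
  rw [← hK]
  have hb : ∀ i : ℕ, N ≤ i → 0 < 1 / ((i : ℝ) + 2) ∧ 1 / ((i : ℝ) + 2) ≤ 1 / ((N : ℝ) + 2) := by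
    intro i hi
    refine ⟨(hδ i).1, ?_⟩
    have hi' : (N : ℝ) ≤ i := by exact_mod_cast hi
    exact one_div_le_one_div_of_le (by positivity) (by linarith)
  have h1 : |1 / ((i : ℝ) + 2) - 1 / ((j : ℝ) + 2)| ≤ 1 / ((N : ℝ) + 2) := by
    rw [abs_le]
    have := hb i hi
    have := hb j hj
    constructor <;> linarith [(hb i hi).1, (hb i hi).2, (hb j hj).1, (hb j hj).2]
  have hN0 : (0 : ℝ) ≤ N := Nat.cast_nonneg N
  calc |1 / ((i : ℝ) + 2) - 1 / ((j : ℝ) + 2)| * K ≤ 1 / ((N : ℝ) + 2) * K :=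
        mul_le_mul_of_nonneg_right h1 hK0
    _ < ε := by
      rw [div_mul_eq_mul_div, one_mul, div_lt_iff₀ (by positivity)]
      rw [div_lt_iff₀ hε] at hN
      nlinarith

end Dirac

end Pool.Agent.EXO
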