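import Pool.Agent.EXO.IdB

/-!
Project EXO, chunk IDX-A, module IeA: bounds for the realization of formal kernels.

PROOFS.
* `pow_exp`: with `z = s / √t`: `z^q exp(-z²/8)` is bounded (e.g. by `Real.pow_div_factorial_le_exp`
  or continuity and limit), `exp(-s²/(4t)) = exp(-s²/(8t)) exp(-s²/(8t))`.
* `ev_bound`: `ev_eq_sum`; for every `j`: `t^j = (√t)^(2j)`, `‖k j (x,y)‖ ≤ C_j ‖x-y‖^q` with
  `q = (w-n-2j).toNat` (`Van.bound`), `phiK = ‖x-y‖²/4`; by `pow_exp` the term is at most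
  `C (√t)^(2j+q) exp(-‖x-y‖²/(8t))` and `2j + q ≥ w - n`, `√t ≤ 1` (`zpow_le_zpow_right_of_le_one₀`).
* `ev_int`: integrate, `hV.gauss`: `∫ exp ≤ C t^l = C (√t)^n` (`n = 2 l`).
* `ev_sup`: drop the exponential; `(√t)^(w-n) = (√t)^((w-n).toNat)`.
-/

set_option autoImplicit false
set_option maxSynthPendingDepth 3

open MeasureTheory
open scoped ContDiff

namespace Pool.Agent.EXO

theorem pow_exp (q : ℕ) : ∃ C : ℝ, 0 ≤ C ∧ ∀ s : ℝ, 0 ≤ s → ∀ t : ℝ, 0 < t →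
    s ^ q * Real.exp (-(s ^ 2) / (4 * t)) ≤
      C * Real.sqrt t ^ q * Real.exp (-(s ^ 2) / (8 * t)) := by
  refine ⟨1 + 8 ^ q * (q.factorial : ℝ), by positivity, fun s hs t ht => ?_⟩
  have hr : 0 < Real.sqrt t := Real.sqrt_pos.mpr ht
  have hr2 : Real.sqrt t ^ 2 = t := Real.sq_sqrt ht.le
  obtain ⟨z, hz⟩ : ∃ z : ℝ, z = s / Real.sqrt t := ⟨_, rfl⟩
  have hz0 : 0 ≤ z := by rw [hz]; positivity
  have hs' : s = z * Real.sqrt t := by rw [hz]; field_simp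
  have h8 : s ^ 2 / (8 * t) = z ^ 2 / 8 := by
    rw [hs', mul_pow, hr2]; field_simp
  have e1 : -(s ^ 2) / (4 * t) = -(z ^ 2 / 8) + -(s ^ 2) / (8 * t) := by
    rw [← h8]; field_simp; ring
  have hfac : (0 : ℝ) < q.factorial := by exact_mod_cast q.factorial_pos
  have key : z ^ q * Real.exp (-(z ^ 2 / 8)) ≤ 1 + 8 ^ q * (q.factorial : ℝ) := by
    have h1 := Real.pow_div_factorial_le_exp (z ^ 2 / 8) (by positivity) q
    rw [div_le_iff₀ hfac] at h1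
    have h2 : z ^ q ≤ 1 + (z ^ q) ^ 2 := by nlinarith [sq_nonneg (z ^ q - 1), sq_nonneg (z ^ q)]
    have h3 : (z ^ q) ^ 2 = 8 ^ q * (z ^ 2 / 8) ^ q := by
      rw [← mul_pow, ← pow_mul, mul_comm q 2, pow_mul]
      congr 1
      ring
    have h4 : (1 : ℝ) ≤ Real.exp (z ^ 2 / 8) := Real.one_le_exp (by positivity)
    have h5 : (8 : ℝ) ^ q * (z ^ 2 / 8) ^ q ≤ 8 ^ q * (Real.exp (z ^ 2 / 8) * (q.factorial : ℝ)) :=
      mul_le_mul_of_nonneg_left h1 (by positivity)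
    have h6 : z ^ q ≤ (1 + 8 ^ q * (q.factorial : ℝ)) * Real.exp (z ^ 2 / 8) := by
      calc z ^ q ≤ 1 + (z ^ q) ^ 2 := h2
        _ ≤ Real.exp (z ^ 2 / 8) + 8 ^ q * (Real.exp (z ^ 2 / 8) * (q.factorial : ℝ)) := by
            rw [h3]; linarith
        _ = _ := by ring
    rw [Real.exp_neg]
    rw [← div_eq_mul_inv, div_le_iff₀ (Real.exp_pos _)]
    exact h6
  rw [e1, Real.exp_add]
  calc s ^ q * (Real.exp (-(z ^ 2 / 8)) * Real.exp (-(s ^ 2) / (8 * t)))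
      = (z ^ q * Real.exp (-(z ^ 2 / 8))) * (Real.sqrt t ^ q * Real.exp (-(s ^ 2) / (8 * t))) := by
        rw [show s ^ q = z ^ q * Real.sqrt t ^ q by rw [← mul_pow, ← hs']]
        ring
    _ ≤ (1 + 8 ^ q * (q.factorial : ℝ)) * (Real.sqrt t ^ q * Real.exp (-(s ^ 2) / (8 * t))) :=
        mul_le_mul_of_nonneg_right key (by positivity)
    _ = _ := by ring

namespace Dirac

variable {n M l : ℕ} {V : Geo n M} {H : Type} [NormedAddCommGroup H]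
  [InnerProductSpace ℂ H] [FiniteDimensional ℂ H] {k : FK M H} {w : ℤ}

private theorem IeA_pow {t : ℝ} (ht : t ∈ Set.Ioc (0 : ℝ) 1) (j : ℤ) (q : ℕ) (u : ℤ)
    (hu : u ≤ 2 * j + q) : t ^ j * Real.sqrt t ^ q ≤ Real.sqrt t ^ u := by
  have hr : 0 < Real.sqrt t := Real.sqrt_pos.mpr ht.1
  have hr1 : Real.sqrt t ≤ 1 := Real.sqrt_le_one.mpr ht.2
  have e : t ^ j = Real.sqrt t ^ (2 * j) := by
    rw [zpow_mul]
    congr 1
    rw [show ((2 : ℤ)) = ((2 : ℕ) : ℤ) from rfl, zpow_natCast]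
    exact (Real.sq_sqrt ht.1.le).symm
  rw [e, ← zpow_natCast, ← zpow_add₀ hr.ne']
  exact zpow_le_zpow_right_of_le_one₀ hr hr1 hu

private theorem IeA_term (h : Cls V w k) (j : ℤ) : ∃ C : ℝ, 0 ≤ C ∧ ∀ t ∈ Set.Ioc (0 : ℝ) 1,
    ∀ x ∈ V.carrier, ∀ y ∈ V.carrier,
      ‖((t ^ j * Real.exp (-(phiK (x, y)) / t) : ℝ) : ℂ) • k j (x, y)‖ ≤
      C * Real.sqrt t ^ (w - n) * Real.exp (-(‖x - y‖ ^ 2) / (8 * t)) := by
  obtain ⟨A, hA0, hA⟩ := Van.bound V.compact (h.2 j)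
  obtain ⟨B, hB0, hB⟩ := pow_exp (w - n - 2 * j).toNat
  refine ⟨A * B, by positivity, fun t ht x hx y hy => ?_⟩
  have ht0 : 0 < t := ht.1
  have hc : 0 ≤ t ^ j * Real.exp (-(phiK (x, y)) / t) := by positivity
  rw [norm_smul, Complex.norm_real, Real.norm_of_nonneg hc]
  have hphi : -(phiK (x, y)) / t = -(‖x - y‖ ^ 2) / (4 * t) := by
    unfold phiK
    field_simp
  rw [hphi]
  have h1 := hA x hx y hy
  have h2 := hB ‖x - y‖ (norm_nonneg _) t ht0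
  have h3 := IeA_pow ht j (w - n - 2 * j).toNat (w - n) (by omega)
  have hE : 0 < Real.exp (-(‖x - y‖ ^ 2) / (4 * t)) := Real.exp_pos _
  have hE8 : 0 < Real.exp (-(‖x - y‖ ^ 2) / (8 * t)) := Real.exp_pos _
  have htj : 0 < t ^ j := by positivity
  calc t ^ j * Real.exp (-(‖x - y‖ ^ 2) / (4 * t)) * ‖k j (x, y)‖
      ≤ t ^ j * Real.exp (-(‖x - y‖ ^ 2) / (4 * t)) * (A * ‖x - y‖ ^ (w - n - 2 * j).toNat) :=
        mul_le_mul_of_nonneg_left h1 (by positivity)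
    _ = A * t ^ j * (‖x - y‖ ^ (w - n - 2 * j).toNat * Real.exp (-(‖x - y‖ ^ 2) / (4 * t))) := by
        ring
    _ ≤ A * t ^ j * (B * Real.sqrt t ^ (w - n - 2 * j).toNat *
          Real.exp (-(‖x - y‖ ^ 2) / (8 * t))) :=
        mul_le_mul_of_nonneg_left h2 (by positivity)
    _ = A * B * (t ^ j * Real.sqrt t ^ (w - n - 2 * j).toNat) *
          Real.exp (-(‖x - y‖ ^ 2) / (8 * t)) := by ring
    _ ≤ A * B * (Real.sqrt t ^ (w - n)) * Real.exp (-(‖x - y‖ ^ 2) / (8 * t)) := by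
        apply mul_le_mul_of_nonneg_right _ hE8.le
        exact mul_le_mul_of_nonneg_left h3 (by positivity)

theorem ev_bound (h : Cls V w k) : ∃ C : ℝ, 0 ≤ C ∧ ∀ t ∈ Set.Ioc (0 : ℝ) 1,
    ∀ x ∈ V.carrier, ∀ y ∈ V.carrier, ‖ev k t (x, y)‖ ≤
      C * Real.sqrt t ^ (w - n) * Real.exp (-(‖x - y‖ ^ 2) / (8 * t)) := by
  choose C hC0 hC using fun j : ℤ => IeA_term h j
  obtain ⟨_, J, h2⟩ := h.1
  refine ⟨∑ j ∈ Finset.Icc (-(J : ℤ)) J, C j, Finset.sum_nonneg (fun j _ => hC0 j),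
    fun t ht x hx y hy => ?_⟩
  rw [ev_eq_sum h2, Finset.sum_mul, Finset.sum_mul]
  refine (norm_sum_le _ _).trans (Finset.sum_le_sum fun j _ => ?_)
  exact hC j t ht x hx y hy

private theorem IeA_ae (V : Geo n M) : ∀ᵐ y ∂V.μ, y ∈ V.carrier := by
  rw [ae_iff]
  exact V.μ_supp

theorem ev_int (hV : V.Good l) (h : Cls V w k) : ∃ C : ℝ, 0 ≤ C ∧ ∀ t ∈ Set.Ioc (0 : ℝ) 1,
    ∀ x ∈ V.carrier, ∫ y, ‖ev k t (x, y)‖ ∂V.μ ≤ C * Real.sqrt t ^ w := by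
  obtain ⟨C, hC0, hC⟩ := ev_bound h
  obtain ⟨G, hG⟩ := hV.gauss
  refine ⟨C * |G|, by positivity, fun t ht x hx => ?_⟩
  have := V.μ_fin
  have hr : 0 < Real.sqrt t := Real.sqrt_pos.mpr ht.1
  have hcont : Continuous (fun y : En M => Real.exp (-(‖x - y‖ ^ 2) / (8 * t))) := by fun_prop
  have hint : Integrable (fun y : En M => Real.exp (-(‖x - y‖ ^ 2) / (8 * t))) V.μ := by
    refine (integrable_const (1 : ℝ)).mono' hcont.aestronglyMeasurable ?_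
    refine Filter.Eventually.of_forall fun y => ?_
    rw [Real.norm_of_nonneg (Real.exp_pos _).le]
    apply Real.exp_le_one_iff.mpr
    have ht0 : 0 < t := ht.1
    have : 0 ≤ ‖x - y‖ ^ 2 / (8 * t) := by positivity
    rw [neg_div]
    linarith
  have h1 : ∫ y, ‖ev k t (x, y)‖ ∂V.μ ≤
      ∫ y, C * Real.sqrt t ^ (w - n) * Real.exp (-(‖x - y‖ ^ 2) / (8 * t)) ∂V.μ := by
    apply integral_mono_of_nonneg
    · exact Filter.Eventually.of_forall fun y => norm_nonneg _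
    · exact hint.const_mul _
    · filter_upwards [IeA_ae V] with y hy
      exact hC t ht x hx y hy
  rw [integral_const_mul] at h1
  have h2 : ∫ y, Real.exp (-(‖x - y‖ ^ 2) / (8 * t)) ∂V.μ ≤ |G| * t ^ l :=
    (hG x hx t ht).trans (mul_le_mul_of_nonneg_right (le_abs_self G) (by have := ht.1; positivity))
  have h3 : t ^ l = Real.sqrt t ^ (n : ℤ) := by
    rw [hV.dim, zpow_natCast, pow_mul, Real.sq_sqrt ht.1.le]
  calc ∫ y, ‖ev k t (x, y)‖ ∂V.μ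
      ≤ C * Real.sqrt t ^ (w - n) * ∫ y, Real.exp (-(‖x - y‖ ^ 2) / (8 * t)) ∂V.μ := h1
    _ ≤ C * Real.sqrt t ^ (w - n) * (|G| * t ^ l) := mul_le_mul_of_nonneg_left h2 (by positivity)
    _ = C * |G| * (Real.sqrt t ^ (w - n) * Real.sqrt t ^ (n : ℤ)) := by rw [h3]; ring
    _ = C * |G| * Real.sqrt t ^ w := by rw [← zpow_add₀ hr.ne', sub_add_cancel]

theorem ev_sup (h : Cls V w k) (hw : (n : ℤ) ≤ w) : ∃ C : ℝ, 0 ≤ C ∧
    ∀ t ∈ Set.Ioc (0 : ℝ) 1, ∀ x ∈ V.carrier, ∀ y ∈ V.carrier,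
      ‖ev k t (x, y)‖ ≤ C * Real.sqrt t ^ (w - n).toNat := by
  obtain ⟨C, hC0, hC⟩ := ev_bound h
  refine ⟨C, hC0, fun t ht x hx y hy => ?_⟩
  have h1 := hC t ht x hx y hy
  have hr : 0 < Real.sqrt t := Real.sqrt_pos.mpr ht.1
  have ht0 : 0 < t := ht.1
  have h2 : Real.exp (-(‖x - y‖ ^ 2) / (8 * t)) ≤ 1 := by
    apply Real.exp_le_one_iff.mpr
    have : 0 ≤ ‖x - y‖ ^ 2 / (8 * t) := by positivity
    rw [neg_div]
    linarith
  have h3 : Real.sqrt t ^ (w - n) = Real.sqrt t ^ (w - n).toNat := by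
    conv_lhs => rw [← Int.toNat_of_nonneg (sub_nonneg.mpr hw)]
    exact zpow_natCast _ _
  rw [← h3]
  calc ‖ev k t (x, y)‖ ≤ C * Real.sqrt t ^ (w - n) * Real.exp (-(‖x - y‖ ^ 2) / (8 * t)) := h1
    _ ≤ C * Real.sqrt t ^ (w - n) * 1 := mul_le_mul_of_nonneg_left h2 (by positivity)
    _ = _ := mul_one _

end Dirac

end Pool.Agent.EXO
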