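import Pool.Agent.EXO.IeA
import Pool.Agent.EXO.IdE
import Pool.Agent.EXO.IcRow

/-!
Project EXO, chunk IDX-A, module IeB: the limit `t → 0` and the vanishing of the leading
coefficient of `W`.

PROOFS.
* `ev_lim`: `ev k t = ev k' t + t^(-l) exp(-φ/t) k (-l)`, where `k' j = k j` for `j ≠ -l`, `k' (-l) = 0`;
  `k' ∈ Cls V 1`: for `j < -l` this is `hp` (`(1-n-2j).toNat = (-n-2j).toNat + 1`), for `j > -l`
  nothing.  So `‖∫ ev k' t (x,y) (u y)‖ ≤ C √t sup ‖u‖` (`ev_int`).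
  For the remaining term put `g(x,y) = k (-l) (x,y) (u y)`, continuous on the compact `V × V`, so
  uniformly continuous and bounded.  Given `η > 0` choose `r > 0` with `‖g(x,y) - g(x,x)‖ ≤ η` for
  `‖x-y‖ < r`.  Then
  `‖∫ t^(-l) exp(-‖x-y‖²/(4t)) (g(x,y) - g(x,x))‖ ≤ η t^(-l) ∫ exp(-‖x-y‖²/(4t))
   + 2 sup‖g‖ exp(-r²/(8t)) t^(-l) ∫ exp(-‖x-y‖²/(8t)) ≤ C η + C exp(-r²/(8t))` (`hV.gauss`).
  And `t^(-l) ∫ exp(-‖x-y‖²/(4t)) → (4π)^l` uniformly (`hV.lim`).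
  (`V.μ` is concentrated on `V`: `V.μ_supp`.)
* `heat_lim`: for a formal heat kernel: `k (-l) (x,x) = Q(x)` since `(k - k0) (-l) ∈ Van 1`
  (`Van.diag`), `Cls V 0 k`, and `hp` because `k0 j = 0` for `j < -l`.
* `W_diag`: let `u`, `v` be smooth sections.  With `K_t u (x) = ∫ ev k t (x,y) (u y)`:
  `∫ ev (fW k) t (x,y) (u y) = D (K_t u) (x) - K_t (D u) (x)` for `x ∈ V` (`ev_sub`, `opK_ev`,
  `op_int`; `opR_ev`, `mul_op`).  `K_t u` is a smooth section (`contDiff_intK`, `QL_ev`).  So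
  `∫ ⟪v, ∫ ev (fW k) t u⟫ = ∫ ⟪D v, K_t u⟫ - ∫ ⟪v, K_t (D u)⟫` (`op_symm`)
  `→ (4π)^l (∫ ⟪D v, Q u⟫ - ∫ ⟪v, Q D u⟫) = (4π)^l (∫ ⟪D v, u⟫ - ∫ ⟪v, D u⟫) = 0`.
  By `ev_lim` for `fW k` (`W_cls0`, `W_part`) the limit is `(4π)^l ∫ ⟪v x, A(x) (u x)⟫`,
  `A(x) = fW k (-l) (x,x)`.  Take `u = Q h` (`h ∈ H` constant) and `v = A u`, which is a smooth
  section (`W_QL`): `∫ ‖A(x) Q(x) h‖² = 0`, so `A Q h = 0` on `V` (continuity and `hV.pos`), and
  `A Q = A` (`W_QR`).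
-/

set_option autoImplicit false
set_option maxSynthPendingDepth 3

open MeasureTheory
open scoped ContDiff

namespace Pool.Agent.EXO

namespace Dirac

variable {n M l m : ℕ} {V : Geo n M} {H : Type} [NormedAddCommGroup H]
  [InnerProductSpace ℂ H] [FiniteDimensional ℂ H] {k : FK M H}

private noncomputable def IeB_a (l : ℕ) (k : FK M H) : FK M H :=
  fun j => if j = -(l : ℤ) then 0 else k j

private noncomputable def IeB_b (l : ℕ) (k : FK M H) : FK M H :=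
  fun j => if j = -(l : ℤ) then k j else 0

private theorem IeB_FSa (h : FS k) : FS (IeB_a l k) := by
  obtain ⟨h1, J, h2⟩ := h
  refine ⟨fun j => ?_, J, fun j hj => ?_⟩
  · by_cases hj : j = -(l : ℤ)
    · have e : IeB_a l k j = fun _ => 0 := by unfold IeB_a; rw [if_pos hj]; rfl
      rw [e]; exact contDiff_const
    · have e : IeB_a l k j = k j := by unfold IeB_a; rw [if_neg hj]
      rw [e]; exact h1 j
  · by_cases hj' : j = -(l : ℤ)
    · unfold IeB_a; rw [if_pos hj']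
    · unfold IeB_a; rw [if_neg hj']; exact h2 j hj

private theorem IeB_FSb (h : FS k) : FS (IeB_b l k) := by
  obtain ⟨h1, J, h2⟩ := h
  refine ⟨fun j => ?_, J, fun j hj => ?_⟩
  · by_cases hj : j = -(l : ℤ)
    · have e : IeB_b l k j = k j := by unfold IeB_b; rw [if_pos hj]
      rw [e]; exact h1 j
    · have e : IeB_b l k j = fun _ => 0 := by unfold IeB_b; rw [if_neg hj]; rfl
      rw [e]; exact contDiff_const
  · by_cases hj' : j = -(l : ℤ)
    · unfold IeB_b; rw [if_pos hj']; exact h2 j hj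
    · unfold IeB_b; rw [if_neg hj']

private theorem IeB_split (h : FS k) (t : ℝ) (p : En M × En M) :
    ev k t p = ev (IeB_a l k) t p +
      ((t ^ (-(l : ℤ)) * Real.exp (-(phiK p) / t) : ℝ) : ℂ) • k (-(l : ℤ)) p := by
  have e : IeB_a l k + IeB_b l k = k := by
    funext j
    rw [Pi.add_apply]
    by_cases hj : j = -(l : ℤ)
    · unfold IeB_a IeB_b; rw [if_pos hj, if_pos hj, zero_add]
    · unfold IeB_a IeB_b; rw [if_neg hj, if_neg hj, add_zero]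
  have e2 : ev (IeB_b l k) t p =
      ((t ^ (-(l : ℤ)) * Real.exp (-(phiK p) / t) : ℝ) : ℂ) • k (-(l : ℤ)) p := by
    unfold ev
    rw [finsum_eq_single _ (-(l : ℤ))]
    · unfold IeB_b; rw [if_pos rfl]
    · intro j hj
      unfold IeB_b; rw [if_neg hj, Pi.zero_apply, smul_zero]
  rw [← e2, ← ev_add (IeB_FSa h) (IeB_FSb h), e]

private theorem IeB_clsa (hn : n = 2 * l) (h : Cls V 0 k)
    (hp : ∀ j : ℤ, j < -(l : ℤ) → Van V.carrier ((-(n : ℤ) - 2 * j).toNat + 1) (k j)) :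
    Cls V 1 (IeB_a l k) := by
  refine ⟨IeB_FSa h.1, fun j => ?_⟩
  by_cases hj : j = -(l : ℤ)
  · have e : IeB_a l k j = fun _ => 0 := by unfold IeB_a; rw [if_pos hj]; rfl
    rw [e]; exact Van.zero
  · have e : IeB_a l k j = k j := by unfold IeB_a; rw [if_neg hj]
    rw [e]
    rcases lt_or_gt_of_ne hj with hlt | hgt
    · have e2 : (1 - (n : ℤ) - 2 * j).toNat = (-(n : ℤ) - 2 * j).toNat + 1 := by omega
      rw [e2]
      exact hp j hlt
    · have e2 : (1 - (n : ℤ) - 2 * j).toNat = 0 := by omega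
      rw [e2]
      exact h.1.1 j

private theorem IeB_app {f : En M → (H →L[ℂ] H)} {s : Set (En M)} (hf : ContinuousOn f s)
    {u : En M → H} (hu : ContinuousOn u s) : ContinuousOn (fun y => f y (u y)) s :=
  ContinuousOn.clm_apply hf hu

private theorem IeB_exp_le {z : ℝ} (hz : 0 < z) : Real.exp (-z) ≤ 1 / z := by
  rw [Real.exp_neg, one_div]
  apply inv_anti₀ hz
  have := Real.add_one_le_exp z
  linarith

private theorem IeB_limc (hV : V.Good l) : ∀ ε > (0 : ℝ), ∃ δ > (0 : ℝ), ∀ x ∈ V.carrier,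
    ∀ t ∈ Set.Ioo (0 : ℝ) δ,
    |t ^ (-(l : ℤ)) * (∫ y, Real.exp (-(‖x - y‖ ^ 2) / (4 * t)) ∂V.μ) - (4 * Real.pi) ^ l|
      ≤ ε := by
  intro ε hε
  have hpi : (0 : ℝ) < (4 * Real.pi) ^ l := by positivity
  obtain ⟨δ, hδ, h⟩ := hV.lim (ε / (4 * Real.pi) ^ l) (by positivity)
  refine ⟨δ, hδ, fun x hx t ht => ?_⟩
  have h1 := h x hx t ht
  have ht0 : 0 < t := ht.1
  have e : t ^ (-(l : ℤ)) * (∫ y, Real.exp (-(‖x - y‖ ^ 2) / (4 * t)) ∂V.μ) - (4 * Real.pi) ^ l =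
      (4 * Real.pi) ^ l * ((4 * Real.pi * t)⁻¹ ^ l *
        (∫ y, Real.exp (-(‖x - y‖ ^ 2) / (4 * t)) ∂V.μ) - 1) := by
    have e0 : (4 * Real.pi * t)⁻¹ ^ l = ((4 * Real.pi) ^ l)⁻¹ * (t ^ l)⁻¹ := by
      rw [inv_pow, mul_pow (4 * Real.pi) t, mul_inv]
    rw [e0, zpow_neg, zpow_natCast, mul_sub, mul_one, ← mul_assoc, ← mul_assoc,
      mul_inv_cancel₀ hpi.ne', one_mul]
  rw [e, abs_mul, abs_of_pos hpi]
  calc (4 * Real.pi) ^ l * |(4 * Real.pi * t)⁻¹ ^ l *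
        (∫ y, Real.exp (-(‖x - y‖ ^ 2) / (4 * t)) ∂V.μ) - 1|
      ≤ (4 * Real.pi) ^ l * (ε / (4 * Real.pi) ^ l) := mul_le_mul_of_nonneg_left h1 hpi.le
    _ = ε := by field_simp

private theorem IeB_pt {t r s η' A B : ℝ} (ht : 0 < t) (hr : 0 < r) (_hs : 0 ≤ s) (hη : 0 ≤ η')
    (hA : 0 ≤ A) (h1 : s < r → B ≤ η') (h2 : B ≤ A) (hB : 0 ≤ B) :
    Real.exp (-(s ^ 2) / (4 * t)) * B ≤
      (η' + A * (8 * t / r ^ 2)) * Real.exp (-(s ^ 2) / (8 * t)) := by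
  have hE : 0 < Real.exp (-(s ^ 2) / (8 * t)) := Real.exp_pos _
  have e1 : Real.exp (-(s ^ 2) / (4 * t)) =
      Real.exp (-(s ^ 2) / (8 * t)) * Real.exp (-(s ^ 2) / (8 * t)) := by
    rw [← Real.exp_add]; congr 1; field_simp; ring
  have hE1 : Real.exp (-(s ^ 2) / (8 * t)) ≤ 1 := by
    apply Real.exp_le_one_iff.mpr
    have : 0 ≤ s ^ 2 / (8 * t) := by positivity
    rw [neg_div]
    linarith
  rw [e1]
  by_cases hsr : s < r
  · have h3 := h1 hsr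
    have h4 : 0 ≤ A * (8 * t / r ^ 2) := by positivity
    calc Real.exp (-(s ^ 2) / (8 * t)) * Real.exp (-(s ^ 2) / (8 * t)) * B
        = (Real.exp (-(s ^ 2) / (8 * t)) * B) * Real.exp (-(s ^ 2) / (8 * t)) := by ring
      _ ≤ (1 * η') * Real.exp (-(s ^ 2) / (8 * t)) := by
          apply mul_le_mul_of_nonneg_right _ hE.le
          exact mul_le_mul hE1 h3 hB (by norm_num)
      _ ≤ _ := by
          apply mul_le_mul_of_nonneg_right _ hE.le
          linarith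
  · push Not at hsr
    have h5 : Real.exp (-(s ^ 2) / (8 * t)) ≤ 8 * t / r ^ 2 := by
      have h6 : Real.exp (-(s ^ 2) / (8 * t)) ≤ Real.exp (-(r ^ 2 / (8 * t))) := by
        apply Real.exp_le_exp.mpr
        rw [neg_div]
        apply neg_le_neg
        apply div_le_div_of_nonneg_right _ (by positivity)
        exact pow_le_pow_left₀ hr.le hsr 2
      have h7 := IeB_exp_le (z := r ^ 2 / (8 * t)) (by positivity)
      have h8 : 1 / (r ^ 2 / (8 * t)) = 8 * t / r ^ 2 := by field_simp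
      rw [h8] at h7
      exact h6.trans h7
    calc Real.exp (-(s ^ 2) / (8 * t)) * Real.exp (-(s ^ 2) / (8 * t)) * B
        = (B * Real.exp (-(s ^ 2) / (8 * t))) * Real.exp (-(s ^ 2) / (8 * t)) := by ring
      _ ≤ (A * (8 * t / r ^ 2)) * Real.exp (-(s ^ 2) / (8 * t)) := by
          apply mul_le_mul_of_nonneg_right _ hE.le
          exact mul_le_mul h2 h5 hE.le hA
      _ ≤ _ := by
          apply mul_le_mul_of_nonneg_right _ hE.le
          linarith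

theorem ev_lim (hV : V.Good l) (h : Cls V 0 k)
    (hp : ∀ j : ℤ, j < -(l : ℤ) → Van V.carrier ((-(n : ℤ) - 2 * j).toNat + 1) (k j))
    {u : En M → H} (hu : ContinuousOn u V.carrier) :
    ∀ η > (0 : ℝ), ∃ δ > (0 : ℝ), ∀ t ∈ Set.Ioo (0 : ℝ) δ, ∀ x ∈ V.carrier,
      ‖(∫ y, ev k t (x, y) (u y) ∂V.μ) -
        ((4 * Real.pi : ℝ) ^ l : ℂ) • k (-(l : ℤ)) (x, x) (u x)‖ ≤ η := by
  intro η hη
  have hμ := V.μ_fin
  have hka : Cls V 1 (IeB_a l k) := IeB_clsa hV.dim h hp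
  obtain ⟨C1, hC10, hC1⟩ := ev_int hV hka
  obtain ⟨U, hU⟩ := V.compact.exists_bound_of_continuousOn hu
  have hkc : Continuous (k (-(l : ℤ))) := (h.1.1 (-(l : ℤ))).continuous
  have hVV : IsCompact (V.carrier ×ˢ V.carrier) := V.compact.prod V.compact
  obtain ⟨K, hK⟩ := hVV.exists_bound_of_continuousOn hkc.continuousOn
  obtain ⟨G, hG⟩ := hV.gauss
  have hU' : ∀ y ∈ V.carrier, ‖u y‖ ≤ |U| := fun y hy => (hU y hy).trans (le_abs_self U)
  have hK' : ∀ p ∈ V.carrier ×ˢ V.carrier, ‖k (-(l : ℤ)) p‖ ≤ |K| :=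
    fun p hp => (hK p hp).trans (le_abs_self K)
  have hgc : ContinuousOn (fun p : En M × En M => k (-(l : ℤ)) p (u p.2))
      (V.carrier ×ˢ V.carrier) :=
    ContinuousOn.clm_apply hkc.continuousOn
      (hu.comp continuousOn_snd (fun p hp => hp.2))
  have hgb : ∀ x ∈ V.carrier, ∀ y ∈ V.carrier, ‖k (-(l : ℤ)) (x, y) (u y)‖ ≤ |K| * |U| := by
    intro x hx y hy
    refine (ContinuousLinearMap.le_opNorm _ _).trans ?_
    exact mul_le_mul (hK' (x, y) ⟨hx, hy⟩) (hU' y hy) (norm_nonneg _) (abs_nonneg _)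
  obtain ⟨η', hη'⟩ : ∃ η' : ℝ, η' = η / (4 * (|G| + 1)) := ⟨_, rfl⟩
  have hη'0 : 0 < η' := by rw [hη']; positivity
  obtain ⟨r, hr, huc⟩ := Metric.uniformContinuousOn_iff.mp
    (hVV.uniformContinuousOn_of_continuous hgc) η' hη'0
  obtain ⟨δ2, hδ2, hlim⟩ := IeB_limc hV (η / (4 * (|K| * |U| + 1))) (by positivity)
  obtain ⟨δ3, hδ3⟩ : ∃ δ3 : ℝ, δ3 = (η / (4 * (C1 * |U| + 1))) ^ 2 := ⟨_, rfl⟩
  have hδ30 : 0 < δ3 := by rw [hδ3]; positivity
  obtain ⟨δ4, hδ4⟩ : ∃ δ4 : ℝ, δ4 = η' * r ^ 2 / (16 * (|K| * |U| + 1)) := ⟨_, rfl⟩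
  have hδ40 : 0 < δ4 := by rw [hδ4]; positivity
  refine ⟨min (min 1 δ2) (min δ3 δ4), by positivity, fun t ht x hx => ?_⟩
  have ht0 : 0 < t := ht.1
  have ht1 : t < 1 := ht.2.trans_le ((min_le_left _ _).trans (min_le_left _ _))
  have ht2 : t < δ2 := ht.2.trans_le ((min_le_left _ _).trans (min_le_right _ _))
  have ht3 : t < δ3 := ht.2.trans_le ((min_le_right _ _).trans (min_le_left _ _))
  have ht4 : t < δ4 := ht.2.trans_le ((min_le_right _ _).trans (min_le_right _ _))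
  have htl : 0 < t ^ (-(l : ℤ)) := by positivity
  -- integrability
  have hslice : ∀ {f : En M × En M → (H →L[ℂ] H)}, Continuous f →
      Integrable (fun y => f (x, y) (u y)) V.μ := by
    intro f hf
    exact icRow_int V (IeB_app (hf.comp (Continuous.prodMk_right x)).continuousOn hu)
  have hsc : ∀ y : En M, ((t ^ (-(l : ℤ)) * Real.exp (-(phiK (x, y)) / t) : ℝ) : ℂ) =
      ((t ^ (-(l : ℤ)) * Real.exp (-(‖x - y‖ ^ 2) / (4 * t)) : ℝ) : ℂ) := by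
    intro y
    congr 3
    unfold phiK
    field_simp
  have hcc : Continuous (fun y : En M => ((t ^ (-(l : ℤ)) *
      Real.exp (-(‖x - y‖ ^ 2) / (4 * t)) : ℝ) : ℂ)) := by fun_prop
  have hev : ∀ y : En M, ev k t (x, y) (u y) = ev (IeB_a l k) t (x, y) (u y) +
      ((t ^ (-(l : ℤ)) * Real.exp (-(‖x - y‖ ^ 2) / (4 * t)) : ℝ) : ℂ) •
        k (-(l : ℤ)) (x, y) (u y) := by
    intro y
    rw [IeB_split (l := l) h.1, hsc y]
    rfl
  have hi1 : Integrable (fun y => ev (IeB_a l k) t (x, y) (u y)) V.μ :=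
    hslice (contDiff_ev hka.1 ht0).continuous
  have hgy : ContinuousOn (fun y => k (-(l : ℤ)) (x, y) (u y)) V.carrier :=
    IeB_app (hkc.comp (Continuous.prodMk_right x)).continuousOn hu
  have hi2 : Integrable (fun y => ((t ^ (-(l : ℤ)) * Real.exp (-(‖x - y‖ ^ 2) / (4 * t)) : ℝ) : ℂ) •
        k (-(l : ℤ)) (x, y) (u y)) V.μ :=
    icRow_int V (hcc.continuousOn.smul hgy)
  have hi3 : Integrable (fun y => ((t ^ (-(l : ℤ)) * Real.exp (-(‖x - y‖ ^ 2) / (4 * t)) : ℝ) : ℂ) •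
        k (-(l : ℤ)) (x, x) (u x)) V.μ :=
    icRow_int V (hcc.continuousOn.smul continuousOn_const)
  have hi4 : Integrable (fun y => (t ^ (-(l : ℤ)) * Real.exp (-(‖x - y‖ ^ 2) / (4 * t)) : ℝ)) V.μ :=
    icRow_int V (by fun_prop : Continuous fun y : En M =>
      (t ^ (-(l : ℤ)) * Real.exp (-(‖x - y‖ ^ 2) / (4 * t)) : ℝ)).continuousOn
  have hi5 : Integrable (fun y => Real.exp (-(‖x - y‖ ^ 2) / (8 * t))) V.μ :=
    icRow_int V (by fun_prop : Continuous fun y : En M =>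
      Real.exp (-(‖x - y‖ ^ 2) / (8 * t))).continuousOn
  have hdec : (∫ y, ev k t (x, y) (u y) ∂V.μ) -
        ((4 * Real.pi : ℝ) ^ l : ℂ) • k (-(l : ℤ)) (x, x) (u x) =
      (∫ y, ev (IeB_a l k) t (x, y) (u y) ∂V.μ) +
      (∫ y, (((t ^ (-(l : ℤ)) * Real.exp (-(‖x - y‖ ^ 2) / (4 * t)) : ℝ) : ℂ) •
        k (-(l : ℤ)) (x, y) (u y) -
        ((t ^ (-(l : ℤ)) * Real.exp (-(‖x - y‖ ^ 2) / (4 * t)) : ℝ) : ℂ) •
        k (-(l : ℤ)) (x, x) (u x)) ∂V.μ) +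
      ((t ^ (-(l : ℤ)) * (∫ y, Real.exp (-(‖x - y‖ ^ 2) / (4 * t)) ∂V.μ) -
        (4 * Real.pi) ^ l : ℝ) : ℂ) • k (-(l : ℤ)) (x, x) (u x) := by
    rw [integral_congr_ae (Filter.Eventually.of_forall hev), integral_add hi1 hi2,
      integral_sub hi2 hi3, integral_smul_const, integral_complex_ofReal, integral_const_mul]
    push_cast
    rw [sub_smul]
    abel
  rw [hdec]
  have b1 : ‖∫ y, ev (IeB_a l k) t (x, y) (u y) ∂V.μ‖ ≤ η / 4 := by
    have c1 : ‖∫ y, ev (IeB_a l k) t (x, y) (u y) ∂V.μ‖ ≤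
        ∫ y, ‖ev (IeB_a l k) t (x, y)‖ * |U| ∂V.μ := by
      apply norm_integral_le_of_norm_le
      · apply Integrable.mul_const
        exact icRow_int V (((contDiff_ev hka.1 ht0).continuous.comp
          (Continuous.prodMk_right x)).norm).continuousOn
      · filter_upwards [icRow_ae V] with y hy
        refine (ContinuousLinearMap.le_opNorm _ _).trans ?_
        exact mul_le_mul_of_nonneg_left (hU' y hy) (norm_nonneg _)
    rw [integral_mul_const] at c1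
    have c2 := hC1 t ⟨ht0, ht1.le⟩ x hx
    rw [zpow_one] at c2
    have c3 : Real.sqrt t ≤ η / (4 * (C1 * |U| + 1)) := by
      apply Real.sqrt_le_iff.mpr
      refine ⟨by positivity, ?_⟩
      rw [← hδ3]; exact ht3.le
    calc ‖∫ y, ev (IeB_a l k) t (x, y) (u y) ∂V.μ‖ ≤ (C1 * Real.sqrt t) * |U| :=
          c1.trans (mul_le_mul_of_nonneg_right c2 (abs_nonneg _))
      _ = (C1 * |U|) * Real.sqrt t := by ring
      _ ≤ (C1 * |U| + 1) * (η / (4 * (C1 * |U| + 1))) := by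
          apply mul_le_mul (by linarith) c3 (Real.sqrt_nonneg _) (by positivity)
      _ = η / 4 := by field_simp
  have b2 : ‖∫ y, (((t ^ (-(l : ℤ)) * Real.exp (-(‖x - y‖ ^ 2) / (4 * t)) : ℝ) : ℂ) •
        k (-(l : ℤ)) (x, y) (u y) -
        ((t ^ (-(l : ℤ)) * Real.exp (-(‖x - y‖ ^ 2) / (4 * t)) : ℝ) : ℂ) •
        k (-(l : ℤ)) (x, x) (u x)) ∂V.μ‖ ≤ η / 2 := by
    have c1 : ‖∫ y, (((t ^ (-(l : ℤ)) * Real.exp (-(‖x - y‖ ^ 2) / (4 * t)) : ℝ) : ℂ) •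
        k (-(l : ℤ)) (x, y) (u y) -
        ((t ^ (-(l : ℤ)) * Real.exp (-(‖x - y‖ ^ 2) / (4 * t)) : ℝ) : ℂ) •
        k (-(l : ℤ)) (x, x) (u x)) ∂V.μ‖ ≤
        ∫ y, t ^ (-(l : ℤ)) * (η' + (2 * (|K| * |U|)) * (8 * t / r ^ 2)) *
          Real.exp (-(‖x - y‖ ^ 2) / (8 * t)) ∂V.μ := by
      apply norm_integral_le_of_norm_le
      · exact hi5.const_mul _
      · filter_upwards [icRow_ae V] with y hy
        have hc0 : 0 ≤ t ^ (-(l : ℤ)) * Real.exp (-(‖x - y‖ ^ 2) / (4 * t)) := by positivity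
        rw [← smul_sub, norm_smul, Complex.norm_real, Real.norm_of_nonneg hc0, mul_assoc, mul_assoc]
        apply mul_le_mul_of_nonneg_left _ htl.le
        apply IeB_pt ht0 hr (norm_nonneg _) hη'0.le (by positivity)
        · intro hxy
          have d1 := huc (x, y) ⟨hx, hy⟩ (x, x) ⟨hx, hx⟩ (by
            rw [Prod.dist_eq]
            simp only [dist_self]
            rw [max_lt_iff]
            refine ⟨hr, ?_⟩
            rw [dist_comm, dist_eq_norm]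
            exact hxy)
          rw [dist_eq_norm] at d1
          exact d1.le
        · calc ‖k (-(l : ℤ)) (x, y) (u y) - k (-(l : ℤ)) (x, x) (u x)‖
              ≤ ‖k (-(l : ℤ)) (x, y) (u y)‖ + ‖k (-(l : ℤ)) (x, x) (u x)‖ := norm_sub_le _ _
            _ ≤ |K| * |U| + |K| * |U| := add_le_add (hgb x hx y hy) (hgb x hx x hx)
            _ = 2 * (|K| * |U|) := by ring
        · exact norm_nonneg _
    rw [integral_const_mul] at c1
    have c2 : ∫ y, Real.exp (-(‖x - y‖ ^ 2) / (8 * t)) ∂V.μ ≤ |G| * t ^ l :=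
      (hG x hx t ⟨ht0, ht1.le⟩).trans (mul_le_mul_of_nonneg_right (le_abs_self G) (by positivity))
    have c3 : (2 * (|K| * |U|)) * (8 * t / r ^ 2) ≤ η' := by
      have c4 : t ≤ η' * r ^ 2 / (16 * (|K| * |U| + 1)) := by rw [← hδ4]; exact ht4.le
      rw [le_div_iff₀ (by positivity)] at c4
      have hr2 : 0 < r ^ 2 := by positivity
      rw [mul_div_assoc', div_le_iff₀ hr2]
      have : 0 ≤ |K| * |U| := by positivity
      nlinarith
    have c5 : t ^ (-(l : ℤ)) * t ^ l = 1 := by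
      rw [zpow_neg, zpow_natCast]
      exact inv_mul_cancel₀ (by positivity)
    calc ‖∫ y, (((t ^ (-(l : ℤ)) * Real.exp (-(‖x - y‖ ^ 2) / (4 * t)) : ℝ) : ℂ) •
        k (-(l : ℤ)) (x, y) (u y) -
        ((t ^ (-(l : ℤ)) * Real.exp (-(‖x - y‖ ^ 2) / (4 * t)) : ℝ) : ℂ) •
        k (-(l : ℤ)) (x, x) (u x)) ∂V.μ‖
        ≤ t ^ (-(l : ℤ)) * (η' + (2 * (|K| * |U|)) * (8 * t / r ^ 2)) * (|G| * t ^ l) := by
          refine c1.trans (mul_le_mul_of_nonneg_left c2 ?_)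
          positivity
      _ = (t ^ (-(l : ℤ)) * t ^ l) * ((η' + (2 * (|K| * |U|)) * (8 * t / r ^ 2)) * |G|) := by ring
      _ = (η' + (2 * (|K| * |U|)) * (8 * t / r ^ 2)) * |G| := by rw [c5, one_mul]
      _ ≤ (η' + η') * |G| := by
          apply mul_le_mul_of_nonneg_right _ (abs_nonneg _)
          linarith
      _ ≤ (η' + η') * (|G| + 1) := by
          apply mul_le_mul_of_nonneg_left _ (by positivity)
          linarith
      _ = η / 2 := by rw [hη']; field_simp; ring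
  have b3 : ‖((t ^ (-(l : ℤ)) * (∫ y, Real.exp (-(‖x - y‖ ^ 2) / (4 * t)) ∂V.μ) -
        (4 * Real.pi) ^ l : ℝ) : ℂ) • k (-(l : ℤ)) (x, x) (u x)‖ ≤ η / 4 := by
    rw [norm_smul, Complex.norm_real, Real.norm_eq_abs]
    have c1 := hlim x hx t ⟨ht0, ht2⟩
    have c2 := hgb x hx x hx
    calc |t ^ (-(l : ℤ)) * (∫ y, Real.exp (-(‖x - y‖ ^ 2) / (4 * t)) ∂V.μ) -
        (4 * Real.pi) ^ l| * ‖k (-(l : ℤ)) (x, x) (u x)‖
        ≤ (η / (4 * (|K| * |U| + 1))) * (|K| * |U| + 1) := by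
          apply mul_le_mul c1 (by linarith) (norm_nonneg _) (by positivity)
      _ = η / 4 := by field_simp
  calc _ ≤ η / 4 + η / 2 + η / 4 := norm_add₃_le.trans (add_le_add (add_le_add b1 b2) b3)
    _ = η := by ring

variable (𝔇 : Dirac V H)

theorem heat_cls0 (hV : V.Good l) (h : 𝔇.IsHeat l m k) : Cls V 0 k := by
  have h1 := Cls.add (𝔇.Cls_k0 (l := l) hV.dim) (Cls.mono (by norm_num : (0 : ℤ) ≤ 1) h.lead)
  rwa [add_sub_cancel] at h1

theorem heat_diag (hV : V.Good l) (h : 𝔇.IsHeat l m k) {x : En M} (hx : x ∈ V.carrier) :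
    k (-(l : ℤ)) (x, x) = 𝔇.Q x := by
  have h1 := h.lead.2 (-(l : ℤ))
  have e : (1 - (n : ℤ) - 2 * (-(l : ℤ))).toNat = 0 + 1 := by
    have := hV.dim
    omega
  rw [e] at h1
  have h2 := Van.diag h1 hx
  rw [Pi.sub_apply, Pi.sub_apply, sub_eq_zero] at h2
  rw [h2]
  unfold Dirac.k0
  rw [if_pos rfl]
  exact 𝔇.Q_idem x hx

private theorem IeB_hp (h : 𝔇.IsHeat l m k) (hn : n = 2 * l) :
    ∀ j : ℤ, j < -(l : ℤ) → Van V.carrier ((-(n : ℤ) - 2 * j).toNat + 1) (k j) := by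
  intro j hj
  have h1 := h.lead.2 j
  have e : (1 - (n : ℤ) - 2 * j).toNat = (-(n : ℤ) - 2 * j).toNat + 1 := by omega
  rw [e] at h1
  have e2 : (k - 𝔇.k0 l) j = k j := by
    rw [Pi.sub_apply]
    have e3 : 𝔇.k0 l j = 0 := by
      funext p
      unfold Dirac.k0
      rw [if_neg hj.ne]
      rfl
    rw [e3, sub_zero]
  rwa [e2] at h1

theorem heat_lim (hV : V.Good l) (h : 𝔇.IsHeat l m k) {u : En M → H}
    (hu : ContinuousOn u V.carrier) :
    ∀ η > (0 : ℝ), ∃ δ > (0 : ℝ), ∀ t ∈ Set.Ioo (0 : ℝ) δ, ∀ x ∈ V.carrier,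
      ‖(∫ y, ev k t (x, y) (u y) ∂V.μ) - ((4 * Real.pi : ℝ) ^ l : ℂ) • 𝔇.Q x (u x)‖ ≤ η := by
  intro η hη
  obtain ⟨δ, hδ, h1⟩ := ev_lim hV (𝔇.heat_cls0 hV h) (𝔇.IeB_hp h hV.dim) hu η hη
  refine ⟨δ, hδ, fun t ht x hx => ?_⟩
  have h2 := h1 t ht x hx
  rwa [𝔇.heat_diag hV h hx] at h2

omit [FiniteDimensional ℂ H] in
private theorem IeB_pair (V : Geo n M) {a b b' : En M → H} (ha : ContinuousOn a V.carrier)
    (hb : ContinuousOn b V.carrier) (hb' : ContinuousOn b' V.carrier) {η : ℝ}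
    (h : ∀ x ∈ V.carrier, ‖b x - b' x‖ ≤ η) :
    ‖(∫ x, inner ℂ (a x) (b x) ∂V.μ) - ∫ x, inner ℂ (a x) (b' x) ∂V.μ‖ ≤
      (∫ x, ‖a x‖ ∂V.μ) * η := by
  have i1 : Integrable (fun x => inner ℂ (a x) (b x)) V.μ := icRow_int V (ha.inner hb)
  have i2 : Integrable (fun x => inner ℂ (a x) (b' x)) V.μ := icRow_int V (ha.inner hb')
  rw [← integral_sub i1 i2, ← integral_mul_const]
  apply norm_integral_le_of_norm_le
  · exact (icRow_int V ha.norm).mul_const _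
  · filter_upwards [icRow_ae V] with x hx
    rw [← inner_sub_right]
    exact (norm_inner_le_norm _ _).trans (mul_le_mul_of_nonneg_left (h x hx) (norm_nonneg _))

private theorem IeB_weak (hV : V.Good l) (h : 𝔇.IsHeat l m k) {u v : En M → H} (hu : 𝔇.IsSec u)
    (hv : 𝔇.IsSec v) :
    ∫ x, inner ℂ (v x) (𝔇.fW k (-(l : ℤ)) (x, x) (u x)) ∂V.μ = 0 := by
  have hμ := V.μ_fin
  have hW := 𝔇.W_cls0 hV h
  have hou := 𝔇.op_isSec hu
  have hov := 𝔇.op_isSec hv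
  have cu : ContinuousOn u V.carrier := hu.1.continuous.continuousOn
  have cv : ContinuousOn v V.carrier := hv.1.continuous.continuousOn
  have cou : ContinuousOn (𝔇.op u) V.carrier := hou.1.continuous.continuousOn
  have cov : ContinuousOn (𝔇.op v) V.carrier := hov.1.continuous.continuousOn
  have hAc : Continuous (fun x : En M => 𝔇.fW k (-(l : ℤ)) (x, x)) :=
    (hW.1.1 (-(l : ℤ))).continuous.comp (continuous_id.prodMk continuous_id)
  have cA : ContinuousOn (fun x => 𝔇.fW k (-(l : ℤ)) (x, x) (u x)) V.carrier :=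
    IeB_app hAc.continuousOn cu
  obtain ⟨P, hP⟩ : ∃ P : ℂ, P = ((4 * Real.pi : ℝ) ^ l : ℂ) := ⟨_, rfl⟩
  have hP0 : P ≠ 0 := by
    rw [hP]
    apply pow_ne_zero
    rw [Complex.ofReal_ne_zero]
    positivity
  obtain ⟨B, hB⟩ : ∃ B : ℝ, B = 2 * (∫ x, ‖v x‖ ∂V.μ) + ∫ x, ‖𝔇.op v x‖ ∂V.μ := ⟨_, rfl⟩
  have hB0 : 0 ≤ B := by
    rw [hB]
    have a1 : 0 ≤ ∫ x, ‖v x‖ ∂V.μ := integral_nonneg fun x => norm_nonneg _
    have a2 : 0 ≤ ∫ x, ‖𝔇.op v x‖ ∂V.μ := integral_nonneg fun x => norm_nonneg _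
    linarith
  have key : ∀ η > (0 : ℝ),
      ‖P * ∫ x, inner ℂ (v x) (𝔇.fW k (-(l : ℤ)) (x, x) (u x)) ∂V.μ‖ ≤ B * η := by
    intro η hη
    obtain ⟨d1, hd1, g1⟩ := ev_lim hV hW (𝔇.W_part hV h) cu η hη
    obtain ⟨d2, hd2, g2⟩ := 𝔇.heat_lim hV h cu η hη
    obtain ⟨d3, hd3, g3⟩ := 𝔇.heat_lim hV h cou η hη
    obtain ⟨t, ht⟩ : ∃ t : ℝ, t = min d1 (min d2 d3) / 2 := ⟨_, rfl⟩
    have hm : 0 < min d1 (min d2 d3) := by positivity
    have ht0 : 0 < t := by rw [ht]; positivity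
    have htm : t < min d1 (min d2 d3) := by rw [ht]; linarith
    have t1 : t ∈ Set.Ioo (0 : ℝ) d1 := ⟨ht0, htm.trans_le (min_le_left _ _)⟩
    have t2 : t ∈ Set.Ioo (0 : ℝ) d2 :=
      ⟨ht0, htm.trans_le ((min_le_right _ _).trans (min_le_left _ _))⟩
    have t3 : t ∈ Set.Ioo (0 : ℝ) d3 :=
      ⟨ht0, htm.trans_le ((min_le_right _ _).trans (min_le_right _ _))⟩
    have hek := contDiff_ev h.fs ht0
    have heW := contDiff_ev hW.1 ht0
    have k1 : ContDiff ℝ ∞ (fun x => ∫ y, ev k t (x, y) (u y) ∂V.μ) := contDiff_intK hek cu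
    have k2 : ContDiff ℝ ∞ (fun x => ∫ y, ev k t (x, y) (𝔇.op u y) ∂V.μ) := contDiff_intK hek cou
    have k3 : ContDiff ℝ ∞ (fun x => ∫ y, ev (𝔇.fW k) t (x, y) (u y) ∂V.μ) := contDiff_intK heW cu
    have hsl : ∀ {f : En M × En M → (H →L[ℂ] H)}, Continuous f → ∀ {w : En M → H},
        ContinuousOn w V.carrier → ∀ x, Integrable (fun y => f (x, y) (w y)) V.μ := by
      intro f hf w hw x
      exact icRow_int V (IeB_app (hf.comp (Continuous.prodMk_right x)).continuousOn hw)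
    have sK : 𝔇.IsSec (fun x => ∫ y, ev k t (x, y) (u y) ∂V.μ) := by
      refine ⟨k1, fun x hx => ?_⟩
      rw [← ContinuousLinearMap.integral_comp_comm (𝔇.Q x) (hsl hek.continuous cu x)]
      apply integral_congr_ae
      filter_upwards [icRow_ae V] with y hy
      have q1 := 𝔇.QL_ev h.fs h.ql t x hx y hy
      exact congrArg (fun T : H →L[ℂ] H => T (u y)) q1
    have f1 : ∀ x ∈ V.carrier, ∫ y, ev (𝔇.fW k) t (x, y) (u y) ∂V.μ =
        𝔇.op (fun x => ∫ y, ev k t (x, y) (u y) ∂V.μ) x -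
          ∫ y, ev k t (x, y) (𝔇.op u y) ∂V.μ := by
      intro x hx
      rw [𝔇.op_int hek cu x, 𝔇.mul_op hV hek (𝔇.QR_ev h.fs h.qr t) hu hx]
      rw [← integral_sub (hsl (𝔇.contDiff_opK hek).continuous cu x)
        (hsl (𝔇.contDiff_opR hek).continuous cu x)]
      apply integral_congr_ae
      refine Filter.Eventually.of_forall fun y => ?_
      simp only
      have q2 : ev (𝔇.fW k) t (x, y) = 𝔇.opK (ev k t) (x, y) - 𝔇.opR (ev k t) (x, y) := by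
        rw [𝔇.opK_ev h.fs ht0, 𝔇.opR_ev h.fs ht0]
        exact ev_sub (FS.fD 𝔇 h.fs) (FS.fR 𝔇 h.fs) t (x, y)
      rw [q2]
      rfl
    -- the three estimates
    have e1 := IeB_pair V cv k3.continuous.continuousOn
      (b' := fun x => ((4 * Real.pi : ℝ) ^ l : ℂ) • 𝔇.fW k (-(l : ℤ)) (x, x) (u x))
      (continuousOn_const.smul cA) (g1 t t1)
    have e2 := IeB_pair V cov k1.continuous.continuousOn
      (b' := fun x => ((4 * Real.pi : ℝ) ^ l : ℂ) • 𝔇.Q x (u x))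
      (continuousOn_const.smul (IeB_app 𝔇.smoothQ.continuous.continuousOn cu)) (g2 t t2)
    have e3 := IeB_pair V cv k2.continuous.continuousOn
      (b' := fun x => ((4 * Real.pi : ℝ) ^ l : ℂ) • 𝔇.Q x (𝔇.op u x))
      (continuousOn_const.smul (IeB_app 𝔇.smoothQ.continuous.continuousOn cou)) (g3 t t3)
    rw [← hP] at e1 e2 e3
    simp only [inner_smul_right] at e1 e2 e3
    rw [integral_const_mul] at e1 e2 e3
    have r2 : ∫ x, inner ℂ (𝔇.op v x) (𝔇.Q x (u x)) ∂V.μ = ∫ x, inner ℂ (𝔇.op v x) (u x) ∂V.μ := by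
      apply integral_congr_ae
      filter_upwards [icRow_ae V] with x hx
      rw [hu.2 x hx]
    have r3 : ∫ x, inner ℂ (v x) (𝔇.Q x (𝔇.op u x)) ∂V.μ = ∫ x, inner ℂ (v x) (𝔇.op u x) ∂V.μ := by
      apply integral_congr_ae
      filter_upwards [icRow_ae V] with x hx
      rw [hou.2 x hx]
    rw [r2] at e2
    rw [r3] at e3
    have r4 : ∫ x, inner ℂ (𝔇.op v x) (u x) ∂V.μ = ∫ x, inner ℂ (v x) (𝔇.op u x) ∂V.μ :=
      𝔇.op_symm hV hv hu
    have r5 : ∫ x, inner ℂ (𝔇.op v x) (∫ y, ev k t (x, y) (u y) ∂V.μ) ∂V.μ =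
        ∫ x, inner ℂ (v x) (𝔇.op (fun x => ∫ y, ev k t (x, y) (u y) ∂V.μ) x) ∂V.μ :=
      𝔇.op_symm hV hv sK
    have r6 : ∫ x, inner ℂ (v x) (∫ y, ev (𝔇.fW k) t (x, y) (u y) ∂V.μ) ∂V.μ =
        (∫ x, inner ℂ (𝔇.op v x) (∫ y, ev k t (x, y) (u y) ∂V.μ) ∂V.μ) -
        ∫ x, inner ℂ (v x) (∫ y, ev k t (x, y) (𝔇.op u y) ∂V.μ) ∂V.μ := by
      rw [r5, ← integral_sub
        (icRow_int V (cv.inner (𝔇.contDiff_op k1).continuous.continuousOn))
        (icRow_int V (cv.inner k2.continuous.continuousOn))]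
      apply integral_congr_ae
      filter_upwards [icRow_ae V] with x hx
      rw [f1 x hx, inner_sub_right]
    rw [r6] at e1
    rw [r4] at e2
    obtain ⟨X, hX⟩ : ∃ X : ℂ, X = ∫ x, inner ℂ (v x) (𝔇.op u x) ∂V.μ := ⟨_, rfl⟩
    rw [← hX] at e2 e3
    have fin : P * ∫ x, inner ℂ (v x) (𝔇.fW k (-(l : ℤ)) (x, x) (u x)) ∂V.μ =
        -(((∫ x, inner ℂ (𝔇.op v x) (∫ y, ev k t (x, y) (u y) ∂V.μ) ∂V.μ) -
        ∫ x, inner ℂ (v x) (∫ y, ev k t (x, y) (𝔇.op u y) ∂V.μ) ∂V.μ) -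
          P * ∫ x, inner ℂ (v x) (𝔇.fW k (-(l : ℤ)) (x, x) (u x)) ∂V.μ) +
        (((∫ x, inner ℂ (𝔇.op v x) (∫ y, ev k t (x, y) (u y) ∂V.μ) ∂V.μ) - P * X) +
        -((∫ x, inner ℂ (v x) (∫ y, ev k t (x, y) (𝔇.op u y) ∂V.μ) ∂V.μ) - P * X)) := by
      ring
    rw [fin]
    refine (norm_add_le _ _).trans ?_
    rw [norm_neg]
    refine (add_le_add e1 (norm_add_le _ _)).trans ?_
    rw [norm_neg]
    refine (add_le_add le_rfl (add_le_add e2 e3)).trans ?_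
    rw [hB]
    apply le_of_eq
    ring
  have h0 : ‖P * ∫ x, inner ℂ (v x) (𝔇.fW k (-(l : ℤ)) (x, x) (u x)) ∂V.μ‖ ≤ 0 := by
    apply le_of_forall_pos_le_add
    intro ε hε
    have h1 := key (ε / (B + 1)) (by positivity)
    rw [zero_add]
    refine h1.trans ?_
    rw [mul_div_assoc', div_le_iff₀ (by positivity)]
    nlinarith
  have h2 := norm_le_zero_iff.mp h0
  exact (mul_eq_zero.mp h2).resolve_left hP0

theorem W_diag (hV : V.Good l) (h : 𝔇.IsHeat l m k) :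
    ∀ x ∈ V.carrier, 𝔇.fW k (-(l : ℤ)) (x, x) = 0 := by
  intro x0 hx0
  have hW := 𝔇.W_cls0 hV h
  have hAs : ContDiff ℝ ∞ (fun x : En M => 𝔇.fW k (-(l : ℤ)) (x, x)) :=
    (hW.1.1 (-(l : ℤ))).comp (contDiff_id.prodMk contDiff_id)
  have happ : ∀ {f : En M → (H →L[ℂ] H)}, ContDiff ℝ ∞ f → ∀ {w : En M → H}, ContDiff ℝ ∞ w →
      ContDiff ℝ ∞ (fun y => f y (w y)) := by
    intro f hf w hw
    have h1 : ContDiff ℝ ∞ (fun y => (f y).restrictScalars ℝ) :=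
      (ContinuousLinearMap.restrictScalarsL ℂ H H ℝ ℝ).contDiff.comp hf
    exact h1.clm_apply hw
  have hz : ∀ w : H, 𝔇.fW k (-(l : ℤ)) (x0, x0) (𝔇.Q x0 w) = 0 := by
    intro w
    have su : 𝔇.IsSec (fun x => 𝔇.Q x w) := 𝔇.Q_isSec (u := fun _ => w) contDiff_const
    have sv : 𝔇.IsSec (fun x => 𝔇.fW k (-(l : ℤ)) (x, x) (𝔇.Q x w)) := by
      refine ⟨happ hAs su.1, fun x hx => ?_⟩
      have h1 := 𝔇.W_QL hV h (-(l : ℤ)) x hx x hx
      exact congrArg (fun T : H →L[ℂ] H => T (𝔇.Q x w)) h1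
    have h1 := 𝔇.IeB_weak hV h su sv
    have h2 : ∫ x, (((‖𝔇.fW k (-(l : ℤ)) (x, x) (𝔇.Q x w)‖ ^ 2 : ℝ)) : ℂ) ∂V.μ = 0 := by
      rw [← h1]
      apply integral_congr_ae
      refine Filter.Eventually.of_forall fun x => ?_
      simp only
      rw [inner_self_eq_norm_sq_to_K]
      push_cast
      rfl
    rw [integral_complex_ofReal, Complex.ofReal_eq_zero] at h2
    have hc : Continuous (fun x => ‖𝔇.fW k (-(l : ℤ)) (x, x) (𝔇.Q x w)‖ ^ 2) :=
      (sv.1.continuous.norm).pow 2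
    have hi : Integrable (fun x => ‖𝔇.fW k (-(l : ℤ)) (x, x) (𝔇.Q x w)‖ ^ 2) V.μ :=
      icRow_int V hc.continuousOn
    rw [integral_eq_zero_iff_of_nonneg (fun x => by positivity) hi] at h2
    by_contra hne
    have hpos : 0 < ‖𝔇.fW k (-(l : ℤ)) (x0, x0) (𝔇.Q x0 w)‖ ^ 2 := by
      have := norm_pos_iff.mpr hne
      positivity
    have hn := hc.continuousAt.eventually (lt_mem_nhds hpos)
    obtain ⟨r, hr, hball⟩ := Metric.eventually_nhds_iff_ball.mp hn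
    have hm := hV.pos x0 hx0 r hr
    have hm0 : V.μ (Metric.ball x0 r) = 0 := by
      refine measure_mono_null ?_ (ae_iff.mp h2)
      intro x hx
      have := hball x hx
      simp only [Pi.zero_apply, Set.mem_ofPred_eq]
      exact this.ne'
    exact hm.ne' hm0
  have h3 := 𝔇.W_QR hV h (-(l : ℤ)) x0 hx0 x0 hx0
  rw [← h3]
  ext w
  exact hz w

end Dirac

end Pool.Agent.EXO
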