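import Pool.Agent.EXO.IfS

/-!
Project EXO, chunk IDX-A, module IfA: the Dirac system `sys` of a Dirac operator on a closed
submanifold, kernels on `V × V`.
Author: helper26.
-/

set_option autoImplicit false
set_option maxSynthPendingDepth 3

open MeasureTheory Filter Topology
open scoped ContDiff

namespace Pool.Agent.EXO

variable {n M l : ℕ}

namespace Dirac

variable {V : Geo n M} {H : Type} [NormedAddCommGroup H]
  [InnerProductSpace ℂ H] [FiniteDimensional ℂ H] (𝔇 : Dirac V H)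

theorem adj_mul_inner (A : H →L[ℂ] H) (u v : H) :
    inner ℂ (A u) v = inner ℂ u (ContinuousLinearMap.adjoint A v) := by
  rw [ContinuousLinearMap.adjoint_inner_right]

/-- The Dirac system of `𝔇` (in the sense of IaSys). -/
noncomputable def sys (hV : V.Good l) : DSys V.μX H where
  Sm := 𝔇.secs
  D := 𝔇.Dsec hV.loc
  Q := mulCLM V 𝔇.Q 𝔇.smoothQ.continuous
  τ := mulCLM V 𝔇.Γ 𝔇.smoothΓ.continuous
  Q_idem u := by
    ext x
    simp only [mulCLM_apply]
    exact DFunLike.congr_fun (𝔇.Q_idem x x.2) (u x)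
  Q_symm u v := by
    unfold Ker.ip
    congr 1
    funext x
    simp only [mulCLM_apply]
    rw [adj_mul_inner, 𝔇.Q_sa x x.2]
  Q_Sm u hu := by
    obtain ⟨w, hw, h⟩ := hu
    ext x
    rw [mulCLM_apply, h, hw.2 x x.2]
  dense u hu := by
    apply 𝔇.dense_secs
    intro x
    exact DFunLike.congr_fun hu x
  D_symm u v := 𝔇.ip_Dsec hV u v
  τ_Q u := by
    ext x
    simp only [mulCLM_apply]
    exact DFunLike.congr_fun (𝔇.Γ_Q x x.2).symm (u x)
  τ_sq u hu := by
    ext x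
    simp only [mulCLM_apply]
    have h1 : 𝔇.Q x (u x) = u x := DFunLike.congr_fun hu x
    have h2 : 𝔇.Γ x (𝔇.Γ x (𝔇.Q x (u x))) = 𝔇.Q x (u x) :=
      DFunLike.congr_fun (𝔇.Γ_sq x x.2) (u x)
    rw [h1] at h2
    exact h2
  τ_symm u v := by
    unfold Ker.ip
    congr 1
    funext x
    simp only [mulCLM_apply]
    rw [adj_mul_inner, 𝔇.Γ_sa x x.2]
  τ_Sm u hu := by
    obtain ⟨w, hw, h⟩ := hu
    exact ⟨fun x => 𝔇.Γ x (w x), 𝔇.Γ_isSec hw, fun x => by rw [mulCLM_apply, h]⟩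
  τ_D u := by
    ext x
    have h1 := 𝔇.Dsec_spec hV.loc
      ⟨mulCLM V 𝔇.Γ 𝔇.smoothΓ.continuous u, by
        obtain ⟨w, hw, h⟩ := u.2
        exact ⟨fun x => 𝔇.Γ x (w x), 𝔇.Γ_isSec hw, fun x => by rw [mulCLM_apply, h]⟩⟩
      (𝔇.Γ_isSec (𝔇.lift_isSec u)) (fun x => by
        rw [← 𝔇.lift_apply u x]; rfl) x
    have h2 := 𝔇.Dsec_spec hV.loc u (𝔇.lift_isSec u) (fun x => 𝔇.lift_apply u x) x
    refine h1.trans ?_
    rw [𝔇.op_Γ hV.loc (𝔇.lift_isSec u) x.2, ContinuousMap.neg_apply, mulCLM_apply, h2]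

open Classical in
/-- The restriction of a kernel to `V × V`, as an element of `Ker` (zero if `k` is not
continuous). -/
noncomputable def kerOf (V : Geo n M) (k : KF M H) : Ker V.carrier H :=
  if h : Continuous k then
    Ker.mk (fun p => k (p.1, p.2)) (h.comp
      ((continuous_subtype_val.comp continuous_fst).prodMk
        (continuous_subtype_val.comp continuous_snd)))
  else 0

theorem kerOf_apply {k : KF M H} (hk : Continuous k) (x y : V.carrier) :
    kerOf V k (x, y) = k (x, y) := by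
  unfold kerOf
  rw [dif_pos hk]
  rfl

/-- The kernel `(4π)^{-l} ∑ t^j exp(-φ/t) k_j` on `V × V` (for `t > 0`). -/
noncomputable def rk (V : Geo n M) (l : ℕ) (k : FK M H) (t : ℝ) : Ker V.carrier H :=
  (((4 * Real.pi)⁻¹ ^ l : ℝ) : ℂ) • kerOf V (ev k t)

end Dirac

end Pool.Agent.EXO
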