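import Pool.Agent.EXO.IfA
import Pool.Agent.EXO.IcRow
import Pool.Agent.EXO.IaKa
import Pool.Agent.EXO.IaKc

/-!
Project EXO, chunk IDX-A, module IfB: smooth kernels as members of the Dirac system.

PROOFS.  `k` smooth on `ℝ^M × ℝ^M`.
* `op_kerOf`: `op μX (kerOf k) u x = ∫ y : V, k (x,y) (u y) ∂μX = ∫ y, k (x,y) (ext0 u y) ∂μ`
  (`Geo.integral_μX`, `ext0_apply`).
* `kerOf_add`, `kerOf_smul`, `kerOf_congr`: `Ker.ext`, `kerOf_apply`.
* `sop`: `x ↦ ∫ y, k (x,y) (ext0 u y) ∂μ` is smooth (`contDiff_intK`, `continuousOn_ext0`), a section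
  by `QL` (`Q x` commutes with the integral), and its `D` is `∫ opK k (x,y) (ext0 u y)`
  (`Dirac.op_int`); use `Dsec_spec`.
* `adj_kerOf`: pointwise.
* `srow`: `col (adj (kerOf k)) x h` is the restriction of `y ↦ (k (x,y))* h = adjK k (y,x) h`, a smooth
  section by `QR`, and its `D` at `y` is `opK (adjK k) (y,x) h = adjK (opR k) (y,x) h`
  (`opK_apply`, `adjK_adjK`).
* `fr`: let `e_i` be an orthonormal basis of `H`.  By uniform continuity of `k` on the compact
  `V × V`: given `η` there are finitely many points `x_i ∈ V` and a smooth partition of unity `χ_i` on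
  `V` (e.g. `χ_i = β_i / ∑ β_j` with smooth bumps `β_i ≥ 0` (`ContDiffBump`), `∑ β_j > 0` on `V`; make the
  denominator smooth and positive everywhere, or use `SmoothPartitionOfUnity`) such that
  `‖k(x,y) - ∑ χ_i(x) k(x_i,y)‖ ≤ η` on `V × V`.  Multiply by `Q(x)` from the left (bounded on `V`,
  `Q k = k`).  The kernel `χ_i(x) Q(x) k(x_i,y)` is
  `∑_j rankOne (χ_i Q e_j) (y ↦ (k(x_i,y))* e_j)`: `k(x_i,y) h = ∑_j ⟪e_j, k(x_i,y) h⟫ e_j
  = ∑_j ⟪(k(x_i,y))* e_j, h⟫ e_j`; both functions are smooth sections (`Q_isSec`, `QR`).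
-/

set_option autoImplicit false
set_option maxSynthPendingDepth 3

open MeasureTheory Filter Topology
open scoped ContDiff

namespace Pool.Agent.EXO

variable {n M l : ℕ}

namespace Dirac

variable {V : Geo n M} {H : Type} [NormedAddCommGroup H]
  [InnerProductSpace ℂ H] [FiniteDimensional ℂ H] (𝔇 : Dirac V H) {k k' : KF M H}

theorem op_kerOf (hk : Continuous k) (u : C(V.carrier, H)) (x : V.carrier) :
    Ker.op V.μX (kerOf V k) u x = ∫ y, k (x, y) (ext0 V u y) ∂V.μ := by
  rw [Ker.op_apply, ← Geo.integral_μX V (fun y : En M => k (x, y) (ext0 V u y))]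
  apply integral_congr_ae
  refine Filter.Eventually.of_forall fun y => ?_
  simp only
  rw [kerOf_apply hk, ext0_apply]

theorem kerOf_add (hk : Continuous k) (hk' : Continuous k') :
    kerOf V (fun p => k p + k' p) = kerOf V k + kerOf V k' := by
  apply Ker.ext
  intro x y
  have h1 : Continuous (fun p => k p + k' p) := hk.add hk'
  rw [kerOf_apply h1, Ker.add_apply, kerOf_apply hk, kerOf_apply hk']

theorem kerOf_sub (hk : Continuous k) (hk' : Continuous k') :
    kerOf V (fun p => k p - k' p) = kerOf V k - kerOf V k' := by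
  apply Ker.ext
  intro x y
  have h1 : Continuous (fun p => k p - k' p) := hk.sub hk'
  rw [kerOf_apply h1, Ker.sub_apply, kerOf_apply hk, kerOf_apply hk']

theorem kerOf_congr (hk : Continuous k) (hk' : Continuous k')
    (h : ∀ x ∈ V.carrier, ∀ y ∈ V.carrier, k (x, y) = k' (x, y)) :
    kerOf V k = kerOf V k' := by
  apply Ker.ext
  intro x y
  rw [kerOf_apply hk, kerOf_apply hk', h x x.2 y y.2]

private theorem IfB_adjc (hk : Continuous k) : Continuous (adjK k) := by
  have h1 : Continuous fun p : En M × En M => k (p.2, p.1) := hk.comp continuous_swap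
  exact (ContinuousLinearMap.adjoint (𝕜 := ℂ) (E := H) (F := H)).continuous.comp h1

theorem adj_kerOf (hk : Continuous k) : Ker.adj (kerOf V k) = kerOf V (adjK k) := by
  apply Ker.ext
  intro x y
  rw [Ker.adj_apply, kerOf_apply hk, kerOf_apply (IfB_adjc hk)]
  rfl

private theorem IfB_app {f : En M → (H →L[ℂ] H)} (hf : Continuous f) {u : En M → H}
    (hu : ContinuousOn u V.carrier) : ContinuousOn (fun y => f y (u y)) V.carrier :=
  ContinuousOn.clm_apply hf.continuousOn hu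

theorem sop (hV : V.Good l) (hk : ContDiff ℝ ∞ k) (hQ : 𝔇.QL k) :
    (𝔇.sys hV).SOp (kerOf V k) (kerOf V (𝔇.opK k)) := by
  intro u
  have cu : ContinuousOn (ext0 V u) V.carrier := continuousOn_ext0 V u
  have hw : 𝔇.IsSec (fun x => ∫ y, k (x, y) (ext0 V u y) ∂V.μ) := by
    refine ⟨contDiff_intK hk cu, fun x hx => ?_⟩
    have hi : Integrable (fun y => k (x, y) (ext0 V u y)) V.μ :=
      icRow_int V (IfB_app (hk.continuous.comp (Continuous.prodMk_right x)) cu)
    rw [← ContinuousLinearMap.integral_comp_comm (𝔇.Q x) hi]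
    apply integral_congr_ae
    filter_upwards [icRow_ae V] with y hy
    exact congrArg (fun T : H →L[ℂ] H => T (ext0 V u y)) (hQ x hx y hy)
  have hx : ∀ x : V.carrier, Ker.op V.μX (kerOf V k) u x =
      (fun x => ∫ y, k (x, y) (ext0 V u y) ∂V.μ) x := fun x => op_kerOf hk.continuous u x
  have hm : Ker.op V.μX (kerOf V k) u ∈ 𝔇.secs := ⟨_, hw, hx⟩
  refine ⟨hm, ?_⟩
  ext x
  refine (𝔇.Dsec_spec hV.loc ⟨_, hm⟩ hw hx x).trans ?_
  rw [op_kerOf (𝔇.contDiff_opK hk).continuous u x]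
  exact 𝔇.op_int hk cu x

private theorem IfB_rowSec (hk : ContDiff ℝ ∞ k) (hQ : 𝔇.QR k) {x : En M} (hx : x ∈ V.carrier)
    (h : H) : 𝔇.IsSec (fun y => adjK k (y, x) h) := by
  have hadj : ContDiff ℝ ∞ (adjK k) := contDiff_adjK hk
  constructor
  · have h1 : ContDiff ℝ ∞ (fun y : En M => adjK k (y, x)) :=
      hadj.comp (contDiff_id.prodMk contDiff_const)
    have h2 : ContDiff ℝ ∞ (fun y : En M => (adjK k (y, x)).restrictScalars ℝ) :=
      (ContinuousLinearMap.restrictScalarsL ℂ H H ℝ ℝ).contDiff.comp h1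
    exact h2.clm_apply contDiff_const
  · intro y hy
    have h1 := (QL_adjK 𝔇 (k := k)).2 hQ y hy x hx
    exact congrArg (fun T : H →L[ℂ] H => T h) h1

theorem srow (hV : V.Good l) (hk : ContDiff ℝ ∞ k) (hQ : 𝔇.QR k) :
    (𝔇.sys hV).SRow (kerOf V k) (kerOf V (𝔇.opR k)) := by
  intro x h
  have hadj : ContDiff ℝ ∞ (adjK k) := contDiff_adjK hk
  have hw := 𝔇.IfB_rowSec hk hQ x.2 h
  have hy : ∀ y : V.carrier, Ker.col (Ker.adj (kerOf V k)) x h y =
      (fun y => adjK k (y, (x : En M)) h) y := by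
    intro y
    rw [Ker.col_apply, Ker.adj_apply, kerOf_apply hk.continuous]
    rfl
  have hm : Ker.col (Ker.adj (kerOf V k)) x h ∈ 𝔇.secs := ⟨_, hw, hy⟩
  refine ⟨hm, ?_⟩
  ext y
  refine (𝔇.Dsec_spec hV.loc ⟨_, hm⟩ hw hy y).trans ?_
  rw [Ker.col_apply, Ker.adj_apply, kerOf_apply (𝔇.contDiff_opR hk).continuous,
    ← 𝔇.opK_apply hadj y x h]
  simp only [opR, Pool.Agent.EXO.adjK, ContinuousLinearMap.adjoint_adjoint]

private theorem IfB_part (V : Geo n M) {δ : ℝ} (hδ : 0 < δ) :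
    ∃ (ι : Type) (_ : Fintype ι) (c : ι → En M) (χ : ι → En M → ℝ), (∀ i, c i ∈ V.carrier) ∧
      (∀ i, ContDiff ℝ ∞ (χ i)) ∧ (∀ i x, 0 ≤ χ i x) ∧
      (∀ i x, χ i x ≠ 0 → dist x (c i) < δ) ∧ ∀ x ∈ V.carrier, ∑ i, χ i x = 1 := by
  classical
  obtain ⟨t, htV, htf, htc⟩ := V.compact.finite_cover_balls hδ
  have : Fintype t := htf.fintype
  have hcov : V.carrier ⊆ ⋃ i : t, Metric.ball (i : En M) δ := by
    intro x hx
    have h1 := htc hx
    simp only [Set.mem_iUnion] at h1 ⊢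
    obtain ⟨i, hi, h2⟩ := h1
    exact ⟨⟨i, hi⟩, h2⟩
  obtain ⟨f, hf⟩ := SmoothPartitionOfUnity.exists_isSubordinate (modelWithCornersSelf ℝ (En M))
    V.compact.isClosed (fun i : t => Metric.ball (i : En M) δ) (fun i => Metric.isOpen_ball) hcov
  refine ⟨t, inferInstance, fun i => i, fun i => f i, fun i => htV i.2, fun i => ?_, fun i x => ?_,
    fun i x hne => ?_, fun x hx => ?_⟩
  · exact contMDiff_iff_contDiff.mp (f i).contMDiff
  · exact f.nonneg i x
  · have h1 : x ∈ tsupport (f i) := subset_tsupport _ hne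
    exact hf i h1
  · have h2 := f.sum_eq_one hx
    rwa [finsum_eq_sum_of_fintype] at h2

theorem fr (hV : V.Good l) (hk : ContDiff ℝ ∞ k) (hL : 𝔇.QL k) (hR : 𝔇.QR k) :
    kerOf V k ∈ closure ((𝔇.sys hV).FR : Set (Ker V.carrier H)) := by
  rw [Metric.mem_closure_iff]
  intro ε hε
  obtain ⟨B, hB⟩ := V.compact.exists_bound_of_continuousOn 𝔇.smoothQ.continuous.continuousOn
  have hB' : ∀ x ∈ V.carrier, ‖𝔇.Q x‖ ≤ |B| := fun x hx => (hB x hx).trans (le_abs_self B)
  obtain ⟨η, hη⟩ : ∃ η : ℝ, η = ε / (2 * (|B| + 1)) := ⟨_, rfl⟩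
  have hη0 : 0 < η := by rw [hη]; positivity
  have hVV : IsCompact (V.carrier ×ˢ V.carrier) := V.compact.prod V.compact
  obtain ⟨δ, hδ, huc⟩ := Metric.uniformContinuousOn_iff.mp
    (hVV.uniformContinuousOn_of_continuous hk.continuous.continuousOn) η hη0
  obtain ⟨ι, hι, c, χ, hcV, hχs, hχ0, hχd, hχ1⟩ := IfB_part V hδ
  have e := stdOrthonormalBasis ℂ H
  have hasec : ∀ i j, 𝔇.IsSec (fun x => 𝔇.Q x (χ i x • e j)) := fun i j =>
    𝔇.Q_isSec (u := fun x => χ i x • e j) ((hχs i).smul contDiff_const)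
  have hbsec : ∀ i j, 𝔇.IsSec (fun y => adjK k (y, c i) (e j)) := fun i j =>
    𝔇.IfB_rowSec hk hR (hcV i) (e j)
  obtain ⟨T, hT⟩ : ∃ T : Ker V.carrier H, T = ∑ i, ∑ j, Ker.rankOne
      (restr V (fun x => 𝔇.Q x (χ i x • e j)) (hasec i j).1.continuous)
      (restr V (fun y => adjK k (y, c i) (e j)) (hbsec i j).1.continuous) := ⟨_, rfl⟩
  refine ⟨T, ?_, ?_⟩
  · rw [hT]
    refine Submodule.sum_mem _ fun i _ => Submodule.sum_mem _ fun j _ => ?_
    apply Submodule.subset_span
    exact ⟨_, ⟨_, hasec i j, fun x => rfl⟩, _, ⟨_, hbsec i j, fun x => rfl⟩, rfl⟩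
  · have hTv : ∀ x y : V.carrier, T (x, y) = ∑ i, (χ i x : ℂ) • (𝔇.Q x * k (c i, y)) := by
      intro x y
      rw [hT, Ker.sum_apply]
      apply Finset.sum_congr rfl
      intro i _
      rw [Ker.sum_apply]
      apply ContinuousLinearMap.ext
      intro h
      rw [_root_.sum_apply]
      have h1 : k (c i, y) h = ∑ j, inner ℂ (e j) (k (c i, y) h) • e j :=
        (e.sum_repr' (k (c i, y) h)).symm
      have h2 : ((χ i x : ℂ) • (𝔇.Q x * k (c i, y))) h = (χ i x : ℂ) • 𝔇.Q x (k (c i, y) h) := rfl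
      rw [h2]
      conv_rhs => rw [h1]
      rw [map_sum, Finset.smul_sum]
      apply Finset.sum_congr rfl
      intro j _
      rw [Ker.rankOne_apply]
      have h3 : restr V (fun x => 𝔇.Q x (χ i x • e j)) (hasec i j).1.continuous x =
        𝔇.Q x (χ i x • e j) := rfl
      have h4 : restr V (fun y => adjK k (y, c i) (e j)) (hbsec i j).1.continuous y =
        ContinuousLinearMap.adjoint (k (c i, y)) (e j) := rfl
      have h5 : (χ i x • e j : H) = (χ i x : ℂ) • e j := (Complex.coe_smul _ _).symm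
      rw [h3, h4, ContinuousLinearMap.adjoint_inner_left, h5, map_smul, map_smul, smul_comm]
    have hnorm : ‖kerOf V k - T‖ ≤ |B| * η := by
      rw [Ker.norm_le (by positivity)]
      rintro ⟨x, y⟩
      rw [Ker.sub_apply, kerOf_apply hk.continuous, hTv]
      have h1 : k ((x : En M), (y : En M)) = ∑ i, (χ i x : ℂ) • (𝔇.Q x * k (x, y)) := by
        rw [← Finset.sum_smul, hL x x.2 y y.2, ← Complex.ofReal_sum, hχ1 x x.2]
        simp
      rw [h1, ← Finset.sum_sub_distrib]
      calc ‖∑ i, ((χ i x : ℂ) • (𝔇.Q x * k (x, y)) - (χ i x : ℂ) • (𝔇.Q x * k (c i, y)))‖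
          ≤ ∑ i, χ i x * (|B| * η) := by
            refine (norm_sum_le _ _).trans (Finset.sum_le_sum fun i _ => ?_)
            rw [← smul_sub, ← mul_sub, norm_smul, Complex.norm_real,
              Real.norm_of_nonneg (hχ0 i x)]
            by_cases hz : χ i x = 0
            · rw [hz, zero_mul, zero_mul]
            apply mul_le_mul_of_nonneg_left _ (hχ0 i x)
            refine (norm_mul_le _ _).trans ?_
            apply mul_le_mul (hB' x x.2) _ (norm_nonneg _) (abs_nonneg _)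
            have h2 := huc (x, y) ⟨x.2, y.2⟩ (c i, y) ⟨hcV i, y.2⟩ (by
              rw [Prod.dist_eq]
              simp only [dist_self]
              rw [max_lt_iff]
              exact ⟨hχd i x hz, hδ⟩)
            rw [dist_eq_norm] at h2
            exact h2.le
        _ = |B| * η := by rw [← Finset.sum_mul, hχ1 x x.2, one_mul]
    rw [dist_eq_norm]
    refine lt_of_le_of_lt hnorm ?_
    rw [hη, mul_div_assoc', div_lt_iff₀ (by positivity)]
    nlinarith [abs_nonneg B]

end Dirac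

end Pool.Agent.EXO
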