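import Pool.Agent.EXO.IfB
import Pool.Agent.EXO.IeA

/-!
Project EXO, chunk IDX-A, module IfC: the time dependent kernels `rk V l k t`.

`rk V l k t = (4π)^{-l} • kerOf V (ev k t)`.

PROOFS.
* `rk_apply`: `kerOf_apply`, `contDiff_ev`.
* `rk_add`, `rk_sub`: `ev_add`, `ev_sub`.
* `norm_rk_le`, `norm_op_rk_le`: from `ev_sup`; respectively
  `‖op μX (rk k t) u x‖ ≤ (4π)^{-l} ∫ ‖ev k t (x,y)‖ dμ ‖u‖` (`op_kerOf` or `op_apply` and
  `Geo.integral_μX`) and `ev_int`.
* `continuousOn_rk`: sup norm continuity from joint continuity (`continuousOn_ev`) and compactness of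
  `V × V`: `ContinuousMap.continuous_of_continuous_uncurry` applied to the function on
  `Set.Ioi 0` (as a subtype), or uniform continuity on compact sets.
* `hasDerivAt_rk`: for `0 < a < t < b`: put `g s := rk (fT k) s`, continuous on `(0, ∞)`
  (`continuousOn_rk`).  `rk k s = rk k a + ∫ r in a..s, g r` for `s ≥ a`: evaluate at `(x,y)`
  (`Ker.evalCLM`, `ContinuousLinearMap.intervalIntegral_comp_comm`), use `hasDerivAt_ev` and
  `intervalIntegral.integral_eq_sub_of_hasDerivAt`.  Then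
  `intervalIntegral.integral_hasDerivAt_right`.
-/

set_option autoImplicit false
set_option maxSynthPendingDepth 3

open MeasureTheory Filter Topology
open scoped ContDiff

namespace Pool.Agent.EXO

variable {n M l : ℕ}

namespace Dirac

variable {V : Geo n M} {H : Type} [NormedAddCommGroup H]
  [InnerProductSpace ℂ H] [FiniteDimensional ℂ H] {k k' : FK M H} {w : ℤ}

theorem rk_apply (h : FS k) {t : ℝ} (ht : 0 < t) (x y : V.carrier) :
    rk V l k t (x, y) = (((4 * Real.pi)⁻¹ ^ l : ℝ) : ℂ) • ev k t (x, y) := by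
  unfold rk
  rw [Ker.smul_apply, kerOf_apply (contDiff_ev h ht).continuous]

theorem rk_add (h : FS k) (h' : FS k') {t : ℝ} (ht : 0 < t) :
    rk V l (k + k') t = rk V l k t + rk V l k' t := by
  refine Ker.ext fun x y => ?_
  rw [Ker.add_apply, rk_apply (h.add h') ht, rk_apply h ht, rk_apply h' ht, ev_add h h', smul_add]

theorem rk_sub (h : FS k) (h' : FS k') {t : ℝ} (ht : 0 < t) :
    rk V l (k - k') t = rk V l k t - rk V l k' t := by
  refine Ker.ext fun x y => ?_
  rw [Ker.sub_apply, rk_apply (h.sub h') ht, rk_apply h ht, rk_apply h' ht, ev_sub h h', smul_sub]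

private theorem ifC_norm (l : ℕ) (A : H →L[ℂ] H) :
    ‖(((4 * Real.pi)⁻¹ ^ l : ℝ) : ℂ) • A‖ = (4 * Real.pi)⁻¹ ^ l * ‖A‖ := by
  rw [norm_smul, Complex.norm_real, Real.norm_of_nonneg (by positivity)]

theorem norm_rk_le (l : ℕ) (h : Cls V w k) (hw : (n : ℤ) ≤ w) : ∃ C : ℝ, 0 ≤ C ∧
    ∀ t ∈ Set.Ioc (0 : ℝ) 1, ‖rk V l k t‖ ≤ C * Real.sqrt t ^ (w - n).toNat := by
  obtain ⟨C, hC, h1⟩ := ev_sup h hw
  refine ⟨(4 * Real.pi)⁻¹ ^ l * C, by positivity, fun t ht => ?_⟩
  rw [Ker.norm_le (by positivity)]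
  rintro ⟨x, y⟩
  rw [rk_apply h.1 ht.1, ifC_norm, mul_assoc]
  exact mul_le_mul_of_nonneg_left (h1 t ht x x.2 y y.2) (by positivity)

theorem norm_op_rk_le (hV : V.Good l) (h : Cls V w k) : ∃ C : ℝ, 0 ≤ C ∧
    ∀ t ∈ Set.Ioc (0 : ℝ) 1, ‖Ker.op V.μX (rk V l k t)‖ ≤ C * Real.sqrt t ^ w := by
  obtain ⟨C, hC, h1⟩ := ev_int hV h
  refine ⟨(4 * Real.pi)⁻¹ ^ l * C, by positivity, fun t ht => ?_⟩
  refine ContinuousLinearMap.opNorm_le_bound _ (by positivity) fun u => ?_
  rw [ContinuousMap.norm_le _ (by positivity)]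
  intro x
  rw [Ker.op_apply]
  have hc : Continuous fun y : V.carrier => ev k t ((x : En M), (y : En M)) :=
    (contDiff_ev h.1 ht.1).continuous.comp
      ((continuous_const).prodMk continuous_subtype_val)
  have hi : Integrable (fun y : V.carrier => (4 * Real.pi)⁻¹ ^ l *
      ‖ev k t ((x : En M), (y : En M))‖ * ‖u‖) V.μX := by
    have h2 : Continuous fun y : V.carrier => (4 * Real.pi)⁻¹ ^ l *
      ‖ev k t ((x : En M), (y : En M))‖ * ‖u‖ := (continuous_const.mul hc.norm).mul continuous_const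
    exact h2.integrable_of_hasCompactSupport (HasCompactSupport.of_compactSpace _)
  have h3 : ∀ᵐ y ∂V.μX, ‖rk V l k t (x, y) (u y)‖ ≤ (4 * Real.pi)⁻¹ ^ l *
      ‖ev k t ((x : En M), (y : En M))‖ * ‖u‖ := by
    refine Filter.Eventually.of_forall fun y => ?_
    rw [rk_apply h.1 ht.1]
    refine (ContinuousLinearMap.le_opNorm _ _).trans ?_
    rw [ifC_norm]
    exact mul_le_mul_of_nonneg_left (ContinuousMap.norm_coe_le_norm u y) (by positivity)
  refine (norm_integral_le_of_norm_le hi h3).trans ?_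
  have h4 := Geo.integral_μX V (fun y => (4 * Real.pi)⁻¹ ^ l * ‖ev k t ((x : En M), y)‖ * ‖u‖)
  rw [h4, integral_mul_const, integral_const_mul]
  have h5 := h1 t ht x x.2
  have h6 : (4 * Real.pi)⁻¹ ^ l * ∫ y, ‖ev k t ((x : En M), y)‖ ∂V.μ ≤
      (4 * Real.pi)⁻¹ ^ l * C * Real.sqrt t ^ w := by
    rw [mul_assoc]
    exact mul_le_mul_of_nonneg_left h5 (by positivity)
  exact mul_le_mul_of_nonneg_right h6 (norm_nonneg _)

theorem continuousOn_rk (V : Geo n M) (l : ℕ) (h : FS k) :
    ContinuousOn (rk V l k) (Set.Ioi 0) := by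
  rw [continuousOn_iff_continuous_domRestrict]
  have h1 : Continuous fun q : Set.Ioi (0 : ℝ) × (V.carrier × V.carrier) =>
      ev k q.1 ((q.2.1 : En M), (q.2.2 : En M)) := by
    have h2 : Continuous fun q : Set.Ioi (0 : ℝ) × (V.carrier × V.carrier) =>
        ((q.1 : ℝ), (((q.2.1 : En M), (q.2.2 : En M)) : En M × En M)) := by fun_prop
    exact (continuousOn_ev h).comp_continuous h2 fun q => ⟨q.1.2, Set.mem_univ _⟩
  refine ContinuousMap.continuous_of_continuous_uncurry
    (fun t : Set.Ioi (0 : ℝ) => (rk V l k t : C(V.carrier × V.carrier, H →L[ℂ] H))) ?_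
  exact (h1.const_smul (((4 * Real.pi)⁻¹ ^ l : ℝ) : ℂ)).congr
    fun q => (rk_apply h q.1.2 q.2.1 q.2.2).symm

theorem hasDerivAt_rk (V : Geo n M) (l : ℕ) (h : FS k) {t : ℝ} (ht : 0 < t) :
    HasDerivAt (rk V l k) (rk V l (fT k) t) t := by
  have : CompleteSpace H := FiniteDimensional.complete ℂ H
  have hT : FS (fT k) := FS.fT h
  have hcT := continuousOn_rk V l hT
  have hat : 0 < t / 2 := by positivity
  have hii : ∀ s : ℝ, 0 < s → IntervalIntegrable (rk V l (fT k)) volume (t / 2) s := by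
    intro s hs
    refine ContinuousOn.intervalIntegrable (hcT.mono fun r hr => ?_)
    have h1 : min (t / 2) s ≤ r := hr.1
    have h2 : 0 < min (t / 2) s := lt_min hat hs
    exact lt_of_lt_of_le h2 h1
  have hrep : ∀ s : ℝ, 0 < s → rk V l k s = rk V l k (t / 2) +
      ∫ r in (t / 2)..s, rk V l (fT k) r := by
    intro s hs
    refine Ker.ext fun x y => ?_
    have h1 : (∫ r in (t / 2)..s, rk V l (fT k) r) (x, y) =
        ∫ r in (t / 2)..s, (rk V l (fT k) r) (x, y) := by
      have h2 := ContinuousLinearMap.intervalIntegral_comp_comm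
        (Ker.evalCLM (X := V.carrier) (H := H) (x, y)) (hii s hs)
      exact h2.symm
    have h3 : ∫ r in (t / 2)..s, (rk V l (fT k) r) (x, y) =
        rk V l k s (x, y) - rk V l k (t / 2) (x, y) := by
      refine intervalIntegral.integral_eq_sub_of_hasDerivAt (f := fun r => rk V l k r (x, y))
        (fun r hr => ?_) ?_
      · have hr0 : 0 < r := by
          have h1 : min (t / 2) s ≤ r := hr.1
          exact lt_of_lt_of_le (lt_min hat hs) h1
        have h4 := (hasDerivAt_ev h hr0 ((x : En M), (y : En M))).const_smul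
          (((4 * Real.pi)⁻¹ ^ l : ℝ) : ℂ)
        rw [rk_apply hT hr0]
        refine h4.congr_of_eventuallyEq ?_
        filter_upwards [lt_mem_nhds hr0] with r' hr'
        exact rk_apply h hr' x y
      · refine ContinuousOn.intervalIntegrable ?_
        have h5 : ContinuousOn (rk V l (fT k)) (Set.uIcc (t / 2) s) := hcT.mono fun r hr => by
          have h1 : min (t / 2) s ≤ r := hr.1
          exact lt_of_lt_of_le (lt_min hat hs) h1
        exact (Ker.evalCLM (X := V.carrier) (H := H) (x, y)).continuous.comp_continuousOn h5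
    rw [Ker.add_apply, h1, h3, add_sub_cancel]
  have hd : HasDerivAt (fun s => ∫ r in (t / 2)..s, rk V l (fT k) r) (rk V l (fT k) t) t := by
    refine intervalIntegral.integral_hasDerivAt_right (hii t ht) ?_ ?_
    · exact hcT.stronglyMeasurableAtFilter isOpen_Ioi t ht
    · exact hcT.continuousAt (Ioi_mem_nhds ht)
  have hd2 := hd.const_add (rk V l k (t / 2))
  refine hd2.congr_of_eventuallyEq ?_
  filter_upwards [lt_mem_nhds ht] with s hs
  exact hrep s hs

end Dirac

end Pool.Agent.EXO
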