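import Pool.Agent.EXO.IfC
import Pool.Agent.EXO.IeB
import Pool.Agent.EXO.IaFg

/-!
Project EXO, chunk IDX-A, module IfD: the parametrix of the Dirac system.

`h : 𝔇.IsHeat l m k` with `n + 1 ≤ m`.  The kernels of the parametrix on `(0, 1]` are
`K = rk k`, `K1 = rk (fD k)`, `K2 = rk (fD (fD k))`, `R = rk (fL k)`, `RD = rk (fR (fL k))`,
`KD = rk (fR k)`, `DW = rk (fD (fW k))`.

PROOFS of the fields (`t ∈ (0,1]`); `FS`-facts from `FS.fD` etc.
* `smK`: `sop` for `ev k t` (`contDiff_ev`, `QL_ev`), `opK_ev`; both sides multiplied by the scalar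
  `(4π)^{-l}` (linearity of `op`, `D`).  `smK1`: the same for `fD k` (`QL_fD`).
* `smW`: `rk (fD k) t - rk (fR k) t = rk (fW k) t` (`rk_sub`), `sop`, `W_QL`.
* `rowK`: `srow` for `ev k t` (`QR_ev`), `opR_ev`; the scalar is real, so it commutes with `adj`.
  `rowR`: the same for `fL k` (`QR_fL`).
* `frK`, `frR`: `fr` and closure of a submodule under scalars.
* continuity: `continuousOn_rk` (restricted to `Ioc 0 1`).
* `deriv`: `hasDerivAt_rk`, and `fT k = fL k - fD (fD k)`, so `rk (fT k) t = R t - K2 t`.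
* `bK`: `norm_op_rk_le` with `w = 0` (`heat_cls0`).  `bK1`: `w = -1` (`Cls.fD`).
  `bR`: `norm_rk_le` with `w = m ≥ n`.  `bRD`: `w = m - 1 ≥ n` (`Cls.fR`).
  `bW`: `W_high` with `W_diag`: `Cls (m+1)`, `m + 1 ≥ n + 2`: `(√t)^((m+1-n).toNat) ≤ (√t)^2 = t`.
  `bDW`: `Cls.fD`: `w = m ≥ n`.  Take the maximum of the constants.
* `lim`: `op μX (rk k t) u x = (4π)^{-l} ∫ ev k t (x,y) (ext0 u y)` (`op_kerOf`), `heat_lim`,
  `ContinuousMap.norm_le` for the difference.
-/

set_option autoImplicit false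
set_option maxSynthPendingDepth 3

open MeasureTheory Filter Topology
open scoped ContDiff

namespace Pool.Agent.EXO

variable {n M l m : ℕ}

section ifD

variable {X : Type*} [MetricSpace X] [CompactSpace X] [MeasurableSpace X] [BorelSpace X]
variable {H : Type*} [NormedAddCommGroup H] [InnerProductSpace ℂ H] [FiniteDimensional ℂ H]
variable {μ : Measure X} [IsFiniteMeasure μ] {S : DSys μ H} {k k' : Ker X H}

private theorem ifD_op_smul (c : ℂ) (u : C(X, H)) : Ker.op μ (c • k) u = c • Ker.op μ k u := by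
  ext x
  rw [ContinuousMap.smul_apply, Ker.op_apply, Ker.op_apply, ← integral_smul]
  rfl

private theorem ifD_sop (c : ℂ) (h : S.SOp k k') : S.SOp (c • k) (c • k') := by
  intro u
  obtain ⟨h1, h2⟩ := h u
  have e : Ker.op μ (c • k) u = c • Ker.op μ k u := ifD_op_smul c u
  have hm : Ker.op μ (c • k) u ∈ S.Sm := by rw [e]; exact S.Sm.smul_mem c h1
  refine ⟨hm, ?_⟩
  have e2 : (⟨Ker.op μ (c • k) u, hm⟩ : S.Sm) = c • ⟨Ker.op μ k u, h1⟩ := Subtype.ext e
  rw [e2, map_smul, Submodule.coe_smul, h2, ifD_op_smul]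

private theorem ifD_col (c : ℝ) (x : X) (h : H) :
    Ker.col (Ker.adj ((c : ℂ) • k)) x h = (c : ℂ) • Ker.col (Ker.adj k) x h := by
  ext y
  rw [ContinuousMap.smul_apply, Ker.col_apply, Ker.col_apply, Ker.adj_apply, Ker.adj_apply,
    Ker.smul_apply, map_smulₛₗ, Complex.conj_ofReal]
  rfl

omit [IsFiniteMeasure μ] in
private theorem ifD_srow (c : ℝ) (h : S.SRow k k') : S.SRow ((c : ℂ) • k) ((c : ℂ) • k') := by
  intro x v
  obtain ⟨h1, h2⟩ := h x v
  have e : Ker.col (Ker.adj ((c : ℂ) • k)) x v = (c : ℂ) • Ker.col (Ker.adj k) x v := ifD_col c x v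
  have hm : Ker.col (Ker.adj ((c : ℂ) • k)) x v ∈ S.Sm := by rw [e]; exact S.Sm.smul_mem _ h1
  refine ⟨hm, ?_⟩
  have e2 : (⟨Ker.col (Ker.adj ((c : ℂ) • k)) x v, hm⟩ : S.Sm) =
    (c : ℂ) • ⟨Ker.col (Ker.adj k) x v, h1⟩ := Subtype.ext e
  rw [e2, map_smul, Submodule.coe_smul, h2, ifD_col]

omit [BorelSpace X] [IsFiniteMeasure μ] in
private theorem ifD_fr (c : ℂ) (h : k ∈ closure (S.FR : Set (Ker X H))) :
    c • k ∈ closure (S.FR : Set (Ker X H)) := by
  have h1 : k ∈ S.FR.topologicalClosure := h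
  exact S.FR.topologicalClosure.smul_mem c h1

end ifD

namespace Dirac

variable {V : Geo n M} {H : Type} [NormedAddCommGroup H]
  [InnerProductSpace ℂ H] [FiniteDimensional ℂ H] (𝔇 : Dirac V H) {k : FK M H}

theorem exists_parx (hV : V.Good l) (h : 𝔇.IsHeat l m k) (hm : n + 1 ≤ m) :
    ∃ P : (𝔇.sys hV).Parx 1,
      (∀ t ∈ Set.Ioc (0 : ℝ) 1, P.K t = rk V l k t) ∧
      (∀ t ∈ Set.Ioc (0 : ℝ) 1, P.K1 t = rk V l (𝔇.fD k) t) ∧
      (∀ t ∈ Set.Ioc (0 : ℝ) 1, P.R t = rk V l (𝔇.fL k) t) ∧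
      (∀ t ∈ Set.Ioc (0 : ℝ) 1, P.DW t = rk V l (𝔇.fD (𝔇.fW k)) t) := by
  have hk := h.fs
  have hD : FS (𝔇.fD k) := FS.fD 𝔇 hk
  have hDD : FS (𝔇.fD (𝔇.fD k)) := FS.fD 𝔇 hD
  have hL : FS (𝔇.fL k) := FS.fL 𝔇 hk
  have hR : FS (𝔇.fR k) := FS.fR 𝔇 hk
  have hRL : FS (𝔇.fR (𝔇.fL k)) := FS.fR 𝔇 hL
  have hW : FS (𝔇.fW k) := hD.sub hR
  have hDW : FS (𝔇.fD (𝔇.fW k)) := FS.fD 𝔇 hW
  have c0 : Cls V 0 k := heat_cls0 𝔇 hV h
  have cW : Cls V ((m : ℤ) + 1) (𝔇.fW k) := 𝔇.W_high hV h (𝔇.W_diag hV h)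
  obtain ⟨C0, hC0, b0⟩ := norm_op_rk_le hV c0
  obtain ⟨C1, hC1, b1⟩ := norm_op_rk_le hV (Cls.fD 𝔇 hV.loc c0)
  obtain ⟨C2, hC2, b2⟩ := norm_rk_le l h.heat (by omega)
  obtain ⟨C3, hC3, b3⟩ := norm_rk_le l (Cls.fR 𝔇 hV.loc h.heat) (by omega)
  obtain ⟨C4, hC4, b4⟩ := norm_rk_le l cW (by omega)
  obtain ⟨C5, hC5, b5⟩ := norm_rk_le l (Cls.fD 𝔇 hV.loc cW) (by omega)
  have hs1 : ∀ t ∈ Set.Ioc (0 : ℝ) 1, ∀ r : ℕ, Real.sqrt t ^ r ≤ 1 := by
    intro t ht r
    exact pow_le_one₀ (Real.sqrt_nonneg t) (Real.sqrt_le_one.2 ht.2)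
  have hb : ∀ {A B : ℝ} (t : ℝ), t ∈ Set.Ioc (0 : ℝ) 1 → ∀ r : ℕ, 0 ≤ B →
      A ≤ B * Real.sqrt t ^ r → A ≤ B := by
    intro A B t ht r hB hA
    exact hA.trans (mul_le_of_le_one_right hB (hs1 t ht r))
  have hWeq : ∀ t : ℝ, 0 < t → rk V l (𝔇.fD k) t - rk V l (𝔇.fR k) t = rk V l (𝔇.fW k) t := by
    intro t ht
    exact (rk_sub hD hR ht).symm
  have hsop : ∀ {j : FK M H}, FS j → (∀ i, 𝔇.QL (j i)) → ∀ t : ℝ, 0 < t →
      (𝔇.sys hV).SOp (rk V l j t) (rk V l (𝔇.fD j) t) := by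
    intro j hj hQ t ht
    have h1 := 𝔇.sop hV (contDiff_ev hj ht) (𝔇.QL_ev hj hQ t)
    rw [𝔇.opK_ev hj ht] at h1
    exact ifD_sop _ h1
  have hsrow : ∀ {j : FK M H}, FS j → (∀ i, 𝔇.QR (j i)) → ∀ t : ℝ, 0 < t →
      (𝔇.sys hV).SRow (rk V l j t) (rk V l (𝔇.fR j) t) := by
    intro j hj hQ t ht
    have h1 := 𝔇.srow hV (contDiff_ev hj ht) (𝔇.QR_ev hj hQ t)
    rw [𝔇.opR_ev hj ht] at h1
    exact ifD_srow _ h1
  have hfr : ∀ {j : FK M H}, FS j → (∀ i, 𝔇.QL (j i)) → (∀ i, 𝔇.QR (j i)) → ∀ t : ℝ, 0 < t →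
      rk V l j t ∈ closure ((𝔇.sys hV).FR : Set (Ker V.carrier H)) := by
    intro j hj hQL hQR t ht
    exact ifD_fr _ (𝔇.fr hV (contDiff_ev hj ht) (𝔇.QL_ev hj hQL t) (𝔇.QR_ev hj hQR t))
  have hcont : ∀ {j : FK M H}, FS j → ContinuousOn (rk V l j) (Set.Ioc 0 1) := fun hj =>
    (continuousOn_rk V l hj).mono fun t ht => ht.1
  let C := max C0 (max C1 (max C2 (max C3 (max C4 C5))))
  have l0 : C0 ≤ C := le_max_left _ _
  have l1 : C1 ≤ C := (le_max_left _ _).trans (le_max_right _ _)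
  have l2 : C2 ≤ C := (le_max_left _ _).trans ((le_max_right _ _).trans (le_max_right _ _))
  have l3 : C3 ≤ C := (le_max_left _ _).trans ((le_max_right _ _).trans
    ((le_max_right _ _).trans (le_max_right _ _)))
  have l4 : C4 ≤ C := (le_max_left _ _).trans ((le_max_right _ _).trans
    ((le_max_right _ _).trans ((le_max_right _ _).trans (le_max_right _ _))))
  have l5 : C5 ≤ C := (le_max_right _ _).trans ((le_max_right _ _).trans
    ((le_max_right _ _).trans ((le_max_right _ _).trans (le_max_right _ _))))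
  refine ⟨{ K := rk V l k
            K1 := rk V l (𝔇.fD k)
            K2 := rk V l (𝔇.fD (𝔇.fD k))
            R := rk V l (𝔇.fL k)
            RD := rk V l (𝔇.fR (𝔇.fL k))
            KD := rk V l (𝔇.fR k)
            DW := rk V l (𝔇.fD (𝔇.fW k))
            C := C
            ε₀_pos := one_pos
            smK := fun t ht => hsop hk h.ql t ht.1
            smK1 := fun t ht => hsop hD (fun j => 𝔇.QL_fD hk j) t ht.1
            smW := fun t ht => by
              rw [hWeq t ht.1]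
              exact hsop hW (fun j => 𝔇.W_QL hV h j) t ht.1
            rowK := fun t ht => hsrow hk h.qr t ht.1
            rowR := fun t ht => hsrow hL (fun j => 𝔇.QR_fL hV.loc hk h.qr j) t ht.1
            frK := fun t ht => hfr hk h.ql h.qr t ht.1
            frR := fun t ht => hfr hL (fun j => 𝔇.QL_fL hk h.ql j)
              (fun j => 𝔇.QR_fL hV.loc hk h.qr j) t ht.1
            cK := hcont hk
            cK1 := hcont hD
            cK2 := hcont hDD
            cR := hcont hL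
            cRD := hcont hRL
            cDW := hcont hDW
            deriv := fun t ht => by
              have h1 := hasDerivAt_rk V l hk ht.1
              have h2 : fT k = 𝔇.fL k - 𝔇.fD (𝔇.fD k) := by
                unfold Dirac.fL
                rw [add_sub_cancel_right]
              rw [h2, rk_sub hL hDD ht.1] at h1
              exact h1
            bK := fun t ht => by
              have h1 := b0 t ht
              rw [zpow_zero, mul_one] at h1
              exact h1.trans l0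
            bK1 := fun t ht => by
              have h1 := b1 t ht
              rw [zero_sub, zpow_neg_one] at h1
              exact h1.trans (mul_le_mul_of_nonneg_right l1 (inv_nonneg.2 (Real.sqrt_nonneg t)))
            bR := fun t ht => (hb t ht _ hC2 (b2 t ht)).trans l2
            bRD := fun t ht => (hb t ht _ hC3 (b3 t ht)).trans l3
            bW := fun t ht => by
              rw [hWeq t ht.1]
              have h1 := b4 t ht
              obtain ⟨r, hr⟩ : ∃ r : ℕ, (((m : ℤ) + 1) - n).toNat = 2 + r := ⟨m - 1 - n, by omega⟩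
              rw [hr, pow_add, Real.sq_sqrt ht.1.le, ← mul_assoc] at h1
              have h2 : C4 * t ≤ C * t := mul_le_mul_of_nonneg_right l4 ht.1.le
              exact (h1.trans (mul_le_of_le_one_right (mul_nonneg hC4 ht.1.le)
                (hs1 t ht r))).trans h2
            bDW := fun t ht => (hb t ht _ hC5 (b5 t ht)).trans l5
            lim := fun u => ?_ }, fun t _ => rfl, fun t _ => rfl, fun t _ => rfl, fun t _ => rfl⟩
  rw [Metric.tendsto_nhdsWithin_nhds]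
  intro ε hε
  obtain ⟨δ, hδ, h1⟩ := 𝔇.heat_lim hV h (continuousOn_ext0 V u) (ε / 2 * (4 * Real.pi) ^ l)
    (by positivity)
  refine ⟨δ, hδ, fun {t} ht hd => ?_⟩
  have ht0 : 0 < t := ht
  have htd : t < δ := by
    rw [Real.dist_eq, sub_zero, abs_of_pos ht0] at hd
    exact hd
  rw [dist_eq_norm]
  refine lt_of_le_of_lt ?_ (half_lt_self hε)
  rw [ContinuousMap.norm_le _ (by positivity)]
  intro x
  have h2 := h1 t ⟨ht0, htd⟩ x x.2
  have h3 : (Ker.op V.μX (rk V l k t) u - (𝔇.sys hV).Q u) x =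
      (((4 * Real.pi)⁻¹ ^ l : ℝ) : ℂ) • ((∫ y, ev k t ((x : En M), y) (ext0 V u y) ∂V.μ) -
        ((4 * Real.pi : ℝ) ^ l : ℂ) • 𝔇.Q x (ext0 V u x)) := by
    have h4 : (Ker.op V.μX (rk V l k t) u) x =
        (((4 * Real.pi)⁻¹ ^ l : ℝ) : ℂ) • ∫ y, ev k t ((x : En M), y) (ext0 V u y) ∂V.μ := by
      unfold rk
      rw [ifD_op_smul, ContinuousMap.smul_apply, op_kerOf (contDiff_ev hk ht0).continuous]
    have h5 : ((𝔇.sys hV).Q u) x = 𝔇.Q x (ext0 V u x) := by
      rw [ext0_apply]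
      rfl
    have h6 : (((4 * Real.pi)⁻¹ ^ l : ℝ) : ℂ) * ((4 * Real.pi : ℝ) ^ l : ℂ) = 1 := by
      rw [← Complex.ofReal_pow, ← Complex.ofReal_mul, ← mul_pow, inv_mul_cancel₀ (by positivity),
        one_pow, Complex.ofReal_one]
    rw [ContinuousMap.sub_apply, h4, h5, smul_sub, smul_smul, h6, one_smul]
  rw [h3, norm_smul, Complex.norm_real, Real.norm_of_nonneg (by positivity)]
  have h7 : (4 * Real.pi)⁻¹ ^ l * (ε / 2 * (4 * Real.pi) ^ l) = ε / 2 := by
    rw [mul_comm, mul_assoc, ← mul_pow, mul_inv_cancel₀ (by positivity), one_pow, mul_one]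
  rw [← h7]
  exact mul_le_mul_of_nonneg_left h2 (by positivity)

end Dirac

end Pool.Agent.EXO
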