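import Pool.Agent.EXO.IcSym
import Pool.Agent.EXO.IaPar

/-!
Project EXO, chunk IDX-A, module IfS: the space `C(V, H)`, its measure and the smooth sections.

PROOFS.
* `isOpenPos`: a nonempty open set of `V.carrier` contains the trace of a ball `ball x r`, and
  `μX` of it is `V.μ (ball x r ∩ V) = V.μ (ball x r) > 0` (`hV.pos`, `V.μ_supp`;
  `MeasurableEmbedding.subtype_coe`, `V.carrier` is closed, `MeasurableEmbedding.comap_apply`).
* `integral_μX`: `MeasureTheory.integral_subtype_comap` and `V.μ_supp`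
  (`setIntegral_eq_integral_of_ae_compl_eq_zero` or `Measure.restrict_eq_self_of_ae_mem`).
* `continuousOn_ext`: `ext f` agrees with `f` on `V`.
* `dense_secs`: the real subalgebra of `C(V, ℝ)` of restrictions of smooth functions
  `ℝ^M → ℝ` separates points (coordinates), so it is dense (Stone-Weierstrass,
  `ContinuousMap.subalgebra_topologicalClosure_eq_top_of_separatesPoints`).  Write `f ∈ C(V, H)` in
  an orthonormal basis of `H` over `ℂ` (real and imaginary parts of the coefficients), approximate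
  the coefficients: `f` is a uniform limit of restrictions of smooth `u : ℝ^M → H`.  If `Q f = f`,
  then `Q u → Q f = f` uniformly (`Q` is bounded on the compact `V`), and `x ↦ Q x (u x)` is a smooth
  section (`Q_isSec`).
* `Dsec_spec`: by `op_congr` the definition does not depend on the choice.
-/

set_option autoImplicit false
set_option maxSynthPendingDepth 3

open MeasureTheory Filter Topology
open scoped ContDiff

namespace Pool.Agent.EXO

variable {n M l : ℕ}

instance (V : Geo n M) : CompactSpace V.carrier := isCompact_iff_compactSpace.mp V.compact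

instance (V : Geo n M) : IsFiniteMeasure V.μ := V.μ_fin

/-- The Riemannian measure on `V`, as a measure on the subtype. -/
noncomputable def Geo.μX (V : Geo n M) : Measure V.carrier := V.μ.comap Subtype.val

theorem Geo.measurableSet_carrier (V : Geo n M) : MeasurableSet V.carrier :=
  V.compact.isClosed.measurableSet

instance (V : Geo n M) : IsFiniteMeasure V.μX := by
  refine ⟨?_⟩
  rw [Geo.μX, MeasurableEmbedding.comap_apply
    (MeasurableEmbedding.subtype_coe V.measurableSet_carrier)]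
  exact measure_lt_top _ _

theorem Geo.isOpenPos (V : Geo n M) (hV : V.Good l) : V.μX.IsOpenPosMeasure := by
  refine ⟨fun U hU hne h0 => ?_⟩
  obtain ⟨x, hx⟩ := hne
  obtain ⟨r, hr, hb⟩ := Metric.isOpen_iff.mp hU x hx
  have h1 := hV.pos x x.2 r hr
  have h2 : V.μ (Metric.ball (x : En M) r) ≤ V.μX U := by
    rw [Geo.μX, MeasurableEmbedding.comap_apply
      (MeasurableEmbedding.subtype_coe V.measurableSet_carrier)]
    calc V.μ (Metric.ball (x : En M) r)
        ≤ V.μ (Metric.ball (x : En M) r ∩ V.carrier) + V.μ (V.carrierᶜ) := by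
          refine (measure_mono ?_).trans (measure_union_le _ _)
          intro y hy
          by_cases hyV : y ∈ V.carrier
          · exact Or.inl ⟨hy, hyV⟩
          · exact Or.inr hyV
      _ = V.μ (Metric.ball (x : En M) r ∩ V.carrier) := by rw [V.μ_supp, add_zero]
      _ ≤ V.μ (Subtype.val '' U) := by
          refine measure_mono ?_
          rintro y ⟨hy, hyV⟩
          exact ⟨⟨y, hyV⟩, hb (by simpa [Metric.mem_ball, Subtype.dist_eq] using hy), rfl⟩
  rw [h0] at h2
  exact absurd (lt_of_lt_of_le h1 h2) (lt_irrefl _)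

theorem Geo.integral_μX (V : Geo n M) {E : Type} [NormedAddCommGroup E] [NormedSpace ℝ E]
    (f : En M → E) : ∫ x : V.carrier, f x ∂V.μX = ∫ x, f x ∂V.μ := by
  rw [Geo.μX, MeasureTheory.integral_subtype_comap V.measurableSet_carrier f]
  rw [Measure.restrict_eq_self_of_ae_mem]
  exact mem_ae_iff.mpr V.μ_supp

/-- Restriction of a continuous function to `V`. -/
def restr (V : Geo n M) {F : Type} [NormedAddCommGroup F] (u : En M → F) (hu : Continuous u) :
    C(V.carrier, F) := ⟨fun x => u x, hu.comp continuous_subtype_val⟩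

open Classical in
/-- Extension of a function on `V` by zero. -/
noncomputable def ext0 (V : Geo n M) {F : Type} [NormedAddCommGroup F]
    (f : C(V.carrier, F)) (x : En M) : F :=
  if h : x ∈ V.carrier then f ⟨x, h⟩ else 0

theorem ext0_apply (V : Geo n M) {F : Type} [NormedAddCommGroup F]
    (f : C(V.carrier, F)) (x : V.carrier) : ext0 V f x = f x := by
  unfold ext0
  rw [dif_pos x.2]

theorem continuousOn_ext0 (V : Geo n M) {F : Type} [NormedAddCommGroup F]
    (f : C(V.carrier, F)) : ContinuousOn (ext0 V f) V.carrier := by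
  rw [continuousOn_iff_continuous_domRestrict]
  have : V.carrier.domRestrict (ext0 V f) = f := by
    funext x
    exact ext0_apply V f x
  rw [this]
  exact f.continuous

/-- The real algebra of restrictions of smooth functions. -/
private def smAlg (V : Geo n M) : Subalgebra ℝ C(V.carrier, ℝ) where
  carrier := {f | ∃ u : En M → ℝ, ContDiff ℝ ∞ u ∧ ∀ x : V.carrier, f x = u x}
  mul_mem' := by
    rintro f g ⟨u, hu, h1⟩ ⟨v, hv, h2⟩
    exact ⟨fun x => u x * v x, hu.mul hv, fun x => by rw [ContinuousMap.mul_apply, h1, h2]⟩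
  add_mem' := by
    rintro f g ⟨u, hu, h1⟩ ⟨v, hv, h2⟩
    exact ⟨fun x => u x + v x, hu.add hv, fun x => by rw [ContinuousMap.add_apply, h1, h2]⟩
  algebraMap_mem' r := ⟨fun _ => r, contDiff_const, fun x => rfl⟩

private theorem smAlg_closure (V : Geo n M) : (smAlg V).topologicalClosure = ⊤ := by
  refine ContinuousMap.subalgebra_topologicalClosure_eq_top_of_separatesPoints _ ?_
  intro x y hxy
  have hne : (x : En M) ≠ y := fun h => hxy (Subtype.ext h)
  obtain ⟨a, ha⟩ : ∃ a, (x : En M) a ≠ (y : En M) a := by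
    by_contra hcon
    push Not at hcon
    exact hne (PiLp.ext hcon)
  have hs : ContDiff ℝ ∞ (fun z : En M => z a) := by fun_prop
  exact ⟨_, ⟨restr V (fun z : En M => z a) hs.continuous, ⟨_, hs, fun _ => rfl⟩, rfl⟩, ha⟩

private theorem dense_smooth (V : Geo n M) {F : Type} [NormedAddCommGroup F] [NormedSpace ℝ F]
    [FiniteDimensional ℝ F] (f : C(V.carrier, F)) :
    f ∈ closure {f : C(V.carrier, F) | ∃ u : En M → F, ContDiff ℝ ∞ u ∧
      ∀ x : V.carrier, f x = u x} := by
  let S : AddSubgroup C(V.carrier, F) :=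
    { carrier := {f : C(V.carrier, F) | ∃ u : En M → F, ContDiff ℝ ∞ u ∧
        ∀ x : V.carrier, f x = u x}
      add_mem' := by
        rintro f g ⟨u, hu, h1⟩ ⟨v, hv, h2⟩
        exact ⟨fun x => u x + v x, hu.add hv, fun x => by rw [ContinuousMap.add_apply, h1, h2]⟩
      zero_mem' := ⟨fun _ => 0, contDiff_const, fun x => rfl⟩
      neg_mem' := by
        rintro f ⟨u, hu, h1⟩
        exact ⟨fun x => - u x, hu.neg, fun x => by rw [ContinuousMap.neg_apply, h1]⟩ }
  change f ∈ closure (S : Set C(V.carrier, F))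
  rw [← AddSubgroup.topologicalClosure_coe]
  let b := Module.finBasis ℝ F
  have hco : ∀ i, Continuous (fun x : V.carrier => b.coord i (f x)) := fun i =>
    ((b.coord i).toContinuousLinearMap.continuous).comp f.continuous
  have hf : f = ∑ i, (⟨fun x => b.coord i (f x) • b i,
      (hco i).smul continuous_const⟩ : C(V.carrier, F)) := by
    ext x
    rw [ContinuousMap.sum_apply]
    exact (b.sum_repr (f x)).symm
  rw [hf]
  refine AddSubgroup.sum_mem _ fun i _ => ?_
  let φ : C(V.carrier, ℝ) → C(V.carrier, F) := fun g =>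
    ⟨fun x => g x • b i, g.continuous.smul continuous_const⟩
  have hφ : Continuous φ := by
    have h1 : φ = fun g => ContinuousMap.comp
        (⟨fun r : ℝ => r • b i, continuous_id.smul continuous_const⟩ : C(ℝ, F)) g := by
      funext g
      rfl
    rw [h1]
    exact ContinuousMap.continuous_postcomp _
  have hmem : (⟨fun x => b.coord i (f x), hco i⟩ : C(V.carrier, ℝ)) ∈
      closure (smAlg V : Set C(V.carrier, ℝ)) := by
    have h := smAlg_closure V
    have h2 : (⟨fun x => b.coord i (f x), hco i⟩ : C(V.carrier, ℝ)) ∈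
        (smAlg V).topologicalClosure := by rw [h]; trivial
    exact h2
  have := map_mem_closure hφ hmem (t := (S : Set C(V.carrier, F))) (by
    rintro g ⟨u, hu, h1⟩
    exact ⟨fun x => u x • b i, hu.smul contDiff_const, fun x => by
      change g x • b i = u x • b i
      rw [h1]⟩)
  exact this

namespace Dirac

variable {V : Geo n M} {H : Type} [NormedAddCommGroup H]
  [InnerProductSpace ℂ H] [FiniteDimensional ℂ H] (𝔇 : Dirac V H)

/-- Pointwise multiplication by an operator valued function. -/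
noncomputable def mulCLM (V : Geo n M) (A : En M → (H →L[ℂ] H)) (hA : Continuous A) :
    C(V.carrier, H) →L[ℂ] C(V.carrier, H) :=
  LinearMap.mkContinuous
    { toFun := fun f => ⟨fun x => A x (f x),
        (hA.comp continuous_subtype_val).clm_apply f.continuous⟩
      map_add' := fun f g => by ext x; simp
      map_smul' := fun c f => by ext x; simp }
    ‖restr V A hA‖
    (fun f => by
      rw [ContinuousMap.norm_le _ (by positivity)]
      intro x
      calc ‖A x (f x)‖ ≤ ‖A x‖ * ‖f x‖ := (A x).le_opNorm _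
        _ ≤ ‖restr V A hA‖ * ‖f‖ := by
          gcongr
          · exact ContinuousMap.norm_coe_le_norm (restr V A hA) x
          · exact ContinuousMap.norm_coe_le_norm f x)

theorem mulCLM_apply (A : En M → (H →L[ℂ] H)) (hA : Continuous A) (f : C(V.carrier, H))
    (x : V.carrier) : mulCLM V A hA f x = A x (f x) := rfl

/-- The smooth sections, as a subspace of `C(V, H)`. -/
noncomputable def secs : Submodule ℂ C(V.carrier, H) where
  carrier := {f | ∃ u : En M → H, 𝔇.IsSec u ∧ ∀ x : V.carrier, f x = u x}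
  add_mem' := by
    rintro f g ⟨u, hu, h1⟩ ⟨v, hv, h2⟩
    refine ⟨fun x => u x + v x, ⟨hu.1.add hv.1, fun x hx => ?_⟩, fun x => ?_⟩
    · rw [map_add, hu.2 x hx, hv.2 x hx]
    · rw [ContinuousMap.add_apply, h1, h2]
  zero_mem' := ⟨fun _ => 0, ⟨contDiff_const, fun x _ => by simp⟩, fun x => rfl⟩
  smul_mem' := by
    rintro c f ⟨u, hu, h1⟩
    refine ⟨fun x => c • u x, ⟨hu.1.const_smul c, fun x hx => ?_⟩, fun x => ?_⟩
    · rw [map_smul, hu.2 x hx]
    · rw [ContinuousMap.smul_apply, h1]

/-- A smooth extension of a smooth section. -/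
noncomputable def lift (f : 𝔇.secs) : En M → H := f.2.choose

theorem lift_isSec (f : 𝔇.secs) : 𝔇.IsSec (𝔇.lift f) := f.2.choose_spec.1

theorem lift_apply (f : 𝔇.secs) (x : V.carrier) : (f : C(V.carrier, H)) x = 𝔇.lift f x :=
  f.2.choose_spec.2 x

/-- The operator `D` on the smooth sections. -/
noncomputable def Dsec (hloc : V.Loc) : 𝔇.secs →ₗ[ℂ] 𝔇.secs where
  toFun f := ⟨restr V (𝔇.op (𝔇.lift f)) (𝔇.contDiff_op (𝔇.lift_isSec f).1).continuous,
    𝔇.op (𝔇.lift f), 𝔇.op_isSec (𝔇.lift_isSec f), fun x => rfl⟩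
  map_add' f g := by
    apply Subtype.ext
    ext x
    change 𝔇.op (𝔇.lift (f + g)) x = 𝔇.op (𝔇.lift f) x + 𝔇.op (𝔇.lift g) x
    rw [← 𝔇.op_add (𝔇.lift_isSec f).1 (𝔇.lift_isSec g).1]
    refine 𝔇.op_congr hloc (𝔇.lift_isSec _).1
      ((𝔇.lift_isSec f).1.add (𝔇.lift_isSec g).1) (fun y hy => ?_) x.2
    have h := 𝔇.lift_apply (f + g) ⟨y, hy⟩
    have h1 := 𝔇.lift_apply f ⟨y, hy⟩
    have h2 := 𝔇.lift_apply g ⟨y, hy⟩
    simp only at h h1 h2
    rw [← h, ← h1, ← h2]
    rfl
  map_smul' c f := by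
    apply Subtype.ext
    ext x
    change 𝔇.op (𝔇.lift (c • f)) x = c • 𝔇.op (𝔇.lift f) x
    rw [← 𝔇.op_smul c (𝔇.lift_isSec f).1]
    refine 𝔇.op_congr hloc (𝔇.lift_isSec _).1
      ((𝔇.lift_isSec f).1.const_smul c) (fun y hy => ?_) x.2
    have h := 𝔇.lift_apply (c • f) ⟨y, hy⟩
    have h1 := 𝔇.lift_apply f ⟨y, hy⟩
    simp only at h h1
    rw [← h, ← h1]
    rfl

theorem Dsec_spec (hloc : V.Loc) (f : 𝔇.secs) {u : En M → H} (hu : 𝔇.IsSec u)
    (h : ∀ x : V.carrier, (f : C(V.carrier, H)) x = u x) (x : V.carrier) :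
    (𝔇.Dsec hloc f : C(V.carrier, H)) x = 𝔇.op u x := by
  change 𝔇.op (𝔇.lift f) x = 𝔇.op u x
  refine 𝔇.op_congr hloc (𝔇.lift_isSec _).1 hu.1 (fun y hy => ?_) x.2
  have h1 := 𝔇.lift_apply f ⟨y, hy⟩
  have h2 := h ⟨y, hy⟩
  simp only at h1 h2
  rw [← h1, ← h2]

theorem dense_secs (f : C(V.carrier, H))
    (hf : ∀ x : V.carrier, 𝔇.Q x (f x) = f x) :
    f ∈ closure (𝔇.secs : Set C(V.carrier, H)) := by
  have hQ : Continuous 𝔇.Q := 𝔇.smoothQ.continuous
  have h1 : mulCLM V 𝔇.Q hQ f = f := by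
    ext x
    exact hf x
  rw [← h1]
  have : FiniteDimensional ℝ H := FiniteDimensional.complexToReal H
  refine map_mem_closure (mulCLM V 𝔇.Q hQ).continuous (dense_smooth V f) ?_
  rintro g ⟨u, hu, h2⟩
  exact ⟨fun x => 𝔇.Q x (u x), 𝔇.Q_isSec hu, fun x => by rw [mulCLM_apply, h2]⟩

theorem ip_Dsec (hV : V.Good l) (f g : 𝔇.secs) :
    Ker.ip V.μX (𝔇.Dsec hV.loc f : C(V.carrier, H)) g =
      Ker.ip V.μX (f : C(V.carrier, H)) (𝔇.Dsec hV.loc g : C(V.carrier, H)) := by
  have h := 𝔇.op_symm hV (𝔇.lift_isSec f) (𝔇.lift_isSec g)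
  rw [← V.integral_μX, ← V.integral_μX] at h
  unfold Ker.ip
  have e1 : ∀ x : V.carrier, inner ℂ ((𝔇.Dsec hV.loc f : C(V.carrier, H)) x)
      ((g : C(V.carrier, H)) x) = inner ℂ (𝔇.op (𝔇.lift f) x) (𝔇.lift g x) := fun x => by
    rw [𝔇.Dsec_spec hV.loc f (𝔇.lift_isSec f) (𝔇.lift_apply f), 𝔇.lift_apply g]
  have e2 : ∀ x : V.carrier, inner ℂ ((f : C(V.carrier, H)) x)
      ((𝔇.Dsec hV.loc g : C(V.carrier, H)) x) = inner ℂ (𝔇.lift f x) (𝔇.op (𝔇.lift g) x) :=
    fun x => by
      rw [𝔇.Dsec_spec hV.loc g (𝔇.lift_isSec g) (𝔇.lift_apply g), 𝔇.lift_apply f]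
  simp_rw [e1, e2]
  exact h

end Dirac

end Pool.Agent.EXO
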