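import Pool.Agent.EXO.IdG
import Pool.Agent.EXO.IdE

/-!
Project EXO, chunk IDX-A, module IgA: uniform bounds for `K_t u` and `∫ D K_t u` with smooth `u`.

Notation `I k t u x := ∫ y, ev k t (x,y) (u y) ∂V.μ`.

PROOFS.
* `tdL_expand`: induction on `A`.  `A = []`: one term.  `a :: A`: on `V`
  `tdL A (I k t u) = ∑_i I (k_i) t (u_i)`; both sides are smooth on `ℝ^M` (`contDiff_intK`,
  `contDiff_td`), so by `td_congr` `td a` of them agree on `V`, and `td a` of the right side is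
  `∑_i (I (fts a k_i) t u_i + I k_i t (td a u_i + Hm_a u_i))` on `V` (`td_int'`); `Cls.fts`;
  `Hm_a` is smooth (`V.smoothP`).  The list of the new pairs does not depend on `t`.
* `int_bound`: `‖I k t u x‖ ≤ (∫ ‖ev k t (x,y)‖) sup_V ‖u‖ ≤ C` (`ev_int` with `w = 0`).
* `DK_expand`: `k ∈ Cls 0` left `Q`-valued or not: for `x ∈ V`, `u` smooth:
  `I (fD k) t u x = D (I k t u) x` (`opK_ev`, `op_int`) `= ∑_a c_a Q(x) (td a (I k t u) x) + B(x) I k t u x`
  `= ∑_a I (c_a Q fts a k) t u + I (c_a Q k) t (td a u + Hm_a u) + I (B k) t u`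
  (`td_int'`, `ev_mulLeft`, `Cls.mulLeft`).
* `tdL_evI_smooth`: `∫ y, evI (fD k) δ (x,y) (u y) = ∫ s in δ..1, I (fD k) s u x` (`int_evI`), and its
  iterated tangential derivatives are the integrals over `s` of those of `I (fD k) s u`, which
  are bounded on `V` uniformly in `s ∈ (0,1]` by `DK_expand`, `tdL_expand`, `int_bound`.  In detail:
  `tdL A (x ↦ ∫ y, evI (fD k) δ (x,y) (u y)) x = ∫ y, evI (ftxL A (fD k)) δ (x,y) (u y)
  = ∫ s in δ..1, ∫ y, ev (ftxL A (fD k)) s (x,y) (u y) = ∫ s in δ..1, tdL A (I (fD k) s u) x`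
  (see `tdL_evI`).  So the difference for `δ`, `δ'` is at most `C |δ - δ'|`.
-/

set_option autoImplicit false
set_option maxSynthPendingDepth 3

open MeasureTheory Filter Topology
open scoped ContDiff

namespace Pool.Agent.EXO

namespace Dirac

variable {n M l : ℕ} {V : Geo n M} {H : Type} [NormedAddCommGroup H]
  [InnerProductSpace ℂ H] [FiniteDimensional ℂ H] {k : FK M H} {w : ℤ}

private theorem smooth_Hm (V : Geo n M) (a : Fin M) : ContDiff ℝ ∞ (V.Hm a) := by
  unfold Geo.Hm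
  refine ContDiff.sum fun b _ => ?_
  have h1 : ContDiff ℝ ∞ (fun x => fderiv ℝ V.P x) :=
    V.smoothP.fderiv_right (m := ∞) (by simp)
  have h2 : ContDiff ℝ ∞ (fun x => V.P x (bv b)) := V.smoothP.clm_apply contDiff_const
  have h3 : ContDiff ℝ ∞ (fun x => fderiv ℝ V.P x (V.P x (bv b)) (bv a)) :=
    (h1.clm_apply h2).clm_apply contDiff_const
  fun_prop

private theorem tdL_smooth {F : Type} [NormedAddCommGroup F] [NormedSpace ℝ F]
    (A : List (Fin M)) {f : En M → F} (hf : ContDiff ℝ ∞ f) : ContDiff ℝ ∞ (tdL V A f) := by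
  induction A with
  | nil => exact hf
  | cons a A ih => exact contDiff_td ih a

/-- Functions with an expansion. -/
private def Ex (V : Geo n M) (G : ℝ → En M → H) : Prop :=
  ∃ (N : ℕ) (k' : Fin N → FK M H) (u' : Fin N → En M → H),
      (∀ i, Cls V 0 (k' i)) ∧ (∀ i, ContDiff ℝ ∞ (u' i)) ∧
      ∀ t > (0 : ℝ), ∀ x ∈ V.carrier,
        G t x = ∑ i, ∫ y, ev (k' i) t (x, y) (u' i y) ∂V.μ

private theorem Ex.single (h : Cls V 0 k) {u : En M → H} (hu : ContDiff ℝ ∞ u) :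
    Ex V (fun t x => ∫ y, ev k t (x, y) (u y) ∂V.μ) :=
  ⟨1, fun _ => k, fun _ => u, fun _ => h, fun _ => hu, fun t _ x _ => by simp⟩

private theorem Ex.congr {G G' : ℝ → En M → H} (h : Ex V G)
    (e : ∀ t > (0 : ℝ), ∀ x ∈ V.carrier, G' t x = G t x) : Ex V G' := by
  obtain ⟨N, k', u', h1, h2, h3⟩ := h
  exact ⟨N, k', u', h1, h2, fun t ht x hx => (e t ht x hx).trans (h3 t ht x hx)⟩

private theorem Ex.add {G G' : ℝ → En M → H} (h : Ex V G) (h' : Ex V G') :
    Ex V (fun t x => G t x + G' t x) := by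
  obtain ⟨N, k1, u1, h1, h2, h3⟩ := h
  obtain ⟨N', k2, u2, h4, h5, h6⟩ := h'
  refine ⟨N + N', Fin.append k1 k2, Fin.append u1 u2, fun i => ?_, fun i => ?_,
    fun t ht x hx => ?_⟩
  · refine Fin.addCases (fun i => ?_) (fun i => ?_) i
    · rw [Fin.append_left]; exact h1 i
    · rw [Fin.append_right]; exact h4 i
  · refine Fin.addCases (fun i => ?_) (fun i => ?_) i
    · rw [Fin.append_left]; exact h2 i
    · rw [Fin.append_right]; exact h5 i
  · simp only
    rw [Fin.sum_univ_add, h3 t ht x hx, h6 t ht x hx]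
    simp only [Fin.append_left, Fin.append_right]

private theorem Ex.sum {ι : Type} (s : Finset ι) {G : ι → ℝ → En M → H}
    (h : ∀ i ∈ s, Ex V (G i)) : Ex V (fun t x => ∑ i ∈ s, G i t x) := by
  classical
  induction s using Finset.induction_on with
  | empty =>
    exact ⟨0, fun _ => 0, fun _ => 0, fun i => i.elim0, fun i => i.elim0,
      fun t _ x _ => by simp⟩
  | insert a s ha ih =>
    refine ((h a (Finset.mem_insert_self _ _)).add
      (ih fun i hi => h i (Finset.mem_insert_of_mem hi))).congr fun t _ x _ => ?_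
    rw [Finset.sum_insert ha]

private theorem Ex.mulLeft {G : ℝ → En M → H} (h : Ex V G) {A : En M → (H →L[ℂ] H)}
    (hA : ContDiff ℝ ∞ A) : Ex V (fun t x => A x (G t x)) := by
  have hfin := V.μ_fin
  obtain ⟨N, k', u', h1, h2, h3⟩ := h
  refine ⟨N, fun i j p => A p.1 * k' i j p, u', fun i => (h1 i).mulLeft hA, h2,
    fun t ht x hx => ?_⟩
  simp only
  rw [h3 t ht x hx, map_sum]
  refine Finset.sum_congr rfl fun i _ => ?_
  have hint : Integrable (fun y => ev (k' i) t (x, y) (u' i y)) V.μ := by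
    have hc : Continuous (fun y => ev (k' i) t (x, y) (u' i y)) :=
      ((contDiff_ev (h1 i).1 ht).continuous.comp (continuous_const.prodMk continuous_id)).clm_apply
        (h2 i).continuous
    have h4 := hc.continuousOn.integrableOn_compact (μ := V.μ) V.compact
    rwa [IntegrableOn, Measure.restrict_eq_self_of_ae_mem (mem_ae_iff.mpr V.μ_supp)] at h4
  rw [← ContinuousLinearMap.integral_comp_comm (A x) hint]
  refine integral_congr_ae (Filter.Eventually.of_forall fun y => ?_)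
  simp only
  rw [ev_mulLeft (h1 i).1 A t (x, y)]
  rfl

private theorem Ex.td (hV : V.Good l) {G : ℝ → En M → H} (h : Ex V G)
    (hG : ∀ t > (0 : ℝ), ContDiff ℝ ∞ (G t)) (a : Fin M) :
    Ex V (fun t x => Pool.Agent.EXO.td V a (G t) x) := by
  obtain ⟨N, k', u', h1, h2, h3⟩ := h
  have h4 : Ex V (fun t x => ∑ i, ((∫ y, ev (Dirac.fts V a (k' i)) t (x, y) (u' i y) ∂V.μ) +
      ∫ y, ev (k' i) t (x, y) (Pool.Agent.EXO.td V a (u' i) y + V.Hm a y • u' i y) ∂V.μ)) := by
    refine Ex.sum _ fun i _ => Ex.add (Ex.single ((h1 i).fts hV.loc a) (h2 i)) (Ex.single (h1 i) ?_)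
    exact (contDiff_td (h2 i) a).add ((smooth_Hm V a).smul (h2 i))
  refine h4.congr fun t ht x hx => ?_
  have hs : ∀ i, ContDiff ℝ ∞ (fun x => ∫ y, ev (k' i) t (x, y) (u' i y) ∂V.μ) := fun i =>
    contDiff_intK (contDiff_ev (h1 i).1 ht) (h2 i).continuous.continuousOn
  rw [td_congr hV.loc (hG t ht) (ContDiff.sum fun i _ => hs i) (fun x hx => h3 t ht x hx) a hx]
  unfold Pool.Agent.EXO.td
  rw [fderiv_fun_sum fun i _ => ((hs i).differentiable (by simp)).differentiableAt,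
    sum_apply]
  refine Finset.sum_congr rfl fun i _ => ?_
  exact td_int' hV (h1 i).1 a ht (h2 i) hx

private theorem Ex.tdL (hV : V.Good l) {G : ℝ → En M → H} (h : Ex V G)
    (hG : ∀ t > (0 : ℝ), ContDiff ℝ ∞ (G t)) (A : List (Fin M)) :
    Ex V (fun t x => Pool.Agent.EXO.tdL V A (G t) x) := by
  induction A with
  | nil => exact h
  | cons a A ih => exact Ex.td hV ih (fun t ht => tdL_smooth A (hG t ht)) a

theorem tdL_expand (hV : V.Good l) (h : Cls V 0 k) {u : En M → H} (hu : ContDiff ℝ ∞ u)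
    (A : List (Fin M)) :
    ∃ (N : ℕ) (k' : Fin N → FK M H) (u' : Fin N → En M → H),
      (∀ i, Cls V 0 (k' i)) ∧ (∀ i, ContDiff ℝ ∞ (u' i)) ∧
      ∀ t > (0 : ℝ), ∀ x ∈ V.carrier,
        tdL V A (fun x => ∫ y, ev k t (x, y) (u y) ∂V.μ) x =
          ∑ i, ∫ y, ev (k' i) t (x, y) (u' i y) ∂V.μ :=
  Ex.tdL hV (Ex.single h hu)
    (fun _ ht => contDiff_intK (contDiff_ev h.1 ht) hu.continuous.continuousOn) A

theorem int_bound (hV : V.Good l) (h : Cls V 0 k) {u : En M → H}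
    (hu : ContinuousOn u V.carrier) : ∃ C : ℝ, ∀ t ∈ Set.Ioc (0 : ℝ) 1, ∀ x ∈ V.carrier,
      ‖∫ y, ev k t (x, y) (u y) ∂V.μ‖ ≤ C := by
  have hfin := V.μ_fin
  obtain ⟨C, hC0, hC⟩ := ev_int hV h
  obtain ⟨Cu, hCu⟩ := V.compact.exists_bound_of_continuousOn hu
  refine ⟨C * max Cu 0, fun t ht x hx => ?_⟩
  have h1 := hC t ht x hx
  rw [zpow_zero, mul_one] at h1
  have hint : Integrable (fun y => ‖ev k t (x, y)‖) V.μ := by
    have hc : Continuous (fun y => ‖ev k t (x, y)‖) :=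
      ((contDiff_ev h.1 ht.1).continuous.comp (continuous_const.prodMk continuous_id)).norm
    have h4 := hc.continuousOn.integrableOn_compact (μ := V.μ) V.compact
    rwa [IntegrableOn, Measure.restrict_eq_self_of_ae_mem (mem_ae_iff.mpr V.μ_supp)] at h4
  calc ‖∫ y, ev k t (x, y) (u y) ∂V.μ‖ ≤ ∫ y, ‖ev k t (x, y)‖ * max Cu 0 ∂V.μ := by
        refine norm_integral_le_of_norm_le (hint.mul_const _) ?_
        filter_upwards [mem_ae_iff.mpr V.μ_supp] with y hy
        refine ((ev k t (x, y)).le_opNorm _).trans ?_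
        gcongr
        exact (hCu y hy).trans (le_max_left _ _)
    _ = (∫ y, ‖ev k t (x, y)‖ ∂V.μ) * max Cu 0 := integral_mul_const _ _
    _ ≤ C * max Cu 0 := by gcongr

private theorem Ex.bound (hV : V.Good l) {G : ℝ → En M → H} (h : Ex V G) :
    ∃ C : ℝ, ∀ t ∈ Set.Ioc (0 : ℝ) 1, ∀ x ∈ V.carrier, ‖G t x‖ ≤ C := by
  obtain ⟨N, k', u', h1, h2, h3⟩ := h
  choose C hC using fun i => int_bound hV (h1 i) (h2 i).continuous.continuousOn
  refine ⟨∑ i, C i, fun t ht x hx => ?_⟩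
  rw [h3 t ht.1 x hx]
  exact (norm_sum_le _ _).trans (Finset.sum_le_sum fun i _ => hC i t ht x hx)

private theorem Ex.DK (𝔇 : Dirac V H) (hV : V.Good l) (h : Cls V 0 k) {u : En M → H}
    (hu : ContDiff ℝ ∞ u) : Ex V (fun t x => ∫ y, ev (𝔇.fD k) t (x, y) (u y) ∂V.μ) := by
  have hs : ∀ t > (0 : ℝ), ContDiff ℝ ∞ (fun x => ∫ y, ev k t (x, y) (u y) ∂V.μ) := fun t ht =>
    contDiff_intK (contDiff_ev h.1 ht) hu.continuous.continuousOn
  have e0 := Ex.single h hu
  have e1 : ∀ a : Fin M, Ex V (fun t x =>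
      (𝔇.c a * 𝔇.Q x) (Pool.Agent.EXO.td V a (fun x => ∫ y, ev k t (x, y) (u y) ∂V.μ) x)) :=
    fun a => Ex.mulLeft (Ex.td hV e0 hs a) (contDiff_const.mul 𝔇.smoothQ)
  have e2 : Ex V (fun t x => 𝔇.B x (∫ y, ev k t (x, y) (u y) ∂V.μ)) :=
    Ex.mulLeft e0 𝔇.smoothB
  refine ((Ex.sum Finset.univ fun a _ => e1 a).add e2).congr fun t ht x hx => ?_
  rw [← 𝔇.opK_ev h.1 ht, ← 𝔇.op_int (contDiff_ev h.1 ht) hu.continuous.continuousOn]
  rfl

theorem DK_expand (𝔇 : Dirac V H) (hV : V.Good l) (h : Cls V 0 k) {u : En M → H}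
    (hu : ContDiff ℝ ∞ u) :
    ∃ (N : ℕ) (k' : Fin N → FK M H) (u' : Fin N → En M → H),
      (∀ i, Cls V 0 (k' i)) ∧ (∀ i, ContDiff ℝ ∞ (u' i)) ∧
      ∀ t > (0 : ℝ), ∀ x ∈ V.carrier,
        ∫ y, ev (𝔇.fD k) t (x, y) (u y) ∂V.μ =
          ∑ i, ∫ y, ev (k' i) t (x, y) (u' i y) ∂V.μ :=
  Ex.DK 𝔇 hV h hu

private theorem td_intK {K : KF M H} (hK : ContDiff ℝ ∞ K) {u : En M → H}
    (hu : ContinuousOn u V.carrier) (a : Fin M) (x : En M) :
    td V a (fun x => ∫ y, K (x, y) (u y) ∂V.μ) x = ∫ y, (tdx V a K (x, y)) (u y) ∂V.μ := by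
  have hk' : ContDiff ℝ ∞ (fun p => (K p).restrictScalars ℝ) :=
    (ContinuousLinearMap.restrictScalarsL ℂ H H ℝ ℝ).contDiff.comp hK
  have : FiniteDimensional ℝ H := FiniteDimensional.complexToReal H
  have h1 := fderiv_int (V := V) hk' hu x (V.P x (bv a))
  refine h1.trans ?_
  refine integral_congr_ae (Filter.Eventually.of_forall fun y => ?_)
  simp only
  rw [icRow_fderiv hK]
  rfl

private theorem ftxL_FS (h : FS k) (A : List (Fin M)) : FS (ftxL V A k) := by
  induction A with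
  | nil => exact h
  | cons a A ih => exact FS.ftx ih a

private theorem tdL_ev (h : FS k) {t : ℝ} (ht : 0 < t) {u : En M → H}
    (hu : ContinuousOn u V.carrier) (A : List (Fin M)) :
    tdL V A (fun x => ∫ y, ev k t (x, y) (u y) ∂V.μ) =
      fun x => ∫ y, ev (ftxL V A k) t (x, y) (u y) ∂V.μ := by
  induction A with
  | nil => rfl
  | cons a A ih =>
    funext x
    change td V a (tdL V A _) x = _
    rw [ih]
    exact td_int (ftxL_FS h A) a ht hu x

private theorem tdL_evI_eq (h : FS k) {δ : ℝ} (h0 : 0 < δ) (h1 : δ ≤ 1) {u : En M → H}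
    (hu : ContinuousOn u V.carrier) (A : List (Fin M)) :
    tdL V A (fun x => ∫ y, evI k δ (x, y) (u y) ∂V.μ) =
      fun x => ∫ y, evI (ftxL V A k) δ (x, y) (u y) ∂V.μ := by
  induction A with
  | nil => rfl
  | cons a A ih =>
    funext x
    change td V a (tdL V A _) x = _
    rw [ih, td_intK (contDiff_evI (ftxL_FS h A) h0 h1) hu a x]
    refine integral_congr_ae (Filter.Eventually.of_forall fun y => ?_)
    simp only
    rw [tdx_evI (ftxL_FS h A) a h0 h1]
    rfl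

private theorem cont_I (h : FS k) {u : En M → H} (hu : Continuous u) (x : En M) :
    ContinuousOn (fun s => ∫ y, ev k s (x, y) (u y) ∂V.μ) (Set.Ioi 0) := by
  have hfin := V.μ_fin
  have hlc : LocallyCompactSpace (Set.Ioi (0 : ℝ)) := isOpen_Ioi.locallyCompactSpace
  rw [continuousOn_iff_continuous_domRestrict]
  have h1 : Continuous (fun q : Set.Ioi (0 : ℝ) × En M => ev k q.1 (x, q.2) (u q.2)) := by
    have h2 : Continuous (fun q : Set.Ioi (0 : ℝ) × En M => ev k q.1 (x, q.2)) := by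
      have h3 := continuousOn_ev h
      refine h3.comp_continuous (f := fun q : Set.Ioi (0 : ℝ) × En M =>
        ((q.1 : ℝ), (x, q.2))) (by fun_prop) fun q => ?_
      exact ⟨q.1.2, Set.mem_univ _⟩
    exact h2.clm_apply (hu.comp continuous_snd)
  have h4 := continuous_parametric_integral_of_continuous (μ := V.μ)
    (f := fun (s : Set.Ioi (0 : ℝ)) (y : En M) => ev k s (x, y) (u y)) h1 V.compact
  rw [Measure.restrict_eq_self_of_ae_mem (mem_ae_iff.mpr V.μ_supp)] at h4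
  exact h4

theorem tdL_evI_smooth (𝔇 : Dirac V H) (hV : V.Good l) (h : Cls V 0 k) {u : En M → H}
    (hu : ContDiff ℝ ∞ u) (A : List (Fin M)) :
    UniformCauchySeqOn
      (fun (i : ℕ) => tdL V A
        (fun x => ∫ y, evI (𝔇.fD k) (1 / ((i : ℝ) + 2)) (x, y) (u y) ∂V.μ))
      atTop V.carrier := by
  have hD : FS (𝔇.fD k) := FS.fD 𝔇 h.1
  have huc := hu.continuous.continuousOn (s := V.carrier)
  have hE : Ex V (fun t x => tdL V A (fun x => ∫ y, ev (𝔇.fD k) t (x, y) (u y) ∂V.μ) x) :=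
    Ex.tdL hV (Ex.DK 𝔇 hV h hu) (fun t ht => contDiff_intK (contDiff_ev hD ht) huc) A
  obtain ⟨C, hC⟩ := hE.bound hV
  set δ : ℕ → ℝ := fun i => 1 / ((i : ℝ) + 2) with hδ
  have hδ0 : ∀ i, 0 < δ i := fun i => by rw [hδ]; positivity
  have hδ1 : ∀ i, δ i ≤ 1 := fun i => by
    rw [hδ]
    simp only
    rw [div_le_one (by positivity)]
    have : (0 : ℝ) ≤ i := Nat.cast_nonneg i
    linarith
  have hδt : Tendsto δ atTop (𝓝 0) := by
    rw [hδ]
    refine Tendsto.div_atTop tendsto_const_nhds ?_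
    exact tendsto_atTop_add_const_right _ _ tendsto_natCast_atTop_atTop
  let f : ℝ → En M → H := fun s x => ∫ y, ev (ftxL V A (𝔇.fD k)) s (x, y) (u y) ∂V.μ
  have hf : ∀ s ∈ Set.Ioc (0 : ℝ) 1, ∀ x ∈ V.carrier, ‖f s x‖ ≤ C := fun s hs x hx => by
    have h1 := hC s hs x hx
    rw [tdL_ev hD hs.1 huc A] at h1
    exact h1
  have hfc : ∀ x, ContinuousOn (fun s => f s x) (Set.Ioi 0) := fun x =>
    cont_I (ftxL_FS hD A) hu.continuous x
  have hfi : ∀ x, ∀ a b : ℝ, 0 < a → 0 < b → IntervalIntegrable (fun s => f s x) volume a b := by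
    intro x a b ha hb
    apply ContinuousOn.intervalIntegrable
    refine (hfc x).mono fun t ht => ?_
    exact lt_of_lt_of_le (lt_min ha hb) ht.1
  have hval : ∀ i x, tdL V A (fun x => ∫ y, evI (𝔇.fD k) (δ i) (x, y) (u y) ∂V.μ) x =
      ∫ s in (δ i)..1, f s x := by
    intro i x
    rw [tdL_evI_eq hD (hδ0 i) (hδ1 i) huc A]
    exact int_evI (ftxL_FS hD A) (hδ0 i) (hδ1 i) huc x
  have hdiff : ∀ i j, ∀ x ∈ V.carrier, ‖(∫ s in (δ i)..1, f s x) - ∫ s in (δ j)..1, f s x‖ ≤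
      C * |δ j - δ i| := by
    intro i j x hx
    rw [← intervalIntegral.integral_add_adjacent_intervals
      (hfi x (δ i) (δ j) (hδ0 i) (hδ0 j)) (hfi x (δ j) 1 (hδ0 j) one_pos), add_sub_cancel_right]
    refine intervalIntegral.norm_integral_le_of_norm_le_const fun s hs => hf s ?_ x hx
    rw [Set.uIoc, Set.mem_Ioc] at hs
    exact ⟨lt_trans (lt_min (hδ0 i) (hδ0 j)) hs.1, hs.2.trans (max_le (hδ1 i) (hδ1 j))⟩
  rw [Metric.uniformCauchySeqOn_iff]
  intro ε hε
  have hC0 : 0 ≤ max C 0 := le_max_right _ _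
  have h3 : ∀ᶠ i in atTop, δ i < ε / (2 * (max C 0 + 1)) :=
    hδt.eventually_lt_const (by positivity)
  obtain ⟨N, hN⟩ := Filter.eventually_atTop.mp h3
  refine ⟨N, fun i hi j hj x hx => ?_⟩
  rw [dist_eq_norm, hval, hval]
  refine lt_of_le_of_lt (hdiff i j x hx) ?_
  have h4 : |δ j - δ i| < ε / (max C 0 + 1) := by
    have h5 := hN i hi
    have h6 := hN j hj
    have h7 := hδ0 i
    have h8 := hδ0 j
    have h9 : ε / (2 * (max C 0 + 1)) ≤ ε / (max C 0 + 1) := by
      apply div_le_div_of_nonneg_left hε.le (by positivity)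
      linarith
    rw [abs_lt]
    constructor <;> linarith
  calc C * |δ j - δ i| ≤ max C 0 * |δ j - δ i| := by gcongr; exact le_max_left _ _
    _ ≤ max C 0 * (ε / (max C 0 + 1)) := by gcongr
    _ < (max C 0 + 1) * (ε / (max C 0 + 1)) := by
      apply mul_lt_mul_of_pos_right _ (by positivity)
      linarith
    _ = ε := by field_simp

end Dirac

end Pool.Agent.EXO
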