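import Pool.Agent.EXO.IfD
import Pool.Agent.EXO.IgA

/-!
Project EXO, chunk IDX-A, module IgB: regularity.

PROOF of `reg_WD`.  Let `WD v f`, `f ∈ secs`, `f = u` on `V`, `u` a smooth section.  For every `r` take
a formal heat kernel `k` of order `m = n + 1 + r` (`exists_heat`), and the parametrix `P` of
`exists_parx`.  By `Q'_WD` (at `ε = 1`): `P.Q' 1 f = v - op μX (P.S1 1) v`, where
`P.Q' 1 f = ∫ t in 0..1, op μX (P.K1 t) f` (`isQ'`) and
`P.S1 1 = P.K 1 - ∫ t in 0..1, P.R t + ∫ t in 0..1, P.DW t`.  With `c = (4π)^{-l}` and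
`g := fD (fW k) - fL k ∈ Cls V m` put, for `δ_i = 1/(i+2)`,
`G_i(x) := c (∫ y, ev k 1 (x,y) (ext0 v y) + ∫ y, evI g δ_i (x,y) (ext0 v y)
   + ∫ y, evI (fD k) δ_i (x,y) (u y))`.
These are smooth on `ℝ^M` (`contDiff_intK`, `contDiff_evI`, `contDiff_ev`).
(a) `G_i → v` uniformly on `V`: `∫ s in δ..1, op μX (rk k' s) w` at `x` is
`c ∫ y, evI k' δ (x,y) (ext0 w y)` (`op_kerOf`, `int_evI`, evaluation commutes with the integral);
`op_int` for `R` and `DW`; `tendsto_R`, `tendsto_DW`, `tendsto_Q'` of IaGa give convergence in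
`C(V,H)` for `δ → 0+`.
(b) for every list `A` of length `≤ r` the sequence `tdL V A G_i` is uniformly Cauchy on `V`:
the first term does not depend on `i`; `tdL_evI` (`n + |A| ≤ m`); `tdL_evI_smooth`.
(`tdL` is additive on smooth functions, complex scalars.)
So `hV.reg` gives a smooth `w : ℝ^M → H` with `v = w` on `V`; then `x ↦ Q x (w x)` is a smooth section
(`Q_isSec`) and equals `v` on `V` because `Q v = v`.
-/

set_option autoImplicit false
set_option maxSynthPendingDepth 3

open MeasureTheory Filter Topology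
open scoped ContDiff

namespace Pool.Agent.EXO

variable {n M l m : ℕ}

namespace Dirac

variable {V : Geo n M} {H : Type} [NormedAddCommGroup H]
  [InnerProductSpace ℂ H] [FiniteDimensional ℂ H] (𝔇 : Dirac V H) {k : FK M H}

private theorem tdL_smooth {F : Type} [NormedAddCommGroup F] [NormedSpace ℝ F]
    (A : List (Fin M)) {f : En M → F} (hf : ContDiff ℝ ∞ f) : ContDiff ℝ ∞ (tdL V A f) := by
  induction A with
  | nil => exact hf
  | cons a A ih => exact contDiff_td ih a

private theorem tdL_add (A : List (Fin M)) {f g : En M → H} (hf : ContDiff ℝ ∞ f)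
    (hg : ContDiff ℝ ∞ g) :
    tdL V A (fun x => f x + g x) = fun x => tdL V A f x + tdL V A g x := by
  induction A with
  | nil => rfl
  | cons a A ih =>
    funext x
    change td V a (tdL V A (fun x => f x + g x)) x = td V a (tdL V A f) x + td V a (tdL V A g) x
    rw [ih]
    unfold td
    rw [fderiv_fun_add ((tdL_smooth A hf).differentiable (by simp) x)
      ((tdL_smooth A hg).differentiable (by simp) x)]
    rfl

private theorem tdL_csmul (A : List (Fin M)) (c : ℂ) {f : En M → H} (hf : ContDiff ℝ ∞ f) :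
    tdL V A (fun x => c • f x) = fun x => c • tdL V A f x := by
  induction A with
  | nil => rfl
  | cons a A ih =>
    funext x
    change td V a (tdL V A (fun x => c • f x)) x = c • td V a (tdL V A f) x
    rw [ih]
    unfold td
    rw [fderiv_fun_const_smul ((tdL_smooth A hf).differentiable (by simp) x)]
    rfl

private theorem op_evI {k' : FK M H} (hk : FS k') {δ : ℝ} (h0 : 0 < δ) (h1 : δ ≤ 1)
    (w : C(V.carrier, H)) (x : V.carrier) :
    Ker.op V.μX (∫ t in δ..1, rk V l k' t) w x =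
      (((4 * Real.pi)⁻¹ ^ l : ℝ) : ℂ) • ∫ y, evI k' δ (x, y) (ext0 V w y) ∂V.μ := by
  have hint : IntervalIntegrable (rk V l k') volume δ 1 := by
    apply ContinuousOn.intervalIntegrable
    refine (continuousOn_rk V l hk).mono ?_
    rw [Set.uIcc_of_le h1]
    exact fun t ht => lt_of_lt_of_le h0 ht.1
  rw [Ker.op_apply]
  have e1 : ∀ y : V.carrier, (∫ t in δ..1, rk V l k' t) (x, y) =
      (((4 * Real.pi)⁻¹ ^ l : ℝ) : ℂ) • evI k' δ (x, y) := by
    intro y
    have h2 := (Ker.evalCLM (H := H) ((x, y) : V.carrier × V.carrier)).intervalIntegral_comp_comm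
      hint
    rw [Ker.evalCLM_apply] at h2
    rw [← h2]
    unfold evI
    rw [← intervalIntegral.integral_smul]
    apply intervalIntegral.integral_congr
    intro t ht
    rw [Set.uIcc_of_le h1] at ht
    simp only [Ker.evalCLM_apply]
    exact rk_apply hk (lt_of_lt_of_le h0 ht.1) x y
  have e2 : ∀ y : V.carrier, (∫ t in δ..1, rk V l k' t) (x, y) (w y) =
      (fun y : En M => (((4 * Real.pi)⁻¹ ^ l : ℝ) : ℂ) • evI k' δ (x, y) (ext0 V w y)) y := by
    intro y
    simp only
    rw [e1, ext0_apply]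
    rfl
  refine (integral_congr_ae (Filter.Eventually.of_forall e2)).trans ?_
  refine (V.integral_μX (fun y : En M =>
    (((4 * Real.pi)⁻¹ ^ l : ℝ) : ℂ) • evI k' δ (x, y) (ext0 V w y))).trans ?_
  exact integral_smul _ _

private theorem op_rk1 {k' : FK M H} (hk : FS k') (w : C(V.carrier, H)) (x : V.carrier) :
    Ker.op V.μX (rk V l k' 1) w x =
      (((4 * Real.pi)⁻¹ ^ l : ℝ) : ℂ) • ∫ y, ev k' 1 (x, y) (ext0 V w y) ∂V.μ := by
  rw [Ker.op_apply]
  have e2 : ∀ y : V.carrier, rk V l k' 1 (x, y) (w y) =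
      (fun y : En M => (((4 * Real.pi)⁻¹ ^ l : ℝ) : ℂ) • ev k' 1 (x, y) (ext0 V w y)) y := by
    intro y
    simp only
    rw [rk_apply hk one_pos, ext0_apply]
    rfl
  refine (integral_congr_ae (Filter.Eventually.of_forall e2)).trans ?_
  refine (V.integral_μX (fun y : En M =>
    (((4 * Real.pi)⁻¹ ^ l : ℝ) : ℂ) • ev k' 1 (x, y) (ext0 V w y))).trans ?_
  exact integral_smul _ _

private theorem ucs_const {F : Type} [NormedAddCommGroup F] (f : En M → F) (s : Set (En M)) :
    UniformCauchySeqOn (fun (_ : ℕ) => f) atTop s := by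
  intro u hu
  exact Filter.Eventually.of_forall fun _ _ _ => mem_uniformity_of_eq hu rfl

theorem reg_WD (hV : V.Good l) {v f : C(V.carrier, H)} (h : (𝔇.sys hV).WD v f)
    (hf : f ∈ 𝔇.secs) : v ∈ 𝔇.secs := by
  obtain ⟨u, hu, hfu⟩ := hf
  have hv0 := continuousOn_ext0 V v
  set c : ℂ := (((4 * Real.pi)⁻¹ ^ l : ℝ) : ℂ) with hc
  have key : ∃ g : En M → H, ContDiff ℝ ∞ g ∧ ∀ x : V.carrier, v x = g x := by
    refine hV.reg H (fun x => v x) ?_
    intro r
    obtain ⟨k, hk⟩ := 𝔇.exists_heat hV (n + 1 + r)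
    have hk0 : FS k := hk.fs
    have hkD : FS (𝔇.fD k) := FS.fD 𝔇 hk0
    have hkL : FS (𝔇.fL k) := FS.fL 𝔇 hk0
    have hkW : FS (𝔇.fD (𝔇.fW k)) := FS.fD 𝔇 (FS.sub hkD (FS.fR 𝔇 hk0))
    obtain ⟨P, PK, PK1, PR, PDW⟩ := 𝔇.exists_parx hV hk (by omega)
    have hQ := P.Q'_WD one_pos le_rfl h
    set δ : ℕ → ℝ := fun i => 1 / ((i : ℝ) + 2) with hδ
    have hδ0 : ∀ i, 0 < δ i := fun i => by rw [hδ]; positivity
    have hδ1 : ∀ i, δ i ≤ 1 := fun i => by
      rw [hδ]
      simp only
      rw [div_le_one (by positivity)]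
      have : (0 : ℝ) ≤ i := Nat.cast_nonneg i
      linarith
    have hδt : Tendsto δ atTop (𝓝[>] 0) := by
      refine tendsto_nhdsWithin_iff.mpr ⟨?_, Filter.Eventually.of_forall hδ0⟩
      rw [hδ]
      refine Tendsto.div_atTop tendsto_const_nhds ?_
      exact tendsto_atTop_add_const_right _ _ tendsto_natCast_atTop_atTop
    let f1 : ℕ → En M → H := fun i x => ∫ y, evI (𝔇.fD k) (δ i) (x, y) (u y) ∂V.μ
    let f2 : En M → H := fun x => ∫ y, ev k 1 (x, y) (ext0 V v y) ∂V.μ
    let f3 : ℕ → En M → H := fun i x => ∫ y, evI (𝔇.fL k) (δ i) (x, y) (ext0 V v y) ∂V.μ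
    let f4 : ℕ → En M → H := fun i x =>
      ∫ y, evI (𝔇.fD (𝔇.fW k)) (δ i) (x, y) (ext0 V v y) ∂V.μ
    have s1 : ∀ i, ContDiff ℝ ∞ (f1 i) := fun i =>
      contDiff_intK (contDiff_evI hkD (hδ0 i) (hδ1 i)) hu.1.continuous.continuousOn
    have s2 : ContDiff ℝ ∞ f2 := contDiff_intK (contDiff_ev hk0 one_pos) hv0
    have s3 : ∀ i, ContDiff ℝ ∞ (f3 i) := fun i =>
      contDiff_intK (contDiff_evI hkL (hδ0 i) (hδ1 i)) hv0
    have s4 : ∀ i, ContDiff ℝ ∞ (f4 i) := fun i =>
      contDiff_intK (contDiff_evI hkW (hδ0 i) (hδ1 i)) hv0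
    refine ⟨fun i x => c • ((f1 i x + f2 x) + (f4 i x + (-1 : ℂ) • f3 i x)), fun i => ?_, ?_, ?_⟩
    · exact (((s1 i).add s2).add ((s4 i).add ((s3 i).const_smul (-1 : ℂ)))).const_smul c
    · -- convergence
      let T : ℕ → C(V.carrier, H) := fun i =>
        Ker.op V.μX (∫ t in (δ i)..1, P.K1 t) f + Ker.op V.μX (P.K 1) v -
          Ker.op V.μX (∫ t in (δ i)..1, P.R t) v + Ker.op V.μX (∫ t in (δ i)..1, P.DW t) v
      have hT : Tendsto T atTop (𝓝 v) := by
        have hvv : v = P.Q' 1 f + Ker.op V.μX (P.K 1) v -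
            Ker.op V.μX (∫ t in (0 : ℝ)..1, P.R t) v +
              Ker.op V.μX (∫ t in (0 : ℝ)..1, P.DW t) v := by
          have h3 : Ker.op V.μX (P.S1 1) v = Ker.op V.μX (P.K 1) v -
              Ker.op V.μX (∫ t in (0 : ℝ)..1, P.R t) v +
                Ker.op V.μX (∫ t in (0 : ℝ)..1, P.DW t) v := by
            unfold DSys.Parx.S1 DSys.Parx.S0
            rw [Ker.op_add, Ker.op_sub]
            rfl
          rw [h3] at hQ
          rw [hQ]
          abel
        have t1 := (P.tendsto_Q' one_pos le_rfl f).comp hδt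
        have t3 := ((Ker.continuous_op V.μX v).tendsto _).comp
          ((P.tendsto_R one_pos le_rfl).comp hδt)
        have t4 := ((Ker.continuous_op V.μX v).tendsto _).comp
          ((P.tendsto_DW one_pos le_rfl).comp hδt)
        have := ((t1.add (tendsto_const_nhds (x := Ker.op V.μX (P.K 1) v))).sub t3).add t4
        rw [← hvv] at this
        exact this
      have hTg : ∀ i, ∀ x : V.carrier,
          T i x = c • ((f1 i x + f2 x) + (f4 i x + (-1 : ℂ) • f3 i x)) := by
        intro i x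
        have hcongr : ∀ (G : ℝ → Ker V.carrier H) (k' : FK M H),
            (∀ t ∈ Set.Ioc (0 : ℝ) 1, G t = rk V l k' t) →
            ∫ t in (δ i)..1, G t = ∫ t in (δ i)..1, rk V l k' t := by
          intro G k' hG
          apply intervalIntegral.integral_congr
          intro t ht
          rw [Set.uIcc_of_le (hδ1 i)] at ht
          exact hG t ⟨lt_of_lt_of_le (hδ0 i) ht.1, ht.2⟩
        have e1 := op_evI (l := l) hkD (hδ0 i) (hδ1 i) f x
        have e3 := op_evI (l := l) hkL (hδ0 i) (hδ1 i) v x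
        have e4 := op_evI (l := l) hkW (hδ0 i) (hδ1 i) v x
        have e2 := op_rk1 (l := l) hk0 v x
        rw [← hcongr P.K1 _ PK1] at e1
        rw [← hcongr P.R _ PR] at e3
        rw [← hcongr P.DW _ PDW] at e4
        rw [← PK 1 ⟨one_pos, le_rfl⟩] at e2
        have e5 : ∫ y, evI (𝔇.fD k) (δ i) (x, y) (ext0 V f y) ∂V.μ = f1 i x := by
          apply integral_congr_ae
          filter_upwards [mem_ae_iff.mpr V.μ_supp] with y hy
          have := ext0_apply V f ⟨y, hy⟩
          simp only at this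
          rw [this, hfu]
        rw [e5] at e1
        change (Ker.op V.μX (∫ t in (δ i)..1, P.K1 t) f) x + (Ker.op V.μX (P.K 1) v) x -
          (Ker.op V.μX (∫ t in (δ i)..1, P.R t) v) x +
            (Ker.op V.μX (∫ t in (δ i)..1, P.DW t) v) x = _
        rw [e1, e2, e3, e4]
        simp only [smul_add, neg_smul, one_smul, smul_neg]
        change c • f1 i x + c • f2 x - c • f3 i x + c • f4 i x = _
        abel
      have h5 := ContinuousMap.tendsto_iff_tendstoUniformly.mp hT
      intro u' hu'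
      filter_upwards [h5 u' hu'] with i hi x
      rw [← hTg i x]
      exact hi x
    · intro A hA
      have hA' : (n : ℤ) + A.length ≤ ((n + 1 + r : ℕ) : ℤ) := by
        push_cast
        have : (A.length : ℤ) ≤ r := by exact_mod_cast hA
        linarith
      have u1 := tdL_evI_smooth 𝔇 hV (𝔇.heat_cls0 hV hk) hu.1 A
      have u3 := tdL_evI hV.loc hk.heat hv0 A hA'
      have hW := Cls.fD 𝔇 hV.loc (𝔇.W_high hV hk (𝔇.W_diag hV hk))
      rw [add_sub_cancel_right] at hW
      have u4 := tdL_evI hV.loc hW hv0 A hA'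
      have e : ∀ i, tdL V A (fun x => c • ((f1 i x + f2 x) + (f4 i x + (-1 : ℂ) • f3 i x))) =
          fun x => c • ((tdL V A (f1 i) x + tdL V A f2 x) +
            (tdL V A (f4 i) x + (-1 : ℂ) • tdL V A (f3 i) x)) := by
        intro i
        rw [tdL_csmul A c (((s1 i).add s2).add ((s4 i).add ((s3 i).const_smul (-1 : ℂ)))),
          tdL_add A ((s1 i).add s2) ((s4 i).add ((s3 i).const_smul (-1 : ℂ))),
          tdL_add A (s1 i) s2, tdL_add A (s4 i) ((s3 i).const_smul (-1 : ℂ)),
          tdL_csmul A (-1) (s3 i)]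
      have u5 := (u1.add (ucs_const (tdL V A f2) V.carrier)).add
        (u4.add ((uniformContinuous_const_smul (-1 : ℂ)).comp_uniformCauchySeqOn u3))
      have u6 := (uniformContinuous_const_smul c).comp_uniformCauchySeqOn u5
      simp_rw [e]
      exact u6
  obtain ⟨w, hw, hvw⟩ := key
  refine ⟨fun x => 𝔇.Q x (w x), 𝔇.Q_isSec hw, fun x => ?_⟩
  have h2 : 𝔇.Q x (v x) = v x := DFunLike.congr_fun h.1 x
  change v x = 𝔇.Q x (w x)
  rw [← hvw, h2]

end Dirac

end Pool.Agent.EXO
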