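import Pool.Agent.EXO.IgC

/-!
Project EXO, chunk IDX-A, module IgD: the pointwise form of the heat kernel conditions, the
interface to chunk IDX-L.

For fixed `y ∈ V` the coefficients `x ↦ k j (x,y)` are smooth functions of one variable.  The
one-variable versions of the formal operators are

`Cg1 y x = ∑ a, (1/2) ⟪x - y, P x e_a⟫ c_a Q x`, `op1 κ x = ∑ a, c_a (Q x (td a κ x)) + B x κ x`,
`fD1 y κ j = op1 (κ j) - Cg1 y · κ (j+1)`, `fT1 y κ j x = (j+1) κ (j+1) x + (|x-y|²/4) κ (j+2) x`,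
`fL1 y κ = fT1 y κ + fD1 y (fD1 y κ)`.

PROOFS.  `fL1_eq`: `tdx_slice`, `opK_apply`-type computation: `op1 (fun x => k (x,y)) x = opK k (x,y)`.
`exists_point`: take `k` from `exists_heat`, `κ j x := k j (x,y)`.  The estimates are `Van.bound`
for `h.lead` and `h.heat`: for `j < -l`: `(k - k0) j = k j`, `Van (1-n-2j).toNat`;
`k (-l) (y,y) = Q y` (`heat_diag`).
-/

set_option autoImplicit false
set_option maxSynthPendingDepth 3

open MeasureTheory Filter Topology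
open scoped ContDiff

namespace Pool.Agent.EXO

variable {n M l m : ℕ}

namespace Dirac

variable {V : Geo n M} {H : Type} [NormedAddCommGroup H]
  [InnerProductSpace ℂ H] [FiniteDimensional ℂ H] (𝔇 : Dirac V H) {k : FK M H}

/-- One variable version of `opK`. -/
noncomputable def op1 (κ : En M → (H →L[ℂ] H)) (x : En M) : H →L[ℂ] H :=
  ∑ a, 𝔇.c a * (𝔇.Q x * fderiv ℝ κ x (V.P x (bv a))) + 𝔇.B x * κ x

/-- One variable version of `Cg`. -/
noncomputable def Cg1 (y x : En M) : H →L[ℂ] H := 𝔇.Cg (x, y)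

/-- One variable version of `fD`. -/
noncomputable def fD1 (y : En M) (κ : ℤ → En M → (H →L[ℂ] H)) : ℤ → En M → (H →L[ℂ] H) :=
  fun j x => 𝔇.op1 (κ j) x - 𝔇.Cg1 y x * κ (j + 1) x

/-- One variable version of `fT`. -/
noncomputable def fT1 (y : En M) (κ : ℤ → En M → (H →L[ℂ] H)) : ℤ → En M → (H →L[ℂ] H) :=
  fun j x => ((j + 1 : ℤ) : ℂ) • κ (j + 1) x + ((‖x - y‖ ^ 2 / 4 : ℝ) : ℂ) • κ (j + 2) x

/-- One variable version of `fL`. -/
noncomputable def fL1 (y : En M) (κ : ℤ → En M → (H →L[ℂ] H)) : ℤ → En M → (H →L[ℂ] H) :=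
  fun j x => fT1 y κ j x + 𝔇.fD1 y (𝔇.fD1 y κ) j x

/-- `κ` is a formal heat kernel at the point `y` up to the weight `m`. -/
structure IsHeatAt (l : ℕ) (m : ℤ) (y : En M) (κ : ℤ → En M → (H →L[ℂ] H)) : Prop where
  smooth : ∀ j, ContDiff ℝ ∞ (κ j)
  supp : ∃ J : ℕ, ∀ j : ℤ, (J : ℤ) < |j| → κ j = 0
  ql : ∀ j, ∀ x ∈ V.carrier, 𝔇.Q x * κ j x = κ j x
  qr : ∀ j, ∀ x ∈ V.carrier, κ j x * 𝔇.Q y = κ j x
  lead : κ (-(l : ℤ)) y = 𝔇.Q y
  low : ∀ j : ℤ, j < -(l : ℤ) → ∃ C : ℝ, ∀ x ∈ V.carrier,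
    ‖κ j x‖ ≤ C * ‖x - y‖ ^ (1 - 2 * (l : ℤ) - 2 * j).toNat
  heat : ∀ j : ℤ, ∃ C : ℝ, ∀ x ∈ V.carrier,
    ‖𝔇.fL1 y κ j x‖ ≤ C * ‖x - y‖ ^ (m - 2 * (l : ℤ) - 2 * j).toNat

private theorem op1_eq (h : FS k) (y : En M) (j : ℤ) (x : En M) :
    𝔇.op1 (fun x => k j (x, y)) x = 𝔇.opK (k j) (x, y) := by
  unfold op1 opK
  simp only
  congr 1
  refine Finset.sum_congr rfl fun a _ => ?_
  rw [tdx_slice (h.1 j)]
  rfl

private theorem fD1_eq (h : FS k) (y : En M) (j : ℤ) (x : En M) :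
    𝔇.fD1 y (fun j x => k j (x, y)) j x = 𝔇.fD k j (x, y) := by
  unfold fD1
  rw [𝔇.op1_eq h y j x]
  rfl

private theorem fL1_eq (h : FS k) (y : En M) (j : ℤ) (x : En M) :
    𝔇.fL1 y (fun j x => k j (x, y)) j x = 𝔇.fL k j (x, y) := by
  unfold fL1
  have e : 𝔇.fD1 y (fun j x => k j (x, y)) = fun j x => 𝔇.fD k j (x, y) := by
    funext j x
    exact 𝔇.fD1_eq h y j x
  rw [e, 𝔇.fD1_eq (FS.fD 𝔇 h) y j x]
  rfl

theorem isHeatAt (hV : V.Good l) (h : 𝔇.IsHeat l m k) {y : En M} (hy : y ∈ V.carrier) :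
    𝔇.IsHeatAt l m y (fun j x => k j (x, y)) := by
  have hn : (n : ℤ) = 2 * l := by exact_mod_cast hV.dim
  refine ⟨fun j => ?_, ?_, fun j x hx => ?_, fun j x hx => ?_, ?_, fun j hj => ?_, fun j => ?_⟩
  · exact (h.fs.1 j).comp (contDiff_id.prodMk contDiff_const)
  · obtain ⟨J, hJ⟩ := h.fs.2
    refine ⟨J, fun j hj => ?_⟩
    funext x
    rw [hJ j hj]
    rfl
  · exact h.ql j x hx y hy
  · exact h.qr j x hx y hy
  · exact 𝔇.heat_diag hV h hy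
  · obtain ⟨C, -, hC⟩ := (h.lead.2 j).bound V.compact
    refine ⟨C, fun x hx => ?_⟩
    have h1 := hC x hx y hy
    have h2 : (k - 𝔇.k0 l) j (x, y) = k j (x, y) := by
      change k j (x, y) - 𝔇.k0 l j (x, y) = k j (x, y)
      have : 𝔇.k0 l j (x, y) = 0 := by
        unfold k0
        rw [if_neg hj.ne]
      rw [this, sub_zero]
    rw [h2] at h1
    rwa [show (1 : ℤ) - 2 * (l : ℤ) - 2 * j = 1 - n - 2 * j by rw [hn]]
  · obtain ⟨C, -, hC⟩ := (h.heat.2 j).bound V.compact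
    refine ⟨C, fun x hx => ?_⟩
    rw [𝔇.fL1_eq h.fs y j x]
    have h1 := hC x hx y hy
    rwa [show (m : ℤ) - 2 * (l : ℤ) - 2 * j = m - n - 2 * j by rw [hn]]

/-- The index theorem in the form used by IDX-L: if the supertrace of the coefficient `κ 0` at `y`
of every formal heat kernel at `y` is `α y`, then the index is `(4π)^{-l} ∫ α`. -/
theorem index_of_local (hV : V.Good l) (m : ℕ) (α : En M → ℂ)
    (hα : ∀ y ∈ V.carrier, ∀ κ : ℤ → En M → (H →L[ℂ] H), 𝔇.IsHeatAt l m y κ →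
      LinearMap.trace ℂ H ((𝔇.Γ y * κ 0 y : H →L[ℂ] H) : H →ₗ[ℂ] H) = α y) :
    (𝔇.index : ℂ) = (((4 * Real.pi)⁻¹ ^ l : ℝ) : ℂ) * ∫ y, α y ∂V.μ := by
  obtain ⟨k, hk⟩ := 𝔇.exists_heat hV (max m (n + 1))
  rw [𝔇.index_eq hV hk (le_max_right _ _)]
  congr 1
  apply integral_congr_ae
  filter_upwards [mem_ae_iff.mpr V.μ_supp] with y hy
  have hk' : 𝔇.IsHeat l (m : ℤ) k :=
    ⟨hk.fs, hk.ql, hk.qr, hk.lead, Cls.mono (by push_cast; exact le_max_left _ _) hk.heat⟩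
  exact hα y hy (fun j x => k j (x, y)) (𝔇.isHeatAt hV hk' hy)

end Dirac

end Pool.Agent.EXO
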