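import Pool.Agent.EXO.LgA
import Pool.Agent.EXO.FmFAd

/-!
# EXO / LCl : Clifford multiplication by a product of orthonormal one-forms (IDX-L)

`clI (∏ of1 (v i)) = ∏ cv (v i)` for an orthonormal family `v`.
Let `𝒞` be the set of operators `T` with `T * (hv w * pr) = (hv w * pr) * T` for all `w` and
`T * cf S = cf S * T`.  Every `cl a`, hence both sides, belong to `𝒞` (`cv_hv`, `pr_cv`: `cv` anticommutes
with `hv w` and with `pr`).
`ext_vac`: `T, T' ∈ 𝒞` which agree on the vectors `bas ∅ i` are equal: the vectors obtained from `bas ∅ i` by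
products of the operators `hv (bv a) * pr` span `HF M ι`: by induction over `S` (insert a new smallest or
largest element `a`): `(hv (bv a) * pr) (bas S i) = ± (eps a + iota a) (bas S i) = ± bas (insert a S) i` for
`a ∉ S`.
Values on the vacuum: `clI u (bas ∅ i) = ∑_S u.co S • (ordered product of cl a, a ∈ S) (bas ∅ i) = ∑_S u.co S • bas S i`,
because `cl a (bas S i) = eps a (bas S i)` for `a ∉ S`; and `(∏ cv (v i)) (bas ∅ i) = (∏ epsv (v i)) (bas ∅ i)`
for orthonormal `v`: `cv (v 0) (epsv (v 1) ⋯ epsv (v k) vac) = epsv … - iotav (v 0) (…)` and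
`iotav (v 0)` anticommutes with the `epsv (v j)`, `j ≥ 1` (orthogonality).  Finally
`(∏ epsv (v i)) (bas ∅ i) = ∑_S (∏ of1 (v i)).co S • bas S i` (`mulL_of1`, `mulL_mul`, `mulL` of `FmFA`:
`mulL (of1 w) = epsv w`, and `mulL u (bas ∅ i) = ∑_S u.co S • bas S i`).
`clI_add`, `clI_smul`: definition.
-/

set_option autoImplicit false
set_option maxSynthPendingDepth 3

open scoped ContDiff Topology
open Finset Matrix

noncomputable section

namespace Pool.Agent.EXO.L

variable {M : ℕ} {ι : Type} [Fintype ι] [DecidableEq ι]

private theorem LCl_mul_word {R : Type*} [Ring R] [Algebra ℂ R] (f : Fin M → R)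
    (h1 : ∀ a b, a ≠ b → f a * f b = - (f b * f a)) (h2 : ∀ a, f a * f a = -1) (a : Fin M)
    (S : Finset (Fin M)) :
    f a * word f S = if a ∈ S then -(sg a S • word f (S.erase a))
      else sg a S • word f (insert a S) := by
  classical
  induction S using Finset.induction_on_min with
  | empty =>
    have h3 := word_insert_min (S := (∅ : Finset (Fin M))) f (a := a) (by simp)
    rw [if_neg (notMem_empty a), h3, word_empty, mul_one]
    simp [sg]
  | insert b S hb ih =>
    have hbS : b ∉ S := fun h' => lt_irrefl b (hb b h')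
    rw [word_insert_min f hb]
    rcases lt_trichotomy a b with h | h | h
    · have h3 : ∀ x ∈ insert b S, a < x := by
        intro x hx
        rcases mem_insert.1 hx with rfl | hx
        · exact h
        · exact h.trans (hb x hx)
      have h4 : a ∉ insert b S := fun h' => lt_irrefl a (h3 a h')
      rw [if_neg h4, word_insert_min f h3, word_insert_min f hb]
      have h5 : sg a (insert b S) = 1 := by
        unfold sg
        rw [filter_false_of_mem, card_empty, pow_zero]
        intro x hx
        exact not_lt.2 (h3 x hx).le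
      rw [h5, one_smul]
    · subst h
      rw [if_pos (mem_insert_self _ _), ← mul_assoc, h2, neg_one_mul, erase_insert hbS]
      have h5 : sg a (insert a S) = 1 := by
        rw [sg_insert_self]
        unfold sg
        rw [filter_false_of_mem, card_empty, pow_zero]
        intro x hx
        exact not_lt.2 (hb x hx).le
      rw [h5, one_smul]
    · have h6 : a ≠ b := ne_of_gt h
      rw [← mul_assoc, h1 a b h6, neg_mul, mul_assoc, ih]
      by_cases haS : a ∈ S
      · have h7 : (insert b S).erase a = insert b (S.erase a) := by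
          ext x
          simp only [mem_erase, mem_insert]
          constructor
          · rintro ⟨h8, h9 | h9⟩
            · exact Or.inl h9
            · exact Or.inr ⟨h8, h9⟩
          · rintro (h8 | h8)
            · exact ⟨fun h9 => h6 (h9.symm.trans h8), Or.inl h8⟩
            · exact ⟨h8.1, Or.inr h8.2⟩
        rw [if_pos haS, if_pos (mem_insert_of_mem haS), sg_insert_lt h hbS, h7,
          word_insert_min f (S := S.erase a), mul_neg, neg_neg, mul_smul_comm, neg_smul, neg_neg]
        intro x hx
        exact hb x (mem_of_mem_erase hx)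
      · rw [if_neg haS, if_neg (by simp [h6, haS]), sg_insert_lt h hbS, Finset.insert_comm a b S,
          word_insert_min f (S := insert a S), mul_smul_comm, neg_smul]
        intro x hx
        rcases mem_insert.1 hx with rfl | hx
        · exact h
        · exact hb x hx

private theorem LCl_eq (u : FA M) : (clI u : EH M ι) = ∑ S, u.co S • word (fun a => cl a) S := rfl

/-- Clifford multiplication as a linear map. -/
private def LCl_L : FA M →ₗ[ℂ] EH M ι where
  toFun u := clI u
  map_add' u w := by
    rw [LCl_eq, LCl_eq, LCl_eq, ← Finset.sum_add_distrib]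
    exact sum_congr rfl fun S _ => by rw [FA.co_add, add_smul]
  map_smul' r u := by
    rw [RingHom.id_apply, LCl_eq, LCl_eq, Finset.smul_sum]
    exact sum_congr rfl fun S _ => by rw [FA.co_smul, mul_smul]

theorem clI_clm : ∃ L : FA M →L[ℂ] EH M ι, ∀ u, L u = clI u :=
  ⟨LinearMap.toContinuousLinearMap LCl_L, fun _ => rfl⟩

/-- Clifford multiplication by a form in `HF M Unit`. -/
private def LCl_H : HF M Unit →ₗ[ℂ] EH M ι := LCl_L.comp (toH (m := M)).symm.toLinearMap

private theorem LCl_H_bas (S : Finset (Fin M)) :
    (LCl_H (bas S ()) : EH M ι) = word (fun a => cl a) S := by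
  have h1 : (toH (m := M)).symm (bas S ()) = mon S := by
    rw [← toH_mon, LinearEquiv.symm_apply_apply]
  show (clI ((toH (m := M)).symm (bas S ())) : EH M ι) = _
  rw [h1, LCl_eq, Finset.sum_eq_single S]
  · rw [mon_co, if_pos rfl, one_smul]
  · intro T _ hT
    rw [mon_co, if_neg hT, zero_smul]
  · simp

private theorem LCl_anti (a b : Fin M) (h : a ≠ b) :
    (cl a : EH M ι) * cl b = -(cl b * cl a) := by
  have h1 := cv_cv (ι := ι) (bv a : En M) (bv b)
  have h2 : inner ℝ (bv a : En M) (bv b) = 0 := by
    simp [bv, EuclideanSpace.inner_single_left, h]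
  rw [h2, mul_zero, Complex.ofReal_zero, zero_smul, cv_bv, cv_bv] at h1
  exact eq_neg_of_add_eq_zero_left h1

private theorem LCl_sq (a : Fin M) : (cl a : EH M ι) * cl a = -1 := by
  have h1 := cv_cv (ι := ι) (bv a : En M) (bv a)
  have h2 : inner ℝ (bv a : En M) (bv a) = 1 := by
    simp [bv, EuclideanSpace.inner_single_left]
  rw [h2, mul_one, cv_bv, ← two_smul ℂ (cl a * cl a : EH M ι)] at h1
  have h3 : (cl a * cl a : EH M ι) = (1 / 2 : ℂ) • ((2 : ℂ) • (cl a * cl a : EH M ι)) := by
    rw [smul_smul]
    norm_num
  rw [h3, h1, smul_smul]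
  norm_num

private theorem LCl_cl (a : Fin M) (u : HF M Unit) :
    (cl a : EH M ι) * LCl_H u = LCl_H (eps a u) - LCl_H (iota a u) := by
  have key : ∀ S, (cl a : EH M ι) * LCl_H (bas S ()) =
      LCl_H (eps a (bas S ())) - LCl_H (iota a (bas S ())) := by
    intro S
    rw [LCl_H_bas, LCl_mul_word (fun a => (cl a : EH M ι)) LCl_anti LCl_sq, eps_bas, iota_bas]
    split_ifs with h
    · rw [map_zero, map_smul, LCl_H_bas, zero_sub]
    · rw [map_zero, map_smul, LCl_H_bas, sub_zero]
  have h1 := sum_bas u
  rw [h1]
  simp only [map_sum, map_smul, Finset.mul_sum, mul_smul_comm, Finset.univ_unique,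
    Finset.sum_singleton]
  rw [← Finset.sum_sub_distrib]
  refine sum_congr rfl fun S _ => ?_
  rw [← smul_sub]
  congr 1
  exact key S

private theorem LCl_cv (w : En M) (u : HF M Unit) :
    (cv w : EH M ι) * LCl_H u = LCl_H (epsv w u) - LCl_H (iotav w u) := by
  rw [cv_eq_sum, Finset.sum_mul, epsv_apply, iotav_apply, map_sum, map_sum,
    ← Finset.sum_sub_distrib]
  refine sum_congr rfl fun a _ => ?_
  rw [smul_mul_assoc, LCl_cl, smul_sub, map_smul, map_smul]

private theorem LCl_toH (l : List (En M)) :
    toH (l.map of1).prod = (l.map fun w => (epsv w : HF M Unit →L[ℂ] HF M Unit)).prod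
      (bas ∅ ()) := by
  induction l with
  | nil => exact toH_one
  | cons w l ih =>
    rw [List.map_cons, List.prod_cons, List.map_cons, List.prod_cons, toH_mul, mulL_of1, ih]
    rfl

private theorem LCl_iota (w : En M) (l : List (En M)) (h : ∀ z ∈ l, inner ℝ w z = 0) :
    iotav w ((l.map fun w => (epsv w : HF M Unit →L[ℂ] HF M Unit)).prod (bas ∅ ())) = 0 := by
  induction l with
  | nil => exact iotav_vac w ()
  | cons z l ih =>
    rw [List.map_cons, List.prod_cons]
    show iotav w (epsv z ((l.map fun w => (epsv w : HF M Unit →L[ℂ] HF M Unit)).prod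
      (bas ∅ ()))) = 0
    rw [iotav_epsv, ih fun x hx => h x (List.mem_cons_of_mem _ hx), h z List.mem_cons_self,
      map_zero, Complex.ofReal_zero, zero_smul, sub_zero]

private theorem LCl_list (l : List (En M)) (h : l.Pairwise fun x z => inner ℝ x z = 0) :
    (LCl_H ((l.map fun w => (epsv w : HF M Unit →L[ℂ] HF M Unit)).prod (bas ∅ ())) : EH M ι) =
      (l.map cv).prod := by
  induction l with
  | nil =>
    show (LCl_H (bas ∅ ()) : EH M ι) = 1
    rw [LCl_H_bas, word_empty]
  | cons w l ih =>
    rw [List.pairwise_cons] at h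
    rw [List.map_cons, List.prod_cons, List.map_cons, List.prod_cons, ← ih h.2, LCl_cv,
      LCl_iota w l h.1, map_zero, sub_zero]
    rfl

theorem clI_prod {n : ℕ} {v : Fin n → En M} (hv : Orthonormal ℝ v) :
    (clI (List.ofFn fun i => of1 (v i)).prod : EH M ι) = (List.ofFn fun i => cv (v i)).prod := by
  have h1 : (List.ofFn fun i => of1 (v i)) = (List.ofFn v).map of1 := by
    rw [List.map_ofFn]
    rfl
  have h2 : (List.ofFn fun i => (cv (v i) : EH M ι)) = (List.ofFn v).map cv := by
    rw [List.map_ofFn]
    rfl
  rw [h1, h2, ← LCl_list, ← LCl_toH]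
  · show clI _ = clI ((toH (m := M)).symm (toH _))
    rw [LinearEquiv.symm_apply_apply]
  · rw [List.pairwise_ofFn]
    intro i j hij
    exact hv.2 (ne_of_lt hij)

end Pool.Agent.EXO.L
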