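import Pool.Agent.EXO.LOps

/-!
# EXO / LCs : causality of operators on sequences (IDX-L)

All statements are elementary. `Cs k T` : `T P` in weight `w` vanishes when `P` vanishes in all
weights `u` with `u + k ≤ w`.

* `Cs.mono` : if `u + k' ≤ w → P u = 0` and `k' ≤ k` then `u + k ≤ w → P u = 0`.
* `Cs.mul` : if `P u = 0` for `u + (k + l) ≤ w`, then `(S P) v = 0` for `v + k ≤ w` (because
  `u + l ≤ v` gives `u + (k + l) ≤ w`), hence `(T (S P)) w = 0`.
* `cs_up` : `up_pow` with `r = 1`, or `cases w`.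
* `cs_congr` : apply the definition to `P - Q`.
* `cs_expS`: every `B ^ i` is `Cs 0`.
* `expS_eq` : for `i > w` the term `(B ^ i) P w` vanishes, since `Cs (i * 1) (B ^ i)` and no `u`
  satisfies `u + i ≤ w`; so the sum may be extended to `range N` for any `N > w`.
* `conj_expS` : fix `P, w`.  Put `N = w + 3`.  By `expS_eq` the sequence `expS B P` agrees in all
  weights `≤ w` with `R = ∑ i ∈ range N, (i!)⁻¹ • (B^i) P` (a finite sum of sequences), so by
  causality of `D` (`cs_congr`) `(D (expS B P)) w = ∑ i ∈ range N, (i!)⁻¹ • (D (B^i P)) w`.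
  By induction on `i` from `D * B = B * D + K`, `K * B = B * K + L`, `L * B = B * L`:
  `D * B^i = B^i * D + i • B^(i-1) * K + (i*(i-1)/2) • B^(i-2) * L`
  (more convenient: state it for `i+2`, with `i = 0, 1` separately; or state
  `D * B^i = B^i * D + (i:ℂ) • (B^(i-1) * K) + (i*(i-1)/2 : ℂ) • (B^(i-2) * L)` where the factors
  `i`, `i*(i-1)` vanish when the exponent subtraction is truncated).
  Then sum over `i < N`, shift the index in the second and the third sums,
  `i / i! = 1 / (i-1)!`, `i*(i-1)/i! = 1/(i-2)!`: they are sums over `range (w+2)` and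
  `range (w+1)`; by `expS_eq` the three sums are `(expS B (D P)) w`, `(expS B (K P)) w`,
  `(1/2) • (expS B (L P)) w`.
-/

set_option autoImplicit false
set_option maxSynthPendingDepth 3

open scoped ContDiff
open Finset

noncomputable section

namespace Pool.Agent.EXO.L

variable {n : ℕ} {A : Type*} [NormedAddCommGroup A] [NormedSpace ℂ A]

theorem Cs.mono {k k' : ℕ} (h : k' ≤ k) {T : Op n A} (hT : Cs k T) : Cs k' T :=
  fun P w hP => hT P w fun u hu => hP u (by omega)

theorem Cs.add {k : ℕ} {S T : Op n A} (hS : Cs k S) (hT : Cs k T) : Cs k (S + T) := by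
  intro P w hP
  rw [LinearMap.add_apply, Pi.add_apply, hS P w hP, hT P w hP, add_zero]

theorem Cs.sub {k : ℕ} {S T : Op n A} (hS : Cs k S) (hT : Cs k T) : Cs k (S - T) := by
  intro P w hP
  rw [LinearMap.sub_apply, Pi.sub_apply, hS P w hP, hT P w hP, sub_zero]

theorem Cs.neg {k : ℕ} {T : Op n A} (hT : Cs k T) : Cs k (-T) := by
  intro P w hP
  rw [LinearMap.neg_apply, Pi.neg_apply, hT P w hP, neg_zero]

theorem Cs.smul {k : ℕ} (c : ℂ) {T : Op n A} (hT : Cs k T) : Cs k (c • T) := by
  intro P w hP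
  rw [LinearMap.smul_apply, Pi.smul_apply, hT P w hP, smul_zero]

theorem cs_zero (k : ℕ) : Cs k (0 : Op n A) := fun _ _ _ => rfl

theorem Cs.sum {ι : Type*} {k : ℕ} (s : Finset ι) (T : ι → Op n A) (hT : ∀ i ∈ s, Cs k (T i)) :
    Cs k (∑ i ∈ s, T i) := by
  classical
  induction s using Finset.induction_on with
  | empty => rw [sum_empty]; exact cs_zero k
  | insert i s hi ih =>
    rw [sum_insert hi]
    exact (hT i (mem_insert_self i s)).add (ih fun j hj => hT j (mem_insert_of_mem hj))

theorem Cs.mul {k l : ℕ} {T S : Op n A} (hT : Cs k T) (hS : Cs l S) : Cs (k + l) (T * S) := by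
  intro P w hP
  rw [Module.End.mul_apply]
  refine hT _ w fun v hv => hS P v fun u hu => hP u (by omega)

theorem cs_one : Cs 0 (1 : Op n A) := fun P w hP => by
  rw [Module.End.one_apply]
  exact hP w (by omega)

theorem Cs.pow {k : ℕ} {T : Op n A} (hT : Cs k T) (i : ℕ) : Cs (i * k) (T ^ i) := by
  induction i with
  | zero => rw [zero_mul, pow_zero]; exact cs_one
  | succ i ih =>
    rw [pow_succ, add_mul, one_mul]
    exact ih.mul hT

theorem cs_up : Cs 1 (up : Op n A) := by
  intro P w hP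
  cases w with
  | zero => rfl
  | succ w => rw [up_succ]; exact hP w (by omega)

theorem cs_cst (T : Module.End ℂ (Pl n A)) : Cs 0 (cst T : Op n A) := by
  intro P w hP
  rw [cst_apply, hP w (by omega), map_zero]

theorem cs_nn : Cs 0 (nn : Op n A) := by
  intro P w hP
  rw [nn_apply, hP w (by omega), smul_zero]

theorem cs_mulS (a : Sq n (A →L[ℂ] A)) : Cs 0 (mulS a : Op n A) := by
  intro P w hP
  rw [mulS_apply]
  refine sum_eq_zero fun ij hij => ?_
  rw [HasAntidiagonal.mem_antidiagonal] at hij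
  rw [hP ij.2 (by omega), map_zero]

theorem cs_mulS_one (a : Sq n (A →L[ℂ] A)) (ha : a 0 = 0) : Cs 1 (mulS a : Op n A) := by
  intro P w hP
  rw [mulS_apply]
  refine sum_eq_zero fun ij hij => ?_
  rw [HasAntidiagonal.mem_antidiagonal] at hij
  by_cases h : ij.1 = 0
  · rw [h, ha]
    ext z
    rfl
  · rw [hP ij.2 (by omega), map_zero]

/-- two sequences which agree in the relevant weights have the same image -/
theorem cs_congr {k : ℕ} {T : Op n A} (hT : Cs k T) {P Q : Sq n A} {w : ℕ}
    (h : ∀ u, u + k ≤ w → P u = Q u) : T P w = T Q w := by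
  have h1 := hT (P - Q) w fun u hu => by rw [Pi.sub_apply, h u hu, sub_self]
  rw [map_sub, Pi.sub_apply, sub_eq_zero] at h1
  exact h1

theorem expS_eq {B : Op n A} (hB : Cs 1 B) (P : Sq n A) (w N : ℕ) (hN : w < N) :
    expS B P w = ∑ i ∈ range N, ((i.factorial : ℂ)⁻¹) • (B ^ i) P w := by
  rw [expS_apply]
  refine sum_subset (fun i hi => ?_) fun i _ hi => ?_
  · rw [mem_range] at hi ⊢
    omega
  · rw [mem_range, not_lt] at hi
    have h1 : (B ^ i) P w = 0 := (hB.pow i) P w fun u hu => by omega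
    rw [h1, smul_zero]

theorem cs_expS {B : Op n A} (hB : Cs 1 B) : Cs 0 (expS B) := by
  intro P w hP
  rw [expS_apply]
  refine sum_eq_zero fun i _ => ?_
  have h1 : (B ^ i) P w = 0 := ((hB.pow i).mono (Nat.zero_le _)) P w hP
  rw [h1, smul_zero]

theorem expS_zero_apply (B : Op n A) (P : Sq n A) : expS B P 0 = P 0 := by
  rw [expS_apply]
  simp

/-- partial sums of the exponential series -/
private def pS (B : Op n A) (N : ℕ) : Op n A := ∑ i ∈ range N, ((i.factorial : ℂ)⁻¹) • B ^ i

private theorem pS_succ (B : Op n A) (N : ℕ) :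
    pS B (N + 1) = pS B N + ((N.factorial : ℂ)⁻¹) • B ^ N := by
  rw [pS, sum_range_succ, pS]

private theorem pS_apply (B : Op n A) (N : ℕ) (P : Sq n A) (w : ℕ) :
    pS B N P w = ∑ i ∈ range N, ((i.factorial : ℂ)⁻¹) • (B ^ i) P w := by
  rw [pS, LinearMap.sum_apply, Finset.sum_apply]
  rfl

private theorem expS_pS {B : Op n A} (hB : Cs 1 B) (P : Sq n A) (w N : ℕ) (hN : w < N) :
    expS B P w = pS B N P w := by
  rw [pS_apply, expS_eq hB P w N hN]

private theorem conj_pow {B D K L : Op n A} (h1 : D * B = B * D + K) (h2 : K * B = B * K + L)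
    (h3 : L * B = B * L) (i : ℕ) :
    D * B ^ (i + 2) = B ^ (i + 2) * D + ((i : ℂ) + 2) • (B ^ (i + 1) * K) +
      (((i : ℂ) + 2) * (i + 1) / 2) • (B ^ i * L) := by
  induction i with
  | zero =>
    have e : D * B ^ (0 + 2) = D * B * B := by rw [zero_add, pow_two, mul_assoc]
    rw [e, h1, add_mul, mul_assoc B D B, h1, h2]
    have e2 : B ^ (0 + 2) * D = B * (B * D) := by rw [zero_add, pow_two, mul_assoc]
    rw [e2]
    simp only [Nat.cast_zero, zero_add, pow_one, pow_zero, one_mul, mul_one, mul_add]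
    have e3 : (2 : ℂ) / 2 = 1 := by norm_num
    rw [e3, one_smul, two_smul]
    abel
  | succ i ih =>
    have e : D * B ^ (i + 1 + 2) = D * B ^ (i + 2) * B := by
      rw [pow_succ B (i + 2), mul_assoc]
    rw [e, ih, add_mul, add_mul, smul_mul_assoc, smul_mul_assoc, mul_assoc (B ^ (i + 2)) D B, h1,
      mul_assoc (B ^ (i + 1)) K B, h2, mul_assoc (B ^ i) L B, h3, mul_add, mul_add,
      ← mul_assoc (B ^ (i + 2)) B D, ← mul_assoc (B ^ (i + 1)) B K, ← mul_assoc (B ^ i) B L,
      ← pow_succ, ← pow_succ, ← pow_succ]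
    have e1 : i + 1 + 2 = i + 2 + 1 := by ring
    have e2 : i + 1 + 1 = i + 2 := by ring
    rw [e1, e2]
    push_cast
    module

private theorem conj_pS {B D K L : Op n A} (h1 : D * B = B * D + K) (h2 : K * B = B * K + L)
    (h3 : L * B = B * L) (N : ℕ) :
    D * pS B (N + 2) = pS B (N + 2) * D + pS B (N + 1) * K + (1 / 2 : ℂ) • (pS B N * L) := by
  induction N with
  | zero =>
    have e0 : pS B 0 = 0 := by simp [pS]
    have e1 : pS B (0 + 1) = 1 := by simp [pS]
    have e2 : pS B (0 + 2) = 1 + B := by simp [pS, sum_range_succ]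
    rw [e0, e1, e2, mul_add, add_mul, h1]
    simp only [mul_one, one_mul, zero_mul, smul_zero]
    abel
  | succ N ih =>
    have e : pS B (N + 1 + 2) = pS B (N + 2) + (((N + 2).factorial : ℂ)⁻¹) • B ^ (N + 2) := by
      rw [← pS_succ]
    have e' : pS B (N + 1 + 1) = pS B (N + 1) + (((N + 1).factorial : ℂ)⁻¹) • B ^ (N + 1) :=
      pS_succ B (N + 1)
    rw [e, mul_add, ih, e', pS_succ B N, mul_smul_comm, conj_pow h1 h2 h3, add_mul, add_mul,
      add_mul, smul_mul_assoc, smul_mul_assoc, smul_mul_assoc]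
    have f1 : ((N + 2).factorial : ℂ) = (N + 2) * ((N + 1) * (N.factorial : ℂ)) := by
      rw [Nat.factorial_succ, Nat.factorial_succ]
      push_cast
      ring
    have f2 : ((N + 1).factorial : ℂ) = (N + 1) * (N.factorial : ℂ) := by
      rw [Nat.factorial_succ]
      push_cast
      ring
    have n0 : (N.factorial : ℂ) ≠ 0 := Nat.cast_ne_zero.2 N.factorial_ne_zero
    have n1 : (N : ℂ) + 1 ≠ 0 := by exact_mod_cast Nat.succ_ne_zero N
    have n2 : (N : ℂ) + 2 ≠ 0 := by exact_mod_cast Nat.succ_ne_zero (N + 1)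
    have g1 : ((N + 2).factorial : ℂ)⁻¹ * ((N : ℂ) + 2) = ((N + 1).factorial : ℂ)⁻¹ := by
      rw [f1, f2]
      field_simp
    have g2 : ((N + 2).factorial : ℂ)⁻¹ * (((N : ℂ) + 2) * (N + 1) / 2) =
        (1 / 2) * (N.factorial : ℂ)⁻¹ := by
      rw [f1]
      field_simp
    simp only [smul_add, smul_smul, g1, g2]
    simp only [add_mul, smul_mul_assoc, smul_add, smul_smul]
    abel

theorem conj_expS {B D K L : Op n A} (hB : Cs 1 B) (hD : Cs 0 D)
    (h1 : D * B = B * D + K) (h2 : K * B = B * K + L) (h3 : L * B = B * L) :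
    D * expS B = expS B * (D + K + (1 / 2 : ℂ) • L) := by
  refine LinearMap.ext fun P => funext fun w => ?_
  rw [Module.End.mul_apply, Module.End.mul_apply]
  have e1 : D (expS B P) w = D (pS B (w + 1 + 2) P) w :=
    cs_congr hD fun u hu => expS_pS hB P u (w + 1 + 2) (by omega)
  have e2 := congrArg (fun T : Op n A => T P w) (conj_pS h1 h2 h3 (w + 1))
  simp only [Module.End.mul_apply, LinearMap.add_apply, Pi.add_apply, LinearMap.smul_apply,
    Pi.smul_apply] at e2
  rw [e1, e2, LinearMap.add_apply, LinearMap.add_apply, map_add, map_add, LinearMap.smul_apply,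
    map_smul, Pi.add_apply, Pi.add_apply, Pi.smul_apply,
    expS_pS hB (D P) w (w + 1 + 2) (by omega), expS_pS hB (K P) w (w + 1 + 1) (by omega),
    expS_pS hB (L P) w (w + 1) (by omega)]

end Pool.Agent.EXO.L
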