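import Mathlib
import Pool.Agent.EXO.Defs

/-!
# Project EXO, chunk IDX-L: the formal calculus

`Pl n A` : polynomial functions `ℝ^n → A`; `Sq n A` : sequences `P = (P_w)` of polynomial functions,
thought of as formal power series `∑ s^w P_w(ζ)`.  All operators live in the ring
`Op n A = Module.End ℂ (Sq n A)`.
-/

set_option autoImplicit false
set_option maxSynthPendingDepth 3

open scoped ContDiff
open Finset

noncomputable section

namespace Pool.Agent.EXO.L

variable {n : ℕ} {A : Type*} [NormedAddCommGroup A] [NormedSpace ℂ A]

/-- Smooth functions homogeneous of degree `d` (they are automatically polynomial). -/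
def Homog (d : ℕ) (f : En n → A) : Prop :=
  ContDiff ℝ ∞ f ∧ ∀ (s : ℝ) (z : En n), f (s • z) = (s ^ d : ℝ) • f z

variable (n A) in
/-- Polynomial functions. -/
def Pl : Submodule ℂ (En n → A) where
  carrier := {f | ∃ (D : ℕ) (p : ℕ → En n → A), (∀ d, Homog d (p d)) ∧ f = ∑ d ∈ range D, p d}
  zero_mem' := ⟨0, fun _ _ => 0, fun d => ⟨contDiff_const, fun s z => by simp⟩, by simp⟩
  add_mem' := by
    rintro f g ⟨D, p, hp, rfl⟩ ⟨D', p', hp', rfl⟩
    refine ⟨D + D', fun d => (if d < D then p d else 0) + (if d < D' then p' d else 0), ?_, ?_⟩
    · intro d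
      constructor
      · refine ContDiff.add ?_ ?_
        · split_ifs
          · exact (hp d).1
          · exact contDiff_const
        · split_ifs
          · exact (hp' d).1
          · exact contDiff_const
      · intro s z
        simp only [Pi.add_apply, smul_add]
        congr 1
        · split_ifs
          · exact (hp d).2 s z
          · simp
        · split_ifs
          · exact (hp' d).2 s z
          · simp
    · rw [Finset.sum_add_distrib, ← Finset.sum_filter, ← Finset.sum_filter]
      congr 1
      · apply Finset.sum_congr _ (fun _ _ => rfl)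
        ext d; simp; omega
      · apply Finset.sum_congr _ (fun _ _ => rfl)
        ext d; simp; omega
  smul_mem' := by
    rintro c f ⟨D, p, hp, rfl⟩
    refine ⟨D, fun d => c • p d, fun d => ⟨(hp d).1.const_smul c, fun s z => ?_⟩, ?_⟩
    · simp only [Pi.smul_apply]
      rw [(hp d).2 s z, smul_comm]
    · rw [Finset.smul_sum]

variable (n A) in
/-- Sequences of polynomial functions. -/
abbrev Sq := ℕ → Pl n A

variable (n A) in
/-- The ring of operators on sequences. -/
abbrev Op := Module.End ℂ (Sq n A)

end Pool.Agent.EXO.L
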