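import Pool.Agent.EXO.LOps

/-!
# EXO / LFil : the Clifford filtration (IDX-L)

`CSys n H`: operators `c i` (`i : Fin n`, Clifford relations, squares `-1`) and a grading `g` on the
finite dimensional space `H`.  On `A = H →L[ℂ] H` we have the operators
`Ee i k = ½ (c i * k + g * k * g * c i)`, `Ie i k = ½ (-(c i * k) + g * k * g * c i)`, which satisfy the
canonical anticommutation relations, `lm (c i) = Ee i - Ie i`; `vac` is the joint kernel of the `Ie i`,
`Gf 0 = ⊥`, `Gf (q+1) = vac ⊔ ⨆ i, Ee i (Gf q)` = span of the words of length `≤ q` in the `Ee i`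
applied to `vac`.

Proofs.
* CAR: with `L_i k = c i * k`, `R_i k = g * k * g * c i`: `L_i L_j + L_j L_i = -2δ`,
  `R_i R_j k = g (g k g c_j) g c_i = k g c_j g c_i = -(k c_j c_i)`, so `R_i R_j + R_j R_i = 2δ`, and
  `L_i R_j k = c_i g k g c_j`, `R_j L_i k = g c_i k g c_j = -(c_i g k g c_j)`, so they anticommute.
  `Ee = (L + R)/2`, `Ie = (R - L)/2`.
* `Gf_mono`: induction, `Gf (q+1) ≤ Gf (q+2)` from `Gf q ≤ Gf (q+1)`.
* `Ie_mem`: induction on `q`; on `vac` it is `0`; for `x = Ee j y`, `y ∈ Gf q`: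
  `Ie i (Ee j y) = δ_ij y - Ee j (Ie i y)`; if `q = 0`, `y = 0`; if `q = p + 1` then
  `Ie i y ∈ Gf p` and `Ee j (Ie i y) ∈ Gf (p + 1)`.
* `vac_mul`: `b ∈ vac` iff `c_i b = g b g c_i` for all `i`.  If `b, b' ∈ vac` then
  `c_i b b' = g b g c_i b' = g b g g b' g c_i = g b b' g c_i`.
* `lm_Ee`: for `b ∈ vac`: `b c_i = c_i (g b g)` (conjugate `c_i b = g b g c_i` by `g`), so
  `b * Ee i k = ½(b c_i k + b g k g c_i) = ½(c_i (gbg) k + g (gbg) k g c_i) = Ee i ((g b g) k)`;
  also `g b g ∈ vac`.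
* `lm_mem`: induction using `vac_mul`, `lm_Ee`.
* `Gf_span`: `Gf q` is the span of `{(l.map Ee).prod b | l.length < q, b ∈ vac}`.
* `tr_Ie`: `Γ c_i = -c_i Γ`, `g Γ g = Γ`: `tr (Γ g a g c_i) = tr (g c_i Γ g a) = -tr (c_i g Γ g a)
  = -tr (c_i Γ a) = tr (Γ c_i a)` hence `tr (Γ (Ie i a)) = 0`.
* `tr_Gf`: for a word of length `< n` there is `j` not occurring in it; `Ie j` anticommutes with the
  letters, `Ie j b = 0`, so `x = Ie j (Ee j x) + Ee j (Ie j x) = Ie j (Ee j x)` and `tr (Γ x) = 0`.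
* `word_vac`: for a list `l` without duplicates, `(l.map Ee).prod b = (l.map c).prod * b` for
  `b ∈ vac`: induction, `Ee i (c_J b) = ½ (c_i c_J b + g c_J b g c_i)`,
  `g c_J b g c_i = (-1)^|J| c_J (g b g) c_i = (-1)^|J| c_J c_i b = c_i c_J b` as `i ∉ J`.
-/

set_option autoImplicit false
set_option maxSynthPendingDepth 3

open scoped ContDiff Topology
open Finset

noncomputable section

namespace Pool.Agent.EXO.L

variable {n : ℕ} {H : Type*} [NormedAddCommGroup H] [NormedSpace ℂ H]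

/-- Clifford operators and a grading. -/
structure CSys (n : ℕ) (H : Type*) [NormedAddCommGroup H] [NormedSpace ℂ H] where
  c : Fin n → (H →L[ℂ] H)
  g : H →L[ℂ] H
  cc : ∀ i j, c i * c j + c j * c i = if i = j then (-2 : ℂ) • 1 else 0
  gg : g * g = 1
  gc : ∀ i, g * c i = -(c i * g)

/-- Left multiplication. -/
def lm (a : H →L[ℂ] H) : (H →L[ℂ] H) →L[ℂ] (H →L[ℂ] H) := ContinuousLinearMap.mul ℂ (H →L[ℂ] H) a

theorem lm_apply (a k : H →L[ℂ] H) : lm a k = a * k := rfl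

/-- Right multiplication. -/
def rm (a : H →L[ℂ] H) : (H →L[ℂ] H) →L[ℂ] (H →L[ℂ] H) :=
  (ContinuousLinearMap.mul ℂ (H →L[ℂ] H)).flip a

theorem rm_apply (a k : H →L[ℂ] H) : rm a k = k * a := rfl

namespace CSys

variable (S : CSys n H)

/-- The creation operators. -/
def Ee (i : Fin n) : (H →L[ℂ] H) →L[ℂ] (H →L[ℂ] H) :=
  (1 / 2 : ℂ) • (lm (S.c i) + lm S.g * rm (S.g * S.c i))

/-- The annihilation operators. -/
def Ie (i : Fin n) : (H →L[ℂ] H) →L[ℂ] (H →L[ℂ] H) :=
  (1 / 2 : ℂ) • (lm S.g * rm (S.g * S.c i) - lm (S.c i))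

theorem Ee_apply (i : Fin n) (k : H →L[ℂ] H) :
    S.Ee i k = (1 / 2 : ℂ) • (S.c i * k + S.g * (k * (S.g * S.c i))) := rfl

theorem Ie_apply (i : Fin n) (k : H →L[ℂ] H) :
    S.Ie i k = (1 / 2 : ℂ) • (S.g * (k * (S.g * S.c i)) - S.c i * k) := rfl

/-- The vacuum space. -/
def vac : Submodule ℂ (H →L[ℂ] H) := ⨅ i, LinearMap.ker (S.Ie i).toLinearMap

/-- The filtration. -/
def Gf : ℕ → Submodule ℂ (H →L[ℂ] H)
  | 0 => ⊥
  | q + 1 => S.vac ⊔ ⨆ i, (Gf q).map (S.Ee i).toLinearMap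

private theorem LFil_gg (x : H →L[ℂ] H) : S.g * (S.g * x) = x := by
  rw [← mul_assoc, S.gg, one_mul]

private theorem LFil_gc (i : Fin n) (x : H →L[ℂ] H) : S.g * (S.c i * x) = -(S.c i * (S.g * x)) := by
  rw [← mul_assoc, S.gc, neg_mul, mul_assoc]

private theorem LFil_cc (i j : Fin n) (x : H →L[ℂ] H) :
    S.c i * (S.c j * x) + S.c j * (S.c i * x) = (if i = j then (-2 : ℂ) else 0) • x := by
  rw [← mul_assoc, ← mul_assoc, ← add_mul, S.cc]
  split_ifs
  · rw [smul_mul_assoc, one_mul]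
  · rw [zero_mul, zero_smul]

private theorem LFil_cc2 (i j : Fin n) (x : H →L[ℂ] H) :
    x * (S.c i * S.c j) + x * (S.c j * S.c i) = (if i = j then (-2 : ℂ) else 0) • x := by
  rw [← mul_add, S.cc]
  split_ifs
  · rw [mul_smul_comm, mul_one]
  · rw [mul_zero, zero_smul]

theorem Ee_Ee (i j : Fin n) : S.Ee i * S.Ee j + S.Ee j * S.Ee i = 0 := by
  refine ContinuousLinearMap.ext fun k => ?_
  have h1 := S.LFil_cc i j k
  have h2 := S.LFil_cc2 i j k
  show S.Ee i (S.Ee j k) + S.Ee j (S.Ee i k) = 0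
  simp only [Ee_apply, mul_assoc, mul_add, add_mul, mul_smul_comm, smul_mul_assoc, smul_add,
    LFil_gg, LFil_gc, S.gg, S.gc, mul_one, neg_mul, mul_neg, smul_neg, smul_smul]
  linear_combination (norm := module) (1 / 4 : ℂ) • h1 - (1 / 4 : ℂ) • h2

theorem Ie_Ie (i j : Fin n) : S.Ie i * S.Ie j + S.Ie j * S.Ie i = 0 := by
  refine ContinuousLinearMap.ext fun k => ?_
  have h1 := S.LFil_cc i j k
  have h2 := S.LFil_cc2 i j k
  show S.Ie i (S.Ie j k) + S.Ie j (S.Ie i k) = 0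
  simp only [Ie_apply, mul_assoc, mul_sub, sub_mul, mul_smul_comm, smul_mul_assoc, smul_sub,
    LFil_gg, LFil_gc, S.gg, S.gc, mul_one, neg_mul, mul_neg, smul_neg, smul_smul]
  linear_combination (norm := module) (1 / 4 : ℂ) • h1 - (1 / 4 : ℂ) • h2

theorem Ee_Ie (i j : Fin n) : S.Ee i * S.Ie j + S.Ie j * S.Ee i = if i = j then 1 else 0 := by
  refine ContinuousLinearMap.ext fun k => ?_
  have h1 := S.LFil_cc i j k
  have h2 := S.LFil_cc2 i j k
  have h3 : (if i = j then (1 : (H →L[ℂ] H) →L[ℂ] (H →L[ℂ] H)) else 0) k =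
      (if i = j then (1 : ℂ) else 0) • k := by
    split_ifs
    · rw [one_smul]
      rfl
    · rw [zero_smul]
      rfl
  rw [h3]
  show S.Ee i (S.Ie j k) + S.Ie j (S.Ee i k) = _
  have h4 : (if i = j then (-2 : ℂ) else 0) = -2 * (if i = j then (1 : ℂ) else 0) := by
    split_ifs <;> simp
  rw [h4] at h1 h2
  simp only [Ee_apply, Ie_apply, mul_assoc, mul_sub, sub_mul, mul_add, add_mul, mul_smul_comm,
    smul_mul_assoc, smul_sub, smul_add,
    LFil_gg, LFil_gc, S.gg, S.gc, mul_one, neg_mul, mul_neg, smul_neg, smul_smul]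
  linear_combination (norm := module) (-1 / 4 : ℂ) • h1 - (1 / 4 : ℂ) • h2

theorem lm_c (i : Fin n) : lm (S.c i) = S.Ee i - S.Ie i := by
  refine ContinuousLinearMap.ext fun k => ?_
  show S.c i * k = S.Ee i k - S.Ie i k
  rw [Ee_apply, Ie_apply]
  module

theorem Gf_mono : Monotone S.Gf := by
  refine monotone_nat_of_le_succ fun q => ?_
  induction q with
  | zero => exact bot_le
  | succ q ih =>
    show S.vac ⊔ ⨆ i, (S.Gf q).map (S.Ee i).toLinearMap ≤
      S.vac ⊔ ⨆ i, (S.Gf (q + 1)).map (S.Ee i).toLinearMap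
    exact sup_le_sup_left (iSup_mono fun i => Submodule.map_mono ih) _

theorem Ee_mem (i : Fin n) (q : ℕ) {x : H →L[ℂ] H} (hx : x ∈ S.Gf q) : S.Ee i x ∈ S.Gf (q + 1) := by
  show S.Ee i x ∈ S.vac ⊔ ⨆ i, (S.Gf q).map (S.Ee i).toLinearMap
  refine Submodule.mem_sup_right ?_
  exact Submodule.mem_iSup_of_mem i (Submodule.mem_map_of_mem hx)

private theorem LFil_vac0 {b : H →L[ℂ] H} (hb : b ∈ S.vac) (i : Fin n) : S.Ie i b = 0 := by
  unfold vac at hb
  rw [Submodule.mem_iInf] at hb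
  exact hb i

private theorem LFil_EI (i j : Fin n) (x : H →L[ℂ] H) :
    S.Ie i (S.Ee j x) = (if j = i then (1 : ℂ) else 0) • x - S.Ee j (S.Ie i x) := by
  have h := congrArg (fun T : (H →L[ℂ] H) →L[ℂ] (H →L[ℂ] H) => T x) (S.Ee_Ie j i)
  have h3 : (if j = i then (1 : (H →L[ℂ] H) →L[ℂ] (H →L[ℂ] H)) else 0) x =
      (if j = i then (1 : ℂ) else 0) • x := by
    split_ifs
    · rw [one_smul]
      rfl
    · rw [zero_smul]
      rfl
  have h4 : S.Ee j (S.Ie i x) + S.Ie i (S.Ee j x) = (if j = i then (1 : ℂ) else 0) • x := by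
    rw [← h3]
    exact h
  rw [← h4]
  abel

/-- induction principle for `Gf` -/
private theorem LFil_ind {P : ℕ → (H →L[ℂ] H) → Prop} (h0 : P 0 0)
    (hvac : ∀ q, ∀ b ∈ S.vac, P (q + 1) b)
    (hE : ∀ q i x, x ∈ S.Gf q → P q x → P (q + 1) (S.Ee i x))
    (hadd : ∀ q x y, P (q + 1) x → P (q + 1) y → P (q + 1) (x + y)) (q : ℕ) :
    ∀ x ∈ S.Gf q, P q x := by
  induction q with
  | zero =>
    intro x hx
    have h1 : x = 0 := (Submodule.mem_bot ℂ).1 hx
    rw [h1]
    exact h0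
  | succ q ih =>
    intro x hx
    have hx' : x ∈ S.vac ⊔ ⨆ i, (S.Gf q).map (S.Ee i).toLinearMap := hx
    obtain ⟨b, hb, y, hy, rfl⟩ := Submodule.mem_sup.1 hx'
    refine hadd q b y (hvac q b hb) ?_
    refine Submodule.iSup_induction (fun i => (S.Gf q).map (S.Ee i).toLinearMap)
      (motive := fun y => P (q + 1) y) hy ?_ ?_ ?_
    · rintro i _ ⟨z, hz, rfl⟩
      exact hE q i z hz (ih z hz)
    · exact hvac q 0 (Submodule.zero_mem _)
    · exact hadd q

theorem Ie_mem (i : Fin n) (q : ℕ) {x : H →L[ℂ] H} (hx : x ∈ S.Gf (q + 1)) : S.Ie i x ∈ S.Gf q := by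
  have key := S.LFil_ind (P := fun q x => S.Ie i x ∈ S.Gf (q - 1)) ?_ ?_ ?_ ?_ (q + 1) x hx
  · exact key
  · rw [map_zero]
    exact Submodule.zero_mem _
  · intro q b hb
    rw [S.LFil_vac0 hb]
    exact Submodule.zero_mem _
  · intro q j x hx hI
    show S.Ie i (S.Ee j x) ∈ S.Gf q
    rw [LFil_EI]
    refine Submodule.sub_mem _ (Submodule.smul_mem _ _ hx) ?_
    cases q with
    | zero =>
      have h1 : x = 0 := (Submodule.mem_bot ℂ).1 hx
      rw [h1, map_zero, map_zero]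
      exact Submodule.zero_mem _
    | succ p => exact S.Ee_mem j p hI
  · intro q x y hx hy
    rw [map_add]
    exact Submodule.add_mem _ hx hy

theorem Ie_mem' (i : Fin n) (q : ℕ) {x : H →L[ℂ] H} (hx : x ∈ S.Gf q) : S.Ie i x ∈ S.Gf q := by
  cases q with
  | zero =>
    have h1 : x = 0 := (Submodule.mem_bot ℂ).1 hx
    rw [h1, map_zero]
    exact Submodule.zero_mem _
  | succ q => exact S.Gf_mono (Nat.le_succ q) (S.Ie_mem i q hx)

theorem lm_c_mem (i : Fin n) (q : ℕ) {x : H →L[ℂ] H} (hx : x ∈ S.Gf q) :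
    S.c i * x ∈ S.Gf (q + 1) := by
  have h1 : S.c i * x = S.Ee i x - S.Ie i x := by
    rw [← lm_apply, lm_c]
    rfl
  rw [h1]
  exact Submodule.sub_mem _ (S.Ee_mem i q hx) (S.Gf_mono (Nat.le_succ q) (S.Ie_mem' i q hx))

theorem mem_vac {b : H →L[ℂ] H} : b ∈ S.vac ↔ ∀ i, S.c i * b = S.g * b * S.g * S.c i := by
  unfold vac
  rw [Submodule.mem_iInf]
  refine forall_congr' fun i => ?_
  show S.Ie i b = 0 ↔ _
  rw [Ie_apply]
  constructor
  · intro h
    have h1 : S.g * (b * (S.g * S.c i)) - S.c i * b = 0 := by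
      have h2 := congrArg (fun x => (2 : ℂ) • x) h
      simpa [smul_smul] using h2
    rw [mul_assoc, mul_assoc]
    exact (sub_eq_zero.1 h1).symm
  · intro h
    rw [h, mul_assoc, mul_assoc, sub_self, smul_zero]

/-- an even operator which commutes with the `c i` is in the vacuum space -/
theorem vac_of_even {b : H →L[ℂ] H} (hg : S.g * b = b * S.g) (hc : ∀ i, S.c i * b = b * S.c i) :
    b ∈ S.vac := by
  rw [mem_vac]
  intro i
  rw [hg, mul_assoc b, S.gg, mul_one]
  exact hc i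

/-- an odd operator which anticommutes with the `c i` is in the vacuum space -/
theorem vac_of_odd {b : H →L[ℂ] H} (hg : S.g * b = -(b * S.g))
    (hc : ∀ i, S.c i * b = -(b * S.c i)) : b ∈ S.vac := by
  rw [mem_vac]
  intro i
  rw [hg, neg_mul, mul_assoc b, S.gg, mul_one, neg_mul]
  exact hc i

theorem vac_mul {b b' : H →L[ℂ] H} (hb : b ∈ S.vac) (hb' : b' ∈ S.vac) : b * b' ∈ S.vac := by
  rw [mem_vac] at hb hb' ⊢
  intro i
  calc S.c i * (b * b') = (S.c i * b) * b' := by rw [mul_assoc]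
    _ = S.g * b * S.g * (S.c i * b') := by rw [hb i, mul_assoc]
    _ = S.g * b * S.g * (S.g * b' * S.g * S.c i) := by rw [hb' i]
    _ = S.g * (b * b') * S.g * S.c i := by simp only [mul_assoc, LFil_gg]

theorem vac_conj {b : H →L[ℂ] H} (hb : b ∈ S.vac) : S.g * b * S.g ∈ S.vac := by
  rw [mem_vac] at hb ⊢
  intro i
  have h1 := congrArg (fun x => S.g * (x * S.g)) (hb i)
  simp only [mul_assoc, LFil_gg, LFil_gc, S.gg, S.gc, mul_one, neg_mul, mul_neg] at h1 ⊢
  simpa using h1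

theorem vac_le (q : ℕ) : S.vac ≤ S.Gf (q + 1) := by
  show S.vac ≤ S.vac ⊔ ⨆ i, (S.Gf q).map (S.Ee i).toLinearMap
  exact le_sup_left

theorem lm_Ee {b : H →L[ℂ] H} (hb : b ∈ S.vac) (i : Fin n) (k : H →L[ℂ] H) :
    b * S.Ee i k = S.Ee i (S.g * b * S.g * k) := by
  have h1 := S.mem_vac.1 (S.vac_conj hb) i
  have h2 : b * S.c i = S.c i * (S.g * b * S.g) := by
    rw [h1]
    simp only [mul_assoc, LFil_gg]
  rw [Ee_apply, Ee_apply, mul_smul_comm, mul_add, ← mul_assoc b (S.c i) k, h2]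
  simp only [mul_assoc, LFil_gg]

/-- multiplication by vacuum elements preserves the filtration -/
theorem vac_mul_mem {b : H →L[ℂ] H} (hb : b ∈ S.vac) (q : ℕ) {x : H →L[ℂ] H} (hx : x ∈ S.Gf q) :
    b * x ∈ S.Gf q := by
  have key := S.LFil_ind (P := fun q x => ∀ b ∈ S.vac, b * x ∈ S.Gf q) ?_ ?_ ?_ ?_ q x hx
  · exact key b hb
  · intro b _
    rw [mul_zero]
    exact Submodule.zero_mem _
  · intro q x hx b hb
    exact S.vac_le q (S.vac_mul hb hx)
  · intro q j x _ hI b hb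
    rw [S.lm_Ee hb]
    exact S.Ee_mem j q (hI _ (S.vac_conj hb))
  · intro q x y hx hy b hb
    rw [mul_add]
    exact Submodule.add_mem _ (hx b hb) (hy b hb)

theorem Gf_span (q : ℕ) : S.Gf q = Submodule.span ℂ
    {x | ∃ (l : List (Fin n)) (b : H →L[ℂ] H), l.length < q ∧ b ∈ S.vac ∧
      x = (l.map S.Ee).prod b} := by
  apply le_antisymm
  · intro x hx
    refine S.LFil_ind (P := fun q x => x ∈ Submodule.span ℂ
      {x | ∃ (l : List (Fin n)) (b : H →L[ℂ] H), l.length < q ∧ b ∈ S.vac ∧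
        x = (l.map S.Ee).prod b}) (Submodule.zero_mem _) ?_ ?_ ?_ q x hx
    · intro q b hb
      exact Submodule.subset_span ⟨[], b, Nat.succ_pos q, hb, rfl⟩
    · intro q i x _ hI
      have h1 := Submodule.mem_map_of_mem (f := (S.Ee i).toLinearMap) hI
      rw [Submodule.map_span] at h1
      refine Submodule.span_mono ?_ h1
      rintro _ ⟨y, ⟨l, b, hl, hb, rfl⟩, rfl⟩
      refine ⟨i :: l, b, by simpa using hl, hb, ?_⟩
      rw [List.map_cons, List.prod_cons]
      rfl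
    · intro q x y hx hy
      exact Submodule.add_mem _ hx hy
  · rw [Submodule.span_le]
    rintro _ ⟨l, b, hl, hb, rfl⟩
    induction l generalizing q with
    | nil =>
      obtain ⟨p, rfl⟩ : ∃ p, q = p + 1 := ⟨q - 1, by simp at hl; omega⟩
      exact S.vac_le p hb
    | cons i l ih =>
      obtain ⟨p, rfl⟩ : ∃ p, q = p + 1 := ⟨q - 1, by simp at hl; omega⟩
      rw [List.map_cons, List.prod_cons]
      exact S.Ee_mem i p (ih p (by simpa using hl))

/-- The trace on operators. -/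
def trc (H : Type*) [NormedAddCommGroup H] [NormedSpace ℂ H] : (H →L[ℂ] H) →ₗ[ℂ] ℂ :=
  (LinearMap.trace ℂ H).comp (ContinuousLinearMap.coeLM ℂ)

theorem trc_apply (a : H →L[ℂ] H) : trc H a = LinearMap.trace ℂ H a.toLinearMap := rfl

theorem trc_mul_comm [FiniteDimensional ℂ H] (a b : H →L[ℂ] H) : trc H (a * b) = trc H (b * a) := by
  rw [trc_apply, trc_apply]
  exact LinearMap.trace_mul_comm ℂ a.toLinearMap b.toLinearMap

theorem tr_Ie [FiniteDimensional ℂ H] (Γ : H →L[ℂ] H) (hΓ : ∀ i, Γ * S.c i = -(S.c i * Γ))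
    (hg : S.g * Γ = Γ * S.g) (i : Fin n) (a : H →L[ℂ] H) : trc H (Γ * S.Ie i a) = 0 := by
  have h1 : Γ * S.Ie i a = (1 / 2 : ℂ) • ((Γ * S.g * a) * (S.g * S.c i) - Γ * S.c i * a) := by
    rw [Ie_apply, mul_smul_comm, mul_sub]
    simp only [mul_assoc]
  have h2 : (S.g * S.c i) * (Γ * S.g * a) = Γ * S.c i * a := by
    rw [S.gc, hΓ, neg_mul, neg_mul]
    congr 1
    calc S.c i * S.g * (Γ * S.g * a) = S.c i * (S.g * Γ) * S.g * a := by simp only [mul_assoc]
      _ = S.c i * (Γ * S.g) * S.g * a := by rw [hg]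
      _ = S.c i * Γ * a := by simp only [mul_assoc, LFil_gg]
  rw [h1, map_smul, map_sub, trc_mul_comm, h2, sub_self, smul_zero]

private theorem LFil_word0 (j : Fin n) (l : List (Fin n)) (hj : j ∉ l) {b : H →L[ℂ] H}
    (hb : b ∈ S.vac) : S.Ie j ((l.map S.Ee).prod b) = 0 := by
  induction l with
  | nil => exact S.LFil_vac0 hb j
  | cons i l ih =>
    rw [List.map_cons, List.prod_cons]
    show S.Ie j (S.Ee i ((l.map S.Ee).prod b)) = 0
    rw [LFil_EI, ih (fun h => hj (List.mem_cons_of_mem _ h)), map_zero, sub_zero, if_neg, zero_smul]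
    intro h
    exact hj (h ▸ List.mem_cons_self)

theorem tr_Gf [FiniteDimensional ℂ H] (Γ : H →L[ℂ] H) (hΓ : ∀ i, Γ * S.c i = -(S.c i * Γ))
    (hg : S.g * Γ = Γ * S.g) {x : H →L[ℂ] H} (hx : x ∈ S.Gf n) : trc H (Γ * x) = 0 := by
  rw [Gf_span] at hx
  induction hx using Submodule.span_induction with
  | mem x hx =>
    obtain ⟨l, b, hl, hb, rfl⟩ := hx
    obtain ⟨j, hj⟩ : ∃ j : Fin n, j ∉ l := by
      by_contra hcon
      push Not at hcon
      have h1 : (Finset.univ : Finset (Fin n)) ⊆ l.toFinset := fun j _ => List.mem_toFinset.2 (hcon j)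
      have h2 := Finset.card_le_card h1
      have h3 := l.toFinset_card_le
      rw [Finset.card_univ, Fintype.card_fin] at h2
      omega
    have h1 := S.LFil_EI j j ((l.map S.Ee).prod b)
    rw [S.LFil_word0 j l hj hb, map_zero, sub_zero, if_pos rfl, one_smul] at h1
    rw [← h1]
    exact S.tr_Ie Γ hΓ hg j _
  | zero => rw [mul_zero, map_zero]
  | add x y _ _ hx hy => rw [mul_add, map_add, hx, hy, add_zero]
  | smul c x _ hx => rw [mul_smul_comm, map_smul, hx, smul_zero]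

private theorem LFil_gC (l : List (Fin n)) :
    S.g * (l.map S.c).prod = ((-1 : ℂ) ^ l.length) • ((l.map S.c).prod * S.g) := by
  induction l with
  | nil => simp
  | cons i l ih =>
    rw [List.map_cons, List.prod_cons, ← mul_assoc, S.gc, neg_mul, mul_assoc, ih, mul_smul_comm,
      List.length_cons, pow_succ, mul_neg_one, neg_smul, mul_assoc]

private theorem LFil_cC (i : Fin n) (l : List (Fin n)) (hi : i ∉ l) :
    S.c i * (l.map S.c).prod = ((-1 : ℂ) ^ l.length) • ((l.map S.c).prod * S.c i) := by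
  induction l with
  | nil => simp
  | cons j l ih =>
    have hij : i ≠ j := fun h => hi (h ▸ List.mem_cons_self)
    have h1 : S.c i * S.c j = -(S.c j * S.c i) := by
      have h2 := S.cc i j
      rw [if_neg hij] at h2
      exact eq_neg_of_add_eq_zero_left h2
    rw [List.map_cons, List.prod_cons, ← mul_assoc, h1, neg_mul, mul_assoc,
      ih (fun h => hi (List.mem_cons_of_mem _ h)), mul_smul_comm,
      List.length_cons, pow_succ, mul_neg_one, neg_smul, mul_assoc]

theorem word_vac (l : List (Fin n)) (hl : l.Nodup) {b : H →L[ℂ] H} (hb : b ∈ S.vac) :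
    (l.map S.Ee).prod b = (l.map S.c).prod * b := by
  induction l with
  | nil =>
    rw [List.map_nil, List.prod_nil, List.map_nil, List.prod_nil, one_mul]
    rfl
  | cons i l ih =>
    have hi : i ∉ l := (List.nodup_cons.1 hl).1
    rw [List.map_cons, List.prod_cons]
    show S.Ee i ((l.map S.Ee).prod b) = _
    rw [ih (List.nodup_cons.1 hl).2, Ee_apply, List.map_cons, List.prod_cons]
    have h1 : S.g * ((l.map S.c).prod * b * (S.g * S.c i)) = S.c i * ((l.map S.c).prod * b) := by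
      calc S.g * ((l.map S.c).prod * b * (S.g * S.c i)) =
          (S.g * (l.map S.c).prod) * (b * S.g * S.c i) := by simp only [mul_assoc]
        _ = ((-1 : ℂ) ^ l.length) • ((l.map S.c).prod * (S.g * b * S.g * S.c i)) := by
          rw [LFil_gC, smul_mul_assoc]
          simp only [mul_assoc]
        _ = ((-1 : ℂ) ^ l.length) • ((l.map S.c).prod * (S.c i * b)) := by
          rw [← S.mem_vac.1 hb i]
        _ = (((-1 : ℂ) ^ l.length) • ((l.map S.c).prod * S.c i)) * b := by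
          rw [smul_mul_assoc, mul_assoc]
        _ = S.c i * ((l.map S.c).prod * b) := by
          rw [← S.LFil_cC i l hi, mul_assoc]
    rw [h1, mul_assoc]
    module

end CSys

end Pool.Agent.EXO.L
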