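import Pool.Agent.EXO.LToA

/-!
# EXO / LToB : from the formal heat equation to the equation for the Taylor sequence (IDX-L)

Notation: `T[f] = tay f`, `𝔸_b = ∑_i mulS (g b i) * cst ∂_i + up * mulS (ξ b)` so that
`up (T[𝒟_b f]) = 𝔸_b T[f]` (`tay_Dbf`; `𝔸_b` commutes with `up`), `up * mulS (xs b) = mulS T[xf_b]` and
`up² * mulS qs = mulS T[qf]` (`mulS_dn`; `T[xf_b] 0 = 0`, `T[qf] 0 = T[qf] 1 = 0` from `hx0`, `hq0`, `hq1`
with `tay_zero'`, `tay_one`).
For a finitely supported family `κ : ℤ → (En n → A)` (zero for `|j| > J`) and `N > J + 2` let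
`S κ = ∑ i ∈ range (2N+1), up^(2i) T[κ (i - N)]`.  Then, for the residual `res`:
`S (fun j => res j)`, multiplied by `up²`, is `T' (S κ)` with
`T' = ½ nn - ½ cst eu - N + mulS qs - ∑_b (𝔸_b - ½ mulS (xs b))² + up² mulS Wq`:
* `(nn - cst eu) (up^(2i) T[f]) = 2i up^(2i) T[f]` (`nn_up`, `nn_eu_tay`), so
  `(½ nn - ½ eu - N) S κ = ∑_i (i - N) up^(2i) T[κ(i-N)] = up² S (j ↦ (j+1) κ_{j+1})` (shift `i → i+1`, the
  boundary terms vanish because `N > J + 2`);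
* `up² S (j ↦ qf κ_{j+2}) = mulS qs (S κ)`: `up^(2i+2) mulS T[qf] T[κ_{i-N+2}] = up^(2i+4) mulS qs T[κ_{i+2-N}]`;
* `up² S (j ↦ 𝒟_b 𝒟_b κ_j) = 𝔸_b² S κ`;
* `up² S (j ↦ xf_b 𝒟_b κ_{j+1}) = mulS (xs b) 𝔸_b S κ`, `up² S (j ↦ 𝒟_b (xf_b κ_{j+1})) = 𝔸_b mulS (xs b) S κ`;
* `up² S (j ↦ xf_b² κ_{j+2}) = mulS (xs b)² S κ`; `up² S (j ↦ Wf κ_j) = up² mulS Wq S κ`.
By `hres` and `tay_eq_zero`, `T[res j] w = 0` for `w < (m - n - 2j).toNat`, so `up² S res` vanishes in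
weights `< m - n + 2N + 2`: the term `i` has weight `2 + 2i + w`, `j = i - N`.
By `hlow`, `S κ` vanishes in weights `< 2N - n` (the term `i` has weights `2i + w` with
`w ≥ 1 - n - 2j` if `j < -l`, and `2i = 2(j + N) ≥ 2N - n` if `j ≥ -l`).  Put
`P w = S κ (w + 2N - n)`, i.e. `S κ = up^(2N-n) P`.  `T' up^(2N-n) = up^(2N-n) Tgeo` (`nn_up`, `2N - n` is
even: `½(2N-n) - N = -n/2`; everything else commutes with `up`).  So `Tgeo P w = 0` for `w < m + 2`
(`up` is injective).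
`P 0 = S κ (2N - n)`: only the term `i = N - l` contributes (`j = -l`), with `T[κ_{-l}] 0` = constant
(`tay_zero'`; for `j < -l` the weight is `> 2N - n`).  `(P n) 0 = (S κ (2N)) 0 = ∑_i (T[κ_{i-N}] (2N-2i)) 0`
and a homogeneous polynomial of positive degree vanishes at `0`, so only `i = N` contributes:
`(T[κ_0] 0) 0 = κ_0 0`.
-/

set_option autoImplicit false
set_option maxSynthPendingDepth 3

open scoped ContDiff Topology
open Finset

noncomputable section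

namespace Pool.Agent.EXO.L

variable {n M : ℕ} {A : Type*} [NormedAddCommGroup A] [NormedSpace ℂ A]

/-- The local form of the formal heat operator. -/
def resF (gf : Fin M → Fin n → En n → ℝ) (xf : Fin M → En n → ℝ) (qf : En n → ℝ)
    (Ξf : Fin M → En n → (A →L[ℂ] A)) (Wf : En n → (A →L[ℂ] A)) (κ : ℤ → En n → A) (j : ℤ)
    (z : En n) : A :=
  ((j + 1 : ℤ) : ℂ) • κ (j + 1) z + ((qf z : ℝ) : ℂ) • κ (j + 2) z -
    ∑ b, (Dbf (gf b) (Ξf b) (Dbf (gf b) (Ξf b) (κ j)) z -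
      (1 / 2 : ℂ) • (((xf b z : ℝ) : ℂ) • Dbf (gf b) (Ξf b) (κ (j + 1)) z +
        Dbf (gf b) (Ξf b) (fun z => ((xf b z : ℝ) : ℂ) • κ (j + 1) z) z) +
      (1 / 4 : ℂ) • (((xf b z : ℝ) : ℂ) ^ 2 • κ (j + 2) z)) + Wf z (κ j z)

/-! ### sums over the powers of `t` -/

private def Sm (N : ℕ) (F : ℤ → Sq n A) : Sq n A :=
  ∑ i ∈ range (2 * N + 1), (up ^ (2 * i)) (F ((i : ℤ) - N))

private theorem Sm_congr {N : ℕ} {F G : ℤ → Sq n A} (h : ∀ j, F j = G j) : Sm N F = Sm N G := by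
  have : F = G := funext h
  rw [this]

private theorem Sm_add (N : ℕ) (F G : ℤ → Sq n A) :
    Sm N (fun j => F j + G j) = Sm N F + Sm N G := by
  simp only [Sm, map_add, sum_add_distrib]

private theorem Sm_sub (N : ℕ) (F G : ℤ → Sq n A) :
    Sm N (fun j => F j - G j) = Sm N F - Sm N G := by
  simp only [Sm, map_sub, sum_sub_distrib]

private theorem Sm_smul (N : ℕ) (c : ℂ) (F : ℤ → Sq n A) :
    Sm N (fun j => c • F j) = c • Sm N F := by
  simp only [Sm, map_smul, smul_sum]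

private theorem Sm_sum {ι : Type*} (s : Finset ι) (N : ℕ) (F : ι → ℤ → Sq n A) :
    Sm N (fun j => ∑ b ∈ s, F b j) = ∑ b ∈ s, Sm N (F b) := by
  simp only [Sm, map_sum]
  rw [sum_comm]

private theorem comm_apply {T : Op n A} (hT : Commute T up) (k : ℕ) (P : Sq n A) :
    T ((up ^ k) P) = (up ^ k) (T P) := by
  have h := (hT.pow_right k).eq
  exact LinearMap.congr_fun h P

private theorem Sm_op (N : ℕ) {T : Op n A} (hT : Commute T up) (F : ℤ → Sq n A) :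
    Sm N (fun j => T (F j)) = T (Sm N F) := by
  simp only [Sm, map_sum]
  exact sum_congr rfl fun i _ => (comm_apply hT _ _).symm

private theorem up_pow_add (a b : ℕ) (P : Sq n A) : (up ^ a) ((up ^ b) P) = (up ^ (a + b)) P := by
  rw [pow_add]
  rfl

private theorem Sm_shift (J N : ℕ) (hN : J < N) (F : ℤ → Sq n A)
    (hF : ∀ j : ℤ, (J : ℤ) < |j| → F j = 0) :
    (up ^ 2) (Sm N (fun j => F (j + 1))) = Sm N F := by
  have h1 : (up ^ 2) (Sm N (fun j => F (j + 1))) =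
      ∑ i ∈ range (2 * N + 1), (up ^ (2 * (i + 1))) (F (((i + 1 : ℕ) : ℤ) - N)) := by
    simp only [Sm, map_sum, up_pow_add]
    refine sum_congr rfl fun i _ => ?_
    have e1 : 2 + 2 * i = 2 * (i + 1) := by ring
    have e2 : (i : ℤ) - N + 1 = ((i + 1 : ℕ) : ℤ) - N := by push_cast; ring
    rw [e1, e2]
  have h2 := sum_range_succ' (fun i : ℕ => (up ^ (2 * i)) (F ((i : ℤ) - N))) (2 * N + 1)
  have h3 := sum_range_succ (fun i : ℕ => (up ^ (2 * i)) (F ((i : ℤ) - N))) (2 * N + 1)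
  have z1 : F (((0 : ℕ) : ℤ) - N) = 0 := by
    apply hF
    rw [Nat.cast_zero, zero_sub, abs_neg, Nat.abs_cast]
    exact_mod_cast hN
  have z2 : F (((2 * N + 1 : ℕ) : ℤ) - N) = 0 := by
    apply hF
    have : (((2 * N + 1 : ℕ) : ℤ) - N) = ((N + 1 : ℕ) : ℤ) := by push_cast; ring
    rw [this, Nat.abs_cast]
    exact_mod_cast (by omega : J < N + 1)
  simp only [z1, z2, map_zero, add_zero] at h2 h3
  rw [h1, ← h2, h3]
  rfl

private theorem Sm_shift2 (J N : ℕ) (hN : J + 1 < N) (F : ℤ → Sq n A)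
    (hF : ∀ j : ℤ, (J : ℤ) < |j| → F j = 0) :
    (up ^ 4) (Sm N (fun j => F (j + 2))) = Sm N F := by
  have h1 := Sm_shift (J + 1) N hN (fun j => F (j + 1)) (by
    intro j hj
    apply hF
    have h3 : |j| ≤ |j + 1| + 1 := by
      have := abs_sub (j + 1) 1
      simpa using this
    push_cast at hj
    omega)
  have h2 := Sm_shift J N (by omega) F hF
  rw [← h2, ← h1, up_pow_add]
  congr 1
  exact Sm_congr fun j => by rw [add_assoc]; rfl

private theorem Sm_apply (N : ℕ) (F : ℤ → Sq n A) (v : ℕ) : Sm N F v =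
    ∑ i ∈ range (2 * N + 1), if 2 * i ≤ v then F ((i : ℤ) - N) (v - 2 * i) else 0 := by
  simp only [Sm, Finset.sum_apply, up_pow]

private theorem nn_up_pow (k : ℕ) : (nn * up ^ k : Op n A) = up ^ k * nn + (k : ℂ) • up ^ k := by
  induction k with
  | zero => simp
  | succ k ih =>
    rw [pow_succ, ← mul_assoc, ih, add_mul, mul_assoc, nn_up, mul_add, smul_mul_assoc,
      Nat.cast_succ, add_smul, one_smul, ← mul_assoc, add_assoc, add_comm (up ^ k * up)]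

private theorem nn_up_pow_apply (k : ℕ) (P : Sq n A) :
    nn ((up ^ k) P) = (up ^ k) (nn P) + (k : ℂ) • (up ^ k) P :=
  LinearMap.congr_fun (nn_up_pow k) P

private theorem comm_eu : Commute (cst eu : Op n A) up := cst_up eu

private theorem comm_mulS (a : Sq n (A →L[ℂ] A)) : Commute (mulS a : Op n A) up := mulS_up a

private theorem Sm_euler (N : ℕ) (F : ℤ → Sq n A) (hF : ∀ j, nn (F j) - cst eu (F j) = 0) :
    (1 / 2 : ℂ) • nn (Sm N F) - (1 / 2 : ℂ) • cst eu (Sm N F) - (N : ℂ) • Sm N F =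
      Sm N (fun j => (j : ℂ) • F j) := by
  simp only [Sm, map_sum, smul_sum, map_smul]
  rw [← sum_sub_distrib, ← sum_sub_distrib]
  refine sum_congr rfl fun i _ => ?_
  rw [nn_up_pow_apply, comm_apply comm_eu, sub_eq_zero.1 (hF _), smul_add, smul_smul]
  have e : (((i : ℤ) - (N : ℤ) : ℤ) : ℂ) = (1 / 2 : ℂ) * ((2 * i : ℕ) : ℂ) - (N : ℂ) := by
    push_cast
    ring
  rw [e, sub_smul]
  abel

private theorem contDiffAt_app {g : En n → A →L[ℂ] A} {f : En n → A} (hg : ContDiffAt ℝ ∞ g 0)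
    (hf : ContDiffAt ℝ ∞ f 0) : ContDiffAt ℝ ∞ (fun z => g z (f z)) 0 := by
  let ap : (A →L[ℂ] A) →L[ℝ] A →L[ℝ] A :=
    ContinuousLinearMap.restrictScalarsL ℂ A A ℝ ℝ
  have h1 : ContDiffAt ℝ ∞ (fun z => ap (g z)) 0 := ap.contDiff.contDiffAt.comp 0 hg
  exact h1.clm_apply hf

private theorem contDiffAt_sm {r : En n → ℝ} {f : En n → A} (hr : ContDiffAt ℝ ∞ r 0)
    (hf : ContDiffAt ℝ ∞ f 0) : ContDiffAt ℝ ∞ (fun z => ((r z : ℝ) : ℂ) • f z) 0 := by
  have h1 : ContDiffAt ℝ ∞ (fun z => ((r z : ℝ) : ℂ)) 0 :=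
    Complex.ofRealCLM.contDiff.contDiffAt.comp 0 hr
  exact h1.smul hf

/-- the operator `𝔸_b`. -/
private def Aop (gf : Fin n → En n → ℝ) (Ξf : En n → (A →L[ℂ] A)) : Op n A :=
  (∑ i, mulS (tay (sc A (gf i))) * cst (dl (bv i))) + up * mulS (tay Ξf)

private theorem comm_Aop (gf : Fin n → En n → ℝ) (Ξf : En n → (A →L[ℂ] A)) :
    Commute (Aop gf Ξf) up := by
  refine Commute.add_left ?_ ?_
  · refine Commute.sum_left _ _ _ fun i _ => ?_
    exact (comm_mulS _).mul_left (cst_up _)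
  · exact (Commute.refl _).mul_left (comm_mulS _)

private theorem resF_smooth {gf : Fin M → Fin n → En n → ℝ} {xf : Fin M → En n → ℝ}
    {qf : En n → ℝ} {Ξf : Fin M → En n → (A →L[ℂ] A)} {Wf : En n → (A →L[ℂ] A)}
    {κ : ℤ → En n → A} (hκ : ∀ j, ContDiffAt ℝ ∞ (κ j) 0)
    (hg : ∀ b i, ContDiffAt ℝ ∞ (gf b i) 0) (hx : ∀ b, ContDiffAt ℝ ∞ (xf b) 0)
    (hq : ContDiffAt ℝ ∞ qf 0) (hΞ : ∀ b, ContDiffAt ℝ ∞ (Ξf b) 0)
    (hW : ContDiffAt ℝ ∞ Wf 0) (j : ℤ) : ContDiffAt ℝ ∞ (resF gf xf qf Ξf Wf κ j) 0 ∧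
    tay (resF gf xf qf Ξf Wf κ j) = ((j + 1 : ℤ) : ℂ) • tay (κ (j + 1)) +
      mulS (tay (sc A qf)) (tay (κ (j + 2))) -
      ∑ b, (tay (Dbf (gf b) (Ξf b) (Dbf (gf b) (Ξf b) (κ j))) -
        (1 / 2 : ℂ) • (mulS (tay (sc A (xf b))) (tay (Dbf (gf b) (Ξf b) (κ (j + 1)))) +
          tay (Dbf (gf b) (Ξf b) (fun z => ((xf b z : ℝ) : ℂ) • κ (j + 1) z))) +
        (1 / 4 : ℂ) • mulS (tay (sc A (xf b))) (mulS (tay (sc A (xf b))) (tay (κ (j + 2))))) +
      mulS (tay Wf) (tay (κ j)) := by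
  have c1 : ContDiffAt ℝ ∞ (fun z => ((j + 1 : ℤ) : ℂ) • κ (j + 1) z) 0 := (hκ _).const_smul _
  have c2 : ContDiffAt ℝ ∞ (fun z => ((qf z : ℝ) : ℂ) • κ (j + 2) z) 0 := contDiffAt_sm hq (hκ _)
  have d1 : ∀ b k, ContDiffAt ℝ ∞ (Dbf (gf b) (Ξf b) (κ k)) 0 := fun b k =>
    contDiffAt_Dbf (hg b) (hΞ b) (hκ k)
  have g1 : ∀ b, ContDiffAt ℝ ∞ (fun z => Dbf (gf b) (Ξf b) (Dbf (gf b) (Ξf b) (κ j)) z) 0 :=
    fun b => contDiffAt_Dbf (hg b) (hΞ b) (d1 b j)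
  have h1 : ∀ b, ContDiffAt ℝ ∞
      (fun z => ((xf b z : ℝ) : ℂ) • Dbf (gf b) (Ξf b) (κ (j + 1)) z) 0 :=
    fun b => contDiffAt_sm (hx b) (d1 b _)
  have h2 : ∀ b, ContDiffAt ℝ ∞
      (fun z => Dbf (gf b) (Ξf b) (fun z => ((xf b z : ℝ) : ℂ) • κ (j + 1) z) z) 0 :=
    fun b => contDiffAt_Dbf (hg b) (hΞ b) (contDiffAt_sm (hx b) (hκ _))
  have e3 : ∀ b, (fun z => ((xf b z : ℝ) : ℂ) ^ 2 • κ (j + 2) z) =
      fun z => ((xf b z : ℝ) : ℂ) • (fun z => ((xf b z : ℝ) : ℂ) • κ (j + 2) z) z := by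
    intro b
    funext z
    rw [pow_two, mul_smul]
  have h3 : ∀ b, ContDiffAt ℝ ∞ (fun z => ((xf b z : ℝ) : ℂ) ^ 2 • κ (j + 2) z) 0 := by
    intro b
    rw [e3]
    exact contDiffAt_sm (hx b) (contDiffAt_sm (hx b) (hκ _))
  have c4 : ContDiffAt ℝ ∞ (fun z => Wf z (κ j z)) 0 := contDiffAt_app hW (hκ j)
  have s1 : ∀ b, ContDiffAt ℝ ∞ (fun z =>
      ((xf b z : ℝ) : ℂ) • Dbf (gf b) (Ξf b) (κ (j + 1)) z +
        Dbf (gf b) (Ξf b) (fun z => ((xf b z : ℝ) : ℂ) • κ (j + 1) z) z) 0 :=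
    fun b => (h1 b).add (h2 b)
  have s2 : ∀ b, ContDiffAt ℝ ∞ (fun z => Dbf (gf b) (Ξf b) (Dbf (gf b) (Ξf b) (κ j)) z -
      (1 / 2 : ℂ) • (((xf b z : ℝ) : ℂ) • Dbf (gf b) (Ξf b) (κ (j + 1)) z +
        Dbf (gf b) (Ξf b) (fun z => ((xf b z : ℝ) : ℂ) • κ (j + 1) z) z)) 0 :=
    fun b => (g1 b).sub ((s1 b).const_smul _)
  have s3 : ∀ b, ContDiffAt ℝ ∞ (fun z => Dbf (gf b) (Ξf b) (Dbf (gf b) (Ξf b) (κ j)) z -
      (1 / 2 : ℂ) • (((xf b z : ℝ) : ℂ) • Dbf (gf b) (Ξf b) (κ (j + 1)) z +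
        Dbf (gf b) (Ξf b) (fun z => ((xf b z : ℝ) : ℂ) • κ (j + 1) z) z) +
      (1 / 4 : ℂ) • (((xf b z : ℝ) : ℂ) ^ 2 • κ (j + 2) z)) 0 :=
    fun b => (s2 b).add ((h3 b).const_smul _)
  have s4 : ContDiffAt ℝ ∞ (fun z => ∑ b, (Dbf (gf b) (Ξf b) (Dbf (gf b) (Ξf b) (κ j)) z -
      (1 / 2 : ℂ) • (((xf b z : ℝ) : ℂ) • Dbf (gf b) (Ξf b) (κ (j + 1)) z +
        Dbf (gf b) (Ξf b) (fun z => ((xf b z : ℝ) : ℂ) • κ (j + 1) z) z) +
      (1 / 4 : ℂ) • (((xf b z : ℝ) : ℂ) ^ 2 • κ (j + 2) z))) 0 :=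
    ContDiffAt.sum fun b _ => s3 b
  have s12 := c1.add c2
  have s5 := s12.sub s4
  refine ⟨s5.add c4, ?_⟩
  have t1 := tay_add s5 c4
  have t2 := tay_sub s12 s4
  have t3 := tay_add c1 c2
  have t4 := tay_sum (univ : Finset (Fin M)) (f := fun b z =>
      Dbf (gf b) (Ξf b) (Dbf (gf b) (Ξf b) (κ j)) z -
      (1 / 2 : ℂ) • (((xf b z : ℝ) : ℂ) • Dbf (gf b) (Ξf b) (κ (j + 1)) z +
        Dbf (gf b) (Ξf b) (fun z => ((xf b z : ℝ) : ℂ) • κ (j + 1) z) z) +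
      (1 / 4 : ℂ) • (((xf b z : ℝ) : ℂ) ^ 2 • κ (j + 2) z)) (fun b _ => s3 b)
  have t5 : ∀ b, tay (fun z => Dbf (gf b) (Ξf b) (Dbf (gf b) (Ξf b) (κ j)) z -
      (1 / 2 : ℂ) • (((xf b z : ℝ) : ℂ) • Dbf (gf b) (Ξf b) (κ (j + 1)) z +
        Dbf (gf b) (Ξf b) (fun z => ((xf b z : ℝ) : ℂ) • κ (j + 1) z) z) +
      (1 / 4 : ℂ) • (((xf b z : ℝ) : ℂ) ^ 2 • κ (j + 2) z)) =
      tay (Dbf (gf b) (Ξf b) (Dbf (gf b) (Ξf b) (κ j))) -
        (1 / 2 : ℂ) • (mulS (tay (sc A (xf b))) (tay (Dbf (gf b) (Ξf b) (κ (j + 1)))) +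
          tay (Dbf (gf b) (Ξf b) (fun z => ((xf b z : ℝ) : ℂ) • κ (j + 1) z))) +
        (1 / 4 : ℂ) • mulS (tay (sc A (xf b))) (mulS (tay (sc A (xf b))) (tay (κ (j + 2)))) := by
    intro b
    rw [tay_add (s2 b) ((h3 b).const_smul _), tay_sub (g1 b) ((s1 b).const_smul _),
      tay_smul _ (s1 b), tay_smul _ (h3 b), tay_add (h1 b) (h2 b), tay_smulR (hx b) (d1 b _), e3 b,
      tay_smulR (hx b) (contDiffAt_sm (hx b) (hκ _)), tay_smulR (hx b) (hκ _)]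
  have t6 : tay (fun z => Wf z (κ j z)) = mulS (tay Wf) (tay (κ j)) := tay_mul hW (hκ j)
  refine Eq.trans t1 ?_
  rw [t6]
  refine congrArg (· + mulS (tay Wf) (tay (κ j))) ?_
  refine Eq.trans t2 ?_
  rw [t4, Finset.sum_congr rfl fun b _ => t5 b]
  refine congrArg (· - _) ?_
  refine Eq.trans t3 ?_
  rw [tay_smul _ (hκ _), tay_smulR hq (hκ _)]

private theorem sq_expand {R : Type*} [Ring R] [Algebra ℂ R] (a x : R) :
    (a - (1 / 2 : ℂ) • x) ^ 2 = a * a - (1 / 2 : ℂ) • (x * a + a * x) + (1 / 4 : ℂ) • (x * x) := by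
  rw [pow_two, sub_mul, mul_sub, mul_sub, smul_mul_assoc, smul_mul_assoc, mul_smul_comm,
    mul_smul_comm, smul_smul]
  norm_num
  module

theorem tot_eq (l : ℕ) (hn : n = 2 * l) (κ : ℤ → En n → A) (hκ : ∀ j, ContDiffAt ℝ ∞ (κ j) 0)
    (J : ℕ) (hJ : ∀ j : ℤ, (J : ℤ) < |j| → κ j = 0)
    (gf : Fin M → Fin n → En n → ℝ) (hg : ∀ b i, ContDiffAt ℝ ∞ (gf b i) 0)
    (xf : Fin M → En n → ℝ) (hx : ∀ b, ContDiffAt ℝ ∞ (xf b) 0)
    (qf : En n → ℝ) (hq : ContDiffAt ℝ ∞ qf 0)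
    (Ξf : Fin M → En n → (A →L[ℂ] A)) (hΞ : ∀ b, ContDiffAt ℝ ∞ (Ξf b) 0)
    (Wf : En n → (A →L[ℂ] A)) (hW : ContDiffAt ℝ ∞ Wf 0)
    (hx0 : ∀ b, xf b 0 = 0) (hq0 : qf 0 = 0) (hq1 : fderiv ℝ qf 0 = 0) (m : ℕ)
    (hres : ∀ j : ℤ, (resF gf xf qf Ξf Wf κ j) =O[𝓝 0]
      fun z => ‖z‖ ^ ((m : ℤ) - n - 2 * j).toNat)
    (hlow : ∀ j : ℤ, j < -(l : ℤ) → (κ j) =O[𝓝 0] fun z => ‖z‖ ^ ((1 : ℤ) - n - 2 * j).toNat) :
    ∃ P : Sq n A, (∀ w < m + 2, Tgeo (fun b i => tay (sc A (gf b i)))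
        (fun b => dn 1 (tay (sc A (xf b)))) (dn 2 (tay (sc A qf))) (fun b => tay (Ξf b))
        (tay Wf) P w = 0) ∧ P 0 = pc (κ (-(l : ℤ)) 0) ∧ (P n).1 0 = κ 0 0 := by
  obtain ⟨N, hN⟩ : ∃ N : ℕ, N = J + n + l + 3 := ⟨_, rfl⟩
  obtain ⟨k, hk⟩ : ∃ k : ℕ, k = 2 * N - n := ⟨_, rfl⟩
  have hkN : k + n = 2 * N := by omega
  -- notation
  obtain ⟨T, hT⟩ : ∃ T : ℤ → Sq n A, T = fun j => tay (κ j) := ⟨_, rfl⟩
  obtain ⟨X, hX⟩ : ∃ X : Fin M → Op n A, X = fun b => mulS (dn 1 (tay (sc A (xf b)))) := ⟨_, rfl⟩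
  obtain ⟨Q, hQ⟩ : ∃ Q : Op n A, Q = mulS (dn 2 (tay (sc A qf))) := ⟨_, rfl⟩
  obtain ⟨Ao, hAo⟩ : ∃ Ao : Fin M → Op n A, Ao = fun b => Aop (gf b) (Ξf b) := ⟨_, rfl⟩
  obtain ⟨W, hWd⟩ : ∃ W : Op n A, W = mulS (tay Wf) := ⟨_, rfl⟩
  have cX : ∀ b, Commute (X b) up := fun b => by rw [hX]; exact comm_mulS _
  have cQ : Commute Q up := by rw [hQ]; exact comm_mulS _
  have cA : ∀ b, Commute (Ao b) up := fun b => by rw [hAo]; exact comm_Aop _ _
  have cW : Commute W up := by rw [hWd]; exact comm_mulS _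
  have hTJ : ∀ j : ℤ, (J : ℤ) < |j| → T j = 0 := by
    intro j hj
    have h0 : tay (fun _ : En n => (0 : A)) = 0 := by
      rw [tay_const]
      funext w
      cases w <;> simp
    rw [hT]
    show tay (κ j) = 0
    rw [hJ j hj]
    exact h0
  -- `up X = mulS (tay xf)`
  have uX : ∀ b, (mulS (tay (sc A (xf b))) : Op n A) = up * X b := by
    intro b
    rw [hX, ← mulS_dn 1 (tay (sc A (xf b))) ?_, pow_one]
    intro w hw
    have hw0 : w = 0 := by omega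
    subst hw0
    refine Pl.ext fun z => ?_
    rw [tay_zero', sc, hx0]
    simp
  have uQ : (mulS (tay (sc A qf)) : Op n A) = up ^ 2 * Q := by
    rw [hQ, ← mulS_dn 2 (tay (sc A qf)) ?_]
    intro w hw
    refine Pl.ext fun z => ?_
    rcases Nat.lt_or_ge w 1 with h | h
    · have hw0 : w = 0 := by omega
      subst hw0
      rw [tay_zero', sc, hq0]
      simp
    · have hw1 : w = 1 := by omega
      subst hw1
      rw [tay_one]
      have hd : HasFDerivAt qf (0 : En n →L[ℝ] ℝ) 0 := by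
        have := (hq.differentiableAt (by simp)).hasFDerivAt
        rwa [hq1] at this
      have h2 := (Complex.ofRealCLM.hasFDerivAt.comp (0 : En n) hd).smul_const
        (1 : A →L[ℂ] A)
      have h3 : fderiv ℝ (sc A qf) 0 = _ := h2.fderiv
      rw [h3]
      simp
  have uD : ∀ b (f : En n → A), ContDiffAt ℝ ∞ f 0 →
      up (tay (Dbf (gf b) (Ξf b) f)) = Ao b (tay f) := by
    intro b f hf
    rw [hAo]
    exact tay_Dbf (hg b) (hΞ b) hf
  -- the Taylor sequence of the residual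
  obtain ⟨R, hR⟩ : ∃ R : ℤ → Sq n A, R = fun j => tay (resF gf xf qf Ξf Wf κ j) := ⟨_, rfl⟩
  have hR2 : ∀ j, (up ^ 2) (R j) = (up ^ 2) (((j + 1 : ℤ) : ℂ) • T (j + 1)) +
      (up ^ 4) (Q (T (j + 2))) -
      ∑ b, (Ao b (Ao b (T j)) - (1 / 2 : ℂ) • ((up ^ 2) (X b (Ao b (T (j + 1)))) +
        (up ^ 2) (Ao b (X b (T (j + 1))))) + (1 / 4 : ℂ) • (up ^ 4) (X b (X b (T (j + 2))))) +
      (up ^ 2) (W (T j)) := by
    intro j
    have e1 := (resF_smooth hκ hg hx hq hΞ hW j).2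
    have e1' := (congrFun hR j).trans e1
    rw [e1', map_add, map_sub, map_add, map_sum]
    have p4 : ∀ P : Sq n A, (up ^ 2) ((up ^ 2) P) = (up ^ 4) P := fun P => up_pow_add 2 2 P
    have p2 : ∀ P : Sq n A, (up ^ 2) P = up (up P) := fun P => by rw [pow_two]; rfl
    have q1 : mulS (tay (sc A qf)) (tay (κ (j + 2))) = (up ^ 2) (Q (T (j + 2))) := by
      rw [uQ, hT]; rfl
    have q2 : ∀ P : Sq n A, ∀ b, mulS (tay (sc A (xf b))) P = up (X b P) := fun P b => by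
      rw [uX]; rfl
    have cc : ∀ {S : Op n A} (_ : Commute S up) (P : Sq n A), S (up P) = up (S P) := by
      intro S hS P
      exact LinearMap.congr_fun hS.eq P
    have d2 : ∀ b, (up ^ 2) (tay (Dbf (gf b) (Ξf b) (Dbf (gf b) (Ξf b) (κ j)))) =
        Ao b (Ao b (T j)) := by
      intro b
      rw [p2, uD b _ (contDiffAt_Dbf (hg b) (hΞ b) (hκ j)), ← cc (cA b), uD b _ (hκ j), hT]
    have d3 : ∀ b, (up ^ 2) (mulS (tay (sc A (xf b))) (tay (Dbf (gf b) (Ξf b) (κ (j + 1))))) =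
        (up ^ 2) (X b (Ao b (T (j + 1)))) := by
      intro b
      rw [q2, ← cc (cX b), uD b _ (hκ _), hT]
    have d4 : ∀ b, (up ^ 2) (tay (Dbf (gf b) (Ξf b) (fun z => ((xf b z : ℝ) : ℂ) • κ (j + 1) z))) =
        (up ^ 2) (Ao b (X b (T (j + 1)))) := by
      intro b
      rw [p2, uD b _ (contDiffAt_sm (hx b) (hκ _)), tay_smulR (hx b) (hκ _), q2, cc (cA b), p2, hT]
    have d5 : ∀ b, (up ^ 2) (mulS (tay (sc A (xf b))) (mulS (tay (sc A (xf b)))
        (tay (κ (j + 2))))) = (up ^ 4) (X b (X b (T (j + 2)))) := by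
      intro b
      rw [q2, q2, cc (cX b), ← p4, p2 (X b (X b (T (j + 2)))), hT]
    rw [q1, p4]
    congr 1
    · congr 1
      · rw [hT]
      · refine sum_congr rfl fun b _ => ?_
        rw [map_add, map_sub, map_smul, map_smul, map_add, d2, d3, d4, d5]
    · rw [hWd, hT]
  -- the total equation
  obtain ⟨S, hS⟩ : ∃ S : Sq n A, S = Sm N T := ⟨_, rfl⟩
  have htot : Sm N (fun j => (up ^ 2) (R j)) =
      (1 / 2 : ℂ) • nn S - (1 / 2 : ℂ) • cst eu S - (N : ℂ) • S + Q S -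
      ∑ b, (Ao b (Ao b S) - (1 / 2 : ℂ) • (X b (Ao b S) + Ao b (X b S)) +
        (1 / 4 : ℂ) • X b (X b S)) + (up ^ 2) (W S) := by
    have cu : Commute (up ^ 2 : Op n A) up := (Commute.refl _).pow_left 2
    have cu4 : Commute (up ^ 4 : Op n A) up := (Commute.refl _).pow_left 4
    rw [Sm_congr hR2, Sm_add, Sm_sub, Sm_add, Sm_sum]
    have r1 : Sm N (fun j => (up ^ 2) (((j + 1 : ℤ) : ℂ) • T (j + 1))) =
        (1 / 2 : ℂ) • nn S - (1 / 2 : ℂ) • cst eu S - (N : ℂ) • S := by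
      rw [Sm_op N cu (fun j : ℤ => ((j + 1 : ℤ) : ℂ) • T (j + 1)),
        Sm_shift J N (by omega) (fun j : ℤ => ((j : ℤ) : ℂ) • T j) (fun j hj => by
          rw [hTJ j hj, smul_zero]), hS]
      exact (Sm_euler N T fun j => by rw [hT]; exact nn_eu_tay _).symm
    have r2 : ∀ {O : Op n A} (_ : Commute O up),
        Sm N (fun j => (up ^ 4) (O (T (j + 2)))) = O S := by
      intro O hO
      rw [Sm_op N cu4 (fun j : ℤ => O (T (j + 2))),
        Sm_shift2 J N (by omega) (fun j : ℤ => O (T j)) (fun j hj => by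
          rw [hTJ j hj, map_zero]), hS, Sm_op N hO]
    have r3 : ∀ {O : Op n A} (_ : Commute O up),
        Sm N (fun j => (up ^ 2) (O (T (j + 1)))) = O S := by
      intro O hO
      rw [Sm_op N cu (fun j : ℤ => O (T (j + 1))),
        Sm_shift J N (by omega) (fun j : ℤ => O (T j)) (fun j hj => by
          rw [hTJ j hj, map_zero]), hS, Sm_op N hO]
    rw [r1, r2 cQ]
    congr 1
    · congr 1
      refine sum_congr rfl fun b _ => ?_
      rw [Sm_add, Sm_sub, Sm_smul, Sm_smul, Sm_add]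
      have w1 := r3 ((cX b).mul_left (cA b))
      have w2 := r3 ((cA b).mul_left (cX b))
      have w3 := r2 ((cX b).mul_left (cX b))
      have w4 : Sm N (fun j => Ao b (Ao b (T j))) = Ao b (Ao b S) := by
        rw [Sm_op N (cA b) (fun j => Ao b (T j)), Sm_op N (cA b), hS]
      simp only [Module.End.mul_apply] at w1 w2 w3
      rw [w1, w2, w3, w4]
    · rw [Sm_op N cu (fun j => W (T j)), Sm_op N cW, hS]
  -- vanishing of the left hand side
  have hlhs : ∀ v, v < k + m + 2 → Sm N (fun j => (up ^ 2) (R j)) v = 0 := by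
    intro v hv
    rw [Sm_apply]
    refine sum_eq_zero fun i _ => ?_
    split_ifs with h1
    · rw [up_pow]
      split_ifs with h2
      · have e : R ((i : ℤ) - N) = tay (resF gf xf qf Ξf Wf κ ((i : ℤ) - N)) := by rw [hR]
        rw [e]
        refine tay_eq_zero (resF_smooth hκ hg hx hq hΞ hW _).1 _ (hres _) _ ?_
        omega
      · rfl
    · rfl
  -- vanishing of `S`
  have hSv : ∀ v, v < k → S v = 0 := by
    intro v hv
    rw [hS, Sm_apply]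
    refine sum_eq_zero fun i _ => ?_
    split_ifs with h1
    · have h2 : (i : ℤ) - N < -(l : ℤ) := by omega
      rw [hT]
      refine tay_eq_zero (hκ _) _ (hlow _ h2) _ ?_
      omega
    · rfl
  obtain ⟨P, hP⟩ : ∃ P : Sq n A, P = fun w => S (w + k) := ⟨_, rfl⟩
  have hSP : (up ^ k) P = S := by
    funext w
    rw [up_pow, hP]
    split_ifs with h
    · show S (w - k + k) = S w
      rw [Nat.sub_add_cancel h]
    · exact (hSv w (by omega)).symm
  refine ⟨P, ?_, ?_, ?_⟩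
  · -- the equation
    obtain ⟨B, hB⟩ : ∃ B : Op n A, B = Q - ∑ b, (Ao b - (1 / 2 : ℂ) • X b) ^ 2 + up ^ 2 * W :=
      ⟨_, rfl⟩
    have cB : Commute B up := by
      rw [hB]
      refine Commute.add_left (Commute.sub_left cQ ?_) ?_
      · refine Commute.sum_left _ _ _ fun b _ => ?_
        exact ((cA b).sub_left ((cX b).smul_left _)).pow_left 2
      · exact ((Commute.refl _).pow_left 2).mul_left cW
    have hTg : Tgeo (fun b i => tay (sc A (gf b i)))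
        (fun b => dn 1 (tay (sc A (xf b)))) (dn 2 (tay (sc A qf))) (fun b => tay (Ξf b))
        (tay Wf) = (1 / 2 : ℂ) • nn - (1 / 2 : ℂ) • cst eu - (n / 2 : ℂ) • 1 + B := by
      rw [hB, hQ, hX, hAo, hWd]
      unfold Tgeo Aop
      abel
    have hBS : B S = Q S - ∑ b, (Ao b (Ao b S) - (1 / 2 : ℂ) • (X b (Ao b S) + Ao b (X b S)) +
        (1 / 4 : ℂ) • X b (X b S)) + (up ^ 2) (W S) := by
      rw [hB]
      simp only [sq_expand, LinearMap.add_apply, LinearMap.sub_apply, LinearMap.sum_apply,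
        LinearMap.smul_apply, Module.End.mul_apply]
    have hkey : (up ^ k) (Tgeo (fun b i => tay (sc A (gf b i)))
        (fun b => dn 1 (tay (sc A (xf b)))) (dn 2 (tay (sc A qf))) (fun b => tay (Ξf b))
        (tay Wf) P) = Sm N (fun j => (up ^ 2) (R j)) := by
      rw [hTg, htot]
      simp only [LinearMap.add_apply, LinearMap.sub_apply, LinearMap.smul_apply,
        Module.End.one_apply, map_add, map_sub, map_smul]
      have f1 := nn_up_pow_apply k P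
      rw [hSP] at f1
      have f2 := comm_apply (comm_eu (n := n) (A := A)) k P
      rw [hSP] at f2
      have f3 := comm_apply cB k P
      rw [hSP] at f3
      rw [← f2, ← f3, hBS, hSP]
      have f4 : (up ^ k) (nn P) = nn S - (k : ℂ) • S := by
        rw [f1]
        abel
      rw [f4]
      have f5 : (N : ℂ) = (1 / 2 : ℂ) * (k : ℂ) + (n / 2 : ℂ) := by
        have : ((k + n : ℕ) : ℂ) = ((2 * N : ℕ) : ℂ) := by rw [hkN]
        push_cast at this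
        linear_combination -(1 / 2 : ℂ) * this
      rw [f5, add_smul, smul_sub, smul_smul]
      abel
    intro w hw
    have h1 := hlhs (w + k) (by omega)
    rw [← hkey, up_pow, if_pos (by omega), Nat.add_sub_cancel] at h1
    exact h1
  · -- the initial value
    rw [hP]
    show S (0 + k) = _
    rw [zero_add, hS, Sm_apply, sum_eq_single (N - l)]
    · rw [if_pos (by omega)]
      have e1 : (((N - l : ℕ) : ℤ) - N) = -(l : ℤ) := by omega
      have e2 : k - 2 * (N - l) = 0 := by omega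
      rw [e1, e2, hT]
      refine Pl.ext fun z => ?_
      rw [tay_zero', pc_apply]
    · intro i _ hi
      split_ifs with h1
      · have h2 : (i : ℤ) - N < -(l : ℤ) := by omega
        rw [hT]
        refine tay_eq_zero (hκ _) _ (hlow _ h2) _ ?_
        omega
      · rfl
    · intro h
      exfalso
      apply h
      rw [mem_range]
      omega
  · -- the value at `0` in weight `n`
    rw [hP]
    show (S (n + k)).1 0 = _
    rw [hS, Sm_apply]
    have e0 : (((∑ i ∈ range (2 * N + 1), if 2 * i ≤ n + k then T ((i : ℤ) - N) (n + k - 2 * i)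
        else 0 : Pl n A)) : En n → A) 0 = ∑ i ∈ range (2 * N + 1),
        ((if 2 * i ≤ n + k then T ((i : ℤ) - N) (n + k - 2 * i) else 0 : Pl n A) : En n → A) 0 := by
      rw [AddSubmonoidClass.coe_finsetSum, Finset.sum_apply]
    refine e0.trans ?_
    rw [sum_eq_single N]
    · rw [if_pos (by omega)]
      have e1 : ((N : ℤ) - N) = 0 := by omega
      have e2 : n + k - 2 * N = 0 := by omega
      rw [e1, e2, hT]
      exact tay_zero' _ _
    · intro i _ hi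
      split_ifs with h1
      · rw [hT]
        show hp (n + k - 2 * i) (κ ((i : ℤ) - N)) 0 = 0
        have h2 := (hp_homog (n + k - 2 * i) (κ ((i : ℤ) - N))).2 0 0
        rw [smul_zero, zero_pow (by omega), zero_smul] at h2
        exact h2
      · rfl
    · intro h
      exfalso
      apply h
      rw [mem_range]
      omega

end Pool.Agent.EXO.L
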