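import Pool.Agent.EXO.LgDef

/-!
# EXO / LgJ : local parametrizations, symmetry of the second fundamental form (IDX-L)

Let `y ∈ V`, `IsChart V.carrier U ψ O κ` with `y ∈ O`, `u₀ = κ y`.  `κ (ψ u) = u` on `U`, so
`Dκ(ψ u) ∘ Dψ(u) = id` (`IsOpen`, chain rule); `P (ψ u) v = v ↔ v ∈ range Dψ(u)` (`P_range`).
* `range_P`: `P (ψ u) w ∈ range Dψ(u)` (idempotence), so `Dψ(u) (Dκ(ψ u) (P (ψ u) w)) = P (ψ u) w`.
* `P_eq_sum`: `finrank (range P(y)) = finrank (range Dψ(u₀)) = n` (`Dψ(u₀)` is injective), the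
  orthonormal family `v` (n vectors in this n-dimensional space) spans it; `P(y) w - ∑ ⟨v_i, w⟩ v_i` lies
  in the range and is orthogonal to all `v_i` (`P` symmetric), so it is zero.
* `symII`: let `x ∈ V`, chart at `x`, `F(u) = P(ψ u) Dψ(u) ξ - Dψ(u) ξ = 0` on `U`.  Differentiate at
  `u₀ = κ x` in the direction `η`: `(DP(x)(Dψ η)) Dψ ξ + P(x) D²ψ(η, ξ) - D²ψ(η, ξ) = 0`; so
  `(DP(x) v) w = (1 - P(x)) D²ψ(u₀)(η, ξ)` for `v = Dψ η`, `w = Dψ ξ`, symmetric in `ξ, η` by the symmetry of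
  second derivatives (`ContDiffAt.isSymmSndFDerivAt`); every tangent vector is of this form.
* `exists_param`: let `L : ℝ^n → ℝ^n`, `L z = Dκ(y) (∑ z_i v_i)`.  `Dψ(u₀) (L z) = ∑ z_i v_i` (as
  `∑ z_i v_i` is tangent); `L` is injective, hence a linear isomorphism.  Put
  `φ z = ψ (u₀ + L z)`, `G z w = L⁻¹ (Dκ(φ z) (P (φ z) w))`.  Then `Dφ(z) = Dψ(u₀ + Lz) ∘ L`,
  `Dφ(z)(G z w) = Dψ(..)(Dκ(φ z)(P(φ z) w)) = P (φ z) w` by `range_P`.  Smoothness at `0`:
  `ContDiffOn` on open sets gives `ContDiffAt`; `z ↦ fderiv ℝ κ (φ z)` is smooth at `0`.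
  `Dφ(0) e_i = Dψ(u₀)(L e_i) = v_i`.  `G 0 w = L⁻¹ (Dκ(y) (P(y) w)) = L⁻¹ (Dκ(y) ∑ ⟨v_i, w⟩ v_i) =
  (⟨v_i, w⟩)_i` by `P_eq_sum`.
-/

set_option autoImplicit false
set_option maxSynthPendingDepth 3

open scoped ContDiff Topology
open Finset Matrix

noncomputable section

namespace Pool.Agent.EXO.L

variable {n M : ℕ}

private theorem LgJ_two : (2 : WithTop ℕ∞) ≤ ∞ := by
  have h : ((2 : ℕ∞) : WithTop ℕ∞) ≤ ((⊤ : ℕ∞) : WithTop ℕ∞) := WithTop.coe_le_coe.2 le_top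
  exact h

private theorem LgJ_cd {V : Geo n M} {U : Set (En n)} {ψ : En n → En M} {O : Set (En M)}
    {κ : En M → En n} (hC : IsChart V.carrier U ψ O κ) {u : En n} (hu : u ∈ U) :
    ContDiffAt ℝ ∞ ψ u ∧ ContDiffAt ℝ ∞ κ (ψ u) :=
  ⟨hC.smoothψ.contDiffAt (hC.openU.mem_nhds hu),
    hC.smoothκ.contDiffAt (hC.openO.mem_nhds (hC.maps u hu).2)⟩

private theorem LgJ_comp {V : Geo n M} {U : Set (En n)} {ψ : En n → En M} {O : Set (En M)}
    {κ : En M → En n} (hC : IsChart V.carrier U ψ O κ) {u : En n} (hu : u ∈ U) (ξ : En n) :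
    fderiv ℝ κ (ψ u) (fderiv ℝ ψ u ξ) = ξ := by
  obtain ⟨h1, h2⟩ := LgJ_cd hC hu
  have h3 : HasFDerivAt ψ (fderiv ℝ ψ u) u :=
    (h1.differentiableAt (by simp)).hasFDerivAt
  have h4 : HasFDerivAt κ (fderiv ℝ κ (ψ u)) (ψ u) :=
    (h2.differentiableAt (by simp)).hasFDerivAt
  have h5 := h4.comp u h3
  have h6 : HasFDerivAt (κ ∘ ψ) (ContinuousLinearMap.id ℝ (En n)) u := by
    refine (hasFDerivAt_id u).congr_of_eventuallyEq ?_
    filter_upwards [hC.openU.mem_nhds hu] with z hz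
    exact hC.left z hz
  have h7 := h5.unique h6
  have h8 := congrArg (fun T : En n →L[ℝ] En n => T ξ) h7
  simpa using h8

private theorem LgJ_range {V : Geo n M} {U : Set (En n)} {ψ : En n → En M} {O : Set (En M)}
    {κ : En M → En n} (hC : IsChart V.carrier U ψ O κ) {u : En n} (hu : u ∈ U) (w : En M) :
    fderiv ℝ ψ u (fderiv ℝ κ (ψ u) (V.P (ψ u) w)) = V.P (ψ u) w := by
  have h1 : V.P (ψ u) (V.P (ψ u) w) = V.P (ψ u) w := V.P_idem _ (hC.maps u hu).1 w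
  obtain ⟨ξ, hξ⟩ := (V.P_range U ψ O κ hC u hu _).1 h1
  rw [← hξ, LgJ_comp hC hu ξ]

private theorem LgJ_tan {V : Geo n M} {U : Set (En n)} {ψ : En n → En M} {O : Set (En M)}
    {κ : En M → En n} (hC : IsChart V.carrier U ψ O κ) {u : En n} (hu : u ∈ U) {w : En M}
    (hw : V.P (ψ u) w = w) : fderiv ℝ ψ u (fderiv ℝ κ (ψ u) w) = w := by
  have h := LgJ_range hC hu w
  rwa [hw] at h

theorem symII (V : Geo n M) : SymII V := by
  intro x hx v w hv hw
  obtain ⟨U, ψ, O, κ, hC, hxO⟩ := V.chart x hx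
  have hu : κ x ∈ U := hC.mapsκ x ⟨hx, hxO⟩
  have hψ : ψ (κ x) = x := hC.right x ⟨hx, hxO⟩
  obtain ⟨h1, -⟩ := LgJ_cd hC hu
  have hv' : fderiv ℝ ψ (κ x) (fderiv ℝ κ x v) = v := by
    have h := LgJ_tan hC hu (w := v) (by rw [hψ]; exact hv)
    rwa [hψ] at h
  have hw' : fderiv ℝ ψ (κ x) (fderiv ℝ κ x w) = w := by
    have h := LgJ_tan hC hu (w := w) (by rw [hψ]; exact hw)
    rwa [hψ] at h
  have hsym : IsSymmSndFDerivAt ℝ ψ (κ x) := h1.isSymmSndFDerivAt (by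
    rw [minSmoothness_of_isRCLikeNormedField]
    exact LgJ_two)
  have key : ∀ ξ η : En n, fderiv ℝ V.P x (fderiv ℝ ψ (κ x) η) (fderiv ℝ ψ (κ x) ξ) =
      fderiv ℝ (fderiv ℝ ψ) (κ x) η ξ - V.P x (fderiv ℝ (fderiv ℝ ψ) (κ x) η ξ) := by
    intro ξ η
    have hΦ : HasFDerivAt (fderiv ℝ ψ) (fderiv ℝ (fderiv ℝ ψ) (κ x)) (κ x) := by
      have h2 : ContDiffAt ℝ 1 (fderiv ℝ ψ) (κ x) := h1.fderiv_right (by
        rw [one_add_one_eq_two]
        exact LgJ_two)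
      exact (h2.differentiableAt (by simp)).hasFDerivAt
    have hΦξ : HasFDerivAt (fun u => fderiv ℝ ψ u ξ)
        ((fderiv ℝ (fderiv ℝ ψ) (κ x)).flip ξ) (κ x) := by
      have h2 := hΦ.clm_apply (hasFDerivAt_const ξ (κ x))
      refine h2.congr_fderiv ?_
      ext z
      simp
    have hP : HasFDerivAt (fun u => V.P (ψ u)) ((fderiv ℝ V.P x).comp (fderiv ℝ ψ (κ x))) (κ x) := by
      have h3 : HasFDerivAt V.P (fderiv ℝ V.P x) (ψ (κ x)) := by
        rw [hψ]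
        exact ((V.smoothP.differentiable (by simp)) x).hasFDerivAt
      exact h3.comp (κ x) (h1.differentiableAt (by simp)).hasFDerivAt
    have h4 := hP.clm_apply hΦξ
    have h5 : HasFDerivAt (fun u => V.P (ψ u) (fderiv ℝ ψ u ξ))
        ((fderiv ℝ (fderiv ℝ ψ) (κ x)).flip ξ) (κ x) := by
      refine hΦξ.congr_of_eventuallyEq ?_
      filter_upwards [hC.openU.mem_nhds hu] with z hz
      exact (V.P_range U ψ O κ hC z hz _).2 ⟨ξ, rfl⟩
    have h6 := congrArg (fun T : En n →L[ℝ] En M => T η) (h4.unique h5)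
    simp only [_root_.add_apply, ContinuousLinearMap.comp_apply,
      ContinuousLinearMap.flip_apply] at h6
    rw [hψ] at h6
    exact eq_sub_of_add_eq' h6
  have h7 := key (fderiv ℝ κ x w) (fderiv ℝ κ x v)
  have h8 := key (fderiv ℝ κ x v) (fderiv ℝ κ x w)
  rw [hv', hw'] at h7 h8
  rw [h7, h8, hsym (fderiv ℝ κ x v) (fderiv ℝ κ x w)]

theorem P_eq_sum (V : Geo n M) {y : En M} (hy : y ∈ V.carrier) (v : Fin n → En M)
    (hv : Orthonormal ℝ v) (hP : ∀ i, V.P y (v i) = v i) (w : En M) :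
    V.P y w = ∑ i, (inner ℝ (v i) w : ℝ) • v i := by
  obtain ⟨U, ψ, O, κ, hC, hyO⟩ := V.chart y hy
  have hu : κ y ∈ U := hC.mapsκ y ⟨hy, hyO⟩
  have hψ : ψ (κ y) = y := hC.right y ⟨hy, hyO⟩
  let R : Submodule ℝ (En M) := LinearMap.range (fderiv ℝ ψ (κ y)).toLinearMap
  have hR : ∀ z, V.P y z = z → z ∈ R := by
    intro z hz
    have h := (V.P_range U ψ O κ hC (κ y) hu z).1 (by rw [hψ]; exact hz)
    obtain ⟨ξ, hξ⟩ := h
    exact ⟨ξ, hξ⟩
  have hle : Submodule.span ℝ (Set.range v) ≤ R := by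
    rw [Submodule.span_le]
    rintro _ ⟨i, rfl⟩
    exact hR _ (hP i)
  have hfin : Module.finrank ℝ R ≤ Module.finrank ℝ (Submodule.span ℝ (Set.range v)) := by
    rw [finrank_span_eq_card hv.linearIndependent, Fintype.card_fin]
    refine (LinearMap.finrank_range_le _).trans ?_
    simp
  have heq : Submodule.span ℝ (Set.range v) = R := Submodule.eq_of_le_of_finrank_le hle hfin
  have hmem : V.P y w ∈ Submodule.span ℝ (Set.range v) := by
    rw [heq]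
    exact hR _ (V.P_idem y hy w)
  obtain ⟨c, hc⟩ := (Submodule.mem_span_range_iff_exists_fun ℝ).1 hmem
  have hci : ∀ i, c i = inner ℝ (v i) w := by
    intro i
    have h1 := hv.inner_right_fintype c i
    rw [hc] at h1
    rw [← h1, ← V.P_sa y hy, hP i]
  rw [← hc]
  exact Finset.sum_congr rfl fun i _ => by rw [hci i]

theorem exists_param (V : Geo n M) {y : En M} (hy : y ∈ V.carrier) (v : Fin n → En M)
    (hv : Orthonormal ℝ v) (hP : ∀ i, V.P y (v i) = v i) :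
    ∃ (φ : En n → En M) (G : En n → (En M →L[ℝ] En n)),
      ContDiffAt ℝ ∞ φ 0 ∧ ContDiffAt ℝ ∞ G 0 ∧ φ 0 = y ∧
      (∀ᶠ z in 𝓝 (0 : En n), φ z ∈ V.carrier ∧ DifferentiableAt ℝ φ z ∧
        ∀ w, fderiv ℝ φ z (G z w) = V.P (φ z) w) ∧
      (∀ i, fderiv ℝ φ 0 (bv i) = v i) ∧ ∀ w i, G 0 w i = inner ℝ (v i) w := by
  obtain ⟨U, ψ, O, κ, hC, hyO⟩ := V.chart y hy
  have hu : κ y ∈ U := hC.mapsκ y ⟨hy, hyO⟩
  have hψ : ψ (κ y) = y := hC.right y ⟨hy, hyO⟩
  let W : En n →L[ℝ] En M := ∑ i, (EuclideanSpace.proj i : En n →L[ℝ] ℝ).smulRight (v i)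
  have hW : ∀ z, W z = ∑ i, z i • v i := by
    intro z
    simp [W]
  have hPW : ∀ z, V.P y (W z) = W z := by
    intro z
    rw [hW, map_sum]
    exact Finset.sum_congr rfl fun i _ => by rw [map_smul, hP i]
  let L : En n →L[ℝ] En n := (fderiv ℝ κ y).comp W
  have hL : ∀ z, fderiv ℝ ψ (κ y) (L z) = W z := by
    intro z
    have h := LgJ_tan hC hu (w := W z) (by rw [hψ]; exact hPW z)
    rw [hψ] at h
    exact h
  have hWin : ∀ z, ∀ i, inner ℝ (v i) (W z) = z i := by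
    intro z i
    rw [hW]
    exact hv.inner_right_fintype _ i
  have hinj : Function.Injective (L : En n →ₗ[ℝ] En n) := by
    intro a b hab
    have h1 : W a = W b := by
      rw [← hL, ← hL]
      exact congrArg _ hab
    ext i
    rw [← hWin a i, ← hWin b i, h1]
  let Le : En n ≃L[ℝ] En n :=
    (LinearEquiv.ofInjectiveEndo (L : En n →ₗ[ℝ] En n) hinj).toContinuousLinearEquiv
  have hLe : ∀ z, Le z = L z := fun z => rfl
  have hLs : ∀ z, L (Le.symm z) = z := by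
    intro z
    rw [← hLe]
    exact Le.apply_symm_apply z
  have haff : ContDiff ℝ ∞ fun z : En n => κ y + L z := contDiff_const.add L.contDiff
  have h00 : κ y + L 0 = κ y := by simp
  have hφ0 : ψ (κ y + L 0) = y := by rw [h00, hψ]
  have hφs : ContDiffAt ℝ ∞ (fun z => ψ (κ y + L z)) 0 := by
    have h1 : ContDiffAt ℝ ∞ ψ (κ y + L 0) := by
      rw [h00]
      exact (LgJ_cd hC hu).1
    exact h1.comp (0 : En n) haff.contDiffAt
  have hUe : ∀ᶠ z in 𝓝 (0 : En n), κ y + L z ∈ U := by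
    have h1 : Filter.Tendsto (fun z : En n => κ y + L z) (𝓝 0) (𝓝 (κ y + L 0)) :=
      haff.continuous.tendsto 0
    rw [h00] at h1
    exact h1 (hC.openU.mem_nhds hu)
  have hder : ∀ z, κ y + L z ∈ U →
      HasFDerivAt (fun z => ψ (κ y + L z)) ((fderiv ℝ ψ (κ y + L z)).comp L) z := by
    intro z hz
    have h1 : HasFDerivAt ψ (fderiv ℝ ψ (κ y + L z)) (κ y + L z) :=
      ((LgJ_cd hC hz).1.differentiableAt (by simp)).hasFDerivAt
    have h2 : HasFDerivAt (fun z : En n => κ y + L z) L z :=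
      L.hasFDerivAt.const_add (κ y)
    exact h1.comp z h2
  refine ⟨fun z => ψ (κ y + L z),
    fun z => (Le.symm : En n →L[ℝ] En n).comp
      ((fderiv ℝ κ (ψ (κ y + L z))).comp (V.P (ψ (κ y + L z)))), hφs, ?_, hφ0, ?_, ?_, ?_⟩
  · refine contDiffAt_const.clm_comp (ContDiffAt.clm_comp ?_ ?_)
    · have h1 : ContDiffAt ℝ ∞ (fderiv ℝ κ) (ψ (κ y + L 0)) := by
        rw [hφ0, ← hψ]
        exact (LgJ_cd hC hu).2.fderiv_right (by simp)
      exact h1.comp (0 : En n) hφs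
    · exact (V.smoothP.contDiffAt (x := ψ (κ y + L 0))).comp (0 : En n) hφs
  · filter_upwards [hUe] with z hz
    refine ⟨(hC.maps _ hz).1, (hder z hz).differentiableAt, fun w => ?_⟩
    rw [(hder z hz).fderiv]
    simp only [ContinuousLinearMap.comp_apply]
    have h1 : L ((Le.symm : En n →L[ℝ] En n) (fderiv ℝ κ (ψ (κ y + L z)) (V.P (ψ (κ y + L z)) w))) =
        fderiv ℝ κ (ψ (κ y + L z)) (V.P (ψ (κ y + L z)) w) := hLs _
    rw [h1]
    exact LgJ_range hC hz w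
  · intro i
    rw [(hder 0 (by rw [h00]; exact hu)).fderiv]
    simp only [ContinuousLinearMap.comp_apply]
    rw [h00, hL, hW]
    rw [Finset.sum_eq_single i]
    · simp [bv]
    · intro j _ hj
      simp [bv, hj]
    · intro h
      exact absurd (Finset.mem_univ i) h
  · intro w i
    simp only [ContinuousLinearMap.comp_apply]
    rw [hφ0, P_eq_sum V hy v hv hP w]
    have h1 : (∑ j, (inner ℝ (v j) w : ℝ) • v j) =
        W (WithLp.toLp 2 fun j => (inner ℝ (v j) w : ℝ)) := by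
      rw [hW]
    rw [h1]
    have h2 : (Le.symm : En n →L[ℝ] En n)
        (fderiv ℝ κ y (W (WithLp.toLp 2 fun j => (inner ℝ (v j) w : ℝ)))) =
        WithLp.toLp 2 fun j => (inner ℝ (v j) w : ℝ) :=
      Le.symm_apply_apply _
    rw [h2]

end Pool.Agent.EXO.L
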