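import Pool.Agent.EXO.LgK
import Pool.Agent.EXO.LgJ
import Pool.Agent.EXO.LToB

/-!
# EXO / LgL : the Taylor sequence of a formal heat kernel (IDX-L)

`φ`, `G` a local parametrization at `y` (`exists_param`).  Put `κ j z = k j (φ z, y)`,
`gf b i z = (G z (bv b)) i`, `xf b z = xb V b y (φ z)`, `qf z = phiK (φ z, y)`, `Ξf b z = lm (Xi V E b (φ z))`,
`Wf z = lm (Wt V E θ (φ z))` and apply `tot_eq`.
* `Dbf_eq`: for `f` smooth on `En M` and `z` near `0`:
  `Dbf (gf b) (Ξf b) (f ∘ φ) z = Db V E b f (φ z)`: `∑_i (G z e_b)_i D(f∘φ)(z)(e_i) = D(f∘φ)(z)(G z e_b) =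
  Df(φ z)(Dφ(z)(G z e_b)) = Df(φ z)(P e_b)`.
* the equality holds for all `z` in a neighbourhood, so it may be iterated
  (`Dbf` depends only on germs: `Filter.EventuallyEq.fderiv`).
* hence `resF … κ j z = 𝔇.fL k j (φ z, y)` for `z` near `0`, by `fL_eq`.
* `van_bigO`: if `Van V q h` then `z ↦ h (φ z, y)` is `O(‖z‖^q)`: induction on `q`; `φ z - y = O(‖z‖)`
  (differentiability), `h (φ z, y) = ∑_a (φ z - y)_a c_a(φ z, y)` for `φ z ∈ V`.
* `hres`: `Cls V m (fL k)`.  `hlow`: for `j < -l`, `(k - k0) j = k j` in `Van (1 - n - 2j).toNat`.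
* `hx0`: `φ 0 = y`.  `hq0`, `hq1`: `phiK (φ z, y) = ‖φ z - y‖²/4`, `O(‖z‖²)`, derivative zero at `0`.
* `P 0 = pc (k (-l) (y,y))` and `k (-l) (y,y) = Q y Q y = Q y`, because `(k - k0) (-l) ∈ Van 1` vanishes on
  the diagonal (`Van.diag`), `Q_idem`.
-/

set_option autoImplicit false
set_option maxSynthPendingDepth 3

open scoped ContDiff Topology
open Finset Matrix

noncomputable section

namespace Pool.Agent.EXO.L

variable {n M : ℕ} {V : Geo n M} {ι : Type} [Fintype ι] [DecidableEq ι]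
  {E : Bd V ι} {θ : Fin M → En M → Matrix ι ι ℂ} {𝔇 : Dirac V (HF M ι)}

private theorem LgL_cf {f : En M → Matrix ι ι ℂ} (hf : ContDiff ℝ ∞ f) :
    ContDiff ℝ ∞ (fun y => (cf (f y) : EH M ι)) := by
  obtain ⟨L, hL⟩ := cf_clm (M := M) (ι := ι)
  have h : (fun y => (cf (f y) : EH M ι)) = fun y => L (f y) := funext fun y => (hL (f y)).symm
  rw [h]
  exact L.contDiff.comp hf

private theorem LgL_coord {f : En M → En M} (hf : ContDiff ℝ ∞ f) (a : Fin M) :
    ContDiff ℝ ∞ (fun y => ((f y a : ℝ) : ℂ)) := by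
  have h1 : ContDiff ℝ ∞ (fun y => (EuclideanSpace.proj a : En M →L[ℝ] ℝ) (f y)) :=
    (EuclideanSpace.proj a : En M →L[ℝ] ℝ).contDiff.comp hf
  exact Complex.ofRealCLM.contDiff.comp h1

private theorem LgL_cv {f : En M → En M} (hf : ContDiff ℝ ∞ f) :
    ContDiff ℝ ∞ (fun y => (cv (f y) : EH M ι)) := by
  simp only [cv_eq_sum]
  exact ContDiff.sum fun a _ => (LgL_coord hf a).smul contDiff_const

private theorem LgL_Rr (b c : Fin M) : ContDiff ℝ ∞ (Rr V b c) := by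
  have h1 : ∀ b : Fin M, ContDiff ℝ ∞ (Pd V b) := contDiff_Pd
  unfold Rr
  exact (V.smoothP.clm_comp (((h1 b).clm_comp (h1 c)).sub ((h1 c).clm_comp (h1 b)))).clm_comp
    V.smoothP

private theorem LgL_Rkl (b c k l : Fin M) :
    ContDiff ℝ ∞ (fun x => (inner ℝ (bv k) (Rr V b c x (bv l)) : ℝ)) :=
  contDiff_const.inner ℝ ((LgL_Rr b c).clm_apply contDiff_const)

private theorem LgL_cfF (b c : Fin M) : ContDiff ℝ ∞ (fun x => (cf (Fbc V E b c x) : EH M ι)) := by
  have he := LgL_cf (M := M) E.smooth_e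
  have hd : ∀ b, ContDiff ℝ ∞ (fun x => (cf (td V b E.e x) : EH M ι)) := fun b =>
    LgL_cf (contDiff_td E.smooth_e b)
  have hA : ∀ b, ContDiff ℝ ∞ (fun x => (cf (E.A b x) : EH M ι)) := fun b => LgL_cf (E.smooth_A b)
  have hdA : ∀ b c, ContDiff ℝ ∞ (fun x => (cf (td V b (E.A c) x) : EH M ι)) := fun b c =>
    LgL_cf (contDiff_td (E.smooth_A c) b)
  unfold Fbc
  simp only [cf_add, cf_sub, cf_mul]
  exact (((he.mul (((hd b).mul (hd c)).sub ((hd c).mul (hd b)))).mul he).add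
    ((he.mul ((hdA b c).sub (hdA c b))).mul he)).add
      (((hA b).mul (hA c)).sub ((hA c).mul (hA b)))

/-- the derivative depends only on the germ -/
private theorem LgL_congr {A : Type*} [NormedAddCommGroup A] [NormedSpace ℂ A]
    {gf : Fin n → En n → ℝ} {Ξf : En n → (A →L[ℂ] A)} {f g : En n → A} {z : En n}
    (h : f =ᶠ[𝓝 z] g) : Dbf gf Ξf f z = Dbf gf Ξf g z := by
  unfold Dbf
  rw [h.fderiv_eq, h.eq_of_nhds]

private theorem LgL_exp (w : En n) : w = ∑ i, w i • (bv i : En n) := by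
  ext b
  simp [bv, Pi.single_apply]

private theorem LgL_Dbf {φ : En n → En M} {G : En n → (En M →L[ℝ] En n)} {z : En n}
    (hd : DifferentiableAt ℝ φ z) (hG : ∀ w, fderiv ℝ φ z (G z w) = V.P (φ z) w)
    {f : En M → EH M ι} (hf : ContDiff ℝ ∞ f) (b : Fin M) :
    Dbf (fun i z => G z (bv b) i) (fun z => lm (Xi V E b (φ z))) (fun z => f (φ z)) z =
      Db V E b f (φ z) := by
  unfold Dbf Db td
  rw [lm_apply]
  congr 1
  have h1 : fderiv ℝ (fun z => f (φ z)) z = (fderiv ℝ f (φ z)).comp (fderiv ℝ φ z) :=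
    fderiv_comp z ((hf.differentiable (by simp)) _) hd
  rw [h1, ← hG (bv b)]
  conv_rhs => rw [LgL_exp (G z (bv b)), map_sum, map_sum]
  refine sum_congr rfl fun i _ => ?_
  rw [map_smul, map_smul, ContinuousLinearMap.comp_apply]
  exact Complex.coe_smul _ _

/-- kernels in `Van q` are of order `q` in a parametrization -/
private theorem LgL_bigO {F : Type} [NormedAddCommGroup F] [NormedSpace ℝ F] {y : En M}
    (hy : y ∈ V.carrier) {φ : En n → En M} (hφ : ContDiffAt ℝ ∞ φ 0) (hφ0 : φ 0 = y)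
    (hφV : ∀ᶠ z in 𝓝 (0 : En n), φ z ∈ V.carrier) :
    ∀ (q : ℕ) (h : En M × En M → F), Van V.carrier q h →
      (fun z => h (φ z, y)) =O[𝓝 0] fun z => ‖z‖ ^ q := by
  have hd : DifferentiableAt ℝ φ 0 := hφ.differentiableAt (by simp)
  intro q
  induction q with
  | zero =>
    intro h hh
    have hc : ContDiff ℝ ∞ h := hh
    have h1 : ContinuousAt (fun z => (φ z, y)) 0 := hd.continuousAt.prodMk continuousAt_const
    have h2 : ContinuousAt (fun z => h (φ z, y)) 0 :=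
      ContinuousAt.comp (g := h) hc.continuous.continuousAt h1
    simp only [pow_zero]
    exact h2.tendsto.isBigO_one ℝ
  | succ q ih =>
    intro h hh
    obtain ⟨-, c, hc, hsum⟩ := hh
    have e : (fun z => h (φ z, y)) =ᶠ[𝓝 0] fun z => ∑ a, (φ z a - y a) • c a (φ z, y) := by
      filter_upwards [hφV] with z hz using hsum _ hz _ hy
    have h1 : (fun z => φ z - y) =O[𝓝 0] fun z => z := by
      have h2 := hd.isBigO_sub
      rw [hφ0] at h2
      simpa using h2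
    have h3 : ∀ a, (fun z => φ z a - y a) =O[𝓝 0] fun z => ‖z‖ := by
      intro a
      have h4 : (fun z => φ z a - y a) =O[𝓝 0] fun z => φ z - y := by
        refine Asymptotics.isBigO_of_le _ fun z => ?_
        have h5 := PiLp.norm_apply_le (φ z - y) a
        exact h5
      exact (h4.trans h1).norm_right
    refine Asymptotics.IsBigO.congr' (Asymptotics.IsBigO.fun_sum
      (A := fun a z => (φ z a - y a) • c a (φ z, y)) (s := univ)
      (g := fun z => ‖z‖ ^ (q + 1)) fun a _ => ?_) e.symm Filter.EventuallyEq.rfl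
    have h6 := (h3 a).smul (ih (c a) (hc a))
    refine h6.congr_right fun z => ?_
    rw [smul_eq_mul, pow_succ']

theorem contDiff_Wt (hθ : ThOK V E θ) : ContDiff ℝ ∞ (Wt V E θ) := by
  have hP : ∀ b : Fin M, ContDiff ℝ ∞ fun x => V.P x (bv b) := fun b =>
    V.smoothP.clm_apply contDiff_const
  have hcv : ∀ b, ContDiff ℝ ∞ fun x => (cv (V.P x (bv b)) : EH M ι) := fun b => LgL_cv (hP b)
  have hΨ := contDiff_Psi (M := M) hθ
  have hrho : ContDiff ℝ ∞ fun x => ((rho V x : ℝ) : ℂ) := by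
    have h1 : ContDiff ℝ ∞ (rho V) := by
      unfold rho
      exact contDiff_const.mul (ContDiff.sum fun b _ => ContDiff.sum fun c _ => LgL_Rkl b c b c)
    exact Complex.ofRealCLM.contDiff.comp h1
  unfold Wt
  refine ContDiff.add (ContDiff.add (ContDiff.add ?_ ?_) ?_) (hΨ.mul hΨ)
  · exact hrho.smul contDiff_const
  · refine ContDiff.fun_smul contDiff_const (ContDiff.sum fun b _ => ContDiff.sum fun c _ => ?_)
    refine ((hcv b).mul (hcv c)).mul (ContDiff.add ?_ (LgL_cfF b c))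
    refine ContDiff.fun_smul contDiff_const (ContDiff.sum fun k _ => ContDiff.sum fun l _ => ?_)
    exact (Complex.ofRealCLM.contDiff.comp (LgL_Rkl b c k l)).smul contDiff_const
  · refine ContDiff.sum fun b _ => (hcv b).mul ((contDiff_td hΨ b).add ?_)
    exact ((contDiff_Xi E b).mul hΨ).sub (hΨ.mul (contDiff_Xi E b))

theorem heat_seq (hD : SigOf V E θ 𝔇) (hθ : ThOK V E θ) (hloc : V.Loc) (hS : SymII V) (l : ℕ)
    (hn : n = 2 * l) {y : En M} (hy : y ∈ V.carrier) {φ : En n → En M}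
    {G : En n → (En M →L[ℝ] En n)} (hφ : ContDiffAt ℝ ∞ φ 0) (hG : ContDiffAt ℝ ∞ G 0)
    (hφ0 : φ 0 = y)
    (hφV : ∀ᶠ z in 𝓝 (0 : En n), φ z ∈ V.carrier ∧ DifferentiableAt ℝ φ z ∧
        ∀ w, fderiv ℝ φ z (G z w) = V.P (φ z) w)
    (m : ℕ) {k : Dirac.FK M (HF M ι)} (hk : 𝔇.IsHeat l m k) :
    ∃ P : Sq n (EH M ι), (∀ w < m + 2,
      Tgeo (fun b i => tay (sc (EH M ι) fun z => G z (bv b) i))
        (fun b => dn 1 (tay (sc (EH M ι) fun z => xb V b y (φ z))))
        (dn 2 (tay (sc (EH M ι) fun z => phiK (φ z, y))))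
        (fun b => tay fun z => lm (Xi V E b (φ z)))
        (tay fun z => lm (Wt V E θ (φ z))) P w = 0) ∧
      P 0 = pc (𝔇.Q y) ∧ (P n).1 0 = k 0 (y, y) := by
  have hd0 : DifferentiableAt ℝ φ 0 := hφ.differentiableAt (by simp)
  have hφc : ∀ᶠ z in 𝓝 (0 : En n), φ z ∈ V.carrier := hφV.mono fun z hz => hz.1
  have hk' : ∀ j, ContDiff ℝ ∞ (k j) := hk.fs.1
  obtain ⟨J, hJ⟩ := hk.fs.2
  -- slices
  have hsl : ∀ j, ContDiff ℝ ∞ (fun x' => k j (x', y)) := fun j =>
    ContDiff.comp (g := k j) (hk' j) (contDiff_id.prodMk contDiff_const)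
  have hκ : ∀ j, ContDiffAt ℝ ∞ (fun z => k j (φ z, y)) 0 := fun j =>
    ContDiffAt.comp (g := fun x' => k j (x', y)) 0 (hsl j).contDiffAt hφ
  have hg : ∀ (b : Fin M) (i : Fin n), ContDiffAt ℝ ∞ (fun z => G z (bv b) i) 0 := by
    intro b i
    have h1 : ContDiffAt ℝ ∞ (fun z => G z (bv b)) 0 := hG.clm_apply contDiffAt_const
    exact ContDiffAt.comp (g := fun w : En n => (EuclideanSpace.proj i : En n →L[ℝ] ℝ) w) 0
      (EuclideanSpace.proj i : En n →L[ℝ] ℝ).contDiff.contDiffAt h1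
  have hx : ∀ b, ContDiffAt ℝ ∞ (fun z => xb V b y (φ z)) 0 := fun b =>
    ContDiffAt.comp (g := xb V b y) 0 (contDiff_xb b y).contDiffAt hφ
  have hphi : ContDiff ℝ ∞ (fun x' : En M => phiK (x', y)) := by
    unfold phiK
    exact ((contDiff_id.sub contDiff_const).norm_sq ℝ).div_const _
  have hq : ContDiffAt ℝ ∞ (fun z => phiK (φ z, y)) 0 :=
    ContDiffAt.comp (g := fun x' : En M => phiK (x', y)) 0 hphi.contDiffAt hφ
  have hlm : ContDiff ℝ ∞ (fun a : EH M ι => (lm a : EH M ι →L[ℂ] EH M ι)) :=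
    ((ContinuousLinearMap.mul ℂ (EH M ι)).restrictScalars ℝ).contDiff
  have hΞ : ∀ b, ContDiffAt ℝ ∞ (fun z => lm (Xi V E b (φ z))) 0 := fun b =>
    ContDiffAt.comp (g := fun x' => lm (Xi V E b x')) 0
      (hlm.comp (contDiff_Xi E b)).contDiffAt hφ
  have hW : ContDiffAt ℝ ∞ (fun z => lm (Wt V E θ (φ z))) 0 :=
    ContDiffAt.comp (g := fun x' => lm (Wt V E θ x')) 0
      (hlm.comp (contDiff_Wt hθ)).contDiffAt hφ
  have hx0 : ∀ b, xb V b y (φ 0) = 0 := by
    intro b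
    rw [hφ0]
    unfold xb
    rw [sub_self, inner_zero_left]
  have hq0 : phiK (φ 0, y) = 0 := by
    rw [hφ0]
    unfold phiK
    simp
  have hq1 : fderiv ℝ (fun z => phiK (φ z, y)) 0 = 0 := by
    have h1 : fderiv ℝ (fun z => phiK (φ z, y)) 0 =
        (fderiv ℝ (fun x' : En M => phiK (x', y)) (φ 0)).comp (fderiv ℝ φ 0) :=
      fderiv_comp 0 ((hphi.differentiable (by simp)) _) hd0
    have h2 : fderiv ℝ (fun x' : En M => phiK (x', y)) (φ 0) = 0 := by
      rw [hφ0]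
      refine IsLocalMin.fderiv_eq_zero ?_
      refine Filter.Eventually.of_forall fun x' => ?_
      unfold phiK
      simp only [sub_self, norm_zero]
      rw [show ((0 : ℝ) ^ 2 / 4) = 0 by norm_num]
      positivity
    rw [h1, h2, ContinuousLinearMap.zero_comp]
  -- the residual
  have hev : ∀ᶠ z in 𝓝 (0 : En n), ∀ᶠ z' in 𝓝 z, φ z' ∈ V.carrier ∧ DifferentiableAt ℝ φ z' ∧
      ∀ w, fderiv ℝ φ z' (G z' w) = V.P (φ z') w := hφV.eventually_nhds
  have hresE : ∀ j : ℤ, (fun z => 𝔇.fL k j (φ z, y)) =ᶠ[𝓝 0]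
      resF (fun b i z => G z (bv b) i) (fun b z => xb V b y (φ z)) (fun z => phiK (φ z, y))
        (fun b z => lm (Xi V E b (φ z))) (fun z => lm (Wt V E θ (φ z)))
        (fun j z => k j (φ z, y)) j := by
    intro j
    filter_upwards [hev] with z hz
    obtain ⟨hzV, hzd, hzG⟩ := hz.self_of_nhds
    have D1 : ∀ (f : En M → EH M ι), ContDiff ℝ ∞ f → ∀ b,
        Dbf (fun i z => G z (bv b) i) (fun z => lm (Xi V E b (φ z))) (fun z => f (φ z)) z =
          Db V E b f (φ z) := fun f hf b => LgL_Dbf hzd hzG hf b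
    have D2 : ∀ (f : En M → EH M ι), ContDiff ℝ ∞ f → ∀ b,
        Dbf (fun i z => G z (bv b) i) (fun z => lm (Xi V E b (φ z)))
          (Dbf (fun i z => G z (bv b) i) (fun z => lm (Xi V E b (φ z))) (fun z => f (φ z))) z =
          Db V E b (Db V E b f) (φ z) := by
      intro f hf b
      rw [← D1 (Db V E b f) (contDiff_Db hf b) b]
      refine LgL_congr ?_
      filter_upwards [hz] with z' hz'
      exact LgL_Dbf hz'.2.1 hz'.2.2 hf b
    rw [fL_eq hD hθ hloc hS hk.fs hk.ql j hzV hy]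
    unfold resF
    have hxs : ∀ b, ContDiff ℝ ∞ (fun x' => ((xb V b y x' : ℝ) : ℂ) • k (j + 1) (x', y)) :=
      fun b => (Complex.ofRealCLM.contDiff.comp (contDiff_xb b y)).smul (hsl (j + 1))
    congr 1
    congr 1
    refine sum_congr rfl fun b _ => ?_
    rw [D2 _ (hsl j) b, D1 _ (hsl (j + 1)) b, D1 _ (hxs b) b]
  have hres : ∀ j : ℤ, (resF (fun b i z => G z (bv b) i) (fun b z => xb V b y (φ z))
      (fun z => phiK (φ z, y)) (fun b z => lm (Xi V E b (φ z))) (fun z => lm (Wt V E θ (φ z)))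
      (fun j z => k j (φ z, y)) j) =O[𝓝 0] fun z => ‖z‖ ^ ((m : ℤ) - n - 2 * j).toNat := by
    intro j
    have h1 := LgL_bigO (V := V) hy hφ hφ0 hφc _ (𝔇.fL k j) (hk.heat.2 j)
    exact h1.congr' (hresE j) Filter.EventuallyEq.rfl
  have hlow : ∀ j : ℤ, j < -(l : ℤ) → (fun z => k j (φ z, y)) =O[𝓝 0]
      fun z => ‖z‖ ^ ((1 : ℤ) - n - 2 * j).toNat := by
    intro j hj
    have h1 := LgL_bigO (V := V) hy hφ hφ0 hφc _ ((k - 𝔇.k0 l) j) (hk.lead.2 j)
    have h2 : (k - 𝔇.k0 l) j = k j := by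
      have h3 : 𝔇.k0 l j = 0 := by
        funext p
        unfold Dirac.k0
        rw [if_neg hj.ne]
        rfl
      rw [Pi.sub_apply, h3, sub_zero]
    rw [h2] at h1
    exact h1
  obtain ⟨P, hP1, hP2, hP3⟩ := tot_eq (A := EH M ι) l hn (fun j z => k j (φ z, y)) hκ J
    (fun j hj => by
      funext z
      rw [hJ j hj]
      rfl)
    (fun b i z => G z (bv b) i) hg (fun b z => xb V b y (φ z)) hx (fun z => phiK (φ z, y)) hq
    (fun b z => lm (Xi V E b (φ z))) hΞ (fun z => lm (Wt V E θ (φ z))) hW hx0 hq0 hq1 m hres hlow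
  refine ⟨P, hP1, ?_, ?_⟩
  · rw [hP2, hφ0]
    congr 1
    have h1 : Van V.carrier (0 + 1) ((k - 𝔇.k0 l) (-(l : ℤ))) := by
      have h2 := hk.lead.2 (-(l : ℤ))
      have h3 : ((1 : ℤ) - n - 2 * -(l : ℤ)).toNat = 0 + 1 := by
        rw [hn]
        push_cast
        omega
      rw [h3] at h2
      exact h2
    have h4 := h1.diag hy
    have h5 : (k - 𝔇.k0 l) (-(l : ℤ)) (y, y) = k (-(l : ℤ)) (y, y) - 𝔇.Q y * 𝔇.Q y := by
      rw [Pi.sub_apply, Pi.sub_apply]
      congr 1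
      unfold Dirac.k0
      simp
    rw [h5, 𝔇.Q_idem y hy, sub_eq_zero] at h4
    exact h4
  · rw [hP3, hφ0]

end Pool.Agent.EXO.L
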