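import Pool.Agent.EXO.LLeB
import Pool.Agent.EXO.LgL

/-!
# EXO / LLeC : the Taylor sequences of the geometric coefficients satisfy `LeadOK` (IDX-L)

`a b i = (v i) b`.
* `orth`: `∑_b (v i) b (v j) b = ⟨v_i, v_j⟩`.
* `g0`: `tay_zero'`, `G 0 (bv b) i = ⟨v_i, bv b⟩ = (v i) b`.  `gs`, `xs'`, `qs'`: `tay_sc`.
* `x0`: `tay_one`: the derivative of `z ↦ ⟨φ z - y, P(φ z) e_b⟩` at `0` in the direction `z` is
  `⟨∑ z_i v_i, P(y) e_b⟩ = ∑ z_i (v i) b`.
* `q0`: `phiK (φ z, y) - ‖z‖²/4 = O(‖z‖³)` (`φ z - y = ∑ z_i v_i + O(‖z‖²)`, `‖∑ z_i v_i‖ = ‖z‖`), so the part of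
  weight two of the Taylor sequence is `‖z‖²/4` (`tay_eq_zero`, `tay_sub`, `tay_homog`).
* `XG`, `YG`, `FG`: `X_mem`, `Y_mem`, `F_mem`.
* `xiG`, `xi2`: by `Xi_mem` all values `lm (Xi V E b (φ z))` are in the subspace of operators `T` with
  `T (Gf q) ⊆ Gf (q+2)`; by `tay_mem` so are all Taylor coefficients; `Gf_mono`.  For `xiG` with `w = 0`:
  `(ξ b 0) z = lm (Xi V E b y)` (`tay_zero'`), use `Xi_lead` and `X_mem` for `q = q' + 1`; for `q = 0`, `x = 0`.
* `xi0`: `Xi_lead`.  `xi1`: `(ξ b 1) z = lm (D(Xi b ∘ φ)(0) z) = ∑_m z_m lm (fderiv (Xi b) y (v m))` (`tay_one`,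
  chain rule), `dXi_lead`.
* `WG`, `W1`: `Wt_mem` and `tay_mem` (for `z` near `0`, `φ z ∈ V`).  `W0`: `tay_zero'`, `Wt_lead`.
-/

set_option autoImplicit false
set_option maxSynthPendingDepth 3

open scoped ContDiff Topology
open Finset Matrix

noncomputable section

namespace Pool.Agent.EXO.L

variable {n M : ℕ} {ι : Type} [Fintype ι] [DecidableEq ι] {V : Geo n M} {E : Bd V ι}
  {θ : Fin M → En M → Matrix ι ι ℂ} {y : En M} {v : Fin n → En M}

/-- `t ↦ t • 1`. -/
private def llec_L (A : Type*) [NormedAddCommGroup A] [NormedSpace ℂ A] : ℝ →L[ℝ] (A →L[ℂ] A) :=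
  (ContinuousLinearMap.toSpanSingleton ℝ (1 : A →L[ℂ] A))

private theorem llec_L_apply {A : Type*} [NormedAddCommGroup A] [NormedSpace ℂ A] (t : ℝ) :
    llec_L A t = ((t : ℝ) : ℂ) • (1 : A →L[ℂ] A) := by
  change t • (1 : A →L[ℂ] A) = _
  exact (Complex.coe_smul t (1 : A →L[ℂ] A)).symm

private theorem llec_sc {A : Type*} [NormedAddCommGroup A] [NormedSpace ℂ A] {r : En n → ℝ}
    (hr : ContDiffAt ℝ ∞ r 0) (w : ℕ) (z : En n) :
    (tay (sc A r) w).1 z =
      (((w.factorial : ℝ)⁻¹ * iteratedFDeriv ℝ w r 0 (fun _ => z) : ℝ) : ℂ) •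
        (1 : A →L[ℂ] A) := by
  have h0 : sc A r = llec_L A ∘ r := by
    funext z
    rw [Function.comp_apply, llec_L_apply]
    rfl
  have h1 : (tay (sc A r) w).1 z =
      ((w.factorial : ℝ)⁻¹) • iteratedFDeriv ℝ w (sc A r) 0 (fun _ => z) := rfl
  have h2 : iteratedFDeriv ℝ w (llec_L A ∘ r) 0 =
      (llec_L A).compContinuousMultilinearMap (iteratedFDeriv ℝ w r 0) :=
    (llec_L A).iteratedFDeriv_comp_left hr (i := w) (WithTop.coe_le_coe.2 le_top)
  rw [h1, h0, h2, ← llec_L_apply]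
  change ((w.factorial : ℝ)⁻¹) • llec_L A (iteratedFDeriv ℝ w r 0 (fun _ => z)) = _
  rw [← map_smul, smul_eq_mul]

/-- operators of degree two for a filtration -/
private def llec_U {A : Type*} [NormedAddCommGroup A] [NormedSpace ℂ A]
    (S : ℕ → Submodule ℂ A) (q : ℕ) : Submodule ℂ (A →L[ℂ] A) where
  carrier := {T | ∀ x ∈ S q, T x ∈ S (q + 2)}
  zero_mem' := fun _ _ => Submodule.zero_mem _
  add_mem' := fun {_ _} h1 h2 x hx => Submodule.add_mem _ (h1 x hx) (h2 x hx)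
  smul_mem' := fun c _ h1 x hx => Submodule.smul_mem _ c (h1 x hx)

private theorem llec_exp (w : En n) : w = ∑ i, w i • (bv i : En n) := by
  ext b
  simp [bv, Pi.single_apply]

private theorem llec_fd {φ : En n → En M} (hφ1 : ∀ i, fderiv ℝ φ 0 (bv i) = v i) (z : En n) :
    fderiv ℝ φ 0 z = ∑ i, z i • v i := by
  conv_lhs => rw [llec_exp z, map_sum]
  exact sum_congr rfl fun i _ => by rw [map_smul, hφ1]

private theorem llec_vb (h : PtB V y v) (i : Fin n) (b : Fin M) :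
    (inner ℝ (v i) (V.P y (bv b)) : ℝ) = v i b := by
  rw [← V.P_sa y h.mem, h.tan]
  simp [bv, EuclideanSpace.inner_single_right]

private theorem llec_x1 (h : PtB V y v) {φ : En n → En M} (hφ : ContDiffAt ℝ ∞ φ 0)
    (hφ0 : φ 0 = y) (hφ1 : ∀ i, fderiv ℝ φ 0 (bv i) = v i) (b : Fin M) (z : En n) :
    fderiv ℝ (fun z => xb V b y (φ z)) 0 z = ∑ i, v i b * z i := by
  have hd : HasFDerivAt φ (fderiv ℝ φ 0) 0 := (hφ.differentiableAt (by simp)).hasFDerivAt
  have hP : HasFDerivAt (fun x => V.P x (bv b)) (fderiv ℝ (fun x => V.P x (bv b)) (φ 0)) (φ 0) :=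
    ((V.smoothP.clm_apply contDiff_const).differentiable (by simp) _).hasFDerivAt
  have h1 := (hd.sub_const y).inner ℝ (hP.comp 0 hd)
  have h2 : (fun z => xb V b y (φ z)) = fun z => inner ℝ (φ z - y) (V.P (φ z) (bv b)) := rfl
  rw [h2]
  have h3 := h1.fderiv
  simp only [Function.comp_apply] at h3
  rw [h3]
  simp only [ContinuousLinearMap.comp_apply, ContinuousLinearMap.prod_apply,
    fderivInnerCLM_apply, hφ0, sub_self, inner_zero_left, zero_add]
  rw [llec_fd hφ1, sum_inner]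
  refine sum_congr rfl fun i _ => ?_
  rw [real_inner_smul_left, llec_vb h, mul_comm]

private theorem llec_nrm (h : PtB V y v) (z : En n) :
    (inner ℝ (∑ i, z i • v i) (∑ i, z i • v i) : ℝ) = ‖z‖ ^ 2 := by
  rw [sum_inner, EuclideanSpace.norm_sq_eq]
  refine sum_congr rfl fun i _ => ?_
  rw [inner_sum, Finset.sum_eq_single i]
  · rw [real_inner_smul_left, real_inner_smul_right, h.inn, if_pos rfl, Real.norm_eq_abs, sq_abs]
    ring
  · intro j _ hj
    rw [real_inner_smul_left, real_inner_smul_right, h.inn, if_neg hj.symm, mul_zero, mul_zero]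
  · intro hi
    exact absurd (mem_univ i) hi

private theorem llec_q2 (h : PtB V y v) {φ : En n → En M} (hφ : ContDiffAt ℝ ∞ φ 0)
    (hφ0 : φ 0 = y) (hφ1 : ∀ i, fderiv ℝ φ 0 (bv i) = v i) (z : En n) :
    fderiv ℝ (fderiv ℝ fun z => phiK (φ z, y)) 0 z z = ‖z‖ ^ 2 / 2 := by
  have hd : ∀ᶠ z' in 𝓝 (0 : En n), DifferentiableAt ℝ φ z' :=
    ((hφ.of_le (m := 1) (by simp)).eventually (by simp)).mono fun z' hz' =>
      hz'.differentiableAt (by simp)
  have hq : ContDiffAt ℝ ∞ (fun z => phiK (φ z, y)) 0 := by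
    have hphi : ContDiff ℝ ∞ (fun x' : En M => phiK (x', y)) := by
      unfold phiK
      exact ((contDiff_id.sub contDiff_const).norm_sq ℝ).div_const _
    exact ContDiffAt.comp (g := fun x' : En M => phiK (x', y)) 0 hphi.contDiffAt hφ
  -- first derivative in the direction z
  have h1 : (fun z' => fderiv ℝ (fun z => phiK (φ z, y)) z' z) =ᶠ[𝓝 0]
      fun z' => (1 / 2 : ℝ) * inner ℝ (φ z' - y) (fderiv ℝ φ z' z) := by
    filter_upwards [hd] with z' hz'
    have h2 := (hz'.hasFDerivAt.sub_const y).norm_sq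
    have h3 : (fun z => phiK (φ z, y)) = fun z => (1 / 4 : ℝ) * ‖φ z - y‖ ^ 2 := by
      funext u
      unfold phiK
      ring
    rw [h3, (h2.const_mul (1 / 4 : ℝ)).fderiv]
    simp only [_root_.smul_apply, ContinuousLinearMap.comp_apply, innerSL_apply_apply, smul_eq_mul,
      nsmul_eq_mul]
    push_cast
    ring
  have hfd : DifferentiableAt ℝ (fderiv ℝ fun z => phiK (φ z, y)) 0 :=
    (hq.fderiv_right (m := ∞) (by simp)).differentiableAt (by simp)
  have h4 : fderiv ℝ (fderiv ℝ fun z => phiK (φ z, y)) 0 z z =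
      fderiv ℝ (fun z' => fderiv ℝ (fun z => phiK (φ z, y)) z' z) 0 z := by
    rw [fderiv_clm_apply hfd (differentiableAt_const z)]
    simp
  rw [h4, h1.fderiv_eq]
  have hd0 : HasFDerivAt φ (fderiv ℝ φ 0) 0 := (hφ.differentiableAt (by simp)).hasFDerivAt
  have hd1 : DifferentiableAt ℝ (fun z' => fderiv ℝ φ z' z) 0 :=
    ((hφ.fderiv_right (m := ∞) (by simp)).clm_apply contDiffAt_const).differentiableAt (by simp)
  have h5 := ((hd0.sub_const y).inner ℝ hd1.hasFDerivAt).const_mul (1 / 2 : ℝ)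
  rw [h5.fderiv]
  simp only [_root_.smul_apply, ContinuousLinearMap.comp_apply, ContinuousLinearMap.prod_apply,
    fderivInnerCLM_apply, hφ0, sub_self, inner_zero_left, zero_add, smul_eq_mul]
  rw [llec_fd hφ1, llec_nrm h]
  ring

theorem leadOK (h : PtB V y v) (hθ : ThOK V E θ) {φ : En n → En M}
    {G : En n → (En M →L[ℝ] En n)} (hφ : ContDiffAt ℝ ∞ φ 0) (hG : ContDiffAt ℝ ∞ G 0)
    (hφ0 : φ 0 = y) (hφV : ∀ᶠ z in 𝓝 (0 : En n), φ z ∈ V.carrier)
    (hφ1 : ∀ i, fderiv ℝ φ 0 (bv i) = v i) (hG0 : ∀ w i, G 0 w i = inner ℝ (v i) w) :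
    LeadOK (geoM V E h).Gf (fun b i => v i b)
      (fun b i => tay (sc (EH M ι) fun z => G z (bv b) i))
      (fun b => dn 1 (tay (sc (EH M ι) fun z => xb V b y (φ z))))
      (dn 2 (tay (sc (EH M ι) fun z => phiK (φ z, y))))
      (fun b => tay fun z => lm (Xi V E b (φ z)))
      (tay fun z => lm (Wt V E θ (φ z)))
      (geoM V E h).X (geoM V E h).Y ((geoM V E h).F1 + (geoM V E h).F2) := by
  have hd0 : DifferentiableAt ℝ φ 0 := hφ.differentiableAt (by simp)
  have hg : ∀ (b : Fin M) (i : Fin n), ContDiffAt ℝ ∞ (fun z => G z (bv b) i) 0 := by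
    intro b i
    have h1 : ContDiffAt ℝ ∞ (fun z => G z (bv b)) 0 := hG.clm_apply contDiffAt_const
    exact ContDiffAt.comp (g := fun w : En n => (EuclideanSpace.proj i : En n →L[ℝ] ℝ) w) 0
      (EuclideanSpace.proj i : En n →L[ℝ] ℝ).contDiff.contDiffAt h1
  have hx : ∀ b, ContDiffAt ℝ ∞ (fun z => xb V b y (φ z)) 0 := fun b =>
    ContDiffAt.comp (g := xb V b y) 0 (contDiff_xb b y).contDiffAt hφ
  have hq : ContDiffAt ℝ ∞ (fun z => phiK (φ z, y)) 0 := by
    have hphi : ContDiff ℝ ∞ (fun x' : En M => phiK (x', y)) := by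
      unfold phiK
      exact ((contDiff_id.sub contDiff_const).norm_sq ℝ).div_const _
    exact ContDiffAt.comp (g := fun x' : En M => phiK (x', y)) 0 hphi.contDiffAt hφ
  have hlm : ContDiff ℝ ∞ (fun a : EH M ι => (lm a : EH M ι →L[ℂ] EH M ι)) :=
    ((ContinuousLinearMap.mul ℂ (EH M ι)).restrictScalars ℝ).contDiff
  have hΞ : ∀ b, ContDiffAt ℝ ∞ (fun z => lm (Xi V E b (φ z))) 0 := fun b =>
    ContDiffAt.comp (g := fun x' => lm (Xi V E b x')) 0
      (hlm.comp (contDiff_Xi E b)).contDiffAt hφ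
  have hW : ContDiffAt ℝ ∞ (fun z => lm (Wt V E θ (φ z))) 0 :=
    ContDiffAt.comp (g := fun x' => lm (Wt V E θ x')) 0
      (hlm.comp (contDiff_Wt hθ)).contDiffAt hφ
  have hmono : ∀ {p q : ℕ}, p ≤ q → (geoM V E h).Gf p ≤ (geoM V E h).Gf q := fun hpq =>
    (geoM V E h).toCSys.Gf_mono hpq
  -- the Taylor coefficients raise the degree by two
  have hXi2 : ∀ b w z q, ∀ x ∈ (geoM V E h).Gf q,
      ((tay (fun z => lm (Xi V E b (φ z))) w).1 z) x ∈ (geoM V E h).Gf (q + 2) := by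
    intro b w z q
    exact tay_mem (llec_U (geoM V E h).Gf q) (hΞ b)
      (Filter.Eventually.of_forall fun z x hx => Xi_mem h b (φ z) q hx) w z
  have hW2 : ∀ w z q, ∀ x ∈ (geoM V E h).Gf q,
      ((tay (fun z => lm (Wt V E θ (φ z))) w).1 z) x ∈ (geoM V E h).Gf (q + 2) := by
    intro w z q
    exact tay_mem (llec_U (geoM V E h).Gf q) hW
      (hφV.mono fun z hz x hx => Wt_mem h hθ hz q hx) w z
  have hXi0 : ∀ b z, (tay (fun z => lm (Xi V E b (φ z))) 0).1 z = lm (Xi V E b y) := by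
    intro b z
    have h1 := tay_zero' (fun z => lm (Xi V E b (φ z))) z
    rw [hφ0] at h1
    exact h1
  have hW0 : ∀ z, (tay (fun z => lm (Wt V E θ (φ z))) 0).1 z = lm (Wt V E θ y) := by
    intro z
    have h1 := tay_zero' (fun z => lm (Wt V E θ (φ z))) z
    rw [hφ0] at h1
    exact h1
  have hXi1 : ∀ b z x, ((tay (fun z => lm (Xi V E b (φ z))) 1).1 z) x =
      ∑ m, ((z m : ℝ) : ℂ) • (fderiv ℝ (Xi V E b) y (v m) * x) := by
    intro b z x
    have h1 : (tay (fun z => lm (Xi V E b (φ z))) 1).1 z =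
        fderiv ℝ (fun z => lm (Xi V E b (φ z))) 0 z := tay_one _ z
    have h2 : HasFDerivAt (fun z => Xi V E b (φ z))
        ((fderiv ℝ (Xi V E b) (φ 0)).comp (fderiv ℝ φ 0)) 0 :=
      HasFDerivAt.comp (g := Xi V E b) 0
        ((contDiff_Xi E b).differentiable (by simp) _).hasFDerivAt hd0.hasFDerivAt
    have h3 : HasFDerivAt (fun z => lm (Xi V E b (φ z)))
        (((ContinuousLinearMap.mul ℂ (EH M ι)).restrictScalars ℝ).comp
          ((fderiv ℝ (Xi V E b) (φ 0)).comp (fderiv ℝ φ 0))) 0 :=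
      HasFDerivAt.comp (g := fun a : EH M ι => (lm a : EH M ι →L[ℂ] EH M ι)) 0
        (((ContinuousLinearMap.mul ℂ (EH M ι)).restrictScalars ℝ).hasFDerivAt) h2
    rw [h1, h3.fderiv]
    change (fderiv ℝ (Xi V E b) (φ 0) (fderiv ℝ φ 0 z)) * x = _
    rw [hφ0, llec_fd hφ1, map_sum, Finset.sum_mul]
    refine sum_congr rfl fun m _ => ?_
    rw [map_smul, ← Complex.coe_smul, smul_mul_assoc]
  refine
    { orth := ?_
      g0 := ?_
      gs := fun b i w z => tay_sc _ w z (hg b i)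
      x0 := ?_
      xs' := fun b w z => tay_sc _ (w + 1) z (hx b)
      q0 := ?_
      qs' := fun w z => tay_sc _ (w + 2) z hq
      XG := fun i q x hx => (geoM V E h).X_mem i q hx
      YG := fun i m q x hx => (geoM V E h).Y_mem i m q hx
      FG := fun q x hx => (geoM V E h).F_mem q hx
      xiG := ?_
      xi0 := ?_
      xi1 := ?_
      xi2 := ?_
      WG := ?_
      W0 := ?_
      W1 := ?_ }
  · intro i j
    rw [← h.inn i j, PiLp.inner_apply]
    refine sum_congr rfl fun b _ => ?_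
    exact mul_comm _ _
  · intro b i z
    have h1 := tay_zero' (sc (EH M ι) fun z => G z (bv b) i) z
    have h2 : sc (EH M ι) (fun z => G z (bv b) i) 0 =
        ((v i b : ℝ) : ℂ) • (1 : EH M ι →L[ℂ] EH M ι) := by
      change ((G 0 (bv b) i : ℝ) : ℂ) • (1 : EH M ι →L[ℂ] EH M ι) = _
      rw [hG0]
      simp [bv, EuclideanSpace.inner_single_right]
    rw [h2] at h1
    exact h1
  · intro b z
    have h1 := llec_sc (A := EH M ι) (hx b) 1 z
    rw [iteratedFDeriv_one_apply, llec_x1 h hφ hφ0 hφ1, Nat.factorial_one, Nat.cast_one, inv_one,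
      one_mul] at h1
    exact h1
  · intro z
    have h1 := llec_sc (A := EH M ι) hq 2 z
    rw [iteratedFDeriv_two_apply, llec_q2 h hφ hφ0 hφ1] at h1
    have h2 : ((Nat.factorial 2 : ℕ) : ℝ)⁻¹ * (‖z‖ ^ 2 / 2) = ‖z‖ ^ 2 / 4 := by
      rw [Nat.factorial_two]
      push_cast
      ring
    rw [h2] at h1
    exact h1
  · intro b w z q x hxq
    rcases Nat.eq_zero_or_pos w with rfl | hw
    · rw [hXi0, lm_apply]
      rcases q with _ | q
      · have h0 : x = 0 := (Submodule.mem_bot ℂ).1 hxq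
        rw [h0, mul_zero]
        exact Submodule.zero_mem _
      · have h1 := Xi_lead h b q hxq
        have h2 : ∑ i, ((v i b : ℝ) : ℂ) • (geoM V E h).X i x ∈
            (geoM V E h).Gf (q + 1 + 0 + 1) :=
          Submodule.sum_mem _ fun i _ => Submodule.smul_mem _ _ ((geoM V E h).X_mem i (q + 1) hxq)
        have h3 := Submodule.add_mem _ (hmono (by omega : q + 1 ≤ q + 1 + 0 + 1) h1) h2
        rw [sub_add_cancel] at h3
        exact h3
    · exact hmono (by omega) (hXi2 b w z q x hxq)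
  · intro b z q x hxq
    rw [hXi0, lm_apply]
    exact Xi_lead h b q hxq
  · intro b z q x hxq
    rw [hXi1]
    have h1 : (∑ m, ((z m : ℝ) : ℂ) • (fderiv ℝ (Xi V E b) y (v m) * x)) -
        ∑ i, ∑ m, ((v i b * z m : ℝ) : ℂ) • (geoM V E h).Y i m x =
        ∑ m, ((z m : ℝ) : ℂ) • (fderiv ℝ (Xi V E b) y (v m) * x -
          ∑ i, ((v i b : ℝ) : ℂ) • (geoM V E h).Y i m x) := by
      rw [Finset.sum_comm, ← Finset.sum_sub_distrib]
      refine sum_congr rfl fun m _ => ?_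
      rw [smul_sub, Finset.smul_sum]
      congr 1
      refine sum_congr rfl fun i _ => ?_
      rw [smul_smul]
      congr 1
      push_cast
      ring
    rw [h1]
    exact Submodule.sum_mem _ fun m _ => Submodule.smul_mem _ _ (dXi_lead h b m q hxq)
  · intro b w z q hw x hxq
    exact hmono (by omega) (hXi2 b w z (q + 1) x hxq)
  · intro w z q x hxq
    exact hmono (by omega) (hW2 w z q x hxq)
  · intro z q x hxq
    rw [hW0, lm_apply]
    exact Wt_lead h hθ q hxq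
  · intro w z q hw x hxq
    exact hmono (by omega) (hW2 w z (q + 1) x hxq)

end Pool.Agent.EXO.L
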