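import Pool.Agent.EXO.LTfC

/-!
# EXO / LTfD : the index density (IDX-L)

* `trc_Lam_cf`: `V.P y = L Lᵀ`, `Lᵀ L = 1` (`L = ofVec v`, `P_eq_sum`, `adjoint_comp_ofVec`), so
  `Lam P = Lam L ∘ Lam Lᵀ` (`Lam_comp`), `Lam Lᵀ ∘ Lam L = 1` on `HF 14 ι`, and by
  `LinearMap.trace_comp_comm'` `tr (Lam P cf T) = tr_{HF 14 ι} (cf T) = 2^14 tr T` (the diagonal entries;
  `cf` commutes with `Lam`; `|Finset (Fin 14)| = 2^14`).
* `trc_single`: `tr (cf s cf(single p q 1) Lam P cf e) = tr (Lam P cf (e s single p q 1)) = 2^14 (e s)_qp`.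
* `FAMap_strF`: `strF k = ∑_{q,p} (s e)_qp (curv^k)_pq`, `s e = e s`, `FAMap` is a ring homomorphism,
  `FAMap_curv` (powers of matrices).
* `co_univ_eq`: with `u = I/(2π)`, `p_k = tr om^k` (degree `2k`), `S_k = FAMap L (strF k)` (degree `2k`):
  `FAMap L (lamF) = u² p₂/24 - (7/2880) u⁴ p₄ + (31/181440) u⁶ p₆`.  Multiply out
  `(1 + λ + λ²/2 + λ³/6) ∑_{k<8} u^k/k! S_k`; only the part of degree `14` contributes to the coefficient of
  `univ` (`IsDeg`; `univ.card = 14`), it is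
  `u^7 (S_7/5040 + Lh1 S_5/120 + Lh2 S_3/6 + Lh3 S_1)`; the coefficient of `univ` of the parts of other degrees
  is zero.  `topM` is the matrix version.
* `density`: `κ ∑_pq (topM p q).co univ * 2^14 (e s)_qp = I^7 2^14 ∑ … = I^7 2^14 u^{-7} (…)`, `I^7/u^7 = (2π)^7`;
  `inner ℂ (∏ of1 (v i)) α = (FAMap L α).co univ` (`prod_of1_eq`, `inner_FAMap`, `adjoint_adjoint`,
  `inner_mon`-like: `inner ℂ (mon univ) β = β.co univ`).
-/

set_option autoImplicit false
set_option maxSynthPendingDepth 3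

open scoped ContDiff Topology
open Finset Matrix

noncomputable section

namespace Pool.Agent.EXO.L

variable {M : ℕ} {ι : Type} [Fintype ι] [DecidableEq ι] {V : Geo 14 M} {E : Bd V ι}
  {y : En M} {v : Fin 14 → En M} (h : PtB V y v)

private theorem LTfD_cf_bas {m : ℕ} (T : Matrix ι ι ℂ) (S : Finset (Fin m)) (i : ι) :
    (cf T (bas S i) : HF m ι) = ∑ l, T l i • bas S l := by
  ext p
  obtain ⟨R, j⟩ := p
  show ∑ l, T j l * (bas S i : HF m ι) (R, l) = (∑ l, T l i • (bas S l : HF m ι)) (R, j)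
  rw [WithLp.ofLp_sum, Finset.sum_apply]
  simp only [PiLp.smul_apply, bas_apply, smul_eq_mul]
  by_cases hR : R = S
  · simp [hR]
  · simp [hR]

private theorem LTfD_cf_eps {m : ℕ} (T : Matrix ι ι ℂ) (a : Fin m) (u : HF m ι) :
    cf T (eps a u) = eps a (cf T u) := by
  have h1 := congrArg (fun A : HF m ι →L[ℂ] HF m ι => A u) (cf_epsv T (bv a : En m))
  rw [show (bv a : En m) = ee a from rfl, epsv_ee] at h1
  exact h1

private theorem LTfD_cf_epsv {m : ℕ} (T : Matrix ι ι ℂ) (w : En m) (u : HF m ι) :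
    cf T (epsv w u) = epsv w (cf T u) :=
  congrArg (fun A : HF m ι →L[ℂ] HF m ι => A u) (cf_epsv T w)

private theorem LTfD_Lam_cf {m k : ℕ} (A : En m →L[ℝ] En k) (T : Matrix ι ι ℂ) (u : HF m ι) :
    Lam A (cf T u) = cf T (Lam A u) := by
  have h1 : ((Lam A : HF m ι →L[ℂ] HF k ι).comp (cf T)).toLinearMap =
      ((cf T).comp (Lam A : HF m ι →L[ℂ] HF k ι)).toLinearMap := by
    refine hf_ext (fun i => ?_) (fun a u hu => ?_)
    · show Lam A (cf T (bas ∅ i)) = cf T (Lam A (bas ∅ i))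
      rw [Lam_vac, LTfD_cf_bas, LTfD_cf_bas, map_sum]
      exact sum_congr rfl fun l _ => by rw [map_smul, Lam_vac]
    · have hu' : Lam A (cf T u) = cf T (Lam A u) := hu
      show Lam A (cf T (eps a u)) = cf T (Lam A (eps a u))
      rw [LTfD_cf_eps, Lam_eps, hu', Lam_eps, LTfD_cf_epsv]
  exact congrArg (fun B : HF m ι →ₗ[ℂ] HF k ι => B u) h1

private theorem LTfD_trace_cf (T : Matrix ι ι ℂ) :
    LinearMap.trace ℂ (HF 14 ι) (cf T : HF 14 ι →L[ℂ] HF 14 ι).toLinearMap = 2 ^ 14 * T.trace := by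
  rw [LinearMap.trace_eq_sum_inner _ (EuclideanSpace.basisFun (Finset (Fin 14) × ι) ℂ)]
  have h1 : ∀ p : Finset (Fin 14) × ι,
      inner ℂ (EuclideanSpace.basisFun (Finset (Fin 14) × ι) ℂ p)
        ((cf T : HF 14 ι →L[ℂ] HF 14 ι).toLinearMap
          (EuclideanSpace.basisFun (Finset (Fin 14) × ι) ℂ p)) = T p.2 p.2 := by
    rintro ⟨S, i⟩
    rw [EuclideanSpace.basisFun_apply, EuclideanSpace.inner_single_left, map_one, one_mul]
    show ∑ l, T i l * (EuclideanSpace.single (S, i) (1 : ℂ) : HF 14 ι) (S, l) = T i i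
    rw [Finset.sum_eq_single i]
    · simp
    · intro l _ hl
      simp [hl]
    · simp
  rw [sum_congr rfl fun p _ => h1 p, Fintype.sum_prod_type]
  simp only [Finset.sum_const, Finset.card_univ, Fintype.card_finset, Fintype.card_fin]
  rw [nsmul_eq_mul]
  have h2 : ∑ x, T x x = T.trace := rfl
  rw [h2]
  norm_num

private theorem LTfD_tr {m k : ℕ} (L : En k →L[ℝ] En m)
    (hL : (ContinuousLinearMap.adjoint L).comp L = ContinuousLinearMap.id ℝ (En k))
    (T : Matrix ι ι ℂ) :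
    LinearMap.trace ℂ (HF m ι) (Lam (L.comp (ContinuousLinearMap.adjoint L)) *
      cf T : HF m ι →L[ℂ] HF m ι).toLinearMap =
    LinearMap.trace ℂ (HF k ι) (cf T : HF k ι →L[ℂ] HF k ι).toLinearMap := by
  have h2 : (Lam (L.comp (ContinuousLinearMap.adjoint L)) *
      cf T : HF m ι →L[ℂ] HF m ι).toLinearMap =
      (Lam L : HF k ι →L[ℂ] HF m ι).toLinearMap ∘ₗ
      ((Lam (ContinuousLinearMap.adjoint L) : HF m ι →L[ℂ] HF k ι).toLinearMap ∘ₗ
        (cf T : HF m ι →L[ℂ] HF m ι).toLinearMap) := by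
    rw [Lam_comp]
    rfl
  rw [h2, LinearMap.trace_comp_comm']
  congr 1
  ext1 u
  show Lam (ContinuousLinearMap.adjoint L) (cf T (Lam L u)) = cf T u
  rw [← LTfD_Lam_cf, ← Lam_comp_apply, hL, Lam_id]
  rfl

theorem trc_Lam_cf (h : PtB V y v) (T : Matrix ι ι ℂ) :
    CSys.trc (HF M ι) (Lam (V.P y) * cf T) = 2 ^ 14 * T.trace := by
  have hP : V.P y = (ofVec v).comp (ContinuousLinearMap.adjoint (ofVec v)) := by
    ext1 w
    rw [P_eq_sum V h.mem v h.on h.tan, ContinuousLinearMap.comp_apply]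
    have h1 : ContinuousLinearMap.adjoint (ofVec v) w =
        ∑ k, (inner ℝ (v k) w : ℝ) • (bv k : En 14) := by
      refine ext_inner_left ℝ fun x => ?_
      rw [ContinuousLinearMap.adjoint_inner_right]
      have h1 : ofVec v x = ∑ k, x k • v k := rfl
      rw [h1, sum_inner, inner_sum]
      refine sum_congr rfl fun k _ => ?_
      rw [real_inner_smul_left, real_inner_smul_right]
      have h2 : inner ℝ x (bv k : En 14) = x k := by
        simp [bv, EuclideanSpace.inner_single_right]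
      rw [h2, mul_comm]
    rw [h1, map_sum]
    exact sum_congr rfl fun k _ => by rw [map_smul, ofVec_bv]
  rw [CSys.trc_apply, hP]
  exact (LTfD_tr (ofVec v) (adjoint_comp_ofVec h.on) T).trans (LTfD_trace_cf T)

theorem trc_single (h : PtB V y v) (p q : ι) :
    CSys.trc (HF M ι) (cf (diagonal E.s) * cf (Matrix.single p q 1) * Qx V E y) =
      2 ^ 14 * (E.e y * diagonal E.s) q p := by
  rw [CSys.trc_mul_comm]
  unfold Qx
  rw [mul_assoc, ← cf_mul, ← cf_mul, trc_Lam_cf h]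
  congr 1
  rw [← Matrix.mul_assoc, Matrix.trace_mul_single]
  simp

theorem FAMap_strF (k : ℕ) : FAMap (ofVec v) (E.strF k y) =
    ∑ p, ∑ q, (E.e y * diagonal E.s) q p • ((geoT E h).fm ^ k) p q := by
  have h1 : (FAHom (ofVec v)).mapMatrix (E.curv y) = (geoT E h).fm := by
    ext1 p q
    exact FAMap_curv h p q
  have h2 : FAMap (ofVec v) (E.strF k y) = ((FAHom (ofVec v)).mapMatrix
      (cM (diagonal E.s) * cM (E.e y) * E.curv y ^ k)).trace := by
    show FAHom (ofVec v) (Matrix.trace _) = _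
    rw [Matrix.trace, map_sum]
    rfl
  have h3 : ∀ q p, (FAHom (ofVec v)).mapMatrix
      (cM (diagonal E.s) * cM (E.e y) : Matrix ι ι (FA M)) q p =
      (E.e y * diagonal E.s) q p • (1 : FA 14) := by
    intro q p
    rw [E.e_s y h.mem, map_mul, Matrix.mul_apply, Matrix.mul_apply, Finset.sum_smul]
    refine sum_congr rfl fun l _ => ?_
    show FAHom (ofVec v) (algebraMap ℂ (FA M) (diagonal E.s q l)) *
      FAHom (ofVec v) (algebraMap ℂ (FA M) (E.e y l p)) = _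
    rw [AlgHom.commutes, AlgHom.commutes, Algebra.algebraMap_eq_smul_one,
      Algebra.algebraMap_eq_smul_one, smul_mul_smul_comm, one_mul]
  rw [h2, map_mul, map_pow, h1, Matrix.trace, Finset.sum_comm]
  refine sum_congr rfl fun q _ => ?_
  rw [Matrix.diag_apply, Matrix.mul_apply]
  refine sum_congr rfl fun p _ => ?_
  rw [h3, smul_mul_assoc, one_mul]

private theorem LTfD_zero {i j : ℕ} {x y : FA 14} (hx : x.IsDeg i) (hy : y.IsDeg j)
    (h : 14 < i + j) : x * y = 0 := by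
  have h1 := isDeg_mul hx hy
  rw [isDeg_iff] at h1
  rw [← h1, dgF_eq_zero h]

private theorem LTfD_co {i j : ℕ} {x y : FA 14} (hx : x.IsDeg i) (hy : y.IsDeg j)
    (h : i + j ≠ 14) : (x * y).co univ = 0 :=
  isDeg_mul hx hy univ (by rw [card_univ, Fintype.card_fin]; exact Ne.symm h)

private theorem LTfD_sum {S : ℕ → FA 14} (hS : ∀ m, (S m).IsDeg (2 * m)) (c : ℕ → ℂ)
    {x : FA 14} {j : ℕ} (hj : j ≤ 3) (hx : x.IsDeg (4 * j)) :
    (x * ∑ k ∈ range 8, c k • S k).co univ = c (7 - 2 * j) * (x * S (7 - 2 * j)).co univ := by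
  rw [Finset.mul_sum, co_sum, Finset.sum_eq_single (7 - 2 * j)]
  · rw [mul_smul_comm, FA.co_smul]
  · intro k _ hk
    rw [mul_smul_comm, FA.co_smul, LTfD_co hx (hS k) (by omega), mul_zero]
  · intro hk
    exact absurd (mem_range.2 (by omega)) hk

private theorem LTfD_main {S : ℕ → FA 14} (hS : ∀ m, (S m).IsDeg (2 * m)) {p2 p4 p6 : FA 14}
    (h2 : p2.IsDeg 4) (h4 : p4.IsDeg 8) (h6 : p6.IsDeg 12) (u : ℂ) {lam : FA 14}
    (hl : lam = (u ^ 2 / 24) • p2 + (-(7 * u ^ 4 / 2880)) • p4 + (31 * u ^ 6 / 181440) • p6) :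
    ((1 + lam + (1 / 2 : ℂ) • lam ^ 2 + (1 / 6 : ℂ) • lam ^ 3) *
      ∑ k ∈ range 8, (u ^ k / (k.factorial : ℂ)) • S k).co univ =
    u ^ 7 * ((1 / 5040) * (S 7).co univ + (1 / 120) * (Lh1 p2 * S 5).co univ +
      (1 / 6) * (Lh2 p2 p4 * S 3).co univ + (Lh3 p2 p4 p6 * S 1).co univ) := by
  have e42 : p4 * p2 = p2 * p4 := IsDeg_even_comm (j := 4) h4 p2
  have z26 : p2 * p6 = 0 := LTfD_zero h2 h6 (by norm_num)
  have z62 : p6 * p2 = 0 := LTfD_zero h6 h2 (by norm_num)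
  have z44 : p4 * p4 = 0 := LTfD_zero h4 h4 (by norm_num)
  have z46 : p4 * p6 = 0 := LTfD_zero h4 h6 (by norm_num)
  have z64 : p6 * p4 = 0 := LTfD_zero h6 h4 (by norm_num)
  have z66 : p6 * p6 = 0 := LTfD_zero h6 h6 (by norm_num)
  have z224 : p2 * p2 * p4 = 0 := LTfD_zero (isDeg_mul h2 h2) h4 (by norm_num)
  have z226 : p2 * p2 * p6 = 0 := LTfD_zero (isDeg_mul h2 h2) h6 (by norm_num)
  have z242 : p2 * p4 * p2 = 0 := LTfD_zero (isDeg_mul h2 h4) h2 (by norm_num)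
  have z244 : p2 * p4 * p4 = 0 := LTfD_zero (isDeg_mul h2 h4) h4 (by norm_num)
  have z246 : p2 * p4 * p6 = 0 := LTfD_zero (isDeg_mul h2 h4) h6 (by norm_num)
  have hl2 : lam ^ 2 = (u ^ 4 / 576) • (p2 * p2) + (-(14 * u ^ 6 / 69120)) • (p2 * p4) := by
    rw [hl, pow_two]
    simp only [add_mul, mul_add, smul_mul_smul_comm, e42, z26, z62, z44, z46, z64, z66, smul_zero,
      add_zero]
    module
  have hl3 : lam ^ 3 = (u ^ 6 / 13824) • (p2 * p2 * p2) := by
    rw [pow_succ, hl2, hl]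
    simp only [add_mul, mul_add, smul_mul_smul_comm, z224, z226, z242, z244, z246, smul_zero,
      add_zero]
    module
  have hL : 1 + lam + (1 / 2 : ℂ) • lam ^ 2 + (1 / 6 : ℂ) • lam ^ 3 =
      1 + u ^ 2 • Lh1 p2 + u ^ 4 • Lh2 p2 p4 + u ^ 6 • Lh3 p2 p4 p6 := by
    rw [hl2, hl3, hl]
    unfold Lh1 Lh2 Lh3
    have q2 : p2 ^ 2 = p2 * p2 := pow_two p2
    have q3 : p2 ^ 3 = p2 * p2 * p2 := by rw [pow_succ, pow_two]
    rw [q2, q3]
    module
  have d1 : (Lh1 p2).IsDeg (4 * 1) := isDeg_smul h2 _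
  have d22 : (p2 ^ 2).IsDeg 8 := by
    rw [pow_two]
    exact isDeg_mul h2 h2
  have d23 : (p2 ^ 3).IsDeg 12 := by
    rw [pow_succ]
    exact isDeg_mul d22 h2
  have dsub : ∀ {i : ℕ} {x y : FA 14}, x.IsDeg i → y.IsDeg i → (x - y).IsDeg i := by
    intro i x y hx hy I hI
    rw [FA.co_sub, hx I hI, hy I hI, sub_zero]
  have d2 : (Lh2 p2 p4).IsDeg (4 * 2) := dsub (isDeg_smul d22 _) (isDeg_smul h4 _)
  have d3 : (Lh3 p2 p4 p6).IsDeg (4 * 3) :=
    isDeg_add (dsub (isDeg_smul d23 _) (isDeg_smul (isDeg_mul h2 h4) _)) (isDeg_smul h6 _)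
  have d0 : (1 : FA 14).IsDeg (4 * 0) := isDeg_one
  rw [hL]
  simp only [add_mul, smul_mul_assoc, FA.co_add, FA.co_smul]
  rw [LTfD_sum hS _ (by norm_num) d0, LTfD_sum hS _ (by norm_num) d1,
    LTfD_sum hS _ (by norm_num) d2, LTfD_sum hS _ (by norm_num) d3]
  simp only [Nat.reduceMul, Nat.reduceSub, Nat.factorial, one_mul]
  push_cast
  ring

private theorem LTfD_pow {κ : Type} [Fintype κ] [DecidableEq κ] {X : Matrix κ κ (FA 14)}
    (hX : ∀ p q, (X p q).IsDeg 2) (k : ℕ) : ∀ p q, ((X ^ k) p q).IsDeg (2 * k) := by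
  induction k with
  | zero =>
    intro p q
    rw [pow_zero, Matrix.one_apply]
    split_ifs
    · exact isDeg_one
    · exact isDeg_zero _
  | succ k ih =>
    intro p q
    rw [pow_succ, Matrix.mul_apply]
    exact isDeg_sum _ fun l _ => isDeg_mul (ih p l) (hX l q)

private theorem LTfD_two (c : Fin 14 → Fin 14 → ℂ) :
    ((1 / 2 : ℂ) • ∑ k, ∑ l, c k l • (of1 (bv k) * of1 (bv l) : FA 14)).IsDeg 2 :=
  isDeg_smul (isDeg_sum _ fun k _ => isDeg_sum _ fun l _ =>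
    isDeg_smul (isDeg_mul (isDeg_of1 _) (isDeg_of1 _)) _) _

theorem co_univ_eq : (FAMap (ofVec v) (LhF V y * E.ch y)).co univ =
    (Complex.I / (2 * Real.pi)) ^ 7 *
      ∑ p, ∑ q, (E.e y * diagonal E.s) q p * ((geoT E h).topM p q).co univ := by
  have hom : ∀ k, (((geoT E h).om ^ k).trace).IsDeg (2 * k) := fun k =>
    isDeg_sum _ fun a _ => LTfD_pow (fun a b => LTfD_two _) k a a
  have hfm : ∀ k p q, (((geoT E h).fm ^ k) p q).IsDeg (2 * k) := fun k =>
    LTfD_pow (fun a b => LTfD_two _) k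
  have hpi : (Real.pi : ℂ) ≠ 0 := Complex.ofReal_ne_zero.2 Real.pi_ne_zero
  have hI2 : Complex.I ^ 2 = -1 := Complex.I_sq
  have hI4 : Complex.I ^ 4 = 1 := Complex.I_pow_four
  have hI6 : Complex.I ^ 6 = -1 := by
    rw [show (6 : ℕ) = 4 + 2 from rfl, pow_add, hI4, hI2, one_mul]
  have hlam : FAMap (ofVec v) (lamF V y) =
      ((Complex.I / (2 * Real.pi)) ^ 2 / 24) • ((geoT E h).om ^ 2).trace +
      (-(7 * (Complex.I / (2 * Real.pi)) ^ 4 / 2880)) • ((geoT E h).om ^ 4).trace +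
      (31 * (Complex.I / (2 * Real.pi)) ^ 6 / 181440) • ((geoT E h).om ^ 6).trace := by
    unfold lamF
    rw [FAMap_add, FAMap_add, FAMap_smul, FAMap_smul, FAMap_smul, FAMap_sF (E := E) h 2 (by norm_num),
      FAMap_sF (E := E) h 4 (by norm_num), FAMap_sF (E := E) h 6 (by norm_num)]
    have c2 : (-(1 / (96 * Real.pi ^ 2) : ℂ)) = (Complex.I / (2 * Real.pi)) ^ 2 / 24 := by
      rw [div_pow, hI2]
      field_simp
      norm_num
    have c4 : (-(7 / (46080 * Real.pi ^ 4) : ℂ)) = -(7 * (Complex.I / (2 * Real.pi)) ^ 4 / 2880) := by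
      rw [div_pow, hI4]
      field_simp
      norm_num
    have c6 : (-(31 / (11612160 * Real.pi ^ 6) : ℂ)) =
        31 * (Complex.I / (2 * Real.pi)) ^ 6 / 181440 := by
      rw [div_pow, hI6]
      field_simp
      norm_num
    rw [c2, c4, c6]
  have hLh : FAMap (ofVec v) (LhF V y) = 1 + FAMap (ofVec v) (lamF V y) +
      (1 / 2 : ℂ) • FAMap (ofVec v) (lamF V y) ^ 2 +
      (1 / 6 : ℂ) • FAMap (ofVec v) (lamF V y) ^ 3 := by
    show FAHom (ofVec v) (LhF V y) = 1 + FAHom (ofVec v) (lamF V y) +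
      (1 / 2 : ℂ) • FAHom (ofVec v) (lamF V y) ^ 2 +
      (1 / 6 : ℂ) • FAHom (ofVec v) (lamF V y) ^ 3
    unfold LhF
    simp only [map_add, map_one, map_smul, map_pow]
  have hch : FAMap (ofVec v) (E.ch y) = ∑ k ∈ range 8,
      ((Complex.I / (2 * Real.pi)) ^ k / (k.factorial : ℂ)) •
      ∑ p, ∑ q, (E.e y * diagonal E.s) q p • ((geoT E h).fm ^ k) p q := by
    unfold Bd.ch
    rw [FAMap_sum]
    exact sum_congr rfl fun k _ => by rw [FAMap_smul, FAMap_strF h]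
  have hS : ∀ k, (∑ p, ∑ q, (E.e y * diagonal E.s) q p • ((geoT E h).fm ^ k) p q).IsDeg
      (2 * k) := fun k => isDeg_sum _ fun p _ => isDeg_sum _ fun q _ => isDeg_smul (hfm k p q) _
  rw [FAMap_mul, hLh, hch, LTfD_main hS (hom 2) (hom 4) (hom 6) _ hlam]
  congr 1
  have hmul : ∀ (x : FA 14) (k : ℕ), (x * ∑ p, ∑ q, (E.e y * diagonal E.s) q p •
      ((geoT E h).fm ^ k) p q).co univ = ∑ p, ∑ q, (E.e y * diagonal E.s) q p *
      (x * ((geoT E h).fm ^ k) p q).co univ := by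
    intro x k
    rw [Finset.mul_sum, co_sum]
    refine sum_congr rfl fun p _ => ?_
    rw [Finset.mul_sum, co_sum]
    refine sum_congr rfl fun q _ => ?_
    rw [mul_smul_comm, FA.co_smul]
  have h7 := hmul 1 7
  rw [one_mul] at h7
  rw [h7, hmul, hmul, hmul]
  simp only [Finset.mul_sum, ← Finset.sum_add_distrib]
  refine sum_congr rfl fun p _ => sum_congr rfl fun q _ => ?_
  have htop : ((geoT E h).topM p q) = (1 / 5040 : ℂ) • ((geoT E h).fm ^ 7) p q +
      (1 / 120 : ℂ) • (Lh1 ((geoT E h).om ^ 2).trace * ((geoT E h).fm ^ 5) p q) +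
      (1 / 6 : ℂ) • (Lh2 ((geoT E h).om ^ 2).trace ((geoT E h).om ^ 4).trace *
        ((geoT E h).fm ^ 3) p q) +
      Lh3 ((geoT E h).om ^ 2).trace ((geoT E h).om ^ 4).trace ((geoT E h).om ^ 6).trace *
        (geoT E h).fm p q := rfl
  rw [htop, pow_one]
  simp only [FA.co_add, FA.co_smul, one_mul]
  ring

theorem inner_ofFn (hv : Orthonormal ℝ v) (α : FA M) :
    inner ℂ (List.ofFn fun i => of1 (v i)).prod α = (FAMap (ofVec v) α).co univ := by
  rw [prod_of1_eq, inner_FAMap, ContinuousLinearMap.adjoint_adjoint]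
  have h2 : inner ℂ (mon Finset.univ) (FAMap (ofVec v) α) =
      ∑ R : Finset (Fin 14), inner ℂ ((mon Finset.univ : FA 14).co R)
        ((FAMap (ofVec v) α).co R) := rfl
  rw [h2, Finset.sum_eq_single Finset.univ]
  · rw [mon_co, if_pos rfl]
    simp
  · intro R _ hR
    rw [mon_co, if_neg hR]
    simp
  · simp

theorem density : (geoT E h).κ * ∑ p, ∑ q, ((geoT E h).topM p q).co univ *
      CSys.trc (HF M ι) ((geoT E h).sg * (geoT E h).f (Matrix.single p q 1) * (geoT E h).Q) =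
    (2 ^ 21 * Real.pi ^ 7 : ℂ) *
      inner ℂ (List.ofFn fun i => of1 (v i)).prod (LhF V y * E.ch y) := by
  have h1 : ∀ p q, CSys.trc (HF M ι) ((geoT E h).sg * (geoT E h).f (Matrix.single p q 1) *
      (geoT E h).Q) = 2 ^ 14 * (E.e y * diagonal E.s) q p := fun p q => trc_single h p q
  rw [inner_ofFn h.on, co_univ_eq h]
  have h2 : ∑ p, ∑ q, ((geoT E h).topM p q).co univ *
      CSys.trc (HF M ι) ((geoT E h).sg * (geoT E h).f (Matrix.single p q 1) * (geoT E h).Q) =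
      2 ^ 14 * ∑ p, ∑ q, (E.e y * diagonal E.s) q p * ((geoT E h).topM p q).co univ := by
    rw [Finset.mul_sum]
    refine sum_congr rfl fun p _ => ?_
    rw [Finset.mul_sum]
    refine sum_congr rfl fun q _ => ?_
    rw [h1]
    ring
  have h3 : (geoT E h).κ = Complex.I ^ 7 := rfl
  have hpi : (Real.pi : ℂ) ≠ 0 := Complex.ofReal_ne_zero.2 Real.pi_ne_zero
  rw [h2, h3, ← mul_assoc, ← mul_assoc]
  congr 1
  rw [div_pow]
  field_simp

end Pool.Agent.EXO.L
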