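import Pool.Agent.EXO.LMaC
import Pool.Agent.EXO.LLeC
import Pool.Agent.EXO.LTfD
import Pool.Agent.EXO.LCl

/-!
# EXO / LFin : the local index theorem (IDX-L)

`y ∈ V`; `vol_spec` gives an orthonormal tangent basis `v` at `y` with `vol y = ∏ of1 (v i)`; `h : PtB V y v`
(`symII`).  `IsSig` gives `SigOf` and `ThOK` for some `θ`.
1. `exists_param`, `heat_seq` (`l = 7`): `P` with `Tgeo … P w = 0` for `w < m + 2`, `P 0 = pc (Q y)`,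
   `(P 14).1 0 = k 0 (y,y)`.
2. `leadOK`, `modOK`, `main_cmp` (`hG = Gf_mono`, `v = Qx V E y ∈ vac ≤ Gf 1`: `Q_vac`, `vac_le`):
   `k 0 (y,y) - (model … 14).1 0 ∈ Gf 14`.  (`(geoT E h).toMDat = geoM V E h` by `rfl`.)
3. `tr_Gf` with `Γ = (geoT E h).Gam` (`Gam_c`, `Gam_g`): the traces agree; `val_trace`, `density`.
4. `𝔇.Γ y * k 0 (y,y) = 𝔇.Γ y * 𝔇.Q y * k 0 (y,y) = Gam * k 0 (y,y)` (`IsHeat.ql`, `Γ_eq`, `clI_prod`).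
-/

set_option autoImplicit false
set_option maxSynthPendingDepth 3

open scoped ContDiff Topology
open Finset Matrix

noncomputable section

namespace Pool.Agent.EXO.L

variable {M : ℕ} {ι : Type} [Fintype ι] [DecidableEq ι] {V : OrGeo 14 M}

private theorem LFin_a {H : Type} [NormedAddCommGroup H] [NormedSpace ℂ H]
    [FiniteDimensional ℂ H] (D : TDat H ι) {a : Fin M → Fin 14 → ℝ}
    {g : Fin M → Fin 14 → Sq 14 ((H →L[ℂ] H) →L[ℂ] (H →L[ℂ] H))}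
    {xs : Fin M → Sq 14 ((H →L[ℂ] H) →L[ℂ] (H →L[ℂ] H))}
    {qs : Sq 14 ((H →L[ℂ] H) →L[ℂ] (H →L[ℂ] H))}
    {ξ : Fin M → Sq 14 ((H →L[ℂ] H) →L[ℂ] (H →L[ℂ] H))}
    {Wq : Sq 14 ((H →L[ℂ] H) →L[ℂ] (H →L[ℂ] H))}
    (hL : LeadOK D.Gf a g xs qs ξ Wq D.X D.Y (D.F1 + D.F2)) (P : Sq 14 (H →L[ℂ] H))
    (hP : ∀ w ≤ 15, Tgeo g xs qs ξ Wq P w = 0) (hQ : D.Q ∈ D.vac) (h0 : P 0 = pc D.Q) (w : ℕ)
    (hw : w ≤ 15) : (P w).1 0 - (model D.X D.Om (D.F1 + D.F2) D.Q w).1 0 ∈ D.Gf w :=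
  main_cmp D.Gf_mono hL D.modOK P hP D.Q (D.vac_le 0 hQ) h0 w hw 0

private theorem LFin_b {H : Type} [NormedAddCommGroup H] [NormedSpace ℂ H]
    [FiniteDimensional ℂ H] (D : TDat H ι) (x y : H →L[ℂ] H) (h : x - y ∈ D.Gf 14) :
    CSys.trc H (D.Gam * x) = CSys.trc H (D.Gam * y) := by
  have htr := D.tr_Gf D.Gam D.Gam_c D.Gam_g h
  rwa [mul_sub, map_sub, sub_eq_zero] at htr

private theorem LFin_c {H : Type} [NormedAddCommGroup H] [NormedSpace ℂ H]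
    [FiniteDimensional ℂ H] (D : TDat H ι) {a : Fin M → Fin 14 → ℝ}
    {g : Fin M → Fin 14 → Sq 14 ((H →L[ℂ] H) →L[ℂ] (H →L[ℂ] H))}
    {xs : Fin M → Sq 14 ((H →L[ℂ] H) →L[ℂ] (H →L[ℂ] H))}
    {qs : Sq 14 ((H →L[ℂ] H) →L[ℂ] (H →L[ℂ] H))}
    {ξ : Fin M → Sq 14 ((H →L[ℂ] H) →L[ℂ] (H →L[ℂ] H))}
    {Wq : Sq 14 ((H →L[ℂ] H) →L[ℂ] (H →L[ℂ] H))}
    (hL : LeadOK D.Gf a g xs qs ξ Wq D.X D.Y (D.F1 + D.F2)) (P : Sq 14 (H →L[ℂ] H))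
    (hP : ∀ w ≤ 15, Tgeo g xs qs ξ Wq P w = 0) (hQ : D.Q ∈ D.vac) (h0 : P 0 = pc D.Q) :
    CSys.trc H (D.Gam * (P 14).1 0) = D.κ * ∑ p, ∑ q, (D.topM p q).co univ *
      CSys.trc H (D.sg * D.f (Matrix.single p q 1) * D.Q) :=
  (LFin_b D _ _ (LFin_a D hL P hP hQ h0 14 (by norm_num))).trans D.val_trace

private theorem LFin_d {H : Type} [NormedAddCommGroup H] [NormedSpace ℂ H]
    [FiniteDimensional ℂ H] (D : TDat H ι) (S : MDat 14 H ι) (Q : H →L[ℂ] H) (e1 : D.toMDat = S)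
    (e2 : D.Q = Q) {a : Fin M → Fin 14 → ℝ}
    {g : Fin M → Fin 14 → Sq 14 ((H →L[ℂ] H) →L[ℂ] (H →L[ℂ] H))}
    {xs : Fin M → Sq 14 ((H →L[ℂ] H) →L[ℂ] (H →L[ℂ] H))}
    {qs : Sq 14 ((H →L[ℂ] H) →L[ℂ] (H →L[ℂ] H))}
    {ξ : Fin M → Sq 14 ((H →L[ℂ] H) →L[ℂ] (H →L[ℂ] H))}
    {Wq : Sq 14 ((H →L[ℂ] H) →L[ℂ] (H →L[ℂ] H))}
    (hL : LeadOK S.Gf a g xs qs ξ Wq S.X S.Y (S.F1 + S.F2)) (P : Sq 14 (H →L[ℂ] H))
    (hP : ∀ w ≤ 15, Tgeo g xs qs ξ Wq P w = 0) (hQ : Q ∈ S.vac) (h0 : P 0 = pc Q) :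
    CSys.trc H (D.Gam * (P 14).1 0) = D.κ * ∑ p, ∑ q, (D.topM p q).co univ *
      CSys.trc H (D.sg * D.f (Matrix.single p q 1) * D.Q) := by
  subst e1
  subst e2
  exact LFin_c D hL P hP hQ h0

private theorem LFin_e {H : Type} [NormedAddCommGroup H] [NormedSpace ℂ H] (D : TDat H ι)
    (κ : ℂ) (h1 : D.κ = κ) (c : Fin 14 → (H →L[ℂ] H)) (h2 : D.c = c) (sg : H →L[ℂ] H)
    (h3 : D.sg = sg) : D.Gam = κ • ((List.ofFn c).prod * sg) := by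
  subst h1
  subst h2
  subst h3
  rfl

section

variable {V : Geo 14 M} (E : Bd V ι) {y : En M} {v : Fin 14 → En M} (h : PtB V y v)

private theorem LFin_κ : (geoT E h).κ = Complex.I ^ 7 := by
  rw [geoT]

private theorem LFin_sg : (geoT E h).sg = cf (diagonal E.s) := by
  rw [geoT]

private theorem LFin_cc : (geoT E h).c = fun i => cv (v i) := by
  rw [geoT]
  rfl

end

omit [DecidableEq ι] in
private theorem LFin_tr (Γ Q k : EH M ι) (X : EH M ι) (hql : Q * k = k)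
    (hG : Γ * Q = X * Q) (c : ℂ) (h : CSys.trc (HF M ι) (X * k) = c) :
    LinearMap.trace ℂ (HF M ι) (Γ * k : EH M ι).toLinearMap = c := by
  rw [← h, CSys.trc_apply, ← hql, ← mul_assoc, ← mul_assoc, hG]

theorem IL_density (E : Bd V.toGeo ι) (𝔇 : Dirac V.toGeo (HF M ι)) (hsig : IsSig V E 𝔇)
    (hloc : V.toGeo.Loc) (m : ℕ) (hm : 14 ≤ m) {k : Dirac.FK M (HF M ι)}
    (hk : 𝔇.IsHeat 7 m k) {y : En M} (hy : y ∈ V.carrier) :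
    LinearMap.trace ℂ (HF M ι) (𝔇.Γ y * k 0 (y, y) : EH M ι).toLinearMap =
      (2 ^ 21 * Real.pi ^ 7 : ℂ) * inner ℂ (V.vol y) (LhF V.toGeo y * E.ch y) := by
  obtain ⟨v, hv, hP, hvol⟩ := V.vol_spec y hy
  obtain ⟨θ, hθs, hθ, hB⟩ := hsig.B_eq
  have h : PtB V.toGeo y v := ⟨hy, hv, hP, hloc, symII V.toGeo⟩
  have hD : SigOf V.toGeo E θ 𝔇 := ⟨hsig.c_eq, hsig.Q_eq, hB⟩
  have hT : ThOK V.toGeo E θ := ⟨hθs, fun a x hx => (hθ a x hx).1,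
    fun a x hx => (hθ a x hx).2.1, fun a x hx => (hθ a x hx).2.2.1,
    fun a x hx => (hθ a x hx).2.2.2⟩
  obtain ⟨φ, G, hφ, hG, hφ0, hφV, hφ1, hG0⟩ := exists_param V.toGeo hy v hv hP
  obtain ⟨P, hP1, hP2, hP3⟩ := heat_seq hD hT hloc (symII V.toGeo) 7 rfl hy hφ hG hφ0 hφV m hk
  have hQ : 𝔇.Q y = Qx V.toGeo E y := hsig.Q_eq y hy
  have hL := leadOK h hT hφ hG hφ0 (hφV.mono fun z hz => hz.1) hφ1 hG0
  have h0 : P 0 = pc (Qx V.toGeo E y) := by rw [hP2, hQ]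
  have hw : ∀ w : ℕ, w ≤ 15 → w < m + 2 := fun w hw => by omega
  have htr := LFin_d (geoT E h) (geoM V.toGeo E h) (Qx V.toGeo E y) rfl rfl hL P
    (fun w hw' => hP1 w (hw w hw')) (Q_vac h) h0
  rw [density h, ← hvol, hP3] at htr
  refine LFin_tr (𝔇.Γ y) (𝔇.Q y) (k 0 (y, y)) (geoT E h).Gam (hk.ql 0 y hy y hy) ?_ _ htr
  have hG :=
    LFin_e (geoT E h) _ (LFin_κ E h) _ (LFin_cc E h) _ (LFin_sg E h)
  rw [hsig.Γ_eq y hy, hvol, clI_prod hv, hG, smul_mul_assoc]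

end Pool.Agent.EXO.L
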