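import Pool.Agent.EXO.LCs

/-!
# EXO / LGau : the gauge transformation of the model operator (IDX-L)

`C = ∑ ζ_l X_l` (an operator on `Pl n A`), `U = expS (-(up * cst C))`.

Claim: `Tmod X Y F * U = U * Tmod 0 (Ω/4) F` where `¼`-matrix means `Y' l m = (1/4) • Ω l m`,
provided

* `hZ` the commutators `[X_a, X_b]` commute with all `X_c`;
* `hΩX`, `hFX`: `Ω_ab` and `F` commute with all `X_c`;
* `hY` : `½ (X_a X_b - X_b X_a) + Y_{b a} = -¼ Ω_ab` for all `a b` (recall that `Y b a` is the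
  coefficient of `ζ_a` in the component `b`), and `Ω_ab = - Ω_ba`.

Proof.  Work in the ring `Op n A`.  Abbreviate `s = up`, `B = -(s * cst C)`, which is `Cs 1`; `s`
commutes with every `cst T` (`cst_up`).  Use `conj_expS` for several `D`:

1. `D = Dm X Y l`.  `D * B = B * D + K` with `K = -(s * cst (cz X_l)) + s^2 * cst [C, cz X_l]`
   (as `[dl (bv l), C] = cz X_l` by `dl_mz`, `mz l` commutes with `C`,
   `cz X_l * C = C * cz X_l - [C, cz X_l]` and `cz (Y l m)` commutes with `C` because by `hY` it is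
   a combination of commutators `[X, X]` and of `Ω`).
   `K * B = B * K + L` with `L = -(s^2 * cst [C, cz X_l])` (`[C, cz X_l] = ∑_m ζ_m [X_m, X_l]`
   commutes with `C`, by `hZ`), and `L` commutes with `B`.
   Hence `D * U = U * (D + K + ½ L)` and
   `D + K + ½ L = cst ∂_l - ½ cst (mz l) + s^2 * cst (∑_m mz m * cz (Y l m + ½ [X_m, X_l]))`
   `= cst ∂_l - ½ cst (mz l) - ¼ s^2 * cst (∑_m mz m * cz (Ω m l)) = Dm 0 (Ω/4) l`
   (`cz 0 = 0`, `Ω m l = - Ω l m`).
   Consequently `D ^ 2 * U = U * D'^2` with `D' = Dm 0 (Ω/4) l`.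
2. `D = nn - cst eu`: `[nn, B] = B` (from `nn_up`, `nn_cst`) and `[cst eu, B] = B`
   (`[eu, mz l] = mz l`, `cz X_l` commutes with `eu`), so `D` commutes with `B` and with `U`.
3. `D = cst (∑ mz i * mz i)` and `D = s^2 * cst (cz F)` commute with `B`.
4. `(n/2) • 1` commutes with everything.
(For `D` commuting with `B` use `conj_expS` with `K = L = 0`.)
-/

set_option autoImplicit false
set_option maxSynthPendingDepth 3

open scoped ContDiff
open Finset

noncomputable section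

namespace Pool.Agent.EXO.L

variable {n : ℕ} {A : Type*} [NormedAddCommGroup A] [NormedSpace ℂ A]

/-- monomials in the shift -/
private def gu (k : ℕ) (T : Module.End ℂ (Pl n A)) : Op n A := up ^ k * cst T

private theorem gu_comm (k : ℕ) (T : Module.End ℂ (Pl n A)) :
    (cst T * up ^ k : Op n A) = up ^ k * cst T :=
  ((show Commute (cst T : Op n A) up from cst_up T).pow_right k).eq

private theorem gu_mul (j k : ℕ) (S T : Module.End ℂ (Pl n A)) :
    (gu j S * gu k T : Op n A) = gu (j + k) (S * T) := by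
  unfold gu
  rw [mul_assoc, ← mul_assoc (cst S) (up ^ k) (cst T), gu_comm, mul_assoc, ← mul_assoc, ← pow_add,
    cst_mul]

private theorem gu_add (k : ℕ) (S T : Module.End ℂ (Pl n A)) :
    (gu k (S + T) : Op n A) = gu k S + gu k T := by
  unfold gu
  rw [cst_add, mul_add]

private theorem gu_sub (k : ℕ) (S T : Module.End ℂ (Pl n A)) :
    (gu k (S - T) : Op n A) = gu k S - gu k T := by
  unfold gu
  rw [cst_sub, mul_sub]

private theorem gu_smul (k : ℕ) (c : ℂ) (T : Module.End ℂ (Pl n A)) :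
    (gu k (c • T) : Op n A) = c • gu k T := by
  unfold gu
  rw [cst_smul, mul_smul_comm]

private theorem gu_zero (k : ℕ) : (gu k (0 : Module.End ℂ (Pl n A)) : Op n A) = 0 := by
  unfold gu
  rw [cst_zero, mul_zero]

private theorem gu_cs (k : ℕ) (T : Module.End ℂ (Pl n A)) : Cs k (gu k T : Op n A) := by
  have h := ((cs_up (n := n) (A := A)).pow k).mul (cs_cst T)
  rw [mul_one, add_zero] at h
  exact h

private theorem gu_Dm (X : Fin n → A →L[ℂ] A) (Y : Fin n → Fin n → A →L[ℂ] A) (l : Fin n) :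
    Dm X Y l = gu 0 (dl (bv l) - (1 / 2 : ℂ) • mz l) + gu 1 (cz (X l)) +
      gu 2 (∑ m, mz m * cz (Y l m)) := by
  unfold Dm gu
  rw [pow_zero, one_mul, pow_one, cst_sub, cst_smul]

private theorem dl_mul_cz (v : En n) (a : A →L[ℂ] A) :
    (dl v * cz a : Module.End ℂ (Pl n A)) = cz a * dl v :=
  LinearMap.ext fun f => dl_cz v a f

/-- the operator `C` -/
private def gC (X : Fin n → A →L[ℂ] A) : Module.End ℂ (Pl n A) := ∑ l, mz l * cz (X l)

private theorem comm_cz_mz (a : A →L[ℂ] A) (i : Fin n) :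
    Commute (cz a : Module.End ℂ (Pl n A)) (mz i) := (mz_cz i a).symm

private theorem comm_cz_cz {a b : A →L[ℂ] A} (h : a * b = b * a) :
    Commute (cz a : Module.End ℂ (Pl n A)) (cz b) := by
  show cz a * cz b = cz b * cz a
  rw [← cz_mul, ← cz_mul, h]

private theorem comm_mz_gC (X : Fin n → A →L[ℂ] A) (i : Fin n) :
    Commute (mz i : Module.End ℂ (Pl n A)) (gC X) := by
  refine Commute.sum_right _ _ _ fun l _ => ?_
  exact (show Commute (mz i : Module.End ℂ (Pl n A)) (mz l) from mz_mz i l).mul_right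
    (comm_cz_mz (X l) i).symm

private theorem comm_cz_gC (X : Fin n → A →L[ℂ] A) {a : A →L[ℂ] A} (h : ∀ c, a * X c = X c * a) :
    Commute (cz a : Module.End ℂ (Pl n A)) (gC X) := by
  refine Commute.sum_right _ _ _ fun l _ => ?_
  exact (comm_cz_mz a l).mul_right (comm_cz_cz (h l))

private theorem comm_sum_gC (X : Fin n → A →L[ℂ] A) {a : Fin n → A →L[ℂ] A}
    (h : ∀ m c, a m * X c = X c * a m) :
    Commute (∑ m, mz m * cz (a m) : Module.End ℂ (Pl n A)) (gC X) := by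
  refine Commute.sum_left _ _ _ fun m _ => ?_
  exact (comm_mz_gC X m).mul_left (comm_cz_gC X (h m))

private theorem dl_gC (X : Fin n → A →L[ℂ] A) (l : Fin n) :
    (dl (bv l) * gC X : Module.End ℂ (Pl n A)) = gC X * dl (bv l) + cz (X l) := by
  unfold gC
  rw [mul_sum, sum_mul]
  have h1 : ∀ m : Fin n, (dl (bv l) * (mz m * cz (X m)) : Module.End ℂ (Pl n A)) =
      mz m * cz (X m) * dl (bv l) + (if l = m then cz (X m) else 0) := by
    intro m
    rw [← mul_assoc, dl_mz, add_mul, mul_assoc, dl_mul_cz, ← mul_assoc]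
    congr 1
    split_ifs
    · rw [one_mul]
    · rw [zero_mul]
  rw [sum_congr rfl fun m _ => h1 m, sum_add_distrib, sum_ite_eq]
  simp

private theorem cz_gC (X : Fin n → A →L[ℂ] A) (l : Fin n) :
    (cz (X l) * gC X : Module.End ℂ (Pl n A)) =
      gC X * cz (X l) - ∑ m, mz m * cz (X m * X l - X l * X m) := by
  unfold gC
  rw [mul_sum, sum_mul, ← sum_sub_distrib]
  refine sum_congr rfl fun m _ => ?_
  rw [cz_sub, cz_mul, cz_mul, mul_sub, ← mul_assoc (cz (X l)), ← mz_cz, mul_assoc, mul_assoc]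
  abel

private theorem eu_gC (X : Fin n → A →L[ℂ] A) :
    (eu * gC X : Module.End ℂ (Pl n A)) = gC X * eu + gC X := by
  have h : ∀ i : Fin n, (mz i * dl (bv i) * gC X : Module.End ℂ (Pl n A)) =
      gC X * (mz i * dl (bv i)) + mz i * cz (X i) := by
    intro i
    rw [mul_assoc, dl_gC, mul_add, ← mul_assoc, (comm_mz_gC X i).eq, mul_assoc]
  unfold eu
  rw [sum_mul, sum_congr rfl fun i _ => h i, sum_add_distrib, ← mul_sum]
  rfl

private theorem gau_B (X : Fin n → A →L[ℂ] A) : Cs 1 (-(gu 1 (gC X)) : Op n A) := (gu_cs 1 _).neg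

/-- conjugation of one covariant derivative -/
private theorem gau_D (X : Fin n → A →L[ℂ] A) (Y Ω : Fin n → Fin n → A →L[ℂ] A)
    (hZ : ∀ a b c, (X a * X b - X b * X a) * X c = X c * (X a * X b - X b * X a))
    (hΩX : ∀ a b c, Ω a b * X c = X c * Ω a b)
    (hΩ : ∀ a b, Ω a b = - Ω b a)
    (hY : ∀ a b, (1 / 2 : ℂ) • (X a * X b - X b * X a) + Y b a = -((1 / 4 : ℂ) • Ω a b))
    (l : Fin n) :
    Dm X Y l * expS (-(gu 1 (gC X))) =
      expS (-(gu 1 (gC X))) * Dm (fun _ => 0) (fun l m => (1 / 4 : ℂ) • Ω l m) l := by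
  set W : Module.End ℂ (Pl n A) := ∑ m, mz m * cz (X m * X l - X l * X m) with hW
  set V : Module.End ℂ (Pl n A) := ∑ m, mz m * cz (Y l m) with hV
  set O : Module.End ℂ (Pl n A) := ∑ m, mz m * cz ((1 / 4 : ℂ) • Ω l m) with hO
  have hYe : ∀ m, Y l m = (1 / 4 : ℂ) • Ω l m - (1 / 2 : ℂ) • (X m * X l - X l * X m) := by
    intro m
    have h1 := hY m l
    rw [hΩ m l, smul_neg, neg_neg] at h1
    rw [← h1]
    abel
  have hYX : ∀ m c, Y l m * X c = X c * Y l m := by
    intro m c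
    rw [hYe m, sub_mul, mul_sub, smul_mul_assoc, smul_mul_assoc, mul_smul_comm, mul_smul_comm,
      hΩX, hZ]
  have cW : W * gC X = gC X * W := (comm_sum_gC X fun m c => hZ m l c).eq
  have cV : V * gC X = gC X * V := (comm_sum_gC X hYX).eq
  have hVO : V = O - (1 / 2 : ℂ) • W := by
    rw [hV, hO, hW, smul_sum, ← sum_sub_distrib]
    refine sum_congr rfl fun m _ => ?_
    rw [hYe m, cz_sub, mul_sub, cz_smul (1 / 2 : ℂ), mul_smul_comm]
  have cP : (dl (bv l) - (1 / 2 : ℂ) • mz l) * gC X =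
      gC X * (dl (bv l) - (1 / 2 : ℂ) • mz l) + cz (X l) := by
    rw [sub_mul, mul_sub, dl_gC, smul_mul_assoc, (comm_mz_gC X l).eq, mul_smul_comm]
    abel
  have h1 : Dm X Y l * -(gu 1 (gC X)) = -(gu 1 (gC X)) * Dm X Y l +
      (gu 2 W - gu 1 (cz (X l))) := by
    rw [gu_Dm, ← hV]
    simp only [mul_neg, neg_mul, add_mul, mul_add, gu_mul]
    rw [cP, cz_gC, ← hW, cV, gu_add, gu_sub]
    simp only [Nat.reduceAdd, zero_add, add_zero]
    abel
  have h2 : (gu 2 W - gu 1 (cz (X l))) * -(gu 1 (gC X)) =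
      -(gu 1 (gC X)) * (gu 2 W - gu 1 (cz (X l))) + -(gu 2 W) := by
    simp only [mul_neg, neg_mul, sub_mul, mul_sub, gu_mul]
    rw [cz_gC, ← hW, cW, gu_sub]
    simp only [Nat.reduceAdd]
    abel
  have h3 : -(gu 2 W) * -(gu 1 (gC X)) = -(gu 1 (gC X)) * -(gu 2 W) := by
    simp only [mul_neg, neg_mul, neg_neg, gu_mul]
    rw [cW]
  have hcs : Cs 0 (Dm X Y l) := by
    rw [gu_Dm]
    exact ((gu_cs 0 _).add ((gu_cs 1 _).mono (by omega))).add ((gu_cs 2 _).mono (by omega))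
  rw [conj_expS (gau_B X) hcs h1 h2 h3]
  congr 1
  rw [gu_Dm, gu_Dm, ← hV, ← hO, hVO, cz_zero, gu_zero, gu_sub 2, gu_smul]
  module

private theorem gau_comm (X : Fin n → A →L[ℂ] A) {T : Op n A} (hT : Cs 0 T)
    (h : T * gu 1 (gC X) = gu 1 (gC X) * T) :
    T * expS (-(gu 1 (gC X))) = expS (-(gu 1 (gC X))) * T := by
  have h1 : T * -(gu 1 (gC X)) = -(gu 1 (gC X)) * T + 0 := by
    rw [add_zero, mul_neg, neg_mul, h]
  have h2 : (0 : Op n A) * -(gu 1 (gC X)) = -(gu 1 (gC X)) * 0 + 0 := by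
    rw [zero_mul, mul_zero, add_zero]
  have h3 : (0 : Op n A) * -(gu 1 (gC X)) = -(gu 1 (gC X)) * 0 := by
    rw [zero_mul, mul_zero]
  have h4 := conj_expS (gau_B X) hT h1 h2 h3
  rwa [smul_zero, add_zero, add_zero] at h4

theorem gauge (X : Fin n → A →L[ℂ] A) (Y Ω : Fin n → Fin n → A →L[ℂ] A) (F : A →L[ℂ] A)
    (hZ : ∀ a b c, (X a * X b - X b * X a) * X c = X c * (X a * X b - X b * X a))
    (hΩX : ∀ a b c, Ω a b * X c = X c * Ω a b)
    (hFX : ∀ c, F * X c = X c * F)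
    (hΩ : ∀ a b, Ω a b = - Ω b a)
    (hY : ∀ a b, (1 / 2 : ℂ) • (X a * X b - X b * X a) + Y b a = -((1 / 4 : ℂ) • Ω a b)) :
    Tmod X Y F * expS (-(up * cst (∑ l, mz l * cz (X l)))) =
      expS (-(up * cst (∑ l, mz l * cz (X l)))) *
        Tmod (fun _ => 0) (fun l m => (1 / 4 : ℂ) • Ω l m) F := by
  have eU : (-(up * cst (∑ l, mz l * cz (X l))) : Op n A) = -(gu 1 (gC X)) := by
    unfold gu gC
    rw [pow_one]
  rw [eU]
  set U : Op n A := expS (-(gu 1 (gC X))) with hU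
  have hD : ∀ l, Dm X Y l ^ 2 * U =
      U * Dm (fun _ => 0) (fun l m => (1 / 4 : ℂ) • Ω l m) l ^ 2 := by
    intro l
    have h := gau_D X Y Ω hZ hΩX hΩ hY l
    rw [← hU] at h
    rw [pow_two, pow_two, mul_assoc, h, ← mul_assoc, h, mul_assoc]
  have hN : (nn - cst eu) * U = U * (nn - cst eu) := by
    refine gau_comm X (cs_nn.sub (cs_cst _)) ?_
    have e1 : (nn * gu 1 (gC X) : Op n A) = gu 1 (gC X) * nn + gu 1 (gC X) := by
      unfold gu
      rw [pow_one, ← mul_assoc, nn_up, add_mul, mul_assoc, nn_cst, ← mul_assoc]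
    have e2 : (cst eu * gu 1 (gC X) : Op n A) = gu 1 (gC X) * cst eu + gu 1 (gC X) := by
      have e3 : (cst eu : Op n A) = gu 0 eu := by
        unfold gu
        rw [pow_zero, one_mul]
      rw [e3, gu_mul, gu_mul, eu_gC, gu_add]
    rw [sub_mul, mul_sub, e1, e2]
    abel
  have hQ : cst (∑ i, mz i * mz i) * U = U * cst (∑ i, mz i * mz i) := by
    refine gau_comm X (cs_cst _) ?_
    have e3 : (cst (∑ i, mz i * mz i) : Op n A) = gu 0 (∑ i, mz i * mz i) := by
      unfold gu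
      rw [pow_zero, one_mul]
    have e4 : Commute (∑ i, mz i * mz i : Module.End ℂ (Pl n A)) (gC X) :=
      Commute.sum_left _ _ _ fun i _ => (comm_mz_gC X i).mul_left (comm_mz_gC X i)
    rw [e3, gu_mul, gu_mul, e4.eq]
  have hF : up ^ 2 * cst (cz F) * U = U * (up ^ 2 * cst (cz F)) := by
    refine gau_comm X ((gu_cs 2 (cz F)).mono (by omega)) ?_
    have e4 : Commute (cz F : Module.End ℂ (Pl n A)) (gC X) := comm_cz_gC X hFX
    show gu 2 (cz F) * gu 1 (gC X) = gu 1 (gC X) * gu 2 (cz F)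
    rw [gu_mul, gu_mul, e4.eq]
  have hS : (∑ l, Dm X Y l ^ 2) * U =
      U * ∑ l, Dm (fun _ => 0) (fun l m => (1 / 4 : ℂ) • Ω l m) l ^ 2 := by
    rw [sum_mul, mul_sum]
    exact sum_congr rfl fun l _ => hD l
  unfold Tmod
  rw [← smul_sub, add_mul, sub_mul, add_mul, sub_mul, smul_mul_assoc, smul_mul_assoc,
    smul_mul_assoc, hN, hQ, hS, hF]
  simp only [mul_add, mul_sub, mul_smul_comm, one_mul, mul_one]

end Pool.Agent.EXO.L
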