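import Pool.Agent.EXO.LMaDef
import Pool.Agent.EXO.LFil

/-!
# EXO / LMdDef : the algebraic data at a point and the model coefficients (IDX-L): definitions

`N i j` is Clifford multiplication by the normal vector `II(v_i, v_j)`, `s i j k l = ⟨II(i,j), II(k,l)⟩`,
`h i` the other Clifford multiplication by `v_i`, `f` the action of matrices on the coefficients,
`C k l` the curvature matrix of the bundle on `(v_k, v_l)`.
-/

set_option autoImplicit false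
set_option maxSynthPendingDepth 3

open scoped ContDiff Topology
open Finset Matrix

noncomputable section

namespace Pool.Agent.EXO.L

variable {n : ℕ} {H : Type} [NormedAddCommGroup H] [NormedSpace ℂ H]
  {ι : Type} [Fintype ι] [DecidableEq ι]

/-- The algebraic data at a point. -/
structure MDat (n : ℕ) (H : Type) [NormedAddCommGroup H] [NormedSpace ℂ H]
    (ι : Type) [Fintype ι] [DecidableEq ι] extends CSys n H where
  N : Fin n → Fin n → (H →L[ℂ] H)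
  s : Fin n → Fin n → Fin n → Fin n → ℝ
  h : Fin n → (H →L[ℂ] H)
  f : Matrix ι ι ℂ →ₐ[ℂ] (H →L[ℂ] H)
  C : Fin n → Fin n → Matrix ι ι ℂ
  s_symm : ∀ i j k l, s i j k l = s j i k l
  s_pair : ∀ i j k l, s i j k l = s k l i j
  N_symm : ∀ i j, N i j = N j i
  N_g : ∀ i j, g * N i j = -(N i j * g)
  N_c : ∀ l i j, c l * N i j = -(N i j * c l)
  N_N : ∀ i j k l, N i j * N k l + N k l * N i j = ((-2 * s i j k l : ℝ) : ℂ) • 1
  h_g : ∀ i, g * h i = -(h i * g)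
  h_c : ∀ l i, c l * h i = -(h i * c l)
  h_N : ∀ i j k, h i * N j k = -(N j k * h i)
  h_h : ∀ i j, h i * h j + h j * h i = if i = j then 2 else 0
  f_g : ∀ T, g * f T = f T * g
  f_c : ∀ l T, c l * f T = f T * c l
  f_N : ∀ i j T, N i j * f T = f T * N i j
  f_h : ∀ i T, h i * f T = f T * h i
  C_anti : ∀ i j, C i j = -C j i

namespace MDat

variable (D : MDat n H ι)

/-- The curvature components. -/
def R (a b i j : Fin n) : ℝ := D.s a i b j - D.s a j b i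

/-- `X_a` -/
def X (a : Fin n) : (H →L[ℂ] H) →L[ℂ] (H →L[ℂ] H) :=
  (1 / 2 : ℂ) • ∑ i, lm (D.N a i) * D.Ee i

/-- `Y_{b m}` -/
def Y (b m : Fin n) : (H →L[ℂ] H) →L[ℂ] (H →L[ℂ] H) :=
  (1 / 4 : ℂ) • ∑ k, ∑ l, ((D.R b m k l : ℝ) : ℂ) • (D.Ee k * D.Ee l)

/-- `Ω_{ab}` -/
def Om : Matrix (Fin n) (Fin n) ((H →L[ℂ] H) →L[ℂ] (H →L[ℂ] H)) := fun a b =>
  (1 / 2 : ℂ) • ∑ k, ∑ l, ((D.R k l a b : ℝ) : ℂ) • (D.Ee k * D.Ee l)

/-- The first part of `𝔽`. -/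
def F1 : (H →L[ℂ] H) →L[ℂ] (H →L[ℂ] H) :=
  (1 / 4 : ℂ) • ∑ k, ∑ l, D.Om k l * (lm (D.h k) * lm (D.h l))

/-- The second part of `𝔽`. -/
def F2 : (H →L[ℂ] H) →L[ℂ] (H →L[ℂ] H) :=
  (1 / 2 : ℂ) • ∑ k, ∑ l, D.Ee k * D.Ee l * lm (D.f (D.C k l))

end MDat

/-- The data for the trace, `n = 14`. -/
structure TDat (H : Type) [NormedAddCommGroup H] [NormedSpace ℂ H]
    (ι : Type) [Fintype ι] [DecidableEq ι] extends MDat 14 H ι where
  sg : H →L[ℂ] H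
  Q : H →L[ℂ] H
  κ : ℂ
  sg_g : g * sg = sg * g
  sg_c : ∀ l, c l * sg = sg * c l
  sg_h : ∀ i, h i * sg = sg * h i
  Q_g : g * Q = Q * g
  Q_c : ∀ l, c l * Q = Q * c l
  Q_h : ∀ i, h i * Q = Q * h i

namespace TDat

variable (D : TDat H ι)

/-- The grading. -/
def Gam : H →L[ℂ] H := D.κ • ((List.ofFn D.c).prod * D.sg)

/-- The functional `X ↦ tr (Γ X(Q))`. -/
def t : ((H →L[ℂ] H) →L[ℂ] (H →L[ℂ] H)) →ₗ[ℂ] ℂ where
  toFun X := CSys.trc H (D.Gam * X D.Q)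
  map_add' X Y := by
    rw [_root_.add_apply, mul_add, map_add]
  map_smul' r X := by
    rw [_root_.smul_apply, mul_smul_comm, map_smul]
    rfl

/-- The two-forms `ω_ab`. -/
def om : Matrix (Fin 14) (Fin 14) (FA 14) := fun a b =>
  (1 / 2 : ℂ) • ∑ k, ∑ l, ((D.R k l a b : ℝ) : ℂ) • (of1 (bv k) * of1 (bv l))

/-- The curvature matrix of two-forms. -/
def fm : Matrix ι ι (FA 14) := fun p q =>
  (1 / 2 : ℂ) • ∑ k, ∑ l, D.C k l p q • (of1 (bv k) * of1 (bv l))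

end TDat

/-- The coefficients of the `L̂`-form. -/
def Lh1 {R : Type*} [Ring R] [Algebra ℂ R] (p2 : R) : R := (1 / 24 : ℂ) • p2

@[inherit_doc Lh1]
def Lh2 {R : Type*} [Ring R] [Algebra ℂ R] (p2 p4 : R) : R :=
  (1 / 1152 : ℂ) • p2 ^ 2 - (7 / 2880 : ℂ) • p4

@[inherit_doc Lh1]
def Lh3 {R : Type*} [Ring R] [Algebra ℂ R] (p2 p4 p6 : R) : R :=
  (1 / 82944 : ℂ) • p2 ^ 3 - (7 / 69120 : ℂ) • (p2 * p4) + (31 / 181440 : ℂ) • p6

end Pool.Agent.EXO.L
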