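import Pool.Agent.EXO.LgD
import Pool.Agent.EXO.LMdDef
import Pool.Agent.EXO.FmFA

/-!
# EXO / LGeDef : the algebraic data of a closed submanifold at a point (IDX-L)

`y ∈ V`, `v` an orthonormal basis of the tangent space at `y`.
-/

set_option autoImplicit false
set_option maxSynthPendingDepth 3

open scoped ContDiff Topology
open Finset Matrix

noncomputable section

namespace Pool.Agent.EXO.L

variable {n M : ℕ} {ι : Type} [Fintype ι] [DecidableEq ι]

variable (M) in
/-- `cf` as an algebra homomorphism. -/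
def cfH (ι : Type) [Fintype ι] [DecidableEq ι] : Matrix ι ι ℂ →ₐ[ℂ] EH M ι where
  toFun := cf
  map_one' := cf_one
  map_mul' := cf_mul
  map_zero' := cf_zero
  map_add' := cf_add
  commutes' r := by
    rw [Algebra.algebraMap_eq_smul_one, cf_smul, cf_one, Algebra.algebraMap_eq_smul_one]

theorem cfH_apply (T : Matrix ι ι ℂ) : cfH M ι T = cf T := rfl

/-- The second fundamental form on the basis `v`. -/
def IIv (V : Geo n M) (y : En M) (v : Fin n → En M) (i j : Fin n) : En M :=
  fderiv ℝ V.P y (v i) (v j)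

/-- The curvature of `E` on the vectors `v`, `w`. -/
def Fv (V : Geo n M) (E : Bd V ι) (y v w : En M) : Matrix ι ι ℂ :=
  E.e y * (fderiv ℝ E.e y v * fderiv ℝ E.e y w - fderiv ℝ E.e y w * fderiv ℝ E.e y v) * E.e y +
    E.e y * (∑ b, (((w b : ℝ) : ℂ) • fderiv ℝ (E.A b) y v -
      ((v b : ℝ) : ℂ) • fderiv ℝ (E.A b) y w)) * E.e y +
    ((∑ b, ((v b : ℝ) : ℂ) • E.A b y) * (∑ b, ((w b : ℝ) : ℂ) • E.A b y) -
      (∑ b, ((w b : ℝ) : ℂ) • E.A b y) * (∑ b, ((v b : ℝ) : ℂ) • E.A b y))

/-- A point of `V` with an orthonormal tangent basis. -/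
structure PtB (V : Geo n M) (y : En M) (v : Fin n → En M) : Prop where
  mem : y ∈ V.carrier
  on : Orthonormal ℝ v
  tan : ∀ i, V.P y (v i) = v i
  loc : V.Loc
  sym : SymII V

namespace PtB

variable {V : Geo n M} {y : En M} {v : Fin n → En M}

theorem inn (h : PtB V y v) (i j : Fin n) : (inner ℝ (v i) (v j) : ℝ) = if i = j then 1 else 0 :=
  orthonormal_iff_ite.1 h.on i j

theorem fd (h : PtB V y v) (w : En M) (hw : V.P y w = w) :
    V.P y * fderiv ℝ V.P y w * V.P y = 0 := by
  have hS : ∀ u : En M, fderiv ℝ V.P y (V.P y u) = ∑ b, (u b) • Pd V b y := by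
    intro u
    have h1 : u = ∑ b, (u b) • (bv b : En M) := epsv_sum_ee u
    conv_lhs => rw [h1, map_sum, map_sum]
    exact sum_congr rfl fun b _ => by rw [map_smul, map_smul]; rfl
  rw [← hw, hS, Finset.mul_sum, Finset.sum_mul]
  refine Finset.sum_eq_zero fun b _ => ?_
  rw [mul_smul_comm, smul_mul_assoc, P_Pd_P h.loc h.mem, smul_zero]

theorem II_nor (h : PtB V y v) (i j : Fin n) : V.P y (IIv V y v i j) = 0 := by
  have h1 := h.fd (v i) (h.tan i)
  have h2 := congrArg (fun T : En M →L[ℝ] En M => T (v j)) h1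
  simp only [mul_apply_eq_comp, ContinuousLinearMap.comp_apply, h.tan j] at h2
  exact h2

theorem II_inner (h : PtB V y v) (i j k : Fin n) :
    (inner ℝ (v k) (IIv V y v i j) : ℝ) = 0 := by
  rw [← h.tan k, V.P_sa y h.mem, h.II_nor, inner_zero_right]

theorem II_symm (h : PtB V y v) (i j : Fin n) : IIv V y v i j = IIv V y v j i :=
  h.sym y h.mem (v i) (v j) (h.tan i) (h.tan j)

end PtB

/-- The algebraic data at the point `y`. -/
def geoM (V : Geo n M) (E : Bd V ι) {y : En M} {v : Fin n → En M} (h : PtB V y v) :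
    MDat n (HF M ι) ι where
  c i := cv (v i)
  g := pr M ι
  cc i j := by
    rw [cv_cv, h.inn]
    split_ifs <;> simp
  gg := pr_pr
  gc i := pr_cv _
  N i j := cv (IIv V y v i j)
  s i j k l := inner ℝ (IIv V y v i j) (IIv V y v k l)
  h i := hv (v i)
  f := cfH M ι
  C k l := Fv V E y (v k) (v l)
  s_symm i j k l := by rw [h.II_symm i j]
  s_pair i j k l := real_inner_comm _ _
  N_symm i j := by rw [h.II_symm i j]
  N_g i j := pr_cv _
  N_c l i j := by
    have h1 := cv_cv (ι := ι) (v l) (IIv V y v i j)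
    rw [h.II_inner, mul_zero, Complex.ofReal_zero, zero_smul] at h1
    exact eq_neg_of_add_eq_zero_left h1
  N_N i j k l := cv_cv _ _
  h_g i := pr_hv _
  h_c l i := cv_hv _ _
  h_N i j k := by rw [cv_hv, neg_neg]
  h_h i j := by
    rw [hv_hv, h.inn]
    split_ifs
    · rw [mul_one, Complex.ofReal_ofNat, ← Algebra.algebraMap_eq_smul_one]
      exact map_ofNat _ 2
    · simp
  f_g T := pr_cf T
  f_c l T := (cf_cv T _).symm
  f_N i j T := (cf_cv T _).symm
  f_h i T := (cf_hv T _).symm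
  C_anti i j := by
    unfold Fv
    have h1 : (∑ b, (((v i b : ℝ) : ℂ) • fderiv ℝ (E.A b) y (v j) -
        ((v j b : ℝ) : ℂ) • fderiv ℝ (E.A b) y (v i))) =
        -(∑ b, (((v j b : ℝ) : ℂ) • fderiv ℝ (E.A b) y (v i) -
        ((v i b : ℝ) : ℂ) • fderiv ℝ (E.A b) y (v j))) := by
      rw [← Finset.sum_neg_distrib]
      exact sum_congr rfl fun b _ => by rw [neg_sub]
    rw [h1]
    noncomm_ring

/-- The trace data at the point `y`, `n = 14`. -/
def geoT {V : Geo 14 M} (E : Bd V ι) {y : En M} {v : Fin 14 → En M} (h : PtB V y v) :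
    TDat (HF M ι) ι where
  toMDat := geoM V E h
  sg := cf (diagonal E.s)
  Q := Qx V E y
  κ := Complex.I ^ 7
  sg_g := pr_cf _
  sg_c l := (cf_cv _ _).symm
  sg_h i := (cf_hv _ _).symm
  Q_g := by
    show pr M ι * Qx V E y = Qx V E y * pr M ι
    unfold Qx
    rw [← mul_assoc, pr_Lam, mul_assoc, pr_cf, mul_assoc]
  Q_c l := by
    show cv (v l) * Qx V E y = Qx V E y * cv (v l)
    rw [← h.tan l, Q_cv h.mem]
  Q_h l := by
    show hv (v l) * Qx V E y = Qx V E y * hv (v l)
    rw [← h.tan l, Q_hv h.mem]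

end Pool.Agent.EXO.L
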