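import Pool.Agent.EXO.LOps

/-!
# EXO / LHp : Taylor sequences of smooth functions (IDX-L): definitions

`hp w f z = (1/w!) D^w f(0)(z, …, z)`, the homogeneous part of degree `w` of the Taylor expansion
of `f` at `0`; `tay f` the sequence of all of them.
-/

set_option autoImplicit false
set_option maxSynthPendingDepth 3

open scoped ContDiff Topology
open Finset

noncomputable section

namespace Pool.Agent.EXO.L

variable {n : ℕ} {A B : Type*} [NormedAddCommGroup A] [NormedSpace ℂ A]
  [NormedAddCommGroup B] [NormedSpace ℂ B]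

/-- The homogeneous part of degree `w` of `f` at `0`. -/
def hp (w : ℕ) (f : En n → A) : En n → A :=
  fun z => ((w.factorial : ℝ)⁻¹) • iteratedFDeriv ℝ w f 0 (fun _ => z)

theorem hp_homog (w : ℕ) (f : En n → A) : Homog w (hp w f) := by
  constructor
  · have h1 : ContDiff ℝ ∞ (fun z : En n => (fun _ : Fin w => z)) :=
      contDiff_pi.2 fun _ => contDiff_id
    have h2 : ContDiff ℝ ∞ (fun m : Fin w → En n => iteratedFDeriv ℝ w f 0 m) :=
      (iteratedFDeriv ℝ w f 0).contDiff
    exact (h2.comp h1).const_smul ((w.factorial : ℝ)⁻¹)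
  · intro s z
    have h := (iteratedFDeriv ℝ w f 0).map_smul_univ (fun _ => s) (fun _ => z)
    simp only [hp, prod_const, card_univ, Fintype.card_fin] at h ⊢
    rw [h, smul_comm]

/-- The Taylor sequence of `f` at `0`. -/
def tay (f : En n → A) : Sq n A := fun w => ⟨hp w f, (hp_homog w f).mem⟩

theorem tay_apply (f : En n → A) (w : ℕ) (z : En n) : (tay f w : En n → A) z = hp w f z := rfl

end Pool.Agent.EXO.L
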