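import Pool.Agent.EXO.LHp

/-!
# EXO / LHpA : Taylor sequences, linear rules (IDX-L)

* `tay_congr` : `Filter.EventuallyEq.iteratedFDeriv`.
* `tay_add`, `tay_smul`, `tay_sum` : `iteratedFDeriv_add_apply`, `iteratedFDeriv_const_smul_apply`
  (with `ContDiffAt ℝ w`).
* `tay_clm` : `ContinuousLinearMap.iteratedFDeriv_comp_left` (for `a.restrictScalars ℝ`).
* `tay_zero'`, `tay_one` : `iteratedFDeriv_zero_apply`, `iteratedFDeriv_one_apply`.
* `tay_two_apply`: `iteratedFDeriv_two_apply`.
* `tay_const`, `tay_lin` : for a constant function all derivatives of positive order vanish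
  (`iteratedFDeriv_const_of_ne`); for a continuous linear map `L` the sequence is concentrated in
  weight one: use `tay_fderiv` (LHpC) or `ContinuousLinearMap.iteratedFDeriv...`; e.g.
  `iteratedFDeriv_succ_apply_right` (`D^{w+1} f (m) = D^w (Df) (init m) (last m)`) and the fact that
  `fderiv ℝ L` is constant.
* `tay_taylor` (the Taylor expansion): for `f` smooth at `0` and every `N`,
  `f z - ∑ w ∈ range N, hp w f z = O(‖z‖^N)`.
  Proof: `f` is `C^N` in a ball `‖z‖ < r`, with `‖D^N f‖ ≤ K` on a smaller ball.  Fix `z` with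
  `‖z‖ ≤ r/2` and `g(s) = f(s z)`, `s ∈ [0,1]`; `g^{(w)}(s) = D^w f(sz)(z,…,z)` (induction on `w`,
  chain rule, `iteratedFDeriv_succ_apply_right/left`), so `‖g^{(N)}‖ ≤ K ‖z‖^N`; now
  `taylor_mean_remainder_bound` (Mathlib, values in a normed space) on `[0,1]`.
  The case `N = 0`: continuity.
* `tay_eq_zero` : if `f = O(‖z‖^N)` then `∑ w ∈ range N, hp w f z = O(‖z‖^N)` by `tay_taylor`.
  Replace `z` by `s z`, `0 < s → 0`: `∑_{w<N} s^w hp w f z = O(s^N)`, so all `hp w f z = 0`, `w < N`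
  (take the smallest `w` with `hp w f z ≠ 0`, divide by `s^w`, let `s → 0`).
-/

set_option autoImplicit false
set_option maxSynthPendingDepth 3

open scoped ContDiff Topology
open Finset

noncomputable section

namespace Pool.Agent.EXO.L

variable {n : ℕ} {A B : Type*} [NormedAddCommGroup A] [NormedSpace ℂ A]
  [NormedAddCommGroup B] [NormedSpace ℂ B]

private theorem cle (w : ℕ) : ((w : ℕ∞) : WithTop ℕ∞) ≤ (∞ : WithTop ℕ∞) :=
  WithTop.coe_le_coe.2 le_top

private theorem cfin {f : En n → A} (hf : ContDiffAt ℝ ∞ f 0) (w : ℕ) : ContDiffAt ℝ w f 0 :=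
  hf.of_le (cle w)

private theorem sq_ext {P Q : Sq n A} (h : ∀ w z, (P w : En n → A) z = (Q w : En n → A) z) :
    P = Q := by
  funext w
  exact Subtype.ext (funext fun z => h w z)

theorem tay_congr {f g : En n → A} (h : f =ᶠ[𝓝 0] g) : tay f = tay g := by
  refine sq_ext fun w z => ?_
  rw [tay_apply, tay_apply, hp, hp, (h.iteratedFDeriv ℝ w).eq_of_nhds]

theorem tay_add {f g : En n → A} (hf : ContDiffAt ℝ ∞ f 0) (hg : ContDiffAt ℝ ∞ g 0) :
    tay (fun z => f z + g z) = tay f + tay g := by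
  refine sq_ext fun w z => ?_
  simp only [Pi.add_apply, Submodule.coe_add, tay_apply, hp]
  rw [fun_iteratedFDeriv_add_apply (cfin hf w) (cfin hg w), _root_.add_apply,
    smul_add]

theorem tay_sub {f g : En n → A} (hf : ContDiffAt ℝ ∞ f 0) (hg : ContDiffAt ℝ ∞ g 0) :
    tay (fun z => f z - g z) = tay f - tay g := by
  refine sq_ext fun w z => ?_
  simp only [Pi.sub_apply, AddSubgroupClass.coe_sub, tay_apply, hp]
  rw [fun_iteratedFDeriv_sub_apply (cfin hf w) (cfin hg w), _root_.sub_apply,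
    smul_sub]

theorem tay_smul (c : ℂ) {f : En n → A} (hf : ContDiffAt ℝ ∞ f 0) :
    tay (fun z => c • f z) = c • tay f := by
  refine sq_ext fun w z => ?_
  simp only [Pi.smul_apply, SetLike.val_smul, tay_apply, hp]
  rw [iteratedFDeriv_const_smul_apply' (cfin hf w), _root_.smul_apply, smul_comm]

private theorem tay_zero_fun : tay (fun _ : En n => (0 : A)) = 0 := by
  refine sq_ext fun w z => ?_
  simp only [Pi.zero_apply, ZeroMemClass.coe_zero, tay_apply, hp]
  rcases Nat.eq_zero_or_pos w with rfl | hw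
  · simp
  · rw [iteratedFDeriv_const_of_ne hw.ne']
    simp

theorem tay_sum {ι : Type*} (s : Finset ι) {f : ι → En n → A}
    (hf : ∀ i ∈ s, ContDiffAt ℝ ∞ (f i) 0) :
    tay (fun z => ∑ i ∈ s, f i z) = ∑ i ∈ s, tay (f i) := by
  classical
  induction s using Finset.induction_on with
  | empty => simpa using tay_zero_fun (n := n) (A := A)
  | insert i s hi ih =>
    have h1 : ContDiffAt ℝ ∞ (fun z => ∑ i ∈ s, f i z) 0 :=
      ContDiffAt.sum fun j hj => hf j (mem_insert_of_mem hj)
    rw [sum_insert hi, ← ih fun j hj => hf j (mem_insert_of_mem hj),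
      ← tay_add (hf i (mem_insert_self _ _)) h1]
    congr 1
    funext z
    rw [sum_insert hi]

theorem tay_clm (a : A →L[ℂ] B) {f : En n → A} (hf : ContDiffAt ℝ ∞ f 0) :
    tay (fun z => a (f z)) = cst (cz a) (tay f) := by
  refine sq_ext fun w z => ?_
  rw [cst_apply, cz_apply, tay_apply, tay_apply, hp, hp]
  have h := (a.restrictScalars ℝ).iteratedFDeriv_comp_left hf (i := w) (cle w)
  have h2 : ((a.restrictScalars ℝ : A →L[ℝ] B) ∘ f) = fun z => a (f z) := rfl
  rw [h2] at h
  rw [h]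
  simp only [ContinuousLinearMap.compContinuousMultilinearMap_coe, Function.comp_apply,
    ContinuousLinearMap.coe_restrictScalars']
  exact ((a.restrictScalars ℝ).map_smul _ _).symm

theorem tay_zero' (f : En n → A) (z : En n) : (tay f 0 : En n → A) z = f 0 := by
  rw [tay_apply, hp]
  simp

theorem tay_one (f : En n → A) (z : En n) : (tay f 1 : En n → A) z = fderiv ℝ f 0 z := by
  rw [tay_apply, hp]
  simp

theorem tay_two (f : En n → A) (z : En n) :
    (tay f 2 : En n → A) z = (1 / 2 : ℝ) • fderiv ℝ (fderiv ℝ f) 0 z z := by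
  rw [tay_apply, hp, iteratedFDeriv_two_apply]
  norm_num

theorem tay_const (a : A) : tay (fun _ : En n => a) = s0 (pc a) := by
  refine sq_ext fun w z => ?_
  rw [tay_apply, hp]
  cases w with
  | zero => simp [pc_apply]
  | succ w =>
    rw [iteratedFDeriv_const_of_ne (Nat.succ_ne_zero w)]
    simp

theorem tay_lin (L : En n →L[ℝ] A) (w : ℕ) (hw : w ≠ 1) : tay (fun z => L z) w = 0 := by
  refine Subtype.ext (funext fun z => ?_)
  rw [tay_apply, hp]
  match w, hw with
  | 0, _ => simp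
  | 1, h => exact absurd rfl h
  | w + 2, _ =>
    rw [iteratedFDeriv_succ_apply_right]
    have h1 : (fun y => fderiv ℝ (fun z => L z) y) = fun _ => L := by
      funext y
      exact L.fderiv
    rw [h1, iteratedFDeriv_const_of_ne (Nat.succ_ne_zero w)]
    simp

private theorem taylor_complete {F : Type*} [NormedAddCommGroup F] [NormedSpace ℝ F]
    [CompleteSpace F] {f : En n → F} (hf : ContDiffAt ℝ ∞ f 0) (N : ℕ) :
    (fun z => f z - ∑ w ∈ range N, ((w.factorial : ℝ)⁻¹) • iteratedFDeriv ℝ w f 0 (fun _ => z))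
      =O[𝓝 0] fun z => ‖z‖ ^ N := by
  cases N with
  | zero =>
    simp only [range_zero, sum_empty, sub_zero, pow_zero]
    have h1 : Filter.Tendsto f (𝓝 0) (𝓝 (f 0)) := hf.continuousAt
    exact h1.isBigO_one ℝ
  | succ N =>
    have h1 : ContDiffAt ℝ ((N + 1 : ℕ) : WithTop ℕ∞) f 0 := hf.of_le (cle (N + 1))
    have h2 : ∀ᶠ y in 𝓝 (0 : En n), ContDiffAt ℝ ((N + 1 : ℕ) : WithTop ℕ∞) f y :=
      h1.eventually (by
        intro h
        exact ENat.natCast_ne_top (N + 1) (WithTop.coe_injective h))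
    have h3 : ContinuousAt (iteratedFDeriv ℝ (N + 1) f) 0 :=
      (h1.iteratedFDeriv_right (i := N + 1) (m := 0) (by simp)).continuousAt
    have h4 : ∀ᶠ y in 𝓝 (0 : En n),
        ‖iteratedFDeriv ℝ (N + 1) f y‖ < ‖iteratedFDeriv ℝ (N + 1) f 0‖ + 1 :=
      h3.norm.eventually_lt continuousAt_const (by linarith)
    obtain ⟨r, hr, hb⟩ := Metric.eventually_nhds_iff.1 (h2.and h4)
    set K := ‖iteratedFDeriv ℝ (N + 1) f 0‖ + 1 with hK
    refine Asymptotics.IsBigO.of_bound ((N.factorial : ℝ)⁻¹ * K) ?_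
    filter_upwards [Metric.ball_mem_nhds (0 : En n) hr] with z hz
    have hz' : ‖z‖ < r := by simpa using hz
    have hseg : ∀ t ∈ Set.Icc (0 : ℝ) 1, dist (0 + t • z) 0 < r := by
      intro t ht
      rw [zero_add, dist_zero_right, norm_smul, Real.norm_eq_abs, abs_of_nonneg ht.1]
      calc t * ‖z‖ ≤ 1 * ‖z‖ := by gcongr; exact ht.2
        _ < r := by rwa [one_mul]
    have key := map_add_eq_sum_add_integral_iteratedFDeriv (f := f) (x := 0) (y := z) (n := N)
      (fun t ht => by
        have := (hb (hseg t ht)).1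
        exact_mod_cast this)
    rw [zero_add] at key
    rw [key, add_sub_cancel_left, norm_smul]
    have hint : ‖∫ t in (0 : ℝ)..1, (1 - t) ^ N • iteratedFDeriv ℝ (N + 1) f (0 + t • z)
        (fun _ => z)‖ ≤ (K * ‖z‖ ^ (N + 1)) * |(1 : ℝ) - 0| := by
      refine intervalIntegral.norm_integral_le_of_norm_le_const fun t ht => ?_
      rw [Set.uIoc_of_le zero_le_one] at ht
      have ht' : t ∈ Set.Icc (0 : ℝ) 1 := ⟨ht.1.le, ht.2⟩
      rw [norm_smul]
      have e1 : ‖(1 - t) ^ N‖ ≤ 1 := by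
        rw [norm_pow, Real.norm_eq_abs, abs_of_nonneg (by linarith [ht.2])]
        exact pow_le_one₀ (by linarith [ht.2]) (by linarith [ht.1])
      have e2 : ‖iteratedFDeriv ℝ (N + 1) f (0 + t • z) (fun _ => z)‖ ≤ K * ‖z‖ ^ (N + 1) := by
        refine (ContinuousMultilinearMap.le_opNorm _ _).trans ?_
        rw [prod_const, card_univ, Fintype.card_fin]
        gcongr
        exact (hb (hseg t ht')).2.le
      calc _ ≤ 1 * (K * ‖z‖ ^ (N + 1)) := mul_le_mul e1 e2 (norm_nonneg _) zero_le_one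
        _ = _ := one_mul _
    rw [norm_pow, norm_norm]
    have e3 : ‖((N.factorial : ℝ)⁻¹)‖ = (N.factorial : ℝ)⁻¹ := by
      rw [Real.norm_eq_abs, abs_of_nonneg (by positivity)]
    rw [e3]
    calc _ ≤ (N.factorial : ℝ)⁻¹ * ((K * ‖z‖ ^ (N + 1)) * |(1 : ℝ) - 0|) := by gcongr
      _ = _ := by simp; ring

theorem tay_taylor {f : En n → A} (hf : ContDiffAt ℝ ∞ f 0) (N : ℕ) :
    (fun z => f z - ∑ w ∈ range N, hp w f z) =O[𝓝 0] fun z => ‖z‖ ^ N := by
  let J : A →L[ℝ] UniformSpace.Completion A := UniformSpace.Completion.toComplL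
  have hJ : ContDiffAt ℝ ∞ (J ∘ f) 0 := J.contDiff.contDiffAt.comp 0 hf
  have h := taylor_complete hJ N
  have e : ∀ z, ‖(J ∘ f) z - ∑ w ∈ range N, ((w.factorial : ℝ)⁻¹) •
      iteratedFDeriv ℝ w (J ∘ f) 0 (fun _ => z)‖ = ‖f z - ∑ w ∈ range N, hp w f z‖ := by
    intro z
    have e1 : ∀ w, ((w.factorial : ℝ)⁻¹) • iteratedFDeriv ℝ w (J ∘ f) 0 (fun _ => z) =
        J (hp w f z) := by
      intro w
      rw [J.iteratedFDeriv_comp_left hf (cle w), hp, J.map_smul]
      rfl
    rw [sum_congr rfl fun w _ => e1 w, ← map_sum, Function.comp_apply, ← map_sub]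
    exact UniformSpace.Completion.norm_coe _
  refine Asymptotics.IsBigO.of_norm_left ?_
  exact (h.norm_left).congr_left e

/-- A polynomial in `s` which is `O(s^N)` has vanishing coefficients of index `< N`. -/
theorem LHpA_poly_zero {F : Type*} [NormedAddCommGroup F] [NormedSpace ℝ F] (N : ℕ) :
    ∀ a : ℕ → F, (fun s : ℝ => ∑ w ∈ range N, s ^ w • a w) =O[𝓝[≠] 0] (fun s : ℝ => s ^ N) →
      ∀ w < N, a w = 0 := by
  induction N with
  | zero => intro a _ w hw; omega
  | succ N ih =>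
    intro a h
    have hc : Filter.Tendsto (fun s : ℝ => ∑ w ∈ range (N + 1), s ^ w • a w) (𝓝[≠] 0)
        (𝓝 (∑ w ∈ range (N + 1), (0 : ℝ) ^ w • a w)) := by
      have : Continuous fun s : ℝ => ∑ w ∈ range (N + 1), s ^ w • a w := by fun_prop
      exact (this.tendsto 0).mono_left nhdsWithin_le_nhds
    have h0 : ∑ w ∈ range (N + 1), (0 : ℝ) ^ w • a w = a 0 := by
      rw [sum_range_succ']
      simp
    rw [h0] at hc
    have hz : Filter.Tendsto (fun s : ℝ => s ^ (N + 1)) (𝓝[≠] 0) (𝓝 0) := by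
      have : Continuous fun s : ℝ => s ^ (N + 1) := by fun_prop
      have h1 := (this.tendsto 0).mono_left (nhdsWithin_le_nhds (s := {0}ᶜ))
      simpa using h1
    have ha0 : a 0 = 0 := tendsto_nhds_unique hc (h.trans_tendsto hz)
    have hs : ∀ s : ℝ, ∑ w ∈ range (N + 1), s ^ w • a w =
        s • ∑ w ∈ range N, s ^ w • a (w + 1) := by
      intro s
      rw [sum_range_succ', ha0, smul_zero, add_zero, smul_sum]
      exact sum_congr rfl fun w _ => by rw [smul_smul, pow_succ']
    have h2 : (fun s : ℝ => ∑ w ∈ range N, s ^ w • a (w + 1)) =O[𝓝[≠] 0] (fun s : ℝ => s ^ N) := by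
      have h3 := (Asymptotics.isBigO_refl (fun s : ℝ => s⁻¹) (𝓝[≠] 0)).smul h
      refine h3.congr' ?_ ?_
      · filter_upwards [self_mem_nhdsWithin] with s hs'
        have hs' : s ≠ 0 := hs'
        rw [hs, smul_smul, inv_mul_cancel₀ hs', one_smul]
      · filter_upwards [self_mem_nhdsWithin] with s hs'
        have hs' : s ≠ 0 := hs'
        rw [smul_eq_mul, pow_succ]
        field_simp
    have h4 := ih (fun w => a (w + 1)) h2
    intro w hw
    cases w with
    | zero => exact ha0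
    | succ w => exact h4 w (by omega)

private theorem tendsto_line (z : En n) :
    Filter.Tendsto (fun s : ℝ => s • z) (𝓝[≠] 0) (𝓝 (0 : En n)) := by
  have : Continuous fun s : ℝ => s • z := by fun_prop
  have h1 := (this.tendsto 0).mono_left (nhdsWithin_le_nhds (s := {0}ᶜ))
  simpa using h1

private theorem line_bound (z : En n) (N : ℕ) :
    (fun s : ℝ => ‖s • z‖ ^ N) =O[𝓝[≠] 0] (fun s : ℝ => s ^ N) := by
  refine Asymptotics.IsBigO.of_bound (‖z‖ ^ N) (Filter.Eventually.of_forall fun s => ?_)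
  rw [norm_pow, norm_pow, norm_norm, norm_smul, mul_pow, mul_comm]

/-- Taylor expansion along a line. -/
theorem LHpA_line {f : En n → A} (hf : ContDiffAt ℝ ∞ f 0) (N : ℕ) (z : En n) :
    (fun s : ℝ => f (s • z) - ∑ w ∈ range N, s ^ w • hp w f z) =O[𝓝[≠] 0]
      (fun s : ℝ => s ^ N) := by
  have h := ((tay_taylor hf N).comp_tendsto (tendsto_line z)).trans (line_bound z N)
  refine h.congr_left fun s => ?_
  simp only [Function.comp_apply]
  congr 1
  exact sum_congr rfl fun w _ => (hp_homog w f).2 s z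

theorem tay_eq_zero {f : En n → A} (hf : ContDiffAt ℝ ∞ f 0) (N : ℕ)
    (h : f =O[𝓝 0] fun z => ‖z‖ ^ N) (w : ℕ) (hw : w < N) : tay f w = 0 := by
  refine Subtype.ext (funext fun z => ?_)
  rw [tay_apply]
  have h1 := LHpA_line hf N z
  have h2 := (h.comp_tendsto (tendsto_line z)).trans (line_bound z N)
  have h3 : (fun s : ℝ => ∑ w ∈ range N, s ^ w • hp w f z) =O[𝓝[≠] 0] (fun s : ℝ => s ^ N) := by
    refine (h2.sub h1).congr_left fun s => ?_
    simp only [Function.comp_apply]
    abel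
  exact LHpA_poly_zero N (fun w => hp w f z) h3 w hw

end Pool.Agent.EXO.L
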