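import Pool.Agent.EXO.LHpA

/-!
# EXO / LHpB : Taylor sequences, product rule (IDX-L)

`tay_mul`: for `g : ℝ^n → (A →L[ℂ] B)`, `f : ℝ^n → A` smooth at `0`:
`tay (fun z => g z (f z)) = mulS (tay g) (tay f)`.

Proof (from the Taylor expansion `tay_taylor`).  Fix the weight `w` and put `N = w + 1`.
Let `G z = ∑_{i<N} hp i g z`, `F z = ∑_{j<N} hp j f z`.  Then `g - G = O(‖z‖^N)`,
`f - F = O(‖z‖^N)`, all four functions are bounded near `0`, so
`g z (f z) - G z (F z) = O(‖z‖^N)`, and `G z (F z) = ∑_{i,j<N} (hp i g z)(hp j f z)`, the terms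
with `i + j ≥ N` being `O(‖z‖^N)`.  Hence the smooth function
`h z := g z (f z) - ∑_{v<N} ∑_{i+j=v} (hp i g z)(hp j f z)` is `O(‖z‖^N)` and by `tay_eq_zero`
`tay h v = 0` for `v < N`.  Finally `tay` of a homogeneous polynomial `p` of degree `v` is
concentrated in weight `v` with the value `p` (`tay_homog`), and `tay` is additive (`tay_sum`).

`tay_homog`: let `p` be homogeneous of degree `v`.  `p (s z) = s^v p z`.  By `tay_taylor`,
`s^v p(z) - ∑_{w<N} s^w hp w p z = O(s^N)` for `s → 0` (any `N > v`), hence comparing coefficients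
`hp v p = p` and `hp w p = 0` for `w ≠ v`, `w < N`.
-/

set_option autoImplicit false
set_option maxSynthPendingDepth 3

open scoped ContDiff Topology
open Finset

noncomputable section

namespace Pool.Agent.EXO.L

variable {n : ℕ} {A B : Type*} [NormedAddCommGroup A] [NormedSpace ℂ A]
  [NormedAddCommGroup B] [NormedSpace ℂ B]

theorem tay_homog {v : ℕ} {p : En n → A} (hp' : Homog v p) (w : ℕ) :
    tay p w = if w = v then (⟨p, hp'.mem⟩ : Pl n A) else 0 := by
  refine Subtype.ext (funext fun z => ?_)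
  have h := LHpA_line (f := p) hp'.1.contDiffAt (w + v + 1) z
  have h1 : (fun s : ℝ => ∑ u ∈ range (w + v + 1), s ^ u • ((if u = v then p z else 0) - hp u p z))
      =O[𝓝[≠] 0] (fun s : ℝ => s ^ (w + v + 1)) := by
    refine h.congr_left fun s => ?_
    rw [hp'.2 s z]
    simp only [smul_sub, sum_sub_distrib, smul_ite, smul_zero]
    rw [sum_ite_eq' (range (w + v + 1)) v fun u => s ^ u • p z, if_pos (by rw [mem_range]; omega)]
  have h2 := LHpA_poly_zero (w + v + 1) _ h1 w (by omega)
  have h3 : hp w p z = if w = v then p z else 0 := (sub_eq_zero.1 h2).symm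
  show hp w p z = _
  rw [h3]
  split_ifs <;> rfl

theorem tay_mul {g : En n → A →L[ℂ] B} {f : En n → A} (hg : ContDiffAt ℝ ∞ g 0)
    (hf : ContDiffAt ℝ ∞ f 0) : tay (fun z => g z (f z)) = mulS (tay g) (tay f) := by
  have happ : ContDiffAt ℝ ∞ (fun z => g z (f z)) 0 := by
    let ap : (A →L[ℂ] B) →L[ℝ] A →L[ℝ] B :=
      ContinuousLinearMap.restrictScalarsL ℂ A B ℝ ℝ
    have h1 : ContDiffAt ℝ ∞ (fun z => ap (g z)) 0 := ap.contDiff.contDiffAt.comp 0 hg
    exact h1.clm_apply hf
  funext w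
  refine Subtype.ext (funext fun z => ?_)
  set N := w + 1 with hNdef
  have hG := LHpA_line hg N z
  have hF := LHpA_line hf N z
  have hH := LHpA_line happ N z
  -- the partial sums
  set G : ℝ → (A →L[ℂ] B) := fun s => ∑ i ∈ range N, s ^ i • hp i g z with hGdef
  set F : ℝ → A := fun s => ∑ j ∈ range N, s ^ j • hp j f z with hFdef
  have hl : Filter.Tendsto (fun s : ℝ => s • z) (𝓝[≠] 0) (𝓝 (0 : En n)) := by
    have : Continuous fun s : ℝ => s • z := by fun_prop
    have h1 := (this.tendsto 0).mono_left (nhdsWithin_le_nhds (s := {0}ᶜ))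
    simpa using h1
  have hgb : (fun s : ℝ => g (s • z)) =O[𝓝[≠] 0] (fun _ => (1 : ℝ)) :=
    (hg.continuousAt.tendsto.comp hl).isBigO_one ℝ
  have hFb : F =O[𝓝[≠] 0] (fun _ => (1 : ℝ)) := by
    have : Continuous F := by
      simp only [hFdef]
      fun_prop
    exact ((this.tendsto 0).mono_left nhdsWithin_le_nhds).isBigO_one ℝ
  have hmul : ∀ (a : ℝ → (A →L[ℂ] B)) (b : ℝ → A) (u v : ℝ → ℝ), a =O[𝓝[≠] 0] u →
      b =O[𝓝[≠] 0] v → (fun s => a s (b s)) =O[𝓝[≠] 0] fun s => u s * v s := by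
    intro a b u v ha hb
    have h1 : (fun s => a s (b s)) =O[𝓝[≠] 0] fun s => ‖a s‖ * ‖b s‖ := by
      refine Asymptotics.IsBigO.of_bound 1 (Filter.Eventually.of_forall fun s => ?_)
      rw [one_mul, norm_mul, norm_norm, norm_norm]
      exact (a s).le_opNorm _
    exact h1.trans (ha.norm_left.mul hb.norm_left)
  have e1 : (fun s : ℝ => g (s • z) (f (s • z)) - G s (F s)) =O[𝓝[≠] 0] (fun s : ℝ => s ^ N) := by
    have a1 := hmul _ _ _ _ hgb hF
    have a2 := hmul _ _ _ _ hG hFb
    simp only [one_mul, mul_one] at a1 a2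
    refine (a1.add a2).congr_left fun s => ?_
    simp only [hGdef, hFdef, map_sub, _root_.sub_apply]
    abel
  -- the product of the partial sums
  have e2 : (fun s : ℝ => G s (F s) - ∑ v ∈ range N, s ^ v •
      ∑ ij ∈ antidiagonal v, hp ij.1 g z (hp ij.2 f z)) =O[𝓝[≠] 0] (fun s : ℝ => s ^ N) := by
    have key : ∀ s : ℝ, G s (F s) - ∑ v ∈ range N, s ^ v •
        ∑ ij ∈ antidiagonal v, hp ij.1 g z (hp ij.2 f z) =
        ∑ ij ∈ (range N ×ˢ range N).filter (fun ij => N ≤ ij.1 + ij.2),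
          s ^ (ij.1 + ij.2) • hp ij.1 g z (hp ij.2 f z) := by
      intro s
      have k1 : G s (F s) = ∑ ij ∈ range N ×ˢ range N,
          s ^ (ij.1 + ij.2) • hp ij.1 g z (hp ij.2 f z) := by
        simp only [hGdef, hFdef]
        rw [_root_.sum_apply, sum_product]
        refine sum_congr rfl fun i _ => ?_
        rw [map_sum]
        refine sum_congr rfl fun j _ => ?_
        have c1 : (hp i g z) (s ^ j • hp j f z) = s ^ j • (hp i g z) (hp j f z) :=
          ((hp i g z).restrictScalars ℝ).map_smul _ _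
        rw [_root_.smul_apply, c1, smul_smul, pow_add]
      have k2 : ∑ v ∈ range N, s ^ v • ∑ ij ∈ antidiagonal v, hp ij.1 g z (hp ij.2 f z) =
          ∑ ij ∈ (range N ×ˢ range N).filter (fun ij => ¬ N ≤ ij.1 + ij.2),
            s ^ (ij.1 + ij.2) • hp ij.1 g z (hp ij.2 f z) := by
        simp only [smul_sum]
        rw [sum_sigma']
        refine sum_nbij' (fun x => x.2) (fun ij => ⟨ij.1 + ij.2, ij⟩) ?_ ?_ ?_ ?_ ?_
        · rintro ⟨v, i, j⟩ h
          simp only [mem_sigma, mem_range, HasAntidiagonal.mem_antidiagonal] at h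
          simp only [mem_filter, mem_product, mem_range]
          omega
        · rintro ⟨i, j⟩ h
          simp only [mem_filter, mem_product, mem_range] at h
          exact mem_sigma.2 ⟨mem_range.2 (by simp only; omega), HasAntidiagonal.mem_antidiagonal.2 rfl⟩
        · rintro ⟨v, i, j⟩ h
          simp only [mem_sigma, mem_range, HasAntidiagonal.mem_antidiagonal] at h
          obtain ⟨h1, h2⟩ := h
          subst h2
          rfl
        · rintro ⟨i, j⟩ _
          rfl
        · rintro ⟨v, i, j⟩ h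
          simp only [mem_sigma, mem_range, HasAntidiagonal.mem_antidiagonal] at h
          rw [h.2]
      rw [k1, k2, ← sum_filter_add_sum_filter_not (range N ×ˢ range N)
        (fun ij => N ≤ ij.1 + ij.2)]
      abel
    refine Asymptotics.IsBigO.congr_left ?_ fun s => (key s).symm
    refine Asymptotics.IsBigO.fun_sum fun ij hij => ?_
    have hle : N ≤ ij.1 + ij.2 := (mem_filter.1 hij).2
    obtain ⟨k, hk⟩ := Nat.exists_eq_add_of_le hle
    have h1 : (fun s : ℝ => s ^ (ij.1 + ij.2)) =O[𝓝[≠] 0] (fun s : ℝ => s ^ N) := by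
      have h2 : (fun s : ℝ => s ^ k) =O[𝓝[≠] 0] (fun _ => (1 : ℝ)) := by
        have : Continuous fun s : ℝ => s ^ k := by fun_prop
        exact ((this.tendsto 0).mono_left nhdsWithin_le_nhds).isBigO_one ℝ
      have h3 := (Asymptotics.isBigO_refl (fun s : ℝ => s ^ N) (𝓝[≠] 0)).mul h2
      refine h3.congr (fun s => ?_) (fun s => by rw [mul_one])
      rw [hk, pow_add s N k]
    have h5 : (fun _ : ℝ => hp ij.1 g z (hp ij.2 f z)) =O[𝓝[≠] 0] (fun _ : ℝ => (1 : ℝ)) :=
      Asymptotics.isBigO_const_const _ one_ne_zero _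
    have h6 := h1.smul h5
    refine h6.congr_right fun s => ?_
    rw [smul_eq_mul, mul_one]
  have e3 : (fun s : ℝ => ∑ v ∈ range N, s ^ v • (hp v (fun z => g z (f z)) z -
      ∑ ij ∈ antidiagonal v, hp ij.1 g z (hp ij.2 f z))) =O[𝓝[≠] 0] (fun s : ℝ => s ^ N) := by
    refine ((e1.add e2).sub hH).congr_left fun s => ?_
    simp only [smul_sub, sum_sub_distrib]
    abel
  have e4 := LHpA_poly_zero N _ e3 w (by omega)
  rw [tay_apply, sub_eq_zero.1 e4, mulS_apply]
  simp only [AddSubmonoidClass.coe_finsetSum, Finset.sum_apply]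
  rfl

end Pool.Agent.EXO.L
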