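import Pool.Agent.EXO.LHpB

/-!
# EXO / LHpC : Taylor sequences, derivative rule (IDX-L)

`tay_fderiv`: for `f` smooth at `0`: `up (tay (∂_v f)) = cst (dl v) (tay f)`, i.e.
`hp w (∂_v f) = ∂_v (hp (w+1) f)` and `∂_v (hp 0 f) = 0` (`hp 0 f` is constant).

Proof (Mathlib has the symmetry of iterated derivatives only for analytic functions, so we avoid
it).  Fix `w`; let `N = 2 (w + 1) + 2`, `p = ∑_{u<N} hp u f`, `R = f - p`, which is smooth at `0` and
`O(‖z‖^N)` (`tay_taylor`).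
(1) `∂_v R = O(‖z‖^(w+1))`: `R` is `C²` near `0`, so there are `C, r > 0` with
`‖R (z + h v) - R z - h ∂_v R z‖ ≤ C h²` for `‖z‖ < r`, `0 ≤ h < r` (mean value inequality for
`fderiv ℝ R`, which is Lipschitz near `0`); take `h = ‖z‖^(w+1)`: `‖R(z+hv)‖`, `‖R z‖` are
`O(‖z‖^N)`, so `h ‖∂_v R z‖ ≤ C' ‖z‖^N + C h²`, and dividing by `h`: `O(‖z‖^(w+1))`.
(2) By `tay_eq_zero` (with `N := w + 1`) `tay (∂_v R) w = 0`.
(3) `∂_v p = ∑_{u<N} ∂_v (hp u f)`, and `∂_v (hp u f)` is homogeneous of degree `u - 1` (zero for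
`u = 0`) by `Homog.dl`, so by `tay_homog`, `tay_sum` the part of weight `w` of `tay (∂_v p)` is
`∂_v (hp (w+1) f)` (`w + 1 < N`; the term `u = 0` is zero).
(4) `∂_v f = ∂_v R + ∂_v p` near `0` (`tay_congr`, `tay_add`).
-/

set_option autoImplicit false
set_option maxSynthPendingDepth 3

open scoped ContDiff Topology
open Finset

noncomputable section

namespace Pool.Agent.EXO.L

variable {n : ℕ} {A : Type*} [NormedAddCommGroup A] [NormedSpace ℂ A]

private theorem LHpC_inf : (1 : WithTop ℕ∞) ≤ ∞ := by exact_mod_cast le_top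

private theorem LHpC_bigO {R : En n → A} (hR : ContDiffAt ℝ ∞ R 0) (v : En n) (w : ℕ)
    (h : R =O[𝓝 0] fun z => ‖z‖ ^ (2 * (w + 1))) :
    (fun z => fderiv ℝ R z v) =O[𝓝 0] fun z => ‖z‖ ^ (w + 1) := by
  have hfd : fderiv ℝ R 0 = 0 := by
    have h1 : R =O[𝓝 0] fun z => ‖z - 0‖ ^ (2 * (w + 1)) := by simpa using h
    exact (h1.hasFDerivAt (by omega)).fderiv
  have hd : ContDiffAt ℝ 1 (fderiv ℝ R) 0 :=
    (hR.fderiv_right (m := ∞) (by simp)).of_le LHpC_inf
  obtain ⟨K, t, ht, hK⟩ := hd.exists_lipschitzOnWith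
  obtain ⟨C, hC⟩ := h.bound
  have hdiff : ∀ᶠ z in 𝓝 (0 : En n), DifferentiableAt ℝ R z := by
    have h1 : ContDiffAt ℝ 1 R 0 := hR.of_le LHpC_inf
    filter_upwards [h1.eventually (by simp)] with z hz
    exact hz.differentiableAt one_ne_zero
  have hall : ∀ᶠ z in 𝓝 (0 : En n), z ∈ t ∧ ‖R z‖ ≤ C * ‖‖z‖ ^ (2 * (w + 1))‖ ∧
      DifferentiableAt ℝ R z := by
    filter_upwards [ht, hC, hdiff] with z h1 h2 h3
    exact ⟨h1, h2, h3⟩
  obtain ⟨r, hr, hball⟩ := Metric.eventually_nhds_iff_ball.1 hall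
  -- the small radius
  have hv0 : 0 < 1 + ‖v‖ := by positivity
  have hρ : 0 < min 1 (r / (1 + ‖v‖)) := lt_min one_pos (by positivity)
  refine Asymptotics.IsBigO.of_bound
    (|C| * (1 + ‖v‖) ^ (2 * (w + 1)) + |C| + K * ‖v‖ ^ 2) ?_
  filter_upwards [Metric.ball_mem_nhds (0 : En n) hρ] with z hz
  rw [mem_ball_zero_iff, lt_min_iff, lt_div_iff₀ hv0] at hz
  obtain ⟨hz1, hz2⟩ := hz
  by_cases hz0 : z = 0
  · rw [hz0, hfd]
    simp
  have hzn : 0 < ‖z‖ := norm_pos_iff.2 hz0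
  obtain ⟨k, hk⟩ : ∃ k, k = ‖z‖ ^ (w + 1) := ⟨_, rfl⟩
  have hk0 : 0 < k := by rw [hk]; positivity
  have hkz : k ≤ ‖z‖ := by
    rw [hk]
    exact pow_le_of_le_one hzn.le hz1.le (by omega)
  have hk2 : ‖z‖ ^ (2 * (w + 1)) = k ^ 2 := by
    rw [hk, ← pow_mul]
    ring_nf
  have hnorm : ∀ y ∈ segment ℝ z (z + k • v), ‖y‖ ≤ ‖z‖ * (1 + ‖v‖) ∧ ‖y - z‖ ≤ k * ‖v‖ := by
    intro y hy
    rw [segment_eq_image'] at hy
    obtain ⟨θ, ⟨hθ0, hθ1⟩, rfl⟩ := hy
    have e1 : z + k • v - z = k • v := by abel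
    simp only [e1]
    have e2 : ‖θ • k • v‖ ≤ k * ‖v‖ := by
      rw [norm_smul, norm_smul, Real.norm_eq_abs, Real.norm_eq_abs, abs_of_nonneg hθ0,
        abs_of_pos hk0]
      exact mul_le_of_le_one_left (by positivity) hθ1
    constructor
    · calc ‖z + θ • k • v‖ ≤ ‖z‖ + ‖θ • k • v‖ := norm_add_le _ _
        _ ≤ ‖z‖ + k * ‖v‖ := by linarith
        _ ≤ ‖z‖ + ‖z‖ * ‖v‖ := by
          have := mul_le_mul_of_nonneg_right hkz (norm_nonneg v)
          linarith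
        _ = ‖z‖ * (1 + ‖v‖) := by ring
    · have e3 : z + θ • k • v - z = θ • k • v := by abel
      rw [e3]
      exact e2
  have hin : ∀ y ∈ segment ℝ z (z + k • v), y ∈ Metric.ball (0 : En n) r := by
    intro y hy
    rw [mem_ball_zero_iff]
    exact (hnorm y hy).1.trans_lt hz2
  have hzs : z ∈ segment ℝ z (z + k • v) := left_mem_segment ℝ _ _
  have hzs' : z + k • v ∈ segment ℝ z (z + k • v) := right_mem_segment ℝ _ _
  have hmv := (convex_segment z (z + k • v)).norm_image_sub_le_of_norm_fderiv_le'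
    (f := R) (C := K * (k * ‖v‖)) (φ := fderiv ℝ R z)
    (fun y hy => (hball y (hin y hy)).2.2) (fun y hy => by
      have h1 := hK.norm_sub_le (hball y (hin y hy)).1 (hball z (hin z hzs)).1
      exact h1.trans (mul_le_mul_of_nonneg_left (hnorm y hy).2 K.2)) hzs hzs'
  have e1 : z + k • v - z = k • v := by abel
  rw [e1, map_smul] at hmv
  have e2 : ‖k • v‖ = k * ‖v‖ := by
    rw [norm_smul, Real.norm_eq_abs, abs_of_pos hk0]
  rw [e2] at hmv
  have b1 : ‖R (z + k • v)‖ ≤ |C| * (1 + ‖v‖) ^ (2 * (w + 1)) * k ^ 2 := by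
    have h1 := (hball _ (hin _ hzs')).2.1
    rw [norm_pow, norm_norm] at h1
    have h2 : ‖z + k • v‖ ^ (2 * (w + 1)) ≤ (‖z‖ * (1 + ‖v‖)) ^ (2 * (w + 1)) :=
      pow_le_pow_left₀ (norm_nonneg _) (hnorm _ hzs').1 _
    rw [mul_pow, hk2] at h2
    calc ‖R (z + k • v)‖ ≤ C * ‖z + k • v‖ ^ (2 * (w + 1)) := h1
      _ ≤ |C| * ‖z + k • v‖ ^ (2 * (w + 1)) :=
        mul_le_mul_of_nonneg_right (le_abs_self C) (by positivity)
      _ ≤ |C| * (k ^ 2 * (1 + ‖v‖) ^ (2 * (w + 1))) :=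
        mul_le_mul_of_nonneg_left h2 (abs_nonneg _)
      _ = |C| * (1 + ‖v‖) ^ (2 * (w + 1)) * k ^ 2 := by ring
  have b2 : ‖R z‖ ≤ |C| * k ^ 2 := by
    have h1 := (hball _ (hin _ hzs)).2.1
    rw [norm_pow, norm_norm, hk2] at h1
    exact h1.trans (mul_le_mul_of_nonneg_right (le_abs_self C) (by positivity))
  have b3 : k * ‖fderiv ℝ R z v‖ ≤
      (|C| * (1 + ‖v‖) ^ (2 * (w + 1)) + |C| + K * ‖v‖ ^ 2) * k ^ 2 := by
    have e3 : k • fderiv ℝ R z v = R (z + k • v) - R z -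
        (R (z + k • v) - R z - k • fderiv ℝ R z v) := by abel
    have e4 : k * ‖fderiv ℝ R z v‖ = ‖k • fderiv ℝ R z v‖ := by
      rw [norm_smul, Real.norm_eq_abs, abs_of_pos hk0]
    rw [e4, e3]
    calc ‖R (z + k • v) - R z - (R (z + k • v) - R z - k • fderiv ℝ R z v)‖
        ≤ ‖R (z + k • v)‖ + ‖R z‖ + ‖R (z + k • v) - R z - k • fderiv ℝ R z v‖ := by
          refine (norm_sub_le _ _).trans ?_
          have := norm_sub_le (R (z + k • v)) (R z)
          linarith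
      _ ≤ |C| * (1 + ‖v‖) ^ (2 * (w + 1)) * k ^ 2 + |C| * k ^ 2 + K * (k * ‖v‖) * (k * ‖v‖) := by
          linarith
      _ = _ := by ring
  rw [norm_pow, norm_norm, ← hk]
  have b4 : k * ‖fderiv ℝ R z v‖ ≤
      k * ((|C| * (1 + ‖v‖) ^ (2 * (w + 1)) + |C| + K * ‖v‖ ^ 2) * k) := by
    refine b3.trans (le_of_eq ?_)
    ring
  exact le_of_mul_le_mul_left b4 hk0

theorem tay_fderiv {f : En n → A} (hf : ContDiffAt ℝ ∞ f 0) (v : En n) :
    up (tay fun z => fderiv ℝ f z v) = cst (dl v) (tay f) := by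
  funext m
  cases m with
  | zero =>
    rw [up_zero, cst_apply]
    refine Pl.ext fun z => ?_
    rw [dl_apply]
    show (0 : A) = fderiv ℝ (hp 0 f) z v
    rw [(hp_homog 0 f).fderiv_zero]
  | succ w =>
    rw [up_succ, cst_apply]
    obtain ⟨R, hRd⟩ : ∃ R : En n → A, R = fun z => f z - ∑ u ∈ range (2 * (w + 1)), hp u f z :=
      ⟨_, rfl⟩
    have hpc : ∀ u, ContDiff ℝ ∞ (hp u f) := fun u => (hp_homog u f).1
    have hsum : ContDiff ℝ ∞ (fun z => ∑ u ∈ range (2 * (w + 1)), hp u f z) :=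
      ContDiff.sum fun u _ => hpc u
    have hR : ContDiffAt ℝ ∞ R 0 := by
      rw [hRd]
      exact hf.sub hsum.contDiffAt
    have hfR : ContDiffAt ℝ ∞ (fderiv ℝ R) 0 := hR.fderiv_right (by simp)
    have hdR : ContDiffAt ℝ ∞ (fun z => fderiv ℝ R z v) 0 := hfR.clm_apply contDiffAt_const
    have hdp : ∀ u, Homog (u - 1) (fun z => fderiv ℝ (hp u f) z v) := fun u =>
      (hp_homog u f).dl v
    have h1 : tay (fun z => fderiv ℝ R z v) w = 0 :=
      tay_eq_zero hdR (w + 1) (LHpC_bigO hR v w (by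
        rw [hRd]
        exact tay_taylor hf (2 * (w + 1)))) w (by omega)
    have h2 : (fun z => fderiv ℝ f z v) =ᶠ[𝓝 0] fun z => fderiv ℝ R z v +
        ∑ u ∈ range (2 * (w + 1)), fderiv ℝ (hp u f) z v := by
      have h3 : ContDiffAt ℝ 1 R 0 := hR.of_le LHpC_inf
      filter_upwards [h3.eventually (by simp)] with z hz
      have h4 : f = fun z => R z + ∑ u ∈ range (2 * (w + 1)), hp u f z := by
        funext y
        rw [hRd]
        simp
      have h5 : HasFDerivAt (fun z => ∑ u ∈ range (2 * (w + 1)), hp u f z)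
          (∑ u ∈ range (2 * (w + 1)), fderiv ℝ (hp u f) z) z :=
        HasFDerivAt.fun_sum fun u _ =>
          (((hpc u).differentiable (by simp)) z).hasFDerivAt
      have h6 := (hz.differentiableAt one_ne_zero).hasFDerivAt.fun_add h5
      have h7 : fderiv ℝ f z = fderiv ℝ R z + ∑ u ∈ range (2 * (w + 1)), fderiv ℝ (hp u f) z := by
        conv_lhs => rw [h4]
        exact h6.fderiv
      rw [h7]
      simp
    rw [tay_congr h2, tay_add hdR
      (ContDiffAt.sum fun u _ => (hdp u).1.contDiffAt), Pi.add_apply, h1, zero_add,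
      tay_sum _ (fun u _ => (hdp u).1.contDiffAt), Finset.sum_apply,
      Finset.sum_eq_single (w + 1)]
    · rw [tay_homog (hdp (w + 1)), if_pos (by omega)]
      rfl
    · intro u _ hu
      rw [tay_homog (hdp u)]
      split_ifs with h
      · have hu0 : u = 0 := by omega
        subst hu0
        refine Pl.ext fun z => ?_
        show fderiv ℝ (hp 0 f) z v = 0
        rw [(hp_homog 0 f).fderiv_zero]
      · rfl
    · intro h
      exfalso
      apply h
      rw [mem_range]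
      omega

end Pool.Agent.EXO.L
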