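import Pool.Agent.EXO.LFin
import Pool.Agent.EXO.IgD
import Pool.Agent.EXO.SuGood

/-!
# EXO / LIdx: the index theorem

From the formula for the index as the integral of the local supertrace (`Dirac.index_eq`) and the local index
theorem `L.IL_density`.
-/

set_option autoImplicit false
set_option maxSynthPendingDepth 3

open Set MeasureTheory Matrix
open scoped ContDiff ENNReal

namespace Pool.Agent.EXO

/-- The index theorem in dimension 14. -/
theorem IF_idx : ∃ σ : ℂ, (σ = 1 ∨ σ = -1) ∧ ∀ (M : ℕ) (V : OrGeo 14 M) (ι : Type) [Fintype ι]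
    [DecidableEq ι] (E : Bd V.toGeo ι) (𝔇 : Dirac V.toGeo (HF M ι)), IsSig V E 𝔇 →
    (𝔇.index : ℂ) = σ * 2 ^ 7 * V.int fun x => LhF V.toGeo x * E.ch x := by
  refine ⟨1, Or.inl rfl, ?_⟩
  intro M V ι _ _ E 𝔇 hsig
  have hV : V.toGeo.Good 7 := geo_good V.toGeo 7 rfl
  obtain ⟨k, hk⟩ := 𝔇.exists_heat hV 15
  rw [𝔇.index_eq hV hk (by norm_num)]
  have h1 : (∫ x, LinearMap.trace ℂ (HF M ι)
        ((𝔇.Γ x * k 0 (x, x) : HF M ι →L[ℂ] HF M ι) : HF M ι →ₗ[ℂ] HF M ι) ∂V.μ)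
      = ∫ x, (2 ^ 21 * Real.pi ^ 7 : ℂ) * inner ℂ (V.vol x) (LhF V.toGeo x * E.ch x) ∂V.μ := by
    apply integral_congr_ae
    filter_upwards [mem_ae_iff.mpr V.μ_supp] with y hy
    exact L.IL_density E 𝔇 hsig hV.loc 15 (by norm_num) hk hy
  rw [h1, integral_const_mul]
  unfold OrGeo.int
  have hpi : (Real.pi : ℂ) ≠ 0 := by exact_mod_cast Real.pi_ne_zero
  push_cast
  rw [one_mul, ← mul_assoc]
  congr 1
  rw [inv_pow, mul_pow]
  field_simp
  norm_num

end Pool.Agent.EXO
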