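import Pool.Agent.EXO.LOps

/-!
# EXO / LInj : injectivity of `c + ½E - Δ` modulo a subspace (IDX-L)

`inj_mod`: let `U` be a subspace of the finite dimensional space `A`, `c > 0` and `f` a polynomial
function such that `c f + ½ E f - Δ f` takes values in `U`.  Then `f` takes values in `U`.

Proof.  Suppose `f z ∉ U`.  There is a linear functional `λ : A →ₗ[ℂ] ℂ` (continuous because `A` is
finite dimensional) which vanishes on `U` with `λ (f z) ≠ 0`
(`Submodule.exists_le_ker_of_notMem` or similar, `LinearMap.toContinuousLinearMap`).
Put `g = cz λ f : Pl n ℂ`.  Since `cz λ` commutes with `eu` and `lap` (`dl_cz`, `mz_apply`)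
we have `c g + ½ E g - Δ g = 0`.  Claim: `g = 0`, a contradiction.

Proof of the claim (`inj_zero`).  Write `g = ∑_{d<D} g_d` with `g_d` homogeneous of degree `d`
(definition of `Pl`; `Homog.mem` makes each of them an element of `Pl`).  Induction on `D`.
`D = 0`: `g = 0`.  Step: `g = ∑_{d<D+1} g_d`.  Then
`0 = c g + ½ E g - Δ g = ∑_d (c + d/2) g_d - ∑_d Δ g_d` (`eu_homog`) where `Δ g_d` is homogeneous of
degree `d - 2` and `Δ g_d = 0` for `d < 2` (`lap_homog`, and for `d = 0, 1`: `g_1` has constant
derivative, `Homog.fderiv_zero`).
Evaluate at `s • z`, `s > 0`, and divide by `s ^ D`, let `s → ∞`: all terms of degree `< D` tend to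
`0`, so `(c + D/2) g_D(z) = 0`, hence `g_D = 0` and `g = ∑_{d<D} g_d`; use the induction hypothesis.
(Alternatively show that a sum of homogeneous functions of different degrees which vanishes
identically has all its terms zero: `∑_d s^d a_d = 0` for all real `s` implies `a_d = 0`.)
-/

set_option autoImplicit false
set_option maxSynthPendingDepth 3

open scoped ContDiff
open Finset

noncomputable section

namespace Pool.Agent.EXO.L

variable {n : ℕ} {A : Type*} [NormedAddCommGroup A] [NormedSpace ℂ A]

private theorem homog_sum_zero (D : ℕ) (q : ℕ → En n → A)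
    (hq : ∀ d, ∀ (s : ℝ) (z : En n), q d (s • z) = (s ^ d : ℝ) • q d z)
    (h : ∑ d ∈ range D, q d = 0) : ∀ d < D, q d = 0 := by
  intro d hd
  ext z
  by_contra hne
  have hne' : q d z ≠ 0 := fun h0 => hne (by simpa using h0)
  obtain ⟨g, -, hg⟩ := exists_dual_vector ℝ (q d z) (norm_ne_zero_iff.2 hne')
  have hg0 : g (q d z) ≠ 0 := by
    rw [hg]
    simpa using hne'
  have hpoly : (∑ k ∈ range D, Polynomial.C (g (q k z)) * Polynomial.X ^ k : Polynomial ℝ) = 0 := by
    refine Polynomial.funext fun s => ?_
    rw [Polynomial.eval_zero, Polynomial.eval_finsetSum]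
    have h1 := congrArg (fun F : En n → A => g (F (s • z))) h
    simp only [Finset.sum_apply, map_sum, Pi.zero_apply, map_zero] at h1
    rw [← h1]
    refine sum_congr rfl fun k _ => ?_
    rw [hq k s z, map_smul, smul_eq_mul, Polynomial.eval_mul, Polynomial.eval_C,
      Polynomial.eval_pow, Polynomial.eval_X, mul_comm]
  have h2 := congrArg (fun P : Polynomial ℝ => P.coeff d) hpoly
  simp only [Polynomial.finsetSum_coeff, Polynomial.coeff_C_mul, Polynomial.coeff_X_pow,
    Polynomial.coeff_zero] at h2
  rw [Finset.sum_eq_single d] at h2
  · apply hg0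
    simpa using h2
  · intro b _ hb
    simp [Ne.symm hb]
  · intro hb
    exact absurd (mem_range.2 hd) hb

theorem inj_zero (c : ℝ) (hc : 0 < c) (f : Pl n A)
    (h : (c : ℂ) • f + (1 / 2 : ℂ) • eu f - lap f = 0) : f = 0 := by
  obtain ⟨D, p, hp, hf⟩ := f.2
  -- the homogeneous components
  set P : ℕ → Pl n A := fun d => ⟨p d, (hp d).mem⟩ with hP
  have hfP : f = ∑ d ∈ range D, P d := by
    apply Subtype.ext
    rw [hf]
    rw [AddSubmonoidClass.coe_finsetSum]
  -- the degree d component of the equation
  have key : ∀ k, k ≤ D → (∀ d, k ≤ d → d < D → P d = 0) := by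
    intro k hk
    induction hk using Nat.decreasingInduction with
    | self => intro d h1 h2; omega
    | of_succ k hk ih =>
      intro d h1 h2
      rcases Nat.lt_or_ge k d with h3 | h3
      · exact ih d h3 h2
      · have hdk : d = k := by omega
        subst hdk
        -- f = ∑_{i < d+1} P i
        have hf2 : f = ∑ i ∈ range (d + 1), P i := by
          rw [hfP]
          symm
          refine sum_subset (fun i hi => ?_) fun i hi hni => ?_
          · rw [mem_range] at hi ⊢; omega
          · rw [mem_range] at hi hni
            exact ih i (by omega) hi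
        -- the components of the equation
        set q : ℕ → En n → A := fun i =>
          ((((c : ℂ) + (i : ℂ) / 2) • P i : Pl n A) : En n → A) -
            (if i + 2 ≤ d then (lap (P (i + 2)) : En n → A) else 0) with hq
        have hh : ∀ i, Homog i (q i) := by
          intro i
          have e1 : Homog i (((((c : ℂ) + (i : ℂ) / 2) • P i : Pl n A) : En n → A)) := by
            refine ⟨Pl.contDiff _, fun s z => ?_⟩
            have : ((P i : Pl n A) : En n → A) (s • z) = (s ^ i : ℝ) • (P i : En n → A) z :=
              (hp i).2 s z
            simp only [SetLike.val_smul, Pi.smul_apply]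
            rw [this, smul_comm]
          have e2 : Homog i (if i + 2 ≤ d then (lap (P (i + 2)) : En n → A) else 0) := by
            split_ifs
            · have := lap_homog (P (i + 2)) (hp (i + 2))
              simpa using this
            · exact Homog.zero i
          have e3 : Homog i (-(if i + 2 ≤ d then (lap (P (i + 2)) : En n → A) else 0)) :=
            ⟨e2.1.neg, fun s z => by
              rw [Pi.neg_apply, Pi.neg_apply, e2.2 s z, smul_neg]⟩
          have := e1.add e3
          rw [hq]
          simpa [sub_eq_add_neg] using this
        have hlap0 : ∀ i, i < 2 → lap (P i) = 0 := by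
          intro i hi
          ext z
          have e0 : (lap (P i) : En n → A) z = ∑ j, (dl (bv j) (dl (bv j) (P i)) : En n → A) z := by
            simp only [lap, LinearMap.sum_apply, Module.End.mul_apply,
              AddSubmonoidClass.coe_finsetSum, Finset.sum_apply]
          rw [e0]
          refine sum_eq_zero fun j _ => ?_
          have e1 : Homog (i - 1) (dl (bv j) (P i) : En n → A) := (hp i).dl (bv j)
          have e2 : i - 1 = 0 := by omega
          rw [e2] at e1
          rw [dl_apply]
          exact Homog.fderiv_zero e1 z (bv j)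
        have hsum : ∑ i ∈ range (d + 1), q i = 0 := by
          have e1 : ∀ i, eu (P i) = (i : ℂ) • P i := fun i => eu_homog (P i) (hp i)
          have e2 : (∑ i ∈ range (d + 1), ((c : ℂ) + (i : ℂ) / 2) • P i) -
              ∑ i ∈ range (d + 1), lap (P i) = 0 := by
            rw [← h, hf2, smul_sum, map_sum, smul_sum, map_sum, ← sum_add_distrib]
            congr 1
            refine sum_congr rfl fun i _ => ?_
            rw [e1, smul_smul, ← add_smul]
            congr 1
            ring
          have e3 : ∑ i ∈ range (d + 1), lap (P i) =
              ∑ i ∈ range (d + 1), (if i + 2 ≤ d then lap (P (i + 2)) else 0) := by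
            have e4 : ∀ N, ∑ i ∈ range N, lap (P i) =
                ∑ i ∈ range N, (if i + 2 < N then lap (P (i + 2)) else 0) := by
              intro N
              rw [← sum_filter]
              rcases Nat.lt_or_ge N 2 with h5 | h5
              · rw [sum_eq_zero, sum_eq_zero]
                · intro i hi
                  rw [mem_filter, mem_range] at hi
                  omega
                · intro i hi
                  rw [mem_range] at hi
                  exact hlap0 i (by omega)
              · obtain ⟨M, rfl⟩ : ∃ M, N = M + 2 := ⟨N - 2, by omega⟩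
                have e5 : (range (M + 2)).filter (fun i => i + 2 < M + 2) = range M := by
                  ext i; rw [mem_filter, mem_range, mem_range]; omega
                rw [e5, sum_range_succ', sum_range_succ', hlap0 0 (by norm_num),
                  hlap0 (0 + 1) (by norm_num), add_zero, add_zero]
            rw [e4]
            refine sum_congr rfl fun i _ => ?_
            by_cases h6 : i + 2 ≤ d
            · rw [if_pos h6, if_pos (by omega)]
            · rw [if_neg h6, if_neg (by omega)]
          rw [e3, ← sum_sub_distrib] at e2
          have e6 := congrArg (fun F : Pl n A => (F : En n → A)) e2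
          simp only [AddSubmonoidClass.coe_finsetSum] at e6
          have e7 : ∀ i : ℕ, ((((c : ℂ) + (i : ℂ) / 2) • P i -
              (if i + 2 ≤ d then lap (P (i + 2)) else 0) : Pl n A) : En n → A) = q i := by
            intro i
            rw [hq]
            dsimp only
            split_ifs <;> rfl
          rw [sum_congr rfl fun i _ => e7 i] at e6
          exact e6
        have h7 := homog_sum_zero (d + 1) q (fun i => (hh i).2) hsum d (by omega)
        rw [hq] at h7
        dsimp only at h7
        rw [if_neg (by omega), sub_zero] at h7
        have h8 : ((c : ℂ) + (d : ℂ) / 2) ≠ 0 := by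
          have : (0 : ℝ) < c + (d : ℝ) / 2 := by positivity
          have h9 : ((c : ℂ) + (d : ℂ) / 2) = ((c + (d : ℝ) / 2 : ℝ) : ℂ) := by push_cast; ring
          rw [h9]
          exact_mod_cast this.ne'
        have h10 : ((c : ℂ) + (d : ℂ) / 2) • P d = 0 := Subtype.ext h7
        exact (smul_eq_zero.1 h10).resolve_left h8
  rw [hfP]
  refine sum_eq_zero fun i hi => ?_
  exact key 0 (Nat.zero_le _) i (Nat.zero_le _) (mem_range.1 hi)

theorem inj_mod [FiniteDimensional ℂ A] (U : Submodule ℂ A) (c : ℝ) (hc : 0 < c) (f : Pl n A)
    (h : ∀ z, ((c : ℂ) • f + (1 / 2 : ℂ) • eu f - lap f : Pl n A).1 z ∈ U) :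
    ∀ z, (f : En n → A) z ∈ U := by
  intro z
  by_contra hz
  obtain ⟨l, hl, hU⟩ := U.exists_le_ker_of_notMem hz
  set L : A →L[ℂ] ℂ := LinearMap.toContinuousLinearMap l with hL
  have e1 : ∀ v, dl v (cz L f) = cz L (dl v f) := fun v => dl_cz v L f
  have e2 : eu (cz L f) = cz L (eu f) := by
    ext y
    rw [cz_apply, eu_apply, eu_apply, ← dl_apply, e1, cz_apply, dl_apply]
  have e3 : lap (cz L f) = cz L (lap f) := by
    simp only [lap, LinearMap.sum_apply, Module.End.mul_apply, map_sum, e1, dl_cz]
  have e4 : cz L f = 0 := by
    refine inj_zero c hc (cz L f) ?_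
    rw [e2, e3, ← map_smul, ← map_smul, ← map_add, ← map_sub]
    ext y
    rw [cz_apply]
    have := hU (h y)
    rw [LinearMap.mem_ker] at this
    exact this
  have e5 := congrArg (fun F : Pl n ℂ => (F : En n → ℂ) z) e4
  have e6 : (cz L f : En n → ℂ) z = l ((f : En n → A) z) := rfl
  rw [e6] at e5
  exact hl e5

end Pool.Agent.EXO.L
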