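import Pool.Agent.EXO.LMdDef

/-!
# EXO / LMdA : the commutation relations of the model coefficients (IDX-L)

For `b ∈ vac` with `g b g = b` (even): `lm b` commutes with all `Ee i`; if `g b g = -b` (odd) it
anticommutes (`lm_Ee`).  `N`, `h` are odd, `h h`, `f T` even elements of `vac` (`vac_of_odd`,
`vac_of_even`); products `Ee k * Ee l` commute with each other, with every `Ee i` and with `lm` of odd
and even vacuum elements (`Ee_Ee`).
* `XX`: `X_a X_b = -¼ ∑ lm(N_ai N_bj) E_i E_j`, `X_b X_a = ¼ ∑ lm(N_bj N_ai) E_i E_j` (relabel and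
  `E_j E_i = -E_i E_j`), so `[X_a, X_b] = ½ ∑ s_{ai,bj} E_i E_j = ¼ ∑ R_{ab,ij} E_i E_j`.
* `hZ`, `hOX`, `hFX`, `hc`, `hF`: from the commutation of even products
  (`h_h` for the `F1` part is not needed).
* `anti`, `hY`: symmetries of `R`: `R k l a b = - R k l b a`, `R b a = -R a b`, `R k l a b = R a b k l` from
  `s_symm`, `s_pair`; `½ [X_a,X_b] + Y_ba = ⅛ ∑ R_{ab,kl} EE + ¼ ∑ R_{ba,kl} EE = -⅛ ∑ R_{ab,kl} EE = -¼ Ω_ab`.
* memberships: `Ee_mem`, `vac_mul_mem`.
-/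

set_option autoImplicit false
set_option maxSynthPendingDepth 3

open scoped ContDiff Topology
open Finset Matrix

noncomputable section

namespace Pool.Agent.EXO.L

section abstract

variable {R : Type*} [Ring R] [Algebra ℂ R]

private theorem lmda_c {x y z : R} (h1 : x * z = -(z * x)) (h2 : y * z = -(z * y)) :
    Commute (x * y) z := by
  change x * y * z = z * (x * y)
  rw [mul_assoc, h2, mul_neg, ← mul_assoc, h1, neg_mul, neg_neg, mul_assoc]

private theorem lmda_sum {n : ℕ} {r : ℂ} {t : Fin n → Fin n → ℂ} {w : Fin n → Fin n → R} {z : R}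
    (h : ∀ k l, Commute (w k l) z) : Commute (r • ∑ k, ∑ l, t k l • w k l) z :=
  (Commute.sum_left _ _ _ fun k _ => Commute.sum_left _ _ _ fun l _ =>
    (h k l).smul_left _).smul_left _

private theorem lmda_sum' {n : ℕ} {r : ℂ} {w : Fin n → Fin n → R} {z : R}
    (h : ∀ k l, Commute (w k l) z) : Commute (r • ∑ k, ∑ l, w k l) z :=
  (Commute.sum_left _ _ _ fun k _ => Commute.sum_left _ _ _ fun l _ => h k l).smul_left _

private theorem lmda_X {n : ℕ} {r : ℂ} {v e : Fin n → R} {z : R}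
    (h1 : ∀ k, Commute z (v k)) (h2 : ∀ k, Commute z (e k)) :
    Commute z (r • ∑ k, v k * e k) :=
  (Commute.sum_right _ _ _ fun k _ => (h1 k).mul_right (h2 k)).smul_right _

private theorem lmda_XX {n : ℕ} (e : Fin n → R) (v : Fin n → Fin n → R)
    (s : Fin n → Fin n → Fin n → Fin n → ℝ) (hee : ∀ i j, e i * e j = -(e j * e i))
    (hve : ∀ i j k, v i j * e k = -(e k * v i j))
    (hvv : ∀ i j k l, v i j * v k l + v k l * v i j = ((-2 * s i j k l : ℝ) : ℂ) • (1 : R))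
    (a b : Fin n) :
    ((1 / 2 : ℂ) • ∑ i, v a i * e i) * ((1 / 2 : ℂ) • ∑ i, v b i * e i) -
      ((1 / 2 : ℂ) • ∑ i, v b i * e i) * ((1 / 2 : ℂ) • ∑ i, v a i * e i) =
      (1 / 4 : ℂ) • ∑ i, ∑ j, ((s a i b j - s a j b i : ℝ) : ℂ) • (e i * e j) := by
  have hq : ∀ c d : Fin n, ((1 / 2 : ℂ) • ∑ i, v c i * e i) * ((1 / 2 : ℂ) • ∑ i, v d i * e i) =
      (1 / 4 : ℂ) • ∑ i, ∑ j, -(v c i * v d j * (e i * e j)) := by
    intro c d
    rw [smul_mul_smul_comm, Finset.sum_mul_sum]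
    congr 1
    · norm_num
    · refine Finset.sum_congr rfl fun i _ => Finset.sum_congr rfl fun j _ => ?_
      have h1 : e i * v d j = -(v d j * e i) := by rw [hve, neg_neg]
      calc v c i * e i * (v d j * e j) = v c i * (e i * v d j) * e j := by simp only [mul_assoc]
        _ = -(v c i * v d j * (e i * e j)) := by
          rw [h1, mul_neg, neg_mul]
          simp only [mul_assoc]
  rw [hq a b, hq b a, ← smul_sub]
  congr 1
  have hswap : ∑ i, ∑ j, -(v b i * v a j * (e i * e j)) =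
      ∑ i, ∑ j, v b j * v a i * (e i * e j) := by
    rw [Finset.sum_comm]
    refine Finset.sum_congr rfl fun i _ => Finset.sum_congr rfl fun j _ => ?_
    rw [hee j i, mul_neg, neg_neg]
  rw [hswap, ← Finset.sum_sub_distrib]
  have h1 : ∀ i, (∑ j, -(v a i * v b j * (e i * e j))) - ∑ j, v b j * v a i * (e i * e j) =
      ∑ j, ((2 * s a i b j : ℝ) : ℂ) • (e i * e j) := by
    intro i
    rw [← Finset.sum_sub_distrib]
    refine Finset.sum_congr rfl fun j _ => ?_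
    have h2 : -(v a i * v b j * (e i * e j)) - v b j * v a i * (e i * e j) =
        -((v a i * v b j + v b j * v a i) * (e i * e j)) := by
      rw [add_mul]
      abel
    rw [h2, hvv, smul_mul_assoc, one_mul, ← neg_smul]
    congr 1
    push_cast
    ring
  rw [Finset.sum_congr rfl fun i _ => h1 i]
  have h3 : ∑ i, ∑ j, ((s a j b i : ℝ) : ℂ) • (e i * e j) =
      -∑ i, ∑ j, ((s a i b j : ℝ) : ℂ) • (e i * e j) := by
    rw [Finset.sum_comm, ← Finset.sum_neg_distrib]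
    refine Finset.sum_congr rfl fun i _ => ?_
    rw [← Finset.sum_neg_distrib]
    refine Finset.sum_congr rfl fun j _ => ?_
    rw [hee j i, smul_neg]
  have h4 : ∑ i, ∑ j, ((s a i b j - s a j b i : ℝ) : ℂ) • (e i * e j) =
      (∑ i, ∑ j, ((s a i b j : ℝ) : ℂ) • (e i * e j)) -
        ∑ i, ∑ j, ((s a j b i : ℝ) : ℂ) • (e i * e j) := by
    rw [← Finset.sum_sub_distrib]
    refine Finset.sum_congr rfl fun i _ => ?_
    rw [← Finset.sum_sub_distrib]
    refine Finset.sum_congr rfl fun j _ => ?_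
    rw [← sub_smul]
    push_cast
    rfl
  have h5 : ∑ i, ∑ j, ((2 * s a i b j : ℝ) : ℂ) • (e i * e j) =
      (∑ i, ∑ j, ((s a i b j : ℝ) : ℂ) • (e i * e j)) +
        ∑ i, ∑ j, ((s a i b j : ℝ) : ℂ) • (e i * e j) := by
    rw [← Finset.sum_add_distrib]
    refine Finset.sum_congr rfl fun i _ => ?_
    rw [← Finset.sum_add_distrib]
    refine Finset.sum_congr rfl fun j _ => ?_
    rw [← add_smul]
    congr 1
    push_cast
    ring
  rw [h4, h3, h5, sub_neg_eq_add]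

end abstract

variable {n : ℕ} {H : Type} [NormedAddCommGroup H] [NormedSpace ℂ H]
  {ι : Type} [Fintype ι] [DecidableEq ι] (D : MDat n H ι)

namespace MDat

theorem N_vac (i j : Fin n) : D.N i j ∈ D.vac :=
  D.toCSys.vac_of_odd (D.N_g i j) fun l => D.N_c l i j

theorem h_vac (i : Fin n) : D.h i ∈ D.vac :=
  D.toCSys.vac_of_odd (D.h_g i) fun l => D.h_c l i

theorem f_vac (T : Matrix ι ι ℂ) : D.f T ∈ D.vac :=
  D.toCSys.vac_of_even (D.f_g T) fun l => D.f_c l T

private theorem lmda_lm (a b : H →L[ℂ] H) : lm a * lm b = lm (a * b) := by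
  refine ContinuousLinearMap.ext fun k => ?_
  change a * (b * k) = a * b * k
  rw [mul_assoc]

private theorem lmda_odd {b : H →L[ℂ] H} (hb : b ∈ D.vac) (hg : D.g * b = -(b * D.g)) (i : Fin n) :
    lm b * D.Ee i = -(D.Ee i * lm b) := by
  refine ContinuousLinearMap.ext fun k => ?_
  change b * D.Ee i k = -(D.Ee i (b * k))
  rw [D.toCSys.lm_Ee hb, hg, neg_mul, mul_assoc b, D.gg, mul_one, neg_mul, map_neg]

private theorem lmda_even {b : H →L[ℂ] H} (hb : b ∈ D.vac) (hg : D.g * b = b * D.g) (i : Fin n) :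
    lm b * D.Ee i = D.Ee i * lm b := by
  refine ContinuousLinearMap.ext fun k => ?_
  change b * D.Ee i k = D.Ee i (b * k)
  rw [D.toCSys.lm_Ee hb, hg, mul_assoc b, D.gg, mul_one]

private theorem lmda_EE (i j : Fin n) : D.Ee i * D.Ee j = -(D.Ee j * D.Ee i) :=
  eq_neg_of_add_eq_zero_left (D.toCSys.Ee_Ee i j)

private theorem lmda_NE (i j k : Fin n) : lm (D.N i j) * D.Ee k = -(D.Ee k * lm (D.N i j)) :=
  D.lmda_odd (D.N_vac i j) (D.N_g i j) k

private theorem lmda_hE (i k : Fin n) : lm (D.h i) * D.Ee k = -(D.Ee k * lm (D.h i)) :=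
  D.lmda_odd (D.h_vac i) (D.h_g i) k

private theorem lmda_fE (T : Matrix ι ι ℂ) (k : Fin n) :
    lm (D.f T) * D.Ee k = D.Ee k * lm (D.f T) :=
  D.lmda_even (D.f_vac T) (D.f_g T) k

private theorem lmda_neg {a b : H →L[ℂ] H} (h : a * b = -(b * a)) :
    lm a * lm b = -(lm b * lm a) := by
  rw [lmda_lm, lmda_lm, h]
  refine ContinuousLinearMap.ext fun k => ?_
  change -(b * a) * k = -(b * a * k)
  rw [neg_mul]

private theorem lmda_NN (i j k l : Fin n) : lm (D.N i j) * lm (D.N k l) +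
    lm (D.N k l) * lm (D.N i j) = ((-2 * D.s i j k l : ℝ) : ℂ) • 1 := by
  rw [lmda_lm, lmda_lm]
  refine ContinuousLinearMap.ext fun x => ?_
  change D.N i j * D.N k l * x + D.N k l * D.N i j * x = ((-2 * D.s i j k l : ℝ) : ℂ) • x
  rw [← add_mul, D.N_N, smul_mul_assoc, one_mul]

theorem XX (a b : Fin n) : D.X a * D.X b - D.X b * D.X a =
    (1 / 4 : ℂ) • ∑ i, ∑ j, ((D.R a b i j : ℝ) : ℂ) • (D.Ee i * D.Ee j) :=
  lmda_XX D.Ee (fun i j => lm (D.N i j)) D.s D.lmda_EE D.lmda_NE D.lmda_NN a b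

private theorem lmda_EEE (i j k : Fin n) : Commute (D.Ee i * D.Ee j) (D.Ee k) :=
  lmda_c (D.lmda_EE i k) (D.lmda_EE j k)

private theorem lmda_EEN (i j k l : Fin n) : Commute (D.Ee i * D.Ee j) (lm (D.N k l)) :=
  lmda_c (by rw [D.lmda_NE, neg_neg]) (by rw [D.lmda_NE, neg_neg])

private theorem lmda_EEh (i j k : Fin n) : Commute (D.Ee i * D.Ee j) (lm (D.h k)) :=
  lmda_c (by rw [D.lmda_hE, neg_neg]) (by rw [D.lmda_hE, neg_neg])

private theorem lmda_Ef (i : Fin n) (T : Matrix ι ι ℂ) : Commute (D.Ee i) (lm (D.f T)) :=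
  (D.lmda_fE T i).symm

private theorem lmda_hhE (i j k : Fin n) : Commute (lm (D.h i) * lm (D.h j)) (D.Ee k) :=
  lmda_c (D.lmda_hE i k) (D.lmda_hE j k)

private theorem lmda_hhN (i j k l : Fin n) :
    Commute (lm (D.h i) * lm (D.h j)) (lm (D.N k l)) :=
  lmda_c (lmda_neg (D.h_N i k l)) (lmda_neg (D.h_N j k l))

private theorem lmda_fN (T : Matrix ι ι ℂ) (k l : Fin n) : Commute (lm (D.f T)) (lm (D.N k l)) := by
  change lm (D.f T) * lm (D.N k l) = lm (D.N k l) * lm (D.f T)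
  rw [lmda_lm, lmda_lm, D.f_N]

private theorem lmda_fh (T : Matrix ι ι ℂ) (k : Fin n) : Commute (lm (D.f T)) (lm (D.h k)) := by
  change lm (D.f T) * lm (D.h k) = lm (D.h k) * lm (D.f T)
  rw [lmda_lm, lmda_lm, D.f_h]

private theorem lmda_Om {z : (H →L[ℂ] H) →L[ℂ] (H →L[ℂ] H)}
    (hz : ∀ k l, Commute (D.Ee k * D.Ee l) z) (a b : Fin n) : Commute (D.Om a b) z :=
  lmda_sum hz

private theorem lmda_toX {z : (H →L[ℂ] H) →L[ℂ] (H →L[ℂ] H)}
    (h1 : ∀ k l, Commute z (lm (D.N k l))) (h2 : ∀ k, Commute z (D.Ee k)) (a : Fin n) :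
    Commute z (D.X a) :=
  lmda_X (fun k => h1 a k) h2

private theorem lmda_R1 (a b k l : Fin n) : D.R b a k l = -D.R a b k l := by
  unfold R
  rw [D.s_pair b k a l, D.s_pair b l a k]
  ring

private theorem lmda_sw (i j k l : Fin n) : D.s i j k l = D.s j i l k := by
  rw [D.s_symm i j k l, D.s_pair j i k l, D.s_symm k l j i, D.s_pair l k j i]

private theorem lmda_R2 (a b k l : Fin n) : D.R k l a b = D.R a b k l := by
  unfold R
  rw [D.lmda_sw k a l b, D.lmda_sw k b l a, D.s_pair b k a l]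

private theorem lmda_R3 (a b k l : Fin n) : D.R k l a b = -D.R k l b a := by
  unfold R
  ring

private theorem lmda_EEOm (k l a b : Fin n) : Commute (D.Ee k * D.Ee l) (D.Om a b) :=
  (D.lmda_Om (fun i j => (D.lmda_EEE i j k).mul_right (D.lmda_EEE i j l)) a b).symm

private theorem lmda_F {z : (H →L[ℂ] H) →L[ℂ] (H →L[ℂ] H)}
    (h1 : ∀ k l, Commute (D.Ee k * D.Ee l) z)
    (h2 : ∀ k l, Commute (lm (D.h k) * lm (D.h l)) z)
    (h3 : ∀ T, Commute (lm (D.f T)) z) : Commute (D.F1 + D.F2) z := by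
  refine Commute.add_left ?_ ?_
  · exact lmda_sum' fun k l => (D.lmda_Om h1 k l).mul_left (h2 k l)
  · exact lmda_sum' fun k l => (h1 k l).mul_left (h3 _)

theorem modOK : ModOK D.X D.Y D.Om (D.F1 + D.F2) where
  hZ a b c := by
    rw [D.XX a b]
    exact lmda_sum fun k l => D.lmda_toX (fun i j => D.lmda_EEN k l i j)
      (fun i => D.lmda_EEE k l i) c
  hOX a b c := D.lmda_Om (fun k l => D.lmda_toX (fun i j => D.lmda_EEN k l i j)
    (fun i => D.lmda_EEE k l i) c) a b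
  hFX c := D.lmda_F
    (fun k l => D.lmda_toX (fun i j => D.lmda_EEN k l i j) (fun i => D.lmda_EEE k l i) c)
    (fun k l => D.lmda_toX (fun i j => D.lmda_hhN k l i j) (fun i => D.lmda_hhE k l i) c)
    (fun T => D.lmda_toX (fun i j => D.lmda_fN T i j) (fun i => D.lmda_fE T i) c)
  anti a b := by
    unfold Om
    rw [← smul_neg, ← Finset.sum_neg_distrib]
    congr 1
    refine Finset.sum_congr rfl fun k _ => ?_
    rw [← Finset.sum_neg_distrib]
    refine Finset.sum_congr rfl fun l _ => ?_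
    rw [D.lmda_R3 a b k l, ← neg_smul]
    congr 1
    push_cast
    ring
  hY a b := by
    rw [D.XX a b]
    unfold Y Om
    have h1 : ∑ k, ∑ l, ((D.R b a k l : ℝ) : ℂ) • (D.Ee k * D.Ee l) =
        -∑ k, ∑ l, ((D.R a b k l : ℝ) : ℂ) • (D.Ee k * D.Ee l) := by
      rw [← Finset.sum_neg_distrib]
      refine Finset.sum_congr rfl fun k _ => ?_
      rw [← Finset.sum_neg_distrib]
      refine Finset.sum_congr rfl fun l _ => ?_
      rw [D.lmda_R1 a b k l, ← neg_smul]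
      congr 1
      push_cast
      ring
    have h2 : ∑ k, ∑ l, ((D.R k l a b : ℝ) : ℂ) • (D.Ee k * D.Ee l) =
        ∑ k, ∑ l, ((D.R a b k l : ℝ) : ℂ) • (D.Ee k * D.Ee l) := by
      refine Finset.sum_congr rfl fun k _ => Finset.sum_congr rfl fun l _ => ?_
      rw [D.lmda_R2 a b k l]
    rw [h1, h2, smul_smul, smul_smul, smul_neg, ← sub_eq_add_neg, ← sub_smul, ← neg_smul]
    congr 1
    norm_num
  hc a b c d := D.lmda_Om (fun k l => D.lmda_EEOm k l c d) a b
  hF a b := (D.lmda_F (fun k l => D.lmda_EEOm k l a b)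
    (fun k l => (D.lmda_Om (fun i j => (D.lmda_EEh i j k).mul_right (D.lmda_EEh i j l)) a b).symm)
    (fun T => (D.lmda_Om (fun i j => (D.lmda_Ef i T).mul_left (D.lmda_Ef j T)) a b).symm)).symm

private theorem lmda_sumap {J : Type} (s : Finset J)
    (w : J → (H →L[ℂ] H) →L[ℂ] (H →L[ℂ] H)) (x : H →L[ℂ] H) :
    (∑ k ∈ s, w k) x = ∑ k ∈ s, w k x := by
  classical
  induction s using Finset.induction_on with
  | empty => simp
  | insert a s ha ih => rw [Finset.sum_insert ha, Finset.sum_insert ha, ← ih]; rfl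

theorem X_mem (i : Fin n) (q : ℕ) {x : H →L[ℂ] H} (hx : x ∈ D.Gf q) :
    D.X i x ∈ D.Gf (q + 1) := by
  change (1 / 2 : ℂ) • ((∑ j, lm (D.N i j) * D.Ee j) x) ∈ D.Gf (q + 1)
  rw [lmda_sumap]
  refine Submodule.smul_mem _ _ (Submodule.sum_mem _ fun j _ => ?_)
  exact D.toCSys.vac_mul_mem (D.N_vac i j) (q + 1) (D.toCSys.Ee_mem j q hx)

private theorem lmda_quad {r : ℂ} {t : Fin n → Fin n → ℂ} (q : ℕ) {x : H →L[ℂ] H}
    (hx : x ∈ D.Gf q) :
    (r • ∑ k, ∑ l, t k l • (D.Ee k * D.Ee l)) x ∈ D.Gf (q + 2) := by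
  change r • ((∑ k, ∑ l, t k l • (D.Ee k * D.Ee l)) x) ∈ D.Gf (q + 2)
  rw [lmda_sumap]
  refine Submodule.smul_mem _ _ (Submodule.sum_mem _ fun k _ => ?_)
  rw [lmda_sumap]
  refine Submodule.sum_mem _ fun l _ => ?_
  exact Submodule.smul_mem _ _ (D.toCSys.Ee_mem k (q + 1) (D.toCSys.Ee_mem l q hx))

theorem Y_mem (i m : Fin n) (q : ℕ) {x : H →L[ℂ] H} (hx : x ∈ D.Gf q) :
    D.Y i m x ∈ D.Gf (q + 2) :=
  D.lmda_quad q hx

theorem F_mem (q : ℕ) {x : H →L[ℂ] H} (hx : x ∈ D.Gf q) :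
    (D.F1 + D.F2) x ∈ D.Gf (q + 2) := by
  change D.F1 x + D.F2 x ∈ D.Gf (q + 2)
  refine Submodule.add_mem _ ?_ ?_
  · change (1 / 4 : ℂ) • ((∑ k, ∑ l, D.Om k l * (lm (D.h k) * lm (D.h l))) x) ∈ D.Gf (q + 2)
    rw [lmda_sumap]
    refine Submodule.smul_mem _ _ (Submodule.sum_mem _ fun k _ => ?_)
    rw [lmda_sumap]
    refine Submodule.sum_mem _ fun l _ => ?_
    exact D.lmda_quad q (D.toCSys.vac_mul_mem (D.h_vac k) q (D.toCSys.vac_mul_mem (D.h_vac l) q hx))
  · change (1 / 2 : ℂ) • ((∑ k, ∑ l, D.Ee k * D.Ee l * lm (D.f (D.C k l))) x) ∈ D.Gf (q + 2)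
    rw [lmda_sumap]
    refine Submodule.smul_mem _ _ (Submodule.sum_mem _ fun k _ => ?_)
    rw [lmda_sumap]
    refine Submodule.sum_mem _ fun l _ => ?_
    exact D.toCSys.Ee_mem k (q + 1) (D.toCSys.Ee_mem l q
      (D.toCSys.vac_mul_mem (D.f_vac _) q hx))

end MDat

end Pool.Agent.EXO.L
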