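import Pool.Agent.EXO.LGeDef
import Pool.Agent.EXO.LMdA
import Pool.Agent.EXO.LgJ

/-!
# EXO / LLeA : the coefficients respect the Clifford filtration (IDX-L)

`D = geoM V E h`, `Gf` its filtration of `EH M ι` (`c i = cv (v i)`, grading `pr`).
* `cv_nor_vac`, `hv_vac`, `cf_vac`: `vac_of_odd`, `vac_of_even` (`cv_cv` with orthogonal vectors, `cv_hv`,
  `cf_cv`, `pr_*`).
* `cv_mem`: `w = P w + (w - P w)`, `P w = ∑ ⟨v_i, w⟩ v_i` (`P_eq_sum`), so `cv w = ∑ ⟨v_i,w⟩ c_i + cv (w - P w)`;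
  `lm_c_mem`, `vac_mul_mem`.
* `dLam_mem`: `epsv = ½(cv + hv)`, `iota l = ½(hv (bv l) - cv (bv l))`: each factor raises by at most one.
* `Xi_mem`: the three terms.
* `Wt_mem`, `x' ∈ V`: `cv cv (hv hv, cf)`; for the term with `Ψ`: `[Ξ_b, Ψ]` and `∂_b Ψ` are in `vac`:
  `∂_b Ψ = ∑ hv(bv a) cf(∂_b θ_a)` (`td_sum`, `td_mul`/`td_clm`, `td_cf`), and
  `[Ξ_b, Ψ] = -∑_a [dΛ(A_b), hv(bv a)] cf θ_a + ∑_a hv(bv a) cf([-e_b + a_b, θ_a])`,
  `[dΛ(A_b), hv w] = hv (A_b w)` (`dLam_hv`, `Ab_skew` on `V`).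
-/

set_option autoImplicit false
set_option maxSynthPendingDepth 3

open scoped ContDiff Topology
open Finset Matrix

noncomputable section

namespace Pool.Agent.EXO.L

variable {n M : ℕ} {ι : Type} [Fintype ι] [DecidableEq ι] {V : Geo n M} {E : Bd V ι}
  {θ : Fin M → En M → Matrix ι ι ℂ} {y : En M} {v : Fin n → En M} (h : PtB V y v)

theorem hv_vac (w : En M) : (hv w : EH M ι) ∈ (geoM V E h).vac :=
  (geoM V E h).toCSys.vac_of_odd (pr_hv w) fun _ => cv_hv _ _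

theorem cf_vac (T : Matrix ι ι ℂ) : (cf T : EH M ι) ∈ (geoM V E h).vac :=
  (geoM V E h).toCSys.vac_of_even (pr_cf T) fun _ => (cf_cv T _).symm

theorem cv_nor_vac (w : En M) (hw : V.P y w = 0) : (cv w : EH M ι) ∈ (geoM V E h).vac := by
  refine (geoM V E h).toCSys.vac_of_odd (pr_cv w) fun l => ?_
  have h1 := cv_cv (ι := ι) (v l) w
  have h2 : (inner ℝ (v l) w : ℝ) = 0 := by
    rw [← h.tan l, V.P_sa y h.mem, hw, inner_zero_right]
  rw [h2, mul_zero, Complex.ofReal_zero, zero_smul] at h1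
  exact eq_neg_of_add_eq_zero_left h1

theorem Q_vac : Qx V E y ∈ (geoM V E h).vac := by
  refine (geoM V E h).toCSys.vac_of_even ?_ fun l => ?_
  · show pr M ι * Qx V E y = Qx V E y * pr M ι
    unfold Qx
    rw [← mul_assoc, pr_Lam, mul_assoc, pr_cf, mul_assoc]
  · show cv (v l) * Qx V E y = Qx V E y * cv (v l)
    rw [← h.tan l, Q_cv h.mem]

private theorem llea_le {S : CSys n (HF M ι)} {p q : ℕ} (hpq : p ≤ q) {x : EH M ι}
    (hx : x ∈ S.Gf p) : x ∈ S.Gf q := S.Gf_mono hpq hx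

theorem cv_mem (w : En M) (q : ℕ) {x : EH M ι} (hx : x ∈ (geoM V E h).Gf q) :
    cv w * x ∈ (geoM V E h).Gf (q + 1) := by
  have h1 : (cv w : EH M ι) = cv (w - V.P y w) + ∑ i, ((inner ℝ (v i) w : ℝ) : ℂ) • cv (v i) := by
    have h2 : w = (w - V.P y w) + ∑ i, (inner ℝ (v i) w : ℝ) • v i := by
      rw [← P_eq_sum V h.mem v h.on h.tan w]
      abel
    conv_lhs => rw [h2, cv_add, cv_sum]
    congr 1
    exact sum_congr rfl fun i _ => cv_smul _ _
  rw [h1, add_mul, Finset.sum_mul]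
  refine Submodule.add_mem _ ?_ (Submodule.sum_mem _ fun i _ => ?_)
  · refine llea_le (Nat.le_succ q) ((geoM V E h).toCSys.vac_mul_mem (cv_nor_vac h _ ?_) q hx)
    rw [map_sub, V.P_idem y h.mem, sub_self]
  · rw [smul_mul_assoc]
    exact Submodule.smul_mem _ _ ((geoM V E h).toCSys.lm_c_mem i q hx)

private theorem llea_hv (w : En M) (q : ℕ) {x : EH M ι} (hx : x ∈ (geoM V E h).Gf q) :
    hv w * x ∈ (geoM V E h).Gf (q + 1) :=
  llea_le (Nat.le_succ q) ((geoM V E h).toCSys.vac_mul_mem (hv_vac h w) q hx)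

private theorem llea_eps (w : En M) (q : ℕ) {x : EH M ι} (hx : x ∈ (geoM V E h).Gf q) :
    epsv w * x ∈ (geoM V E h).Gf (q + 1) := by
  have h1 : (epsv w : EH M ι) = (1 / 2 : ℂ) • (cv w + hv w) := by
    unfold cv hv
    module
  rw [h1, smul_mul_assoc, add_mul]
  exact Submodule.smul_mem _ _ (Submodule.add_mem _ (cv_mem h w q hx) (llea_hv h w q hx))

private theorem llea_iota (l : Fin M) (q : ℕ) {x : EH M ι} (hx : x ∈ (geoM V E h).Gf q) :
    iota l * x ∈ (geoM V E h).Gf (q + 1) := by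
  have h1 : (iota l : EH M ι) = (1 / 2 : ℂ) • (hv (bv l) - cv (bv l)) := by
    rw [cv_bv, hv_bv]
    unfold cl
    module
  rw [h1, smul_mul_assoc, sub_mul]
  exact Submodule.smul_mem _ _ (Submodule.sub_mem _ (llea_hv h _ q hx) (cv_mem h _ q hx))

theorem dLam_mem (B : En M →L[ℝ] En M) (q : ℕ) {x : EH M ι} (hx : x ∈ (geoM V E h).Gf q) :
    dLam B * x ∈ (geoM V E h).Gf (q + 2) := by
  unfold dLam
  rw [Finset.sum_mul]
  refine Submodule.sum_mem _ fun l _ => ?_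
  rw [mul_assoc]
  exact llea_eps h _ (q + 1) (llea_iota h l q hx)

private theorem llea_v2 {b : EH M ι} (hb : b ∈ (geoM V E h).vac) (q : ℕ) {x : EH M ι}
    (hx : x ∈ (geoM V E h).Gf q) : b * x ∈ (geoM V E h).Gf (q + 2) :=
  llea_le (Nat.le_add_right q 2) ((geoM V E h).toCSys.vac_mul_mem hb q hx)

theorem Xi_mem (b : Fin M) (x' : En M) (q : ℕ) {x : EH M ι} (hx : x ∈ (geoM V E h).Gf q) :
    Xi V E b x' * x ∈ (geoM V E h).Gf (q + 2) := by
  unfold Xi
  rw [add_mul, sub_mul, neg_mul]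
  exact Submodule.add_mem _ (Submodule.sub_mem _ (Submodule.neg_mem _ (dLam_mem h _ q hx))
    (llea_v2 h (cf_vac h _) q hx)) (llea_v2 h (cf_vac h _) q hx)

theorem Psi_vac (x' : En M) : (Psi θ x' : EH M ι) ∈ (geoM V E h).vac := by
  unfold Psi
  exact Submodule.sum_mem _ fun a _ => (geoM V E h).toCSys.vac_mul (hv_vac h _) (cf_vac h _)

/-- the commutator term is in the vacuum space -/
theorem Theta_vac (hθ : ThOK V E θ) (b : Fin M) {x' : En M} (hx' : x' ∈ V.carrier) :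
    td V b (Psi θ) x' + (Xi V E b x' * Psi θ x' - Psi θ x' * Xi V E b x') ∈
      (geoM V E h).vac := by
  have hcf : ∀ a, ContDiff ℝ ∞ (fun z => (cf (θ a z) : EH M ι)) := by
    intro a
    obtain ⟨L, hL⟩ := cf_clm (M := M) (ι := ι)
    simp only [← hL]
    exact L.contDiff.comp (hθ.smooth a)
  have h1 : td V b (Psi θ : En M → EH M ι) x' = ∑ a, hv (bv a) * cf (td V b (θ a) x') := by
    have h2 : (Psi θ : En M → EH M ι) = fun z => ∑ a, hv (bv a) * cf (θ a z) := rfl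
    rw [h2, td_sum _ (fun a _ => contDiff_const.mul (hcf a))]
    refine sum_congr rfl fun a _ => ?_
    rw [td_mul (contDiff_const (c := (hv (bv a) : EH M ι))) (hcf a), td_const, zero_mul, zero_add,
      td_cf (hθ.smooth a)]
  have h2 : (dLam (Ab V b x') * Psi θ x' - Psi θ x' * dLam (Ab V b x') : EH M ι) =
      ∑ a, hv (Ab V b x' (bv a)) * cf (θ a x') := by
    unfold Psi
    rw [Finset.mul_sum, Finset.sum_mul, ← Finset.sum_sub_distrib]
    refine sum_congr rfl fun a _ => ?_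
    rw [← mul_assoc, dLam_hv (Ab_skew h.loc hx' b), add_mul, mul_assoc, dLam_cf, ← mul_assoc]
    abel
  have h3 : Xi V E b x' * Psi θ x' - Psi θ x' * Xi V E b x' =
      -(∑ a, hv (Ab V b x' (bv a)) * cf (θ a x')) +
        (cf (E.A b x' - td V b E.e x') * Psi θ x' - Psi θ x' * cf (E.A b x' - td V b E.e x')) := by
    rw [← h2]
    unfold Xi
    rw [cf_sub]
    noncomm_ring
  rw [h1, h3]
  refine Submodule.add_mem _ (Submodule.sum_mem _ fun a _ => ?_)
    (Submodule.add_mem _ (Submodule.neg_mem _ (Submodule.sum_mem _ fun a _ => ?_))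
      (Submodule.sub_mem _ ?_ ?_))
  · exact (geoM V E h).toCSys.vac_mul (hv_vac h _) (cf_vac h _)
  · exact (geoM V E h).toCSys.vac_mul (hv_vac h _) (cf_vac h _)
  · exact (geoM V E h).toCSys.vac_mul (cf_vac h _) (Psi_vac h _)
  · exact (geoM V E h).toCSys.vac_mul (Psi_vac h _) (cf_vac h _)

theorem Wt_mem (hθ : ThOK V E θ) {x' : En M} (hx' : x' ∈ V.carrier) (q : ℕ) {x : EH M ι}
    (hx : x ∈ (geoM V E h).Gf q) : Wt V E θ x' * x ∈ (geoM V E h).Gf (q + 2) := by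
  unfold Wt
  rw [add_mul, add_mul, add_mul]
  refine Submodule.add_mem _ (Submodule.add_mem _ (Submodule.add_mem _ ?_ ?_) ?_) ?_
  · rw [smul_mul_assoc, one_mul]
    exact Submodule.smul_mem _ _ (llea_le (Nat.le_add_right q 2) hx)
  · rw [smul_mul_assoc, Finset.sum_mul]
    refine Submodule.smul_mem _ _ (Submodule.sum_mem _ fun b _ => ?_)
    rw [Finset.sum_mul]
    refine Submodule.sum_mem _ fun c _ => ?_
    rw [mul_assoc, mul_assoc]
    refine cv_mem h _ (q + 1) (cv_mem h _ q ((geoM V E h).toCSys.vac_mul_mem ?_ q hx))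
    refine Submodule.add_mem _ (Submodule.smul_mem _ _ (Submodule.sum_mem _ fun k _ =>
      Submodule.sum_mem _ fun l _ => Submodule.smul_mem _ _ ?_)) (cf_vac h _)
    exact (geoM V E h).toCSys.vac_mul (hv_vac h _) (hv_vac h _)
  · rw [Finset.sum_mul]
    refine Submodule.sum_mem _ fun b _ => ?_
    rw [mul_assoc]
    exact llea_le (Nat.le_succ (q + 1))
      (cv_mem h _ q ((geoM V E h).toCSys.vac_mul_mem (Theta_vac h hθ b hx') q hx))
  · exact llea_v2 h ((geoM V E h).toCSys.vac_mul (Psi_vac h _) (Psi_vac h _)) q hx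

end Pool.Agent.EXO.L
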