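import Pool.Agent.EXO.LLeA

/-!
# EXO / LLeB : leading terms of the connection and of the zero order term (IDX-L)

`D = geoM V E h`, `a_bi = (v i) b = ⟨v_i, e_b⟩`, `P e_b = ∑_i a_bi v_i`, `P_b = Pd V b y = ∑_i a_bi P_i`,
`P_i = fderiv ℝ V.P y (v i)`; `P_i v_j = IIv i j` is normal, symmetric.  `⊢` means modulo the stated
step of the filtration.

1. `skew_quad`: for a skew map `B` of `En M`:
   `∑_kl ⟨e_k, B e_l⟩ cv_k cv_l = ∑_l cv(B e_l) cv(e_l)`, and with `e_l = P e_l + e_l^⊥`: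
   `= ∑_{i,j} ⟨v_i, B v_j⟩ c_i c_j + 2 ∑_j cv((1-P) B v_j) c_j + ∑_l cv((1-P) B (1-P) e_l) cv(e_l)`
   (`∑_l cv(B(1-P)e_l) cv (e_l)`; the part `P B (1-P)` gives, by skewness,
   `∑_l cv(P B (1-P) e_l) cv(e_l) = -∑_j c_j cv((1-P) B v_j) = ∑_j cv((1-P)B v_j) c_j`).
   The last sum equals `∑_l cv((1-P)B(1-P)e_l) cv((1-P)e_l)`, a sum of products of elements of `vac`.
2. `Xi_lead`: `Ξ_b(y) = -dΛ(A_b) - cf(..) + cf(..)`, the `cf` terms preserve `Gf (q+1)`;
   `-dΛ(A_b) = -¼ ∑ hv hv (vac) + ¼ ∑ ⟨e_k, A_b e_l⟩ cv_k cv_l` (`dLam_quad`), and by 1. with `P A_b P = 0`,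
   `(1-P) A_b v_j = P_b v_j = ∑_i a_bi II(i,j)`: `¼ ∑ = ½ ∑_j cv(P_b v_j) c_j + vac`.
   `∑_i a_bi X_i x = ½ ∑_j cv(P_b v_j) Ee_j x`, and `c_j x - Ee_j x = -Ie_j x ∈ Gf q`.
3. `dXi_lead`: `D Ξ_b(y)(v_m) = -dΛ(B) + cf(..)`, `B = D(Ab V b)(y)(v_m)`, skew (differentiate `Ab_skew`
   along `V`: the tangential derivative of the function `⟨A_b u, w⟩ + ⟨u, A_b w⟩`, which vanishes on `V`;
   `v_m = P v_m`), `P B P = P (P_b P_m - P_m P_b) P` (`A_b = P_b P - P P_b`, product rule).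
   `-dΛ(B) x = ¼ ∑_{kl} ⟨v_k, B v_l⟩ c_k c_l x + (terms with at most one tangential factor)`, the latter in
   `Gf (q+2)`; `⟨v_k, B v_l⟩ = ∑_i a_bi R i m k l` (`R i m k l = ⟨II(i,k), II(m,l)⟩ - ⟨II(i,l), II(m,k)⟩`), and
   `c_k c_l x - Ee_k Ee_l x = -Ie_k c_l x - Ee_k Ie_l x ∈ Gf (q+1)`.
4. `Wt_lead`: `rho`, `Ψ²` preserve `Gf (q+1)`; `cv(P e_b) Θ_b` maps it to `Gf (q+2)`.
   `½ ∑_bc cv(Pe_b) cv(Pe_c) (¼ ∑ ⟨e_k, R_bc e_l⟩ hv_k hv_l + cf F_bc)
   = ½ ∑_{kl} c_k c_l (¼ ∑_{pq} R k l p q h_p h_q + cf (Fv (v_k) (v_l)))`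
   (`cv(P e_b) = ∑_k a_bk c_k`, `∑_b a_bk P_b = P_k`, `∑_b a_bk td V b = D(·)(v_k)`, `∑_c a_cl A_c = A(v_l)`), and
   `c_k c_l x' - Ee_k Ee_l x' ∈ Gf (q+2)` for `x' ∈ Gf (q+1)` (`x' = h_p h_q x`, `cf F x`);
   `lm (h_p h_q)` commutes with `Ee_k Ee_l` (`lm_Ee` twice), so the result is `F1 x + F2 x`.
-/

set_option autoImplicit false
set_option maxSynthPendingDepth 3

open scoped ContDiff Topology
open Finset Matrix

noncomputable section

namespace Pool.Agent.EXO.L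

variable {n M : ℕ} {ι : Type} [Fintype ι] [DecidableEq ι] {V : Geo n M} {E : Bd V ι}
  {θ : Fin M → En M → Matrix ι ι ℂ} {y : En M} {v : Fin n → En M} (h : PtB V y v)

private structure lleb_Lin (f : En M → EH M ι) : Prop where
  add : ∀ u w, f (u + w) = f u + f w
  smul : ∀ (r : ℝ) u, f (r • u) = (r : ℂ) • f u

private theorem lleb_cv : lleb_Lin (cv : En M → EH M ι) := ⟨cv_add, cv_smul⟩

private theorem lleb_hv : lleb_Lin (hv : En M → EH M ι) := ⟨hv_add, hv_smul⟩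

private theorem lleb_comp {f : En M → EH M ι} (hf : lleb_Lin f) (B : En M →L[ℝ] En M) :
    lleb_Lin (fun w => f (B w)) :=
  ⟨fun u w => by rw [map_add, hf.add], fun r u => by rw [map_smul, hf.smul]⟩

private theorem lleb_zero {f : En M → EH M ι} (hf : lleb_Lin f) : f 0 = 0 := by
  have h := hf.smul 0 0
  rwa [zero_smul, Complex.ofReal_zero, zero_smul] at h

private theorem lleb_sum {f : En M → EH M ι} (hf : lleb_Lin f) {α : Type*} (s : Finset α)
    (r : α → ℝ) (u : α → En M) : f (∑ i ∈ s, r i • u i) = ∑ i ∈ s, ((r i : ℝ) : ℂ) • f (u i) := by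
  classical
  induction s using Finset.induction_on with
  | empty => rw [Finset.sum_empty, Finset.sum_empty, lleb_zero hf]
  | insert a s ha ih => rw [Finset.sum_insert ha, Finset.sum_insert ha, hf.add, hf.smul, ih]

private theorem lleb_exp (w : En M) : w = ∑ l, w l • (bv l : En M) := by
  ext b
  simp [bv, Pi.single_apply]

private theorem lleb_bv (l : Fin M) (w : En M) : (inner ℝ (bv l : En M) w : ℝ) = w l := by
  unfold bv
  rw [EuclideanSpace.inner_single_left]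
  simp

private theorem lleb_bv' (l : Fin M) (w : En M) : (inner ℝ w (bv l : En M) : ℝ) = w l := by
  rw [real_inner_comm, lleb_bv]

private theorem lleb_co {f : En M → EH M ι} (hf : lleb_Lin f) (w : En M) :
    ∑ k, ((w k : ℝ) : ℂ) • f (bv k) = f w := by
  conv_rhs => rw [lleb_exp w, lleb_sum hf]

include h in
private theorem lleb_Pe (l : Fin M) : V.P y (bv l) = ∑ j, (v j l) • v j := by
  rw [P_eq_sum V h.mem v h.on h.tan]
  exact sum_congr rfl fun j _ => by rw [lleb_bv']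

include h in
private theorem lleb_trP {f g : En M → EH M ι} (hf : lleb_Lin f) (hg : lleb_Lin g) :
    ∑ l, f (V.P y (bv l)) * g (bv l) = ∑ j, f (v j) * g (v j) := by
  have h1 : ∀ l, f (V.P y (bv l)) * g (bv l) = ∑ j, f (v j) * (((v j l : ℝ) : ℂ) • g (bv l)) := by
    intro l
    rw [lleb_Pe h l, lleb_sum hf, Finset.sum_mul]
    exact sum_congr rfl fun j _ => by rw [smul_mul_assoc, mul_smul_comm]
  rw [sum_congr rfl fun l _ => h1 l, Finset.sum_comm]
  exact sum_congr rfl fun j _ => by rw [← Finset.mul_sum, lleb_co hg]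

private theorem lleb_move {f g : En M → EH M ι} (hf : lleb_Lin f) (hg : lleb_Lin g)
    (S : En M → En M) (hS : ∀ k l, S (bv l) k = S (bv k) l) :
    ∑ l, f (bv l) * g (S (bv l)) = ∑ l, f (S (bv l)) * g (bv l) := by
  have h1 : ∀ l, f (bv l) * g (S (bv l)) =
      ∑ k, (((S (bv k) l : ℝ) : ℂ) • f (bv l)) * g (bv k) := by
    intro l
    conv_lhs => rw [← lleb_co hg (S (bv l)), Finset.mul_sum]
    exact sum_congr rfl fun k _ => by rw [hS k l, smul_mul_assoc, mul_smul_comm]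
  rw [sum_congr rfl fun l _ => h1 l, Finset.sum_comm]
  exact sum_congr rfl fun k _ => by rw [← Finset.sum_mul, lleb_co hf]

include h in
private theorem lleb_sym (k l : Fin M) : V.P y (bv l) k = V.P y (bv k) l := by
  rw [← lleb_bv k, ← lleb_bv l, ← V.P_sa y h.mem, real_inner_comm]

include h in
private theorem lleb_split {f g : En M → EH M ι} (hf : lleb_Lin f) (hg : lleb_Lin g) :
    ∑ l, f (bv l) * g (bv l) = ∑ j, f (v j) * g (v j) +
      ∑ l, f (bv l - V.P y (bv l)) * g (bv l - V.P y (bv l)) := by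
  let Q : En M →L[ℝ] En M := ContinuousLinearMap.id ℝ (En M) - V.P y
  have hQ : ∀ w, Q w = w - V.P y w := fun w => rfl
  have hQQ : ∀ w, Q (Q w) = Q w := by
    intro w
    rw [hQ (Q w), hQ w, map_sub, V.P_idem y h.mem]
    abel
  have hQs : ∀ k l, Q (bv l) k = Q (bv k) l := by
    intro k l
    have h1 := lleb_sym h k l
    have h2 : (bv l : En M) k = (bv k : En M) l := by
      rw [← lleb_bv k, ← lleb_bv l, real_inner_comm]
    show (bv l : En M) k - V.P y (bv l) k = (bv k : En M) l - V.P y (bv k) l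
    rw [h1, h2]
  have h1 := lleb_move (lleb_comp hf Q) hg Q hQs
  simp only [hQQ] at h1
  have h2 : ∀ l, f (bv l) * g (bv l) = f (V.P y (bv l)) * g (bv l) + f (Q (bv l)) * g (bv l) := by
    intro l
    rw [← add_mul, ← hf.add, hQ]
    congr 2
    abel
  rw [sum_congr rfl fun l _ => h2 l, Finset.sum_add_distrib, lleb_trP h hf hg, ← h1]
  rfl

include h in
theorem skew_quad {B : En M →L[ℝ] En M} (hB : ∀ u w, inner ℝ (B u) w = -inner ℝ u (B w)) :
    ∑ k, ∑ l, ((inner ℝ (bv k) (B (bv l)) : ℝ) : ℂ) • (cv (bv k) * cv (bv l) : EH M ι) =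
      ∑ i, ∑ j, ((inner ℝ (v i) (B (v j)) : ℝ) : ℂ) • (cv (v i) * cv (v j) : EH M ι) +
      (2 : ℂ) • ∑ j, cv (B (v j) - V.P y (B (v j))) * cv (v j) +
      ∑ l, cv (B (bv l - V.P y (bv l)) - V.P y (B (bv l - V.P y (bv l)))) *
        cv (bv l - V.P y (bv l)) := by
  have h1 : ∑ k, ∑ l, ((inner ℝ (bv k) (B (bv l)) : ℝ) : ℂ) • (cv (bv k) * cv (bv l) : EH M ι) =
      ∑ l, cv (B (bv l)) * cv (bv l) := by
    rw [Finset.sum_comm]
    refine sum_congr rfl fun l _ => ?_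
    rw [← lleb_co lleb_cv (B (bv l)), Finset.sum_mul]
    exact sum_congr rfl fun k _ => by rw [lleb_bv, smul_mul_assoc]
  have h2 := lleb_split (f := fun w => (cv (B w) : EH M ι)) (g := cv) h
    (lleb_comp lleb_cv B) lleb_cv
  have h3 : ∀ j, (cv (B (v j)) * cv (v j) : EH M ι) =
      ∑ i, ((inner ℝ (v i) (B (v j)) : ℝ) : ℂ) • (cv (v i) * cv (v j) : EH M ι) +
        cv (B (v j) - V.P y (B (v j))) * cv (v j) := by
    intro j
    have h4 : B (v j) = ∑ i, (inner ℝ (v i) (B (v j)) : ℝ) • v i + (B (v j) - V.P y (B (v j))) := by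
      rw [← P_eq_sum V h.mem v h.on h.tan (B (v j))]
      abel
    conv_lhs => rw [h4, cv_add, lleb_sum lleb_cv, add_mul, Finset.sum_mul]
    simp only [smul_mul_assoc]
  have hd : ∀ l, (cv (B (bv l - V.P y (bv l))) * cv (bv l - V.P y (bv l)) : EH M ι) =
      -(∑ j, (((B (v j) - V.P y (B (v j))) l : ℝ) : ℂ) •
        (cv (v j) * cv (bv l - V.P y (bv l)) : EH M ι)) +
      cv (B (bv l - V.P y (bv l)) - V.P y (B (bv l - V.P y (bv l)))) *
        cv (bv l - V.P y (bv l)) := by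
    intro l
    have h5 : ∀ j, (inner ℝ (v j) (B (bv l - V.P y (bv l))) : ℝ) =
        -((B (v j) - V.P y (B (v j))) l) := by
      intro j
      have h6 := hB (v j) (bv l - V.P y (bv l))
      have h7 : (inner ℝ (B (v j)) (bv l - V.P y (bv l)) : ℝ) =
          (B (v j) - V.P y (B (v j))) l := by
        rw [inner_sub_right, ← V.P_sa y h.mem, lleb_bv', lleb_bv']
        rfl
      rw [← h7, h6, neg_neg]
    have h4 : B (bv l - V.P y (bv l)) =
        ∑ j, (inner ℝ (v j) (B (bv l - V.P y (bv l))) : ℝ) • v j +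
          (B (bv l - V.P y (bv l)) - V.P y (B (bv l - V.P y (bv l)))) := by
      rw [← P_eq_sum V h.mem v h.on h.tan (B (bv l - V.P y (bv l)))]
      abel
    conv_lhs => rw [h4, cv_add, lleb_sum lleb_cv, add_mul, Finset.sum_mul]
    rw [← Finset.sum_neg_distrib]
    congr 1
    refine sum_congr rfl fun j _ => ?_
    rw [h5 j, smul_mul_assoc, Complex.ofReal_neg, neg_smul]
  have he : -(∑ l, ∑ j, (((B (v j) - V.P y (B (v j))) l : ℝ) : ℂ) •
        (cv (v j) * cv (bv l - V.P y (bv l)) : EH M ι)) =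
      ∑ j, cv (B (v j) - V.P y (B (v j))) * cv (v j) := by
    let Q : En M →L[ℝ] En M := ContinuousLinearMap.id ℝ (En M) - V.P y
    rw [Finset.sum_comm, ← Finset.sum_neg_distrib]
    refine sum_congr rfl fun j _ => ?_
    have h5 := lleb_co (lleb_comp (lleb_cv (M := M) (ι := ι)) Q) (B (v j) - V.P y (B (v j)))
    have h6 : ∑ l, (((B (v j) - V.P y (B (v j))) l : ℝ) : ℂ) •
        (cv (v j) * cv (bv l - V.P y (bv l)) : EH M ι) =
        cv (v j) * cv (Q (B (v j) - V.P y (B (v j)))) := by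
      rw [← h5, Finset.mul_sum]
      exact sum_congr rfl fun l _ => by rw [mul_smul_comm]; rfl
    have h7 : Q (B (v j) - V.P y (B (v j))) = B (v j) - V.P y (B (v j)) := by
      show (B (v j) - V.P y (B (v j))) - V.P y (B (v j) - V.P y (B (v j))) = _
      rw [map_sub, V.P_idem y h.mem, sub_self, sub_zero]
    rw [h6, h7]
    have h8 := cv_cv (ι := ι) (v j) (B (v j) - V.P y (B (v j)))
    have h9 : (inner ℝ (v j) (B (v j) - V.P y (B (v j))) : ℝ) = 0 := by
      rw [inner_sub_right, ← V.P_sa y h.mem, h.tan, sub_self]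
    rw [h9, mul_zero, Complex.ofReal_zero, zero_smul] at h8
    rw [neg_eq_iff_add_eq_zero, h8]
  rw [h1, h2, sum_congr rfl fun j _ => h3 j, sum_congr rfl fun l _ => hd l,
    Finset.sum_add_distrib, Finset.sum_add_distrib, Finset.sum_neg_distrib, he,
    Finset.sum_comm (f := fun j i => ((inner ℝ (v i) (B (v j)) : ℝ) : ℂ) •
      (cv (v i) * cv (v j) : EH M ι)), two_smul]
  abel

private theorem lleb_le {S : CSys n (HF M ι)} {p q : ℕ} (hpq : p ≤ q) {x : EH M ι}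
    (hx : x ∈ S.Gf p) : x ∈ S.Gf q := S.Gf_mono hpq hx

private theorem lleb_c (j : Fin n) (x : EH M ι) :
    (cv (v j) * x : EH M ι) = (geoM V E h).Ee j x - (geoM V E h).Ie j x := by
  have h1 := (geoM V E h).toCSys.lm_c j
  have h2 := congrArg (fun T : EH M ι →L[ℂ] EH M ι => T x) h1
  exact h2

/-- the normal-normal remainder of the quadratic form -/
private theorem lleb_rem (B : En M →L[ℝ] En M) :
    (∑ l, cv (B (bv l - V.P y (bv l)) - V.P y (B (bv l - V.P y (bv l)))) *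
        cv (bv l - V.P y (bv l)) : EH M ι) ∈ (geoM V E h).vac := by
  refine Submodule.sum_mem _ fun l _ => (geoM V E h).toCSys.vac_mul (cv_nor_vac h _ ?_)
    (cv_nor_vac h _ ?_)
  · rw [map_sub, V.P_idem y h.mem, sub_self]
  · rw [map_sub, V.P_idem y h.mem, sub_self]

private theorem lleb_hh (T : En M →L[ℝ] En M) :
    (∑ k, ∑ l, ((inner ℝ (bv k) (T (bv l)) : ℝ) : ℂ) • (hv (bv k) * hv (bv l)) : EH M ι) ∈
      (geoM V E h).vac :=
  Submodule.sum_mem _ fun _ _ => Submodule.sum_mem _ fun _ _ => Submodule.smul_mem _ _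
    ((geoM V E h).toCSys.vac_mul (hv_vac h _) (hv_vac h _))

/-- `-dΛ(B)` modulo the vacuum space -/
private theorem lleb_dL {B : En M →L[ℝ] En M} (hB : ∀ u w, inner ℝ (B u) w = -inner ℝ u (B w)) :
    ∃ z ∈ (geoM V E h).vac, -(dLam B : EH M ι) =
      (1 / 4 : ℂ) • (∑ i, ∑ j, ((inner ℝ (v i) (B (v j)) : ℝ) : ℂ) •
        (cv (v i) * cv (v j) : EH M ι)) +
      (1 / 2 : ℂ) • (∑ j, cv (B (v j) - V.P y (B (v j))) * cv (v j)) + z := by
  refine ⟨(1 / 4 : ℂ) • (∑ l, cv (B (bv l - V.P y (bv l)) - V.P y (B (bv l - V.P y (bv l)))) *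
        cv (bv l - V.P y (bv l))) - (1 / 4 : ℂ) • (∑ k, ∑ l,
          ((inner ℝ (bv k) (B (bv l)) : ℝ) : ℂ) • (hv (bv k) * hv (bv l))),
    Submodule.sub_mem _ (Submodule.smul_mem _ _ (lleb_rem h B))
      (Submodule.smul_mem _ _ (lleb_hh h B)), ?_⟩
  have h1 := skew_quad (ι := ι) h hB
  rw [dLam_quad hB]
  simp only [smul_sub, Finset.sum_sub_distrib]
  rw [h1]
  module

private theorem lleb_sumap {J : Type} (s : Finset J) (w : J → EH M ι →L[ℂ] EH M ι) (x : EH M ι) :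
    (∑ k ∈ s, w k) x = ∑ k ∈ s, w k x := by
  classical
  induction s using Finset.induction_on with
  | empty => simp
  | insert a s ha ih => rw [Finset.sum_insert ha, Finset.sum_insert ha, ← ih]; rfl

include h in
private theorem lleb_Pd (b : Fin M) (w : En M) :
    Pd V b y w = ∑ i, (v i b) • fderiv ℝ V.P y (v i) w := by
  have h1 : Pd V b y = fderiv ℝ V.P y (V.P y (bv b)) := rfl
  rw [h1, lleb_Pe h b, map_sum, _root_.sum_apply]
  exact sum_congr rfl fun i _ => by rw [map_smul]; rfl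

private theorem lleb_Xx (i : Fin n) (x : EH M ι) : (geoM V E h).X i x =
    (1 / 2 : ℂ) • ∑ j, cv (IIv V y v i j) * (geoM V E h).Ee j x := by
  have h1 : (geoM V E h).X i x = (1 / 2 : ℂ) •
      ((∑ j, lm ((geoM V E h).N i j) * (geoM V E h).Ee j : EH M ι →L[ℂ] EH M ι) x) := rfl
  rw [h1, lleb_sumap]
  rfl

private theorem lleb_XX (b : Fin M) (x : EH M ι) :
    ∑ i, ((v i b : ℝ) : ℂ) • (geoM V E h).X i x =
      (1 / 2 : ℂ) • ∑ j, cv (Pd V b y (v j)) * (geoM V E h).Ee j x := by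
  have h1 : ∀ j, (cv (Pd V b y (v j)) * (geoM V E h).Ee j x : EH M ι) =
      ∑ i, ((v i b : ℝ) : ℂ) • (cv (IIv V y v i j) * (geoM V E h).Ee j x) := by
    intro j
    rw [lleb_Pd h b, lleb_sum lleb_cv, Finset.sum_mul]
    exact sum_congr rfl fun i _ => by rw [smul_mul_assoc]; rfl
  rw [sum_congr rfl fun j _ => h1 j, Finset.sum_comm, Finset.smul_sum]
  refine sum_congr rfl fun i _ => ?_
  rw [lleb_Xx, ← Finset.smul_sum, smul_comm]

theorem Xi_lead (b : Fin M) (q : ℕ) {x : EH M ι} (hx : x ∈ (geoM V E h).Gf (q + 1)) :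
    Xi V E b y * x - ∑ i, ((v i b : ℝ) : ℂ) • (geoM V E h).X i x ∈
      (geoM V E h).Gf (q + 1) := by
  obtain ⟨z, hz, h1⟩ := lleb_dL (ι := ι) (E := E) h (Ab_skew h.loc h.mem b)
  have hA0 : ∀ i j, (inner ℝ (v i) (Ab V b y (v j)) : ℝ) = 0 := by
    intro i j
    rw [← h.tan i, V.P_sa y h.mem, ← h.tan j, P_Ab_P h.loc h.mem, inner_zero_right]
  have hA1 : ∀ j, Ab V b y (v j) - V.P y (Ab V b y (v j)) = Pd V b y (v j) := by
    intro j
    have h2 := Ab_P h.loc h.mem b (v j)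
    have h3 := P_Ab_P h.loc h.mem b (v j)
    rw [h.tan j] at h2 h3
    rw [h3, sub_zero, h2]
  have hP0 : ∀ j, V.P y (Pd V b y (v j)) = 0 := by
    intro j
    have h2 := Ab_P h.loc h.mem b (v j)
    have h3 := P_Ab_P h.loc h.mem b (v j)
    rw [h2, h.tan j] at h3
    exact h3
  have h4 : (∑ i, ∑ j, ((inner ℝ (v i) (Ab V b y (v j)) : ℝ) : ℂ) •
        (cv (v i) * cv (v j) : EH M ι)) = 0 := by
    refine Finset.sum_eq_zero fun i _ => Finset.sum_eq_zero fun j _ => ?_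
    rw [hA0, Complex.ofReal_zero, zero_smul]
  rw [h4, smul_zero, zero_add, sum_congr rfl fun j _ => by rw [hA1 j]] at h1
  have h5 : Xi V E b y * x - ∑ i, ((v i b : ℝ) : ℂ) • (geoM V E h).X i x =
      (z * x - cf (td V b E.e y) * x + cf (E.A b y) * x) -
        (1 / 2 : ℂ) • ∑ j, cv (Pd V b y (v j)) * (geoM V E h).Ie j x := by
    have h6 : (∑ j, cv (Pd V b y (v j)) * cv (v j) : EH M ι) * x =
        ∑ j, cv (Pd V b y (v j)) * (geoM V E h).Ee j x -
          ∑ j, cv (Pd V b y (v j)) * (geoM V E h).Ie j x := by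
      rw [Finset.sum_mul, ← Finset.sum_sub_distrib]
      exact sum_congr rfl fun j _ => by rw [mul_assoc, lleb_c h, mul_sub]
    rw [lleb_XX]
    unfold Xi
    rw [h1, add_mul, sub_mul, add_mul, smul_mul_assoc, h6]
    module
  rw [h5]
  refine Submodule.sub_mem _ (Submodule.add_mem _ (Submodule.sub_mem _ ?_ ?_) ?_)
    (Submodule.smul_mem _ _ (Submodule.sum_mem _ fun j _ => ?_))
  · exact (geoM V E h).toCSys.vac_mul_mem hz _ hx
  · exact (geoM V E h).toCSys.vac_mul_mem (cf_vac h _) _ hx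
  · exact (geoM V E h).toCSys.vac_mul_mem (cf_vac h _) _ hx
  · exact (geoM V E h).toCSys.vac_mul_mem (cv_nor_vac h _ (hP0 j)) _
      ((geoM V E h).toCSys.Ie_mem' j _ hx)

private theorem lleb_dif {F G : Type} [NormedAddCommGroup F] [NormedSpace ℝ F]
    [NormedAddCommGroup G] [NormedSpace ℝ G] {f : F → G} (hf : ContDiff ℝ ∞ f) (x : F) :
    DifferentiableAt ℝ f x := (hf.differentiable (by simp)).differentiableAt

private theorem lleb_dclm {F G : Type} [NormedAddCommGroup F] [NormedSpace ℝ F]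
    [NormedAddCommGroup G] [NormedSpace ℝ G] (L : F →L[ℝ] G) {f : En M → F}
    (hf : ContDiff ℝ ∞ f) (x w : En M) : fderiv ℝ (fun z => L (f z)) x w = L (fderiv ℝ f x w) := by
  have h1 : HasFDerivAt (fun z => L (f z)) (L.comp (fderiv ℝ f x)) x :=
    L.hasFDerivAt.comp x (lleb_dif hf x).hasFDerivAt
  rw [h1.fderiv]
  rfl

private theorem lleb_dsub {F : Type} [NormedAddCommGroup F] [NormedSpace ℝ F] {f g : En M → F}
    (hf : ContDiff ℝ ∞ f) (hg : ContDiff ℝ ∞ g) (x w : En M) :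
    fderiv ℝ (fun z => f z - g z) x w = fderiv ℝ f x w - fderiv ℝ g x w := by
  rw [fderiv_fun_sub (lleb_dif hf x) (lleb_dif hg x)]
  rfl

private theorem lleb_dmul {f g : En M → (En M →L[ℝ] En M)} (hf : ContDiff ℝ ∞ f)
    (hg : ContDiff ℝ ∞ g) (x w : En M) :
    fderiv ℝ (fun z => f z * g z) x w = fderiv ℝ f x w * g x + f x * fderiv ℝ g x w := by
  have h1 := (lleb_dif hf x).hasFDerivAt.mul' (lleb_dif hg x).hasFDerivAt
  have h2 : fderiv ℝ (fun y => f y * g y) x =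
    f x • fderiv ℝ g x + MulOpposite.op (g x) • fderiv ℝ f x := h1.fderiv
  rw [h2, add_comm]
  rfl

private theorem lleb_cdAb (V : Geo n M) (b : Fin M) : ContDiff ℝ ∞ (Ab V b) :=
  ((contDiff_Pd b).clm_comp V.smoothP).sub (V.smoothP.clm_comp (contDiff_Pd b))

include h in
private theorem lleb_Bskew (b : Fin M) (m : Fin n) (u w : En M) :
    inner ℝ (fderiv ℝ (Ab V b) y (v m) u) w = -inner ℝ u (fderiv ℝ (Ab V b) y (v m) w) := by
  let L : (En M →L[ℝ] En M) →L[ℝ] ℝ :=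
    (innerSL ℝ w).comp (ContinuousLinearMap.apply ℝ (En M) u) +
      (innerSL ℝ u).comp (ContinuousLinearMap.apply ℝ (En M) w)
  have hL : ∀ T : En M →L[ℝ] En M, L T = inner ℝ w (T u) + inner ℝ u (T w) := fun T => rfl
  have h1 := h.loc ℝ (fun z => L (Ab V b z))
    ((L.contDiff.comp (lleb_cdAb V b)).of_le (by simp))
    (fun z hz => by
      rw [hL, real_inner_comm, Ab_skew h.loc hz]
      ring) y h.mem (v m)
  rw [h.tan, lleb_dclm L (lleb_cdAb V b), hL] at h1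
  rw [real_inner_comm]
  linarith

include h in
private theorem lleb_Psym (m : Fin n) (u w : En M) :
    (inner ℝ (fderiv ℝ V.P y (v m) u) w : ℝ) = inner ℝ u (fderiv ℝ V.P y (v m) w) := by
  let L : (En M →L[ℝ] En M) →L[ℝ] ℝ :=
    (innerSL ℝ w).comp (ContinuousLinearMap.apply ℝ (En M) u) -
      (innerSL ℝ u).comp (ContinuousLinearMap.apply ℝ (En M) w)
  have hL : ∀ T : En M →L[ℝ] En M, L T = inner ℝ w (T u) - inner ℝ u (T w) := fun T => rfl
  have h1 := h.loc ℝ (fun z => L (V.P z)) ((L.contDiff.comp V.smoothP).of_le (by simp))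
    (fun z hz => by
      rw [hL, real_inner_comm, V.P_sa z hz]
      ring) y h.mem (v m)
  rw [h.tan, lleb_dclm L V.smoothP, hL] at h1
  rw [real_inner_comm]
  linarith

private theorem lleb_R (i m k l : Fin n) : (geoM V E h).R i m k l =
    inner ℝ (IIv V y v i k) (IIv V y v m l) - inner ℝ (IIv V y v i l) (IIv V y v m k) := rfl

private theorem lleb_Bv (b : Fin M) (m k l : Fin n) :
    (inner ℝ (v k) (fderiv ℝ (Ab V b) y (v m) (v l)) : ℝ) =
      ∑ i, (v i b) * (geoM V E h).R i m k l := by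
  have h1 : fderiv ℝ (Ab V b) y (v m) =
      (fderiv ℝ (Pd V b) y (v m) * V.P y + Pd V b y * fderiv ℝ V.P y (v m)) -
        (fderiv ℝ V.P y (v m) * Pd V b y + V.P y * fderiv ℝ (Pd V b) y (v m)) := by
    have h2 : fderiv ℝ (Ab V b) y (v m) = fderiv ℝ (fun z => Pd V b z * V.P z) y (v m) -
        fderiv ℝ (fun z => V.P z * Pd V b z) y (v m) :=
      lleb_dsub (f := fun z => Pd V b z * V.P z) (g := fun z => V.P z * Pd V b z)
        ((contDiff_Pd b).clm_comp V.smoothP) (V.smoothP.clm_comp (contDiff_Pd b)) y (v m)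
    rw [h2, lleb_dmul (contDiff_Pd b) V.smoothP, lleb_dmul V.smoothP (contDiff_Pd b)]
  have h5 : fderiv ℝ (Ab V b) y (v m) (v l) =
      (fderiv ℝ (Pd V b) y (v m) (V.P y (v l)) + Pd V b y (fderiv ℝ V.P y (v m) (v l))) -
        (fderiv ℝ V.P y (v m) (Pd V b y (v l)) + V.P y (fderiv ℝ (Pd V b) y (v m) (v l))) := by
    rw [h1]
    rfl
  have h6 : (inner ℝ (v k) (V.P y (fderiv ℝ (Pd V b) y (v m) (v l))) : ℝ) =
      inner ℝ (v k) (fderiv ℝ (Pd V b) y (v m) (v l)) := by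
    rw [← V.P_sa y h.mem, h.tan]
  have h9 : (inner ℝ (v k) (Pd V b y (fderiv ℝ V.P y (v m) (v l))) : ℝ) =
      ∑ i, inner ℝ ((v i b) • fderiv ℝ V.P y (v i) (v k)) (fderiv ℝ V.P y (v m) (v l)) := by
    rw [← Pd_sa h.loc h.mem, lleb_Pd h b (v k), sum_inner]
  have h10 : (inner ℝ (v k) (fderiv ℝ V.P y (v m) (Pd V b y (v l))) : ℝ) =
      ∑ i, inner ℝ (fderiv ℝ V.P y (v m) (v k)) ((v i b) • fderiv ℝ V.P y (v i) (v l)) := by
    rw [← lleb_Psym h, lleb_Pd h b (v l), inner_sum]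
  rw [h5, h.tan, inner_sub_right, inner_add_right, inner_add_right, h6, h9, h10]
  have h7 : ∀ a b c : ℝ, a + b - (c + a) = b - c := fun a b c => by ring
  rw [h7, ← Finset.sum_sub_distrib]
  refine sum_congr rfl fun i _ => ?_
  rw [lleb_R, real_inner_smul_left, real_inner_smul_right]
  have h8 : (inner ℝ (fderiv ℝ V.P y (v m) (v k)) (fderiv ℝ V.P y (v i) (v l)) : ℝ) =
      inner ℝ (IIv V y v i l) (IIv V y v m k) := real_inner_comm _ _
  rw [h8]
  unfold IIv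
  ring

private theorem lleb_EE (k l : Fin n) (q : ℕ) {x : EH M ι} (hx : x ∈ (geoM V E h).Gf (q + 1)) :
    cv (v k) * (cv (v l) * x) - (geoM V E h).Ee k ((geoM V E h).Ee l x) ∈
      (geoM V E h).Gf (q + 2) := by
  have h1 : cv (v k) * (cv (v l) * x) - (geoM V E h).Ee k ((geoM V E h).Ee l x) =
      -((geoM V E h).Ie k ((geoM V E h).Ee l x)) - cv (v k) * (geoM V E h).Ie l x := by
    rw [lleb_c h l, mul_sub, lleb_c h k ((geoM V E h).Ee l x)]
    abel
  rw [h1]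
  refine Submodule.sub_mem _ (Submodule.neg_mem _ ?_) ?_
  · exact lleb_le (Nat.le_succ (q + 1)) ((geoM V E h).toCSys.Ie_mem k (q + 1)
      ((geoM V E h).toCSys.Ee_mem l (q + 1) hx))
  · exact lleb_le (Nat.le_succ (q + 1)) ((geoM V E h).toCSys.lm_c_mem k q
      ((geoM V E h).toCSys.Ie_mem l q hx))

private theorem lleb_quad (D : MDat n (HF M ι) ι) {r : ℂ} {t : Fin n → Fin n → ℂ} (x : EH M ι) :
    (r • ∑ k, ∑ l, t k l • (D.Ee k * D.Ee l) : EH M ι →L[ℂ] EH M ι) x =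
      r • ∑ k, ∑ l, t k l • D.Ee k (D.Ee l x) := by
  change r • ((∑ k, ∑ l, t k l • (D.Ee k * D.Ee l)) x) = _
  rw [lleb_sumap]
  congr 1
  refine sum_congr rfl fun k _ => ?_
  rw [lleb_sumap]
  rfl

theorem dXi_lead (b : Fin M) (m : Fin n) (q : ℕ) {x : EH M ι}
    (hx : x ∈ (geoM V E h).Gf (q + 1)) :
    fderiv ℝ (Xi V E b) y (v m) * x - ∑ i, ((v i b : ℝ) : ℂ) • (geoM V E h).Y i m x ∈
      (geoM V E h).Gf (q + 2) := by
  obtain ⟨z, hz, h1⟩ := lleb_dL (ι := ι) (E := E) h (lleb_Bskew h b m)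
  have h2 : ∃ T : Matrix ι ι ℂ, fderiv ℝ (Xi V E b) y (v m) =
      -dLam (fderiv ℝ (Ab V b) y (v m)) + cf T := by
    obtain ⟨L1, hL1⟩ := dLam_clm (M := M) (ι := ι)
    obtain ⟨L2, hL2⟩ := cf_clm (M := M) (ι := ι)
    have h3 : ContDiff ℝ ∞ (fun z => E.A b z - td V b E.e z) :=
      (E.smooth_A b).sub (contDiff_td E.smooth_e b)
    refine ⟨fderiv ℝ (fun z => E.A b z - td V b E.e z) y (v m), ?_⟩
    have h4 : Xi V E b = fun z => L2 (E.A b z - td V b E.e z) - L1 (Ab V b z) := by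
      funext z
      rw [hL1, hL2, cf_sub]
      unfold Xi
      abel
    have h7 := lleb_dsub (f := fun z => L2 (E.A b z - td V b E.e z)) (g := fun z => L1 (Ab V b z))
      (L2.contDiff.comp h3) (L1.contDiff.comp (lleb_cdAb V b)) y (v m)
    have h8 : fderiv ℝ (fun z => L2 (E.A b z - td V b E.e z)) y (v m) =
        L2 (fderiv ℝ (fun z => E.A b z - td V b E.e z) y (v m)) := lleb_dclm L2 h3 y (v m)
    have h9 : fderiv ℝ (fun z => L1 (Ab V b z)) y (v m) = L1 (fderiv ℝ (Ab V b) y (v m)) :=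
      lleb_dclm L1 (lleb_cdAb V b) y (v m)
    rw [h4, h7, h8, h9, hL2, hL1, neg_add_eq_sub]
  obtain ⟨T, hT⟩ := h2
  have h3 : ∑ i, ((v i b : ℝ) : ℂ) • (geoM V E h).Y i m x =
      (1 / 4 : ℂ) • ∑ k, ∑ l, ((inner ℝ (v k) (fderiv ℝ (Ab V b) y (v m) (v l)) : ℝ) : ℂ) •
        (geoM V E h).Ee k ((geoM V E h).Ee l x) := by
    have h4 : ∀ k l, ((inner ℝ (v k) (fderiv ℝ (Ab V b) y (v m) (v l)) : ℝ) : ℂ) •
        (geoM V E h).Ee k ((geoM V E h).Ee l x) =
        ∑ i, ((v i b : ℝ) : ℂ) • (((geoM V E h).R i m k l : ℝ) : ℂ) •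
          (geoM V E h).Ee k ((geoM V E h).Ee l x) := by
      intro k l
      rw [lleb_Bv (E := E) h b m k l, Complex.ofReal_sum, Finset.sum_smul]
      exact sum_congr rfl fun i _ => by rw [Complex.ofReal_mul, mul_smul]
    rw [sum_congr rfl fun k _ => sum_congr rfl fun l _ => h4 k l,
      sum_congr rfl fun k _ => Finset.sum_comm, Finset.sum_comm, Finset.smul_sum]
    refine sum_congr rfl fun i _ => ?_
    have h5 : (geoM V E h).Y i m x = (1 / 4 : ℂ) • ∑ k, ∑ l,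
        (((geoM V E h).R i m k l : ℝ) : ℂ) • (geoM V E h).Ee k ((geoM V E h).Ee l x) :=
      lleb_quad _ x
    rw [h5]
    simp only [Finset.smul_sum, smul_smul]
    refine sum_congr rfl fun k _ => sum_congr rfl fun l _ => ?_
    congr 1
    ring
  have h4 : fderiv ℝ (Xi V E b) y (v m) * x - ∑ i, ((v i b : ℝ) : ℂ) • (geoM V E h).Y i m x =
      z * x + cf T * x +
        (1 / 2 : ℂ) • (∑ j, cv (fderiv ℝ (Ab V b) y (v m) (v j) -
          V.P y (fderiv ℝ (Ab V b) y (v m) (v j))) * (cv (v j) * x)) +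
        (1 / 4 : ℂ) • ∑ k, ∑ l, ((inner ℝ (v k) (fderiv ℝ (Ab V b) y (v m) (v l)) : ℝ) : ℂ) •
          (cv (v k) * (cv (v l) * x) - (geoM V E h).Ee k ((geoM V E h).Ee l x)) := by
    rw [h3, hT, h1, add_mul, add_mul, add_mul, smul_mul_assoc, smul_mul_assoc, Finset.sum_mul,
      Finset.sum_mul]
    simp only [Finset.sum_mul, smul_mul_assoc, mul_assoc, smul_sub, Finset.sum_sub_distrib]
    abel
  rw [h4]
  refine Submodule.add_mem _ (Submodule.add_mem _ (Submodule.add_mem _ ?_ ?_) ?_) ?_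
  · exact lleb_le (Nat.le_succ (q + 1)) ((geoM V E h).toCSys.vac_mul_mem hz _ hx)
  · exact lleb_le (Nat.le_succ (q + 1)) ((geoM V E h).toCSys.vac_mul_mem (cf_vac h _) _ hx)
  · refine Submodule.smul_mem _ _ (Submodule.sum_mem _ fun j _ => ?_)
    refine (geoM V E h).toCSys.vac_mul_mem (cv_nor_vac h _ ?_) _
      ((geoM V E h).toCSys.lm_c_mem j _ hx)
    rw [map_sub, V.P_idem y h.mem, sub_self]
  · exact Submodule.smul_mem _ _ (Submodule.sum_mem _ fun k _ => Submodule.sum_mem _ fun l _ =>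
      Submodule.smul_mem _ _ (lleb_EE h k l q hx))

include h in
private theorem lleb_td {F : Type} [NormedAddCommGroup F] [NormedSpace ℝ F] (f : En M → F)
    (k : Fin n) : ∑ b, (v k b) • td V b f y = fderiv ℝ f y (v k) := by
  have h1 : v k = ∑ b, (v k b) • V.P y (bv b) := by
    have h2 := congrArg (V.P y) (lleb_exp (v k))
    rw [h.tan, map_sum] at h2
    refine h2.trans (sum_congr rfl fun b _ => ?_)
    rw [map_smul]
  conv_rhs => rw [h1, map_sum]
  exact sum_congr rfl fun b _ => by rw [map_smul]; rfl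

include h in
private theorem lleb_tdm (f : En M → Matrix ι ι ℂ) (k : Fin n) :
    ∑ b, ((v k b : ℝ) : ℂ) • td V b f y = fderiv ℝ f y (v k) := lleb_td h f k

private theorem lleb_ss {K R : Type*} [CommRing K] [Ring R] [Algebra K R] (x z : Fin M → K)
    (f g : Fin M → R) : ∑ b, ∑ c, (x b * z c) • (f b * g c) =
      (∑ b, x b • f b) * ∑ c, z c • g c := by
  rw [Finset.sum_mul_sum]
  exact sum_congr rfl fun b _ => sum_congr rfl fun c _ => (smul_mul_smul_comm _ _ _ _).symm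

private theorem lleb_ss' {K R : Type*} [CommRing K] [Ring R] [Algebra K R] (x z : Fin M → K)
    (f g : Fin M → R) : ∑ b, ∑ c, (x b * z c) • (g c * f b) =
      (∑ c, z c • g c) * ∑ b, x b • f b := by
  rw [Finset.sum_comm, ← lleb_ss]
  exact sum_congr rfl fun b _ => sum_congr rfl fun c _ => by rw [mul_comm (x c)]

private theorem lleb_comm {K R : Type*} [CommRing K] [Ring R] [Algebra K R] (x z : Fin M → K)
    (f : Fin M → R) (e : R) : ∑ b, ∑ c, (x b * z c) • (e * (f b * f c - f c * f b) * e) =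
      e * ((∑ b, x b • f b) * (∑ c, z c • f c) - (∑ c, z c • f c) * ∑ b, x b • f b) * e := by
  rw [← lleb_ss, ← lleb_ss', ← Finset.sum_sub_distrib, Finset.mul_sum, Finset.sum_mul]
  refine sum_congr rfl fun b _ => ?_
  rw [← Finset.sum_sub_distrib, Finset.mul_sum, Finset.sum_mul]
  refine sum_congr rfl fun c _ => ?_
  rw [← smul_sub, mul_smul_comm, smul_mul_assoc]

include h in
private theorem lleb_F (k l : Fin n) :
    ∑ b, ∑ c, (((v k b : ℝ) : ℂ) * ((v l c : ℝ) : ℂ)) • Fbc V E b c y = Fv V E y (v k) (v l) := by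
  unfold Fbc Fv
  simp only [smul_add, Finset.sum_add_distrib]
  rw [lleb_comm, lleb_tdm h, lleb_tdm h]
  congr 1
  · congr 1
    have h1 : ∀ b c, (((v k b : ℝ) : ℂ) * ((v l c : ℝ) : ℂ)) •
        (E.e y * (td V b (E.A c) y - td V c (E.A b) y) * E.e y) =
        E.e y * (((v l c : ℝ) : ℂ) • ((v k b : ℝ) : ℂ) • td V b (E.A c) y) * E.e y -
          E.e y * (((v k b : ℝ) : ℂ) • ((v l c : ℝ) : ℂ) • td V c (E.A b) y) * E.e y := by
      intro b c
      simp only [mul_sub, sub_mul, smul_sub, mul_smul_comm, smul_mul_assoc, smul_smul]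
      rw [mul_comm ((v l c : ℝ) : ℂ)]
    simp only [h1, Finset.sum_sub_distrib]
    rw [Finset.sum_comm]
    simp only [← Finset.sum_mul, ← Finset.mul_sum, ← Finset.smul_sum, lleb_tdm h]
    noncomm_ring
  · have h2 := lleb_comm (fun b => ((v k b : ℝ) : ℂ)) (fun c => ((v l c : ℝ) : ℂ))
      (fun b => E.A b y) 1
    simp only [one_mul, mul_one] at h2
    exact h2

private theorem lleb_gam (T : En M →L[ℝ] En M) :
    (∑ k, ∑ l, ((inner ℝ (bv k) (T (bv l)) : ℝ) : ℂ) • (hv (bv k) * hv (bv l)) : EH M ι) =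
      ∑ l, hv (T (bv l)) * hv (bv l) := by
  rw [Finset.sum_comm]
  refine sum_congr rfl fun l _ => ?_
  rw [← lleb_co lleb_hv (T (bv l)), Finset.sum_mul]
  exact sum_congr rfl fun k _ => by rw [lleb_bv, smul_mul_assoc]

include h in
private theorem lleb_Rr (k l : Fin n) (w : En M) :
    ∑ b, ∑ c, ((v k b) * (v l c)) • Rr V b c y w =
      V.P y (fderiv ℝ V.P y (v k) (fderiv ℝ V.P y (v l) (V.P y w)) -
        fderiv ℝ V.P y (v l) (fderiv ℝ V.P y (v k) (V.P y w))) := by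
  have h1 := lleb_comm (fun b => v k b) (fun c => v l c) (fun b => Pd V b y) (V.P y)
  have h2 : ∑ b, (v k b) • Pd V b y = fderiv ℝ V.P y (v k) := lleb_td h V.P k
  have h3 : ∑ b, (v l b) • Pd V b y = fderiv ℝ V.P y (v l) := lleb_td h V.P l
  rw [h2, h3] at h1
  have h4 := congrArg (fun T : En M →L[ℝ] En M => T w) h1
  simp only [_root_.sum_apply] at h4
  exact h4

private theorem lleb_Z (k l : Fin n) :
    ∑ b, ∑ c, (((v k b : ℝ) : ℂ) * ((v l c : ℝ) : ℂ)) •
      ((1 / 4 : ℂ) • (∑ k, ∑ l, ((inner ℝ (bv k) (Rr V b c y (bv l)) : ℝ) : ℂ) •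
        (hv (bv k) * hv (bv l) : EH M ι)) + cf (Fbc V E b c y)) =
      (1 / 4 : ℂ) • (∑ p, ∑ q, (((geoM V E h).R k l p q : ℝ) : ℂ) •
        (hv (v p) * hv (v q) : EH M ι)) + cf (Fv V E y (v k) (v l)) := by
  simp only [smul_add, Finset.sum_add_distrib]
  congr 1
  · have h1 : ∀ b c, (((v k b : ℝ) : ℂ) * ((v l c : ℝ) : ℂ)) •
      ((1 / 4 : ℂ) • (∑ k, ∑ l, ((inner ℝ (bv k) (Rr V b c y (bv l)) : ℝ) : ℂ) •
        (hv (bv k) * hv (bv l) : EH M ι))) =
        (1 / 4 : ℂ) • ∑ a, (((v k b * v l c : ℝ) : ℂ) • hv (Rr V b c y (bv a))) * hv (bv a) := by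
      intro b c
      rw [lleb_gam, smul_comm, Finset.smul_sum]
      congr 1
      refine sum_congr rfl fun a _ => ?_
      rw [smul_mul_assoc, Complex.ofReal_mul]
    simp only [h1, ← Finset.smul_sum]
    congr 1
    have h2 : ∀ b, ∑ c, ∑ a, (((v k b * v l c : ℝ) : ℂ) • (hv (Rr V b c y (bv a)) : EH M ι)) *
        hv (bv a) = ∑ a, ∑ c, (((v k b * v l c : ℝ) : ℂ) • (hv (Rr V b c y (bv a)) : EH M ι)) *
        hv (bv a) := fun b => Finset.sum_comm
    rw [sum_congr rfl fun b _ => h2 b, Finset.sum_comm]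
    have h3 : ∀ a, (∑ b, ∑ c, (((v k b * v l c : ℝ) : ℂ) • (hv (Rr V b c y (bv a)) : EH M ι)) *
        hv (bv a)) = hv (V.P y (fderiv ℝ V.P y (v k) (fderiv ℝ V.P y (v l) (V.P y (bv a))) -
          fderiv ℝ V.P y (v l) (fderiv ℝ V.P y (v k) (V.P y (bv a))))) * hv (bv a) := by
      intro a
      rw [← lleb_Rr h k l (bv a), hv_sum, Finset.sum_mul]
      refine sum_congr rfl fun b _ => ?_
      rw [lleb_sum lleb_hv, Finset.sum_mul]
    rw [sum_congr rfl fun a _ => h3 a]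
    let S : En M →L[ℝ] En M := V.P y * (fderiv ℝ V.P y (v k) * fderiv ℝ V.P y (v l) -
      fderiv ℝ V.P y (v l) * fderiv ℝ V.P y (v k))
    have h4 := lleb_trP (f := fun w => (hv (S w) : EH M ι)) (g := hv) h
      (lleb_comp lleb_hv S) lleb_hv
    refine Eq.trans h4 ?_
    rw [Finset.sum_comm]
    refine sum_congr rfl fun q _ => ?_
    have h5 : S (v q) = ∑ p, ((geoM V E h).R k l p q) • v p := by
      have h6 : S (v q) = V.P y (fderiv ℝ V.P y (v k) (fderiv ℝ V.P y (v l) (v q)) -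
          fderiv ℝ V.P y (v l) (fderiv ℝ V.P y (v k) (v q))) := rfl
      rw [h6, P_eq_sum V h.mem v h.on h.tan]
      refine sum_congr rfl fun p _ => ?_
      congr 1
      rw [inner_sub_right, ← lleb_Psym h k (v p), ← lleb_Psym h l (v p), lleb_R]
      have h7 : (inner ℝ (fderiv ℝ V.P y (v l) (v p)) (fderiv ℝ V.P y (v k) (v q)) : ℝ) =
        inner ℝ (IIv V y v k q) (IIv V y v l p) := real_inner_comm _ _
      rw [h7]
      rfl
    show (hv (S (v q)) * hv (v q) : EH M ι) = _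
    rw [h5, lleb_sum lleb_hv, Finset.sum_mul]
    exact sum_congr rfl fun p _ => by rw [smul_mul_assoc]
  · rw [← lleb_F h k l, cf_sum]
    refine sum_congr rfl fun b _ => ?_
    rw [cf_sum]
    exact sum_congr rfl fun c _ => by rw [cf_smul]

private theorem lleb_swap {α β A : Type*} [Fintype α] [Fintype β] [AddCommMonoid A]
    (H : α → α → β → β → A) :
    ∑ b, ∑ c, ∑ k, ∑ l, H b c k l = ∑ k, ∑ l, ∑ b, ∑ c, H b c k l := by
  rw [sum_congr rfl fun b _ => Finset.sum_comm, Finset.sum_comm]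
  refine sum_congr rfl fun k _ => ?_
  rw [sum_congr rfl fun b _ => Finset.sum_comm, Finset.sum_comm]

include h in
private theorem lleb_cc (G : Fin M → Fin M → EH M ι) :
    ∑ b, ∑ c, cv (V.P y (bv b)) * cv (V.P y (bv c)) * G b c =
      ∑ k, ∑ l, cv (v k) * (cv (v l) *
        ∑ b, ∑ c, (((v k b : ℝ) : ℂ) * ((v l c : ℝ) : ℂ)) • G b c) := by
  have h1 : ∀ b, (cv (V.P y (bv b)) : EH M ι) = ∑ k, ((v k b : ℝ) : ℂ) • cv (v k) := by
    intro b
    rw [lleb_Pe h b, lleb_sum lleb_cv]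
  have h2 : ∀ b c, cv (V.P y (bv b)) * cv (V.P y (bv c)) * G b c =
      ∑ k, ∑ l, cv (v k) * (cv (v l) * ((((v k b : ℝ) : ℂ) * ((v l c : ℝ) : ℂ)) • G b c)) := by
    intro b c
    rw [h1 b, h1 c, Finset.sum_mul_sum, Finset.sum_mul]
    refine sum_congr rfl fun k _ => ?_
    rw [Finset.sum_mul]
    refine sum_congr rfl fun l _ => ?_
    rw [smul_mul_smul_comm, smul_mul_assoc, mul_smul_comm, mul_smul_comm, mul_assoc]
  rw [sum_congr rfl fun b _ => sum_congr rfl fun c _ => h2 b c, lleb_swap]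
  simp only [Finset.mul_sum]

private theorem lleb_Om (D : MDat n (HF M ι) ι) (p q : Fin n) (z : EH M ι) :
    D.Om p q z = (1 / 2 : ℂ) • ∑ k, ∑ l, ((D.R k l p q : ℝ) : ℂ) • D.Ee k (D.Ee l z) :=
  lleb_quad D z

private theorem lleb_F1a (D : MDat n (HF M ι) ι) (x : EH M ι) : D.F1 x =
    (1 / 4 : ℂ) • ∑ p, ∑ q, D.Om p q (D.h p * (D.h q * x)) := by
  change (1 / 4 : ℂ) • ((∑ p, ∑ q, D.Om p q * (lm (D.h p) * lm (D.h q))) x) = _
  rw [lleb_sumap]
  congr 1
  refine sum_congr rfl fun p _ => ?_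
  rw [lleb_sumap]
  rfl

private theorem lleb_F2a (D : MDat n (HF M ι) ι) (x : EH M ι) : D.F2 x =
    (1 / 2 : ℂ) • ∑ k, ∑ l, D.Ee k (D.Ee l (D.f (D.C k l) * x)) := by
  change (1 / 2 : ℂ) • ((∑ k, ∑ l, D.Ee k * D.Ee l * lm (D.f (D.C k l))) x) = _
  rw [lleb_sumap]
  congr 1
  refine sum_congr rfl fun k _ => ?_
  rw [lleb_sumap]
  rfl

private theorem lleb_F1 (x : EH M ι) : (geoM V E h).F1 x =
    (1 / 4 : ℂ) • ∑ p, ∑ q, (1 / 2 : ℂ) • ∑ k, ∑ l, (((geoM V E h).R k l p q : ℝ) : ℂ) •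
      (geoM V E h).Ee k ((geoM V E h).Ee l (hv (v p) * (hv (v q) * x))) := by
  rw [lleb_F1a]
  simp only [lleb_Om]
  rfl

private theorem lleb_F2 (x : EH M ι) : (geoM V E h).F2 x =
    (1 / 2 : ℂ) • ∑ k, ∑ l, (geoM V E h).Ee k ((geoM V E h).Ee l
      (cf (Fv V E y (v k) (v l)) * x)) := by
  rw [lleb_F2a]
  rfl

private theorem lleb_FF (x : EH M ι) : ((geoM V E h).F1 + (geoM V E h).F2) x =
    (1 / 2 : ℂ) • ∑ k, ∑ l, (geoM V E h).Ee k ((geoM V E h).Ee l
      (((1 / 4 : ℂ) • (∑ p, ∑ q, (((geoM V E h).R k l p q : ℝ) : ℂ) •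
        (hv (v p) * hv (v q) : EH M ι)) + cf (Fv V E y (v k) (v l))) * x)) := by
  have h1 : ∀ k l, (geoM V E h).Ee k ((geoM V E h).Ee l
      (((1 / 4 : ℂ) • (∑ p, ∑ q, (((geoM V E h).R k l p q : ℝ) : ℂ) •
        (hv (v p) * hv (v q) : EH M ι)) + cf (Fv V E y (v k) (v l))) * x)) =
      (1 / 4 : ℂ) • (∑ p, ∑ q, (((geoM V E h).R k l p q : ℝ) : ℂ) •
        (geoM V E h).Ee k ((geoM V E h).Ee l (hv (v p) * (hv (v q) * x)))) +
      (geoM V E h).Ee k ((geoM V E h).Ee l (cf (Fv V E y (v k) (v l)) * x)) := by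
    intro k l
    simp only [add_mul, smul_mul_assoc, Finset.sum_mul, mul_assoc, map_add, map_smul, map_sum]
  change (geoM V E h).F1 x + (geoM V E h).F2 x = _
  rw [lleb_F1, lleb_F2]
  simp only [h1, Finset.sum_add_distrib, smul_add]
  congr 1
  simp only [Finset.smul_sum]
  rw [lleb_swap]
  refine sum_congr rfl fun k _ => sum_congr rfl fun l _ => sum_congr rfl fun p _ =>
    sum_congr rfl fun q _ => ?_
  rw [smul_comm]

theorem Wt_lead (hθ : ThOK V E θ) (q : ℕ) {x : EH M ι} (hx : x ∈ (geoM V E h).Gf (q + 1)) :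
    Wt V E θ y * x - ((geoM V E h).F1 + (geoM V E h).F2) x ∈ (geoM V E h).Gf (q + 2) := by
  have h1 : Wt V E θ y * x - ((geoM V E h).F1 + (geoM V E h).F2) x =
      (rho V y : ℂ) • x +
      (1 / 2 : ℂ) • (∑ k, ∑ l, (cv (v k) * (cv (v l) *
        (((1 / 4 : ℂ) • (∑ p, ∑ q, (((geoM V E h).R k l p q : ℝ) : ℂ) •
        (hv (v p) * hv (v q) : EH M ι)) + cf (Fv V E y (v k) (v l))) * x)) -
        (geoM V E h).Ee k ((geoM V E h).Ee l
      (((1 / 4 : ℂ) • (∑ p, ∑ q, (((geoM V E h).R k l p q : ℝ) : ℂ) •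
        (hv (v p) * hv (v q) : EH M ι)) + cf (Fv V E y (v k) (v l))) * x)))) +
      (∑ b, cv (V.P y (bv b)) * (td V b (Psi θ) y +
        (Xi V E b y * Psi θ y - Psi θ y * Xi V E b y))) * x +
      Psi θ y * Psi θ y * x := by
    rw [lleb_FF]
    unfold Wt
    rw [lleb_cc h]
    simp only [lleb_Z h]
    simp only [add_mul, smul_mul_assoc, one_mul, Finset.sum_sub_distrib, smul_sub, Finset.sum_mul,
      mul_assoc]
    abel
  rw [h1]
  refine Submodule.add_mem _ (Submodule.add_mem _ (Submodule.add_mem _ ?_ ?_) ?_) ?_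
  · exact Submodule.smul_mem _ _ (lleb_le (Nat.le_succ (q + 1)) hx)
  · refine Submodule.smul_mem _ _ (Submodule.sum_mem _ fun k _ => Submodule.sum_mem _ fun l _ => ?_)
    refine lleb_EE h k l q ((geoM V E h).toCSys.vac_mul_mem ?_ _ hx)
    refine Submodule.add_mem _ (Submodule.smul_mem _ _ (Submodule.sum_mem _ fun p _ =>
      Submodule.sum_mem _ fun q _ => Submodule.smul_mem _ _ ?_)) (cf_vac h _)
    exact (geoM V E h).toCSys.vac_mul (hv_vac h _) (hv_vac h _)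
  · rw [Finset.sum_mul]
    refine Submodule.sum_mem _ fun b _ => ?_
    rw [mul_assoc]
    exact cv_mem h _ (q + 1)
      ((geoM V E h).toCSys.vac_mul_mem (Theta_vac h hθ b h.mem) (q + 1) hx)
  · exact lleb_le (Nat.le_succ (q + 1))
      ((geoM V E h).toCSys.vac_mul_mem ((geoM V E h).toCSys.vac_mul (Psi_vac h _) (Psi_vac h _)) _ hx)

end Pool.Agent.EXO.L
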