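import Pool.Agent.EXO.LOps

/-!
# EXO / LLoc : operators which preserve the functions with values in a subspace (IDX-L)

* `loc_dl` : if `f` takes values in the (closed, since `A` is finite dimensional) subspace `U`, so
  does `z ↦ fderiv ℝ f z v`, a limit of difference quotients.  (One can use `HasDerivAt` of
  `s ↦ f (z + s • v)` and `HasDerivAt.tendsto_slope`, `IsClosed.mem_of_tendsto`; or: a continuous
  linear functional vanishing on `U` kills `f`, hence its derivatives, and `U` is the intersection
  of the kernels of such functionals.)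
* `rel_cst` : immediate from the definitions (`T - T = 0`).
-/

set_option autoImplicit false
set_option maxSynthPendingDepth 3

open scoped ContDiff
open Finset

noncomputable section

namespace Pool.Agent.EXO.L

variable {n : ℕ} {A : Type*} [NormedAddCommGroup A] [NormedSpace ℂ A]
  {G : ℕ → Submodule ℂ A}

/-- operators which preserve the functions with values in a subspace -/
def Loc (T : Module.End ℂ (Pl n A)) : Prop :=
  ∀ (U : Submodule ℂ A) (f : Pl n A), (∀ z, (f : En n → A) z ∈ U) → ∀ z, (T f : En n → A) z ∈ U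

theorem loc_mz (i : Fin n) : Loc (mz i : Module.End ℂ (Pl n A)) := by
  intro U f hf z
  rw [mz_apply]
  exact U.smul_mem _ (hf z)

theorem loc_dl [FiniteDimensional ℂ A] (v : En n) : Loc (dl v : Module.End ℂ (Pl n A)) := by
  intro U f hf z
  rw [dl_apply]
  have hcl : IsClosed (U : Set A) := U.closed_of_finiteDimensional
  have h1 : HasDerivAt (fun s : ℝ => (f : En n → A) (z + s • v))
      (fderiv ℝ (f : En n → A) z v) 0 := by
    have h2 : HasDerivAt (fun s : ℝ => z + s • v) v 0 := by
      simpa using ((hasDerivAt_id (0 : ℝ)).smul_const v).const_add z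
    have h3 : HasFDerivAt (f : En n → A) (fderiv ℝ (f : En n → A) z) (z + (0 : ℝ) • v) := by
      rw [zero_smul, add_zero]
      exact (Pl.differentiable f z).hasFDerivAt
    exact h3.comp_hasDerivAt 0 h2
  have h4 := h1.tendsto_slope_zero
  refine hcl.mem_of_tendsto h4 (Filter.Eventually.of_forall fun t => ?_)
  have h5 : ∀ (r : ℝ) (x : A), x ∈ U → r • x ∈ U := fun r x hx => by
    have := U.smul_mem (r : ℂ) hx
    simpa using this
  exact h5 _ _ (U.sub_mem (hf _) (hf _))

theorem Loc.add {S T : Module.End ℂ (Pl n A)} (hS : Loc S) (hT : Loc T) : Loc (S + T) := by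
  intro U f hf z
  rw [LinearMap.add_apply]
  exact U.add_mem (hS U f hf z) (hT U f hf z)

theorem Loc.mul {S T : Module.End ℂ (Pl n A)} (hS : Loc S) (hT : Loc T) : Loc (S * T) := by
  intro U f hf z
  rw [Module.End.mul_apply]
  exact hS U _ (hT U f hf) z

theorem Loc.smul (c : ℂ) {T : Module.End ℂ (Pl n A)} (hT : Loc T) : Loc (c • T) := by
  intro U f hf z
  rw [LinearMap.smul_apply]
  exact U.smul_mem c (hT U f hf z)

theorem Loc.sum {ι : Type*} (s : Finset ι) (T : ι → Module.End ℂ (Pl n A))
    (hT : ∀ i ∈ s, Loc (T i)) : Loc (∑ i ∈ s, T i) := by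
  classical
  induction s using Finset.induction_on with
  | empty =>
    rw [sum_empty]
    intro U f _ z
    exact U.zero_mem
  | insert i s hi ih =>
    rw [sum_insert hi]
    exact (hT i (mem_insert_self i s)).add (ih fun j hj => hT j (mem_insert_of_mem hj))

theorem loc_eu [FiniteDimensional ℂ A] : Loc (eu : Module.End ℂ (Pl n A)) :=
  Loc.sum _ _ fun i _ => (loc_mz i).mul (loc_dl (bv i))

theorem loc_lap [FiniteDimensional ℂ A] : Loc (lap : Module.End ℂ (Pl n A)) :=
  Loc.sum _ _ fun i _ => (loc_dl (bv i)).mul (loc_dl (bv i))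

theorem rel_cst {T : Module.End ℂ (Pl n A)} (hT : Loc T) : Rel G (cst T) (cst T) where
  l0 P hP := fun w z => by
    rw [cst_apply]; exact hT (G (w + 1)) (P w) (hP w) z
  l1 P hP := fun w z => by
    rw [cst_apply]; exact hT (G (w + 0)) (P w) (hP w) z
  d P _ := by rw [sub_self, LinearMap.zero_apply]; exact (FS G 0).zero_mem

end Pool.Agent.EXO.L
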