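import Pool.Agent.EXO.LOps

/-!
# EXO / LRel : closure properties of the comparison relation (IDX-L)

`G : ℕ → Submodule ℂ A` is a monotone family of subspaces of the finite dimensional space `A`.
`FS G 0 ≤ FS G 1` because `G w ≤ G (w + 1)`.

* `Rel.mul` : `T T' - S S' = (T - S) T' + S (T' - S')`.  For `P ∈ FS G 1`: `T' P ∈ FS G 1`, so
  `(T - S)(T' P) ∈ FS G 0`; `(T' - S') P ∈ FS G 0` and `S` maps `FS G 0` to itself, because
  `S = T - (T - S)` and `FS G 0 ≤ FS G 1` (`Rel.s1`); `Rel.s0` is similar.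
* `rel_up` : for `P ∈ FS G 1`, `(up P) (w+1) = P w ∈ G (w + 1)`, so `up P ∈ FS G 0`.
* `rel_mulS` : put `r`, `a`, `b` as in the statement.  `(up^r (mulS a P)) w` is zero for `w < r` and
  for `w = r + v` it is `∑_{i + j = v} a_i(z) P_j(z)`.  If `P ∈ FS G k` (`k = 0, 1`), then
  `P_j(z) ∈ G (j + k)`, `a_i(z) P_j(z) ∈ G (j + k + i + r) = G (w + k)`.
  If `P ∈ FS G 1` then `(a_i(z) - b_i(z)) P_j(z) ∈ G (j + i + r) = G w` by `hd` with `q = j`.
-/

set_option autoImplicit false
set_option maxSynthPendingDepth 3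

open scoped ContDiff
open Finset

noncomputable section

namespace Pool.Agent.EXO.L

variable {n : ℕ} {A : Type*} [NormedAddCommGroup A] [NormedSpace ℂ A]
  {G : ℕ → Submodule ℂ A}

theorem FS_mono (hG : Monotone G) : (FS G 0 : Submodule ℂ (Sq n A)) ≤ FS G 1 :=
  fun _ hP w z => hG (Nat.le_succ w) (hP w z)

theorem Rel.s0 (hG : Monotone G) {T S : Op n A} (h : Rel G T S) : ∀ P ∈ FS G 1, S P ∈ FS G 1 := by
  intro P hP
  have h1 : S P = T P - (T - S) P := by
    rw [LinearMap.sub_apply]; abel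
  rw [h1]
  exact (FS G 1).sub_mem (h.l0 P hP) (FS_mono hG (h.d P hP))

theorem Rel.s1 (hG : Monotone G) {T S : Op n A} (h : Rel G T S) : ∀ P ∈ FS G 0, S P ∈ FS G 0 := by
  intro P hP
  have h1 : S P = T P - (T - S) P := by
    rw [LinearMap.sub_apply]; abel
  rw [h1]
  exact (FS G 0).sub_mem (h.l1 P hP) (h.d P (FS_mono hG hP))

theorem Rel.add {T S T' S' : Op n A} (h : Rel G T S) (h' : Rel G T' S') :
    Rel G (T + T') (S + S') where
  l0 P hP := by
    rw [LinearMap.add_apply]; exact (FS G 1).add_mem (h.l0 P hP) (h'.l0 P hP)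
  l1 P hP := by
    rw [LinearMap.add_apply]; exact (FS G 0).add_mem (h.l1 P hP) (h'.l1 P hP)
  d P hP := by
    have h1 : (T + T' - (S + S')) P = (T - S) P + (T' - S') P := by
      simp only [LinearMap.sub_apply, LinearMap.add_apply]; abel
    rw [h1]; exact (FS G 0).add_mem (h.d P hP) (h'.d P hP)

theorem Rel.smul (c : ℂ) {T S : Op n A} (h : Rel G T S) : Rel G (c • T) (c • S) where
  l0 P hP := by
    rw [LinearMap.smul_apply]; exact (FS G 1).smul_mem c (h.l0 P hP)
  l1 P hP := by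
    rw [LinearMap.smul_apply]; exact (FS G 0).smul_mem c (h.l1 P hP)
  d P hP := by
    have h1 : (c • T - c • S) P = c • (T - S) P := by
      simp only [LinearMap.sub_apply, LinearMap.smul_apply, smul_sub]
    rw [h1]; exact (FS G 0).smul_mem c (h.d P hP)

theorem Rel.neg {T S : Op n A} (h : Rel G T S) : Rel G (-T) (-S) := by
  have h1 := h.smul (-1 : ℂ)
  have e : ∀ U : Op n A, (-1 : ℂ) • U = -U := fun U => by
    rw [neg_smul, one_smul]
  rwa [e, e] at h1

theorem Rel.sub {T S T' S' : Op n A} (h : Rel G T S) (h' : Rel G T' S') :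
    Rel G (T - T') (S - S') := by
  rw [sub_eq_add_neg, sub_eq_add_neg]
  exact h.add h'.neg

theorem rel_zero : Rel G (0 : Op n A) 0 where
  l0 P _ := by rw [LinearMap.zero_apply]; exact (FS G 1).zero_mem
  l1 P _ := by rw [LinearMap.zero_apply]; exact (FS G 0).zero_mem
  d P _ := by rw [sub_self, LinearMap.zero_apply]; exact (FS G 0).zero_mem

theorem rel_one : Rel G (1 : Op n A) 1 where
  l0 P hP := by rw [Module.End.one_apply]; exact hP
  l1 P hP := by rw [Module.End.one_apply]; exact hP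
  d P _ := by rw [sub_self, LinearMap.zero_apply]; exact (FS G 0).zero_mem

theorem Rel.sum {ι : Type*} (s : Finset ι) (T S : ι → Op n A) (h : ∀ i ∈ s, Rel G (T i) (S i)) :
    Rel G (∑ i ∈ s, T i) (∑ i ∈ s, S i) := by
  classical
  induction s using Finset.induction_on with
  | empty => rw [sum_empty, sum_empty]; exact rel_zero
  | insert i s hi ih =>
    rw [sum_insert hi, sum_insert hi]
    exact (h i (mem_insert_self i s)).add (ih fun j hj => h j (mem_insert_of_mem hj))

theorem Rel.mul (hG : Monotone G) {T S T' S' : Op n A} (h : Rel G T S) (h' : Rel G T' S') :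
    Rel G (T * T') (S * S') where
  l0 P hP := by
    rw [Module.End.mul_apply]; exact h.l0 _ (h'.l0 P hP)
  l1 P hP := by
    rw [Module.End.mul_apply]; exact h.l1 _ (h'.l1 P hP)
  d P hP := by
    have h1 : (T * T' - S * S') P = (T - S) (T' P) + S ((T' - S') P) := by
      simp only [LinearMap.sub_apply, Module.End.mul_apply, map_sub]; abel
    rw [h1]
    exact (FS G 0).add_mem (h.d _ (h'.l0 P hP)) (h.s1 hG _ (h'.d P hP))

theorem Rel.pow (hG : Monotone G) {T S : Op n A} (h : Rel G T S) (i : ℕ) :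
    Rel G (T ^ i) (S ^ i) := by
  induction i with
  | zero => rw [pow_zero, pow_zero]; exact rel_one
  | succ i ih => rw [pow_succ, pow_succ]; exact ih.mul hG h

theorem rel_nn : Rel G (nn : Op n A) nn where
  l0 P hP := fun w z => by
    rw [nn_apply]; exact (G (w + 1)).smul_mem _ (hP w z)
  l1 P hP := fun w z => by
    rw [nn_apply]; exact (G (w + 0)).smul_mem _ (hP w z)
  d P _ := by rw [sub_self, LinearMap.zero_apply]; exact (FS G 0).zero_mem

private theorem up_FS {P : Sq n A} (hP : P ∈ FS G 1) : up P ∈ FS G 0 := by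
  intro w z
  cases w with
  | zero => rw [up_zero]; exact (G _).zero_mem
  | succ w => rw [up_succ]; exact hP w z

/-- multiplication by `σ` composed with an operator of order zero is negligible -/
theorem rel_up (hG : Monotone G) {T : Op n A} (h0 : ∀ P ∈ FS G 1, T P ∈ FS G 1)
    (h1 : ∀ P ∈ FS G 0, T P ∈ FS G 0) : Rel G (up * T) 0 where
  l0 P hP := by
    rw [Module.End.mul_apply]; exact FS_mono hG (up_FS (h0 P hP))
  l1 P hP := by
    rw [Module.End.mul_apply]; exact up_FS (FS_mono hG (h1 P hP))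
  d P hP := by
    rw [sub_zero, Module.End.mul_apply]; exact up_FS (h0 P hP)

private theorem coe_sumP {ι : Type*} (s : Finset ι) (f : ι → Pl n A) (z : En n) :
    ((∑ i ∈ s, f i : Pl n A) : En n → A) z = ∑ i ∈ s, (f i : En n → A) z := by
  rw [AddSubmonoidClass.coe_finsetSum, Finset.sum_apply]

private theorem mulS_mem (k : ℕ) (r : ℕ) (a : Sq n (A →L[ℂ] A)) (m : ℕ)
    (ha : ∀ (w : ℕ) (z : En n) (q : ℕ), ∀ x ∈ G (q + m),
      ((a w : En n → A →L[ℂ] A) z) x ∈ G (q + w + r + k))
    {P : Sq n A} (hP : P ∈ FS G m) : ((up ^ r * mulS a : Op n A) : Sq n A → Sq n A) P ∈ FS G k := by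
  intro w z
  rw [Module.End.mul_apply, up_pow]
  split_ifs with h
  · obtain ⟨v, rfl⟩ : ∃ v, w = r + v := ⟨w - r, by omega⟩
    have e : r + v - r = v := by omega
    rw [e, mulS_apply, coe_sumP]
    refine (G (r + v + k)).sum_mem fun ij hij => ?_
    rw [HasAntidiagonal.mem_antidiagonal] at hij
    rw [ml_apply]
    have h1 := ha ij.1 z ij.2 _ (hP ij.2 z)
    have e2 : ij.2 + ij.1 + r + k = r + v + k := by omega
    rwa [e2] at h1
  · exact (G _).zero_mem

private theorem mulS_sub (a b : Sq n (A →L[ℂ] A)) : mulS (a - b) = mulS a - mulS b := by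
  refine LinearMap.ext fun P => funext fun w => ?_
  rw [LinearMap.sub_apply, Pi.sub_apply, mulS_apply, mulS_apply, mulS_apply, ← sum_sub_distrib]
  refine sum_congr rfl fun ij _ => ?_
  ext z
  rw [ml_apply]
  rfl

theorem rel_mulS (hG : Monotone G) (r : ℕ) (a b : Sq n (A →L[ℂ] A))
    (ha : ∀ (w : ℕ) (z : En n) (q : ℕ), ∀ x ∈ G q,
      ((a w : En n → A →L[ℂ] A) z) x ∈ G (q + w + r))
    (hd : ∀ (w : ℕ) (z : En n) (q : ℕ), ∀ x ∈ G (q + 1),
      ((a w : En n → A →L[ℂ] A) z) x - ((b w : En n → A →L[ℂ] A) z) x ∈ G (q + w + r)) :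
    Rel G (up ^ r * mulS a) (up ^ r * mulS b) where
  l0 P hP := by
    refine mulS_mem 1 r a 1 (fun w z q x hx => ?_) hP
    have h1 := ha w z (q + 1) x hx
    have e : q + 1 + w + r = q + w + r + 1 := by ring
    rwa [e] at h1
  l1 P hP := mulS_mem 0 r a 0 (fun w z q x hx => ha w z q x hx) hP
  d P hP := by
    rw [← mul_sub, ← mulS_sub]
    refine mulS_mem 0 r (a - b) 1 (fun w z q x hx => ?_) hP
    exact hd w z q x hx

end Pool.Agent.EXO.L
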