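import Pool.Agent.EXO.LMaDef
import Pool.Agent.EXO.LRel
import Pool.Agent.EXO.LLoc

/-!
# EXO / LMaA : the geometric operator is comparable with the model operator (IDX-L)

`Rel G (Tgeo g xs qs ξ Wq) (Tmod X Y F)`.  Let `D b` be the operator in the bracket of `Tgeo` and
`D' b = ∑ i, a_bi • Dm X Y i`.  Then `∑_b (D' b)^2 = ∑_i (Dm X Y i)^2` by `orth`, and by
`Rel.add/.sub/.sum/.pow` it suffices:
* `Rel (mulS (g b i) * cst (dl (bv i))) (a_bi • cst (dl (bv i)))`: `rel_mulS` with `r = 0`,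
  `b = s0`-like sequence `(a_bi • 1, 0, 0, …)` for which `mulS` is `a_bi • 1`; conditions: scalars
  preserve `G q ≤ G (q + w)`; in weight `0` the difference is `0`, in weight `w ≥ 1`
  `G (q + 1) ≤ G (q + w)`.  Then `Rel.mul` with `rel_cst (loc_dl _)`.
* `Rel (mulS (xs b)) (∑ a_bi • cst (mz i))`: the same; `mulS` of the sequence
  `(z ↦ (∑ a_bi z_i) • 1, 0, …)` is `∑ a_bi • cst (mz i)`.  Similarly `qs`
  (`‖z‖² = ∑ z_i²`, `EuclideanSpace.norm_sq_eq`).
* `Rel (up * mulS (ξ b)) (up * cst (cz (∑ a_bi • X i)) + up^2 * cst (∑_m mz m * cz (∑_i a_bi • Y i m)))`: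
  `rel_mulS` with `r = 1` (`up = up^1`) and the sequence `b` with `b 0 = ∑ a_bi X i`,
  `b 1 z = ∑ a_bi z_m Y i m`, `b w = 0` for `w ≥ 2`: conditions `xiG`, `xi0`, `xi1`, `xi2` (`xi0`:
  `G (q+1)` and `q + 0 + 1`; `xi1`: `q + 1 + 1`).
* `Rel (up^2 * mulS Wq) (up^2 * cst (cz F))`: `rel_mulS` with `r = 2`.
* `rel_nn`, `rel_cst loc_eu`, `rel_one`.
Lemma `mulS_const`: `mulS (fun w => if w = 0 then p else 0) = cst (ml p)`.
-/

set_option autoImplicit false
set_option maxSynthPendingDepth 3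

open scoped ContDiff Topology
open Finset

noncomputable section

namespace Pool.Agent.EXO.L

variable {n M : ℕ} {A : Type*} [NormedAddCommGroup A] [NormedSpace ℂ A]

private theorem LMaA_mulS_s0 (p : Pl n (A →L[ℂ] A)) : mulS (s0 p) = (cst (ml p) : Op n A) := by
  refine LinearMap.ext fun P => funext fun w => ?_
  rw [mulS_apply, cst_apply, sum_eq_single (0, w)]
  · rw [s0_zero]
  · rintro ⟨i, j⟩ hij hne
    rw [HasAntidiagonal.mem_antidiagonal] at hij
    cases i with
    | zero =>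
      exfalso
      apply hne
      simp only [zero_add] at hij
      rw [hij]
    | succ i =>
      rw [s0_succ]
      ext z
      rfl
  · intro h
    exact absurd (HasAntidiagonal.mem_antidiagonal.2 (zero_add w)) h

private theorem LMaA_mulS_add (a b : Sq n (A →L[ℂ] A)) :
    (mulS (a + b) : Op n A) = mulS a + mulS b := by
  refine LinearMap.ext fun P => funext fun w => ?_
  rw [LinearMap.add_apply, Pi.add_apply, mulS_apply, mulS_apply, mulS_apply, ← sum_add_distrib]
  refine sum_congr rfl fun ij _ => ?_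
  ext z
  rfl

private theorem LMaA_mulS_up (a : Sq n (A →L[ℂ] A)) :
    (mulS (up a) : Op n A) = up * mulS a := by
  refine LinearMap.ext fun P => funext fun w => ?_
  rw [Module.End.mul_apply]
  cases w with
  | zero =>
    rw [up_zero, mulS_apply]
    refine sum_eq_zero fun ij hij => ?_
    rw [HasAntidiagonal.mem_antidiagonal] at hij
    have h1 : ij.1 = 0 := by omega
    rw [h1, up_zero]
    ext z
    rfl
  | succ w =>
    rw [up_succ, mulS_apply, mulS_apply, Finset.Nat.sum_antidiagonal_succ, up_zero]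
    have h0 : ml (0 : Pl n (A →L[ℂ] A)) (P (w + 1)) = 0 := by
      ext z
      rfl
    rw [h0, zero_add]
    rfl

private theorem LMaA_pc (c : ℂ) :
    (ml (pc (c • (1 : A →L[ℂ] A))) : Module.End ℂ (Pl n A)) = c • 1 := by
  ext f z
  rfl

private theorem LMaA_coe_sum {B : Type*} [NormedAddCommGroup B] [NormedSpace ℂ B] {ι : Type*}
    (s : Finset ι) (f : ι → Pl n B) (z : En n) :
    ((∑ i ∈ s, f i : Pl n B) : En n → B) z = ∑ i ∈ s, (f i : En n → B) z := by
  rw [AddSubmonoidClass.coe_finset_sum, Finset.sum_apply]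

private theorem LMaA_ml_sum {ι : Type*} (s : Finset ι) (f : ι → Pl n (A →L[ℂ] A)) :
    (ml (∑ i ∈ s, f i) : Module.End ℂ (Pl n A)) = ∑ i ∈ s, ml (f i) := by
  ext g z
  rw [ml_apply, LMaA_coe_sum, LinearMap.sum_apply, LMaA_coe_sum, ContinuousLinearMap.sum_apply]
  rfl

private theorem LMaA_ml_smul (c : ℂ) (f : Pl n (A →L[ℂ] A)) :
    (ml (c • f) : Module.End ℂ (Pl n A)) = c • ml f := by
  ext g z
  rfl

private theorem LMaA_ml_mz (i : Fin n) (f : Pl n (A →L[ℂ] A)) :
    (ml (mz i f) : Module.End ℂ (Pl n A)) = mz i * ml f := by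
  ext g z
  rfl

private theorem LMaA_ml_pc (a : A →L[ℂ] A) :
    (ml (pc a) : Module.End ℂ (Pl n A)) = cz a := rfl

private theorem LMaA_scal {G : ℕ → Submodule ℂ A} (hG : Monotone G)
    (u : Sq n (A →L[ℂ] A)) (p : Pl n (A →L[ℂ] A))
    (h0 : ∀ z, (u 0).1 z = p.1 z) (hs : ∀ w z, ∃ r : ℂ, (u w).1 z = r • (1 : A →L[ℂ] A)) :
    Rel G (mulS u) (cst (ml p) : Op n A) := by
  have h := rel_mulS hG 0 u (s0 p) (fun w z q x hx => by
      obtain ⟨r, hr⟩ := hs w z
      change (u w).1 z x ∈ _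
      rw [hr]
      exact hG (by omega) ((G q).smul_mem r hx)) (fun w z q x hx => by
      cases w with
      | zero =>
        change (u 0).1 z x - p.1 z x ∈ _
        rw [h0, sub_self]
        exact (G _).zero_mem
      | succ w =>
        obtain ⟨r, hr⟩ := hs (w + 1) z
        change (u (w + 1)).1 z x - 0 ∈ _
        rw [hr, sub_zero]
        exact hG (by omega) ((G (q + 1)).smul_mem r hx))
  rw [pow_zero, one_mul, one_mul, LMaA_mulS_s0] at h
  exact h

private theorem LMaA_quad {R : Type*} [Ring R] [Algebra ℂ R] (a : Fin M → Fin n → ℝ)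
    (horth : ∀ i j, ∑ b, a b i * a b j = if i = j then 1 else 0) (d : Fin n → R) :
    ∑ b, (∑ i, ((a b i : ℝ) : ℂ) • d i) ^ 2 = ∑ i, d i ^ 2 := by
  have h1 : ∀ b, (∑ i, ((a b i : ℝ) : ℂ) • d i) ^ 2 =
      ∑ i, ∑ j, (((a b i * a b j : ℝ)) : ℂ) • (d i * d j) := by
    intro b
    rw [pow_two, Finset.sum_mul]
    refine sum_congr rfl fun i _ => ?_
    rw [Finset.mul_sum]
    refine sum_congr rfl fun j _ => ?_
    rw [smul_mul_smul_comm, Complex.ofReal_mul]
  simp only [h1]
  rw [sum_comm]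
  refine sum_congr rfl fun i _ => ?_
  rw [sum_comm]
  have h2 : ∀ j, ∑ b, (((a b i * a b j : ℝ)) : ℂ) • (d i * d j) =
      (if i = j then (1 : ℂ) else 0) • (d i * d j) := by
    intro j
    rw [← Finset.sum_smul, ← Complex.ofReal_sum, horth i j]
    split_ifs <;> simp
  simp only [h2]
  rw [sum_eq_single i]
  · rw [if_pos rfl, one_smul, pow_two]
  · intro j _ hj
    rw [if_neg (Ne.symm hj), zero_smul]
  · intro h
    exact absurd (mem_univ i) h

theorem rel_geo [FiniteDimensional ℂ A] {G : ℕ → Submodule ℂ A} (hG : Monotone G)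
    {a : Fin M → Fin n → ℝ}
    {g : Fin M → Fin n → Sq n (A →L[ℂ] A)} {xs : Fin M → Sq n (A →L[ℂ] A)}
    {qs : Sq n (A →L[ℂ] A)} {ξ : Fin M → Sq n (A →L[ℂ] A)} {Wq : Sq n (A →L[ℂ] A)}
    {X : Fin n → A →L[ℂ] A} {Y : Fin n → Fin n → A →L[ℂ] A} {F : A →L[ℂ] A}
    (h : LeadOK G a g xs qs ξ Wq X Y F) :
    Rel G (Tgeo g xs qs ξ Wq) (Tmod X Y F) := by
  have hg : ∀ b i, Rel G (mulS (g b i)) ((((a b i : ℝ) : ℂ)) • (1 : Op n A)) := by
    intro b i
    have h1 := LMaA_scal hG (g b i) (pc ((((a b i : ℝ) : ℂ)) • (1 : A →L[ℂ] A)))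
      (fun z => h.g0 b i z) (fun w z => h.gs b i w z)
    rw [LMaA_pc] at h1
    exact h1
  have hx : ∀ b, Rel G (mulS (xs b))
      (cst (∑ i, (((a b i : ℝ) : ℂ)) • (mz i : Module.End ℂ (Pl n A))) : Op n A) := by
    intro b
    have h1 := LMaA_scal hG (xs b)
      (∑ i, (((a b i : ℝ) : ℂ)) • mz i (pc (1 : A →L[ℂ] A)))
      (fun z => by
        rw [h.x0 b z]
        change _ = ((∑ i, (((a b i : ℝ) : ℂ)) • mz i (pc (1 : A →L[ℂ] A)) :
          Pl n (A →L[ℂ] A)) : En n → (A →L[ℂ] A)) z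
        rw [LMaA_coe_sum, Complex.ofReal_sum, Finset.sum_smul]
        refine sum_congr rfl fun i _ => ?_
        change _ = (((a b i : ℝ) : ℂ)) • ((z i : ℂ) • (1 : A →L[ℂ] A))
        rw [Complex.ofReal_mul, mul_smul])
      (fun w z => h.xs' b w z)
    have h2 : (ml (∑ i, (((a b i : ℝ) : ℂ)) • mz i (pc (1 : A →L[ℂ] A))) :
        Module.End ℂ (Pl n A)) = ∑ i, (((a b i : ℝ) : ℂ)) • (mz i : Module.End ℂ (Pl n A)) := by
      rw [LMaA_ml_sum]
      refine sum_congr rfl fun i _ => ?_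
      rw [LMaA_ml_smul, LMaA_ml_mz, LMaA_ml_pc, cz_one, mul_one]
    rw [h2] at h1
    exact h1
  have hq : Rel G (mulS qs)
      ((1 / 4 : ℂ) • (cst (∑ i, mz i * mz i) : Op n A)) := by
    have h1 := LMaA_scal hG qs
      ((1 / 4 : ℂ) • ∑ i, mz i (mz i (pc (1 : A →L[ℂ] A))))
      (fun z => by
        rw [h.q0 z]
        change _ = (1 / 4 : ℂ) • ((∑ i, mz i (mz i (pc (1 : A →L[ℂ] A))) :
          Pl n (A →L[ℂ] A)) : En n → (A →L[ℂ] A)) z
        rw [LMaA_coe_sum, EuclideanSpace.norm_sq_eq]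
        have h3 : ∀ i : Fin n, ((mz i (mz i (pc (1 : A →L[ℂ] A))) :
            Pl n (A →L[ℂ] A)) : En n → (A →L[ℂ] A)) z =
            ((z i * z i : ℝ) : ℂ) • (1 : A →L[ℂ] A) := by
          intro i
          change ((z i : ℝ) : ℂ) • (((z i : ℝ) : ℂ) • (1 : A →L[ℂ] A)) = _
          rw [smul_smul, Complex.ofReal_mul]
        simp only [h3]
        rw [← Finset.sum_smul, smul_smul, ← Complex.ofReal_sum]
        congr 1
        push_cast
        rw [div_eq_mul_inv, mul_comm, one_div]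
        congr 1
        refine sum_congr rfl fun i _ => ?_
        rw [← Complex.ofReal_pow, Real.norm_eq_abs, sq_abs]
        push_cast
        first | done | ring)
      h.qs'
    have h2 : (ml ((1 / 4 : ℂ) • ∑ i, mz i (mz i (pc (1 : A →L[ℂ] A)))) :
        Module.End ℂ (Pl n A)) = (1 / 4 : ℂ) • ∑ i, mz i * mz i := by
      rw [LMaA_ml_smul, LMaA_ml_sum]
      rfl
    rw [h2, cst_smul] at h1
    exact h1
  have hW : Rel G (up ^ 2 * mulS Wq) (up ^ 2 * (cst (cz F) : Op n A)) := by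
    have h1 := rel_mulS hG 2 Wq (s0 (pc F)) (fun w z q x hx => h.WG w z q x hx)
      (fun w z q x hx => by
        cases w with
        | zero => exact h.W0 z q x hx
        | succ w =>
          change (Wq (w + 1)).1 z x - 0 ∈ _
          rw [sub_zero]
          exact h.W1 (w + 1) z q (by omega) x hx)
    rw [LMaA_mulS_s0, LMaA_ml_pc] at h1
    exact h1
  have hxi : ∀ b, Rel G (up * mulS (ξ b))
      (up * ((cst (cz (∑ i, (((a b i : ℝ) : ℂ)) • X i)) : Op n A) +
        up * cst (∑ m, mz m * cz (∑ i, (((a b i : ℝ) : ℂ)) • Y i m)))) := by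
    intro b
    have h1 := rel_mulS hG 1 (ξ b)
      (s0 (pc (∑ i, (((a b i : ℝ) : ℂ)) • X i)) +
        up (s0 (∑ m, mz m (pc (∑ i, (((a b i : ℝ) : ℂ)) • Y i m)))))
      (fun w z q x hx => h.xiG b w z q x hx)
      (fun w z q x hx => by
        rcases w with _ | w
        · have h2 := h.xi0 b z q x hx
          have h3 : (((s0 (pc (∑ i, (((a b i : ℝ) : ℂ)) • X i)) +
              up (s0 (∑ m, mz m (pc (∑ i, (((a b i : ℝ) : ℂ)) • Y i m)))) :
              Sq n (A →L[ℂ] A)) 0 : En n → A →L[ℂ] A) z) x =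
              ∑ i, (((a b i : ℝ) : ℂ)) • X i x := by
            rw [Pi.add_apply, s0_zero, up_zero, add_zero]
            change (∑ i, (((a b i : ℝ) : ℂ)) • X i) x = _
            rw [ContinuousLinearMap.sum_apply]
            rfl
          rw [h3]
          exact h2
        · rcases w with _ | w
          · have h2 := h.xi1 b z q x hx
            have h3 : (((s0 (pc (∑ i, (((a b i : ℝ) : ℂ)) • X i)) +
                up (s0 (∑ m, mz m (pc (∑ i, (((a b i : ℝ) : ℂ)) • Y i m)))) :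
                Sq n (A →L[ℂ] A)) (0 + 1) : En n → A →L[ℂ] A) z) x =
                ∑ i, ∑ m, ((a b i * z m : ℝ) : ℂ) • Y i m x := by
              rw [Pi.add_apply, s0_succ, up_succ, zero_add, s0_zero, LMaA_coe_sum,
                ContinuousLinearMap.sum_apply, sum_comm]
              refine sum_congr rfl fun m _ => ?_
              change ((z m : ℝ) : ℂ) • ((∑ i, (((a b i : ℝ) : ℂ)) • Y i m) x) = _
              rw [ContinuousLinearMap.sum_apply, Finset.smul_sum]
              refine sum_congr rfl fun i _ => ?_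
              change ((z m : ℝ) : ℂ) • ((((a b i : ℝ) : ℂ)) • Y i m x) = _
              rw [smul_smul, Complex.ofReal_mul, mul_comm]
            rw [h3]
            exact h2
          · have h3 : (((s0 (pc (∑ i, (((a b i : ℝ) : ℂ)) • X i)) +
                up (s0 (∑ m, mz m (pc (∑ i, (((a b i : ℝ) : ℂ)) • Y i m)))) :
                Sq n (A →L[ℂ] A)) (w + 1 + 1) : En n → A →L[ℂ] A) z) x = 0 := by
              rw [Pi.add_apply, s0_succ, up_succ, s0_succ, add_zero]
              rfl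
            rw [h3, sub_zero]
            exact h.xi2 b (w + 1 + 1) z q (by omega) x hx)
    rw [pow_one, LMaA_mulS_add, LMaA_mulS_up, LMaA_mulS_s0, LMaA_mulS_s0, LMaA_ml_pc,
      LMaA_ml_sum] at h1
    have h2 : ∀ m, (ml (mz m (pc (∑ i, (((a b i : ℝ) : ℂ)) • Y i m))) :
        Module.End ℂ (Pl n A)) = mz m * cz (∑ i, (((a b i : ℝ) : ℂ)) • Y i m) := fun m => by
      rw [LMaA_ml_mz, LMaA_ml_pc]
    simp only [h2] at h1
    exact h1
  have hD : ∀ b, Rel G ((∑ i, mulS (g b i) * cst (dl (bv i))) + up * mulS (ξ b) -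
      (1 / 2 : ℂ) • (mulS (xs b) : Op n A)) (∑ i, (((a b i : ℝ) : ℂ)) • Dm X Y i) := by
    intro b
    have h1 := ((Rel.sum univ _ _ fun i _ =>
      (hg b i).mul hG (rel_cst (loc_dl (bv i)))).add (hxi b)).sub ((hx b).smul (1 / 2 : ℂ))
    have h2 : (∑ i, (((a b i : ℝ) : ℂ)) • (1 : Op n A) * cst (dl (bv i))) +
        up * ((cst (cz (∑ i, (((a b i : ℝ) : ℂ)) • X i)) : Op n A) +
        up * cst (∑ m, mz m * cz (∑ i, (((a b i : ℝ) : ℂ)) • Y i m))) -
        (1 / 2 : ℂ) • (cst (∑ i, (((a b i : ℝ) : ℂ)) • (mz i : Module.End ℂ (Pl n A))) : Op n A) =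
        ∑ i, (((a b i : ℝ) : ℂ)) • Dm X Y i := by
      have e1 : (cst (cz (∑ i, (((a b i : ℝ) : ℂ)) • X i)) : Op n A) =
          ∑ i, (((a b i : ℝ) : ℂ)) • cst (cz (X i)) := by
        rw [cz_sum, cst_sum]
        refine sum_congr rfl fun i _ => ?_
        rw [cz_smul, cst_smul]
      have e2 : (cst (∑ m, mz m * cz (∑ i, (((a b i : ℝ) : ℂ)) • Y i m)) : Op n A) =
          ∑ i, (((a b i : ℝ) : ℂ)) • cst (∑ m, mz m * cz (Y i m)) := by
        have e3 : (∑ m, mz m * cz (∑ i, (((a b i : ℝ) : ℂ)) • Y i m) :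
            Module.End ℂ (Pl n A)) =
            ∑ i, (((a b i : ℝ) : ℂ)) • ∑ m, mz m * cz (Y i m) := by
          have e4 : ∀ m, (mz m * cz (∑ i, (((a b i : ℝ) : ℂ)) • Y i m) :
              Module.End ℂ (Pl n A)) = ∑ i, (((a b i : ℝ) : ℂ)) • (mz m * cz (Y i m)) := by
            intro m
            rw [cz_sum, Finset.mul_sum]
            refine sum_congr rfl fun i _ => ?_
            rw [cz_smul, mul_smul_comm]
          simp only [e4]
          rw [sum_comm]
          refine sum_congr rfl fun i _ => ?_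
          rw [Finset.smul_sum]
        rw [e3, cst_sum]
        refine sum_congr rfl fun i _ => ?_
        rw [cst_smul]
      have e5 : (cst (∑ i, (((a b i : ℝ) : ℂ)) • (mz i : Module.End ℂ (Pl n A))) : Op n A) =
          ∑ i, (((a b i : ℝ) : ℂ)) • cst (mz i) := by
        rw [cst_sum]
        refine sum_congr rfl fun i _ => ?_
        rw [cst_smul]
      rw [e1, e2, e5, mul_add, ← mul_assoc, ← pow_two, Finset.mul_sum, Finset.mul_sum,
        Finset.smul_sum, ← sum_add_distrib, ← sum_add_distrib, ← sum_sub_distrib]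
      refine sum_congr rfl fun i _ => ?_
      unfold Dm
      rw [smul_mul_assoc, one_mul, mul_smul_comm, mul_smul_comm, smul_add, smul_add, smul_sub,
        smul_comm (1 / 2 : ℂ)]
      abel
    rw [h2] at h1
    exact h1
  have hsum : ∑ b, (∑ i, (((a b i : ℝ) : ℂ)) • Dm X Y i : Op n A) ^ 2 = ∑ l, Dm X Y l ^ 2 :=
    LMaA_quad a h.orth (Dm X Y)
  have hfin := (((((rel_nn (G := G)).smul (1 / 2 : ℂ)).sub
    ((rel_cst (loc_eu (n := n) (A := A))).smul (1 / 2 : ℂ))).sub
    ((rel_one (G := G) (n := n) (A := A)).smul (n / 2 : ℂ))).add hq).sub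
    (Rel.sum univ _ _ fun b _ => (hD b).pow hG 2)
  rw [hsum] at hfin
  have hfin2 := hfin.add hW
  unfold Tgeo Tmod
  exact hfin2

end Pool.Agent.EXO.L
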