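import Pool.Agent.EXO.LMaDef
import Pool.Agent.EXO.LCs

/-!
# EXO / LMaB : the geometric and the model operator are `½N + ½E - Δ` up to strictly causal terms (IDX-L)

For both operators let `D' b = ∑_i a_bi • (cst (dl (bv i)) - ½ • cst (mz i))`.  By `g0`, `x0` the
bracket in `Tgeo` is `D' b` plus a `Cs 1` operator (`mulS a` with `a 0` known: subtract the constant
part and use `cs_mulS_one`; `up * T` is `Cs 1`).  The square of a `Cs 0` operator plus a `Cs 1`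
operator is the square plus `Cs 1` (`Cs.mul`).  `∑_b (D' b)^2 = ∑_i (∂_i - ½ z_i)^2` by `orth`, and
`∑_i (∂_i - ½ z_i)² = Δ - ½ ∑ (∂_i z_i + z_i ∂_i) + ¼ |z|² = Δ - E - n/2 + ¼ |z|²` (`dl_mz`).
So `Tgeo = ½ nn - ½ E - n/2 + ¼|z|² - (Δ - E - n/2 + ¼|z|²) + Cs 1 = ½ nn + ½ E - Δ + Cs 1`.
For `Tmod`: `Dm X Y l = (∂_l - ½ z_l) + Cs 1`.
-/

set_option autoImplicit false
set_option maxSynthPendingDepth 3

open scoped ContDiff Topology
open Finset

noncomputable section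

namespace Pool.Agent.EXO.L

variable {n M : ℕ} {A : Type*} [NormedAddCommGroup A] [NormedSpace ℂ A]

/-- `mulS a` is the multiplication by the constant term, up to `Cs 1`. -/
private theorem LMaB_lead {a : Sq n (A →L[ℂ] A)} {T : Module.End ℂ (Pl n A)}
    (h : ∀ f z, (T f : En n → A) z = (a 0).1 z ((f : En n → A) z)) :
    Cs 1 (mulS a - cst T : Op n A) := by
  intro P w hP
  rw [LinearMap.sub_apply, Pi.sub_apply, mulS_apply, cst_apply,
    Finset.sum_eq_single ((0, w) : ℕ × ℕ)]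
  · rw [sub_eq_zero]
    ext z
    exact (h (P w) z).symm
  · intro ij hij hne
    rw [HasAntidiagonal.mem_antidiagonal] at hij
    have h1 : ij.1 ≠ 0 := by
      intro h0
      apply hne
      ext
      · exact h0
      · simp only
        omega
    rw [hP ij.2 (by omega), map_zero]
  · intro h1
    exact absurd (HasAntidiagonal.mem_antidiagonal.2 (zero_add w)) h1

private theorem LMaB_sq {S D : Op n A} (hS : Cs 0 S) (hD : Cs 0 D) (h : Cs 1 (S - D)) :
    Cs 1 (S ^ 2 - D ^ 2) := by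
  have e : S ^ 2 - D ^ 2 = S * (S - D) + (S - D) * D := by
    rw [mul_sub, sub_mul, pow_two, pow_two]
    abel
  rw [e]
  exact (hS.mul h).add (h.mul hD)

private def LMaB_u (i : Fin n) : Op n A := cst (dl (bv i)) - (1 / 2 : ℂ) • cst (mz i)

private theorem LMaB_cu (i : Fin n) : Cs 0 (LMaB_u i : Op n A) :=
  (cs_cst _).sub ((cs_cst _).smul _)

private theorem LMaB_u_sq : ∑ i, (LMaB_u i : Op n A) ^ 2 =
    cst lap - cst eu - (n / 2 : ℂ) • 1 + (1 / 4 : ℂ) • cst (∑ i, mz i * mz i) := by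
  have h : ∀ i : Fin n, (LMaB_u i : Op n A) ^ 2 = cst (dl (bv i) * dl (bv i)) -
      cst (mz i * dl (bv i)) - (1 / 2 : ℂ) • 1 + (1 / 4 : ℂ) • cst (mz i * mz i) := by
    intro i
    have h1 : (cst (dl (bv i)) * cst (mz i) : Op n A) = cst (mz i * dl (bv i)) + 1 := by
      rw [← cst_mul, dl_mz, if_pos rfl, cst_add, cst_one]
    rw [LMaB_u, pow_two, sub_mul, mul_sub, mul_sub, smul_mul_assoc, smul_mul_assoc,
      mul_smul_comm, mul_smul_comm, h1, ← cst_mul, ← cst_mul, ← cst_mul]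
    module
  rw [Finset.sum_congr rfl fun i _ => h i, Finset.sum_add_distrib, Finset.sum_sub_distrib,
    Finset.sum_sub_distrib, Finset.sum_const, ← Finset.smul_sum, Finset.card_univ, Fintype.card_fin,
    ← cst_sum, ← cst_sum, ← cst_sum, ← Nat.cast_smul_eq_nsmul ℂ, smul_smul]
  have e : (n : ℂ) * (1 / 2) = n / 2 := by ring
  rw [e]
  rfl

private theorem LMaB_orth {a : Fin M → Fin n → ℝ}
    (ho : ∀ i j, ∑ b, a b i * a b j = if i = j then 1 else 0) (u : Fin n → Op n A) :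
    ∑ b, (∑ i, ((a b i : ℝ) : ℂ) • u i) ^ 2 = ∑ i, u i ^ 2 := by
  have h : ∀ b, (∑ i, ((a b i : ℝ) : ℂ) • u i) ^ 2 =
      ∑ i, ∑ j, ((a b i * a b j : ℝ) : ℂ) • (u i * u j) := by
    intro b
    rw [pow_two, Finset.sum_mul]
    refine Finset.sum_congr rfl fun i _ => ?_
    rw [Finset.mul_sum]
    refine Finset.sum_congr rfl fun j _ => ?_
    rw [smul_mul_assoc, mul_smul_comm, smul_smul, Complex.ofReal_mul]
  rw [Finset.sum_congr rfl fun b _ => h b, Finset.sum_comm]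
  refine Finset.sum_congr rfl fun i _ => ?_
  rw [Finset.sum_comm, Finset.sum_eq_single i]
  · rw [← Finset.sum_smul, ← Complex.ofReal_sum, ho, if_pos rfl, Complex.ofReal_one, one_smul,
      pow_two]
  · intro j _ hj
    rw [← Finset.sum_smul, ← Complex.ofReal_sum, ho, if_neg (Ne.symm hj), Complex.ofReal_zero,
      zero_smul]
  · intro h1
    exact absurd (Finset.mem_univ i) h1

theorem cs_geo {G : ℕ → Submodule ℂ A} {a : Fin M → Fin n → ℝ}
    {g : Fin M → Fin n → Sq n (A →L[ℂ] A)} {xs : Fin M → Sq n (A →L[ℂ] A)}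
    {qs : Sq n (A →L[ℂ] A)} {ξ : Fin M → Sq n (A →L[ℂ] A)} {Wq : Sq n (A →L[ℂ] A)}
    {X : Fin n → A →L[ℂ] A} {Y : Fin n → Fin n → A →L[ℂ] A} {F : A →L[ℂ] A}
    (h : LeadOK G a g xs qs ξ Wq X Y F) :
    Cs 1 (Tgeo g xs qs ξ Wq - (1 / 2 : ℂ) • nn - (1 / 2 : ℂ) • cst eu + cst lap) := by
  -- the leading terms
  have hg : ∀ b i, Cs 1 (mulS (g b i) - cst (((a b i : ℝ) : ℂ) • 1) : Op n A) := by
    intro b i
    refine LMaB_lead fun f z => ?_
    rw [h.g0]
    rfl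
  have hx : ∀ b, Cs 1 (mulS (xs b) - cst (∑ i, ((a b i : ℝ) : ℂ) • mz i) : Op n A) := by
    intro b
    refine LMaB_lead fun f z => ?_
    rw [h.x0]
    simp only [LinearMap.sum_apply, LinearMap.smul_apply, AddSubmonoidClass.coe_finsetSum,
      Finset.sum_apply, SetLike.val_smul, Pi.smul_apply, mz_apply, smul_smul]
    rw [← Finset.sum_smul]
    push_cast
    rfl
  have hq : Cs 1 (mulS qs - cst ((1 / 4 : ℂ) • ∑ i, mz i * mz i) : Op n A) := by
    refine LMaB_lead fun f z => ?_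
    rw [h.q0]
    simp only [LinearMap.sum_apply, LinearMap.smul_apply, AddSubmonoidClass.coe_finsetSum,
      Finset.sum_apply, SetLike.val_smul, Pi.smul_apply, mz_apply, smul_smul,
      Module.End.mul_apply]
    rw [← Finset.sum_smul, smul_smul]
    have e : ((‖z‖ ^ 2 / 4 : ℝ) : ℂ) = 1 / 4 * ∑ i, (z i : ℂ) * (z i : ℂ) := by
      rw [EuclideanSpace.norm_sq_eq]
      push_cast
      rw [mul_comm, ← div_eq_mul_one_div]
      congr 1
      refine Finset.sum_congr rfl fun i _ => ?_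
      rw [← Complex.ofReal_pow, Real.norm_eq_abs, sq_abs, Complex.ofReal_pow, pow_two]
    rw [e]
    rfl
  obtain ⟨S, hS⟩ : ∃ S : Fin M → Op n A, S = fun b => (∑ i, mulS (g b i) * cst (dl (bv i))) +
      up * mulS (ξ b) - (1 / 2 : ℂ) • (mulS (xs b) : Op n A) := ⟨_, rfl⟩
  have hSb : ∀ b, (∑ i, mulS (g b i) * cst (dl (bv i))) +
      up * mulS (ξ b) - (1 / 2 : ℂ) • (mulS (xs b) : Op n A) = S b := fun b => by rw [hS]
  have hD0 : ∀ b, Cs 0 (∑ i, ((a b i : ℝ) : ℂ) • (LMaB_u i : Op n A)) := fun b =>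
    Cs.sum _ _ fun i _ => (LMaB_cu i).smul _
  have hup1 : ∀ b, Cs 1 (up * mulS (ξ b) : Op n A) := fun b => cs_up.mul (cs_mulS (ξ b))
  have hS0 : ∀ b, Cs 0 (S b) := by
    intro b
    rw [← hSb]
    refine Cs.sub (Cs.add (Cs.sum _ _ fun i _ => ?_) ((hup1 b).mono (Nat.zero_le _)))
      ((cs_mulS _).smul _)
    exact (cs_mulS _).mul (cs_cst _)
  have hSD : ∀ b, Cs 1 (S b - ∑ i, ((a b i : ℝ) : ℂ) • (LMaB_u i : Op n A)) := by
    intro b
    have e1 : (∑ i, ((a b i : ℝ) : ℂ) • (LMaB_u i : Op n A)) =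
        (∑ i, cst (((a b i : ℝ) : ℂ) • 1) * cst (dl (bv i))) -
          (1 / 2 : ℂ) • cst (∑ i, ((a b i : ℝ) : ℂ) • mz i) := by
      rw [cst_sum, Finset.smul_sum, ← Finset.sum_sub_distrib]
      refine Finset.sum_congr rfl fun i _ => ?_
      rw [← cst_mul, smul_mul_assoc, one_mul, cst_smul, cst_smul, LMaB_u]
      module
    have e2 : S b - ∑ i, ((a b i : ℝ) : ℂ) • (LMaB_u i : Op n A) =
        (∑ i, (mulS (g b i) - cst (((a b i : ℝ) : ℂ) • 1)) * cst (dl (bv i))) +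
          up * mulS (ξ b) -
          (1 / 2 : ℂ) • (mulS (xs b) - cst (∑ i, ((a b i : ℝ) : ℂ) • mz i) : Op n A) := by
      rw [e1, ← hSb]
      simp only [sub_mul, Finset.sum_sub_distrib, smul_sub]
      abel
    rw [e2]
    exact ((Cs.sum _ _ fun i _ => (hg b i).mul (cs_cst _)).add (hup1 b)).sub ((hx b).smul _)
  have hsum : Cs 1 (∑ b, (S b ^ 2 - (∑ i, ((a b i : ℝ) : ℂ) • (LMaB_u i : Op n A)) ^ 2)) :=
    Cs.sum _ _ fun b _ => LMaB_sq (hS0 b) (hD0 b) (hSD b)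
  have hW : Cs 1 (up ^ 2 * mulS Wq : Op n A) :=
    ((cs_up.pow 2).mul (cs_mulS Wq)).mono (by norm_num)
  have key : Tgeo g xs qs ξ Wq - (1 / 2 : ℂ) • nn - (1 / 2 : ℂ) • cst eu + cst lap =
      (mulS qs - cst ((1 / 4 : ℂ) • ∑ i, mz i * mz i)) -
      (∑ b, (S b ^ 2 - (∑ i, ((a b i : ℝ) : ℂ) • (LMaB_u i : Op n A)) ^ 2)) +
      up ^ 2 * mulS Wq := by
    rw [Finset.sum_sub_distrib, LMaB_orth h.orth, LMaB_u_sq, cst_smul]
    unfold Tgeo
    simp only [hSb]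
    module
  rw [key]
  exact (hq.sub hsum).add hW

theorem cs_mod (X : Fin n → A →L[ℂ] A) (Y : Fin n → Fin n → A →L[ℂ] A) (F : A →L[ℂ] A) :
    Cs 1 (Tmod X Y F - (1 / 2 : ℂ) • nn - (1 / 2 : ℂ) • cst eu + cst lap : Op n A) := by
  have h1 : ∀ l, Cs 1 (Dm X Y l - LMaB_u l) := by
    intro l
    have e : Dm X Y l - LMaB_u l = up * cst (cz (X l)) +
        up ^ 2 * cst (∑ m, mz m * cz (Y l m)) := by
      rw [Dm, LMaB_u]
      abel
    rw [e]
    exact (cs_up.mul (cs_cst _)).add (((cs_up.pow 2).mul (cs_cst _)).mono (by norm_num))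
  have h0 : ∀ l, Cs 0 (Dm X Y l) := by
    intro l
    have e : Dm X Y l = (Dm X Y l - LMaB_u l) + LMaB_u l := by abel
    rw [e]
    exact ((h1 l).mono (Nat.zero_le _)).add (LMaB_cu l)
  have hsum : Cs 1 (∑ l, (Dm X Y l ^ 2 - LMaB_u l ^ 2)) :=
    Cs.sum _ _ fun l _ => LMaB_sq (h0 l) (LMaB_cu l) (h1 l)
  have hW : Cs 1 (up ^ 2 * cst (cz F) : Op n A) :=
    ((cs_up.pow 2).mul (cs_cst _)).mono (by norm_num)
  have key : (Tmod X Y F - (1 / 2 : ℂ) • nn - (1 / 2 : ℂ) • cst eu + cst lap : Op n A) =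
      -(∑ l, (Dm X Y l ^ 2 - LMaB_u l ^ 2)) + up ^ 2 * cst (cz F) := by
    rw [Finset.sum_sub_distrib, LMaB_u_sq]
    unfold Tmod
    module
  rw [key]
  exact hsum.neg.add hW

end Pool.Agent.EXO.L
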