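import Pool.Agent.EXO.LMehB

/-!
# EXO / LMehC : Mehler's formula up to weight 15 (IDX-L)

Claim: `(Tmod 0 (Ω/4) F) (expS (mehler Ω) (expS (-(up^2 * cst (cz F))) (s0 (pc v))))` vanishes in
weights `≤ 15`.

Proof.  `Dm 0 (Ω/4) l = dd l - ½ zz l + ¼ ∑_m Oz l m * zz m` (`cz 0 = 0`, `up^2` commutes with `cst`).
By `conj_expS` with `B = mehler Ω` (`cs_mehler`) and `L = 0`:
* `Dm l * expS B = expS B * (Dm l + kap l)` (`dd_mehler`, `zz_mehler`, `Oz_mehler`, `kap_mehler`), hence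
  `Dm l ^ 2 * expS B = expS B * (Dm l + kap l)^2`, and `Dm l + kap l = dd l + bet l`;
* `nn * expS B = expS B * (nn + N1)`, `cst eu * expS B = expS B * (cst eu + E1)`;
* `cst (∑ mz i * mz i) = ∑ zz i * zz i` and `Φ = up^2 * cst (cz F)` commute with `expS B`.
So `T * expS B = expS B * T''`, with
`T'' = ½ (nn + N1) - ½ (cst eu + E1) - n/2 + ¼ ∑ zz i * zz i - ∑_l (dd l + bet l)^2 + Φ`.
Let `R = expS (-Φ) (s0 (pc v))`.  `dd l R = 0` and `cst eu R = 0` (`dd l`, `cst eu` commute with `Φ`,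
`conj_expS` with `K = L = 0`, `cst_s0`, `dl_pc`); `nn R = -2 Φ R` (`conj_expS` with `D = nn`,
`nn * (-Φ) = (-Φ) * nn + (-2 Φ)`, and `nn (s0 f) = 0`).  So `½ nn R + Φ R = 0` and
`T'' R = (½ N1 - ½ E1 - n/2 + ¼ ∑ zz i * zz i - ∑_l (dβ_l + bet l * bet l)) R` where
`dβ_l = [dd l, bet l] = -½ + ¼ Oz l l + (-1/24 (O²)_ll + 1/1440 (O⁴)_ll - 1/60480 (O⁶)_ll)`
(`dd_zz`, `dd_Oz`, `dd_kap`), `Oz l l = 0` (`hΩ`: `Ω l l = -Ω l l`, so `Ω l l = 0`).  By `sum_bet` this is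
`(-1/537600 qd 4 + 1/43545600 qd 5 - 1/3657830400 qd 6) R`
(check: `½N1 - ½E1 = -1/48 qd 1 - 1/24 tq 1 + 1/960 qd 2 + 1/1440 tq 2 - 1/24192 qd 3 - 1/60480 tq 3`),
which vanishes in weights `≤ 15` by `cs_qd`; apply `expS B` (`cs_expS`).
-/

set_option autoImplicit false
set_option maxSynthPendingDepth 3

open scoped ContDiff
open Finset

noncomputable section

namespace Pool.Agent.EXO.L

variable {n : ℕ} {A : Type*} [NormedAddCommGroup A] [NormedSpace ℂ A]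

private theorem com_expS {B T : Op n A} (hB : Cs 1 B) (hT : Cs 0 T) (h : T * B = B * T) :
    T * expS B = expS B * T := by
  have h1 := conj_expS (B := B) (D := T) (K := 0) (L := 0) hB hT (by rw [h, add_zero])
    (by rw [zero_mul, mul_zero, add_zero]) (by rw [zero_mul, mul_zero])
  rwa [smul_zero, add_zero, add_zero] at h1

/-- the multiplication part of the model covariant derivative -/
private def bet0 (Ω : Matrix (Fin n) (Fin n) (A →L[ℂ] A)) (l : Fin n) : Op n A :=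
  (-1 / 2 : ℂ) • zz l + (1 / 4 : ℂ) • ∑ m, Oz Ω l m * zz m

private theorem bet_eq (Ω : Matrix (Fin n) (Fin n) (A →L[ℂ] A)) (l : Fin n) :
    bet Ω l = bet0 Ω l + kap Ω l := rfl

private theorem Dm_eq (Ω : Matrix (Fin n) (Fin n) (A →L[ℂ] A)) (l : Fin n) :
    Dm (fun _ => (0 : A →L[ℂ] A)) (fun l m => (1 / 4 : ℂ) • Ω l m) l = dd l + bet0 Ω l := by
  have h1 : (up * cst (cz (0 : A →L[ℂ] A)) : Op n A) = 0 := by rw [cz_zero, cst_zero, mul_zero]
  have h2 : (up ^ 2 * cst (∑ m, mz m * cz ((1 / 4 : ℂ) • Ω l m)) : Op n A) =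
      (1 / 4 : ℂ) • ∑ m, Oz Ω l m * zz m := by
    rw [cst_sum, Finset.mul_sum, Finset.smul_sum]
    refine sum_congr rfl fun m _ => ?_
    rw [cz_smul, mul_smul_comm, cst_smul, mul_smul_comm, mz_cz, cst_mul, ← mul_assoc]
    rfl
  unfold Dm bet0
  rw [h1, h2]
  show cst (dl (bv l)) - (1 / 2 : ℂ) • cst (mz l) + 0 + (1 / 4 : ℂ) • ∑ m, Oz Ω l m * zz m =
    cst (dl (bv l)) + ((-1 / 2 : ℂ) • cst (mz l) + (1 / 4 : ℂ) • ∑ m, Oz Ω l m * zz m)
  module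

private theorem Tmod_eq (Ω : Matrix (Fin n) (Fin n) (A →L[ℂ] A)) (F : A →L[ℂ] A) :
    Tmod (fun _ => (0 : A →L[ℂ] A)) (fun l m => (1 / 4 : ℂ) • Ω l m) F =
      (1 / 2 : ℂ) • nn - (1 / 2 : ℂ) • cst eu - (n / 2 : ℂ) • 1 +
      (1 / 4 : ℂ) • (∑ i, zz i * zz i) - ∑ l, (dd l + bet0 Ω l) ^ 2 + up ^ 2 * cst (cz F) := by
  have h1 : (cst (∑ i, mz i * mz i) : Op n A) = ∑ i, zz i * zz i := by
    rw [cst_sum]
    rfl
  unfold Tmod
  rw [h1]
  simp only [Dm_eq]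

private theorem cs_Oz (Ω : Matrix (Fin n) (Fin n) (A →L[ℂ] A)) (i j : Fin n) :
    Cs 0 (Oz Ω i j) :=
  ((cs_up.pow 2).mul (cs_cst _)).mono (Nat.zero_le _)

private theorem cs_bet0 (Ω : Matrix (Fin n) (Fin n) (A →L[ℂ] A)) (l : Fin n) :
    Cs 0 (bet0 Ω l) := by
  refine Cs.add ((cs_cst _).smul _) (Cs.smul _ (Cs.sum _ _ fun m _ => ?_))
  exact (cs_Oz Ω l m).mul (cs_cst _)

private theorem bet0_mehler {Ω : Matrix (Fin n) (Fin n) (A →L[ℂ] A)}
    (hc : ∀ a b c d, Ω a b * Ω c d = Ω c d * Ω a b) (l : Fin n) :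
    bet0 Ω l * mehler Ω = mehler Ω * bet0 Ω l := by
  unfold bet0
  rw [add_mul, mul_add, smul_mul_assoc, mul_smul_comm, smul_mul_assoc, mul_smul_comm,
    zz_mehler, Finset.sum_mul, Finset.mul_sum]
  congr 2
  refine sum_congr rfl fun m _ => ?_
  rw [mul_assoc, zz_mehler, ← mul_assoc, Oz_mehler hc, mul_assoc]

private theorem conj_D {Ω : Matrix (Fin n) (Fin n) (A →L[ℂ] A)}
    (hΩ : ∀ a b, Ω a b = - Ω b a) (hc : ∀ a b c d, Ω a b * Ω c d = Ω c d * Ω a b) (l : Fin n) :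
    (dd l + bet0 Ω l) * expS (mehler Ω) = expS (mehler Ω) * (dd l + bet Ω l) := by
  have h1 := conj_expS (B := mehler Ω) (D := dd l) (K := kap Ω l) (L := 0) (cs_mehler Ω)
    (cs_cst _) (dd_mehler hΩ hc l) (by rw [kap_mehler hc l, add_zero])
    (by rw [zero_mul, mul_zero])
  rw [smul_zero, add_zero] at h1
  rw [add_mul, h1, com_expS (cs_mehler Ω) (cs_bet0 Ω l) (bet0_mehler hc l), ← mul_add, bet_eq]
  congr 1
  abel

private theorem conj_D2 {Ω : Matrix (Fin n) (Fin n) (A →L[ℂ] A)}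
    (hΩ : ∀ a b, Ω a b = - Ω b a) (hc : ∀ a b c d, Ω a b * Ω c d = Ω c d * Ω a b) (l : Fin n) :
    (dd l + bet0 Ω l) ^ 2 * expS (mehler Ω) = expS (mehler Ω) * (dd l + bet Ω l) ^ 2 := by
  rw [pow_two, mul_assoc, conj_D hΩ hc, ← mul_assoc, conj_D hΩ hc, mul_assoc, pow_two]

private theorem conj_nn {Ω : Matrix (Fin n) (Fin n) (A →L[ℂ] A)}
    (hc : ∀ a b c d, Ω a b * Ω c d = Ω c d * Ω a b) :
    nn * expS (mehler Ω) = expS (mehler Ω) * (nn + N1 Ω) := by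
  have h1 := conj_expS (B := mehler Ω) (D := nn) (K := N1 Ω) (L := 0) (cs_mehler Ω)
    cs_nn nn_mehler (by rw [(NE_mehler hc).1, add_zero])
    (by rw [zero_mul, mul_zero])
  rwa [smul_zero, add_zero] at h1

private theorem conj_eu {Ω : Matrix (Fin n) (Fin n) (A →L[ℂ] A)}
    (hc : ∀ a b c d, Ω a b * Ω c d = Ω c d * Ω a b) :
    cst eu * expS (mehler Ω) = expS (mehler Ω) * (cst eu + E1 Ω) := by
  have h1 := conj_expS (B := mehler Ω) (D := cst eu) (K := E1 Ω) (L := 0) (cs_mehler Ω)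
    (cs_cst _) eu_mehler (by rw [(NE_mehler hc).2, add_zero])
    (by rw [zero_mul, mul_zero])
  rwa [smul_zero, add_zero] at h1

private theorem conj_zz (Ω : Matrix (Fin n) (Fin n) (A →L[ℂ] A)) :
    (∑ i, zz i * zz i) * expS (mehler Ω) = expS (mehler Ω) * (∑ i, zz i * zz i) := by
  refine com_expS (cs_mehler Ω) (Cs.sum _ _ fun i _ => (cs_cst _).mul (cs_cst _)) ?_
  rw [Finset.sum_mul, Finset.mul_sum]
  refine sum_congr rfl fun i _ => ?_
  rw [mul_assoc, zz_mehler, ← mul_assoc, zz_mehler, mul_assoc]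

private theorem conj_F {Ω : Matrix (Fin n) (Fin n) (A →L[ℂ] A)} {F : A →L[ℂ] A}
    (hF : ∀ a b, Ω a b * F = F * Ω a b) :
    (up ^ 2 * cst (cz F)) * expS (mehler Ω) = expS (mehler Ω) * (up ^ 2 * cst (cz F)) :=
  com_expS (cs_mehler Ω) (((cs_up.pow 2).mul (cs_cst _)).mono (Nat.zero_le _)) (F_mehler hF)

private theorem conj_T {Ω : Matrix (Fin n) (Fin n) (A →L[ℂ] A)} {F : A →L[ℂ] A}
    (hΩ : ∀ a b, Ω a b = - Ω b a) (hc : ∀ a b c d, Ω a b * Ω c d = Ω c d * Ω a b)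
    (hF : ∀ a b, Ω a b * F = F * Ω a b) :
    Tmod (fun _ => (0 : A →L[ℂ] A)) (fun l m => (1 / 4 : ℂ) • Ω l m) F * expS (mehler Ω) =
      expS (mehler Ω) * ((1 / 2 : ℂ) • (nn + N1 Ω) - (1 / 2 : ℂ) • (cst eu + E1 Ω) -
      (n / 2 : ℂ) • 1 + (1 / 4 : ℂ) • (∑ i, zz i * zz i) - ∑ l, (dd l + bet Ω l) ^ 2 +
      up ^ 2 * cst (cz F)) := by
  rw [Tmod_eq]
  have h1 : (∑ l, (dd l + bet0 Ω l) ^ 2) * expS (mehler Ω) =
      expS (mehler Ω) * ∑ l, (dd l + bet Ω l) ^ 2 := by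
    rw [Finset.sum_mul, Finset.mul_sum]
    exact sum_congr rfl fun l _ => conj_D2 hΩ hc l
  rw [add_mul, sub_mul, add_mul, sub_mul, sub_mul, smul_mul_assoc, smul_mul_assoc,
    smul_mul_assoc, smul_mul_assoc, conj_nn hc, conj_eu hc, conj_zz, h1, conj_F hF]
  generalize (∑ l, (dd l + bet Ω l) ^ 2 : Op n A) = S1
  generalize (∑ i, zz i * zz i : Op n A) = S2
  simp only [mul_add, mul_sub, mul_smul_comm, one_mul, mul_one]

private theorem cs_Phi (F : A →L[ℂ] A) : Cs 1 (-(up ^ 2 * cst (cz F)) : Op n A) :=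
  (((cs_up.pow 2).mul (cs_cst _)).mono (by omega)).neg

private theorem dl_cz' (v : En n) (a : A →L[ℂ] A) :
    (dl v * cz a : Module.End ℂ (Pl n A)) = cz a * dl v :=
  LinearMap.ext fun f => dl_cz v a f

private theorem cst_Phi {T : Module.End ℂ (Pl n A)} {F : A →L[ℂ] A} (h : T * cz F = cz F * T) :
    cst T * (-(up ^ 2 * cst (cz F)) : Op n A) = -(up ^ 2 * cst (cz F)) * cst T := by
  rw [mul_neg, neg_mul, neg_inj, pow_two, ← mul_assoc, ← mul_assoc, cst_up, mul_assoc up (cst T),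
    cst_up, mul_assoc, mul_assoc, ← cst_mul, h, cst_mul, mul_assoc, mul_assoc]

private theorem dd_R (F : A →L[ℂ] A) (v : A) (l : Fin n) :
    dd l (expS (-(up ^ 2 * cst (cz F))) (s0 (pc v)) : Sq n A) = 0 := by
  have h1 := com_expS (T := dd l) (cs_Phi (n := n) F) (cs_cst _) (cst_Phi (dl_cz' _ F))
  have h2 := congrArg (fun T : Op n A => T (s0 (pc v))) h1
  simp only [Module.End.mul_apply] at h2
  rw [h2]
  have h3 : dd l (s0 (pc v) : Sq n A) = 0 := by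
    show cst (dl (bv l)) (s0 (pc v) : Sq n A) = 0
    rw [cst_s0, dl_pc, map_zero]
  rw [h3, map_zero]

private theorem eu_cz (F : A →L[ℂ] A) : (eu * cz F : Module.End ℂ (Pl n A)) = cz F * eu := by
  unfold eu
  rw [Finset.sum_mul, Finset.mul_sum]
  refine sum_congr rfl fun i _ => ?_
  rw [mul_assoc, dl_cz', ← mul_assoc, mz_cz, mul_assoc]

private theorem eu_R (F : A →L[ℂ] A) (v : A) :
    cst eu (expS (-(up ^ 2 * cst (cz F))) (s0 (pc v)) : Sq n A) = 0 := by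
  have h1 := com_expS (T := cst eu) (cs_Phi (n := n) F) (cs_cst _) (cst_Phi (eu_cz F))
  have h2 := congrArg (fun T : Op n A => T (s0 (pc v))) h1
  simp only [Module.End.mul_apply] at h2
  rw [h2]
  have h3 : cst eu (s0 (pc v) : Sq n A) = 0 := by
    rw [cst_s0]
    have h4 : eu (pc v : Pl n A) = 0 := by
      simp only [eu, LinearMap.sum_apply, Module.End.mul_apply, dl_pc, map_zero,
        Finset.sum_const_zero]
    rw [h4, map_zero]
  rw [h3, map_zero]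

private theorem nn_R (F : A →L[ℂ] A) (v : A) :
    nn (expS (-(up ^ 2 * cst (cz F))) (s0 (pc v)) : Sq n A) =
      -((2 : ℂ) • (up ^ 2 * cst (cz F) : Op n A)
        (expS (-(up ^ 2 * cst (cz F))) (s0 (pc v)))) := by
  set Φ : Op n A := up ^ 2 * cst (cz F) with hΦ
  have hnup : (nn * up ^ 2 : Op n A) = up ^ 2 * nn + (2 : ℂ) • up ^ 2 := by
    rw [pow_two, ← mul_assoc, nn_up, add_mul, mul_assoc, nn_up, mul_add, ← mul_assoc]
    module
  have h0 : nn * (-Φ) = (-Φ) * nn + (2 : ℂ) • (-Φ) := by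
    rw [hΦ, mul_neg, ← mul_assoc, hnup, add_mul, mul_assoc (up ^ 2) nn, nn_cst, smul_mul_assoc,
      neg_mul, mul_assoc]
    module
  have h1 := conj_expS (B := -Φ) (D := nn) (K := (2 : ℂ) • (-Φ)) (L := 0) (cs_Phi (n := n) F)
    cs_nn h0 (by rw [smul_mul_assoc, mul_smul_comm, add_zero]) (by rw [zero_mul, mul_zero])
  rw [smul_zero, add_zero] at h1
  have hc : (-Φ) * expS (-Φ) = expS (-Φ) * (-Φ) :=
    com_expS (cs_Phi (n := n) F) ((cs_Phi (n := n) F).mono (Nat.zero_le _)) rfl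
  have h2 := congrArg (fun T : Op n A => T (s0 (pc v))) h1
  have h3 := congrArg (fun T : Op n A => T (s0 (pc v))) hc
  simp only [Module.End.mul_apply, LinearMap.add_apply, LinearMap.smul_apply,
    LinearMap.neg_apply] at h2 h3
  rw [h2, nn_s0, zero_add, map_smul, ← h3, smul_neg]

private theorem Oz_diag {Ω : Matrix (Fin n) (Fin n) (A →L[ℂ] A)} (hΩ : ∀ a b, Ω a b = - Ω b a)
    (l : Fin n) : Oz Ω l l = 0 := by
  have h1 : Ω l l = 0 := by
    have h2 := hΩ l l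
    have h3 : (2 : ℂ) • Ω l l = 0 := by
      rw [two_smul]
      nth_rewrite 1 [h2]
      exact neg_add_cancel _
    exact (smul_eq_zero.1 h3).resolve_left two_ne_zero
  show up ^ 2 * cst (cz (Ω l l)) = 0
  rw [h1, cz_zero, cst_zero, mul_zero]

/-- the commutator of `dd l` and `bet l` -/
private theorem dd_bet {Ω : Matrix (Fin n) (Fin n) (A →L[ℂ] A)} (hΩ : ∀ a b, Ω a b = - Ω b a)
    (l : Fin n) : dd l * bet Ω l = bet Ω l * dd l + ((-1 / 2 : ℂ) • 1 +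
      ((-1 / 24 : ℂ) • (Oz Ω ^ 2) l l + (1 / 1440 : ℂ) • (Oz Ω ^ 4) l l +
      (-1 / 60480 : ℂ) • (Oz Ω ^ 6) l l)) := by
  have h1 : dd l * (∑ m, Oz Ω l m * zz m) = (∑ m, Oz Ω l m * zz m) * dd l := by
    have h2 : ∀ m : Fin n, dd l * (Oz Ω l m * zz m) =
        Oz Ω l m * zz m * dd l + if l = m then Oz Ω l m else 0 := by
      intro m
      rw [← mul_assoc, dd_Oz, mul_assoc, dd_zz, mul_add, ← mul_assoc]
      congr 1
      split_ifs with h
      · rw [mul_one]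
      · rw [mul_zero]
    rw [Finset.mul_sum, Finset.sum_mul]
    simp only [h2, Finset.sum_add_distrib]
    rw [Finset.sum_ite_eq Finset.univ l (fun m => Oz Ω l m), if_pos (mem_univ l), Oz_diag hΩ,
      add_zero]
  have h3 : (dd l * zz l : Op n A) = zz l * dd l + 1 := by
    rw [dd_zz, if_pos rfl]
  rw [bet_eq, bet0, mul_add, mul_add, mul_smul_comm, mul_smul_comm, h1, h3, dd_kap, add_mul,
    add_mul, smul_mul_assoc, smul_mul_assoc]
  module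

theorem mehler_eq (Ω : Matrix (Fin n) (Fin n) (A →L[ℂ] A)) (F : A →L[ℂ] A)
    (hΩ : ∀ a b, Ω a b = - Ω b a)
    (hc : ∀ a b c d, Ω a b * Ω c d = Ω c d * Ω a b)
    (hF : ∀ a b, Ω a b * F = F * Ω a b) (v : A) (w : ℕ) (hw : w ≤ 15) :
    Tmod (fun _ => 0) (fun l m => (1 / 4 : ℂ) • Ω l m) F
      (expS (mehler Ω) (expS (-(up ^ 2 * cst (cz F))) (s0 (pc v)))) w = 0 := by
  set R : Sq n A := expS (-(up ^ 2 * cst (cz F))) (s0 (pc v)) with hR
  have h1 := congrArg (fun T : Op n A => T R) (conj_T hΩ hc hF)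
  simp only [Module.End.mul_apply] at h1
  rw [h1]
  have hd : ∀ l : Fin n, dd l R = 0 := fun l => dd_R F v l
  have he : cst eu R = 0 := eu_R F v
  have hn : nn R = -((2 : ℂ) • (up ^ 2 * cst (cz F) : Op n A) R) := nn_R F v
  have h2 : ∀ l : Fin n, ((dd l + bet Ω l) ^ 2 : Op n A) R = ((-1 / 2 : ℂ) • (1 : Op n A) +
      ((-1 / 24 : ℂ) • (Oz Ω ^ 2) l l + (1 / 1440 : ℂ) • (Oz Ω ^ 4) l l +
      (-1 / 60480 : ℂ) • (Oz Ω ^ 6) l l) + bet Ω l * bet Ω l) R := by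
    intro l
    have h3 := congrArg (fun T : Op n A => T R) (dd_bet hΩ l)
    simp only [Module.End.mul_apply, LinearMap.add_apply] at h3
    rw [hd l, map_zero, zero_add] at h3
    rw [pow_two, Module.End.mul_apply, LinearMap.add_apply, LinearMap.add_apply, hd l, zero_add,
      h3, LinearMap.add_apply _ (bet Ω l * bet Ω l), Module.End.mul_apply]
    simp only [LinearMap.add_apply]
  have h4 : (∑ l, (dd l + bet Ω l) ^ 2 : Op n A) R = (-(n / 2 : ℂ) • (1 : Op n A) +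
      ((-1 / 24 : ℂ) • tq Ω 1 + (1 / 1440 : ℂ) • tq Ω 2 +
      (-1 / 60480 : ℂ) • tq Ω 3) + ∑ l, bet Ω l * bet Ω l) R := by
    have h5 : (-(n / 2 : ℂ) • (1 : Op n A) +
      ((-1 / 24 : ℂ) • tq Ω 1 + (1 / 1440 : ℂ) • tq Ω 2 +
      (-1 / 60480 : ℂ) • tq Ω 3) + ∑ l, bet Ω l * bet Ω l) = ∑ l, ((-1 / 2 : ℂ) • (1 : Op n A) +
      ((-1 / 24 : ℂ) • (Oz Ω ^ 2) l l + (1 / 1440 : ℂ) • (Oz Ω ^ 4) l l +
      (-1 / 60480 : ℂ) • (Oz Ω ^ 6) l l) + bet Ω l * bet Ω l) := by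
      have q1 : tq Ω 1 = ∑ l, (Oz Ω ^ 2) l l := rfl
      have q2 : tq Ω 2 = ∑ l, (Oz Ω ^ 4) l l := rfl
      have q3 : tq Ω 3 = ∑ l, (Oz Ω ^ 6) l l := rfl
      have q0 : (-(n / 2 : ℂ) • (1 : Op n A)) = ∑ _l : Fin n, (-1 / 2 : ℂ) • (1 : Op n A) := by
        rw [Finset.sum_const, Finset.card_univ, Fintype.card_fin, ← Nat.cast_smul_eq_nsmul ℂ,
          smul_smul]
        congr 1
        ring
      rw [q0, q1, q2, q3, Finset.smul_sum, Finset.smul_sum, Finset.smul_sum,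
        ← Finset.sum_add_distrib, ← Finset.sum_add_distrib, ← Finset.sum_add_distrib,
        ← Finset.sum_add_distrib]
    rw [h5, LinearMap.sum_apply, LinearMap.sum_apply]
    exact sum_congr rfl fun l _ => h2 l
  have h6 : ((1 / 2 : ℂ) • (nn + N1 Ω) - (1 / 2 : ℂ) • (cst eu + E1 Ω) -
      (n / 2 : ℂ) • 1 + (1 / 4 : ℂ) • (∑ i, zz i * zz i) - ∑ l, (dd l + bet Ω l) ^ 2 +
      up ^ 2 * cst (cz F) : Op n A) R = ((-1 / 537600 : ℂ) • qd Ω 4 + (1 / 43545600 : ℂ) • qd Ω 5 +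
      (-1 / 3657830400 : ℂ) • qd Ω 6) R := by
    have h7 : ((1 / 2 : ℂ) • (nn + N1 Ω) - (1 / 2 : ℂ) • (cst eu + E1 Ω) -
      (n / 2 : ℂ) • 1 + (1 / 4 : ℂ) • (∑ i, zz i * zz i) - ∑ l, (dd l + bet Ω l) ^ 2 +
      up ^ 2 * cst (cz F) : Op n A) R = ((1 / 2 : ℂ) • N1 Ω - (1 / 2 : ℂ) • E1 Ω -
      (n / 2 : ℂ) • 1 + (1 / 4 : ℂ) • (∑ i, zz i * zz i) - (-(n / 2 : ℂ) • (1 : Op n A) +
      ((-1 / 24 : ℂ) • tq Ω 1 + (1 / 1440 : ℂ) • tq Ω 2 +
      (-1 / 60480 : ℂ) • tq Ω 3) + ∑ l, bet Ω l * bet Ω l)) R := by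
      simp only [LinearMap.add_apply _ (up ^ 2 * cst (cz F)), LinearMap.sub_apply, h4]
      simp only [LinearMap.add_apply, LinearMap.sub_apply, LinearMap.smul_apply, hn, he]
      module
    rw [h7, sum_bet hΩ hc]
    congr 1
    unfold N1 E1
    module
  rw [h6]
  have hW : Cs 16 ((-1 / 537600 : ℂ) • qd Ω 4 + (1 / 43545600 : ℂ) • qd Ω 5 +
      (-1 / 3657830400 : ℂ) • qd Ω 6 : Op n A) :=
    (((cs_qd Ω 4).smul _).add (((cs_qd Ω 5).mono (by omega)).smul _)).add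
      (((cs_qd Ω 6).mono (by omega)).smul _)
  have h8 := (cs_expS (cs_mehler Ω)).mul hW
  exact h8 R w fun u hu => by omega

end Pool.Agent.EXO.L
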