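import Pool.Agent.EXO.LInj
import Pool.Agent.EXO.LRel
import Pool.Agent.EXO.LCs

/-!
# EXO / LRec : the main recursion (IDX-L)

Two sequences `P`, `Q` solve `½ w P_w + ½ E P_w - Δ P_w + (T P)_w = 0` resp. with `S`, for all
`w ≤ W`; `T`, `S` are strictly causal, `Rel G T S`, `P_0 = Q_0` takes values in `G 1`.
Then `P_w - Q_w` takes values in `G w` for all `w ≤ W`.

Proof.  By strong induction on `w` we prove: `P_w` and `Q_w` take values in `G (w + 1)` and
`P_w - Q_w` takes values in `G w`.  For `w = 0`: `h1`, `h0`.  Let `1 ≤ w ≤ W`.  Put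
`P'_u = P_u` for `u < w`, `0` else, same for `Q'`.  By the induction hypothesis
`P', Q' ∈ FS G 1` and `P' - Q' ∈ FS G 0`.  By `cs_congr` (`Cs 1`) `(T P)_w = (T P')_w`,
`(S Q)_w = (S Q')_w`.  Now `T P' ∈ FS G 1` so `(T P)_w` has values in `G (w + 1)`, hence
`½ w P_w + ½ E P_w - Δ P_w` has values in `G (w + 1)` and by `inj_mod` (with `c = w/2 > 0`) so has
`P_w`.  The same for `Q` (`Rel.s0`).  Finally, with `R = P - Q`,
`½ w R_w + ½ E R_w - Δ R_w = -(T P)_w + (S Q)_w = -((T - S) P')_w - (S (P' - Q'))_w`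
and both terms have values in `G w` (`Rel.d`, `Rel.s1`); by `inj_mod` so has `R_w`.
-/

set_option autoImplicit false
set_option maxSynthPendingDepth 3

open scoped ContDiff
open Finset

noncomputable section

namespace Pool.Agent.EXO.L

variable {n : ℕ} {A : Type*} [NormedAddCommGroup A] [NormedSpace ℂ A]

private theorem solve_mem [FiniteDimensional ℂ A] (U : Submodule ℂ A) {w : ℕ} (hw : 0 < w)
    (f g : Pl n A) (h : (w / 2 : ℂ) • f + (1 / 2 : ℂ) • eu f - lap f + g = 0)
    (hg : ∀ z, (g : En n → A) z ∈ U) : ∀ z, (f : En n → A) z ∈ U := by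
  have hc : (0 : ℝ) < (w : ℝ) / 2 := by
    have : (0 : ℝ) < (w : ℝ) := Nat.cast_pos.2 hw
    positivity
  refine inj_mod U ((w : ℝ) / 2) hc f fun z => ?_
  have e1 : (((w : ℝ) / 2 : ℝ) : ℂ) = (w / 2 : ℂ) := by push_cast; rfl
  rw [e1]
  have e2 : (w / 2 : ℂ) • f + (1 / 2 : ℂ) • eu f - lap f = -g := eq_neg_of_add_eq_zero_left h
  rw [e2]
  exact U.neg_mem (hg z)

theorem main_rec [FiniteDimensional ℂ A] {G : ℕ → Submodule ℂ A} (hG : Monotone G)
    {T S : Op n A} (hT : Cs 1 T) (hS : Cs 1 S) (hR : Rel G T S) (P Q : Sq n A) (W : ℕ)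
    (hP : ∀ w ≤ W, (w / 2 : ℂ) • P w + (1 / 2 : ℂ) • eu (P w) - lap (P w) + T P w = 0)
    (hQ : ∀ w ≤ W, (w / 2 : ℂ) • Q w + (1 / 2 : ℂ) • eu (Q w) - lap (Q w) + S Q w = 0)
    (h0 : P 0 = Q 0) (h1 : ∀ z, (P 0 : En n → A) z ∈ G 1) :
    ∀ w ≤ W, ∀ z, (P w : En n → A) z - (Q w : En n → A) z ∈ G w := by
  suffices H : ∀ w ≤ W, (∀ z, (P w : En n → A) z ∈ G (w + 1)) ∧
      (∀ z, (Q w : En n → A) z ∈ G (w + 1)) ∧
      ∀ z, (P w : En n → A) z - (Q w : En n → A) z ∈ G w from fun w hw => (H w hw).2.2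
  intro w
  induction w using Nat.strong_induction_on with
  | _ w ih =>
    intro hw
    rcases Nat.eq_zero_or_pos w with rfl | hpos
    · refine ⟨h1, fun z => ?_, fun z => ?_⟩
      · rw [← h0]; exact h1 z
      · rw [h0, sub_self]; exact (G 0).zero_mem
    · set P' : Sq n A := fun u => if u < w then P u else 0 with hP'
      set Q' : Sq n A := fun u => if u < w then Q u else 0 with hQ'
      have hP'1 : P' ∈ FS G 1 := by
        intro u z
        rw [hP']; dsimp only
        split_ifs with hu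
        · exact (ih u hu (by omega)).1 z
        · exact (G _).zero_mem
      have hQ'1 : Q' ∈ FS G 1 := by
        intro u z
        rw [hQ']; dsimp only
        split_ifs with hu
        · exact (ih u hu (by omega)).2.1 z
        · exact (G _).zero_mem
      have hPQ : P' - Q' ∈ FS G 0 := by
        intro u z
        have e : ((P' - Q') u : Pl n A) = if u < w then P u - Q u else 0 := by
          rw [Pi.sub_apply, hP', hQ']; dsimp only
          split_ifs
          · rfl
          · exact sub_zero _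
        rw [e]
        split_ifs with hu
        · exact (ih u hu (by omega)).2.2 z
        · exact (G _).zero_mem
      have eT : T P w = T P' w := cs_congr hT fun u hu => by
        rw [hP']; dsimp only; rw [if_pos (by omega)]
      have eS : S Q w = S Q' w := cs_congr hS fun u hu => by
        rw [hQ']; dsimp only; rw [if_pos (by omega)]
      refine ⟨?_, ?_, ?_⟩
      · refine solve_mem (G (w + 1)) hpos (P w) (T P w) (hP w hw) fun z => ?_
        rw [eT]
        exact hR.l0 P' hP'1 w z
      · refine solve_mem (G (w + 1)) hpos (Q w) (S Q w) (hQ w hw) fun z => ?_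
        rw [eS]
        exact hR.s0 hG Q' hQ'1 w z
      · have e1 : (w / 2 : ℂ) • (P w - Q w) + (1 / 2 : ℂ) • eu (P w - Q w) - lap (P w - Q w) +
            (T P w - S Q w) = 0 := by
          have e2 := hP w hw
          have e3 := hQ w hw
          rw [map_sub, map_sub, smul_sub, smul_sub]
          have e4 : (w / 2 : ℂ) • P w - (w / 2 : ℂ) • Q w +
              ((1 / 2 : ℂ) • eu (P w) - (1 / 2 : ℂ) • eu (Q w)) - (lap (P w) - lap (Q w)) +
              (T P w - S Q w) =
              ((w / 2 : ℂ) • P w + (1 / 2 : ℂ) • eu (P w) - lap (P w) + T P w) -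
              ((w / 2 : ℂ) • Q w + (1 / 2 : ℂ) • eu (Q w) - lap (Q w) + S Q w) := by abel
          rw [e4, e2, e3, sub_self]
        have e5 : T P w - S Q w = ((T - S) P' + S (P' - Q')) w := by
          rw [eT, eS, LinearMap.sub_apply, map_sub]
          simp only [Pi.add_apply, Pi.sub_apply]
          abel
        intro z
        have h3 := solve_mem (G w) hpos (P w - Q w) (T P w - S Q w) e1 (fun z => by
          rw [e5]
          exact (FS G 0).add_mem (hR.d P' hP'1) (hR.s1 hG _ hPQ) w z) z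
        exact h3

end Pool.Agent.EXO.L
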