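import Pool.Agent.EXO.LMaA
import Pool.Agent.EXO.LMaB
import Pool.Agent.EXO.LRec
import Pool.Agent.EXO.LGau
import Pool.Agent.EXO.LMehC

/-!
# EXO / LMaC : comparison with the model solution (IDX-L)

`S = model X Ω F v` satisfies `Tmod X Y F S w = 0` for `w ≤ 15`: by `gauge`
`Tmod X Y F (expS (-(up C)) R) = expS (-(up C)) (Tmod 0 (Ω/4) F R)` with
`R = expS (mehler Ω) (expS (-(up² F)) (s0 (pc v)))`; by `mehler_eq` the argument vanishes in weights
`≤ 15` and `expS` is causal (`cs_expS`; `-(up * cst C)` is `Cs 1`).  `S 0 = pc v` (`model_zero`).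
Now `main_rec` with `T = Tgeo … - ½ nn - ½ eu + lap`, `S = Tmod … - ½ nn - ½ eu + lap`, which are
`Cs 1` (`cs_geo`, `cs_mod`), `Rel` by `rel_geo`, `rel_nn`, `rel_cst loc_eu`, `rel_cst loc_lap`, and `W = 15`:
`(w/2) P_w + ½ E P_w - Δ P_w + (T P)_w = (Tgeo P)_w`.
-/

set_option autoImplicit false
set_option maxSynthPendingDepth 3

open scoped ContDiff Topology
open Finset

noncomputable section

namespace Pool.Agent.EXO.L

variable {n M : ℕ} {A : Type*} [NormedAddCommGroup A] [NormedSpace ℂ A]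

theorem model_sol (X : Fin n → A →L[ℂ] A) (Y : Fin n → Fin n → A →L[ℂ] A)
    (Ω : Matrix (Fin n) (Fin n) (A →L[ℂ] A)) (F : A →L[ℂ] A) (h : ModOK X Y Ω F) (v : A)
    (w : ℕ) (hw : w ≤ 15) : Tmod X Y F (model X Ω F v) w = 0 := by
  have hg := gauge X Y Ω F h.hZ h.hOX h.hFX h.anti h.hY
  have hB : Cs 1 (-(up * cst (∑ l, mz l * cz (X l))) : Op n A) :=
    (cs_up.mul (cs_cst _)).neg
  have hE : Cs 0 (expS (-(up * cst (∑ l, mz l * cz (X l))) : Op n A)) := cs_expS hB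
  have h1 : Tmod X Y F (model X Ω F v) =
      expS (-(up * cst (∑ l, mz l * cz (X l))))
        (Tmod (fun _ => 0) (fun l m => (1 / 4 : ℂ) • Ω l m) F
          (expS (mehler Ω) (expS (-(up ^ 2 * cst (cz F))) (s0 (pc v))))) := by
    unfold model
    rw [← Module.End.mul_apply, hg, Module.End.mul_apply]
  rw [h1]
  refine hE _ w fun u hu => ?_
  exact mehler_eq Ω F h.anti h.hc h.hF v u (by omega)

/-- the recursion form of the equation -/
private theorem LMaC_rec (T : Op n A) (P : Sq n A) (w : ℕ) (hP : T P w = 0) :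
    (w / 2 : ℂ) • P w + (1 / 2 : ℂ) • eu (P w) - lap (P w) +
      (T - (1 / 2 : ℂ) • nn - (1 / 2 : ℂ) • cst eu + cst lap : Op n A) P w = 0 := by
  have e1 : (T - (1 / 2 : ℂ) • nn - (1 / 2 : ℂ) • cst eu + cst lap : Op n A) P w =
      T P w - (1 / 2 : ℂ) • ((w : ℂ) • P w) - (1 / 2 : ℂ) • eu (P w) + lap (P w) := rfl
  rw [e1, hP, smul_smul]
  have e2 : (1 / 2 : ℂ) * (w : ℂ) = (w / 2 : ℂ) := by ring
  rw [e2]
  abel

theorem main_cmp [FiniteDimensional ℂ A] {G : ℕ → Submodule ℂ A} (hG : Monotone G)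
    {a : Fin M → Fin n → ℝ}
    {g : Fin M → Fin n → Sq n (A →L[ℂ] A)} {xs : Fin M → Sq n (A →L[ℂ] A)}
    {qs : Sq n (A →L[ℂ] A)} {ξ : Fin M → Sq n (A →L[ℂ] A)} {Wq : Sq n (A →L[ℂ] A)}
    {X : Fin n → A →L[ℂ] A} {Y : Fin n → Fin n → A →L[ℂ] A}
    {Ω : Matrix (Fin n) (Fin n) (A →L[ℂ] A)} {F : A →L[ℂ] A}
    (h : LeadOK G a g xs qs ξ Wq X Y F) (hm : ModOK X Y Ω F) (P : Sq n A)
    (hP : ∀ w ≤ 15, Tgeo g xs qs ξ Wq P w = 0) (v : A) (hv : v ∈ G 1) (h0 : P 0 = pc v) :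
    ∀ w ≤ 15, ∀ z, (P w).1 z - (model X Ω F v w).1 z ∈ G w := by
  have hT := cs_geo h
  have hS := cs_mod X Y F
  have hR : Rel G (Tgeo g xs qs ξ Wq - (1 / 2 : ℂ) • nn - (1 / 2 : ℂ) • cst eu + cst lap)
      (Tmod X Y F - (1 / 2 : ℂ) • nn - (1 / 2 : ℂ) • cst eu + cst lap) := by
    have h1 := rel_geo hG h
    have h2 : Rel G ((1 / 2 : ℂ) • (nn : Op n A)) ((1 / 2 : ℂ) • nn) := rel_nn.smul _
    have h3 : Rel G ((1 / 2 : ℂ) • (cst eu : Op n A)) ((1 / 2 : ℂ) • cst eu) :=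
      (rel_cst loc_eu).smul _
    have h4 : Rel G (cst lap : Op n A) (cst lap) := rel_cst loc_lap
    exact ((h1.sub h2).sub h3).add h4
  refine main_rec hG hT hS hR P (model X Ω F v) 15 (fun w hw => ?_) (fun w hw => ?_) ?_ ?_
  · exact LMaC_rec _ P w (hP w hw)
  · exact LMaC_rec _ _ w (model_sol X Y Ω F hm v w hw)
  · rw [h0, model_zero]
  · intro z
    rw [h0]
    exact hv

end Pool.Agent.EXO.L
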