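import Pool.Agent.EXO.LVal

/-!
# EXO / LMaDef : the geometric operator on Taylor sequences (IDX-L): definitions
-/

set_option autoImplicit false
set_option maxSynthPendingDepth 3

open scoped ContDiff Topology
open Finset

noncomputable section

namespace Pool.Agent.EXO.L

variable {n M : ℕ} {A : Type*} [NormedAddCommGroup A] [NormedSpace ℂ A]

/-- The geometric operator on Taylor sequences; `g b i` are the coefficients of the derivative `∂_b`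
in the parametrization, `ξ b` the connection, `xs b` the components of `σ⁻¹ P(x)(x-y)`,
`qs` the function `σ⁻² |x-y|²/4`, `Wq` the zero order term. -/
def Tgeo (g : Fin M → Fin n → Sq n (A →L[ℂ] A)) (xs : Fin M → Sq n (A →L[ℂ] A))
    (qs : Sq n (A →L[ℂ] A)) (ξ : Fin M → Sq n (A →L[ℂ] A)) (Wq : Sq n (A →L[ℂ] A)) : Op n A :=
  (1 / 2 : ℂ) • nn - (1 / 2 : ℂ) • cst eu - (n / 2 : ℂ) • 1 + mulS qs -
    ∑ b, ((∑ i, mulS (g b i) * cst (dl (bv i))) + up * mulS (ξ b) -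
      (1 / 2 : ℂ) • (mulS (xs b) : Op n A)) ^ 2 + up ^ 2 * mulS Wq

/-- The leading terms of the geometric data agree with the model. -/
structure LeadOK (G : ℕ → Submodule ℂ A) (a : Fin M → Fin n → ℝ)
    (g : Fin M → Fin n → Sq n (A →L[ℂ] A)) (xs : Fin M → Sq n (A →L[ℂ] A))
    (qs : Sq n (A →L[ℂ] A)) (ξ : Fin M → Sq n (A →L[ℂ] A)) (Wq : Sq n (A →L[ℂ] A))
    (X : Fin n → A →L[ℂ] A) (Y : Fin n → Fin n → A →L[ℂ] A) (F : A →L[ℂ] A) : Prop where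
  orth : ∀ i j, ∑ b, a b i * a b j = if i = j then 1 else 0
  g0 : ∀ b i z, (g b i 0).1 z = ((a b i : ℝ) : ℂ) • (1 : A →L[ℂ] A)
  gs : ∀ b i w z, ∃ r : ℂ, (g b i w).1 z = r • (1 : A →L[ℂ] A)
  x0 : ∀ b z, (xs b 0).1 z = ((∑ i, a b i * z i : ℝ) : ℂ) • (1 : A →L[ℂ] A)
  xs' : ∀ b w z, ∃ r : ℂ, (xs b w).1 z = r • (1 : A →L[ℂ] A)
  q0 : ∀ z, (qs 0).1 z = ((‖z‖ ^ 2 / 4 : ℝ) : ℂ) • (1 : A →L[ℂ] A)
  qs' : ∀ w z, ∃ r : ℂ, (qs w).1 z = r • (1 : A →L[ℂ] A)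
  XG : ∀ i q, ∀ x ∈ G q, X i x ∈ G (q + 1)
  YG : ∀ i m q, ∀ x ∈ G q, Y i m x ∈ G (q + 2)
  FG : ∀ q, ∀ x ∈ G q, F x ∈ G (q + 2)
  xiG : ∀ b w z q, ∀ x ∈ G q, ((ξ b w).1 z) x ∈ G (q + w + 1)
  xi0 : ∀ b z q, ∀ x ∈ G (q + 1),
    ((ξ b 0).1 z) x - ∑ i, ((a b i : ℝ) : ℂ) • X i x ∈ G (q + 1)
  xi1 : ∀ b z q, ∀ x ∈ G (q + 1),
    ((ξ b 1).1 z) x - ∑ i, ∑ m, ((a b i * z m : ℝ) : ℂ) • Y i m x ∈ G (q + 2)
  xi2 : ∀ b w z q, 2 ≤ w → ∀ x ∈ G (q + 1), ((ξ b w).1 z) x ∈ G (q + w + 1)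
  WG : ∀ w z q, ∀ x ∈ G q, ((Wq w).1 z) x ∈ G (q + w + 2)
  W0 : ∀ z q, ∀ x ∈ G (q + 1), ((Wq 0).1 z) x - F x ∈ G (q + 2)
  W1 : ∀ w z q, 1 ≤ w → ∀ x ∈ G (q + 1), ((Wq w).1 z) x ∈ G (q + w + 2)

/-- The commutation relations of the model. -/
structure ModOK (X : Fin n → A →L[ℂ] A) (Y : Fin n → Fin n → A →L[ℂ] A)
    (Ω : Matrix (Fin n) (Fin n) (A →L[ℂ] A)) (F : A →L[ℂ] A) : Prop where
  hZ : ∀ a b c, (X a * X b - X b * X a) * X c = X c * (X a * X b - X b * X a)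
  hOX : ∀ a b c, Ω a b * X c = X c * Ω a b
  hFX : ∀ c, F * X c = X c * F
  anti : ∀ a b, Ω a b = - Ω b a
  hY : ∀ a b, (1 / 2 : ℂ) • (X a * X b - X b * X a) + Y b a = -((1 / 4 : ℂ) • Ω a b)
  hc : ∀ a b c d, Ω a b * Ω c d = Ω c d * Ω a b
  hF : ∀ a b, Ω a b * F = F * Ω a b

/-- Shift of a sequence to the left. -/
def dn (r : ℕ) (a : Sq n A) : Sq n A := fun w => a (w + r)

end Pool.Agent.EXO.L
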