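import Pool.Agent.EXO.LCs

/-!
# EXO / LMehA : Mehler's formula, commutation relations of the exponent (IDX-L)

`Ω l m : A →L[ℂ] A` commute with each other, `Ω` antisymmetric.  In the ring `Op n A` of operators on
sequences: `zz i` multiplication by `ζ_i`, `dd i` derivative `∂_i`, `Oz Ω i j = σ² Ω_ij`,
`qd Ω k = ∑_ij ζ_i ζ_j (O^(2k))_ij`, `tq Ω k = tr O^(2k)`, `lin Ω k l = ∑_j (O^(2k))_lj ζ_j`,
`mehler` the exponent, `kap l = [∂_l, mehler]`.

Proofs: `cz_mul`, `cst_mul`, `cst_up`, `nn_up`, `nn_cst`, `dl_mz`, `mz_cz`, `dl_cz`, `mz_mz`, `dl_dl`.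
* `Oz_pow`: induction on `k` (matrix multiplication, `up` commutes with `cst`).
* `Om_symm`: `Ω^k` is symmetric for even `k`: for all `k`, `(Ω^k) i j = (-1)^k (Ω^k) j i`, by induction:
  `(Ω^(k+1)) i j = ∑_p (Ω^k)_{ip} Ω_{pj}`, commute the factors (all entries of powers commute with
  entries, by `hc`) and use `pow_succ'`.
* `dd_qd`: `∂_l ζ_i ζ_j = ζ_i ζ_j ∂_l + δ_li ζ_j + δ_lj ζ_i`, symmetry of `O^(2k)`.
* `nn_qd`: `nn * up^(4k) = up^(4k) * nn + 4k up^(4k)`.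
-/

set_option autoImplicit false
set_option maxSynthPendingDepth 3

open scoped ContDiff
open Finset

noncomputable section

namespace Pool.Agent.EXO.L

variable {n : ℕ} {A : Type*} [NormedAddCommGroup A] [NormedSpace ℂ A]

/-- The operator of multiplication by `ζ_i`. -/
def zz (i : Fin n) : Op n A := cst (mz i)

/-- The operator `∂_i`. -/
def dd (i : Fin n) : Op n A := cst (dl (bv i))

/-- The matrix `σ² Ω`. -/
def Oz (Ω : Matrix (Fin n) (Fin n) (A →L[ℂ] A)) : Matrix (Fin n) (Fin n) (Op n A) :=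
  fun i j => up ^ 2 * cst (cz (Ω i j))

@[inherit_doc Oz]
def qd (Ω : Matrix (Fin n) (Fin n) (A →L[ℂ] A)) (k : ℕ) : Op n A :=
  ∑ i, ∑ j, zz i * zz j * (Oz Ω ^ (2 * k)) i j

@[inherit_doc Oz]
def tq (Ω : Matrix (Fin n) (Fin n) (A →L[ℂ] A)) (k : ℕ) : Op n A := (Oz Ω ^ (2 * k)).trace

@[inherit_doc Oz]
def lin (Ω : Matrix (Fin n) (Fin n) (A →L[ℂ] A)) (k : ℕ) (l : Fin n) : Op n A :=
  ∑ j, (Oz Ω ^ (2 * k)) l j * zz j

/-- The exponent of Mehler's formula up to weight `12`. -/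
def mehler (Ω : Matrix (Fin n) (Fin n) (A →L[ℂ] A)) : Op n A :=
  (-1 / 48 : ℂ) • qd Ω 1 + (-1 / 48 : ℂ) • tq Ω 1 + (1 / 2880 : ℂ) • qd Ω 2 +
    (1 / 5760 : ℂ) • tq Ω 2 + (-1 / 120960 : ℂ) • qd Ω 3 + (-1 / 362880 : ℂ) • tq Ω 3

/-- The commutator of `∂_l` and the exponent. -/
def kap (Ω : Matrix (Fin n) (Fin n) (A →L[ℂ] A)) (l : Fin n) : Op n A :=
  (-1 / 24 : ℂ) • lin Ω 1 l + (1 / 1440 : ℂ) • lin Ω 2 l + (-1 / 60480 : ℂ) • lin Ω 3 l

/-- The commutator of `nn` and the exponent. -/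
def N1 (Ω : Matrix (Fin n) (Fin n) (A →L[ℂ] A)) : Op n A :=
  (-1 / 12 : ℂ) • qd Ω 1 + (-1 / 12 : ℂ) • tq Ω 1 + (1 / 360 : ℂ) • qd Ω 2 +
    (1 / 720 : ℂ) • tq Ω 2 + (-1 / 10080 : ℂ) • qd Ω 3 + (-1 / 30240 : ℂ) • tq Ω 3

/-- The commutator of `eu` and the exponent. -/
def E1 (Ω : Matrix (Fin n) (Fin n) (A →L[ℂ] A)) : Op n A :=
  (-1 / 24 : ℂ) • qd Ω 1 + (1 / 1440 : ℂ) • qd Ω 2 + (-1 / 60480 : ℂ) • qd Ω 3

private theorem up_pow_cst (m : ℕ) (T : Module.End ℂ (Pl n A)) :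
    (cst T * up ^ m : Op n A) = up ^ m * cst T := by
  have h : Commute (cst T : Op n A) up := cst_up T
  exact (h.pow_right m).eq

private theorem pow_comm_of {R : Type*} [Ring R] (M : Matrix (Fin n) (Fin n) R) (x : R)
    (h : ∀ a b, M a b * x = x * M a b) (k : ℕ) (a b : Fin n) :
    (M ^ k) a b * x = x * (M ^ k) a b := by
  induction k generalizing a b with
  | zero =>
    rw [pow_zero, Matrix.one_apply]
    split <;> simp
  | succ k ih =>
    rw [pow_succ, Matrix.mul_apply, Finset.sum_mul, Finset.mul_sum]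
    refine Finset.sum_congr rfl fun q _ => ?_
    rw [mul_assoc, h q b, ← mul_assoc, ih a q, mul_assoc]

theorem Oz_pow (Ω : Matrix (Fin n) (Fin n) (A →L[ℂ] A)) (k : ℕ) (i j : Fin n) :
    (Oz Ω ^ k) i j = up ^ (2 * k) * cst (cz ((Ω ^ k) i j)) := by
  induction k generalizing i j with
  | zero =>
    rw [pow_zero, pow_zero, pow_zero, one_mul, Matrix.one_apply, Matrix.one_apply]
    split
    · rw [cz_one, cst_one]
    · rw [cz_zero, cst_zero]
  | succ k ih =>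
    rw [pow_succ, pow_succ, Matrix.mul_apply, Matrix.mul_apply, cz_sum, cst_sum, Finset.mul_sum]
    refine Finset.sum_congr rfl fun q _ => ?_
    rw [ih i q, cz_mul, cst_mul]
    unfold Oz
    rw [mul_assoc, ← mul_assoc (cst (cz ((Ω ^ k) i q))), up_pow_cst, mul_assoc (up ^ 2),
      ← mul_assoc (up ^ (2 * k)), ← pow_add]
    rfl

private theorem cs_Oz_pow (Ω : Matrix (Fin n) (Fin n) (A →L[ℂ] A)) (k : ℕ) (i j : Fin n) :
    Cs (4 * k) ((Oz Ω ^ (2 * k)) i j) := by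
  rw [Oz_pow]
  have h := ((cs_up (n := n) (A := A)).pow (2 * (2 * k))).mul
    (cs_cst (cz ((Ω ^ (2 * k)) i j)))
  exact h.mono (by omega)

theorem cs_qd (Ω : Matrix (Fin n) (Fin n) (A →L[ℂ] A)) (k : ℕ) : Cs (4 * k) (qd Ω k) := by
  unfold qd
  refine Cs.sum _ _ fun i _ => Cs.sum _ _ fun j _ => ?_
  have h := ((cs_cst (mz i : Module.End ℂ (Pl n A))).mul (cs_cst (mz j))).mul (cs_Oz_pow Ω k i j)
  exact h.mono (by omega)

private theorem cs_tq (Ω : Matrix (Fin n) (Fin n) (A →L[ℂ] A)) (k : ℕ) : Cs (4 * k) (tq Ω k) := by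
  unfold tq Matrix.trace
  refine Cs.sum _ _ fun i _ => ?_
  exact cs_Oz_pow Ω k i i

theorem cs_mehler (Ω : Matrix (Fin n) (Fin n) (A →L[ℂ] A)) : Cs 1 (mehler Ω) := by
  unfold mehler
  have q : ∀ k, 1 ≤ k → Cs 1 (qd Ω k) := fun k hk => (cs_qd Ω k).mono (by omega)
  have t : ∀ k, 1 ≤ k → Cs 1 (tq Ω k) := fun k hk => (cs_tq Ω k).mono (by omega)
  exact ((((((q 1 (by omega)).smul _).add ((t 1 (by omega)).smul _)).add
    ((q 2 (by omega)).smul _)).add ((t 2 (by omega)).smul _)).add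
    ((q 3 (by omega)).smul _)).add ((t 3 (by omega)).smul _)

variable {Ω : Matrix (Fin n) (Fin n) (A →L[ℂ] A)}

/-- entries of powers commute -/
theorem Om_comm (hc : ∀ a b c d, Ω a b * Ω c d = Ω c d * Ω a b) (k l : ℕ) (a b c d : Fin n) :
    (Ω ^ k) a b * (Ω ^ l) c d = (Ω ^ l) c d * (Ω ^ k) a b := by
  refine pow_comm_of Ω _ (fun a b => ?_) k a b
  exact (pow_comm_of Ω (Ω a b) (fun c d => hc c d a b) l c d).symm

private theorem Om_flip (hΩ : ∀ a b, Ω a b = - Ω b a)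
    (hc : ∀ a b c d, Ω a b * Ω c d = Ω c d * Ω a b) (k : ℕ) (i j : Fin n) :
    (Ω ^ k) i j = (-1) ^ k * (Ω ^ k) j i := by
  induction k generalizing i j with
  | zero => simp [Matrix.one_apply, eq_comm]
  | succ k ih =>
    rw [pow_succ Ω k, Matrix.mul_apply, ← pow_succ, pow_succ' Ω k, Matrix.mul_apply,
      Finset.mul_sum]
    refine Finset.sum_congr rfl fun q _ => ?_
    rw [ih i q, hΩ q j, pow_succ, mul_assoc, mul_neg]
    have h := pow_comm_of Ω (Ω j q) (fun c d => hc c d j q) k q i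
    rw [h]
    noncomm_ring

theorem Om_symm (hΩ : ∀ a b, Ω a b = - Ω b a)
    (hc : ∀ a b c d, Ω a b * Ω c d = Ω c d * Ω a b) (k : ℕ) (i j : Fin n) :
    (Ω ^ (2 * k)) i j = (Ω ^ (2 * k)) j i := by
  rw [Om_flip hΩ hc (2 * k) i j, (even_two_mul k).neg_one_pow, one_mul]

private theorem comm_qd {T : Op n A} (hz : ∀ i, T * zz i = zz i * T)
    (hO : ∀ i j, T * Oz Ω i j = Oz Ω i j * T) (k : ℕ) : Commute T (qd Ω k) := by
  unfold qd
  refine Commute.sum_right _ _ _ fun i _ => Commute.sum_right _ _ _ fun j _ => ?_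
  refine Commute.mul_right (Commute.mul_right (hz i) (hz j)) ?_
  exact (pow_comm_of (Oz Ω) T (fun a b => (hO a b).symm) (2 * k) i j).symm

private theorem comm_tq {T : Op n A}
    (hO : ∀ i j, T * Oz Ω i j = Oz Ω i j * T) (k : ℕ) : Commute T (tq Ω k) := by
  unfold tq Matrix.trace
  refine Commute.sum_right _ _ _ fun i _ => ?_
  exact (pow_comm_of (Oz Ω) T (fun a b => (hO a b).symm) (2 * k) i i).symm

/-- operators commuting with the exponent and with `kap` -/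
theorem comm_mehler {T : Op n A} (hz : ∀ i, T * zz i = zz i * T)
    (hO : ∀ i j, T * Oz Ω i j = Oz Ω i j * T) : T * mehler Ω = mehler Ω * T := by
  have q := comm_qd (Ω := Ω) hz hO
  have t := comm_tq (Ω := Ω) hO
  unfold mehler
  exact (((((((q 1).smul_right _).add_right ((t 1).smul_right _)).add_right
    ((q 2).smul_right _)).add_right ((t 2).smul_right _)).add_right
    ((q 3).smul_right _)).add_right ((t 3).smul_right _)).eq

theorem zz_zz (i j : Fin n) : (zz i * zz j : Op n A) = zz j * zz i := by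
  unfold zz
  rw [← cst_mul, ← cst_mul, mz_mz]

theorem zz_Oz (i a b : Fin n) : (zz i : Op n A) * Oz Ω a b = Oz Ω a b * zz i := by
  unfold zz Oz
  rw [← mul_assoc, up_pow_cst, mul_assoc, mul_assoc, ← cst_mul, ← cst_mul, mz_cz]

theorem dd_zz (i j : Fin n) : (dd i * zz j : Op n A) = zz j * dd i + if i = j then 1 else 0 := by
  unfold dd zz
  rw [← cst_mul, ← cst_mul, dl_mz, cst_add]
  split
  · rw [cst_one]
  · rw [cst_zero]

theorem dd_Oz (i a b : Fin n) : (dd i : Op n A) * Oz Ω a b = Oz Ω a b * dd i := by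
  have h : (dl (bv i) * cz (Ω a b) : Module.End ℂ (Pl n A)) = cz (Ω a b) * dl (bv i) :=
    LinearMap.ext fun f => dl_cz (bv i) (Ω a b) f
  unfold dd Oz
  rw [← mul_assoc, up_pow_cst, mul_assoc, mul_assoc, ← cst_mul, ← cst_mul, h]

theorem Oz_Oz (hc : ∀ a b c d, Ω a b * Ω c d = Ω c d * Ω a b) (a b c d : Fin n) :
    Oz Ω a b * Oz Ω c d = Oz Ω c d * Oz Ω a b := by
  have key : ∀ a b c d : Fin n, Oz Ω a b * Oz Ω c d =
      up ^ 2 * (up ^ 2 * cst (cz (Ω a b * Ω c d))) := by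
    intro a b c d
    unfold Oz
    rw [mul_assoc, ← mul_assoc (cst (cz (Ω a b))), up_pow_cst, mul_assoc (up ^ 2), ← cst_mul,
      ← cz_mul]
  rw [key a b c d, key c d a b, hc]

theorem zz_mehler (i : Fin n) : (zz i : Op n A) * mehler Ω = mehler Ω * zz i :=
  comm_mehler (fun j => zz_zz i j) (fun a b => zz_Oz i a b)

theorem Oz_mehler (hc : ∀ a b c d, Ω a b * Ω c d = Ω c d * Ω a b) (a b : Fin n) :
    Oz Ω a b * mehler Ω = mehler Ω * Oz Ω a b :=
  comm_mehler (fun j => (zz_Oz j a b).symm) (fun c d => Oz_Oz hc a b c d)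

private theorem mehler_Ozp (hc : ∀ a b c d, Ω a b * Ω c d = Ω c d * Ω a b) (k : ℕ) (a b : Fin n) :
    Commute ((Oz Ω ^ k) a b) (mehler Ω) :=
  pow_comm_of (Oz Ω) (mehler Ω) (fun a b => Oz_mehler hc a b) k a b

private theorem mehler_qd (hc : ∀ a b c d, Ω a b * Ω c d = Ω c d * Ω a b) (k : ℕ) :
    Commute (qd Ω k) (mehler Ω) := by
  unfold qd
  refine Commute.sum_left _ _ _ fun i _ => Commute.sum_left _ _ _ fun j _ => ?_
  exact Commute.mul_left (Commute.mul_left (zz_mehler i) (zz_mehler j))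
    (mehler_Ozp hc (2 * k) i j)

private theorem mehler_tq (hc : ∀ a b c d, Ω a b * Ω c d = Ω c d * Ω a b) (k : ℕ) :
    Commute (tq Ω k) (mehler Ω) := by
  unfold tq Matrix.trace
  exact Commute.sum_left _ _ _ fun i _ => mehler_Ozp hc (2 * k) i i

private theorem mehler_lin (hc : ∀ a b c d, Ω a b * Ω c d = Ω c d * Ω a b) (k : ℕ) (l : Fin n) :
    Commute (lin Ω k l) (mehler Ω) := by
  unfold lin
  exact Commute.sum_left _ _ _ fun j _ => Commute.mul_left (mehler_Ozp hc (2 * k) l j)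
    (zz_mehler j)

theorem kap_mehler (hc : ∀ a b c d, Ω a b * Ω c d = Ω c d * Ω a b) (l : Fin n) :
    kap Ω l * mehler Ω = mehler Ω * kap Ω l := by
  have h := mehler_lin hc
  unfold kap
  exact ((((h 1 l).smul_left _).add_left ((h 2 l).smul_left _)).add_left
    ((h 3 l).smul_left _)).eq

theorem NE_mehler (hc : ∀ a b c d, Ω a b * Ω c d = Ω c d * Ω a b) :
    N1 Ω * mehler Ω = mehler Ω * N1 Ω ∧ E1 Ω * mehler Ω = mehler Ω * E1 Ω := by
  have q := mehler_qd hc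
  have t := mehler_tq hc
  constructor
  · unfold N1
    exact (((((((q 1).smul_left _).add_left ((t 1).smul_left _)).add_left
      ((q 2).smul_left _)).add_left ((t 2).smul_left _)).add_left
      ((q 3).smul_left _)).add_left ((t 3).smul_left _)).eq
  · unfold E1
    exact ((((q 1).smul_left _).add_left ((q 2).smul_left _)).add_left
      ((q 3).smul_left _)).eq

private theorem dd_Ozp (k : ℕ) (l a b : Fin n) :
    (dd l : Op n A) * (Oz Ω ^ k) a b = (Oz Ω ^ k) a b * dd l :=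
  (pow_comm_of (Oz Ω) (dd l) (fun a b => (dd_Oz l a b).symm) k a b).symm

private theorem zz_Ozp (k : ℕ) (l a b : Fin n) :
    (zz l : Op n A) * (Oz Ω ^ k) a b = (Oz Ω ^ k) a b * zz l :=
  (pow_comm_of (Oz Ω) (zz l) (fun a b => (zz_Oz l a b).symm) k a b).symm

private theorem Ozp_symm (hΩ : ∀ a b, Ω a b = - Ω b a)
    (hc : ∀ a b c d, Ω a b * Ω c d = Ω c d * Ω a b) (k : ℕ) (i j : Fin n) :
    (Oz Ω ^ (2 * k)) i j = (Oz Ω ^ (2 * k)) j i := by
  rw [Oz_pow, Oz_pow, Om_symm hΩ hc]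

private theorem dd_qd (hΩ : ∀ a b, Ω a b = - Ω b a)
    (hc : ∀ a b c d, Ω a b * Ω c d = Ω c d * Ω a b) (k : ℕ) (l : Fin n) :
    dd l * qd Ω k = qd Ω k * dd l + (2 : ℂ) • lin Ω k l := by
  have h1 : ∀ i j : Fin n, dd l * (zz i * zz j * (Oz Ω ^ (2 * k)) i j) =
      zz i * zz j * (Oz Ω ^ (2 * k)) i j * dd l +
        ((if l = j then (Oz Ω ^ (2 * k)) i j * zz i else 0) +
          (if l = i then (Oz Ω ^ (2 * k)) i j * zz j else 0)) := by
    intro i j
    have e : dd l * (zz i * zz j * (Oz Ω ^ (2 * k)) i j) =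
        zz i * zz j * (dd l * (Oz Ω ^ (2 * k)) i j) +
        ((zz i * (dd l * zz j - zz j * dd l)) * (Oz Ω ^ (2 * k)) i j +
          ((dd l * zz i - zz i * dd l) * zz j) * (Oz Ω ^ (2 * k)) i j) := by noncomm_ring
    rw [e, dd_zz, dd_zz, add_sub_cancel_left, add_sub_cancel_left, dd_Ozp, ← mul_assoc]
    congr 1
    congr 1
    · split_ifs
      · rw [mul_one, zz_Ozp]
      · simp
    · split_ifs
      · rw [one_mul, zz_Ozp]
      · simp
  unfold qd lin
  rw [Finset.mul_sum, Finset.sum_mul]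
  simp_rw [Finset.mul_sum, Finset.sum_mul, h1, Finset.sum_add_distrib]
  congr 1
  rw [two_smul]
  congr 1
  · refine Finset.sum_congr rfl fun i _ => ?_
    rw [Finset.sum_ite_eq]
    simp only [Finset.mem_univ, if_true]
    rw [Ozp_symm hΩ hc]
  · rw [Finset.sum_comm]
    refine Finset.sum_congr rfl fun j _ => ?_
    rw [Finset.sum_ite_eq]
    simp only [Finset.mem_univ, if_true]

private theorem dd_tq (k : ℕ) (l : Fin n) : (dd l : Op n A) * tq Ω k = tq Ω k * dd l :=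
  (comm_tq (fun a b => dd_Oz l a b) k).eq

theorem dd_mehler (hΩ : ∀ a b, Ω a b = - Ω b a)
    (hc : ∀ a b c d, Ω a b * Ω c d = Ω c d * Ω a b) (l : Fin n) :
    dd l * mehler Ω = mehler Ω * dd l + kap Ω l := by
  unfold mehler kap
  simp only [mul_add, add_mul, mul_smul_comm, smul_mul_assoc, dd_qd hΩ hc, dd_tq]
  module

private theorem nn_up_pow (m : ℕ) :
    (nn * up ^ m : Op n A) = up ^ m * nn + (m : ℂ) • up ^ m := by
  induction m with
  | zero => simp
  | succ m ih =>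
    rw [pow_succ, ← mul_assoc, ih, add_mul, mul_assoc, nn_up, mul_add, smul_mul_assoc]
    push_cast
    rw [← mul_assoc]
    module

private theorem nn_Ozp (k : ℕ) (a b : Fin n) :
    nn * (Oz Ω ^ k) a b = (Oz Ω ^ k) a b * nn + (2 * k : ℂ) • (Oz Ω ^ k) a b := by
  rw [Oz_pow, ← mul_assoc, nn_up_pow, add_mul, mul_assoc, nn_cst, smul_mul_assoc, ← mul_assoc]
  push_cast
  rfl

private theorem nn_qd (k : ℕ) : nn * qd Ω k = qd Ω k * nn + (4 * k : ℂ) • qd Ω k := by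
  have hz : ∀ i : Fin n, (nn * zz i : Op n A) = zz i * nn := fun i => nn_cst _
  unfold qd
  rw [Finset.mul_sum, Finset.sum_mul, Finset.smul_sum, ← Finset.sum_add_distrib]
  refine Finset.sum_congr rfl fun i _ => ?_
  rw [Finset.mul_sum, Finset.sum_mul, Finset.smul_sum, ← Finset.sum_add_distrib]
  refine Finset.sum_congr rfl fun j _ => ?_
  rw [← mul_assoc, ← mul_assoc, hz, mul_assoc (zz i) nn, hz, ← mul_assoc, mul_assoc _ nn, nn_Ozp,
    mul_add, mul_smul_comm, ← mul_assoc]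
  congr 2
  push_cast
  ring

private theorem nn_tq (k : ℕ) : nn * tq Ω k = tq Ω k * nn + (4 * k : ℂ) • tq Ω k := by
  unfold tq Matrix.trace
  rw [Finset.mul_sum, Finset.sum_mul, Finset.smul_sum, ← Finset.sum_add_distrib]
  refine Finset.sum_congr rfl fun i _ => ?_
  rw [Matrix.diag_apply, nn_Ozp]
  congr 2
  push_cast
  ring

theorem nn_mehler : nn * mehler Ω = mehler Ω * nn + N1 Ω := by
  unfold mehler N1
  simp only [mul_add, add_mul, mul_smul_comm, smul_mul_assoc, nn_qd, nn_tq]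
  push_cast
  module

private theorem cst_eu : (cst eu : Op n A) = ∑ i, zz i * dd i := by
  unfold eu
  rw [cst_sum]
  rfl

private theorem eu_zz (j : Fin n) : (cst eu * zz j : Op n A) = zz j * cst eu + zz j := by
  rw [cst_eu, Finset.sum_mul, Finset.mul_sum]
  have : ∀ i : Fin n, (zz i * dd i * zz j : Op n A) = zz j * (zz i * dd i) +
      if i = j then zz i else 0 := by
    intro i
    rw [mul_assoc, dd_zz, mul_add, ← mul_assoc, zz_zz i j, mul_assoc]
    split <;> simp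
  simp_rw [this]
  rw [Finset.sum_add_distrib, Finset.sum_ite_eq']
  simp

private theorem eu_Oz (a b : Fin n) : (cst eu : Op n A) * Oz Ω a b = Oz Ω a b * cst eu := by
  rw [cst_eu, Finset.sum_mul, Finset.mul_sum]
  refine Finset.sum_congr rfl fun i _ => ?_
  rw [mul_assoc, dd_Oz, ← mul_assoc, zz_Oz, mul_assoc]

private theorem eu_qd (k : ℕ) : cst eu * qd Ω k = qd Ω k * cst eu + (2 : ℂ) • qd Ω k := by
  have hO : ∀ i j, (cst eu : Op n A) * (Oz Ω ^ (2 * k)) i j = (Oz Ω ^ (2 * k)) i j * cst eu :=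
    fun i j => (pow_comm_of (Oz Ω) (cst eu) (fun a b => (eu_Oz a b).symm) (2 * k) i j).symm
  unfold qd
  rw [Finset.mul_sum, Finset.sum_mul, Finset.smul_sum, ← Finset.sum_add_distrib]
  refine Finset.sum_congr rfl fun i _ => ?_
  rw [Finset.mul_sum, Finset.sum_mul, Finset.smul_sum, ← Finset.sum_add_distrib]
  refine Finset.sum_congr rfl fun j _ => ?_
  have e : cst eu * (zz i * zz j * (Oz Ω ^ (2 * k)) i j) =
      zz i * zz j * (cst eu * (Oz Ω ^ (2 * k)) i j) +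
      ((zz i * (cst eu * zz j - zz j * cst eu)) * (Oz Ω ^ (2 * k)) i j +
        ((cst eu * zz i - zz i * cst eu) * zz j) * (Oz Ω ^ (2 * k)) i j) := by noncomm_ring
  rw [e, eu_zz, eu_zz, add_sub_cancel_left, add_sub_cancel_left, hO, ← mul_assoc, two_smul]

private theorem eu_tq (k : ℕ) : cst eu * tq Ω k = tq Ω k * cst eu :=
  (comm_tq (fun a b => eu_Oz a b) k).eq

theorem eu_mehler : cst eu * mehler Ω = mehler Ω * cst eu + E1 Ω := by
  unfold mehler E1
  simp only [mul_add, add_mul, mul_smul_comm, smul_mul_assoc, eu_qd, eu_tq]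
  module

theorem F_mehler {F : A →L[ℂ] A} (hF : ∀ a b, Ω a b * F = F * Ω a b) :
    (up ^ 2 * cst (cz F)) * mehler Ω = mehler Ω * (up ^ 2 * cst (cz F)) := by
  refine comm_mehler (fun j => ?_) (fun a b => ?_)
  · unfold zz
    rw [← mul_assoc, up_pow_cst, mul_assoc, mul_assoc, ← cst_mul, ← cst_mul, mz_cz]
  · unfold Oz
    rw [mul_assoc, ← mul_assoc (cst (cz F)), up_pow_cst, mul_assoc (up ^ 2) (cst (cz (Ω a b))),
      ← mul_assoc (cst (cz (Ω a b))), up_pow_cst, mul_assoc (up ^ 2) (cst (cz F)),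
      mul_assoc (up ^ 2) (cst (cz (Ω a b))), ← cst_mul, ← cst_mul, ← cz_mul, ← cz_mul, hF]

private theorem dd_lin (k : ℕ) (l : Fin n) :
    dd l * lin Ω k l = lin Ω k l * dd l + (Oz Ω ^ (2 * k)) l l := by
  unfold lin
  rw [Finset.mul_sum, Finset.sum_mul]
  have : ∀ j : Fin n, dd l * ((Oz Ω ^ (2 * k)) l j * zz j) =
      (Oz Ω ^ (2 * k)) l j * zz j * dd l + if l = j then (Oz Ω ^ (2 * k)) l j else 0 := by
    intro j
    rw [← mul_assoc, dd_Ozp, mul_assoc, dd_zz, mul_add, ← mul_assoc]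
    split <;> simp
  simp_rw [this]
  rw [Finset.sum_add_distrib, Finset.sum_ite_eq]
  simp

theorem dd_kap (l : Fin n) : dd l * kap Ω l = kap Ω l * dd l +
    ((-1 / 24 : ℂ) • (Oz Ω ^ 2) l l + (1 / 1440 : ℂ) • (Oz Ω ^ 4) l l +
      (-1 / 60480 : ℂ) • (Oz Ω ^ 6) l l) := by
  have h1 : dd l * lin Ω 1 l = lin Ω 1 l * dd l + (Oz Ω ^ 2) l l := dd_lin 1 l
  have h2 : dd l * lin Ω 2 l = lin Ω 2 l * dd l + (Oz Ω ^ 4) l l := dd_lin 2 l
  have h3 : dd l * lin Ω 3 l = lin Ω 3 l * dd l + (Oz Ω ^ 6) l l := dd_lin 3 l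
  unfold kap
  simp only [mul_add, add_mul, mul_smul_comm, smul_mul_assoc, h1, h2, h3]
  module

end Pool.Agent.EXO.L
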