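import Pool.Agent.EXO.LMehA

/-!
# EXO / LMehB : Mehler's formula, the quadratic identity (IDX-L)

`bet l = -½ ζ_l + ¼ ∑_m O_lm ζ_m + kap l` (all factors commute).  With `S = a₁O² + a₂O⁴ + a₃O⁶`,
`a = (1/12, -1/720, 1/30240)`, `bet = -½ (1 + S - ½ O) ζ` (`kap = -½ S ζ`), so, as `Oᵀ = -O`, `Sᵀ = S`,
`∑_l bet_l² = ¼ ζᵀ (1 + S + ½O)(1 + S - ½O) ζ = ¼ ζᵀ((1 + S)² - ¼ O²)ζ`
`= ¼ ζᵀζ + (a₁/2 - 1/16) qd 1 + (a₂/2 + a₁²/4) qd 2 + (a₃/2 + a₁a₂/2) qd 3 + ¼(2a₁a₃ + a₂²) qd 4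
 + ½ a₂a₃ qd 5 + ¼ a₃² qd 6`
with the numbers below.

Suggestion.  Everything happens in a commutative ring.  Either take the commutative subalgebra
`Algebra.adjoin ℂ (range zz ∪ entries of Oz)` and use vectors and matrices over it (`Matrix.mulVec`,
`dotProduct_mulVec`, `vecMul`), or prove directly, for `u_k(l) := ∑_j (O^k)_lj ζ_j` (`k ≥ 0`), that
`∑_l u_j(l) * u_k(l) = (-1)^j ∑_l ζ_l * u_{j+k}(l)` (from `(O^j) l i = (-1)^j (O^j) i l`, commuting),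
that `∑_l ζ_l u_k(l)` is `0` for odd `k` (antisymmetry) and `qd (k/2)` for even `k`; then expand
`bet l = -½ (u_0 - ½ u_1 + a₁ u_2 + a₂ u_4 + a₃ u_6)`.
-/

set_option autoImplicit false
set_option maxSynthPendingDepth 3

open scoped ContDiff
open Finset

noncomputable section

namespace Pool.Agent.EXO.L

variable {n : ℕ} {A : Type*} [NormedAddCommGroup A] [NormedSpace ℂ A]
  {Ω : Matrix (Fin n) (Fin n) (A →L[ℂ] A)}

/-- The multiplication part of the conjugated covariant derivative. -/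
def bet (Ω : Matrix (Fin n) (Fin n) (A →L[ℂ] A)) (l : Fin n) : Op n A :=
  (-1 / 2 : ℂ) • zz l + (1 / 4 : ℂ) • ∑ m, Oz Ω l m * zz m + kap Ω l

section comm

variable {R : Type*} [Ring R] [Algebra ℂ R]

private def LMehB_q (v : Fin n → R) (O : Matrix (Fin n) (Fin n) R) (k : ℕ) : R :=
  ∑ i, ∑ j, v i * v j * (O ^ (2 * k)) i j

private def LMehB_lin (v : Fin n → R) (O : Matrix (Fin n) (Fin n) R) (k : ℕ) (l : Fin n) : R :=
  ∑ j, (O ^ (2 * k)) l j * v j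

private def LMehB_bt (v : Fin n → R) (O : Matrix (Fin n) (Fin n) R) (l : Fin n) : R :=
  (-1 / 2 : ℂ) • v l + (1 / 4 : ℂ) • ∑ m, O l m * v m +
    ((-1 / 24 : ℂ) • LMehB_lin v O 1 l + (1 / 1440 : ℂ) • LMehB_lin v O 2 l +
      (-1 / 60480 : ℂ) • LMehB_lin v O 3 l)

private def LMehB_rhs (v : Fin n → R) (O : Matrix (Fin n) (Fin n) R) : R :=
  (1 / 4 : ℂ) • ∑ i, v i * v i + (-1 / 48 : ℂ) • LMehB_q v O 1 +
      (1 / 960 : ℂ) • LMehB_q v O 2 + (-1 / 24192 : ℂ) • LMehB_q v O 3 +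
      (1 / 537600 : ℂ) • LMehB_q v O 4 +
      (-1 / 43545600 : ℂ) • LMehB_q v O 5 + (1 / 3657830400 : ℂ) • LMehB_q v O 6

variable {B : Type*} [CommRing B] [Algebra ℂ B]

private theorem LMehB_nat_q (f : B →ₐ[ℂ] R) (v : Fin n → B) (O : Matrix (Fin n) (Fin n) B)
    (k : ℕ) : f (LMehB_q v O k) = LMehB_q (fun i => f (v i)) (f.mapMatrix O) k := by
  simp only [LMehB_q, map_sum, map_mul, ← map_pow]
  rfl

private theorem LMehB_nat_lin (f : B →ₐ[ℂ] R) (v : Fin n → B) (O : Matrix (Fin n) (Fin n) B)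
    (k : ℕ) (l : Fin n) :
    f (LMehB_lin v O k l) = LMehB_lin (fun i => f (v i)) (f.mapMatrix O) k l := by
  simp only [LMehB_lin, map_sum, map_mul, ← map_pow]
  rfl

private theorem LMehB_nat_bt (f : B →ₐ[ℂ] R) (v : Fin n → B) (O : Matrix (Fin n) (Fin n) B)
    (l : Fin n) : f (LMehB_bt v O l) = LMehB_bt (fun i => f (v i)) (f.mapMatrix O) l := by
  simp only [LMehB_bt, map_add, map_smul, LMehB_nat_lin, map_sum, map_mul]
  rfl

private theorem LMehB_nat_rhs (f : B →ₐ[ℂ] R) (v : Fin n → B) (O : Matrix (Fin n) (Fin n) B) :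
    f (LMehB_rhs v O) = LMehB_rhs (fun i => f (v i)) (f.mapMatrix O) := by
  simp only [LMehB_rhs, map_add, map_smul, LMehB_nat_q, map_sum, map_mul]

/-- the quadratic form of a matrix -/
private def LMehB_Q (v : Fin n → B) : Matrix (Fin n) (Fin n) B →ₗ[ℂ] B where
  toFun M := ∑ i, ∑ j, v i * v j * M i j
  map_add' M N := by
    simp only [Matrix.add_apply, mul_add, Finset.sum_add_distrib]
  map_smul' c M := by
    simp only [Matrix.smul_apply, RingHom.id_apply, mul_smul_comm, Finset.smul_sum]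

private theorem LMehB_Q_mul (v : Fin n → B) (P : Matrix (Fin n) (Fin n) B) :
    ∑ l, (∑ i, P l i * v i) * (∑ i, P l i * v i) = LMehB_Q v (P.transpose * P) := by
  show _ = ∑ i, ∑ j, v i * v j * (P.transpose * P) i j
  simp only [Matrix.mul_apply, Matrix.transpose_apply, Finset.mul_sum, Finset.sum_mul]
  rw [Finset.sum_comm]
  refine Finset.sum_congr rfl fun i _ => ?_
  rw [Finset.sum_comm]
  refine Finset.sum_congr rfl fun j _ => ?_
  refine Finset.sum_congr rfl fun l _ => ?_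
  ring

private theorem LMehB_comm (v : Fin n → B) (O : Matrix (Fin n) (Fin n) B)
    (hO : O.transpose = -O) : ∑ l, LMehB_bt v O l * LMehB_bt v O l = LMehB_rhs v O := by
  obtain ⟨P, hP⟩ : ∃ P : Matrix (Fin n) (Fin n) B, P = (-1 / 2 : ℂ) • O ^ 0 + (1 / 4 : ℂ) • O ^ 1 +
    (-1 / 24 : ℂ) • O ^ 2 + (1 / 1440 : ℂ) • O ^ 4 + (-1 / 60480 : ℂ) • O ^ 6 := ⟨_, rfl⟩
  have h1 : ∀ l, LMehB_bt v O l = ∑ i, P l i * v i := by
    intro l
    rw [hP]
    simp only [Matrix.add_apply, Matrix.smul_apply, add_mul, Finset.sum_add_distrib,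
      smul_mul_assoc, ← Finset.smul_sum, pow_zero, pow_one, Matrix.one_apply, ite_mul, one_mul,
      zero_mul, Finset.sum_ite_eq, Finset.mem_univ, if_true]
    simp only [LMehB_bt, LMehB_lin]
    abel
  have hpow : ∀ k : ℕ, (O ^ k).transpose = (-1 : ℂ) ^ k • O ^ k := by
    intro k
    rw [Matrix.transpose_pow, hO, neg_pow, ← neg_one_smul ℂ (1 : Matrix (Fin n) (Fin n) B),
      smul_pow, one_pow, smul_mul_assoc, one_mul]
  have h2 : P.transpose = (-1 / 2 : ℂ) • O ^ 0 + (-1 / 4 : ℂ) • O ^ 1 +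
    (-1 / 24 : ℂ) • O ^ 2 + (1 / 1440 : ℂ) • O ^ 4 + (-1 / 60480 : ℂ) • O ^ 6 := by
    rw [hP]
    simp only [Matrix.transpose_add, Matrix.transpose_smul, hpow, smul_smul]
    norm_num
  have h3 : P.transpose * P = (1 / 4 : ℂ) • O ^ (2 * 0) + (-1 / 48 : ℂ) • O ^ (2 * 1) +
      (1 / 960 : ℂ) • O ^ (2 * 2) + (-1 / 24192 : ℂ) • O ^ (2 * 3) +
      (1 / 537600 : ℂ) • O ^ (2 * 4) +
      (-1 / 43545600 : ℂ) • O ^ (2 * 5) + (1 / 3657830400 : ℂ) • O ^ (2 * 6) := by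
    rw [h2, hP]
    simp only [mul_add, add_mul, smul_mul_smul_comm, ← pow_add]
    norm_num only
    module
  simp only [h1]
  rw [LMehB_Q_mul, h3]
  simp only [map_add, map_smul, LMehB_rhs]
  have h4 : ∀ k, LMehB_Q v (O ^ (2 * k)) = LMehB_q v O k := fun k => rfl
  have h5 : LMehB_Q v (O ^ (2 * 0)) = ∑ i, v i * v i := by
    show ∑ i, ∑ j, v i * v j * (O ^ (2 * 0)) i j = _
    simp [Matrix.one_apply]
  rw [h5]
  simp only [h4]

end comm

private theorem LMehB_gen {R : Type*} [Ring R] [Algebra ℂ R] (v : Fin n → R)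
    (O : Matrix (Fin n) (Fin n) R) (hO : ∀ a b, O a b = - O b a)
    (h1 : ∀ i j, v i * v j = v j * v i) (h2 : ∀ i a b, v i * O a b = O a b * v i)
    (h3 : ∀ a b c d, O a b * O c d = O c d * O a b) :
    ∑ l, LMehB_bt v O l * LMehB_bt v O l = LMehB_rhs v O := by
  obtain ⟨S, hS⟩ : ∃ S : Set R, S = Set.range v ∪ Set.range (fun p : Fin n × Fin n => O p.1 p.2) :=
    ⟨_, rfl⟩
  have hcomm : ∀ a ∈ S, ∀ b ∈ S, a * b = b * a := by
    rw [hS]
    rintro a (⟨i, rfl⟩ | ⟨p, rfl⟩) b (⟨j, rfl⟩ | ⟨r, rfl⟩)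
    · exact h1 i j
    · exact h2 i _ _
    · exact (h2 j _ _).symm
    · exact h3 _ _ _ _
  letI : CommRing (Algebra.adjoin ℂ S) := Algebra.adjoinCommRingOfComm ℂ hcomm
  have hv : ∀ i, v i ∈ Algebra.adjoin ℂ S := fun i =>
    Algebra.subset_adjoin (by rw [hS]; exact Or.inl ⟨i, rfl⟩)
  have hO' : ∀ a b, O a b ∈ Algebra.adjoin ℂ S := fun a b =>
    Algebra.subset_adjoin (by rw [hS]; exact Or.inr ⟨(a, b), rfl⟩)
  have key := LMehB_comm (B := Algebra.adjoin ℂ S) (fun i => ⟨v i, hv i⟩)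
    (Matrix.of fun a b => ⟨O a b, hO' a b⟩) (by
      ext a b
      exact hO b a)
  have key2 := congrArg (Algebra.adjoin ℂ S).val key
  rw [LMehB_nat_rhs, map_sum] at key2
  simp only [map_mul, LMehB_nat_bt] at key2
  exact key2

theorem sum_bet (hΩ : ∀ a b, Ω a b = - Ω b a)
    (hc : ∀ a b c d, Ω a b * Ω c d = Ω c d * Ω a b) :
    ∑ l, bet Ω l * bet Ω l = (1 / 4 : ℂ) • ∑ i, zz i * zz i + (-1 / 48 : ℂ) • qd Ω 1 +
      (1 / 960 : ℂ) • qd Ω 2 + (-1 / 24192 : ℂ) • qd Ω 3 + (1 / 537600 : ℂ) • qd Ω 4 +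
      (-1 / 43545600 : ℂ) • qd Ω 5 + (1 / 3657830400 : ℂ) • qd Ω 6 := by
  have h := LMehB_gen (R := Op n A) (fun i => zz i) (Oz Ω)
    (fun a b => by
      show up ^ 2 * cst (cz (Ω a b)) = -(up ^ 2 * cst (cz (Ω b a)))
      rw [hΩ a b, cz_neg, cst_neg]
      exact mul_neg _ _) (fun i j => zz_zz i j) (fun i a b => zz_Oz i a b) (fun a b c d => Oz_Oz hc a b c d)
  exact h

end Pool.Agent.EXO.L
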