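import Pool.Agent.EXO.LPl

/-!
# Project EXO, chunk IDX-L: operators on sequences of polynomial functions

* `cz a` apply the constant operator `a` to the values; `mz i` multiply by the coordinate `ζ_i`;
  `dl (bv i)` the partial derivative (file `LPl`); `eu` Euler field, `lap` Laplacian;
* on sequences: `up` the shift (multiplication by `σ`), `cst T` coefficientwise application,
  `nn` the counting operator, `mulS a` multiplication by a sequence of operator functions.
-/

set_option autoImplicit false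
set_option maxSynthPendingDepth 3

open scoped ContDiff
open Finset

noncomputable section

namespace Pool.Agent.EXO.L

variable {n : ℕ} {A B C : Type*} [NormedAddCommGroup A] [NormedSpace ℂ A]
  [NormedAddCommGroup B] [NormedSpace ℂ B] [NormedAddCommGroup C] [NormedSpace ℂ C]

/-! ### operators on polynomial functions -/

/-- Apply a constant operator to the values. -/
def cz (a : A →L[ℂ] B) : Pl n A →ₗ[ℂ] Pl n B := ml ⟨fun _ => a, (Homog.const a).mem⟩

theorem cz_apply (a : A →L[ℂ] B) (f : Pl n A) (z : En n) :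
    (cz a f : En n → B) z = a ((f : En n → A) z) := rfl

/-- The coordinate `ζ_i` as an operator-valued polynomial. -/
def coordP (i : Fin n) : Pl n (A →L[ℂ] A) :=
  ⟨fun z => (z i : ℂ) • ContinuousLinearMap.id ℂ A, by
    refine Homog.mem (d := 1) ⟨?_, ?_⟩
    · have h1 : ContDiff ℝ ∞ (fun z : En n => (z i : ℝ)) := by
        exact (EuclideanSpace.proj (𝕜 := ℝ) i).contDiff
      have h2 : ContDiff ℝ ∞ (fun z : En n => ((z i : ℝ) : ℂ)) := Complex.ofRealCLM.contDiff.comp h1
      exact h2.smul contDiff_const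
    · intro s z
      simp only [PiLp.smul_apply, smul_eq_mul, Complex.ofReal_mul, pow_one]
      rw [mul_smul]
      rfl⟩

/-- Multiplication by the coordinate `ζ_i`. -/
def mz (i : Fin n) : Module.End ℂ (Pl n A) := ml (coordP i)

theorem mz_apply (i : Fin n) (f : Pl n A) (z : En n) :
    (mz i f : En n → A) z = (z i : ℂ) • (f : En n → A) z := rfl

theorem mz_mz (i j : Fin n) : (mz i * mz j : Module.End ℂ (Pl n A)) = mz j * mz i := by
  ext f z
  simp only [Module.End.mul_apply, mz_apply]
  rw [smul_comm]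

theorem mz_cz (i : Fin n) (a : A →L[ℂ] A) :
    (mz i * cz a : Module.End ℂ (Pl n A)) = cz a * mz i := by
  ext f z
  simp only [Module.End.mul_apply, mz_apply, cz_apply, map_smul]

theorem cz_mul (a b : A →L[ℂ] A) : (cz (a * b) : Module.End ℂ (Pl n A)) = cz a * cz b := by
  ext f z
  simp only [Module.End.mul_apply, cz_apply, ContinuousLinearMap.mul_apply]

theorem cz_one : (cz (1 : A →L[ℂ] A) : Module.End ℂ (Pl n A)) = 1 := by
  ext f z
  simp only [Module.End.one_apply, cz_apply, ContinuousLinearMap.one_apply]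

theorem cz_zero : (cz (0 : A →L[ℂ] B) : Pl n A →ₗ[ℂ] Pl n B) = 0 := by
  ext f z
  simp only [cz_apply, LinearMap.zero_apply]
  rfl

theorem cz_add (a b : A →L[ℂ] B) : (cz (a + b) : Pl n A →ₗ[ℂ] Pl n B) = cz a + cz b := by
  ext f z
  simp only [cz_apply, LinearMap.add_apply, Submodule.coe_add, Pi.add_apply,
    ContinuousLinearMap.add_apply]

theorem cz_sub (a b : A →L[ℂ] B) : (cz (a - b) : Pl n A →ₗ[ℂ] Pl n B) = cz a - cz b := by
  ext f z
  simp only [cz_apply, LinearMap.sub_apply, AddSubgroupClass.coe_sub, Pi.sub_apply,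
    ContinuousLinearMap.sub_apply]

theorem cz_neg (a : A →L[ℂ] B) : (cz (-a) : Pl n A →ₗ[ℂ] Pl n B) = -cz a := by
  ext f z
  simp only [cz_apply, LinearMap.neg_apply, NegMemClass.coe_neg, Pi.neg_apply,
    ContinuousLinearMap.neg_apply]

theorem cz_smul (c : ℂ) (a : A →L[ℂ] B) : (cz (c • a) : Pl n A →ₗ[ℂ] Pl n B) = c • cz a := by
  ext f z
  simp only [cz_apply, LinearMap.smul_apply, SetLike.val_smul, Pi.smul_apply,
    ContinuousLinearMap.smul_apply]

theorem cz_sum {ι : Type*} (s : Finset ι) (a : ι → A →L[ℂ] B) :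
    (cz (∑ i ∈ s, a i) : Pl n A →ₗ[ℂ] Pl n B) = ∑ i ∈ s, cz (a i) := by
  classical
  induction s using Finset.induction_on with
  | empty => simp [cz_zero]
  | insert i s hi ih => rw [sum_insert hi, sum_insert hi, cz_add, ih]

/-- Constant functions. -/
def pc : A →ₗ[ℂ] Pl n A where
  toFun a := ⟨fun _ => a, (Homog.const a).mem⟩
  map_add' a b := rfl
  map_smul' c a := rfl

theorem pc_apply (a : A) (z : En n) : (pc a : Pl n A).1 z = a := rfl

theorem cz_pc (a : A →L[ℂ] B) (x : A) : cz a (pc x : Pl n A) = pc (a x) := rfl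

theorem dl_pc (v : En n) (x : A) : dl v (pc x : Pl n A) = 0 := by
  ext z
  rw [dl_apply]
  show fderiv ℝ (fun _ => x) z v = 0
  simp

theorem dl_cz (v : En n) (a : A →L[ℂ] B) (f : Pl n A) : dl v (cz a f) = cz a (dl v f) := by
  ext z
  rw [dl_apply, cz_apply, dl_apply]
  have h : HasFDerivAt (fun z => a ((f : En n → A) z))
      ((a.restrictScalars ℝ).comp (fderiv ℝ (f : En n → A) z)) z :=
    (a.restrictScalars ℝ).hasFDerivAt.comp z (Pl.differentiable f z).hasFDerivAt
  have h2 : (cz a f : En n → B) = fun z => a ((f : En n → A) z) := rfl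
  rw [h2, h.fderiv]
  rfl

theorem dl_mz (i j : Fin n) : (dl (bv i) * mz j : Module.End ℂ (Pl n A)) =
    mz j * dl (bv i) + if i = j then 1 else 0 := by
  ext f z
  have h1 : HasFDerivAt (fun z : En n => ((z j : ℝ) : ℂ))
      (Complex.ofRealCLM.comp (EuclideanSpace.proj (𝕜 := ℝ) j)) z :=
    Complex.ofRealCLM.hasFDerivAt.comp z (EuclideanSpace.proj (𝕜 := ℝ) j).hasFDerivAt
  have h2 := h1.smul (Pl.differentiable f z).hasFDerivAt
  have h3 : (mz j f : En n → A) = fun z => ((z j : ℝ) : ℂ) • (f : En n → A) z := rfl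
  simp only [Module.End.mul_apply, LinearMap.add_apply]
  rw [dl_apply, h3]
  erw [h2.fderiv]
  simp only [ContinuousLinearMap.add_apply, ContinuousLinearMap.smul_apply,
    Submodule.coe_add, Pi.add_apply, mz_apply, dl_apply, ContinuousLinearMap.smulRight_apply,
    ContinuousLinearMap.comp_apply, PiLp.proj_apply, Complex.ofRealCLM_apply]
  congr 1
  by_cases h : i = j
  · subst h
    simp [bv]
  · have : (bv i : En n) j = 0 := by simp [bv, Ne.symm h]
    rw [this]
    simp [h]

theorem dl_dl (v w : En n) : (dl v * dl w : Module.End ℂ (Pl n A)) = dl w * dl v := by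
  ext f z
  simp only [Module.End.mul_apply]
  have hc : ContDiff ℝ ∞ (f : En n → A) := Pl.contDiff f
  have hd : Differentiable ℝ (fderiv ℝ (f : En n → A)) :=
    (hc.fderiv_right (m := ∞) (by simp)).differentiable (by simp)
  have key : ∀ v w : En n, (dl v (dl w f) : En n → A) z =
      fderiv ℝ (fderiv ℝ (f : En n → A)) z v w := by
    intro v w
    rw [dl_apply]
    have h2 : (dl w f : En n → A) = fun z => fderiv ℝ (f : En n → A) z w := rfl
    rw [h2]
    have := (hd z).hasFDerivAt.clm_apply (hasFDerivAt_const w z)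
    rw [this.fderiv]
    simp
  rw [key, key]
  have hs : IsSymmSndFDerivAt ℝ (f : En n → A) z := by
    apply ContDiffAt.isSymmSndFDerivAt (hc.contDiffAt) (n := ∞)
    simp only [minSmoothness_of_isRCLikeNormedField]
    exact WithTop.coe_le_coe.2 le_top
  exact hs v w

/-- The Euler field `∑ ζ_i ∂_i`. -/
def eu : Module.End ℂ (Pl n A) := ∑ i, mz i * dl (bv i)

/-- The Laplacian `∑ ∂_i²`. -/
def lap : Module.End ℂ (Pl n A) := ∑ i, dl (bv i) * dl (bv i)

theorem dl_sum_bv (z : En n) (f : Pl n A) (x : En n) :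
    fderiv ℝ (f : En n → A) x z = ∑ i, (z i : ℂ) • (dl (bv i) f : En n → A) x := by
  have h : z = ∑ i, (z i : ℝ) • (bv i : En n) := by
    ext j
    simp [bv, Pi.single_apply]
  conv_lhs => rw [h]
  rw [map_sum]
  refine Finset.sum_congr rfl fun i _ => ?_
  rw [map_smul, dl_apply]
  rfl

theorem eu_apply (f : Pl n A) (z : En n) :
    (eu f : En n → A) z = fderiv ℝ (f : En n → A) z z := by
  rw [dl_sum_bv]
  simp only [eu, LinearMap.sum_apply, Module.End.mul_apply, AddSubmonoidClass.coe_finset_sum,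
    Finset.sum_apply, mz_apply]

theorem eu_homog {d : ℕ} (f : Pl n A) (hf : Homog d (f : En n → A)) : eu f = (d : ℂ) • f := by
  ext z
  rw [eu_apply, hf.euler]
  simp only [SetLike.val_smul, Pi.smul_apply]
  rfl

theorem lap_homog {d : ℕ} (f : Pl n A) (hf : Homog d (f : En n → A)) :
    Homog (d - 2) (lap f : En n → A) := by
  have : (lap f : En n → A) = ∑ i, (dl (bv i) (dl (bv i) f) : En n → A) := by
    ext z
    simp only [lap, LinearMap.sum_apply, Module.End.mul_apply, AddSubmonoidClass.coe_finset_sum,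
      Finset.sum_apply]
  rw [this]
  have hs : ∀ s : Finset (Fin n), Homog (d - 2) (∑ i ∈ s, (dl (bv i) (dl (bv i) f) : En n → A)) := by
    classical
    intro s
    induction s using Finset.induction_on with
    | empty => simpa using Homog.zero _
    | insert i s hi ih =>
      rw [sum_insert hi]
      refine Homog.add ?_ ih
      have h1 : Homog (d - 1) (dl (bv i) f : En n → A) := hf.dl (bv i)
      exact h1.dl (bv i)
  exact hs _

/-! ### operators on sequences -/

/-- Multiplication by `σ`. -/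
def up : Op n A where
  toFun P w := Nat.casesOn w 0 (fun w => P w)
  map_add' P Q := by funext w; cases w <;> simp
  map_smul' c P := by funext w; cases w <;> simp

@[simp] theorem up_zero (P : Sq n A) : up P 0 = 0 := rfl

@[simp] theorem up_succ (P : Sq n A) (w : ℕ) : up P (w + 1) = P w := rfl

theorem up_pow (r : ℕ) (P : Sq n A) (w : ℕ) :
    (up ^ r) P w = if r ≤ w then P (w - r) else 0 := by
  induction r generalizing P w with
  | zero => simp
  | succ r ih =>
    rw [pow_succ, Module.End.mul_apply, ih]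
    split_ifs with h1 h2 h2
    · obtain ⟨u, rfl⟩ : ∃ u, w = r + 1 + u := ⟨w - (r + 1), by omega⟩
      have e1 : r + 1 + u - r = u + 1 := by omega
      have e2 : r + 1 + u - (r + 1) = u := by omega
      rw [e1, e2, up_succ]
    · have : w - r = 0 := by omega
      rw [this, up_zero]
    · omega
    · rfl

/-- Coefficientwise application. -/
def cst (T : Pl n A →ₗ[ℂ] Pl n B) : Sq n A →ₗ[ℂ] Sq n B where
  toFun P w := T (P w)
  map_add' P Q := by funext w; simp
  map_smul' c P := by funext w; simp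

@[simp] theorem cst_apply (T : Pl n A →ₗ[ℂ] Pl n B) (P : Sq n A) (w : ℕ) : cst T P w = T (P w) := rfl

theorem cst_mul (S T : Module.End ℂ (Pl n A)) : (cst (S * T) : Op n A) = cst S * cst T := rfl

theorem cst_one : (cst (1 : Module.End ℂ (Pl n A)) : Op n A) = 1 := rfl

theorem cst_add (S T : Pl n A →ₗ[ℂ] Pl n B) : cst (S + T) = cst S + cst T := rfl

theorem cst_sub (S T : Pl n A →ₗ[ℂ] Pl n B) : cst (S - T) = cst S - cst T := rfl

theorem cst_neg (S : Pl n A →ₗ[ℂ] Pl n B) : cst (-S) = -cst S := rfl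

theorem cst_zero : cst (0 : Pl n A →ₗ[ℂ] Pl n B) = 0 := rfl

theorem cst_smul (c : ℂ) (S : Pl n A →ₗ[ℂ] Pl n B) : cst (c • S) = c • cst S := rfl

theorem cst_sum {ι : Type*} (s : Finset ι) (S : ι → Pl n A →ₗ[ℂ] Pl n B) :
    cst (∑ i ∈ s, S i) = ∑ i ∈ s, cst (S i) := by
  classical
  induction s using Finset.induction_on with
  | empty => simp [cst_zero]
  | insert i s hi ih => rw [sum_insert hi, sum_insert hi, cst_add, ih]

theorem cst_up (T : Module.End ℂ (Pl n A)) : (cst T * up : Op n A) = up * cst T := by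
  refine LinearMap.ext fun P => funext fun w => ?_
  cases w with
  | zero => simp [Module.End.mul_apply]
  | succ w => simp [Module.End.mul_apply]

/-- The counting operator. -/
def nn : Op n A where
  toFun P w := (w : ℂ) • P w
  map_add' P Q := by funext w; exact smul_add _ _ _
  map_smul' c P := by funext w; exact smul_comm (w : ℂ) c (P w)

@[simp] theorem nn_apply (P : Sq n A) (w : ℕ) : nn P w = (w : ℂ) • P w := rfl

theorem nn_cst (T : Module.End ℂ (Pl n A)) : (nn * cst T : Op n A) = cst T * nn := by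
  refine LinearMap.ext fun P => funext fun w => ?_
  simp [Module.End.mul_apply]

theorem nn_up : (nn * up : Op n A) = up * nn + up := by
  refine LinearMap.ext fun P => funext fun w => ?_
  cases w with
  | zero => simp [Module.End.mul_apply]
  | succ w =>
    simp only [Module.End.mul_apply, LinearMap.add_apply, Pi.add_apply, nn_apply, up_succ]
    push_cast
    rw [add_smul, one_smul]

/-- Sequence concentrated in weight `0`. -/
def s0 : Pl n A →ₗ[ℂ] Sq n A where
  toFun f w := if w = 0 then f else 0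
  map_add' f g := by funext w; by_cases h : w = 0 <;> simp [h]
  map_smul' c f := by funext w; by_cases h : w = 0 <;> simp [h]

theorem s0_apply (f : Pl n A) (w : ℕ) : s0 f w = if w = 0 then f else 0 := rfl

@[simp] theorem s0_zero (f : Pl n A) : s0 f 0 = f := rfl

@[simp] theorem s0_succ (f : Pl n A) (w : ℕ) : s0 f (w + 1) = 0 := rfl

theorem cst_s0 (T : Pl n A →ₗ[ℂ] Pl n B) (f : Pl n A) : cst T (s0 f) = s0 (T f) := by
  funext w
  cases w <;> simp

theorem nn_s0 (f : Pl n A) : nn (s0 f) = 0 := by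
  funext w
  cases w <;> simp

/-- Multiplication of sequences. -/
def mulS (a : Sq n (A →L[ℂ] B)) : Sq n A →ₗ[ℂ] Sq n B where
  toFun P w := ∑ ij ∈ antidiagonal w, ml (a ij.1) (P ij.2)
  map_add' P Q := by
    funext w
    show ∑ ij ∈ antidiagonal w, ml (a ij.1) (P ij.2 + Q ij.2) =
      ∑ ij ∈ antidiagonal w, ml (a ij.1) (P ij.2) + ∑ ij ∈ antidiagonal w, ml (a ij.1) (Q ij.2)
    rw [← sum_add_distrib]
    exact sum_congr rfl fun ij _ => (ml (a ij.1)).map_add _ _
  map_smul' c P := by
    funext w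
    show ∑ ij ∈ antidiagonal w, ml (a ij.1) (c • P ij.2) =
      c • ∑ ij ∈ antidiagonal w, ml (a ij.1) (P ij.2)
    rw [smul_sum]
    exact sum_congr rfl fun ij _ => (ml (a ij.1)).map_smul c _

theorem mulS_apply (a : Sq n (A →L[ℂ] B)) (P : Sq n A) (w : ℕ) :
    mulS a P w = ∑ ij ∈ antidiagonal w, ml (a ij.1) (P ij.2) := rfl

/-! ### causality, exponentials, filtrations -/

/-- `T` raises weights by at least `k`. -/
def Cs (k : ℕ) (T : Op n A) : Prop :=
  ∀ (P : Sq n A) (w : ℕ), (∀ u, u + k ≤ w → P u = 0) → T P w = 0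

/-- Formal exponential (meaningful for `Cs 1 B`). -/
def expS (B : Op n A) : Op n A where
  toFun P w := ∑ i ∈ range (w + 1), ((i.factorial : ℂ)⁻¹) • (B ^ i) P w
  map_add' P Q := by
    funext w
    show ∑ i ∈ range (w + 1), ((i.factorial : ℂ)⁻¹) • (B ^ i) (P + Q) w =
      ∑ i ∈ range (w + 1), ((i.factorial : ℂ)⁻¹) • (B ^ i) P w +
      ∑ i ∈ range (w + 1), ((i.factorial : ℂ)⁻¹) • (B ^ i) Q w
    rw [← sum_add_distrib]
    refine sum_congr rfl fun i _ => ?_
    rw [map_add, Pi.add_apply, smul_add]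
  map_smul' c P := by
    funext w
    show ∑ i ∈ range (w + 1), ((i.factorial : ℂ)⁻¹) • (B ^ i) (c • P) w =
      c • ∑ i ∈ range (w + 1), ((i.factorial : ℂ)⁻¹) • (B ^ i) P w
    rw [smul_sum]
    refine sum_congr rfl fun i _ => ?_
    rw [map_smul, Pi.smul_apply, smul_comm]

theorem expS_apply (B : Op n A) (P : Sq n A) (w : ℕ) :
    expS B P w = ∑ i ∈ range (w + 1), ((i.factorial : ℂ)⁻¹) • (B ^ i) P w := rfl

/-- Sequences with `P_w` taking values in `G (w + k)`. -/
def FS (G : ℕ → Submodule ℂ A) (k : ℕ) : Submodule ℂ (Sq n A) where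
  carrier := {P | ∀ w z, (P w : En n → A) z ∈ G (w + k)}
  zero_mem' := fun w z => (G (w + k)).zero_mem
  add_mem' := fun hP hQ w z => (G (w + k)).add_mem (hP w z) (hQ w z)
  smul_mem' := fun c _ hP w z => (G (w + k)).smul_mem c (hP w z)

theorem mem_FS {G : ℕ → Submodule ℂ A} {k : ℕ} {P : Sq n A} :
    P ∈ FS G k ↔ ∀ w z, (P w : En n → A) z ∈ G (w + k) := Iff.rfl

/-- Comparison of operators up to terms of lower filtration. -/
structure Rel (G : ℕ → Submodule ℂ A) (T S : Op n A) : Prop where
  l0 : ∀ P ∈ FS G 1, T P ∈ FS G 1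
  l1 : ∀ P ∈ FS G 0, T P ∈ FS G 0
  d : ∀ P ∈ FS G 1, (T - S) P ∈ FS G 0

/-! ### the model operator -/

/-- The model covariant derivatives. -/
def Dm (X : Fin n → A →L[ℂ] A) (Y : Fin n → Fin n → A →L[ℂ] A) (l : Fin n) : Op n A :=
  cst (dl (bv l)) - (1 / 2 : ℂ) • cst (mz l) + up * cst (cz (X l)) +
    up ^ 2 * cst (∑ m, mz m * cz (Y l m))

/-- The model operator (the harmonic oscillator in the trivial gauge). -/
def Tmod (X : Fin n → A →L[ℂ] A) (Y : Fin n → Fin n → A →L[ℂ] A) (F : A →L[ℂ] A) : Op n A :=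
  (1 / 2 : ℂ) • nn - (1 / 2 : ℂ) • cst eu - (n / 2 : ℂ) • 1 +
    (1 / 4 : ℂ) • cst (∑ i, mz i * mz i) - ∑ l, Dm X Y l ^ 2 + up ^ 2 * cst (cz F)

end Pool.Agent.EXO.L
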