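import Pool.Agent.EXO.LDefs

/-!
# Project EXO, chunk IDX-L: basic operators on polynomial functions
-/

set_option autoImplicit false
set_option maxSynthPendingDepth 3

open scoped ContDiff
open Finset

noncomputable section

namespace Pool.Agent.EXO.L

variable {n : ℕ} {A B : Type*} [NormedAddCommGroup A] [NormedSpace ℂ A]
  [NormedAddCommGroup B] [NormedSpace ℂ B]

namespace Homog

theorem zero (d : ℕ) : Homog d (0 : En n → A) :=
  ⟨contDiff_const, fun s z => by simp⟩

theorem add {d : ℕ} {f g : En n → A} (hf : Homog d f) (hg : Homog d g) : Homog d (f + g) :=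
  ⟨hf.1.add hg.1, fun s z => by simp [hf.2 s z, hg.2 s z, smul_add]⟩

theorem const (a : A) : Homog 0 (fun _ : En n => a) :=
  ⟨contDiff_const, fun s z => by simp⟩

theorem fderiv_smul {d : ℕ} {f : En n → A} (hf : Homog (d + 1) f) (s : ℝ) (z v : En n) :
    fderiv ℝ f (s • z) v = (s ^ d : ℝ) • fderiv ℝ f z v := by
  have h1 : ∀ s : ℝ, s • fderiv ℝ f (s • z) v = (s ^ (d + 1) : ℝ) • fderiv ℝ f z v := by
    intro s
    have hd : Differentiable ℝ f := hf.1.differentiable (by simp)
    have e1 : HasFDerivAt (fun z => f (s • z))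
        ((fderiv ℝ f (s • z)).comp (s • ContinuousLinearMap.id ℝ (En n))) z := by
      exact (hd (s • z)).hasFDerivAt.comp z ((s • ContinuousLinearMap.id ℝ (En n)).hasFDerivAt)
    have e2 : HasFDerivAt (fun z => f (s • z)) ((s ^ (d + 1) : ℝ) • fderiv ℝ f z) z := by
      have : (fun z => f (s • z)) = fun z => (s ^ (d + 1) : ℝ) • f z := funext fun z => hf.2 s z
      rw [this]
      exact (hd z).hasFDerivAt.const_smul _
    have := congrArg (fun L => L v) (e1.unique e2)
    simpa using this
  by_cases hs : s = 0
  · subst hs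
    -- continuity argument
    have hc1 : Continuous fun s : ℝ => fderiv ℝ f (s • z) v := by
      have : Continuous (fderiv ℝ f) := hf.1.continuous_fderiv (by simp)
      fun_prop
    have hc2 : Continuous fun s : ℝ => (s ^ d : ℝ) • fderiv ℝ f z v := by fun_prop
    have hall : ∀ s : ℝ, s ≠ 0 → fderiv ℝ f (s • z) v = (s ^ d : ℝ) • fderiv ℝ f z v := by
      intro s hs
      have := h1 s
      rw [pow_succ', mul_smul] at this
      exact smul_right_injective _ hs this
    have hd : Dense {s : ℝ | s ≠ 0} := dense_compl_singleton 0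
    have := Continuous.ext_on hd hc1 hc2 (fun s hs => hall s hs)
    exact congrFun this 0
  · have := h1 s
    rw [pow_succ', mul_smul] at this
    exact smul_right_injective _ hs this

theorem fderiv_zero {f : En n → A} (hf : Homog 0 f) (z v : En n) : fderiv ℝ f z v = 0 := by
  have : f = fun _ => f 0 := by
    ext z
    have := hf.2 0 z
    simpa using this.symm
  rw [this]; simp

/-- derivative of a homogeneous function -/
theorem dl {d : ℕ} {f : En n → A} (hf : Homog d f) (v : En n) :
    Homog (d - 1) (fun z => fderiv ℝ f z v) := by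
  refine ⟨?_, ?_⟩
  · have : ContDiff ℝ ∞ (fderiv ℝ f) := hf.1.fderiv_right (by simp)
    fun_prop
  · intro s z
    cases d with
    | zero => simp [fderiv_zero hf]
    | succ d => exact fderiv_smul hf s z v

/-- Euler's relation -/
theorem euler {d : ℕ} {f : En n → A} (hf : Homog d f) (z : En n) :
    fderiv ℝ f z z = (d : ℝ) • f z := by
  have hd : Differentiable ℝ f := hf.1.differentiable (by simp)
  have e1 : HasDerivAt (fun s : ℝ => f (s • z)) (fderiv ℝ f ((1 : ℝ) • z) z) 1 := by
    have h2 : HasDerivAt (fun s : ℝ => s • z) z 1 := by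
      simpa using (hasDerivAt_id (1 : ℝ)).smul_const z
    exact (hd _).hasFDerivAt.comp_hasDerivAt 1 h2
  have e2 : HasDerivAt (fun s : ℝ => f (s • z)) ((d : ℝ) • f z) 1 := by
    have : (fun s : ℝ => f (s • z)) = fun s => (s ^ d : ℝ) • f z := funext fun s => hf.2 s z
    rw [this]
    have := (hasDerivAt_pow d (1 : ℝ)).smul_const (f z)
    simpa using this
  simpa using e1.unique e2

end Homog

/-- Elements of `Pl` are smooth. -/
theorem Pl.contDiff (f : Pl n A) : ContDiff ℝ ∞ (f : En n → A) := by
  obtain ⟨D, p, hp, h⟩ := f.2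
  rw [h]
  have : (∑ d ∈ range D, p d) = fun z => ∑ d ∈ range D, p d z := by
    ext z; simp
  rw [this]
  exact ContDiff.sum fun d _ => (hp d).1

theorem Pl.differentiable (f : Pl n A) : Differentiable ℝ (f : En n → A) :=
  (Pl.contDiff f).differentiable (by simp)

theorem Homog.mem {d : ℕ} {f : En n → A} (hf : Homog d f) : f ∈ Pl n A := by
  classical
  refine ⟨d + 1, fun k => if k = d then f else 0, ?_, ?_⟩
  · intro k
    dsimp only
    split_ifs with h
    · subst h; exact hf
    · exact Homog.zero k
  · simp

theorem Pl.ext {f g : Pl n A} (h : ∀ z, (f : En n → A) z = (g : En n → A) z) : f = g :=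
  Subtype.ext (funext h)

/-- Induction principle: an additive predicate which holds for homogeneous functions. -/
theorem Pl.ind {p : (En n → A) → Prop} (h0 : ∀ d f, Homog d f → p f)
    (ha : ∀ f g, p f → p g → p (f + g)) (f : Pl n A) : p (f : En n → A) := by
  obtain ⟨D, q, hq, h⟩ := f.2
  rw [h]
  clear h
  induction D with
  | zero => simpa using h0 0 0 (Homog.zero 0)
  | succ D ih => rw [Finset.sum_range_succ]; exact ha _ _ ih (h0 D _ (hq D))

/-- Directional derivative. -/
def dl (v : En n) : Pl n A →ₗ[ℂ] Pl n A where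
  toFun f := ⟨fun z => fderiv ℝ (f : En n → A) z v, by
    obtain ⟨D, p, hp, h⟩ := f.2
    have : (fun z => fderiv ℝ (f : En n → A) z v) = ∑ d ∈ range D, fun z => fderiv ℝ (p d) z v := by
      ext z
      rw [h]
      have h1 : (∑ d ∈ range D, p d) = fun z => ∑ d ∈ range D, p d z := by
        ext z; simp
      rw [h1, fderiv_fun_sum (fun d _ => ((hp d).1.differentiable (by simp)) z)]
      simp
    rw [this]
    exact Submodule.sum_mem _ fun d _ => ((hp d).dl v).mem⟩
  map_add' f g := by
    apply Pl.ext
    intro z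
    simp only [Submodule.coe_add, Pi.add_apply]
    rw [fderiv_add (Pl.differentiable f z) (Pl.differentiable g z)]
    simp
  map_smul' c f := by
    apply Pl.ext
    intro z
    simp only [Submodule.coe_smul, Pi.smul_apply, RingHom.id_apply]
    rw [fderiv_const_smul (Pl.differentiable f z)]
    simp

theorem dl_apply (v : En n) (f : Pl n A) (z : En n) :
    (dl v f : En n → A) z = fderiv ℝ (f : En n → A) z v := rfl

/-- Multiplication of polynomial functions by polynomial operator functions. -/
def ml (a : Pl n (A →L[ℂ] B)) : Pl n A →ₗ[ℂ] Pl n B where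
  toFun f := ⟨fun z => (a : En n → A →L[ℂ] B) z ((f : En n → A) z), by
    obtain ⟨D, p, hp, h⟩ := f.2
    obtain ⟨D', p', hp', h'⟩ := a.2
    have : (fun z => (a : En n → A →L[ℂ] B) z ((f : En n → A) z))
        = ∑ d ∈ range D, ∑ d' ∈ range D', fun z => p' d' z (p d z) := by
      ext z
      rw [h, h']
      simp [Finset.sum_apply]
    rw [this]
    refine Submodule.sum_mem _ fun d _ => Submodule.sum_mem _ fun d' _ => ?_
    refine Homog.mem (d := d' + d) ⟨?_, ?_⟩
    · have h1 := (hp' d').1
      have h2 := (hp d).1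
      have h3 : ContDiff ℝ ∞ (fun q : (A →L[ℂ] B) × A => q.1 q.2) :=
        (isBoundedBilinearMap_apply (𝕜 := ℂ) (E := A) (F := B)).contDiff.restrict_scalars ℝ
      exact h3.comp (h1.prodMk h2)
    · intro s z
      dsimp only
      rw [(hp' d').2, (hp d).2, pow_add, mul_smul]
      have hc : ∀ (r : ℝ) (T : A →L[ℂ] B) (x : A), (r • T) x = r • T x := fun r T x => rfl
      have hd : ∀ (r : ℝ) (T : A →L[ℂ] B) (x : A), T (r • x) = r • T x := fun r T x => by
        have := T.map_smul (r : ℂ) x
        simpa using this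
      rw [hc, hd]⟩
  map_add' f g := by
    apply Pl.ext; intro z; simp
  map_smul' c f := by
    apply Pl.ext; intro z; simp

theorem ml_apply (a : Pl n (A →L[ℂ] B)) (f : Pl n A) (z : En n) :
    (ml a f : En n → B) z = (a : En n → A →L[ℂ] B) z ((f : En n → A) z) := rfl

end Pool.Agent.EXO.L
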