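import Pool.Agent.EXO.LgC

/-!
# EXO / LgD : the covariant derivative in the trivial gauge, first order (IDX-L)

`u` smooth with `Q u = u` on `V`, `Q = Λ(P) e`.
* `Q_idem'` etc: `Lam (P x)` and `cf (e x)` commute and are idempotent.
* `Q_td`: differentiate `Q u = u` along `V` (`td_congr`): `(∂_b Q) u + Q ∂_b u = ∂_b u`;
  `∂_b Q = (∂_b Λ(P)) e + Λ(P) (∂_b e)`; on `u = Λ(P) e u`:
  `(∂_b Λ(P)) e u = (∂_b Λ(P)) Λ(P) e u = dΛ(A_b) u` (`td_Lam`) and `Λ(P) (∂_b e) u = (∂_b e) u`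
  (`cf` commutes with `Lam`, `Λ(P) u = u`).  So `Q ∂_b u = ∂_b u - dΛ(A_b) u - (∂_b e) u` and
  `Q ∂_b u + A_b^E u = 𝒟_b u`.
* `Q_Db`: `Q 𝒟_b u = Q Q ∂_b u + Q (A^E_b u) = 𝒟_b u` (`Q cf(A_b) u = cf(A_b) u` from `e_A_left`).
* `opA_eq`: sum over `b`, `Q u = u`.
* `Db_tan`: `td_tan`, `Xi_tan`.
* `QS_opA`: `opA u = ∑ cv(bv b) 𝒟_b u + Ψ u`; use `∑_b cv(bv b) 𝒟_b u = ∑_b cv(P e_b) 𝒟_b u` (`Db_tan`, symmetry
  of `P`), `cv (P e_b)` commutes with `Q` (`Lam_cv_tan`, `cf_cv`), and `Q Ψ u = Ψ u` by `θ` tangential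
  (`Psi = ∑ hv (P e_a) cf θ_a`) and `e θ e = θ`.
* `contract`: `∑_b cv (bv b) * T_b = ∑_b cv (P e_b) * T_b` if `T_b = ∑_a (P e_b)_a T_a`.
-/

set_option autoImplicit false
set_option maxSynthPendingDepth 3

open scoped ContDiff
open Finset Matrix

noncomputable section

namespace Pool.Agent.EXO.L

variable {n M : ℕ} {V : Geo n M} {ι : Type} [Fintype ι] [DecidableEq ι]
  {E : Bd V ι} {θ : Fin M → En M → Matrix ι ι ℂ}

private theorem LgD_cf {f : En M → Matrix ι ι ℂ} (hf : ContDiff ℝ ∞ f) :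
    ContDiff ℝ ∞ (fun y => (cf (f y) : EH M ι)) := by
  obtain ⟨L, hL⟩ := cf_clm (M := M) (ι := ι)
  have h : (fun y => (cf (f y) : EH M ι)) = fun y => L (f y) := funext fun y => (hL (f y)).symm
  rw [h]
  exact L.contDiff.comp hf

theorem contDiff_Psi (hθ : ThOK V E θ) : ContDiff ℝ ∞ (Psi θ : En M → EH M ι) := by
  unfold Psi
  exact ContDiff.sum fun a _ => contDiff_const.mul (LgD_cf (hθ.smooth a))

theorem contDiff_Qx : ContDiff ℝ ∞ (Qx V E) := by
  unfold Qx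
  exact contDiff_Lam'.mul (LgD_cf E.smooth_e)

theorem contDiff_Db {u : En M → EH M ι} (hu : ContDiff ℝ ∞ u) (b : Fin M) :
    ContDiff ℝ ∞ (Db V E b u) := by
  unfold Db
  exact (contDiff_td hu b).add ((contDiff_Xi E b).mul hu)

theorem contDiff_opA (hθ : ThOK V E θ) {u : En M → EH M ι} (hu : ContDiff ℝ ∞ u) :
    ContDiff ℝ ∞ (opA V E θ u) := by
  unfold opA
  refine ContDiff.add (ContDiff.sum fun a _ => contDiff_const.mul
    (contDiff_Qx.mul (contDiff_td hu a))) ((ContDiff.mul (ContDiff.add ?_ (contDiff_Psi hθ))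
    contDiff_Qx).mul hu)
  exact ContDiff.sum fun a _ => contDiff_const.mul (LgD_cf (E.smooth_A a))

variable {x : En M}

private theorem LgD_bv (l : Fin M) (v : En M) : inner ℝ (bv l : En M) v = v l := by
  unfold bv
  rw [EuclideanSpace.inner_single_left]
  simp

private theorem LgD_exp (v : En M) : v = ∑ l, v l • (bv l : En M) := by
  ext b
  simp [bv, Pi.single_apply]

private theorem LgD_sym (hx : x ∈ V.carrier) (a b : Fin M) :
    V.P x (bv b) a = V.P x (bv a) b := by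
  rw [← LgD_bv a, ← LgD_bv b, ← V.P_sa x hx, real_inner_comm]

theorem LgD_sumP (hx : x ∈ V.carrier) (a : Fin M) :
    ∑ b, (V.P x (bv b) a) • (bv b : En M) = V.P x (bv a) := by
  conv_rhs => rw [LgD_exp (V.P x (bv a))]
  exact sum_congr rfl fun b _ => by rw [LgD_sym hx]

theorem LgD_contr (hx : x ∈ V.carrier) (f : En M → EH M ι)
    (hs : ∀ (g : Fin M → En M), f (∑ i, g i) = ∑ i, f (g i))
    (hm : ∀ (r : ℝ) (v : En M), f (r • v) = (r : ℂ) • f v) (T : Fin M → EH M ι)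
    (hT : ∀ b, ∑ a, ((V.P x (bv b) a : ℝ) : ℂ) • T a = T b) :
    ∑ b, f (bv b) * T b = ∑ b, f (V.P x (bv b)) * T b := by
  have h1 : ∀ b, f (bv b) * T b = ∑ a, (((V.P x (bv b) a : ℝ) : ℂ) • f (bv b)) * T a := by
    intro b
    conv_lhs => rw [← hT b, Finset.mul_sum]
    refine sum_congr rfl fun a _ => ?_
    rw [mul_smul_comm, smul_mul_assoc]
  rw [sum_congr rfl fun b _ => h1 b, Finset.sum_comm]
  refine sum_congr rfl fun a _ => ?_
  rw [← Finset.sum_mul, ← LgD_sumP hx a, hs]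
  congr 1
  exact sum_congr rfl fun b _ => (hm _ _).symm

/-- contraction with a tangential family of operators -/
theorem contract (hx : x ∈ V.carrier) (T : Fin M → EH M ι)
    (hT : ∀ b, ∑ a, ((V.P x (bv b) a : ℝ) : ℂ) • T a = T b) :
    ∑ b, cv (bv b) * T b = ∑ b, cv (V.P x (bv b)) * T b :=
  LgD_contr hx cv (fun g => cv_sum _ g) cv_smul T hT

/-- a general contraction rule: `∑ cv(P e_b) L(e_b) = ∑ cv(P e_b) L(P e_b)` -/
theorem contractL (hx : x ∈ V.carrier) (L : En M →L[ℝ] EH M ι) :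
    ∑ b, cv (V.P x (bv b)) * L (V.P x (bv b)) = ∑ b, cv (V.P x (bv b)) * L (bv b) := by
  have h1 : ∀ b, cv (V.P x (bv b)) * L (V.P x (bv b)) =
      ∑ a, cv ((V.P x (bv b) a) • V.P x (bv b)) * L (bv a) := by
    intro b
    have h2 : L (V.P x (bv b)) = ∑ a, (V.P x (bv b) a) • L (bv a) := by
      conv_lhs => rw [LgD_exp (V.P x (bv b)), map_sum]
      exact sum_congr rfl fun a _ => map_smul _ _ _
    rw [h2, Finset.mul_sum]
    refine sum_congr rfl fun a _ => ?_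
    rw [cv_smul, smul_mul_assoc, mul_smul_comm]
    rfl
  rw [sum_congr rfl fun b _ => h1 b, Finset.sum_comm]
  refine sum_congr rfl fun a _ => ?_
  rw [← Finset.sum_mul, ← cv_sum]
  have h3 : ∑ b, (V.P x (bv b) a) • V.P x (bv b) = V.P x (bv a) := by
    have h4 : ∑ b, (V.P x (bv b) a) • V.P x (bv b) = V.P x (∑ b, (V.P x (bv b) a) • bv b) := by
      rw [map_sum]
      exact sum_congr rfl fun b _ => (map_smul _ _ _).symm
    rw [h4, LgD_sumP hx, V.P_idem x hx]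
  rw [h3]

theorem Q_Q (hx : x ∈ V.carrier) : Qx V E x * Qx V E x = Qx V E x := by
  unfold Qx
  rw [mul_assoc, ← mul_assoc (cf (E.e x)), cf_Lam, mul_assoc, ← cf_mul, E.e_idem x hx, ← mul_assoc,
    Lam_Lam (isPr hx)]

theorem Q_cv (hx : x ∈ V.carrier) (v : En M) :
    Qx V E x * cv (V.P x v) = cv (V.P x v) * Qx V E x := by
  unfold Qx
  rw [mul_assoc, cf_cv, ← mul_assoc, Lam_cv_tan (isPr hx) (V.P_idem x hx v), mul_assoc]

theorem Q_hv (hx : x ∈ V.carrier) (v : En M) :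
    Qx V E x * hv (V.P x v) = hv (V.P x v) * Qx V E x := by
  unfold Qx
  rw [mul_assoc, cf_hv, ← mul_assoc, Lam_hv_tan (isPr hx) (V.P_idem x hx v), mul_assoc]

theorem Lam_QS {u : En M → EH M ι} (hx : x ∈ V.carrier) (hQ : QS V E u) :
    Lam (V.P x) * u x = u x := by
  have h := hQ x hx
  unfold Qx at h
  rw [← h, mul_assoc, ← mul_assoc (Lam (V.P x)) (Lam (V.P x)), Lam_Lam (isPr hx)]

theorem e_QS {u : En M → EH M ι} (hx : x ∈ V.carrier) (hQ : QS V E u) :
    cf (E.e x) * u x = u x := by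
  have h := hQ x hx
  unfold Qx at h
  rw [← h, ← cf_Lam, mul_assoc, ← mul_assoc (cf (E.e x)) (cf (E.e x)), ← cf_mul, E.e_idem x hx]

theorem Q_td (hloc : V.Loc) {u : En M → EH M ι} (hu : ContDiff ℝ ∞ u) (hQ : QS V E u)
    (hx : x ∈ V.carrier) (b : Fin M) :
    Qx V E x * td V b u x + cf (E.A b x) * u x = Db V E b u x := by
  have h1 : td V b (fun y => Qx V E y * u y) x = td V b u x :=
    td_congr hloc (contDiff_Qx.mul hu) hu hQ b hx
  rw [td_mul contDiff_Qx hu] at h1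
  have h2 : td V b (Qx V E) x = td V b (fun y => (Lam (V.P y) : EH M ι)) x * cf (E.e x) +
      Lam (V.P x) * cf (td V b E.e x) := by
    have h3 := td_mul (V := V) (contDiff_Lam' (V := V) (ι := ι)) (LgD_cf (M := M) E.smooth_e) b x
    rw [td_cf E.smooth_e] at h3
    exact h3
  have h4 : td V b (Qx V E) x * u x = dLam (Ab V b x) * u x + cf (td V b E.e x) * u x := by
    rw [h2, add_mul, mul_assoc, e_QS hx hQ, ← cf_Lam, mul_assoc, Lam_QS hx hQ]
    congr 1
    calc td V b (fun y => (Lam (V.P y) : EH M ι)) x * u x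
        = td V b (fun y => (Lam (V.P y) : EH M ι)) x * Lam (V.P x) * u x := by
          rw [mul_assoc, Lam_QS hx hQ]
      _ = dLam (Ab V b x) * u x := by rw [td_Lam hloc hx, mul_assoc, Lam_QS hx hQ]
  rw [h4] at h1
  unfold Db Xi
  have h5 := eq_sub_of_add_eq' h1
  rw [add_mul, sub_mul, neg_mul, h5]
  abel

private theorem LgD_QA {u : En M → EH M ι} (hx : x ∈ V.carrier) (hQ : QS V E u)
    {T : Matrix ι ι ℂ} (hT : E.e x * T = T) :
    Qx V E x * (cf T * u x) = cf T * u x := by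
  unfold Qx
  rw [mul_assoc, ← mul_assoc (cf (E.e x)), ← cf_mul, hT, ← mul_assoc, ← cf_Lam, mul_assoc,
    Lam_QS hx hQ]

theorem QS_Db (hloc : V.Loc) {u : En M → EH M ι} (hu : ContDiff ℝ ∞ u) (hQ : QS V E u)
    (b : Fin M) : QS V E (Db V E b u) := by
  intro x hx
  rw [← Q_td hloc hu hQ hx b, mul_add, ← mul_assoc, Q_Q hx, LgD_QA hx hQ (e_A_left E hx b)]

theorem Db_tan (u : En M → EH M ι) (hx : x ∈ V.carrier) (b : Fin M) :
    ∑ a, ((V.P x (bv b) a : ℝ) : ℂ) • Db V E a u x = Db V E b u x := by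
  unfold Db
  simp only [smul_add, Finset.sum_add_distrib]
  rw [← td_tan u hx b, ← Xi_tan E hx b, Finset.sum_mul]
  congr 1

theorem Db_congr (hloc : V.Loc) {u v : En M → EH M ι} (hu : ContDiff ℝ ∞ u)
    (hv : ContDiff ℝ ∞ v) (h : ∀ y ∈ V.carrier, u y = v y) (hx : x ∈ V.carrier) (b : Fin M) :
    Db V E b u x = Db V E b v x := by
  unfold Db
  rw [td_congr hloc hu hv h b hx, h x hx]

theorem opA_eq (hθ : ThOK V E θ) (hloc : V.Loc) {u : En M → EH M ι} (hu : ContDiff ℝ ∞ u)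
    (hQ : QS V E u) (hx : x ∈ V.carrier) :
    opA V E θ u x = ∑ b, cv (bv b) * Db V E b u x + Psi θ x * u x := by
  unfold opA
  have h1 : ∀ b, cv (bv b) * Db V E b u x = cv (bv b) * (Qx V E x * td V b u x) +
      cv (bv b) * cf (E.A b x) * u x := by
    intro b
    rw [← Q_td hloc hu hQ hx b, mul_add, mul_assoc (cv (bv b)) (cf (E.A b x))]
  rw [sum_congr rfl fun b _ => h1 b, Finset.sum_add_distrib, mul_assoc, hQ x hx, add_mul,
    Finset.sum_mul, add_assoc]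

theorem cv_Psi (v : En M) : (cv v * Psi θ x : EH M ι) = -(Psi θ x * cv v) := by
  unfold Psi
  rw [Finset.mul_sum, Finset.sum_mul, ← Finset.sum_neg_distrib]
  refine sum_congr rfl fun a _ => ?_
  rw [← mul_assoc, cv_hv, neg_mul, mul_assoc, ← cf_cv, mul_assoc]

theorem Psi_tan (hθ : ThOK V E θ) (hx : x ∈ V.carrier) :
    (Psi θ x : EH M ι) = ∑ a, hv (V.P x (bv a)) * cf (θ a x) := by
  unfold Psi
  refine LgD_contr hx hv (fun g => hv_sum _ g) hv_smul (fun a => cf (θ a x)) ?_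
  intro b
  have h := hθ.tan b x hx
  show ∑ a, ((V.P x (bv b) a : ℝ) : ℂ) • cf (θ a x) = (cf (θ b x) : EH M ι)
  conv_rhs => rw [← h, cf_sum]
  exact sum_congr rfl fun a _ => (cf_smul _ _).symm

theorem QS_opA (hθ : ThOK V E θ) (hloc : V.Loc) {u : En M → EH M ι} (hu : ContDiff ℝ ∞ u)
    (hQ : QS V E u) : QS V E (opA V E θ u) := by
  intro x hx
  rw [opA_eq hθ hloc hu hQ hx, contract hx (fun b => Db V E b u x) (Db_tan u hx), mul_add,
    Finset.mul_sum, Psi_tan hθ hx, Finset.sum_mul, Finset.mul_sum]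
  congr 1
  · refine sum_congr rfl fun b _ => ?_
    rw [← mul_assoc, Q_cv hx, mul_assoc, QS_Db hloc hu hQ b x hx]
  · refine sum_congr rfl fun a _ => ?_
    have h1 : E.e x * θ a x = θ a x := by
      have h2 := hθ.e a x hx
      rw [← h2, ← Matrix.mul_assoc, ← Matrix.mul_assoc, E.e_idem x hx]
    rw [mul_assoc, ← mul_assoc, Q_hv hx, mul_assoc, LgD_QA hx hQ h1]

end Pool.Agent.EXO.L
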