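import Pool.Agent.EXO.LCl
import Pool.Agent.EXO.LgD
import Pool.Agent.EXO.LgJ

/-!
# EXO / LSgA : the grading operator of the signature operator (IDX-L)

`V : OrGeo n M`, `n` even (stated for `n = 14`), `om x = clI (V.vol x)`.  At `x ∈ V`,
`V.vol x = ∏ of1 (v i)` with an orthonormal tangent basis `v`, `om x = ∏ cv (v i)` (`clI_prod`).
* `om_cv`: `P w = ∑ ⟨v_i, w⟩ v_i` (`P_eq_sum` of `LgJ`, or: the conclusion only for `w` in the span), `cv (v i)`
  anticommutes with `∏ cv (v j)` (`13` sign changes): `om * cv (P w) = -(cv (P w) * om)`.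
* `om_hv`: `14` sign changes: `om * hv w = hv w * om`.  `om_cf`, `om_Lam` (`Lam_cv_tan`).
* `om_sq`: `(c_1 ⋯ c_14)² = (-1)^(14·13/2) ∏ c_i² = (-1)^{91} (-1)^{14} = -1`.
* `om_adj`: the adjoint of `∏ cv (v i)` is `∏` in reverse order of `-cv (v i)`, `= (-1)^{91} ∏ cv (v i)`.
* `om_par`: `T = Λ(P) (∂_b om) Λ(P) = 0` at `x ∈ V` (`∂_b = td V b`).  Differentiate along `V` (`td_congr`):
  `om cv(P w) = - cv(P w) om` and compress with `Λ(P)`:
  `T cv(P w) + om Λ(P) cv(P_b w) Λ(P) = - cv(P w) T - Λ(P) cv(P_b w) Λ(P) om`, and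
  `Λ(P) cv(P_b w) Λ(P) = cv (P P_b w) Λ(P)` anticommutes with `om`; so `T` anticommutes with `cv (P w)`.
  Hence `T` commutes with `om = ∏ cv (v i)` (even number of factors, on `range Λ(P)`).
  From `om² = -1`: `(∂_b om) om + om (∂_b om) = 0`, so `T om + om T = 0`; together `2 om T = 0`, `T = 0` as
  `om² = -1`.
-/

set_option autoImplicit false
set_option maxSynthPendingDepth 3

open scoped ContDiff Topology
open Finset Matrix

noncomputable section

namespace Pool.Agent.EXO.L

variable {M : ℕ} {ι : Type} [Fintype ι] [DecidableEq ι] {V : OrGeo 14 M}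

/-! ### Products of Clifford operators -/

private theorem LSgA_prod {n : ℕ} (T : EH M ι) (A : Fin n → EH M ι) (s : Fin n → ℂ)
    (h : ∀ i, T * A i = s i • (A i * T)) :
    T * (List.ofFn A).prod = (∏ i, s i) • ((List.ofFn A).prod * T) := by
  induction n with
  | zero => simp
  | succ n ih =>
    rw [List.ofFn_succ, List.prod_cons, Fin.prod_univ_succ, ← mul_assoc, h 0, smul_mul_assoc,
      mul_assoc (A 0) T, ih (fun i => A i.succ) (fun i => s i.succ) (fun i => h i.succ),
      mul_smul_comm, smul_smul, mul_assoc]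

private theorem LSgA_cc {v w : En M} (h : inner ℝ v w = (0 : ℝ)) :
    (cv v * cv w : EH M ι) = -(cv w * cv v) := by
  have h1 := cv_cv (ι := ι) v w
  rw [h, mul_zero, Complex.ofReal_zero, zero_smul] at h1
  exact eq_neg_of_add_eq_zero_left h1

private theorem LSgA_sq {v : En M} (h : ‖v‖ = 1) : (cv v * cv v : EH M ι) = -1 := by
  have h1 := cv_cv (ι := ι) v v
  rw [real_inner_self_eq_norm_sq, h] at h1
  have h2 : (2 : ℂ) • (cv v * cv v : EH M ι) = (2 : ℂ) • (-1) := by
    rw [two_smul, h1]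
    norm_num
  exact smul_right_injective _ (two_ne_zero) h2

private theorem LSgA_adj (v : En M) :
    ContinuousLinearMap.adjoint (cv v : EH M ι) = -cv v := by
  unfold cv
  have h1 : ContinuousLinearMap.adjoint (epsv v : EH M ι) = iotav v := adjoint_epsv v
  have h2 : ContinuousLinearMap.adjoint (iotav v : EH M ι) = epsv v := by
    rw [← h1, ContinuousLinearMap.adjoint_adjoint]
  rw [map_sub, h1, h2, neg_sub]

/-- the sign of the square of a product of orthonormal Clifford operators -/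
private def LSgA_c (n : ℕ) : ℂ := ∏ i ∈ range n, (-1 : ℂ) ^ (i + 1)

private theorem LSgA_succ (n : ℕ) : LSgA_c (n + 1) = (-1 : ℂ) ^ (n + 1) * LSgA_c n := by
  unfold LSgA_c
  rw [Finset.prod_range_succ, mul_comm]

private theorem LSgA_14 : LSgA_c 14 = -1 := by
  unfold LSgA_c
  simp only [Finset.prod_range_succ, Finset.prod_range_zero]
  norm_num

private theorem LSgA_tail {n : ℕ} {v : Fin (n + 1) → En M} (hv : Orthonormal ℝ v) :
    Orthonormal ℝ fun i : Fin n => v i.succ :=
  hv.comp _ (Fin.succ_injective n)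

private theorem LSgA_move {n : ℕ} {v : Fin (n + 1) → En M} (hv : Orthonormal ℝ v) :
    (cv (v 0) * (List.ofFn fun i : Fin n => cv (v i.succ)).prod : EH M ι) =
      ((-1 : ℂ) ^ n) • ((List.ofFn fun i : Fin n => (cv (v i.succ) : EH M ι)).prod * cv (v 0)) := by
  have h := LSgA_prod (ι := ι) (cv (v 0)) (fun i : Fin n => cv (v i.succ)) (fun _ => -1)
    (fun i => by
      rw [neg_one_smul]
      exact LSgA_cc (hv.2 (Fin.succ_ne_zero i).symm))
  rw [Finset.prod_const, Finset.card_univ, Fintype.card_fin] at h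
  exact h

private theorem LSgA_square : ∀ {n : ℕ} {v : Fin n → En M}, Orthonormal ℝ v →
    ((List.ofFn fun i => cv (v i)).prod * (List.ofFn fun i => cv (v i)).prod : EH M ι) =
      LSgA_c n • 1 := by
  intro n
  induction n with
  | zero =>
    intro v _
    simp [LSgA_c]
  | succ n ih =>
    intro v hv
    have h1 := ih (LSgA_tail hv)
    have h2 := LSgA_move (ι := ι) hv
    rw [List.ofFn_succ, List.prod_cons]
    generalize (List.ofFn fun i : Fin n => (cv (v i.succ) : EH M ι)).prod = W at h1 h2 ⊢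
    have h3 : W * cv (v 0) = ((-1 : ℂ) ^ n) • (cv (v 0) * W) := by
      rw [h2, smul_smul, ← mul_pow]
      norm_num
    calc cv (v 0) * W * (cv (v 0) * W) = cv (v 0) * (W * cv (v 0)) * W := by
          simp only [mul_assoc]
      _ = ((-1 : ℂ) ^ n) • ((cv (v 0) * cv (v 0)) * (W * W)) := by
          rw [h3, mul_smul_comm, smul_mul_assoc]
          simp only [mul_assoc]
      _ = LSgA_c (n + 1) • 1 := by
          rw [LSgA_sq (hv.1 0), h1, LSgA_succ, neg_one_mul, ← neg_smul, smul_smul]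
          congr 1
          rw [pow_succ]
          ring

private theorem LSgA_adjoint : ∀ {n : ℕ} {v : Fin n → En M}, Orthonormal ℝ v →
    ContinuousLinearMap.adjoint ((List.ofFn fun i => cv (v i)).prod : EH M ι) =
      LSgA_c n • (List.ofFn fun i => cv (v i)).prod := by
  intro n
  induction n with
  | zero =>
    intro v _
    have h0 : ContinuousLinearMap.adjoint (1 : EH M ι) = 1 := by
      rw [← ContinuousLinearMap.star_eq_adjoint, star_one]
    simp [LSgA_c, h0]
  | succ n ih =>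
    intro v hv
    have h1 := ih (LSgA_tail hv)
    have h2 := LSgA_move (ι := ι) hv
    rw [List.ofFn_succ, List.prod_cons]
    generalize (List.ofFn fun i : Fin n => (cv (v i.succ) : EH M ι)).prod = W at h1 h2 ⊢
    have h3 : W * cv (v 0) = ((-1 : ℂ) ^ n) • (cv (v 0) * W) := by
      rw [h2, smul_smul, ← mul_pow]
      norm_num
    have h4 : ContinuousLinearMap.adjoint (cv (v 0) * W : EH M ι) =
        ContinuousLinearMap.adjoint W * ContinuousLinearMap.adjoint (cv (v 0) : EH M ι) :=
      ContinuousLinearMap.adjoint_comp _ _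
    rw [h4, h1, LSgA_adj, mul_neg, smul_mul_assoc, h3, LSgA_succ, smul_smul, pow_succ]
    rw [← neg_smul]
    congr 1
    ring

theorem contDiff_om : ContDiff ℝ ∞ fun x => (clI (V.vol x) : EH M ι) := by
  obtain ⟨L, hL⟩ := clI_clm (M := M) (ι := ι)
  have h : (fun x => (clI (V.vol x) : EH M ι)) = fun x => (L.restrictScalars ℝ) (V.vol x) :=
    funext fun x => (hL _).symm
  rw [h]
  exact (L.restrictScalars ℝ).contDiff.comp V.smooth_vol

private theorem LSgA_vol {x : En M} (hx : x ∈ V.carrier) : ∃ v : Fin 14 → En M,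
    Orthonormal ℝ v ∧ (∀ i, V.P x (v i) = v i) ∧
      (clI (V.vol x) : EH M ι) = (List.ofFn fun i => cv (v i)).prod := by
  obtain ⟨v, h1, h2, h3⟩ := V.vol_spec x hx
  exact ⟨v, h1, h2, by rw [h3, clI_prod h1]⟩

private theorem LSgA_sign (j : Fin 14) : ∏ i : Fin 14, (if i = j then (1 : ℂ) else -1) = -1 := by
  rw [Finset.prod_ite, Finset.prod_const_one, one_mul, Finset.prod_const]
  have h : (Finset.univ.filter fun i : Fin 14 => ¬ i = j).card = 13 := by
    rw [Finset.filter_not, Finset.filter_eq' Finset.univ j, if_pos (Finset.mem_univ j),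
      Finset.card_sdiff_of_subset (Finset.subset_univ _)]
    simp
  rw [h]
  norm_num

private theorem LSgA_one {v : Fin 14 → En M} (hv : Orthonormal ℝ v) (j : Fin 14) :
    (cv (v j) * (List.ofFn fun i => cv (v i)).prod : EH M ι) =
      -((List.ofFn fun i => cv (v i)).prod * cv (v j)) := by
  have h := LSgA_prod (ι := ι) (cv (v j)) (fun i : Fin 14 => cv (v i))
    (fun i => if i = j then 1 else -1)
    (fun i => by
      by_cases hij : i = j
      · rw [if_pos hij, one_smul, hij]
      · rw [if_neg hij, neg_one_smul]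
        exact LSgA_cc (hv.2 (Ne.symm hij)))
  rw [LSgA_sign, neg_one_smul] at h
  exact h

variable {x : En M} (hx : x ∈ V.carrier)

theorem om_cv (hx : x ∈ V.carrier) (w : En M) :
    (clI (V.vol x) * cv (V.P x w) : EH M ι) = -(cv (V.P x w) * clI (V.vol x)) := by
  obtain ⟨v, h1, h2, h3⟩ := LSgA_vol (ι := ι) hx
  rw [h3, P_eq_sum V.toGeo hx v h1 h2 w, cv_sum]
  simp only [cv_smul]
  rw [Finset.mul_sum, Finset.sum_mul, ← Finset.sum_neg_distrib]
  refine Finset.sum_congr rfl fun j _ => ?_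
  rw [mul_smul_comm, smul_mul_assoc, ← smul_neg, LSgA_one h1 j, neg_neg]

theorem om_hv (hx : x ∈ V.carrier) (w : En M) :
    (clI (V.vol x) * hv w : EH M ι) = hv w * clI (V.vol x) := by
  obtain ⟨v, h1, h2, h3⟩ := LSgA_vol (ι := ι) hx
  rw [h3]
  have h := LSgA_prod (ι := ι) (hv w) (fun i : Fin 14 => cv (v i)) (fun _ => -1)
    (fun i => by
      rw [neg_one_smul, cv_hv, neg_neg])
  rw [Finset.prod_const, Finset.card_univ, Fintype.card_fin] at h
  rw [h]
  norm_num

theorem om_cf (u : FA M) (T : Matrix ι ι ℂ) : (clI u * cf T : EH M ι) = cf T * clI u := by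
  have h1 : ∀ a : Fin M, (cl a * cf T : EH M ι) = cf T * cl a := fun a => by
    rw [← cv_bv, cf_cv]
  have h2 : ∀ l : List (Fin M), ((l.map fun a => (cl a : EH M ι)).prod * cf T : EH M ι) =
      cf T * (l.map fun a => (cl a : EH M ι)).prod := by
    intro l
    induction l with
    | nil => simp
    | cons a l ih =>
      rw [List.map_cons, List.prod_cons, mul_assoc, ih, ← mul_assoc, h1, mul_assoc]
  unfold clI
  rw [Finset.sum_mul, Finset.mul_sum]
  refine Finset.sum_congr rfl fun I _ => ?_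
  rw [smul_mul_assoc, mul_smul_comm]
  congr 1
  exact h2 _

theorem om_Lam (hx : x ∈ V.carrier) :
    (clI (V.vol x) * Lam (V.P x) : EH M ι) = Lam (V.P x) * clI (V.vol x) := by
  obtain ⟨v, h1, h2, h3⟩ := LSgA_vol (ι := ι) hx
  rw [h3]
  have h := LSgA_prod (ι := ι) (Lam (V.P x)) (fun i : Fin 14 => cv (v i)) (fun _ => 1)
    (fun i => by
      rw [one_smul]
      exact Lam_cv_tan (isPr hx) (h2 i))
  rw [Finset.prod_const_one, one_smul] at h
  exact h.symm

theorem om_sq (hx : x ∈ V.carrier) : (clI (V.vol x) * clI (V.vol x) : EH M ι) = -1 := by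
  obtain ⟨v, h1, h2, h3⟩ := LSgA_vol (ι := ι) hx
  rw [h3, LSgA_square h1, LSgA_14, neg_one_smul]

theorem om_adj (hx : x ∈ V.carrier) :
    ContinuousLinearMap.adjoint (clI (V.vol x) : EH M ι) = -clI (V.vol x) := by
  obtain ⟨v, h1, h2, h3⟩ := LSgA_vol (ι := ι) hx
  rw [h3, LSgA_adjoint h1, LSgA_14, neg_one_smul]

private theorem LSgA_comp (hx : x ∈ V.carrier) (u : En M) :
    (Lam (V.P x) * cv u * Lam (V.P x) : EH M ι) = cv (V.P x u) * Lam (V.P x) := by
  have h1 : u = V.P x u + (u - V.P x u) := by abel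
  have h2 : V.P x (u - V.P x u) = 0 := by
    rw [map_sub, V.P_idem x hx, sub_self]
  have h3 : (Lam (V.P x) * cv (V.P x u) : EH M ι) = cv (V.P x u) * Lam (V.P x) :=
    Lam_cv_tan (isPr hx) (V.P_idem x hx u)
  have h4 : (Lam (V.P x) * cv (u - V.P x u) * Lam (V.P x) : EH M ι) = 0 :=
    Lam_cv_nor (isPr hx) h2
  conv_lhs => rw [h1]
  rw [cv_add, mul_add, add_mul, h4, add_zero, h3, mul_assoc, Lam_Lam (isPr hx)]

private theorem LSgA_cvL : ∃ L : En M →L[ℝ] EH M ι, ∀ v, L v = cv v :=
  ⟨LinearMap.toContinuousLinearMap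
    { toFun := fun v => (cv v : EH M ι)
      map_add' := fun v w => cv_add v w
      map_smul' := fun r v => by
        rw [cv_smul, RingHom.id_apply]
        rfl }, fun _ => rfl⟩

private theorem LSgA_td (b : Fin M) (w : En M) (y : En M) :
    td V.toGeo b (fun y => (cv (V.P y w) : EH M ι)) y = cv (Pd V.toGeo b y w) := by
  obtain ⟨L, hL⟩ := LSgA_cvL (M := M) (ι := ι)
  let Ev : (En M →L[ℝ] En M) →L[ℝ] En M := ContinuousLinearMap.apply ℝ (En M) w
  have h1 := td_clm (V := V.toGeo) (L.comp Ev) V.smoothP b y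
  have h2 : (fun y => (L.comp Ev) (V.P y)) = fun y => (cv (V.P y w) : EH M ι) :=
    funext fun y => hL _
  rw [h2] at h1
  rw [h1]
  exact hL _

theorem om_par (hloc : V.toGeo.Loc) (hx : x ∈ V.carrier) (b : Fin M) :
    Lam (V.P x) * td V.toGeo b (fun y => (clI (V.vol y) : EH M ι)) x * Lam (V.P x) = 0 := by
  have hom : ContDiff ℝ ∞ fun y => (clI (V.vol y) : EH M ι) := contDiff_om
  have hcv : ∀ w, ContDiff ℝ ∞ fun y => (cv (V.P y w) : EH M ι) := by
    intro w
    obtain ⟨L, hL⟩ := LSgA_cvL (M := M) (ι := ι)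
    have h : (fun y => (cv (V.P y w) : EH M ι)) = fun y => L (V.P y w) :=
      funext fun y => (hL _).symm
    rw [h]
    exact L.contDiff.comp (V.smoothP.clm_apply contDiff_const)
  have hLL : (Lam (V.P x) * Lam (V.P x) : EH M ι) = Lam (V.P x) := Lam_Lam (isPr hx)
  have hoL := om_Lam (ι := ι) hx
  set O : EH M ι := clI (V.vol x) with hO
  set dO : EH M ι := td V.toGeo b (fun y => (clI (V.vol y) : EH M ι)) x with hdO
  set Λ : EH M ι := Lam (V.P x) with hΛ
  -- differentiate the anticommutation relation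
  have hanti : ∀ w, (Λ * dO * Λ) * cv (V.P x w) = -(cv (V.P x w) * (Λ * dO * Λ)) := by
    intro w
    have h1 := td_congr (V := V.toGeo) hloc (hom.mul (hcv w)) ((hcv w).mul hom).neg
      (fun y hy => om_cv (ι := ι) hy w) b hx
    rw [td_mul hom (hcv w) b x, LSgA_td] at h1
    have h2 : td V.toGeo b (-fun y => (cv (V.P y w) : EH M ι) * clI (V.vol y)) x =
        -(cv (Pd V.toGeo b x w) * O + cv (V.P x w) * dO) := by
      have h3 := td_mul (V := V.toGeo) (hcv w) hom b x
      rw [LSgA_td] at h3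
      have h4 : td V.toGeo b (-fun y => (cv (V.P y w) : EH M ι) * clI (V.vol y)) x =
          -td V.toGeo b (fun y => (cv (V.P y w) : EH M ι) * clI (V.vol y)) x := by
        show fderiv ℝ (-fun y => (cv (V.P y w) : EH M ι) * clI (V.vol y)) x _ =
          -fderiv ℝ (fun y => (cv (V.P y w) : EH M ι) * clI (V.vol y)) x _
        rw [fderiv_neg]
        rfl
      rw [h4, h3]
    have h5 : dO * cv (V.P x w) + O * cv (Pd V.toGeo b x w) =
        -(cv (Pd V.toGeo b x w) * O + cv (V.P x w) * dO) := h1.trans h2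
    have hc : (Λ * cv (V.P x w) : EH M ι) = cv (V.P x w) * Λ :=
      Lam_cv_tan (isPr hx) (V.P_idem x hx w)
    have h6 := LSgA_comp (ι := ι) hx (Pd V.toGeo b x w)
    rw [← hΛ] at h6
    have h7 := om_cv (ι := ι) hx (Pd V.toGeo b x w)
    rw [← hO] at h7
    set c : EH M ι := cv (V.P x w) with hcdef
    set p : EH M ι := cv (Pd V.toGeo b x w) with hpdef
    set q : EH M ι := cv (V.P x (Pd V.toGeo b x w)) with hqdef
    have h8 := congrArg (fun z => Λ * z * Λ) h5
    have e1 : Λ * (dO * c + O * p) * Λ = Λ * dO * Λ * c + O * (q * Λ) := by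
      rw [← h6]
      calc Λ * (dO * c + O * p) * Λ = Λ * dO * (c * Λ) + (Λ * O) * p * Λ := by
            simp only [mul_add, add_mul, mul_assoc]
        _ = Λ * dO * (Λ * c) + (O * Λ) * p * Λ := by rw [← hc, hoL]
        _ = _ := by simp only [mul_assoc]
    have e2 : Λ * -(p * O + c * dO) * Λ = -(q * Λ * O + c * (Λ * dO * Λ)) := by
      rw [← h6]
      calc Λ * -(p * O + c * dO) * Λ = -(Λ * p * (O * Λ) + (Λ * c) * dO * Λ) := by
            simp only [mul_add, add_mul, mul_assoc, mul_neg, neg_mul]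
        _ = -(Λ * p * (Λ * O) + (c * Λ) * dO * Λ) := by rw [hoL, hc]
        _ = _ := by simp only [mul_assoc]
    rw [e1, e2] at h8
    have e3 : O * (q * Λ) = -(q * Λ * O) := by
      calc O * (q * Λ) = (O * q) * Λ := by rw [mul_assoc]
        _ = -(q * O) * Λ := by rw [h7]
        _ = -(q * (O * Λ)) := by rw [neg_mul, mul_assoc]
        _ = -(q * (Λ * O)) := by rw [hoL]
        _ = _ := by rw [mul_assoc]
    rw [e3, neg_add] at h8
    have h9 : Λ * dO * Λ * c + -(q * Λ * O) = -(c * (Λ * dO * Λ)) + -(q * Λ * O) := by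
      rw [h8]
      abel
    exact add_right_cancel h9
  -- the compressed derivative commutes with `O`
  have hcomm : (Λ * dO * Λ) * O = O * (Λ * dO * Λ) := by
    obtain ⟨v, h1, h2, h3⟩ := LSgA_vol (ι := ι) hx
    rw [← hO] at h3
    have h := LSgA_prod (ι := ι) (Λ * dO * Λ) (fun i : Fin 14 => cv (v i)) (fun _ => -1)
      (fun i => by
        rw [neg_one_smul]
        have h4 := hanti (v i)
        rw [h2 i] at h4
        exact h4)
    rw [Finset.prod_const, Finset.card_univ, Fintype.card_fin, ← h3] at h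
    rw [h]
    norm_num
  -- differentiate `O ^ 2 = -1`
  have hsq : dO * O + O * dO = 0 := by
    have h1 := td_congr (V := V.toGeo) hloc (hom.mul hom)
      (contDiff_const (c := (-1 : EH M ι))) (fun y hy => om_sq (ι := ι) hy) b hx
    rw [td_mul hom hom b x, td_const] at h1
    exact h1
  have hsq' : (Λ * dO * Λ) * O + O * (Λ * dO * Λ) = 0 := by
    have h1 := congrArg (fun z => Λ * z * Λ) hsq
    simp only [mul_zero, zero_mul] at h1
    rw [← h1]
    calc (Λ * dO * Λ) * O + O * (Λ * dO * Λ) = Λ * dO * (Λ * O) + (O * Λ) * dO * Λ := by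
          simp only [mul_assoc]
      _ = Λ * dO * (O * Λ) + (Λ * O) * dO * Λ := by rw [hoL]
      _ = Λ * (dO * O + O * dO) * Λ := by simp only [mul_add, add_mul, mul_assoc]
  have h0 : (Λ * dO * Λ) * O = 0 := by
    rw [← hcomm, ← two_smul ℂ] at hsq'
    exact (smul_eq_zero.1 hsq').resolve_left two_ne_zero
  have h1 : (Λ * dO * Λ) * (O * O) = 0 := by rw [← mul_assoc, h0, zero_mul]
  rw [hO, om_sq (ι := ι) hx, mul_neg, mul_one, neg_eq_zero] at h1
  exact h1

end Pool.Agent.EXO.L
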