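import Pool.Agent.EXO.LgI
import Pool.Agent.EXO.IbGe
import Pool.Agent.EXO.IcKer

/-!
# EXO / LgK : the formal heat operator on kernels (IDX-L)

`𝔇` is a Dirac operator with `c = cl`, `Q = Λ(P) e` on `V` and
`B = (∑ cl a cf(A_a) + ∑ (ε_a + ι_a) cf(θ_a)) Q` on `V`.
* `opK_eq`: definition of `opK`, `tdx_slice` (`tdx V a k (x,y) = td V a (fun x => k (x,y)) x`), `cv_bv`, `hv_bv`.
* `opK_opK_eq`: `fun x' => 𝔇.opK k (x', y)` and `opA V E θ (fun x' => k (x', y))` are smooth and agree on `V`;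
  by locality (`td_congr`) `opA` of both agree on `V`.  Smoothness of `opK k`: `contDiff_opK` in `IcRow` or
  `IcSym` (search), or directly.
* `Cg_eq`: `𝔇.Cg (x,y) * T = Cgr V E (φ(·,y)) (fun _ => T) x` at `x ∈ V`: `td V a (φ(·,y)) x = ½ ⟨x-y, P e_a⟩`
  (`tdx_phi`).
* `CgCg`: `Cg Cg u = -¼ ∑_b ⟨x-y, P e_b⟩² u` for `Q u = u`: `Cg u = ½ cv(P(x)(x-y)) u`
  (`∑_a ⟨x-y, P e_a⟩ cv (bv a) = cv (P (x-y))`), which is again a section, `cv(w)² = -|w|²`,
  `|P(x-y)|² = ∑_b ⟨x-y, P e_b⟩²`.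
* `fL_eq`: `fD (fD k) j = opK (opK k_j) - (opK (Cg k_{j+1}) + Cg opK k_{j+1}) + Cg Cg k_{j+2}`; use `weitz` for
  `k_j(·,y)`, `polar` with `g = φ(·,y)` for `k_{j+1}(·,y)` (the function `x' ↦ Cg(x',y) k_{j+1}(x',y)` agrees on
  `V` with `Cgr V E g u`, locality again) and `CgCg`.
  With `xb b y x = ⟨x - y, P e_b⟩ = 2 ∂_b g`.
-/

set_option autoImplicit false
set_option maxSynthPendingDepth 3

open scoped ContDiff Topology
open Finset Matrix

noncomputable section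

namespace Pool.Agent.EXO.L

variable {n M : ℕ} {V : Geo n M} {ι : Type} [Fintype ι] [DecidableEq ι]
  {E : Bd V ι} {θ : Fin M → En M → Matrix ι ι ℂ} {𝔇 : Dirac V (HF M ι)}

/-- `𝔇` is the twisted signature operator with the zero order term given by `θ`. -/
structure SigOf (V : Geo n M) (E : Bd V ι) (θ : Fin M → En M → Matrix ι ι ℂ)
    (𝔇 : Dirac V (HF M ι)) : Prop where
  c_eq : ∀ a, 𝔇.c a = cl a
  Q_eq : ∀ x ∈ V.carrier, 𝔇.Q x = Lam (V.P x) * cf (E.e x)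
  B_eq : ∀ x ∈ V.carrier, 𝔇.B x =
    (∑ a, cl a * cf (E.A a x) + ∑ a, (eps a + iota a) * cf (θ a x)) * 𝔇.Q x

/-- `⟨x - y, P(x) e_b⟩` -/
def xb (V : Geo n M) (b : Fin M) (y x : En M) : ℝ := inner ℝ (x - y) (V.P x (bv b))

theorem contDiff_xb (b : Fin M) (y : En M) : ContDiff ℝ ∞ (xb V b y) :=
  (contDiff_id.sub contDiff_const).inner ℝ (V.smoothP.clm_apply contDiff_const)

private theorem LgK_Q (hD : SigOf V E θ 𝔇) {x : En M} (hx : x ∈ V.carrier) :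
    𝔇.Q x = Qx V E x := hD.Q_eq x hx

private theorem LgK_c (hD : SigOf V E θ 𝔇) (a : Fin M) : 𝔇.c a = (cv (bv a) : EH M ι) := by
  rw [hD.c_eq, cv_bv]

private theorem LgK_slice {k : En M × En M → EH M ι} (hk : ContDiff ℝ ∞ k) (y : En M) :
    ContDiff ℝ ∞ (fun x' => k (x', y)) := hk.comp (contDiff_id.prodMk contDiff_const)

theorem opK_eq (hD : SigOf V E θ 𝔇) {k : En M × En M → EH M ι} (hk : ContDiff ℝ ∞ k)
    {x : En M} (hx : x ∈ V.carrier) (y : En M) :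
    𝔇.opK k (x, y) = opA V E θ (fun x' => k (x', y)) x := by
  unfold Dirac.opK opA Psi
  simp only [tdx_slice hk, LgK_Q hD hx, LgK_c hD, hD.B_eq x hx, hv_bv, cv_bv]

private theorem LgK_congr (hloc : V.Loc) {u v : En M → EH M ι} (hu : ContDiff ℝ ∞ u)
    (hv : ContDiff ℝ ∞ v) (h : ∀ z ∈ V.carrier, u z = v z) {x : En M} (hx : x ∈ V.carrier) :
    opA V E θ u x = opA V E θ v x := by
  unfold opA
  rw [h x hx]
  congr 1
  refine sum_congr rfl fun a _ => ?_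
  rw [L.td_congr hloc hu hv h a hx]

theorem opK_opK_eq (hD : SigOf V E θ 𝔇) (hθ : ThOK V E θ) (hloc : V.Loc)
    {k : En M × En M → EH M ι} (hk : ContDiff ℝ ∞ k) {x : En M} (hx : x ∈ V.carrier)
    (y : En M) :
    𝔇.opK (𝔇.opK k) (x, y) = opA V E θ (opA V E θ (fun x' => k (x', y))) x := by
  rw [opK_eq hD (𝔇.contDiff_opK hk) hx y]
  exact LgK_congr hloc (LgK_slice (𝔇.contDiff_opK hk) y) (contDiff_opA hθ (LgK_slice hk y))
    (fun z hz => opK_eq hD hk hz y) hx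

private theorem LgK_xs {f : En M → ℝ} (hf : ContDiff ℝ ∞ f) {g : En M → EH M ι}
    (hg : ContDiff ℝ ∞ g) : ContDiff ℝ ∞ (fun y => ((f y : ℝ) : ℂ) • g y) := hf.smul hg

private theorem LgK_csmul {f : En M → EH M ι} (hf : ContDiff ℝ ∞ f) {c : ℂ} {b : Fin M}
    {x : En M} : Db V E b (fun z => c • f z) x = c • Db V E b f x := by
  have h1 : td V b (fun z => c • f z) x = c • td V b f x := by
    show fderiv ℝ (fun z => c • f z) x (V.P x (bv b)) = _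
    rw [fderiv_fun_const_smul ((hf.differentiable (by simp)).differentiableAt) c]
    rfl
  unfold Db
  rw [h1, mul_smul_comm, smul_add]

theorem fL_eq (hD : SigOf V E θ 𝔇) (hθ : ThOK V E θ) (hloc : V.Loc) (hS : SymII V)
    {k : Dirac.FK M (HF M ι)} (hk : Dirac.FS k) (hQ : ∀ j, 𝔇.QL (k j)) (j : ℤ)
    {x y : En M} (hx : x ∈ V.carrier) (hy : y ∈ V.carrier) :
    𝔇.fL k j (x, y) = ((j + 1 : ℤ) : ℂ) • k (j + 1) (x, y) +
      ((phiK (x, y) : ℝ) : ℂ) • k (j + 2) (x, y) -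
      ∑ b, (Db V E b (Db V E b (fun x' => k j (x', y))) x -
        (1 / 2 : ℂ) • (((xb V b y x : ℝ) : ℂ) • Db V E b (fun x' => k (j + 1) (x', y)) x +
          Db V E b (fun x' => ((xb V b y x' : ℝ) : ℂ) • k (j + 1) (x', y)) x) +
        (1 / 4 : ℂ) • (((xb V b y x : ℝ) : ℂ) ^ 2 • k (j + 2) (x, y))) +
      Wt V E θ x * k j (x, y) := by
  have hu : ∀ i, ContDiff ℝ ∞ (fun x' => k i (x', y)) := fun i => LgK_slice (hk.1 i) y
  have hQS : ∀ i, QS V E (fun x' => k i (x', y)) := fun i z hz => by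
    have h := hQ i z hz y hy
    rw [LgK_Q hD hz] at h
    exact h
  have hg : ContDiff ℝ ∞ (fun x' : En M => phiK (x', y)) :=
    contDiff_phiK.comp (contDiff_id.prodMk contDiff_const)
  have htd : ∀ (b : Fin M) (z : En M), td V b (fun x' : En M => phiK (x', y)) z =
      (1 / 2) * xb V b y z := by
    intro b z
    rw [← tdx_slice contDiff_phiK b z y, tdx_phi]
    rfl
  have hCg : ∀ (T : En M → EH M ι) (z : En M), z ∈ V.carrier →
      𝔇.Cg (z, y) * T z = Cgr V E (fun x' => phiK (x', y)) T z := by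
    intro T z hz
    unfold Dirac.Cg Cgr
    rw [Finset.sum_mul]
    refine sum_congr rfl fun a _ => ?_
    rw [htd, LgK_Q hD hz, LgK_c hD, smul_mul_assoc, mul_assoc]
    rfl
  -- the formal square
  have hC1 : ContDiff ℝ ∞ (fun p => 𝔇.Cg p * k (j + 1) p) := 𝔇.contDiff_Cg.mul (hk.1 (j + 1))
  have e1 : 𝔇.fD (𝔇.fD k) j (x, y) =
      𝔇.opK (𝔇.opK (k j)) (x, y) - 𝔇.opK (fun p => 𝔇.Cg p * k (j + 1) p) (x, y) -
        𝔇.Cg (x, y) * (𝔇.opK (k (j + 1)) (x, y) - 𝔇.Cg (x, y) * k (j + 2) (x, y)) := by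
    have h1 := congrFun (𝔇.opK_sub (𝔇.contDiff_opK (hk.1 j)) hC1) (x, y)
    have h2 : 𝔇.fD k j = fun p => 𝔇.opK (k j) p - 𝔇.Cg p * k (j + 1) p := rfl
    show 𝔇.opK (𝔇.fD k j) (x, y) - 𝔇.Cg (x, y) * 𝔇.fD k (j + 1) (x, y) = _
    rw [h2, h1]
    show _ - 𝔇.Cg (x, y) * (𝔇.opK (k (j + 1)) (x, y) - 𝔇.Cg (x, y) * k (j + 1 + 1) (x, y)) = _
    rw [show j + 1 + 1 = j + 2 by ring]
  -- the three terms
  have e2 : 𝔇.opK (𝔇.opK (k j)) (x, y) =
      -(∑ b, Db V E b (Db V E b (fun x' => k j (x', y))) x) + Wt V E θ x * k j (x, y) := by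
    rw [opK_opK_eq hD hθ hloc (hk.1 j) hx y, weitz hθ hloc hS (hu j) (hQS j) hx]
  have e3 : 𝔇.opK (fun p => 𝔇.Cg p * k (j + 1) p) (x, y) =
      opA V E θ (Cgr V E (fun x' => phiK (x', y)) (fun x' => k (j + 1) (x', y))) x := by
    rw [opK_eq hD hC1 hx y]
    exact LgK_congr hloc (LgK_slice hC1 y) (contDiff_Cgr hg (hu (j + 1)))
      (fun z hz => hCg (fun x' => k (j + 1) (x', y)) z hz) hx
  have e4 : 𝔇.Cg (x, y) * 𝔇.opK (k (j + 1)) (x, y) =
      Cgr V E (fun x' => phiK (x', y)) (opA V E θ (fun x' => k (j + 1) (x', y))) x := by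
    rw [opK_eq hD (hk.1 (j + 1)) hx y]
    exact hCg _ x hx
  have e5 := polar hθ hloc hS hg (hu (j + 1)) (hQS (j + 1)) hx
  rw [← e3, ← e4] at e5
  have e6 : 𝔇.Cg (x, y) * (𝔇.Cg (x, y) * k (j + 2) (x, y)) =
      -∑ b, (1 / 4 : ℂ) • (((xb V b y x : ℝ) : ℂ) ^ 2 • k (j + 2) (x, y)) := by
    rw [← mul_assoc, 𝔇.Cg_sq hx y, smul_mul_assoc, hQ (j + 2) x hx y hy, ← Finset.smul_sum,
      ← Finset.sum_smul, smul_smul, ← neg_smul]
    congr 1
    have h3 : ‖V.P x (x - y)‖ ^ 2 = ∑ b, (xb V b y x) ^ 2 := by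
      rw [EuclideanSpace.norm_sq_eq]
      refine sum_congr rfl fun b _ => ?_
      rw [Real.norm_eq_abs, sq_abs, ← ge_P_inner hx (x - y) b]
      rfl
    rw [h3]
    push_cast
    ring
  have e7 : ∀ b, (((td V b (fun x' : En M => phiK (x', y)) x : ℝ) : ℂ) •
        Db V E b (fun x' => k (j + 1) (x', y)) x +
      Db V E b (fun z => ((td V b (fun x' : En M => phiK (x', y)) z : ℝ) : ℂ) •
        k (j + 1) (z, y)) x) =
      (1 / 2 : ℂ) • (((xb V b y x : ℝ) : ℂ) • Db V E b (fun x' => k (j + 1) (x', y)) x +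
          Db V E b (fun x' => ((xb V b y x' : ℝ) : ℂ) • k (j + 1) (x', y)) x) := by
    intro b
    have h4 : (fun z => ((td V b (fun x' : En M => phiK (x', y)) z : ℝ) : ℂ) •
        k (j + 1) (z, y)) = fun z => (1 / 2 : ℂ) • (((xb V b y z : ℝ) : ℂ) • k (j + 1) (z, y)) := by
      funext z
      rw [htd, smul_smul]
      congr 1
      push_cast
      ring
    rw [h4, htd, LgK_csmul (LgK_xs (contDiff_xb b y) (hu (j + 1))), smul_add, smul_smul]
    congr 2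
    push_cast
    ring
  have e8 : 𝔇.fL k j (x, y) = (((j + 1 : ℤ) : ℂ) • k (j + 1) (x, y) +
      ((phiK (x, y) : ℝ) : ℂ) • k (j + 2) (x, y)) + 𝔇.fD (𝔇.fD k) j (x, y) := rfl
  rw [e8, e1, e2, mul_sub, e6]
  have e9 : 𝔇.Cg (x, y) * 𝔇.opK (k (j + 1)) (x, y) =
      -(∑ b, ((1 / 2 : ℂ) • (((xb V b y x : ℝ) : ℂ) • Db V E b (fun x' => k (j + 1) (x', y)) x +
          Db V E b (fun x' => ((xb V b y x' : ℝ) : ℂ) • k (j + 1) (x', y)) x))) -
        𝔇.opK (fun p => 𝔇.Cg p * k (j + 1) p) (x, y) := by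
    rw [← sum_congr rfl fun b _ => e7 b, ← e5]
    abel
  rw [e9, Finset.sum_add_distrib, Finset.sum_sub_distrib]
  abel

end Pool.Agent.EXO.L
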