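import Pool.Agent.EXO.LSgA
import Pool.Agent.EXO.LgK

/-!
# EXO / LSgB : existence of the signature operator with coefficients in a bundle (IDX-L)

`c = cl`, `Q x = Lam (P x) * cf (e x)`, `Γ x = I^7 • (clI (vol x) * cf s)`,
`B x = (∑ cl a * cf (A_a x) + ∑ (eps a + iota a) * cf (θ_a x)) * Q x`.  The axioms of `Dirac`:
* `c_anti`, `c_skew`: `cv_cv`, `adjoint (eps a) = iota a`.
* `Q_idem`, `Q_sa`, `Q_tan`, `Q_nor`: `Q_Q`, `Lam_adj`, `adjoint (cf T) = cf Tᴴ`, `Q_cv`, `Lam_cv_nor`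
  (`∑ a, (v a : ℂ) • cl a = cv v`: `cv_eq_sum`).
* `Γ_sa`: `om_adj`, `star (I^7) = I = -I^7`, `s` hermitian.  `Γ_Q`: `om_Lam`, `om_cf`, `e_s`.
  `Γ_sq`: `(I^7)² = -1`, `om_sq`, `s² = 1`.  `Γ_c`: `om_cv`.
  `Γ_par`: `Q (∂_{Pv} Γ) Q = I^7 Λ(P)(∂ om)Λ(P) s e = 0` (`om_par`; a general direction `P v` is a combination of
  the `P e_b`).
* `B_Q`: on `V`, `∑ cl a cf(A_a) = ∑ cv (P e_a) cf(A_a)` (`A_tan`), same for `θ` (`ThOK.tan`), commute with
  `Lam P`; `e A e = A`, `e θ e = θ`.  `B_sa`: `A` skew, `cl a` skew; `θ`, `eps a + iota a` hermitian.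
  `B_odd`: `Γ` anticommutes with `cv (P e_a) cf(A_a)` (`om_cv`, `A_s`) and with `hv (..) cf(θ_a)` (`om_hv`, `ThOK.s`).
-/

set_option autoImplicit false
set_option maxSynthPendingDepth 3

open scoped ContDiff Topology
open Finset Matrix

noncomputable section

namespace Pool.Agent.EXO.L

variable {M : ℕ} {ι : Type} [Fintype ι] [DecidableEq ι] {V : OrGeo 14 M}

/-! ### Auxiliary statements -/

private theorem LSgB_cf_apply (T : Matrix ι ι ℂ) (u : HF M ι) (S : Finset (Fin M)) (k : ι) :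
    cf T u (S, k) = ∑ l, T k l * u (S, l) := rfl

private theorem LSgB_cfadj (T : Matrix ι ι ℂ) :
    ContinuousLinearMap.adjoint (cf T : EH M ι) = cf Tᴴ := by
  symm
  rw [ContinuousLinearMap.eq_adjoint_iff]
  intro u v
  rw [PiLp.inner_apply, PiLp.inner_apply, Fintype.sum_prod_type, Fintype.sum_prod_type]
  refine Finset.sum_congr rfl fun S _ => ?_
  simp only [LSgB_cf_apply, RCLike.inner_apply, map_sum, map_mul, Matrix.conjTranspose_apply,
    Finset.mul_sum, Finset.sum_mul]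
  rw [Finset.sum_comm]
  refine Finset.sum_congr rfl fun k _ => Finset.sum_congr rfl fun l _ => ?_
  simp only [RCLike.star_def, RCLike.conj_conj]
  ring

private theorem LSgB_cvadj (v : En M) :
    ContinuousLinearMap.adjoint (cv v : EH M ι) = -cv v := by
  unfold cv
  have h1 : ContinuousLinearMap.adjoint (epsv v : EH M ι) = iotav v := adjoint_epsv v
  have h2 : ContinuousLinearMap.adjoint (iotav v : EH M ι) = epsv v := by
    rw [← h1, ContinuousLinearMap.adjoint_adjoint]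
  rw [map_sub, h1, h2, neg_sub]

private theorem LSgB_hvadj (v : En M) :
    ContinuousLinearMap.adjoint (hv v : EH M ι) = hv v := by
  unfold hv
  have h1 : ContinuousLinearMap.adjoint (epsv v : EH M ι) = iotav v := adjoint_epsv v
  have h2 : ContinuousLinearMap.adjoint (iotav v : EH M ι) = epsv v := by
    rw [← h1, ContinuousLinearMap.adjoint_adjoint]
  rw [map_add, h1, h2, add_comm]

private theorem LSgB_adjmul (S T : EH M ι) : ContinuousLinearMap.adjoint (S * T) =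
    ContinuousLinearMap.adjoint T * ContinuousLinearMap.adjoint S :=
  ContinuousLinearMap.adjoint_comp _ _

private theorem LSgB_cf {f : En M → Matrix ι ι ℂ} (hf : ContDiff ℝ ∞ f) :
    ContDiff ℝ ∞ (fun y => (cf (f y) : EH M ι)) := by
  obtain ⟨L, hL⟩ := cf_clm (M := M) (ι := ι)
  have h : (fun y => (cf (f y) : EH M ι)) = fun y => L (f y) := funext fun y => (hL (f y)).symm
  rw [h]
  exact L.contDiff.comp hf

/-- the grading operator -/
private def LSgB_Ga (V : OrGeo 14 M) (E : Bd V.toGeo ι) (x : En M) : EH M ι :=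
  (Complex.I ^ 7) • (clI (V.vol x) * cf (diagonal E.s))

/-- the zero order term, before the projection -/
private def LSgB_T {V : OrGeo 14 M} (E : Bd V.toGeo ι) (θ : Fin M → En M → Matrix ι ι ℂ)
    (x : En M) : EH M ι :=
  ∑ a, cl a * cf (E.A a x) + ∑ a, (eps a + iota a) * cf (θ a x)

private theorem LSgB_smT (E : Bd V.toGeo ι) {θ : Fin M → En M → Matrix ι ι ℂ}
    (hθ : ThOK V.toGeo E θ) : ContDiff ℝ ∞ (LSgB_T E θ : En M → EH M ι) := by
  unfold LSgB_T
  exact (ContDiff.sum fun a _ => contDiff_const.mul (LSgB_cf (E.smooth_A a))).add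
    (ContDiff.sum fun a _ => contDiff_const.mul (LSgB_cf (hθ.smooth a)))

private theorem LSgB_smG (E : Bd V.toGeo ι) : ContDiff ℝ ∞ (LSgB_Ga V E) := by
  unfold LSgB_Ga
  exact (contDiff_om.mul contDiff_const).const_smul _

variable {x : En M}

private theorem LSgB_ss (E : Bd V.toGeo ι) : (diagonal E.s : Matrix ι ι ℂ) * diagonal E.s = 1 := by
  rw [diagonal_mul_diagonal, ← diagonal_one]
  congr 1
  funext i
  rcases E.s_sq i with h | h <;> simp [h]

private theorem LSgB_sH (E : Bd V.toGeo ι) : (diagonal E.s : Matrix ι ι ℂ)ᴴ = diagonal E.s := by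
  rw [diagonal_conjTranspose]
  congr 1
  funext i
  rcases E.s_sq i with h | h <;> simp [h]

private theorem LSgB_GaL (E : Bd V.toGeo ι) (hx : x ∈ V.carrier) :
    LSgB_Ga V E x * Lam (V.P x) = Lam (V.P x) * LSgB_Ga V E x := by
  unfold LSgB_Ga
  rw [smul_mul_assoc, mul_smul_comm, mul_assoc, cf_Lam, ← mul_assoc, om_Lam hx, mul_assoc]

private theorem LSgB_GaC (E : Bd V.toGeo ι) {A : Matrix ι ι ℂ}
    (hA : A * diagonal E.s = diagonal E.s * A) :
    LSgB_Ga V E x * cf A = cf A * LSgB_Ga V E x := by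
  unfold LSgB_Ga
  rw [smul_mul_assoc, mul_smul_comm, mul_assoc, ← cf_mul, ← hA, cf_mul, ← mul_assoc, om_cf,
    mul_assoc]

private theorem LSgB_GaT (E : Bd V.toGeo ι) {A : Matrix ι ι ℂ}
    (hA : diagonal E.s * A = -(A * diagonal E.s)) :
    LSgB_Ga V E x * cf A = -(cf A * LSgB_Ga V E x) := by
  unfold LSgB_Ga
  rw [smul_mul_assoc, mul_smul_comm, mul_assoc, ← cf_mul, hA, cf_neg, cf_mul, mul_neg, ← mul_assoc,
    om_cf, mul_assoc, smul_neg]

private theorem LSgB_GaQ (E : Bd V.toGeo ι) (hx : x ∈ V.carrier) :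
    LSgB_Ga V E x * Qx V.toGeo E x = Qx V.toGeo E x * LSgB_Ga V E x := by
  unfold Qx
  rw [← mul_assoc, LSgB_GaL E hx, mul_assoc, LSgB_GaC E (E.e_s x hx), mul_assoc]

private theorem LSgB_Gacv (E : Bd V.toGeo ι) (hx : x ∈ V.carrier) (w : En M) :
    LSgB_Ga V E x * cv (V.P x w) = -(cv (V.P x w) * LSgB_Ga V E x) := by
  unfold LSgB_Ga
  rw [smul_mul_assoc, mul_smul_comm, mul_assoc, cf_cv, ← mul_assoc, om_cv hx, neg_mul, smul_neg,
    mul_assoc]

private theorem LSgB_Gahv (E : Bd V.toGeo ι) (hx : x ∈ V.carrier) (w : En M) :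
    LSgB_Ga V E x * hv w = hv w * LSgB_Ga V E x := by
  unfold LSgB_Ga
  rw [smul_mul_assoc, mul_smul_comm, mul_assoc, cf_hv, ← mul_assoc, om_hv hx, mul_assoc]

private theorem LSgB_I7 : (Complex.I ^ 7 : ℂ) = -Complex.I := by
  rw [show (7 : ℕ) = 4 + 3 from rfl, pow_add, Complex.I_pow_four, Complex.I_pow_three, one_mul]

private theorem LSgB_Gasq (E : Bd V.toGeo ι) (hx : x ∈ V.carrier) :
    LSgB_Ga V E x * LSgB_Ga V E x = 1 := by
  unfold LSgB_Ga
  rw [smul_mul_assoc, mul_smul_comm, smul_smul]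
  have h1 : (clI (V.vol x) * cf (diagonal E.s) * (clI (V.vol x) * cf (diagonal E.s)) : EH M ι) =
      -1 := by
    calc (clI (V.vol x) * cf (diagonal E.s) * (clI (V.vol x) * cf (diagonal E.s)) : EH M ι)
        = clI (V.vol x) * (cf (diagonal E.s) * clI (V.vol x)) * cf (diagonal E.s) := by
          simp only [mul_assoc]
      _ = (clI (V.vol x) * clI (V.vol x)) * (cf (diagonal E.s) * cf (diagonal E.s)) := by
          rw [← om_cf]
          simp only [mul_assoc]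
      _ = -1 := by rw [om_sq hx, ← cf_mul, LSgB_ss, cf_one, mul_one]
  rw [h1, LSgB_I7, neg_mul_neg, Complex.I_mul_I, neg_one_smul, neg_neg]

private theorem LSgB_Gaadj (E : Bd V.toGeo ι) (hx : x ∈ V.carrier) :
    ContinuousLinearMap.adjoint (LSgB_Ga V E x) = LSgB_Ga V E x := by
  unfold LSgB_Ga
  rw [map_smulₛₗ, LSgB_adjmul, om_adj hx, LSgB_cfadj, LSgB_sH, mul_neg, ← om_cf, LSgB_I7]
  simp

private theorem LSgB_Qadj (E : Bd V.toGeo ι) (hx : x ∈ V.carrier) :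
    ContinuousLinearMap.adjoint (Qx V.toGeo E x) = Qx V.toGeo E x := by
  unfold Qx
  rw [LSgB_adjmul, LSgB_cfadj, E.e_herm x hx, Lam_adj (isPr hx), cf_Lam]

private theorem LSgB_T_eq (E : Bd V.toGeo ι) {θ : Fin M → En M → Matrix ι ι ℂ}
    (hθ : ThOK V.toGeo E θ) (hx : x ∈ V.carrier) :
    (LSgB_T E θ x : EH M ι) = ∑ a, cv (V.P x (bv a)) * cf (E.A a x) +
      ∑ a, hv (V.P x (bv a)) * cf (θ a x) := by
  have h1 : (∑ a, cl a * cf (E.A a x) : EH M ι) = ∑ a, cv (V.P x (bv a)) * cf (E.A a x) := by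
    rw [← contract (V := V.toGeo) hx (fun a => (cf (E.A a x) : EH M ι)) (fun b => by
      simp only [← cf_smul]
      rw [← cf_sum, E.A_tan b x hx])]
    exact Finset.sum_congr rfl fun a _ => by rw [cv_bv]
  have h2 : (∑ a, (eps a + iota a) * cf (θ a x) : EH M ι) =
      ∑ a, hv (V.P x (bv a)) * cf (θ a x) := by
    rw [← Psi_tan (V := V.toGeo) hθ hx]
    unfold Psi
    exact Finset.sum_congr rfl fun a _ => by rw [hv_bv]
  unfold LSgB_T
  rw [h1, h2]

private theorem LSgB_eA {E : Bd V.toGeo ι} (hx : x ∈ V.carrier) {A : Matrix ι ι ℂ}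
    (hA : E.e x * A * E.e x = A) : E.e x * A = A := by
  calc E.e x * A = E.e x * (E.e x * A * E.e x) := by rw [hA]
    _ = (E.e x * E.e x) * A * E.e x := by simp only [Matrix.mul_assoc]
    _ = A := by rw [E.e_idem x hx, hA]

private theorem LSgB_QA {E : Bd V.toGeo ι} (hx : x ∈ V.carrier) {A : Matrix ι ι ℂ}
    (hA : E.e x * A * E.e x = A) :
    Qx V.toGeo E x * (cf A * Qx V.toGeo E x) = cf A * Qx V.toGeo E x := by
  unfold Qx
  calc (Lam (V.P x) * cf (E.e x) * (cf A * (Lam (V.P x) * cf (E.e x))) : EH M ι)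
      = Lam (V.P x) * (cf (E.e x) * cf A) * (Lam (V.P x) * cf (E.e x)) := by
        simp only [mul_assoc]
    _ = Lam (V.P x) * cf A * (Lam (V.P x) * cf (E.e x)) := by
        rw [← cf_mul, LSgB_eA hx hA]
    _ = (cf A * Lam (V.P x)) * (Lam (V.P x) * cf (E.e x)) := by rw [← cf_Lam]
    _ = cf A * ((Lam (V.P x) * Lam (V.P x)) * cf (E.e x)) := by simp only [mul_assoc]
    _ = _ := by rw [Lam_Lam (isPr hx)]

private theorem LSgB_QTQ {E : Bd V.toGeo ι} {θ : Fin M → En M → Matrix ι ι ℂ}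
    (hθ : ThOK V.toGeo E θ) (hx : x ∈ V.carrier) :
    Qx V.toGeo E x * (LSgB_T E θ x * Qx V.toGeo E x) = LSgB_T E θ x * Qx V.toGeo E x := by
  rw [LSgB_T_eq E hθ hx, add_mul, Finset.sum_mul, Finset.sum_mul, mul_add, Finset.mul_sum,
    Finset.mul_sum]
  congr 1
  · refine Finset.sum_congr rfl fun a _ => ?_
    rw [mul_assoc, ← mul_assoc (Qx V.toGeo E x), Q_cv hx, mul_assoc, LSgB_QA hx (E.e_A a x hx)]
  · refine Finset.sum_congr rfl fun a _ => ?_
    rw [mul_assoc, ← mul_assoc (Qx V.toGeo E x), Q_hv hx, mul_assoc, LSgB_QA hx (hθ.e a x hx)]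

private theorem LSgB_Tadj {E : Bd V.toGeo ι} {θ : Fin M → En M → Matrix ι ι ℂ}
    (hθ : ThOK V.toGeo E θ) (hx : x ∈ V.carrier) :
    ContinuousLinearMap.adjoint (LSgB_T E θ x : EH M ι) = LSgB_T E θ x := by
  rw [LSgB_T_eq E hθ hx, map_add, map_sum, map_sum]
  congr 1
  · refine Finset.sum_congr rfl fun a _ => ?_
    rw [LSgB_adjmul, LSgB_cfadj, LSgB_cvadj, E.A_skew a x hx, cf_neg, neg_mul_neg, cf_cv]
  · refine Finset.sum_congr rfl fun a _ => ?_
    rw [LSgB_adjmul, LSgB_cfadj, LSgB_hvadj, hθ.herm a x hx, cf_hv]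

private theorem LSgB_GT {E : Bd V.toGeo ι} {θ : Fin M → En M → Matrix ι ι ℂ}
    (hθ : ThOK V.toGeo E θ) (hx : x ∈ V.carrier) :
    LSgB_Ga V E x * LSgB_T E θ x = -(LSgB_T E θ x * LSgB_Ga V E x) := by
  rw [LSgB_T_eq E hθ hx, add_mul, Finset.sum_mul, Finset.sum_mul, mul_add, Finset.mul_sum,
    Finset.mul_sum, neg_add, ← Finset.sum_neg_distrib, ← Finset.sum_neg_distrib]
  congr 1
  · refine Finset.sum_congr rfl fun a _ => ?_
    rw [← mul_assoc, LSgB_Gacv E hx, neg_mul, mul_assoc, LSgB_GaC E (E.A_s a x hx), mul_assoc]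
  · refine Finset.sum_congr rfl fun a _ => ?_
    rw [← mul_assoc, LSgB_Gahv E hx, mul_assoc, LSgB_GaT E (hθ.s a x hx), mul_neg, mul_assoc]

private theorem LSgB_exp (V : OrGeo 14 M) (hx : x ∈ V.carrier) (v : En M) :
    V.P x v = ∑ l, (V.P x v l) • V.P x (bv l) := by
  have h1 : V.P x v = ∑ l, (V.P x v l) • (bv l : En M) := by
    ext b
    simp [bv, Pi.single_apply]
  have h2 := congrArg (V.P x) h1
  rw [V.P_idem x hx, map_sum] at h2
  simp only [map_smul] at h2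
  exact h2

private theorem LSgB_par (hloc : V.toGeo.Loc) (E : Bd V.toGeo ι) (hx : x ∈ V.carrier) (v : En M) :
    Qx V.toGeo E x * fderiv ℝ (LSgB_Ga V E) x (V.P x v) * Qx V.toGeo E x = 0 := by
  have hd : DifferentiableAt ℝ (LSgB_Ga V E) x :=
    ((LSgB_smG E).differentiable (by simp)) x
  have hdo : DifferentiableAt ℝ (fun y => (clI (V.vol y) : EH M ι)) x :=
    ((contDiff_om (V := V) (ι := ι)).differentiable (by simp)) x
  have h1 : ∀ w, fderiv ℝ (LSgB_Ga V E) x w = (Complex.I ^ 7) •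
      (fderiv ℝ (fun y => (clI (V.vol y) : EH M ι)) x w * cf (diagonal E.s)) := by
    intro w
    have h2 : HasFDerivAt (LSgB_Ga V E) ((Complex.I ^ 7 : ℂ) •
        (MulOpposite.op (cf (diagonal E.s) : EH M ι) •
          fderiv ℝ (fun y => (clI (V.vol y) : EH M ι)) x)) x :=
      (hdo.hasFDerivAt.mul_const' (cf (diagonal E.s) : EH M ι)).const_smul (Complex.I ^ 7 : ℂ)
    rw [h2.fderiv]
    rfl
  rw [LSgB_exp V hx v, map_sum, Finset.mul_sum, Finset.sum_mul]
  refine Finset.sum_eq_zero fun b _ => ?_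
  rw [map_smul, mul_smul_comm, smul_mul_assoc, h1]
  have h3 := om_par (ι := ι) hloc hx b
  have h4 : Qx V.toGeo E x * ((Complex.I ^ 7 : ℂ) •
      (fderiv ℝ (fun y => (clI (V.vol y) : EH M ι)) x (V.P x (bv b)) * cf (diagonal E.s))) *
      Qx V.toGeo E x = (Complex.I ^ 7 : ℂ) • (cf (E.e x) * (Lam (V.P x) *
        td V.toGeo b (fun y => (clI (V.vol y) : EH M ι)) x * Lam (V.P x)) *
          (cf (diagonal E.s) * cf (E.e x))) := by
    rw [mul_smul_comm, smul_mul_assoc]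
    congr 1
    unfold Qx
    rw [← cf_Lam]
    show cf (E.e x) * Lam (V.P x) * (td V.toGeo b (fun y => (clI (V.vol y) : EH M ι)) x *
      cf (diagonal E.s)) * (cf (E.e x) * Lam (V.P x)) = _
    rw [cf_Lam (E.e x) (V.P x)]
    rw [show (Lam (V.P x) * cf (E.e x) : EH M ι) = cf (E.e x) * Lam (V.P x) from
      (cf_Lam (E.e x) (V.P x)).symm]
    have h5 : (cf (diagonal E.s) * (cf (E.e x) * Lam (V.P x)) : EH M ι) =
        Lam (V.P x) * (cf (diagonal E.s) * cf (E.e x)) := by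
      rw [cf_Lam, ← mul_assoc, cf_Lam, mul_assoc]
    calc cf (E.e x) * Lam (V.P x) * (td V.toGeo b (fun y => (clI (V.vol y) : EH M ι)) x *
        cf (diagonal E.s)) * (cf (E.e x) * Lam (V.P x)) = cf (E.e x) * Lam (V.P x) *
        td V.toGeo b (fun y => (clI (V.vol y) : EH M ι)) x *
          (cf (diagonal E.s) * (cf (E.e x) * Lam (V.P x))) := by simp only [mul_assoc]
      _ = _ := by
        rw [h5]
        simp only [mul_assoc]
  rw [h4, h3, mul_zero, zero_mul, smul_zero, smul_zero]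

/-- the signature operator -/
private def LSgB_D (hloc : V.toGeo.Loc) (E : Bd V.toGeo ι) (θ : Fin M → En M → Matrix ι ι ℂ)
    (hθ : ThOK V.toGeo E θ) : Dirac V.toGeo (HF M ι) where
  c := fun a => cl a
  Q := Qx V.toGeo E
  Γ := LSgB_Ga V E
  B := fun x => LSgB_T E θ x * Qx V.toGeo E x
  smoothQ := contDiff_Qx
  smoothΓ := LSgB_smG E
  smoothB := (LSgB_smT E hθ).mul contDiff_Qx
  c_anti := by
    intro a b
    have h := cv_cv (ι := ι) (bv a : En M) (bv b)
    rw [cv_bv, cv_bv] at h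
    rw [h]
    have h2 : inner ℝ (bv a : En M) (bv b) = if a = b then (1 : ℝ) else 0 := by
      unfold bv
      rw [EuclideanSpace.inner_single_left]
      simp [Pi.single_apply]
    rw [h2]
    split_ifs <;> simp
  c_skew := by
    intro a
    rw [← cv_bv, LSgB_cvadj]
  Q_idem := fun x hx => Q_Q hx
  Q_sa := fun x hx => LSgB_Qadj E hx
  Q_tan := by
    intro x hx v
    rw [← cv_eq_sum]
    exact (Q_cv hx v).symm
  Q_nor := by
    intro x hx v hv
    rw [← cv_eq_sum]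
    have h := Lam_cv_nor (ι := ι) (isPr (V := V.toGeo) hx) hv
    unfold Qx
    calc (Lam (V.P x) * cf (E.e x) * cv v * (Lam (V.P x) * cf (E.e x)) : EH M ι)
        = (cf (E.e x) * Lam (V.P x)) * cv v * (Lam (V.P x) * cf (E.e x)) := by rw [cf_Lam]
      _ = cf (E.e x) * (Lam (V.P x) * cv v * Lam (V.P x)) * cf (E.e x) := by
          simp only [mul_assoc]
      _ = 0 := by rw [h, mul_zero, zero_mul]
  Γ_sa := fun x hx => LSgB_Gaadj E hx
  Γ_Q := fun x hx => LSgB_GaQ E hx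
  Γ_sq := by
    intro x hx
    rw [LSgB_Gasq E hx, one_mul]
  Γ_c := by
    intro x hx v
    rw [← cv_eq_sum, LSgB_Gacv E hx, neg_mul]
  Γ_par := fun x hx v => LSgB_par hloc E hx v
  B_Q := by
    intro x hx
    rw [LSgB_QTQ hθ hx, mul_assoc, Q_Q hx]
  B_sa := by
    intro x hx
    rw [← LSgB_QTQ hθ hx, LSgB_adjmul, LSgB_adjmul, LSgB_Qadj E hx, LSgB_Tadj hθ hx, mul_assoc]
  B_odd := by
    intro x hx
    rw [← mul_assoc, LSgB_GT hθ hx, neg_mul, mul_assoc, LSgB_GaQ E hx, mul_assoc]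

theorem exists_sig (hloc : V.toGeo.Loc) (E : Bd V.toGeo ι) (θ : Fin M → En M → Matrix ι ι ℂ)
    (hθ : ThOK V.toGeo E θ) :
    ∃ 𝔇 : Dirac V.toGeo (HF M ι), SigOf V.toGeo E θ 𝔇 ∧ (∀ a, 𝔇.c a = cl a) ∧
      (∀ x ∈ V.carrier, 𝔇.Q x = Lam (V.P x) * cf (E.e x)) ∧
      (∀ x ∈ V.carrier, 𝔇.Γ x * 𝔇.Q x =
        (Complex.I ^ (14 / 2)) • (clI (V.vol x) * cf (diagonal E.s) * 𝔇.Q x)) ∧
      ∀ x ∈ V.carrier, 𝔇.B x =
        (∑ a, cl a * cf (E.A a x) + ∑ a, (eps a + iota a) * cf (θ a x)) * 𝔇.Q x := by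
  refine ⟨LSgB_D hloc E θ hθ, ⟨fun a => rfl, fun x _ => rfl, fun x _ => rfl⟩, fun a => rfl,
    fun x _ => rfl, fun x _ => ?_, fun x _ => rfl⟩
  show LSgB_Ga V E x * Qx V.toGeo E x = (Complex.I ^ 7) •
    (clI (V.vol x) * cf (diagonal E.s) * Qx V.toGeo E x)
  unfold LSgB_Ga
  rw [smul_mul_assoc]

theorem IF_sig' (hloc : V.toGeo.Loc) (E : Bd V.toGeo ι) :
    ∃ 𝔇 : Dirac V.toGeo (HF M ι), IsSig V E 𝔇 := by
  have hθ : ThOK V.toGeo E (fun _ _ => 0) :=
    ⟨fun a => contDiff_const, fun a x _ => by simp, fun a x _ => by simp, fun a x _ => by simp,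
      fun a x _ => by simp⟩
  obtain ⟨𝔇, -, h1, h2, h3, h4⟩ := exists_sig hloc E (fun _ _ => 0) hθ
  exact ⟨𝔇, ⟨h1, h2, h3, ⟨fun _ _ => 0, hθ.smooth, fun a x hx =>
    ⟨hθ.herm a x hx, hθ.e a x hx, hθ.s a x hx, hθ.tan a x hx⟩, h4⟩⟩⟩

end Pool.Agent.EXO.L
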