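import Pool.Agent.EXO.LTrh
import Pool.Agent.EXO.LMdDef

/-!
# EXO / LTfA : elimination of the Clifford part of `𝔽` from the trace (IDX-L)

Pure algebra in a `TSys`: `F = G + Z`, `Z` admissible, so `G`, `Z` commute (`G` is built from `Om` and `h`),
`F^k = ∑ (k choose i) G^i Z^(k-i)` (`Commute.add_pow`), `Z^j` is admissible; `odd`, `two`, `four`, `six`
with `W = 1`, `L1`, `L2`, `L3` in the subalgebra generated by `Om`.  With `p_k = tr (Om^k)`:
`F^7/5040 → Z^7/5040 + (p₂/16) Z^5/120 + (p₂²/512 - p₄/384) Z³/6 + (p₂³/24576 - p₂p₄/6144 + p₆/5760) Z`,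
`L1 F^5/120 → L1 (Z^5/120 + (p₂/16) Z³/6 + (p₂²/512 - p₄/384) Z)`,
`L2 F³/6 → L2 (Z³/6 + (p₂/16) Z)`, `L3 F → L3 Z`, and
`L1 = -p₂/48`, `L2 = ½ L1² + p₄/5760`, `L3 = L1³/6 + L1 p₄/5760 - p₆/362880`; the sums are
`p₂/16 + L1 = p₂/24`, `p₂²/512 - p₄/384 + L1 p₂/16 + L2 = p₂²/1152 - 7p₄/2880`,
`p₂³/24576 - p₂p₄/6144 + p₆/5760 + L1 (p₂²/512 - p₄/384) + L2 p₂/16 + L3 =
p₂³/82944 - 7 p₂p₄/69120 + 31 p₆/181440`.
(The `p_k` commute with each other and with `Z`, `G`.)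
-/

set_option autoImplicit false
set_option maxSynthPendingDepth 3

open scoped ContDiff Topology
open Finset Matrix

noncomputable section

namespace Pool.Agent.EXO.L

variable {n : ℕ} {R : Type*} [Ring R] [Algebra ℂ R]

/-- The coefficients of the model solution in weight `14`. -/
def l1 (p2 : R) : R := (-1 / 48 : ℂ) • p2

@[inherit_doc l1]
def l2 (p2 p4 : R) : R := (1 / 2 : ℂ) • (l1 p2 * l1 p2) + (1 / 5760 : ℂ) • p4

@[inherit_doc l1]
def l3 (p2 p4 p6 : R) : R := (1 / 6 : ℂ) • (l1 p2 * l1 p2 * l1 p2) +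
  (1 / 5760 : ℂ) • (l1 p2 * p4) + (-1 / 362880 : ℂ) • p6

private lemma LTfA_Kcomm (S : TSys n R) (x : R) (hx : ∀ i j, S.Om i j * x = x * S.Om i j) {K : R}
    (hK : K ∈ Algebra.adjoin ℂ (Set.range fun p : Fin n × Fin n => S.Om p.1 p.2)) :
    K * x = x * K := by
  have hle : Algebra.adjoin ℂ (Set.range fun p : Fin n × Fin n => S.Om p.1 p.2) ≤
      Subalgebra.centralizer ℂ {x} := by
    refine Algebra.adjoin_le ?_
    rintro _ ⟨p, rfl⟩
    rw [SetLike.mem_coe, Subalgebra.mem_centralizer_iff]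
    intro g hg
    rw [Set.mem_singleton_iff] at hg
    subst hg
    exact (hx p.1 p.2).symm
  have := hle hK
  rw [Subalgebra.mem_centralizer_iff] at this
  exact (this x rfl).symm

private lemma LTfA_pow_mem (S : TSys n R) (m : ℕ) (k l : Fin n) :
    (S.Om ^ m) k l ∈ Algebra.adjoin ℂ (Set.range fun p : Fin n × Fin n => S.Om p.1 p.2) := by
  induction m generalizing k l with
  | zero =>
    rw [pow_zero, Matrix.one_apply]
    split
    · exact one_mem _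
    · exact zero_mem _
  | succ m ih =>
    rw [pow_succ, Matrix.mul_apply]
    exact sum_mem fun q _ => mul_mem (ih k q) (Algebra.subset_adjoin ⟨(q, l), rfl⟩)

private lemma LTfA_tr_mem (S : TSys n R) (m : ℕ) :
    (S.Om ^ m).trace ∈ Algebra.adjoin ℂ (Set.range fun p : Fin n × Fin n => S.Om p.1 p.2) :=
  sum_mem fun q _ => LTfA_pow_mem S m q q

private lemma LTfA_tr_comm (S : TSys n R) (a b : ℕ) :
    (S.Om ^ a).trace * (S.Om ^ b).trace = (S.Om ^ b).trace * (S.Om ^ a).trace := by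
  refine LTfA_Kcomm S _ (fun i j => ?_) (LTfA_tr_mem S a)
  refine (LTfA_Kcomm S _ (fun k l => ?_) (LTfA_tr_mem S b)).symm
  exact S.OmOm k l i j

private lemma LTfA_one (S : TSys n R) : S.Adm 1 :=
  ⟨one_mem _, fun i => by rw [mul_one, one_mul], fun i j => by rw [mul_one, one_mul]⟩

private lemma LTfA_pow (S : TSys n R) {Z : R} (hZ : S.Adm Z) (m : ℕ) : S.Adm (Z ^ m) := by
  refine ⟨pow_mem hZ.mem m, fun i => ?_, fun i j => ?_⟩
  · exact Commute.pow_right (show Commute (S.h i) Z from hZ.com i) m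
  · exact Commute.pow_right (show Commute (S.Om i j) Z from hZ.comO i j) m

private lemma LTfA_comm (S : TSys n R) {Z : R} (hZ : S.Adm Z) : Commute S.G Z := by
  show S.G * Z = Z * S.G
  unfold TSys.G
  rw [smul_mul_assoc, mul_smul_comm, Finset.sum_mul, Finset.mul_sum]
  congr 1
  refine Finset.sum_congr rfl fun i _ => ?_
  rw [Finset.sum_mul, Finset.mul_sum]
  refine Finset.sum_congr rfl fun j _ => ?_
  rw [mul_assoc, mul_assoc, hZ.com j, ← mul_assoc (S.h i), hZ.com i, mul_assoc Z, ← mul_assoc,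
    hZ.comO i j, mul_assoc]

/-- expansion of a power -/
private lemma LTfA_expand (S : TSys n R) {Z : R} (hZ : S.Adm Z) (W : R) (k : ℕ) :
    S.t (W * (S.G + Z) ^ k) =
      ∑ m ∈ Finset.range (k + 1), (k.choose m : ℂ) * S.t (W * (S.G ^ m * Z ^ (k - m))) := by
  rw [(LTfA_comm S hZ).add_pow, Finset.mul_sum, map_sum]
  refine Finset.sum_congr rfl fun m _ => ?_
  rw [← Nat.cast_comm, ← nsmul_eq_mul, mul_smul_comm, map_nsmul, nsmul_eq_mul]

variable {Z W : R}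

private lemma LTfA_e1 (S : TSys n R) (hZ : S.Adm Z)
    (hW : W ∈ Algebra.adjoin ℂ (Set.range fun p : Fin n × Fin n => S.Om p.1 p.2)) :
    S.t (W * (S.G + Z)) = S.t (W * Z) := by
  have h := LTfA_expand S hZ W 1
  have h1 := TSys.odd (LTfA_one S) hW 1 (Or.inl rfl)
  simp only [Finset.sum_range_succ, Finset.sum_range_zero, Nat.choose, pow_one, pow_zero,
    Nat.sub_zero, Nat.sub_self, one_mul, zero_add, Nat.cast_one, Nat.reduceAdd] at h h1
  rw [h, h1, add_zero]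

private lemma LTfA_e3 (S : TSys n R) (hZ : S.Adm Z)
    (hW : W ∈ Algebra.adjoin ℂ (Set.range fun p : Fin n × Fin n => S.Om p.1 p.2)) :
    S.t (W * (S.G + Z) ^ 3) = S.t (W * Z ^ 3) + 3 / 8 * S.t (W * ((S.Om ^ 2).trace * Z)) := by
  have h := LTfA_expand S hZ W 3
  have h0 : S.t (W * (S.G ^ 3 * 1)) = 0 := TSys.odd (LTfA_one S) hW 3 (by norm_num)
  have h1 : S.t (W * (S.G ^ 1 * Z ^ 2)) = 0 := TSys.odd (LTfA_pow S hZ 2) hW 1 (by norm_num)
  have h2 := TSys.two hZ hW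
  simp only [Finset.sum_range_succ, Finset.sum_range_zero, Nat.choose, pow_zero,
    Nat.sub_zero, Nat.sub_self, one_mul, zero_add, Nat.cast_one, Nat.reduceAdd, Nat.reduceSub] at h
  rw [h, h0, h1, pow_one, h2]
  push_cast
  ring

private lemma LTfA_e5 (S : TSys n R) (hZ : S.Adm Z)
    (hW : W ∈ Algebra.adjoin ℂ (Set.range fun p : Fin n × Fin n => S.Om p.1 p.2)) :
    S.t (W * (S.G + Z) ^ 5) = S.t (W * Z ^ 5) +
      5 / 4 * S.t (W * ((S.Om ^ 2).trace * Z ^ 3)) +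
      15 / 64 * S.t (W * ((S.Om ^ 2).trace ^ 2 * Z)) -
      5 / 16 * S.t (W * ((S.Om ^ 4).trace * Z)) := by
  have h := LTfA_expand S hZ W 5
  have h0 : S.t (W * (S.G ^ 5 * 1)) = 0 := TSys.odd (LTfA_one S) hW 5 (by norm_num)
  have h1 : S.t (W * (S.G ^ 1 * Z ^ 4)) = 0 := TSys.odd (LTfA_pow S hZ 4) hW 1 (by norm_num)
  have h3 : S.t (W * (S.G ^ 3 * Z ^ 2)) = 0 := TSys.odd (LTfA_pow S hZ 2) hW 3 (by norm_num)
  have h2 := TSys.two (LTfA_pow S hZ 3) hW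
  have h4 := TSys.four hZ hW
  simp only [Finset.sum_range_succ, Finset.sum_range_zero, Nat.choose, pow_zero,
    Nat.sub_zero, Nat.sub_self, one_mul, zero_add, Nat.cast_one, Nat.reduceAdd, Nat.reduceSub] at h
  rw [h, h0, h1, h3, h2, pow_one, h4]
  push_cast
  ring

private lemma LTfA_e7 (S : TSys n R) (hZ : S.Adm Z)
    (hW : W ∈ Algebra.adjoin ℂ (Set.range fun p : Fin n × Fin n => S.Om p.1 p.2)) :
    S.t (W * (S.G + Z) ^ 7) = S.t (W * Z ^ 7) +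
      21 / 8 * S.t (W * ((S.Om ^ 2).trace * Z ^ 5)) +
      35 * (3 / 64 * S.t (W * ((S.Om ^ 2).trace ^ 2 * Z ^ 3)) -
      1 / 16 * S.t (W * ((S.Om ^ 4).trace * Z ^ 3))) +
      7 * (15 / 512 * S.t (W * ((S.Om ^ 2).trace ^ 3 * Z))
      - 15 / 128 * S.t (W * ((S.Om ^ 2).trace * (S.Om ^ 4).trace * Z))
      + 1 / 8 * S.t (W * ((S.Om ^ 6).trace * Z))) := by
  have h := LTfA_expand S hZ W 7
  have h0 : S.t (W * (S.G ^ 7 * 1)) = 0 := TSys.odd (LTfA_one S) hW 7 (by norm_num)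
  have h1 : S.t (W * (S.G ^ 1 * Z ^ 6)) = 0 := TSys.odd (LTfA_pow S hZ 6) hW 1 (by norm_num)
  have h3 : S.t (W * (S.G ^ 3 * Z ^ 4)) = 0 := TSys.odd (LTfA_pow S hZ 4) hW 3 (by norm_num)
  have h5 : S.t (W * (S.G ^ 5 * Z ^ 2)) = 0 := TSys.odd (LTfA_pow S hZ 2) hW 5 (by norm_num)
  have h2 := TSys.two (LTfA_pow S hZ 5) hW
  have h4 := TSys.four (LTfA_pow S hZ 3) hW
  have h6 := TSys.six hZ hW
  simp only [Finset.sum_range_succ, Finset.sum_range_zero, Nat.choose, pow_zero,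
    Nat.sub_zero, Nat.sub_self, one_mul, zero_add, Nat.cast_one, Nat.reduceAdd, Nat.reduceSub] at h
  rw [h, h0, h1, h3, h5, h2, h4, pow_one, h6]
  push_cast
  ring

theorem tval (S : TSys n R) (Z : R) (hZ : S.Adm Z) :
    S.t ((1 / 5040 : ℂ) • (S.G + Z) ^ 7 +
      (1 / 120 : ℂ) • (l1 (S.Om ^ 2).trace * (S.G + Z) ^ 5) +
      (1 / 6 : ℂ) • (l2 (S.Om ^ 2).trace (S.Om ^ 4).trace * (S.G + Z) ^ 3) +
      l3 (S.Om ^ 2).trace (S.Om ^ 4).trace (S.Om ^ 6).trace * (S.G + Z)) =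
    S.t ((1 / 5040 : ℂ) • Z ^ 7 + (1 / 120 : ℂ) • (Lh1 (S.Om ^ 2).trace * Z ^ 5) +
      (1 / 6 : ℂ) • (Lh2 (S.Om ^ 2).trace (S.Om ^ 4).trace * Z ^ 3) +
      Lh3 (S.Om ^ 2).trace (S.Om ^ 4).trace (S.Om ^ 6).trace * Z) := by
  have m2 := LTfA_tr_mem S 2
  have m4 := LTfA_tr_mem S 4
  have m6 := LTfA_tr_mem S 6
  have c42 := LTfA_tr_comm S 4 2
  have e7 := LTfA_e7 S hZ (one_mem _)
  have e5 := LTfA_e5 S hZ m2
  have e3a := LTfA_e3 S hZ (mul_mem m2 m2)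
  have e3b := LTfA_e3 S hZ m4
  have e1a := LTfA_e1 S hZ (mul_mem (mul_mem m2 m2) m2)
  have e1b := LTfA_e1 S hZ (mul_mem m2 m4)
  have e1c := LTfA_e1 S hZ m6
  have c42' : ∀ x : R, (S.Om ^ 4).trace * ((S.Om ^ 2).trace * x) =
      (S.Om ^ 2).trace * ((S.Om ^ 4).trace * x) := by
    intro x
    rw [← mul_assoc, c42, mul_assoc]
  generalize hp2 : (S.Om ^ 2).trace = p2 at *
  generalize hp4 : (S.Om ^ 4).trace = p4 at *
  generalize hp6 : (S.Om ^ 6).trace = p6 at *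
  generalize hX : S.G + Z = X at *
  have q2 : p2 ^ 2 = p2 * p2 := pow_two p2
  have q3 : p2 ^ 3 = p2 * (p2 * p2) := by rw [pow_succ, pow_two, mul_assoc]
  unfold l3 l2 l1 Lh1 Lh2 Lh3
  simp only [q2, q3] at e7 e5 ⊢
  simp only [map_add, map_sub, map_smul, add_mul, sub_mul, smul_mul_assoc, mul_smul_comm, smul_add,
    smul_sub, smul_eq_mul, mul_assoc, one_mul, smul_smul] at e7 e5 e3a e3b e1a e1b e1c ⊢
  simp only [c42'] at e7 e5 e3a e3b e1a e1b e1c ⊢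
  rw [e7, e5, e3a, e3b, e1a, e1b, e1c]
  ring

end Pool.Agent.EXO.L
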