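import Pool.Agent.EXO.LTfA
import Pool.Agent.EXO.LMdA
import Pool.Agent.EXO.FmFA

/-!
# EXO / LTfB : the trace of the model solution in terms of forms on `ℝ^14` (IDX-L)

`EF = liftFA (Ee)`: `FA 14 → End (End H)`, `EF (of1 (bv k)) = Ee k` (`Ee_Ee`; `Ee k * Ee k = 0`).
* `tsys`: the `TSys` with `h i = lm (h i)`, `Om`, `t`, `U` = the centralizer of the operators
  `rm (h i)`: `lm` and `rm` commute; `Ee k` commutes with `rm r` whenever `r` commutes with `g * c k`
  (`Ee k (x r) = ½(c x r + g x r g c)`); `h i` does.  `t (h_i X) = tr (Γ h_i X(Q))`,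
  `t (X h_i) = tr (Γ X(h_i Q)) = tr (Γ X(Q h_i)) = tr (Γ X(Q) h_i) = tr (h_i Γ X(Q))`, and `h_i` commutes with
  `Γ` (`14` sign changes).
* `F1 = G` of this system; `F2` is admissible.
* `Om a b = EF (om a b)`, so `(Om^k).trace = EF ((om^k).trace)`.
* `F2 = ∑_pq EF (fm p q) * lm (f (single p q 1))`, `F2^j = ∑_pq EF ((fm^j) p q) * lm (f (single p q 1))`
  (induction; `f (single p q 1) f (single r s 1) = δ_qr f (single p s 1)`, `lm` of even vacuum elements
  commutes with `EF`).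
* `t_EF`: for `α : FA 14` and `T`: `t (EF α * lm (f T)) = - κ * α.co univ * tr (sg f(T) Q)`:
  `f(T) Q ∈ vac`; `EF α = ∑_S α.co S • word Ee S` (`liftFA_apply`); for `S ≠ univ` the element
  `word Ee S (f(T) Q)` lies in `Gf 14` (fewer than `14` letters, `Gf_span`) and `tr_Gf` applies (`Γ`
  anticommutes with the `c i` and commutes with `g`); for `S = univ`, `word Ee univ` is the ordered product
  (`mon_univ`-like, `sort_univ_fin`), `word_vac` gives `c_1 ⋯ c_14 f(T) Q`, and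
  `Γ c_1⋯c_14 = κ c_1⋯c_14 sg c_1⋯c_14 = -κ sg` because `(c_1⋯c_14)² = (-1)^{14·15/2} = -1`.
* conclusion: `model_val` (with `hc`, `hF` from `modOK`), `tval`, `t_EF`; `L1`, `L2`, `L3` of `LVal` are `l1`, `l2`,
  `l3` of the traces.
-/

set_option autoImplicit false
set_option maxSynthPendingDepth 3

open scoped ContDiff Topology
open Finset Matrix

noncomputable section

namespace Pool.Agent.EXO.L

section

variable {n : ℕ} {H : Type} [NormedAddCommGroup H] [NormedSpace ℂ H]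
  {ι : Type} [Fintype ι] [DecidableEq ι] (D : MDat n H ι)

namespace MDat

/-! ### the operators `Ee` -/

private lemma LTfB_EeEe (a b : Fin n) : D.Ee a * D.Ee b = -(D.Ee b * D.Ee a) :=
  eq_neg_of_add_eq_zero_left (D.Ee_Ee a b)

private lemma LTfB_Ee2 (a : Fin n) : D.Ee a * D.Ee a = 0 := by
  have h := D.Ee_Ee a a
  rw [← two_smul ℂ] at h
  exact (smul_eq_zero.1 h).resolve_left two_ne_zero

/-- The algebra of forms acts. -/
private def LTfB_EF : FA n →ₐ[ℂ] ((H →L[ℂ] H) →L[ℂ] (H →L[ℂ] H)) :=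
  liftFA (fun a => D.Ee a) (LTfB_EeEe D) (LTfB_Ee2 D)

private lemma LTfB_EF_dx (k : Fin n) : LTfB_EF D (dx k) = D.Ee k := liftFA_dx _ _ _ k

private lemma LTfB_EF_of1 (k : Fin n) : LTfB_EF D (of1 (bv k)) = D.Ee k := by
  rw [of1_bv, LTfB_EF_dx]

/-- the two-forms of the curvature -/
private def LTfB_omG : Matrix (Fin n) (Fin n) (FA n) := fun a b =>
  (1 / 2 : ℂ) • ∑ k, ∑ l, ((D.R k l a b : ℝ) : ℂ) • (of1 (bv k) * of1 (bv l))

/-- the curvature matrix of two-forms -/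
private def LTfB_fmG : Matrix ι ι (FA n) := fun p q =>
  (1 / 2 : ℂ) • ∑ k, ∑ l, D.C k l p q • (of1 (bv k) * of1 (bv l))

private def LTfB_topG : Matrix ι ι (FA n) :=
  (1 / 5040 : ℂ) • D.LTfB_fmG ^ 7 +
    (1 / 120 : ℂ) • (Lh1 (D.LTfB_omG ^ 2).trace • D.LTfB_fmG ^ 5) +
    (1 / 6 : ℂ) • (Lh2 (D.LTfB_omG ^ 2).trace (D.LTfB_omG ^ 4).trace • D.LTfB_fmG ^ 3) +
    Lh3 (D.LTfB_omG ^ 2).trace (D.LTfB_omG ^ 4).trace (D.LTfB_omG ^ 6).trace • D.LTfB_fmG

private lemma LTfB_EF_apply (α : FA n) :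
    LTfB_EF D α = ∑ S, α.co S • word (fun a => D.Ee a) S := liftFA_apply _ _ _ α

private lemma LTfB_EF_om (a b : Fin n) : LTfB_EF D (D.LTfB_omG a b) = D.Om a b := by
  unfold LTfB_omG MDat.Om
  rw [map_smul, map_sum]
  congr 1
  refine Finset.sum_congr rfl fun k _ => ?_
  rw [map_sum]
  refine Finset.sum_congr rfl fun l _ => ?_
  rw [map_smul, map_mul, LTfB_EF_of1, LTfB_EF_of1]

private lemma LTfB_EF_tr (k : ℕ) : LTfB_EF D (D.LTfB_omG ^ k).trace = (D.Om ^ k).trace := by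
  have h1 : (LTfB_EF D).mapMatrix D.LTfB_omG = D.Om := by
    refine Matrix.ext fun a b => ?_
    exact LTfB_EF_om D a b
  have h2 : (LTfB_EF D).mapMatrix (D.LTfB_omG ^ k) = D.Om ^ k := by rw [map_pow, h1]
  rw [← h2, Matrix.trace, Matrix.trace, map_sum]
  refine Finset.sum_congr rfl fun a _ => ?_
  rw [Matrix.diag_apply, Matrix.diag_apply, AlgHom.mapMatrix_apply, Matrix.map_apply]

private lemma LTfB_vacE {b : H →L[ℂ] H} (hb : b ∈ D.vac) (i : Fin n) :
    lm b * D.Ee i = D.Ee i * lm (D.g * b * D.g) := by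
  refine ContinuousLinearMap.ext fun k => ?_
  exact D.lm_Ee hb i k

private lemma LTfB_fE (T : Matrix ι ι ℂ) (i : Fin n) :
    lm (D.f T) * D.Ee i = D.Ee i * lm (D.f T) := by
  rw [LTfB_vacE D (D.f_vac T) i, D.f_g, mul_assoc, D.gg, mul_one]

private lemma LTfB_hE (j : Fin n) (i : Fin n) :
    lm (D.h j) * D.Ee i = -(D.Ee i * lm (D.h j)) := by
  rw [LTfB_vacE D (D.h_vac j) i, D.h_g, neg_mul, mul_assoc, D.gg, mul_one]
  have h : lm (-D.h j) = -lm (D.h j) := by
    refine ContinuousLinearMap.ext fun k => ?_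
    show -D.h j * k = -(D.h j * k)
    rw [neg_mul]
  rw [h, mul_neg]

private lemma LTfB_lm_mul (a b : H →L[ℂ] H) : lm (a * b) = lm a * lm b := by
  refine ContinuousLinearMap.ext fun k => ?_
  show a * b * k = a * (b * k)
  rw [mul_assoc]

private lemma LTfB_lm_add (a b : H →L[ℂ] H) : lm (a + b) = lm a + lm b := by
  refine ContinuousLinearMap.ext fun k => ?_
  show (a + b) * k = a * k + b * k
  rw [add_mul]

private lemma LTfB_lm_smul (r : ℂ) (a : H →L[ℂ] H) : lm (r • a) = r • lm a := by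
  refine ContinuousLinearMap.ext fun k => ?_
  show (r • a) * k = r • (a * k)
  rw [smul_mul_assoc]

private lemma LTfB_lm_one : lm (1 : H →L[ℂ] H) = 1 := by
  refine ContinuousLinearMap.ext fun k => ?_
  show (1 : H →L[ℂ] H) * k = k
  rw [one_mul]

private lemma LTfB_lm_zero : lm (0 : H →L[ℂ] H) = 0 := by
  refine ContinuousLinearMap.ext fun k => ?_
  show (0 : H →L[ℂ] H) * k = 0
  rw [zero_mul]

private lemma LTfB_lm_rm (a b : H →L[ℂ] H) : rm b * lm a = lm a * rm b := by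
  refine ContinuousLinearMap.ext fun k => ?_
  show (a * k) * b = a * (k * b)
  rw [mul_assoc]

private lemma LTfB_rE (j i : Fin n) : rm (D.h j) * D.Ee i = D.Ee i * rm (D.h j) := by
  refine ContinuousLinearMap.ext fun k => ?_
  show D.Ee i k * D.h j = D.Ee i (k * D.h j)
  rw [CSys.Ee_apply, CSys.Ee_apply, smul_mul_assoc, add_mul]
  have h1 : D.g * D.c i * D.h j = D.h j * (D.g * D.c i) := by
    have h2 : D.h j * D.g = -(D.g * D.h j) := by rw [D.h_g, neg_neg]
    rw [mul_assoc, D.h_c, ← mul_assoc, h2, mul_neg, neg_mul, mul_assoc]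
  rw [mul_assoc D.g, mul_assoc k, mul_assoc k, h1, mul_assoc (D.c i)]

private lemma LTfB_rEF (j : Fin n) (α : FA n) :
    rm (D.h j) * LTfB_EF D α = LTfB_EF D α * rm (D.h j) := by
  induction α using FA_induction with
  | h0 => rw [map_one, one_mul, mul_one]
  | hadd x y hx hy => rw [map_add, mul_add, add_mul, hx, hy]
  | hsmul r x hx => rw [map_smul, mul_smul_comm, smul_mul_assoc, hx]
  | hdx a x hx =>
    rw [map_mul, LTfB_EF_dx, ← mul_assoc, LTfB_rE, mul_assoc, hx, mul_assoc]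

private lemma LTfB_fEF (T : Matrix ι ι ℂ) (α : FA n) :
    lm (D.f T) * LTfB_EF D α = LTfB_EF D α * lm (D.f T) := by
  induction α using FA_induction with
  | h0 => rw [map_one, one_mul, mul_one]
  | hadd x y hx hy => rw [map_add, mul_add, add_mul, hx, hy]
  | hsmul r x hx => rw [map_smul, mul_smul_comm, smul_mul_assoc, hx]
  | hdx a x hx =>
    rw [map_mul, LTfB_EF_dx, ← mul_assoc, LTfB_fE, mul_assoc, hx, mul_assoc]

/-- even forms commute with `lm h` -/
private lemma LTfB_hEE (j k l : Fin n) :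
    lm (D.h j) * (D.Ee k * D.Ee l) = D.Ee k * D.Ee l * lm (D.h j) := by
  rw [← mul_assoc, LTfB_hE, neg_mul, mul_assoc, LTfB_hE, mul_neg, neg_neg, mul_assoc]

private lemma LTfB_hOm (j a b : Fin n) :
    D.Om a b * lm (D.h j) = lm (D.h j) * D.Om a b := by
  unfold MDat.Om
  rw [smul_mul_assoc, mul_smul_comm, Finset.sum_mul, Finset.mul_sum]
  congr 1
  refine Finset.sum_congr rfl fun k _ => ?_
  rw [Finset.sum_mul, Finset.mul_sum]
  refine Finset.sum_congr rfl fun l _ => ?_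
  rw [smul_mul_assoc, mul_smul_comm, LTfB_hEE]

/-! ### matrices of forms -/

/-- the action of a matrix of forms -/
private def LTfB_Ph (M : Matrix ι ι (FA n)) : (H →L[ℂ] H) →L[ℂ] (H →L[ℂ] H) :=
  ∑ p, ∑ q, LTfB_EF D (M p q) * lm (D.f (Matrix.single p q 1))

private lemma LTfB_Ph_add (M N : Matrix ι ι (FA n)) :
    LTfB_Ph D (M + N) = LTfB_Ph D M + LTfB_Ph D N := by
  unfold LTfB_Ph
  rw [← Finset.sum_add_distrib]
  refine Finset.sum_congr rfl fun p _ => ?_
  rw [← Finset.sum_add_distrib]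
  refine Finset.sum_congr rfl fun q _ => ?_
  rw [Matrix.add_apply, map_add, add_mul]

private lemma LTfB_Ph_smul (r : ℂ) (M : Matrix ι ι (FA n)) :
    LTfB_Ph D (r • M) = r • LTfB_Ph D M := by
  unfold LTfB_Ph
  rw [Finset.smul_sum]
  refine Finset.sum_congr rfl fun p _ => ?_
  rw [Finset.smul_sum]
  refine Finset.sum_congr rfl fun q _ => ?_
  rw [Matrix.smul_apply, map_smul, smul_mul_assoc]

private lemma LTfB_Ph_smul' (α : FA n) (M : Matrix ι ι (FA n)) :
    LTfB_Ph D (α • M) = LTfB_EF D α * LTfB_Ph D M := by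
  unfold LTfB_Ph
  rw [Finset.mul_sum]
  refine Finset.sum_congr rfl fun p _ => ?_
  rw [Finset.mul_sum]
  refine Finset.sum_congr rfl fun q _ => ?_
  rw [Matrix.smul_apply, smul_eq_mul, map_mul, mul_assoc]

private lemma LTfB_Ph_mul (M N : Matrix ι ι (FA n)) :
    LTfB_Ph D (M * N) = LTfB_Ph D M * LTfB_Ph D N := by
  unfold LTfB_Ph
  have h1 : ∀ p q r s, LTfB_EF D (M p q) * lm (D.f (Matrix.single p q 1)) *
      (LTfB_EF D (N r s) * lm (D.f (Matrix.single r s 1))) =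
      if q = r then LTfB_EF D (M p q * N q s) * lm (D.f (Matrix.single p s 1)) else 0 := by
    intro p q r s
    rw [mul_assoc, ← mul_assoc (lm (D.f (Matrix.single p q 1))), LTfB_fEF, mul_assoc (LTfB_EF D (N r s)),
      ← LTfB_lm_mul, ← map_mul, ← mul_assoc, ← map_mul]
    split_ifs with h
    · subst h
      rw [Matrix.single_mul_single_same, one_mul]
    · rw [Matrix.single_mul_single_of_ne _ _ _ _ h, map_zero, LTfB_lm_zero, mul_zero]
  rw [Finset.sum_mul]
  refine Finset.sum_congr rfl fun p _ => ?_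
  rw [Finset.sum_mul]
  have h2 : ∀ q, LTfB_EF D (M p q) * lm (D.f (Matrix.single p q 1)) *
      (∑ r, ∑ s, LTfB_EF D (N r s) * lm (D.f (Matrix.single r s 1))) =
      ∑ s, LTfB_EF D (M p q * N q s) * lm (D.f (Matrix.single p s 1)) := by
    intro q
    rw [Finset.mul_sum, Finset.sum_eq_single q]
    · rw [Finset.mul_sum]
      refine Finset.sum_congr rfl fun s _ => ?_
      rw [h1, if_pos rfl]
    · intro r _ hr
      rw [Finset.mul_sum]
      refine Finset.sum_eq_zero fun s _ => ?_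
      rw [h1, if_neg (Ne.symm hr)]
    · intro h
      exact absurd (Finset.mem_univ q) h
  simp_rw [h2]
  rw [Finset.sum_comm]
  refine Finset.sum_congr rfl fun s _ => ?_
  rw [Matrix.mul_apply, map_sum, Finset.sum_mul]

private lemma LTfB_Ph_one : LTfB_Ph D 1 = 1 := by
  unfold LTfB_Ph
  have h1 : ∀ p, ∑ q, LTfB_EF D ((1 : Matrix ι ι (FA n)) p q) * lm (D.f (Matrix.single p q 1)) =
      lm (D.f (Matrix.single p p 1)) := by
    intro p
    rw [Finset.sum_eq_single p]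
    · rw [Matrix.one_apply_eq, map_one, one_mul]
    · intro q _ hq
      rw [Matrix.one_apply_ne (Ne.symm hq), map_zero, zero_mul]
    · intro h
      exact absurd (Finset.mem_univ p) h
  simp_rw [h1]
  have h2 : ∀ s : Finset ι, ∑ p ∈ s, lm (D.f (Matrix.single p p 1)) =
      lm (D.f (∑ p ∈ s, Matrix.single p p 1)) := by
    intro s
    induction s using Finset.induction_on with
    | empty => rw [Finset.sum_empty, Finset.sum_empty, map_zero, LTfB_lm_zero]
    | insert a s ha ih =>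
      rw [Finset.sum_insert ha, Finset.sum_insert ha, map_add, LTfB_lm_add, ih]
  rw [h2, Matrix.sum_single_one, map_one, LTfB_lm_one]

private lemma LTfB_Ph_pow (M : Matrix ι ι (FA n)) (k : ℕ) :
    LTfB_Ph D (M ^ k) = LTfB_Ph D M ^ k := by
  induction k with
  | zero => rw [pow_zero, pow_zero, LTfB_Ph_one]
  | succ k ih => rw [pow_succ, LTfB_Ph_mul, ih, pow_succ]

private lemma LTfB_lm_f (T : Matrix ι ι ℂ) :
    lm (D.f T) = ∑ p, ∑ q, T p q • lm (D.f (Matrix.single p q 1)) := by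
  have h1 : ∀ s : Finset (ι × ι), ∑ p ∈ s, T p.1 p.2 • lm (D.f (Matrix.single p.1 p.2 1)) =
      lm (D.f (∑ p ∈ s, T p.1 p.2 • Matrix.single p.1 p.2 1)) := by
    intro s
    induction s using Finset.induction_on with
    | empty => rw [Finset.sum_empty, Finset.sum_empty, map_zero, LTfB_lm_zero]
    | insert a s ha ih =>
      rw [Finset.sum_insert ha, Finset.sum_insert ha, map_add, LTfB_lm_add, ih, map_smul,
        LTfB_lm_smul]
  have h2 := h1 Finset.univ
  rw [Fintype.sum_prod_type, Fintype.sum_prod_type] at h2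
  rw [h2]
  congr 2
  nth_rewrite 1 [Matrix.matrix_eq_sum_single T]
  refine Finset.sum_congr rfl fun p _ => Finset.sum_congr rfl fun q _ => ?_
  rw [Matrix.smul_single, smul_eq_mul, mul_one]

private lemma LTfB_Ph_fm : LTfB_Ph D D.LTfB_fmG = D.F2 := by
  unfold LTfB_Ph MDat.F2 LTfB_fmG
  have h1 : ∀ k l, D.Ee k * D.Ee l * lm (D.f (D.C k l)) =
      ∑ p, ∑ q, D.C k l p q • (D.Ee k * D.Ee l * lm (D.f (Matrix.single p q 1))) := by
    intro k l
    rw [LTfB_lm_f D (D.C k l), Finset.mul_sum]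
    refine Finset.sum_congr rfl fun p _ => ?_
    rw [Finset.mul_sum]
    refine Finset.sum_congr rfl fun q _ => ?_
    rw [mul_smul_comm]
  simp_rw [h1]
  have h2 : ∀ p q, LTfB_EF D ((1 / 2 : ℂ) • ∑ k, ∑ l, D.C k l p q • (of1 (bv k) * of1 (bv l))) *
      lm (D.f (Matrix.single p q 1)) =
      (1 / 2 : ℂ) • ∑ k, ∑ l, D.C k l p q • (D.Ee k * D.Ee l * lm (D.f (Matrix.single p q 1))) := by
    intro p q
    rw [map_smul, map_sum, smul_mul_assoc, Finset.sum_mul]
    congr 1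
    refine Finset.sum_congr rfl fun k _ => ?_
    rw [map_sum, Finset.sum_mul]
    refine Finset.sum_congr rfl fun l _ => ?_
    rw [map_smul, map_mul, LTfB_EF_of1, LTfB_EF_of1, smul_mul_assoc]
  simp_rw [h2]
  simp_rw [← Finset.smul_sum]
  congr 1
  have h3 : ∀ p, ∑ q, ∑ k, ∑ l, D.C k l p q • (D.Ee k * D.Ee l * lm (D.f (Matrix.single p q 1))) =
      ∑ k, ∑ l, ∑ q, D.C k l p q • (D.Ee k * D.Ee l * lm (D.f (Matrix.single p q 1))) := by
    intro p
    rw [Finset.sum_comm]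
    refine Finset.sum_congr rfl fun k _ => ?_
    rw [Finset.sum_comm]
  simp_rw [h3]
  rw [Finset.sum_comm]
  refine Finset.sum_congr rfl fun k _ => ?_
  rw [Finset.sum_comm]

private lemma LTfB_Ph_top : (1 / 5040 : ℂ) • D.F2 ^ 7 + (1 / 120 : ℂ) • (Lh1 (D.Om ^ 2).trace * D.F2 ^ 5) +
      (1 / 6 : ℂ) • (Lh2 (D.Om ^ 2).trace (D.Om ^ 4).trace * D.F2 ^ 3) +
      Lh3 (D.Om ^ 2).trace (D.Om ^ 4).trace (D.Om ^ 6).trace * D.F2 = LTfB_Ph D D.LTfB_topG := by
  have e1 : LTfB_EF D (Lh1 (D.LTfB_omG ^ 2).trace) = Lh1 (D.Om ^ 2).trace := by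
    unfold Lh1
    rw [map_smul, LTfB_EF_tr]
  have e2 : LTfB_EF D (Lh2 (D.LTfB_omG ^ 2).trace (D.LTfB_omG ^ 4).trace) =
      Lh2 (D.Om ^ 2).trace (D.Om ^ 4).trace := by
    unfold Lh2
    rw [map_sub, map_smul, map_smul, map_pow, LTfB_EF_tr, LTfB_EF_tr]
  have e3 : LTfB_EF D (Lh3 (D.LTfB_omG ^ 2).trace (D.LTfB_omG ^ 4).trace (D.LTfB_omG ^ 6).trace) =
      Lh3 (D.Om ^ 2).trace (D.Om ^ 4).trace (D.Om ^ 6).trace := by
    unfold Lh3
    rw [map_add, map_sub, map_smul, map_smul, map_smul, map_mul, map_pow, LTfB_EF_tr,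
      LTfB_EF_tr, LTfB_EF_tr]
  unfold LTfB_topG
  rw [LTfB_Ph_add, LTfB_Ph_add, LTfB_Ph_add, LTfB_Ph_smul, LTfB_Ph_smul, LTfB_Ph_smul,
    LTfB_Ph_smul', LTfB_Ph_smul', LTfB_Ph_smul', LTfB_Ph_pow, LTfB_Ph_pow, LTfB_Ph_pow,
    LTfB_Ph_fm, e1, e2, e3]

/-- the second part commutes with the `rm h` -/
private lemma LTfB_rF2 (j : Fin n) : rm (D.h j) * D.F2 = D.F2 * rm (D.h j) := by
  rw [← LTfB_Ph_fm]
  unfold LTfB_Ph
  rw [Finset.mul_sum, Finset.sum_mul]
  refine Finset.sum_congr rfl fun p _ => ?_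
  rw [Finset.mul_sum, Finset.sum_mul]
  refine Finset.sum_congr rfl fun q _ => ?_
  rw [← mul_assoc, LTfB_rEF, mul_assoc, LTfB_lm_rm, mul_assoc]

private lemma LTfB_rOm (j a b : Fin n) : rm (D.h j) * D.Om a b = D.Om a b * rm (D.h j) := by
  rw [← LTfB_EF_om]
  exact LTfB_rEF D j _

private lemma LTfB_hF2 (i : Fin n) : lm (D.h i) * D.F2 = D.F2 * lm (D.h i) := by
  unfold MDat.F2
  rw [mul_smul_comm, smul_mul_assoc, Finset.mul_sum, Finset.sum_mul]
  congr 1
  refine Finset.sum_congr rfl fun k _ => ?_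
  rw [Finset.mul_sum, Finset.sum_mul]
  refine Finset.sum_congr rfl fun l _ => ?_
  rw [← mul_assoc, LTfB_hEE, mul_assoc, ← LTfB_lm_mul, D.f_h, LTfB_lm_mul, ← mul_assoc]

private lemma LTfB_OmF2 (a b : Fin n) : D.Om a b * D.F2 = D.F2 * D.Om a b := by
  have h1 := D.modOK.hF a b
  have h2 : D.Om a b * D.F1 = D.F1 * D.Om a b := by
    unfold MDat.F1
    rw [mul_smul_comm, smul_mul_assoc, Finset.mul_sum, Finset.sum_mul]
    congr 1
    refine Finset.sum_congr rfl fun k _ => ?_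
    rw [Finset.mul_sum, Finset.sum_mul]
    refine Finset.sum_congr rfl fun l _ => ?_
    rw [← mul_assoc, D.modOK.hc, mul_assoc, ← mul_assoc (D.Om a b), LTfB_hOm, mul_assoc,
      LTfB_hOm, mul_assoc, mul_assoc]
  rw [mul_add, add_mul, h2] at h1
  exact add_left_cancel h1

private lemma LTfB_wordGf (S : Finset (Fin n)) (hS : S ≠ univ) {b : H →L[ℂ] H} (hb : b ∈ D.vac) :
    (word (fun a => D.Ee a) S) b ∈ D.Gf n := by
  rw [D.Gf_span]
  refine Submodule.subset_span ⟨S.sort (· ≤ ·), b, ?_, hb, rfl⟩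
  rw [Finset.length_sort]
  obtain ⟨a, ha⟩ : ∃ a, a ∉ S := by
    by_contra hcon
    push Not at hcon
    exact hS (Finset.eq_univ_of_forall hcon)
  have h5 := Finset.card_lt_univ_of_notMem ha
  rwa [Fintype.card_fin] at h5

private lemma LTfB_wordU {b : H →L[ℂ] H} (hb : b ∈ D.vac) :
    (word (fun a => D.Ee a) (univ : Finset (Fin n))) b = (List.ofFn D.c).prod * b := by
  unfold word
  rw [Fin.sort_univ, List.ofFn_eq_map]
  exact D.word_vac _ (List.nodup_finRange n) hb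

private lemma LTfB_tgen [FiniteDimensional ℂ H] (Γ : H →L[ℂ] H)
    (hΓ : ∀ i, Γ * D.c i = -(D.c i * Γ)) (hg : D.g * Γ = Γ * D.g) (α : FA n) {b : H →L[ℂ] H}
    (hb : b ∈ D.vac) : CSys.trc H (Γ * LTfB_EF D α b) =
      α.co univ * CSys.trc H (Γ * ((List.ofFn D.c).prod * b)) := by
  have h0 : LTfB_EF D α b = ∑ S, α.co S • (word (fun a => D.Ee a) S) b := by
    rw [LTfB_EF_apply, _root_.sum_apply]
    rfl
  rw [h0, Finset.mul_sum, map_sum, Finset.sum_eq_single univ]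
  · rw [LTfB_wordU D hb, mul_smul_comm, map_smul, smul_eq_mul]
  · intro S _ hS
    rw [mul_smul_comm, map_smul, D.tr_Gf Γ hΓ hg (LTfB_wordGf D S hS hb), smul_zero]
  · intro h
    exact absurd (Finset.mem_univ _) h

/-- the functional `X ↦ tr (Γ X(Q))` -/
private def LTfB_t (Γ Q : H →L[ℂ] H) : ((H →L[ℂ] H) →L[ℂ] (H →L[ℂ] H)) →ₗ[ℂ] ℂ where
  toFun X := CSys.trc H (Γ * X Q)
  map_add' X Y := by
    rw [_root_.add_apply, mul_add, map_add]
  map_smul' r X := by
    rw [_root_.smul_apply, mul_smul_comm, map_smul]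
    rfl

private lemma LTfB_t_apply (Γ Q : H →L[ℂ] H) (X : (H →L[ℂ] H) →L[ℂ] (H →L[ℂ] H)) :
    LTfB_t Γ Q X = CSys.trc H (Γ * X Q) := rfl

private def LTfB_sys [FiniteDimensional ℂ H] (Γ Q : H →L[ℂ] H) (hΓ : ∀ i, D.h i * Γ = Γ * D.h i)
    (hQ : ∀ i, D.h i * Q = Q * D.h i) : TSys n ((H →L[ℂ] H) →L[ℂ] (H →L[ℂ] H)) where
  h i := lm (D.h i)
  Om := D.Om
  t := LTfB_t Γ Q
  U := Subalgebra.centralizer ℂ (Set.range fun i => rm (D.h i))
  hU i := by
    rw [Subalgebra.mem_centralizer_iff]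
    rintro _ ⟨j, rfl⟩
    exact LTfB_lm_rm _ _
  OmU a b := by
    rw [Subalgebra.mem_centralizer_iff]
    rintro _ ⟨j, rfl⟩
    exact LTfB_rOm D j a b
  hh i j := by
    rw [← LTfB_lm_mul, ← LTfB_lm_mul, ← LTfB_lm_add, D.h_h]
    split_ifs
    · refine ContinuousLinearMap.ext fun k => ?_
      show (2 : H →L[ℂ] H) * k = (2 : (H →L[ℂ] H) →L[ℂ] (H →L[ℂ] H)) k
      have h1 : (2 : (H →L[ℂ] H) →L[ℂ] (H →L[ℂ] H)) = 1 + 1 := by norm_num
      rw [h1, two_mul]
      rfl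
    · exact LTfB_lm_zero
  OmOm i j k l := D.modOK.hc i j k l
  Omh i j k := LTfB_hOm D k i j
  anti i j := D.modOK.anti i j
  tr i x hx := by
    rw [Subalgebra.mem_centralizer_iff] at hx
    have h1 : x (Q * D.h i) = x Q * D.h i := by
      have h2 := hx (rm (D.h i)) ⟨i, rfl⟩
      have h3 := congrArg (fun T : (H →L[ℂ] H) →L[ℂ] (H →L[ℂ] H) => T Q) h2
      exact h3.symm
    show CSys.trc H (Γ * (D.h i * x Q)) = CSys.trc H (Γ * x (D.h i * Q))
    rw [hQ, h1, ← mul_assoc, ← mul_assoc, CSys.trc_mul_comm _ (D.h i), ← mul_assoc, hΓ]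

private lemma LTfB_sysG [FiniteDimensional ℂ H] (Γ Q : H →L[ℂ] H)
    (hΓ : ∀ i, D.h i * Γ = Γ * D.h i)
    (hQ : ∀ i, D.h i * Q = Q * D.h i) : (LTfB_sys D Γ Q hΓ hQ).G = D.F1 := rfl

private lemma LTfB_adm [FiniteDimensional ℂ H] (Γ Q : H →L[ℂ] H)
    (hΓ : ∀ i, D.h i * Γ = Γ * D.h i)
    (hQ : ∀ i, D.h i * Q = Q * D.h i) : (LTfB_sys D Γ Q hΓ hQ).Adm D.F2 := by
  refine ⟨?_, fun i => ?_, fun a b => ?_⟩
  · show D.F2 ∈ Subalgebra.centralizer ℂ (Set.range fun i => rm (D.h i))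
    rw [Subalgebra.mem_centralizer_iff]
    rintro _ ⟨j, rfl⟩
    exact LTfB_rF2 D j
  · exact LTfB_hF2 D i
  · exact LTfB_OmF2 D a b

private lemma LTfB_tvalG [FiniteDimensional ℂ H] (Γ Q : H →L[ℂ] H)
    (hΓ : ∀ i, D.h i * Γ = Γ * D.h i) (hQ : ∀ i, D.h i * Q = Q * D.h i) :
    LTfB_t Γ Q ((1 / 5040 : ℂ) • (D.F1 + D.F2) ^ 7 +
      (1 / 120 : ℂ) • (l1 (D.Om ^ 2).trace * (D.F1 + D.F2) ^ 5) +
      (1 / 6 : ℂ) • (l2 (D.Om ^ 2).trace (D.Om ^ 4).trace * (D.F1 + D.F2) ^ 3) +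
      l3 (D.Om ^ 2).trace (D.Om ^ 4).trace (D.Om ^ 6).trace * (D.F1 + D.F2)) = LTfB_t Γ Q
      ((1 / 5040 : ℂ) • D.F2 ^ 7 + (1 / 120 : ℂ) • (Lh1 (D.Om ^ 2).trace * D.F2 ^ 5) +
      (1 / 6 : ℂ) • (Lh2 (D.Om ^ 2).trace (D.Om ^ 4).trace * D.F2 ^ 3) +
      Lh3 (D.Om ^ 2).trace (D.Om ^ 4).trace (D.Om ^ 6).trace * D.F2) := by
  have h := tval (LTfB_sys D Γ Q hΓ hQ) D.F2 (LTfB_adm D Γ Q hΓ hQ)
  rw [LTfB_sysG] at h
  exact h

private lemma LTfB_valG [FiniteDimensional ℂ H] (Γ Q : H →L[ℂ] H) :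
    CSys.trc H (Γ * (model D.X D.Om (D.F1 + D.F2) Q 14).1 0) =
      -LTfB_t Γ Q ((1 / 5040 : ℂ) • (D.F1 + D.F2) ^ 7 +
      (1 / 120 : ℂ) • (l1 (D.Om ^ 2).trace * (D.F1 + D.F2) ^ 5) +
      (1 / 6 : ℂ) • (l2 (D.Om ^ 2).trace (D.Om ^ 4).trace * (D.F1 + D.F2) ^ 3) +
      l3 (D.Om ^ 2).trace (D.Om ^ 4).trace (D.Om ^ 6).trace * (D.F1 + D.F2)) := by
  have hval : (model D.X D.Om (D.F1 + D.F2) Q 14).1 0 = _ :=
    model_val D.X D.Om (D.F1 + D.F2) D.modOK.hc D.modOK.hF Q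
  rw [hval, mul_neg, map_neg]
  rfl

private lemma LTfB_main [FiniteDimensional ℂ H] (Γ Q : H →L[ℂ] H)
    (hc : ∀ i, Γ * D.c i = -(D.c i * Γ)) (hg : D.g * Γ = Γ * D.g)
    (hΓ : ∀ i, D.h i * Γ = Γ * D.h i) (hQ : ∀ i, D.h i * Q = Q * D.h i)
    (hQg : D.g * Q = Q * D.g) (hQc : ∀ i, D.c i * Q = Q * D.c i) :
    CSys.trc H (Γ * (model D.X D.Om (D.F1 + D.F2) Q 14).1 0) =
      -∑ p, ∑ q, (D.LTfB_topG p q).co univ *
        CSys.trc H (Γ * ((List.ofFn D.c).prod * (D.f (Matrix.single p q 1) * Q))) := by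
  rw [LTfB_valG, LTfB_tvalG D Γ Q hΓ hQ, LTfB_Ph_top]
  unfold LTfB_Ph
  rw [map_sum]
  congr 1
  refine Finset.sum_congr rfl fun p _ => ?_
  rw [map_sum]
  refine Finset.sum_congr rfl fun q _ => ?_
  rw [LTfB_t_apply]
  exact LTfB_tgen D Γ hc hg _ (D.vac_mul (D.f_vac _) (D.vac_of_even hQg hQc))

end MDat

end

variable {H : Type} [NormedAddCommGroup H] [NormedSpace ℂ H] [FiniteDimensional ℂ H]
  {ι : Type} [Fintype ι] [DecidableEq ι] (D : TDat H ι)

namespace TDat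

/-- The top form of the index density on `ℝ^14`. -/
def topM : Matrix ι ι (FA 14) :=
  (1 / 5040 : ℂ) • D.fm ^ 7 +
    (1 / 120 : ℂ) • (Lh1 (D.om ^ 2).trace • D.fm ^ 5) +
    (1 / 6 : ℂ) • (Lh2 (D.om ^ 2).trace (D.om ^ 4).trace • D.fm ^ 3) +
    Lh3 (D.om ^ 2).trace (D.om ^ 4).trace (D.om ^ 6).trace • D.fm

private lemma LTfB_gC (l : List (Fin 14)) :
    D.g * (l.map D.c).prod = ((-1 : ℂ) ^ l.length) • ((l.map D.c).prod * D.g) := by
  induction l with
  | nil => simp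
  | cons i l ih =>
    rw [List.map_cons, List.prod_cons, ← mul_assoc, D.gc, neg_mul, mul_assoc, ih, mul_smul_comm,
      List.length_cons, pow_succ, mul_neg_one, neg_smul, mul_assoc]

private lemma LTfB_xC (x : H →L[ℂ] H) (hx : ∀ i, D.c i * x = -(x * D.c i)) (l : List (Fin 14)) :
    x * (l.map D.c).prod = ((-1 : ℂ) ^ l.length) • ((l.map D.c).prod * x) := by
  induction l with
  | nil => simp
  | cons i l ih =>
    have h1 : x * D.c i = -(D.c i * x) := by rw [hx, neg_neg]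
    rw [List.map_cons, List.prod_cons, ← mul_assoc, h1, neg_mul, mul_assoc, ih, mul_smul_comm,
      List.length_cons, pow_succ, mul_neg_one, neg_smul, mul_assoc]

private lemma LTfB_anti {i j : Fin 14} (hij : i ≠ j) : D.c i * D.c j = -(D.c j * D.c i) := by
  have h2 := D.cc i j
  rw [if_neg hij] at h2
  exact eq_neg_of_add_eq_zero_left h2

private lemma LTfB_cC (i : Fin 14) (l : List (Fin 14)) (hi : i ∉ l) :
    D.c i * (l.map D.c).prod = ((-1 : ℂ) ^ l.length) • ((l.map D.c).prod * D.c i) := by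
  induction l with
  | nil => simp
  | cons j l ih =>
    have hij : i ≠ j := fun h => hi (h ▸ List.mem_cons_self)
    rw [List.map_cons, List.prod_cons, ← mul_assoc, LTfB_anti D hij, neg_mul, mul_assoc,
      ih (fun h => hi (List.mem_cons_of_mem _ h)), mul_smul_comm,
      List.length_cons, pow_succ, mul_neg_one, neg_smul, mul_assoc]

private lemma LTfB_cC' (i : Fin 14) (l : List (Fin 14)) (hl : l.Nodup) (hi : i ∈ l) :
    D.c i * (l.map D.c).prod = -(((-1 : ℂ) ^ l.length) • ((l.map D.c).prod * D.c i)) := by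
  induction l with
  | nil => exact absurd hi List.not_mem_nil
  | cons j l ih =>
    have hj : j ∉ l := (List.nodup_cons.1 hl).1
    rcases List.mem_cons.1 hi with h | h
    · subst h
      rw [List.map_cons, List.prod_cons]
      nth_rewrite 1 [LTfB_cC D i l hj]
      rw [mul_smul_comm, List.length_cons, pow_succ, mul_neg_one, neg_smul, neg_neg, mul_assoc]
    · have hij : i ≠ j := fun h' => hj (h' ▸ h)
      rw [List.map_cons, List.prod_cons, ← mul_assoc, LTfB_anti D hij, neg_mul, mul_assoc,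
        ih (List.nodup_cons.1 hl).2 h, List.length_cons, pow_succ, mul_neg_one, neg_smul, neg_neg,
        mul_neg, neg_neg, mul_smul_comm, mul_assoc]

private lemma LTfB_sq (l : List (Fin 14)) (hl : l.Nodup) :
    (l.map D.c).prod * (l.map D.c).prod =
      ((-1 : ℂ) ^ (∑ i ∈ Finset.range (l.length + 1), i)) • (1 : H →L[ℂ] H) := by
  induction l with
  | nil => simp
  | cons i l ih =>
    have hi : i ∉ l := (List.nodup_cons.1 hl).1
    have hcC := LTfB_cC D i l hi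
    have h2 : D.c i * D.c i = (-1 : ℂ) • (1 : H →L[ℂ] H) := by
      have h := D.cc i i
      rw [if_pos rfl] at h
      have h3 : (2 : ℂ) • (D.c i * D.c i) = (2 : ℂ) • ((-1 : ℂ) • (1 : H →L[ℂ] H)) := by
        rw [two_smul, h, smul_smul]
        norm_num
      exact smul_right_injective _ (two_ne_zero (α := ℂ)) h3
    rw [List.map_cons, List.prod_cons]
    calc D.c i * (l.map D.c).prod * (D.c i * (l.map D.c).prod)
        = (D.c i * (l.map D.c).prod) * D.c i * (l.map D.c).prod := by simp only [mul_assoc]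
      _ = D.c i * ((l.map D.c).prod * D.c i) * (l.map D.c).prod := by simp only [mul_assoc]
      _ = ((-1 : ℂ) ^ l.length) • (D.c i * (D.c i * (l.map D.c).prod) * (l.map D.c).prod) := by
          rw [hcC, mul_smul_comm, smul_mul_assoc, smul_smul, ← mul_pow]
          norm_num
      _ = ((-1 : ℂ) ^ l.length) • ((D.c i * D.c i) * ((l.map D.c).prod * (l.map D.c).prod)) := by
          simp only [mul_assoc]
      _ = _ := by
          rw [h2, ih (List.nodup_cons.1 hl).2, smul_mul_assoc, one_mul, smul_smul, smul_smul,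
            List.length_cons, Finset.sum_range_succ _ (l.length + 1)]
          congr 1
          rw [pow_add, pow_succ]
          ring

theorem Gam_c (i : Fin 14) : D.Gam * D.c i = -(D.c i * D.Gam) := by
  have h1 := LTfB_cC' D i (List.finRange 14) (List.nodup_finRange 14) (List.mem_finRange i)
  rw [List.length_finRange, ← List.ofFn_eq_map] at h1
  have h2 : (List.ofFn D.c).prod * D.c i = -(D.c i * (List.ofFn D.c).prod) := by
    rw [h1]
    norm_num
  unfold Gam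
  rw [smul_mul_assoc, mul_smul_comm, mul_assoc, ← D.sg_c, ← mul_assoc, h2, neg_mul, smul_neg,
    mul_assoc]

theorem Gam_g : D.g * D.Gam = D.Gam * D.g := by
  have h1 := LTfB_gC D (List.finRange 14)
  rw [List.length_finRange, ← List.ofFn_eq_map] at h1
  have h2 : D.g * (List.ofFn D.c).prod = (List.ofFn D.c).prod * D.g := by
    rw [h1]
    norm_num
  unfold Gam
  rw [smul_mul_assoc, mul_smul_comm, mul_assoc, ← D.sg_g, ← mul_assoc, h2, mul_assoc]

private lemma LTfB_hGam (i : Fin 14) : D.h i * D.Gam = D.Gam * D.h i := by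
  unfold Gam
  have h1 := LTfB_xC D (D.h i) (fun l => D.h_c l i) (List.finRange 14)
  rw [List.length_finRange, ← List.ofFn_eq_map] at h1
  have h2 : D.h i * (List.ofFn D.c).prod = (List.ofFn D.c).prod * D.h i := by
    rw [h1]
    norm_num
  rw [mul_smul_comm, smul_mul_assoc, ← mul_assoc, h2, mul_assoc, D.sg_h, mul_assoc]

private lemma LTfB_GamC (T : Matrix ι ι ℂ) :
    CSys.trc H (D.Gam * ((List.ofFn D.c).prod * (D.f T * D.Q))) =
      -(D.κ * CSys.trc H (D.sg * D.f T * D.Q)) := by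
  have h4 : (List.ofFn D.c).prod * (List.ofFn D.c).prod = (-1 : ℂ) • (1 : H →L[ℂ] H) := by
    rw [List.ofFn_eq_map, LTfB_sq D _ (List.nodup_finRange 14), List.length_finRange]
    norm_num [Finset.sum_range_succ]
  have h5 : ∀ l : List (Fin 14), D.sg * (l.map D.c).prod = (l.map D.c).prod * D.sg := by
    intro l
    induction l with
    | nil => simp
    | cons i l ih =>
      rw [List.map_cons, List.prod_cons, ← mul_assoc, ← D.sg_c, mul_assoc, ih, mul_assoc]
  have h6 := h5 (List.finRange 14)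
  rw [← List.ofFn_eq_map] at h6
  have h7 : D.Gam * ((List.ofFn D.c).prod * (D.f T * D.Q)) =
      -(D.κ • (D.sg * D.f T * D.Q)) := by
    unfold Gam
    calc D.κ • ((List.ofFn D.c).prod * D.sg) * ((List.ofFn D.c).prod * (D.f T * D.Q))
        = D.κ • ((List.ofFn D.c).prod * (D.sg * (List.ofFn D.c).prod) * (D.f T * D.Q)) := by
          rw [smul_mul_assoc]
          simp only [mul_assoc]
      _ = D.κ • (((List.ofFn D.c).prod * (List.ofFn D.c).prod) * (D.sg * D.f T * D.Q)) := by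
          rw [h6]
          simp only [mul_assoc]
      _ = _ := by
          rw [h4, smul_mul_assoc, one_mul, smul_comm, neg_one_smul]
  rw [h7, map_neg, map_smul, smul_eq_mul]

private lemma LTfB_top : D.topM = D.toMDat.LTfB_topG := rfl

theorem val_trace : CSys.trc H (D.Gam * (model D.X D.Om (D.F1 + D.F2) D.Q 14).1 0) =
    D.κ * ∑ p, ∑ q, (D.topM p q).co univ *
      CSys.trc H (D.sg * D.f (Matrix.single p q 1) * D.Q) := by
  have h1 := MDat.LTfB_main D.toMDat D.Gam D.Q D.Gam_c D.Gam_g (LTfB_hGam D) D.Q_h D.Q_g D.Q_c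
  rw [h1, Finset.mul_sum, ← Finset.sum_neg_distrib]
  refine Finset.sum_congr rfl fun p _ => ?_
  rw [Finset.mul_sum, ← Finset.sum_neg_distrib]
  refine Finset.sum_congr rfl fun q _ => ?_
  rw [LTfB_GamC, LTfB_top]
  ring

end TDat

end Pool.Agent.EXO.L
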