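import Pool.Agent.EXO.LGeDef
import Pool.Agent.EXO.LTfB
import Pool.Agent.EXO.LgJ
import Pool.Agent.EXO.FmFAd

/-!
# EXO / LTfC : the curvature forms at a point, pulled back to `ℝ^14` (IDX-L)

`L = ofVec v : ℝ^14 → ℝ^M`, `FAMap L (of1 w) = of1 (Lᵀ w)`, `Lᵀ (bv a) = ∑_k (v k) a • bv k`, so
`FAMap L (of1 (bv a)) = ∑_k (v k a) • e_k`, `e_k = of1 (bv k)`, `e_k e_l = - e_l e_k`.
* `FAMap_dM`: `FAMap L (dM e y i j) = ∑_k (fderiv ℝ e y (v k)) i j • e_k` (`fderiv` of the entry =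
  entry of `fderiv`; linearity).
* `FAMap_curv`: from this, `FAMap L (E.curv y p q)` is `∑_kl (T_kl)_pq e_k e_l` with
  `T_kl = e (∂_k e)(∂_l e) e + e (∑_b (v_l)_b ∂_k A_b) e + A(v_k) A(v_l)`, `∂_k = fderiv ℝ · y (v k)`, and
  `∑_kl T_kl e_k e_l = ½ ∑_kl (T_kl - T_lk) e_k e_l`, `T_kl - T_lk = Fv V E y (v k) (v l)`.
* `FAMap_sF`: put `P_k = fderiv ℝ V.P y (v k)` (symmetric, `P_k P + P P_k = P_k`), `D' = ∑_k P_k e_k` the pulled
  back matrix of one-forms.  `D'^2 = ∑ P_k P_l e_k e_l` commutes with `P` (`P_k P_l` commutes with `P`), so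
  `P D'^(2k) = (P D'^2 P)^k` for `k ≥ 1` and its trace is `14` for `k = 0` (not needed: `0 < k`).
  `P D'^2 P = ½ ∑_kl P [P_k, P_l] P e_k e_l`.  With the `M × 14` matrix `U` of the `v`'s: `U Uᵀ = P`
  (`P_eq_sum`), `Uᵀ U = 1`, `Uᵀ (P D'^2 P) U = om` because `⟨v_a, [P_k, P_l] v_b⟩ = R k l a b`; so
  `P D'^2 P = U om Uᵀ`, `(U om Uᵀ)^k = U om^k Uᵀ`, trace `= tr (om^k)` (the entries of `U` are numbers, central).
-/

set_option autoImplicit false
set_option maxSynthPendingDepth 3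

open scoped ContDiff Topology
open Finset Matrix

noncomputable section

namespace Pool.Agent.EXO.L

section aux

variable {M m : ℕ} {κ κ' κ'' : Type} [Fintype κ] [DecidableEq κ] [Fintype κ'] [DecidableEq κ']
  [Fintype κ''] [DecidableEq κ'']

/-- A matrix of numbers times a form. -/
private def LTfC_tm (T : Matrix κ κ' ℂ) (α : FA m) : Matrix κ κ' (FA m) := fun i j => T i j • α

private theorem LTfC_mul (S : Matrix κ κ' ℂ) (T : Matrix κ' κ'' ℂ) (α β : FA m) :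
    LTfC_tm S α * LTfC_tm T β = LTfC_tm (S * T) (α * β) := by
  ext1 i j
  rw [Matrix.mul_apply]
  show ∑ k, (S i k • α) * (T k j • β) = (S * T) i j • (α * β)
  rw [Matrix.mul_apply, Finset.sum_smul]
  exact sum_congr rfl fun k _ => smul_mul_smul_comm _ _ _ _

private theorem LTfC_cM (T : Matrix κ κ ℂ) : (cM T : Matrix κ κ (FA m)) = LTfC_tm T 1 := by
  ext1 i j
  exact Algebra.algebraMap_eq_smul_one _

private theorem LTfC_anti (c : Fin 14 → Fin 14 → ℂ) :
    ∑ k, ∑ l, c k l • (of1 (bv k) * of1 (bv l) : FA 14) =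
      (1 / 2 : ℂ) • ∑ k, ∑ l, (c k l - c l k) • (of1 (bv k) * of1 (bv l) : FA 14) := by
  have h1 : ∑ k, ∑ l, c l k • (of1 (bv k) * of1 (bv l) : FA 14) =
      -∑ k, ∑ l, c k l • (of1 (bv k) * of1 (bv l) : FA 14) := by
    rw [Finset.sum_comm, ← Finset.sum_neg_distrib]
    refine sum_congr rfl fun k _ => ?_
    rw [← Finset.sum_neg_distrib]
    refine sum_congr rfl fun l _ => ?_
    rw [of1_mul_of1, smul_neg]
  simp only [sub_smul, Finset.sum_sub_distrib]
  rw [h1]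
  module

private theorem LTfC_adj (v : Fin 14 → En M) (w : En M) :
    ContinuousLinearMap.adjoint (ofVec v) w = ∑ k, (inner ℝ (v k) w : ℝ) • (bv k : En 14) := by
  refine ext_inner_left ℝ fun x => ?_
  rw [ContinuousLinearMap.adjoint_inner_right]
  have h1 : ofVec v x = ∑ k, x k • v k := rfl
  rw [h1, sum_inner, inner_sum]
  refine sum_congr rfl fun k _ => ?_
  rw [real_inner_smul_left, real_inner_smul_right]
  have h2 : inner ℝ x (bv k : En 14) = x k := by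
    simp [bv, EuclideanSpace.inner_single_right]
  rw [h2, mul_comm]

private theorem LTfC_of1 (v : Fin 14 → En M) (w : En M) :
    FAMap (ofVec v) (of1 w) = ∑ k, ((inner ℝ (v k) w : ℝ) : ℂ) • (of1 (bv k) : FA 14) := by
  rw [FAMap_of1, LTfC_adj, of1_sum]
  exact sum_congr rfl fun k _ => of1_smul _ _

private theorem LTfC_inn (w : En M) (a : Fin M) : inner ℝ w (bv a : En M) = w a := by
  simp [bv, EuclideanSpace.inner_single_right]

private theorem LTfC_bv (v : Fin 14 → En M) (a : Fin M) :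
    FAMap (ofVec v) (of1 (bv a)) = ∑ k, ((v k a : ℝ) : ℂ) • (of1 (bv k) : FA 14) := by
  rw [LTfC_of1]
  exact sum_congr rfl fun k _ => by rw [LTfC_inn]

/-- entries as a real linear map -/
private def LTfC_ent (i j : κ) : Matrix κ κ ℂ →L[ℝ] ℂ :=
  LinearMap.toContinuousLinearMap
  { toFun := fun T => T i j
    map_add' := fun _ _ => rfl
    map_smul' := fun _ _ => rfl }

private theorem LTfC_fd {e : En M → Matrix κ κ ℂ} (he : ContDiff ℝ ∞ e) (x w : En M) (i j : κ) :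
    fderiv ℝ (fun y => e y i j) x w = fderiv ℝ e x w i j := by
  have h1 : HasFDerivAt (fun y => e y i j) ((LTfC_ent i j).comp (fderiv ℝ e x)) x :=
    (LTfC_ent i j).hasFDerivAt.comp x ((he.differentiable (by simp)) x).hasFDerivAt
  rw [h1.fderiv]
  rfl

private theorem LTfC_prod (S T : Fin 14 → Matrix κ κ ℂ) :
    (∑ k, LTfC_tm (S k) (of1 (bv k) : FA 14)) * (∑ l, LTfC_tm (T l) (of1 (bv l) : FA 14)) =
      ∑ k, ∑ l, LTfC_tm (S k * T l) (of1 (bv k) * of1 (bv l) : FA 14) := by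
  rw [Finset.sum_mul]
  refine sum_congr rfl fun k _ => ?_
  rw [Finset.mul_sum]
  exact sum_congr rfl fun l _ => LTfC_mul _ _ _ _

private theorem LTfC_conj (S T : Matrix κ κ ℂ) (X : Fin 14 → Fin 14 → Matrix κ κ ℂ) :
    LTfC_tm S (1 : FA 14) * (∑ k, ∑ l, LTfC_tm (X k l) (of1 (bv k) * of1 (bv l) : FA 14)) *
      LTfC_tm T (1 : FA 14) =
      ∑ k, ∑ l, LTfC_tm (S * X k l * T) (of1 (bv k) * of1 (bv l) : FA 14) := by
  rw [Finset.mul_sum, Finset.sum_mul]
  refine sum_congr rfl fun k _ => ?_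
  rw [Finset.mul_sum, Finset.sum_mul]
  refine sum_congr rfl fun l _ => ?_
  rw [LTfC_mul, LTfC_mul, one_mul, mul_one]

private theorem LTfC_add (S T : Matrix κ κ ℂ) (α : FA m) :
    LTfC_tm (S + T) α = LTfC_tm S α + LTfC_tm T α := by
  ext1 i j
  exact add_smul _ _ _

private theorem LTfC_dir {F : Type*} [NormedAddCommGroup F] [NormedSpace ℝ F]
    (L : En M →L[ℝ] F) (w : En M) : ∑ a, (w a) • L (bv a) = L w := by
  have h1 : w = ∑ b, (w b) • (bv b : En M) := epsv_sum_ee w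
  conv_rhs => rw [h1]
  rw [map_sum]
  exact sum_congr rfl fun b _ => by rw [map_smul]

end aux

variable {M : ℕ} {ι : Type} [Fintype ι] [DecidableEq ι] {V : Geo 14 M} {E : Bd V ι}
  {y : En M} {v : Fin 14 → En M} (h : PtB V y v)

theorem FAMap_dM {κ : Type} [Fintype κ] [DecidableEq κ] {e : En M → Matrix κ κ ℂ}
    (he : ContDiff ℝ ∞ e) (i j : κ) :
    FAMap (ofVec v) (dM e y i j) = ∑ k, (fderiv ℝ e y (v k)) i j • of1 (bv k) := by
  show FAMap (ofVec v) (∑ a, (fderiv ℝ (fun y => e y i j) y (bv a)) • of1 (bv a)) = _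
  rw [FAMap_sum]
  simp only [FAMap_smul, LTfC_bv, Finset.smul_sum]
  rw [Finset.sum_comm]
  refine sum_congr rfl fun k _ => ?_
  rw [← LTfC_fd he, ← LTfC_dir (fderiv ℝ (fun y => e y i j) y) (v k), Finset.sum_smul]
  refine sum_congr rfl fun a _ => ?_
  rw [smul_smul, Complex.real_smul, mul_comm]

private theorem LTfC_map_cM {κ : Type} [Fintype κ] [DecidableEq κ] (T : Matrix κ κ ℂ) :
    (FAHom (ofVec v)).mapMatrix (cM T : Matrix κ κ (FA M)) = LTfC_tm T (1 : FA 14) := by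
  ext1 i j
  show FAHom (ofVec v) (algebraMap ℂ (FA M) (T i j)) = T i j • 1
  rw [AlgHom.commutes]
  exact Algebra.algebraMap_eq_smul_one _

private theorem LTfC_map_dM {κ : Type} [Fintype κ] [DecidableEq κ] {e : En M → Matrix κ κ ℂ}
    (he : ContDiff ℝ ∞ e) :
    (FAHom (ofVec v)).mapMatrix (dM e y : Matrix κ κ (FA M)) =
      ∑ k, LTfC_tm (fderiv ℝ e y (v k)) (of1 (bv k) : FA 14) := by
  ext1 i j
  rw [Matrix.sum_apply]
  exact FAMap_dM he i j

private theorem LTfC_map_conn (E : Bd V ι) :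
    (FAHom (ofVec v)).mapMatrix (E.conn y) =
      ∑ k, LTfC_tm (∑ b, ((v k b : ℝ) : ℂ) • E.A b y) (of1 (bv k) : FA 14) := by
  ext1 i j
  rw [Matrix.sum_apply]
  show FAMap (ofVec v) (∑ a, (E.A a y i j) • of1 (bv a)) = _
  rw [FAMap_sum]
  simp only [FAMap_smul, LTfC_bv, Finset.smul_sum]
  rw [Finset.sum_comm]
  refine sum_congr rfl fun k _ => ?_
  show _ = (∑ b, ((v k b : ℝ) : ℂ) • E.A b y) i j • (of1 (bv k) : FA 14)
  rw [Matrix.sum_apply, Finset.sum_smul]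
  refine sum_congr rfl fun a _ => ?_
  rw [smul_smul, Matrix.smul_apply, smul_eq_mul, mul_comm]

private theorem LTfC_dconn (E : Bd V ι) (i j : ι) (w : En M) :
    fderiv ℝ (fun y => E.conn y i j) y w =
      ∑ b, (fderiv ℝ (E.A b) y w i j) • (of1 (bv b) : FA M) := by
  have hd : ∀ b, DifferentiableAt ℝ (fun z => E.A b z i j) y := by
    intro b
    have h1 := ((E.smooth_A b).differentiable (by simp)) y
    exact ((LTfC_ent (κ := ι) i j).differentiableAt (x := E.A b y)).comp y h1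
  have h2 : fderiv ℝ (fun y => E.conn y i j) y =
      ∑ b, (fderiv ℝ (fun z => E.A b z i j) y).smulRight (of1 (bv b) : FA M) := by
    have h3 : HasFDerivAt (fun z => ∑ b, (E.A b z i j) • (of1 (bv b) : FA M))
        (∑ b, (fderiv ℝ (fun z => E.A b z i j) y).smulRight (of1 (bv b) : FA M)) y := by
      refine HasFDerivAt.fun_sum fun b _ => ?_
      exact (hd b).hasFDerivAt.smul_const _
    exact h3.fderiv
  rw [h2, _root_.sum_apply]
  refine sum_congr rfl fun b _ => ?_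
  rw [ContinuousLinearMap.smulRight_apply, LTfC_fd (E.smooth_A b)]

private theorem LTfC_map_dF (E : Bd V ι) :
    (FAHom (ofVec v)).mapMatrix (Matrix.of fun i j => dF (fun y => E.conn y i j) y) =
      ∑ k, ∑ l, LTfC_tm (∑ b, ((v l b : ℝ) : ℂ) • fderiv ℝ (E.A b) y (v k))
        (of1 (bv k) * of1 (bv l) : FA 14) := by
  ext1 i j
  rw [Matrix.sum_apply]
  show FAMap (ofVec v) (∑ a, of1 (bv a) * fderiv ℝ (fun y => E.conn y i j) y (bv a)) = _
  have h1 : ∀ a, FAMap (ofVec v) (of1 (bv a) * fderiv ℝ (fun y => E.conn y i j) y (bv a)) =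
      ∑ k, ∑ b, ∑ l, (((v k a : ℝ) : ℂ) * (fderiv ℝ (E.A b) y (bv a) i j * ((v l b : ℝ) : ℂ))) •
        (of1 (bv k) * of1 (bv l) : FA 14) := by
    intro a
    rw [LTfC_dconn, FAMap_mul, FAMap_sum, LTfC_bv, Finset.sum_mul]
    refine sum_congr rfl fun k _ => ?_
    rw [Finset.mul_sum]
    refine sum_congr rfl fun b _ => ?_
    rw [FAMap_smul, LTfC_bv, Finset.smul_sum, Finset.mul_sum]
    refine sum_congr rfl fun l _ => ?_
    rw [smul_smul, smul_mul_smul_comm]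
  rw [FAMap_sum, sum_congr rfl fun a _ => h1 a, Finset.sum_comm]
  refine sum_congr rfl fun k _ => ?_
  rw [Matrix.sum_apply]
  have h2 : ∀ l, LTfC_tm (∑ b, ((v l b : ℝ) : ℂ) • fderiv ℝ (E.A b) y (v k))
      (of1 (bv k) * of1 (bv l) : FA 14) i j = ∑ b, ∑ a,
        (((v k a : ℝ) : ℂ) * (fderiv ℝ (E.A b) y (bv a) i j * ((v l b : ℝ) : ℂ))) •
        (of1 (bv k) * of1 (bv l) : FA 14) := by
    intro l
    show (∑ b, ((v l b : ℝ) : ℂ) • fderiv ℝ (E.A b) y (v k)) i j •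
      (of1 (bv k) * of1 (bv l) : FA 14) = _
    rw [Matrix.sum_apply, Finset.sum_smul]
    refine sum_congr rfl fun b _ => ?_
    rw [← Finset.sum_smul]
    congr 1
    have h5 : fderiv ℝ (E.A b) y (v k) i j =
        ∑ a, ((v k a : ℝ) : ℂ) * fderiv ℝ (E.A b) y (bv a) i j := by
      rw [← LTfC_fd (E.smooth_A b), ← LTfC_dir (fderiv ℝ (fun z => E.A b z i j) y) (v k)]
      refine sum_congr rfl fun a _ => ?_
      rw [Complex.real_smul, LTfC_fd (E.smooth_A b)]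
    show ((v l b : ℝ) : ℂ) * fderiv ℝ (E.A b) y (v k) i j = _
    rw [h5, Finset.mul_sum]
    refine sum_congr rfl fun a _ => ?_
    ring
  rw [sum_congr rfl fun l _ => h2 l]
  rw [Finset.sum_comm]
  have h3 : ∀ b, ∑ a, ∑ l, (((v k a : ℝ) : ℂ) *
      (fderiv ℝ (E.A b) y (bv a) i j * ((v l b : ℝ) : ℂ))) •
        (of1 (bv k) * of1 (bv l) : FA 14) = ∑ l, ∑ a, (((v k a : ℝ) : ℂ) *
      (fderiv ℝ (E.A b) y (bv a) i j * ((v l b : ℝ) : ℂ))) •
        (of1 (bv k) * of1 (bv l) : FA 14) := fun b => Finset.sum_comm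
  rw [sum_congr rfl fun b _ => h3 b, Finset.sum_comm]

theorem FAMap_curv (p q : ι) :
    FAMap (ofVec v) (E.curv y p q) = (geoT E h).fm p q := by
  have h1 : (FAHom (ofVec v)).mapMatrix (E.curv y) = ∑ k, ∑ l,
      LTfC_tm (E.e y * fderiv ℝ E.e y (v k) * fderiv ℝ E.e y (v l) * E.e y +
        E.e y * (∑ b, ((v l b : ℝ) : ℂ) • fderiv ℝ (E.A b) y (v k)) * E.e y +
        (∑ b, ((v k b : ℝ) : ℂ) • E.A b y) * (∑ b, ((v l b : ℝ) : ℂ) • E.A b y))
        (of1 (bv k) * of1 (bv l) : FA 14) := by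
    unfold Bd.curv
    rw [map_add, map_add, map_mul, map_mul, map_mul, map_mul, map_mul, map_mul, LTfC_map_cM,
      LTfC_map_dM E.smooth_e, LTfC_map_conn, LTfC_map_dF]
    rw [mul_assoc (LTfC_tm (E.e y) (1 : FA 14)), LTfC_prod, LTfC_prod, LTfC_conj, LTfC_conj,
      ← Finset.sum_add_distrib, ← Finset.sum_add_distrib]
    refine sum_congr rfl fun k _ => ?_
    rw [← Finset.sum_add_distrib, ← Finset.sum_add_distrib]
    refine sum_congr rfl fun l _ => ?_
    rw [LTfC_add, LTfC_add, Matrix.mul_assoc (E.e y) _ (fderiv ℝ E.e y (v l))]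
  have h2 : FAMap (ofVec v) (E.curv y p q) = (FAHom (ofVec v)).mapMatrix (E.curv y) p q := rfl
  rw [h2, h1]
  simp only [Matrix.sum_apply, LTfC_tm]
  rw [LTfC_anti]
  show _ = (1 / 2 : ℂ) • ∑ k, ∑ l, Fv V E y (v k) (v l) p q • (of1 (bv k) * of1 (bv l))
  congr 1
  refine sum_congr rfl fun k _ => sum_congr rfl fun l _ => ?_
  rw [← Matrix.sub_apply]
  refine congrArg (· • _) (congrFun (congrFun ?_ p) q)
  unfold Fv
  rw [Finset.sum_sub_distrib]
  generalize E.e y = e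
  generalize fderiv ℝ E.e y (v k) = ek
  generalize fderiv ℝ E.e y (v l) = el
  generalize ∑ b, ((v l b : ℝ) : ℂ) • fderiv ℝ (E.A b) y (v k) = akl
  generalize ∑ b, ((v k b : ℝ) : ℂ) • fderiv ℝ (E.A b) y (v l) = alk
  generalize ∑ b, ((v k b : ℝ) : ℂ) • E.A b y = ak
  generalize ∑ b, ((v l b : ℝ) : ℂ) • E.A b y = al
  simp only [mul_sub, sub_mul, mul_assoc]
  abel

private theorem LTfC_mo_mul (A B : En M →L[ℝ] En M) : matOf (A * B) = matOf A * matOf B := by
  ext1 i j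
  rw [Matrix.mul_apply]
  show ((A (B (bv j)) i : ℝ) : ℂ) = ∑ k, ((A (bv k) i : ℝ) : ℂ) * ((B (bv j) k : ℝ) : ℂ)
  have h1 := LTfC_dir A (B (bv j))
  have h2 := congrArg (fun z : En M => z i) h1
  simp only [WithLp.ofLp_sum, WithLp.ofLp_smul, Finset.sum_apply, Pi.smul_apply,
    smul_eq_mul] at h2
  rw [← h2, Complex.ofReal_sum]
  refine sum_congr rfl fun k _ => ?_
  rw [Complex.ofReal_mul, mul_comm]

/-- `matOf` as a real linear map -/
private def LTfC_mo : (En M →L[ℝ] En M) →L[ℝ] Matrix (Fin M) (Fin M) ℂ :=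
  LinearMap.toContinuousLinearMap
  { toFun := matOf
    map_add' := fun A B => by
      ext1 i j
      exact Complex.ofReal_add _ _
    map_smul' := fun r A => by
      ext1 i j
      show ((r * A (bv j) i : ℝ) : ℂ) = r • ((A (bv j) i : ℝ) : ℂ)
      rw [Complex.ofReal_mul, Complex.real_smul] }

private theorem LTfC_mo_cd (V : Geo 14 M) : ContDiff ℝ ∞ fun y => matOf (V.P y) :=
  LTfC_mo.contDiff.comp V.smoothP

private theorem LTfC_mo_fd (V : Geo 14 M) (y w : En M) :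
    fderiv ℝ (fun y => matOf (V.P y)) y w = matOf (fderiv ℝ V.P y w) := by
  have h1 : HasFDerivAt (fun y => matOf (V.P y)) (LTfC_mo.comp (fderiv ℝ V.P y)) y :=
    LTfC_mo.hasFDerivAt.comp y ((V.smoothP.differentiable (by simp)) y).hasFDerivAt
  rw [h1.fderiv]
  rfl

/-- The matrix with the columns `v`. -/
private def LTfC_U (v : Fin 14 → En M) : Matrix (Fin M) (Fin 14) ℂ :=
  Matrix.of fun b a => ((v a b : ℝ) : ℂ)

private theorem LTfC_inner_sum (x z : En M) : inner ℝ x z = ∑ b, x b * z b := by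
  rw [PiLp.inner_apply]
  refine sum_congr rfl fun b _ => ?_
  simp [mul_comm]

private theorem LTfC_UAU (v : Fin 14 → En M) (A : En M →L[ℝ] En M) (a b : Fin 14) :
    ((LTfC_U v)ᵀ * matOf A * LTfC_U v) a b = ((inner ℝ (v a) (A (v b)) : ℝ) : ℂ) := by
  rw [Matrix.mul_assoc, Matrix.mul_apply, LTfC_inner_sum, Complex.ofReal_sum]
  refine sum_congr rfl fun i _ => ?_
  rw [Complex.ofReal_mul, Matrix.mul_apply]
  show ((v a i : ℝ) : ℂ) * _ = _
  congr 1
  have h1 := LTfC_dir A (v b)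
  have h2 := congrArg (fun z : En M => z i) h1
  simp only [WithLp.ofLp_sum, WithLp.ofLp_smul, Finset.sum_apply, Pi.smul_apply,
    smul_eq_mul] at h2
  rw [← h2, Complex.ofReal_sum]
  refine sum_congr rfl fun k _ => ?_
  rw [Complex.ofReal_mul, mul_comm]
  rfl

private theorem LTfC_UU {v : Fin 14 → En M} (hv : Orthonormal ℝ v) :
    (LTfC_U v)ᵀ * LTfC_U v = 1 := by
  ext1 a b
  have h1 := LTfC_UAU v (1 : En M →L[ℝ] En M) a b
  have h2 : matOf (1 : En M →L[ℝ] En M) = 1 := by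
    ext1 i j
    show (((bv j : En M) i : ℝ) : ℂ) = _
    rw [Matrix.one_apply]
    by_cases hij : i = j
    · simp [bv, hij]
    · simp [bv, hij]
  rw [h2, Matrix.mul_one] at h1
  rw [h1, Matrix.one_apply]
  show ((inner ℝ (v a) (v b) : ℝ) : ℂ) = _
  rw [orthonormal_iff_ite.1 hv]
  split_ifs <;> simp

private theorem LTfC_P (h : PtB V y v) : matOf (V.P y) = LTfC_U v * (LTfC_U v)ᵀ := by
  ext1 i j
  rw [Matrix.mul_apply]
  show ((V.P y (bv j) i : ℝ) : ℂ) = ∑ a, ((v a i : ℝ) : ℂ) * ((v a j : ℝ) : ℂ)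
  rw [P_eq_sum V h.mem v h.on h.tan]
  simp only [WithLp.ofLp_sum, WithLp.ofLp_smul, Finset.sum_apply, Pi.smul_apply,
    smul_eq_mul]
  rw [Complex.ofReal_sum]
  refine sum_congr rfl fun a _ => ?_
  rw [Complex.ofReal_mul, LTfC_inn, mul_comm]

private theorem LTfC_fdP (h : PtB V y v) (k : Fin 14) :
    fderiv ℝ V.P y (v k) = ∑ b, (v k b) • Pd V b y := by
  have h1 := LTfC_dir (fderiv ℝ V.P y) (v k)
  have h2 : ∀ u : En M, fderiv ℝ V.P y (V.P y u) = ∑ b, (u b) • Pd V b y := by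
    intro u
    have h1 : u = ∑ b, (u b) • (bv b : En M) := epsv_sum_ee u
    conv_lhs => rw [h1, map_sum, map_sum]
    exact sum_congr rfl fun b _ => by rw [map_smul, map_smul]; rfl
  have h3 := h2 (v k)
  rwa [h.tan k] at h3

private theorem LTfC_QP (h : PtB V y v) (k : Fin 14) :
    fderiv ℝ V.P y (v k) * V.P y + V.P y * fderiv ℝ V.P y (v k) = fderiv ℝ V.P y (v k) := by
  rw [LTfC_fdP h, Finset.sum_mul, Finset.mul_sum, ← Finset.sum_add_distrib]
  refine sum_congr rfl fun b _ => ?_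
  rw [smul_mul_assoc, mul_smul_comm, ← smul_add, Pd_idem h.loc h.mem]

private theorem LTfC_Qsa (h : PtB V y v) (k : Fin 14) (x z : En M) :
    inner ℝ (fderiv ℝ V.P y (v k) x) z = inner ℝ x (fderiv ℝ V.P y (v k) z) := by
  rw [LTfC_fdP h, _root_.sum_apply, _root_.sum_apply, sum_inner, inner_sum]
  refine sum_congr rfl fun b _ => ?_
  rw [_root_.smul_apply, _root_.smul_apply, real_inner_smul_left, real_inner_smul_right,
    Pd_sa h.loc h.mem]

private theorem LTfC_PQQ (h : PtB V y v) (k l : Fin 14) :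
    V.P y * (fderiv ℝ V.P y (v k) * fderiv ℝ V.P y (v l)) =
      fderiv ℝ V.P y (v k) * fderiv ℝ V.P y (v l) * V.P y := by
  have hk := LTfC_QP h k
  have hl := LTfC_QP h l
  generalize fderiv ℝ V.P y (v k) = A at *
  generalize fderiv ℝ V.P y (v l) = B at *
  generalize V.P y = P at *
  have h1 : P * A = A - A * P := by rw [eq_sub_iff_add_eq, add_comm]; exact hk
  have h2 : B * P = B - P * B := by rw [eq_sub_iff_add_eq]; exact hl
  rw [← mul_assoc, h1, sub_mul, mul_assoc A B P, h2, mul_sub, mul_assoc]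

private theorem LTfC_D2 (h : PtB V y v) :
    LTfC_tm (LTfC_U v)ᵀ (1 : FA 14) * (∑ k, ∑ l, LTfC_tm (matOf (fderiv ℝ V.P y (v k)) *
      matOf (fderiv ℝ V.P y (v l))) (of1 (bv k) * of1 (bv l) : FA 14)) *
      LTfC_tm (LTfC_U v) (1 : FA 14) = (geoT E h).om := by
  rw [Matrix.mul_sum, Matrix.sum_mul]
  have h1 : ∀ k, LTfC_tm (LTfC_U v)ᵀ (1 : FA 14) * (∑ l, LTfC_tm (matOf (fderiv ℝ V.P y (v k)) *
      matOf (fderiv ℝ V.P y (v l))) (of1 (bv k) * of1 (bv l) : FA 14)) *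
      LTfC_tm (LTfC_U v) (1 : FA 14) = ∑ l, LTfC_tm ((LTfC_U v)ᵀ *
      matOf (fderiv ℝ V.P y (v k) * fderiv ℝ V.P y (v l)) * LTfC_U v)
      (of1 (bv k) * of1 (bv l) : FA 14) := by
    intro k
    rw [Matrix.mul_sum, Matrix.sum_mul]
    refine sum_congr rfl fun l _ => ?_
    rw [LTfC_mul, LTfC_mul, one_mul, mul_one, LTfC_mo_mul]
  rw [sum_congr rfl fun k _ => h1 k]
  ext1 a b
  simp only [Matrix.sum_apply, LTfC_tm, LTfC_UAU]
  rw [LTfC_anti]
  show _ = (1 / 2 : ℂ) • ∑ k, ∑ l, (((geoT E h).R k l a b : ℝ) : ℂ) •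
    (of1 (bv k) * of1 (bv l) : FA 14)
  congr 1
  refine sum_congr rfl fun k _ => sum_congr rfl fun l _ => ?_
  congr 1
  rw [← Complex.ofReal_sub]
  congr 1
  show inner ℝ (v a) (fderiv ℝ V.P y (v k) (fderiv ℝ V.P y (v l) (v b))) -
    inner ℝ (v a) (fderiv ℝ V.P y (v l) (fderiv ℝ V.P y (v k) (v b))) =
    inner ℝ (fderiv ℝ V.P y (v k) (v a)) (fderiv ℝ V.P y (v l) (v b)) -
    inner ℝ (fderiv ℝ V.P y (v k) (v b)) (fderiv ℝ V.P y (v l) (v a))
  rw [← LTfC_Qsa h k (v a), ← LTfC_Qsa h l (v a), real_inner_comm (fderiv ℝ V.P y (v k) (v b))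
    (fderiv ℝ V.P y (v l) (v a))]

private theorem LTfC_trace {κ κ' : Type} [Fintype κ] [Fintype κ'] (S : Matrix κ κ' ℂ)
    (X : Matrix κ' κ (FA 14)) :
    (LTfC_tm S (1 : FA 14) * X).trace = (X * LTfC_tm S (1 : FA 14)).trace := by
  simp only [Matrix.trace, Matrix.diag_apply, Matrix.mul_apply, LTfC_tm, smul_mul_assoc,
    mul_smul_comm, one_mul, mul_one]
  exact Finset.sum_comm

theorem FAMap_sF (k : ℕ) (hk : 0 < k) :
    FAMap (ofVec v) (V.sF k y) = ((geoT E h).om ^ k).trace := by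
  have e0 : FAMap (ofVec v) (V.sF k y) = ((FAHom (ofVec v)).mapMatrix
      (cM (matOf (V.P y)) * dM (fun y => matOf (V.P y)) y ^ (2 * k))).trace := by
    show FAHom (ofVec v) (Matrix.trace _) = _
    rw [Matrix.trace, map_sum]
    rfl
  have e1 : (FAHom (ofVec v)).mapMatrix
      (cM (matOf (V.P y)) * dM (fun y => matOf (V.P y)) y ^ (2 * k)) =
      LTfC_tm (matOf (V.P y)) (1 : FA 14) *
        (∑ k, ∑ l, LTfC_tm (matOf (fderiv ℝ V.P y (v k)) * matOf (fderiv ℝ V.P y (v l)))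
          (of1 (bv k) * of1 (bv l) : FA 14)) ^ k := by
    rw [map_mul, map_pow, LTfC_map_cM, LTfC_map_dM (LTfC_mo_cd V), pow_mul, pow_two,
      LTfC_prod]
    simp only [LTfC_mo_fd]
  have hD2 := LTfC_D2 (E := E) h
  have hUU : LTfC_tm (LTfC_U v)ᵀ (1 : FA 14) * LTfC_tm (LTfC_U v) (1 : FA 14) = 1 := by
    rw [LTfC_mul, LTfC_UU h.on, one_mul]
    ext1 i j
    show (1 : Matrix (Fin 14) (Fin 14) ℂ) i j • (1 : FA 14) = _
    rw [Matrix.one_apply, Matrix.one_apply]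
    split_ifs <;> simp
  have hC : LTfC_tm (matOf (V.P y)) (1 : FA 14) =
      LTfC_tm (LTfC_U v) (1 : FA 14) * LTfC_tm (LTfC_U v)ᵀ (1 : FA 14) := by
    rw [LTfC_mul, ← LTfC_P h, one_mul]
  have hcomm : LTfC_tm (matOf (V.P y)) (1 : FA 14) *
      (∑ k, ∑ l, LTfC_tm (matOf (fderiv ℝ V.P y (v k)) * matOf (fderiv ℝ V.P y (v l)))
          (of1 (bv k) * of1 (bv l) : FA 14)) =
      (∑ k, ∑ l, LTfC_tm (matOf (fderiv ℝ V.P y (v k)) * matOf (fderiv ℝ V.P y (v l)))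
          (of1 (bv k) * of1 (bv l) : FA 14)) * LTfC_tm (matOf (V.P y)) (1 : FA 14) := by
    rw [Finset.mul_sum, Finset.sum_mul]
    refine sum_congr rfl fun k _ => ?_
    rw [Finset.mul_sum, Finset.sum_mul]
    refine sum_congr rfl fun l _ => ?_
    rw [LTfC_mul, LTfC_mul, one_mul, mul_one, ← LTfC_mo_mul, ← LTfC_mo_mul, ← LTfC_mo_mul,
      LTfC_PQQ h]
  rw [e0, e1]
  clear e0 e1
  generalize (∑ k, ∑ l, LTfC_tm (matOf (fderiv ℝ V.P y (v k)) * matOf (fderiv ℝ V.P y (v l)))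
          (of1 (bv k) * of1 (bv l) : FA 14)) = D at *
  generalize hU : LTfC_tm (LTfC_U v) (1 : FA 14) = U at *
  generalize LTfC_tm (LTfC_U v)ᵀ (1 : FA 14) = Ut at *
  generalize (geoT E h).om = om at *
  have hidem : (U * Ut) * (U * Ut) = U * Ut := by
    rw [Matrix.mul_assoc, ← Matrix.mul_assoc Ut, hUU, Matrix.one_mul]
  have hCD : (U * Ut) * D = U * om * Ut := by
    calc (U * Ut) * D = (U * Ut) * ((U * Ut) * D) := by rw [← Matrix.mul_assoc, hidem]
      _ = (U * Ut) * (D * (U * Ut)) := by rw [← hC, hcomm]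
      _ = U * (Ut * D * U) * Ut := by simp only [Matrix.mul_assoc]
      _ = U * om * Ut := by rw [hD2]
  have hpow : ∀ j, 0 < j → (U * Ut) * D ^ j = U * om ^ j * Ut := by
    intro j hj
    induction j, hj using Nat.le_induction with
    | base => rw [Nat.succ_eq_add_one, Nat.zero_add, pow_one, pow_one, hCD]
    | succ j hj ih =>
      rw [pow_succ, ← Matrix.mul_assoc, ih]
      have h5 : U * om ^ j * Ut = (U * om ^ j * Ut) * (U * Ut) := by
        simp only [Matrix.mul_assoc]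
        rw [← Matrix.mul_assoc Ut U, hUU, Matrix.one_mul]
      rw [h5, Matrix.mul_assoc _ (U * Ut) D, hCD]
      simp only [Matrix.mul_assoc]
      rw [← Matrix.mul_assoc Ut U, hUU, Matrix.one_mul, pow_succ]
      simp only [Matrix.mul_assoc]
  rw [hC, hpow k hk, Matrix.mul_assoc, ← hU, LTfC_trace, hU, Matrix.mul_assoc, hUU,
    Matrix.mul_one]

end Pool.Agent.EXO.L
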