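import Pool.Agent.EXO.LMaDef
import Pool.Agent.EXO.LHpC

/-!
# EXO / LToA : Taylor sequences and the derivative `𝒟_b` (IDX-L)

* `mulS_up`, `mulS_up'`: reindex the antidiagonal.
* `up_dn`: `up^r (dn r a) = a` if `a w = 0` for `w < r`; `mulS_dn`.
* `mulS_mulS` is not needed.
* `tay_mem`: let `U ≤ A` be a subspace, `f z ∈ U` near `0`.  Every continuous linear functional `λ`
  vanishing on `U` has `λ ∘ f = 0` near `0`, so `cst (cz λ) (tay f) = tay (λ ∘ f) = 0` (`tay_clm`,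
  `tay_congr`); `U` is the intersection of the kernels of such functionals (`A` finite dimensional).
* `tay_Dbf`: `tay` of a sum, `tay_mul` for `(gf : ℂ) • 1` applied to `∂_i f` and for `Ξf`, then `tay_fderiv`:
  `up (tay (Dbf f)) = ∑_i mulS (g i) (up (tay ∂_i f)) + up (mulS ξ (tay f))`.
* `tay_smulR`: `tay (fun z => (r z : ℂ) • f z) = mulS (tay ((r : ℂ) • 1)) (tay f)`: `tay_mul`.
-/

set_option autoImplicit false
set_option maxSynthPendingDepth 3

open scoped ContDiff Topology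
open Finset

noncomputable section

namespace Pool.Agent.EXO.L

variable {n M : ℕ} {A : Type*} [NormedAddCommGroup A] [NormedSpace ℂ A]

theorem mulS_up (a : Sq n (A →L[ℂ] A)) : (mulS a * up : Op n A) = up * mulS a := by
  refine LinearMap.ext fun P => funext fun w => ?_
  rw [Module.End.mul_apply, Module.End.mul_apply]
  cases w with
  | zero =>
    rw [mulS_apply, up_zero]
    simp only [Finset.Nat.antidiagonal_zero, sum_singleton, up_zero, map_zero]
  | succ w =>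
    rw [mulS_apply, up_succ, mulS_apply, Finset.Nat.sum_antidiagonal_succ']
    simp only [up_zero, map_zero, up_succ, zero_add, add_zero]

private theorem ltoA_ml_zero (f : Pl n A) : ml (0 : Pl n (A →L[ℂ] A)) f = 0 := by
  refine Pl.ext fun z => ?_
  rw [ml_apply]
  rfl

theorem mulS_up' (a : Sq n (A →L[ℂ] A)) : (mulS (up a) : Op n A) = up * mulS a := by
  refine LinearMap.ext fun P => funext fun w => ?_
  rw [Module.End.mul_apply]
  cases w with
  | zero =>
    rw [mulS_apply, up_zero]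
    simp only [Finset.Nat.antidiagonal_zero, sum_singleton, up_zero, ltoA_ml_zero]
  | succ w =>
    rw [mulS_apply, up_succ, mulS_apply, Finset.Nat.sum_antidiagonal_succ]
    simp only [up_zero, ltoA_ml_zero, up_succ, zero_add, add_zero]

theorem up_dn (r : ℕ) (a : Sq n A) (ha : ∀ w < r, a w = 0) : (up ^ r) (dn r a) = a := by
  funext w
  rw [up_pow]
  split_ifs with h
  · rw [dn]
    congr 1
    omega
  · exact (ha w (by omega)).symm

theorem mulS_dn (r : ℕ) (a : Sq n (A →L[ℂ] A)) (ha : ∀ w < r, a w = 0) :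
    (up ^ r * mulS (dn r a) : Op n A) = mulS a := by
  have h : ∀ (k : ℕ) (b : Sq n (A →L[ℂ] A)),
      (mulS ((up ^ k) b) : Op n A) = up ^ k * mulS b := by
    intro k
    induction k with
    | zero => intro b; simp
    | succ k ih =>
      intro b
      rw [pow_succ, Module.End.mul_apply, ih, mulS_up', ← mul_assoc, ← pow_succ]
  rw [← h, up_dn r a ha]

theorem mulS_add (a b : Sq n (A →L[ℂ] A)) : (mulS (a + b) : Op n A) = mulS a + mulS b := by
  refine LinearMap.ext fun P => funext fun w => ?_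
  rw [LinearMap.add_apply, Pi.add_apply, mulS_apply, mulS_apply, mulS_apply, ← sum_add_distrib]
  refine sum_congr rfl fun ij _ => Pl.ext fun z => ?_
  rw [ml_apply]
  rfl

theorem mulS_smul (c : ℂ) (a : Sq n (A →L[ℂ] A)) : (mulS (c • a) : Op n A) = c • mulS a := by
  refine LinearMap.ext fun P => funext fun w => ?_
  rw [LinearMap.smul_apply, Pi.smul_apply, mulS_apply, mulS_apply, smul_sum]
  refine sum_congr rfl fun ij _ => Pl.ext fun z => ?_
  rw [ml_apply]
  rfl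

theorem up_inj (P : Sq n A) (h : up P = 0) : P = 0 := by
  funext w
  have := congrFun h (w + 1)
  rwa [up_succ] at this

theorem nn_eu_tay (f : En n → A) : nn (tay f) - cst eu (tay f) = 0 := by
  funext w
  rw [Pi.sub_apply, nn_apply, cst_apply, eu_homog (tay f w) (hp_homog w f), sub_self]
  rfl

private theorem ltoA_tay_zero : tay (fun _ : En n => (0 : A)) = 0 := by
  funext w
  refine Pl.ext fun z => ?_
  rw [tay_const, s0_apply]
  split_ifs
  · rfl
  · rfl

theorem tay_mem [FiniteDimensional ℂ A] (U : Submodule ℂ A) {f : En n → A}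
    (hf : ContDiffAt ℝ ∞ f 0) (h : ∀ᶠ z in 𝓝 0, f z ∈ U) (w : ℕ) (z : En n) :
    (tay f w).1 z ∈ U := by
  let p : A →ₗ[ℂ] A ⧸ U := U.mkQ
  obtain ⟨V, hV⟩ := Submodule.exists_isCompl U
  let pr : A →ₗ[ℂ] A := LinearMap.id - U.subtype.comp (U.linearProjOfIsCompl V hV)
  have h1 : ∀ x, x ∈ U → pr x = 0 := by
    intro x hx
    have h2 : U.linearProjOfIsCompl V hV x = ⟨x, hx⟩ :=
      Submodule.linearProjOfIsCompl_apply_left hV ⟨x, hx⟩
    change x - ((U.linearProjOfIsCompl V hV x : U) : A) = 0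
    rw [h2]
    exact sub_self x
  have h2 : ∀ x, pr x = 0 → x ∈ U := by
    intro x hx
    have h3 : x - ((U.linearProjOfIsCompl V hV x : U) : A) = 0 := hx
    rw [sub_eq_zero.1 h3]
    exact (U.linearProjOfIsCompl V hV x).2
  let q : A →L[ℂ] A := LinearMap.toContinuousLinearMap pr
  have h4 : tay (fun z => q (f z)) = cst (cz q) (tay f) := tay_clm q hf
  have h5 : (fun z => q (f z)) =ᶠ[𝓝 0] fun _ => (0 : A) := by
    filter_upwards [h] with z hz
    exact h1 _ hz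
  rw [tay_congr h5, ltoA_tay_zero] at h4
  have h6 := congrFun h4 w
  have h7 := congrArg (fun g : Pl n A => (g : En n → A) z) h6
  simp only [cst_apply, cz_apply] at h7
  exact h2 _ h7.symm

/-- The derivative `𝒟_b` in the parametrization. -/
def Dbf (gf : Fin n → En n → ℝ) (Ξf : En n → (A →L[ℂ] A)) (f : En n → A) (z : En n) : A :=
  ∑ i, ((gf i z : ℝ) : ℂ) • fderiv ℝ f z (bv i) + Ξf z (f z)

/-- Scalar functions as operator valued functions. -/
def sc (A : Type*) [NormedAddCommGroup A] [NormedSpace ℂ A] (r : En n → ℝ) (z : En n) :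
    A →L[ℂ] A := ((r z : ℝ) : ℂ) • 1

/-- `t ↦ t • 1`. -/
private def ltoA_L (A : Type*) [NormedAddCommGroup A] [NormedSpace ℂ A] : ℝ →L[ℝ] (A →L[ℂ] A) :=
  (ContinuousLinearMap.toSpanSingleton ℝ (1 : A →L[ℂ] A))

private theorem ltoA_L_apply (t : ℝ) : ltoA_L A t = ((t : ℝ) : ℂ) • (1 : A →L[ℂ] A) := by
  change t • (1 : A →L[ℂ] A) = _
  exact (Complex.coe_smul t (1 : A →L[ℂ] A)).symm

private theorem ltoA_sc (r : En n → ℝ) : sc A r = ltoA_L A ∘ r := by
  funext z
  rw [Function.comp_apply, ltoA_L_apply]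
  rfl

theorem contDiffAt_sc {r : En n → ℝ} (hr : ContDiffAt ℝ ∞ r 0) : ContDiffAt ℝ ∞ (sc A r) 0 := by
  rw [ltoA_sc]
  exact (ltoA_L A).contDiff.contDiffAt.comp 0 hr

private theorem ltoA_app {g : En n → A →L[ℂ] A} {f : En n → A} (hg : ContDiffAt ℝ ∞ g 0)
    (hf : ContDiffAt ℝ ∞ f 0) : ContDiffAt ℝ ∞ (fun z => g z (f z)) 0 := by
  let ap : (A →L[ℂ] A) →L[ℝ] A →L[ℝ] A :=
    ContinuousLinearMap.restrictScalarsL ℂ A A ℝ ℝ
  have h1 : ContDiffAt ℝ ∞ (fun z => ap (g z)) 0 := ap.contDiff.contDiffAt.comp 0 hg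
  exact h1.clm_apply hf

private theorem ltoA_fd {f : En n → A} (hf : ContDiffAt ℝ ∞ f 0) (v : En n) :
    ContDiffAt ℝ ∞ (fun z => fderiv ℝ f z v) 0 :=
  (hf.fderiv_right (m := ∞) (by simp)).clm_apply contDiffAt_const

theorem contDiffAt_Dbf {gf : Fin n → En n → ℝ} {Ξf : En n → (A →L[ℂ] A)} {f : En n → A}
    (hg : ∀ i, ContDiffAt ℝ ∞ (gf i) 0) (hΞ : ContDiffAt ℝ ∞ Ξf 0) (hf : ContDiffAt ℝ ∞ f 0) :
    ContDiffAt ℝ ∞ (Dbf gf Ξf f) 0 := by
  refine ContDiffAt.add (ContDiffAt.sum fun i _ => ?_) (ltoA_app hΞ hf)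
  exact ltoA_app (contDiffAt_sc (A := A) (hg i)) (ltoA_fd hf (bv i))

theorem tay_Dbf {gf : Fin n → En n → ℝ} {Ξf : En n → (A →L[ℂ] A)} {f : En n → A}
    (hg : ∀ i, ContDiffAt ℝ ∞ (gf i) 0) (hΞ : ContDiffAt ℝ ∞ Ξf 0) (hf : ContDiffAt ℝ ∞ f 0) :
    up (tay (Dbf gf Ξf f)) = ((∑ i, mulS (tay (sc A (gf i))) * cst (dl (bv i))) +
      up * mulS (tay Ξf) : Op n A) (tay f) := by
  have hsc : ∀ i, ContDiffAt ℝ ∞ (fun z => sc A (gf i) z (fderiv ℝ f z (bv i))) 0 := fun i =>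
    ltoA_app (contDiffAt_sc (A := A) (hg i)) (ltoA_fd hf (bv i))
  have h1 : tay (Dbf gf Ξf f) = ∑ i, mulS (tay (sc A (gf i))) (tay fun z => fderiv ℝ f z (bv i)) +
      mulS (tay Ξf) (tay f) := by
    have h2 : Dbf gf Ξf f = fun z => (∑ i, sc A (gf i) z (fderiv ℝ f z (bv i))) + Ξf z (f z) := rfl
    rw [h2, tay_add (ContDiffAt.sum fun i _ => hsc i) (ltoA_app hΞ hf), tay_mul hΞ hf,
      tay_sum _ fun i _ => hsc i]
    congr 1
    exact sum_congr rfl fun i _ => tay_mul (contDiffAt_sc (hg i)) (ltoA_fd hf (bv i))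
  rw [h1, map_add, map_sum, LinearMap.add_apply, LinearMap.sum_apply, Module.End.mul_apply]
  congr 1
  refine sum_congr rfl fun i _ => ?_
  rw [Module.End.mul_apply, ← tay_fderiv hf (bv i)]
  have h3 := LinearMap.congr_fun (mulS_up (tay (sc A (gf i))))
    (tay fun z => fderiv ℝ f z (bv i))
  rw [Module.End.mul_apply, Module.End.mul_apply] at h3
  exact h3.symm

theorem tay_smulR {r : En n → ℝ} {f : En n → A} (hr : ContDiffAt ℝ ∞ r 0)
    (hf : ContDiffAt ℝ ∞ f 0) :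
    tay (fun z => ((r z : ℝ) : ℂ) • f z) = mulS (tay (sc A r)) (tay f) := by
  have h : (fun z => ((r z : ℝ) : ℂ) • f z) = fun z => sc A r z (f z) := rfl
  rw [h]
  exact tay_mul (contDiffAt_sc hr) hf

theorem tay_sc (r : En n → ℝ) (w : ℕ) (z : En n) (hr : ContDiffAt ℝ ∞ r 0) :
    ∃ c : ℂ, (tay (sc A r) w).1 z = c • (1 : A →L[ℂ] A) := by
  have h1 : (tay (sc A r) w).1 z =
      ((w.factorial : ℝ)⁻¹) • iteratedFDeriv ℝ w (sc A r) 0 (fun _ => z) := rfl
  have h2 : iteratedFDeriv ℝ w (ltoA_L A ∘ r) 0 =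
      (ltoA_L A).compContinuousMultilinearMap (iteratedFDeriv ℝ w r 0) :=
    (ltoA_L A).iteratedFDeriv_comp_left hr (i := w) (WithTop.coe_le_coe.2 le_top)
  refine ⟨(((w.factorial : ℝ)⁻¹ * iteratedFDeriv ℝ w r 0 (fun _ => z) : ℝ) : ℂ), ?_⟩
  rw [h1, ltoA_sc, h2, ← ltoA_L_apply]
  change ((w.factorial : ℝ)⁻¹) • ltoA_L A (iteratedFDeriv ℝ w r 0 (fun _ => z)) = _
  rw [← map_smul, smul_eq_mul]

end Pool.Agent.EXO.L
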