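import Mathlib

/-!
# EXO / LTrh : the trace of the exponential of a quadratic Clifford expression (IDX-L)

`R` is a `ℂ`-algebra, `h i` (`i : Fin n`) Clifford elements with squares `+1`, `Ω i j` an antisymmetric
matrix of elements which commute with each other and with the `h i`; `G = ¼ ∑ Ω_ij h_i h_j`;
`t : R → ℂ` linear with `t (h_i x) = t (x h_i)` for all `x` in the subalgebra `U` (which contains
the `h i`, `Ω i j`).  `Z ∈ U` commutes with the `h i` and the `Ω i j`.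
Then `t (G^k Z)` is given by the formulas below, `p k = tr (Ω^k)` (matrix trace).

Proof.  `h_i h_j + h_j h_i = 2 δ_ij` gives `[G, h_k] = -∑_q Ω_kq h_q`, i.e.
`G h_k = h_k G - (Ω h)_k`.
Put `M^{(i)}_{kl} = (1/i!) h_k h_l G^i Z ∈ R`, `f_i = (1/i!) G^i Z`.  Call two elements of `U`
equivalent, `x ~ y`, if `t (K x) = t (K y)` for all `K` in the commutative subalgebra generated by
the `Ω i j` (this is an additive relation, compatible with multiplication by such `K`).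
(1) `h_k h_l G^i Z ~ h_l G^i Z h_k = h_l G^i h_k Z` and
    `G^i h_k = ∑_j (i choose j) ((-Ω)^j h)_k G^{i-j}` (induction on `i`), so
    `M^{(i)}_{kl} ~ ∑_j ∑_p ((-Ω)^j/j!)_{kp} M^{(i-j)}_{lp}`
    (`h_l h_p G^{i-j}`: all `Ω` are central enough).
(2) `M^{(i)}_{kl} + M^{(i)}_{lk} = 2 δ_kl f_i`.
(3) `(i+1) f_{i+1} = ¼ ∑ Ω_kl M^{(i)}_{kl}`.
Write `M^{(i)} = f_i 1 + N^{(i)}`, `N^{(i)}` antisymmetric, by (2).  (1) reads
`2 N^{(i)} ~ ∑_{j≥1} ((-Ω)^j / j!) (f_{i-j} - N^{(i-j)})` (matrix product), so successively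
`N^{(i)} ~ -∑_j t_j Ω^j f_{i-j}` with `t_1 = 1/2, t_3 = -1/24, t_5 = 1/240`, other `t_j = 0` for
`j ≤ 6` (the Taylor coefficients of `tanh (x/2)`); check this for `i = 0, …, 6`.
By (3), `(i+1) f_{i+1} ~ ¼ ∑_kl Ω_kl N^{(i)}_kl = -¼ tr (Ω N^{(i)}) = ¼ ∑_j t_j p_{j+1} f_{i-j}`:
`f_1 ~ 0`, `f_2 ~ p₂/16 f_0`, `f_3 ~ 0`, `4 f_4 ~ ¼(½ p₂ f_2 - p₄/24 f_0)`, `f_5 ~ 0`,
`6 f_6 ~ ¼ (½ p₂ f_4 - p₄/24 f_2 + p₆/240 f_0)`, `f_7 ~ 0`, whence
`f_4 = p₂²/512 - p₄/384`, `f_6 = p₂³/24576 - p₂p₄/6144 + p₆/5760`.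
(`p_j = 0` for odd `j`, by antisymmetry of `Ω`.)

The factor `W` in the statements is an arbitrary element of the subalgebra generated by `Ω`, in the
form: `W ∈ Algebra.adjoin ℂ (range of Ω)`.
-/

set_option autoImplicit false
set_option maxSynthPendingDepth 3

open Finset

noncomputable section

namespace Pool.Agent.EXO.L

variable {n : ℕ} {R : Type*} [Ring R] [Algebra ℂ R]

/-- The hypotheses of the trace formula. -/
structure TSys (n : ℕ) (R : Type*) [Ring R] [Algebra ℂ R] where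
  h : Fin n → R
  Om : Matrix (Fin n) (Fin n) R
  t : R →ₗ[ℂ] ℂ
  U : Subalgebra ℂ R
  hU : ∀ i, h i ∈ U
  OmU : ∀ i j, Om i j ∈ U
  hh : ∀ i j, h i * h j + h j * h i = if i = j then 2 else 0
  OmOm : ∀ i j k l, Om i j * Om k l = Om k l * Om i j
  Omh : ∀ i j k, Om i j * h k = h k * Om i j
  anti : ∀ i j, Om i j = -Om j i
  tr : ∀ i, ∀ x ∈ U, t (h i * x) = t (x * h i)

namespace TSys

variable (S : TSys n R)

/-- The quadratic element. -/
def G : R := (1 / 4 : ℂ) • ∑ i, ∑ j, S.Om i j * (S.h i * S.h j)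

/-- The admissible factors. -/
structure Adm (Z : R) : Prop where
  mem : Z ∈ S.U
  com : ∀ i, S.h i * Z = Z * S.h i
  comO : ∀ i j, S.Om i j * Z = Z * S.Om i j

variable {S} {Z W : R}

/-- The commutative algebra generated by the curvature entries. -/
private abbrev KK (S : TSys n R) : Subalgebra ℂ R :=
  Algebra.adjoin ℂ (Set.range fun p : Fin n × Fin n => S.Om p.1 p.2)

private lemma Om_mem (S : TSys n R) (i j : Fin n) : S.Om i j ∈ KK S :=
  Algebra.subset_adjoin ⟨(i, j), rfl⟩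

private lemma K_comm_of (x : R) (hx : ∀ i j, S.Om i j * x = x * S.Om i j) {K : R}
    (hK : K ∈ KK S) : K * x = x * K := by
  have hle : KK S ≤ Subalgebra.centralizer ℂ {x} := by
    refine Algebra.adjoin_le ?_
    rintro _ ⟨p, rfl⟩
    rw [SetLike.mem_coe, Subalgebra.mem_centralizer_iff]
    intro g hg
    rw [Set.mem_singleton_iff] at hg
    subst hg
    exact (hx p.1 p.2).symm
  have := hle hK
  rw [Subalgebra.mem_centralizer_iff] at this
  exact (this x rfl).symm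

private lemma K_h {K : R} (hK : K ∈ KK S) (k : Fin n) : K * S.h k = S.h k * K :=
  K_comm_of _ (fun i j => S.Omh i j k) hK

private lemma K_Om {K : R} (hK : K ∈ KK S) (k l : Fin n) : K * S.Om k l = S.Om k l * K :=
  K_comm_of _ (fun i j => S.OmOm i j k l) hK

private lemma K_K {K K' : R} (hK : K ∈ KK S) (hK' : K' ∈ KK S) : K * K' = K' * K :=
  K_comm_of _ (fun i j => (K_Om hK' i j).symm) hK

private lemma K_U {K : R} (hK : K ∈ KK S) : K ∈ S.U := by
  have hle : KK S ≤ S.U := by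
    refine Algebra.adjoin_le ?_
    rintro _ ⟨p, rfl⟩
    exact S.OmU p.1 p.2
  exact hle hK

private lemma pow_mem_KK (S : TSys n R) (m : ℕ) (k l : Fin n) : (S.Om ^ m) k l ∈ KK S := by
  induction m generalizing k l with
  | zero =>
    rw [pow_zero, Matrix.one_apply]
    split
    · exact one_mem _
    · exact zero_mem _
  | succ m ih =>
    rw [pow_succ, Matrix.mul_apply]
    exact sum_mem fun q _ => mul_mem (ih k q) (Om_mem S q l)

private lemma tr_mem (S : TSys n R) (m : ℕ) : (S.Om ^ m).trace ∈ KK S :=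
  sum_mem fun q _ => pow_mem_KK S m q q

/-- Antisymmetry of the powers. -/
private lemma pow_flip (S : TSys n R) (m : ℕ) (k l : Fin n) :
    (S.Om ^ m) l k = (-1) ^ m * (S.Om ^ m) k l := by
  induction m generalizing k l with
  | zero =>
    simp [Matrix.one_apply, eq_comm]
  | succ m ih =>
    rw [pow_succ S.Om m, Matrix.mul_apply, ← pow_succ, pow_succ' S.Om m, Matrix.mul_apply,
      Finset.mul_sum]
    refine Finset.sum_congr rfl fun q _ => ?_
    rw [ih q l, S.anti q k, pow_succ]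
    rw [mul_assoc, mul_neg, ← K_Om (pow_mem_KK S m q l) k q]
    simp

private lemma G_mem (S : TSys n R) : S.G ∈ S.U := by
  unfold G
  refine Subalgebra.smul_mem _ (sum_mem fun i _ => sum_mem fun j _ => ?_) _
  exact mul_mem (S.OmU i j) (mul_mem (S.hU i) (S.hU j))

private lemma K_G {K : R} (hK : K ∈ KK S) : K * S.G = S.G * K := by
  unfold G
  rw [mul_smul_comm, smul_mul_assoc, Finset.mul_sum, Finset.sum_mul]
  congr 1
  refine Finset.sum_congr rfl fun i _ => ?_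
  rw [Finset.mul_sum, Finset.sum_mul]
  refine Finset.sum_congr rfl fun j _ => ?_
  rw [← mul_assoc K, K_Om hK, mul_assoc, ← mul_assoc K, K_h hK, mul_assoc, K_h hK]
  simp only [mul_assoc]

private lemma K_Gpow {K : R} (hK : K ∈ KK S) (i : ℕ) : K * S.G ^ i = S.G ^ i * K :=
  (Commute.pow_right (show Commute K S.G from K_G hK) i)

/-- The commutator of `G` and `h k`. -/
private lemma G_h (S : TSys n R) (k : Fin n) :
    S.G * S.h k = S.h k * S.G - ∑ q, S.Om k q * S.h q := by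
  have key : ∀ i j, S.Om i j * (S.h i * S.h j) * S.h k =
      S.h k * (S.Om i j * (S.h i * S.h j)) +
        ((if j = k then (2 : R) * (S.Om i j * S.h i) else 0)
          - (if i = k then (2 : R) * (S.Om i j * S.h j) else 0)) := by
    intro i j
    have e1 : S.h i * S.h j * S.h k = S.h k * (S.h i * S.h j)
        + S.h i * (S.h j * S.h k + S.h k * S.h j) - (S.h i * S.h k + S.h k * S.h i) * S.h j := by
      noncomm_ring
    have e2 : S.h k * (S.Om i j * (S.h i * S.h j)) = S.Om i j * (S.h k * (S.h i * S.h j)) := by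
      rw [← mul_assoc (S.h k) (S.Om i j), ← S.Omh i j k, mul_assoc]
    rw [mul_assoc, e1, e2, S.hh j k, S.hh i k]
    by_cases hjk : j = k
    · by_cases hik : i = k
      · simp only [hjk, hik, if_true]
        noncomm_ring
      · simp only [hjk, hik, if_true, if_false]
        noncomm_ring
    · by_cases hik : i = k
      · simp only [hjk, hik, if_true, if_false]
        noncomm_ring
      · simp only [hjk, hik, if_false]
        noncomm_ring
  have hsum : (∑ i, ∑ j, S.Om i j * (S.h i * S.h j)) * S.h k =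
      S.h k * (∑ i, ∑ j, S.Om i j * (S.h i * S.h j)) - (4 : ℂ) • ∑ q, S.Om k q * S.h q := by
    rw [Finset.sum_mul, Finset.mul_sum]
    have : ∀ i, (∑ j, S.Om i j * (S.h i * S.h j)) * S.h k =
        S.h k * (∑ j, S.Om i j * (S.h i * S.h j)) + ((2 : R) * (S.Om i k * S.h i)
          - (if i = k then ∑ j, (2 : R) * (S.Om i j * S.h j) else 0)) := by
      intro i
      rw [Finset.sum_mul, Finset.mul_sum]
      simp_rw [key i]
      rw [Finset.sum_add_distrib, Finset.sum_sub_distrib, Finset.sum_ite_eq' ]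
      simp only [Finset.mem_univ, if_true]
      congr 2
      by_cases hik : i = k
      · simp [hik]
      · simp [hik]
    simp_rw [this]
    rw [Finset.sum_add_distrib, Finset.sum_sub_distrib, Finset.sum_ite_eq']
    simp only [Finset.mem_univ, if_true]
    have h4 : (4 : ℂ) • ∑ q, S.Om k q * S.h q = (∑ q, (2 : R) * (S.Om k q * S.h q))
        + ∑ q, (2 : R) * (S.Om k q * S.h q) := by
      rw [← Finset.sum_add_distrib, Finset.smul_sum]
      refine Finset.sum_congr rfl fun q _ => ?_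
      rw [show (4 : ℂ) = ((4 : ℕ) : ℂ) by norm_num, Nat.cast_smul_eq_nsmul]
      noncomm_ring
    have h5 : ∑ i, (2 : R) * (S.Om i k * S.h i) = - ∑ q, (2 : R) * (S.Om k q * S.h q) := by
      rw [← Finset.sum_neg_distrib]
      refine Finset.sum_congr rfl fun q _ => ?_
      rw [S.anti q k]
      noncomm_ring
    rw [h4, h5]
    abel
  unfold G
  rw [smul_mul_assoc, hsum, mul_smul_comm, smul_sub, smul_smul]
  norm_num

variable (S Z) in
/-- `∑ (Ω^m)_kl h_k h_l G^i Z`. -/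
private def SS (m i : ℕ) : R :=
  ∑ k, ∑ l, (S.Om ^ m) k l * (S.h k * (S.h l * (S.G ^ i * Z)))

variable (S Z) in
/-- `∑ (Ω^m)_kl h_l G^i h_k G^r Z`. -/
private def TT (m i r : ℕ) : R :=
  ∑ k, ∑ l, (S.Om ^ m) k l * (S.h l * (S.G ^ i * (S.h k * (S.G ^ r * Z))))

private lemma SS_one (i : ℕ) : SS S Z 1 i = (4 : ℂ) • (S.G ^ (i + 1) * Z) := by
  have : S.G ^ (i + 1) * Z = S.G * (S.G ^ i * Z) := by rw [pow_succ', mul_assoc]
  rw [this]
  unfold SS
  generalize S.G ^ i * Z = X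
  unfold G
  rw [smul_mul_assoc, smul_smul]
  norm_num
  rw [Finset.sum_mul]
  refine Finset.sum_congr rfl fun k _ => ?_
  rw [Finset.sum_mul]
  refine Finset.sum_congr rfl fun l _ => ?_
  simp only [pow_one, mul_assoc]

private lemma SS_even (m i : ℕ) (hm : Even m) :
    (2 : ℂ) • SS S Z m i = (2 : ℂ) • ((S.Om ^ m).trace * (S.G ^ i * Z)) := by
  have h1 : SS S Z m i = ∑ k, ∑ l, (S.Om ^ m) k l * (S.h l * (S.h k * (S.G ^ i * Z))) := by
    unfold SS
    rw [Finset.sum_comm]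
    refine Finset.sum_congr rfl fun k _ => Finset.sum_congr rfl fun l _ => ?_
    rw [pow_flip S m k l, hm.neg_one_pow, one_mul]
  rw [two_smul]
  nth_rewrite 2 [h1]
  unfold SS
  rw [← Finset.sum_add_distrib]
  simp_rw [← Finset.sum_add_distrib]
  have : ∀ k l, (S.Om ^ m) k l * (S.h k * (S.h l * (S.G ^ i * Z))) +
      (S.Om ^ m) k l * (S.h l * (S.h k * (S.G ^ i * Z))) =
      if k = l then (S.Om ^ m) k l * (2 * (S.G ^ i * Z)) else 0 := by
    intro k l
    have : (S.Om ^ m) k l * (S.h k * (S.h l * (S.G ^ i * Z))) +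
      (S.Om ^ m) k l * (S.h l * (S.h k * (S.G ^ i * Z))) =
      (S.Om ^ m) k l * ((S.h k * S.h l + S.h l * S.h k) * (S.G ^ i * Z)) := by noncomm_ring
    rw [this, S.hh]
    split <;> simp
  simp_rw [this]
  simp only [Finset.sum_ite_eq, Finset.mem_univ, if_true]
  rw [← Finset.sum_mul, Matrix.trace]
  simp only [Matrix.diag_apply]
  rw [show (2 : R) * (S.G ^ i * Z) = (2 : ℂ) • (S.G ^ i * Z) by rw [two_smul, two_mul],
    mul_smul_comm]

private lemma TT_succ (m i r : ℕ) :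
    TT S Z m (i + 1) r = TT S Z m i (r + 1) + TT S Z (m + 1) i r := by
  have h1 : ∀ k l, (S.Om ^ m) k l * (S.h l * (S.G ^ (i + 1) * (S.h k * (S.G ^ r * Z)))) =
      (S.Om ^ m) k l * (S.h l * (S.G ^ i * (S.h k * (S.G ^ (r + 1) * Z)))) -
      ∑ q, (S.Om ^ m) k l * S.Om k q * (S.h l * (S.G ^ i * (S.h q * (S.G ^ r * Z)))) := by
    intro k l
    have e1 : S.G ^ (i + 1) * (S.h k * (S.G ^ r * Z)) =
        S.G ^ i * (S.h k * (S.G ^ (r + 1) * Z)) -
          ∑ q, S.Om k q * (S.G ^ i * (S.h q * (S.G ^ r * Z))) := by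
      have : S.G ^ (i + 1) * (S.h k * (S.G ^ r * Z)) =
          S.G ^ i * ((S.G * S.h k) * (S.G ^ r * Z)) := by
        rw [pow_succ]; simp only [mul_assoc]
      rw [this, G_h, sub_mul, mul_sub, Finset.sum_mul, Finset.mul_sum]
      congr 1
      · rw [pow_succ' S.G r]; simp only [mul_assoc]
      · refine Finset.sum_congr rfl fun q _ => ?_
        rw [mul_assoc (S.Om k q), ← mul_assoc (S.G ^ i) (S.Om k q), ← K_Gpow (Om_mem S k q) i,
          mul_assoc]
    rw [e1, mul_sub, mul_sub, Finset.mul_sum, Finset.mul_sum]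
    congr 1
    refine Finset.sum_congr rfl fun q _ => ?_
    rw [← mul_assoc (S.h l) (S.Om k q), ← S.Omh k q l]
    simp only [mul_assoc]
  unfold TT
  simp_rw [h1]
  simp_rw [Finset.sum_sub_distrib]
  rw [sub_eq_add_neg]
  congr 1
  rw [Finset.sum_comm, ← Finset.sum_neg_distrib]
  -- now sum over l of sum over k of sum over q
  have h2 : ∀ q l, (S.Om ^ (m + 1)) q l = - ∑ k, (S.Om ^ m) k l * S.Om k q := by
    intro q l
    rw [pow_succ', Matrix.mul_apply, ← Finset.sum_neg_distrib]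
    refine Finset.sum_congr rfl fun k _ => ?_
    rw [K_Om (pow_mem_KK S m k l) k q, S.anti q k]
    simp
  simp_rw [h2]
  rw [Finset.sum_comm (s := Finset.univ) (t := Finset.univ)
    (f := fun x x_1 => (-∑ k, (S.Om ^ m) k x_1 * S.Om k x) *
      (S.h x_1 * (S.G ^ i * (S.h x * (S.G ^ r * Z)))))]
  refine Finset.sum_congr rfl fun l _ => ?_
  rw [Finset.sum_comm, ← Finset.sum_neg_distrib]
  refine Finset.sum_congr rfl fun q _ => ?_
  rw [neg_mul, Finset.sum_mul]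

private lemma TT_zero (m r : ℕ) : TT S Z m 0 r = (-1) ^ m * SS S Z m r := by
  unfold TT SS
  rw [Finset.sum_comm, Finset.mul_sum]
  refine Finset.sum_congr rfl fun k _ => ?_
  rw [Finset.mul_sum]
  refine Finset.sum_congr rfl fun l _ => ?_
  rw [pow_flip S m k l, pow_zero, one_mul]
  simp only [mul_assoc]

variable (S Z) in
private def sg (K : R) (m i : ℕ) : ℂ := S.t (K * SS S Z m i)
variable (S Z) in
private def ta (K : R) (m i r : ℕ) : ℂ := S.t (K * TT S Z m i r)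
variable (S Z) in
private def ff (K : R) (i : ℕ) : ℂ := S.t (K * (S.G ^ i * Z))

private lemma sg_one (K : R) (i : ℕ) : sg S Z K 1 i = 4 * ff S Z K (i + 1) := by
  unfold sg ff
  rw [SS_one, mul_smul_comm, map_smul, smul_eq_mul]

private lemma sg_even (K : R) (m i : ℕ) (hm : Even m) :
    sg S Z K m i = ff S Z (K * (S.Om ^ m).trace) i := by
  have h := congrArg (fun x => S.t (K * x)) (SS_even (S := S) (Z := Z) m i hm)
  simp only [mul_smul_comm, map_smul, smul_eq_mul] at h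
  unfold sg ff
  rw [mul_assoc]
  have h2 : (2 : ℂ) ≠ 0 := two_ne_zero
  exact mul_left_cancel₀ h2 h

private lemma ta_succ (K : R) (m i r : ℕ) :
    ta S Z K m (i + 1) r = ta S Z K m i (r + 1) + ta S Z K (m + 1) i r := by
  unfold ta
  rw [TT_succ, mul_add, map_add]

private lemma ta_zero (K : R) (m r : ℕ) : ta S Z K m 0 r = (-1) ^ m * sg S Z K m r := by
  unfold ta sg
  rw [TT_zero]
  rcases Nat.even_or_odd m with hm | hm
  · rw [hm.neg_one_pow, hm.neg_one_pow, one_mul, one_mul]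
  · rw [hm.neg_one_pow, hm.neg_one_pow]
    simp

/-- The trace property. -/
private lemma sg_eq (hZ : S.Adm Z) {K : R} (hK : K ∈ KK S) (m i : ℕ) :
    sg S Z K m i = ta S Z K m i 0 := by
  unfold sg ta SS TT
  simp only [Finset.mul_sum, map_sum]
  refine Finset.sum_congr rfl fun k _ => Finset.sum_congr rfl fun l _ => ?_
  have hA : K * (S.Om ^ m) k l ∈ KK S := mul_mem hK (pow_mem_KK S m k l)
  rw [← mul_assoc K, ← mul_assoc K, ← mul_assoc (K * (S.Om ^ m) k l) (S.h k), K_h hA,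
    mul_assoc (S.h k)]
  rw [S.tr k _ (mul_mem (K_U hA) (mul_mem (S.hU l) (mul_mem (pow_mem (G_mem S) i) hZ.mem)))]
  congr 1
  rw [pow_zero, one_mul]
  simp only [mul_assoc]
  rw [hZ.com k]

/-- All the relations which are used. -/
private lemma s0 (hZ : S.Adm Z) {K : R} (hK : K ∈ KK S) (m : ℕ) (hm : Odd m) :
    sg S Z K m 0 = 0 := by
  have h := sg_eq hZ hK m 0
  rw [ta_zero, hm.neg_one_pow] at h
  linear_combination (1 / 2 : ℂ) * h

private lemma s1 (hZ : S.Adm Z) {K : R} (hK : K ∈ KK S) (m : ℕ) (hm : Odd m) :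
    sg S Z K m 1 = 1 / 2 * ff S Z (K * (S.Om ^ (m + 1)).trace) 0 := by
  have h := sg_eq hZ hK m 1
  have hm1 : Even (m + 1) := hm.add_one
  simp only [ta_succ, ta_zero, hm.neg_one_pow, hm1.neg_one_pow, sg_even K (m + 1) _ hm1] at h
  linear_combination (1 / 2 : ℂ) * h

private lemma s2 (hZ : S.Adm Z) {K : R} (hK : K ∈ KK S) (m : ℕ) (hm : Odd m) :
    sg S Z K m 2 = ff S Z (K * (S.Om ^ (m + 1)).trace) 1 := by
  have h := sg_eq hZ hK m 2
  have hm1 : Even (m + 1) := hm.add_one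
  have hm2 : Odd (m + 1 + 1) := hm1.add_one
  simp only [ta_succ, ta_zero, hm.neg_one_pow, hm1.neg_one_pow, hm2.neg_one_pow,
    sg_even K (m + 1) _ hm1, s0 hZ hK _ hm2] at h
  linear_combination (1 / 2 : ℂ) * h

private lemma s3 (hZ : S.Adm Z) {K : R} (hK : K ∈ KK S) (m : ℕ) (hm : Odd m) :
    sg S Z K m 3 = 3 / 2 * ff S Z (K * (S.Om ^ (m + 1)).trace) 2
      - 1 / 4 * ff S Z (K * (S.Om ^ (m + 3)).trace) 0 := by
  have h := sg_eq hZ hK m 3
  have hm1 : Even (m + 1) := hm.add_one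
  have hm2 : Odd (m + 1 + 1) := hm1.add_one
  have hm3 : Even (m + 1 + 1 + 1) := hm2.add_one
  simp only [ta_succ, ta_zero, hm.neg_one_pow, hm1.neg_one_pow, hm2.neg_one_pow, hm3.neg_one_pow,
    sg_even K (m + 1) _ hm1, sg_even K (m + 1 + 1 + 1) _ hm3, s0 hZ hK _ hm2, s1 hZ hK _ hm2] at h
  linear_combination (1 / 2 : ℂ) * h

private lemma s4 (hZ : S.Adm Z) {K : R} (hK : K ∈ KK S) (m : ℕ) (hm : Odd m) :
    sg S Z K m 4 = 2 * ff S Z (K * (S.Om ^ (m + 1)).trace) 3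
      - ff S Z (K * (S.Om ^ (m + 3)).trace) 1 := by
  have h := sg_eq hZ hK m 4
  have hm1 : Even (m + 1) := hm.add_one
  have hm2 : Odd (m + 1 + 1) := hm1.add_one
  have hm3 : Even (m + 1 + 1 + 1) := hm2.add_one
  have hm4 : Odd (m + 1 + 1 + 1 + 1) := hm3.add_one
  simp only [ta_succ, ta_zero, hm.neg_one_pow, hm1.neg_one_pow, hm2.neg_one_pow, hm3.neg_one_pow,
    hm4.neg_one_pow,
    sg_even K (m + 1) _ hm1, sg_even K (m + 1 + 1 + 1) _ hm3, s0 hZ hK _ hm2, s1 hZ hK _ hm2,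
    s2 hZ hK _ hm2, s0 hZ hK _ hm4] at h
  linear_combination (1 / 2 : ℂ) * h

private lemma s5 (hZ : S.Adm Z) {K : R} (hK : K ∈ KK S) (m : ℕ) (hm : Odd m) :
    sg S Z K m 5 = 5 / 2 * ff S Z (K * (S.Om ^ (m + 1)).trace) 4
      - 5 / 2 * ff S Z (K * (S.Om ^ (m + 3)).trace) 2
      + 1 / 2 * ff S Z (K * (S.Om ^ (m + 5)).trace) 0 := by
  have h := sg_eq hZ hK m 5
  have hm1 : Even (m + 1) := hm.add_one
  have hm2 : Odd (m + 1 + 1) := hm1.add_one
  have hm3 : Even (m + 1 + 1 + 1) := hm2.add_one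
  have hm4 : Odd (m + 1 + 1 + 1 + 1) := hm3.add_one
  have hm5 : Even (m + 1 + 1 + 1 + 1 + 1) := hm4.add_one
  simp only [ta_succ, ta_zero, hm.neg_one_pow, hm1.neg_one_pow, hm2.neg_one_pow, hm3.neg_one_pow,
    hm4.neg_one_pow, hm5.neg_one_pow,
    sg_even K (m + 1) _ hm1, sg_even K (m + 1 + 1 + 1) _ hm3,
    sg_even K (m + 1 + 1 + 1 + 1 + 1) _ hm5, s0 hZ hK _ hm2, s1 hZ hK _ hm2,
    s2 hZ hK _ hm2, s3 hZ hK _ hm2, s0 hZ hK _ hm4, s1 hZ hK _ hm4] at h
  linear_combination (1 / 2 : ℂ) * h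

private lemma s6 (hZ : S.Adm Z) {K : R} (hK : K ∈ KK S) (m : ℕ) (hm : Odd m) :
    sg S Z K m 6 = 3 * ff S Z (K * (S.Om ^ (m + 1)).trace) 5
      - 5 * ff S Z (K * (S.Om ^ (m + 3)).trace) 3
      + 3 * ff S Z (K * (S.Om ^ (m + 5)).trace) 1 := by
  have h := sg_eq hZ hK m 6
  have hm1 : Even (m + 1) := hm.add_one
  have hm2 : Odd (m + 1 + 1) := hm1.add_one
  have hm3 : Even (m + 1 + 1 + 1) := hm2.add_one
  have hm4 : Odd (m + 1 + 1 + 1 + 1) := hm3.add_one
  have hm5 : Even (m + 1 + 1 + 1 + 1 + 1) := hm4.add_one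
  have hm6 : Odd (m + 1 + 1 + 1 + 1 + 1 + 1) := hm5.add_one
  simp only [ta_succ, ta_zero, hm.neg_one_pow, hm1.neg_one_pow, hm2.neg_one_pow, hm3.neg_one_pow,
    hm4.neg_one_pow, hm5.neg_one_pow, hm6.neg_one_pow,
    sg_even K (m + 1) _ hm1, sg_even K (m + 1 + 1 + 1) _ hm3,
    sg_even K (m + 1 + 1 + 1 + 1 + 1) _ hm5, s0 hZ hK _ hm2, s1 hZ hK _ hm2,
    s2 hZ hK _ hm2, s3 hZ hK _ hm2, s4 hZ hK _ hm2, s0 hZ hK _ hm4, s1 hZ hK _ hm4,
    s2 hZ hK _ hm4, s0 hZ hK _ hm6] at h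
  linear_combination (1 / 2 : ℂ) * h

private lemma f1 (hZ : S.Adm Z) {K : R} (hK : K ∈ KK S) : ff S Z K 1 = 0 := by
  have h := sg_one (S := S) (Z := Z) K 0
  rw [s0 hZ hK 1 odd_one] at h
  linear_combination (-1 / 4 : ℂ) * h

private lemma f2 (hZ : S.Adm Z) {K : R} (hK : K ∈ KK S) :
    ff S Z K 2 = 1 / 8 * ff S Z (K * (S.Om ^ 2).trace) 0 := by
  have h := sg_one (S := S) (Z := Z) K 1
  rw [s1 hZ hK 1 odd_one] at h
  linear_combination (-1 / 4 : ℂ) * h

private lemma f3 (hZ : S.Adm Z) {K : R} (hK : K ∈ KK S) : ff S Z K 3 = 0 := by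
  have h := sg_one (S := S) (Z := Z) K 2
  rw [s2 hZ hK 1 odd_one, f1 hZ (mul_mem hK (tr_mem S _))] at h
  linear_combination (-1 / 4 : ℂ) * h

private lemma f4 (hZ : S.Adm Z) {K : R} (hK : K ∈ KK S) :
    ff S Z K 4 = 3 / 64 * ff S Z (K * (S.Om ^ 2).trace * (S.Om ^ 2).trace) 0
      - 1 / 16 * ff S Z (K * (S.Om ^ 4).trace) 0 := by
  have h := sg_one (S := S) (Z := Z) K 3
  rw [s3 hZ hK 1 odd_one, f2 hZ (mul_mem hK (tr_mem S _))] at h
  linear_combination (-1 / 4 : ℂ) * h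

private lemma f5 (hZ : S.Adm Z) {K : R} (hK : K ∈ KK S) : ff S Z K 5 = 0 := by
  have h := sg_one (S := S) (Z := Z) K 4
  rw [s4 hZ hK 1 odd_one, f1 hZ (mul_mem hK (tr_mem S _)), f3 hZ (mul_mem hK (tr_mem S _))] at h
  linear_combination (-1 / 4 : ℂ) * h

private lemma f6 (hZ : S.Adm Z) {K : R} (hK : K ∈ KK S) :
    ff S Z K 6 = 15 / 512 * ff S Z (K * (S.Om ^ 2).trace * (S.Om ^ 2).trace * (S.Om ^ 2).trace) 0
      - 5 / 128 * ff S Z (K * (S.Om ^ 2).trace * (S.Om ^ 4).trace) 0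
      - 5 / 64 * ff S Z (K * (S.Om ^ 4).trace * (S.Om ^ 2).trace) 0
      + 1 / 8 * ff S Z (K * (S.Om ^ 6).trace) 0 := by
  have h := sg_one (S := S) (Z := Z) K 5
  rw [s5 hZ hK 1 odd_one, f2 hZ (mul_mem hK (tr_mem S _)), f4 hZ (mul_mem hK (tr_mem S _))] at h
  linear_combination (-1 / 4 : ℂ) * h

private lemma f7 (hZ : S.Adm Z) {K : R} (hK : K ∈ KK S) : ff S Z K 7 = 0 := by
  have h := sg_one (S := S) (Z := Z) K 6
  rw [s6 hZ hK 1 odd_one, f1 hZ (mul_mem hK (tr_mem S _)), f3 hZ (mul_mem hK (tr_mem S _)),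
    f5 hZ (mul_mem hK (tr_mem S _))] at h
  linear_combination (-1 / 4 : ℂ) * h

theorem odd (hZ : S.Adm Z) (hW : W ∈ Algebra.adjoin ℂ (Set.range fun p : Fin n × Fin n => S.Om p.1 p.2))
    (k : ℕ) (hk : k = 1 ∨ k = 3 ∨ k = 5 ∨ k = 7) : S.t (W * (S.G ^ k * Z)) = 0 := by
  rcases hk with rfl | rfl | rfl | rfl
  · exact f1 hZ hW
  · exact f3 hZ hW
  · exact f5 hZ hW
  · exact f7 hZ hW

theorem two (hZ : S.Adm Z)
    (hW : W ∈ Algebra.adjoin ℂ (Set.range fun p : Fin n × Fin n => S.Om p.1 p.2)) :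
    S.t (W * (S.G ^ 2 * Z)) = (1 / 8 : ℂ) * S.t (W * ((S.Om ^ 2).trace * Z)) := by
  have h := f2 hZ hW
  unfold ff at h
  rw [h, pow_zero, one_mul, mul_assoc]

theorem four (hZ : S.Adm Z)
    (hW : W ∈ Algebra.adjoin ℂ (Set.range fun p : Fin n × Fin n => S.Om p.1 p.2)) :
    S.t (W * (S.G ^ 4 * Z)) = (3 / 64 : ℂ) * S.t (W * ((S.Om ^ 2).trace ^ 2 * Z))
      - (1 / 16 : ℂ) * S.t (W * ((S.Om ^ 4).trace * Z)) := by
  have h := f4 hZ hW
  unfold ff at h
  rw [h]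
  simp only [pow_zero, one_mul, mul_assoc, pow_two (S.Om ^ 2).trace]

theorem six (hZ : S.Adm Z)
    (hW : W ∈ Algebra.adjoin ℂ (Set.range fun p : Fin n × Fin n => S.Om p.1 p.2)) :
    S.t (W * (S.G ^ 6 * Z)) = (15 / 512 : ℂ) * S.t (W * ((S.Om ^ 2).trace ^ 3 * Z))
      - (15 / 128 : ℂ) * S.t (W * ((S.Om ^ 2).trace * (S.Om ^ 4).trace * Z))
      + (1 / 8 : ℂ) * S.t (W * ((S.Om ^ 6).trace * Z)) := by
  have h := f6 hZ hW
  have hc : (S.Om ^ 4).trace * (S.Om ^ 2).trace = (S.Om ^ 2).trace * (S.Om ^ 4).trace :=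
    K_K (tr_mem S 4) (tr_mem S 2)
  have e : W * (S.Om ^ 4).trace * (S.Om ^ 2).trace = W * (S.Om ^ 2).trace * (S.Om ^ 4).trace := by
    rw [mul_assoc, hc, mul_assoc]
  rw [e] at h
  unfold ff at h
  rw [h]
  simp only [pow_zero, one_mul, mul_assoc, pow_succ (S.Om ^ 2).trace]
  ring

end TSys

end Pool.Agent.EXO.L
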