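import Pool.Agent.EXO.LMehA

/-!
# EXO / LVal : the value of the model solution at `ζ = 0` in weight 14 (IDX-L)

`model X Ω F v = expS (-(up * cst ∑ ζ_l X_l)) (expS (mehler Ω) (expS (-(up² cst (cz F))) (s0 (pc v))))`.

* `model_zero`: in weight `0` it is the constant `v` (`expS_zero_apply`).
* `model_val`: its value at `0` in weight `14` is the explicit expression below, where
  `τ k = tr (Ω^(2k))`, `L1 = -1/48 τ₁`, `L2 = ½ L1² + 1/5760 τ₂`,
  `L3 = 1/6 L1³ + L1 (1/5760 τ₂) - 1/362880 τ₃` and `F` commutes with `Ω`.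

Proof.  Let `ev P w = (P w) 0`.  Operators `up * cst (∑ mz l * cz X_l)`: every positive power
applied to anything vanishes at `ζ = 0` (the leftmost factor contains `mz l`), so
`ev (expS (-(up * cst C)) Q) w = ev Q w` for all `Q` (only `i = 0` contributes).
Likewise, for `Q` the sequence of constants (`∀ w, ∃ x, Q w = pc x`), by induction on `i`:
`((mehler Ω)^i Q)` has at `ζ = 0` the same value as `(m₀^i Q)` where
`m₀ = ∑_k up^(4k) * cst (l_k • cz τ_k)` (`Oz_pow`, the parts `qd` have a factor `zz i` on the left).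
(Evaluation at `0` satisfies `ev (mehler Ω P) = m₀' (ev P)` where `m₀'` acts on
sequences `ℕ → A`; hence `ev ((mehler Ω)^i P) = m₀'^i (ev P)` by induction. The latter is simplest;
similarly `ev (up^2 * cst (cz F) P) = ...`.)
So the value in weight `w` is that of
`∑_{i} (1/i!) (∑_k l_k τ_k up^(4k))^i ∑_j (1/j!) (-F up²)^j` applied to `(v, 0, 0, ...)`; in weight
`14 = 4a + 8b + 12c + 2d`: `d = 7`; `(a,d) = (1,5)`; `(2,0,0;3)`, `(0,1,0;3)`; `(3,0,0;1)`,
`(1,1,0;1)`, `(0,0,1;1)`.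
-/

set_option autoImplicit false
set_option maxSynthPendingDepth 3

open scoped ContDiff
open Finset

noncomputable section

namespace Pool.Agent.EXO.L

variable {n : ℕ} {A : Type*} [NormedAddCommGroup A] [NormedSpace ℂ A]

/-- The model solution. -/
def model (X : Fin n → A →L[ℂ] A) (Ω : Matrix (Fin n) (Fin n) (A →L[ℂ] A)) (F : A →L[ℂ] A)
    (v : A) : Sq n A :=
  expS (-(up * cst (∑ l, mz l * cz (X l)))) (expS (mehler Ω)
    (expS (-(up ^ 2 * cst (cz F))) (s0 (pc v))))

theorem model_zero (X : Fin n → A →L[ℂ] A) (Ω : Matrix (Fin n) (Fin n) (A →L[ℂ] A))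
    (F : A →L[ℂ] A) (v : A) : model X Ω F v 0 = pc v := by
  unfold model
  rw [expS_zero_apply, expS_zero_apply, expS_zero_apply, s0_zero]

/-- `L̂`-like coefficients of the model solution. -/
def L1 (Ω : Matrix (Fin n) (Fin n) (A →L[ℂ] A)) : A →L[ℂ] A := (-1 / 48 : ℂ) • (Ω ^ 2).trace

@[inherit_doc L1]
def L2 (Ω : Matrix (Fin n) (Fin n) (A →L[ℂ] A)) : A →L[ℂ] A :=
  (1 / 2 : ℂ) • (L1 Ω * L1 Ω) + (1 / 5760 : ℂ) • (Ω ^ 4).trace

@[inherit_doc L1]
def L3 (Ω : Matrix (Fin n) (Fin n) (A →L[ℂ] A)) : A →L[ℂ] A :=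
  (1 / 6 : ℂ) • (L1 Ω * L1 Ω * L1 Ω) + (1 / 5760 : ℂ) • (L1 Ω * (Ω ^ 4).trace) +
    (-1 / 362880 : ℂ) • (Ω ^ 6).trace

/-- evaluation at `0` -/
private def ev0 : Pl n A →ₗ[ℂ] A where
  toFun f := (f : En n → A) 0
  map_add' f g := rfl
  map_smul' c f := rfl

private theorem ev0_mz (i : Fin n) (f : Pl n A) : ev0 (mz i f) = 0 := by
  show (mz i f : En n → A) 0 = 0
  rw [mz_apply]
  simp

private theorem ev0_cz (a : A →L[ℂ] A) (f : Pl n A) : ev0 (cz a f) = a (ev0 f) := rfl

private theorem ev0_pc (x : A) : ev0 (pc x : Pl n A) = x := rfl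

private theorem ev0_qd (Ω : Matrix (Fin n) (Fin n) (A →L[ℂ] A)) (k : ℕ) (P : Sq n A) (w : ℕ) :
    ev0 (qd Ω k P w) = 0 := by
  unfold qd
  rw [LinearMap.sum_apply, Finset.sum_apply, map_sum]
  refine sum_eq_zero fun i _ => ?_
  rw [LinearMap.sum_apply, Finset.sum_apply, map_sum]
  refine sum_eq_zero fun j _ => ?_
  rw [mul_assoc, Module.End.mul_apply]
  unfold zz
  rw [cst_apply, ev0_mz]

private theorem ev0_tq (Ω : Matrix (Fin n) (Fin n) (A →L[ℂ] A)) (k : ℕ) (P : Sq n A) (w : ℕ) :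
    ev0 (tq Ω k P w) = if 4 * k ≤ w then (Ω ^ (2 * k)).trace (ev0 (P (w - 4 * k))) else 0 := by
  unfold tq Matrix.trace
  rw [LinearMap.sum_apply, Finset.sum_apply, map_sum]
  have h : ∀ i : Fin n, ev0 ((Oz Ω ^ (2 * k)).diag i P w) =
      if 4 * k ≤ w then ((Ω ^ (2 * k)) i i) (ev0 (P (w - 4 * k))) else 0 := by
    intro i
    rw [Matrix.diag_apply, Oz_pow, Module.End.mul_apply, up_pow]
    have e : 2 * (2 * k) = 4 * k := by ring
    rw [e]
    split_ifs with h
    · rw [cst_apply, ev0_cz]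
    · exact map_zero _
  rw [Finset.sum_congr rfl fun i _ => h i]
  split_ifs with h1
  · rw [ContinuousLinearMap.sum_apply]
    rfl
  · exact sum_const_zero

/-- the operator of the exponent on the values at `0` -/
private def TT (a b c : A →L[ℂ] A) (q : ℕ → A) : ℕ → A := fun w =>
  (if 4 ≤ w then a (q (w - 4)) else 0) + (if 8 ≤ w then b (q (w - 8)) else 0) +
    (if 12 ≤ w then c (q (w - 12)) else 0)

private theorem TT_ge (a b c : A →L[ℂ] A) (q : ℕ → A) (i : ℕ) :
    ∀ w, w < 4 * i → (TT a b c)^[i] q w = 0 := by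
  induction i with
  | zero => intro w hw; omega
  | succ i ih =>
    intro w hw
    rw [Function.iterate_succ_apply']
    unfold TT
    have e1 : (if 4 ≤ w then a ((TT a b c)^[i] q (w - 4)) else 0) = 0 := by
      split_ifs with h
      · rw [ih (w - 4) (by omega), map_zero]
      · rfl
    have e2 : (if 8 ≤ w then b ((TT a b c)^[i] q (w - 8)) else 0) = 0 := by
      split_ifs with h
      · rw [ih (w - 8) (by omega), map_zero]
      · rfl
    have e3 : (if 12 ≤ w then c ((TT a b c)^[i] q (w - 12)) else 0) = 0 := by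
      split_ifs with h
      · rw [ih (w - 12) (by omega), map_zero]
      · rfl
    have e1' : (if 4 ≤ w then a ((fun q w => (if 4 ≤ w then a (q (w - 4)) else 0) +
      (if 8 ≤ w then b (q (w - 8)) else 0) + (if 12 ≤ w then c (q (w - 12)) else 0))^[i] q
        (w - 4)) else 0) = 0 := e1
    have e2' : (if 8 ≤ w then b ((fun q w => (if 4 ≤ w then a (q (w - 4)) else 0) +
      (if 8 ≤ w then b (q (w - 8)) else 0) + (if 12 ≤ w then c (q (w - 12)) else 0))^[i] q
        (w - 8)) else 0) = 0 := e2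
    have e3' : (if 12 ≤ w then c ((fun q w => (if 4 ≤ w then a (q (w - 4)) else 0) +
      (if 8 ≤ w then b (q (w - 8)) else 0) + (if 12 ≤ w then c (q (w - 12)) else 0))^[i] q
        (w - 12)) else 0) = 0 := e3
    rw [e1', e2', e3', add_zero, add_zero]

private theorem ev0_mehler (Ω : Matrix (Fin n) (Fin n) (A →L[ℂ] A)) (P : Sq n A) (w : ℕ) :
    ev0 (mehler Ω P w) = TT (L1 Ω) ((1 / 5760 : ℂ) • (Ω ^ 4).trace)
      ((-1 / 362880 : ℂ) • (Ω ^ 6).trace) (fun u => ev0 (P u)) w := by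
  unfold mehler
  simp only [LinearMap.add_apply, Pi.add_apply, LinearMap.smul_apply, Pi.smul_apply, map_add,
    map_smul, ev0_qd, ev0_tq, smul_zero, zero_add, add_zero]
  unfold TT L1
  simp only [mul_one, ContinuousLinearMap.smul_apply, smul_ite, smul_zero]

private theorem ev0_mehler_pow (Ω : Matrix (Fin n) (Fin n) (A →L[ℂ] A)) (P : Sq n A) (i : ℕ) :
    ∀ w, ev0 ((mehler Ω ^ i) P w) = (TT (L1 Ω) ((1 / 5760 : ℂ) • (Ω ^ 4).trace)
      ((-1 / 362880 : ℂ) • (Ω ^ 6).trace))^[i] (fun u => ev0 (P u)) w := by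
  induction i with
  | zero => intro w; rfl
  | succ i ih =>
    intro w
    rw [pow_succ', Module.End.mul_apply, ev0_mehler, Function.iterate_succ_apply']
    congr 1
    funext u
    exact ih u

private theorem ev0_F (F : A →L[ℂ] A) (v : A) (j : ℕ) : ∀ w,
    ev0 (((-(up ^ 2 * cst (cz F)) : Op n A) ^ j) (s0 (pc v)) w) =
      if w = 2 * j then ((-1 : ℂ) ^ j) • (F ^ j) v else 0 := by
  induction j with
  | zero =>
    intro w
    rw [pow_zero, Module.End.one_apply, s0_apply]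
    by_cases h : w = 0
    · rw [if_pos h, if_pos (by omega), ev0_pc]
      simp
    · rw [if_neg h, if_neg (by omega), map_zero]
  | succ j ih =>
    intro w
    rw [pow_succ', Module.End.mul_apply, LinearMap.neg_apply, Pi.neg_apply, map_neg,
      Module.End.mul_apply, up_pow]
    by_cases h2 : 2 ≤ w
    · rw [if_pos h2, cst_apply, ev0_cz, ih (w - 2)]
      by_cases h : w = 2 * (j + 1)
      · rw [if_pos h, if_pos (by omega), map_smul, pow_succ' F, pow_succ' (-1 : ℂ),
          ContinuousLinearMap.mul_apply]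
        simp
      · rw [if_neg h, if_neg (by omega), map_zero, neg_zero]
    · rw [if_neg h2, map_zero, neg_zero, if_neg (by omega)]

private theorem ev0_first (X : Fin n → A →L[ℂ] A) (Q : Sq n A) (w : ℕ) :
    ev0 (expS (-(up * cst (∑ l, mz l * cz (X l)))) Q w) = ev0 (Q w) := by
  rw [expS_apply, map_sum, sum_eq_single 0]
  · simp
  · intro i _ hi
    obtain ⟨k, rfl⟩ := Nat.exists_eq_succ_of_ne_zero hi
    have h : ev0 (((-(up * cst (∑ l, mz l * cz (X l))) : Op n A) ^ (k + 1)) Q w) = 0 := by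
      rw [pow_succ', Module.End.mul_apply, LinearMap.neg_apply, Pi.neg_apply, map_neg,
        Module.End.mul_apply]
      cases w with
      | zero => rw [up_zero, map_zero, neg_zero]
      | succ w =>
        rw [up_succ, cst_apply, LinearMap.sum_apply, map_sum, neg_eq_zero]
        refine sum_eq_zero fun l _ => ?_
        rw [Module.End.mul_apply, ev0_mz]
    rw [map_smul]
    have h' : ev0 (((-(up * cst (∑ l, mz l * cz (X l))) : Op n A) ^ k.succ) Q w) = 0 := h
    rw [h', smul_zero]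
  · intro h
    exact absurd (mem_range.2 (Nat.succ_pos w)) h

theorem model_val (X : Fin n → A →L[ℂ] A) (Ω : Matrix (Fin n) (Fin n) (A →L[ℂ] A))
    (F : A →L[ℂ] A) (hc : ∀ a b c d, Ω a b * Ω c d = Ω c d * Ω a b)
    (hF : ∀ a b, Ω a b * F = F * Ω a b) (v : A) :
    (model X Ω F v 14 : En n → A) 0 =
      -((1 / 5040 : ℂ) • (F ^ 7) v + (1 / 120 : ℂ) • (L1 Ω) ((F ^ 5) v) +
        (1 / 6 : ℂ) • (L2 Ω) ((F ^ 3) v) + (L3 Ω) (F v)) := by
  have hcomm : L1 Ω * ((1 / 5760 : ℂ) • (Ω ^ 4).trace) =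
      ((1 / 5760 : ℂ) • (Ω ^ 4).trace) * L1 Ω := by
    unfold L1 Matrix.trace
    simp only [smul_mul_smul_comm, sum_mul_sum, Matrix.diag_apply]
    rw [sum_comm]
    congr 1
    · ring
    · refine sum_congr rfl fun i _ => sum_congr rfl fun j _ => ?_
      exact Om_comm hc 2 4 _ _ _ _
  obtain ⟨p, hp⟩ : ∃ p : ℕ → A, p = fun w =>
      ev0 (expS (-(up ^ 2 * cst (cz F)) : Op n A) (s0 (pc v)) w) := ⟨_, rfl⟩
  have hpw : ∀ w, p w = ∑ j ∈ range (w + 1), ((j.factorial : ℂ)⁻¹) •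
      (if w = 2 * j then ((-1 : ℂ) ^ j) • (F ^ j) v else 0) := by
    intro w
    rw [hp]
    show ev0 (expS (-(up ^ 2 * cst (cz F)) : Op n A) (s0 (pc v)) w) = _
    rw [expS_apply, map_sum]
    refine sum_congr rfl fun j _ => ?_
    rw [map_smul, ev0_F]
  have hpe : ∀ m : ℕ, p (2 * m) = ((m.factorial : ℂ)⁻¹) • ((-1 : ℂ) ^ m) • (F ^ m) v := by
    intro m
    rw [hpw, sum_eq_single m]
    · rw [if_pos rfl]
    · intro j _ hj
      rw [if_neg (by omega), smul_zero]
    · intro h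
      exact absurd (mem_range.2 (by omega)) h
  have p2 : p 2 = -(F v) := by
    have := hpe 1
    simpa using this
  have p6 : p 6 = -((1 / 6 : ℂ) • (F ^ 3) v) := by
    have := hpe 3
    rw [show 2 * 3 = 6 from rfl] at this
    rw [this, smul_smul, ← neg_smul]
    congr 1
    norm_num [Nat.factorial]
  have p10 : p 10 = -((1 / 120 : ℂ) • (F ^ 5) v) := by
    have := hpe 5
    rw [show 2 * 5 = 10 from rfl] at this
    rw [this, smul_smul, ← neg_smul]
    congr 1
    norm_num [Nat.factorial]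
  have p14 : p 14 = -((1 / 5040 : ℂ) • (F ^ 7) v) := by
    have := hpe 7
    rw [show 2 * 7 = 14 from rfl] at this
    rw [this, smul_smul, ← neg_smul]
    congr 1
    norm_num [Nat.factorial]
  obtain ⟨a, ha⟩ : ∃ a, a = L1 Ω := ⟨_, rfl⟩
  obtain ⟨b, hb⟩ : ∃ b, b = (1 / 5760 : ℂ) • (Ω ^ 4).trace := ⟨_, rfl⟩
  obtain ⟨c, hcd⟩ : ∃ c, c = (-1 / 362880 : ℂ) • (Ω ^ 6).trace := ⟨_, rfl⟩
  have hmain : (model X Ω F v 14 : En n → A) 0 =
      ∑ i ∈ range 15, ((i.factorial : ℂ)⁻¹) • (TT a b c)^[i] p 14 := by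
    show ev0 (model X Ω F v 14) = _
    unfold model
    rw [ev0_first, expS_apply, map_sum]
    refine sum_congr rfl fun i _ => ?_
    rw [map_smul, ev0_mehler_pow, ha, hb, hcd, hp]
  have h4 : ∑ i ∈ range 15, ((i.factorial : ℂ)⁻¹) • (TT a b c)^[i] p 14 =
      ∑ i ∈ range 4, ((i.factorial : ℂ)⁻¹) • (TT a b c)^[i] p 14 := by
    refine (sum_subset (fun i hi => ?_) fun i _ hi => ?_).symm
    · rw [mem_range] at hi ⊢
      omega
    · rw [mem_range, not_lt] at hi
      rw [TT_ge a b c p i 14 (by omega), smul_zero]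
  have t1 : ∀ q : ℕ → A, TT a b c q 14 = a (q 10) + b (q 6) + c (q 2) := fun q => by simp [TT]
  have t2 : ∀ q : ℕ → A, TT a b c q 10 = a (q 6) + b (q 2) := fun q => by simp [TT]
  have t3 : ∀ q : ℕ → A, TT a b c q 6 = a (q 2) := fun q => by simp [TT]
  have t4 : ∀ q : ℕ → A, TT a b c q 2 = 0 := fun q => by simp [TT]
  have hba : ∀ x, b (a x) = a (b x) := by
    intro x
    have := congrArg (fun L : A →L[ℂ] A => L x) hcomm
    rw [← ha, ← hb] at this
    exact this.symm
  have hL2 : L2 Ω = (1 / 2 : ℂ) • (a * a) + b := by rw [ha, hb]; rfl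
  have hL3 : L3 Ω = (1 / 6 : ℂ) • (a * a * a) + a * b + c := by
    rw [ha, hb, hcd, mul_smul_comm]; rfl
  rw [hmain, h4]
  simp only [sum_range_succ, sum_range_zero, Function.iterate_succ_apply', Function.iterate_zero,
    id, t1, t2, t3, t4, p2, p6, p10, p14, hL2, hL3, ← ha, map_zero, map_neg, map_smul, map_add,
    ContinuousLinearMap.add_apply, ContinuousLinearMap.smul_apply, ContinuousLinearMap.mul_apply,
    hba]
  norm_num [Nat.factorial]
  module

end Pool.Agent.EXO.L
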