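import Pool.Agent.EXO.LgDef

/-!
# EXO / LgA : Clifford relations on `HF M ι` (IDX-L)

All statements follow from the lemmas of `FmLam` (`epsv_epsv`, `iotav_iotav`, `iotav_epsv`, `eps_eps`,
`dg_epsv`, `dg_iotav`, `dg_dg`, `sum_dg`) and `FmTens` (`cf T` is `ten` of the corresponding operator; it
acts on the second index only: prove `cf_epsv`, `cf_iotav`, `cf_Lam`, `cf_dg` either by comparing
coefficients or through `ten`).
`pr` is the parity: `pr u (S, k) = (-1)^|S| u (S, k)` (`dg_apply`), hence `pr * pr = 1`,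
`pr (ε_v u) = - ε_v (pr u)`; `Lam` preserves degrees (`Lam_unique` applied to `pr * Lam A * pr`, or
the induction principle `hf_ext`).
-/

set_option autoImplicit false
set_option maxSynthPendingDepth 3

open scoped ContDiff
open Finset Matrix

noncomputable section

namespace Pool.Agent.EXO.L

variable {M : ℕ} {ι : Type} [Fintype ι] [DecidableEq ι]

theorem cv_add (v w : En M) : (cv (v + w) : EH M ι) = cv v + cv w := by
  unfold cv
  rw [epsv_add, iotav_add]
  abel

theorem cv_neg (v : En M) : (cv (-v) : EH M ι) = -cv v := by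
  have h1 : (epsv (-v) : EH M ι) = -epsv v := by
    have h := epsv_smul (κ := ι) (-1 : ℝ) v
    rw [neg_one_smul] at h
    rw [h]
    push_cast
    rw [neg_one_smul]
  have h2 : (iotav (-v) : EH M ι) = -iotav v := by
    have h := iotav_smul (κ := ι) (-1 : ℝ) v
    rw [neg_one_smul] at h
    rw [h]
    push_cast
    rw [neg_one_smul]
  unfold cv
  rw [h1, h2]
  abel

theorem cv_sub (v w : En M) : (cv (v - w) : EH M ι) = cv v - cv w := by
  rw [sub_eq_add_neg, cv_add, cv_neg, sub_eq_add_neg]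

theorem cv_zero : (cv (0 : En M) : EH M ι) = 0 := by
  unfold cv
  rw [epsv_zero, iotav_zero, sub_zero]

theorem cv_smul (r : ℝ) (v : En M) : (cv (r • v) : EH M ι) = (r : ℂ) • cv v := by
  unfold cv
  rw [epsv_smul, iotav_smul, smul_sub]

theorem cv_sum {α : Type*} (s : Finset α) (f : α → En M) :
    (cv (∑ i ∈ s, f i) : EH M ι) = ∑ i ∈ s, cv (f i) := by
  unfold cv
  rw [epsv_sum, iotav_sum, Finset.sum_sub_distrib]

theorem hv_add (v w : En M) : (hv (v + w) : EH M ι) = hv v + hv w := by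
  unfold hv
  rw [epsv_add, iotav_add]
  abel

theorem hv_zero : (hv (0 : En M) : EH M ι) = 0 := by
  unfold hv
  rw [epsv_zero, iotav_zero, add_zero]

theorem hv_smul (r : ℝ) (v : En M) : (hv (r • v) : EH M ι) = (r : ℂ) • hv v := by
  unfold hv
  rw [epsv_smul, iotav_smul, smul_add]

theorem hv_sum {α : Type*} (s : Finset α) (f : α → En M) :
    (hv (∑ i ∈ s, f i) : EH M ι) = ∑ i ∈ s, hv (f i) := by
  unfold hv
  rw [epsv_sum, iotav_sum, Finset.sum_add_distrib]

theorem cv_bv (a : Fin M) : (cv (bv a) : EH M ι) = cl a := by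
  unfold cv cl
  rw [show (bv a : En M) = ee a from rfl, epsv_ee, iotav_ee]

theorem hv_bv (a : Fin M) : (hv (bv a) : EH M ι) = eps a + iota a := by
  unfold hv
  rw [show (bv a : En M) = ee a from rfl, epsv_ee, iotav_ee]

theorem cv_eq_sum (v : En M) : (cv v : EH M ι) = ∑ a, ((v a : ℝ) : ℂ) • cl a := by
  unfold cv cl epsv iotav
  simp only [smul_sub, Finset.sum_sub_distrib]

private theorem LgA_ee (v w : En M) :
    (epsv v * epsv w + epsv w * epsv v : EH M ι) = 0 := by
  refine ContinuousLinearMap.ext fun u => ?_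
  show epsv v (epsv w u) + epsv w (epsv v u) = 0
  rw [epsv_epsv v w u]
  exact neg_add_cancel _

private theorem LgA_ii (v w : En M) :
    (iotav v * iotav w + iotav w * iotav v : EH M ι) = 0 := by
  refine ContinuousLinearMap.ext fun u => ?_
  show iotav v (iotav w u) + iotav w (iotav v u) = 0
  rw [iotav_iotav v w u]
  exact neg_add_cancel _

private theorem LgA_ie (v w : En M) :
    (iotav v * epsv w + epsv w * iotav v : EH M ι) = ((inner ℝ v w : ℝ) : ℂ) • 1 := by
  refine ContinuousLinearMap.ext fun u => ?_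
  show iotav v (epsv w u) + epsv w (iotav v u) = ((inner ℝ v w : ℝ) : ℂ) • u
  rw [iotav_epsv v w u]
  exact sub_add_cancel _ _

theorem cv_cv (v w : En M) : (cv v * cv w + cv w * cv v : EH M ι) =
    ((-2 * inner ℝ v w : ℝ) : ℂ) • 1 := by
  have h1 := LgA_ee (ι := ι) v w
  have h2 := LgA_ii (ι := ι) v w
  have h3 := LgA_ie (ι := ι) v w
  have h4 := LgA_ie (ι := ι) w v
  rw [real_inner_comm] at h4
  have h5 : (((-2 * inner ℝ v w : ℝ) : ℂ)) = -((inner ℝ v w : ℝ) : ℂ) - ((inner ℝ v w : ℝ) : ℂ) := by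
    push_cast
    ring
  rw [h5, sub_smul, neg_smul, ← h3]
  unfold cv
  have h6 : (epsv v - iotav v) * (epsv w - iotav w) + (epsv w - iotav w) * (epsv v - iotav v) =
      (epsv v * epsv w + epsv w * epsv v) + (iotav v * iotav w + iotav w * iotav v) -
      (iotav v * epsv w + epsv w * iotav v) - (iotav w * epsv v + epsv v * iotav w : EH M ι) := by
    noncomm_ring
  rw [h6, h1, h2, h3, h4]
  abel

theorem hv_hv (v w : En M) : (hv v * hv w + hv w * hv v : EH M ι) =
    ((2 * inner ℝ v w : ℝ) : ℂ) • 1 := by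
  have h1 := LgA_ee (ι := ι) v w
  have h2 := LgA_ii (ι := ι) v w
  have h3 := LgA_ie (ι := ι) v w
  have h4 := LgA_ie (ι := ι) w v
  rw [real_inner_comm] at h4
  have h5 : (((2 * inner ℝ v w : ℝ) : ℂ)) = ((inner ℝ v w : ℝ) : ℂ) + ((inner ℝ v w : ℝ) : ℂ) := by
    push_cast
    ring
  rw [h5, add_smul]
  unfold hv
  have h6 : (epsv v + iotav v) * (epsv w + iotav w) + (epsv w + iotav w) * (epsv v + iotav v) =
      (epsv v * epsv w + epsv w * epsv v) + (iotav v * iotav w + iotav w * iotav v) +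
      (iotav v * epsv w + epsv w * iotav v) + (iotav w * epsv v + epsv v * iotav w : EH M ι) := by
    noncomm_ring
  rw [h6, h1, h2, h3, h4]
  abel

theorem cv_hv (v w : En M) : (cv v * hv w : EH M ι) = -(hv w * cv v) := by
  have h1 := LgA_ee (ι := ι) v w
  have h2 := LgA_ii (ι := ι) v w
  have h3 := LgA_ie (ι := ι) v w
  have h4 := LgA_ie (ι := ι) w v
  rw [real_inner_comm] at h4
  rw [eq_neg_iff_add_eq_zero]
  unfold cv hv
  have h6 : (epsv v - iotav v) * (epsv w + iotav w) + (epsv w + iotav w) * (epsv v - iotav v) =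
      (epsv v * epsv w + epsv w * epsv v) - (iotav v * iotav w + iotav w * iotav v) -
      (iotav v * epsv w + epsv w * iotav v) + (iotav w * epsv v + epsv v * iotav w : EH M ι) := by
    noncomm_ring
  rw [h6, h1, h2, h3, h4]
  abel

private theorem LgA_pr (u : HF M ι) (S : Finset (Fin M)) (k : ι) :
    pr M ι u (S, k) = (-1 : ℂ) ^ S.card * u (S, k) := by
  have h1 : S.card ≤ M := (card_le_univ S).trans (by simp)
  have h2 : pr M ι u (S, k) = ∑ j ∈ range (M + 1), (-1 : ℂ) ^ j * (dg j u) (S, k) := by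
    unfold pr
    simp
  rw [h2, Finset.sum_eq_single S.card]
  · rw [dg_apply, if_pos rfl]
  · intro j _ hj
    rw [dg_apply, if_neg (Ne.symm hj), mul_zero]
  · intro h
    exact absurd (Finset.mem_range.2 (Nat.lt_succ_of_le h1)) h

theorem pr_pr : (pr M ι * pr M ι : EH M ι) = 1 := by
  refine ContinuousLinearMap.ext fun u => ?_
  show pr M ι (pr M ι u) = u
  ext ⟨S, k⟩
  rw [LgA_pr, LgA_pr, ← mul_assoc, ← pow_add, ← two_mul, pow_mul]
  norm_num

private theorem LgA_pr_eps (a : Fin M) (u : HF M ι) :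
    pr M ι (eps a u) = -(eps a (pr M ι u)) := by
  ext ⟨S, k⟩
  rw [LgA_pr, eps_apply]
  have h : (-(eps a (pr M ι u)) : HF M ι) (S, k) = -((eps a (pr M ι u)) (S, k)) := rfl
  rw [h, eps_apply]
  by_cases ha : a ∈ S
  · have h1 : S.card = (S.erase a).card + 1 := (card_erase_add_one ha).symm
    rw [if_pos ha, if_pos ha, LgA_pr, h1, pow_succ]
    ring
  · rw [if_neg ha, if_neg ha]
    simp

private theorem LgA_pr_iota (a : Fin M) (u : HF M ι) :
    pr M ι (iota a u) = -(iota a (pr M ι u)) := by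
  ext ⟨S, k⟩
  rw [LgA_pr, iota_apply]
  have h : (-(iota a (pr M ι u)) : HF M ι) (S, k) = -((iota a (pr M ι u)) (S, k)) := rfl
  rw [h, iota_apply]
  by_cases ha : a ∈ S
  · rw [if_pos ha, if_pos ha]
    simp
  · have h1 : (insert a S).card = S.card + 1 := card_insert_of_notMem ha
    rw [if_neg ha, if_neg ha, LgA_pr, h1, pow_succ]
    ring

theorem pr_epsv (v : En M) : (pr M ι * epsv v : EH M ι) = -(epsv v * pr M ι) := by
  refine ContinuousLinearMap.ext fun u => ?_
  show pr M ι (epsv v u) = -(epsv v (pr M ι u))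
  rw [epsv_apply, epsv_apply, map_sum, ← Finset.sum_neg_distrib]
  exact sum_congr rfl fun a _ => by rw [map_smul, LgA_pr_eps, smul_neg]

theorem pr_iotav (v : En M) : (pr M ι * iotav v : EH M ι) = -(iotav v * pr M ι) := by
  refine ContinuousLinearMap.ext fun u => ?_
  show pr M ι (iotav v u) = -(iotav v (pr M ι u))
  rw [iotav_apply, iotav_apply, map_sum, ← Finset.sum_neg_distrib]
  exact sum_congr rfl fun a _ => by rw [map_smul, LgA_pr_iota, smul_neg]

theorem pr_cv (v : En M) : (pr M ι * cv v : EH M ι) = -(cv v * pr M ι) := by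
  unfold cv
  rw [mul_sub, pr_epsv, pr_iotav, sub_mul]
  abel

theorem pr_hv (v : En M) : (pr M ι * hv v : EH M ι) = -(hv v * pr M ι) := by
  unfold hv
  rw [mul_add, pr_epsv, pr_iotav, add_mul]
  abel

/-- the operator of the matrix `T` -/
private def LgA_k (T : Matrix ι ι ℂ) : KE ι →L[ℂ] KE ι :=
  LinearMap.toContinuousLinearMap
    { toFun := fun x => WithLp.toLp 2 fun i => ∑ l, T i l * x l
      map_add' := by
        intro u v
        ext p
        simp [mul_add, Finset.sum_add_distrib]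
      map_smul' := by
        intro c u
        ext p
        simp only [PiLp.smul_apply, smul_eq_mul, RingHom.id_apply, Finset.mul_sum]
        refine Finset.sum_congr rfl fun l _ => ?_
        ring }

private theorem LgA_cf (T : Matrix ι ι ℂ) : (cf T : EH M ι) = ten (LgA_k T) := rfl

private theorem LgA_cf_apply (T : Matrix ι ι ℂ) (u : HF M ι) (S : Finset (Fin M)) (k : ι) :
    cf T u (S, k) = ∑ l, T k l * u (S, l) := rfl

theorem pr_cf (T : Matrix ι ι ℂ) : (pr M ι * cf T : EH M ι) = cf T * pr M ι := by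
  refine ContinuousLinearMap.ext fun u => ?_
  show pr M ι (cf T u) = cf T (pr M ι u)
  unfold pr
  rw [LgA_cf]
  simp only [ContinuousLinearMap.sum_apply, ContinuousLinearMap.smul_apply, map_sum, map_smul,
    ten_dg]

theorem pr_Lam (A : En M →L[ℝ] En M) : (pr M ι * Lam A : EH M ι) = Lam A * pr M ι := by
  refine ContinuousLinearMap.ext fun u => ?_
  show pr M ι (Lam A u) = Lam A (pr M ι u)
  unfold pr
  simp only [ContinuousLinearMap.sum_apply, ContinuousLinearMap.smul_apply, map_sum, map_smul,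
    Lam_dg]

theorem cf_mul (S T : Matrix ι ι ℂ) : (cf (S * T) : EH M ι) = cf S * cf T := by
  refine ContinuousLinearMap.ext fun u => ?_
  show cf (S * T) u = cf S (cf T u)
  ext ⟨K, k⟩
  rw [LgA_cf_apply, LgA_cf_apply]
  simp only [LgA_cf_apply, Matrix.mul_apply, Finset.sum_mul, Finset.mul_sum]
  rw [Finset.sum_comm]
  refine sum_congr rfl fun a _ => sum_congr rfl fun b _ => ?_
  ring

theorem cf_one : (cf (1 : Matrix ι ι ℂ) : EH M ι) = 1 := by
  refine ContinuousLinearMap.ext fun u => ?_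
  show cf 1 u = u
  ext ⟨K, k⟩
  rw [LgA_cf_apply, Finset.sum_eq_single k]
  · rw [Matrix.one_apply_eq, one_mul]
  · intro b _ hb
    rw [Matrix.one_apply_ne (Ne.symm hb), zero_mul]
  · intro h
    exact absurd (Finset.mem_univ k) h

/-- `cf` as a linear map -/
private def LgA_L : Matrix ι ι ℂ →ₗ[ℂ] EH M ι where
  toFun := fun T => cf T
  map_add' := by
    intro S T
    refine ContinuousLinearMap.ext fun u => ?_
    ext ⟨K, k⟩
    show cf (S + T) u (K, k) = cf S u (K, k) + cf T u (K, k)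
    simp only [LgA_cf_apply, Matrix.add_apply, add_mul, Finset.sum_add_distrib]
  map_smul' := by
    intro c T
    refine ContinuousLinearMap.ext fun u => ?_
    ext ⟨K, k⟩
    show cf (c • T) u (K, k) = c * cf T u (K, k)
    simp only [LgA_cf_apply, Matrix.smul_apply, smul_eq_mul, Finset.mul_sum, mul_assoc]

private theorem LgA_L_apply (T : Matrix ι ι ℂ) : (LgA_L T : EH M ι) = cf T := rfl

theorem cf_zero : (cf (0 : Matrix ι ι ℂ) : EH M ι) = 0 := by
  rw [← LgA_L_apply, map_zero]

theorem cf_add (S T : Matrix ι ι ℂ) : (cf (S + T) : EH M ι) = cf S + cf T := by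
  rw [← LgA_L_apply, map_add]
  rfl

theorem cf_sub (S T : Matrix ι ι ℂ) : (cf (S - T) : EH M ι) = cf S - cf T := by
  rw [← LgA_L_apply, map_sub]
  rfl

theorem cf_neg (S : Matrix ι ι ℂ) : (cf (-S) : EH M ι) = -cf S := by
  rw [← LgA_L_apply, map_neg]
  rfl

theorem cf_smul (c : ℂ) (S : Matrix ι ι ℂ) : (cf (c • S) : EH M ι) = c • cf S := by
  rw [← LgA_L_apply, map_smul]
  rfl

theorem cf_sum {α : Type*} (s : Finset α) (f : α → Matrix ι ι ℂ) :
    (cf (∑ i ∈ s, f i) : EH M ι) = ∑ i ∈ s, cf (f i) := by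
  rw [← LgA_L_apply, map_sum]
  rfl

theorem cf_epsv (T : Matrix ι ι ℂ) (v : En M) : (cf T * epsv v : EH M ι) = epsv v * cf T := by
  refine ContinuousLinearMap.ext fun u => ?_
  rw [LgA_cf]
  exact ten_epsv _ v u

theorem cf_iotav (T : Matrix ι ι ℂ) (v : En M) : (cf T * iotav v : EH M ι) = iotav v * cf T := by
  refine ContinuousLinearMap.ext fun u => ?_
  rw [LgA_cf]
  exact ten_iotav _ v u

theorem cf_cv (T : Matrix ι ι ℂ) (v : En M) : (cf T * cv v : EH M ι) = cv v * cf T := by
  unfold cv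
  rw [mul_sub, sub_mul, cf_epsv, cf_iotav]

theorem cf_hv (T : Matrix ι ι ℂ) (v : En M) : (cf T * hv v : EH M ι) = hv v * cf T := by
  unfold hv
  rw [mul_add, add_mul, cf_epsv, cf_iotav]

theorem cf_Lam (T : Matrix ι ι ℂ) (A : En M →L[ℝ] En M) :
    (cf T * Lam A : EH M ι) = Lam A * cf T := by
  refine ContinuousLinearMap.ext fun u => ?_
  rw [LgA_cf]
  exact (Lam_ten A _ u).symm

/-- `cf` as a continuous linear map -/
theorem cf_clm : ∃ L : Matrix ι ι ℂ →L[ℝ] EH M ι, ∀ T, L T = cf T :=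
  ⟨LinearMap.toContinuousLinearMap ((LgA_L (M := M) (ι := ι)).restrictScalars ℝ), fun _ => rfl⟩

end Pool.Agent.EXO.L
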