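import Pool.Agent.EXO.LgA

/-!
# EXO / LgB : the derivations `dΛ(B)` (IDX-L)

* `dLam_epsv`: `dΛ(B) ε_v u = ∑_l ε(B e_l) ι_l ε_v u`, `ι_l ε_v = v_l - ε_v ι_l`, and
  `∑_l v_l ε(B e_l) = ε(B v)`, `ε(Be_l) ε_v = - ε_v ε(Be_l)`.
* `dLam_iotav`: `ι_v ε(B e_l) = ⟨v, B e_l⟩ - ε(Be_l) ι_v`, `∑_l ⟨v, Be_l⟩ ι_l = ι(Bᵀ v)`.
* `dLam_cv`, `dLam_hv` for skew `B` (`Bᵀ = -B`).
* `dLam_comm`: both sides `T` satisfy `T bas ∅ = 0`, `T ε_v - ε_v T = ε([B,B'] v)`; uniqueness by
  `hf_ext` (induction).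
* `dLam_quad`: `ε = (hv + cv)/2`, `ι = (hv - cv)/2`, `∑ B_kl (cv_k hv_l - hv_k cv_l) = 0` for
  antisymmetric `B_kl` because `cv_k hv_l = - hv_l cv_k`.
* projections `p` (symmetric, idempotent): `Lam p ε_v = ε(p v) Lam p` (`Lam_epsv`), and
  `ι_v Lam p = Lam p ι(p v)` (`iotav_Lam`, `adjoint p = p`); so for `p v = v` everything commutes, for
  `p v = 0`: `Lam p ε_v = 0` and `ι_v Lam p = 0`.
* `dLam_nor`: `B p = 0`: `dΛ(B) Lam p = ∑_l ε(B e_l) ι_l Lam p = ∑_l ε(Be_l) Lam p ι(p e_l)`, and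
  `Lam p`... better: both `T = dΛ(B) Lam p` satisfy `T vac = 0`,
  `T ε_v = dΛ(B) ε(pv) Lam p = ε(B p v) Lam p + ε(pv) dΛ(B) Lam p = ε(pv) T`, so `T = 0` by `hf_ext`.
* `Lam_dLam_Lam`: `p B p = 0`: `T = Lam p dΛ(B) Lam p`: `T ε_v = Lam p (ε(Bpv) Lam p + ε(pv) dΛ(B) Lam p)
  = ε(pBpv) Lam p + ε(pv) T`, so `T = 0`.
* `dLam_Lam_comm`: `B = p B p`: `T = dΛ(B) Lam p - Lam p dΛ(B)`: `T ε_v = ε(Bpv) Lam p + ε(pv) dΛ(B) Lam p
  - ε(pBv) Lam p - ε(pv) Lam p dΛ(B) = ε(pv) T`.
-/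

set_option autoImplicit false
set_option maxSynthPendingDepth 3

open scoped ContDiff
open Finset Matrix

noncomputable section

namespace Pool.Agent.EXO.L

variable {M : ℕ} {ι : Type} [Fintype ι] [DecidableEq ι]

private theorem LgB_epsv_neg (v : En M) : (epsv (-v) : EH M ι) = -epsv v := by
  have h := epsv_smul (κ := ι) (-1 : ℝ) v
  rw [neg_one_smul] at h
  rw [h]
  push_cast
  rw [neg_one_smul]

private theorem LgB_iotav_neg (v : En M) : (iotav (-v) : EH M ι) = -iotav v := by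
  have h := iotav_smul (κ := ι) (-1 : ℝ) v
  rw [neg_one_smul] at h
  rw [h]
  push_cast
  rw [neg_one_smul]

/-- `dLam` as a linear map -/
private def LgB_L : (En M →L[ℝ] En M) →ₗ[ℝ] EH M ι where
  toFun := fun B => dLam B
  map_add' := by
    intro B C
    unfold dLam
    rw [← Finset.sum_add_distrib]
    refine sum_congr rfl fun l _ => ?_
    rw [ContinuousLinearMap.add_apply, epsv_add, add_mul]
  map_smul' := by
    intro r B
    unfold dLam
    rw [Finset.smul_sum]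
    refine sum_congr rfl fun l _ => ?_
    rw [ContinuousLinearMap.smul_apply, epsv_smul, smul_mul_assoc]
    rfl

private theorem LgB_L_apply (B : En M →L[ℝ] En M) : (LgB_L B : EH M ι) = dLam B := rfl

theorem dLam_add (B C : En M →L[ℝ] En M) : (dLam (B + C) : EH M ι) = dLam B + dLam C := by
  rw [← LgB_L_apply, map_add]
  rfl

theorem dLam_sub (B C : En M →L[ℝ] En M) : (dLam (B - C) : EH M ι) = dLam B - dLam C := by
  rw [← LgB_L_apply, map_sub]
  rfl

theorem dLam_neg (B : En M →L[ℝ] En M) : (dLam (-B) : EH M ι) = -dLam B := by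
  rw [← LgB_L_apply, map_neg]
  rfl

theorem dLam_zero : (dLam (0 : En M →L[ℝ] En M) : EH M ι) = 0 := by
  rw [← LgB_L_apply, map_zero]

theorem dLam_smul (r : ℝ) (B : En M →L[ℝ] En M) : (dLam (r • B) : EH M ι) = (r : ℂ) • dLam B := by
  rw [← LgB_L_apply, map_smul]
  rfl

theorem dLam_sum {α : Type*} (s : Finset α) (f : α → (En M →L[ℝ] En M)) :
    (dLam (∑ i ∈ s, f i) : EH M ι) = ∑ i ∈ s, dLam (f i) := by
  rw [← LgB_L_apply, map_sum]
  rfl

/-- `dLam` as a continuous linear map -/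
theorem dLam_clm : ∃ L : (En M →L[ℝ] En M) →L[ℝ] EH M ι, ∀ B, L B = dLam B :=
  ⟨LinearMap.toContinuousLinearMap (LgB_L (M := M) (ι := ι)), fun _ => rfl⟩

private theorem LgB_inner_bv (l : Fin M) (v : En M) : inner ℝ (bv l : En M) v = v l := by
  unfold bv
  rw [EuclideanSpace.inner_single_left]
  simp

private theorem LgB_ie (l : Fin M) (v : En M) :
    (iota l * epsv v : EH M ι) = ((v l : ℝ) : ℂ) • 1 - epsv v * iota l := by
  refine ContinuousLinearMap.ext fun u => ?_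
  have h := iotav_epsv (ee l) v u
  rw [iotav_ee] at h
  have h2 : inner ℝ (ee l : En M) v = v l := LgB_inner_bv l v
  rw [h2] at h
  exact h

private theorem LgB_ee (v w : En M) : (epsv v * epsv w : EH M ι) = -(epsv w * epsv v) := by
  refine ContinuousLinearMap.ext fun u => ?_
  exact epsv_epsv v w u

private theorem LgB_ii (l : Fin M) (w : En M) : (iota l * iotav w : EH M ι) = -(iotav w * iota l) := by
  refine ContinuousLinearMap.ext fun u => ?_
  have h := iotav_iotav (ee l) w u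
  rw [iotav_ee] at h
  exact h

private theorem LgB_exp (v : En M) : v = ∑ l, v l • (bv l : En M) := by
  ext b
  simp [bv, Pi.single_apply]

private theorem LgB_expB (B : En M →L[ℝ] En M) (v : En M) :
    (∑ l, ((v l : ℝ) : ℂ) • epsv (B (bv l)) : EH M ι) = epsv (B v) := by
  conv_rhs => rw [LgB_exp v, map_sum, epsv_sum]
  refine sum_congr rfl fun l _ => ?_
  rw [map_smul, epsv_smul]

theorem dLam_epsv (B : En M →L[ℝ] En M) (v : En M) :
    (dLam B * epsv v : EH M ι) = epsv v * dLam B + epsv (B v) := by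
  unfold dLam
  rw [Finset.sum_mul, Finset.mul_sum, ← LgB_expB B v, ← Finset.sum_add_distrib]
  refine sum_congr rfl fun l _ => ?_
  rw [mul_assoc, LgB_ie, mul_sub, mul_smul_comm, mul_one, ← mul_assoc, ← mul_assoc,
    LgB_ee (B (bv l)) v, neg_mul, sub_neg_eq_add, add_comm]

theorem dLam_iotav (B : En M →L[ℝ] En M) (v : En M) :
    (dLam B * iotav v : EH M ι) = iotav v * dLam B - iotav (ContinuousLinearMap.adjoint B v) := by
  have h1 : (iotav (ContinuousLinearMap.adjoint B v) : EH M ι) =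
      ∑ l, ((inner ℝ v (B (bv l)) : ℝ) : ℂ) • iota l := by
    unfold iotav
    refine sum_congr rfl fun l _ => ?_
    rw [← LgB_inner_bv l, ContinuousLinearMap.adjoint_inner_right, real_inner_comm]
  rw [h1]
  unfold dLam
  rw [Finset.sum_mul, Finset.mul_sum, ← Finset.sum_sub_distrib]
  refine sum_congr rfl fun l _ => ?_
  have h2 : (iotav v * epsv (B (bv l)) : EH M ι) =
      ((inner ℝ v (B (bv l)) : ℝ) : ℂ) • 1 - epsv (B (bv l)) * iotav v := by
    refine ContinuousLinearMap.ext fun u => ?_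
    exact iotav_epsv v (B (bv l)) u
  rw [mul_assoc, LgB_ii, ← mul_assoc (iotav v), h2, sub_mul, smul_mul_assoc, one_mul, mul_assoc,
    mul_neg]
  abel

private theorem LgB_adj {B : En M →L[ℝ] En M} (hB : ∀ v w, inner ℝ (B v) w = -inner ℝ v (B w))
    (v : En M) : ContinuousLinearMap.adjoint B v = -(B v) := by
  refine ext_inner_right ℝ fun w => ?_
  rw [ContinuousLinearMap.adjoint_inner_left, inner_neg_left, hB, neg_neg]

theorem dLam_cv {B : En M →L[ℝ] En M} (hB : ∀ v w, inner ℝ (B v) w = -inner ℝ v (B w))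
    (v : En M) : (dLam B * cv v : EH M ι) = cv v * dLam B + cv (B v) := by
  unfold cv
  rw [mul_sub, dLam_epsv, dLam_iotav, LgB_adj hB, LgB_iotav_neg, sub_mul]
  abel

theorem dLam_hv {B : En M →L[ℝ] En M} (hB : ∀ v w, inner ℝ (B v) w = -inner ℝ v (B w))
    (v : En M) : (dLam B * hv v : EH M ι) = hv v * dLam B + hv (B v) := by
  unfold hv
  rw [mul_add, dLam_epsv, dLam_iotav, LgB_adj hB, LgB_iotav_neg, add_mul]
  abel

private theorem LgB_iota (l : Fin M) : (iota l : EH M ι) = iotav (bv l) := (iotav_ee l).symm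

private theorem LgB_eps (l : Fin M) : (eps l : EH M ι) = epsv (bv l) := (epsv_ee l).symm

theorem dLam_cf (B : En M →L[ℝ] En M) (T : Matrix ι ι ℂ) :
    (dLam B * cf T : EH M ι) = cf T * dLam B := by
  unfold dLam
  rw [Finset.sum_mul, Finset.mul_sum]
  refine sum_congr rfl fun l _ => ?_
  rw [LgB_iota, mul_assoc, ← cf_iotav, ← mul_assoc, ← cf_epsv, mul_assoc]

theorem pr_dLam (B : En M →L[ℝ] En M) : (pr M ι * dLam B : EH M ι) = dLam B * pr M ι := by
  unfold dLam
  rw [Finset.sum_mul, Finset.mul_sum]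
  refine sum_congr rfl fun l _ => ?_
  rw [LgB_iota, ← mul_assoc, pr_epsv, neg_mul, mul_assoc, pr_iotav, mul_neg, neg_neg, mul_assoc]

private theorem LgB_zero {T : EH M ι} (h0 : ∀ i, T (bas ∅ i) = 0)
    (h1 : ∀ a, ∀ u, T u = 0 → T (epsv (bv a) u) = 0) : T = 0 := by
  have h : (T : HF M ι →ₗ[ℂ] HF M ι) = 0 := by
    refine hf_ext (fun i => ?_) (fun a u hu => ?_)
    · exact h0 i
    · have h2 := h1 a u hu
      rw [← LgB_eps] at h2
      exact h2
  refine ContinuousLinearMap.ext fun u => ?_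
  exact congrArg (fun S : HF M ι →ₗ[ℂ] HF M ι => S u) h

private theorem LgB_vac (B : En M →L[ℝ] En M) (i : ι) : dLam B (bas ∅ i : HF M ι) = 0 := by
  unfold dLam
  rw [ContinuousLinearMap.sum_apply]
  refine sum_eq_zero fun l _ => ?_
  show epsv (B (bv l)) (iota l (bas ∅ i : HF M ι)) = 0
  rw [iota_vac, map_zero]

private theorem LgB_ap (B : En M →L[ℝ] En M) (v : En M) (u : HF M ι) :
    dLam B (epsv v u) = epsv v (dLam B u) + epsv (B v) u :=
  congrArg (fun S : EH M ι => S u) (dLam_epsv B v)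

theorem dLam_comm (B C : En M →L[ℝ] En M) :
    (dLam B * dLam C - dLam C * dLam B : EH M ι) = dLam (B * C - C * B) := by
  rw [← sub_eq_zero]
  refine LgB_zero (fun i => ?_) (fun a u hu => ?_)
  · show dLam B (dLam C (bas ∅ i)) - dLam C (dLam B (bas ∅ i)) - dLam (B * C - C * B) (bas ∅ i) = 0
    rw [LgB_vac, LgB_vac, LgB_vac, map_zero, map_zero, sub_zero, sub_zero]
  · have hu' : dLam B (dLam C u) - dLam C (dLam B u) - dLam (B * C - C * B) u = 0 := hu
    show dLam B (dLam C (epsv (bv a) u)) - dLam C (dLam B (epsv (bv a) u)) -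
      dLam (B * C - C * B) (epsv (bv a) u) = 0
    rw [LgB_ap C, LgB_ap B, LgB_ap (B * C - C * B), map_add, map_add, LgB_ap B, LgB_ap B,
      LgB_ap C, LgB_ap C]
    have h1 : ((B * C - C * B) (bv a) : En M) = B (C (bv a)) - C (B (bv a)) := rfl
    have h2 : (epsv (B (C (bv a)) - C (B (bv a))) : EH M ι) =
        epsv (B (C (bv a))) - epsv (C (B (bv a))) := by
      rw [sub_eq_add_neg, epsv_add, LgB_epsv_neg, sub_eq_add_neg]
    have h3 := congrArg (fun z => epsv (bv a) z) hu'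
    simp only [map_sub, map_zero] at h3
    rw [h1, h2, ContinuousLinearMap.sub_apply]
    rw [← h3]
    abel

private theorem LgB_skew {B : En M →L[ℝ] En M} (hB : ∀ v w, inner ℝ (B v) w = -inner ℝ v (B w))
    (k l : Fin M) : inner ℝ (bv k) (B (bv l)) = -inner ℝ (bv l) (B (bv k)) := by
  rw [real_inner_comm, hB]

theorem dLam_quad {B : En M →L[ℝ] En M} (hB : ∀ v w, inner ℝ (B v) w = -inner ℝ v (B w)) :
    (dLam B : EH M ι) = (1 / 4 : ℂ) • ∑ k, ∑ l, ((inner ℝ (bv k) (B (bv l)) : ℝ) : ℂ) •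
      (hv (bv k) * hv (bv l) - cv (bv k) * cv (bv l)) := by
  have h1 : (dLam B : EH M ι) = ∑ k, ∑ l, ((inner ℝ (bv k) (B (bv l)) : ℝ) : ℂ) •
      (epsv (bv k) * iotav (bv l)) := by
    unfold dLam
    rw [Finset.sum_comm]
    refine sum_congr rfl fun l _ => ?_
    conv_lhs => rw [LgB_exp (B (bv l)), epsv_sum, Finset.sum_mul]
    refine sum_congr rfl fun k _ => ?_
    rw [epsv_smul, smul_mul_assoc, LgB_iota, LgB_inner_bv]
  have h2 : ∀ k l : Fin M, (hv (bv k) * hv (bv l) - cv (bv k) * cv (bv l) : EH M ι) =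
      (2 : ℂ) • (epsv (bv k) * iotav (bv l)) + (2 : ℂ) • (iotav (bv k) * epsv (bv l)) := by
    intro k l
    unfold hv cv
    rw [two_smul, two_smul]
    noncomm_ring
  have h3 : ∀ k l : Fin M, (iotav (bv k) * epsv (bv l) : EH M ι) =
      ((inner ℝ (bv k : En M) (bv l) : ℝ) : ℂ) • 1 - epsv (bv l) * iotav (bv k) := by
    intro k l
    refine ContinuousLinearMap.ext fun u => ?_
    exact iotav_epsv (bv k) (bv l) u
  have h4 : (∑ k, ∑ l, ((inner ℝ (bv k) (B (bv l)) : ℝ) : ℂ) •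
      (iotav (bv k) * epsv (bv l)) : EH M ι) = dLam B := by
    rw [h1]
    have h5 : ∀ k l : Fin M, ((inner ℝ (bv k) (B (bv l)) : ℝ) : ℂ) •
        ((iotav (bv k) * epsv (bv l) : EH M ι)) =
        (((inner ℝ (bv k) (B (bv l)) : ℝ) : ℂ) * ((inner ℝ (bv k : En M) (bv l) : ℝ) : ℂ)) • 1 +
        ((inner ℝ (bv l) (B (bv k)) : ℝ) : ℂ) • (epsv (bv l) * iotav (bv k)) := by
      intro k l
      rw [h3, smul_sub, smul_smul, LgB_skew hB k l]
      push_cast
      rw [neg_smul, sub_neg_eq_add]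
    simp only [h5, Finset.sum_add_distrib]
    rw [Finset.sum_comm (f := fun k l => ((inner ℝ (bv l) (B (bv k)) : ℝ) : ℂ) •
      (epsv (bv l) * iotav (bv k) : EH M ι))]
    rw [add_eq_right]
    refine sum_eq_zero fun k _ => sum_eq_zero fun l _ => ?_
    by_cases hkl : k = l
    · subst hkl
      have h6 : inner ℝ (bv k) (B (bv k)) = 0 := by
        have h7 := LgB_skew hB k k
        linarith
      rw [h6]
      simp
    · have h6 : inner ℝ (bv k : En M) (bv l) = 0 := by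
        rw [LgB_inner_bv]
        simp [bv, hkl]
      rw [h6]
      simp
  simp only [h2, smul_add, Finset.sum_add_distrib]
  have h8 : ∀ k l : Fin M, ((inner ℝ (bv k) (B (bv l)) : ℝ) : ℂ) •
      (2 : ℂ) • (epsv (bv k) * iotav (bv l) : EH M ι) =
      (2 : ℂ) • ((inner ℝ (bv k) (B (bv l)) : ℝ) : ℂ) • (epsv (bv k) * iotav (bv l)) := by
    intro k l
    rw [smul_comm]
  have h9 : ∀ k l : Fin M, ((inner ℝ (bv k) (B (bv l)) : ℝ) : ℂ) •
      (2 : ℂ) • (iotav (bv k) * epsv (bv l) : EH M ι) =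
      (2 : ℂ) • ((inner ℝ (bv k) (B (bv l)) : ℝ) : ℂ) • (iotav (bv k) * epsv (bv l)) := by
    intro k l
    rw [smul_comm]
  simp only [h8, h9, ← Finset.smul_sum]
  rw [← h1, h4]
  module

/-! ### orthogonal projections -/

/-- Orthogonal projections. -/
structure IsPr (p : En M →L[ℝ] En M) : Prop where
  sa : ∀ v w, inner ℝ (p v) w = inner ℝ v (p w)
  idem : ∀ v, p (p v) = p v

variable {p : En M →L[ℝ] En M}

theorem Lam_Lam (hp : IsPr p) : (Lam p * Lam p : EH M ι) = Lam p := by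
  have h : p.comp p = p := ContinuousLinearMap.ext hp.idem
  have h2 := Lam_comp (κ := ι) p p
  rw [h] at h2
  exact h2.symm

private theorem LgB_pa (hp : IsPr p) : ContinuousLinearMap.adjoint p = p := by
  refine ContinuousLinearMap.ext fun v => ext_inner_right ℝ fun w => ?_
  rw [ContinuousLinearMap.adjoint_inner_left, hp.sa]

theorem Lam_adj (hp : IsPr p) : ContinuousLinearMap.adjoint (Lam p : EH M ι) = Lam p := by
  rw [adjoint_Lam, LgB_pa hp]

private theorem LgB_Le (v : En M) : (Lam p * epsv v : EH M ι) = epsv (p v) * Lam p := by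
  refine ContinuousLinearMap.ext fun u => ?_
  exact Lam_epsv p v u

private theorem LgB_Li (hp : IsPr p) (v : En M) :
    (iotav v * Lam p : EH M ι) = Lam p * iotav (p v) := by
  refine ContinuousLinearMap.ext fun u => ?_
  have h := iotav_Lam p v u
  rw [LgB_pa hp] at h
  exact h

theorem Lam_cv_tan (hp : IsPr p) {v : En M} (hv : p v = v) :
    (Lam p * cv v : EH M ι) = cv v * Lam p := by
  unfold cv
  have h := LgB_Li (ι := ι) hp v
  rw [hv] at h
  rw [mul_sub, sub_mul, LgB_Le, hv, h]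

theorem Lam_hv_tan (hp : IsPr p) {v : En M} (hv' : p v = v) :
    (Lam p * hv v : EH M ι) = hv v * Lam p := by
  unfold hv
  have h := LgB_Li (ι := ι) hp v
  rw [hv'] at h
  rw [mul_add, add_mul, LgB_Le, hv', h]

theorem Lam_cv_nor (hp : IsPr p) {v : En M} (hv : p v = 0) :
    (Lam p * cv v * Lam p : EH M ι) = 0 := by
  unfold cv
  have h := LgB_Li (ι := ι) hp v
  rw [hv, iotav_zero, mul_zero] at h
  rw [mul_sub, LgB_Le, hv, epsv_zero, zero_mul, zero_sub, neg_mul, mul_assoc, h, mul_zero, neg_zero]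

theorem dLam_nor {B : En M →L[ℝ] En M} (hB : ∀ v, B (p v) = 0) :
    (dLam B * Lam p : EH M ι) = 0 := by
  refine LgB_zero (fun i => ?_) (fun a u hu => ?_)
  · show dLam B (Lam p (bas ∅ i)) = 0
    rw [Lam_vac, LgB_vac]
  · have hu' : dLam B (Lam p u) = 0 := hu
    show dLam B (Lam p (epsv (bv a) u)) = 0
    rw [Lam_epsv, LgB_ap, hu', map_zero, hB, epsv_zero, zero_add]
    rfl

theorem Lam_dLam_Lam {B : En M →L[ℝ] En M} (hB : ∀ v, p (B (p v)) = 0) :
    (Lam p * dLam B * Lam p : EH M ι) = 0 := by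
  refine LgB_zero (fun i => ?_) (fun a u hu => ?_)
  · show Lam p (dLam B (Lam p (bas ∅ i))) = 0
    rw [Lam_vac, LgB_vac, map_zero]
  · have hu' : Lam p (dLam B (Lam p u)) = 0 := hu
    show Lam p (dLam B (Lam p (epsv (bv a) u))) = 0
    rw [Lam_epsv, LgB_ap, map_add, Lam_epsv, Lam_epsv, hu', map_zero, hB, epsv_zero, zero_add]
    rfl

theorem dLam_Lam_comm (hp : IsPr p) {B : En M →L[ℝ] En M} (hB : ∀ v, p (B v) = B (p v)) :
    (dLam B * Lam p : EH M ι) = Lam p * dLam B := by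
  rw [← sub_eq_zero]
  refine LgB_zero (fun i => ?_) (fun a u hu => ?_)
  · show dLam B (Lam p (bas ∅ i)) - Lam p (dLam B (bas ∅ i)) = 0
    rw [Lam_vac, LgB_vac, map_zero, sub_zero]
  · have hu' : dLam B (Lam p u) - Lam p (dLam B u) = 0 := hu
    show dLam B (Lam p (epsv (bv a) u)) - Lam p (dLam B (epsv (bv a) u)) = 0
    rw [Lam_epsv, LgB_ap, LgB_ap, map_add, Lam_epsv, Lam_epsv, hB, sub_eq_zero.1 hu']
    abel

end Pool.Agent.EXO.L
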