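import Pool.Agent.EXO.LgB

/-!
# EXO / LgC : tangential derivatives (IDX-L)

`td V b f x = fderiv ℝ f x (V.P x (bv b))`.

* rules: `fderiv` of products in the normed algebra `EH M ι` (restricted to `ℝ`), of matrix products,
  of compositions with continuous linear maps (`cf_clm`, `dLam_clm`).
* `td_td`: `td V b (td V c f) x = D²f(x)(P e_b, P e_c) + Df(x)((P_b) e_c)` (`Pd V b x = td V b V.P x` is the
  derivative of `P` along `P e_b`), and `D²f(x)` is symmetric.
* `td_tan`: linearity of `fderiv ℝ f x` and `∑_a (P x e_b)_a P x e_a = P x (P x e_b) = P x e_b`.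
* `td_congr`: `hloc` for `f - g`.
* identities for `P_b = Pd V b x` at `x ∈ V`: apply `td_congr` to `P * P = P`: `P_b P + P P_b = P_b`;
  to `⟨P v, w⟩ = ⟨v, P w⟩`: `P_b` is symmetric; `P P_b P = 0` algebraically. The same for `e`.
* `Pd_tan`: linearity in the direction.
* `Pd_II`: `hS` with `v = P e_b`, `w = P e_c`; `fderiv ℝ V.P x (P e_b) = Pd V b x`.
* `td_Lam`: `T = td V b (fun y => Lam (V.P y)) x * Lam (P x)` and `T' = dLam (Ab V b x) * Lam (P x)` both
  kill the vacuum... precisely: let `L = Lam (P x)`, `L' = td V b (fun y => Lam (V.P y)) x`.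
  Differentiating `Lam (P y) vac = vac` and `Lam (P y) (ε_v u) = ε(P y v) Lam (P y) u` (true for all `y`):
  `L' vac = 0`, `L' ε_v = ε(P_b v) L + ε(P v) L'`.  So `L' L ε_v = L' ε(Pv) L = ε(P_b P v) L + ε(Pv) L' L`
  and `dΛ(A_b) L ε_v = dΛ(A_b) ε(Pv) L = ε(A_b P v) L + ε(Pv) dΛ(A_b) L`, `A_b P v = P_b P v` as
  `P P_b P = 0`.  Conclude by the induction principle `hf_ext`.
  (`Lam` is a smooth function: `contDiff_Lam` in `FmTens`.)
-/

set_option autoImplicit false
set_option maxSynthPendingDepth 3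

open scoped ContDiff
open Finset Matrix

noncomputable section

namespace Pool.Agent.EXO.L

variable {n M : ℕ} {V : Geo n M} {ι : Type} [Fintype ι] [DecidableEq ι]

section rules

private theorem LgC_dif {E F' : Type} [NormedAddCommGroup E] [NormedSpace ℝ E]
    [NormedAddCommGroup F'] [NormedSpace ℝ F'] {f : E → F'} (hf : ContDiff ℝ ∞ f) (x : E) :
    DifferentiableAt ℝ f x := (hf.differentiable (by simp)).differentiableAt

private theorem LgC_expand (v : En M) : v = ∑ a, v a • bv a := by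
  ext b
  simp [bv, Pi.single_apply]

private theorem LgC_mm : ∃ B : Matrix ι ι ℂ →L[ℝ] Matrix ι ι ℂ →L[ℝ] Matrix ι ι ℂ,
    ∀ S T, B S T = S * T := by
  refine ⟨LinearMap.toContinuousLinearMap
    ((LinearMap.toContinuousLinearMap :
      (Matrix ι ι ℂ →ₗ[ℝ] Matrix ι ι ℂ) ≃ₗ[ℝ] (Matrix ι ι ℂ →L[ℝ] Matrix ι ι ℂ)).toLinearMap ∘ₗ
      LinearMap.mul ℝ (Matrix ι ι ℂ)), fun S T => rfl⟩

theorem contDiff_td {F : Type} [NormedAddCommGroup F] [NormedSpace ℝ F] {f : En M → F}
    (hf : ContDiff ℝ ∞ f) (b : Fin M) : ContDiff ℝ ∞ (td V b f) := by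
  exact (hf.fderiv_right (m := ∞) (by simp)).clm_apply (V.smoothP.clm_apply contDiff_const)

theorem td_add {F : Type} [NormedAddCommGroup F] [NormedSpace ℝ F] {f g : En M → F}
    (hf : ContDiff ℝ ∞ f) (hg : ContDiff ℝ ∞ g) (b : Fin M) (x : En M) :
    td V b (fun y => f y + g y) x = td V b f x + td V b g x := by
  show fderiv ℝ (fun y => f y + g y) x _ = _
  rw [fderiv_fun_add (LgC_dif hf x) (LgC_dif hg x)]
  rfl

theorem td_sub {F : Type} [NormedAddCommGroup F] [NormedSpace ℝ F] {f g : En M → F}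
    (hf : ContDiff ℝ ∞ f) (hg : ContDiff ℝ ∞ g) (b : Fin M) (x : En M) :
    td V b (fun y => f y - g y) x = td V b f x - td V b g x := by
  show fderiv ℝ (fun y => f y - g y) x _ = _
  rw [fderiv_fun_sub (LgC_dif hf x) (LgC_dif hg x)]
  rfl

theorem td_sum {F : Type} [NormedAddCommGroup F] [NormedSpace ℝ F] {α : Type*} (s : Finset α)
    {f : α → En M → F} (hf : ∀ i ∈ s, ContDiff ℝ ∞ (f i)) (b : Fin M) (x : En M) :
    td V b (fun y => ∑ i ∈ s, f i y) x = ∑ i ∈ s, td V b (f i) x := by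
  show fderiv ℝ (fun y => ∑ i ∈ s, f i y) x _ = _
  rw [fderiv_fun_sum (fun i hi => LgC_dif (hf i hi) x), _root_.sum_apply]
  rfl

theorem td_const {F : Type} [NormedAddCommGroup F] [NormedSpace ℝ F] (a : F) (b : Fin M)
    (x : En M) : td V b (fun _ => a) x = 0 := by
  show fderiv ℝ (fun _ => a) x _ = _
  rw [fderiv_fun_const]
  rfl

theorem td_clm {F G : Type} [NormedAddCommGroup F] [NormedSpace ℝ F] [NormedAddCommGroup G]
    [NormedSpace ℝ G] (L : F →L[ℝ] G) {f : En M → F} (hf : ContDiff ℝ ∞ f) (b : Fin M)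
    (x : En M) : td V b (fun y => L (f y)) x = L (td V b f x) := by
  have h1 : HasFDerivAt (fun y => L (f y)) (L.comp (fderiv ℝ f x)) x :=
    L.hasFDerivAt.comp x (LgC_dif hf x).hasFDerivAt
  show fderiv ℝ (fun y => L (f y)) x _ = _
  rw [h1.fderiv]
  rfl

theorem td_mul {f g : En M → EH M ι} (hf : ContDiff ℝ ∞ f) (hg : ContDiff ℝ ∞ g) (b : Fin M)
    (x : En M) : td V b (fun y => f y * g y) x = td V b f x * g x + f x * td V b g x := by
  have h1 := (LgC_dif hf x).hasFDerivAt.mul' (LgC_dif hg x).hasFDerivAt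
  have h2 : fderiv ℝ (fun y => f y * g y) x =
    f x • fderiv ℝ g x + MulOpposite.op (g x) • fderiv ℝ f x := h1.fderiv
  show fderiv ℝ (fun y => f y * g y) x _ = _
  rw [h2, add_comm]
  rfl

theorem td_smul {f : En M → ℝ} {g : En M → EH M ι} (hf : ContDiff ℝ ∞ f) (hg : ContDiff ℝ ∞ g)
    (b : Fin M) (x : En M) :
    td V b (fun y => ((f y : ℝ) : ℂ) • g y) x =
      ((td V b f x : ℝ) : ℂ) • g x + ((f x : ℝ) : ℂ) • td V b g x := by
  have h1 := (LgC_dif hf x).hasFDerivAt.smul (LgC_dif hg x).hasFDerivAt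
  have h2 : fderiv ℝ (fun y => ((f y : ℝ) : ℂ) • g y) x =
    f x • fderiv ℝ g x + (fderiv ℝ f x).smulRight (g x) := h1.fderiv
  show fderiv ℝ (fun y => ((f y : ℝ) : ℂ) • g y) x _ = _
  rw [h2, add_comm]
  rfl

theorem td_matmul {f g : En M → Matrix ι ι ℂ} (hf : ContDiff ℝ ∞ f) (hg : ContDiff ℝ ∞ g)
    (b : Fin M) (x : En M) :
    td V b (fun y => f y * g y) x = td V b f x * g x + f x * td V b g x := by
  obtain ⟨B, hB⟩ := LgC_mm (ι := ι)
  have h1 := B.hasFDerivAt_of_bilinear (LgC_dif hf x).hasFDerivAt (LgC_dif hg x).hasFDerivAt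
  have h3 : (fun y => f y * g y) = fun y => B (f y) (g y) := funext fun y => (hB _ _).symm
  have h4 : td V b (fun y => f y * g y) x = B (f x) (td V b g x) + B (td V b f x) (g x) := by
    have h5 := congrArg (fun T => T (V.P x (bv b))) h1.fderiv
    rw [h3]
    exact h5
  rw [h4, hB, hB, add_comm]

theorem td_comp {f g : En M → (En M →L[ℝ] En M)} (hf : ContDiff ℝ ∞ f) (hg : ContDiff ℝ ∞ g)
    (b : Fin M) (x : En M) :
    td V b (fun y => f y * g y) x = td V b f x * g x + f x * td V b g x := by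
  have h1 := (LgC_dif hf x).hasFDerivAt.mul' (LgC_dif hg x).hasFDerivAt
  have h2 : fderiv ℝ (fun y => f y * g y) x =
    f x • fderiv ℝ g x + MulOpposite.op (g x) • fderiv ℝ f x := h1.fderiv
  show fderiv ℝ (fun y => f y * g y) x _ = _
  rw [h2, add_comm]
  rfl

theorem td_cf {f : En M → Matrix ι ι ℂ} (hf : ContDiff ℝ ∞ f) (b : Fin M) (x : En M) :
    td V b (fun y => (cf (f y) : EH M ι)) x = cf (td V b f x) := by
  obtain ⟨L, hL⟩ := cf_clm (M := M) (ι := ι)
  simp only [← hL]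
  exact td_clm L hf b x

theorem td_dLam {f : En M → (En M →L[ℝ] En M)} (hf : ContDiff ℝ ∞ f) (b : Fin M) (x : En M) :
    td V b (fun y => (dLam (f y) : EH M ι)) x = dLam (td V b f x) := by
  obtain ⟨L, hL⟩ := dLam_clm (M := M) (ι := ι)
  simp only [← hL]
  exact td_clm L hf b x

private theorem LgC_td2 {F : Type} [NormedAddCommGroup F] [NormedSpace ℝ F] {f : En M → F}
    (hf : ContDiff ℝ ∞ f) (b c : Fin M) (x : En M) :
    td V b (td V c f) x = fderiv ℝ f x (Pd V b x (bv c)) +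
      fderiv ℝ (fderiv ℝ f) x (V.P x (bv b)) (V.P x (bv c)) := by
  have hdf : ContDiff ℝ ∞ (fderiv ℝ f) := hf.fderiv_right (m := ∞) (by simp)
  have h1 : HasFDerivAt (fun y => V.P y (bv c))
      ((ContinuousLinearMap.apply ℝ (En M) (bv c)).comp (fderiv ℝ V.P x)) x :=
    (ContinuousLinearMap.apply ℝ (En M) (bv c)).hasFDerivAt.comp x
      (LgC_dif V.smoothP x).hasFDerivAt
  have h2 := (LgC_dif hdf x).hasFDerivAt.clm_apply h1
  show fderiv ℝ (fun z => fderiv ℝ f z (V.P z (bv c))) x (V.P x (bv b)) = _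
  rw [h2.fderiv]
  rfl

theorem td_td {F : Type} [NormedAddCommGroup F] [NormedSpace ℝ F] {f : En M → F}
    (hf : ContDiff ℝ ∞ f) (b c : Fin M) (x : En M) :
    td V b (td V c f) x - td V c (td V b f) x =
      fderiv ℝ f x (Pd V b x (bv c) - Pd V c x (bv b)) := by
  have h3 : IsSymmSndFDerivAt ℝ f x := hf.contDiffAt.isSymmSndFDerivAt (by
    rw [minSmoothness_of_isRCLikeNormedField]
    exact WithTop.coe_le_coe.2 (show (2 : ℕ∞) ≤ ⊤ from le_top))
  have h4 : fderiv ℝ (fderiv ℝ f) x (V.P x (bv b)) (V.P x (bv c)) =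
    fderiv ℝ (fderiv ℝ f) x (V.P x (bv c)) (V.P x (bv b)) := h3 _ _
  rw [LgC_td2 hf, LgC_td2 hf, h4, map_sub]
  abel

/-- the derivative in the direction `P e_b` is a combination of the `td V a` -/
theorem td_tan {F : Type} [NormedAddCommGroup F] [NormedSpace ℝ F] (f : En M → F) {x : En M}
    (hx : x ∈ V.carrier) (b : Fin M) : ∑ a, (V.P x (bv b) a) • td V a f x = td V b f x := by
  have h1 : V.P x (bv b) = ∑ a, (V.P x (bv b) a) • V.P x (bv a) := by
    have h2 := congrArg (V.P x) (LgC_expand (V.P x (bv b)))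
    rw [V.P_idem x hx, map_sum] at h2
    refine h2.trans (Finset.sum_congr rfl fun a _ => ?_)
    rw [map_smul]
  show ∑ a, (V.P x (bv b) a) • fderiv ℝ f x (V.P x (bv a)) = fderiv ℝ f x (V.P x (bv b))
  conv_rhs => rw [h1, map_sum]
  refine Finset.sum_congr rfl fun a _ => ?_
  rw [map_smul]

theorem td_congr (hloc : V.Loc) {F : Type} [NormedAddCommGroup F] [NormedSpace ℝ F]
    {f g : En M → F} (hf : ContDiff ℝ ∞ f) (hg : ContDiff ℝ ∞ g)
    (h : ∀ x ∈ V.carrier, f x = g x) (b : Fin M) {x : En M} (hx : x ∈ V.carrier) :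
    td V b f x = td V b g x := by
  have h1 := hloc F (fun z => f z - g z) ((hf.sub hg).of_le (by simp))
    (fun z hz => by rw [h z hz, sub_self]) x hx (bv b)
  rw [fderiv_fun_sub (LgC_dif hf x) (LgC_dif hg x)] at h1
  exact sub_eq_zero.1 h1

end rules

section identities

variable {x : En M}

theorem isPr (hx : x ∈ V.carrier) : IsPr (V.P x) :=
  ⟨fun v w => V.P_sa x hx v w, fun v => V.P_idem x hx v⟩

theorem contDiff_Pd (b : Fin M) : ContDiff ℝ ∞ (Pd V b) := contDiff_td V.smoothP b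

private theorem LgC_PP (hx : x ∈ V.carrier) : V.P x * V.P x = V.P x :=
  ContinuousLinearMap.ext fun v => V.P_idem x hx v

theorem Pd_idem (hloc : V.Loc) (hx : x ∈ V.carrier) (b : Fin M) :
    Pd V b x * V.P x + V.P x * Pd V b x = Pd V b x := by
  have h1 := td_comp (V := V) V.smoothP V.smoothP b x
  have h2 : td V b (fun y => V.P y * V.P y) x = td V b V.P x :=
    td_congr hloc (V.smoothP.clm_comp V.smoothP) V.smoothP (fun y hy => LgC_PP hy) b hx
  rw [h2] at h1
  exact h1.symm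

private theorem LgC_alg {R : Type*} [Ring R] {p q : R} (hp : p * p = p)
    (h : q * p + p * q = q) : p * q * p = 0 := by
  have h1 : p * (q * p + p * q) * p = p * q * p := by rw [h]
  have h2 : p * (q * p + p * q) * p = p * q * (p * p) + (p * p) * q * p := by noncomm_ring
  rw [h2, hp] at h1
  exact left_eq_add.1 h1.symm

theorem P_Pd_P (hloc : V.Loc) (hx : x ∈ V.carrier) (b : Fin M) :
    V.P x * Pd V b x * V.P x = 0 :=
  LgC_alg (LgC_PP hx) (Pd_idem hloc hx b)

theorem Pd_sa (hloc : V.Loc) (hx : x ∈ V.carrier) (b : Fin M) (v w : En M) :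
    inner ℝ (Pd V b x v) w = inner ℝ v (Pd V b x w) := by
  have h1 := td_clm (V := V) ((innerSL ℝ w).comp (ContinuousLinearMap.apply ℝ (En M) v))
    V.smoothP b x
  have h2 := td_clm (V := V) ((innerSL ℝ v).comp (ContinuousLinearMap.apply ℝ (En M) w))
    V.smoothP b x
  have h3 := td_congr (V := V) hloc
    (f := fun y => ((innerSL ℝ w).comp (ContinuousLinearMap.apply ℝ (En M) v)) (V.P y))
    (g := fun y => ((innerSL ℝ v).comp (ContinuousLinearMap.apply ℝ (En M) w)) (V.P y))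
    (((innerSL ℝ w).comp (ContinuousLinearMap.apply ℝ (En M) v)).contDiff.comp V.smoothP)
    (((innerSL ℝ v).comp (ContinuousLinearMap.apply ℝ (En M) w)).contDiff.comp V.smoothP)
    (fun y hy => by
      show inner ℝ w (V.P y v) = inner ℝ v (V.P y w)
      rw [real_inner_comm]
      exact V.P_sa y hy v w) b hx
  rw [h1, h2] at h3
  have h4 : inner ℝ w (Pd V b x v) = inner ℝ v (Pd V b x w) := h3
  rw [← h4, real_inner_comm]

theorem Pd_tan (hx : x ∈ V.carrier) (b : Fin M) :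
    ∑ a, (V.P x (bv b) a) • Pd V a x = Pd V b x := td_tan V.P hx b

theorem Pd_II (hS : SymII V) (hx : x ∈ V.carrier) (b c : Fin M) :
    Pd V b x (V.P x (bv c)) = Pd V c x (V.P x (bv b)) :=
  hS x hx (V.P x (bv b)) (V.P x (bv c)) (V.P_idem x hx _) (V.P_idem x hx _)

theorem Ab_skew (hloc : V.Loc) (hx : x ∈ V.carrier) (b : Fin M) (v w : En M) :
    inner ℝ (Ab V b x v) w = -inner ℝ v (Ab V b x w) := by
  have h1 : Ab V b x v = Pd V b x (V.P x v) - V.P x (Pd V b x v) := rfl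
  have h2 : Ab V b x w = Pd V b x (V.P x w) - V.P x (Pd V b x w) := rfl
  rw [h1, h2, inner_sub_left, inner_sub_right, Pd_sa hloc hx, V.P_sa x hx, V.P_sa x hx,
    Pd_sa hloc hx]
  ring

theorem Ab_tan (hx : x ∈ V.carrier) (b : Fin M) :
    ∑ a, (V.P x (bv b) a) • Ab V a x = Ab V b x := by
  have h1 : Ab V b x = (∑ a, (V.P x (bv b) a) • Pd V a x) * V.P x -
      V.P x * (∑ a, (V.P x (bv b) a) • Pd V a x) := by
    rw [Pd_tan hx]
    rfl
  rw [h1, Finset.sum_mul, Finset.mul_sum, ← Finset.sum_sub_distrib]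
  refine Finset.sum_congr rfl fun a _ => ?_
  rw [smul_mul_assoc, mul_smul_comm, ← smul_sub]
  rfl

/-- `A_b P v = P_b P v` -/
theorem Ab_P (hloc : V.Loc) (hx : x ∈ V.carrier) (b : Fin M) (v : En M) :
    Ab V b x (V.P x v) = Pd V b x (V.P x v) := by
  have h1 : Ab V b x (V.P x v) = Pd V b x (V.P x (V.P x v)) - V.P x (Pd V b x (V.P x v)) := rfl
  have h2 : V.P x (Pd V b x (V.P x v)) = 0 :=
    congrArg (fun T : En M →L[ℝ] En M => T v) (P_Pd_P hloc hx b)
  rw [h1, h2, V.P_idem x hx, sub_zero]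

theorem P_Ab_P (hloc : V.Loc) (hx : x ∈ V.carrier) (b : Fin M) (v : En M) :
    V.P x (Ab V b x (V.P x v)) = 0 := by
  rw [Ab_P hloc hx]
  exact congrArg (fun T : En M →L[ℝ] En M => T v) (P_Pd_P hloc hx b)

theorem ed_idem (hloc : V.Loc) (E : Bd V ι) (hx : x ∈ V.carrier) (b : Fin M) :
    td V b E.e x * E.e x + E.e x * td V b E.e x = td V b E.e x := by
  have h1 := td_matmul (V := V) E.smooth_e E.smooth_e b x
  obtain ⟨B, hB⟩ := LgC_mm (ι := ι)
  have h0 : ContDiff ℝ ∞ (fun y => E.e y * E.e y) := by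
    have h3 : (fun y => E.e y * E.e y) = fun y => B (E.e y) (E.e y) :=
      funext fun y => (hB _ _).symm
    rw [h3]
    exact (B.contDiff.comp E.smooth_e).clm_apply E.smooth_e
  have h2 : td V b (fun y => E.e y * E.e y) x = td V b E.e x :=
    td_congr hloc h0 E.smooth_e (fun y hy => E.e_idem y hy) b hx
  rw [h2] at h1
  exact h1.symm

theorem e_ed_e (hloc : V.Loc) (E : Bd V ι) (hx : x ∈ V.carrier) (b : Fin M) :
    E.e x * td V b E.e x * E.e x = 0 :=
  LgC_alg (E.e_idem x hx) (ed_idem hloc E hx b)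

theorem e_A_left (E : Bd V ι) (hx : x ∈ V.carrier) (b : Fin M) : E.e x * E.A b x = E.A b x := by
  have h1 := E.e_A b x hx
  calc E.e x * E.A b x = E.e x * (E.e x * E.A b x * E.e x) := by rw [h1]
    _ = (E.e x * E.e x) * E.A b x * E.e x := by simp only [Matrix.mul_assoc]
    _ = E.A b x := by rw [E.e_idem x hx, h1]

theorem e_A_right (E : Bd V ι) (hx : x ∈ V.carrier) (b : Fin M) : E.A b x * E.e x = E.A b x := by
  have h1 := E.e_A b x hx
  calc E.A b x * E.e x = (E.e x * E.A b x * E.e x) * E.e x := by rw [h1]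
    _ = E.e x * E.A b x * (E.e x * E.e x) := by simp only [Matrix.mul_assoc]
    _ = E.A b x := by rw [E.e_idem x hx, h1]

theorem contDiff_Xi (E : Bd V ι) (b : Fin M) : ContDiff ℝ ∞ (Xi V E b) := by
  obtain ⟨L1, hL1⟩ := dLam_clm (M := M) (ι := ι)
  obtain ⟨L2, hL2⟩ := cf_clm (M := M) (ι := ι)
  have h1 : ContDiff ℝ ∞ (Ab V b) :=
    ((contDiff_Pd b).clm_comp V.smoothP).sub (V.smoothP.clm_comp (contDiff_Pd b))
  have h2 : ContDiff ℝ ∞ (fun y => (dLam (Ab V b y) : EH M ι)) := by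
    simp only [← hL1]
    exact L1.contDiff.comp h1
  have h3 : ContDiff ℝ ∞ (fun y => (cf (td V b E.e y) : EH M ι)) := by
    simp only [← hL2]
    exact L2.contDiff.comp (contDiff_td E.smooth_e b)
  have h4 : ContDiff ℝ ∞ (fun y => (cf (E.A b y) : EH M ι)) := by
    simp only [← hL2]
    exact L2.contDiff.comp (E.smooth_A b)
  exact (h2.neg.sub h3).add h4

theorem Xi_tan (E : Bd V ι) (hx : x ∈ V.carrier) (b : Fin M) :
    ∑ a, ((V.P x (bv b) a : ℝ) : ℂ) • Xi V E a x = Xi V E b x := by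
  have h1 : (dLam (Ab V b x) : EH M ι) = ∑ a, ((V.P x (bv b) a : ℝ) : ℂ) • dLam (Ab V a x) := by
    conv_lhs => rw [← Ab_tan hx b, dLam_sum]
    exact Finset.sum_congr rfl fun a _ => dLam_smul _ _
  have h2 : (cf (td V b E.e x) : EH M ι) =
      ∑ a, ((V.P x (bv b) a : ℝ) : ℂ) • cf (td V a E.e x) := by
    conv_lhs => rw [← td_tan E.e hx b, cf_sum]
    exact Finset.sum_congr rfl fun a _ => cf_smul _ _
  have h3 : (cf (E.A b x) : EH M ι) = ∑ a, ((V.P x (bv b) a : ℝ) : ℂ) • cf (E.A a x) := by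
    conv_lhs => rw [← E.A_tan b x hx, cf_sum]
    exact Finset.sum_congr rfl fun a _ => cf_smul _ _
  show _ = -dLam (Ab V b x) - cf (td V b E.e x) + cf (E.A b x)
  rw [h1, h2, h3, ← Finset.sum_neg_distrib, ← Finset.sum_sub_distrib, ← Finset.sum_add_distrib]
  refine Finset.sum_congr rfl fun a _ => ?_
  rw [← smul_neg, ← smul_sub, ← smul_add]
  rfl

theorem contDiff_Lam' : ContDiff ℝ ∞ (fun y => (Lam (V.P y) : EH M ι)) :=
  contDiff_Lam.comp V.smoothP

private theorem LgC_L0 (b : Fin M) (x : En M) (i : ι) :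
    td V b (fun y => (Lam (V.P y) : EH M ι)) x (bas ∅ i) = 0 := by
  have h1 := td_clm (V := V)
    ((ContinuousLinearMap.apply ℂ (HF M ι) (bas ∅ i : HF M ι)).restrictScalars ℝ)
    (contDiff_Lam' (V := V) (ι := ι)) b x
  have h2 : (fun y => ((ContinuousLinearMap.apply ℂ (HF M ι)
      (bas ∅ i : HF M ι)).restrictScalars ℝ) (Lam (V.P y) : EH M ι)) = fun _ => bas ∅ i :=
    funext fun y => Lam_vac (V.P y) i
  rw [h2, td_const] at h1
  exact h1.symm

private theorem LgC_L1 (b : Fin M) (x v : En M) :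
    td V b (fun y => (Lam (V.P y) : EH M ι)) x * epsv v =
      epsv (Pd V b x v) * Lam (V.P x) +
        epsv (V.P x v) * td V b (fun y => (Lam (V.P y) : EH M ι)) x := by
  have h0 : ContDiff ℝ ∞ (fun y => (epsv (V.P y v) : EH M ι)) :=
    ((epsvL M ι).comp (ContinuousLinearMap.apply ℝ (En M) v)).contDiff.comp V.smoothP
  have h1 := td_mul (V := V) (contDiff_Lam' (V := V) (ι := ι))
    (contDiff_const (c := (epsv v : EH M ι))) b x
  have h2 := td_mul (V := V) h0 (contDiff_Lam' (V := V) (ι := ι)) b x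
  have h3 : (fun y => (Lam (V.P y) : EH M ι) * epsv v) =
      fun y => epsv (V.P y v) * Lam (V.P y) :=
    funext fun y => ContinuousLinearMap.ext fun u => Lam_epsv (V.P y) v u
  have h4 : td V b (fun y => (epsv (V.P y v) : EH M ι)) x = epsv (Pd V b x v) :=
    td_clm (V := V) ((epsvL M ι).comp (ContinuousLinearMap.apply ℝ (En M) v)) V.smoothP b x
  rw [h3, h2, td_const, mul_zero, add_zero, h4] at h1
  exact h1.symm

theorem td_Lam (hloc : V.Loc) (hx : x ∈ V.carrier) (b : Fin M) :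
    td V b (fun y => (Lam (V.P y) : EH M ι)) x * Lam (V.P x) =
      dLam (Ab V b x) * Lam (V.P x) := by
  obtain ⟨L', hL'⟩ : ∃ L' : EH M ι, L' = td V b (fun y => (Lam (V.P y) : EH M ι)) x := ⟨_, rfl⟩
  have h0 : ∀ i, L' (bas ∅ i) = 0 := fun i => by rw [hL']; exact LgC_L0 b x i
  have h1 : ∀ v u, L' (epsv v u) = epsv (Pd V b x v) (Lam (V.P x) u) +
      epsv (V.P x v) (L' u) := fun v u => by
    rw [hL']
    exact congrArg (fun T : EH M ι => T u) (LgC_L1 b x v)
  rw [← hL']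
  have h2 : ∀ u : HF M ι, Lam (V.P x) (Lam (V.P x) u) = Lam (V.P x) u := fun u =>
    congrArg (fun T : EH M ι => T u) (Lam_Lam (isPr hx))
  have h3 : ∀ v (u : HF M ι), dLam (Ab V b x) (epsv v u) =
      epsv v (dLam (Ab V b x) u) + epsv (Ab V b x v) u := fun v u =>
    congrArg (fun T : EH M ι => T u) (dLam_epsv (Ab V b x) v)
  have h4 : ∀ i : ι, (dLam (Ab V b x) : EH M ι) (bas ∅ i) = 0 := fun i => by
    show (∑ l, epsv (Ab V b x (bv l)) * iota l : EH M ι) (bas ∅ i) = 0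
    rw [_root_.sum_apply]
    refine Finset.sum_eq_zero fun l _ => ?_
    show (epsv (Ab V b x (bv l)) : EH M ι) (iota l (bas ∅ i)) = 0
    rw [iota_vac, map_zero]
  have h5 : ((L' * Lam (V.P x) : EH M ι) : HF M ι →ₗ[ℂ] HF M ι) =
      ((dLam (Ab V b x) * Lam (V.P x) : EH M ι) : HF M ι →ₗ[ℂ] HF M ι) := by
    refine hf_ext (fun i => ?_) (fun a u hu => ?_)
    · show L' (Lam (V.P x) (bas ∅ i)) = (dLam (Ab V b x) : EH M ι) (Lam (V.P x) (bas ∅ i))
      rw [Lam_vac, h0, h4]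
    · have hu' : L' (Lam (V.P x) u) = (dLam (Ab V b x) : EH M ι) (Lam (V.P x) u) := hu
      have he : (eps a : EH M ι) = epsv (bv a) := (epsv_ee a).symm
      show L' (Lam (V.P x) ((eps a : EH M ι) u)) =
        (dLam (Ab V b x) : EH M ι) (Lam (V.P x) ((eps a : EH M ι) u))
      rw [he, Lam_epsv, h1, h3, h2, V.P_idem x hx, hu', Ab_P hloc hx, add_comm]
  exact ContinuousLinearMap.ext fun u => LinearMap.congr_fun h5 u

end identities

end Pool.Agent.EXO.L
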