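import Pool.Agent.EXO.IbGood
import Pool.Agent.EXO.FmTens
import Pool.Agent.EXO.LFil
import Pool.Agent.EXO.DefB

/-!
# EXO / LgDef : definitions for the Weitzenböck formula (IDX-L)

All operators act on `HF M ι` by elements of the ring `EH M ι = HF M ι →L[ℂ] HF M ι`; sections are
functions `u : En M → EH M ι` with `Q u = u` on `V` and everything acts by left multiplication.
-/

set_option autoImplicit false
set_option maxSynthPendingDepth 3

open scoped ContDiff
open Finset Matrix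

noncomputable section

namespace Pool.Agent.EXO.L

variable {n M : ℕ} {ι : Type} [Fintype ι] [DecidableEq ι]

variable (M ι) in
/-- The ring of operators on `HF M ι`. -/
abbrev EH := HF M ι →L[ℂ] HF M ι

/-- Clifford multiplication `ε(v) - ι(v)` by a vector. -/
def cv (v : En M) : EH M ι := epsv v - iotav v

/-- The other Clifford multiplication `ε(v) + ι(v)`. -/
def hv (v : En M) : EH M ι := epsv v + iotav v

variable (M ι) in
/-- The parity of forms. -/
def pr : EH M ι := ∑ j ∈ range (M + 1), ((-1 : ℂ) ^ j) • dg j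

/-- The derivation `dΛ(B)` of the exterior algebra. -/
def dLam (B : En M →L[ℝ] En M) : EH M ι := ∑ l, epsv (B (bv l)) * iota l

/-- The tangential derivative of `P` in the direction `P e_b`. -/
def Pd (V : Geo n M) (b : Fin M) (x : En M) : En M →L[ℝ] En M := td V b V.P x

/-- `A_b = [P_b, P]`. -/
def Ab (V : Geo n M) (b : Fin M) (x : En M) : En M →L[ℝ] En M :=
  Pd V b x * V.P x - V.P x * Pd V b x

/-- The curvature `R_bc = P [P_b, P_c] P`. -/
def Rr (V : Geo n M) (b c : Fin M) (x : En M) : En M →L[ℝ] En M :=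
  V.P x * (Pd V b x * Pd V c x - Pd V c x * Pd V b x) * V.P x

/-- The connection coefficients `Ξ_b` in the trivial ambient gauge. -/
def Xi (V : Geo n M) (E : Bd V ι) (b : Fin M) (x : En M) : EH M ι :=
  -dLam (Ab V b x) - cf (td V b E.e x) + cf (E.A b x)

/-- The derivative `𝒟_b = ∂_b + Ξ_b`. -/
def Db (V : Geo n M) (E : Bd V ι) (b : Fin M) (u : En M → EH M ι) (x : En M) : EH M ι :=
  td V b u x + Xi V E b x * u x

/-- The curvature of `E` in the directions `P e_b`, `P e_c`. -/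
def Fbc (V : Geo n M) (E : Bd V ι) (b c : Fin M) (x : En M) : Matrix ι ι ℂ :=
  E.e x * (td V b E.e x * td V c E.e x - td V c E.e x * td V b E.e x) * E.e x +
    E.e x * (td V b (E.A c) x - td V c (E.A b) x) * E.e x +
    (E.A b x * E.A c x - E.A c x * E.A b x)

/-- The endomorphism `∑ ĉ_a θ_a`. -/
def Psi (θ : Fin M → En M → Matrix ι ι ℂ) (x : En M) : EH M ι :=
  ∑ a, hv (bv a) * cf (θ a x)

/-- `Q = Λ(P) e`. -/
def Qx (V : Geo n M) (E : Bd V ι) (x : En M) : EH M ι := Lam (V.P x) * cf (E.e x)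

/-- Left `Q`-valued functions. -/
def QS (V : Geo n M) (E : Bd V ι) (u : En M → EH M ι) : Prop :=
  ∀ x ∈ V.carrier, Qx V E x * u x = u x

/-- The Dirac operator on functions with values in `EH M ι`. -/
def opA (V : Geo n M) (E : Bd V ι) (θ : Fin M → En M → Matrix ι ι ℂ) (u : En M → EH M ι)
    (x : En M) : EH M ι :=
  ∑ a, cv (bv a) * (Qx V E x * td V a u x) +
    (∑ a, cv (bv a) * cf (E.A a x) + Psi θ x) * Qx V E x * u x

/-- The scalar curvature term: `¼ ∑ R_{bc,bc}`, `R_{bc,kl} = ⟨e_k, R_bc e_l⟩`. -/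
def rho (V : Geo n M) (x : En M) : ℝ :=
  (1 / 4) * ∑ b, ∑ c, inner ℝ (bv b) (Rr V b c x (bv c))

/-- The zero order term of the Weitzenböck formula. -/
def Wt (V : Geo n M) (E : Bd V ι) (θ : Fin M → En M → Matrix ι ι ℂ) (x : En M) : EH M ι :=
  (rho V x : ℂ) • 1 +
    (1 / 2 : ℂ) • ∑ b, ∑ c, cv (V.P x (bv b)) * cv (V.P x (bv c)) *
      ((1 / 4 : ℂ) • (∑ k, ∑ l, ((inner ℝ (bv k) (Rr V b c x (bv l)) : ℝ) : ℂ) •
        (hv (bv k) * hv (bv l))) + cf (Fbc V E b c x)) +
    ∑ b, cv (V.P x (bv b)) * (td V b (Psi θ) x + (Xi V E b x * Psi θ x - Psi θ x * Xi V E b x)) +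
    Psi θ x * Psi θ x

/-- The symmetry of the second fundamental form. -/
def SymII (V : Geo n M) : Prop :=
  ∀ x ∈ V.carrier, ∀ v w : En M, V.P x v = v → V.P x w = w →
    fderiv ℝ V.P x v w = fderiv ℝ V.P x w v

/-- The properties of the zero order term in `IsSig`. -/
structure ThOK (V : Geo n M) (E : Bd V ι) (θ : Fin M → En M → Matrix ι ι ℂ) : Prop where
  smooth : ∀ a, ContDiff ℝ ∞ (θ a)
  herm : ∀ a, ∀ x ∈ V.carrier, (θ a x)ᴴ = θ a x
  e : ∀ a, ∀ x ∈ V.carrier, E.e x * θ a x * E.e x = θ a x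
  s : ∀ a, ∀ x ∈ V.carrier, diagonal E.s * θ a x = -(θ a x * diagonal E.s)
  tan : ∀ a, ∀ x ∈ V.carrier, ∑ c, ((V.P x (bv a) c : ℝ) : ℂ) • θ c x = θ a x

end Pool.Agent.EXO.L
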