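import Pool.Agent.EXO.LgD

/-!
# EXO / LgE : the square of the Dirac operator, reduction to second covariant derivatives (IDX-L)

`u` smooth, `Q u = u` on `V`, `v := opA u`, on `V`: `v = ∑_c cv_c 𝒟_c u + Ψ u` (`opA_eq`, `QS_opA`).
1. `opA v = ∑_b cv_b 𝒟_b v + Ψ v` and by `Db_congr` `𝒟_b v = 𝒟_b (∑_c cv_c 𝒟_c u + Ψ u)`.
2. `𝒟_b (cv_c w) = cv_c 𝒟_b w - cv (A_b e_c) w` (`Ξ_b cv_c = cv_c Ξ_b - cv(A_b e_c)` by `dLam_cv`, `cf_cv`),
   `𝒟_b (Ψ u) = Ψ 𝒟_b u + (∂_b Ψ + [Ξ_b, Ψ]) u`.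
3. `Db_Db_tan`: on `V`, `𝒟_c u = ∑_d (P e_c)_d 𝒟_d u`; apply `𝒟_b` (`Db_congr`):
   `𝒟_b 𝒟_c u = ∑_d (P_b e_c)_d 𝒟_d u + ∑_d (P e_c)_d 𝒟_b 𝒟_d u`.
   Hence `∑_c cv_c 𝒟_b 𝒟_c u = ∑_d cv(P_b e_d) 𝒟_d u + ∑_d cv(P e_d) 𝒟_b 𝒟_d u` (`P_b`, `P` symmetric).
4. `∑_c cv(A_b e_c) 𝒟_c u = ∑_c cv(A_b P e_c) 𝒟_c u = ∑_c cv(P_b P e_c) 𝒟_c u = ∑_c cv (P_b e_c) 𝒟_c u`
   (`Db_tan`, symmetry of `P`, `Ab_P`).  So `∑_c 𝒟_b (cv_c 𝒟_c u) = ∑_c cv(P e_c) 𝒟_b 𝒟_c u`.
5. Multiply by `cv_b` and sum; `contract` in `b` (the family `T_b = ∑_c cv(P e_c) 𝒟_b 𝒟_c u` is tangential in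
   `b` by `Db_tan` for the function `𝒟_c u`; also `∂_b Ψ + [Ξ_b, Ψ]`, by `td_tan`, `Xi_tan`).
6. `cv_b Ψ 𝒟_b u = - Ψ cv_b 𝒟_b u` cancels against `Ψ ∑ cv_b 𝒟_b u` in `Ψ v` (`cv_Psi`).
-/

set_option autoImplicit false
set_option maxSynthPendingDepth 3

open scoped ContDiff
open Finset Matrix

noncomputable section

namespace Pool.Agent.EXO.L

variable {n M : ℕ} {V : Geo n M} {ι : Type} [Fintype ι] [DecidableEq ι]
  {E : Bd V ι} {θ : Fin M → En M → Matrix ι ι ℂ} {x : En M}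

theorem Db_cv (hloc : V.Loc) (hx : x ∈ V.carrier) {w : En M → EH M ι} (hw : ContDiff ℝ ∞ w)
    (b c : Fin M) : Db V E b (fun y => cv (bv c) * w y) x =
      cv (bv c) * Db V E b w x - cv (Ab V b x (bv c)) * w x := by
  have h1 : td V b (fun y => (cv (bv c) : EH M ι) * w y) x = cv (bv c) * td V b w x := by
    have h := td_mul (V := V) (f := fun _ => (cv (bv c) : EH M ι)) contDiff_const hw b x
    rw [td_const, zero_mul, zero_add] at h
    exact h
  unfold Db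
  rw [h1, mul_add, ← mul_assoc (Xi V E b x)]
  have h2 : Xi V E b x * cv (bv c) = cv (bv c) * Xi V E b x - cv (Ab V b x (bv c)) := by
    unfold Xi
    rw [add_mul, sub_mul, neg_mul, dLam_cv (Ab_skew hloc hx b), cf_cv, cf_cv, mul_add, mul_sub,
      mul_neg]
    abel
  rw [h2, sub_mul, mul_assoc]
  abel

theorem Db_Psi (hθ : ThOK V E θ) {w : En M → EH M ι} (hw : ContDiff ℝ ∞ w) (b : Fin M) :
    Db V E b (fun y => Psi θ y * w y) x = Psi θ x * Db V E b w x +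
      (td V b (Psi θ) x + (Xi V E b x * Psi θ x - Psi θ x * Xi V E b x)) * w x := by
  unfold Db
  rw [td_mul (contDiff_Psi hθ) hw, mul_add, add_mul, sub_mul, ← mul_assoc, ← mul_assoc]
  abel

private theorem LgE_entry (b c d : Fin M) :
    td V b (fun y => V.P y (bv c) d) x = Pd V b x (bv c) d :=
  td_clm ((EuclideanSpace.proj (𝕜 := ℝ) d).comp (ContinuousLinearMap.apply ℝ (En M) (bv c)))
    V.smoothP b x

private theorem LgE_cd (c d : Fin M) : ContDiff ℝ ∞ (fun y => V.P y (bv c) d) :=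
  ((EuclideanSpace.proj (𝕜 := ℝ) d).comp
    (ContinuousLinearMap.apply ℝ (En M) (bv c))).contDiff.comp V.smoothP

private theorem LgE_cdC {f : En M → ℝ} (hf : ContDiff ℝ ∞ f) {g : En M → EH M ι}
    (hg : ContDiff ℝ ∞ g) : ContDiff ℝ ∞ (fun y => ((f y : ℝ) : ℂ) • g y) := hf.smul hg

theorem Db_Db_tan (hloc : V.Loc) {u : En M → EH M ι} (hu : ContDiff ℝ ∞ u) (hx : x ∈ V.carrier)
    (b c : Fin M) : Db V E b (Db V E c u) x =
      ∑ d, ((Pd V b x (bv c) d : ℝ) : ℂ) • Db V E d u x +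
      ∑ d, ((V.P x (bv c) d : ℝ) : ℂ) • Db V E b (Db V E d u) x := by
  have hcd : ∀ d ∈ (Finset.univ : Finset (Fin M)),
      ContDiff ℝ ∞ (fun y => ((V.P y (bv c) d : ℝ) : ℂ) • Db V E d u y) :=
    fun d _ => LgE_cdC (LgE_cd c d) (contDiff_Db hu d)
  have h1 : Db V E b (Db V E c u) x =
      Db V E b (fun y => ∑ d, ((V.P y (bv c) d : ℝ) : ℂ) • Db V E d u y) x :=
    Db_congr hloc (contDiff_Db hu c) (ContDiff.sum hcd) (fun y hy => (Db_tan u hy c).symm) hx b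
  have h2 : ∀ d, td V b (fun y => ((V.P y (bv c) d : ℝ) : ℂ) • Db V E d u y) x =
      ((Pd V b x (bv c) d : ℝ) : ℂ) • Db V E d u x +
      ((V.P x (bv c) d : ℝ) : ℂ) • td V b (Db V E d u) x := by
    intro d
    rw [td_smul (LgE_cd c d) (contDiff_Db hu d), LgE_entry]
  rw [h1]
  conv_lhs => unfold Db
  have h3 : td V b (fun y => ∑ d, ((V.P y (bv c) d : ℝ) : ℂ) • Db V E d u y) x =
      ∑ d, td V b (fun y => ((V.P y (bv c) d : ℝ) : ℂ) • Db V E d u y) x :=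
    td_sum Finset.univ hcd b x
  have h4 : td V b (fun y => ∑ d, ((V.P y (bv c) d : ℝ) : ℂ) • (td V d u y + Xi V E d y * u y)) x =
      ∑ d, td V b (fun y => ((V.P y (bv c) d : ℝ) : ℂ) • Db V E d u y) x := h3
  rw [h4, sum_congr rfl fun d _ => h2 d, Finset.sum_add_distrib, add_assoc]
  congr 1
  rw [Finset.mul_sum, ← Finset.sum_add_distrib]
  refine sum_congr rfl fun d _ => ?_
  rw [mul_smul_comm, ← smul_add]
  rfl

private theorem LgE_add {f g : En M → EH M ι} (hf : ContDiff ℝ ∞ f) (hg : ContDiff ℝ ∞ g)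
    (b : Fin M) : Db V E b (fun y => f y + g y) x = Db V E b f x + Db V E b g x := by
  unfold Db
  rw [td_add hf hg, mul_add]
  abel

private theorem LgE_sum {f : Fin M → En M → EH M ι} (hf : ∀ c, ContDiff ℝ ∞ (f c)) (b : Fin M) :
    Db V E b (fun y => ∑ c, f c y) x = ∑ c, Db V E b (f c) x := by
  unfold Db
  rw [td_sum Finset.univ (fun c _ => hf c), Finset.mul_sum, Finset.sum_add_distrib]

private theorem LgE_bv (l : Fin M) (v : En M) : inner ℝ (bv l : En M) v = v l := by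
  unfold bv
  rw [EuclideanSpace.inner_single_left]
  simp

private theorem LgE_exp (v : En M) : v = ∑ l, v l • (bv l : En M) := by
  ext b
  simp [bv, Pi.single_apply]

/-- contraction with a symmetric matrix -/
private theorem LgE_symm {B : En M →L[ℝ] En M} (hB : ∀ v w, inner ℝ (B v) w = inner ℝ v (B w))
    (T : Fin M → EH M ι) :
    ∑ c, cv (bv c) * ∑ d, ((B (bv c) d : ℝ) : ℂ) • T d = ∑ d, cv (B (bv d)) * T d := by
  have h1 : ∀ d, ∑ c, (B (bv c) d) • (bv c : En M) = B (bv d) := by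
    intro d
    conv_rhs => rw [LgE_exp (B (bv d))]
    refine sum_congr rfl fun c _ => ?_
    congr 1
    rw [← LgE_bv d, ← LgE_bv c, ← hB, real_inner_comm]
  have h2 : ∀ c, (cv (bv c) : EH M ι) * ∑ d, ((B (bv c) d : ℝ) : ℂ) • T d =
      ∑ d, cv ((B (bv c) d) • bv c) * T d := by
    intro c
    rw [Finset.mul_sum]
    refine sum_congr rfl fun d _ => ?_
    rw [cv_smul, mul_smul_comm, smul_mul_assoc]
  rw [sum_congr rfl fun c _ => h2 c, Finset.sum_comm]
  refine sum_congr rfl fun d _ => ?_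
  rw [← Finset.sum_mul, ← cv_sum, h1]

private theorem LgE_Db (hθ : ThOK V E θ) (hloc : V.Loc) {u : En M → EH M ι}
    (hu : ContDiff ℝ ∞ u) (hQ : QS V E u) (hx : x ∈ V.carrier) (b : Fin M) :
    Db V E b (opA V E θ u) x =
      ∑ c, cv (V.P x (bv c)) * Db V E b (Db V E c u) x + Psi θ x * Db V E b u x +
      (td V b (Psi θ) x + (Xi V E b x * Psi θ x - Psi θ x * Xi V E b x)) * u x := by
  have hc : ∀ c, ContDiff ℝ ∞ (fun y => (cv (bv c) : EH M ι) * Db V E c u y) :=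
    fun c => contDiff_const.mul (contDiff_Db hu c)
  have hs : ContDiff ℝ ∞ (fun y => ∑ c, (cv (bv c) : EH M ι) * Db V E c u y) :=
    ContDiff.sum fun c _ => hc c
  have hp : ContDiff ℝ ∞ (fun y => Psi θ y * u y) := (contDiff_Psi hθ).mul hu
  have h1 : Db V E b (opA V E θ u) x =
      Db V E b (fun y => ∑ c, (cv (bv c) : EH M ι) * Db V E c u y + Psi θ y * u y) x :=
    Db_congr hloc (contDiff_opA hθ hu) (hs.add hp) (fun y hy => opA_eq hθ hloc hu hQ hy) hx b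
  rw [h1, LgE_add hs hp, LgE_sum hc, Db_Psi hθ hu, ← add_assoc]
  congr 2
  rw [sum_congr rfl fun c _ => Db_cv hloc hx (contDiff_Db hu c) b c, Finset.sum_sub_distrib]
  have h2 : ∑ c, cv (bv c) * Db V E b (Db V E c u) x =
      ∑ d, cv (Pd V b x (bv d)) * Db V E d u x +
      ∑ d, cv (V.P x (bv d)) * Db V E b (Db V E d u) x := by
    rw [sum_congr rfl fun c _ => by rw [Db_Db_tan hloc hu hx b c, mul_add],
      Finset.sum_add_distrib, LgE_symm (Pd_sa hloc hx b) (fun d => Db V E d u x),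
      LgE_symm (V.P_sa x hx) (fun d => Db V E b (Db V E d u) x)]
  have h3 : ∑ c, cv (Ab V b x (bv c)) * Db V E c u x =
      ∑ d, cv (Pd V b x (bv d)) * Db V E d u x := by
    have h4 := LgD_contr hx (fun v => (cv (Ab V b x v) : EH M ι))
      (fun g => by rw [map_sum, cv_sum]) (fun r v => by rw [map_smul, cv_smul])
      (fun c => Db V E c u x) (Db_tan u hx)
    have h5 := LgD_contr hx (fun v => (cv (Pd V b x v) : EH M ι))
      (fun g => by rw [map_sum, cv_sum]) (fun r v => by rw [map_smul, cv_smul])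
      (fun c => Db V E c u x) (Db_tan u hx)
    rw [h4, h5]
    refine sum_congr rfl fun c _ => ?_
    rw [Ab_P hloc hx b]
  rw [h2, h3, add_sub_cancel_left]

theorem opA_opA (hθ : ThOK V E θ) (hloc : V.Loc) {u : En M → EH M ι} (hu : ContDiff ℝ ∞ u)
    (hQ : QS V E u) (hx : x ∈ V.carrier) :
    opA V E θ (opA V E θ u) x =
      ∑ b, ∑ c, cv (V.P x (bv b)) * cv (V.P x (bv c)) * Db V E b (Db V E c u) x +
      ∑ b, cv (V.P x (bv b)) *
        (td V b (Psi θ) x + (Xi V E b x * Psi θ x - Psi θ x * Xi V E b x)) * u x +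
      Psi θ x * Psi θ x * u x := by
  rw [opA_eq hθ hloc (contDiff_opA hθ hu) (QS_opA hθ hloc hu hQ) hx,
    sum_congr rfl fun b _ => by rw [LgE_Db hθ hloc hu hQ hx b, mul_add, mul_add]]
  rw [Finset.sum_add_distrib, Finset.sum_add_distrib]
  have h1 : ∑ b, cv (bv b) * ∑ c, cv (V.P x (bv c)) * Db V E b (Db V E c u) x =
      ∑ b, ∑ c, cv (V.P x (bv b)) * cv (V.P x (bv c)) * Db V E b (Db V E c u) x := by
    rw [contract hx (fun b => ∑ c, cv (V.P x (bv c)) * Db V E b (Db V E c u) x) ?_]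
    · refine sum_congr rfl fun b _ => ?_
      rw [Finset.mul_sum]
      exact sum_congr rfl fun c _ => (mul_assoc _ _ _).symm
    · intro b
      show ∑ a, ((V.P x (bv b) a : ℝ) : ℂ) • ∑ c, cv (V.P x (bv c)) * Db V E a (Db V E c u) x =
        ∑ c, cv (V.P x (bv c)) * Db V E b (Db V E c u) x
      have h2 : ∀ a, ((V.P x (bv b) a : ℝ) : ℂ) •
          (∑ c, cv (V.P x (bv c)) * Db V E a (Db V E c u) x : EH M ι) =
          ∑ c, cv (V.P x (bv c)) * (((V.P x (bv b) a : ℝ) : ℂ) • Db V E a (Db V E c u) x) := by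
        intro a
        rw [Finset.smul_sum]
        exact sum_congr rfl fun c _ => (mul_smul_comm _ _ _).symm
      rw [sum_congr rfl fun a _ => h2 a, Finset.sum_comm]
      refine sum_congr rfl fun c _ => ?_
      rw [← Finset.mul_sum, Db_tan (Db V E c u) hx b]
  have h3 : ∑ b, cv (bv b) * ((td V b (Psi θ) x +
      (Xi V E b x * Psi θ x - Psi θ x * Xi V E b x)) * u x) =
      ∑ b, cv (V.P x (bv b)) *
        (td V b (Psi θ) x + (Xi V E b x * Psi θ x - Psi θ x * Xi V E b x)) * u x := by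
    rw [contract hx (fun b => (td V b (Psi θ) x +
      (Xi V E b x * Psi θ x - Psi θ x * Xi V E b x)) * u x) ?_]
    · exact sum_congr rfl fun b _ => (mul_assoc _ _ _).symm
    · intro b
      show ∑ a, ((V.P x (bv b) a : ℝ) : ℂ) • ((td V a (Psi θ) x +
        (Xi V E a x * Psi θ x - Psi θ x * Xi V E a x)) * u x) =
        (td V b (Psi θ) x + (Xi V E b x * Psi θ x - Psi θ x * Xi V E b x)) * u x
      rw [← td_tan (Psi θ : En M → EH M ι) hx b, ← Xi_tan E hx b]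
      simp only [add_mul, sub_mul, Finset.sum_mul, Finset.mul_sum, smul_add, smul_sub,
        Finset.sum_add_distrib, Finset.sum_sub_distrib, smul_mul_assoc, mul_smul_comm]
      rfl
  have h4 : ∑ b, cv (bv b) * (Psi θ x * Db V E b u x) =
      -(Psi θ x * ∑ b, cv (bv b) * Db V E b u x) := by
    rw [Finset.mul_sum, ← Finset.sum_neg_distrib]
    refine sum_congr rfl fun b _ => ?_
    rw [← mul_assoc, cv_Psi, neg_mul, mul_assoc]
  rw [h1, h3, h4, opA_eq hθ hloc hu hQ hx, mul_add, ← mul_assoc (Psi θ x) (Psi θ x)]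
  abel

end Pool.Agent.EXO.L
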