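import Pool.Agent.EXO.LgD

/-!
# EXO / LgF : symmetrization and the curvature of the trivial gauge (IDX-L)

1. `sym_part`: `cv(Pe_b) cv(Pe_c) = -⟨Pe_b, Pe_c⟩ + ½ [cv(Pe_b), cv(Pe_c)]`, so
   `∑ cv(Pe_b) cv(Pe_c) T_bc = -∑_bc ⟨Pe_b, Pe_c⟩ T_bc + ½ ∑ cv(Pe_b) cv(Pe_c) (T_bc - T_cb)` for any family
   `T` (relabel).  With `T_bc = 𝒟_b 𝒟_c u`: `∑_bc ⟨Pe_b, Pe_c⟩ 𝒟_b 𝒟_c u = ∑_c 𝒟_c 𝒟_c u` by
   `Db_tan` (`⟨Pe_b, Pe_c⟩ = (P e_c)_b`).
2. `𝒟_b 𝒟_c u - 𝒟_c 𝒟_b u = (∂_b∂_c - ∂_c∂_b) u + (∂_b Ξ_c - ∂_c Ξ_b + [Ξ_b, Ξ_c]) u` (Leibniz rule), and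
   `(∂_b∂_c - ∂_c∂_b) u = Du(x)(P_b e_c - P_c e_b)` (`td_td`), whose contraction with
   `cv(Pe_b) cv(Pe_c)` is zero (`no_tor`): `∑_c cv(Pe_c) L(P_b e_c) = ∑_c cv(Pe_c) L(P_b P e_c)` (`contractL`)
   and `P_b P e_c = P_c P e_b` (`Pd_II`).
   In `no_tor` the map `L` is any real linear map into any real normed space of operators.
-/

set_option autoImplicit false
set_option maxSynthPendingDepth 3

open scoped ContDiff
open Finset Matrix

noncomputable section

namespace Pool.Agent.EXO.L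

variable {n M : ℕ} {V : Geo n M} {ι : Type} [Fintype ι] [DecidableEq ι]
  {E : Bd V ι} {x : En M}

private theorem gf_inner_bv (k : Fin M) (v : En M) : inner ℝ (bv k) v = v k := by
  simp [bv, EuclideanSpace.inner_single_left]

private theorem gf_sym (hx : x ∈ V.carrier) (a b : Fin M) :
    V.P x (bv a) b = V.P x (bv b) a := by
  rw [← gf_inner_bv b, ← gf_inner_bv a, ← (isPr hx).sa, real_inner_comm]

private theorem gf_cc (hx : x ∈ V.carrier) (a b : Fin M) :
    (cv (V.P x (bv a)) * cv (V.P x (bv b)) + cv (V.P x (bv b)) * cv (V.P x (bv a)) : EH M ι) =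
      -((2 * ((V.P x (bv b) a : ℝ) : ℂ)) • 1) := by
  have h := cv_cv (ι := ι) (V.P x (bv a)) (V.P x (bv b))
  have h2 : inner ℝ (V.P x (bv a)) (V.P x (bv b)) = V.P x (bv b) a := by
    rw [(isPr hx).sa, (isPr hx).idem, gf_inner_bv]
  rw [h2] at h
  rw [h]
  push_cast
  rw [neg_mul, neg_smul]

theorem sym_part (hx : x ∈ V.carrier) (T : Fin M → Fin M → EH M ι) :
    ∑ b, ∑ c, cv (V.P x (bv b)) * cv (V.P x (bv c)) * T b c =
      -(∑ b, ∑ c, ((V.P x (bv c) b : ℝ) : ℂ) • T b c) +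
      (1 / 2 : ℂ) • ∑ b, ∑ c, cv (V.P x (bv b)) * cv (V.P x (bv c)) * (T b c - T c b) := by
  have h1 : ∑ b, ∑ c, cv (V.P x (bv b)) * cv (V.P x (bv c)) * T c b =
      ∑ b, ∑ c, cv (V.P x (bv c)) * cv (V.P x (bv b)) * T b c := by
    rw [Finset.sum_comm]
  have h2 : ∑ b, ∑ c, cv (V.P x (bv b)) * cv (V.P x (bv c)) * T b c +
      ∑ b, ∑ c, cv (V.P x (bv c)) * cv (V.P x (bv b)) * T b c =
      -((2 : ℂ) • ∑ b, ∑ c, ((V.P x (bv c) b : ℝ) : ℂ) • T b c) := by
    simp only [← Finset.sum_add_distrib, Finset.smul_sum, ← Finset.sum_neg_distrib]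
    refine Finset.sum_congr rfl fun b _ => Finset.sum_congr rfl fun c _ => ?_
    rw [← add_mul, gf_cc hx b c, neg_mul, smul_mul_assoc, one_mul, smul_smul]
  simp only [mul_sub, Finset.sum_sub_distrib]
  rw [h1]
  set X := ∑ b, ∑ c, cv (V.P x (bv b)) * cv (V.P x (bv c)) * T b c with hX
  set Y := ∑ b, ∑ c, cv (V.P x (bv c)) * cv (V.P x (bv b)) * T b c with hY
  set Z := ∑ b, ∑ c, ((V.P x (bv c) b : ℝ) : ℂ) • T b c with hZ
  have h3 : Y = -((2 : ℂ) • Z) - X := by rw [← h2]; abel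
  rw [h3, sub_sub_eq_add_sub, sub_neg_eq_add, smul_add, smul_smul, ← two_smul ℂ X, smul_smul]
  norm_num

theorem no_tor (hS : SymII V) (hx : x ∈ V.carrier) (L : En M →L[ℝ] EH M ι) :
    ∑ b, ∑ c, cv (V.P x (bv b)) * cv (V.P x (bv c)) * L (Pd V b x (bv c) - Pd V c x (bv b)) = 0 := by
  have h1 : ∀ b, ∑ c, cv (V.P x (bv c)) * L (Pd V b x (bv c)) =
      ∑ c, cv (V.P x (bv c)) * L (Pd V b x (V.P x (bv c))) := fun b =>
    (contractL hx (L.comp (Pd V b x))).symm
  have h2 : ∀ c, ∑ b, cv (V.P x (bv b)) * (cv (V.P x (bv c)) * L (Pd V c x (bv b))) =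
      ∑ b, cv (V.P x (bv b)) * (cv (V.P x (bv c)) * L (Pd V c x (V.P x (bv b)))) := by
    intro c
    let L' : En M →L[ℝ] EH M ι := LinearMap.toContinuousLinearMap
      { toFun := fun v => cv (V.P x (bv c)) * L (Pd V c x v)
        map_add' := fun v w => by rw [map_add, map_add, mul_add]
        map_smul' := fun r v => by
          rw [map_smul, map_smul, RingHom.id_apply, mul_smul_comm] }
    exact (contractL hx L').symm
  have h3 : ∑ b, ∑ c, cv (V.P x (bv b)) * cv (V.P x (bv c)) * L (Pd V b x (bv c)) =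
      ∑ b, ∑ c, cv (V.P x (bv b)) * cv (V.P x (bv c)) * L (Pd V b x (V.P x (bv c))) := by
    refine Finset.sum_congr rfl fun b _ => ?_
    simp only [mul_assoc, ← Finset.mul_sum]
    rw [h1]
  have h4 : ∑ b, ∑ c, cv (V.P x (bv b)) * cv (V.P x (bv c)) * L (Pd V c x (bv b)) =
      ∑ b, ∑ c, cv (V.P x (bv b)) * cv (V.P x (bv c)) * L (Pd V c x (V.P x (bv b))) := by
    rw [Finset.sum_comm]
    conv_rhs => rw [Finset.sum_comm]
    refine Finset.sum_congr rfl fun c _ => ?_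
    simp only [mul_assoc]
    exact h2 c
  simp only [map_sub, mul_sub, Finset.sum_sub_distrib]
  rw [h3, h4, sub_eq_zero]
  refine Finset.sum_congr rfl fun b _ => Finset.sum_congr rfl fun c _ => ?_
  rw [Pd_II hS hx b c]

theorem Db_comm {u : En M → EH M ι} (hu : ContDiff ℝ ∞ u) (b c : Fin M) :
    Db V E b (Db V E c u) x - Db V E c (Db V E b u) x =
      fderiv ℝ u x (Pd V b x (bv c) - Pd V c x (bv b)) +
      (td V b (Xi V E c) x - td V c (Xi V E b) x +
        (Xi V E b x * Xi V E c x - Xi V E c x * Xi V E b x)) * u x := by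
  have h1 : ∀ b c : Fin M, Db V E b (Db V E c u) x = td V b (td V c u) x +
      (td V b (Xi V E c) x * u x + Xi V E c x * td V b u x) +
      Xi V E b x * (td V c u x + Xi V E c x * u x) := by
    intro b c
    have e : Db V E c u = fun y => td V c u y + Xi V E c y * u y := rfl
    have h2 : td V b (Db V E c u) x = td V b (td V c u) x +
        (td V b (Xi V E c) x * u x + Xi V E c x * td V b u x) := by
      rw [e, td_add (contDiff_td hu c) ((contDiff_Xi E c).mul hu),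
        td_mul (contDiff_Xi E c) hu]
    change td V b (Db V E c u) x + Xi V E b x * Db V E c u x = _
    rw [h2]
    rfl
  rw [h1 b c, h1 c b, ← td_td hu b c x]
  simp only [mul_add, add_mul, sub_mul, mul_assoc]
  abel

theorem Db_sq (hloc : V.Loc) (hS : SymII V) {u : En M → EH M ι} (hu : ContDiff ℝ ∞ u)
    (hx : x ∈ V.carrier) :
    ∑ b, ∑ c, cv (V.P x (bv b)) * cv (V.P x (bv c)) * Db V E b (Db V E c u) x =
      -(∑ b, Db V E b (Db V E b u) x) +
      (1 / 2 : ℂ) • ((∑ b, ∑ c, cv (V.P x (bv b)) * cv (V.P x (bv c)) *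
        (td V b (Xi V E c) x - td V c (Xi V E b) x +
          (Xi V E b x * Xi V E c x - Xi V E c x * Xi V E b x))) * u x) := by
  rw [sym_part hx]
  congr 1
  · congr 1
    rw [Finset.sum_comm]
    refine Finset.sum_congr rfl fun c _ => ?_
    exact Db_tan (Db V E c u) hx c
  · congr 1
    simp only [Db_comm hu, mul_add (_ * _), Finset.sum_add_distrib]
    rw [no_tor hS hx, zero_add]
    simp only [Finset.sum_mul, mul_assoc, add_mul, mul_add, Finset.sum_add_distrib]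

end Pool.Agent.EXO.L
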