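import Pool.Agent.EXO.LgF

/-!
# EXO / LgG : evaluation of the curvature (IDX-L)

Contractions `⟪T⟫ = ∑ cv(Pe_b) cv(Pe_c) T_bc` at `x ∈ V`; `u` with `Q u = u`.
`Ξ_b = -dΛ(A_b) - cf(e_b) + cf(a_b)`, `e_b = ∂_b e`, `a_b = E.A b`.
The parts `dΛ` and `cf` commute, so `[Ξ_b, Ξ_c] = dΛ([A_b, A_c]) + cf([-e_b + a_b, -e_c + a_c])`.

1. `LamPart`: `⟪-dΛ(∂_b A_c - ∂_c A_b) + dΛ([A_b,A_c])⟫ = ⟪dΛ([P_b,P_c])⟫`:
   `A_c = P_c P - P P_c` as functions, so `∂_b A_c = (∂_b P_c) P + P_c P_b - P_b P_c - P (∂_b P_c)`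
   (here `∂_b P_c = td V b (Pd V c)`), `∂_b A_c - ∂_c A_b = [(∂_b P_c - ∂_c P_b), P] - 2 [P_b, P_c]`, and
   `⟪(∂_b P_c - ∂_c P_b)⟫`-terms vanish by `no_tor` (`td_td` for `f = V.P`:
   `∂_b P_c - ∂_c P_b = DP(x)(P_b e_c - P_c e_b)`, `L w = dΛ([DP(x) w, P])`).
   `[A_b, A_c] = -[P_b, P_c]`: from `P_b P + P P_b = P_b`, `P P_b P = 0`:
   `A_b A_c = (P_b P - P P_b)(P_c P - P P_c) = -P_b P P_c - P P_b P_c P` and `P_b P_c` commutes with `P`
   (`P_b P_c P = P_b (1-P) P_c = P P_b P_c`), `P_b P P_c = (1-P) P_b P_c`, so `A_b A_c = -P_b P_c`.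
2. `[P_b, P_c] = P[P_b,P_c]P + (1-P)[P_b,P_c](1-P) = R_bc + N`, `N P = 0`, so
   `dΛ(N) u = dΛ(N) Λ(P) u = 0` (`dLam_nor`).
3. `cfPart`: for `K_bc = -(∂_b e_c - ∂_c e_b) + (∂_b a_c - ∂_c a_b) + [-e_b + a_b, -e_c + a_c]`:
   `⟪cf (∂_b e_c - ∂_c e_b)⟫ = 0` by `no_tor`.  Put
   `K'_bc = (∂_b a_c - ∂_c a_b) + [e_b,e_c] - [e_b,a_c] - [a_b,e_c] + [a_b,a_c]`.  Then
   `e K' e = F_bc` (`e e_b e = 0`, `a = e a e`, so the mixed terms vanish) and `(1-e) K' e = 0`:
   `(1-e)(∂_b a_c) e = e_b a_c` (differentiate `e a_c = a_c` on `V`: `td_congr`), `(1-e)[e_b,e_c] e = 0`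
   (`e_b e_c` commutes with `e`), `(1-e)(-e_b a_c + a_c e_b - a_b e_c + e_c a_b) e = -e_b a_c + e_c a_b`.
   So `K' e = F_bc e = F_bc`, and `cf(K') u = cf(K') cf(e) u = cf(F_bc) u`.
   (`F_bc e = F_bc` because each term of `Fbc` ends with `e`.)
-/

set_option autoImplicit false
set_option maxSynthPendingDepth 3

open scoped ContDiff
open Finset Matrix

noncomputable section

namespace Pool.Agent.EXO.L

variable {n M : ℕ} {V : Geo n M} {ι : Type} [Fintype ι] [DecidableEq ι]
  {E : Bd V ι} {x : En M}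

private theorem gg_AA {R : Type*} [Ring R] {p a b : R} (h1 : a * p = a - p * a)
    (h2 : b * p = b - p * b) (h3 : p * a * p = 0) (h4 : p * b * p = 0) (hp : p * p = p) :
    (a * p - p * a) * (b * p - p * b) = -(a * b) := by
  have e1 : (a * p - p * a) * (b * p - p * b) =
      a * (p * b * p) - a * (p * p) * b - p * a * (b * p) + p * a * p * b := by noncomm_ring
  rw [e1, h3, h4, hp, h1, h2]
  have e2 : p * a * (b - p * b) = p * a * b - p * a * p * b := by noncomm_ring
  rw [e2, h3]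
  noncomm_ring

theorem AA (hloc : V.Loc) (hx : x ∈ V.carrier) (b c : Fin M) :
    Ab V b x * Ab V c x = -(Pd V b x * Pd V c x) := by
  have hp : V.P x * V.P x = V.P x := by
    ext1 v
    exact (isPr hx).idem v
  unfold Ab
  exact gg_AA (eq_sub_of_add_eq (Pd_idem hloc hx b)) (eq_sub_of_add_eq (Pd_idem hloc hx c))
    (P_Pd_P hloc hx b) (P_Pd_P hloc hx c) hp

private theorem gg_tdA (b c : Fin M) :
    td V b (Ab V c) x = (td V b (Pd V c) x * V.P x + Pd V c x * Pd V b x) -
      (Pd V b x * Pd V c x + V.P x * td V b (Pd V c) x) := by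
  have e : Ab V c = fun y => Pd V c y * V.P y - V.P y * Pd V c y := rfl
  rw [e, td_sub ((contDiff_Pd c).mul V.smoothP) (V.smoothP.mul (contDiff_Pd c)),
    td_comp (contDiff_Pd c) V.smoothP, td_comp V.smoothP (contDiff_Pd c)]
  rfl

theorem LamPart (hloc : V.Loc) (hS : SymII V) (hx : x ∈ V.carrier) :
    ∑ b, ∑ c, cv (V.P x (bv b)) * cv (V.P x (bv c)) *
      (dLam (-(td V b (Ab V c) x - td V c (Ab V b) x) +
        (Ab V b x * Ab V c x - Ab V c x * Ab V b x)) : EH M ι) =
    ∑ b, ∑ c, cv (V.P x (bv b)) * cv (V.P x (bv c)) *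
      dLam (Pd V b x * Pd V c x - Pd V c x * Pd V b x) := by
  obtain ⟨Lc, hLc⟩ := dLam_clm (M := M) (ι := ι)
  let L : En M →L[ℝ] EH M ι := LinearMap.toContinuousLinearMap
    { toFun := fun w => Lc (-(fderiv ℝ V.P x w * V.P x - V.P x * fderiv ℝ V.P x w))
      map_add' := fun v w => by
        rw [← map_add]
        congr 1
        rw [map_add]
        noncomm_ring
      map_smul' := fun r v => by
        rw [RingHom.id_apply, ← map_smul]
        congr 1
        rw [map_smul, smul_mul_assoc, mul_smul_comm, ← smul_sub, smul_neg] }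
  have hL : ∀ w, L w = dLam (-(fderiv ℝ V.P x w * V.P x - V.P x * fderiv ℝ V.P x w)) :=
    fun w => hLc _
  have h1 : ∀ b c : Fin M, (dLam (-(td V b (Ab V c) x - td V c (Ab V b) x) +
        (Ab V b x * Ab V c x - Ab V c x * Ab V b x)) : EH M ι) =
      L (Pd V b x (bv c) - Pd V c x (bv b)) +
        dLam (Pd V b x * Pd V c x - Pd V c x * Pd V b x) := by
    intro b c
    rw [hL, ← dLam_add]
    congr 1
    have h2 := td_td (V := V) V.smoothP b c x
    have h3 : td V b (Pd V c) x - td V c (Pd V b) x =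
        fderiv ℝ V.P x (Pd V b x (bv c) - Pd V c x (bv b)) := h2
    rw [← h3, AA hloc hx, AA hloc hx, gg_tdA, gg_tdA]
    noncomm_ring
  simp only [h1, mul_add, Finset.sum_add_distrib]
  rw [no_tor hS hx, zero_add]

theorem dLam_Rr (hloc : V.Loc) (hx : x ∈ V.carrier) (b c : Fin M) :
    (dLam (Pd V b x * Pd V c x - Pd V c x * Pd V b x) * Lam (V.P x) : EH M ι) =
      dLam (Rr V b c x) * Lam (V.P x) := by
  have hp : V.P x * V.P x = V.P x := by
    ext1 v
    exact (isPr hx).idem v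
  have h1 : ∀ b c : Fin M, Pd V b x * Pd V c x * V.P x = V.P x * (Pd V b x * Pd V c x) := by
    intro b c
    have hb := eq_sub_of_add_eq (Pd_idem hloc hx b)
    have hc := eq_sub_of_add_eq (Pd_idem hloc hx c)
    rw [mul_assoc, hc, mul_sub, ← mul_assoc, hb]
    noncomm_ring
  rw [← sub_eq_zero, ← sub_mul, ← dLam_sub]
  refine dLam_nor fun v => ?_
  have h2 : (Pd V b x * Pd V c x - Pd V c x * Pd V b x - Rr V b c x) * V.P x = 0 := by
    unfold Rr
    have e1 : (Pd V b x * Pd V c x - Pd V c x * Pd V b x -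
        V.P x * (Pd V b x * Pd V c x - Pd V c x * Pd V b x) * V.P x) * V.P x =
        (Pd V b x * Pd V c x * V.P x - Pd V c x * Pd V b x * V.P x) -
        V.P x * (Pd V b x * Pd V c x - Pd V c x * Pd V b x) * (V.P x * V.P x) := by
      noncomm_ring
    rw [e1, hp, h1 b c, h1 c b]
    have e2 : V.P x * (Pd V b x * Pd V c x - Pd V c x * Pd V b x) * V.P x =
        V.P x * (Pd V b x * Pd V c x * V.P x - Pd V c x * Pd V b x * V.P x) := by
      noncomm_ring
    rw [e2, h1 b c, h1 c b]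
    have e3 : V.P x * (V.P x * (Pd V b x * Pd V c x) - V.P x * (Pd V c x * Pd V b x)) =
        (V.P x * V.P x) * (Pd V b x * Pd V c x - Pd V c x * Pd V b x) := by
      noncomm_ring
    rw [e3, hp]
    noncomm_ring
  exact DFunLike.congr_fun h2 v

private theorem gg_cf {R : Type*} [Ring R] {e eb ec ab ac db dc : R} (he : e * e = e)
    (h1 : eb * e = eb - e * eb) (h2 : ec * e = ec - e * ec) (h3 : e * eb * e = 0)
    (h4 : e * ec * e = 0) (h6 : ab * e = ab)
    (h8 : ac * e = ac) (h9 : dc = eb * ac + e * dc) (h10 : db = ec * ab + e * db) :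
    ((dc - db) + ((eb * ec - ec * eb) - (eb * ac - ac * eb) - (ab * ec - ec * ab) +
      (ab * ac - ac * ab))) * e =
    e * (eb * ec - ec * eb) * e + e * (dc - db) * e + (ab * ac - ac * ab) := by
  have e1 : (dc - db) * e = eb * ac - ec * ab + e * (dc - db) * e := by
    have e2 : (dc - db) * e = (eb * (ac * e) - ec * (ab * e)) + e * (dc - db) * e := by
      calc (dc - db) * e = ((eb * ac + e * dc) - (ec * ab + e * db)) * e := by rw [← h9, ← h10]
        _ = _ := by noncomm_ring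
    rw [e2, h8, h6]
  have e3 : (eb * ec - ec * eb) * e = e * (eb * ec - ec * eb) := by
    have e4 : eb * ec * e = e * (eb * ec) := by
      rw [mul_assoc, h2, mul_sub, ← mul_assoc, h1]
      noncomm_ring
    have e5 : ec * eb * e = e * (ec * eb) := by
      rw [mul_assoc, h1, mul_sub, ← mul_assoc, h2]
      noncomm_ring
    rw [sub_mul, e4, e5, mul_sub]
  have e6 : e * (eb * ec - ec * eb) * e = (eb * ec - ec * eb) * e := by
    rw [← e3, mul_assoc, he]
  have e7 : ac * eb * e = 0 := by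
    rw [← h8, mul_assoc, mul_assoc, ← mul_assoc e, h3, mul_zero]
  have e8 : ab * ec * e = 0 := by
    rw [← h6, mul_assoc, mul_assoc, ← mul_assoc e, h4, mul_zero]
  have e9 : ((dc - db) + ((eb * ec - ec * eb) - (eb * ac - ac * eb) - (ab * ec - ec * ab) +
      (ab * ac - ac * ab))) * e = (dc - db) * e + (eb * ec - ec * eb) * e - eb * (ac * e) +
      ac * eb * e - ab * ec * e + ec * (ab * e) + (ab * (ac * e) - ac * (ab * e)) := by
    noncomm_ring
  rw [e9, e1, e7, e8, h6, h8, e6]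
  abel

private theorem gg_matmul {f g : En M → Matrix ι ι ℂ} (hf : ContDiff ℝ ∞ f)
    (hg : ContDiff ℝ ∞ g) : ContDiff ℝ ∞ (fun y => f y * g y) := by
  have h1 : ∀ {h : En M → Matrix ι ι ℂ}, ContDiff ℝ ∞ h → ∀ i j,
      ContDiff ℝ ∞ (fun y => h y i j) := fun {h} hh i j =>
    contDiff_pi.1 (contDiff_pi.1 (show ContDiff ℝ ∞ (fun y i j => h y i j) from hh) i) j
  refine contDiff_pi.2 fun i => contDiff_pi.2 fun j => ?_
  simp only [Matrix.mul_apply]
  exact ContDiff.sum fun k _ => (h1 hf i k).mul (h1 hg k j)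

theorem cfPart (hloc : V.Loc) (E : Bd V ι) (hx : x ∈ V.carrier) (b c : Fin M) :
    ((td V b (E.A c) x - td V c (E.A b) x) +
      ((td V b E.e x * td V c E.e x - td V c E.e x * td V b E.e x) -
        (td V b E.e x * E.A c x - E.A c x * td V b E.e x) -
        (E.A b x * td V c E.e x - td V c E.e x * E.A b x) +
        (E.A b x * E.A c x - E.A c x * E.A b x))) * E.e x = Fbc V E b c x := by
  have h9 : ∀ b c : Fin M, td V b (E.A c) x =
      td V b E.e x * E.A c x + E.e x * td V b (E.A c) x := by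
    intro b c
    rw [← td_matmul E.smooth_e (E.smooth_A c)]
    refine td_congr hloc (E.smooth_A c) ?_ (fun y hy => (e_A_left E hy c).symm) b hx
    exact gg_matmul E.smooth_e (E.smooth_A c)
  unfold Fbc
  exact gg_cf (E.e_idem x hx) (eq_sub_of_add_eq (ed_idem hloc E hx b))
    (eq_sub_of_add_eq (ed_idem hloc E hx c)) (e_ed_e hloc E hx b) (e_ed_e hloc E hx c)
    (e_A_right E hx b) (e_A_right E hx c) (h9 b c) (h9 c b)

private theorem gg_tdXi (E : Bd V ι) (b c : Fin M) :
    td V b (Xi V E c) x = -(dLam (td V b (Ab V c) x)) - cf (td V b (td V c E.e) x) +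
      cf (td V b (E.A c) x) := by
  have hAb : ContDiff ℝ ∞ (Ab V c) :=
    ((contDiff_Pd c).mul V.smoothP).sub (V.smoothP.mul (contDiff_Pd c))
  have he : ContDiff ℝ ∞ (td V c E.e) := contDiff_td E.smooth_e c
  obtain ⟨Ld, hLd⟩ := dLam_clm (M := M) (ι := ι)
  obtain ⟨Lc, hLc⟩ := cf_clm (M := M) (ι := ι)
  have h1 : ContDiff ℝ ∞ (fun y => (dLam (Ab V c y) : EH M ι)) := by
    simp only [← hLd]
    exact Ld.contDiff.comp hAb
  have h2 : ContDiff ℝ ∞ (fun y => (cf (td V c E.e y) : EH M ι)) := by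
    simp only [← hLc]
    exact Lc.contDiff.comp he
  have h3 : ContDiff ℝ ∞ (fun y => (cf (E.A c y) : EH M ι)) := by
    simp only [← hLc]
    exact Lc.contDiff.comp (E.smooth_A c)
  have e : Xi V E c = fun y => ((0 : EH M ι) - dLam (Ab V c y)) - cf (td V c E.e y) +
      cf (E.A c y) := by
    funext y
    unfold Xi
    rw [zero_sub]
  rw [e, td_add ((contDiff_const.sub h1).sub h2) h3, td_sub (contDiff_const.sub h1) h2,
    td_sub contDiff_const h1, td_const, td_dLam hAb, td_cf he, td_cf (E.smooth_A c), zero_sub]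

theorem curv_eval (hloc : V.Loc) (hS : SymII V) (hx : x ∈ V.carrier) {u : En M → EH M ι}
    (hQ : QS V E u) :
    (∑ b, ∑ c, cv (V.P x (bv b)) * cv (V.P x (bv c)) *
        (td V b (Xi V E c) x - td V c (Xi V E b) x +
          (Xi V E b x * Xi V E c x - Xi V E c x * Xi V E b x))) * u x =
    (∑ b, ∑ c, cv (V.P x (bv b)) * cv (V.P x (bv c)) *
        (dLam (Rr V b c x) + cf (Fbc V E b c x))) * u x := by
  obtain ⟨Lc, hLc⟩ := cf_clm (M := M) (ι := ι)
  let L : En M →L[ℝ] EH M ι := -(Lc.comp (fderiv ℝ E.e x))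
  have hL : ∀ w, L w = -(cf (fderiv ℝ E.e x w)) := fun w => by
    rw [← hLc]
    rfl
  -- the cf part
  let K : Fin M → Fin M → Matrix ι ι ℂ := fun b c =>
    (td V b (E.A c) x - td V c (E.A b) x) +
      ((td V b E.e x * td V c E.e x - td V c E.e x * td V b E.e x) -
        (td V b E.e x * E.A c x - E.A c x * td V b E.e x) -
        (E.A b x * td V c E.e x - td V c E.e x * E.A b x) +
        (E.A b x * E.A c x - E.A c x * E.A b x))
  have hcomm : ∀ b c : Fin M, Xi V E b x * Xi V E c x - Xi V E c x * Xi V E b x =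
      dLam (Ab V b x * Ab V c x - Ab V c x * Ab V b x) +
        cf ((td V b E.e x * td V c E.e x - td V c E.e x * td V b E.e x) -
        (td V b E.e x * E.A c x - E.A c x * td V b E.e x) -
        (E.A b x * td V c E.e x - td V c E.e x * E.A b x) +
        (E.A b x * E.A c x - E.A c x * E.A b x)) := by
    intro b c
    have e1 : ∀ b : Fin M, Xi V E b x = -dLam (Ab V b x) + cf (E.A b x - td V b E.e x) := by
      intro b
      unfold Xi
      rw [cf_sub]
      abel
    rw [e1 b, e1 c, ← dLam_comm]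
    have e2 : ∀ (A B : En M →L[ℝ] En M) (S T : Matrix ι ι ℂ),
        (-dLam A + cf S) * (-dLam B + cf T) - (-dLam B + cf T) * (-dLam A + cf S) =
        (dLam A * dLam B - dLam B * dLam A : EH M ι) + cf (S * T - T * S) := by
      intro A B S T
      have a1 := dLam_cf (ι := ι) A T
      have a2 := dLam_cf (ι := ι) B S
      rw [cf_sub, cf_mul, cf_mul]
      have a3 : (-dLam A + cf S) * (-dLam B + cf T) - (-dLam B + cf T) * (-dLam A + cf S) =
        (dLam A * dLam B - dLam B * dLam A : EH M ι) + (cf S * cf T - cf T * cf S) -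
        (dLam A * cf T - cf T * dLam A) + (dLam B * cf S - cf S * dLam B) := by
        noncomm_ring
      rw [a3, a1, a2]
      abel
    rw [e2]
    congr 2
    noncomm_ring
  have h1 : ∀ b c : Fin M, td V b (Xi V E c) x - td V c (Xi V E b) x +
          (Xi V E b x * Xi V E c x - Xi V E c x * Xi V E b x) =
      dLam (-(td V b (Ab V c) x - td V c (Ab V b) x) +
        (Ab V b x * Ab V c x - Ab V c x * Ab V b x)) +
      L (Pd V b x (bv c) - Pd V c x (bv b)) + cf (K b c) := by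
    intro b c
    have h2 : td V b (td V c E.e) x - td V c (td V b E.e) x =
        fderiv ℝ E.e x (Pd V b x (bv c) - Pd V c x (bv b)) := td_td (V := V) E.smooth_e b c x
    have hK : (cf (K b c) : EH M ι) = (cf (td V b (E.A c) x) - cf (td V c (E.A b) x)) +
        cf ((td V b E.e x * td V c E.e x - td V c E.e x * td V b E.e x) -
        (td V b E.e x * E.A c x - E.A c x * td V b E.e x) -
        (E.A b x * td V c E.e x - td V c E.e x * E.A b x) +
        (E.A b x * E.A c x - E.A c x * E.A b x)) := by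
      rw [← cf_sub, ← cf_add]
    have hD : ∀ X Y Z : En M →L[ℝ] En M, (dLam (-(X - Y) + Z) : EH M ι) =
        -(dLam X - dLam Y) + dLam Z := fun X Y Z => by
      rw [dLam_add, dLam_neg, dLam_sub]
    rw [hcomm, gg_tdXi, gg_tdXi, hL, ← h2, hD, hK, cf_sub (td V b (td V c E.e) x)]
    abel
  simp only [h1, mul_add, Finset.sum_add_distrib]
  rw [LamPart hloc hS hx, no_tor hS hx, add_zero, add_mul, add_mul]
  congr 1
  · rw [← Lam_QS hx hQ]
    simp only [Finset.sum_mul, ← mul_assoc]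
    refine Finset.sum_congr rfl fun b _ => Finset.sum_congr rfl fun c _ => ?_
    rw [mul_assoc (cv (V.P x (bv b)) * cv (V.P x (bv c))), dLam_Rr hloc hx]
    simp only [mul_assoc]
  · rw [← e_QS hx hQ]
    simp only [Finset.sum_mul, ← mul_assoc]
    refine Finset.sum_congr rfl fun b _ => Finset.sum_congr rfl fun c _ => ?_
    have e1 : (cf (K b c) * cf (E.e x) : EH M ι) = cf (Fbc V E b c x) * cf (E.e x) := by
      rw [← cf_mul, ← cf_mul, cfPart hloc E hx b c]
      congr 1
      have e2 : Fbc V E b c x * E.e x = Fbc V E b c x := by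
        rw [← cfPart hloc E hx b c, mul_assoc, E.e_idem x hx]
      exact e2.symm
    rw [mul_assoc (cv (V.P x (bv b)) * cv (V.P x (bv c))), e1]
    simp only [mul_assoc]

end Pool.Agent.EXO.L
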