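import Pool.Agent.EXO.LgD

/-!
# EXO / LgH : the Bianchi identity and the quartic Clifford term (IDX-L)

At `x ∈ V` put `R_{bc,kl} = ⟨e_k, R_bc e_l⟩`, `c_b = cv(P e_b)`, `c_b c_c + c_c c_b = -2 P_bc`.

1. Gauss: `P_b P` maps into the kernel of `P` and `R_{bc,kl} = ⟨II(b,k), II(c,l)⟩ - ⟨II(b,l), II(c,k)⟩` with
   `II(b,k) = P_b P e_k` symmetric in `b, k` (`Pd_II`): `⟨e_k, P P_b P_c P e_l⟩ = ⟨P_b P e_k, P_c P e_l⟩`.
   Consequences: antisymmetry in `(b,c)` and in `(k,l)`, pair symmetry `R_{bc,kl} = R_{kl,bc}`, the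
   cyclic identity `R_{bc,kl} + R_{ck,bl} + R_{kb,cl} = 0`; all indices tangential:
   `∑_b P_ab R_{bc,kl} = R_{ac,kl}` (linearity of `P_b` in `b`: `Pd_tan`) etc.
2. For fixed `l` let `S_l = ∑_{bck} R_{bc,kl} c_b c_c c_k`.  Relabel cyclically and use
   `c_c c_k c_b = c_b c_c c_k + 2 P_bc c_k - 2 P_kb c_c`,
   `c_k c_b c_c = c_b c_c c_k + 2 P_ck c_b - 2 P_kb c_c`: so
   `3 S_l = ∑ (R_{bc,kl} + R_{ck,bl} + R_{kb,cl}) c_b c_c c_k + (terms ∑ R_{ck,bl}(2 P_bc c_k - 2 P_kb c_c)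
   + ∑ R_{kb,cl} (2 P_ck c_b - 2 P_kb c_c))`; the first sum is `0`; with
   `Ric_{cl} := ∑_b R_{cb,bl}` (`P_bc` contracts, tangential): `∑ R_{ck,bl} P_bc c_k = ∑_k (∑_b R_{bk,bl}) c_k = -Ric..`;
   altogether `S_l = const ∑_k Ric_{kl} c_k`; please recompute the constant: with
   `r_{kl} := ∑_b R_{bk,bl}` (symmetric in `k,l` by pair symmetry):
   `∑ R_{ck,bl} P_bc c_k = ∑_k r_{kl} c_k`, `∑ R_{ck,bl} P_kb c_c = ∑_{c,b} R_{cb,bl} c_c = -∑ r_{cl} c_c`,
   `∑ R_{kb,cl} P_ck c_b = ∑ r_{bl} c_b`, `∑ R_{kb,cl} P_kb = 0`.  So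
   `3 S_l = 2∑ r_{kl} c_k + 2 ∑ r_{kl} c_k + 2 ∑ r_{kl} c_k = 6 ∑_k r_{kl} c_k`, `S_l = 2 ∑_k r_{kl} c_k`.
3. `∑ R_{bc,kl} c_b c_c c_k c_l = ∑_l S_l c_l = 2 ∑_{kl} r_{kl} c_k c_l = -2 ∑_k r_kk = -2 ∑_{bk} R_{bk,bk}`.
4. `dΛ(R_bc) = ¼ ∑_kl R_{bc,kl} (hv_k hv_l - cv_k cv_l)` (`dLam_quad`; `R_bc` is skew), and
   `∑_kl R_{bc,kl} cv_k cv_l = ∑_kl R_{bc,kl} c_k c_l` (tangential).  So
   `½ ∑ c_b c_c dΛ(R_bc) = ½ ∑ c_b c_c ¼ ∑ R_{bc,kl} hv_k hv_l - ⅛ (-2 ∑ R_{bk,bk})`, and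
   `¼ ∑ R_{bk,bk} = rho`.
-/

set_option autoImplicit false
set_option maxSynthPendingDepth 3

open scoped ContDiff
open Finset Matrix

noncomputable section

namespace Pool.Agent.EXO.L

variable {n M : ℕ} {V : Geo n M} {ι : Type} [Fintype ι] [DecidableEq ι]
  {E : Bd V ι} {x : En M}

/-- The components of the curvature. -/
def Rc (V : Geo n M) (x : En M) (b c k l : Fin M) : ℝ := inner ℝ (bv k) (Rr V b c x (bv l))

private theorem gh_Rr_apply (b c : Fin M) (v : En M) :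
    Rr V b c x v = V.P x (Pd V b x (Pd V c x (V.P x v)) - Pd V c x (Pd V b x (V.P x v))) := rfl

private theorem gh_inner_bv (k : Fin M) (v : En M) : inner ℝ (bv k) v = v k := by
  simp [bv, EuclideanSpace.inner_single_left]

theorem Rc_gauss (hloc : V.Loc) (hx : x ∈ V.carrier) (b c k l : Fin M) :
    Rc V x b c k l = inner ℝ (Pd V b x (V.P x (bv k))) (Pd V c x (V.P x (bv l))) -
      inner ℝ (Pd V b x (V.P x (bv l))) (Pd V c x (V.P x (bv k))) := by
  unfold Rc
  rw [gh_Rr_apply, ← (isPr hx).sa, inner_sub_right,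
    ← Pd_sa hloc hx b (V.P x (bv k)) (Pd V c x (V.P x (bv l))),
    ← Pd_sa hloc hx c (V.P x (bv k)) (Pd V b x (V.P x (bv l))),
    real_inner_comm (Pd V b x (V.P x (bv l))) (Pd V c x (V.P x (bv k)))]

theorem Rc_anti (b c k l : Fin M) : Rc V x b c k l = -Rc V x c b k l := by
  unfold Rc
  rw [gh_Rr_apply, gh_Rr_apply, ← inner_neg_right, ← map_neg, neg_sub]

theorem Rc_anti' (hloc : V.Loc) (hx : x ∈ V.carrier) (b c k l : Fin M) :
    Rc V x b c k l = -Rc V x b c l k := by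
  rw [Rc_gauss hloc hx, Rc_gauss hloc hx]
  ring

theorem Rc_pair (hloc : V.Loc) (hS : SymII V) (hx : x ∈ V.carrier) (b c k l : Fin M) :
    Rc V x b c k l = Rc V x k l b c := by
  rw [Rc_gauss hloc hx, Rc_gauss hloc hx, Pd_II hS hx k b, Pd_II hS hx l c, Pd_II hS hx k c,
    Pd_II hS hx l b, real_inner_comm (Pd V b x (V.P x (bv l))) (Pd V c x (V.P x (bv k)))]

theorem Rc_cyc (hloc : V.Loc) (hS : SymII V) (hx : x ∈ V.carrier) (b c k l : Fin M) :
    Rc V x b c k l + Rc V x c k b l + Rc V x k b c l = 0 := by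
  rw [Rc_gauss hloc hx, Rc_gauss hloc hx, Rc_gauss hloc hx, Pd_II hS hx c b, Pd_II hS hx k b,
    Pd_II hS hx k c, real_inner_comm (Pd V b x (V.P x (bv k))) (Pd V c x (V.P x (bv l))),
    real_inner_comm (Pd V b x (V.P x (bv l))) (Pd V c x (V.P x (bv k))),
    real_inner_comm (Pd V b x (V.P x (bv c))) (Pd V k x (V.P x (bv l)))]
  ring

private theorem gh_Rr_sum (hx : x ∈ V.carrier) (a c : Fin M) :
    ∑ b, (V.P x (bv a) b) • Rr V b c x = Rr V a c x := by
  unfold Rr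
  rw [← Pd_tan hx a]
  simp only [Finset.sum_mul, Finset.mul_sum, mul_sub, sub_mul, smul_mul_assoc, mul_smul_comm,
    smul_sub, Finset.sum_sub_distrib]

theorem Rc_tan (hx : x ∈ V.carrier) (a c k l : Fin M) :
    ∑ b, V.P x (bv a) b * Rc V x b c k l = Rc V x a c k l := by
  unfold Rc
  rw [← gh_Rr_sum hx a c]
  simp only [_root_.sum_apply, _root_.smul_apply, inner_sum, inner_smul_right]

theorem Rc_tan' (hx : x ∈ V.carrier) (b c a l : Fin M) :
    ∑ k, V.P x (bv a) k * Rc V x b c k l = Rc V x b c a l := by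
  unfold Rc
  have h1 : ∑ k, V.P x (bv a) k * inner ℝ (bv k) (Rr V b c x (bv l)) =
      inner ℝ (V.P x (bv a)) (Rr V b c x (bv l)) := by
    simp only [gh_inner_bv]
    rw [PiLp.inner_apply]
    refine Finset.sum_congr rfl fun k _ => ?_
    simp [mul_comm]
  rw [h1, (isPr hx).sa, gh_Rr_apply, (isPr hx).idem]

theorem Rr_skew (hloc : V.Loc) (hx : x ∈ V.carrier) (b c : Fin M) (v w : En M) :
    inner ℝ (Rr V b c x v) w = -inner ℝ v (Rr V b c x w) := by
  rw [gh_Rr_apply, gh_Rr_apply, (isPr hx).sa, ← (isPr hx).sa v, inner_sub_left, inner_sub_right,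
    Pd_sa hloc hx b, Pd_sa hloc hx c, Pd_sa hloc hx c, Pd_sa hloc hx b]
  ring

private theorem gh_rot {N : ℕ} {A : Type*} [AddCommMonoid A] (F : Fin N → Fin N → Fin N → A) :
    ∑ b, ∑ c, ∑ k, F c k b = ∑ b, ∑ c, ∑ k, F b c k := by
  rw [Finset.sum_comm]
  refine Finset.sum_congr rfl fun b _ => ?_
  rw [Finset.sum_comm]

private theorem gh_abs {N : ℕ} {A : Type*} [Ring A] [Algebra ℂ A] (c : Fin N → A)
    (g : Fin N → Fin N → ℂ) (R : Fin N → Fin N → Fin N → Fin N → ℂ)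
    (hg : ∀ a b, g a b = g b a) (hc : ∀ a b, c a * c b = -(c b * c a) - (2 * g a b) • 1)
    (h1 : ∀ a b k l, R a b k l = -R b a k l) (h2 : ∀ a b k l, R a b k l = R k l a b)
    (h3 : ∀ a b k l, R a b k l + R b k a l + R k a b l = 0)
    (h5 : ∀ a b k l, ∑ k', g k k' * R a b k' l = R a b k l) :
    ∑ b, ∑ d, ∑ k, ∑ l, R b d k l • (c b * c d * (c k * c l)) =
      (-2 * ∑ b, ∑ d, R b d b d) • (1 : A) := by
  -- the triple sums
  have hS : ∀ l, ∑ b, ∑ d, ∑ k, R b d k l • (c b * c d * c k) =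
      (2 : ℂ) • ∑ b, ∑ d, R b d b l • c d := by
    intro l
    have e1 : ∑ b, ∑ d, ∑ k, R b d k l • (c k * c b * c d) =
        ∑ b, ∑ d, ∑ k, R d k b l • (c b * c d * c k) :=
      (gh_rot (fun b d k => R b d k l • (c k * c b * c d))).symm
    have e2 : ∑ b, ∑ d, ∑ k, R b d k l • (c d * c k * c b) =
        ∑ b, ∑ d, ∑ k, R k b d l • (c b * c d * c k) := by
      rw [← gh_rot (fun b d k => R b d k l • (c d * c k * c b)),
        ← gh_rot (fun b d k => R d k b l • (c k * c b * c d))]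
    have e3 : ∑ b, ∑ d, ∑ k, R b d k l • (c b * c d * c k) +
        ∑ b, ∑ d, ∑ k, R b d k l • (c k * c b * c d) +
        ∑ b, ∑ d, ∑ k, R b d k l • (c d * c k * c b) = 0 := by
      rw [e1, e2]
      simp only [← Finset.sum_add_distrib, ← add_smul, h3, zero_smul, Finset.sum_const_zero]
    have e4 : ∀ b d k, c k * c b * c d =
        c b * c d * c k + (2 * g k d) • c b - (2 * g k b) • c d := by
      intro b d k
      rw [hc k b, sub_mul, neg_mul, mul_assoc, hc k d, smul_mul_assoc, one_mul, mul_sub, mul_neg,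
        mul_smul_comm, mul_one, ← mul_assoc]
      abel
    have e5 : ∀ b d k, c d * c k * c b =
        c b * c d * c k + (2 * g b d) • c k - (2 * g k b) • c d := by
      intro b d k
      rw [mul_assoc, hc k b, mul_sub, mul_neg, ← mul_assoc, hc d b, sub_mul, neg_mul,
        smul_mul_assoc, one_mul, mul_smul_comm, mul_one, hg d b]
      abel
    have e6 : ∑ b, ∑ d, ∑ k, R b d k l • ((2 * g k d) • c b) =
        -((2 : ℂ) • ∑ b, ∑ d, R b d b l • c d) := by
      have e7 : ∀ b d, ∑ k, R b d k l • ((2 * g k d) • c b) = (2 * R b d d l) • c b := by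
        intro b d
        simp only [smul_smul]
        rw [← Finset.sum_smul, ← h5 b d d l, Finset.mul_sum]
        congr 1
        refine Finset.sum_congr rfl fun k _ => ?_
        rw [hg k d]
        ring
      simp only [e7]
      rw [Finset.sum_comm, Finset.smul_sum, ← Finset.sum_neg_distrib]
      refine Finset.sum_congr rfl fun b _ => ?_
      rw [Finset.smul_sum, ← Finset.sum_neg_distrib]
      refine Finset.sum_congr rfl fun d _ => ?_
      rw [h1 d b b l, smul_smul, ← neg_smul]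
      congr 1
      ring
    have e8 : ∑ b, ∑ d, ∑ k, R b d k l • ((2 * g k b) • c d) =
        (2 : ℂ) • ∑ b, ∑ d, R b d b l • c d := by
      rw [Finset.smul_sum]
      refine Finset.sum_congr rfl fun b _ => ?_
      rw [Finset.smul_sum]
      refine Finset.sum_congr rfl fun d _ => ?_
      simp only [smul_smul]
      rw [← Finset.sum_smul, ← h5 b d b l, Finset.mul_sum]
      congr 1
      refine Finset.sum_congr rfl fun k _ => ?_
      rw [hg k b]
      ring
    have e9 : ∑ b, ∑ d, ∑ k, R b d k l • ((2 * g b d) • c k) = 0 := by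
      have e10 : ∑ b, ∑ d, ∑ k, R b d k l • ((2 * g b d) • c k) =
          -∑ b, ∑ d, ∑ k, R b d k l • ((2 * g b d) • c k) := by
        conv_lhs => rw [Finset.sum_comm]
        simp only [← Finset.sum_neg_distrib]
        refine Finset.sum_congr rfl fun b _ => Finset.sum_congr rfl fun d _ =>
          Finset.sum_congr rfl fun k _ => ?_
        rw [h1 d b k l, hg d b, neg_smul]
      have e11 : (2 : ℂ) • ∑ b, ∑ d, ∑ k, R b d k l • ((2 * g b d) • c k) = 0 := by
        rw [two_smul]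
        nth_rw 2 [e10]
        rw [add_neg_cancel]
      exact (smul_eq_zero.mp e11).resolve_left two_ne_zero
    have E1 : ∑ b, ∑ d, ∑ k, R b d k l • (c k * c b * c d) =
        ∑ b, ∑ d, ∑ k, R b d k l • (c b * c d * c k) +
        ∑ b, ∑ d, ∑ k, R b d k l • ((2 * g k d) • c b) -
        ∑ b, ∑ d, ∑ k, R b d k l • ((2 * g k b) • c d) := by
      simp only [← Finset.sum_add_distrib, ← Finset.sum_sub_distrib]
      refine Finset.sum_congr rfl fun b _ => Finset.sum_congr rfl fun d _ =>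
          Finset.sum_congr rfl fun k _ => ?_
      rw [e4 b d k, smul_sub, smul_add]
    have E2 : ∑ b, ∑ d, ∑ k, R b d k l • (c d * c k * c b) =
        ∑ b, ∑ d, ∑ k, R b d k l • (c b * c d * c k) +
        ∑ b, ∑ d, ∑ k, R b d k l • ((2 * g b d) • c k) -
        ∑ b, ∑ d, ∑ k, R b d k l • ((2 * g k b) • c d) := by
      simp only [← Finset.sum_add_distrib, ← Finset.sum_sub_distrib]
      refine Finset.sum_congr rfl fun b _ => Finset.sum_congr rfl fun d _ =>
          Finset.sum_congr rfl fun k _ => ?_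
      rw [e5 b d k, smul_sub, smul_add]
    rw [E1, E2, e6, e8, e9] at e3
    have e13 : (3 : ℂ) • (∑ b, ∑ d, ∑ k, R b d k l • (c b * c d * c k)) =
        (3 : ℂ) • ((2 : ℂ) • ∑ b, ∑ d, R b d b l • c d) := by
      rw [← sub_eq_zero, ← e3]
      simp only [show (3 : ℂ) = 1 + 1 + 1 by norm_num, add_smul, one_smul]
      abel
    exact smul_right_injective A (three_ne_zero : (3 : ℂ) ≠ 0) e13
  have f1 : ∑ b, ∑ d, ∑ k, ∑ l, R b d k l • (c b * c d * (c k * c l)) =
      ∑ l, (∑ b, ∑ d, ∑ k, R b d k l • (c b * c d * c k)) * c l := by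
    have f2 : ∀ b d, ∑ k, ∑ l, R b d k l • (c b * c d * (c k * c l)) =
        ∑ l, ∑ k, R b d k l • (c b * c d * c k) * c l := by
      intro b d
      rw [Finset.sum_comm]
      refine Finset.sum_congr rfl fun l _ => Finset.sum_congr rfl fun k _ => ?_
      rw [smul_mul_assoc, mul_assoc (c b * c d)]
    simp only [f2]
    have f3 : ∀ b, ∑ d, ∑ l, ∑ k, R b d k l • (c b * c d * c k) * c l =
        ∑ l, ∑ d, ∑ k, R b d k l • (c b * c d * c k) * c l := fun b => Finset.sum_comm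
    simp only [f3]
    rw [Finset.sum_comm]
    simp only [Finset.sum_mul]
  rw [f1]
  simp only [hS]
  -- the double sum
  have f4 : ∑ l, ((2 : ℂ) • ∑ b, ∑ d, R b d b l • c d) * c l =
      (2 : ℂ) • ∑ b, ∑ d, ∑ l, R b d b l • (c d * c l) := by
    simp only [smul_mul_assoc, Finset.sum_mul]
    rw [← Finset.smul_sum, Finset.sum_comm]
    congr 1
    refine Finset.sum_congr rfl fun b _ => ?_
    rw [Finset.sum_comm]
  rw [f4]
  have f5 : ∀ b, (2 : ℂ) • ∑ d, ∑ l, R b d b l • (c d * c l) =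
      (-2 * ∑ d, R b d b d) • (1 : A) := by
    intro b
    have f6 : ∑ d, ∑ l, R b d b l • (c d * c l) = ∑ d, ∑ l, R b d b l • (c l * c d) := by
      rw [Finset.sum_comm]
      refine Finset.sum_congr rfl fun d _ => Finset.sum_congr rfl fun l _ => ?_
      rw [h2 b l b d]
    have f7 : ∀ d, ∑ l, R b d b l • ((2 * g d l) • (1 : A)) = (2 * R b d b d) • (1 : A) := by
      intro d
      simp only [smul_smul]
      rw [← Finset.sum_smul]
      congr 1
      have f8 := h5 b d d b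
      have f9 : ∀ l, R b d b l = -R b d l b := fun l => by
        rw [h2 b d b l, h1 b l b d, h2 l b b d]
      rw [f9 d, ← f8, ← Finset.sum_neg_distrib, Finset.mul_sum]
      refine Finset.sum_congr rfl fun l _ => ?_
      rw [f9 l]
      ring
    rw [two_smul]
    nth_rw 2 [f6]
    rw [← Finset.sum_add_distrib]
    simp only [← Finset.sum_add_distrib, ← smul_add]
    have f10 : ∀ d l, c d * c l + c l * c d = -((2 * g d l) • (1 : A)) := by
      intro d l
      rw [hc d l]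
      abel
    simp only [f10, smul_neg, Finset.sum_neg_distrib, f7]
    rw [← Finset.sum_smul, ← neg_smul, ← Finset.mul_sum]
    congr 1
    ring
  rw [Finset.smul_sum]
  simp only [f5]
  rw [← Finset.sum_smul, Finset.mul_sum]

private theorem gh_cc (hx : x ∈ V.carrier) (a b : Fin M) :
    (cv (V.P x (bv a)) * cv (V.P x (bv b)) : EH M ι) =
      -(cv (V.P x (bv b)) * cv (V.P x (bv a))) - (2 * ((V.P x (bv a) b : ℝ) : ℂ)) • 1 := by
  have h := cv_cv (ι := ι) (V.P x (bv a)) (V.P x (bv b))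
  have h2 : inner ℝ (V.P x (bv a)) (V.P x (bv b)) = V.P x (bv a) b := by
    rw [← (isPr hx).sa, (isPr hx).idem, real_inner_comm, gh_inner_bv]
  rw [h2] at h
  rw [eq_sub_iff_add_eq.mpr h]
  push_cast
  rw [neg_mul, neg_smul]
  abel

private theorem gh_sym (hx : x ∈ V.carrier) (a b : Fin M) :
    V.P x (bv a) b = V.P x (bv b) a := by
  rw [← gh_inner_bv b, ← gh_inner_bv a, ← (isPr hx).sa, real_inner_comm]

theorem quartic (hloc : V.Loc) (hS : SymII V) (hx : x ∈ V.carrier) :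
    ∑ b, ∑ c, ∑ k, ∑ l, ((Rc V x b c k l : ℝ) : ℂ) • (cv (V.P x (bv b)) * cv (V.P x (bv c)) *
      (cv (V.P x (bv k)) * cv (V.P x (bv l))) : EH M ι) =
      ((-2 * ∑ b, ∑ c, Rc V x b c b c : ℝ) : ℂ) • 1 := by
  have h := gh_abs (fun a => (cv (V.P x (bv a)) : EH M ι))
    (fun a b => ((V.P x (bv a) b : ℝ) : ℂ)) (fun a b k l => ((Rc V x a b k l : ℝ) : ℂ))
    (fun a b => by rw [gh_sym hx]) (fun a b => gh_cc hx a b)
    (fun a b k l => by rw [Rc_anti a b k l]; push_cast; rfl)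
    (fun a b k l => by rw [Rc_pair hloc hS hx a b k l])
    (fun a b k l => by exact_mod_cast Rc_cyc hloc hS hx a b k l)
    (fun a b k l => by exact_mod_cast Rc_tan' hx a b k l)
  rw [h]
  congr 1
  push_cast
  rfl

private theorem gh_cv (v : En M) : (cv v : EH M ι) = ∑ a, ((v a : ℝ) : ℂ) • cv (bv a) := by
  rw [cv_eq_sum]
  simp only [cv_bv]

private theorem gh_tan2 (hloc : V.Loc) (hx : x ∈ V.carrier) (b c : Fin M) :
    (∑ k, ∑ l, ((Rc V x b c k l : ℝ) : ℂ) • (cv (bv k) * cv (bv l)) : EH M ι) =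
    ∑ k, ∑ l, ((Rc V x b c k l : ℝ) : ℂ) • (cv (V.P x (bv k)) * cv (V.P x (bv l))) := by
  have h1 : ∀ l, (∑ k, ((Rc V x b c k l : ℝ) : ℂ) • cv (V.P x (bv k)) : EH M ι) =
      ∑ k, ((Rc V x b c k l : ℝ) : ℂ) • cv (bv k) := by
    intro l
    have h2 : ∀ k, ((Rc V x b c k l : ℝ) : ℂ) • (cv (V.P x (bv k)) : EH M ι) =
        ∑ a, (((V.P x (bv a) k * Rc V x b c k l : ℝ)) : ℂ) • cv (bv a) := by
      intro k
      rw [gh_cv (V.P x (bv k)), Finset.smul_sum]
      refine Finset.sum_congr rfl fun a _ => ?_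
      rw [smul_smul, gh_sym hx a k]
      push_cast
      rw [mul_comm]
    simp only [h2]
    rw [Finset.sum_comm]
    refine Finset.sum_congr rfl fun a _ => ?_
    rw [← Finset.sum_smul, ← Rc_tan' hx b c a l]
    push_cast
    rfl
  have h3 : ∀ k, (∑ l, ((Rc V x b c k l : ℝ) : ℂ) • cv (V.P x (bv l)) : EH M ι) =
      ∑ l, ((Rc V x b c k l : ℝ) : ℂ) • cv (bv l) := by
    intro k
    have h4 := h1 k
    have h5 : ∀ l, ((Rc V x b c k l : ℝ) : ℂ) = -((Rc V x b c l k : ℝ) : ℂ) := fun l => by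
      rw [Rc_anti' hloc hx b c k l]
      push_cast
      rfl
    simp only [h5, neg_smul, Finset.sum_neg_distrib, h4]
  have h6 : ∀ k, (∑ l, ((Rc V x b c k l : ℝ) : ℂ) • (cv (bv k) * cv (bv l)) : EH M ι) =
      ∑ l, ((Rc V x b c k l : ℝ) : ℂ) • (cv (bv k) * cv (V.P x (bv l))) := by
    intro k
    have h7 := congrArg (fun z : EH M ι => cv (bv k) * z) (h3 k)
    simp only [Finset.mul_sum, mul_smul_comm] at h7
    exact h7.symm
  simp only [h6]
  rw [Finset.sum_comm]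
  have h8 : ∀ l, (∑ k, ((Rc V x b c k l : ℝ) : ℂ) • (cv (bv k) * cv (V.P x (bv l))) : EH M ι) =
      ∑ k, ((Rc V x b c k l : ℝ) : ℂ) • (cv (V.P x (bv k)) * cv (V.P x (bv l))) := by
    intro l
    have h7 := congrArg (fun z : EH M ι => z * cv (V.P x (bv l))) (h1 l)
    simp only [Finset.sum_mul, smul_mul_assoc] at h7
    exact h7.symm
  simp only [h8]
  rw [Finset.sum_comm]

theorem bianchi (hloc : V.Loc) (hS : SymII V) (hx : x ∈ V.carrier) :
    (1 / 2 : ℂ) • ∑ b, ∑ c, cv (V.P x (bv b)) * cv (V.P x (bv c)) *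
      (dLam (Rr V b c x) : EH M ι) = (rho V x : ℂ) • 1 +
    (1 / 2 : ℂ) • ∑ b, ∑ c, cv (V.P x (bv b)) * cv (V.P x (bv c)) *
      ((1 / 4 : ℂ) • (∑ k, ∑ l, ((inner ℝ (bv k) (Rr V b c x (bv l)) : ℝ) : ℂ) •
        (hv (bv k) * hv (bv l)))) := by
  have h1 : ∀ b c : Fin M, cv (V.P x (bv b)) * cv (V.P x (bv c)) * (dLam (Rr V b c x) : EH M ι) =
      cv (V.P x (bv b)) * cv (V.P x (bv c)) *
      ((1 / 4 : ℂ) • (∑ k, ∑ l, ((inner ℝ (bv k) (Rr V b c x (bv l)) : ℝ) : ℂ) •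
        (hv (bv k) * hv (bv l)))) - (1 / 4 : ℂ) • ∑ k, ∑ l, ((Rc V x b c k l : ℝ) : ℂ) •
        (cv (V.P x (bv b)) * cv (V.P x (bv c)) * (cv (V.P x (bv k)) * cv (V.P x (bv l)))) := by
    intro b c
    have h2 := dLam_quad (ι := ι) (Rr_skew hloc hx b c)
    rw [h2]
    simp only [smul_sub, Finset.sum_sub_distrib]
    have h3 := gh_tan2 (ι := ι) hloc hx b c
    unfold Rc at h3
    rw [h3, mul_sub]
    congr 1
    rw [mul_smul_comm, Finset.mul_sum]
    simp only [Finset.mul_sum, mul_smul_comm]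
    rfl
  simp only [h1, Finset.sum_sub_distrib]
  have h4 := quartic (ι := ι) hloc hS hx
  simp only [← Finset.smul_sum]
  rw [h4, smul_sub, smul_smul, smul_smul, sub_eq_add_neg, add_comm, ← neg_smul]
  congr 2
  unfold rho Rc
  push_cast
  ring

end Pool.Agent.EXO.L
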