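import Pool.Agent.EXO.LgE
import Pool.Agent.EXO.LgG
import Pool.Agent.EXO.LgH

/-!
# EXO / LgI : the Weitzenböck formula and its polarization (IDX-L)

* `weitz`: `opA_opA`, `Db_sq`, `curv_eval`, `bianchi` (`dLam (Rr) + cf (Fbc)` splits into two sums; factor
  `½`), definition of `Wt`.
* `opA_smul`: for a smooth real function `g` and a section `u`:
  `opA (g u) = g opA u + ∑_a (∂_a g) cv_a Q u` (`td_smul`).
* `polar`: apply `weitz` to `g u` and to `u`.  `opA (opA (g u)) = opA (g opA u + C u)`, with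
  `C u := ∑_a (∂_a g) cv_a (Q u)`, so it is `g opA (opA u) + C (opA u) + opA (C u)` (additivity of `opA`).
  `Db b (g u) = g Db b u + (∂_b g) u`, `Db b (Db b (g u)) = g Db b (Db b u) + (∂_b g) Db b u + Db b ((∂_b g) u)`.
-/

set_option autoImplicit false
set_option maxSynthPendingDepth 3

open scoped ContDiff Topology
open Finset Matrix

noncomputable section

namespace Pool.Agent.EXO.L

variable {n M : ℕ} {V : Geo n M} {ι : Type} [Fintype ι] [DecidableEq ι]
  {E : Bd V ι} {θ : Fin M → En M → Matrix ι ι ℂ} {x : En M}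

/-- The Weitzenböck formula. -/
theorem weitz (hθ : ThOK V E θ) (hloc : V.Loc) (hS : SymII V) {u : En M → EH M ι}
    (hu : ContDiff ℝ ∞ u) (hQ : QS V E u) (hx : x ∈ V.carrier) :
    opA V E θ (opA V E θ u) x = -(∑ b, Db V E b (Db V E b u) x) + Wt V E θ x * u x := by
  rw [opA_opA hθ hloc hu hQ hx, Db_sq hloc hS hu hx, curv_eval hloc hS hx hQ]
  have h1 : (1 / 2 : ℂ) • ((∑ b, ∑ c, cv (V.P x (bv b)) * cv (V.P x (bv c)) *
      (dLam (Rr V b c x) + cf (Fbc V E b c x))) * u x : EH M ι) =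
      ((rho V x : ℂ) • 1 + (1 / 2 : ℂ) • ∑ b, ∑ c, cv (V.P x (bv b)) * cv (V.P x (bv c)) *
      ((1 / 4 : ℂ) • (∑ k, ∑ l, ((inner ℝ (bv k) (Rr V b c x (bv l)) : ℝ) : ℂ) •
        (hv (bv k) * hv (bv l))) + cf (Fbc V E b c x))) * u x := by
    rw [← smul_mul_assoc]
    congr 1
    have h2 : ∀ T : Fin M → Fin M → EH M ι, (∑ b, ∑ c, cv (V.P x (bv b)) * cv (V.P x (bv c)) *
        (T b c + cf (Fbc V E b c x)) : EH M ι) =
        ∑ b, ∑ c, cv (V.P x (bv b)) * cv (V.P x (bv c)) * T b c +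
        ∑ b, ∑ c, cv (V.P x (bv b)) * cv (V.P x (bv c)) * cf (Fbc V E b c x) := by
      intro T
      rw [← Finset.sum_add_distrib]
      refine Finset.sum_congr rfl fun b _ => ?_
      rw [← Finset.sum_add_distrib]
      exact Finset.sum_congr rfl fun c _ => mul_add _ _ _
    rw [h2, h2, smul_add, smul_add, bianchi hloc hS hx, add_assoc]
  have h3 : Wt V E θ x * u x = ((rho V x : ℂ) • 1 + (1 / 2 : ℂ) • ∑ b, ∑ c,
      cv (V.P x (bv b)) * cv (V.P x (bv c)) *
      ((1 / 4 : ℂ) • (∑ k, ∑ l, ((inner ℝ (bv k) (Rr V b c x (bv l)) : ℝ) : ℂ) •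
        (hv (bv k) * hv (bv l))) + cf (Fbc V E b c x))) * u x +
      (∑ b, cv (V.P x (bv b)) *
        (td V b (Psi θ) x + (Xi V E b x * Psi θ x - Psi θ x * Xi V E b x))) * u x +
      Psi θ x * Psi θ x * u x := by
    unfold Wt
    rw [add_mul, add_mul]
  rw [h1, h3, ← Finset.sum_mul, ← add_assoc, ← add_assoc]

/-- `c(grad g) Q u` -/
def Cgr (V : Geo n M) (E : Bd V ι) (g : En M → ℝ) (u : En M → EH M ι) (x : En M) : EH M ι :=
  ∑ a, ((td V a g x : ℝ) : ℂ) • (cv (bv a) * (Qx V E x * u x))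

omit [DecidableEq ι] in
private theorem LgI_cdC {f : En M → ℝ} (hf : ContDiff ℝ ∞ f) {g : En M → EH M ι}
    (hg : ContDiff ℝ ∞ g) : ContDiff ℝ ∞ (fun y => ((f y : ℝ) : ℂ) • g y) := hf.smul hg

theorem contDiff_Cgr {g : En M → ℝ} (hg : ContDiff ℝ ∞ g) {u : En M → EH M ι}
    (hu : ContDiff ℝ ∞ u) : ContDiff ℝ ∞ (Cgr V E g u) := by
  unfold Cgr
  refine ContDiff.sum fun a _ => ?_
  exact LgI_cdC (contDiff_td hg a) (contDiff_const.mul (contDiff_Qx.mul hu))

theorem opA_smul {g : En M → ℝ} (hg : ContDiff ℝ ∞ g) {u : En M → EH M ι}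
    (hu : ContDiff ℝ ∞ u) :
    opA V E θ (fun y => ((g y : ℝ) : ℂ) • u y) x =
      ((g x : ℝ) : ℂ) • opA V E θ u x + Cgr V E g u x := by
  unfold opA Cgr
  have h1 : ∀ a : Fin M, (cv (bv a) * (Qx V E x * td V a (fun y => ((g y : ℝ) : ℂ) • u y) x) :
      EH M ι) = ((g x : ℝ) : ℂ) • (cv (bv a) * (Qx V E x * td V a u x)) +
      ((td V a g x : ℝ) : ℂ) • (cv (bv a) * (Qx V E x * u x)) := by
    intro a
    rw [td_smul hg hu, mul_add, mul_add, mul_smul_comm, mul_smul_comm, mul_smul_comm,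
      mul_smul_comm, add_comm]
  rw [Finset.sum_congr rfl fun a _ => h1 a, Finset.sum_add_distrib, ← Finset.smul_sum,
    mul_smul_comm, smul_add]
  abel

theorem opA_add {u v : En M → EH M ι} (hu : ContDiff ℝ ∞ u) (hv : ContDiff ℝ ∞ v) :
    opA V E θ (fun y => u y + v y) x = opA V E θ u x + opA V E θ v x := by
  unfold opA
  have h1 : ∀ a : Fin M, (cv (bv a) * (Qx V E x * td V a (fun y => u y + v y) x) :
      EH M ι) = cv (bv a) * (Qx V E x * td V a u x) + cv (bv a) * (Qx V E x * td V a v x) := by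
    intro a
    rw [td_add hu hv, mul_add, mul_add]
  rw [Finset.sum_congr rfl fun a _ => h1 a, Finset.sum_add_distrib, mul_add]
  abel

theorem polar (hθ : ThOK V E θ) (hloc : V.Loc) (hS : SymII V) {g : En M → ℝ}
    (hg : ContDiff ℝ ∞ g) {u : En M → EH M ι} (hu : ContDiff ℝ ∞ u) (hQ : QS V E u)
    (hx : x ∈ V.carrier) :
    opA V E θ (Cgr V E g u) x + Cgr V E g (opA V E θ u) x =
      -(∑ b, (((td V b g x : ℝ) : ℂ) • Db V E b u x +
        Db V E b (fun y => ((td V b g y : ℝ) : ℂ) • u y) x)) := by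
  have hgu : ContDiff ℝ ∞ (fun y => ((g y : ℝ) : ℂ) • u y) := LgI_cdC hg hu
  have hQ' : QS V E (fun y => ((g y : ℝ) : ℂ) • u y) := by
    intro y hy
    show Qx V E y * (((g y : ℝ) : ℂ) • u y) = ((g y : ℝ) : ℂ) • u y
    rw [mul_smul_comm, hQ y hy]
  have hA : ContDiff ℝ ∞ (opA V E θ u) := contDiff_opA hθ hu
  have h1 := weitz hθ hloc hS hgu hQ' hx
  have h2 := weitz hθ hloc hS hu hQ hx
  have h3 : opA V E θ (fun y => ((g y : ℝ) : ℂ) • u y) =
      fun y => ((g y : ℝ) : ℂ) • opA V E θ u y + Cgr V E g u y := by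
    funext y
    exact opA_smul hg hu
  rw [h3, opA_add (LgI_cdC hg hA) (contDiff_Cgr hg hu), opA_smul hg hA, h2] at h1
  have h4 : ∀ (f : En M → ℝ) (w : En M → EH M ι), ContDiff ℝ ∞ f → ContDiff ℝ ∞ w →
      ∀ (b : Fin M) (y : En M), Db V E b (fun y => ((f y : ℝ) : ℂ) • w y) y =
      ((f y : ℝ) : ℂ) • Db V E b w y + ((td V b f y : ℝ) : ℂ) • w y := by
    intro f w hf hw b y
    unfold Db
    rw [td_smul hf hw, mul_smul_comm, smul_add]
    abel
  have h5 : ∀ b : Fin M, Db V E b (Db V E b (fun y => ((g y : ℝ) : ℂ) • u y)) x =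
      ((g x : ℝ) : ℂ) • Db V E b (Db V E b u) x + (((td V b g x : ℝ) : ℂ) • Db V E b u x +
        Db V E b (fun y => ((td V b g y : ℝ) : ℂ) • u y) x) := by
    intro b
    have e1 : Db V E b (fun y => ((g y : ℝ) : ℂ) • u y) =
        fun y => ((g y : ℝ) : ℂ) • Db V E b u y + ((td V b g y : ℝ) : ℂ) • u y := by
      funext y
      exact h4 g u hg hu b y
    have e2 : ∀ (f w : En M → EH M ι), ContDiff ℝ ∞ f → ContDiff ℝ ∞ w →
        Db V E b (fun y => f y + w y) x = Db V E b f x + Db V E b w x := by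
      intro f w hf hw
      unfold Db
      rw [td_add hf hw, mul_add]
      abel
    rw [e1, e2 _ _ (LgI_cdC hg (contDiff_Db hu b)) (LgI_cdC (contDiff_td hg b) hu),
      h4 g _ hg (contDiff_Db hu b), add_assoc]
  rw [Finset.sum_congr rfl fun b _ => h5 b, Finset.sum_add_distrib, ← Finset.smul_sum] at h1
  have h6 : Wt V E θ x * (((g x : ℝ) : ℂ) • u x) = ((g x : ℝ) : ℂ) • (Wt V E θ x * u x) :=
    mul_smul_comm _ _ _
  rw [h6, smul_add, smul_neg] at h1
  have h7 := congrArg (fun z => z + (((g x : ℝ) : ℂ) • ∑ b, Db V E b (Db V E b u) x) -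
    ((g x : ℝ) : ℂ) • (Wt V E θ x * u x)) h1
  simp only at h7
  have h8 : ∀ (a b c d e : EH M ι), -a + b + c + d + a - b = d + c := by
    intro a b c d e
    abel
  have h9 : ∀ (a b c : EH M ι), -(a + c) + b + a - b = -c := by
    intro a b c
    abel
  rw [h8 _ _ _ _ 0, h9] at h7
  exact h7

end Pool.Agent.EXO.L
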