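import Mathlib
import Pool.Agent.EXO.SuOrF
import Pool.Agent.EXO.SuIntB

/-!
# EXO / SuOrG: the integral of a form over the domain of a chart with a constant sign
-/

set_option autoImplicit false
set_option maxSynthPendingDepth 3

open Set Filter Topology MeasureTheory ContinuousLinearMap
open scoped ContDiff ENNReal

namespace Pool.Agent.EXO

variable {n M : ℕ}

theorem OrGeo.setInt_chart (V : OrGeo n M) {U : Set (En n)} {ψ : En n → En M} {O : Set (En M)}
    {κ : En M → En n} (h : IsChart V.carrier U ψ O κ) {ε : ℝ} (hε : ε = 1 ∨ ε = -1)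
    (hs : ∀ u ∈ U, ∃ c : ℝ, 0 < c ∧ (pbF ψ V.vol u).co Finset.univ = ((ε * c : ℝ) : ℂ))
    {al : En M → FA M} (hal : ContDiff ℝ ∞ al) :
    ∫ x in O, inner ℂ (V.vol x) (al x) ∂V.μ
      = (ε : ℂ) * ∫ u in U, (pbF ψ al u).co Finset.univ := by
  have hc : Continuous fun x => inner ℂ (V.vol x) (al x) :=
    V.smooth_vol.continuous.inner hal.continuous
  rw [V.setIntegral_chart h hc.aestronglyMeasurable, ← integral_const_mul]
  refine setIntegral_congr_fun h.openU.measurableSet fun u hu => ?_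
  obtain ⟨h1, h2, h3⟩ := V.tv_spec h hu
  obtain ⟨c, hc0, hc1⟩ := hs u hu
  have h4 : V.tv ψ u = ε * c := by
    have : V.tv ψ u = ((pbF ψ V.vol u).co Finset.univ).re := rfl
    rw [this, hc1, Complex.ofReal_re]
  have h5 : volF (fderiv ℝ ψ u) = c := by
    rw [← h1, h4, abs_mul, abs_of_pos hc0]
    rcases hε with h | h <;> simp [h]
  have h6 : (pbF ψ al u).co Finset.univ = (V.tv ψ u : ℂ) * inner ℂ (V.vol (ψ u)) (al (ψ u)) :=
    h3 _
  rw [h6, h4, h5, Complex.real_smul]
  have h7 : (ε : ℂ) * ((ε * c : ℝ) : ℂ) = (c : ℂ) := by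
    rcases hε with h | h <;> simp [h]
  rw [← mul_assoc, h7]

end Pool.Agent.EXO
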