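import Mathlib
import Pool.Agent.EXO.SurEnd
import Pool.Agent.EXO.SuGeo
import Pool.Agent.EXO.SuVol

/-!
# EXO / SurFin: the interface statement of the part SUR, without hypotheses
-/

set_option autoImplicit false
set_option maxSynthPendingDepth 3

open Set Filter Topology Matrix MeasureTheory
open scoped ContDiff Kronecker

namespace Pool.Agent.EXO

/-- The closed hypersurface `N` in `ℝ⁷` with its collar (a product of three surfaces of genus two) and
the flat bundle. -/
theorem IF_sur :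
    ∃ (N : OrGeo 6 7) (_ : Collar N.carrier) (om : En 7 → FA 7)
    (ι : Type) (_ : Fintype ι) (_ : DecidableEq ι)
    (E : FlatBd N.toGeo ι) (δ : ℝ) (T : En 7 → En 7 → Matrix ι ι ℂ),
    IsConnected N.carrier ∧ E.NoPar ∧ E.IsPT δ T ∧
    ContDiff ℝ ∞ om ∧ (∀ x, (om x).IsDeg 6) ∧
    (∀ x ∈ N.carrier, FAMap (N.P x) (E.toBd.ch x) = (8 : ℂ) • FAMap (N.P x) (om x)) ∧
    (N.int om = 1 ∨ N.int om = -1) :=
  sur_main (fun V => IF_geom 6 7 V) fun G α hα hr hd h0 => IF_vol 6 7 (by norm_num) G α hα hr hd h0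

end Pool.Agent.EXO
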