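import Mathlib

/-!
# EXO, part T, module TBil: injective immersions are bilipschitz on compact sets

PROOF.  By contradiction: otherwise for every `k` there are `x_k, y_k ∈ K` with `‖F x_k - F y_k‖ < (1/(k+1)) ‖x_k - y_k‖` (so `x_k ≠ y_k`).
Pass to subsequences `x_k → x`, `y_k → y` in `K` (`IsCompact.tendsto_subseq` in `K ×ˢ K`).  `‖F x_k - F y_k‖ → 0`, so
`F x = F y` and `x = y` by injectivity.  `F` is strictly differentiable at `x` (`ContDiffAt.hasStrictFDerivAt`): with `A = DF(x)`,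
`‖F x_k - F y_k - A (x_k - y_k)‖ ≤ (c₀/2) ‖x_k - y_k‖` eventually, where `c₀ > 0` satisfies `c₀ ‖v‖ ≤ ‖A v‖` for all `v`
(`A` injective, finite dimension: `LinearMap.exists_antilipschitzWith`/`ContinuousLinearMap.exists_antilipschitzWith`).
So `‖F x_k - F y_k‖ ≥ (c₀/2) ‖x_k - y_k‖`, contradiction for large `k`.
-/

namespace EXO

open Set

theorem bilip_of_immersion {E E' : Type*} [NormedAddCommGroup E] [NormedSpace ℝ E]
    [FiniteDimensional ℝ E] [NormedAddCommGroup E'] [NormedSpace ℝ E']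
    {F : E → E'} {K : Set E} (hK : IsCompact K) (hF : ∀ x ∈ K, ContDiffAt ℝ 1 F x)
    (hinj : InjOn F K) (himm : ∀ x ∈ K, Function.Injective (fderiv ℝ F x)) :
    ∃ c : ℝ, 0 < c ∧ ∀ x ∈ K, ∀ y ∈ K, c * ‖x - y‖ ≤ ‖F x - F y‖ := by
  by_contra hcon
  push Not at hcon
  have hpos : ∀ k : ℕ, (0 : ℝ) < 1 / ((k : ℝ) + 1) := fun k => by positivity
  choose x hx y hy hxy using fun k : ℕ => hcon (1 / ((k : ℝ) + 1)) (hpos k)
  obtain ⟨p, hp, φ, hφ, hlim⟩ := (hK.prod hK).tendsto_subseq (x := fun k => (x k, y k))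
    (fun k => ⟨hx k, hy k⟩)
  obtain ⟨a, b⟩ := p
  have ha : a ∈ K := hp.1
  have hb : b ∈ K := hp.2
  have hlx : Filter.Tendsto (fun k => x (φ k)) Filter.atTop (nhds a) :=
    (Prod.tendsto_iff _ _).1 hlim |>.1
  have hly : Filter.Tendsto (fun k => y (φ k)) Filter.atTop (nhds b) :=
    (Prod.tendsto_iff _ _).1 hlim |>.2
  have hFx : Filter.Tendsto (fun k => F (x (φ k))) Filter.atTop (nhds (F a)) :=
    ((hF a ha).continuousAt.tendsto).comp hlx
  have hFy : Filter.Tendsto (fun k => F (y (φ k))) Filter.atTop (nhds (F b)) :=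
    ((hF b hb).continuousAt.tendsto).comp hly
  have hsmall : Filter.Tendsto (fun k : ℕ => 1 / (((φ k : ℕ) : ℝ) + 1)) Filter.atTop (nhds 0) :=
    tendsto_one_div_add_atTop_nhds_zero_nat.comp hφ.tendsto_atTop
  have hup : Filter.Tendsto (fun k => 1 / (((φ k : ℕ) : ℝ) + 1) * ‖x (φ k) - y (φ k)‖)
      Filter.atTop (nhds (0 * ‖a - b‖)) := hsmall.mul (hlx.sub hly).norm
  rw [zero_mul] at hup
  have hd : Filter.Tendsto (fun k => ‖F (x (φ k)) - F (y (φ k))‖) Filter.atTop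
      (nhds ‖F a - F b‖) := (hFx.sub hFy).norm
  have hle : ‖F a - F b‖ ≤ 0 := le_of_tendsto_of_tendsto' hd hup fun k => (hxy (φ k)).le
  have hFab : F a = F b := by
    have h1 : ‖F a - F b‖ = 0 := le_antisymm hle (norm_nonneg _)
    exact sub_eq_zero.1 (norm_eq_zero.1 h1)
  have hab : a = b := hinj ha hb hFab
  subst hab
  have hstr : HasStrictFDerivAt F (fderiv ℝ F a) a := (hF a ha).hasStrictFDerivAt (by norm_num)
  obtain ⟨M, hM, hanti⟩ := LinearMap.exists_antilipschitzWith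
    ((fderiv ℝ F a : E →L[ℝ] E') : E →ₗ[ℝ] E')
    (LinearMap.ker_eq_bot.2 (himm a ha))
  have hM' : (0 : ℝ) < M := by exact_mod_cast hM
  have hAn : ∀ v, ‖v‖ ≤ M * ‖fderiv ℝ F a v‖ := fun v => by
    have h := hanti.le_mul_dist v 0
    simpa using h
  have hev := hstr.isLittleO.def (c := 1 / (2 * (M : ℝ))) (by positivity)
  have hev2 := hlim.eventually hev
  have hev3 := hsmall.eventually (gt_mem_nhds (show (0 : ℝ) < 1 / (2 * (M : ℝ)) by positivity))
  obtain ⟨k, hk2, hk3⟩ := (hev2.and hev3).exists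
  simp only [Function.comp_apply] at hk2
  have h1 := hxy (φ k)
  set v := x (φ k) - y (φ k) with hv
  have hvpos : 0 < ‖v‖ := by
    rcases (norm_nonneg v).eq_or_lt with h0 | h0
    · rw [← h0, mul_zero] at h1
      exact absurd h1 (not_lt.2 (norm_nonneg _))
    · exact h0
  have h2 : ‖fderiv ℝ F a v‖ ≤ ‖F (x (φ k)) - F (y (φ k))‖
      + ‖F (x (φ k)) - F (y (φ k)) - fderiv ℝ F a v‖ := by
    have h7 := norm_sub_norm_le (fderiv ℝ F a v) (F (x (φ k)) - F (y (φ k)))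
    rw [norm_sub_rev (fderiv ℝ F a v) (F (x (φ k)) - F (y (φ k)))] at h7
    linarith
  have h3 := hAn v
  have h4 : ‖v‖ / M ≤ ‖fderiv ℝ F a v‖ := by
    rw [div_le_iff₀ hM']
    linarith
  have h5 : ‖v‖ / M = 2 * (1 / (2 * (M : ℝ)) * ‖v‖) := by
    field_simp
  have h6 : 1 / (((φ k : ℕ) : ℝ) + 1) * ‖v‖ < 1 / (2 * (M : ℝ)) * ‖v‖ :=
    mul_lt_mul_of_pos_right hk3 hvpos
  linarith

end EXO
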