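import Pool.Agent.EXO.TDefs

/-!
# EXO, part T, module TBis: bisection of a simplex

STATEMENT: replacing the vertex `v i` (resp. `v j`) by a point `m = (1-t) v i + t v j`, `0 < t < 1`, of the edge
gives two non-degenerate simplices with disjoint interiors whose union is the simplex.

PROOF.  `v` is an affine basis of `Eu n` (n+1 affinely independent points; use
`AffineBasis.mk` with `affineSpan_eq_top_iff_card_eq_finrank_add_one`-type lemma:
`hv.affineSpan_eq_top_iff_card_eq_finrank_add_one`), let `λ_k = b.coord k`.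
Affine independence of `update v i m`: if `∑ μ_k w_k = 0`, `∑ μ_k = 0` with `w = update v i m`, then the coefficients of
`v` are `λ_i = μ_i (1-t)`, `λ_j = μ_j + t μ_i`, `λ_k = μ_k`, all zero, so `μ_i = 0` (as `1-t ≠ 0`), and all
`μ_k = 0`.  (`affineIndependent_iff` / `affineIndependent_iff_linearIndependent_vsub` may be used; alternatively
the matrix argument.)  The case `update v j m` is the same with `t ↔ 1-t` (note `lineMap (v i) (v j) t =
lineMap (v j) (v i) (1-t)`, so prove one case as a lemma and use it twice).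

Key lemma (for `i ≠ j`, `m = (1-t) v_i + t v_j`, `0<t<1`): for `x = ∑ λ_k v_k` (`λ_k = b.coord k x`),
  `x ∈ spx (update v i m)  ↔  λ_k ≥ 0 for k ≠ j`, and `t λ_i ≤ (1-t) λ_j`.
(⇒: `x = ∑ μ_k w_k`, `μ_k ≥ 0`, `∑ μ_k = 1`; then `λ_i = (1-t) μ_i`, `λ_j = μ_j + t μ_i`, so
`(1-t) λ_j - t λ_i = (1-t) μ_j ≥ 0`.  ⇐: put `μ_i = λ_i/(1-t)`, `μ_j = λ_j - t λ_i/(1-t)`, `μ_k = λ_k`.)
By symmetry `x ∈ spx (update v j m) ↔ λ_k ≥ 0 for k ≠ i, and (1-t) λ_j ≤ t λ_i`.
Since `x ∈ spx v ↔ ∀ k, λ_k ≥ 0` (`AffineBasis.convexHull_eq_nonneg_coord`), the union is `spx v`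
(if `t λ_i ≤ (1-t) λ_j` and `λ_i ≥ 0` then `λ_j ≥ 0` automatically).
Interiors: the affine function `ℓ = t λ_i - (1-t) λ_j` is not constant (`ℓ(v i) = t ≠ ℓ(v j) = -(1-t)`), `≤ 0` on the
first and `≥ 0` on the second simplex.  If `x` is in both interiors then `ℓ = 0` in a
neighbourhood of `x` (`ℓ ≤ 0` and `ℓ ≥ 0`), but `ℓ(x + s (v i - v j)) = s` for small `s > 0`, contradiction.
-/

namespace EXO

open Set Function

private noncomputable def tbisB {n : ℕ} (v : Fin (n + 1) → Eu n) (hv : AffineIndependent ℝ v) :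
    AffineBasis (Fin (n + 1)) ℝ (Eu n) :=
  ⟨v, hv, (hv.affineSpan_eq_top_iff_card_eq_finrank_add_one).2 (by simp)⟩

private theorem tbisB_apply {n : ℕ} (v : Fin (n + 1) → Eu n) (hv : AffineIndependent ℝ v)
    (k : Fin (n + 1)) : tbisB v hv k = v k := rfl

private theorem tbis_spx {n : ℕ} (v : Fin (n + 1) → Eu n) (hv : AffineIndependent ℝ v) (x : Eu n) :
    x ∈ spx v ↔ ∀ k, 0 ≤ (tbisB v hv).coord k x := by
  have h := (tbisB v hv).convexHull_eq_nonneg_coord
  have h2 : convexHull ℝ (range (tbisB v hv)) = spx v := rfl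
  rw [← h2, h]
  rfl

private theorem tbis_int {n : ℕ} (v : Fin (n + 1) → Eu n) (hv : AffineIndependent ℝ v) (x : Eu n) :
    x ∈ interior (spx v) ↔ ∀ k, 0 < (tbisB v hv).coord k x := by
  have h := (tbisB v hv).interior_convexHull
  have h2 : convexHull ℝ (range (tbisB v hv)) = spx v := rfl
  rw [← h2, h]
  rfl

private theorem tbis_indep {n : ℕ} {v : Fin (n + 1) → Eu n} (hv : AffineIndependent ℝ v)
    (w : Fin (n + 1) → ℝ) (h0 : ∑ k, w k = 0) (h1 : ∑ k, w k • v k = 0) (k : Fin (n + 1)) :
    w k = 0 :=
  affineIndependent_iff.1 hv Finset.univ w h0 h1 k (Finset.mem_univ k)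

/-- the transformed weights -/
private def tbisW {n : ℕ} (i j : Fin (n + 1)) (t : ℝ) (μ : Fin (n + 1) → ℝ) (k : Fin (n + 1)) : ℝ :=
  μ k + (if k = j then t * μ i else 0) - (if k = i then t * μ i else 0)

private theorem tbisW_sum {n : ℕ} (i j : Fin (n + 1)) (t : ℝ) (μ : Fin (n + 1) → ℝ) :
    ∑ k, tbisW i j t μ k = ∑ k, μ k := by
  unfold tbisW
  rw [Finset.sum_sub_distrib, Finset.sum_add_distrib]
  simp

private theorem tbisW_lin {n : ℕ} (v : Fin (n + 1) → Eu n) (i j : Fin (n + 1)) (t : ℝ)
    (μ : Fin (n + 1) → ℝ) :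
    ∑ k, μ k • (update v i (AffineMap.lineMap (v i) (v j) t)) k = ∑ k, tbisW i j t μ k • v k := by
  have h1 : ∀ k, μ k • (update v i (AffineMap.lineMap (v i) (v j) t)) k =
      μ k • v k + (if k = i then (t * μ i) • (v j - v i) else 0) := by
    intro k
    by_cases hk : k = i
    · subst hk
      rw [update_self, if_pos rfl, AffineMap.lineMap_apply_module', smul_add, smul_smul, add_comm,
        mul_comm]
    · rw [update_of_ne hk, if_neg hk, add_zero]
  have h2 : ∀ k, tbisW i j t μ k • v k = μ k • v k + (if k = j then (t * μ i) • v j else 0) -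
      (if k = i then (t * μ i) • v i else 0) := by
    intro k
    unfold tbisW
    rw [sub_smul, add_smul, ite_smul, ite_smul, zero_smul]
    by_cases hk : k = j
    · subst hk
      by_cases hi : k = i
      · subst hi; simp
      · simp [hi]
    · by_cases hi : k = i
      · subst hi; simp [hk]
      · simp [hk, hi]
  rw [Finset.sum_congr rfl fun k _ => h1 k, Finset.sum_congr rfl fun k _ => h2 k,
    Finset.sum_add_distrib, Finset.sum_sub_distrib, Finset.sum_add_distrib,
    Finset.sum_ite_eq' Finset.univ i, Finset.sum_ite_eq' Finset.univ j,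
    Finset.sum_ite_eq' Finset.univ i]
  simp only [Finset.mem_univ, if_true, smul_sub]
  abel

private theorem tbis_core {n : ℕ} (v : Fin (n + 1) → Eu n) (hv : AffineIndependent ℝ v)
    {i j : Fin (n + 1)} (hij : i ≠ j) {t : ℝ} (ht0 : 0 < t) (ht1 : t < 1) :
    AffineIndependent ℝ (update v i (AffineMap.lineMap (v i) (v j) t)) ∧
    (∀ x, x ∈ spx (update v i (AffineMap.lineMap (v i) (v j) t)) ↔
      (∀ k, k ≠ j → 0 ≤ (tbisB v hv).coord k x) ∧
        t * (tbisB v hv).coord i x ≤ (1 - t) * (tbisB v hv).coord j x) ∧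
    (∀ x, x ∈ interior (spx (update v i (AffineMap.lineMap (v i) (v j) t))) →
      t * (tbisB v hv).coord i x < (1 - t) * (tbisB v hv).coord j x) := by
  set w := update v i (AffineMap.lineMap (v i) (v j) t) with hw
  have h1t : 0 < 1 - t := by linarith
  have hWi : ∀ μ : Fin (n + 1) → ℝ, tbisW i j t μ i = (1 - t) * μ i := by
    intro μ
    unfold tbisW
    rw [if_neg hij, if_pos rfl]; ring
  have hWj : ∀ μ : Fin (n + 1) → ℝ, tbisW i j t μ j = μ j + t * μ i := by
    intro μ
    unfold tbisW
    rw [if_pos rfl, if_neg hij.symm]; ring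
  have hWk : ∀ (μ : Fin (n + 1) → ℝ) k, k ≠ i → k ≠ j → tbisW i j t μ k = μ k := by
    intro μ k hki hkj
    unfold tbisW
    rw [if_neg hkj, if_neg hki]; ring
  have hind : AffineIndependent ℝ w := by
    rw [affineIndependent_iff_of_fintype]
    intro μ hμ0 hμ1
    rw [Finset.univ.weightedVSub_eq_linear_combination hμ0] at hμ1
    rw [hw, tbisW_lin] at hμ1
    have h3 := tbis_indep hv (tbisW i j t μ) (by rw [tbisW_sum, hμ0]) hμ1
    have h4 : μ i = 0 := by
      have := h3 i
      rw [hWi] at this
      rcases mul_eq_zero.1 this with h | h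
      · linarith
      · exact h
    intro k
    by_cases hk : k = i
    · rw [hk, h4]
    · by_cases hk2 : k = j
      · have := h3 j
        rw [hWj, h4, mul_zero, add_zero] at this
        rw [hk2, this]
      · have := h3 k
        rwa [hWk μ k hk hk2] at this
  have hcoord : ∀ x k, (tbisB v hv).coord k x = tbisW i j t (fun k => (tbisB w hind).coord k x) k := by
    intro x k
    have h5 := (tbisB v hv).linear_combination_coord_eq_self x
    have h6 := (tbisB w hind).linear_combination_coord_eq_self x
    have h7 := (tbisB v hv).sum_coord_apply_eq_one x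
    have h8 := (tbisB w hind).sum_coord_apply_eq_one x
    simp only [tbisB_apply] at h5 h6
    have h6' := tbisW_lin v i j t (fun k => (tbisB w hind).coord k x)
    rw [← hw] at h6'
    rw [h6'] at h6
    have h9 := tbis_indep hv (fun k => (tbisB v hv).coord k x -
      tbisW i j t (fun k => (tbisB w hind).coord k x) k)
      (by rw [Finset.sum_sub_distrib, tbisW_sum, h7, h8, sub_self])
      (by
        simp only [sub_smul]
        rw [Finset.sum_sub_distrib, h5]
        exact sub_eq_zero.2 h6.symm) k
    linarith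
  refine ⟨hind, fun x => ?_, fun x hx => ?_⟩
  · rw [tbis_spx w hind x]
    have hi := hcoord x i
    have hj := hcoord x j
    rw [hWi] at hi
    rw [hWj] at hj
    constructor
    · intro h
      refine ⟨fun k hk => ?_, ?_⟩
      · by_cases hki : k = i
        · rw [hki, hi]
          exact mul_nonneg h1t.le (h i)
        · rw [hcoord x k, hWk _ k hki hk]
          exact h k
      · rw [hi, hj]
        have := mul_nonneg h1t.le (h j)
        nlinarith
    · rintro ⟨h, h'⟩ k
      have hμi : 0 ≤ (tbisB w hind).coord i x := by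
        have := h i hij
        rw [hi] at this
        exact nonneg_of_mul_nonneg_right this h1t
      by_cases hki : k = i
      · rw [hki]; exact hμi
      · by_cases hkj : k = j
        · rw [hkj]
          rw [hi, hj] at h'
          have h10 : 0 ≤ (1 - t) * (tbisB w hind).coord j x := by nlinarith
          exact nonneg_of_mul_nonneg_right h10 h1t
        · have := h k hkj
          rwa [hcoord x k, hWk _ k hki hkj] at this
  · rw [tbis_int w hind x] at hx
    have hi := hcoord x i
    have hj := hcoord x j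
    rw [hWi] at hi
    rw [hWj] at hj
    rw [hi, hj]
    have := mul_pos h1t (hx j)
    nlinarith

theorem bisect {n : ℕ} (v : Fin (n + 1) → Eu n) (hv : AffineIndependent ℝ v) {i j : Fin (n + 1)}
    (hij : i ≠ j) {t : ℝ} (ht0 : 0 < t) (ht1 : t < 1) :
    AffineIndependent ℝ (update v i (AffineMap.lineMap (v i) (v j) t)) ∧
    AffineIndependent ℝ (update v j (AffineMap.lineMap (v i) (v j) t)) ∧
    spx (update v i (AffineMap.lineMap (v i) (v j) t)) ∪
      spx (update v j (AffineMap.lineMap (v i) (v j) t)) = spx v ∧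
    Disjoint (interior (spx (update v i (AffineMap.lineMap (v i) (v j) t))))
      (interior (spx (update v j (AffineMap.lineMap (v i) (v j) t)))) := by
  obtain ⟨a1, a2, a3⟩ := tbis_core v hv hij ht0 ht1
  have hsymm : AffineMap.lineMap (v i) (v j) t = AffineMap.lineMap (v j) (v i) (1 - t) := by
    rw [AffineMap.lineMap_apply_one_sub]
  obtain ⟨b1, b2, b3⟩ := tbis_core v hv hij.symm (t := 1 - t) (by linarith) (by linarith)
  rw [← hsymm] at b1 b2 b3
  have h1t : 0 < 1 - t := by linarith
  refine ⟨a1, b1, ?_, ?_⟩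
  · ext x
    rw [Set.mem_union, a2 x, b2 x, tbis_spx v hv x]
    constructor
    · rintro (⟨h, h'⟩ | ⟨h, h'⟩) k
      · by_cases hk : k = j
        · rw [hk]
          have h1 := mul_nonneg ht0.le (h i hij)
          exact nonneg_of_mul_nonneg_right (h1.trans h') h1t
        · exact h k hk
      · by_cases hk : k = i
        · rw [hk]
          have h1 := mul_nonneg h1t.le (h j hij.symm)
          have h2 := h1.trans h'
          rw [sub_sub_cancel] at h2
          exact nonneg_of_mul_nonneg_right h2 ht0
        · exact h k hk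
    · intro h
      rcases le_total (t * (tbisB v hv).coord i x) ((1 - t) * (tbisB v hv).coord j x) with h' | h'
      · exact Or.inl ⟨fun k _ => h k, h'⟩
      · refine Or.inr ⟨fun k _ => h k, ?_⟩
        rw [sub_sub_cancel]
        exact h'
  · rw [Set.disjoint_left]
    intro x hx1 hx2
    have h1 := a3 x hx1
    have h2 := b3 x hx2
    rw [sub_sub_cancel] at h2
    exact lt_asymm h1 h2

end EXO
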