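import Pool.Agent.EXO.TEnd
import Pool.Agent.SM.Stm

/-!
# EXO, part T, module TBri: translation to the definitions of the statement (`SM.Stm`)

If all piecewise affine homeomorphisms in dimension 14 in `W^{1,15}` are approximable then there are diffeomorphisms
of `Ω` which are uniformly close on compact sets to the model homeomorphism.
-/

open MeasureTheory Set
open scoped ENNReal ContDiff

namespace EXO

theorem toPAHomeo {n : ℕ} {Ω : Set (Eu n)} {f : Eu n → Eu n} (h : IsPAHomeo Ω f) :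
    SM.Stm.PAHomeo Ω f := by
  obtain ⟨S, hS1, hS2, hS3, hS4, hS5, hS6, hS7⟩ := h.pieces
  refine ⟨?_, ?_⟩
  · have hc : ContinuousOn f Ω := continuousOn_iff_continuous_domRestrict.2 h.emb.continuous
    have hi : InjOn f Ω := injOn_iff_injective.2 h.emb.injective
    refine ⟨hc, hi, Function.invFunOn f Ω, ?_, fun x hx => hi.leftInvOn_invFunOn hx⟩
    rintro _ ⟨x, hx, rfl⟩
    have hx0 : Function.invFunOn f Ω (f x) = x := hi.leftInvOn_invFunOn hx
    rw [ContinuousWithinAt, hx0]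
    rw [Metric.tendsto_nhdsWithin_nhds]
    intro ε hε
    have h1 := h.emb.toIsInducing.nhds_eq_comap ⟨x, hx⟩
    have h2 : Metric.ball (⟨x, hx⟩ : Ω) ε ∈ nhds (⟨x, hx⟩ : Ω) := Metric.ball_mem_nhds _ hε
    rw [h1, Filter.mem_comap] at h2
    obtain ⟨t, ht, hts⟩ := h2
    obtain ⟨δ, hδ, hδt⟩ := Metric.mem_nhds_iff.1 ht
    refine ⟨δ, hδ, ?_⟩
    rintro _ ⟨y, hy, rfl⟩ hd
    have hy0 : Function.invFunOn f Ω (f y) = y := hi.leftInvOn_invFunOn hy
    rw [hy0]
    have h3 : (⟨y, hy⟩ : Ω) ∈ Ω.domRestrict f ⁻¹' t := hδt (by simpa using hd)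
    have h4 := hts h3
    simpa [Subtype.dist_eq] using h4
  · refine ⟨S, hS1.to_subtype, fun v => v.1, ⟨fun v => hS2 _ v.2, fun v => hS3 _ v.2,
      fun v w hvw => hS4 _ v.2 _ w.2 (fun h => hvw (Subtype.ext h)), ?_, ?_⟩, fun v => hS7 _ v.2⟩
    · intro x hx
      obtain ⟨v, hv, hxv⟩ := mem_iUnion₂.1 (hS5 hx)
      exact mem_iUnion.2 ⟨⟨v, hv⟩, hxv⟩
    · intro K hK hKΩ
      have h1 := hS6 K hK hKΩ
      refine (h1.preimage (f := fun v : S => v.1) Subtype.val_injective.injOn).subset ?_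
      intro v hv
      exact ⟨v.2, hv⟩

theorem ofDiffeo {n : ℕ} {Ω : Set (Eu n)} {g : Eu n → Eu n} (h : SM.Stm.IsDiffeoOn Ω g) :
    IsDiffeo Ω g := by
  obtain ⟨k, hk, hk'⟩ := h.smooth_inv
  refine ⟨h.smooth, h.inj, h.open_image, hk.congr ?_⟩
  rintro _ ⟨x, hx, rfl⟩
  rw [hk' x hx]
  exact h.inj.leftInvOn_invFunOn hx

theorem toSobolev {n : ℕ} {Ω : Set (Eu n)} {p : ℝ≥0∞} {f : Eu n → Eu n} (h : MemW Ω p f) :
    SM.Stm.Sobolev Ω p f := by
  obtain ⟨hf, G, hG, hGm⟩ := h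
  exact ⟨G, hf, hGm, hG.2.2⟩

private theorem locInt {n : ℕ} {Ω : Set (Eu n)} (hΩ : IsOpen Ω) {p : ℝ≥0∞} (hp : 1 ≤ p)
    {W : Type*} [NormedAddCommGroup W] {f : Eu n → W} (hf : MemLp f p (volume.restrict Ω)) :
    LocallyIntegrableOn f Ω volume := by
  have h1 : LocallyIntegrable f (volume.restrict Ω) := hf.locallyIntegrable hp
  exact locallyIntegrableOn_of_locallyIntegrable_restrict h1

private theorem intg {n : ℕ} {Ω : Set (Eu n)} {W : Type*} [NormedAddCommGroup W] [NormedSpace ℝ W]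
    {f : Eu n → W} (hf : LocallyIntegrableOn f Ω volume) {c : Eu n → ℝ}
    (hc : Continuous c) (hcs : HasCompactSupport c) (hct : tsupport c ⊆ Ω) :
    IntegrableOn (fun x => c x • f x) Ω volume := by
  have hK : IsCompact (tsupport c) := hcs
  have h1 : IntegrableOn f (tsupport c) volume := hf.integrableOn_compact_subset hct hK
  have h2 : IntegrableOn (fun x => c x • f x) (tsupport c) volume :=
    h1.continuousOn_smul hc.continuousOn hK
  have h3 : Integrable (fun x => c x • f x) volume := by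
    rw [← integrableOn_iff_integrable_of_support_subset (s := tsupport c)]
    · exact h2
    · intro x hx
      apply subset_tsupport
      intro h0
      apply hx
      simp only [h0, zero_smul]
  exact h3.integrableOn

theorem toWDist {n : ℕ} {Ω : Set (Eu n)} (hΩ : IsOpen Ω) {p : ℝ≥0∞} (hp : 1 ≤ p)
    {f g : Eu n → Eu n} {F G : Eu n → Eu n →L[ℝ] Eu n} (hf : SM.Stm.MemW Ω p f F)
    (hg : SM.Stm.MemW Ω p g G) {ε : ℝ} (h : SM.Stm.distW Ω p f g F G < ENNReal.ofReal ε) :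
    WDistLT Ω p g f ε := by
  have lf := locInt hΩ hp hf.memf
  have lg := locInt hΩ hp hg.memf
  have lF := locInt hΩ hp hf.memF
  have lG := locInt hΩ hp hg.memF
  refine ⟨fun x => G x - F x, ⟨lg.sub lf, lG.sub lF, ?_⟩, h⟩
  intro φ hφ hφc hφΩ w
  have hd : Continuous fun x => fderiv ℝ φ x w :=
    (hφ.continuous_fderiv (by simp)).clm_apply continuous_const
  have hdc : HasCompactSupport fun x => fderiv ℝ φ x w := hφc.fderiv_apply (𝕜 := ℝ) w
  have hdt : tsupport (fun x => fderiv ℝ φ x w) ⊆ Ω :=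
    (tsupport_fderiv_apply_subset ℝ w).trans hφΩ
  have e1 := hf.weak φ hφ hφc hφΩ w
  have e2 := hg.weak φ hφ hφc hφΩ w
  have i1 := intg lf hd hdc hdt
  have i2 := intg lg hd hdc hdt
  have j1 : IntegrableOn (fun x => φ x • F x w) Ω volume := by
    have := (intg lF hφ.continuous hφc hφΩ)
    have h2 := (ContinuousLinearMap.apply ℝ (Eu n) w).integrable_comp this
    exact h2.congr (Filter.Eventually.of_forall fun x => by simp)
  have j2 : IntegrableOn (fun x => φ x • G x w) Ω volume := by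
    have := (intg lG hφ.continuous hφc hφΩ)
    have h2 := (ContinuousLinearMap.apply ℝ (Eu n) w).integrable_comp this
    exact h2.congr (Filter.Eventually.of_forall fun x => by simp)
  simp only [smul_sub, sub_apply]
  rw [integral_sub i2 i1, integral_sub j2 j1, e1, e2]
  abel

theorem exists_close {δ ρ d d0 : ℝ} {F : Eu 14 → Eu 14} {φ : Eu 6 → Eu 6}
    (D : SmoothBox δ ρ F φ) (hd : 0 < d) (hdd : d < d0) (hd0 : d0 ≤ 1)
    (A : Eu 14 ≃ᵃ[ℝ] Eu 14) {Ω : Set (Eu 14)} (hΩo : IsOpen Ω) (hΩb : Bornology.IsBounded Ω)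
    (hΩ : ∀ x ∈ boxU ρ d0, A x ∈ Ω ↔ (x ∈ zlt δ ∧ |x 13| < d))
    {C : Set (Eu 14)} (hC : IsCompact C) (hCΩ : C ⊆ Ω) {ε : ℝ} (hε : 0 < ε)
    (h : ∀ (Ω : Set (Eu 14)) (f : Eu 14 → Eu 14), IsOpen Ω → SM.Stm.PAHomeo Ω f →
      SM.Stm.Sobolev Ω 15 f → SM.Stm.Approximable Ω 15 f) :
    ∃ g : Eu 14 → Eu 14, IsDiffeo Ω g ∧
      ∀ x ∈ C, ‖g x - gl A (boxU ρ d0) (model F φ) x‖ < ε := by
  by_contra hno
  push Not at hno
  obtain ⟨f, h1, -, h3, h4⟩ := exo_of_theoremB D hd hdd hd0 A hΩo hΩb hΩ hC hCΩ hε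
    (fun g hg hx => by
      obtain ⟨x, hx1, hx2⟩ := hno g hg
      exact absurd (hx x hx1) (not_lt.2 hx2))
  obtain ⟨ε', hε', h5⟩ := h4 15 (by norm_num)
  have e15 : ENNReal.ofReal 15 = 15 := by norm_num
  rw [e15] at h5
  obtain ⟨F', hF', h6⟩ := h Ω f hΩo (toPAHomeo h1) (toSobolev (h3 15))
  obtain ⟨g, G, hg, hG, hdist⟩ := h6 (ENNReal.ofReal ε') (by simpa using hε')
  exact h5 g (ofDiffeo hg) (toWDist hΩo (by norm_num) hF' hG hdist)

end EXO
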