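import Pool.Agent.EXO.TDefs

/-!
# EXO, part T, module TDya: Whitney decomposition into dyadic cubes

STATEMENT: every open set is a union of closed dyadic cubes of side `2^{-k}`, `k ≥ 0`, contained in it, with pairwise disjoint
interiors, such that every compact subset meets only finitely many of them.

PROOF.  `Q(k,a) = {x | a_i/2^k ≤ x_i ≤ (a_i+1)/2^k}`; enlarged cube `Q*(k,a) = {x | (a_i-1)/2^k ≤ x_i ≤ (a_i+2)/2^k}`.
Parent of `(k+1,a)`: `(k, ⌊a_i/2⌋)` (integer division `a_i / 2`): `Q(k+1,a) ⊆ Q(k,a/2)`, and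
`Q*(k+1,a) ⊆ Q*(k,a/2)`.  Call `(k,a)` good if `Q*(k,a) ⊆ Ω`.  `𝒬 := {(k,a) good, and (k = 0 or the parent is not good)}`.
* `Q(k,a) ⊆ Q*(k,a) ⊆ Ω`.
* interiors: `interior Q(k,a) = {∀ i, a_i/2^k < x_i < (a_i+1)/2^k}` (only `⊆` is needed).  Let `(k,a) ≠ (l,b)` in `𝒬` and `x` in both
  interiors, wlog `k ≤ l`.  The `(l-k)`-fold parent of `(l,b)` is `(k, ⌊b_i/2^{l-k}⌋)`, whose cube contains `x`
  with `x_i` in the open interval, so it is `(k,a)` (both `a_i = ⌊2^k x_i⌋`).  If `l > k` then all the iterated parents of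
  `(l,b)` up to level `l-1` contain... : goodness goes down: if a cube is good all its descendants are good
  (`Q*` nested), so the parent of `(l,b)`, a descendant of `(k,a)` or `(k,a)` itself, is good: contradiction.  If `l = k`: equal.
* covering: let `x ∈ Ω`, `a^k_i = ⌊2^k x_i⌋`.  `x ∈ Q(k,a^k)`, `(k,a^k)` is the parent of `(k+1,a^{k+1})`, and for large
  `k`, `Q*(k,a^k) ⊆` the sup-ball of radius `2·2^{-k}` about `x` `⊆ Ω`; take the smallest good `k`.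
* local finiteness: let `K ⊆ Ω` be compact: there is `k_0` such that for `x ∈ K` the set `{y | ∀ i, |y_i - x_i| ≤ 4·2^{-k_0}}` is
  contained in `Ω` (Lebesgue number / `IsCompact.exists_cthickening_subset_open`, norms of `Eu n` and sup are comparable:
  `‖y‖ ≤ √n max |y_i|`).  If `(k,a) ∈ 𝒬`, `k > k_0`, meets `K` in `x` then the parent `(k-1,a')`
  contains `x` and `Q*(k-1,a') ⊆ {|y_i - x_i| ≤ 2·2^{-(k-1)}} ⊆ Ω`, so the parent is good, contradiction.  So `k ≤ k_0`,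
  and `|a_i| ≤ 2^k (R+1)` where `|x_i| ≤ R` on `K`: finitely many `(k,a)`.
-/

namespace EXO

open Set Function

/-- closed dyadic cube of side `2^{-k}` -/
def dcube {n : ℕ} (k : ℕ) (a : Fin n → ℤ) : Set (Eu n) :=
  {x | ∀ i, (a i : ℝ) / 2 ^ k ≤ x i ∧ x i ≤ ((a i : ℝ) + 1) / 2 ^ k}

/-- enlarged cube -/
private def star51 {n : ℕ} (k : ℕ) (a : Fin n → ℤ) : Set (Eu n) :=
  {x | ∀ i, ((a i : ℝ) - 1) / 2 ^ k ≤ x i ∧ x i ≤ ((a i : ℝ) + 2) / 2 ^ k}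

/-- parent -/
private def par51 {n : ℕ} (a : Fin n → ℤ) : Fin n → ℤ := fun i => a i / 2

private theorem par_bd51 (a : ℤ) : 2 * ((a / 2 : ℤ) : ℝ) ≤ a ∧ (a : ℝ) ≤ 2 * ((a / 2 : ℤ) : ℝ) + 1 := by
  have h1 : 2 * (a / 2) ≤ a := by omega
  have h2 : a ≤ 2 * (a / 2) + 1 := by omega
  constructor
  · exact_mod_cast h1
  · exact_mod_cast h2

private theorem dcube_par51 {n : ℕ} (k : ℕ) (a : Fin n → ℤ) :
    dcube (k + 1) a ⊆ dcube k (par51 a) := by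
  intro x hx i
  obtain ⟨h1, h2⟩ := hx i
  obtain ⟨h3, h4⟩ := par_bd51 (a i)
  have hp : (0 : ℝ) < 2 ^ k := by positivity
  rw [div_le_iff₀ (by positivity), pow_succ] at h1
  rw [le_div_iff₀ (by positivity), pow_succ] at h2
  refine ⟨?_, ?_⟩
  · rw [div_le_iff₀ hp]
    show ((a i / 2 : ℤ) : ℝ) ≤ _
    nlinarith
  · rw [le_div_iff₀ hp]
    show _ ≤ ((a i / 2 : ℤ) : ℝ) + 1
    nlinarith

private theorem star_par51 {n : ℕ} (k : ℕ) (a : Fin n → ℤ) :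
    star51 (k + 1) a ⊆ star51 k (par51 a) := by
  intro x hx i
  obtain ⟨h1, h2⟩ := hx i
  obtain ⟨h3, h4⟩ := par_bd51 (a i)
  have hp : (0 : ℝ) < 2 ^ k := by positivity
  rw [div_le_iff₀ (by positivity), pow_succ] at h1
  rw [le_div_iff₀ (by positivity), pow_succ] at h2
  refine ⟨?_, ?_⟩
  · rw [div_le_iff₀ hp]
    show ((a i / 2 : ℤ) : ℝ) - 1 ≤ _
    nlinarith
  · rw [le_div_iff₀ hp]
    show _ ≤ ((a i / 2 : ℤ) : ℝ) + 2
    nlinarith

private theorem dcube_sub_star51 {n : ℕ} (k : ℕ) (a : Fin n → ℤ) : dcube k a ⊆ star51 k a := by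
  intro x hx i
  obtain ⟨h1, h2⟩ := hx i
  have hp : (0 : ℝ) < 2 ^ k := by positivity
  refine ⟨le_trans ?_ h1, le_trans h2 ?_⟩
  · gcongr; linarith
  · gcongr; norm_num

/-- address of a point -/
private noncomputable def adr51 {n : ℕ} (k : ℕ) (x : Eu n) : Fin n → ℤ := fun i => ⌊2 ^ k * x i⌋

private theorem mem_adr51 {n : ℕ} (k : ℕ) (x : Eu n) : x ∈ dcube k (adr51 k x) := by
  intro i
  have hp : (0 : ℝ) < 2 ^ k := by positivity
  have h1 : ((⌊2 ^ k * x i⌋ : ℤ) : ℝ) ≤ 2 ^ k * x i := Int.floor_le _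
  have h2 : 2 ^ k * x i < ((⌊2 ^ k * x i⌋ : ℤ) : ℝ) + 1 := Int.lt_floor_add_one _
  refine ⟨?_, ?_⟩
  · rw [div_le_iff₀ hp]
    show ((⌊2 ^ k * x i⌋ : ℤ) : ℝ) ≤ _
    linarith
  · rw [le_div_iff₀ hp]
    show _ ≤ ((⌊2 ^ k * x i⌋ : ℤ) : ℝ) + 1
    linarith

private theorem adr_succ51 {n : ℕ} (k : ℕ) (x : Eu n) : adr51 k x = par51 (adr51 (k + 1) x) := by
  funext i
  show ⌊2 ^ k * x i⌋ = ⌊2 ^ (k + 1) * x i⌋ / 2
  rw [Int.floor_eq_iff]
  obtain ⟨h3, h4⟩ := par_bd51 ⌊2 ^ (k + 1) * x i⌋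
  have h1 : ((⌊2 ^ (k + 1) * x i⌋ : ℤ) : ℝ) ≤ 2 ^ (k + 1) * x i := Int.floor_le _
  have h2 : 2 ^ (k + 1) * x i < ((⌊2 ^ (k + 1) * x i⌋ : ℤ) : ℝ) + 1 := Int.lt_floor_add_one _
  rw [pow_succ] at h1 h2 h3 h4 ⊢
  constructor <;> linarith

/-- points of the interior have the right address -/
private theorem interior_adr51 {n : ℕ} (k : ℕ) (a : Fin n → ℤ) {x : Eu n}
    (hx : x ∈ interior (dcube k a)) : adr51 k x = a := by
  have hp : (0 : ℝ) < 2 ^ k := by positivity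
  obtain ⟨ε, hε, hb⟩ := Metric.isOpen_iff.1 isOpen_interior x hx
  have hxd := interior_subset hx
  funext i
  show ⌊2 ^ k * x i⌋ = a i
  rw [Int.floor_eq_iff]
  obtain ⟨h1, h2⟩ := hxd i
  rw [div_le_iff₀ hp] at h1
  refine ⟨by linarith, ?_⟩
  -- move in the direction i
  have hy : x + EuclideanSpace.single i (ε / 2) ∈ Metric.ball x ε := by
    rw [Metric.mem_ball, dist_eq_norm, add_sub_cancel_left, EuclideanSpace.norm_single,
      Real.norm_eq_abs, abs_of_pos (by linarith)]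
    linarith
  have hyd := interior_subset (hb hy)
  obtain ⟨-, h3⟩ := hyd i
  have e : (x + EuclideanSpace.single i (ε / 2)) i = x i + ε / 2 := by simp
  rw [e, le_div_iff₀ hp] at h3
  nlinarith

private theorem star_ball51 {n : ℕ} (k : ℕ) (a : Fin n → ℤ) {x y : Eu n} (hx : x ∈ dcube k a)
    (hy : y ∈ star51 k a) : dist y x ≤ Real.sqrt n * (2 / 2 ^ k) := by
  have hp : (0 : ℝ) < 2 ^ k := by positivity
  rw [EuclideanSpace.dist_eq]
  have h1 : ∀ i : Fin n, dist (y i) (x i) ^ 2 ≤ (2 / 2 ^ k) ^ 2 := by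
    intro i
    obtain ⟨h1, h2⟩ := hx i
    obtain ⟨h3, h4⟩ := hy i
    rw [Real.dist_eq]
    have e1 : ((a i : ℝ) - 1) / 2 ^ k = (a i : ℝ) / 2 ^ k - 1 / 2 ^ k := by ring
    have e2 : ((a i : ℝ) + 2) / 2 ^ k = (a i : ℝ) / 2 ^ k + 2 / 2 ^ k := by ring
    have e3 : ((a i : ℝ) + 1) / 2 ^ k = (a i : ℝ) / 2 ^ k + 1 / 2 ^ k := by ring
    rw [e1] at h3
    rw [e2] at h4
    rw [e3] at h2
    have e4 : (2 : ℝ) / 2 ^ k = 1 / 2 ^ k + 1 / 2 ^ k := by ring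
    refine pow_le_pow_left₀ (abs_nonneg _) ?_ 2
    rw [abs_le]
    constructor <;> linarith
  calc Real.sqrt (∑ i, dist (y i) (x i) ^ 2)
      ≤ Real.sqrt (∑ _i : Fin n, (2 / 2 ^ k : ℝ) ^ 2) :=
        Real.sqrt_le_sqrt (Finset.sum_le_sum fun i _ => h1 i)
    _ = Real.sqrt n * (2 / 2 ^ k) := by
        rw [Finset.sum_const, Finset.card_univ, Fintype.card_fin, nsmul_eq_mul,
          Real.sqrt_mul (Nat.cast_nonneg n), Real.sqrt_sq (by positivity)]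

private theorem small51 (n : ℕ) {δ : ℝ} (hδ : 0 < δ) :
    ∃ k₀ : ℕ, ∀ k, k₀ ≤ k → Real.sqrt n * (2 / 2 ^ k) < δ := by
  have h : Filter.Tendsto (fun k : ℕ => Real.sqrt n * (2 / 2 ^ k)) Filter.atTop
      (nhds (Real.sqrt n * 0)) := by
    refine Filter.Tendsto.const_mul _ ?_
    have := (tendsto_pow_atTop_nhds_zero_of_lt_one (r := (1 / 2 : ℝ)) (by norm_num)
      (by norm_num)).const_mul 2
    rw [mul_zero] at this
    refine this.congr fun k => ?_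
    rw [one_div, inv_pow]
    rfl
  rw [mul_zero] at h
  obtain ⟨k₀, hk⟩ := Filter.eventually_atTop.1 (h.eventually (gt_mem_nhds hδ))
  exact ⟨k₀, fun k hkk => hk k hkk⟩

/-- goodness goes down along addresses -/
private theorem good_down51 {n : ℕ} {Ω : Set (Eu n)} (x : Eu n) {k : ℕ}
    (h : star51 k (adr51 k x) ⊆ Ω) (m : ℕ) : star51 (k + m) (adr51 (k + m) x) ⊆ Ω := by
  induction m with
  | zero => exact h
  | succ m ih =>
    refine subset_trans ?_ ih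
    have e := adr_succ51 (k + m) x
    rw [e]
    exact star_par51 (k + m) (adr51 (k + m + 1) x)

theorem whitney {n : ℕ} (Ω : Set (Eu n)) (hΩ : IsOpen Ω) :
    ∃ 𝒬 : Set (ℕ × (Fin n → ℤ)),
      (∀ q ∈ 𝒬, dcube q.1 q.2 ⊆ Ω) ∧
      (∀ q ∈ 𝒬, ∀ q' ∈ 𝒬, q ≠ q' →
        Disjoint (interior (dcube q.1 q.2)) (interior (dcube q'.1 q'.2))) ∧
      (Ω ⊆ ⋃ q ∈ 𝒬, dcube q.1 q.2) ∧
      ∀ K : Set (Eu n), IsCompact K → K ⊆ Ω → {q ∈ 𝒬 | (dcube q.1 q.2 ∩ K).Nonempty}.Finite := by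
  set Q : Set (ℕ × (Fin n → ℤ)) := {q | star51 q.1 q.2 ⊆ Ω ∧
    ∀ m, q.1 = m + 1 → ¬ star51 m (par51 q.2) ⊆ Ω} with hQ
  refine ⟨Q, ?_, ?_, ?_, ?_⟩
  · rintro q ⟨h1, -⟩
    exact (dcube_sub_star51 q.1 q.2).trans h1
  · -- disjoint interiors
    have key : ∀ q ∈ Q, ∀ q' ∈ Q, q.1 ≤ q'.1 → ∀ x, x ∈ interior (dcube q.1 q.2) →
        x ∈ interior (dcube q'.1 q'.2) → q = q' := by
      rintro ⟨k, a⟩ ⟨h1, h2⟩ ⟨l, b⟩ ⟨h3, h4⟩ hkl x hx hx'
      simp only at *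
      have ea := interior_adr51 k a hx
      have eb := interior_adr51 l b hx'
      rcases hkl.lt_or_eq with hlt | heq
      · exfalso
        obtain ⟨m, rfl⟩ : ∃ m, l = k + m + 1 := ⟨l - k - 1, by omega⟩
        refine h4 (k + m) rfl ?_
        rw [← eb, ← adr_succ51]
        rw [← ea] at h1
        exact good_down51 x h1 m
      · subst heq
        rw [← ea, ← eb]
    intro q hq q' hq' hne
    rw [Set.disjoint_left]
    intro x hx hx'
    rcases le_total q.1 q'.1 with h | h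
    · exact hne (key q hq q' hq' h x hx hx')
    · exact hne (key q' hq' q hq h x hx' hx).symm
  · -- covering
    intro x hx
    obtain ⟨δ, hδ, hb⟩ := Metric.isOpen_iff.1 hΩ x hx
    obtain ⟨k₀, hk₀⟩ := small51 n hδ
    have hex : ∃ k, star51 k (adr51 k x) ⊆ Ω := by
      refine ⟨k₀, fun y hy => hb ?_⟩
      rw [Metric.mem_ball]
      exact (star_ball51 k₀ _ (mem_adr51 k₀ x) hy).trans_lt (hk₀ k₀ le_rfl)
    classical
    refine mem_iUnion₂.2 ⟨(Nat.find hex, adr51 (Nat.find hex) x), ⟨Nat.find_spec hex, ?_⟩,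
      mem_adr51 _ x⟩
    intro m hm
    simp only at hm ⊢
    rw [hm, ← adr_succ51]
    exact Nat.find_min hex (by omega)
  · -- local finiteness
    intro K hK hKΩ
    obtain ⟨δ, hδ, hth⟩ := hK.exists_cthickening_subset_open hΩ hKΩ
    obtain ⟨k₀, hk₀⟩ := small51 n hδ
    obtain ⟨R, hR⟩ := hK.isBounded.subset_closedBall (0 : Eu n)
    have hfin : ({q : ℕ × (Fin n → ℤ) | q.1 ≤ k₀ ∧
        ∀ i, q.2 i ∈ Set.Icc (-⌈2 ^ q.1 * (|R| + 1)⌉ - 1) (⌈2 ^ q.1 * (|R| + 1)⌉)}).Finite := by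
      have : {q : ℕ × (Fin n → ℤ) | q.1 ≤ k₀ ∧
          ∀ i, q.2 i ∈ Set.Icc (-⌈2 ^ q.1 * (|R| + 1)⌉ - 1) (⌈2 ^ q.1 * (|R| + 1)⌉)}
          ⊆ ⋃ k ∈ Set.Iic k₀, (fun a => (k, a)) '' (Set.Icc
            (fun _ : Fin n => -⌈2 ^ k * (|R| + 1)⌉ - 1) (fun _ : Fin n => ⌈2 ^ k * (|R| + 1)⌉)) := by
        rintro ⟨k, a⟩ ⟨h1, h2⟩
        exact mem_iUnion₂.2 ⟨k, h1, a, ⟨fun i => (h2 i).1, fun i => (h2 i).2⟩, rfl⟩
      exact (Set.Finite.biUnion (Set.finite_Iic k₀) fun k _ =>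
        (Set.finite_Icc _ _).image _).subset this
    refine hfin.subset ?_
    rintro ⟨k, a⟩ ⟨⟨h1, h2⟩, x, hxd, hxK⟩
    simp only at *
    have hp : (0 : ℝ) < 2 ^ k := by positivity
    refine ⟨?_, fun i => ?_⟩
    · by_contra hc
      obtain ⟨m, rfl⟩ : ∃ m, k = m + 1 := ⟨k - 1, by simp only at hc; omega⟩
      refine h2 m rfl fun y hy => ?_
      apply hth
      have hxp : x ∈ dcube m (par51 a) := dcube_par51 m a hxd
      refine Metric.mem_cthickening_of_dist_le y x δ K hxK ?_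
      exact ((star_ball51 m _ hxp hy).trans_lt (hk₀ m (by simp only at hc; omega))).le
    · have hxR : ‖x‖ ≤ R := by
        have := hR hxK
        rwa [mem_closedBall_zero_iff] at this
      have hxi : |x i| ≤ |R| := by
        have h3 : ‖x i‖ ≤ ‖x‖ := PiLp.norm_apply_le x i
        rw [Real.norm_eq_abs] at h3
        exact h3.trans (hxR.trans (le_abs_self R))
      obtain ⟨h3, h4⟩ := hxd i
      rw [div_le_iff₀ hp] at h3
      rw [le_div_iff₀ hp] at h4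
      have h5 : (2 : ℝ) ^ k * (|R| + 1) ≤ ((⌈(2 : ℝ) ^ k * (|R| + 1)⌉ : ℤ) : ℝ) := Int.le_ceil _
      rw [abs_le] at hxi
      constructor
      · have h6 : (-((⌈(2 : ℝ) ^ k * (|R| + 1)⌉ : ℤ) : ℝ) - 1) ≤ (a i : ℝ) := by nlinarith
        exact_mod_cast h6
      · have h6 : (a i : ℝ) ≤ ((⌈(2 : ℝ) ^ k * (|R| + 1)⌉ : ℤ) : ℝ) := by nlinarith
        exact_mod_cast h6

end EXO
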