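import Pool.Agent.EXO.TCut
import Pool.Agent.EXO.TDya

/-!
# EXO, part T, module TCube: cutting a dyadic cube into simplices subordinate to finitely many hyperplanes

PROOF.  (a) There is a non-degenerate simplex `v` with `dcube k a ⊆ spx v`: the cube is bounded, contained in
`{|x_i| ≤ R}`; e.g. the simplex with vertices `v_0 = -R(1,…,1)` and `v_i = v_0 + 2nR' e_i` (`R' = R+1`,
`spx v = {x | x_i ≥ -R', ∑ (x_i + R') ≤ 2nR'}`), or: `exists_mem_interior_convexHull_affineBasis` (with a neighbourhood of `0`)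
gives an affine basis `b` with `0 ∈ interior (convexHull (range b))`, scale it by a large factor
`c`: `convexHull (range (c • b)) = c • convexHull (range b) ⊇ ball 0 (c r)`.
(b) Apply `cut_simplex` to `v` and `L ∪ {x ↦ x_i - a_i/2^k, x ↦ (a_i+1)/2^k - x_i}` (finite).  Let
`T := {w ∈ T₀ | spx w ⊆ dcube k a}`.
(c) `⋃_{w ∈ T} spx w = dcube k a`: `⊆` clear.  If all inequalities are strict at `x` (`a_i/2^k < x_i < (a_i+1)/2^k`), `x ∈ spx v`, take
`w ∈ T₀` with `x ∈ spx w`; each of the `2n` functionals has a constant weak sign on `spx w` and is `> 0` at `x`, so it is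
`≥ 0` on `spx w`: `spx w ⊆ dcube k a`, `w ∈ T`.  The set of such `x` is dense in `dcube k a` (for `y ∈ dcube k a` and
the centre `c` of the cube, `y + s (c - y)` is strict for `0 < s ≤ 1`) and `⋃_{w ∈ T} spx w` is closed (finite union of compact
sets: `spx w` is compact, `(Set.finite_range w).isCompact_convexHull`), so `dcube k a ⊆ ⋃`.
-/

namespace EXO

open Set Function Metric
open scoped Pointwise

/-- a big simplex -/
private theorem tcube_big {n : ℕ} (R : ℝ) :
    ∃ v : Fin (n + 1) → Eu n, AffineIndependent ℝ v ∧ closedBall (0 : Eu n) R ⊆ spx v := by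
  obtain ⟨b, hb, -⟩ := exists_mem_interior_convexHull_affineBasis (E := Eu n) (s := univ) (x := 0)
    Filter.univ_mem
  have hn : Module.finrank ℝ (Eu n) + 1 = n + 1 := by simp
  obtain ⟨r, hr, hball⟩ := Metric.isOpen_iff.1 isOpen_interior 0 hb
  obtain ⟨c, hc0, hc⟩ : ∃ c : ℝ, 0 < c ∧ R < c * r := by
    refine ⟨(|R| + 1) / r, by positivity, ?_⟩
    rw [div_mul_cancel₀ _ hr.ne']
    linarith [le_abs_self R]
  let w : Fin (n + 1) → Eu n := fun i => c • b (finCongr hn.symm i)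
  refine ⟨w, ?_, ?_⟩
  · have h1 : AffineIndependent ℝ (fun i => b (finCongr hn.symm i)) :=
      b.ind.comp_embedding (finCongr hn.symm).toEmbedding
    have h2 := h1.smul (G := ℝˣ) (a := Units.mk0 c hc0.ne')
    exact h2
  · intro x hx
    have h1 : range w = c • range b := by
      ext y
      constructor
      · rintro ⟨i, rfl⟩
        exact Set.smul_mem_smul_set ⟨_, rfl⟩
      · rintro ⟨_, ⟨j, rfl⟩, rfl⟩
        exact ⟨(finCongr hn.symm).symm j, by simp [w]⟩
    unfold spx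
    rw [h1, convexHull_smul]
    refine ⟨c⁻¹ • x, interior_subset (hball ?_), ?_⟩
    · rw [mem_ball_zero_iff, norm_smul, norm_inv, Real.norm_of_nonneg hc0.le]
      rw [mem_closedBall_zero_iff] at hx
      rw [inv_mul_lt_iff₀ hc0]
      linarith
    · simp [smul_smul, mul_inv_cancel₀ hc0.ne']

private noncomputable def tcubeLo {n : ℕ} (k : ℕ) (a : Fin n → ℤ) (i : Fin n) : Eu n →ᵃ[ℝ] ℝ :=
  (EuclideanSpace.proj (𝕜 := ℝ) i : Eu n →L[ℝ] ℝ).toLinearMap.toAffineMap -
    AffineMap.const ℝ (Eu n) ((a i : ℝ) / 2 ^ k)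

private noncomputable def tcubeHi {n : ℕ} (k : ℕ) (a : Fin n → ℤ) (i : Fin n) : Eu n →ᵃ[ℝ] ℝ :=
  AffineMap.const ℝ (Eu n) (((a i : ℝ) + 1) / 2 ^ k) -
    (EuclideanSpace.proj (𝕜 := ℝ) i : Eu n →L[ℝ] ℝ).toLinearMap.toAffineMap

private theorem tcubeLo_apply {n : ℕ} (k : ℕ) (a : Fin n → ℤ) (i : Fin n) (x : Eu n) :
    tcubeLo k a i x = x i - (a i : ℝ) / 2 ^ k := rfl

private theorem tcubeHi_apply {n : ℕ} (k : ℕ) (a : Fin n → ℤ) (i : Fin n) (x : Eu n) :
    tcubeHi k a i x = ((a i : ℝ) + 1) / 2 ^ k - x i := rfl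

private theorem tcube_bdd {n : ℕ} (k : ℕ) (a : Fin n → ℤ) :
    ∃ R, dcube k a ⊆ closedBall (0 : Eu n) R := by
  refine ⟨∑ i, (|(a i : ℝ)| + 1), fun x hx => ?_⟩
  rw [mem_closedBall_zero_iff]
  have h1 : ‖x‖ ≤ ∑ i, ‖x i‖ := by
    have := norm_sum_le (Finset.univ : Finset (Fin n))
      (fun i => EuclideanSpace.single i (x i) : Fin n → Eu n)
    have h2 : ∑ i, (EuclideanSpace.single i (x i) : Eu n) = x := by
      ext j
      simp
    rw [h2] at this
    simpa using this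
  refine h1.trans (Finset.sum_le_sum fun i _ => ?_)
  obtain ⟨h3, h4⟩ := hx i
  have hp : (1 : ℝ) ≤ 2 ^ k := one_le_pow₀ (by norm_num)
  have hp0 : (0 : ℝ) < 2 ^ k := by linarith
  rw [Real.norm_eq_abs, abs_le]
  constructor
  · refine le_trans ?_ h3
    rw [le_div_iff₀ hp0]
    have := neg_abs_le (a i : ℝ)
    have := abs_nonneg (a i : ℝ)
    nlinarith
  · refine h4.trans ?_
    rw [div_le_iff₀ hp0]
    have := le_abs_self (a i : ℝ)
    have := abs_nonneg (a i : ℝ)
    nlinarith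

theorem cut_cube {n : ℕ} (k : ℕ) (a : Fin n → ℤ) (L : Set (Eu n →ᵃ[ℝ] ℝ)) (hL : L.Finite) :
    ∃ T : Set (Fin (n + 1) → Eu n), T.Finite ∧
      (∀ w ∈ T, AffineIndependent ℝ w) ∧ (⋃ w ∈ T, spx w) = dcube k a ∧
      (∀ w ∈ T, ∀ w' ∈ T, w ≠ w' → Disjoint (interior (spx w)) (interior (spx w'))) ∧
      ∀ w ∈ T, ∀ ℓ ∈ L, (∀ x ∈ spx w, 0 ≤ ℓ x) ∨ (∀ x ∈ spx w, ℓ x ≤ 0) := by
  obtain ⟨R, hR⟩ := tcube_bdd k a
  obtain ⟨v, hv, hvR⟩ := tcube_big (n := n) R
  obtain ⟨T₀, hT₀, hind, hun, hdisj, hsgn⟩ := cut_simplex v hv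
    (L ∪ (range (tcubeLo k a) ∪ range (tcubeHi k a)))
    (hL.union ((finite_range _).union (finite_range _)))
  refine ⟨{w ∈ T₀ | spx w ⊆ dcube k a}, hT₀.subset (sep_subset _ _), fun w hw => hind w hw.1, ?_,
    fun w hw w' hw' h => hdisj w hw.1 w' hw'.1 h, fun w hw ℓ hℓ => hsgn w hw.1 ℓ (Or.inl hℓ)⟩
  apply Subset.antisymm
  · exact iUnion₂_subset fun w hw => hw.2
  · have hcl : IsClosed (⋃ w ∈ {w ∈ T₀ | spx w ⊆ dcube k a}, spx w) := by
      refine (hT₀.subset (sep_subset _ _)).isClosed_biUnion fun w _ => ?_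
      exact ((Set.finite_range w).isCompact_convexHull ℝ).isClosed
    have hstrict : ∀ x : Eu n, (∀ i, (a i : ℝ) / 2 ^ k < x i ∧ x i < ((a i : ℝ) + 1) / 2 ^ k) →
        x ∈ (⋃ w ∈ {w ∈ T₀ | spx w ⊆ dcube k a}, spx w) := by
      intro x hx
      have hxd : x ∈ dcube k a := fun i => ⟨(hx i).1.le, (hx i).2.le⟩
      have hxv : x ∈ ⋃ w ∈ T₀, spx w := by
        rw [hun]
        exact hvR (hR hxd)
      simp only [mem_iUnion, exists_prop] at hxv ⊢
      obtain ⟨w, hw, hxw⟩ := hxv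
      refine ⟨w, ⟨hw, fun y hy i => ?_⟩, hxw⟩
      constructor
      · rcases hsgn w hw (tcubeLo k a i) (Or.inr (Or.inl ⟨i, rfl⟩)) with h | h
        · have := h y hy
          rw [tcubeLo_apply] at this
          linarith
        · have := h x hxw
          rw [tcubeLo_apply] at this
          linarith [(hx i).1]
      · rcases hsgn w hw (tcubeHi k a i) (Or.inr (Or.inr ⟨i, rfl⟩)) with h | h
        · have := h y hy
          rw [tcubeHi_apply] at this
          linarith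
        · have := h x hxw
          rw [tcubeHi_apply] at this
          linarith [(hx i).2]
    intro y hy
    let c : Eu n := WithLp.toLp 2 fun i => ((a i : ℝ) + 1 / 2) / 2 ^ k
    have hlim : Filter.Tendsto (fun s : ℝ => y + s • (c - y)) (nhdsWithin 0 (Ioi 0)) (nhds y) := by
      have h1 : Continuous (fun s : ℝ => y + s • (c - y)) := by fun_prop
      have h2 := (h1.tendsto 0).mono_left (nhdsWithin_le_nhds (s := Ioi (0 : ℝ)))
      simpa using h2
    refine hcl.mem_of_tendsto hlim ?_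
    have hev : Ioo (0 : ℝ) 1 ∈ nhdsWithin (0 : ℝ) (Ioi 0) := Ioo_mem_nhdsGT zero_lt_one
    filter_upwards [hev] with s hs
    apply hstrict
    intro i
    have hci : c i = ((a i : ℝ) + 1 / 2) / 2 ^ k := rfl
    have hval : (y + s • (c - y)) i = y i + s * (c i - y i) := rfl
    rw [hval, hci]
    obtain ⟨h3, h4⟩ := hy i
    have hp : (0 : ℝ) < 2 ^ k := by positivity
    have h5 : (a i : ℝ) / 2 ^ k < ((a i : ℝ) + 1 / 2) / 2 ^ k := by
      apply div_lt_div_of_pos_right _ hp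
      linarith
    have h6 : ((a i : ℝ) + 1 / 2) / 2 ^ k < ((a i : ℝ) + 1) / 2 ^ k := by
      apply div_lt_div_of_pos_right _ hp
      linarith
    obtain ⟨hs0, hs1⟩ := hs
    constructor
    · nlinarith [mul_pos hs0 (sub_pos.2 h5), mul_nonneg (sub_nonneg.2 hs1.le) (sub_nonneg.2 h3)]
    · nlinarith [mul_pos hs0 (sub_pos.2 h6), mul_nonneg (sub_nonneg.2 hs1.le) (sub_nonneg.2 h4)]

end EXO
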