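import Pool.Agent.EXO.TBis

/-!
# EXO, part T, module TCut: cutting a simplex by finitely many hyperplanes

STATEMENT: for a non-degenerate simplex and a finite set `L` of affine functions, the simplex is a finite union
of non-degenerate simplices with pairwise disjoint interiors, on each of which every `ℓ ∈ L` has a constant (weak) sign.

PROOF.  Call `T` (a finite set of vertex families) a *subdivision* of `v` if the first three conditions hold.
(a) Transitivity: if `T` is a subdivision of `v` and each `w ∈ T` has a subdivision `T_w`, then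
`⋃_w T_w` is a subdivision of `v` (interiors: `spx w' ⊆ spx w` gives `interior ⊆ interior`).
(b) One functional `ℓ`: induction on the number `P(v) + N(v)`, `P = #{k | ℓ (v k) > 0}`, `N = #{k | ℓ (v k) < 0}`.
If `P = 0` or `N = 0` then `T = {v}` works: `ℓ ≤ 0` (or `≥ 0`) on the vertices, hence on the convex hull
(`ℓ` is affine; `{x | ℓ x ≤ 0}` is convex: `convexHull_min`).  Otherwise take `i` with `ℓ (v i) > 0`, `j` with `ℓ (v j) < 0`,
`t = ℓ(v i)/(ℓ(v i) - ℓ(v j)) ∈ (0,1)`, `m = lineMap (v i) (v j) t`, `ℓ m = 0`.  By `bisect` the two simplices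
`update v i m` (for it `P` decreases by one, `N` the same) and `update v j m` form a subdivision of `v`; apply the induction
hypothesis to both and (a).  (The two families are different since their interiors are disjoint and non-empty,
but this is not needed: use a set, `T = T_1 ∪ T_2`; for `w ∈ T_1`, `w' ∈ T_2` interiors are disjoint by inclusion.)
(c) Induction on `L` (`Set.Finite.induction_on`): subdivide by the first functionals, then each piece by `ℓ`;
constant sign is inherited by sub-simplices because `spx w' ⊆ spx w`.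
-/

namespace EXO

open Set Function

/-- finite subdivision of a simplex -/
private structure Subd {n : ℕ} (v : Fin (n + 1) → Eu n) (T : Set (Fin (n + 1) → Eu n)) : Prop where
  fin : T.Finite
  ind : ∀ w ∈ T, AffineIndependent ℝ w
  un : (⋃ w ∈ T, spx w) = spx v
  dis : ∀ w ∈ T, ∀ w' ∈ T, w ≠ w' → Disjoint (interior (spx w)) (interior (spx w'))

private theorem Subd.sub {n : ℕ} {v : Fin (n + 1) → Eu n} {T : Set (Fin (n + 1) → Eu n)}
    (h : Subd v T) {w : Fin (n + 1) → Eu n} (hw : w ∈ T) : spx w ⊆ spx v := by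
  rw [← h.un]
  exact subset_biUnion_of_mem (u := fun w => spx w) hw

private theorem Subd.single {n : ℕ} {v : Fin (n + 1) → Eu n} (hv : AffineIndependent ℝ v) :
    Subd v {v} where
  fin := finite_singleton v
  ind := by rintro w rfl; exact hv
  un := by simp
  dis := by
    rintro w rfl w' rfl h
    exact absurd rfl h

private theorem Subd.trans {n : ℕ} {v : Fin (n + 1) → Eu n} {T : Set (Fin (n + 1) → Eu n)}
    (h : Subd v T) {T' : (Fin (n + 1) → Eu n) → Set (Fin (n + 1) → Eu n)}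
    (h' : ∀ w ∈ T, Subd w (T' w)) : Subd v (⋃ w ∈ T, T' w) where
  fin := h.fin.biUnion fun w hw => (h' w hw).fin
  ind := by
    intro w hw
    obtain ⟨a, ha, hwa⟩ := mem_iUnion₂.1 hw
    exact (h' a ha).ind w hwa
  un := by
    rw [← h.un]
    ext x
    simp only [mem_iUnion, exists_prop]
    constructor
    · rintro ⟨w, ⟨a, ha, hw⟩, hx⟩
      exact ⟨a, ha, (h' a ha).sub hw hx⟩
    · rintro ⟨a, ha, hx⟩
      rw [← (h' a ha).un] at hx
      obtain ⟨w, hw, hx⟩ := mem_iUnion₂.1 hx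
      exact ⟨w, ⟨a, ha, hw⟩, hx⟩
  dis := by
    intro w hw w' hw' hne
    obtain ⟨a, ha, hwa⟩ := mem_iUnion₂.1 hw
    obtain ⟨b, hb, hwb⟩ := mem_iUnion₂.1 hw'
    by_cases hab : a = b
    · subst hab
      exact (h' a ha).dis w hwa w' hwb hne
    · exact (h.dis a ha b hb hab).mono (interior_mono ((h' a ha).sub hwa))
        (interior_mono ((h' b hb).sub hwb))

private theorem sign_of_vertices_nonneg {n : ℕ} {v : Fin (n + 1) → Eu n} (ℓ : Eu n →ᵃ[ℝ] ℝ)
    (h : ∀ k, 0 ≤ ℓ (v k)) : ∀ x ∈ spx v, 0 ≤ ℓ x := by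
  have h1 : Convex ℝ {x : Eu n | 0 ≤ ℓ x} := by
    have := (convex_Ici (0 : ℝ)).affine_preimage ℓ
    exact this
  have h2 : spx v ⊆ {x : Eu n | 0 ≤ ℓ x} := convexHull_min (by rintro _ ⟨k, rfl⟩; exact h k) h1
  exact h2

private theorem sign_of_vertices_nonpos {n : ℕ} {v : Fin (n + 1) → Eu n} (ℓ : Eu n →ᵃ[ℝ] ℝ)
    (h : ∀ k, ℓ (v k) ≤ 0) : ∀ x ∈ spx v, ℓ x ≤ 0 := by
  have h1 : Convex ℝ {x : Eu n | ℓ x ≤ 0} := by
    have := (convex_Iic (0 : ℝ)).affine_preimage ℓ
    exact this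
  have h2 : spx v ⊆ {x : Eu n | ℓ x ≤ 0} := convexHull_min (by rintro _ ⟨k, rfl⟩; exact h k) h1
  exact h2

private theorem cut_one_aux {n : ℕ} (ℓ : Eu n →ᵃ[ℝ] ℝ) (N : ℕ) :
    ∀ v : Fin (n + 1) → Eu n, AffineIndependent ℝ v →
      (Finset.univ.filter fun k => ℓ (v k) ≠ 0).card ≤ N →
      ∃ T : Set (Fin (n + 1) → Eu n), Subd v T ∧
        ∀ w ∈ T, (∀ x ∈ spx w, 0 ≤ ℓ x) ∨ (∀ x ∈ spx w, ℓ x ≤ 0) := by
  induction N with
  | zero =>
    intro v hv hN
    refine ⟨{v}, Subd.single hv, ?_⟩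
    rintro w rfl
    left
    refine sign_of_vertices_nonneg ℓ fun k => ?_
    by_contra hk
    have h1 : k ∈ Finset.univ.filter fun k => ℓ (w k) ≠ 0 := by
      simp only [Finset.mem_filter, Finset.mem_univ, true_and]
      intro h0
      exact hk h0.ge
    have := Finset.card_pos.2 ⟨k, h1⟩
    omega
  | succ N ih =>
    intro v hv hN
    by_cases hpos : ∀ k, ℓ (v k) ≤ 0
    · refine ⟨{v}, Subd.single hv, ?_⟩
      rintro w rfl
      exact Or.inr (sign_of_vertices_nonpos ℓ hpos)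
    by_cases hneg : ∀ k, 0 ≤ ℓ (v k)
    · refine ⟨{v}, Subd.single hv, ?_⟩
      rintro w rfl
      exact Or.inl (sign_of_vertices_nonneg ℓ hneg)
    push Not at hpos hneg
    obtain ⟨i, hi⟩ := hpos
    obtain ⟨j, hj⟩ := hneg
    have hij : i ≠ j := by rintro rfl; linarith
    have hd : 0 < ℓ (v i) - ℓ (v j) := by linarith
    have ht0 : 0 < ℓ (v i) / (ℓ (v i) - ℓ (v j)) := div_pos hi hd
    have ht1 : ℓ (v i) / (ℓ (v i) - ℓ (v j)) < 1 := by
      rw [div_lt_one hd]; linarith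
    obtain ⟨h1, h2, h3, h4⟩ := bisect v hv hij ht0 ht1
    set m := AffineMap.lineMap (v i) (v j) (ℓ (v i) / (ℓ (v i) - ℓ (v j))) with hm
    have hm0 : ℓ m = 0 := by
      rw [hm, AffineMap.apply_lineMap, AffineMap.lineMap_apply]
      simp only [vsub_eq_sub, smul_eq_mul, vadd_eq_add]
      field_simp
      ring
    have hcard : ∀ a : Fin (n + 1), ℓ (v a) ≠ 0 →
        (Finset.univ.filter fun k => ℓ (update v a m k) ≠ 0).card ≤ N := by
      intro a ha
      have hsub : (Finset.univ.filter fun k => ℓ (update v a m k) ≠ 0) ⊆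
          (Finset.univ.filter fun k => ℓ (v k) ≠ 0).erase a := by
        intro k hk
        simp only [Finset.mem_filter, Finset.mem_univ, true_and] at hk
        rw [Finset.mem_erase]
        have hka : k ≠ a := by
          rintro rfl
          rw [update_self] at hk
          exact hk hm0
        rw [update_of_ne hka] at hk
        exact ⟨hka, by simp only [Finset.mem_filter, Finset.mem_univ, true_and]; exact hk⟩
      have h5 := Finset.card_le_card hsub
      rw [Finset.card_erase_of_mem (by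
        simp only [Finset.mem_filter, Finset.mem_univ, true_and]; exact ha)] at h5
      omega
    obtain ⟨T1, hT1, hs1⟩ := ih _ h1 (hcard i hi.ne')
    obtain ⟨T2, hT2, hs2⟩ := ih _ h2 (hcard j hj.ne)
    refine ⟨T1 ∪ T2, ⟨hT1.fin.union hT2.fin, ?_, ?_, ?_⟩, ?_⟩
    · rintro w (hw | hw)
      · exact hT1.ind w hw
      · exact hT2.ind w hw
    · rw [biUnion_union, hT1.un, hT2.un, h3]
    · rintro w (hw | hw) w' (hw' | hw') hne
      · exact hT1.dis w hw w' hw' hne
      · exact h4.mono (interior_mono (hT1.sub hw)) (interior_mono (hT2.sub hw'))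
      · exact h4.symm.mono (interior_mono (hT2.sub hw)) (interior_mono (hT1.sub hw'))
      · exact hT2.dis w hw w' hw' hne
    · rintro w (hw | hw)
      · exact hs1 w hw
      · exact hs2 w hw

private theorem cut_all {n : ℕ} (L : Set (Eu n →ᵃ[ℝ] ℝ)) (hL : L.Finite) :
    ∀ v : Fin (n + 1) → Eu n, AffineIndependent ℝ v →
      ∃ T : Set (Fin (n + 1) → Eu n), Subd v T ∧
        ∀ w ∈ T, ∀ ℓ ∈ L, (∀ x ∈ spx w, 0 ≤ ℓ x) ∨ (∀ x ∈ spx w, ℓ x ≤ 0) := by
  induction L, hL using Set.Finite.induction_on with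
  | empty =>
    intro v hv
    exact ⟨{v}, Subd.single hv, fun w _ ℓ hℓ => absurd hℓ (notMem_empty ℓ)⟩
  | @insert ℓ L' _ _ ih =>
    intro v hv
    obtain ⟨T, hT, hs⟩ := ih v hv
    have h1 : ∀ w : Fin (n + 1) → Eu n, ∃ T' : Set (Fin (n + 1) → Eu n), w ∈ T → (Subd w T' ∧
        ∀ w' ∈ T', (∀ x ∈ spx w', 0 ≤ ℓ x) ∨ (∀ x ∈ spx w', ℓ x ≤ 0)) := by
      intro w
      by_cases hw : w ∈ T
      · obtain ⟨T', h1, h2⟩ := cut_one_aux ℓ _ w (hT.ind w hw) le_rfl
        exact ⟨T', fun _ => ⟨h1, h2⟩⟩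
      · exact ⟨∅, fun h => absurd h hw⟩
    choose T' hT' using h1
    refine ⟨⋃ w ∈ T, T' w, hT.trans fun w hw => (hT' w hw).1, ?_⟩
    intro w hw ℓ' hℓ'
    obtain ⟨a, ha, hwa⟩ := mem_iUnion₂.1 hw
    rcases mem_insert_iff.1 hℓ' with rfl | hℓ'
    · exact (hT' a ha).2 w hwa
    · rcases hs a ha ℓ' hℓ' with h | h
      · exact Or.inl fun x hx => h x ((hT' a ha).1.sub hwa hx)
      · exact Or.inr fun x hx => h x ((hT' a ha).1.sub hwa hx)

theorem cut_simplex {n : ℕ} (v : Fin (n + 1) → Eu n) (hv : AffineIndependent ℝ v)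
    (L : Set (Eu n →ᵃ[ℝ] ℝ)) (hL : L.Finite) :
    ∃ T : Set (Fin (n + 1) → Eu n), T.Finite ∧
      (∀ w ∈ T, AffineIndependent ℝ w) ∧ (⋃ w ∈ T, spx w) = spx v ∧
      (∀ w ∈ T, ∀ w' ∈ T, w ≠ w' → Disjoint (interior (spx w)) (interior (spx w'))) ∧
      ∀ w ∈ T, ∀ ℓ ∈ L, (∀ x ∈ spx w, 0 ≤ ℓ x) ∨ (∀ x ∈ spx w, ℓ x ≤ 0) := by
  obtain ⟨T, hT, hs⟩ := cut_all L hL v hv
  exact ⟨T, hT.fin, hT.ind, hT.un, hT.dis, hs⟩

end EXO
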