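import Pool.Agent.EXO.TDefs

/-!
# EXO, part T, module TLipW: Lipschitz maps on bounded open sets are in `W^{1,p}`

PROOF.  Extend `f` from `Ω` to a Lipschitz map `F : Eu n → Eu n` (`LipschitzOnWith.extend_finite_dimension` or
`LipschitzOnWith.extend_pi` in coordinates).  `G := fderiv ℝ F`: measurable (`measurable_fderiv`), `‖G x‖ ≤ L'`
(`norm_fderiv_le_of_lipschitz`), so `G ∈ L^p(Ω)` (finite measure, `MemLp.of_bound`), `f = F` on `Ω` is continuous and bounded on `Ω`
(bounded set, Lipschitz), so `f ∈ L^p(Ω)` (a.e. strongly measurable on `Ω`: `ContinuousOn.aestronglyMeasurable`).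
Weak derivative: for a test function `φ` (`tsupport φ ⊆ Ω`), `∫_Ω (Dφ w) f = ∫ (Dφ w) F` and `∫_Ω φ G w = ∫ φ G w`; in each
coordinate `i` apply Mathlib's `LipschitzWith.integral_lineDeriv_mul_eq` (Rademacher file) to `F_i` (Lipschitz) and `φ` (Lipschitz
with compact support: `ContDiff.lipschitzWith_of_hasCompactSupport`), and `lineDeriv ℝ F_i x w = (G x w)_i` for almost every `x`
(`LipschitzWith.ae_differentiableAt`, `DifferentiableAt.lineDeriv_eq_fderiv`), `lineDeriv φ x w = fderiv φ x w`.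
-/

namespace EXO

open MeasureTheory Set
open scoped ENNReal

private theorem TLipW_ibp {n : ℕ} {F : Eu n → Eu n} {L : NNReal} (hF : LipschitzWith L F)
    {φ : Eu n → ℝ} (hφ : ContDiff ℝ (⊤ : ℕ∞) φ) (hc : HasCompactSupport φ) (w : Eu n) :
    ∫ x, (fderiv ℝ φ x w) • F x = - ∫ x, φ x • (fderiv ℝ F x) w := by
  have hφd : Differentiable ℝ φ := hφ.differentiable (by simp)
  have hφ1 : Continuous (fun x => fderiv ℝ φ x w) :=
    (hφ.continuous_fderiv (by simp)).clm_apply continuous_const
  have hcd : HasCompactSupport (fun x => fderiv ℝ φ x w) := hc.fderiv_apply ℝ w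
  have hI1 : Integrable (fun x => (fderiv ℝ φ x w) • F x) :=
    (hφ1.smul hF.continuous).integrable_of_hasCompactSupport hcd.smul_right
  have hφI : Integrable φ := hφ.continuous.integrable_of_hasCompactSupport hc
  have hI2 : Integrable (fun x => φ x • (fderiv ℝ F x) w) := by
    refine Integrable.mono' (hφI.norm.mul_const (L * ‖w‖)) ?_ ?_
    · exact hφ.continuous.aestronglyMeasurable.smul
        (measurable_fderiv_apply_const ℝ F w).aestronglyMeasurable
    · refine Filter.Eventually.of_forall (fun x => ?_)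
      rw [norm_smul]
      refine mul_le_mul_of_nonneg_left ?_ (norm_nonneg _)
      refine le_trans (ContinuousLinearMap.le_opNorm _ _) ?_
      exact mul_le_mul_of_nonneg_right (norm_fderiv_le_of_lipschitz ℝ hF) (norm_nonneg _)
  have hproj : ∀ (i : Fin n) (g : Eu n → Eu n), Integrable g →
      (∫ x, g x) i = ∫ x, (g x) i := by
    intro i g hg
    have := (EuclideanSpace.proj i : Eu n →L[ℝ] ℝ).integral_comp_comm hg
    exact this.symm
  ext i
  have e0 : (-∫ x, φ x • (fderiv ℝ F x) w) i = -(∫ x, φ x • (fderiv ℝ F x) w) i := rfl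
  rw [e0, hproj i _ hI1, hproj i _ hI2]
  have hFi : LipschitzWith L (fun x => F x i) := by
    refine LipschitzWith.of_dist_le_mul (fun x y => ?_)
    refine le_trans ?_ (hF.dist_le_mul x y)
    rw [Real.dist_eq, dist_eq_norm, ← Real.norm_eq_abs]
    exact PiLp.norm_apply_le (F x - F y) i
  obtain ⟨D, hD⟩ := ContDiff.lipschitzWith_of_hasCompactSupport hc hφ (by simp)
  have key := LipschitzWith.integral_lineDeriv_mul_eq (μ := (volume : Measure (Eu n))) hFi hD hc w
  have e1 : ∫ x, (φ x • (fderiv ℝ F x) w) i = ∫ x, lineDeriv ℝ (fun x => F x i) x w * φ x := by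
    refine integral_congr_ae ?_
    filter_upwards [hF.ae_differentiableAt (μ := (volume : Measure (Eu n)))] with x hx
    have h1 : HasFDerivAt (fun x => F x i)
        ((EuclideanSpace.proj i : Eu n →L[ℝ] ℝ).comp (fderiv ℝ F x)) x :=
      (EuclideanSpace.proj i : Eu n →L[ℝ] ℝ).hasFDerivAt.comp x
        hx.hasFDerivAt
    rw [h1.differentiableAt.lineDeriv_eq_fderiv, h1.fderiv]
    show φ x * ((fderiv ℝ F x) w) i = ((fderiv ℝ F x) w) i * φ x
    ring
  have e2 : ∫ x, ((fderiv ℝ φ x w) • F x) i = -∫ x, lineDeriv ℝ φ x (-w) * F x i := by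
    rw [← integral_neg]
    refine integral_congr_ae (Filter.Eventually.of_forall (fun x => ?_))
    show (fderiv ℝ φ x w) * F x i = -(lineDeriv ℝ φ x (-w) * F x i)
    rw [(hφd x).lineDeriv_eq_fderiv, map_neg]
    ring
  rw [e1, e2, key]

theorem memW_of_lipschitzOn {n : ℕ} {Ω : Set (Eu n)} (hΩ : IsOpen Ω)
    (hb : Bornology.IsBounded Ω) {f : Eu n → Eu n} {L : NNReal} (hf : LipschitzOnWith L f Ω)
    (p : ℝ≥0∞) : MemW Ω p f := by
  obtain ⟨F, hF, hEq⟩ := hf.extend_finite_dimension
  have hfin : IsFiniteMeasure ((volume : Measure (Eu n)).restrict Ω) :=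
    ⟨by rw [Measure.restrict_apply_univ]; exact hb.measure_lt_top⟩
  obtain ⟨C, hC⟩ : ∃ C, ∀ x ∈ Ω, ‖f x‖ ≤ C := by
    obtain ⟨C, hC⟩ := (hF.isBounded_image hb).exists_norm_le
    exact ⟨C, fun x hx => by rw [hEq hx]; exact hC _ ⟨x, hx, rfl⟩⟩
  have hmf : AEStronglyMeasurable f ((volume : Measure (Eu n)).restrict Ω) :=
    hf.continuousOn.aestronglyMeasurable hΩ.measurableSet
  have hLf : ∀ q : ℝ≥0∞, MemLp f q ((volume : Measure (Eu n)).restrict Ω) := fun q =>
    MemLp.of_bound hmf C ((ae_restrict_mem hΩ.measurableSet).mono (fun x hx => hC x hx))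
  have hLG : ∀ q : ℝ≥0∞, MemLp (fderiv ℝ F) q ((volume : Measure (Eu n)).restrict Ω) := fun q =>
    MemLp.of_bound (measurable_fderiv ℝ F).aestronglyMeasurable _
      (Filter.Eventually.of_forall (fun x => norm_fderiv_le_of_lipschitz ℝ hF))
  refine ⟨hLf p, fderiv ℝ F, ⟨?_, ?_, ?_⟩, hLG p⟩
  · have : IntegrableOn f Ω volume := memLp_one_iff_integrable.1 (hLf 1)
    exact this.locallyIntegrableOn
  · have : IntegrableOn (fderiv ℝ F) Ω volume := memLp_one_iff_integrable.1 (hLG 1)
    exact this.locallyIntegrableOn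
  · intro φ hφ hc hsub w
    have hz : ∀ x, x ∉ Ω → x ∉ tsupport φ := fun x hx hh => hx (hsub hh)
    have e1 : ∫ x in Ω, (fderiv ℝ φ x w) • f x = ∫ x, (fderiv ℝ φ x w) • F x := by
      rw [setIntegral_congr_fun (g := fun x => (fderiv ℝ φ x w) • F x) hΩ.measurableSet
        (fun x hx => by simp only [hEq hx])]
      refine setIntegral_eq_integral_of_forall_compl_eq_zero (fun x hx => ?_)
      have : fderiv ℝ φ x = 0 := by
        have h1 := support_fderiv_subset ℝ (f := φ)
        by_contra hne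
        exact hz x hx (h1 hne)
      rw [this]
      simp
    have e2 : ∫ x in Ω, φ x • (fderiv ℝ F x) w = ∫ x, φ x • (fderiv ℝ F x) w := by
      refine setIntegral_eq_integral_of_forall_compl_eq_zero (fun x hx => ?_)
      rw [image_eq_zero_of_notMem_tsupport (hz x hx), zero_smul]
    rw [e1, e2]
    exact TLipW_ibp hF hφ hc w

end EXO
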