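import Pool.Agent.EXO.TMorA

/-!
# EXO, part T, module TMorB: Morrey's pointwise estimate

STATEMENT: for `p > n ≥ 1` (real `p`), `closedBall x δ ⊆ Ω`, `u` continuous on `Ω` with weak derivative `G`, both in `L^p(Ω)`:
`‖u x‖ ≤ K (‖u‖_p + ‖G‖_p)`, `K` depending only on `n, p, δ`.

PROOF.  Fix `η ≥ 0` smooth, supported in the closed unit ball, `∫ η = 1` (`ContDiffBump` normed: `(f : ContDiffBump 0).normed volume`),
`0 < t₁ := min(δ/2, 1)`... (`t₁ = δ/2`).  Let `N = (∫ |η|^{p'})^{1/p'}`, `1/p + 1/p' = 1`.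
(1) `∫ (t^{-n} |η((x-z)/t)|)^{p'} dz = t^{-n p'} t^n N^{p'}`, so the `L^{p'}` norm of the kernel is `t^{-n} t^{n/p'} N = t^{-n/p} N`.
(2) Hölder: `‖avg η u x t₁‖ ≤ t₁^{-n/p} N ‖u‖_p`, and for `0 < t < δ` the derivative `D(t)` of `avg` (module TMorA) has
`‖D(t)‖ ≤ ∫ t^{-n} η(y) ‖G z‖ ‖y‖ dz ≤ t^{-n/p} N ‖G‖_p` since `‖y‖ ≤ 1` where `η(y) ≠ 0` (`y = (x-z)/t`, and the `z` involved are in `Ω`).
(3) For `0 < s < t₁`: `‖avg(t₁) - avg(s)‖ ≤ N ‖G‖_p ∫_s^{t₁} t^{-n/p} dt ≤ N ‖G‖_p t₁^{1-n/p}/(1 - n/p)`: e.g. compare with the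
function `B(t) = N‖G‖_p t^{1-n/p}/(1-n/p)`, whose derivative is `N‖G‖_p t^{-n/p}`
(`image_norm_le_of_norm_deriv_right_le_deriv_boundary` or `Convex.norm_image_sub_le`-type mean value inequality; no
integrability of the derivative is needed).
(4) `s → 0`: `avg(s) → u x` because `avg(s) - u x = ∫ s^{-n} η((x-z)/s) (u z - u x) dz` (as `∫ s^{-n}η((x-z)/s) dz = 1`) and `u` is continuous
at `x`.  Hence `‖u x‖ ≤ N t₁^{-n/p} ‖u‖_p + N t₁^{1-n/p}/(1-n/p) ‖G‖_p`.
The case `n = 0` is excluded by `0 < n`.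
-/

namespace EXO

open MeasureTheory Set
open scoped ENNReal

private lemma TMorB_holder {n : ℕ} {E : Type*} [NormedAddCommGroup E] {p : ℝ} (hp : 1 ≤ p)
    {Ω : Set (Eu n)} {f : Eu n → E} (hf : MemLp f (ENNReal.ofReal p) (volume.restrict Ω))
    {x : Eu n} {t : ℝ} (hB : Metric.closedBall x t ⊆ Ω) :
    ∫ z in Metric.closedBall x t, ‖f z‖ ≤
      (volume.real (Metric.closedBall x t)) ^ (1 - 1 / p) *
        (eLpNorm f (ENNReal.ofReal p) (volume.restrict Ω)).toReal := by
  have hm : AEStronglyMeasurable f (volume.restrict (Metric.closedBall x t)) :=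
    hf.1.mono_measure (Measure.restrict_mono hB le_rfl)
  have h1 := eLpNorm_le_eLpNorm_mul_rpow_measure_univ (μ := volume.restrict (Metric.closedBall x t))
    (f := f) (p := 1) (q := ENNReal.ofReal p) (by
      rw [← ENNReal.ofReal_one]; exact ENNReal.ofReal_le_ofReal hp) hm
  have h2 : eLpNorm f (ENNReal.ofReal p) (volume.restrict (Metric.closedBall x t)) ≤
      eLpNorm f (ENNReal.ofReal p) (volume.restrict Ω) :=
    eLpNorm_mono_measure _ (Measure.restrict_mono hB le_rfl)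
  have hfin : volume (Metric.closedBall x t) ≠ ∞ := (isCompact_closedBall x t).measure_lt_top.ne
  have h3 : ∫ z in Metric.closedBall x t, ‖f z‖ =
      (eLpNorm f 1 (volume.restrict (Metric.closedBall x t))).toReal := by
    rw [eLpNorm_one_eq_lintegral_enorm, integral_norm_eq_lintegral_enorm hm]
  rw [h3]
  have hp0 : (0 : ℝ) ≤ p := by linarith
  have he : (0 : ℝ) ≤ 1 - 1 / p := by
    rw [sub_nonneg, div_le_one (by linarith)]; exact hp
  rw [Measure.restrict_apply_univ, ENNReal.toReal_ofReal hp0, ENNReal.toReal_one] at h1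
  have h4 : eLpNorm f 1 (volume.restrict (Metric.closedBall x t)) ≤
      eLpNorm f (ENNReal.ofReal p) (volume.restrict Ω) *
        volume (Metric.closedBall x t) ^ (1 - 1 / p) := by
    refine h1.trans ?_
    rw [show (1 : ℝ) / 1 - 1 / p = 1 - 1 / p by norm_num]
    exact mul_le_mul_left h2 _
  have h5 := ENNReal.toReal_mono (ENNReal.mul_ne_top hf.2.ne
    (ENNReal.rpow_ne_top_of_nonneg he hfin)) h4
  rw [ENNReal.toReal_mul, ← ENNReal.toReal_rpow] at h5
  rw [mul_comm]
  exact h5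

private lemma TMorB_vol {n : ℕ} (x : Eu n) {t : ℝ} (ht : 0 ≤ t) :
    volume.real (Metric.closedBall x t) = t ^ n * volume.real (Metric.ball (0 : Eu n) 1) := by
  rw [Measure.real, Measure.addHaar_closedBall _ _ ht, ENNReal.toReal_mul,
    ENNReal.toReal_ofReal (pow_nonneg ht _), finrank_euclideanSpace_fin]
  rfl

private lemma TMorB_int {n : ℕ} {E : Type*} [NormedAddCommGroup E] {p : ℝ} (hp : 1 ≤ p)
    {Ω : Set (Eu n)} {f : Eu n → E} (hf : MemLp f (ENNReal.ofReal p) (volume.restrict Ω))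
    {x : Eu n} {t : ℝ} (hB : Metric.closedBall x t ⊆ Ω) :
    IntegrableOn f (Metric.closedBall x t) := by
  have : IsFiniteMeasure (volume.restrict (Metric.closedBall x t)) :=
    ⟨by rw [Measure.restrict_apply_univ]; exact (isCompact_closedBall x t).measure_lt_top⟩
  refine (hf.mono_measure (Measure.restrict_mono hB le_rfl)).integrable ?_
  rw [← ENNReal.ofReal_one]
  exact ENNReal.ofReal_le_ofReal hp

/-- The basic estimate: an integrand supported in the closed ball and bounded by `C ‖f‖` there. -/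
private lemma TMorB_est {n : ℕ} {E F : Type*} [NormedAddCommGroup E] [NormedAddCommGroup F]
    [NormedSpace ℝ F] {p : ℝ} (hp : 1 ≤ p) {Ω : Set (Eu n)} {f : Eu n → E}
    (hf : MemLp f (ENNReal.ofReal p) (volume.restrict Ω)) {x : Eu n} {t : ℝ} (ht : 0 < t)
    (hB : Metric.closedBall x t ⊆ Ω) {g : Eu n → F} {M : ℝ} (hM : 0 ≤ M)
    (hg : ∀ z ∈ Metric.closedBall x t, ‖g z‖ ≤ t ^ (-(n : ℤ)) * M * ‖f z‖)
    (hg0 : ∀ z ∉ Metric.closedBall x t, g z = 0) :
    ‖∫ z, g z‖ ≤ M * (volume.real (Metric.ball (0 : Eu n) 1)) ^ (1 - 1 / p) *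
      t ^ (-((n : ℝ) / p)) * (eLpNorm f (ENNReal.ofReal p) (volume.restrict Ω)).toReal := by
  rw [← setIntegral_eq_integral_of_forall_compl_eq_zero hg0]
  have h1 : ‖∫ z in Metric.closedBall x t, g z‖ ≤
      ∫ z in Metric.closedBall x t, t ^ (-(n : ℤ)) * M * ‖f z‖ := by
    refine norm_integral_le_of_norm_le ((TMorB_int hp hf hB).norm.const_mul _) ?_
    filter_upwards [ae_restrict_mem Metric.isClosed_closedBall.measurableSet] with z hz
    exact hg z hz
  rw [integral_const_mul] at h1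
  have h2 := TMorB_holder hp hf hB
  have hC : 0 ≤ t ^ (-(n : ℤ)) * M := mul_nonneg (zpow_pos ht _).le hM
  refine h1.trans ((mul_le_mul_of_nonneg_left h2 hC).trans (le_of_eq ?_))
  rw [TMorB_vol x ht.le, Real.mul_rpow (pow_nonneg ht.le _) measureReal_nonneg]
  have e1 : t ^ (-(n : ℤ)) * (t ^ n) ^ (1 - 1 / p) = t ^ (-((n : ℝ) / p)) := by
    rw [← Real.rpow_intCast, ← Real.rpow_natCast, ← Real.rpow_mul ht.le, ← Real.rpow_add ht]
    congr 1
    push_cast
    ring
  rw [← e1]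
  ring

private lemma TMorB_kernel_int {n : ℕ} {η : Eu n → ℝ} (hηi : ∫ y, η y = 1) (x : Eu n) {s : ℝ}
    (hs : 0 < s) : ∫ z, s ^ (-(n : ℤ)) * η (s⁻¹ • (x - z)) = 1 := by
  have h1 : ∫ z, s ^ (-(n : ℤ)) * η (s⁻¹ • (x - z)) = ∫ z, s ^ (-(n : ℤ)) * η (s⁻¹ • z) :=
    integral_sub_left_eq_self (fun z => s ^ (-(n : ℤ)) * η (s⁻¹ • z)) volume x
  rw [h1, integral_const_mul, Measure.integral_comp_smul, hηi, finrank_euclideanSpace_fin]
  rw [zpow_neg, zpow_natCast, inv_pow, inv_inv, abs_of_nonneg (pow_nonneg hs.le _), smul_eq_mul,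
    mul_one]
  exact inv_mul_cancel₀ (pow_ne_zero _ hs.ne')

theorem morrey_point {n : ℕ} (hn : 0 < n) {p : ℝ} (hp : (n : ℝ) < p) {δ : ℝ} (hδ : 0 < δ) :
    ∃ K : ℝ, 0 < K ∧ ∀ (Ω : Set (Eu n)) (u : Eu n → Eu n) (G : Eu n → (Eu n →L[ℝ] Eu n)),
      IsOpen Ω → ContinuousOn u Ω → IsWeakDeriv Ω u G →
      MemLp u (ENNReal.ofReal p) (volume.restrict Ω) →
      MemLp G (ENNReal.ofReal p) (volume.restrict Ω) →
      ∀ x : Eu n, Metric.closedBall x δ ⊆ Ω →
        ‖u x‖ ≤ K * ((eLpNorm u (ENNReal.ofReal p) (volume.restrict Ω)).toReal +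
          (eLpNorm G (ENNReal.ofReal p) (volume.restrict Ω)).toReal) := by
  have hn1 : (1 : ℝ) ≤ n := by exact_mod_cast hn
  have hp1 : (1 : ℝ) ≤ p := by linarith
  have hp0 : (0 : ℝ) < p := by linarith
  have ha : (n : ℝ) / p < 1 := by rw [div_lt_one hp0]; exact hp
  -- the bump function
  let b : ContDiffBump (0 : Eu n) := ⟨1 / 2, 1, by norm_num, by norm_num⟩
  let η : Eu n → ℝ := b.normed volume
  have hη : ContDiff ℝ (⊤ : ℕ∞) η := b.contDiff_normed
  have hη0 : ∀ y, 0 ≤ η y := fun y => b.nonneg_normed y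
  have hηi : ∫ y, η y = 1 := b.integral_normed
  have hηs : Function.support η ⊆ Metric.closedBall 0 1 := by
    have h : Function.support η = Metric.ball 0 1 := b.support_normed_eq
    rw [h]; exact Metric.ball_subset_closedBall
  have hcs : HasCompactSupport η := HasCompactSupport.intro (isCompact_closedBall (0 : Eu n) 1)
    (fun y hy => by
      by_contra h
      exact hy (hηs h))
  obtain ⟨M, hM⟩ := hη.continuous.bounded_above_of_compact_support hcs
  have hM0 : 0 ≤ M := (norm_nonneg _).trans (hM 0)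
  have hηz : ∀ {x z : Eu n} {s : ℝ}, 0 < s → z ∉ Metric.closedBall x s →
      η (s⁻¹ • (x - z)) = 0 := by
    intro x z s hs hz
    by_contra h
    have h2 := hηs h
    rw [mem_closedBall_zero_iff, norm_smul, norm_inv, Real.norm_of_nonneg hs.le,
      inv_mul_eq_div, div_le_one hs] at h2
    rw [Metric.mem_closedBall, dist_comm, dist_eq_norm] at hz
    exact hz h2
  set c : ℝ := (volume.real (Metric.ball (0 : Eu n) 1)) ^ (1 - 1 / p) with hc
  have hc0 : 0 ≤ c := Real.rpow_nonneg measureReal_nonneg _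
  set t₁ : ℝ := δ / 2 with ht₁
  have ht₁0 : 0 < t₁ := half_pos hδ
  set a : ℝ := (n : ℝ) / p with haa
  have h1a : 0 < 1 - a := by linarith
  refine ⟨M * c * t₁ ^ (-a) + M * c * t₁ ^ (1 - a) / (1 - a) + 1, by positivity, ?_⟩
  intro Ω u G hΩ hu hG hup hGp x hx
  set U : ℝ := (eLpNorm u (ENNReal.ofReal p) (volume.restrict Ω)).toReal with hU
  set V : ℝ := (eLpNorm G (ENNReal.ofReal p) (volume.restrict Ω)).toReal with hV
  have hU0 : 0 ≤ U := ENNReal.toReal_nonneg
  have hV0 : 0 ≤ V := ENNReal.toReal_nonneg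
  have hxt : ∀ t, t ≤ δ → Metric.closedBall x t ⊆ Ω := fun t ht =>
    (Metric.closedBall_subset_closedBall ht).trans hx
  -- the average at t₁
  have hA : ‖avg η u x t₁‖ ≤ M * c * t₁ ^ (-a) * U := by
    refine TMorB_est hp1 hup ht₁0 (hxt _ (by linarith)) hM0 ?_ ?_
    · intro z _
      rw [norm_smul, norm_mul, Real.norm_of_nonneg (zpow_pos ht₁0 _).le]
      exact mul_le_mul_of_nonneg_right
        (mul_le_mul_of_nonneg_left (hM _) (zpow_pos ht₁0 _).le) (norm_nonneg _)
    · intro z hz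
      rw [hηz ht₁0 hz]; simp
  -- the derivative
  set D : ℝ → Eu n := fun t =>
    - ∫ z, (t ^ (-(n : ℤ)) * η (t⁻¹ • (x - z))) • G z (t⁻¹ • (x - z)) with hD
  have hDer : ∀ t, 0 < t → t < δ → HasDerivAt (avg η u x) (D t) t := fun t h0 h1 =>
    avg_hasDerivAt hΩ hu hG hη hηs hx h0 h1
  have hDb : ∀ t, 0 < t → t < δ → ‖D t‖ ≤ M * c * V * t ^ (-a) := by
    intro t h0 h1
    have := TMorB_est (F := Eu n) hp1 hGp h0 (hxt _ h1.le) hM0
      (g := fun z => (t ^ (-(n : ℤ)) * η (t⁻¹ • (x - z))) • G z (t⁻¹ • (x - z))) ?_ ?_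
    · rw [hD, norm_neg]
      refine this.trans (le_of_eq ?_)
      rw [← hc, ← haa, ← hV]; ring
    · intro z hz
      rw [norm_smul, norm_mul, Real.norm_of_nonneg (zpow_pos h0 _).le]
      have hy : ‖t⁻¹ • (x - z)‖ ≤ 1 := by
        rw [norm_smul, norm_inv, Real.norm_of_nonneg h0.le, inv_mul_eq_div, div_le_one h0]
        rw [Metric.mem_closedBall, dist_comm, dist_eq_norm] at hz
        exact hz
      have h2 : ‖G z (t⁻¹ • (x - z))‖ ≤ ‖G z‖ := by
        refine (ContinuousLinearMap.le_opNorm _ _).trans ?_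
        calc ‖G z‖ * ‖t⁻¹ • (x - z)‖ ≤ ‖G z‖ * 1 :=
              mul_le_mul_of_nonneg_left hy (norm_nonneg _)
          _ = ‖G z‖ := mul_one _
      exact mul_le_mul (mul_le_mul_of_nonneg_left (hM _) (zpow_pos h0 _).le) h2 (norm_nonneg _)
        (mul_nonneg (zpow_pos h0 _).le hM0)
    · intro z hz
      rw [hηz h0 hz]; simp
  -- mean value estimate
  have hMV : ∀ s, 0 < s → s < t₁ → ‖avg η u x t₁ - avg η u x s‖ ≤
      M * c * t₁ ^ (1 - a) / (1 - a) * V := by
    intro s hs hst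
    have key := image_norm_le_of_norm_deriv_right_le_deriv_boundary' (E := Eu n)
      (f := fun t => avg η u x t - avg η u x s) (f' := D) (a := s) (b := t₁)
      (B := fun t => M * c * V * (t ^ (1 - a) / (1 - a)) - M * c * V * (s ^ (1 - a) / (1 - a)))
      (B' := fun t => M * c * V * t ^ (-a)) ?_ ?_ ?_ ?_ ?_ ?_
      (show t₁ ∈ Icc s t₁ from ⟨hst.le, le_rfl⟩)
    · refine key.trans ?_
      have : 0 ≤ M * c * V * (s ^ (1 - a) / (1 - a)) := by positivity
      calc M * c * V * (t₁ ^ (1 - a) / (1 - a)) - M * c * V * (s ^ (1 - a) / (1 - a))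
          ≤ M * c * V * (t₁ ^ (1 - a) / (1 - a)) := by linarith
        _ = M * c * t₁ ^ (1 - a) / (1 - a) * V := by ring
    · intro t ht
      have h0 : 0 < t := lt_of_lt_of_le hs ht.1
      have h1 : t < δ := by linarith [ht.2]
      exact ((hDer t h0 h1).continuousAt.sub continuousAt_const).continuousWithinAt
    · intro t ht
      have h0 : 0 < t := lt_of_lt_of_le hs ht.1
      have h1 : t < δ := by linarith [ht.2]
      exact ((hDer t h0 h1).sub_const _).hasDerivWithinAt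
    · simp
    · intro t ht
      have h0 : 0 < t := lt_of_lt_of_le hs ht.1
      refine ContinuousAt.continuousWithinAt ?_
      refine ContinuousAt.sub (ContinuousAt.mul continuousAt_const ?_) continuousAt_const
      exact (Real.continuousAt_rpow_const t (1 - a) (Or.inl h0.ne')).div_const _
    · intro t ht
      have h0 : 0 < t := lt_of_lt_of_le hs ht.1
      have h2 : HasDerivAt (fun t : ℝ => t ^ (1 - a) / (1 - a)) (t ^ (-a)) t := by
        have h3 := (Real.hasDerivAt_rpow_const (x := t) (p := 1 - a) (Or.inl h0.ne')).div_const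
          (1 - a)
        have e : (1 - a) * t ^ (1 - a - 1) / (1 - a) = t ^ (-a) := by
          rw [mul_div_cancel_left₀ _ h1a.ne']
          congr 1; ring
        rw [e] at h3
        exact h3
      exact ((h2.const_mul (M * c * V)).sub_const _).hasDerivWithinAt
    · intro t ht
      have h0 : 0 < t := lt_of_lt_of_le hs ht.1
      have h1 : t < δ := by linarith [ht.2]
      exact hDb t h0 h1
  -- the limit
  have hlim : ∀ ε > 0, ∃ s, 0 < s ∧ s < t₁ ∧ ‖avg η u x s - u x‖ ≤ ε := by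
    intro ε hε
    have hxΩ : x ∈ Ω := hx (Metric.mem_closedBall_self hδ.le)
    have hcx : ContinuousAt u x := hu.continuousAt (hΩ.mem_nhds hxΩ)
    obtain ⟨r, hr, hru⟩ := Metric.continuousAt_iff.mp hcx ε hε
    refine ⟨min (r / 2) (t₁ / 2), by positivity, ?_, ?_⟩
    · exact lt_of_le_of_lt (min_le_right _ _) (by linarith)
    set s : ℝ := min (r / 2) (t₁ / 2) with hs
    have hs0 : 0 < s := by positivity
    have hsr : s < r := lt_of_le_of_lt (min_le_left _ _) (by linarith)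
    have hsδ : s ≤ δ := (min_le_right _ _).trans (by linarith)
    have hkc : Continuous fun z : Eu n => s ^ (-(n : ℤ)) * η (s⁻¹ • (x - z)) :=
      continuous_const.mul (hη.continuous.comp (by fun_prop))
    have hki : Integrable fun z : Eu n => s ^ (-(n : ℤ)) * η (s⁻¹ • (x - z)) := by
      refine hkc.integrable_of_hasCompactSupport ?_
      exact HasCompactSupport.intro (isCompact_closedBall x s) (fun z hz => by
        rw [hηz hs0 hz, mul_zero])
    have hku : Integrable fun z : Eu n => (s ^ (-(n : ℤ)) * η (s⁻¹ • (x - z))) • u z := by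
      have h1 : IntegrableOn (fun z => (s ^ (-(n : ℤ)) * η (s⁻¹ • (x - z))) • u z)
          (Metric.closedBall x s) :=
        (hkc.continuousOn.smul (hu.mono (hxt s hsδ))).integrableOn_compact
          (isCompact_closedBall x s)
      refine (integrableOn_iff_integrable_of_support_subset ?_).mp h1
      intro z hz
      by_contra h
      exact hz (by simp [hηz hs0 h])
    have e1 : avg η u x s - u x =
        ∫ z, (s ^ (-(n : ℤ)) * η (s⁻¹ • (x - z))) • (u z - u x) := by
      have e2 : (fun z => (s ^ (-(n : ℤ)) * η (s⁻¹ • (x - z))) • (u z - u x)) =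
          fun z => (s ^ (-(n : ℤ)) * η (s⁻¹ • (x - z))) • u z -
            (s ^ (-(n : ℤ)) * η (s⁻¹ • (x - z))) • u x := by
        funext z
        exact smul_sub _ _ _
      rw [e2, integral_sub hku (hki.smul_const _), integral_smul_const,
        TMorB_kernel_int hηi x hs0, one_smul]
      rfl
    rw [e1]
    have h2 : ‖∫ z, (s ^ (-(n : ℤ)) * η (s⁻¹ • (x - z))) • (u z - u x)‖ ≤
        ∫ z, (s ^ (-(n : ℤ)) * η (s⁻¹ • (x - z))) * ε := by
      refine norm_integral_le_of_norm_le (hki.mul_const _) (Filter.Eventually.of_forall fun z => ?_)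
      have hk0 : 0 ≤ s ^ (-(n : ℤ)) * η (s⁻¹ • (x - z)) :=
        mul_nonneg (zpow_pos hs0 _).le (hη0 _)
      rw [norm_smul, Real.norm_of_nonneg hk0]
      by_cases hz : z ∈ Metric.closedBall x s
      · refine mul_le_mul_of_nonneg_left ?_ hk0
        have : dist z x < r := lt_of_le_of_lt hz hsr
        have := hru this
        rw [dist_eq_norm] at this
        exact this.le
      · rw [hηz hs0 hz]; simp
    rw [integral_mul_const, TMorB_kernel_int hηi x hs0, one_mul] at h2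
    exact h2
  refine le_of_forall_pos_le_add fun ε hε => ?_
  obtain ⟨s, hs0, hst, hs⟩ := hlim ε hε
  have h1 := hMV s hs0 hst
  have e : u x = avg η u x t₁ - (avg η u x t₁ - avg η u x s) - (avg η u x s - u x) := by abel
  have h3 : ‖u x‖ ≤ ‖avg η u x t₁‖ + ‖avg η u x t₁ - avg η u x s‖ + ‖avg η u x s - u x‖ := by
    calc ‖u x‖ = ‖avg η u x t₁ - (avg η u x t₁ - avg η u x s) - (avg η u x s - u x)‖ := by
          rw [← e]
      _ ≤ ‖avg η u x t₁ - (avg η u x t₁ - avg η u x s)‖ + ‖avg η u x s - u x‖ := norm_sub_le _ _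
      _ ≤ ‖avg η u x t₁‖ + ‖avg η u x t₁ - avg η u x s‖ + ‖avg η u x s - u x‖ := by
          have := norm_sub_le (avg η u x t₁) (avg η u x t₁ - avg η u x s)
          linarith
  have q1 : 0 ≤ M * c * t₁ ^ (-a) := by positivity
  have q2 : 0 ≤ M * c * t₁ ^ (1 - a) / (1 - a) := by positivity
  nlinarith [mul_nonneg q1 hV0, mul_nonneg q2 hU0]

/-- `W^{1,p}` closeness implies uniform closeness on compact subsets, `p > n`. -/
theorem morrey_sup {n : ℕ} (hn : 0 < n) {p : ℝ} (hp : (n : ℝ) < p) {Ω : Set (Eu n)}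
    (hΩ : IsOpen Ω) {C : Set (Eu n)} (hC : IsCompact C) (hCΩ : C ⊆ Ω) {ε : ℝ} (hε : 0 < ε) :
    ∃ ε' : ℝ, 0 < ε' ∧ ∀ u w : Eu n → Eu n, ContinuousOn u Ω → ContinuousOn w Ω →
      WDistLT Ω (ENNReal.ofReal p) u w ε' → ∀ x ∈ C, ‖u x - w x‖ < ε := by
  obtain ⟨δ, hδ, hδC⟩ := hC.exists_cthickening_subset_open hΩ hCΩ
  obtain ⟨K, hK, hmain⟩ := morrey_point hn hp hδ
  refine ⟨ε / K, by positivity, ?_⟩
  rintro u w hu hw ⟨H, hH, hlt⟩ x hx
  have hball : Metric.closedBall x δ ⊆ Ω :=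
    (Metric.closedBall_subset_cthickening hx δ).trans hδC
  have hc : ContinuousOn (fun x => u x - w x) Ω := hu.sub hw
  have hfin := hlt.trans ENNReal.ofReal_lt_top
  have h1 : eLpNorm (fun x => u x - w x) (ENNReal.ofReal p) (volume.restrict Ω) < ∞ :=
    lt_of_le_of_lt le_self_add hfin
  have h2 : eLpNorm H (ENNReal.ofReal p) (volume.restrict Ω) < ∞ :=
    lt_of_le_of_lt le_add_self hfin
  have m1 : MemLp (fun x => u x - w x) (ENNReal.ofReal p) (volume.restrict Ω) :=
    ⟨hc.aestronglyMeasurable hΩ.measurableSet, h1⟩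
  have m2 : MemLp H (ENNReal.ofReal p) (volume.restrict Ω) :=
    ⟨hH.2.1.aestronglyMeasurable, h2⟩
  have h3 := hmain Ω (fun x => u x - w x) H hΩ hc hH m1 m2 x hball
  have h4 := ENNReal.toReal_strict_mono ENNReal.ofReal_ne_top hlt
  rw [ENNReal.toReal_add h1.ne h2.ne, ENNReal.toReal_ofReal (by positivity)] at h4
  calc ‖u x - w x‖ ≤ K * _ := h3
    _ < K * (ε / K) := mul_lt_mul_of_pos_left h4 hK
    _ = ε := by field_simp

end EXO
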