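import Pool.Agent.EXO.TMod
import Pool.Agent.EXO.TGlue
import Pool.Agent.EXO.TMorB
import Pool.Agent.EXO.TLipW

/-!
# EXO, part T, module TEnd: from Theorem B to the theorem

`TheoremB`: no diffeomorphism of `Ω` is uniformly `ε`-close on the compact set `C ⊆ Ω` to `f₀ = gl A (boxU ρ d0) (model F φ)`.

PROOF.  `A` is Lipschitz with constant `C_A`.  Take `f` from `exists_pa_model` with `ε/(2 C_A + 2)`, `f_tot = gl A U f`, so
`‖f_tot y - f₀ y‖ ≤ ε/2` for `y ∈ Ω` (for `A⁻¹y ∈ U` one has `A⁻¹ y ∈ zlt δ ⊆ zle δ` by `hΩ`).  `glue_pa` gives `IsPAHomeo` and Lipschitz,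
`memW_of_lipschitzOn` gives `MemW`.  Let `ε'` be from `morrey_sup` for `p`, `C`, `ε/2`.  If `g` is a diffeomorphism with
`WDistLT Ω p g f_tot ε'` then `‖g x - f_tot x‖ < ε/2` on `C` (`g`, `f_tot` are continuous on `Ω`), so `‖g x - f₀ x‖ < ε` on `C`: contradiction.
-/

namespace EXO

open Set
open scoped ENNReal

private theorem aff_lip (A : Eu 14 ≃ᵃ[ℝ] Eu 14) : ∃ K : ℝ, 0 ≤ K ∧ ∀ x y, ‖A x - A y‖ ≤ K * ‖x - y‖ := by
  refine ⟨‖(A.linear : Eu 14 →ₗ[ℝ] Eu 14).toContinuousLinearMap‖, norm_nonneg _, fun x y => ?_⟩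
  have h : A x - A y = (A.linear : Eu 14 →ₗ[ℝ] Eu 14).toContinuousLinearMap (x - y) := by
    have := A.toAffineMap.linearMap_vsub x y
    simp only [vsub_eq_sub] at this
    simpa using this.symm
  rw [h]
  exact ContinuousLinearMap.le_opNorm _ _

theorem exo_of_theoremB {δ ρ d d0 : ℝ} {F : Eu 14 → Eu 14} {φ : Eu 6 → Eu 6}
    (D : SmoothBox δ ρ F φ) (hd : 0 < d) (hdd : d < d0) (hd0 : d0 ≤ 1)
    (A : Eu 14 ≃ᵃ[ℝ] Eu 14) {Ω : Set (Eu 14)} (hΩo : IsOpen Ω) (hΩb : Bornology.IsBounded Ω)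
    (hΩ : ∀ x ∈ boxU ρ d0, A x ∈ Ω ↔ (x ∈ zlt δ ∧ |x 13| < d))
    {C : Set (Eu 14)} (hC : IsCompact C) (hCΩ : C ⊆ Ω) {ε : ℝ} (hε : 0 < ε)
    (hB : ∀ g : Eu 14 → Eu 14, IsDiffeo Ω g →
      ¬ ∀ x ∈ C, ‖g x - gl A (boxU ρ d0) (model F φ) x‖ < ε) :
    ∃ f : Eu 14 → Eu 14, IsPAHomeo Ω f ∧ (∃ K : NNReal, LipschitzOnWith K f Ω) ∧
      (∀ p : ℝ≥0∞, MemW Ω p f) ∧
      ∀ p : ℝ, 14 < p → ∃ ε' : ℝ, 0 < ε' ∧
        ∀ g : Eu 14 → Eu 14, IsDiffeo Ω g → ¬ WDistLT Ω (ENNReal.ofReal p) g f ε' := by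
  obtain ⟨CA, hCA0, hCA⟩ := aff_lip A
  have hε1 : 0 < ε / (2 * CA + 2) := by positivity
  obtain ⟨f, L, hf, hclose⟩ := exists_pa_model D hε1
  obtain ⟨hPA, K, hK⟩ := glue_pa hf D.δ_pos D.ρ_pos hd hdd hd0 A hΩo hΩb hΩ
  have hdist : ∀ y ∈ Ω, ‖gl A (boxU ρ d0) f y - gl A (boxU ρ d0) (model F φ) y‖ ≤ ε / 2 := by
    intro y hy
    unfold gl
    by_cases hU : A.symm y ∈ boxU ρ d0
    · rw [if_pos hU, if_pos hU]
      have hz : A.symm y ∈ zle δ := by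
        have h1 := (hΩ _ hU).1 (by simpa using hy)
        exact fun i hi => (h1.1 i hi).le
      calc ‖A (f (A.symm y)) - A (model F φ (A.symm y))‖ ≤ CA * ‖f (A.symm y) - model F φ (A.symm y)‖ := hCA _ _
        _ ≤ CA * (ε / (2 * CA + 2)) := by gcongr; exact hclose _ hz
        _ ≤ ε / 2 := by
          rw [mul_div_assoc', div_le_div_iff₀ (by positivity) (by norm_num)]
          nlinarith
    · rw [if_neg hU, if_neg hU]
      rw [sub_self, norm_zero]; positivity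
  refine ⟨gl A (boxU ρ d0) f, hPA, ⟨K, hK⟩, fun p => memW_of_lipschitzOn hΩo hΩb hK p, fun p hp => ?_⟩
  obtain ⟨ε', hε', H⟩ := morrey_sup (n := 14) (by norm_num) (by exact_mod_cast hp) hΩo hC hCΩ (half_pos hε)
  refine ⟨ε', hε', fun g hg hW => hB g hg fun x hx => ?_⟩
  have h1 := H g (gl A (boxU ρ d0) f) hg.smooth.continuousOn hK.continuousOn hW x hx
  have h2 := hdist x (hCΩ hx)
  calc ‖g x - gl A (boxU ρ d0) (model F φ) x‖
      = ‖(g x - gl A (boxU ρ d0) f x) + (gl A (boxU ρ d0) f x - gl A (boxU ρ d0) (model F φ) x)‖ := by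
        congr 1; abel
    _ ≤ ‖g x - gl A (boxU ρ d0) f x‖ + ‖gl A (boxU ρ d0) f x - gl A (boxU ρ d0) (model F φ) x‖ := norm_add_le _ _
    _ < ε := by linarith

end EXO
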