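import Pool.Agent.EXO.TBoxDefs

/-!
# EXO, part T, module TExt: globalisation of the smooth map

STATEMENT: a map `F'` on the whole space with `F' = F` on `|z_i| ≤ 2δ`, `DF'` globally Lipschitz and bounded,
`F' - id` bounded.

PROOF.  `β : ℝ → ℝ` smooth, `β = 1` on `[-2,2]`, `β = 0` outside `(-5/2, 5/2)` (`Real.smoothTransition` or
`ContDiffBump`), `χ(x) = ∏_{i : isZ i} β(x_i/δ)`, `F' x = x + χ(x) (F x - x)` (`= x` where `χ x = 0`).  Smooth: on the open set
`zlt (3δ)` it is a product/sum of smooth maps; on the open set `{∃ i, isZ i, |x_i| > 5δ/2}` it is the identity; these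
two cover.  `F' = F` on `zle (2δ)`.
Put `E = F' - id`.  Facts: (1) `E(x + a e_13) = E x`; (2) `E x = 0` for `x 0 ≤ 0`; (3) for `x 0 ≥ 7/4`, `E` does not change if `x 0`
is changed within `[7/4, ∞)` (`high`: `F x - x` depends on the `p` block only); (4) `E x = 0` if some `|p_i| ≥ ρ` (`id_out`) or some
`|z_i| ≥ 5δ/2`.  The second derivative `D²E` (`iteratedFDeriv ℝ 2 E` or `fderiv ℝ (fderiv ℝ E)`) is continuous, hence bounded on the
compact box `B₀ = {-1 ≤ x 0 ≤ 3, |p_i| ≤ ρ+1, |z_i| ≤ 3δ, x 13 = 0}`.  For arbitrary `x`: if some `|p_i| > ρ` or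
`|z_i| > 5δ/2` or `x 0 < 0`, `E = 0` near `x`, `D²E(x) = 0`.  Otherwise, if `x 0 ≤ 3`, `D²E(x) = D²E(x - x_13 e_13)` (translation
invariance (1): `E ∘ (· + a e_13) = E`), a point of `B₀`; if `x 0 > 3`, by (3) `E` and `E ∘ (· - (x_0 - 3) e_0)` agree near `x`
(for `y_0 > 7/4 + (x_0-3)`), so again the value is one taken on `B₀`.  So `‖D²E‖ ≤ M` everywhere and `DE` is `M`-Lipschitz (mean value
inequality), `DF' = id + DE`.  In the same way `E` and `DE` are bounded.
-/

namespace EXO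

open Set

private theorem fderiv_trans51 {n m : ℕ} {E : Eu n → Eu m} {x a : Eu n}
    (h : ∀ᶠ y in nhds x, E y = E (y + a)) :
    E x = E (x + a) ∧ fderiv ℝ E x = fderiv ℝ E (x + a) ∧
      fderiv ℝ (fderiv ℝ E) x = fderiv ℝ (fderiv ℝ E) (x + a) := by
  have h1 : E =ᶠ[nhds x] fun y => E (y + a) := h
  have h2 := h1.fderiv (𝕜 := ℝ)
  have e2 : fderiv ℝ (fun y => E (y + a)) = fun y => fderiv ℝ E (y + a) := by
    funext y
    rw [fderiv_comp_add_right]
  rw [e2] at h2
  have h3 := h2.fderiv (𝕜 := ℝ)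
  refine ⟨h1.self_of_nhds, h2.self_of_nhds, ?_⟩
  have h4 := h3.self_of_nhds
  rw [fderiv_comp_add_right] at h4
  exact h4

private theorem fderiv_zero51 {n m : ℕ} {E : Eu n → Eu m} {x : Eu n}
    (h : ∀ᶠ y in nhds x, E y = 0) :
    E x = 0 ∧ fderiv ℝ E x = 0 ∧ fderiv ℝ (fderiv ℝ E) x = 0 := by
  have h1 : E =ᶠ[nhds x] fun _ => (0 : Eu m) := h
  have h2 := h1.fderiv (𝕜 := ℝ)
  have e2 : fderiv ℝ (fun _ : Eu n => (0 : Eu m)) = fun _ => 0 := by
    funext y
    simp
  rw [e2] at h2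
  have h3 := h2.fderiv (𝕜 := ℝ)
  refine ⟨h1.self_of_nhds, h2.self_of_nhds, ?_⟩
  have h4 := h3.self_of_nhds
  rw [h4]
  simp

private theorem generic51 {n m : ℕ} {E : Eu n → Eu m} (hE : ContDiff ℝ (⊤ : ℕ∞) E)
    {K : Set (Eu n)} (hK : IsCompact K)
    (h : ∀ x, (∀ᶠ y in nhds x, E y = 0) ∨ ∃ a, x + a ∈ K ∧ ∀ᶠ y in nhds x, E y = E (y + a)) :
    ∃ M B C : ℝ, 0 ≤ M ∧ (∀ x y : Eu n, ‖fderiv ℝ E x - fderiv ℝ E y‖ ≤ M * ‖x - y‖) ∧
      (∀ x : Eu n, ‖E x‖ ≤ B) ∧ (∀ x : Eu n, ‖fderiv ℝ E x‖ ≤ C) := by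
  have hD : ContDiff ℝ (⊤ : ℕ∞) (fderiv ℝ E) := hE.fderiv_right (m := (⊤ : ℕ∞)) (by simp)
  have hDD : ContDiff ℝ (⊤ : ℕ∞) (fderiv ℝ (fderiv ℝ E)) :=
    hD.fderiv_right (m := (⊤ : ℕ∞)) (by simp)
  obtain ⟨B, hB⟩ := hK.exists_bound_of_continuousOn hE.continuous.continuousOn
  obtain ⟨C, hC⟩ := hK.exists_bound_of_continuousOn hD.continuous.continuousOn
  have hcn : Continuous fun x => ‖fderiv ℝ (fderiv ℝ E) x‖ :=
    (continuous_norm (E := Eu n →L[ℝ] Eu n →L[ℝ] Eu m)).comp hDD.continuous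
  obtain ⟨M, hM'⟩ := hK.exists_bound_of_continuousOn hcn.continuousOn
  have hM : ∀ x ∈ K, ‖fderiv ℝ (fderiv ℝ E) x‖ ≤ M := by
    intro x hx
    exact (le_abs_self _).trans (hM' x hx)
  have all : ∀ x, ‖E x‖ ≤ max B 0 ∧ ‖fderiv ℝ E x‖ ≤ max C 0 ∧
      ‖fderiv ℝ (fderiv ℝ E) x‖ ≤ max M 0 := by
    intro x
    rcases h x with h0 | ⟨a, ha, h0⟩
    · obtain ⟨h1, h2, h3⟩ := fderiv_zero51 h0
      rw [h1, h2, h3, norm_zero, norm_zero]
      refine ⟨le_max_right _ _, le_max_right _ _, ?_⟩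
      exact (norm_zero (E := Eu n →L[ℝ] Eu n →L[ℝ] Eu m)).le.trans (le_max_right _ _)
    · obtain ⟨h1, h2, h3⟩ := fderiv_trans51 h0
      rw [h1, h2, h3]
      exact ⟨(hB _ ha).trans (le_max_left _ _), (hC _ ha).trans (le_max_left _ _),
        (hM _ ha).trans (le_max_left _ _)⟩
  refine ⟨max M 0, max B 0, max C 0, le_max_right _ _, fun x y => ?_, fun x => (all x).1,
    fun x => (all x).2.1⟩
  exact convex_univ.norm_image_sub_le_of_norm_fderiv_le (𝕜 := ℝ)
    (fun z _ => (hD.differentiable (by simp)) z) (fun z _ => (all z).2.2) (mem_univ y) (mem_univ x)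

private theorem compact51 (n : ℕ) (R : ℝ) : IsCompact {x : Eu n | ∀ i, |x i| ≤ R} := by
  have h1 : {x : Eu n | ∀ i, |x i| ≤ R} = (fun f : Fin n → ℝ => (WithLp.toLp 2 f : Eu n)) ''
      (Icc (fun _ => -R) (fun _ => R)) := by
    ext x
    constructor
    · intro hx
      exact ⟨fun i => x i, ⟨fun i => (abs_le.1 (hx i)).1, fun i => (abs_le.1 (hx i)).2⟩, rfl⟩
    · rintro ⟨f, hf, rfl⟩ i
      exact abs_le.2 ⟨hf.1 i, hf.2 i⟩
  rw [h1]
  exact isCompact_Icc.image (PiLp.continuous_toLp 2 _)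

private theorem id_add51 {n : ℕ} {E : Eu n → Eu n} (hE : ContDiff ℝ (⊤ : ℕ∞) E)
    (x : Eu n) : fderiv ℝ (fun y => y + E y) x = ContinuousLinearMap.id ℝ _ + fderiv ℝ E x := by
  rw [fderiv_fun_add differentiableAt_fun_id ((hE.differentiable (by simp)) x), fderiv_fun_id]

private theorem cont_coord51 {n : ℕ} (i : Fin n) : Continuous fun x : Eu n => x i := by
  fun_prop

theorem exists_ext {δ ρ : ℝ} {F : Eu 14 → Eu 14} {φ : Eu 6 → Eu 6} (D : SmoothBox δ ρ F φ) :
    ∃ (F' : Eu 14 → Eu 14) (M B C : ℝ), 0 ≤ M ∧ ContDiff ℝ (⊤ : ℕ∞) F' ∧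
      (∀ x ∈ zle (2 * δ), F' x = F x) ∧
      (∀ x y : Eu 14, ‖fderiv ℝ F' x - fderiv ℝ F' y‖ ≤ M * ‖x - y‖) ∧
      (∀ x : Eu 14, ‖F' x - x‖ ≤ B) ∧ (∀ x : Eu 14, ‖fderiv ℝ F' x‖ ≤ C) := by
  classical
  have hδ := D.δ_pos
  set b : ContDiffBump (0 : ℝ) := ⟨2, 5 / 2, by norm_num, by norm_num⟩ with hb
  set χ : Eu 14 → ℝ := fun x => ∏ i ∈ Finset.univ.filter isZ, b (x i / δ) with hχ
  have χs : ContDiff ℝ (⊤ : ℕ∞) χ := by
    rw [hχ]
    refine contDiff_prod fun i _ => ?_
    exact b.contDiff.comp (by fun_prop)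
  have χ1 : ∀ x ∈ zle (2 * δ), χ x = 1 := by
    intro x hx
    refine Finset.prod_eq_one fun i hi => ?_
    have hi' : isZ i := (Finset.mem_filter.1 hi).2
    refine b.one_of_mem_closedBall ?_
    rw [mem_closedBall_zero_iff, Real.norm_eq_abs, abs_div, abs_of_pos hδ]
    show |x i| / δ ≤ 2
    rw [div_le_iff₀ hδ]
    exact hx i hi'
  have χ0 : ∀ x : Eu 14, (∃ i, isZ i ∧ 5 / 2 * δ ≤ |x i|) → χ x = 0 := by
    rintro x ⟨i, hi, hx⟩
    refine Finset.prod_eq_zero (Finset.mem_filter.2 ⟨Finset.mem_univ i, hi⟩) ?_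
    refine b.zero_of_le_dist ?_
    rw [dist_zero_right, Real.norm_eq_abs, abs_div, abs_of_pos hδ]
    show 5 / 2 ≤ |x i| / δ
    rw [le_div_iff₀ hδ]
    exact hx
  set E : Eu 14 → Eu 14 := fun x => χ x • (F x - x) with hEd
  have zopen : ∀ r : ℝ, IsOpen (zlt r) := by
    intro r
    have : zlt r = ⋂ i ∈ {i : Fin 14 | isZ i}, {x : Eu 14 | |x i| < r} := by
      ext x
      simp [zlt]
    rw [this]
    exact (Set.toFinite _).isOpen_biInter fun i _ =>
      isOpen_lt (continuous_abs.comp (cont_coord51 i)) continuous_const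
  have E0 : ∀ x : Eu 14, x ∉ zlt (3 * δ) → E x = 0 := by
    intro x hx
    have : ∃ i, isZ i ∧ 5 / 2 * δ ≤ |x i| := by
      by_contra hc
      push Not at hc
      exact hx fun i hi => (hc i hi).trans (by linarith)
    simp only [hEd, χ0 x this, zero_smul]
  have E0' : ∀ x : Eu 14, (x ∈ zlt (3 * δ) → F x = x) → E x = 0 := by
    intro x hx
    by_cases h : x ∈ zlt (3 * δ)
    · simp only [hEd, hx h, sub_self, smul_zero]
    · exact E0 x h
  have Es : ContDiff ℝ (⊤ : ℕ∞) E := by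
    rw [contDiff_iff_contDiffAt]
    intro x
    by_cases hx : x ∈ zlt (3 * δ)
    · have hF : ContDiffAt ℝ (⊤ : ℕ∞) F x :=
        D.smooth.contDiffAt ((zopen _).mem_nhds hx)
      exact χs.contDiffAt.smul (hF.sub contDiffAt_id)
    · have : ∃ i, isZ i ∧ 3 * δ ≤ |x i| := by
        by_contra hc
        push Not at hc
        exact hx fun i hi => hc i hi
      obtain ⟨i, hi, hxi⟩ := this
      have hO : IsOpen {y : Eu 14 | 5 / 2 * δ < |y i|} :=
        isOpen_lt continuous_const (continuous_abs.comp (cont_coord51 i))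
      have hz : E =ᶠ[nhds x] fun _ => (0 : Eu 14) := by
        filter_upwards [hO.mem_nhds (show 5 / 2 * δ < |x i| by linarith)] with y hy
        have hy' : 5 / 2 * δ < |y i| := hy
        simp only [hEd, χ0 y ⟨i, hi, hy'.le⟩, zero_smul]
      exact contDiffAt_const.congr_of_eventuallyEq hz
  -- invariance
  have nZ0 : ¬ isZ (0 : Fin 14) := by unfold isZ; simp
  have nZ13 : ¬ isZ (13 : Fin 14) := by unfold isZ; decide
  have nP0 : ¬ isP (0 : Fin 14) := by unfold isP; simp
  have nP13 : ¬ isP (13 : Fin 14) := by unfold isP; decide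
  have co : ∀ (y : Eu 14) (j i : Fin 14) (a : ℝ), i ≠ j →
      (y + EuclideanSpace.single j a) i = y i := by
    intro y j i a h
    simp [h]
  have χinv : ∀ (y : Eu 14) (j : Fin 14) (a : ℝ), ¬ isZ j →
      χ (y + EuclideanSpace.single j a) = χ y := by
    intro y j a hj
    refine Finset.prod_congr rfl fun i hi => ?_
    have hi' : isZ i := (Finset.mem_filter.1 hi).2
    rw [co y j i a (by rintro rfl; exact hj hi')]
  have zinv : ∀ (y : Eu 14) (j : Fin 14) (a : ℝ), ¬ isZ j →
      (y + EuclideanSpace.single j a ∈ zlt (3 * δ) ↔ y ∈ zlt (3 * δ)) := by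
    intro y j a hj
    constructor
    · intro h i hi
      have := h i hi
      rwa [co y j i a (by rintro rfl; exact hj hi)] at this
    · intro h i hi
      rw [co y j i a (by rintro rfl; exact hj hi)]
      exact h i hi
  have E13 : ∀ (y : Eu 14) (a : ℝ), E (y + EuclideanSpace.single 13 a) = E y := by
    intro y a
    by_cases hy : y ∈ zlt (3 * δ)
    · simp only [hEd]
      rw [χinv y 13 a nZ13, D.trans_v y hy a]
      congr 1
      abel
    · rw [E0 y hy, E0 _ (fun h => hy ((zinv y 13 a nZ13).1 h))]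
  have Ehigh : ∀ (y : Eu 14) (a : ℝ), 7 / 4 ≤ y 0 → 7 / 4 ≤ y 0 + a →
      E (y + EuclideanSpace.single 0 a) = E y := by
    intro y a h1 h2
    by_cases hy : y ∈ zlt (3 * δ)
    · have hy' : y + EuclideanSpace.single 0 a ∈ zlt (3 * δ) := (zinv y 0 a nZ0).2 hy
      have e0 : (y + EuclideanSpace.single 0 a : Eu 14) 0 = y 0 + a := by simp
      have eb : blk (y + EuclideanSpace.single 0 a) = blk y := by
        ext j
        show (y + EuclideanSpace.single 0 a : Eu 14) (ιP j) = y (ιP j)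
        refine co y 0 (ιP j) a ?_
        intro h
        have := congrArg Fin.val h
        simp [ιP] at this
      simp only [hEd]
      rw [χinv y 0 a nZ0, D.high y hy h1, D.high _ hy' (by rw [e0]; exact h2), eb]
      congr 1
      ext i
      rw [PiLp.sub_apply, PiLp.sub_apply]
      by_cases hi : isP i
      · have hi0 : i ≠ 0 := by rintro rfl; exact nP0 hi
        rw [co y 0 i a hi0]
        simp only [setblk, hi, dif_pos]
      · simp only [setblk, hi, dif_neg, not_false_eq_true]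
        ring
    · rw [E0 y hy, E0 _ (fun h => hy ((zinv y 0 a nZ0).1 h))]
  set R : ℝ := 3 + |ρ| + 3 * δ with hR
  obtain ⟨M, B, C, hM, h1, h2, h3⟩ := generic51 Es (compact51 14 R) (by
    intro x
    by_cases c1 : ∃ i, isP i ∧ ρ < |x i|
    · left
      obtain ⟨i, hi, hxi⟩ := c1
      filter_upwards [(isOpen_lt continuous_const (continuous_abs.comp
        (cont_coord51 i))).mem_nhds (show ρ < |x i| from hxi)] with y hy
      have hy' : ρ < |y i| := hy
      exact E0' y fun hz => D.id_out y hz ⟨i, hi, hy'.le⟩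
    by_cases c2 : ∃ i, isZ i ∧ 5 / 2 * δ < |x i|
    · left
      obtain ⟨i, hi, hxi⟩ := c2
      filter_upwards [(isOpen_lt continuous_const (continuous_abs.comp
        (cont_coord51 i))).mem_nhds (show 5 / 2 * δ < |x i| from hxi)] with y hy
      have hy' : 5 / 2 * δ < |y i| := hy
      simp only [hEd, χ0 y ⟨i, hi, hy'.le⟩, zero_smul]
    by_cases c3 : x 0 < 0
    · left
      filter_upwards [(isOpen_lt (cont_coord51 0) continuous_const).mem_nhds
        (show x 0 < 0 from c3)] with y hy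
      have hy' : y 0 < 0 := hy
      exact E0' y fun hz => D.id_low y hz hy'.le
    right
    push Not at c1 c2 c3
    have bound : ∀ w : Eu 14, (∀ i, i ≠ 0 → i ≠ 13 → w i = x i) → |w 0| ≤ 3 → w 13 = 0 →
        w ∈ {x : Eu 14 | ∀ i, |x i| ≤ R} := by
      intro w hw hw0 hw13 i
      have hρ := abs_nonneg ρ
      have hρ' := le_abs_self ρ
      by_cases i0 : i = 0
      · subst i0; linarith
      by_cases i13 : i = 13
      · subst i13; rw [hw13, abs_zero]; linarith
      rw [hw i i0 i13]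
      by_cases hi : isP i
      · linarith [c1 i hi]
      · have hz : isZ i := by
          unfold isZ
          unfold isP at hi
          have h0 : i.val ≠ 0 := fun h => i0 (Fin.ext h)
          have h13 : i.val ≠ 13 := fun h => i13 (Fin.ext h)
          have := i.isLt
          omega
        linarith [c2 i hz]
    by_cases c4 : x 0 ≤ 3
    · refine ⟨EuclideanSpace.single 13 (-x 13), ?_, ?_⟩
      · refine bound _ (fun i _ h13 => co x 13 i _ h13) ?_ (by simp)
        rw [co x 13 0 _ (by decide), abs_of_nonneg c3]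
        exact c4
      · exact Filter.Eventually.of_forall fun y => (E13 y _).symm
    · push Not at c4
      refine ⟨EuclideanSpace.single 13 (-x 13) + EuclideanSpace.single 0 (3 - x 0), ?_, ?_⟩
      · refine bound _ (fun i h0 h13 => ?_) ?_ ?_
        · rw [← add_assoc, co _ 0 i _ h0, co x 13 i _ h13]
        · have : (x + (EuclideanSpace.single 13 (-x 13) + EuclideanSpace.single 0 (3 - x 0)) : Eu 14) 0
              = 3 := by simp
          rw [this]; norm_num
        · simp
      · filter_upwards [(isOpen_lt continuous_const (cont_coord51 0)).mem_nhds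
          (show x 0 - 1 < x 0 by linarith)] with y hy
        have hy' : x 0 - 1 < y 0 := hy
        rw [← add_assoc, Ehigh _ _ ?_ ?_, E13]
        · rw [co y 13 0 _ (by decide)]; linarith
        · rw [co y 13 0 _ (by decide)]; linarith)
  refine ⟨fun x => x + E x, M, B, 1 + C, hM, contDiff_id.add Es, ?_, ?_, ?_, ?_⟩
  · intro x hx
    simp only [hEd, χ1 x hx, one_smul]
    abel
  · intro x y
    rw [id_add51 Es, id_add51 Es]
    have : ContinuousLinearMap.id ℝ (Eu 14) + fderiv ℝ E x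
        - (ContinuousLinearMap.id ℝ (Eu 14) + fderiv ℝ E y) = fderiv ℝ E x - fderiv ℝ E y := by
      abel
    rw [this]
    exact h1 x y
  · intro x
    have : x + E x - x = E x := by abel
    rw [this]
    exact h2 x
  · intro x
    rw [id_add51 Es]
    exact (norm_add_le _ _).trans (add_le_add ContinuousLinearMap.norm_id_le (h3 x))

/-- the same for `φ` (which is the identity outside a cube) -/
theorem phi_bounds {δ ρ : ℝ} {F : Eu 14 → Eu 14} {φ : Eu 6 → Eu 6} (D : SmoothBox δ ρ F φ) :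
    (∀ q : Eu 6, (∃ i, ρ ≤ |q i|) → φ q = q) ∧
    ∃ M B C : ℝ, 0 ≤ M ∧ (∀ x y : Eu 6, ‖fderiv ℝ φ x - fderiv ℝ φ y‖ ≤ M * ‖x - y‖) ∧
      (∀ x : Eu 6, ‖φ x - x‖ ≤ B) ∧ (∀ x : Eu 6, ‖fderiv ℝ φ x‖ ≤ C) := by
  classical
  have hδ := D.δ_pos
  have nP0 : ¬ isP (0 : Fin 14) := by unfold isP; simp
  have hid : ∀ q : Eu 6, (∃ i, ρ ≤ |q i|) → φ q = q := by
    rintro q ⟨i, hi⟩
    have eb : ∀ (x : Eu 14) (q : Eu 6), blk (setblk x q) = q := by
      intro x q
      ext j
      have hj : isP (ιP j) := by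
        unfold isP ιP
        have := j.isLt
        simp only
        omega
      show (setblk x q) (ιP j) = q j
      simp only [setblk, hj, dif_pos]
      have e3 : (⟨(ιP j).val - 1, by have := j.isLt; simp only [ιP]; omega⟩ : Fin 6) = j := by
        apply Fin.ext
        simp [ιP]
      rw [e3]
    set x : Eu 14 := setblk (EuclideanSpace.single 0 2) q with hx
    have hxz : x ∈ zlt (3 * δ) := by
      intro k hk
      have hkP : ¬ isP k := by
        unfold isP
        unfold isZ at hk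
        omega
      have hk0 : k ≠ 0 := by
        rintro rfl
        unfold isZ at hk
        simp at hk
      have : x k = 0 := by
        simp [hx, setblk, hkP, hk0]
      rw [this, abs_zero]
      linarith
    have hx0 : x 0 = 2 := by
      simp [hx, setblk, nP0]
    have h1 := D.high x hxz (by rw [hx0]; norm_num)
    have h2 := D.id_out x hxz ⟨ιP i, by
      unfold isP ιP
      have := i.isLt
      simp only
      omega, by
      have : x (ιP i) = q i := congrFun (congrArg WithLp.ofLp (eb (EuclideanSpace.single 0 2) q)) i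
      rw [this]
      exact hi⟩
    rw [h1] at h2
    have h3 := congrArg blk h2
    rw [eb] at h3
    have h4 : blk x = q := eb _ _
    rw [h4] at h3
    exact h3
  refine ⟨hid, ?_⟩
  set E : Eu 6 → Eu 6 := fun q => φ q - q with hE
  have Es : ContDiff ℝ (⊤ : ℕ∞) E := D.smoothφ.sub contDiff_id
  obtain ⟨M, B, C, hM, h1, h2, h3⟩ := generic51 Es (compact51 6 ρ) (by
    intro x
    by_cases c : ∀ i, |x i| ≤ ρ
    · right
      exact ⟨0, by rw [add_zero]; exact c, Filter.Eventually.of_forall fun y => by rw [add_zero]⟩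
    · left
      push Not at c
      obtain ⟨i, hi⟩ := c
      filter_upwards [(isOpen_lt continuous_const (continuous_abs.comp
        (cont_coord51 i))).mem_nhds (show ρ < |x i| from hi)] with y hy
      have hy' : ρ < |y i| := hy
      simp only [hE, hid y ⟨i, hy'.le⟩, sub_self])
  have eφ : φ = fun q => q + E q := by
    funext q
    simp only [hE]
    abel
  refine ⟨M, B, 1 + C, hM, fun x y => ?_, fun x => h2 x, fun x => ?_⟩
  · rw [eφ, id_add51 Es, id_add51 Es]
    have : ContinuousLinearMap.id ℝ (Eu 6) + fderiv ℝ E x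
        - (ContinuousLinearMap.id ℝ (Eu 6) + fderiv ℝ E y) = fderiv ℝ E x - fderiv ℝ E y := by
      abel
    rw [this]
    exact h1 x y
  · rw [eφ, id_add51 Es]
    exact (norm_add_le _ _).trans (add_le_add ContinuousLinearMap.norm_id_le (h3 x))

end EXO
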