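import Pool.Agent.EXO.TKint

/-!
# EXO, part T, module TKid: the interpolation reproduces affine functions

PROOFS.  (1) `∫_0^1 ⌈u - t⌉ dt = u`: let `a = ⌊u⌋`, `r = u - a ∈ [0,1)`.  For `t ∈ (0, r)`: `⌈u - t⌉ = a + 1`;
for `t ∈ (r, 1)`: `u - t ∈ (a - 1 , a)`... precisely `a + r - t ∈ (a-1, a]`, so `⌈u - t⌉ = a`.  Split the integral at
`r`: `r (a+1) + (1-r) a = a + r = u` (`intervalIntegral.integral_add_adjacent_intervals`,
`integral_congr_ae`/`_uIoo`).
(2) `kh h (fun y => y i) x = h * ∫ ⌈x_i/h - t⌉ = x_i`  (`h ≠ 0`).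
(3) `kh_coord_of`: the coordinate functional is continuous linear (`EuclideanSpace.proj i`): `(kh h F x) i = kh h (fun y => F y i) x`
(`kh_clm`), then `kh_congr` and (2).
(4) `kh_id`: from (3) componentwise.
-/

namespace EXO

open MeasureTheory Set

theorem integral_ceil (u : ℝ) : ∫ t in (0 : ℝ)..1, ((⌈u - t⌉ : ℤ) : ℝ) = u := by
  have h0 : 0 ≤ Int.fract u := Int.fract_nonneg u
  have h1 : Int.fract u < 1 := Int.fract_lt_one u
  have hu : (⌊u⌋ : ℝ) + Int.fract u = u := Int.floor_add_fract u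
  have hanti : Antitone (fun t : ℝ => ((⌈u - t⌉ : ℤ) : ℝ)) := by
    intro s t hst
    exact Int.cast_le.2 (Int.ceil_le_ceil (by linarith))
  have e1 : ∫ t in (0 : ℝ)..Int.fract u, ((⌈u - t⌉ : ℤ) : ℝ) = Int.fract u * (⌊u⌋ + 1) := by
    rw [intervalIntegral.integral_of_le h0, integral_Ioc_eq_integral_Ioo]
    have e : ∀ t ∈ Ioo (0 : ℝ) (Int.fract u), ((⌈u - t⌉ : ℤ) : ℝ) = (⌊u⌋ : ℝ) + 1 := by
      intro t ht
      have : ⌈u - t⌉ = ⌊u⌋ + 1 := by
        rw [Int.ceil_eq_iff]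
        push_cast
        constructor
        · linarith [ht.2]
        · linarith [ht.1]
      rw [this]
      push_cast
      ring
    rw [setIntegral_congr_fun measurableSet_Ioo e, setIntegral_const, Measure.real,
      Real.volume_Ioo, sub_zero, ENNReal.toReal_ofReal h0, smul_eq_mul]
  have e2 : ∫ t in (Int.fract u)..(1 : ℝ), ((⌈u - t⌉ : ℤ) : ℝ) = (1 - Int.fract u) * ⌊u⌋ := by
    rw [intervalIntegral.integral_of_le h1.le, integral_Ioc_eq_integral_Ioo]
    have e : ∀ t ∈ Ioo (Int.fract u) (1 : ℝ), ((⌈u - t⌉ : ℤ) : ℝ) = (⌊u⌋ : ℝ) := by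
      intro t ht
      have : ⌈u - t⌉ = ⌊u⌋ := by
        rw [Int.ceil_eq_iff]
        constructor
        · linarith [ht.2]
        · linarith [ht.1]
      rw [this]
    rw [setIntegral_congr_fun measurableSet_Ioo e, setIntegral_const, Measure.real,
      Real.volume_Ioo, ENNReal.toReal_ofReal (by linarith), smul_eq_mul]
  rw [← intervalIntegral.integral_add_adjacent_intervals
    (hanti.intervalIntegrable (a := 0) (b := Int.fract u))
    (hanti.intervalIntegrable (a := Int.fract u) (b := 1)), e1, e2]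
  linarith

theorem kh_coord {n : ℕ} {h : ℝ} (hh : 0 < h) (x : Eu n) (i : Fin n) :
    kh h (fun y : Eu n => y i) x = x i := by
  have e : kh h (fun y : Eu n => y i) x = ∫ t in (0 : ℝ)..1, h * ((⌈x i / h - t⌉ : ℤ) : ℝ) := rfl
  rw [e, intervalIntegral.integral_const_mul, integral_ceil]
  field_simp

theorem kh_apply {n m : ℕ} (h : ℝ) (F : Eu n → Eu m) (x : Eu n) (i : Fin m) :
    (kh h F x) i = kh h (fun y => F y i) x :=
  (kh_clm h F (EuclideanSpace.proj (𝕜 := ℝ) i) x).symm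

/-- if `F` keeps the `i`-th coordinate near `x` then so does `kh h F` at `x` -/
theorem kh_coord_of {n : ℕ} {h : ℝ} (hh : 0 < h) {F : Eu n → Eu n} {x : Eu n} {i : Fin n}
    (H : ∀ y : Eu n, (∀ j, |y j - x j| ≤ h) → F y i = y i) : (kh h F x) i = x i := by
  rw [kh_apply, kh_congr hh (F' := fun y : Eu n => y i) H, kh_coord hh]

/-- if `F` is the identity near `x` then `kh h F x = x` -/
theorem kh_id {n : ℕ} {h : ℝ} (hh : 0 < h) {F : Eu n → Eu n} {x : Eu n}
    (H : ∀ y : Eu n, (∀ j, |y j - x j| ≤ h) → F y = y) : kh h F x = x := by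
  ext i
  exact kh_coord_of hh fun y hy => by rw [H y hy]

end EXO
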