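import Pool.Agent.EXO.TKid

/-!
# EXO, part T, module TKlip: the interpolation is Lipschitz-close to the map

STATEMENT: if `DF` is `M`-Lipschitz then `x ↦ kh h F x - F x` is Lipschitz with constant `3 n M h`.

PROOF.  Let `G x = kh h F x - F x`.
(1) One small coordinate step: `|s| ≤ h`, `x' = x + s e_i`.  `kgrid h x' t = kgrid h x t + h N(t) e_i`,
`N(t) = ⌈(x_i + s)/h - t⌉ - ⌈x_i/h - t⌉`.  `N` has the sign of `s` (monotonicity of the ceiling) and
`∫_0^1 N(t) dt = s/h` by `integral_ceil`, so `∫_0^1 |N| = |s|/h`.  By the mean value inequality on the segment between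
`b = kgrid h x t` and `b' = kgrid h x' t`,
`‖F b' - F b - h N DF(x) e_i‖ ≤ h |N| sup_{z ∈ [b,b']} ‖DF(z) - DF(x)‖ ≤ h |N| M · 2h√n`, because every `z ∈ [b,b']` has
`|z_j - x_j| ≤ 2h` for all `j` (`|b_j - x_j| ≤ h`, `|b'_j - x'_j| ≤ h`, `|s| ≤ h`), hence `‖z - x‖ ≤ 2h√n`.
(`Convex.norm_image_sub_le_of_norm_fderiv_le` applied to `y ↦ F y - DF(x) y`.)  Integrating over `t`:
`‖kh h F x' - kh h F x - s DF(x) e_i‖ ≤ 2√n M h |s|`.  Also `‖F x' - F x - s DF(x) e_i‖ ≤ M |s|·|s| ≤ M h |s|`.  So
`‖G x' - G x‖ ≤ (2√n + 1) M h |s|`.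
(2) Arbitrary coordinate step `s ∈ ℝ`: divide into `N` steps of size `|s|/N ≤ h`: the same bound
`‖G (x + s e_i) - G x‖ ≤ (2√n+1) M h |s|`.
(3) General `x, y`: change the coordinates one after the other (induction over `Finset`/`Fin`):
`‖G y - G x‖ ≤ (2√n+1) M h ∑_i |y_i - x_i| ≤ (2√n+1) √n M h ‖y - x‖ ≤ 3 n M h ‖y - x‖` (Cauchy-Schwarz; `√n ≤ n` for
`n ≥ 1`; `n = 0` trivial because `Eu 0` is a point).
-/

namespace EXO

open MeasureTheory Set

private noncomputable def tklE {n : ℕ} (i : Fin n) : Eu n := EuclideanSpace.single i (1 : ℝ)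

private theorem tklE_norm {n : ℕ} (i : Fin n) : ‖tklE i‖ = 1 := by
  unfold tklE
  rw [EuclideanSpace.norm_single]
  simp

private theorem tklE_apply {n : ℕ} (i j : Fin n) : (tklE i) j = if j = i then 1 else 0 := by
  unfold tklE
  rw [EuclideanSpace.single_apply]

private theorem tkl_norm_le {n : ℕ} {x z : Eu n} {r : ℝ} (hr : 0 ≤ r) (h : ∀ j, |z j - x j| ≤ r) :
    ‖z - x‖ ≤ r * Real.sqrt n := by
  rw [EuclideanSpace.norm_eq]
  have h1 : ∑ j, ‖(z - x) j‖ ^ 2 ≤ n * r ^ 2 := by
    calc ∑ j, ‖(z - x) j‖ ^ 2 ≤ ∑ _j : Fin n, r ^ 2 := by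
          refine Finset.sum_le_sum fun j _ => ?_
          have := h j
          rw [Real.norm_eq_abs]
          exact pow_le_pow_left₀ (abs_nonneg _) this 2
      _ = n * r ^ 2 := by simp
  calc Real.sqrt (∑ j, ‖(z - x) j‖ ^ 2) ≤ Real.sqrt (n * r ^ 2) := Real.sqrt_le_sqrt h1
    _ = r * Real.sqrt n := by
      rw [Real.sqrt_mul (Nat.cast_nonneg n), Real.sqrt_sq hr, mul_comm]

private theorem tkl_box_convex {n : ℕ} (x : Eu n) (r : ℝ) :
    Convex ℝ {z : Eu n | ∀ j, |z j - x j| ≤ r} := by
  intro a ha b hb s t hs ht hst j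
  have h1 := ha j
  have h2 := hb j
  have h3 : (s • a + t • b) j - x j = s * (a j - x j) + t * (b j - x j) := by
    have : s • a j + t • b j = (s • a + t • b) j := rfl
    rw [← this, smul_eq_mul, smul_eq_mul]
    have hx : x j = s * x j + t * x j := by rw [← add_mul, hst, one_mul]
    linear_combination -hx
  rw [h3]
  calc |s * (a j - x j) + t * (b j - x j)| ≤ |s * (a j - x j)| + |t * (b j - x j)| := abs_add_le _ _
    _ = s * |a j - x j| + t * |b j - x j| := by rw [abs_mul, abs_mul, abs_of_nonneg hs,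
        abs_of_nonneg ht]
    _ ≤ s * r + t * r := by gcongr
    _ = r := by rw [← add_mul, hst, one_mul]

private theorem tkl_step {n : ℕ} {W : Type*} [NormedAddCommGroup W] [NormedSpace ℝ W]
    [CompleteSpace W]
    {F : Eu n → W} {M h : ℝ} (hh : 0 < h) (hM : 0 ≤ M) (hF : Differentiable ℝ F)
    (hF' : ∀ x y : Eu n, ‖fderiv ℝ F x - fderiv ℝ F y‖ ≤ M * ‖x - y‖) (x : Eu n) (i : Fin n)
    {s : ℝ} (hs0 : 0 ≤ s) (hsh : s ≤ h) :
    ‖(kh h F (x + s • tklE i) - F (x + s • tklE i)) - (kh h F x - F x)‖ ≤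
      (2 * Real.sqrt n + 1) * M * h * s := by
  set x' : Eu n := x + s • tklE i with hx'
  have hx'j : ∀ j, x' j = x j + s * (if j = i then 1 else 0) := by
    intro j
    rw [hx']
    show x j + (s • tklE i) j = _
    have : (s • tklE i) j = s * (tklE i) j := rfl
    rw [this, tklE_apply]
  have hx'i : x' i = x i + s := by rw [hx'j, if_pos rfl, mul_one]
  set w : ℝ → ℝ := fun t => kgrid h x' t i - kgrid h x t i with hw
  have hw0 : ∀ t, 0 ≤ w t := by
    intro t
    simp only [hw, kgrid]
    rw [← mul_sub]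
    refine mul_nonneg hh.le (sub_nonneg.2 ?_)
    have h1 : ⌈x i / h - t⌉ ≤ ⌈x' i / h - t⌉ := by
      apply Int.ceil_mono
      rw [hx'i]
      have : x i / h ≤ (x i + s) / h := by gcongr; linarith
      linarith
    exact_mod_cast h1
  have hgrid : ∀ t, kgrid h x' t = kgrid h x t + w t • tklE i := by
    intro t
    ext j
    show kgrid h x' t j = kgrid h x t j + (w t • tklE i) j
    have : (w t • tklE i) j = w t * (tklE i) j := rfl
    rw [this, tklE_apply]
    by_cases hj : j = i
    · subst hj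
      simp [hw]
    · rw [if_neg hj, mul_zero, add_zero]
      simp only [kgrid]
      rw [hx'j, if_neg hj, mul_zero, add_zero]
  have hint_w : IntervalIntegrable w volume 0 1 :=
    (kh_intervalIntegrable h (fun y : Eu n => y i) x' 0 1).sub
      (kh_intervalIntegrable h (fun y : Eu n => y i) x 0 1)
  have hiw : ∫ t in (0 : ℝ)..1, w t = s := by
    have e1 := kh_coord hh x' i
    have e2 := kh_coord hh x i
    unfold kh at e1 e2
    have e3 := intervalIntegral.integral_sub
      (kh_intervalIntegrable h (fun y : Eu n => y i) x' 0 1)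
      (kh_intervalIntegrable h (fun y : Eu n => y i) x 0 1)
    calc ∫ t in (0 : ℝ)..1, w t = ∫ t in (0 : ℝ)..1, (kgrid h x' t i - kgrid h x t i) := rfl
      _ = x' i - x i := by rw [e3, e1, e2]
      _ = s := by rw [hx'i]; ring
  set φ : Eu n →L[ℝ] W := fderiv ℝ F x with hφ
  -- the pointwise bound
  have hpt : ∀ t ∈ Ioc (0 : ℝ) 1, ‖F (kgrid h x' t) - F (kgrid h x t) - w t • φ (tklE i)‖ ≤
      (2 * Real.sqrt n * M * h) * w t := by
    intro t ht
    have hb : ∀ j, |kgrid h x t j - x j| ≤ 2 * h := fun j =>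
      (kgrid_abs_le hh x ht.1.le ht.2 j).trans (by linarith)
    have hb' : ∀ j, |kgrid h x' t j - x j| ≤ 2 * h := by
      intro j
      have h1 := kgrid_abs_le hh x' ht.1.le ht.2 j
      have h2 : |x' j - x j| ≤ h := by
        rw [hx'j]
        split_ifs
        · rw [mul_one, add_sub_cancel_left, abs_of_nonneg hs0]; exact hsh
        · simpa using hh.le
      calc |kgrid h x' t j - x j| = |(kgrid h x' t j - x' j) + (x' j - x j)| := by ring_nf
        _ ≤ |kgrid h x' t j - x' j| + |x' j - x j| := abs_add_le _ _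
        _ ≤ 2 * h := by linarith
    have h1 := (tkl_box_convex x (2 * h)).norm_image_sub_le_of_norm_fderiv_le' (𝕜 := ℝ) (f := F)
      (φ := φ) (C := M * (2 * h * Real.sqrt n)) (x := kgrid h x t) (y := kgrid h x' t)
      (fun z _ => hF z) (fun z hz => (hF' z x).trans (by
        gcongr
        exact tkl_norm_le (by positivity) hz)) hb hb'
    have h2 : kgrid h x' t - kgrid h x t = w t • tklE i := by
      rw [hgrid]; abel
    rw [h2, map_smul, norm_smul, tklE_norm, mul_one, Real.norm_eq_abs, abs_of_nonneg (hw0 t)] at h1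
    calc ‖F (kgrid h x' t) - F (kgrid h x t) - w t • φ (tklE i)‖
        ≤ M * (2 * h * Real.sqrt n) * w t := h1
      _ = (2 * Real.sqrt n * M * h) * w t := by ring
  have hint_ws : IntervalIntegrable (fun t => w t • φ (tklE i)) volume 0 1 := by
    rw [intervalIntegrable_iff_integrableOn_Ioc_of_le zero_le_one] at hint_w ⊢
    exact MeasureTheory.Integrable.smul_const hint_w (φ (tklE i))
  have hI : ‖kh h F x' - kh h F x - s • φ (tklE i)‖ ≤ (2 * Real.sqrt n * M * h) * s := by
    have e1 : kh h F x' - kh h F x - s • φ (tklE i) =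
        ∫ t in (0 : ℝ)..1, (F (kgrid h x' t) - F (kgrid h x t) - w t • φ (tklE i)) := by
      rw [intervalIntegral.integral_sub ((kh_intervalIntegrable h F x' 0 1).sub
        (kh_intervalIntegrable h F x 0 1)) hint_ws,
        intervalIntegral.integral_sub (kh_intervalIntegrable h F x' 0 1)
        (kh_intervalIntegrable h F x 0 1), intervalIntegral.integral_smul_const, hiw]
      rfl
    rw [e1]
    have e2 := intervalIntegral.norm_integral_le_of_norm_le (μ := volume) (a := 0) (b := 1)
      zero_le_one (Filter.Eventually.of_forall hpt) (hint_w.const_mul (2 * Real.sqrt n * M * h))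
    rw [intervalIntegral.integral_const_mul, hiw] at e2
    exact e2
  have hII : ‖F x' - F x - s • φ (tklE i)‖ ≤ M * h * s := by
    have hx'x : x' - x = s • tklE i := by rw [hx']; abel
    have hn : ‖x' - x‖ = s := by
      rw [hx'x, norm_smul, tklE_norm, mul_one, Real.norm_eq_abs, abs_of_nonneg hs0]
    have h1 := (convex_closedBall x s).norm_image_sub_le_of_norm_fderiv_le' (𝕜 := ℝ) (f := F)
      (φ := φ) (C := M * s) (x := x) (y := x')
      (fun z _ => hF z) (fun z hz => (hF' z x).trans (by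
        gcongr
        rw [← dist_eq_norm]
        exact Metric.mem_closedBall.1 hz)) (Metric.mem_closedBall_self hs0) (by
        rw [Metric.mem_closedBall, dist_eq_norm, hn])
    rw [hx'x, map_smul, norm_smul, tklE_norm, mul_one, Real.norm_eq_abs, abs_of_nonneg hs0] at h1
    calc ‖F x' - F x - s • φ (tklE i)‖ ≤ M * s * s := h1
      _ ≤ M * h * s := by gcongr
  have e3 : (kh h F x' - F x') - (kh h F x - F x) =
      (kh h F x' - kh h F x - s • φ (tklE i)) - (F x' - F x - s • φ (tklE i)) := by abel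
  rw [e3]
  calc ‖(kh h F x' - kh h F x - s • φ (tklE i)) - (F x' - F x - s • φ (tklE i))‖
      ≤ (2 * Real.sqrt n * M * h) * s + M * h * s := (norm_sub_le _ _).trans (add_le_add hI hII)
    _ = (2 * Real.sqrt n + 1) * M * h * s := by ring

private theorem tkl_coord {n : ℕ} {W : Type*} [NormedAddCommGroup W] {G : Eu n → W} {L h : ℝ}
    (hh : 0 < h) (i : Fin n)
    (hG : ∀ (x : Eu n) (s : ℝ), 0 ≤ s → s ≤ h → ‖G (x + s • tklE i) - G x‖ ≤ L * s)
    (x : Eu n) (s : ℝ) : ‖G (x + s • tklE i) - G x‖ ≤ L * |s| := by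
  have key : ∀ (x : Eu n) (s : ℝ), 0 ≤ s → ‖G (x + s • tklE i) - G x‖ ≤ L * s := by
    intro x s hs
    obtain ⟨N, hN⟩ := exists_nat_gt (s / h)
    have hN0 : (0 : ℝ) < N := lt_of_le_of_lt (by positivity) hN
    have hd : s / N ≤ h := by
      rw [div_le_iff₀ hN0]
      rw [div_lt_iff₀ hh] at hN
      linarith
    have hk : ∀ k : ℕ, ‖G (x + ((k : ℝ) * (s / N)) • tklE i) - G x‖ ≤ L * (k * (s / N)) := by
      intro k
      induction k with
      | zero => simp
      | succ k ih =>
        have h1 := hG (x + ((k : ℝ) * (s / N)) • tklE i) (s / N) (by positivity) hd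
        have h2 : x + ((k : ℝ) * (s / N)) • tklE i + (s / N) • tklE i =
            x + (((k + 1 : ℕ) : ℝ) * (s / N)) • tklE i := by
          rw [add_assoc, ← add_smul]
          congr 2
          push_cast
          ring
        rw [h2] at h1
        calc ‖G (x + (((k + 1 : ℕ) : ℝ) * (s / N)) • tklE i) - G x‖
            = ‖(G (x + (((k + 1 : ℕ) : ℝ) * (s / N)) • tklE i) -
                G (x + ((k : ℝ) * (s / N)) • tklE i)) +
                (G (x + ((k : ℝ) * (s / N)) • tklE i) - G x)‖ := by rw [sub_add_sub_cancel]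
          _ ≤ L * (s / N) + L * (k * (s / N)) := (norm_add_le _ _).trans (add_le_add h1 ih)
          _ = L * (((k + 1 : ℕ) : ℝ) * (s / N)) := by push_cast; ring
    have h3 := hk N
    rwa [mul_div_cancel₀ s hN0.ne'] at h3
  rcases le_total 0 s with hs | hs
  · rw [abs_of_nonneg hs]
    exact key x s hs
  · rw [abs_of_nonpos hs]
    have h1 := key (x + s • tklE i) (-s) (by linarith)
    have h2 : x + s • tklE i + (-s) • tklE i = x := by
      rw [add_assoc, ← add_smul]; simp
    rw [h2] at h1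
    rwa [norm_sub_rev] at h1

theorem kh_lip {n : ℕ} {W : Type*} [NormedAddCommGroup W] [NormedSpace ℝ W] [CompleteSpace W]
    {F : Eu n → W} {M h : ℝ} (hh : 0 < h) (hM : 0 ≤ M) (hF : Differentiable ℝ F)
    (hF' : ∀ x y : Eu n, ‖fderiv ℝ F x - fderiv ℝ F y‖ ≤ M * ‖x - y‖) (x y : Eu n) :
    ‖(kh h F x - F x) - (kh h F y - F y)‖ ≤ 3 * n * M * h * ‖x - y‖ := by
  classical
  set L : ℝ := (2 * Real.sqrt n + 1) * M * h with hL
  have hL0 : 0 ≤ L := by positivity
  set G : Eu n → W := fun x => kh h F x - F x with hG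
  have hcoord : ∀ (i : Fin n) (x : Eu n) (s : ℝ), ‖G (x + s • tklE i) - G x‖ ≤ L * |s| :=
    fun i => tkl_coord hh i fun x s hs0 hsh => tkl_step hh hM hF hF' x i hs0 hsh
  have hS : ∀ S : Finset (Fin n),
      ‖G (WithLp.toLp 2 (fun j => if j ∈ S then x j else y j)) - G y‖ ≤
        L * ∑ j ∈ S, |x j - y j| := by
    intro S
    induction S using Finset.induction_on with
    | empty =>
      have h1 : (WithLp.toLp 2 (fun j => if j ∈ (∅ : Finset (Fin n)) then x j else y j) : Eu n) =
          y := by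
        ext j
        simp
      rw [h1]
      simp
    | insert i S hi ih =>
      set z : Eu n := WithLp.toLp 2 (fun j => if j ∈ S then x j else y j) with hz
      have h1 : (WithLp.toLp 2 (fun j => if j ∈ insert i S then x j else y j) : Eu n) =
          z + (x i - y i) • tklE i := by
        ext j
        show (if j ∈ insert i S then x j else y j) =
          (if j ∈ S then x j else y j) + ((x i - y i) • tklE i) j
        have h2 : ((x i - y i) • tklE i) j = (x i - y i) * (tklE i) j := rfl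
        rw [h2, tklE_apply]
        by_cases hj : j = i
        · subst hj
          simp [hi]
        · simp [hj]
      rw [h1, Finset.sum_insert hi]
      have h3 := hcoord i z (x i - y i)
      calc ‖G (z + (x i - y i) • tklE i) - G y‖
          = ‖(G (z + (x i - y i) • tklE i) - G z) + (G z - G y)‖ := by rw [sub_add_sub_cancel]
        _ ≤ L * |x i - y i| + L * ∑ j ∈ S, |x j - y j| :=
            (norm_add_le _ _).trans (add_le_add h3 ih)
        _ = L * (|x i - y i| + ∑ j ∈ S, |x j - y j|) := by ring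
  have h1 := hS Finset.univ
  have h2 : (WithLp.toLp 2 (fun j => if j ∈ (Finset.univ : Finset (Fin n)) then x j else y j) :
      Eu n) = x := by
    ext j
    simp
  rw [h2] at h1
  have h3 : ∑ j, |x j - y j| ≤ Real.sqrt n * ‖x - y‖ := by
    have e1 : (∑ j, |x j - y j|) ^ 2 ≤ n * ∑ j, |x j - y j| ^ 2 := by
      have := sq_sum_le_card_mul_sum_sq (s := (Finset.univ : Finset (Fin n)))
        (f := fun j => |x j - y j|)
      simpa using this
    have e2 : ∑ j, |x j - y j| ^ 2 = ‖x - y‖ ^ 2 := by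
      rw [EuclideanSpace.norm_sq_eq]
      rfl
    rw [e2] at e1
    have e3 : (∑ j, |x j - y j|) ^ 2 ≤ (Real.sqrt n * ‖x - y‖) ^ 2 := by
      rw [mul_pow, Real.sq_sqrt (Nat.cast_nonneg n)]
      exact e1
    exact (abs_le_of_sq_le_sq' e3 (by positivity)).2
  have h4 : Real.sqrt n ≤ n := by
    rcases Nat.eq_zero_or_pos n with hn | hn
    · subst hn
      simp
    · have h1n : (1 : ℝ) ≤ n := by exact_mod_cast hn
      refine (Real.sqrt_le_left (by positivity)).2 ?_
      nlinarith
  have h5 : Real.sqrt n * Real.sqrt n = n := Real.mul_self_sqrt (Nat.cast_nonneg n)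
  calc ‖G x - G y‖ ≤ L * ∑ j, |x j - y j| := h1
    _ ≤ L * (Real.sqrt n * ‖x - y‖) := by gcongr
    _ = (2 * (Real.sqrt n * Real.sqrt n) + Real.sqrt n) * (M * h * ‖x - y‖) := by rw [hL]; ring
    _ ≤ (2 * n + n) * (M * h * ‖x - y‖) := by
      rw [h5]
      gcongr
    _ = 3 * n * M * h * ‖x - y‖ := by ring

end EXO
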