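import Pool.Agent.EXO.TGlob
import Pool.Agent.EXO.TKlip
import Pool.Agent.EXO.TKid

/-!
# EXO, part T, module TFhA: properties of the interpolations `kh h F'` and `kh h φ` for small `h`

`F'` is the globalised map (`exists_ext`): `F' = F` on `zle (2δ)`, `DF'` `M`-Lipschitz.  Let `0 < h ≤ min(1/16, δ)`; if `x ∈ zle δ` and
`|y_i - x_i| ≤ h` for all `i` then `y ∈ zle (2δ) ⊆ zlt (3δ)` and `F' y = F y`.

PROOFS.
* `near`: for such `y`, `‖y - x‖ ≤ √14 h ≤ 4h`, `‖F' y - F' x‖ ≤ 4 C h`; `kh_dist_le` with `c = F' x = F x`.  (For `φ`: `‖y-x‖ ≤ √6 h ≤ 4h`.)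
* `keep`: `kh_coord_of` with `keep_s`, `keep_v`.
* `ident`: `x 0 ≤ -h`: every near `y` has `y 0 ≤ 0`; some `|x_i| ≥ ρ + h`: every near `y` has `|y_i| ≥ ρ`; `kh_id`.  For `φ` the same
  (`phi_bounds`).
* `stay`: if `kh h F' x ≠ x` then (by `kh_id`) some near `y₀` has `F y₀ ≠ y₀`, hence `|(y₀)_i| < ρ` for all `i ∈ P` (`id_out`), so
  `|x_i| ≤ ρ + h`; every near `y` has `|(F y)_i| ≤ ρ + 2h`: if `F y ≠ y` by `stay`, else `|y_i| ≤ |x_i| + h`.  `kh_apply` and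
  `kh_dist_le` (with `W = ℝ`, `c = 0`).
* `high`: componentwise (`kh_apply`): for `i ∉ P` the component of `F' y` is `y i` for near `y` (`high`, `setblk`), `kh_congr` +
  `kh_coord`; for `i ∈ P`, `i = ιP j`: it is `(φ (pr ιP y)) j`, `kh_congr`, `kh_pr`, `kh_apply`.
* `bil`: by `kh_lip`, `‖(kh h F' x - F' x) - (kh h F' y - F' y)‖ ≤ 42 M h ‖x-y‖`; with `c, C` from `smooth_bilip`:
  `(c - 42Mh)‖x-y‖ ≤ ‖kh h F' x - kh h F' y‖ ≤ (C + 42Mh)‖x-y‖`, choose `h` so small that `42 M h ≤ c/2`.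
-/

namespace EXO

open Set

private theorem norm_sub_le_four {n : ℕ} (hn : n ≤ 16) {h : ℝ} (hh : 0 ≤ h) {x y : Eu n}
    (H : ∀ i, |y i - x i| ≤ h) : ‖y - x‖ ≤ 4 * h := by
  have h1 : ‖y - x‖ ^ 2 ≤ (4 * h) ^ 2 := by
    rw [EuclideanSpace.norm_sq_eq]
    have h2 : ∀ i ∈ (Finset.univ : Finset (Fin n)), ‖(y - x) i‖ ^ 2 ≤ h ^ 2 := by
      intro i _
      have : ‖(y - x) i‖ ≤ h := by
        rw [Real.norm_eq_abs]
        exact H i
      gcongr
    have h3 := Finset.sum_le_card_nsmul _ _ _ h2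
    rw [Finset.card_univ, Fintype.card_fin, nsmul_eq_mul] at h3
    have h4 : (n : ℝ) ≤ 16 := by exact_mod_cast hn
    have h5 : (n : ℝ) * h ^ 2 ≤ 16 * h ^ 2 := by gcongr
    linarith [h3, h5, (by ring : (4 * h) ^ 2 = 16 * h ^ 2)]
  exact le_of_sq_le_sq h1 (by positivity)

private theorem kh_near {n m : ℕ} (hn : n ≤ 16) {G : Eu n → Eu m} {C h ε : ℝ} (hh : 0 < h)
    (hG : Differentiable ℝ G) (hC : ∀ x : Eu n, ‖fderiv ℝ G x‖ ≤ C) (hCe : C * (4 * h) ≤ ε)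
    (x : Eu n) : ‖kh h G x - G x‖ ≤ ε := by
  have hC0 : 0 ≤ C := (norm_nonneg _).trans (hC x)
  refine kh_dist_le hh fun y hy => ?_
  have h1 : ‖G y - G x‖ ≤ C * ‖y - x‖ :=
    Convex.norm_image_sub_le_of_norm_fderiv_le (𝕜 := ℝ) (s := univ) (fun z _ => hG z)
      (fun z _ => hC z) convex_univ (mem_univ x) (mem_univ y)
  refine h1.trans (le_trans ?_ hCe)
  exact mul_le_mul_of_nonneg_left (norm_sub_le_four hn hh.le hy) hC0

private theorem kh_bilip {n m : ℕ} {G : Eu n → Eu m} {K : Set (Eu n)} {M h c C : ℝ} (hh : 0 < h)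
    (hM : 0 ≤ M) (hG : Differentiable ℝ G)
    (hG' : ∀ x y : Eu n, ‖fderiv ℝ G x - fderiv ℝ G y‖ ≤ M * ‖x - y‖) (hc : 0 < c)
    (hb : ∀ x ∈ K, ∀ y ∈ K, c * ‖x - y‖ ≤ ‖G x - G y‖ ∧ ‖G x - G y‖ ≤ C * ‖x - y‖)
    (hs : 3 * n * M * h ≤ c / 2) : BiLip (kh h G) K := by
  refine ⟨c / 2, C + c / 2, by positivity, fun x hx y hy => ?_⟩
  obtain ⟨h1, h2⟩ := hb x hx y hy
  have h3 := kh_lip hh hM hG hG' x y
  have h4 : 3 * n * M * h * ‖x - y‖ ≤ c / 2 * ‖x - y‖ :=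
    mul_le_mul_of_nonneg_right hs (norm_nonneg _)
  have h5 : kh h G x - kh h G y = ((kh h G x - G x) - (kh h G y - G y)) + (G x - G y) := by abel
  have h6 : ‖kh h G x - kh h G y‖ ≤ ‖(kh h G x - G x) - (kh h G y - G y)‖ + ‖G x - G y‖ := by
    rw [h5]; exact norm_add_le _ _
  have h7 : ‖G x - G y‖ ≤ ‖kh h G x - kh h G y‖ + ‖(kh h G x - G x) - (kh h G y - G y)‖ := by
    have h8 : G x - G y = (kh h G x - kh h G y) - ((kh h G x - G x) - (kh h G y - G y)) := by abel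
    calc ‖G x - G y‖ = ‖(kh h G x - kh h G y) - ((kh h G x - G x) - (kh h G y - G y))‖ := by
          rw [← h8]
      _ ≤ _ := norm_sub_le _ _
  constructor
  · linarith
  · have h9 : (C + c / 2) * ‖x - y‖ = C * ‖x - y‖ + c / 2 * ‖x - y‖ := by ring
    linarith

theorem kh_props {δ ρ : ℝ} {F : Eu 14 → Eu 14} {φ : Eu 6 → Eu 6} (D : SmoothBox δ ρ F φ)
    {ε : ℝ} (hε : 0 < ε) :
    ∃ (F' : Eu 14 → Eu 14) (h B : ℝ), 0 < h ∧ h ≤ 1/16 ∧
      (∀ x ∈ zle δ, ‖kh h F' x - F x‖ ≤ ε) ∧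
      (∀ x ∈ zle δ, kh h F' x 0 = x 0 ∧ kh h F' x 13 = x 13) ∧
      (∀ x ∈ zle δ, (x 0 ≤ -h ∨ ∃ i, isP i ∧ ρ + h ≤ |x i|) → kh h F' x = x) ∧
      (∀ x ∈ zle δ, kh h F' x ≠ x → ∀ i, isP i → |kh h F' x i| ≤ ρ + 2 * h) ∧
      (∀ x ∈ zle δ, 15/8 ≤ x 0 → kh h F' x = setblk x (kh h φ (blk x))) ∧
      BiLip (kh h F') (zle δ) ∧
      (∀ q : Eu 6, ‖kh h φ q - φ q‖ ≤ ε) ∧
      (∀ q : Eu 6, (∃ i, ρ + h ≤ |q i|) → kh h φ q = q) ∧
      (∀ q : Eu 6, ‖kh h φ q - q‖ ≤ B) ∧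
      BiLip (kh h φ) univ := by
  obtain ⟨F', M, B₁, C₁, hM, hF's, hF'eq, hF'lip, -, hF'C⟩ := exists_ext D
  obtain ⟨hφid, Mφ, Bφ, Cφ, hMφ, hφlip, hφB, hφC⟩ := phi_bounds D
  obtain ⟨⟨c, C, hc, hcC⟩, ⟨c', C', hc', hcC'⟩⟩ := smooth_bilip D
  have hδ := D.δ_pos
  have hρ := D.ρ_pos
  have hC₁ : 0 ≤ C₁ := (norm_nonneg _).trans (hF'C 0)
  have hCφ : 0 ≤ Cφ := (norm_nonneg _).trans (hφC 0)
  have hF'd : Differentiable ℝ F' := hF's.differentiable (by simp)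
  have hφd : Differentiable ℝ φ := D.smoothφ.differentiable (by simp)
  -- choice of `h`
  obtain ⟨h, hh, hh16, hhδ, he1, he2, he3, he4⟩ : ∃ h : ℝ, 0 < h ∧ h ≤ 1 / 16 ∧ h ≤ δ ∧
      C₁ * (4 * h) ≤ ε ∧ Cφ * (4 * h) ≤ ε ∧ 3 * ((14 : ℕ) : ℝ) * M * h ≤ c / 2 ∧
      3 * ((6 : ℕ) : ℝ) * Mφ * h ≤ c' / 2 := by
    have hA : 0 < 4 * C₁ + 4 * Cφ + 42 * M + 18 * Mφ + 1 := by positivity
    have hm : 0 < min ε (min (c / 2) (c' / 2)) :=
      lt_min hε (lt_min (by positivity) (by positivity))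
    refine ⟨min (min (1 / 16) δ) (min ε (min (c / 2) (c' / 2)) /
      (4 * C₁ + 4 * Cφ + 42 * M + 18 * Mφ + 1)), ?_, ?_, ?_, ?_⟩
    · exact lt_min (lt_min (by norm_num) hδ) (div_pos hm hA)
    · exact (min_le_left _ _).trans (min_le_left _ _)
    · exact (min_le_left _ _).trans (min_le_right _ _)
    set h : ℝ := min (min (1 / 16) δ) (min ε (min (c / 2) (c' / 2)) /
      (4 * C₁ + 4 * Cφ + 42 * M + 18 * Mφ + 1)) with hhdef
    have hh0 : 0 ≤ h := (lt_min (lt_min (by norm_num) hδ) (div_pos hm hA)).le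
    have h1 : h ≤ min ε (min (c / 2) (c' / 2)) / (4 * C₁ + 4 * Cφ + 42 * M + 18 * Mφ + 1) :=
      min_le_right _ _
    rw [le_div_iff₀ hA] at h1
    have h2 : h * (4 * C₁ + 4 * Cφ + 42 * M + 18 * Mφ + 1) =
        4 * (C₁ * h) + 4 * (Cφ * h) + 42 * (M * h) + 18 * (Mφ * h) + h := by ring
    have p1 : 0 ≤ C₁ * h := mul_nonneg hC₁ hh0
    have p2 : 0 ≤ Cφ * h := mul_nonneg hCφ hh0
    have p3 : 0 ≤ M * h := mul_nonneg hM hh0
    have p4 : 0 ≤ Mφ * h := mul_nonneg hMφ hh0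
    have q1 : min ε (min (c / 2) (c' / 2)) ≤ ε := min_le_left _ _
    have q2 : min ε (min (c / 2) (c' / 2)) ≤ c / 2 := (min_le_right _ _).trans (min_le_left _ _)
    have q3 : min ε (min (c / 2) (c' / 2)) ≤ c' / 2 :=
      (min_le_right _ _).trans (min_le_right _ _)
    push_cast
    refine ⟨?_, ?_, ?_, ?_⟩ <;> linarith
  -- near points
  have hsub : ∀ y, y ∈ zle (2 * δ) → y ∈ zlt (3 * δ) := fun y hy i hi =>
    lt_of_le_of_lt (hy i hi) (by linarith)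
  have hnear : ∀ x ∈ zle δ, ∀ y : Eu 14, (∀ i, |y i - x i| ≤ h) → y ∈ zle (2 * δ) := by
    intro x hx y hy i hi
    have h1 := abs_le.1 (hy i)
    have h2 := abs_le.1 (hx i hi)
    rw [abs_le]
    constructor <;> linarith
  have hxx : ∀ x ∈ zle δ, F' x = F x := fun x hx => hF'eq x fun i hi => (hx i hi).trans (by linarith)
  have hFy : ∀ x ∈ zle δ, ∀ y : Eu 14, (∀ i, |y i - x i| ≤ h) → F' y = F y :=
    fun x hx y hy => hF'eq y (hnear x hx y hy)
  refine ⟨F', h, ε + Bφ, hh, hh16, ?_, ?_, ?_, ?_, ?_, ?_, ?_, ?_, ?_, ?_⟩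
  · intro x hx
    rw [← hxx x hx]
    exact kh_near (by norm_num) hh hF'd hF'C he1 x
  · intro x hx
    constructor
    · refine kh_coord_of hh fun y hy => ?_
      rw [hFy x hx y hy]
      exact D.keep_s y (hsub y (hnear x hx y hy))
    · refine kh_coord_of hh fun y hy => ?_
      rw [hFy x hx y hy]
      exact D.keep_v y (hsub y (hnear x hx y hy))
  · intro x hx hor
    refine kh_id hh fun y hy => ?_
    rw [hFy x hx y hy]
    have hy3 := hsub y (hnear x hx y hy)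
    rcases hor with h0 | ⟨i, hi, h0⟩
    · refine D.id_low y hy3 ?_
      have := abs_le.1 (hy 0)
      linarith
    · refine D.id_out y hy3 ⟨i, hi, ?_⟩
      have h1 := hy i
      have h2 := abs_sub_abs_le_abs_sub (x i) (y i)
      rw [abs_sub_comm] at h2
      linarith
  · intro x hx hne i hi
    have h1 : ∃ y₀ : Eu 14, (∀ j, |y₀ j - x j| ≤ h) ∧ F' y₀ ≠ y₀ := by
      by_contra hcon
      push Not at hcon
      exact hne (kh_id hh hcon)
    obtain ⟨y₀, hy₀, hy₀ne⟩ := h1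
    rw [hFy x hx y₀ hy₀] at hy₀ne
    have h2 : |y₀ i| < ρ := by
      by_contra hcon
      push Not at hcon
      exact hy₀ne (D.id_out y₀ (hsub y₀ (hnear x hx y₀ hy₀)) ⟨i, hi, hcon⟩)
    have h3 : |x i| ≤ ρ + h := by
      have h4 := hy₀ i
      have h5 := abs_sub_abs_le_abs_sub (x i) (y₀ i)
      rw [abs_sub_comm (x i)] at h5
      linarith
    have h4 : ‖kh h (fun y => F' y i) x - 0‖ ≤ ρ + 2 * h := by
      refine kh_dist_le hh fun y hy => ?_
      rw [sub_zero, Real.norm_eq_abs, hFy x hx y hy]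
      by_cases hyy : F y = y
      · rw [hyy]
        have h5 := hy i
        have h6 := abs_sub_abs_le_abs_sub (y i) (x i)
        linarith
      · have := D.stay y (hsub y (hnear x hx y hy)) hyy i hi
        linarith
    rw [kh_apply]
    rwa [sub_zero, Real.norm_eq_abs] at h4
  · intro x hx h0
    have hhigh : ∀ y : Eu 14, (∀ i, |y i - x i| ≤ h) → F' y = setblk y (φ (blk y)) := by
      intro y hy
      rw [hFy x hx y hy]
      refine D.high y (hsub y (hnear x hx y hy)) ?_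
      have := abs_le.1 (hy 0)
      linarith
    ext i
    rw [kh_apply]
    by_cases hi : isP i
    · have h1 : ∀ (z : Eu 14) (q : Eu 6), (setblk z q) i =
          q ⟨i.val - 1, by unfold isP at hi; omega⟩ := by
        intro z q
        unfold setblk
        simp only [hi, dif_pos]
      rw [h1, kh_apply]
      have h2 := kh_pr (W := ℝ) h ιP (fun q : Eu 6 => (φ q) ⟨i.val - 1, by
        unfold isP at hi; omega⟩) x
      change _ = kh h (fun y : Eu 6 => (φ y) ⟨i.val - 1, _⟩) (pr ιP x)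
      rw [← h2]
      refine kh_congr hh fun y hy => ?_
      rw [hhigh y hy, h1]
      rfl
    · have h1 : ∀ (z : Eu 14) (q : Eu 6), (setblk z q) i = z i := by
        intro z q
        unfold setblk
        simp only [hi, dif_neg, not_false_iff]
      rw [h1]
      have h2 : kh h (fun y => F' y i) x = kh h (fun y : Eu 14 => y i) x := by
        refine kh_congr hh fun y hy => ?_
        rw [hhigh y hy, h1]
      rw [h2, kh_coord hh]
  · refine kh_bilip hh hM hF'd hF'lip hc (C := C) (fun x hx y hy => ?_) he3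
    rw [hxx x hx, hxx y hy]
    exact hcC x hx y hy
  · intro q
    exact kh_near (by norm_num) hh hφd hφC he2 q
  · rintro q ⟨i, hi⟩
    refine kh_id hh fun y hy => hφid y ⟨i, ?_⟩
    have h1 := hy i
    have h2 := abs_sub_abs_le_abs_sub (q i) (y i)
    rw [abs_sub_comm] at h2
    linarith
  · intro q
    have h1 := kh_near (by norm_num) hh hφd hφC he2 q
    have h2 := hφB q
    have h3 : kh h φ q - q = (kh h φ q - φ q) + (φ q - q) := by abel
    rw [h3]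
    exact (norm_add_le _ _).trans (by linarith)
  · exact kh_bilip hh hMφ hφd hφlip hc' (C := C') (fun x hx y hy => hcC' x hx y hy) he4

end EXO
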