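import Pool.Agent.EXO.TBoxDefs

/-!
# EXO, part T, module TFib: lower Lipschitz bounds can be checked on the slices `s = const`

PROOF.  Let `x, y ∈ zle δ`, `y'` := `y` with the coordinate `0` replaced by `x 0` (`y' ∈ zle δ`).  `‖y - y'‖ = |x 0 - y 0| ≤ ‖f x - f y‖` since
`f` preserves the coordinate `0` and `|(f x - f y) 0| ≤ ‖f x - f y‖`.  So
`‖x - y‖ ≤ ‖x - y'‖ + ‖y' - y‖ ≤ c⁻¹ ‖f x - f y'‖ + ‖y' - y‖ ≤ c⁻¹ (‖f x - f y‖ + C ‖y - y'‖) + ‖y - y'‖ ≤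
(c⁻¹ (1 + C) + 1) ‖f x - f y‖`, `C ≥ 0` WLOG.
-/

namespace EXO

open Set

theorem bilip_of_slices {δ c C : ℝ} {f : Eu 14 → Eu 14} (hc : 0 < c)
    (hs : ∀ x ∈ zle δ, f x 0 = x 0)
    (h1 : ∀ x ∈ zle δ, ∀ y ∈ zle δ, x 0 = y 0 → c * ‖x - y‖ ≤ ‖f x - f y‖)
    (h2 : ∀ x ∈ zle δ, ∀ y ∈ zle δ, ‖f x - f y‖ ≤ C * ‖x - y‖) : BiLip f (zle δ) := by
  set C1 : ℝ := max C 0 with hC1
  have hC0 : 0 ≤ C1 := le_max_right _ _
  refine ⟨c / (1 + C1 + c), C, by positivity, fun x hx y hy => ⟨?_, h2 x hx y hy⟩⟩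
  set y' : Eu 14 := y + EuclideanSpace.single 0 (x 0 - y 0) with hy'
  have hy'z : y' ∈ zle δ := by
    intro i hi
    have hne : i ≠ 0 := by
      rintro rfl
      unfold isZ at hi
      simp at hi
    have e : y' i = y i := by simp [hy', hne]
    rw [e]
    exact hy i hi
  have hy'0 : x 0 = y' 0 := by simp [hy']
  have hd : ‖y - y'‖ = |x 0 - y 0| := by
    have e : y - y' = -EuclideanSpace.single 0 (x 0 - y 0) := by rw [hy']; abel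
    rw [e, norm_neg]
    simp
  have h0 : |x 0 - y 0| ≤ ‖f x - f y‖ := by
    have h3 : ‖(f x - f y) 0‖ ≤ ‖f x - f y‖ := PiLp.norm_apply_le (f x - f y) 0
    have e : (f x - f y) 0 = x 0 - y 0 := by
      rw [PiLp.sub_apply, hs x hx, hs y hy]
    rw [e, Real.norm_eq_abs] at h3
    exact h3
  have h3 := h1 x hx y' hy'z hy'0
  have h4 : ‖f x - f y'‖ ≤ ‖f x - f y‖ + ‖f y - f y'‖ := norm_sub_le_norm_sub_add_norm_sub _ _ _
  have h5 : ‖f y - f y'‖ ≤ C1 * ‖y - y'‖ :=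
    (h2 y hy y' hy'z).trans (mul_le_mul_of_nonneg_right (le_max_left _ _) (norm_nonneg _))
  have h6 : ‖x - y‖ ≤ ‖x - y'‖ + ‖y' - y‖ := norm_sub_le_norm_sub_add_norm_sub _ _ _
  rw [norm_sub_rev y' y] at h6
  rw [div_mul_eq_mul_div, div_le_iff₀ (by positivity)]
  have h7 : ‖y - y'‖ ≤ ‖f x - f y‖ := by rw [hd]; exact h0
  nlinarith [mul_le_mul_of_nonneg_left h6 hc.le, mul_le_mul_of_nonneg_left h7 hC0,
    mul_le_mul_of_nonneg_left h7 hc.le]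

end EXO
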