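import Pool.Agent.EXO.TExt
import Pool.Agent.EXO.TBil

/-!
# EXO, part T, module TGlob: the smooth map is bilipschitz on `|z_i| ≤ δ`

PROOF.  Take `F', M, B, C` from `exists_ext` (`F' = F` on `zle (2δ)`).  Upper bound: `‖F' x - F' y‖ ≤ C ‖x - y‖` by the mean value
inequality.  Lower bound for `x, y ∈ zle (3δ/2)`: WLOG `B ≥ 1`.
(a) `‖x - y‖ ≥ 4B`: `‖F x - F y‖ ≥ ‖x - y‖ - 2B ≥ ‖x - y‖/2`.
(b) `‖x - y‖ < 4B`.  Translate in `v` (`trans_v`): we may assume `x 13 = 0`, `|y 13| ≤ 4B`.  If `F x = x` and `F y = y` nothing to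
prove (constant `1`).  Otherwise, say `F x ≠ x`: then `x 0 > 0` and `|p_i(x)| < ρ`.
  (b1) if `x 0 ≤ 3 + 4B`: `x, y` lie in the compact set `K = {x ∈ zle (3δ/2) : |x 0| ≤ 3 + 8B, |p_i| ≤ ρ + 4B, |x 13| ≤ 4B}`, on which
  `bilip_of_immersion` gives `c₁ > 0` (`F` is `C^1` at each point of `zle (2δ) ⊆ zlt (3δ)` open, injective and immersive there).
  (b2) if `x 0 > 3 + 4B`: then `y 0 > 3`: both are in the product region `s ≥ 7/4`; translating both by the same amount in `s`
  (`high`: `F x = setblk x (φ (blk x))`, which commutes with translations in `s` within `s ≥ 7/4`) reduces to (b1).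
For `φ`: apply the bound to the points `x = (2, p, 0, 0)`, `y = (2, p', 0, 0)`: `F x = (2, φ p, 0, 0)` by `high`,
`‖F x - F y‖ = ‖φ p - φ p'‖`.
-/

namespace EXO

open Set

private theorem TGlob_isP_ιP (j : Fin 6) : isP (ιP j) := by
  unfold isP ιP
  constructor
  · show 1 ≤ j.val + 1
    omega
  · show j.val + 1 ≤ 6
    omega

private theorem TGlob_exists {i : Fin 14} (hi : isP i) : ∃ j : Fin 6, i = ιP j := by
  unfold isP at hi
  refine ⟨⟨i.val - 1, by omega⟩, ?_⟩
  apply Fin.ext
  show i.val = i.val - 1 + 1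
  omega

private theorem TGlob_setblk_ιP (x : Eu 14) (q : Eu 6) (j : Fin 6) : setblk x q (ιP j) = q j := by
  have h : setblk x q (ιP j) = q ⟨(ιP j).val - 1, by
      have := (TGlob_isP_ιP j).2
      have := (TGlob_isP_ιP j).1
      omega⟩ := dif_pos (TGlob_isP_ιP j)
  exact h.trans (congrArg (fun k => q k) (Fin.ext (by show j.val + 1 - 1 = j.val; omega)))

private theorem TGlob_setblk_not (x : Eu 14) (q : Eu 6) {i : Fin 14} (hi : ¬ isP i) :
    setblk x q i = x i := by
  have h : setblk x q i = x i := dif_neg hi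
  exact h

private theorem TGlob_blk (x : Eu 14) (j : Fin 6) : blk x j = x (ιP j) := rfl

private theorem TGlob_not0 : ¬ isP 0 := by unfold isP; simp

private theorem TGlob_not13 : ¬ isP 13 := by
  unfold isP
  intro h
  have := h.2
  have e : (13 : Fin 14).val = 13 := rfl
  omega

private theorem TGlob_setblk_blk (x : Eu 14) : setblk x (blk x) = x := by
  ext i
  by_cases hi : isP i
  · obtain ⟨j, rfl⟩ := TGlob_exists hi
    rw [TGlob_setblk_ιP, TGlob_blk]
  · rw [TGlob_setblk_not _ _ hi]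

private theorem TGlob_norm_setblk (x : Eu 14) (a b : Eu 6) :
    ‖setblk x a - setblk x b‖ = ‖a - b‖ := by
  rw [EuclideanSpace.norm_eq, EuclideanSpace.norm_eq]
  congr 1
  have h : ∀ i : Fin 14, ‖(setblk x a - setblk x b) i‖ ^ 2
      = if h : isP i then ‖(a - b) ⟨i.val - 1, by unfold isP at h; omega⟩‖ ^ 2 else 0 := by
    intro i
    by_cases hi : isP i
    · rw [dif_pos hi]
      obtain ⟨j, rfl⟩ := TGlob_exists hi
      have e1 : (setblk x a - setblk x b) (ιP j) = (a - b) j := by
        show setblk x a (ιP j) - setblk x b (ιP j) = a j - b j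
        rw [TGlob_setblk_ιP, TGlob_setblk_ιP]
      rw [e1]
      congr 2
    · rw [dif_neg hi]
      have e1 : (setblk x a - setblk x b) i = 0 := by
        show setblk x a i - setblk x b i = 0
        rw [TGlob_setblk_not _ _ hi, TGlob_setblk_not _ _ hi, sub_self]
      rw [e1]
      simp
  rw [Finset.sum_congr rfl (fun i _ => h i)]
  symm
  refine Finset.sum_bij_ne_zero (fun j _ _ => ιP j) (fun _ _ _ => Finset.mem_univ _) ?_ ?_ ?_
  · intro j₁ _ _ j₂ _ _ hj
    have := congrArg Fin.val hj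
    apply Fin.ext
    have e1 : (ιP j₁).val = j₁.val + 1 := rfl
    have e2 : (ιP j₂).val = j₂.val + 1 := rfl
    omega
  · intro i _ hne
    by_cases hi : isP i
    · obtain ⟨j, rfl⟩ := TGlob_exists hi
      refine ⟨j, Finset.mem_univ _, ?_, rfl⟩
      rw [dif_pos hi] at hne
      exact hne
    · rw [dif_neg hi] at hne
      exact absurd rfl hne
  · intro j _ _
    rw [dif_pos (TGlob_isP_ιP j)]
    congr 2


private theorem TGlob_coord (x : Eu 14) (i : Fin 14) : |x i| ≤ ‖x‖ := by
  rw [← Real.norm_eq_abs]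
  exact PiLp.norm_apply_le x i

private theorem TGlob_notZ0 : ¬ isZ 0 := by unfold isZ; simp

private theorem TGlob_notZ13 : ¬ isZ 13 := by
  unfold isZ
  intro h
  have := h.2
  have e : (13 : Fin 14).val = 13 := rfl
  omega

private theorem TGlob_add_single_ne (x : Eu 14) (k i : Fin 14) (a : ℝ) (h : i ≠ k) :
    (x + EuclideanSpace.single k a) i = x i := by
  rw [PiLp.add_apply, PiLp.single_apply, if_neg h, add_zero]

private theorem TGlob_add_single_self (x : Eu 14) (k : Fin 14) (a : ℝ) :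
    (x + EuclideanSpace.single k a) k = x k + a := by
  rw [PiLp.add_apply, PiLp.single_apply, if_pos rfl]

private theorem TGlob_zle_add {δ : ℝ} {x : Eu 14} (hx : x ∈ zle δ) {k : Fin 14} (hk : ¬ isZ k)
    (a : ℝ) : x + EuclideanSpace.single k a ∈ zle δ := by
  intro i hi
  have hne : i ≠ k := by
    rintro rfl
    exact hk hi
  rw [TGlob_add_single_ne x k i a hne]
  exact hx i hi

private theorem TGlob_high_add {δ ρ : ℝ} {F : Eu 14 → Eu 14} {φ : Eu 6 → Eu 6}
    (D : SmoothBox δ ρ F φ) {x : Eu 14} (hx : x ∈ zlt (3 * δ)) {a : ℝ}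
    (hxa : x + EuclideanSpace.single 0 a ∈ zlt (3 * δ))
    (h1 : 7 / 4 ≤ x 0) (h2 : 7 / 4 ≤ x 0 + a) :
    F (x + EuclideanSpace.single 0 a) = F x + EuclideanSpace.single 0 a := by
  have h3 : 7 / 4 ≤ (x + EuclideanSpace.single 0 a : Eu 14) 0 := by
    rw [TGlob_add_single_self]
    exact h2
  rw [D.high _ hxa h3, D.high _ hx h1]
  have hblk : blk (x + EuclideanSpace.single 0 a) = blk x := by
    ext j
    rw [TGlob_blk, TGlob_blk]
    refine TGlob_add_single_ne _ _ _ _ ?_
    intro h
    have := congrArg Fin.val h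
    have e1 : (ιP j).val = j.val + 1 := rfl
    have e2 : (0 : Fin 14).val = 0 := rfl
    omega
  rw [hblk]
  ext i
  by_cases hi : isP i
  · obtain ⟨j, rfl⟩ := TGlob_exists hi
    have hne : ιP j ≠ 0 := by
      intro h
      rw [h] at hi
      exact TGlob_not0 hi
    rw [TGlob_add_single_ne _ _ _ _ hne, TGlob_setblk_ιP, TGlob_setblk_ιP]
  · rw [TGlob_setblk_not _ _ hi, PiLp.add_apply, PiLp.add_apply, TGlob_setblk_not _ _ hi]

theorem smooth_bilip {δ ρ : ℝ} {F : Eu 14 → Eu 14} {φ : Eu 6 → Eu 6} (D : SmoothBox δ ρ F φ) :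
    BiLip F (zle δ) ∧ BiLip φ univ := by
  obtain ⟨F', M, B₀, C, hM, hF'c, hF'eq, -, hB₀, hC⟩ := exists_ext D
  have hδ := D.δ_pos
  have hsub2 : ∀ x ∈ zle δ, x ∈ zle (2 * δ) := fun x hx i hi => (hx i hi).trans (by linarith)
  have hsub3 : ∀ x ∈ zle δ, x ∈ zlt (3 * δ) := fun x hx i hi =>
    lt_of_le_of_lt (hx i hi) (by linarith)
  have hsub23 : zle (2 * δ) ⊆ zlt (3 * δ) := fun x hx i hi =>
    lt_of_le_of_lt (hx i hi) (by linarith)
  have hopen : IsOpen (zlt (3 * δ)) := by
    have e : zlt (3 * δ) = ⋂ i : Fin 14, {x : Eu 14 | isZ i → |x i| < 3 * δ} := by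
      ext x
      simp [zlt]
    rw [e]
    refine isOpen_iInter_of_finite fun i => ?_
    by_cases hi : isZ i
    · have e2 : {x : Eu 14 | isZ i → |x i| < 3 * δ} = {x : Eu 14 | |x i| < 3 * δ} := by
        ext x; simp [hi]
      rw [e2]
      exact isOpen_lt (by fun_prop) continuous_const
    · have e2 : {x : Eu 14 | isZ i → |x i| < 3 * δ} = univ := by
        ext x; simp [hi]
      rw [e2]
      exact isOpen_univ
  -- the upper bound
  have hup : ∀ x ∈ zle δ, ∀ y ∈ zle δ, ‖F x - F y‖ ≤ C * ‖x - y‖ := by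
    intro x hx y hy
    rw [← hF'eq x (hsub2 x hx), ← hF'eq y (hsub2 y hy)]
    have hdiff : ∀ z ∈ (univ : Set (Eu 14)), DifferentiableAt ℝ F' z := fun z _ =>
      (hF'c.differentiable (by simp)).differentiableAt
    exact convex_univ.norm_image_sub_le_of_norm_fderiv_le hdiff (fun z _ => hC z) (mem_univ y)
      (mem_univ x)
  -- the lower bound
  set B : ℝ := max B₀ 1 with hBdef
  have hB1 : 1 ≤ B := le_max_right _ _
  have hBd : ∀ x ∈ zle δ, ‖F x - x‖ ≤ B := by
    intro x hx
    rw [← hF'eq x (hsub2 x hx)]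
    exact (hB₀ x).trans (le_max_left _ _)
  set K : Set (Eu 14) := {x | x ∈ zle δ ∧ |x 0| ≤ 3 + 8 * B ∧ (∀ i, isP i → |x i| ≤ ρ + 4 * B) ∧
    |x 13| ≤ 4 * B} with hK
  have hKc : IsCompact K := by
    rw [Metric.isCompact_iff_isClosed_bounded]
    constructor
    · have e : K = (⋂ i : Fin 14, {x : Eu 14 | isZ i → |x i| ≤ δ}) ∩ ({x : Eu 14 | |x 0| ≤ 3 + 8 * B} ∩
          ((⋂ i : Fin 14, {x : Eu 14 | isP i → |x i| ≤ ρ + 4 * B}) ∩ {x : Eu 14 | |x 13| ≤ 4 * B})) := by
        ext x
        simp [hK, zle]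
      rw [e]
      have hcl : ∀ (i : Fin 14) (a : ℝ), IsClosed {x : Eu 14 | |x i| ≤ a} := fun i a =>
        isClosed_le (by fun_prop) continuous_const
      have hcl2 : ∀ (p : Fin 14 → Prop) (i : Fin 14) (a : ℝ), IsClosed {x : Eu 14 | p i → |x i| ≤ a} := by
        intro p i a
        by_cases hi : p i
        · have e2 : {x : Eu 14 | p i → |x i| ≤ a} = {x : Eu 14 | |x i| ≤ a} := by
            ext x; simp [hi]
          rw [e2]
          exact hcl i a
        · have e2 : {x : Eu 14 | p i → |x i| ≤ a} = univ := by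
            ext x; simp [hi]
          rw [e2]
          exact isClosed_univ
      exact (isClosed_iInter fun i => hcl2 isZ i δ).inter ((hcl 0 _).inter
        ((isClosed_iInter fun i => hcl2 isP i _).inter (hcl 13 _)))
    · rw [isBounded_iff_forall_norm_le]
      refine ⟨Real.sqrt 14 * (δ + |ρ| + 3 + 8 * B), fun x hx => ?_⟩
      obtain ⟨hxz, hx0, hxp, hx13⟩ := hx
      have hR0 : 0 ≤ δ + |ρ| + 3 + 8 * B := by
        have := abs_nonneg ρ
        linarith
      have hall : ∀ i : Fin 14, |x i| ≤ δ + |ρ| + 3 + 8 * B := by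
        intro i
        have h0 := abs_nonneg ρ
        have h00 := le_abs_self ρ
        by_cases hz : isZ i
        · have := hxz i hz
          linarith
        by_cases hp : isP i
        · have := hxp i hp
          linarith
        by_cases hi0 : i = 0
        · subst hi0
          linarith
        · have hi13 : i = 13 := by
            unfold isZ at hz
            unfold isP at hp
            have h1 : i.val ≠ 0 := fun h => hi0 (Fin.ext h)
            have h2 := i.isLt
            have e : (13 : Fin 14).val = 13 := rfl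
            refine Fin.ext ?_
            rw [e]
            omega
          subst hi13
          linarith
      rw [EuclideanSpace.norm_eq]
      have h1 : ∑ i, ‖x i‖ ^ 2 ≤ 14 * (δ + |ρ| + 3 + 8 * B) ^ 2 := by
        calc ∑ i, ‖x i‖ ^ 2 ≤ ∑ _i : Fin 14, (δ + |ρ| + 3 + 8 * B) ^ 2 := by
              refine Finset.sum_le_sum fun i _ => ?_
              rw [Real.norm_eq_abs]
              exact pow_le_pow_left₀ (abs_nonneg _) (hall i) 2
          _ = 14 * (δ + |ρ| + 3 + 8 * B) ^ 2 := by simp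
      calc Real.sqrt (∑ i, ‖x i‖ ^ 2) ≤ Real.sqrt (14 * (δ + |ρ| + 3 + 8 * B) ^ 2) :=
            Real.sqrt_le_sqrt h1
        _ = Real.sqrt 14 * (δ + |ρ| + 3 + 8 * B) := by
          rw [Real.sqrt_mul (by norm_num), Real.sqrt_sq hR0]
  have hKz : ∀ x ∈ K, x ∈ zle δ := fun x hx => hx.1
  obtain ⟨c₁, hc₁, hc₁b⟩ := bilip_of_immersion (F := F) hKc
    (fun x hx => ((D.smooth x (hsub3 x (hKz x hx))).contDiffAt
      (hopen.mem_nhds (hsub3 x (hKz x hx)))).of_le (by simp))
    (D.inj.mono fun x hx => hsub2 x (hKz x hx))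
    (fun x hx => D.imm x (hsub2 x (hKz x hx)))
  -- (b1)
  have hb1 : ∀ x ∈ zle δ, ∀ y ∈ zle δ, ‖x - y‖ < 4 * B → F x ≠ x → x 0 ≤ 3 + 4 * B →
      c₁ * ‖x - y‖ ≤ ‖F x - F y‖ := by
    intro x hx y hy hxy hmov hx0
    have hx3 := hsub3 x hx
    have hy3 := hsub3 y hy
    have hpos : 0 < x 0 := by
      by_contra hcon
      exact hmov (D.id_low x hx3 (not_lt.1 hcon))
    have hp : ∀ i, isP i → |x i| < ρ := by
      intro i hi
      by_contra hcon
      exact hmov (D.id_out x hx3 ⟨i, hi, not_lt.1 hcon⟩)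
    have hco : ∀ i, |x i - y i| ≤ ‖x - y‖ := fun i => TGlob_coord (x - y) i
    have hyb : ∀ i, |y i| ≤ |x i| + 4 * B := by
      intro i
      have h1 : |y i| ≤ |x i| + |x i - y i| := by
        have h2 := abs_sub_abs_le_abs_sub (y i) (x i)
        rw [abs_sub_comm (y i)] at h2
        linarith
      have := hco i
      linarith
    set b := -(x 13) with hb
    have hxK : x + EuclideanSpace.single 13 b ∈ K := by
      refine ⟨TGlob_zle_add hx TGlob_notZ13 b, ?_, ?_, ?_⟩
      · rw [TGlob_add_single_ne _ _ _ _ (by decide)]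
        rw [abs_of_pos hpos]
        linarith
      · intro i hi
        rw [TGlob_add_single_ne _ _ _ _ (fun h => TGlob_not13 (by rw [← h]; exact hi))]
        have := hp i hi
        linarith
      · rw [TGlob_add_single_self, hb, add_neg_cancel, abs_zero]
        linarith
    have hyK : y + EuclideanSpace.single 13 b ∈ K := by
      refine ⟨TGlob_zle_add hy TGlob_notZ13 b, ?_, ?_, ?_⟩
      · rw [TGlob_add_single_ne _ _ _ _ (by decide)]
        have h1 := hyb 0
        rw [abs_of_pos hpos] at h1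
        linarith
      · intro i hi
        rw [TGlob_add_single_ne _ _ _ _ (fun h => TGlob_not13 (by rw [← h]; exact hi))]
        have h1 := hp i hi
        have h2 := hyb i
        linarith
      · rw [TGlob_add_single_self, hb]
        have h1 := hco 13
        rw [abs_sub_comm] at h1
        have e : y 13 + -(x 13) = y 13 - x 13 := by ring
        rw [e]
        linarith
    have h := hc₁b _ hxK _ hyK
    rw [D.trans_v x hx3 b, D.trans_v y hy3 b, add_sub_add_right_eq_sub,
      add_sub_add_right_eq_sub] at h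
    exact h
  -- (b)
  have hb2 : ∀ x ∈ zle δ, ∀ y ∈ zle δ, ‖x - y‖ < 4 * B → F x ≠ x →
      c₁ * ‖x - y‖ ≤ ‖F x - F y‖ := by
    intro x hx y hy hxy hmov
    rcases le_or_gt (x 0) (3 + 4 * B) with hx0 | hx0
    · exact hb1 x hx y hy hxy hmov hx0
    · set a := -(x 0 - (3 + 4 * B)) with ha
      have hco : |x 0 - y 0| ≤ ‖x - y‖ := TGlob_coord (x - y) 0
      have hy0 : 3 < y 0 := by
        have := (abs_le.1 hco).2
        linarith
      have hxa : x + EuclideanSpace.single 0 a ∈ zle δ := TGlob_zle_add hx TGlob_notZ0 a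
      have hya : y + EuclideanSpace.single 0 a ∈ zle δ := TGlob_zle_add hy TGlob_notZ0 a
      have ex : F (x + EuclideanSpace.single 0 a) = F x + EuclideanSpace.single 0 a :=
        TGlob_high_add D (hsub3 x hx) (hsub3 _ hxa) (by linarith) (by rw [ha]; linarith)
      have ey : F (y + EuclideanSpace.single 0 a) = F y + EuclideanSpace.single 0 a := by
        refine TGlob_high_add D (hsub3 y hy) (hsub3 _ hya) (by linarith) ?_
        have := (abs_le.1 hco).2
        rw [ha]
        linarith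
      have hmov' : F (x + EuclideanSpace.single 0 a) ≠ x + EuclideanSpace.single 0 a := by
        rw [ex]
        intro h
        exact hmov (add_right_cancel h)
      have hd : (x + EuclideanSpace.single 0 a) - (y + EuclideanSpace.single 0 a) = x - y :=
        add_sub_add_right_eq_sub _ _ _
      have h := hb1 _ hxa _ hya (by rw [hd]; exact hxy) hmov'
        (by rw [TGlob_add_single_self, ha]; linarith)
      rw [hd, ex, ey, add_sub_add_right_eq_sub] at h
      exact h
  set c : ℝ := min c₁ (1 / 2) with hc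
  have hc0 : 0 < c := lt_min hc₁ (by norm_num)
  have hlow : ∀ x ∈ zle δ, ∀ y ∈ zle δ, c * ‖x - y‖ ≤ ‖F x - F y‖ := by
    intro x hx y hy
    have hn := norm_nonneg (x - y)
    have hcc₁ : c * ‖x - y‖ ≤ c₁ * ‖x - y‖ := mul_le_mul_of_nonneg_right (min_le_left _ _) hn
    have hchalf : c * ‖x - y‖ ≤ 1 / 2 * ‖x - y‖ :=
      mul_le_mul_of_nonneg_right (min_le_right _ _) hn
    rcases lt_or_ge ‖x - y‖ (4 * B) with hlt | hge
    · by_cases hmx : F x = x
      · by_cases hmy : F y = y
        · rw [hmx, hmy]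
          linarith
        · have h := hb2 y hy x hx (by rw [norm_sub_rev]; exact hlt) hmy
          rw [norm_sub_rev y x, norm_sub_rev (F y)] at h
          linarith
      · have h := hb2 x hx y hy hlt hmx
        linarith
    · have h1 := hBd x hx
      have h2 := hBd y hy
      have h3 : ‖x - y‖ ≤ ‖F x - F y‖ + (‖F x - x‖ + ‖F y - y‖) := by
        have e : x - y = (F x - F y) - ((F x - x) - (F y - y)) := by abel
        calc ‖x - y‖ = ‖(F x - F y) - ((F x - x) - (F y - y))‖ := by rw [← e]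
          _ ≤ ‖F x - F y‖ + ‖(F x - x) - (F y - y)‖ := norm_sub_le _ _
          _ ≤ ‖F x - F y‖ + (‖F x - x‖ + ‖F y - y‖) := by
              have := norm_sub_le (F x - x) (F y - y)
              linarith
      linarith
  refine ⟨⟨c, C, hc0, fun x hx y hy => ⟨hlow x hx y hy, hup x hx y hy⟩⟩,
    ⟨c, C, hc0, fun p _ p' _ => ?_⟩⟩
  set w : Eu 14 := EuclideanSpace.single 0 2 with hw
  have hX : ∀ q : Eu 6, setblk w q ∈ zle δ := by
    intro q i hi
    have hnp : ¬ isP i := by
      unfold isZ at hi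
      unfold isP
      omega
    rw [TGlob_setblk_not _ _ hnp, hw, PiLp.single_apply, if_neg (fun h : i = 0 => TGlob_notZ0 (by rw [← h]; exact hi)),
      abs_zero]
    exact hδ.le
  have hFX : ∀ q : Eu 6, F (setblk w q) = setblk w (φ q) := by
    intro q
    have h0 : (7 : ℝ) / 4 ≤ setblk w q 0 := by
      rw [TGlob_setblk_not _ _ TGlob_not0, hw, PiLp.single_apply, if_pos rfl]
      norm_num
    rw [D.high _ (hsub3 _ (hX q)) h0]
    have hb : blk (setblk w q) = q := by
      ext j
      rw [TGlob_blk, TGlob_setblk_ιP]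
    rw [hb]
    ext i
    by_cases hi : isP i
    · obtain ⟨j, rfl⟩ := TGlob_exists hi
      rw [TGlob_setblk_ιP, TGlob_setblk_ιP]
    · rw [TGlob_setblk_not _ _ hi, TGlob_setblk_not _ _ hi, TGlob_setblk_not _ _ hi]
  have h1 := hlow _ (hX p) _ (hX p')
  have h2 := hup _ (hX p) _ (hX p')
  rw [hFX, hFX, TGlob_norm_setblk, TGlob_norm_setblk] at h1 h2
  exact ⟨h1, h2⟩

end EXO
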