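import Pool.Agent.EXO.TDefs

/-!
# EXO, part T, module TKint: the piecewise affine interpolation on the Kuhn triangulation of `hℤⁿ`

`kh h F x = ∫_0^1 F(h ⌈x/h - t⌉) dt` (componentwise ceiling).  This is the affine interpolation of `F` on the Kuhn
simplices of the grid `hℤⁿ` (Lovász extension).  This module: integrability and the elementary rules.

PROOFS.
* `kgrid_abs_le`: `⌈u - t⌉ ∈ [u - t, u - t + 1)` with `u = x_i/h`, so `⌈u - t⌉ - u ∈ [-t, 1 - t)`, times `h`.
* `kh_intervalIntegrable`: `t ↦ kgrid h x t` is measurable (each component is `h * ⌈x_i/h - t⌉`, `Int.measurable_ceil`,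
  `measurable_pi`; `WithLp.measurable_toLp`-type lemma, or `MeasurableEquiv.toLp`), takes finitely many values for
  `t ∈ [0,1]` (in fact `⌈u - t⌉ ∈ {⌈u⌉ - 1, ⌈u⌉}`), so the composition with a continuous `F` is bounded (finite set of values)
  and strongly measurable: `F ∘ measurable` is measurable for the Borel structure; to avoid second countability of `W`:
  the map `t ↦ (i ↦ ⌈x_i/h - t⌉) ∈ ℤⁿ` is measurable with values in a countable discrete space, and any function from it
  is strongly measurable.  (So continuity of `F` is not even needed.)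
* `kh_congr`: the integrands agree by `kgrid_abs_le`.
* `kh_clm`: `ContinuousLinearMap.intervalIntegral_comp_comm`.
* `kh_dist_le`: `kh h F x - c = ∫_0^1 (F(..) - c)`, `intervalIntegral.norm_integral_le_of_norm_le_const`.
* `kh_add`, `kh_sub`: `intervalIntegral.integral_add/sub`.
* `kh_pr`: unfold; `kgrid` is componentwise.
-/

namespace EXO

open MeasureTheory Set

/-- componentwise ceiling on the grid `hℤⁿ` -/
noncomputable def kgrid {n : ℕ} (h : ℝ) (x : Eu n) (t : ℝ) : Eu n :=
  WithLp.toLp 2 (fun i => h * ((⌈x i / h - t⌉ : ℤ) : ℝ))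

/-- Kuhn interpolation (secant map) of `F` on the grid `hℤⁿ`. -/
noncomputable def kh {n : ℕ} {W : Type*} [NormedAddCommGroup W] [NormedSpace ℝ W] (h : ℝ)
    (F : Eu n → W) (x : Eu n) : W := ∫ t in (0 : ℝ)..1, F (kgrid h x t)

/-- coordinate projection -/
def pr {n m : ℕ} (σ : Fin m → Fin n) (x : Eu n) : Eu m := WithLp.toLp 2 (fun j => x (σ j))

variable {n : ℕ} {W : Type*} [NormedAddCommGroup W] [NormedSpace ℝ W]

theorem kgrid_abs_le {h : ℝ} (hh : 0 < h) (x : Eu n) {t : ℝ} (ht0 : 0 ≤ t) (ht1 : t ≤ 1)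
    (i : Fin n) : |kgrid h x t i - x i| ≤ h := by
  have e : kgrid h x t i = h * ((⌈x i / h - t⌉ : ℤ) : ℝ) := rfl
  have h1 : x i / h - t ≤ ((⌈x i / h - t⌉ : ℤ) : ℝ) := Int.le_ceil _
  have h2 : ((⌈x i / h - t⌉ : ℤ) : ℝ) < x i / h - t + 1 := Int.ceil_lt_add_one _
  have h3 : x i = h * (x i / h) := by field_simp
  have h4 : |((⌈x i / h - t⌉ : ℤ) : ℝ) - x i / h| ≤ 1 := by
    rw [abs_le]
    constructor <;> linarith
  have h5 : kgrid h x t i - x i = h * (((⌈x i / h - t⌉ : ℤ) : ℝ) - x i / h) := by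
    rw [e, mul_sub, ← h3]
  rw [h5, abs_mul, abs_of_pos hh]
  nlinarith

theorem kh_intervalIntegrable (h : ℝ) (F : Eu n → W) (x : Eu n) (a b : ℝ) :
    IntervalIntegrable (fun t => F (kgrid h x t)) volume a b := by
  have hg : Measurable (fun t : ℝ => fun i : Fin n => ⌈x i / h - t⌉) := by
    rw [measurable_pi_iff]
    intro i
    exact Int.measurable_ceil.comp (measurable_const.sub measurable_id)
  set G : (Fin n → ℤ) → W := fun a => F (WithLp.toLp 2 (fun i => h * ((a i : ℤ) : ℝ))) with hG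
  have hGm : StronglyMeasurable G := StronglyMeasurable.of_discrete
  have e : (fun t => F (kgrid h x t)) = fun t => G (fun i => ⌈x i / h - t⌉) := rfl
  have hsm : StronglyMeasurable (fun t => F (kgrid h x t)) := by
    rw [e]
    exact hGm.comp_measurable hg
  have hfin : (Set.Icc (fun i : Fin n => ⌈x i / h - max a b⌉)
      (fun i : Fin n => ⌈x i / h - min a b⌉)).Finite := Set.finite_Icc _ _
  obtain ⟨M, hM⟩ := (hfin.image (fun a => ‖G a‖)).bddAbove
  rw [intervalIntegrable_iff]
  refine Measure.integrableOn_of_bounded (M := M) ?_ hsm.aestronglyMeasurable ?_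
  · rw [uIoc, Real.volume_Ioc]
    exact ENNReal.ofReal_ne_top
  · rw [ae_restrict_iff' measurableSet_uIoc]
    refine Filter.Eventually.of_forall fun t ht => ?_
    rw [uIoc] at ht
    refine hM ⟨fun i => ⌈x i / h - t⌉, ⟨fun i => ?_, fun i => ?_⟩, rfl⟩
    · exact Int.ceil_le_ceil (by linarith [ht.2])
    · exact Int.ceil_le_ceil (by linarith [ht.1])

theorem kh_congr {h : ℝ} (hh : 0 < h) {F F' : Eu n → W} {x : Eu n}
    (H : ∀ y : Eu n, (∀ i, |y i - x i| ≤ h) → F y = F' y) : kh h F x = kh h F' x := by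
  unfold kh
  refine intervalIntegral.integral_congr fun t ht => ?_
  rw [uIcc_of_le zero_le_one] at ht
  exact H _ fun i => kgrid_abs_le hh x ht.1 ht.2 i

theorem kh_clm {W' : Type*} [NormedAddCommGroup W'] [NormedSpace ℝ W'] [CompleteSpace W]
    [CompleteSpace W'] (h : ℝ) (F : Eu n → W) (Λ : W →L[ℝ] W') (x : Eu n) :
    kh h (fun y => Λ (F y)) x = Λ (kh h F x) := by
  unfold kh
  exact Λ.intervalIntegral_comp_comm (kh_intervalIntegrable h F x 0 1)

theorem kh_dist_le [CompleteSpace W] {h : ℝ} (hh : 0 < h) {F : Eu n → W} {x : Eu n} {c : W} {ε : ℝ}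
    (H : ∀ y : Eu n, (∀ i, |y i - x i| ≤ h) → ‖F y - c‖ ≤ ε) : ‖kh h F x - c‖ ≤ ε := by
  have e : kh h F x - c = ∫ t in (0 : ℝ)..1, (F (kgrid h x t) - c) := by
    rw [intervalIntegral.integral_sub (kh_intervalIntegrable h F x 0 1)
      (intervalIntegrable_const), intervalIntegral.integral_const]
    simp [kh]
  rw [e]
  have h1 := intervalIntegral.norm_integral_le_of_norm_le_const (a := (0 : ℝ)) (b := 1)
    (f := fun t => F (kgrid h x t) - c) (C := ε) (fun t ht => by
      rw [uIoc_of_le zero_le_one] at ht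
      exact H _ fun i => kgrid_abs_le hh x ht.1.le ht.2 i)
  simpa using h1

theorem kh_add (h : ℝ) (F F' : Eu n → W) (x : Eu n) :
    kh h (fun y => F y + F' y) x = kh h F x + kh h F' x := by
  unfold kh
  exact intervalIntegral.integral_add (kh_intervalIntegrable h F x 0 1)
    (kh_intervalIntegrable h F' x 0 1)

theorem kh_pr {m : ℕ} (h : ℝ) (σ : Fin m → Fin n) (φ : Eu m → W) (x : Eu n) :
    kh h (fun y => φ (pr σ y)) x = kh h φ (pr σ x) := by
  rfl

end EXO
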