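import Pool.Agent.EXO.TDefs

/-!
# EXO, part T, module TMorA: the derivative in `t` of the averages `u * η_t`

`avg η u x t = ∫ t^{-n} η((x-z)/t) u(z) dz`.  Let `u` be continuous on `Ω` with weak derivative `G`, `closedBall x δ ⊆ Ω`, `η` smooth,
supported in the closed unit ball (`n ≥ 0` arbitrary).

STATEMENT: for `0 < t < δ`, `d/dt avg η u x t = - ∫ t^{-n} η((x-z)/t) G(z)((x-z)/t) dz`, and the derivative is
continuous in `t` is not needed.

PROOF.  All integrands are supported in `closedBall x t ⊆ closedBall x δ ⊆ Ω`, a compact set on which `u` and `G` are integrable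
(integrals over `Ω` and over the whole space agree).
(1) Differentiation under the integral (`hasDerivAt_integral_of_dominated_loc_of_deriv_le`, on `t ∈ (t/2, (t+δ)/2)`): the derivative of
`t ↦ t^{-n} η((x-z)/t)` is `k(z) := -n t^{-n-1} η(y) - t^{-n-1} Dη(y) y`, `y = (x-z)/t`, bounded by a constant on the
range of `t` (continuity + compact support) times the indicator of `closedBall x δ'`, `δ' = (t+δ)/2 < δ`; so
`avg'(t) = ∫ k(z) u(z) dz`.
(2) For each `i` let `ψ_i(z) = t^{-n} η((x-z)/t) (x-z)_i/t`, smooth, `tsupport ψ_i ⊆ closedBall x t ⊆ Ω`, compact.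
`Dψ_i(z) e_i = -t^{-n-1} η(y) - t^{-n-1} y_i Dη(y) e_i`, hence `∑_i Dψ_i(z) e_i = k(z)`.
(3) The weak derivative formula for `φ = ψ_i`, `w = e_i`, summed over `i`:
`∫ k u = -∑_i ∫ ψ_i(z) G(z) e_i dz = -∫ t^{-n} η(y) G(z)(∑_i y_i e_i) dz`.
-/

namespace EXO

open MeasureTheory Set

/-- `∫ t^{-n} η((x-z)/t) u(z) dz` -/
noncomputable def avg {n : ℕ} (η : Eu n → ℝ) (u : Eu n → Eu n) (x : Eu n) (t : ℝ) : Eu n :=
  ∫ z, (t ^ (-(n : ℤ)) * η (t⁻¹ • (x - z))) • u z

/-- the kernel `-n t^{-n-1} η(y) - t^{-n-1} Dη(y) y`, in the form produced by the product rule -/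
private noncomputable def TMorA_k {n : ℕ} (η : Eu n → ℝ) (x : Eu n) (s : ℝ) (z : Eu n) : ℝ :=
  (((-(n : ℤ) : ℤ) : ℝ) * s ^ (-(n : ℤ) - 1)) * η (s⁻¹ • (x - z)) +
    s ^ (-(n : ℤ)) * fderiv ℝ η (s⁻¹ • (x - z)) ((-(s ^ 2)⁻¹) • (x - z))

private lemma TMorA_deriv {n : ℕ} {η : Eu n → ℝ} (hη : ContDiff ℝ (⊤ : ℕ∞) η) (x z : Eu n) {s : ℝ}
    (hs : 0 < s) :
    HasDerivAt (fun s : ℝ => s ^ (-(n : ℤ)) * η (s⁻¹ • (x - z))) (TMorA_k η x s z) s := by
  have h1 : HasDerivAt (fun s : ℝ => s ^ (-(n : ℤ))) (((-(n : ℤ) : ℤ) : ℝ) * s ^ (-(n : ℤ) - 1)) s :=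
    hasDerivAt_zpow _ _ (Or.inl hs.ne')
  have h2 : HasDerivAt (fun s : ℝ => s⁻¹ • (x - z)) ((-(s ^ 2)⁻¹) • (x - z)) s :=
    (hasDerivAt_inv hs.ne').smul_const _
  have h3 : HasFDerivAt η (fderiv ℝ η (s⁻¹ • (x - z))) (s⁻¹ • (x - z)) :=
    (hη.differentiable (by simp)).differentiableAt.hasFDerivAt
  exact h1.mul (h3.comp_hasDerivAt s h2)

private lemma TMorA_zero {n : ℕ} {η : Eu n → ℝ}
    (hη1 : Function.support η ⊆ Metric.closedBall 0 1) {y : Eu n} (hy : 1 < ‖y‖) : η y = 0 := by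
  by_contra h
  have := hη1 h
  rw [mem_closedBall_zero_iff] at this
  linarith

private lemma TMorA_dzero {n : ℕ} {η : Eu n → ℝ}
    (hη1 : Function.support η ⊆ Metric.closedBall 0 1) {y : Eu n} (hy : 1 < ‖y‖) :
    fderiv ℝ η y = 0 := by
  have : η =ᶠ[nhds y] fun _ => 0 := by
    have : ∀ᶠ w in nhds y, 1 < ‖w‖ := continuous_norm.continuousAt.eventually (lt_mem_nhds hy)
    filter_upwards [this] with w hw using TMorA_zero hη1 hw
  rw [this.fderiv_eq]
  simp

private lemma TMorA_norm {n : ℕ} {x z : Eu n} {s r : ℝ} (hs : 0 < s) (hsr : s ≤ r)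
    (hz : z ∉ Metric.closedBall x r) : 1 < ‖s⁻¹ • (x - z)‖ := by
  rw [Metric.mem_closedBall, dist_comm, dist_eq_norm, not_le] at hz
  rw [norm_smul, norm_inv, Real.norm_of_nonneg hs.le, inv_mul_eq_div, one_lt_div hs]
  linarith

private lemma TMorA_kzero {n : ℕ} {η : Eu n → ℝ}
    (hη1 : Function.support η ⊆ Metric.closedBall 0 1) {x z : Eu n} {s r : ℝ} (hs : 0 < s)
    (hsr : s ≤ r) (hz : z ∉ Metric.closedBall x r) : TMorA_k η x s z = 0 := by
  have h := TMorA_norm hs hsr hz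
  simp [TMorA_k, TMorA_zero hη1 h, TMorA_dzero hη1 h]

private lemma TMorA_compact {n : ℕ} {η : Eu n → ℝ}
    (hη1 : Function.support η ⊆ Metric.closedBall 0 1) : HasCompactSupport η :=
  HasCompactSupport.intro (isCompact_closedBall (0 : Eu n) 1) (fun y hy => by
    by_contra h
    exact hy (hη1 h))

private lemma TMorA_bound {n : ℕ} {η : Eu n → ℝ} (hη : ContDiff ℝ (⊤ : ℕ∞) η)
    (hη1 : Function.support η ⊆ Metric.closedBall 0 1) (x : Eu n) {a : ℝ} (ha : 0 < a) (r : ℝ) :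
    ∃ C : ℝ, ∀ s : ℝ, a ≤ s → s ≤ r → ∀ z : Eu n, |TMorA_k η x s z| ≤ C := by
  have hc := TMorA_compact hη1
  obtain ⟨M0, hM0⟩ := hη.continuous.bounded_above_of_compact_support hc
  obtain ⟨M1, hM1⟩ := (hη.continuous_fderiv (by simp)).bounded_above_of_compact_support
    (hc.fderiv ℝ)
  have hM0' : 0 ≤ M0 := (norm_nonneg _).trans (hM0 0)
  have hM1' : 0 ≤ M1 := (norm_nonneg _).trans (hM1 0)
  refine ⟨(n : ℝ) * a ^ (-(n : ℤ) - 1) * M0 + a ^ (-(n : ℤ)) * (M1 * a⁻¹), fun s has hsr z => ?_⟩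
  have hs : 0 < s := lt_of_lt_of_le ha has
  have e1 : s ^ (-(n : ℤ) - 1) ≤ a ^ (-(n : ℤ) - 1) := by
    rw [show (-(n : ℤ) - 1) = -((n + 1 : ℕ) : ℤ) by push_cast; ring, zpow_neg, zpow_neg,
      zpow_natCast, zpow_natCast]
    exact inv_anti₀ (pow_pos ha _) (pow_le_pow_left₀ ha.le has _)
  have e2 : s ^ (-(n : ℤ)) ≤ a ^ (-(n : ℤ)) := by
    rw [zpow_neg, zpow_neg, zpow_natCast, zpow_natCast]
    exact inv_anti₀ (pow_pos ha _) (pow_le_pow_left₀ ha.le has _)
  have p1 : 0 ≤ s ^ (-(n : ℤ) - 1) := (zpow_pos hs _).le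
  have p2 : 0 ≤ s ^ (-(n : ℤ)) := (zpow_pos hs _).le
  have k1 : |(((-(n : ℤ) : ℤ) : ℝ) * s ^ (-(n : ℤ) - 1)) * η (s⁻¹ • (x - z))|
      ≤ (n : ℝ) * a ^ (-(n : ℤ) - 1) * M0 := by
    rw [abs_mul, abs_mul]
    have : |((-(n : ℤ) : ℤ) : ℝ)| = n := by simp
    rw [this, abs_of_nonneg p1]
    exact mul_le_mul (mul_le_mul_of_nonneg_left e1 (Nat.cast_nonneg _)) (hM0 _) (abs_nonneg _)
      (by positivity)
  have k2 : |s ^ (-(n : ℤ)) * fderiv ℝ η (s⁻¹ • (x - z)) ((-(s ^ 2)⁻¹) • (x - z))|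
      ≤ a ^ (-(n : ℤ)) * (M1 * a⁻¹) := by
    rw [abs_mul, abs_of_nonneg p2]
    refine mul_le_mul e2 ?_ (abs_nonneg _) (zpow_pos ha _).le
    by_cases hy : 1 < ‖s⁻¹ • (x - z)‖
    · rw [TMorA_dzero hη1 hy]
      simp only [_root_.zero_apply, abs_zero]
      positivity
    · have hv : (-(s ^ 2)⁻¹) • (x - z) = (-s⁻¹) • (s⁻¹ • (x - z)) := by
        rw [smul_smul]; congr 1; field_simp
      rw [hv, ← Real.norm_eq_abs]
      refine (ContinuousLinearMap.le_opNorm _ _).trans ?_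
      refine mul_le_mul (hM1 _) ?_ (norm_nonneg _) hM1'
      rw [norm_smul, norm_neg, norm_inv, Real.norm_of_nonneg hs.le]
      have : s⁻¹ ≤ a⁻¹ := inv_anti₀ ha has
      calc s⁻¹ * ‖s⁻¹ • (x - z)‖ ≤ s⁻¹ * 1 :=
            mul_le_mul_of_nonneg_left (not_lt.mp hy) (inv_nonneg.mpr hs.le)
        _ ≤ a⁻¹ := by rw [mul_one]; exact this
  exact (abs_add_le _ _).trans (add_le_add k1 k2)

private lemma TMorA_meas {n : ℕ} {Ω : Set (Eu n)} {u : Eu n → Eu n} (hu : ContinuousOn u Ω)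
    {x : Eu n} {r : ℝ} (hr : Metric.closedBall x r ⊆ Ω) {g : Eu n → ℝ} (hg : Continuous g)
    (hg0 : ∀ z ∉ Metric.closedBall x r, g z = 0) :
    Integrable (fun z => g z • u z) := by
  have h1 : IntegrableOn (fun z => g z • u z) (Metric.closedBall x r) :=
    (hg.continuousOn.smul (hu.mono hr)).integrableOn_compact (isCompact_closedBall x r)
  refine (integrableOn_iff_integrable_of_support_subset ?_).mp h1
  intro z hz
  by_contra h
  exact hz (by simp [hg0 z h])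

private lemma TMorA_kcont {n : ℕ} {η : Eu n → ℝ} (hη : ContDiff ℝ (⊤ : ℕ∞) η) (x : Eu n) (s : ℝ) :
    Continuous (TMorA_k η x s) := by
  unfold TMorA_k
  have h1 : Continuous fun z : Eu n => s⁻¹ • (x - z) := by fun_prop
  have h2 : Continuous fun z : Eu n => (-(s ^ 2)⁻¹) • (x - z) := by fun_prop
  have h3 : Continuous fun z : Eu n => fderiv ℝ η (s⁻¹ • (x - z)) :=
    (hη.continuous_fderiv (by simp)).comp h1
  exact (continuous_const.mul (hη.continuous.comp h1)).add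
    (continuous_const.mul (h3.clm_apply h2))

private lemma TMorA_step1 {n : ℕ} {Ω : Set (Eu n)} {u : Eu n → Eu n}
    (hu : ContinuousOn u Ω) {η : Eu n → ℝ} (hη : ContDiff ℝ (⊤ : ℕ∞) η)
    (hη1 : Function.support η ⊆ Metric.closedBall 0 1)
    {x : Eu n} {δ : ℝ} (hx : Metric.closedBall x δ ⊆ Ω) {t : ℝ} (ht0 : 0 < t) (htδ : t < δ) :
    HasDerivAt (avg η u x) (∫ z, TMorA_k η x t z • u z) t := by
  obtain ⟨C, hC⟩ := TMorA_bound hη hη1 x (half_pos ht0) δ
  have hU : Ioo (t / 2) δ ∈ nhds t := Ioo_mem_nhds (by linarith) htδ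
  have key := hasDerivAt_integral_of_dominated_loc_of_deriv_le (μ := volume) (𝕜 := ℝ)
    (F := fun (s : ℝ) (z : Eu n) => (s ^ (-(n : ℤ)) * η (s⁻¹ • (x - z))) • u z)
    (F' := fun (s : ℝ) (z : Eu n) => TMorA_k η x s z • u z) (x₀ := t)
    (s := Ioo (t / 2) δ)
    (bound := (Metric.closedBall x δ).indicator (fun z => C * ‖u z‖))
    hU ?_ ?_ ?_ ?_ ?_ ?_
  · exact key.2
  · filter_upwards [hU] with s hs
    have hs0 : 0 < s := by linarith [hs.1]
    refine (TMorA_meas hu hx (g := fun z => s ^ (-(n : ℤ)) * η (s⁻¹ • (x - z))) ?_ ?_).1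
    · exact continuous_const.mul (hη.continuous.comp (by fun_prop))
    · intro z hz
      simp [TMorA_zero hη1 (TMorA_norm hs0 hs.2.le hz)]
  · refine TMorA_meas hu hx (g := fun z => t ^ (-(n : ℤ)) * η (t⁻¹ • (x - z))) ?_ ?_
    · exact continuous_const.mul (hη.continuous.comp (by fun_prop))
    · intro z hz
      simp [TMorA_zero hη1 (TMorA_norm ht0 htδ.le hz)]
  · exact (TMorA_meas hu hx (TMorA_kcont hη x t)
      (fun z hz => TMorA_kzero hη1 ht0 htδ.le hz)).1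
  · refine Filter.Eventually.of_forall fun z s hs => ?_
    have hs0 : 0 < s := by linarith [hs.1]
    by_cases hz : z ∈ Metric.closedBall x δ
    · rw [indicator_of_mem hz, norm_smul, Real.norm_eq_abs]
      exact mul_le_mul_of_nonneg_right (hC s hs.1.le hs.2.le z) (norm_nonneg _)
    · rw [indicator_of_notMem hz, TMorA_kzero hη1 hs0 hs.2.le hz]
      simp
  · have h1 : IntegrableOn (fun z => C * ‖u z‖) (Metric.closedBall x δ) :=
      (continuousOn_const.mul (hu.mono hx).norm).integrableOn_compact (isCompact_closedBall x δ)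
    exact h1.integrable_indicator Metric.isClosed_closedBall.measurableSet
  · refine Filter.Eventually.of_forall fun z s hs => ?_
    have hs0 : 0 < s := by linarith [hs.1]
    exact (TMorA_deriv hη x z hs0).smul_const _

/-- the test functions -/
private noncomputable def TMorA_ψ {n : ℕ} (η : Eu n → ℝ) (x : Eu n) (t : ℝ) (i : Fin n)
    (z : Eu n) : ℝ :=
  t ^ (-(n : ℤ)) * η (t⁻¹ • (x - z)) * (t⁻¹ • (x - z)) i

private lemma TMorA_ψfd {n : ℕ} {η : Eu n → ℝ} (hη : ContDiff ℝ (⊤ : ℕ∞) η) (x : Eu n) (t : ℝ)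
    (i : Fin n) (z w : Eu n) :
    fderiv ℝ (TMorA_ψ η x t i) z w =
      t ^ (-(n : ℤ)) * fderiv ℝ η (t⁻¹ • (x - z)) ((-t⁻¹) • w) * (t⁻¹ • (x - z)) i +
        t ^ (-(n : ℤ)) * η (t⁻¹ • (x - z)) * (-t⁻¹ * w i) := by
  have hL : HasFDerivAt (fun z : Eu n => t⁻¹ • (x - z)) (t⁻¹ • (-ContinuousLinearMap.id ℝ (Eu n)))
      z := ((hasFDerivAt_id z).const_sub x).const_smul t⁻¹
  have h1 : HasFDerivAt (fun z : Eu n => t ^ (-(n : ℤ)) * η (t⁻¹ • (x - z)))
      (t ^ (-(n : ℤ)) • (fderiv ℝ η (t⁻¹ • (x - z))).comp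
        (t⁻¹ • (-ContinuousLinearMap.id ℝ (Eu n)))) z :=
    (HasFDerivAt.comp z ((hη.differentiable (by simp)).differentiableAt.hasFDerivAt) hL).const_mul _
  have h2 : HasFDerivAt (fun z : Eu n => (t⁻¹ • (x - z)) i)
      ((EuclideanSpace.proj i : Eu n →L[ℝ] ℝ).comp (t⁻¹ • (-ContinuousLinearMap.id ℝ (Eu n)))) z :=
    HasFDerivAt.comp z (EuclideanSpace.proj i : Eu n →L[ℝ] ℝ).hasFDerivAt hL
  have h3 := (h1.mul h2).fderiv
  have h4 : fderiv ℝ (TMorA_ψ η x t i) z = _ := h3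
  have hp : (EuclideanSpace.proj i : Eu n →L[ℝ] ℝ) w = w i := rfl
  rw [h4]
  simp only [_root_.add_apply, _root_.smul_apply,
    ContinuousLinearMap.comp_apply, _root_.neg_apply, ContinuousLinearMap.id_apply,
    smul_eq_mul, PiLp.smul_apply, smul_neg, neg_smul, hp,
    map_neg, map_smul]
  ring

private lemma TMorA_sum {n : ℕ} {η : Eu n → ℝ} (hη : ContDiff ℝ (⊤ : ℕ∞) η) (x : Eu n) {t : ℝ}
    (ht : 0 < t) (z : Eu n) :
    ∑ i, fderiv ℝ (TMorA_ψ η x t i) z (EuclideanSpace.single i (1 : ℝ)) = TMorA_k η x t z := by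
  simp_rw [TMorA_ψfd hη]
  rw [Finset.sum_add_distrib]
  have e0 : ∀ y : Eu n, ∑ i, y i • EuclideanSpace.single i (1 : ℝ) = y := by
    intro y
    ext j
    simp [Finset.sum_apply, Pi.single_apply]
  set y : Eu n := t⁻¹ • (x - z) with hy
  have h1 : ∑ i, t ^ (-(n : ℤ)) * fderiv ℝ η y ((-t⁻¹) • EuclideanSpace.single i (1 : ℝ)) * y i
      = t ^ (-(n : ℤ)) * fderiv ℝ η y ((-(t ^ 2)⁻¹) • (x - z)) := by
    have : (-(t ^ 2)⁻¹) • (x - z) = (-t⁻¹) • y := by
      rw [hy, smul_smul]; congr 1; field_simp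
    rw [this]
    have e1 : fderiv ℝ η y ((-t⁻¹) • y)
        = ∑ i, fderiv ℝ η y ((-t⁻¹) • (y i • EuclideanSpace.single i (1 : ℝ))) := by
      rw [← map_sum, ← Finset.smul_sum, e0]
    rw [e1, Finset.mul_sum]
    refine Finset.sum_congr rfl fun i _ => ?_
    simp only [map_smul, smul_eq_mul]
    ring
  have h2 : ∑ i : Fin n, t ^ (-(n : ℤ)) * η y *
      (-t⁻¹ * (EuclideanSpace.single i (1 : ℝ) : Eu n) i)
      = (((-(n : ℤ) : ℤ) : ℝ) * t ^ (-(n : ℤ) - 1)) * η y := by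
    rw [zpow_sub_one₀ ht.ne']
    simp
    ring
  rw [h1, h2, TMorA_k, add_comm]

private lemma TMorA_ψzero {n : ℕ} {η : Eu n → ℝ}
    (hη1 : Function.support η ⊆ Metric.closedBall 0 1) {x z : Eu n} {t : ℝ} (ht : 0 < t)
    (i : Fin n) (hz : z ∉ Metric.closedBall x t) : TMorA_ψ η x t i z = 0 := by
  simp [TMorA_ψ, TMorA_zero hη1 (TMorA_norm ht le_rfl hz)]

private lemma TMorA_ψsmooth {n : ℕ} {η : Eu n → ℝ} (hη : ContDiff ℝ (⊤ : ℕ∞) η) (x : Eu n) (t : ℝ)
    (i : Fin n) : ContDiff ℝ (⊤ : ℕ∞) (TMorA_ψ η x t i) := by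
  unfold TMorA_ψ
  have hL : ContDiff ℝ (⊤ : ℕ∞) (fun z : Eu n => t⁻¹ • (x - z)) := by fun_prop
  have h2 : ContDiff ℝ (⊤ : ℕ∞) (fun z : Eu n => (t⁻¹ • (x - z)) i) :=
    (EuclideanSpace.proj i : Eu n →L[ℝ] ℝ).contDiff.comp hL
  exact (contDiff_const.mul (hη.comp hL)).mul h2

theorem avg_hasDerivAt {n : ℕ} {Ω : Set (Eu n)} (hΩ : IsOpen Ω) {u : Eu n → Eu n}
    {G : Eu n → (Eu n →L[ℝ] Eu n)} (hu : ContinuousOn u Ω) (hG : IsWeakDeriv Ω u G)
    {η : Eu n → ℝ} (hη : ContDiff ℝ (⊤ : ℕ∞) η) (hη1 : Function.support η ⊆ Metric.closedBall 0 1)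
    {x : Eu n} {δ : ℝ} (hx : Metric.closedBall x δ ⊆ Ω) {t : ℝ} (ht0 : 0 < t) (htδ : t < δ) :
    HasDerivAt (avg η u x)
      (- ∫ z, (t ^ (-(n : ℤ)) * η (t⁻¹ • (x - z))) • G z (t⁻¹ • (x - z))) t := by
  have h0 := TMorA_step1 hu hη hη1 hx ht0 htδ
  have hxt : Metric.closedBall x t ⊆ Ω := (Metric.closedBall_subset_closedBall htδ.le).trans hx
  obtain ⟨-, hGl, hW⟩ := hG
  have hts : ∀ i, tsupport (TMorA_ψ η x t i) ⊆ Metric.closedBall x t := fun i =>
    closure_minimal (fun z hz => by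
      by_contra h
      exact hz (TMorA_ψzero hη1 ht0 i h)) Metric.isClosed_closedBall
  have hcs : ∀ i, HasCompactSupport (TMorA_ψ η x t i) := fun i =>
    HasCompactSupport.intro (isCompact_closedBall x t) (fun z hz => TMorA_ψzero hη1 ht0 i hz)
  -- the weak derivative formula
  have hw : ∀ i : Fin n, ∫ z in Ω, (fderiv ℝ (TMorA_ψ η x t i) z (EuclideanSpace.single i 1)) • u z
      = - ∫ z in Ω, TMorA_ψ η x t i z • G z (EuclideanSpace.single i 1) := fun i =>
    hW _ (TMorA_ψsmooth hη x t i) (hcs i) ((hts i).trans hxt) _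
  have hΩm := hΩ.measurableSet
  -- left side
  have hL : ∫ z, TMorA_k η x t z • u z =
      ∑ i : Fin n, ∫ z in Ω, (fderiv ℝ (TMorA_ψ η x t i) z (EuclideanSpace.single i 1)) • u z := by
    rw [← integral_finsetSum]
    · rw [← setIntegral_eq_integral_of_forall_compl_eq_zero (s := Ω)]
      · refine integral_congr_ae (Filter.Eventually.of_forall fun z => ?_)
        simp only
        rw [← TMorA_sum hη x ht0 z, Finset.sum_smul]
      · intro z hz
        rw [TMorA_kzero hη1 ht0 le_rfl (fun h => hz (hxt h)), zero_smul]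
    · intro i _
      refine (TMorA_meas hu hxt
        (g := fun z => fderiv ℝ (TMorA_ψ η x t i) z (EuclideanSpace.single i 1)) ?_ ?_).integrableOn
      · exact ((TMorA_ψsmooth hη x t i).continuous_fderiv (by simp)).clm_apply continuous_const
      · intro z hz
        have : z ∉ tsupport (fderiv ℝ (TMorA_ψ η x t i)) := fun h =>
          hz (hts i (tsupport_fderiv_subset ℝ h))
        rw [image_eq_zero_of_notMem_tsupport this]
        rfl
  have hGi : ∀ w : Eu n, IntegrableOn (fun z => G z w) (Metric.closedBall x t) := by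
    intro w
    have : IntegrableOn G (Metric.closedBall x t) :=
      hGl.integrableOn_compact_subset hxt (isCompact_closedBall x t)
    exact (ContinuousLinearMap.apply ℝ (Eu n) w).integrable_comp this
  have hR : ∑ i : Fin n, ∫ z in Ω, TMorA_ψ η x t i z • G z (EuclideanSpace.single i 1)
      = ∫ z, (t ^ (-(n : ℤ)) * η (t⁻¹ • (x - z))) • G z (t⁻¹ • (x - z)) := by
    rw [← integral_finsetSum]
    · have hs := setIntegral_eq_integral_of_forall_compl_eq_zero (s := Ω) (μ := volume)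
        (f := fun z => (t ^ (-(n : ℤ)) * η (t⁻¹ • (x - z))) • G z (t⁻¹ • (x - z))) (by
          intro z hz
          rw [TMorA_zero hη1 (TMorA_norm ht0 le_rfl (fun h => hz (hxt h)))]
          simp)
      rw [← hs]
      refine integral_congr_ae (Filter.Eventually.of_forall fun z => ?_)
      simp only
      have e0 : ∀ y : Eu n, ∑ i, y i • EuclideanSpace.single i (1 : ℝ) = y := by
        intro y
        ext j
        simp [Finset.sum_apply, Pi.single_apply]
      have e1 : G z (t⁻¹ • (x - z))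
          = ∑ i, G z ((t⁻¹ • (x - z)) i • EuclideanSpace.single i (1 : ℝ)) := by
        rw [← map_sum, e0]
      rw [e1, Finset.smul_sum]
      refine Finset.sum_congr rfl fun i _ => ?_
      rw [(G z).map_smul, smul_smul]
      rfl
    · intro i _
      have h1 : IntegrableOn (fun z => TMorA_ψ η x t i z • G z (EuclideanSpace.single i 1))
          (Metric.closedBall x t) := by
        refine IntegrableOn.continuousOn_smul (hGi _) ?_ (isCompact_closedBall x t)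
        exact (TMorA_ψsmooth hη x t i).continuous.continuousOn
      have h2 : Integrable (fun z => TMorA_ψ η x t i z • G z (EuclideanSpace.single i 1)) := by
        refine (integrableOn_iff_integrable_of_support_subset ?_).mp h1
        intro z hz
        by_contra h
        exact hz (by simp [TMorA_ψzero hη1 ht0 i h])
      exact h2.integrableOn
  rw [hL] at h0
  simp_rw [hw] at h0
  rw [Finset.sum_neg_distrib, hR] at h0
  exact h0

end EXO
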