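import Pool.Agent.EXO.TopPc

/-!
# EXO / TopVd: forms on `V` and their twisted exterior derivative

Proofs.  Everything is elementary; algebra of `Lam`, `eps`, `epsv`, `ten`, `dg` in FmLam, FmTens
(`Lam_eps`, `Lam_ten`, `Lam_comp_apply`, `ten_eps`, `ten_mul`, `dg_eps`, `ten_dg`, `epsv_sum_ee`).
`dV_smooth`: `P` smooth (`V.smoothP`), `x ↦ Lam (P x)` smooth (`contDiff_Lam`), `contDiff_ten`,
`fderiv u x (P x v)` smooth (`ContDiff.fderiv_right`, `clm_apply`).
`covV_congr`: `su_local` for `u - w`; and `u x = w x` (`self_of_nhds`).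
`dV_mul`: `fderiv_fun_smul`, then `ht`, `hs`; `eps` is linear.
`dV_tan`: with `c v = covV V t u x v`: `c` is additive and real homogeneous in `v`, `c (P v) = c v`
(`V.P_idem`) and `Lam P (c v) = c v` (`Lam P` commutes with `ten`, `ht`).  Hence
`Lam P (∑ eps a (c e_a)) = ∑_a epsv (P e_a) (c e_a) = ∑_a ∑_b (P e_a)_b eps b (c e_a)
 = ∑_b eps b (c (∑_a (P e_b)_a e_a)) = ∑_b eps b (c (P e_b)) = ∑_b eps b (c e_b)` (`symm_coord`).
`dV_sec`: `ten e` commutes with `eps` and `Lam`; `ee`, `eb`.
`dg_dV`: `dg (j+1) (eps a y) = eps a (dg j y)`, `dg j` commutes with `ten` and `Lam`, and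
`dg j (fderiv u x (P v)) = fderiv (fun y => dg j (u y)) x (P v) = fderiv u x (P v)` by `su_local` for
the difference; `u x` has degree `j`.
`pull_dV`: `P A = A` for `A = fderiv F z` by `su_tan`.  The first terms: `pull_dtan` of TopTan with
`L v = ten (t.e x) (fderiv u x v)`, the second ones: `Lam P (ten (b (P e_a)) u) = ten (b (P e_a)) u`
by `ht`, so again `pull_dtan` with `L v = ten (t.b x v) u`; together the left hand side is
`pull F (t.d u) z`, which is the right hand side by `Tw.d_pull`.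
-/

set_option autoImplicit false
set_option maxSynthPendingDepth 3

open Set MeasureTheory Matrix Filter Topology
open scoped ContDiff ENNReal ComplexConjugate

namespace Pool.Agent.EXO

section

variable {n M k : ℕ} (V : Geo n M) {κ : Type} [Fintype κ]

/-- Forms on `V` with values in the bundle `e`: restrictions of smooth functions. -/
structure VF (t : Tw M κ) (u : RE M → HF M κ) : Prop where
  smooth : ContDiff ℝ ∞ u
  tan : ∀ x ∈ V.carrier, Lam (V.P x) (u x) = u x
  sec : ∀ x ∈ V.carrier, ten (t.e x) (u x) = u x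

/-- Smooth coefficients. -/
structure Tw.Smooth (t : Tw M κ) : Prop where
  e : ContDiff ℝ ∞ t.e
  b : ContDiff ℝ ∞ t.b

/-- The algebraic conditions on the coefficients along `V`. -/
structure Tw.OnV (t : Tw M κ) : Prop where
  ee : ∀ x ∈ V.carrier, t.e x * t.e x = t.e x
  eb : ∀ x ∈ V.carrier, ∀ v, t.e x * t.b x v = t.b x v

/-- The one-form part of the twisted derivative in the direction `v`. -/
noncomputable def covV (t : Tw M κ) (u : RE M → HF M κ) (x : RE M) (v : RE M) : HF M κ :=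
  Lam (V.P x) (ten (t.e x) (fderiv ℝ u x (V.P x v))) + ten (t.b x (V.P x v)) (u x)

/-- The twisted exterior derivative on `V`. -/
noncomputable def dV (t : Tw M κ) (u : RE M → HF M κ) (x : RE M) : HF M κ :=
  ∑ a, eps a (covV V t u x (ee a))

variable {V}

/-! ### auxiliary linear maps -/

private theorem TopVd_apply {m m' : ℕ} {ι ι' : Type} [Fintype ι] [Fintype ι']
    {L : RE M → (HF m ι →L[ℂ] HF m' ι')}
    (hL : ContDiff ℝ ∞ L) {w : RE M → HF m ι} (hw : ContDiff ℝ ∞ w) :
    ContDiff ℝ ∞ fun x => L x (w x) := by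
  have hb : IsBoundedBilinearMap ℝ (fun p : (HF m ι →L[ℂ] HF m' ι') × HF m ι => p.1 p.2) := by
    have h := isBoundedBilinearMap_apply (𝕜 := ℂ) (E := HF m ι) (F := HF m' ι')
    refine ⟨h.add_left, ?_, h.add_right, ?_, h.bound⟩
    · intro c x y
      rfl
    · intro c x y
      exact (x.restrictScalars ℝ).map_smul c y
  exact hb.contDiff.comp (hL.prodMk hw)

/-- `v ↦ ten (b v) u` -/
private noncomputable def TopVd_bL (B : RE M →L[ℝ] (KE κ →L[ℂ] KE κ)) (u : HF M κ) :
    RE M →L[ℝ] HF M κ :=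
  (((ContinuousLinearMap.apply ℂ (HF M κ) u).comp (tenL M κ κ)).restrictScalars ℝ).comp B

private theorem TopVd_bL_apply (B : RE M →L[ℝ] (KE κ →L[ℂ] KE κ)) (u : HF M κ) (v : RE M) :
    TopVd_bL B u v = ten (B v) u := rfl

/-- the covariant derivative as a linear map -/
private noncomputable def TopVd_cL (V : Geo n M) (t : Tw M κ) (u : RE M → HF M κ) (x : RE M) :
    RE M →L[ℝ] HF M κ :=
  (((Lam (V.P x)).comp (ten (t.e x))).restrictScalars ℝ).comp ((fderiv ℝ u x).comp (V.P x)) +
    (TopVd_bL (t.b x) (u x)).comp (V.P x)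

private theorem TopVd_cL_apply (V : Geo n M) (t : Tw M κ) (u : RE M → HF M κ) (x v : RE M) :
    TopVd_cL V t u x v = covV V t u x v := rfl

private theorem TopVd_rsmul {m m' : ℕ} {ι ι' : Type} [Fintype ι] [Fintype ι']
    (T : HF m ι →L[ℂ] HF m' ι') (r : ℝ) (z : HF m ι) : T (r • z) = r • T z :=
  map_smul (T.restrictScalars ℝ) r z


theorem contDiff_ten {t : Tw M κ} (ht : t.Smooth) :
    ContDiff ℝ ∞ fun x => (ten (t.e x) : HF M κ →L[ℂ] HF M κ) := by
  have h := ((tenL M κ κ).restrictScalars ℝ).contDiff (n := ∞)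
  exact h.comp ht.e

theorem dV_smooth {t : Tw M κ} (ht : t.Smooth) {u : RE M → HF M κ} (hu : ContDiff ℝ ∞ u) :
    ContDiff ℝ ∞ (dV V t u) := by
  have hP := V.smoothP
  have hfd : ContDiff ℝ ∞ (fderiv ℝ u) := hu.fderiv_right (by simp)
  have hLam : ContDiff ℝ ∞ fun x => (Lam (V.P x) : HF M κ →L[ℂ] HF M κ) := contDiff_Lam.comp hP
  unfold dV covV
  refine ContDiff.sum fun a _ => ?_
  have h1 : ContDiff ℝ ∞ fun x => V.P x (ee a) := hP.clm_apply contDiff_const
  have h2 : ContDiff ℝ ∞ fun x => fderiv ℝ u x (V.P x (ee a)) := hfd.clm_apply h1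
  have h3 : ContDiff ℝ ∞ fun x => ten (t.e x) (fderiv ℝ u x (V.P x (ee a))) :=
    TopVd_apply (contDiff_ten ht) h2
  have h4 : ContDiff ℝ ∞ fun x => Lam (V.P x) (ten (t.e x) (fderiv ℝ u x (V.P x (ee a)))) :=
    TopVd_apply hLam h3
  have h5 : ContDiff ℝ ∞ fun x => t.b x (V.P x (ee a)) := ht.b.clm_apply h1
  have h6 : ContDiff ℝ ∞ fun x => (ten (t.b x (V.P x (ee a))) : HF M κ →L[ℂ] HF M κ) :=
    (((tenL M κ κ).restrictScalars ℝ).contDiff (n := ∞)).comp h5
  have h7 : ContDiff ℝ ∞ fun x => ten (t.b x (V.P x (ee a))) (u x) := TopVd_apply h6 hu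
  exact ((eps a : HF M κ →L[ℂ] HF M κ).restrictScalars ℝ).contDiff.comp (h4.add h7)

/-- Locality of the covariant derivative. -/
theorem covV_congr {t : Tw M κ} {u w : RE M → HF M κ} {x : RE M} (hx : x ∈ V.carrier)
    (hu : DifferentiableAt ℝ u x) (hw : DifferentiableAt ℝ w x)
    (h : ∀ᶠ y in 𝓝 x, y ∈ V.carrier → u y = w y) (v : RE M) :
    covV V t u x v = covV V t w x v := by
  have h1 : fderiv ℝ (fun y => u y - w y) x (V.P x v) = 0 := by
    refine su_local V hx (hu.sub hw) ?_ v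
    filter_upwards [h] with y hy hyV
    show u y - w y = 0
    rw [hy hyV, sub_self]
  rw [fderiv_fun_sub hu hw, _root_.sub_apply, sub_eq_zero] at h1
  unfold covV
  rw [h1, h.self_of_nhds hx]

theorem dV_congr {t : Tw M κ} {u w : RE M → HF M κ} {x : RE M} (hx : x ∈ V.carrier)
    (hu : DifferentiableAt ℝ u x) (hw : DifferentiableAt ℝ w x)
    (h : ∀ᶠ y in 𝓝 x, y ∈ V.carrier → u y = w y) : dV V t u x = dV V t w x := by
  unfold dV
  exact Finset.sum_congr rfl fun a _ => by rw [covV_congr hx hu hw h]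

theorem dV_add {t : Tw M κ} {u w : RE M → HF M κ} {x : RE M}
    (hu : DifferentiableAt ℝ u x) (hw : DifferentiableAt ℝ w x) :
    dV V t (fun y => u y + w y) x = dV V t u x + dV V t w x := by
  unfold dV covV
  rw [fderiv_fun_add hu hw, ← Finset.sum_add_distrib]
  refine Finset.sum_congr rfl fun a _ => ?_
  rw [← map_add]
  congr 1
  rw [_root_.add_apply, map_add, map_add, map_add]
  abel

theorem dV_sub {t : Tw M κ} {u w : RE M → HF M κ} {x : RE M}
    (hu : DifferentiableAt ℝ u x) (hw : DifferentiableAt ℝ w x) :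
    dV V t (fun y => u y - w y) x = dV V t u x - dV V t w x := by
  unfold dV covV
  rw [fderiv_fun_sub hu hw, ← Finset.sum_sub_distrib]
  refine Finset.sum_congr rfl fun a _ => ?_
  rw [← map_sub]
  congr 1
  rw [_root_.sub_apply, map_sub, map_sub, map_sub]
  abel

theorem dV_smul {t : Tw M κ} {u : RE M → HF M κ} {x : RE M} (c : ℂ)
    (hu : DifferentiableAt ℝ u x) : dV V t (fun y => c • u y) x = c • dV V t u x := by
  unfold dV covV
  rw [Finset.smul_sum]
  refine Finset.sum_congr rfl fun a _ => ?_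
  have h : fderiv ℝ (fun y => c • u y) x = c • fderiv ℝ u x := fderiv_fun_const_smul hu c
  rw [h, ← map_smul, smul_add, _root_.smul_apply, map_smul, map_smul, map_smul]

/-- Leibniz rule. -/
theorem dV_mul {t : Tw M κ} {f : RE M → ℝ} {u : RE M → HF M κ} {x : RE M} (hx : x ∈ V.carrier)
    (hf : DifferentiableAt ℝ f x) (hu : DifferentiableAt ℝ u x) (ht : Lam (V.P x) (u x) = u x)
    (hs : ten (t.e x) (u x) = u x) :
    dV V t (fun y => f y • u y) x =
      ∑ a, (fderiv ℝ f x (V.P x (ee a))) • eps a (u x) + f x • dV V t u x := by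
  have _ := hx
  have h : fderiv ℝ (fun y => f y • u y) x =
      f x • fderiv ℝ u x + (fderiv ℝ f x).smulRight (u x) := fderiv_fun_smul hf hu
  unfold dV covV
  rw [h, Finset.smul_sum, ← Finset.sum_add_distrib]
  refine Finset.sum_congr rfl fun a _ => ?_
  rw [_root_.add_apply, _root_.smul_apply, ContinuousLinearMap.smulRight_apply]
  simp only [map_add, TopVd_rsmul, hs, ht, smul_add]
  abel

theorem dV_tan {t : Tw M κ} {u : RE M → HF M κ} {x : RE M} (hx : x ∈ V.carrier)
    (ht : Lam (V.P x) (u x) = u x) : Lam (V.P x) (dV V t u x) = dV V t u x := by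
  have hPP : (V.P x).comp (V.P x) = V.P x := V.P_comp hx
  have hLP : ∀ v, Lam (V.P x) (covV V t u x v) = covV V t u x v := by
    intro v
    have e0 : Lam (V.P x) (ten (t.b x (V.P x v)) (u x)) = ten (t.b x (V.P x v)) (u x) := by
      rw [Lam_ten, ht]
    unfold covV
    rw [map_add, ← Lam_comp_apply, hPP, e0]
  have hc : ∀ v, TopVd_cL V t u x (V.P x v) = TopVd_cL V t u x v := by
    intro v
    rw [TopVd_cL_apply, TopVd_cL_apply]
    unfold covV
    rw [V.P_idem x hx]
  unfold dV
  rw [map_sum]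
  have e1 : ∀ a, Lam (V.P x) (eps a (covV V t u x (ee a))) =
      ∑ b, ((V.P x (ee b)) a : ℂ) • eps b (TopVd_cL V t u x (ee a)) := by
    intro a
    rw [Lam_eps, hLP, epsv_apply]
    refine Finset.sum_congr rfl fun b _ => ?_
    rw [symm_coord (V.P_adj hx) a b, TopVd_cL_apply]
  rw [Finset.sum_congr rfl fun a _ => e1 a, Finset.sum_comm]
  refine Finset.sum_congr rfl fun b _ => ?_
  rw [← TopVd_cL_apply, ← hc (ee b), lin_expand (TopVd_cL V t u x) (V.P x (ee b)), map_sum]
  refine Finset.sum_congr rfl fun a _ => ?_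
  rw [TopVd_rsmul, ← Complex.coe_smul]

theorem dV_sec {t : Tw M κ} (hV : t.OnV V) {u : RE M → HF M κ} {x : RE M}
    (hx : x ∈ V.carrier) : ten (t.e x) (dV V t u x) = dV V t u x := by
  unfold dV
  rw [map_sum]
  refine Finset.sum_congr rfl fun a _ => ?_
  rw [ten_eps]
  congr 1
  unfold covV
  rw [map_add, ← Lam_ten, ten_comp, ten_comp]
  have h1 : (t.e x).comp (t.e x) = t.e x := hV.ee x hx
  have h2 : (t.e x).comp (t.b x (V.P x (ee a))) = t.b x (V.P x (ee a)) := hV.eb x hx _
  rw [h1, h2]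

/-- The derivative of a form on `V` is a form on `V`. -/
theorem VF.dV {t : Tw M κ} (ht : t.Smooth) (hV : t.OnV V) {u : RE M → HF M κ}
    (hu : VF V t u) : VF V t (dV V t u) where
  smooth := dV_smooth ht hu.smooth
  tan := fun x hx => dV_tan hx (hu.tan x hx)
  sec := fun _ hx => dV_sec hV hx

theorem VF.add {t : Tw M κ} {u w : RE M → HF M κ} (hu : VF V t u) (hw : VF V t w) :
    VF V t (fun x => u x + w x) where
  smooth := hu.smooth.add hw.smooth
  tan := fun x hx => by rw [map_add, hu.tan x hx, hw.tan x hx]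
  sec := fun x hx => by rw [map_add, hu.sec x hx, hw.sec x hx]

theorem VF.sub {t : Tw M κ} {u w : RE M → HF M κ} (hu : VF V t u) (hw : VF V t w) :
    VF V t (fun x => u x - w x) where
  smooth := hu.smooth.sub hw.smooth
  tan := fun x hx => by rw [map_sub, hu.tan x hx, hw.tan x hx]
  sec := fun x hx => by rw [map_sub, hu.sec x hx, hw.sec x hx]

theorem VF.mul {t : Tw M κ} {f : RE M → ℝ} (hf : ContDiff ℝ ∞ f) {u : RE M → HF M κ}
    (hu : VF V t u) : VF V t (fun x => f x • u x) where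
  smooth := hf.smul hu.smooth
  tan := fun x hx => by
    rw [← Complex.coe_smul, map_smul, hu.tan x hx]
  sec := fun x hx => by
    rw [← Complex.coe_smul, map_smul, hu.sec x hx]

/-- The derivative raises the degree by one. -/
theorem dg_dV {t : Tw M κ} {j : ℕ} {u : RE M → HF M κ} {x : RE M} (hx : x ∈ V.carrier)
    (hu : DifferentiableAt ℝ u x) (h : ∀ y ∈ V.carrier, dg j (u y) = u y) :
    dg (j + 1) (dV V t u x) = dV V t u x := by
  unfold dV
  rw [map_sum]
  refine Finset.sum_congr rfl fun a _ => ?_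
  rw [dg_eps]
  congr 1
  have h1 : dg j (fderiv ℝ u x (V.P x (ee a))) = fderiv ℝ u x (V.P x (ee a)) := by
    have h2 : HasFDerivAt (fun y => dg j (u y))
        (((dg j : HF M κ →L[ℂ] HF M κ).restrictScalars ℝ).comp (fderiv ℝ u x)) x :=
      ((dg j : HF M κ →L[ℂ] HF M κ).restrictScalars ℝ).hasFDerivAt.comp x hu.hasFDerivAt
    have h3 : fderiv ℝ (fun y => dg j (u y) - u y) x (V.P x (ee a)) = 0 :=
      su_local V hx (h2.differentiableAt.sub hu) (Filter.Eventually.of_forall
        fun y hy => by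
          show dg j (u y) - u y = 0
          rw [h y hy, sub_self]) (ee a)
    rw [fderiv_fun_sub h2.differentiableAt hu, _root_.sub_apply, sub_eq_zero, h2.fderiv] at h3
    exact h3
  unfold covV
  rw [map_add, ← Lam_dg, ← ten_dg, ← ten_dg, h1, h x hx]

/-- Naturality: pullback of the derivative under a map into `V`. -/
theorem pull_dV {t : Tw M κ} {F : RE k → RE M} {z : RE k} (hF : ContDiffAt ℝ 2 F z)
    (hFV : ∀ᶠ y in 𝓝 z, F y ∈ V.carrier) {u : RE M → HF M κ}
    (hu : DifferentiableAt ℝ u (F z)) (ht : Lam (V.P (F z)) (u (F z)) = u (F z)) :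
    pull F (dV V t u) z = (t.pull F).d (pull F u) z := by
  have hFd : DifferentiableAt ℝ F z := hF.differentiableAt (by simp)
  have hx : F z ∈ V.carrier := hFV.self_of_nhds
  have hA : (V.P (F z)).comp (fderiv ℝ F z) = fderiv ℝ F z := by
    ext1 w
    exact su_tan V hFd hFV w
  have hs := V.P_adj hx
  rw [t.d_pull hF hu]
  unfold pull
  have e1 : dV V t u (F z) =
      ∑ a, eps a (Lam (V.P (F z)) (((ten (t.e (F z))).restrictScalars ℝ).comp
        (fderiv ℝ u (F z)) (V.P (F z) (ee a)))) +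
      ∑ a, eps a (Lam (V.P (F z)) (TopVd_bL (t.b (F z)) (u (F z)) (V.P (F z) (ee a)))) := by
    unfold dV covV
    rw [← Finset.sum_add_distrib]
    refine Finset.sum_congr rfl fun a _ => ?_
    have e0 : Lam (V.P (F z)) (ten (t.b (F z) (V.P (F z) (ee a))) (u (F z))) =
        ten (t.b (F z) (V.P (F z) (ee a))) (u (F z)) := by
      rw [Lam_ten, ht]
    rw [← map_add, TopVd_bL_apply, e0]
    rfl
  have e2 : t.d u (F z) =
      ∑ a, eps a (((ten (t.e (F z))).restrictScalars ℝ).comp (fderiv ℝ u (F z)) (ee a)) +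
      ∑ a, eps a (TopVd_bL (t.b (F z)) (u (F z)) (ee a)) := by
    unfold Tw.d
    rw [← Finset.sum_add_distrib]
    refine Finset.sum_congr rfl fun a _ => ?_
    rw [← map_add, TopVd_bL_apply]
    rfl
  rw [e1, e2, map_add, map_add]
  congr 1
  · exact pull_dtan hs hA _
  · exact pull_dtan hs hA _

end

end Pool.Agent.EXO
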