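import Pool.Agent.EXO.TopFl
import Pool.Agent.EXO.TopVd

/-!
# EXO / TopTc: the coefficients on `V` and on the pieces

`tV = (tN).pull r` on `V`, `tC = (tN).pull (C.rho ∘ p3)` on `ℝ^15`.

Proofs.  `tV_smooth`: composition of smooth maps.  `tV_onV`: `E.tN_ee`, `E.tN_eb` at `r x ∈ N`.
`tC_flat`: `E.flat_pull` (`C.rho ∘ p3` is smooth on the open set `{p3 z ∈ C.O}` and has its values in `N`).
`tC_act`: for `i < 8` we have `p3 (x + r • ee i) = p3 x`; so `f = C.rho ∘ p3` satisfies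
`f (x + r • ee i) = f x` for all `x`, `r`; hence `fderiv ℝ f (x + r • ee i) = fderiv ℝ f x`
(`fderiv_comp_add_right`) and `fderiv ℝ f x (ee i) = 0` (if `f` is differentiable at `x`: derivative of the
constant function `r ↦ f (x + r • ee i)` at `0`; otherwise `fderiv = 0`).
`eq_of_r`: near `z ∈ dom g C.O 20000` we have `r (p.Ψ z') = r (p.Ψ (R z')) = p3 (R z') = C.rho (p3 z')` (`Psi_R`,
`R_mem`, `hr`); hence `e` agrees, and `b`: both sides are `tN.b (C.rho (p3 z))` composed with the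
derivative of the map `r ∘ p.Ψ` resp. `C.rho ∘ p3` (chain rule, `Filter.EventuallyEq.fderiv_eq`).
`tS_flat`: on `D = dom gS C.O 20000` the coefficients `(tV).pull S.Ψ` and `(tN).pull (r ∘ S.Ψ)` have the same `e`
(`rfl`) and the same `b` (chain rule), and the latter is flat by `E.flat_pull`; `Flat` only depends on
`e`, `b` on the open set `D` (`flat_congr`: `fderiv` of functions which agree near a point).
-/

set_option autoImplicit false
set_option maxSynthPendingDepth 3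

open Set MeasureTheory Matrix Filter Topology
open scoped ContDiff ENNReal ComplexConjugate

namespace Pool.Agent.EXO

theorem Tw.flat_congr {m : ℕ} {κ : Type} [Fintype κ] {t t' : Tw m κ} {D : Set (RE m)}
    (ht : t'.Flat D) (he : ∀ z ∈ D, t.e z = t'.e z) (hb : ∀ z ∈ D, t.b z = t'.b z) : t.Flat D := by
  refine { isOpen := ht.isOpen, smooth_e := ht.smooth_e.congr he,
           smooth_b := ht.smooth_b.congr hb, idem := ?_, eb := ?_, be := ?_, flat := ?_ }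
  · intro x hx
    rw [he x hx]
    exact ht.idem x hx
  · intro x hx v
    rw [he x hx, hb x hx]
    exact ht.eb x hx v
  · intro x hx v
    rw [he x hx, hb x hx]
    exact ht.be x hx v
  · intro x hx v w
    have h1 : t.e =ᶠ[𝓝 x] t'.e := by
      filter_upwards [ht.isOpen.mem_nhds hx] with y hy using he y hy
    have h2 : t.b =ᶠ[𝓝 x] t'.b := by
      filter_upwards [ht.isOpen.mem_nhds hx] with y hy using hb y hy
    rw [h1.fderiv_eq, h2.fderiv_eq, he x hx, hb x hx]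
    exact ht.flat x hx v w

section

variable {N : OrGeo 6 7} {C : Collar N.carrier} {l δ : ℝ} (𝒱 : VData N C l δ)
  {ι : Type} [Fintype ι] [DecidableEq ι] (E : FlatBd N.toGeo ι)

/-- The coefficients on `V`. -/
noncomputable def tV : Tw 𝒱.M ι := E.tN.pull 𝒱.r

/-- The coefficients on `ℝ^15`. -/
noncomputable def tC (C : Collar N.carrier) (E : FlatBd N.toGeo ι) : Tw 15 ι :=
  E.tN.pull fun z => C.rho (p3 z)

theorem tV_smooth : (tV 𝒱 E).Smooth := by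
  have h1 : ContDiff ℝ ∞ fun z => E.tN.b (𝒱.r z) := E.smooth_tNb.comp 𝒱.smooth_r
  have h2 : ContDiff ℝ ∞ fun z => fderiv ℝ 𝒱.r z := 𝒱.smooth_r.fderiv_right (by simp)
  exact ⟨E.smooth_tNe.comp 𝒱.smooth_r, h1.clm_comp h2⟩

theorem tV_onV : (tV 𝒱 E).OnV 𝒱.V.toGeo := by
  exact ⟨fun x hx => E.tN_ee (𝒱.r_maps x hx), fun x hx v => E.tN_eb (𝒱.r_maps x hx) _⟩

theorem tC_flat : (tC C E).Flat {z | p3 z ∈ C.O} := by
  exact E.flat_pull (C.openO.preimage continuous_p3)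
    (C.smooth_rho.comp contDiff_p3.contDiffOn fun z hz => hz) fun z hz => C.rho_mem hz

theorem tC_act {i : Fin 15} (hi : i.1 < 8) : (tC C E).Act i := by
  intro x r
  have h1 : ∀ (y : RE 15) (r : ℝ), p3 (y + r • ee i) = p3 y := by
    intro y r
    ext a
    change (y + r • ee i) ⟨8 + a, by omega⟩ = y ⟨8 + a, by omega⟩
    rw [PiLp.add_apply, PiLp.smul_apply]
    have h2 : (ee i : RE 15) ⟨8 + a, by omega⟩ = 0 := by
      have h3 : (⟨8 + a, by omega⟩ : Fin 15) ≠ i := by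
        intro h
        have := congrArg Fin.val h
        simp at this
        omega
      simp [h3]
    rw [h2, smul_zero, add_zero]
  have hf : ∀ (y : RE 15) (r : ℝ), C.rho (p3 (y + r • ee i)) = C.rho (p3 y) := fun y r => by
    rw [h1 y r]
  have hd : fderiv ℝ (fun z => C.rho (p3 z)) (x + r • ee i) =
      fderiv ℝ (fun z => C.rho (p3 z)) x := by
    rw [← fderiv_comp_add_right (r • ee i)]
    congr 1
    funext z
    exact hf z r
  refine ⟨?_, ?_, ?_⟩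
  · change E.tN.e (C.rho (p3 (x + r • ee i))) = E.tN.e (C.rho (p3 x))
    rw [hf x r]
  · change (E.tN.b (C.rho (p3 (x + r • ee i)))).comp
        (fderiv ℝ (fun z => C.rho (p3 z)) (x + r • ee i)) =
      (E.tN.b (C.rho (p3 x))).comp (fderiv ℝ (fun z => C.rho (p3 z)) x)
    rw [hd, hf x r]
  · change E.tN.b (C.rho (p3 x)) (fderiv ℝ (fun z => C.rho (p3 z)) x (ee i)) = 0
    have h4 : fderiv ℝ (fun z => C.rho (p3 z)) x (ee i) = 0 := by
      by_cases hdf : DifferentiableAt ℝ (fun z => C.rho (p3 z)) x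
      · rw [← hdf.lineDeriv_eq_fderiv]
        unfold lineDeriv
        have h5 : (fun t : ℝ => C.rho (p3 (x + t • ee i))) = fun _ => C.rho (p3 x) := by
          funext t
          exact hf x t
        rw [h5, deriv_const]
      · rw [fderiv_zero_of_not_differentiableAt hdf]
        rfl
    rw [h4, map_zero]

theorem tw_eq_of_r {g : En 15 → ℝ} (hg : GOk g) (p : VPiece C 𝒱.V.carrier g)
    (hr : ∀ z ∈ dom g N.carrier 20000, 𝒱.r (p.Ψ z) = p3 z) {z : En 15}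
    (hz : z ∈ dom g C.O 20000) :
    ((tV 𝒱 E).pull p.Ψ).e z = (tC C E).e z ∧ ((tV 𝒱 E).pull p.Ψ).b z = (tC C E).b z := by
  have h1 : ∀ z' ∈ dom g C.O 20000, 𝒱.r (p.Ψ z') = C.rho (p3 z') := by
    intro z' hz'
    rw [← p.Psi_R hg hz', hr _ (R_mem hg hz'), p3_R15]
  refine ⟨?_, ?_⟩
  · change E.tN.e (𝒱.r (p.Ψ z)) = E.tN.e (C.rho (p3 z))
    rw [h1 z hz]
  · have h2 : ((tV 𝒱 E).pull p.Ψ).b z = (E.tN.pull (𝒱.r ∘ p.Ψ)).b z :=
      Tw.pull_pull E.tN ((𝒱.smooth_r.differentiable (by simp)) _) (p.diff_Psi hg hz)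
    rw [h2]
    change (E.tN.b (𝒱.r (p.Ψ z))).comp (fderiv ℝ (𝒱.r ∘ p.Ψ) z) =
      (E.tN.b (C.rho (p3 z))).comp (fderiv ℝ (fun z => C.rho (p3 z)) z)
    have h3 : (𝒱.r ∘ p.Ψ) =ᶠ[𝓝 z] fun z => C.rho (p3 z) := by
      filter_upwards [(isOpen_dom hg C.openO _).mem_nhds hz] with z' hz' using h1 z' hz'
    rw [h3.fderiv_eq, h1 z hz]

theorem tV_K {z : En 15} (hz : z ∈ dom gK C.O 20000) :
    ((tV 𝒱 E).pull 𝒱.K.Ψ).e z = (tC C E).e z ∧ ((tV 𝒱 E).pull 𝒱.K.Ψ).b z = (tC C E).b z :=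
  tw_eq_of_r 𝒱 E gOk_K 𝒱.K 𝒱.rK hz

theorem tV_H1 {z : En 15} (hz : z ∈ dom g1 C.O 20000) :
    ((tV 𝒱 E).pull 𝒱.H1.Ψ).e z = (tC C E).e z ∧ ((tV 𝒱 E).pull 𝒱.H1.Ψ).b z = (tC C E).b z :=
  tw_eq_of_r 𝒱 E gOk_1 𝒱.H1 𝒱.r1 hz

theorem tV_H2 {z : En 15} (hz : z ∈ dom g2 C.O 20000) :
    ((tV 𝒱 E).pull 𝒱.H2.Ψ).e z = (tC C E).e z ∧ ((tV 𝒱 E).pull 𝒱.H2.Ψ).b z = (tC C E).b z :=
  tw_eq_of_r 𝒱 E gOk_2 𝒱.H2 𝒱.r2 hz

theorem tS_eq {z : En 15} (hz : z ∈ dom gS C.O 20000) :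
    ((tV 𝒱 E).pull 𝒱.S.Ψ).e z = (E.tN.pull fun z => 𝒱.r (𝒱.S.Ψ z)).e z ∧
      ((tV 𝒱 E).pull 𝒱.S.Ψ).b z = (E.tN.pull fun z => 𝒱.r (𝒱.S.Ψ z)).b z := by
  exact ⟨rfl, Tw.pull_pull E.tN ((𝒱.smooth_r.differentiable (by simp)) _)
    (𝒱.S.diff_Psi gOk_S hz)⟩

theorem tP_flat {g : En 15 → ℝ} (hg : GOk g) (p : VPiece C 𝒱.V.carrier g) :
    ((tV 𝒱 E).pull p.Ψ).Flat (dom g C.O 20000) := by
  refine Tw.flat_congr (t' := E.tN.pull fun z => 𝒱.r (p.Ψ z)) ?_ (fun z hz => rfl) ?_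
  · exact E.flat_pull (isOpen_dom hg C.openO _) (𝒱.smooth_r.comp_contDiffOn p.smoothΨ)
      fun z hz => 𝒱.r_maps _ (p.maps z hz).1
  · intro z hz
    exact Tw.pull_pull E.tN ((𝒱.smooth_r.differentiable (by simp)) _) (p.diff_Psi hg hz)

end

end Pool.Agent.EXO
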