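import Pool.Agent.EXO.TopVd
import Pool.Agent.EXO.TopTc

/-!
# EXO / TopHa: the vector space of forms on `V` and its scalar product

`SecA V t` is the space of the restrictions to `V` of the forms `VF V t`.

Proofs.  `rep`: `Classical.choose`.  `mkL`: on `f` take `x ↦ L (rep f) x`; `mkL_spec` by `hc`; additivity: the
function `fun x => rep f x + rep g x` is a representative of `f + g`, then `mkL_spec` and `hadd`.
`ipA`: `∫ x, inner ℂ (rep f x) (rep g x) ∂V.μ`; two functions which agree on `V` agree almost everywhere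
(`V.μ_supp`: `∀ᵐ x ∂V.μ, x ∈ V.carrier`), so `ipA_spec` by `integral_congr_ae`; integrability of the
inner product of two smooth functions: it is continuous, hence bounded on the compact set `V`, and `V.μ` is
finite and supported on `V` (`MeasureTheory.Integrable.of_bound`); additivity from `integral_add` (`inner_add_left`,
`inner_add_right`), homogeneity `inner_smul_left`, `inner_smul_right`, `integral_const_mul`.
`ipA_symm`: `integral_conj`, `inner_conj_symm`.  `ipA_nonneg`: `inner_self_eq_norm_sq_to_K`.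
`ipA_defin`: if `∫ ‖u x‖² dμ = 0` and `u y ≠ 0`, `y ∈ V`, then `‖u x‖² ≥ ε > 0` on a ball around `y`, of
positive measure by `hpos`: contradiction.
-/

set_option autoImplicit false
set_option maxSynthPendingDepth 3

open Set MeasureTheory Matrix Filter Topology
open scoped ContDiff ENNReal ComplexConjugate

namespace Pool.Agent.EXO

section

variable {n M : ℕ} (V : Geo n M) {κ : Type} [Fintype κ] (t : Tw M κ)

/-- The space of forms on `V`. -/
def SecA : Submodule ℂ (V.carrier → HF M κ) where
  carrier := {f | ∃ u : En M → HF M κ, VF V t u ∧ ∀ x : V.carrier, f x = u x}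
  add_mem' := by
    rintro f g ⟨u, hu, h1⟩ ⟨w, hw, h2⟩
    exact ⟨fun x => u x + w x, hu.add hw, fun x => by rw [Pi.add_apply, h1, h2]⟩
  zero_mem' := ⟨fun _ => 0, ⟨contDiff_const, fun x _ => map_zero _, fun x _ => map_zero _⟩,
    fun x => rfl⟩
  smul_mem' := by
    rintro c f ⟨u, hu, h1⟩
    refine ⟨fun x => c • u x, ⟨hu.smooth.const_smul c, fun x hx => ?_, fun x hx => ?_⟩,
      fun x => by rw [Pi.smul_apply, h1]⟩
    · rw [map_smul, hu.tan x hx]
    · rw [map_smul, hu.sec x hx]

variable {V t}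

/-- A representative. -/
noncomputable def rep (f : SecA V t) : En M → HF M κ := Classical.choose f.2

theorem rep_VF (f : SecA V t) : VF V t (rep f) := (Classical.choose_spec f.2).1

theorem rep_eq (f : SecA V t) (x : V.carrier) : f.1 x = rep f x := (Classical.choose_spec f.2).2 x

/-- The element of `SecA` given by a form. -/
def mkA {u : En M → HF M κ} (hu : VF V t u) : SecA V t :=
  ⟨fun x => u x, u, hu, fun _ => rfl⟩

theorem secA_ext {f g : SecA V t} {u w : En M → HF M κ} (hf : ∀ x : V.carrier, f.1 x = u x)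
    (hg : ∀ x : V.carrier, g.1 x = w x) (h : ∀ x ∈ V.carrier, u x = w x) : f = g := by
  ext1
  funext x
  rw [hf, hg, h x.1 x.2]

/-- Operators on forms which preserve forms, only depend on the values along `V` and are linear. -/
structure OpA (V : Geo n M) (t : Tw M κ) (L : (En M → HF M κ) → (En M → HF M κ)) : Prop where
  maps : ∀ u, VF V t u → VF V t (L u)
  congr : ∀ u w, VF V t u → VF V t w → (∀ x ∈ V.carrier, u x = w x) →
    ∀ x ∈ V.carrier, L u x = L w x
  add : ∀ u w, VF V t u → VF V t w → ∀ x ∈ V.carrier,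
    L (fun y => u y + w y) x = L u x + L w x
  smul : ∀ (c : ℂ) u, VF V t u → ∀ x ∈ V.carrier, L (fun y => c • u y) x = c • L u x

private theorem TopHa_smul (c : ℂ) {u : En M → HF M κ} (hu : VF V t u) :
    VF V t (fun x => c • u x) where
  smooth := hu.smooth.const_smul c
  tan := fun x hx => by rw [map_smul, hu.tan x hx]
  sec := fun x hx => by rw [map_smul, hu.sec x hx]

/-- The linear map of `SecA` defined by an operator on forms. -/
noncomputable def mkL {L : (En M → HF M κ) → (En M → HF M κ)} (hL : OpA V t L) :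
    SecA V t →ₗ[ℂ] SecA V t where
  toFun f := mkA (hL.maps _ (rep_VF f))
  map_add' := by
    intro f g
    ext1
    funext x
    have h1 : L (rep (f + g)) x = L (fun y => rep f y + rep g y) x := by
      refine hL.congr _ _ (rep_VF _) ((rep_VF f).add (rep_VF g)) ?_ x x.2
      intro y hy
      have h2 := rep_eq (f + g) ⟨y, hy⟩
      have h3 := rep_eq f ⟨y, hy⟩
      have h4 := rep_eq g ⟨y, hy⟩
      simp only at h2 h3 h4
      rw [← h2, ← h3, ← h4]
      rfl
    change L (rep (f + g)) x = L (rep f) x + L (rep g) x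
    rw [h1, hL.add _ _ (rep_VF f) (rep_VF g) x x.2]
  map_smul' := by
    intro c f
    ext1
    funext x
    have h1 : L (rep (c • f)) x = L (fun y => c • rep f y) x := by
      refine hL.congr _ _ (rep_VF _) (TopHa_smul c (rep_VF f)) ?_ x x.2
      intro y hy
      have h2 := rep_eq (c • f) ⟨y, hy⟩
      have h3 := rep_eq f ⟨y, hy⟩
      simp only at h2 h3
      rw [← h2, ← h3]
      rfl
    change L (rep (c • f)) x = c • L (rep f) x
    rw [h1, hL.smul c _ (rep_VF f) x x.2]

theorem mkL_spec {L : (En M → HF M κ) → (En M → HF M κ)} (hL : OpA V t L) {f : SecA V t}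
    {u : En M → HF M κ} (hu : VF V t u) (hf : ∀ x : V.carrier, f.1 x = u x) (x : V.carrier) :
    (mkL hL f).1 x = L u x := by
  change L (rep f) x = L u x
  refine hL.congr _ _ (rep_VF f) hu ?_ x x.2
  intro y hy
  have h2 := rep_eq f ⟨y, hy⟩
  have h3 := hf ⟨y, hy⟩
  rw [← h2, ← h3]

private theorem TopHa_ae (V : Geo n M) : ∀ᵐ x ∂V.μ, x ∈ V.carrier := by
  rw [ae_iff]
  exact V.μ_supp

private theorem TopHa_rep_add (f g : SecA V t) {x : En M} (hx : x ∈ V.carrier) :
    rep (f + g) x = rep f x + rep g x := by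
  have h2 := rep_eq (f + g) ⟨x, hx⟩
  have h3 := rep_eq f ⟨x, hx⟩
  have h4 := rep_eq g ⟨x, hx⟩
  simp only at h2 h3 h4
  rw [← h2, ← h3, ← h4]
  rfl

private theorem TopHa_rep_smul (c : ℂ) (f : SecA V t) {x : En M} (hx : x ∈ V.carrier) :
    rep (c • f) x = c • rep f x := by
  have h2 := rep_eq (c • f) ⟨x, hx⟩
  have h3 := rep_eq f ⟨x, hx⟩
  simp only at h2 h3
  rw [← h2, ← h3]
  rfl

theorem ip_integrable {u w : En M → HF M κ} (hu : ContDiff ℝ ∞ u) (hw : ContDiff ℝ ∞ w) :
    Integrable (fun x => inner ℂ (u x) (w x)) V.μ := by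
  have hc : Continuous fun x => (inner ℂ (u x) (w x) : ℂ) := hu.continuous.inner hw.continuous
  have := V.μ_fin
  obtain ⟨C, hC⟩ := V.compact.exists_bound_of_continuousOn hc.continuousOn
  refine Integrable.of_bound hc.aestronglyMeasurable C ?_
  have h1 : ∀ᵐ x ∂V.μ, x ∈ V.carrier := by
    rw [ae_iff]
    exact V.μ_supp
  filter_upwards [h1] with x hx using hC x hx

/-- The scalar product. -/
noncomputable def ipA (V : Geo n M) (t : Tw M κ) : SecA V t →ₗ⋆[ℂ] SecA V t →ₗ[ℂ] ℂ :=
  LinearMap.mk₂'ₛₗ (starRingEnd ℂ) (RingHom.id ℂ)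
    (fun f g => ∫ x, inner ℂ (rep f x) (rep g x) ∂V.μ)
    (by
      intro f f' g
      rw [← integral_add (ip_integrable (rep_VF f).smooth (rep_VF g).smooth)
        (ip_integrable (rep_VF f').smooth (rep_VF g).smooth)]
      refine integral_congr_ae ?_
      filter_upwards [TopHa_ae V] with x hx
      rw [TopHa_rep_add f f' hx, inner_add_left])
    (by
      intro c f g
      rw [smul_eq_mul, ← integral_const_mul]
      refine integral_congr_ae ?_
      filter_upwards [TopHa_ae V] with x hx
      rw [TopHa_rep_smul c f hx, inner_smul_left])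
    (by
      intro f g g'
      rw [← integral_add (ip_integrable (rep_VF f).smooth (rep_VF g).smooth)
        (ip_integrable (rep_VF f).smooth (rep_VF g').smooth)]
      refine integral_congr_ae ?_
      filter_upwards [TopHa_ae V] with x hx
      rw [TopHa_rep_add g g' hx, inner_add_right])
    (by
      intro c f g
      rw [RingHom.id_apply, smul_eq_mul, ← integral_const_mul]
      refine integral_congr_ae ?_
      filter_upwards [TopHa_ae V] with x hx
      rw [TopHa_rep_smul c g hx, inner_smul_right])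

theorem ipA_spec {f g : SecA V t} {u w : En M → HF M κ} (hf : ∀ x : V.carrier, f.1 x = u x)
    (hg : ∀ x : V.carrier, g.1 x = w x) : ipA V t f g = ∫ x, inner ℂ (u x) (w x) ∂V.μ := by
  change ∫ x, inner ℂ (rep f x) (rep g x) ∂V.μ = _
  refine integral_congr_ae ?_
  filter_upwards [TopHa_ae V] with x hx
  rw [← hf ⟨x, hx⟩, ← hg ⟨x, hx⟩, rep_eq f ⟨x, hx⟩, rep_eq g ⟨x, hx⟩]

theorem ipA_symm (f g : SecA V t) : ipA V t f g = conj (ipA V t g f) := by
  change ∫ x, inner ℂ (rep f x) (rep g x) ∂V.μ = conj (∫ x, inner ℂ (rep g x) (rep f x) ∂V.μ)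
  rw [← integral_conj]
  refine integral_congr_ae (Eventually.of_forall fun x => ?_)
  exact (inner_conj_symm _ _).symm

private theorem TopHa_self (f : SecA V t) :
    ipA V t f f = ((∫ x, ‖rep f x‖ ^ 2 ∂V.μ : ℝ) : ℂ) := by
  change ∫ x, inner ℂ (rep f x) (rep f x) ∂V.μ = _
  have h1 : ((∫ x, ‖rep f x‖ ^ 2 ∂V.μ : ℝ) : ℂ) = ∫ x, ((‖rep f x‖ ^ 2 : ℝ) : ℂ) ∂V.μ :=
    (integral_ofReal (𝕜 := ℂ)).symm
  rw [h1]
  refine integral_congr_ae (Eventually.of_forall fun x => ?_)
  simp only [inner_self_eq_norm_sq_to_K]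
  push_cast
  rfl

theorem ipA_nonneg (f : SecA V t) : 0 ≤ (ipA V t f f).re := by
  rw [TopHa_self, Complex.ofReal_re]
  exact integral_nonneg fun x => sq_nonneg _

theorem ipA_defin (hpos : ∀ x ∈ V.carrier, ∀ r : ℝ, 0 < r → 0 < V.μ (Metric.ball x r))
    (f : SecA V t) (h : ipA V t f f = 0) : f = 0 := by
  have := V.μ_fin
  rw [TopHa_self, Complex.ofReal_eq_zero] at h
  have hc : Continuous fun x => ‖rep f x‖ ^ 2 := (rep_VF f).smooth.continuous.norm.pow 2
  have hi : Integrable (fun x => ‖rep f x‖ ^ 2) V.μ := by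
    obtain ⟨C, hC⟩ := V.compact.exists_bound_of_continuousOn hc.continuousOn
    refine Integrable.of_bound hc.aestronglyMeasurable C ?_
    filter_upwards [TopHa_ae V] with x hx using hC x hx
  rw [integral_eq_zero_iff_of_nonneg (fun x => sq_nonneg _) hi] at h
  have hz : ∀ x ∈ V.carrier, rep f x = 0 := by
    intro x hx
    by_contra hne
    have hpos' : 0 < ‖rep f x‖ ^ 2 := by
      have := norm_pos_iff.2 hne
      positivity
    have hev : ∀ᶠ y in 𝓝 x, 0 < ‖rep f y‖ ^ 2 := hc.continuousAt.eventually (lt_mem_nhds hpos')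
    obtain ⟨r, hr, hb⟩ := Metric.eventually_nhds_iff_ball.1 hev
    have h0 : V.μ (Metric.ball x r) = 0 := by
      refine measure_mono_null ?_ (ae_iff.1 h)
      intro y hy
      have := hb y hy
      simp only [Set.mem_ofPred_eq, Pi.zero_apply]
      exact ne_of_gt this
    exact absurd h0 (hpos x hx r hr).ne'
  ext1
  funext x
  rw [rep_eq f x, hz x x.2]
  rfl

end

end Pool.Agent.EXO
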