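import Pool.Agent.EXO.TopOp
import Pool.Agent.EXO.TopHa
import Pool.Agent.EXO.IcSym

/-!
# EXO / TopAdj: `δ` is the adjoint of `d`

PROOF.  Write `δ u = 𝔇.op u - dV V t u`, a form (`VF`) by `𝔇.op_isSec`, `isSec_iff`, `VF.sub`; on `V`
`δ u = dlV V tm u` (`op_eq`).
(0) For `u` VF, `dg j u := fun x => dg j (u x)` is VF (`Lam_dg`, `ten_dg`).
(1) `inner ℂ (dg j a) (dg k b) = 0` for `j ≠ k` (`dg j a` and `dg k b` have disjoint supports in `S`: expand the inner
product of `EuclideanSpace`).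
(2) Let `u = dg j u`, `w = dg k w` on `V`.  On `V`: `dV u = dg (j+1) (dV u)` and `δ w = dg (k-1) (δ w)` if `k ≥ 1`,
`δ w = 0` if `k = 0` (`dg_dV'`, `dg_dl` with `dV_congr` resp. the locality of `𝔇.op`; for `k = 0`:
`dg i (δ w) = dlV V tm (dg (i+1) w) = 0` for all `i`, since `dg (i+1) (w y) = dg (i+1) (dg 0 (w y)) = 0` on `V`; `sum_dg`).
`𝔇.op_symm hG` gives `∫ ⟨dV u, w⟩ + ∫ ⟨δ u, w⟩ = ∫ ⟨u, dV w⟩ + ∫ ⟨u, δ w⟩` (integrability: `ip_integrable`,
and functions which agree on `V` are equal almost everywhere).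
If `k = j + 1`: `⟨δ u, w⟩ = 0` (degrees `j - 1` and `j + 1`) and `⟨u, dV w⟩ = 0` (degrees `j` and `j + 2`) on `V`.
If `k ≠ j + 1`: `⟨dV u, w⟩ = 0` (degrees `j + 1`, `k`) and `⟨u, δ w⟩ = 0` (degrees `j`, `k - 1`).
(3) General `u`, `w`: `u = ∑ j ∈ range (M+1), dg j u`, `w = ∑ k, dg k w` (`sum_dg`); `dV` and `δ` are additive
(`dV_add`, `𝔇.op_add`; induction over the finite sum) and the integral of a finite sum is the sum of the
integrals.
-/

set_option autoImplicit false
set_option maxSynthPendingDepth 3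

open Set MeasureTheory Matrix Filter Topology
open scoped ContDiff ENNReal ComplexConjugate

namespace Pool.Agent.EXO

variable {M : ℕ} {V : OrGeo 14 M} {ι : Type} [Fintype ι] [DecidableEq ι] {E' : Bd V.toGeo ι}
  {θ : Fin M → En M → Matrix ι ι ℂ} {𝔇 : Dirac V.toGeo (HF M ι)} {t tm : Tw M ι}

theorem inner_dg_dg {m : ℕ} {κ : Type*} [Fintype κ] {j k : ℕ} (hjk : j ≠ k) (a b : HF m κ) :
    inner ℂ (dg j a) (dg k b) = 0 := by
  rw [inner_hf]
  refine Finset.sum_eq_zero fun S _ => ?_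
  rw [cpt_dg, cpt_dg]
  by_cases h1 : S.card = j
  · rw [if_neg (fun h2 => hjk (h1.symm.trans h2)), inner_zero_right]
  · rw [if_neg h1, inner_zero_left]

private theorem topadj_inner_left {m : ℕ} {κ : Type*} [Fintype κ] (j : ℕ) (a b : HF m κ) :
    inner ℂ (dg j a) b = inner ℂ (dg j a) (dg j b) := by
  rw [inner_hf, inner_hf]
  refine Finset.sum_congr rfl fun S _ => ?_
  rw [cpt_dg, cpt_dg]
  split_ifs
  · rfl
  · rw [inner_zero_left, inner_zero_left]

private theorem topadj_inner_right {m : ℕ} {κ : Type*} [Fintype κ] (j : ℕ) (a b : HF m κ) :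
    inner ℂ a (dg j b) = inner ℂ (dg j a) (dg j b) := by
  rw [inner_hf, inner_hf]
  refine Finset.sum_congr rfl fun S _ => ?_
  rw [cpt_dg, cpt_dg]
  split_ifs
  · rfl
  · rw [inner_zero_right, inner_zero_right]

omit [DecidableEq ι] in
private theorem topadj_smooth_dg {u : En M → HF M ι} (hu : ContDiff ℝ ∞ u) (j : ℕ) :
    ContDiff ℝ ∞ fun x => dg j (u x) :=
  ((dg j : HF M ι →L[ℂ] HF M ι).restrictScalars ℝ).contDiff.comp hu

private theorem topadj_VF_dg {n : ℕ} {V' : Geo n M} {t' : Tw M ι} {u : En M → HF M ι}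
    (hu : VF V' t' u) (j : ℕ) : VF V' t' fun x => dg j (u x) where
  smooth := topadj_smooth_dg hu.smooth j
  tan := fun x hx => by rw [Lam_dg, hu.tan x hx]
  sec := fun x hx => by rw [ten_dg, hu.sec x hx]

theorem VF.dg {n : ℕ} {V' : Geo n M} {t' : Tw M ι} {u : En M → HF M ι} (hu : VF V' t' u)
    (j : ℕ) : VF V' t' fun x => dg j (u x) :=
  topadj_VF_dg hu j

private theorem topadj_del (h : SigTw V E' θ 𝔇 t tm) (ht : t.Smooth) (hV : t.OnV V.toGeo)
    {u : En M → HF M ι} (hu : VF V.toGeo t u) :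
    VF V.toGeo t fun x => 𝔇.op u x - dV V.toGeo t u x :=
  (h.isSec_iff.mp (𝔇.op_isSec (h.isSec_iff.mpr hu))).sub (hu.dV ht hV)

omit [DecidableEq ι] in
private theorem topadj_dl0 {u : En M → HF M ι} {x : En M} (hx : x ∈ V.carrier)
    (hu : DifferentiableAt ℝ u x) (h0 : ∀ y ∈ V.carrier, u y = 0) :
    dlV V.toGeo tm u x = 0 := by
  unfold dlV
  rw [neg_eq_zero]
  refine Finset.sum_eq_zero fun a _ => ?_
  rw [covV_congr hx hu (differentiableAt_const (0 : HF M ι))
    (Eventually.of_forall fun y hy => h0 y hy)]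
  unfold covV
  simp

private theorem topadj_del_deg (h : SigTw V E' θ 𝔇 t tm) {w : En M → HF M ι}
    (hw : VF V.toGeo t w) {k i : ℕ} (hk : ∀ y ∈ V.carrier, dg k (w y) = w y) (hik : i + 1 ≠ k)
    {x : En M} (hx : x ∈ V.carrier) : dg i (𝔇.op w x - dV V.toGeo t w x) = 0 := by
  rw [h.op_eq hw hx, add_sub_cancel_left, dg_dl (hw.smooth.differentiable (by simp) x)]
  refine topadj_dl0 hx ((topadj_smooth_dg hw.smooth (i + 1)).differentiable (by simp) x) ?_
  intro y hy
  rw [← hk y hy, dg_dg, if_neg hik]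

private theorem topadj_zero {f : En M → ℂ} (hf : ∀ x ∈ V.carrier, f x = 0) :
    ∫ x, f x ∂V.μ = 0 := by
  have hae : ∀ᵐ x ∂V.μ, x ∈ V.carrier := V.μ_supp
  exact integral_eq_zero_of_ae (hae.mono fun x hx => hf x hx)

private theorem topadj_pure (h : SigTw V E' θ 𝔇 t tm) (ht : t.Smooth) (hV : t.OnV V.toGeo)
    (hG : V.toGeo.Good 7) {u w : En M → HF M ι} (hu : VF V.toGeo t u) (hw : VF V.toGeo t w)
    {j k : ℕ} (hj : ∀ y ∈ V.carrier, dg j (u y) = u y) (hk : ∀ y ∈ V.carrier, dg k (w y) = w y) :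
    ∫ x, inner ℂ (dV V.toGeo t u x) (w x) ∂V.μ =
      ∫ x, inner ℂ (u x) (𝔇.op w x - dV V.toGeo t w x) ∂V.μ := by
  have hDu := (hu.dV ht hV).smooth
  have hDw := (hw.dV ht hV).smooth
  have hδu := (topadj_del h ht hV hu).smooth
  have hδw := (topadj_del h ht hV hw).smooth
  have hud : ∀ x, DifferentiableAt ℝ u x := fun x => hu.smooth.differentiable (by simp) x
  have hwd : ∀ x, DifferentiableAt ℝ w x := fun x => hw.smooth.differentiable (by simp) x
  by_cases hjk : k = j + 1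
  · have hs := 𝔇.op_symm hG (h.isSec_iff.mpr hu) (h.isSec_iff.mpr hw)
    have e1 : ∫ x, inner ℂ (𝔇.op u x) (w x) ∂V.μ =
        (∫ x, inner ℂ (dV V.toGeo t u x) (w x) ∂V.μ) +
          ∫ x, inner ℂ (𝔇.op u x - dV V.toGeo t u x) (w x) ∂V.μ := by
      rw [← integral_add (ip_integrable hDu hw.smooth) (ip_integrable hδu hw.smooth)]
      refine integral_congr_ae (Eventually.of_forall fun x => ?_)
      simp only
      rw [← inner_add_left, add_sub_cancel]
    have e2 : ∫ x, inner ℂ (u x) (𝔇.op w x) ∂V.μ =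
        (∫ x, inner ℂ (u x) (dV V.toGeo t w x) ∂V.μ) +
          ∫ x, inner ℂ (u x) (𝔇.op w x - dV V.toGeo t w x) ∂V.μ := by
      rw [← integral_add (ip_integrable hu.smooth hDw) (ip_integrable hu.smooth hδw)]
      refine integral_congr_ae (Eventually.of_forall fun x => ?_)
      simp only
      rw [← inner_add_right, add_sub_cancel]
    have e3 : ∫ x, inner ℂ (𝔇.op u x - dV V.toGeo t u x) (w x) ∂V.μ = 0 := by
      refine topadj_zero fun x hx => ?_
      rw [← hk x hx, topadj_inner_right, topadj_del_deg h hu hj (by omega) hx, inner_zero_left]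
    have e4 : ∫ x, inner ℂ (u x) (dV V.toGeo t w x) ∂V.μ = 0 := by
      refine topadj_zero fun x hx => ?_
      rw [← hj x hx, ← dg_dV hx (hwd x) hk, inner_dg_dg (by omega)]
    rw [e1, e2, e3, e4, add_zero, zero_add] at hs
    exact hs
  · rw [topadj_zero, topadj_zero]
    · intro x hx
      rw [← hj x hx, topadj_inner_left, topadj_del_deg h hw hk (Ne.symm hjk) hx,
        inner_zero_right]
    · intro x hx
      rw [← hk x hx, ← dg_dV hx (hud x) hj, inner_dg_dg (Ne.symm hjk)]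

private theorem topadj_addl (h : SigTw V E' θ 𝔇 t tm) (ht : t.Smooth) (hV : t.OnV V.toGeo)
    {u u' w : En M → HF M ι} (hu : VF V.toGeo t u) (hu' : VF V.toGeo t u') (hw : VF V.toGeo t w)
    (h1 : ∫ x, inner ℂ (dV V.toGeo t u x) (w x) ∂V.μ =
      ∫ x, inner ℂ (u x) (𝔇.op w x - dV V.toGeo t w x) ∂V.μ)
    (h2 : ∫ x, inner ℂ (dV V.toGeo t u' x) (w x) ∂V.μ =
      ∫ x, inner ℂ (u' x) (𝔇.op w x - dV V.toGeo t w x) ∂V.μ) :
    ∫ x, inner ℂ (dV V.toGeo t (fun y => u y + u' y) x) (w x) ∂V.μ =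
      ∫ x, inner ℂ (u x + u' x) (𝔇.op w x - dV V.toGeo t w x) ∂V.μ := by
  have e1 : ∫ x, inner ℂ (dV V.toGeo t (fun y => u y + u' y) x) (w x) ∂V.μ =
      (∫ x, inner ℂ (dV V.toGeo t u x) (w x) ∂V.μ) +
        ∫ x, inner ℂ (dV V.toGeo t u' x) (w x) ∂V.μ := by
    rw [← integral_add (ip_integrable (hu.dV ht hV).smooth hw.smooth)
      (ip_integrable (hu'.dV ht hV).smooth hw.smooth)]
    refine integral_congr_ae (Eventually.of_forall fun x => ?_)
    simp only
    rw [dV_add (hu.smooth.differentiable (by simp) x) (hu'.smooth.differentiable (by simp) x),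
      inner_add_left]
  have e2 : ∫ x, inner ℂ (u x + u' x) (𝔇.op w x - dV V.toGeo t w x) ∂V.μ =
      (∫ x, inner ℂ (u x) (𝔇.op w x - dV V.toGeo t w x) ∂V.μ) +
        ∫ x, inner ℂ (u' x) (𝔇.op w x - dV V.toGeo t w x) ∂V.μ := by
    rw [← integral_add (ip_integrable hu.smooth (topadj_del h ht hV hw).smooth)
      (ip_integrable hu'.smooth (topadj_del h ht hV hw).smooth)]
    refine integral_congr_ae (Eventually.of_forall fun x => ?_)
    simp only
    rw [inner_add_left]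
  rw [e1, e2, h1, h2]

private theorem topadj_addr (h : SigTw V E' θ 𝔇 t tm) (ht : t.Smooth) (hV : t.OnV V.toGeo)
    {u w w' : En M → HF M ι} (hu : VF V.toGeo t u) (hw : VF V.toGeo t w) (hw' : VF V.toGeo t w')
    (h1 : ∫ x, inner ℂ (dV V.toGeo t u x) (w x) ∂V.μ =
      ∫ x, inner ℂ (u x) (𝔇.op w x - dV V.toGeo t w x) ∂V.μ)
    (h2 : ∫ x, inner ℂ (dV V.toGeo t u x) (w' x) ∂V.μ =
      ∫ x, inner ℂ (u x) (𝔇.op w' x - dV V.toGeo t w' x) ∂V.μ) :
    ∫ x, inner ℂ (dV V.toGeo t u x) (w x + w' x) ∂V.μ =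
      ∫ x, inner ℂ (u x) (𝔇.op (fun y => w y + w' y) x -
        dV V.toGeo t (fun y => w y + w' y) x) ∂V.μ := by
  have e1 : ∫ x, inner ℂ (dV V.toGeo t u x) (w x + w' x) ∂V.μ =
      (∫ x, inner ℂ (dV V.toGeo t u x) (w x) ∂V.μ) +
        ∫ x, inner ℂ (dV V.toGeo t u x) (w' x) ∂V.μ := by
    rw [← integral_add (ip_integrable (hu.dV ht hV).smooth hw.smooth)
      (ip_integrable (hu.dV ht hV).smooth hw'.smooth)]
    refine integral_congr_ae (Eventually.of_forall fun x => ?_)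
    simp only
    rw [inner_add_right]
  have e2 : ∫ x, inner ℂ (u x) (𝔇.op (fun y => w y + w' y) x -
        dV V.toGeo t (fun y => w y + w' y) x) ∂V.μ =
      (∫ x, inner ℂ (u x) (𝔇.op w x - dV V.toGeo t w x) ∂V.μ) +
        ∫ x, inner ℂ (u x) (𝔇.op w' x - dV V.toGeo t w' x) ∂V.μ := by
    rw [← integral_add (ip_integrable hu.smooth (topadj_del h ht hV hw).smooth)
      (ip_integrable hu.smooth (topadj_del h ht hV hw').smooth)]
    refine integral_congr_ae (Eventually.of_forall fun x => ?_)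
    simp only
    rw [dV_add (hw.smooth.differentiable (by simp) x) (hw'.smooth.differentiable (by simp) x),
      𝔇.op_add hw.smooth hw'.smooth, ← inner_add_right]
    congr 1
    abel
  rw [e1, e2, h1, h2]

omit [DecidableEq ι] in
private theorem topadj_VF_zero : VF V.toGeo t fun _ => (0 : HF M ι) where
  smooth := contDiff_const
  tan := fun _ _ => map_zero _
  sec := fun _ _ => map_zero _

omit [DecidableEq ι] in
private theorem topadj_dV_zero (x : En M) : dV V.toGeo t (fun _ => (0 : HF M ι)) x = 0 := by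
  unfold dV covV
  simp

theorem SigTw.adj (h : SigTw V E' θ 𝔇 t tm) (ht : t.Smooth) (hV : t.OnV V.toGeo)
    (hG : V.toGeo.Good 7) {u w : En M → HF M ι} (hu : VF V.toGeo t u) (hw : VF V.toGeo t w) :
    ∫ x, inner ℂ (dV V.toGeo t u x) (w x) ∂V.μ =
      ∫ x, inner ℂ (u x) (𝔇.op w x - dV V.toGeo t w x) ∂V.μ := by
  -- `u` homogeneous, `w` arbitrary
  have step : ∀ (j : ℕ) (s : Finset ℕ),
      VF V.toGeo t (fun x => ∑ k ∈ s, dg k (w x)) ∧
      ∫ x, inner ℂ (dV V.toGeo t (fun y => dg j (u y)) x) (∑ k ∈ s, dg k (w x)) ∂V.μ =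
      ∫ x, inner ℂ (dg j (u x)) (𝔇.op (fun y => ∑ k ∈ s, dg k (w y)) x -
        dV V.toGeo t (fun y => ∑ k ∈ s, dg k (w y)) x) ∂V.μ := by
    intro j s
    induction s using Finset.induction_on with
    | empty =>
      simp only [Finset.sum_empty]
      refine ⟨topadj_VF_zero, ?_⟩
      rw [topadj_zero (fun x _ => inner_zero_right _), topadj_zero]
      intro x _
      rw [topadj_dV_zero, sub_zero]
      have h1 : 𝔇.op (fun _ => (0 : HF M ι)) x = 0 := by
        unfold Dirac.op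
        simp
      rw [h1, inner_zero_right]
    | insert k s hk ih =>
      simp only [Finset.sum_insert hk]
      refine ⟨(topadj_VF_dg hw k).add ih.1, ?_⟩
      refine topadj_addr h ht hV (topadj_VF_dg hu j) (topadj_VF_dg hw k) ih.1 ?_ ih.2
      exact topadj_pure h ht hV hG (topadj_VF_dg hu j) (topadj_VF_dg hw k) (j := j) (k := k)
        (fun y _ => by rw [dg_dg, if_pos rfl]) (fun y _ => by rw [dg_dg, if_pos rfl])
  have step1 : ∀ j : ℕ, ∫ x, inner ℂ (dV V.toGeo t (fun y => dg j (u y)) x) (w x) ∂V.μ =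
      ∫ x, inner ℂ (dg j (u x)) (𝔇.op w x - dV V.toGeo t w x) ∂V.μ := by
    intro j
    have h1 := (step j (Finset.range (M + 1))).2
    simp only [sum_dg] at h1
    exact h1
  have step2 : ∀ s : Finset ℕ, VF V.toGeo t (fun x => ∑ j ∈ s, dg j (u x)) ∧
      ∫ x, inner ℂ (dV V.toGeo t (fun y => ∑ j ∈ s, dg j (u y)) x) (w x) ∂V.μ =
      ∫ x, inner ℂ (∑ j ∈ s, dg j (u x)) (𝔇.op w x - dV V.toGeo t w x) ∂V.μ := by
    intro s
    induction s using Finset.induction_on with
    | empty =>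
      simp only [Finset.sum_empty]
      refine ⟨topadj_VF_zero, ?_⟩
      rw [topadj_zero (fun x _ => by rw [topadj_dV_zero, inner_zero_left]),
        topadj_zero (fun x _ => inner_zero_left _)]
    | insert j s hj ih =>
      simp only [Finset.sum_insert hj]
      refine ⟨(topadj_VF_dg hu j).add ih.1, ?_⟩
      exact topadj_addl h ht hV (topadj_VF_dg hu j) ih.1 hw (step1 j) ih.2
  have h2 := (step2 (Finset.range (M + 1))).2
  simp only [sum_dg] at h2
  exact h2

end Pool.Agent.EXO
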