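import Pool.Agent.EXO.TopNo
import Pool.Agent.EXO.TopGp
import Pool.Agent.EXO.FmP3

/-!
# EXO / TopBox: a closed form of degree 8 supported in a box is exact with a primitive supported in the box

Proof.  `Ω = {z | p3 z ∈ C.O}` (open, invariant under translations in the directions `i < 8`), `R = R15 C.rho`,
`t = tC C E` (good on `Ω`, active in the directions `i < 8`).
(1) `w z = if z ∈ dom gK C.O 20000 then pull K.Ψ γ z else 0`.  For `z ∈ dom gK C.O 20000`: if `w z ≠ 0`, then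
`γ (K.Ψ z) ≠ 0`, so `K.Ψ z = K.Ψ z'` with `z' ∈ dom gK N 20000`, `‖p1 z'‖² ≤ 4/11`, `4 ≤ ‖p2 z'‖² ≤ 9`; apply `K.Φ`
(`Phi_Psi`, `R_fix`): `R z = z'`, so `p1 z = p1 z'`, `p2 z = p2 z'`.  Hence `w` vanishes outside the closed set
`Z = {‖p1 z‖² ≤ 4/11, 4 ≤ ‖p2 z‖² ≤ 9}`, on which `gK z ≤ ‖p1 z‖² < 20000` (`gK_le1`).  So `w` is smooth on `Ω`
(on `dom gK C.O 20000`, open, it is `pull K.Ψ γ`; near a point of `Ω` with `20000 ≤ gK z` it is `0` as `Z` is
closed and does not contain it).  `w` is a section of `t` over `Ω` (`sec_pull`, `tV_K`), `dg 8 w = w`,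
`t.d w = 0` on `Ω` (`VPiece.pull_dV`, `Tw.d_congr`), and `w z = 0` unless `|z i| ≤ 3` for all `i < 8`.
(2) P3 of FmP3 with the list `L` of the `8` directions `i < 8` and the box `[-3, 3]^8`: the fibre integral
`f = fibL L w` is a closed section of degree `0` which does not depend on the variables `i < 8`, so `f = 0`
on `Ω` by `noPar_form`.  So there is a section `β` of `t` over `Ω` of degree `7` with `t.d β = w` on `Ω` and
`β z = 0` unless `|z i| ≤ 3` for all `i < 8`.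
(3) `C0 = K.Ψ '' {z | (∀ i < 8, |z i| ≤ 3) ∧ p3 z ∈ N}`: compact (continuous image of a compact set; there
`gK z ≤ ‖p1 z‖² ≤ 36 < 20000`) and contained in `V ∩ K.O`.  Cut-off `χ` (`exists_cutoff`, `A = C0`, `O = K.O`),
`v` smooth with `v = K.extF χ β` on `V` (`ext_exists`), `VF` by `ext_VF`, of degree `7` by `dg_ext` (take `dg 7 β`).
For `z ∈ dom gK C.O 20000`: `pull K.Ψ v z = χ (K.Ψ z) • pull R β z = pull R β z` (`pull_ext`): if `|z i| ≤ 3` for all
`i < 8` then `K.Ψ z = K.Ψ (R z) ∈ C0` and `χ = 1`, otherwise `β (R z) = 0`.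
(4) For `y ∈ V ∩ K.O`: `dV v y = γ y` by `dV_eq` (`t.d β = w = pull K.Ψ γ` at `K.Φ y`, `Tw.d_congr`, `tV_K`).  For
`y ∈ V`, `y ∉ K.O`: `y ∉ tsupport χ`, so `v = 0` on `V` near `y` and `dV v y = 0` (`dV_congr` with `0`), while
`γ y = 0` by `hs`.  If `y ∈ V`, `y ∉ C0` then `v y = 0`: clear if `y ∉ K.O`; otherwise `z = K.Φ y` is not in the box
(`K.Ψ z = y`), `β z = 0`, `v y = χ y • Lam _ (pull K.Φ β y) = 0`.
-/

set_option autoImplicit false
set_option maxSynthPendingDepth 3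

open Set MeasureTheory Matrix Filter Topology
open scoped ContDiff ENNReal ComplexConjugate

namespace Pool.Agent.EXO

variable {N : OrGeo 6 7} {C : Collar N.carrier} {l δ : ℝ} (𝒱 : VData N C l δ)
  {ι : Type} [Fintype ι] [DecidableEq ι] (E : FlatBd N.toGeo ι)

/-- The local form extended by zero: section and closed. -/
theorem zex_sec {g : En 15 → ℝ} (hg : GOk g) (p : VPiece C 𝒱.V.carrier g)
    (hp : ∀ z ∈ dom g C.O 20000,
      ((tV 𝒱 E).pull p.Ψ).e z = (tC C E).e z ∧ ((tV 𝒱 E).pull p.Ψ).b z = (tC C E).b z)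
    {u : En 𝒱.M → HF 𝒱.M ι} (hu : VF 𝒱.V.toGeo (tV 𝒱 E) u)
    (hd : ∀ y ∈ 𝒱.V.carrier, dV 𝒱.V.toGeo (tV 𝒱 E) u y = 0)
    (hn : ∀ z, p3 z ∈ C.O → 20000 ≤ g z → p.zex u =ᶠ[𝓝 z] fun _ => 0) :
    (tC C E).Sec {z | p3 z ∈ C.O} (p.zex u) ∧
      ∀ z ∈ {z : En 15 | p3 z ∈ C.O}, (tC C E).d (p.zex u) z = 0 := by
  have hloc : ∀ z ∈ dom g C.O 20000, p.zex u =ᶠ[𝓝 z] pull p.Ψ u := by
    intro z hz
    filter_upwards [(isOpen_dom hg C.openO _).mem_nhds hz] with z' hz'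
    unfold VPiece.zex
    rw [if_pos hz']
  refine ⟨⟨fun z hz => ?_, fun z hz => ?_⟩, fun z hz => ?_⟩
  · refine ContDiffAt.contDiffWithinAt ?_
    rcases lt_or_ge (g z) 20000 with hlt | hge
    · have hzd : z ∈ dom g C.O 20000 := ⟨hlt, hz⟩
      exact ((p.sec_pull hg hu).1.contDiffAt
        ((isOpen_dom hg C.openO _).mem_nhds hzd)).congr_of_eventuallyEq (hloc z hzd)
    · exact contDiffAt_const.congr_of_eventuallyEq (hn z hz hge)
  · rcases lt_or_ge (g z) 20000 with hlt | hge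
    · have hzd : z ∈ dom g C.O 20000 := ⟨hlt, hz⟩
      rw [(hloc z hzd).eq_of_nhds, ← (hp z hzd).1]
      exact (p.sec_pull hg hu).2 z hzd
    · rw [(hn z hz hge).eq_of_nhds, map_zero]
  · rcases lt_or_ge (g z) 20000 with hlt | hge
    · have hzd : z ∈ dom g C.O 20000 := ⟨hlt, hz⟩
      rw [Tw.d_congr (hp z hzd).1.symm (hp z hzd).2.symm (hloc z hzd),
        ← p.pull_dV hg hu hzd]
      unfold pull
      rw [hd _ (p.maps z hzd).1, map_zero]
    · rw [Tw.d_congr rfl rfl (hn z hz hge)]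
      exact Tw.d_zero _ _

/-! ### Coordinates -/

theorem R15_coord (ρ : En 7 → En 7) (z : En 15) {i : Fin 15} (hi : i.1 < 8) :
    R15 ρ z i = z i := by
  unfold R15 j15
  by_cases h : i.1 < 4
  · simp only [h, dite_true]
    exact congrArg z (Fin.ext (by simp))
  · simp only [h, hi, dite_true, dite_false]
    exact congrArg z (Fin.ext (by simp; omega))

theorem coord_le1 (z : En 15) (i : Fin 15) (hi : i.1 < 4) : |z i| ≤ ‖p1 z‖ := by
  have h := PiLp.norm_apply_le (p1 z) ⟨i.1, hi⟩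
  rwa [Real.norm_eq_abs] at h

theorem coord_le2 (z : En 15) (i : Fin 15) (hi : 4 ≤ i.1) (hi' : i.1 < 8) :
    |z i| ≤ ‖p2 z‖ := by
  have h := PiLp.norm_apply_le (p2 z) ⟨i.1 - 4, by omega⟩
  rw [Real.norm_eq_abs] at h
  have h2 : (p2 z) ⟨i.1 - 4, by omega⟩ = z i := by
    change z ⟨4 + (i.1 - 4), _⟩ = z i
    exact congrArg z (Fin.ext (by simp; omega))
  rwa [h2] at h

theorem norm_p1_le (z : En 15) (h : ∀ i : Fin 15, i.1 < 8 → |z i| ≤ 4) : ‖p1 z‖ ^ 2 ≤ 64 := by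
  rw [EuclideanSpace.norm_sq_eq]
  have h1 : ∀ i : Fin 4, ‖(p1 z) i‖ ^ 2 ≤ 16 := by
    intro i
    have h2 : |(p1 z) i| ≤ 4 := h ⟨i.1, by omega⟩ (by simp only; omega)
    rw [Real.norm_eq_abs]
    nlinarith [abs_nonneg ((p1 z) i)]
  calc ∑ i : Fin 4, ‖(p1 z) i‖ ^ 2 ≤ ∑ _i : Fin 4, (16 : ℝ) := Finset.sum_le_sum fun i _ => h1 i
    _ = 64 := by simp; norm_num

theorem compact_box {N : Set (En 7)} (hN : IsCompact N) :
    IsCompact {z : En 15 | (∀ i : Fin 15, i.1 < 8 → |z i| ≤ 4) ∧ p3 z ∈ N} := by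
  have hX : IsCompact {x : En 4 | ∀ i, |x i| ≤ 4} := by
    refine Metric.isCompact_of_isClosed_isBounded ?_ ?_
    · rw [Set.setOf_forall]
      refine isClosed_iInter fun i => ?_
      exact isClosed_le ((contDiff_coord i).continuous.abs) continuous_const
    · refine (Metric.isBounded_closedBall (x := (0 : En 4)) (r := 8)).subset fun x hx => ?_
      rw [mem_closedBall_zero_iff]
      have h1 : ‖x‖ ^ 2 ≤ 64 := by
        rw [EuclideanSpace.norm_sq_eq]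
        calc ∑ i : Fin 4, ‖x i‖ ^ 2 ≤ ∑ _i : Fin 4, (16 : ℝ) := Finset.sum_le_sum fun i _ => by
              have h2 : |x i| ≤ 4 := hx i
              rw [Real.norm_eq_abs]
              nlinarith [abs_nonneg (x i)]
          _ = 64 := by simp; norm_num
      nlinarith [norm_nonneg x]
  have hj : Continuous fun q : En 4 × En 4 × En 7 => j15 q.1 q.2.1 q.2.2 := by
    have h1 : ContDiffOn ℝ ∞ (fun q : En 4 × En 4 × En 7 => j15 q.1 q.2.1 q.2.2) univ :=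
      contDiffOn_j15 contDiff_fst.contDiffOn (contDiff_fst.comp contDiff_snd).contDiffOn
        (contDiff_snd.comp contDiff_snd).contDiffOn
    exact (contDiffOn_univ.1 h1).continuous
  have h2 := ((hX.prod (hX.prod hN))).image hj
  convert h2 using 1
  ext z
  simp only [mem_setOf_eq, mem_image, mem_prod, Prod.exists]
  constructor
  · rintro ⟨h3, h4⟩
    refine ⟨p1 z, p2 z, p3 z, ⟨fun i => h3 ⟨i.1, by omega⟩ (by simp only; omega),
      fun i => h3 ⟨4 + i.1, by omega⟩ (by simp only; omega), h4⟩, j15_p z⟩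
  · rintro ⟨x, y, w, ⟨hx, hy, hw⟩, rfl⟩
    refine ⟨fun i hi => ?_, by rw [p3_j15]; exact hw⟩
    by_cases h : i.1 < 4
    · have h5 : (j15 x y w) i = (p1 (j15 x y w)) ⟨i.1, h⟩ := rfl
      rw [h5, p1_j15]
      exact hx _
    · have h5 : (j15 x y w) i = (p2 (j15 x y w)) ⟨i.1 - 4, by omega⟩ :=
        congrArg (j15 x y w) (Fin.ext (by simp; omega))
      rw [h5, p2_j15]
      exact hy _

/-- The list of the first eight directions. -/
def L8 : List (Fin 15) := [0, 1, 2, 3, 4, 5, 6, 7]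

theorem L8_nodup : L8.Nodup := by decide

theorem L8_lt : ∀ i ∈ L8, i.1 < 8 := by decide

theorem mem_L8 : ∀ i : Fin 15, i.1 < 8 → i ∈ L8 := by decide

/-- A function invariant under the translations in the first eight directions only depends on
`p3`. -/
theorem eq_of_trans {X : Type*} {f : En 15 → X}
    (hf : ∀ i ∈ L8, ∀ (z : En 15) (r : ℝ), f (z + r • ee i) = f z) {z z' : En 15}
    (h : p3 z = p3 z') : f z = f z' := by
  have h1 : ∀ (c : Fin 15 → ℝ) (S : Finset (Fin 15)), (∀ i ∈ S, i ∈ L8) →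
      f (z + ∑ i ∈ S, c i • ee i) = f z := by
    intro c S
    induction S using Finset.induction_on with
    | empty => intro _; simp
    | insert a S ha ih =>
      intro hS
      rw [Finset.sum_insert ha, add_comm (c a • ee a), ← add_assoc,
        hf a (hS a (Finset.mem_insert_self _ _))]
      exact ih fun i hi => hS i (Finset.mem_insert_of_mem hi)
  have h2 : z' = z + ∑ i ∈ Finset.univ.filter (fun i : Fin 15 => i.1 < 8),
      (z' i - z i) • ee i := by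
    ext a
    have h3 : (z + ∑ i ∈ Finset.univ.filter (fun i : Fin 15 => i.1 < 8),
        (z' i - z i) • ee i : En 15) a =
        z a + ∑ i ∈ Finset.univ.filter (fun i : Fin 15 => i.1 < 8),
          (z' i - z i) * (if a = i then 1 else 0) := by
      rw [PiLp.add_apply, WithLp.ofLp_sum, Finset.sum_apply]
      congr 1
      refine Finset.sum_congr rfl fun i _ => ?_
      rw [PiLp.smul_apply, ee_apply, smul_eq_mul]
    rw [h3]
    by_cases ha : a.1 < 8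
    · rw [Finset.sum_eq_single a]
      · rw [if_pos rfl]
        ring
      · intro b _ hb
        rw [if_neg (Ne.symm hb), mul_zero]
      · intro h4
        exact absurd (Finset.mem_filter.2 ⟨Finset.mem_univ a, ha⟩ :
          a ∈ Finset.univ.filter fun i : Fin 15 => i.1 < 8) h4
    · rw [Finset.sum_eq_zero, add_zero]
      · have h4 : (p3 z) ⟨a.1 - 8, by omega⟩ = (p3 z') ⟨a.1 - 8, by omega⟩ := by rw [h]
        change z ⟨8 + (a.1 - 8), _⟩ = z' ⟨8 + (a.1 - 8), _⟩ at h4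
        have h5 : (⟨8 + (a.1 - 8), by omega⟩ : Fin 15) = a := Fin.ext (by simp; omega)
        rw [h5] at h4
        exact h4.symm
      · intro b hb
        rw [if_neg, mul_zero]
        rintro rfl
        exact ha (Finset.mem_filter.1 hb).2
  rw [h2]
  exact (h1 _ _ fun i hi => mem_L8 i (Finset.mem_filter.1 hi).2).symm

theorem box_exact (hE : E.NoPar) {γ : En 𝒱.M → HF 𝒱.M ι}
    (hγ : VF 𝒱.V.toGeo (tV 𝒱 E) γ) (h8 : ∀ y ∈ 𝒱.V.carrier, dg 8 (γ y) = γ y)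
    (hd : ∀ y ∈ 𝒱.V.carrier, dV 𝒱.V.toGeo (tV 𝒱 E) γ y = 0)
    (hs : ∀ y ∈ 𝒱.V.carrier, γ y ≠ 0 → ∃ z, p3 z ∈ N.carrier ∧ y = 𝒱.K.Ψ z ∧
      ‖p1 z‖ ^ 2 ≤ 4 / 11 ∧ 4 ≤ ‖p2 z‖ ^ 2 ∧ ‖p2 z‖ ^ 2 ≤ 9) :
    ∃ (v : En 𝒱.M → HF 𝒱.M ι) (C0 : Set (En 𝒱.M)), VF 𝒱.V.toGeo (tV 𝒱 E) v ∧
      (∀ y ∈ 𝒱.V.carrier, dg 7 (v y) = v y) ∧
      (∀ y ∈ 𝒱.V.carrier, dV 𝒱.V.toGeo (tV 𝒱 E) v y = γ y) ∧
      IsCompact C0 ∧ C0 ⊆ 𝒱.V.carrier ∩ 𝒱.K.O ∧ ∀ y ∈ 𝒱.V.carrier, y ∉ C0 → v y = 0 := by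
  have hopen : IsOpen {z : En 15 | p3 z ∈ C.O} := C.openO.preimage continuous_p3
  have hInv : ∀ i ∈ L8, InvC {z : En 15 | p3 z ∈ C.O} i := by
    intro i hi z hz r
    change p3 (z + r • ee i) ∈ C.O
    rw [p3_add z r (L8_lt i hi)]
    exact hz
  have hAct : ∀ i ∈ L8, (tC C E).ActOn {z : En 15 | p3 z ∈ C.O} i := fun i hi =>
    ⟨fun x _ r _ => (tC_act E (L8_lt i hi) x r).1, fun x _ r _ => (tC_act E (L8_lt i hi) x r).2.1,
      fun x _ => (tC_act E (L8_lt i hi) x 0).2.2⟩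
  have hgood : (tC C E).Good {z | p3 z ∈ C.O} := (tC_flat E).toGood
  -- (1) the form `w`
  have hw0 : ∀ z, 𝒱.K.zex γ z ≠ 0 → z ∈ dom gK C.O 20000 ∧
      ‖p1 z‖ ^ 2 ≤ 4 / 11 ∧ ‖p2 z‖ ^ 2 ≤ 9 := by
    intro z hz
    by_cases hzd : z ∈ dom gK C.O 20000
    · refine ⟨hzd, ?_⟩
      have h1 : γ (𝒱.K.Ψ z) ≠ 0 := by
        intro h
        apply hz
        unfold VPiece.zex
        rw [if_pos hzd]
        unfold pull
        rw [h, map_zero]
      obtain ⟨z', hz'N, hz', b1, _, b2⟩ := hs _ (𝒱.K.maps z hzd).1 h1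
      have hz'd : z' ∈ dom gK N.carrier 20000 := ⟨lt_of_le_of_lt (gK_le1 z') (by linarith), hz'N⟩
      have h2 : R15 C.rho z = z' := by
        rw [← 𝒱.K.Phi_Psi hzd, hz', 𝒱.K.Phi_Psi (dom_sub C hz'd), R_fix hz'd]
      rw [← h2, p1_R15] at b1
      rw [← h2, p2_R15] at b2
      exact ⟨b1, b2⟩
    · exfalso
      apply hz
      unfold VPiece.zex
      rw [if_neg hzd]
  have hclosed : IsClosed {z : En 15 | ‖p1 z‖ ^ 2 ≤ 4 / 11} :=
    isClosed_le (continuous_p1.norm.pow 2) continuous_const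
  have hn : ∀ z, p3 z ∈ C.O → 20000 ≤ gK z → 𝒱.K.zex γ =ᶠ[𝓝 z] fun _ => 0 := by
    intro z _ hz
    have h1 : z ∈ {z : En 15 | ‖p1 z‖ ^ 2 ≤ 4 / 11}ᶜ := by
      intro h
      have h2 : ‖p1 z‖ ^ 2 ≤ 4 / 11 := h
      have := gK_le1 z
      linarith
    filter_upwards [hclosed.isOpen_compl.mem_nhds h1] with z' hz'
    by_contra h2
    exact hz' (hw0 z' h2).2.1
  obtain ⟨wsec, wcl⟩ := zex_sec 𝒱 E gOk_K 𝒱.K (fun z hz => tV_K 𝒱 E hz) hγ hd hn
  have w8 : ∀ z ∈ {z : En 15 | p3 z ∈ C.O}, dg 8 (𝒱.K.zex γ z) = 𝒱.K.zex γ z := by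
    intro z _
    unfold VPiece.zex
    split_ifs with hzd
    · unfold pull
      rw [← Lam_dg, h8 _ (𝒱.K.maps z hzd).1]
    · exact map_zero _
  have wbox : Box {z : En 15 | p3 z ∈ C.O} (fun _ => -4) (fun _ => 4) L8 (𝒱.K.zex γ) := by
    intro z _ i hi hzi
    by_contra h
    obtain ⟨_, b1, b2⟩ := hw0 z h
    have h4 : 4 ≤ |z i| := by
      rcases hzi with h5 | h5
      · rw [le_abs]; right; linarith
      · rw [le_abs]; left; linarith
    by_cases hi4 : i.1 < 4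
    · have := coord_le1 z i hi4
      nlinarith [norm_nonneg (p1 z)]
    · have := coord_le2 z i (by omega) (L8_lt i hi)
      nlinarith [norm_nonneg (p2 z)]
  -- (2) the fibre integral vanishes
  have hfib : ∀ z, p3 z ∈ C.O → fibL (fun _ => -4) (fun _ => 4) L8 (𝒱.K.zex γ) z = 0 := by
    refine noPar_form C hE (wsec.fibL hopen hInv hAct) (fun z hz => ?_) (fun z hz => ?_)
      (fun z z' _ h => ?_)
    · exact Tw.dg_fibL (k := 0) wsec hopen hInv hAct w8 hz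
    · exact hgood.d_fibL L8_nodup wsec hInv hAct wcl wbox hz
    · exact eq_of_trans (fun i hi z r => fibL_translate hi z r) h
  obtain ⟨β, βsec, βbox, βd, _, βdg⟩ := Tw.P3 hgood (fun _ => by norm_num) L8 L8_nodup hInv hAct
    wsec wcl w8 wbox (by decide) (fun _ z hz => hfib z hz)
  have β7 : ∀ z, dg 7 (β z) = β z := βdg 7 rfl
  -- (3) the form `v`
  have hBx : ∀ z ∈ {z : En 15 | (∀ i : Fin 15, i.1 < 8 → |z i| ≤ 4) ∧ p3 z ∈ N.carrier},
      z ∈ dom gK C.O 20000 := fun z hz =>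
    ⟨lt_of_le_of_lt ((gK_le1 z).trans (norm_p1_le z hz.1)) (by norm_num), C.sub hz.2⟩
  have hC0 : IsCompact (𝒱.K.Ψ '' {z : En 15 | (∀ i : Fin 15, i.1 < 8 → |z i| ≤ 4) ∧
      p3 z ∈ N.carrier}) :=
    (compact_box N.compact).image_of_continuousOn (𝒱.K.smoothΨ.continuousOn.mono hBx)
  have hC0' : 𝒱.K.Ψ '' {z : En 15 | (∀ i : Fin 15, i.1 < 8 → |z i| ≤ 4) ∧
      p3 z ∈ N.carrier} ⊆ 𝒱.V.carrier ∩ 𝒱.K.O := by
    rintro _ ⟨z, hz, rfl⟩
    exact 𝒱.K.maps z (hBx z hz)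
  obtain ⟨χ, χsm, ⟨U, _, hUC, χ1⟩, χsupp, _⟩ := exists_cutoff hC0.isClosed 𝒱.K.openO
    (hC0'.trans Set.inter_subset_right)
  have βdom : ContDiffOn ℝ ∞ β (dom gK C.O 20000) := βsec.1.mono fun z hz => hz.2
  obtain ⟨v, vsm, hv⟩ := 𝒱.K.ext_exists (V := 𝒱.V.toGeo) gOk_K χsm χsupp βdom
  have hvVF : VF 𝒱.V.toGeo (tV 𝒱 E) v := by
    refine 𝒱.K.ext_VF gOk_K (fun z hz => ?_) vsm hv
    have h1 := βsec.2 z hz.2
    rwa [← (tV_K 𝒱 E hz).1] at h1
  have β0 : ∀ z, p3 z ∈ C.O → (¬ ∀ i : Fin 15, i.1 < 8 → |z i| ≤ 4) → β z = 0 := by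
    intro z hz h
    push Not at h
    obtain ⟨i, hi, h4⟩ := h
    refine βbox z hz i (mem_L8 i hi) ?_
    rcases lt_abs.1 h4 with h5 | h5
    · right; exact h5.le
    · left; linarith
  have hpull : ∀ z ∈ dom gK C.O 20000, pull 𝒱.K.Ψ v z = pull (R15 C.rho) β z := by
    intro z hz
    rw [𝒱.K.pull_ext gOk_K hv hz]
    by_cases hb : ∀ i : Fin 15, i.1 < 8 → |z i| ≤ 4
    · have h1 : 𝒱.K.Ψ z ∈ 𝒱.K.Ψ '' {z : En 15 | (∀ i : Fin 15, i.1 < 8 → |z i| ≤ 4) ∧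
          p3 z ∈ N.carrier} := by
        refine ⟨R15 C.rho z, ⟨fun i hi => ?_, ?_⟩, 𝒱.K.Psi_R gOk_K hz⟩
        · rw [R15_coord _ _ hi]
          exact hb i hi
        · rw [p3_R15]
          exact C.rho_mem hz.2
      rw [χ1 _ (hUC h1), one_smul]
    · have h1 : β (R15 C.rho z) = 0 := by
        refine β0 _ ?_ fun h => hb fun i hi => ?_
        · rw [p3_R15]
          exact C.sub (C.rho_mem hz.2)
        · rw [← R15_coord C.rho z hi]
          exact h i hi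
      unfold pull
      rw [h1, map_zero, smul_zero]
  refine ⟨v, _, hvVF, fun y hy => ?_, fun y hy => ?_, hC0, hC0', fun y hy hyC => ?_⟩
  · rw [hv y hy]
    exact 𝒱.K.dg_ext β7 y
  · by_cases hyO : y ∈ 𝒱.K.O
    · have hz : 𝒱.K.Φ y ∈ dom gK C.O 20000 := dom_sub C (𝒱.K.mapsΦ y ⟨hy, hyO⟩)
      refine 𝒱.K.dV_eq gOk_K hvVF hγ ⟨hy, hyO⟩ (βsec.diffAt hopen hz.2) ?_ ?_
      · filter_upwards [(isOpen_dom gOk_K C.openO _).mem_nhds hz] with z' hz'
        exact hpull z' hz'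
      · rw [Tw.d_congr (tV_K 𝒱 E hz).1 (tV_K 𝒱 E hz).2 (Filter.EventuallyEq.refl _ _),
          βd _ hz.2]
        unfold VPiece.zex
        rw [if_pos hz]
    · have h1 : γ y = 0 := by
        by_contra h
        obtain ⟨z', hz'N, hz', b1, _, _⟩ := hs y hy h
        apply hyO
        rw [hz']
        exact (𝒱.K.maps z' ⟨lt_of_le_of_lt (gK_le1 z') (by linarith), C.sub hz'N⟩).2
      rw [h1]
      have h2 : ∀ᶠ y' in 𝓝 y, y' ∈ 𝒱.V.carrier → v y' = (fun _ => (0 : HF 𝒱.M ι)) y' := by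
        have h3 : y ∈ (tsupport χ)ᶜ := fun h => hyO (χsupp h)
        filter_upwards [(isClosed_tsupport χ).isOpen_compl.mem_nhds h3] with y' hy' hV
        have h4 : χ y' = 0 := image_eq_zero_of_notMem_tsupport hy'
        rw [hv y' hV]
        unfold VPiece.extF
        split_ifs
        · rw [h4, zero_smul]
        · rfl
      rw [dV_congr hy ((vsm.differentiable (by simp)) y) (differentiableAt_const _) h2]
      unfold dV covV
      simp
  · rw [hv y hy]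
    unfold VPiece.extF
    split_ifs with hyO
    · have hz := 𝒱.K.mapsΦ y ⟨hy, hyO⟩
      have h1 : β (𝒱.K.Φ y) = 0 := by
        refine β0 _ (C.sub hz.2) fun h => hyC ⟨𝒱.K.Φ y, ⟨h, hz.2⟩, 𝒱.K.right y ⟨hy, hyO⟩⟩
      unfold pull
      rw [h1, map_zero, map_zero, smul_zero]
    · rfl

end Pool.Agent.EXO
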