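import Pool.Agent.EXO.DefG
import Pool.Agent.EXO.GbAd
import Pool.Agent.EXO.GbTha

/-!
# EXO / TopTw: elementary facts about the twisting map `tw`

Proofs.  `tw l x = rot4 (tha4 l x)`, `rot4 q y = mk4 (y 0) (Adq q (vec4 y))`; `‖tha4 l x‖ = 1`
(`norm_tha`, `norm_one`).  `rot4 (p * q) = (rot4 p).comp (rot4 q)`, `rot4 1 = id` from `Adq_mul`,
`Adq_one` (namespace `EXO`, modules GbAd, GbTha), `‖mk4 t v‖² = t² + ‖v‖²`, `vec4 (mk4 t v) = v`,
`mk4 (x 0) (vec4 x) = x`.
`tw_smooth`: on `0 < x 0` the map `x ↦ tha l ((x 0)⁻¹ • vec4 x)` is smooth (`contDiff_tha`); if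
`x ≠ 0` and `x 0 ≤ 0` then near `x` we have `y 0 ≤ 0`, where `tha4 l y = 1` by definition, or `0 < y 0`
and `3 l / 8 ≤ ‖(y 0)⁻¹ • vec4 y‖`, where `tha4 l y = 1` by `tha_out`: if `x 0 < 0` the first case
holds near `x`, if `x 0 = 0` then `‖vec4 x‖ = ‖x‖ > 0`, so `‖vec4 y‖ > ‖x‖/2` and `|y 0|` is as small as
we want near `x`.  So `tha4 l` is locally smooth; compose with `contDiff_Adq` and the continuous
bilinear maps in the definition of `rot4` (`rot4 q y = y 0 • (mk4 1 0) + mk4 0 (Adq q (vec4 y))`, a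
continuous linear map of `Adq q`).
`tw_ivn`: `tha4 l (c • x) = tha4 l x` for `0 < c`.
-/

set_option autoImplicit false
set_option maxSynthPendingDepth 3

open Set MeasureTheory Matrix Filter Topology
open scoped ContDiff ENNReal ComplexConjugate Quaternion

namespace Pool.Agent.EXO

variable {l : ℝ}

private theorem toptw_rot4 (q : ℍ[ℝ]) (y : En 4) : rot4 q y = mk4 (y 0) (Adq q (vec4 y)) := rfl

private theorem toptw_norm_mk4 (t : ℝ) (v : En 3) : ‖mk4 t v‖ ^ 2 = t ^ 2 + ‖v‖ ^ 2 := by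
  rw [EuclideanSpace.real_norm_sq_eq, EuclideanSpace.real_norm_sq_eq, Fin.sum_univ_four,
    Fin.sum_univ_three]
  simp [mk4]
  ring

private theorem toptw_norm_eq (y : En 4) : ‖y‖ ^ 2 = (y 0) ^ 2 + ‖vec4 y‖ ^ 2 := by
  rw [EuclideanSpace.real_norm_sq_eq, EuclideanSpace.real_norm_sq_eq, Fin.sum_univ_four,
    Fin.sum_univ_three]
  simp [vec4]
  ring

private theorem toptw_vec_mk (t : ℝ) (v : En 3) : vec4 (mk4 t v) = v := by
  ext i
  fin_cases i <;> simp [vec4, mk4]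

private theorem toptw_mk_zero (t : ℝ) (v : En 3) : mk4 t v 0 = t := by
  simp [mk4]

private theorem toptw_mk_vec (y : En 4) : mk4 (y 0) (vec4 y) = y := by
  ext i
  fin_cases i <;> simp [vec4, mk4]

private theorem toptw_norm_rot4 {q : ℍ[ℝ]} (hq : ‖q‖ = 1) (y : En 4) : ‖rot4 q y‖ = ‖y‖ := by
  rw [← sq_eq_sq₀ (norm_nonneg _) (norm_nonneg _), toptw_rot4, toptw_norm_mk4,
    _root_.EXO.norm_Adq hq, ← toptw_norm_eq]

private theorem toptw_rot4_mul (p q : ℍ[ℝ]) (y : En 4) : rot4 p (rot4 q y) = rot4 (p * q) y := by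
  simp only [toptw_rot4, toptw_vec_mk, toptw_mk_zero, _root_.EXO.Adq_mul,
    ContinuousLinearMap.comp_apply]

private theorem toptw_rot4_one (y : En 4) : rot4 1 y = y := by
  rw [toptw_rot4, _root_.EXO.Adq_one, ContinuousLinearMap.id_apply, toptw_mk_vec]

theorem norm_tha4 (hl : 0 < l) (x : En 4) : ‖tha4 l x‖ = 1 := by
  unfold tha4
  split_ifs
  · exact _root_.EXO.norm_tha hl _
  · exact norm_one

theorem tw_zero_coord (x y : En 4) : tw l x y 0 = y 0 := toptw_mk_zero _ _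

theorem norm_tw (hl : 0 < l) (x y : En 4) : ‖tw l x y‖ = ‖y‖ :=
  toptw_norm_rot4 (norm_tha4 hl x) y

theorem norm_twi (hl : 0 < l) (x y : En 4) : ‖twi l x y‖ = ‖y‖ := by
  refine toptw_norm_rot4 ?_ y
  rw [norm_star]
  exact norm_tha4 hl x

theorem tw_e0 (x : En 4) : tw l x (EuclideanSpace.single 0 1) = EuclideanSpace.single 0 1 := by
  have h : vec4 (EuclideanSpace.single 0 1) = 0 := by
    ext i
    fin_cases i <;> simp [vec4]
  unfold tw
  rw [toptw_rot4, h, map_zero]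
  ext i
  fin_cases i <;> simp [mk4]

theorem twi_tw (hl : 0 < l) (x y : En 4) : twi l x (tw l x y) = y := by
  unfold twi tw
  rw [toptw_rot4_mul, (_root_.EXO.star_mul_of_norm (norm_tha4 hl x)).1, toptw_rot4_one]

theorem tw_twi (hl : 0 < l) (x y : En 4) : tw l x (twi l x y) = y := by
  unfold twi tw
  rw [toptw_rot4_mul, (_root_.EXO.star_mul_of_norm (norm_tha4 hl x)).2, toptw_rot4_one]

theorem tha4_smul {c : ℝ} (hc : 0 < c) (x : En 4) : tha4 l (c • x) = tha4 l x := by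
  have h1 : (c • x) 0 = c * x 0 := rfl
  have h2 : vec4 (c • x) = c • vec4 x := by
    ext i
    fin_cases i <;> simp [vec4]
  unfold tha4
  rw [h1, h2]
  by_cases h : 0 < x 0
  · rw [if_pos h, if_pos (mul_pos hc h), smul_smul]
    have h3 : (c * x 0)⁻¹ * c = (x 0)⁻¹ := by
      field_simp
    rw [h3]
  · rw [if_neg h, if_neg (fun h3 => h ((pos_iff_pos_of_mul_pos h3).mp hc))]

theorem tw_smul {c : ℝ} (hc : 0 < c) (x : En 4) : tw l (c • x) = tw l x := by
  unfold tw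
  rw [tha4_smul hc]

theorem twi_smul {c : ℝ} (hc : 0 < c) (x : En 4) : twi l (c • x) = twi l x := by
  unfold twi
  rw [tha4_smul hc]

theorem tw_ivn {x : En 4} (hx : x ≠ 0) : tw l (ivn x) = tw l x := by
  unfold ivn
  exact tw_smul (by positivity) x

theorem twi_ivn {x : En 4} (hx : x ≠ 0) : twi l (ivn x) = twi l x := by
  unfold ivn
  exact twi_smul (by positivity) x

private theorem toptw_contDiff_vec4 : ContDiff ℝ ∞ vec4 := by
  unfold vec4
  rw [contDiff_euclidean]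
  intro i
  fin_cases i <;> exact contDiff_piLp_apply (𝕜 := ℝ) (p := 2)

theorem contDiffOn_tha4 (hl : 0 < l) : ContDiffOn ℝ ∞ (tha4 l) {x | x ≠ 0} := by
  intro x hx
  refine ContDiffAt.contDiffWithinAt ?_
  have hc0 : ContDiff ℝ ∞ fun y : En 4 => y 0 := contDiff_piLp_apply (𝕜 := ℝ) (p := 2)
  rcases lt_trichotomy (x 0) 0 with h | h | h
  · refine (contDiffAt_const (c := (1 : ℍ[ℝ]))).congr_of_eventuallyEq ?_
    filter_upwards [hc0.continuous.continuousAt.eventually (gt_mem_nhds h)] with y hy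
    unfold tha4
    rw [if_neg (not_lt.mpr (le_of_lt hy))]
  · refine (contDiffAt_const (c := (1 : ℍ[ℝ]))).congr_of_eventuallyEq ?_
    have hv : 0 < ‖vec4 x‖ := by
      rw [norm_pos_iff]
      intro h0
      refine hx ?_
      rw [← toptw_mk_vec x, h, h0]
      ext i
      fin_cases i <;> simp [mk4]
    have hcont : Continuous fun y : En 4 => ‖vec4 y‖ - 3 * l / 8 * y 0 :=
      toptw_contDiff_vec4.continuous.norm.sub (hc0.continuous.const_mul _)
    have h1 : 0 < ‖vec4 x‖ - 3 * l / 8 * x 0 := by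
      rw [h, mul_zero, sub_zero]
      exact hv
    filter_upwards [hcont.continuousAt.eventually (lt_mem_nhds h1)] with y hy
    unfold tha4
    by_cases h2 : 0 < y 0
    · rw [if_pos h2]
      refine _root_.EXO.tha_out hl ?_
      rw [norm_smul, Real.norm_eq_abs, abs_of_pos (inv_pos.mpr h2), inv_mul_eq_div,
        le_div_iff₀ h2]
      linarith
    · rw [if_neg h2]
  · have h1 : ContDiffAt ℝ ∞ (fun y : En 4 => tha l ((y 0)⁻¹ • vec4 y)) x := by
      refine (_root_.EXO.contDiff_tha hl).contDiffAt.comp x ?_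
      exact (hc0.contDiffAt.inv h.ne').smul toptw_contDiff_vec4.contDiffAt
    refine h1.congr_of_eventuallyEq ?_
    filter_upwards [hc0.continuous.continuousAt.eventually (lt_mem_nhds h)] with y hy
    unfold tha4
    rw [if_pos hy]

theorem contDiff_rot4 : ContDiff ℝ ∞ fun q : ℍ[ℝ] => rot4 q := by
  rw [contDiff_clm_apply_iff]
  intro y
  have h1 : ContDiff ℝ ∞ fun q : ℍ[ℝ] => Adq q (vec4 y) :=
    _root_.EXO.contDiff_Adq.clm_apply contDiff_const
  have h2 : ∀ j, ContDiff ℝ ∞ fun q : ℍ[ℝ] => Adq q (vec4 y) j := fun j =>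
    (contDiff_piLp_apply (𝕜 := ℝ) (p := 2)).comp h1
  simp only [toptw_rot4, mk4]
  rw [contDiff_euclidean]
  intro i
  fin_cases i
  · exact contDiff_const
  · exact h2 0
  · exact h2 1
  · exact h2 2

theorem contDiffOn_tw (hl : 0 < l) : ContDiffOn ℝ ∞ (tw l) {x | x ≠ 0} :=
  contDiff_rot4.comp_contDiffOn (contDiffOn_tha4 hl)

private noncomputable def toptw_starL : ℍ[ℝ] →L[ℝ] ℍ[ℝ] :=
  LinearMap.toContinuousLinearMap
    { toFun := fun q => star q
      map_add' := fun u v => star_add u v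
      map_smul' := by
        intro c u
        ext <;> simp }

theorem contDiffOn_twi (hl : 0 < l) : ContDiffOn ℝ ∞ (twi l) {x | x ≠ 0} :=
  contDiff_rot4.comp_contDiffOn (toptw_starL.contDiff.comp_contDiffOn (contDiffOn_tha4 hl))

/-! ## The inversion -/

theorem norm_ivn {m : ℕ} (x : En m) : ‖ivn x‖ = ‖x‖⁻¹ := by
  unfold ivn
  rw [norm_smul, norm_inv, norm_pow, norm_norm]
  by_cases h : ‖x‖ = 0
  · rw [h]
    simp
  · field_simp

theorem ivn_ne {m : ℕ} {x : En m} (hx : x ≠ 0) : ivn x ≠ 0 := by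
  unfold ivn
  exact smul_ne_zero (inv_ne_zero (pow_ne_zero 2 (norm_ne_zero_iff.mpr hx))) hx

theorem ivn_ivn {m : ℕ} {x : En m} (hx : x ≠ 0) : ivn (ivn x) = x := by
  have h : ‖x‖ ≠ 0 := norm_ne_zero_iff.mpr hx
  have h1 : ivn (ivn x) = (‖ivn x‖ ^ 2)⁻¹ • ((‖x‖ ^ 2)⁻¹ • x) := rfl
  rw [h1, norm_ivn, smul_smul]
  have h2 : ((‖x‖⁻¹) ^ 2)⁻¹ * (‖x‖ ^ 2)⁻¹ = 1 := by
    field_simp
  rw [h2, one_smul]

theorem contDiffOn_ivn {m : ℕ} : ContDiffOn ℝ ∞ (ivn : En m → En m) {x | x ≠ 0} := by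
  have h : ContDiffOn ℝ ∞ (fun x : En m => (‖x‖ ^ 2)⁻¹) {x | x ≠ 0} :=
    (contDiff_norm_sq ℝ).contDiffOn.inv fun x hx => pow_ne_zero 2 (norm_ne_zero_iff.mpr hx)
  exact h.smul contDiffOn_id

end Pool.Agent.EXO
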