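import Pool.Agent.EXO.TopGd
import Pool.Agent.EXO.TopTw

/-!
# EXO / TopGl: the transition maps `K → H₁` and `K → H₂` form a `Glue`

Proof.  `(K, H₁)`: `q z = ‖p1 z‖`, `h z = ‖p2 z‖`, `i = 4`,
`τ z = j15 (ivn (p1 z)) (tw l (p1 z) (p2 z)) (p3 z)`,
`σ z = j15 (ivn (p1 z)) (twi l (p1 z) (p2 z)) (p3 z)`.
`(K, H₂)`: `q z = ‖p2 z‖`, `h z = ‖p1 z‖`, `i = 0`,
`τ z = j15 (tw l (p2 z) (p1 z)) (ivn (p2 z)) (p3 z)`, `σ z = j15 (twi l (p2 z) (p1 z)) (ivn (p2 z)) (p3 z)`.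
Smoothness: `contDiffOn_j15`, `contDiffOn_tw`, `contDiffOn_twi`, `contDiffOn_ivn`.  `στ`, `τσ`: `twi_ivn`, `tw_ivn`,
`twi_tw`, `tw_twi`, `ivn_ivn`, `j15_p`.  `qτ`: `norm_ivn`.  `hτ`: `norm_tw`.
`gτ` for `K → H₁`: with `X = ‖p1 z‖² ≠ 0`, `Y = ‖p2 z‖²`: `Y / (1 + X⁻¹ Y) = X Y / (X + Y)`.
`τ_R`: both sides have the same `p1`, `p2`, `p3`.
`τ_trans`, `i = 4`: `p1 (z + r e₄) = p1 z`, `p2 (z + r e₄) = p2 z + r e₀`, `p3 (z + r e₄) = p3 z`, `tw_e0`
and linearity; similarly for `i = 0`.  `τ_i`: `tw_zero_coord`.  `h_le`: `|y₀| ≤ ‖y‖`.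
-/

set_option autoImplicit false
set_option maxSynthPendingDepth 3

open Set MeasureTheory Matrix Filter Topology
open scoped ContDiff ENNReal ComplexConjugate

namespace Pool.Agent.EXO

private theorem topgl_p1_4 (z : En 15) (r : ℝ) :
    p1 (z + r • ee (⟨4, by omega⟩ : Fin 15)) = p1 z := by
  ext i
  fin_cases i <;> simp [p1]

private theorem topgl_p2_4 (z : En 15) (r : ℝ) :
    p2 (z + r • ee (⟨4, by omega⟩ : Fin 15)) = p2 z + r • EuclideanSpace.single 0 1 := by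
  ext i
  fin_cases i <;> simp [p2]

private theorem topgl_p3_4 (z : En 15) (r : ℝ) :
    p3 (z + r • ee (⟨4, by omega⟩ : Fin 15)) = p3 z := by
  ext i
  fin_cases i <;> simp [p3]

private theorem topgl_p1_0 (z : En 15) (r : ℝ) :
    p1 (z + r • ee (⟨0, by omega⟩ : Fin 15)) = p1 z + r • EuclideanSpace.single 0 1 := by
  ext i
  fin_cases i <;> simp [p1]

private theorem topgl_p2_0 (z : En 15) (r : ℝ) :
    p2 (z + r • ee (⟨0, by omega⟩ : Fin 15)) = p2 z := by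
  ext i
  fin_cases i <;> simp [p2]

private theorem topgl_p3_0 (z : En 15) (r : ℝ) :
    p3 (z + r • ee (⟨0, by omega⟩ : Fin 15)) = p3 z := by
  ext i
  fin_cases i <;> simp [p3]

private theorem topgl_c4 (z : En 15) : z (⟨4, by omega⟩ : Fin 15) = p2 z 0 := rfl

private theorem topgl_c0 (z : En 15) : z (⟨0, by omega⟩ : Fin 15) = p1 z 0 := rfl

private theorem topgl_g (X Y : ℝ) (hX : X ≠ 0) :
    Y ^ 2 / (1 + X⁻¹ ^ 2 * Y ^ 2) = X ^ 2 * Y ^ 2 / (X ^ 2 + Y ^ 2) := by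
  have h1 : (0 : ℝ) < X ^ 2 + Y ^ 2 := by positivity
  have h2 : (0 : ℝ) < 1 + X⁻¹ ^ 2 * Y ^ 2 := by positivity
  rw [div_eq_div_iff h2.ne' h1.ne']
  field_simp

theorem glue1 {N : OrGeo 6 7} {C : Collar N.carrier} {l δ : ℝ} (hl : 0 < l)
    (𝒱 : VData N C l δ) :
    ∃ G : Glue 𝒱.K 𝒱.H1 (⟨4, by omega⟩ : Fin 15), ∀ z, G.q z = ‖p1 z‖ := by
  have hne : ∀ z : En 15, ‖p1 z‖ ≠ 0 → p1 z ≠ 0 := fun z h => norm_ne_zero_iff.mp h
  have hsm : ContDiffOn ℝ ∞ (fun z : En 15 => ivn (p1 z)) {z | ‖p1 z‖ ≠ 0} :=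
    contDiffOn_ivn.comp contDiff_p1.contDiffOn fun z hz => hne z hz
  refine ⟨{
    q := fun z => ‖p1 z‖
    h := fun z => ‖p2 z‖
    τ := fun z => j15 (ivn (p1 z)) (tw l (p1 z) (p2 z)) (p3 z)
    σ := fun z => j15 (ivn (p1 z)) (twi l (p1 z) (p2 z)) (p3 z)
    okA := gOk_K
    okB := gOk_1
    contq := continuous_p1.norm
    conth := continuous_p2.norm
    q_inv := fun z z' h1 _ => by rw [h1]
    q_trans := fun z r => by rw [topgl_p1_4]
    h_inv := fun z z' _ h2 => by rw [h2]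
    h_le := fun z => by
      rw [topgl_c4]
      exact PiLp.norm_apply_le (p2 z) 0
    i_lt := by norm_num
    smoothτ := contDiffOn_j15 hsm
      (((contDiffOn_tw hl).comp contDiff_p1.contDiffOn fun z hz => hne z hz).clm_apply
        contDiff_p2.contDiffOn) contDiff_p3.contDiffOn
    smoothσ := contDiffOn_j15 hsm
      (((contDiffOn_twi hl).comp contDiff_p1.contDiffOn fun z hz => hne z hz).clm_apply
        contDiff_p2.contDiffOn) contDiff_p3.contDiffOn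
    στ := fun z hz => by
      simp only [p1_j15, p2_j15, p3_j15]
      rw [ivn_ivn (hne z hz), twi_ivn (hne z hz), twi_tw hl, j15_p]
    τσ := fun z hz => by
      simp only [p1_j15, p2_j15, p3_j15]
      rw [ivn_ivn (hne z hz), tw_ivn (hne z hz), tw_twi hl, j15_p]
    qτ := fun z hz => by
      simp only [p1_j15]
      rw [norm_ivn, mul_inv_cancel₀ hz]
    qσ := fun z hz => by
      simp only [p1_j15]
      rw [norm_ivn, mul_inv_cancel₀ hz]
    hτ := fun z _ => by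
      simp only [p2_j15]
      exact norm_tw hl _ _
    gτ := fun z hz => by
      unfold g1 gK
      simp only [p1_j15, p2_j15]
      rw [norm_tw hl, norm_ivn]
      exact topgl_g _ _ hz
    p3τ := fun z _ => p3_j15 _ _ _
    τ_R := fun ρ z _ => by
      refine ext15 ?_ ?_ ?_ <;> simp
    τ_i := fun z _ => by
      rw [topgl_c4, topgl_c4, p2_j15, tw_zero_coord]
    τ_trans := fun z r _ => by
      refine ext15 ?_ ?_ ?_
      · rw [topgl_p1_4, topgl_p1_4, p1_j15, p1_j15]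
      · rw [topgl_p2_4, topgl_p2_4, topgl_p1_4, p2_j15, p2_j15, map_add, map_smul, tw_e0]
      · rw [topgl_p3_4, topgl_p3_4, p3_j15, p3_j15]
    trans := fun z hz hq => 𝒱.trK1 z hz (hne z hq)
    notA := fun z hz hq => 𝒱.notK1 z hz (norm_eq_zero.mp hq)
    notB := fun z hz hq => 𝒱.not1K z hz (norm_eq_zero.mp hq) }, fun z => rfl⟩

theorem glue2 {N : OrGeo 6 7} {C : Collar N.carrier} {l δ : ℝ} (hl : 0 < l)
    (𝒱 : VData N C l δ) :
    ∃ G : Glue 𝒱.K 𝒱.H2 (⟨0, by omega⟩ : Fin 15), ∀ z, G.q z = ‖p2 z‖ := by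
  have hne : ∀ z : En 15, ‖p2 z‖ ≠ 0 → p2 z ≠ 0 := fun z h => norm_ne_zero_iff.mp h
  have hsm : ContDiffOn ℝ ∞ (fun z : En 15 => ivn (p2 z)) {z | ‖p2 z‖ ≠ 0} :=
    contDiffOn_ivn.comp contDiff_p2.contDiffOn fun z hz => hne z hz
  refine ⟨{
    q := fun z => ‖p2 z‖
    h := fun z => ‖p1 z‖
    τ := fun z => j15 (tw l (p2 z) (p1 z)) (ivn (p2 z)) (p3 z)
    σ := fun z => j15 (twi l (p2 z) (p1 z)) (ivn (p2 z)) (p3 z)
    okA := gOk_K
    okB := gOk_2
    contq := continuous_p2.norm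
    conth := continuous_p1.norm
    q_inv := fun z z' _ h2 => by rw [h2]
    q_trans := fun z r => by rw [topgl_p2_0]
    h_inv := fun z z' h1 _ => by rw [h1]
    h_le := fun z => by
      rw [topgl_c0]
      exact PiLp.norm_apply_le (p1 z) 0
    i_lt := by norm_num
    smoothτ := contDiffOn_j15
      (((contDiffOn_tw hl).comp contDiff_p2.contDiffOn fun z hz => hne z hz).clm_apply
        contDiff_p1.contDiffOn) hsm contDiff_p3.contDiffOn
    smoothσ := contDiffOn_j15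
      (((contDiffOn_twi hl).comp contDiff_p2.contDiffOn fun z hz => hne z hz).clm_apply
        contDiff_p1.contDiffOn) hsm contDiff_p3.contDiffOn
    στ := fun z hz => by
      simp only [p1_j15, p2_j15, p3_j15]
      rw [ivn_ivn (hne z hz), twi_ivn (hne z hz), twi_tw hl, j15_p]
    τσ := fun z hz => by
      simp only [p1_j15, p2_j15, p3_j15]
      rw [ivn_ivn (hne z hz), tw_ivn (hne z hz), tw_twi hl, j15_p]
    qτ := fun z hz => by
      simp only [p2_j15]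
      rw [norm_ivn, mul_inv_cancel₀ hz]
    qσ := fun z hz => by
      simp only [p2_j15]
      rw [norm_ivn, mul_inv_cancel₀ hz]
    hτ := fun z _ => by
      simp only [p1_j15]
      exact norm_tw hl _ _
    gτ := fun z hz => by
      unfold g2 gK
      simp only [p1_j15, p2_j15]
      rw [norm_tw hl, norm_ivn, mul_comm (‖p1 z‖ ^ 2) (‖p2 z‖⁻¹ ^ 2), topgl_g _ _ hz,
        mul_comm (‖p2 z‖ ^ 2), add_comm (‖p2 z‖ ^ 2)]
    p3τ := fun z _ => p3_j15 _ _ _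
    τ_R := fun ρ z _ => by
      refine ext15 ?_ ?_ ?_ <;> simp
    τ_i := fun z _ => by
      rw [topgl_c0, topgl_c0, p1_j15, tw_zero_coord]
    τ_trans := fun z r _ => by
      refine ext15 ?_ ?_ ?_
      · rw [topgl_p1_0, topgl_p1_0, topgl_p2_0, p1_j15, p1_j15, map_add, map_smul, tw_e0]
      · rw [topgl_p2_0, topgl_p2_0, p2_j15, p2_j15]
      · rw [topgl_p3_0, topgl_p3_0, p3_j15, p3_j15]
    trans := fun z hz hq => 𝒱.trK2 z hz (hne z hq)
    notA := fun z hz hq => 𝒱.notK2 z hz (norm_eq_zero.mp hq)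
    notB := fun z hz hq => 𝒱.not2K z hz (norm_eq_zero.mp hq) }, fun z => rfl⟩

end Pool.Agent.EXO
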