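import Pool.Agent.EXO.TopTc
import Pool.Agent.EXO.TopGl

/-!
# EXO / TopKap: the cut-off function `k` on `V`

Proofs.  `kap t = 1 - stp ((t - 4) / 5)`, `stp = Real.smoothTransition`: `kap t = 1` for `t ≤ 4`
(`Real.smoothTransition.zero_of_nonpos`) and `kap t = 0` for `9 ≤ t` (`one_of_one_le`).
LOCAL FORM (`k_loc`): let `p` be one of the pieces `K`, `H₁`, `H₂` with `g`, and let `f = kap (‖p2 z‖²)` (resp. `kapi`
for `H₂`) with `k (p.Ψ z) = f z` for `z ∈ dom g N 20000`, `g z ≤ 1`.  For `y = p.Ψ z`, `p3 z ∈ N`, `g z ≤ 1/3`: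
for `y' ∈ V` near `y` we have `y' ∈ p.O`, `y' = p.Ψ (p.Φ y')`, `p.Φ y' ∈ dom g N 20000` and `p.Φ y'` is close to
`p.Φ y = R15 C.rho z = z` (`Phi_Psi`, `R_fix`; `p.Φ` continuous at `y`), so `g (p.Φ y') < 1` and
`k y' = f (p.Φ y')`.
`triK`: with `X = ‖p1 z‖²`, `Y = ‖p2 z‖²`: if `Y < 4` then `‖p2 (p.Φ y')‖² < 4` near `y`, `k = 1` near `y`; if
`9 < Y` then `k = 0` near `y`; if `4 ≤ Y ≤ 9`, then `gK z = X Y / (X + Y) ≤ 1/3` gives `X (3 Y - 1) ≤ Y`, and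
`3 Y - 1 ≥ 11/4 Y`, so `X ≤ 4/11`.
`triH1`: `p1 z = 0`, so `g1 z = ‖p2 z‖² ≤ 1/3 < 4`: `k = 1` near the point.
`triH2`: `p2 z = 0`: for `y'` near the point, `t = ‖p2 (p.Φ y')‖²` is small, and `kapi t = 0` for `t = 0` and
`kapi t = kap (1/t) = 0` for `0 < t ≤ 1/9`.
`tri`: by `𝒱.cover`.  If `y = H₁.Ψ z`, `g1 z ≤ 1/3`, and `p1 z ≠ 0`, take `G` from `glue1` (`q z = ‖p1 z‖ ≠ 0`): with
`z' = G.σ z` (`G.symm`): `gK z' = g1 z`, `p3 z' = p3 z` and `y = K.Ψ z'` (`G.symm.trans`).  If `p1 z = 0`: `triH1`, and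
`y ∈ H₁.O` by `maps`.  Similarly for `y = H₂.Ψ z` with `glue2`, `triH2`.
`dk_zero`: `k` is locally constant along `V` near `y`, so `fderiv k y (P v) = 0` (`su_local`), then `dV_mul`.
-/

set_option autoImplicit false
set_option maxSynthPendingDepth 3

open Set MeasureTheory Matrix Filter Topology
open scoped ContDiff ENNReal ComplexConjugate

namespace Pool.Agent.EXO

private theorem topkap_loc {N : Set (En 7)} {C : Collar N} {M : ℕ} {V : Set (En M)}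
    {g : En 15 → ℝ} (p : VPiece C V g) {z : En 15} (hz : g z ≤ 1 / 3)
    (hN : p3 z ∈ N) {W : Set (En 15)} (hW : W ∈ 𝓝 z) :
    ∀ᶠ y' in 𝓝 (p.Ψ z), y' ∈ V → ∃ z' ∈ dom g N 20000, z' ∈ W ∧ p.Ψ z' = y' := by
  have hzN : z ∈ dom g N 20000 := ⟨by linarith, hN⟩
  have hz' : z ∈ dom g C.O 20000 := dom_sub C hzN
  have hm := p.maps z hz'
  have h1 : p.Φ (p.Ψ z) = z := by
    have h2 := p.left z hz'
    have h3 : R15 C.rho z = z := R_fix hzN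
    exact h2.trans h3
  have hc : ContinuousAt p.Φ (p.Ψ z) :=
    (p.smoothΦ.contDiffAt (p.openO.mem_nhds hm.2)).continuousAt
  have h4 : ∀ᶠ y' in 𝓝 (p.Ψ z), p.Φ y' ∈ W := by
    have h5 : W ∈ 𝓝 (p.Φ (p.Ψ z)) := by rwa [h1]
    exact hc.eventually h5
  filter_upwards [h4, p.openO.mem_nhds hm.2] with y' hy1 hy2 hyV
  exact ⟨p.Φ y', p.mapsΦ y' ⟨hyV, hy2⟩, hy1, p.right y' ⟨hyV, hy2⟩⟩

section

variable {N : OrGeo 6 7} {C : Collar N.carrier} {l δ : ℝ} (𝒱 : VData N C l δ)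

theorem kap_one {t : ℝ} (h : t ≤ 4) : kap t = 1 := by
  unfold kap stp
  rw [Real.smoothTransition.zero_of_nonpos (by linarith), sub_zero]

theorem kap_zero {t : ℝ} (h : 9 ≤ t) : kap t = 0 := by
  unfold kap stp
  rw [Real.smoothTransition.one_of_one_le (by linarith), sub_self]

theorem triK {z : En 15} (hz : gK z ≤ 1 / 3) (hN : p3 z ∈ N.carrier) :
    (∀ᶠ y' in 𝓝 (𝒱.K.Ψ z), y' ∈ 𝒱.V.carrier → 𝒱.k y' = 1) ∨
    (∀ᶠ y' in 𝓝 (𝒱.K.Ψ z), y' ∈ 𝒱.V.carrier → 𝒱.k y' = 0) ∨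
    (‖p1 z‖ ^ 2 ≤ 4 / 11 ∧ 4 ≤ ‖p2 z‖ ^ 2 ∧ ‖p2 z‖ ^ 2 ≤ 9) := by
  have hg1 : ∀ᶠ z' in 𝓝 z, gK z' < 1 :=
    gOk_K.cont.continuousAt.eventually (gt_mem_nhds (by linarith))
  have hc2 : Continuous fun z : En 15 => ‖p2 z‖ ^ 2 := continuous_p2.norm.pow 2
  rcases lt_or_ge (‖p2 z‖ ^ 2) 4 with h4 | h4
  · left
    have h5 : ∀ᶠ z' in 𝓝 z, ‖p2 z'‖ ^ 2 < 4 := hc2.continuousAt.eventually (gt_mem_nhds h4)
    filter_upwards [topkap_loc 𝒱.K hz hN (hg1.and h5)] with y' hy' hyV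
    obtain ⟨z', hz', ⟨h6, h7⟩, rfl⟩ := hy' hyV
    rw [𝒱.kK z' hz' h6.le, kap_one h7.le]
  · rcases lt_or_ge 9 (‖p2 z‖ ^ 2) with h9 | h9
    · right
      left
      have h5 : ∀ᶠ z' in 𝓝 z, 9 < ‖p2 z'‖ ^ 2 := hc2.continuousAt.eventually (lt_mem_nhds h9)
      filter_upwards [topkap_loc 𝒱.K hz hN (hg1.and h5)] with y' hy' hyV
      obtain ⟨z', hz', ⟨h6, h7⟩, rfl⟩ := hy' hyV
      rw [𝒱.kK z' hz' h6.le, kap_zero h7.le]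
    · right
      right
      refine ⟨?_, h4, h9⟩
      obtain ⟨X, hX⟩ : ∃ X, X = ‖p1 z‖ ^ 2 := ⟨_, rfl⟩
      obtain ⟨Y, hY⟩ : ∃ Y, Y = ‖p2 z‖ ^ 2 := ⟨_, rfl⟩
      have hX0 : 0 ≤ X := by rw [hX]; positivity
      have h1 : X * Y / (X + Y) ≤ 1 / 3 := by
        rw [hX, hY]
        exact hz
      rw [← hY] at h4 h9
      rw [← hX]
      rw [div_le_iff₀ (by linarith)] at h1
      by_contra hcon
      push Not at hcon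
      nlinarith

theorem triH1 {z : En 15} (hz : g1 z ≤ 1 / 3) (hN : p3 z ∈ N.carrier) (h0 : p1 z = 0) :
    ∀ᶠ y' in 𝓝 (𝒱.H1.Ψ z), y' ∈ 𝒱.V.carrier → 𝒱.k y' = 1 := by
  have hg1 : ∀ᶠ z' in 𝓝 z, g1 z' < 1 :=
    gOk_1.cont.continuousAt.eventually (gt_mem_nhds (by linarith))
  have hc2 : Continuous fun z : En 15 => ‖p2 z‖ ^ 2 := continuous_p2.norm.pow 2
  have h4 : ‖p2 z‖ ^ 2 < 4 := by
    have h1 : g1 z = ‖p2 z‖ ^ 2 := by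
      unfold g1
      rw [h0, norm_zero]
      simp
    rw [← h1]
    linarith
  have h5 : ∀ᶠ z' in 𝓝 z, ‖p2 z'‖ ^ 2 < 4 := hc2.continuousAt.eventually (gt_mem_nhds h4)
  filter_upwards [topkap_loc 𝒱.H1 hz hN (hg1.and h5)] with y' hy' hyV
  obtain ⟨z', hz', ⟨h6, h7⟩, rfl⟩ := hy' hyV
  rw [𝒱.k1 z' hz' h6.le, kap_one h7.le]

theorem triH2 {z : En 15} (hz : g2 z ≤ 1 / 3) (hN : p3 z ∈ N.carrier) (h0 : p2 z = 0) :
    ∀ᶠ y' in 𝓝 (𝒱.H2.Ψ z), y' ∈ 𝒱.V.carrier → 𝒱.k y' = 0 := by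
  have hg1 : ∀ᶠ z' in 𝓝 z, g2 z' < 1 :=
    gOk_2.cont.continuousAt.eventually (gt_mem_nhds (by linarith))
  have hc2 : Continuous fun z : En 15 => ‖p2 z‖ ^ 2 := continuous_p2.norm.pow 2
  have h4 : ‖p2 z‖ ^ 2 < 1 / 9 := by
    rw [h0, norm_zero]
    norm_num
  have h5 : ∀ᶠ z' in 𝓝 z, ‖p2 z'‖ ^ 2 < 1 / 9 := hc2.continuousAt.eventually (gt_mem_nhds h4)
  filter_upwards [topkap_loc 𝒱.H2 hz hN (hg1.and h5)] with y' hy' hyV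
  obtain ⟨z', hz', ⟨h6, h7⟩, rfl⟩ := hy' hyV
  rw [𝒱.k2 z' hz' h6.le]
  unfold kapi
  split_ifs with h8
  · rfl
  · refine kap_zero ?_
    have h9 : 0 < ‖p2 z'‖ ^ 2 := lt_of_le_of_ne (by positivity) (Ne.symm h8)
    rw [le_inv_comm₀ (by norm_num) h9]
    norm_num at h7 ⊢
    exact h7.le

/-- Every point of `V` outside the source piece lies in the piece `K`, or in `H₁` with `k = 1` near
the point, or in `H₂` with `k = 0` near the point. -/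
theorem tri (hl : 0 < l) {y : En 𝒱.M} (hy : y ∈ 𝒱.V.carrier)
    (hS : ¬ ∃ z, gS z ≤ 10 ∧ p3 z ∈ N.carrier ∧ y = 𝒱.S.Ψ z) :
    (∃ z, gK z ≤ 1 / 3 ∧ p3 z ∈ N.carrier ∧ y = 𝒱.K.Ψ z) ∨
    (y ∈ 𝒱.H1.O ∧ ∀ᶠ y' in 𝓝 y, y' ∈ 𝒱.V.carrier → 𝒱.k y' = 1) ∨
    (y ∈ 𝒱.H2.O ∧ ∀ᶠ y' in 𝓝 y, y' ∈ 𝒱.V.carrier → 𝒱.k y' = 0) := by
  rcases 𝒱.cover y hy with h | h | ⟨z, hz, hN, rfl⟩ | ⟨z, hz, hN, rfl⟩
  · exact absurd h hS
  · exact Or.inl h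
  · have hzN : z ∈ dom g1 N.carrier 20000 := ⟨by linarith, hN⟩
    by_cases h0 : p1 z = 0
    · exact Or.inr (Or.inl ⟨(𝒱.H1.maps z (dom_sub C hzN)).2, triH1 𝒱 hz hN h0⟩)
    · left
      obtain ⟨G, hG⟩ := glue1 hl 𝒱
      have hq : G.symm.q z ≠ 0 := by
        change G.q z ≠ 0
        rw [hG]
        exact norm_ne_zero_iff.mpr h0
      refine ⟨G.symm.τ z, ?_, ?_, G.symm.trans z hzN hq⟩
      · rw [G.symm.gτ z hq]
        exact hz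
      · rw [G.symm.p3τ z hq]
        exact hN
  · have hzN : z ∈ dom g2 N.carrier 20000 := ⟨by linarith, hN⟩
    by_cases h0 : p2 z = 0
    · exact Or.inr (Or.inr ⟨(𝒱.H2.maps z (dom_sub C hzN)).2, triH2 𝒱 hz hN h0⟩)
    · left
      obtain ⟨G, hG⟩ := glue2 hl 𝒱
      have hq : G.symm.q z ≠ 0 := by
        change G.q z ≠ 0
        rw [hG]
        exact norm_ne_zero_iff.mpr h0
      refine ⟨G.symm.τ z, ?_, ?_, G.symm.trans z hzN hq⟩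
      · rw [G.symm.gτ z hq]
        exact hz
      · rw [G.symm.p3τ z hq]
        exact hN

theorem dk_zero {κ : Type} [Fintype κ] {t : Tw 𝒱.M κ} {u : En 𝒱.M → HF 𝒱.M κ}
    (hu : VF 𝒱.V.toGeo t u) {y : En 𝒱.M} (hy : y ∈ 𝒱.V.carrier)
    (hd : dV 𝒱.V.toGeo t u y = 0) {c : ℝ}
    (hk : ∀ᶠ y' in 𝓝 y, y' ∈ 𝒱.V.carrier → 𝒱.k y' = c) :
    dV 𝒱.V.toGeo t (fun x => 𝒱.k x • u x) y = 0 := by
  have hkd : DifferentiableAt ℝ 𝒱.k y := 𝒱.smooth_k.differentiable (by simp) y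
  have h1 : ∀ v, fderiv ℝ 𝒱.k y (𝒱.V.P y v) = 0 := by
    intro v
    have h2 := su_local 𝒱.V.toGeo hy (f := fun x => 𝒱.k x - c) (hkd.sub_const c) (by
      filter_upwards [hk] with y' hy' hyV
      rw [hy' hyV, sub_self]) v
    rwa [fderiv_sub_const] at h2
  rw [dV_mul hy hkd (hu.smooth.differentiable (by simp) y) (hu.tan y hy) (hu.sec y hy), hd,
    smul_zero, add_zero]
  refine Finset.sum_eq_zero fun a _ => ?_
  rw [h1, zero_smul]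

end

end Pool.Agent.EXO
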