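import Pool.Agent.EXO.TopSrc
import Pool.Agent.EXO.TopBox
import Pool.Agent.EXO.TopKap

/-!
# EXO / TopDec: decomposition of closed forms of degree 7

Proof.  `dV = dV V t`, `t = tV`.
(1) `β` from `src_exact`.  `AS = S.Ψ '' {z | gS z ≤ 10 ∧ p3 z ∈ N}` is compact and contained in `V ∩ S.O`.  Cut-off `χ`
(`exists_cutoff`): `χ = 1` on the open set `U₀ ⊇ AS`, `tsupport χ ⊆ S.O`; `v₁` smooth with `v₁ = S.extF χ β` on `V`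
(`ext_exists`, `ext_VF`; `dg 6 v₁ = v₁` on `V` by `dg_ext`).  `U = U₀ ∩ S.O`.  For `y ∈ V ∩ U`: `dV v₁ y = u y` by
`dV_eq` (`pull S.Ψ v₁ z' = χ (S.Ψ z') • pull R β z' = pull R β z'` for `z'` near `S.Φ y`, `pull_ext`).
`u' = u - dV v₁`: VF, `dV u' = 0` on `V` (`dV_sub`, `ddV`), `dg 7 u' = u'` on `V` (`dg_dV`), `u' = 0` on `V ∩ U`.
(2) `γ = dV (k u')`: VF, `dg 8 γ = γ` on `V`, `dV γ = 0` on `V` (`ddV`).  Support: let `y ∈ V`, `γ y ≠ 0`.  Then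
`y ∉ U` (otherwise `k u' = 0` on `V` near `y`, `dV_congr`), so `y ∉ AS`, and by `tri` and `dk_zero` (`γ y ≠ 0`
excludes `k` constant near `y`) `y = K.Ψ z` with `gK z ≤ 1/3`, and `triK` gives the bounds on `z`.
`v'`, `C0` from `box_exact`.  `u₁ = k u' - v'`, `u₂ = u' - u₁ = (1 - k) u' + v'`.  Then `dV u₁ = 0`, `dV u₂ = 0`, degree `7`,
`u = u₁ + u₂ + dV v₁` on `V`.
(3) `T = V ∖ U` compact.  `C₁ = (T ∩ closure (V ∩ {k ≠ 0})) ∪ C0`, `C₂ = (T ∩ closure (V ∩ {k ≠ 1})) ∪ C0`.  If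
`y ∈ V`, `u₁ y ≠ 0`, then `v' y ≠ 0` (so `y ∈ C0`) or `k y ≠ 0` and `u' y ≠ 0` (so `y ∉ U`).  `C₁ ⊆ V ∩ (K.O ∪ H1.O)`:
for `y ∈ T ∩ closure (V ∩ {k ≠ 0})` use `tri`: the third case is impossible since `k = 0` on `V` near `y`.
`C₂ ⊆ V ∩ (K.O ∪ H2.O)` in the same way.  (`K.Ψ z ∈ K.O` by `maps`.)
-/

set_option autoImplicit false
set_option maxSynthPendingDepth 3

open Set MeasureTheory Matrix Filter Topology
open scoped ContDiff ENNReal ComplexConjugate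

namespace Pool.Agent.EXO

section

variable {N : OrGeo 6 7} {C : Collar N.carrier} {l δ : ℝ} (𝒱 : VData N C l δ)
  {ι : Type} [Fintype ι] [DecidableEq ι] (E : FlatBd N.toGeo ι)

/-- Closed forms of degree `7` with compact support in the open set `O` (up to `V`). -/
structure Supp7 (O : Set (En 𝒱.M)) (u : En 𝒱.M → HF 𝒱.M ι) : Prop where
  vf : VF 𝒱.V.toGeo (tV 𝒱 E) u
  deg : ∀ y ∈ 𝒱.V.carrier, dg 7 (u y) = u y
  closed : ∀ y ∈ 𝒱.V.carrier, dV 𝒱.V.toGeo (tV 𝒱 E) u y = 0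
  supp : ∃ C1 : Set (En 𝒱.M), IsCompact C1 ∧ C1 ⊆ 𝒱.V.carrier ∩ O ∧
    ∀ y ∈ 𝒱.V.carrier, y ∉ C1 → u y = 0

variable {T : En 7 → En 7 → Matrix ι ι ℂ}

omit [DecidableEq ι] in
private theorem topdec_dV_zero {n M : ℕ} {V : Geo n M} {t : Tw M ι} (x : En M) :
    dV V t (fun _ => (0 : HF M ι)) x = 0 := by
  unfold dV covV
  simp

private theorem topdec_compact (K : Set (En 7)) (hK : IsCompact K) :
    IsCompact {z : En 15 | gS z ≤ 10 ∧ p3 z ∈ K} := by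
  have h1 : IsCompact ((Metric.closedBall (0 : En 4) 4 ×ˢ Metric.closedBall (0 : En 4) 4) ×ˢ K) :=
    ((isCompact_closedBall _ _).prod (isCompact_closedBall _ _)).prod hK
  have hc : Continuous fun q : (En 4 × En 4) × En 7 => j15 q.1.1 q.1.2 q.2 := by
    have h2 : ContDiffOn ℝ ∞ (fun q : (En 4 × En 4) × En 7 => j15 q.1.1 q.1.2 q.2) Set.univ :=
      contDiffOn_j15 (contDiff_fst.comp contDiff_fst).contDiffOn
        (contDiff_snd.comp contDiff_fst).contDiffOn contDiff_snd.contDiffOn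
    exact (contDiffOn_univ.mp h2).continuous
  refine (h1.image hc).of_isClosed_subset ?_ ?_
  · exact (isClosed_le gOk_S.cont continuous_const).inter (hK.isClosed.preimage continuous_p3)
  · rintro z ⟨hz, hzK⟩
    refine ⟨((p1 z, p2 z), p3 z), ⟨⟨?_, ?_⟩, hzK⟩, j15_p z⟩
    · rw [mem_closedBall_zero_iff]
      unfold gS at hz
      nlinarith [sq_nonneg ‖p2 z‖, norm_nonneg (p1 z)]
    · rw [mem_closedBall_zero_iff]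
      unfold gS at hz
      nlinarith [sq_nonneg ‖p1 z‖, norm_nonneg (p2 z)]

theorem top_dec (hl : 0 < l) (hE : E.NoPar) (hT : E.IsPT δ T) {u : En 𝒱.M → HF 𝒱.M ι}
    (hu : VF 𝒱.V.toGeo (tV 𝒱 E) u) (h7 : ∀ y ∈ 𝒱.V.carrier, dg 7 (u y) = u y)
    (hd : ∀ y ∈ 𝒱.V.carrier, dV 𝒱.V.toGeo (tV 𝒱 E) u y = 0) :
    ∃ u1 u2 v : En 𝒱.M → HF 𝒱.M ι, Supp7 𝒱 E (𝒱.K.O ∪ 𝒱.H1.O) u1 ∧
      Supp7 𝒱 E (𝒱.K.O ∪ 𝒱.H2.O) u2 ∧ VF 𝒱.V.toGeo (tV 𝒱 E) v ∧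
      ∀ y ∈ 𝒱.V.carrier, u y = u1 y + u2 y + dV 𝒱.V.toGeo (tV 𝒱 E) v y := by
  have ht := tV_smooth 𝒱 E
  have hV := tV_onV 𝒱 E
  -- step 1
  obtain ⟨β, hβsec, hβ6, hβd⟩ := src_exact 𝒱 E hT hu h7 hd
  have hASc : IsCompact (𝒱.S.Ψ '' {z : En 15 | gS z ≤ 10 ∧ p3 z ∈ N.carrier}) := by
    refine (topdec_compact _ N.compact).image_of_continuousOn
      (𝒱.S.smoothΨ.continuousOn.mono ?_)
    rintro z ⟨hz, hzN⟩
    exact ⟨by linarith, C.sub hzN⟩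
  have hASO : 𝒱.S.Ψ '' {z : En 15 | gS z ≤ 10 ∧ p3 z ∈ N.carrier} ⊆ 𝒱.S.O := by
    rintro _ ⟨z, ⟨hz, hzN⟩, rfl⟩
    exact (𝒱.S.maps z ⟨by linarith, C.sub hzN⟩).2
  obtain ⟨χ, hχ, ⟨U₀, hU₀, hAU, hχ1⟩, hχs, _⟩ :=
    exists_cutoff hASc.isClosed 𝒱.S.openO hASO
  obtain ⟨v1, hv1s, hv1⟩ := VPiece.ext_exists (V := 𝒱.V.toGeo) 𝒱.S gOk_S hχ hχs hβsec.1
  have hv1F : VF 𝒱.V.toGeo (tV 𝒱 E) v1 :=
    VPiece.ext_VF (V := 𝒱.V.toGeo) 𝒱.S gOk_S (fun z hz => hβsec.2 z hz) hv1s hv1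
  have hv16 : ∀ y ∈ 𝒱.V.carrier, dg 6 (v1 y) = v1 y := by
    intro y hy
    rw [hv1 y hy]
    exact VPiece.dg_ext (V := 𝒱.V.toGeo) 𝒱.S hβ6 y
  have hUopen : IsOpen (U₀ ∩ 𝒱.S.O) := hU₀.inter 𝒱.S.openO
  have hv1d : ∀ y ∈ 𝒱.V.carrier, y ∈ U₀ ∩ 𝒱.S.O →
      dV 𝒱.V.toGeo (tV 𝒱 E) v1 y = u y := by
    intro y hy hyU
    have hz : 𝒱.S.Φ y ∈ dom gS C.O 20000 := dom_sub C (𝒱.S.mapsΦ y ⟨hy, hyU.2⟩)
    refine VPiece.dV_eq (V := 𝒱.V.toGeo) 𝒱.S gOk_S hv1F hu ⟨hy, hyU.2⟩ (β := β) ?_ ?_ (hβd _ hz)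
    · exact (hβsec.1.contDiffAt ((isOpen_dom gOk_S C.openO _).mem_nhds hz)).differentiableAt
        (by simp)
    · have h1 : ∀ᶠ z' in 𝓝 (𝒱.S.Φ y), 𝒱.S.Ψ z' ∈ U₀ := by
        have h2 : ContinuousAt 𝒱.S.Ψ (𝒱.S.Φ y) :=
          (VPiece.contDiffAt_Psi (V := 𝒱.V.toGeo) 𝒱.S gOk_S hz).continuousAt
        refine h2.eventually (hU₀.mem_nhds ?_)
        rw [𝒱.S.right y ⟨hy, hyU.2⟩]
        exact hyU.1
      filter_upwards [h1, (isOpen_dom gOk_S C.openO _).mem_nhds hz] with z' h3 h4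
      rw [VPiece.pull_ext (V := 𝒱.V.toGeo) 𝒱.S gOk_S hv1 h4, hχ1 _ h3, one_smul]
  obtain ⟨u', hu'def⟩ : ∃ u' : En 𝒱.M → HF 𝒱.M ι, u' = fun y => u y -
    dV 𝒱.V.toGeo (tV 𝒱 E) v1 y := ⟨_, rfl⟩
  have hu'F : VF 𝒱.V.toGeo (tV 𝒱 E) u' := by
    rw [hu'def]
    exact hu.sub (hv1F.dV ht hV)
  have hud : ∀ x, DifferentiableAt ℝ u x := fun x => hu.smooth.differentiable (by simp) x
  have hu'd : ∀ x, DifferentiableAt ℝ u' x := fun x => hu'F.smooth.differentiable (by simp) x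
  have hdv1 : ∀ x, DifferentiableAt ℝ (dV 𝒱.V.toGeo (tV 𝒱 E) v1) x := fun x =>
    (hv1F.dV ht hV).smooth.differentiable (by simp) x
  have hu'0 : ∀ y ∈ 𝒱.V.carrier, dV 𝒱.V.toGeo (tV 𝒱 E) u' y = 0 := by
    intro y hy
    rw [hu'def, dV_sub (hud y) (hdv1 y), hd y hy, ddV 𝒱 E hv1F hy, sub_zero]
  have hu'7 : ∀ y ∈ 𝒱.V.carrier, dg 7 (u' y) = u' y := by
    intro y hy
    rw [hu'def]
    simp only
    rw [map_sub, h7 y hy, dg_dV hy (hv1F.smooth.differentiable (by simp) y) hv16]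
  have hu'U : ∀ y ∈ 𝒱.V.carrier, y ∈ U₀ ∩ 𝒱.S.O → u' y = 0 := by
    intro y hy hyU
    rw [hu'def]
    simp only
    rw [hv1d y hy hyU, sub_self]
  -- step 2
  have hkF : VF 𝒱.V.toGeo (tV 𝒱 E) (fun x => 𝒱.k x • u' x) := hu'F.mul 𝒱.smooth_k
  have hkd : ∀ x, DifferentiableAt ℝ (fun x => 𝒱.k x • u' x) x := fun x =>
    hkF.smooth.differentiable (by simp) x
  have hk7 : ∀ y ∈ 𝒱.V.carrier, dg 7 (𝒱.k y • u' y) = 𝒱.k y • u' y := by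
    intro y hy
    rw [← Complex.coe_smul, map_smul, hu'7 y hy]
  have hγF := hkF.dV ht hV
  have hnotS : ∀ y ∈ 𝒱.V.carrier, y ∉ U₀ ∩ 𝒱.S.O →
      ¬ ∃ z, gS z ≤ 10 ∧ p3 z ∈ N.carrier ∧ y = 𝒱.S.Ψ z := by
    rintro y _ hyU ⟨z, hz, hzN, rfl⟩
    exact hyU ⟨hAU ⟨z, ⟨hz, hzN⟩, rfl⟩, hASO ⟨z, ⟨hz, hzN⟩, rfl⟩⟩
  have hsupp : ∀ y ∈ 𝒱.V.carrier, dV 𝒱.V.toGeo (tV 𝒱 E) (fun x => 𝒱.k x • u' x) y ≠ 0 →
      ∃ z, p3 z ∈ N.carrier ∧ y = 𝒱.K.Ψ z ∧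
        ‖p1 z‖ ^ 2 ≤ 4 / 11 ∧ 4 ≤ ‖p2 z‖ ^ 2 ∧ ‖p2 z‖ ^ 2 ≤ 9 := by
    intro y hy hne
    have hyU : y ∉ U₀ ∩ 𝒱.S.O := by
      intro hyU
      refine hne ?_
      rw [dV_congr hy (hkd y) (differentiableAt_const (0 : HF 𝒱.M ι)) ?_, topdec_dV_zero]
      filter_upwards [hUopen.mem_nhds hyU] with y' h1 h2
      rw [hu'U y' h2 h1, smul_zero]
    rcases tri 𝒱 hl hy (hnotS y hy hyU) with ⟨z, hz, hzN, rfl⟩ | ⟨_, hk⟩ | ⟨_, hk⟩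
    · rcases triK 𝒱 hz hzN with hk | hk | hb
      · exact absurd (dk_zero 𝒱 hu'F hy (hu'0 _ hy) hk) hne
      · exact absurd (dk_zero 𝒱 hu'F hy (hu'0 _ hy) hk) hne
      · exact ⟨z, hzN, rfl, hb⟩
    · exact absurd (dk_zero 𝒱 hu'F hy (hu'0 _ hy) hk) hne
    · exact absurd (dk_zero 𝒱 hu'F hy (hu'0 _ hy) hk) hne
  obtain ⟨v', C0, hv'F, hv'7, hv'd, hC0, hC0sub, hv'0⟩ := box_exact 𝒱 E hE hγF
    (fun y hy => dg_dV hy (hkd y) hk7) (fun y hy => ddV 𝒱 E hkF hy) hsupp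
  have hv'dd : ∀ x, DifferentiableAt ℝ v' x := fun x => hv'F.smooth.differentiable (by simp) x
  obtain ⟨u1, hu1def⟩ : ∃ u1 : En 𝒱.M → HF 𝒱.M ι, u1 = fun y => 𝒱.k y • u' y - v' y := ⟨_, rfl⟩
  have hu1F : VF 𝒱.V.toGeo (tV 𝒱 E) u1 := by
    rw [hu1def]
    exact hkF.sub hv'F
  have hu1d : ∀ x, DifferentiableAt ℝ u1 x := fun x => hu1F.smooth.differentiable (by simp) x
  have hu10 : ∀ y ∈ 𝒱.V.carrier, dV 𝒱.V.toGeo (tV 𝒱 E) u1 y = 0 := by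
    intro y hy
    rw [hu1def, dV_sub (hkd y) (hv'dd y), hv'd y hy, sub_self]
  have hu17 : ∀ y ∈ 𝒱.V.carrier, dg 7 (u1 y) = u1 y := by
    intro y hy
    rw [hu1def]
    simp only
    rw [map_sub, hk7 y hy, hv'7 y hy]
  -- step 3
  have hT : IsCompact (𝒱.V.carrier \ (U₀ ∩ 𝒱.S.O)) := 𝒱.V.compact.diff hUopen
  refine ⟨u1, fun y => u' y - u1 y, v1, ⟨hu1F, hu17, hu10, ?_⟩, ⟨hu'F.sub hu1F, ?_, ?_, ?_⟩,
    hv1F, ?_⟩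
  · refine ⟨((𝒱.V.carrier \ (U₀ ∩ 𝒱.S.O)) ∩ closure (𝒱.V.carrier ∩ {y | 𝒱.k y ≠ 0})) ∪ C0,
      (hT.inter_right isClosed_closure).union hC0, ?_, ?_⟩
    · rintro y (⟨⟨hy, hyU⟩, hycl⟩ | hy)
      · refine ⟨hy, ?_⟩
        rcases tri 𝒱 hl hy (hnotS y hy hyU) with ⟨z, hz, hzN, rfl⟩ | ⟨hO, _⟩ | ⟨_, hk⟩
        · exact Or.inl (𝒱.K.maps z ⟨by linarith, C.sub hzN⟩).2
        · exact Or.inr hO
        · exfalso
          rw [mem_closure_iff_frequently] at hycl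
          obtain ⟨y', h1, h2⟩ := (hycl.and_eventually hk).exists
          exact h1.2 (h2 h1.1)
      · exact ⟨(hC0sub hy).1, Or.inl (hC0sub hy).2⟩
    · intro y hy hyC
      rw [hu1def]
      simp only
      rw [hv'0 y hy (fun h => hyC (Or.inr h)), sub_zero]
      by_cases hyU : y ∈ U₀ ∩ 𝒱.S.O
      · rw [hu'U y hy hyU, smul_zero]
      · have hk0 : 𝒱.k y = 0 := by
          by_contra hne
          exact hyC (Or.inl ⟨⟨hy, hyU⟩, subset_closure ⟨hy, hne⟩⟩)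
        rw [hk0, zero_smul]
  · intro y hy
    rw [map_sub, hu'7 y hy, hu17 y hy]
  · intro y hy
    rw [dV_sub (hu'd y) (hu1d y), hu'0 y hy, hu10 y hy, sub_zero]
  · refine ⟨((𝒱.V.carrier \ (U₀ ∩ 𝒱.S.O)) ∩ closure (𝒱.V.carrier ∩ {y | 𝒱.k y ≠ 1})) ∪ C0,
      (hT.inter_right isClosed_closure).union hC0, ?_, ?_⟩
    · rintro y (⟨⟨hy, hyU⟩, hycl⟩ | hy)
      · refine ⟨hy, ?_⟩
        rcases tri 𝒱 hl hy (hnotS y hy hyU) with ⟨z, hz, hzN, rfl⟩ | ⟨_, hk⟩ | ⟨hO, _⟩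
        · exact Or.inl (𝒱.K.maps z ⟨by linarith, C.sub hzN⟩).2
        · exfalso
          rw [mem_closure_iff_frequently] at hycl
          obtain ⟨y', h1, h2⟩ := (hycl.and_eventually hk).exists
          exact h1.2 (h2 h1.1)
        · exact Or.inr hO
      · exact ⟨(hC0sub hy).1, Or.inl (hC0sub hy).2⟩
    · intro y hy hyC
      rw [hu1def]
      simp only
      rw [hv'0 y hy (fun h => hyC (Or.inr h)), sub_zero]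
      by_cases hyU : y ∈ U₀ ∩ 𝒱.S.O
      · rw [hu'U y hy hyU, smul_zero, sub_zero]
      · have hk1 : 𝒱.k y = 1 := by
          by_contra hne
          exact hyC (Or.inl ⟨⟨hy, hyU⟩, subset_closure ⟨hy, hne⟩⟩)
        rw [hk1, one_smul, sub_self]
  · intro y hy
    rw [add_sub_cancel, hu'def]
    simp only
    rw [sub_add_cancel]

end

end Pool.Agent.EXO
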