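import Pool.Agent.EXO.FmLam

/-!
# EXO / TopDeg: the grading operator reverses degrees

If `G` anticommutes with the Clifford multiplications `epsv v - iotav v` and commutes with
`epsv v + iotav v` for tangential `v` (on tangential forms), then `G` maps degree `k` to degree
`n - k`.
-/

set_option autoImplicit false
set_option maxSynthPendingDepth 3

namespace Pool.Agent.EXO

open Finset

variable {m n : ℕ} {κ : Type*} [Fintype κ]

/-- The number operator. -/
noncomputable def num (u : HF m κ) : HF m κ := ∑ a, eps a (iota a u)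

theorem num_apply (u : HF m κ) (S : Finset (Fin m)) (i : κ) :
    num u (S, i) = (S.card : ℂ) * u (S, i) := by
  have h1 : num u (S, i) = ∑ a, (eps a (iota a u)) (S, i) := by
    simp [num]
  have h2 : ∀ a, (eps a (iota a u)) (S, i) = if a ∈ S then u (S, i) else 0 := by
    intro a
    rw [eps_apply]
    by_cases ha : a ∈ S
    · rw [if_pos ha, if_pos ha, iota_apply, if_neg (notMem_erase a S), insert_erase ha,
        sg_erase_self, ← mul_assoc, sg_mul_self, one_mul]
    · rw [if_neg ha, if_neg ha]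
  rw [h1, sum_congr rfl fun a _ => h2 a, ← Finset.sum_filter, Finset.sum_const, nsmul_eq_mul]
  congr 2
  simp

theorem num_add (u v : HF m κ) : num (u + v) = num u + num v := by
  simp [num, sum_add_distrib]

theorem num_dg (j : ℕ) (u : HF m κ) : num (dg j u) = (j : ℂ) • dg j u := by
  ext ⟨S, i⟩
  rw [num_apply, PiLp.smul_apply, smul_eq_mul, dg_apply]
  by_cases h : S.card = j
  · rw [if_pos h, h]
  · rw [if_neg h, mul_zero, mul_zero]

theorem dg_of_num {k j : ℕ} {u : HF m κ} (h : num u = (j : ℂ) • u) :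
    dg k u = if k = j then u else 0 := by
  ext ⟨S, i⟩
  have h1 := congrArg (fun z : HF m κ => z (S, i)) h
  simp only [num_apply, PiLp.smul_apply, smul_eq_mul] at h1
  rw [dg_apply]
  by_cases h2 : u (S, i) = 0
  · by_cases h3 : k = j
    · simp [h2, h3]
    · simp [h2, h3]
  · have h3 : S.card = j := by
      have := mul_right_cancel₀ h2 h1
      exact Nat.cast_injective this
    by_cases h4 : k = j
    · rw [if_pos h4, if_pos (by omega)]
    · rw [if_neg h4, if_neg (by omega)]; simp

section

variable {P : RE m →L[ℝ] RE m}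

theorem tan_iotav (hs : ContinuousLinearMap.adjoint P = P) (hp : P.comp P = P) {u : HF m κ}
    (hu : Lam P u = u) (v : RE m) : iotav v u = iotav (P v) u := by
  have h1 : ∀ w : RE m, iotav w u = Lam P (iotav (P w) u) := by
    intro w
    nth_rewrite 1 [← hu]
    rw [iotav_Lam, hs]
  have h2 : P (P v) = P v := congrArg (fun A : RE m →L[ℝ] RE m => A v) hp
  calc iotav v u = Lam P (iotav (P v) u) := h1 v
    _ = Lam P (iotav (P (P v)) u) := by rw [h2]
    _ = iotav (P v) u := (h1 (P v)).symm

theorem num_tan (hs : ContinuousLinearMap.adjoint P = P) (hp : P.comp P = P) {u : HF m κ}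
    (hu : Lam P u = u) : ∑ a, epsv (P (ee a)) (iotav (P (ee a)) u) = num u := by
  have h1 : ∀ a, iotav (P (ee a)) u = iota a u := by
    intro a
    rw [← tan_iotav hs hp hu, iotav_ee]
  have h2 : ∀ a b : Fin m, (P (ee a)) b = (P (ee b)) a := by
    intro a b
    have e1 : inner ℝ (P (ee a)) (ee b) = inner ℝ (ee a) (P (ee b)) := by
      rw [← ContinuousLinearMap.adjoint_inner_right, hs]
    have e2 : inner ℝ (P (ee a)) (ee b) = (P (ee a)) b := by
      simp [ee, EuclideanSpace.inner_single_right]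
    have e3 : inner ℝ (ee a) (P (ee b)) = (P (ee b)) a := by
      simp [ee, EuclideanSpace.inner_single_left]
    rw [← e2, ← e3, e1]
  have h3 : ∀ a, epsv (P (ee a)) (iotav (P (ee a)) u) =
      ∑ b, eps b (((P (ee b)) a : ℂ) • iota a u) := by
    intro a
    rw [h1, epsv_apply]
    refine sum_congr rfl fun b _ => ?_
    rw [map_smul, h2 a b]
  rw [sum_congr rfl fun a _ => h3 a, sum_comm]
  unfold num
  refine sum_congr rfl fun b _ => ?_
  rw [← map_sum]
  congr 1
  rw [← iotav_apply, ← tan_iotav hs hp hu, iotav_ee]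

theorem sum_cc (hs : ContinuousLinearMap.adjoint P = P) (hp : P.comp P = P)
    (ht : ∑ a, ‖P (ee a)‖ ^ 2 = (n : ℝ)) {u : HF m κ} (hu : Lam P u = u) :
    ∑ a, (epsv (P (ee a)) (epsv (P (ee a)) u + iotav (P (ee a)) u) -
      iotav (P (ee a)) (epsv (P (ee a)) u + iotav (P (ee a)) u)) =
      (2 : ℂ) • num u - (n : ℂ) • u := by
  have h1 : ∀ a, (epsv (P (ee a)) (epsv (P (ee a)) u + iotav (P (ee a)) u) -
      iotav (P (ee a)) (epsv (P (ee a)) u + iotav (P (ee a)) u)) =
      (2 : ℂ) • epsv (P (ee a)) (iotav (P (ee a)) u) - ((‖P (ee a)‖ ^ 2 : ℝ) : ℂ) • u := by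
    intro a
    rw [map_add, map_add, epsv_self, iotav_self, iotav_epsv, real_inner_self_eq_norm_sq, two_smul]
    abel
  rw [sum_congr rfl fun a _ => h1 a, sum_sub_distrib, ← Finset.smul_sum, num_tan hs hp hu,
    ← Finset.sum_smul, ← Complex.ofReal_sum, ht]
  simp

end

/-- A self-adjoint projection of rank `n` (given by an isometry) kills the forms of degree
larger than `n`. -/
theorem dg_tan_zero {A : RE n →L[ℝ] RE m} {P : RE m →L[ℝ] RE m}
    (hA : A.comp (ContinuousLinearMap.adjoint A) = P) {u : HF m κ} (hu : Lam P u = u) {j : ℕ}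
    (hj : n < j) : dg j u = 0 := by
  rw [← hu, ← hA, Lam_comp_apply, ← Lam_dg, dg_eq_zero hj, map_zero]

theorem trace_of_iso {A : RE n →L[ℝ] RE m} {P : RE m →L[ℝ] RE m}
    (hA : A.comp (ContinuousLinearMap.adjoint A) = P)
    (hA' : (ContinuousLinearMap.adjoint A).comp A = ContinuousLinearMap.id ℝ _) :
    ∑ a, ‖P (ee a)‖ ^ 2 = (n : ℝ) := by
  have hiso : ∀ v : RE n, ‖A v‖ ^ 2 = ‖v‖ ^ 2 := by
    intro v
    rw [← real_inner_self_eq_norm_sq, ← real_inner_self_eq_norm_sq,
      ← ContinuousLinearMap.adjoint_inner_right]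
    have : (ContinuousLinearMap.adjoint A) (A v) = v :=
      congrArg (fun B : RE n →L[ℝ] RE n => B v) hA'
    rw [this]
  have h1 : ∀ a, ‖P (ee a)‖ ^ 2 = ∑ b : Fin n, (inner ℝ (A (ee b)) (ee a)) ^ 2 := by
    intro a
    have e1 : P (ee a) = A (ContinuousLinearMap.adjoint A (ee a)) :=
      (congrArg (fun B : RE m →L[ℝ] RE m => B (ee a)) hA).symm
    rw [e1, hiso, EuclideanSpace.norm_sq_eq]
    refine sum_congr rfl fun b _ => ?_
    have e2 : (ContinuousLinearMap.adjoint A (ee a)) b =
        inner ℝ (ee b) (ContinuousLinearMap.adjoint A (ee a)) := by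
      simp [ee, EuclideanSpace.inner_single_left]
    rw [e2, ContinuousLinearMap.adjoint_inner_right, Real.norm_eq_abs, sq_abs]
  have h2 : ∀ b : Fin n, ∑ a : Fin m, (inner ℝ (A (ee b)) (ee a)) ^ 2 = 1 := by
    intro b
    have e1 : ∀ a : Fin m, inner ℝ (A (ee b)) (ee a) = (A (ee b)) a := by
      intro a
      simp [ee, EuclideanSpace.inner_single_right]
    simp_rw [e1]
    have e2 := hiso (ee b)
    rw [EuclideanSpace.norm_sq_eq] at e2
    simpa [ee] using e2
  rw [sum_congr rfl fun a _ => h1 a, sum_comm, sum_congr rfl fun b _ => h2 b]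
  simp

/-- The grading operator reverses degrees. -/
theorem deg_reversal {A : RE n →L[ℝ] RE m} {P : RE m →L[ℝ] RE m}
    (hA : A.comp (ContinuousLinearMap.adjoint A) = P)
    (hA' : (ContinuousLinearMap.adjoint A).comp A = ContinuousLinearMap.id ℝ _)
    {X : HF m κ → Prop} (hX : ∀ u, X u → Lam P u = u) (hXdg : ∀ u j, X u → X (dg j u))
    (hXc : ∀ u v, X u → X (epsv (P v) u + iotav (P v) u))
    {G : HF m κ →ₗ[ℂ] HF m κ} (hG : ∀ u, X u → X (G u))
    (hc : ∀ u v, X u → G (epsv (P v) u - iotav (P v) u) =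
      -(epsv (P v) (G u) - iotav (P v) (G u)))
    (hc' : ∀ u v, X u → G (epsv (P v) u + iotav (P v) u) =
      epsv (P v) (G u) + iotav (P v) (G u))
    {u : HF m κ} (hu : X u) {k : ℕ} (hk : k ≤ n) : dg k (G u) = G (dg (n - k) u) := by
  have hs : ContinuousLinearMap.adjoint P = P := by
    rw [← hA, ContinuousLinearMap.adjoint_comp, ContinuousLinearMap.adjoint_adjoint]
  have hp : P.comp P = P := by
    rw [← hA]
    ext1 v
    have : (ContinuousLinearMap.adjoint A) (A (ContinuousLinearMap.adjoint A v)) =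
        ContinuousLinearMap.adjoint A v :=
      congrArg (fun B : RE n →L[ℝ] RE n => B (ContinuousLinearMap.adjoint A v)) hA'
    simp [this]
  have ht := trace_of_iso hA hA'
  -- the number operator of `G u`
  have key : ∀ u, X u → num (G u) = G ((n : ℂ) • u - num u) := by
    intro u hu
    have e1 := sum_cc hs hp ht (hX u hu)
    have e2 := sum_cc hs hp ht (hX _ (hG u hu))
    have e3 : ∀ a, (epsv (P (ee a)) (epsv (P (ee a)) (G u) + iotav (P (ee a)) (G u)) -
        iotav (P (ee a)) (epsv (P (ee a)) (G u) + iotav (P (ee a)) (G u))) =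
        - G (epsv (P (ee a)) (epsv (P (ee a)) u + iotav (P (ee a)) u) -
          iotav (P (ee a)) (epsv (P (ee a)) u + iotav (P (ee a)) u)) := by
      intro a
      rw [← hc' u (ee a) hu, hc _ (ee a) (hXc u (ee a) hu), neg_neg]
    rw [sum_congr rfl fun a _ => e3 a, sum_neg_distrib, ← map_sum, e1, map_sub, map_smul,
      map_smul] at e2
    rw [map_sub, map_smul]
    have e4 : (2 : ℂ) • num (G u) = (2 : ℂ) • ((n : ℂ) • G u - G (num u)) := by
      rw [smul_sub]
      have e5 : (2 : ℂ) • num (G u) = (n : ℂ) • G u - ((2 : ℂ) • G (num u) - (n : ℂ) • G u) := by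
        rw [eq_sub_iff_add_eq] at e2
        rw [← e2]; abel
      rw [e5, two_smul ℂ ((n : ℂ) • G u)]
      abel
    exact smul_right_injective _ (by norm_num : (2 : ℂ) ≠ 0) e4
  -- decompose `u`
  have hdec : u = ∑ j ∈ range (m + 1), dg j u := (sum_dg u).symm
  have hterm : ∀ j, j ≤ n → dg k (G (dg j u)) = if k = n - j then G (dg j u) else 0 := by
    intro j hj
    have e1 : num (G (dg j u)) = ((n - j : ℕ) : ℂ) • G (dg j u) := by
      rw [key _ (hXdg u j hu), num_dg, ← sub_smul, map_smul, Nat.cast_sub hj]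
    exact dg_of_num e1
  have hz : ∀ j, n < j → dg j u = 0 := fun j hj => dg_tan_zero hA (hX u hu) hj
  have h5 : dg k (G u) = ∑ j ∈ range (m + 1), dg k (G (dg j u)) := by
    nth_rewrite 1 [hdec]
    rw [map_sum, map_sum]
  rw [h5]
  by_cases hmem : n - k ∈ range (m + 1)
  · rw [Finset.sum_eq_single (n - k)]
    · rw [hterm _ (Nat.sub_le _ _), if_pos (by omega)]
    · intro j _ hj
      by_cases hjn : j ≤ n
      · rw [hterm j hjn, if_neg (by omega)]
      · rw [hz j (by omega), map_zero, map_zero]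
    · intro h
      exact absurd hmem h
  · have h6 : dg (n - k) u = 0 := dg_eq_zero (by rw [mem_range] at hmem; omega) u
    rw [h6, map_zero]
    refine Finset.sum_eq_zero fun j hj => ?_
    have hj' := mem_range.1 hj
    by_cases hjn : j ≤ n
    · rw [hterm j hjn, if_neg]
      intro h
      apply hmem
      rw [mem_range]
      omega
    · rw [hz j (by omega), map_zero, map_zero]

end Pool.Agent.EXO
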