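import Pool.Agent.EXO.DefC
import Pool.Agent.EXO.FmTw
import Pool.Agent.EXO.TopSu

/-!
# EXO / TopFl: the coefficients `tN` of a flat bundle, their pullbacks to open sets of `ℝ^k`
-/

set_option autoImplicit false
set_option maxSynthPendingDepth 3

open Set MeasureTheory Matrix Filter Topology
open scoped ContDiff ENNReal ComplexConjugate

namespace Pool.Agent.EXO

section

variable {ι : Type} [Fintype ι] [DecidableEq ι]

/-- A matrix as a continuous linear map of `ℂ^ι`. -/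
noncomputable def toK (T : Matrix ι ι ℂ) : KE ι →L[ℂ] KE ι := Matrix.toEuclideanCLM (𝕜 := ℂ) T

theorem toK_apply (T : Matrix ι ι ℂ) (x : KE ι) : toK T x = WithLp.toLp 2 (T *ᵥ WithLp.ofLp x) :=
  rfl

theorem toK_mul (S T : Matrix ι ι ℂ) : toK (S * T) = toK S * toK T := by
  unfold toK
  exact map_mul _ _ _

theorem toK_add (S T : Matrix ι ι ℂ) : toK (S + T) = toK S + toK T := by
  unfold toK
  exact map_add _ _ _

theorem toK_sub (S T : Matrix ι ι ℂ) : toK (S - T) = toK S - toK T := by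
  unfold toK
  exact map_sub _ _ _

theorem toK_neg (T : Matrix ι ι ℂ) : toK (-T) = -toK T := by
  unfold toK
  exact map_neg _ _

theorem toK_smul (c : ℂ) (T : Matrix ι ι ℂ) : toK (c • T) = c • toK T := by
  unfold toK
  exact map_smul _ _ _

theorem toK_one : toK (1 : Matrix ι ι ℂ) = 1 := by
  unfold toK
  exact map_one _

theorem toK_zero : toK (0 : Matrix ι ι ℂ) = 0 := by
  unfold toK
  exact map_zero _

theorem toK_conj (T : Matrix ι ι ℂ) : ContinuousLinearMap.adjoint (toK T) = toK Tᴴ := by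
  unfold toK
  exact (map_star (Matrix.toEuclideanCLM (n := ι) (𝕜 := ℂ)) T).symm

/-- `toK` as a continuous real linear map. -/
noncomputable def toKL (ι : Type) [Fintype ι] [DecidableEq ι] :
    Matrix ι ι ℂ →L[ℝ] (KE ι →L[ℂ] KE ι) :=
  LinearMap.toContinuousLinearMap
    { toFun := toK
      map_add' := toK_add
      map_smul' := by
        intro c T
        change toK (c • T) = c • toK T
        have h1 : c • T = (c : ℂ) • T := by
          ext i j
          simp
        rw [h1, toK_smul]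
        exact Complex.coe_smul c (toK T) }

theorem toKL_apply (T : Matrix ι ι ℂ) : toKL ι T = toK T := rfl

theorem cf_eq {m : ℕ} (T : Matrix ι ι ℂ) : (cf T : HF m ι →L[ℂ] HF m ι) = ten (toK T) := by
  ext1 u
  ext p
  obtain ⟨S, i⟩ := p
  rw [ten_apply]
  rfl

end

section

variable {k m : ℕ} {Y : Geo k m} {ι : Type} [Fintype ι] [DecidableEq ι] (E : FlatBd Y ι)

/-- The coefficients of a flat bundle. -/
noncomputable def FlatBd.tN : Tw m ι where
  e := fun x => toK (E.e x)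
  b := fun x => ∑ a, (EuclideanSpace.proj a : RE m →L[ℝ] ℝ).smulRight (toK (E.b a x))

theorem FlatBd.tN_b (x v : RE m) : E.tN.b x v = ∑ a, v a • toK (E.b a x) := by
  unfold FlatBd.tN
  simp

theorem FlatBd.tN_b' (x v : RE m) : E.tN.b x v = toK (∑ a, ((v a : ℝ) : ℂ) • E.b a x) := by
  rw [FlatBd.tN_b, ← toKL_apply, map_sum]
  refine Finset.sum_congr rfl fun a _ => ?_
  rw [toKL_apply, toK_smul]
  exact (Complex.coe_smul _ _).symm

theorem FlatBd.smooth_tNe : ContDiff ℝ ∞ E.tN.e := (toKL ι).contDiff.comp E.smooth_e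

theorem FlatBd.smooth_tNb : ContDiff ℝ ∞ E.tN.b := by
  have h : ∀ a, ContDiff ℝ ∞ fun x =>
      (EuclideanSpace.proj a : RE m →L[ℝ] ℝ).smulRight (toK (E.b a x)) := by
    intro a
    have h1 : ContDiff ℝ ∞ fun x => toK (E.b a x) := (toKL ι).contDiff.comp (E.smooth_b a)
    exact ((ContinuousLinearMap.smulRightL ℝ (RE m) (KE ι →L[ℂ] KE ι)
      (EuclideanSpace.proj a : RE m →L[ℝ] ℝ)).contDiff).comp h1
  change ContDiff ℝ ∞ fun x => ∑ a, (EuclideanSpace.proj a : RE m →L[ℝ] ℝ).smulRight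
    (toK (E.b a x))
  exact ContDiff.sum fun a _ => h a

theorem FlatBd.fderiv_tNe (x v : RE m) : fderiv ℝ E.tN.e x v = toK (fderiv ℝ E.e x v) := by
  have h1 : DifferentiableAt ℝ E.e x := (E.smooth_e.differentiable (by simp)) x
  have h2 := (toKL ι).hasFDerivAt.comp x h1.hasFDerivAt
  have h3 : fderiv ℝ E.tN.e x = (toKL ι).comp (fderiv ℝ E.e x) := h2.fderiv
  rw [h3]
  rfl

theorem FlatBd.fderiv_tNb (x v w : RE m) :
    fderiv ℝ E.tN.b x v w = toK (∑ a, ((w a : ℝ) : ℂ) • fderiv ℝ (E.b a) x v) := by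
  have h1 : DifferentiableAt ℝ E.tN.b x := (E.smooth_tNb.differentiable (by simp)) x
  have h2 : fderiv ℝ E.tN.b x v w = fderiv ℝ (fun y => E.tN.b y w) x v := by
    have h3 : HasFDerivAt (fun y => E.tN.b y w)
        ((ContinuousLinearMap.apply ℝ (KE ι →L[ℂ] KE ι) w).comp (fderiv ℝ E.tN.b x)) x :=
      (ContinuousLinearMap.apply ℝ (KE ι →L[ℂ] KE ι) w).hasFDerivAt.comp x h1.hasFDerivAt
    rw [h3.fderiv]
    rfl
  have h4 : (fun y => E.tN.b y w) = fun y => toKL ι (∑ a, w a • E.b a y) := by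
    funext y
    rw [FlatBd.tN_b, map_sum]
    exact Finset.sum_congr rfl fun a _ => by rw [map_smul]; rfl
  have h5 : ∀ a, DifferentiableAt ℝ (E.b a) x := fun a =>
    ((E.smooth_b a).differentiable (by simp)) x
  have h6 : HasFDerivAt (fun y => ∑ a, w a • E.b a y) (∑ a, w a • fderiv ℝ (E.b a) x) x :=
    HasFDerivAt.fun_sum fun a _ => (h5 a).hasFDerivAt.const_smul (w a)
  have h7 := (toKL ι).hasFDerivAt.comp x h6
  rw [h2, h4]
  change fderiv ℝ (⇑(toKL ι) ∘ fun y => ∑ a, w a • E.b a y) x v = _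
  rw [h7.fderiv]
  change toK ((∑ a, w a • fderiv ℝ (E.b a) x) v) = _
  congr 1
  rw [_root_.sum_apply]
  refine Finset.sum_congr rfl fun a _ => ?_
  rw [_root_.smul_apply]
  ext i j
  simp

variable {x : RE m}

theorem FlatBd.tN_ee (hx : x ∈ Y.carrier) : E.tN.e x * E.tN.e x = E.tN.e x := by
  change toK (E.e x) * toK (E.e x) = toK (E.e x)
  rw [← toK_mul, E.e_idem x hx]

theorem FlatBd.e_b1 (hx : x ∈ Y.carrier) (a : Fin m) : E.e x * E.b a x = E.b a x := by
  conv_lhs => rw [← E.e_b a x hx]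
  conv_rhs => rw [← E.e_b a x hx]
  rw [← Matrix.mul_assoc, ← Matrix.mul_assoc, E.e_idem x hx]

theorem FlatBd.e_b2 (hx : x ∈ Y.carrier) (a : Fin m) : E.b a x * E.e x = E.b a x := by
  conv_lhs => rw [← E.e_b a x hx]
  conv_rhs => rw [← E.e_b a x hx]
  rw [Matrix.mul_assoc, E.e_idem x hx]

theorem FlatBd.tN_eb (hx : x ∈ Y.carrier) (v : RE m) : E.tN.e x * E.tN.b x v = E.tN.b x v := by
  rw [FlatBd.tN_b', show E.tN.e x = toK (E.e x) from rfl, ← toK_mul, Finset.mul_sum]
  congr 1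
  exact Finset.sum_congr rfl fun a _ => by rw [Matrix.mul_smul, E.e_b1 hx]

theorem FlatBd.tN_be (hx : x ∈ Y.carrier) (v : RE m) : E.tN.b x v * E.tN.e x = E.tN.b x v := by
  rw [FlatBd.tN_b', show E.tN.e x = toK (E.e x) from rfl, ← toK_mul, Finset.sum_mul]
  congr 1
  exact Finset.sum_congr rfl fun a _ => by rw [Matrix.smul_mul, E.e_b2 hx]

theorem FlatBd.tN_flat (hx : x ∈ Y.carrier) {v w : RE m} (hv : Y.P x v = v)
    (hw : Y.P x w = w) :
    (E.tN.e x * (fderiv ℝ E.tN.e x v * fderiv ℝ E.tN.e x w) * E.tN.e x +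
        E.tN.e x * fderiv ℝ E.tN.b x v w * E.tN.e x + E.tN.b x v * E.tN.b x w) -
      (E.tN.e x * (fderiv ℝ E.tN.e x w * fderiv ℝ E.tN.e x v) * E.tN.e x +
        E.tN.e x * fderiv ℝ E.tN.b x w v * E.tN.e x + E.tN.b x w * E.tN.b x v) = 0 := by
  have h := E.flat x hx v w hv hw
  have h1 : E.tN.b x v * E.tN.b x w = E.tN.e x * (E.tN.b x v * E.tN.b x w) * E.tN.e x := by
    rw [mul_assoc, mul_assoc, E.tN_be hx, ← mul_assoc, E.tN_eb hx]
  have h2 : E.tN.b x w * E.tN.b x v = E.tN.e x * (E.tN.b x w * E.tN.b x v) * E.tN.e x := by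
    rw [mul_assoc, mul_assoc, E.tN_be hx, ← mul_assoc, E.tN_eb hx]
  rw [h1, h2]
  simp only [FlatBd.fderiv_tNe, FlatBd.fderiv_tNb, FlatBd.tN_b',
    show E.tN.e x = toK (E.e x) from rfl, ← toK_mul, ← toK_add, ← toK_sub]
  rw [← toK_zero, ← h]
  congr 1
  simp only [Matrix.mul_add, Matrix.add_mul, Matrix.mul_sub, Matrix.sub_mul,
    Finset.sum_sub_distrib]
  abel

/-- The pull back to an open subset of a Euclidean space by a map into `Y` is flat. -/
theorem FlatBd.flat_pull {l : ℕ} {F : RE l → RE m} {D : Set (RE l)} (hD : IsOpen D)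
    (hF : ContDiffOn ℝ ∞ F D) (hN : ∀ z ∈ D, F z ∈ Y.carrier) : (E.tN.pull F).Flat D where
  isOpen := hD
  smooth_e := E.smooth_tNe.comp_contDiffOn hF
  smooth_b := by
    have h1 : ContDiffOn ℝ ∞ (fun z => E.tN.b (F z)) D := E.smooth_tNb.comp_contDiffOn hF
    have h2 : ContDiffOn ℝ ∞ (fun z => fderiv ℝ F z) D := hF.fderiv_of_isOpen hD (by simp)
    exact h1.clm_comp h2
  idem := fun z hz => E.tN_ee (hN z hz)
  eb := fun z hz v => E.tN_eb (hN z hz) _
  be := fun z hz v => E.tN_be (hN z hz) _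
  flat := by
    intro z hz v w
    have hFz : ContDiffAt ℝ ∞ F z := hF.contDiffAt (hD.mem_nhds hz)
    have hFd : DifferentiableAt ℝ F z := hFz.differentiableAt (by simp)
    have hF2 : DifferentiableAt ℝ (fderiv ℝ F) z :=
      (hFz.fderiv_right (m := ∞) (by simp)).differentiableAt (by simp)
    have htan : ∀ v, Y.P (F z) (fderiv ℝ F z v) = fderiv ℝ F z v := fun v =>
      su_tan Y hFd (by filter_upwards [hD.mem_nhds hz] with y hy using hN y hy) v
    have hde : ∀ v, fderiv ℝ (E.tN.pull F).e z v = fderiv ℝ E.tN.e (F z) (fderiv ℝ F z v) := by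
      intro v
      have h1 : DifferentiableAt ℝ E.tN.e (F z) := (E.smooth_tNe.differentiable (by simp)) _
      have h2 : fderiv ℝ (E.tN.pull F).e z = (fderiv ℝ E.tN.e (F z)).comp (fderiv ℝ F z) :=
        (h1.hasFDerivAt.comp z hFd.hasFDerivAt).fderiv
      rw [h2]
      rfl
    have hdb : ∀ v w, fderiv ℝ (E.tN.pull F).b z v w =
        fderiv ℝ E.tN.b (F z) (fderiv ℝ F z v) (fderiv ℝ F z w) +
          E.tN.b (F z) (fderiv ℝ (fderiv ℝ F) z v w) := by
      intro v w
      have h1 : DifferentiableAt ℝ E.tN.b (F z) := (E.smooth_tNb.differentiable (by simp)) _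
      have h2 : HasFDerivAt (fun y => E.tN.b (F y))
          ((fderiv ℝ E.tN.b (F z)).comp (fderiv ℝ F z)) z :=
        h1.hasFDerivAt.comp z hFd.hasFDerivAt
      have h3 := h2.clm_comp hF2.hasFDerivAt
      have h4 : fderiv ℝ (E.tN.pull F).b z = _ := h3.fderiv
      rw [h4]
      simp only [_root_.add_apply, ContinuousLinearMap.comp_apply,
        ContinuousLinearMap.compL_apply, ContinuousLinearMap.flip_apply]
      rw [add_comm]
    have hsym : fderiv ℝ (fderiv ℝ F) z v w = fderiv ℝ (fderiv ℝ F) z w v :=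
      (hFz.isSymmSndFDerivAt (by
        rw [minSmoothness_of_isRCLikeNormedField]
        exact WithTop.coe_le_coe.2 (le_top : (2 : ℕ∞) ≤ ⊤))) v w
    have hfl := E.tN_flat (hN z hz) (htan v) (htan w)
    rw [hde, hde, hdb, hdb, hsym]
    change (E.tN.e (F z) * _ * E.tN.e (F z) + E.tN.e (F z) * _ * E.tN.e (F z) +
      E.tN.b (F z) (fderiv ℝ F z v) * E.tN.b (F z) (fderiv ℝ F z w)) -
      (E.tN.e (F z) * _ * E.tN.e (F z) + E.tN.e (F z) * _ * E.tN.e (F z) +
      E.tN.b (F z) (fderiv ℝ F z w) * E.tN.b (F z) (fderiv ℝ F z v)) = 0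
    rw [← hfl]
    simp only [mul_add, add_mul]
    abel

end

end Pool.Agent.EXO
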