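import Pool.Agent.EXO.TopTc

/-!
# EXO / TopGa: gauge transformations; the gauge transformation on the source piece

Proof of `d_gauge`.  `fderiv (fun y => ten (G y) (u y)) x v = ten (fderiv G x v) (u x) + ten (G x) (fderiv u x v)`
(`tenL` is a continuous linear map; bilinear).  With `u x = ten (tA.e x) (u x)`, each summand of `tB.d (ten G u) x` is
`eps a` of `ten (eB ∂G eA + bB G) u + ten (eB G) ∂u = ten (G bA) u + ten G ∂u`, and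
`ten G (tA.d u x) = ∑ eps a (ten (G eA) ∂u + ten (G bA) u)` (`ten_eps`, `ten_mul`, `h2`).

Proof of `src_gauge`.  `f₁ = 𝒱.r ∘ S.Ψ`, `f₂ = C.rho ∘ p3`, both smooth on the open set `D` with values in `N`
and `dist (f₁ z) (f₂ z) < δ` (`rS` at `R z`: `f₁ (R z) = f₁ z`, `p3 (R z) = f₂ z`).
`gS z = toK (T (f₂ z) (f₁ z))`, `gS' z = toK (T (f₁ z) (f₂ z))`.  The derivative of `z ↦ T (f₂ z) (f₁ z)` in the
direction `v` is `D₁T (Df₂ v) + D₂T (Df₁ v)` where `D₁T`, `D₂T` are the partial derivatives of the smooth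
map `(x, y) ↦ T x y`; `Df₂ v`, `Df₁ v` are tangent to `N` (`su_tan`), so `par` and `par'` give
`e (D₁T (Df₂ v)) = - b (Df₂ v) T` and `D₂T (Df₁ v) e = T b (Df₁ v) e`; multiply by `e` on the other side
(`left`, `right`, `e_b1`, `e_b2`).  Use `tS_eq` for the coefficients of `tV.pull S.Ψ`.
-/

set_option autoImplicit false
set_option maxSynthPendingDepth 3

open Set MeasureTheory Matrix Filter Topology
open scoped ContDiff ENNReal ComplexConjugate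

namespace Pool.Agent.EXO

/-! ### auxiliary facts -/

private theorem TopGa_bilin {m : ℕ} {κ : Type} [Fintype κ] :
    IsBoundedBilinearMap ℝ (fun p : (HF m κ →L[ℂ] HF m κ) × HF m κ => p.1 p.2) := by
  have h := isBoundedBilinearMap_apply (𝕜 := ℂ) (E := HF m κ) (F := HF m κ)
  refine ⟨h.add_left, ?_, h.add_right, ?_, h.bound⟩
  · intro c x y
    rfl
  · intro c x y
    exact (x.restrictScalars ℝ).map_smul c y

private theorem TopGa_fderiv {m : ℕ} {κ : Type} [Fintype κ]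
    {G : RE m → (KE κ →L[ℂ] KE κ)} {x : RE m} {u : RE m → HF m κ}
    (hG : DifferentiableAt ℝ G x) (hu : DifferentiableAt ℝ u x) (v : RE m) :
    fderiv ℝ (fun y => ten (G y) (u y)) x v =
      ten (fderiv ℝ G x v) (u x) + ten (G x) (fderiv ℝ u x v) := by
  have h1 : HasFDerivAt (fun y => (ten (G y) : HF m κ →L[ℂ] HF m κ))
      (((tenL m κ κ).restrictScalars ℝ).comp (fderiv ℝ G x)) x :=
    ((tenL m κ κ).restrictScalars ℝ).hasFDerivAt.comp x hG.hasFDerivAt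
  have h2 := (TopGa_bilin.hasFDerivAt ((ten (G x) : HF m κ →L[ℂ] HF m κ), u x)).comp x
    (h1.prodMk hu.hasFDerivAt)
  have h3 : HasFDerivAt (fun y => ten (G y) (u y)) _ x := h2
  rw [h3.fderiv]
  simp only [ContinuousLinearMap.comp_apply, ContinuousLinearMap.prod_apply,
    IsBoundedBilinearMap.deriv_apply]
  rw [add_comm]
  rfl

theorem Tw.d_gauge {m : ℕ} {κ : Type} [Fintype κ] {tA tB : Tw m κ}
    {G : RE m → (KE κ →L[ℂ] KE κ)} {x : RE m} {u : RE m → HF m κ}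
    (hG : DifferentiableAt ℝ G x) (hu : DifferentiableAt ℝ u x)
    (hs : ten (tA.e x) (u x) = u x) (h1 : tB.e x * G x = G x) (h2 : G x * tA.e x = G x)
    (h3 : ∀ v, tB.e x * fderiv ℝ G x v * tA.e x + tB.b x v * G x = G x * tA.b x v) :
    tB.d (fun y => ten (G y) (u y)) x = ten (G x) (tA.d u x) := by
  unfold Tw.d
  rw [map_sum]
  refine Finset.sum_congr rfl fun a _ => ?_
  rw [ten_eps]
  congr 1
  rw [TopGa_fderiv hG hu, map_add, map_add]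
  have e1 : ten (tB.e x) (ten (fderiv ℝ G x (ee a)) (u x)) =
      ten (tB.e x * fderiv ℝ G x (ee a) * tA.e x) (u x) := by
    conv_lhs => rw [← hs]
    rfl
  have e2 : ten (tB.e x) (ten (G x) (fderiv ℝ u x (ee a))) = ten (G x) (fderiv ℝ u x (ee a)) := by
    show ten (tB.e x * G x) (fderiv ℝ u x (ee a)) = _
    rw [h1]
  have e3 : ten (tB.b x (ee a)) (ten (G x) (u x)) = ten (tB.b x (ee a) * G x) (u x) := rfl
  have e4 : ten (G x) (ten (tA.e x) (fderiv ℝ u x (ee a))) = ten (G x) (fderiv ℝ u x (ee a)) := by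
    show ten (G x * tA.e x) (fderiv ℝ u x (ee a)) = _
    rw [h2]
  have e5 : ten (G x) (ten (tA.b x (ee a)) (u x)) =
      ten (tB.e x * fderiv ℝ G x (ee a) * tA.e x) (u x) +
        ten (tB.b x (ee a) * G x) (u x) := by
    show ten (G x * tA.b x (ee a)) (u x) = _
    rw [← h3 (ee a), ten_add]
    rfl
  rw [e1, e2, e3, e4, e5]
  abel

/-- the derivative of a matrix valued function of two variables along two maps -/
private theorem TopGa_two {ι : Type} [Fintype ι] {k m : ℕ} {T : En m → En m → Matrix ι ι ℂ}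
    (hT : ContDiff ℝ ∞ fun p : En m × En m => T p.1 p.2) {f g : En k → En m} {z : En k}
    (hf : DifferentiableAt ℝ f z) (hg : DifferentiableAt ℝ g z) :
    DifferentiableAt ℝ (fun y => T (f y) (g y)) z ∧ ∀ v,
      fderiv ℝ (fun y => T (f y) (g y)) z v =
        fderiv ℝ (fun x => T x (g z)) (f z) (fderiv ℝ f z v) +
          fderiv ℝ (fun y => T (f z) y) (g z) (fderiv ℝ g z v) := by
  obtain ⟨F, hF⟩ : ∃ F : En m × En m → Matrix ι ι ℂ, F = fun p => T p.1 p.2 := ⟨_, rfl⟩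
  have hFs : ContDiff ℝ ∞ F := by rw [hF]; exact hT
  have hFd : DifferentiableAt ℝ F (f z, g z) := (hFs.differentiable (by simp)) _
  have h1 : HasFDerivAt (fun y => T (f y) (g y)) ((fderiv ℝ F (f z, g z)).comp
      ((fderiv ℝ f z).prod (fderiv ℝ g z))) z := by
    have := hFd.hasFDerivAt.comp z (hf.hasFDerivAt.prodMk hg.hasFDerivAt)
    rw [hF] at this ⊢
    exact this
  have h2 : HasFDerivAt (fun x => T x (g z)) ((fderiv ℝ F (f z, g z)).comp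
      (ContinuousLinearMap.inl ℝ (En m) (En m))) (f z) := by
    have := hFd.hasFDerivAt.comp (f z) (hasFDerivAt_prodMk_left (𝕜 := ℝ) (f z) (g z))
    rw [hF] at this ⊢
    exact this
  have h3 : HasFDerivAt (fun y => T (f z) y) ((fderiv ℝ F (f z, g z)).comp
      (ContinuousLinearMap.inr ℝ (En m) (En m))) (g z) := by
    have := hFd.hasFDerivAt.comp (g z) (hasFDerivAt_prodMk_right (𝕜 := ℝ) (f z) (g z))
    rw [hF] at this ⊢
    exact this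
  refine ⟨h1.differentiableAt, fun v => ?_⟩
  rw [h1.fderiv, h2.fderiv, h3.fderiv]
  show fderiv ℝ F (f z, g z) (fderiv ℝ f z v, fderiv ℝ g z v) =
    fderiv ℝ F (f z, g z) (fderiv ℝ f z v, 0) + fderiv ℝ F (f z, g z) (0, fderiv ℝ g z v)
  rw [← map_add]
  congr 1
  simp

private theorem TopGa_par {n m k : ℕ} {Y : Geo n m} {ι : Type} [Fintype ι] [DecidableEq ι]
    (E : FlatBd Y ι) {δ : ℝ} {T : En m → En m → Matrix ι ι ℂ} (hT : E.IsPT δ T)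
    {f g : En k → En m} {z : En k} (hf : DifferentiableAt ℝ f z) (hg : DifferentiableAt ℝ g z)
    (hfN : ∀ᶠ y in 𝓝 z, f y ∈ Y.carrier) (hgN : ∀ᶠ y in 𝓝 z, g y ∈ Y.carrier)
    (hd : dist (f z) (g z) < δ) (v : En k) :
    E.tN.e (f z) * fderiv ℝ (fun y => toK (T (f y) (g y))) z v * E.tN.e (g z) +
      E.tN.b (f z) (fderiv ℝ f z v) * toK (T (f z) (g z)) =
        toK (T (f z) (g z)) * E.tN.b (g z) (fderiv ℝ g z v) := by
  have hfz : f z ∈ Y.carrier := hfN.self_of_nhds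
  have hgz : g z ∈ Y.carrier := hgN.self_of_nhds
  have hPf := su_tan Y hf hfN v
  have hPg := su_tan Y hg hgN v
  obtain ⟨hA, hA'⟩ := TopGa_two hT.smooth hf hg
  have hK : fderiv ℝ (fun y => toK (T (f y) (g y))) z v =
      toK (fderiv ℝ (fun x => T x (g z)) (f z) (fderiv ℝ f z v) +
          fderiv ℝ (fun y => T (f z) y) (g z) (fderiv ℝ g z v)) := by
    have h1 : HasFDerivAt (fun y => toK (T (f y) (g y)))
        ((toKL ι).comp (fderiv ℝ (fun y => T (f y) (g y)) z)) z :=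
      (toKL ι).hasFDerivAt.comp z hA.hasFDerivAt
    rw [h1.fderiv, ← hA' v]
    rfl
  have hp := hT.par (f z) hfz (g z) hgz hd _ hPf
  have hp' := hT.par' (f z) hfz (g z) hgz hd _ hPg
  have hl := hT.left (f z) hfz (g z) hgz hd
  have hr := hT.right (f z) hfz (g z) hgz hd
  obtain ⟨D₁, hD₁⟩ : ∃ D, D = fderiv ℝ (fun x => T x (g z)) (f z) (fderiv ℝ f z v) := ⟨_, rfl⟩
  obtain ⟨D₂, hD₂⟩ : ∃ D, D = fderiv ℝ (fun y => T (f z) y) (g z) (fderiv ℝ g z v) := ⟨_, rfl⟩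
  obtain ⟨B₁, hB₁⟩ : ∃ B, B = ∑ a, (((fderiv ℝ f z v) a : ℝ) : ℂ) • E.b a (f z) := ⟨_, rfl⟩
  obtain ⟨B₂, hB₂⟩ : ∃ B, B = ∑ a, (((fderiv ℝ g z v) a : ℝ) : ℂ) • E.b a (g z) := ⟨_, rfl⟩
  have e1 : E.e (f z) * B₁ = B₁ := by
    rw [hB₁, Finset.mul_sum]
    exact Finset.sum_congr rfl fun a _ => by rw [Matrix.mul_smul, E.e_b1 hfz]
  have e2 : B₂ * E.e (g z) = B₂ := by
    rw [hB₂, Finset.sum_mul]
    exact Finset.sum_congr rfl fun a _ => by rw [Matrix.smul_mul, E.e_b2 hgz]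
  rw [← hD₁, ← hB₁, Matrix.mul_add, ← Matrix.mul_assoc, e1] at hp
  rw [← hD₂, ← hB₂, Matrix.sub_mul, Matrix.mul_assoc, e2] at hp'
  have f1 : E.e (f z) * D₁ = -(B₁ * T (f z) (g z)) := eq_neg_of_add_eq_zero_left hp
  have f2 : D₂ * E.e (g z) = T (f z) (g z) * B₂ := sub_eq_zero.1 hp'
  rw [hK, E.tN_b', E.tN_b', ← hD₁, ← hD₂, ← hB₁, ← hB₂,
    show E.tN.e (f z) = toK (E.e (f z)) from rfl, show E.tN.e (g z) = toK (E.e (g z)) from rfl,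
    ← toK_mul, ← toK_mul, ← toK_mul, ← toK_mul, ← toK_add]
  congr 1
  have f3 : E.e (f z) * (D₁ + D₂) * E.e (g z) =
      (E.e (f z) * D₁) * E.e (g z) + E.e (f z) * (D₂ * E.e (g z)) := by
    simp only [Matrix.mul_add, Matrix.add_mul, Matrix.mul_assoc]
  rw [f3, f1, f2, Matrix.neg_mul, Matrix.mul_assoc, hr, ← Matrix.mul_assoc, hl]
  abel

private theorem TopGa_facts {N : OrGeo 6 7} {C : Collar N.carrier} {l δ : ℝ} (𝒱 : VData N C l δ)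
    {z : En 15} (hz : z ∈ dom gS C.O 20000) :
    𝒱.S.Ψ (R15 C.rho z) = 𝒱.S.Ψ z ∧ 𝒱.r (𝒱.S.Ψ z) ∈ N.carrier ∧ C.rho (p3 z) ∈ N.carrier ∧
      dist (𝒱.r (𝒱.S.Ψ z)) (C.rho (p3 z)) < δ := by
  have h1 : 𝒱.S.Ψ (R15 C.rho z) = 𝒱.S.Ψ z := 𝒱.S.Psi_R gOk_S hz
  have h2 := 𝒱.rS _ (R_mem gOk_S hz)
  rw [h1, p3_R15] at h2
  exact ⟨h1, 𝒱.r_maps _ (𝒱.S.maps z hz).1, C.rho_mem hz.2, h2⟩

private theorem TopGa_sm {N : OrGeo 6 7} {C : Collar N.carrier} {l δ : ℝ} (𝒱 : VData N C l δ)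
    {z : En 15} (hz : z ∈ dom gS C.O 20000) :
    ContDiffAt ℝ ∞ (fun y => 𝒱.r (𝒱.S.Ψ y)) z ∧ ContDiffAt ℝ ∞ (fun y => C.rho (p3 y)) z ∧
      (∀ᶠ y in 𝓝 z, 𝒱.r (𝒱.S.Ψ y) ∈ N.carrier) ∧ (∀ᶠ y in 𝓝 z, C.rho (p3 y) ∈ N.carrier) := by
  have hD : IsOpen (dom gS C.O 20000) := isOpen_dom gOk_S C.openO _
  refine ⟨?_, ?_, ?_, ?_⟩
  · exact (𝒱.smooth_r.comp_contDiffOn 𝒱.S.smoothΨ).contDiffAt (hD.mem_nhds hz)
  · exact (C.smooth_rho.comp contDiff_p3.contDiffOn fun y hy => hy).contDiffAt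
      ((C.openO.preimage continuous_p3).mem_nhds hz.2)
  · filter_upwards [hD.mem_nhds hz] with y hy
    exact (TopGa_facts 𝒱 hy).2.1
  · filter_upwards [hD.mem_nhds hz] with y hy
    exact (TopGa_facts 𝒱 hy).2.2.1

section

variable {N : OrGeo 6 7} {C : Collar N.carrier} {l δ : ℝ} (𝒱 : VData N C l δ)
  {ι : Type} [Fintype ι] [DecidableEq ι] (E : FlatBd N.toGeo ι)
  (T : En 7 → En 7 → Matrix ι ι ℂ)

/-- The gauge transformation from `tV.pull S.Ψ` to `tC`. -/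
noncomputable def gaS (z : En 15) : KE ι →L[ℂ] KE ι := toK (T (C.rho (p3 z)) (𝒱.r (𝒱.S.Ψ z)))

/-- The inverse gauge transformation. -/
noncomputable def gaS' (z : En 15) : KE ι →L[ℂ] KE ι := toK (T (𝒱.r (𝒱.S.Ψ z)) (C.rho (p3 z)))

variable {T} (hT : E.IsPT δ T) {z : En 15} (hz : z ∈ dom gS C.O 20000)

include hz

theorem gaS_R : gaS 𝒱 T (R15 C.rho z) = gaS 𝒱 T z := by
  obtain ⟨h1, h2, h3, h4⟩ := TopGa_facts 𝒱 hz
  unfold gaS
  rw [h1, p3_R15, C.rho_fix h3]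

include hT

theorem gaS_smooth : ContDiffAt ℝ ∞ (gaS 𝒱 T) z ∧ ContDiffAt ℝ ∞ (gaS' 𝒱 T) z := by
  obtain ⟨h1, h2, -, -⟩ := TopGa_sm 𝒱 hz
  constructor
  · have h3 : ContDiffAt ℝ ∞ (fun y => T (C.rho (p3 y)) (𝒱.r (𝒱.S.Ψ y))) z :=
      ContDiffAt.comp (g := fun p : En 7 × En 7 => T p.1 p.2) z hT.smooth.contDiffAt
        (h2.prodMk h1)
    exact (toKL ι).contDiff.contDiffAt.comp z h3
  · have h3 : ContDiffAt ℝ ∞ (fun y => T (𝒱.r (𝒱.S.Ψ y)) (C.rho (p3 y))) z :=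
      ContDiffAt.comp (g := fun p : En 7 × En 7 => T p.1 p.2) z hT.smooth.contDiffAt
        (h1.prodMk h2)
    exact (toKL ι).contDiff.contDiffAt.comp z h3

theorem gaS_e : (tC C E).e z * gaS 𝒱 T z = gaS 𝒱 T z ∧
    gaS 𝒱 T z * ((tV 𝒱 E).pull 𝒱.S.Ψ).e z = gaS 𝒱 T z := by
  obtain ⟨h1, h2, h3, h4⟩ := TopGa_facts 𝒱 hz
  rw [dist_comm] at h4
  constructor
  · show toK (E.e (C.rho (p3 z))) * toK (T (C.rho (p3 z)) (𝒱.r (𝒱.S.Ψ z))) =
      toK (T (C.rho (p3 z)) (𝒱.r (𝒱.S.Ψ z)))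
    rw [← toK_mul, hT.left _ h3 _ h2 h4]
  · show toK (T (C.rho (p3 z)) (𝒱.r (𝒱.S.Ψ z))) * toK (E.e (𝒱.r (𝒱.S.Ψ z))) =
      toK (T (C.rho (p3 z)) (𝒱.r (𝒱.S.Ψ z)))
    rw [← toK_mul, hT.right _ h3 _ h2 h4]

theorem gaS'_e : ((tV 𝒱 E).pull 𝒱.S.Ψ).e z * gaS' 𝒱 T z = gaS' 𝒱 T z ∧
    gaS' 𝒱 T z * (tC C E).e z = gaS' 𝒱 T z := by
  obtain ⟨h1, h2, h3, h4⟩ := TopGa_facts 𝒱 hz
  constructor
  · show toK (E.e (𝒱.r (𝒱.S.Ψ z))) * toK (T (𝒱.r (𝒱.S.Ψ z)) (C.rho (p3 z))) =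
      toK (T (𝒱.r (𝒱.S.Ψ z)) (C.rho (p3 z)))
    rw [← toK_mul, hT.left _ h2 _ h3 h4]
  · show toK (T (𝒱.r (𝒱.S.Ψ z)) (C.rho (p3 z))) * toK (E.e (C.rho (p3 z))) =
      toK (T (𝒱.r (𝒱.S.Ψ z)) (C.rho (p3 z)))
    rw [← toK_mul, hT.right _ h2 _ h3 h4]

theorem gaS_inv : gaS' 𝒱 T z * gaS 𝒱 T z = ((tV 𝒱 E).pull 𝒱.S.Ψ).e z := by
  obtain ⟨h1, h2, h3, h4⟩ := TopGa_facts 𝒱 hz
  show toK (T (𝒱.r (𝒱.S.Ψ z)) (C.rho (p3 z))) * toK (T (C.rho (p3 z)) (𝒱.r (𝒱.S.Ψ z))) =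
    toK (E.e (𝒱.r (𝒱.S.Ψ z)))
  rw [← toK_mul, hT.inv _ h2 _ h3 h4]

theorem gaS_par (v : En 15) : (tC C E).e z * fderiv ℝ (gaS 𝒱 T) z v *
    ((tV 𝒱 E).pull 𝒱.S.Ψ).e z + (tC C E).b z v * gaS 𝒱 T z =
      gaS 𝒱 T z * ((tV 𝒱 E).pull 𝒱.S.Ψ).b z v := by
  obtain ⟨h1, h2, h3, h4⟩ := TopGa_facts 𝒱 hz
  obtain ⟨s1, s2, n1, n2⟩ := TopGa_sm 𝒱 hz
  rw [dist_comm] at h4
  have h := TopGa_par E hT (f := fun y => C.rho (p3 y)) (g := fun y => 𝒱.r (𝒱.S.Ψ y))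
    (s2.differentiableAt (by simp)) (s1.differentiableAt (by simp)) n2 n1 h4 v
  rw [(tS_eq 𝒱 E hz).2]
  exact h

theorem gaS'_par (v : En 15) : ((tV 𝒱 E).pull 𝒱.S.Ψ).e z * fderiv ℝ (gaS' 𝒱 T) z v *
    (tC C E).e z + ((tV 𝒱 E).pull 𝒱.S.Ψ).b z v * gaS' 𝒱 T z =
      gaS' 𝒱 T z * (tC C E).b z v := by
  obtain ⟨h1, h2, h3, h4⟩ := TopGa_facts 𝒱 hz
  obtain ⟨s1, s2, n1, n2⟩ := TopGa_sm 𝒱 hz
  have h := TopGa_par E hT (f := fun y => 𝒱.r (𝒱.S.Ψ y)) (g := fun y => C.rho (p3 y))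
    (s1.differentiableAt (by simp)) (s2.differentiableAt (by simp)) n1 n2 h4 v
  rw [(tS_eq 𝒱 E hz).2]
  exact h

end

end Pool.Agent.EXO
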