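import Pool.Agent.EXO.TopPc

/-!
# EXO / TopGd: two pieces of `V` with a transition map (definition)

The pieces `(A, B) = (K, H₁)` with `q = ‖p1‖`, `h = ‖p2‖`, `i = 4`, and `(A, B) = (K, H₂)` with `q = ‖p2‖`,
`h = ‖p1‖`, `i = 0`.
-/

set_option autoImplicit false
set_option maxSynthPendingDepth 3

open Set MeasureTheory Matrix Filter Topology
open scoped ContDiff ENNReal ComplexConjugate

namespace Pool.Agent.EXO

/-- The transition map `τ` (with the inverse `σ`) from the part `q ≠ 0` of the piece `A` to the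
part `q ≠ 0` of the piece `B`.  It commutes with the translations in the direction `i`. -/
structure Glue {N : Set (En 7)} {C : Collar N} {M : ℕ} {V : Set (En M)} {gA gB : En 15 → ℝ}
    (A : VPiece C V gA) (B : VPiece C V gB) (i : Fin 15) where
  q : En 15 → ℝ
  h : En 15 → ℝ
  τ : En 15 → En 15
  σ : En 15 → En 15
  okA : GOk gA
  okB : GOk gB
  contq : Continuous q
  conth : Continuous h
  q_inv : ∀ z z', p1 z = p1 z' → p2 z = p2 z' → q z = q z'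
  q_trans : ∀ (z : En 15) (r : ℝ), q (z + r • ee i) = q z
  h_inv : ∀ z z', p1 z = p1 z' → p2 z = p2 z' → h z = h z'
  h_le : ∀ z, |z i| ≤ h z
  i_lt : i.1 < 8
  smoothτ : ContDiffOn ℝ ∞ τ {z | q z ≠ 0}
  smoothσ : ContDiffOn ℝ ∞ σ {z | q z ≠ 0}
  στ : ∀ z, q z ≠ 0 → σ (τ z) = z
  τσ : ∀ z, q z ≠ 0 → τ (σ z) = z
  qτ : ∀ z, q z ≠ 0 → q z * q (τ z) = 1
  qσ : ∀ z, q z ≠ 0 → q z * q (σ z) = 1
  hτ : ∀ z, q z ≠ 0 → h (τ z) = h z
  gτ : ∀ z, q z ≠ 0 → gB (τ z) = gA z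
  p3τ : ∀ z, q z ≠ 0 → p3 (τ z) = p3 z
  τ_R : ∀ (ρ : En 7 → En 7) (z : En 15), q z ≠ 0 → τ (R15 ρ z) = R15 ρ (τ z)
  τ_i : ∀ z, q z ≠ 0 → (τ z) i = z i
  τ_trans : ∀ (z : En 15) (r : ℝ), q z ≠ 0 → τ (z + r • ee i) = τ z + r • ee i
  trans : ∀ z ∈ dom gA N 20000, q z ≠ 0 → A.Ψ z = B.Ψ (τ z)
  notA : ∀ z ∈ dom gA N 20000, q z = 0 → A.Ψ z ∉ B.O
  notB : ∀ z ∈ dom gB N 20000, q z = 0 → B.Ψ z ∉ A.O

namespace Glue

variable {N : Set (En 7)} {C : Collar N} {M : ℕ} {V : Set (En M)} {gA gB : En 15 → ℝ}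
    {A : VPiece C V gA} {B : VPiece C V gB} {i : Fin 15} (G : Glue A B i)

theorem qτ_ne {z : En 15} (hz : G.q z ≠ 0) : G.q (G.τ z) ≠ 0 := by
  intro h
  have := G.qτ z hz
  rw [h, mul_zero] at this
  exact zero_ne_one this

theorem qσ_ne {z : En 15} (hz : G.q z ≠ 0) : G.q (G.σ z) ≠ 0 := by
  intro h
  have := G.qσ z hz
  rw [h, mul_zero] at this
  exact zero_ne_one this

theorem q_R (ρ : En 7 → En 7) (z : En 15) : G.q (R15 ρ z) = G.q z :=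
  G.q_inv _ _ (p1_R15 ρ z) (p2_R15 ρ z)

theorem h_R (ρ : En 7 → En 7) (z : En 15) : G.h (R15 ρ z) = G.h z :=
  G.h_inv _ _ (p1_R15 ρ z) (p2_R15 ρ z)

/-- The same data with the roles of `A` and `B` exchanged. -/
noncomputable def symm : Glue B A i where
  q := G.q
  h := G.h
  τ := G.σ
  σ := G.τ
  okA := G.okB
  okB := G.okA
  contq := G.contq
  conth := G.conth
  q_inv := G.q_inv
  q_trans := G.q_trans
  h_inv := G.h_inv
  h_le := G.h_le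
  i_lt := G.i_lt
  smoothτ := G.smoothσ
  smoothσ := G.smoothτ
  στ := G.τσ
  τσ := G.στ
  qτ := G.qσ
  qσ := G.qτ
  hτ := fun z hz => by
    rw [← G.hτ _ (G.qσ_ne hz), G.τσ z hz]
  gτ := fun z hz => by
    rw [← G.gτ _ (G.qσ_ne hz), G.τσ z hz]
  p3τ := fun z hz => by
    rw [← G.p3τ _ (G.qσ_ne hz), G.τσ z hz]
  τ_R := fun ρ z hz => by
    conv_lhs => rw [← G.τσ z hz, ← G.τ_R ρ _ (G.qσ_ne hz)]
    rw [G.στ _ (by rw [G.q_R]; exact G.qσ_ne hz)]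
  τ_i := fun z hz => by
    rw [← G.τ_i _ (G.qσ_ne hz), G.τσ z hz]
  τ_trans := fun z r hz => by
    conv_lhs => rw [← G.τσ z hz, ← G.τ_trans _ r (G.qσ_ne hz)]
    rw [G.στ _ (by rw [G.q_trans]; exact G.qσ_ne hz)]
  trans := fun z hz hq => by
    have h1 : G.σ z ∈ dom gA N 20000 := by
      refine ⟨?_, ?_⟩
      · rw [← G.gτ _ (G.qσ_ne hq), G.τσ z hq]
        exact hz.1
      · rw [← G.p3τ _ (G.qσ_ne hq), G.τσ z hq]
        exact hz.2
    rw [G.trans _ h1 (G.qσ_ne hq), G.τσ z hq]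
  notA := G.notB
  notB := G.notA

end Glue

end Pool.Agent.EXO
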