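import Pool.Agent.EXO.TopGz

/-!
# EXO / TopGx: gluing of compatible primitives on two pieces

Proof of `exists_partition`.  `K1 ∖ B.O` is compact and contained in `OA`: cut-off `χA` (`exists_cutoff`),
`χA = 1` on the open set `UA ⊇ K1 ∖ OB`, `tsupport χA ⊆ OA`.  `K1 ∖ UA` is compact and contained in `OB`:
cut-off `χ'` with `χ' = 1` on the open set `UB ⊇ K1 ∖ UA`.  Put `χB = (1 - χA) * χ'`, `U = UA ∪ UB`.

Proof of `glue_exact`.  `Ω = {z | p3 z ∈ C.O}`, `R = R15 C.rho`.  Let `χA`, `χB`, `U` be as above, `vA`, `vB` the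
smooth functions of `VPiece.ext_exists` with `vA = A.extF χA βA` and `vB = B.extF χB βB` on `V`
(both are `VF` by `ext_VF`; `ten (t.e (A.Ψ z)) (βA z) = βA z` by `hA`, `eA`), and `v = vA + vB`.
CLAIM (A): for `z ∈ dom gA C.O 20000` with `A.Ψ z ∈ U`: `pull A.Ψ v z = pull R βA z`.
`pull A.Ψ vA z = χA (A.Ψ z) • pull R βA z` is `pull_ext`.  `pull A.Ψ vB z = χB (A.Ψ z) • pull R βA z`: if
`A.Ψ z ∉ B.O`, then `χB (A.Ψ z) = 0` (`tsupport χB ⊆ B.O`) and `pull A.Ψ vB z = Lam _ (vB (A.Ψ z)) = 0` since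
`extF = 0` outside `B.O`.  If `A.Ψ z ∈ B.O`: `q z ≠ 0` (`tau_Phi`), and by `pull_congr_left` (with `A_eq` near
`z`), `pull A.Ψ vB z = pull (B.Ψ ∘ τ) vB z = pull τ (pull B.Ψ vB) z = pull τ (..) z` where
`(pull B.Ψ vB) (τ z) = χB (B.Ψ (τ z)) • pull R βB (τ z)` (`pull_ext` for `B`; only the value at `τ z` matters),
and `pull τ (pull R βB) z = pull (R ∘ τ) βB z = pull (τ ∘ R) βB z = pull R (pull τ βB) z`, whose value only
involves `(pull τ βB) (R z) = βA (R z)` (`hcomp` at `R z`, `q (R z) = q z`, `p3 (R z) ∈ N ⊆ C.O`).  Since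
`χA + χB = 1` on `U` the claim follows.
Then for `y ∈ K1 ∩ A.O`: `dV_eq` with `β = βA` (`A.Ψ z' ∈ U` for `z'` near `A.Φ y`, as `A.Ψ` is continuous there and
`A.Ψ (A.Φ y) = y ∈ U`), and `(t.pull A.Ψ).d βA (A.Φ y) = tC.d βA (A.Φ y) = pull A.Ψ u (A.Φ y)` by
`Tw.d_congr`, `hA`, `dA`.
For `y ∈ K1 ∩ B.O` the same with `G.symm` and the roles of `A` and `B` exchanged: `hcomp` for `G.symm`:
`pull σ βA z = pull σ (pull τ βB) z = pull (τ ∘ σ) βB z = βB z` for `q z ≠ 0`, `p3 z ∈ C.O` (`p3 (σ z) = p3 z`;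
`τ ∘ σ = id` near `z`).  (Prove claim (A) as a private lemma for an arbitrary `Glue` and use it twice.)
-/

set_option autoImplicit false
set_option maxSynthPendingDepth 3

open Set MeasureTheory Matrix Filter Topology
open scoped ContDiff ENNReal ComplexConjugate

namespace Pool.Agent.EXO

theorem exists_partition {M : ℕ} {K1 OA OB : Set (En M)} (hK : IsCompact K1) (hA : IsOpen OA)
    (hB : IsOpen OB) (hKO : K1 ⊆ OA ∪ OB) :
    ∃ (χA χB : En M → ℝ) (U : Set (En M)), ContDiff ℝ ∞ χA ∧ ContDiff ℝ ∞ χB ∧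
      tsupport χA ⊆ OA ∧ tsupport χB ⊆ OB ∧ IsOpen U ∧ K1 ⊆ U ∧ ∀ x ∈ U, χA x + χB x = 1 := by
  have h1 : IsClosed (K1 \ OB) := hK.isClosed.sdiff hB
  obtain ⟨χA, hχA, ⟨UA, hUA, hAU, hA1⟩, hAs, _⟩ := exists_cutoff h1 hA (by
    intro x hx
    exact (hKO hx.1).resolve_right hx.2)
  have h2 : IsClosed (K1 \ UA) := hK.isClosed.sdiff hUA
  obtain ⟨χ', hχ', ⟨UB, hUB, hBU, hB1⟩, hBs, _⟩ := exists_cutoff h2 hB (by
    intro x hx
    by_contra h
    exact hx.2 (hAU ⟨hx.1, h⟩))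
  refine ⟨χA, fun x => (1 - χA x) * χ' x, UA ∪ UB, hχA, (contDiff_const.sub hχA).mul hχ', hAs,
    ?_, hUA.union hUB, ?_, ?_⟩
  · exact (tsupport_mul_subset_right (f := fun x => 1 - χA x) (g := χ')).trans hBs
  · intro x hx
    by_cases h : x ∈ UA
    · exact Or.inl h
    · exact Or.inr (hBU ⟨hx, h⟩)
  · rintro x (hx | hx)
    · show χA x + (1 - χA x) * χ' x = 1
      rw [hA1 x hx]
      ring
    · show χA x + (1 - χA x) * χ' x = 1
      rw [hB1 x hx]
      ring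

private theorem TopGx_diffτ {N : Set (En 7)} {C : Collar N} {M : ℕ} {V : Set (En M)}
    {gA gB : En 15 → ℝ} {A : VPiece C V gA} {B : VPiece C V gB} {i : Fin 15} (G : Glue A B i)
    {z : En 15} (hq : G.q z ≠ 0) : DifferentiableAt ℝ G.τ z := by
  have h1 : IsOpen {z | G.q z ≠ 0} := isOpen_ne_fun G.contq continuous_const
  exact (G.smoothτ.contDiffAt (h1.mem_nhds hq)).differentiableAt (by simp)

private theorem TopGx_nq {N : Set (En 7)} {C : Collar N} {M : ℕ} {V : Set (En M)}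
    {gA gB : En 15 → ℝ} {A : VPiece C V gA} {B : VPiece C V gB} {i : Fin 15} (G : Glue A B i)
    {z : En 15} (hq : G.q z ≠ 0) : ∀ᶠ z' in 𝓝 z, G.q z' ≠ 0 := by
  have h1 : IsOpen {z | G.q z ≠ 0} := isOpen_ne_fun G.contq continuous_const
  exact h1.mem_nhds hq

private theorem TopGx_diffR {N : Set (En 7)} {C : Collar N} {z : En 15} (hz : p3 z ∈ C.O) :
    DifferentiableAt ℝ (R15 C.rho) z :=
  ((contDiffOn_R15 C.smooth_rho).contDiffAt
    ((C.openO.preimage continuous_p3).mem_nhds hz)).differentiableAt (by simp)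

private theorem TopGx_val {m k : ℕ} {κ : Type*} [Fintype κ] {F : RE k → RE m}
    {a b : RE m → HF m κ} {x : RE k} (h : a (F x) = b (F x)) : pull F a x = pull F b x := by
  unfold pull
  rw [h]

private theorem TopGx_smul {m k : ℕ} {κ : Type*} [Fintype κ] {F : RE k → RE m}
    {a b : RE m → HF m κ} {r : ℝ} {x : RE k} (h : a (F x) = r • b (F x)) :
    pull F a x = r • pull F b x := by
  unfold pull
  rw [h, ← Complex.coe_smul, map_smul, Complex.coe_smul]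

private theorem TopGx_id {m : ℕ} {κ : Type*} [Fintype κ] {F : RE m → RE m}
    {a : RE m → HF m κ} {x : RE m} (h : F =ᶠ[𝓝 x] id) : pull F a x = a x := by
  rw [pull_congr_left h]
  unfold pull
  rw [fderiv_id, show ContinuousLinearMap.adjoint (ContinuousLinearMap.id ℝ (RE m)) =
    ContinuousLinearMap.id ℝ (RE m) from ContinuousLinearMap.adjoint_id, Lam_id]
  rfl

/-- The key computation on the piece `A`. -/
private theorem TopGx_claim {N : Set (En 7)} {C : Collar N} {n M : ℕ} {V : Geo n M}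
    {gA gB : En 15 → ℝ} {A : VPiece C V.carrier gA} {B : VPiece C V.carrier gB} {i : Fin 15}
    (G : Glue A B i) {κ : Type} [Fintype κ] {χA χB : En M → ℝ} (hsB : tsupport χB ⊆ B.O)
    {βA βB : En 15 → HF 15 κ} {vA vB : En M → HF M κ}
    (hvA : ∀ y ∈ V.carrier, vA y = A.extF χA βA y)
    (hvB : ∀ y ∈ V.carrier, vB y = B.extF χB βB y)
    (hcomp : ∀ z, p3 z ∈ C.O → G.q z ≠ 0 → pull G.τ βB z = βA z) {z : En 15}
    (hz : z ∈ dom gA C.O 20000) (h1 : χA (A.Ψ z) + χB (A.Ψ z) = 1) :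
    pull A.Ψ (fun y => vA y + vB y) z = pull (R15 C.rho) βA z := by
  have hm := A.maps z hz
  have e1 : pull A.Ψ (fun y => vA y + vB y) z = pull A.Ψ vA z + pull A.Ψ vB z := by
    unfold pull
    rw [map_add]
  have e2 : pull A.Ψ vA z = χA (A.Ψ z) • pull (R15 C.rho) βA z := A.pull_ext G.okA hvA hz
  have e3 : pull A.Ψ vB z = χB (A.Ψ z) • pull (R15 C.rho) βA z := by
    by_cases hB : A.Ψ z ∈ B.O
    · have hq : G.q z ≠ 0 := (G.tau_Phi hz hB).1
      have hτ : G.τ z ∈ dom gB C.O 20000 := G.tau_mem hz hq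
      have hRz : R15 C.rho z ∈ dom gA C.O 20000 := dom_sub C (R_mem G.okA hz)
      have hqR : G.q (R15 C.rho z) ≠ 0 := by rw [G.q_R]; exact hq
      have hev : A.Ψ =ᶠ[𝓝 z] B.Ψ ∘ G.τ := by
        filter_upwards [(isOpen_dom G.okA C.openO _).mem_nhds hz, TopGx_nq G hq] with z' a b
        exact G.A_eq a b
      have hev2 : R15 C.rho ∘ G.τ =ᶠ[𝓝 z] G.τ ∘ R15 C.rho := by
        filter_upwards [TopGx_nq G hq] with z' b
        exact (G.τ_R C.rho z' b).symm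
      have f1 : pull A.Ψ vB z = pull G.τ (pull B.Ψ vB) z := by
        rw [pull_congr_left hev, pull_pull (TopGx_diffτ G hq) (B.diff_Psi G.okB hτ)]
      have f2 : pull G.τ (pull B.Ψ vB) z =
          χB (B.Ψ (G.τ z)) • pull G.τ (pull (R15 C.rho) βB) z :=
        TopGx_smul (B.pull_ext G.okB hvB hτ)
      have f3 : pull G.τ (pull (R15 C.rho) βB) z = pull (R15 C.rho) βA z := by
        rw [pull_pull (TopGx_diffτ G hq) (TopGx_diffR hτ.2), pull_congr_left hev2,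
          ← pull_pull (TopGx_diffR hz.2) (TopGx_diffτ G hqR)]
        exact TopGx_val (hcomp _ hRz.2 hqR)
      rw [f1, f2, f3, ← G.A_eq hz hq]
    · have h0 : vB (A.Ψ z) = 0 := by
        rw [hvB _ hm.1]
        unfold VPiece.extF
        rw [if_neg hB]
      have h2 : χB (A.Ψ z) = 0 := image_eq_zero_of_notMem_tsupport fun h => hB (hsB h)
      rw [h2, zero_smul]
      unfold pull
      rw [h0, map_zero]
  rw [e1, e2, e3, ← add_smul, h1, one_smul]

/-- `dV v = u` at the points of the piece `A`. -/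
private theorem TopGx_main {N : Set (En 7)} {C : Collar N} {n M : ℕ} {V : Geo n M}
    {gA gB : En 15 → ℝ} {A : VPiece C V.carrier gA} {B : VPiece C V.carrier gB} {i : Fin 15}
    (G : Glue A B i) {κ : Type} [Fintype κ] {t : Tw M κ} {tC : Tw 15 κ}
    (hA : ∀ z ∈ dom gA C.O 20000, (t.pull A.Ψ).e z = tC.e z ∧ (t.pull A.Ψ).b z = tC.b z)
    {u : En M → HF M κ} (hu : VF V t u) {βA βB : En 15 → HF 15 κ}
    (sA : ContDiffOn ℝ ∞ βA {z | p3 z ∈ C.O})
    (dA : ∀ z ∈ dom gA C.O 20000, tC.d βA z = pull A.Ψ u z)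
    (hcomp : ∀ z, p3 z ∈ C.O → G.q z ≠ 0 → pull G.τ βB z = βA z)
    {χA χB : En M → ℝ} {U : Set (En M)} (hU : IsOpen U) (hsB : tsupport χB ⊆ B.O)
    (hU1 : ∀ x ∈ U, χA x + χB x = 1) {vA vB : En M → HF M κ}
    (hvA : ∀ y ∈ V.carrier, vA y = A.extF χA βA y)
    (hvB : ∀ y ∈ V.carrier, vB y = B.extF χB βB y)
    (hv : VF V t (fun y => vA y + vB y)) {y : En M} (hy : y ∈ V.carrier ∩ A.O) (hyU : y ∈ U) :
    dV V t (fun y => vA y + vB y) y = u y := by
  have hN := A.mapsΦ y hy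
  have hz : A.Φ y ∈ dom gA C.O 20000 := dom_sub C hN
  have hΩ : IsOpen {z : En 15 | p3 z ∈ C.O} := C.openO.preimage continuous_p3
  refine A.dV_eq G.okA hv hu hy ?_ ?_ ?_ (β := βA)
  · exact (sA.contDiffAt (hΩ.mem_nhds hz.2)).differentiableAt (by simp)
  · have hc : ContinuousAt A.Ψ (A.Φ y) := (A.contDiffAt_Psi G.okA hz).continuousAt
    have hn : ∀ᶠ z' in 𝓝 (A.Φ y), A.Ψ z' ∈ U := by
      apply hc.preimage_mem_nhds
      rw [A.right y hy]
      exact hU.mem_nhds hyU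
    filter_upwards [(isOpen_dom G.okA C.openO _).mem_nhds hz, hn] with z' a b
    exact TopGx_claim G hsB hvA hvB hcomp a (hU1 _ b)
  · rw [Tw.d_congr (hA _ hz).1 (hA _ hz).2 (EventuallyEq.refl _ βA), dA _ hz]

theorem Glue.glue_exact {N : Set (En 7)} {C : Collar N} {n M : ℕ} {V : Geo n M}
    {gA gB : En 15 → ℝ} {A : VPiece C V.carrier gA} {B : VPiece C V.carrier gB} {i : Fin 15}
    (G : Glue A B i) {κ : Type} [Fintype κ] {t : Tw M κ} {tC : Tw 15 κ}
    (hA : ∀ z ∈ dom gA C.O 20000, (t.pull A.Ψ).e z = tC.e z ∧ (t.pull A.Ψ).b z = tC.b z)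
    (hB : ∀ z ∈ dom gB C.O 20000, (t.pull B.Ψ).e z = tC.e z ∧ (t.pull B.Ψ).b z = tC.b z)
    {u : En M → HF M κ} (hu : VF V t u) {βA βB : En 15 → HF 15 κ}
    (sA : ContDiffOn ℝ ∞ βA {z | p3 z ∈ C.O}) (sB : ContDiffOn ℝ ∞ βB {z | p3 z ∈ C.O})
    (eA : ∀ z, p3 z ∈ C.O → ten (tC.e z) (βA z) = βA z)
    (eB : ∀ z, p3 z ∈ C.O → ten (tC.e z) (βB z) = βB z)
    (dA : ∀ z ∈ dom gA C.O 20000, tC.d βA z = pull A.Ψ u z)
    (dB : ∀ z ∈ dom gB C.O 20000, tC.d βB z = pull B.Ψ u z)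
    (hcomp : ∀ z, p3 z ∈ C.O → G.q z ≠ 0 → pull G.τ βB z = βA z)
    {K1 : Set (En M)} (hK : IsCompact K1) (hK' : K1 ⊆ V.carrier ∩ (A.O ∪ B.O)) :
    ∃ v : En M → HF M κ, VF V t v ∧ ∀ y ∈ K1, dV V t v y = u y := by
  obtain ⟨χA, χB, U, hχA, hχB, hsA, hsB, hU, hKU, hU1⟩ := exists_partition hK A.openO B.openO
    (fun x hx => (hK' hx).2)
  obtain ⟨vA, hvAs, hvA⟩ := A.ext_exists G.okA hχA hsA (sA.mono fun z hz => hz.2)
  obtain ⟨vB, hvBs, hvB⟩ := B.ext_exists G.okB hχB hsB (sB.mono fun z hz => hz.2)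
  have fA : VF V t vA := A.ext_VF (t := t) G.okA (fun z hz => by
    have h1 : t.e (A.Ψ z) = tC.e z := (hA z hz).1
    rw [h1]
    exact eA z hz.2) hvAs hvA
  have fB : VF V t vB := B.ext_VF (t := t) G.okB (fun z hz => by
    have h1 : t.e (B.Ψ z) = tC.e z := (hB z hz).1
    rw [h1]
    exact eB z hz.2) hvBs hvB
  have hcomp' : ∀ z, p3 z ∈ C.O → G.symm.q z ≠ 0 → pull G.symm.τ βA z = βB z := by
    intro z hz hq
    have hq' : G.q z ≠ 0 := hq
    have h1 : βA (G.σ z) = pull G.τ βB (G.σ z) :=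
      (hcomp (G.σ z) (by
        have : p3 (G.σ z) = p3 z := G.symm.p3τ z hq
        rw [this]
        exact hz) (G.qσ_ne hq')).symm
    have h2 : pull G.symm.τ βA z = pull G.σ (pull G.τ βB) z := TopGx_val (F := G.σ) h1
    have h3 : pull G.σ (pull G.τ βB) z = pull (G.τ ∘ G.σ) βB z :=
      pull_pull (F := G.σ) (G := G.τ) (TopGx_diffτ G.symm hq) (TopGx_diffτ G (G.qσ_ne hq'))
    rw [h2, h3]
    refine TopGx_id ?_
    filter_upwards [TopGx_nq G hq'] with z' hz'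
    exact G.τσ z' hz'
  refine ⟨fun y => vA y + vB y, fA.add fB, fun y hy => ?_⟩
  rcases (hK' hy).2 with hyA | hyB
  · exact TopGx_main G hA hu sA dA hcomp hU hsB hU1 hvA hvB (fA.add fB) ⟨(hK' hy).1, hyA⟩
      (hKU hy)
  · have e : (fun y => vA y + vB y) = fun y => vB y + vA y := funext fun y => add_comm _ _
    rw [e]
    exact TopGx_main G.symm hB hu sB dB hcomp' hU hsA
      (fun x hx => by rw [add_comm]; exact hU1 x hx) hvB hvA (fB.add fA) ⟨(hK' hy).1, hyB⟩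
      (hKU hy)

end Pool.Agent.EXO
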