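import Pool.Agent.EXO.TopGd
import Pool.Agent.EXO.TopEx

/-!
# EXO / TopGz: extension by zero of the local form of `u` on the piece `A`

`C1` is a compact subset of `V ∩ (A.O ∪ B.O)` and `u = 0` on `V ∖ C1`.

Proofs.  (`R = R15 C.rho`, `Ω = {z | p3 z ∈ C.O}`.)
`A_eq`: for `z ∈ dom gA C.O 20000`, `q z ≠ 0`: `A.Ψ z = A.Ψ (R z) = B.Ψ (τ (R z)) = B.Ψ (R (τ z)) = B.Ψ (τ z)`
(`Psi_R` for both pieces; `R z ∈ dom gA N 20000` by `R_mem`, `R (τ z) = τ (R z)`; `τ z ∈ dom gB C.O 20000`).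
`A_not`: if `q z = 0` then `A.Ψ z = A.Ψ (R z) ∉ B.O` by `notA`, as `q (R z) = q z`.
`tau_Phi`: for `z ∈ dom gA C.O 20000` with `A.Ψ z ∈ B.O`: `q z ≠ 0` and
`B.Φ (A.Ψ z) = B.Φ (B.Ψ (τ z)) = R (τ z) = τ (R z)`.
`bdd`: suppose not: there are `z_n ∈ dom gA C.O 20000`, `A.Ψ z_n ∈ C1`, `h z_n > n`; a subsequence of
`A.Ψ z_n` converges to `y ∈ C1` (compactness, `IsCompact.tendsto_subseq`).  If `y ∈ A.O`, then
`A.Φ (A.Ψ z_n) = R z_n` converges (`A.Φ` continuous at `y`, `A.O` open) and `h (R z_n) = h z_n` is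
bounded.  If `y ∈ B.O`: `B.Φ (A.Ψ z_n) = R (τ z_n)` converges, and `h (R (τ z_n)) = h (τ z_n) = h z_n`.
`closed`: let `p3 z ∈ C.O`, `20000 ≤ gA z`.  Suppose not: there are `z_n → z` with `z_n ∈ dom gA C.O 20000` and
`A.Ψ z_n ∈ C1` (use `frequently` and a sequence); a subsequence of `A.Ψ z_n` converges to
`y ∈ C1`.  If `y ∈ A.O`: `R z_n = A.Φ (A.Ψ z_n) → A.Φ y ∈ dom gA N 20000` (`mapsΦ`) and `R z_n → R z`
(`contDiffAt` of `R` at `z`: only `p3 z ∈ C.O` is used), so `R z = A.Φ y` and `gA z = gA (R z) < 20000`.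
If `y ∈ B.O`: `q z_n ≠ 0` for large `n` and `τ (R z_n) = B.Φ (A.Ψ z_n) → z' := B.Φ y`, with
`q (R z_n) * q (τ (R z_n)) = 1`; in the limit `q z * q z' = 1`, so `q z ≠ 0`, `q z' ≠ 0`.  By continuity
of `σ` at `z'`, `R z_n = σ (τ (R z_n)) → σ z'`, so `R z = σ z'` and `gA z = gA (R z) = gA (σ z') =
gB z' < 20000` (`gτ` at `σ z'`, `τσ`).
`zex_smooth`: at `z ∈ dom gA C.O 20000` (open) `zex u = pull A.Ψ u` near `z`, `contDiffAt_pull`; at `z ∈ Ω`
with `20000 ≤ gA z`: `zex u = 0` near `z` by `closed` (`pull A.Ψ u z' = 0` if `u (A.Ψ z') = 0`).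
`pull_zex`: `q z ≠ 0`, `p3 z ∈ C.O`.  If `gA z < 20000`: `zex u (τ z) = pull B.Ψ u (τ z)`, and
`pull τ (pull B.Ψ u) z = pull (B.Ψ ∘ τ) u z = pull A.Ψ u z` by `pull_pull` and `pull_congr_left`
(`B.Ψ ∘ τ = A.Ψ` near `z`).  Otherwise both sides are `0` since `gB (τ z) = gA z`.
-/

set_option autoImplicit false
set_option maxSynthPendingDepth 3

open Set MeasureTheory Matrix Filter Topology
open scoped ContDiff ENNReal ComplexConjugate

namespace Pool.Agent.EXO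

open Classical in
/-- The local form of `u` on a piece, extended by zero. -/
noncomputable def VPiece.zex {N : Set (En 7)} {C : Collar N} {M : ℕ} {V : Set (En M)}
    {g : En 15 → ℝ} (p : VPiece C V g) {κ : Type} [Fintype κ] (u : En M → HF M κ) (z : En 15) :
    HF 15 κ :=
  if z ∈ dom g C.O 20000 then pull p.Ψ u z else 0

private theorem topgz_pull {m k : ℕ} {κ : Type*} [Fintype κ] {F : RE k → RE m}
    {a b : RE m → HF m κ} {z : RE k} (h : a (F z) = b (F z)) : pull F a z = pull F b z := by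
  unfold pull
  rw [h]

private theorem topgz_pull0 {m k : ℕ} {κ : Type*} [Fintype κ] {F : RE k → RE m}
    {a : RE m → HF m κ} {z : RE k} (h : a (F z) = 0) : pull F a z = 0 := by
  unfold pull
  rw [h, map_zero]

section

variable {N : Set (En 7)} {C : Collar N} {n M : ℕ} {V : Geo n M} {gA gB : En 15 → ℝ}
  {A : VPiece C V.carrier gA} {B : VPiece C V.carrier gB} {i : Fin 15} (G : Glue A B i)
  {κ : Type} [Fintype κ]

include G

theorem Glue.tau_mem {c : ℝ} {U : Set (En 7)} {z : En 15} (hz : z ∈ dom gA U c)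
    (hq : G.q z ≠ 0) : G.τ z ∈ dom gB U c := by
  refine ⟨?_, ?_⟩
  · rw [G.gτ z hq]
    exact hz.1
  · rw [G.p3τ z hq]
    exact hz.2

theorem Glue.A_eq {z : En 15} (hz : z ∈ dom gA C.O 20000) (hq : G.q z ≠ 0) :
    A.Ψ z = B.Ψ (G.τ z) := by
  have hq' : G.q (R15 C.rho z) ≠ 0 := by
    rw [G.q_R]
    exact hq
  rw [← A.Psi_R G.okA hz, G.trans _ (R_mem G.okA hz) hq', G.τ_R C.rho z hq,
    B.Psi_R G.okB (G.tau_mem hz hq)]

theorem Glue.A_not {z : En 15} (hz : z ∈ dom gA C.O 20000) (hq : G.q z = 0) : A.Ψ z ∉ B.O := by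
  rw [← A.Psi_R G.okA hz]
  refine G.notA _ (R_mem G.okA hz) ?_
  rw [G.q_R]
  exact hq

theorem Glue.tau_Phi {z : En 15} (hz : z ∈ dom gA C.O 20000) (hB : A.Ψ z ∈ B.O) :
    G.q z ≠ 0 ∧ B.Φ (A.Ψ z) = R15 C.rho (G.τ z) := by
  have hq : G.q z ≠ 0 := fun h => G.A_not hz h hB
  refine ⟨hq, ?_⟩
  rw [G.A_eq hz hq, B.Phi_Psi (G.tau_mem hz hq)]

theorem Glue.bdd {C1 : Set (En M)} (hC1 : IsCompact C1)
    (hC1' : C1 ⊆ V.carrier ∩ (A.O ∪ B.O)) :
    ∃ r : ℝ, ∀ z ∈ dom gA C.O 20000, A.Ψ z ∈ C1 → G.h z ≤ r := by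
  refine hC1.induction_on (p := fun s => ∃ r : ℝ, ∀ z ∈ dom gA C.O 20000, A.Ψ z ∈ s → G.h z ≤ r)
    ⟨0, fun z _ h => absurd h (Set.notMem_empty _)⟩ ?_ ?_ ?_
  · rintro s t hst ⟨r, hr⟩
    exact ⟨r, fun z hz h => hr z hz (hst h)⟩
  · rintro s t ⟨r, hr⟩ ⟨r', hr'⟩
    refine ⟨max r r', fun z hz h => ?_⟩
    rcases h with h | h
    · exact (hr z hz h).trans (le_max_left _ _)
    · exact (hr' z hz h).trans (le_max_right _ _)
  · intro y hy
    rcases (hC1' hy).2 with hyO | hyO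
    · have hc : ContinuousAt (fun y' => G.h (A.Φ y')) y :=
        G.conth.continuousAt.comp (A.contDiffAt_Phi hyO).continuousAt
      have h1 : ∀ᶠ y' in 𝓝 y, G.h (A.Φ y') < G.h (A.Φ y) + 1 :=
        hc.eventually (gt_mem_nhds (by linarith))
      refine ⟨{y' | G.h (A.Φ y') < G.h (A.Φ y) + 1}, nhdsWithin_le_nhds h1,
        G.h (A.Φ y) + 1, fun z hz h => ?_⟩
      have h2 : G.h (A.Φ (A.Ψ z)) < G.h (A.Φ y) + 1 := h
      rw [A.Phi_Psi hz, G.h_R] at h2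
      exact h2.le
    · have hc : ContinuousAt (fun y' => G.h (B.Φ y')) y :=
        G.conth.continuousAt.comp (B.contDiffAt_Phi hyO).continuousAt
      have h1 : ∀ᶠ y' in 𝓝 y, G.h (B.Φ y') < G.h (B.Φ y) + 1 :=
        hc.eventually (gt_mem_nhds (by linarith))
      refine ⟨{y' | G.h (B.Φ y') < G.h (B.Φ y) + 1 ∧ y' ∈ B.O},
        nhdsWithin_le_nhds (h1.and (B.openO.mem_nhds hyO)),
        G.h (B.Φ y) + 1, fun z hz h => ?_⟩
      have h2 : G.h (B.Φ (A.Ψ z)) < G.h (B.Φ y) + 1 := h.1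
      obtain ⟨hq, h3⟩ := G.tau_Phi hz h.2
      rw [h3, G.h_R, G.hτ z hq] at h2
      exact h2.le

theorem Glue.closed {C1 : Set (En M)} (hC1 : IsCompact C1)
    (hC1' : C1 ⊆ V.carrier ∩ (A.O ∪ B.O)) {z : En 15} (hz : p3 z ∈ C.O) (hg : 20000 ≤ gA z) :
    ∀ᶠ z' in 𝓝 z, z' ∈ dom gA C.O 20000 → A.Ψ z' ∉ C1 := by
  by_contra hcon
  have hfr : ∃ᶠ z' in 𝓝 z, z' ∈ dom gA C.O 20000 ∧ A.Ψ z' ∈ C1 := by
    refine fun h => hcon ?_
    filter_upwards [h] with z' h1 h2 h3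
    exact h1 ⟨h2, h3⟩
  have hne : (𝓝 z ⊓ 𝓟 {z' | z' ∈ dom gA C.O 20000 ∧ A.Ψ z' ∈ C1}).NeBot :=
    Filter.frequently_mem_iff_neBot.mp hfr
  obtain ⟨𝒰, h𝒰⟩ := Ultrafilter.exists_le (𝓝 z ⊓ 𝓟 {z' | z' ∈ dom gA C.O 20000 ∧ A.Ψ z' ∈ C1})
  have h𝒰1 : (𝒰 : Filter (En 15)) ≤ 𝓝 z := h𝒰.trans inf_le_left
  have h𝒰2 : ∀ᶠ z' in (𝒰 : Filter (En 15)), z' ∈ dom gA C.O 20000 ∧ A.Ψ z' ∈ C1 :=
    (h𝒰.trans inf_le_right) (Filter.mem_principal_self _)
  have hmap : ((𝒰.map A.Ψ : Ultrafilter (En M)) : Filter (En M)) ≤ 𝓟 C1 := by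
    rw [Filter.le_principal_iff, Ultrafilter.coe_map, Filter.mem_map]
    filter_upwards [h𝒰2] with z' hz'
    exact hz'.2
  obtain ⟨y, hy, hy2⟩ := hC1.ultrafilter_le_nhds _ hmap
  have hT : Tendsto A.Ψ (𝒰 : Filter (En 15)) (𝓝 y) := by
    rw [Ultrafilter.coe_map] at hy2
    exact hy2
  have hRc : ContinuousAt (R15 C.rho) z :=
    ((contDiffOn_R15 C.smooth_rho).contDiffAt
      ((C.openO.preimage continuous_p3).mem_nhds hz)).continuousAt
  have hR : Tendsto (R15 C.rho) (𝒰 : Filter (En 15)) (𝓝 (R15 C.rho z)) :=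
    hRc.tendsto.mono_left h𝒰1
  have hgR : gA (R15 C.rho z) = gA z := G.okA.inv _ _ (p1_R15 _ _) (p2_R15 _ _)
  rcases (hC1' hy).2 with hyO | hyO
  · have h1 : Tendsto (fun z' => A.Φ (A.Ψ z')) (𝒰 : Filter (En 15)) (𝓝 (A.Φ y)) :=
      (A.contDiffAt_Phi hyO).continuousAt.tendsto.comp hT
    have h2 : Tendsto (R15 C.rho) (𝒰 : Filter (En 15)) (𝓝 (A.Φ y)) := by
      refine h1.congr' ?_
      filter_upwards [h𝒰2] with z' hz'
      exact A.Phi_Psi hz'.1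
    have h3 := tendsto_nhds_unique hR h2
    have h4 := (A.mapsΦ y ⟨(hC1' hy).1, hyO⟩).1
    rw [← h3, hgR] at h4
    exact absurd h4 (not_lt.mpr hg)
  · have h1 : Tendsto (fun z' => B.Φ (A.Ψ z')) (𝒰 : Filter (En 15)) (𝓝 (B.Φ y)) :=
      (B.contDiffAt_Phi hyO).continuousAt.tendsto.comp hT
    have hBO : ∀ᶠ z' in (𝒰 : Filter (En 15)), A.Ψ z' ∈ B.O :=
      hT.eventually (B.openO.mem_nhds hyO)
    have h5 : ∀ᶠ z' in (𝒰 : Filter (En 15)), G.q (R15 C.rho z') ≠ 0 ∧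
        B.Φ (A.Ψ z') = G.τ (R15 C.rho z') := by
      filter_upwards [h𝒰2, hBO] with z' hz' hz''
      obtain ⟨hq, h6⟩ := G.tau_Phi hz'.1 hz''
      refine ⟨?_, ?_⟩
      · rw [G.q_R]
        exact hq
      · rw [h6, G.τ_R C.rho z' hq]
    have h7 : Tendsto (fun z' => G.q (R15 C.rho z') * G.q (B.Φ (A.Ψ z')))
        (𝒰 : Filter (En 15)) (𝓝 (G.q (R15 C.rho z) * G.q (B.Φ y))) :=
      (G.contq.continuousAt.tendsto.comp hR).mul (G.contq.continuousAt.tendsto.comp h1)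
    have h8 : Tendsto (fun z' => G.q (R15 C.rho z') * G.q (B.Φ (A.Ψ z')))
        (𝒰 : Filter (En 15)) (𝓝 1) := by
      refine tendsto_const_nhds.congr' ?_
      filter_upwards [h5] with z' hz'
      rw [hz'.2, G.qτ _ hz'.1]
    have h9 := tendsto_nhds_unique h7 h8
    have hqw : G.q (B.Φ y) ≠ 0 := by
      intro h0
      rw [h0, mul_zero] at h9
      exact zero_ne_one h9
    have hσc : ContinuousAt G.σ (B.Φ y) := by
      have hopen : IsOpen {z | G.q z ≠ 0} := isOpen_ne_fun G.contq continuous_const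
      exact (G.smoothσ.contDiffAt (hopen.mem_nhds hqw)).continuousAt
    have h10 : Tendsto (R15 C.rho) (𝒰 : Filter (En 15)) (𝓝 (G.σ (B.Φ y))) := by
      refine (hσc.tendsto.comp h1).congr' ?_
      filter_upwards [h5] with z' hz'
      simp only [Function.comp_apply]
      rw [hz'.2, G.στ _ hz'.1]
    have h11 := tendsto_nhds_unique hR h10
    have h12 : gA (G.σ (B.Φ y)) = gB (B.Φ y) := G.symm.gτ (B.Φ y) hqw
    have h4 := (B.mapsΦ y ⟨(hC1' hy).1, hyO⟩).1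
    rw [← h12, ← h11, hgR] at h4
    exact absurd h4 (not_lt.mpr hg)

omit G in
private theorem topgz_zero (p : VPiece C V.carrier gA) {u : En M → HF M κ} {z : En 15}
    (h : z ∈ dom gA C.O 20000 → u (p.Ψ z) = 0) : p.zex u z = 0 := by
  unfold VPiece.zex
  split_ifs with hz
  · unfold pull
    rw [h hz, map_zero]
  · rfl

theorem Glue.zex_near {C1 : Set (En M)} (hC1 : IsCompact C1)
    (hC1' : C1 ⊆ V.carrier ∩ (A.O ∪ B.O)) {u : En M → HF M κ}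
    (h0 : ∀ y ∈ V.carrier, y ∉ C1 → u y = 0) {z : En 15} (hz : p3 z ∈ C.O)
    (hg : 20000 ≤ gA z) : A.zex u =ᶠ[𝓝 z] fun _ => 0 := by
  filter_upwards [G.closed hC1 hC1' hz hg] with z' hz'
  exact topgz_zero A fun h => h0 _ (A.maps z' h).1 (hz' h)

theorem Glue.zex_smooth {C1 : Set (En M)} (hC1 : IsCompact C1)
    (hC1' : C1 ⊆ V.carrier ∩ (A.O ∪ B.O)) {u : En M → HF M κ} (hu : ContDiff ℝ ∞ u)
    (h0 : ∀ y ∈ V.carrier, y ∉ C1 → u y = 0) : ContDiffOn ℝ ∞ (A.zex u) {z | p3 z ∈ C.O} := by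
  intro z hz
  refine ContDiffAt.contDiffWithinAt ?_
  rcases lt_or_ge (gA z) 20000 with hg | hg
  · have hzd : z ∈ dom gA C.O 20000 := ⟨hg, hz⟩
    refine (contDiffAt_pull (A.contDiffAt_Psi G.okA hzd) hu.contDiffAt).congr_of_eventuallyEq ?_
    filter_upwards [(isOpen_dom G.okA C.openO _).mem_nhds hzd] with z' hz'
    unfold VPiece.zex
    rw [if_pos hz']
  · exact contDiffAt_const.congr_of_eventuallyEq (G.zex_near hC1 hC1' h0 hz hg)

theorem Glue.zex_bdd {C1 : Set (En M)} (hC1 : IsCompact C1)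
    (hC1' : C1 ⊆ V.carrier ∩ (A.O ∪ B.O)) {u : En M → HF M κ}
    (h0 : ∀ y ∈ V.carrier, y ∉ C1 → u y = 0) :
    ∃ r : ℝ, ∀ z, r < G.h z → A.zex u z = 0 := by
  obtain ⟨r, hr⟩ := G.bdd hC1 hC1'
  refine ⟨r, fun z hz => topgz_zero A fun h => h0 _ (A.maps z h).1 fun h1 => ?_⟩
  exact absurd (hr z h h1) (not_le.mpr hz)

theorem Glue.pull_zex (u : En M → HF M κ) {z : En 15} (hz : p3 z ∈ C.O) (hq : G.q z ≠ 0) :
    pull G.τ (B.zex u) z = A.zex u z := by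
  rcases lt_or_ge (gA z) 20000 with hg | hg
  · have hzd : z ∈ dom gA C.O 20000 := ⟨hg, hz⟩
    have hopen : IsOpen {z | G.q z ≠ 0} := isOpen_ne_fun G.contq continuous_const
    have hτd : DifferentiableAt ℝ G.τ z :=
      (G.smoothτ.contDiffAt (hopen.mem_nhds hq)).differentiableAt (by simp)
    have h1 : B.zex u (G.τ z) = pull B.Ψ u (G.τ z) := by
      unfold VPiece.zex
      rw [if_pos (G.tau_mem hzd hq)]
    have h2 : pull G.τ (B.zex u) z = pull G.τ (pull B.Ψ u) z := topgz_pull h1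
    have h4 : A.zex u z = pull A.Ψ u z := by
      unfold VPiece.zex
      rw [if_pos hzd]
    rw [h2, h4, pull_pull hτd (B.diff_Psi G.okB (G.tau_mem hzd hq))]
    refine pull_congr_left ?_
    filter_upwards [(isOpen_dom G.okA C.openO _).mem_nhds hzd, hopen.mem_nhds hq] with z' h5 h6
    exact (G.A_eq h5 h6).symm
  · have h1 : B.zex u (G.τ z) = 0 := by
      unfold VPiece.zex
      rw [if_neg]
      intro h
      have h2 := h.1
      rw [G.gτ z hq] at h2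
      exact absurd h2 (not_lt.mpr hg)
    have h4 : A.zex u z = 0 := by
      unfold VPiece.zex
      rw [if_neg]
      intro h
      exact absurd h.1 (not_lt.mpr hg)
    rw [topgz_pull0 h1, h4]

end

end Pool.Agent.EXO
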