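import Pool.Agent.EXO.TopTc
import Pool.Agent.EXO.TopLoc

/-!
# EXO / TopNo: no parallel sections over the collar

Proof of `noPar_collar`.  (`t = E.tN.pull C.rho`; `t.e w = toK (E.e (rho w))`,
`t.b w v = E.tN.b (rho w) (fderiv ℝ C.rho w v)`.)
STEP 1: `c = 0` on `N`.  `N` is compact and contained in the open set `C.O` (`Collar.sub`), so by
`exists_cutoff` there is a smooth `χ` with `χ = 1` near `N` and `tsupport χ ⊆ C.O`; put
`u x = WithLp.ofLp (χ x • c x)` (smooth on `ℝ⁷`: at `x ∈ C.O` a product, at `x ∉ C.O` zero near `x`).  Apply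
`E.NoPar`: for `x ∈ N`, `rho x = x`, so `E.e x *ᵥ u x = u x` by `hs`; for tangent `v` (`N.P x v = v`)
we have `fderiv ℝ C.rho x v = v` (`su_local` for `fun y => C.rho y - y`, which vanishes on `N`), so `hp` at `x`
is the condition of `NoPar` (`FlatBd.tN_b'`, `e * b = b`; `fderiv ℝ u x = fderiv ℝ c x` since `χ = 1` near `x`).
STEP 2: let `w ∈ C.O`, `n = rho w ∈ N`, `s = sc w ∈ (-1, 1)`, `w = io n s`.  On `(-1, 1)` put `γ s' = io n s'`,
`f s' = c (γ s')`: differentiable, `rho (γ s') = n`, hence `fderiv ℝ C.rho (γ s') (γ' s') = 0` and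
`f' s' = fderiv ℝ c (γ s') (γ' s')`; `hp` gives `toK (E.e n) (f' s') = 0`.  Since `toK (E.e n) (f s') = f s'`
for all `s'`, also `toK (E.e n) (f' s') = f' s'`, so `f' = 0` and `f` is constant on `(-1, 1)`
(`IsOpen.is_const_of_fderiv_eq_zero` or `Convex.is_const_of_fderivWithin_eq_zero`);
`c w = f s = f 0 = c n = 0`.

Proof of `noPar_form`.  `f z = vac 15 (c z)` with `c z = cpt ∅ (f z)` (degree `0`: `cpt S (f z) = 0` for
`S ≠ ∅`, `cpt_dg`, `cpt_vac`, `hf_cpt_ext`).  `(tC C E).d f z = ∑ a, eps a (vac 15 (e ∂_a c + b (ee a) c))`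
(`ten_vac`); its component `cpt {a}` is `e ∂_a c + b (ee a) c` (`cpt_eps`), so this vanishes for all `a`, and
by linearity `e (fderiv ℝ c z v) + b z v (c z) = 0` for all `v`.  Put `c₀ w = c (j15 0 0 w)`.  For
`w ∈ C.O`, `v ∈ ℝ⁷` use this at `z = j15 0 0 w` in the direction `j15 0 0 v` (`w ↦ j15 0 0 w` is linear;
`p3 (j15 0 0 w) = w`, so `rho ∘ p3 ∘ (j15 0 0) = rho`): the hypotheses of `noPar_collar` for `c₀`.
Finally `f z = f (j15 0 0 (p3 z)) = 0` by `hi`.
-/

set_option autoImplicit false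
set_option maxSynthPendingDepth 3

open Set MeasureTheory Matrix Filter Topology
open scoped ContDiff ENNReal ComplexConjugate

namespace Pool.Agent.EXO

variable {N : OrGeo 6 7} (C : Collar N.carrier) {ι : Type} [Fintype ι] [DecidableEq ι]
  {E : FlatBd N.toGeo ι}

private noncomputable def topno_of (ι : Type) [Fintype ι] : KE ι →L[ℝ] (ι → ℂ) :=
  (EuclideanSpace.equiv ι ℂ).toContinuousLinearMap.restrictScalars ℝ

private theorem topno_of_toK (T : Matrix ι ι ℂ) (x : KE ι) :
    WithLp.ofLp (toK T x) = T *ᵥ WithLp.ofLp x := rfl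

theorem noPar_collar (hE : E.NoPar) {c : En 7 → KE ι} (hc : ContDiffOn ℝ ∞ c C.O)
    (hs : ∀ w ∈ C.O, (E.tN.pull C.rho).e w (c w) = c w)
    (hp : ∀ w ∈ C.O, ∀ v, (E.tN.pull C.rho).e w (fderiv ℝ c w v) +
      (E.tN.pull C.rho).b w v (c w) = 0) :
    ∀ w ∈ C.O, c w = 0 := by
  have hs' : ∀ w ∈ C.O, toK (E.e (C.rho w)) (c w) = c w := hs
  have hp' : ∀ w ∈ C.O, ∀ v, toK (E.e (C.rho w)) (fderiv ℝ c w v) +
      E.tN.b (C.rho w) (fderiv ℝ C.rho w v) (c w) = 0 := hp
  have hcd : ∀ w ∈ C.O, DifferentiableAt ℝ c w := fun w hw =>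
    (hc.contDiffAt (C.openO.mem_nhds hw)).differentiableAt (by simp)
  have hrd : ∀ w ∈ C.O, DifferentiableAt ℝ C.rho w := fun w hw =>
    (C.smooth_rho.contDiffAt (C.openO.mem_nhds hw)).differentiableAt (by simp)
  -- step 1
  have hN0 : ∀ n ∈ N.carrier, c n = 0 := by
    obtain ⟨χ, hχ, ⟨W, hW, hNW, hχ1⟩, hχs, _⟩ := exists_cutoff N.compact.isClosed C.openO C.sub
    obtain ⟨u, hu⟩ : ∃ u : En 7 → (ι → ℂ), u = fun x => topno_of ι (χ x • c x) := ⟨_, rfl⟩
    have hus : ContDiff ℝ ∞ u := by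
      rw [hu, contDiff_iff_contDiffAt]
      intro x
      by_cases hx : x ∈ C.O
      · exact (topno_of ι).contDiff.contDiffAt.comp x
          (hχ.contDiffAt.smul (hc.contDiffAt (C.openO.mem_nhds hx)))
      · refine (contDiffAt_const (c := (0 : ι → ℂ))).congr_of_eventuallyEq ?_
        filter_upwards [(isClosed_tsupport χ).isOpen_compl.mem_nhds fun h => hx (hχs h)] with y hy
        rw [image_eq_zero_of_notMem_tsupport hy, zero_smul, map_zero]
    have huN : ∀ x ∈ W, u x = WithLp.ofLp (c x) := by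
      intro x hx
      rw [hu]
      simp only
      rw [hχ1 x hx, one_smul]
      rfl
    have h1 : ∀ x ∈ N.carrier, (E.e x) *ᵥ (u x) = u x := by
      intro x hx
      rw [huN x (hNW hx), ← topno_of_toK]
      have h2 := hs' x (C.sub hx)
      rw [C.rho_fix hx] at h2
      rw [h2]
    have h2 : ∀ x ∈ N.carrier, ∀ v : En 7, N.P x v = v →
        (E.e x) *ᵥ (fderiv ℝ u x v + (∑ a, ((v a : ℝ) : ℂ) • E.b a x) *ᵥ (u x)) = 0 := by
      intro x hx v hv
      have hxO := C.sub hx
      have h3 : fderiv ℝ u x v = WithLp.ofLp (fderiv ℝ c x v) := by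
        have h4 : u =ᶠ[𝓝 x] fun y => topno_of ι (c y) := by
          filter_upwards [hW.mem_nhds (hNW hx)] with y hy
          exact huN y hy
        have h5 : HasFDerivAt (fun y => topno_of ι (c y)) ((topno_of ι).comp (fderiv ℝ c x)) x :=
          (topno_of ι).hasFDerivAt.comp x (hcd x hxO).hasFDerivAt
        rw [h4.fderiv_eq, h5.fderiv]
        rfl
      have h6 : fderiv ℝ C.rho x v = v := by
        have h7 : HasFDerivAt (fun y => C.rho y - y)
            (fderiv ℝ C.rho x - ContinuousLinearMap.id ℝ _) x :=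
          (hrd x hxO).hasFDerivAt.sub (hasFDerivAt_id x)
        have h8 := su_local N.toGeo hx h7.differentiableAt (Filter.Eventually.of_forall
          fun y hy => by rw [C.rho_fix hy, sub_self]) v
        rw [h7.fderiv, hv] at h8
        exact sub_eq_zero.mp h8
      have h9 := hp' x hxO v
      rw [C.rho_fix hx, h6] at h9
      have h10 : E.tN.b x v (c x) = toK (E.e x) (E.tN.b x v (c x)) := by
        have h11 := E.tN_eb hx v
        exact (congrArg (fun L : KE ι →L[ℂ] KE ι => L (c x)) h11).symm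
      rw [h10, ← map_add, FlatBd.tN_b'] at h9
      have h12 := congrArg (fun y : KE ι => WithLp.ofLp y) h9
      simp only [topno_of_toK, WithLp.ofLp_add, WithLp.ofLp_zero] at h12
      rw [h3, huN x (hNW hx)]
      exact h12
    intro n hn
    have h3 := hE u hus h1 h2 n hn
    rw [huN n (hNW hn)] at h3
    exact (WithLp.ofLp_injective 2) h3
  -- step 2
  intro w hw
  obtain ⟨hn, hsc, hio⟩ := C.io_rho w hw
  obtain ⟨n, hndef⟩ : ∃ n, n = C.rho w := ⟨_, rfl⟩
  rw [← hndef] at hn hio
  have hγs : ContDiff ℝ ∞ (fun s' : ℝ => C.io n s') :=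
    C.smooth_io.comp (contDiff_const.prodMk contDiff_id)
  have hγd : ∀ s' : ℝ, HasFDerivAt (fun s' : ℝ => C.io n s')
      (fderiv ℝ (fun s' : ℝ => C.io n s') s') s' := fun s' =>
    (hγs.differentiable (by simp) s').hasFDerivAt
  have hf : ∀ s' ∈ Ioo (-1 : ℝ) 1, HasFDerivAt (fun s' : ℝ => c (C.io n s'))
      ((fderiv ℝ c (C.io n s')).comp (fderiv ℝ (fun s' : ℝ => C.io n s') s')) s' := fun s' hs1 =>
    (hcd _ (C.io_mem n hn s' hs1).1).hasFDerivAt.comp s' (hγd s')
  have hzero : ∀ s' ∈ Ioo (-1 : ℝ) 1,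
      fderiv ℝ (fun s' : ℝ => c (C.io n s')) s' = 0 := by
    intro s' hs1
    have hmem := C.io_mem n hn s' hs1
    have hnear : ∀ᶠ t in 𝓝 s', t ∈ Ioo (-1 : ℝ) 1 := isOpen_Ioo.mem_nhds hs1
    have h1 : (fderiv ℝ C.rho (C.io n s')).comp (fderiv ℝ (fun s' : ℝ => C.io n s') s') = 0 := by
      have h2 := (hrd _ hmem.1).hasFDerivAt.comp s' (hγd s')
      have h3 : (C.rho ∘ fun s' : ℝ => C.io n s') =ᶠ[𝓝 s'] fun _ => n := by
        filter_upwards [hnear] with t ht
        exact (C.io_mem n hn t ht).2.1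
      rw [← h2.fderiv, h3.fderiv_eq]
      exact fderiv_const_apply n
    rw [(hf s' hs1).fderiv]
    ext1
    have h4 := hp' _ hmem.1 (fderiv ℝ (fun s' : ℝ => C.io n s') s' 1)
    have h5 : fderiv ℝ C.rho (C.io n s') (fderiv ℝ (fun s' : ℝ => C.io n s') s' 1) = 0 :=
      congrArg (fun L : ℝ →L[ℝ] En 7 => L 1) h1
    rw [h5, map_zero, hmem.2.1] at h4
    have h6 : (0 : KE ι →L[ℂ] KE ι) (c (C.io n s')) = 0 := rfl
    rw [h6, add_zero] at h4
    have h7 : toK (E.e n) (fderiv ℝ c (C.io n s') (fderiv ℝ (fun s' : ℝ => C.io n s') s' 1)) =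
        fderiv ℝ c (C.io n s') (fderiv ℝ (fun s' : ℝ => C.io n s') s' 1) := by
      have h8 : HasFDerivAt (fun t : ℝ => toK (E.e n) (c (C.io n t)))
          (((toK (E.e n)).restrictScalars ℝ).comp
            ((fderiv ℝ c (C.io n s')).comp (fderiv ℝ (fun s' : ℝ => C.io n s') s'))) s' :=
        ((toK (E.e n)).restrictScalars ℝ).hasFDerivAt.comp s' (hf s' hs1)
      have h9 : (fun t : ℝ => toK (E.e n) (c (C.io n t))) =ᶠ[𝓝 s'] fun t => c (C.io n t) := by
        filter_upwards [hnear] with t ht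
        have h10 := hs' _ (C.io_mem n hn t ht).1
        rw [(C.io_mem n hn t ht).2.1] at h10
        exact h10
      have h11 := (h8.congr_of_eventuallyEq h9.symm).unique (hf s' hs1)
      exact congrArg (fun L : ℝ →L[ℝ] KE ι => L 1) h11
    rw [h7] at h4
    exact h4
  have hconst := isOpen_Ioo.is_const_of_fderiv_eq_zero (𝕜 := ℝ) (s := Ioo (-1 : ℝ) 1)
    (f := fun s' : ℝ => c (C.io n s')) isPreconnected_Ioo
    (fun s' hs1 => (hf s' hs1).differentiableAt.differentiableWithinAt) (fun s' hs1 => hzero s' hs1)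
    hsc (show (0 : ℝ) ∈ Ioo (-1 : ℝ) 1 by norm_num)
  have hconst' : c (C.io n (C.sc w)) = c (C.io n 0) := hconst
  rw [hio, C.io_zero n hn, hN0 n hn] at hconst'
  exact hconst'

private noncomputable def topno_cpt (m : ℕ) (ι : Type) [Fintype ι] : HF m ι →L[ℝ] KE ι :=
  (LinearMap.toContinuousLinearMap
    { toFun := cpt ∅
      map_add' := cpt_add ∅
      map_smul' := cpt_smul ∅ } : HF m ι →L[ℂ] KE ι).restrictScalars ℝ

private noncomputable def topno_J : En 7 →L[ℝ] En 15 :=
  LinearMap.toContinuousLinearMap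
    { toFun := fun w => j15 0 0 w
      map_add' := by
        intro u v
        ext i
        fin_cases i <;> simp [j15]
      map_smul' := by
        intro r u
        ext i
        fin_cases i <;> simp [j15] }

private noncomputable def topno_p3 : En 15 →L[ℝ] En 7 :=
  LinearMap.toContinuousLinearMap
    { toFun := p3
      map_add' := by
        intro u v
        ext i
        simp [p3]
      map_smul' := by
        intro r u
        ext i
        simp [p3] }

theorem noPar_form (hE : E.NoPar) {f : En 15 → HF 15 ι}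
    (hf : (tC C E).Sec {z | p3 z ∈ C.O} f) (h0 : ∀ z, p3 z ∈ C.O → dg 0 (f z) = f z)
    (hd : ∀ z, p3 z ∈ C.O → (tC C E).d f z = 0)
    (hi : ∀ z z', p3 z ∈ C.O → p3 z = p3 z' → f z = f z') :
    ∀ z, p3 z ∈ C.O → f z = 0 := by
  have hopen : IsOpen {z : En 15 | p3 z ∈ C.O} := C.openO.preimage continuous_p3
  have hfd : ∀ z, p3 z ∈ C.O → DifferentiableAt ℝ f z := fun z hz =>
    (hf.1.contDiffAt (hopen.mem_nhds hz)).differentiableAt (by simp)
  have hJ : ∀ w, p3 (topno_J w) = w := fun w => p3_j15 _ _ _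
  -- the equation for the component of degree zero
  have key : ∀ z, p3 z ∈ C.O → ∀ v : En 15,
      (tC C E).e z (cpt ∅ (fderiv ℝ f z v)) + (tC C E).b z v (cpt ∅ (f z)) = 0 := by
    intro z hz v
    have h1 : ∀ a : Fin 15, (tC C E).e z (cpt ∅ (fderiv ℝ f z (ee a))) +
        (tC C E).b z (ee a) (cpt ∅ (f z)) = 0 := by
      intro a
      have h2 := congrArg (cpt {a}) (hd z hz)
      have h3 : cpt {a} ((tC C E).d f z) = sg a {a} • ((tC C E).e z (cpt ∅ (fderiv ℝ f z (ee a))) +
          (tC C E).b z (ee a) (cpt ∅ (f z))) := by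
        unfold Tw.d
        have h4 : ∀ F : Fin 15 → HF 15 ι, cpt ({a} : Finset (Fin 15)) (∑ b, F b) =
            ∑ b, cpt {a} (F b) := fun F =>
          map_sum (AddMonoidHom.mk' (cpt ({a} : Finset (Fin 15))) (cpt_add _)) _ _
        rw [h4, Finset.sum_eq_single a]
        · rw [cpt_eps, if_pos (Finset.mem_singleton_self a), Finset.erase_singleton, cpt_add,
            cpt_ten, cpt_ten]
        · intro b _ hb
          rw [cpt_eps, if_neg (by simpa using hb)]
        · intro h
          exact absurd (Finset.mem_univ a) h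
      rw [h3, cpt_zero] at h2
      have h5 : sg a ({a} : Finset (Fin 15)) ≠ 0 := by
        intro h6
        have h7 := sg_mul_self a ({a} : Finset (Fin 15))
        rw [h6, mul_zero] at h7
        exact zero_ne_one h7
      exact (smul_eq_zero.mp h2).resolve_left h5
    obtain ⟨L, hL⟩ : ∃ L : En 15 →L[ℝ] KE ι, ∀ v, L v =
        (tC C E).e z (cpt ∅ (fderiv ℝ f z v)) + (tC C E).b z v (cpt ∅ (f z)) :=
      ⟨(((tC C E).e z).restrictScalars ℝ).comp ((topno_cpt 15 ι).comp (fderiv ℝ f z)) +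
        (ContinuousLinearMap.apply ℂ (KE ι) (cpt ∅ (f z))).restrictScalars ℝ ∘L ((tC C E).b z),
        fun v => rfl⟩
    rw [← hL, lin_expand L v]
    refine Finset.sum_eq_zero fun a _ => ?_
    rw [hL, h1 a, smul_zero]
  obtain ⟨c, hcdef⟩ : ∃ c : En 7 → KE ι, c = fun w => topno_cpt 15 ι (f (topno_J w)) := ⟨_, rfl⟩
  have hcz : ∀ w ∈ C.O, c w = 0 := by
    refine noPar_collar C hE ?_ ?_ ?_
    · rw [hcdef]
      exact (topno_cpt 15 ι).contDiff.comp_contDiffOn (hf.1.comp topno_J.contDiff.contDiffOn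
        fun w hw => by
          change p3 (topno_J w) ∈ C.O
          rw [hJ]
          exact hw)
    · intro w hw
      have h1 := hf.2 (topno_J w) (by
        change p3 (topno_J w) ∈ C.O
        rw [hJ]
        exact hw)
      have h2 := congrArg (cpt ∅) h1
      rw [cpt_ten] at h2
      have h3 : (tC C E).e (topno_J w) = (E.tN.pull C.rho).e w := by
        change E.tN.e (C.rho (p3 (topno_J w))) = E.tN.e (C.rho w)
        rw [hJ]
      rw [h3] at h2
      rw [hcdef]
      exact h2
    · intro w hw v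
      have hz : p3 (topno_J w) ∈ C.O := by
        rw [hJ]
        exact hw
      have h1 := key (topno_J w) hz (topno_J v)
      have h3 : (tC C E).e (topno_J w) = (E.tN.pull C.rho).e w := by
        change E.tN.e (C.rho (p3 (topno_J w))) = E.tN.e (C.rho w)
        rw [hJ]
      have h4 : (tC C E).b (topno_J w) (topno_J v) = (E.tN.pull C.rho).b w v := by
        change E.tN.b (C.rho (p3 (topno_J w))) (fderiv ℝ (fun z => C.rho (p3 z)) (topno_J w)
          (topno_J v)) = E.tN.b (C.rho w) (fderiv ℝ C.rho w v)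
        have h5 : HasFDerivAt (fun z => C.rho (p3 z)) ((fderiv ℝ C.rho w).comp topno_p3)
            (topno_J w) := by
          have h6 : HasFDerivAt C.rho (fderiv ℝ C.rho w) (topno_p3 (topno_J w)) := by
            have h7 : topno_p3 (topno_J w) = w := hJ w
            rw [h7]
            exact ((C.smooth_rho.contDiffAt (C.openO.mem_nhds hw)).differentiableAt
              (by simp)).hasFDerivAt
          exact h6.comp (topno_J w) topno_p3.hasFDerivAt
        rw [h5.fderiv, hJ]
        have h8 : ((fderiv ℝ C.rho w).comp topno_p3) (topno_J v) = fderiv ℝ C.rho w v := by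
          change fderiv ℝ C.rho w (p3 (topno_J v)) = _
          rw [hJ]
        rw [h8]
      have h9 : fderiv ℝ c w v = cpt ∅ (fderiv ℝ f (topno_J w) (topno_J v)) := by
        have h10 : HasFDerivAt c ((topno_cpt 15 ι).comp ((fderiv ℝ f (topno_J w)).comp topno_J))
            w := by
          rw [hcdef]
          exact (topno_cpt 15 ι).hasFDerivAt.comp w
            ((hfd _ hz).hasFDerivAt.comp w topno_J.hasFDerivAt)
        rw [h10.fderiv]
        rfl
      rw [h3, h4] at h1
      rw [h9, hcdef]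
      exact h1
  intro z hz
  have h1 : f z = f (topno_J (p3 z)) := hi z _ hz (hJ _).symm
  have h2 := hcz (p3 z) hz
  rw [hcdef] at h2
  have h3 : cpt ∅ (f z) = 0 := by
    rw [h1]
    exact h2
  refine hf_cpt_ext fun S => ?_
  rw [cpt_zero, ← h0 z hz, cpt_dg]
  split_ifs with hS
  · rw [Finset.card_eq_zero] at hS
    rw [hS, h3]
  · rfl

end Pool.Agent.EXO
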