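import Pool.Agent.EXO.TopTc
import Pool.Agent.EXO.TopDeg
import Pool.Agent.EXO.FmFA

/-!
# EXO / TopOp: the signature operator is `d + δ`

`t` is the flat connection `A + θ`, `tm` the connection `A - θ`, `δ = - ∑ ι_a ∇⁻_a`.

Proofs.
`isSec_iff`: on `V` `Q = Lam P * cf e`, `cf e = ten (toK e)` (`cf_eq`), `Lam P` and `ten e` are commuting
projections (`Lam_ten`, `Lam_comp_apply` with `V.P_comp`, `ten_mul` with `E'.e_idem`), so `Q u = u` iff
`Lam P u = u` and `ten e u = u`.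
`op_eq`: insert `𝔇.c a = cl a = eps a - iota a`, `Q`, and `B_eq`; `Q u = u`; `cf = ten ∘ toK`;
`covV V t u x (ee a) = Lam P (ten e (fderiv u x (P e_a))) + ten (toK (A_a + θ_a)) u` and the same for `tm`
with `A_a - θ_a`; compare the coefficients of `eps a` and `iota a` (`bv = ee` by `rfl`).
`dg_dV'`: `dg (k+1) (eps a w) = eps a (dg k w)`, `dg k` commutes with `Lam P`, `ten`, and
`dg k (fderiv u x v) = fderiv (fun y => dg k (u y)) x v` (continuous linear map).  `dg_dl` the same with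
`dg_iota`.
`clI_comm`: `clI w = ∑ I, w.co I • (product of card I factors cl a)`; `(eps b + iota b)` anticommutes with every
`cl a` (`eps_eps`, `iota_iota`, `eps_iota_self`, `eps_iota_ne`), so it commutes with a product of an even
number of them; `w.co I = 0` for `card I ≠ j`.
`Ga_deg`: apply `deg_reversal` with `n = 14`, `A` from `su_iso`, `X u = (Lam P u = u ∧ ten (E'.e x) u = u)`,
`G = 𝔇.Γ x`; `hXdg` by `Lam_dg`, `ten_dg`; `hXc`: `Lam P (epsv (P v) u) = epsv (P (P v)) (Lam P u)` (`Lam_epsv`)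
and `Lam P (iotav (P v) u)`: `iotav_Lam` with `adjoint P = P`; `hG` by `Γ_Q`; `hc` by `Γ_c`
(`∑ a, (P v)_a c_a = epsv (P v) - iotav (P v)`); `hc'`: for `u ∈ X`, `Γ u = I^7 • clI (vol x) (cf (diagonal s) u)`
(`Γ_eq`), `vol x` has degree `14` (`vol_spec`, degree of a product of one-forms), so `clI_comm`.
-/

set_option autoImplicit false
set_option maxSynthPendingDepth 3

open Set MeasureTheory Matrix Filter Topology
open scoped ContDiff ENNReal ComplexConjugate

namespace Pool.Agent.EXO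

section

variable {n M : ℕ} (V : Geo n M) {κ : Type} [Fintype κ]

/-- The codifferential of the connection `tm`. -/
noncomputable def dlV (tm : Tw M κ) (u : RE M → HF M κ) (x : RE M) : HF M κ :=
  -∑ a, iota a (covV V tm u x (ee a))

variable {V}

private theorem topop_fderiv {k : ℕ} {u : RE M → HF M κ} {x : RE M}
    (hu : DifferentiableAt ℝ u x) (v : RE M) :
    fderiv ℝ (fun y => dg k (u y)) x v = dg k (fderiv ℝ u x v) := by
  have h : HasFDerivAt (fun y => dg k (u y))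
      (((dg k : HF M κ →L[ℂ] HF M κ).restrictScalars ℝ).comp (fderiv ℝ u x)) x :=
    ((dg k : HF M κ →L[ℂ] HF M κ).restrictScalars ℝ).hasFDerivAt.comp x hu.hasFDerivAt
  rw [h.fderiv]
  rfl

private theorem topop_cov {t : Tw M κ} {k : ℕ} {u : RE M → HF M κ} {x : RE M}
    (hu : DifferentiableAt ℝ u x) (v : RE M) :
    dg k (covV V t u x v) = covV V t (fun y => dg k (u y)) x v := by
  unfold covV
  rw [map_add, ← Lam_dg, ← ten_dg, ← ten_dg, topop_fderiv hu]

theorem dg_dV' {t : Tw M κ} {k : ℕ} {u : RE M → HF M κ} {x : RE M}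
    (hu : DifferentiableAt ℝ u x) :
    dg (k + 1) (dV V t u x) = dV V t (fun y => dg k (u y)) x := by
  unfold dV
  rw [map_sum]
  refine Finset.sum_congr rfl fun a _ => ?_
  rw [dg_eps, topop_cov hu]

theorem dg_dl {t : Tw M κ} {k : ℕ} {u : RE M → HF M κ} {x : RE M}
    (hu : DifferentiableAt ℝ u x) :
    dg k (dlV V t u x) = dlV V t (fun y => dg (k + 1) (u y)) x := by
  unfold dlV
  rw [map_neg, map_sum]
  congr 1
  refine Finset.sum_congr rfl fun a _ => ?_
  rw [dg_iota, topop_cov hu]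

end

section

variable {M : ℕ} {V : OrGeo 14 M} {ι : Type} [Fintype ι] [DecidableEq ι] {E' : Bd V.toGeo ι}

/-- The operator `𝔇` is the signature operator of the connection `t = A + θ`, `tm = A - θ`. -/
structure SigTw (V : OrGeo 14 M) (E' : Bd V.toGeo ι) (θ : Fin M → En M → Matrix ι ι ℂ)
    (𝔇 : Dirac V.toGeo (HF M ι)) (t tm : Tw M ι) : Prop where
  sig : IsSig V E' 𝔇
  B_eq : ∀ x ∈ V.carrier, 𝔇.B x =
      (∑ a, cl a * cf (E'.A a x) + ∑ a, (eps a + iota a) * cf (θ a x)) * 𝔇.Q x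
  te : ∀ x ∈ V.carrier, t.e x = toK (E'.e x)
  tme : ∀ x ∈ V.carrier, tm.e x = toK (E'.e x)
  tb : ∀ x ∈ V.carrier, ∀ a, t.b x (V.P x (ee a)) = toK (E'.A a x + θ a x)
  tmb : ∀ x ∈ V.carrier, ∀ a, tm.b x (V.P x (ee a)) = toK (E'.A a x - θ a x)

variable {θ : Fin M → En M → Matrix ι ι ℂ} {𝔇 : Dirac V.toGeo (HF M ι)} {t tm : Tw M ι}

private theorem topop_Q (h : SigTw V E' θ 𝔇 t tm) {x : En M} (hx : x ∈ V.carrier)
    (w : HF M ι) : 𝔇.Q x w = Lam (V.P x) (ten (toK (E'.e x)) w) := by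
  rw [h.sig.Q_eq x hx, cf_eq]
  rfl

private theorem topop_ee {x : En M} (hx : x ∈ V.carrier) (w : HF M ι) :
    ten (toK (E'.e x)) (ten (toK (E'.e x)) w) = ten (toK (E'.e x)) w := by
  have h1 : toK (E'.e x) * toK (E'.e x) = toK (E'.e x) := by
    rw [← toK_mul, E'.e_idem x hx]
  have h2 : (ten (toK (E'.e x)) : HF M ι →L[ℂ] HF M ι) * ten (toK (E'.e x)) =
      ten (toK (E'.e x)) := by
    rw [← ten_mul, h1]
  exact congrArg (fun L : HF M ι →L[ℂ] HF M ι => L w) h2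

omit [DecidableEq ι] in
private theorem topop_PP {x : En M} (hx : x ∈ V.carrier) (w : HF M ι) :
    Lam (V.P x) (Lam (V.P x) w) = Lam (V.P x) w := by
  rw [← Lam_comp_apply, V.toGeo.P_comp hx]

private theorem topop_iff (h : SigTw V E' θ 𝔇 t tm) {x : En M} (hx : x ∈ V.carrier)
    (w : HF M ι) :
    𝔇.Q x w = w ↔ Lam (V.P x) w = w ∧ ten (toK (E'.e x)) w = w := by
  rw [topop_Q h hx]
  constructor
  · intro h1
    refine ⟨?_, ?_⟩
    · rw [← h1, topop_PP hx]
    · rw [← h1, ← Lam_ten, topop_ee hx]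
  · rintro ⟨h1, h2⟩
    rw [h2, h1]

theorem SigTw.isSec_iff (h : SigTw V E' θ 𝔇 t tm) {u : En M → HF M ι} :
    𝔇.IsSec u ↔ VF V.toGeo t u := by
  constructor
  · rintro ⟨h1, h2⟩
    refine ⟨h1, fun x hx => ((topop_iff h hx _).mp (h2 x hx)).1, fun x hx => ?_⟩
    rw [h.te x hx]
    exact ((topop_iff h hx _).mp (h2 x hx)).2
  · intro hu
    refine ⟨hu.smooth, fun x hx => (topop_iff h hx _).mpr ⟨hu.tan x hx, ?_⟩⟩
    have h1 := hu.sec x hx
    rwa [h.te x hx] at h1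

theorem SigTw.op_eq (h : SigTw V E' θ 𝔇 t tm) {u : En M → HF M ι} (hu : VF V.toGeo t u)
    {x : En M} (hx : x ∈ V.carrier) :
    𝔇.op u x = dV V.toGeo t u x + dlV V.toGeo tm u x := by
  have hQ : 𝔇.Q x (u x) = u x := (h.isSec_iff.mpr hu).2 x hx
  have hB : 𝔇.B x (u x) = ∑ a, ((eps a - iota a : HF M ι →L[ℂ] HF M ι) (ten (toK (E'.A a x)) (u x)) +
      (eps a + iota a : HF M ι →L[ℂ] HF M ι) (ten (toK (θ a x)) (u x))) := by
    rw [h.B_eq x hx]
    have h1 : ((∑ a, cl a * cf (E'.A a x) + ∑ a, (eps a + iota a) * cf (θ a x)) * 𝔇.Q x) (u x) =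
        (∑ a, cl a * cf (E'.A a x) + ∑ a, (eps a + iota a) * cf (θ a x) :
          HF M ι →L[ℂ] HF M ι) (𝔇.Q x (u x)) := rfl
    rw [h1, hQ, _root_.add_apply, _root_.sum_apply, _root_.sum_apply, ← Finset.sum_add_distrib]
    refine Finset.sum_congr rfl fun a _ => ?_
    rw [cf_eq, cf_eq]
    rfl
  unfold Dirac.op dV dlV covV
  rw [hB, ← sub_eq_add_neg, ← Finset.sum_add_distrib, ← Finset.sum_sub_distrib]
  refine Finset.sum_congr rfl fun a _ => ?_
  rw [h.te x hx, h.tme x hx, h.tb x hx, h.tmb x hx, toK_add, toK_sub, ten_add, ten_sub,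
    h.sig.c_eq a, topop_Q h hx]
  have h2 : (cl a : HF M ι →L[ℂ] HF M ι) = eps a - iota a := rfl
  have h3 : (bv a : En M) = ee a := rfl
  rw [h2, h3]
  simp only [_root_.add_apply, _root_.sub_apply, map_add, map_sub]
  abel

omit [DecidableEq ι] in
private theorem topop_anti (a b : Fin M) :
    (cl a : HF M ι →L[ℂ] HF M ι) * (eps b + iota b) = -((eps b + iota b) * cl a) := by
  ext1 u
  have h2 : (cl a : HF M ι →L[ℂ] HF M ι) = eps a - iota a := rfl
  rw [h2]
  change (eps a - iota a : HF M ι →L[ℂ] HF M ι) ((eps b + iota b : HF M ι →L[ℂ] HF M ι) u) =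
    -((eps b + iota b : HF M ι →L[ℂ] HF M ι) ((eps a - iota a : HF M ι →L[ℂ] HF M ι) u))
  simp only [_root_.add_apply, _root_.sub_apply, map_add, map_sub]
  rw [iota_eps a b, iota_eps b a, eps_eps a b, iota_iota a b]
  by_cases hab : a = b
  · subst hab
    rw [if_pos rfl]
    abel
  · rw [if_neg hab, if_neg (Ne.symm hab)]
    abel

omit [DecidableEq ι] in
private theorem topop_list (b : Fin M) (L : List (Fin M)) :
    (L.map fun a => (cl a : HF M ι →L[ℂ] HF M ι)).prod * (eps b + iota b) =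
      ((-1 : ℂ) ^ L.length) • ((eps b + iota b) * (L.map fun a => (cl a : HF M ι →L[ℂ] HF M ι)).prod) := by
  induction L with
  | nil => simp
  | cons a L ih =>
    rw [List.map_cons, List.prod_cons, mul_assoc, ih, List.length_cons, pow_succ, mul_smul_comm,
      ← mul_assoc, topop_anti, neg_mul, smul_neg, mul_assoc, mul_neg, mul_one, neg_smul]

theorem clI_comm {w : FA M} {j : ℕ} (hj : Even j) (hw : w.IsDeg j) (b : Fin M) :
    (clI w : HF M ι →L[ℂ] HF M ι) * (eps b + iota b) = (eps b + iota b) * clI w := by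
  unfold clI
  rw [Finset.sum_mul, Finset.mul_sum]
  refine Finset.sum_congr rfl fun I _ => ?_
  rw [smul_mul_assoc, mul_smul_comm]
  by_cases hI : I.card = j
  · rw [topop_list b, Finset.length_sort, hI, hj.neg_one_pow, one_smul]
  · rw [hw I hI, zero_smul, zero_smul]

private theorem topop_deg {m : ℕ} (L : List (En m)) :
    ((L.map fun v => of1 v).prod : FA m).IsDeg L.length := by
  induction L with
  | nil => exact isDeg_one
  | cons a L ih =>
    rw [List.map_cons, List.prod_cons, List.length_cons, add_comm]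
    exact isDeg_mul (isDeg_of1 a) ih

theorem SigTw.Ga_deg (h : SigTw V E' θ 𝔇 t tm) {u : En M → HF M ι} (hu : VF V.toGeo t u)
    {x : En M} (hx : x ∈ V.carrier) {k : ℕ} (hk : k ≤ 14) :
    dg k (𝔇.Γ x (u x)) = 𝔇.Γ x (dg (14 - k) (u x)) := by
  obtain ⟨A, hA, hA'⟩ := su_iso V.toGeo hx
  have hadj : ContinuousLinearMap.adjoint (V.P x) = V.P x := V.toGeo.P_adj hx
  have hPP : ∀ v, V.P x (V.P x v) = V.P x v := fun v => V.P_idem x hx v
  have hXc : ∀ (w : HF M ι) (v : En M),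
      (Lam (V.P x) w = w ∧ ten (toK (E'.e x)) w = w) →
      (Lam (V.P x) (epsv (V.P x v) w + iotav (V.P x v) w) =
        epsv (V.P x v) w + iotav (V.P x v) w ∧
        ten (toK (E'.e x)) (epsv (V.P x v) w + iotav (V.P x v) w) =
          epsv (V.P x v) w + iotav (V.P x v) w) := by
    rintro w v ⟨h1, h2⟩
    refine ⟨?_, ?_⟩
    · have h3 := iotav_Lam (V.P x) (V.P x v) w
      rw [hadj, hPP, h1] at h3
      rw [map_add, Lam_epsv, hPP, h1, ← h3]
    · rw [map_add, ten_epsv, ten_iotav, h2]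
  have hcc : ∀ v : En M, (∑ a, ((V.P x v a : ℝ) : ℂ) • 𝔇.c a : HF M ι →L[ℂ] HF M ι) =
      epsv (V.P x v) - iotav (V.P x v) := by
    intro v
    unfold epsv iotav
    rw [← Finset.sum_sub_distrib]
    refine Finset.sum_congr rfl fun a _ => ?_
    rw [h.sig.c_eq a, ← smul_sub]
    rfl
  have hΓQ : ∀ w : HF M ι, 𝔇.Q x w = w → 𝔇.Q x (𝔇.Γ x w) = 𝔇.Γ x w := by
    intro w hw
    have h1 := congrArg (fun L : HF M ι →L[ℂ] HF M ι => L w) (𝔇.Γ_Q x hx)
    have h2 : 𝔇.Γ x (𝔇.Q x w) = 𝔇.Q x (𝔇.Γ x w) := h1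
    rw [← h2, hw]
  obtain ⟨vv, hv1, hv2, hv3⟩ := V.vol_spec x hx
  have hdeg : (V.vol x).IsDeg 14 := by
    rw [hv3]
    have h1 := topop_deg (List.ofFn vv)
    rw [List.map_ofFn, List.length_ofFn] at h1
    exact h1
  have hcl : ∀ (v : En M) (w : HF M ι), clI (V.vol x) (epsv v w + iotav v w) =
      epsv v (clI (V.vol x) w) + iotav v (clI (V.vol x) w) := by
    intro v w
    rw [epsv_apply, iotav_apply, epsv_apply, iotav_apply, ← Finset.sum_add_distrib,
      ← Finset.sum_add_distrib, map_sum]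
    refine Finset.sum_congr rfl fun b _ => ?_
    rw [← smul_add, ← smul_add, map_smul]
    congr 1
    exact congrArg (fun L : HF M ι →L[ℂ] HF M ι => L w)
      (clI_comm (ι := ι) (by decide : Even 14) hdeg b)
  have hΓ : ∀ w : HF M ι, 𝔇.Q x w = w →
      𝔇.Γ x w = (Complex.I ^ (14 / 2)) • clI (V.vol x) (ten (toK (diagonal E'.s)) w) := by
    intro w hw
    have h1 := congrArg (fun L : HF M ι →L[ℂ] HF M ι => L w) (h.sig.Γ_eq x hx)
    have h2 : 𝔇.Γ x (𝔇.Q x w) =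
        (Complex.I ^ (14 / 2)) • clI (V.vol x) (cf (diagonal E'.s) (𝔇.Q x w)) := h1
    rw [hw, cf_eq] at h2
    exact h2
  refine deg_reversal (n := 14) hA hA' (G := (𝔇.Γ x : HF M ι →ₗ[ℂ] HF M ι))
    (X := fun w => Lam (V.P x) w = w ∧ ten (toK (E'.e x)) w = w) (fun w hw => hw.1) ?_ hXc ?_ ?_ ?_
    ⟨hu.tan x hx, ?_⟩ hk
  · rintro w j ⟨h1, h2⟩
    exact ⟨by rw [Lam_dg, h1], by rw [ten_dg, h2]⟩
  · intro w hw
    exact (topop_iff h hx _).mp (hΓQ w ((topop_iff h hx w).mpr hw))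
  · intro w v hw
    have hw' := (topop_iff h hx w).mpr hw
    have h1 := congrArg (fun L : HF M ι →L[ℂ] HF M ι => L w) (𝔇.Γ_c x hx v)
    rw [hcc] at h1
    have h2 : 𝔇.Γ x ((epsv (V.P x v) - iotav (V.P x v) : HF M ι →L[ℂ] HF M ι) (𝔇.Q x w)) =
        -((epsv (V.P x v) - iotav (V.P x v) : HF M ι →L[ℂ] HF M ι) (𝔇.Γ x (𝔇.Q x w))) := h1
    rw [hw'] at h2
    exact h2
  · intro w v hw
    have hw' := (topop_iff h hx w).mpr hw
    have hw2 := (topop_iff h hx _).mpr (hXc w v hw)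
    change 𝔇.Γ x _ = epsv (V.P x v) (𝔇.Γ x w) + iotav (V.P x v) (𝔇.Γ x w)
    rw [hΓ _ hw2, hΓ _ hw', map_add, ten_epsv, ten_iotav, hcl, map_smul, map_smul, ← smul_add]
  · have h1 := hu.sec x hx
    rwa [h.te x hx] at h1

theorem VF.dg_high {n' : ℕ} {V' : Geo n' M} {t' : Tw M ι} {u : En M → HF M ι} (hu : VF V' t' u)
    {x : En M} (hx : x ∈ V'.carrier) {k : ℕ} (hk : n' < k) : dg k (u x) = 0 := by
  obtain ⟨A, hA, _⟩ := su_iso V' hx
  exact dg_tan_zero hA (hu.tan x hx) hk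

end

end Pool.Agent.EXO
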