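import Pool.Agent.EXO.TopOp

/-!
# EXO / TopSgA: Clifford multiplication by vectors and by forms
-/

set_option autoImplicit false
set_option maxSynthPendingDepth 3

open Set MeasureTheory Matrix Filter Topology
open scoped ContDiff ENNReal ComplexConjugate

namespace Pool.Agent.EXO

section

variable {m : ℕ} {κ : Type*} [Fintype κ]

/-- Clifford multiplication by a vector. -/
noncomputable def clv (v : RE m) : HF m κ →L[ℂ] HF m κ := epsv v - iotav v

/-- The other Clifford multiplication. -/
noncomputable def hav (v : RE m) : HF m κ →L[ℂ] HF m κ := epsv v + iotav v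

theorem clv_apply (v : RE m) (u : HF m κ) : clv v u = epsv v u - iotav v u := rfl

theorem hav_apply (v : RE m) (u : HF m κ) : hav v u = epsv v u + iotav v u := rfl

theorem hav_ee (a : Fin m) : (hav (ee a) : HF m κ →L[ℂ] HF m κ) = eps a + iota a := by
  unfold hav
  rw [epsv_ee, iotav_ee]

theorem clv_add (v w : RE m) : (clv (v + w) : HF m κ →L[ℂ] HF m κ) = clv v + clv w := by
  unfold clv
  rw [epsv_add, iotav_add]
  abel

theorem clv_smul (r : ℝ) (v : RE m) : (clv (r • v) : HF m κ →L[ℂ] HF m κ) = (r : ℂ) • clv v := by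
  unfold clv
  rw [epsv_smul, iotav_smul, smul_sub]

theorem clv_zero : (clv (0 : RE m) : HF m κ →L[ℂ] HF m κ) = 0 := by
  unfold clv
  rw [epsv_zero, iotav_zero, sub_zero]

theorem clv_sum {α : Type*} (s : Finset α) (f : α → RE m) :
    (clv (∑ i ∈ s, f i) : HF m κ →L[ℂ] HF m κ) = ∑ i ∈ s, clv (f i) := by
  unfold clv
  rw [epsv_sum, iotav_sum, Finset.sum_sub_distrib]

theorem clv_clv (v w : RE m) : (clv v * clv w + clv w * clv v : HF m κ →L[ℂ] HF m κ) =
    (-2 * ((inner ℝ v w : ℝ) : ℂ)) • 1 := by
  ext1 u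
  change clv v (clv w u) + clv w (clv v u) = (-2 * ((inner ℝ v w : ℝ) : ℂ)) • u
  simp only [clv_apply, map_sub]
  rw [epsv_epsv v w u, iotav_iotav v w u, iotav_epsv v w u, iotav_epsv w v u,
    real_inner_comm v w]
  have h : (-2 * ((inner ℝ v w : ℝ) : ℂ)) • u =
      -(((inner ℝ v w : ℝ) : ℂ) • u) - ((inner ℝ v w : ℝ) : ℂ) • u := by
    rw [← neg_smul, ← sub_smul]
    congr 1
    ring
  rw [h]
  abel

theorem clv_sq (v : RE m) : (clv v * clv v : HF m κ →L[ℂ] HF m κ) =
    (-((‖v‖ ^ 2 : ℝ) : ℂ)) • 1 := by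
  have h := clv_clv (κ := κ) v v
  rw [← two_smul ℂ, real_inner_self_eq_norm_sq] at h
  have h2 : (-2 * ((‖v‖ ^ 2 : ℝ) : ℂ)) • (1 : HF m κ →L[ℂ] HF m κ) =
      (2 : ℂ) • ((-((‖v‖ ^ 2 : ℝ) : ℂ)) • 1) := by
    rw [smul_smul]
    congr 1
    ring
  rw [h2] at h
  exact smul_right_injective _ (by norm_num : (2 : ℂ) ≠ 0) h

theorem clv_hav (v w : RE m) : (clv v * hav w + hav w * clv v : HF m κ →L[ℂ] HF m κ) = 0 := by
  ext1 u
  change clv v (hav w u) + hav w (clv v u) = 0
  simp only [clv_apply, hav_apply, map_sub, map_add]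
  rw [epsv_epsv v w u, iotav_iotav v w u, iotav_epsv v w u, iotav_epsv w v u,
    real_inner_comm v w]
  abel

theorem adjoint_iotav (v : RE m) :
    ContinuousLinearMap.adjoint (iotav v : HF m κ →L[ℂ] HF m κ) = epsv v := by
  rw [← adjoint_epsv, ContinuousLinearMap.adjoint_adjoint]

theorem adjoint_clv (v : RE m) :
    ContinuousLinearMap.adjoint (clv v : HF m κ →L[ℂ] HF m κ) = -clv v := by
  unfold clv
  rw [map_sub, adjoint_epsv, adjoint_iotav, neg_sub]

theorem adjoint_hav (v : RE m) :
    ContinuousLinearMap.adjoint (hav v : HF m κ →L[ℂ] HF m κ) = hav v := by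
  unfold hav
  rw [map_add, adjoint_epsv, adjoint_iotav, add_comm]

variable {P : RE m →L[ℝ] RE m}

theorem Lam_clv (hs : ContinuousLinearMap.adjoint P = P) {v : RE m} (hv : P v = v) :
    (Lam P * clv v : HF m κ →L[ℂ] HF m κ) = clv v * Lam P := by
  ext1 u
  change Lam P (clv v u) = clv v (Lam P u)
  have h := iotav_Lam P v u
  rw [hs, hv] at h
  rw [clv_apply, clv_apply, map_sub, Lam_epsv, hv, h]

theorem Lam_hav (hs : ContinuousLinearMap.adjoint P = P) {v : RE m} (hv : P v = v) :
    (Lam P * hav v : HF m κ →L[ℂ] HF m κ) = hav v * Lam P := by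
  ext1 u
  change Lam P (hav v u) = hav v (Lam P u)
  have h := iotav_Lam P v u
  rw [hs, hv] at h
  rw [hav_apply, hav_apply, map_add, Lam_epsv, hv, h]

theorem Lam_clv_nor (hs : ContinuousLinearMap.adjoint P = P) {v : RE m} (hv : P v = 0) :
    (Lam P * clv v * Lam P : HF m κ →L[ℂ] HF m κ) = 0 := by
  ext1 u
  change Lam P (clv v (Lam P u)) = 0
  have h := iotav_Lam P v u
  rw [hs, hv, iotav_zero] at h
  have h2 : iotav v (Lam P u) = 0 := by rw [h]; exact map_zero _
  rw [clv_apply, h2, sub_zero, Lam_epsv, hv, epsv_zero]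
  rfl

theorem ten_clv (T : KE κ →L[ℂ] KE κ) (v : RE m) :
    (ten T * clv v : HF m κ →L[ℂ] HF m κ) = clv v * ten T := by
  ext1 u
  change ten T (clv v u) = clv v (ten T u)
  rw [clv_apply, clv_apply, map_sub, ten_epsv, ten_iotav]

theorem ten_hav (T : KE κ →L[ℂ] KE κ) (v : RE m) :
    (ten T * hav v : HF m κ →L[ℂ] HF m κ) = hav v * ten T := by
  ext1 u
  change ten T (hav v u) = hav v (ten T u)
  rw [hav_apply, hav_apply, map_add, ten_epsv, ten_iotav]

/-! ### Uniqueness -/

theorem hat_unique {X Y : HF m κ →L[ℂ] HF m κ}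
    (hX : ∀ b, X * (eps b + iota b) = (eps b + iota b) * X)
    (hY : ∀ b, Y * (eps b + iota b) = (eps b + iota b) * Y)
    (h0 : ∀ i, X (bas ∅ i) = Y (bas ∅ i)) : X = Y := by
  classical
  have key : ∀ (S : Finset (Fin m)) (i : κ), X (bas S i) = Y (bas S i) := by
    intro S i
    induction S using Finset.induction_on with
    | empty => exact h0 i
    | insert a S ha ih =>
      have e1 : (eps a + iota a : HF m κ →L[ℂ] HF m κ) (bas S i) =
          sg a S • bas (insert a S) i := by
        change eps a (bas S i) + iota a (bas S i) = _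
        rw [eps_bas, if_neg ha, iota_bas, if_neg ha, add_zero]
      have h1 : X ((eps a + iota a : HF m κ →L[ℂ] HF m κ) (bas S i)) =
          (eps a + iota a : HF m κ →L[ℂ] HF m κ) (X (bas S i)) :=
        congrArg (fun L : HF m κ →L[ℂ] HF m κ => L (bas S i)) (hX a)
      have h2 : Y ((eps a + iota a : HF m κ →L[ℂ] HF m κ) (bas S i)) =
          (eps a + iota a : HF m κ →L[ℂ] HF m κ) (Y (bas S i)) :=
        congrArg (fun L : HF m κ →L[ℂ] HF m κ => L (bas S i)) (hY a)
      rw [e1, map_smul] at h1 h2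
      have h3 : sg a S ≠ 0 := by unfold sg; simp
      refine smul_right_injective _ h3 ?_
      change sg a S • X (bas (insert a S) i) = sg a S • Y (bas (insert a S) i)
      rw [h1, h2, ih]
  ext1 u
  rw [sum_bas u]
  simp only [map_sum, map_smul, key]

end

section

variable {m : ℕ} {κ : Type} [Fintype κ]

theorem mul_app {H : Type*} [NormedAddCommGroup H] [InnerProductSpace ℂ H] (A B : H →L[ℂ] H)
    (u : H) : (A * B) u = A (B u) := rfl

theorem word_eps_vac (S : Finset (Fin m)) (i : κ) :
    word (fun a => (eps a : HF m κ →L[ℂ] HF m κ)) S (bas ∅ i) = bas S i := by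
  induction S using Finset.induction_on_min with
  | empty => rw [word_empty]; rfl
  | insert a S ha ih =>
    have haS : a ∉ S := fun h => lt_irrefl a (ha a h)
    rw [word_insert_min _ ha]
    change eps a (word (fun a => (eps a : HF m κ →L[ℂ] HF m κ)) S (bas ∅ i)) = _
    rw [ih, eps_bas, if_neg haS]
    have h1 : sg a S = 1 := by
      unfold sg
      rw [Finset.filter_false_of_mem fun b hb => not_lt.2 (ha b hb).le, Finset.card_empty,
        pow_zero]
    rw [h1, one_smul]

theorem word_cl_vac (S : Finset (Fin m)) (i : κ) :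
    word (fun a => (cl a : HF m κ →L[ℂ] HF m κ)) S (bas ∅ i) = bas S i := by
  induction S using Finset.induction_on_min with
  | empty => rw [word_empty]; rfl
  | insert a S ha ih =>
    have haS : a ∉ S := fun h => lt_irrefl a (ha a h)
    rw [word_insert_min _ ha]
    change cl a (word (fun a => (cl a : HF m κ →L[ℂ] HF m κ)) S (bas ∅ i)) = _
    rw [ih]
    change eps a (bas S i) - iota a (bas S i) = _
    rw [eps_bas, if_neg haS, iota_bas, if_neg haS, sub_zero]
    have h1 : sg a S = 1 := by
      unfold sg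
      rw [Finset.filter_false_of_mem fun b hb => not_lt.2 (ha b hb).le, Finset.card_empty,
        pow_zero]
    rw [h1, one_smul]

theorem clI_vac [DecidableEq κ] (w : FA m) (i : κ) :
    (clI w : HF m κ →L[ℂ] HF m κ) (bas ∅ i) = mulL w (bas ∅ i) := by
  have h1 : (clI w : HF m κ →L[ℂ] HF m κ) = ∑ S, w.co S • word (fun a => cl a) S := rfl
  rw [h1, mulL_eq_sum, _root_.sum_apply, _root_.sum_apply]
  refine Finset.sum_congr rfl fun S _ => ?_
  rw [_root_.smul_apply, _root_.smul_apply, word_cl_vac, word_eps_vac]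

/-- The product of the Clifford operators of pairwise orthogonal vectors on the vacuum. -/
theorem clv_list_vac (L : List (RE m)) (hL : L.Pairwise fun v w => inner ℝ v w = 0) (i : κ) :
    ((L.map fun v => (clv v : HF m κ →L[ℂ] HF m κ)).prod) (bas ∅ i) =
      ((L.map fun v => (epsv v : HF m κ →L[ℂ] HF m κ)).prod) (bas ∅ i) := by
  induction L with
  | nil => rfl
  | cons v L ih =>
    rw [List.pairwise_cons] at hL
    have h1 : ∀ L' : List (RE m), (∀ w ∈ L', inner ℝ v w = 0) →
        iotav v (((L'.map fun v => (epsv v : HF m κ →L[ℂ] HF m κ)).prod) (bas ∅ i)) = 0 := by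
      intro L'
      induction L' with
      | nil => intro _; exact iotav_vac v i
      | cons w L' ih' =>
        intro h
        rw [List.map_cons, List.prod_cons, mul_app, iotav_epsv,
          ih' fun w' hw' => h w' (List.mem_cons_of_mem _ hw'), map_zero, sub_zero,
          h w List.mem_cons_self, Complex.ofReal_zero, zero_smul]
    rw [List.map_cons, List.prod_cons, List.map_cons, List.prod_cons,
      mul_app, mul_app, ih hL.2, clv_apply,
      h1 L hL.1, sub_zero]

theorem hav_list_comm (L : List (RE m)) (b : Fin m) :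
    ((L.map fun v => (clv v : HF m κ →L[ℂ] HF m κ)).prod) * (eps b + iota b) =
      ((-1 : ℂ) ^ L.length) • ((eps b + iota b) *
        ((L.map fun v => (clv v : HF m κ →L[ℂ] HF m κ)).prod)) := by
  induction L with
  | nil => simp
  | cons v L ih =>
    have h1 : (clv v * (eps b + iota b) : HF m κ →L[ℂ] HF m κ) = -((eps b + iota b) * clv v) := by
      rw [← hav_ee]
      exact eq_neg_of_add_eq_zero_left (clv_hav v (ee b))
    rw [List.map_cons, List.prod_cons, mul_assoc, ih, List.length_cons, pow_succ, mul_smul_comm,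
      ← mul_assoc, h1, neg_mul, smul_neg, mul_assoc, mul_neg, mul_one, neg_smul]

theorem isDeg_list (L : List (En m)) : ((L.map fun v => of1 v).prod : FA m).IsDeg L.length := by
  induction L with
  | nil => exact isDeg_one
  | cons a L ih =>
    rw [List.map_cons, List.prod_cons, List.length_cons, add_comm]
    exact isDeg_mul (isDeg_of1 a) ih

/-- Clifford multiplication by the wedge product of pairwise orthogonal vectors. -/
theorem clI_list [DecidableEq κ] (L : List (En m)) (hL : L.Pairwise fun v w => inner ℝ v w = 0)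
    (he : Even L.length) : (clI ((L.map fun v => of1 v).prod) : HF m κ →L[ℂ] HF m κ) =
      (L.map fun v => (clv v : HF m κ →L[ℂ] HF m κ)).prod := by
  refine hat_unique (fun b => clI_comm he (isDeg_list L) b) (fun b => ?_) (fun i => ?_)
  · rw [hav_list_comm, he.neg_one_pow, one_smul]
  · rw [clI_vac, clv_list_vac L hL]
    have h1 : (mulL ((L.map fun v => of1 v).prod) : HF m κ →L[ℂ] HF m κ) =
        (L.map fun v => (epsv v : HF m κ →L[ℂ] HF m κ)).prod := by
      rw [← mulHom_apply, map_list_prod, List.map_map]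
      congr 1
      refine List.map_congr_left fun v _ => ?_
      exact mulL_of1 v
    rw [h1]

end

end Pool.Agent.EXO
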