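import Pool.Agent.EXO.TopSgA

/-!
# EXO / TopSgB: Clifford multiplication by the volume form
-/

set_option autoImplicit false
set_option maxSynthPendingDepth 3

open Set MeasureTheory Matrix Filter Topology
open scoped ContDiff ENNReal ComplexConjugate

namespace Pool.Agent.EXO

/-! ### The tangent frame -/

theorem tan_expand {n M : ℕ} (V : Geo n M) {x : En M} (hx : x ∈ V.carrier) {v : Fin n → En M}
    (hv : Orthonormal ℝ v) (hP : ∀ i, V.P x (v i) = v i) (w : En M) :
    V.P x w = ∑ i, (inner ℝ (v i) w : ℝ) • v i := by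
  obtain ⟨A, h1, h2⟩ := su_iso V hx
  have hAA : ∀ y, A (ContinuousLinearMap.adjoint A y) = V.P x y := fun y => by
    rw [← h1]; rfl
  have hb : Orthonormal ℝ fun i => ContinuousLinearMap.adjoint A (v i) := by
    rw [orthonormal_iff_ite]
    intro i j
    rw [ContinuousLinearMap.adjoint_inner_left, hAA, hP]
    exact (orthonormal_iff_ite.1 hv) i j
  have hc : Fintype.card (Fin n) = Module.finrank ℝ (En n) := by simp
  have hsp := hb.linearIndependent.span_eq_top_of_card_eq_finrank' hc
  let b := OrthonormalBasis.mk hb hsp.ge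
  have hbi : ∀ i, b i = ContinuousLinearMap.adjoint A (v i) := by
    intro i
    simp [b]
  have h3 := b.sum_repr' (ContinuousLinearMap.adjoint A w)
  have h4 := congrArg A h3
  rw [map_sum, hAA] at h4
  rw [← h4]
  refine Finset.sum_congr rfl fun i _ => ?_
  rw [map_smul, hbi, hAA, hP, ContinuousLinearMap.adjoint_inner_left, hAA]
  congr 1
  have h5 := V.P_sa x hx (v i) w
  rw [hP] at h5
  exact h5.symm

section

variable {m : ℕ} {κ : Type} [Fintype κ]

theorem clv_orth {v w : RE m} (h : inner ℝ v w = 0) :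
    (clv v * clv w : HF m κ →L[ℂ] HF m κ) = -(clv w * clv v) := by
  have h1 := clv_clv (κ := κ) v w
  rw [h, Complex.ofReal_zero, mul_zero, zero_smul] at h1
  exact eq_neg_of_add_eq_zero_left h1

theorem clv_prod_orth (v : RE m) (L : List (RE m)) (h : ∀ w ∈ L, inner ℝ v w = 0) :
    (clv v : HF m κ →L[ℂ] HF m κ) * (L.map fun v => (clv v : HF m κ →L[ℂ] HF m κ)).prod =
      ((-1 : ℂ) ^ L.length) • ((L.map fun v => (clv v : HF m κ →L[ℂ] HF m κ)).prod * clv v) := by
  induction L with
  | nil => simp
  | cons w L ih =>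
    rw [List.map_cons, List.prod_cons, ← mul_assoc, clv_orth (h w List.mem_cons_self), neg_mul,
      mul_assoc, ih fun w' hw' => h w' (List.mem_cons_of_mem _ hw'), List.length_cons, pow_succ,
      mul_smul_comm, mul_assoc, mul_neg, mul_one, neg_smul]

theorem clv_prod_mem (v : RE m) (L : List (RE m)) (hL : L.Pairwise fun v w => inner ℝ v w = 0)
    (h : v ∈ L) :
    (clv v : HF m κ →L[ℂ] HF m κ) * (L.map fun v => (clv v : HF m κ →L[ℂ] HF m κ)).prod =
      (-(-1 : ℂ) ^ L.length) •
        ((L.map fun v => (clv v : HF m κ →L[ℂ] HF m κ)).prod * clv v) := by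
  induction L with
  | nil => simp at h
  | cons w L ih =>
    rw [List.pairwise_cons] at hL
    rw [List.map_cons, List.prod_cons, List.length_cons, pow_succ, mul_neg, mul_one, neg_neg]
    rcases List.mem_cons.1 h with rfl | h
    · have h1 := clv_prod_orth (κ := κ) v L hL.1
      rw [mul_assoc (clv v), ← mul_smul_comm, ← h1]
    · have h2 : (inner ℝ v w : ℝ) = 0 := by
        rw [real_inner_comm]
        exact hL.1 v h
      rw [← mul_assoc, clv_orth h2, neg_mul, mul_assoc, ih hL.2 h, mul_smul_comm, mul_assoc,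
        neg_smul, neg_neg]

theorem adjoint_list (L : List (RE m)) (hL : L.Pairwise fun v w => inner ℝ v w = 0) :
    ContinuousLinearMap.adjoint ((L.map fun v => (clv v : HF m κ →L[ℂ] HF m κ)).prod) =
      ((-1 : ℂ) ^ (∑ i ∈ Finset.range (L.length + 1), i)) •
        (L.map fun v => (clv v : HF m κ →L[ℂ] HF m κ)).prod := by
  induction L with
  | nil =>
    simp only [List.map_nil, List.prod_nil, List.length_nil, zero_add, Finset.range_one,
      Finset.sum_singleton, pow_zero, one_smul]
    exact ContinuousLinearMap.star_eq_adjoint (1 : HF m κ →L[ℂ] HF m κ) ▸ star_one _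
  | cons w L ih =>
    rw [List.pairwise_cons] at hL
    have hmul : ∀ A B : HF m κ →L[ℂ] HF m κ, ContinuousLinearMap.adjoint (A * B) =
        ContinuousLinearMap.adjoint B * ContinuousLinearMap.adjoint A :=
      fun A B => ContinuousLinearMap.adjoint_comp A B
    rw [List.map_cons, List.prod_cons, hmul, ih hL.2, adjoint_clv, smul_mul_assoc, mul_neg,
      List.length_cons, Finset.sum_range_succ _ (L.length + 1), pow_add]
    have h1 := clv_prod_orth (κ := κ) w L hL.1
    rw [h1, smul_smul, smul_neg, ← neg_smul]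
    congr 1
    have h2 : ((-1 : ℂ) ^ L.length) * (-1) ^ L.length = 1 := by
      rw [← mul_pow]; simp
    rw [pow_succ, mul_assoc]
    linear_combination (-1 : ℂ) ^ (∑ i ∈ Finset.range (L.length + 1), i) * h2

theorem list_unit (L : List (RE m)) (h : ∀ v ∈ L, ‖v‖ = 1) :
    ContinuousLinearMap.adjoint ((L.map fun v => (clv v : HF m κ →L[ℂ] HF m κ)).prod) *
      (L.map fun v => (clv v : HF m κ →L[ℂ] HF m κ)).prod = 1 := by
  induction L with
  | nil =>
    simp only [List.map_nil, List.prod_nil, mul_one]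
    exact ContinuousLinearMap.star_eq_adjoint (1 : HF m κ →L[ℂ] HF m κ) ▸ star_one _
  | cons w L ih =>
    have hmul : ∀ A B : HF m κ →L[ℂ] HF m κ, ContinuousLinearMap.adjoint (A * B) =
        ContinuousLinearMap.adjoint B * ContinuousLinearMap.adjoint A :=
      fun A B => ContinuousLinearMap.adjoint_comp A B
    have h1 := ih fun v hv => h v (List.mem_cons_of_mem _ hv)
    have h2 : (clv w * clv w : HF m κ →L[ℂ] HF m κ) = -1 := by
      rw [clv_sq, h w List.mem_cons_self]
      simp
    rw [List.map_cons, List.prod_cons, hmul, adjoint_clv]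
    calc _ = ContinuousLinearMap.adjoint
          ((L.map fun v => (clv v : HF m κ →L[ℂ] HF m κ)).prod) * (-(clv w * clv w)) *
          (L.map fun v => (clv v : HF m κ →L[ℂ] HF m κ)).prod := by
          simp only [mul_neg, neg_mul, mul_assoc]
      _ = 1 := by rw [h2, neg_neg, mul_one, h1]

end

/-! ### The volume form -/

section

variable {M : ℕ} (V : OrGeo 14 M) {x : En M} {ι : Type} [Fintype ι] [DecidableEq ι]

/-- Clifford multiplication by the volume form is a product of Clifford operators. -/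
theorem om_list (hx : x ∈ V.carrier) : ∃ v : Fin 14 → En M, Orthonormal ℝ v ∧
    (∀ i, V.P x (v i) = v i) ∧ (V.vol x).IsDeg 14 ∧
    (clI (V.vol x) : HF M ι →L[ℂ] HF M ι) =
      ((List.ofFn v).map fun v => (clv v : HF M ι →L[ℂ] HF M ι)).prod := by
  obtain ⟨v, hv, hP, hvol⟩ := V.vol_spec x hx
  have h1 : V.vol x = ((List.ofFn v).map fun v => of1 v).prod := by
    rw [hvol, List.map_ofFn]
    rfl
  have hlen : (List.ofFn v).length = 14 := List.length_ofFn
  have hL : (List.ofFn v).Pairwise fun v w => inner ℝ v w = 0 := by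
    rw [List.pairwise_ofFn]
    intro i j hij
    exact hv.2 hij.ne
  refine ⟨v, hv, hP, ?_, ?_⟩
  · have h2 := isDeg_list (List.ofFn v)
    rwa [hlen, ← h1] at h2
  · rw [h1]
    exact clI_list _ hL (by rw [hlen]; decide)

theorem om_adj (hx : x ∈ V.carrier) : ContinuousLinearMap.adjoint
    (clI (V.vol x) : HF M ι →L[ℂ] HF M ι) = -clI (V.vol x) := by
  obtain ⟨v, hv, hP, -, h⟩ := om_list V (ι := ι) hx
  have hL : (List.ofFn v).Pairwise fun v w => inner ℝ v w = 0 := by
    rw [List.pairwise_ofFn]
    intro i j hij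
    exact hv.2 hij.ne
  rw [h, adjoint_list _ hL, List.length_ofFn]
  have h2 : ((-1 : ℂ) ^ (∑ i ∈ Finset.range (14 + 1), i)) = -1 := by
    have : (∑ i ∈ Finset.range (14 + 1), i) = 105 := by decide
    rw [this]
    norm_num
  rw [h2, neg_smul, one_smul]

theorem om_sq (hx : x ∈ V.carrier) :
    (clI (V.vol x) : HF M ι →L[ℂ] HF M ι) * clI (V.vol x) = -1 := by
  have h1 := om_adj V (ι := ι) hx
  obtain ⟨v, hv, hP, -, h⟩ := om_list V (ι := ι) hx
  have h2 := list_unit (κ := ι) (List.ofFn v) (fun w hw => by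
    rw [List.mem_ofFn] at hw
    obtain ⟨i, rfl⟩ := hw
    exact hv.1 i)
  rw [← h, h1, neg_mul] at h2
  rw [← h2, neg_neg]

theorem om_clv (hx : x ∈ V.carrier) (w : En M) :
    (clI (V.vol x) : HF M ι →L[ℂ] HF M ι) * clv (V.P x w) =
      -(clv (V.P x w) * clI (V.vol x)) := by
  obtain ⟨v, hv, hP, -, h⟩ := om_list V (ι := ι) hx
  have hL : (List.ofFn v).Pairwise fun v w => inner ℝ v w = 0 := by
    rw [List.pairwise_ofFn]
    intro i j hij
    exact hv.2 hij.ne
  have h1 : ∀ i, (clv (v i) : HF M ι →L[ℂ] HF M ι) * clI (V.vol x) =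
      -(clI (V.vol x) * clv (v i)) := by
    intro i
    rw [h, clv_prod_mem _ _ hL (List.mem_ofFn.2 ⟨i, rfl⟩), List.length_ofFn]
    norm_num
  rw [tan_expand V.toGeo hx hv hP w, clv_sum, Finset.mul_sum, Finset.sum_mul,
    ← Finset.sum_neg_distrib]
  refine Finset.sum_congr rfl fun i _ => ?_
  rw [clv_smul, smul_mul_assoc, h1, mul_smul_comm, smul_neg, neg_neg]

/-- What commutes with the tangential Clifford operators commutes with that of the volume form. -/
theorem om_comm (hx : x ∈ V.carrier) {Z : HF M ι →L[ℂ] HF M ι}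
    (hZ : ∀ w, Z * clv (V.P x w) = clv (V.P x w) * Z) :
    Z * clI (V.vol x) = clI (V.vol x) * Z := by
  obtain ⟨v, hv, hP, -, h⟩ := om_list V (ι := ι) hx
  rw [h]
  have key : ∀ L : List (En M), (∀ w ∈ L, V.P x w = w) →
      Z * (L.map fun v => (clv v : HF M ι →L[ℂ] HF M ι)).prod =
        (L.map fun v => (clv v : HF M ι →L[ℂ] HF M ι)).prod * Z := by
    intro L
    induction L with
    | nil => intro _; simp
    | cons w L ih =>
      intro hw
      have h1 := hZ w
      rw [hw w List.mem_cons_self] at h1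
      rw [List.map_cons, List.prod_cons, ← mul_assoc, h1, mul_assoc,
        ih fun w' hw' => hw w' (List.mem_cons_of_mem _ hw'), mul_assoc]
  refine key _ fun w hw => ?_
  rw [List.mem_ofFn] at hw
  obtain ⟨i, rfl⟩ := hw
  exact hP i

theorem om_hav (hx : x ∈ V.carrier) (w : En M) :
    (clI (V.vol x) : HF M ι →L[ℂ] HF M ι) * hav w = hav w * clI (V.vol x) := by
  obtain ⟨v, hv, hP, hd, -⟩ := om_list V (ι := ι) hx
  have h1 : w = ∑ a, w a • (ee a : RE M) := epsv_sum_ee w
  have h2 : (hav w : HF M ι →L[ℂ] HF M ι) = ∑ a, ((w a : ℝ) : ℂ) • hav (ee a) := by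
    unfold hav
    conv_lhs => rw [h1]
    rw [epsv_sum, iotav_sum, ← Finset.sum_add_distrib]
    refine Finset.sum_congr rfl fun a _ => ?_
    rw [epsv_smul, iotav_smul, smul_add]
  rw [h2, Finset.mul_sum, Finset.sum_mul]
  refine Finset.sum_congr rfl fun a _ => ?_
  rw [mul_smul_comm, smul_mul_assoc, hav_ee]
  congr 1
  exact clI_comm (by decide) hd a

theorem om_Lam (hx : x ∈ V.carrier) :
    (clI (V.vol x) : HF M ι →L[ℂ] HF M ι) * Lam (V.P x) = Lam (V.P x) * clI (V.vol x) := by
  have hs : ContinuousLinearMap.adjoint (V.P x) = V.P x := V.toGeo.P_adj hx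
  exact (om_comm V hx fun w => Lam_clv hs (V.P_idem x hx w)).symm

end

/-! ### `clI` is linear -/

section

variable {m : ℕ} {κ : Type} [Fintype κ] [DecidableEq κ]

theorem ten_clI (T : KE κ →L[ℂ] KE κ) (w : FA m) :
    (ten T : HF m κ →L[ℂ] HF m κ) * clI w = clI w * ten T := by
  unfold clI
  rw [Finset.mul_sum, Finset.sum_mul]
  refine Finset.sum_congr rfl fun I _ => ?_
  rw [mul_smul_comm, smul_mul_assoc]
  congr 1
  generalize I.sort (· ≤ ·) = L
  induction L with
  | nil => simp
  | cons a L ih =>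
    have h1 : (cl a : HF m κ →L[ℂ] HF m κ) = clv (ee a) := by
      unfold clv
      rw [epsv_ee, iotav_ee]
      rfl
    rw [List.map_cons, List.prod_cons, ← mul_assoc, h1, ten_clv, mul_assoc, ih, mul_assoc]

/-- `clI` as a continuous linear map. -/
noncomputable def clIL : FA m →L[ℝ] (HF m κ →L[ℂ] HF m κ) :=
  LinearMap.toContinuousLinearMap
    { toFun := fun w => clI w
      map_add' := by
        intro u v
        unfold clI
        rw [← Finset.sum_add_distrib]
        refine Finset.sum_congr rfl fun I _ => ?_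
        rw [← add_smul]
        rfl
      map_smul' := by
        intro c u
        unfold clI
        rw [Finset.smul_sum]
        refine Finset.sum_congr rfl fun I _ => ?_
        rw [← smul_assoc]
        rfl }

theorem clIL_apply (w : FA m) : (clIL w : HF m κ →L[ℂ] HF m κ) = clI w := rfl

end

end Pool.Agent.EXO
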