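import Pool.Agent.EXO.TopSgB

/-!
# EXO / TopSgC: Clifford multiplication by the volume form is parallel
-/

set_option autoImplicit false
set_option maxSynthPendingDepth 3

open Set MeasureTheory Matrix Filter Topology
open scoped ContDiff ENNReal ComplexConjugate

namespace Pool.Agent.EXO

section

variable {m : ℕ} {κ : Type} [Fintype κ]

/-- `clv` as a continuous linear map. -/
noncomputable def clvL : RE m →L[ℝ] (HF m κ →L[ℂ] HF m κ) :=
  LinearMap.toContinuousLinearMap
    { toFun := fun w => clv w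
      map_add' := by
        intro u v
        exact clv_add u v
      map_smul' := by
        intro c u
        rw [clv_smul]
        ext1 z
        exact algebraMap_smul ℂ c (clv u z) }

theorem clvL_apply (w : RE m) : (clvL w : HF m κ →L[ℂ] HF m κ) = clv w := rfl

/-- The algebraic heart of the matter. -/
theorem par_alg {A : Type*} [Ring A] [Algebra ℂ A] {L Ω D Y : A}
    (hLΩ : Ω * L = L * Ω) (hΩ : Ω * Ω = -1) (hY : Y = L * D * L)
    (h1 : D * Ω + Ω * D = 0) (h2 : (Y * Ω) * Ω = Ω * (Y * Ω)) : Y = 0 := by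
  have h3 : Y * Ω + Ω * Y = 0 := by
    have h4 : L * (D * Ω + Ω * D) * L = Y * Ω + Ω * Y := by
      rw [mul_add, add_mul, hY]
      congr 1
      · calc L * (D * Ω) * L = L * D * (Ω * L) := by simp only [mul_assoc]
          _ = L * D * L * Ω := by rw [hLΩ]; simp only [mul_assoc]
      · calc L * (Ω * D) * L = (L * Ω) * D * L := by simp only [mul_assoc]
          _ = Ω * (L * D * L) := by rw [← hLΩ]; simp only [mul_assoc]
    rw [← h4, h1, mul_zero, zero_mul]
  have h5 : Ω * Y = -(Y * Ω) := eq_neg_of_add_eq_zero_right h3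
  rw [mul_assoc, hΩ, ← mul_assoc, h5, neg_mul, mul_assoc, hΩ, mul_neg, mul_one, neg_neg] at h2
  have h6 : (2 : ℂ) • Y = 0 := by
    rw [two_smul]
    nth_rw 1 [← h2]
    exact neg_add_cancel Y
  exact (smul_eq_zero.1 h6).resolve_left (by norm_num)

end

section

variable {M : ℕ} (V : OrGeo 14 M) {x : En M} {ι : Type} [Fintype ι] [DecidableEq ι]

theorem om_par (hx : x ∈ V.carrier) (v : En M) :
    (Lam (V.P x) : HF M ι →L[ℂ] HF M ι) * clI (fderiv ℝ V.vol x (V.P x v)) * Lam (V.P x) = 0 := by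
  have hs : ContinuousLinearMap.adjoint (V.P x) = V.P x := V.toGeo.P_adj hx
  have hvol : DifferentiableAt ℝ V.vol x := (V.smooth_vol.differentiable (by simp)) x
  have hP : DifferentiableAt ℝ V.P x := (V.smoothP.differentiable (by simp)) x
  obtain ⟨D, hD⟩ : ∃ D : HF M ι →L[ℂ] HF M ι, D = clI (fderiv ℝ V.vol x (V.P x v)) := ⟨_, rfl⟩
  obtain ⟨Ω, hΩ⟩ : ∃ Ω : HF M ι →L[ℂ] HF M ι, Ω = clI (V.vol x) := ⟨_, rfl⟩
  obtain ⟨L, hL⟩ : ∃ L : HF M ι →L[ℂ] HF M ι, L = Lam (V.P x) := ⟨_, rfl⟩
  have hΩd : HasFDerivAt (fun y => (clI (V.vol y) : HF M ι →L[ℂ] HF M ι))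
      ((clIL (κ := ι)).comp (fderiv ℝ V.vol x)) x :=
    (clIL (κ := ι)).hasFDerivAt.comp x hvol.hasFDerivAt
  have hPP : (V.P x).comp (V.P x) = V.P x := ContinuousLinearMap.ext (V.P_idem x hx)
  have hLL : L * L = L := by
    have e := Lam_comp (κ := ι) (V.P x) (V.P x)
    rw [hPP] at e
    rw [hL]
    exact e.symm
  -- the square
  have h1 : D * Ω + Ω * D = 0 := by
    have h2 : DifferentiableAt ℝ (fun y => (clI (V.vol y) : HF M ι →L[ℂ] HF M ι) *
        clI (V.vol y) + 1) x := (hΩd.differentiableAt.mul hΩd.differentiableAt).add_const _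
    have h3 := su_local V.toGeo hx h2 (Eventually.of_forall fun y hy => by
      rw [om_sq V hy, neg_add_cancel]) v
    have h4 : HasFDerivAt (fun y => (clI (V.vol y) : HF M ι →L[ℂ] HF M ι) *
        clI (V.vol y) + 1) _ x := (hΩd.mul' hΩd).add_const (1 : HF M ι →L[ℂ] HF M ι)
    rw [h4.fderiv] at h3
    rw [hD, hΩ]
    have h5 : clI (V.vol x) * clI (fderiv ℝ V.vol x (V.P x v)) +
        clI (fderiv ℝ V.vol x (V.P x v)) * clI (V.vol x) =
        (0 : HF M ι →L[ℂ] HF M ι) := h3
    rw [add_comm]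
    exact h5
  -- the commutation with tangent vectors
  have h2 : ∀ w, V.P x w = w → L * D * L * clv w = -(clv w * (L * D * L)) := by
    intro w hw
    have hPw : HasFDerivAt (fun y => (clv (V.P y w) : HF M ι →L[ℂ] HF M ι))
        ((clvL (κ := ι)).comp ((ContinuousLinearMap.apply ℝ (En M) w).comp (fderiv ℝ V.P x))) x :=
      (clvL (κ := ι)).hasFDerivAt.comp x
        ((ContinuousLinearMap.apply ℝ (En M) w).hasFDerivAt.comp x hP.hasFDerivAt)
    have h3 : DifferentiableAt ℝ (fun y => (clI (V.vol y) : HF M ι →L[ℂ] HF M ι) *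
        clv (V.P y w) + clv (V.P y w) * clI (V.vol y)) x :=
      (hΩd.differentiableAt.mul hPw.differentiableAt).add
        (hPw.differentiableAt.mul hΩd.differentiableAt)
    have h4 := su_local V.toGeo hx h3 (Eventually.of_forall fun y hy => by
      rw [om_clv V hy, neg_add_cancel]) v
    have h5 : HasFDerivAt (fun y => (clI (V.vol y) : HF M ι →L[ℂ] HF M ι) *
        clv (V.P y w) + clv (V.P y w) * clI (V.vol y)) _ x := (hΩd.mul' hPw).add (hPw.mul' hΩd)
    rw [h5.fderiv] at h4
    obtain ⟨ν, hν⟩ : ∃ ν : En M, ν = fderiv ℝ V.P x (V.P x v) w := ⟨_, rfl⟩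
    have h6 : (Ω * clv ν + D * clv w) + (clv w * D + clv ν * Ω) = 0 := by
      rw [hΩ, hD, hν]
      have : (clI (V.vol x) * clv (fderiv ℝ V.P x (V.P x v) w) +
          clI (fderiv ℝ V.vol x (V.P x v)) * clv (V.P x w)) +
          (clv (V.P x w) * clI (fderiv ℝ V.vol x (V.P x v)) +
            clv (fderiv ℝ V.P x (V.P x v) w) * clI (V.vol x)) =
          (0 : HF M ι →L[ℂ] HF M ι) := h4
      rwa [hw] at this
    have h7 : V.P x ν = 0 := by
      have hQ : HasFDerivAt (fun y => V.P y w)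
          ((ContinuousLinearMap.apply ℝ (En M) w).comp (fderiv ℝ V.P x)) x :=
        (ContinuousLinearMap.apply ℝ (En M) w).hasFDerivAt.comp x hP.hasFDerivAt
      have e1 : HasFDerivAt (fun y => V.P y (V.P y w) - V.P y w) _ x :=
        (hP.hasFDerivAt.clm_apply hQ).sub hQ
      have e2 := su_local V.toGeo hx e1.differentiableAt (Eventually.of_forall fun y hy => by
        rw [V.P_idem y hy, sub_self]) v
      rw [e1.fderiv] at e2
      have e3 : (V.P x (fderiv ℝ V.P x (V.P x v) w) + fderiv ℝ V.P x (V.P x v) (V.P x w)) -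
          fderiv ℝ V.P x (V.P x v) w = 0 := e2
      rw [hw, add_sub_cancel_right] at e3
      rw [hν]
      exact e3
    have h10 : L * clv ν * L = 0 := by rw [hL]; exact Lam_clv_nor hs h7
    have h11 : L * clv w = clv w * L := by rw [hL]; exact Lam_clv hs hw
    have h12 : Ω * L = L * Ω := by rw [hΩ, hL]; exact om_Lam V hx
    have h13 : L * ((Ω * clv ν + D * clv w) + (clv w * D + clv ν * Ω)) * L = 0 := by
      rw [h6, mul_zero, zero_mul]
    have h14 : L * ((Ω * clv ν + D * clv w) + (clv w * D + clv ν * Ω)) * L =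
        (L * Ω) * clv ν * L + L * D * (clv w * L) + ((L * clv w) * D * L + L * clv ν * (Ω * L)) := by
      noncomm_ring
    have e1 : L * Ω * clv ν * L = 0 := by
      rw [← h12]
      calc Ω * L * clv ν * L = Ω * (L * clv ν * L) := by simp only [mul_assoc]
        _ = 0 := by rw [h10, mul_zero]
    have e2 : L * clv ν * (Ω * L) = 0 := by rw [h12, ← mul_assoc, h10, zero_mul]
    have e3 : L * D * (clv w * L) = L * D * L * clv w := by rw [← h11, ← mul_assoc]
    have e4 : L * clv w * D * L = clv w * (L * D * L) := by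
      rw [h11]
      simp only [mul_assoc]
    rw [h14, e1, e2, e3, e4, zero_add, add_zero] at h13
    exact eq_neg_of_add_eq_zero_left h13
  have h8 : ∀ w, (L * D * L * Ω) * clv (V.P x w) = clv (V.P x w) * (L * D * L * Ω) := by
    intro w
    have e1 := om_clv V (ι := ι) hx w
    have e2 := h2 (V.P x w) (V.P_idem x hx w)
    rw [← hΩ] at e1
    rw [mul_assoc, e1, mul_neg, ← mul_assoc, e2, neg_mul, neg_neg, mul_assoc]
  have h9 := om_comm V hx h8
  rw [← hΩ] at h9
  rw [← hL, ← hD]
  refine par_alg ?_ ?_ rfl h1 h9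
  · rw [hΩ, hL]; exact om_Lam V hx
  · rw [hΩ]; exact om_sq V hx

end

end Pool.Agent.EXO
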