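import Pool.Agent.EXO.TopSgC

/-!
# EXO / TopSgD: the signature operator with a prescribed term of order zero
-/

set_option autoImplicit false
set_option maxSynthPendingDepth 3

open Set MeasureTheory Matrix Filter Topology
open scoped ContDiff ENNReal ComplexConjugate

namespace Pool.Agent.EXO

section

variable {m : ℕ} {ι : Type} [Fintype ι] [DecidableEq ι]

theorem kf_mul (S T : Matrix ι ι ℂ) :
    (cf (S * T) : HF m ι →L[ℂ] HF m ι) = cf S * cf T := by
  rw [cf_eq, cf_eq, cf_eq, toK_mul, ten_mul]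

theorem kf_neg (T : Matrix ι ι ℂ) : (cf (-T) : HF m ι →L[ℂ] HF m ι) = -cf T := by
  rw [cf_eq, cf_eq, toK_neg, ten_neg]

theorem kf_one : (cf (1 : Matrix ι ι ℂ) : HF m ι →L[ℂ] HF m ι) = 1 := by
  rw [cf_eq, toK_one, ten_one]

theorem kf_adj (T : Matrix ι ι ℂ) : ContinuousLinearMap.adjoint
    (cf T : HF m ι →L[ℂ] HF m ι) = cf Tᴴ := by
  rw [cf_eq, cf_eq, adjoint_ten, toK_conj]

theorem kf_clv (T : Matrix ι ι ℂ) (v : RE m) :
    (cf T * clv v : HF m ι →L[ℂ] HF m ι) = clv v * cf T := by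
  rw [cf_eq, ten_clv]

theorem kf_hav (T : Matrix ι ι ℂ) (v : RE m) :
    (cf T * hav v : HF m ι →L[ℂ] HF m ι) = hav v * cf T := by
  rw [cf_eq, ten_hav]

theorem kf_clI (T : Matrix ι ι ℂ) (w : FA m) :
    (cf T * clI w : HF m ι →L[ℂ] HF m ι) = clI w * cf T := by
  rw [cf_eq, ten_clI]

theorem kf_Lam (T : Matrix ι ι ℂ) (P : RE m →L[ℝ] RE m) :
    (cf T * Lam P : HF m ι →L[ℂ] HF m ι) = Lam P * cf T := by
  rw [cf_eq]
  ext1 u
  exact (Lam_ten P (toK T) u).symm

/-- `cf` as a real continuous linear map. -/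
noncomputable def kfL : Matrix ι ι ℂ →L[ℝ] (HF m ι →L[ℂ] HF m ι) :=
  ((tenL m ι ι).restrictScalars ℝ).comp (toKL ι)

theorem kfL_apply (T : Matrix ι ι ℂ) : (kfL T : HF m ι →L[ℂ] HF m ι) = cf T := by
  rw [cf_eq]
  rfl

omit [DecidableEq ι] in
theorem cl_clv (a : Fin m) : (cl a : HF m ι →L[ℂ] HF m ι) = clv (ee a) := by
  unfold clv
  rw [epsv_ee, iotav_ee]
  rfl

omit [DecidableEq ι] in
theorem clv_coord (w : RE m) : (∑ a, ((w a : ℝ) : ℂ) • (cl a : HF m ι →L[ℂ] HF m ι)) = clv w := by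
  conv_rhs => rw [epsv_sum_ee w]
  rw [clv_sum]
  refine Finset.sum_congr rfl fun a _ => ?_
  rw [clv_smul, cl_clv]

omit [DecidableEq ι] in
theorem hav_coord (w : RE m) :
    (∑ a, ((w a : ℝ) : ℂ) • (eps a + iota a : HF m ι →L[ℂ] HF m ι)) = hav w := by
  unfold hav
  conv_rhs => rw [epsv_sum_ee w]
  rw [epsv_sum, iotav_sum, ← Finset.sum_add_distrib]
  refine Finset.sum_congr rfl fun a _ => ?_
  rw [epsv_smul, iotav_smul, smul_add, epsv_ee, iotav_ee]

theorem kf_sum_smul {α : Type*} (s : Finset α) (r : α → ℂ) (f : α → Matrix ι ι ℂ) :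
    (cf (∑ c ∈ s, r c • f c) : HF m ι →L[ℂ] HF m ι) = ∑ c ∈ s, r c • cf (f c) := by
  rw [← kfL_apply, map_sum]
  refine Finset.sum_congr rfl fun c _ => ?_
  rw [kfL_apply, cf_eq, cf_eq, toK_smul, ten_smul]

/-- Tangential coefficients. -/
theorem tan_sum {P : RE m →L[ℝ] RE m} (hs : ContinuousLinearMap.adjoint P = P)
    {X : RE m → (HF m ι →L[ℂ] HF m ι)} (hX : ∀ w, ∑ a, ((w a : ℝ) : ℂ) • X (ee a) = X w)
    {T : Fin m → Matrix ι ι ℂ}
    (hT : ∀ a, ∑ c, ((P (bv a) c : ℝ) : ℂ) • T c = T a) :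
    ∑ a, X (ee a) * cf (T a) = ∑ c, X (P (ee c)) * cf (T c) := by
  have h1 : ∀ a, X (ee a) * cf (T a) = ∑ c, ((P (ee c) a : ℝ) : ℂ) • (X (ee a) * cf (T c)) := by
    intro a
    conv_lhs => rw [← hT a, kf_sum_smul, Finset.mul_sum]
    refine Finset.sum_congr rfl fun c _ => ?_
    have h2 : P (bv a) c = P (ee c) a := symm_coord hs a c
    rw [mul_smul_comm, h2]
  rw [Finset.sum_congr rfl fun a _ => h1 a, Finset.sum_comm]
  refine Finset.sum_congr rfl fun c _ => ?_
  rw [← hX (P (ee c)), Finset.sum_mul]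
  refine Finset.sum_congr rfl fun a _ => ?_
  rw [smul_mul_assoc]

end

section

variable {M : ℕ} (V : OrGeo 14 M) {ι : Type} [Fintype ι] [DecidableEq ι] (E : Bd V.toGeo ι)
  (θ : Fin M → En M → Matrix ι ι ℂ)

/-- The projection. -/
noncomputable def sgQ (x : En M) : HF M ι →L[ℂ] HF M ι := Lam (V.P x) * cf (E.e x)

/-- The grading. -/
noncomputable def sgG (x : En M) : HF M ι →L[ℂ] HF M ι :=
  (Complex.I ^ 7) • (clI (V.vol x) * cf (diagonal E.s))

/-- The term of order zero. -/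
noncomputable def sgX (x : En M) : HF M ι →L[ℂ] HF M ι :=
  ∑ a, cl a * cf (E.A a x) + ∑ a, (eps a + iota a) * cf (θ a x)

variable {E θ}

/-- The properties of the odd part. -/
def ThOk (E : Bd V.toGeo ι) (θ : Fin M → En M → Matrix ι ι ℂ) : Prop :=
  ∀ a, ∀ x ∈ V.carrier, (θ a x)ᴴ = θ a x ∧ E.e x * θ a x * E.e x = θ a x ∧
      diagonal E.s * θ a x = -(θ a x * diagonal E.s) ∧
      ∑ c, ((V.P x (bv a) c : ℝ) : ℂ) • θ c x = θ a x

variable (h1 : ThOk V E θ) {x : En M} (hx : x ∈ V.carrier)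

include h1 hx

theorem sgX_eq : sgX V E θ x = ∑ c, clv (V.P x (ee c)) * cf (E.A c x) +
    ∑ c, hav (V.P x (ee c)) * cf (θ c x) := by
  have hs : ContinuousLinearMap.adjoint (V.P x) = V.P x := V.toGeo.P_adj hx
  unfold sgX
  congr 1
  · have := tan_sum hs (X := fun w => (clv w : HF M ι →L[ℂ] HF M ι))
      (fun w => by
        rw [← clv_coord w]
        exact Finset.sum_congr rfl fun a _ => by rw [cl_clv]) (fun a => E.A_tan a x hx)
    rw [← this]
    exact Finset.sum_congr rfl fun a _ => by rw [cl_clv]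
  · have := tan_sum hs (X := fun w => (hav w : HF M ι →L[ℂ] HF M ι))
      (fun w => by
        rw [← hav_coord w]
        exact Finset.sum_congr rfl fun a _ => by rw [hav_ee]) (fun a => (h1 a x hx).2.2.2)
    rw [← this]
    exact Finset.sum_congr rfl fun a _ => by rw [hav_ee]

theorem sgX_Q : sgQ V E x * sgX V E θ x = sgX V E θ x * sgQ V E x := by
  have hs : ContinuousLinearMap.adjoint (V.P x) = V.P x := V.toGeo.P_adj hx
  rw [sgX_eq V h1 hx]
  unfold sgQ
  rw [mul_add, add_mul, Finset.mul_sum, Finset.mul_sum, Finset.sum_mul, Finset.sum_mul]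
  congr 1
  · refine Finset.sum_congr rfl fun c _ => ?_
    have e1 : (Lam (V.P x) * clv (V.P x (ee c)) : HF M ι →L[ℂ] HF M ι) =
        clv (V.P x (ee c)) * Lam (V.P x) := Lam_clv hs (V.P_idem x hx _)
    have e2 : E.e x * E.A c x = E.A c x * E.e x := by
      have := E.e_A c x hx
      have h3 : E.e x * E.A c x = E.A c x := by
        rw [← this, ← Matrix.mul_assoc, ← Matrix.mul_assoc, E.e_idem x hx]
      have h4 : E.A c x * E.e x = E.A c x := by
        rw [← this, Matrix.mul_assoc, E.e_idem x hx]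
      rw [h3, h4]
    calc Lam (V.P x) * cf (E.e x) * (clv (V.P x (ee c)) * cf (E.A c x))
        = Lam (V.P x) * (cf (E.e x) * clv (V.P x (ee c))) * cf (E.A c x) := by
          simp only [mul_assoc]
      _ = (Lam (V.P x) * clv (V.P x (ee c))) * (cf (E.e x) * cf (E.A c x)) := by
          rw [kf_clv]; simp only [mul_assoc]
      _ = clv (V.P x (ee c)) * (Lam (V.P x) * cf (E.A c x)) * cf (E.e x) := by
          rw [e1, ← kf_mul, e2, kf_mul]; simp only [mul_assoc]
      _ = _ := by rw [← kf_Lam]; simp only [mul_assoc]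
  · refine Finset.sum_congr rfl fun c _ => ?_
    have e1 : (Lam (V.P x) * hav (V.P x (ee c)) : HF M ι →L[ℂ] HF M ι) =
        hav (V.P x (ee c)) * Lam (V.P x) := Lam_hav hs (V.P_idem x hx _)
    have e2 : E.e x * θ c x = θ c x * E.e x := by
      have := (h1 c x hx).2.1
      have h3 : E.e x * θ c x = θ c x := by
        rw [← this, ← Matrix.mul_assoc, ← Matrix.mul_assoc, E.e_idem x hx]
      have h4 : θ c x * E.e x = θ c x := by
        rw [← this, Matrix.mul_assoc, E.e_idem x hx]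
      rw [h3, h4]
    calc Lam (V.P x) * cf (E.e x) * (hav (V.P x (ee c)) * cf (θ c x))
        = Lam (V.P x) * (cf (E.e x) * hav (V.P x (ee c))) * cf (θ c x) := by
          simp only [mul_assoc]
      _ = (Lam (V.P x) * hav (V.P x (ee c))) * (cf (E.e x) * cf (θ c x)) := by
          rw [kf_hav]; simp only [mul_assoc]
      _ = hav (V.P x (ee c)) * (Lam (V.P x) * cf (θ c x)) * cf (E.e x) := by
          rw [e1, ← kf_mul, e2, kf_mul]; simp only [mul_assoc]
      _ = _ := by rw [← kf_Lam]; simp only [mul_assoc]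

theorem sgX_sa : ContinuousLinearMap.adjoint (sgX V E θ x) = sgX V E θ x := by
  have hmul : ∀ A B : HF M ι →L[ℂ] HF M ι, ContinuousLinearMap.adjoint (A * B) =
      ContinuousLinearMap.adjoint B * ContinuousLinearMap.adjoint A :=
    fun A B => ContinuousLinearMap.adjoint_comp A B
  rw [sgX_eq V h1 hx, map_add, map_sum, map_sum]
  congr 1
  · refine Finset.sum_congr rfl fun c _ => ?_
    rw [hmul, kf_adj, E.A_skew c x hx, adjoint_clv, kf_neg, neg_mul_neg, kf_clv]
  · refine Finset.sum_congr rfl fun c _ => ?_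
    rw [hmul, kf_adj, (h1 c x hx).1, adjoint_hav, kf_hav]

theorem sgG_X : sgG V E x * sgX V E θ x = -(sgX V E θ x * sgG V E x) := by
  rw [sgX_eq V h1 hx]
  unfold sgG
  rw [smul_mul_assoc, mul_smul_comm, ← smul_neg]
  congr 1
  rw [mul_add, add_mul, neg_add, Finset.mul_sum, Finset.mul_sum, Finset.sum_mul, Finset.sum_mul,
    ← Finset.sum_neg_distrib, ← Finset.sum_neg_distrib]
  congr 1
  · refine Finset.sum_congr rfl fun c _ => ?_
    have e1 := om_clv V (ι := ι) hx (ee c)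
    calc clI (V.vol x) * cf (diagonal E.s) * (clv (V.P x (ee c)) * cf (E.A c x))
        = clI (V.vol x) * (cf (diagonal E.s) * clv (V.P x (ee c))) * cf (E.A c x) := by
          simp only [mul_assoc]
      _ = (clI (V.vol x) * clv (V.P x (ee c))) * (cf (diagonal E.s) * cf (E.A c x)) := by
          rw [kf_clv]; simp only [mul_assoc]
      _ = -(clv (V.P x (ee c)) * (clI (V.vol x) * cf (E.A c x)) * cf (diagonal E.s)) := by
          rw [e1, ← kf_mul, ← E.A_s c x hx, kf_mul]; simp only [mul_assoc, neg_mul]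
      _ = _ := by rw [← kf_clI]; simp only [mul_assoc]
  · refine Finset.sum_congr rfl fun c _ => ?_
    have e1 := om_hav V (ι := ι) hx (V.P x (ee c))
    calc clI (V.vol x) * cf (diagonal E.s) * (hav (V.P x (ee c)) * cf (θ c x))
        = clI (V.vol x) * (cf (diagonal E.s) * hav (V.P x (ee c))) * cf (θ c x) := by
          simp only [mul_assoc]
      _ = (clI (V.vol x) * hav (V.P x (ee c))) * (cf (diagonal E.s) * cf (θ c x)) := by
          rw [kf_hav]; simp only [mul_assoc]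
      _ = -(hav (V.P x (ee c)) * (clI (V.vol x) * cf (θ c x)) * cf (diagonal E.s)) := by
          rw [e1, ← kf_mul, (h1 c x hx).2.2.1, kf_neg, kf_mul]; simp only [mul_assoc, mul_neg]
      _ = _ := by rw [← kf_clI]; simp only [mul_assoc]

omit h1

theorem sgQ_idem : sgQ V E x * sgQ V E x = sgQ V E x := by
  have hPP : (V.P x).comp (V.P x) = V.P x := ContinuousLinearMap.ext (V.P_idem x hx)
  have e : (Lam (V.P x) * Lam (V.P x) : HF M ι →L[ℂ] HF M ι) = Lam (V.P x) := by
    have e := Lam_comp (κ := ι) (V.P x) (V.P x)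
    rw [hPP] at e
    exact e.symm
  unfold sgQ
  calc Lam (V.P x) * cf (E.e x) * (Lam (V.P x) * cf (E.e x))
      = Lam (V.P x) * (cf (E.e x) * Lam (V.P x)) * cf (E.e x) := by simp only [mul_assoc]
    _ = (Lam (V.P x) * Lam (V.P x)) * (cf (E.e x) * cf (E.e x)) := by
      rw [kf_Lam]; simp only [mul_assoc]
    _ = _ := by rw [e, ← kf_mul, E.e_idem x hx]

theorem sgQ_sa : ContinuousLinearMap.adjoint (sgQ V E x) = sgQ V E x := by
  have hmul : ∀ A B : HF M ι →L[ℂ] HF M ι, ContinuousLinearMap.adjoint (A * B) =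
      ContinuousLinearMap.adjoint B * ContinuousLinearMap.adjoint A :=
    fun A B => ContinuousLinearMap.adjoint_comp A B
  unfold sgQ
  rw [hmul, kf_adj, E.e_herm x hx, adjoint_Lam, V.toGeo.P_adj hx, kf_Lam]

theorem sgQ_clv (v : En M) : clv (V.P x v) * sgQ V E x = sgQ V E x * clv (V.P x v) := by
  have hs : ContinuousLinearMap.adjoint (V.P x) = V.P x := V.toGeo.P_adj hx
  have e1 : (Lam (V.P x) * clv (V.P x v) : HF M ι →L[ℂ] HF M ι) =
      clv (V.P x v) * Lam (V.P x) := Lam_clv hs (V.P_idem x hx _)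
  unfold sgQ
  rw [← mul_assoc, ← e1, mul_assoc, mul_assoc, kf_clv]

theorem sgQ_nor {v : En M} (hv : V.P x v = 0) : sgQ V E x * clv v * sgQ V E x = 0 := by
  have hs : ContinuousLinearMap.adjoint (V.P x) = V.P x := V.toGeo.P_adj hx
  have e1 : (Lam (V.P x) * clv v * Lam (V.P x) : HF M ι →L[ℂ] HF M ι) = 0 := Lam_clv_nor hs hv
  unfold sgQ
  calc Lam (V.P x) * cf (E.e x) * clv v * (Lam (V.P x) * cf (E.e x))
      = Lam (V.P x) * (cf (E.e x) * clv v) * (Lam (V.P x) * cf (E.e x)) := by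
        simp only [mul_assoc]
    _ = Lam (V.P x) * clv v * (cf (E.e x) * Lam (V.P x)) * cf (E.e x) := by
        rw [kf_clv]; simp only [mul_assoc]
    _ = (Lam (V.P x) * clv v * Lam (V.P x)) * (cf (E.e x) * cf (E.e x)) := by
        rw [kf_Lam]; simp only [mul_assoc]
    _ = 0 := by rw [e1, zero_mul]

theorem sgG_sa : ContinuousLinearMap.adjoint (sgG V E x) = sgG V E x := by
  have hmul : ∀ A B : HF M ι →L[ℂ] HF M ι, ContinuousLinearMap.adjoint (A * B) =
      ContinuousLinearMap.adjoint B * ContinuousLinearMap.adjoint A :=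
    fun A B => ContinuousLinearMap.adjoint_comp A B
  have hsH : (diagonal E.s : Matrix ι ι ℂ)ᴴ = diagonal E.s := by
    rw [diagonal_conjTranspose]
    congr 1
    funext i
    rcases E.s_sq i with h | h <;> simp [h]
  unfold sgG
  rw [map_smulₛₗ, hmul, kf_adj, hsH, om_adj V hx, mul_neg, smul_neg, kf_clI, ← neg_smul]
  congr 1
  have hI : Complex.I ^ 7 = -Complex.I := by
    rw [show (7 : ℕ) = 4 + 3 from rfl, pow_add, Complex.I_pow_four, one_mul, Complex.I_pow_three]
  rw [hI, map_neg, Complex.conj_I, neg_neg]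

theorem sgG_Q : sgG V E x * sgQ V E x = sgQ V E x * sgG V E x := by
  have e1 := om_Lam V (ι := ι) hx
  unfold sgG sgQ
  rw [smul_mul_assoc, mul_smul_comm]
  congr 1
  calc clI (V.vol x) * cf (diagonal E.s) * (Lam (V.P x) * cf (E.e x))
      = clI (V.vol x) * (cf (diagonal E.s) * Lam (V.P x)) * cf (E.e x) := by
        simp only [mul_assoc]
    _ = (clI (V.vol x) * Lam (V.P x)) * (cf (diagonal E.s) * cf (E.e x)) := by
        rw [kf_Lam]; simp only [mul_assoc]
    _ = Lam (V.P x) * (clI (V.vol x) * cf (E.e x)) * cf (diagonal E.s) := by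
        rw [e1, ← kf_mul, ← E.e_s x hx, kf_mul]; simp only [mul_assoc]
    _ = _ := by rw [← kf_clI]; simp only [mul_assoc]

theorem sgG_sq : sgG V E x * sgG V E x = 1 := by
  have hss : (diagonal E.s : Matrix ι ι ℂ) * diagonal E.s = 1 := by
    rw [diagonal_mul_diagonal, ← diagonal_one]
    congr 1
    funext i
    rcases E.s_sq i with h | h <;> simp [h]
  have hI : Complex.I ^ 7 = -Complex.I := by
    rw [show (7 : ℕ) = 4 + 3 from rfl, pow_add, Complex.I_pow_four, one_mul, Complex.I_pow_three]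
  unfold sgG
  rw [smul_mul_smul_comm]
  have e1 : (clI (V.vol x) * cf (diagonal E.s) * (clI (V.vol x) * cf (diagonal E.s)) :
      HF M ι →L[ℂ] HF M ι) = -1 := by
    calc (clI (V.vol x) * cf (diagonal E.s) * (clI (V.vol x) * cf (diagonal E.s)) :
          HF M ι →L[ℂ] HF M ι)
        = clI (V.vol x) * (cf (diagonal E.s) * clI (V.vol x)) * cf (diagonal E.s) := by
          simp only [mul_assoc]
      _ = (clI (V.vol x) * clI (V.vol x)) * (cf (diagonal E.s) * cf (diagonal E.s)) := by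
          rw [kf_clI]; simp only [mul_assoc]
      _ = -1 := by rw [om_sq V hx, ← kf_mul, hss, kf_one, mul_one]
  rw [e1, hI, neg_mul_neg, Complex.I_mul_I, neg_smul, one_smul, neg_neg]

theorem sgG_clv (v : En M) : sgG V E x * clv (V.P x v) = -(clv (V.P x v) * sgG V E x) := by
  unfold sgG
  rw [smul_mul_assoc, mul_smul_comm, ← smul_neg]
  congr 1
  rw [mul_assoc, kf_clv, ← mul_assoc, om_clv V hx, neg_mul, mul_assoc]

theorem sgG_par (v : En M) : sgQ V E x * fderiv ℝ (sgG V E) x (V.P x v) * sgQ V E x = 0 := by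
  have hvol : DifferentiableAt ℝ V.vol x := (V.smooth_vol.differentiable (by simp)) x
  have hΩd : HasFDerivAt (fun y => (clI (V.vol y) : HF M ι →L[ℂ] HF M ι))
      ((clIL (κ := ι)).comp (fderiv ℝ V.vol x)) x :=
    (clIL (κ := ι)).hasFDerivAt.comp x hvol.hasFDerivAt
  have h2 : HasFDerivAt (sgG V E) _ x :=
    (hΩd.mul_const' (cf (diagonal E.s))).const_smul (Complex.I ^ 7)
  have h3 : fderiv ℝ (sgG V E) x (V.P x v) =
      (Complex.I ^ 7) • (clI (fderiv ℝ V.vol x (V.P x v)) * cf (diagonal E.s)) := by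
    rw [h2.fderiv]
    rfl
  rw [h3, mul_smul_comm, smul_mul_assoc]
  have h4 := om_par V (ι := ι) hx v
  have e1 : sgQ V E x * (clI (fderiv ℝ V.vol x (V.P x v)) * cf (diagonal E.s)) * sgQ V E x = 0 := by
    unfold sgQ
    calc Lam (V.P x) * cf (E.e x) * (clI (fderiv ℝ V.vol x (V.P x v)) * cf (diagonal E.s)) *
          (Lam (V.P x) * cf (E.e x))
        = Lam (V.P x) * (cf (E.e x) * clI (fderiv ℝ V.vol x (V.P x v))) *
          (cf (diagonal E.s) * Lam (V.P x)) * cf (E.e x) := by simp only [mul_assoc]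
      _ = Lam (V.P x) * clI (fderiv ℝ V.vol x (V.P x v)) * (cf (E.e x) * Lam (V.P x)) *
          (cf (diagonal E.s) * cf (E.e x)) := by
          rw [kf_clI, kf_Lam (diagonal E.s)]; simp only [mul_assoc]
      _ = (Lam (V.P x) * clI (fderiv ℝ V.vol x (V.P x v)) * Lam (V.P x)) *
          (cf (E.e x) * (cf (diagonal E.s) * cf (E.e x))) := by
          rw [kf_Lam]; simp only [mul_assoc]
      _ = 0 := by rw [h4, zero_mul]
  rw [e1, smul_zero]

end

theorem smooth_sgQ {M : ℕ} (V : OrGeo 14 M) {ι : Type} [Fintype ι] [DecidableEq ι]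
    (E : Bd V.toGeo ι) : ContDiff ℝ ∞ (sgQ V E) := by
  have h1 : ContDiff ℝ ∞ fun x => (Lam (V.P x) : HF M ι →L[ℂ] HF M ι) :=
    contDiff_Lam.comp V.smoothP
  have h2 : ContDiff ℝ ∞ fun x => (cf (E.e x) : HF M ι →L[ℂ] HF M ι) := by
    have : ContDiff ℝ ∞ fun x => (kfL (E.e x) : HF M ι →L[ℂ] HF M ι) :=
      (kfL (m := M) (ι := ι)).contDiff.comp E.smooth_e
    simpa only [kfL_apply] using this
  exact h1.mul h2

theorem smooth_sgG {M : ℕ} (V : OrGeo 14 M) {ι : Type} [Fintype ι] [DecidableEq ι]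
    (E : Bd V.toGeo ι) : ContDiff ℝ ∞ (sgG V E) := by
  have h1 : ContDiff ℝ ∞ fun x => (clI (V.vol x) : HF M ι →L[ℂ] HF M ι) :=
    (clIL (κ := ι)).contDiff.comp V.smooth_vol
  exact (h1.mul contDiff_const).const_smul (Complex.I ^ 7)

theorem smooth_sgX {M : ℕ} (V : OrGeo 14 M) {ι : Type} [Fintype ι] [DecidableEq ι]
    (E : Bd V.toGeo ι) {θ : Fin M → En M → Matrix ι ι ℂ} (h0 : ∀ a, ContDiff ℝ ∞ (θ a)) :
    ContDiff ℝ ∞ (sgX V E θ) := by
  have hk : ∀ {f : En M → Matrix ι ι ℂ}, ContDiff ℝ ∞ f →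
      ContDiff ℝ ∞ fun x => (cf (f x) : HF M ι →L[ℂ] HF M ι) := by
    intro f hf
    have : ContDiff ℝ ∞ fun x => (kfL (f x) : HF M ι →L[ℂ] HF M ι) :=
      (kfL (m := M) (ι := ι)).contDiff.comp hf
    simpa only [kfL_apply] using this
  exact (ContDiff.sum fun a _ => contDiff_const.mul (hk (E.smooth_A a))).add
    (ContDiff.sum fun a _ => contDiff_const.mul (hk (h0 a)))

/-- The signature operator with a prescribed term of order zero. -/
theorem il_sig {M : ℕ} (V : OrGeo 14 M) {ι : Type} [Fintype ι] [DecidableEq ι]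
    (E : Bd V.toGeo ι) (θ : Fin M → En M → Matrix ι ι ℂ) (h0 : ∀ a, ContDiff ℝ ∞ (θ a))
    (h1 : ∀ a, ∀ x ∈ V.carrier, (θ a x)ᴴ = θ a x ∧ E.e x * θ a x * E.e x = θ a x ∧
      diagonal E.s * θ a x = -(θ a x * diagonal E.s) ∧
      ∑ c, ((V.P x (bv a) c : ℝ) : ℂ) • θ c x = θ a x) :
    ∃ 𝔇 : Dirac V.toGeo (HF M ι), IsSig V E 𝔇 ∧ ∀ x ∈ V.carrier, 𝔇.B x =
      (∑ a, cl a * cf (E.A a x) + ∑ a, (eps a + iota a) * cf (θ a x)) * 𝔇.Q x := by
  let 𝔇 : Dirac V.toGeo (HF M ι) :=
    { c := cl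
      Q := sgQ V E
      Γ := sgG V E
      B := fun x => sgX V E θ x * sgQ V E x
      smoothQ := smooth_sgQ V E
      smoothΓ := smooth_sgG V E
      smoothB := (smooth_sgX V E h0).mul (smooth_sgQ V E)
      c_anti := fun a b => by
        rw [cl_clv, cl_clv, clv_clv]
        by_cases hab : a = b
        · subst hab
          rw [if_pos rfl]
          congr 1
          have : (inner ℝ (ee a : RE M) (ee a) : ℝ) = 1 := by simp [ee]
          rw [this]
          simp
        · rw [if_neg hab]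
          have : (inner ℝ (ee a : RE M) (ee b) : ℝ) = 0 := by
            simp [ee, EuclideanSpace.inner_single_left, hab]
          rw [this]
          simp
      c_skew := fun a => by rw [cl_clv, adjoint_clv]
      Q_idem := fun x hx => sgQ_idem V hx
      Q_sa := fun x hx => sgQ_sa V hx
      Q_tan := fun x hx v => by rw [clv_coord]; exact sgQ_clv V hx v
      Q_nor := fun x hx v hv => by rw [clv_coord]; exact sgQ_nor V hx hv
      Γ_sa := fun x hx => sgG_sa V hx
      Γ_Q := fun x hx => sgG_Q V hx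
      Γ_sq := fun x hx => by rw [sgG_sq V hx, one_mul]
      Γ_c := fun x hx v => by rw [clv_coord, sgG_clv V hx, neg_mul]
      Γ_par := fun x hx v => sgG_par V hx v
      B_Q := fun x hx => by
        rw [← mul_assoc, sgX_Q V h1 hx, mul_assoc, mul_assoc, sgQ_idem V hx, sgQ_idem V hx]
      B_sa := fun x hx => by
        have hmul : ∀ A B : HF M ι →L[ℂ] HF M ι, ContinuousLinearMap.adjoint (A * B) =
            ContinuousLinearMap.adjoint B * ContinuousLinearMap.adjoint A :=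
          fun A B => ContinuousLinearMap.adjoint_comp A B
        rw [hmul, sgQ_sa V hx, sgX_sa V h1 hx, sgX_Q V h1 hx]
      B_odd := fun x hx => by
        rw [← mul_assoc, sgG_X V h1 hx, neg_mul, mul_assoc, sgG_Q V hx, mul_assoc] }
  refine ⟨𝔇, ⟨fun a => rfl, fun x hx => rfl, fun x hx => ?_, θ, h0, h1, fun x hx => rfl⟩,
    fun x hx => rfl⟩
  change (Complex.I ^ 7 • (clI (V.vol x) * cf (diagonal E.s))) * sgQ V E x =
    (Complex.I ^ 7) • (clI (V.vol x) * cf (diagonal E.s) * sgQ V E x)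
  rw [smul_mul_assoc]

end Pool.Agent.EXO
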