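import Pool.Agent.EXO.TopGa
import Pool.Agent.EXO.TopDd
import Pool.Agent.EXO.TopDeg
import Pool.Agent.EXO.FmP4

/-!
# EXO / TopSrc: closed forms of degree 7 are exact on the source piece

Proof.  `D = dom gS C.O 20000` (open, closed under the segments to `x_i = 0` for `i < 8`, since these do not
increase `gS` and keep `p3`), `R = R15 C.rho`, `tS = (tV).pull S.Ψ`.
`w = pull S.Ψ u` is a section of `tS` over `D` (`sec_pull`), `tS.d w = 0` (`VPiece.pull_dV`, `hd`), `dg 7 w = w` (`Lam_dg`), and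
`w z = pull R w z` on `D` (`VPiece.pull_R`).
`w' z = ten (gaS z) (w z)` is a closed section of `tC` over `D` (`Tw.d_gauge` with `gaS_e`, `gaS_par`), of degree
`7`; the coefficients `tC` are active in the directions `i < 8` (`tC_act`).  By the Poincare lemma P4 of
FmP4 there is a section `β'` of `tC` over `D` with `w' = tC.d β' + pull π w'`, `π z = j15 0 0 (p3 z)`.
`pull π w' = 0` on `D`: with `F = R ∘ π` (`F z = j15 0 0 (C.rho (p3 z))`, smooth on `D`) we have
`w' (π z) = ten (gaS (π z)) (w (π z)) = ten (gaS (π z)) (pull R w (π z))`, so `pull π w' z =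
ten (gaS (π z)) (pull F w z)` (`Lam_ten`, `pull_pull`).  And `pull F w z = Lam (adjoint (fderiv F z)) (w (F z))` where
`w (F z)` has degree `7` and `fderiv F z` factors through `ℝ⁶`: `fderiv F z v = j15L (A (adjoint A (fderiv (C.rho ∘ p3) z v)))`
with `A : ℝ⁶ → ℝ⁷`, `A A^* = N.P` at `C.rho (p3 z)` (`su_iso`, `su_tan`), `j15L` the linear map `w ↦ j15 0 0 w`.  So
`Lam (adjoint (fderiv F z)) = Lam B ∘ Lam B'` through `HF 6 ι`, where `dg 7 = 0` (`Lam_dg`, `dg_eq_zero`), or use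
`Lam_rank` / `Lam_eq_zero_of_rank` of FmFAd.
Put `β z = dg 6 (ten (gaS' z) (β' z))`: a section of `tS` over `D` (`gaS'_e`), and
`tS.d β = dg 7 (tS.d (ten gaS' β')) = dg 7 (ten gaS' (tC.d β')) = dg 7 (ten gaS' w') = dg 7 (ten (gaS' * gaS) w)
= dg 7 (ten (tS.e) w) = w` (`Tw.dg_d`, `Tw.d_gauge` with `gaS'_par`, `gaS_inv`).
-/

set_option autoImplicit false
set_option maxSynthPendingDepth 3

open Set MeasureTheory Matrix Filter Topology
open scoped ContDiff ENNReal ComplexConjugate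

namespace Pool.Agent.EXO

/-- The directions of the source coordinate. -/
private def TopSrc_L : List (Fin 15) := (List.finRange 15).filter fun i => i.1 < 8

private theorem TopSrc_mem {i : Fin 15} : i ∈ TopSrc_L ↔ i.1 < 8 := by
  simp [TopSrc_L]

private theorem TopSrc_gS {z z' : En 15} (h : ∀ a, (z' a) ^ 2 ≤ (z a) ^ 2) : gS z' ≤ gS z := by
  unfold gS
  rw [EuclideanSpace.real_norm_sq_eq, EuclideanSpace.real_norm_sq_eq,
    EuclideanSpace.real_norm_sq_eq, EuclideanSpace.real_norm_sq_eq]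
  exact add_le_add (Finset.sum_le_sum fun a _ => h _) (Finset.sum_le_sum fun a _ => h _)

private theorem TopSrc_seg (C : Set (En 7)) {i : Fin 15} (hi : i.1 < 8) :
    SegC (dom gS C 20000) i 0 := by
  intro x hx s hs
  constructor
  · refine lt_of_le_of_lt (TopSrc_gS fun a => ?_) hx.1
    by_cases ha : a = i
    · subst ha
      rw [sgp_self]
      have h1 : s ^ 2 ≤ 1 := by nlinarith [hs.1, hs.2]
      nlinarith [sq_nonneg (x a)]
    · rw [sgp_ne ha]
  · have h1 : p3 (sgp i 0 s x) = p3 x := by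
      ext a
      change (sgp i 0 s x) ⟨8 + a, by omega⟩ = x ⟨8 + a, by omega⟩
      rw [sgp_ne]
      intro h
      have := congrArg Fin.val h
      simp at this
      omega
    rw [h1]
    exact hx.2

/-- The linear map `w ↦ (0, 0, w)`. -/
private noncomputable def TopSrc_j : En 7 →L[ℝ] En 15 :=
  LinearMap.toContinuousLinearMap
    { toFun := fun w => j15 0 0 w
      map_add' := fun p q => by
        ext i
        simp only [j15, PiLp.add_apply]
        split_ifs <;> simp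
      map_smul' := fun c q => by
        ext i
        simp only [j15, PiLp.smul_apply, RingHom.id_apply]
        split_ifs <;> simp }

private theorem TopSrc_j_apply (w : En 7) : TopSrc_j w = j15 0 0 w := rfl

private theorem TopSrc_mvL (z : En 15) :
    mvL (fun _ => (0 : ℝ)) TopSrc_L z = j15 0 0 (p3 z) := by
  ext a
  rw [mvL_apply]
  by_cases ha : a.1 < 8
  · rw [if_pos (TopSrc_mem.2 ha)]
    change _ = (if h : a.1 < 4 then (0 : En 4) ⟨a, h⟩ else
      if h' : a.1 < 8 then (0 : En 4) ⟨a - 4, by omega⟩ else (p3 z) ⟨a - 8, by omega⟩)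
    by_cases h4 : a.1 < 4
    · rw [dif_pos h4]
      rfl
    · rw [dif_neg h4, dif_pos ha]
      rfl
  · rw [if_neg fun h => ha (TopSrc_mem.1 h)]
    change _ = (if h : a.1 < 4 then (0 : En 4) ⟨a, h⟩ else
      if h' : a.1 < 8 then (0 : En 4) ⟨a - 4, by omega⟩ else (p3 z) ⟨a - 8, by omega⟩)
    rw [dif_neg (by omega), dif_neg ha]
    change z a = z ⟨8 + (a.1 - 8), by omega⟩
    have h1 : a = ⟨8 + (a.1 - 8), by omega⟩ := Fin.ext (by simp; omega)
    exact congrArg (fun b => z b) h1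

private theorem TopSrc_gen {m k r j : ℕ} {κ : Type*} [Fintype κ] {F : RE m → RE k} {x : RE m}
    {u : RE k → HF k κ} (A : RE m →L[ℝ] RE r) (B : RE r →L[ℝ] RE k)
    (h : fderiv ℝ F x = B.comp A) (hj : r < j) (hu : dg j (u (F x)) = u (F x)) :
    pull F u x = 0 := by
  unfold pull
  refine Lam_rank _ (ContinuousLinearMap.adjoint B) (ContinuousLinearMap.adjoint A) ?_ hj hu
  rw [h, ContinuousLinearMap.adjoint_comp]

private theorem TopSrc_ten {m k : ℕ} {κ : Type*} [Fintype κ] (F : RE m → RE k) (x : RE m)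
    (u : RE k → HF k κ) (g : RE k → (KE κ →L[ℂ] KE κ)) :
    pull F (fun z => ten (g z) (u z)) x = ten (g (F x)) (pull F u x) := by
  unfold pull
  rw [Lam_ten]

private theorem TopSrc_congr {m k : ℕ} {κ : Type*} [Fintype κ] (F : RE m → RE k) (x : RE m)
    {u v : RE k → HF k κ} (h : u (F x) = v (F x)) : pull F u x = pull F v x := by
  unfold pull
  rw [h]

private theorem TopSrc_gen2 {n a m k j : ℕ} {κ : Type*} [Fintype κ] (V : Geo n a)
    (J : En a →L[ℝ] En k) {G : En m → En a} {z : En m} (hGd : DifferentiableAt ℝ G z)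
    (hGN : ∀ᶠ y in 𝓝 z, G y ∈ V.carrier) {u : RE k → HF k κ} (hj : n < j)
    (hu : dg j (u (J (G z))) = u (J (G z))) : pull (fun y => J (G y)) u z = 0 := by
  obtain ⟨A, hA, -⟩ := su_iso V hGN.self_of_nhds
  have h1 : fderiv ℝ (fun y => J (G y)) z = J.comp (fderiv ℝ G z) :=
    (J.hasFDerivAt.comp z hGd.hasFDerivAt).fderiv
  have h3 : fderiv ℝ G z = A.comp ((ContinuousLinearMap.adjoint A).comp (fderiv ℝ G z)) := by
    rw [← ContinuousLinearMap.comp_assoc, hA]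
    ext1 v
    exact (su_tan V hGd hGN v).symm
  have h4 : fderiv ℝ (fun y => J (G y)) z =
      (J.comp A).comp ((ContinuousLinearMap.adjoint A).comp (fderiv ℝ G z)) := by
    rw [h1, ContinuousLinearMap.comp_assoc, ← h3]
  exact TopSrc_gen _ _ h4 hj hu

private theorem TopSrc_gen3 {m : ℕ} {κ : Type*} [Fintype κ] {π R P : RE m → RE m} {z : RE m}
    {w : RE m → HF m κ} (g : RE m → (KE κ →L[ℂ] KE κ)) (hπd : DifferentiableAt ℝ π z)
    (hRd : DifferentiableAt ℝ R (π z)) (h1 : pull R w (π z) = w (π z)) (hP : R ∘ π = P)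
    (h0 : pull P w z = 0) : pull π (fun z => ten (g z) (w z)) z = 0 := by
  rw [TopSrc_ten, TopSrc_congr π z h1.symm, pull_pull hπd hRd, hP, h0, map_zero]

variable {N : OrGeo 6 7} {C : Collar N.carrier} {l δ : ℝ} (𝒱 : VData N C l δ)
  {ι : Type} [Fintype ι] [DecidableEq ι] (E : FlatBd N.toGeo ι)
  {T : En 7 → En 7 → Matrix ι ι ℂ}

private theorem TopSrc_open (C : Collar N.carrier) : IsOpen (dom gS C.O 20000) :=
  isOpen_dom gOk_S C.openO 20000

/-- The pull back under the projection to `N` of a form of degree seven is zero. -/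
private theorem TopSrc_rank (C : Collar N.carrier) {κ : Type} [Fintype κ] {z : En 15}
    (hz : z ∈ dom gS C.O 20000) {u : En 15 → HF 15 κ}
    (hu : dg 7 (u (j15 0 0 (C.rho (p3 z)))) = u (j15 0 0 (C.rho (p3 z)))) :
    pull (fun y => j15 0 0 (C.rho (p3 y))) u z = 0 := by
  set G : En 15 → En 7 := fun y => C.rho (p3 y) with hG
  have hGd : DifferentiableAt ℝ G z := by
    have h1 : ContDiffAt ℝ ∞ C.rho (p3 z) := C.smooth_rho.contDiffAt (C.openO.mem_nhds hz.2)
    exact (h1.comp z contDiff_p3.contDiffAt).differentiableAt (by simp)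
  have hGN : ∀ᶠ y in 𝓝 z, G y ∈ N.carrier := by
    filter_upwards [(TopSrc_open C).mem_nhds hz] with y hy
    exact C.rho_mem hy.2
  exact TopSrc_gen2 N.toGeo TopSrc_j hGd hGN (by norm_num) hu

private theorem TopSrc_pull (C : Collar N.carrier) {κ : Type} [Fintype κ]
    {w : En 15 → HF 15 κ} (hR : ∀ z ∈ dom gS C.O 20000, pull (R15 C.rho) w z = w z)
    (h7 : ∀ z ∈ dom gS C.O 20000, dg 7 (w z) = w z) (g : En 15 → (KE κ →L[ℂ] KE κ)) {z : En 15}
    (hz : z ∈ dom gS C.O 20000) :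
    pull (mvL (fun _ => (0 : ℝ)) TopSrc_L) (fun z => ten (g z) (w z)) z = 0 := by
  have hπe : ∀ y, mvL (fun _ => (0 : ℝ)) TopSrc_L y = j15 0 0 (p3 y) := TopSrc_mvL
  have hπs : ContDiff ℝ ∞ (mvL (fun _ => (0 : ℝ)) TopSrc_L) := contDiff_mvL _ _
  have hπg : gS (mvL (fun _ => (0 : ℝ)) TopSrc_L z) ≤ gS z := by
    refine TopSrc_gS (z := z) fun a => ?_
    rw [mvL_apply]
    split_ifs
    · nlinarith [sq_nonneg (z a)]
    · exact le_rfl
  generalize mvL (fun _ => (0 : ℝ)) TopSrc_L = π at hπe hπs hπg ⊢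
  have hπd : DifferentiableAt ℝ π z := hπs.contDiffAt.differentiableAt (by simp)
  have hπD : π z ∈ dom gS C.O 20000 := by
    refine ⟨lt_of_le_of_lt hπg hz.1, ?_⟩
    rw [hπe, p3_j15]
    exact hz.2
  have hRd : DifferentiableAt ℝ (R15 C.rho) (π z) :=
    (contDiffAt_R gOk_S hπD).differentiableAt (by simp)
  have h1 : pull (R15 C.rho) w (π z) = w (π z) := hR _ hπD
  have h2 : (R15 C.rho) ∘ π = fun y => j15 0 0 (C.rho (p3 y)) := by
    funext y
    simp only [Function.comp_apply, R15, hπe, p1_j15, p2_j15, p3_j15]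
  have h4 : j15 0 0 (C.rho (p3 z)) ∈ dom gS C.O 20000 := by
    have h5 : R15 C.rho (π z) ∈ dom gS N.carrier 20000 := R_mem gOk_S hπD
    have h6 := dom_sub C h5
    have h7' : R15 C.rho (π z) = j15 0 0 (C.rho (p3 z)) := congrFun h2 z
    rw [h7'] at h6
    exact h6
  exact TopSrc_gen3 g hπd hRd h1 h2 (TopSrc_rank C hz (h7 _ h4))

theorem src_exact (hT : E.IsPT δ T) {u : En 𝒱.M → HF 𝒱.M ι}
    (hu : VF 𝒱.V.toGeo (tV 𝒱 E) u) (h7 : ∀ y ∈ 𝒱.V.carrier, dg 7 (u y) = u y)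
    (hd : ∀ y ∈ 𝒱.V.carrier, dV 𝒱.V.toGeo (tV 𝒱 E) u y = 0) :
    ∃ β : En 15 → HF 15 ι, ((tV 𝒱 E).pull 𝒱.S.Ψ).Sec (dom gS C.O 20000) β ∧
      (∀ z, dg 6 (β z) = β z) ∧
      ∀ z ∈ dom gS C.O 20000, ((tV 𝒱 E).pull 𝒱.S.Ψ).d β z = pull 𝒱.S.Ψ u z := by
  set D : Set (En 15) := dom gS C.O 20000 with hD
  have hDo : IsOpen D := TopSrc_open C
  set tS : Tw 15 ι := (tV 𝒱 E).pull 𝒱.S.Ψ with htS
  set w : En 15 → HF 15 ι := pull 𝒱.S.Ψ u with hw
  have hwS : tS.Sec D w := 𝒱.S.sec_pull gOk_S hu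
  have hwd : ∀ z ∈ D, tS.d w z = 0 := by
    intro z hz
    have h1 := 𝒱.S.pull_dV gOk_S hu hz
    rw [← h1]
    have h2 := hd (𝒱.S.Ψ z) (𝒱.S.maps z hz).1
    unfold pull
    rw [h2, map_zero]
  have hw7 : ∀ z ∈ D, dg 7 (w z) = w z := by
    intro z hz
    change dg 7 (Lam _ (u (𝒱.S.Ψ z))) = Lam _ (u (𝒱.S.Ψ z))
    rw [← Lam_dg, h7 _ (𝒱.S.maps z hz).1]
  have hg : Tw.Gauge tS (tC C E) D (gaS 𝒱 T) :=
    { smooth := fun z hz => (gaS_smooth 𝒱 E hT hz).1.contDiffWithinAt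
      left := fun z hz => (gaS_e 𝒱 E hT hz).1
      right := fun z hz => (gaS_e 𝒱 E hT hz).2
      con := fun z hz v => gaS_par 𝒱 E hT hz v }
  have hg' : Tw.Gauge (tC C E) tS D (gaS' 𝒱 T) :=
    { smooth := fun z hz => (gaS_smooth 𝒱 E hT hz).2.contDiffWithinAt
      left := fun z hz => (gaS'_e 𝒱 E hT hz).1
      right := fun z hz => (gaS'_e 𝒱 E hT hz).2
      con := fun z hz v => gaS'_par 𝒱 E hT hz v }
  set w' : En 15 → HF 15 ι := fun z => ten (gaS 𝒱 T z) (w z) with hw'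
  have hw'S : (tC C E).Sec D w' := hg.sec hwS
  have hw'd : ∀ z ∈ D, (tC C E).d w' z = 0 := by
    intro z hz
    rw [hg.d hDo hwS hz, hwd z hz, map_zero]
  have hw'7 : ∀ z ∈ D, dg 7 (w' z) = w' z := by
    intro z hz
    change dg 7 (ten _ (w z)) = ten _ (w z)
    rw [← ten_dg, hw7 z hz]
  have htC : (tC C E).Good D := (tC_flat E).toGood.mono hDo fun z hz => hz.2
  have hact : ∀ i ∈ TopSrc_L, (tC C E).ActOn D i := by
    intro i hi
    have h1 := tC_act (C := C) E (TopSrc_mem.1 hi)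
    exact ⟨fun x _ r _ => (h1 x r).1, fun x _ r _ => (h1 x r).2.1, fun x _ => (h1 x 0).2.2⟩
  obtain ⟨β', hβS, hβd, -, hβ6⟩ := Tw.P4 (α := fun _ => (0 : ℝ)) htC TopSrc_L
    (fun i hi => TopSrc_seg C.O (TopSrc_mem.1 hi)) hact hw'S hw'd hw'7
  have hpull : ∀ z ∈ D, pull (mvL (fun _ => (0 : ℝ)) TopSrc_L) w' z = 0 := fun z hz =>
    TopSrc_pull C (w := w) (fun z hz => 𝒱.S.pull_R gOk_S u hz) hw7 (gaS 𝒱 T) hz
  have hβd' : ∀ z ∈ D, (tC C E).d β' z = w' z := by
    intro z hz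
    rw [hβd z hz, hpull z hz, sub_zero]
  refine ⟨fun z => dg 6 (ten (gaS' 𝒱 T z) (β' z)), ?_, ?_, ?_⟩
  · exact Tw.Sec.dg 6 (hg'.sec hβS)
  · intro z
    change dg 6 (dg 6 _) = _
    rw [dg_dg, if_pos rfl]
  · intro z hz
    have h1 : DifferentiableAt ℝ (fun z => ten (gaS' 𝒱 T z) (β' z)) z :=
      (hg'.sec hβS).diffAt hDo hz
    have h2 := tS.dg_d (j := 6) h1
    rw [← h2, hg'.d hDo hβS hz, hβd' z hz]
    change dg 7 (ten (gaS' 𝒱 T z) (ten (gaS 𝒱 T z) (w z))) = w z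
    rw [ten_mul_apply, gaS_inv 𝒱 E hT hz, hwS.2 z hz, hw7 z hz]

end Pool.Agent.EXO
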