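import Mathlib
import Pool.Agent.EXO.Defs

/-!
# EXO, part VCL: pieces, local transitions, gluing data (definitions)

A piece is an open set `D` of `ℝ^m` with a map `π` to a set `X` which is injective up to the retraction
`R`.  `LT P Q z w`: there is a smooth local transition from `P` to `Q` near `z` which maps `z` to `w`.
-/

set_option autoImplicit false

open Set Filter Topology
open scoped ContDiff
open Pool.Agent.EXO

namespace EXO.Vc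

variable {m : ℕ} {X : Type} {R : En m → En m}

/-- A piece. -/
structure Pc (m : ℕ) (X : Type) (R : En m → En m) where
  D : Set (En m)
  π : En m → X
  openD : IsOpen D
  smoothR : ContDiffOn ℝ ∞ R D
  R_maps : ∀ z ∈ D, R z ∈ D
  R_idem : ∀ z ∈ D, R (R z) = R z
  inj : ∀ z ∈ D, ∀ w ∈ D, π z = π w ↔ R z = R w

/-- There is a smooth local transition from `P` to `Q` near `z`, which maps `z` to `w`. -/
def LT (P Q : Pc m X R) (z w : En m) : Prop :=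
  ∃ U : Set (En m), IsOpen U ∧ z ∈ U ∧ U ⊆ P.D ∧ ∃ τ : En m → En m, ContDiffOn ℝ ∞ τ U ∧ τ z = w ∧
    ∀ z' ∈ U, τ z' ∈ Q.D ∧ R (τ z') = τ z' ∧ Q.π (τ z') = P.π z'

/-- The relation `π z = π w` is closed at `(z, w)`. -/
def CL (P Q : Pc m X R) (z w : En m) : Prop :=
  (z, w) ∈ closure {p : En m × En m | p.1 ∈ P.D ∧ p.2 ∈ Q.D ∧ P.π p.1 = Q.π p.2} → P.π z = Q.π w

/-- Gluing data for a compact manifold. -/
structure Gl (ι : Type) (m : ℕ) (X : Type) (R : En m → En m) where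
  P : ι → Pc m X R
  loc : ∀ i j, ∀ z ∈ (P i).D, ∀ w ∈ (P j).D, R z = z → R w = w → (P i).π z = (P j).π w →
    LT (P i) (P j) z w
  closed : ∀ i j, ∀ z ∈ (P i).D, ∀ w ∈ (P j).D, CL (P i) (P j) z w
  K : ι → Set (En m)
  compactK : ∀ i, IsCompact (K i)
  K_sub : ∀ i, K i ⊆ (P i).D
  K_cover : ∀ i, ∀ z ∈ (P i).D, ∃ j, ∃ w ∈ K j, R w = w ∧ (P j).π w = (P i).π z

/-- The glued manifold `V` in `ℝ^M`, with the embeddings `Ψ i` of the pieces and their inverses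
`Φ i : O i → D i`. -/
structure Glued {ι : Type} (G : Gl ι m X R) where
  M : ℕ
  V : Set (En M)
  Ψ : ι → En m → En M
  Φ : ι → En M → En m
  O : ι → Set (En M)
  compactV : IsCompact V
  openO : ∀ i, IsOpen (O i)
  smoothΨ : ∀ i, ContDiffOn ℝ ∞ (Ψ i) (G.P i).D
  smoothΦ : ∀ i, ContDiffOn ℝ ∞ (Φ i) (O i)
  maps : ∀ i, ∀ z ∈ (G.P i).D, Ψ i z ∈ V ∩ O i
  mapsΦ : ∀ i, ∀ v ∈ V ∩ O i, Φ i v ∈ (G.P i).D ∧ R (Φ i v) = Φ i v ∧ Ψ i (Φ i v) = v
  left : ∀ i, ∀ z ∈ (G.P i).D, Φ i (Ψ i z) = R z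
  eq_iff : ∀ i j, ∀ z ∈ (G.P i).D, ∀ w ∈ (G.P j).D, Ψ i z = Ψ j w ↔ (G.P i).π z = (G.P j).π w
  cover : ∀ v ∈ V, ∃ i, ∃ z ∈ G.K i, R z = z ∧ v = Ψ i z

end EXO.Vc
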