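import Mathlib
import Pool.Agent.EXO.DefG
import Pool.Agent.EXO.VcGlDefs

/-!
# EXO, part VCL: definitions

`XW` is the set of the points of `W`: the points `(x, y)` of `K`, the points `y` with `x = ∞` (in `H₁`) and the
points `x` with `y = ∞` (in `H₂`).  `pA`, `pB` are the charts `H₁`, `H₂`.
-/

set_option autoImplicit false

open Set Filter Topology
open scoped ContDiff
open Pool.Agent.EXO

namespace EXO.Vc

/-- The points of `W`. -/
inductive XW : Type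
  | k (x y : En 4) : XW
  | a (y : En 4) : XW
  | b (x : En 4) : XW

open Classical in
/-- The chart `H₁` (coordinates `x'`, `y`). -/
noncomputable def pA (l : ℝ) (x' y : En 4) : XW :=
  if x' = 0 then XW.a y else XW.k (ivn x') (twi l x' y)

open Classical in
/-- The chart `H₂` (coordinates `x`, `y'`). -/
noncomputable def pB (l : ℝ) (x y' : En 4) : XW :=
  if y' = 0 then XW.b x else XW.k (twi l y' x) (ivn y')

/-- `|x|^(-2) + |y|^(-2)` is the square of `rad`; this is `rad ^ (-2)`. -/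
noncomputable def gW : XW → ℝ
  | XW.k x y => ‖x‖ ^ 2 * ‖y‖ ^ 2 / (‖x‖ ^ 2 + ‖y‖ ^ 2)
  | XW.a y => ‖y‖ ^ 2
  | XW.b x => ‖x‖ ^ 2

/-- The set in which all pieces are mapped: `W × N` and the rest of the source piece. -/
abbrev XV := (XW × En 7) ⊕ En 15

section

variable {N : Set (En 7)} (C : Collar N)

/-! ## Maps of `ℝ^15` -/

/-- `K → H₁` -/
noncomputable def kA (l : ℝ) (z : En 15) : En 15 :=
  j15 (ivn (p1 z)) (tw l (p1 z) (p2 z)) (C.rho (p3 z))
/-- `H₁ → K` -/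
noncomputable def aK (l : ℝ) (z : En 15) : En 15 :=
  j15 (ivn (p1 z)) (twi l (p1 z) (p2 z)) (C.rho (p3 z))
/-- `K → H₂` -/
noncomputable def kB (l : ℝ) (z : En 15) : En 15 :=
  j15 (tw l (p2 z) (p1 z)) (ivn (p2 z)) (C.rho (p3 z))
/-- `H₂ → K` -/
noncomputable def bK (l : ℝ) (z : En 15) : En 15 :=
  j15 (twi l (p2 z) (p1 z)) (ivn (p2 z)) (C.rho (p3 z))
/-- `D₁ → H₁` and `H₁ → D₁` -/
noncomputable def dA (z : En 15) : En 15 := j15 (p1 z) (ivn (p2 z)) (C.rho (p3 z))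
/-- `D₂ → H₂` and `H₂ → D₂` -/
noncomputable def dB (z : En 15) : En 15 := j15 (ivn (p1 z)) (p2 z) (C.rho (p3 z))

/-- The open set over the collar. -/
def ov (C : Collar N) : Set (En 15) := {z | p3 z ∈ C.O}

/-! ## The maps to `XV` -/

noncomputable def piK (z : En 15) : XV := Sum.inl (XW.k (p1 z) (p2 z), C.rho (p3 z))
noncomputable def piA (l : ℝ) (z : En 15) : XV := Sum.inl (pA l (p1 z) (p2 z), C.rho (p3 z))
noncomputable def piB (l : ℝ) (z : En 15) : XV := Sum.inl (pB l (p1 z) (p2 z), C.rho (p3 z))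
/-- the chart `D₁` of the end -/
noncomputable def piD1 (l : ℝ) (z : En 15) : XV :=
  Sum.inl (pA l (p1 z) (ivn (p2 z)), C.rho (p3 z))
/-- the chart `D₂` of the end -/
noncomputable def piD2 (l : ℝ) (z : En 15) : XV :=
  Sum.inl (pB l (ivn (p1 z)) (p2 z), C.rho (p3 z))

open Classical in
/-- the source piece -/
noncomputable def piS {l ε : ℝ} (J : GData C l ε) (z : En 15) : XV :=
  if z ∈ J.A1 ∧ 1 / 20000 < gS (J.G1 z) then piD1 C l (J.G1 z)
  else if z ∈ J.A2 ∧ 1 / 20000 < gS (J.G2 z) then piD2 C l (J.G2 z)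
  else Sum.inr (C.R z)

/-- The domain of `piD1`. -/
def domD1 (C : Collar N) : Set (En 15) := {z | p2 z ≠ 0 ∧ p3 z ∈ C.O ∧ 1 / 20000 < gS z}
/-- The domain of `piD2`. -/
def domD2 (C : Collar N) : Set (En 15) := {z | p1 z ≠ 0 ∧ p3 z ∈ C.O ∧ 1 / 20000 < gS z}

/-- A diffeomorphism `F : A → B` up to the retraction `C.R`, with the inverse `F'`. -/
structure RD (A B : Set (En 15)) (F F' : En 15 → En 15) : Prop where
  openA : IsOpen A
  openB : IsOpen B
  smoothF : ContDiffOn ℝ ∞ F A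
  smoothF' : ContDiffOn ℝ ∞ F' B
  subA : ∀ z ∈ A, p3 z ∈ C.O
  subB : ∀ w ∈ B, p3 w ∈ C.O
  satA : ∀ z ∈ A, C.R z ∈ A
  satB : ∀ w ∈ B, C.R w ∈ B
  maps : ∀ z ∈ A, F z ∈ B ∧ p3 (F z) ∈ N ∧ F' (F z) = C.R z
  maps' : ∀ w ∈ B, F' w ∈ A ∧ p3 (F' w) ∈ N ∧ F (F' w) = C.R w

end

/-! ## Orientation -/

/-- The standard form of degree 14 on `ℝ⁸ × N`, extended to the collar. -/
noncomputable def Om {N : OrGeo 6 7} (C : Collar N.carrier) (z : En 15) : FA 15 :=
  (List.ofFn fun i : Fin 8 => of1 (bv (⟨i, by omega⟩ : Fin 15))).prod *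
    pbF (fun z => C.rho (p3 z)) N.vol z

/-- `F` has the orientation sign `s` at `z`. -/
def SG {N : OrGeo 6 7} (C : Collar N.carrier) (F : En 15 → En 15) (z : En 15) (s : ℝ) : Prop :=
  ∃ c : ℝ, 0 < c ∧ pbF F (Om C) z = ((s * c : ℝ) : ℂ) • Om C z

/-- A local transition with the orientation sign `s`. -/
def LTs {N : OrGeo 6 7} (C : Collar N.carrier) {X : Type} (P Q : Pc 15 X C.R) (s : ℝ)
    (z w : En 15) : Prop :=
  ∃ U : Set (En 15), IsOpen U ∧ z ∈ U ∧ U ⊆ P.D ∧ ∃ τ : En 15 → En 15, ContDiffOn ℝ ∞ τ U ∧ τ z = w ∧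
    (∀ z' ∈ U, τ z' ∈ Q.D ∧ C.R (τ z') = τ z' ∧ Q.π (τ z') = P.π z') ∧
    ∀ z' ∈ U, C.R z' = z' → SG C τ z' s

/-- The index set of the pieces. -/
inductive Ix : Type
  | s | k | a | b
  deriving DecidableEq, Fintype

end EXO.Vc
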