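import Mathlib

/-!
# EXO, part VCL, module VcExt: extension of smooth functions from `V ∩ O` to `O` (Mathlib only)

`V` is closed, `O` is open and `f` is, near every point of `V ∩ O`, on `V` the restriction of a smooth
function.  Then there is a function `g`, smooth on `O`, which agrees with `f` on `V ∩ O`.

PROOF.  `O' : TopologicalSpace.Opens E := ⟨O, hO⟩` is a manifold modelled on `E`; it is `σ`-compact
(`hO.locallyCompactSpace` or `IsOpen.isLocallyClosed..`, second countable, then
`sigmaCompactSpace_of_locallyCompact_secondCountable`; `E` is proper: `FiniteDimensional.proper_real`).  Apply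
`exists_contMDiffMap_forall_mem_convex_of_local (n := ⊤) 𝓘(ℝ, E)` on the manifold `O'` to the convex sets
`t x = {c | (x : E) ∈ V → c = f x}` (a singleton or everything), compare `SuExt.exists_smooth_of_local`.  For the local condition at `x ∈ V`
take `g` from `Hloc` (on `U ∩ O`), at `x ∉ V` the constant `0` on the open set `Vᶜ`.  The conversion between smoothness on the manifold
`O'` and on the open set `O`: `contMDiffAt_subtype_iff`, `contMDiff_iff_contDiff`, `contMDiffAt_iff_contDiffAt`.
Alternative proof without manifolds: Mathlib's smooth partitions of unity on `E` for the open cover of the closed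
set do not apply directly (`O` is not closed), but one can use a sequence of compact sets exhausting `O`; any proof is fine.
-/

set_option autoImplicit false

namespace EXO.Vc

open scoped ContDiff Topology Manifold
open Set Filter

variable {E F : Type*} [NormedAddCommGroup E] [NormedSpace ℝ E] [FiniteDimensional ℝ E]
  [NormedAddCommGroup F] [NormedSpace ℝ F]

theorem exists_smooth_on_open {O V : Set E} (hO : IsOpen O) (hV : IsClosed V) (f : E → F)
    (Hloc : ∀ x ∈ V ∩ O, ∃ U ∈ 𝓝 x, ∃ g : E → F, ContDiffOn ℝ ∞ g U ∧ ∀ y ∈ U ∩ V, g y = f y) :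
    ∃ g : E → F, ContDiffOn ℝ ∞ g O ∧ ∀ x ∈ V ∩ O, g x = f x := by
  classical
  let O' : TopologicalSpace.Opens E := ⟨O, hO⟩
  have : ProperSpace E := FiniteDimensional.proper_real E
  have : LocallyCompactSpace O' := hO.locallyCompactSpace
  have : SigmaCompactSpace O' := sigmaCompactSpace_of_locallyCompact_secondCountable
  have key := exists_contMDiffMap_forall_mem_convex_of_local (n := (⊤ : ℕ∞)) (𝓘(ℝ, E)) (M := O') (F := F)
    (t := fun x : O' => {c : F | (x : E) ∈ V → c = f x}) ?_ ?_
  · obtain ⟨g, hg⟩ := key
    refine ⟨fun x => if h : x ∈ O then g ⟨x, h⟩ else 0, ?_, ?_⟩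
    · intro x hx
      refine ContDiffAt.contDiffWithinAt ?_
      rw [← contMDiffAt_iff_contDiffAt]
      refine (contMDiffAt_subtype_iff (U := O') (x := (⟨x, hx⟩ : O'))).1 ?_
      have h2 : (fun y : O' => (if h : (y : E) ∈ O then g ⟨y, h⟩ else 0)) = g := by
        funext y
        exact dif_pos y.2
      rw [h2]
      exact g.contMDiff.contMDiffAt
    · intro x hx
      show (if h : x ∈ O then g ⟨x, h⟩ else 0) = f x
      rw [dif_pos hx.2]
      exact hg ⟨x, hx.2⟩ hx.1
  · intro x
    by_cases hx : (x : E) ∈ V
    · have : {c : F | (x : E) ∈ V → c = f x} = {f x} := by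
        ext c; simp [hx]
      rw [this]
      exact convex_singleton _
    · have : {c : F | (x : E) ∈ V → c = f x} = univ := by
        ext c; simp [hx]
      rw [this]
      exact convex_univ
  · intro x
    by_cases hx : (x : E) ∈ V
    · obtain ⟨U, hU, g, hg, hgf⟩ := Hloc x ⟨hx, x.2⟩
      refine ⟨Subtype.val ⁻¹' U, continuous_subtype_val.continuousAt.preimage_mem_nhds hU,
        fun y => g y, ?_, fun y hy hyV => hgf y ⟨hy, hyV⟩⟩
      exact hg.contMDiffOn.comp contMDiff_subtype_val.contMDiffOn fun y hy => hy
    · refine ⟨Subtype.val ⁻¹' Vᶜ, continuous_subtype_val.continuousAt.preimage_mem_nhds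
        (hV.isOpen_compl.mem_nhds hx), fun _ => 0, contMDiffOn_const, ?_⟩
      intro y hy hyV
      exact absurd hyV hy

end EXO.Vc
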