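import Mathlib
import Pool.Agent.EXO.VcGlDefs

/-!
# EXO, part VCL, module VcLt: elementary facts on local transitions

PROOFS.
* `LT.refl`: `U = P.D`, `τ = R` (`inj` and `R_idem` give `π (R z') = π z'`).
* `LT.trans`: `τ = τ₂ ∘ τ₁` on `U₁ ∩ τ₁⁻¹ U₂` (open: `ContinuousOn.isOpen_inter_preimage`).
* `LT.of_R`: `τ = τ₁ ∘ R` on `P.D ∩ R⁻¹ U₁`.
* `Pc.π_R`: `inj` and `R_idem`.
* `CL.same`: the set of the `(z', w')` with `R z' = R w'` is closed in `D × D`: if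
  `(z, w)` is in the closure, then `R z = R w` by continuity (`mem_closure_iff_seq_limit`), so `π z = π w` by `inj`.
* `CL.symm`: the homeomorphism `Prod.swap`.
* `CL.of_LT`: let `τ` be the transition near `z` to `P'`, `τ z = z₁`.  If `(z, w)` is the limit of `(z_k, w_k)` with
  `π z_k = π w_k`, then `z_k ∈ U` for large `k` and `(τ z_k, w_k) → (z₁, w)`, `P'.π (τ z_k) = P.π z_k = Q.π w_k`, so
  `(z₁, w)` is in the closure for `(P', Q)` and `P'.π z₁ = Q.π w`; but `P'.π z₁ = P.π z`.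
* `CL.of_LT'`: if there is a local transition from `P` to `Q` near `z` (to any point `w'`), then `CL P Q z w`:
  `CL.of_LT` and `CL.same`.
-/

set_option autoImplicit false

open Set Filter Topology
open scoped ContDiff
open Pool.Agent.EXO

namespace EXO.Vc

variable {m : ℕ} {X : Type} {R : En m → En m} {P Q P' : Pc m X R} {z w y : En m}

theorem Pc.π_R (P : Pc m X R) (hz : z ∈ P.D) : P.π (R z) = P.π z :=
  (P.inj _ (P.R_maps z hz) _ hz).2 (P.R_idem z hz)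

theorem LT.refl (hz : z ∈ P.D) : LT P P z (R z) :=
  ⟨P.D, P.openD, hz, Subset.rfl, R, P.smoothR, rfl, fun z' hz' =>
    ⟨P.R_maps z' hz', P.R_idem z' hz', P.π_R hz'⟩⟩

theorem LT.trans (h1 : LT P Q z w) (h2 : LT Q P' w y) : LT P P' z y := by
  obtain ⟨U, hU, hzU, hUD, τ, hτ, hτz, hs⟩ := h1
  obtain ⟨U', hU', hwU', hUD', τ', hτ', hτw, hs'⟩ := h2
  refine ⟨U ∩ τ ⁻¹' U', hτ.continuousOn.isOpen_inter_preimage hU hU', ⟨hzU, ?_⟩,
    fun x hx => hUD hx.1, τ' ∘ τ, ?_, ?_, ?_⟩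
  · change τ z ∈ U'
    rw [hτz]
    exact hwU'
  · exact hτ'.comp (hτ.mono inter_subset_left) fun x hx => hx.2
  · simp only [Function.comp_apply, hτz, hτw]
  · intro x hx
    obtain ⟨a1, a2, a3⟩ := hs x hx.1
    obtain ⟨b1, b2, b3⟩ := hs' (τ x) hx.2
    exact ⟨b1, b2, b3.trans a3⟩

theorem LT.of_R (hz : z ∈ P.D) (h : LT P Q (R z) w) : LT P Q z w := by
  obtain ⟨U, hU, hzU, hUD, τ, hτ, hτz, hs⟩ := h
  refine ⟨P.D ∩ R ⁻¹' U, P.smoothR.continuousOn.isOpen_inter_preimage P.openD hU, ⟨hz, hzU⟩,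
    fun x hx => hx.1, τ ∘ R, ?_, hτz, ?_⟩
  · exact hτ.comp (P.smoothR.mono inter_subset_left) fun x hx => hx.2
  · intro x hx
    obtain ⟨a1, a2, a3⟩ := hs (R x) hx.2
    exact ⟨a1, a2, a3.trans (P.π_R hx.1)⟩

/-- all the general facts on the target point -/
theorem LT.spec (h : LT P Q z w) : z ∈ P.D ∧ w ∈ Q.D ∧ R w = w ∧ Q.π w = P.π z := by
  obtain ⟨U, hU, hzU, hUD, τ, hτ, hτz, hs⟩ := h
  obtain ⟨a1, a2, a3⟩ := hs z hzU
  rw [hτz] at a1 a2 a3
  exact ⟨hUD hzU, a1, a2, a3⟩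

theorem CL.same (hz : z ∈ P.D) (hw : w ∈ P.D) : CL P P z w := by
  intro h
  obtain ⟨p, hp, hlim⟩ := mem_closure_iff_seq_limit.1 h
  rw [P.inj z hz w hw]
  have h1 : Tendsto (fun n => R (p n).1) atTop (𝓝 (R z)) :=
    (P.smoothR.continuousOn.continuousAt (P.openD.mem_nhds hz)).tendsto.comp
      ((continuous_fst.tendsto _).comp hlim)
  have h2 : Tendsto (fun n => R (p n).2) atTop (𝓝 (R w)) :=
    (P.smoothR.continuousOn.continuousAt (P.openD.mem_nhds hw)).tendsto.comp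
      ((continuous_snd.tendsto _).comp hlim)
  have h3 : (fun n => R (p n).1) = fun n => R (p n).2 := by
    funext n
    obtain ⟨a1, a2, a3⟩ := hp n
    exact (P.inj _ a1 _ a2).1 a3
  rw [h3] at h1
  exact tendsto_nhds_unique h1 h2

theorem CL.symm (h : CL P Q z w) : CL Q P w z := by
  intro h1
  obtain ⟨p, hp, hlim⟩ := mem_closure_iff_seq_limit.1 h1
  refine (h (mem_closure_iff_seq_limit.2 ⟨fun n => (p n).swap, fun n => ?_, ?_⟩)).symm
  · obtain ⟨a1, a2, a3⟩ := hp n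
    exact ⟨a2, a1, a3.symm⟩
  · exact (continuous_swap.tendsto _).comp hlim

theorem CL.of_LT (h : LT P P' z y) (h2 : CL P' Q y w) : CL P Q z w := by
  obtain ⟨a1, a2, a3, a4⟩ := h.spec
  obtain ⟨U, hU, hzU, hUD, τ, hτ, hτz, hs⟩ := h
  intro h1
  obtain ⟨p, hp, hlim⟩ := mem_closure_iff_seq_limit.1 h1
  rw [← a4]
  apply h2
  have l1 : Tendsto (fun n => (p n).1) atTop (𝓝 z) := (continuous_fst.tendsto _).comp hlim
  have l2 : Tendsto (fun n => (p n).2) atTop (𝓝 w) := (continuous_snd.tendsto _).comp hlim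
  have l3 : Tendsto (fun n => τ (p n).1) atTop (𝓝 y) := by
    rw [← hτz]
    exact (hτ.continuousOn.continuousAt (hU.mem_nhds hzU)).tendsto.comp l1
  refine mem_closure_of_tendsto (l3.prodMk_nhds l2) ?_
  filter_upwards [l1.eventually (hU.mem_nhds hzU)] with n hn
  obtain ⟨b1, b2, b3⟩ := hp n
  obtain ⟨c1, c2, c3⟩ := hs _ hn
  exact ⟨c1, b2, c3.trans b3⟩

theorem CL.of_LT' (h : LT P Q z y) (hw : w ∈ Q.D) : CL P Q z w :=
  CL.of_LT h (CL.same h.spec.2.1 hw)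

end EXO.Vc
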