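import Mathlib
import Pool.Agent.EXO.VcLt
import Pool.Agent.EXO.VcExt

/-!
# EXO, part VCL, module VcGl: the gluing theorem

`Gl.exists_glued`: gluing data give a compact subset `V` of `ℝ^M` with embeddings of the pieces.

PROOF.  All sums over `ι` are finite.  For `i : ι` let `f i : ℝ^m → ℝ` be smooth with values in `[0,1]`, `f i = 1` on `K i` and
`f i = 0` outside a compact set `L i ⊆ D i` (`exists_compact_between`, `exists_contMDiffMap_zero_one_of_isClosed`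
or `exists_contDiff_...`; then `contMDiff_iff_contDiff`).
For `x : X` let `Pt i x := ∃ w ∈ D i, R w = w ∧ π i w = x`, `c i x` such a `w` (unique by `inj`: `R w = w`), `0` if there is none,
`χ i x := if Pt i x then f i (c i x) else 0`, and `F i x := (χ i x, χ i x • c i x) ∈ ℝ × ℝ^m`.
Let `M = finrank ℝ (ι → ℝ × En m)`, `Λ : (ι → ℝ × En m) ≃L[ℝ] En M` (`ContinuousLinearEquiv.ofFinrankEq`), and
`Ψ j z := Λ (fun i => F i (π j z))`.

(1) `Ψ j` is smooth on `D j`: at `z ∈ D j`, for every `i`: if `Pt i (π j z)`, `w = c i (π j z)`, then by `loc` (for `R z` and `LT.of_R`) there is a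
transition `τ` near `z` from `j` to `i`, `c i (π j z') = τ z'` near `z` (uniqueness), so `F i (π j z') = (f i (τ z'), f i (τ z') • τ z')`.  If
not `Pt i (π j z)`: for all `w ∈ L i`, `(z, w)` is not in the closure of `T := {(z', w') ∈ D j × D i | π j z' = π i w'}`, because otherwise
`closed` gives `π j z = π i w = π i (R w)`, i.e. `Pt i (π j z)`.  By `generalized_tube_lemma` (`{z} × L i` compact, contained in the open
set `(closure T)ᶜ`) there is a neighbourhood of `z` on which `χ i (π j z') = 0` (if `χ i (π j z') ≠ 0` then `w' = c i (π j z')` is in the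
support `L i` and `(z', w') ∈ T`), so `F i (π j ·) = 0` near `z`.
(2) `eq_iff`: if `Ψ i z = Ψ j w`: by `K_cover` there are `k`, `w₀ ∈ K k`, `R w₀ = w₀`, `π k w₀ = π i z`, so `c k (π i z) = w₀`, `χ k (π i z) = 1`; so
`χ k (π j w) = 1`, `Pt k (π j w)` and `c k (π j w) = w₀`, so `π j w = π k w₀ = π i z`.  The converse is clear.
(3) `V := ⋃ j, Ψ j '' K j` (compact).  `Ψ j z ∈ V` for all `z ∈ D j` by `K_cover`.  `cover` by `K_cover`.
(4) `O i := (V \ Ψ i '' D i)ᶜ`.  Local statement: let `v₀ = Ψ i z₀`, `z₀ ∈ D i`, `R z₀ = z₀` (replace `z₀` by `R z₀`).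
Choose `k`, `w₀ ∈ K k`, `R w₀ = w₀`, `π k w₀ = π i z₀`, and by `loc` a transition `τ : U → D i` near `w₀`, `τ w₀ = z₀`.  For
`ξ : En M` put `(a ξ, b ξ) := Λ.symm ξ k`.  On the open neighbourhood `N₀ := {ξ | a ξ ≠ 0 ∧ (a ξ)⁻¹ • b ξ ∈ U}` of `v₀` put
`g ξ := τ ((a ξ)⁻¹ • b ξ)`, smooth.  If `v = Ψ j w₁ ∈ V ∩ N₀`, then `χ k (π j w₁) = a v ≠ 0`, so `Pt k (π j w₁)`,
`(a v)⁻¹ • b v = c k (π j w₁) =: w₂ ∈ U`, `π i (τ w₂) = π k w₂ = π j w₁`, so `v = Ψ i (τ w₂)`, `R (τ w₂) = τ w₂`.  In particular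
`Ψ i '' D i` is open in `V`, so `V \ Ψ i '' D i` is closed and `O i` is open, `V ∩ O i = Ψ i '' D i`.
`φ i v :=` the unique `z ∈ D i` with `R z = z`, `Ψ i z = v` (for `v ∈ Ψ i '' D i`); it is locally the restriction of a
smooth function, so `exists_smooth_on_open` gives `Φ i`.
-/

set_option autoImplicit false

open Set Filter Topology
open scoped ContDiff
open Pool.Agent.EXO

namespace EXO.Vc

variable {ι : Type} {m : ℕ} {X : Type} {R : En m → En m}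

/-- `w` is the point of the piece `P` over `x`. -/
private def IsPt (P : Pc m X R) (x : X) (w : En m) : Prop := w ∈ P.D ∧ R w = w ∧ P.π w = x

private theorem IsPt.unique {P : Pc m X R} {x : X} {w w' : En m} (h : IsPt P x w)
    (h' : IsPt P x w') : w = w' := by
  have := (P.inj w h.1 w' h'.1).1 (h.2.2.trans h'.2.2.symm)
  rwa [h.2.1, h'.2.1] at this

open Classical in
/-- the weight and the weighted coordinate of `x` in the piece `P`. -/
private noncomputable def Fw (P : Pc m X R) (f : En m → ℝ) (x : X) : ℝ × En m :=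
  if h : ∃ w, IsPt P x w then (f h.choose, f h.choose • h.choose) else 0

private theorem Fw_of {P : Pc m X R} {f : En m → ℝ} {x : X} {w : En m} (h : IsPt P x w) :
    Fw P f x = (f w, f w • w) := by
  have hex : ∃ w, IsPt P x w := ⟨w, h⟩
  have : hex.choose = w := hex.choose_spec.unique h
  rw [Fw, dif_pos hex, this]

private theorem Fw_not {P : Pc m X R} {f : En m → ℝ} {x : X} (h : ¬ ∃ w, IsPt P x w) :
    Fw P f x = 0 := by
  rw [Fw, dif_neg h]

private theorem isPt_R {P : Pc m X R} {z : En m} (hz : z ∈ P.D) : IsPt P (P.π z) (R z) :=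
  ⟨P.R_maps z hz, P.R_idem z hz, P.π_R hz⟩

private theorem Fw_smooth {P Q : Pc m X R} {f : En m → ℝ} {L : Set (En m)}
    (hf : ContDiff ℝ ∞ f) (hL : IsCompact L) (hLD : L ⊆ Q.D) (hfL : ∀ w, w ∉ L → f w = 0)
    (hloc : ∀ z ∈ P.D, ∀ w ∈ Q.D, R z = z → R w = w → P.π z = Q.π w → LT P Q z w)
    (hcl : ∀ z ∈ P.D, ∀ w ∈ Q.D, CL P Q z w) :
    ContDiffOn ℝ ∞ (fun z => Fw Q f (P.π z)) P.D := by
  intro z hz
  apply ContDiffAt.contDiffWithinAt
  by_cases hex : ∃ w, IsPt Q (P.π z) w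
  · obtain ⟨w, hw⟩ := hex
    have h1 : LT P Q (R z) w :=
      hloc (R z) (P.R_maps z hz) w hw.1 (P.R_idem z hz) hw.2.1 ((P.π_R hz).trans hw.2.2.symm)
    obtain ⟨U, hU, hzU, hUD, τ, hτ, hτz, hτ'⟩ := LT.of_R hz h1
    have h2 : ContDiffAt ℝ ∞ (fun z' => (f (τ z'), f (τ z') • τ z')) z := by
      have h3 : ContDiffAt ℝ ∞ τ z := hτ.contDiffAt (hU.mem_nhds hzU)
      have h4 : ContDiffAt ℝ ∞ (fun z' => f (τ z')) z := hf.contDiffAt.comp z h3
      exact h4.prodMk (h4.smul h3)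
    refine h2.congr_of_eventuallyEq ?_
    filter_upwards [hU.mem_nhds hzU] with z' hz'
    exact Fw_of ⟨(hτ' z' hz').1, (hτ' z' hz').2.1, (hτ' z' hz').2.2⟩
  · have h2 : ContDiffAt ℝ ∞ (fun _ : En m => (0 : ℝ × En m)) z := contDiffAt_const
    refine h2.congr_of_eventuallyEq ?_
    set T : Set (En m × En m) := {p | p.1 ∈ P.D ∧ p.2 ∈ Q.D ∧ P.π p.1 = Q.π p.2} with hT
    have hsub : ({z} : Set (En m)) ×ˢ L ⊆ (closure T)ᶜ := by
      rintro ⟨a, b⟩ ⟨ha, hb⟩ hcontra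
      have ha' : a = z := ha
      subst ha'
      have h3 := hcl a hz b (hLD hb) hcontra
      exact hex ⟨R b, Q.R_maps b (hLD hb), Q.R_idem b (hLD hb), (Q.π_R (hLD hb)).trans h3.symm⟩
    obtain ⟨u, v, hu, _, hzu, hLv, huv⟩ :=
      generalized_tube_lemma isCompact_singleton hL isClosed_closure.isOpen_compl hsub
    filter_upwards [hu.mem_nhds (hzu rfl), P.openD.mem_nhds hz] with z' hz' hz'D
    by_cases hex' : ∃ w, IsPt Q (P.π z') w
    · obtain ⟨w, hw⟩ := hex'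
      rw [Fw_of hw]
      by_cases hwL : w ∈ L
      · exact absurd (subset_closure (show (z', w) ∈ T from ⟨hz'D, hw.1, hw.2.2.symm⟩))
          (huv ⟨hz', hLv hwL⟩)
      · rw [hfL w hwL, zero_smul]
        rfl
    · exact Fw_not hex'

private theorem exists_cut {D K : Set (En m)} (hD : IsOpen D) (hK : IsCompact K) (hKD : K ⊆ D) :
    ∃ (f : En m → ℝ) (L : Set (En m)), ContDiff ℝ ∞ f ∧ IsCompact L ∧ L ⊆ D ∧
      (∀ w, w ∉ L → f w = 0) ∧ ∀ w ∈ K, f w = 1 := by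
  obtain ⟨L, hL, hKL, hLD⟩ := exists_compact_between hK hD hKD
  obtain ⟨f, hf0, hf1, _⟩ := exists_contMDiffMap_zero_one_of_isClosed (n := ⊤)
    (modelWithCornersSelf ℝ (En m)) (s := (interior L)ᶜ) (t := K)
    isOpen_interior.isClosed_compl hK.isClosed
    (Set.disjoint_left.2 fun x hx hx' => hx (hKL hx'))
  refine ⟨f, L, contMDiff_iff_contDiff.1 f.contMDiff, hL, hLD, fun w hw => hf0 ?_,
    fun w hw => hf1 hw⟩
  exact fun h => hw (interior_subset h)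

theorem Gl.exists_glued [Fintype ι] (G : Gl ι m X R) : Nonempty (Glued G) := by
  classical
  have hcut := fun i => exists_cut (G.P i).openD (G.compactK i) (G.K_sub i)
  choose f L hf hL hLD hfL hfK using hcut
  -- the weight vectors
  set Fv : X → (ι → ℝ × En m) := fun x i => Fw (G.P i) (f i) x with hFv
  set M : ℕ := Module.finrank ℝ (ι → ℝ × En m) with hM
  have hfr : Module.finrank ℝ (ι → ℝ × En m) = Module.finrank ℝ (En M) := by
    rw [finrank_euclideanSpace_fin]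
  let Λ : (ι → ℝ × En m) ≃L[ℝ] En M := ContinuousLinearEquiv.ofFinrankEq hfr
  set Ψ : ι → En m → En M := fun j z => Λ (Fv ((G.P j).π z)) with hΨ
  have hsm : ∀ j, ContDiffOn ℝ ∞ (Ψ j) (G.P j).D := by
    intro j
    have h1 : ContDiffOn ℝ ∞ (fun z => Fv ((G.P j).π z)) (G.P j).D := by
      rw [contDiffOn_pi]
      intro i
      exact Fw_smooth (hf i) (hL i) (hLD i) (hfL i) (G.loc j i) (G.closed j i)
    exact Λ.contDiff.comp_contDiffOn h1
  -- the weight vector determines the point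
  have hinj : ∀ i, ∀ z ∈ (G.P i).D, ∀ y : X, Fv ((G.P i).π z) = Fv y → (G.P i).π z = y := by
    intro i z hz y h
    obtain ⟨k, w, hwK, hwR, hwπ⟩ := G.K_cover i z hz
    have h1 : IsPt (G.P k) ((G.P i).π z) w := ⟨G.K_sub k hwK, hwR, hwπ⟩
    have h2 : Fw (G.P k) (f k) ((G.P i).π z) = Fw (G.P k) (f k) y := congrFun h k
    rw [Fw_of h1, hfK k w hwK, one_smul] at h2
    by_cases hex : ∃ w', IsPt (G.P k) y w'
    · obtain ⟨w', hw'⟩ := hex
      rw [Fw_of hw'] at h2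
      have h3 : (1 : ℝ) = f k w' := congrArg Prod.fst h2
      have h4 : w = f k w' • w' := congrArg Prod.snd h2
      rw [← h3, one_smul] at h4
      rw [← hwπ, h4]
      exact hw'.2.2
    · rw [Fw_not hex] at h2
      exact absurd (congrArg Prod.fst h2) one_ne_zero
  have heq : ∀ i j, ∀ z ∈ (G.P i).D, ∀ w ∈ (G.P j).D,
      Ψ i z = Ψ j w ↔ (G.P i).π z = (G.P j).π w := by
    intro i j z hz w _
    constructor
    · intro h
      exact hinj i z hz _ (Λ.injective h)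
    · intro h
      simp only [hΨ, h]
  -- the compact set
  set V : Set (En M) := ⋃ j, Ψ j '' G.K j with hV
  have hVc : IsCompact V := isCompact_iUnion fun j =>
    (G.compactK j).image_of_continuousOn ((hsm j).continuousOn.mono (G.K_sub j))
  have hmemV : ∀ i, ∀ z ∈ (G.P i).D, Ψ i z ∈ V := by
    intro i z hz
    obtain ⟨k, w, hwK, hwR, hwπ⟩ := G.K_cover i z hz
    refine mem_iUnion.2 ⟨k, w, hwK, ?_⟩
    simp only [hΨ, hwπ]
  -- the local statement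
  have hlocal : ∀ i, ∀ z ∈ (G.P i).D, ∃ N : Set (En M), IsOpen N ∧ Ψ i z ∈ N ∧
      ∃ g : En M → En m, ContDiffOn ℝ ∞ g N ∧
        ∀ v ∈ N ∩ V, g v ∈ (G.P i).D ∧ R (g v) = g v ∧ Ψ i (g v) = v := by
    intro i z hz
    obtain ⟨k, w₀, hwK, hwR, hwπ⟩ := G.K_cover i z hz
    have h1 : LT (G.P k) (G.P i) w₀ (R z) :=
      G.loc k i w₀ (G.K_sub k hwK) (R z) ((G.P i).R_maps z hz) hwR ((G.P i).R_idem z hz)
        (hwπ.trans ((G.P i).π_R hz).symm)
    obtain ⟨U, hU, hwU, hUD, τ, hτ, hτw, hτ'⟩ := h1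
    let a : En M → ℝ := fun ξ => (Λ.symm ξ k).1
    let b : En M → En m := fun ξ => (Λ.symm ξ k).2
    have hab : ContDiff ℝ ∞ (fun ξ => Λ.symm ξ k) :=
      (contDiff_apply ℝ (ℝ × En m) k).comp Λ.symm.contDiff
    have ha : ContDiff ℝ ∞ a := contDiff_fst.comp hab
    have hb : ContDiff ℝ ∞ b := contDiff_snd.comp hab
    have hA : IsOpen {ξ : En M | a ξ ≠ 0} := isOpen_ne_fun ha.continuous continuous_const
    have hq : ContDiffOn ℝ ∞ (fun ξ => (a ξ)⁻¹ • b ξ) {ξ : En M | a ξ ≠ 0} :=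
      (ha.contDiffOn.inv fun x hx => hx).smul hb.contDiffOn
    have haΨ : ∀ j, ∀ y ∈ (G.P j).D, ∀ w, IsPt (G.P k) ((G.P j).π y) w →
        Λ.symm (Ψ j y) k = (f k w, f k w • w) := by
      intro j y hy w hw
      simp only [hΨ, ContinuousLinearEquiv.symm_apply_apply, hFv]
      exact Fw_of hw
    have h0 : Λ.symm (Ψ i z) k = (1, w₀) := by
      rw [haΨ i z hz w₀ ⟨G.K_sub k hwK, hwR, hwπ⟩, hfK k w₀ hwK, one_smul]
    refine ⟨{ξ | a ξ ≠ 0} ∩ (fun ξ => (a ξ)⁻¹ • b ξ) ⁻¹' U,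
      hq.continuousOn.isOpen_inter_preimage hA hU, ⟨?_, ?_⟩,
      fun ξ => τ ((a ξ)⁻¹ • b ξ), ?_, ?_⟩
    · show a (Ψ i z) ≠ 0
      simp only [a, h0]
      exact one_ne_zero
    · show (a (Ψ i z))⁻¹ • b (Ψ i z) ∈ U
      simp only [a, b, h0, inv_one, one_smul]
      exact hwU
    · exact hτ.comp (hq.mono inter_subset_left) fun ξ hξ => hξ.2
    · rintro v ⟨⟨hv0, hvU⟩, hvV⟩
      obtain ⟨j, w₁, hw₁K, rfl⟩ := mem_iUnion.1 hvV
      have hw₁D := G.K_sub j hw₁K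
      have hex : ∃ w, IsPt (G.P k) ((G.P j).π w₁) w := by
        by_contra hcon
        apply hv0
        show (Λ.symm (Ψ j w₁) k).1 = 0
        simp only [hΨ, ContinuousLinearEquiv.symm_apply_apply, hFv]
        rw [Fw_not hcon]
        rfl
      obtain ⟨w₂, hw₂⟩ := hex
      have h2 := haΨ j w₁ hw₁D w₂ hw₂
      have h3 : a (Ψ j w₁) = f k w₂ := by simp only [a, h2]
      have h4 : b (Ψ j w₁) = f k w₂ • w₂ := by simp only [b, h2]
      have hv0' : a (Ψ j w₁) ≠ 0 := hv0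
      have h5 : (a (Ψ j w₁))⁻¹ • b (Ψ j w₁) = w₂ := by
        rw [h4, h3, smul_smul, inv_mul_cancel₀ (h3 ▸ hv0'), one_smul]
      have hvU' : (a (Ψ j w₁))⁻¹ • b (Ψ j w₁) ∈ U := hvU
      show τ ((a (Ψ j w₁))⁻¹ • b (Ψ j w₁)) ∈ (G.P i).D ∧
        R (τ ((a (Ψ j w₁))⁻¹ • b (Ψ j w₁))) = τ ((a (Ψ j w₁))⁻¹ • b (Ψ j w₁)) ∧
        Ψ i (τ ((a (Ψ j w₁))⁻¹ • b (Ψ j w₁))) = Ψ j w₁
      rw [h5] at hvU' ⊢
      obtain ⟨h6, h7, h8⟩ := hτ' w₂ hvU'
      refine ⟨h6, h7, (heq i j _ h6 _ hw₁D).2 (h8.trans hw₂.2.2)⟩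
  -- the open sets
  set O : ι → Set (En M) := fun i => (V \ Ψ i '' (G.P i).D)ᶜ with hO
  have hOo : ∀ i, IsOpen (O i) := by
    intro i
    rw [isOpen_iff_mem_nhds]
    intro v hv
    by_cases hvV : v ∈ V
    · have hvi : v ∈ Ψ i '' (G.P i).D := by
        by_contra hcon
        exact hv ⟨hvV, hcon⟩
      obtain ⟨z, hz, rfl⟩ := hvi
      obtain ⟨N, hN, hzN, g, _, hg⟩ := hlocal i z hz
      filter_upwards [hN.mem_nhds hzN] with v' hv' hcon
      exact hcon.2 ⟨g v', (hg v' ⟨hv', hcon.1⟩).1, (hg v' ⟨hv', hcon.1⟩).2.2⟩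
    · filter_upwards [hVc.isClosed.isOpen_compl.mem_nhds hvV] with v' hv' hcon
      exact hv' hcon.1
  have hVO : ∀ i, ∀ v ∈ V ∩ O i, ∃ z ∈ (G.P i).D, R z = z ∧ Ψ i z = v := by
    intro i v hv
    have hvi : v ∈ Ψ i '' (G.P i).D := by
      by_contra hcon
      exact hv.2 ⟨hv.1, hcon⟩
    obtain ⟨z, hz, rfl⟩ := hvi
    exact ⟨R z, (G.P i).R_maps z hz, (G.P i).R_idem z hz,
      (heq i i _ ((G.P i).R_maps z hz) _ hz).2 ((G.P i).π_R hz)⟩
  have huniq : ∀ i, ∀ z ∈ (G.P i).D, ∀ w ∈ (G.P i).D, R z = z → R w = w → Ψ i z = Ψ i w →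
      z = w := by
    intro i z hz w hw hRz hRw h
    have := ((G.P i).inj z hz w hw).1 ((heq i i z hz w hw).1 h)
    rwa [hRz, hRw] at this
  have hΦ : ∀ i, ∃ Φ : En M → En m, ContDiffOn ℝ ∞ Φ (O i) ∧
      ∀ v ∈ V ∩ O i, Φ v ∈ (G.P i).D ∧ R (Φ v) = Φ v ∧ Ψ i (Φ v) = v := by
    intro i
    let φ : En M → En m := fun v =>
      if h : ∃ z, z ∈ (G.P i).D ∧ R z = z ∧ Ψ i z = v then h.choose else 0
    have hφ : ∀ v ∈ V ∩ O i, φ v ∈ (G.P i).D ∧ R (φ v) = φ v ∧ Ψ i (φ v) = v := by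
      intro v hv
      obtain ⟨z, hz, hRz, hzv⟩ := hVO i v hv
      have hex : ∃ z, z ∈ (G.P i).D ∧ R z = z ∧ Ψ i z = v := ⟨z, hz, hRz, hzv⟩
      have : φ v = hex.choose := dif_pos hex
      rw [this]
      exact hex.choose_spec
    obtain ⟨Φ, hΦ1, hΦ2⟩ := exists_smooth_on_open (hOo i) hVc.isClosed φ (by
      intro v hv
      obtain ⟨h1, h2, h3⟩ := hφ v hv
      obtain ⟨N, hN, hvN, g, hg1, hg2⟩ := hlocal i (φ v) h1
      rw [h3] at hvN
      refine ⟨N ∩ O i, (hN.inter (hOo i)).mem_nhds ⟨hvN, hv.2⟩, g, hg1.mono inter_subset_left, ?_⟩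
      rintro y ⟨⟨hyN, hyO⟩, hyV⟩
      obtain ⟨h4, h5, h6⟩ := hg2 y ⟨hyN, hyV⟩
      obtain ⟨h7, h8, h9⟩ := hφ y ⟨hyV, hyO⟩
      exact huniq i _ h4 _ h7 h5 h8 (h6.trans h9.symm))
    refine ⟨Φ, hΦ1, fun v hv => ?_⟩
    rw [hΦ2 v hv]
    exact hφ v hv
  choose Φ hΦs hΦp using hΦ
  have hmaps : ∀ i, ∀ z ∈ (G.P i).D, Ψ i z ∈ V ∩ O i := fun i z hz =>
    ⟨hmemV i z hz, fun hcon => hcon.2 ⟨z, hz, rfl⟩⟩
  refine ⟨{
    M := M
    V := V
    Ψ := Ψ
    Φ := Φ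
    O := O
    compactV := hVc
    openO := hOo
    smoothΨ := hsm
    smoothΦ := hΦs
    maps := hmaps
    mapsΦ := hΦp
    left := ?_
    eq_iff := heq
    cover := ?_ }⟩
  · intro i z hz
    obtain ⟨h1, h2, h3⟩ := hΦp i _ (hmaps i z hz)
    refine huniq i _ h1 _ ((G.P i).R_maps z hz) h2 ((G.P i).R_idem z hz) (h3.trans ?_)
    exact (heq i i _ hz _ ((G.P i).R_maps z hz)).2 ((G.P i).π_R hz).symm
  · intro v hv
    obtain ⟨j, w, hwK, rfl⟩ := mem_iUnion.1 hv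
    obtain ⟨k, w', hw'K, hw'R, hw'π⟩ := G.K_cover j w (G.K_sub j hwK)
    exact ⟨k, w', hw'K, hw'R,
      ((heq k j w' (G.K_sub k hw'K) w (G.K_sub j hwK)).2 hw'π).symm⟩

end EXO.Vc
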