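import Mathlib
import Pool.Agent.EXO.VcDefs
import Pool.Agent.EXO.GcTw

/-!
# EXO, part VCL, module VcW: the algebra of `W`

`tw l x = rot4 (tha4 l x)`, `twi l x = rot4 (star (tha4 l x))` (module GcTw: `rot4_mul`, `rot4_one`, `norm_rot4`, `norm_tha4`,
`contDiffOn_tha4`; `q * star q = 1` for `‖q‖ = 1`).

PROOFS.
* `ivn`: `ivn x = (‖x‖²)⁻¹ • x`, also `ivn 0 = 0`.
* `tw_ivn`: `tha4 l (c • x) = tha4 l x` for `0 < c` (the quotient `x_i / x_0` and the sign of `x_0` do not change).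
* `tw_of_nonpos`: `tha4 l x = 1` if `x 0 ≤ 0`.
* `ivn_tw`: `tw l x` is linear and preserves the norm.
* `contDiffOn_tw`: `rot4 q y` is smooth (polynomial) in `(q, y)`: components (`rot4`, `mk4`, `Adq`, `vim`, `imq`; see `contDiff_Adq` in
  module GbAd), `tha4` is smooth on `x ≠ 0`.
* `pA_eq_k`, `pB_eq_k`: case distinction in the definition, `ivn (ivn x) = x`.
* `pA_inj`, `pB_inj`: case distinction, `ivn`, `twi l x` injective.
* `pA_eq_pB`: case distinction.  `pA_eq_pB_norm`: take the norms in `pA_eq_pB` (`‖ivn x'‖ = ‖x'‖⁻¹`).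
* `pB_tt`: for `Y' := twi l X Y ≠ 0`, `X' := tw l Y' X`: `pB l (ivn X') Y' = XW.k (twi l Y' (ivn (tw l Y' X))) (ivn (twi l X Y))
  = XW.k (ivn X) (twi l X (ivn Y)) = pA l X (ivn Y)` (`ivn_tw`, `ivn_twi`, `twi_tw`, `twi_ivn`).
* `pA_eq_pB_end`: `pA_eq_pB` gives `X ≠ 0`, `Y' ≠ 0` (as `ivn Y = 0` iff `Y = 0`); `Y' = ivn (ivn Y') = ivn (twi l X (ivn Y)) = twi l X Y`,
  `ivn X = twi l Y' (ivn X') = ivn (twi l Y' X')`, so `X = twi l Y' X'`, `X' = tw l Y' X`.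
* `gW_*`: direct computations with the norms.
-/

set_option autoImplicit false
set_option maxSynthPendingDepth 3

open Set Filter Topology
open scoped ContDiff Quaternion
open Pool.Agent.EXO

namespace EXO.Vc

private theorem VcW_pos {x : En 4} (hx : x ≠ 0) : 0 < (‖x‖ ^ 2)⁻¹ := by
  have : 0 < ‖x‖ := norm_pos_iff.2 hx
  positivity

theorem ivn_zero : ivn (0 : En 4) = 0 := by
  rw [ivn, smul_zero]

theorem norm_ivn (x : En 4) : ‖ivn x‖ = ‖x‖⁻¹ := by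
  rw [ivn, norm_smul, Real.norm_of_nonneg (by positivity)]
  rcases eq_or_ne x 0 with h | h
  · rw [h, norm_zero, mul_zero, inv_zero]
  · have h2 : ‖x‖ ≠ 0 := norm_ne_zero_iff.2 h
    field_simp

theorem ivn_ivn (x : En 4) : ivn (ivn x) = x := by
  rcases eq_or_ne x 0 with hx | hx
  · rw [hx, ivn_zero, ivn_zero]
  · have h2 : ‖x‖ ≠ 0 := norm_ne_zero_iff.2 hx
    rw [ivn, norm_ivn, ivn, smul_smul]
    have : ((‖x‖⁻¹ ^ 2)⁻¹ * (‖x‖ ^ 2)⁻¹) = 1 := by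
      field_simp
    rw [this, one_smul]

theorem ivn_eq_zero (x : En 4) : ivn x = 0 ↔ x = 0 := by
  constructor
  · intro h
    rw [← ivn_ivn x, h, ivn_zero]
  · intro h
    rw [h, ivn_zero]

theorem contDiffOn_ivn : ContDiffOn ℝ ∞ (ivn : En 4 → En 4) {x | x ≠ 0} := by
  have h : ContDiffOn ℝ ∞ (fun x : En 4 => (‖x‖ ^ 2)⁻¹) {x | x ≠ 0} :=
    (contDiff_norm_sq ℝ).contDiffOn.inv fun x hx => pow_ne_zero 2 (norm_ne_zero_iff.mpr hx)
  exact h.smul contDiffOn_id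

private theorem VcW_tha4_smul (l : ℝ) {r : ℝ} (hr : 0 < r) (x : En 4) :
    tha4 l (r • x) = tha4 l x := by
  have h0 : (r • x) 0 = r * x 0 := rfl
  have h1 : vec4 (r • x) = r • vec4 x := by
    ext i
    fin_cases i <;> simp [vec4]
  have h2 : 0 < r * x 0 ↔ 0 < x 0 := mul_pos_iff_of_pos_left hr
  unfold tha4
  simp only [h0, h1, h2]
  split_ifs with h
  · rw [smul_smul, mul_inv, mul_comm r⁻¹, mul_assoc, inv_mul_cancel₀ hr.ne', mul_one]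
  · rfl

private theorem VcW_tha4_ivn (l : ℝ) (x : En 4) : tha4 l (ivn x) = tha4 l x := by
  rcases eq_or_ne x 0 with hx | hx
  · rw [hx, ivn_zero]
  · exact VcW_tha4_smul l (VcW_pos hx) x

variable {l : ℝ}

theorem tw_ivn (x : En 4) : tw l (ivn x) = tw l x := by
  rw [tw, tw, VcW_tha4_ivn]

theorem twi_ivn (x : En 4) : twi l (ivn x) = twi l x := by
  rw [twi, twi, VcW_tha4_ivn]

theorem tw_of_nonpos {x : En 4} (hx : x 0 ≤ 0) (y : En 4) : tw l x y = y := by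
  rw [tw, tha4, if_neg (not_lt.2 hx), rot4_one]

theorem tw_twi (hl : 0 < l) (x y : En 4) : tw l x (twi l x y) = y := by
  rw [tw, twi, ← rot4_mul, (star_mul_of_norm (norm_tha4 hl x)).2, rot4_one]

theorem twi_tw (hl : 0 < l) (x y : En 4) : twi l x (tw l x y) = y := by
  rw [tw, twi, ← rot4_mul, (star_mul_of_norm (norm_tha4 hl x)).1, rot4_one]

theorem norm_tw (hl : 0 < l) (x y : En 4) : ‖tw l x y‖ = ‖y‖ := by
  rw [tw]
  exact norm_rot4 (norm_tha4 hl x) y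

theorem norm_twi (hl : 0 < l) (x y : En 4) : ‖twi l x y‖ = ‖y‖ := by
  rw [twi]
  refine norm_rot4 ?_ y
  rw [Quaternion.norm_star, norm_tha4 hl]

theorem ivn_tw (hl : 0 < l) (x y : En 4) : ivn (tw l x y) = tw l x (ivn y) := by
  rw [ivn, ivn, norm_tw hl, map_smul]

theorem ivn_twi (hl : 0 < l) (x y : En 4) : ivn (twi l x y) = twi l x (ivn y) := by
  rw [ivn, ivn, norm_twi hl, map_smul]

private theorem VcW_cd0 : ContDiff ℝ ∞ (fun y : En 4 => y 0) :=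
  (EuclideanSpace.proj (𝕜 := ℝ) (0 : Fin 4)).contDiff

private theorem VcW_cdv : ContDiff ℝ ∞ vec4 := by
  refine contDiff_euclidean.2 fun i => ?_
  fin_cases i
  · exact (EuclideanSpace.proj (𝕜 := ℝ) (1 : Fin 4)).contDiff
  · exact (EuclideanSpace.proj (𝕜 := ℝ) (2 : Fin 4)).contDiff
  · exact (EuclideanSpace.proj (𝕜 := ℝ) (3 : Fin 4)).contDiff

private noncomputable def VcW_starL : ℍ[ℝ] →L[ℝ] ℍ[ℝ] :=
  LinearMap.toContinuousLinearMap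
    { toFun := fun q => star q
      map_add' := fun u v => star_add u v
      map_smul' := by
        intro c u
        apply Quaternion.ext <;> simp }

private theorem VcW_cdrot : ContDiff ℝ ∞ (fun p : ℍ[ℝ] × En 4 => rot4 p.1 p.2) := by
  have h1 : ContDiff ℝ ∞ (fun p : ℍ[ℝ] × En 4 => Adq p.1 (vec4 p.2)) :=
    (contDiff_Adq.comp contDiff_fst).clm_apply (VcW_cdv.comp contDiff_snd)
  have h0 : ContDiff ℝ ∞ (fun p : ℍ[ℝ] × En 4 => p.2 0) := VcW_cd0.comp contDiff_snd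
  refine contDiff_euclidean.2 fun i => ?_
  fin_cases i
  · exact h0
  · exact (EuclideanSpace.proj (𝕜 := ℝ) (0 : Fin 3)).contDiff.comp h1
  · exact (EuclideanSpace.proj (𝕜 := ℝ) (1 : Fin 3)).contDiff.comp h1
  · exact (EuclideanSpace.proj (𝕜 := ℝ) (2 : Fin 3)).contDiff.comp h1

private theorem VcW_cdtw (hl : 0 < l) {f g : En 4 × En 4 → En 4} (hf : ContDiff ℝ ∞ f)
    (hg : ContDiff ℝ ∞ g) {s : Set (En 4 × En 4)} (hs : ∀ w ∈ s, f w ≠ 0) :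
    ContDiffOn ℝ ∞ (fun w => tw l (f w) (g w)) s ∧ ContDiffOn ℝ ∞ (fun w => twi l (f w) (g w)) s := by
  have h1 : ContDiffOn ℝ ∞ (fun w => tha4 l (f w)) s :=
    ContDiffOn.comp (contDiffOn_tha4 hl) hf.contDiffOn hs
  have h2 : ContDiffOn ℝ ∞ (fun w => VcW_starL (tha4 l (f w))) s :=
    VcW_starL.contDiff.comp_contDiffOn h1
  have h3 : ContDiffOn ℝ ∞ (fun w => (tha4 l (f w), g w)) s := h1.prodMk hg.contDiffOn
  have h4 : ContDiffOn ℝ ∞ (fun w => (VcW_starL (tha4 l (f w)), g w)) s := h2.prodMk hg.contDiffOn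
  have h5 := VcW_cdrot.comp_contDiffOn h3
  have h6 := VcW_cdrot.comp_contDiffOn h4
  constructor
  · exact h5
  · exact h6

theorem contDiffOn_tw (hl : 0 < l) :
    ContDiffOn ℝ ∞ (fun p : En 4 × En 4 => tw l p.1 p.2) {p | p.1 ≠ 0} :=
  (VcW_cdtw hl (contDiff_fst : ContDiff ℝ ∞ (fun p : En 4 × En 4 => p.1))
    (contDiff_snd : ContDiff ℝ ∞ (fun p : En 4 × En 4 => p.2)) (s := {p | p.1 ≠ 0})
    (fun _ hp => hp)).1

theorem contDiffOn_twi (hl : 0 < l) :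
    ContDiffOn ℝ ∞ (fun p : En 4 × En 4 => twi l p.1 p.2) {p | p.1 ≠ 0} :=
  (VcW_cdtw hl (contDiff_fst : ContDiff ℝ ∞ (fun p : En 4 × En 4 => p.1))
    (contDiff_snd : ContDiff ℝ ∞ (fun p : En 4 × En 4 => p.2)) (s := {p | p.1 ≠ 0})
    (fun _ hp => hp)).2

/-! ## The charts of `W` -/

private theorem VcW_pA {x' : En 4} (h : x' ≠ 0) (y : En 4) :
    pA l x' y = XW.k (ivn x') (twi l x' y) := if_neg h

private theorem VcW_pA0 (y : En 4) : pA l 0 y = XW.a y := if_pos rfl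

private theorem VcW_pB {y' : En 4} (h : y' ≠ 0) (x : En 4) :
    pB l x y' = XW.k (twi l y' x) (ivn y') := if_neg h

private theorem VcW_pB0 (x : En 4) : pB l x 0 = XW.b x := if_pos rfl

theorem pA_eq_k {x' y u v : En 4} :
    pA l x' y = XW.k u v ↔ x' ≠ 0 ∧ u = ivn x' ∧ v = twi l x' y := by
  rcases eq_or_ne x' 0 with h | h
  · rw [h, VcW_pA0]
    simp
  · rw [VcW_pA h, XW.k.injEq]
    constructor
    · rintro ⟨h1, h2⟩
      exact ⟨h, h1.symm, h2.symm⟩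
    · rintro ⟨_, h1, h2⟩
      exact ⟨h1.symm, h2.symm⟩

theorem pB_eq_k {x y' u v : En 4} :
    pB l x y' = XW.k u v ↔ y' ≠ 0 ∧ u = twi l y' x ∧ v = ivn y' := by
  rcases eq_or_ne y' 0 with h | h
  · rw [h, VcW_pB0]
    simp
  · rw [VcW_pB h, XW.k.injEq]
    constructor
    · rintro ⟨h1, h2⟩
      exact ⟨h, h1.symm, h2.symm⟩
    · rintro ⟨_, h1, h2⟩
      exact ⟨h1.symm, h2.symm⟩

private theorem VcW_ivn_inj {x u : En 4} (h : ivn x = ivn u) : x = u := by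
  rw [← ivn_ivn x, h, ivn_ivn]

private theorem VcW_twi_inj (hl : 0 < l) {x u v : En 4} (h : twi l x u = twi l x v) : u = v := by
  rw [← tw_twi hl x u, h, tw_twi hl]

theorem pA_inj (hl : 0 < l) {x y u v : En 4} (h : pA l x y = pA l u v) : x = u ∧ y = v := by
  rcases eq_or_ne u 0 with hu | hu
  · rw [hu, VcW_pA0] at h
    rcases eq_or_ne x 0 with hx | hx
    · rw [hx, VcW_pA0, XW.a.injEq] at h
      exact ⟨by rw [hx, hu], h⟩
    · rw [VcW_pA hx] at h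
      exact absurd h (by simp)
  · rw [VcW_pA hu, pA_eq_k] at h
    obtain ⟨hx, h1, h2⟩ := h
    have h3 : x = u := (VcW_ivn_inj h1).symm
    subst h3
    exact ⟨rfl, (VcW_twi_inj hl h2).symm⟩

theorem pB_inj (hl : 0 < l) {x y u v : En 4} (h : pB l x y = pB l u v) : x = u ∧ y = v := by
  rcases eq_or_ne v 0 with hv | hv
  · rw [hv, VcW_pB0] at h
    rcases eq_or_ne y 0 with hy | hy
    · rw [hy, VcW_pB0, XW.b.injEq] at h
      exact ⟨h, by rw [hy, hv]⟩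
    · rw [VcW_pB hy] at h
      exact absurd h (by simp)
  · rw [VcW_pB hv, pB_eq_k] at h
    obtain ⟨hy, h1, h2⟩ := h
    have h3 : y = v := (VcW_ivn_inj h2).symm
    subst h3
    exact ⟨(VcW_twi_inj hl h1).symm, rfl⟩

theorem pA_eq_pB {x' y x y' : En 4} : pA l x' y = pB l x y' ↔
    x' ≠ 0 ∧ y' ≠ 0 ∧ ivn x' = twi l y' x ∧ twi l x' y = ivn y' := by
  rcases eq_or_ne y' 0 with h | h
  · rw [h, VcW_pB0]
    rcases eq_or_ne x' 0 with h1 | h1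
    · rw [h1, VcW_pA0]
      simp
    · rw [VcW_pA h1]
      simp
  · rw [VcW_pB h, pA_eq_k]
    constructor
    · rintro ⟨h1, h2, h3⟩
      exact ⟨h1, h, h2.symm, h3.symm⟩
    · rintro ⟨h1, _, h2, h3⟩
      exact ⟨h1, h2.symm, h3.symm⟩

theorem pA_eq_pB_norm (hl : 0 < l) {x' y x y' : En 4} (h : pA l x' y = pB l x y') :
    ‖x'‖ * ‖x‖ = 1 ∧ ‖y‖ * ‖y'‖ = 1 := by
  obtain ⟨h1, h2, h3, h4⟩ := pA_eq_pB.1 h
  have e1 := congrArg (fun z : En 4 => ‖z‖) h3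
  have e2 := congrArg (fun z : En 4 => ‖z‖) h4
  simp only [norm_ivn, norm_twi hl] at e1 e2
  have n1 : ‖x'‖ ≠ 0 := norm_ne_zero_iff.2 h1
  have n2 : ‖y'‖ ≠ 0 := norm_ne_zero_iff.2 h2
  rw [← e1, e2]
  exact ⟨mul_inv_cancel₀ n1, inv_mul_cancel₀ n2⟩

theorem pB_tt (hl : 0 < l) {X Y : En 4} (hX : X ≠ 0) (hY : Y ≠ 0) :
    pB l (ivn (tt l X Y).1) (tt l X Y).2 = pA l X (ivn Y) := by
  have hY' : twi l X Y ≠ 0 := by
    intro h0
    have h1 := norm_twi hl X Y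
    rw [h0, norm_zero] at h1
    exact hY (norm_eq_zero.1 h1.symm)
  have e : (tt l X Y) = (tw l (twi l X Y) X, twi l X Y) := rfl
  rw [e]
  simp only
  rw [VcW_pB hY', VcW_pA hX, ← ivn_twi hl, twi_tw hl, ← ivn_twi hl]

theorem pA_eq_pB_end (hl : 0 < l) {X Y X' Y' : En 4} (hY : Y ≠ 0) (hX' : X' ≠ 0)
    (h : pA l X (ivn Y) = pB l (ivn X') Y') : X ≠ 0 ∧ Y' ≠ 0 ∧ (X', Y') = tt l X Y := by
  obtain ⟨h1, h2, h3, h4⟩ := pA_eq_pB.1 h
  refine ⟨h1, h2, ?_⟩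
  rw [← ivn_twi hl] at h3 h4
  have h5 : X = twi l Y' X' := VcW_ivn_inj h3
  have h6 : twi l X Y = Y' := VcW_ivn_inj h4
  have e : (tt l X Y) = (tw l (twi l X Y) X, twi l X Y) := rfl
  rw [e, h6]
  rw [Prod.mk.injEq]
  refine ⟨?_, rfl⟩
  conv_rhs => rw [h5]
  rw [tw_twi hl]

/-! ## The function `gW` -/

theorem gW_k (z : En 15) : gW (XW.k (p1 z) (p2 z)) = gK z := rfl

private theorem VcW_gA (hl : 0 < l) (x y : En 4) :
    gW (pA l x y) = ‖y‖ ^ 2 / (1 + ‖x‖ ^ 2 * ‖y‖ ^ 2) := by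
  rcases eq_or_ne x 0 with h | h
  · rw [h, VcW_pA0, norm_zero, gW]
    simp
  · rw [VcW_pA h, gW, norm_ivn, norm_twi hl]
    have h0 : 0 < ‖x‖ := norm_pos_iff.2 h
    have h1 : 0 ≤ ‖y‖ := norm_nonneg _
    have h2 : ‖x‖⁻¹ ^ 2 + ‖y‖ ^ 2 ≠ 0 := by positivity
    have h3 : 1 + ‖x‖ ^ 2 * ‖y‖ ^ 2 ≠ 0 := by positivity
    rw [div_eq_div_iff h2 h3]
    field_simp
    try ring

private theorem VcW_gB (hl : 0 < l) (x y : En 4) :
    gW (pB l x y) = ‖x‖ ^ 2 / (1 + ‖x‖ ^ 2 * ‖y‖ ^ 2) := by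
  rcases eq_or_ne y 0 with h | h
  · rw [h, VcW_pB0, norm_zero, gW]
    simp
  · rw [VcW_pB h, gW, norm_ivn, norm_twi hl]
    have h0 : 0 < ‖y‖ := norm_pos_iff.2 h
    have h1 : 0 ≤ ‖x‖ := norm_nonneg _
    have h2 : ‖x‖ ^ 2 + ‖y‖⁻¹ ^ 2 ≠ 0 := by positivity
    have h3 : 1 + ‖x‖ ^ 2 * ‖y‖ ^ 2 ≠ 0 := by positivity
    rw [div_eq_div_iff h2 h3]
    field_simp
    try ring

theorem gW_A (hl : 0 < l) (z : En 15) : gW (pA l (p1 z) (p2 z)) = g1 z := by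
  rw [VcW_gA hl, g1]

theorem gW_B (hl : 0 < l) (z : En 15) : gW (pB l (p1 z) (p2 z)) = g2 z := by
  rw [VcW_gB hl, g2]

theorem gW_D1 (hl : 0 < l) {X Y : En 4} (hY : Y ≠ 0) :
    gW (pA l X (ivn Y)) = (‖X‖ ^ 2 + ‖Y‖ ^ 2)⁻¹ := by
  rw [VcW_gA hl, norm_ivn]
  have h0 : 0 < ‖Y‖ := norm_pos_iff.2 hY
  have h1 : 0 ≤ ‖X‖ := norm_nonneg _
  have h2 : 1 + ‖X‖ ^ 2 * ‖Y‖⁻¹ ^ 2 ≠ 0 := by positivity
  have h3 : ‖X‖ ^ 2 + ‖Y‖ ^ 2 ≠ 0 := by positivity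
  rw [inv_eq_one_div (‖X‖ ^ 2 + ‖Y‖ ^ 2), div_eq_div_iff h2 h3]
  field_simp
  try ring

theorem gW_D2 (hl : 0 < l) {X Y : En 4} (hX : X ≠ 0) :
    gW (pB l (ivn X) Y) = (‖X‖ ^ 2 + ‖Y‖ ^ 2)⁻¹ := by
  rw [VcW_gB hl, norm_ivn]
  have h0 : 0 < ‖X‖ := norm_pos_iff.2 hX
  have h1 : 0 ≤ ‖Y‖ := norm_nonneg _
  have h2 : 1 + ‖X‖⁻¹ ^ 2 * ‖Y‖ ^ 2 ≠ 0 := by positivity
  have h3 : ‖X‖ ^ 2 + ‖Y‖ ^ 2 ≠ 0 := by positivity
  rw [inv_eq_one_div (‖X‖ ^ 2 + ‖Y‖ ^ 2), div_eq_div_iff h2 h3]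
  field_simp
  try ring

private theorem VcW_small {a b c : ℝ} (hc : 0 < c) (ha : c < a) (hb : c < b)
    (h : a ^ 2 * b ^ 2 / (a ^ 2 + b ^ 2) ≤ c ^ 2 / 2) : False := by
  have ha0 : 0 < a := hc.trans ha
  have hb0 : 0 < b := hc.trans hb
  have h1 : 0 < a ^ 2 + b ^ 2 := by positivity
  rw [div_le_div_iff₀ h1 (by norm_num : (0 : ℝ) < 2)] at h
  have h2 : c ^ 2 < a ^ 2 := by
    exact pow_lt_pow_left₀ ha hc.le (by norm_num)
  have h3 : c ^ 2 < b ^ 2 := by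
    exact pow_lt_pow_left₀ hb hc.le (by norm_num)
  have h4 : 0 < b ^ 2 := by positivity
  have h5 : 0 < a ^ 2 := by positivity
  nlinarith [mul_lt_mul_of_pos_right h2 h4, mul_lt_mul_of_pos_right h3 h5]

/-- a point of `W` with `g ≤ c ^ 2 / 2` has `|x| ≤ c` or `|y| ≤ c` -/
theorem gW_small (hl : 0 < l) {c : ℝ} (hc : 0 < c) (p : XW) (hp : gW p ≤ c ^ 2 / 2) :
    (∃ x y, ‖x‖ ≤ c ∧ ‖y‖ ≤ c ∧ p = XW.k x y) ∨
    (∃ x' y, ‖x'‖ ≤ c⁻¹ ∧ ‖y‖ ≤ c ∧ p = pA l x' y) ∨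
    (∃ x y', ‖x‖ ≤ c ∧ ‖y'‖ ≤ c⁻¹ ∧ p = pB l x y') := by
  cases p with
  | k x y =>
    rw [gW] at hp
    by_cases hx : ‖x‖ ≤ c
    · by_cases hy : ‖y‖ ≤ c
      · exact Or.inl ⟨x, y, hx, hy, rfl⟩
      · have hy' : c < ‖y‖ := not_le.1 hy
        have hy0 : y ≠ 0 := norm_pos_iff.1 (hc.trans hy')
        refine Or.inr (Or.inr ⟨tw l y x, ivn y, ?_, ?_, ?_⟩)
        · rw [norm_tw hl]
          exact hx
        · rw [norm_ivn]
          exact inv_anti₀ hc hy'.le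
        · symm
          rw [pB_eq_k]
          refine ⟨fun h => hy0 ((ivn_eq_zero y).1 h), ?_, ?_⟩
          · rw [twi_ivn, twi_tw hl]
          · rw [ivn_ivn]
    · have hx' : c < ‖x‖ := not_le.1 hx
      have hx0 : x ≠ 0 := norm_pos_iff.1 (hc.trans hx')
      refine Or.inr (Or.inl ⟨ivn x, tw l x y, ?_, ?_, ?_⟩)
      · rw [norm_ivn]
        exact inv_anti₀ hc hx'.le
      · rw [norm_tw hl]
        by_contra hy
        exact VcW_small hc hx' (not_le.1 hy) hp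
      · symm
        rw [pA_eq_k]
        refine ⟨fun h => hx0 ((ivn_eq_zero x).1 h), ?_, ?_⟩
        · rw [ivn_ivn]
        · rw [twi_ivn, twi_tw hl]
  | a y =>
    rw [gW] at hp
    refine Or.inr (Or.inl ⟨0, y, ?_, ?_, ?_⟩)
    · rw [norm_zero]; positivity
    · exact abs_le_of_sq_le_sq' (by nlinarith [sq_nonneg c]) hc.le |>.2
    · rw [VcW_pA0]
  | b x =>
    rw [gW] at hp
    refine Or.inr (Or.inr ⟨x, 0, ?_, ?_, ?_⟩)
    · exact abs_le_of_sq_le_sq' (by nlinarith [sq_nonneg c]) hc.le |>.2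
    · rw [norm_zero]; positivity
    · rw [VcW_pB0]

end EXO.Vc
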